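import Mathlib

/-!
ROW A01 (120-220 lines). Automorphisms of finite order congruent to `1` modulo `π²`, and modulo `π`.

Setting: `B` commutative ring, `H` a `B`-module, `ℓ` prime, `z` in `B` with `∑_{i<ℓ} z^i = 0`,
`p = 1 - z`; `p` is injective on `H` and `⋂ p^n H = 0`.
(1) `exists_pi_identity`: there are `v`, `w` in `B` with `p v = ℓ`, `p^(ℓ-1) = ℓ (-1 + p w)`.
 PROOF. `v = ∑_{k<ℓ} ∑_{i<k} z^i` (`(1 - z) ∑_{i<k} z^i = 1 - z^k`). In `ℤ[X]`,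
 `(1 - X)^(ℓ-1) - ∑_{i<ℓ} X^i` is divisible by `ℓ` (modulo `ℓ`: `(1-X)^ℓ = 1 - X^ℓ =
 (1-X) ∑ X^i`, cancel `1 - X`), equal to `ℓ W`; at `X = 1`: `W(1) = -1`, so
 `W = -1 + (1 - X) W₂`; evaluate at `z`.
(2) `ℓ` is injective on `H`: `ℓ x = 0 → p^(ℓ-1) x = 0`. For `n` prime to `ℓ` and `X` in `B`,
 `n + p X` is injective on `H`: if `(n + pX) y = 0` then `n y ∈ pH`, `ℓ y = p v y ∈ pH`, so
 `y = p y₁` (Bezout), `(n + pX) y₁ = 0` by injectivity of `p`, and so on: `y ∈ ⋂ p^n H = 0`.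
(3) `sq_case`: `W = 1 + p² Y`, `W^M x = x`, `M > 0` imply `Y x = 0`.
 PROOF. `W^ℓ = 1 + ℓ p² Y (1 + p X₁)`: binomial theorem: the terms `C(ℓ,j) p^{2j} Y^j`,
 `2 ≤ j < ℓ`, are divisible by `ℓ p² Y · p`; `p^{2ℓ} Y^ℓ = p^{ℓ-1} p^{ℓ+1} Y^ℓ = ℓ (-1+pw) p^{ℓ+1} Y^ℓ`
 too. By induction `W^{ℓ^s} = 1 + ℓ^s p² Y (1 + p X_s)`, and for `M'` prime to `ℓ`,
 `(1 + p² Y')^{M'} = 1 + p² Y' (M' + p X')`. With `M = ℓ^s M'`:
 `0 = (W^M - 1) x = ℓ^s p² (1 + pX)(M' + pX') Y x`; all factors are injective by (2).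
(4) `fst_case`: `W = 1 + p N`, `W^M x = x`, `M > 0` imply `(N^ℓ - N) x ∈ p H`.
 PROOF. `W^ℓ = 1 + ℓ p N + ∑_{2≤j<ℓ} C(ℓ,j) p^j N^j + p^ℓ N^ℓ` and `p^ℓ = ℓ p (-1 + p w)`:
 `W^ℓ = 1 + ℓ p (N - N^ℓ + p X) = 1 + p² Y` with `Y = v (N - N^ℓ + p X)`, and
 `(W^ℓ)^M x = x`, so `Y x = 0` by (3), `p Y = ℓ (N - N^ℓ + pX)`, so `(N^ℓ - N) x = p X x`.
-/

open Polynomial

namespace Pool.Agent.Lib.MP_89bcae_ag.Sup

variable {B H : Type*} [CommRing B] [AddCommGroup H] [Module B H] {ℓ : ℕ}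

private lemma A01_poly (hℓ : ℓ.Prime) : ∃ W : ℤ[X],
    (1 - X) ^ (ℓ - 1) - ∑ i ∈ Finset.range ℓ, (X : ℤ[X]) ^ i = C (ℓ : ℤ) * W := by
  have : Fact ℓ.Prime := ⟨hℓ⟩
  have h1 : ((1 - X : (ZMod ℓ)[X])) ^ (ℓ - 1) = ∑ i ∈ Finset.range ℓ, (X : (ZMod ℓ)[X]) ^ i := by
    have h2 : (1 - X : (ZMod ℓ)[X]) * (1 - X) ^ (ℓ - 1) =
        (1 - X) * ∑ i ∈ Finset.range ℓ, (X : (ZMod ℓ)[X]) ^ i := by
      rw [mul_neg_geom_sum, ← pow_succ', Nat.sub_add_cancel hℓ.one_le, sub_pow_char, one_pow]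
    have h3 : (1 - X : (ZMod ℓ)[X]) ≠ 0 := by
      intro h
      have := congrArg (eval 0) h
      simp at this
    exact mul_left_cancel₀ h3 h2
  have h4 : C (ℓ : ℤ) ∣ (1 - X) ^ (ℓ - 1) - ∑ i ∈ Finset.range ℓ, (X : ℤ[X]) ^ i := by
    rw [C_dvd_iff_dvd_coeff]
    intro i
    rw [← ZMod.intCast_zmod_eq_zero_iff_dvd]
    have h5 : Polynomial.map (Int.castRingHom (ZMod ℓ))
        ((1 - X) ^ (ℓ - 1) - ∑ i ∈ Finset.range ℓ, (X : ℤ[X]) ^ i) = 0 := by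
      rw [Polynomial.map_sub, Polynomial.map_pow, Polynomial.map_sub, Polynomial.map_one,
        Polynomial.map_X, Polynomial.map_sum, h1]
      simp only [Polynomial.map_pow, Polynomial.map_X, sub_self]
    have h6 := congrArg (fun q => coeff q i) h5
    simp only [coeff_map, coeff_zero] at h6
    exact h6
  obtain ⟨W, hW⟩ := h4
  exact ⟨W, hW⟩

lemma exists_pi_identity (hℓ : ℓ.Prime) (z : B) (hz : ∑ i ∈ Finset.range ℓ, z ^ i = 0) :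
    ∃ v w : B, (1 - z) * v = ℓ ∧ (1 - z) ^ (ℓ - 1) = ℓ * (-1 + (1 - z) * w) := by
  obtain ⟨W, hW⟩ := A01_poly hℓ
  have hW1 : eval 1 W = -1 := by
    have h1 := congrArg (eval (1 : ℤ)) hW
    have h2 : ℓ - 1 ≠ 0 := Nat.sub_ne_zero_of_lt hℓ.one_lt
    simp only [eval_sub, eval_pow, eval_one, eval_X, sub_self, eval_finsetSum, one_pow,
      Finset.sum_const, Finset.card_range, eval_mul, eval_C, zero_pow h2, smul_eq_mul,
      nsmul_eq_mul, mul_one] at h1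
    have h3 : (ℓ : ℤ) ≠ 0 := by exact_mod_cast hℓ.ne_zero
    have h4 : (ℓ : ℤ) * (eval 1 W + 1) = 0 := by linarith
    have h5 := (mul_eq_zero.1 h4).resolve_left h3
    linarith
  obtain ⟨W2, hW2⟩ := (X_sub_C_dvd_sub_C_eval (a := (1 : ℤ)) (p := W))
  rw [hW1] at hW2
  have hWz : aeval z W = -1 + (1 - z) * (-aeval z W2) := by
    have h1 := congrArg (aeval z) hW2
    simp only [map_sub, map_mul, aeval_X, aeval_C, map_neg, map_one] at h1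
    have h2 : aeval z W = (z - 1) * aeval z W2 - 1 := by
      rw [← h1]
      ring
    rw [h2]
    ring
  refine ⟨∑ k ∈ Finset.range ℓ, ∑ i ∈ Finset.range k, z ^ i, -aeval z W2, ?_, ?_⟩
  · rw [Finset.mul_sum]
    simp only [mul_neg_geom_sum, Finset.sum_sub_distrib, Finset.sum_const, Finset.card_range,
      nsmul_eq_mul, mul_one]
    rw [hz, sub_zero]
  · have h1 := congrArg (aeval z) hW
    simp only [map_sub, map_mul, map_pow, map_sum, aeval_X, aeval_C, map_one, hz, sub_zero] at h1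
    rw [h1, hWz]
    simp

private lemma A01_bin (hℓ : ℓ.Prime) (u : B) :
    ∃ R : B, (1 + u) ^ ℓ = 1 + ℓ * u * (1 + u * R) + u ^ ℓ := by
  have h1 := add_pow_prime_eq hℓ u (1 : B)
  refine ⟨∑ k ∈ (Finset.Ioo 0 ℓ).erase 1, u ^ (k - 2) * ((ℓ.choose k / ℓ : ℕ) : B), ?_⟩
  have h2 : (1 : ℕ) ∈ Finset.Ioo 0 ℓ := Finset.mem_Ioo.2 ⟨one_pos, hℓ.one_lt⟩
  have h3 : ∑ k ∈ Finset.Ioo 0 ℓ, u ^ (k - 1) * (1 : B) ^ (ℓ - k - 1) *
      ((ℓ.choose k / ℓ : ℕ) : B) = 1 + u * ∑ k ∈ (Finset.Ioo 0 ℓ).erase 1, u ^ (k - 2) *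
      ((ℓ.choose k / ℓ : ℕ) : B) := by
    rw [← Finset.add_sum_erase _ _ h2, Finset.mul_sum]
    congr 1
    · rw [Nat.choose_one_right, Nat.div_self hℓ.pos]
      simp
    · refine Finset.sum_congr rfl fun k hk => ?_
      rw [Finset.mem_erase, Finset.mem_Ioo] at hk
      have h4 : k - 1 = (k - 2) + 1 := by omega
      rw [h4, pow_succ]
      ring
  rw [h3] at h1
  rw [add_comm, h1]
  ring

section

variable {z : B}

private lemma A01_inj_pow (hinj : ∀ x : H, (1 - z) • x = 0 → x = 0) (n : ℕ) (x : H)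
    (h : (1 - z) ^ n • x = 0) : x = 0 := by
  induction n with
  | zero => simpa using h
  | succ n ih =>
    rw [pow_succ', mul_smul] at h
    exact ih (hinj _ h)

private lemma A01_inj_unit (hℓ : ℓ.Prime) (hz : ∑ i ∈ Finset.range ℓ, z ^ i = 0)
    (hinj : ∀ x : H, (1 - z) • x = 0 → x = 0)
    (hsep : ∀ x : H, (∀ n : ℕ, ∃ y : H, x = (1 - z) ^ n • y) → x = 0)
    (a : ℤ) (ha : IsCoprime a (ℓ : ℤ)) (X : B) (y : H) (h : ((a : B) + (1 - z) * X) • y = 0) :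
    y = 0 := by
  obtain ⟨v, w, hv, -⟩ := exists_pi_identity (B := B) hℓ z hz
  obtain ⟨c, d, hcd⟩ := ha
  have key : ∀ n : ℕ, ∃ y' : H, y = (1 - z) ^ n • y' ∧ ((a : B) + (1 - z) * X) • y' = 0 := by
    intro n
    induction n with
    | zero => exact ⟨y, by simp, h⟩
    | succ n ih =>
      obtain ⟨y', h1, h2⟩ := ih
      have h3 : ((c : B) * (a : B) + (d : B) * (ℓ : B)) = 1 := by
        exact_mod_cast congrArg (fun q : ℤ => (q : B)) hcd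
      have h4 : y' = (1 - z) • ((-(c : B) * X + d * v) • y') := by
        have h5 : (1 - z) * (-(c : B) * X + d * v) = 1 - (c : B) * ((a : B) + (1 - z) * X) := by
          linear_combination (d : B) * hv + h3
        rw [← mul_smul, h5, sub_smul, one_smul, mul_smul, h2, smul_zero, sub_zero]
      refine ⟨(-(c : B) * X + d * v) • y', ?_, ?_⟩
      · rw [pow_succ, mul_smul, ← h4]
        exact h1
      · rw [← mul_smul, mul_comm, mul_smul, h2, smul_zero]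
  refine hsep y fun n => ?_
  obtain ⟨y', h1, -⟩ := key n
  exact ⟨y', h1⟩

private lemma A01_inj_l (hℓ : ℓ.Prime) (hz : ∑ i ∈ Finset.range ℓ, z ^ i = 0)
    (hinj : ∀ x : H, (1 - z) • x = 0 → x = 0) (x : H) (h : (ℓ : B) • x = 0) : x = 0 := by
  obtain ⟨v, w, -, hw⟩ := exists_pi_identity (B := B) hℓ z hz
  refine A01_inj_pow hinj (ℓ - 1) x ?_
  rw [hw, mul_comm, mul_smul, h, smul_zero]

private lemma A01_inj_l_pow (hℓ : ℓ.Prime) (hz : ∑ i ∈ Finset.range ℓ, z ^ i = 0)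
    (hinj : ∀ x : H, (1 - z) • x = 0 → x = 0) (s : ℕ) (x : H) (h : (ℓ : B) ^ s • x = 0) :
    x = 0 := by
  induction s with
  | zero => simpa using h
  | succ n ih =>
    rw [pow_succ', mul_smul] at h
    exact ih (A01_inj_l hℓ hz hinj _ h)

private lemma A01_pow_l (hℓ : ℓ.Prime) (hz : ∑ i ∈ Finset.range ℓ, z ^ i = 0) (Y : B) :
    ∃ X : B, (1 + (1 - z) ^ 2 * Y) ^ ℓ = 1 + ℓ * ((1 - z) ^ 2 * Y) * (1 + (1 - z) * X) := by
  obtain ⟨v, w, -, hw⟩ := exists_pi_identity (B := B) hℓ z hz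
  obtain ⟨R, hR⟩ := A01_bin hℓ ((1 - z) ^ 2 * Y)
  obtain ⟨m, hm⟩ : ∃ m, ℓ = m + 2 := ⟨ℓ - 2, by have := hℓ.two_le; omega⟩
  have h1 : ((1 - z) ^ 2 * Y) ^ ℓ = ℓ * ((1 - z) ^ 2 * Y) *
      ((1 - z) * ((-1 + (1 - z) * w) * (1 - z) ^ m * Y ^ (ℓ - 1))) := by
    have h2 : ((1 - z) ^ 2 * Y) ^ ℓ = ((1 - z) ^ 2 * Y) * ((1 - z) ^ (ℓ - 1) *
        (1 - z) ^ (ℓ - 1) * Y ^ (ℓ - 1)) := by
      obtain ⟨k, hk⟩ : ∃ k, ℓ = k + 1 := ⟨ℓ - 1, by have := hℓ.one_le; omega⟩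
      rw [hk]
      simp only [Nat.add_sub_cancel]
      rw [pow_succ', mul_pow, ← pow_mul]
      ring
    have h3 : (1 - z) ^ (ℓ - 1) * (1 - z) ^ (ℓ - 1) =
        (ℓ * (-1 + (1 - z) * w)) * ((1 - z) * (1 - z) ^ m) := by
      nth_rewrite 1 [hw]
      congr 1
      rw [← pow_succ']
      congr 1
      omega
    rw [h2, h3]
    ring
  refine ⟨(1 - z) * Y * R + (-1 + (1 - z) * w) * (1 - z) ^ m * Y ^ (ℓ - 1), ?_⟩
  rw [hR, h1]
  ring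

private lemma A01_pow_ls (hℓ : ℓ.Prime) (hz : ∑ i ∈ Finset.range ℓ, z ^ i = 0) (Y : B) (s : ℕ) :
    ∃ X : B, (1 + (1 - z) ^ 2 * Y) ^ (ℓ ^ s) =
      1 + (1 - z) ^ 2 * ((ℓ : B) ^ s * Y * (1 + (1 - z) * X)) := by
  induction s with
  | zero => exact ⟨0, by simp⟩
  | succ s ih =>
    obtain ⟨X, hX⟩ := ih
    obtain ⟨X', hX'⟩ := A01_pow_l hℓ hz ((ℓ : B) ^ s * Y * (1 + (1 - z) * X))
    refine ⟨X + X' + (1 - z) * X * X', ?_⟩
    rw [show ℓ ^ (s + 1) = ℓ ^ s * ℓ from pow_succ _ _, pow_mul, hX, hX']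
    ring

private lemma A01_pow_M (u : B) (M : ℕ) : ∃ R : B, (1 + u) ^ M = 1 + u * (M + u * R) := by
  induction M with
  | zero => exact ⟨0, by simp⟩
  | succ n ih =>
    obtain ⟨R, hR⟩ := ih
    refine ⟨R + n + u * R, ?_⟩
    rw [pow_succ, hR]
    push_cast
    ring

private lemma A01_fix {W : B} {x : H} (h : W • x = x) (n : ℕ) : W ^ n • x = x := by
  induction n with
  | zero => simp
  | succ n ih => rw [pow_succ, mul_smul, h, ih]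

end

lemma sq_case (hℓ : ℓ.Prime) (z : B) (hz : ∑ i ∈ Finset.range ℓ, z ^ i = 0)
    (hinj : ∀ x : H, (1 - z) • x = 0 → x = 0)
    (hsep : ∀ x : H, (∀ n : ℕ, ∃ y : H, x = (1 - z) ^ n • y) → x = 0)
    (Y : B) (x : H) (M : ℕ) (hM : 0 < M) (hx : (1 + (1 - z) ^ 2 * Y) ^ M • x = x) :
    Y • x = 0 := by
  obtain ⟨s, M', hM', hMe⟩ := Nat.exists_eq_pow_mul_and_not_dvd hM.ne' ℓ hℓ.ne_one
  obtain ⟨X, hX⟩ := A01_pow_ls hℓ hz Y s
  obtain ⟨R, hR⟩ := A01_pow_M ((1 - z) ^ 2 * ((ℓ : B) ^ s * Y * (1 + (1 - z) * X))) M'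
  have hcop : IsCoprime (M' : ℤ) (ℓ : ℤ) := by
    rw [Nat.isCoprime_iff_coprime]
    exact ((Nat.Prime.coprime_iff_not_dvd hℓ).2 hM').symm
  rw [hMe, pow_mul, hX, hR, add_smul, one_smul, add_eq_left] at hx
  have e : (1 - z) ^ 2 * ((ℓ : B) ^ s * Y * (1 + (1 - z) * X)) *
      ((M' : B) + (1 - z) ^ 2 * ((ℓ : B) ^ s * Y * (1 + (1 - z) * X)) * R) =
      (1 - z) ^ 2 * ((ℓ : B) ^ s * ((((1 : ℤ) : B) + (1 - z) * X) * ((((M' : ℤ) : B) + (1 - z) *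
        ((1 - z) * ((ℓ : B) ^ s * Y * (1 + (1 - z) * X)) * R)) * Y))) := by
    push_cast
    ring
  rw [e, mul_smul, mul_smul, mul_smul, mul_smul] at hx
  have h1 := A01_inj_pow hinj _ _ hx
  have h2 := A01_inj_l_pow hℓ hz hinj _ _ h1
  have h3 := A01_inj_unit hℓ hz hinj hsep 1 isCoprime_one_left _ _ h2
  exact A01_inj_unit hℓ hz hinj hsep _ hcop _ _ h3

lemma fst_case (hℓ : ℓ.Prime) (z : B) (hz : ∑ i ∈ Finset.range ℓ, z ^ i = 0)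
    (hinj : ∀ x : H, (1 - z) • x = 0 → x = 0)
    (hsep : ∀ x : H, (∀ n : ℕ, ∃ y : H, x = (1 - z) ^ n • y) → x = 0)
    (N : B) (x : H) (M : ℕ) (hM : 0 < M) (hx : (1 + (1 - z) * N) ^ M • x = x) :
    ∃ y : H, (N ^ ℓ - N) • x = (1 - z) • y := by
  obtain ⟨v, w, hv, hw⟩ := exists_pi_identity (B := B) hℓ z hz
  obtain ⟨R, hR⟩ := A01_bin hℓ ((1 - z) * N)
  have h1 : ((1 - z) * N) ^ ℓ = ℓ * ((1 - z) * ((-1 + (1 - z) * w) * N ^ ℓ)) := by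
    have h2 : (1 - z) ^ ℓ = (1 - z) * (1 - z) ^ (ℓ - 1) := by
      rw [← pow_succ', Nat.sub_add_cancel hℓ.one_le]
    rw [mul_pow, h2, hw]
    ring
  have hW : (1 + (1 - z) * N) ^ ℓ = 1 + (1 - z) ^ 2 * (v * (N - N ^ ℓ + (1 - z) *
      (N * N * R + w * N ^ ℓ))) := by
    have h3 : (1 + (1 - z) * N) ^ ℓ = 1 + (ℓ : B) * ((1 - z) * (N - N ^ ℓ + (1 - z) *
      (N * N * R + w * N ^ ℓ))) := by
      rw [hR, h1]
      ring
    rw [h3, ← hv]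
    ring
  have hx' : (1 + (1 - z) ^ 2 * (v * (N - N ^ ℓ + (1 - z) *
      (N * N * R + w * N ^ ℓ)))) ^ M • x = x := by
    rw [← hW, ← pow_mul, mul_comm ℓ M, pow_mul]
    exact A01_fix hx ℓ
  have h4 := sq_case hℓ z hz hinj hsep _ x M hM hx'
  have h5 : (N - N ^ ℓ + (1 - z) * (N * N * R + w * N ^ ℓ)) • x = 0 := by
    refine A01_inj_l hℓ hz hinj _ ?_
    rw [← hv, ← mul_smul, mul_assoc, mul_smul, h4, smul_zero]
  refine ⟨(N * N * R + w * N ^ ℓ) • x, ?_⟩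
  rw [← mul_smul, ← sub_eq_zero, ← sub_smul]
  have e : N ^ ℓ - N - (1 - z) * (N * N * R + w * N ^ ℓ) =
      -(N - N ^ ℓ + (1 - z) * (N * N * R + w * N ^ ℓ)) := by ring
  rw [e, neg_smul, h5, neg_zero]

end Pool.Agent.Lib.MP_89bcae_ag.Sup
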