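import Mathlib
import Pool.Agent.Lib.MP_89bcae_ag.Defs8

section

/-!
# Invariant classes in the `ℓ`-adic Selmer group of the Jacobian of `y ^ ℓ = ∏ (x - α_i(t)) ^ (W_i)`

`k` is a field, `F` an algebraic closure of `k`, `L` the field of rational functions `F(t)` and `Ω`
an algebraic closure of `L`; the `α_i` are polynomials in `k[t]` and the `W_i` natural numbers. The
Jacobian is that of the smooth projective model of the curve. The polynomials `α_i` are given by
families of lines of the projective plane.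
-/

open Polynomial IsDedekindDomain

open scoped Classical

namespace Pool.Agent.Lib.MP_89bcae_ag.Wt

universe u

/-- The ring `A(x)[y] / (y ^ N - f(x))` of the rational functions on the curve `y ^ N = f(x)`. -/
abbrev FunField (N : ℕ) {A : Type u} [Field A] (f : A[X]) : Type u :=
  AdjoinRoot (X ^ N - C (algebraMap A[X] (RatFunc A) f) : (RatFunc A)[X])

/-- The integral closure of `A[x]` in `A(x)[y] / (y ^ N - f(x))`: the coordinate ring of the
normalization of the affine curve `y ^ N = f(x)`. -/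
abbrev NRing (N : ℕ) {A : Type u} [Field A] (f : A[X]) : Type u :=
  integralClosure A[X] (FunField N f)

/-- The Picard group of the normalization of the affine curve `y ^ N = f(x)`, written additively. If
`A` is algebraically closed, `N ≠ 0` in `A` and the degree of `f` is prime to `N`, then the smooth
projective model of the curve has one point at infinity, and this is its group of divisor classes of
degree zero, the group of points over `A` of the Jacobian variety. -/
abbrev Jac (N : ℕ) {A : Type u} [Field A] (f : A[X]) : Type u :=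
  Additive (CommRing.Pic (NRing N f))

section Maps

variable (N : ℕ) {A B : Type u} [Field A] [Field B]

/-- The homomorphism `A(x) → B(x)` induced by a homomorphism of fields. -/
noncomputable def ratMap (σ : A →+* B) : RatFunc A →+* RatFunc B :=
  RatFunc.mapRingHom (mapRingHom σ)
    (nonZeroDivisors_le_comap_nonZeroDivisors_of_injective _ (map_injective σ σ.injective))

lemma ratMap_algebraMap (σ : A →+* B) (p : A[X]) :
    ratMap σ (algebraMap A[X] (RatFunc A) p) = algebraMap B[X] (RatFunc B) (p.map σ) := by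
  have h := RatFunc.map_apply_div (mapRingHom σ)
    (nonZeroDivisors_le_comap_nonZeroDivisors_of_injective _ (map_injective σ σ.injective)) p 1
  rw [map_one, div_one, map_one, map_one, div_one] at h
  rw [ratMap, RatFunc.coe_mapRingHom_eq_coe_map]
  exact h

/-- The homomorphism of the rings of rational functions induced by a homomorphism `σ` of fields
which maps the coefficients of `f` to those of `f'`. -/
noncomputable def funMap (σ : A →+* B) {f : A[X]} {f' : B[X]} (h : f.map σ = f') :
    FunField N f →+* FunField N f' :=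
  AdjoinRoot.map (ratMap σ) _ _ (dvd_of_eq (by
    rw [Polynomial.map_sub, Polynomial.map_pow, Polynomial.map_X, Polynomial.map_C,
      ratMap_algebraMap, h]))

lemma funMap_algebraMap (σ : A →+* B) {f : A[X]} {f' : B[X]} (h : f.map σ = f') (p : A[X]) :
    funMap N σ h (algebraMap A[X] (FunField N f) p) =
      algebraMap B[X] (FunField N f') (p.map σ) := by
  rw [IsScalarTower.algebraMap_apply A[X] (RatFunc A) (FunField N f),
    IsScalarTower.algebraMap_apply B[X] (RatFunc B) (FunField N f'), ← ratMap_algebraMap,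
    AdjoinRoot.algebraMap_eq, AdjoinRoot.algebraMap_eq, funMap, AdjoinRoot.map_of]

lemma funMap_isIntegral (σ : A →+* B) {f : A[X]} {f' : B[X]} (h : f.map σ = f')
    (a : NRing N f) : funMap N σ h (a : FunField N f) ∈ integralClosure B[X] (FunField N f') := by
  obtain ⟨p, hp, hpa⟩ := (a.2 : IsIntegral A[X] (a : FunField N f))
  refine ⟨p.map (mapRingHom σ), hp.map _, ?_⟩
  rw [Polynomial.eval₂_map, show (algebraMap B[X] (FunField N f')).comp (mapRingHom σ) =
    (funMap N σ h).comp (algebraMap A[X] (FunField N f)) from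
      RingHom.ext fun q => (funMap_algebraMap N σ h q).symm, ← Polynomial.hom_eval₂, hpa, map_zero]

/-- The homomorphism of coordinate rings induced by a homomorphism `σ` of fields which maps the
coefficients of `f` to those of `f'`. -/
noncomputable def coordMap (σ : A →+* B) {f : A[X]} {f' : B[X]} (h : f.map σ = f') :
    NRing N f →+* NRing N f' :=
  ((funMap N σ h).comp (algebraMap (NRing N f) (FunField N f))).codRestrict
    (integralClosure B[X] (FunField N f')) (funMap_isIntegral N σ h)

/-- The homomorphism of Jacobians induced by a homomorphism `σ` of fields which maps the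
coefficients of `f` to those of `f'`. -/
noncomputable def jacMap (σ : A →+* B) {f : A[X]} {f' : B[X]} (h : f.map σ = f') :
    Jac N f →+ Jac N f' :=
  MonoidHom.toAdditive (CommRing.Pic.mapRingHom (coordMap N σ h))

end Maps

section

variable {L : Type u} [Field L]

/-- The points of the Jacobian of `y ^ ℓ = f(x)` over an extension `A` of the field `L` of the
coefficients of `f`. -/
abbrev JacOver (ℓ : ℕ) (f : L[X]) (A : Type u) [Field A] [Algebra L A] : Type u :=
  Jac ℓ (f.map (algebraMap L A))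

/-- The action of a homomorphism of extensions of `L` on the points of the Jacobian. -/
noncomputable def push (ℓ : ℕ) (f : L[X]) {A B : Type u} [Field A] [Field B] [Algebra L A]
    [Algebra L B] (σ : A →ₐ[L] B) : JacOver ℓ f A →+ JacOver ℓ f B :=
  jacMap ℓ (σ : A →+* B) (by rw [Polynomial.map_map, AlgHom.comp_algebraMap])

variable {Ω : Type u} [Field Ω] [Algebra L Ω]

/-- `c` is a continuous `1`-cocycle of `Aut(Ω/L)` with values in the `ℓ`-adic Tate module of the
Jacobian of `y ^ ℓ = f(x)`; its component `c n` has values in the points of order dividing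
`ℓ ^ n`. -/
structure IsTateCocycle (ℓ : ℕ) (f : L[X]) (c : ℕ → (Ω ≃ₐ[L] Ω) → JacOver ℓ f Ω) : Prop where
  zero : ∀ σ, c 0 σ = 0
  smul : ∀ n σ, ℓ • c (n + 1) σ = c n σ
  cocycle : ∀ n (σ τ : Ω ≃ₐ[L] Ω), c n (σ * τ) = c n σ + push ℓ f (σ : Ω →ₐ[L] Ω) (c n τ)
  locallyConstant : ∀ n, IsLocallyConstant (c n)

/-- The class of the cocycle `c` in `H¹(Lv, J)` is trivial, where `Lv` is a field containing `L`:
for every algebraic closure `M` of `Lv` and every embedding `j` of `Ω` in `M` over `L`, there is a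
point `Q` of `J(M)` with `j(c(g|_Ω)) = g(Q) - Q` for all `g` in `Aut(M/Lv)`. -/
def IsLocallyTrivial (ℓ : ℕ) (f : L[X]) (c : (Ω ≃ₐ[L] Ω) → JacOver ℓ f Ω)
    (Lv : Type u) [Field Lv] [Algebra L Lv] : Prop :=
  ∀ (M : Type u) [Field M] [Algebra Lv M] [IsAlgClosure Lv M] [Algebra L M] [IsScalarTower L Lv M]
    (j : Ω →ₐ[L] M), ∃ Q : JacOver ℓ f M, ∀ (g : M ≃ₐ[Lv] M) (g' : Ω ≃ₐ[L] Ω),
      (∀ x, j (g' x) = g (j x)) →
        push ℓ f j (c g') = push ℓ f (g.restrictScalars L : M →ₐ[L] M) Q - Q

/-- The class of the cocycle `c` in `H¹(L, T_ℓ J)` is fixed, up to torsion, by the automorphism `γ`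
of `Ω` (which fixes the coefficients of `f`): some positive multiple `m (γ c - c)` is at every level
a coboundary. Here `(γ c)(h) = γ (c (γ⁻¹ h γ))`. -/
def IsFixedBy (ℓ : ℕ) (f : L[X]) (c : ℕ → (Ω ≃ₐ[L] Ω) → JacOver ℓ f Ω) (γ : Ω ≃+* Ω)
    (hγ : (f.map (algebraMap L Ω)).map (γ : Ω →+* Ω) = f.map (algebraMap L Ω)) : Prop :=
  ∃ m : ℕ, 0 < m ∧ ∀ n, ∃ A : JacOver ℓ f Ω, ℓ ^ n • A = 0 ∧
    ∀ g h : Ω ≃ₐ[L] Ω, (∀ x, γ (g x) = h (γ x)) →
      m • (jacMap ℓ (γ : Ω →+* Ω) hγ (c n g) - c n h) = push ℓ f (h : Ω →ₐ[L] Ω) A - A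

/-- The class of the cocycle `c` vanishes: at every level `n`, it is the coboundary of a point of
order dividing `ℓ ^ n`. -/
def IsTrivial (ℓ : ℕ) (f : L[X]) (c : ℕ → (Ω ≃ₐ[L] Ω) → JacOver ℓ f Ω) : Prop :=
  ∀ n, ∃ A : JacOver ℓ f Ω, ℓ ^ n • A = 0 ∧ ∀ g : Ω ≃ₐ[L] Ω,
    c n g = push ℓ f (g : Ω →ₐ[L] Ω) A - A

end

section Arrangement

variable (k F L : Type u) [Field k] [Field F] [Algebra k F] [Field L] [Algebra F[X] L]

/-- The polynomial `∏ (x - α_i(t)) ^ (W_i)` in `x` over the field `L = F(t)`. -/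
noncomputable def weightedPoly {ι : Type} [Fintype ι] (W : ι → ℕ) (α : ι → k[X]) : L[X] :=
  ∏ i, (X - C (base k F L L (α i))) ^ W i

end Arrangement

/-- Let `k'` be an extension of `k` in `F`. Every class of the `ℓ`-adic Selmer group over `L = F(t)`
of the Jacobian of the smooth projective model of the curve `y ^ ℓ = ∏ (x - α_i(t)) ^ (W_i)` (a class
in `H¹(L, T_ℓ J)` which is locally trivial at all finite places, at all levels) fixed, up to torsion,
by the automorphisms of `Ω` over `k'(t)` is a torsion class, and it is even killed by `ℓ`. -/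
def TateClassesTorsionW (ℓ : ℕ) {k F : Type u} (L Ω : Type u) [Field k] [Field F] [Algebra k F]
    [Field L] [Algebra F[X] L] [IsFractionRing F[X] L] [Field Ω] [Algebra L Ω] {ι : Type}
    [Fintype ι] (W : ι → ℕ) (α : ι → k[X]) (k' : IntermediateField k F) : Prop :=
  ∀ c : ℕ → (Ω ≃ₐ[L] Ω) → JacOver ℓ (weightedPoly k F L W α) Ω,
    IsTateCocycle ℓ (weightedPoly k F L W α) c →
    (∀ (v : HeightOneSpectrum F[X]) (n : ℕ),
      IsLocallyTrivial ℓ (weightedPoly k F L W α) (c n) (v.adicCompletion L)) →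
    (∀ (γ : Ω ≃+* Ω) hγ, (∀ p : k'[X], γ (base k' F L Ω p) = base k' F L Ω p) →
      IsFixedBy ℓ (weightedPoly k F L W α) c γ hγ) →
    IsTrivial ℓ (weightedPoly k F L W α) fun n g => ℓ • c n g

end Pool.Agent.Lib.MP_89bcae_ag.Wt

end

section

/-!
# The curve `y ^ N = f(x)` over an algebraically closed field: basic definitions

The curve, its points, the automorphism `y ↦ ζ y`.
-/

open Polynomial IsDedekindDomain

open scoped Classical

namespace Pool.Agent.Lib.MP_89bcae_ag.Wt

universe u

/-- The hypotheses on the curve `y ^ N = f(x)`: it is totally ramified at the roots of `f` and at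
infinity. -/
class IsGood (N : ℕ) {E : Type u} [Field E] (f : E[X]) : Prop where
  alg : IsAlgClosed E
  one_lt : 1 < N
  ne_zero : (N : E) ≠ 0
  mult : ∀ θ, f.eval θ = 0 → (f.rootMultiplicity θ).Coprime N
  coprime : f.natDegree.Coprime N

section

variable (N : ℕ) {E : Type u} [Field E] (f : E[X])

/-- The points of the affine curve `y ^ N = f(x)`. -/
@[ext]
structure Pt where
  /-- the first coordinate -/
  x : E
  /-- the second coordinate -/
  y : E
  eq : y ^ N = f.eval x

end

section

variable {N : ℕ} {E : Type u} [Field E] {f : E[X]}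

/-- The function `p(x)` on the curve. -/
noncomputable def polyF : E[X] →+* FunField N f := algebraMap E[X] (FunField N f)

lemma polyF_eq (p : E[X]) :
    (polyF p : FunField N f) = AdjoinRoot.of _ (algebraMap E[X] (RatFunc E) p) := by
  unfold polyF
  rw [IsScalarTower.algebraMap_apply E[X] (RatFunc E) (FunField N f), AdjoinRoot.algebraMap_eq]

/-- The function `y` on the curve. -/
noncomputable def yF : FunField N f := AdjoinRoot.root _

lemma yF_pow : (yF : FunField N f) ^ N = polyF f := by
  have h := AdjoinRoot.eval₂_root (X ^ N - C (algebraMap E[X] (RatFunc E) f) : (RatFunc E)[X])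
  rw [eval₂_sub, eval₂_pow, eval₂_X, eval₂_C, sub_eq_zero] at h
  rw [polyF_eq]
  exact h

lemma IsGood.ne (hG : IsGood N f) : N ≠ 0 := (zero_lt_one.trans hG.one_lt).ne'

lemma IsGood.pos (hG : IsGood N f) : 0 < N := zero_lt_one.trans hG.one_lt

lemma IsGood.one_le (hG : IsGood N f) : 1 ≤ N := hG.one_lt.le

lemma yF_integral (hN : N ≠ 0) : (yF : FunField N f) ∈ integralClosure E[X] (FunField N f) := by
  refine ⟨X ^ N - C f, monic_X_pow_sub_C f hN, ?_⟩
  rw [eval₂_sub, eval₂_pow, eval₂_X, eval₂_C, yF_pow]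
  exact sub_self _

/-- The function `p(x)` in the coordinate ring. -/
noncomputable def ofPoly : E[X] →+* NRing N f := algebraMap E[X] (NRing N f)

@[simp] lemma coe_ofPoly (p : E[X]) : ((ofPoly p : NRing N f) : FunField N f) = polyF p := rfl

/-- The function `y` in the coordinate ring. -/
noncomputable def yy [hG : IsGood N f] : NRing N f := ⟨yF, yF_integral hG.ne⟩

@[simp] lemma coe_yy [hG : IsGood N f] : ((yy : NRing N f) : FunField N f) = yF := rfl

lemma yy_pow [hG : IsGood N f] : (yy : NRing N f) ^ N = ofPoly f :=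
  Subtype.ext yF_pow

/-- The point `(x, ζ y)`. -/
def Pt.rot (ζ : E) (hζ : ζ ^ N = 1) (P : Pt N f) : Pt N f :=
  ⟨P.x, ζ * P.y, by rw [mul_pow, hζ, one_mul, P.eq]⟩

/-- The image of a point under a homomorphism of fields. -/
def Pt.map {E' : Type u} [Field E'] {f' : E'[X]} (σ : E →+* E') (h : f.map σ = f')
    (P : Pt N f) : Pt N f' :=
  ⟨σ P.x, σ P.y, by rw [← map_pow, P.eq, ← h, Polynomial.eval_map, Polynomial.eval₂_hom]⟩

/-- The automorphism `y ↦ ζ y` of the ring of rational functions. -/
noncomputable def rotF (ζ : E) (hζ : ζ ^ N = 1) : FunField N f →+* FunField N f :=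
  AdjoinRoot.lift (AdjoinRoot.of _) (polyF (C ζ) * yF) (by
    rw [eval₂_sub, eval₂_pow, eval₂_X, eval₂_C, mul_pow, yF_pow, ← map_pow, ← C_pow,
      hζ, C_1, map_one, one_mul, polyF_eq, sub_self])

@[simp] lemma rotF_polyF (ζ : E) (hζ : ζ ^ N = 1) (p : E[X]) :
    rotF ζ hζ (polyF p : FunField N f) = polyF p := by
  rw [polyF_eq]
  unfold rotF
  exact AdjoinRoot.lift_of _

@[simp] lemma rotF_yF (ζ : E) (hζ : ζ ^ N = 1) :
    rotF ζ hζ (yF : FunField N f) = polyF (C ζ) * yF := by
  unfold rotF
  exact AdjoinRoot.lift_root _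

lemma rotF_isIntegral (ζ : E) (hζ : ζ ^ N = 1) (a : NRing N f) :
    rotF ζ hζ (a : FunField N f) ∈ integralClosure E[X] (FunField N f) := by
  obtain ⟨p, hp, hpa⟩ := (a.2 : IsIntegral E[X] (a : FunField N f))
  refine ⟨p, hp, ?_⟩
  rw [show algebraMap E[X] (FunField N f) = (rotF ζ hζ).comp (algebraMap E[X] (FunField N f)) from
      RingHom.ext fun q => (rotF_polyF ζ hζ q).symm, ← Polynomial.hom_eval₂, hpa, map_zero]

/-- The automorphism `y ↦ ζ y` of the coordinate ring. -/
noncomputable def rotC (ζ : E) (hζ : ζ ^ N = 1) : NRing N f →+* NRing N f :=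
  ((rotF ζ hζ).comp (algebraMap (NRing N f) (FunField N f))).codRestrict
    (integralClosure E[X] (FunField N f)) (rotF_isIntegral ζ hζ)

@[simp] lemma coe_rotC (ζ : E) (hζ : ζ ^ N = 1) (a : NRing N f) :
    ((rotC ζ hζ a : NRing N f) : FunField N f) = rotF ζ hζ (a : FunField N f) := rfl

@[simp] lemma rotC_ofPoly (ζ : E) (hζ : ζ ^ N = 1) (p : E[X]) :
    rotC ζ hζ (ofPoly p : NRing N f) = ofPoly p := Subtype.ext (rotF_polyF ζ hζ p)

@[simp] lemma rotC_yy [hG : IsGood N f] (ζ : E) (hζ : ζ ^ N = 1) :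
    rotC ζ hζ (yy : NRing N f) = ofPoly (C ζ) * yy := Subtype.ext (rotF_yF ζ hζ)

@[simp] lemma coe_coordMap {E' : Type u} [Field E'] {f' : E'[X]} (σ : E →+* E')
    (h : f.map σ = f') (a : NRing N f) :
    ((coordMap N σ h a : NRing N f') : FunField N f') = funMap N σ h (a : FunField N f) := rfl

lemma funMap_polyF {E' : Type u} [Field E'] {f' : E'[X]} (σ : E →+* E')
    (h : f.map σ = f') (p : E[X]) : funMap N σ h (polyF p : FunField N f) = polyF (p.map σ) :=
  funMap_algebraMap N σ h p

lemma funMap_yF {E' : Type u} [Field E'] {f' : E'[X]} (σ : E →+* E')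
    (h : f.map σ = f') : funMap N σ h (yF : FunField N f) = yF := by
  unfold funMap yF
  exact AdjoinRoot.map_root _ _ _ _

end

end Pool.Agent.Lib.MP_89bcae_ag.Wt

end

section

open Polynomial IsDedekindDomain

open scoped Classical

namespace Pool.Agent.Lib.MP_89bcae_ag.Wt

universe u

variable {N : ℕ} {E : Type u} [Field E] {f : E[X]}

section

variable [hG : IsGood N f]

lemma natDegree_ne (N : ℕ) (f : E[X]) [hG : IsGood N f] : f.natDegree ≠ 0 := by
  intro h
  have h1 := hG.coprime
  rw [h, Nat.coprime_zero_left] at h1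
  exact hG.one_lt.ne' h1

lemma f_ne_zero (N : ℕ) (f : E[X]) [hG : IsGood N f] : f ≠ 0 := by
  intro h
  apply natDegree_ne N f
  rw [h, natDegree_zero]

lemma exists_root (N : ℕ) (f : E[X]) [hG : IsGood N f] : ∃ θ, f.eval θ = 0 := by
  have halg := hG.alg
  refine IsAlgClosed.exists_root f fun h => natDegree_ne N f ?_
  exact natDegree_eq_of_degree_eq_some (n := 0) h

/-- Multiplicities of a power. -/
private lemma w01_mult_pow {p : E[X]} (hp : p ≠ 0) (θ : E) (n : ℕ) :
    (p ^ n).rootMultiplicity θ = n * p.rootMultiplicity θ := by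
  induction n with
  | zero => rw [pow_zero, Nat.zero_mul, ← C_1, rootMultiplicity_C]
  | succ n ih =>
    rw [pow_succ, rootMultiplicity_mul (mul_ne_zero (pow_ne_zero _ hp) hp), ih, Nat.succ_mul]

/-- The exponent divides the degree of a norm. -/
private lemma w01_dvd (N : ℕ) (f : E[X]) [hG : IsGood N f] (c : RatFunc E) (d : ℕ)
    (hc : c ^ N = (algebraMap E[X] (RatFunc E) f) ^ d) : N ∣ d := by
  have hf := f_ne_zero N f
  obtain ⟨θ, hθ⟩ := exists_root N f
  have hcop := hG.mult θ hθ
  have hinj : Function.Injective (algebraMap E[X] (RatFunc E)) := IsFractionRing.injective E[X] (RatFunc E)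
  have hd0 : algebraMap E[X] (RatFunc E) c.denom ≠ 0 := by
    intro h
    exact c.denom_ne_zero (hinj (h.trans (map_zero _).symm))
  have h1 : c * algebraMap E[X] (RatFunc E) c.denom = algebraMap E[X] (RatFunc E) c.num := by
    have h2 := RatFunc.num_div_denom c
    rw [div_eq_iff hd0] at h2
    exact h2.symm
  have h3 : f ^ d * c.denom ^ N = c.num ^ N := by
    apply hinj
    rw [map_mul, map_pow, map_pow, map_pow, ← hc, ← mul_pow, h1]
  have hden : c.denom ≠ 0 := c.denom_ne_zero
  have hnum : c.num ≠ 0 := by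
    intro h
    rw [h, zero_pow hG.ne] at h3
    exact mul_ne_zero (pow_ne_zero _ hf) (pow_ne_zero _ hden) h3
  have h4 := congrArg (fun p : E[X] => p.rootMultiplicity θ) h3
  rw [rootMultiplicity_mul (mul_ne_zero (pow_ne_zero _ hf) (pow_ne_zero _ hden)),
    w01_mult_pow hf, w01_mult_pow hden, w01_mult_pow hnum] at h4
  have h5 : N ∣ d * f.rootMultiplicity θ := by
    have h6 : N ∣ d * f.rootMultiplicity θ + N * c.denom.rootMultiplicity θ := by
      rw [h4]
      exact dvd_mul_right _ _
    exact (Nat.dvd_add_left (dvd_mul_right _ _)).1 h6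
  exact (Nat.Coprime.symm hcop).dvd_of_dvd_mul_right h5

theorem irreducible_eqn (N : ℕ) (f : E[X]) [hG : IsGood N f] :
    Irreducible (X ^ N - C (algebraMap E[X] (RatFunc E) f) : (RatFunc E)[X]) := by
  set Q : (RatFunc E)[X] := X ^ N - C (algebraMap E[X] (RatFunc E) f) with hQ
  have hQd : Q.natDegree = N := natDegree_X_pow_sub_C
  have hQm : Q.Monic := monic_X_pow_sub_C _ hG.ne
  have hQu : ¬ IsUnit Q := by
    intro h
    have h1 := natDegree_eq_zero_of_isUnit h
    rw [hQd] at h1
    exact hG.ne h1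
  obtain ⟨P, hP, R, hR⟩ := WfDvdMonoid.exists_irreducible_factor hQu hQm.ne_zero
  have : Fact (Irreducible P) := ⟨hP⟩
  have hroot : (AdjoinRoot.root P) ^ N =
      algebraMap (RatFunc E) (AdjoinRoot P) (algebraMap E[X] (RatFunc E) f) := by
    have h1 : AdjoinRoot.mk P Q = 0 := by
      rw [hR, map_mul, AdjoinRoot.mk_self, zero_mul]
    rw [hQ, map_sub, map_pow, AdjoinRoot.mk_X, AdjoinRoot.mk_C, sub_eq_zero] at h1
    exact h1
  have hfin : Module.finrank (RatFunc E) (AdjoinRoot P) = P.natDegree := by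
    have h1 := (AdjoinRoot.powerBasis hP.ne_zero).finrank
    rwa [AdjoinRoot.powerBasis_dim] at h1
  have hnorm := congrArg (Algebra.norm (RatFunc E)) hroot
  rw [map_pow, Algebra.norm_algebraMap, hfin] at hnorm
  have hdvd := w01_dvd N f _ _ hnorm
  have hR0 : R ≠ 0 := by
    intro h
    rw [h, mul_zero] at hR
    exact hQm.ne_zero hR
  have hdeg : N = P.natDegree + R.natDegree := by
    rw [← hQd, hR, natDegree_mul hP.ne_zero hR0]
  have hPpos : 0 < P.natDegree := hP.natDegree_pos
  have hle := Nat.le_of_dvd hPpos hdvd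
  have hRd : R.natDegree = 0 := by omega
  have hRu : IsUnit R := by
    rw [eq_C_of_natDegree_eq_zero hRd, isUnit_C, isUnit_iff_ne_zero]
    intro h
    rw [eq_C_of_natDegree_eq_zero hRd, h, C_0] at hR0
    exact hR0 rfl
  have hass : Associated P Q := by
    rw [hR]
    exact (associated_mul_isUnit_right_iff hRu).2 (Associated.refl P)
  exact hass.irreducible hP

instance fact_irreducible :
    Fact (Irreducible (X ^ N - C (algebraMap E[X] (RatFunc E) f) : (RatFunc E)[X])) :=
  ⟨irreducible_eqn N f⟩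

/-- Expansion of an element of the function field. -/
lemma exists_expandF (a : FunField N f) :
    ∃ r : ℕ → RatFunc E, a = ∑ i ∈ Finset.range N, AdjoinRoot.of _ (r i) * yF ^ i := by
  obtain ⟨P, rfl⟩ := AdjoinRoot.mk_surjective a
  have hm : (X ^ N - C (algebraMap E[X] (RatFunc E) f) : (RatFunc E)[X]).Monic :=
    monic_X_pow_sub_C _ hG.ne
  have hd : (X ^ N - C (algebraMap E[X] (RatFunc E) f) : (RatFunc E)[X]).natDegree = N :=
    natDegree_X_pow_sub_C
  set Q : (RatFunc E)[X] := X ^ N - C (algebraMap E[X] (RatFunc E) f) with hQ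
  have hne : Q ≠ 1 := by
    intro h
    rw [h, natDegree_one] at hd
    exact hG.ne hd.symm
  have hlt : (P %ₘ Q).natDegree < N := by
    have h1 := natDegree_modByMonic_lt P hm hne
    rwa [hd] at h1
  refine ⟨fun i => (P %ₘ Q).coeff i, ?_⟩
  have h1 : AdjoinRoot.mk Q P = AdjoinRoot.mk Q (P %ₘ Q) := by
    rw [AdjoinRoot.mk_eq_mk]
    refine ⟨P /ₘ Q, ?_⟩
    have h2 := modByMonic_add_div P Q
    linear_combination -h2
  rw [h1]
  conv_lhs => rw [as_sum_range' _ N hlt]
  rw [map_sum]
  refine Finset.sum_congr rfl (fun i _ => ?_)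
  rw [← C_mul_X_pow_eq_monomial, map_mul, map_pow, AdjoinRoot.mk_C, AdjoinRoot.mk_X]
  rfl

/-- Uniqueness of the expansion. -/
lemma expandF_unique (r : ℕ → RatFunc E)
    (h : ∑ i ∈ Finset.range N, AdjoinRoot.of _ (r i) * (yF : FunField N f) ^ i = 0) :
    ∀ i < N, r i = 0 := by
  have hm : (X ^ N - C (algebraMap E[X] (RatFunc E) f) : (RatFunc E)[X]).Monic :=
    monic_X_pow_sub_C _ hG.ne
  have hd : (X ^ N - C (algebraMap E[X] (RatFunc E) f) : (RatFunc E)[X]).natDegree = N :=
    natDegree_X_pow_sub_C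
  have h1 : AdjoinRoot.mk (X ^ N - C (algebraMap E[X] (RatFunc E) f) : (RatFunc E)[X])
      (∑ i ∈ Finset.range N, C (r i) * X ^ i) = 0 := by
    rw [map_sum, ← h]
    refine Finset.sum_congr rfl (fun i _ => ?_)
    rw [map_mul, map_pow, AdjoinRoot.mk_C, AdjoinRoot.mk_X]
    rfl
  rw [AdjoinRoot.mk_eq_zero] at h1
  have hpos := hG.pos
  have hQ : (∑ i ∈ Finset.range N, C (r i) * X ^ i : (RatFunc E)[X]) = 0 := by
    by_contra hne
    refine hm.not_dvd_of_natDegree_lt hne ?_ h1
    rw [hd]
    have h3 : (∑ i ∈ Finset.range N, C (r i) * X ^ i : (RatFunc E)[X]).natDegree ≤ N - 1 := by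
      refine natDegree_sum_le_of_forall_le _ _ (fun i hi => ?_)
      refine (natDegree_C_mul_X_pow_le (r i) i).trans ?_
      have h4 := Finset.mem_range.1 hi
      omega
    omega
  intro i hi
  have h3 : (∑ i ∈ Finset.range N, C (r i) * X ^ i : (RatFunc E)[X]).coeff i = r i := by
    rw [finsetSum_coeff, Finset.sum_eq_single i]
    · rw [coeff_C_mul_X_pow, if_pos rfl]
    · intro j _ hj
      rw [coeff_C_mul_X_pow, if_neg (Ne.symm hj)]
    · intro h4
      exact absurd (Finset.mem_range.2 hi) h4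
  rw [← h3, hQ, coeff_zero]

lemma polyF_injective : Function.Injective (polyF : E[X] → FunField N f) := by
  intro p q h
  rw [polyF_eq, polyF_eq] at h
  exact IsFractionRing.injective E[X] (RatFunc E) ((AdjoinRoot.of _).injective h)

lemma polyF_ne_zero {p : E[X]} (hp : p ≠ 0) : (polyF p : FunField N f) ≠ 0 := by
  intro h
  exact hp (polyF_injective (N := N) (f := f) (h.trans (map_zero _).symm))

lemma yF_ne_zero : (yF : FunField N f) ≠ 0 := by
  intro h
  have h1 : (yF : FunField N f) ^ N = polyF f := yF_pow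
  rw [h, zero_pow hG.ne] at h1
  exact polyF_ne_zero (f_ne_zero N f) h1.symm

/-- Uniqueness of the expansion with polynomial coefficients. -/
lemma expand_unique (p : ℕ → E[X])
    (h : ∑ i ∈ Finset.range N, polyF (p i) * (yF : FunField N f) ^ i = 0) :
    ∀ i < N, p i = 0 := by
  intro i hi
  have h1 := expandF_unique (N := N) (f := f) (fun i => algebraMap E[X] (RatFunc E) (p i)) (by
    rw [← h]
    exact Finset.sum_congr rfl fun i _ => by rw [polyF_eq])
  have h2 := h1 i hi
  exact IsFractionRing.injective E[X] (RatFunc E) (h2.trans (map_zero _).symm)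

/-- Every function is the quotient of a polynomial in `x`, `y` by a polynomial in `x`. -/
lemma exists_den (a : FunField N f) : ∃ (p : ℕ → E[X]) (q : E[X]), q ≠ 0 ∧
    polyF q * a = ∑ i ∈ Finset.range N, polyF (p i) * yF ^ i := by
  obtain ⟨r, rfl⟩ := exists_expandF a
  obtain ⟨b, hb⟩ := IsLocalization.exist_integer_multiples (nonZeroDivisors E[X])
    (Finset.range N) r
  have hb2 : ∀ i, ∃ y : E[X], i ∈ Finset.range N →
      algebraMap E[X] (RatFunc E) y = (b : E[X]) • r i := by
    intro i
    by_cases hi : i ∈ Finset.range N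
    · obtain ⟨y, hy⟩ := hb i hi
      exact ⟨y, fun _ => hy⟩
    · exact ⟨0, fun h => absurd h hi⟩
  choose p hp using hb2
  refine ⟨p, b, nonZeroDivisors.ne_zero b.2, ?_⟩
  rw [Finset.mul_sum]
  refine Finset.sum_congr rfl fun i hi => ?_
  rw [polyF_eq, polyF_eq, hp i hi, Algebra.smul_def, map_mul, mul_assoc]

end

/-- Homomorphisms from the function field. -/
lemma funField_hom_ext {S : Type*} [CommRing S] {g h : FunField N f →+* S}
    (h1 : ∀ p, g (polyF p) = h (polyF p)) (h2 : g yF = h yF) : g = h := by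
  refine AdjoinRoot.ringHom_ext ?_ h2
  refine IsLocalization.ringHom_ext (nonZeroDivisors E[X]) ?_
  refine RingHom.ext fun p => ?_
  have h3 := h1 p
  rw [polyF_eq] at h3
  exact h3

end Pool.Agent.Lib.MP_89bcae_ag.Wt

end

section

/-!
# The coordinate ring of the normalization is a Dedekind domain

ROW W02 (100-150 lines) = the lemmas of this file. `FunField N f` is an extension of degree `N` of
`RatFunc E`, separable as `N ≠ 0` in `E` (`X ^ N - C a`, `a ≠ 0`); then Mathlib:
`integralClosure.isDedekindDomain`, `IsIntegralClosure.isFractionRing_of_finite_extension`,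
`IsIntegralClosure.isNoetherian` / `IsIntegralClosure.finite`.
`exists_poly_of_integral`: `E[x]` is integrally closed.
-/

open Polynomial IsDedekindDomain

open scoped Classical

namespace Pool.Agent.Lib.MP_89bcae_ag.Wt

universe u

variable {N : ℕ} {E : Type u} [Field E] {f : E[X]} [hG : IsGood N f]

instance finiteDimensional_funField : FiniteDimensional (RatFunc E) (FunField N f) :=
  (monic_X_pow_sub_C (algebraMap E[X] (RatFunc E) f) hG.ne).finite_adjoinRoot

lemma finrank_funField : Module.finrank (RatFunc E) (FunField N f) = N := by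
  have h := (AdjoinRoot.powerBasis'
    (monic_X_pow_sub_C (algebraMap E[X] (RatFunc E) f) hG.ne)).finrank
  rw [AdjoinRoot.powerBasis'_dim, natDegree_X_pow_sub_C] at h
  exact h

instance isSeparable_funField : Algebra.IsSeparable (RatFunc E) (FunField N f) := by
  have ha : algebraMap E[X] (RatFunc E) f ≠ 0 := fun h =>
    f_ne_zero N f (IsFractionRing.injective E[X] (RatFunc E) (h.trans (map_zero _).symm))
  have hN : (N : RatFunc E) ≠ 0 := by
    intro h
    apply hG.ne_zero
    have h1 : algebraMap E (RatFunc E) (N : E) = 0 := by rw [map_natCast, h]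
    exact (algebraMap E (RatFunc E)).injective (h1.trans (map_zero _).symm)
  have hsep : (X ^ N - C (algebraMap E[X] (RatFunc E) f) : (RatFunc E)[X]).Separable :=
    separable_X_pow_sub_C _ hN ha
  have hs : IsSeparable (RatFunc E) (AdjoinRoot.root
      (X ^ N - C (algebraMap E[X] (RatFunc E) f) : (RatFunc E)[X])) := by
    refine hsep.of_dvd (minpoly.dvd _ _ ?_)
    rw [AdjoinRoot.aeval_eq, AdjoinRoot.mk_self]
  have h1 := IntermediateField.isSeparable_adjoin_simple_iff_isSeparable (RatFunc E)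
    (FunField N f) |>.2 hs
  rw [IntermediateField.adjoin_root_eq_top] at h1
  exact (AlgEquiv.Algebra.isSeparable_iff IntermediateField.topEquiv).1 h1

instance isDedekindDomain_nring : IsDedekindDomain (NRing N f) :=
  integralClosure.isDedekindDomain E[X] (RatFunc E) (FunField N f)

instance isFractionRing_nring : IsFractionRing (NRing N f) (FunField N f) :=
  integralClosure.isFractionRing_of_finite_extension (RatFunc E) (FunField N f)

instance finite_nring : Module.Finite E[X] (NRing N f) :=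
  IsIntegralClosure.finite E[X] (RatFunc E) (FunField N f) (NRing N f)

lemma ofPoly_injective : Function.Injective (ofPoly : E[X] → NRing N f) := by
  intro p q h
  exact polyF_injective (N := N) (f := f) (congrArg (fun a : NRing N f => (a : FunField N f)) h)

/-- A rational function of `x` which is integral over `E[x]` is a polynomial. -/
lemma exists_poly_of_integral (r : RatFunc E)
    (h : (AdjoinRoot.of _ r : FunField N f) ∈ integralClosure E[X] (FunField N f)) :
    ∃ p : E[X], (AdjoinRoot.of _ r : FunField N f) = polyF p := by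
  have h1 : IsIntegral E[X] (algebraMap (RatFunc E) (FunField N f) r) := h
  have h2 : IsIntegral E[X] r :=
    (isIntegral_algebraMap_iff (algebraMap (RatFunc E) (FunField N f)).injective).1 h1
  obtain ⟨p, hp⟩ := (IsIntegrallyClosed.isIntegral_iff (R := E[X])).1 h2
  exact ⟨p, by rw [polyF_eq, hp]⟩

end Pool.Agent.Lib.MP_89bcae_ag.Wt

end

section

/-!
# Points and maximal ideals of the coordinate ring (1)

ROW WP1 (150-200 lines) = the lemmas `exists_hom_of_prime`, `exists_hom` of this file.
PROOFS.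
`exists_hom_of_prime`: `M ∩ E[x]` is a nonzero prime (`NRing` is integral over `E[x]`;
`Ideal.comap_ne_bot_of_integral_mem`, see `exists_pt_of_prime` in `Sup/R02.lean`), so it is `(x - a)`; `NRing / M`
is a finite extension of `E[x] / (x - a) = E` (`Module.Finite E[X] (NRing N f)`), so it is `E`:
for every `c` in `NRing` there is a unique `φ c` in `E` with `c - ofPoly (C (φ c))` in `M`
(`R02_factor` in `Sup/R02.lean` applied to an integral equation of `c`; or: `NRing / M` is an algebraic
extension of the algebraically closed field `E`, `IsAlgClosed.algebraMap_bijective_of_isIntegral`).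
`exists_hom`: there is a prime `M` over `(x - P.x)` (`Ideal.exists_ideal_over_maximal_of_isIntegral` or similar);
it gives `P'`, `φ'` with `P'.x = P.x`, so `P.y ^ N = P'.y ^ N`, `P.y = ζ P'.y` with `ζ ^ N = 1`; take
`φ = φ' ∘ rotC ζ`.
-/

open Polynomial IsDedekindDomain

open scoped Classical

namespace Pool.Agent.Lib.MP_89bcae_ag.Wt

universe u

variable {N : ℕ} {E : Type u} [Field E] {f : E[X]} [hG : IsGood N f]

/-- a value of a nonzero polynomial in a prime ideal: one of the linear factors is in the ideal -/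
lemma WP1_factor {E : Type u} [Field E] [IsAlgClosed E] {R : Type*} [CommRing R] (φ : E →+* R)
    {I : Ideal R} (hI : I.IsPrime) (r : R) : ∀ (n : ℕ) (q : E[X]), q.natDegree = n → q ≠ 0 →
      eval₂ φ r q ∈ I → ∃ b, q.eval b = 0 ∧ r - φ b ∈ I := by
  intro n
  induction n with
  | zero =>
    intro q hn hq hmem
    exfalso
    rw [Polynomial.natDegree_eq_zero] at hn
    obtain ⟨c, rfl⟩ := hn
    have hc : c ≠ 0 := by
      rintro rfl
      exact hq C_0
    rw [eval₂_C] at hmem
    have hu : IsUnit (φ c) := (IsUnit.mk0 c hc).map φ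
    exact hI.ne_top (Ideal.eq_top_of_isUnit_mem I hmem hu)
  | succ n ih =>
    intro q hn hq hmem
    obtain ⟨b, hb⟩ := IsAlgClosed.exists_root q (by
      rw [Polynomial.degree_eq_natDegree hq, hn]
      exact_mod_cast Nat.succ_ne_zero n)
    obtain ⟨q', hq'⟩ := dvd_iff_isRoot.2 hb
    have hq'0 : q' ≠ 0 := by
      rintro rfl
      rw [mul_zero] at hq'
      exact hq hq'
    have hdeg : q'.natDegree = n := by
      have h1 := congrArg natDegree hq'
      rw [natDegree_mul (X_sub_C_ne_zero b) hq'0, natDegree_X_sub_C, hn] at h1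
      omega
    rw [hq', eval₂_mul, eval₂_sub, eval₂_X, eval₂_C] at hmem
    rcases hI.mem_or_mem hmem with h1 | h1
    · exact ⟨b, hb, h1⟩
    · obtain ⟨b', hb', hmem'⟩ := ih q' hdeg hq'0 h1
      refine ⟨b', ?_, hmem'⟩
      rw [hq', eval_mul, hb', mul_zero]

lemma WP1_abscissa (M : Ideal (NRing N f)) (hM : M.IsPrime) (h0 : M ≠ ⊥) :
    ∃ a : E, (ofPoly (X - C a) : NRing N f) ∈ M := by
  have halg : IsAlgClosed E := hG.alg
  obtain ⟨q, hq0, hqI⟩ : ∃ q : E[X], q ≠ 0 ∧ (ofPoly q : NRing N f) ∈ M := by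
    obtain ⟨a, haI, ha0⟩ := Submodule.exists_mem_ne_zero_of_ne_bot h0
    have hint : IsIntegral E[X] a := Algebra.IsIntegral.isIntegral a
    have h1 := Ideal.comap_ne_bot_of_integral_mem ha0 haI hint
    obtain ⟨q, hq, hq0⟩ := Submodule.exists_mem_ne_zero_of_ne_bot h1
    exact ⟨q, hq0, hq⟩
  have e1 : ∀ q : E[X], eval₂ ((ofPoly : E[X] →+* NRing N f).comp C) (ofPoly X) q = ofPoly q := by
    intro q
    rw [← Polynomial.hom_eval₂, eval₂_C_X]
  obtain ⟨a, _, ha⟩ := WP1_factor ((ofPoly : E[X] →+* NRing N f).comp C) hM (ofPoly X) _ q rfl hq0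
    (by rw [e1]; exact hqI)
  refine ⟨a, ?_⟩
  rw [map_sub]
  exact ha

lemma WP1_mk (M : Ideal (NRing N f)) (a : E) (ha : (ofPoly (X - C a) : NRing N f) ∈ M) :
    (Ideal.Quotient.mk M).comp ofPoly =
      (((Ideal.Quotient.mk M).comp ofPoly).comp C).comp (evalRingHom a) := by
  refine RingHom.ext fun p => ?_
  show Ideal.Quotient.mk M (ofPoly p) = Ideal.Quotient.mk M (ofPoly (C (p.eval a)))
  rw [Ideal.Quotient.eq, ← map_sub]
  obtain ⟨q, hq⟩ := X_sub_C_dvd_sub_C_eval (a := a) (p := p)
  rw [hq, map_mul]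
  exact M.mul_mem_right _ ha

lemma WP1_value (M : Ideal (NRing N f)) (hM : M.IsPrime) (a : E)
    (ha : (ofPoly (X - C a) : NRing N f) ∈ M) (c : NRing N f) :
    ∃ b : E, c - ofPoly (C b) ∈ M := by
  have halg : IsAlgClosed E := hG.alg
  obtain ⟨p, hp, hpc⟩ := (Algebra.IsIntegral.isIntegral c : IsIntegral E[X] c)
  have hne : p.map (evalRingHom a) ≠ 0 := (hp.map (evalRingHom a)).ne_zero
  have hmem : eval₂ ((ofPoly : E[X] →+* NRing N f).comp C) c (p.map (evalRingHom a)) ∈ M := by
    rw [← Ideal.Quotient.eq_zero_iff_mem, Polynomial.hom_eval₂, Polynomial.eval₂_map,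
      ← RingHom.comp_assoc, ← WP1_mk M a ha, ← Polynomial.hom_eval₂]
    have h1 : eval₂ (ofPoly : E[X] →+* NRing N f) c p = 0 := hpc
    rw [h1, map_zero]
  obtain ⟨b, _, hb⟩ := WP1_factor ((ofPoly : E[X] →+* NRing N f).comp C) hM c _ _ rfl hne hmem
  exact ⟨b, hb⟩

lemma exists_hom_of_prime (M : Ideal (NRing N f)) (hM : M.IsPrime) (h0 : M ≠ ⊥) :
    ∃ (P : Pt N f) (φ : NRing N f →+* E), RingHom.ker φ = M ∧
      (∀ p, φ (ofPoly p) = p.eval P.x) ∧ φ yy = P.y := by
  obtain ⟨a, ha⟩ := WP1_abscissa M hM h0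
  have hnt : Nontrivial (NRing N f ⧸ M) := Ideal.Quotient.nontrivial_iff.2 hM.ne_top
  set ψ : E →+* (NRing N f ⧸ M) := ((Ideal.Quotient.mk M).comp ofPoly).comp C with hψ
  have hbij : Function.Bijective ψ := by
    refine ⟨ψ.injective, ?_⟩
    intro z
    obtain ⟨c, rfl⟩ := Ideal.Quotient.mk_surjective z
    obtain ⟨b, hb⟩ := WP1_value M hM a ha c
    exact ⟨b, (Ideal.Quotient.eq.2 hb).symm⟩
  set e : E ≃+* (NRing N f ⧸ M) := RingEquiv.ofBijective ψ hbij with he
  have hval : ∀ b : E, e.symm (ψ b) = b := fun b => e.symm_apply_apply b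
  have hpoly : ∀ p : E[X], e.symm (Ideal.Quotient.mk M (ofPoly p)) = p.eval a := by
    intro p
    have h1 : Ideal.Quotient.mk M (ofPoly p) = ψ (p.eval a) :=
      congrArg (fun g : E[X] →+* (NRing N f ⧸ M) => g p) (WP1_mk M a ha)
    rw [h1, hval]
  set φ : NRing N f →+* E := (e.symm : (NRing N f ⧸ M) →+* E).comp (Ideal.Quotient.mk M) with hφ
  have hφp : ∀ p : E[X], φ (ofPoly p) = p.eval a := hpoly
  refine ⟨⟨a, φ yy, ?_⟩, φ, ?_, hφp, rfl⟩
  · rw [← map_pow, yy_pow, hφp]
  · ext c
    rw [RingHom.mem_ker]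
    show e.symm (Ideal.Quotient.mk M c) = 0 ↔ c ∈ M
    rw [map_eq_zero_iff e.symm e.symm.injective, Ideal.Quotient.eq_zero_iff_mem]

lemma exists_hom (P : Pt N f) :
    ∃ φ : NRing N f →+* E, (∀ p, φ (ofPoly p) = p.eval P.x) ∧ φ yy = P.y := by
  have hker : RingHom.ker (algebraMap E[X] (NRing N f)) = ⊥ :=
    (RingHom.injective_iff_ker_eq_bot _).1 (ofPoly_injective (N := N) (f := f))
  have hmax : (Ideal.span {(X - C P.x : E[X])}).IsMaximal :=
    PrincipalIdealRing.isMaximal_of_irreducible (irreducible_X_sub_C P.x)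
  obtain ⟨M, hM, hcomap⟩ := Ideal.exists_ideal_over_maximal_of_isIntegral (S := NRing N f)
    (Ideal.span {(X - C P.x : E[X])}) (by rw [hker]; exact bot_le)
  have hxM : (ofPoly (X - C P.x) : NRing N f) ∈ M := by
    have h1 : (X - C P.x : E[X]) ∈ M.comap (algebraMap E[X] (NRing N f)) := by
      rw [hcomap]
      exact Ideal.mem_span_singleton_self _
    exact h1
  have hM0 : M ≠ ⊥ := by
    intro h
    rw [h, Ideal.mem_bot] at hxM
    have h2 : (X - C P.x : E[X]) = 0 :=
      ofPoly_injective (N := N) (f := f) (by rw [hxM, map_zero])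
    exact X_sub_C_ne_zero _ h2
  obtain ⟨P', φ', hker', hp', hy'⟩ := exists_hom_of_prime M hM.isPrime hM0
  have hx : P'.x = P.x := by
    rw [← hker', RingHom.mem_ker, hp', eval_sub, eval_X, eval_C, sub_eq_zero] at hxM
    exact hxM
  have hpow : P.y ^ N = P'.y ^ N := by rw [P.eq, P'.eq, hx]
  obtain ⟨ζ, hζ, hζy⟩ : ∃ ζ : E, ζ ^ N = 1 ∧ ζ * P'.y = P.y := by
    by_cases h0 : P'.y = 0
    · refine ⟨1, one_pow N, ?_⟩
      rw [h0, zero_pow hG.ne] at hpow
      rw [h0, mul_zero]
      exact (eq_zero_of_pow_eq_zero hpow).symm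
    · refine ⟨P.y / P'.y, ?_, div_mul_cancel₀ _ h0⟩
      rw [div_pow, hpow, div_self (pow_ne_zero N h0)]
  refine ⟨φ'.comp (rotC ζ hζ), ?_, ?_⟩
  · intro p
    rw [RingHom.comp_apply, rotC_ofPoly, hp', hx]
  · rw [RingHom.comp_apply, rotC_yy, map_mul, hp', hy', eval_C, hζy]

/-- The value of a function of the coordinate ring at a point. -/
noncomputable def evalPt (P : Pt N f) : NRing N f →+* E := (exists_hom P).choose

@[simp] lemma evalPt_ofPoly (P : Pt N f) (p : E[X]) : evalPt P (ofPoly p) = p.eval P.x :=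
  (exists_hom P).choose_spec.1 p

@[simp] lemma evalPt_yy (P : Pt N f) : evalPt P yy = P.y := (exists_hom P).choose_spec.2

/-- The ideal of a point. -/
noncomputable def Pt.ideal (P : Pt N f) : Ideal (NRing N f) := RingHom.ker (evalPt P)

lemma mem_ideal (P : Pt N f) (a : NRing N f) : a ∈ P.ideal ↔ evalPt P a = 0 := Iff.rfl

lemma Pt.ideal_isMaximal (P : Pt N f) : P.ideal.IsMaximal := by
  refine RingHom.ker_isMaximal_of_surjective (evalPt P) ?_
  intro c
  exact ⟨ofPoly (C c), by rw [evalPt_ofPoly, eval_C]⟩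

lemma Pt.ideal_ne_bot (P : Pt N f) : P.ideal ≠ ⊥ := by
  intro h
  have h1 : (ofPoly (X - C P.x) : NRing N f) ∈ P.ideal := by
    rw [mem_ideal, evalPt_ofPoly, eval_sub, eval_X, eval_C, sub_self]
  rw [h, Ideal.mem_bot] at h1
  have h2 : (X - C P.x : E[X]) = 0 :=
    ofPoly_injective (N := N) (f := f) (by rw [h1, map_zero])
  exact X_sub_C_ne_zero _ h2

lemma Pt.ideal_injective : Function.Injective (Pt.ideal : Pt N f → Ideal (NRing N f)) := by
  intro P Q h
  have h1 : (ofPoly (X - C P.x) : NRing N f) ∈ P.ideal := by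
    rw [mem_ideal, evalPt_ofPoly, eval_sub, eval_X, eval_C, sub_self]
  have h2 : (yy - ofPoly (C P.y) : NRing N f) ∈ P.ideal := by
    rw [mem_ideal, map_sub, evalPt_yy, evalPt_ofPoly, eval_C, sub_self]
  rw [h, mem_ideal, evalPt_ofPoly, eval_sub, eval_X, eval_C, sub_eq_zero] at h1
  rw [h, mem_ideal, map_sub, evalPt_yy, evalPt_ofPoly, eval_C, sub_eq_zero] at h2
  exact Pt.ext h1.symm h2.symm


end Pool.Agent.Lib.MP_89bcae_ag.Wt

end
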