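import Mathlib
import Pool.Agent.Lib.MP_89bcae_ag.Defs8

section

/-!
# Invariant classes in the `ℓ`-adic Selmer group of the Jacobian of `D(t) y ^ ℓ = g(x) - t`

`k` is a field, `F` an algebraic closure of `k`, `L` the field of rational functions `F(t)` and `Ω`
an algebraic closure of `L`.
-/

open Polynomial IsDedekindDomain

open scoped Classical

namespace Pool.Agent.Lib.MP_89bcae_ag.Sup

universe u

/-- The coordinate ring `A[x, y] / (y ^ ℓ - f(x))` of the affine curve `y ^ ℓ = f(x)`. -/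
abbrev Coord (ℓ : ℕ) {A : Type u} [Field A] (f : A[X]) : Type u :=
  AdjoinRoot (X ^ ℓ - C f : A[X][X])

/-- The Picard group of the affine curve `y ^ ℓ = f(x)`, written additively. If `f` is separable of
degree prime to `ℓ` and `A` is an algebraically closed field in which `ℓ ≠ 0`, then the smooth
projective model of the curve has one point at infinity and this is its group of divisor classes of
degree zero, the group of points over `A` of the Jacobian variety. -/
abbrev Jac (ℓ : ℕ) {A : Type u} [Field A] (f : A[X]) : Type u :=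
  Additive (CommRing.Pic (Coord ℓ f))

/-- The homomorphism of coordinate rings induced by a homomorphism `σ` of fields which maps the
coefficients of `f` to those of `f'`. -/
noncomputable def coordMap (ℓ : ℕ) {A B : Type u} [Field A] [Field B] (σ : A →+* B) {f : A[X]}
    {f' : B[X]} (h : f.map σ = f') : Coord ℓ f →+* Coord ℓ f' :=
  AdjoinRoot.map (mapRingHom σ) _ _ (by
    rw [← h, Polynomial.map_sub, Polynomial.map_pow, Polynomial.map_X, Polynomial.map_C,
      coe_mapRingHom])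

/-- The homomorphism of Jacobians induced by a homomorphism `σ` of fields which maps the
coefficients of `f` to those of `f'`. -/
noncomputable def jacMap (ℓ : ℕ) {A B : Type u} [Field A] [Field B] (σ : A →+* B) {f : A[X]}
    {f' : B[X]} (h : f.map σ = f') : Jac ℓ f →+ Jac ℓ f' :=
  MonoidHom.toAdditive (CommRing.Pic.mapRingHom (coordMap ℓ σ h))

section

variable {L : Type u} [Field L]

/-- The points of the Jacobian of `y ^ ℓ = f(x)` over an extension `A` of the field `L` of the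
coefficients of `f`. -/
abbrev JacOver (ℓ : ℕ) (f : L[X]) (A : Type u) [Field A] [Algebra L A] : Type u :=
  Jac ℓ (f.map (algebraMap L A))

/-- The action of a homomorphism of extensions of `L` on the points of the Jacobian. -/
noncomputable def push (ℓ : ℕ) (f : L[X]) {A B : Type u} [Field A] [Field B] [Algebra L A]
    [Algebra L B] (σ : A →ₐ[L] B) : JacOver ℓ f A →+ JacOver ℓ f B :=
  jacMap ℓ (σ : A →+* B) (by rw [Polynomial.map_map, AlgHom.comp_algebraMap])

variable {Ω : Type u} [Field Ω] [Algebra L Ω]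

/-- `c` is a continuous `1`-cocycle of `Aut(Ω/L)` with values in the `ℓ`-adic Tate module of the
Jacobian of `y ^ ℓ = f(x)`; its component `c n` has values in the points of order dividing
`ℓ ^ n`. -/
structure IsTateCocycle (ℓ : ℕ) (f : L[X]) (c : ℕ → (Ω ≃ₐ[L] Ω) → JacOver ℓ f Ω) : Prop where
  zero : ∀ σ, c 0 σ = 0
  smul : ∀ n σ, ℓ • c (n + 1) σ = c n σ
  cocycle : ∀ n (σ τ : Ω ≃ₐ[L] Ω), c n (σ * τ) = c n σ + push ℓ f (σ : Ω →ₐ[L] Ω) (c n τ)
  locallyConstant : ∀ n, IsLocallyConstant (c n)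

/-- The class of the cocycle `c` in `H¹(Lv, J)` is trivial, where `Lv` is a field containing `L`:
for every algebraic closure `M` of `Lv` and every embedding `j` of `Ω` in `M` over `L`, there is a
point `Q` of `J(M)` with `j(c(g|_Ω)) = g(Q) - Q` for all `g` in `Aut(M/Lv)`. -/
def IsLocallyTrivial (ℓ : ℕ) (f : L[X]) (c : (Ω ≃ₐ[L] Ω) → JacOver ℓ f Ω)
    (Lv : Type u) [Field Lv] [Algebra L Lv] : Prop :=
  ∀ (M : Type u) [Field M] [Algebra Lv M] [IsAlgClosure Lv M] [Algebra L M] [IsScalarTower L Lv M]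
    (j : Ω →ₐ[L] M), ∃ Q : JacOver ℓ f M, ∀ (g : M ≃ₐ[Lv] M) (g' : Ω ≃ₐ[L] Ω),
      (∀ x, j (g' x) = g (j x)) →
        push ℓ f j (c g') = push ℓ f (g.restrictScalars L : M →ₐ[L] M) Q - Q

/-- The class of the cocycle `c` in `H¹(L, T_ℓ J)` is fixed, up to torsion, by the automorphism `γ`
of `Ω` (which fixes the coefficients of `f`): some positive multiple `m (γ c - c)` is at every level
a coboundary. Here `(γ c)(h) = γ (c (γ⁻¹ h γ))`. -/
def IsFixedBy (ℓ : ℕ) (f : L[X]) (c : ℕ → (Ω ≃ₐ[L] Ω) → JacOver ℓ f Ω) (γ : Ω ≃+* Ω)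
    (hγ : (f.map (algebraMap L Ω)).map (γ : Ω →+* Ω) = f.map (algebraMap L Ω)) : Prop :=
  ∃ m : ℕ, 0 < m ∧ ∀ n, ∃ A : JacOver ℓ f Ω, ℓ ^ n • A = 0 ∧
    ∀ g h : Ω ≃ₐ[L] Ω, (∀ x, γ (g x) = h (γ x)) →
      m • (jacMap ℓ (γ : Ω →+* Ω) hγ (c n g) - c n h) = push ℓ f (h : Ω →ₐ[L] Ω) A - A

/-- The class of the cocycle `c` vanishes: at every level `n`, it is the coboundary of a point of
order dividing `ℓ ^ n`. -/
def IsTrivial (ℓ : ℕ) (f : L[X]) (c : ℕ → (Ω ≃ₐ[L] Ω) → JacOver ℓ f Ω) : Prop :=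
  ∀ n, ∃ A : JacOver ℓ f Ω, ℓ ^ n • A = 0 ∧ ∀ g : Ω ≃ₐ[L] Ω,
    c n g = push ℓ f (g : Ω →ₐ[L] Ω) A - A

end

/-- The polynomial `D(t)⁻¹ (g(x) - t)` in `x` over the field `L = F(t)`. -/
noncomputable def curvePoly (k F L : Type u) [Field k] [Field F] [Algebra k F] [Field L]
    [Algebra F[X] L] (g D : k[X]) : L[X] :=
  C ((base k F L L D)⁻¹) * (g.map ((base k F L L).comp C) - C (base k F L L X))

/-- Let `k'` be an extension of `k` in `F`. Every class of the `ℓ`-adic Selmer group over `L = F(t)`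
of the Jacobian of the curve `D(t) y ^ ℓ = g(x) - t` (a class in `H¹(L, T_ℓ J)` which is locally
trivial at all finite places, at all levels) fixed, up to torsion, by the automorphisms of `Ω` over
`k'(t)` vanishes. -/
def NoTateClass (ℓ : ℕ) {k F : Type u} (L Ω : Type u) [Field k] [Field F] [Algebra k F] [Field L]
    [Algebra F[X] L] [IsFractionRing F[X] L] [Field Ω] [Algebra L Ω] (g D : k[X])
    (k' : IntermediateField k F) : Prop :=
  ∀ c : ℕ → (Ω ≃ₐ[L] Ω) → JacOver ℓ (curvePoly k F L g D) Ω,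
    IsTateCocycle ℓ (curvePoly k F L g D) c →
    (∀ (v : HeightOneSpectrum F[X]) (n : ℕ),
      IsLocallyTrivial ℓ (curvePoly k F L g D) (c n) (v.adicCompletion L)) →
    (∀ (γ : Ω ≃+* Ω) hγ, (∀ p : k'[X], γ (base k' F L Ω p) = base k' F L Ω p) →
      IsFixedBy ℓ (curvePoly k F L g D) c γ hγ) →
    IsTrivial ℓ (curvePoly k F L g D) c

/-- The roots in `F` of the polynomial `D(g(x))`. -/
def roots (k F : Type u) [Field k] [Field F] [Algebra k F] (g D : k[X]) : Set F :=
  {β | aeval (aeval β g) D = 0}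

/-- The arithmetic condition on the differences of the roots of `D(g(x))`: let `K` be the field
generated by the set `R` of these roots over `k`. There are no function `e : R → ℤ`, not divisible
by `ℓ`, with sum divisible by `ℓ` over each fibre of `g` in `R`, and `κ` in `K` such that
`κ ^ e(β) ∏ (β - β') ^ (e(β) - e(β'))`, where `β'` runs through the elements of `R` with
`g(β') ≠ g(β)`, is the `ℓ`-th power of an element of `K` for all `β` in `R`. -/
def IsIndependent (ℓ : ℕ) (k F : Type u) [Field k] [Field F] [Algebra k F] (g D : k[X]) : Prop :=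
  ∀ (e : F → ℤ) (κ : F), κ ≠ 0 → κ ∈ IntermediateField.adjoin k (roots k F g D) →
    (∀ β ∈ roots k F g D,
      (ℓ : ℤ) ∣ ∑ᶠ β' ∈ {β' : F | aeval β' g = aeval β g}, e β') →
    (∀ β ∈ roots k F g D, ∃ w ∈ IntermediateField.adjoin k (roots k F g D),
      w ^ ℓ = κ ^ e β *
        ∏ᶠ β' ∈ {β' ∈ roots k F g D | aeval β' g ≠ aeval β g}, (β - β') ^ (e β - e β')) →
    ∀ β ∈ roots k F g D, (ℓ : ℤ) ∣ e β

end Pool.Agent.Lib.MP_89bcae_ag.Sup

end

section

/-!
# The curve `y ^ ℓ = f(x)` over an algebraically closed field: basic definitions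
-/

open Polynomial IsDedekindDomain

open scoped Classical

namespace Pool.Agent.Lib.MP_89bcae_ag.Sup

universe u

/-- The hypotheses on the curve `y ^ ℓ = f(x)`. -/
class IsGood (ℓ : ℕ) {E : Type u} [Field E] (f : E[X]) : Prop where
  alg : IsAlgClosed E
  prime : ℓ.Prime
  ne_zero : (ℓ : E) ≠ 0
  separable : f.Separable
  coprime : f.natDegree.Coprime ℓ

section

variable (ℓ : ℕ) {E : Type u} [Field E] (f : E[X])

/-- The points of the affine curve `y ^ ℓ = f(x)`. -/
@[ext]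
structure Pt where
  /-- the first coordinate -/
  x : E
  /-- the second coordinate -/
  y : E
  eq : y ^ ℓ = f.eval x

/-- The ring of functions on the curve: the field of fractions of the coordinate ring. -/
abbrev Fn : Type u := FractionRing (Coord ℓ f)

end

section

variable {ℓ : ℕ} {E : Type u} [Field E] {f : E[X]}

/-- The function `p(x)` on the curve, for a polynomial `p`. -/
noncomputable def ofPoly : E[X] →+* Coord ℓ f := AdjoinRoot.of (X ^ ℓ - C f : E[X][X])

/-- The function `y` on the curve. -/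
noncomputable def yy : Coord ℓ f := AdjoinRoot.root (X ^ ℓ - C f : E[X][X])

lemma yy_pow : (yy : Coord ℓ f) ^ ℓ = ofPoly f := by
  have h := AdjoinRoot.eval₂_root (X ^ ℓ - C f : E[X][X])
  rw [eval₂_sub, eval₂_pow, eval₂_X, eval₂_C, sub_eq_zero] at h
  exact h

/-- The value of a function of the coordinate ring at a point. -/
noncomputable def evalPt (P : Pt ℓ f) : Coord ℓ f →+* E :=
  AdjoinRoot.lift (evalRingHom P.x) P.y (by
    rw [eval₂_sub, eval₂_pow, eval₂_X, eval₂_C, coe_evalRingHom, P.eq, sub_self])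

@[simp] lemma evalPt_ofPoly (P : Pt ℓ f) (p : E[X]) : evalPt P (ofPoly p) = p.eval P.x := by
  rw [evalPt, ofPoly, AdjoinRoot.lift_of, coe_evalRingHom]

@[simp] lemma evalPt_yy (P : Pt ℓ f) : evalPt P yy = P.y := by
  rw [evalPt, yy, AdjoinRoot.lift_root]

/-- The ideal of a point. -/
noncomputable def Pt.ideal (P : Pt ℓ f) : Ideal (Coord ℓ f) := RingHom.ker (evalPt P)

/-- The point `(x, ζ y)`. -/
def Pt.rot (ζ : E) (hζ : ζ ^ ℓ = 1) (P : Pt ℓ f) : Pt ℓ f :=
  ⟨P.x, ζ * P.y, by rw [mul_pow, hζ, one_mul, P.eq]⟩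

/-- The image of a point under a homomorphism of fields. -/
def Pt.map {E' : Type u} [Field E'] {f' : E'[X]} (σ : E →+* E') (h : f.map σ = f')
    (P : Pt ℓ f) : Pt ℓ f' :=
  ⟨σ P.x, σ P.y, by rw [← map_pow, P.eq, ← h, Polynomial.eval_map, Polynomial.eval₂_hom]⟩

/-- The automorphism `y ↦ ζ y` of the coordinate ring. -/
noncomputable def rotC (ζ : E) (hζ : ζ ^ ℓ = 1) : Coord ℓ f →+* Coord ℓ f :=
  AdjoinRoot.lift ofPoly (ofPoly (C ζ) * yy) (by
    rw [eval₂_sub, eval₂_pow, eval₂_X, eval₂_C, mul_pow, ← map_pow, ← C_pow, hζ, C_1, map_one,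
      one_mul, yy_pow, sub_self])

@[simp] lemma rotC_ofPoly (ζ : E) (hζ : ζ ^ ℓ = 1) (p : E[X]) :
    rotC ζ hζ (ofPoly p : Coord ℓ f) = ofPoly p := by
  unfold rotC
  exact AdjoinRoot.lift_of _

@[simp] lemma rotC_yy (ζ : E) (hζ : ζ ^ ℓ = 1) :
    rotC ζ hζ (yy : Coord ℓ f) = ofPoly (C ζ) * yy := by
  unfold rotC
  exact AdjoinRoot.lift_root _

end

end Pool.Agent.Lib.MP_89bcae_ag.Sup

end

section

/-!
ROW R01 (80-150 lines). The coordinate ring `E[x, y] / (y ^ ℓ - f(x))` is a domain, with the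
`E[x]`-basis `1, y, ..., y ^ (ℓ - 1)`; uniqueness and existence of the expansion, the norm.

PROOF. `E` is algebraically closed and `deg f` is prime to the prime `ℓ`, so `deg f ≠ 0`
(`Nat.Coprime 0 ℓ ↔ ℓ = 1`); let `θ` be a root of `f`, it is simple as `f` is separable. `Y ^ ℓ - f`
in `E[X][Y]` is Eisenstein at the prime ideal `(X - θ)` (`f ∈ (X - θ)`, `f ∉ (X - θ) ^ 2`), monic,
so irreducible (`Polynomial.IsEisensteinAt.irreducible`), hence prime since `E[X][Y]` is a UFD;
`AdjoinRoot.isDomain_of_prime`. The expansion: `AdjoinRoot.powerBasis'` (the polynomial is monic),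
or `Polynomial.modByMonic` / `AdjoinRoot.modByMonicHom`.
-/

open Polynomial IsDedekindDomain

open scoped Classical

namespace Pool.Agent.Lib.MP_89bcae_ag.Sup

universe u

variable {ℓ : ℕ} {E : Type u} [Field E] {f : E[X]}

lemma monic_eqn (hℓ : ℓ ≠ 0) : (X ^ ℓ - C f : E[X][X]).Monic :=
  Polynomial.monic_X_pow_sub_C f hℓ

lemma r01_natDegree : (X ^ ℓ - C f : E[X][X]).natDegree = ℓ :=
  Polynomial.natDegree_X_pow_sub_C

/-- Expansion of an element of the coordinate ring. -/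
lemma exists_expand (hℓ : ℓ ≠ 0) (a : Coord ℓ f) :
    ∃ p : ℕ → E[X], a = ∑ i ∈ Finset.range ℓ, ofPoly (p i) * yy ^ i := by
  obtain ⟨P, rfl⟩ := AdjoinRoot.mk_surjective a
  have hm := monic_eqn (f := f) hℓ
  have hne : (X ^ ℓ - C f : E[X][X]) ≠ 1 := by
    intro h
    have h1 := r01_natDegree (ℓ := ℓ) (f := f)
    rw [h, natDegree_one] at h1
    exact hℓ h1.symm
  have hlt : (P %ₘ (X ^ ℓ - C f : E[X][X])).natDegree < ℓ := by
    have h1 := natDegree_modByMonic_lt P hm hne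
    rwa [r01_natDegree] at h1
  refine ⟨fun i => (P %ₘ (X ^ ℓ - C f : E[X][X])).coeff i, ?_⟩
  have h1 : AdjoinRoot.mk (X ^ ℓ - C f : E[X][X]) P =
      AdjoinRoot.mk (X ^ ℓ - C f : E[X][X]) (P %ₘ (X ^ ℓ - C f : E[X][X])) := by
    rw [AdjoinRoot.mk_eq_mk]
    refine ⟨P /ₘ (X ^ ℓ - C f : E[X][X]), ?_⟩
    have h2 := modByMonic_add_div P (X ^ ℓ - C f : E[X][X])
    linear_combination -h2
  rw [h1]
  conv_lhs => rw [as_sum_range' _ ℓ hlt]
  rw [map_sum]
  refine Finset.sum_congr rfl (fun i _ => ?_)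
  rw [← C_mul_X_pow_eq_monomial, map_mul, map_pow, AdjoinRoot.mk_C, AdjoinRoot.mk_X]
  rfl

/-- Uniqueness of the expansion. -/
lemma expand_unique (hℓ : ℓ ≠ 0) (p : ℕ → E[X])
    (h : ∑ i ∈ Finset.range ℓ, (ofPoly (p i) : Coord ℓ f) * yy ^ i = 0) :
    ∀ i < ℓ, p i = 0 := by
  have hm := monic_eqn (f := f) hℓ
  have h1 : AdjoinRoot.mk (X ^ ℓ - C f : E[X][X]) (∑ i ∈ Finset.range ℓ, C (p i) * X ^ i) = 0 := by
    rw [map_sum, ← h]
    refine Finset.sum_congr rfl (fun i _ => ?_)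
    rw [map_mul, map_pow, AdjoinRoot.mk_C, AdjoinRoot.mk_X]
    rfl
  rw [AdjoinRoot.mk_eq_zero] at h1
  have hQ : (∑ i ∈ Finset.range ℓ, C (p i) * X ^ i : E[X][X]) = 0 := by
    by_contra hne
    refine hm.not_dvd_of_natDegree_lt hne ?_ h1
    rw [r01_natDegree]
    have h3 : (∑ i ∈ Finset.range ℓ, C (p i) * X ^ i : E[X][X]).natDegree ≤ ℓ - 1 := by
      refine natDegree_sum_le_of_forall_le _ _ (fun i hi => ?_)
      refine (natDegree_C_mul_X_pow_le (p i) i).trans ?_
      have h4 := Finset.mem_range.1 hi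
      omega
    omega
  intro i hi
  have h3 : (∑ i ∈ Finset.range ℓ, C (p i) * X ^ i : E[X][X]).coeff i = p i := by
    rw [finsetSum_coeff, Finset.sum_eq_single i]
    · rw [coeff_C_mul_X_pow, if_pos rfl]
    · intro j _ hj
      rw [coeff_C_mul_X_pow, if_neg (Ne.symm hj)]
    · intro h4
      exact absurd (Finset.mem_range.2 hi) h4
  rw [← h3, hQ, coeff_zero]

lemma ofPoly_injective (hℓ : ℓ ≠ 0) : Function.Injective (ofPoly : E[X] →+* Coord ℓ f) := by
  refine AdjoinRoot.of.injective_of_degree_ne_zero ?_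
  rw [degree_X_pow_sub_C (Nat.pos_of_ne_zero hℓ)]
  exact_mod_cast hℓ

lemma IsGood.natDegree_ne_zero [hG : IsGood ℓ f] : f.natDegree ≠ 0 := by
  intro h
  have h1 := hG.coprime
  rw [h, Nat.coprime_zero_left] at h1
  exact hG.prime.one_lt.ne' h1

lemma IsGood.exists_root [hG : IsGood ℓ f] : ∃ θ, f.eval θ = 0 := by
  have := hG.alg
  have hd : f.degree ≠ 0 := by
    intro h
    exact IsGood.natDegree_ne_zero (hG := hG) (natDegree_eq_of_degree_eq_some h)
  obtain ⟨θ, hθ⟩ := IsAlgClosed.exists_root f hd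
  exact ⟨θ, hθ⟩

instance isDomain_coord [hG : IsGood ℓ f] : IsDomain (Coord ℓ f) := by
  have hℓ : ℓ ≠ 0 := hG.prime.ne_zero
  obtain ⟨θ, hθ⟩ := IsGood.exists_root (hG := hG)
  have hdvd : X - C θ ∣ f := dvd_iff_isRoot.2 hθ
  have hm := monic_eqn (f := f) hℓ
  have hP : (Ideal.span {X - C θ} : Ideal E[X]).IsPrime :=
    (Ideal.span_singleton_prime (X_sub_C_ne_zero θ)).2 (prime_X_sub_C θ)
  have hE : (X ^ ℓ - C f : E[X][X]).IsEisensteinAt (Ideal.span {X - C θ}) := by
    refine ⟨?_, ?_, ?_⟩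
    · rw [hm.leadingCoeff]
      exact (Ideal.ne_top_iff_one _).1 hP.ne_top
    · intro n hn
      rw [r01_natDegree] at hn
      rw [coeff_sub, coeff_X_pow, if_neg hn.ne, zero_sub, coeff_C]
      split_ifs
      · exact (Ideal.span {X - C θ}).neg_mem (Ideal.mem_span_singleton.2 hdvd)
      · rw [neg_zero]
        exact (Ideal.span {X - C θ}).zero_mem
    · rw [coeff_sub, coeff_X_pow, if_neg (Ne.symm hℓ), zero_sub, coeff_C_zero,
        Ideal.span_singleton_pow, Ideal.mem_span_singleton, dvd_neg]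
      intro h
      rw [pow_two] at h
      exact not_isUnit_X_sub_C θ (hG.separable.squarefree _ h)
  have hirr : Irreducible (X ^ ℓ - C f : E[X][X]) := by
    refine hE.irreducible hP hm.isPrimitive ?_
    rw [r01_natDegree]
    exact Nat.pos_of_ne_zero hℓ
  exact AdjoinRoot.isDomain_of_prime hirr.prime

end Pool.Agent.Lib.MP_89bcae_ag.Sup

end

section

/-!
ROW R02 (150-300 lines). Points = maximal ideals, and the coordinate ring is a Dedekind domain.

PROOF. (1) `evalPt P` is surjective onto the field `E` (it maps `ofPoly (C c)` to `c`), so its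
kernel is maximal; it is not zero: it contains `ofPoly (X - C P.x)`, which is not `0` by
`ofPoly_injective`.
(2) Let `I` be a nonzero prime ideal. `Coord ℓ f` is integral over `E[X]` (monic equation), so
`J = I.comap ofPoly` is a nonzero prime of the PID `E[X]` (a nonzero `a ∈ I` satisfies a monic
equation of minimal degree with nonzero constant term in `J`; Mathlib:
`Ideal.comap_ne_bot_of_integral_mem`); as `E` is algebraically closed `J = (X - a)`. The residue
`b` of `y` modulo `I`: `Coord/I` is a domain, integral over `E[X]/J = E`, so equal to `E`; concretely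
`y ^ ℓ - f(a) ∈ I` and `T ^ ℓ - f(a) = ∏ (T - bᵢ)` in `E[T]`, so by primality `y - b ∈ I` for some
`b` with `b ^ ℓ = f(a)`. So `I` contains `ofPoly (X - C a)` and `yy - ofPoly (C b)`, hence contains
the kernel of `evalPt P`, `P = (a, b)` (every element is congruent to its value modulo these two
elements: use `exists_expand` or `AdjoinRoot.induction_on`), which is maximal.
(3) Dedekind: noetherian (quotient of `E[X][Y]`), dimension at most one by (2), integrally closed:
it is enough (`isDedekindDomain` from `IsDedekindDomainDvr`, `IsDedekindDomainDvr.isDedekindDomain`)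
that the localization at each `P.ideal` is a discrete valuation ring, and for a noetherian local
domain which is not a field it is enough that the maximal ideal is principal
(`tfae_of_isNoetherianRing_of_isLocalRing_of_isDomain` / `IsDiscreteValuationRing.TFAE`).
`P.ideal = (x - a, y - b)`. If `b ≠ 0`: `(y - b) (∑ y ^ i b ^ (ℓ-1-i)) = f(x) - f(a) ∈ (x - a)` and
the second factor takes the value `ℓ b ^ (ℓ - 1) ≠ 0` at `P`, so it is a unit in the localization:
the maximal ideal is generated by `x - a`. If `b = 0`: `f = (x - a) g` with `g(a) ≠ 0` (`f` is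
separable), so `x - a = y ^ ℓ / g` in the localization and the maximal ideal is generated by `y`.
-/

open Polynomial IsDedekindDomain

open scoped Classical

namespace Pool.Agent.Lib.MP_89bcae_ag.Sup

universe u

variable {ℓ : ℕ} {E : Type u} [Field E] {f : E[X]}

lemma Pt.ideal_isMaximal (P : Pt ℓ f) : P.ideal.IsMaximal := by
  refine RingHom.ker_isMaximal_of_surjective (evalPt P) ?_
  intro c
  exact ⟨ofPoly (C c), by rw [evalPt_ofPoly, eval_C]⟩

lemma R02_mem (P : Pt ℓ f) (a : Coord ℓ f) : a ∈ P.ideal ↔ evalPt P a = 0 := Iff.rfl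

lemma R02_memx (P : Pt ℓ f) : ofPoly (X - C P.x) ∈ P.ideal := by
  rw [R02_mem, evalPt_ofPoly, eval_sub, eval_X, eval_C, sub_self]

lemma R02_memy (P : Pt ℓ f) : yy - ofPoly (C P.y) ∈ P.ideal := by
  rw [R02_mem, map_sub, evalPt_yy, evalPt_ofPoly, eval_C, sub_self]

lemma R02_mod (P : Pt ℓ f) (a : Coord ℓ f) : a - ofPoly (C (evalPt P a)) ∈
    Ideal.span {(ofPoly (X - C P.x) : Coord ℓ f), yy - ofPoly (C P.y)} := by
  set J : Ideal (Coord ℓ f) :=
    Ideal.span {(ofPoly (X - C P.x) : Coord ℓ f), yy - ofPoly (C P.y)} with hJ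
  have hx : (ofPoly (X - C P.x) : Coord ℓ f) ∈ J := Ideal.subset_span (by simp)
  have hy : (yy - ofPoly (C P.y) : Coord ℓ f) ∈ J := Ideal.subset_span (by simp)
  have key : (Ideal.Quotient.mk J) = (((Ideal.Quotient.mk J).comp ofPoly).comp C).comp (evalPt P) := by
    apply AdjoinRoot.ringHom_ext
    · refine RingHom.ext fun p => ?_
      show Ideal.Quotient.mk J (ofPoly p) = Ideal.Quotient.mk J (ofPoly (C (evalPt P (ofPoly p))))
      rw [evalPt_ofPoly, Ideal.Quotient.eq, ← map_sub]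
      obtain ⟨q, hq⟩ := X_sub_C_dvd_sub_C_eval (a := P.x) (p := p)
      rw [hq, map_mul]
      exact J.mul_mem_right _ hx
    · show Ideal.Quotient.mk J yy = Ideal.Quotient.mk J (ofPoly (C (evalPt P yy)))
      rw [evalPt_yy, Ideal.Quotient.eq]
      exact hy
  have h1 := congrArg (fun g : Coord ℓ f →+* (Coord ℓ f ⧸ J) => g a) key
  have h2 : Ideal.Quotient.mk J a = Ideal.Quotient.mk J (ofPoly (C (evalPt P a))) := h1
  exact Ideal.Quotient.eq.1 h2

lemma Pt.ideal_eq_span (P : Pt ℓ f) :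
    P.ideal = Ideal.span {ofPoly (X - C P.x), yy - ofPoly (C P.y)} := by
  apply le_antisymm
  · intro a ha
    have h1 := R02_mod P a
    rw [R02_mem] at ha
    rw [ha, C_0, map_zero, sub_zero] at h1
    exact h1
  · rw [Ideal.span_le]
    intro a ha
    rcases ha with rfl | ha
    · exact R02_memx P
    · rw [Set.mem_singleton_iff.1 ha]
      exact R02_memy P

lemma Pt.ideal_ne_bot [hG : IsGood ℓ f] (P : Pt ℓ f) : P.ideal ≠ ⊥ := by
  intro h
  have h1 := R02_memx P
  rw [h, Ideal.mem_bot] at h1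
  have h2 : (X - C P.x : E[X]) = 0 :=
    ofPoly_injective (f := f) hG.prime.ne_zero (by rw [h1, map_zero])
  exact X_sub_C_ne_zero _ h2

lemma Pt.ideal_injective : Function.Injective (Pt.ideal : Pt ℓ f → Ideal (Coord ℓ f)) := by
  intro P Q h
  have h1 := R02_memx P
  have h2 := R02_memy P
  rw [h, R02_mem, evalPt_ofPoly, eval_sub, eval_X, eval_C, sub_eq_zero] at h1
  rw [h, R02_mem, map_sub, evalPt_yy, evalPt_ofPoly, eval_C, sub_eq_zero] at h2
  exact Pt.ext h1.symm h2.symm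

/-- a value of a nonzero polynomial in a prime ideal: one of the linear factors is in the ideal -/
lemma R02_factor [IsAlgClosed E] {R : Type*} [CommRing R] (φ : E →+* R) {I : Ideal R}
    (hI : I.IsPrime) (r : R) : ∀ (n : ℕ) (q : E[X]), q.natDegree = n → q ≠ 0 → eval₂ φ r q ∈ I →
      ∃ b, q.eval b = 0 ∧ r - φ b ∈ I := by
  intro n
  induction n with
  | zero =>
    intro q hn hq hmem
    exfalso
    rw [Polynomial.natDegree_eq_zero] at hn
    obtain ⟨c, rfl⟩ := hn
    have hc : c ≠ 0 := by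
      rintro rfl
      exact hq C_0
    rw [eval₂_C] at hmem
    have hu : IsUnit (φ c) := (IsUnit.mk0 c hc).map φ
    exact hI.ne_top (Ideal.eq_top_of_isUnit_mem I hmem hu)
  | succ n ih =>
    intro q hn hq hmem
    obtain ⟨b, hb⟩ := IsAlgClosed.exists_root q (by
      rw [Polynomial.degree_eq_natDegree hq, hn]
      exact_mod_cast Nat.succ_ne_zero n)
    obtain ⟨q', hq'⟩ := dvd_iff_isRoot.2 hb
    have hq'0 : q' ≠ 0 := by
      rintro rfl
      rw [mul_zero] at hq'
      exact hq hq'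
    have hdeg : q'.natDegree = n := by
      have h1 := congrArg natDegree hq'
      rw [natDegree_mul (X_sub_C_ne_zero b) hq'0, natDegree_X_sub_C, hn] at h1
      omega
    rw [hq', eval₂_mul, eval₂_sub, eval₂_X, eval₂_C] at hmem
    rcases hI.mem_or_mem hmem with h1 | h1
    · exact ⟨b, hb, h1⟩
    · obtain ⟨b', hb', hmem'⟩ := ih q' hdeg hq'0 h1
      refine ⟨b', ?_, hmem'⟩
      rw [hq', eval_mul, hb', mul_zero]

lemma exists_pt_of_prime [hG : IsGood ℓ f] (I : Ideal (Coord ℓ f)) (hI : I.IsPrime)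
    (h0 : I ≠ ⊥) : ∃ P : Pt ℓ f, P.ideal = I := by
  have halg : IsAlgClosed E := hG.alg
  have hℓ : ℓ ≠ 0 := hG.prime.ne_zero
  -- a nonzero polynomial in `I`
  obtain ⟨q, hq0, hqI⟩ : ∃ q : E[X], q ≠ 0 ∧ ofPoly q ∈ I := by
    have hfin : Module.Finite E[X] (AdjoinRoot (X ^ ℓ - C f : E[X][X])) :=
      (monic_eqn (f := f) hℓ).finite_adjoinRoot
    obtain ⟨a, haI, ha0⟩ := Submodule.exists_mem_ne_zero_of_ne_bot h0
    have hint : IsIntegral E[X] a := Algebra.IsIntegral.isIntegral a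
    have h1 := Ideal.comap_ne_bot_of_integral_mem ha0 haI hint
    obtain ⟨q, hq, hq0⟩ := Submodule.exists_mem_ne_zero_of_ne_bot h1
    exact ⟨q, hq0, hq⟩
  have e1 : ∀ q : E[X], eval₂ ((ofPoly : E[X] →+* Coord ℓ f).comp C) (ofPoly X) q = ofPoly q := by
    intro q
    rw [← Polynomial.hom_eval₂, eval₂_C_X]
  obtain ⟨a, _, ha⟩ := R02_factor ((ofPoly : E[X] →+* Coord ℓ f).comp C) hI (ofPoly X) _ q rfl hq0
    (by rw [e1]; exact hqI)
  have ha' : ofPoly (X - C a) ∈ I := by
    rw [map_sub]; exact ha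
  obtain ⟨b, hb, hbI⟩ := R02_factor ((ofPoly : E[X] →+* Coord ℓ f).comp C) hI yy _
    (X ^ ℓ - C (f.eval a)) rfl (X_pow_sub_C_ne_zero hG.prime.pos _) (by
      rw [eval₂_sub, eval₂_pow, eval₂_X, eval₂_C, yy_pow]
      show ofPoly f - ofPoly (C (f.eval a)) ∈ I
      rw [← map_sub]
      obtain ⟨g, hg⟩ := X_sub_C_dvd_sub_C_eval (a := a) (p := f)
      rw [hg, map_mul]
      exact I.mul_mem_right _ ha')
  rw [eval_sub, eval_pow, eval_X, eval_C, sub_eq_zero] at hb
  refine ⟨⟨a, b, hb⟩, ?_⟩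
  refine (Pt.ideal_isMaximal _).eq_of_le hI.ne_top ?_
  rw [Pt.ideal_eq_span, Ideal.span_le]
  intro c hc
  rcases hc with rfl | hc
  · exact ha'
  · rw [Set.mem_singleton_iff.1 hc]
    exact hbI

lemma R02_dvd {R : Type*} [CommRing R] {I : Ideal R} [hI : I.IsPrime] {s u v w : R} (hs : s ∉ I)
    (h : s * u = v * w) : algebraMap R (Localization.AtPrime I) v ∣
      algebraMap R (Localization.AtPrime I) u := by
  have hu : IsUnit (algebraMap R (Localization.AtPrime I) s) :=
    (IsLocalization.AtPrime.isUnit_to_map_iff (Localization.AtPrime I) I s).2 hs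
  have h1 := congrArg (algebraMap R (Localization.AtPrime I)) h
  rw [map_mul, map_mul] at h1
  rw [← hu.dvd_mul_left]
  exact ⟨_, h1⟩

lemma R02_principal {R : Type*} [CommRing R] {I : Ideal R} [hI : I.IsPrime] {u v : R}
    (hspan : I = Ideal.span {u, v})
    (h : algebraMap R (Localization.AtPrime I) v ∣ algebraMap R (Localization.AtPrime I) u) :
    (IsLocalRing.maximalIdeal (Localization.AtPrime I)).IsPrincipal := by
  refine ⟨⟨algebraMap R (Localization.AtPrime I) v, ?_⟩⟩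
  rw [← IsLocalization.AtPrime.map_eq_maximalIdeal I (Localization.AtPrime I)]
  have e1 : I.map (algebraMap R (Localization.AtPrime I)) =
      (Ideal.span {u, v}).map (algebraMap R (Localization.AtPrime I)) :=
    congrArg (Ideal.map (algebraMap R (Localization.AtPrime I))) hspan
  rw [e1, Ideal.map_span, Set.image_pair]
  apply le_antisymm
  · rw [Ideal.span_le]
    intro c hc
    rcases hc with rfl | hc
    · obtain ⟨d, hd⟩ := h
      rw [hd]
      exact Ideal.mul_mem_right _ _ (Ideal.subset_span (Set.mem_singleton _))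
    · exact Ideal.subset_span hc
  · exact Ideal.span_mono (fun c hc => Or.inr hc)

lemma R02_localPrincipal [hG : IsGood ℓ f] (P : Pt ℓ f) (hI : P.ideal.IsPrime) :
    (IsLocalRing.maximalIdeal (Localization.AtPrime P.ideal)).IsPrincipal := by
  by_cases hy : P.y = 0
  · have hfa : f.eval P.x = 0 := by
      rw [← P.eq, hy, zero_pow hG.prime.ne_zero]
    obtain ⟨g, hg⟩ := dvd_iff_isRoot.2 hfa
    have hga : g.eval P.x ≠ 0 := by
      intro h0
      have h1 := hG.separable.eval₂_derivative_ne_zero (RingHom.id E) (x := P.x)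
        (by rw [eval₂_id]; exact hfa)
      apply h1
      have h2 := congrArg derivative hg
      rw [derivative_mul, derivative_sub, derivative_X, derivative_C, sub_zero, one_mul] at h2
      rw [eval₂_id, h2, eval_add, eval_mul, eval_sub, eval_X, eval_C, sub_self, zero_mul, add_zero,
        h0]
    refine R02_principal (Pt.ideal_eq_span P) (R02_dvd (s := ofPoly g) (w := yy ^ (ℓ - 1)) ?_ ?_)
    · rw [R02_mem, evalPt_ofPoly]
      exact hga
    · rw [hy, C_0, map_zero, sub_zero, ← pow_succ', Nat.sub_add_cancel hG.prime.one_le, yy_pow,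
        ← map_mul, mul_comm g, ← hg]
  · obtain ⟨g, hg⟩ := X_sub_C_dvd_sub_C_eval (a := P.x) (p := f)
    have hspan : P.ideal = Ideal.span {yy - ofPoly (C P.y), ofPoly (X - C P.x)} := by
      rw [Pt.ideal_eq_span, Set.pair_comm]
    refine R02_principal hspan (R02_dvd
      (s := ∑ i ∈ Finset.range ℓ, yy ^ i * (ofPoly (C P.y)) ^ (ℓ - 1 - i)) (w := ofPoly g) ?_ ?_)
    · rw [R02_mem, map_sum]
      have e1 : ∀ i ∈ Finset.range ℓ, evalPt P (yy ^ i * (ofPoly (C P.y)) ^ (ℓ - 1 - i)) =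
          P.y ^ (ℓ - 1) := by
        intro i hi
        rw [map_mul, map_pow, map_pow, evalPt_yy, evalPt_ofPoly, eval_C, ← pow_add]
        congr 1
        have := Finset.mem_range.1 hi
        omega
      rw [Finset.sum_congr rfl e1, Finset.sum_const, Finset.card_range, nsmul_eq_mul]
      exact mul_ne_zero hG.ne_zero (pow_ne_zero _ hy)
    · rw [geom_sum₂_mul, yy_pow, ← map_pow, ← map_sub, ← C_pow, P.eq, hg, map_mul]

lemma R02_noeth : IsNoetherianRing (Coord ℓ f) :=
  isNoetherianRing_of_surjective _ _ (AdjoinRoot.mk (X ^ ℓ - C f : E[X][X]))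
    AdjoinRoot.mk_surjective

instance isDedekindDomain_coord [hG : IsGood ℓ f] : IsDedekindDomain (Coord ℓ f) := by
  have hN : IsNoetherianRing (Coord ℓ f) := R02_noeth
  have hdvr : IsDedekindDomainDvr (Coord ℓ f) :=
    { toIsNoetherian := hN
      is_dvr_at_nonzero_prime := by
        intro I h0 hI
        obtain ⟨P, rfl⟩ := exists_pt_of_prime I hI h0
        have hN2 : IsNoetherianRing (Localization.AtPrime P.ideal) :=
          IsLocalization.isNoetherianRing P.ideal.primeCompl _ hN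
        have hD2 : IsDomain (Localization.AtPrime P.ideal) :=
          IsLocalization.isDomain_localization P.ideal.primeCompl_le_nonZeroDivisors
        exact ((IsDiscreteValuationRing.TFAE (Localization.AtPrime P.ideal)
          (IsLocalization.AtPrime.not_isField (Coord ℓ f) h0 _)).out 0 4).2
          (R02_localPrincipal P hI) }
  exact IsDedekindDomainDvr.isDedekindDomain (Coord ℓ f)

end Pool.Agent.Lib.MP_89bcae_ag.Sup

end

section

/-!
ROW R03 (60-120 lines). Finiteness of the support of the divisor of a function; orders.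

PROOF. `HeightOneSpectrum.Support` finiteness: for `h = a / b` with `a, b` in the coordinate ring
the valuation of `h` at `v` is different from `1` only if `v` divides `(a)` or `(b)`
(`Ideal.finite_factors`, `HeightOneSpectrum.valuation_lt_one_iff_dvd`,
`HeightOneSpectrum.Support.finite`), and `P ↦ P.hs` is injective.
-/

open Polynomial IsDedekindDomain

open scoped Classical

namespace Pool.Agent.Lib.MP_89bcae_ag.Sup

universe u

variable {ℓ : ℕ} {E : Type u} [Field E] {f : E[X]} [hG : IsGood ℓ f]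

/-- The point as a prime of the coordinate ring. -/
noncomputable def Pt.hs (P : Pt ℓ f) : HeightOneSpectrum (Coord ℓ f) where
  asIdeal := P.ideal
  isPrime := P.ideal_isMaximal.isPrime
  ne_bot := P.ideal_ne_bot

/-- The order of a nonzero function at a point. -/
noncomputable def ord (P : Pt ℓ f) (h : (Fn ℓ f)ˣ) : ℤ :=
  -(WithZero.log (P.hs.valuation (Fn ℓ f) (h : Fn ℓ f)))

lemma R03_hs_injective : Function.Injective (Pt.hs : Pt ℓ f → HeightOneSpectrum (Coord ℓ f)) := by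
  intro P Q h
  apply Pt.ideal_injective
  exact congrArg HeightOneSpectrum.asIdeal h

lemma R03_val_finite (h : (Fn ℓ f)ˣ) :
    {v : HeightOneSpectrum (Coord ℓ f) | v.valuation (Fn ℓ f) (h : Fn ℓ f) ≠ 1}.Finite := by
  have h1 := HeightOneSpectrum.Support.finite (Coord ℓ f) (h : Fn ℓ f)
  have h2 := HeightOneSpectrum.Support.finite (Coord ℓ f) (((h⁻¹ : (Fn ℓ f)ˣ)) : Fn ℓ f)
  refine (h1.union h2).subset ?_
  intro v hv
  rcases lt_or_gt_of_ne (show v.valuation (Fn ℓ f) (h : Fn ℓ f) ≠ 1 from hv) with h3 | h3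
  · right
    show 1 < v.valuation (Fn ℓ f) (((h⁻¹ : (Fn ℓ f)ˣ)) : Fn ℓ f)
    rw [Units.val_inv_eq_inv_val, map_inv₀]
    have h0 : v.valuation (Fn ℓ f) (h : Fn ℓ f) ≠ 0 :=
      (Valuation.ne_zero_iff _).mpr h.ne_zero
    exact (one_lt_inv₀ (zero_lt_iff.mpr h0)).mpr h3
  · left
    exact h3

lemma ord_finite (h : (Fn ℓ f)ˣ) : (Function.support fun P => ord P h).Finite := by
  have h1 := R03_val_finite h
  refine (h1.preimage (f := Pt.hs) (R03_hs_injective.injOn)).subset ?_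
  intro P hP
  show P.hs.valuation (Fn ℓ f) (h : Fn ℓ f) ≠ 1
  intro h2
  apply hP
  show ord P h = 0
  unfold ord
  rw [h2, WithZero.log_one, neg_zero]

/-- The divisor of a nonzero function on the affine curve. -/
noncomputable def div (h : (Fn ℓ f)ˣ) : Pt ℓ f →₀ ℤ :=
  Finsupp.ofSupportFinite (fun P => ord P h) (ord_finite h)

@[simp] lemma div_apply (h : (Fn ℓ f)ˣ) (P : Pt ℓ f) : div h P = ord P h := rfl

/-- The class of a point. -/
noncomputable def clPt (P : Pt ℓ f) : Jac ℓ f :=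
  Additive.ofMul (ClassGroup.equivPic (Coord ℓ f) (ClassGroup.mk0
    ⟨P.ideal, mem_nonZeroDivisors_of_ne_zero P.ideal_ne_bot⟩))

/-- The class of a divisor. -/
noncomputable def cl : (Pt ℓ f →₀ ℤ) →+ Jac ℓ f :=
  Finsupp.liftAddHom fun P => zmultiplesHom _ (clPt P)

end Pool.Agent.Lib.MP_89bcae_ag.Sup

end

section

/-!
ROW R04 (100-200 lines). Elementary properties of `ord P`, residues.

PROOF. `ord P` is minus the logarithm of the valuation `P.hs.valuation`: multiplicativity and the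
ultrametric inequality are those of the valuation (`Valuation.map_mul`, `Valuation.map_add`).
For `a` in the coordinate ring: `HeightOneSpectrum.valuation_of_algebraMap`,
`intValuation_le_one`, `intValuation_lt_one_iff_mem` (or `_dvd`), and `a ∈ P.ideal` means
`evalPt P a = 0`. Residues: if `ord P h ≥ 0`, i.e. valuation at most one, then `h = a / b` with `a`,
`b` in the coordinate ring and `b ∉ P.ideal` (`HeightOneSpectrum` : the valuation ring is the
localization at the prime; Mathlib: `IsDedekindDomain.HeightOneSpectrum.exists_..._valuation_le_one`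
or: write `h = a / b` arbitrary, choose `c` in the coordinate ring with
`ord P (b c) = ...`; one may also use `IsLocalization.AtPrime` and `mem_integers_of_valuation_le_one`
for the localization). Take for `c` the quotient `evalPt P a / evalPt P b`; then
`h - c = (a - c b) / b` with `a - c b ∈ P.ideal`. Uniqueness: `ord P` of a nonzero constant is `0`.
-/

open Polynomial IsDedekindDomain

open scoped Classical

namespace Pool.Agent.Lib.MP_89bcae_ag.Sup

universe u

variable {ℓ : ℕ} {E : Type u} [Field E] {f : E[X]} [hG : IsGood ℓ f]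

private lemma R04_val_ne_zero (P : Pt ℓ f) (h : (Fn ℓ f)ˣ) :
    P.hs.valuation (Fn ℓ f) (h : Fn ℓ f) ≠ 0 :=
  (Valuation.ne_zero_iff _).mpr h.ne_zero

private lemma R04_ord_nonneg_iff (P : Pt ℓ f) (h : (Fn ℓ f)ˣ) :
    0 ≤ ord P h ↔ P.hs.valuation (Fn ℓ f) (h : Fn ℓ f) ≤ 1 := by
  have h1 := WithZero.log_le_iff_le_exp (a := (0 : ℤ)) (R04_val_ne_zero P h)
  rw [WithZero.exp_zero] at h1
  rw [← h1]
  unfold ord
  omega

private lemma R04_ord_pos_iff (P : Pt ℓ f) (h : (Fn ℓ f)ˣ) :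
    0 < ord P h ↔ P.hs.valuation (Fn ℓ f) (h : Fn ℓ f) < 1 := by
  have h1 := WithZero.log_lt_iff_lt_exp (a := (0 : ℤ)) (R04_val_ne_zero P h)
  rw [WithZero.exp_zero] at h1
  rw [← h1]
  unfold ord
  omega

lemma ord_mul (P : Pt ℓ f) (h h' : (Fn ℓ f)ˣ) : ord P (h * h') = ord P h + ord P h' := by
  unfold ord
  rw [Units.val_mul, map_mul, WithZero.log_mul (R04_val_ne_zero P h) (R04_val_ne_zero P h')]
  ring

lemma ord_one (P : Pt ℓ f) : ord P 1 = 0 := by
  unfold ord
  rw [Units.val_one, map_one, WithZero.log_one, neg_zero]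

lemma ord_inv (P : Pt ℓ f) (h : (Fn ℓ f)ˣ) : ord P h⁻¹ = -ord P h := by
  have h1 := ord_mul P h h⁻¹
  rw [mul_inv_cancel, ord_one] at h1
  omega

lemma ord_pow (P : Pt ℓ f) (h : (Fn ℓ f)ˣ) (n : ℕ) : ord P (h ^ n) = n * ord P h := by
  induction n with
  | zero => rw [pow_zero, ord_one, Nat.cast_zero, zero_mul]
  | succ n ih =>
    rw [pow_succ, ord_mul, ih]
    push_cast
    ring

lemma ord_zpow (P : Pt ℓ f) (h : (Fn ℓ f)ˣ) (n : ℤ) : ord P (h ^ n) = n * ord P h := by
  rcases Int.eq_nat_or_neg n with ⟨m, rfl | rfl⟩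
  · rw [zpow_natCast, ord_pow]
  · rw [zpow_neg, zpow_natCast, ord_inv, ord_pow]
    ring

lemma ord_add (P : Pt ℓ f) (u v w : (Fn ℓ f)ˣ) (h : (w : Fn ℓ f) = u + v) :
    min (ord P u) (ord P v) ≤ ord P w := by
  have h1 : P.hs.valuation (Fn ℓ f) (w : Fn ℓ f) ≤
      max (P.hs.valuation (Fn ℓ f) (u : Fn ℓ f)) (P.hs.valuation (Fn ℓ f) (v : Fn ℓ f)) := by
    rw [h]
    exact Valuation.map_add _ _ _
  rcases le_max_iff.mp h1 with h2 | h2
  · refine (min_le_left _ _).trans ?_
    have h3 := (WithZero.log_le_log (R04_val_ne_zero P w) (R04_val_ne_zero P u)).mpr h2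
    unfold ord
    omega
  · refine (min_le_right _ _).trans ?_
    have h3 := (WithZero.log_le_log (R04_val_ne_zero P w) (R04_val_ne_zero P v)).mpr h2
    unfold ord
    omega

lemma ord_nonneg (P : Pt ℓ f) (a : Coord ℓ f) (u : (Fn ℓ f)ˣ)
    (hu : (u : Fn ℓ f) = algebraMap (Coord ℓ f) (Fn ℓ f) a) : 0 ≤ ord P u := by
  rw [R04_ord_nonneg_iff, hu]
  exact HeightOneSpectrum.valuation_le_one _ _

lemma ord_pos_iff (P : Pt ℓ f) (a : Coord ℓ f) (u : (Fn ℓ f)ˣ)
    (hu : (u : Fn ℓ f) = algebraMap (Coord ℓ f) (Fn ℓ f) a) : 0 < ord P u ↔ evalPt P a = 0 := by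
  rw [R04_ord_pos_iff, hu]
  exact HeightOneSpectrum.valuation_lt_one_iff_mem _ _

/-- The constant function. -/
noncomputable def cst : E →+* Fn ℓ f :=
  (algebraMap (Coord ℓ f) (Fn ℓ f)).comp (ofPoly.comp C)

/-- A nonzero constant, as a unit. -/
noncomputable def cstU : Eˣ →* (Fn ℓ f)ˣ := Units.map (cst : E →+* Fn ℓ f)

lemma ord_cstU (P : Pt ℓ f) (c : Eˣ) : ord P (cstU c) = 0 := by
  have h1 : 0 ≤ ord P (cstU c) := ord_nonneg P (ofPoly (C (c : E))) (cstU c) rfl
  have h2 : 0 ≤ ord P (cstU c⁻¹) := ord_nonneg P (ofPoly (C ((c⁻¹ : Eˣ) : E))) (cstU c⁻¹) rfl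
  rw [map_inv, ord_inv] at h2
  omega

/-- The residue of a function which is regular at `P`. -/
lemma exists_residue_pt (P : Pt ℓ f) (u : (Fn ℓ f)ˣ) (hu : 0 ≤ ord P u) :
    ∃ c : E, ∀ w : (Fn ℓ f)ˣ, (w : Fn ℓ f) = (u : Fn ℓ f) - (cst c : Fn ℓ f) → 0 < ord P w := by
  rw [R04_ord_nonneg_iff] at hu
  obtain ⟨a, ha⟩ := HeightOneSpectrum.exists_valuation_sub_lt_of_integer P.hs hu 1
  refine ⟨evalPt P a, fun w hw => ?_⟩
  rw [R04_ord_pos_iff]
  have h2 : P.hs.valuation (Fn ℓ f)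
      (algebraMap (Coord ℓ f) (Fn ℓ f) (a - ofPoly (C (evalPt P a)))) < 1 := by
    refine (HeightOneSpectrum.valuation_lt_one_iff_mem _ _).mpr ?_
    change evalPt P (a - ofPoly (C (evalPt P a))) = 0
    rw [map_sub, evalPt_ofPoly, eval_C, sub_self]
  have h3 : (w : Fn ℓ f) = -(algebraMap (Coord ℓ f) (Fn ℓ f) a - (u : Fn ℓ f)) +
      algebraMap (Coord ℓ f) (Fn ℓ f) (a - ofPoly (C (evalPt P a))) := by
    rw [hw, map_sub]
    change (u : Fn ℓ f) - algebraMap (Coord ℓ f) (Fn ℓ f) (ofPoly (C (evalPt P a))) = _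
    ring
  rw [h3]
  refine lt_of_le_of_lt (Valuation.map_add _ _ _) (max_lt ?_ h2)
  rw [Valuation.map_neg]
  exact ha

lemma div_mul (h h' : (Fn ℓ f)ˣ) : div (h * h') = div h + div h' := by
  ext P
  simp [ord_mul]

lemma div_one : div (1 : (Fn ℓ f)ˣ) = 0 := by
  ext P
  simp [ord_one]

lemma div_inv (h : (Fn ℓ f)ˣ) : div h⁻¹ = -div h := by
  ext P
  simp [ord_inv]

lemma div_cstU (c : Eˣ) : div (cstU c : (Fn ℓ f)ˣ) = 0 := by
  ext P
  simp [ord_cstU]

end Pool.Agent.Lib.MP_89bcae_ag.Sup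

end

section

/-!
ROW R05. The orders of `x - a` and of `y`.
-/

open Polynomial IsDedekindDomain

open scoped Classical

namespace Pool.Agent.Lib.MP_89bcae_ag.Sup

universe u

variable {ℓ : ℕ} {E : Type u} [Field E] {f : E[X]} [hG : IsGood ℓ f]

lemma algebraMap_ofPoly_ne_zero {p : E[X]} (hp : p ≠ 0) :
    algebraMap (Coord ℓ f) (Fn ℓ f) (ofPoly p) ≠ 0 := by
  intro h
  rw [map_eq_zero_iff _ (IsFractionRing.injective (Coord ℓ f) (Fn ℓ f))] at h
  exact hp ((map_eq_zero_iff _ (ofPoly_injective hG.prime.ne_zero)).mp h)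

/-- The function `p(x)`, for a nonzero polynomial `p`. -/
noncomputable def polyU (p : E[X]) (hp : p ≠ 0) : (Fn ℓ f)ˣ :=
  Units.mk0 (algebraMap (Coord ℓ f) (Fn ℓ f) (ofPoly p)) (algebraMap_ofPoly_ne_zero hp)

/-- The function `x - a`. -/
noncomputable def xs (a : E) : (Fn ℓ f)ˣ := polyU (X - C a) (X_sub_C_ne_zero a)

lemma algebraMap_yy_ne_zero : algebraMap (Coord ℓ f) (Fn ℓ f) yy ≠ 0 := by
  intro h
  have h1 : algebraMap (Coord ℓ f) (Fn ℓ f) (ofPoly f) = 0 := by
    rw [← yy_pow, map_pow, h, zero_pow hG.prime.ne_zero]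
  exact algebraMap_ofPoly_ne_zero hG.separable.ne_zero h1

/-- The function `y`. -/
noncomputable def yU : (Fn ℓ f)ˣ :=
  Units.mk0 (algebraMap (Coord ℓ f) (Fn ℓ f) yy) algebraMap_yy_ne_zero

/-- the order of a function of the coordinate ring -/
private lemma R05_ord (P : Pt ℓ f) (a : Coord ℓ f) (u : (Fn ℓ f)ˣ)
    (hu : (u : Fn ℓ f) = algebraMap (Coord ℓ f) (Fn ℓ f) a) :
    ord P u = -(WithZero.log (P.hs.intValuation a)) := by
  unfold ord
  rw [hu, HeightOneSpectrum.valuation_of_algebraMap]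

private lemma R05_le (P : Pt ℓ f) (a : Coord ℓ f) (h : evalPt P a = 0) :
    P.hs.intValuation a ≤ WithZero.exp (-1 : ℤ) := by
  have h1 := (P.hs.intValuation_le_pow_iff_mem a 1).mpr (by
    rw [pow_one]
    exact h)
  exact_mod_cast h1

private lemma R05_one (P : Pt ℓ f) (a : Coord ℓ f) (h : evalPt P a ≠ 0) :
    P.hs.intValuation a = 1 := by
  apply le_antisymm (P.hs.intValuation_le_one a)
  by_contra hlt
  rw [not_le] at hlt
  exact h ((P.hs.intValuation_lt_one_iff_mem a).mp hlt)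

/-- one of the two generators is a uniformizer -/
private lemma R05_key (P : Pt ℓ f) : WithZero.exp (-1 : ℤ) ≤
    max (P.hs.intValuation (ofPoly (X - C P.x))) (P.hs.intValuation (yy - ofPoly (C P.y))) := by
  obtain ⟨π, hπ⟩ := P.hs.intValuation_exists_uniformizer
  have hmem : π ∈ P.ideal := by
    apply (P.hs.intValuation_lt_one_iff_mem π).mp
    rw [hπ, ← WithZero.exp_zero, WithZero.exp_lt_exp]
    norm_num
  rw [P.ideal_eq_span, Ideal.mem_span_pair] at hmem
  obtain ⟨c, d, hcd⟩ := hmem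
  rw [← hπ, ← hcd]
  refine (Valuation.map_add _ _ _).trans ?_
  rw [map_mul, map_mul]
  exact max_le_max (mul_le_of_le_one_left' (P.hs.intValuation_le_one c))
    (mul_le_of_le_one_left' (P.hs.intValuation_le_one d))

lemma ord_polyU_of_ne (P : Pt ℓ f) {p : E[X]} (hp : p ≠ 0) (h : p.eval P.x ≠ 0) :
    ord P (polyU p hp) = 0 := by
  rw [R05_ord P (ofPoly p) _ rfl, R05_one P _ (by rwa [evalPt_ofPoly])]
  simp

lemma ord_xs_of_ne (P : Pt ℓ f) {a : E} (h : P.x ≠ a) : ord P (xs a) = 0 := by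
  apply ord_polyU_of_ne
  rw [eval_sub, eval_X, eval_C]
  exact sub_ne_zero.mpr h

lemma ord_xs_of_unramified (P : Pt ℓ f) (h : P.y ≠ 0) : ord P (xs P.x) = 1 := by
  rw [R05_ord P (ofPoly (X - C P.x)) _ rfl]
  have hle := R05_le P (ofPoly (X - C P.x)) (by simp)
  obtain ⟨q, hq⟩ : (X - C P.x) ∣ f - C (f.eval P.x) := by
    rw [dvd_iff_isRoot]
    simp
  have hgeo : (yy - ofPoly (C P.y) : Coord ℓ f) *
      (∑ i ∈ Finset.range ℓ, yy ^ i * (ofPoly (C P.y)) ^ (ℓ - 1 - i)) =
      ofPoly (X - C P.x) * ofPoly q := by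
    rw [mul_comm, Commute.geom_sum₂_mul (Commute.all _ _), yy_pow, ← map_pow, ← C_pow, P.eq,
      ← map_sub, ← map_mul, hq]
  have hS : P.hs.intValuation (∑ i ∈ Finset.range ℓ, yy ^ i * (ofPoly (C P.y)) ^ (ℓ - 1 - i)) =
      1 := by
    apply R05_one
    have e : evalPt P (∑ i ∈ Finset.range ℓ, yy ^ i * (ofPoly (C P.y)) ^ (ℓ - 1 - i)) =
        (ℓ : E) * P.y ^ (ℓ - 1) := by
      rw [map_sum]
      have e1 : ∀ i ∈ Finset.range ℓ,
          evalPt P (yy ^ i * (ofPoly (C P.y)) ^ (ℓ - 1 - i)) = P.y ^ (ℓ - 1) := by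
        intro i hi
        rw [Finset.mem_range] at hi
        rw [map_mul, map_pow, map_pow, evalPt_yy, evalPt_ofPoly, eval_C, ← pow_add]
        congr 1
        omega
      rw [Finset.sum_congr rfl e1, Finset.sum_const, Finset.card_range, nsmul_eq_mul]
    rw [e]
    exact mul_ne_zero hG.ne_zero (pow_ne_zero _ h)
  have hyx : P.hs.intValuation (yy - ofPoly (C P.y)) ≤ P.hs.intValuation (ofPoly (X - C P.x)) := by
    have h1 := congrArg P.hs.intValuation hgeo
    rw [map_mul, hS, mul_one, map_mul] at h1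
    rw [h1]
    exact mul_le_of_le_one_right' (P.hs.intValuation_le_one _)
  have hkey := R05_key P
  rw [max_eq_left hyx] at hkey
  rw [le_antisymm hle hkey, WithZero.log_exp]
  norm_num

/-- the value of y and of x - a at a ramified point -/
private lemma R05_ram (P : Pt ℓ f) (h : P.y = 0) :
    P.hs.intValuation (yy : Coord ℓ f) = WithZero.exp (-1 : ℤ) ∧
      P.hs.intValuation (ofPoly (X - C P.x) : Coord ℓ f) =
        (P.hs.intValuation (yy : Coord ℓ f)) ^ ℓ := by
  have hfx : f.eval P.x = 0 := by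
    rw [← P.eq, h, zero_pow hG.prime.ne_zero]
  obtain ⟨q, hq⟩ : (X - C P.x) ∣ f := by
    rw [dvd_iff_isRoot]
    exact hfx
  have hq0 : q.eval P.x ≠ 0 := by
    intro h0
    have hs := hG.separable
    have h1 : (derivative f).eval P.x ≠ 0 := by
      have := hs.eval₂_derivative_ne_zero (RingHom.id E) (x := P.x) (by simpa using hfx)
      simpa using this
    apply h1
    have e2 : derivative f = derivative ((X - C P.x) * q) := congrArg derivative hq
    rw [e2]
    simp [h0]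
  have hpow : P.hs.intValuation (ofPoly (X - C P.x) : Coord ℓ f) =
        (P.hs.intValuation (yy : Coord ℓ f)) ^ ℓ := by
    have h1 := congrArg P.hs.intValuation (yy_pow : (yy : Coord ℓ f) ^ ℓ = ofPoly f)
    rw [map_pow] at h1
    have e3 : (ofPoly f : Coord ℓ f) = ofPoly (X - C P.x) * ofPoly q := by
      rw [← map_mul]
      exact congrArg (ofPoly : E[X] →+* Coord ℓ f) hq
    rw [h1, e3, map_mul, R05_one P (ofPoly q) (by rwa [evalPt_ofPoly]), mul_one]
  refine ⟨?_, hpow⟩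
  have hle := R05_le P yy (by rw [evalPt_yy, h])
  have hkey := R05_key P
  rw [h, C_0, map_zero, sub_zero, max_eq_right] at hkey
  · exact le_antisymm hle hkey
  · rw [hpow]
    have h3 := pow_le_pow_right_of_le_one' (P.hs.intValuation_le_one (yy : Coord ℓ f))
      hG.prime.one_lt.le
    rwa [pow_one] at h3

lemma ord_xs_of_ramified (P : Pt ℓ f) (h : P.y = 0) : ord P (xs P.x) = ℓ := by
  obtain ⟨h1, h2⟩ := R05_ram P h
  rw [R05_ord P (ofPoly (X - C P.x)) _ rfl, h2, h1, WithZero.log_pow, WithZero.log_exp]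
  simp

lemma ord_yU_of_ne (P : Pt ℓ f) (h : P.y ≠ 0) : ord P yU = 0 := by
  rw [R05_ord P yy _ rfl, R05_one P _ (by rwa [evalPt_yy])]
  simp

lemma ord_yU_of_ramified (P : Pt ℓ f) (h : P.y = 0) : ord P yU = 1 := by
  obtain ⟨h1, -⟩ := R05_ram P h
  rw [R05_ord P yy _ rfl, h1, WithZero.log_exp]
  norm_num

end Pool.Agent.Lib.MP_89bcae_ag.Sup

end

section

/-!
ROW R08 (100-200 lines). Every class is the class of a divisor; the classes of divisors of functions,
and only these, vanish.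

PROOF. `ClassGroup.equivPic` is an isomorphism and every ideal class is the class `ClassGroup.mk0 I`
of a nonzero ideal `I` (`ClassGroup.mk0_surjective`), which is a product of primes
(`UniqueFactorizationMonoid`/`Ideal.finprod_heightOneSpectrum_factorization`), each of which is some
`P.ideal` (`exists_pt_of_prime`, `Pt.ideal_injective`). So `cl` is surjective.
Kernel: write `D = D₁ - D₂` with `D₁, D₂ ≥ 0`, `Iᵢ = ∏ P.ideal ^ Dᵢ(P)`. `cl D = 0` iff
`mk0 I₁ = mk0 I₂` iff `(a) I₁ = (b) I₂` for some nonzero `a, b` (`ClassGroup.mk0_eq_mk0_iff`) and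
comparing the exponents of `P.ideal` this is `div (b / a) = D`: the exponent of `P.ideal` in
`I₁` is `D₁(P)` and in `(a)` it is `ord P a` (definition of the valuation:
`HeightOneSpectrum.intValuation`, `Associates.count`); an ideal is determined by its exponents.
-/

open Polynomial IsDedekindDomain

open scoped Classical nonZeroDivisors

namespace Pool.Agent.Lib.MP_89bcae_ag.Sup

universe u

section gen

variable {R : Type*} [CommRing R] [IsDedekindDomain R] {K : Type*} [Field K] [Algebra R K]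
  [IsFractionRing R K]

lemma r08_count_span_coe (v : HeightOneSpectrum R) (a : R) (ha : a ≠ 0) :
    FractionalIdeal.count K v (FractionalIdeal.spanSingleton R⁰ (algebraMap R K a)) =
      -(WithZero.log (v.valuation K (algebraMap R K a))) := by
  rw [← FractionalIdeal.coeIdeal_span_singleton, FractionalIdeal.count_coe K v
    (by simpa using ha), HeightOneSpectrum.valuation_of_algebraMap,
    HeightOneSpectrum.intValuation_if_neg _ ha]
  simp

lemma r08_count_span (v : HeightOneSpectrum R) (x : Kˣ) :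
    FractionalIdeal.count K v (FractionalIdeal.spanSingleton R⁰ (x : K)) =
      -(WithZero.log (v.valuation K (x : K))) := by
  obtain ⟨a, b, hb, hab⟩ := IsFractionRing.div_surjective (A := R) (x : K)
  have hb0 : b ≠ 0 := nonZeroDivisors.ne_zero hb
  have hbK : algebraMap R K b ≠ 0 := by
    simpa using hb0
  have ha0 : a ≠ 0 := by
    rintro rfl
    apply x.ne_zero
    rw [← hab]; simp
  have h1 : FractionalIdeal.spanSingleton R⁰ (algebraMap R K a) =
      FractionalIdeal.spanSingleton R⁰ (x : K) *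
        FractionalIdeal.spanSingleton R⁰ (algebraMap R K b) := by
    rw [FractionalIdeal.spanSingleton_mul_spanSingleton, ← hab, div_mul_cancel₀ _ hbK]
  have h2 := FractionalIdeal.count_mul K v (I := FractionalIdeal.spanSingleton R⁰ (x : K))
    (I' := FractionalIdeal.spanSingleton R⁰ (algebraMap R K b))
    (FractionalIdeal.spanSingleton_ne_zero_iff.2 x.ne_zero)
    (FractionalIdeal.spanSingleton_ne_zero_iff.2 hbK)
  rw [← h1, r08_count_span_coe v a ha0, r08_count_span_coe v b hb0] at h2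
  have h3 : v.valuation K (algebraMap R K a) =
      v.valuation K (x : K) * v.valuation K (algebraMap R K b) := by
    rw [← map_mul, ← hab, div_mul_cancel₀ _ hbK]
  rw [h3, WithZero.log_mul (by simp) (by simpa using hb0)] at h2
  linarith

lemma r08_eq_of_count (I J : FractionalIdeal R⁰ K) (hI : I ≠ 0) (hJ : J ≠ 0)
    (h : ∀ v : HeightOneSpectrum R, FractionalIdeal.count K v I = FractionalIdeal.count K v J) :
    I = J := by
  rw [← FractionalIdeal.finprod_heightOneSpectrum_factorization' K hI,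
    ← FractionalIdeal.finprod_heightOneSpectrum_factorization' K hJ]
  exact finprod_congr fun v => by rw [h v]

end gen

variable {ℓ : ℕ} {E : Type u} [Field E] {f : E[X]} [hG : IsGood ℓ f]

lemma r08_hs_injective : Function.Injective (Pt.hs : Pt ℓ f → HeightOneSpectrum (Coord ℓ f)) :=
  fun _ _ h => Pt.ideal_injective (congrArg HeightOneSpectrum.asIdeal h)

lemma r08_hs_surjective : Function.Surjective (Pt.hs : Pt ℓ f → HeightOneSpectrum (Coord ℓ f)) := by
  intro v
  obtain ⟨P, hP⟩ := exists_pt_of_prime v.asIdeal v.isPrime v.ne_bot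
  exact ⟨P, HeightOneSpectrum.ext hP⟩

/-- The fractional ideal of a divisor. -/
noncomputable def r08Ideal :
    (Pt ℓ f →₀ ℤ) →+ Additive (FractionalIdeal (Coord ℓ f)⁰ (Fn ℓ f))ˣ :=
  Finsupp.liftAddHom fun P => zmultiplesHom _ (Additive.ofMul (FractionalIdeal.mk0 (Fn ℓ f)
    ⟨P.ideal, mem_nonZeroDivisors_of_ne_zero P.ideal_ne_bot⟩))

/-- The class of an invertible fractional ideal. -/
noncomputable def r08Class :
    Additive (FractionalIdeal (Coord ℓ f)⁰ (Fn ℓ f))ˣ →+ Jac ℓ f :=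
  MonoidHom.toAdditive ((ClassGroup.equivPic (Coord ℓ f)).toMonoidHom.comp
    (ClassGroup.mk (R := Coord ℓ f) (Fn ℓ f)))

lemma r08_cl_eq (D : Pt ℓ f →₀ ℤ) : cl D = r08Class (r08Ideal D) := by
  have h : (cl : (Pt ℓ f →₀ ℤ) →+ Jac ℓ f) = r08Class.comp r08Ideal := by
    refine Finsupp.addHom_ext' fun P => ?_
    refine AddMonoidHom.ext_int ?_
    simp only [cl, r08Ideal, r08Class, AddMonoidHom.comp_apply, Finsupp.singleAddHom_apply,
      Finsupp.liftAddHom_apply_single, zmultiplesHom_apply, one_smul, clPt]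
    change _ = Additive.ofMul (ClassGroup.equivPic (Coord ℓ f) (ClassGroup.mk (Fn ℓ f)
      (FractionalIdeal.mk0 (Fn ℓ f) _)))
    rw [ClassGroup.mk_mk0]
  rw [h]
  rfl

/-- The exponent of a prime, as a homomorphism. -/
noncomputable def r08Cnt (P : Pt ℓ f) :
    Additive (FractionalIdeal (Coord ℓ f)⁰ (Fn ℓ f))ˣ →+ ℤ :=
  AddMonoidHom.mk' (fun I => FractionalIdeal.count (Fn ℓ f) P.hs (I.toMul : FractionalIdeal _ _))
    fun I J => FractionalIdeal.count_mul (Fn ℓ f) P.hs I.toMul.ne_zero J.toMul.ne_zero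

lemma r08_cnt_ideal (P : Pt ℓ f) (D : Pt ℓ f →₀ ℤ) : r08Cnt P (r08Ideal D) = D P := by
  have h : (r08Cnt P).comp r08Ideal = Finsupp.applyAddHom P := by
    refine Finsupp.addHom_ext' fun Q => ?_
    refine AddMonoidHom.ext_int ?_
    simp only [r08Ideal, AddMonoidHom.comp_apply, Finsupp.singleAddHom_apply,
      Finsupp.liftAddHom_apply_single, zmultiplesHom_apply, one_smul, Finsupp.applyAddHom_apply]
    change FractionalIdeal.count (Fn ℓ f) P.hs ((Q.hs.asIdeal : Ideal (Coord ℓ f)) :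
      FractionalIdeal (Coord ℓ f)⁰ (Fn ℓ f)) = _
    rw [FractionalIdeal.count_maximal, Finsupp.single_apply]
    simp only [r08_hs_injective.eq_iff]
  have := DFunLike.congr_fun h D
  simpa using this

lemma r08_cnt_principal (P : Pt ℓ f) (h : (Fn ℓ f)ˣ) :
    r08Cnt P (Additive.ofMul (toPrincipalIdeal (Coord ℓ f) (Fn ℓ f) h)) = ord P h := by
  change FractionalIdeal.count (Fn ℓ f) P.hs (toPrincipalIdeal (Coord ℓ f) (Fn ℓ f) h :
    FractionalIdeal (Coord ℓ f)⁰ (Fn ℓ f)) = _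
  rw [coe_toPrincipalIdeal, r08_count_span]
  rfl

lemma r08_ext (I J : Additive (FractionalIdeal (Coord ℓ f)⁰ (Fn ℓ f))ˣ)
    (h : ∀ P, r08Cnt P I = r08Cnt P J) : I = J := by
  have : I.toMul = J.toMul := by
    refine Units.ext (r08_eq_of_count _ _ I.toMul.ne_zero J.toMul.ne_zero fun v => ?_)
    obtain ⟨P, rfl⟩ := r08_hs_surjective v
    exact h P
  exact this

lemma r08_ideal_div (h : (Fn ℓ f)ˣ) :
    r08Ideal (div h) = Additive.ofMul (toPrincipalIdeal (Coord ℓ f) (Fn ℓ f) h) :=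
  r08_ext _ _ fun P => by rw [r08_cnt_ideal, r08_cnt_principal, div_apply]


lemma cl_surjective : Function.Surjective (cl : (Pt ℓ f →₀ ℤ) →+ Jac ℓ f) := by
  intro Q
  obtain ⟨I, hI⟩ := ClassGroup.mk0_surjective ((ClassGroup.equivPic (Coord ℓ f)).symm Q.toMul)
  have hfin : (Function.support fun P : Pt ℓ f =>
      FractionalIdeal.count (Fn ℓ f) P.hs ((I : Ideal (Coord ℓ f)) :
        FractionalIdeal (Coord ℓ f)⁰ (Fn ℓ f))).Finite := by
    have := FractionalIdeal.finite_factors (K := Fn ℓ f) ((I : Ideal (Coord ℓ f)) :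
        FractionalIdeal (Coord ℓ f)⁰ (Fn ℓ f))
    rw [Filter.eventually_cofinite] at this
    exact this.preimage r08_hs_injective.injOn
  refine ⟨Finsupp.ofSupportFinite _ hfin, ?_⟩
  have h1 : r08Ideal (Finsupp.ofSupportFinite _ hfin) =
      Additive.ofMul (FractionalIdeal.mk0 (Fn ℓ f) I) :=
    r08_ext _ _ fun P => by
      rw [r08_cnt_ideal]
      rfl
  rw [r08_cl_eq, h1]
  change Additive.ofMul (ClassGroup.equivPic (Coord ℓ f) (ClassGroup.mk (Fn ℓ f)
      (FractionalIdeal.mk0 (Fn ℓ f) I))) = Q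
  rw [ClassGroup.mk_mk0, hI, MulEquiv.apply_symm_apply]
  rfl

lemma cl_div (h : (Fn ℓ f)ˣ) : cl (div h) = 0 := by
  rw [r08_cl_eq, r08_ideal_div]
  change Additive.ofMul (ClassGroup.equivPic (Coord ℓ f) (ClassGroup.mk (Fn ℓ f)
      (toPrincipalIdeal (Coord ℓ f) (Fn ℓ f) h))) = 0
  have : ClassGroup.mk (Fn ℓ f) (toPrincipalIdeal (Coord ℓ f) (Fn ℓ f) h) = 1 := by
    rw [ClassGroup.mk_eq_one_iff, coe_toPrincipalIdeal, FractionalIdeal.coe_spanSingleton]
    exact ⟨⟨_, rfl⟩⟩
  rw [this, map_one]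
  rfl

lemma exists_div_of_cl_eq_zero (D : Pt ℓ f →₀ ℤ) (hD : cl D = 0) :
    ∃ h : (Fn ℓ f)ˣ, div h = D := by
  rw [r08_cl_eq] at hD
  have h1 : ClassGroup.equivPic (Coord ℓ f) (ClassGroup.mk (Fn ℓ f) (r08Ideal D).toMul) = 1 := hD
  rw [map_eq_one_iff _ (ClassGroup.equivPic (Coord ℓ f)).injective,
    ClassGroup.mk_eq_one_iff] at h1
  obtain ⟨x, hx⟩ := h1.principal
  have hx' : ((r08Ideal D).toMul : FractionalIdeal (Coord ℓ f)⁰ (Fn ℓ f)) =
      FractionalIdeal.spanSingleton (Coord ℓ f)⁰ x := by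
    apply Subtype.coe_injective
    simp only [FractionalIdeal.val_eq_coe, hx, FractionalIdeal.coe_spanSingleton]
  have hx0 : x ≠ 0 := by
    rintro rfl
    apply (r08Ideal D).toMul.ne_zero
    rw [hx', FractionalIdeal.spanSingleton_zero]
  refine ⟨Units.mk0 x hx0, ?_⟩
  have h2 : r08Ideal D =
      Additive.ofMul (toPrincipalIdeal (Coord ℓ f) (Fn ℓ f) (Units.mk0 x hx0)) := by
    have : (r08Ideal D).toMul = toPrincipalIdeal (Coord ℓ f) (Fn ℓ f) (Units.mk0 x hx0) := by
      refine Units.ext ?_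
      rw [hx', coe_toPrincipalIdeal, Units.val_mk0]
    exact this
  ext P
  rw [div_apply, ← r08_cnt_principal, ← h2, r08_cnt_ideal]

end Pool.Agent.Lib.MP_89bcae_ag.Sup

end

section

/-!
ROW R06 (100-200 lines). Automorphisms of the coordinate ring acting on functions and orders.

PROOF. A ring automorphism `φ` of the domain `Coord ℓ f` extends to `Fn ℓ f`
(`IsFractionRing.ringEquivOfRingEquiv` or `IsFractionRing.map`). If `φ⁻¹(Q.ideal) = P.ideal`, i.e.
`Q.ideal = P.ideal.map φ`, then `φ` carries the valuation of `P` to that of `Q`: the exponent of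
`Q.ideal` in `(φ a) = φ((a))` is the exponent of `P.ideal` in `(a)`; e.g. because
`a ∈ P.ideal ^ n ↔ φ a ∈ Q.ideal ^ n` (`intValuation_le_pow_iff_mem`). Then pass to fractions.
-/

open Polynomial IsDedekindDomain

open scoped Classical

namespace Pool.Agent.Lib.MP_89bcae_ag.Sup

universe u

variable {ℓ : ℕ} {E : Type u} [Field E] {f : E[X]} [hG : IsGood ℓ f]

/-- The automorphism of the function field induced by one of the coordinate ring. -/
noncomputable def autF (φ : Coord ℓ f ≃+* Coord ℓ f) : Fn ℓ f ≃+* Fn ℓ f :=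
  IsFractionRing.ringEquivOfRingEquiv φ

lemma autF_algebraMap (φ : Coord ℓ f ≃+* Coord ℓ f) (a : Coord ℓ f) :
    autF φ (algebraMap (Coord ℓ f) (Fn ℓ f) a) = algebraMap (Coord ℓ f) (Fn ℓ f) (φ a) := by
  unfold autF
  exact IsFractionRing.ringEquivOfRingEquiv_algebraMap φ a

/-- The action on nonzero functions. -/
noncomputable def autU (φ : Coord ℓ f ≃+* Coord ℓ f) : (Fn ℓ f)ˣ ≃* (Fn ℓ f)ˣ :=
  Units.mapEquiv (autF φ : Fn ℓ f ≃* Fn ℓ f)

private lemma R06_ideal (φ : Coord ℓ f ≃+* Coord ℓ f) (P Q : Pt ℓ f)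
    (h : ∀ a, evalPt Q (φ a) = 0 ↔ evalPt P a = 0) :
    P.ideal.map (φ : Coord ℓ f →+* Coord ℓ f) = Q.ideal := by
  ext b
  rw [Ideal.mem_map_iff_of_surjective (φ : Coord ℓ f →+* Coord ℓ f) φ.surjective]
  constructor
  · rintro ⟨a, ha, rfl⟩
    have ha' : evalPt P a = 0 := ha
    have := (h a).2 ha'
    exact this
  · intro hb
    have hb' : evalPt Q b = 0 := hb
    refine ⟨φ.symm b, ?_, by simp⟩
    have h1 := h (φ.symm b)
    rw [φ.apply_symm_apply] at h1
    exact h1.1 hb'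

private lemma R06_pow (φ : Coord ℓ f ≃+* Coord ℓ f) (P Q : Pt ℓ f)
    (h : ∀ a, evalPt Q (φ a) = 0 ↔ evalPt P a = 0) (n : ℕ) (a : Coord ℓ f)
    (ha : a ∈ P.hs.asIdeal ^ n) : φ a ∈ Q.hs.asIdeal ^ n := by
  have h1 : P.hs.asIdeal = P.ideal := rfl
  have h2 : Q.hs.asIdeal = Q.ideal := rfl
  rw [h1] at ha
  rw [h2, ← R06_ideal φ P Q h, ← Ideal.map_pow]
  exact Ideal.mem_map_of_mem (φ : Coord ℓ f →+* Coord ℓ f) ha

private lemma R06_le (φ : Coord ℓ f ≃+* Coord ℓ f) (P Q : Pt ℓ f)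
    (h : ∀ a, evalPt Q (φ a) = 0 ↔ evalPt P a = 0) (a : Coord ℓ f) :
    Q.hs.intValuation (φ a) ≤ P.hs.intValuation a := by
  by_cases ha : a = 0
  · subst ha
    simp
  · have h1 := P.hs.intValuation_if_neg ha
    rw [h1]
    rw [HeightOneSpectrum.intValuation_le_pow_iff_mem]
    apply R06_pow φ P Q h
    rw [← HeightOneSpectrum.intValuation_le_pow_iff_mem, h1]

private lemma R06_int (φ : Coord ℓ f ≃+* Coord ℓ f) (P Q : Pt ℓ f)
    (h : ∀ a, evalPt Q (φ a) = 0 ↔ evalPt P a = 0) (a : Coord ℓ f) :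
    Q.hs.intValuation (φ a) = P.hs.intValuation a := by
  refine le_antisymm (R06_le φ P Q h a) ?_
  have h2 : ∀ b, evalPt P (φ.symm b) = 0 ↔ evalPt Q b = 0 := by
    intro b
    have h1 := h (φ.symm b)
    rw [φ.apply_symm_apply] at h1
    exact h1.symm
  have h3 := R06_le φ.symm Q P h2 (φ a)
  rwa [φ.symm_apply_apply] at h3

lemma ord_autU (φ : Coord ℓ f ≃+* Coord ℓ f) (P Q : Pt ℓ f)
    (h : ∀ a, evalPt Q (φ a) = 0 ↔ evalPt P a = 0) (u : (Fn ℓ f)ˣ) :
    ord Q (autU φ u) = ord P u := by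
  have key : Q.hs.valuation (Fn ℓ f) ((autU φ u : (Fn ℓ f)ˣ) : Fn ℓ f)
      = P.hs.valuation (Fn ℓ f) (u : Fn ℓ f) := by
    have h0 : ((autU φ u : (Fn ℓ f)ˣ) : Fn ℓ f) = autF φ (u : Fn ℓ f) := rfl
    rw [h0]
    obtain ⟨a, b, hb, hab⟩ := IsFractionRing.div_surjective (A := Coord ℓ f) (u : Fn ℓ f)
    rw [← hab, map_div₀, autF_algebraMap, autF_algebraMap, map_div₀, map_div₀]
    rw [HeightOneSpectrum.valuation_of_algebraMap, HeightOneSpectrum.valuation_of_algebraMap,
      HeightOneSpectrum.valuation_of_algebraMap, HeightOneSpectrum.valuation_of_algebraMap,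
      R06_int φ P Q h, R06_int φ P Q h]
  unfold ord
  rw [key]

end Pool.Agent.Lib.MP_89bcae_ag.Sup

end

section

/-!
ROW R07 (80-160 lines). The automorphisms `y ↦ ζ y` and the automorphisms of the constant field.

PROOF. `rotC ζ` has the inverse `rotC ζ⁻¹`; check on `ofPoly p` and `yy`
(`AdjoinRoot.ringHom_ext`, or `exists_expand`). `evalPt P ∘ rotC ζ = evalPt (P.rot ζ)` (check on
generators), so `ord_autU` with `Q`, `P := Q.rot ζ` gives `ord Q (rot h) = ord (Q.rot ζ) h`.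
For `σ : E ≃+* E` with `f.map σ = f`: `coordMap ℓ σ` is bijective (inverse `coordMap ℓ σ⁻¹`), and
`evalPt (P.map σ) (coordMap σ a) = σ (evalPt P a)`.
-/

open Polynomial IsDedekindDomain

open scoped Classical

namespace Pool.Agent.Lib.MP_89bcae_ag.Sup

universe u

variable {ℓ : ℕ} {E : Type u} [Field E] {f : E[X]}

lemma R07_hom_ext {S : Type u} [CommRing S] {g h : Coord ℓ f →+* S}
    (h1 : ∀ p, g (ofPoly p) = h (ofPoly p)) (h2 : g yy = h yy) : g = h := by
  exact AdjoinRoot.ringHom_ext (RingHom.ext h1) h2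

section Maps

variable {E' : Type u} [Field E'] {f' : E'[X]}

lemma coordMap_ofPoly (σ : E →+* E') (h : f.map σ = f') (p : E[X]) :
    coordMap ℓ σ h (ofPoly p) = ofPoly (p.map σ) := by
  unfold coordMap ofPoly
  exact AdjoinRoot.map_of _ _ _ _ _

lemma coordMap_yy (σ : E →+* E') (h : f.map σ = f') :
    coordMap ℓ σ h (yy : Coord ℓ f) = yy := by
  unfold coordMap yy
  exact AdjoinRoot.map_root _ _ _ _

lemma evalPt_coordMap (σ : E →+* E') (h : f.map σ = f') (P : Pt ℓ f) (a : Coord ℓ f) :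
    evalPt (P.map σ h) (coordMap ℓ σ h a) = σ (evalPt P a) := by
  have h1 : (evalPt (P.map σ h)).comp (coordMap ℓ σ h) = σ.comp (evalPt P) := by
    refine R07_hom_ext (fun p => ?_) ?_
    · rw [RingHom.comp_apply, RingHom.comp_apply, coordMap_ofPoly, evalPt_ofPoly, evalPt_ofPoly]
      change (p.map σ).eval (σ P.x) = σ (p.eval P.x)
      rw [Polynomial.eval_map, Polynomial.eval₂_hom]
    · rw [RingHom.comp_apply, RingHom.comp_apply, coordMap_yy, evalPt_yy, evalPt_yy]
      rfl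
  exact RingHom.congr_fun h1 a

end Maps

lemma R07_rotC_comp (ζ ξ : E) (hζ : ζ ^ ℓ = 1) (hξ : ξ ^ ℓ = 1) (h : ζ * ξ = 1) :
    (rotC ζ hζ : Coord ℓ f →+* Coord ℓ f).comp (rotC ξ hξ) = RingHom.id _ := by
  refine R07_hom_ext (fun p => ?_) ?_
  · rw [RingHom.comp_apply, rotC_ofPoly, rotC_ofPoly, RingHom.id_apply]
  · rw [RingHom.comp_apply, rotC_yy, map_mul, rotC_ofPoly, rotC_yy, RingHom.id_apply, ← mul_assoc,
      ← map_mul, ← C_mul, mul_comm ξ ζ, h, C_1, map_one, one_mul]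

lemma R07_coordMap_comp (σ τ : E →+* E) (hσ : f.map σ = f) (hτ : f.map τ = f)
    (h : σ.comp τ = RingHom.id E) :
    (coordMap ℓ σ hσ : Coord ℓ f →+* Coord ℓ f).comp (coordMap ℓ τ hτ) = RingHom.id _ := by
  refine R07_hom_ext (fun p => ?_) ?_
  · rw [RingHom.comp_apply, coordMap_ofPoly, coordMap_ofPoly, RingHom.id_apply,
      Polynomial.map_map, h, Polynomial.map_id]
  · rw [RingHom.comp_apply, coordMap_yy, coordMap_yy, RingHom.id_apply]

/-- The automorphism `y ↦ ζ y` of the coordinate ring. -/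
noncomputable def rotE (ζ : E) (hζ : ζ ^ ℓ = 1) (h0 : ζ ≠ 0) : Coord ℓ f ≃+* Coord ℓ f :=
  RingEquiv.ofRingHom (rotC ζ hζ) (rotC ζ⁻¹ (by rw [inv_pow, hζ, inv_one]))
    (R07_rotC_comp _ _ _ _ (mul_inv_cancel₀ h0)) (R07_rotC_comp _ _ _ _ (inv_mul_cancel₀ h0))

lemma evalPt_rotE (ζ : E) (hζ : ζ ^ ℓ = 1) (h0 : ζ ≠ 0) (P : Pt ℓ f) (a : Coord ℓ f) :
    evalPt P (rotE ζ hζ h0 a) = evalPt (P.rot ζ hζ) a := by
  have h1 : (evalPt P).comp (rotC ζ hζ) = evalPt (P.rot ζ hζ) := by
    refine R07_hom_ext (fun p => ?_) ?_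
    · rw [RingHom.comp_apply, rotC_ofPoly, evalPt_ofPoly, evalPt_ofPoly]
      rfl
    · rw [RingHom.comp_apply, rotC_yy, map_mul, evalPt_ofPoly, evalPt_yy, evalPt_yy, eval_C]
      rfl
  exact RingHom.congr_fun h1 a

/-- The automorphisms of the field of constants which fix the coefficients of `f`. -/
def Sym (f : E[X]) : Subgroup (E ≃+* E) where
  carrier := {σ | f.map (σ : E →+* E) = f}
  mul_mem' {σ τ} hσ hτ := by
    have h1 : f.map (σ : E →+* E) = f := hσ
    have h2 : f.map (τ : E →+* E) = f := hτ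
    change f.map ((σ * τ : E ≃+* E) : E →+* E) = f
    have h3 : ((σ * τ : E ≃+* E) : E →+* E) = (σ : E →+* E).comp (τ : E →+* E) := by
      ext x
      rfl
    rw [h3, ← Polynomial.map_map, h2, h1]
  one_mem' := by
    change f.map ((1 : E ≃+* E) : E →+* E) = f
    have h3 : ((1 : E ≃+* E) : E →+* E) = RingHom.id E := by
      ext x
      rfl
    rw [h3, Polynomial.map_id]
  inv_mem' {σ} hσ := by
    have h1 : f.map (σ : E →+* E) = f := hσ
    change f.map ((σ⁻¹ : E ≃+* E) : E →+* E) = f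
    have h3 : ((σ⁻¹ : E ≃+* E) : E →+* E).comp (σ : E →+* E) = RingHom.id E := by
      ext x
      exact σ.symm_apply_apply x
    conv_lhs => rw [← h1]
    rw [Polynomial.map_map, h3, Polynomial.map_id]

lemma mem_Sym {σ : E ≃+* E} : σ ∈ Sym f ↔ f.map (σ : E →+* E) = f := Iff.rfl

/-- The automorphism of the coordinate ring induced by `σ`. -/
noncomputable def symE (ℓ : ℕ) (σ : Sym f) : Coord ℓ f ≃+* Coord ℓ f :=
  RingEquiv.ofRingHom (coordMap ℓ ((σ : E ≃+* E) : E →+* E) σ.2)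
    (coordMap ℓ (((σ⁻¹ : Sym f) : E ≃+* E) : E →+* E) (σ⁻¹).2)
    (R07_coordMap_comp _ _ _ _ (by
      ext x
      exact (σ : E ≃+* E).apply_symm_apply x))
    (R07_coordMap_comp _ _ _ _ (by
      ext x
      exact (σ : E ≃+* E).symm_apply_apply x))

/-- The action of `Sym f` on the points. -/
def Pt.sym (σ : Sym f) (P : Pt ℓ f) : Pt ℓ f := P.map ((σ : E ≃+* E) : E →+* E) σ.2

lemma evalPt_symE (σ : Sym f) (P : Pt ℓ f) (a : Coord ℓ f) :
    evalPt (P.sym σ) (symE ℓ σ a) = (σ : E ≃+* E) (evalPt P a) :=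
  evalPt_coordMap ((σ : E ≃+* E) : E →+* E) σ.2 P a

variable [hG : IsGood ℓ f]

/-- `h(x, y) ↦ h(x, ζ y)`. -/
noncomputable def rotU (ζ : E) (hζ : ζ ^ ℓ = 1) (h0 : ζ ≠ 0) : (Fn ℓ f)ˣ ≃* (Fn ℓ f)ˣ :=
  autU (rotE ζ hζ h0)

lemma ord_rotU (ζ : E) (hζ : ζ ^ ℓ = 1) (h0 : ζ ≠ 0) (P : Pt ℓ f) (u : (Fn ℓ f)ˣ) :
    ord P (rotU ζ hζ h0 u) = ord (P.rot ζ hζ) u :=
  ord_autU (rotE ζ hζ h0) (P.rot ζ hζ) P (fun a => by rw [evalPt_rotE]) u

lemma R07_autU_mk (φ : Coord ℓ f ≃+* Coord ℓ f) (u : (Fn ℓ f)ˣ) {a : Coord ℓ f}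
    (hu : (u : Fn ℓ f) = algebraMap (Coord ℓ f) (Fn ℓ f) a) :
    ((autU φ u : (Fn ℓ f)ˣ) : Fn ℓ f) = algebraMap (Coord ℓ f) (Fn ℓ f) (φ a) := by
  have h1 : ((autU φ u : (Fn ℓ f)ˣ) : Fn ℓ f) = autF φ (u : Fn ℓ f) := rfl
  rw [h1, hu, autF_algebraMap]

omit hG in
lemma R07_cstU (c : Eˣ) : ((cstU c : (Fn ℓ f)ˣ) : Fn ℓ f) =
    algebraMap (Coord ℓ f) (Fn ℓ f) (ofPoly (C (c : E))) := rfl

lemma R07_polyU (p : E[X]) (hp : p ≠ 0) : ((polyU p hp : (Fn ℓ f)ˣ) : Fn ℓ f) =
    algebraMap (Coord ℓ f) (Fn ℓ f) (ofPoly p) := rfl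

lemma R07_yU : ((yU : (Fn ℓ f)ˣ) : Fn ℓ f) = algebraMap (Coord ℓ f) (Fn ℓ f) yy := rfl

omit hG in
lemma R07_rotE_ofPoly (ζ : E) (hζ : ζ ^ ℓ = 1) (h0 : ζ ≠ 0) (p : E[X]) :
    rotE ζ hζ h0 (ofPoly p : Coord ℓ f) = ofPoly p := rotC_ofPoly ζ hζ p

omit hG in
lemma R07_rotE_yy (ζ : E) (hζ : ζ ^ ℓ = 1) (h0 : ζ ≠ 0) :
    rotE ζ hζ h0 (yy : Coord ℓ f) = ofPoly (C ζ) * yy := rotC_yy ζ hζ

lemma rotU_cstU (ζ : E) (hζ : ζ ^ ℓ = 1) (h0 : ζ ≠ 0) (c : Eˣ) :
    rotU ζ hζ h0 (cstU c : (Fn ℓ f)ˣ) = cstU c := by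
  ext
  rw [rotU, R07_autU_mk (rotE ζ hζ h0) _ (R07_cstU c), R07_rotE_ofPoly, R07_cstU]

lemma rotU_polyU (ζ : E) (hζ : ζ ^ ℓ = 1) (h0 : ζ ≠ 0) (p : E[X]) (hp : p ≠ 0) :
    rotU ζ hζ h0 (polyU p hp : (Fn ℓ f)ˣ) = polyU p hp := by
  ext
  rw [rotU, R07_autU_mk (rotE ζ hζ h0) _ (R07_polyU p hp), R07_rotE_ofPoly, R07_polyU]

lemma rotU_yU (ζ : E) (hζ : ζ ^ ℓ = 1) (h0 : ζ ≠ 0) :
    rotU ζ hζ h0 (yU : (Fn ℓ f)ˣ) = cstU (Units.mk0 ζ h0) * yU := by
  ext
  rw [rotU, R07_autU_mk (rotE ζ hζ h0) _ R07_yU, R07_rotE_yy, Units.val_mul, R07_cstU, R07_yU,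
    map_mul]
  rfl

/-- The action of `Sym f` on the nonzero functions. -/
noncomputable def symU (σ : Sym f) : (Fn ℓ f)ˣ ≃* (Fn ℓ f)ˣ := autU (symE ℓ σ)

lemma ord_symU (σ : Sym f) (P : Pt ℓ f) (u : (Fn ℓ f)ˣ) :
    ord (P.sym σ) (symU σ u) = ord P u :=
  ord_autU (symE ℓ σ) P (P.sym σ) (fun a => by
    rw [evalPt_symE]
    exact EmbeddingLike.map_eq_zero_iff) u

omit hG in
lemma R07_symE_ofPoly (σ : Sym f) (p : E[X]) :
    symE ℓ σ (ofPoly p : Coord ℓ f) = ofPoly (p.map ((σ : E ≃+* E) : E →+* E)) :=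
  coordMap_ofPoly ((σ : E ≃+* E) : E →+* E) σ.2 p

omit hG in
lemma R07_symE_yy (σ : Sym f) : symE ℓ σ (yy : Coord ℓ f) = yy :=
  coordMap_yy ((σ : E ≃+* E) : E →+* E) σ.2

lemma symU_cstU (σ : Sym f) (c : Eˣ) :
    symU σ (cstU c : (Fn ℓ f)ˣ) = cstU (Units.map ((σ : E ≃+* E) : E →* E) c) := by
  ext
  rw [symU, R07_autU_mk (symE ℓ σ) _ (R07_cstU c), R07_symE_ofPoly, R07_cstU, Polynomial.map_C]
  rfl

lemma symU_yU (σ : Sym f) : symU σ (yU : (Fn ℓ f)ˣ) = yU := by
  ext
  rw [symU, R07_autU_mk (symE ℓ σ) _ R07_yU, R07_symE_yy, R07_yU]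

lemma symU_xs (σ : Sym f) (a : E) : symU σ (xs a : (Fn ℓ f)ˣ) = xs ((σ : E ≃+* E) a) := by
  ext
  rw [symU, xs, xs, R07_autU_mk (symE ℓ σ) _ (R07_polyU _ (X_sub_C_ne_zero a)), R07_symE_ofPoly,
    R07_polyU, Polynomial.map_sub, Polynomial.map_X, Polynomial.map_C]
  rfl

lemma symU_rotU (σ : Sym f) (ζ : E) (hζ : ζ ^ ℓ = 1) (h0 : ζ ≠ 0)
    (hσ : (σ : E ≃+* E) ζ = ζ) (u : (Fn ℓ f)ˣ) :
    symU σ (rotU ζ hζ h0 u) = rotU ζ hζ h0 (symU σ u) := by
  have hcomm : ∀ a : Coord ℓ f, symE ℓ σ (rotE ζ hζ h0 a) = rotE ζ hζ h0 (symE ℓ σ a) := by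
    have h1 : ((symE ℓ σ : Coord ℓ f ≃+* Coord ℓ f) : Coord ℓ f →+* Coord ℓ f).comp
        ((rotE ζ hζ h0 : Coord ℓ f ≃+* Coord ℓ f) : Coord ℓ f →+* Coord ℓ f) =
        ((rotE ζ hζ h0 : Coord ℓ f ≃+* Coord ℓ f) : Coord ℓ f →+* Coord ℓ f).comp
        ((symE ℓ σ : Coord ℓ f ≃+* Coord ℓ f) : Coord ℓ f →+* Coord ℓ f) := by
      refine R07_hom_ext (fun p => ?_) ?_
      · change symE ℓ σ (rotE ζ hζ h0 (ofPoly p)) = rotE ζ hζ h0 (symE ℓ σ (ofPoly p))
        rw [R07_rotE_ofPoly, R07_symE_ofPoly, R07_rotE_ofPoly]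
      · change symE ℓ σ (rotE ζ hζ h0 yy) = rotE ζ hζ h0 (symE ℓ σ yy)
        rw [R07_rotE_yy, map_mul, R07_symE_ofPoly, R07_symE_yy, R07_rotE_yy, Polynomial.map_C]
        change ofPoly (C ((σ : E ≃+* E) ζ)) * yy = _
        rw [hσ]
    intro a
    exact RingHom.congr_fun h1 a
  ext
  obtain ⟨a, b, hb, hab⟩ := IsFractionRing.div_surjective (A := Coord ℓ f) (u : Fn ℓ f)
  change autF (symE ℓ σ) (autF (rotE ζ hζ h0) (u : Fn ℓ f)) =
    autF (rotE ζ hζ h0) (autF (symE ℓ σ) (u : Fn ℓ f))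
  rw [← hab]
  simp only [map_div₀, autF_algebraMap, hcomm]

end Pool.Agent.Lib.MP_89bcae_ag.Sup

end

section

/-!
ROW R09 (100-250 lines). Functoriality of the class of a divisor.

PROOF. By additivity it is enough that `jacMap ℓ σ h (clPt P) = clPt (P.map σ h)`. Unfold: with
`A = Coord ℓ f`, `A' = Coord ℓ f'`, `φ = coordMap ℓ σ h`, the left side is the class in `Pic A'` of
`A' ⊗_A P.ideal` (`CommRing.Pic.mapRingHom`, `mapAlgebra_apply`, `ClassGroup.equivPic` applied to
`mk0 I` is the class of `I`; look for a lemma such as `ClassGroup.equivPic_mk0`/`unitsToPic`), so it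
is enough to give an `A'`-linear isomorphism `A' ⊗_A P.ideal ≃ P'.ideal`, `P' = P.map σ h`.
`a' ⊗ x ↦ a' φ(x)`: it is injective because `φ` is flat: `A' = E'[x, y]/(...)` is free over `A`
along `E'/E`: `A' = A ⊗_E E'`; or, more elementary: `P.ideal` is an invertible module, so
`A' ⊗_A P.ideal` is an invertible `A'`-module, hence torsion-free (it is locally free of rank one
over a domain), the map is surjective onto the ideal `φ(P.ideal) A' = P'.ideal` (generators:
`Pt.ideal_eq_span`, `coordMap_ofPoly`, `coordMap_yy`), and a surjection of invertible modules is an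
isomorphism (`Module.Invertible.bijective_of_surjective`).
-/

open Polynomial IsDedekindDomain

open scoped Classical nonZeroDivisors TensorProduct

namespace Pool.Agent.Lib.MP_89bcae_ag.Sup

universe u

/-- The fractional ideal of an ideal is isomorphic to the ideal. -/
noncomputable def R09_equiv (R : Type u) [CommRing R] [IsDedekindDomain R] (I : (Ideal R)⁰) :
    ((FractionalIdeal.unitsMulEquivSubmodule (FractionalIdeal.mk0 (FractionRing R) I) : 
      (Submodule R (FractionRing R))ˣ) : Submodule R (FractionRing R)) ≃ₗ[R] I.1 := by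
  refine (LinearEquiv.ofBijective ((Algebra.linearMap R (FractionRing R)).restrict (p := I.1) ?_) ⟨?_, ?_⟩).symm
  · intro x hx
    show algebraMap R (FractionRing R) x ∈ ((FractionalIdeal.mk0 (FractionRing R) I : FractionalIdeal R⁰ (FractionRing R)) : Submodule R (FractionRing R))
    rw [FractionalIdeal.coe_mk0]
    exact FractionalIdeal.mem_coeIdeal_of_mem _ hx
  · intro x y h
    have h1 := congrArg Subtype.val h
    exact Subtype.ext (IsFractionRing.injective R (FractionRing R) h1)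
  · rintro ⟨y, hy⟩
    have hy' : y ∈ (FractionalIdeal.mk0 (FractionRing R) I : FractionalIdeal R⁰ (FractionRing R)) := hy
    rw [FractionalIdeal.coe_mk0, FractionalIdeal.mem_coeIdeal] at hy'
    obtain ⟨x, hx, rfl⟩ := hy'
    exact ⟨⟨x, hx⟩, rfl⟩

lemma R09_invertible (R : Type u) [CommRing R] [IsDedekindDomain R] (I : (Ideal R)⁰) :
    Module.Invertible R I.1 := Module.Invertible.congr (R09_equiv R I)

lemma R09_equivPic_mk0 (R : Type u) [CommRing R] [IsDedekindDomain R] (I : (Ideal R)⁰) [Module.Invertible R I.1] :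
    ClassGroup.equivPic R (ClassGroup.mk0 I) = CommRing.Pic.mk R I.1 := by
  rw [ClassGroup.mk0_eq_quotientMk]
  have h : ClassGroup.equivPic R (QuotientGroup.mk (FractionalIdeal.mk0 (FractionRing R) I)) =
    Submodule.unitsToPic R (FractionRing R) 
      (FractionalIdeal.unitsMulEquivSubmodule (FractionalIdeal.mk0 (FractionRing R) I)) := rfl
  refine h.trans ?_
  rw [Submodule.unitsToPic_apply, CommRing.Pic.mk_eq_mk_iff]
  exact ⟨R09_equiv R I⟩

/-- base change of an ideal -/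
lemma R09_map {R S : Type u} [CommRing R] [CommRing S] (φ : R →+* S) (I : Ideal R) (J : Ideal S)
    [Module.Invertible R I] [Module.Invertible S J] (h : I.map φ = J) :
    CommRing.Pic.mapRingHom φ (CommRing.Pic.mk R I) = CommRing.Pic.mk S J := by
  let _ := φ.toAlgebra
  show CommRing.Pic.mapAlgebra R S (CommRing.Pic.mk R I) = CommRing.Pic.mk S J
  rw [CommRing.Pic.mapAlgebra_apply, CommRing.Pic.mk_eq_mk_iff]
  have e1 : S ⊗[R] (CommRing.Pic.mk R I : CommRing.Pic R) ≃ₗ[S] S ⊗[R] I :=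
    TensorProduct.AlgebraTensorModule.congr (LinearEquiv.refl S S) (CommRing.Pic.mk.linearEquiv R I)
  refine ⟨e1 ≪≫ₗ ?_⟩
  -- the multiplication map
  have hmem : ∀ x : I, φ x ∈ J := fun x => h ▸ Ideal.mem_map_of_mem φ x.2
  let g0 : I →ₗ[R] J :=
    { toFun := fun x => ⟨φ x, hmem x⟩
      map_add' := fun x y => Subtype.ext (by simp)
      map_smul' := fun r x => Subtype.ext (by
        show φ (r * x) = ((r • (⟨φ x, hmem x⟩ : J) : J) : S)
        rw [map_mul]
        rfl) }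
  let g : S ⊗[R] I →ₗ[S] J := TensorProduct.AlgebraTensorModule.lift
    ((LinearMap.toSpanSingleton S (I →ₗ[R] J) g0))
  have hg : ∀ (s : S) (x : I), ((g (s ⊗ₜ x) : J) : S) = s * φ x := by
    intro s x
    rfl
  have key : ∀ y ∈ Submodule.span S (φ '' (I : Set R)), ∃ t : S ⊗[R] I, ((g t : J) : S) = y := by
    intro y hy
    induction hy using Submodule.span_induction with
    | mem y hy =>
      obtain ⟨x, hx, rfl⟩ := hy
      exact ⟨1 ⊗ₜ ⟨x, hx⟩, by rw [hg, one_mul]⟩
    | zero => exact ⟨0, by rw [map_zero]; rfl⟩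
    | add y z _ _ hy hz =>
      obtain ⟨s, hs⟩ := hy
      obtain ⟨t, ht⟩ := hz
      exact ⟨s + t, by rw [map_add]; show ((g s : J) : S) + ((g t : J) : S) = _; rw [hs, ht]⟩
    | smul a y _ hy =>
      obtain ⟨s, hs⟩ := hy
      exact ⟨a • s, by rw [map_smul]; show a * ((g s : J) : S) = _; rw [hs]; rfl⟩
  refine LinearEquiv.ofBijective g (Module.Invertible.bijective_of_surjective ?_)
  rintro ⟨y, hy⟩
  have hy2 : y ∈ Submodule.span S (φ '' (I : Set R)) := by
    have h3 : y ∈ I.map φ := by rw [h]; exact hy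
    exact h3
  obtain ⟨t, ht⟩ := key y hy2
  exact ⟨t, Subtype.ext ht⟩

variable {ℓ : ℕ} {E E' : Type u} [Field E] [Field E'] {f : E[X]} {f' : E'[X]} [hG : IsGood ℓ f]
  [hG' : IsGood ℓ f']

lemma R09_clPt (σ : E →+* E') (h : f.map σ = f') (P : Pt ℓ f) :
    jacMap ℓ σ h (clPt P) = clPt (Pt.map σ h P) := by
  have i1 : Module.Invertible (Coord ℓ f) P.ideal := R09_invertible (Coord ℓ f)
    ⟨P.ideal, mem_nonZeroDivisors_of_ne_zero P.ideal_ne_bot⟩
  have i2 : Module.Invertible (Coord ℓ f') (Pt.map σ h P).ideal := R09_invertible (Coord ℓ f')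
    ⟨(Pt.map σ h P).ideal, mem_nonZeroDivisors_of_ne_zero (Pt.map σ h P).ideal_ne_bot⟩
  have h1 : CommRing.Pic.mapRingHom (coordMap ℓ σ h) (ClassGroup.equivPic (Coord ℓ f)
      (ClassGroup.mk0 ⟨P.ideal, mem_nonZeroDivisors_of_ne_zero P.ideal_ne_bot⟩)) =
      ClassGroup.equivPic (Coord ℓ f') (ClassGroup.mk0
        ⟨(Pt.map σ h P).ideal, mem_nonZeroDivisors_of_ne_zero (Pt.map σ h P).ideal_ne_bot⟩) := by
    rw [R09_equivPic_mk0, R09_equivPic_mk0]
    refine R09_map (coordMap ℓ σ h) P.ideal (Pt.map σ h P).ideal ?_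
    have e1 : coordMap ℓ σ h (ofPoly (X - C P.x)) = ofPoly (X - C (Pt.map σ h P).x) := by
      rw [coordMap_ofPoly, Polynomial.map_sub, Polynomial.map_X, Polynomial.map_C]
      rfl
    have e2 : coordMap ℓ σ h ((yy : Coord ℓ f) - ofPoly (C P.y)) =
        yy - ofPoly (C (Pt.map σ h P).y) := by
      rw [map_sub, coordMap_ofPoly, coordMap_yy, Polynomial.map_C]
      rfl
    rw [Pt.ideal_eq_span, Pt.ideal_eq_span, Ideal.map_span, Set.image_pair, e1, e2]
  exact congrArg Additive.ofMul h1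

lemma jacMap_cl (σ : E →+* E') (h : f.map σ = f') (D : Pt ℓ f →₀ ℤ) :
    jacMap ℓ σ h (cl D) = cl (D.mapDomain (Pt.map σ h)) := by
  induction D using Finsupp.induction_linear with
  | zero => rw [map_zero, map_zero, Finsupp.mapDomain_zero, map_zero]
  | add D D' h1 h2 => rw [map_add, map_add, h1, h2, Finsupp.mapDomain_add, map_add]
  | single P n =>
    rw [Finsupp.mapDomain_single]
    have e1 : cl (Finsupp.single P n) = n • clPt P := by
      rw [cl, Finsupp.liftAddHom_apply_single, zmultiplesHom_apply]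
    have e2 : cl (Finsupp.single (Pt.map σ h P) n) = n • clPt (Pt.map σ h P) := by
      rw [cl, Finsupp.liftAddHom_apply_single, zmultiplesHom_apply]
    rw [e1, e2, map_zsmul, R09_clPt]

/-- The action of `Sym f` on the Jacobian. -/
noncomputable def symJ (σ : Sym f) : Jac ℓ f →+ Jac ℓ f :=
  jacMap ℓ ((σ : E ≃+* E) : E →+* E) σ.2

lemma symJ_cl (σ : Sym f) (D : Pt ℓ f →₀ ℤ) :
    symJ σ (cl D) = cl (D.mapDomain (Pt.sym σ)) := jacMap_cl _ _ D

end Pool.Agent.Lib.MP_89bcae_ag.Sup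

end
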