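import Mathlib
import Pool.Agent.Lib.MP_89bcae_ag.Mk.K003
import Pool.Agent.Lib.MP_89bcae_ag.Mk.K004

/-!
# The subring `E[x, y]` of the coordinate ring
-/

open Polynomial IsDedekindDomain

open scoped Classical

namespace Pool.Agent.Lib.MP_89bcae_ag.Wt

universe u

variable {N : ℕ} {E : Type u} [Field E] {f : E[X]} [hG : IsGood N f]

/-- The homomorphism from `E[x, y] / (y ^ N - f(x))` to the coordinate ring. -/
noncomputable def toN : Sup.Coord N f →+* NRing N f :=
  AdjoinRoot.lift ofPoly yy (by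
    rw [eval₂_sub, eval₂_pow, eval₂_X, eval₂_C, yy_pow, sub_self])

lemma toN_ofPoly (p : E[X]) : toN (Sup.ofPoly p : Sup.Coord N f) = ofPoly p := by
  unfold toN
  exact AdjoinRoot.lift_of _

lemma toN_yy : toN (Sup.yy : Sup.Coord N f) = yy := by
  unfold toN
  exact AdjoinRoot.lift_root _

lemma toN_expand (p : ℕ → E[X]) (s : Finset ℕ) :
    ((toN (∑ i ∈ s, Sup.ofPoly (p i) * Sup.yy ^ i : Sup.Coord N f) : NRing N f) :
      FunField N f) = ∑ i ∈ s, polyF (p i) * yF ^ i := by
  rw [map_sum]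
  have h1 : ∀ i ∈ s, toN (Sup.ofPoly (p i) * Sup.yy ^ i : Sup.Coord N f) =
      ofPoly (p i) * yy ^ i := by
    intro i _
    rw [map_mul, map_pow, toN_ofPoly, toN_yy]
  rw [Finset.sum_congr rfl h1]
  push_cast
  rfl

lemma toN_injective : Function.Injective (toN : Sup.Coord N f → NRing N f) := by
  rw [injective_iff_map_eq_zero]
  intro a ha
  obtain ⟨p, rfl⟩ := Sup.exists_expand hG.ne a
  have h1 := toN_expand (N := N) (f := f) p (Finset.range N)
  rw [ha] at h1
  have h2 := expand_unique p h1.symm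
  refine Finset.sum_eq_zero fun i hi => ?_
  rw [h2 i (Finset.mem_range.1 hi), map_zero, zero_mul]

instance isDomain_coord : IsDomain (Sup.Coord N f) := toN_injective.isDomain (toN : Sup.Coord N f →+* NRing N f)

lemma toN_rotC (ζ : E) (hζ : ζ ^ N = 1) (a : Sup.Coord N f) :
    toN (Sup.rotC ζ hζ a) = rotC ζ hζ (toN a) := by
  have h : (toN : Sup.Coord N f →+* NRing N f).comp (Sup.rotC ζ hζ) = (rotC ζ hζ).comp toN := by
    refine AdjoinRoot.ringHom_ext (RingHom.ext fun p => ?_) ?_
    · show toN (Sup.rotC ζ hζ (Sup.ofPoly p)) = rotC ζ hζ (toN (Sup.ofPoly p))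
      rw [Sup.rotC_ofPoly, toN_ofPoly, rotC_ofPoly]
    · show toN (Sup.rotC ζ hζ Sup.yy) = rotC ζ hζ (toN Sup.yy)
      rw [Sup.rotC_yy, map_mul, toN_ofPoly, toN_yy, rotC_yy]
  exact RingHom.congr_fun h a

lemma toN_rotC_iter (ζ : E) (hζ : ζ ^ N = 1) (n : ℕ) (a : Sup.Coord N f) :
    toN ((Sup.rotC ζ hζ)^[n] a) = (rotC ζ hζ)^[n] (toN a) := by
  induction n with
  | zero => rfl
  | succ n ih => rw [Function.iterate_succ_apply', Function.iterate_succ_apply', toN_rotC, ih]

/-- Uniqueness of the expansion. -/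
lemma expand_unique_ring (p : ℕ → E[X])
    (h : ∑ i ∈ Finset.range N, (ofPoly (p i) : NRing N f) * yy ^ i = 0) :
    ∀ i < N, p i = 0 := by
  apply expand_unique (N := N) (f := f) p
  have h1 := congrArg (fun b : NRing N f => (b : FunField N f)) h
  simp only [AddSubmonoidClass.coe_finsetSum] at h1
  exact h1

/-- Every function is a quotient of polynomials in `x`, `y`. -/
lemma exists_quot (h : FunField N f) : ∃ (a b : NRing N f) (p q : ℕ → E[X]), b ≠ 0 ∧
    a = ∑ i ∈ Finset.range N, ofPoly (p i) * yy ^ i ∧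
    b = ∑ i ∈ Finset.range N, ofPoly (q i) * yy ^ i ∧
    algebraMap (NRing N f) (FunField N f) a / algebraMap (NRing N f) (FunField N f) b = h := by
  obtain ⟨p, q, hq, e⟩ := exists_den h
  have hq' : (ofPoly q : NRing N f) ≠ 0 := fun h =>
    hq (ofPoly_injective (N := N) (f := f) (h.trans (map_zero _).symm))
  refine ⟨_, ofPoly q, p, fun i => if i = 0 then q else 0, hq', rfl, ?_, ?_⟩
  · rw [Finset.sum_eq_single 0]
    · simp
    · intro i _ hi
      show ofPoly (if i = 0 then q else 0) * yy ^ i = 0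
      rw [if_neg hi, map_zero, zero_mul]
    · intro h
      exact absurd (Finset.mem_range.mpr hG.pos) h
  · have h1 : algebraMap (NRing N f) (FunField N f) (∑ i ∈ Finset.range N, ofPoly (p i) * yy ^ i) =
        ∑ i ∈ Finset.range N, polyF (p i) * yF ^ i := by
      rw [map_sum]
      rfl
    have h2 : algebraMap (NRing N f) (FunField N f) (ofPoly q) = polyF q := rfl
    rw [h1, h2, ← e, mul_comm, mul_div_assoc, div_self (polyF_ne_zero hq), mul_one]

/-- Every function is the quotient of a polynomial in `x`, `y` by a polynomial in `x`. -/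
lemma exists_toN (a : FunField N f) : ∃ (b : Sup.Coord N f) (q : E[X]), q ≠ 0 ∧
    polyF q * a = ((toN b : NRing N f) : FunField N f) := by
  obtain ⟨p, q, hq, h⟩ := exists_den a
  exact ⟨∑ i ∈ Finset.range N, Sup.ofPoly (p i) * Sup.yy ^ i, q, hq, by rw [toN_expand, h]⟩

end Pool.Agent.Lib.MP_89bcae_ag.Wt
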