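import Mathlib
import Pool.Agent.Lib.MP_89bcae_ag.Mk.K003

section

/-!
# Orders at a discrete valuation of a subfield
-/

open Polynomial WithZero

open scoped Classical

namespace Pool.Agent.Lib.MP_89bcae_ag

section Order

variable {k F : Type*} [Field k] [Field F] [Algebra k F] {K : IntermediateField k F}
  (w : Valuation K ℤᵐ⁰)

/-- Minus the additive order at `w` of the element `x` of `F`, for `x` in `K`. -/
noncomputable def ordF7 (x : F) : ℤ := if h : x ∈ K then WithZero.log (w ⟨x, h⟩) else 0

theorem ordF7_of_mem {x : F} (h : x ∈ K) : ordF7 w x = WithZero.log (w ⟨x, h⟩) := dif_pos h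

theorem ordF7_mul {x y : F} (hx : x ∈ K) (hy : y ∈ K) (hx0 : x ≠ 0) (hy0 : y ≠ 0) :
    ordF7 w (x * y) = ordF7 w x + ordF7 w y := by
  rw [ordF7_of_mem w hx, ordF7_of_mem w hy, ordF7_of_mem w (K.mul_mem hx hy)]
  have h1 : w ⟨x, hx⟩ ≠ 0 := (Valuation.ne_zero_iff w).2 fun h => hx0 (congrArg Subtype.val h)
  have h2 : w ⟨y, hy⟩ ≠ 0 := (Valuation.ne_zero_iff w).2 fun h => hy0 (congrArg Subtype.val h)
  rw [← WithZero.log_mul h1 h2, ← map_mul]
  rfl

theorem ordF7_one : ordF7 w (1 : F) = 0 := by
  rw [ordF7_of_mem w K.one_mem]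
  have : (⟨1, K.one_mem⟩ : K) = 1 := rfl
  rw [this, map_one, WithZero.log_one]

theorem ordF7_neg (x : F) : ordF7 w (-x) = ordF7 w x := by
  by_cases hx : x ∈ K
  · rw [ordF7_of_mem w hx, ordF7_of_mem w (K.neg_mem hx)]
    have : (⟨-x, K.neg_mem hx⟩ : K) = -⟨x, hx⟩ := rfl
    rw [this, Valuation.map_neg]
  · rw [ordF7, ordF7, dif_neg hx, dif_neg fun h => hx (by simpa using K.neg_mem h)]

theorem ordF7_sub_comm (x y : F) : ordF7 w (x - y) = ordF7 w (y - x) := by
  rw [← ordF7_neg w (x - y), neg_sub]

theorem ordF7_prod {ι : Type*} (s : Finset ι) (f : ι → F) (hf : ∀ i ∈ s, f i ∈ K)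
    (hf0 : ∀ i ∈ s, f i ≠ 0) : ordF7 w (∏ i ∈ s, f i) = ∑ i ∈ s, ordF7 w (f i) := by
  induction s using Finset.induction_on with
  | empty => simp [ordF7_one]
  | insert i s hi ih =>
    rw [Finset.prod_insert hi, Finset.sum_insert hi,
      ordF7_mul w (hf i (Finset.mem_insert_self i s))
        (K.prod_mem fun j hj => hf j (Finset.mem_insert_of_mem hj))
        (hf0 i (Finset.mem_insert_self i s))
        (Finset.prod_ne_zero_iff.2 fun j hj => hf0 j (Finset.mem_insert_of_mem hj)),
      ih (fun j hj => hf j (Finset.mem_insert_of_mem hj))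
        (fun j hj => hf0 j (Finset.mem_insert_of_mem hj))]

end Order

/-- If non-positive integers have sum `-1`, one of them is `-1` and the others vanish. -/
theorem exists_of_sum_eq_neg_one7 {ι : Type*} (s : Finset ι) (f : ι → ℤ) (hf : ∀ i ∈ s, f i ≤ 0)
    (h : ∑ i ∈ s, f i = -1) : ∃ i ∈ s, f i = -1 ∧ ∀ j ∈ s, j ≠ i → f j = 0 := by
  have h1 : ∃ i ∈ s, f i < 0 := by
    by_contra! hcon
    have : 0 ≤ ∑ i ∈ s, f i := Finset.sum_nonneg hcon
    omega
  obtain ⟨i, hi, hi0⟩ := h1
  have h2 : ∀ j ∈ s.erase i, f j ≤ 0 := fun j hj => hf j (Finset.mem_of_mem_erase hj)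
  have h3 := Finset.add_sum_erase s f hi
  have h4 := Finset.sum_nonpos h2
  refine ⟨i, hi, by omega, fun j hj hji => ?_⟩
  exact (Finset.sum_eq_zero_iff_of_nonpos h2).1 (by omega) j (Finset.mem_erase.2 ⟨hji, hj⟩)

end Pool.Agent.Lib.MP_89bcae_ag

end

section

namespace Pool.Agent.Lib.MP_89bcae_ag.Lr

variable {ι : Type} {ℓ : ℕ}

/-- Existence of an irreducible quadratic of the given shape. -/
theorem exists_irreducible [Fact ℓ.Prime] (h2 : ℓ ≠ 2) {W e : ZMod ℓ} (hW : W ≠ 0) (he : e ≠ 0)
    (hWe : W + 2 * e ≠ 0) :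
    ∃ X Y : ZMod ℓ, ∀ Z : ZMod ℓ, Z ^ 2 - (W + e) * (X + Y) * Z + W * (W + 2 * e) * X * Y ≠ 0 := by
  have hch : ringChar (ZMod ℓ) ≠ 2 := by
    rw [ZMod.ringChar_zmod_n]; exact h2
  obtain ⟨r, hr⟩ := FiniteField.exists_nonsquare (F := ZMod ℓ) hch
  have h20 : (2 : ZMod ℓ) ≠ 0 := Ring.two_ne_zero hch
  have hD : W * (W + 2 * e) ≠ 0 := mul_ne_zero hW hWe
  have key : ∃ p m : ZMod ℓ, ¬ IsSquare (e ^ 2 * p ^ 2 + W * (W + 2 * e) * m ^ 2) := by
    by_cases hs : IsSquare (W * (W + 2 * e))
    · obtain ⟨d, hd⟩ := hs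
      have hd0 : d ≠ 0 := by
        rintro rfl
        exact hD (by rw [hd]; ring)
      obtain ⟨a, b, hab⟩ := ZMod.sq_add_sq ℓ r
      refine ⟨a / e, b / d, ?_⟩
      have : e ^ 2 * (a / e) ^ 2 + W * (W + 2 * e) * (b / d) ^ 2 = r := by
        rw [hd, ← hab]
        field_simp
      rw [this]; exact hr
    · refine ⟨0, 1, ?_⟩
      have : e ^ 2 * 0 ^ 2 + W * (W + 2 * e) * 1 ^ 2 = W * (W + 2 * e) := by ring
      rw [this]; exact hs
  obtain ⟨p, m, hpm⟩ := key
  refine ⟨(p + m) / 2, (p - m) / 2, fun Z hZ => hpm ⟨2 * Z - (W + e) * p, ?_⟩⟩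
  have h1 : (p + m) / 2 + (p - m) / 2 = p := by field_simp; ring
  have h3 : (4 : ZMod ℓ) * ((p + m) / 2 * ((p - m) / 2)) = p ^ 2 - m ^ 2 := by
    field_simp; ring
  rw [h1] at hZ
  linear_combination (-4) * hZ + (W * (W + 2 * e)) * h3

end Pool.Agent.Lib.MP_89bcae_ag.Lr

end

section

/-!
ROW R03 (60-120 lines). Finiteness of the support of the divisor of a function; orders.

PROOF. `HeightOneSpectrum.Support` finiteness: for `h = a / b` with `a, b` in the coordinate ring
the valuation of `h` at `v` is different from `1` only if `v` divides `(a)` or `(b)`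
(`Ideal.finite_factors`, `HeightOneSpectrum.valuation_lt_one_iff_dvd`,
`HeightOneSpectrum.Support.finite`), and `P ↦ P.hs` is injective.
-/

open Polynomial IsDedekindDomain

open scoped Classical

namespace Pool.Agent.Lib.MP_89bcae_ag.Wt

universe u

variable {N : ℕ} {E : Type u} [Field E] {f : E[X]} [hG : IsGood N f]

/-- The point as a prime of the coordinate ring. -/
noncomputable def Pt.hs (P : Pt N f) : HeightOneSpectrum (NRing N f) where
  asIdeal := P.ideal
  isPrime := P.ideal_isMaximal.isPrime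
  ne_bot := P.ideal_ne_bot

/-- The order of a nonzero function at a point. -/
noncomputable def ord (P : Pt N f) (h : (FunField N f)ˣ) : ℤ :=
  -(WithZero.log (P.hs.valuation (FunField N f) (h : FunField N f)))

lemma R03_hs_injective : Function.Injective (Pt.hs : Pt N f → HeightOneSpectrum (NRing N f)) := by
  intro P Q h
  apply Pt.ideal_injective
  exact congrArg HeightOneSpectrum.asIdeal h

lemma R03_val_finite (h : (FunField N f)ˣ) :
    {v : HeightOneSpectrum (NRing N f) | v.valuation (FunField N f) (h : FunField N f) ≠ 1}.Finite := by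
  have h1 := HeightOneSpectrum.Support.finite (NRing N f) (h : FunField N f)
  have h2 := HeightOneSpectrum.Support.finite (NRing N f) (((h⁻¹ : (FunField N f)ˣ)) : FunField N f)
  refine (h1.union h2).subset ?_
  intro v hv
  rcases lt_or_gt_of_ne (show v.valuation (FunField N f) (h : FunField N f) ≠ 1 from hv) with h3 | h3
  · right
    show 1 < v.valuation (FunField N f) (((h⁻¹ : (FunField N f)ˣ)) : FunField N f)
    rw [Units.val_inv_eq_inv_val, map_inv₀]
    have h0 : v.valuation (FunField N f) (h : FunField N f) ≠ 0 :=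
      (Valuation.ne_zero_iff _).mpr h.ne_zero
    exact (one_lt_inv₀ (zero_lt_iff.mpr h0)).mpr h3
  · left
    exact h3

lemma ord_finite (h : (FunField N f)ˣ) : (Function.support fun P => ord P h).Finite := by
  have h1 := R03_val_finite h
  refine (h1.preimage (f := Pt.hs) (R03_hs_injective.injOn)).subset ?_
  intro P hP
  show P.hs.valuation (FunField N f) (h : FunField N f) ≠ 1
  intro h2
  apply hP
  show ord P h = 0
  unfold ord
  rw [h2, WithZero.log_one, neg_zero]

/-- The divisor of a nonzero function on the affine curve. -/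
noncomputable def div (h : (FunField N f)ˣ) : Pt N f →₀ ℤ :=
  Finsupp.ofSupportFinite (fun P => ord P h) (ord_finite h)

@[simp] lemma div_apply (h : (FunField N f)ˣ) (P : Pt N f) : div h P = ord P h := rfl

/-- The class of a point. -/
noncomputable def clPt (P : Pt N f) : Jac N f :=
  Additive.ofMul (ClassGroup.equivPic (NRing N f) (ClassGroup.mk0
    ⟨P.ideal, mem_nonZeroDivisors_of_ne_zero P.ideal_ne_bot⟩))

/-- The class of a divisor. -/
noncomputable def cl : (Pt N f →₀ ℤ) →+ Jac N f :=
  Finsupp.liftAddHom fun P => zmultiplesHom _ (clPt P)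

end Pool.Agent.Lib.MP_89bcae_ag.Wt

end

section

/-!
ROW R04 (100-200 lines). Elementary properties of `ord P`, residues.

PROOF. `ord P` is minus the logarithm of the valuation `P.hs.valuation`: multiplicativity and the
ultrametric inequality are those of the valuation (`Valuation.map_mul`, `Valuation.map_add`).
For `a` in the coordinate ring: `HeightOneSpectrum.valuation_of_algebraMap`,
`intValuation_le_one`, `intValuation_lt_one_iff_mem` (or `_dvd`), and `a ∈ P.ideal` means
`evalPt P a = 0`. Residues: if `ord P h ≥ 0`, i.e. valuation at most one, then `h = a / b` with `a`,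
`b` in the coordinate ring and `b ∉ P.ideal` (`HeightOneSpectrum` : the valuation ring is the
localization at the prime; Mathlib: `IsDedekindDomain.HeightOneSpectrum.exists_..._valuation_le_one`
or: write `h = a / b` arbitrary, choose `c` in the coordinate ring with
`ord P (b c) = ...`; one may also use `IsLocalization.AtPrime` and `mem_integers_of_valuation_le_one`
for the localization). Take for `c` the quotient `evalPt P a / evalPt P b`; then
`h - c = (a - c b) / b` with `a - c b ∈ P.ideal`. Uniqueness: `ord P` of a nonzero constant is `0`.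
-/

open Polynomial IsDedekindDomain

open scoped Classical

namespace Pool.Agent.Lib.MP_89bcae_ag.Wt

universe u

variable {N : ℕ} {E : Type u} [Field E] {f : E[X]} [hG : IsGood N f]

private lemma R04_val_ne_zero (P : Pt N f) (h : (FunField N f)ˣ) :
    P.hs.valuation (FunField N f) (h : FunField N f) ≠ 0 :=
  (Valuation.ne_zero_iff _).mpr h.ne_zero

private lemma R04_ord_nonneg_iff (P : Pt N f) (h : (FunField N f)ˣ) :
    0 ≤ ord P h ↔ P.hs.valuation (FunField N f) (h : FunField N f) ≤ 1 := by
  have h1 := WithZero.log_le_iff_le_exp (a := (0 : ℤ)) (R04_val_ne_zero P h)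
  rw [WithZero.exp_zero] at h1
  rw [← h1]
  unfold ord
  omega

private lemma R04_ord_pos_iff (P : Pt N f) (h : (FunField N f)ˣ) :
    0 < ord P h ↔ P.hs.valuation (FunField N f) (h : FunField N f) < 1 := by
  have h1 := WithZero.log_lt_iff_lt_exp (a := (0 : ℤ)) (R04_val_ne_zero P h)
  rw [WithZero.exp_zero] at h1
  rw [← h1]
  unfold ord
  omega

lemma ord_mul (P : Pt N f) (h h' : (FunField N f)ˣ) : ord P (h * h') = ord P h + ord P h' := by
  unfold ord
  rw [Units.val_mul, map_mul, WithZero.log_mul (R04_val_ne_zero P h) (R04_val_ne_zero P h')]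
  ring

lemma ord_one (P : Pt N f) : ord P 1 = 0 := by
  unfold ord
  rw [Units.val_one, map_one, WithZero.log_one, neg_zero]

lemma ord_inv (P : Pt N f) (h : (FunField N f)ˣ) : ord P h⁻¹ = -ord P h := by
  have h1 := ord_mul P h h⁻¹
  rw [mul_inv_cancel, ord_one] at h1
  omega

lemma ord_pow (P : Pt N f) (h : (FunField N f)ˣ) (n : ℕ) : ord P (h ^ n) = n * ord P h := by
  induction n with
  | zero => rw [pow_zero, ord_one, Nat.cast_zero, zero_mul]
  | succ n ih =>
    rw [pow_succ, ord_mul, ih]
    push_cast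
    ring

lemma ord_zpow (P : Pt N f) (h : (FunField N f)ˣ) (n : ℤ) : ord P (h ^ n) = n * ord P h := by
  rcases Int.eq_nat_or_neg n with ⟨m, rfl | rfl⟩
  · rw [zpow_natCast, ord_pow]
  · rw [zpow_neg, zpow_natCast, ord_inv, ord_pow]
    ring

lemma ord_add (P : Pt N f) (u v w : (FunField N f)ˣ) (h : (w : FunField N f) = u + v) :
    min (ord P u) (ord P v) ≤ ord P w := by
  have h1 : P.hs.valuation (FunField N f) (w : FunField N f) ≤
      max (P.hs.valuation (FunField N f) (u : FunField N f)) (P.hs.valuation (FunField N f) (v : FunField N f)) := by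
    rw [h]
    exact Valuation.map_add _ _ _
  rcases le_max_iff.mp h1 with h2 | h2
  · refine (min_le_left _ _).trans ?_
    have h3 := (WithZero.log_le_log (R04_val_ne_zero P w) (R04_val_ne_zero P u)).mpr h2
    unfold ord
    omega
  · refine (min_le_right _ _).trans ?_
    have h3 := (WithZero.log_le_log (R04_val_ne_zero P w) (R04_val_ne_zero P v)).mpr h2
    unfold ord
    omega

lemma ord_nonneg (P : Pt N f) (a : NRing N f) (u : (FunField N f)ˣ)
    (hu : (u : FunField N f) = algebraMap (NRing N f) (FunField N f) a) : 0 ≤ ord P u := by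
  rw [R04_ord_nonneg_iff, hu]
  exact HeightOneSpectrum.valuation_le_one _ _

lemma ord_pos_iff (P : Pt N f) (a : NRing N f) (u : (FunField N f)ˣ)
    (hu : (u : FunField N f) = algebraMap (NRing N f) (FunField N f) a) : 0 < ord P u ↔ evalPt P a = 0 := by
  rw [R04_ord_pos_iff, hu]
  exact HeightOneSpectrum.valuation_lt_one_iff_mem _ _

/-- The constant function. -/
noncomputable def cst : E →+* FunField N f :=
  (algebraMap (NRing N f) (FunField N f)).comp (ofPoly.comp C)

/-- A nonzero constant, as a unit. -/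
noncomputable def cstU : Eˣ →* (FunField N f)ˣ := Units.map (cst : E →+* FunField N f)

lemma ord_cstU (P : Pt N f) (c : Eˣ) : ord P (cstU c) = 0 := by
  have h1 : 0 ≤ ord P (cstU c) := ord_nonneg P (ofPoly (C (c : E))) (cstU c) rfl
  have h2 : 0 ≤ ord P (cstU c⁻¹) := ord_nonneg P (ofPoly (C ((c⁻¹ : Eˣ) : E))) (cstU c⁻¹) rfl
  rw [map_inv, ord_inv] at h2
  omega

/-- The residue of a function which is regular at `P`. -/
lemma exists_residue_pt (P : Pt N f) (u : (FunField N f)ˣ) (hu : 0 ≤ ord P u) :
    ∃ c : E, ∀ w : (FunField N f)ˣ, (w : FunField N f) = (u : FunField N f) - (cst c : FunField N f) → 0 < ord P w := by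
  rw [R04_ord_nonneg_iff] at hu
  obtain ⟨a, ha⟩ := HeightOneSpectrum.exists_valuation_sub_lt_of_integer P.hs hu 1
  refine ⟨evalPt P a, fun w hw => ?_⟩
  rw [R04_ord_pos_iff]
  have h2 : P.hs.valuation (FunField N f)
      (algebraMap (NRing N f) (FunField N f) (a - ofPoly (C (evalPt P a)))) < 1 := by
    refine (HeightOneSpectrum.valuation_lt_one_iff_mem _ _).mpr ?_
    change evalPt P (a - ofPoly (C (evalPt P a))) = 0
    rw [map_sub, evalPt_ofPoly, eval_C, sub_self]
  have h3 : (w : FunField N f) = -(algebraMap (NRing N f) (FunField N f) a - (u : FunField N f)) +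
      algebraMap (NRing N f) (FunField N f) (a - ofPoly (C (evalPt P a))) := by
    rw [hw, map_sub]
    change (u : FunField N f) - algebraMap (NRing N f) (FunField N f) (ofPoly (C (evalPt P a))) = _
    ring
  rw [h3]
  refine lt_of_le_of_lt (Valuation.map_add _ _ _) (max_lt ?_ h2)
  rw [Valuation.map_neg]
  exact ha

lemma div_mul (h h' : (FunField N f)ˣ) : div (h * h') = div h + div h' := by
  ext P
  simp [ord_mul]

lemma div_one : div (1 : (FunField N f)ˣ) = 0 := by
  ext P
  simp [ord_one]

lemma div_inv (h : (FunField N f)ˣ) : div h⁻¹ = -div h := by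
  ext P
  simp [ord_inv]

lemma div_cstU (c : Eˣ) : div (cstU c : (FunField N f)ˣ) = 0 := by
  ext P
  simp [ord_cstU]

end Pool.Agent.Lib.MP_89bcae_ag.Wt

end

section

/-!
ROW R06 (100-200 lines). Automorphisms of the coordinate ring acting on functions and orders.

PROOF. A ring automorphism `φ` of the domain `NRing N f` extends to `FunField N f`
(`IsFractionRing.ringEquivOfRingEquiv` or `IsFractionRing.map`). If `φ⁻¹(Q.ideal) = P.ideal`, i.e.
`Q.ideal = P.ideal.map φ`, then `φ` carries the valuation of `P` to that of `Q`: the exponent of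
`Q.ideal` in `(φ a) = φ((a))` is the exponent of `P.ideal` in `(a)`; e.g. because
`a ∈ P.ideal ^ n ↔ φ a ∈ Q.ideal ^ n` (`intValuation_le_pow_iff_mem`). Then pass to fractions.
-/

open Polynomial IsDedekindDomain

open scoped Classical

namespace Pool.Agent.Lib.MP_89bcae_ag.Wt

universe u

variable {N : ℕ} {E : Type u} [Field E] {f : E[X]} [hG : IsGood N f]

/-- The automorphism of the function field induced by one of the coordinate ring. -/
noncomputable def autF (φ : NRing N f ≃+* NRing N f) : FunField N f ≃+* FunField N f :=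
  IsFractionRing.ringEquivOfRingEquiv φ

lemma autF_algebraMap (φ : NRing N f ≃+* NRing N f) (a : NRing N f) :
    autF φ (algebraMap (NRing N f) (FunField N f) a) = algebraMap (NRing N f) (FunField N f) (φ a) := by
  unfold autF
  exact IsFractionRing.ringEquivOfRingEquiv_algebraMap φ a

/-- The action on nonzero functions. -/
noncomputable def autU (φ : NRing N f ≃+* NRing N f) : (FunField N f)ˣ ≃* (FunField N f)ˣ :=
  Units.mapEquiv (autF φ : FunField N f ≃* FunField N f)

private lemma R06_ideal (φ : NRing N f ≃+* NRing N f) (P Q : Pt N f)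
    (h : ∀ a, evalPt Q (φ a) = 0 ↔ evalPt P a = 0) :
    P.ideal.map (φ : NRing N f →+* NRing N f) = Q.ideal := by
  ext b
  rw [Ideal.mem_map_iff_of_surjective (φ : NRing N f →+* NRing N f) φ.surjective]
  constructor
  · rintro ⟨a, ha, rfl⟩
    have ha' : evalPt P a = 0 := ha
    have := (h a).2 ha'
    exact this
  · intro hb
    have hb' : evalPt Q b = 0 := hb
    refine ⟨φ.symm b, ?_, by simp⟩
    have h1 := h (φ.symm b)
    rw [φ.apply_symm_apply] at h1
    exact h1.1 hb'

private lemma R06_pow (φ : NRing N f ≃+* NRing N f) (P Q : Pt N f)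
    (h : ∀ a, evalPt Q (φ a) = 0 ↔ evalPt P a = 0) (n : ℕ) (a : NRing N f)
    (ha : a ∈ P.hs.asIdeal ^ n) : φ a ∈ Q.hs.asIdeal ^ n := by
  have h1 : P.hs.asIdeal = P.ideal := rfl
  have h2 : Q.hs.asIdeal = Q.ideal := rfl
  rw [h1] at ha
  rw [h2, ← R06_ideal φ P Q h, ← Ideal.map_pow]
  exact Ideal.mem_map_of_mem (φ : NRing N f →+* NRing N f) ha

private lemma R06_le (φ : NRing N f ≃+* NRing N f) (P Q : Pt N f)
    (h : ∀ a, evalPt Q (φ a) = 0 ↔ evalPt P a = 0) (a : NRing N f) :
    Q.hs.intValuation (φ a) ≤ P.hs.intValuation a := by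
  by_cases ha : a = 0
  · subst ha
    simp
  · have h1 := P.hs.intValuation_if_neg ha
    rw [h1]
    rw [HeightOneSpectrum.intValuation_le_pow_iff_mem]
    apply R06_pow φ P Q h
    rw [← HeightOneSpectrum.intValuation_le_pow_iff_mem, h1]

private lemma R06_int (φ : NRing N f ≃+* NRing N f) (P Q : Pt N f)
    (h : ∀ a, evalPt Q (φ a) = 0 ↔ evalPt P a = 0) (a : NRing N f) :
    Q.hs.intValuation (φ a) = P.hs.intValuation a := by
  refine le_antisymm (R06_le φ P Q h a) ?_
  have h2 : ∀ b, evalPt P (φ.symm b) = 0 ↔ evalPt Q b = 0 := by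
    intro b
    have h1 := h (φ.symm b)
    rw [φ.apply_symm_apply] at h1
    exact h1.symm
  have h3 := R06_le φ.symm Q P h2 (φ a)
  rwa [φ.symm_apply_apply] at h3

lemma ord_autU (φ : NRing N f ≃+* NRing N f) (P Q : Pt N f)
    (h : ∀ a, evalPt Q (φ a) = 0 ↔ evalPt P a = 0) (u : (FunField N f)ˣ) :
    ord Q (autU φ u) = ord P u := by
  have key : Q.hs.valuation (FunField N f) ((autU φ u : (FunField N f)ˣ) : FunField N f)
      = P.hs.valuation (FunField N f) (u : FunField N f) := by
    have h0 : ((autU φ u : (FunField N f)ˣ) : FunField N f) = autF φ (u : FunField N f) := rfl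
    rw [h0]
    obtain ⟨a, b, hb, hab⟩ := IsFractionRing.div_surjective (A := NRing N f) (u : FunField N f)
    rw [← hab, map_div₀, autF_algebraMap, autF_algebraMap, map_div₀, map_div₀]
    rw [HeightOneSpectrum.valuation_of_algebraMap, HeightOneSpectrum.valuation_of_algebraMap,
      HeightOneSpectrum.valuation_of_algebraMap, HeightOneSpectrum.valuation_of_algebraMap,
      R06_int φ P Q h, R06_int φ P Q h]
  unfold ord
  rw [key]

end Pool.Agent.Lib.MP_89bcae_ag.Wt

end
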