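import Mathlib

section

open Filter Topology

namespace Pool.Agent.Lib.MP_89bcae_ag.Re

/-- Elementary: `x ↦ log (1 + x) - x + x ^ 2` is nonnegative for `x ≥ 0` (for instance from
`Real.add_one_le_exp` applied to `-x/(1+x)`, or by cases `x ≤ 1`: `1 + x ≥ exp (x - x ^ 2)`). -/
theorem exp_le_one_add_mul_exp_sq {x : ℝ} (hx : 0 ≤ x) :
    Real.exp x ≤ (1 + x) * Real.exp (x ^ 2) := by
  have h1 : x ^ 2 - x + 1 ≤ Real.exp (x ^ 2 - x) := Real.add_one_le_exp _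
  have h2 : 1 ≤ (1 + x) * Real.exp (x ^ 2 - x) := by
    have h3 : (1 + x) * (x ^ 2 - x + 1) = 1 + x ^ 3 := by ring
    have h4 : (1 + x) * (x ^ 2 - x + 1) ≤ (1 + x) * Real.exp (x ^ 2 - x) :=
      mul_le_mul_of_nonneg_left h1 (by linarith)
    have h5 : 0 ≤ x ^ 3 := pow_nonneg hx 3
    linarith
  calc Real.exp x = 1 * Real.exp x := (one_mul _).symm
    _ ≤ ((1 + x) * Real.exp (x ^ 2 - x)) * Real.exp x := mul_le_mul_of_nonneg_right h2 (Real.exp_pos _).le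
    _ = (1 + x) * Real.exp (x ^ 2) := by
      rw [mul_assoc, ← Real.exp_add, sub_add_cancel]

private lemma n05a_pow {q : ℕ} (hq : 2 ≤ q) {s : ℝ} (hs : 1 < s) (e : ℕ) :
    ((q ^ e : ℕ) : ℝ) ^ (-s) ≤ (1 / 2) ^ e := by
  have hq1 : 1 ≤ q ^ e := Nat.one_le_pow _ _ (by omega)
  have hq1' : (1 : ℝ) ≤ ((q ^ e : ℕ) : ℝ) := by exact_mod_cast hq1
  have h1 : ((q ^ e : ℕ) : ℝ) ^ (-s) ≤ ((q ^ e : ℕ) : ℝ) ^ (-1 : ℝ) :=
    Real.rpow_le_rpow_of_exponent_le hq1' (by linarith)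
  have h2 : ((q ^ e : ℕ) : ℝ) ^ (-1 : ℝ) = (((q ^ e : ℕ) : ℝ))⁻¹ := Real.rpow_neg_one _
  have h3 : (((q ^ e : ℕ) : ℝ))⁻¹ ≤ (1 / 2) ^ e := by
    rw [one_div, inv_pow]
    apply inv_anti₀ (by positivity)
    push_cast
    exact pow_le_pow_left₀ (by norm_num) (by exact_mod_cast hq) e
  rw [h2] at h1
  exact h1.trans h3

private lemma n05a_sum (d : ℕ) : Summable fun e : ℕ => ((e : ℝ) + 1) ^ d * (1 / 2) ^ e := by
  have h1 : Summable fun n : ℕ => (n : ℝ) ^ d * (1 / 2 : ℝ) ^ n :=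
    summable_pow_mul_geometric_of_norm_lt_one d (by rw [Real.norm_eq_abs, abs_of_pos] <;> norm_num)
  have h2 := ((summable_nat_add_iff 1).2 h1).mul_left 2
  refine h2.congr fun e => ?_
  push_cast
  rw [pow_succ]
  ring

/-- The series of the Euler factor converges. Proof: `u e ≤ (e+1)^d`, `q ≥ 2`, compare with
`(e+1)^d * 2^(-e)` (`summable_pow_mul_geometric_of_norm_lt_one` or root test). -/
theorem summable_factor (d : ℕ) {u : ℕ → ℝ} (hu0 : ∀ e, 0 ≤ u e) (hu : ∀ e, u e ≤ ((e : ℝ) + 1) ^ d)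
    {q : ℕ} (hq : 2 ≤ q) {s : ℝ} (hs : 1 < s) :
    Summable fun e : ℕ => u e * ((q ^ e : ℕ) : ℝ) ^ (-s) := by
  refine Summable.of_nonneg_of_le (fun e => mul_nonneg (hu0 e) (Real.rpow_nonneg (Nat.cast_nonneg _) _))
    (fun e => ?_) (n05a_sum d)
  exact mul_le_mul (hu e) (n05a_pow hq hs e) (Real.rpow_nonneg (Nat.cast_nonneg _) _)
    (pow_nonneg (by positivity) _)

/-- The majorant of the tail of the Euler factor is summable. -/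
theorem n05b_summable (d : ℕ) : Summable fun e : ℕ => ((e : ℝ) + 3) ^ d * (1 / 2 : ℝ) ^ e := by
  have h1 : Summable fun n : ℕ => (n : ℝ) ^ d * (1 / 2 : ℝ) ^ n :=
    summable_pow_mul_geometric_of_norm_lt_one d (by rw [Real.norm_eq_abs, abs_of_pos] <;> norm_num)
  have h2 := ((summable_nat_add_iff 3).2 h1).mul_left 8
  refine h2.congr fun e => ?_
  push_cast
  rw [pow_add]
  ring

/-- One term of the tail. -/
theorem n05b_term {d : ℕ} {u : ℕ → ℝ} (hu : ∀ e, u e ≤ ((e : ℝ) + 1) ^ d) {q : ℕ} (hq : 2 ≤ q)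
    {s : ℝ} (hs : 1 < s) (e : ℕ) :
    u (e + 2) * ((q ^ (e + 2) : ℕ) : ℝ) ^ (-s) ≤
      1 / (q : ℝ) ^ 2 * (((e : ℝ) + 3) ^ d * (1 / 2 : ℝ) ^ e) := by
  have hq0 : (2 : ℝ) ≤ q := by exact_mod_cast hq
  have hqpos : (0 : ℝ) < q := by linarith
  have h1 : (1 : ℝ) ≤ ((q ^ (e + 2) : ℕ) : ℝ) := by
    exact_mod_cast Nat.one_le_pow _ _ (by omega : 0 < q)
  have h2 : ((q ^ (e + 2) : ℕ) : ℝ) ^ (-s) ≤ 1 / (q : ℝ) ^ 2 * (1 / 2 : ℝ) ^ e := by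
    have h3 : ((q ^ (e + 2) : ℕ) : ℝ) ^ (-s) ≤ ((q ^ (e + 2) : ℕ) : ℝ) ^ (-1 : ℝ) :=
      Real.rpow_le_rpow_of_exponent_le h1 (by linarith)
    refine h3.trans ?_
    rw [Real.rpow_neg_one, Nat.cast_pow, pow_add, mul_inv, one_div, one_div, inv_pow, mul_comm]
    refine mul_le_mul_of_nonneg_left ?_ (by positivity)
    exact inv_anti₀ (by positivity) (pow_le_pow_left₀ (by norm_num) hq0 e)
  have h4 : u (e + 2) ≤ ((e : ℝ) + 3) ^ d := by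
    have h5 := hu (e + 2)
    push_cast at h5
    have h6 : (e : ℝ) + 2 + 1 = (e : ℝ) + 3 := by ring
    rwa [h6] at h5
  calc u (e + 2) * ((q ^ (e + 2) : ℕ) : ℝ) ^ (-s)
      ≤ ((e : ℝ) + 3) ^ d * ((q ^ (e + 2) : ℕ) : ℝ) ^ (-s) :=
        mul_le_mul_of_nonneg_right h4 (Real.rpow_nonneg (by linarith) _)
    _ ≤ ((e : ℝ) + 3) ^ d * (1 / (q : ℝ) ^ 2 * (1 / 2 : ℝ) ^ e) :=
        mul_le_mul_of_nonneg_left h2 (by positivity)
    _ = 1 / (q : ℝ) ^ 2 * (((e : ℝ) + 3) ^ d * (1 / 2 : ℝ) ^ e) := by ring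

/-- One Euler factor. `u e` stands for `a(q ^ e)`. Proof: the factor is `1 + u 1 * q ^ (-s) + R` with
`0 ≤ R = ∑_{e ≥ 2} ≤ ∑_{e ≥ 2} (e+1)^d q^(-e)` (since `s > 1`) `≤ C₁ / q ^ 2`,
`C₁ = ∑_{e ≥ 2} (e+1)^d 2^(2-e)`. -/
theorem factor_le (d : ℕ) : ∃ C : ℝ, 0 ≤ C ∧ ∀ (u : ℕ → ℝ), (∀ e, 0 ≤ u e) → u 0 = 1 →
    (∀ e, u e ≤ ((e : ℝ) + 1) ^ d) → ∀ (q : ℕ), 2 ≤ q → ∀ s : ℝ, 1 < s →
      ∑' e : ℕ, u e * ((q ^ e : ℕ) : ℝ) ^ (-s) ≤ 1 + u 1 * (q : ℝ) ^ (-s) + C / (q : ℝ) ^ 2 := by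
  refine ⟨∑' e : ℕ, ((e : ℝ) + 3) ^ d * (1 / 2 : ℝ) ^ e, tsum_nonneg fun e => by positivity, ?_⟩
  intro u hu0 hu1 hu q hq s hs
  have hsum := summable_factor d hu0 hu hq hs
  rw [← hsum.sum_add_tsum_nat_add 2, Finset.sum_range_succ, Finset.sum_range_one, hu1, pow_zero,
    Nat.cast_one, Real.one_rpow, one_mul, pow_one]
  have h1 : ∑' e : ℕ, u (e + 2) * ((q ^ (e + 2) : ℕ) : ℝ) ^ (-s) ≤
      ∑' e : ℕ, 1 / (q : ℝ) ^ 2 * (((e : ℝ) + 3) ^ d * (1 / 2 : ℝ) ^ e) :=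
    ((summable_nat_add_iff 2).2 hsum).tsum_le_tsum (fun e => n05b_term hu hq hs e)
      ((n05b_summable d).mul_left _)
  rw [tsum_mul_left] at h1
  have h2 : 1 / (q : ℝ) ^ 2 * ∑' e : ℕ, ((e : ℝ) + 3) ^ d * (1 / 2 : ℝ) ^ e =
      (∑' e : ℕ, ((e : ℝ) + 3) ^ d * (1 / 2 : ℝ) ^ e) / (q : ℝ) ^ 2 := by ring
  linarith

end Pool.Agent.Lib.MP_89bcae_ag.Re

end

section

open Filter Topology

namespace Pool.Agent.Lib.MP_89bcae_ag.Re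

/-- Comparison of two Euler factors with `ℓ u(1) ≤ w(1)`. Proof: let `x = u 1 * q ^ (-s)`, so
`0 ≤ x ≤ 2 ^ d / q`. By `factor_le` the left side is at most
`(1 + x + C / q²) ^ ℓ ≤ exp (ℓ x + ℓ C / q²)` and by `exp_le_one_add_mul_exp_sq`
`exp (ℓ x) ≤ (1 + ℓ x) exp ((ℓ x)²)`, where `(ℓ x)² ≤ ℓ² 4 ^ d / q²`; finally
`1 + ℓ x ≤ 1 + w 1 * q ^ (-s) ≤ ∑' e, w e * (q ^ e) ^ (-s)` (`summable_factor`, nonnegative terms,
`Summable.sum_le_tsum` for `{0, 1}`). -/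
theorem factor_compare (d d' ℓ : ℕ) : ∃ C : ℝ, 0 ≤ C ∧ ∀ (u w : ℕ → ℝ), (∀ e, 0 ≤ u e) →
    (∀ e, 0 ≤ w e) → u 0 = 1 → w 0 = 1 → (∀ e, u e ≤ ((e : ℝ) + 1) ^ d) →
    (∀ e, w e ≤ ((e : ℝ) + 1) ^ d') → (ℓ : ℝ) * u 1 ≤ w 1 →
    ∀ (q : ℕ), 2 ≤ q → ∀ s : ℝ, 1 < s →
      (∑' e : ℕ, u e * ((q ^ e : ℕ) : ℝ) ^ (-s)) ^ ℓ ≤
        Real.exp (C / (q : ℝ) ^ 2) * ∑' e : ℕ, w e * ((q ^ e : ℕ) : ℝ) ^ (-s) := by
  obtain ⟨C0, hC0, hfac⟩ := factor_le d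
  refine ⟨(ℓ : ℝ) * C0 + (ℓ : ℝ) ^ 2 * 4 ^ d, by positivity, ?_⟩
  intro u w hu0 hw0 hu1 hw1 hud hwd hlw q hq s hs
  have hqR : (2 : ℝ) ≤ q := by exact_mod_cast hq
  have hqpos : (0 : ℝ) < q := by linarith
  have hps : (q : ℝ) ^ (-s) ≤ 1 / q := by
    rw [one_div, ← Real.rpow_neg_one]
    exact Real.rpow_le_rpow_of_exponent_le (by linarith) (by linarith)
  have hps0 : 0 ≤ (q : ℝ) ^ (-s) := (Real.rpow_pos_of_pos hqpos _).le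
  have hu1d : u 1 ≤ 2 ^ d := by
    have h := hud 1
    norm_num at h
    exact h
  have hx0 : 0 ≤ u 1 * (q : ℝ) ^ (-s) := mul_nonneg (hu0 1) hps0
  have hx1 : u 1 * (q : ℝ) ^ (-s) ≤ 2 ^ d / q := by
    calc u 1 * (q : ℝ) ^ (-s) ≤ 2 ^ d * (1 / q) :=
          mul_le_mul hu1d hps hps0 (by positivity)
      _ = 2 ^ d / q := by ring
  have hF := hfac u hu0 hu1 hud q hq s hs
  set x := u 1 * (q : ℝ) ^ (-s) with hx
  have hT0 : 0 ≤ ∑' e : ℕ, u e * ((q ^ e : ℕ) : ℝ) ^ (-s) :=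
    tsum_nonneg fun e => mul_nonneg (hu0 e) (Real.rpow_nonneg (Nat.cast_nonneg _) _)
  have hc0 : 0 ≤ C0 / (q : ℝ) ^ 2 := by positivity
  have h1 : (∑' e : ℕ, u e * ((q ^ e : ℕ) : ℝ) ^ (-s)) ^ ℓ ≤
      Real.exp ((ℓ : ℝ) * x) * Real.exp ((ℓ : ℝ) * (C0 / (q : ℝ) ^ 2)) := by
    calc (∑' e : ℕ, u e * ((q ^ e : ℕ) : ℝ) ^ (-s)) ^ ℓ ≤
          (Real.exp (x + C0 / (q : ℝ) ^ 2)) ^ ℓ := by
          refine pow_le_pow_left₀ hT0 (hF.trans ?_) ℓ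
          have := Real.add_one_le_exp (x + C0 / (q : ℝ) ^ 2)
          linarith
      _ = Real.exp ((ℓ : ℝ) * x) * Real.exp ((ℓ : ℝ) * (C0 / (q : ℝ) ^ 2)) := by
          rw [← Real.exp_nat_mul, ← Real.exp_add]
          congr 1
          ring
  have h2 : Real.exp ((ℓ : ℝ) * x) ≤ (1 + (ℓ : ℝ) * x) * Real.exp (((ℓ : ℝ) * x) ^ 2) :=
    exp_le_one_add_mul_exp_sq (by positivity)
  have h3 : ((ℓ : ℝ) * x) ^ 2 ≤ (ℓ : ℝ) ^ 2 * 4 ^ d / (q : ℝ) ^ 2 := by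
    calc ((ℓ : ℝ) * x) ^ 2 ≤ ((ℓ : ℝ) * (2 ^ d / q)) ^ 2 := by
          refine pow_le_pow_left₀ (by positivity) ?_ 2
          exact mul_le_mul_of_nonneg_left hx1 (Nat.cast_nonneg _)
      _ = (ℓ : ℝ) ^ 2 * 4 ^ d / (q : ℝ) ^ 2 := by
          rw [mul_pow, div_pow, ← pow_mul, mul_comm d 2, pow_mul]
          norm_num
          ring
  have h4 : 1 + (ℓ : ℝ) * x ≤ ∑' e : ℕ, w e * ((q ^ e : ℕ) : ℝ) ^ (-s) := by
    have hsum := summable_factor d' hw0 hwd hq hs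
    have h5 := hsum.sum_le_tsum {0, 1}
      (fun e _ => mul_nonneg (hw0 e) (Real.rpow_nonneg (Nat.cast_nonneg _) _))
    rw [Finset.sum_pair (by norm_num)] at h5
    simp only [pow_zero, pow_one, Nat.cast_one, Real.one_rpow, mul_one, hw1] at h5
    refine le_trans ?_ h5
    have h6 : (ℓ : ℝ) * x ≤ w 1 * (q : ℝ) ^ (-s) := by
      rw [hx, ← mul_assoc]
      exact mul_le_mul_of_nonneg_right hlw hps0
    linarith
  have hlx : 0 ≤ 1 + (ℓ : ℝ) * x := by positivity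
  calc (∑' e : ℕ, u e * ((q ^ e : ℕ) : ℝ) ^ (-s)) ^ ℓ ≤
        Real.exp ((ℓ : ℝ) * x) * Real.exp ((ℓ : ℝ) * (C0 / (q : ℝ) ^ 2)) := h1
    _ ≤ ((1 + (ℓ : ℝ) * x) * Real.exp ((ℓ : ℝ) ^ 2 * 4 ^ d / (q : ℝ) ^ 2)) *
        Real.exp ((ℓ : ℝ) * (C0 / (q : ℝ) ^ 2)) := by
        refine mul_le_mul_of_nonneg_right (h2.trans ?_) (Real.exp_pos _).le
        exact mul_le_mul_of_nonneg_left (Real.exp_le_exp.2 h3) hlx
    _ = Real.exp (((ℓ : ℝ) * C0 + (ℓ : ℝ) ^ 2 * 4 ^ d) / (q : ℝ) ^ 2) * (1 + (ℓ : ℝ) * x) := by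
        rw [mul_assoc, ← Real.exp_add, mul_comm]
        congr 2
        ring
    _ ≤ _ := mul_le_mul_of_nonneg_left h4 (Real.exp_pos _).le

private lemma n06b_pow {q : ℕ} (hq : 2 ≤ q) {s : ℝ} (hs : 1 < s) (e : ℕ) :
    ((q ^ e : ℕ) : ℝ) ^ (-s) ≤ (1 / 2) ^ e := by
  have hq1 : 1 ≤ q ^ e := Nat.one_le_pow _ _ (by omega)
  have hq1' : (1 : ℝ) ≤ ((q ^ e : ℕ) : ℝ) := by exact_mod_cast hq1
  have h1 : ((q ^ e : ℕ) : ℝ) ^ (-s) ≤ ((q ^ e : ℕ) : ℝ) ^ (-1 : ℝ) :=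
    Real.rpow_le_rpow_of_exponent_le hq1' (by linarith)
  have h2 : ((q ^ e : ℕ) : ℝ) ^ (-1 : ℝ) = (((q ^ e : ℕ) : ℝ))⁻¹ := Real.rpow_neg_one _
  have h3 : (((q ^ e : ℕ) : ℝ))⁻¹ ≤ (1 / 2) ^ e := by
    rw [one_div, inv_pow]
    apply inv_anti₀ (by positivity)
    push_cast
    exact pow_le_pow_left₀ (by norm_num) (by exact_mod_cast hq) e
  rw [h2] at h1
  exact h1.trans h3

private lemma n06b_sum (d : ℕ) : Summable fun e : ℕ => ((e : ℝ) + 1) ^ d * (1 / 2) ^ e := by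
  have h1 : Summable fun n : ℕ => (n : ℝ) ^ d * (1 / 2 : ℝ) ^ n :=
    summable_pow_mul_geometric_of_norm_lt_one d (by rw [Real.norm_eq_abs, abs_of_pos] <;> norm_num)
  have h2 := ((summable_nat_add_iff 1).2 h1).mul_left 2
  refine h2.congr fun e => ?_
  push_cast
  rw [pow_succ]
  ring

/-- The same without the condition on `u 1`, `w 1`, with a constant which does not depend on `q`.
Proof: the left side is at most `(∑' e, (e+1)^d 2^(-e)) ^ ℓ` (a constant), the series on the right is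
at least its term at `e = 0`, which is `1`. -/
theorem factor_compare_bad (d d' ℓ : ℕ) : ∃ C : ℝ, 1 ≤ C ∧ ∀ (u w : ℕ → ℝ), (∀ e, 0 ≤ u e) →
    (∀ e, 0 ≤ w e) → u 0 = 1 → w 0 = 1 → (∀ e, u e ≤ ((e : ℝ) + 1) ^ d) →
    (∀ e, w e ≤ ((e : ℝ) + 1) ^ d') →
    ∀ (q : ℕ), 2 ≤ q → ∀ s : ℝ, 1 < s →
      (∑' e : ℕ, u e * ((q ^ e : ℕ) : ℝ) ^ (-s)) ^ ℓ ≤
        C * ∑' e : ℕ, w e * ((q ^ e : ℕ) : ℝ) ^ (-s) := by
  refine ⟨max 1 ((∑' e : ℕ, ((e : ℝ) + 1) ^ d * (1 / 2) ^ e) ^ ℓ), le_max_left _ _, ?_⟩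
  intro u w hu0 hw0 _ hw1 hu hw q hq s hs
  have h0 : ∀ e : ℕ, 0 ≤ u e * ((q ^ e : ℕ) : ℝ) ^ (-s) := fun e =>
    mul_nonneg (hu0 e) (Real.rpow_nonneg (Nat.cast_nonneg _) _)
  have h1 : (∑' e : ℕ, u e * ((q ^ e : ℕ) : ℝ) ^ (-s)) ≤ ∑' e : ℕ, ((e : ℝ) + 1) ^ d * (1 / 2) ^ e := by
    refine Summable.tsum_le_tsum (fun e => ?_) (summable_factor d hu0 hu hq hs) (n06b_sum d)
    exact mul_le_mul (hu e) (n06b_pow hq hs e) (Real.rpow_nonneg (Nat.cast_nonneg _) _)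
      (pow_nonneg (by positivity) _)
  have h2 : (∑' e : ℕ, u e * ((q ^ e : ℕ) : ℝ) ^ (-s)) ^ ℓ ≤
      max 1 ((∑' e : ℕ, ((e : ℝ) + 1) ^ d * (1 / 2) ^ e) ^ ℓ) :=
    (pow_le_pow_left₀ (tsum_nonneg h0) h1 ℓ).trans (le_max_right _ _)
  have h3 : 1 ≤ ∑' e : ℕ, w e * ((q ^ e : ℕ) : ℝ) ^ (-s) := by
    have h4 := (summable_factor d' hw0 hw hq hs).sum_le_tsum {0}
      (fun e _ => mul_nonneg (hw0 e) (Real.rpow_nonneg (Nat.cast_nonneg _) _))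
    rw [Finset.sum_singleton, hw1, pow_zero, Nat.cast_one, Real.one_rpow, mul_one] at h4
    exact h4
  have h5 : (0 : ℝ) ≤ max 1 ((∑' e : ℕ, ((e : ℝ) + 1) ^ d * (1 / 2) ^ e) ^ ℓ) :=
    zero_le_one.trans (le_max_left _ _)
  exact h2.trans (le_mul_of_one_le_right h5 h3)

end Pool.Agent.Lib.MP_89bcae_ag.Re

end

section

open Filter Topology

namespace Pool.Agent.Lib.MP_89bcae_ag.Re

private lemma n07_eulerHasProd {a : ℕ → ℝ} (ha : ∀ n, 0 ≤ a n) (ha1 : a 1 = 1)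
    (ham : ∀ m n : ℕ, m.Coprime n → a (m * n) = a m * a n)
    {s : ℝ} (hs : 1 < s) (has : Summable fun n : ℕ => a n * (n : ℝ) ^ (-s)) :
    HasProd (fun p : Nat.Primes => ∑' e : ℕ, a ((p : ℕ) ^ e) * (((p : ℕ) ^ e : ℕ) : ℝ) ^ (-s))
      (∑' n : ℕ, a n * (n : ℝ) ^ (-s)) := by
  have h := EulerProduct.eulerProduct_hasProd (R := ℝ) (f := fun n : ℕ => a n * (n : ℝ) ^ (-s))
    (by simp [ha1]) (by
      intro m n hmn
      simp only [ham m n hmn, Nat.cast_mul,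
        Real.mul_rpow (Nat.cast_nonneg m) (Nat.cast_nonneg n)]
      ring) (by
      refine has.congr fun n => ?_
      rw [Real.norm_of_nonneg]
      exact mul_nonneg (ha n) (Real.rpow_nonneg (Nat.cast_nonneg n) _)) (by
      simp only [Nat.cast_zero]
      rw [Real.zero_rpow (by linarith), mul_zero])
  exact h

private lemma n07_prod_le {C₁ C₂ : ℝ} (h1 : 0 ≤ C₁) (h2 : 1 ≤ C₂) (q₀ : ℕ)
    (T : Finset Nat.Primes) :
    ∏ p ∈ T, ((if (p : ℕ) < q₀ then C₂ else 1) * Real.exp (C₁ / ((p : ℕ) : ℝ) ^ 2)) ≤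
      C₂ ^ q₀ * Real.exp (C₁ * ∑' n : ℕ, 1 / (n : ℝ) ^ 2) := by
  rw [Finset.prod_mul_distrib]
  have hS : Summable fun n : ℕ => 1 / (n : ℝ) ^ 2 := Real.summable_one_div_nat_pow.2 (by norm_num)
  refine mul_le_mul ?_ ?_ (Finset.prod_nonneg fun p _ => (Real.exp_pos _).le) (by positivity)
  · rw [Finset.prod_ite, Finset.prod_const, Finset.prod_const_one, mul_one]
    refine pow_le_pow_right₀ h2 ?_
    calc (T.filter fun p : Nat.Primes => (p : ℕ) < q₀).card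
        ≤ (Finset.range q₀).card := by
          apply Finset.card_le_card_of_injOn (fun p : Nat.Primes => (p : ℕ))
          · intro p hp
            simp only [Finset.coe_filter, Set.mem_ofPred_eq] at hp
            simp only [Finset.coe_range, Set.mem_Iio]
            exact hp.2
          · intro p _ q _ h
            exact Subtype.ext h
      _ = q₀ := Finset.card_range q₀
  · rw [← Real.exp_sum]
    apply Real.exp_le_exp.2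
    have e1 : ∑ p ∈ T, C₁ / ((p : ℕ) : ℝ) ^ 2 =
        C₁ * ∑ n ∈ T.map ⟨fun p : Nat.Primes => (p : ℕ), fun p q h => Subtype.ext h⟩,
          1 / (n : ℝ) ^ 2 := by
      rw [Finset.sum_map, Finset.mul_sum]
      refine Finset.sum_congr rfl fun p _ => ?_
      show C₁ / ((p : ℕ) : ℝ) ^ 2 = C₁ * (1 / ((p : ℕ) : ℝ) ^ 2)
      ring
    rw [e1]
    refine mul_le_mul_of_nonneg_left ?_ h1
    exact hS.sum_le_tsum _ (fun n _ => by positivity)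

/-- Comparison of two Euler products. Proof: the Euler product (`EulerProduct.eulerProduct_hasProd`
for `f n = a n * n ^ (-s)`, which is multiplicative on coprime arguments, `f 0 = 0`, summable norm)
gives `HasProd (fun q : Nat.Primes => ∑' e, a(q^e) (q^e)^(-s)) (∑' n, a n n^(-s))`, the same for `b`.
Let `C₁` be the constant of `factor_compare` and `C₂` that of `factor_compare_bad`. For every finite
set `T` of primes the product over `T` of the `ℓ`-th powers of the factors of `a` is at most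
`C₂ ^ q₀ * exp (C₁ ∑' n, 1/n²)` times the product over `T` of the factors of `b`; pass to the limit
(`le_of_tendsto_of_tendsto'`, `HasProd` is a `Tendsto` along finite sets). -/
theorem euler_compare {a b : ℕ → ℝ} {d d' ℓ q₀ : ℕ} (ha : ∀ n, 0 ≤ a n) (hb : ∀ n, 0 ≤ b n)
    (ha1 : a 1 = 1) (hb1 : b 1 = 1)
    (ham : ∀ m n : ℕ, m.Coprime n → a (m * n) = a m * a n)
    (hbm : ∀ m n : ℕ, m.Coprime n → b (m * n) = b m * b n)
    (hap : ∀ q e : ℕ, q.Prime → a (q ^ e) ≤ ((e : ℝ) + 1) ^ d)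
    (hbp : ∀ q e : ℕ, q.Prime → b (q ^ e) ≤ ((e : ℝ) + 1) ^ d')
    (has : ∀ s : ℝ, 1 < s → Summable fun n : ℕ => a n * (n : ℝ) ^ (-s))
    (hbs : ∀ s : ℝ, 1 < s → Summable fun n : ℕ => b n * (n : ℝ) ^ (-s))
    (hab : ∀ q : ℕ, q.Prime → q₀ ≤ q → (ℓ : ℝ) * a q ≤ b q) :
    ∃ C : ℝ, 0 < C ∧ ∀ s : ℝ, 1 < s →
      (∑' n : ℕ, a n * (n : ℝ) ^ (-s)) ^ ℓ ≤ C * ∑' n : ℕ, b n * (n : ℝ) ^ (-s) := by
  obtain ⟨C₁, hC₁, h1⟩ := factor_compare d d' ℓ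
  obtain ⟨C₂, hC₂, h2⟩ := factor_compare_bad d d' ℓ
  refine ⟨C₂ ^ q₀ * Real.exp (C₁ * ∑' n : ℕ, 1 / (n : ℝ) ^ 2), by positivity, fun s hs => ?_⟩
  have hA := n07_eulerHasProd ha ha1 ham hs (has s hs)
  have hB := n07_eulerHasProd hb hb1 hbm hs (hbs s hs)
  set FA : Nat.Primes → ℝ := fun p => ∑' e : ℕ, a ((p : ℕ) ^ e) * (((p : ℕ) ^ e : ℕ) : ℝ) ^ (-s)
    with hFA
  set FB : Nat.Primes → ℝ := fun p => ∑' e : ℕ, b ((p : ℕ) ^ e) * (((p : ℕ) ^ e : ℕ) : ℝ) ^ (-s)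
    with hFB
  have hFA0 : ∀ p, 0 ≤ FA p := fun p => tsum_nonneg fun e =>
    mul_nonneg (ha _) (Real.rpow_nonneg (Nat.cast_nonneg _) _)
  have hFB0 : ∀ p, 0 ≤ FB p := fun p => tsum_nonneg fun e =>
    mul_nonneg (hb _) (Real.rpow_nonneg (Nat.cast_nonneg _) _)
  have hK : ∀ p : Nat.Primes, FA p ^ ℓ ≤
      ((if (p : ℕ) < q₀ then C₂ else 1) * Real.exp (C₁ / ((p : ℕ) : ℝ) ^ 2)) * FB p := by
    intro p
    have hp := p.2
    by_cases hlt : (p : ℕ) < q₀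
    · rw [if_pos hlt]
      have h3 := h2 (fun e => a ((p : ℕ) ^ e)) (fun e => b ((p : ℕ) ^ e)) (fun e => ha _)
        (fun e => hb _) (by simpa using ha1) (by simpa using hb1) (fun e => hap _ _ hp)
        (fun e => hbp _ _ hp) (p : ℕ) hp.two_le s hs
      refine h3.trans ?_
      refine mul_le_mul_of_nonneg_right ?_ (hFB0 p)
      have h4 : 1 ≤ Real.exp (C₁ / ((p : ℕ) : ℝ) ^ 2) := Real.one_le_exp (by positivity)
      nlinarith [h4, hC₂]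
    · rw [if_neg hlt, one_mul]
      exact h1 (fun e => a ((p : ℕ) ^ e)) (fun e => b ((p : ℕ) ^ e)) (fun e => ha _)
        (fun e => hb _) (by simpa using ha1) (by simpa using hb1) (fun e => hap _ _ hp)
        (fun e => hbp _ _ hp) (by simpa using hab p hp (not_lt.1 hlt)) (p : ℕ) hp.two_le s hs
  have hT : ∀ T : Finset Nat.Primes, (∏ p ∈ T, FA p) ^ ℓ ≤
      (C₂ ^ q₀ * Real.exp (C₁ * ∑' n : ℕ, 1 / (n : ℝ) ^ 2)) * ∏ p ∈ T, FB p := by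
    intro T
    rw [← Finset.prod_pow]
    calc ∏ p ∈ T, FA p ^ ℓ ≤ ∏ p ∈ T,
          (((if (p : ℕ) < q₀ then C₂ else 1) * Real.exp (C₁ / ((p : ℕ) : ℝ) ^ 2)) * FB p) :=
          Finset.prod_le_prod (fun p _ => pow_nonneg (hFA0 p) _) (fun p _ => hK p)
      _ = (∏ p ∈ T, ((if (p : ℕ) < q₀ then C₂ else 1) * Real.exp (C₁ / ((p : ℕ) : ℝ) ^ 2))) *
          ∏ p ∈ T, FB p := Finset.prod_mul_distrib
      _ ≤ _ := mul_le_mul_of_nonneg_right (n07_prod_le hC₁ hC₂ q₀ T)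
          (Finset.prod_nonneg fun p _ => hFB0 p)
  exact le_of_tendsto_of_tendsto' (Tendsto.pow hA ℓ) (Tendsto.const_mul _ hB) hT

end Pool.Agent.Lib.MP_89bcae_ag.Re

end
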