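import Mathlib
import Pool.Agent.Lib.MP_89bcae_ag.Mk.K001
import Pool.Agent.Lib.MP_89bcae_ag.Mk.K004
import Pool.Agent.Lib.MP_89bcae_ag.Mk.K013

namespace Pool.Agent.Lib.MP_89bcae_ag.Superelliptic
end Pool.Agent.Lib.MP_89bcae_ag.Superelliptic

section

/-!
# The number of ideals of given norm
-/

open NumberField Ideal

namespace Pool.Agent.Lib.MP_89bcae_ag.Re

/-- The number of ideals of norm `n` of the ring of integers of `K`. -/
noncomputable def idealCount (K : Type*) [Field K] [NumberField K] (n : ℕ) : ℕ :=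
  Nat.card {I : Ideal (𝓞 K) // absNorm I = n}

/-- The Dirichlet series of `K` for real `s`. -/
noncomputable def zetaR (K : Type*) [Field K] [NumberField K] (s : ℝ) : ℝ :=
  ∑' n : ℕ, (idealCount K n : ℝ) * (n : ℝ) ^ (-s)

end Pool.Agent.Lib.MP_89bcae_ag.Re

end

section

open NumberField Polynomial

namespace Pool.Agent.Lib.MP_89bcae_ag.Re

private theorem exists_nat_mul_int (K : Type*) [Field K] [NumberField K] (a : K) :
    ∃ M : ℕ, M ≠ 0 ∧ ∃ b : 𝓞 K, (b : K) = M * a := by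
  have halg : IsAlgebraic ℤ a := by
    have h1 : IsAlgebraic ℚ a := Algebra.IsAlgebraic.isAlgebraic a
    exact (IsFractionRing.isAlgebraic_iff ℤ ℚ K).mpr h1
  obtain ⟨y, hy0, hy⟩ := halg.exists_integral_multiple
  refine ⟨y.natAbs, Int.natAbs_ne_zero.mpr hy0, ?_⟩
  have hy2 : IsIntegral ℤ ((y.natAbs : K) * a) := by
    rcases Int.natAbs_eq y with h | h
    · have : ((y.natAbs : K) * a) = y • a := by
        rw [zsmul_eq_mul]
        conv_rhs => rw [h]
        simp
      rw [this]; exact hy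
    · have : ((y.natAbs : K) * a) = - (y • a) := by
        rw [zsmul_eq_mul]
        conv_rhs => rw [h]
        simp
      rw [this]; exact hy.neg
  exact ⟨⟨_, hy2⟩, rfl⟩

private theorem exists_nat_mul_poly (K : Type*) [Field K] [NumberField K] (p : K[X]) :
    ∃ M : ℕ, M ≠ 0 ∧ ∃ q : (𝓞 K)[X], q.map (algebraMap (𝓞 K) K) = (M : K[X]) * p := by
  induction p using Polynomial.induction_on' with
  | add p q hp hq =>
    obtain ⟨M, hM, P, hP⟩ := hp
    obtain ⟨N, hN, Q, hQ⟩ := hq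
    refine ⟨M * N, mul_ne_zero hM hN, (N : (𝓞 K)[X]) * P + (M : (𝓞 K)[X]) * Q, ?_⟩
    rw [Polynomial.map_add, Polynomial.map_mul, Polynomial.map_mul, hP, hQ]
    simp only [Polynomial.map_natCast]
    push_cast
    ring
  | monomial n a =>
    obtain ⟨M, hM, b, hb⟩ := exists_nat_mul_int K a
    refine ⟨M, hM, Polynomial.monomial n b, ?_⟩
    rw [Polynomial.map_monomial]
    have : (M : K[X]) = C (M : K) := by simp
    rw [this, Polynomial.C_mul_monomial]
    congr 1

/-- A common denominator. Proof: `𝓞 K'` is generated by finitely many elements `y` as an `ℤ`-module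
(`Module.Finite ℤ (𝓞 K')`); each is `aeval α p` with `p ∈ K[X]` (`Algebra.adjoin_singleton_eq_range_aeval`),
and a nonzero integer times `p` has coefficients in `𝓞 K`
(`IsLocalization.integerNormalization`, or `exist_integer_multiples_of_finset` with
`IsLocalization (nonZeroDivisors ℤ)` or `IsIntegralClosure.exists_smul_eq_mul` ...); take the product
of these integers, and extend to sums of integral multiples of the generators
(`Submodule.span_induction`). -/
theorem exists_denominator (K K' : Type*) [Field K] [NumberField K] [Field K'] [NumberField K']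
    [Algebra K K'] {α : 𝓞 K'} (hα : Algebra.adjoin K {(α : K')} = ⊤) :
    ∃ M : ℕ, M ≠ 0 ∧ ∀ y : 𝓞 K', ∃ p : (𝓞 K)[X], (M : 𝓞 K') * y = aeval α p := by
  classical
  -- one element
  have h1 : ∀ y : 𝓞 K', ∃ M : ℕ, M ≠ 0 ∧ ∃ p : (𝓞 K)[X], (M : 𝓞 K') * y = aeval α p := by
    intro y
    have hy : (y : K') ∈ Algebra.adjoin K {(α : K')} := by rw [hα]; trivial
    rw [Algebra.adjoin_singleton_eq_range_aeval] at hy
    obtain ⟨p, hp⟩ := hy
    obtain ⟨M, hM, q, hq⟩ := exists_nat_mul_poly K p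
    refine ⟨M, hM, q, ?_⟩
    apply RingOfIntegers.coe_injective
    have e1 : ((aeval α q : 𝓞 K') : K') = aeval (α : K') q := by
      have := Polynomial.aeval_algebraMap_apply K' α q
      exact this.symm
    have e2 : aeval (α : K') q = aeval (α : K') (q.map (algebraMap (𝓞 K) K)) := by
      rw [Polynomial.aeval_map_algebraMap]
    change (((M : 𝓞 K') * y : 𝓞 K') : K') = ((aeval α q : 𝓞 K') : K')
    rw [e1, e2, hq, map_mul, map_natCast]
    have hp' : aeval (α : K') p = (y : K') := hp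
    rw [hp']
    simp
  -- a finite family
  obtain ⟨s, hs⟩ := (Module.Finite.fg_top : (⊤ : Submodule ℤ (𝓞 K')).FG)
  choose M hM p hp using h1
  refine ⟨∏ y ∈ s, M y, Finset.prod_ne_zero_iff.mpr (fun y _ => hM y), ?_⟩
  intro y
  have hy : y ∈ Submodule.span ℤ (s : Set (𝓞 K')) := by rw [hs]; trivial
  induction hy using Submodule.span_induction with
  | mem x hx =>
    have hx' : x ∈ s := hx
    refine ⟨((∏ y ∈ s.erase x, M y : ℕ) : (𝓞 K)[X]) * p x, ?_⟩
    rw [map_mul, map_natCast, ← hp x, ← mul_assoc, ← Nat.cast_mul, mul_comm (∏ y ∈ s.erase x, M y),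
      Finset.mul_prod_erase s M hx']
  | zero => exact ⟨0, by simp⟩
  | add a b _ _ ha hb =>
    obtain ⟨P, hP⟩ := ha
    obtain ⟨Q, hQ⟩ := hb
    exact ⟨P + Q, by rw [mul_add, hP, hQ, map_add]⟩
  | smul n a _ ha =>
    obtain ⟨P, hP⟩ := ha
    refine ⟨(n : (𝓞 K)[X]) * P, ?_⟩
    rw [map_mul, map_intCast, ← hP, zsmul_eq_mul]
    ring

end Pool.Agent.Lib.MP_89bcae_ag.Re

end

section

open NumberField Polynomial

namespace Pool.Agent.Lib.MP_89bcae_ag.Re

private theorem n11_key (K K' : Type*) [Field K] [NumberField K] [Field K'] [NumberField K']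
    [Algebra K K'] {ℓ : ℕ} (hℓ : 0 < ℓ) {b : 𝓞 K} {α : 𝓞 K'}
    (hb : α ^ ℓ = algebraMap (𝓞 K) (𝓞 K') b) (hirr : Irreducible (X ^ ℓ - C (b : K)))
    {q : ℕ} (φ : 𝓞 K →+* ZMod q) {c : ZMod q} (hc : c ^ ℓ = φ b) (p : (𝓞 K)[X])
    (hp : aeval α p = 0) : eval₂ φ c p = 0 := by
  have hmon : (X ^ ℓ - C b : (𝓞 K)[X]).Monic := monic_X_pow_sub_C b hℓ.ne'
  have hPα : aeval α (X ^ ℓ - C b : (𝓞 K)[X]) = 0 := by
    simp [hb]
  have hPc : eval₂ φ c (X ^ ℓ - C b : (𝓞 K)[X]) = 0 := by
    simp [hc]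
  have hdiv := modByMonic_add_div p (X ^ ℓ - C b : (𝓞 K)[X])
  set r := p %ₘ (X ^ ℓ - C b : (𝓞 K)[X]) with hr
  have hrα : aeval α r = 0 := by
    have h := congrArg (aeval α) hdiv
    rw [map_add, map_mul, hPα, zero_mul, add_zero, hp] at h
    exact h
  have hmonK : (X ^ ℓ - C (b : K) : K[X]).Monic := monic_X_pow_sub_C _ hℓ.ne'
  have hαK : aeval (α : K') (X ^ ℓ - C (b : K) : K[X]) = 0 := by
    have h1 : ((α ^ ℓ : 𝓞 K') : K') = ((algebraMap (𝓞 K) (𝓞 K') b : 𝓞 K') : K') := by rw [hb]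
    have h2 : (α : K') ^ ℓ = algebraMap K K' (b : K) := by
      have h3 : algebraMap (𝓞 K') K' (algebraMap (𝓞 K) (𝓞 K') b) =
          algebraMap K K' (algebraMap (𝓞 K) K b) := by
        rw [← IsScalarTower.algebraMap_apply, ← IsScalarTower.algebraMap_apply]
      rw [← h3, ← hb, map_pow]
    simp only [map_sub, map_pow, aeval_X, aeval_C, h2, sub_self]
  have hmin := minpoly.eq_of_irreducible_of_monic hirr hαK hmonK
  have hrK : aeval (α : K') (r.map (algebraMap (𝓞 K) K)) = 0 := by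
    have h1 : aeval (α : K') (r.map (algebraMap (𝓞 K) K)) = algebraMap (𝓞 K') K' (aeval α r) := by
      rw [aeval_map_algebraMap, aeval_algebraMap_apply]
    rw [h1, hrα, map_zero]
  have hr0 : r = 0 := by
    have hdvd := minpoly.dvd K (α : K') hrK
    rw [← hmin] at hdvd
    have hdeg : (r.map (algebraMap (𝓞 K) K)).degree < (X ^ ℓ - C (b : K) : K[X]).degree := by
      calc (r.map (algebraMap (𝓞 K) K)).degree ≤ r.degree := degree_map_le
        _ < (X ^ ℓ - C b : (𝓞 K)[X]).degree := degree_modByMonic_lt _ hmon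
        _ = ℓ := degree_X_pow_sub_C hℓ _
        _ = _ := (degree_X_pow_sub_C hℓ _).symm
    have h0 : r.map (algebraMap (𝓞 K) K) = 0 := by
      by_contra hne
      exact absurd (degree_le_of_dvd hdvd hne) (not_le.mpr hdeg)
    exact (Polynomial.map_eq_zero_iff (IsFractionRing.injective (𝓞 K) K)).mp h0
  rw [← hdiv, hr0, zero_add, eval₂_mul, hPc, zero_mul]

/-- Extension of a homomorphism to `F_q`. Proof: `X ^ ℓ - C b` is the minimal polynomial of `α` over
`K` (`hirr`, monic, `minpoly.eq_of_irreducible_of_monic`), so, since `𝓞 K` is integrally closed, that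
over `𝓞 K` too (`minpoly.isIntegrallyClosed_eq_field_fractions'`): a polynomial `p ∈ (𝓞 K)[X]` with
`aeval α p = 0` is a multiple of `X ^ ℓ - C b` (`minpoly.isIntegrallyClosed_dvd`). So
`eval₂ φ c p = 0` whenever `aeval α p = 0`, because `c ^ ℓ = φ b`. Define `ψ y = M⁻¹ * eval₂ φ c p` for
any `p` with `M * y = aeval α p` (`Classical.choose`): this does not depend on `p`; it is additive; it
is multiplicative: if `M y = p(α)`, `M z = r(α)`, `M (y z) = w(α)`, then `p r - C M * w` is zero at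
`α`. Values: `ψ (algebraMap x) = φ x` with `p = C (M x)`, `ψ α = c` with `p = C M * X`. -/
theorem exists_extension (K K' : Type*) [Field K] [NumberField K] [Field K'] [NumberField K']
    [Algebra K K'] {ℓ : ℕ} (hℓ : 0 < ℓ) {b : 𝓞 K} {α : 𝓞 K'}
    (hb : α ^ ℓ = algebraMap (𝓞 K) (𝓞 K') b) (hirr : Irreducible (X ^ ℓ - C (b : K)))
    {M : ℕ} (hM : ∀ y : 𝓞 K', ∃ p : (𝓞 K)[X], (M : 𝓞 K') * y = aeval α p)
    {q : ℕ} [Fact q.Prime] (hqM : ¬ q ∣ M) (φ : 𝓞 K →+* ZMod q) {c : ZMod q} (hc : c ^ ℓ = φ b) :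
    ∃ ψ : 𝓞 K' →+* ZMod q, (∀ x : 𝓞 K, ψ (algebraMap (𝓞 K) (𝓞 K') x) = φ x) ∧ ψ α = c := by
  have hM0 : (M : ZMod q) ≠ 0 := by
    rw [Ne, ZMod.natCast_eq_zero_iff]
    exact hqM
  have key : ∀ p r : (𝓞 K)[X], aeval α p = aeval α r → eval₂ φ c p = eval₂ φ c r := by
    intro p r h
    have h1 : aeval α (p - r) = 0 := by rw [map_sub, h, sub_self]
    have h2 := n11_key K K' hℓ hb hirr φ hc (p - r) h1
    rw [eval₂_sub, sub_eq_zero] at h2
    exact h2
  choose P hP using hM
  have val : ∀ (y : 𝓞 K') (p : (𝓞 K)[X]), (M : 𝓞 K') * y = aeval α p →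
      (M : ZMod q)⁻¹ * eval₂ φ c (P y) = (M : ZMod q)⁻¹ * eval₂ φ c p := by
    intro y p hp
    rw [key (P y) p ((hP y).symm.trans hp)]
  have valM : ∀ (y : 𝓞 K') (p : (𝓞 K)[X]) (d : ZMod q), (M : 𝓞 K') * y = aeval α p →
      eval₂ φ c p = M * d → (M : ZMod q)⁻¹ * eval₂ φ c (P y) = d := by
    intro y p d hp hd
    rw [val y p hp, hd, ← mul_assoc, inv_mul_cancel₀ hM0, one_mul]
  refine ⟨{ toFun := fun y => (M : ZMod q)⁻¹ * eval₂ φ c (P y)
            map_one' := ?_
            map_mul' := ?_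
            map_zero' := ?_
            map_add' := ?_ }, ?_, ?_⟩
  · apply valM 1 (C (M : 𝓞 K)) 1
    · simp
    · simp
  · intro x y
    apply valM (x * y) (P (x * y))
    · exact hP _
    · have h1 : aeval α (C (M : 𝓞 K) * P (x * y)) = aeval α (P x * P y) := by
        rw [map_mul, map_mul, ← hP x, ← hP y, ← hP (x * y)]
        simp only [map_natCast]
        ring
      have h2 := key _ _ h1
      rw [eval₂_mul, eval₂_mul, eval₂_C, map_natCast] at h2
      have h3 : (M : ZMod q) * ((M : ZMod q)⁻¹ * eval₂ φ c (P x) * ((M : ZMod q)⁻¹ * eval₂ φ c (P y)))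
          = (M : ZMod q)⁻¹ * (eval₂ φ c (P x) * eval₂ φ c (P y)) := by
        have : (M : ZMod q) * (M : ZMod q)⁻¹ = 1 := mul_inv_cancel₀ hM0
        linear_combination ((M : ZMod q)⁻¹ * (eval₂ φ c (P x) * eval₂ φ c (P y))) * this
      rw [h3, ← h2, ← mul_assoc, inv_mul_cancel₀ hM0, one_mul]
  · apply valM 0 0 0
    · simp
    · simp
  · intro x y
    show (M : ZMod q)⁻¹ * eval₂ φ c (P (x + y)) = (M : ZMod q)⁻¹ * eval₂ φ c (P x) +
      (M : ZMod q)⁻¹ * eval₂ φ c (P y)
    rw [val (x + y) (P x + P y), eval₂_add, mul_add]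
    rw [map_add, ← hP x, ← hP y, mul_add]
  · intro x
    show (M : ZMod q)⁻¹ * eval₂ φ c (P _) = φ x
    apply valM _ (C ((M : 𝓞 K) * x))
    · rw [aeval_C, map_mul, map_natCast]
    · rw [eval₂_C, map_mul, map_natCast]
  · show (M : ZMod q)⁻¹ * eval₂ φ c (P _) = c
    apply valM _ (C (M : 𝓞 K) * X)
    · rw [map_mul, aeval_C, aeval_X, map_natCast]
    · rw [eval₂_mul, eval₂_C, eval₂_X, map_natCast]

end Pool.Agent.Lib.MP_89bcae_ag.Re

end

section

/-!
ROW A02 (60-120 lines). Commuting endomorphisms `n` of a finite vector space over `ZMod ℓ` with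
`n ^ ℓ = n` have a common eigenvector.

PROOF. Let `W` be a nonzero submodule stable under all the `n i`, with the smallest number of elements
(`V` is finite). For each `i`, the polynomial `X^ℓ - X = ∏_{c} (X - c)` over `ZMod ℓ` kills `n i`, so
some `n i - c` is not injective on `W` (else the product would be injective and zero on `W ≠ 0`).
Its kernel in `W` is stable under all `n j` (they commute), nonzero, so equal to `W` by minimality:
`n i` is the scalar `c = a i` on `W`. Take any nonzero `x` in `W`.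
-/

open Polynomial in
/-- the factorisation of `X^ℓ - X` -/
private lemma A02_prod (ℓ : ℕ) [Fact ℓ.Prime] :
    (∏ c : ZMod ℓ, (X - C c) : (ZMod ℓ)[X]) = X ^ ℓ - X := by
  have hℓ : 1 < ℓ := (Fact.out : ℓ.Prime).one_lt
  have hr := FiniteField.roots_X_pow_card_sub_X (ZMod ℓ)
  rw [ZMod.card] at hr
  have hm : (X ^ ℓ - X : (ZMod ℓ)[X]).Monic :=
    monic_X_pow_sub (by rw [degree_X]; exact_mod_cast hℓ)
  have hd := FiniteField.X_pow_card_sub_X_natDegree_eq (ZMod ℓ) hℓ
  have hc : (X ^ ℓ - X : (ZMod ℓ)[X]).roots.card = (X ^ ℓ - X : (ZMod ℓ)[X]).natDegree := by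
    rw [hr, hd]
    change (Finset.univ : Finset (ZMod ℓ)).card = ℓ
    rw [Finset.card_univ, ZMod.card]
  have h := prod_multiset_X_sub_C_of_monic_of_roots_card_eq hm hc
  rw [hr] at h
  exact h

namespace Pool.Agent.Lib.MP_89bcae_ag.Sup

open Polynomial in
private lemma A02_eig {R V : Type*} [CommRing R] [AddCommGroup V] [Module R V]
    (f : V →ₗ[R] V) (W : Submodule R V) (hW : ∀ x ∈ W, f x ∈ W) (s : Finset R) :
    ∀ y ∈ W, y ≠ 0 → (aeval f (∏ c ∈ s, (X - C c : R[X]))) y = 0 →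
      ∃ c : R, ∃ z ∈ W, z ≠ 0 ∧ f z = c • z := by
  classical
  induction s using Finset.induction_on with
  | empty =>
    intro y _ hy0 h
    exfalso
    rw [Finset.prod_empty, map_one] at h
    exact hy0 h
  | insert c s hc ih =>
    intro y hy hy0 h
    rw [Finset.prod_insert hc, mul_comm, map_mul] at h
    have e : aeval f (X - C c : R[X]) y = f y - c • y := by
      rw [map_sub, aeval_X, aeval_C]
      rfl
    change aeval f (∏ c ∈ s, (X - C c : R[X])) (aeval f (X - C c : R[X]) y) = 0 at h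
    rw [e] at h
    by_cases hz : f y - c • y = 0
    · exact ⟨c, y, hy, hy0, sub_eq_zero.1 hz⟩
    · exact ih _ (W.sub_mem (hW y hy) (W.smul_mem c hy)) hz h

lemma exists_common_eigenvector {ℓ : ℕ} [Fact ℓ.Prime] {V I : Type*} [AddCommGroup V]
    [Module (ZMod ℓ) V] [Finite V] (n : I → V →ₗ[ZMod ℓ] V) (hcomm : ∀ i j, n i * n j = n j * n i)
    (hpow : ∀ i, n i ^ ℓ = n i) (hV : ∃ x : V, x ≠ 0) :
    ∃ x : V, x ≠ 0 ∧ ∃ a : I → ZMod ℓ, ∀ i, n i x = a i • x := by
  classical
  haveI : Finite (Submodule (ZMod ℓ) V) :=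
    Finite.of_injective (fun W : Submodule (ZMod ℓ) V => (W : Set V)) SetLike.coe_injective
  set S : Set (Submodule (ZMod ℓ) V) := {W | (∃ x ∈ W, x ≠ 0) ∧ ∀ i, ∀ x ∈ W, n i x ∈ W} with hS
  have hSne : S.Nonempty := by
    obtain ⟨x, hx⟩ := hV
    exact ⟨⊤, ⟨x, Submodule.mem_top, hx⟩, fun i x _ => Submodule.mem_top⟩
  obtain ⟨W, ⟨⟨x, hxW, hx0⟩, hWst⟩, hmin⟩ := (Set.toFinite S).exists_minimal hSne
  refine ⟨x, hx0, ?_⟩
  have key : ∀ i, ∃ c : ZMod ℓ, ∀ y ∈ W, n i y = c • y := by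
    intro i
    have h0 : (Polynomial.aeval (n i) (∏ c : ZMod ℓ, (Polynomial.X - Polynomial.C c))) x = 0 := by
      rw [A02_prod, map_sub, map_pow, Polynomial.aeval_X, hpow i, sub_self]
      rfl
    obtain ⟨c, z, hzW, hz0, hz⟩ := A02_eig (n i) W (hWst i) Finset.univ x hxW hx0 h0
    refine ⟨c, ?_⟩
    set W' : Submodule (ZMod ℓ) V := W ⊓ LinearMap.ker (n i - c • LinearMap.id) with hW'
    have hmem : ∀ y, y ∈ W' ↔ y ∈ W ∧ n i y = c • y := fun y => by
      rw [hW', Submodule.mem_inf, LinearMap.mem_ker]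
      simp only [LinearMap.sub_apply, LinearMap.smul_apply, LinearMap.id_apply, sub_eq_zero]
    have hW'S : W' ∈ S := by
      refine ⟨⟨z, (hmem z).2 ⟨hzW, hz⟩, hz0⟩, fun j y hy => ?_⟩
      rw [hmem] at hy ⊢
      refine ⟨hWst j y hy.1, ?_⟩
      have e1 : n i (n j y) = n j (n i y) := by
        have := LinearMap.congr_fun (hcomm i j) y
        exact this
      rw [e1, hy.2, map_smul]
    have hle : W ≤ W' := hmin hW'S inf_le_left
    intro y hy
    exact ((hmem y).1 (hle hy)).2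
  choose a ha using key
  exact ⟨a, fun i => ha i x hxW⟩

end Pool.Agent.Lib.MP_89bcae_ag.Sup

end

section

open NumberField Ideal

namespace Pool.Agent.Lib.MP_89bcae_ag.Re

/-- Proof: `absNorm I = 1` iff `I = ⊤` (`Ideal.absNorm_eq_one_iff`). -/
theorem idealCount_one (K : Type*) [Field K] [NumberField K] : idealCount K 1 = 1 := by
  unfold idealCount
  have : Unique {I : Ideal (𝓞 K) // absNorm I = 1} :=
    { default := ⟨⊤, absNorm_eq_one_iff.2 rfl⟩
      uniq := fun I => Subtype.ext (absNorm_eq_one_iff.1 I.2) }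
  exact Nat.card_unique

private theorem n02_sup (K : Type*) [Field K] [NumberField K] {m n : ℕ} (h : m.Coprime n)
    (J J' : Ideal (𝓞 K)) (hm : (m : 𝓞 K) ∈ J) (hn : (n : 𝓞 K) ∈ J') : J ⊔ J' = ⊤ := by
  rw [eq_top_iff_one]
  have h1 : IsCoprime (m : ℤ) (n : ℤ) := Nat.isCoprime_iff_coprime.2 h
  obtain ⟨a, b, hab⟩ := h1
  have h2 : (1 : 𝓞 K) = (a : 𝓞 K) * (m : 𝓞 K) + (b : 𝓞 K) * (n : 𝓞 K) := by
    have h3 := congrArg (Int.cast : ℤ → 𝓞 K) hab
    push_cast at h3
    exact h3.symm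
  rw [h2]
  exact Submodule.add_mem_sup (J.mul_mem_left _ hm) (J'.mul_mem_left _ hn)

private theorem n02_inj (K : Type*) [Field K] [NumberField K] {m n : ℕ} (h : m.Coprime n)
    (J J' : Ideal (𝓞 K)) (hm : absNorm J = m) (hn : absNorm J' = n) :
    J * J' ⊔ span {(m : 𝓞 K)} = J := by
  have hmJ : (m : 𝓞 K) ∈ J := by rw [← hm]; exact absNorm_mem J
  have hnJ : (n : 𝓞 K) ∈ J' := by rw [← hn]; exact absNorm_mem J'
  have htop : span {(m : 𝓞 K)} ⊔ J' = ⊤ :=
    n02_sup K h _ _ (mem_span_singleton_self _) hnJ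
  apply le_antisymm
  · exact sup_le mul_le_left ((span_singleton_le_iff_mem _).2 hmJ)
  · calc J = J * (span {(m : 𝓞 K)} ⊔ J') := by rw [htop, mul_top]
      _ = J * span {(m : 𝓞 K)} ⊔ J * J' := mul_sup _ _ _
      _ ≤ J * J' ⊔ span {(m : 𝓞 K)} := sup_le (le_sup_of_le_right mul_le_right) le_sup_left

/-- Proof: the map `(J, J') ↦ J * J'` from pairs of ideals of norms `m`, `n` to ideals of norm `m n`
(`map_mul` of `absNorm`) is a bijection. Surjective: `I` of norm `m n`; `m n ∈ I`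
(`Ideal.absNorm_mem`); put `J = I ⊔ span {m}`, `J' = I ⊔ span {n}`; as `m`, `n` are coprime,
`J ⊔ J' = ⊤`, and `J * J' ≤ I` (all four products lie in `I`), `I ≤ J ⊓ J' = J * J'`
(`Ideal.mul_eq_inf_of_coprime`). `J` contains `m`, so it divides `span {m}` and `absNorm J` divides
`m ^ [K:ℚ]`; so it is prime to `n` and divides `m`; the same for `J'`; as the product is `m n`, both
are equalities (treat `m = 0` or `n = 0` apart: then the other one is `1`). Injective:
`J = J * J' ⊔ span {m}` if `absNorm J = m`, `absNorm J' = n`, because `J' ⊔ span {m} = ⊤`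
(it contains `n` and `m`) and `m ∈ J`. -/
theorem idealCount_mul (K : Type*) [Field K] [NumberField K] {m n : ℕ} (h : m.Coprime n) :
    idealCount K (m * n) = idealCount K m * idealCount K n := by
  rcases Nat.eq_zero_or_pos m with rfl | hm0
  · have : n = 1 := by simpa using h
    rw [this, mul_one, idealCount_one, mul_one]
  rcases Nat.eq_zero_or_pos n with rfl | hn0
  · have : m = 1 := by simpa using h
    rw [this, one_mul, idealCount_one, one_mul]
  unfold idealCount
  rw [← Nat.card_prod]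
  symm
  refine Nat.card_congr (Equiv.ofBijective
    (fun p : {I : Ideal (𝓞 K) // absNorm I = m} × {I : Ideal (𝓞 K) // absNorm I = n} =>
      (⟨p.1.1 * p.2.1, by rw [map_mul, p.1.2, p.2.2]⟩ : {I : Ideal (𝓞 K) // absNorm I = m * n}))
    ⟨?_, ?_⟩)
  · rintro ⟨⟨J, hJ⟩, ⟨J', hJ'⟩⟩ ⟨⟨I, hI⟩, ⟨I', hI'⟩⟩ e
    have e' : J * J' = I * I' := congrArg Subtype.val e
    have h1 : J = I := by
      rw [← n02_inj K h J J' hJ hJ', ← n02_inj K h I I' hI hI', e']
    have h2 : J' = I' := by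
      rw [← n02_inj K h.symm J' J hJ' hJ, ← n02_inj K h.symm I' I hI' hI, mul_comm J' J,
        mul_comm I' I, e']
    subst h1 h2
    rfl
  · rintro ⟨I, hI⟩
    have hmn : (m : 𝓞 K) * (n : 𝓞 K) ∈ I := by
      have := absNorm_mem I
      rw [hI, Nat.cast_mul] at this
      exact this
    have hmJ : (m : 𝓞 K) ∈ I ⊔ span {(m : 𝓞 K)} :=
      Ideal.mem_sup_right (mem_span_singleton_self _)
    have hnJ : (n : 𝓞 K) ∈ I ⊔ span {(n : 𝓞 K)} :=
      Ideal.mem_sup_right (mem_span_singleton_self _)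
    have htop := n02_sup K h _ _ hmJ hnJ
    have hprod : (I ⊔ span {(m : 𝓞 K)}) * (I ⊔ span {(n : 𝓞 K)}) = I := by
      apply le_antisymm
      · rw [Ideal.sup_mul, Ideal.mul_sup, Ideal.mul_sup]
        refine sup_le (sup_le mul_le_left mul_le_left) (sup_le mul_le_right ?_)
        rw [span_singleton_mul_span_singleton, span_singleton_le_iff_mem]
        exact hmn
      · rw [mul_eq_inf_of_coprime htop]
        exact le_inf le_sup_left le_sup_left
    have hnorm : absNorm (I ⊔ span {(m : 𝓞 K)}) * absNorm (I ⊔ span {(n : 𝓞 K)}) = m * n := by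
      rw [← map_mul, hprod, hI]
    have hd1 : absNorm (I ⊔ span {(m : 𝓞 K)}) ∣ m := by
      have h1 : absNorm (I ⊔ span {(m : 𝓞 K)}) ∣ m ^ Module.finrank ℤ (𝓞 K) := by
        rw [← absNorm_span_natCast]
        exact absNorm_dvd_absNorm_of_le le_sup_right
      have h2 : (absNorm (I ⊔ span {(m : 𝓞 K)})).Coprime n :=
        Nat.Coprime.coprime_dvd_left h1 (h.pow_left _)
      exact h2.dvd_of_dvd_mul_right (hnorm ▸ Dvd.intro _ rfl)
    have hd2 : absNorm (I ⊔ span {(n : 𝓞 K)}) ∣ n := by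
      have h1 : absNorm (I ⊔ span {(n : 𝓞 K)}) ∣ n ^ Module.finrank ℤ (𝓞 K) := by
        rw [← absNorm_span_natCast]
        exact absNorm_dvd_absNorm_of_le le_sup_right
      have h2 : (absNorm (I ⊔ span {(n : 𝓞 K)})).Coprime m :=
        Nat.Coprime.coprime_dvd_left h1 (h.symm.pow_left _)
      exact h2.dvd_of_dvd_mul_left (hnorm ▸ Dvd.intro_left _ rfl)
    have hl1 := Nat.le_of_dvd hm0 hd1
    have hl2 := Nat.le_of_dvd hn0 hd2
    have he1 : absNorm (I ⊔ span {(m : 𝓞 K)}) = m := by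
      by_contra hne
      have h3 : absNorm (I ⊔ span {(m : 𝓞 K)}) < m := lt_of_le_of_ne hl1 hne
      have h4 : absNorm (I ⊔ span {(m : 𝓞 K)}) * absNorm (I ⊔ span {(n : 𝓞 K)}) < m * n :=
        lt_of_le_of_lt (Nat.mul_le_mul_left _ hl2) (Nat.mul_lt_mul_of_pos_right h3 hn0)
      omega
    have he2 : absNorm (I ⊔ span {(n : 𝓞 K)}) = n := by
      rw [he1] at hnorm
      exact Nat.eq_of_mul_eq_mul_left hm0 hnorm
    exact ⟨(⟨_, he1⟩, ⟨_, he2⟩), Subtype.ext hprod⟩

end Pool.Agent.Lib.MP_89bcae_ag.Re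

end

section

open NumberField Ideal

namespace Pool.Agent.Lib.MP_89bcae_ag.Re

/-- Proof: let `P` be the set of the maximal ideals of `𝓞 K` containing `q`; it is finite with at
most `[K:ℚ]` elements (`Ideal.primesOver`, `Ideal.sum_ramification_inertia`, or: the norm of their
product divides `q ^ [K:ℚ]` and each has norm at least `q`). If `absNorm I = q ^ e`, all the prime
divisors of `I` are in `P` (`q ^ e ∈ I`) and each occurs at most `e` times (its norm is at least `q`,
as the norm is a power of `q` different from `1`). So `I` is determined by the function `P → Fin (e+1)`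
of its multiplicities (`normalizedFactors`). -/
theorem idealCount_prime_pow_le (K : Type*) [Field K] [NumberField K] {q : ℕ} (hq : q.Prime)
    (e : ℕ) : idealCount K (q ^ e) ≤ (e + 1) ^ Module.finrank ℚ K := by
  classical
  have hq0 : (q : 𝓞 K) ≠ 0 := by
    have : (q : ℕ) ≠ 0 := hq.ne_zero
    exact_mod_cast this
  have hS0 : (span {(q : 𝓞 K)} : Ideal (𝓞 K)) ≠ ⊥ := by
    rw [Ne, span_singleton_eq_bot]; exact hq0
  have hSn : absNorm (span {(q : 𝓞 K)} : Ideal (𝓞 K)) = q ^ Module.finrank ℚ K := by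
    rw [absNorm_span_natCast, RingOfIntegers.rank]
  -- primes over q
  obtain ⟨P, hPdef⟩ : ∃ P : Finset (Ideal (𝓞 K)),
      P = (UniqueFactorizationMonoid.normalizedFactors (span {(q : 𝓞 K)} : Ideal (𝓞 K))).toFinset :=
    ⟨_, rfl⟩
  have hPmem : ∀ p : Ideal (𝓞 K), p ∈ P ↔ p.IsPrime ∧ span {(q : 𝓞 K)} ≤ p := by
    intro p
    rw [hPdef, Multiset.mem_toFinset, Ideal.mem_normalizedFactors_iff hS0]
  have hnorm : ∀ (p : Ideal (𝓞 K)) (k : ℕ), p.IsPrime → absNorm p ∣ q ^ k → q ≤ absNorm p := by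
    intro p k hp hd
    have h1 : absNorm p ≠ 1 := by
      rw [Ne, Ideal.absNorm_eq_one_iff]; exact hp.ne_top
    obtain ⟨j, -, hj⟩ := (Nat.dvd_prime_pow hq).1 hd
    rw [hj]
    have hj0 : j ≠ 0 := by
      rintro rfl
      rw [pow_zero] at hj
      exact h1 hj
    calc q = q ^ 1 := (pow_one q).symm
      _ ≤ q ^ j := Nat.pow_le_pow_right hq.pos (Nat.one_le_iff_ne_zero.2 hj0)
  have hPcard : P.card ≤ Module.finrank ℚ K := by
    have hprod : P.val.prod ∣ span {(q : 𝓞 K)} := by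
      have h1 : P.val.prod ∣
          (UniqueFactorizationMonoid.normalizedFactors (span {(q : 𝓞 K)} : Ideal (𝓞 K))).prod := by
        rw [hPdef, Multiset.toFinset_val]
        exact Multiset.prod_dvd_prod_of_le (Multiset.dedup_le _)
      rwa [Ideal.prod_normalizedFactors_eq_self hS0] at h1
    have hnd : absNorm P.val.prod ∣ q ^ Module.finrank ℚ K := by
      rw [← hSn]
      exact map_dvd absNorm hprod
    have hnp : absNorm P.val.prod = ∏ p ∈ P, absNorm p := by
      rw [map_multiset_prod]; rfl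
    have hge : q ^ P.card ≤ ∏ p ∈ P, absNorm p := by
      rw [← Finset.prod_const]
      apply Finset.prod_le_prod'
      intro p hp
      have hp' := (hPmem p).1 hp
      apply hnorm p (Module.finrank ℚ K) hp'.1
      rw [← hSn]
      exact Ideal.absNorm_dvd_absNorm_of_le hp'.2
    have hle : q ^ P.card ≤ q ^ Module.finrank ℚ K :=
      hge.trans (hnp ▸ Nat.le_of_dvd (pow_pos hq.pos _) hnd)
    exact (Nat.pow_le_pow_iff_right hq.one_lt).1 hle
  -- facts on ideals of norm q^e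
  have hI0 : ∀ I : Ideal (𝓞 K), absNorm I = q ^ e → I ≠ ⊥ := by
    intro I hI h0
    rw [h0, Ideal.absNorm_bot] at hI
    exact (pow_ne_zero e hq.ne_zero) hI.symm
  have hsupp : ∀ I : Ideal (𝓞 K), absNorm I = q ^ e →
      ∀ p ∈ UniqueFactorizationMonoid.normalizedFactors I, p ∈ P := by
    intro I hI p hp
    have hp' := (Ideal.mem_normalizedFactors_iff (hI0 I hI)).1 hp
    rw [hPmem]
    refine ⟨hp'.1, ?_⟩
    rw [Ideal.span_singleton_le_iff_mem]
    have h1 : ((q : 𝓞 K)) ^ e ∈ p := by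
      have h2 := hp'.2 (Ideal.absNorm_mem I)
      rw [hI] at h2
      simpa using h2
    exact hp'.1.mem_of_pow_mem e h1
  have hcount : ∀ I : Ideal (𝓞 K), absNorm I = q ^ e → ∀ p : Ideal (𝓞 K),
      (UniqueFactorizationMonoid.normalizedFactors I).count p < e + 1 := by
    intro I hI p
    by_cases hp : p ∈ UniqueFactorizationMonoid.normalizedFactors I
    · have hp' := (Ideal.mem_normalizedFactors_iff (hI0 I hI)).1 hp
      set c := (UniqueFactorizationMonoid.normalizedFactors I).count p with hc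
      have h1 : p ^ c ∣ I := by
        have h2 : (Multiset.replicate c p).prod ∣
            (UniqueFactorizationMonoid.normalizedFactors I).prod :=
          Multiset.prod_dvd_prod_of_le (Multiset.le_count_iff_replicate_le.1 le_rfl)
        rwa [Multiset.prod_replicate, Ideal.prod_normalizedFactors_eq_self (hI0 I hI)] at h2
      have h3 : absNorm p ^ c ∣ q ^ e := by
        rw [← hI, ← map_pow]
        exact map_dvd absNorm h1
      have h4 : q ≤ absNorm p := by
        apply hnorm p e hp'.1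
        rw [← hI]
        exact Ideal.absNorm_dvd_absNorm_of_le hp'.2
      have h5 : q ^ c ≤ q ^ e :=
        (Nat.pow_le_pow_left h4 c).trans (Nat.le_of_dvd (pow_pos hq.pos _) h3)
      have h6 := (Nat.pow_le_pow_iff_right hq.one_lt).1 h5
      omega
    · rw [Multiset.count_eq_zero_of_notMem hp]
      omega
  let F : {I : Ideal (𝓞 K) // absNorm I = q ^ e} → (P → Fin (e + 1)) :=
    fun I p => ⟨(UniqueFactorizationMonoid.normalizedFactors I.1).count p.1, hcount I.1 I.2 p.1⟩
  have hF : Function.Injective F := by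
    intro I J hIJ
    apply Subtype.ext
    have h1 : UniqueFactorizationMonoid.normalizedFactors I.1 =
        UniqueFactorizationMonoid.normalizedFactors J.1 := by
      ext p
      by_cases hp : p ∈ P
      · have h2 := congrFun hIJ ⟨p, hp⟩
        have h3 := congrArg Fin.val h2
        exact h3
      · rw [Multiset.count_eq_zero_of_notMem (fun h => hp (hsupp I.1 I.2 p h)),
          Multiset.count_eq_zero_of_notMem (fun h => hp (hsupp J.1 J.2 p h))]
    rw [← Ideal.prod_normalizedFactors_eq_self (hI0 I.1 I.2), h1,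
      Ideal.prod_normalizedFactors_eq_self (hI0 J.1 J.2)]
  unfold idealCount
  calc Nat.card {I : Ideal (𝓞 K) // absNorm I = q ^ e} ≤ Nat.card (P → Fin (e + 1)) :=
        Nat.card_le_card_of_injective F hF
    _ = (e + 1) ^ P.card := by simp
    _ ≤ (e + 1) ^ Module.finrank ℚ K := Nat.pow_le_pow_right (Nat.succ_pos e) hPcard

end Pool.Agent.Lib.MP_89bcae_ag.Re

end

section

open NumberField Ideal Filter Topology

namespace Pool.Agent.Lib.MP_89bcae_ag.Re

/-- The average number of ideals of given norm. -/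
private theorem N04a_lim (K : Type*) [Field K] [NumberField K] :
    Tendsto (fun n : ℕ => (∑ k ∈ Finset.Icc 1 n, (idealCount K k : ℝ)) / n) atTop
      (𝓝 (dedekindZeta_residue K)) := by
  refine ((Ideal.tendsto_norm_le_div_atTop₀ K).comp tendsto_natCast_atTop_atTop).congr fun n ↦ ?_
  simp only [Function.comp_apply, Nat.cast_le, ← Nat.cast_sum, idealCount]
  congr
  rw [← add_left_inj 1, ← card_norm_le_eq_card_norm_le_add_one,
    show Finset.Icc 1 n = Finset.Ioc 0 n from Finset.Icc_succ_left_eq_Ioc _ _,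
    show 1 = Nat.card {I : Ideal (𝓞 K) // absNorm I = 0} by simp [Ideal.absNorm_eq_zero_iff],
    Finset.sum_Ioc_add_eq_sum_Icc (n.zero_le),
    ← Finset.card_preimage_eq_sum_card_image_eq (fun k _ ↦ finite_setOfPred_absNorm_eq k)]
  simp [Set.coe_eq_subtype]

private theorem N04a_bigO (K : Type*) [Field K] [NumberField K] :
    (fun n : ℕ => ∑ k ∈ Finset.Icc 1 n, (idealCount K k : ℝ)) =O[atTop] fun n : ℕ => (n : ℝ) ^ (1 : ℝ) := by
  have h1 : (fun n : ℕ => ∑ k ∈ Finset.Icc 1 n, (idealCount K k : ℝ)) =O[atTop] fun n : ℕ => (n : ℝ) := by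
    refine Asymptotics.isBigO_of_div_tendsto_nhds ?_ (dedekindZeta_residue K) (N04a_lim K)
    filter_upwards [eventually_gt_atTop 0] with n hn h
    exact absurd h (Nat.cast_ne_zero.2 hn.ne')
  simpa only [Real.rpow_one] using h1

/-- Proof: the partial sums of `idealCount K` are `O(n)`
(`NumberField.Ideal.tendsto_norm_le_div_atTop₀`; see the proof of
`NumberField.tendsto_sub_one_mul_dedekindZeta_nhdsGT` in Mathlib, file
`NumberTheory/NumberField/DedekindZeta`), so the series converges for `s > 1`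
(`LSeriesSummable_of_sum_norm_bigO` or a similar lemma of `NumberTheory/LSeries/SumCoeff`); pass to
real numbers with `LSeriesSummable`, `LSeries.norm_term_eq` and the like (the term at `n = 0` is
zero on both sides because `0 ^ (-s) = 0`). -/
theorem zetaR_summable (K : Type*) [Field K] [NumberField K] {s : ℝ} (hs : 1 < s) :
    Summable fun n : ℕ => (idealCount K n : ℝ) * (n : ℝ) ^ (-s) := by
  have h := LSeriesSummable_of_sum_norm_bigO_and_nonneg (s := (s : ℂ)) (N04a_bigO K)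
    (fun n => Nat.cast_nonneg _) zero_le_one (by rwa [Complex.ofReal_re])
  refine h.norm.congr fun n => ?_
  rw [LSeries.norm_term_eq, Complex.ofReal_re]
  split_ifs with hn
  · rw [hn, Nat.cast_zero, Real.zero_rpow (by linarith), mul_zero]
  · rw [Real.rpow_neg (Nat.cast_nonneg n), Complex.norm_real, Real.norm_of_nonneg (Nat.cast_nonneg _), div_eq_mul_inv]

private theorem zetaR_ofReal (K : Type*) [Field K] [NumberField K] {s : ℝ} (hs : s ≠ 0) :
    dedekindZeta K s = ((zetaR K s : ℝ) : ℂ) := by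
  unfold dedekindZeta LSeries zetaR
  rw [Complex.ofReal_tsum]
  refine tsum_congr fun n => ?_
  rcases Nat.eq_zero_or_pos n with hn | hn
  · subst hn
    rw [LSeries.term_zero, Nat.cast_zero, Real.zero_rpow (neg_ne_zero.2 hs), mul_zero, Complex.ofReal_zero]
  · rw [LSeries.term_of_ne_zero hn.ne', Complex.ofReal_mul, Complex.ofReal_natCast,
      Complex.ofReal_cpow (Nat.cast_nonneg n), Complex.ofReal_natCast, Complex.ofReal_neg, Complex.cpow_neg, div_eq_mul_inv]
    rfl

/-- Proof: for real `s` the number `dedekindZeta K s` is the real number `zetaR K s` (for all `s`, the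
terms agree: `LSeries.term`, `Complex.ofReal_cpow`, the term at `n = 0` is zero on both sides for
`s ≠ 0`, `Complex.ofReal_tsum`), and `tendsto_sub_one_mul_dedekindZeta_nhdsGT`. -/
theorem zetaR_tendsto (K : Type*) [Field K] [NumberField K] :
    Tendsto (fun s : ℝ => (s - 1) * zetaR K s) (𝓝[>] 1) (𝓝 (dedekindZeta_residue K)) := by
  have h := tendsto_sub_one_mul_dedekindZeta_nhdsGT K
  have h2 := (Complex.continuous_re.tendsto _).comp h
  rw [Complex.ofReal_re] at h2
  refine h2.congr' ?_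
  filter_upwards [self_mem_nhdsWithin] with s hs
  have hs1 : (1 : ℝ) < s := hs
  have hs0 : s ≠ 0 := by
    intro h0
    rw [h0] at hs1
    exact absurd hs1 (by norm_num)
  rw [Function.comp_apply, zetaR_ofReal K hs0]
  have h3 : ((s : ℂ) - 1) * ((zetaR K s : ℝ) : ℂ) = (((s - 1) * zetaR K s : ℝ) : ℂ) := by
    rw [Complex.ofReal_mul, Complex.ofReal_sub, Complex.ofReal_one]
  rw [h3, Complex.ofReal_re]

end Pool.Agent.Lib.MP_89bcae_ag.Re

end

section

open NumberField Ideal

namespace Pool.Agent.Lib.MP_89bcae_ag.Re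

/-- Proof: a ring homomorphism is determined by its restriction to a finite set of generators of the
`ℤ`-module `𝓞 K`; or it is determined by its kernel, see below. -/
theorem finite_ringHom (K : Type*) [Field K] [NumberField K] (q : ℕ) [Fact q.Prime] :
    Finite (𝓞 K →+* ZMod q) := by
  obtain ⟨s, hs⟩ := (inferInstance : Module.Finite ℤ (𝓞 K)).fg_top
  refine Finite.of_injective
    (fun (φ : 𝓞 K →+* ZMod q) => (fun x : (s : Set (𝓞 K)) => φ x.1)) ?_
  intro φ ψ h
  have h1 : φ.toAddMonoidHom.toIntLinearMap = ψ.toAddMonoidHom.toIntLinearMap := by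
    apply LinearMap.ext_on hs
    intro x hx
    exact congrFun h ⟨x, hx⟩
  ext x
  exact LinearMap.congr_fun h1 x

/-- A ring homomorphism to `ZMod q` is surjective. -/
theorem surj_of_ringHom {R : Type*} [CommRing R] (q : ℕ) [Fact q.Prime] (φ : R →+* ZMod q) :
    Function.Surjective φ := by
  intro x
  exact ⟨((ZMod.val x : ℕ) : R), by simp⟩

/-- The kernel of a ring homomorphism to `ZMod q` has norm `q`. -/
theorem absNorm_ker (K : Type*) [Field K] [NumberField K] (q : ℕ) [Fact q.Prime]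
    (φ : 𝓞 K →+* ZMod q) : absNorm (RingHom.ker φ) = q := by
  rw [Ideal.absNorm_apply, Submodule.cardQuot_apply]
  have e := RingHom.quotientKerEquivOfSurjective (surj_of_ringHom q φ)
  have h := Nat.card_congr e.toEquiv
  rw [Nat.card_zmod] at h
  exact h

/-- Proof: `φ ↦ ker φ` is a bijection from the ring homomorphisms to the ideals of norm `q`. The
homomorphism `φ` is surjective (`ZMod q` is generated by `1`), so the quotient by the kernel has
`q` elements (`Ideal.absNorm_apply`, `Submodule.cardQuot`). Injective: if `ker φ = ker ψ` then for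
each `x` there is an integer `n` with `φ x = n = φ n`, so `x - n ∈ ker φ = ker ψ` and `ψ x = n`.
Surjective: an ideal `I` of norm `q` is maximal or: the quotient ring has `q` elements, so it is
isomorphic to `ZMod q` (`ZMod.ringEquivOfPrime` or `ZMod.ringEquiv`), compose with the quotient map. -/
theorem idealCount_eq_card (K : Type*) [Field K] [NumberField K] (q : ℕ) [Fact q.Prime] :
    idealCount K q = Nat.card (𝓞 K →+* ZMod q) := by
  unfold idealCount
  symm
  refine Nat.card_eq_of_bijective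
    (fun φ : 𝓞 K →+* ZMod q => (⟨RingHom.ker φ, absNorm_ker K q φ⟩ :
      {I : Ideal (𝓞 K) // absNorm I = q})) ⟨?_, ?_⟩
  · intro φ ψ h
    have hk : RingHom.ker φ = RingHom.ker ψ := congrArg Subtype.val h
    ext x
    have h1 : x - ((ZMod.val (φ x) : ℕ) : 𝓞 K) ∈ RingHom.ker φ := by
      rw [RingHom.mem_ker]
      simp
    rw [hk, RingHom.mem_ker] at h1
    rw [map_sub, map_natCast, ZMod.natCast_rightInverse (φ x)] at h1
    exact (sub_eq_zero.mp h1).symm
  · rintro ⟨I, hI⟩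
    have hq : q.Prime := Fact.out
    rw [Ideal.absNorm_apply, Submodule.cardQuot_apply] at hI
    have hc : Nat.card (𝓞 K ⧸ I) = q := hI
    have : Finite (𝓞 K ⧸ I) := Nat.finite_of_card_ne_zero (by rw [hc]; exact hq.ne_zero)
    let _ : Fintype (𝓞 K ⧸ I) := Fintype.ofFinite _
    have hF : Fintype.card (𝓞 K ⧸ I) = q := by
      rw [← Nat.card_eq_fintype_card]; exact hc
    let e := ZMod.ringEquivOfPrime (𝓞 K ⧸ I) hq hF
    refine ⟨(e.symm : (𝓞 K ⧸ I) →+* ZMod q).comp (Ideal.Quotient.mk I), ?_⟩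
    apply Subtype.ext
    ext x
    simp only [RingHom.mem_ker, RingHom.comp_apply, RingHom.coe_coe]
    rw [map_eq_zero_iff e.symm e.symm.injective, Ideal.Quotient.eq_zero_iff_mem]

end Pool.Agent.Lib.MP_89bcae_ag.Re

end

section

/-!
ROW A03 (150-300 lines). The abstract eigenvector theorem.

Setting: `H` abelian group with an endomorphism `Z`, `∑_{i<ℓ} Z^i = 0`, and an action of a group `G`
commuting with `Z`; `p = 1 - Z` is injective and `⋂ p^n H = 0`; `e : H → (ι → ZMod ℓ)`, `ι` finite,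
additive with kernel `p H`; `e (u • x) = e x`; each `u` has finite order on each `x`; `H ≠ 0`.
CONCLUSION: there are `x` with `e x ≠ 0` and `a : G → ZMod ℓ` such that for all `u`:
`u • x - x = p y` implies `e y = a u • e x`.

PROOF. For `u` in `G` and `x` in `H`, `e (u x - x) = 0`, so `u x - x = p (N_u x)` for a unique
`N_u x`; `N_u` is an endomorphism of `H` commuting with `Z`.
(a) The subring `B` of `End H` generated by `Z` and `N_u` is commutative; `fst_case` in `B`
(`W = 1 + p N_u` = action of `u`, of finite order on `x`) gives `(N_u^ℓ - N_u) x ∈ p H`, so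
`e (N_u^ℓ x) = e (N_u x)`.
(b) For `u`, `u'` let `c = u u' u⁻¹ u'⁻¹` and `Y = [N_u, N_{u'}] (u' u)⁻¹` in `End H` : `p² [N_u, N_{u'}] =
u u' - u' u` (as operators) `= (c - 1) u' u`, so `c = 1 + p² Y` as an operator; `Y` commutes with
`Z`; `B` generated by `Z` and `Y`; `c` has finite order on each `x`, so `Y x = 0` by `sq_case` for
all `x`: `N_u N_{u'} = N_{u'} N_u`.
(c) `V = e(H)` (a finite `ZMod ℓ`-module, the range of `e`), `n_u : V → V` induced by `N_u`
(`N_u p H ⊆ p H`). They commute and `n_u^ℓ = n_u`. `V ≠ 0`: otherwise `H = p H`, so every element is in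
`⋂ p^n H = 0`. Apply `exists_common_eigenvector`.
-/

open Polynomial

namespace Pool.Agent.Lib.MP_89bcae_ag.Sup

section A03

variable {ℓ : ℕ} {H : Type*} [AddCommGroup H]

private lemma A03_comm {z Y : Module.End ℤ H} (hc : z * Y = Y * z) :
    ∀ a ∈ ({z, Y} : Set (Module.End ℤ H)), ∀ b ∈ ({z, Y} : Set (Module.End ℤ H)),
      a * b = b * a := by
  rintro a (rfl | rfl) b (rfl | rfl)
  · rfl
  · exact hc
  · exact hc.symm
  · rfl

private lemma A03_sq (hℓ : ℓ.Prime) (z Y : Module.End ℤ H) (hc : z * Y = Y * z)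
    (hz : ∑ i ∈ Finset.range ℓ, z ^ i = 0) (hinj : ∀ x : H, (1 - z) x = 0 → x = 0)
    (hsep : ∀ x : H, (∀ n : ℕ, ∃ y : H, x = ((1 - z) ^ n) y) → x = 0)
    (x : H) (M : ℕ) (hM : 0 < M)
    (hx : ((1 + (1 - z) ^ 2 * Y) ^ M : Module.End ℤ H) x = x) : Y x = 0 := by
  letI instB : CommRing (Algebra.adjoin ℤ ({z, Y} : Set (Module.End ℤ H))) :=
    { (inferInstance : Ring (Algebra.adjoin ℤ ({z, Y} : Set (Module.End ℤ H)))) with
      mul_comm := (Algebra.isMulCommutative_adjoin ℤ (A03_comm hc)).is_comm.comm }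
  let zB : Algebra.adjoin ℤ ({z, Y} : Set (Module.End ℤ H)) :=
    ⟨z, Algebra.subset_adjoin (Or.inl rfl)⟩
  let YB : Algebra.adjoin ℤ ({z, Y} : Set (Module.End ℤ H)) :=
    ⟨Y, Algebra.subset_adjoin (Or.inr rfl)⟩
  have hzB : ∑ i ∈ Finset.range ℓ, zB ^ i = 0 := by
    apply Subtype.ext
    push_cast
    exact hz
  exact sq_case (B := Algebra.adjoin ℤ ({z, Y} : Set (Module.End ℤ H))) (H := H) hℓ zB hzB
    (fun x hx => hinj x hx) (fun x hx => hsep x hx) YB x M hM hx

private lemma A03_fst (hℓ : ℓ.Prime) (z N : Module.End ℤ H) (hc : z * N = N * z)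
    (hz : ∑ i ∈ Finset.range ℓ, z ^ i = 0) (hinj : ∀ x : H, (1 - z) x = 0 → x = 0)
    (hsep : ∀ x : H, (∀ n : ℕ, ∃ y : H, x = ((1 - z) ^ n) y) → x = 0)
    (x : H) (M : ℕ) (hM : 0 < M)
    (hx : ((1 + (1 - z) * N) ^ M : Module.End ℤ H) x = x) :
    ∃ y : H, (N ^ ℓ - N) x = (1 - z) y := by
  letI instB : CommRing (Algebra.adjoin ℤ ({z, N} : Set (Module.End ℤ H))) :=
    { (inferInstance : Ring (Algebra.adjoin ℤ ({z, N} : Set (Module.End ℤ H)))) with
      mul_comm := (Algebra.isMulCommutative_adjoin ℤ (A03_comm hc)).is_comm.comm }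
  let zB : Algebra.adjoin ℤ ({z, N} : Set (Module.End ℤ H)) :=
    ⟨z, Algebra.subset_adjoin (Or.inl rfl)⟩
  let NB : Algebra.adjoin ℤ ({z, N} : Set (Module.End ℤ H)) :=
    ⟨N, Algebra.subset_adjoin (Or.inr rfl)⟩
  have hzB : ∑ i ∈ Finset.range ℓ, zB ^ i = 0 := by
    apply Subtype.ext
    push_cast
    exact hz
  exact fst_case (B := Algebra.adjoin ℤ ({z, N} : Set (Module.End ℤ H))) (H := H) hℓ zB hzB
    (fun x hx => hinj x hx) (fun x hx => hsep x hx) NB x M hM hx

end A03

theorem exists_eigen {ℓ : ℕ} [Fact ℓ.Prime] {H G ι : Type*} [AddCommGroup H] [Group G]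
    [DistribMulAction G H] [Finite ι] (Z : H →+ H)
    (hZ : ∀ x, ∑ i ∈ Finset.range ℓ, Z^[i] x = 0) (hZG : ∀ (u : G) x, Z (u • x) = u • Z x)
    (hinj : ∀ x, Z x = x → x = 0)
    (hsep : ∀ x : H, (∀ n : ℕ, ∃ y : H, x = (fun h => h - Z h)^[n] y) → x = 0)
    (e : H →+ (ι → ZMod ℓ)) (he : ∀ x, e x = 0 ↔ ∃ y, x = y - Z y)
    (hGe : ∀ (u : G) x, e (u • x) = e x)
    (hfin : ∀ (u : G) (x : H), ∃ M : ℕ, 0 < M ∧ u ^ M • x = x) (hne : ∃ x : H, x ≠ 0) :
    ∃ x : H, e x ≠ 0 ∧ ∃ a : G → ZMod ℓ, ∀ u y, u • x - x = y - Z y → e y = a u • e x := by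
  classical
  have hℓ : ℓ.Prime := Fact.out
  set z : Module.End ℤ H := Z.toIntLinearMap with hz_def
  have z_apply : ∀ x, z x = Z x := fun x => rfl
  have hz : ∑ i ∈ Finset.range ℓ, z ^ i = 0 := by
    ext x
    rw [LinearMap.sum_apply, LinearMap.zero_apply, ← hZ x]
    refine Finset.sum_congr rfl fun i _ => ?_
    rw [Module.End.pow_apply]
    rfl
  have p_apply : ∀ x, (1 - z) x = x - Z x := fun x => rfl
  have hinj' : ∀ x : H, (1 - z) x = 0 → x = 0 := fun x hx => by
    rw [p_apply, sub_eq_zero] at hx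
    exact hinj x hx.symm
  have hsep' : ∀ x : H, (∀ n : ℕ, ∃ y : H, x = ((1 - z) ^ n) y) → x = 0 := fun x hx => by
    refine hsep x fun n => ?_
    obtain ⟨y, hy⟩ := hx n
    refine ⟨y, ?_⟩
    rw [hy, Module.End.pow_apply]
    rfl
  -- injectivity of p in the form of cancellation
  have pcancel : ∀ x y : H, x - Z x = y - Z y → x = y := fun x y h => by
    have : (1 - z) (x - y) = 0 := by
      rw [p_apply, map_sub]
      have : x - y - (Z x - Z y) = (x - Z x) - (y - Z y) := by abel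
      rw [this, h, sub_self]
    exact sub_eq_zero.1 (hinj' _ this)
  have hex : ∀ (u : G) (x : H), ∃ y, u • x - x = y - Z y := fun u x => by
    rw [← he, map_sub, hGe, sub_self]
  choose N0 hN0 using hex
  have hN0u : ∀ (u : G) (x y : H), u • x - x = y - Z y → y = N0 u x := fun u x y h =>
    pcancel _ _ (by rw [← h, hN0])
  let N : G → Module.End ℤ H := fun u => AddMonoidHom.toIntLinearMap
    { toFun := N0 u
      map_zero' := ((hN0u u 0 0 (by simp)).symm)
      map_add' := fun x y => (hN0u u (x + y) (N0 u x + N0 u y) (by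
        rw [smul_add, map_add]
        have h1 := hN0 u x
        have h2 := hN0 u y
        have : u • x + u • y - (x + y) = (u • x - x) + (u • y - y) := by abel
        rw [this, h1, h2]
        abel)).symm }
  have N_apply : ∀ u x, u • x - x = N u x - Z (N u x) := fun u x => hN0 u x
  have N_uniq : ∀ u x y, u • x - x = y - Z y → y = N u x := fun u x y h => hN0u u x y h
  let U : G → Module.End ℤ H := fun u => (DistribSMul.toAddMonoidHom H u).toIntLinearMap
  have U_apply : ∀ u x, U u x = u • x := fun u x => rfl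
  have U_mul : ∀ u v, U (u * v) = U u * U v := fun u v => by
    ext x
    change (u * v) • x = u • (v • x)
    rw [mul_smul]
  have U_one : U 1 = 1 := by
    ext x
    change (1 : G) • x = x
    rw [one_smul]
  have U_pow : ∀ u (M : ℕ), U u ^ M = U (u ^ M) := fun u M => by
    induction M with
    | zero => rw [pow_zero, pow_zero, U_one]
    | succ M ih => rw [pow_succ, pow_succ, U_mul, ih]
  have U_eq : ∀ u, U u = 1 + (1 - z) * N u := fun u => by
    ext x
    change u • x = x + (N u x - Z (N u x))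
    rw [← N_apply]
    abel
  have zU : ∀ u, z * U u = U u * z := fun u => by
    ext x
    exact hZG u x
  have zN : ∀ u, z * N u = N u * z := fun u => by
    ext x
    change Z (N u x) = N u (Z x)
    apply N_uniq
    rw [← hZG, ← map_sub, N_apply, map_sub]
  have hp_N : ∀ u, (1 - z) * N u = N u * (1 - z) := fun u => by
    rw [sub_mul, mul_sub, one_mul, mul_one, zN]
  have hpe : ∀ y, e ((1 - z) y) = 0 := fun y => (he _).2 ⟨y, rfl⟩
  -- (a)
  have hA : ∀ u x, e ((N u ^ ℓ) x) = e (N u x) := by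
    intro u x
    obtain ⟨M, hM, hMx⟩ := hfin u x
    obtain ⟨y, hy⟩ := A03_fst hℓ z (N u) (zN u) hz hinj' hsep' x M hM (by
      rw [← U_eq, U_pow, U_apply, hMx])
    have h1 := hpe y
    rw [← hy, LinearMap.sub_apply, map_sub, sub_eq_zero] at h1
    exact h1
  -- (b)
  have hB : ∀ u v, N u * N v = N v * N u := by
    intro u v
    set D : Module.End ℤ H := N u * N v - N v * N u with hD
    set Y : Module.End ℤ H := D * U (v * u)⁻¹ with hY
    have zD : z * D = D * z := by
      rw [hD, mul_sub, sub_mul, ← mul_assoc, ← mul_assoc, zN, zN, mul_assoc, mul_assoc, mul_assoc,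
        mul_assoc, zN, zN]
    have zY : z * Y = Y * z := by
      rw [hY, ← mul_assoc, zD, mul_assoc, mul_assoc, zU]
    have hUv : U (v * u)⁻¹ * U (v * u) = 1 := by rw [← U_mul, inv_mul_cancel, U_one]
    have hUv' : U (v * u) * U (v * u)⁻¹ = 1 := by rw [← U_mul, mul_inv_cancel, U_one]
    have h1 : (1 - z) ^ 2 * D = U (u * v) - U (v * u) := by
      have e1 : U (u * v) = (1 + (1 - z) * N u) * (1 + (1 - z) * N v) := by
        rw [U_mul, U_eq u, U_eq v]
      have e2 : U (v * u) = (1 + (1 - z) * N v) * (1 + (1 - z) * N u) := by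
        rw [U_mul, U_eq u, U_eq v]
      have e3 : (1 - z) * N u * ((1 - z) * N v) = (1 - z) ^ 2 * (N u * N v) := by
        rw [mul_assoc, ← mul_assoc (N u), ← hp_N, pow_two, mul_assoc, mul_assoc]
      have e4 : (1 - z) * N v * ((1 - z) * N u) = (1 - z) ^ 2 * (N v * N u) := by
        rw [mul_assoc, ← mul_assoc (N v), ← hp_N, pow_two, mul_assoc, mul_assoc]
      rw [e1, e2, hD, mul_sub, add_mul, add_mul, mul_add, mul_add, mul_add, mul_add, e3, e4]
      simp only [one_mul, mul_one]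
      abel
    set c : G := (u * v) * (v * u)⁻¹ with hc
    have h2 : 1 + (1 - z) ^ 2 * Y = U c := by
      rw [hY, ← mul_assoc, h1, sub_mul, hUv', ← U_mul]
      abel
    have h3 : ∀ x, Y x = 0 := by
      intro x
      obtain ⟨M, hM, hMx⟩ := hfin c x
      exact A03_sq hℓ z Y zY hz hinj' hsep' x M hM (by rw [h2, U_pow, U_apply, hMx])
    have h4 : Y = 0 := LinearMap.ext h3
    have h5 : D = 0 := by
      calc D = D * (U (v * u)⁻¹ * U (v * u)) := by rw [hUv, mul_one]
        _ = Y * U (v * u) := by rw [hY, mul_assoc]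
        _ = 0 := by rw [h4, zero_mul]
    exact sub_eq_zero.1 h5
  -- (c)
  let V : Submodule (ZMod ℓ) (ι → ZMod ℓ) := AddSubgroup.toZModSubmodule ℓ e.range
  let e' : H →+ V := e.rangeRestrict
  have he'v : ∀ x, ((e' x : V) : ι → ZMod ℓ) = e x := fun x => rfl
  have hsurj : Function.Surjective e' := e.rangeRestrict_surjective
  have hker : ∀ x, e' x = 0 ↔ e x = 0 := fun x => by
    rw [← he'v]
    exact ⟨fun h => by rw [h]; rfl, fun h => Subtype.ext h⟩
  have hwd : ∀ u, e'.ker ≤ (e'.comp (N u).toAddMonoidHom).ker := by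
    intro u x hx
    rw [AddMonoidHom.mem_ker, hker, he] at hx
    obtain ⟨y, rfl⟩ := hx
    rw [AddMonoidHom.mem_ker, AddMonoidHom.comp_apply, hker]
    have : (N u).toAddMonoidHom (y - Z y) = (1 - z) (N u y) := by
      change (N u * (1 - z)) y = ((1 - z) * N u) y
      rw [hp_N]
    rw [this]
    exact hpe _
  let n0 : G → V →+ V := fun u => (AddMonoidHom.liftOfSurjective e' hsurj) ⟨_, hwd u⟩
  have hn0 : ∀ u x, n0 u (e' x) = e' (N u x) := fun u x =>
    AddMonoidHom.liftOfRightInverse_comp_apply e' _ _ ⟨_, hwd u⟩ x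
  let n : G → V →ₗ[ZMod ℓ] V := fun u => (n0 u).toZModLinearMap ℓ
  have hn : ∀ u x, n u (e' x) = e' (N u x) := fun u x => hn0 u x
  have hncomm : ∀ u v, n u * n v = n v * n u := by
    intro u v
    ext1 w
    obtain ⟨x, rfl⟩ := hsurj w
    change n u (n v (e' x)) = n v (n u (e' x))
    rw [hn, hn, hn, hn]
    have := LinearMap.congr_fun (hB u v) x
    exact congrArg e' this
  have hnpow_apply : ∀ u (k : ℕ) x, (n u ^ k) (e' x) = e' ((N u ^ k) x) := by
    intro u k
    induction k with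
    | zero => intro x; rw [pow_zero, pow_zero]; rfl
    | succ k ih =>
      intro x
      rw [pow_succ, pow_succ]
      change (n u ^ k) (n u (e' x)) = e' ((N u ^ k) (N u x))
      rw [hn, ih]
  have hnpow : ∀ u, n u ^ ℓ = n u := by
    intro u
    ext1 w
    obtain ⟨x, rfl⟩ := hsurj w
    rw [hnpow_apply, hn]
    apply Subtype.ext
    exact hA u x
  have hVne : ∃ w : V, w ≠ 0 := by
    by_contra hcon
    push Not at hcon
    obtain ⟨x, hx⟩ := hne
    apply hx
    have hall : ∀ y : H, ∃ y', y = (1 - z) y' := fun y => (he y).1 ((hker y).1 (hcon (e' y)))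
    refine hsep' x fun k => ?_
    induction k with
    | zero => exact ⟨x, by rw [pow_zero]; rfl⟩
    | succ k ih =>
      obtain ⟨y, hy⟩ := ih
      obtain ⟨y', hy'⟩ := hall y
      refine ⟨y', ?_⟩
      rw [pow_succ]
      change x = ((1 - z) ^ k) ((1 - z) y')
      rw [← hy']
      exact hy
  obtain ⟨w, hw0, a, ha⟩ := exists_common_eigenvector n hncomm hnpow hVne
  obtain ⟨x, rfl⟩ := hsurj w
  refine ⟨x, fun h => hw0 ((hker x).2 h), a, fun u y hy => ?_⟩
  have h1 := N_uniq u x y hy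
  have h2 := ha u
  rw [hn] at h2
  have h3 := congrArg (Subtype.val) h2
  rw [h1]
  exact h3

end Pool.Agent.Lib.MP_89bcae_ag.Sup

end

section

/-!
ROW A04 (100-200 lines). The eigenvector theorem for a subquotient.

PROOF. Apply `exists_eigen` (A03) to `H = W ⧸ T` (`T.addSubgroupOf W`), with the action of `G` and the
endomorphism `Z` induced. `e` is given on `W` as a relation `E c ε` (`ε : ι → ZMod ℓ`): it is total on
`W`, additive, and `E c ε` with `c ∈ T` implies `ε = 0`; so it defines a homomorphism `W → (ι → ZMod ℓ)`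
(`ε` is unique: the difference of two values for `c` is a value for `0 ∈ T`), which factors through
`W ⧸ T`. Its kernel is `p (W ⧸ T)` by `hker` and `hZE`.
-/

namespace Pool.Agent.Lib.MP_89bcae_ag.Sup

theorem exists_eigen_sub {ℓ : ℕ} [Fact ℓ.Prime] {C G ι : Type*} [AddCommGroup C] [Group G]
    [DistribMulAction G C] [Finite ι] (W T : AddSubgroup C) (Z : C →+ C) (hTW : T ≤ W)
    (hZW : ∀ c ∈ W, Z c ∈ W) (hZT : ∀ c ∈ T, Z c ∈ T) (hGW : ∀ (u : G), ∀ c ∈ W, u • c ∈ W)
    (hGT : ∀ (u : G), ∀ c ∈ T, u • c ∈ T)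
    (hZ : ∀ c ∈ W, ∑ i ∈ Finset.range ℓ, Z^[i] c ∈ T)
    (hZG : ∀ (u : G), ∀ c ∈ W, Z (u • c) - u • Z c ∈ T)
    (hinj : ∀ c ∈ W, c - Z c ∈ T → c ∈ T)
    (hsep : ∀ c ∈ W, (∀ n : ℕ, ∃ y ∈ W, c - (fun h => h - Z h)^[n] y ∈ T) → c ∈ T)
    (E : C → (ι → ZMod ℓ) → Prop) (hE : ∀ c ∈ W, ∃ ε, E c ε)
    (hadd : ∀ c ∈ W, ∀ c' ∈ W, ∀ ε ε', E c ε → E c' ε' → E (c + c') (ε + ε'))
    (hneg : ∀ c ∈ W, ∀ ε, E c ε → E (-c) (-ε))
    (hET : ∀ c ∈ T, ∀ ε, E c ε → ε = 0)
    (hZE : ∀ c ∈ W, ∀ ε, E c ε → E (Z c) ε)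
    (hker : ∀ c ∈ W, E c 0 → ∃ y ∈ W, c - (y - Z y) ∈ T)
    (hGE : ∀ (u : G), ∀ c ∈ W, ∀ ε, E c ε → E (u • c) ε)
    (hfin : ∀ (u : G), ∀ c ∈ W, ∃ M : ℕ, 0 < M ∧ u ^ M • c - c ∈ T)
    (hne : ¬ W ≤ T) :
    ∃ c ∈ W, ∃ ε, E c ε ∧ ε ≠ 0 ∧ ∃ a : G → ZMod ℓ, ∀ u, ∀ y ∈ W, ∀ ε',
      u • c - c - (y - Z y) ∈ T → E y ε' → ε' = a u • ε := by
  classical
  -- uniqueness of values
  have huniq : ∀ c ∈ W, ∀ ε ε', E c ε → E c ε' → ε = ε' := by
    intro c hc ε ε' h h'
    have h1 := hadd c hc (-c) (W.neg_mem hc) ε (-ε') h (hneg c hc ε' h')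
    rw [add_neg_cancel] at h1
    have h2 := hET 0 T.zero_mem _ h1
    rwa [← sub_eq_add_neg, sub_eq_zero] at h2
  -- the quotient
  let T' : AddSubgroup W := T.addSubgroupOf W
  have memT' : ∀ w : W, w ∈ T' ↔ (w : C) ∈ T := fun w => AddSubgroup.mem_addSubgroupOf
  let mk : W →+ W ⧸ T' := QuotientAddGroup.mk' T'
  have mk_surj : Function.Surjective mk := QuotientAddGroup.mk'_surjective T'
  have mk_eq : ∀ a b : W, mk a = mk b ↔ (a : C) - b ∈ T := by
    intro a b
    rw [← sub_eq_zero, ← map_sub]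
    change (QuotientAddGroup.mk (a - b) : W ⧸ T') = 0 ↔ _
    rw [QuotientAddGroup.eq_zero_iff, memT']
    rfl
  -- induced endomorphism
  let ZW : W →+ W := (Z.comp W.subtype).codRestrict W fun c => hZW c c.2
  have ZW_coe : ∀ w : W, (ZW w : C) = Z w := fun w => rfl
  let Zb : W ⧸ T' →+ W ⧸ T' := QuotientAddGroup.map T' T' ZW fun w hw => by
    rw [AddSubgroup.mem_comap, memT', ZW_coe]
    exact hZT _ ((memT' w).1 hw)
  have Zb_mk : ∀ w, Zb (mk w) = mk (ZW w) := fun w => rfl
  -- induced action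
  let φ : G → W →+ W := fun u =>
    ((DistribSMul.toAddMonoidHom C u).comp W.subtype).codRestrict W fun c => hGW u c c.2
  have φ_coe : ∀ u (w : W), (φ u w : C) = u • (w : C) := fun u w => rfl
  let ψ : G → W ⧸ T' →+ W ⧸ T' := fun u => QuotientAddGroup.map T' T' (φ u) fun w hw => by
    rw [AddSubgroup.mem_comap, memT', φ_coe]
    exact hGT u _ ((memT' w).1 hw)
  have ψ_mk : ∀ u w, ψ u (mk w) = mk (φ u w) := fun u w => rfl
  letI act : DistribMulAction G (W ⧸ T') :=
    { smul := fun u q => ψ u q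
      one_smul := fun q => by
        obtain ⟨w, rfl⟩ := mk_surj q
        change ψ 1 (mk w) = mk w
        rw [ψ_mk]
        congr 1
        apply Subtype.ext
        rw [φ_coe, one_smul]
      mul_smul := fun u v q => by
        obtain ⟨w, rfl⟩ := mk_surj q
        change ψ (u * v) (mk w) = ψ u (ψ v (mk w))
        rw [ψ_mk, ψ_mk, ψ_mk]
        congr 1
        apply Subtype.ext
        rw [φ_coe, φ_coe, φ_coe, mul_smul]
      smul_zero := fun u => map_zero (ψ u)
      smul_add := fun u x y => map_add (ψ u) x y }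
  have smul_mk : ∀ (u : G) (w : W), u • (mk w) = mk (φ u w) := fun u w => rfl
  -- the homomorphism e
  have hex : ∀ w : W, ∃ ε, E w ε := fun w => hE w w.2
  choose ew hew using hex
  let eW : W →+ (ι → ZMod ℓ) :=
    { toFun := ew
      map_zero' := hET 0 T.zero_mem _ (hew 0)
      map_add' := fun a b => huniq (a + b : W) (a + b).2 _ _ (hew (a + b))
        (hadd a a.2 b b.2 _ _ (hew a) (hew b)) }
  have eW_spec : ∀ w : W, E w (eW w) := hew
  let e : W ⧸ T' →+ (ι → ZMod ℓ) := QuotientAddGroup.lift T' eW fun w hw =>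
    hET w ((memT' w).1 hw) _ (eW_spec w)
  have e_mk : ∀ w, e (mk w) = eW w := fun w => rfl
  have eW_uniq : ∀ (w : W) ε, E w ε → eW w = ε := fun w ε h => huniq w w.2 _ _ (eW_spec w) h
  -- iterates
  have it1 : ∀ (i : ℕ) (w : W), Zb^[i] (mk w) = mk (ZW^[i] w) := by
    intro i
    induction i with
    | zero => intro w; rfl
    | succ i ih => intro w; rw [Function.iterate_succ_apply, Function.iterate_succ_apply, Zb_mk, ih]
  have it2 : ∀ (i : ℕ) (w : W), ((ZW^[i] w : W) : C) = Z^[i] (w : C) := by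
    intro i
    induction i with
    | zero => intro w; rfl
    | succ i ih =>
      intro w
      rw [Function.iterate_succ_apply, Function.iterate_succ_apply, ih, ZW_coe]
  have it3 : ∀ (i : ℕ) (w : W), (fun h => h - Zb h)^[i] (mk w) = mk ((fun h => h - ZW h)^[i] w) := by
    intro i
    induction i with
    | zero => intro w; rfl
    | succ i ih =>
      intro w
      rw [Function.iterate_succ_apply, Function.iterate_succ_apply, Zb_mk, ← map_sub, ih]
  have it4 : ∀ (i : ℕ) (w : W), (((fun h => h - ZW h)^[i] w : W) : C) =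
      (fun h => h - Z h)^[i] (w : C) := by
    intro i
    induction i with
    | zero => intro w; rfl
    | succ i ih =>
      intro w
      rw [Function.iterate_succ_apply, Function.iterate_succ_apply, ih]
      rfl
  obtain ⟨q, hq0, a, ha⟩ := exists_eigen (ℓ := ℓ) (H := W ⧸ T') (G := G) (ι := ι) Zb
    (fun q => by
      obtain ⟨w, rfl⟩ := mk_surj q
      simp only [it1]
      rw [← map_sum, ← map_zero mk, mk_eq]
      have h1 := hZ w w.2
      rw [ZeroMemClass.coe_zero, sub_zero]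
      change W.subtype (∑ i ∈ Finset.range ℓ, ZW^[i] w) ∈ T
      rw [map_sum]
      simp only [AddSubgroup.subtype_apply, it2]
      exact h1)
    (fun u q => by
      obtain ⟨w, rfl⟩ := mk_surj q
      rw [smul_mk, Zb_mk, Zb_mk, smul_mk, mk_eq, ZW_coe, φ_coe, φ_coe, ZW_coe]
      exact hZG u w w.2)
    (fun q hq => by
      obtain ⟨w, rfl⟩ := mk_surj q
      rw [Zb_mk, mk_eq, ZW_coe] at hq
      rw [← map_zero mk, mk_eq, ZeroMemClass.coe_zero, sub_zero]
      refine hinj w w.2 ?_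
      have := T.neg_mem hq
      rwa [neg_sub] at this)
    (fun q hq => by
      obtain ⟨w, rfl⟩ := mk_surj q
      rw [← map_zero mk, mk_eq, ZeroMemClass.coe_zero, sub_zero]
      refine hsep w w.2 fun n => ?_
      obtain ⟨y, hy⟩ := hq n
      obtain ⟨y', rfl⟩ := mk_surj y
      rw [it3, mk_eq, it4] at hy
      exact ⟨y', y'.2, hy⟩)
    e
    (fun q => by
      obtain ⟨w, rfl⟩ := mk_surj q
      constructor
      · intro h
        rw [e_mk] at h
        have h1 := eW_spec w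
        rw [h] at h1
        obtain ⟨y, hy, hyT⟩ := hker w w.2 h1
        refine ⟨mk ⟨y, hy⟩, ?_⟩
        rw [Zb_mk, ← map_sub, mk_eq]
        exact hyT
      · rintro ⟨y, hy⟩
        obtain ⟨y', rfl⟩ := mk_surj y
        rw [hy, map_sub, Zb_mk, e_mk, e_mk, sub_eq_zero]
        exact (eW_uniq (ZW y') _ (hZE y' y'.2 _ (eW_spec y'))).symm)
    (fun u q => by
      obtain ⟨w, rfl⟩ := mk_surj q
      rw [smul_mk, e_mk, e_mk]
      exact eW_uniq (φ u w) _ (hGE u w w.2 _ (eW_spec w)))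
    (fun u q => by
      obtain ⟨w, rfl⟩ := mk_surj q
      obtain ⟨M, hM, hMT⟩ := hfin u w w.2
      refine ⟨M, hM, ?_⟩
      rw [smul_mk, mk_eq, φ_coe]
      exact hMT)
    (by
      obtain ⟨c, hcW, hcT⟩ := Set.not_subset.1 hne
      refine ⟨mk ⟨c, hcW⟩, fun h => hcT ?_⟩
      rw [← map_zero mk, mk_eq, ZeroMemClass.coe_zero, sub_zero] at h
      exact h)
  obtain ⟨w, rfl⟩ := mk_surj q
  rw [e_mk] at hq0
  refine ⟨w, w.2, eW w, eW_spec w, hq0, a, fun u y hy ε' hyT hyE => ?_⟩
  have h1 := ha u (mk ⟨y, hy⟩) (by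
    rw [smul_mk, Zb_mk, ← map_sub, ← map_sub, mk_eq]
    exact hyT)
  rw [e_mk, e_mk, eW_uniq ⟨y, hy⟩ ε' hyE] at h1
  exact h1

end Pool.Agent.Lib.MP_89bcae_ag.Sup

end

section

/-!
# The abstract argument with exponents in any finite vector space over `ℤ/ℓ`

`exists_eigen_sub` (`Sup/A04.lean`) with the target `ι → ZMod ℓ` of the exponents replaced by any
finite `ZMod ℓ`-module `V`; it follows by choosing a basis of `V`.
-/

namespace Pool.Agent.Lib.MP_89bcae_ag.Sup.Lns

theorem exists_eigen_sub {ℓ : ℕ} [Fact ℓ.Prime] {C G V : Type*} [AddCommGroup C] [Group G]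
    [DistribMulAction G C] [AddCommGroup V] [Module (ZMod ℓ) V] [Finite V]
    (W T : AddSubgroup C) (Z : C →+ C) (hTW : T ≤ W)
    (hZW : ∀ c ∈ W, Z c ∈ W) (hZT : ∀ c ∈ T, Z c ∈ T) (hGW : ∀ (u : G), ∀ c ∈ W, u • c ∈ W)
    (hGT : ∀ (u : G), ∀ c ∈ T, u • c ∈ T)
    (hZ : ∀ c ∈ W, ∑ i ∈ Finset.range ℓ, Z^[i] c ∈ T)
    (hZG : ∀ (u : G), ∀ c ∈ W, Z (u • c) - u • Z c ∈ T)
    (hinj : ∀ c ∈ W, c - Z c ∈ T → c ∈ T)
    (hsep : ∀ c ∈ W, (∀ n : ℕ, ∃ y ∈ W, c - (fun h => h - Z h)^[n] y ∈ T) → c ∈ T)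
    (E : C → V → Prop) (hE : ∀ c ∈ W, ∃ ε, E c ε)
    (hadd : ∀ c ∈ W, ∀ c' ∈ W, ∀ ε ε', E c ε → E c' ε' → E (c + c') (ε + ε'))
    (hneg : ∀ c ∈ W, ∀ ε, E c ε → E (-c) (-ε))
    (hET : ∀ c ∈ T, ∀ ε, E c ε → ε = 0)
    (hZE : ∀ c ∈ W, ∀ ε, E c ε → E (Z c) ε)
    (hker : ∀ c ∈ W, E c 0 → ∃ y ∈ W, c - (y - Z y) ∈ T)
    (hGE : ∀ (u : G), ∀ c ∈ W, ∀ ε, E c ε → E (u • c) ε)
    (hfin : ∀ (u : G), ∀ c ∈ W, ∃ M : ℕ, 0 < M ∧ u ^ M • c - c ∈ T)
    (hne : ¬ W ≤ T) :
    ∃ c ∈ W, ∃ ε, E c ε ∧ ε ≠ 0 ∧ ∃ a : G → ZMod ℓ, ∀ u, ∀ y ∈ W, ∀ ε',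
      u • c - c - (y - Z y) ∈ T → E y ε' → ε' = a u • ε := by
  have hfd : Module.Finite (ZMod ℓ) V := Module.Finite.of_finite
  set φ : V ≃ₗ[ZMod ℓ] (Fin (Module.finrank (ZMod ℓ) V) → ZMod ℓ) :=
    (Module.finBasis (ZMod ℓ) V).equivFun with hφ
  obtain ⟨c, hc, ε, hε, hε0, a, ha⟩ := Sup.exists_eigen_sub (ℓ := ℓ) (C := C) (G := G)
    (ι := Fin (Module.finrank (ZMod ℓ) V)) W T Z hTW hZW hZT hGW hGT hZ hZG hinj hsep
    (fun c ε => E c (φ.symm ε))
    (fun c hc => by
      obtain ⟨ε, hε⟩ := hE c hc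
      exact ⟨φ ε, by rw [φ.symm_apply_apply]; exact hε⟩)
    (fun c hc c' hc' ε ε' h h' => by
      rw [map_add]
      exact hadd c hc c' hc' _ _ h h')
    (fun c hc ε h => by
      rw [map_neg]
      exact hneg c hc _ h)
    (fun c hc ε h => by
      have h1 := hET c hc _ h
      rwa [LinearEquiv.map_eq_zero_iff] at h1)
    (fun c hc ε h => hZE c hc _ h)
    (fun c hc h => hker c hc (by rwa [map_zero] at h))
    (fun u c hc ε h => hGE u c hc _ h)
    hfin hne
  refine ⟨c, hc, φ.symm ε, hε, ?_, a, fun u y hy ε' h1 h2 => ?_⟩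
  · rw [Ne, LinearEquiv.map_eq_zero_iff]
    exact hε0
  · have h3 := ha u y hy (φ ε') h1 (by rw [φ.symm_apply_apply]; exact h2)
    rw [← map_smul, ← h3, φ.symm_apply_apply]

end Pool.Agent.Lib.MP_89bcae_ag.Sup.Lns

end

section

open NumberField Polynomial

namespace Pool.Agent.Lib.MP_89bcae_ag.Re

/-- A primitive root of unity stays primitive modulo large primes. Proof: `ℓ` is prime, so it is
enough that `φ ζ ≠ 1` (`IsPrimitiveRoot.of_map_of_injective`... or `orderOf_eq_prime`); if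
`φ ζ = 1` then, since `1 + ζ + ... + ζ ^ (ℓ - 1) = 0` (`IsPrimitiveRoot.geom_sum_eq_zero`),
`φ` of it gives `(ℓ : ZMod q) = 0`, so `q ∣ ℓ` and `q = ℓ`. -/
theorem isPrimitiveRoot_map {K : Type*} [Field K] [NumberField K] {ℓ : ℕ} (hℓ : ℓ.Prime)
    {ζ : 𝓞 K} (hζ : IsPrimitiveRoot ζ ℓ) {q : ℕ} [Fact q.Prime] (hq : ℓ < q)
    (φ : 𝓞 K →+* ZMod q) : IsPrimitiveRoot (φ ζ) ℓ := by
  haveI : Fact ℓ.Prime := ⟨hℓ⟩
  have h1 : (φ ζ) ^ ℓ = 1 := by rw [← map_pow, hζ.pow_eq_one, map_one]
  have hne : φ ζ ≠ 1 := by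
    intro h
    have hs := hζ.geom_sum_eq_zero hℓ.one_lt
    have h2 := congrArg φ hs
    simp only [map_sum, map_pow, h, one_pow, Finset.sum_const, Finset.card_range, nsmul_eq_mul,
      mul_one, map_zero] at h2
    have h3 : q ∣ ℓ := (ZMod.natCast_eq_zero_iff ℓ q).1 h2
    have h4 := Nat.le_of_dvd hℓ.pos h3
    omega
  have h5 := orderOf_eq_prime h1 hne
  have h6 := IsPrimitiveRoot.orderOf (φ ζ)
  rwa [h5] at h6

/-- Proof: for each `φ` choose `c` with `c ^ ℓ = φ b ≠ 0`; the `ℓ` elements `φ(ζ)^i c`, `i < ℓ`, are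
distinct (`isPrimitiveRoot_map`) with the same power; `exists_extension` gives `ψ_(φ,i)` with
restriction `φ` and value `φ(ζ)^i c` at `α`: an injective map from `(𝓞 K →+* ZMod q) × Fin ℓ` to
`𝓞 K' →+* ZMod q`; `idealCount_eq_card`, `Nat.card_le_card_of_injective`, `finite_ringHom`. -/
theorem mul_idealCount_le (K K' : Type*) [Field K] [NumberField K] [Field K'] [NumberField K']
    [Algebra K K'] {ℓ : ℕ} (hℓ : ℓ.Prime) {ζ : 𝓞 K} (hζ : IsPrimitiveRoot ζ ℓ) {b : 𝓞 K} {α : 𝓞 K'}
    (hb : α ^ ℓ = algebraMap (𝓞 K) (𝓞 K') b) (hirr : Irreducible (X ^ ℓ - C (b : K)))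
    {M : ℕ} (hM : ∀ y : 𝓞 K', ∃ p : (𝓞 K)[X], (M : 𝓞 K') * y = aeval α p)
    {q : ℕ} [Fact q.Prime] (hqM : ¬ q ∣ M) (hqℓ : ℓ < q)
    (hφ : ∀ φ : 𝓞 K →+* ZMod q, φ b ≠ 0 ∧ ∃ c : ZMod q, c ^ ℓ = φ b) :
    ℓ * idealCount K q ≤ idealCount K' q := by
  classical
  rw [idealCount_eq_card K q, idealCount_eq_card K' q]
  haveI := finite_ringHom K q
  haveI := finite_ringHom K' q
  choose hb0 c hc using hφ
  have hext : ∀ (φ : 𝓞 K →+* ZMod q) (i : Fin ℓ), ∃ ψ : 𝓞 K' →+* ZMod q,
      (∀ x : 𝓞 K, ψ (algebraMap (𝓞 K) (𝓞 K') x) = φ x) ∧ ψ α = (φ ζ) ^ (i : ℕ) * c φ := by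
    intro φ i
    refine exists_extension K K' hℓ.pos hb hirr hM hqM φ ?_
    rw [mul_pow, ← pow_mul, mul_comm (i : ℕ), pow_mul,
      (isPrimitiveRoot_map hℓ hζ hqℓ φ).pow_eq_one, one_pow, one_mul, hc]
  choose ψ hψ1 hψ2 using hext
  have hinj : Function.Injective (fun p : (𝓞 K →+* ZMod q) × Fin ℓ => ψ p.1 p.2) := by
    rintro ⟨φ, i⟩ ⟨φ', j⟩ h
    have h' : ψ φ i = ψ φ' j := h
    have hφφ' : φ = φ' := RingHom.ext fun x => by rw [← hψ1 φ i x, h', hψ1]
    subst hφφ'
    have h2 : (φ ζ) ^ (i : ℕ) * c φ = (φ ζ) ^ (j : ℕ) * c φ := by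
      rw [← hψ2 φ i, h', hψ2]
    have hc0 : c φ ≠ 0 := by
      intro h0
      apply hb0 φ
      rw [← hc φ, h0, zero_pow hℓ.ne_zero]
    have h3 := mul_right_cancel₀ hc0 h2
    have h4 := (isPrimitiveRoot_map hℓ hζ hqℓ φ).pow_inj i.2 j.2 h3
    exact Prod.ext rfl (Fin.ext h4)
  have h7 := Nat.card_le_card_of_injective _ hinj
  rw [Nat.card_prod, Nat.card_fin] at h7
  rw [mul_comm]
  exact h7

end Pool.Agent.Lib.MP_89bcae_ag.Re

end

section

/-!
# An explicit form of Tsen's theorem in the ring `E[x, y] / (y ^ l - f(x))`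
-/

open Polynomial IsDedekindDomain

open scoped Classical

namespace Pool.Agent.Lib.MP_89bcae_ag.Sup

universe u

section R12aux

variable {E : Type u} [Field E]

/-- substitution `z ↦ η z` -/
private noncomputable def r12_rr (η : E) : E[X] →ₐ[E] E[X] := Polynomial.aeval (C η * X)

private lemma r12_rr_X (η : E) : r12_rr η X = C η * X := by
  unfold r12_rr; exact aeval_X _

private lemma r12_rr_C (η c : E) : r12_rr η (C c) = C c := by
  unfold r12_rr; exact aeval_C _ _

private lemma r12_rr_rr (η η' : E) (v : E[X]) : r12_rr η (r12_rr η' v) = r12_rr (η * η') v := by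
  have h : (r12_rr η).comp (r12_rr η') = r12_rr (η * η') := by
    ext1
    rw [AlgHom.comp_apply, r12_rr_X, map_mul, r12_rr_C, r12_rr_X, r12_rr_X, C_mul]
    ring
  rw [← h, AlgHom.comp_apply]

private lemma r12_rr_one (v : E[X]) : r12_rr 1 v = v := by
  have h : r12_rr (1 : E) = AlgHom.id E E[X] := by
    ext1
    rw [r12_rr_X, AlgHom.id_apply, C_1, one_mul]
  rw [h, AlgHom.id_apply]

/-- the polynomial `p(a - z ^ l)` -/
private noncomputable def r12_hat (l : ℕ) (a : E) : E[X] →ₐ[E] E[X] :=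
  Polynomial.aeval (C a - X ^ l)

private lemma r12_hat_X (l : ℕ) (a : E) : r12_hat l a X = C a - X ^ l := by
  unfold r12_hat; exact aeval_X _

private lemma r12_hat_C (l : ℕ) (a c : E) : r12_hat l a (C c) = C c := by
  unfold r12_hat; exact aeval_C _ _

private lemma r12_hat_ne {l : ℕ} (hl : 0 < l) (a : E) {p : E[X]} (hp : p ≠ 0) :
    r12_hat l a p ≠ 0 := by
  intro h
  have h1 : p.comp (C a - X ^ l) = 0 := by
    rw [Polynomial.comp_eq_aeval]; exact h
  rw [Polynomial.comp_eq_zero_iff] at h1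
  rcases h1 with h1 | ⟨_, h1⟩
  · exact hp h1
  · have h2 := congrArg natDegree h1
    rw [natDegree_C] at h2
    have h3 : (C a - X ^ l : E[X]).natDegree = l := by
      rw [natDegree_sub_eq_right_of_natDegree_lt]
      · exact natDegree_X_pow l
      · rw [natDegree_C, natDegree_X_pow]; exact hl
    omega

private lemma r12_rr_hat {l : ℕ} {η : E} (hη : η ^ l = 1) (a : E) (p : E[X]) :
    r12_rr η (r12_hat l a p) = r12_hat l a p := by
  have h : (r12_rr η).comp (r12_hat l a) = r12_hat l a := by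
    ext1
    rw [AlgHom.comp_apply, r12_hat_X, map_sub, map_pow, r12_rr_C, r12_rr_X, mul_pow, ← C_pow, hη,
      C_1, one_mul]
  exact congrArg (fun φ : E[X] →ₐ[E] E[X] => φ p) h

private lemma r12_lin {l : ℕ} (hl : 0 < l) {η : E} (hη : IsPrimitiveRoot η l) (s : E) :
    ∏ j ∈ Finset.range l, r12_rr (η ^ j) (C s - X) = C (s ^ l) - X ^ l := by
  have h1 : IsPrimitiveRoot (C η : E[X]) l := hη.map_of_injective C_injective
  have h2 := h1.pow_sub_pow_eq_prod_sub_mul (C s : E[X]) X hl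
  have h3 : nthRootsFinset l (1 : E[X]) = (Finset.range l).image (fun j => (C η : E[X]) ^ j) := by
    symm
    apply Finset.eq_of_subset_of_card_le
    · intro x hx
      obtain ⟨j, _, rfl⟩ := Finset.mem_image.mp hx
      rw [mem_nthRootsFinset hl, ← pow_mul, mul_comm, pow_mul, h1.pow_eq_one, one_pow]
    · rw [h1.card_nthRootsFinset, Finset.card_image_of_injOn, Finset.card_range]
      intro i hi j hj hij
      exact h1.pow_inj (Finset.mem_range.mp hi) (Finset.mem_range.mp hj) hij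
  rw [h3, Finset.prod_image] at h2
  · rw [C_pow, h2]
    refine Finset.prod_congr rfl fun j _ => ?_
    rw [map_sub, r12_rr_C, r12_rr_X, C_pow]
  · intro i hi j hj hij
    exact h1.pow_inj (Finset.mem_range.mp hi) (Finset.mem_range.mp hj) hij

private lemma r12_H [IsAlgClosed E] {l : ℕ} (hl : 0 < l) {η : E} (hη : IsPrimitiveRoot η l) (a : E)
    (f : E[X]) : ∃ H : E[X], ∏ j ∈ Finset.range l, r12_rr (η ^ j) H = r12_hat l a f := by
  have hmul : ∀ p q : E[X], (∃ H : E[X], ∏ j ∈ Finset.range l, r12_rr (η ^ j) H = r12_hat l a p) →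
      (∃ H : E[X], ∏ j ∈ Finset.range l, r12_rr (η ^ j) H = r12_hat l a q) →
      ∃ H : E[X], ∏ j ∈ Finset.range l, r12_rr (η ^ j) H = r12_hat l a (p * q) := by
    rintro p q ⟨H, hH⟩ ⟨H', hH'⟩
    refine ⟨H * H', ?_⟩
    rw [map_mul, ← hH, ← hH', ← Finset.prod_mul_distrib]
    exact Finset.prod_congr rfl fun j _ => map_mul _ _ _
  have hC : ∀ c : E, ∃ H : E[X], ∏ j ∈ Finset.range l, r12_rr (η ^ j) H = r12_hat l a (C c) := by
    intro c
    obtain ⟨d, hd⟩ := IsAlgClosed.exists_pow_nat_eq c hl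
    refine ⟨C d, ?_⟩
    rw [r12_hat_C, ← hd, C_pow]
    rw [Finset.prod_congr rfl (fun j _ => r12_rr_C (η ^ j) d), Finset.prod_const,
      Finset.card_range]
  have hX : ∀ r : E, ∃ H : E[X], ∏ j ∈ Finset.range l, r12_rr (η ^ j) H =
      r12_hat l a (X - C r) := by
    intro r
    obtain ⟨s, hs⟩ := IsAlgClosed.exists_pow_nat_eq (a - r) hl
    refine ⟨C s - X, ?_⟩
    rw [r12_lin hl hη, hs, map_sub (r12_hat l a), r12_hat_X, r12_hat_C, C_sub]
    ring
  have hm : ∀ m : Multiset E, ∃ H : E[X], ∏ j ∈ Finset.range l, r12_rr (η ^ j) H =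
      r12_hat l a ((m.map fun r => X - C r).prod) := by
    intro m
    induction m using Multiset.induction_on with
    | empty =>
      have := hC 1
      rwa [C_1] at this
    | cons r m ih =>
      rw [Multiset.map_cons, Multiset.prod_cons]
      exact hmul _ _ (hX r) ih
  have hsp := (IsAlgClosed.splits f).eq_prod_roots
  rw [hsp]
  exact hmul _ _ (hC _) (hm _)


private lemma r12_Y_pow (η : E) (H : E[X]) (Y : Module.End E E[X])
    (hY : ∀ v, Y v = H * r12_rr η v) (n : ℕ) (v : E[X]) :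
    (Y ^ n) v = (∏ j ∈ Finset.range n, r12_rr (η ^ j) H) * r12_rr (η ^ n) v := by
  induction n generalizing v with
  | zero => rw [pow_zero, pow_zero, Finset.prod_range_zero, one_mul, r12_rr_one]; rfl
  | succ n ih =>
    rw [pow_succ, Module.End.mul_apply, ih, hY, map_mul, r12_rr_rr, Finset.prod_range_succ,
      ← pow_succ]
    ring

/-- the action of the coordinate ring on the polynomials in `z` -/
private lemma r12_act {l : ℕ} (f : E[X]) (a : E) {η : E} (hη : η ^ l = 1) (H : E[X])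
    (hH : ∏ j ∈ Finset.range l, r12_rr (η ^ j) H = r12_hat l a f) :
    ∃ act : Coord l f →+* Module.End E E[X],
      (∀ p v, act (ofPoly p) v = r12_hat l a p * v) ∧
      (∀ v, act yy v = H * r12_rr η v) := by
  set f0 : E[X] →+* Module.End E E[X] :=
    (Algebra.lmul E E[X]).toRingHom.comp (r12_hat l a).toRingHom with hf0
  have hf0a : ∀ p v, f0 p v = r12_hat l a p * v := fun p v => rfl
  set Y : Module.End E E[X] := LinearMap.mulLeft E H * (r12_rr η).toLinearMap with hYd
  have hY : ∀ v, Y v = H * r12_rr η v := fun v => rfl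
  have hcomm : ∀ p, Commute (f0 p) Y := by
    intro p
    apply LinearMap.ext
    intro v
    show f0 p (Y v) = Y (f0 p v)
    rw [hf0a, hY, hY, hf0a, map_mul, r12_rr_hat hη]
    ring
  set act0 : E[X][X] →+* Module.End E E[X] := Polynomial.eval₂RingHom' f0 Y hcomm with hact0
  have h1 : ∀ p, act0 (C p) = f0 p := fun p => Polynomial.eval₂_C _ _
  have h2 : act0 X = Y := Polynomial.eval₂_X _ _
  have hzero : act0 (X ^ l - C f) = 0 := by
    rw [map_sub, map_pow, h1, h2, sub_eq_zero]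
    apply LinearMap.ext
    intro v
    rw [r12_Y_pow η H Y hY, hH, hη, r12_rr_one, hf0a]
  set act : Coord l f →+* Module.End E E[X] :=
    Ideal.Quotient.lift (Ideal.span {(X ^ l - C f : E[X][X])}) act0 (by
      intro x hx
      obtain ⟨y, rfl⟩ := Ideal.mem_span_singleton'.mp hx
      rw [map_mul, hzero, mul_zero]) with hact
  have h3 : ∀ q : E[X][X], act (AdjoinRoot.mk _ q) = act0 q := fun q => rfl
  refine ⟨act, ?_, ?_⟩
  · intro p v
    have h4 : (ofPoly p : Coord l f) = AdjoinRoot.mk _ (C p) := rfl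
    rw [h4, h3, h1, hf0a]
  · intro v
    have h4 : (yy : Coord l f) = AdjoinRoot.mk _ X := rfl
    rw [h4, h3, h2, hY]


private lemma r12_exists_poly {l : ℕ} {f : E[X]} [IsDomain (Coord l f)] (hl2 : 2 ≤ l) {u : Coord l f} (hu : u ≠ 0) :
    ∃ (p : E[X]) (c : Coord l f), p ≠ 0 ∧ (ofPoly p : Coord l f) = c * u := by
  have hfin : Module.Finite E[X] (Coord l f) :=
    (monic_eqn (f := f) (by omega : l ≠ 0)).finite_adjoinRoot
  have hint : IsIntegral E[X] u := Algebra.IsIntegral.isIntegral u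
  have h1 := Ideal.comap_ne_bot_of_integral_mem hu (Ideal.mem_span_singleton_self u) hint
  obtain ⟨p, hp, hp0⟩ := (Submodule.ne_bot_iff _).mp h1
  rw [Ideal.mem_comap, Ideal.mem_span_singleton'] at hp
  obtain ⟨c, hc⟩ := hp
  exact ⟨p, c, hp0, hc.symm⟩

private lemma r12_act_inj {l : ℕ} {f : E[X]} [IsDomain (Coord l f)] (hl2 : 2 ≤ l) {a : E}
    (act : Coord l f →+* Module.End E E[X])
    (h1 : ∀ p v, act (ofPoly p) v = r12_hat l a p * v) {v : E[X]} (hv : v ≠ 0) {u : Coord l f}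
    (hu : act u v = 0) : u = 0 := by
  by_contra hne
  obtain ⟨p, c, hp, hpc⟩ := r12_exists_poly hl2 hne
  have h2 : act (ofPoly p) v = 0 := by
    rw [hpc, map_mul, Module.End.mul_apply, hu, map_zero]
  rw [h1] at h2
  exact mul_ne_zero (r12_hat_ne (by omega) a hp) hv h2

private lemma r12_deg {l : ℕ} {f : E[X]} {a η : E} {H : E[X]}
    (act : Coord l f →+* Module.End E E[X])
    (h1 : ∀ p v, act (ofPoly p) v = r12_hat l a p * v)
    (h2 : ∀ v, act yy v = H * r12_rr η v) (i j : ℕ) (v : E[X]) :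
    (act (ofPoly (X ^ j) * yy ^ i) v).natDegree ≤ l * j + i * H.natDegree + v.natDegree := by
  have hrr : ∀ w : E[X], (r12_rr η w).natDegree ≤ w.natDegree := by
    intro w
    have h3 : r12_rr η w = w.comp (C η * X) := by rw [Polynomial.comp_eq_aeval]; rfl
    rw [h3]
    refine natDegree_comp_le.trans ?_
    have h4 : (C η * X : E[X]).natDegree ≤ 1 :=
      (natDegree_C_mul_le _ _).trans natDegree_X_le
    calc w.natDegree * (C η * X : E[X]).natDegree ≤ w.natDegree * 1 := Nat.mul_le_mul_left _ h4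
      _ = w.natDegree := mul_one _
  have hy : ∀ (i : ℕ) (w : E[X]), ((act yy ^ i) w).natDegree ≤ i * H.natDegree + w.natDegree := by
    intro i
    induction i with
    | zero => intro w; rw [pow_zero]; show w.natDegree ≤ _; omega
    | succ i ih =>
      intro w
      rw [pow_succ, Module.End.mul_apply]
      refine (ih _).trans ?_
      rw [h2]
      have h3 := natDegree_mul_le (p := H) (q := r12_rr η w)
      have h4 := hrr w
      have h5 : (i + 1) * H.natDegree = i * H.natDegree + H.natDegree := by ring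
      omega
  rw [map_mul, Module.End.mul_apply, h1, map_pow act]
  have h3 := natDegree_mul_le (p := r12_hat l a (X ^ j)) (q := (act yy ^ i) v)
  have h4 := hy i v
  have h5 : (r12_hat l a (X ^ j)).natDegree ≤ l * j := by
    rw [map_pow, r12_hat_X]
    refine natDegree_pow_le.trans ?_
    have h6 : (C a - X ^ l : E[X]).natDegree ≤ l := by
      refine (natDegree_sub_le _ _).trans ?_
      rw [natDegree_C, natDegree_X_pow]
      exact max_le (Nat.zero_le _) le_rfl
    calc j * (C a - X ^ l : E[X]).natDegree ≤ j * l := Nat.mul_le_mul_left _ h6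
      _ = l * j := mul_comm _ _
  omega

/-- the element with the coefficients `c` -/
private noncomputable def r12_el {l : ℕ} {f : E[X]} (N : ℕ) (c : ℕ → ℕ → E) : Coord l f :=
  ∑ i ∈ Finset.range l, ofPoly (∑ j ∈ Finset.range N, C (c i j) * X ^ j) * yy ^ i

private lemma r12_el_act {l : ℕ} {f : E[X]} {a : E}
    (act : Coord l f →+* Module.End E E[X])
    (h1 : ∀ p v, act (ofPoly p) v = r12_hat l a p * v) (N : ℕ) (c : ℕ → ℕ → E) (v : E[X]) :
    act (r12_el N c) v =
      ∑ i ∈ Finset.range l, ∑ j ∈ Finset.range N, c i j • act (ofPoly (X ^ j) * yy ^ i) v := by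
  unfold r12_el
  rw [map_sum, LinearMap.sum_apply]
  refine Finset.sum_congr rfl fun i _ => ?_
  rw [map_mul, Module.End.mul_apply, h1, map_sum, Finset.sum_mul]
  refine Finset.sum_congr rfl fun j _ => ?_
  rw [map_mul (r12_hat l a), r12_hat_C, map_mul act, Module.End.mul_apply, h1, smul_eq_C_mul,
    mul_assoc]

private lemma r12_el_zero {l : ℕ} (hl : l ≠ 0) {f : E[X]} {N : ℕ} {c : ℕ → ℕ → E}
    (h : (r12_el N c : Coord l f) = 0) : ∀ i < l, ∀ j < N, c i j = 0 := by
  intro i hi j hj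
  have h1 := expand_unique hl (fun i => ∑ j ∈ Finset.range N, C (c i j) * X ^ j) h i hi
  have h2 := congrArg (fun p : E[X] => p.coeff j) h1
  simp only [finsetSum_coeff, coeff_C_mul, coeff_X_pow, coeff_zero] at h2
  rw [Finset.sum_eq_single j] at h2
  · simpa using h2
  · intro b _ hb
    rw [if_neg (Ne.symm hb), mul_zero]
  · intro hb
    exact absurd (Finset.mem_range.mpr hj) hb


private lemma r12_exists_w {l : ℕ} {f : E[X]} [IsDomain (Coord l f)] (hl2 : 2 ≤ l) {a η : E} {H : E[X]}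
    (act : Coord l f →+* Module.End E E[X])
    (h1 : ∀ p v, act (ofPoly p) v = r12_hat l a p * v)
    (h2 : ∀ v, act yy v = H * r12_rr η v) :
    ∃ (w : Coord l f) (q : E[X]), q ≠ 0 ∧ act w 1 = r12_hat l a q * X := by
  have hl : 2 ≤ l := hl2
  set n' := H.natDegree with hn'
  set N := n' + 1 with hN
  set D := l * n' + (l - 1) * n' + 2 with hD
  set g : Fin 2 × Fin l × Fin N → E[X] := fun x =>
    if x.1 = 0 then act (ofPoly (X ^ (x.2.2 : ℕ)) * yy ^ (x.2.1 : ℕ)) 1
    else -act (ofPoly (X ^ (x.2.2 : ℕ)) * yy ^ (x.2.1 : ℕ)) X with hg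
  have hgdeg : ∀ x, (g x).natDegree < D := by
    intro x
    obtain ⟨k, i, j⟩ := x
    have hi : (i : ℕ) ≤ l - 1 := by have := i.2; omega
    have hj : (j : ℕ) ≤ n' := by have := j.2; omega
    have h3 := r12_deg act h1 h2 (i : ℕ) (j : ℕ) 1
    have h4 := r12_deg act h1 h2 (i : ℕ) (j : ℕ) X
    rw [natDegree_one, ← hn'] at h3
    rw [natDegree_X, ← hn'] at h4
    have h5 : (i : ℕ) * n' ≤ (l - 1) * n' := Nat.mul_le_mul_right _ hi
    have h6 : l * (j : ℕ) ≤ l * n' := Nat.mul_le_mul_left _ hj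
    simp only [hg]
    split_ifs
    · omega
    · rw [natDegree_neg]; omega
  set T : (Fin 2 × Fin l × Fin N → E) →ₗ[E] E[X] := Fintype.linearCombination E g with hT
  set T' : (Fin 2 × Fin l × Fin N → E) →ₗ[E] (Fin D → E) :=
    LinearMap.pi (fun j => (Polynomial.lcoeff E (j : ℕ)).comp T) with hT'
  have hker : LinearMap.ker T' ≠ ⊥ := by
    apply LinearMap.ker_ne_bot_of_finrank_lt
    rw [Module.finrank_fin_fun, Module.finrank_fintype_fun_eq_card, Fintype.card_prod,
      Fintype.card_prod, Fintype.card_fin, Fintype.card_fin, Fintype.card_fin, hD, hN]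
    have h3 : (l - 1) * n' ≤ l * n' := Nat.mul_le_mul_right _ (by omega)
    have h4 : 2 * (l * (n' + 1)) = l * n' + l * n' + 2 * l := by ring
    omega
  obtain ⟨c, hc, hc0⟩ := (Submodule.ne_bot_iff _).mp hker
  have hTc : T c = 0 := by
    ext j
    by_cases hj : j < D
    · have h3 : T' c = 0 := hc
      have h4 := congrFun h3 ⟨j, hj⟩
      exact h4
    · rw [coeff_zero]
      apply coeff_eq_zero_of_natDegree_lt
      have h3 : T c = ∑ x, c x • g x := rfl
      rw [h3]
      refine lt_of_lt_of_le ?_ (not_lt.mp hj)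
      refine lt_of_le_of_lt (natDegree_sum_le_of_forall_le (n := D - 1) _ _ ?_) (by omega)
      intro x _
      refine (natDegree_smul_le _ _).trans ?_
      have := hgdeg x
      omega
  set cc : Fin 2 → ℕ → ℕ → E := fun k i j =>
    if h : i < l ∧ j < N then c (k, ⟨i, h.1⟩, ⟨j, h.2⟩) else 0 with hcc
  have hccv : ∀ (k : Fin 2) (i : Fin l) (j : Fin N), cc k i j = c (k, i, j) := by
    intro k i j
    simp only [hcc]
    rw [dif_pos ⟨i.2, j.2⟩]
  have hsum : act (r12_el N (cc 0)) 1 - act (r12_el N (cc 1)) X = 0 := by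
    rw [r12_el_act act h1, r12_el_act act h1, ← hTc]
    have h3 : T c = ∑ x, c x • g x := rfl
    rw [h3, Fintype.sum_prod_type, Fin.sum_univ_two, Fintype.sum_prod_type, Fintype.sum_prod_type,
      Finset.sum_range, Finset.sum_range, sub_eq_add_neg, ← Finset.sum_neg_distrib]
    congr 1
    · refine Finset.sum_congr rfl fun i _ => ?_
      rw [Finset.sum_range]
      refine Finset.sum_congr rfl fun j _ => ?_
      rw [hccv]
      simp only [hg, if_pos]
    · refine Finset.sum_congr rfl fun i _ => ?_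
      rw [Finset.sum_range, ← Finset.sum_neg_distrib]
      refine Finset.sum_congr rfl fun j _ => ?_
      rw [hccv]
      simp only [hg]
      rw [if_neg (by decide), smul_neg]
  have hu : (r12_el N (cc 1) : Coord l f) ≠ 0 := by
    intro h3
    have h4 := r12_el_zero (by omega) h3
    rw [h3, map_zero, LinearMap.zero_apply, sub_zero] at hsum
    have h5 := r12_act_inj hl2 act h1 one_ne_zero hsum
    have h6 := r12_el_zero (by omega) h5
    apply hc0
    funext x
    obtain ⟨k, i, j⟩ := x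
    rw [← hccv, Pi.zero_apply]
    fin_cases k
    · exact h6 i i.2 j j.2
    · exact h4 i i.2 j j.2
  obtain ⟨p, u', hp, hpu⟩ := r12_exists_poly hl2 hu
  refine ⟨u' * r12_el N (cc 0), p, hp, ?_⟩
  rw [map_mul, Module.End.mul_apply, sub_eq_zero.mp hsum, ← Module.End.mul_apply, ← map_mul, ← hpu,
    h1]


/-- the main identity in the coordinate ring -/
lemma r12_main_wt {l : ℕ} {f : E[X]} [IsDomain (Coord l f)] [IsAlgClosed E] (hl2 : 2 ≤ l)
    (ζ : E) (hζ : IsPrimitiveRoot ζ l)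
    (h0 : ζ ≠ 0) (a : E) :
    ∃ (w : Coord l f) (q : E[X]), q ≠ 0 ∧ w ≠ 0 ∧
      ∏ i ∈ Finset.range l, (rotC ζ hζ.pow_eq_one)^[i] w = ofPoly (q ^ l * (C a - X)) := by
  have hl : 0 < l := by omega
  have hη : IsPrimitiveRoot ζ⁻¹ l := hζ.inv
  obtain ⟨H, hH⟩ := r12_H hl hη a f
  obtain ⟨act, h1, h2⟩ := r12_act f a hη.pow_eq_one H hH
  obtain ⟨w, q, hq, hw⟩ := r12_exists_w hl2 act h1 h2
  -- the semilinearity of the multiplication by `z`
  have hsemi : ∀ (u : Coord l f) (v : E[X]),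
      X * act u v = act (rotC ζ hζ.pow_eq_one u) (X * v) := by
    have hadd : ∀ u u' : Coord l f,
        (∀ v : E[X], X * act u v = act (rotC ζ hζ.pow_eq_one u) (X * v)) →
        (∀ v : E[X], X * act u' v = act (rotC ζ hζ.pow_eq_one u') (X * v)) →
        ∀ v : E[X], X * act (u + u') v = act (rotC ζ hζ.pow_eq_one (u + u')) (X * v) := by
      intro u u' hu hu' v
      rw [map_add act, map_add (rotC ζ hζ.pow_eq_one), map_add act, LinearMap.add_apply,
        LinearMap.add_apply, mul_add, hu, hu']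
    have hmul : ∀ u u' : Coord l f,
        (∀ v : E[X], X * act u v = act (rotC ζ hζ.pow_eq_one u) (X * v)) →
        (∀ v : E[X], X * act u' v = act (rotC ζ hζ.pow_eq_one u') (X * v)) →
        ∀ v : E[X], X * act (u * u') v = act (rotC ζ hζ.pow_eq_one (u * u')) (X * v) := by
      intro u u' hu hu' v
      rw [map_mul act, map_mul (rotC ζ hζ.pow_eq_one), map_mul act, Module.End.mul_apply,
        Module.End.mul_apply, hu, hu']
    have hp : ∀ (p : E[X]) (v : E[X]), X * act (ofPoly p : Coord l f) v =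
        act (rotC ζ hζ.pow_eq_one (ofPoly p)) (X * v) := by
      intro p v
      rw [rotC_ofPoly, h1, h1]
      ring
    have hy : ∀ v : E[X], X * act (yy : Coord l f) v =
        act (rotC ζ hζ.pow_eq_one yy) (X * v) := by
      intro v
      rw [rotC_yy, map_mul act, Module.End.mul_apply, h1, h2, h2, map_mul, r12_rr_X, r12_hat_C]
      have h3 : (C ζ * C ζ⁻¹ : E[X]) = 1 := by rw [← C_mul, mul_inv_cancel₀ h0, C_1]
      calc X * (H * r12_rr ζ⁻¹ v) = 1 * (X * (H * r12_rr ζ⁻¹ v)) := by rw [one_mul]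
        _ = (C ζ * C ζ⁻¹) * (X * (H * r12_rr ζ⁻¹ v)) := by rw [h3]
        _ = _ := by ring
    have hyp : ∀ (i : ℕ) (v : E[X]), X * act ((yy : Coord l f) ^ i) v =
        act (rotC ζ hζ.pow_eq_one (yy ^ i)) (X * v) := by
      intro i
      induction i with
      | zero =>
        intro v
        rw [pow_zero, map_one (rotC ζ hζ.pow_eq_one), map_one act]
        rfl
      | succ i ih =>
        rw [pow_succ]
        exact hmul _ _ ih hy
    intro u
    obtain ⟨p, rfl⟩ := exists_expand hl.ne' u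
    have key : ∀ s : Finset ℕ, ∀ v : E[X],
        X * act (∑ i ∈ s, (ofPoly (p i) : Coord l f) * yy ^ i) v =
        act (rotC ζ hζ.pow_eq_one (∑ i ∈ s, ofPoly (p i) * yy ^ i)) (X * v) := by
      intro s
      induction s using Finset.induction_on with
      | empty =>
        intro v
        rw [Finset.sum_empty, map_zero, map_zero, map_zero, LinearMap.zero_apply,
          LinearMap.zero_apply, mul_zero]
      | insert i s hi ih =>
        rw [Finset.sum_insert hi]
        exact hadd _ _ (hmul _ _ (hp (p i)) (hyp i)) ih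
    exact key _
  have hsemik : ∀ (k : ℕ) (v : E[X]),
      X ^ k * act w v = act ((rotC ζ hζ.pow_eq_one)^[k] w) (X ^ k * v) := by
    intro k
    induction k with
    | zero => intro v; rw [pow_zero, one_mul, one_mul]; rfl
    | succ k ih =>
      intro v
      rw [pow_succ', mul_assoc, ih, hsemi, Function.iterate_succ_apply', mul_assoc]
  have hcommC : ∀ (u : Coord l f) (p v : E[X]),
      act u (r12_hat l a p * v) = r12_hat l a p * act u v := by
    intro u p v
    rw [← h1, ← Module.End.mul_apply, ← map_mul, mul_comm, map_mul, Module.End.mul_apply, h1]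
  have hprod : ∀ k : ℕ, act (∏ i ∈ Finset.range k, (rotC ζ hζ.pow_eq_one)^[i] w) 1 =
      r12_hat l a (q ^ k) * X ^ k := by
    intro k
    induction k with
    | zero =>
      rw [Finset.prod_range_zero, map_one act, pow_zero, pow_zero, map_one (r12_hat l a)]
      show (1 : E[X]) = 1 * 1
      rw [one_mul]
    | succ k ih =>
      rw [Finset.prod_range_succ, mul_comm, map_mul, Module.End.mul_apply, ih, hcommC]
      have h3 := hsemik k 1
      rw [mul_one, hw] at h3
      rw [← h3, pow_succ, pow_succ, map_mul]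
      ring
  have hw0 : w ≠ 0 := by
    intro h3
    rw [h3, map_zero, LinearMap.zero_apply] at hw
    exact mul_ne_zero (r12_hat_ne hl a hq) X_ne_zero hw.symm
  refine ⟨w, q, hq, hw0, ?_⟩
  rw [← sub_eq_zero]
  refine r12_act_inj hl2 act h1 (v := 1) one_ne_zero ?_
  rw [map_sub, LinearMap.sub_apply, hprod, h1, mul_one, map_mul, map_sub (r12_hat l a), r12_hat_X,
    r12_hat_C]
  ring

end R12aux

end Pool.Agent.Lib.MP_89bcae_ag.Sup

end

section

open NumberField Ideal Filter Topology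

namespace Pool.Agent.Lib.MP_89bcae_ag.Re

/-- A number field cannot have, for all large primes, at least `ℓ ≥ 2` times as many primes of
degree one as another one. Proof: `euler_compare` with `a = idealCount K`, `b = idealCount K'` gives
`zetaR K s ^ ℓ ≤ C zetaR K' s` for `s > 1`. Multiply by `(s - 1) ^ ℓ`:
`((s-1) zetaR K s) ^ ℓ ≤ C (s-1)^(ℓ-1) ((s-1) zetaR K' s)`; for `s → 1+` (`zetaR_tendsto`) the left
side tends to `(dedekindZeta_residue K) ^ ℓ > 0` (`dedekindZeta_residue_pos`), the right side to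
`0`. -/
theorem not_mul_le (K K' : Type*) [Field K] [NumberField K] [Field K'] [NumberField K'] {ℓ : ℕ}
    (hℓ : 2 ≤ ℓ) (q₀ : ℕ) :
    ∃ q : ℕ, q.Prime ∧ q₀ ≤ q ∧ idealCount K' q < ℓ * idealCount K q := by
  by_contra hcon
  push Not at hcon
  obtain ⟨C, hC, hle⟩ := euler_compare (a := fun n => (idealCount K n : ℝ))
    (b := fun n => (idealCount K' n : ℝ)) (d := Module.finrank ℚ K) (d' := Module.finrank ℚ K')
    (ℓ := ℓ) (q₀ := q₀) (fun n => Nat.cast_nonneg _) (fun n => Nat.cast_nonneg _)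
    (by simp only [idealCount_one, Nat.cast_one]) (by simp only [idealCount_one, Nat.cast_one])
    (fun m n h => by simp only [idealCount_mul K h, Nat.cast_mul])
    (fun m n h => by simp only [idealCount_mul K' h, Nat.cast_mul])
    (fun q e hq => by exact_mod_cast idealCount_prime_pow_le K hq e)
    (fun q e hq => by exact_mod_cast idealCount_prime_pow_le K' hq e)
    (fun s hs => zetaR_summable K hs) (fun s hs => zetaR_summable K' hs)
    (fun q hq hqq => by exact_mod_cast hcon q hq hqq)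
  have hle' : ∀ s : ℝ, 1 < s → zetaR K s ^ ℓ ≤ C * zetaR K' s := hle
  have h1 : Tendsto (fun s : ℝ => ((s - 1) * zetaR K s) ^ ℓ) (𝓝[>] 1)
      (𝓝 (dedekindZeta_residue K ^ ℓ)) := (zetaR_tendsto K).pow ℓ
  have h2 : Tendsto (fun s : ℝ => (s - 1) ^ (ℓ - 1)) (𝓝[>] 1) (𝓝 0) := by
    have h3 : Tendsto (fun s : ℝ => (s - 1) ^ (ℓ - 1)) (𝓝 1) (𝓝 ((1 - 1) ^ (ℓ - 1))) :=
      ((continuous_id.sub continuous_const).pow (ℓ - 1)).tendsto 1
    rw [sub_self, zero_pow (by omega)] at h3
    exact h3.mono_left nhdsWithin_le_nhds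
  have h4 : Tendsto (fun s : ℝ => C * ((s - 1) ^ (ℓ - 1) * ((s - 1) * zetaR K' s))) (𝓝[>] 1)
      (𝓝 0) := by
    have := (h2.mul (zetaR_tendsto K')).const_mul C
    rwa [zero_mul, mul_zero] at this
  have h5 : dedekindZeta_residue K ^ ℓ ≤ 0 := by
    refine le_of_tendsto_of_tendsto h1 h4 ?_
    filter_upwards [self_mem_nhdsWithin] with s hs
    have hs' : (1 : ℝ) < s := hs
    have hs0 : 0 ≤ s - 1 := by linarith
    have h6 := mul_le_mul_of_nonneg_left (hle' s hs') (pow_nonneg hs0 ℓ)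
    have h7 : (s - 1) ^ ℓ = (s - 1) ^ (ℓ - 1) * (s - 1) := by
      rw [← pow_succ]
      congr 1
      omega
    calc ((s - 1) * zetaR K s) ^ ℓ = (s - 1) ^ ℓ * zetaR K s ^ ℓ := mul_pow _ _ _
      _ ≤ (s - 1) ^ ℓ * (C * zetaR K' s) := h6
      _ = C * ((s - 1) ^ (ℓ - 1) * ((s - 1) * zetaR K' s)) := by rw [h7]; ring
  exact absurd h5 (not_le.2 (pow_pos (dedekindZeta_residue_pos K) ℓ))

end Pool.Agent.Lib.MP_89bcae_ag.Re

end

section

/-!
# Copies with couplings

`GoodW`: the operator of the families of `n` copies of an arrangement with different symbols `c a` of the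
triples, the same symbols `β` of the pairs, and couplings `δ` of the parallel nodes has no eigenvector.
-/

open Polynomial

open scoped Classical

namespace Pool.Agent.Lib.MP_89bcae_ag

open Superelliptic

universe u

section

variable {ι : Type}

/-- The set of two elements (with the classical decidability of equality: no instance arguments). -/
noncomputable def pr (i j : ι) : Finset ι := {i, j}

/-- The set of three elements. -/
noncomputable def tr (i j l : ι) : Finset ι := {i, j, l}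

theorem mem_pr {i j x : ι} : x ∈ pr i j ↔ x = i ∨ x = j := by simp [pr]

theorem mem_tr {i j l x : ι} : x ∈ tr i j l ↔ x = i ∨ x = j ∨ x = l := by simp [tr]

/-- For every instance of `DecidableEq`. -/
theorem pr_eq [DecidableEq ι] (i j : ι) : pr i j = {i, j} := by
  ext x
  rw [mem_pr]
  simp

theorem tr_eq [DecidableEq ι] (i j l : ι) : tr i j l = {i, j, l} := by
  ext x
  rw [mem_tr]
  simp

theorem pr_comm (i j : ι) : pr i j = pr j i := by
  ext x
  rw [mem_pr, mem_pr, or_comm]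

theorem pr_eq_pr {i j i' j' : ι} :
    pr i j = pr i' j' ↔ (i = i' ∧ j = j') ∨ (i = j' ∧ j = i') := by
  constructor
  · intro h
    have h1 : i ∈ pr i' j' := h ▸ mem_pr.2 (Or.inl rfl)
    have h2 : j ∈ pr i' j' := h ▸ mem_pr.2 (Or.inr rfl)
    have h3 : i' ∈ pr i j := h ▸ mem_pr.2 (Or.inl rfl)
    have h4 : j' ∈ pr i j := h ▸ mem_pr.2 (Or.inr rfl)
    rw [mem_pr] at h1 h2 h3 h4
    rcases h1 with h1 | h1 <;> rcases h2 with h2 | h2 <;> rcases h3 with h3 | h3 <;>
      rcases h4 with h4 | h4 <;> subst_vars <;> simp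
  · rintro (⟨rfl, rfl⟩ | ⟨rfl, rfl⟩)
    · rfl
    · exact pr_comm _ _

theorem tr_comm (i j l : ι) : tr i j l = tr j i l := by
  ext x
  rw [mem_tr, mem_tr, or_left_comm]

theorem tr_right_comm (i j l : ι) : tr i j l = tr i l j := by
  ext x
  rw [mem_tr, mem_tr, or_comm (a := x = j)]

theorem card_pr {i j : ι} (h : i ≠ j) : (pr i j).card = 2 := Finset.card_pair h

theorem card_tr {i j l : ι} (hij : i ≠ j) (hil : i ≠ l) (hjl : j ≠ l) : (tr i j l).card = 3 :=
  Finset.card_eq_three.2 ⟨i, j, l, hij, hil, hjl, rfl⟩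

end

/-- The values of `ν` at the leading coefficients and at the differences of the nodes: copies with
couplings `δ`. -/
structure CopyW {A : Type*} [AddCommGroup A] {k F : Type u} [Field k] [Field F] [Algebra k F]
    {ι : Type} {n : ℕ} (ν : F → A) (α : ι → k[X]) (nd : ι → ι → Fin n → F) (β : Finset ι → A)
    (c : Fin n → Finset ι → A) (δ : Finset ι → Fin n → Fin n → A) : Prop where
  lead : ∀ i j, i ≠ j → ν (algebraMap k F (α i - α j).leadingCoeff) = β (pr i j)
  par : ∀ i j, i ≠ j → ∀ a b, a ≠ b → ν (nd i j a - nd i j b) = δ (pr i j) a b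
  adj : ∀ i j l, i ≠ j → j ≠ l → i ≠ l → ∀ a b, ν (nd i j a - nd i l b) =
    if a = b then c a (tr i j l) - β (pr i j) - β (pr i l) else 0

/-- The operator of the copies with couplings has no eigenvector modulo gradients. -/
def GoodW {ℓ : ℕ} {ι : Type} [Fintype ι] {n : ℕ} (w : ι → ZMod ℓ)
    (β : Finset ι → ZMod ℓ) (c : Fin n → Finset ι → ZMod ℓ)
    (δ : Finset ι → Fin n → Fin n → ZMod ℓ) : Prop :=
  ∀ (x : Fin n → ι → ι → ZMod ℓ) (z : ZMod ℓ) (γ : ι → ZMod ℓ),
    (∀ a i j, i ≠ j → x a j i = -x a i j) →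
    (∀ a i j, i ≠ j →
      (w i + w j) * (β (pr i j) * x a i j +
          ∑ b ∈ Finset.univ.filter (fun b => b ≠ a), δ (pr i j) a b * (x a i j - x b i j)) +
        ∑ l ∈ Finset.univ.filter (fun l => l ≠ i ∧ l ≠ j),
          w l * ((c a (tr i j l) - β (pr i j)) * x a i j -
            (c a (tr i j l) - β (pr i j) - β (pr i l)) * x a i l +
            (c a (tr i j l) - β (pr i j) - β (pr j l)) * x a j l) = z * x a i j + (γ i - γ j)) →
    ∃ b : ι → ZMod ℓ, ∀ a i j, i ≠ j → x a i j = b i - b j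

namespace Tri

variable {R : Type} [Field R]

/-- The sum of the coordinates. -/
def phi (X : Fin 3 → R) : R := X 0 + X 1 + X 2

/-- The operator of one triangle: the coordinates are those of the pairs `1 2`, `2 3`, `3 1`; `x`, `y` are
the symbols of the pairs `1 2`, `2 3` (that of `3 1` is zero), `c` that of the triangle. -/
def Tc (w₁ w₂ w₃ x y c : R) (X : Fin 3 → R) : Fin 3 → R :=
  ![(w₁ + w₂) * x * X 0 + w₃ * (c - x) * phi X - w₃ * y * X 1,
    (w₂ + w₃) * y * X 1 + w₁ * (c - y) * phi X - w₁ * x * X 0,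
    w₂ * c * phi X - w₂ * x * X 0 - w₂ * y * X 1]

/-- The polynomial of the operator on the gradients, at `z`. -/
def Lz (w₁ w₂ w₃ x y z : R) : R :=
  (z - (w₁ + w₂) * x) * (z - (w₂ + w₃) * y) - w₁ * w₃ * x * y

/-- The first coordinate vector. -/
def e0 : Fin 3 → R := ![1, 0, 0]

/-- The symmetric form. -/
def bf (w₁ w₂ w₃ : R) (X Y : Fin 3 → R) : R :=
  w₁ * w₂ * X 0 * Y 0 + w₂ * w₃ * X 1 * Y 1 + w₁ * w₃ * X 2 * Y 2

/-- There are symbols `c a` and couplings `δ` of the first coordinates such that the operator of the copies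
indexed by `κ` has no eigenvector. -/
def PW (κ : Type) [Fintype κ] (w₁ w₂ w₃ x y : R) : Prop :=
  ∃ (c : κ → R) (δ : κ → κ → R), (∀ a b, δ a b = δ b a) ∧ ∀ (X : κ → Fin 3 → R) (z : R),
    (∀ a, Tc w₁ w₂ w₃ x y (c a) (X a) + ((w₁ + w₂) * ∑ b, δ a b * (X a 0 - X b 0)) • e0 =
      z • X a) → ∀ a, X a = 0

end Tri

end Pool.Agent.Lib.MP_89bcae_ag

end

section

namespace Pool.Agent.Lib.MP_89bcae_ag.Tri

variable {R : Type} [Field R] {w₁ w₂ w₃ x y : R}

/-- The value at `phi`: `t = (w₁ + w₂ + w₃) c - w₃ x - w₁ y`. (`simp [phi, Tc]; ring`.) -/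
theorem phi_Tc (c : R) (X : Fin 3 → R) : phi (Tc w₁ w₂ w₃ x y c X) =
    ((w₁ + w₂ + w₃) * c - w₃ * x - w₁ * y) * phi X := by
  simp only [phi, Tc, Matrix.cons_val_zero, Matrix.cons_val_one, Matrix.cons_val]
  ring

/-- Selfadjoint. -/
theorem bf_Tc (c : R) (X Y : Fin 3 → R) :
    bf w₁ w₂ w₃ (Tc w₁ w₂ w₃ x y c X) Y = bf w₁ w₂ w₃ X (Tc w₁ w₂ w₃ x y c Y) := by
  simp only [phi, Tc, bf, Matrix.cons_val_zero, Matrix.cons_val_one, Matrix.cons_val]
  ring

/-- No eigenvector of sum zero. Proof: `phi X = 0`, so the first two coordinates give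
`(z - (w₁ + w₂) x) X₀ + w₃ y X₁ = 0`, `(z - (w₂ + w₃) y) X₁ + w₁ x X₀ = 0`; the determinant is `Lz`, so
`Lz X₀ = 0`, `Lz X₁ = 0`, and `X₂ = - X₀ - X₁`. -/
theorem eq_zero_of_phi {c z : R} (hL : Lz w₁ w₂ w₃ x y z ≠ 0) {X : Fin 3 → R}
    (h : Tc w₁ w₂ w₃ x y c X = z • X) (h0 : phi X = 0) : X = 0 := by
  have e1 := congrFun h 0
  have e2 := congrFun h 1
  simp only [Tc, h0, Pi.smul_apply, smul_eq_mul, Matrix.cons_val_zero, Matrix.cons_val_one,
    Matrix.cons_val] at e1 e2
  have h1 : Lz w₁ w₂ w₃ x y z * X 0 = 0 := by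
    unfold Lz
    linear_combination (-(z - (w₂ + w₃) * y)) * e1 + (w₃ * y) * e2
  have h2 : Lz w₁ w₂ w₃ x y z * X 1 = 0 := by
    unfold Lz
    linear_combination (w₁ * x) * e1 - (z - (w₁ + w₂) * x) * e2
  have h3 : X 0 = 0 := (mul_eq_zero.1 h1).resolve_left hL
  have h4 : X 1 = 0 := (mul_eq_zero.1 h2).resolve_left hL
  have h5 : X 2 = 0 := by
    unfold phi at h0
    linear_combination h0 - h3 - h4
  funext i
  fin_cases i
  · exact h3
  · exact h4
  · exact h5

/-- The eigenvectors. Proof: `τ = ![w₃, w₁, w₂]` satisfies `Tc τ = t τ` and `phi τ = W`. Let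
`Tc X = z X`; by `phi_Tc`, `(z - t) phi X = 0`. If `phi X = 0` then `X = 0` by `eq_zero_of_phi`, fine. Otherwise
`z = t` and `X - (phi X / W) τ` is an eigenvector of sum zero, so it is `0`. -/
theorem eigenvector {c z : R} (hW : w₁ + w₂ + w₃ ≠ 0) (hL : Lz w₁ w₂ w₃ x y z ≠ 0)
    {X : Fin 3 → R} (h : Tc w₁ w₂ w₃ x y c X = z • X) :
    X = 0 ∨ z = (w₁ + w₂ + w₃) * c - w₃ * x - w₁ * y ∧
      X = (phi X / (w₁ + w₂ + w₃)) • ![w₃, w₁, w₂] := by
  by_cases h0 : phi X = 0
  · exact Or.inl (eq_zero_of_phi hL h h0)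
  right
  have hz : z = (w₁ + w₂ + w₃) * c - w₃ * x - w₁ * y := by
    have e := phi_Tc (w₁ := w₁) (w₂ := w₂) (w₃ := w₃) (x := x) (y := y) c X
    rw [h] at e
    have e' : phi (z • X) = z * phi X := by
      simp only [phi, Pi.smul_apply, smul_eq_mul]
      ring
    rw [e'] at e
    exact mul_right_cancel₀ h0 e
  refine ⟨hz, ?_⟩
  have hY : X - (phi X / (w₁ + w₂ + w₃)) • ![w₃, w₁, w₂] = 0 := by
    refine eq_zero_of_phi (c := c) hL ?_ ?_
    · have e1 := congrFun h 0
      have e2 := congrFun h 1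
      have e3 := congrFun h 2
      set f := phi X / (w₁ + w₂ + w₃) with hf
      have hfX : phi X = f * (w₁ + w₂ + w₃) := by
        rw [hf]
        field_simp
      have hP : phi (X - f • ![w₃, w₁, w₂]) = 0 := by
        have : phi (X - f • ![w₃, w₁, w₂]) = phi X - f * (w₁ + w₂ + w₃) := by
          simp only [phi, Pi.sub_apply, Pi.smul_apply, smul_eq_mul, Matrix.cons_val_zero,
            Matrix.cons_val_one, Matrix.cons_val]
          ring
        rw [this, hfX]
        ring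
      simp only [Tc, hfX, Pi.smul_apply, smul_eq_mul, Matrix.cons_val_zero, Matrix.cons_val_one,
        Matrix.cons_val] at e1 e2 e3
      funext i
      fin_cases i
      · simp only [Tc, hP, Pi.sub_apply, Pi.smul_apply, smul_eq_mul, Matrix.cons_val_zero,
          Matrix.cons_val_one, Matrix.cons_val, Fin.zero_eta]
        rw [hz] at e1 ⊢
        linear_combination e1
      · simp only [Tc, hP, Pi.sub_apply, Pi.smul_apply, smul_eq_mul, Matrix.cons_val_zero,
          Matrix.cons_val_one, Matrix.cons_val, Fin.mk_one]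
        rw [hz] at e2 ⊢
        linear_combination e2
      · simp only [Tc, hP, Pi.sub_apply, Pi.smul_apply, smul_eq_mul, Matrix.cons_val_zero,
          Matrix.cons_val_one, Matrix.cons_val, Fin.reduceFinMk]
        rw [hz] at e3 ⊢
        linear_combination e3
    · simp only [phi, Pi.sub_apply, Pi.smul_apply, smul_eq_mul, Matrix.cons_val_zero,
        Matrix.cons_val_one, Matrix.cons_val]
      field_simp
      ring
  exact sub_eq_zero.1 hY

/-- The solution of `(z₀ - T) X = s e0` for the `z₀` where the resolvent has a simple form. With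
`z₀ = (w₂ + w₃) y - w₁ w₃ y / (w₁ + w₂)` and `t = W c - w₃ x - w₁ y ≠ z₀` there is `X` with
`Tc X + s e0 = z₀ X` and `X₀ = (w₃ / W) s / (z₀ - t)`. Proof: `phi X = f := s / (z₀ - t)`, `X₀ = (w₃ / W) f`,
`X₁ = (w₁ (c - y) f - w₁ x X₀) / (z₀ - (w₂ + w₃) y)` (the denominator is `- w₁ w₃ y / (w₁ + w₂) ≠ 0`),
`X₂ = f - X₀ - X₁`; the second equation is the definition of `X₁`, the third follows from the other two and
`phi_Tc`; the first one: multiply by `z₀ - (w₂ + w₃) y`; `field_simp; ring` with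
`c = (t + w₃ x + w₁ y) / W` (checked by computer). -/
theorem exists_resolvent {c s z₀ t : R} (h1 : w₁ ≠ 0) (h3 : w₃ ≠ 0) (h12 : w₁ + w₂ ≠ 0)
    (hW : w₁ + w₂ + w₃ ≠ 0) (hy : y ≠ 0)
    (hz : z₀ = (w₂ + w₃) * y - w₁ * w₃ * y / (w₁ + w₂))
    (ht : t = (w₁ + w₂ + w₃) * c - w₃ * x - w₁ * y) (htz : z₀ ≠ t) :
    ∃ X : Fin 3 → R, Tc w₁ w₂ w₃ x y c X + s • e0 = z₀ • X ∧
      X 0 = w₃ / (w₁ + w₂ + w₃) * s / (z₀ - t) := by
  have hz' : (w₁ + w₂) * z₀ = w₂ * (w₁ + w₂ + w₃) * y := by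
    rw [hz]
    field_simp
    ring
  obtain ⟨f, hf⟩ : ∃ f, (z₀ - t) * f = s :=
    ⟨s / (z₀ - t), mul_div_cancel₀ _ (sub_ne_zero.2 htz)⟩
  obtain ⟨A, hA⟩ : ∃ A, (w₁ + w₂ + w₃) * A = w₃ * f :=
    ⟨w₃ * f / (w₁ + w₂ + w₃), mul_div_cancel₀ _ hW⟩
  obtain ⟨B, hB⟩ : ∃ B, w₃ * y * B = -((w₁ + w₂) * ((c - y) * f - x * A)) :=
    ⟨-((w₁ + w₂) * ((c - y) * f - x * A)) / (w₃ * y), mul_div_cancel₀ _ (mul_ne_zero h3 hy)⟩
  have e1 : (w₁ + w₂) * x * A + w₃ * (c - x) * f - w₃ * y * B + s = z₀ * A := by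
    apply mul_left_cancel₀ hW
    subst ht
    linear_combination (-(w₁ + w₂ + w₃)) * hB - (w₁ + w₂ + w₃) * hf - z₀ * hA + f * hz'
  have e2 : (w₂ + w₃) * y * B + w₁ * (c - y) * f - w₁ * x * A = z₀ * B := by
    apply mul_left_cancel₀ h12
    linear_combination w₁ * hB - B * hz'
  have e3 : w₂ * c * f - w₂ * x * A - w₂ * y * B = z₀ * (f - A - B) := by
    subst ht
    linear_combination -hf - e1 - e2
  have hphi : phi ![A, B, f - A - B] = f := by
    simp [phi]
  refine ⟨![A, B, f - A - B], ?_, ?_⟩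
  · ext i
    fin_cases i
    · simpa [Tc, hphi, e0] using e1
    · simpa [Tc, hphi, e0] using e2
    · simpa [Tc, hphi, e0] using e3
  · have hne : z₀ - t ≠ 0 := sub_ne_zero.2 htz
    have : f = s / (z₀ - t) := by
      rw [← hf, mul_div_cancel_left₀ _ hne]
    have h2 : A = w₃ * f / (w₁ + w₂ + w₃) := by
      rw [← hA, mul_div_cancel_left₀ _ hW]
    show A = _
    rw [h2, this]
    ring

end Pool.Agent.Lib.MP_89bcae_ag.Tri

end

section

open NumberField Polynomial

namespace Pool.Agent.Lib.MP_89bcae_ag.Re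

/-- A nonzero integer is not killed modulo large primes. Proof: `φ b = 0` implies that the norm of `b`
(`Algebra.norm ℤ b`, a nonzero integer, which is a multiple of `b` in `𝓞 K`:
`Algebra.dvd_norm` or `Ideal.absNorm_mem` for the ideal `span {b}`) is zero in `ZMod q`; so `q` divides
it; take `N` its absolute value. -/
theorem exists_bound_ne_zero (K : Type*) [Field K] [NumberField K] {b : 𝓞 K} (hb : b ≠ 0) :
    ∃ N : ℕ, ∀ (q : ℕ) [Fact q.Prime], N < q → ∀ φ : 𝓞 K →+* ZMod q, φ b ≠ 0 := by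
  have hn : Algebra.norm ℤ b ≠ 0 := by
    rw [Ne, Algebra.norm_eq_zero_iff]; exact hb
  refine ⟨(Algebra.norm ℤ b).natAbs, ?_⟩
  intro q _ hq φ hφ
  have hmem : ((Ideal.span {b} : Ideal (𝓞 K)).absNorm : 𝓞 K) ∈ Ideal.span {b} :=
    Ideal.absNorm_mem _
  rw [Ideal.absNorm_span_singleton, Ideal.mem_span_singleton] at hmem
  obtain ⟨c, hc⟩ := hmem
  have h0 : (((Algebra.norm ℤ b).natAbs : ℕ) : ZMod q) = 0 := by
    have := congrArg φ hc
    rw [map_natCast, map_mul, hφ, zero_mul] at this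
    exact this
  rw [ZMod.natCast_eq_zero_iff] at h0
  exact absurd (Nat.le_of_dvd (Int.natAbs_pos.mpr hn) h0) (by omega)

/-- **Primes with a non-residue.** Proof: suppose the contrary for all `q > N`. The polynomial
`X ^ ℓ - C b` is irreducible over `K` (`X_pow_sub_C_irreducible_of_prime`); let
`K' = AdjoinRoot (X ^ ℓ - C b)`, a number field (finite over `K`), `α` the root, which is integral,
so it is an element of `𝓞 K'` with `α ^ ℓ = b`, `K' = K(α)` (`AdjoinRoot.adjoinRoot_eq_top`). By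
`exists_denominator`, `exists_bound_ne_zero` and `mul_idealCount_le`, for all large primes `q` we have
`ℓ * idealCount K q ≤ idealCount K' q`: contradiction with `not_mul_le`. -/
theorem exists_nonresidue (K : Type*) [Field K] [NumberField K] {ℓ : ℕ} (hℓ : ℓ.Prime)
    {ζ : 𝓞 K} (hζ : IsPrimitiveRoot ζ ℓ) {b : 𝓞 K} (hb : b ≠ 0) (hb' : ∀ x : K, x ^ ℓ ≠ b) (N : ℕ) :
    ∃ (q : ℕ) (_ : Fact q.Prime), N < q ∧ ∃ φ : 𝓞 K →+* ZMod q,
      φ b ≠ 0 ∧ ∀ y : ZMod q, y ^ ℓ ≠ φ b := by
  classical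
  by_contra hcon
  have hall : ∀ (q : ℕ) [Fact q.Prime], N < q → ∀ φ : 𝓞 K →+* ZMod q, φ b ≠ 0 →
      ∃ y : ZMod q, y ^ ℓ = φ b := by
    intro q hq hN φ hφ
    by_contra hy
    push Not at hy
    exact hcon ⟨q, hq, hN, φ, hφ, hy⟩
  have hirr : Irreducible (X ^ ℓ - C (b : K)) := X_pow_sub_C_irreducible_of_prime hℓ hb'
  have : Fact (Irreducible (X ^ ℓ - C (b : K))) := ⟨hirr⟩
  have hmonic : (X ^ ℓ - C (b : K)).Monic := monic_X_pow_sub_C (b : K) hℓ.ne_zero
  have : Module.Finite K (AdjoinRoot (X ^ ℓ - C (b : K))) := hmonic.finite_adjoinRoot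
  have : NumberField (AdjoinRoot (X ^ ℓ - C (b : K))) :=
    NumberField.of_module_finite K (AdjoinRoot (X ^ ℓ - C (b : K)))
  have hroot : (AdjoinRoot.root (X ^ ℓ - C (b : K))) ^ ℓ =
      algebraMap K (AdjoinRoot (X ^ ℓ - C (b : K))) (b : K) := by
    have h := AdjoinRoot.eval₂_root (X ^ ℓ - C (b : K))
    rw [eval₂_sub, eval₂_pow, eval₂_X, eval₂_C] at h
    exact sub_eq_zero.1 h
  have hint : IsIntegral ℤ (AdjoinRoot.root (X ^ ℓ - C (b : K))) := by
    apply IsIntegral.of_pow hℓ.pos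
    rw [hroot]
    exact (RingOfIntegers.isIntegral_coe b).map (IsScalarTower.toAlgHom ℤ K _)
  let α : 𝓞 (AdjoinRoot (X ^ ℓ - C (b : K))) := ⟨AdjoinRoot.root (X ^ ℓ - C (b : K)), hint⟩
  have hαv : (α : AdjoinRoot (X ^ ℓ - C (b : K))) = AdjoinRoot.root (X ^ ℓ - C (b : K)) := rfl
  have hαb : α ^ ℓ = algebraMap (𝓞 K) (𝓞 (AdjoinRoot (X ^ ℓ - C (b : K)))) b := by
    apply RingOfIntegers.ext
    exact hroot
  obtain ⟨M, hM0, hM⟩ := exists_denominator K (AdjoinRoot (X ^ ℓ - C (b : K))) (α := α)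
    (by rw [hαv]; exact AdjoinRoot.adjoinRoot_eq_top)
  obtain ⟨N1, hN1⟩ := exists_bound_ne_zero K hb
  obtain ⟨q, hq, hqq, hlt⟩ := not_mul_le K (AdjoinRoot (X ^ ℓ - C (b : K))) hℓ.two_le
    (N + N1 + M + ℓ + 1)
  have : Fact q.Prime := ⟨hq⟩
  have hle : ℓ * idealCount K q ≤ idealCount (AdjoinRoot (X ^ ℓ - C (b : K))) q := by
    refine mul_idealCount_le K (AdjoinRoot (X ^ ℓ - C (b : K))) hℓ hζ hαb hirr hM ?_ (by omega) ?_
    · intro hd
      have := Nat.le_of_dvd (Nat.pos_of_ne_zero hM0) hd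
      omega
    · intro φ
      have h0 : φ b ≠ 0 := hN1 q (by omega) φ
      exact ⟨h0, hall q (by omega) φ h0⟩
  omega

end Pool.Agent.Lib.MP_89bcae_ag.Re

end
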