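import Mathlib
import Pool.Agent.Lib.MP_89bcae_ag.Mk.K010
import Pool.Agent.Lib.MP_89bcae_ag.Mk.K012
import Pool.Agent.Lib.MP_89bcae_ag.Mk.K015
import Pool.Agent.Lib.MP_89bcae_ag.Mk.K016

section

/-!
ROW R16 (80-150 lines). The automorphism `Z` of the Jacobian induced by `(x, y) ↦ (x, ζ y)`.

PROOF. `cl` is surjective with kernel the divisors of functions (R08), and this kernel is stable
under `D ↦ D.mapDomain (Pt.rot ζ)` because `(div u).mapDomain (rot) = div (rot⁻¹ u)`
(`div_rotU_symm`); so `Z` exists (e.g. via `QuotientAddGroup.lift`, or choose for each class a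
divisor). `∑_{i<N} Z^i [P] = cl (div (x - P.x)) = 0` by `div_xs`, and these classes generate.
The classes of the points generate, so `Z` commutes with `symJ σ` if `σ ζ = ζ` as
`(P.rot ζ).sym σ = (P.sym σ).rot ζ`; and with `jacMap N σ` (`ζ ↦ σ ζ`) for a homomorphism `σ`.
-/

open Polynomial IsDedekindDomain

open scoped Classical

namespace Pool.Agent.Lib.MP_89bcae_ag.Wt

universe u

variable {N : ℕ} {E : Type u} [Field E] {f : E[X]} [hG : IsGood N f]

lemma exists_zJ (ζ : E) (hζ : ζ ^ N = 1) : ∃ Z : Jac N f →+ Jac N f, ∀ D : Pt N f →₀ ℤ,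
    Z (cl D) = cl (D.mapDomain (Pt.rot ζ hζ)) := by
  have h0 : ζ ≠ 0 := by
    intro h
    rw [h, zero_pow hG.ne] at hζ
    exact zero_ne_one hζ
  set g : (Pt N f →₀ ℤ) →+ Jac N f :=
    (cl : (Pt N f →₀ ℤ) →+ Jac N f).comp (Finsupp.mapDomain.addMonoidHom (Pt.rot ζ hζ)) with hg
  have hker : (cl : (Pt N f →₀ ℤ) →+ Jac N f).ker ≤ g.ker := by
    intro D hD
    rw [AddMonoidHom.mem_ker] at hD ⊢
    obtain ⟨u, hu⟩ := exists_div_of_cl_eq_zero D hD
    change cl (D.mapDomain (Pt.rot ζ hζ)) = 0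
    rw [← hu, ← div_rotU_symm ζ hζ h0, cl_div]
  refine ⟨(cl : (Pt N f →₀ ℤ) →+ Jac N f).liftOfSurjective cl_surjective ⟨g, hker⟩,
    fun D => ?_⟩
  exact AddMonoidHom.liftOfRightInverse_comp_apply _ _ _ ⟨g, hker⟩ D

/-- The automorphism of the Jacobian induced by `(x, y) ↦ (x, ζ y)`. -/
noncomputable def zJ (ζ : E) (hζ : ζ ^ N = 1) : Jac N f →+ Jac N f := (exists_zJ ζ hζ).choose

lemma zJ_cl (ζ : E) (hζ : ζ ^ N = 1) (D : Pt N f →₀ ℤ) :
    zJ ζ hζ (cl D) = cl (D.mapDomain (Pt.rot ζ hζ)) := (exists_zJ ζ hζ).choose_spec D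

lemma sum_zJ (ζ : E) (hζ : IsPrimitiveRoot ζ N) (Q : Jac N f) :
    ∑ i ∈ Finset.range N, (zJ ζ hζ.pow_eq_one)^[i] Q = 0 := by
  have hit : ∀ (i : ℕ) (D : Pt N f →₀ ℤ), (zJ ζ hζ.pow_eq_one)^[i] (cl D) =
      cl (D.mapDomain ((Pt.rot ζ hζ.pow_eq_one)^[i])) := by
    intro i D
    induction i with
    | zero =>
      rw [Function.iterate_zero, Function.iterate_zero, id_eq, Finsupp.mapDomain_id]
    | succ i ih =>
      rw [Function.iterate_succ_apply', ih, zJ_cl, ← Finsupp.mapDomain_comp,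
        Function.iterate_succ']
  obtain ⟨D, rfl⟩ := cl_surjective Q
  rw [Finset.sum_congr rfl fun i _ => hit i D]
  induction D using Finsupp.induction_linear with
  | zero =>
    refine Finset.sum_eq_zero fun i _ => ?_
    rw [Finsupp.mapDomain_zero, map_zero]
  | add D D' h h' =>
    rw [Finset.sum_congr rfl fun i _ => by rw [Finsupp.mapDomain_add, map_add],
      Finset.sum_add_distrib, h, h', add_zero]
  | single P n =>
    have h1 : ∀ i ∈ Finset.range N, cl ((Finsupp.single P n).mapDomain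
        ((Pt.rot ζ hζ.pow_eq_one)^[i])) =
        n • cl (Finsupp.single ((Pt.rot ζ hζ.pow_eq_one)^[i] P) (1 : ℤ)) := by
      intro i _
      rw [Finsupp.mapDomain_single, ← map_zsmul, Finsupp.smul_single, smul_eq_mul, mul_one]
    rw [Finset.sum_congr rfl h1, ← Finset.smul_sum, ← map_sum, ← div_xs ζ hζ P, cl_div,
      smul_zero]

lemma zJ_symJ (ζ : E) (hζ : ζ ^ N = 1) (σ : Sym f) (hσ : (σ : E ≃+* E) ζ = ζ) (Q : Jac N f) :
    zJ ζ hζ (symJ σ Q) = symJ σ (zJ ζ hζ Q) := by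
  obtain ⟨D, rfl⟩ := cl_surjective Q
  rw [symJ_cl, zJ_cl, zJ_cl, symJ_cl, ← Finsupp.mapDomain_comp, ← Finsupp.mapDomain_comp]
  congr 2
  funext P
  apply Pt.ext
  · rfl
  · change ζ * (σ : E ≃+* E) P.y = (σ : E ≃+* E) (ζ * P.y)
    rw [map_mul, hσ]

lemma zJ_jacMap {E' : Type u} [Field E'] {f' : E'[X]} [hG' : IsGood N f'] (σ : E →+* E')
    (h : f.map σ = f') (ζ : E) (hζ : ζ ^ N = 1) (hζ' : (σ ζ) ^ N = 1) (Q : Jac N f) :
    zJ (σ ζ) hζ' (jacMap N σ h Q) = jacMap N σ h (zJ ζ hζ Q) := by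
  obtain ⟨D, rfl⟩ := cl_surjective Q
  rw [jacMap_cl, zJ_cl, zJ_cl, jacMap_cl, ← Finsupp.mapDomain_comp, ← Finsupp.mapDomain_comp]
  congr 2
  funext P
  apply Pt.ext
  · rfl
  · change σ ζ * σ P.y = σ (ζ * P.y)
    rw [map_mul]

end Pool.Agent.Lib.MP_89bcae_ag.Wt

end

section

/-!
ROW R17 (100-200 lines). The kernel of `π = 1 - Z`.

Notation: `ram e = cl (ramDiv e) = ∑ e(θ) [(θ, 0)]`.

(A) `cl_eq_ram`: if `D - rot_* D = div h` and `nrm h = 1` then `cl D = ram e`, where
`e(θ) = atR D θ - n(θ)` and `lc θ h = ζ^n(θ)`.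
PROOF. By Hilbert 90 (R11), `h = v / rot⁻¹ v`, so `div h = div v - rot_* div v` and
`D₀ = D - div v` is fixed by `rot_*`. A divisor fixed by `rot_*` is the sum of its part at the ramified
points and of multiples of the full fibres `∑_{i<N} (P.rot^i) = div (x - P.x)` of unramified points
(induction on the size of the support, or a sum over the finite set of the `x`-coordinates), so its
class is `ram (atR D₀)`, and `atR D₀ θ = atR D θ - ordR θ v`. By `lc_spec`:
`lc θ (rot v') = ζ^{ordR θ v'} lc θ v'` with `v' = rot⁻¹ v` and `ordR θ v' = ordR θ v`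
(`P.rot = P` for `P = (θ, 0)`), so `lc θ h = ζ^{ordR θ v}`, i.e. `n(θ) ≡ ordR θ v` modulo `N`; and
`N [(θ, 0)] = cl (div (x - θ)) = 0` so exponents matter only modulo `N`.
(B) `zJ Q = Q` iff `Q` is some `ram e`. PROOF. If `Q = cl D` (R08), `D - rot_* D = div h`,
`nrm h = c · xprod (div h) = c` (`exists_nrm_eq`; `xprod (D - rot_* D) = 1` by `xprod_rot`,
`xprod_add`); dividing `h` by a constant whose `N`-th power is `c` (`E` algebraically closed) we may
assume `nrm h = 1` (`nrm_cstU`); apply (A) — the `lc θ h` are `N`-th roots of unity since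
`1 = lc θ (nrm h) = ∏ lc θ (rot^i h) = ζ^{...} lc θ(h)^N` and `ordR θ h = 0`: `ord` of
`D - rot_* D` at a fixed point is zero. The converse: `mapDomain_rot_ramDiv`.
(C) `ram e = 0` iff `e` is constant modulo `N` on the roots of `f`. PROOF. `ram 1 = cl (div y) = 0`
and `N [(θ,0)] = 0` give the direction from right to left. Conversely let `ramDiv e = div h`. Then `rot⁻¹ h / h` has divisor `0`
(`mapDomain_rot_ramDiv`), so it is a constant `c`: (divisor zero implies constant: R13 lemma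
`exists_const_of_dg_eq_zero`: else `dg (div w) < 0` with `w = h - c`, but `ord_P w ≥ 0` for all `P`
by `ord_add`); `c^N = 1` as `rot^N = 1`; `c = ζ^{-j}`; and `lc θ (rot h) = ζ^{ordR θ h} lc θ h`
gives `e(θ) = ordR θ h ≡ j` for all roots `θ`.
-/

open Polynomial IsDedekindDomain

open scoped Classical

namespace Pool.Agent.Lib.MP_89bcae_ag.Wt

universe u

variable {N : ℕ} {E : Type u} [Field E] {f : E[X]} [hG : IsGood N f]

/-- The class `∑ e(θ) [(θ, 0)]`. -/
noncomputable def ram (e : E → ℤ) : Jac N f := cl (ramDiv e)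

lemma r17_eq_of_x_eq {P Q : Pt N f} (hP : P.y = 0) (h : Q.x = P.x) : Q = P := by
  have h1 : Q.y ^ N = 0 := by
    rw [Q.eq, h, ← P.eq, hP, zero_pow hG.ne]
  exact Pt.ext h ((pow_eq_zero_iff hG.ne).1 h1 |>.trans hP.symm)

lemma r17_div_xs_ram (P : Pt N f) (hP : P.y = 0) :
    div (xs P.x : (FunField N f)ˣ) = N • Finsupp.single P 1 := by
  ext Q
  rw [div_apply, Finsupp.smul_apply, Finsupp.single_apply]
  by_cases h : P = Q
  · subst h
    rw [if_pos rfl, ord_xs_of_ramified P hP]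
    simp
  · rw [if_neg h, smul_zero]
    exact ord_xs_of_ne Q fun h1 => h (r17_eq_of_x_eq hP h1).symm

lemma r17_smul_cl (D : Pt N f →₀ ℤ) (hD : ∀ P, P.y ≠ 0 → D P = 0) : N • cl D = 0 := by
  conv_lhs => rw [← Finsupp.sum_single D]
  rw [Finsupp.sum, map_sum, Finset.smul_sum]
  refine Finset.sum_eq_zero fun P hP => ?_
  have hy : P.y = 0 := by
    by_contra hy
    exact Finsupp.mem_support_iff.1 hP (hD P hy)
  have h1 : (Finsupp.single P (D P) : Pt N f →₀ ℤ) = D P • Finsupp.single P 1 := by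
    rw [Finsupp.smul_single, smul_eq_mul, mul_one]
  rw [h1, map_zsmul, smul_comm, ← map_nsmul, ← r17_div_xs_ram P hy, cl_div, smul_zero]

lemma ram_congr (e e' : E → ℤ) (h : ∀ θ, f.eval θ = 0 → (N : ℤ) ∣ e θ - e' θ) :
    (ram e : Jac N f) = ram e' := by
  have hk : ∀ θ, ∃ k : ℤ, f.eval θ = 0 → e θ - e' θ = N * k := by
    intro θ
    by_cases hθ : f.eval θ = 0
    · obtain ⟨k, hk⟩ := h θ hθ
      exact ⟨k, fun _ => hk⟩
    · exact ⟨0, fun h => absurd h hθ⟩
  choose k hk using hk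
  rw [← sub_eq_zero, ram, ram, ← map_sub, ← ramDiv_sub,
    ramDiv_congr (fun θ => e θ - e' θ) (fun θ => N * k θ) hk, ramDiv_smul, map_zsmul,
    natCast_zsmul]
  refine r17_smul_cl _ fun P hP => ?_
  rw [ramDiv_apply, if_neg hP]

omit hG in
lemma r17_rot_injective (ζ : E) (hζ : ζ ^ N = 1) (h0 : ζ ≠ 0) :
    Function.Injective (Pt.rot ζ hζ : Pt N f → Pt N f) := by
  intro P Q h
  have hx : (Pt.rot ζ hζ P).x = (Pt.rot ζ hζ Q).x := by rw [h]
  have hy : (Pt.rot ζ hζ P).y = (Pt.rot ζ hζ Q).y := by rw [h]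
  exact Pt.ext hx (mul_left_cancel₀ h0 hy)

omit hG in
lemma r17_rot_iter (ζ : E) (hζ : ζ ^ N = 1) (P : Pt N f) (i : ℕ) :
    ((Pt.rot ζ hζ)^[i] P).x = P.x ∧ ((Pt.rot ζ hζ)^[i] P).y = ζ ^ i * P.y := by
  induction i with
  | zero => simp
  | succ i ih =>
    rw [Function.iterate_succ_apply']
    refine ⟨ih.1, ?_⟩
    change ζ * ((Pt.rot ζ hζ)^[i] P).y = _
    rw [ih.2, pow_succ']
    ring

lemma r17_exists_iter (ζ : E) (hζ : IsPrimitiveRoot ζ N) (P Q : Pt N f) (hP : P.y ≠ 0)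
    (h : Q.x = P.x) : ∃ i, (Pt.rot ζ hζ.pow_eq_one)^[i] P = Q := by
  have h1 : (Q.y / P.y) ^ N = 1 := by
    rw [div_pow, Q.eq, P.eq, h, div_self]
    rw [← P.eq]
    exact pow_ne_zero _ hP
  have : NeZero N := ⟨hG.ne⟩
  obtain ⟨i, _, hi⟩ := hζ.eq_pow_of_pow_eq_one h1
  refine ⟨i, Pt.ext ?_ ?_⟩
  · rw [(r17_rot_iter ζ hζ.pow_eq_one P i).1, h]
  · rw [(r17_rot_iter ζ hζ.pow_eq_one P i).2, hi, div_mul_cancel₀ _ hP]

omit hG in
lemma r17_apply_rot (ζ : E) (hζ : ζ ^ N = 1) (h0 : ζ ≠ 0) (D : Pt N f →₀ ℤ)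
    (hD : D.mapDomain (Pt.rot ζ hζ) = D) (P : Pt N f) (i : ℕ) :
    D ((Pt.rot ζ hζ)^[i] P) = D P := by
  induction i with
  | zero => rfl
  | succ i ih =>
    rw [Function.iterate_succ_apply', ← ih]
    conv_lhs => rw [← hD]
    exact Finsupp.mapDomain_apply (r17_rot_injective ζ hζ h0) _ _

lemma r17_cl_unram (ζ : E) (hζ : IsPrimitiveRoot ζ N) (h0 : ζ ≠ 0) (D : Pt N f →₀ ℤ)
    (hD : D.mapDomain (Pt.rot ζ hζ.pow_eq_one) = D) (hr : ∀ P, P.y = 0 → D P = 0) :
    cl D = 0 := by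
  have := hG.alg
  have hb : ∀ a : E, ∃ b : E, b ^ N = f.eval a := fun a =>
    IsAlgClosed.exists_pow_nat_eq _ hG.pos
  choose b hb using hb
  have key : D = ∑ a ∈ D.support.image Pt.x, D ⟨a, b a, hb a⟩ • div (xs a : (FunField N f)ˣ) := by
    ext Q
    rw [Finsupp.finsetSum_apply]
    by_cases hQ : Q.x ∈ D.support.image Pt.x
    · rw [Finset.sum_eq_single Q.x]
      · obtain ⟨P, hP, hPQ⟩ := Finset.mem_image.1 hQ
        have hPy : P.y ≠ 0 := fun h => Finsupp.mem_support_iff.1 hP (hr P h)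
        have hQy : Q.y ≠ 0 := by
          intro h
          apply hPy
          rw [r17_eq_of_x_eq h hPQ]
          exact h
        have hby : b Q.x ≠ 0 := by
          intro h
          have h2 := hb Q.x
          rw [h, zero_pow hG.ne, ← Q.eq] at h2
          exact hQy ((pow_eq_zero_iff hG.ne).1 h2.symm)
        obtain ⟨i, hi⟩ := r17_exists_iter ζ hζ ⟨Q.x, b Q.x, hb Q.x⟩ Q hby rfl
        rw [Finsupp.smul_apply, div_apply, ord_xs_of_unramified Q hQy, smul_eq_mul, mul_one,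
          ← r17_apply_rot ζ hζ.pow_eq_one h0 D hD ⟨Q.x, b Q.x, hb Q.x⟩ i, hi]
      · intro a _ ha
        rw [Finsupp.smul_apply, div_apply, ord_xs_of_ne Q ha.symm, smul_zero]
      · intro h
        exact absurd hQ h
    · have hQ0 : D Q = 0 := by
        by_contra h
        exact hQ (Finset.mem_image.2 ⟨Q, Finsupp.mem_support_iff.2 h, rfl⟩)
      rw [hQ0]
      symm
      refine Finset.sum_eq_zero fun a ha => ?_
      rw [Finsupp.smul_apply, div_apply, ord_xs_of_ne Q (fun h => hQ (h ▸ ha)), smul_zero]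
  rw [key, map_sum]
  refine Finset.sum_eq_zero fun a _ => ?_
  rw [map_zsmul, cl_div, smul_zero]

lemma r17_cl_fixed (ζ : E) (hζ : IsPrimitiveRoot ζ N) (h0 : ζ ≠ 0) (D : Pt N f →₀ ℤ)
    (hD : D.mapDomain (Pt.rot ζ hζ.pow_eq_one) = D) : cl D = ram (atR D) := by
  rw [← sub_eq_zero, ram, ← map_sub]
  refine r17_cl_unram ζ hζ h0 _ ?_ ?_
  · have := (Finsupp.mapDomain.addMonoidHom (M := ℤ) (Pt.rot ζ hζ.pow_eq_one : Pt N f → Pt N f)
      ).map_sub D (ramDiv (atR D))
    change (D - ramDiv (atR D)).mapDomain (Pt.rot ζ hζ.pow_eq_one) =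
      D.mapDomain (Pt.rot ζ hζ.pow_eq_one) - (ramDiv (atR D)).mapDomain (Pt.rot ζ hζ.pow_eq_one)
      at this
    rw [this, hD, mapDomain_rot_ramDiv]
  · intro P hP
    have hθ : f.eval P.x = 0 := by
      rw [← P.eq, hP, zero_pow hG.ne]
    rw [Finsupp.sub_apply, ramDiv_apply, if_pos hP, atR, dif_pos hθ, sub_eq_zero]
    congr 1
    exact Pt.ext rfl hP

lemma cl_eq_ram (ζ : E) (hζ : IsPrimitiveRoot ζ N) (h0 : ζ ≠ 0) (D : Pt N f →₀ ℤ)
    (h : (FunField N f)ˣ) (hD : D - D.mapDomain (Pt.rot ζ hζ.pow_eq_one) = div h)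
    (hn : nrm ζ hζ.pow_eq_one h0 h = 1) (n : E → ℤ)
    (hlc : ∀ θ, f.eval θ = 0 → (lc θ h : E) = ζ ^ n θ) :
    cl D = ram fun θ => atR D θ - wt f θ * n θ := by
  obtain ⟨v, hv⟩ := exists_hilbert ζ hζ h0 h hn
  have hdiv : div h = div v - (div v).mapDomain (Pt.rot ζ hζ.pow_eq_one) := by
    rw [hv, div_eq_mul_inv, div_mul, div_inv, div_rotU_symm, sub_eq_add_neg]
  have hfix : (D - div v).mapDomain (Pt.rot ζ hζ.pow_eq_one) = D - div v := by
    have := (Finsupp.mapDomain.addMonoidHom (M := ℤ) (Pt.rot ζ hζ.pow_eq_one : Pt N f → Pt N f)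
      ).map_sub D (div v)
    change (D - div v).mapDomain (Pt.rot ζ hζ.pow_eq_one) =
      D.mapDomain (Pt.rot ζ hζ.pow_eq_one) - (div v).mapDomain (Pt.rot ζ hζ.pow_eq_one)
      at this
    rw [this]
    rw [hdiv] at hD
    have h2 : D.mapDomain (Pt.rot ζ hζ.pow_eq_one) =
        D - (div v - (div v).mapDomain (Pt.rot ζ hζ.pow_eq_one)) := by
      rw [← hD]
      abel
    rw [h2]
    abel
  have hcl : cl D = cl (D - div v) := by
    rw [map_sub, cl_div, sub_zero]
  rw [hcl, r17_cl_fixed ζ hζ h0 _ hfix]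
  refine ram_congr _ _ fun θ hθ => ?_
  have hrot : (Pt.rot ζ hζ.pow_eq_one (ramPt hG.ne hθ) : Pt N f) =
      ramPt hG.ne hθ := Pt.ext rfl (mul_zero ζ)
  set v' := (rotU ζ hζ.pow_eq_one h0).symm v with hv'
  have hvv : rotU ζ hζ.pow_eq_one h0 v' = v := MulEquiv.apply_symm_apply _ _
  have hord : ordR θ v' = ord (ramPt hG.ne hθ) v := by
    rw [ordR, dif_pos hθ, ← hvv, ord_rotU, hrot]
  obtain ⟨_, _, _, _, hr, _⟩ := lc_spec (N := N) hθ
  have hl := hr ζ hζ.pow_eq_one h0 v'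
  rw [hvv, hord] at hl
  have hl2 : (lc θ h : E) = ζ ^ (al N (wt f θ) * ord (ramPt hG.ne hθ) v) := by
    rw [hv, _root_.map_div, Units.val_div_eq_div_val, hl, mul_div_assoc, div_self (Units.ne_zero _),
      mul_one]
  rw [hlc θ hθ] at hl2
  have hz : ζ ^ (n θ - al N (wt f θ) * ord (ramPt hG.ne hθ) v) = 1 := by
    rw [zpow_sub₀ h0, hl2, div_self (zpow_ne_zero _ h0)]
  have hdvd := (hζ.zpow_eq_one_iff_dvd _).1 hz
  have hat : atR (D - div v) θ = atR D θ - ord (ramPt hG.ne hθ) v := by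
    rw [atR, dif_pos hθ, atR, dif_pos hθ, Finsupp.sub_apply, div_apply]
    rfl
  rw [hat]
  have hw : ((al N (wt f θ) * wt f θ : ℕ) : ℤ) = ((be N (wt f θ) * N + 1 : ℕ) : ℤ) := by
    rw [al_wt (N := N) hθ]
  push_cast at hw
  have : atR D θ - ord (ramPt hG.ne hθ) v - (atR D θ - wt f θ * n θ) =
      wt f θ * (n θ - al N (wt f θ) * ord (ramPt hG.ne hθ) v) +
        N * (be N (wt f θ) * ord (ramPt hG.ne hθ) v) := by
    linear_combination (ord (ramPt hG.ne hθ) v) * hw
  rw [this]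
  exact dvd_add (hdvd.mul_left _) (dvd_mul_right _ _)

end Pool.Agent.Lib.MP_89bcae_ag.Wt

end

section

/-!
ROW R19 (60-120 lines). `π = 1 - Z` is surjective on the Jacobian.

PROOF. The classes of points generate the Jacobian (`cl_surjective`) and the image of `π` is a
subgroup, so it is enough to treat `Q = cl (single P 1)`. By R12 there is `h` with
`nrm h = x - P.x`. By `exists_nrm_eq` (R10), `x - P.x = c · xprod (div h)`, so
(`xprod D = ∏ (x - P'.x)^{D P'}`; the exponents of the linear factors are determined: the order of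
`∏ (x - a)^{n_a}` at a point above `a` is `n_a` or `N n_a`) the sum of `div h - single P 1` over each
fibre `{P' | P'.x = a}` is zero. A divisor with sum zero over each fibre is of the form
`D - rot_* D`: a fibre consists of the points `P', P'.rot, ..., P'.rot^(N-1)` and
`single (P'.rot^i) 1 - single P' 1` is `D - rot_* D` for `D = -∑_{j<i} single (P'.rot^j) 1`.
Hence `Q = cl (single P 1) = cl (single P 1 - div h) = π (cl D)`.
-/

open Polynomial IsDedekindDomain

open scoped Classical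

namespace Pool.Agent.Lib.MP_89bcae_ag.Wt

universe u

variable {N : ℕ} {E : Type u} [Field E] {f : E[X]} [hG : IsGood N f]

/-- there is a point above every `a` -/
lemma r19_exists_pt (N : ℕ) (f : E[X]) [hG : IsGood N f] (a : E) : ∃ R : Pt N f, R.x = a := by
  have := hG.alg
  obtain ⟨y, hy⟩ := IsAlgClosed.exists_pow_nat_eq (f.eval a) hG.pos
  exact ⟨⟨a, y, hy⟩, rfl⟩

omit hG in
lemma r19_iter (ζ : E) (hζ : ζ ^ N = 1) (R : Pt N f) (i : ℕ) :
    ((Pt.rot ζ hζ)^[i] R).x = R.x ∧ ((Pt.rot ζ hζ)^[i] R).y = ζ ^ i * R.y := by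
  induction i with
  | zero => simp
  | succ n ih =>
    rw [Function.iterate_succ_apply']
    refine ⟨ih.1, ?_⟩
    change ζ * _ = _
    rw [ih.2, pow_succ]
    ring

/-- two points of a fibre differ by a rotation -/
lemma r19_fibre (ζ : E) (hζ : IsPrimitiveRoot ζ N) (R P : Pt N f) (h : P.x = R.x) :
    ∃ i : ℕ, P = (Pt.rot ζ hζ.pow_eq_one)^[i] R := by
  have he : P.y ^ N = R.y ^ N := by rw [P.eq, R.eq, h]
  by_cases h0 : R.y = 0
  · refine ⟨0, ?_⟩
    rw [h0, zero_pow hG.ne] at he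
    have : P.y = 0 := eq_zero_of_pow_eq_zero he
    ext
    · simpa using h
    · simpa using this.trans h0.symm
  · have h1 : (P.y / R.y) ^ N = 1 := by
      rw [div_pow, he, div_self (pow_ne_zero _ h0)]
    have := NeZero.mk hG.ne
    obtain ⟨i, -, hi⟩ := hζ.eq_pow_of_pow_eq_one h1
    refine ⟨i, ?_⟩
    obtain ⟨a1, a2⟩ := r19_iter ζ hζ.pow_eq_one R i
    ext
    · rw [a1, h]
    · rw [a2, hi, div_mul_cancel₀ _ h0]

/-- the homomorphism `1 - Z` -/
noncomputable def r19_pi (ζ : E) (hζ : IsPrimitiveRoot ζ N) : Jac N f →+ Jac N f :=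
  AddMonoidHom.id _ - zJ ζ hζ.pow_eq_one

lemma r19_pi_apply (ζ : E) (hζ : IsPrimitiveRoot ζ N) (Q : Jac N f) :
    r19_pi ζ hζ Q = Q - zJ ζ hζ.pow_eq_one Q := rfl

lemma r19_step (ζ : E) (hζ : IsPrimitiveRoot ζ N) (R : Pt N f) (i : ℕ) :
    cl (Finsupp.single ((Pt.rot ζ hζ.pow_eq_one)^[i] R) 1) - cl (Finsupp.single R 1) ∈
      (r19_pi ζ hζ : Jac N f →+ Jac N f).range := by
  induction i with
  | zero => simp
  | succ n ih =>
    rw [Function.iterate_succ_apply']
    set S := (Pt.rot ζ hζ.pow_eq_one)^[n] R with hS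
    have h1 : cl (Finsupp.single (Pt.rot ζ hζ.pow_eq_one S) 1) - cl (Finsupp.single S 1) ∈
        (r19_pi ζ hζ : Jac N f →+ Jac N f).range := by
      refine ⟨-cl (Finsupp.single S 1), ?_⟩
      rw [r19_pi_apply, map_neg, zJ_cl, Finsupp.mapDomain_single]
      abel
    have := add_mem h1 ih
    convert this using 1
    abel

/-- every divisor is congruent to the divisor supported on chosen points of the fibres -/
lemma r19_move (ζ : E) (hζ : IsPrimitiveRoot ζ N) (R : E → Pt N f) (hR : ∀ a, (R a).x = a)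
    (D : Pt N f →₀ ℤ) : cl D - cl (D.mapDomain fun P => R P.x) ∈
      (r19_pi ζ hζ : Jac N f →+ Jac N f).range := by
  induction D using Finsupp.induction_linear with
  | zero => simp
  | add D D' h h' =>
    rw [Finsupp.mapDomain_add, map_add, map_add]
    convert add_mem h h' using 1
    abel
  | single P n =>
    rw [Finsupp.mapDomain_single]
    obtain ⟨i, hi⟩ := r19_fibre ζ hζ (R P.x) P (by rw [hR])
    have h1 := r19_step ζ hζ (R P.x) i
    rw [← hi] at h1
    have h2 := zsmul_mem h1 n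
    have e : ∀ S : Pt N f, cl (Finsupp.single S n) = n • cl (Finsupp.single S 1) := by
      intro S
      rw [← map_zsmul, Finsupp.smul_single, smul_eq_mul, mul_one]
    rw [e, e, ← smul_sub]
    exact h2

lemma r19_ord_prod (P : Pt N f) (G : E →₀ ℤ) :
    ord P (G.prod fun a n => (xs a : (FunField N f)ˣ) ^ n) = G P.x * ord P (xs P.x) := by
  have key : ∀ s : Finset E, ord P (∏ a ∈ s, (xs a : (FunField N f)ˣ) ^ (G a)) =
      ∑ a ∈ s, G a * ord P (xs a) := by
    intro s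
    induction s using Finset.induction_on with
    | empty => simp [ord_one]
    | insert a s ha ih => rw [Finset.prod_insert ha, Finset.sum_insert ha, ord_mul, ord_zpow, ih]
  rw [Finsupp.prod, key]
  by_cases h : P.x ∈ G.support
  · rw [Finset.sum_eq_single_of_mem _ h]
    intro b _ hb
    rw [ord_xs_of_ne P (Ne.symm hb), mul_zero]
  · rw [Finset.sum_eq_zero, Finsupp.notMem_support_iff.1 h, zero_mul]
    intro b hb
    have : P.x ≠ b := fun hh => h (hh ▸ hb)
    rw [ord_xs_of_ne P this, mul_zero]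

lemma r19_ord_ne_zero (P : Pt N f) : ord P (xs P.x) ≠ 0 := by
  by_cases h : P.y = 0
  · rw [ord_xs_of_ramified P h]
    exact_mod_cast hG.ne
  · rw [ord_xs_of_unramified P h]
    exact one_ne_zero

/-- a divisor whose `x`-product is constant has sum zero over every fibre -/
lemma r19_zero (D : Pt N f →₀ ℤ) (c : Eˣ) (h : xprod D = cstU c) :
    D.mapDomain Pt.x = 0 := by
  have h1 : xprod D = (D.mapDomain Pt.x).prod fun a n => (xs a : (FunField N f)ˣ) ^ n := by
    rw [Finsupp.prod_mapDomain_index]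
    · rfl
    · intro a
      exact zpow_zero _
    · intro a m n
      exact zpow_add _ _ _
  ext a
  obtain ⟨R, hR⟩ := r19_exists_pt N f a
  have h2 := r19_ord_prod R (D.mapDomain Pt.x)
  rw [← h1, h, ord_cstU] at h2
  have h3 := (mul_eq_zero.1 h2.symm).resolve_right (r19_ord_ne_zero R)
  rw [hR] at h3
  simpa using h3

lemma exists_sub_zJ (ζ : E) (hζ : IsPrimitiveRoot ζ N) (Q : Jac N f) :
    ∃ Q' : Jac N f, Q' - zJ ζ hζ.pow_eq_one Q' = Q := by
  have h0 : ζ ≠ 0 := hζ.ne_zero hG.ne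
  choose R hR using r19_exists_pt N f
  have hpt : ∀ P : Pt N f, cl (Finsupp.single P 1) ∈
      (r19_pi ζ hζ : Jac N f →+ Jac N f).range := by
    intro P
    obtain ⟨h, hh⟩ := exists_nrm_eq_xs (f := f) ζ hζ h0 P.x
    obtain ⟨c, hc⟩ := exists_nrm_eq ζ hζ h0 h
    have h1 : xprod (div h - Finsupp.single P 1) = cstU c⁻¹ := by
      have e1 : xprod (div h - Finsupp.single P 1) * xprod (Finsupp.single P 1) =
          xprod (div h) := by
        rw [← xprod_add, sub_add_cancel]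
      have e2 : xprod (Finsupp.single P 1) = (xs P.x : (FunField N f)ˣ) := by
        unfold xprod
        rw [Finsupp.prod_single_index (zpow_zero _), zpow_one]
      rw [e2, ← hh, hc] at e1
      have e3 : xprod (div h) * (xprod (div h - Finsupp.single P 1) * cstU c) =
          xprod (div h) * 1 := by
        rw [mul_one]
        conv_rhs => rw [← e1]
        rw [mul_comm, mul_assoc]
      have e4 := mul_left_cancel e3
      rw [map_inv]
      exact eq_inv_of_mul_eq_one_left e4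
    have h2 := r19_zero _ _ h1
    have h3 := r19_move ζ hζ R hR (div h - Finsupp.single P 1)
    have h4 : (div h - Finsupp.single P 1).mapDomain (fun P : Pt N f => R P.x) = 0 := by
      have : (fun P : Pt N f => R P.x) = R ∘ Pt.x := rfl
      rw [this, Finsupp.mapDomain_comp, h2, Finsupp.mapDomain_zero]
    rw [h4, map_zero, sub_zero, map_sub, cl_div, zero_sub] at h3
    exact neg_mem_iff.1 h3
  obtain ⟨D, rfl⟩ := cl_surjective (N := N) (f := f) Q
  have hD : cl D ∈ (r19_pi ζ hζ : Jac N f →+ Jac N f).range := by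
    induction D using Finsupp.induction_linear with
    | zero => simp
    | add D D' h h' =>
      rw [map_add]
      exact add_mem h h'
    | single P n =>
      have : cl (Finsupp.single P n) = n • cl (Finsupp.single P 1) := by
        rw [← map_zsmul, Finsupp.smul_single, smul_eq_mul, mul_one]
      rw [this]
      exact zsmul_mem (hpt P) n
  obtain ⟨Q', hQ'⟩ := hD
  exact ⟨Q', by rw [← r19_pi_apply ζ hζ, hQ']⟩

end Pool.Agent.Lib.MP_89bcae_ag.Wt

end
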