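import Mathlib
import Pool.Agent.Lib.MP_89bcae_ag.Mk.K004

section

/-!
# The places `t = a` of `F(t)`, their completions and the automorphisms of these
-/

open Polynomial IsDedekindDomain Topology

open scoped Classical WithZeroTopology

namespace Pool.Agent.Lib.MP_89bcae_ag.Sup

set_option linter.unusedSectionVars false

section Place

variable {F : Type*} [Field F]

/-- The place `t = τ` of `F(t)`. -/
noncomputable def plc (τ : F) : HeightOneSpectrum F[X] where
  asIdeal := Ideal.span {X - C τ}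
  isPrime := (Ideal.span_singleton_prime (X_sub_C_ne_zero τ)).mpr (prime_X_sub_C τ)
  ne_bot := by rw [Ne, Ideal.span_singleton_eq_bot]; exact X_sub_C_ne_zero τ

variable (L : Type*) [Field L] [Algebra F[X] L] [IsFractionRing F[X] L]

lemma val_algebraMap (τ : F) (p : F[X]) :
    Valued.v (algebraMap F[X] ((plc τ).adicCompletion L) p) = (plc τ).intValuation p :=
  (HeightOneSpectrum.valuedAdicCompletion_eq_valuation (K := L) (plc τ) p).trans
    ((plc τ).valuation_of_algebraMap p)

lemma val_le_one (τ : F) (p : F[X]) :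
    Valued.v (algebraMap F[X] ((plc τ).adicCompletion L) p) ≤ 1 := by
  rw [val_algebraMap]
  exact (plc τ).intValuation_le_one p

lemma val_X_sub_C (τ : F) :
    Valued.v (algebraMap F[X] ((plc τ).adicCompletion L) (X - C τ)) =
      WithZero.exp (-1 : ℤ) := by
  rw [val_algebraMap]
  exact (plc τ).intValuation_singleton (X_sub_C_ne_zero τ) rfl

lemma val_eq_one (τ : F) {p : F[X]} (hp : p.eval τ ≠ 0) :
    Valued.v (algebraMap F[X] ((plc τ).adicCompletion L) p) = 1 := by
  rw [val_algebraMap, HeightOneSpectrum.intValuation_eq_one_iff]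
  change p ∉ Ideal.span {X - C τ}
  rw [Ideal.mem_span_singleton, dvd_iff_isRoot]
  exact hp

end Place

section Resid

variable {F : Type*} [Field F] (L : Type*) [Field L] [Algebra F[X] L] [IsFractionRing F[X] L]

lemma val_lt_one_of_root (τ : F) {p : F[X]} (hp : p.eval τ = 0) :
    Valued.v (algebraMap F[X] ((plc τ).adicCompletion L) p) < 1 := by
  rw [val_algebraMap, HeightOneSpectrum.intValuation_lt_one_iff_mem]
  change p ∈ Ideal.span {X - C τ}
  rw [Ideal.mem_span_singleton, dvd_iff_isRoot]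
  exact hp

/-- Every integral element of the completion at `t = τ` is congruent to a constant. -/
lemma exists_residue (τ : F) (x : (plc τ).adicCompletion L) (hx : Valued.v x ≤ 1) :
    ∃ c : F, Valued.v (x - algebraMap F[X] _ (C c)) < 1 := by
  -- approximate by an element of `L`
  obtain ⟨y, hy⟩ : ∃ y : L, Valued.v (x - algebraMap L ((plc τ).adicCompletion L) y) < 1 := by
    have h1 := HeightOneSpectrum.denseRange_algebraMap L (plc τ)
    have hcont : Continuous (Valued.v : (plc τ).adicCompletion L → WithZero (Multiplicative ℤ)) :=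
      Valued.continuous_valuation_of_surjective
        (HeightOneSpectrum.valuedAdicCompletion_surjective L (plc τ))
    have h2 : IsOpen {z : (plc τ).adicCompletion L | Valued.v (x - z) < 1} := by
      have : {z : (plc τ).adicCompletion L | Valued.v (x - z) < 1} =
          (fun z => Valued.v (x - z)) ⁻¹' (Set.Iio (1 : WithZero (Multiplicative ℤ))) := rfl
      rw [this]
      exact (WithZeroTopology.isOpen_Iio).preimage (hcont.comp (continuous_const.sub continuous_id))
    obtain ⟨z, hz, y, rfl⟩ := h1.inter_open_nonempty _ h2 ⟨x, by simp⟩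
    exact ⟨y, hz⟩
  have hy1 : Valued.v (algebraMap L ((plc τ).adicCompletion L) y) ≤ 1 := by
    have : algebraMap L ((plc τ).adicCompletion L) y =
      x - (x - algebraMap L ((plc τ).adicCompletion L) y) := by ring
    rw [this]
    apply le_trans (Valuation.map_sub _ _ _)
    exact max_le hx hy.le
  have hval : ∀ z : L, Valued.v (algebraMap L ((plc τ).adicCompletion L) z) =
      (plc τ).valuation L z := fun z =>
    HeightOneSpectrum.valuedAdicCompletion_eq_valuation' (plc τ) z
  rw [hval] at hy1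
  obtain ⟨a, ha⟩ := HeightOneSpectrum.exists_valuation_sub_lt_of_integer (plc τ) hy1 1
  refine ⟨a.eval τ, ?_⟩
  have e1 : x - algebraMap F[X] ((plc τ).adicCompletion L) (C (a.eval τ)) =
      (x - algebraMap L ((plc τ).adicCompletion L) y) -
        algebraMap L ((plc τ).adicCompletion L) (algebraMap F[X] L a - y) +
        algebraMap F[X] ((plc τ).adicCompletion L) (a - C (a.eval τ)) := by
    rw [map_sub, map_sub, ← IsScalarTower.algebraMap_apply]
    ring
  rw [e1]
  apply lt_of_le_of_lt (Valuation.map_add _ _ _)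
  apply max_lt
  · apply lt_of_le_of_lt (Valuation.map_sub _ _ _)
    apply max_lt hy
    rw [hval]
    exact ha
  · apply val_lt_one_of_root
    simp

end Resid

section Cont

variable {A B : Type*} [Field A] [Field B] {v : Valuation A (WithZero (Multiplicative ℤ))}
  {v' : Valuation B (WithZero (Multiplicative ℤ))}

lemma continuous_congr8 (f : A ≃+* B) (h : ∀ x, v' (f x) = v x)
    (hsurj : Function.Surjective v) : Continuous (WithVal.congr v v' f) := by
  apply continuous_of_continuousAt_zero (WithVal.congr v v' f)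
  unfold ContinuousAt
  rw [map_zero, (Valued.hasBasis_nhds_zero (WithVal v') _).tendsto_right_iff]
  intro γ _
  set δ := MonoidWithZeroHom.ValueGroup₀.embedding γ.1 with hδ
  have hδ0 : δ ≠ 0 := by
    rw [hδ]
    simp
  obtain ⟨x₀, hx₀⟩ := hsurj δ
  have hne : (Valued.v.restrict (WithVal.toVal v x₀)) ≠ 0 := by
    intro h0
    rw [Valuation.restrict_eq_zero_iff] at h0
    rw [WithVal.valued_toVal, hx₀] at h0
    exact hδ0 h0
  have hopen := (Valued.isOpen_ball (WithVal v)
    (Valued.v.restrict (WithVal.toVal v x₀))).mem_nhds (x := 0) (by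
      simp only [Set.mem_ofPred_eq, map_zero]
      exact zero_lt_iff.mpr hne)
  filter_upwards [hopen] with x hx
  change Valued.v.restrict _ < γ.1
  rw [Valuation.restrict_lt_iff_lt_embedding]
  have h1 : Valued.v x < Valued.v (WithVal.toVal v x₀) := (Valuation.restrict_lt_iff _).mp hx
  have h1' : v x.ofVal < v x₀ := h1
  rw [hx₀] at h1'
  have h2 : Valued.v (WithVal.congr v v' f x) = v x.ofVal := by
    rw [WithVal.congr_apply, WithVal.valued_toVal, h]
  rw [h2]
  exact h1'

/-- The isomorphism of completions induced by an isomorphism compatible with the valuations. -/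
lemma exists_completion_equiv (f : A ≃+* B) (h : ∀ x, v' (f x) = v x)
    (hsurj : Function.Surjective v) (hsurj' : Function.Surjective v') :
    ∃ φ : v.Completion ≃+* v'.Completion,
      (∀ x : A, φ (x : v.Completion) = ((f x : B) : v'.Completion)) ∧
      ∀ x, Valued.v (φ x) = Valued.v x := by
  have hc := continuous_congr8 f h hsurj
  have h' : ∀ y, v (f.symm y) = v' y := by
    intro y
    rw [← h, f.apply_symm_apply]
  have hc' : Continuous (WithVal.congr v v' f).symm := continuous_congr8 f.symm h' hsurj'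
  refine ⟨UniformSpace.Completion.mapRingEquiv (WithVal.congr v v' f) hc hc', ?_, ?_⟩
  · intro x
    exact UniformSpace.Completion.mapRingHom_coe hc _
  · have h1 : Function.Surjective (Valued.v : v.Completion → WithZero (Multiplicative ℤ)) :=
      Valued.valuedCompletion_surjective_iff.mpr (fun γ => by
        obtain ⟨x, hx⟩ := hsurj γ
        exact ⟨WithVal.toVal v x, hx⟩)
    have h1' : Function.Surjective (Valued.v : v'.Completion → WithZero (Multiplicative ℤ)) :=
      Valued.valuedCompletion_surjective_iff.mpr (fun γ => by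
        obtain ⟨x, hx⟩ := hsurj' γ
        exact ⟨WithVal.toVal v' x, hx⟩)
    have h2 := Valued.continuous_valuation_of_surjective h1
    have h2' := Valued.continuous_valuation_of_surjective h1'
    have h3 : Continuous (UniformSpace.Completion.mapRingEquiv (WithVal.congr v v' f) hc hc') :=
      UniformSpace.Completion.continuous_map
    intro x
    refine UniformSpace.Completion.induction_on x ?_ fun a => ?_
    · exact isClosed_eq (h2'.comp h3) h2
    · have h4 : UniformSpace.Completion.mapRingEquiv (WithVal.congr v v' f) hc hc'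
          (a : UniformSpace.Completion (WithVal v)) =
          ((WithVal.congr v v' f a : WithVal v') : UniformSpace.Completion (WithVal v')) :=
        UniformSpace.Completion.mapRingHom_coe hc _
      rw [h4, Valued.valuedCompletion_apply, Valued.valuedCompletion_apply]
      exact h a.ofVal

end Cont

section Place2

variable {F : Type*} [Field F] (L : Type*) [Field L] [Algebra F[X] L] [IsFractionRing F[X] L]

lemma intValuation_map (σ : F ≃+* F) (τ : F) (p : F[X]) :
    (plc (σ τ)).intValuation (p.map (σ : F →+* F)) = (plc τ).intValuation p := by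
  by_cases hp : p = 0
  · rw [hp, Polynomial.map_zero, map_zero, map_zero]
  obtain ⟨q, hq, hqτ⟩ := exists_eq_pow_rootMultiplicity_mul_and_not_dvd p hp τ
  have h1 : ∀ (τ : F) (q : F[X]) (n : ℕ), ¬ (X - C τ) ∣ q →
      (plc τ).intValuation ((X - C τ) ^ n * q) = WithZero.exp (-1 : ℤ) ^ n := by
    intro τ q n hq
    rw [map_mul, map_pow]
    have e1 : (plc τ).intValuation (X - C τ) = WithZero.exp (-1 : ℤ) :=
      (plc τ).intValuation_singleton (X_sub_C_ne_zero τ) rfl
    have e2 : (plc τ).intValuation q = 1 := by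
      rw [HeightOneSpectrum.intValuation_eq_one_iff]
      change q ∉ Ideal.span {X - C τ}
      rw [Ideal.mem_span_singleton]
      exact hq
    rw [e1, e2, mul_one]
  rw [hq, h1 τ q _ hqτ, Polynomial.map_mul, Polynomial.map_pow, Polynomial.map_sub,
    Polynomial.map_X, Polynomial.map_C]
  apply h1
  intro h2
  apply hqτ
  rw [dvd_iff_isRoot, IsRoot.def] at h2 ⊢
  rw [eval_map] at h2
  have h3 : eval₂ (σ : F →+* F) (σ τ) q = σ (q.eval τ) :=
    eval₂_hom (p := q) (σ : F →+* F) τ
  rw [h3] at h2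
  exact (map_eq_zero σ).mp h2

/-- The automorphism of `F(t)` induced by an automorphism of `F`. -/
noncomputable def coefL (σ : F ≃+* F) : L ≃+* L :=
  IsFractionRing.ringEquivOfRingEquiv (K := L) (L := L) (Polynomial.mapEquiv σ)

lemma coefL_algebraMap (σ : F ≃+* F) (p : F[X]) :
    coefL L σ (algebraMap F[X] L p) = algebraMap F[X] L (p.map (σ : F →+* F)) :=
  IsFractionRing.ringEquivOfRingEquiv_algebraMap (Polynomial.mapEquiv σ) p

lemma valuation_coefL (σ : F ≃+* F) (τ : F) (x : L) :
    (plc (σ τ)).valuation L (coefL L σ x) = (plc τ).valuation L x := by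
  obtain ⟨p, q, hq, rfl⟩ := IsFractionRing.div_surjective (A := F[X]) x
  rw [map_div₀, map_div₀, map_div₀, coefL_algebraMap, coefL_algebraMap,
    HeightOneSpectrum.valuation_of_algebraMap, HeightOneSpectrum.valuation_of_algebraMap,
    HeightOneSpectrum.valuation_of_algebraMap, HeightOneSpectrum.valuation_of_algebraMap,
    intValuation_map, intValuation_map]

/-- The isomorphism of the completion at `t = τ` with the completion at `t = σ(τ)` induced by an
automorphism `σ` of `F`. -/
lemma exists_adic_equiv (σ : F ≃+* F) (τ : F) :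
    ∃ φ : (plc τ).adicCompletion L ≃+* (plc (σ τ)).adicCompletion L,
      (∀ x : L, φ (algebraMap L _ x) = algebraMap L _ (coefL L σ x)) ∧
      ∀ x, Valued.v (φ x) = Valued.v x := by
  obtain ⟨φ, h1, h2⟩ := exists_completion_equiv (v := (plc τ).valuation L)
    (v' := (plc (σ τ)).valuation L) (coefL L σ) (valuation_coefL L σ τ)
    ((plc τ).valuation_surjective L) ((plc (σ τ)).valuation_surjective L)
  refine ⟨((HeightOneSpectrum.adicCompletion.equiv L (plc τ)).trans φ).trans
    (HeightOneSpectrum.adicCompletion.equiv L (plc (σ τ))).symm, ?_, ?_⟩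
  · intro x
    apply HeightOneSpectrum.adicCompletion.ext
    exact h1 x
  · intro x
    exact h2 x.toCompletion

end Place2

end Pool.Agent.Lib.MP_89bcae_ag.Sup

end

section

/-!
# Local analysis at a place `t = a`: definitions

`M` is an algebraic closure of the completion of `F(t)` at `t = a`, with its absolute value `v`.
-/

open Polynomial

open scoped Classical

namespace Pool.Agent.Lib.MP_89bcae_ag.Sup

universe u

/-- The real number `x` is a power of `ϖ` with exponent in `ℤ[1/p]`. -/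
def Val (p : ℕ) (ϖ x : ℝ) : Prop := ∃ (s : ℕ) (i : ℤ), x ^ p ^ s = ϖ ^ i

/-- `v` is a nonarchimedean absolute value of `M`, with residue field `F ⊆ M`, such that
`v (t - a) < 1`. -/
structure LocCtx {F M : Type u} [Field F] [Field M] [Algebra F M] (v : AbsoluteValue M ℝ) (a : F)
    (t : M) : Prop where
  alg : IsAlgClosed F
  nonarch : ∀ x y, v (x + y) ≤ max (v x) (v y)
  const : ∀ c : F, c ≠ 0 → v (algebraMap F M c) = 1
  lt_one : v (t - algebraMap F M a) < 1
  ne : t ≠ algebraMap F M a
  residue : ∀ x, v x ≤ 1 → ∃ c : F, v (x - algebraMap F M c) < 1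

/-- `Γ` is a group of automorphisms of `M` over `F(t)`, preserving `v`, whose fixed elements have
their values in `ϖ ^ ℤ[1/p]`. -/
structure LocGrp (p : ℕ) (F : Type u) {M : Type u} [Field F] [Field M] [Algebra F M] (v : AbsoluteValue M ℝ)
    (t : M) (ϖ : ℝ) {f : M[X]} (Γ : Subgroup (Sym f)) : Prop where
  pos : 0 < ϖ
  lt_one : ϖ < 1
  inv : ∀ σ ∈ Γ, ∀ x, v ((σ : M ≃+* M) x) = v x
  fix : ∀ σ ∈ Γ, ∀ c : F, (σ : M ≃+* M) (algebraMap F M c) = algebraMap F M c
  fixt : ∀ σ ∈ Γ, (σ : M ≃+* M) t = t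
  disc : ∀ x, x ≠ 0 → (∀ σ ∈ Γ, (σ : M ≃+* M) x = x) → Val p ϖ (v x)

/-- The polynomial `d⁻¹ (g(x) - t)`. -/
noncomputable def locPoly {F M : Type u} [Field F] [Field M] [Algebra F M] (g : F[X]) (t d : M) :
    M[X] :=
  C d⁻¹ * (g.map (algebraMap F M) - C t)

end Pool.Agent.Lib.MP_89bcae_ag.Sup

end

section

/-!
ROW L01 (60-120 lines). Elementary lemmas on `Val p ϖ x : ∃ s i, x ^ p ^ s = ϖ ^ i` (positive reals,
`0 < ϖ < 1`, `p ≥ 1`; `p = 1` is allowed).

PROOFS. Raise to powers of `p` to have a common exponent `s`. For `Val.of_pow`: `x ^ p^s = ϖ ^ i`,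
`(x ^ m) ^ p^r = ϖ ^ (ℓ j)`; with common `s`: `ϖ ^ (m i) = ϖ ^ (ℓ j)`, so `m i = ℓ j`
(`ϖ ≠ 1`, positive), and `ℓ ∣ i` as `ℓ` and `m` are coprime. `Val.root`: `x ^ ℓ` with
`(x ^ ℓ) ^ p^s = ϖ ^ (ℓ i)` gives `x ^ p^s = ϖ ^ i` by injectivity of `ℓ`-th powers of positive
reals. `Val.pow_dvd`: `ϖ ^ (n p^s) = ϖ ^ (ℓ i)`, `n p ^ s = ℓ i`, `ℓ` coprime to `p`.
-/

open Polynomial

open scoped Classical

namespace Pool.Agent.Lib.MP_89bcae_ag.Sup

variable {p : ℕ} {ϖ : ℝ}

private lemma L01.npow (x : ℝ) (i : ℤ) (n : ℕ) : (x ^ i) ^ n = x ^ (i * n) := by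
  rw [zpow_mul, zpow_natCast]

private lemma L01.npow' (x : ℝ) (i : ℤ) (n : ℕ) : (x ^ n) ^ i = x ^ ((n : ℤ) * i) := by
  rw [zpow_mul, zpow_natCast]

private lemma L01.zmul (x : ℝ) (a b : ℤ) : ∃ c : ℤ, x ^ a * x ^ b = x ^ c := by
  by_cases hx : x = 0
  · subst hx
    by_cases ha : a = 0
    · exact ⟨b, by rw [ha, zpow_zero, one_mul]⟩
    · refine ⟨a, ?_⟩
      rw [zero_zpow a ha, zero_mul]
  · exact ⟨a + b, (zpow_add₀ hx a b).symm⟩

private lemma L01.zinj {ϖ : ℝ} (h0 : 0 < ϖ) (h1 : ϖ < 1) {a b : ℤ} (h : ϖ ^ a = ϖ ^ b) : a = b :=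
  zpow_right_injective₀ h0 h1.ne h

lemma Val.one (p : ℕ) (ϖ : ℝ) : Val p ϖ 1 := ⟨0, 0, by simp⟩

lemma Val.mul {x y : ℝ} (hx : Val p ϖ x) (hy : Val p ϖ y) : Val p ϖ (x * y) := by
  obtain ⟨s, i, hs⟩ := hx
  obtain ⟨r, j, hr⟩ := hy
  obtain ⟨c, hc⟩ := L01.zmul ϖ (i * ((p ^ r : ℕ) : ℤ)) (j * ((p ^ s : ℕ) : ℤ))
  refine ⟨s + r, c, ?_⟩
  rw [mul_pow, ← hc, ← L01.npow, ← L01.npow, ← hs, ← hr, ← pow_mul, ← pow_mul, ← pow_add,
    ← pow_add, add_comm r s]

lemma Val.inv {x : ℝ} (hx : Val p ϖ x) : Val p ϖ x⁻¹ := by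
  obtain ⟨s, i, hs⟩ := hx
  exact ⟨s, -i, by rw [inv_pow, hs, zpow_neg]⟩

lemma Val.pow {x : ℝ} (hx : Val p ϖ x) (n : ℕ) : Val p ϖ (x ^ n) := by
  obtain ⟨s, i, hs⟩ := hx
  exact ⟨s, i * n, by rw [pow_right_comm, hs, L01.npow]⟩

lemma Val.zpow {x : ℝ} (hx : Val p ϖ x) (n : ℤ) : Val p ϖ (x ^ n) := by
  obtain ⟨s, i, hs⟩ := hx
  refine ⟨s, i * n, ?_⟩
  rw [L01.npow, mul_comm n, zpow_mul, zpow_natCast, hs, zpow_mul]

lemma Val.prod {ι : Type*} (s : Finset ι) (x : ι → ℝ) (hx : ∀ i ∈ s, Val p ϖ (x i)) :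
    Val p ϖ (∏ i ∈ s, x i) :=
  Finset.prod_induction x (Val p ϖ) (fun _ _ ha hb => ha.mul hb) (Val.one p ϖ) hx

/-- `ϖ ^ ℓ` instead of `ϖ`: a weaker statement for `ϖ`. -/
lemma Val.mono {x : ℝ} {ℓ : ℕ} (hx : Val p (ϖ ^ ℓ) x) : Val p ϖ x := by
  obtain ⟨s, i, hs⟩ := hx
  exact ⟨s, ℓ * i, by rw [hs, L01.npow']⟩

lemma Val.pow_self {x : ℝ} (ℓ : ℕ) (hx : Val p ϖ x) : Val p (ϖ ^ ℓ) (x ^ ℓ) := by
  obtain ⟨s, i, hs⟩ := hx
  exact ⟨s, i, by rw [pow_right_comm, hs, L01.npow, L01.npow', mul_comm]⟩

lemma Val.of_pow {x : ℝ} {ℓ m : ℕ} (h0 : 0 < ϖ) (h1 : ϖ < 1) (hm : m.Coprime ℓ) (hx0 : 0 < x)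
    (hx : Val p ϖ x) (h : Val p (ϖ ^ ℓ) (x ^ m)) : Val p (ϖ ^ ℓ) x := by
  obtain ⟨s, i, hs⟩ := hx
  obtain ⟨r, j, hr⟩ := h
  have e1 : x ^ p ^ (s + r) = ϖ ^ (i * ((p ^ r : ℕ) : ℤ)) := by
    rw [pow_add, pow_mul, hs, L01.npow]
  have e2 : (x ^ p ^ (s + r)) ^ m = ϖ ^ ((ℓ : ℤ) * (j * ((p ^ s : ℕ) : ℤ))) := by
    rw [pow_right_comm, add_comm s r, pow_add, pow_mul, hr, L01.npow, L01.npow']
  rw [e1, L01.npow] at e2
  have e3 := L01.zinj h0 h1 e2
  have hd : (ℓ : ℤ) ∣ (i * ((p ^ r : ℕ) : ℤ)) * (m : ℤ) := ⟨_, e3⟩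
  have hco : IsCoprime (ℓ : ℤ) (m : ℤ) := (Nat.isCoprime_iff_coprime.2 hm).symm
  obtain ⟨k, hk⟩ := hco.dvd_of_dvd_mul_right hd
  exact ⟨s + r, k, by rw [e1, hk, L01.npow']⟩

lemma Val.root {x : ℝ} {ℓ : ℕ} (hℓ : ℓ ≠ 0) (h0 : 0 < ϖ) (hx0 : 0 < x)
    (h : Val p (ϖ ^ ℓ) (x ^ ℓ)) : Val p ϖ x := by
  obtain ⟨s, i, hs⟩ := h
  refine ⟨s, i, ?_⟩
  rw [pow_right_comm, L01.npow', mul_comm, ← L01.npow] at hs
  exact (pow_left_inj₀ (pow_pos hx0 _).le (zpow_pos h0 _).le hℓ).1 hs

lemma Val.dvd_of_zpow {ℓ : ℕ} (hp : p.Coprime ℓ) (h0 : 0 < ϖ) (h1 : ϖ < 1) (n : ℤ)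
    (h : Val p (ϖ ^ ℓ) (ϖ ^ n)) : (ℓ : ℤ) ∣ n := by
  obtain ⟨s, i, hs⟩ := h
  rw [L01.npow, L01.npow'] at hs
  have e := L01.zinj h0 h1 hs
  have hco : IsCoprime (ℓ : ℤ) ((p ^ s : ℕ) : ℤ) :=
    (Nat.isCoprime_iff_coprime.2 (Nat.Coprime.pow_left s hp)).symm
  exact hco.dvd_of_dvd_mul_right ⟨_, e⟩

end Pool.Agent.Lib.MP_89bcae_ag.Sup

end

section

/-!
ROW L02 (80-150 lines). Residues and `ℓ`-th roots of units.

PROOFS. `v_eq_one_of_residue`: ultrametric. Uniqueness of residues: a constant `c - c'` with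
`v < 1` is zero. `root_of_unit_fixed`: let `z^ℓ = w`, `σ w = w`, `v w = 1`, so `v z = 1`. Let `c` be
the residue of `z`, `c ≠ 0`. `v (σ z - c) = v (σ (z - c)) < 1`. `σ z = ξ z` with `ξ^ℓ = 1`, and `ξ` is
a constant: it is a power of `ζ`, which is in (the image of) `F`; `v (ξ z - z) < 1` so
`v (ξ - 1) < 1` and `ξ = 1`.
`root_fixed_of_val`: `(z ^ p^s / π' ^ i)` is an `ℓ`-th root of a fixed unit, where
`v (z ^ ℓ) ^ p^s = (ϖ ^ ℓ) ^ i`; so it is fixed; so `σ (z) ^ p^s = z ^ p^s`; as
`(σ z / z)^ℓ = 1` and `p` is prime to `ℓ`, `σ z = z`.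
-/

open Polynomial

open scoped Classical

namespace Pool.Agent.Lib.MP_89bcae_ag.Sup

universe u

variable {F M : Type u} [Field F] [Field M] [Algebra F M] {v : AbsoluteValue M ℝ} {a : F} {t : M}

lemma LocCtx.residue_unique (h : LocCtx v a t) {x : M} {c c' : F}
    (hc : v (x - algebraMap F M c) < 1) (hc' : v (x - algebraMap F M c') < 1) : c = c' := by
  by_contra hne
  have h1 := h.const (c - c') (sub_ne_zero.mpr hne)
  have h2 : algebraMap F M (c - c') = (x - algebraMap F M c') + -(x - algebraMap F M c) := by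
    rw [map_sub]; ring
  have h3 := h.nonarch (x - algebraMap F M c') (-(x - algebraMap F M c))
  rw [← h2, h1, v.map_neg] at h3
  exact absurd h3 (not_le.mpr (max_lt hc' hc))

lemma LocCtx.v_const_le (h : LocCtx v a t) (c : F) : v (algebraMap F M c) ≤ 1 := by
  by_cases hc : c = 0
  · rw [hc, map_zero, map_zero]
    exact zero_le_one
  · exact (h.const c hc).le

lemma LocCtx.v_eq_one (h : LocCtx v a t) {x : M} {c : F} (hc : v (x - algebraMap F M c) < 1)
    (h0 : c ≠ 0) : v x = 1 := by
  have h1 := h.const c h0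
  apply le_antisymm
  · have h2 := h.nonarch (x - algebraMap F M c) (algebraMap F M c)
    rw [sub_add_cancel, h1] at h2
    exact h2.trans (max_le hc.le le_rfl)
  · have h2 := h.nonarch x (-(x - algebraMap F M c))
    rw [v.map_neg, show x + -(x - algebraMap F M c) = algebraMap F M c by ring, h1] at h2
    rcases le_max_iff.mp h2 with h3 | h3
    · exact h3
    · exact absurd h3 (not_le.mpr hc)

lemma LocCtx.v_le_one (h : LocCtx v a t) {x : M} {c : F} (hc : v (x - algebraMap F M c) < 1) :
    v x ≤ 1 := by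
  have h2 := h.nonarch (x - algebraMap F M c) (algebraMap F M c)
  rw [sub_add_cancel] at h2
  exact h2.trans (max_le hc.le (h.v_const_le c))

/-- Residues are multiplicative. -/
lemma LocCtx.residue_mul (h : LocCtx v a t) {x y : M} {c d : F}
    (hc : v (x - algebraMap F M c) < 1) (hd : v (y - algebraMap F M d) < 1) :
    v (x * y - algebraMap F M (c * d)) < 1 := by
  have h1 : x * y - algebraMap F M (c * d) =
      x * (y - algebraMap F M d) + algebraMap F M d * (x - algebraMap F M c) := by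
    rw [map_mul]; ring
  rw [h1]
  refine (h.nonarch _ _).trans_lt (max_lt ?_ ?_)
  · rw [v.map_mul]
    exact (mul_le_of_le_one_left (v.nonneg _) (h.v_le_one hc)).trans_lt hd
  · rw [v.map_mul]
    exact (mul_le_of_le_one_left (v.nonneg _) (h.v_const_le d)).trans_lt hc

lemma LocCtx.residue_inv (h : LocCtx v a t) {x : M} {c : F}
    (hc : v (x - algebraMap F M c) < 1) (h0 : c ≠ 0) :
    v (x⁻¹ - algebraMap F M c⁻¹) < 1 := by
  have hx1 : v x = 1 := h.v_eq_one hc h0
  have hx0 : x ≠ 0 := by
    rintro rfl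
    rw [map_zero] at hx1
    exact zero_ne_one hx1
  have hc0 : algebraMap F M c ≠ 0 := by
    intro h2
    have h3 := h.const c h0
    rw [h2, map_zero] at h3
    exact zero_ne_one h3
  have h1 : x⁻¹ - algebraMap F M c⁻¹ = -(x - algebraMap F M c) * (x⁻¹ * (algebraMap F M c)⁻¹) := by
    rw [map_inv₀]
    field_simp
    ring
  rw [h1, v.map_mul, v.map_mul, v.map_neg, map_inv₀, map_inv₀, hx1, h.const c h0]
  simpa using hc

private lemma L02_residue_pow (h : LocCtx v a t) {x : M} {c : F}
    (hc : v (x - algebraMap F M c) < 1) (n : ℕ) :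
    v (x ^ n - algebraMap F M (c ^ n)) < 1 := by
  induction n with
  | zero => simp
  | succ n ih =>
    rw [pow_succ, pow_succ]
    exact h.residue_mul ih hc

lemma LocCtx.residue_zpow (h : LocCtx v a t) {x : M} {c : F}
    (hc : v (x - algebraMap F M c) < 1) (h0 : c ≠ 0) (n : ℤ) :
    v (x ^ n - algebraMap F M (c ^ n)) < 1 := by
  rcases n with n | n
  · rw [Int.ofNat_eq_natCast, zpow_natCast, zpow_natCast]
    exact L02_residue_pow h hc n
  · rw [zpow_negSucc, zpow_negSucc]
    exact h.residue_inv (L02_residue_pow h hc (n + 1)) (pow_ne_zero _ h0)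

lemma LocCtx.residue_eval (h : LocCtx v a t) {x : M} {c : F}
    (hc : v (x - algebraMap F M c) < 1) (P : F[X]) :
    v (aeval x P - algebraMap F M (P.eval c)) < 1 := by
  induction P using Polynomial.induction_on' with
  | add p q hp hq =>
    have h1 : aeval x (p + q) - algebraMap F M ((p + q).eval c) =
        (aeval x p - algebraMap F M (p.eval c)) + (aeval x q - algebraMap F M (q.eval c)) := by
      rw [map_add, eval_add, map_add]; ring
    rw [h1]
    exact (h.nonarch _ _).trans_lt (max_lt hp hq)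
  | monomial n r =>
    rw [aeval_monomial, eval_monomial]
    refine h.residue_mul ?_ (L02_residue_pow h hc n)
    simp

lemma LocCtx.root_of_unit_fixed (h : LocCtx v a t) {ℓ : ℕ} (hℓ : ℓ ≠ 0) {ζ : F}
    (hζ : IsPrimitiveRoot ζ ℓ) (σ : M ≃+* M) (hσ : ∀ x, v (σ x) = v x)
    (hc : ∀ c : F, σ (algebraMap F M c) = algebraMap F M c) {z : M} (h1 : v z = 1)
    (hz : σ (z ^ ℓ) = z ^ ℓ) : σ z = z := by
  have hz0 : z ≠ 0 := by
    rintro rfl
    rw [map_zero] at h1
    exact zero_ne_one h1
  obtain ⟨c, hcz⟩ := h.residue z h1.le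
  have hc0 : c ≠ 0 := by
    rintro rfl
    rw [map_zero, sub_zero, h1] at hcz
    exact lt_irrefl _ hcz
  have hξ : (σ z / z) ^ ℓ = 1 := by
    rw [div_pow, ← map_pow, hz, div_self (pow_ne_zero _ hz0)]
  have : NeZero ℓ := ⟨hℓ⟩
  have hζM : IsPrimitiveRoot (algebraMap F M ζ) ℓ :=
    hζ.map_of_injective (algebraMap F M).injective
  obtain ⟨i, -, hi⟩ := hζM.eq_pow_of_pow_eq_one hξ
  have hσz : σ z = algebraMap F M (ζ ^ i) * z := by
    rw [map_pow, hi, div_mul_cancel₀ _ hz0]
  have h2 : v (σ z - algebraMap F M c) < 1 := by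
    have h3 := hσ (z - algebraMap F M c)
    rw [map_sub, hc] at h3
    rw [h3]
    exact hcz
  have h4 : v (σ z - algebraMap F M (ζ ^ i * c)) < 1 := by
    rw [hσz]
    refine h.residue_mul ?_ hcz
    simp
  have h5 : c = ζ ^ i * c := h.residue_unique h2 h4
  have h6 : ζ ^ i = 1 := by
    have h7 : ζ ^ i * c = 1 * c := by rw [one_mul]; exact h5.symm
    exact mul_right_cancel₀ hc0 h7
  rw [hσz, h6, map_one, one_mul]

lemma LocCtx.root_fixed_of_val (h : LocCtx v a t) {ℓ p : ℕ} (hℓ : ℓ ≠ 0) (hp : p.Coprime ℓ) {ζ : F}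
    (hζ : IsPrimitiveRoot ζ ℓ) (σ : M ≃+* M) (hσ : ∀ x, v (σ x) = v x)
    (hc : ∀ c : F, σ (algebraMap F M c) = algebraMap F M c) {z π' : M} (hz0 : z ≠ 0)
    (hπ0 : π' ≠ 0) (hπ : σ π' = π') (hz : σ (z ^ ℓ) = z ^ ℓ)
    (hv : Val p (v π' ^ ℓ) (v (z ^ ℓ))) : σ z = z := by
  obtain ⟨s, i, hsi⟩ := hv
  have hπi0 : π' ^ i ≠ 0 := zpow_ne_zero _ hπ0
  have hvπ0 : v π' ≠ 0 := v.ne_zero hπ0
  have hw1 : v (z ^ p ^ s / π' ^ i) = 1 := by
    have h1 : (v (z ^ p ^ s / π' ^ i)) ^ ℓ = 1 := by
      rw [map_div₀, map_pow, map_zpow₀, div_pow]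
      have h2 : (v z ^ p ^ s) ^ ℓ = (v (z ^ ℓ)) ^ p ^ s := by
        rw [map_pow, ← pow_mul, ← pow_mul, mul_comm]
      have h3 : (v π' ^ i) ^ ℓ = (v π' ^ ℓ) ^ i := by
        rw [← zpow_natCast, ← zpow_natCast, ← zpow_mul, ← zpow_mul, mul_comm]
      rw [h2, h3, hsi]
      exact div_self (zpow_ne_zero _ (pow_ne_zero _ hvπ0))
    exact (pow_eq_one_iff_of_nonneg (v.nonneg _) hℓ).mp h1
  have hwf : σ ((z ^ p ^ s / π' ^ i) ^ ℓ) = (z ^ p ^ s / π' ^ i) ^ ℓ := by
    have h2 : (z ^ p ^ s / π' ^ i) ^ ℓ = (z ^ ℓ) ^ p ^ s / (π' ^ i) ^ ℓ := by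
      rw [div_pow, ← pow_mul, ← pow_mul, mul_comm]
    rw [h2, map_div₀, map_pow, hz, map_pow, map_zpow₀, hπ]
  have hw := h.root_of_unit_fixed hℓ hζ σ hσ hc hw1 hwf
  have hzs : σ z ^ p ^ s = z ^ p ^ s := by
    rw [map_div₀, map_zpow₀, hπ, map_pow] at hw
    exact (div_left_inj' hπi0).mp hw
  have h1 : (σ z / z) ^ p ^ s = 1 := by
    rw [div_pow, hzs, div_self (pow_ne_zero _ hz0)]
  have h2 : (σ z / z) ^ ℓ = 1 := by
    rw [div_pow, ← map_pow, hz, div_self (pow_ne_zero _ hz0)]
  have h3 : (σ z / z) ^ (Nat.gcd (p ^ s) ℓ) = 1 := pow_gcd_eq_one.mpr ⟨h1, h2⟩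
  rw [(Nat.Coprime.pow_left s hp : Nat.gcd (p ^ s) ℓ = 1), pow_one] at h3
  exact (div_eq_one_iff_eq hz0).mp h3

end Pool.Agent.Lib.MP_89bcae_ag.Sup

end

section

/-!
ROW L10 (150-300 lines). The absolute value of an algebraic closure `M` of the completion `K` of
`F(t)` at `t = a`.

PROOF. `K` has the complete discrete valuation `Valued.v` with values in `ℤᵐ⁰`; choose a rank one
structure (`Valuation.RankOne`; e.g. `exp n ↦ 2 ^ n`; see `Valued.toNormedField`,
`IsDedekindDomain.HeightOneSpectrum.adicCompletion` and, for the pattern,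
`Mathlib/NumberTheory/Padics/Complex.lean` and `.../NumberField/Completion/FinitePlace.lean`) to make
`K` a complete nontrivially normed field with nonarchimedean norm, and let `v` be the spectral norm
`spectralNorm K M` (`spectralNorm_mul`/`spectralMulAlgNorm`, `isNonarchimedean_spectralNorm`,
`spectralNorm_extends`). `spectralNorm_eq_of_equiv` gives the invariance under `Aut(M/K)`; the
invariance under `u` (semilinear with respect to an isometry `φ` of `K`): the minimal polynomial of
`u x` is the image under `φ` of the minimal polynomial of `x`, and `spectralValue` depends only on the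
norms of the coefficients. Constants: `Valued.v (C c) = 1` for `c ≠ 0` (`val_eq_one`);
`Valued.v (X - a) = exp (-1)` (`val_X_sub_C`), so every nonzero element of `K` has the absolute value of a
power of `t - a`. Residues: let `x` in `M`, `v x ≤ 1`, with minimal polynomial `q` over `K`, whose
coefficients have norm `≤ 1` (definition of the spectral norm:
`spectralValue q ≤ 1 → ‖q.coeff n‖ ≤ 1`, `spectralValue_le_one_iff`); let `q₀` in `F[X]` be monic with
coefficients the residues of those of `q` (`exists_residue`); then `v (q₀(x)) = v (q₀(x) - q(x)) < 1` and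
`q₀ = ∏ (X - c_i)` (`F` is algebraically closed), so `v (x - c_i) < 1` for some `i`.
-/

open Polynomial IsDedekindDomain

open scoped Classical

namespace Pool.Agent.Lib.MP_89bcae_ag.Sup

universe u

section Spectral

variable {K M : Type u} [NontriviallyNormedField K] [IsUltrametricDist K] [CompleteSpace K]
  [Field M] [Algebra K M] [Algebra.IsAlgebraic K M]

/-- The spectral norm as an absolute value. -/
private noncomputable def L10_abs (K M : Type u) [NontriviallyNormedField K]
    [IsUltrametricDist K] [CompleteSpace K]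
    [Field M] [Algebra K M] [Algebra.IsAlgebraic K M] : AbsoluteValue M ℝ where
  toFun := spectralNorm K M
  map_mul' x y := (spectralMulAlgNorm K M).map_mul' x y
  nonneg' x := spectralNorm_nonneg x
  eq_zero' x := ⟨fun h => eq_zero_of_map_spectralNorm_eq_zero h
    (Algebra.IsAlgebraic.isAlgebraic x), fun h => by rw [h]; exact spectralNorm_zero⟩
  add_le' x y := isNonarchimedean_spectralNorm.add_le spectralNorm_nonneg

private theorem L10_abs_apply (x : M) : L10_abs K M x = spectralNorm K M x := rfl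

private theorem L10_nonarch (x y : M) :
    L10_abs K M (x + y) ≤ max (L10_abs K M x) (L10_abs K M y) :=
  isNonarchimedean_spectralNorm x y

private theorem L10_ext (x : K) : L10_abs K M (algebraMap K M x) = ‖x‖ :=
  spectralNorm_extends x

private theorem L10_gal (σ : M ≃ₐ[K] M) (x : M) : L10_abs K M (σ x) = L10_abs K M x :=
  (spectralNorm_eq_of_equiv σ x).symm

private theorem L10_semilin (w : M ≃+* M) (φ : K ≃+* K) (hφ : ∀ x, ‖φ x‖ = ‖x‖)
    (hw : ∀ x, w (algebraMap K M x) = algebraMap K M (φ x)) (x : M) :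
    L10_abs K M (w x) = L10_abs K M x := by
  have hx : IsIntegral K x := (Algebra.IsAlgebraic.isAlgebraic x).isIntegral
  have hcomp : (algebraMap K M).comp (φ : K →+* K) = (w : M →+* M).comp (algebraMap K M) := by
    ext k
    exact (hw k).symm
  have hroot : aeval (w x) ((minpoly K x).map (φ : K →+* K)) = 0 := by
    rw [aeval_def, eval₂_map, hcomp]
    have h1 : eval₂ ((w : M →+* M).comp (algebraMap K M)) (w x) (minpoly K x) =
        w (eval₂ (algebraMap K M) x (minpoly K x)) := by
      have := (hom_eval₂ (minpoly K x) (algebraMap K M) (w : M →+* M) x)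
      exact this.symm
    rw [h1, ← aeval_def, minpoly.aeval, map_zero]
  have hirr : Irreducible ((minpoly K x).map (φ : K →+* K)) := by
    have h2 := minpoly.irreducible hx
    exact (MulEquiv.irreducible_iff (Polynomial.mapEquiv φ)).mpr h2
  have hmon : ((minpoly K x).map (φ : K →+* K)).Monic := (minpoly.monic hx).map _
  have hmin : minpoly K (w x) = (minpoly K x).map (φ : K →+* K) :=
    (minpoly.eq_of_irreducible_of_monic hirr hroot hmon).symm
  change spectralValue (minpoly K (w x)) = spectralValue (minpoly K x)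
  rw [hmin]
  unfold spectralValue
  congr 1
  funext n
  unfold spectralValueTerms
  rw [natDegree_map_eq_of_injective (RingHom.injective (φ : K →+* K)), coeff_map]
  have h3 : ‖(φ : K →+* K) ((minpoly K x).coeff n)‖ = ‖(minpoly K x).coeff n‖ := hφ _
  rw [h3]

private theorem L10_sum_lt {ι : Type*} (v : AbsoluteValue M ℝ)
    (hna : ∀ x y, v (x + y) ≤ max (v x) (v y)) (s : Finset ι) (f : ι → M)
    (h : ∀ i ∈ s, v (f i) < 1) : v (∑ i ∈ s, f i) < 1 := by
  induction s using Finset.induction_on with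
  | empty => rw [Finset.sum_empty, map_zero]; exact zero_lt_one
  | insert a s ha ih =>
    rw [Finset.sum_insert ha]
    refine (hna _ _).trans_lt (max_lt (h a (Finset.mem_insert_self a s)) (ih fun i hi => ?_))
    exact h i (Finset.mem_insert_of_mem hi)

private theorem L10_residue {F : Type u} [Field F] [IsAlgClosed F] (ι : F →+* K)
    (hres : ∀ k : K, ‖k‖ ≤ 1 → ∃ c : F, ‖k - ι c‖ < 1)
    (x : M) (hx : L10_abs K M x ≤ 1) :
    ∃ c : F, L10_abs K M (x - algebraMap K M (ι c)) < 1 := by
  have hint : IsIntegral K x := (Algebra.IsAlgebraic.isAlgebraic x).isIntegral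
  set q := minpoly K x with hq
  have hmon : q.Monic := minpoly.monic hint
  have hcoef : ∀ n, ‖q.coeff n‖ ≤ 1 := (spectralValue_le_one_iff hmon).mp hx
  choose c hc using fun n => hres (q.coeff n) (hcoef n)
  set n := q.natDegree with hn
  set q₀ : F[X] := X ^ n + ∑ i ∈ Finset.range n, C (c i) * X ^ i with hq₀
  have hdeg : (∑ i ∈ Finset.range n, C (c i) * X ^ i : F[X]).degree < n := by
    rw [Finset.sum_range]
    exact degree_sum_fin_lt _
  have hq₀mon : q₀.Monic := monic_X_pow_add hdeg
  have hsplit : q₀.Splits := IsAlgClosed.splits q₀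
  have hprod : q₀ = (q₀.roots.map fun r => X - C r).prod := by
    have := hsplit.eq_prod_roots
    rw [hq₀mon.leadingCoeff, C_1, one_mul] at this
    exact this
  set j : F →+* M := (algebraMap K M).comp ι with hj
  have heval : eval₂ j x q₀ = (q₀.roots.map fun r => x - j r).prod := by
    conv_lhs => rw [hprod]
    rw [← coe_eval₂RingHom, map_multiset_prod, Multiset.map_map]
    congr 1
    refine Multiset.map_congr rfl fun r _ => ?_
    simp
  have hlt : L10_abs K M (eval₂ j x q₀) < 1 := by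
    have hqx : eval₂ (algebraMap K M) x q = 0 := by
      rw [← aeval_def, hq, minpoly.aeval]
    have hq' : q = X ^ n + ∑ i ∈ Finset.range n, C (q.coeff i) * X ^ i := by
      conv_lhs => rw [q.as_sum_range_C_mul_X_pow]
      rw [Finset.sum_range_succ, ← hn, hn, hmon.coeff_natDegree, C_1, one_mul, add_comm]
    have hqx' : x ^ n + ∑ i ∈ Finset.range n, algebraMap K M (q.coeff i) * x ^ i = 0 := by
      rw [← hqx]
      conv_rhs => rw [hq']
      simp [eval₂_finsetSum]
    have hq₀x : eval₂ j x q₀ =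
        ∑ i ∈ Finset.range n, algebraMap K M (ι (c i) - q.coeff i) * x ^ i := by
      have h1 : eval₂ j x q₀ = x ^ n + ∑ i ∈ Finset.range n, j (c i) * x ^ i := by
        rw [hq₀]
        simp [eval₂_finsetSum]
      rw [h1, ← sub_zero (x ^ n + ∑ i ∈ Finset.range n, j (c i) * x ^ i), ← hqx',
        add_sub_add_left_eq_sub, ← Finset.sum_sub_distrib]
      refine Finset.sum_congr rfl fun i _ => ?_
      rw [map_sub, sub_mul]
      rfl
    rw [hq₀x]
    refine L10_sum_lt _ L10_nonarch _ _ fun i _ => ?_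
    rw [map_mul, map_pow, L10_ext, norm_sub_rev]
    calc ‖q.coeff i - ι (c i)‖ * L10_abs K M x ^ i ≤ ‖q.coeff i - ι (c i)‖ * 1 := by
          refine mul_le_mul_of_nonneg_left ?_ (norm_nonneg _)
          exact pow_le_one₀ (AbsoluteValue.nonneg _ _) hx
      _ < 1 := by rw [mul_one]; exact hc i
  by_contra hcon
  push Not at hcon
  rw [heval, map_multiset_prod, Multiset.map_map] at hlt
  refine absurd hlt (not_lt.mpr ?_)
  have hall : ∀ s : Multiset F, 1 ≤ (s.map (⇑(L10_abs K M) ∘ fun r => x - j r)).prod := by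
    intro s
    induction s using Multiset.induction_on with
    | empty => rw [Multiset.map_zero, Multiset.prod_zero]
    | cons a s ih =>
      rw [Multiset.map_cons, Multiset.prod_cons]
      exact one_le_mul_of_one_le_of_one_le (hcon a) ih
  exact hall _

end Spectral

section Discrete

variable {K M : Type u} [Field K] [Valued K (WithZero (Multiplicative ℤ))] [CompleteSpace K]
  [Field M] [Algebra K M] [Algebra.IsAlgebraic K M]

private theorem L10_valued (hR : Valuation.RankOne (Valued.v : Valuation K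
      (WithZero (Multiplicative ℤ)))) :
    ∃ v : AbsoluteValue M ℝ,
      (∀ x y, v (x + y) ≤ max (v x) (v y)) ∧
      (∀ x y : K, v (algebraMap K M x) ≤ v (algebraMap K M y) ↔ Valued.v x ≤ Valued.v y) ∧
      (∀ (σ : M ≃ₐ[K] M) (x : M), v (σ x) = v x) ∧
      (∀ (w : M ≃+* M) (φ : K ≃+* K), (∀ x, Valued.v (φ x) = Valued.v x) →
        (∀ x, w (algebraMap K M x) = algebraMap K M (φ x)) → ∀ x, v (w x) = v x) ∧
      (∀ {F : Type u} [Field F] [IsAlgClosed F] (ι : F →+* K),
        (∀ k : K, Valued.v k ≤ 1 → ∃ c : F, Valued.v (k - ι c) < 1) →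
        ∀ x : M, v x ≤ 1 → ∃ c : F, v (x - algebraMap K M (ι c)) < 1) := by
  let _ := hR
  let _ : NontriviallyNormedField K := Valued.toNontriviallyNormedField K _
  have _ : IsUltrametricDist K := Valued.instIsUltrametricDist K _
  refine ⟨L10_abs K M, L10_nonarch, fun x y => ?_, L10_gal, fun w φ hφ hw x => ?_,
    fun ι hres x hx => ?_⟩
  · rw [L10_ext, L10_ext]
    exact Valued.toNormedField.norm_le_iff
  · refine L10_semilin w φ (fun k => ?_) hw x
    refine le_antisymm ?_ ?_
    · exact Valued.toNormedField.norm_le_iff.mpr (hφ k).le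
    · exact Valued.toNormedField.norm_le_iff.mpr (hφ k).ge
  · refine L10_residue ι (fun k hk => ?_) x hx
    obtain ⟨c, hc⟩ := hres k (Valued.toNormedField.norm_le_one_iff.mp hk)
    exact ⟨c, Valued.toNormedField.norm_lt_one_iff.mpr hc⟩

end Discrete

theorem exists_locCtx {F L M : Type u} [Field F] [IsAlgClosed F] [Field L] [Algebra F[X] L]
    [IsFractionRing F[X] L] (a : F) [Field M] [Algebra ((plc a).adicCompletion L) M]
    [IsAlgClosure ((plc a).adicCompletion L) M] [Algebra F M]
    (hF : ∀ c : F, algebraMap F M c = algebraMap ((plc a).adicCompletion L) M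
      (algebraMap F[X] ((plc a).adicCompletion L) (C c))) :
    ∃ v : AbsoluteValue M ℝ,
      LocCtx v a (algebraMap ((plc a).adicCompletion L) M
        (algebraMap F[X] ((plc a).adicCompletion L) X)) ∧
      (∀ x : (plc a).adicCompletion L, x ≠ 0 → ∃ i : ℤ,
        v (algebraMap ((plc a).adicCompletion L) M x) =
          v (algebraMap ((plc a).adicCompletion L) M
            (algebraMap F[X] ((plc a).adicCompletion L) X) - algebraMap F M a) ^ i) ∧
      (∀ (σ : M ≃ₐ[(plc a).adicCompletion L] M) (x : M), v (σ x) = v x) ∧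
      ∀ (w : M ≃+* M) (φ : (plc a).adicCompletion L ≃+* (plc a).adicCompletion L),
        (∀ x, Valued.v (φ x) = Valued.v x) →
        (∀ x, w (algebraMap ((plc a).adicCompletion L) M x) =
          algebraMap ((plc a).adicCompletion L) M (φ x)) → ∀ x, v (w x) = v x := by
  have hRD : (Valued.v : Valuation ((plc a).adicCompletion L)
      (WithZero (Multiplicative ℤ))).IsRankOneDiscrete := inferInstance
  obtain ⟨v, hna, hle, hgal, hsemi, hres⟩ := L10_valued
    (K := (plc a).adicCompletion L) (M := M)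
    (Valuation.IsRankOneDiscrete.rankOne (Valued.v : Valuation ((plc a).adicCompletion L)
      (WithZero (Multiplicative ℤ))) (e := 2) one_lt_two)
  have hlt : ∀ x y : (plc a).adicCompletion L,
      v (algebraMap _ M x) < v (algebraMap _ M y) ↔ Valued.v x < Valued.v y := by
    intro x y
    rw [← not_le, ← not_le, hle]
  have heq : ∀ x y : (plc a).adicCompletion L, Valued.v x = Valued.v y →
      v (algebraMap _ M x) = v (algebraMap _ M y) := by
    intro x y h
    exact le_antisymm ((hle x y).mpr h.le) ((hle y x).mpr h.ge)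
  have hone : v (algebraMap ((plc a).adicCompletion L) M 1) = 1 := by
    rw [map_one, map_one]
  have hsub : algebraMap ((plc a).adicCompletion L) M
        (algebraMap F[X] ((plc a).adicCompletion L) X) - algebraMap F M a =
      algebraMap ((plc a).adicCompletion L) M
        (algebraMap F[X] ((plc a).adicCompletion L) (X - C a)) := by
    rw [hF, map_sub, map_sub]
  have hval0 : Valued.v (algebraMap F[X] ((plc a).adicCompletion L) (X - C a)) =
      WithZero.exp (-1 : ℤ) := val_X_sub_C L a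
  refine ⟨v, ⟨inferInstance, hna, ?_, ?_, ?_, ?_⟩, ?_, hgal, hsemi⟩
  · intro c hc
    rw [hF, ← hone]
    refine heq _ _ ?_
    rw [map_one]
    refine val_eq_one L a ?_
    rw [eval_C]
    exact hc
  · rw [hsub, ← hone, hlt, hval0, map_one]
    rw [← WithZero.exp_zero]
    exact WithZero.exp_lt_exp.mpr (by norm_num)
  · intro h
    rw [← sub_eq_zero, hsub, map_eq_zero] at h
    rw [h, map_zero] at hval0
    exact WithZero.exp_ne_zero hval0.symm
  · intro x hx
    obtain ⟨c, hc⟩ := hres (F := F) ((algebraMap F[X] ((plc a).adicCompletion L)).comp C)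
      (fun k hk => exists_residue L a k hk) x hx
    refine ⟨c, ?_⟩
    rw [hF]
    exact hc
  · intro x hx
    have hx0 : Valued.v x ≠ 0 := (Valuation.ne_zero_iff _).mpr hx
    refine ⟨-(WithZero.log (Valued.v x)), ?_⟩
    rw [hsub, ← map_zpow₀, ← map_zpow₀]
    refine heq _ _ ?_
    rw [map_zpow₀, hval0, ← WithZero.exp_zsmul]
    simp [WithZero.exp_log hx0]

end Pool.Agent.Lib.MP_89bcae_ag.Sup

end

section

/-!
ROW L03 (100-180 lines). The roots of `g(x) = t` in `M`.

`f = d⁻¹ (g(x) - t)`, `g` monic of degree `m ≥ 1` with coefficients in `F`.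
PROOFS. (1) is a computation. (2) If `v θ > 1` the leading term dominates: `v (g(θ)) = v(θ)^m > 1`,
while `v t ≤ 1` (`t = a + (t - a)`). (8) is the same computation. (3) Let `r` be the residue of `θ`:
`g(θ) - g(r)` has `v < 1` (`LocCtx.residue_eval`) and `g(θ) - a = t - a` has `v < 1`; the residue is
unique. (4) `M` is algebraically closed and `f` is separable: `f = C d⁻¹ ∏ (X - θ)` over the finite
set of its roots (`IsAlgClosed.splits`, `nodup_roots`).
-/

open Polynomial

open scoped Classical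

namespace Pool.Agent.Lib.MP_89bcae_ag.Sup

universe u

variable {F M : Type u} [Field F] [Field M] [Algebra F M] {v : AbsoluteValue M ℝ} {a : F} {t : M}

lemma eval_locPoly (g : F[X]) (t d x : M) :
    (locPoly g t d).eval x = d⁻¹ * (aeval x g - t) := by
  unfold locPoly
  rw [eval_mul, eval_C, eval_sub, eval_C, eval_map, aeval_def]

lemma eval_locPoly_eq_zero {g : F[X]} {t d x : M} (hd : d ≠ 0) :
    (locPoly g t d).eval x = 0 ↔ aeval x g = t := by
  rw [eval_locPoly, mul_eq_zero, or_iff_right (inv_ne_zero hd), sub_eq_zero]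

private lemma l03_monic {g : F[X]} (hg : g.Monic) (hm : g.natDegree ≠ 0) (t : M) :
    (g.map (algebraMap F M) - C t).Monic := by
  refine Monic.sub_of_left (hg.map _) ?_
  rw [degree_map, degree_eq_natDegree hg.ne_zero]
  refine degree_C_le.trans_lt ?_
  exact_mod_cast Nat.pos_of_ne_zero hm

private lemma l03_natDegree {g : F[X]} (t : M) :
    (g.map (algebraMap F M) - C t).natDegree = g.natDegree := by
  rw [natDegree_sub_C, natDegree_map]

lemma natDegree_locPoly {g : F[X]} (hg : g.Monic) (hm : g.natDegree ≠ 0) {t d : M} (hd : d ≠ 0) :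
    (locPoly g t d).natDegree = g.natDegree := by
  unfold locPoly
  rw [natDegree_C_mul (inv_ne_zero hd), l03_natDegree]

/-- The finite set of the roots of `g(x) = t`. -/
noncomputable def rts (f : M[X]) : Finset M := f.roots.toFinset

lemma mem_rts {f : M[X]} (hf : f ≠ 0) {θ : M} : θ ∈ rts f ↔ f.eval θ = 0 := by
  unfold rts
  rw [Multiset.mem_toFinset, mem_roots hf, IsRoot.def]

lemma locPoly_ne_zero {g : F[X]} (hg : g.Monic) (hm : g.natDegree ≠ 0) {t d : M} (hd : d ≠ 0) :
    locPoly g t d ≠ 0 := by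
  unfold locPoly
  exact mul_ne_zero (C_ne_zero.2 (inv_ne_zero hd)) (l03_monic hg hm t).ne_zero

private lemma l03_vconst (h : LocCtx v a t) (c : F) : v (algebraMap F M c) ≤ 1 := by
  by_cases hc : c = 0
  · rw [hc, map_zero, map_zero]
    exact zero_le_one
  · exact (h.const c hc).le

private lemma l03_vt (h : LocCtx v a t) : v t ≤ 1 := by
  have h1 : t = (t - algebraMap F M a) + algebraMap F M a := by ring
  rw [h1]
  exact (h.nonarch _ _).trans (max_le h.lt_one.le (l03_vconst h a))

private lemma l03_sum (h : LocCtx v a t) (s : Finset ℕ) (y : ℕ → M) {B : ℝ} (hB : 0 < B)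
    (hy : ∀ i ∈ s, v (y i) < B) : v (∑ i ∈ s, y i) < B := by
  induction s using Finset.induction_on with
  | empty => rwa [Finset.sum_empty, map_zero]
  | insert j s hj ih =>
    rw [Finset.sum_insert hj]
    refine (h.nonarch _ _).trans_lt (max_lt (hy j (Finset.mem_insert_self _ _)) ?_)
    exact ih fun i hi => hy i (Finset.mem_insert_of_mem hi)

/-- the value of a sum with a strictly dominant term -/
private lemma l03_dom (h : LocCtx v a t) {x y : M} (hxy : v y < v x) : v (x + y) = v x := by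
  refine le_antisymm ((h.nonarch _ _).trans (max_le le_rfl hxy.le)) ?_
  by_contra hlt
  have hlt' := not_le.1 hlt
  have h1 : x = (x + y) + (-y) := by ring
  have h2 : v x ≤ max (v (x + y)) (v (-y)) := by
    conv_lhs => rw [h1]
    exact h.nonarch _ _
  rw [v.map_neg] at h2
  exact absurd h2 (not_le.2 (max_lt hlt' hxy))

private lemma l03_large (h : LocCtx v a t) {g : F[X]} (hg : g.Monic) (hm : g.natDegree ≠ 0)
    {x : M} (hx : 1 < v x) : v (aeval x g - t) = v x ^ g.natDegree := by
  have hpos : 0 < v x := zero_lt_one.trans hx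
  have h1 : aeval x g - t = x ^ g.natDegree +
      (∑ i ∈ Finset.range g.natDegree, algebraMap F M (g.coeff i) * x ^ i + (-t)) := by
    rw [aeval_eq_sum_range, Finset.sum_range_succ, hg.coeff_natDegree, one_smul]
    simp only [Algebra.smul_def]
    ring
  have hP : 0 < v x ^ g.natDegree := pow_pos hpos _
  rw [h1, l03_dom h, map_pow]
  rw [map_pow]
  refine (h.nonarch _ _).trans_lt (max_lt ?_ ?_)
  · refine l03_sum h _ _ hP fun i hi => ?_
    rw [map_mul, map_pow]
    calc v (algebraMap F M (g.coeff i)) * v x ^ i ≤ 1 * v x ^ i :=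
          mul_le_mul_of_nonneg_right (l03_vconst h _) (pow_nonneg hpos.le _)
      _ = v x ^ i := one_mul _
      _ < v x ^ g.natDegree := pow_lt_pow_right₀ hx (Finset.mem_range.1 hi)
  · rw [v.map_neg]
    exact (l03_vt h).trans_lt (one_lt_pow₀ hx hm)

/-- (2) -/
lemma LocCtx.v_root_le (h : LocCtx v a t) {g : F[X]} (hg : g.Monic) (hm : g.natDegree ≠ 0) {θ : M}
    (hθ : aeval θ g = t) : v θ ≤ 1 := by
  by_contra hlt
  have hx := not_le.1 hlt
  have h1 := l03_large h hg hm hx
  rw [hθ, sub_self, map_zero] at h1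
  exact (pow_pos (zero_lt_one.trans hx) g.natDegree).ne h1

/-- (8) -/
lemma LocCtx.v_eval_of_large (h : LocCtx v a t) {g : F[X]} (hg : g.Monic) (hm : g.natDegree ≠ 0)
    {x : M} (hx : 1 < v x) : v (aeval x g - t) = v x ^ g.natDegree :=
  l03_large h hg hm hx

/-- (3) -/
lemma LocCtx.eval_residue (h : LocCtx v a t) {g : F[X]} {θ : M} (hθ : aeval θ g = t) {r : F}
    (hr : v (θ - algebraMap F M r) < 1) : g.eval r = a := by
  have h1 := h.residue_eval hr g
  rw [hθ] at h1
  exact h.residue_unique h1 h.lt_one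

private lemma l03_split [IsAlgClosed M] {g : F[X]} (hg : g.Monic) (hm : g.natDegree ≠ 0) {t d : M}
    (hd : d ≠ 0) (hs : (locPoly g t d).Separable) :
    g.map (algebraMap F M) - C t = ∏ θ ∈ rts (locPoly g t d), (X - C θ) := by
  have hmon := l03_monic hg hm t
  have hroots : (locPoly g t d).roots = (g.map (algebraMap F M) - C t).roots := by
    unfold locPoly
    exact roots_C_mul _ (inv_ne_zero hd)
  have hnd : (g.map (algebraMap F M) - C t).roots.Nodup := by
    rw [← hroots]
    exact nodup_roots hs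
  have hsp : (g.map (algebraMap F M) - C t).Splits := IsAlgClosed.splits _
  have h2 := hsp.eq_prod_roots_of_monic hmon
  have h3 : ∏ θ ∈ rts (locPoly g t d), (X - C θ) =
      ((g.map (algebraMap F M) - C t).roots.map fun θ => X - C θ).prod := by
    unfold rts
    rw [hroots, Finset.prod, Multiset.toFinset_val, hnd.dedup]
  rw [h3]
  exact h2

/-- (4) -/
lemma eval_sub_eq_prod [IsAlgClosed M] {g : F[X]} (hg : g.Monic) (hm : g.natDegree ≠ 0) {t d : M}
    (hd : d ≠ 0) (hs : (locPoly g t d).Separable) (x : M) :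
    aeval x g - t = ∏ θ ∈ rts (locPoly g t d), (x - θ) := by
  have h1 := congrArg (eval x) (l03_split hg hm hd hs)
  rw [eval_sub, eval_C, eval_map, ← aeval_def, eval_prod] at h1
  simpa using h1

lemma card_rts [IsAlgClosed M] {g : F[X]} (hg : g.Monic) (hm : g.natDegree ≠ 0) {t d : M}
    (hd : d ≠ 0) (hs : (locPoly g t d).Separable) :
    (rts (locPoly g t d)).card = g.natDegree := by
  have h1 := congrArg natDegree (l03_split hg hm hd hs)
  rw [l03_natDegree, natDegree_prod_of_monic _ _ fun θ _ => monic_X_sub_C θ] at h1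
  simpa using h1.symm

lemma derivative_locPoly_eval [IsAlgClosed M] {g : F[X]} (hg : g.Monic) (hm : g.natDegree ≠ 0)
    {t d : M} (hd : d ≠ 0) (hs : (locPoly g t d).Separable) {θ : M}
    (hθ : θ ∈ rts (locPoly g t d)) :
    (derivative (locPoly g t d)).eval θ =
      d⁻¹ * ∏ θ' ∈ (rts (locPoly g t d)).erase θ, (θ - θ') := by
  have h1 : locPoly g t d = C d⁻¹ * ((X - C θ) * ∏ θ' ∈ (rts (locPoly g t d)).erase θ,
      (X - C θ')) := by
    rw [Finset.mul_prod_erase (rts (locPoly g t d)) (fun θ => X - C θ) hθ, ← l03_split hg hm hd hs]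
    rfl
  have h2 := congrArg (fun q : M[X] => (derivative q).eval θ) h1
  simp only [derivative_C_mul, derivative_mul, derivative_sub, derivative_X, derivative_C,
    eval_mul, eval_C, eval_add, eval_sub, eval_X, sub_self, zero_mul, sub_zero, one_mul, add_zero,
    eval_prod, mul_one] at h2
  rw [h2]
  simp

end Pool.Agent.Lib.MP_89bcae_ag.Sup

end
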