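import Mathlib
import Pool.Agent.Lib.MP_89bcae_ag.Mk.K011
import Pool.Agent.Lib.MP_89bcae_ag.Mk.K018

namespace Pool.Agent.Lib.MP_89bcae_ag.Sup
end Pool.Agent.Lib.MP_89bcae_ag.Sup

section

/-!
ROW L12 (80-160 lines). Extension of automorphisms to algebraic closures, compatibly.

PROOFS. (1) As `exists_extend` in `Pool/Agent/Lib/MP_89bcae_ag/Galois.lean`, with `IsAlgClosure.equiv` (or
`IsAlgClosure.equivOfEquiv`) in place of `IsSepClosure.equiv`.
(2) `w ∘ j : Ω → M` and `j : Ω → M`: the image of `j` is the set of the elements of `M` algebraic over the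
image of `L` (`Ω` is an algebraic closure of `L`), and `w` maps the image of `L` onto itself, so
`w (j Ω) = j Ω`. See `exists_local_lift` in `Pool/Agent/Lib/MP_89bcae_ag/PlaceC8.lean`: take an
extension `γ₀` of `ψ` to `Ω` by (1); then `w ∘ j ∘ γ₀⁻¹` is a second embedding of `Ω` in `M` over `L`,
and two embeddings of a normal extension differ by an automorphism (`exists_alg_restrict`).
(3) `M` algebraic closure of `K`: embeddings of `Ω` exist: `IsAlgClosed.lift`.
-/

open Polynomial IsDedekindDomain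

open scoped Classical

namespace Pool.Agent.Lib.MP_89bcae_ag.Sup

universe u

/-- (1) -/
lemma exists_extend_alg {K M : Type u} [Field K] [Field M] [Algebra K M] [IsAlgClosure K M]
    (φ : K ≃+* K) : ∃ w : M ≃+* M, ∀ x, w (algebraMap K M x) = algebraMap K M (φ x) :=
  ⟨IsAlgClosure.equivOfEquiv M M φ, fun x => IsAlgClosure.equivOfEquiv_algebraMap M M φ x⟩

/-- two embeddings of an algebraic closure differ by an automorphism -/
lemma exists_autL12 {L Ω M : Type u} [Field L] [Field Ω] [Field M] [Algebra L Ω] [Algebra L M]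
    [IsAlgClosure L Ω] (j j' : Ω →ₐ[L] M) :
    ∃ g : Ω ≃ₐ[L] Ω, ∀ x, j (g x) = j' x := by
  haveI : Normal L Ω := IsAlgClosure.normal L Ω
  letI : Algebra Ω M := j.toRingHom.toAlgebra
  haveI : IsScalarTower L Ω M := IsScalarTower.of_algebraMap_eq (fun x => (j.commutes x).symm)
  refine ⟨AlgHom.restrictNormal' j' Ω, fun x => ?_⟩
  have h := AlgHom.restrictNormal_commutes j' Ω x
  exact h

/-- (2) -/
lemma exists_compat {L Ω M : Type u} [Field L] [Field Ω] [Field M] [Algebra L Ω] [Algebra L M]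
    [IsAlgClosure L Ω] (j : Ω →ₐ[L] M) (ψ : L ≃+* L) (w : M ≃+* M)
    (hw : ∀ x, w (algebraMap L M x) = algebraMap L M (ψ x)) :
    ∃ γ : Ω ≃+* Ω, (∀ x, γ (algebraMap L Ω x) = algebraMap L Ω (ψ x)) ∧
      ∀ x, j (γ x) = w (j x) := by
  obtain ⟨γ₀, hγ₀⟩ := exists_extend_alg (K := L) (M := Ω) ψ
  have hc : ∀ l : L, w.symm (j (γ₀ (algebraMap L Ω l))) = algebraMap L M l := by
    intro l
    rw [hγ₀, j.commutes, ← hw, RingEquiv.symm_apply_apply]
  let j' : Ω →ₐ[L] M :=
    { toRingHom := (w.symm : M →+* M).comp (j.toRingHom.comp (γ₀ : Ω →+* Ω))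
      commutes' := hc }
  obtain ⟨g, hg⟩ := exists_autL12 j j'
  have hg' : ∀ x, j (g x) = w.symm (j (γ₀ x)) := hg
  refine ⟨(g.symm : Ω ≃+* Ω).trans γ₀, fun x => ?_, fun x => ?_⟩
  · have h1 : ((g.symm : Ω ≃+* Ω).trans γ₀) (algebraMap L Ω x) = γ₀ (g.symm (algebraMap L Ω x)) := rfl
    rw [h1, AlgEquiv.commutes, hγ₀]
  · have h1 : ((g.symm : Ω ≃+* Ω).trans γ₀) x = γ₀ (g.symm x) := rfl
    have h2 := hg' (g.symm x)
    rw [AlgEquiv.apply_symm_apply] at h2
    rw [h1, h2, RingEquiv.apply_symm_apply]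

/-- An automorphism of `M` over `L` restricts to `Ω`. -/
lemma exists_restrict {L Ω M : Type u} [Field L] [Field Ω] [Field M] [Algebra L Ω] [Algebra L M]
    [IsAlgClosure L Ω] (j : Ω →ₐ[L] M) (w : M ≃ₐ[L] M) :
    ∃ g : Ω ≃ₐ[L] Ω, ∀ x, j (g x) = w (j x) :=
  exists_autL12 j ((w : M →ₐ[L] M).comp j)

end Pool.Agent.Lib.MP_89bcae_ag.Sup

end

section

/-!
# The group `Aut(Ω/k(t))` and other general lemmas
-/

open Polynomial IsDedekindDomain

open scoped Classical

namespace Pool.Agent.Lib.MP_89bcae_ag.Wt.Lns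

open Pool.Agent.Lib.MP_89bcae_ag.Sup

set_option linter.unusedSectionVars false

universe u

lemma G13_jacMap_congr {ℓ : ℕ} {A B : Type u} [Field A] [Field B] {σ τ : A →+* B} {f : A[X]}
    {f' : B[X]} (e : σ = τ) (h : f.map σ = f') (h' : f.map τ = f') (Q : Jac ℓ f) :
    jacMap ℓ σ h Q = jacMap ℓ τ h' Q := by
  subst e
  rfl

lemma G13_coprime_aux {K : Type u} [Field K] {ℓ : ℕ} (hℓ : ℓ.Prime) (h : (ℓ : K) ≠ 0) (q : ℕ)
    (hq : ExpChar K q) : q.Coprime ℓ := by
  cases hq with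
  | zero => exact Nat.coprime_one_left ℓ
  | prime hp =>
    rw [Nat.coprime_primes hp hℓ]
    rintro rfl
    exact h (CharP.cast_eq_zero K q)

lemma G13_coprime {K : Type u} [Field K] {ℓ : ℕ} (hℓ : ℓ.Prime) (h : (ℓ : K) ≠ 0) :
    (ringExpChar K).Coprime ℓ :=
  G13_coprime_aux hℓ h _ inferInstance

lemma G20_exists_pow {k F : Type u} [Field k] [Field F] [Algebra k F] [IsAlgClosure k F]
    (k' : IntermediateField k F) [FiniteDimensional k k'] (U : F ≃ₐ[k] F) :
    ∃ M : ℕ, 0 < M ∧ ∀ x : k', (U ^ M) (x : F) = x := by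
  haveI : Finite (k' →ₐ[k] F) := inferInstance
  obtain ⟨a, b, hab, h⟩ := Finite.exists_ne_map_eq_of_infinite
    (fun n : ℕ => ((U ^ n : F ≃ₐ[k] F) : F →ₐ[k] F).comp k'.val)
  wlog hlt : a < b generalizing a b with H
  · exact H b a hab.symm h.symm (lt_of_le_of_ne (not_lt.mp hlt) hab.symm)
  refine ⟨b - a, Nat.sub_pos_of_lt hlt, fun x => ?_⟩
  have hx := DFunLike.congr_fun h x
  have hx' : (U ^ a) (x : F) = (U ^ b) (x : F) := hx
  have e : U ^ b = U ^ a * U ^ (b - a) := by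
    rw [← pow_add, Nat.add_sub_cancel' hlt.le]
  rw [e, AlgEquiv.mul_apply] at hx'
  exact ((U ^ a).injective hx').symm

/-- The `F`-algebra structure of `A` is the one coming from `F[X] → L → A`. -/
def CompatF (F L A : Type u) [Field F] [Field L] [Algebra F[X] L] [Field A] [Algebra L A]
    [Algebra F A] : Prop :=
  ∀ c : F, algebraMap F A c = algebraMap L A (algebraMap F[X] L (C c))

/-- The element `t` of `A`. -/
noncomputable def tA (F L A : Type u) [Field F] [Field L] [Algebra F[X] L] [Field A]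
    [Algebra L A] : A :=
  algebraMap L A (algebraMap F[X] L X)

/-- The group `Aut(Ω/k(t))`. -/
def AutO (k F L Ω : Type u) [Field k] [Field F] [Algebra k F] [Field L] [Algebra F[X] L] [Field Ω]
    [Algebra L Ω] : Subgroup (Ω ≃+* Ω) where
  carrier := {γ | ∀ p : k[X], γ (base k F L Ω p) = base k F L Ω p}
  mul_mem' {a b} ha hb p := by
    rw [RingAut.mul_apply, hb p, ha p]
  one_mem' p := rfl
  inv_mem' {a} ha p := by
    have h := ha p
    calc a⁻¹ (base k F L Ω p) = a⁻¹ (a (base k F L Ω p)) := by rw [h]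
      _ = base k F L Ω p := a.symm_apply_apply _

section

variable {k F L Ω : Type u} [Field k] [Field F] [Algebra k F] [Field L] [Algebra F[X] L]
  [Field Ω] [Algebra L Ω]

/-- An automorphism over `L` is an automorphism over `k(t)`. -/
def galA (k F : Type u) [Field k] [Field F] [Algebra k F] [Algebra F[X] L] :
    (Ω ≃ₐ[L] Ω) →* AutO k F L Ω where
  toFun σ := ⟨(σ : Ω ≃+* Ω), fun p => σ.commutes _⟩
  map_one' := rfl
  map_mul' _ _ := rfl

@[simp] lemma galA_coe (σ : Ω ≃ₐ[L] Ω) (x : Ω) :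
    ((galA k F σ : AutO k F L Ω) : Ω ≃+* Ω) x = σ x := rfl

/-- The primitive root of unity in `A`. -/
noncomputable def zA (F L A : Type u) [Field F] [Algebra k F] [Field L] [Algebra F[X] L]
    [Field A] [Algebra L A] (ζ : k) : A :=
  base k F L A (C ζ)

variable [IsAlgClosure k F] [IsFractionRing F[X] L] [IsAlgClosure L Ω]

lemma zA_fixed (ζ : k) (γ : AutO k F L Ω) :
    (γ : Ω ≃+* Ω) (zA F L Ω ζ) = zA F L Ω ζ := γ.2 (C ζ)

private lemma gb_inj {p q : F[X]}
    (h : algebraMap L Ω (algebraMap F[X] L p) = algebraMap L Ω (algebraMap F[X] L q)) : p = q :=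
  IsFractionRing.injective F[X] L ((algebraMap L Ω).injective h)

private lemma gb_unique {γ : Ω ≃+* Ω} {σ τ : F ≃ₐ[k] F}
    (hσ : ∀ p : F[X], γ (algebraMap L Ω (algebraMap F[X] L p)) =
      algebraMap L Ω (algebraMap F[X] L (p.map (σ : F →+* F))))
    (hτ : ∀ p : F[X], γ (algebraMap L Ω (algebraMap F[X] L p)) =
      algebraMap L Ω (algebraMap F[X] L (p.map (τ : F →+* F)))) : σ = τ := by
  ext c
  have h1 := gb_inj ((hσ (C c)).symm.trans (hτ (C c)))
  rw [map_C, map_C] at h1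
  exact C_injective h1

private lemma gb_exists (γ : AutO k F L Ω) : ∃ σ : F ≃ₐ[k] F, ∀ p : F[X],
    (γ : Ω ≃+* Ω) (algebraMap L Ω (algebraMap F[X] L p)) =
      algebraMap L Ω (algebraMap F[X] L (p.map (σ : F →+* F))) := by
  let ι : F →+* Ω := (algebraMap L Ω).comp ((algebraMap F[X] L).comp C)
  letI : Algebra F Ω := ι.toAlgebra
  letI : Algebra k Ω := (ι.comp (algebraMap k F)).toAlgebra
  haveI : IsScalarTower k F Ω := IsScalarTower.of_algebraMap_eq fun x => rfl
  haveI : IsAlgClosed F := IsAlgClosure.isAlgClosed k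
  haveI : Algebra.IsAlgebraic k F := IsAlgClosure.isAlgebraic
  haveI : Normal k F := normal_iff.mpr fun x =>
    ⟨Algebra.IsIntegral.isIntegral x, IsAlgClosed.splits _⟩
  have hb : ∀ x : k, algebraMap k Ω x = base k F L Ω (C x) := by
    intro x
    change algebraMap L Ω (algebraMap F[X] L (C (algebraMap k F x))) =
      algebraMap L Ω (algebraMap F[X] L ((C x).map (algebraMap k F)))
    rw [map_C]
  let γ' : Ω ≃ₐ[k] Ω := AlgEquiv.ofRingEquiv (f := (γ : Ω ≃+* Ω)) (by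
    intro x
    rw [hb]
    exact γ.2 (C x))
  let σ := γ'.restrictNormal F
  have hσ : ∀ x : F, (γ : Ω ≃+* Ω) (algebraMap L Ω (algebraMap F[X] L (C x))) =
      algebraMap L Ω (algebraMap F[X] L (C (σ x))) := by
    intro x
    exact (γ'.restrictNormal_commutes F x).symm
  have hX : (γ : Ω ≃+* Ω) (algebraMap L Ω (algebraMap F[X] L X)) =
      algebraMap L Ω (algebraMap F[X] L X) := by
    have h := γ.2 X
    have h1 : base k F L Ω X = algebraMap L Ω (algebraMap F[X] L X) := by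
      change algebraMap L Ω (algebraMap F[X] L ((X : k[X]).map (algebraMap k F))) = _
      rw [map_X]
    rwa [h1] at h
  refine ⟨σ, fun p => ?_⟩
  induction p using Polynomial.induction_on' with
  | add p q hp hq =>
    rw [map_add, map_add, map_add, hp, hq, Polynomial.map_add, map_add, map_add]
  | monomial n a =>
    rw [← C_mul_X_pow_eq_monomial, map_mul, map_mul, map_mul, hσ, map_pow, map_pow, map_pow, hX,
      Polynomial.map_mul, Polynomial.map_C, Polynomial.map_pow, Polynomial.map_X, map_mul, map_mul,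
      map_pow, map_pow]
    rfl

private lemma gb_range {γ : Ω ≃+* Ω} {σ : F ≃+* F}
    (h : ∀ p : F[X], γ (algebraMap L Ω (algebraMap F[X] L p)) =
      algebraMap L Ω (algebraMap F[X] L (p.map (σ : F →+* F)))) (y : L) :
    ∃ z : L, γ (algebraMap L Ω y) = algebraMap L Ω z := by
  obtain ⟨p, q, hq, rfl⟩ := IsFractionRing.div_surjective (A := F[X]) y
  refine ⟨algebraMap F[X] L (p.map (σ : F →+* F)) / algebraMap F[X] L (q.map (σ : F →+* F)), ?_⟩
  rw [map_div₀, map_div₀, map_div₀, h, h]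

lemma exists_resF : ∃ r : AutO k F L Ω →* (F ≃ₐ[k] F), ∀ (γ : AutO k F L Ω) (p : F[X]),
    (γ : Ω ≃+* Ω) (algebraMap L Ω (algebraMap F[X] L p)) =
      algebraMap L Ω (algebraMap F[X] L (p.map (r γ : F →+* F))) := by
  refine ⟨{ toFun := fun γ => (gb_exists γ).choose, map_one' := ?_, map_mul' := ?_ }, ?_⟩
  · refine gb_unique (γ := ((1 : AutO k F L Ω) : Ω ≃+* Ω)) (gb_exists (1 : AutO k F L Ω)).choose_spec
      fun p => ?_
    have h1 : p.map ((1 : F ≃ₐ[k] F) : F →+* F) = p := by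
      have h2 : ((1 : F ≃ₐ[k] F) : F →+* F) = RingHom.id F := rfl
      rw [h2, Polynomial.map_id]
    rw [h1]
    rfl
  · intro γ δ
    refine gb_unique (γ := ((γ * δ : AutO k F L Ω) : Ω ≃+* Ω)) (gb_exists (γ * δ)).choose_spec
      fun p => ?_
    have h1 : p.map (((gb_exists γ).choose * (gb_exists δ).choose : F ≃ₐ[k] F) : F →+* F) =
        (p.map ((gb_exists δ).choose : F →+* F)).map ((gb_exists γ).choose : F →+* F) := by
      rw [Polynomial.map_map]
      rfl
    rw [h1, ← (gb_exists γ).choose_spec, ← (gb_exists δ).choose_spec]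
    rfl
  · intro γ p
    exact (gb_exists γ).choose_spec p

/-- The restriction of an automorphism to `F`. -/
noncomputable def resF : AutO k F L Ω →* (F ≃ₐ[k] F) := exists_resF.choose

lemma resF_spec (γ : AutO k F L Ω) (p : F[X]) :
    (γ : Ω ≃+* Ω) (algebraMap L Ω (algebraMap F[X] L p)) =
      algebraMap L Ω (algebraMap F[X] L (p.map (resF γ : F →+* F))) :=
  exists_resF.choose_spec γ p

lemma resF_surjective : Function.Surjective (resF : AutO k F L Ω →* (F ≃ₐ[k] F)) := by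
  intro σ
  obtain ⟨w, hw⟩ := exists_extend_alg (K := L) (M := Ω) (coefL L (σ : F ≃+* F))
  have h1 : ∀ p : F[X], w (algebraMap L Ω (algebraMap F[X] L p)) =
      algebraMap L Ω (algebraMap F[X] L (p.map (σ : F →+* F))) := by
    intro p
    rw [hw, coefL_algebraMap]
    rfl
  have h2 : w ∈ AutO k F L Ω := by
    intro p
    change w (algebraMap L Ω (algebraMap F[X] L (p.map (algebraMap k F)))) =
      algebraMap L Ω (algebraMap F[X] L (p.map (algebraMap k F)))
    rw [h1, Polynomial.map_map]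
    congr 3
    ext x
    exact σ.commutes x
  exact ⟨⟨w, h2⟩, gb_unique (γ := w) (resF_spec ⟨w, h2⟩) h1⟩

lemma exists_galA_of_resF_eq_one (γ : AutO k F L Ω) (h : resF γ = 1) :
    ∃ σ : Ω ≃ₐ[L] Ω, galA k F σ = γ := by
  have h1 : ∀ p : F[X], (γ : Ω ≃+* Ω) (algebraMap L Ω (algebraMap F[X] L p)) =
      algebraMap L Ω (algebraMap F[X] L p) := by
    intro p
    rw [resF_spec, h]
    have h2 : ((1 : F ≃ₐ[k] F) : F →+* F) = RingHom.id F := rfl
    rw [h2, Polynomial.map_id]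
  refine ⟨AlgEquiv.ofRingEquiv (f := (γ : Ω ≃+* Ω)) fun y => ?_, ?_⟩
  · obtain ⟨p, q, hq, rfl⟩ := IsFractionRing.div_surjective (A := F[X]) y
    rw [map_div₀, map_div₀, h1, h1]
  · ext x
    rfl

lemma resF_galA (σ : Ω ≃ₐ[L] Ω) : resF (galA k F σ : AutO k F L Ω) = 1 := by
  refine gb_unique (γ := ((galA k F σ : AutO k F L Ω) : Ω ≃+* Ω)) (resF_spec _) fun p => ?_
  have h2 : ((1 : F ≃ₐ[k] F) : F →+* F) = RingHom.id F := rfl
  rw [h2, Polynomial.map_id]
  exact σ.commutes _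

private lemma gb_fix (γ : AutO k F L Ω) (σ : Ω ≃ₐ[L] Ω) (y : L) :
    (((γ : Ω ≃+* Ω).symm.trans (σ : Ω ≃+* Ω)).trans (γ : Ω ≃+* Ω)) (algebraMap L Ω y) =
      algebraMap L Ω y := by
  obtain ⟨z, hz⟩ := gb_range (γ := ((γ⁻¹ : AutO k F L Ω) : Ω ≃+* Ω))
    (σ := ((resF γ⁻¹ : F ≃ₐ[k] F) : F ≃+* F)) (resF_spec γ⁻¹) y
  have hz' : (γ : Ω ≃+* Ω).symm (algebraMap L Ω y) = algebraMap L Ω z := hz
  change (γ : Ω ≃+* Ω) (σ ((γ : Ω ≃+* Ω).symm (algebraMap L Ω y))) = algebraMap L Ω y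
  rw [hz', σ.commutes, ← hz', RingEquiv.apply_symm_apply]

/-- the conjugate -/
private noncomputable def gbConj (γ : AutO k F L Ω) (σ : Ω ≃ₐ[L] Ω) : Ω ≃ₐ[L] Ω :=
  AlgEquiv.ofRingEquiv (f := ((γ : Ω ≃+* Ω).symm.trans (σ : Ω ≃+* Ω)).trans (γ : Ω ≃+* Ω))
    (gb_fix γ σ)

private lemma gbConj_apply (γ : AutO k F L Ω) (σ : Ω ≃ₐ[L] Ω) (x : Ω) :
    gbConj γ σ x = (γ : Ω ≃+* Ω) (σ ((γ : Ω ≃+* Ω).symm x)) := rfl

private lemma gb_symm (γ : AutO k F L Ω) (x : Ω) :
    ((γ⁻¹ : AutO k F L Ω) : Ω ≃+* Ω) x = (γ : Ω ≃+* Ω).symm x := rfl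

private lemma gb_symm' (γ : AutO k F L Ω) (x : Ω) :
    ((γ⁻¹ : AutO k F L Ω) : Ω ≃+* Ω).symm x = (γ : Ω ≃+* Ω) x := rfl

lemma exists_conjG : ∃ c : AutO k F L Ω →* MulAut (Ω ≃ₐ[L] Ω),
    ∀ (γ : AutO k F L Ω) (σ : Ω ≃ₐ[L] Ω) (x : Ω), (c γ σ) ((γ : Ω ≃+* Ω) x) =
      (γ : Ω ≃+* Ω) (σ x) := by
  refine ⟨{ toFun := fun γ =>
              { toFun := gbConj γ
                invFun := gbConj γ⁻¹
                left_inv := ?_
                right_inv := ?_
                map_mul' := ?_ }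
            map_one' := ?_
            map_mul' := ?_ }, ?_⟩
  · intro σ
    ext x
    rw [gbConj_apply, gb_symm', gb_symm, gbConj_apply, RingEquiv.symm_apply_apply,
      RingEquiv.symm_apply_apply]
  · intro σ
    ext x
    rw [gbConj_apply, gbConj_apply, gb_symm', gb_symm, RingEquiv.apply_symm_apply,
      RingEquiv.apply_symm_apply]
  · intro σ τ
    ext x
    rw [AlgEquiv.mul_apply, gbConj_apply, gbConj_apply, gbConj_apply, RingEquiv.symm_apply_apply,
      AlgEquiv.mul_apply]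
  · ext σ x
    rfl
  · intro γ δ
    ext σ x
    rfl
  · intro γ σ x
    change gbConj γ σ ((γ : Ω ≃+* Ω) x) = _
    rw [gbConj_apply, RingEquiv.symm_apply_apply]

/-- Conjugation of `Gal(Ω/L)` by an automorphism over `k(t)`. -/
noncomputable def conjG : AutO k F L Ω →* MulAut (Ω ≃ₐ[L] Ω) := exists_conjG.choose

lemma conjG_spec (γ : AutO k F L Ω) (σ : Ω ≃ₐ[L] Ω) (x : Ω) :
    (conjG γ σ) ((γ : Ω ≃+* Ω) x) = (γ : Ω ≃+* Ω) (σ x) :=
  exists_conjG.choose_spec γ σ x

lemma galA_conjG (γ : AutO k F L Ω) (σ : Ω ≃ₐ[L] Ω) :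
    (galA k F (conjG γ σ) : AutO k F L Ω) = γ * galA k F σ * γ⁻¹ := by
  apply Subtype.ext
  ext x
  have h := conjG_spec γ σ (((γ⁻¹ : AutO k F L Ω) : Ω ≃+* Ω) x)
  rw [gb_symm, RingEquiv.apply_symm_apply] at h
  rw [galA_coe, h]
  rfl

lemma conjG_galA (τ σ : Ω ≃ₐ[L] Ω) : conjG (galA k F τ : AutO k F L Ω) σ = τ * σ * τ⁻¹ := by
  ext x
  have h := conjG_spec (galA k F τ : AutO k F L Ω) σ (τ⁻¹ x)
  have h1 : τ (τ⁻¹ x) = x := τ.apply_symm_apply x
  rw [galA_coe, galA_coe, h1] at h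
  rw [h]
  rfl

variable [Algebra F Ω]

private lemma g10_aeval_tA (hF : CompatF F L Ω) (p : F[X]) :
    aeval (tA F L Ω) p = algebraMap L Ω (algebraMap F[X] L p) := by
  have h : ((aeval (tA F L Ω) : F[X] →ₐ[F] Ω) : F[X] →+* Ω) =
      (algebraMap L Ω).comp (algebraMap F[X] L) := by
    apply Polynomial.ringHom_ext
    · intro a
      simp [hF a]
    · simp [tA]
  exact congrArg (fun φ : F[X] →+* Ω => φ p) h

private lemma g10_tA_inj (hF : CompatF F L Ω) :
    Function.Injective (aeval (tA F L Ω) : F[X] →ₐ[F] Ω) := by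
  intro p q hpq
  rw [g10_aeval_tA hF, g10_aeval_tA hF] at hpq
  exact IsFractionRing.injective F[X] L ((algebraMap L Ω).injective hpq)

/-- Elements fixed by all automorphisms are purely inseparable. -/
private lemma g10_pow (K Ω' : Type u) [Field K] [Field Ω'] [Algebra K Ω'] [IsAlgClosure K Ω']
    (x : Ω') (hx : ∀ σ : Ω' ≃ₐ[K] Ω', σ x = x) :
    ∃ (s : ℕ) (y : K), x ^ ringExpChar K ^ s = algebraMap K Ω' y := by
  have h1 : IsAlgClosed Ω' := IsAlgClosure.isAlgClosed K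
  have h2 : Algebra.IsAlgebraic K Ω' := IsAlgClosure.isAlgebraic
  have h3 : Normal K Ω' := IsAlgClosure.normal K Ω'
  have hint : IsIntegral K x := (Algebra.IsAlgebraic.isAlgebraic x).isIntegral
  have h4 : (minpoly K x).natSepDegree = 1 := by
    rw [natSepDegree_eq_of_isAlgClosed Ω', Finset.card_eq_one]
    refine ⟨x, ?_⟩
    ext y
    rw [Multiset.mem_toFinset, Finset.mem_singleton, mem_aroots]
    constructor
    · rintro ⟨-, hy⟩
      have h5 : IsConjRoot K x y := (isConjRoot_iff_aeval_eq_zero hint).mpr hy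
      obtain ⟨σ, hσ⟩ := isConjRoot_iff_exists_algEquiv.mp h5
      have h6 := hx σ
      exact σ.injective (hσ.trans h6.symm)
    · rintro rfl
      exact ⟨minpoly.ne_zero hint, minpoly.aeval K _⟩
  obtain ⟨s, y, hy⟩ := (minpoly.natSepDegree_eq_one_iff_pow_mem (ringExpChar K)).mp h4
  exact ⟨s, y, hy.symm⟩

/-- (2) for `L` -/
lemma exists_pow_mem_L (x : Ω) (hx : ∀ σ : Ω ≃ₐ[L] Ω, σ x = x) :
    ∃ (s : ℕ) (y : L), x ^ ringExpChar L ^ s = algebraMap L Ω y :=
  g10_pow L Ω x hx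

private lemma g10_mult_pow {K : Type u} [Field K] (P : K[X]) (n : ℕ) (b : K) (h : P ^ n ≠ 0) :
    rootMultiplicity b (P ^ n) = n * rootMultiplicity b P := by
  by_cases hP : P = 0
  · subst hP
    have hn : n = 0 := by
      by_contra hn
      exact h (zero_pow hn)
    subst hn
    simp
  · clear h
    induction n with
    | zero => simp
    | succ n ih =>
      rw [pow_succ, rootMultiplicity_mul (mul_ne_zero (pow_ne_zero _ hP) hP), ih]
      ring

private lemma g10_mult_prod {K : Type u} [Field K] (S : Finset K) (m : K → ℕ) (b : K)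
    (hb : b ∈ S) : rootMultiplicity b (∏ β ∈ S, (X - C β) ^ m β) = m b := by
  have h0 : ∏ β ∈ S, (X - C β) ^ m β ≠ 0 :=
    Finset.prod_ne_zero_iff.mpr fun β _ => pow_ne_zero _ (X_sub_C_ne_zero β)
  rw [← Finset.mul_prod_erase S _ hb] at h0 ⊢
  rw [rootMultiplicity_mul h0, rootMultiplicity_X_sub_C_pow]
  have h1 : rootMultiplicity b (∏ β ∈ S.erase b, (X - C β) ^ m β) = 0 := by
    apply rootMultiplicity_eq_zero
    rw [IsRoot.def, eval_prod, Finset.prod_eq_zero_iff]
    rintro ⟨β, hβ, h2⟩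
    rw [eval_pow, eval_sub, eval_X, eval_C] at h2
    have h3 : b - β = 0 := by
      by_contra h4
      exact pow_ne_zero _ h4 h2
    exact (Finset.mem_erase.mp hβ).1 (sub_eq_zero.mp h3).symm
  rw [h1, add_zero]

/-- (3) -/
lemma dvd_of_prod_eq_pow {A : Type u} [Field A] [Algebra F A] {θ : A}
    (hθ : Function.Injective (aeval θ : F[X] →ₐ[F] A)) {ℓ : ℕ} (S : Finset F) (n : F → ℤ)
    (c : F) (hc : c ≠ 0) (P Q : F[X]) (hQ : Q ≠ 0)
    (h : ∏ β ∈ S, (θ - algebraMap F A β) ^ n β = algebraMap F A c * (aeval θ P / aeval θ Q) ^ ℓ) :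
    ∀ β ∈ S, (ℓ : ℤ) ∣ n β := by
  intro b hb
  have hQ0 : aeval θ Q ≠ 0 := by
    intro h0
    rw [← map_zero (aeval θ : F[X] →ₐ[F] A)] at h0
    exact hQ (hθ h0)
  have hθβ : ∀ β : F, θ - algebraMap F A β ≠ 0 := by
    intro β h0
    have h1 : aeval θ (X - C β) = 0 := by
      rw [map_sub, aeval_X, aeval_C, h0]
    rw [← map_zero (aeval θ : F[X] →ₐ[F] A)] at h1
    exact X_sub_C_ne_zero β (hθ h1)
  have hz : ∀ β : F, (θ - algebraMap F A β) ^ n β * (θ - algebraMap F A β) ^ (-(n β)).toNat =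
      (θ - algebraMap F A β) ^ (n β).toNat := by
    intro β
    rw [← zpow_natCast, ← zpow_natCast, ← zpow_add₀ (hθβ β)]
    congr 1
    omega
  have hprod : (∏ β ∈ S, (θ - algebraMap F A β) ^ n β) *
      ∏ β ∈ S, (θ - algebraMap F A β) ^ (-(n β)).toNat =
      ∏ β ∈ S, (θ - algebraMap F A β) ^ (n β).toNat := by
    rw [← Finset.prod_mul_distrib]
    exact Finset.prod_congr rfl fun β _ => hz β
  have hae : ∀ m : F → ℕ, aeval θ (∏ β ∈ S, (X - C β) ^ m β) =
      ∏ β ∈ S, (θ - algebraMap F A β) ^ m β := by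
    intro m
    rw [map_prod]
    refine Finset.prod_congr rfl fun β _ => ?_
    rw [map_pow, map_sub, aeval_X, aeval_C]
  have hpol : (∏ β ∈ S, (X - C β) ^ (n β).toNat) * Q ^ ℓ =
      C c * P ^ ℓ * ∏ β ∈ S, (X - C β) ^ (-(n β)).toNat := by
    apply hθ
    rw [map_mul, map_mul, map_mul, hae, hae, aeval_C, map_pow, map_pow, ← hprod, h, div_pow]
    field_simp
  have hL0 : (∏ β ∈ S, (X - C β) ^ (n β).toNat) * Q ^ ℓ ≠ 0 :=
    mul_ne_zero (Finset.prod_ne_zero_iff.mpr fun β _ => pow_ne_zero _ (X_sub_C_ne_zero β))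
      (pow_ne_zero _ hQ)
  have hR0 : C c * P ^ ℓ * ∏ β ∈ S, (X - C β) ^ (-(n β)).toNat ≠ 0 := by
    rw [← hpol]
    exact hL0
  have hcP : C c * P ^ ℓ ≠ 0 := left_ne_zero_of_mul hR0
  have hP0 : P ^ ℓ ≠ 0 := right_ne_zero_of_mul hcP
  have hm := congrArg (rootMultiplicity b) hpol
  rw [rootMultiplicity_mul hL0, rootMultiplicity_mul hR0, rootMultiplicity_mul hcP,
    rootMultiplicity_C, zero_add, g10_mult_pow Q ℓ b (pow_ne_zero _ hQ), g10_mult_pow P ℓ b hP0,
    g10_mult_prod S _ b hb, g10_mult_prod S _ b hb] at hm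
  refine ⟨(rootMultiplicity b P : ℤ) - rootMultiplicity b Q, ?_⟩
  have hm' : (((n b).toNat : ℤ)) + ℓ * rootMultiplicity b Q =
      ℓ * rootMultiplicity b P + ((-(n b)).toNat : ℤ) := by
    exact_mod_cast hm
  have hn : n b = ((n b).toNat : ℤ) - ((-(n b)).toNat : ℤ) := by omega
  rw [mul_sub]
  linarith

lemma tA_injective (hF : CompatF F L Ω) :
    Function.Injective (aeval (tA F L Ω) : F[X] →ₐ[F] Ω) :=
  g10_tA_inj hF

lemma G13_map_aeval (hF : CompatF F L Ω) {M : Type u} [Field M] [Algebra L M] [Algebra F M]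
    (hFM : CompatF F L M) (j : Ω →ₐ[L] M) (x : Ω) (P : F[X]) :
    j (aeval x P) = aeval (j x) P := by
  have hj : ∀ c : F, j (algebraMap F Ω c) = algebraMap F M c := by
    intro c
    rw [hF c, hFM c, j.commutes]
  have h1 := Polynomial.hom_eval₂ P (algebraMap F Ω) (j : Ω →+* M) x
  have h2 : (j : Ω →+* M).comp (algebraMap F Ω) = algebraMap F M := by
    ext c
    exact hj c
  rw [h2] at h1
  exact h1

lemma G13_zA {A : Type u} [Field A] [Algebra L A] [Algebra F A] (hFA : CompatF F L A) (ζ : k) :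
    zA F L A ζ = algebraMap F A (algebraMap k F ζ) := by
  rw [hFA]
  unfold zA base
  simp

lemma G13_map_zA {M : Type u} [Field M] [Algebra L M] (j : Ω →ₐ[L] M) (ζ : k) :
    j (zA F L Ω ζ) = zA F L M ζ := by
  unfold zA base
  simp

lemma map_zA {M : Type u} [Field M] [Algebra L M] (j : Ω →ₐ[L] M) (ζ : k) :
    j (zA F L Ω ζ) = zA F L M ζ := by
  unfold zA base
  rw [RingHom.comp_apply, RingHom.comp_apply]
  exact j.commutes _

end

section L11

variable {F K M : Type u} [Field F] [Field K] [Field M] [Algebra F M] [Algebra K M]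

/-- The automorphisms of `M` over `K` fix the coefficients of a polynomial over `K`. -/
def galSym {f₀ : K[X]} {f : M[X]} (hf : f₀.map (algebraMap K M) = f) :
    (M ≃ₐ[K] M) →* Sym f where
  toFun σ := ⟨(σ : M ≃+* M), by
    rw [mem_Sym, ← hf, Polynomial.map_map]
    congr 1
    ext x
    exact σ.commutes x⟩
  map_one' := by
    apply Subtype.ext
    rfl
  map_mul' σ τ := by
    apply Subtype.ext
    rfl

lemma galSym_apply {f₀ : K[X]} {f : M[X]} (hf : f₀.map (algebraMap K M) = f) (σ : M ≃ₐ[K] M)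
    (x : M) : ((galSym hf σ : Sym f) : M ≃+* M) x = σ x := rfl

private lemma L11_pow_mem [IsAlgClosure K M] {x : M} (hx : ∀ σ : M ≃ₐ[K] M, σ x = x) :
    ∃ n : ℕ, x ^ (ringExpChar K) ^ n ∈ (algebraMap K M).range := by
  have hN : Normal K M := IsAlgClosure.normal K M
  have hA : IsAlgClosed M := IsAlgClosure.isAlgClosed K
  have hint : IsIntegral K x := (IsAlgClosure.isAlgebraic.isAlgebraic x).isIntegral
  rw [← minpoly.natSepDegree_eq_one_iff_pow_mem (ringExpChar K),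
    natSepDegree_eq_of_isAlgClosed M, Finset.card_eq_one]
  refine ⟨x, ?_⟩
  ext y
  rw [Multiset.mem_toFinset, Finset.mem_singleton, ← isConjRoot_iff_mem_minpoly_aroots hint]
  constructor
  · intro h
    obtain ⟨σ, hσ⟩ := h.exists_algEquiv
    have h2 := hx σ.symm
    rw [← hσ, AlgEquiv.symm_apply_apply] at h2
    rw [h2, hσ]
  · rintro rfl
    exact IsConjRoot.refl

variable {v : AbsoluteValue M ℝ} {a : F} {t : M} [IsAlgClosure K M]

theorem LocCtx.locGrp (h : LocCtx v a t) {f₀ : K[X]} {f : M[X]}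
    (hf : f₀.map (algebraMap K M) = f) (hinv : ∀ (σ : M ≃ₐ[K] M) x, v (σ x) = v x)
    (hval : ∀ x : K, x ≠ 0 → ∃ i : ℤ, v (algebraMap K M x) = v (t - algebraMap F M a) ^ i)
    (hF : ∀ c : F, ∃ x : K, algebraMap K M x = algebraMap F M c)
    (ht : ∃ x : K, algebraMap K M x = t) :
    LocGrp (ringExpChar K) F v t (v (t - algebraMap F M a)) (galSym hf).range where
  pos := v.pos (sub_ne_zero.2 h.ne)
  lt_one := h.lt_one
  inv := by
    rintro _ ⟨τ, rfl⟩ x
    exact hinv τ x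
  fix := by
    rintro _ ⟨τ, rfl⟩ c
    obtain ⟨x, hx⟩ := hF c
    rw [galSym_apply, ← hx, τ.commutes]
  fixt := by
    rintro _ ⟨τ, rfl⟩
    obtain ⟨x, hx⟩ := ht
    rw [galSym_apply, ← hx, τ.commutes]
  disc := by
    intro x hx0 hx
    obtain ⟨n, y, hy⟩ := L11_pow_mem (K := K) (x := x) (fun σ => by
      have := hx (galSym hf σ) ⟨σ, rfl⟩
      rwa [galSym_apply] at this)
    have hy0 : y ≠ 0 := by
      rintro rfl
      rw [map_zero] at hy
      exact pow_ne_zero _ hx0 hy.symm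
    obtain ⟨i, hi⟩ := hval y hy0
    refine ⟨n, i, ?_⟩
    rw [← map_pow, ← hy, hi]

end L11

end Pool.Agent.Lib.MP_89bcae_ag.Wt.Lns

end
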