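import Mathlib
import Pool.Agent.Lib.MP_89bcae_ag.Mk.K017
import Pool.Agent.Lib.MP_89bcae_ag.Mk.K019

namespace Pool.Agent.Lib.MP_89bcae_ag.Sup
end Pool.Agent.Lib.MP_89bcae_ag.Sup

section

/-!
# Complements on the Jacobian of the normalization of `y ^ ℓ = f(x)`
-/

open Polynomial IsDedekindDomain

open scoped Classical

namespace Pool.Agent.Lib.MP_89bcae_ag.Wt

open Pool.Agent.Lib.MP_89bcae_ag.Sup

universe u

section

variable {ℓ : ℕ} {E : Type u} [Field E] {f : E[X]}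

lemma symJ_one [IsGood ℓ f] (Q : Jac ℓ f) : symJ (1 : Sym f) Q = Q := by
  obtain ⟨D, rfl⟩ := cl_surjective Q
  rw [symJ_cl]
  have h : (Pt.sym (1 : Sym f) : Pt ℓ f → Pt ℓ f) = id := rfl
  rw [h, Finsupp.mapDomain_id]

lemma symJ_mul [IsGood ℓ f] (σ τ : Sym f) (Q : Jac ℓ f) :
    symJ (σ * τ) Q = symJ σ (symJ τ Q) := by
  obtain ⟨D, rfl⟩ := cl_surjective Q
  rw [symJ_cl, symJ_cl, symJ_cl, ← Finsupp.mapDomain_comp]
  rfl

/-- The operator `v = ∑_{k<ℓ} ∑_{i<k} Z^i`, with `(1 - Z) v = ℓ`. -/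
noncomputable def vJ {E : Type u} [Field E] {f : E[X]} [IsGood ℓ f] (ζ : E) (hζ : ζ ^ ℓ = 1)
    (Q : Jac ℓ f) : Jac ℓ f :=
  ∑ k ∈ Finset.range ℓ, ∑ i ∈ Finset.range k, (zJ ζ hζ)^[i] Q

end

section

variable {ℓ : ℕ} {E : Type u} [Field E] {f : E[X]} [hG : IsGood ℓ f]

lemma vJ_add (ζ : E) (hζ : ζ ^ ℓ = 1) (Q Q' : Jac ℓ f) :
    vJ ζ hζ (Q + Q') = vJ ζ hζ Q + vJ ζ hζ Q' := by
  unfold vJ
  rw [← Finset.sum_add_distrib]
  refine Finset.sum_congr rfl fun k _ => ?_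
  rw [← Finset.sum_add_distrib]
  refine Finset.sum_congr rfl fun i _ => ?_
  exact iterate_map_add (zJ ζ hζ) i Q Q'

private lemma G07_vJ_zero (ζ : E) (hζ : ζ ^ ℓ = 1) : vJ ζ hζ (0 : Jac ℓ f) = 0 := by
  have h := vJ_add ζ hζ (0 : Jac ℓ f) 0
  rw [add_zero] at h
  exact left_eq_add.mp h

private noncomputable def G07_vHom (ζ : E) (hζ : ζ ^ ℓ = 1) : Jac ℓ f →+ Jac ℓ f where
  toFun := vJ ζ hζ
  map_zero' := G07_vJ_zero ζ hζ
  map_add' := vJ_add ζ hζ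

lemma vJ_sub (ζ : E) (hζ : ζ ^ ℓ = 1) (Q Q' : Jac ℓ f) :
    vJ ζ hζ (Q - Q') = vJ ζ hζ Q - vJ ζ hζ Q' :=
  map_sub (G07_vHom ζ hζ) Q Q'

lemma vJ_smul (ζ : E) (hζ : ζ ^ ℓ = 1) (n : ℕ) (Q : Jac ℓ f) :
    vJ ζ hζ (n • Q) = n • vJ ζ hζ Q :=
  map_nsmul (G07_vHom ζ hζ) n Q

/-- A homomorphism which commutes with `Z` commutes with `v`. -/
private lemma G07_vJ_semiconj {E' : Type u} [Field E'] {f' : E'[X]} [hG' : IsGood ℓ f'] (ζ : E)
    (hζ : ζ ^ ℓ = 1) (ζ' : E') (hζ' : ζ' ^ ℓ = 1) (h : Jac ℓ f →+ Jac ℓ f')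
    (hh : ∀ Q, zJ ζ' hζ' (h Q) = h (zJ ζ hζ Q)) (Q : Jac ℓ f) :
    vJ ζ' hζ' (h Q) = h (vJ ζ hζ Q) := by
  have hs : Function.Semiconj h (zJ ζ hζ) (zJ ζ' hζ') := fun Q => (hh Q).symm
  unfold vJ
  rw [map_sum]
  refine Finset.sum_congr rfl fun k _ => ?_
  rw [map_sum]
  refine Finset.sum_congr rfl fun i _ => ?_
  exact ((hs.iterate_right i) Q).symm

lemma vJ_zJ (ζ : E) (hζ : ζ ^ ℓ = 1) (Q : Jac ℓ f) :
    vJ ζ hζ (zJ ζ hζ Q) = zJ ζ hζ (vJ ζ hζ Q) :=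
  G07_vJ_semiconj ζ hζ ζ hζ (zJ ζ hζ) (fun _ => rfl) Q

lemma vJ_sub_zJ (ζ : E) (hζ : IsPrimitiveRoot ζ ℓ) (Q : Jac ℓ f) :
    vJ ζ hζ.pow_eq_one Q - zJ ζ hζ.pow_eq_one (vJ ζ hζ.pow_eq_one Q) = ℓ • Q := by
  have h0 := sum_zJ ζ hζ Q
  unfold vJ
  rw [map_sum, ← Finset.sum_sub_distrib]
  have h1 : ∀ k ∈ Finset.range ℓ, (∑ i ∈ Finset.range k, (zJ ζ hζ.pow_eq_one)^[i] Q) -
      zJ ζ hζ.pow_eq_one (∑ i ∈ Finset.range k, (zJ ζ hζ.pow_eq_one)^[i] Q) =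
      Q - (zJ ζ hζ.pow_eq_one)^[k] Q := by
    intro k _
    rw [map_sum, ← Finset.sum_sub_distrib]
    have h2 : ∀ i ∈ Finset.range k, (zJ ζ hζ.pow_eq_one)^[i] Q -
        zJ ζ hζ.pow_eq_one ((zJ ζ hζ.pow_eq_one)^[i] Q) =
        (fun j => (zJ ζ hζ.pow_eq_one)^[j] Q) i - (fun j => (zJ ζ hζ.pow_eq_one)^[j] Q) (i + 1) := by
      intro i _
      simp only [Function.iterate_succ_apply']
    rw [Finset.sum_congr rfl h2, Finset.sum_range_sub']
    rfl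
  rw [Finset.sum_congr rfl h1, Finset.sum_sub_distrib, h0, sub_zero, Finset.sum_const,
    Finset.card_range]

lemma vJ_symJ (ζ : E) (hζ : ζ ^ ℓ = 1) (σ : Sym f) (hσ : (σ : E ≃+* E) ζ = ζ) (Q : Jac ℓ f) :
    vJ ζ hζ (symJ σ Q) = symJ σ (vJ ζ hζ Q) :=
  G07_vJ_semiconj ζ hζ ζ hζ (symJ σ) (fun Q => zJ_symJ ζ hζ σ hσ Q) Q

lemma vJ_jacMap {E' : Type u} [Field E'] {f' : E'[X]} [hG' : IsGood ℓ f'] (σ : E →+* E')
    (h : f.map σ = f') (ζ : E) (hζ : ζ ^ ℓ = 1) (hζ' : (σ ζ) ^ ℓ = 1) (Q : Jac ℓ f) :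
    vJ (σ ζ) hζ' (jacMap ℓ σ h Q) = jacMap ℓ σ h (vJ ζ hζ Q) :=
  G07_vJ_semiconj ζ hζ (σ ζ) hζ' (jacMap ℓ σ h) (fun Q => zJ_jacMap σ h ζ hζ hζ' Q) Q

/-- The operator `π = 1 - Z` in the ring of endomorphisms, with the identity of `A01`. -/
private lemma G07_identity (hℓ : ℓ.Prime) (ζ : E) (hζ : IsPrimitiveRoot ζ ℓ) :
    ∃ p U : AddMonoid.End (Jac ℓ f), (∀ Q, p Q = Q - zJ ζ hζ.pow_eq_one Q) ∧
      p ^ (ℓ - 1) = (ℓ : AddMonoid.End (Jac ℓ f)) * U := by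
  let z : AddMonoid.End (Jac ℓ f) := zJ ζ hζ.pow_eq_one
  let S : ℤ[X] := ∑ i ∈ Finset.range ℓ, X ^ i
  have hS : aeval z S = 0 := by
    refine AddMonoidHom.ext fun Q => ?_
    have h := sum_zJ ζ hζ Q
    have h2 : aeval z S = ∑ i ∈ Finset.range ℓ, z ^ i := by
      simp only [S, map_sum, map_pow, aeval_X]
    rw [h2]
    have h3 : (∑ i ∈ Finset.range ℓ, z ^ i : AddMonoid.End (Jac ℓ f)) Q =
        ∑ i ∈ Finset.range ℓ, (z ^ i) Q := AddMonoidHom.finsetSum_apply _ _ _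
    exact h3.trans h
  let B : Type := ℤ[X] ⧸ Ideal.span {S}
  let φ : B →+* AddMonoid.End (Jac ℓ f) :=
    Ideal.Quotient.lift (Ideal.span {S}) (aeval z : ℤ[X] →ₐ[ℤ] AddMonoid.End (Jac ℓ f)).toRingHom
      (by
        intro a ha
        obtain ⟨b, rfl⟩ := Ideal.mem_span_singleton'.mp ha
        show aeval z (b * S) = 0
        rw [map_mul, hS, mul_zero])
  have hz : ∑ i ∈ Finset.range ℓ, (Ideal.Quotient.mk (Ideal.span {S}) X : B) ^ i = 0 := by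
    have h : (Ideal.Quotient.mk (Ideal.span {S}) S : B) = 0 :=
      Ideal.Quotient.eq_zero_iff_mem.mpr (Ideal.mem_span_singleton_self S)
    rw [← h]
    simp only [S, map_sum, map_pow]
  obtain ⟨v, w, h1, h2⟩ := exists_pi_identity hℓ (Ideal.Quotient.mk (Ideal.span {S}) X : B) hz
  have hφX : φ (Ideal.Quotient.mk (Ideal.span {S}) X) = z := by
    show aeval z X = z
    exact aeval_X z
  refine ⟨1 - z, φ (-1 + (1 - Ideal.Quotient.mk (Ideal.span {S}) X) * w), fun Q => rfl, ?_⟩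
  have h3 := congrArg φ h2
  rw [map_pow, map_mul, map_natCast, map_sub, map_one, hφX] at h3
  exact h3

/-- (5) -/
lemma exists_smul_eq (hℓ : ℓ.Prime) (ζ : E) (hζ : IsPrimitiveRoot ζ ℓ) (Q : Jac ℓ f) :
    ∃ Q' : Jac ℓ f, ℓ • Q' = Q := by
  obtain ⟨p, U, hp, hU⟩ := G07_identity hℓ (f := f) ζ hζ
  have hs : ∀ n : ℕ, ∃ Q' : Jac ℓ f, (p ^ n) Q' = Q := by
    intro n
    induction n with
    | zero => exact ⟨Q, rfl⟩
    | succ n ih =>
      obtain ⟨Q', hQ'⟩ := ih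
      obtain ⟨Q'', hQ''⟩ := exists_sub_zJ ζ hζ Q'
      refine ⟨Q'', ?_⟩
      rw [pow_succ]
      show (p ^ n) (p Q'') = Q
      rw [hp, hQ'', hQ']
  obtain ⟨Q', hQ'⟩ := hs (ℓ - 1)
  refine ⟨U Q', ?_⟩
  rw [hU] at hQ'
  exact hQ'

/-- A class killed by `ℓ` is killed by `(1 - Z)^(ℓ-1)`. -/
lemma iterate_eq_zero_of_smul (hℓ : ℓ.Prime) (ζ : E) (hζ : IsPrimitiveRoot ζ ℓ) (n : ℕ) (Q : Jac ℓ f)
    (hQ : ℓ ^ n • Q = 0) : (fun x => x - zJ ζ hζ.pow_eq_one x)^[(ℓ - 1) * n] Q = 0 := by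
  obtain ⟨p, U, hp, hU⟩ := G07_identity hℓ (f := f) ζ hζ
  have hfun : (fun x => x - zJ ζ hζ.pow_eq_one x) = (p : Jac ℓ f → Jac ℓ f) := by
    funext x
    exact (hp x).symm
  have h1 : (fun x => x - zJ ζ hζ.pow_eq_one x)^[(ℓ - 1) * n] Q = (p ^ ((ℓ - 1) * n)) Q := by
    rw [hfun]
    rfl
  rw [h1, pow_mul, hU, (Nat.cast_commute ℓ U).mul_pow, ((Nat.cast_commute ℓ U).pow_pow n n).eq]
  show (U ^ n) (((ℓ : AddMonoid.End (Jac ℓ f)) ^ n) Q) = 0
  rw [← Nat.cast_pow, AddMonoid.End.natCast_apply, hQ, map_zero]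

/-- Image of a ramified class under a homomorphism of fields. -/
lemma jacMap_ram {E' : Type u} [Field E'] {f' : E'[X]} [hG' : IsGood ℓ f'] (σ : E →+* E')
    (h : f.map σ = f') (e : E → ℤ) (e' : E' → ℤ) (he : ∀ θ, f.eval θ = 0 → e' (σ θ) = e θ) :
    jacMap ℓ σ h (ram e) = ram e' := by
  unfold ram
  rw [jacMap_cl]
  congr 1
  have hinj : Function.Injective (Pt.map σ h : Pt ℓ f → Pt ℓ f') := by
    intro P P' hPP
    have h1 : σ P.x = σ P'.x := congrArg Pt.x hPP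
    have h2 : σ P.y = σ P'.y := congrArg Pt.y hPP
    exact Pt.ext (σ.injective h1) (σ.injective h2)
  ext P'
  by_cases hP' : P' ∈ Set.range (Pt.map σ h : Pt ℓ f → Pt ℓ f')
  · obtain ⟨P, rfl⟩ := hP'
    rw [Finsupp.mapDomain_apply hinj, ramDiv_apply, ramDiv_apply]
    by_cases hy : P.y = 0
    · have hy' : (Pt.map σ h P).y = 0 := by
        show σ P.y = 0
        rw [hy, map_zero]
      rw [if_pos hy, if_pos hy']
      exact (he P.x (R15_root P hy)).symm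
    · have hy' : (Pt.map σ h P).y ≠ 0 := by
        show σ P.y ≠ 0
        exact fun h0 => hy ((map_eq_zero σ).mp h0)
      rw [if_neg hy, if_neg hy']
  · rw [Finsupp.mapDomain_of_notMem_range _ _ hP', ramDiv_apply]
    have hy' : P'.y ≠ 0 := by
      intro hy
      apply hP'
      have := hG.alg
      have hr : f'.eval P'.x = 0 := R15_root P' hy
      have hf0 : f ≠ 0 := f_ne_zero ℓ f
      have hx : P'.x ∈ σ.range := by
        apply (IsAlgClosed.splits f).mem_range_of_isRoot hf0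
        rw [h]
        exact hr
      obtain ⟨x, hx⟩ := hx
      have hfx : f.eval x = 0 := by
        apply σ.injective
        rw [map_zero, ← Polynomial.eval_map_apply, h, hx]
        exact hr
      refine ⟨⟨x, 0, by rw [hfx, zero_pow hG.ne]⟩, ?_⟩
      refine Pt.ext hx ?_
      show σ 0 = P'.y
      rw [map_zero, hy]
    rw [if_neg hy']

end

lemma jacMap_jacMap (ℓ : ℕ) {A B C' : Type u} [Field A] [Field B] [Field C'] (σ : A →+* B)
    (τ : B →+* C') {f : A[X]} {f' : B[X]} {f'' : C'[X]} (h : f.map σ = f') (h' : f'.map τ = f'')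
    (h'' : f.map (τ.comp σ) = f'') (Q : Jac ℓ f) :
    jacMap ℓ τ h' (jacMap ℓ σ h Q) = jacMap ℓ (τ.comp σ) h'' Q := by
  have e0 : (funMap ℓ τ h').comp (funMap ℓ σ h) = funMap ℓ (τ.comp σ) h'' := by
    refine funField_hom_ext (fun p => ?_) ?_
    · rw [RingHom.comp_apply, funMap_polyF, funMap_polyF, funMap_polyF, Polynomial.map_map]
    · rw [RingHom.comp_apply, funMap_yF, funMap_yF, funMap_yF]
  have e : (coordMap ℓ τ h').comp (coordMap ℓ σ h) = coordMap ℓ (τ.comp σ) h'' :=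
    RingHom.ext fun a => Subtype.ext (RingHom.congr_fun e0 (a : FunField ℓ f))
  have h1 : (CommRing.Pic.mapRingHom (coordMap ℓ τ h')).comp
      (CommRing.Pic.mapRingHom (coordMap ℓ σ h)) =
      CommRing.Pic.mapRingHom (coordMap ℓ (τ.comp σ) h'') := by
    rw [← e]
    exact CommRing.Pic.mapRingHom_comp_mapRingHom
  exact congrArg Additive.ofMul (DFunLike.congr_fun h1 Q.toMul)

lemma push_push (ℓ : ℕ) {L A B C' : Type u} [Field L] [Field A] [Field B] [Field C'] [Algebra L A]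
    [Algebra L B] [Algebra L C'] (f : L[X]) (σ : A →ₐ[L] B) (τ : B →ₐ[L] C')
    (Q : JacOver ℓ f A) : push ℓ f τ (push ℓ f σ Q) = push ℓ f (τ.comp σ) Q :=
  jacMap_jacMap ℓ (σ : A →+* B) (τ : B →+* C') _ _ _ Q

/-- The automorphism `Z` depends only on the root of unity. -/
lemma G04_zJ_congr {ℓ : ℕ} {E : Type u} [Field E] {f : E[X]} [IsGood ℓ f] {z z' : E} (h : z = z')
    (hz : z ^ ℓ = 1) (hz' : z' ^ ℓ = 1) (Q : Jac ℓ f) : zJ z hz Q = zJ z' hz' Q := by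
  subst h
  rfl

end Pool.Agent.Lib.MP_89bcae_ag.Wt

end

section

/-!
# Cyclic coverings given by a polynomial `P(t, x)`: the curve `y ^ ℓ = P(t, x)` over `F(t)`

Setting: `k` a field, `F` an algebraic closure of `k`, `L = F(t)`, `Ω` an algebraic closure of `L`;
`P` is in `k[t][x]`.
-/

open Polynomial IsDedekindDomain

open scoped Classical

namespace Pool.Agent.Lib.MP_89bcae_ag.Wt.Lns

open Pool.Agent.Lib.MP_89bcae_ag.Sup

universe u

/-- The polynomial `P` over `L = F(t)`. -/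
noncomputable def curveL (k F L : Type u) [Field k] [Field F] [Algebra k F] [Field L]
    [Algebra F[X] L] (P : k[X][X]) : L[X] :=
  P.map (base k F L L)

/-- The curve over the extension `A` of `L`. -/
noncomputable abbrev cOver (k F L A : Type u) [Field k] [Field F] [Algebra k F] [Field L]
    [Algebra F[X] L] [Field A] [Algebra L A] (P : k[X][X]) : A[X] :=
  (curveL k F L P).map (algebraMap L A)

/-- The hypotheses on `ℓ`, `P`, `ζ`. -/
structure LHyp (ℓ : ℕ) (k F L : Type u) [Field k] [Field F] [Algebra k F] [Field L]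
    [Algebra F[X] L] (P : k[X][X]) (ζ : k) : Prop where
  prime : ℓ.Prime
  ne : (ℓ : k) ≠ 0
  zeta : IsPrimitiveRoot ζ ℓ
  good : ∀ (A : Type u) [Field A] [Algebra L A] [IsAlgClosed A], IsGood ℓ (cOver k F L A P)

section

variable {k F L Ω : Type u} [Field k] [Field F] [Algebra k F] [Field L] [Algebra F[X] L]
  [Field Ω] [Algebra L Ω]

lemma cOver_eq (A : Type u) [Field A] [Algebra L A] (P : k[X][X]) :
    cOver k F L A P = P.map (base k F L A) := by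
  unfold cOver curveL
  rw [Polynomial.map_map]
  rfl

private lemma gb_sym (P : k[X][X]) (γ : AutO k F L Ω) :
    (γ : Ω ≃+* Ω) ∈ Sym (cOver k F L Ω P) := by
  rw [mem_Sym, cOver_eq, Polynomial.map_map]
  congr 1
  ext c
  · exact γ.2 (C c)
  · exact γ.2 X

/-- An automorphism over `k(t)` fixes the coefficients of the curve. -/
def toSym (P : k[X][X]) : AutO k F L Ω →* Sym (cOver k F L Ω P) where
  toFun γ := ⟨(γ : Ω ≃+* Ω), gb_sym P γ⟩
  map_one' := rfl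
  map_mul' _ _ := rfl

@[simp] lemma toSym_coe (P : k[X][X]) (γ : AutO k F L Ω) :
    ((toSym P γ : Sym (cOver k F L Ω P)) : Ω ≃+* Ω) = (γ : Ω ≃+* Ω) := rfl

end

section Cochains

variable {k F L Ω : Type u} [Field k] [Field F] [Algebra k F] [Field L] [Algebra F[X] L]
  [Field Ω] [Algebra L Ω]

/-- The cochains: sequences of maps from `Gal(Ω/L)` to the Jacobian. -/
abbrev Coch (ℓ : ℕ) (k F L Ω : Type u) [Field k] [Field F] [Algebra k F] [Field L]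
    [Algebra F[X] L] [Field Ω] [Algebra L Ω] (P : k[X][X]) : Type u :=
  ℕ → (Ω ≃ₐ[L] Ω) → JacOver ℓ (curveL k F L P) Ω

/-- Locally trivial at all the places `t = a`. -/
def LTc [IsFractionRing F[X] L] {ℓ : ℕ} {P : k[X][X]} (c : Coch ℓ k F L Ω P) : Prop :=
  ∀ (a : F) (n : ℕ), IsLocallyTrivial ℓ (curveL k F L P) (c n) ((plc a).adicCompletion L)

variable [IsAlgClosure k F] [IsFractionRing F[X] L] [IsAlgClosure L Ω] {ℓ : ℕ} {P : k[X][X]}

/-- The action of `Aut(Ω/k(t))` on the cochains: `(γ c)(σ) = γ (c (γ⁻¹ σ γ))`. -/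
noncomputable def act (γ : AutO k F L Ω) (c : Coch ℓ k F L Ω P) : Coch ℓ k F L Ω P :=
  fun n σ => symJ (toSym P γ) (c n (conjG γ⁻¹ σ))

variable [hG : IsGood ℓ (cOver k F L Ω P)]

/-- The automorphism `Z` acting on the cochains. -/
noncomputable def zC (ζ : k) (hζ : (zA F L Ω ζ) ^ ℓ = 1) :
    Coch ℓ k F L Ω P →+ Coch ℓ k F L Ω P where
  toFun c := fun n σ => zJ (zA F L Ω ζ) hζ (c n σ)
  map_zero' := by
    funext n σ
    exact map_zero _
  map_add' c c' := by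
    funext n σ
    exact map_add _ _ _

end Cochains

end Pool.Agent.Lib.MP_89bcae_ag.Wt.Lns

end
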