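import Mathlib
import Pool.Agent.Lib.MP_89bcae_ag.Mk.K020

namespace Pool.Agent.Lib.MP_89bcae_ag.Sup
end Pool.Agent.Lib.MP_89bcae_ag.Sup

section

/-!
ROW G02 (120-220 lines). Cocycles under addition, `Z` and the action of `Aut(Ω/k(t))`.

PROOFS. `act_mul`: `conjG (γ γ')⁻¹ = conjG γ'⁻¹ ∘ conjG γ⁻¹`, `symJ` is functorial
(`CommRing.Pic.mapRingHom_comp_mapRingHom`; `symJ_mul`, `symJ_one` may be proved through `symJ_cl`).
`push ℓ f (σ : Ω →ₐ[L] Ω) = symJ (toSym (galA σ))` by definition (`push_eq`).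
`IsTateCocycle` for `act γ c`: with `σ' = γ⁻¹ σ γ`, `γ c((στ)') = γ (c σ' + σ' c τ') = γ c σ' + σ γ c τ'`
(`galA_conjG`). Local constancy: `conjG γ⁻¹` is continuous for the Krull topology: it suffices that for
every finite set `S` of elements of `Ω`, an automorphism fixing `γ (S)` is mapped to one which fixes `S`
(`krullTopology`; basis of neighbourhoods = fixing subgroups of finite extensions of `L`, and a finite
extension `L(S)` is mapped by `γ` to the finite extension `L(γ S)`); use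
`IsLocallyConstant.comp_continuous`.
`Z`: `zJ_symJ` since `σ` fixes `ζ`.
-/

open Polynomial IsDedekindDomain

open scoped Classical

namespace Pool.Agent.Lib.MP_89bcae_ag.Wt.Lns

open Pool.Agent.Lib.MP_89bcae_ag.Sup

universe u

variable {ℓ : ℕ}

variable {k F L Ω : Type u} [Field k] [Field F] [Algebra k F] [Field L] [Algebra F[X] L]
  [Field Ω] [Algebra L Ω] [IsAlgClosure k F] [IsFractionRing F[X] L] [IsAlgClosure L Ω]
  {P : k[X][X]} [hG : IsGood ℓ (cOver k F L Ω P)]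

lemma push_eq (σ : Ω ≃ₐ[L] Ω) (Q : JacOver ℓ (curveL k F L P) Ω) :
    push ℓ (curveL k F L P) (σ : Ω →ₐ[L] Ω) Q = symJ (toSym P (galA k F σ)) Q := rfl

lemma act_one (c : Coch ℓ k F L Ω P) : act (1 : AutO k F L Ω) c = c := by
  funext n σ
  unfold act
  rw [inv_one, map_one, map_one, MulAut.one_apply]
  exact symJ_one _

lemma act_mul (γ γ' : AutO k F L Ω) (c : Coch ℓ k F L Ω P) :
    act (γ * γ') c = act γ (act γ' c) := by
  funext n σ
  unfold act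
  rw [mul_inv_rev, map_mul, map_mul, MulAut.mul_apply]
  exact symJ_mul _ _ _

lemma act_add (γ : AutO k F L Ω) (c c' : Coch ℓ k F L Ω P) :
    act γ (c + c') = act γ c + act γ c' := by
  funext n σ
  exact map_add (symJ (toSym P γ)) _ _

lemma act_zero (γ : AutO k F L Ω) : act γ (0 : Coch ℓ k F L Ω P) = 0 := by
  funext n σ
  exact map_zero (symJ (toSym P γ))

lemma act_sub (γ : AutO k F L Ω) (c c' : Coch ℓ k F L Ω P) :
    act γ (c - c') = act γ c - act γ c' := by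
  funext n σ
  exact map_sub (symJ (toSym P γ)) _ _

lemma act_zC (γ : AutO k F L Ω) (ζ : k) (hζ : (zA F L Ω ζ) ^ ℓ = 1)
    (c : Coch ℓ k F L Ω P) : act γ (zC ζ hζ c) = zC ζ hζ (act γ c) := by
  funext n σ
  exact (zJ_symJ (zA F L Ω ζ) hζ (toSym P γ) (zA_fixed ζ γ) _).symm

lemma tc_zero : IsTateCocycle ℓ (curveL k F L P) (0 : Coch ℓ k F L Ω P) where
  zero _ := rfl
  smul _ _ := smul_zero _
  cocycle n σ τ := by
    change (0 : JacOver ℓ (curveL k F L P) Ω) = 0 + push ℓ (curveL k F L P) _ 0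
    rw [map_zero, add_zero]
  locallyConstant _ := IsLocallyConstant.const _

lemma tc_add {c c' : Coch ℓ k F L Ω P}
    (hc : IsTateCocycle ℓ (curveL k F L P) c)
    (hc' : IsTateCocycle ℓ (curveL k F L P) c') :
    IsTateCocycle ℓ (curveL k F L P) (c + c') where
  zero σ := by
    rw [Pi.add_apply, Pi.add_apply, hc.zero, hc'.zero, add_zero]
  smul n σ := by
    rw [Pi.add_apply, Pi.add_apply, Pi.add_apply, Pi.add_apply, smul_add, hc.smul, hc'.smul]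
  cocycle n σ τ := by
    simp only [Pi.add_apply]
    rw [hc.cocycle, hc'.cocycle, map_add]
    abel
  locallyConstant n := (hc.locallyConstant n).add (hc'.locallyConstant n)

lemma tc_neg {c : Coch ℓ k F L Ω P}
    (hc : IsTateCocycle ℓ (curveL k F L P) c) :
    IsTateCocycle ℓ (curveL k F L P) (-c) where
  zero σ := by
    rw [Pi.neg_apply, Pi.neg_apply, hc.zero, neg_zero]
  smul n σ := by
    rw [Pi.neg_apply, Pi.neg_apply, Pi.neg_apply, Pi.neg_apply, smul_neg, hc.smul]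
  cocycle n σ τ := by
    simp only [Pi.neg_apply]
    rw [hc.cocycle, map_neg]
    abel
  locallyConstant n := (hc.locallyConstant n).neg

lemma tc_zC {c : Coch ℓ k F L Ω P}
    (hc : IsTateCocycle ℓ (curveL k F L P) c) (ζ : k) (hζ : (zA F L Ω ζ) ^ ℓ = 1) :
    IsTateCocycle ℓ (curveL k F L P) (Lns.zC ζ hζ c) where
  zero σ := by
    change zJ (zA F L Ω ζ) hζ (c 0 σ) = 0
    rw [hc.zero, map_zero]
  smul n σ := by
    change ℓ • zJ (zA F L Ω ζ) hζ (c (n + 1) σ) = zJ (zA F L Ω ζ) hζ (c n σ)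
    rw [← map_nsmul, hc.smul]
  cocycle n σ τ := by
    change zJ (zA F L Ω ζ) hζ (c n (σ * τ)) = zJ (zA F L Ω ζ) hζ (c n σ) +
      push ℓ (curveL k F L P) (σ : Ω →ₐ[L] Ω) (zJ (zA F L Ω ζ) hζ (c n τ))
    rw [hc.cocycle, map_add, push_eq, push_eq]
    rw [zJ_symJ (zA F L Ω ζ) hζ (toSym P (galA k F σ)) (zA_fixed ζ (galA k F σ))]
  locallyConstant n := (hc.locallyConstant n).comp (zJ (zA F L Ω ζ) hζ)

private lemma G02_continuous (γ : AutO k F L Ω) :
    Continuous (conjG γ : (Ω ≃ₐ[L] Ω) → (Ω ≃ₐ[L] Ω)) := by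
  have hmul : ∀ x : Ω, (γ : Ω ≃+* Ω) (((γ⁻¹ : AutO k F L Ω) : Ω ≃+* Ω) x) = x := fun x =>
    (γ : Ω ≃+* Ω).apply_symm_apply x
  refine continuous_of_continuousAt_one (conjG γ : MulAut (Ω ≃ₐ[L] Ω)) ?_
  unfold ContinuousAt
  rw [map_one]
  intro U hU
  obtain ⟨K, hK, hKU⟩ := (krullTopology_mem_nhds_one_iff L Ω U).1 hU
  let b := Module.finBasis L K
  let S : Set Ω := Set.range fun i => ((γ⁻¹ : AutO k F L Ω) : Ω ≃+* Ω) (b i : Ω)
  have halg : Algebra.IsAlgebraic L Ω := IsAlgClosure.isAlgebraic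
  have hfin : FiniteDimensional L (IntermediateField.adjoin L S) :=
    IntermediateField.finiteDimensional_adjoin fun x _ => halg.isAlgebraic x |>.isIntegral
  refine Filter.mem_map.2 ((krullTopology_mem_nhds_one_iff L Ω _).2
    ⟨IntermediateField.adjoin L S, hfin, ?_⟩)
  intro σ hσ
  refine hKU ?_
  have h1 : ∀ i, (conjG γ σ) (b i : Ω) = b i := by
    intro i
    have h2 : σ (((γ⁻¹ : AutO k F L Ω) : Ω ≃+* Ω) (b i : Ω)) =
        ((γ⁻¹ : AutO k F L Ω) : Ω ≃+* Ω) (b i : Ω) :=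
      (IntermediateField.mem_fixingSubgroup_iff _ _).1 hσ _
        (IntermediateField.subset_adjoin L S ⟨i, rfl⟩)
    have h3 := conjG_spec γ σ (((γ⁻¹ : AutO k F L Ω) : Ω ≃+* Ω) (b i : Ω))
    rw [h2, hmul] at h3
    exact h3
  have h4 : (conjG γ σ).toLinearMap ∘ₗ K.val.toLinearMap = K.val.toLinearMap :=
    b.ext fun i => h1 i
  exact (IntermediateField.mem_fixingSubgroup_iff _ _).2 fun x hx =>
    LinearMap.congr_fun h4 ⟨x, hx⟩

lemma tc_act {c : Coch ℓ k F L Ω P}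
    (hc : IsTateCocycle ℓ (curveL k F L P) c) (γ : AutO k F L Ω) :
    IsTateCocycle ℓ (curveL k F L P) (Lns.act γ c) where
  zero σ := by
    change symJ (toSym P γ) (c 0 (conjG γ⁻¹ σ)) = 0
    rw [hc.zero, map_zero]
  smul n σ := by
    change ℓ • symJ (toSym P γ) (c (n + 1) (conjG γ⁻¹ σ)) =
      symJ (toSym P γ) (c n (conjG γ⁻¹ σ))
    rw [← map_nsmul, hc.smul]
  cocycle n σ τ := by
    change symJ (toSym P γ) (c n (conjG γ⁻¹ (σ * τ))) =
      symJ (toSym P γ) (c n (conjG γ⁻¹ σ)) +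
        push ℓ (curveL k F L P) (σ : Ω →ₐ[L] Ω) (symJ (toSym P γ) (c n (conjG γ⁻¹ τ)))
    rw [map_mul, hc.cocycle, map_add, push_eq, push_eq, ← symJ_mul, ← symJ_mul, ← map_mul,
      ← map_mul, galA_conjG]
    have e : γ * (γ⁻¹ * galA k F σ * γ⁻¹⁻¹) = galA k F σ * γ := by group
    rw [e]
  locallyConstant n :=
    ((hc.locallyConstant n).comp_continuous (G02_continuous γ⁻¹)).comp (symJ (toSym P γ))

lemma tc_pow_smul {c : Coch ℓ k F L Ω P}
    (hc : IsTateCocycle ℓ (curveL k F L P) c) (n : ℕ) (σ : Ω ≃ₐ[L] Ω) :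
    ℓ ^ n • c n σ = 0 := by
  induction n with
  | zero => rw [pow_zero, one_smul, hc.zero]
  | succ n ih => rw [pow_succ, mul_smul, hc.smul, ih]

end Pool.Agent.Lib.MP_89bcae_ag.Wt.Lns

end

section

/-!
# The trivial cocycles, the torsion cocycles and the invariant Selmer cocycles
-/

open Polynomial IsDedekindDomain

open scoped Classical

namespace Pool.Agent.Lib.MP_89bcae_ag.Wt.Lns

open Pool.Agent.Lib.MP_89bcae_ag.Sup

universe u

variable {k F L Ω : Type u} [Field k] [Field F] [Algebra k F] [Field L] [Algebra F[X] L]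
  [Field Ω] [Algebra L Ω] [IsAlgClosure k F] [IsFractionRing F[X] L] [IsAlgClosure L Ω]
  {ℓ : ℕ} {P : k[X][X]} [hG : IsGood ℓ (cOver k F L Ω P)]

/-- The trivial Tate cocycles. -/
def Trc (c : Coch ℓ k F L Ω P) : Prop :=
  IsTateCocycle ℓ (curveL k F L P) c ∧ IsTrivial ℓ (curveL k F L P) c

/-- The Tate cocycles whose class is torsion. -/
def TTc (c : Coch ℓ k F L Ω P) : Prop :=
  IsTateCocycle ℓ (curveL k F L P) c ∧ ∃ s : ℕ, Trc (ℓ ^ s • c)

/-- The locally trivial Tate cocycles whose class is fixed, up to torsion, by a power of each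
automorphism. -/
def WWc (c : Coch ℓ k F L Ω P) : Prop :=
  IsTateCocycle ℓ (curveL k F L P) c ∧ LTc c ∧
    ∀ γ : AutO k F L Ω, ∃ M : ℕ, 0 < M ∧ TTc (act (γ ^ M) c - c)

omit [IsAlgClosure k F] [IsFractionRing F[X] L] [IsAlgClosure L Ω] hG in
lemma tc_smul_nat {c : Coch ℓ k F L Ω P}
    (hc : IsTateCocycle ℓ (curveL k F L P) c) (m : ℕ) :
    IsTateCocycle ℓ (curveL k F L P) (m • c : Coch ℓ k F L Ω P) := by
  refine ⟨fun σ => ?_, fun n σ => ?_, fun n σ τ => ?_, fun n => ?_⟩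
  · change m • c 0 σ = 0
    rw [hc.zero, smul_zero]
  · change ℓ • m • c (n + 1) σ = m • c n σ
    rw [smul_comm, hc.smul]
  · change m • c n (σ * τ) = m • c n σ + push ℓ (curveL k F L P) (σ : Ω →ₐ[L] Ω) (m • c n τ)
    rw [hc.cocycle, smul_add, map_nsmul]
  · exact (hc.locallyConstant n).comp (fun x => m • x)

lemma Trc.zero : Trc (0 : Coch ℓ k F L Ω P) := by
  refine ⟨tc_zero, fun n => ⟨0, smul_zero _, fun σ => ?_⟩⟩
  rw [map_zero, sub_zero]
  rfl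

lemma Trc.add {c c' : Coch ℓ k F L Ω P} (hc : Trc c) (hc' : Trc c') : Trc (c + c') := by
  refine ⟨tc_add hc.1 hc'.1, fun n => ?_⟩
  obtain ⟨A, hA, hcA⟩ := hc.2 n
  obtain ⟨B, hB, hcB⟩ := hc'.2 n
  refine ⟨A + B, by rw [smul_add, hA, hB, add_zero], fun σ => ?_⟩
  change c n σ + c' n σ = _
  rw [hcA σ, hcB σ, map_add]
  abel

lemma Trc.neg {c : Coch ℓ k F L Ω P} (hc : Trc c) : Trc (-c) := by
  refine ⟨tc_neg hc.1, fun n => ?_⟩
  obtain ⟨A, hA, hcA⟩ := hc.2 n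
  refine ⟨-A, by rw [smul_neg, hA, neg_zero], fun σ => ?_⟩
  change -(c n σ) = _
  rw [hcA σ, map_neg]
  abel

lemma Trc.sub {c c' : Coch ℓ k F L Ω P} (hc : Trc c) (hc' : Trc c') : Trc (c - c') := by
  rw [sub_eq_add_neg]
  exact hc.add hc'.neg

omit hG in
lemma Trc.smul_nat {c : Coch ℓ k F L Ω P} (hc : Trc c) (m : ℕ) : Trc (m • c) := by
  refine ⟨tc_smul_nat hc.1 m, fun n => ?_⟩
  obtain ⟨A, hA, hcA⟩ := hc.2 n
  refine ⟨m • A, by rw [smul_comm, hA, smul_zero], fun σ => ?_⟩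
  change m • c n σ = _
  rw [hcA σ, map_nsmul, smul_sub]

lemma Trc.zC {c : Coch ℓ k F L Ω P} (hc : Trc c) (ζ : k) (hζ : (zA F L Ω ζ) ^ ℓ = 1) :
    Trc (Lns.zC ζ hζ c) := by
  refine ⟨tc_zC hc.1 ζ hζ, fun n => ?_⟩
  obtain ⟨A, hA, hcA⟩ := hc.2 n
  refine ⟨zJ (zA F L Ω ζ) hζ A, by rw [← map_nsmul, hA, map_zero], fun σ => ?_⟩
  change zJ (zA F L Ω ζ) hζ (c n σ) = _
  rw [hcA σ, map_sub, push_eq, push_eq, zJ_symJ]
  exact zA_fixed ζ (galA k F σ)

lemma Trc.act {c : Coch ℓ k F L Ω P} (hc : Trc c) (γ : AutO k F L Ω) :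
    Trc (Lns.act γ c) := by
  refine ⟨tc_act hc.1 γ, fun n => ?_⟩
  obtain ⟨A, hA, hcA⟩ := hc.2 n
  refine ⟨symJ (toSym P γ) A, by rw [← map_nsmul, hA, map_zero], fun σ => ?_⟩
  change symJ (toSym P γ) (c n (conjG γ⁻¹ σ)) = _
  rw [hcA, map_sub, push_eq, push_eq, galA_conjG, ← symJ_mul, ← symJ_mul, ← map_mul, ← map_mul]
  have h : γ * (γ⁻¹ * galA k F σ * γ⁻¹⁻¹) = galA k F σ * γ := by group
  rw [h]

lemma act_galA_sub {c : Coch ℓ k F L Ω P}
    (hc : IsTateCocycle ℓ (curveL k F L P) c) (h : Ω ≃ₐ[L] Ω) :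
    Trc (act (galA k F h) c - c) := by
  refine ⟨?_, fun n => ?_⟩
  · rw [sub_eq_add_neg]
    exact tc_add (tc_act hc _) (tc_neg hc)
  refine ⟨c n h, tc_pow_smul hc n h, fun σ => ?_⟩
  change symJ (toSym P (galA k F h)) (c n (conjG (galA k F h)⁻¹ σ)) - c n σ = _
  have h1 : conjG (galA k F h : AutO k F L Ω)⁻¹ σ = h⁻¹ * σ * h := by
    rw [← map_inv, conjG_galA, inv_inv]
  have h2 : h * (h⁻¹ * σ * h) = σ * h := by group
  have h3 := hc.cocycle n h (h⁻¹ * σ * h)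
  rw [h2, hc.cocycle n σ h] at h3
  rw [h1, ← push_eq]
  rw [eq_comm, ← sub_eq_iff_eq_add'] at h3
  rw [← h3]
  abel

/-- If two automorphisms have the same restriction to `F`, they act in the same way on classes. -/
lemma act_sub_act_of_resF_eq {c : Coch ℓ k F L Ω P}
    (hc : IsTateCocycle ℓ (curveL k F L P) c) {γ γ' : AutO k F L Ω}
    (h : resF γ = resF γ') : Trc (act γ c - act γ' c) := by
  obtain ⟨σ, hσ⟩ := exists_galA_of_resF_eq_one (γ'⁻¹ * γ) (by rw [map_mul, map_inv, h]; group)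
  have h1 : γ = γ' * galA k F σ := by rw [hσ]; group
  have h2 : act γ c - act γ' c = act γ' (act (galA k F σ) c - c) := by
    rw [act_sub, ← act_mul, ← h1]
  rw [h2]
  exact (act_galA_sub hc σ).act γ'

lemma sum_zC_mem (ζ : k) (hζ : IsPrimitiveRoot (zA F L Ω ζ) ℓ) (c : Coch ℓ k F L Ω P) :
    ∑ i ∈ Finset.range ℓ, (zC ζ hζ.pow_eq_one)^[i] c = 0 := by
  have hit : ∀ (i : ℕ) (n : ℕ) (σ : Ω ≃ₐ[L] Ω), ((zC ζ hζ.pow_eq_one)^[i] c) n σ =
      (zJ (zA F L Ω ζ) hζ.pow_eq_one)^[i] (c n σ) := by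
    intro i
    induction i with
    | zero =>
      intro n σ
      rfl
    | succ i ih =>
      intro n σ
      rw [Function.iterate_succ_apply', Function.iterate_succ_apply', ← ih n σ]
      rfl
  funext n σ
  rw [Finset.sum_apply, Finset.sum_apply]
  simp only [hit]
  exact sum_zJ _ hζ _

/-! Torsion cocycles -/

omit hG in
lemma Trc.tt {c : Coch ℓ k F L Ω P} (hc : Trc c) : TTc c :=
  ⟨hc.1, 0, by rw [pow_zero, one_smul]; exact hc⟩

lemma TTc.zero : TTc (0 : Coch ℓ k F L Ω P) := Trc.zero.tt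

lemma TTc.add {c c' : Coch ℓ k F L Ω P} (hc : TTc c) (hc' : TTc c') : TTc (c + c') := by
  obtain ⟨h1, s, h2⟩ := hc
  obtain ⟨h1', s', h2'⟩ := hc'
  refine ⟨tc_add h1 h1', s + s', ?_⟩
  have h3 : ℓ ^ (s + s') • (c + c') = ℓ ^ s' • (ℓ ^ s • c) + ℓ ^ s • (ℓ ^ s' • c') := by
    rw [smul_add, ← mul_smul, ← mul_smul, ← pow_add, ← pow_add, add_comm s' s]
  rw [h3]
  exact (h2.smul_nat _).add (h2'.smul_nat _)

lemma TTc.neg {c : Coch ℓ k F L Ω P} (hc : TTc c) : TTc (-c) := by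
  obtain ⟨h1, s, h2⟩ := hc
  refine ⟨tc_neg h1, s, ?_⟩
  rw [smul_neg]
  exact h2.neg

lemma TTc.sub {c c' : Coch ℓ k F L Ω P} (hc : TTc c) (hc' : TTc c') : TTc (c - c') := by
  rw [sub_eq_add_neg]
  exact hc.add hc'.neg

lemma TTc.zC {c : Coch ℓ k F L Ω P} (hc : TTc c) (ζ : k) (hζ : (zA F L Ω ζ) ^ ℓ = 1) :
    TTc (Lns.zC ζ hζ c) := by
  obtain ⟨h1, s, h2⟩ := hc
  refine ⟨tc_zC h1 ζ hζ, s, ?_⟩
  rw [← map_nsmul]
  exact h2.zC ζ hζ

lemma act_nsmul (γ : AutO k F L Ω) (c : Coch ℓ k F L Ω P) (m : ℕ) :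
    act γ (m • c) = m • act γ c := by
  funext n σ
  exact map_nsmul (symJ (toSym P γ)) _ _

lemma TTc.act {c : Coch ℓ k F L Ω P} (hc : TTc c) (γ : AutO k F L Ω) :
    TTc (Lns.act γ c) := by
  obtain ⟨h1, s, h2⟩ := hc
  refine ⟨tc_act h1 γ, s, ?_⟩
  rw [← act_nsmul]
  exact h2.act γ

end Pool.Agent.Lib.MP_89bcae_ag.Wt.Lns

end

section

/-!
ROW G04 (100-200 lines). Local triviality: sums, `Z`, coboundaries.

PROOFS. Unfold: for every algebraic closure `M` of `K`, every `j : Ω → M` over `L`, there is `Q` with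
`j (c g') = g Q - Q`. Sum: add the `Q`s. `Z`: apply `Z` (of `M`, with `ζ_M = j ζ_Ω`; `zJ_jacMap`,
`push ℓ f σ = jacMap ..`; `M` is algebraically closed so `cOver k F L M P` is good, which is
obtained from the hypothesis `H : GlobHyp` by `isGood_cOver`). Coboundaries: if `c n σ = σ A - A` take
`Q = j A` (`j ∘ g' = g ∘ j`; functoriality of `jacMap`: `CommRing.Pic.mapRingHom_comp_mapRingHom`).
`push_comp` : functoriality of `push`.
-/

open Polynomial IsDedekindDomain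

open scoped Classical

namespace Pool.Agent.Lib.MP_89bcae_ag.Wt.Lns

open Pool.Agent.Lib.MP_89bcae_ag.Sup

universe u

variable {k F L Ω : Type u} [Field k] [Field F] [Algebra k F] [Field L] [Algebra F[X] L]
  [Field Ω] [Algebra L Ω] [IsAlgClosure k F] [IsFractionRing F[X] L] [IsAlgClosure L Ω]
  {ℓ : ℕ} {P : k[X][X]} [hG : IsGood ℓ (cOver k F L Ω P)]

lemma LTc.add {c c' : Coch ℓ k F L Ω P} (hc : LTc c) (hc' : LTc c') : LTc (c + c') := by
  intro a n M _ _ _ _ _ j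
  obtain ⟨Q, hQ⟩ := hc a n M j
  obtain ⟨Q', hQ'⟩ := hc' a n M j
  refine ⟨Q + Q', fun s s' h => ?_⟩
  rw [show (c + c') n s' = c n s' + c' n s' from rfl, map_add, hQ s s' h, hQ' s s' h, map_add]
  abel

lemma LTc.neg {c : Coch ℓ k F L Ω P} (hc : LTc c) : LTc (-c) := by
  intro a n M _ _ _ _ _ j
  obtain ⟨Q, hQ⟩ := hc a n M j
  refine ⟨-Q, fun s s' h => ?_⟩
  rw [show (-c) n s' = -(c n s') from rfl, map_neg, hQ s s' h, map_neg]
  abel

lemma LTc.zC {ζ : k} (H : LHyp ℓ k F L P ζ) {c : Coch ℓ k F L Ω P} (hc : LTc c)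
    (hζ : (zA F L Ω ζ) ^ ℓ = 1) : LTc (Lns.zC ζ hζ c) := by
  intro a n M _ _ _ _ _ j
  obtain ⟨Q, hQ⟩ := hc a n M j
  have : IsAlgClosed M := IsAlgClosure.isAlgClosed ((plc a).adicCompletion L)
  have hM : IsGood ℓ (cOver k F L M P) := H.good M
  have hζM : ((j : Ω →+* M) (zA F L Ω ζ)) ^ ℓ = 1 := by
    rw [← map_pow, hζ, map_one]
  refine ⟨zJ ((j : Ω →+* M) (zA F L Ω ζ)) hζM Q, fun s s' h => ?_⟩
  have h1 : push ℓ (curveL k F L P) j (Lns.zC ζ hζ c n s') =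
      zJ ((j : Ω →+* M) (zA F L Ω ζ)) hζM (push ℓ (curveL k F L P) j (c n s')) :=
    (zJ_jacMap (j : Ω →+* M) _ (zA F L Ω ζ) hζ hζM (c n s')).symm
  have hz : ((s.restrictScalars L : M →ₐ[L] M) : M →+* M) ((j : Ω →+* M) (zA F L Ω ζ)) =
      (j : Ω →+* M) (zA F L Ω ζ) := by
    have h2 : (j : Ω →+* M) (zA F L Ω ζ) = algebraMap L M (base k F L L (C ζ)) :=
      j.commutes _
    rw [h2]
    exact (s.restrictScalars L : M →ₐ[L] M).commutes _
  have hζM' : (((s.restrictScalars L : M →ₐ[L] M) : M →+* M)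
      ((j : Ω →+* M) (zA F L Ω ζ))) ^ ℓ = 1 := by
    rw [hz, hζM]
  have h3 : push ℓ (curveL k F L P) (s.restrictScalars L : M →ₐ[L] M)
      (zJ ((j : Ω →+* M) (zA F L Ω ζ)) hζM Q) = zJ ((j : Ω →+* M) (zA F L Ω ζ)) hζM
        (push ℓ (curveL k F L P) (s.restrictScalars L : M →ₐ[L] M) Q) :=
    (zJ_jacMap ((s.restrictScalars L : M →ₐ[L] M) : M →+* M) _ _ hζM hζM' Q).symm.trans
      (G04_zJ_congr hz hζM' hζM _)
  rw [h1, hQ s s' h, map_sub, h3]

/-- A coboundary is locally trivial. -/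
lemma LTc.of_coboundary {c : Coch ℓ k F L Ω P}
    (hc : ∀ n, ∃ A : JacOver ℓ (curveL k F L P) Ω, ∀ σ : Ω ≃ₐ[L] Ω,
      c n σ = symJ (toSym P (galA k F σ)) A - A) : LTc c := by
  intro a n M _ _ _ _ _ j
  obtain ⟨A, hA⟩ := hc n
  refine ⟨push ℓ (curveL k F L P) j A, fun s s' h => ?_⟩
  have e : j.comp (s' : Ω →ₐ[L] Ω) = (s.restrictScalars L : M →ₐ[L] M).comp j :=
    AlgHom.ext h
  rw [hA s', ← push_eq (k := k) (F := F) (P := P) s' A, map_sub, push_push, push_push, e]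

omit hG in
/-- A torsion cocycle is at every level a coboundary. -/
lemma TTc.exists_coboundary {c : Coch ℓ k F L Ω P} (hc : TTc c) (n : ℕ) :
    ∃ (s : ℕ) (A : JacOver ℓ (curveL k F L P) Ω), ℓ ^ (n + s) • A = 0 ∧
      ∀ σ : Ω ≃ₐ[L] Ω, c n σ = push ℓ (curveL k F L P) (σ : Ω →ₐ[L] Ω) A - A := by
  obtain ⟨h1, s, h2⟩ := hc
  obtain ⟨A, hA, hcA⟩ := h2.2 (n + s)
  have h3 : ∀ (t j : ℕ) (σ : Ω ≃ₐ[L] Ω), ℓ ^ t • c (j + t) σ = c j σ := by
    intro t
    induction t with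
    | zero =>
      intro j σ
      rw [pow_zero, one_smul, add_zero]
    | succ t ih =>
      intro j σ
      rw [pow_succ, mul_smul, ← add_assoc, h1.smul, ih]
  refine ⟨s, A, hA, fun σ => ?_⟩
  rw [← h3 s n σ]
  exact hcA σ

lemma TTc.lt {c : Coch ℓ k F L Ω P} (hc : TTc c) : LTc c := by
  refine LTc.of_coboundary fun n => ?_
  obtain ⟨s, A, _, hA⟩ := hc.exists_coboundary n
  exact ⟨A, fun σ => hA σ⟩

/-- Shift of the levels. -/
lemma LTc.shift {c : Coch ℓ k F L Ω P} (hc : LTc c) (φ : ℕ → ℕ) :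
    LTc (fun n => c (φ n) : Coch ℓ k F L Ω P) :=
  fun a n => hc a (φ n)

end Pool.Agent.Lib.MP_89bcae_ag.Wt.Lns

end
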