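import Mathlib
import Pool.Agent.Lib.MP_89bcae_ag.Mk.K017

section

/-!
ROW R13 (200-350 lines). The point at infinity: a function whose affine divisor has degree `0` is,
up to a constant `c`, zero at infinity.

STATEMENT: if `∑_P ord_P(h) = 0` then for some constant `c` either `h = c`, or `h - c ≠ 0` and
`∑_P ord_P(h - c) < 0`.

PROOF. For a nonzero `a = ∑_{i<N} p_i(x) y^i` of the coordinate ring let
`W(a) = max_{p_i ≠ 0} (N deg p_i + i m)`, `m = deg f`. As `m` is prime to `N` the numbers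
`N deg p_i + i m` are different modulo `N`, so the maximum is attained exactly once.
(1) `W(a b) = W(a) + W(b)`: in `a b = ∑ p_i q_j y^(i+j)`, `y^(i+j) = f y^(i+j-N)` if `i + j ≥ N`, the
term `(i, j)` contributes to the component `(i+j) mod N` a polynomial of weight exactly
`(N deg p_i + i m) + (N deg q_j + j m)` (`deg f = m` accounts for the carry), and all pairs except
the pair of the two maxima have strictly smaller weight; in the component of that pair the degree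
is therefore exactly the one of this term, and all other components have smaller weight.
(2) `W(rot a) = W(a)` clearly, so for `N = ∏ rot^i a` in `E[x]` (see `R10`): `N W(a) = W(N)
= N deg N`, `W(a) = deg N`.
(3) `∑_P ord_P(a) = deg N = W(a)`: by `exists_nrm_eq` (R10), `N = c ∏_P (x - P.x)^{ord_P(a)}`
(here all `ord_P(a) ≥ 0`, so this is an equality of polynomials, by `ofPoly_injective`), whose
degree is `∑_P ord_P(a)`.
(4) `h = a / q` with `q` in `E[x]` (multiply by conjugates as in R10); then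
`0 = ∑ ord_P(h) = W(a) - W(q)`, `W(q) = N deg q`. So the unique maximum of
`N deg p_i + i m` is `≡ 0` modulo `N`, so `i = 0`, `deg p_0 = deg q`, and with
`c = lc(p_0)/lc(q)` either `a = c q` or `W(a - c q) < W(q)`, and `∑ ord_P(h - c) = W(a - c q) - W(q)`.
-/

open Polynomial IsDedekindDomain

open scoped Classical

namespace Pool.Agent.Lib.MP_89bcae_ag.Wt

universe u

variable {N : ℕ} {E : Type u} [Field E] {f : E[X]} [hG : IsGood N f]

/-- The degree of a divisor. -/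
noncomputable def dg (D : Pt N f →₀ ℤ) : ℤ := D.sum fun _ n => n

private lemma r13_rotE_ofPoly (ζ : E) (hζ : ζ ^ N = 1) (h0 : ζ ≠ 0) (p : E[X]) :
    rotE ζ hζ h0 (ofPoly p : NRing N f) = ofPoly p := rotC_ofPoly ζ hζ p

private lemma r13_rotE_yy (ζ : E) (hζ : ζ ^ N = 1) (h0 : ζ ≠ 0) :
    rotE ζ hζ h0 (yy : NRing N f) = ofPoly (C ζ) * yy := rotC_yy ζ hζ

private lemma r13_rot (ζ : E) (hζ : ζ ^ N = 1) (h0 : ζ ≠ 0) (p : ℕ → E[X]) (u : (FunField N f)ˣ)
    (hu : (u : FunField N f) = algebraMap (NRing N f) (FunField N f)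
      (∑ j ∈ Finset.range N, ofPoly (p j) * yy ^ j)) (k : ℕ) :
    (((rotU ζ hζ h0)^[k] u : (FunField N f)ˣ) : FunField N f) = algebraMap (NRing N f) (FunField N f)
      (∑ j ∈ Finset.range N, ofPoly (C (ζ ^ (k * j)) * p j) * yy ^ j) := by
  induction k with
  | zero =>
    rw [Function.iterate_zero, id, hu]
    congr 1
    refine Finset.sum_congr rfl fun j _ => ?_
    rw [zero_mul, pow_zero, C_1, one_mul]
  | succ k ih =>
    rw [Function.iterate_succ_apply']
    have h1 : ((rotU ζ hζ h0 ((rotU ζ hζ h0)^[k] u) : (FunField N f)ˣ) : FunField N f) =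
        autF (rotE ζ hζ h0) (((rotU ζ hζ h0)^[k] u : (FunField N f)ˣ) : FunField N f) := rfl
    rw [h1, ih, autF_algebraMap, map_sum]
    congr 1
    refine Finset.sum_congr rfl fun j _ => ?_
    have h2 : rotE ζ hζ h0 ((yy : NRing N f) ^ j) = ofPoly (C (ζ ^ j)) * yy ^ j := by
      rw [map_pow, r13_rotE_yy, mul_pow, ← map_pow, ← C_pow]
    rw [map_mul, h2, r13_rotE_ofPoly, ← mul_assoc, ← map_mul]
    congr 2
    rw [Nat.succ_mul, pow_add, C_mul]
    ring

/-- the terms of the norm -/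
private noncomputable def TT (N : ℕ) (f : E[X]) (ζ : E) (p : ℕ → E[X]) (φ : Fin N → Fin N) :
    E[X] :=
  (∏ k : Fin N, (C (ζ ^ ((k : ℕ) * (φ k : ℕ))) * p (φ k))) * f ^ ((∑ k, (φ k : ℕ)) / N)

private noncomputable def HH (N : ℕ) (f : E[X]) (ζ : E) (p : ℕ → E[X]) (j : ℕ) : E[X] :=
  ∑ φ ∈ (Finset.univ : Finset (Fin N → Fin N)).filter (fun φ => (∑ k, (φ k : ℕ)) % N = j),
    TT N f ζ p φ

private lemma r13_yy_pow (s : ℕ) :
    (yy : NRing N f) ^ s = ofPoly (f ^ (s / N)) * yy ^ (s % N) := by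
  conv_lhs => rw [← Nat.div_add_mod s N]
  rw [pow_add, pow_mul, yy_pow, map_pow]

private lemma r13_norm_poly (hN : 0 < N) (ζ : E) (p : ℕ → E[X]) :
    ∏ k ∈ Finset.range N, (∑ j ∈ Finset.range N,
      (ofPoly (C (ζ ^ (k * j)) * p j) : NRing N f) * yy ^ j) =
      ∑ j ∈ Finset.range N, ofPoly (HH N f ζ p j) * yy ^ j := by
  rw [Finset.prod_range]
  have h1 : ∀ k : Fin N, (∑ j ∈ Finset.range N,
      (ofPoly (C (ζ ^ ((k : ℕ) * j)) * p j) : NRing N f) * yy ^ j) =
      ∑ j : Fin N, (ofPoly (C (ζ ^ ((k : ℕ) * (j : ℕ))) * p j) : NRing N f) * yy ^ (j : ℕ) :=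
    fun k => Finset.sum_range _
  rw [Finset.prod_congr rfl fun k _ => h1 k, Finset.prod_univ_sum, Fintype.piFinset_univ]
  have h2 : ∀ φ : Fin N → Fin N, (∏ k : Fin N,
      (ofPoly (C (ζ ^ ((k : ℕ) * (φ k : ℕ))) * p (φ k)) : NRing N f) * yy ^ (φ k : ℕ)) =
      ofPoly (TT N f ζ p φ) * yy ^ ((∑ k, (φ k : ℕ)) % N) := by
    intro φ
    rw [Finset.prod_mul_distrib, Finset.prod_pow_eq_pow_sum, r13_yy_pow, TT, map_mul, map_prod]
    ring
  rw [Finset.sum_congr rfl fun φ _ => h2 φ]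
  have h3 := Finset.sum_fiberwise_of_maps_to
    (s := (Finset.univ : Finset (Fin N → Fin N))) (t := Finset.range N)
    (g := fun φ => (∑ k, (φ k : ℕ)) % N)
    (fun φ _ => Finset.mem_range.mpr (Nat.mod_lt _ hN))
    (fun φ => (ofPoly (TT N f ζ p φ) : NRing N f) * yy ^ ((∑ k, (φ k : ℕ)) % N))
  rw [← h3]
  refine Finset.sum_congr rfl fun j _ => ?_
  rw [HH, map_sum, Finset.sum_mul]
  refine Finset.sum_congr rfl fun φ hφ => ?_
  rw [(Finset.mem_filter.mp hφ).2]

/-- `i0` is the index of the maximal weight `w` -/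
private structure Top (N m : ℕ) (p : ℕ → E[X]) (i0 w : ℕ) : Prop where
  lt : i0 < N
  ne : p i0 ≠ 0
  eq : N * (p i0).natDegree + i0 * m = w
  max : ∀ i < N, i ≠ i0 → p i ≠ 0 → N * (p i).natDegree + i * m < w

omit hG in
private lemma r13_top_inj {m : ℕ} (hc : m.Coprime N) {i j d e : ℕ} (hi : i < N) (hj : j < N)
    (h : N * d + i * m = N * e + j * m) : i = j := by
  have h1 : i * m ≡ j * m [MOD N] := by
    have h2 : (N * d + i * m) % N = (N * e + j * m) % N := by rw [h]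
    rw [Nat.mul_add_mod, Nat.mul_add_mod] at h2
    exact h2
  have h3 : i ≡ j [MOD N] := Nat.ModEq.cancel_right_of_coprime (by rwa [Nat.gcd_comm]) h1
  have h4 : i % N = j % N := h3
  rwa [Nat.mod_eq_of_lt hi, Nat.mod_eq_of_lt hj] at h4

omit hG in
private lemma r13_exists_top {m : ℕ} (hc : m.Coprime N) (p : ℕ → E[X])
    (h : ∃ i < N, p i ≠ 0) : ∃ i0 w, Top N m p i0 w := by
  obtain ⟨i, hi, hpi⟩ := h
  have hne : ((Finset.range N).filter (fun i => p i ≠ 0)).Nonempty :=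
    ⟨i, Finset.mem_filter.mpr ⟨Finset.mem_range.mpr hi, hpi⟩⟩
  obtain ⟨i0, hi0, hmax⟩ := Finset.exists_max_image _
    (fun i => N * (p i).natDegree + i * m) hne
  rw [Finset.mem_filter, Finset.mem_range] at hi0
  refine ⟨i0, _, hi0.1, hi0.2, rfl, ?_⟩
  intro j hj hji hpj
  have h1 := hmax j (Finset.mem_filter.mpr ⟨Finset.mem_range.mpr hj, hpj⟩)
  refine lt_of_le_of_ne h1 fun h2 => hji ?_
  exact r13_top_inj hc hj hi0.1 h2

private lemma r13_TT_lt (hN : 0 < N) (ζ : E) (p : ℕ → E[X]) {i0 w : ℕ}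
    (ht : Top N f.natDegree p i0 w) (φ : Fin N → Fin N) (hφ : ∃ k, (φ k : ℕ) ≠ i0) :
    (TT N f ζ p φ).coeff w = 0 ∧ (TT N f ζ p φ).natDegree ≤ w := by
  by_cases hz : ∃ k, p (φ k) = 0
  · obtain ⟨k, hk⟩ := hz
    have h0 : TT N f ζ p φ = 0 := by
      rw [TT, Finset.prod_eq_zero (Finset.mem_univ k) (by rw [hk, mul_zero]), zero_mul]
    rw [h0]
    simp
  · push Not at hz
    have h1 : (TT N f ζ p φ).natDegree ≤
        ∑ k : Fin N, (p (φ k)).natDegree + (∑ k, (φ k : ℕ)) / N * f.natDegree := by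
      rw [TT]
      refine natDegree_mul_le.trans (add_le_add ?_ natDegree_pow_le)
      refine (natDegree_prod_le _ _).trans (Finset.sum_le_sum fun k _ => ?_)
      exact natDegree_C_mul_le _ _
    have h2 : N * (TT N f ζ p φ).natDegree ≤
        ∑ k : Fin N, (N * (p (φ k)).natDegree + (φ k : ℕ) * f.natDegree) := by
      refine (Nat.mul_le_mul_left N h1).trans ?_
      rw [mul_add, Finset.sum_add_distrib, ← Finset.mul_sum, ← Finset.sum_mul, ← mul_assoc]
      refine Nat.add_le_add_left (Nat.mul_le_mul_right _ (Nat.mul_div_le _ _)) _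
    have h3 : ∑ k : Fin N, (N * (p (φ k)).natDegree + (φ k : ℕ) * f.natDegree) <
        ∑ _k : Fin N, w := by
      have hle : ∀ k : Fin N, N * (p (φ k)).natDegree + (φ k : ℕ) * f.natDegree ≤ w := by
        intro k
        by_cases h4 : (φ k : ℕ) = i0
        · rw [h4]
          exact ht.eq.le
        · exact (ht.max _ (φ k).2 h4 (hz k)).le
      obtain ⟨k, hk⟩ := hφ
      exact Finset.sum_lt_sum (fun k _ => hle k)
        ⟨k, Finset.mem_univ k, ht.max _ (φ k).2 hk (hz k)⟩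
    rw [Finset.sum_const, Finset.card_univ, Fintype.card_fin, smul_eq_mul] at h3
    have h4 : (TT N f ζ p φ).natDegree < w := by
      have := lt_of_le_of_lt h2 h3
      exact Nat.lt_of_mul_lt_mul_left this
    exact ⟨coeff_eq_zero_of_natDegree_lt h4, h4.le⟩

private lemma r13_f_ne (N : ℕ) {f : E[X]} [hG : IsGood N f] : f ≠ 0 := by
  intro h
  have h1 : f.natDegree ≠ 0 := natDegree_ne N f
  rw [h] at h1
  simp at h1

private lemma r13_TT_top (hN : 0 < N) (ζ : E) (h0 : ζ ≠ 0) (p : ℕ → E[X]) {i0 w : ℕ}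
    (ht : Top N f.natDegree p i0 w) (φ : Fin N → Fin N) (hφ : ∀ k, (φ k : ℕ) = i0) :
    (TT N f ζ p φ).coeff w ≠ 0 ∧ (TT N f ζ p φ).natDegree ≤ w := by
  have hf := r13_f_ne N (f := f)
  have hs : (∑ k, (φ k : ℕ)) / N = i0 := by
    rw [Finset.sum_congr rfl fun k _ => hφ k, Finset.sum_const, Finset.card_univ,
      Fintype.card_fin, smul_eq_mul, Nat.mul_div_cancel_left _ hN]
  have hfac : ∀ k : Fin N, C (ζ ^ ((k : ℕ) * (φ k : ℕ))) * p (φ k) ≠ 0 := by
    intro k
    refine mul_ne_zero (C_ne_zero.mpr (pow_ne_zero _ h0)) ?_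
    rw [hφ k]
    exact ht.ne
  have hprod : (∏ k : Fin N, (C (ζ ^ ((k : ℕ) * (φ k : ℕ))) * p (φ k))) ≠ 0 :=
    Finset.prod_ne_zero_iff.mpr fun k _ => hfac k
  have hne : TT N f ζ p φ ≠ 0 := mul_ne_zero hprod (pow_ne_zero _ hf)
  have hdeg : (TT N f ζ p φ).natDegree = w := by
    rw [TT, natDegree_mul hprod (pow_ne_zero _ hf), natDegree_pow, hs,
      natDegree_prod _ _ fun k _ => hfac k]
    have h1 : ∀ k : Fin N, (C (ζ ^ ((k : ℕ) * (φ k : ℕ))) * p (φ k)).natDegree =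
        (p i0).natDegree := by
      intro k
      rw [natDegree_C_mul (pow_ne_zero _ h0), hφ k]
    rw [Finset.sum_congr rfl fun k _ => h1 k, Finset.sum_const, Finset.card_univ,
      Fintype.card_fin, smul_eq_mul]
    exact ht.eq
  refine ⟨?_, hdeg.le⟩
  rw [← hdeg, coeff_natDegree, leadingCoeff_ne_zero]
  exact hne

private lemma r13_HH (hN : 0 < N) (ζ : E) (h0 : ζ ≠ 0) (p : ℕ → E[X]) {i0 w : ℕ}
    (ht : Top N f.natDegree p i0 w) : (HH N f ζ p 0).natDegree = w := by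
  set φ0 : Fin N → Fin N := fun _ => ⟨i0, ht.lt⟩ with hφ0
  have hmem : φ0 ∈ (Finset.univ : Finset (Fin N → Fin N)).filter
      (fun φ => (∑ k, (φ k : ℕ)) % N = 0) := by
    rw [Finset.mem_filter]
    refine ⟨Finset.mem_univ _, ?_⟩
    rw [hφ0]
    simp
  have hother : ∀ φ : Fin N → Fin N, φ ≠ φ0 → ∃ k, (φ k : ℕ) ≠ i0 := by
    intro φ hφ
    by_contra hno
    push Not at hno
    exact hφ (funext fun k => Fin.ext (hno k))
  apply natDegree_eq_of_le_of_coeff_ne_zero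
  · rw [HH]
    refine natDegree_sum_le_of_forall_le _ _ fun φ _ => ?_
    by_cases h1 : φ = φ0
    · rw [h1]
      exact (r13_TT_top hN ζ h0 p ht φ0 fun k => rfl).2
    · exact (r13_TT_lt hN ζ p ht φ (hother φ h1)).2
  · rw [HH, finset_sum_coeff, Finset.sum_eq_single φ0]
    · exact (r13_TT_top hN ζ h0 p ht φ0 fun k => rfl).1
    · intro φ _ h1
      exact (r13_TT_lt hN ζ p ht φ (hother φ h1)).1
    · intro h1
      exact absurd hmem h1

omit hG in
private lemma r13_dg_add (D D' : Pt N f →₀ ℤ) : dg (D + D') = dg D + dg D' := by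
  unfold dg
  exact Finsupp.sum_add_index' (fun _ => rfl) (fun _ _ _ => rfl)

omit hG in
private lemma r13_dg_neg (D : Pt N f →₀ ℤ) : dg (-D) = - dg D := by
  have h := r13_dg_add D (-D)
  rw [add_neg_cancel] at h
  have h0 : dg (0 : Pt N f →₀ ℤ) = 0 := by simp [dg]
  rw [h0] at h
  linarith

/-- the degree of the divisor of an element of the coordinate ring -/
private lemma r13_dg (ζ : E) (hζ : IsPrimitiveRoot ζ N) (p : ℕ → E[X]) (u : (FunField N f)ˣ)
    (hu : (u : FunField N f) = algebraMap (NRing N f) (FunField N f)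
      (∑ j ∈ Finset.range N, ofPoly (p j) * yy ^ j)) {i0 w : ℕ}
    (ht : Top N f.natDegree p i0 w) : dg (div u) = w := by
  have hN : 0 < N := hG.pos
  have h0 : ζ ≠ 0 := hζ.ne_zero hN.ne'
  obtain ⟨c, hc⟩ := exists_nrm_eq ζ hζ h0 u
  have hnn : ∀ P, 0 ≤ div u P := fun P => ord_nonneg P _ u hu
  -- the right hand side
  set G0 : E[X] := ∏ P ∈ (div u).support, (X - C P.x) ^ (div u P).toNat with hG0
  have hxp : ((xprod (div u) : (FunField N f)ˣ) : FunField N f) =
      algebraMap (NRing N f) (FunField N f) (ofPoly G0) := by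
    rw [xprod, Finsupp.prod, hG0, map_prod, map_prod, Units.coe_prod]
    refine Finset.prod_congr rfl fun P _ => ?_
    have h1 : div u P = ((div u P).toNat : ℤ) := (Int.toNat_of_nonneg (hnn P)).symm
    rw [h1, zpow_natCast, Units.val_pow_eq_pow_val, map_pow, map_pow, Int.toNat_natCast]
    rfl
  have hcst : ((cstU c : (FunField N f)ˣ) : FunField N f) =
      algebraMap (NRing N f) (FunField N f) (ofPoly (C (c : E))) := rfl
  have hlhs : ((nrm ζ hζ.pow_eq_one h0 u : (FunField N f)ˣ) : FunField N f) =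
      algebraMap (NRing N f) (FunField N f) (∑ j ∈ Finset.range N, ofPoly (HH N f ζ p j) * yy ^ j) := by
    rw [nrm, Units.coe_prod, ← r13_norm_poly hN, map_prod]
    exact Finset.prod_congr rfl fun k _ => r13_rot ζ hζ.pow_eq_one h0 p u hu k
  have heq : (∑ j ∈ Finset.range N, ofPoly (HH N f ζ p j) * yy ^ j : NRing N f) =
      ofPoly (C (c : E) * G0) := by
    apply IsFractionRing.injective (NRing N f) (FunField N f)
    rw [← hlhs, hc, Units.val_mul, hcst, hxp, map_mul, map_mul]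
  have huniq := expand_unique_ring (N := N) (f := f)
    (fun j => HH N f ζ p j - if j = 0 then C (c : E) * G0 else 0) (by
      simp only [map_sub, sub_mul, Finset.sum_sub_distrib]
      rw [heq]
      rw [Finset.sum_eq_single 0]
      · simp
      · intro j _ hj
        rw [if_neg hj, map_zero, zero_mul]
      · intro h
        exact absurd (Finset.mem_range.mpr hN) h)
  have hH0 := huniq 0 hN
  rw [if_pos rfl, sub_eq_zero] at hH0
  have hdeg := r13_HH hN ζ h0 p ht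
  rw [hH0, natDegree_C_mul c.ne_zero, hG0, natDegree_prod _ _ fun P _ =>
    pow_ne_zero _ (X_sub_C_ne_zero _)] at hdeg
  rw [dg, Finsupp.sum, ← hdeg]
  push_cast
  refine Finset.sum_congr rfl fun P _ => ?_
  rw [natDegree_pow, natDegree_X_sub_C, mul_one]
  exact (Int.toNat_of_nonneg (hnn P)).symm

lemma exists_const_of_dg_eq_zero (ζ : E) (hζ : IsPrimitiveRoot ζ N) (h : (FunField N f)ˣ)
    (hd : dg (div h) = 0) :
    ∃ c : E, (h : FunField N f) = cst c ∨ ∃ w : (FunField N f)ˣ,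
      (w : FunField N f) = (h : FunField N f) - (cst c : FunField N f) ∧ dg (div w) < 0 := by
  have hN : 0 < N := hG.pos
  have hc := hG.coprime
  obtain ⟨a, b, p, q, hb0, hp, hq, hab⟩ := exists_quot (h : FunField N f)
  have ha0 : a ≠ 0 := by
    rintro rfl
    rw [map_zero, zero_div] at hab
    exact h.ne_zero hab.symm
  have hinj := IsFractionRing.injective (NRing N f) (FunField N f)
  have hex : ∀ (r : ℕ → E[X]) (x : NRing N f), x = ∑ i ∈ Finset.range N, ofPoly (r i) * yy ^ i →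
      x ≠ 0 → ∃ i < N, r i ≠ 0 := by
    intro r x hx hx0
    by_contra hno
    push Not at hno
    apply hx0
    rw [hx]
    refine Finset.sum_eq_zero fun i hi => ?_
    rw [hno i (Finset.mem_range.mp hi), map_zero, zero_mul]
  have hmapne : ∀ x : NRing N f, x ≠ 0 → algebraMap (NRing N f) (FunField N f) x ≠ 0 := fun x hx h1 =>
    hx (hinj (by rw [h1, map_zero]))
  obtain ⟨ia, wa, hta⟩ := r13_exists_top hc p (hex p a hp ha0)
  obtain ⟨ib, wb, htb⟩ := r13_exists_top hc q (hex q b hq hb0)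
  set ua : (FunField N f)ˣ := Units.mk0 _ (hmapne a ha0) with hua
  set ub : (FunField N f)ˣ := Units.mk0 _ (hmapne b hb0) with hub
  have hda : dg (div ua) = wa := r13_dg ζ hζ p ua (by rw [← hp]; rfl) hta
  have hdb : dg (div ub) = wb := r13_dg ζ hζ q ub (by rw [← hq]; rfl) htb
  have hh : h = ua * ub⁻¹ := by
    apply Units.ext
    rw [Units.val_mul, Units.val_inv_eq_inv_val, ← div_eq_mul_inv, ← hab]
    rfl
  have hdeg : dg (div h) = wa - wb := by
    rw [hh, div_mul, div_inv, r13_dg_add, r13_dg_neg, hda, hdb]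
    ring
  have hw : wa = wb := by
    rw [hd] at hdeg
    omega
  subst hw
  have hi : ia = ib := r13_top_inj hc hta.lt htb.lt (hta.eq.trans htb.eq.symm)
  subst hi
  have hdd : (p ia).natDegree = (q ia).natDegree := by
    have h1 := hta.eq.trans htb.eq.symm
    have h2 : N * (p ia).natDegree = N * (q ia).natDegree := by omega
    exact Nat.eq_of_mul_eq_mul_left hN h2
  set c : E := (p ia).leadingCoeff / (q ia).leadingCoeff with hcdef
  have hlq : (q ia).leadingCoeff ≠ 0 := leadingCoeff_ne_zero.mpr htb.ne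
  have hlp : (p ia).leadingCoeff ≠ 0 := leadingCoeff_ne_zero.mpr hta.ne
  have hc0 : c ≠ 0 := div_ne_zero hlp hlq
  refine ⟨c, ?_⟩
  have hcstc : (cst c : FunField N f) = algebraMap (NRing N f) (FunField N f) (ofPoly (C c)) := rfl
  have hbF := hmapne b hb0
  by_cases hz : a - ofPoly (C c) * b = 0
  · left
    rw [← hab, hcstc, div_eq_iff hbF, ← map_mul, sub_eq_zero.mp hz]
  · right
    set v : (FunField N f)ˣ := Units.mk0 _ (hmapne _ hz) with hv
    refine ⟨v * ub⁻¹, ?_, ?_⟩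
    · rw [Units.val_mul, Units.val_inv_eq_inv_val, ← div_eq_mul_inv, ← hab, hcstc]
      have h1 : (v : FunField N f) = algebraMap (NRing N f) (FunField N f) (a - ofPoly (C c) * b) := rfl
      have h2 : (ub : FunField N f) = algebraMap (NRing N f) (FunField N f) b := rfl
      rw [h1, h2, map_sub, map_mul]
      field_simp
    · set r : ℕ → E[X] := fun i => p i - C c * q i with hr
      have hrexp : a - ofPoly (C c) * b = ∑ i ∈ Finset.range N, ofPoly (r i) * yy ^ i := by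
        conv_lhs => rw [hp, hq]
        rw [Finset.mul_sum, ← Finset.sum_sub_distrib]
        refine Finset.sum_congr rfl fun i _ => ?_
        rw [hr]
        simp only [map_sub, map_mul]
        ring
      obtain ⟨iv, wv, htv⟩ := r13_exists_top hc r (hex r _ hrexp hz)
      have hdv : dg (div v) = wv := r13_dg ζ hζ r v (by rw [← hrexp]; rfl) htv
      have hlt : wv < wa := by
        rw [← htv.eq]
        by_cases hiv : iv = ia
        · have h1 : (r iv).natDegree < (p ia).natDegree := by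
            rw [hiv]
            have h2 : (r ia).degree < (p ia).degree := by
              rw [hr]
              refine degree_sub_lt ?_ hta.ne ?_
              · rw [degree_C_mul hc0, degree_eq_natDegree hta.ne, degree_eq_natDegree htb.ne, hdd]
              · rw [leadingCoeff_mul, leadingCoeff_C, hcdef, div_mul_cancel₀ _ hlq]
            have h3 : r ia ≠ 0 := by
              rw [← hiv]
              exact htv.ne
            exact (natDegree_lt_natDegree_iff h3).mpr h2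
          have h4 := hta.eq
          have h5 : N * (r iv).natDegree < N * (p ia).natDegree :=
            Nat.mul_lt_mul_of_pos_left h1 hN
          rw [hiv] at h5 ⊢
          omega
        · have h1 : (r iv).natDegree ≤ max (p iv).natDegree (q iv).natDegree := by
            rw [hr]
            refine (natDegree_sub_le _ _).trans (max_le_max le_rfl (natDegree_C_mul_le _ _))
          have h6 : ∀ s : ℕ → E[X], Top N f.natDegree s ia wa → s iv ≠ 0 →
              N * (s iv).natDegree + iv * f.natDegree < wa := fun s hs h7 =>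
            hs.max iv htv.lt hiv h7
          by_cases hp0 : p iv = 0
          · have hq0 : q iv ≠ 0 := by
              intro h8
              apply htv.ne
              rw [hr]
              simp only [hp0, h8, mul_zero, sub_zero]
            have h9 := h6 q htb hq0
            rw [hp0, natDegree_zero, max_eq_right (Nat.zero_le _)] at h1
            have := Nat.mul_le_mul_left N h1
            omega
          · have h9 := h6 p hta hp0
            by_cases hq0 : q iv = 0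
            · rw [hq0, natDegree_zero, max_eq_left (Nat.zero_le _)] at h1
              have := Nat.mul_le_mul_left N h1
              omega
            · have h10 := h6 q htb hq0
              rcases le_total (p iv).natDegree (q iv).natDegree with h11 | h11
              · rw [max_eq_right h11] at h1
                have := Nat.mul_le_mul_left N h1
                omega
              · rw [max_eq_left h11] at h1
                have := Nat.mul_le_mul_left N h1
                omega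
      rw [div_mul, div_inv, r13_dg_add, r13_dg_neg, hdv, hdb]
      have : (wv : ℤ) < wa := by exact_mod_cast hlt
      linarith

end Pool.Agent.Lib.MP_89bcae_ag.Wt

end

section

/-!
The kernel of `π = 1 - Z`: parts (B) and (C) of the explanations in R17.
-/

open Polynomial IsDedekindDomain

open scoped Classical

namespace Pool.Agent.Lib.MP_89bcae_ag.Wt

universe u

variable {N : ℕ} {E : Type u} [Field E] {f : E[X]} [hG : IsGood N f]

lemma R18_rot_ramPt (ζ : E) (hζ : ζ ^ N = 1) {θ : E} (hθ : f.eval θ = 0) :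
    (ramPt hG.ne hθ : Pt N f).rot ζ hζ = ramPt hG.ne hθ := by
  ext
  · rfl
  · simp [Pt.rot, ramPt]

lemma R18_ordR_rot (ζ : E) (hζ : ζ ^ N = 1) (h0 : ζ ≠ 0) (θ : E) (h : (FunField N f)ˣ) :
    ordR θ (rotU ζ hζ h0 h) = ordR θ h := by
  unfold ordR
  split_ifs with hθ
  · rw [ord_rotU, R18_rot_ramPt]
  · rfl

lemma R18_ordR_iter (ζ : E) (hζ : ζ ^ N = 1) (h0 : ζ ≠ 0) (θ : E) (h : (FunField N f)ˣ) (i : ℕ) :
    ordR θ ((rotU ζ hζ h0)^[i] h) = ordR θ h := by
  induction i with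
  | zero => rfl
  | succ i ih => rw [Function.iterate_succ_apply', R18_ordR_rot, ih]

lemma R18_lc_iter (ζ : E) (hζ : ζ ^ N = 1) (h0 : ζ ≠ 0) {θ : E} (hθ : f.eval θ = 0)
    (h : (FunField N f)ˣ) (i : ℕ) :
    (lc θ ((rotU ζ hζ h0)^[i] h) : E) = (ζ ^ (al N (wt f θ) * ordR θ h)) ^ i * lc θ h := by
  induction i with
  | zero => simp
  | succ i ih =>
    rw [Function.iterate_succ_apply', (lc_spec hθ).2.2.2.2.1, ih, R18_ordR_iter, pow_succ]
    ring

/-- The leading coefficient of a norm. -/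
lemma R18_lc_nrm (ζ : E) (hζ : ζ ^ N = 1) (h0 : ζ ≠ 0) {θ : E} (hθ : f.eval θ = 0)
    (h : (FunField N f)ˣ) :
    (lc θ (nrm ζ hζ h0 h) : E) =
      (ζ ^ (al N (wt f θ) * ordR θ h)) ^ (∑ i ∈ Finset.range N, i) * (lc θ h : E) ^ N := by
  rw [nrm, map_prod, Units.coe_prod, Finset.prod_congr rfl fun i _ => R18_lc_iter ζ hζ h0 hθ h i,
    Finset.prod_mul_distrib, Finset.prod_pow_eq_pow_sum, Finset.prod_const, Finset.card_range]

lemma R18_xprod_sub (D D' : Pt N f →₀ ℤ) : xprod (D - D') = xprod D / xprod D' := by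
  rw [eq_div_iff_mul_eq', ← xprod_add, sub_add_cancel]

lemma R18_div_div (h h' : (FunField N f)ˣ) : div (h / h') = div h - div h' := by
  rw [div_eq_mul_inv, div_mul, div_inv, sub_eq_add_neg]

/-- Extraction of roots of constants: normalization of the norm. -/
lemma R18_exists_normalized (ζ : E) (hζ : ζ ^ N = 1) (h0 : ζ ≠ 0) (h : (FunField N f)ˣ) (c : Eˣ)
    (g : (FunField N f)ˣ) (hn : nrm ζ hζ h0 h = cstU c * g) :
    ∃ h' : (FunField N f)ˣ, div h' = div h ∧ nrm ζ hζ h0 h' = g := by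
  have := hG.alg
  obtain ⟨d, hd⟩ := IsAlgClosed.exists_pow_nat_eq (c : E) hG.pos
  have hd0 : d ≠ 0 := by
    rintro rfl
    rw [zero_pow hG.ne] at hd
    exact c.ne_zero hd.symm
  have hdc : (Units.mk0 d hd0) ^ N = c := by
    ext
    simpa using hd
  refine ⟨h * cstU (Units.mk0 d hd0)⁻¹, ?_, ?_⟩
  · rw [div_mul, div_cstU, add_zero]
  · rw [nrm_mul, nrm_cstU, hn, inv_pow, hdc, map_inv]
    rw [mul_comm (cstU c) g, mul_inv_cancel_right]

lemma zJ_ram (ζ : E) (hζ : ζ ^ N = 1) (e : E → ℤ) : zJ ζ hζ (ram e : Jac N f) = ram e := by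
  rw [ram, zJ_cl, mapDomain_rot_ramDiv]

/-- (B) -/
lemma exists_ram_of_zJ_eq (ζ : E) (hζ : IsPrimitiveRoot ζ N) (Q : Jac N f)
    (hQ : zJ ζ hζ.pow_eq_one Q = Q) : ∃ e : E → ℤ, Q = ram e := by
  have h0 : ζ ≠ 0 := hζ.ne_zero hG.ne
  obtain ⟨D, rfl⟩ := cl_surjective Q
  rw [zJ_cl] at hQ
  have h1 : cl (D - D.mapDomain (Pt.rot ζ hζ.pow_eq_one)) = 0 := by
    rw [map_sub, hQ, sub_self]
  obtain ⟨h, hh⟩ := exists_div_of_cl_eq_zero _ h1
  obtain ⟨c, hc⟩ := exists_nrm_eq ζ hζ h0 h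
  have hx : xprod (div h) = 1 := by
    rw [hh, R18_xprod_sub, xprod_rot, div_self']
  obtain ⟨h', hdiv, hn⟩ := R18_exists_normalized ζ hζ.pow_eq_one h0 h c _ hc
  rw [hx] at hn
  have hord : ∀ θ, f.eval θ = 0 → ordR θ h' = 0 := by
    intro θ hθ
    have h2 : ord (ramPt hG.ne hθ) h' = 0 := by
      rw [← div_apply, hdiv, hh, Finsupp.sub_apply]
      nth_rw 2 [← R18_rot_ramPt ζ hζ.pow_eq_one hθ]
      rw [Finsupp.mapDomain_apply, sub_self]
      intro P P' hP
      have hx := congrArg Pt.x hP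
      have hy := congrArg Pt.y hP
      simp only [Pt.rot] at hx hy
      exact Pt.ext hx (mul_left_cancel₀ h0 hy)
    rw [ordR, dif_pos hθ, h2]
  have hlc : ∀ θ, f.eval θ = 0 → ∃ n : ℤ, (lc θ h' : E) = ζ ^ n := by
    intro θ hθ
    have h3 := R18_lc_nrm ζ hζ.pow_eq_one h0 hθ h'
    rw [hn, hord θ hθ, map_one, mul_zero, zpow_zero, one_pow, one_mul, Units.val_one] at h3
    have : NeZero N := ⟨hG.ne⟩
    obtain ⟨i, _, hi⟩ := hζ.eq_pow_of_pow_eq_one h3.symm
    exact ⟨i, by rw [← hi, zpow_natCast]⟩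
  choose! n hn' using hlc
  exact ⟨_, cl_eq_ram ζ hζ h0 D h' (by rw [hdiv, hh]) hn n hn'⟩

/-- (C) -/
lemma ram_eq_zero_iff (ζ : E) (hζ : IsPrimitiveRoot ζ N) (e : E → ℤ) :
    (ram e : Jac N f) = 0 ↔
      ∃ c : ℤ, ∀ θ, f.eval θ = 0 → (N : ℤ) ∣ e θ - c * wt f θ := by
  have h0 : ζ ≠ 0 := hζ.ne_zero hG.ne
  constructor
  · intro he
    obtain ⟨h, hh⟩ := exists_div_of_cl_eq_zero _ he
    have hu : div ((rotU ζ hζ.pow_eq_one h0).symm h / h) = 0 := by
      rw [R18_div_div, div_rotU_symm, hh, mapDomain_rot_ramDiv, sub_self]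
    have hdg : dg (div ((rotU ζ hζ.pow_eq_one h0).symm h / h)) = 0 := by
      rw [hu, dg, Finsupp.sum_zero_index]
    obtain ⟨c, hc⟩ := exists_const_of_dg_eq_zero ζ hζ _ hdg
    have hord : ∀ P, ord P ((rotU ζ hζ.pow_eq_one h0).symm h / h) = 0 := by
      intro P
      rw [← div_apply, hu, Finsupp.zero_apply]
    have hc1 : (((rotU ζ hζ.pow_eq_one h0).symm h / h : (FunField N f)ˣ) : FunField N f) = cst c := by
      rcases hc with hc | ⟨w, hw, hwd⟩
      · exact hc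
      · exfalso
        have hwn : ∀ P, 0 ≤ ord P w := by
          intro P
          by_cases hc0 : c = 0
          · rw [hc0, map_zero, sub_zero] at hw
            rw [Units.ext hw, hord]
          · have h5 := ord_add P ((rotU ζ hζ.pow_eq_one h0).symm h / h)
              (cstU (Units.mk0 (-c) (neg_ne_zero.2 hc0))) w (by
                rw [hw, cstU, Units.coe_map, Units.val_mk0, MonoidHom.coe_coe, map_neg,
                  sub_eq_add_neg])
            rw [hord, ord_cstU, min_self] at h5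
            exact h5
        refine absurd hwd (not_lt.2 ?_)
        exact Finset.sum_nonneg fun P _ => hwn P
    have hc0 : c ≠ 0 := by
      rintro rfl
      rw [map_zero] at hc1
      exact Units.ne_zero _ hc1
    have h6 : (rotU ζ hζ.pow_eq_one h0).symm h / h = cstU (Units.mk0 c hc0) := by
      ext
      rw [hc1, cstU, Units.coe_map, Units.val_mk0, MonoidHom.coe_coe]
    have h7 : h = cstU (Units.mk0 c hc0) * rotU ζ hζ.pow_eq_one h0 h := by
      have h8 := congrArg (rotU ζ hζ.pow_eq_one h0) (eq_mul_of_div_eq h6)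
      rw [MulEquiv.apply_symm_apply, map_mul, rotU_cstU] at h8
      exact h8
    have h9 : ∀ θ, f.eval θ = 0 → c * ζ ^ (al N (wt f θ) * e θ) = 1 := by
      intro θ hθ
      have h10 : ordR θ h = e θ := by
        rw [ordR, dif_pos hθ, ← div_apply, hh, ramDiv_apply, if_pos (by rfl)]
        rfl
      have h11 := congrArg (fun u => (lc θ u : E)) h7
      simp only [map_mul, Units.val_mul, (lc_spec hθ).1, (lc_spec hθ).2.2.2.2.1, Units.val_mk0,
        h10] at h11
      have h12 := (lc θ h).ne_zero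
      rw [← mul_assoc] at h11
      exact (mul_eq_right₀ h12).1 h11.symm
    obtain ⟨θ₀, hθ₀⟩ := exists_root N f
    refine ⟨al N (wt f θ₀) * e θ₀, fun θ hθ => ?_⟩
    have h15 : (N : ℤ) ∣ al N (wt f θ) * e θ - al N (wt f θ₀) * e θ₀ := by
      rw [← hζ.zpow_eq_one_iff_dvd, zpow_sub₀ h0]
      have h13 := h9 θ hθ
      have h14 := h9 θ₀ hθ₀
      rw [← h14] at h13
      rw [mul_left_cancel₀ hc0 h13, div_self (zpow_ne_zero _ h0)]
    have hw : ((al N (wt f θ) * wt f θ : ℕ) : ℤ) = ((be N (wt f θ) * N + 1 : ℕ) : ℤ) := by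
      rw [al_wt (N := N) hθ]
    push_cast at hw
    have h16 : e θ - al N (wt f θ₀) * e θ₀ * wt f θ =
        wt f θ * (al N (wt f θ) * e θ - al N (wt f θ₀) * e θ₀) - N * (be N (wt f θ) * e θ) := by
      linear_combination (-e θ) * hw
    rw [h16]
    exact dvd_sub (h15.mul_left _) (dvd_mul_right _ _)
  · rintro ⟨c, hc⟩
    rw [ram_congr e (fun θ => c * wt f θ) (fun θ hθ => hc θ hθ), ram, ramDiv_smul,
      map_zsmul, ← div_yU, cl_div, smul_zero]

lemma ram_add (e e' : E → ℤ) : (ram fun θ => e θ + e' θ : Jac N f) = ram e + ram e' := by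
  rw [ram, ramDiv_add, map_add, ← ram, ← ram]

lemma ram_sub (e e' : E → ℤ) : (ram fun θ => e θ - e' θ : Jac N f) = ram e - ram e' := by
  rw [ram, ramDiv_sub, map_sub, ← ram, ← ram]

lemma symJ_ram (σ : Sym f) (e : E → ℤ) :
    symJ σ (ram e : Jac N f) = ram fun θ => e (((σ⁻¹ : Sym f) : E ≃+* E) θ) := by
  rw [ram, symJ_cl, mapDomain_sym_ramDiv, ← ram]

lemma smul_ram (e : E → ℤ) : N • (ram e : Jac N f) = 0 := by
  have h1 : (ram (fun θ => (N : ℤ) * e θ) : Jac N f) = ram fun _ => 0 :=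
    ram_congr _ _ fun θ _ => ⟨e θ, by ring⟩
  have h2 : (ram (fun _ => 0) : Jac N f) = 0 := by
    have h3 : (ramDiv (fun _ => 0) : Pt N f →₀ ℤ) = 0 := by
      ext P
      simp
    rw [ram, h3, map_zero]
  rw [h2, ram, ramDiv_smul, map_zsmul, ← ram, natCast_zsmul] at h1
  exact h1

end Pool.Agent.Lib.MP_89bcae_ag.Wt

end

section

/-!
# The normalised exponents of the classes of ramified divisors
-/

open Polynomial IsDedekindDomain

open scoped Classical

set_option linter.style.haveILetI false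

namespace Pool.Agent.Lib.MP_89bcae_ag.Wt

universe u

variable {ℓ : ℕ} {E : Type u} [Field E] {f : E[X]} [hG : IsGood ℓ f]

omit hG in
lemma rm14_sum_wt (hG : IsGood ℓ f) : ∑ θ ∈ f.roots.toFinset, wt f θ = f.natDegree := by
  have hE : IsAlgClosed E := hG.alg
  have h1 : ∀ θ ∈ f.roots.toFinset, wt f θ = f.roots.count θ := fun θ _ => (count_roots f).symm
  rw [Finset.sum_congr rfl h1, Multiset.toFinset_sum_count_eq]
  exact (IsAlgClosed.splits f).natDegree_eq_card_roots.symm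

omit hG in
lemma rm14_deg_ne (hp : ℓ.Prime) (hG : IsGood ℓ f) : (f.natDegree : ZMod ℓ) ≠ 0 := by
  intro h
  rw [ZMod.natCast_eq_zero_iff] at h
  exact hp.one_lt.ne' (Nat.Coprime.eq_one_of_dvd hG.coprime.symm h)

omit hG in
lemma rm14_wt_ne (hp : ℓ.Prime) (hG : IsGood ℓ f) {θ : E} (hθ : f.eval θ = 0) :
    (wt f θ : ZMod ℓ) ≠ 0 := by
  intro h
  rw [ZMod.natCast_eq_zero_iff] at h
  exact hp.one_lt.ne' (Nat.Coprime.eq_one_of_dvd (hG.mult θ hθ).symm h)

omit hG in
lemma rm14_mem (hG : IsGood ℓ f) {θ : E} : θ ∈ f.roots.toFinset ↔ f.eval θ = 0 := by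
  rw [Multiset.mem_toFinset, mem_roots (f_ne_zero ℓ f), IsRoot.def]

/-- The exponents normalised by their weighted sum are unique modulo `ℓ`. -/
lemma rm14_unique (hp : ℓ.Prime) {ζ : E} (hζ : IsPrimitiveRoot ζ ℓ) (n n' : E → ℤ)
    (h : (ram (fun θ => (wt f θ : ℤ) * n θ) : Jac ℓ f) = ram (fun θ => (wt f θ : ℤ) * n' θ))
    (hs : ∑ θ ∈ f.roots.toFinset, (wt f θ : ZMod ℓ) * (n θ : ZMod ℓ) =
      ∑ θ ∈ f.roots.toFinset, (wt f θ : ZMod ℓ) * (n' θ : ZMod ℓ)) :
    ∀ θ ∈ f.roots.toFinset, (n θ : ZMod ℓ) = n' θ := by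
  haveI : Fact ℓ.Prime := ⟨hp⟩
  have h1 : (ram (fun θ => (wt f θ : ℤ) * n θ - (wt f θ : ℤ) * n' θ) : Jac ℓ f) = 0 := by
    rw [ram_sub, h, sub_self]
  obtain ⟨c, hc⟩ := (ram_eq_zero_iff ζ hζ _).1 h1
  have h2 : ∀ θ ∈ f.roots.toFinset, (n θ : ZMod ℓ) - n' θ = c := by
    intro θ hθ
    have h0 := (rm14_mem hG).1 hθ
    have h3 := (ZMod.intCast_zmod_eq_zero_iff_dvd _ ℓ).2 (hc θ h0)
    push_cast at h3
    have h4 : (wt f θ : ZMod ℓ) * ((n θ : ZMod ℓ) - n' θ - c) = 0 := by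
      linear_combination h3
    have h5 := (mul_eq_zero.1 h4).resolve_left (rm14_wt_ne hp hG h0)
    exact sub_eq_zero.1 h5
  have h4 : (f.natDegree : ZMod ℓ) * c = 0 := by
    rw [← rm14_sum_wt hG]
    push_cast
    rw [Finset.sum_mul]
    have h5 : ∀ θ ∈ f.roots.toFinset, (wt f θ : ZMod ℓ) * (c : ZMod ℓ) =
        (wt f θ : ZMod ℓ) * (n θ : ZMod ℓ) - (wt f θ : ZMod ℓ) * (n' θ : ZMod ℓ) := by
      intro θ hθ
      rw [← h2 θ hθ, mul_sub]
    rw [Finset.sum_congr rfl h5, Finset.sum_sub_distrib, hs, sub_self]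
  have h5 : (c : ZMod ℓ) = 0 := (mul_eq_zero.1 h4).resolve_left (rm14_deg_ne hp hG)
  intro θ hθ
  rw [← sub_eq_zero, h2 θ hθ, h5]

/-- Normalised exponents exist. -/
lemma rm14_exists (hp : ℓ.Prime) {ζ : E} (hζ : IsPrimitiveRoot ζ ℓ) (Q : Jac ℓ f)
    (hQ : zJ ζ hζ.pow_eq_one Q = Q) :
    ∃ n : E → ℤ, Q = ram (fun θ => (wt f θ : ℤ) * n θ) ∧
      ∑ θ ∈ f.roots.toFinset, (wt f θ : ZMod ℓ) * (n θ : ZMod ℓ) = 0 := by
  haveI : Fact ℓ.Prime := ⟨hp⟩
  obtain ⟨e, he⟩ := exists_ram_of_zJ_eq ζ hζ Q hQ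
  set n₀ : E → ℤ := fun θ => al ℓ (wt f θ) * e θ with hn₀
  have h0 : Q = ram (fun θ => (wt f θ : ℤ) * n₀ θ) := by
    rw [he]
    apply ram_congr
    intro θ hθ
    have hw : ((al ℓ (wt f θ) * wt f θ : ℕ) : ℤ) = ((be ℓ (wt f θ) * ℓ + 1 : ℕ) : ℤ) := by
      rw [al_wt (N := ℓ) hθ]
    push_cast at hw
    refine ⟨-(be ℓ (wt f θ) * e θ), ?_⟩
    rw [hn₀]
    linear_combination (-e θ) * hw
  set a : ZMod ℓ := (∑ θ ∈ f.roots.toFinset, (wt f θ : ZMod ℓ) * (n₀ θ : ZMod ℓ)) /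
    (f.natDegree : ZMod ℓ) with ha
  refine ⟨fun θ => n₀ θ - (a.val : ℤ), ?_, ?_⟩
  · have h1 : (ram (fun θ => (a.val : ℤ) * wt f θ) : Jac ℓ f) = 0 :=
      (ram_eq_zero_iff ζ hζ _).2 ⟨a.val, fun _ _ => by simp⟩
    have h2 := ram_sub (N := ℓ) (f := f) (fun θ => (wt f θ : ℤ) * n₀ θ)
      (fun θ => (a.val : ℤ) * wt f θ)
    rw [h1, sub_zero] at h2
    rw [h0, ← h2]
    congr 1
    funext θ
    ring
  · have h3 : ∀ θ ∈ f.roots.toFinset,
        (wt f θ : ZMod ℓ) * (((n₀ θ - (a.val : ℤ) : ℤ)) : ZMod ℓ) =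
        (wt f θ : ZMod ℓ) * (n₀ θ : ZMod ℓ) - (wt f θ : ZMod ℓ) * a := by
      intro θ _
      rw [Int.cast_sub, Int.cast_natCast, ZMod.natCast_zmod_val, mul_sub]
    have h4 : ∑ θ ∈ f.roots.toFinset, (wt f θ : ZMod ℓ) = (f.natDegree : ZMod ℓ) := by
      rw [← rm14_sum_wt hG]
      push_cast
      rfl
    rw [Finset.sum_congr rfl h3, Finset.sum_sub_distrib, ← Finset.sum_mul, h4, ha,
      mul_div_cancel₀ _ (rm14_deg_ne hp hG), sub_self]

end Pool.Agent.Lib.MP_89bcae_ag.Wt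

end

section

/-!
THE KUMMER FORMULA.

STATEMENT. Let `Q - Z Q = cl D`. There are `z θ ≠ 0` in `E` (for the roots `θ` of `f`) with
`(z θ)^N = ε^{D(θ,0)} ∏_P (θ - x(P))^{D(P)}`, where `ε = (-1)^(N+1)` and the factor of
`P = (θ, 0)` is replaced by `(1/f'(θ))^{D(P)}`, such that for every automorphism `σ` in `Sym f` which
fixes `ζ` and `D`: if `σ (z θ) = ζ^{n(σ θ)} z (σ θ)` for all roots `θ`, then
`σ Q - Q = ram n = ∑ n(θ) [(θ, 0)]`.
-/

open Polynomial IsDedekindDomain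

open scoped Classical

namespace Pool.Agent.Lib.MP_89bcae_ag.Wt

universe u

variable {N : ℕ} {E : Type u} [Field E] {f : E[X]} [hG : IsGood N f]

/-- The value at `θ` of `∏ (x - x(P)) ^ D(P)`, regularized if `θ` is one of the `x(P)`. -/
noncomputable def uval (D : Pt N f →₀ ℤ) (θ : E) : E :=
  D.prod fun P n => (if P.x = θ then (cof f θ ^ al N (wt f θ))⁻¹ else θ - P.x) ^ n

omit hG in
lemma R21_eval (σ : Sym f) (θ : E) :
    f.eval ((σ : E ≃+* E) θ) = (σ : E ≃+* E) (f.eval θ) := by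
  have h : f.map ((σ : E ≃+* E) : E →+* E) = f := mem_Sym.1 σ.2
  refine (congrArg (fun g : E[X] => g.eval ((σ : E ≃+* E) θ)) h.symm).trans ?_
  rw [Polynomial.eval_map]
  exact Polynomial.eval₂_hom ((σ : E ≃+* E) : E →+* E) θ

omit hG in
lemma R21_sym_injective (σ : Sym f) : Function.Injective (Pt.sym σ : Pt N f → Pt N f) := by
  intro P P' hP
  have hx := congrArg Pt.x hP
  have hy := congrArg Pt.y hP
  exact Pt.ext ((σ : E ≃+* E).injective hx) ((σ : E ≃+* E).injective hy)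

omit hG in
lemma R21_sym_rot (σ : Sym f) (ζ : E) (hζ : ζ ^ N = 1) (hσ : (σ : E ≃+* E) ζ = ζ) :
    (Pt.sym σ : Pt N f → Pt N f) ∘ Pt.rot ζ hζ = Pt.rot ζ hζ ∘ Pt.sym σ := by
  funext P
  refine Pt.ext ?_ ?_
  · rfl
  · change (σ : E ≃+* E) (ζ * P.y) = ζ * (σ : E ≃+* E) P.y
    rw [map_mul, hσ]

lemma R21_atR_sym (σ : Sym f) (D : Pt N f →₀ ℤ) {θ : E} (hθ : f.eval θ = 0) :
    atR (D.mapDomain (Pt.sym σ)) ((σ : E ≃+* E) θ) = atR D θ := by
  have hσθ : f.eval ((σ : E ≃+* E) θ) = 0 := by rw [R21_eval, hθ, map_zero]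
  rw [atR, atR, dif_pos hθ, dif_pos hσθ]
  have h : (⟨(σ : E ≃+* E) θ, 0, by rw [zero_pow hG.ne, hσθ]⟩ : Pt N f) =
      Pt.sym σ ⟨θ, 0, by rw [zero_pow hG.ne, hθ]⟩ := by
    refine Pt.ext rfl ?_
    change 0 = (σ : E ≃+* E) 0
    rw [map_zero]
  rw [h, Finsupp.mapDomain_apply (R21_sym_injective σ)]

omit hG in
lemma R21_rot_injective {ζ : E} (hζ : ζ ^ N = 1) (h0 : ζ ≠ 0) :
    Function.Injective (Pt.rot ζ hζ : Pt N f → Pt N f) := by
  intro P P' hP
  have hx := congrArg Pt.x hP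
  have hy := congrArg Pt.y hP
  exact Pt.ext hx (mul_left_cancel₀ h0 hy)

lemma R21_atR_sub (D D' : Pt N f →₀ ℤ) (θ : E) : atR (D - D') θ = atR D θ - atR D' θ := by
  unfold atR
  split_ifs
  · rfl
  · rfl

lemma R21_atR_rot {ζ : E} (hζ : ζ ^ N = 1) (h0 : ζ ≠ 0) (D : Pt N f →₀ ℤ) (θ : E) :
    atR (D.mapDomain (Pt.rot ζ hζ)) θ = atR D θ := by
  unfold atR
  split_ifs with hθ
  · have h := R18_rot_ramPt (N := N) ζ hζ hθ
    conv_lhs => rw [show (⟨θ, 0, by rw [zero_pow hG.ne, hθ]⟩ : Pt N f) =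
      Pt.rot ζ hζ ⟨θ, 0, by rw [zero_pow hG.ne, hθ]⟩ from h.symm]
    rw [Finsupp.mapDomain_apply (R21_rot_injective hζ h0)]
  · rfl

lemma R21_ordR (θ : E) (h : (FunField N f)ˣ) : ordR θ h = atR (div h) θ := by
  unfold ordR atR
  split_ifs
  · rfl
  · rfl

omit hG in
lemma R21_eps {ζ : E} (hζ : IsPrimitiveRoot ζ N) (hN : 0 < N) :
    ζ ^ (∑ i ∈ Finset.range N, i) = (-1) ^ (N + 1) := by
  have h2 := Finset.sum_range_id_mul_two N
  rcases Nat.even_or_odd N with heven | hodd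
  · obtain ⟨k, hk⟩ := heven
    have h1 : ζ ^ k = -1 := by
      have h3 : IsPrimitiveRoot (ζ ^ k) 2 := hζ.pow hN (by omega)
      exact h3.eq_neg_one_of_two_right
    have h4 : ∑ i ∈ Finset.range N, i = k * (N - 1) := by
      have h5 : (∑ i ∈ Finset.range N, i) * 2 = (k * (N - 1)) * 2 := by
        rw [h2]
        nth_rw 1 [hk]
        ring
      omega
    have h6 : N + 1 = (N - 1) + 2 := by omega
    rw [h4, pow_mul, h1, h6, pow_add]
    norm_num
  · obtain ⟨k, hk⟩ := hodd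
    have h1 : ∑ i ∈ Finset.range N, i = N * k := by
      have h3 : N - 1 = 2 * k := by omega
      rw [h3] at h2
      nlinarith
    rw [h1, pow_mul, hζ.pow_eq_one, one_pow, Even.neg_one_pow]
    exact ⟨k + 1, by omega⟩

/-- The sign in the Kummer formula. -/
lemma R21_eps_al {θ : E} (hθ : f.eval θ = 0) (k : ℤ) :
    (((-1 : E) ^ (N + 1)) ^ (al N (wt f θ) * k)) = ((-1) ^ (N + 1)) ^ k := by
  rw [zpow_mul, zpow_natCast]
  congr 1
  have h1 := al_wt (N := N) hθ
  rcases Nat.even_or_odd N with heven | hodd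
  · have h2 : Odd (al N (wt f θ) * wt f θ) := by
      rw [h1]
      exact (heven.mul_left _).add_one
    have h3 : Odd (al N (wt f θ)) := (Nat.odd_mul.1 h2).1
    have h4 : Odd (N + 1) := heven.add_one
    rw [h4.neg_one_pow, h3.neg_one_pow]
  · have h4 : Even (N + 1) := hodd.add_one
    rw [h4.neg_one_pow, one_pow]

lemma R21_lc_xprod {θ : E} (hθ : f.eval θ = 0) (D : Pt N f →₀ ℤ) :
    (lc θ (xprod D) : E) = uval D θ := by
  rw [xprod, uval, Finsupp.prod, Finsupp.prod, map_prod, Units.coe_prod]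
  refine Finset.prod_congr rfl fun P _ => ?_
  rw [map_zpow, Units.val_zpow_eq_zpow_val]
  congr 1
  split_ifs with hP
  · rw [hP, (lc_spec hθ).2.2.1]
  · rw [(lc_spec hθ).2.1 P.x hP]

lemma R21_nrm_div (ζ : E) (hζ : ζ ^ N = 1) (h0 : ζ ≠ 0) (h h' : (FunField N f)ˣ) :
    nrm ζ hζ h0 (h / h') = nrm ζ hζ h0 h / nrm ζ hζ h0 h' := by
  rw [eq_div_iff_mul_eq', ← nrm_mul, div_mul_cancel]

lemma R21_nrm_sym (σ : Sym f) (ζ : E) (hζ : ζ ^ N = 1) (h0 : ζ ≠ 0)
    (hσ : (σ : E ≃+* E) ζ = ζ) (h : (FunField N f)ˣ) :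
    nrm ζ hζ h0 (symU σ h) = symU σ (nrm ζ hζ h0 h) := by
  have key : ∀ i, (rotU ζ hζ h0)^[i] (symU σ h) = symU σ ((rotU ζ hζ h0)^[i] h) := by
    intro i
    induction i with
    | zero => rfl
    | succ i ih =>
      rw [Function.iterate_succ_apply', Function.iterate_succ_apply', ih,
        symU_rotU σ ζ hζ h0 hσ]
  rw [nrm, nrm, map_prod]
  exact Finset.prod_congr rfl fun i _ => key i

theorem kummer_formula (ζ : E) (hζ : IsPrimitiveRoot ζ N) (Q : Jac N f) (D : Pt N f →₀ ℤ)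
    (hQ : Q - zJ ζ hζ.pow_eq_one Q = cl D) :
    ∃ z : E → E, (∀ θ, f.eval θ = 0 → z θ ≠ 0 ∧
      z θ ^ N = ((-1) ^ (N + 1)) ^ atR D θ * uval D θ) ∧
      ∀ (σ : Sym f), (σ : E ≃+* E) ζ = ζ → D.mapDomain (Pt.sym σ) = D → ∀ n : E → ℤ,
        (∀ θ, f.eval θ = 0 →
          (σ : E ≃+* E) (z θ) = ζ ^ n ((σ : E ≃+* E) θ) * z ((σ : E ≃+* E) θ)) →
        symJ σ Q - Q = ram fun θ => wt f θ * n θ := by
  have h0 : ζ ≠ 0 := hζ.ne_zero hG.ne
  obtain ⟨D₁, rfl⟩ := cl_surjective Q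
  rw [zJ_cl] at hQ
  have h1 : cl (D₁ - D₁.mapDomain (Pt.rot ζ hζ.pow_eq_one) - D) = 0 := by
    rw [map_sub, map_sub, hQ, sub_self]
  obtain ⟨w₀, hw₀⟩ := exists_div_of_cl_eq_zero _ h1
  obtain ⟨c, hc⟩ := exists_nrm_eq ζ hζ h0 w₀
  obtain ⟨w, hw, hn⟩ := R18_exists_normalized ζ hζ.pow_eq_one h0 w₀ c _ hc
  rw [hw₀] at hw hn
  have hx : nrm ζ hζ.pow_eq_one h0 w = (xprod D)⁻¹ := by
    rw [hn, R18_xprod_sub, R18_xprod_sub, xprod_rot, div_self', one_div]
  have hord : ∀ θ, ordR θ w = -atR D θ := by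
    intro θ
    rw [R21_ordR, hw, R21_atR_sub, R21_atR_sub, R21_atR_rot _ h0, sub_self, zero_sub]
  refine ⟨fun θ => ζ ^ (al N (wt f θ) * atR D₁ θ) * (lc θ w : E)⁻¹, fun θ hθ => ⟨?_, ?_⟩, ?_⟩
  · exact mul_ne_zero (zpow_ne_zero _ h0) (inv_ne_zero (lc θ w).ne_zero)
  · have h2 := R18_lc_nrm ζ hζ.pow_eq_one h0 hθ w
    rw [hx, map_inv, Units.val_inv_eq_inv_val, R21_lc_xprod hθ, hord, ← zpow_natCast (ζ ^ _),
      ← zpow_mul, mul_comm ((al N (wt f θ) : ℤ) * -atR D θ), zpow_mul, zpow_natCast,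
      R21_eps hζ hG.pos, R21_eps_al hθ, zpow_neg] at h2
    have h3 : (ζ ^ (al N (wt f θ) * atR D₁ θ)) ^ N = 1 := by
      rw [← zpow_natCast, ← zpow_mul, mul_comm, zpow_mul, zpow_natCast, hζ.pow_eq_one, one_zpow]
    have hε : (((-1 : E) ^ (N + 1)) ^ atR D θ) * (((-1 : E) ^ (N + 1)) ^ atR D θ) = 1 := by
      rw [← mul_zpow, ← pow_add, Even.neg_one_pow ⟨N + 1, rfl⟩, one_zpow]
    rw [mul_pow, h3, one_mul, inv_pow]
    rw [inv_eq_iff_eq_inv, mul_inv, h2, ← mul_assoc]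
    have h4 : (((-1 : E) ^ (N + 1)) ^ atR D θ)⁻¹ * (((-1 : E) ^ (N + 1)) ^ atR D θ)⁻¹ = 1 := by
      rw [← mul_inv, hε, inv_one]
    rw [h4, one_mul]
  · intro σ hσζ hσD n hzn
    have hdiv : D₁.mapDomain (Pt.sym σ) - D₁ -
        (D₁.mapDomain (Pt.sym σ) - D₁).mapDomain (Pt.rot ζ hζ.pow_eq_one) =
        div (symU σ w / w) := by
      rw [R18_div_div, div_symU, hw]
      have h5 : ∀ A B : Pt N f →₀ ℤ, ∀ g : Pt N f → Pt N f,
          (A - B).mapDomain g = A.mapDomain g - B.mapDomain g := fun A B g =>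
        map_sub (Finsupp.mapDomain.addMonoidHom g) A B
      rw [h5, h5, h5, hσD, ← Finsupp.mapDomain_comp, ← Finsupp.mapDomain_comp,
        R21_sym_rot σ ζ hζ.pow_eq_one hσζ]
      abel
    have hnh : nrm ζ hζ.pow_eq_one h0 (symU σ w / w) = 1 := by
      rw [R21_nrm_div, R21_nrm_sym σ ζ _ h0 hσζ, hx, map_inv, symU_xprod, hσD, div_self']
    have hm := cl_eq_ram ζ hζ h0 (D₁.mapDomain (Pt.sym σ) - D₁) (symU σ w / w) hdiv hnh
      (fun θ => al N (wt f θ) * atR D₁ (((σ⁻¹ : Sym f) : E ≃+* E) θ) - n θ -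
        al N (wt f θ) * atR D₁ θ) (by
        intro θ' hθ'
        obtain ⟨θ, rfl⟩ := (σ : E ≃+* E).surjective θ'
        have hθ : f.eval θ = 0 := by
          rw [R21_eval] at hθ'
          exact (map_eq_zero_iff _ (σ : E ≃+* E).injective).1 hθ'
        have h6 := hzn θ hθ
        have hwσ : wt f ((σ : E ≃+* E) θ) = wt f θ := wt_map ((σ : E ≃+* E) : E →+* E) σ.2 θ
        simp only at h6
        have h7 : (((σ⁻¹ : Sym f) : E ≃+* E)) ((σ : E ≃+* E) θ) = θ :=
          (σ : E ≃+* E).symm_apply_apply θ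
        rw [map_mul, map_zpow₀, hσζ, map_inv₀] at h6
        rw [_root_.map_div, Units.val_div_eq_div_val, (lc_spec hθ).2.2.2.2.2 σ w, h7]
        rw [hwσ] at h6 ⊢
        have h8 : ((lc ((σ : E ≃+* E) θ) w : Eˣ) : E) ≠ 0 := (lc ((σ : E ≃+* E) θ) w).ne_zero
        have h9 : (σ : E ≃+* E) (lc θ w : E) ≠ 0 :=
          (map_ne_zero_iff _ (σ : E ≃+* E).injective).2 (lc θ w).ne_zero
        have h10 : ∀ m : ℤ, ζ ^ m ≠ 0 := fun m => zpow_ne_zero m h0
        rw [zpow_sub₀ h0, zpow_sub₀ h0]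
        have h11 := h10 (n ((σ : E ≃+* E) θ))
        have h12 := h10 (al N (wt f θ) * atR D₁ ((σ : E ≃+* E) θ))
        have h13 := h10 (al N (wt f θ) * atR D₁ θ)
        generalize ζ ^ n ((σ : E ≃+* E) θ) = M at *
        generalize ζ ^ (al N (wt f θ) * atR D₁ ((σ : E ≃+* E) θ)) = A at *
        generalize ζ ^ (al N (wt f θ) * atR D₁ θ) = B at *
        generalize (σ : E ≃+* E) (lc θ w : E) = S at *
        generalize ((lc ((σ : E ≃+* E) θ) w : Eˣ) : E) = T at *
        field_simp at h6 ⊢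
        linear_combination -h6)
    rw [symJ_cl, ← map_sub, hm]
    refine ram_congr _ _ fun θ' hθ' => ?_
    obtain ⟨θ, rfl⟩ := (σ : E ≃+* E).surjective θ'
    have hθ : f.eval θ = 0 := by
      rw [R21_eval] at hθ'
      exact (map_eq_zero_iff _ (σ : E ≃+* E).injective).1 hθ'
    have hwσ : wt f ((σ : E ≃+* E) θ) = wt f θ := wt_map ((σ : E ≃+* E) : E →+* E) σ.2 θ
    have h7 : (((σ⁻¹ : Sym f) : E ≃+* E)) ((σ : E ≃+* E) θ) = θ :=
      (σ : E ≃+* E).symm_apply_apply θ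
    simp only [R21_atR_sub, R21_atR_sym σ D₁ hθ, h7, hwσ]
    have hw : ((al N (wt f θ) * wt f θ : ℕ) : ℤ) = ((be N (wt f θ) * N + 1 : ℕ) : ℤ) := by
      rw [al_wt (N := N) hθ]
    push_cast at hw
    refine ⟨-(be N (wt f θ) * (atR D₁ θ - atR D₁ ((σ : E ≃+* E) θ))), ?_⟩
    linear_combination (-(atR D₁ θ - atR D₁ ((σ : E ≃+* E) θ))) * hw

end Pool.Agent.Lib.MP_89bcae_ag.Wt

end

section

/-!
ROW U01 (60-120 lines). `uval D θ = ∏_P (θ - x(P))^{D(P)}` (regularized): equivariance, examples.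

PROOF. `Finsupp.prod_mapDomain_index` or reindexing the product over the support along the bijection
`Pt.sym σ` of the points: `(P.sym σ).x = σ P.x`, `σ (f'(θ)) = f'(σ θ)` since `σ` fixes the coefficients
of `f`, `P.x = θ ↔ (P.sym σ).x = σ θ`. For `ramDiv e` the support is in the set of the points
`(θ', 0)`, `θ'` root of `f` (`f.roots.toFinset`; the point `(θ, 0)` exists for each root).
-/

open Polynomial

open scoped Classical

namespace Pool.Agent.Lib.MP_89bcae_ag.Wt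

universe u

variable {N : ℕ} {E : Type u} [Field E] {f : E[X]} [hG : IsGood N f]

omit hG in
lemma U01_sym_inj (σ : Sym f) : Function.Injective (Pt.sym (N := N) σ) := by
  intro P Q h
  ext
  · exact (σ : E ≃+* E).injective (congrArg Pt.x h)
  · exact (σ : E ≃+* E).injective (congrArg Pt.y h)

omit hG in
lemma U01_eval_sym (σ : Sym f) (p : E[X]) (hp : p.map ((σ : E ≃+* E) : E →+* E) = p) (θ : E) :
    p.eval ((σ : E ≃+* E) θ) = (σ : E ≃+* E) (p.eval θ) := by
  have h := Polynomial.eval₂_hom ((σ : E ≃+* E) : E →+* E) θ (p := p)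
  rw [← Polynomial.eval_map, hp] at h
  exact h

omit hG in
lemma cof_map {E' : Type u} [Field E'] {f' : E'[X]} (σ : E →+* E') (h : f.map σ = f')
    (θ : E) : cof f' (σ θ) = σ (cof f θ) := by
  unfold cof cofP
  rw [wt_map σ h θ, ← h, ← Polynomial.map_X (f := σ), ← Polynomial.map_C, ← Polynomial.map_sub,
    ← Polynomial.map_pow, ← Polynomial.map_divByMonic _ ((monic_X_sub_C θ).pow _),
    Polynomial.eval_map, Polynomial.eval₂_hom]

omit hG in
lemma cof_sym (σ : Sym f) (θ : E) : cof f ((σ : E ≃+* E) θ) = (σ : E ≃+* E) (cof f θ) :=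
  cof_map ((σ : E ≃+* E) : E →+* E) σ.2 θ

omit hG in
lemma wt_sym (σ : Sym f) (θ : E) : wt f ((σ : E ≃+* E) θ) = wt f θ :=
  wt_map ((σ : E ≃+* E) : E →+* E) σ.2 θ

lemma uval_ne_zero (D : Pt N f →₀ ℤ) {θ : E} : uval D θ ≠ 0 := by
  unfold uval
  rw [Finsupp.prod, Finset.prod_ne_zero_iff]
  intro P _
  apply zpow_ne_zero
  split_ifs with h
  · exact inv_ne_zero (pow_ne_zero _ (cof_ne_zero (f_ne_zero N f) θ))
  · exact sub_ne_zero.mpr (Ne.symm h)

lemma sym_uval (σ : Sym f) (D : Pt N f →₀ ℤ) (hD : D.mapDomain (Pt.sym σ) = D) (θ : E) :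
    (σ : E ≃+* E) (uval D θ) = uval D ((σ : E ≃+* E) θ) := by
  conv_rhs => rw [← hD]
  unfold uval
  rw [Finsupp.prod_mapDomain_index_inj (U01_sym_inj σ), Finsupp.prod, Finsupp.prod, map_prod]
  apply Finset.prod_congr rfl
  intro P _
  rw [map_zpow₀]
  congr 1
  have hx : (P.sym σ).x = (σ : E ≃+* E) P.x := rfl
  by_cases h : P.x = θ
  · rw [if_pos h, if_pos (by rw [hx, h]), map_inv₀, map_pow, cof_sym, wt_sym]
  · rw [if_neg h, if_neg (by
      rw [hx]
      exact fun h' => h ((σ : E ≃+* E).injective h')), map_sub, hx]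

lemma eval_sym_eq_zero (σ : Sym f) {θ : E} : f.eval ((σ : E ≃+* E) θ) = 0 ↔ f.eval θ = 0 := by
  rw [U01_eval_sym σ f σ.2]
  exact map_eq_zero_iff _ (σ : E ≃+* E).injective

lemma sym_atR (σ : Sym f) (D : Pt N f →₀ ℤ) (hD : D.mapDomain (Pt.sym σ) = D) (θ : E) :
    atR D ((σ : E ≃+* E) θ) = atR D θ := by
  have h0 : f.eval ((σ : E ≃+* E) θ) = 0 ↔ f.eval θ = 0 := by
    rw [U01_eval_sym σ f σ.2]
    exact map_eq_zero_iff _ (σ : E ≃+* E).injective
  unfold atR
  by_cases hθ : f.eval θ = 0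
  · rw [dif_pos hθ, dif_pos (h0.mpr hθ)]
    have hP : (0 : E) ^ N = f.eval θ := by rw [zero_pow hG.ne, hθ]
    have e : (⟨(σ : E ≃+* E) θ, 0, by rw [zero_pow hG.ne, h0.mpr hθ]⟩ : Pt N f)
        = Pt.sym σ ⟨θ, 0, hP⟩ := by
      ext
      · rfl
      · exact (map_zero ((σ : E ≃+* E) : E →+* E)).symm
    rw [e]
    conv_lhs => rw [← hD]
    rw [Finsupp.mapDomain_apply (U01_sym_inj σ)]
  · rw [dif_neg hθ, dif_neg (fun h => hθ (h0.mp h))]

lemma atR_ramDiv (e : E → ℤ) {θ : E} (hθ : f.eval θ = 0) :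
    atR (ramDiv e : Pt N f →₀ ℤ) θ = e θ := by
  unfold atR
  rw [dif_pos hθ, ramDiv_apply, if_pos rfl]

lemma uval_ramDiv (e : E → ℤ) {θ : E} (hθ : f.eval θ = 0) :
    uval (ramDiv e : Pt N f →₀ ℤ) θ = (cof f θ ^ al N (wt f θ))⁻¹ ^ e θ *
      ∏ θ' ∈ f.roots.toFinset.erase θ, (θ - θ') ^ e θ' := by
  have hf0 : f ≠ 0 := f_ne_zero N f
  have hr : ∀ t : E, t ∈ f.roots.toFinset ↔ f.eval t = 0 := by
    intro t
    rw [Multiset.mem_toFinset, mem_roots hf0, IsRoot.def]
  let S : Finset (Pt N f) := f.roots.toFinset.attach.map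
    ⟨fun t => ⟨t.1, 0, by rw [zero_pow hG.ne, (hr t.1).mp t.2]⟩,
      fun a b h => Subtype.ext (congrArg Pt.x h)⟩
  have hS : (ramDiv e : Pt N f →₀ ℤ).support ⊆ S := by
    intro P hP
    rw [Finsupp.mem_support_iff, ramDiv_apply] at hP
    have hy : P.y = 0 := by
      by_contra h
      exact hP (if_neg h)
    have hx : f.eval P.x = 0 := by rw [← P.eq, hy, zero_pow hG.ne]
    refine Finset.mem_map.mpr ⟨⟨P.x, (hr _).mpr hx⟩, Finset.mem_attach _ _, ?_⟩
    ext
    · rfl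
    · exact hy.symm
  have h1 : uval (ramDiv e : Pt N f →₀ ℤ) θ = ∏ P ∈ S,
      (if P.x = θ then (cof f θ ^ al N (wt f θ))⁻¹ else θ - P.x) ^ ((ramDiv e : Pt N f →₀ ℤ) P) :=
    Finsupp.prod_of_support_subset _ hS _ (fun _ _ => zpow_zero _)
  rw [h1, Finset.prod_map]
  have h2 : ∀ t ∈ f.roots.toFinset.attach,
      (fun P : Pt N f => (if P.x = θ then (cof f θ ^ al N (wt f θ))⁻¹ else θ - P.x) ^
        ((ramDiv e : Pt N f →₀ ℤ) P)) (⟨t.1, 0, by
          rw [zero_pow hG.ne, (hr t.1).mp t.2]⟩ : Pt N f)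
      = (fun t' : E => (if t' = θ then (cof f θ ^ al N (wt f θ))⁻¹ else θ - t') ^ e t') t.1 := by
    intro t _
    simp
  refine (Finset.prod_congr rfl h2).trans ?_
  rw [Finset.prod_attach f.roots.toFinset
    (fun t' : E => (if t' = θ then (cof f θ ^ al N (wt f θ))⁻¹ else θ - t') ^ e t'),
    ← Finset.mul_prod_erase _ _ ((hr θ).mpr hθ)]
  rw [if_pos rfl]
  congr 1
  apply Finset.prod_congr rfl
  intro t ht
  rw [if_neg (Finset.ne_of_mem_erase ht)]

end Pool.Agent.Lib.MP_89bcae_ag.Wt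

end
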