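import Mathlib
import Pool.Agent.Lib.MP_89bcae_ag.Mk.K020
import Pool.Agent.Lib.MP_89bcae_ag.Mk.K023

namespace Pool.Agent.Lib.MP_89bcae_ag.Sup
end Pool.Agent.Lib.MP_89bcae_ag.Sup
namespace Pool.Agent.Lib.MP_89bcae_ag.Sup.Lns
end Pool.Agent.Lib.MP_89bcae_ag.Sup.Lns

section

/-!
# Brackets of lines: counting modulo `p`

The lines `α i = a i + b i t`, `i ∈ ι`, and the line at infinity (`none`), as points
`(1, a i, b i)` and `(0, 1, 0)`. The bracket of three of them is the determinant of their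
coordinates.
-/

open scoped Classical

namespace Pool.Agent.Lib.MP_89bcae_ag

section

variable {ι : Type} {R S : Type*} [CommRing R] [CommRing S]

/-- The first coordinate. -/
def pc14 (R : Type*) [CommRing R] : Option ι → R
  | none => 0
  | some _ => 1

/-- The second coordinate. -/
def pa14 (v : ι ⊕ ι → R) : Option ι → R
  | none => 1
  | some i => v (Sum.inl i)

/-- The third coordinate. -/
def pb14 (v : ι ⊕ ι → R) : Option ι → R
  | none => 0
  | some i => v (Sum.inr i)

/-- The bracket: the determinant of the rows `(1, a i, b i)`, with `(0, 1, 0)` for `none`. -/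
def brk14 (v : ι ⊕ ι → R) (x y z : Option ι) : R :=
  pc14 R x * (pa14 v y * pb14 v z - pb14 v y * pa14 v z) -
    pa14 v x * (pc14 R y * pb14 v z - pb14 v y * pc14 R z) +
    pb14 v x * (pc14 R y * pa14 v z - pa14 v y * pc14 R z)

lemma brk14_rotate (v : ι ⊕ ι → R) (x y z : Option ι) : brk14 v x y z = brk14 v y z x := by
  unfold brk14
  ring

lemma map_brk14 (φ : R →+* S) (v : ι ⊕ ι → R) (x y z : Option ι) :
    φ (brk14 v x y z) = brk14 (fun i => φ (v i)) x y z := by
  have hc : ∀ x : Option ι, φ (pc14 R x) = pc14 S x := by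
    rintro (_ | i)
    · exact map_zero φ
    · exact map_one φ
  have ha : ∀ x : Option ι, φ (pa14 v x) = pa14 (fun i => φ (v i)) x := by
    rintro (_ | i)
    · exact map_one φ
    · rfl
  have hb : ∀ x : Option ι, φ (pb14 v x) = pb14 (fun i => φ (v i)) x := by
    rintro (_ | i)
    · exact map_zero φ
    · rfl
  unfold brk14
  simp only [map_add, map_sub, map_mul, hc, ha, hb]

/-- The bracket with the line at infinity. -/
lemma brk14_none (v : ι ⊕ ι → R) (i j : ι) :
    brk14 v (some i) (some j) none = v (Sum.inr i) - v (Sum.inr j) := by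
  simp only [brk14, pc14, pa14, pb14]
  ring

lemma brk14_none' (v : ι ⊕ ι → R) (j k : ι) :
    brk14 v none (some j) (some k) = v (Sum.inr j) - v (Sum.inr k) := by
  simp only [brk14, pc14, pa14, pb14]
  ring

/-- The coefficients of the bracket as a function of the third line. -/
def cf1 (v : ι ⊕ ι → R) (x y : Option ι) : R := pb14 v x * pc14 R y - pc14 R x * pb14 v y

/-- See `cf1`. -/
def cf2 (v : ι ⊕ ι → R) (x y : Option ι) : R := pc14 R x * pa14 v y - pa14 v x * pc14 R y

/-- See `cf1`. -/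
def cf3 (v : ι ⊕ ι → R) (x y : Option ι) : R := pa14 v x * pb14 v y - pb14 v x * pa14 v y

lemma brk14_some (v : ι ⊕ ι → R) (x y : Option ι) (r : ι) :
    brk14 v x y (some r) =
      cf1 v x y * v (Sum.inl r) + cf2 v x y * v (Sum.inr r) + cf3 v x y := by
  unfold brk14 cf1 cf2 cf3
  simp only [pc14, pa14, pb14]
  ring

lemma pa14_update_inr [DecidableEq ι] (v : ι ⊕ ι → R) (x : Option ι) (r : ι) (c : R) :
    pa14 (Function.update v (Sum.inr r) c) x = pa14 v x := by
  rcases x with _ | i
  · rfl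
  · have h : (Sum.inl i : ι ⊕ ι) ≠ Sum.inr r := Sum.inl_ne_inr
    exact Function.update_of_ne h c v

lemma pb14_update_inl [DecidableEq ι] (v : ι ⊕ ι → R) (x : Option ι) (r : ι) (c : R) :
    pb14 (Function.update v (Sum.inl r) c) x = pb14 v x := by
  rcases x with _ | i
  · rfl
  · have h : (Sum.inr i : ι ⊕ ι) ≠ Sum.inl r := Sum.inr_ne_inl
    exact Function.update_of_ne h c v

lemma pa14_update_inl [DecidableEq ι] (v : ι ⊕ ι → R) (x : Option ι) (r : ι) (hx : x ≠ some r)
    (c : R) : pa14 (Function.update v (Sum.inl r) c) x = pa14 v x := by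
  rcases x with _ | i
  · rfl
  · refine Function.update_of_ne (fun h => hx ?_) _ _
    rw [Sum.inl.injEq] at h
    rw [h]

lemma pb14_update_inr [DecidableEq ι] (v : ι ⊕ ι → R) (x : Option ι) (r : ι) (hx : x ≠ some r)
    (c : R) : pb14 (Function.update v (Sum.inr r) c) x = pb14 v x := by
  rcases x with _ | i
  · rfl
  · refine Function.update_of_ne (fun h => hx ?_) _ _
    rw [Sum.inr.injEq] at h
    rw [h]

end

section thin

variable {κ : Type} [Fintype κ] [DecidableEq κ] {F : Type} [Fintype F] [AddGroup F]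

/-- A set which meets every line in the direction of a coordinate in at most one point. -/
def Thin14 (κ₀ : κ) (Z : Set (κ → F)) : Prop :=
  ∀ v ∈ Z, ∀ x : F, Function.update v κ₀ x ∈ Z → x = v κ₀

omit [Fintype κ] [Fintype F] [AddGroup F] in
lemma Thin14.mono {κ₀ : κ} {Z Z' : Set (κ → F)} (h : Thin14 κ₀ Z) (hs : Z' ⊆ Z) : Thin14 κ₀ Z' :=
  fun v hv x hx => h v (hs hv) x (hs hx)

lemma Thin14.card {κ₀ : κ} {Z : Set (κ → F)} (h : Thin14 κ₀ Z) :
    Z.ncard * Fintype.card F ≤ Fintype.card F ^ Fintype.card κ := by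
  have h1 : Z.ncard * Fintype.card F = Nat.card (Z × F) := by
    rw [Nat.card_prod, Nat.card_coe_set_eq, Nat.card_eq_fintype_card]
  have h2 : Fintype.card F ^ Fintype.card κ = Nat.card (κ → F) := by
    rw [Nat.card_eq_fintype_card, Fintype.card_fun]
  rw [h1, h2]
  refine Nat.card_le_card_of_injective
    (fun p : Z × F => Function.update p.1.1 κ₀ (p.1.1 κ₀ + p.2)) ?_
  rintro ⟨⟨v, hv⟩, x⟩ ⟨⟨w, hw⟩, y⟩ hvw
  simp only at hvw
  have h3 : ∀ k, k ≠ κ₀ → v k = w k := by
    intro k hk
    have := congrFun hvw k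
    rwa [Function.update_of_ne hk, Function.update_of_ne hk] at this
  have h4 : Function.update v κ₀ (w κ₀) = w := by
    funext k
    by_cases hk : k = κ₀
    · subst hk
      rw [Function.update_self]
    · rw [Function.update_of_ne hk, h3 k hk]
  have h5 : w κ₀ = v κ₀ := h v hv (w κ₀) (by rw [h4]; exact hw)
  have h6 : v = w := by
    rw [← h4, h5, Function.update_eq_self]
  subst h6
  have h7 := congrFun hvw κ₀
  rw [Function.update_self, Function.update_self, add_right_inj] at h7
  rw [h7]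

end thin

section count

variable {ι : Type} [Fintype ι] [DecidableEq ι] {F : Type} [Fintype F] [Field F]

/-- Some bracket outside of the triple `x, y, z` vanishes. -/
def Bad14 (x y z : Option ι) {R : Type} [CommRing R] (v : ι ⊕ ι → R) : Prop :=
  ∃ x' y' z' : Option ι, x' ≠ y' ∧ y' ≠ z' ∧ x' ≠ z' ∧ z' ≠ x ∧ z' ≠ y ∧ z' ≠ z ∧
    brk14 v x' y' z' = 0

omit [Fintype ι] [Fintype F] [Field F] in
lemma thin_b14 (i j : ι) (hij : i ≠ j) :
    Thin14 (Sum.inr i) {v : ι ⊕ ι → F | v (Sum.inr i) = v (Sum.inr j)} := by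
  intro v hv x hx
  rw [Set.mem_ofPred_eq] at hv hx
  rw [Function.update_self, Function.update_of_ne (by simpa using hij.symm)] at hx
  rw [hx, hv]

omit [Fintype ι] [Fintype F] [Field F] in
lemma thin_a14 (i j : ι) (hij : i ≠ j) :
    Thin14 (Sum.inl i) {v : ι ⊕ ι → F | v (Sum.inl i) = v (Sum.inl j)} := by
  intro v hv x hx
  rw [Set.mem_ofPred_eq] at hv hx
  rw [Function.update_self, Function.update_of_ne (by simpa using hij.symm)] at hx
  rw [hx, hv]

/-- The set where a bracket containing a new line `r` vanishes is a union of three thin sets. -/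
lemma thin_brk14 {κ₀ : ι ⊕ ι} {sol : (ι ⊕ ι → F) → F} {r : ι} (hr1 : Sum.inl r ≠ κ₀)
    (hr2 : Sum.inr r ≠ κ₀)
    (hsol1 : ∀ v c, sol (Function.update v (Sum.inl r) c) = sol v)
    (hsol2 : ∀ v c, sol (Function.update v (Sum.inr r) c) = sol v)
    (hZ3 : ∀ i j : ι, i ≠ j → ∃ κ₁, Thin14 κ₁ {v : ι ⊕ ι → F |
      Function.update v κ₀ (sol v) (Sum.inl i) = Function.update v κ₀ (sol v) (Sum.inl j) ∧
      Function.update v κ₀ (sol v) (Sum.inr i) = Function.update v κ₀ (sol v) (Sum.inr j)})
    (x y : Option ι) (hxy : x ≠ y) (hx : x ≠ some r) (hy : y ≠ some r) :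
    ({v : ι ⊕ ι → F | brk14 (Function.update v κ₀ (sol v)) x y (some r) = 0}).ncard *
      Fintype.card F ≤ 3 * Fintype.card F ^ Fintype.card (ι ⊕ ι) := by
  set s : (ι ⊕ ι → F) → (ι ⊕ ι → F) := fun v => Function.update v κ₀ (sol v) with hs
  have hs1 : ∀ v c, s (Function.update v (Sum.inl r) c) = Function.update (s v) (Sum.inl r) c := by
    intro v c
    simp only [hs]
    rw [hsol1, Function.update_comm hr1]
  have hs2 : ∀ v c, s (Function.update v (Sum.inr r) c) = Function.update (s v) (Sum.inr r) c := by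
    intro v c
    simp only [hs]
    rw [hsol2, Function.update_comm hr2]
  have hsl : ∀ v, s v (Sum.inl r) = v (Sum.inl r) := fun v => Function.update_of_ne hr1 _ _
  have hsr : ∀ v, s v (Sum.inr r) = v (Sum.inr r) := fun v => Function.update_of_ne hr2 _ _
  have hcf1 : ∀ (v : ι ⊕ ι → F) c, cf1 (Function.update v (Sum.inl r) c) x y = cf1 v x y := by
    intro v c
    unfold cf1
    rw [pb14_update_inl, pb14_update_inl]
  have hcf2 : ∀ (v : ι ⊕ ι → F) c, cf2 (Function.update v (Sum.inl r) c) x y = cf2 v x y := by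
    intro v c
    unfold cf2
    rw [pa14_update_inl _ _ _ hx, pa14_update_inl _ _ _ hy]
  have hcf3 : ∀ (v : ι ⊕ ι → F) c, cf3 (Function.update v (Sum.inl r) c) x y = cf3 v x y := by
    intro v c
    unfold cf3
    rw [pb14_update_inl, pb14_update_inl, pa14_update_inl _ _ _ hx, pa14_update_inl _ _ _ hy]
  have hcf1' : ∀ (v : ι ⊕ ι → F) c, cf1 (Function.update v (Sum.inr r) c) x y = cf1 v x y := by
    intro v c
    unfold cf1
    rw [pb14_update_inr _ _ _ hx, pb14_update_inr _ _ _ hy]
  have hcf2' : ∀ (v : ι ⊕ ι → F) c, cf2 (Function.update v (Sum.inr r) c) x y = cf2 v x y := by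
    intro v c
    unfold cf2
    rw [pa14_update_inr, pa14_update_inr]
  have hcf3' : ∀ (v : ι ⊕ ι → F) c, cf3 (Function.update v (Sum.inr r) c) x y = cf3 v x y := by
    intro v c
    unfold cf3
    rw [pb14_update_inr _ _ _ hx, pb14_update_inr _ _ _ hy, pa14_update_inr, pa14_update_inr]
  -- the three sets
  set Z1 : Set (ι ⊕ ι → F) := {v | cf1 (s v) x y ≠ 0 ∧ brk14 (s v) x y (some r) = 0} with hZ1
  set Z2 : Set (ι ⊕ ι → F) := {v | cf2 (s v) x y ≠ 0 ∧ brk14 (s v) x y (some r) = 0} with hZ2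
  set Z0 : Set (ι ⊕ ι → F) := {v | cf1 (s v) x y = 0 ∧ cf2 (s v) x y = 0} with hZ0
  have t1 : Thin14 (Sum.inl r) Z1 := by
    rintro v ⟨h1, h2⟩ c ⟨h3, h4⟩
    rw [hs1, brk14_some, hcf1, hcf2, hcf3, Function.update_self,
      Function.update_of_ne (by simp)] at h4
    rw [brk14_some] at h2
    have h5 : cf1 (s v) x y * (c - s v (Sum.inl r)) = 0 := by linear_combination h4 - h2
    rcases mul_eq_zero.mp h5 with h6 | h6
    · exact absurd h6 h1
    · rw [← hsl v]
      exact sub_eq_zero.mp h6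
  have t2 : Thin14 (Sum.inr r) Z2 := by
    rintro v ⟨h1, h2⟩ c ⟨h3, h4⟩
    rw [hs2, brk14_some, hcf1', hcf2', hcf3', Function.update_self,
      Function.update_of_ne (by simp)] at h4
    rw [brk14_some] at h2
    have h5 : cf2 (s v) x y * (c - s v (Sum.inr r)) = 0 := by linear_combination h4 - h2
    rcases mul_eq_zero.mp h5 with h6 | h6
    · exact absurd h6 h1
    · rw [← hsr v]
      exact sub_eq_zero.mp h6
  have t0 : ∃ κ₁, Thin14 κ₁ Z0 := by
    rcases x with _ | i
    · rcases y with _ | j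
      · exact absurd rfl hxy
      · refine ⟨κ₀, ?_⟩
        rintro v ⟨-, h2⟩
        exfalso
        simp [cf2, pc14, pa14] at h2
    · rcases y with _ | j
      · refine ⟨κ₀, ?_⟩
        rintro v ⟨-, h2⟩
        exfalso
        simp [cf2, pc14, pa14] at h2
      · obtain ⟨κ₁, h1⟩ := hZ3 i j fun h => hxy (by rw [h])
        refine ⟨κ₁, h1.mono ?_⟩
        rintro v ⟨h2, h3⟩
        simp only [cf1, cf2, pc14, pa14, pb14, mul_one, one_mul] at h2 h3
        exact ⟨(sub_eq_zero.mp h3).symm, sub_eq_zero.mp h2⟩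
  obtain ⟨κ₁, t0⟩ := t0
  have hcov : {v : ι ⊕ ι → F | brk14 (s v) x y (some r) = 0} ⊆ (Z1 ∪ Z2) ∪ Z0 := by
    intro v hv
    by_cases h1 : cf1 (s v) x y = 0
    · by_cases h2 : cf2 (s v) x y = 0
      · exact Or.inr ⟨h1, h2⟩
      · exact Or.inl (Or.inr ⟨h2, hv⟩)
    · exact Or.inl (Or.inl ⟨h1, hv⟩)
  have h1 := Set.ncard_le_ncard hcov (Set.toFinite _)
  have h2 := Set.ncard_union_le (Z1 ∪ Z2) Z0
  have h3 := Set.ncard_union_le Z1 Z2
  have c1 := t1.card
  have c2 := t2.card
  have c0 := t0.card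
  have h4 : ({v : ι ⊕ ι → F | brk14 (s v) x y (some r) = 0}).ncard ≤
      Z1.ncard + Z2.ncard + Z0.ncard := by omega
  calc ({v : ι ⊕ ι → F | brk14 (s v) x y (some r) = 0}).ncard * Fintype.card F
      ≤ (Z1.ncard + Z2.ncard + Z0.ncard) * Fintype.card F := Nat.mul_le_mul_right _ h4
    _ = Z1.ncard * Fintype.card F + Z2.ncard * Fintype.card F + Z0.ncard * Fintype.card F := by
        ring
    _ ≤ 3 * Fintype.card F ^ Fintype.card (ι ⊕ ι) := by omega

/-- The number of the points of the hypersurface where one bracket vanishes and the others do not. -/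
lemma count_gen14 {κ₀ : ι ⊕ ι} {sol : (ι ⊕ ι → F) → F} (x : Option ι) (j k : ι)
    (hκ : κ₀ = Sum.inl k ∨ κ₀ = Sum.inr k)
    (hsol1 : ∀ r, some r ≠ x → r ≠ j → r ≠ k → ∀ v c,
      sol (Function.update v (Sum.inl r) c) = sol v)
    (hsol2 : ∀ r, some r ≠ x → r ≠ j → r ≠ k → ∀ v c,
      sol (Function.update v (Sum.inr r) c) = sol v)
    (hZ3 : ∀ i j : ι, i ≠ j → ∃ κ₁, Thin14 κ₁ {v : ι ⊕ ι → F |
      Function.update v κ₀ (sol v) (Sum.inl i) = Function.update v κ₀ (sol v) (Sum.inl j) ∧
      Function.update v κ₀ (sol v) (Sum.inr i) = Function.update v κ₀ (sol v) (Sum.inr j)})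
    (hnone : x ≠ none → ∀ i j : ι, i ≠ j → ∃ κ₁, Thin14 κ₁ {v : ι ⊕ ι → F |
      Function.update v κ₀ (sol v) (Sum.inr i) = Function.update v κ₀ (sol v) (Sum.inr j)})
    (hzero : ∀ v, ¬ Bad14 x (some j) (some k) (Function.update v κ₀ (sol v)) →
      brk14 (Function.update v κ₀ (sol v)) x (some j) (some k) = 0) :
    Fintype.card F ^ Fintype.card (ι ⊕ ι) * Fintype.card F ≤
      ({v : ι ⊕ ι → F | brk14 v x (some j) (some k) = 0 ∧
        ¬ Bad14 x (some j) (some k) v}).ncard * Fintype.card F * Fintype.card F +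
      3 * (Fintype.card ι + 1) ^ 3 * Fintype.card F ^ Fintype.card (ι ⊕ ι) := by
  set s : (ι ⊕ ι → F) → (ι ⊕ ι → F) := fun v => Function.update v κ₀ (sol v) with hs
  set q := Fintype.card F with hq
  set N := Fintype.card (ι ⊕ ι) with hN
  set S : Set (ι ⊕ ι → F) := {v | brk14 v x (some j) (some k) = 0 ∧
    ¬ Bad14 x (some j) (some k) v} with hS
  set B : Set (ι ⊕ ι → F) := {v | Bad14 x (some j) (some k) (s v)} with hB
  -- the bad set
  let Tr := Option ι × Option ι × Option ι
  let Z : Tr → Finset (ι ⊕ ι → F) := fun t => Finset.univ.filter fun v =>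
    t.1 ≠ t.2.1 ∧ t.2.1 ≠ t.2.2 ∧ t.1 ≠ t.2.2 ∧ t.2.2 ≠ x ∧ t.2.2 ≠ some j ∧ t.2.2 ≠ some k ∧
      brk14 (s v) t.1 t.2.1 t.2.2 = 0
  have hZ : ∀ t : Tr, (Z t).card * q ≤ 3 * q ^ N := by
    rintro ⟨x', y', z'⟩
    by_cases hc : x' ≠ y' ∧ y' ≠ z' ∧ x' ≠ z' ∧ z' ≠ x ∧ z' ≠ some j ∧ z' ≠ some k
    · obtain ⟨h1, h2, h3, h4, h5, h6⟩ := hc
      have e : (Z (x', y', z')).card = ({v : ι ⊕ ι → F | brk14 (s v) x' y' z' = 0}).ncard := by
        rw [← Set.ncard_coe_finset]
        congr 1
        ext v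
        simp only [Z, Finset.coe_filter, Finset.mem_univ, true_and, Set.mem_ofPred_eq]
        exact ⟨fun h => h.2.2.2.2.2.2, fun h => ⟨h1, h2, h3, h4, h5, h6, h⟩⟩
      rw [e]
      rcases z' with _ | r
      · rcases x' with _ | i'
        · exact absurd rfl h3
        · rcases y' with _ | j'
          · exact absurd rfl h2
          · obtain ⟨κ₁, t⟩ := hnone h4.symm i' j' fun h => h1 (by rw [h])
            have t' : Thin14 κ₁ {v : ι ⊕ ι → F | brk14 (s v) (some i') (some j') none = 0} := by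
              refine t.mono ?_
              intro v hv
              rw [Set.mem_ofPred_eq, brk14_none] at hv
              exact sub_eq_zero.mp hv
            have h7 : ({v : ι ⊕ ι → F | brk14 (s v) (some i') (some j') none = 0}).ncard * q ≤
                q ^ N := t'.card
            exact h7.trans (by omega)
      · have hrj : r ≠ j := fun h => h5 (by rw [h])
        have hrk : r ≠ k := fun h => h6 (by rw [h])
        refine thin_brk14 ?_ ?_ (hsol1 r h4 hrj hrk) (hsol2 r h4 hrj hrk) hZ3 x' y' h1 h3 h2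
        · rcases hκ with h | h
          · rw [h]
            simpa using hrk
          · rw [h]
            simp
        · rcases hκ with h | h
          · rw [h]
            simp
          · rw [h]
            simpa using hrk
    · have e : Z (x', y', z') = ∅ := by
        rw [Finset.filter_eq_empty_iff]
        intro v _ h
        exact hc ⟨h.1, h.2.1, h.2.2.1, h.2.2.2.1, h.2.2.2.2.1, h.2.2.2.2.2.1⟩
      rw [e]
      simp
  have hBcard : B.ncard * q ≤ 3 * (Fintype.card ι + 1) ^ 3 * q ^ N := by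
    have h1 : B.ncard ≤ ∑ t : Tr, (Z t).card := by
      have h2 : B ⊆ ((Finset.univ.biUnion Z : Finset (ι ⊕ ι → F)) : Set (ι ⊕ ι → F)) := by
        rintro v ⟨x', y', z', h⟩
        rw [Finset.mem_coe, Finset.mem_biUnion]
        exact ⟨(x', y', z'), Finset.mem_univ _, by
          simp only [Z, Finset.mem_filter, Finset.mem_univ, true_and]
          exact h⟩
      have h3 := Set.ncard_le_ncard h2 (Set.toFinite _)
      rw [Set.ncard_coe_finset] at h3
      exact h3.trans Finset.card_biUnion_le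
    calc B.ncard * q ≤ (∑ t : Tr, (Z t).card) * q := Nat.mul_le_mul_right _ h1
      _ = ∑ t : Tr, (Z t).card * q := by rw [Finset.sum_mul]
      _ ≤ ∑ _t : Tr, 3 * q ^ N := Finset.sum_le_sum fun t _ => hZ t
      _ = 3 * (Fintype.card ι + 1) ^ 3 * q ^ N := by
        rw [Finset.sum_const, Finset.card_univ, Fintype.card_prod, Fintype.card_prod,
          Fintype.card_option, smul_eq_mul]
        ring
  -- the good set
  have hgood : (Bᶜ).ncard ≤ S.ncard * q := by
    have h1 : (S ×ˢ (Set.univ : Set F)).ncard = S.ncard * q := by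
      rw [Set.ncard_prod, Set.ncard_univ, Nat.card_eq_fintype_card]
    rw [← h1]
    refine Set.ncard_le_ncard_of_injOn (fun v => (s v, v κ₀)) ?_ ?_ (Set.toFinite _)
    · intro v hv
      refine ⟨⟨hzero v hv, hv⟩, Set.mem_univ _⟩
    · intro v _ w _ hvw
      simp only [Prod.mk.injEq] at hvw
      funext i
      by_cases hi : i = κ₀
      · rw [hi]
        exact hvw.2
      · have h2 := congrFun hvw.1 i
        simp only [hs] at h2
        rwa [Function.update_of_ne hi, Function.update_of_ne hi] at h2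
  have htot : B.ncard + (Bᶜ).ncard = q ^ N := by
    rw [Set.ncard_add_ncard_compl, Nat.card_eq_fintype_card, Fintype.card_fun]
  calc q ^ N * q = B.ncard * q + (Bᶜ).ncard * q := by rw [← htot]; ring
    _ ≤ 3 * (Fintype.card ι + 1) ^ 3 * q ^ N + (S.ncard * q) * q :=
      Nat.add_le_add hBcard (Nat.mul_le_mul_right _ hgood)
    _ = S.ncard * q * q + 3 * (Fintype.card ι + 1) ^ 3 * q ^ N := by ring

/-- The number of the points over `F` where exactly one bracket vanishes. -/
theorem count_brk14 (x : Option ι) (j k : ι) (hxj : x ≠ some j) (hxk : x ≠ some k) (hjk : j ≠ k) :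
    Fintype.card F ^ Fintype.card (ι ⊕ ι) * Fintype.card F ≤
      ({v : ι ⊕ ι → F | brk14 v x (some j) (some k) = 0 ∧
        ¬ Bad14 x (some j) (some k) v}).ncard * Fintype.card F * Fintype.card F +
      3 * (Fintype.card ι + 1) ^ 3 * Fintype.card F ^ Fintype.card (ι ⊕ ι) := by
  rcases x with _ | i
  · -- solve for `b k`
    refine count_gen14 (κ₀ := Sum.inr k) (sol := fun v => v (Sum.inr j)) none j k (Or.inr rfl)
      (fun r _ _ _ v c => Function.update_of_ne (by simp) _ _)
      (fun r _ h _ v c => Function.update_of_ne (by simpa using h.symm) _ _) ?_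
      (fun h => absurd rfl h) ?_
    · intro i' j' h
      refine ⟨Sum.inl i', (thin_a14 i' j' h).mono ?_⟩
      rintro v ⟨h1, -⟩
      rwa [Function.update_of_ne (by simp), Function.update_of_ne (by simp)] at h1
    · intro v _
      rw [brk14_none', Function.update_self, Function.update_of_ne (by simpa using hjk), sub_self]
  · -- solve for `a k`
    have hij : i ≠ j := fun h => hxj (by rw [h])
    have hik : i ≠ k := fun h => hxk (by rw [h])
    refine count_gen14 (κ₀ := Sum.inl k) (sol := fun v =>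
      -(cf2 v (some i) (some j) * v (Sum.inr k) + cf3 v (some i) (some j)) /
        cf1 v (some i) (some j)) (some i) j k (Or.inl rfl) ?_ ?_ ?_ ?_ ?_
    · intro r hr1 hr2 hr3 v c
      have e1 : some i ≠ some r := hr1.symm
      have e2 : some j ≠ some r := fun h => hr2 (Option.some.inj h).symm
      simp only [cf1, cf2, cf3]
      rw [pb14_update_inl, pb14_update_inl, pa14_update_inl _ _ _ e1, pa14_update_inl _ _ _ e2,
        Function.update_of_ne (by simp)]
    · intro r hr1 hr2 hr3 v c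
      have e1 : some i ≠ some r := hr1.symm
      have e2 : some j ≠ some r := fun h => hr2 (Option.some.inj h).symm
      simp only [cf1, cf2, cf3]
      rw [pb14_update_inr _ _ _ e1, pb14_update_inr _ _ _ e2, pa14_update_inr, pa14_update_inr,
        Function.update_of_ne (by simpa using hr3.symm)]
    · intro i' j' h
      refine ⟨Sum.inr i', (thin_b14 i' j' h).mono ?_⟩
      rintro v ⟨-, h1⟩
      rwa [Function.update_of_ne (by simp), Function.update_of_ne (by simp)] at h1
    · intro _ i' j' h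
      refine ⟨Sum.inr i', (thin_b14 i' j' h).mono ?_⟩
      intro v h1
      rw [Set.mem_ofPred_eq] at h1
      rwa [Function.update_of_ne (by simp), Function.update_of_ne (by simp)] at h1
    · intro v hv
      set c : F := -(cf2 v (some i) (some j) * v (Sum.inr k) + cf3 v (some i) (some j)) /
        cf1 v (some i) (some j) with hc
      have e1 : some i ≠ some k := hxk
      have e2 : some j ≠ some k := fun h => hjk (Option.some.inj h)
      have h1 : cf1 v (some i) (some j) ≠ 0 := by
        intro h0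
        apply hv
        refine ⟨some i, some j, none, hxj, by simp, by simp, by simp, by simp, by simp, ?_⟩
        rw [brk14_none, Function.update_of_ne (by simp), Function.update_of_ne (by simp)]
        simpa [cf1, pc14, pb14] using h0
      rw [brk14_some]
      have e3 : cf1 (Function.update v (Sum.inl k) c) (some i) (some j) =
          cf1 v (some i) (some j) := by
        unfold cf1
        rw [pb14_update_inl, pb14_update_inl]
      have e4 : cf2 (Function.update v (Sum.inl k) c) (some i) (some j) =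
          cf2 v (some i) (some j) := by
        unfold cf2
        rw [pa14_update_inl _ _ _ e1, pa14_update_inl _ _ _ e2]
      have e5 : cf3 (Function.update v (Sum.inl k) c) (some i) (some j) =
          cf3 v (some i) (some j) := by
        unfold cf3
        rw [pb14_update_inl, pb14_update_inl, pa14_update_inl _ _ _ e1, pa14_update_inl _ _ _ e2]
      rw [e3, e4, e5, Function.update_self, Function.update_of_ne (by simp), hc,
        mul_div_cancel₀ _ h1]
      ring

end count

end Pool.Agent.Lib.MP_89bcae_ag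

end

section

/-!
# Antisymmetric functions on pairs: a criterion to be a coboundary
-/

open scoped Classical

set_option linter.unusedSimpArgs false

namespace Pool.Agent.Lib.MP_89bcae_ag

variable {ι : Type} {F : Type} [Field F]

/-- The antisymmetric function of the oriented triangle `i j l` with weights: its value on an edge is
the weight of the opposite vertex. -/
noncomputable def triw14 (w : ι → F) (i j l a b : ι) : F :=
  (if a = i ∧ b = j then w l else 0) + (if a = j ∧ b = l then w i else 0) +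
    (if a = l ∧ b = i then w j else 0) - (if b = i ∧ a = j then w l else 0) -
    (if b = j ∧ a = l then w i else 0) - (if b = l ∧ a = i then w j else 0)

/-- If the sums over all the triangles vanish the function is a coboundary. -/
lemma cut_of_zero14 [Nonempty ι] (ε : ι → ι → F) (hε : ∀ i j, i ≠ j → ε j i = - ε i j)
    (h : ∀ i j l, i ≠ j → j ≠ l → i ≠ l → ε i j + ε j l + ε l i = 0) :
    ∃ a : ι → F, ∀ i j, i ≠ j → ε i j = a j - a i := by
  obtain ⟨o⟩ := ‹Nonempty ι›
  refine ⟨fun j => if j = o then 0 else ε o j, fun i j hij => ?_⟩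
  beta_reduce
  by_cases hi : i = o
  · subst hi
    rw [if_pos rfl, if_neg (Ne.symm hij), sub_zero]
  · by_cases hj : j = o
    · subst hj
      rw [if_pos rfl, if_neg hi, zero_sub, hε i j hij, neg_neg]
    · rw [if_neg hi, if_neg hj]
      have h1 := h o i j (Ne.symm hi) hij (Ne.symm hj)
      have h2 := hε o j (Ne.symm hj)
      rw [h2] at h1
      linear_combination h1

/-- The criterion. -/
theorem cut_of_triw14 [Fintype ι] (hm : 4 ≤ Fintype.card ι) (w : ι → F) (hw : ∀ i, w i ≠ 0)
    (hs : ∑ i, w i ≠ 0) (h2 : (2 : F) = 0 → ∀ i, w i = 1) (ε : ι → ι → F)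
    (hε : ∀ i j, i ≠ j → ε j i = - ε i j)
    (H : ∀ i j l, i ≠ j → j ≠ l → i ≠ l → ∃ (k : F) (γ : ι → F), ∀ a b, a ≠ b →
      k * ε a b + γ a - γ b = (ε i j + ε j l + ε l i) * triw14 w i j l a b) :
    ∃ a : ι → F, ∀ i j, i ≠ j → ε i j = a j - a i := by
  have : Nonempty ι := by
    rw [← Fintype.card_pos_iff]
    omega
  apply cut_of_zero14 ε hε
  by_contra hcon
  push Not at hcon
  obtain ⟨i, j, l, hij, hjl, hil, hne⟩ := hcon
  -- the general identity
  have key : ∀ i j l, i ≠ j → j ≠ l → i ≠ l → ∃ k : F, ∀ a b c, a ≠ b → b ≠ c → a ≠ c →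
      k * (ε a b + ε b c + ε c a) = (ε i j + ε j l + ε l i) *
        (triw14 w i j l a b + triw14 w i j l b c + triw14 w i j l c a) := by
    intro i j l hij hjl hil
    obtain ⟨k, γ, hk⟩ := H i j l hij hjl hil
    refine ⟨k, fun a b c hab hbc hac => ?_⟩
    linear_combination hk a b hab + hk b c hbc + hk c a (Ne.symm hac)
  have hk3 : ∀ i j l, i ≠ j → j ≠ l → i ≠ l → ε i j + ε j l + ε l i ≠ 0 →
      ∀ a b c, a ≠ b → b ≠ c → a ≠ c →
      (w i + w j + w l) * (ε a b + ε b c + ε c a) = (ε i j + ε j l + ε l i) *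
        (triw14 w i j l a b + triw14 w i j l b c + triw14 w i j l c a) := by
    intro i j l hij hjl hil hne
    obtain ⟨k, hk⟩ := key i j l hij hjl hil
    have h1 := hk i j l hij hjl hil
    have e1 : triw14 w i j l i j = w l := by
      simp [triw14, hij, hij.symm, hjl, hjl.symm, hil, hil.symm]
    have e2 : triw14 w i j l j l = w i := by
      simp [triw14, hij, hij.symm, hjl, hjl.symm, hil, hil.symm]
    have e3 : triw14 w i j l l i = w j := by
      simp [triw14, hij, hij.symm, hjl, hjl.symm, hil, hil.symm]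
    rw [e1, e2, e3] at h1
    have h2 : k = w i + w j + w l := by
      apply mul_right_cancel₀ hne
      rw [h1]
      ring
    rw [h2] at hk
    exact hk
  -- one step: a fourth index `d` and the edge `i j`
  have step : ∀ i j l d, i ≠ j → j ≠ l → i ≠ l → d ≠ i → d ≠ j → d ≠ l →
      ε i j + ε j l + ε l i ≠ 0 → ε i j + ε j d + ε d i ≠ 0 ∧
        (w i + w j) * (w i + w j + w l + w d) = 0 := by
    intro i j l d hij hjl hil hdi hdj hdl hne
    have h1 := hk3 i j l hij hjl hil hne i j d hij (Ne.symm hdj) (Ne.symm hdi)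
    have e1 : triw14 w i j l i j = w l := by
      simp [triw14, hij, hij.symm, hjl, hjl.symm, hil, hil.symm]
    have e2 : triw14 w i j l j d = 0 := by
      simp [triw14, hij, hij.symm, hjl, hjl.symm, hil, hil.symm, hdi, hdj, hdl, Ne.symm hdi,
        Ne.symm hdj, Ne.symm hdl]
    have e3 : triw14 w i j l d i = 0 := by
      simp [triw14, hij, hij.symm, hjl, hjl.symm, hil, hil.symm, hdi, hdj, hdl, Ne.symm hdi,
        Ne.symm hdj, Ne.symm hdl]
    rw [e1, e2, e3, add_zero, add_zero] at h1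
    have hne' : ε i j + ε j d + ε d i ≠ 0 := by
      intro h0
      rw [h0, mul_zero] at h1
      exact mul_ne_zero hne (hw l) h1.symm
    refine ⟨hne', ?_⟩
    have h2 := hk3 i j d hij (Ne.symm hdj) (Ne.symm hdi) hne' i j l hij hjl hil
    have e4 : triw14 w i j d i j = w d := by
      simp [triw14, hij, hij.symm, hdi, hdj, Ne.symm hdi, Ne.symm hdj]
    have e5 : triw14 w i j d j l = 0 := by
      simp [triw14, hij, hij.symm, hjl, hjl.symm, hil, hil.symm, hdi, hdj, hdl, Ne.symm hdi,
        Ne.symm hdj, Ne.symm hdl]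
    have e6 : triw14 w i j d l i = 0 := by
      simp [triw14, hij, hij.symm, hjl, hjl.symm, hil, hil.symm, hdi, hdj, hdl, Ne.symm hdi,
        Ne.symm hdj, Ne.symm hdl]
    rw [e4, e5, e6, add_zero, add_zero] at h2
    have h3 : (ε i j + ε j l + ε l i) * ((w i + w j) * (w i + w j + w l + w d)) = 0 := by
      linear_combination (w d) * h1 + (w i + w j + w l) * h2
    exact (mul_eq_zero.1 h3).resolve_left hne
  -- the sum of four weights vanishes
  have sum4 : ∀ i j l d, i ≠ j → j ≠ l → i ≠ l → d ≠ i → d ≠ j → d ≠ l →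
      ε i j + ε j l + ε l i ≠ 0 → w i + w j + w l + w d = 0 := by
    intro i j l d hij hjl hil hdi hdj hdl hne
    by_contra hS
    have a1 := (step i j l d hij hjl hil hdi hdj hdl hne).2
    have a2 := (step j l i d hjl hil.symm hij.symm hdj hdl hdi
      (fun h => hne (by linear_combination h))).2
    have a3 := (step l i j d hil.symm hij hjl.symm hdl hdi hdj
      (fun h => hne (by linear_combination h))).2
    have b1 := (mul_eq_zero.1 a1).resolve_right hS
    have b2 := (mul_eq_zero.1 a2).resolve_right (by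
      intro h
      apply hS
      linear_combination h)
    have b3 := (mul_eq_zero.1 a3).resolve_right (by
      intro h
      apply hS
      linear_combination h)
    have b4 : (2 : F) * w i = 0 := by linear_combination b1 + b3 - b2
    rcases mul_eq_zero.1 b4 with h | h
    · apply hS
      rw [h2 h i, h2 h j, h2 h l, h2 h d]
      linear_combination 2 * h
    · exact hw i h
  -- a fourth index
  obtain ⟨d, hd⟩ : ∃ d, d ∉ ({i, j, l} : Finset ι) := by
    by_contra h
    push Not at h
    have h1 : Fintype.card ι ≤ ({i, j, l} : Finset ι).card := by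
      rw [← Finset.card_univ]
      exact Finset.card_le_card fun x _ => h x
    have h2 : ({i, j, l} : Finset ι).card ≤ 3 := Finset.card_le_three
    omega
  simp only [Finset.mem_insert, Finset.mem_singleton, not_or] at hd
  obtain ⟨hdi, hdj, hdl⟩ := hd
  have h4 := sum4 i j l d hij hjl hil hdi hdj hdl hne
  by_cases h5 : ∃ f, f ∉ ({i, j, l, d} : Finset ι)
  · obtain ⟨f, hf⟩ := h5
    simp only [Finset.mem_insert, Finset.mem_singleton, not_or] at hf
    obtain ⟨hfi, hfj, hfl, hfd⟩ := hf
    have h4' := sum4 i j l f hij hjl hil hfi hfj hfl hne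
    have hne' := (step i j l d hij hjl hil hdi hdj hdl hne).1
    have hA := hk3 i j l hij hjl hil hne i d f (Ne.symm hdi) (Ne.symm hfd) (Ne.symm hfi)
    have hB := hk3 i j d hij (Ne.symm hdj) (Ne.symm hdi) hne' i d f (Ne.symm hdi) (Ne.symm hfd)
      (Ne.symm hfi)
    have e1 : triw14 w i j l i d = 0 := by
      simp [triw14, hij, hij.symm, hjl, hjl.symm, hil, hil.symm, hdi, hdj, hdl, Ne.symm hdi,
        Ne.symm hdj, Ne.symm hdl]
    have e2 : triw14 w i j l d f = 0 := by
      simp [triw14, hij, hij.symm, hjl, hjl.symm, hil, hil.symm, hdi, hdj, hdl, Ne.symm hdi,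
        Ne.symm hdj, Ne.symm hdl, hfi, hfj, hfl, hfd]
    have e3 : triw14 w i j l f i = 0 := by
      simp [triw14, hij, hij.symm, hjl, hjl.symm, hil, hil.symm, hfi, hfj, hfl, Ne.symm hfi,
        Ne.symm hfj, Ne.symm hfl]
    have e4 : triw14 w i j d i d = -w j := by
      simp [triw14, hij, hij.symm, hdi, hdj, Ne.symm hdi, Ne.symm hdj]
    have e5 : triw14 w i j d d f = 0 := by
      simp [triw14, hij, hij.symm, hdi, hdj, Ne.symm hdi, Ne.symm hdj, hfi, hfj, hfd, Ne.symm hfd]
    have e6 : triw14 w i j d f i = 0 := by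
      simp [triw14, hij, hij.symm, hdi, hdj, Ne.symm hdi, Ne.symm hdj, hfi, hfj, hfd, Ne.symm hfd,
        Ne.symm hfi, Ne.symm hfj]
    rw [e1, e2, e3, add_zero, add_zero, mul_zero] at hA
    rw [e4, e5, e6, add_zero, add_zero] at hB
    have hW : w i + w j + w l ≠ 0 := by
      intro h0
      apply hw d
      linear_combination h4 - h0
    have h0 := (mul_eq_zero.1 hA).resolve_left hW
    rw [h0, mul_zero] at hB
    exact mul_ne_zero hne' (neg_ne_zero.2 (hw j)) hB.symm
  · push Not at h5
    apply hs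
    have h6 : (Finset.univ : Finset ι) = {i, j, l, d} := by
      ext x
      exact ⟨fun _ => h5 x, fun _ => Finset.mem_univ x⟩
    rw [h6, Finset.sum_insert (by simp [hij, hil, Ne.symm hdi]),
      Finset.sum_insert (by simp [hjl, Ne.symm hdj]), Finset.sum_pair (Ne.symm hdl)]
    linear_combination h4

end Pool.Agent.Lib.MP_89bcae_ag

end

section

/-!
# Families of polynomials whose differences have simple and distinct roots
-/

open Polynomial

open scoped Classical

namespace Pool.Agent.Lib.MP_89bcae_ag.Sup.Lns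

universe u

variable {ι : Type} [Fintype ι] [LinearOrder ι] {F : Type u} [Field F]

/-- The product of the differences `a_i - a_j`, `i < j`. -/
noncomputable def disc (a : ι → F[X]) : F[X] :=
  ∏ i, ∏ j ∈ Finset.univ.filter (fun j => i < j), (a i - a j)

/-- The roots of the differences. -/
noncomputable def SS (a : ι → F[X]) : Finset F := (disc a).roots.toFinset

/-- The differences have simple and distinct roots, and they are not constant. -/
structure AGeom (a : ι → F[X]) : Prop where
  sep : (disc a).Separable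
  pos : ∀ i j, i ≠ j → (a i - a j).natDegree ≠ 0

omit [LinearOrder ι] in
/-- The polynomial `∏ (x - a_i(t))`. -/
noncomputable def lineP {M : Type u} [Field M] [Algebra F M] (a : ι → F[X]) (t : M) : M[X] :=
  ∏ i, (X - C (aeval t (a i)))

lemma disc_map {k : Type u} [Field k] (φ : k →+* F) (a : ι → k[X]) :
    disc (fun i => (a i).map φ) = (disc a).map φ := by
  unfold disc
  rw [Polynomial.map_prod]
  refine Finset.prod_congr rfl fun i _ => ?_
  rw [Polynomial.map_prod]
  refine Finset.prod_congr rfl fun j _ => ?_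
  rw [Polynomial.map_sub]

lemma AGeom.map {k : Type u} [Field k] (φ : k →+* F) {a : ι → k[X]} (h : AGeom a) :
    AGeom (fun i => (a i).map φ) := by
  refine ⟨?_, fun i j hij => ?_⟩
  · rw [disc_map]
    exact h.sep.map
  · rw [← Polynomial.map_sub, natDegree_map]
    exact h.pos i j hij

variable {a : ι → F[X]}

lemma dvd_disc {i j : ι} (hij : i < j) : a i - a j ∣ disc a := by
  unfold disc
  exact (Finset.dvd_prod_of_mem (fun j => a i - a j)
    (Finset.mem_filter.2 ⟨Finset.mem_univ j, hij⟩)).trans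
    (Finset.dvd_prod_of_mem (fun i => ∏ j ∈ Finset.univ.filter (fun j => i < j), (a i - a j))
      (Finset.mem_univ i))

lemma mul_dvd_disc {i j k l : ι} (hij : i < j) (hkl : k < l) (hne : (i, j) ≠ (k, l)) :
    (a i - a j) * (a k - a l) ∣ disc a := by
  have h1 : disc a = ∏ q ∈ (Finset.univ : Finset (ι × ι)).filter (fun q => q.1 < q.2),
      (a q.1 - a q.2) := by
    unfold disc
    rw [← Finset.univ_product_univ, Finset.prod_filter, Finset.prod_product]
    refine Finset.prod_congr rfl fun i _ => ?_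
    rw [Finset.prod_filter]
  rw [h1]
  have h2 : (∏ q ∈ ({(i, j), (k, l)} : Finset (ι × ι)), (a q.1 - a q.2)) =
      (a i - a j) * (a k - a l) := Finset.prod_pair hne
  rw [← h2]
  apply Finset.prod_dvd_prod_of_subset
  intro q hq
  rw [Finset.mem_insert, Finset.mem_singleton] at hq
  rw [Finset.mem_filter]
  rcases hq with rfl | rfl
  · exact ⟨Finset.mem_univ _, hij⟩
  · exact ⟨Finset.mem_univ _, hkl⟩

lemma AGeom.disc_ne (h : AGeom a) : disc a ≠ 0 := h.sep.ne_zero

lemma AGeom.ne (h : AGeom a) {i j : ι} (hij : i ≠ j) : a i - a j ≠ 0 := by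
  intro h0
  apply h.pos i j hij
  rw [h0, natDegree_zero]

lemma mem_SS (h : AGeom a) {s : F} :
    s ∈ SS a ↔ ∃ i j, i ≠ j ∧ (a i).eval s = (a j).eval s := by
  unfold SS
  rw [Multiset.mem_toFinset, mem_roots h.disc_ne, IsRoot.def]
  constructor
  · intro h0
    unfold disc at h0
    rw [eval_prod, Finset.prod_eq_zero_iff] at h0
    obtain ⟨i, -, hi⟩ := h0
    rw [eval_prod, Finset.prod_eq_zero_iff] at hi
    obtain ⟨j, hj, hij⟩ := hi
    rw [Finset.mem_filter] at hj
    rw [eval_sub, sub_eq_zero] at hij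
    exact ⟨i, j, hj.2.ne, hij⟩
  · rintro ⟨i, j, hij, h1⟩
    rcases lt_or_gt_of_ne hij with h2 | h2
    · obtain ⟨q, hq⟩ := dvd_disc (a := a) h2
      rw [hq, eval_mul, eval_sub, h1, sub_self, zero_mul]
    · obtain ⟨q, hq⟩ := dvd_disc (a := a) h2
      rw [hq, eval_mul, eval_sub, h1, sub_self, zero_mul]

lemma mem_SS_of_eq (h : AGeom a) {s : F} {i j : ι} (hij : i ≠ j)
    (hs : (a i).eval s = (a j).eval s) : s ∈ SS a := (mem_SS h).2 ⟨i, j, hij, hs⟩

private lemma ab_simple (h : AGeom a) {s : F} {i j : ι} (hij : i < j)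
    (hs : (a i).eval s = (a j).eval s) : (derivative (a i - a j)).eval s ≠ 0 := by
  intro h0
  have h1 : (a i - a j).Separable := h.sep.of_dvd (dvd_disc hij)
  obtain ⟨u, w, huw⟩ := h1
  have h2 := congrArg (eval s) huw
  rw [eval_add, eval_mul, eval_mul, h0, eval_sub, hs, sub_self, mul_zero, mul_zero, add_zero,
    eval_one] at h2
  exact zero_ne_one h2

/-- The roots of the differences are simple. -/
lemma AGeom.simple (h : AGeom a) {s : F} {i j : ι} (hij : i ≠ j)
    (hs : (a i).eval s = (a j).eval s) : (derivative (a i - a j)).eval s ≠ 0 := by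
  rcases lt_or_gt_of_ne hij with h2 | h2
  · exact ab_simple h h2 hs
  · have h3 := ab_simple h h2 hs.symm
    intro h0
    apply h3
    rw [derivative_sub, eval_sub] at h0 ⊢
    rw [← neg_sub, h0, neg_zero]

private lemma ab_pair (h : AGeom a) {s : F} {i j k l : ι} (hij : i < j) (hkl : k < l)
    (hs : (a i).eval s = (a j).eval s) (hs' : (a k).eval s = (a l).eval s) :
    (i, j) = (k, l) := by
  by_contra hne
  have h1 : ((a i - a j) * (a k - a l)).Separable := h.sep.of_dvd (mul_dvd_disc hij hkl hne)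
  obtain ⟨u, w, huw⟩ := h1.isCoprime
  have h2 := congrArg (eval s) huw
  rw [eval_add, eval_mul, eval_mul, eval_sub, eval_sub, hs, hs', sub_self, sub_self, mul_zero,
    mul_zero, add_zero, eval_one] at h2
  exact zero_ne_one h2

/-- The roots of the differences are distinct. -/
lemma AGeom.third (h : AGeom a) {s : F} {i j l : ι} (hij : i ≠ j) (hli : l ≠ i) (hlj : l ≠ j)
    (hs : (a i).eval s = (a j).eval s) : (a l).eval s ≠ (a i).eval s := by
  intro hl
  -- order the pairs `i, j` and `i, l`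
  rcases lt_or_gt_of_ne hij with h1 | h1 <;> rcases lt_or_gt_of_ne hli with h2 | h2
  · have := ab_pair h h1 h2 hs hl
    rw [Prod.mk.injEq] at this
    exact hij this.2.symm
  · have := ab_pair h h1 h2 hs hl.symm
    rw [Prod.mk.injEq] at this
    exact hlj this.2.symm
  · have := ab_pair h h1 h2 hs.symm hl
    rw [Prod.mk.injEq] at this
    exact hlj this.1.symm
  · have := ab_pair h h1 h2 hs.symm hl.symm
    rw [Prod.mk.injEq] at this
    exact hij this.1.symm

lemma AGeom.third' (h : AGeom a) {s : F} {i j l : ι} (hij : i ≠ j) (hli : l ≠ i) (hlj : l ≠ j)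
    (hs : (a i).eval s = (a j).eval s) : (a l).eval s ≠ (a j).eval s := by
  rw [← hs]
  exact h.third hij hli hlj hs

/-- Each root of the differences belongs to exactly one pair. -/
lemma AGeom.pair (h : AGeom a) {s : F} {i j k l : ι} (hij : i ≠ j) (hkl : k ≠ l)
    (hs : (a i).eval s = (a j).eval s) (hs' : (a k).eval s = (a l).eval s) :
    (k = i ∧ l = j) ∨ (k = j ∧ l = i) := by
  by_cases hki : k = i
  · left
    refine ⟨hki, ?_⟩
    by_contra hlj
    subst hki
    exact h.third hij hkl.symm hlj hs hs'.symm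
  · by_cases hkj : k = j
    · right
      refine ⟨hkj, ?_⟩
      by_contra hli
      subst hkj
      exact h.third hij hli hkl.symm hs (hs'.symm.trans hs.symm)
    · exfalso
      by_cases hli : l = i
      · subst hli
        exact h.third hij hki hkj hs hs'
      · by_cases hlj : l = j
        · subst hlj
          exact h.third hij hki hkj hs (hs'.trans hs.symm)
        · -- `i, j, k, l` distinct
          rcases lt_or_gt_of_ne hij with h1 | h1 <;> rcases lt_or_gt_of_ne hkl with h2 | h2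
          · have := ab_pair h h1 h2 hs hs'
            rw [Prod.mk.injEq] at this
            exact hki this.1.symm
          · have := ab_pair h h1 h2 hs hs'.symm
            rw [Prod.mk.injEq] at this
            exact hli this.1.symm
          · have := ab_pair h h1 h2 hs.symm hs'
            rw [Prod.mk.injEq] at this
            exact hkj this.1.symm
          · have := ab_pair h h1 h2 hs.symm hs'.symm
            rw [Prod.mk.injEq] at this
            exact hlj this.1.symm

lemma AGeom.injective (h : AGeom a) : Function.Injective a := by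
  intro i j hij
  by_contra hne
  exact h.ne hne (sub_eq_zero.2 hij)

lemma AGeom.exists_node [IsAlgClosed F] (h : AGeom a) {i j : ι} (hij : i ≠ j) :
    ∃ s, (a i).eval s = (a j).eval s := by
  have h1 : (a i - a j).degree ≠ 0 := by
    intro h0
    apply h.pos i j hij
    exact natDegree_eq_of_degree_eq_some (n := 0) h0
  obtain ⟨s, hs⟩ := IsAlgClosed.exists_root _ h1
  rw [IsRoot.def, eval_sub, sub_eq_zero] at hs
  exact ⟨s, hs⟩

/-- The factorisation of a difference. -/
lemma AGeom.sub_eq [IsAlgClosed F] (h : AGeom a) {i j : ι} (hij : i ≠ j) :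
    a i - a j = C (a i - a j).leadingCoeff *
      ∏ s ∈ (SS a).filter (fun s => (a i).eval s = (a j).eval s), (X - C s) := by
  have h0 := h.ne hij
  have hsep : (a i - a j).Separable := by
    rcases lt_or_gt_of_ne hij with h2 | h2
    · exact h.sep.of_dvd (dvd_disc h2)
    · have h3 : (a j - a i).Separable := h.sep.of_dvd (dvd_disc h2)
      have h4 : a i - a j ∣ a j - a i := ⟨-1, by ring⟩
      exact h3.of_dvd h4
  have hnd : (a i - a j).roots.Nodup := nodup_roots hsep
  have h1 := (IsAlgClosed.splits (a i - a j)).eq_prod_roots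
  have h2 : ((a i - a j).roots.map fun s => X - C s).prod =
      ∏ s ∈ (SS a).filter (fun s => (a i).eval s = (a j).eval s), (X - C s) := by
    have h3 : (SS a).filter (fun s => (a i).eval s = (a j).eval s) =
        (a i - a j).roots.toFinset := by
      ext s
      rw [Finset.mem_filter, Multiset.mem_toFinset, mem_roots h0, IsRoot.def, eval_sub,
        sub_eq_zero]
      exact ⟨fun h => h.2, fun h' => ⟨mem_SS_of_eq h hij h', h'⟩⟩
    rw [h3, Finset.prod, Multiset.toFinset_val, hnd.dedup]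
  rw [h2] at h1
  exact h1

end Pool.Agent.Lib.MP_89bcae_ag.Sup.Lns

end

section

/-!
# Lines over a field: the arithmetic condition
-/

open Polynomial

open scoped Classical

set_option linter.unusedSectionVars false
set_option linter.unusedSimpArgs false
set_option linter.style.haveILetI false

namespace Pool.Agent.Lib.MP_89bcae_ag

universe u

/-- A homomorphism from the multiplicative group to `ZMod ℓ`, trivial at `-1`. -/
structure Val14 (k : Type u) [Field k] (ℓ : ℕ) where
  ν : k → ZMod ℓ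
  mul : ∀ x y, x ≠ 0 → y ≠ 0 → ν (x * y) = ν x + ν y
  neg_one : ν (-1) = 0

namespace Val14

variable {k : Type u} [Field k] {ℓ : ℕ} (V : Val14 k ℓ)

lemma one : V.ν 1 = 0 := by
  have h := V.mul 1 1 one_ne_zero one_ne_zero
  rw [mul_one] at h
  exact left_eq_add.1 h

lemma neg {x : k} (hx : x ≠ 0) : V.ν (-x) = V.ν x := by
  have h2 := V.mul (-1) x (neg_ne_zero.2 one_ne_zero) hx
  rw [neg_one_mul, V.neg_one, zero_add] at h2
  exact h2

lemma inv {x : k} (hx : x ≠ 0) : V.ν x⁻¹ = -V.ν x := by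
  have h := V.mul x x⁻¹ hx (inv_ne_zero hx)
  rw [mul_inv_cancel₀ hx, V.one] at h
  linear_combination -h

lemma div {x y : k} (hx : x ≠ 0) (hy : y ≠ 0) : V.ν (x / y) = V.ν x - V.ν y := by
  rw [div_eq_mul_inv, V.mul _ _ hx (inv_ne_zero hy), V.inv hy]
  ring

lemma pow {x : k} (hx : x ≠ 0) (n : ℕ) : V.ν (x ^ n) = n * V.ν x := by
  induction n with
  | zero => simp [V.one]
  | succ n ih =>
    rw [pow_succ, V.mul _ _ (pow_ne_zero _ hx) hx, ih]
    push_cast
    ring

lemma zpow {x : k} (hx : x ≠ 0) (n : ℤ) : V.ν (x ^ n) = n * V.ν x := by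
  obtain ⟨m, rfl | rfl⟩ := n.eq_nat_or_neg
  · rw [zpow_natCast, V.pow hx, Int.cast_natCast]
  · rw [zpow_neg, V.inv (zpow_ne_zero _ hx), zpow_natCast, V.pow hx]
    push_cast
    ring

lemma prod {κ : Type*} (s : Finset κ) (f : κ → k) (hf : ∀ i ∈ s, f i ≠ 0) :
    V.ν (∏ i ∈ s, f i) = ∑ i ∈ s, V.ν (f i) := by
  induction s using Finset.induction_on with
  | empty => simp [V.one]
  | insert a s ha ih =>
    rw [Finset.prod_insert ha, Finset.sum_insert ha,
      V.mul _ _ (hf a (Finset.mem_insert_self a s))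
        (Finset.prod_ne_zero_iff.2 fun i hi => hf i (Finset.mem_insert_of_mem hi)),
      ih fun i hi => hf i (Finset.mem_insert_of_mem hi)]

end Val14

section

variable {ι : Type} [Fintype ι] [LinearOrder ι] {k : Type u} [Field k]

/-- The line with intercept `v (inl i)` and slope `v (inr i)`. -/
noncomputable def lin14 (v : ι ⊕ ι → k) (i : ι) : k[X] :=
  C (v (Sum.inl i)) + C (v (Sum.inr i)) * X

/-- No two lines are parallel and no two intersection points have the same abscissa. -/
structure Gen14 (v : ι ⊕ ι → k) : Prop where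
  slope : ∀ i j, i ≠ j → v (Sum.inr i) ≠ v (Sum.inr j)
  node : ∀ i j l m, i ≠ j → l ≠ m → ¬ (l = i ∧ m = j) → ¬ (l = j ∧ m = i) →
    (v (Sum.inl i) - v (Sum.inl j)) * (v (Sum.inr l) - v (Sum.inr m)) ≠
      (v (Sum.inl l) - v (Sum.inl m)) * (v (Sum.inr i) - v (Sum.inr j))

variable {v : ι ⊕ ι → k}

lemma lin14_sub (i j : ι) : lin14 v i - lin14 v j =
    C (v (Sum.inl i) - v (Sum.inl j)) + C (v (Sum.inr i) - v (Sum.inr j)) * X := by
  unfold lin14
  rw [C_sub, C_sub]
  ring

lemma Gen14.slope_ne (h : Gen14 v) {i j : ι} (hij : i ≠ j) :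
    v (Sum.inr i) - v (Sum.inr j) ≠ 0 := sub_ne_zero.2 (h.slope i j hij)

lemma Gen14.geom (h : Gen14 v) : Sup.Lns.AGeom (lin14 v) := by
  have hlin : ∀ c d : k, d ≠ 0 → (C c + C d * X : k[X]).Separable := by
    intro c d hd
    rw [separable_def]
    have h1 : derivative (C c + C d * X : k[X]) = C d := by simp
    rw [h1]
    exact ⟨0, C d⁻¹, by rw [zero_mul, zero_add, ← C_mul, inv_mul_cancel₀ hd, C_1]⟩
  refine ⟨?_, fun i j hij => ?_⟩
  · unfold Sup.Lns.disc
    have h1 : (∏ i, ∏ j ∈ Finset.univ.filter (fun j => i < j), (lin14 v i - lin14 v j)) =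
        ∏ q ∈ (Finset.univ : Finset (ι × ι)).filter (fun q => q.1 < q.2),
        (lin14 v q.1 - lin14 v q.2) := by
      rw [← Finset.univ_product_univ, Finset.prod_filter, Finset.prod_product]
      refine Finset.prod_congr rfl fun i _ => ?_
      rw [Finset.prod_filter]
    rw [h1]
    apply separable_prod'
    · rintro ⟨i, j⟩ hij ⟨l, m⟩ hlm hne
      rw [Finset.mem_filter] at hij hlm
      have hij' : i < j := hij.2
      have hlm' : l < m := hlm.2
      have h2 := h.node i j l m hij'.ne hlm'.ne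
        (fun hh => hne (by rw [hh.1, hh.2]))
        (fun hh => by
          rw [hh.1, hh.2] at hlm'
          exact absurd hlm' hij'.asymm)
      beta_reduce
      rw [lin14_sub, lin14_sub]
      set Δ : k := (v (Sum.inl i) - v (Sum.inl j)) * (v (Sum.inr l) - v (Sum.inr m)) -
        (v (Sum.inl l) - v (Sum.inl m)) * (v (Sum.inr i) - v (Sum.inr j)) with hΔ
      have h3 : Δ ≠ 0 := sub_ne_zero.2 h2
      refine ⟨C (Δ⁻¹ * (v (Sum.inr l) - v (Sum.inr m))),
        C (-(Δ⁻¹ * (v (Sum.inr i) - v (Sum.inr j)))), ?_⟩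
      have h4 : Δ⁻¹ * ((v (Sum.inl i) - v (Sum.inl j)) * (v (Sum.inr l) - v (Sum.inr m)) -
          (v (Sum.inl l) - v (Sum.inl m)) * (v (Sum.inr i) - v (Sum.inr j))) = 1 := by
        rw [← hΔ]
        exact inv_mul_cancel₀ h3
      have h5 := congrArg (C : k → k[X]) h4
      simp only [C_mul, C_sub, C_1, C_neg] at h5 ⊢
      linear_combination h5
    · rintro ⟨i, j⟩ hij
      rw [Finset.mem_filter] at hij
      have hij' : i < j := hij.2
      beta_reduce
      rw [lin14_sub]
      exact hlin _ _ (h.slope_ne hij'.ne)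
  · rw [lin14_sub, add_comm, natDegree_add_C, natDegree_C_mul_X _ (h.slope_ne hij)]
    exact one_ne_zero

/-- The abscissa of the intersection point. -/
noncomputable def nd14 (v : ι ⊕ ι → k) (i j : ι) : k :=
  -((v (Sum.inl i) - v (Sum.inl j)) / (v (Sum.inr i) - v (Sum.inr j)))

lemma Gen14.eval_eq (h : Gen14 v) {i j : ι} (hij : i ≠ j) (s : k) :
    (lin14 v i).eval s = (lin14 v j).eval s ↔ s = nd14 v i j := by
  rw [← sub_eq_zero, ← eval_sub, lin14_sub]
  simp only [eval_add, eval_C, eval_mul, eval_X]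
  have h0 := h.slope_ne hij
  unfold nd14
  constructor
  · intro h1
    rw [← neg_div, eq_div_iff h0]
    linear_combination h1
  · rintro rfl
    field_simp
    ring

/-- The bracket of three lines. -/
noncomputable abbrev dd14 (v : ι ⊕ ι → k) (i j l : ι) : k := brk14 v (some i) (some j) (some l)

lemma dd14_eq (i j l : ι) : dd14 v i j l =
    (v (Sum.inl i) - v (Sum.inl j)) * (v (Sum.inr i) - v (Sum.inr l)) -
      (v (Sum.inr i) - v (Sum.inr j)) * (v (Sum.inl i) - v (Sum.inl l)) := by
  unfold dd14 brk14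
  simp only [pc14, pa14, pb14]
  ring

lemma Gen14.dd_ne (h : Gen14 v) {i j l : ι} (hij : i ≠ j) (hil : i ≠ l) (hjl : j ≠ l) :
    dd14 v i j l ≠ 0 := by
  rw [dd14_eq, sub_ne_zero]
  have h1 := h.node i j i l hij hil (fun hh => hjl hh.2.symm) (fun hh => hij hh.1)
  intro h2
  apply h1
  rw [h2]
  ring

lemma Gen14.sub1 (h : Gen14 v) {i j l : ι} (hij : i ≠ j) :
    (lin14 v i).eval (nd14 v i j) - (lin14 v l).eval (nd14 v i j) =
      -(dd14 v i j l / (v (Sum.inr i) - v (Sum.inr j))) := by
  have h0 := h.slope_ne hij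
  rw [← eval_sub, lin14_sub, dd14_eq]
  simp only [eval_add, eval_C, eval_mul, eval_X]
  unfold nd14
  field_simp
  ring

lemma Gen14.sub2 (h : Gen14 v) {i j l : ι} (hij : i ≠ j) (hil : i ≠ l) :
    nd14 v i j - nd14 v i l = -(dd14 v i j l / ((v (Sum.inr i) - v (Sum.inr j)) *
      (v (Sum.inr i) - v (Sum.inr l)))) := by
  have h0 := h.slope_ne hij
  have h1 := h.slope_ne hil
  rw [dd14_eq]
  unfold nd14
  field_simp
  ring

lemma Gen14.sub3 (h : Gen14 v) {i j l : ι} (hij : i ≠ j) (hjl : j ≠ l) :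
    nd14 v i j - nd14 v j l = -(dd14 v i j l / ((v (Sum.inr i) - v (Sum.inr j)) *
      (v (Sum.inr j) - v (Sum.inr l)))) := by
  have h0 := h.slope_ne hij
  have h1 := h.slope_ne hjl
  rw [dd14_eq]
  have e1 : v (Sum.inr i) - v (Sum.inr l) =
      (v (Sum.inr i) - v (Sum.inr j)) + (v (Sum.inr j) - v (Sum.inr l)) := by ring
  have e2 : v (Sum.inl i) - v (Sum.inl l) =
      (v (Sum.inl i) - v (Sum.inl j)) + (v (Sum.inl j) - v (Sum.inl l)) := by ring
  rw [e1, e2]
  unfold nd14
  field_simp
  ring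

lemma nd14_symm (i j : ι) : nd14 v j i = nd14 v i j := by
  unfold nd14
  rw [← neg_sub (v (Sum.inl i)), ← neg_sub (v (Sum.inr i)), neg_div_neg_eq]

lemma dd14_rot (i j l : ι) : dd14 v j l i = dd14 v i j l := by
  rw [dd14_eq, dd14_eq]
  ring

lemma dd14_swap (i j l : ι) : dd14 v j i l = -dd14 v i j l := by
  rw [dd14_eq, dd14_eq]
  ring

section comb

variable {F : Type} [Field F]

lemma sum_third14 (d : ι → F) (ε : ι → ι → F) {i j l : ι} {r : F}
    (hil : i ≠ l) (hjl : j ≠ l) (h1 : d l = r)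
    (h0 : ∀ l', l' ≠ i → l' ≠ j → l' ≠ l → d l' = 0) :
    ∑ m ∈ Finset.univ.filter (fun m => m ≠ i ∧ m ≠ j),
      d m * (ε i j + ε j m + ε m i) = r * (ε i j + ε j l + ε l i) := by
  rw [Finset.sum_eq_single l]
  · rw [h1]
  · intro m hm hml
    rw [Finset.mem_filter] at hm
    rw [h0 m hm.2.1 hm.2.2 hml, zero_mul]
  · intro hl
    exact absurd (Finset.mem_filter.2 ⟨Finset.mem_univ l, hil.symm, hjl.symm⟩) hl

/-- If only the triangle `i j l` counts. -/
lemma tri14_value (d : ι → ι → ι → F) (r : F) (ε : ι → ι → F)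
    (hε : ∀ i j, i ≠ j → ε j i = -ε i j) {i j l : ι} (hij : i ≠ j) (hjl : j ≠ l) (hil : i ≠ l)
    (h1 : ∀ a b c, a ≠ b → b ≠ c → a ≠ c → a ∈ ({i, j, l} : Set ι) → b ∈ ({i, j, l} : Set ι) →
      c ∈ ({i, j, l} : Set ι) → d a b c = r)
    (h0 : ∀ a b c, a ≠ b → b ≠ c → a ≠ c →
      ¬ (a ∈ ({i, j, l} : Set ι) ∧ b ∈ ({i, j, l} : Set ι) ∧ c ∈ ({i, j, l} : Set ι)) →
        d a b c = 0) {a b : ι} (hab : a ≠ b) :
    ∑ m ∈ Finset.univ.filter (fun m => m ≠ a ∧ m ≠ b),
      d a b m * (ε a b + ε b m + ε m a) =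
        r * ((ε i j + ε j l + ε l i) * triw14 (fun _ => 1) i j l a b) := by
  have hz : ∀ {a b c : ι}, a ≠ b → (∀ l', l' ≠ a → l' ≠ b → l' ≠ c → l' ∉ ({i, j, l} : Set ι)) →
      ∀ l', l' ≠ a → l' ≠ b → l' ≠ c → d a b l' = 0 := by
    intro a b c hab hc l' hla hlb hlc
    exact h0 a b l' hab hlb.symm hla.symm fun hh => hc l' hla hlb hlc hh.2.2
  have e1 := hε i j hij
  have e2 := hε j l hjl
  have e3 := hε l i hil.symm
  by_cases ha : a ∈ ({i, j, l} : Set ι)
  swap
  · rw [Finset.sum_eq_zero]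
    · have : triw14 (fun _ => (1 : F)) i j l a b = 0 := by
        simp only [Set.mem_insert_iff, Set.mem_singleton_iff, not_or] at ha
        simp [triw14, ha.1, ha.2.1, ha.2.2]
      rw [this, mul_zero, mul_zero]
    · intro m hm
      rw [Finset.mem_filter] at hm
      rw [h0 a b m hab hm.2.2.symm hm.2.1.symm fun hh => ha hh.1, zero_mul]
  by_cases hb : b ∈ ({i, j, l} : Set ι)
  swap
  · rw [Finset.sum_eq_zero]
    · have : triw14 (fun _ => (1 : F)) i j l a b = 0 := by
        simp only [Set.mem_insert_iff, Set.mem_singleton_iff, not_or] at hb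
        simp [triw14, hb.1, hb.2.1, hb.2.2]
      rw [this, mul_zero, mul_zero]
    · intro m hm
      rw [Finset.mem_filter] at hm
      rw [h0 a b m hab hm.2.2.symm hm.2.1.symm fun hh => hb hh.2.1, zero_mul]
  have hd : ∀ c, a ≠ c → b ≠ c → c ∈ ({i, j, l} : Set ι) → d a b c = r := fun c hac hbc hc =>
    h1 a b c hab hbc hac ha hb hc
  simp only [Set.mem_insert_iff, Set.mem_singleton_iff] at ha hb
  rcases ha with rfl | rfl | rfl <;> rcases hb with rfl | rfl | rfl
  · exact absurd rfl hab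
  · rw [sum_third14 _ ε hil hjl (hd l hil hjl (by simp)) (hz hij (by simp; tauto))]
    have : triw14 (fun _ => (1 : F)) a b l a b = 1 := by
      simp [triw14, hij, hij.symm, hjl, hjl.symm, hil, hil.symm]
    rw [this]
    ring
  · rw [sum_third14 _ ε hij hjl.symm (hd j hij hjl.symm (by simp)) (hz hil (by simp; tauto))]
    have : triw14 (fun _ => (1 : F)) a j b a b = -1 := by
      simp [triw14, hij, hij.symm, hjl, hjl.symm, hil, hil.symm]
    rw [this]
    linear_combination r * (e1 + e2 + e3)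
  · rw [sum_third14 _ ε hjl hil (hd l hjl hil (by simp)) (hz hij.symm (by simp; tauto))]
    have : triw14 (fun _ => (1 : F)) b a l a b = -1 := by
      simp [triw14, hij, hij.symm, hjl, hjl.symm, hil, hil.symm]
    rw [this]
    linear_combination r * (e1 + e2 + e3)
  · exact absurd rfl hab
  · rw [sum_third14 _ ε hij.symm hil.symm (hd i hij.symm hil.symm (by simp))
      (hz hjl (by simp; tauto))]
    have : triw14 (fun _ => (1 : F)) i a b a b = 1 := by
      simp [triw14, hij, hij.symm, hjl, hjl.symm, hil, hil.symm]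
    rw [this]
    ring
  · rw [sum_third14 _ ε hjl.symm hij (hd j hjl.symm hij (by simp)) (hz hil.symm (by simp; tauto))]
    have : triw14 (fun _ => (1 : F)) b j a a b = 1 := by
      simp [triw14, hij, hij.symm, hjl, hjl.symm, hil, hil.symm]
    rw [this]
    ring
  · rw [sum_third14 _ ε hil.symm hij.symm (hd i hil.symm hij.symm (by simp))
      (hz hjl.symm (by simp; tauto))]
    have : triw14 (fun _ => (1 : F)) i b a a b = -1 := by
      simp [triw14, hij, hij.symm, hjl, hjl.symm, hil, hil.symm]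
    rw [this]
    linear_combination r * (e1 + e2 + e3)
  · exact absurd rfl hab

lemma sum_off14 (f : ι → F) {i j : ι} (hij : i ≠ j) :
    ∑ m ∈ Finset.univ.filter (fun m => m ≠ i ∧ m ≠ j), f m = ∑ m, f m - f i - f j := by
  have h1 : (Finset.univ.filter (fun m => m ≠ i ∧ m ≠ j)) = (Finset.univ.erase i).erase j := by
    ext m
    simp only [Finset.mem_filter, Finset.mem_univ, true_and, Finset.mem_erase]
    tauto
  rw [h1, Finset.sum_erase_eq_sub (Finset.mem_erase.2 ⟨hij.symm, Finset.mem_univ j⟩),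
    Finset.sum_erase_eq_sub (Finset.mem_univ i)]

end comb

/-- The hypothesis on the homomorphisms: up to a function of the form `m₀ + μ_x + μ_y + μ_z`, the value
at the bracket `[x y z]` is nonzero exactly for the triangle `i j l`. -/
def HV14 {ℓ : ℕ} (v : ι ⊕ ι → k) (V : Val14 k ℓ) (i j l : ι) : Prop :=
  ∃ (m₀ : ZMod ℓ) (μ : Option ι → ZMod ℓ) (r : ZMod ℓ), r ≠ 0 ∧
    V.ν (brk14 v (some i) (some j) (some l)) = m₀ + μ (some i) + μ (some j) + μ (some l) + r ∧
    ∀ x y z : Option ι, x ≠ y → y ≠ z → x ≠ z →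
      ¬ (x ∈ ({some i, some j, some l} : Set (Option ι)) ∧
        y ∈ ({some i, some j, some l} : Set (Option ι)) ∧
        z ∈ ({some i, some j, some l} : Set (Option ι))) →
      V.ν (brk14 v x y z) = m₀ + μ x + μ y + μ z

/-- All the brackets of `i j l` have the same value. -/
lemma nu_perm14 {ℓ : ℕ} (h : Gen14 v) (V : Val14 k ℓ) {i j l : ι} (hij : i ≠ j) (hjl : j ≠ l)
    (hil : i ≠ l) (m : ι → ZMod ℓ) {r : ZMod ℓ}
    (h1 : V.ν (dd14 v i j l) = m i + m j + m l + r) :
    ∀ a b c, a ≠ b → b ≠ c → a ≠ c → a ∈ ({i, j, l} : Set ι) → b ∈ ({i, j, l} : Set ι) →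
      c ∈ ({i, j, l} : Set ι) → V.ν (dd14 v a b c) = m a + m b + m c + r := by
  have hn : ∀ {x y z : ι}, x ≠ y → y ≠ z → x ≠ z → V.ν (dd14 v y x z) = V.ν (dd14 v x y z) := by
    intro x y z hxy hyz hxz
    rw [dd14_swap, V.neg (h.dd_ne hxy hxz hyz)]
  have c2 : V.ν (dd14 v j l i) = m i + m j + m l + r := by rw [dd14_rot]; exact h1
  have c3 : V.ν (dd14 v l i j) = m i + m j + m l + r := by rw [dd14_rot, dd14_rot]; exact h1
  have c4 : V.ν (dd14 v j i l) = m i + m j + m l + r := by rw [hn hij hjl hil]; exact h1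
  have c5 : V.ν (dd14 v l j i) = m i + m j + m l + r := by rw [hn hjl hil.symm hij.symm]; exact c2
  have c6 : V.ν (dd14 v i l j) = m i + m j + m l + r := by rw [hn hil.symm hij hjl.symm]; exact c3
  intro a b c hab hbc hac ha hb hc
  simp only [Set.mem_insert_iff, Set.mem_singleton_iff] at ha hb hc
  rcases ha with rfl | rfl | rfl <;> rcases hb with rfl | rfl | rfl <;>
    rcases hc with rfl | rfl | rfl <;> first
    | exact absurd rfl hab
    | exact absurd rfl hbc
    | exact absurd rfl hac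
    | exact h1
    | (rw [c2]; ring)
    | (rw [c3]; ring)
    | (rw [c4]; ring)
    | (rw [c5]; ring)
    | (rw [c6]; ring)

end

end Pool.Agent.Lib.MP_89bcae_ag

end

section

/-!
# The discrete logarithm modulo `ℓ` of a prime field
-/

namespace Pool.Agent.Lib.MP_89bcae_ag.Lr

/-- two powers of a primitive root with residues as exponents -/
theorem b03_pow_val_h15 {M : Type*} [CommMonoid M] {ℓ : ℕ} [NeZero ℓ] {ζ : M} (hζ : IsPrimitiveRoot ζ ℓ)
    (i j : ZMod ℓ) : ζ ^ i.val = ζ ^ j.val ↔ i = j := by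
  constructor
  · intro h
    exact ZMod.val_injective ℓ (hζ.pow_inj (ZMod.val_lt i) (ZMod.val_lt j) h)
  · rintro rfl; rfl

theorem b03_pow_add_h15 {M : Type*} [CommMonoid M] {ℓ : ℕ} [NeZero ℓ] {ζ : M} (hζ : IsPrimitiveRoot ζ ℓ)
    (i j : ZMod ℓ) : ζ ^ (i + j).val = ζ ^ i.val * ζ ^ j.val := by
  rw [← pow_add, ZMod.val_add]
  exact (pow_eq_pow_mod (i.val + j.val) hζ.pow_eq_one).symm

/-- The `ℓ`-th power residue symbol of `ZMod q`, for `ℓ` odd. Proof: for `x ≠ 0` the element
`x ^ ((q - 1) / ℓ)` is an `ℓ`-th root of `1` (`ZMod.pow_card_sub_one_eq_one`), so it is `ζ ^ i.val` for a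
unique `i : ZMod ℓ` (`IsPrimitiveRoot.eq_pow_of_pow_eq_one`, `IsPrimitiveRoot.pow_inj`); this is `V.ν x`.
`neg_one`: `ν (-1) + ν (-1) = ν 1 = 0` and `2 ≠ 0` in `ZMod ℓ`. -/
theorem exists_val_zmod {q ℓ : ℕ} [Fact q.Prime] (hℓ : ℓ.Prime) (hℓ2 : ℓ ≠ 2) (hq : ℓ ∣ q - 1)
    {ζ : ZMod q} (hζ : IsPrimitiveRoot ζ ℓ) :
    ∃ V : Val14 (ZMod q) ℓ, ∀ (x : ZMod q) (i : ZMod ℓ), x ≠ 0 → x ^ ((q - 1) / ℓ) = ζ ^ i.val →
      V.ν x = i := by
  classical
  have : NeZero ℓ := ⟨hℓ.ne_zero⟩
  have : Fact ℓ.Prime := ⟨hℓ⟩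
  have hex : ∀ x : ZMod q, x ≠ 0 → ∃ i : ZMod ℓ, x ^ ((q - 1) / ℓ) = ζ ^ i.val := by
    intro x hx
    have h1 : (x ^ ((q - 1) / ℓ)) ^ ℓ = 1 := by
      rw [← pow_mul, Nat.div_mul_cancel hq]
      exact ZMod.pow_card_sub_one_eq_one hx
    obtain ⟨n, hn, hne⟩ := hζ.eq_pow_of_pow_eq_one h1
    refine ⟨(n : ZMod ℓ), ?_⟩
    rw [ZMod.val_natCast_of_lt hn, hne]
  let f : ZMod q → ZMod ℓ := fun x => if h : x ≠ 0 then (hex x h).choose else 0
  have hf : ∀ (x : ZMod q) (i : ZMod ℓ), x ≠ 0 → x ^ ((q - 1) / ℓ) = ζ ^ i.val → f x = i := by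
    intro x i hx hi
    have h1 : f x = (hex x hx).choose := dif_pos hx
    have h2 := (hex x hx).choose_spec
    rw [h1]
    exact (b03_pow_val_h15 hζ _ _).1 (h2.symm.trans hi)
  have hf' : ∀ x : ZMod q, x ≠ 0 → x ^ ((q - 1) / ℓ) = ζ ^ (f x).val := by
    intro x hx
    obtain ⟨i, hi⟩ := hex x hx
    rw [hf x i hx hi, hi]
  have hmul : ∀ x y, x ≠ 0 → y ≠ 0 → f (x * y) = f x + f y := by
    intro x y hx hy
    apply hf _ _ (mul_ne_zero hx hy)
    rw [mul_pow, hf' x hx, hf' y hy, b03_pow_add_h15 hζ]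
  have hone : f 1 = 0 := by
    apply hf _ _ one_ne_zero
    rw [one_pow, ZMod.val_zero, pow_zero]
  have hneg : f (-1) = 0 := by
    have h1 := hmul (-1) (-1) (neg_ne_zero.2 one_ne_zero) (neg_ne_zero.2 one_ne_zero)
    rw [neg_one_mul, neg_neg, hone] at h1
    have h2 : (2 : ZMod ℓ) * f (-1) = 0 := by rw [two_mul, ← h1]
    rcases mul_eq_zero.1 h2 with h | h
    · exfalso
      have h3 : ((2 : ℕ) : ZMod ℓ) = 0 := by exact_mod_cast h
      rw [ZMod.natCast_eq_zero_iff] at h3
      exact hℓ2 ((Nat.prime_dvd_prime_iff_eq hℓ Nat.prime_two).1 h3)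
    · exact h
  exact ⟨⟨f, hmul, hneg⟩, hf⟩

end Pool.Agent.Lib.MP_89bcae_ag.Lr

end

section

/-!
# The ramified classes, with exponents normalized by the multiplicities
-/

open Polynomial

open scoped Classical

namespace Pool.Agent.Lib.MP_89bcae_ag.Wt

universe u

variable {N : ℕ} {E : Type u} [Field E] {f : E[X]}

section

variable [hG : IsGood N f]

/-- The class of the ramified divisor with exponents `wt θ * n θ`. -/
noncomputable def rm (n : E → ℤ) : Jac N f := ram fun θ => wt f θ * n θ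

lemma rm_congr (n n' : E → ℤ) (h : ∀ θ, f.eval θ = 0 → (N : ℤ) ∣ n θ - n' θ) :
    (rm n : Jac N f) = rm n' := by
  refine ram_congr _ _ fun θ hθ => ?_
  rw [← mul_sub]
  exact (h θ hθ).mul_left _

lemma rm_add (n n' : E → ℤ) : (rm fun θ => n θ + n' θ : Jac N f) = rm n + rm n' := by
  unfold rm
  rw [← ram_add]
  congr 1
  funext θ
  ring

lemma rm_sub (n n' : E → ℤ) : (rm fun θ => n θ - n' θ : Jac N f) = rm n - rm n' := by
  unfold rm
  rw [← ram_sub]
  congr 1
  funext θ
  ring

lemma rm_zero : (rm (fun _ => 0) : Jac N f) = 0 := by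
  have h := rm_sub (N := N) (f := f) (fun _ => 0) (fun _ => 0)
  simpa only [sub_self] using h

lemma rm_neg (n : E → ℤ) : (rm (fun θ => -n θ) : Jac N f) = -rm n := by
  have h := rm_sub (N := N) (f := f) (fun _ => 0) n
  rw [rm_zero, zero_sub] at h
  rw [← h]
  congr 1
  funext θ
  ring

lemma zJ_rm (ζ : E) (hζ : ζ ^ N = 1) (n : E → ℤ) : zJ ζ hζ (rm n : Jac N f) = rm n :=
  zJ_ram ζ hζ _

lemma smul_rm (n : E → ℤ) : N • (rm n : Jac N f) = 0 := smul_ram _

lemma symJ_rm (σ : Sym f) (n : E → ℤ) :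
    symJ σ (rm n : Jac N f) = rm fun θ => n (((σ⁻¹ : Sym f) : E ≃+* E) θ) := by
  unfold rm
  rw [symJ_ram]
  congr 1
  funext θ
  rw [wt_sym]

/-- Every ramified class is of this form. -/
lemma ram_eq_rm (e : E → ℤ) : (ram e : Jac N f) = rm fun θ => al N (wt f θ) * e θ := by
  refine ram_congr _ _ fun θ hθ => ?_
  have h1 := al_wt (N := N) hθ
  have h2 : ((al N (wt f θ) : ℤ) * wt f θ) = be N (wt f θ) * N + 1 := by exact_mod_cast h1
  refine ⟨-(be N (wt f θ) * e θ), ?_⟩
  linear_combination (-e θ) * h2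

lemma exists_rm_of_zJ_eq (ζ : E) (hζ : IsPrimitiveRoot ζ N) (Q : Jac N f)
    (hQ : zJ ζ hζ.pow_eq_one Q = Q) : ∃ n : E → ℤ, Q = rm n := by
  obtain ⟨e, he⟩ := exists_ram_of_zJ_eq ζ hζ Q hQ
  exact ⟨_, he.trans (ram_eq_rm e)⟩

lemma rm_eq_zero_iff (ζ : E) (hζ : IsPrimitiveRoot ζ N) (n : E → ℤ) :
    (rm n : Jac N f) = 0 ↔ ∃ c : ℤ, ∀ θ, f.eval θ = 0 → (N : ℤ) ∣ n θ - c := by
  unfold rm
  rw [ram_eq_zero_iff ζ hζ]
  refine exists_congr fun c => forall₂_congr fun θ hθ => ?_
  have h1 : (wt f θ : ℤ) * n θ - c * wt f θ = wt f θ * (n θ - c) := by ring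
  rw [h1]
  constructor
  · intro h
    have h2 : IsCoprime (N : ℤ) (wt f θ : ℤ) :=
      (Nat.isCoprime_iff_coprime.2 (hG.mult θ hθ)).symm
    exact h2.dvd_of_dvd_mul_left h
  · intro h
    exact h.mul_left _

/-- `kummer_formula` with `rm`. -/
theorem kummer_rm (ζ : E) (hζ : IsPrimitiveRoot ζ N) (Q : Jac N f) (D : Pt N f →₀ ℤ)
    (hQ : Q - zJ ζ hζ.pow_eq_one Q = cl D) :
    ∃ z : E → E, (∀ θ, f.eval θ = 0 → z θ ≠ 0 ∧
      z θ ^ N = ((-1) ^ (N + 1)) ^ atR D θ * uval D θ) ∧
      ∀ (σ : Sym f), (σ : E ≃+* E) ζ = ζ → D.mapDomain (Pt.sym σ) = D → ∀ n : E → ℤ,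
        (∀ θ, f.eval θ = 0 →
          (σ : E ≃+* E) (z θ) = ζ ^ n ((σ : E ≃+* E) θ) * z ((σ : E ≃+* E) θ)) →
        symJ σ Q - Q = rm n :=
  kummer_formula ζ hζ Q D hQ

/-- Image of a ramified class under a homomorphism of fields. -/
lemma jacMap_rm {E' : Type u} [Field E'] {f' : E'[X]} [hG' : IsGood N f'] (σ : E →+* E')
    (h : f.map σ = f') (e : E → ℤ) (e' : E' → ℤ) (he : ∀ θ, f.eval θ = 0 → e' (σ θ) = e θ) :
    jacMap N σ h (rm e) = rm e' := by
  unfold rm
  refine jacMap_ram σ h _ _ fun θ hθ => ?_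
  rw [he θ hθ, wt_map σ h]

end

/-- The multiplicities sum up to the degree. -/
lemma sum_wt [IsAlgClosed E] (f : E[X]) : ∑ θ ∈ Sup.rts f, wt f θ = f.natDegree := by
  unfold Sup.rts wt
  rw [← IsAlgClosed.card_roots_eq_natDegree, ← Multiset.toFinset_sum_count_eq f.roots]
  exact Finset.sum_congr rfl fun θ _ => (count_roots f).symm

end Pool.Agent.Lib.MP_89bcae_ag.Wt

end

section

/-!
# The roots of the curve at a place and the valuations of the functions `uval`

ROW LA01 = the lemmas of this file.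
Compare `Sup/L03.lean`, `L04.lean`, `L05.lean`. All the roots `A i = aeval t (a i)` are in the image of
`F[t]`, so that `v (A i - A j) = 1` if `a_i(s) ≠ a_j(s)` (`residue_eval`).
`val_uval` (analogue of `LocCtx.val_uval` in `L05.lean`, same proof with `d = 1`): for a point `P` of the
curve, the product over the `i` with `a_i(s) = r` of
`v (if P.x = A i then (f'(A i))⁻¹ else A i - P.x)` is
`v (if 1 < v P.x then P.x else 1) ^ card * v (if v (P.x - r) < 1 ∧ P.y ≠ 0 then P.y else 1) ^ ℓ`
(`P.y ^ ℓ = ∏ (P.x - A i)`); the products over `D` of the two functions of `P` are fixed by `Γ`, so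
their values are in `ϖ ^ ℤ[1/p]`; for the first one, its `m`-th power, `m = card ι`, is an `ℓ`-th power
(`v P.x ^ m = v P.y ^ ℓ` if `1 < v P.x`) and `m` is prime to `ℓ` (`Val.of_pow`).
-/

open Polynomial

open scoped Classical

namespace Pool.Agent.Lib.MP_89bcae_ag.Wt.Lns

open Pool.Agent.Lib.MP_89bcae_ag.Sup Pool.Agent.Lib.MP_89bcae_ag.Sup.Lns

universe u

variable {ι : Type} [Fintype ι] [LinearOrder ι] {F M : Type u} [Field F] [Field M] [Algebra F M]
  {v : AbsoluteValue M ℝ} {s : F} {t : M} {a : ι → F[X]} {w : ι → ℕ}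

/-- The polynomial `∏ (x - a_i(t)) ^ w_i`. -/
noncomputable def lineW {ι : Type} [Fintype ι] {F M : Type u} [Field F] [Field M] [Algebra F M]
    (w : ι → ℕ) (a : ι → F[X]) (t : M) : M[X] :=
  ∏ i, (X - C (aeval t (a i))) ^ w i

omit [LinearOrder ι] in
lemma eval_lineW (x : M) : (lineW w a t).eval x = ∏ i, (x - aeval t (a i)) ^ w i := by
  unfold lineW
  rw [eval_prod]
  simp

omit [LinearOrder ι] in
lemma lineW_ne_zero : lineW w a t ≠ 0 := by
  unfold lineW
  exact Finset.prod_ne_zero_iff.2 fun i _ => pow_ne_zero _ (X_sub_C_ne_zero _)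

omit [LinearOrder ι] in
lemma lineW_natDegree : (lineW w a t).natDegree = ∑ i, w i := by
  unfold lineW
  rw [natDegree_prod_of_monic _ _ fun i _ => (monic_X_sub_C _).pow _]
  simp

omit [LinearOrder ι] in
lemma eval_lineW_eq_zero (hw : ∀ i, w i ≠ 0) {x : M} :
    (lineW w a t).eval x = 0 ↔ ∃ i, x = aeval t (a i) := by
  rw [eval_lineW, Finset.prod_eq_zero_iff]
  constructor
  · rintro ⟨i, -, hi⟩
    exact ⟨i, sub_eq_zero.1 ((pow_eq_zero_iff (hw i)).1 hi)⟩
  · rintro ⟨i, hi⟩
    exact ⟨i, Finset.mem_univ i, by rw [sub_eq_zero.2 hi, zero_pow (hw i)]⟩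

omit [LinearOrder ι] in
lemma root_lineW (hw : ∀ i, w i ≠ 0) (i : ι) : (lineW w a t).eval (aeval t (a i)) = 0 :=
  (eval_lineW_eq_zero hw).2 ⟨i, rfl⟩

omit [LinearOrder ι] in
lemma mem_rts_lineW (hw : ∀ i, w i ≠ 0) {x : M} :
    x ∈ rts (lineW w a t) ↔ ∃ i, x = aeval t (a i) := by
  rw [mem_rts lineW_ne_zero, eval_lineW_eq_zero hw]

omit [LinearOrder ι] in
lemma prod_rts_lineW (hw : ∀ i, w i ≠ 0) {N : Type*} [CommMonoid N]
    (hinj : Function.Injective fun i => aeval t (a i)) (φ : M → N) :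
    ∏ θ ∈ rts (lineW w a t), φ θ = ∏ i, φ (aeval t (a i)) := by
  have h1 : rts (lineW w a t) = Finset.univ.image (fun i => aeval t (a i)) := by
    ext x
    rw [mem_rts_lineW hw, Finset.mem_image]
    constructor
    · rintro ⟨i, hi⟩
      exact ⟨i, Finset.mem_univ i, hi.symm⟩
    · rintro ⟨i, -, hi⟩
      exact ⟨i, hi.symm⟩
  rw [h1, Finset.prod_image fun i _ j _ hij => hinj hij]

omit [LinearOrder ι] in
lemma sum_rts_lineW (hw : ∀ i, w i ≠ 0) {N : Type*} [AddCommMonoid N]
    (hinj : Function.Injective fun i => aeval t (a i)) (φ : M → N) :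
    ∑ θ ∈ rts (lineW w a t), φ θ = ∑ i, φ (aeval t (a i)) := by
  have h1 : rts (lineW w a t) = Finset.univ.image (fun i => aeval t (a i)) := by
    ext x
    rw [mem_rts_lineW hw, Finset.mem_image]
    constructor
    · rintro ⟨i, hi⟩
      exact ⟨i, Finset.mem_univ i, hi.symm⟩
    · rintro ⟨i, -, hi⟩
      exact ⟨i, hi.symm⟩
  rw [h1, Finset.sum_image fun i _ j _ hij => hinj hij]

omit [LinearOrder ι] in
/-- The multiplicities of the roots. -/
lemma wt_lineW (hinj : Function.Injective fun i => aeval t (a i)) (i : ι) :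
    wt (lineW w a t) (aeval t (a i)) = w i := by
  have h1 : lineW w a t = (X - C (aeval t (a i))) ^ w i *
      ∏ j ∈ Finset.univ.erase i, (X - C (aeval t (a j))) ^ w j := by
    unfold lineW
    exact (Finset.mul_prod_erase Finset.univ (fun j => (X - C (aeval t (a j))) ^ w j)
      (Finset.mem_univ i)).symm
  have h2 : (∏ j ∈ Finset.univ.erase i, (X - C (aeval t (a j))) ^ w j).eval (aeval t (a i)) ≠ 0 := by
    rw [eval_prod, Finset.prod_ne_zero_iff]
    intro j hj
    rw [eval_pow, eval_sub, eval_X, eval_C]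
    refine pow_ne_zero _ (sub_ne_zero.2 fun h0 => Finset.ne_of_mem_erase hj ?_)
    exact (hinj h0).symm
  unfold wt
  rw [h1, rootMultiplicity_mul (by rw [← h1]; exact lineW_ne_zero),
    rootMultiplicity_X_sub_C_pow, rootMultiplicity_eq_zero h2, add_zero]

/-- The values of the cofactors. -/
lemma cof_lineW (hinj : Function.Injective fun i => aeval t (a i)) (i : ι) :
    cof (lineW w a t) (aeval t (a i)) =
      ∏ j ∈ Finset.univ.erase i, (aeval t (a i) - aeval t (a j)) ^ w j := by
  have h1 : lineW w a t = (X - C (aeval t (a i))) ^ w i *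
      ∏ j ∈ Finset.univ.erase i, (X - C (aeval t (a j))) ^ w j := by
    unfold lineW
    exact (Finset.mul_prod_erase Finset.univ (fun j => (X - C (aeval t (a j))) ^ w j)
      (Finset.mem_univ i)).symm
  have h2 : cofP (lineW w a t) (aeval t (a i)) =
      ∏ j ∈ Finset.univ.erase i, (X - C (aeval t (a j))) ^ w j := by
    have h3 := wt_mul (lineW w a t) (aeval t (a i))
    rw [wt_lineW hinj] at h3
    have h4 : (X - C (aeval t (a i))) ^ w i ≠ 0 := pow_ne_zero _ (X_sub_C_ne_zero _)
    exact mul_left_cancel₀ h4 (h3.trans h1)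
  unfold cof
  rw [h2, eval_prod]
  simp

omit [Fintype ι] [LinearOrder ι] in
private lemma la01_res (h : LocCtx v s t) (i : ι) :
    v (aeval t (a i) - algebraMap F M ((a i).eval s)) < 1 :=
  h.residue_eval h.lt_one (a i)

omit [Fintype ι] [LinearOrder ι] in
lemma v_line_le (h : LocCtx v s t) (i : ι) : v (aeval t (a i)) ≤ 1 :=
  h.v_le_one (la01_res h i)

omit [Fintype ι] [LinearOrder ι] in
lemma v_line_sub (h : LocCtx v s t) {i j : ι} (hij : (a i).eval s ≠ (a j).eval s) :
    v (aeval t (a i) - aeval t (a j)) = 1 := by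
  have h1 := h.residue_eval h.lt_one (a i - a j)
  rw [map_sub (aeval (R := F) t)] at h1
  refine h.v_eq_one h1 ?_
  rw [eval_sub]
  exact sub_ne_zero.2 hij

omit [Fintype ι] [LinearOrder ι] in
/-- At a simple root `s` of the polynomial `Q`, the residue of `Q(t) / (t - s)` is `Q'(s)`. -/
lemma residue_simple (h : LocCtx v s t) {Q : F[X]} (hQ : Q.eval s = 0) :
    v (aeval t Q / (t - algebraMap F M s) - algebraMap F M ((derivative Q).eval s)) < 1 := by
  obtain ⟨q, hq⟩ := dvd_iff_isRoot.2 hQ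
  have h1 : aeval t Q / (t - algebraMap F M s) = aeval t q := by
    rw [hq, map_mul, map_sub (aeval (R := F) t), aeval_X, aeval_C,
      mul_div_cancel_left₀ _ (sub_ne_zero.2 h.ne)]
  have h2 : (derivative Q).eval s = q.eval s := by
    rw [hq]
    simp
  rw [h1, h2]
  exact h.residue_eval h.lt_one q

omit [Fintype ι] [LinearOrder ι] in
lemma v_line_node (h : LocCtx v s t) {i j : ι} (hij : (a i).eval s = (a j).eval s)
    (hd : (derivative (a i - a j)).eval s ≠ 0) :
    v (aeval t (a i) - aeval t (a j)) = v (t - algebraMap F M s) := by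
  have h1 := residue_simple h (Q := a i - a j) (by rw [eval_sub, hij, sub_self])
  have h2 := h.v_eq_one h1 hd
  have h3 : v (t - algebraMap F M s) ≠ 0 := v.ne_zero (sub_ne_zero.2 h.ne)
  rw [map_div₀, map_sub (aeval (R := F) t), div_eq_one_iff_eq h3] at h2
  exact h2

/-! ### The valuations -/

omit [Fintype ι] [LinearOrder ι] in
private lemma la01_sub_comm (x y : M) : v (x - y) = v (y - x) := by
  rw [← neg_sub, map_neg_eq_map]

private lemma la01_sym_injective {ℓ : ℕ} {f : M[X]} (σ : Sym f) :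
    Function.Injective (Pt.sym σ : Pt ℓ f → Pt ℓ f) := by
  intro P Q hPQ
  have hx : (σ : M ≃+* M) P.x = (σ : M ≃+* M) Q.x := congrArg Pt.x hPQ
  have hy : (σ : M ≃+* M) P.y = (σ : M ≃+* M) Q.y := congrArg Pt.y hPQ
  exact Pt.ext ((σ : M ≃+* M).injective hx) ((σ : M ≃+* M).injective hy)

/-- A product over an invariant divisor of equivariant quantities is invariant. -/
private lemma la01_prod_fixed {ℓ : ℕ} {f : M[X]} (σ : Sym f) (D : Pt ℓ f →₀ ℤ)
    (hD : D.mapDomain (Pt.sym σ) = D) (φ : Pt ℓ f → M)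
    (hφ : ∀ P, (σ : M ≃+* M) (φ P) = φ (P.sym σ)) :
    (σ : M ≃+* M) (D.prod fun P n => φ P ^ n) = D.prod fun P n => φ P ^ n := by
  conv_rhs => rw [← hD, Finsupp.prod_mapDomain_index_inj (la01_sym_injective σ)]
  rw [map_finsuppProd]
  refine Finsupp.prod_congr ?_
  intro P _
  rw [map_zpow₀, hφ]

private lemma la01_prod_ne_zero {ℓ : ℕ} {f : M[X]} (D : Pt ℓ f →₀ ℤ) (φ : Pt ℓ f → M)
    (hφ : ∀ P, φ P ≠ 0) : (D.prod fun P n => φ P ^ n) ≠ 0 :=
  Finset.prod_ne_zero_iff.2 fun P _ => zpow_ne_zero _ (hφ P)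

private lemma la01_v_prod {ℓ : ℕ} {f : M[X]} (D : Pt ℓ f →₀ ℤ) (φ : Pt ℓ f → M) :
    v (D.prod fun P n => φ P ^ n) = ∏ P ∈ D.support, v (φ P) ^ D P := by
  rw [Finsupp.prod, map_prod]
  refine Finset.prod_congr rfl ?_
  intro P _
  rw [map_zpow₀]

/-- The values of `∏ φ(P) ^ D(P)` for an equivariant function `φ`. -/
private lemma la01_val {ℓ p : ℕ} {f : M[X]} {ϖ : ℝ} {Γ : Subgroup (Sym f)}
    (hΓ : LocGrp p F v t ϖ Γ) (D : Pt ℓ f →₀ ℤ) (hD : ∀ σ ∈ Γ, D.mapDomain (Pt.sym σ) = D)
    (φ : Pt ℓ f → M) (h0 : ∀ P, φ P ≠ 0)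
    (hφ : ∀ σ ∈ Γ, ∀ P, (σ : M ≃+* M) (φ P) = φ (P.sym σ)) :
    Val p ϖ (∏ P ∈ D.support, v (φ P) ^ D P) := by
  rw [← la01_v_prod]
  exact hΓ.disc _ (la01_prod_ne_zero D φ h0) fun σ hσ =>
    la01_prod_fixed σ D (hD σ hσ) φ (hφ σ hσ)

omit [LinearOrder ι] in
private lemma la01_v_eq {ℓ : ℕ} (P : Pt ℓ (lineW w a t)) :
    ∏ i, v (P.x - aeval t (a i)) ^ w i = v P.y ^ ℓ := by
  rw [← map_pow, P.eq, eval_lineW, map_prod]
  exact Finset.prod_congr rfl fun i _ => (map_pow v _ _).symm

omit [Fintype ι] [LinearOrder ι] in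
/-- `v (x - A i) = v x` for `x` large. -/
private lemma la01_big (h : LocCtx v s t) {x : M} (hx : 1 < v x) (i : ι) :
    v (aeval t (a i) - x) = v x := by
  have hθ1 := v_line_le (a := a) h i
  apply le_antisymm
  · have h2 : aeval t (a i) - x = aeval t (a i) + -x := by ring
    rw [h2]
    refine (h.nonarch _ _).trans (max_le (hθ1.trans hx.le) ?_)
    rw [map_neg_eq_map]
  · have h2 : x = -(aeval t (a i) - x) + aeval t (a i) := by ring
    have h1 := h.nonarch (-(aeval t (a i) - x)) (aeval t (a i))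
    rw [← h2, map_neg_eq_map] at h1
    rcases le_max_iff.1 h1 with h3 | h3
    · exact h3
    · exact absurd (h3.trans hθ1) (not_le.2 hx)

omit [Fintype ι] [LinearOrder ι] in
/-- `v (x - A i) = 1` if the residues are different. -/
private lemma la01_far (h : LocCtx v s t) {x : M} {r : F} (hx : v (x - algebraMap F M r) < 1)
    {i : ι} (hi : (a i).eval s ≠ r) : v (x - aeval t (a i)) = 1 := by
  have h1 := la01_res (a := a) h i
  have h2 : v (x - aeval t (a i) - algebraMap F M (r - (a i).eval s)) < 1 := by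
    have h3 : x - aeval t (a i) - algebraMap F M (r - (a i).eval s) =
        (x - algebraMap F M r) + -(aeval t (a i) - algebraMap F M ((a i).eval s)) := by
      rw [map_sub]
      ring
    rw [h3]
    refine (h.nonarch _ _).trans_lt (max_lt hx ?_)
    rw [map_neg_eq_map]
    exact h1
  exact h.v_eq_one h2 (sub_ne_zero.2 hi.symm)

/-- The part of `P` near `r`. -/
private noncomputable def la01_psi (v : AbsoluteValue M ℝ) (w : ι → ℕ) (a : ι → F[X]) (t : M)
    {ℓ : ℕ} (r : F) (P : Pt ℓ (lineW w a t)) : M :=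
  if v (P.x - algebraMap F M r) < 1 then
    (if P.y ≠ 0 then P.y else (cof (lineW w a t) P.x ^ be ℓ (wt (lineW w a t) P.x))⁻¹)
  else 1

private lemma la01_factor (h : LocCtx v s t) (hw : ∀ i, w i ≠ 0)
    (hinj : Function.Injective fun i => aeval t (a i)) {ℓ : ℕ} [hG : IsGood ℓ (lineW w a t)]
    (r : F) (P : Pt ℓ (lineW w a t)) :
    ∏ i ∈ Finset.univ.filter (fun i => (a i).eval s = r),
      v (if P.x = aeval t (a i) then (cof (lineW w a t) (aeval t (a i)) ^
          al ℓ (wt (lineW w a t) (aeval t (a i))))⁻¹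
        else aeval t (a i) - P.x) ^ w i =
    v (if 1 < v P.x then P.x else 1) ^
        (∑ i ∈ Finset.univ.filter (fun i => (a i).eval s = r), w i) *
      v (la01_psi v w a t r P) ^ ℓ := by
  unfold la01_psi
  by_cases hbig : 1 < v P.x
  · have hnr : ¬ v (P.x - algebraMap F M r) < 1 := by
      intro h1
      exact absurd hbig (not_lt.2 (h.v_le_one h1))
    rw [if_pos hbig, if_neg hnr, map_one, one_pow, mul_one, ← Finset.prod_pow_eq_pow_sum]
    refine Finset.prod_congr rfl fun i _ => ?_
    rw [if_neg, la01_big h hbig i]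
    intro h1
    rw [h1] at hbig
    exact absurd hbig (not_lt.2 (v_line_le h i))
  · rw [if_neg hbig, map_one, one_pow, one_mul]
    by_cases hr : v (P.x - algebraMap F M r) < 1
    · rw [if_pos hr]
      by_cases hy : P.y = 0
      · rw [if_neg (fun hh => hh hy)]
        have hPx : (lineW w a t).eval P.x = 0 := by
          rw [← P.eq, hy, zero_pow hG.ne]
        obtain ⟨i₀, hi₀⟩ := (eval_lineW_eq_zero hw).1 hPx
        have hi₀r : (a i₀).eval s = r := by
          rw [hi₀] at hr
          exact h.residue_unique (la01_res h i₀) hr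
        have hmem : i₀ ∈ Finset.univ.filter (fun i => (a i).eval s = r) :=
          Finset.mem_filter.2 ⟨Finset.mem_univ _, hi₀r⟩
        have hcof0 : cof (lineW w a t) (aeval t (a i₀)) ≠ 0 := cof_ne_zero lineW_ne_zero _
        rw [← Finset.mul_prod_erase _ _ hmem, if_pos hi₀, map_inv₀, hi₀]
        have e1 : ∏ i ∈ (Finset.univ.filter (fun i => (a i).eval s = r)).erase i₀,
            v (if aeval t (a i₀) = aeval t (a i) then (cof (lineW w a t) (aeval t (a i)) ^
              al ℓ (wt (lineW w a t) (aeval t (a i))))⁻¹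
              else aeval t (a i) - aeval t (a i₀)) ^ w i =
            ∏ i ∈ (Finset.univ.filter (fun i => (a i).eval s = r)).erase i₀,
              v (aeval t (a i₀) - aeval t (a i)) ^ w i := by
          refine Finset.prod_congr rfl ?_
          intro i hi
          rw [if_neg, la01_sub_comm]
          intro h1
          exact Finset.ne_of_mem_erase hi (hinj h1).symm
        have e2 : ∏ i ∈ (Finset.univ.filter (fun i => (a i).eval s = r)).erase i₀,
            v (aeval t (a i₀) - aeval t (a i)) ^ w i =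
            ∏ i ∈ Finset.univ.erase i₀, v (aeval t (a i₀) - aeval t (a i)) ^ w i := by
          apply Finset.prod_subset (Finset.erase_subset_erase _ (Finset.filter_subset _ _))
          intro i hi hn
          rw [Finset.mem_erase] at hi
          rw [v_line_sub h, one_pow]
          intro h1
          exact hn (Finset.mem_erase.2 ⟨hi.1, Finset.mem_filter.2 ⟨Finset.mem_univ _,
            h1.symm.trans hi₀r⟩⟩)
        have e3 : ∏ i ∈ Finset.univ.erase i₀, v (aeval t (a i₀) - aeval t (a i)) ^ w i =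
            v (cof (lineW w a t) (aeval t (a i₀))) := by
          rw [cof_lineW hinj, map_prod]
          exact Finset.prod_congr rfl fun i _ => (map_pow v _ _).symm
        have e4 : al ℓ (w i₀) * w i₀ = be ℓ (w i₀) * ℓ + 1 := by
          have h5 := al_wt (N := ℓ) (root_lineW (t := t) (a := a) hw i₀)
          rwa [wt_lineW hinj] at h5
        have hv0 : v (cof (lineW w a t) (aeval t (a i₀))) ≠ 0 := v.ne_zero hcof0
        rw [e1, e2, e3, wt_lineW hinj, map_pow, map_inv₀, map_pow, inv_pow, inv_pow, ← pow_mul,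
          ← pow_mul, e4, pow_succ, mul_inv, mul_assoc, inv_mul_cancel₀ hv0, mul_one]
      · rw [if_pos hy, ← la01_v_eq P]
        have hne : ∀ i, P.x ≠ aeval t (a i) := by
          intro i h1
          apply hy
          have h2 := P.eq
          rw [h1, root_lineW hw] at h2
          exact (pow_eq_zero_iff hG.ne).1 h2
        have e1 : ∏ i, v (P.x - aeval t (a i)) ^ w i =
            ∏ i ∈ Finset.univ.filter (fun i => (a i).eval s = r),
              v (P.x - aeval t (a i)) ^ w i := by
          symm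
          apply Finset.prod_subset (Finset.filter_subset _ _)
          intro i _ hn
          rw [la01_far h hr, one_pow]
          intro h1
          exact hn (Finset.mem_filter.2 ⟨Finset.mem_univ _, h1⟩)
        rw [e1]
        refine Finset.prod_congr rfl ?_
        intro i _
        rw [if_neg (hne i), la01_sub_comm]
    · rw [if_neg hr, map_one, one_pow]
      refine Finset.prod_eq_one ?_
      intro i hi
      have hir : (a i).eval s = r := (Finset.mem_filter.1 hi).2
      have hθr := la01_res (a := a) h i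
      rw [hir] at hθr
      have hθ1 := v_line_le (a := a) h i
      rw [if_neg (by intro h1; rw [h1] at hr; exact hr hθr)]
      have h5 : v (aeval t (a i) - P.x) = 1 := by
        apply le_antisymm
        · have h2 : aeval t (a i) - P.x = aeval t (a i) + -P.x := by ring
          rw [h2]
          refine (h.nonarch _ _).trans (max_le hθ1 ?_)
          rw [map_neg_eq_map]
          exact not_lt.1 hbig
        · by_contra hlt
          apply hr
          have h2 : P.x - algebraMap F M r =
              -(aeval t (a i) - P.x) + (aeval t (a i) - algebraMap F M r) := by ring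
          rw [h2]
          refine lt_of_le_of_lt (h.nonarch _ _) (max_lt ?_ hθr)
          rw [map_neg_eq_map]
          exact not_le.1 hlt
      rw [h5, one_pow]

/-- The valuations of the functions `uval D`, for an invariant divisor `D`. -/
theorem val_uval_line (h : LocCtx v s t) (hw : ∀ i, w i ≠ 0)
    (hinj : Function.Injective fun i => aeval t (a i)) {ℓ p : ℕ} [hG : IsGood ℓ (lineW w a t)]
    {ϖ : ℝ} {Γ : Subgroup (Sym (lineW w a t))}
    (hΓ : LocGrp p F v t ϖ Γ) (D : Pt ℓ (lineW w a t) →₀ ℤ)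
    (hD : ∀ σ ∈ Γ, D.mapDomain (Pt.sym σ) = D) (r : F) :
    Val p (ϖ ^ ℓ) (∏ i ∈ Finset.univ.filter (fun i => (a i).eval s = r),
      v (uval D (aeval t (a i))) ^ w i) := by
  have hsymx : ∀ (σ : Sym (lineW w a t)) (P : Pt ℓ (lineW w a t)),
      (P.sym σ).x = (σ : M ≃+* M) P.x := fun σ P => rfl
  have hsymy : ∀ (σ : Sym (lineW w a t)) (P : Pt ℓ (lineW w a t)),
      (P.sym σ).y = (σ : M ≃+* M) P.y := fun σ P => rfl
  have hprod2 : ∏ i ∈ Finset.univ.filter (fun i => (a i).eval s = r),
      v (uval D (aeval t (a i))) ^ w i =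
      (∏ P ∈ D.support, v (if 1 < v P.x then P.x else 1) ^ D P) ^
        (∑ i ∈ Finset.univ.filter (fun i => (a i).eval s = r), w i) *
      (∏ P ∈ D.support, v (la01_psi v w a t r P) ^ D P) ^ ℓ := by
    have hcomm : ∀ (y : ℝ) (n : ℤ) (m : ℕ), (y ^ n) ^ m = (y ^ m) ^ n := by
      intro y n m
      rw [← zpow_natCast, ← zpow_natCast, ← zpow_mul, ← zpow_mul, mul_comm]
    have e1 : ∀ i ∈ Finset.univ.filter (fun i => (a i).eval s = r),
        v (uval D (aeval t (a i))) ^ w i = ∏ P ∈ D.support,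
        (v (if P.x = aeval t (a i) then (cof (lineW w a t) (aeval t (a i)) ^
          al ℓ (wt (lineW w a t) (aeval t (a i))))⁻¹
          else aeval t (a i) - P.x) ^ w i) ^ D P := by
      intro i _
      unfold uval
      rw [Finsupp.prod, map_prod, ← Finset.prod_pow]
      refine Finset.prod_congr rfl ?_
      intro P _
      rw [map_zpow₀]
      exact hcomm _ _ _
    rw [Finset.prod_congr rfl e1, Finset.prod_comm, ← Finset.prod_pow, ← Finset.prod_pow,
      ← Finset.prod_mul_distrib]
    refine Finset.prod_congr rfl ?_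
    intro P _
    rw [Finset.prod_zpow, la01_factor h hw hinj r P, mul_zpow]
    congr 1
    · rw [← zpow_natCast, ← zpow_natCast, ← zpow_mul, ← zpow_mul, mul_comm]
    · rw [← zpow_natCast, ← zpow_natCast, ← zpow_mul, ← zpow_mul, mul_comm]
  rw [hprod2]
  -- the big part
  have hX : Val p ϖ (∏ P ∈ D.support, v (if 1 < v P.x then P.x else 1) ^ D P) := by
    refine la01_val hΓ D hD (fun P => if 1 < v P.x then P.x else 1) ?_ ?_
    · intro P
      show (if 1 < v P.x then P.x else 1) ≠ 0
      split_ifs with h1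
      · intro h0
        rw [h0, map_zero] at h1
        exact absurd h1 (not_lt.2 zero_le_one)
      · exact one_ne_zero
    · intro σ hσ P
      simp only [hsymx, hΓ.inv σ hσ]
      split_ifs
      · rfl
      · exact map_one _
  have hbigprod : ∀ P : Pt ℓ (lineW w a t), 1 < v P.x →
      v P.x ^ (∑ i, w i) = v P.y ^ ℓ := by
    intro P hP
    rw [← la01_v_eq P, ← Finset.prod_pow_eq_pow_sum]
    refine Finset.prod_congr rfl fun i _ => ?_
    rw [la01_sub_comm, la01_big h hP i]
  have hX' : Val p ϖ (∏ P ∈ D.support, v (if 1 < v P.x then P.y else 1) ^ D P) := by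
    refine la01_val hΓ D hD (fun P => if 1 < v P.x then P.y else 1) ?_ ?_
    · intro P
      show (if 1 < v P.x then P.y else 1) ≠ 0
      split_ifs with h1
      · intro h0
        have h2 := hbigprod P h1
        rw [h0, map_zero, zero_pow hG.ne] at h2
        have h3 : 0 < v P.x ^ (∑ i, w i) := pow_pos (zero_lt_one.trans h1) _
        exact h3.ne' h2
      · exact one_ne_zero
    · intro σ hσ P
      simp only [hsymx, hsymy, hΓ.inv σ hσ]
      split_ifs
      · rfl
      · exact map_one _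
  have hXm : (∏ P ∈ D.support, v (if 1 < v P.x then P.x else 1) ^ D P) ^ (∑ i, w i) =
      (∏ P ∈ D.support, v (if 1 < v P.x then P.y else 1) ^ D P) ^ ℓ := by
    rw [← Finset.prod_pow, ← Finset.prod_pow]
    refine Finset.prod_congr rfl ?_
    intro P _
    have e1 : ∀ (x : ℝ) (m : ℕ), (x ^ D P) ^ m = (x ^ m) ^ D P := by
      intro x m
      rw [← zpow_natCast, ← zpow_natCast, ← zpow_mul, ← zpow_mul, mul_comm]
    rw [e1, e1]
    congr 1
    split_ifs with h1
    · exact hbigprod P h1
    · simp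
  have hXpos : 0 < ∏ P ∈ D.support, v (if 1 < v P.x then P.x else 1) ^ D P := by
    refine Finset.prod_pos ?_
    intro P _
    refine zpow_pos ?_ _
    split_ifs with h1
    · exact zero_lt_one.trans h1
    · rw [map_one]; exact one_pos
  have hmℓ : (∑ i, w i).Coprime ℓ := by
    have h1 := hG.coprime
    rwa [lineW_natDegree] at h1
  have hXval : Val p (ϖ ^ ℓ) (∏ P ∈ D.support, v (if 1 < v P.x then P.x else 1) ^ D P) := by
    refine Val.of_pow hΓ.pos hΓ.lt_one hmℓ hXpos hX ?_
    rw [hXm]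
    exact Val.pow_self ℓ hX'
  -- the part near `r`
  have hB : Val p ϖ (∏ P ∈ D.support, v (la01_psi v w a t r P) ^ D P) := by
    refine la01_val hΓ D hD (fun P => la01_psi v w a t r P) ?_ ?_
    · intro P
      show la01_psi v w a t r P ≠ 0
      unfold la01_psi
      split_ifs with h1 h2
      · exact h2
      · exact inv_ne_zero (pow_ne_zero _ (cof_ne_zero lineW_ne_zero _))
      · exact one_ne_zero
    · intro σ hσ P
      have e1 : v ((σ : M ≃+* M) P.x - algebraMap F M r) = v (P.x - algebraMap F M r) := by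
        rw [← hΓ.inv σ hσ (P.x - algebraMap F M r), map_sub (σ : M ≃+* M), hΓ.fix σ hσ]
      have e2 : ((σ : M ≃+* M) P.y ≠ 0) = (P.y ≠ 0) := by
        rw [ne_eq, map_eq_zero_iff _ (σ : M ≃+* M).injective]
      unfold la01_psi
      simp only [hsymx, hsymy, e1, e2]
      split_ifs
      · rfl
      · rw [map_inv₀, map_pow, ← cof_sym, wt_sym]
      · exact map_one _
  exact Val.mul (Val.pow hXval _) (Val.pow_self ℓ hB)

end Pool.Agent.Lib.MP_89bcae_ag.Wt.Lns

end

section

/-!
# The curve `y ^ ℓ = ∏ (x - α_i(t)) ^ (W i)` over `F(t)`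
-/

open Polynomial IsDedekindDomain

open scoped Classical

namespace Pool.Agent.Lib.MP_89bcae_ag.Wt.Lns

open Pool.Agent.Lib.MP_89bcae_ag.Sup Pool.Agent.Lib.MP_89bcae_ag.Sup.Lns

universe u

variable {ι : Type} [Fintype ι] [LinearOrder ι]

section

variable {k : Type u} [Field k]

omit [LinearOrder ι] in
/-- The polynomial `∏ (x - α_i(t)) ^ (W i)`. -/
noncomputable def arr (W : ι → ℕ) (α : ι → k[X]) : k[X][X] := ∏ i, (X - C (α i)) ^ W i

/-- The hypotheses on `ℓ`, `W`, `α`, `ζ`. -/
structure AHyp (ℓ : ℕ) (W : ι → ℕ) (α : ι → k[X]) (ζ : k) : Prop where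
  prime : ℓ.Prime
  ne : (ℓ : k) ≠ 0
  zeta : IsPrimitiveRoot ζ ℓ
  cop : ∀ i, (W i).Coprime ℓ
  sum : (∑ i, W i).Coprime ℓ
  geom : AGeom α

/-- The polynomials `α_i` over `F`. -/
noncomputable def aF (F : Type u) [Field F] [Algebra k F] (α : ι → k[X]) : ι → F[X] :=
  fun i => (α i).map (algebraMap k F)

end

variable {k F L : Type u} [Field k] [Field F] [Algebra k F] [Field L] [Algebra F[X] L]
  {ℓ : ℕ} {W : ι → ℕ} {α : ι → k[X]} {ζ : k}

/-- The root `α_i(t)` in `A`. -/
noncomputable def rt (k F L A : Type u) [Field k] [Field F] [Algebra k F] [Field L]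
    [Algebra F[X] L] [Field A] [Algebra L A] (α : ι → k[X]) (i : ι) : A := base k F L A (α i)

lemma AHyp.geomF (H : AHyp ℓ W α ζ) : AGeom (aF F α) := H.geom.map (algebraMap k F)

lemma AHyp.W0 (H : AHyp ℓ W α ζ) (i : ι) : W i ≠ 0 := by
  intro h0
  have h1 := H.cop i
  rw [h0, Nat.coprime_zero_left] at h1
  exact H.prime.one_lt.ne' h1

lemma AHyp.copZ (H : AHyp ℓ W α ζ) (i : ι) : IsCoprime (ℓ : ℤ) (W i : ℤ) :=
  Nat.isCoprime_iff_coprime.2 (H.cop i).symm

lemma aeval_tA {A : Type u} [Field A] [Algebra L A] [Algebra F A] (hF : CompatF F L A)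
    (p : F[X]) : aeval (tA F L A) p = algebraMap L A (algebraMap F[X] L p) := by
  induction p using Polynomial.induction_on' with
  | add p q hp hq => rw [map_add, map_add, map_add, hp, hq]
  | monomial n a =>
    rw [← C_mul_X_pow_eq_monomial, map_mul, map_mul, map_mul, map_pow, map_pow, map_pow, aeval_C,
      aeval_X, hF a]
    rfl

lemma tA_inj [IsFractionRing F[X] L] {A : Type u} [Field A] [Algebra L A] [Algebra F A]
    (hF : CompatF F L A) {p q : F[X]} (h : aeval (tA F L A) p = aeval (tA F L A) q) : p = q := by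
  rw [aeval_tA hF, aeval_tA hF] at h
  exact IsFractionRing.injective F[X] L ((algebraMap L A).injective h)

omit [Fintype ι] [LinearOrder ι] in
lemma rt_eq {A : Type u} [Field A] [Algebra L A] [Algebra F A] (hF : CompatF F L A) (i : ι) :
    rt k F L A α i = aeval (tA F L A) (aF F α i) := by
  rw [aeval_tA hF]
  rfl

omit [LinearOrder ι] in
lemma cOver_arr {A : Type u} [Field A] [Algebra L A] [Algebra F A] (hF : CompatF F L A) :
    cOver k F L A (arr W α) = lineW W (aF F α) (tA F L A) := by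
  rw [cOver_eq]
  unfold arr lineW
  rw [Polynomial.map_prod]
  refine Finset.prod_congr rfl fun i _ => ?_
  rw [Polynomial.map_pow, Polynomial.map_sub, map_X, map_C, ← rt_eq hF]
  rfl

omit [LinearOrder ι] in
lemma arr_over {A : Type u} [Field A] [Algebra L A] :
    cOver k F L A (arr W α) = ∏ i, (X - C (rt k F L A α i)) ^ W i := by
  rw [cOver_eq]
  unfold arr
  rw [Polynomial.map_prod]
  refine Finset.prod_congr rfl fun i _ => ?_
  rw [Polynomial.map_pow, Polynomial.map_sub, map_X, map_C]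
  rfl

omit [LinearOrder ι] in
lemma eval_arr {A : Type u} [Field A] [Algebra L A] (x : A) :
    (cOver k F L A (arr W α)).eval x = ∏ i, (x - rt k F L A α i) ^ W i := by
  rw [arr_over, eval_prod]
  refine Finset.prod_congr rfl fun i _ => ?_
  rw [eval_pow, eval_sub, eval_X, eval_C]

omit [LinearOrder ι] in
lemma root_of_arr {A : Type u} [Field A] [Algebra L A] {x : A}
    (h : (cOver k F L A (arr W α)).eval x = 0) : ∃ i, x = rt k F L A α i := by
  rw [eval_arr, Finset.prod_eq_zero_iff] at h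
  obtain ⟨i, -, hi⟩ := h
  exact ⟨i, sub_eq_zero.1 (eq_zero_of_pow_eq_zero hi)⟩

lemma root_arr (H : AHyp ℓ W α ζ) {A : Type u} [Field A] [Algebra L A] {x : A} :
    (cOver k F L A (arr W α)).eval x = 0 ↔ ∃ i, x = rt k F L A α i := by
  refine ⟨root_of_arr, ?_⟩
  rintro ⟨i, hi⟩
  rw [eval_arr, Finset.prod_eq_zero_iff]
  exact ⟨i, Finset.mem_univ i, by rw [hi, sub_self, zero_pow (H.W0 i)]⟩

lemma root_rt (H : AHyp ℓ W α ζ) {A : Type u} [Field A] [Algebra L A] (i : ι) :
    (cOver k F L A (arr W α)).eval (rt k F L A α i) = 0 := (root_arr H).2 ⟨i, rfl⟩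

lemma rt_injective [IsFractionRing F[X] L] (H : AHyp ℓ W α ζ) (A : Type u) [Field A]
    [Algebra L A] : Function.Injective (rt k F L A α) := by
  intro i j hij
  have h1 : base k F L A (α i) = base k F L A (α j) := hij
  have h2 : (α i).map (algebraMap k F) = (α j).map (algebraMap k F) :=
    IsFractionRing.injective F[X] L ((algebraMap L A).injective h1)
  have h3 : α i = α j := Polynomial.map_injective _ (algebraMap k F).injective h2
  exact H.geom.injective h3

omit [LinearOrder ι] in
lemma arr_ne_zero {A : Type u} [Field A] [Algebra L A] : cOver k F L A (arr W α) ≠ 0 := by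
  rw [arr_over]
  exact Finset.prod_ne_zero_iff.2 fun i _ => pow_ne_zero _ (X_sub_C_ne_zero _)

omit [LinearOrder ι] in
private lemma ag_degree {A : Type u} [Field A] [Algebra L A] :
    (cOver k F L A (arr W α)).natDegree = ∑ i, W i := by
  rw [arr_over, natDegree_prod_of_monic _ _ fun i _ => (monic_X_sub_C _).pow _]
  simp

/-- The multiplicities of the roots. -/
lemma wt_rt [IsFractionRing F[X] L] (H : AHyp ℓ W α ζ) {A : Type u} [Field A]
    [Algebra L A] (i : ι) : wt (cOver k F L A (arr W α)) (rt k F L A α i) = W i := by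
  have h1 : cOver k F L A (arr W α) = (X - C (rt k F L A α i)) ^ W i *
      ∏ j ∈ Finset.univ.erase i, (X - C (rt k F L A α j)) ^ W j := by
    rw [arr_over]
    exact (Finset.mul_prod_erase Finset.univ (fun j => (X - C (rt k F L A α j)) ^ W j)
      (Finset.mem_univ i)).symm
  have h2 : (∏ j ∈ Finset.univ.erase i, (X - C (rt k F L A α j)) ^ W j).eval
      (rt k F L A α i) ≠ 0 := by
    rw [eval_prod]
    refine Finset.prod_ne_zero_iff.2 fun j hj => ?_
    rw [eval_pow, eval_sub, eval_X, eval_C]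
    refine pow_ne_zero _ (sub_ne_zero.2 fun h => ?_)
    exact (Finset.mem_erase.1 hj).1 (rt_injective H A h).symm
  unfold wt
  rw [h1, rootMultiplicity_mul (by rw [← h1]; exact arr_ne_zero),
    rootMultiplicity_X_sub_C_pow, rootMultiplicity_eq_zero h2, add_zero]

lemma isGood_arr [IsFractionRing F[X] L] (H : AHyp ℓ W α ζ) (A : Type u) [Field A]
    [Algebra L A] [IsAlgClosed A] : IsGood ℓ (cOver k F L A (arr W α)) := by
  refine ⟨inferInstance, H.prime.one_lt, ?_, ?_, ?_⟩
  · have h1 : (base k F L A) (C (ℓ : k)) = (ℓ : A) := by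
      rw [map_natCast C, map_natCast]
    have h2 : Function.Injective ((base k F L A).comp C) := RingHom.injective _
    intro h0
    apply H.ne
    apply h2
    rw [map_zero]
    exact h1.trans h0
  · intro θ hθ
    obtain ⟨i, rfl⟩ := root_of_arr hθ
    have h1 := wt_rt (F := F) (L := L) (A := A) H i
    unfold wt at h1
    rw [h1]
    exact H.cop i
  · rw [ag_degree]
    exact H.sum

lemma AHyp.lhyp [IsFractionRing F[X] L] (H : AHyp ℓ W α ζ) : LHyp ℓ k F L (arr W α) ζ :=
  ⟨H.prime, H.ne, H.zeta, fun A _ _ _ => isGood_arr H A⟩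

section

variable {Ω : Type u} [Field Ω] [Algebra L Ω]

omit [Fintype ι] [LinearOrder ι] in
/-- The automorphisms over `k(t)` fix the roots. -/
lemma fix_rt (γ : AutO k F L Ω) (i : ι) : (γ : Ω ≃+* Ω) (rt k F L Ω α i) = rt k F L Ω α i :=
  γ.2 (α i)

omit [LinearOrder ι] in
lemma fix_root (γ : AutO k F L Ω) {θ : Ω} (hθ : (cOver k F L Ω (arr W α)).eval θ = 0) :
    (γ : Ω ≃+* Ω) θ = θ := by
  obtain ⟨i, rfl⟩ := root_of_arr hθ
  exact fix_rt γ i

omit [LinearOrder ι] in
/-- Functions on the set of indices give functions on `Ω`. -/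
lemma exists_fun [IsFractionRing F[X] L] [LinearOrder ι] (H : AHyp ℓ W α ζ) (e : ι → ℤ) :
    ∃ n : Ω → ℤ, ∀ i, n (rt k F L Ω α i) = e i := by
  have hinj := rt_injective (F := F) (L := L) H Ω
  refine ⟨fun θ => if h : ∃ i, rt k F L Ω α i = θ then e h.choose else 0, fun i => ?_⟩
  have h : ∃ j, rt k F L Ω α j = rt k F L Ω α i := ⟨i, rfl⟩
  beta_reduce
  rw [dif_pos h, hinj h.choose_spec]

omit [LinearOrder ι] in
lemma symJ_rm_arr [hG : IsGood ℓ (cOver k F L Ω (arr W α))] (γ : AutO k F L Ω) (n : Ω → ℤ) :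
    symJ (toSym (arr W α) γ) (rm n : JacOver ℓ (curveL k F L (arr W α)) Ω) = rm n := by
  rw [symJ_rm]
  refine rm_congr _ _ fun θ hθ => ?_
  have h1 : (((toSym (arr W α) γ)⁻¹ : Sym (cOver k F L Ω (arr W α))) : Ω ≃+* Ω) θ = θ := by
    have h2 : ((toSym (arr W α) γ)⁻¹ : Sym (cOver k F L Ω (arr W α))) = toSym (arr W α) γ⁻¹ := by
      rw [map_inv]
    rw [h2]
    exact fix_root γ⁻¹ hθ
  rw [h1, sub_self]
  exact dvd_zero _

end

end Pool.Agent.Lib.MP_89bcae_ag.Wt.Lns

end
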