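import Mathlib
import Pool.Agent.Lib.MP_89bcae_ag.Mk.K021
import Pool.Agent.Lib.MP_89bcae_ag.Mk.K024

namespace Pool.Agent.Lib.MP_89bcae_ag.Sup
end Pool.Agent.Lib.MP_89bcae_ag.Sup
namespace Pool.Agent.Lib.MP_89bcae_ag.Sup.Lns
end Pool.Agent.Lib.MP_89bcae_ag.Sup.Lns

section

/-!
# The group of classes modulo torsion is torsion-free and separated
-/

open Polynomial IsDedekindDomain

open scoped Classical

namespace Pool.Agent.Lib.MP_89bcae_ag.Wt.Lns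

open Pool.Agent.Lib.MP_89bcae_ag.Sup

universe u

variable {k F L Ω : Type u} [Field k] [Field F] [Algebra k F] [Field L] [Algebra F[X] L]
  [Field Ω] [Algebra L Ω] [IsAlgClosure k F] [IsFractionRing F[X] L] [IsAlgClosure L Ω]
  {ℓ : ℕ} {P : k[X][X]} {ζ : k}

lemma zA_prim (H : LHyp ℓ k F L P ζ) {A : Type u} [Field A] [Algebra L A] :
    IsPrimitiveRoot (zA F L A ζ) ℓ := by
  have hinj : Function.Injective ((base k F L A).comp C) := RingHom.injective _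
  exact H.zeta.map_of_injective hinj

section

variable [hG : IsGood ℓ (cOver k F L Ω P)]

/-- All the torsion points over `L` are sums of ramification points. -/
def TorsRam (ℓ : ℕ) (k F L Ω : Type u) [Field k] [Field F] [Algebra k F] [Field L] [Algebra F[X] L]
    [Field Ω] [Algebra L Ω] [IsAlgClosure k F] [IsFractionRing F[X] L] [IsAlgClosure L Ω]
    (P : k[X][X]) [IsGood ℓ (cOver k F L Ω P)] : Prop :=
  ∀ (n : ℕ) (Q : JacOver ℓ (curveL k F L P) Ω), ℓ ^ n • Q = 0 →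
    (∀ σ : Ω ≃ₐ[L] Ω, symJ (toSym P (galA k F σ)) Q = Q) → ∃ e : Ω → ℤ, Q = rm e

omit [IsAlgClosure k F] [IsFractionRing F[X] L] [IsAlgClosure L Ω] hG in
lemma pow_smul_add {c : Coch ℓ k F L Ω P}
    (hc : IsTateCocycle ℓ (curveL k F L P) c) (t j : ℕ) (σ : Ω ≃ₐ[L] Ω) :
    ℓ ^ t • c (j + t) σ = c j σ := by
  induction t with
  | zero => rw [pow_zero, one_nsmul, add_zero]
  | succ t ih => rw [pow_succ, mul_nsmul', ← add_assoc, hc.smul, ih]

omit [IsAlgClosure k F] [IsFractionRing F[X] L] [IsAlgClosure L Ω] in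
private lemma g08_iterate (ζ : k) (hζ : (zA F L Ω ζ) ^ ℓ = 1) (y : Coch ℓ k F L Ω P) (N : ℕ)
    (σ : Ω ≃ₐ[L] Ω) (m : ℕ) :
    ((fun x : Coch ℓ k F L Ω P => x - Lns.zC ζ hζ x)^[m] y) N σ =
      (fun x => x - zJ (zA F L Ω ζ) hζ x)^[m] (y N σ) := by
  induction m with
  | zero => rfl
  | succ m ih =>
    rw [Function.iterate_succ_apply', Function.iterate_succ_apply', ← ih]
    rfl

/-- (i) -/
theorem TTc.of_sub_zC (H : LHyp ℓ k F L P ζ) (hζ : (zA F L Ω ζ) ^ ℓ = 1)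
    {c : Coch ℓ k F L Ω P} (hc : IsTateCocycle ℓ (curveL k F L P) c)
    (h : TTc (c - Lns.zC ζ hζ c)) : TTc c := by
  have hz : IsPrimitiveRoot (zA F L Ω ζ) ℓ := zA_prim H
  obtain ⟨h1, s, h2⟩ := h
  refine ⟨hc, s + 1, tc_smul_nat hc _, fun n => ?_⟩
  obtain ⟨A, hA, hA2⟩ := h2.2 (n + 1)
  have key : ∀ σ : Ω ≃ₐ[L] Ω, ℓ ^ s • c n σ =
      symJ (toSym P (galA k F σ)) (vJ (zA F L Ω ζ) hζ A) - vJ (zA F L Ω ζ) hζ A := by
    intro σ
    have h4 : ℓ ^ s • (c (n + 1) σ - zJ (zA F L Ω ζ) hζ (c (n + 1) σ)) =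
        symJ (toSym P (galA k F σ)) A - A := by
      have h5 := hA2 σ
      rw [push_eq] at h5
      exact h5
    have h3 : vJ (zA F L Ω ζ) hζ (c (n + 1) σ) -
        zJ (zA F L Ω ζ) hζ (vJ (zA F L Ω ζ) hζ (c (n + 1) σ)) = ℓ • c (n + 1) σ :=
      vJ_sub_zJ _ hz _
    rw [← vJ_symJ (zA F L Ω ζ) hζ _ (zA_fixed ζ (galA k F σ)), ← vJ_sub, ← h4, vJ_smul, vJ_sub,
      vJ_zJ, h3, hc.smul]
  refine ⟨ℓ • vJ (zA F L Ω ζ) hζ A, ?_, fun σ => ?_⟩
  · rw [← vJ_smul, ← vJ_smul, ← mul_nsmul', ← pow_succ, hA]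
    exact map_zero (⟨⟨vJ (zA F L Ω ζ) hζ, by
      have h6 := vJ_smul (zA F L Ω ζ) hζ 0 (0 : JacOver ℓ (curveL k F L P) Ω)
      rwa [zero_smul, zero_smul] at h6⟩, vJ_add (zA F L Ω ζ) hζ⟩ :
      JacOver ℓ (curveL k F L P) Ω →+ JacOver ℓ (curveL k F L P) Ω)
  · change ℓ ^ (s + 1) • c n σ = _
    rw [pow_succ', mul_nsmul', key σ, smul_sub, push_eq, map_nsmul]

/-- (ii) -/
theorem TTc.of_smul (H : LHyp ℓ k F L P ζ) {c : Coch ℓ k F L Ω P}
    (hc : IsTateCocycle ℓ (curveL k F L P) c) {m : ℕ} (hm : 0 < m) (h : TTc (m • c)) :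
    TTc c := by
  obtain ⟨s, m', hm', hmm⟩ := Nat.exists_eq_pow_mul_and_not_dvd hm.ne' ℓ H.prime.ne_one
  obtain ⟨h1, t, h2⟩ := h
  refine ⟨hc, t + s, tc_smul_nat hc _, fun n => ?_⟩
  have hcop : IsCoprime (m' : ℤ) ((ℓ ^ n : ℕ) : ℤ) := by
    rw [Nat.isCoprime_iff_coprime]
    exact Nat.Coprime.pow_right n ((Nat.Prime.coprime_iff_not_dvd H.prime).2 hm').symm
  obtain ⟨a, b, hab⟩ := hcop
  obtain ⟨A, hA, hA2⟩ := h2.2 n
  have hx : IsTateCocycle ℓ (curveL k F L P) (ℓ ^ (t + s) • c : Coch ℓ k F L Ω P) :=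
    tc_smul_nat hc _
  have h3 : ∀ σ : Ω ≃ₐ[L] Ω, m' • (ℓ ^ (t + s) • c : Coch ℓ k F L Ω P) n σ =
      push ℓ (curveL k F L P) (σ : Ω →ₐ[L] Ω) A - A := by
    intro σ
    rw [← hA2 σ]
    change m' • ℓ ^ (t + s) • c n σ = ℓ ^ t • m • c n σ
    rw [hmm, ← mul_smul, ← mul_smul]
    congr 1
    ring
  refine ⟨a • A, by rw [smul_comm, hA, smul_zero], fun σ => ?_⟩
  have h4 : (a * (m' : ℤ) + b * ((ℓ ^ n : ℕ) : ℤ)) • (ℓ ^ (t + s) • c : Coch ℓ k F L Ω P) n σ =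
      (ℓ ^ (t + s) • c : Coch ℓ k F L Ω P) n σ := by
    rw [hab, one_zsmul]
  rw [add_zsmul, mul_zsmul, mul_zsmul, natCast_zsmul, natCast_zsmul, tc_pow_smul hx, zsmul_zero,
    add_zero, h3 σ] at h4
  rw [← h4, zsmul_sub, map_zsmul]

/-- The operator `1 - Z` maps torsion cocycles to trivial ones. -/
theorem TTc.sub_zC_trc (T : TorsRam ℓ k F L Ω P) (hζ : (zA F L Ω ζ) ^ ℓ = 1)
    {c : Coch ℓ k F L Ω P} (h : TTc c) : Trc (c - Lns.zC ζ hζ c) := by
  refine ⟨?_, fun n => ?_⟩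
  · rw [sub_eq_add_neg]
    exact tc_add h.1 (tc_neg (tc_zC h.1 ζ hζ))
  obtain ⟨s, A, hA, hcA⟩ := h.exists_coboundary n
  obtain ⟨e, he⟩ := T s (ℓ ^ n • A) (by rw [← mul_smul, ← pow_add, add_comm s n, hA]) (fun σ => by
    have h5 := tc_pow_smul h.1 n σ
    rw [hcA σ, push_eq, nsmul_sub, sub_eq_zero] at h5
    rw [map_nsmul, h5])
  refine ⟨A - zJ (zA F L Ω ζ) hζ A, ?_, fun σ => ?_⟩
  · rw [smul_sub, ← map_nsmul, he, zJ_rm, sub_self]
  · change c n σ - zJ (zA F L Ω ζ) hζ (c n σ) = _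
    rw [hcA σ, push_eq, push_eq, map_sub, map_sub,
      zJ_symJ (zA F L Ω ζ) hζ _ (zA_fixed ζ (galA k F σ))]
    abel

/-- (iii) -/
theorem TTc.of_separated (H : LHyp ℓ k F L P ζ) (T : TorsRam ℓ k F L Ω P)
    (hζ : (zA F L Ω ζ) ^ ℓ = 1)
    {c : Coch ℓ k F L Ω P} (hc : IsTateCocycle ℓ (curveL k F L P) c)
    (h : ∀ n : ℕ, ∃ y : Coch ℓ k F L Ω P, IsTateCocycle ℓ (curveL k F L P) y ∧
      TTc (c - (fun x => x - Lns.zC ζ hζ x)^[n] y)) : TTc c := by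
  have hz : IsPrimitiveRoot (zA F L Ω ζ) ℓ := zA_prim H
  have hcz : IsTateCocycle ℓ (curveL k F L P) (c - Lns.zC ζ hζ c) := by
    rw [sub_eq_add_neg]
    exact tc_add hc (tc_neg (tc_zC hc ζ hζ))
  refine TTc.of_sub_zC H hζ hc (Trc.tt ⟨hcz, fun N => ?_⟩)
  obtain ⟨y, hy, h1⟩ := h ((ℓ - 1) * N)
  obtain ⟨A, hA, hA2⟩ := (h1.sub_zC_trc T hζ).2 N
  refine ⟨A, hA, fun σ => ?_⟩
  rw [← hA2 σ]
  have h2 : ((fun x : Coch ℓ k F L Ω P => x - Lns.zC ζ hζ x)^[(ℓ - 1) * N] y) N σ = 0 := by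
    rw [g08_iterate]
    exact iterate_eq_zero_of_smul H.prime _ hz N _ (tc_pow_smul hy N σ)
  change c N σ - zJ (zA F L Ω ζ) hζ (c N σ) =
    (c N σ - ((fun x : Coch ℓ k F L Ω P => x - Lns.zC ζ hζ x)^[(ℓ - 1) * N] y) N σ) -
      zJ (zA F L Ω ζ) hζ
        (c N σ - ((fun x : Coch ℓ k F L Ω P => x - Lns.zC ζ hζ x)^[(ℓ - 1) * N] y) N σ)
  rw [h2, sub_zero]

/-- (iv) -/
theorem TTc.of_isFixedBy (H : LHyp ℓ k F L P ζ) {c : Coch ℓ k F L Ω P}
    (hc : IsTateCocycle ℓ (curveL k F L P) c) (γ : AutO k F L Ω)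
    (h : IsFixedBy ℓ (curveL k F L P) c (γ : Ω ≃+* Ω) (toSym P γ).2) :
    TTc (Lns.act γ c - c) := by
  obtain ⟨m, hm, h1⟩ := h
  have hcoc : IsTateCocycle ℓ (curveL k F L P) (Lns.act γ c - c) := by
    rw [sub_eq_add_neg]
    exact tc_add (tc_act hc γ) (tc_neg hc)
  refine TTc.of_smul H hcoc hm (Trc.tt ⟨tc_smul_nat hcoc m, fun n => ?_⟩)
  obtain ⟨A, hA, hA2⟩ := h1 n
  refine ⟨A, hA, fun σ => ?_⟩
  refine hA2 (conjG γ⁻¹ σ) σ fun x => ?_
  have h2 := conjG_spec γ⁻¹ σ ((γ : Ω ≃+* Ω) x)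
  have h3 : ((γ⁻¹ : AutO k F L Ω) : Ω ≃+* Ω) ((γ : Ω ≃+* Ω) x) = x :=
    (γ : Ω ≃+* Ω).symm_apply_apply x
  rw [h3] at h2
  rw [h2]
  exact (γ : Ω ≃+* Ω).apply_symm_apply _

end

end Pool.Agent.Lib.MP_89bcae_ag.Wt.Lns

end

section

/-!
# The exponents of a cocycle
-/

open Polynomial IsDedekindDomain

open scoped Classical

namespace Pool.Agent.Lib.MP_89bcae_ag.Wt.Lns

open Pool.Agent.Lib.MP_89bcae_ag.Sup Pool.Agent.Lib.MP_89bcae_ag.Sup.Lns

universe u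

set_option linter.unusedSectionVars false

/-- The product `∏ (t - s) ^ (m s)` over the roots `s` of the differences. -/
noncomputable def TP {ι : Type} [Fintype ι] [LinearOrder ι] {F A : Type u} [Field F] [Field A]
    [Algebra F A] (a : ι → F[X]) (t : A) (m : F → ℤ) : A :=
  ∏ s ∈ SS a, (t - algebraMap F A s) ^ m s

section

variable {E : Type u} [Field E] {ℓ : ℕ}

lemma zpow_eq_iff {ζ : E} (hℓ : ℓ ≠ 0) (hζ : IsPrimitiveRoot ζ ℓ) (a b : ℤ) :
    ζ ^ a = ζ ^ b ↔ (ℓ : ℤ) ∣ a - b := by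
  have h0 : ζ ≠ 0 := hζ.ne_zero hℓ
  rw [← hζ.zpow_eq_one_iff_dvd, zpow_sub₀ h0, div_eq_one_iff_eq (zpow_ne_zero _ h0)]

lemma exists_zpow {ζ x y : E} (hℓ : ℓ ≠ 0) (hζ : IsPrimitiveRoot ζ ℓ) (hy : y ≠ 0)
    (h : x ^ ℓ = y ^ ℓ) : ∃ n : ℤ, x = ζ ^ n * y := by
  have : NeZero ℓ := ⟨hℓ⟩
  have h1 : (x / y) ^ ℓ = 1 := by
    rw [div_pow, h, div_self (pow_ne_zero _ hy)]
  obtain ⟨i, -, hi⟩ := hζ.eq_pow_of_pow_eq_one h1
  refine ⟨i, ?_⟩
  rw [zpow_natCast, hi, div_mul_cancel₀ _ hy]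

lemma rm_zero' {f : E[X]} [hG : IsGood ℓ f] : (rm (fun _ => 0) : Jac ℓ f) = 0 := by
  have h1 := rm_sub (N := ℓ) (f := f) (fun _ => 0) (fun _ => 0)
  exact h1.trans (sub_self _)

lemma rm_neg' {f : E[X]} [hG : IsGood ℓ f] (e : E → ℤ) :
    (rm (fun θ => -e θ) : Jac ℓ f) = -rm e := by
  have h1 := rm_sub (N := ℓ) (f := f) (fun _ => 0) e
  rw [rm_zero', zero_sub] at h1
  rw [← h1]
  congr 1
  funext θ
  rw [zero_sub]

lemma vJ_neg' {f : E[X]} [hG : IsGood ℓ f] (ζ : E) (hζ : ζ ^ ℓ = 1) (Q : Jac ℓ f) :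
    vJ ζ hζ (-Q) = -vJ ζ hζ Q :=
  (AddMonoidHom.mk' (vJ ζ hζ) (vJ_add ζ hζ)).map_neg Q

lemma coprime_expChar {K : Type*} [Field K] (hℓ : ℓ.Prime) (h : (ℓ : K) ≠ 0) :
    ℓ.Coprime (ringExpChar K) := by
  have h1 := ringExpChar.expChar K
  generalize ringExpChar K = q at h1 ⊢
  cases h1 with
  | zero => exact Nat.coprime_one_right ℓ
  | prime hp =>
    rw [Nat.coprime_primes hℓ hp]
    rintro rfl
    exact h (CharP.cast_eq_zero K _)

end

variable {ι : Type} [Fintype ι] [LinearOrder ι]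
  {k F L Ω : Type u} [Field k] [Field F] [Algebra k F] [Field L] [Algebra F[X] L]
  [Field Ω] [Algebra L Ω] [IsAlgClosure k F] [IsFractionRing F[X] L] [IsAlgClosure L Ω]
  [Algebra F Ω] {ℓ : ℕ} {W : ι → ℕ} {α : ι → k[X]} {ζ : k} {a : ι → F[X]}

lemma t_sub_ne (hF : CompatF F L Ω) (s : F) : tA F L Ω - algebraMap F Ω s ≠ 0 := by
  intro h0
  have h1 : aeval (tA F L Ω) (X - C s : F[X]) = aeval (tA F L Ω) (0 : F[X]) := by
    rw [map_sub, aeval_X, aeval_C, h0, map_zero]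
  exact X_sub_C_ne_zero s (tA_inj hF h1)

lemma TP_ne (hF : CompatF F L Ω) (m : F → ℤ) : TP a (tA F L Ω) m ≠ 0 :=
  Finset.prod_ne_zero_iff.2 fun s _ => zpow_ne_zero _ (t_sub_ne hF s)

lemma TP_add (hF : CompatF F L Ω) (m m' : F → ℤ) :
    TP a (tA F L Ω) (fun s => m s + m' s) = TP a (tA F L Ω) m * TP a (tA F L Ω) m' := by
  unfold TP
  rw [← Finset.prod_mul_distrib]
  exact Finset.prod_congr rfl fun s _ => zpow_add₀ (t_sub_ne hF s) _ _

lemma TP_neg (m : F → ℤ) :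
    TP a (tA F L Ω) (fun s => -m s) = (TP a (tA F L Ω) m)⁻¹ := by
  unfold TP
  rw [← Finset.prod_inv_distrib]
  exact Finset.prod_congr rfl fun s _ => zpow_neg _ _

lemma TP_sub (hF : CompatF F L Ω) (m m' : F → ℤ) :
    TP a (tA F L Ω) (fun s => m s - m' s) = TP a (tA F L Ω) m / TP a (tA F L Ω) m' := by
  unfold TP
  rw [← Finset.prod_div_distrib]
  exact Finset.prod_congr rfl fun s _ => zpow_sub₀ (t_sub_ne hF s) _ _

lemma TP_mul (n : ℤ) (m : F → ℤ) :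
    TP a (tA F L Ω) (fun s => n * m s) = (TP a (tA F L Ω) m) ^ n := by
  unfold TP
  rw [← Finset.prod_zpow]
  refine Finset.prod_congr rfl fun s _ => ?_
  rw [← zpow_mul, mul_comm]

lemma TP_sum (hF : CompatF F L Ω) {κ : Type*} (S : Finset κ) (m : κ → F → ℤ) :
    TP a (tA F L Ω) (fun s => ∑ i ∈ S, m i s) = ∏ i ∈ S, TP a (tA F L Ω) (m i) := by
  induction S using Finset.induction_on with
  | empty =>
    unfold TP
    simp
  | insert i T hi ih =>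
    rw [Finset.prod_insert hi, ← ih, ← TP_add hF]
    congr 1
    funext s
    rw [Finset.sum_insert hi]

lemma TP_congr (m m' : F → ℤ) (h : ∀ s ∈ SS a, m s = m' s) :
    TP a (tA F L Ω) m = TP a (tA F L Ω) m' :=
  Finset.prod_congr rfl fun s hs => by rw [h s hs]

lemma const_fixed (hF : CompatF F L Ω) (σ : Ω ≃ₐ[L] Ω) (c : F) :
    σ (algebraMap F Ω c) = algebraMap F Ω c := by
  rw [hF c]
  exact σ.commutes _

lemma TP_gal (hF : CompatF F L Ω) (σ : Ω ≃ₐ[L] Ω) (m : F → ℤ) :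
    σ (TP a (tA F L Ω) m) = TP a (tA F L Ω) m := by
  unfold TP
  rw [map_prod]
  refine Finset.prod_congr rfl fun s _ => ?_
  rw [map_zpow₀, map_sub, const_fixed hF]
  have h1 : σ (tA F L Ω) = tA F L Ω := σ.commutes _
  rw [h1]

lemma const_aut (hF : CompatF F L Ω) (γ : AutO k F L Ω) (c : F) :
    (γ : Ω ≃+* Ω) (algebraMap F Ω c) = algebraMap F Ω (resF γ c) := by
  rw [hF c, resF_spec, map_C, hF]
  rfl

lemma tA_aut (γ : AutO k F L Ω) : (γ : Ω ≃+* Ω) (tA F L Ω) = tA F L Ω := by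
  have h := γ.2 X
  have h1 : base k F L Ω X = tA F L Ω := by
    change algebraMap L Ω (algebraMap F[X] L ((X : k[X]).map (algebraMap k F))) = _
    rw [map_X]
    rfl
  rwa [h1] at h

lemma TP_aut (hF : CompatF F L Ω) (γ : AutO k F L Ω) (hγ : ∀ s ∈ SS a, resF γ s = s)
    (m : F → ℤ) : (γ : Ω ≃+* Ω) (TP a (tA F L Ω) m) = TP a (tA F L Ω) m := by
  unfold TP
  rw [map_prod]
  refine Finset.prod_congr rfl fun s hs => ?_
  rw [map_zpow₀, map_sub, const_aut hF, hγ s hs, tA_aut]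

/-- If `x ^ ℓ` is a product of powers of the `t - s` and `x` is fixed by the Galois group then the
exponents are divisible by `ℓ`. -/
lemma dvd_of_fixed (hF : CompatF F L Ω) (hℓ : ℓ.Prime) (hℓL : (ℓ : L) ≠ 0) {x : Ω} {c : F}
    (hc : c ≠ 0) {m : F → ℤ} (hx : x ^ ℓ = algebraMap F Ω c * TP a (tA F L Ω) m)
    (hfix : ∀ σ : Ω ≃ₐ[L] Ω, σ x = x) : ∀ s ∈ SS a, (ℓ : ℤ) ∣ m s := by
  obtain ⟨r, y, hy⟩ := exists_pow_mem_L x hfix
  obtain ⟨A, B, hB, rfl⟩ := IsFractionRing.div_surjective (A := F[X]) y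
  have hB0 : B ≠ 0 := nonZeroDivisors.ne_zero hB
  set q := ringExpChar L ^ r with hq
  have hc' : algebraMap F Ω c ≠ 0 := (_root_.map_ne_zero _).2 hc
  have h1 : TP a (tA F L Ω) (fun s => (q : ℤ) * m s) =
      algebraMap F Ω (c ^ q)⁻¹ * (aeval (tA F L Ω) A / aeval (tA F L Ω) B) ^ ℓ := by
    rw [TP_mul, zpow_natCast, aeval_tA hF, aeval_tA hF, ← map_div₀, ← hy, ← pow_mul, mul_comm q ℓ,
      pow_mul, hx, mul_pow, map_inv₀, map_pow, ← mul_assoc,
      inv_mul_cancel₀ (pow_ne_zero _ hc'), one_mul]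
  intro s hs
  have h2 := dvd_of_prod_eq_pow (θ := tA F L Ω) (fun p p' h => tA_inj hF h) (SS a)
    (fun s => (q : ℤ) * m s) (c ^ q)⁻¹ (inv_ne_zero (pow_ne_zero _ hc)) A B hB0 h1 s hs
  have h3 : IsCoprime (ℓ : ℤ) (q : ℤ) := by
    rw [Nat.isCoprime_iff_coprime]
    exact (coprime_expChar hℓ hℓL).pow_right r
  exact h3.dvd_of_dvd_mul_left h2

lemma zA_gal (σ : Ω ≃ₐ[L] Ω) : σ (zA F L Ω ζ) = zA F L Ω ζ := σ.commutes _

/-- The converse. -/
lemma fixed_of_dvd (hF : CompatF F L Ω) (H : AHyp ℓ W α ζ) {x : Ω} {c : F} (hc : c ≠ 0)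
    {m : F → ℤ} (hx : x ^ ℓ = algebraMap F Ω c * TP a (tA F L Ω) m)
    (hd : ∀ s ∈ SS a, (ℓ : ℤ) ∣ m s) (σ : Ω ≃ₐ[L] Ω) : σ x = x := by
  have hFc : IsAlgClosed F := IsAlgClosure.isAlgClosed k
  have hℓ0 := H.prime.ne_zero
  have h1 : ∀ s, ∃ i : ℤ, s ∈ SS a → m s = ℓ * i := by
    intro s
    by_cases hs : s ∈ SS a
    · obtain ⟨i, hi⟩ := hd s hs
      exact ⟨i, fun _ => hi⟩
    · exact ⟨0, fun h => absurd h hs⟩
  choose i hi using h1
  obtain ⟨d, hd'⟩ := IsAlgClosed.exists_pow_nat_eq c (Nat.pos_of_ne_zero hℓ0)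
  have hd0 : d ≠ 0 := by
    rintro rfl
    rw [zero_pow hℓ0] at hd'
    exact hc hd'.symm
  have h2 : x ^ ℓ = (algebraMap F Ω d * TP a (tA F L Ω) i) ^ ℓ := by
    rw [hx, mul_pow, ← map_pow, hd', ← zpow_natCast (TP a (tA F L Ω) i), ← TP_mul]
    congr 1
    exact TP_congr _ _ hi
  have h3 : algebraMap F Ω d * TP a (tA F L Ω) i ≠ 0 :=
    mul_ne_zero ((_root_.map_ne_zero _).2 hd0) (TP_ne hF _)
  obtain ⟨n, hn⟩ := exists_zpow hℓ0 (zA_prim H.lhyp (F := F) (L := L) (A := Ω)) h3 h2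
  rw [hn, map_mul, map_zpow₀, zA_gal, map_mul, const_fixed hF, TP_gal hF]

/-- The exponents `n` exist. -/
lemma exists_n (H : AHyp ℓ W α ζ) {z : ι → Ω} (hz : ∀ i, z i ≠ 0) (γ : AutO k F L Ω)
    (hγ : ∀ i, (γ : Ω ≃+* Ω) (z i ^ ℓ) = z i ^ ℓ) :
    ∃ n : Ω → ℤ, ∀ i, (γ : Ω ≃+* Ω) (z i) = zA F L Ω ζ ^ n (rt k F L Ω α i) * z i := by
  have h1 : ∀ i, ∃ n : ℤ, (γ : Ω ≃+* Ω) (z i) = zA F L Ω ζ ^ n * z i := by
    intro i
    apply exists_zpow H.prime.ne_zero (zA_prim H.lhyp) (hz i)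
    rw [← map_pow, hγ]
  choose n hn using h1
  obtain ⟨n', hn'⟩ := exists_fun (F := F) (L := L) (Ω := Ω) H n
  refine ⟨n', fun i => ?_⟩
  rw [hn']
  exact hn i

section

variable [hG : IsGood ℓ (cOver k F L Ω (arr W α))]

/-- Comparison of the exponents. -/
lemma rm_eq_of_zpow (H : AHyp ℓ W α ζ) (n n' : Ω → ℤ)
    (h : ∀ i, zA F L Ω ζ ^ n (rt k F L Ω α i) = zA F L Ω ζ ^ n' (rt k F L Ω α i)) :
    (rm n : JacOver ℓ (curveL k F L (arr W α)) Ω) = rm n' := by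
  apply rm_congr
  intro θ hθ
  obtain ⟨i, rfl⟩ := root_of_arr hθ
  exact (zpow_eq_iff H.prime.ne_zero (zA_prim H.lhyp) _ _).1 (h i)

/-- The exponents `e` describe the class of `c` modulo `1 - Z`. -/
structure HasExp (hζ : (zA F L Ω ζ) ^ ℓ = 1) (c : Coch ℓ k F L Ω (arr W α)) (e : ι → F → ℤ) :
    Prop where
  node : ∀ s ∈ SS (aF F α), ∀ r : F,
    (ℓ : ℤ) ∣ ∑ i ∈ Finset.univ.filter (fun i => (aF F α i).eval s = r), W i * e i s
  ex : ∃ z : ι → Ω, (∀ i, z i ^ ℓ = TP (aF F α) (tA F L Ω) (e i)) ∧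
    ∀ (σ : Ω ≃ₐ[L] Ω) (n : Ω → ℤ), (∀ i,
      σ (z i) = zA F L Ω ζ ^ n (rt k F L Ω α i) * z i) → vJ (zA F L Ω ζ) hζ (c 1 σ) = rm n

lemma z_ne (hF : CompatF F L Ω) (hℓ : ℓ.Prime) {x : Ω} {m : F → ℤ}
    (hx : x ^ ℓ = TP a (tA F L Ω) m) : x ≠ 0 := by
  rintro rfl
  rw [zero_pow hℓ.ne_zero] at hx
  exact TP_ne hF m hx.symm

lemma exists_n_gal (hF : CompatF F L Ω) (H : AHyp ℓ W α ζ) {e : ι → F → ℤ} {z : ι → Ω}
    (hz : ∀ i, z i ^ ℓ = TP (aF F α) (tA F L Ω) (e i)) (σ : Ω ≃ₐ[L] Ω) :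
    ∃ n : Ω → ℤ, ∀ i, σ (z i) = zA F L Ω ζ ^ n (rt k F L Ω α i) * z i := by
  refine exists_n H (fun i => z_ne hF H.prime (hz i)) (galA k F σ) fun i => ?_
  rw [hz i]
  exact TP_gal hF σ _

variable {hζ : (zA F L Ω ζ) ^ ℓ = 1} {c c' : Coch ℓ k F L Ω (arr W α)} {e e' : ι → F → ℤ}

lemma HasExp.add (hF : CompatF F L Ω) (H : AHyp ℓ W α ζ) (h : HasExp hζ c e)
    (h' : HasExp hζ c' e') : HasExp hζ (c + c') (fun i s => e i s + e' i s) := by
  obtain ⟨z, hz, hzn⟩ := h.ex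
  obtain ⟨z', hz', hzn'⟩ := h'.ex
  refine ⟨fun s hs r => ?_, fun i => z i * z' i, fun i => ?_, fun σ n hn => ?_⟩
  · simp only [mul_add]
    rw [Finset.sum_add_distrib]
    exact dvd_add (h.node s hs r) (h'.node s hs r)
  · rw [mul_pow, hz i, hz' i]
    exact (TP_add hF _ _).symm
  · obtain ⟨n₁, hn₁⟩ := exists_n_gal hF H hz σ
    obtain ⟨n₂, hn₂⟩ := exists_n_gal hF H hz' σ
    have h1 : vJ (zA F L Ω ζ) hζ ((c + c') 1 σ) = rm (fun θ => n₁ θ + n₂ θ) := by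
      rw [rm_add, ← hzn σ n₁ hn₁, ← hzn' σ n₂ hn₂, ← vJ_add]
      rfl
    rw [h1]
    refine rm_eq_of_zpow H _ _ fun i => ?_
    have h2 := hn i
    rw [map_mul, hn₁ i, hn₂ i] at h2
    have h3 := z_ne hF H.prime (hz i)
    have h4 := z_ne hF H.prime (hz' i)
    rw [zpow_add₀ ((zA_prim H.lhyp).ne_zero H.prime.ne_zero)]
    apply mul_right_cancel₀ (mul_ne_zero h3 h4)
    rw [← h2]
    ring

lemma HasExp.neg (hF : CompatF F L Ω) (H : AHyp ℓ W α ζ) (h : HasExp hζ c e) :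
    HasExp hζ (-c) (fun i s => -e i s) := by
  obtain ⟨z, hz, hzn⟩ := h.ex
  refine ⟨fun s hs r => ?_, fun i => (z i)⁻¹, fun i => ?_, fun σ n hn => ?_⟩
  · simp only [mul_neg]
    rw [Finset.sum_neg_distrib]
    exact (dvd_neg).2 (h.node s hs r)
  · rw [inv_pow, hz i]
    exact (TP_neg _).symm
  · obtain ⟨n₁, hn₁⟩ := exists_n_gal hF H hz σ
    have h1 : vJ (zA F L Ω ζ) hζ ((-c) 1 σ) = rm (fun θ => -n₁ θ) := by
      rw [rm_neg', ← hzn σ n₁ hn₁, ← vJ_neg']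
      rfl
    rw [h1]
    refine rm_eq_of_zpow H _ _ fun i => ?_
    have h2 := hn i
    have h3 := z_ne hF H.prime (hz i)
    rw [map_inv₀, hn₁ i, mul_inv, ← zpow_neg] at h2
    exact mul_right_cancel₀ (inv_ne_zero h3) h2

lemma HasExp.congr (hF : CompatF F L Ω) (H : AHyp ℓ W α ζ) (h : HasExp hζ c e)
    (he : ∀ s ∈ SS (aF F α), ∀ i, (ℓ : ℤ) ∣ e' i s - e i s) : HasExp hζ c e' := by
  obtain ⟨z, hz, hzn⟩ := h.ex
  have h1 : ∀ i s, ∃ d : ℤ, s ∈ SS (aF F α) → e' i s = e i s + ℓ * d := by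
    intro i s
    by_cases hs : s ∈ SS (aF F α)
    · obtain ⟨d, hd⟩ := he s hs i
      exact ⟨d, fun _ => by linarith⟩
    · exact ⟨0, fun h => absurd h hs⟩
  choose d hd using h1
  refine ⟨fun s hs r => ?_, fun i => z i * TP (aF F α) (tA F L Ω) (d i), fun i => ?_,
    fun σ n hn => ?_⟩
  · have h2 : ∑ i ∈ Finset.univ.filter (fun i => (aF F α i).eval s = r), W i * e' i s =
        ∑ i ∈ Finset.univ.filter (fun i => (aF F α i).eval s = r), W i * e i s +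
        ℓ * ∑ i ∈ Finset.univ.filter (fun i => (aF F α i).eval s = r), W i * d i s := by
      rw [Finset.mul_sum, ← Finset.sum_add_distrib]
      refine Finset.sum_congr rfl fun i _ => ?_
      rw [hd i s hs]
      ring
    rw [h2]
    exact dvd_add (h.node s hs r) (dvd_mul_right _ _)
  · rw [mul_pow, hz i, ← zpow_natCast, ← TP_mul, ← TP_add hF]
    exact TP_congr _ _ fun s hs => (hd i s hs).symm
  · apply hzn
    intro i
    have h2 := hn i
    rw [map_mul, TP_gal hF, ← mul_assoc] at h2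
    exact mul_right_cancel₀ (TP_ne hF _) h2

lemma HasExp.zC (h : HasExp hζ c e) : HasExp hζ (Lns.zC ζ hζ c) e := by
  obtain ⟨z, hz, hzn⟩ := h.ex
  refine ⟨h.node, z, hz, fun σ n hn => ?_⟩
  have h1 : (Lns.zC ζ hζ c) 1 σ = zJ (zA F L Ω ζ) hζ (c 1 σ) := rfl
  rw [h1, vJ_zJ, hzn σ n hn, zJ_rm]

lemma conjG_inv_apply (γ : AutO k F L Ω) (σ : Ω ≃ₐ[L] Ω) (x : Ω) : (conjG γ⁻¹ σ) x =
    (γ : Ω ≃+* Ω).symm (σ ((γ : Ω ≃+* Ω) x)) := by
  have h2 := conjG_spec γ⁻¹ σ ((γ : Ω ≃+* Ω) x)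
  have h3 : ∀ y : Ω, ((γ⁻¹ : AutO k F L Ω) : Ω ≃+* Ω) y = (γ : Ω ≃+* Ω).symm y :=
    fun y => rfl
  rw [h3, h3, RingEquiv.symm_apply_apply] at h2
  exact h2

/-- The conjugates of `σ` act on the functions `z i` in the same way. -/
lemma conj_z (hF : CompatF F L Ω) (H : AHyp ℓ W α ζ) (γ : AutO k F L Ω)
    (hγ : ∀ s ∈ SS (aF F α), resF γ s = s) {z : ι → Ω}
    (hz : ∀ i, z i ^ ℓ = TP (aF F α) (tA F L Ω) (e i)) {σ : Ω ≃ₐ[L] Ω} {n : Ω → ℤ}
    (hn : ∀ i, σ (z i) = zA F L Ω ζ ^ n (rt k F L Ω α i) * z i) :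
    ∀ i, (conjG γ⁻¹ σ) (z i) = zA F L Ω ζ ^ n (rt k F L Ω α i) * z i := by
  intro i
  obtain ⟨q, hq⟩ := exists_n H (fun i => z_ne hF H.prime (hz i)) γ (fun i => by
    rw [hz i]
    exact TP_aut hF γ hγ _)
  have h6 : (γ : Ω ≃+* Ω).symm (zA F L Ω ζ) = zA F L Ω ζ := by
    rw [RingEquiv.symm_apply_eq]
    exact (zA_fixed ζ γ).symm
  have h7 : (γ : Ω ≃+* Ω).symm (z i) = (zA F L Ω ζ ^ q (rt k F L Ω α i))⁻¹ * z i := by
    rw [RingEquiv.symm_apply_eq, map_mul, map_inv₀, map_zpow₀, zA_fixed ζ γ, hq i, ← mul_assoc,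
      inv_mul_cancel₀, one_mul]
    exact zpow_ne_zero _ ((zA_prim H.lhyp).ne_zero H.prime.ne_zero)
  rw [conjG_inv_apply, hq i, map_mul, map_zpow₀, zA_gal, hn i, map_mul, map_mul, map_zpow₀,
    map_zpow₀, h6, h7]
  have h8 : zA F L Ω ζ ^ q (rt k F L Ω α i) ≠ 0 :=
    zpow_ne_zero _ ((zA_prim H.lhyp).ne_zero H.prime.ne_zero)
  field_simp

lemma HasExp.act (hF : CompatF F L Ω) (H : AHyp ℓ W α ζ) (h : HasExp hζ c e) (γ : AutO k F L Ω)
    (hγ : ∀ s ∈ SS (aF F α), resF γ s = s) : HasExp hζ (Lns.act γ c) e := by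
  obtain ⟨z, hz, hzn⟩ := h.ex
  refine ⟨h.node, z, hz, fun σ n hn => ?_⟩
  have h1 : (Lns.act γ c) 1 σ = symJ (toSym (arr W α) γ) (c 1 (conjG γ⁻¹ σ)) := rfl
  rw [h1, vJ_symJ _ _ _ (zA_fixed ζ γ), hzn _ n (conj_z hF H γ hγ hz hn), symJ_rm_arr]

/-- The exponents are unique modulo `ℓ`. -/
lemma HasExp.unique (hF : CompatF F L Ω) (H : AHyp ℓ W α ζ) (h : HasExp hζ c e)
    (h' : HasExp hζ c e') : ∀ s ∈ SS (aF F α), ∀ i, (ℓ : ℤ) ∣ e i s - e' i s := by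
  obtain ⟨z, hz, hzn⟩ := h.ex
  obtain ⟨z', hz', hzn'⟩ := h'.ex
  have hprim : IsPrimitiveRoot (zA F L Ω ζ) ℓ := zA_prim H.lhyp
  have hℓ0 := H.prime.ne_zero
  have hz0 : ∀ i, z i ≠ 0 := fun i => z_ne hF H.prime (hz i)
  have hz0' : ∀ i, z' i ≠ 0 := fun i => z_ne hF H.prime (hz' i)
  have hℓL : (ℓ : L) ≠ 0 := by
    intro h0
    apply H.ne
    have h1 : Function.Injective ((base k F L L).comp C) := RingHom.injective _
    apply h1
    rw [map_natCast, h0, map_zero]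
  have hsum : ∀ (e : ι → F → ℤ), (∀ s ∈ SS (aF F α), ∀ r : F,
      (ℓ : ℤ) ∣ ∑ i ∈ Finset.univ.filter (fun i => (aF F α i).eval s = r), W i * e i s) →
      ∀ s ∈ SS (aF F α), (ℓ : ℤ) ∣ ∑ i, W i * e i s := by
    intro e he s hs
    rw [← Finset.sum_fiberwise_of_maps_to (s := Finset.univ)
      (t := Finset.univ.image fun i => (aF F α i).eval s) (g := fun i => (aF F α i).eval s)
      (fun i hi => Finset.mem_image_of_mem _ hi)]
    exact Finset.dvd_sum fun r _ => he s hs r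
  -- the common multiplier
  have hk : ∀ σ : Ω ≃ₐ[L] Ω, ∃ j : ℤ, ∀ i, σ (z i / z' i) = zA F L Ω ζ ^ j * (z i / z' i) := by
    intro σ
    obtain ⟨n, hn⟩ := exists_n_gal hF H hz σ
    obtain ⟨n', hn'⟩ := exists_n_gal hF H hz' σ
    have h1 : (rm (fun θ => n θ - n' θ) : JacOver ℓ (curveL k F L (arr W α)) Ω) = 0 := by
      rw [rm_sub, ← hzn σ n hn, ← hzn' σ n' hn', sub_self]
    obtain ⟨j, hj⟩ := (rm_eq_zero_iff (zA F L Ω ζ) hprim _).1 h1
    refine ⟨j, fun i => ?_⟩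
    have h2 := hj _ (root_rt (F := F) (L := L) (A := Ω) H i)
    rw [map_div₀, hn i, hn' i]
    have h3 : zA F L Ω ζ ^ j = zA F L Ω ζ ^ (n (rt k F L Ω α i) - n' (rt k F L Ω α i)) := by
      rw [zpow_eq_iff hℓ0 hprim, ← dvd_neg, neg_sub]
      exact h2
    rw [h3, zpow_sub₀ (hprim.ne_zero hℓ0)]
    have h4 := hz0' i
    have h5 : zA F L Ω ζ ^ n' (rt k F L Ω α i) ≠ 0 := zpow_ne_zero _ (hprim.ne_zero hℓ0)
    field_simp
  have hY : (∏ i, (z i / z' i) ^ W i) ^ ℓ = algebraMap F Ω 1 *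
      TP (aF F α) (tA F L Ω) (fun s => ∑ i, W i * (e i s - e' i s)) := by
    rw [map_one, one_mul, TP_sum hF, ← Finset.prod_pow]
    refine Finset.prod_congr rfl fun i _ => ?_
    rw [TP_mul, zpow_natCast, TP_sub hF, ← pow_mul, mul_comm (W i) ℓ, pow_mul, div_pow, hz, hz']
  have hYd : ∀ s ∈ SS (aF F α), (ℓ : ℤ) ∣ ∑ i, W i * (e i s - e' i s) := by
    intro s hs
    simp only [mul_sub]
    rw [Finset.sum_sub_distrib]
    exact dvd_sub (hsum e h.node s hs) (hsum e' h'.node s hs)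
  have hfix : ∀ (σ : Ω ≃ₐ[L] Ω) i, σ (z i / z' i) = z i / z' i := by
    intro σ i
    obtain ⟨j, hj⟩ := hk σ
    have h1 := fixed_of_dvd hF H one_ne_zero hY hYd σ
    have h1' : ∀ i ∈ (Finset.univ : Finset ι), σ ((z i / z' i) ^ W i) =
        (zA F L Ω ζ ^ j) ^ W i * (z i / z' i) ^ W i := by
      intro i _
      rw [map_pow, hj i, mul_pow]
    rw [map_prod, Finset.prod_congr rfl h1', Finset.prod_mul_distrib,
      Finset.prod_pow_eq_pow_sum] at h1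
    have h2 : ∏ i, (z i / z' i) ^ W i ≠ 0 :=
      Finset.prod_ne_zero_iff.2 fun i _ => pow_ne_zero _ (div_ne_zero (hz0 i) (hz0' i))
    have h3 : (zA F L Ω ζ ^ j) ^ (∑ i, W i) = 1 := by
      apply mul_right_cancel₀ h2
      rw [one_mul]
      exact h1
    rw [← zpow_natCast, ← zpow_mul, hprim.zpow_eq_one_iff_dvd] at h3
    have h4 : (ℓ : ℤ) ∣ j := by
      have h5 : IsCoprime (ℓ : ℤ) ((∑ i, W i : ℕ) : ℤ) := by
        rw [Nat.isCoprime_iff_coprime]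
        exact H.sum.symm
      exact h5.dvd_of_dvd_mul_right h3
    rw [hj i, (hprim.zpow_eq_one_iff_dvd j).2 h4, one_mul]
  intro s hs i
  refine dvd_of_fixed hF H.prime hℓL (c := 1) one_ne_zero (x := z i / z' i)
    (m := fun s => e i s - e' i s) ?_ (fun σ => hfix σ i) s hs
  rw [map_one, one_mul, TP_sub hF, div_pow, hz, hz']

end

end Pool.Agent.Lib.MP_89bcae_ag.Wt.Lns

end

section

/-!
# The ramification points and the torsion over `F(t)`
-/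

open Polynomial IsDedekindDomain

open scoped Classical

namespace Pool.Agent.Lib.MP_89bcae_ag.Wt.Lns

open Pool.Agent.Lib.MP_89bcae_ag.Sup Pool.Agent.Lib.MP_89bcae_ag.Sup.Lns

universe u

set_option linter.unusedSectionVars false

/-- The exponents of the ramification points. -/
noncomputable def cutE {ι : Type} [Fintype ι] {F : Type u} [Field F] (W : ι → ℕ) (a : ι → F[X])
    (b : ι → ℤ) (i : ι) (s : F) : ℤ :=
  ∑ j ∈ Finset.univ.filter (fun j => (a j).eval s = (a i).eval s), W j * (b j - b i)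

section

variable {ι : Type} [Fintype ι] [LinearOrder ι] {F : Type u} [Field F] {W : ι → ℕ} {a : ι → F[X]}

lemma cutE_node (hg : AGeom a) (b : ι → ℤ) {i j : ι} (hij : i ≠ j) {s : F}
    (hs : (a i).eval s = (a j).eval s) : cutE W a b i s = W j * (b j - b i) := by
  unfold cutE
  have h1 : Finset.univ.filter (fun j => (a j).eval s = (a i).eval s) = {i, j} := by
    ext l
    rw [Finset.mem_filter, Finset.mem_insert, Finset.mem_singleton]
    constructor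
    · rintro ⟨-, hl⟩
      by_contra hcon
      rw [not_or] at hcon
      exact hg.third hij hcon.1 hcon.2 hs hl
    · rintro (rfl | rfl)
      · exact ⟨Finset.mem_univ _, rfl⟩
      · exact ⟨Finset.mem_univ _, hs.symm⟩
  rw [h1, Finset.sum_pair hij, sub_self, mul_zero, zero_add]

omit [LinearOrder ι] in
lemma cutE_other (b : ι → ℤ) {l : ι} {s : F}
    (hl : ∀ j, j ≠ l → (a j).eval s ≠ (a l).eval s) : cutE W a b l s = 0 := by
  unfold cutE
  refine Finset.sum_eq_zero fun j hj => ?_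
  rw [Finset.mem_filter] at hj
  by_cases h : j = l
  · rw [h, sub_self, mul_zero]
  · exact absurd hj.2 (hl j h)

omit [LinearOrder ι] in
lemma cutE_sum (b : ι → ℤ) (s r : F) :
    ∑ i ∈ Finset.univ.filter (fun i => (a i).eval s = r), W i * cutE W a b i s = 0 := by
  have h1 : ∀ i ∈ Finset.univ.filter (fun i => (a i).eval s = r), W i * cutE W a b i s =
      ∑ j ∈ Finset.univ.filter (fun i => (a i).eval s = r), W i * (W j * (b j - b i)) := by
    intro i hi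
    rw [Finset.mem_filter] at hi
    unfold cutE
    rw [hi.2, Finset.mul_sum]
  rw [Finset.sum_congr rfl h1]
  have h2 : ∑ i ∈ Finset.univ.filter (fun i => (a i).eval s = r),
      ∑ j ∈ Finset.univ.filter (fun i => (a i).eval s = r), (W i : ℤ) * (W j * (b j - b i)) =
      ∑ i ∈ Finset.univ.filter (fun i => (a i).eval s = r),
      ∑ j ∈ Finset.univ.filter (fun i => (a i).eval s = r), (W j : ℤ) * (W i * (b i - b j)) :=
    Finset.sum_comm
  have h3 : ∑ i ∈ Finset.univ.filter (fun i => (a i).eval s = r),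
      ∑ j ∈ Finset.univ.filter (fun i => (a i).eval s = r), (W j : ℤ) * (W i * (b i - b j)) =
      -∑ i ∈ Finset.univ.filter (fun i => (a i).eval s = r),
      ∑ j ∈ Finset.univ.filter (fun i => (a i).eval s = r), (W i : ℤ) * (W j * (b j - b i)) := by
    rw [← Finset.sum_neg_distrib]
    refine Finset.sum_congr rfl fun i _ => ?_
    rw [← Finset.sum_neg_distrib]
    exact Finset.sum_congr rfl fun j _ => by ring
  omega

end

section

variable {ι : Type} [Fintype ι] [DecidableEq ι] {E : Type u} [Field E] {ℓ : ℕ} {f : E[X]}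

private lemma ga6_split {A : ι → E} {W : ι → ℕ} (hf : f = ∏ i, (X - C (A i)) ^ W i) (i : ι) :
    f = (X - C (A i)) ^ W i * ∏ j ∈ Finset.univ.erase i, (X - C (A j)) ^ W j := by
  rw [hf]
  exact (Finset.mul_prod_erase Finset.univ (fun j => (X - C (A j)) ^ W j)
    (Finset.mem_univ i)).symm

private lemma ga6_eval {A : ι → E} {W : ι → ℕ} (i : ι) :
    (∏ j ∈ Finset.univ.erase i, (X - C (A j)) ^ W j).eval (A i) =
      ∏ j ∈ Finset.univ.erase i, (A i - A j) ^ W j := by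
  rw [eval_prod]
  refine Finset.prod_congr rfl fun j _ => ?_
  rw [eval_pow, eval_sub, eval_X, eval_C]

private lemma ga6_ne {A : ι → E} (hA : Function.Injective A) (i : ι) :
    ∀ j ∈ Finset.univ.erase i, A i - A j ≠ 0 := by
  intro j hj h
  exact (Finset.mem_erase.1 hj).1 (hA (sub_eq_zero.1 h)).symm

private lemma ga6_wt {A : ι → E} {W : ι → ℕ} (hf : f = ∏ i, (X - C (A i)) ^ W i)
    (hA : Function.Injective A) (i : ι) : wt f (A i) = W i := by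
  have h1 := ga6_split hf i
  have h2 : (∏ j ∈ Finset.univ.erase i, (X - C (A j)) ^ W j).eval (A i) ≠ 0 := by
    rw [ga6_eval]
    exact Finset.prod_ne_zero_iff.2 fun j hj => pow_ne_zero _ (ga6_ne hA i j hj)
  have h3 : f ≠ 0 := by
    rw [hf]
    exact Finset.prod_ne_zero_iff.2 fun j _ => pow_ne_zero _ (X_sub_C_ne_zero _)
  unfold wt
  rw [h1, rootMultiplicity_mul (by rw [← h1]; exact h3), rootMultiplicity_X_sub_C_pow,
    rootMultiplicity_eq_zero h2, add_zero]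

private lemma ga6_cof {A : ι → E} {W : ι → ℕ} (hf : f = ∏ i, (X - C (A i)) ^ W i)
    (hA : Function.Injective A) (i : ι) :
    cof f (A i) = ∏ j ∈ Finset.univ.erase i, (A i - A j) ^ W j := by
  unfold cof cofP
  rw [ga6_wt hf hA, ← ga6_eval]
  congr 1
  conv_lhs => rw [ga6_split hf i]
  exact mul_divByMonic_cancel_left _ ((monic_X_sub_C _).pow _)

/-- The values of the functions attached to the ramification points. -/
lemma uval_ramDiv_prod [hG : IsGood ℓ f] {A : ι → E} {W : ι → ℕ}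
    (hf : f = ∏ i, (X - C (A i)) ^ W i) (hW : ∀ i, W i ≠ 0) (hA : Function.Injective A)
    (b : E → ℤ) (i : ι) :
    uval (ramDiv fun θ => wt f θ * b θ : Pt ℓ f →₀ ℤ) (A i) =
      (∏ j ∈ Finset.univ.erase i, (A i - A j) ^ (-(W j * be ℓ (W i) * b (A i)) : ℤ)) ^ ℓ *
      ∏ j ∈ Finset.univ.erase i, (A i - A j) ^ ((W j : ℤ) * (b (A j) - b (A i))) := by
  have h0 : ∀ i, f.eval (A i) = 0 := by
    intro i
    rw [hf, eval_prod]
    refine Finset.prod_eq_zero (Finset.mem_univ i) ?_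
    rw [eval_pow, eval_sub, eval_X, eval_C, sub_self, zero_pow (hW i)]
  have hne := ga6_ne hA i
  rw [uval_ramDiv _ (h0 i)]
  have hroots : f.roots.toFinset = Finset.univ.image A := by
    ext x
    rw [Multiset.mem_toFinset, mem_roots (f_ne_zero ℓ f), IsRoot.def, Finset.mem_image]
    constructor
    · intro hx
      rw [hf, eval_prod, Finset.prod_eq_zero_iff] at hx
      obtain ⟨j, -, hj⟩ := hx
      rw [eval_pow, eval_sub, eval_X, eval_C] at hj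
      exact ⟨j, Finset.mem_univ _, (sub_eq_zero.1 (eq_zero_of_pow_eq_zero hj)).symm⟩
    · rintro ⟨j, -, rfl⟩
      exact h0 j
  have herase : (Finset.univ.image A).erase (A i) = (Finset.univ.erase i).image A := by
    ext x
    rw [Finset.mem_erase, Finset.mem_image, Finset.mem_image]
    constructor
    · rintro ⟨h1, j, -, rfl⟩
      exact ⟨j, Finset.mem_erase.2 ⟨fun h => h1 (by rw [h]), Finset.mem_univ _⟩, rfl⟩
    · rintro ⟨j, hj, rfl⟩
      exact ⟨fun h => (Finset.mem_erase.1 hj).1 (hA h), j, Finset.mem_univ _, rfl⟩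
  have hal := al_wt (N := ℓ) (h0 i)
  have hal2 : ((al ℓ (wt f (A i)) : ℤ) * wt f (A i)) = be ℓ (wt f (A i)) * ℓ + 1 := by
    exact_mod_cast hal
  rw [ga6_wt hf hA] at hal2
  rw [hroots, herase, Finset.prod_image fun x _ y _ h => hA h, ga6_cof hf hA, ga6_wt hf hA,
    ← Finset.prod_pow, ← Finset.prod_pow, ← Finset.prod_inv_distrib, ← Finset.prod_zpow,
    ← Finset.prod_mul_distrib, ← Finset.prod_mul_distrib]
  refine Finset.prod_congr rfl fun j hj => ?_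
  have hx := hne j hj
  rw [ga6_wt hf hA, ← pow_mul, ← zpow_natCast (A i - A j) (W j * al ℓ (W i)), ← zpow_neg,
    ← zpow_mul, ← zpow_add₀ hx, ← zpow_natCast ((A i - A j) ^ _) ℓ, ← zpow_mul, ← zpow_add₀ hx]
  congr 1
  push_cast
  linear_combination (-(W j : ℤ) * b (A i)) * hal2

end

variable {ι : Type} [Fintype ι] [LinearOrder ι]
  {k F L Ω : Type u} [Field k] [Field F] [Algebra k F] [Field L] [Algebra F[X] L]
  [Field Ω] [Algebra L Ω] [IsAlgClosure k F] [IsFractionRing F[X] L] [IsAlgClosure L Ω]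
  [Algebra F Ω] {ℓ : ℕ} {W : ι → ℕ} {α : ι → k[X]} {ζ : k}
  [hG : IsGood ℓ (cOver k F L Ω (arr W α))] {hζ : (zA F L Ω ζ) ^ ℓ = 1}

private lemma ga6_sub (hF : CompatF F L Ω) (H : AHyp ℓ W α ζ) {i j : ι} (hij : i ≠ j) :
    ∃ d : F, d ≠ 0 ∧ rt k F L Ω α i - rt k F L Ω α j = algebraMap F Ω d *
      ∏ s ∈ (SS (aF F α)).filter (fun s => (aF F α i).eval s = (aF F α j).eval s),
        (tA F L Ω - algebraMap F Ω s) := by
  have hFc : IsAlgClosed F := IsAlgClosure.isAlgClosed k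
  have hg : AGeom (aF F α) := H.geomF
  refine ⟨(aF F α i - aF F α j).leadingCoeff, leadingCoeff_ne_zero.2 (hg.ne hij), ?_⟩
  rw [rt_eq hF, rt_eq hF, ← map_sub]
  conv_lhs => rw [hg.sub_eq hij]
  rw [map_mul, aeval_C, map_prod]
  congr 1
  refine Finset.prod_congr rfl fun s _ => ?_
  rw [map_sub, aeval_X, aeval_C]

private lemma ga6_uval (hF : CompatF F L Ω) (H : AHyp ℓ W α ζ) (b : Ω → ℤ) (i : ι) :
    ∃ d : F, d ≠ 0 ∧ ∃ u : Ω, u ≠ 0 ∧ (∀ σ : Ω ≃ₐ[L] Ω, σ u = u) ∧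
      uval (ramDiv (fun θ => wt (cOver k F L Ω (arr W α)) θ * b θ) :
        Pt ℓ (cOver k F L Ω (arr W α)) →₀ ℤ) (rt k F L Ω α i) =
      u ^ ℓ * (algebraMap F Ω d *
        TP (aF F α) (tA F L Ω) (cutE W (aF F α) (fun j => b (rt k F L Ω α j)) i)) := by
  have hinj := rt_injective (F := F) (L := L) H Ω
  have h1 : ∀ j, ∃ d : F, d ≠ 0 ∧ (j ∈ Finset.univ.erase i →
      (rt k F L Ω α i - rt k F L Ω α j) ^
        ((W j : ℤ) * (b (rt k F L Ω α j) - b (rt k F L Ω α i))) =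
        algebraMap F Ω d *
      ∏ s ∈ (SS (aF F α)).filter (fun s => (aF F α i).eval s = (aF F α j).eval s),
        (tA F L Ω - algebraMap F Ω s) ^
          ((W j : ℤ) * (b (rt k F L Ω α j) - b (rt k F L Ω α i)))) := by
    intro j
    by_cases hj : j ∈ Finset.univ.erase i
    · obtain ⟨d, hd, hd'⟩ := ga6_sub (ℓ := ℓ) hF H (Finset.mem_erase.1 hj).1.symm
      refine ⟨d ^ ((W j : ℤ) * (b (rt k F L Ω α j) - b (rt k F L Ω α i))),
        zpow_ne_zero _ hd, fun _ => ?_⟩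
      rw [hd', mul_zpow, map_zpow₀, Finset.prod_zpow]
    · exact ⟨1, one_ne_zero, fun h => absurd h hj⟩
  choose d hd0 hd using h1
  refine ⟨∏ j ∈ Finset.univ.erase i, d j, Finset.prod_ne_zero_iff.2 fun j _ => hd0 j,
    ∏ j ∈ Finset.univ.erase i, (rt k F L Ω α i - rt k F L Ω α j) ^
      (-(W j * be ℓ (W i) * b (rt k F L Ω α i)) : ℤ), ?_, fun σ => ?_, ?_⟩
  · refine Finset.prod_ne_zero_iff.2 fun j hj => zpow_ne_zero _ fun h => ?_
    exact (Finset.mem_erase.1 hj).1 (hinj (sub_eq_zero.1 h)).symm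
  · rw [map_prod]
    refine Finset.prod_congr rfl fun j _ => ?_
    have h2 : ∀ j, σ (rt k F L Ω α j) = rt k F L Ω α j := fun j => fix_rt (galA k F σ) j
    rw [map_zpow₀, map_sub, h2, h2]
  rw [uval_ramDiv_prod arr_over H.W0 hinj b i]
  congr 1
  rw [Finset.prod_congr rfl hd, Finset.prod_mul_distrib, map_prod]
  congr 1
  unfold TP cutE
  have h2 : ∀ j ∈ Finset.univ.erase i,
      ∏ s ∈ (SS (aF F α)).filter (fun s => (aF F α i).eval s = (aF F α j).eval s),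
        (tA F L Ω - algebraMap F Ω s) ^
          ((W j : ℤ) * (b (rt k F L Ω α j) - b (rt k F L Ω α i))) =
      ∏ s ∈ SS (aF F α), if (aF F α i).eval s = (aF F α j).eval s then
        (tA F L Ω - algebraMap F Ω s) ^
          ((W j : ℤ) * (b (rt k F L Ω α j) - b (rt k F L Ω α i))) else 1 := by
    intro j _
    rw [Finset.prod_filter]
  rw [Finset.prod_congr rfl h2, Finset.prod_comm]
  refine Finset.prod_congr rfl fun s _ => ?_
  have ht := t_sub_ne hF s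
  have h3 : ∀ (S : Finset ι) (m : ι → ℤ), ∏ j ∈ S, (tA F L Ω - algebraMap F Ω s) ^ m j =
      (tA F L Ω - algebraMap F Ω s) ^ ∑ j ∈ S, m j := by
    intro S m
    induction S using Finset.induction_on with
    | empty => simp
    | insert a T ha ih => rw [Finset.prod_insert ha, Finset.sum_insert ha, zpow_add₀ ht, ih]
  rw [← Finset.prod_filter, h3]
  congr 1
  rw [← Finset.add_sum_erase (Finset.univ.filter
    (fun j => (aF F α j).eval s = (aF F α i).eval s)) _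
    (Finset.mem_filter.2 ⟨Finset.mem_univ i, rfl⟩), sub_self, mul_zero, zero_add]
  refine Finset.sum_congr ?_ fun _ _ => rfl
  ext j
  rw [Finset.mem_filter, Finset.mem_erase, Finset.mem_erase, Finset.mem_filter]
  exact ⟨fun h => ⟨h.1.1, h.1.2, h.2.symm⟩, fun h => ⟨⟨h.1, h.2.1⟩, h.2.2.symm⟩⟩

/-- The functions attached to a ramification point. -/
theorem kummer_rm_arr (hF : CompatF F L Ω) (H : AHyp ℓ W α ζ) (b : Ω → ℤ)
    (B : JacOver ℓ (curveL k F L (arr W α)) Ω) (hB : B - zJ (zA F L Ω ζ) hζ B = rm b) :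
    ∃ z : ι → Ω, (∀ i, z i ^ ℓ = TP (aF F α) (tA F L Ω)
        (cutE W (aF F α) (fun j => b (rt k F L Ω α j)) i)) ∧
      ∀ (σ : Ω ≃ₐ[L] Ω) (n : Ω → ℤ),
        (∀ i, σ (z i) = zA F L Ω ζ ^ n (rt k F L Ω α i) * z i) →
          symJ (toSym (arr W α) (galA k F σ)) B - B = rm n := by
  have hFc : IsAlgClosed F := IsAlgClosure.isAlgClosed k
  have hprim : IsPrimitiveRoot (zA F L Ω ζ) ℓ := zA_prim H.lhyp
  obtain ⟨z, hz, hk⟩ := kummer_rm (zA F L Ω ζ) hprim B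
    (ramDiv fun θ => wt (cOver k F L Ω (arr W α)) θ * b θ) hB
  have h1 : ∀ i, ∃ d : Ω, d ≠ 0 ∧ (∀ σ : Ω ≃ₐ[L] Ω, σ d = d) ∧
      z (rt k F L Ω α i) ^ ℓ = d ^ ℓ *
        TP (aF F α) (tA F L Ω) (cutE W (aF F α) (fun j => b (rt k F L Ω α j)) i) := by
    intro i
    obtain ⟨c, hc, d, hd, hdσ, hd'⟩ := ga6_uval hF H b i
    obtain ⟨d', hd''⟩ := IsAlgClosed.exists_pow_nat_eq
      (((-1) ^ (ℓ + 1)) ^ atR (ramDiv (fun θ => wt (cOver k F L Ω (arr W α)) θ * b θ) :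
        Pt ℓ (cOver k F L Ω (arr W α)) →₀ ℤ) (rt k F L Ω α i) * c : F) H.prime.pos
    have hne : (((-1) ^ (ℓ + 1)) ^ atR (ramDiv (fun θ => wt (cOver k F L Ω (arr W α)) θ * b θ) :
        Pt ℓ (cOver k F L Ω (arr W α)) →₀ ℤ) (rt k F L Ω α i) * c : F) ≠ 0 :=
      mul_ne_zero (zpow_ne_zero _ (pow_ne_zero _ (neg_ne_zero.2 one_ne_zero))) hc
    have hd0 : d' ≠ 0 := by
      rintro rfl
      rw [zero_pow H.prime.ne_zero] at hd''
      exact hne hd''.symm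
    refine ⟨algebraMap F Ω d' * d, mul_ne_zero ((_root_.map_ne_zero _).2 hd0) hd, fun σ => ?_, ?_⟩
    · rw [map_mul, const_fixed hF, hdσ σ]
    · rw [(hz _ (root_rt H i)).2, hd', mul_pow, ← map_pow, hd'', map_mul, map_zpow₀, map_pow,
        map_neg, map_one]
      ring
  choose d hd0 hdσ hd using h1
  refine ⟨fun i => z (rt k F L Ω α i) / d i, fun i => ?_, fun σ n hn => ?_⟩
  · rw [div_pow, hd i, mul_div_cancel_left₀]
    exact pow_ne_zero _ (hd0 i)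
  · refine hk (toSym (arr W α) (galA k F σ)) (zA_fixed ζ (galA k F σ)) ?_ n ?_
    · rw [mapDomain_sym_ramDiv]
      apply ramDiv_congr
      intro θ hθ
      have h2 : (((toSym (arr W α) (galA k F σ))⁻¹ : Sym (cOver k F L Ω (arr W α))) :
          Ω ≃+* Ω) θ = θ := by
        have h3 : ((toSym (arr W α) (galA k F σ))⁻¹ : Sym (cOver k F L Ω (arr W α))) =
            toSym (arr W α) (galA k F σ)⁻¹ := by
          rw [map_inv]
        rw [h3]
        exact fix_root (galA k F σ)⁻¹ hθ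
      rw [h2]
    · intro θ hθ
      obtain ⟨i, rfl⟩ := root_of_arr hθ
      have h2 : ((toSym (arr W α) (galA k F σ) : Sym (cOver k F L Ω (arr W α))) : Ω ≃+* Ω)
          (rt k F L Ω α i) = rt k F L Ω α i := fix_rt (galA k F σ) i
      rw [h2]
      have h3 := hn i
      rw [map_div₀, hdσ i σ, div_eq_iff (hd0 i), mul_assoc, div_mul_cancel₀ _ (hd0 i)] at h3
      exact h3

lemma natCast_L_ne {ι : Type} [Fintype ι] [LinearOrder ι] {k : Type u} (F : Type u)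
    {L : Type u} [Field k] [Field F] [Algebra k F] [Field L] [Algebra F[X] L] {ℓ : ℕ}
    {W : ι → ℕ} {α : ι → k[X]} {ζ : k} (H : AHyp ℓ W α ζ) : (ℓ : L) ≠ 0 := by
  intro h0
  apply H.ne
  have h1 : Function.Injective ((base k F L L).comp C) := RingHom.injective _
  apply h1
  rw [map_natCast, h0, map_zero]

/-- A fixed point `B` with `(1 - Z) B = rm b` is fixed by `Z`. -/
theorem rm_eq_zero_of_fixed (hF : CompatF F L Ω) (H : AHyp ℓ W α ζ) (b : Ω → ℤ)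
    (B : JacOver ℓ (curveL k F L (arr W α)) Ω) (hB : B - zJ (zA F L Ω ζ) hζ B = rm b)
    (hfix : ∀ σ : Ω ≃ₐ[L] Ω, symJ (toSym (arr W α) (galA k F σ)) B = B) :
    (rm b : JacOver ℓ (curveL k F L (arr W α)) Ω) = 0 := by
  have hFc : IsAlgClosed F := IsAlgClosure.isAlgClosed k
  have hg : AGeom (aF F α) := H.geomF
  have hprim : IsPrimitiveRoot (zA F L Ω ζ) ℓ := zA_prim H.lhyp
  have hℓ0 := H.prime.ne_zero
  obtain ⟨z, hz, hk⟩ := kummer_rm_arr hF H b B hB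
  have hz0 : ∀ i, z i ≠ 0 := fun i => z_ne hF H.prime (hz i)
  have hfix2 : ∀ (i j : ι) (σ : Ω ≃ₐ[L] Ω), σ (z i / z j) = z i / z j := by
    intro i j σ
    obtain ⟨n, hn⟩ := exists_n_gal hF H hz σ
    have h1 := hk σ n hn
    rw [hfix σ, sub_self] at h1
    obtain ⟨c, hc⟩ := (rm_eq_zero_iff (zA F L Ω ζ) hprim _).1 h1.symm
    have h2 := hc _ (root_rt (k := k) (F := F) (L := L) (A := Ω) H i)
    have h3 := hc _ (root_rt (k := k) (F := F) (L := L) (A := Ω) H j)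
    have h4 : zA F L Ω ζ ^ n (rt k F L Ω α i) = zA F L Ω ζ ^ n (rt k F L Ω α j) := by
      rw [zpow_eq_iff hℓ0 hprim]
      have h5 := dvd_sub h2 h3
      have h6 : n (rt k F L Ω α i) - c - (n (rt k F L Ω α j) - c) =
          n (rt k F L Ω α i) - n (rt k F L Ω α j) := by ring
      rwa [h6] at h5
    rw [map_div₀, hn i, hn j, h4, mul_div_mul_left]
    exact zpow_ne_zero _ (hprim.ne_zero hℓ0)
  -- comparison of the exponents of two functions
  have hd : ∀ i j, ∀ s ∈ SS (aF F α), (ℓ : ℤ) ∣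
      cutE W (aF F α) (fun j => b (rt k F L Ω α j)) i s -
        cutE W (aF F α) (fun j => b (rt k F L Ω α j)) j s := by
    intro i j
    refine dvd_of_fixed hF H.prime (natCast_L_ne F H) (c := 1) one_ne_zero
      (x := z i / z j)
      (m := fun s => cutE W (aF F α) (fun j => b (rt k F L Ω α j)) i s -
        cutE W (aF F α) (fun j => b (rt k F L Ω α j)) j s) ?_ (hfix2 i j)
    rw [map_one, one_mul, TP_sub hF, div_pow, hz, hz]
  have hconst : ∀ i j, (ℓ : ℤ) ∣ b (rt k F L Ω α i) - b (rt k F L Ω α j) := by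
    intro i j
    by_cases hij : i = j
    · rw [hij, sub_self]
      exact dvd_zero _
    obtain ⟨s, hs⟩ := hg.exists_node hij
    have hS := mem_SS_of_eq hg hij hs
    by_cases h3 : ∃ l, l ≠ i ∧ l ≠ j
    · obtain ⟨l, hli, hlj⟩ := h3
      have h4 := hd j l s hS
      rw [cutE_node hg _ (Ne.symm hij) hs.symm, cutE_other, sub_zero] at h4
      · exact (H.copZ i).dvd_of_dvd_mul_left h4
      · intro l' hl' h5
        rcases hg.pair hij hl' hs h5 with h6 | h6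
        · exact hlj h6.2
        · exact hli h6.2
    · -- only two lines: the sum of the weights is prime to `ℓ`
      push Not at h3
      have huniv : (Finset.univ : Finset ι) = {i, j} := by
        ext l
        rw [Finset.mem_insert, Finset.mem_singleton]
        refine ⟨fun _ => ?_, fun _ => Finset.mem_univ _⟩
        by_cases h6 : l = i
        · exact Or.inl h6
        · exact Or.inr (h3 l h6)
      have hsum := H.sum
      rw [huniv, Finset.sum_pair hij] at hsum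
      have h4 := hd j i s hS
      rw [cutE_node hg _ (Ne.symm hij) hs.symm, cutE_node hg _ hij hs] at h4
      have h5 : (W i : ℤ) * (b (rt k F L Ω α i) - b (rt k F L Ω α j)) -
          W j * (b (rt k F L Ω α j) - b (rt k F L Ω α i)) =
            ((W i + W j : ℕ) : ℤ) * (b (rt k F L Ω α i) - b (rt k F L Ω α j)) := by
        push_cast
        ring
      rw [h5] at h4
      have h6 : IsCoprime (ℓ : ℤ) ((W i + W j : ℕ) : ℤ) :=
        Nat.isCoprime_iff_coprime.2 hsum.symm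
      exact h6.dvd_of_dvd_mul_left h4
  by_cases hne : Nonempty ι
  · obtain ⟨i₀⟩ := hne
    rw [rm_eq_zero_iff (zA F L Ω ζ) hprim]
    refine ⟨b (rt k F L Ω α i₀), fun θ hθ => ?_⟩
    obtain ⟨i, rfl⟩ := root_of_arr hθ
    exact hconst i i₀
  · rw [rm_eq_zero_iff (zA F L Ω ζ) hprim]
    refine ⟨0, fun θ hθ => ?_⟩
    obtain ⟨i, rfl⟩ := root_of_arr hθ
    exact absurd ⟨i⟩ hne

/-- The torsion points over `L` are the ramification points. -/
theorem torsRam (hF : CompatF F L Ω) (H : AHyp ℓ W α ζ) : TorsRam ℓ k F L Ω (arr W α) := by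
  have hprim : IsPrimitiveRoot (zA F L Ω ζ) ℓ := zA_prim H.lhyp
  intro n Q hn hfix
  have h1 := iterate_eq_zero_of_smul H.prime (zA F L Ω ζ) hprim n Q hn
  -- descend on the power of `1 - Z`
  have key : ∀ N : ℕ, ∀ Q : JacOver ℓ (curveL k F L (arr W α)) Ω,
      (∀ σ : Ω ≃ₐ[L] Ω, symJ (toSym (arr W α) (galA k F σ)) Q = Q) →
      (fun x => x - zJ (zA F L Ω ζ) hprim.pow_eq_one x)^[N] Q = 0 →
      Q - zJ (zA F L Ω ζ) hprim.pow_eq_one Q = 0 := by
    intro N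
    induction N with
    | zero =>
      intro Q _ h
      rw [Function.iterate_zero, id_eq] at h
      rw [h, map_zero, sub_zero]
    | succ N ih =>
      intro Q hQ h
      rw [Function.iterate_succ_apply] at h
      have h2 : ∀ σ : Ω ≃ₐ[L] Ω, symJ (toSym (arr W α) (galA k F σ))
          (Q - zJ (zA F L Ω ζ) hprim.pow_eq_one Q) =
            Q - zJ (zA F L Ω ζ) hprim.pow_eq_one Q := by
        intro σ
        rw [map_sub, ← zJ_symJ _ _ _ (zA_fixed ζ (galA k F σ)), hQ σ]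
      have h3 := ih _ h2 h
      rw [sub_eq_zero] at h3
      obtain ⟨b, hb⟩ := exists_rm_of_zJ_eq (zA F L Ω ζ) hprim _ h3.symm
      rw [hb]
      exact rm_eq_zero_of_fixed hF H b Q hb hQ
  have h2 := key _ Q hfix h1
  rw [sub_eq_zero] at h2
  exact exists_rm_of_zJ_eq (zA F L Ω ζ) hprim _ h2.symm

variable {c : Coch ℓ k F L Ω (arr W α)} {e : ι → F → ℤ}

/-- The exponents of a class which comes from a ramification point. -/
lemma HasExp.of_rm (hF : CompatF F L Ω) (H : AHyp ℓ W α ζ) (b : Ω → ℤ)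
    (B : JacOver ℓ (curveL k F L (arr W α)) Ω) (hB : B - zJ (zA F L Ω ζ) hζ B = rm b)
    (hc : ∀ σ : Ω ≃ₐ[L] Ω, vJ (zA F L Ω ζ) hζ (c 1 σ) =
      symJ (toSym (arr W α) (galA k F σ)) B - B) :
    HasExp hζ c (cutE W (aF F α) (fun j => b (rt k F L Ω α j))) := by
  obtain ⟨z, hz, hk⟩ := kummer_rm_arr hF H b B hB
  refine ⟨fun s _ r => ?_, z, hz, fun σ n hn => ?_⟩
  · rw [cutE_sum]
    exact dvd_zero _
  · rw [hc σ]
    exact hk σ n hn

/-- The exponents of the torsion classes. -/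
theorem HasExp.cut_of_TTc (hF : CompatF F L Ω) (H : AHyp ℓ W α ζ) (h : HasExp hζ c e)
    (hc : TTc c) : ∃ b : ι → ℤ, ∀ s ∈ SS (aF F α), ∀ i,
      (ℓ : ℤ) ∣ e i s - cutE W (aF F α) b i s := by
  have hprim : IsPrimitiveRoot (zA F L Ω ζ) ℓ := zA_prim H.lhyp
  obtain ⟨m, A, hA, hcA⟩ := hc.exists_coboundary 1
  have h1 : ∀ σ : Ω ≃ₐ[L] Ω, vJ (zA F L Ω ζ) hζ (c 1 σ) =
      symJ (toSym (arr W α) (galA k F σ)) (vJ (zA F L Ω ζ) hζ A) - vJ (zA F L Ω ζ) hζ A := by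
    intro σ
    rw [hcA σ, push_eq, vJ_sub, vJ_symJ _ _ _ (zA_fixed ζ (galA k F σ))]
  have h2 : vJ (zA F L Ω ζ) hζ A - zJ (zA F L Ω ζ) hζ (vJ (zA F L Ω ζ) hζ A) = ℓ • A :=
    vJ_sub_zJ _ hprim _
  have h3 : ∀ σ : Ω ≃ₐ[L] Ω, symJ (toSym (arr W α) (galA k F σ)) (ℓ • A) = ℓ • A := by
    intro σ
    have h4 : ℓ • c 1 σ = 0 := by
      rw [hc.1.smul, hc.1.zero]
    rw [hcA σ, push_eq, smul_sub, sub_eq_zero] at h4
    rw [map_nsmul]
    exact h4
  obtain ⟨b, hb⟩ := torsRam hF H m (ℓ • A) (by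
    rw [← mul_nsmul', ← pow_succ, add_comm m 1] at *
    exact hA) h3
  have h5 := HasExp.of_rm (c := c) hF H b (vJ (zA F L Ω ζ) hζ A) (h2.trans hb) h1
  exact ⟨_, h.unique hF H h5⟩

end Pool.Agent.Lib.MP_89bcae_ag.Wt.Lns

end
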