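import Mathlib
import Pool.Agent.Lib.MP_89bcae_ag.Mk.K024

namespace Pool.Agent.Lib.MP_89bcae_ag.Sup
end Pool.Agent.Lib.MP_89bcae_ag.Sup
namespace Pool.Agent.Lib.MP_89bcae_ag.Sup.Lns
end Pool.Agent.Lib.MP_89bcae_ag.Sup.Lns

section

/-!
ROW R20 (100-200 lines). A class fixed by a set of automorphisms contains a divisor fixed by them.

PROOF. Every class contains an effective divisor: `-[P] = ∑_{0<i<N} [P.rot^i]` by
`cl (div (x - P.x)) = 0` and `div_xs`, so negative coefficients can be replaced by positive ones.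
Let `D` be an effective divisor of minimal degree (`dg`) in the class. It is the only one: let `D'`
be another effective divisor of the same degree in the class, `D - D' = div h` (R08). Then
`dg (div h) = 0`, so by R13 there is a constant `c` with `h = c`, whence `D = D'`, or
`w = h - c ≠ 0` with `dg (div w) < 0`; then `D' + div w` is effective: `ord_P w ≥ min (ord_P h, 0)`
(`ord_add` with `u = h`, `v = -c`; if `c = 0` then `w = h`) and
`ord_P h = D(P) - D'(P) ≥ -D'(P)`, `0 ≥ -D'(P)`; it is in the same class and has smaller degree: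
contradiction. For `σ` in `Γ`: `D.mapDomain (Pt.sym σ)` is effective of the same degree, and its
class is `symJ σ x = x`, so it is equal to `D`.
-/

open Polynomial IsDedekindDomain

open scoped Classical

namespace Pool.Agent.Lib.MP_89bcae_ag.Wt

universe u

variable {N : ℕ} {E : Type u} [Field E] {f : E[X]} [hG : IsGood N f]

omit hG in
lemma r20_dg_add (D D' : Pt N f →₀ ℤ) : dg (D + D') = dg D + dg D' :=
  Finsupp.sum_add_index' (fun _ => rfl) fun _ _ _ => rfl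

omit hG in
lemma r20_dg_nonneg (D : Pt N f →₀ ℤ) (hD : ∀ P, 0 ≤ D P) : 0 ≤ dg D :=
  Finset.sum_nonneg fun P _ => hD P

omit hG in
lemma r20_mapDomain_nonneg (D : Pt N f →₀ ℤ) (hD : ∀ P, 0 ≤ D P) (g : Pt N f → Pt N f) :
    ∀ P, 0 ≤ D.mapDomain g P := by
  intro P
  rw [Finsupp.mapDomain, Finsupp.sum_apply]
  refine Finset.sum_nonneg fun Q _ => ?_
  change 0 ≤ (Finsupp.single (g Q) (D Q) : Pt N f →₀ ℤ) P
  rw [Finsupp.single_apply]
  split_ifs
  · exact hD Q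
  · exact le_rfl

omit hG in
lemma r20_dg_mapDomain (D : Pt N f →₀ ℤ) (g : Pt N f → Pt N f) : dg (D.mapDomain g) = dg D :=
  Finsupp.sum_mapDomain_index (fun _ => rfl) fun _ _ _ => rfl

lemma r20_exists_effective (ζ : E) (hζ : IsPrimitiveRoot ζ N) (D : Pt N f →₀ ℤ) :
    ∃ D' : Pt N f →₀ ℤ, (∀ P, 0 ≤ D' P) ∧ cl D' = cl D := by
  induction D using Finsupp.induction_linear with
  | zero => exact ⟨0, fun _ => le_rfl, rfl⟩
  | add D₁ D₂ h₁ h₂ =>
    obtain ⟨D₁', h₁, h₁'⟩ := h₁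
    obtain ⟨D₂', h₂, h₂'⟩ := h₂
    refine ⟨D₁' + D₂', fun P => add_nonneg (h₁ P) (h₂ P), ?_⟩
    rw [map_add, map_add, h₁', h₂']
  | single P n =>
    rcases le_or_gt 0 n with hn | hn
    · refine ⟨Finsupp.single P n, fun Q => ?_, rfl⟩
      rw [Finsupp.single_apply]
      split_ifs
      · exact hn
      · exact le_rfl
    · refine ⟨Finsupp.single P n + (-n) • div (xs P.x : (FunField N f)ˣ), fun Q => ?_, ?_⟩
      · have hx : (Finsupp.single P 1 : Pt N f →₀ ℤ) Q ≤ div (xs P.x : (FunField N f)ˣ) Q := by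
          rw [div_xs ζ hζ P, Finsupp.finsetSum_apply]
          have h0 : 0 ∈ Finset.range N := Finset.mem_range.2 hG.pos
          refine Finset.single_le_sum (f := fun i =>
            (Finsupp.single ((Pt.rot ζ hζ.pow_eq_one)^[i] P) 1 : Pt N f →₀ ℤ) Q)
            (fun i _ => ?_) h0
          rw [Finsupp.single_apply]
          split_ifs <;> norm_num
        rw [Finsupp.add_apply, Finsupp.smul_apply, smul_eq_mul]
        have hs : (Finsupp.single P n : Pt N f →₀ ℤ) Q =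
            n * (Finsupp.single P 1 : Pt N f →₀ ℤ) Q := by
          rw [Finsupp.single_apply, Finsupp.single_apply]
          split_ifs <;> simp
        rw [hs]
        nlinarith
      · rw [map_add, map_zsmul, cl_div, smul_zero, add_zero]

lemma r20_unique (ζ : E) (hζ : IsPrimitiveRoot ζ N) (D D' : Pt N f →₀ ℤ)
    (h : ∀ P, 0 ≤ D P) (h' : ∀ P, 0 ≤ D' P) (hc : cl D = cl D') (hd : dg D = dg D')
    (hmin : ∀ D'' : Pt N f →₀ ℤ, (∀ P, 0 ≤ D'' P) → cl D'' = cl D' → dg D' ≤ dg D'') :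
    D = D' := by
  obtain ⟨u, hu⟩ := exists_div_of_cl_eq_zero (D - D') (by rw [map_sub, hc, sub_self])
  have hdg : dg (div u) = 0 := by
    have := r20_dg_add (D - D') D'
    rw [sub_add_cancel, hd] at this
    rw [hu]
    linarith
  have hord : ∀ P, ord P u = D P - D' P := fun P => by
    rw [← div_apply, hu, Finsupp.sub_apply]
  obtain ⟨c, hc' | ⟨w, hw, hwd⟩⟩ := exists_const_of_dg_eq_zero ζ hζ u hdg
  · have hc0 : c ≠ 0 := by
      rintro rfl
      exact u.ne_zero (by rw [hc', map_zero])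
    have hu' : u = cstU (Units.mk0 c hc0) := Units.ext hc'
    rw [hu', div_cstU] at hu
    exact (sub_eq_zero.1 hu.symm)
  · exfalso
    have heff : ∀ P, 0 ≤ (D' + div w) P := by
      intro P
      rw [Finsupp.add_apply, div_apply]
      by_cases hc0 : c = 0
      · have hwu : w = u := Units.ext (by rw [hw, hc0, map_zero, sub_zero])
        rw [hwu, hord]
        linarith [h P]
      · have := ord_add P u (cstU (Units.mk0 (-c) (neg_ne_zero.2 hc0))) w (by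
          rw [hw, sub_eq_add_neg, ← map_neg]
          rfl)
        rw [ord_cstU, hord] at this
        rcases min_le_iff.1 this with h1 | h1
        · linarith [h P]
        · linarith [h' P]
    have h1 := hmin (D' + div w) heff (by rw [map_add, cl_div, add_zero])
    rw [r20_dg_add] at h1
    linarith

lemma exists_stable (ζ : E) (hζ : IsPrimitiveRoot ζ N) (Γ : Set (Sym f)) (x : Jac N f)
    (hx : ∀ σ ∈ Γ, symJ σ x = x) :
    ∃ D : Pt N f →₀ ℤ, cl D = x ∧ ∀ σ ∈ Γ, D.mapDomain (Pt.sym σ) = D := by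
  obtain ⟨D₀, hD₀⟩ := cl_surjective x
  have hex : ∃ n : ℕ, ∃ D : Pt N f →₀ ℤ, (∀ P, 0 ≤ D P) ∧ cl D = x ∧ dg D = n := by
    obtain ⟨D, h1, h2⟩ := r20_exists_effective ζ hζ D₀
    exact ⟨(dg D).toNat, D, h1, h2.trans hD₀, (Int.toNat_of_nonneg (r20_dg_nonneg D h1)).symm⟩
  obtain ⟨D, h1, h2, h3⟩ := Nat.find_spec hex
  refine ⟨D, h2, fun σ hσ => ?_⟩
  refine r20_unique ζ hζ _ _ (r20_mapDomain_nonneg D h1 _) h1 ?_ (r20_dg_mapDomain _ _) ?_
  · rw [← symJ_cl, h2, hx σ hσ]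
  · intro D'' h1'' h2''
    have := Nat.find_min' hex ⟨D'', h1'', h2''.trans h2,
      (Int.toNat_of_nonneg (r20_dg_nonneg D'' h1'')).symm⟩
    have h0 := r20_dg_nonneg D'' h1''
    omega

end Pool.Agent.Lib.MP_89bcae_ag.Wt

end

section

/-!
# Local exponents of the invariant points of the Jacobian

`Γ` is a group of automorphisms which fixes the roots of `f`, `ϖ` an element (an `ℓ`-th root of `t - s`)
with `σ ϖ = ζ^j ϖ` for `σ` in `Γ`. `LE Γ ζ ϖ x w` : there is `Q` with `(1 - Z) Q = x` and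
`σ Q - Q = rm (j w)` for all `σ` in `Γ`, where `σ ϖ = ζ^j ϖ`.
-/

open Polynomial

open scoped Classical

namespace Pool.Agent.Lib.MP_89bcae_ag.Wt.Lns

open Pool.Agent.Lib.MP_89bcae_ag.Sup

universe u

variable {M : Type u} [Field M] {ℓ : ℕ} {f : M[X]} [hG : IsGood ℓ f]

/-- The assumptions on `Γ`, `ζ`, `ϖ`. -/
structure LECtx (ℓ : ℕ) {f : M[X]} (Γ : Subgroup (Sym f)) (ζ ϖ : M) : Prop where
  zeta : IsPrimitiveRoot ζ ℓ
  ne : ϖ ≠ 0
  fixζ : ∀ σ ∈ Γ, (σ : M ≃+* M) ζ = ζ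
  fixr : ∀ σ ∈ Γ, ∀ θ, f.eval θ = 0 → (σ : M ≃+* M) θ = θ
  kum : ∀ σ ∈ Γ, ∃ j : ℤ, (σ : M ≃+* M) ϖ = ζ ^ j * ϖ
  tame : ∃ σ ∈ Γ, (σ : M ≃+* M) ϖ = ζ * ϖ

/-- `w` is a local exponent of the point `x`. -/
def LE (Γ : Subgroup (Sym f)) {ζ : M} (hζ : ζ ^ ℓ = 1) (ϖ : M) (x : Jac ℓ f) (w : M → ℤ) : Prop :=
  ∃ Q : Jac ℓ f, Q - zJ ζ hζ Q = x ∧ ∀ σ ∈ Γ, ∀ j : ℤ, (σ : M ≃+* M) ϖ = ζ ^ j * ϖ →
    symJ σ Q - Q = rm fun θ => j * w θ

variable {Γ : Subgroup (Sym f)} {ζ ϖ : M} {hζ : ζ ^ ℓ = 1} {x y : Jac ℓ f} {w w' : M → ℤ}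

private lemma la02_symJ_mul (σ τ : Sym f) (Q : Jac ℓ f) :
    symJ (σ * τ) Q = symJ σ (symJ τ Q) := by
  obtain ⟨D, rfl⟩ := cl_surjective Q
  rw [symJ_cl, symJ_cl, symJ_cl, ← Finsupp.mapDomain_comp]
  rfl

private lemma la02_symJ_rm (u : Sym f)
    (hur : ∀ θ, f.eval θ = 0 → (u : M ≃+* M) θ = θ) (e : M → ℤ) :
    symJ u (rm e : Jac ℓ f) = rm e := by
  rw [symJ_rm]
  refine rm_congr _ _ fun θ hθ => ?_
  have h1 : ((u⁻¹ : Sym f) : M ≃+* M) θ = θ := by
    have h2 : ((u⁻¹ : Sym f) : M ≃+* M) ((u : M ≃+* M) θ) = θ := by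
      rw [Subgroup.coe_inv]
      exact (u : M ≃+* M).symm_apply_apply θ
    rwa [hur θ hθ] at h2
  rw [h1, sub_self]
  exact dvd_zero _

lemma LE.fixed (hc : LECtx ℓ Γ ζ ϖ) (h : LE Γ hζ ϖ x w) {σ : Sym f} (hσ : σ ∈ Γ) :
    symJ σ x = x := by
  obtain ⟨Q, hQ, hQ'⟩ := h
  obtain ⟨j, hj⟩ := hc.kum σ hσ
  have h1 := hQ' σ hσ j hj
  have h2 : symJ σ Q = Q + rm (fun θ => j * w θ) := by rw [← h1]; abel
  rw [← hQ, map_sub, ← zJ_symJ ζ hζ σ (hc.fixζ σ hσ), h2, map_add, zJ_rm]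
  abel

lemma LE.congr (h : LE Γ hζ ϖ x w) (hw : ∀ θ, f.eval θ = 0 → (ℓ : ℤ) ∣ w' θ - w θ) :
    LE Γ hζ ϖ x w' := by
  obtain ⟨Q, hQ, hQ'⟩ := h
  refine ⟨Q, hQ, fun σ hσ j hj => ?_⟩
  rw [hQ' σ hσ j hj]
  refine rm_congr _ _ fun θ hθ => ?_
  have h1 := (hw θ hθ).mul_left (-j)
  have h2 : -j * (w' θ - w θ) = j * w θ - j * w' θ := by ring
  rwa [h2] at h1

lemma LE.add (h : LE Γ hζ ϖ x w) (h' : LE Γ hζ ϖ y w') :
    LE Γ hζ ϖ (x + y) (fun θ => w θ + w' θ) := by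
  obtain ⟨Q, hQ, hQ'⟩ := h
  obtain ⟨R, hR, hR'⟩ := h'
  refine ⟨Q + R, ?_, fun σ hσ j hj => ?_⟩
  · rw [← hQ, ← hR, map_add]
    abel
  · have h1 : (fun θ => j * (w θ + w' θ)) = fun θ => j * w θ + j * w' θ := by
      funext θ
      ring
    rw [h1, rm_add, ← hQ' σ hσ j hj, ← hR' σ hσ j hj, map_add]
    abel

lemma LE.neg (h : LE Γ hζ ϖ x w) : LE Γ hζ ϖ (-x) (fun θ => -w θ) := by
  obtain ⟨Q, hQ, hQ'⟩ := h
  refine ⟨-Q, ?_, fun σ hσ j hj => ?_⟩
  · rw [← hQ, map_neg]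
    abel
  · have h1 : (fun θ => j * (-w θ)) = fun θ => -(j * w θ) := by
      funext θ
      ring
    rw [h1, rm_neg, ← hQ' σ hσ j hj, map_neg]
    abel

lemma LE.sub (h : LE Γ hζ ϖ x w) (h' : LE Γ hζ ϖ y w') :
    LE Γ hζ ϖ (x - y) (fun θ => w θ - w' θ) := by
  have h1 := h.add h'.neg
  rw [← sub_eq_add_neg] at h1
  simpa only [← sub_eq_add_neg] using h1

lemma LE.of_fixed {x' : Jac ℓ f} (hx : ∀ σ ∈ Γ, symJ σ x' = x') :
    LE Γ hζ ϖ (x' - zJ ζ hζ x') (fun _ => 0) := by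
  refine ⟨x', rfl, fun σ hσ j _ => ?_⟩
  rw [hx σ hσ, sub_self]
  simp only [mul_zero]
  exact rm_zero.symm

/-- The definition does not depend on the choice of `Q`. -/
lemma LE.any (hc : LECtx ℓ Γ ζ ϖ) (h : LE Γ hζ ϖ x w) {Q : Jac ℓ f} (hQ : Q - zJ ζ hζ Q = x) :
    ∀ σ ∈ Γ, ∀ j : ℤ, (σ : M ≃+* M) ϖ = ζ ^ j * ϖ → symJ σ Q - Q = rm fun θ => j * w θ := by
  obtain ⟨R, hR, hR'⟩ := h
  intro σ hσ j hj
  have h1 : zJ ζ hc.zeta.pow_eq_one (Q - R) = Q - R := by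
    have h2 : Q - zJ ζ hζ Q = R - zJ ζ hζ R := by rw [hQ, hR]
    have h3 : zJ ζ hζ (Q - R) = Q - R := by
      rw [map_sub]
      have h4 : zJ ζ hζ Q - zJ ζ hζ R = Q - R - ((Q - zJ ζ hζ Q) - (R - zJ ζ hζ R)) := by abel
      rw [h4, h2, sub_self, sub_zero]
    exact h3
  obtain ⟨b, hb⟩ := exists_rm_of_zJ_eq ζ hc.zeta (Q - R) h1
  have h5 : Q = R + rm b := by rw [← hb]; abel
  rw [h5, map_add, la02_symJ_rm σ (hc.fixr σ hσ), ← hR' σ hσ j hj]
  abel

lemma LE.exists_fixed (hc : LECtx ℓ Γ ζ ϖ) (h : LE Γ hζ ϖ x w) {c : ℤ}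
    (hw : ∀ θ, f.eval θ = 0 → (ℓ : ℤ) ∣ w θ - c) :
    ∃ x' : Jac ℓ f, x' - zJ ζ hζ x' = x ∧ ∀ σ ∈ Γ, symJ σ x' = x' := by
  obtain ⟨Q, hQ, hQ'⟩ := h
  refine ⟨Q, hQ, fun σ hσ => ?_⟩
  obtain ⟨j, hj⟩ := hc.kum σ hσ
  have h1 : (rm (fun θ => j * w θ) : Jac ℓ f) = 0 := by
    rw [rm_eq_zero_iff ζ hc.zeta]
    refine ⟨j * c, fun θ hθ => ?_⟩
    rw [← mul_sub]
    exact (hw θ hθ).mul_left j
  have h2 := hQ' σ hσ j hj
  rw [h1, sub_eq_zero] at h2
  exact h2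

lemma LE.unique (hc : LECtx ℓ Γ ζ ϖ) (h : LE Γ hζ ϖ x w) (h' : LE Γ hζ ϖ x w') :
    ∃ c : ℤ, ∀ θ, f.eval θ = 0 → (ℓ : ℤ) ∣ w θ - w' θ - c := by
  obtain ⟨Q, hQ, hQ'⟩ := h
  have h1 := h'.any hc hQ
  obtain ⟨σ, hσ, hσ'⟩ := hc.tame
  have h2 : (σ : M ≃+* M) ϖ = ζ ^ (1 : ℤ) * ϖ := by rw [zpow_one, hσ']
  have h3 := (hQ' σ hσ 1 h2).symm.trans (h1 σ hσ 1 h2)
  simp only [one_mul] at h3
  have h4 : (rm (fun θ => w θ - w' θ) : Jac ℓ f) = 0 := by
    rw [rm_sub]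
    exact sub_eq_zero.2 h3
  exact (rm_eq_zero_iff ζ hc.zeta _).1 h4

/-- With the normalisation that the weighted sum over the roots is divisible by `ℓ`. -/
lemma LE.unique_sum (hc : LECtx ℓ Γ ζ ϖ) (h : LE Γ hζ ϖ x w) (h' : LE Γ hζ ϖ x w')
    (hs : (ℓ : ℤ) ∣ ∑ θ ∈ rts f, wt f θ * w θ) (hs' : (ℓ : ℤ) ∣ ∑ θ ∈ rts f, wt f θ * w' θ) :
    ∀ θ, f.eval θ = 0 → (ℓ : ℤ) ∣ w θ - w' θ := by
  obtain ⟨c, hcc⟩ := h.unique hc h'
  have hf0 : f ≠ 0 := f_ne_zero ℓ f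
  have h1 : (ℓ : ℤ) ∣ ∑ θ ∈ rts f, (wt f θ * w θ - wt f θ * w' θ - wt f θ * c) := by
    refine Finset.dvd_sum fun θ hθ => ?_
    rw [← mul_sub, ← mul_sub]
    exact (hcc θ ((mem_rts hf0).1 hθ)).mul_left _
  have := hG.alg
  have hcard : ∑ θ ∈ rts f, (wt f θ : ℤ) = f.natDegree := by
    rw [← sum_wt f]
    push_cast
    rfl
  rw [Finset.sum_sub_distrib, Finset.sum_sub_distrib, ← Finset.sum_mul, hcard] at h1
  have h2 : (ℓ : ℤ) ∣ (f.natDegree : ℤ) * c := by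
    have h3 := dvd_sub (dvd_sub hs hs') h1
    rwa [sub_sub_cancel] at h3
  have h5 : IsCoprime (ℓ : ℤ) (f.natDegree : ℤ) :=
    (Nat.isCoprime_iff_coprime.mpr hG.coprime).symm
  have h6 : (ℓ : ℤ) ∣ c := h5.dvd_of_dvd_mul_left h2
  intro θ hθ
  have h7 := dvd_add (hcc θ hθ) h6
  rwa [sub_add_cancel] at h7

lemma LE.act (hc : LECtx ℓ Γ ζ ϖ) (h : LE Γ hζ ϖ x w) (u : Sym f)
    (hu : ∀ σ ∈ Γ, u⁻¹ * σ * u ∈ Γ) (huζ : (u : M ≃+* M) ζ = ζ)
    (hur : ∀ θ, f.eval θ = 0 → (u : M ≃+* M) θ = θ)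
    (huϖ : ∃ c : ℤ, (u : M ≃+* M) ϖ = ζ ^ c * ϖ) :
    LE Γ hζ ϖ (symJ u x) w := by
  obtain ⟨Q, hQ, hQ'⟩ := h
  obtain ⟨c, hcu⟩ := huϖ
  have hz0 : ζ ≠ 0 := hc.zeta.ne_zero hG.ne
  refine ⟨symJ u Q, ?_, fun σ hσ j hj => ?_⟩
  · rw [zJ_symJ ζ hζ u huζ, ← map_sub, hQ]
  · have h1 : ((u⁻¹ * σ * u : Sym f) : M ≃+* M) ϖ = ζ ^ j * ϖ := by
      have h2 : ((u⁻¹ * σ * u : Sym f) : M ≃+* M) ϖ =
          (u : M ≃+* M).symm ((σ : M ≃+* M) ((u : M ≃+* M) ϖ)) := rfl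
      rw [h2, RingEquiv.symm_apply_eq, hcu, map_mul, map_zpow₀, hc.fixζ σ hσ, hj, map_mul,
        map_zpow₀, huζ, hcu]
      ring
    have h3 := hQ' _ (hu σ hσ) j h1
    have h4 := congrArg (symJ u) h3
    rw [la02_symJ_rm u hur, map_sub, ← la02_symJ_mul] at h4
    have h5 : u * (u⁻¹ * σ * u) = σ * u := by group
    rw [h5, la02_symJ_mul] at h4
    exact h4

end Pool.Agent.Lib.MP_89bcae_ag.Wt.Lns

end

section

/-!
# Local exponents at a place `t = s`: existence, ramification points, functions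
-/

open Polynomial

open scoped Classical

namespace Pool.Agent.Lib.MP_89bcae_ag.Wt.Lns

open Pool.Agent.Lib.MP_89bcae_ag.Sup Pool.Agent.Lib.MP_89bcae_ag.Sup.Lns

universe u

variable {ι : Type} [Fintype ι] [LinearOrder ι] {F M : Type u} [Field F] [Field M] [Algebra F M]
  {v : AbsoluteValue M ℝ} {s : F} {t : M} {a : ι → F[X]} {W : ι → ℕ} {ℓ p : ℕ}
  [hG : IsGood ℓ (lineW W a t)]
  {ζ : F} {Γ : Subgroup (Sym (lineW W a t))} {ϖ : M}

omit [Fintype ι] [LinearOrder ι] in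
private lemma la3_aeval (τ : M ≃+* M) (hc : ∀ c : F, τ (algebraMap F M c) = algebraMap F M c)
    (ht : τ t = t) (D : F[X]) : τ (aeval t D) = aeval t D := by
  have h3 : τ (aeval t D) = aeval (τ t) D := by
    rw [aeval_def, aeval_def]
    have h4 := hom_eval₂ D (algebraMap F M) (τ : M →+* M) t
    have h5 : (τ : M →+* M).comp (algebraMap F M) = algebraMap F M := RingHom.ext hc
    rw [h5] at h4
    exact h4
  rw [h3, ht]

private lemma la3_pow (τ : M ≃+* M) {δ z : M} (hτ : τ δ = z * δ) (hz : τ z = z) (n : ℕ) :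
    (τ ^ n) δ = z ^ n * δ := by
  induction n with
  | zero => simp
  | succ n ih =>
    rw [pow_succ', RingAut.mul_apply, ih, map_mul, map_pow, hz, hτ]
    ring

omit [LinearOrder ι] hG in
private lemma la3_root (hΓ : LocGrp p F v t (v (t - algebraMap F M s)) Γ)
    {σ : Sym (lineW W a t)} (hσ : σ ∈ Γ) (i : ι) :
    (σ : M ≃+* M) (aeval t (a i)) = aeval t (a i) :=
  la3_aeval _ (hΓ.fix σ hσ) (hΓ.fixt σ hσ) _

lemma line_inj (hg : AGeom a) (h : LocCtx v s t) :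
    Function.Injective fun i => aeval t (a i) := by
  intro i j hij
  by_contra hne
  have h0 : aeval t (a i) - aeval t (a j) = 0 := sub_eq_zero.2 hij
  by_cases hs : (a i).eval s = (a j).eval s
  · have h1 := v_line_node h hs (hg.simple hne hs)
    rw [h0, map_zero] at h1
    exact v.ne_zero (sub_ne_zero.2 h.ne) h1.symm
  · have h1 := v_line_sub h hs
    rw [h0, map_zero] at h1
    exact zero_ne_one h1

omit [LinearOrder ι] hG in
private lemma la3_fixr (hW : ∀ i, W i ≠ 0)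
    (hΓ : LocGrp p F v t (v (t - algebraMap F M s)) Γ)
    {σ : Sym (lineW W a t)} (hσ : σ ∈ Γ) {θ : M} (hθ : (lineW W a t).eval θ = 0) :
    (σ : M ≃+* M) θ = θ := by
  obtain ⟨i, rfl⟩ := (eval_lineW_eq_zero hW).1 hθ
  exact la3_root hΓ hσ i

/-- from a fixed quotient to the exponent -/
private lemma la3_exp (σ : M ≃+* M) {z z1 : M} (hϖ0 : ϖ ≠ 0) {j w : ℤ}
    (hσϖ : σ ϖ = z1 ^ j * ϖ) (hz : σ (z / ϖ ^ w) = z / ϖ ^ w) :
    σ z = z1 ^ (j * w) * z := by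
  have h1 : z = z / ϖ ^ w * ϖ ^ w := by
    rw [div_mul_cancel₀ _ (zpow_ne_zero _ hϖ0)]
  conv_lhs => rw [h1]
  rw [map_mul, hz, map_zpow₀, hσϖ, mul_zpow, ← zpow_mul]
  have h2 : z / ϖ ^ w * (z1 ^ (j * w) * ϖ ^ w) = z1 ^ (j * w) * (z / ϖ ^ w * ϖ ^ w) := by ring
  rw [h2, ← h1]

private lemma la3_div_pow (z : M) (w : ℤ) (ℓ : ℕ) :
    (z / ϖ ^ w) ^ ℓ = z ^ ℓ / (ϖ ^ ℓ) ^ w := by
  rw [div_pow, ← zpow_natCast (ϖ ^ w), ← zpow_mul, mul_comm w, zpow_mul, zpow_natCast]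

/-- the choice of the exponent -/
private lemma la3_choice {x y : ℝ} (hp : p.Coprime ℓ) (hy : 0 < y)
    (hx : Val p y x) : ∃ w : ℤ, Val p (y ^ ℓ) (x / y ^ w) := by
  obtain ⟨m, k, hk⟩ := hx
  have hco : IsCoprime ((p ^ m : ℕ) : ℤ) (ℓ : ℤ) :=
    Nat.isCoprime_iff_coprime.2 (Nat.Coprime.pow_left m hp)
  obtain ⟨u, q, huq⟩ := hco
  refine ⟨k * u, m, k * q, ?_⟩
  rw [div_pow, hk, ← zpow_natCast (y ^ (k * u)), ← zpow_mul, ← zpow_sub₀ hy.ne',
    ← zpow_natCast y ℓ, ← zpow_mul]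
  congr 1
  linear_combination (-k) * huq

omit [LinearOrder ι] hG in
private lemma la3_pos (h : LocCtx v s t) : 0 < v (t - algebraMap F M s) :=
  v.pos (sub_ne_zero.2 h.ne)

omit [LinearOrder ι] hG in
private lemma la3_fixts (hΓ : LocGrp p F v t (v (t - algebraMap F M s)) Γ)
    {σ : Sym (lineW W a t)} (hσ : σ ∈ Γ) :
    (σ : M ≃+* M) (t - algebraMap F M s) = t - algebraMap F M s := by
  rw [map_sub, hΓ.fixt σ hσ, hΓ.fix σ hσ]

omit [LinearOrder ι] in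
/-- The exponents of an `ℓ`-th root of a fixed element. -/
private lemma la3_key (hℓ : ℓ.Prime) (h : LocCtx v s t) (hp : p.Coprime ℓ) (hζ : IsPrimitiveRoot ζ ℓ)
    (hΓ : LocGrp p F v t (v (t - algebraMap F M s)) Γ) (hϖ : ϖ ^ ℓ = t - algebraMap F M s)
    {σ : Sym (lineW W a t)} (hσ : σ ∈ Γ) {z : M} (hz0 : z ≠ 0)
    (hz : (σ : M ≃+* M) (z ^ ℓ) = z ^ ℓ) {w : ℤ}
    (hw : Val p (v (t - algebraMap F M s) ^ ℓ) (v (z ^ ℓ) / v (t - algebraMap F M s) ^ w))
    {j : ℤ} (hj : (σ : M ≃+* M) ϖ = algebraMap F M ζ ^ j * ϖ) :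
    (σ : M ≃+* M) z = algebraMap F M ζ ^ (j * w) * z := by
  have hts : t - algebraMap F M s ≠ 0 := sub_ne_zero.2 h.ne
  have hϖ0 : ϖ ≠ 0 := by
    rintro rfl
    apply hts
    rw [← hϖ, zero_pow hℓ.ne_zero]
  refine la3_exp (σ : M ≃+* M) hϖ0 hj ?_
  refine h.root_fixed_of_val (π' := t - algebraMap F M s) hℓ.ne_zero hp hζ (σ : M ≃+* M)
    (hΓ.inv σ hσ) (hΓ.fix σ hσ) (div_ne_zero hz0 (zpow_ne_zero _ hϖ0)) hts
    (la3_fixts hΓ hσ) ?_ ?_
  · rw [la3_div_pow, hϖ, map_div₀, hz, map_zpow₀, la3_fixts hΓ hσ]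
  · rw [la3_div_pow, hϖ, map_div₀, map_zpow₀]
    exact hw

private lemma la3_sgn (n : ℤ) (ℓ : ℕ) : v (((-1 : M) ^ (ℓ + 1)) ^ n) = 1 := by
  rw [map_zpow₀, map_pow, AbsoluteValue.map_neg, map_one, one_pow, one_zpow]

/-- The local exponent from a stable divisor. -/
private lemma la3_LE (hℓ : ℓ.Prime) (hW : ∀ i, W i ≠ 0) (h : LocCtx v s t) (hp : p.Coprime ℓ) (hζ : IsPrimitiveRoot ζ ℓ)
    (hζ' : IsPrimitiveRoot (algebraMap F M ζ) ℓ)
    (hΓ : LocGrp p F v t (v (t - algebraMap F M s)) Γ) (hϖ : ϖ ^ ℓ = t - algebraMap F M s)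
    (D : Pt ℓ (lineW W a t) →₀ ℤ) (hD : ∀ σ ∈ Γ, D.mapDomain (Pt.sym σ) = D) (w : M → ℤ)
    (hw : ∀ θ, (lineW W a t).eval θ = 0 → Val p (v (t - algebraMap F M s) ^ ℓ)
      (v (uval D θ) / v (t - algebraMap F M s) ^ w θ)) :
    LE Γ hζ'.pow_eq_one ϖ (cl D) w := by
  obtain ⟨Q, hQ⟩ := exists_sub_zJ (algebraMap F M ζ) hζ' (cl D)
  obtain ⟨z, hz, hkum⟩ := kummer_rm (algebraMap F M ζ) hζ' Q D hQ
  refine ⟨Q, hQ, fun σ hσ j hj => ?_⟩
  refine hkum σ (hΓ.fix σ hσ ζ) (hD σ hσ) _ fun θ hθ => ?_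
  obtain ⟨hz0, hzℓ⟩ := hz θ hθ
  rw [la3_fixr hW hΓ hσ hθ]
  refine la3_key hℓ h hp hζ hΓ hϖ hσ hz0 ?_ ?_ hj
  · rw [hzℓ, map_mul, sym_uval σ D (hD σ hσ), la3_fixr hW hΓ hσ hθ, map_zpow₀, map_pow, map_neg,
      map_one]
  · rw [hzℓ, map_mul, la3_sgn, one_mul]
    exact hw θ hθ


private lemma la3_erase {κ N : Type*} [DecidableEq κ] [CommMonoid N] (S : Finset κ) (x : κ) (g : κ → N) :
    ∏ y ∈ S.erase x, g y = ∏ y ∈ S, if y = x then 1 else g y := by
  rw [← Finset.prod_erase S (a := x) (f := fun y => if y = x then 1 else g y) (if_pos rfl)]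
  exact Finset.prod_congr rfl fun y hy => (if_neg (Finset.ne_of_mem_erase hy)).symm

private lemma la3_prod {x : ℝ} (hx : x ≠ 0) {κ : Type*} (S : Finset κ) (g : κ → ℤ) :
    ∏ i ∈ S, x ^ g i = x ^ ∑ i ∈ S, g i := by
  induction S using Finset.induction_on with
  | empty => simp
  | insert i S hi ih => rw [Finset.prod_insert hi, Finset.sum_insert hi, zpow_add₀ hx, ih]

lemma leCtx (hℓ : ℓ.Prime) (hW : ∀ i, W i ≠ 0) (h : LocCtx v s t) (hp : p.Coprime ℓ) (hζ : IsPrimitiveRoot ζ ℓ)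
    (hζ' : IsPrimitiveRoot (algebraMap F M ζ) ℓ)
    (hΓ : LocGrp p F v t (v (t - algebraMap F M s)) Γ) (hϖ : ϖ ^ ℓ = t - algebraMap F M s) :
    LECtx ℓ Γ (algebraMap F M ζ) ϖ := by
  have hts : t - algebraMap F M s ≠ 0 := sub_ne_zero.2 h.ne
  have hϖ0 : ϖ ≠ 0 := by
    rintro rfl
    apply hts
    rw [← hϖ, zero_pow hℓ.ne_zero]
  have hvϖ : v ϖ ^ ℓ = v (t - algebraMap F M s) := by rw [← map_pow, hϖ]
  have hv0 : 0 < v ϖ := v.pos hϖ0
  have hv1 : v ϖ < 1 := by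
    by_contra hcon
    push Not at hcon
    have h1 : 1 ≤ v ϖ ^ ℓ := one_le_pow₀ hcon
    rw [hvϖ] at h1
    exact absurd h.lt_one (not_lt.mpr h1)
  have hval : ∀ τ ∈ Γ, ∃ j < ℓ, (τ : M ≃+* M) ϖ = algebraMap F M ζ ^ j * ϖ := by
    intro τ hτ
    have h1 : ((τ : M ≃+* M) ϖ) ^ ℓ = ϖ ^ ℓ := by
      rw [← map_pow, hϖ]
      exact la3_fixts hΓ hτ
    have h3 : ((τ : M ≃+* M) ϖ / ϖ) ^ ℓ = 1 := by
      rw [div_pow, h1, div_self (pow_ne_zero ℓ hϖ0)]
    have : NeZero ℓ := ⟨hℓ.ne_zero⟩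
    obtain ⟨j, hj, hj'⟩ := hζ'.eq_pow_of_pow_eq_one h3
    exact ⟨j, hj, by rw [hj', div_mul_cancel₀ _ hϖ0]⟩
  refine ⟨hζ', hϖ0, fun σ hσ => hΓ.fix σ hσ ζ, fun σ hσ θ hθ => la3_fixr hW hΓ hσ hθ,
    fun σ hσ => ?_, ?_⟩
  · obtain ⟨j, -, hj⟩ := hval σ hσ
    exact ⟨j, by rw [zpow_natCast]; exact hj⟩
  · obtain ⟨τ, hτ, j, hj, hj0, hτj⟩ : ∃ τ ∈ Γ, ∃ j < ℓ, j ≠ 0 ∧
        (τ : M ≃+* M) ϖ = algebraMap F M ζ ^ j * ϖ := by
      by_contra hcon
      push Not at hcon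
      have h1 : ∀ σ ∈ Γ, (σ : M ≃+* M) ϖ = ϖ := by
        intro σ hσ
        obtain ⟨j, hj, hj'⟩ := hval σ hσ
        by_cases hj0 : j = 0
        · rw [hj', hj0, pow_zero, one_mul]
        · exact absurd hj' (hcon σ hσ j hj hj0)
      have h3 := hΓ.disc ϖ hϖ0 h1
      rw [← hvϖ] at h3
      have h4 := Val.dvd_of_zpow hp hv0 hv1 1 (by rw [zpow_one]; exact h3)
      have h5 : (ℓ : ℤ) ≤ 1 := Int.le_of_dvd one_pos h4
      have h6 := hℓ.one_lt
      omega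
    have hcop : Nat.Coprime j ℓ :=
      Nat.Coprime.symm ((Nat.Prime.coprime_iff_not_dvd hℓ).mpr
        (fun h0 => absurd (Nat.le_of_dvd (Nat.pos_of_ne_zero hj0) h0) (not_le.mpr hj)))
    obtain ⟨i, -, hi⟩ := Nat.exists_mul_mod_eq_one_of_coprime hcop hℓ.one_lt
    refine ⟨τ ^ i, Subgroup.pow_mem _ hτ i, ?_⟩
    have h1 : ((τ ^ i : Sym (lineW W a t)) : M ≃+* M) = (τ : M ≃+* M) ^ i := rfl
    rw [h1, la3_pow (τ : M ≃+* M) hτj (by rw [map_pow, hΓ.fix τ hτ]), ← pow_mul]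
    congr 1
    rw [← Nat.div_add_mod (j * i) ℓ, hi, pow_add, pow_mul, hζ'.pow_eq_one, one_pow, one_mul,
      pow_one]

/-- Every invariant point has a local exponent, whose sum over each class of roots is divisible
by `ℓ`. -/
theorem exists_LE (hℓ : ℓ.Prime) (hW : ∀ i, W i ≠ 0) (hg : AGeom a) (h : LocCtx v s t) (hp : p.Coprime ℓ) (hζ : IsPrimitiveRoot ζ ℓ)
    (hζ' : IsPrimitiveRoot (algebraMap F M ζ) ℓ)
    (hΓ : LocGrp p F v t (v (t - algebraMap F M s)) Γ) (hϖ : ϖ ^ ℓ = t - algebraMap F M s)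
    (x : Jac ℓ (lineW W a t)) (hx : ∀ σ ∈ Γ, symJ σ x = x) :
    ∃ w : M → ℤ, LE Γ hζ'.pow_eq_one ϖ x w ∧
      ∀ r : F, (ℓ : ℤ) ∣ ∑ i ∈ Finset.univ.filter (fun i => (a i).eval s = r),
        W i * w (aeval t (a i)) := by
  have hv0 := la3_pos h
  have hv1 := h.lt_one
  obtain ⟨D, hD, hDσ⟩ := exists_stable (algebraMap F M ζ) hζ' (Γ : Set (Sym (lineW W a t))) x hx
  have hch : ∀ θ : M, ∃ w : ℤ, (lineW W a t).eval θ = 0 →
      Val p (v (t - algebraMap F M s) ^ ℓ) (v (uval D θ) / v (t - algebraMap F M s) ^ w) := by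
    intro θ
    by_cases hθ : (lineW W a t).eval θ = 0
    · have h1 := hΓ.disc (uval D θ) (uval_ne_zero D) (fun σ hσ => by
        rw [sym_uval σ D (hDσ σ hσ), la3_fixr hW hΓ hσ hθ])
      obtain ⟨w, hw⟩ := la3_choice hp hv0 h1
      exact ⟨w, fun _ => hw⟩
    · exact ⟨0, fun h0 => absurd h0 hθ⟩
  choose w hw using hch
  refine ⟨w, ?_, fun r => ?_⟩
  · have h1 := la3_LE hℓ hW h hp hζ hζ' hΓ hϖ D hDσ w hw
    rw [hD] at h1
    exact h1
  · have h1 := val_uval_line h hW (line_inj hg h) hΓ D hDσ r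
    have h2 : Val p (v (t - algebraMap F M s) ^ ℓ)
        (∏ i ∈ Finset.univ.filter (fun i => (a i).eval s = r),
          (v (uval D (aeval t (a i))) / v (t - algebraMap F M s) ^ w (aeval t (a i))) ^ W i) :=
      Val.prod _ _ fun i _ => (hw _ (root_lineW hW i)).pow _
    have h3 := h1.mul h2.inv
    have h4 : (∏ i ∈ Finset.univ.filter (fun i => (a i).eval s = r),
        v (uval D (aeval t (a i))) ^ W i) *
        (∏ i ∈ Finset.univ.filter (fun i => (a i).eval s = r),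
          (v (uval D (aeval t (a i))) / v (t - algebraMap F M s) ^ w (aeval t (a i))) ^ W i)⁻¹ =
        v (t - algebraMap F M s) ^ (∑ i ∈ Finset.univ.filter (fun i => (a i).eval s = r),
          W i * w (aeval t (a i))) := by
      rw [← Finset.prod_inv_distrib, ← Finset.prod_mul_distrib, ← la3_prod hv0.ne']
      refine Finset.prod_congr rfl fun i _ => ?_
      have h5 : v (uval D (aeval t (a i))) ≠ 0 := v.ne_zero (uval_ne_zero D)
      rw [div_pow, inv_div, mul_div_assoc', mul_comm (v (uval D (aeval t (a i))) ^ W i),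
        mul_div_cancel_right₀ _ (pow_ne_zero _ h5), mul_comm (W i : ℤ), zpow_mul, zpow_natCast]
    rw [h4] at h3
    exact Val.dvd_of_zpow hp hv0 hv1 _ h3

theorem LE.sum_dvd (hℓ : ℓ.Prime) (hW : ∀ i, W i ≠ 0) (hg : AGeom a) (h : LocCtx v s t)
    (hp : p.Coprime ℓ) (hζ : IsPrimitiveRoot ζ ℓ)
    (hζ' : IsPrimitiveRoot (algebraMap F M ζ) ℓ)
    (hΓ : LocGrp p F v t (v (t - algebraMap F M s)) Γ) (hϖ : ϖ ^ ℓ = t - algebraMap F M s)
    {x : Jac ℓ (lineW W a t)} {w : M → ℤ} (hx : LE Γ hζ'.pow_eq_one ϖ x w)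
    (hsum : (ℓ : ℤ) ∣ ∑ i, W i * w (aeval t (a i))) (r : F) :
    (ℓ : ℤ) ∣ ∑ i ∈ Finset.univ.filter (fun i => (a i).eval s = r), W i * w (aeval t (a i)) := by
  have hc := leCtx (a := a) hℓ hW h hp hζ hζ' hΓ hϖ
  obtain ⟨w', hw', hs'⟩ := exists_LE hℓ hW hg h hp hζ hζ' hΓ hϖ x (fun σ hσ => hx.fixed hc hσ)
  obtain ⟨c, hcc⟩ := hx.unique hc hw'
  have hall : (ℓ : ℤ) ∣ ∑ i, W i * w' (aeval t (a i)) := by
    have h1 := Finset.sum_fiberwise_of_maps_to (s := (Finset.univ : Finset ι))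
      (t := Finset.univ.image fun i => (a i).eval s) (g := fun i => (a i).eval s)
      (fun i hi => Finset.mem_image_of_mem _ hi) (fun i => W i * w' (aeval t (a i)))
    rw [← h1]
    exact Finset.dvd_sum fun r _ => hs' r
  have hd : (ℓ : ℤ) ∣ ((∑ i, W i : ℕ) : ℤ) * c := by
    have h1 : (ℓ : ℤ) ∣ ∑ i, (W i * w (aeval t (a i)) - W i * w' (aeval t (a i)) - W i * c) := by
      refine Finset.dvd_sum fun i _ => ?_
      rw [← mul_sub, ← mul_sub]
      exact (hcc _ (root_lineW hW i)).mul_left _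
    rw [Finset.sum_sub_distrib, Finset.sum_sub_distrib, ← Finset.sum_mul] at h1
    have h2 := dvd_sub (dvd_sub hsum hall) h1
    push_cast
    simpa using h2
  have hc0 : (ℓ : ℤ) ∣ c := by
    have hco : IsCoprime (ℓ : ℤ) ((∑ i, W i : ℕ) : ℤ) := by
      have h1 := hG.coprime
      rw [lineW_natDegree] at h1
      exact (Nat.isCoprime_iff_coprime.2 h1).symm
    exact hco.dvd_of_dvd_mul_left hd
  have h1 : (ℓ : ℤ) ∣ ∑ i ∈ Finset.univ.filter (fun i => (a i).eval s = r),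
      (W i * w (aeval t (a i)) - W i * w' (aeval t (a i))) := by
    refine Finset.dvd_sum fun i _ => ?_
    have h2 := dvd_add (hcc _ (root_lineW (a := a) (t := t) hW i)) hc0
    rw [sub_add_cancel] at h2
    rw [← mul_sub]
    exact h2.mul_left _
  rw [Finset.sum_sub_distrib] at h1
  have h2 := dvd_add h1 (hs' r)
  rwa [sub_add_cancel] at h2

/-- The local exponents of the ramification points at a root `s` of `a_i - a_j`. -/
theorem LE_ram (hℓ : ℓ.Prime) (hW : ∀ i, W i ≠ 0) (hg : AGeom a) (h : LocCtx v s t)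
    (hp : p.Coprime ℓ) (hζ : IsPrimitiveRoot ζ ℓ)
    (hζ' : IsPrimitiveRoot (algebraMap F M ζ) ℓ)
    (hΓ : LocGrp p F v t (v (t - algebraMap F M s)) Γ) (hϖ : ϖ ^ ℓ = t - algebraMap F M s)
    {i j : ι} (hij : i ≠ j) (hs : (a i).eval s = (a j).eval s) (b w : M → ℤ)
    (hi : w (aeval t (a i)) = W j * (b (aeval t (a j)) - b (aeval t (a i))))
    (hj : w (aeval t (a j)) = W i * (b (aeval t (a i)) - b (aeval t (a j))))
    (hl : ∀ l, l ≠ i → l ≠ j → w (aeval t (a l)) = 0) :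
    LE Γ hζ'.pow_eq_one ϖ (rm b) w := by
  have hv0 := la3_pos h
  have hinj := line_inj hg h
  have hD : ∀ σ ∈ Γ, (ramDiv (fun θ => wt (lineW W a t) θ * b θ) :
      Pt ℓ (lineW W a t) →₀ ℤ).mapDomain (Pt.sym σ) =
        ramDiv (fun θ => wt (lineW W a t) θ * b θ) := by
    intro σ hσ
    rw [mapDomain_sym_ramDiv]
    refine ramDiv_congr _ _ fun θ hθ => ?_
    rw [la3_fixr hW hΓ (Γ.inv_mem hσ) hθ]
  have hal : ∀ m : ι, ((al ℓ (W m) : ℤ) * W m) = be ℓ (W m) * ℓ + 1 := by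
    intro m
    have h5 := al_wt (N := ℓ) (root_lineW (t := t) (a := a) hW m)
    rw [wt_lineW hinj] at h5
    exact_mod_cast h5
  have hval : ∀ m : ι, v (uval (ramDiv (fun θ => wt (lineW W a t) θ * b θ) :
      Pt ℓ (lineW W a t) →₀ ℤ) (aeval t (a m))) =
      ∏ l ∈ Finset.univ.erase m, v (aeval t (a m) - aeval t (a l)) ^
        (W l * (b (aeval t (a l)) - b (aeval t (a m))) -
          ℓ * (be ℓ (W m) * W l * b (aeval t (a m)))) := by
    intro m
    have hne : ∀ l ∈ Finset.univ.erase m, v (aeval t (a m) - aeval t (a l)) ≠ 0 := by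
      intro l hl
      refine v.ne_zero (sub_ne_zero.2 fun h0 => (Finset.ne_of_mem_erase hl) ?_)
      exact (hinj h0).symm
    rw [uval_ramDiv _ (root_lineW hW m), cof_lineW hinj, wt_lineW hinj, map_mul, map_zpow₀,
      map_inv₀, map_pow, map_prod]
    have h1 : ∏ θ' ∈ (lineW W a t).roots.toFinset.erase (aeval t (a m)),
        (aeval t (a m) - θ') ^ (wt (lineW W a t) θ' * b θ') = ∏ l ∈ Finset.univ.erase m,
          (aeval t (a m) - aeval t (a l)) ^ (W l * b (aeval t (a l))) := by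
      have h2 := prod_rts_lineW (a := a) (t := t) hW hinj
        (fun θ' => if θ' = aeval t (a m) then 1 else
          (aeval t (a m) - θ') ^ (wt (lineW W a t) θ' * b θ'))
      have h3 : ∏ θ' ∈ (lineW W a t).roots.toFinset.erase (aeval t (a m)),
          (aeval t (a m) - θ') ^ (wt (lineW W a t) θ' * b θ') = ∏ θ' ∈ rts (lineW W a t),
            (if θ' = aeval t (a m) then 1 else
              (aeval t (a m) - θ') ^ (wt (lineW W a t) θ' * b θ')) :=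
        la3_erase _ _ _
      have h4 : ∏ l ∈ Finset.univ.erase m,
          (aeval t (a m) - aeval t (a l)) ^ (W l * b (aeval t (a l))) = ∏ l,
            (if aeval t (a l) = aeval t (a m) then (1 : M) else
              (aeval t (a m) - aeval t (a l)) ^
                (wt (lineW W a t) (aeval t (a l)) * b (aeval t (a l)))) := by
        rw [la3_erase]
        refine Finset.prod_congr rfl fun l _ => ?_
        by_cases hlm : l = m
        · rw [if_pos hlm, if_pos (by rw [hlm])]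
        · rw [if_neg hlm, if_neg fun h0 => hlm (hinj h0), wt_lineW hinj]
      rw [h3, h2, h4]
    rw [h1, map_prod, ← Finset.prod_pow, ← Finset.prod_inv_distrib, ← Finset.prod_zpow,
      ← Finset.prod_mul_distrib]
    refine Finset.prod_congr rfl fun l hl => ?_
    rw [map_zpow₀, map_pow, ← zpow_natCast, ← zpow_natCast, ← zpow_mul, ← zpow_neg, ← zpow_mul,
      ← zpow_add₀ (hne l hl)]
    congr 1
    linear_combination (-(W l : ℤ) * b (aeval t (a m))) * hal m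
  have hone : ∀ m l : ι, m ≠ l → (a m).eval s ≠ (a l).eval s → ∀ n : ℤ,
      v (aeval t (a m) - aeval t (a l)) ^ n = 1 := by
    intro m l _ hml n
    rw [v_line_sub h hml, one_zpow]
  have hvw : ∀ m : ι, ∃ q : ℤ, v (uval (ramDiv (fun θ => wt (lineW W a t) θ * b θ) :
      Pt ℓ (lineW W a t) →₀ ℤ) (aeval t (a m))) =
      v (t - algebraMap F M s) ^ (w (aeval t (a m)) - ℓ * q) := by
    intro m
    rw [hval]
    by_cases hmi : m = i
    · subst hmi
      refine ⟨be ℓ (W m) * W j * b (aeval t (a m)), ?_⟩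
      rw [Finset.prod_eq_single_of_mem j (Finset.mem_erase.2 ⟨hij.symm, Finset.mem_univ _⟩)]
      · rw [v_line_node h hs (hg.simple hij hs), hi]
      · intro l hl hlj
        exact hone _ _ (Finset.ne_of_mem_erase hl).symm
          (hg.third hij (Finset.ne_of_mem_erase hl) hlj hs).symm _
    · by_cases hmj : m = j
      · subst hmj
        refine ⟨be ℓ (W m) * W i * b (aeval t (a m)), ?_⟩
        rw [Finset.prod_eq_single_of_mem i (Finset.mem_erase.2 ⟨hij, Finset.mem_univ _⟩)]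
        · rw [v_line_node h hs.symm (hg.simple hij.symm hs.symm), hj]
        · intro l hl hli
          exact hone _ _ (Finset.ne_of_mem_erase hl).symm
            (hg.third hij.symm (Finset.ne_of_mem_erase hl) hli hs.symm).symm _
      · refine ⟨0, ?_⟩
        rw [hl m hmi hmj, mul_zero, sub_zero, zpow_zero]
        refine Finset.prod_eq_one fun l hl' => ?_
        have hml : m ≠ l := (Finset.ne_of_mem_erase hl').symm
        refine hone _ _ hml (fun h0 => ?_) _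
        rcases hg.pair hij hml hs h0 with h1 | h1
        · exact hmi h1.1
        · exact hmj h1.1
  have hfin := la3_LE hℓ hW h hp hζ hζ' hΓ hϖ (ramDiv (fun θ => wt (lineW W a t) θ * b θ)) hD w
    (fun θ hθ => by
      obtain ⟨m, rfl⟩ := (eval_lineW_eq_zero hW).1 hθ
      obtain ⟨q, hq⟩ := hvw m
      refine ⟨0, -q, ?_⟩
      rw [hq, pow_zero, pow_one, ← zpow_sub₀ hv0.ne', ← zpow_natCast, ← zpow_mul]
      congr 1
      ring)
  exact hfin

/-- The local exponents of a point given by functions. -/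
theorem LE_of_kummer (hℓ : ℓ.Prime) (h : LocCtx v s t) (hζ : IsPrimitiveRoot ζ ℓ)
    (hζ' : IsPrimitiveRoot (algebraMap F M ζ) ℓ)
    (hΓ : LocGrp p F v t (v (t - algebraMap F M s)) Γ) (hϖ : ϖ ^ ℓ = t - algebraMap F M s)
    (Q : Jac ℓ (lineW W a t)) (z y : ι → M) (e : ι → ℤ)
    (hz : ∀ i, z i ^ ℓ = (t - algebraMap F M s) ^ e i * y i) (hy : ∀ i, v (y i) = 1)
    (hfix : ∀ σ ∈ Γ, ∀ i, (σ : M ≃+* M) (y i) = y i)
    (hQ : ∀ σ ∈ Γ, ∀ n : M → ℤ,
      (∀ i, (σ : M ≃+* M) (z i) = algebraMap F M ζ ^ n (aeval t (a i)) * z i) →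
        symJ σ Q - Q = rm n)
    (w : M → ℤ) (hw : ∀ i, w (aeval t (a i)) = e i) :
    LE Γ hζ'.pow_eq_one ϖ (Q - zJ (algebraMap F M ζ) hζ'.pow_eq_one Q) w := by
  have hts : t - algebraMap F M s ≠ 0 := sub_ne_zero.2 h.ne
  have hϖ0 : ϖ ≠ 0 := by
    rintro rfl
    apply hts
    rw [← hϖ, zero_pow hℓ.ne_zero]
  refine ⟨Q, rfl, fun σ hσ j hj => ?_⟩
  refine hQ σ hσ _ fun i => ?_
  rw [hw i]
  refine la3_exp (σ : M ≃+* M) hϖ0 hj ?_
  have h1 : (z i / ϖ ^ e i) ^ ℓ = y i := by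
    rw [la3_div_pow, hϖ, hz, mul_div_cancel_left₀ _ (zpow_ne_zero _ hts)]
  refine h.root_of_unit_fixed hℓ.ne_zero hζ (σ : M ≃+* M) (hΓ.inv σ hσ) (hΓ.fix σ hσ) ?_ ?_
  · have h2 : v (z i / ϖ ^ e i) ^ ℓ = 1 := by rw [← map_pow, h1, hy]
    exact (pow_eq_one_iff_of_nonneg (v.nonneg _) hℓ.ne_zero).mp h2
  · rw [h1, hfix σ hσ i]

end Pool.Agent.Lib.MP_89bcae_ag.Wt.Lns

end

section

/-!
# The formula at a node
-/

open Polynomial

open scoped Classical

namespace Pool.Agent.Lib.MP_89bcae_ag.Wt.Lns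

open Pool.Agent.Lib.MP_89bcae_ag.Sup Pool.Agent.Lib.MP_89bcae_ag.Sup.Lns

universe u

variable {ι : Type} [Fintype ι] [LinearOrder ι] {F M : Type u} [Field F] [Field M] [Algebra F M]
  {v : AbsoluteValue M ℝ} {s : F} {t : M} {a : ι → F[X]} {W : ι → ℕ} {ℓ p : ℕ}
  [hG : IsGood ℓ (lineW W a t)] {ζ : F} {Γ : Subgroup (Sym (lineW W a t))}

/-- The product which appears in the formula at a root `s` of `a_i - a_j`. -/
noncomputable def nodeW (W : ι → ℕ) (a : ι → F[X]) (e : ι → F → ℤ) (i j : ι) (s : F) : F :=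
  (derivative (a i - a j)).eval s ^ (-(W i + W j) * (W i * e i s)) *
    (∏ l ∈ (Finset.univ.erase i).erase j, ((a i).eval s - (a l).eval s) ^ (-W l * (W i * e i s))) *
      ∏ s' ∈ (SS a).erase s, (s - s') ^ (W i * W j * (e i s' - e j s'))

private lemma LA04_exists_zpow {K : Type*} [Field K] {ℓ : ℕ} (hℓ : ℓ ≠ 0) {ζ : K}
    (hζ : IsPrimitiveRoot ζ ℓ) {x y : K} (hy : y ≠ 0) (h : x ^ ℓ = y ^ ℓ) :
    ∃ k : ℤ, x = ζ ^ k * y := by
  have : NeZero ℓ := ⟨hℓ⟩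
  have h1 : (x / y) ^ ℓ = 1 := by
    rw [div_pow, h, div_self (pow_ne_zero _ hy)]
  obtain ⟨i, _, hi⟩ := hζ.eq_pow_of_pow_eq_one h1
  refine ⟨i, ?_⟩
  rw [zpow_natCast, hi, div_mul_cancel₀ _ hy]

private lemma LA04_zpow_eq {K : Type*} [Field K] {ℓ : ℕ} (hℓ : ℓ ≠ 0) {ζ : K}
    (hζ : IsPrimitiveRoot ζ ℓ) {i j : ℤ} (h : (ℓ : ℤ) ∣ i - j) : ζ ^ i = ζ ^ j := by
  obtain ⟨k, hk⟩ := h
  have h0 : ζ ≠ 0 := hζ.ne_zero hℓ
  have : i = j + ℓ * k := by omega
  rw [this, zpow_add₀ h0, zpow_mul, zpow_natCast, hζ.pow_eq_one, one_zpow, mul_one]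

private lemma LA04_symJ_mul {ℓ : ℕ} {E : Type u} [Field E] {f : E[X]} [hG : IsGood ℓ f]
    (σ τ : Sym f) (Q : Jac ℓ f) : symJ (σ * τ) Q = symJ σ (symJ τ Q) := by
  obtain ⟨D, rfl⟩ := cl_surjective Q
  rw [symJ_cl, symJ_cl, symJ_cl, ← Finsupp.mapDomain_comp]
  rfl

private lemma LA04_res_const (x : F) : v (algebraMap F M x - algebraMap F M x) < 1 := by
  rw [sub_self, map_zero]; exact one_pos

private lemma LA04_res_sub (h : LocCtx v s t) {x y : M} {c d : F}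
    (hc : v (x - algebraMap F M c) < 1) (hd : v (y - algebraMap F M d) < 1) :
    v (x - y - algebraMap F M (c - d)) < 1 := by
  have e : x - y - algebraMap F M (c - d) =
      (x - algebraMap F M c) + -(y - algebraMap F M d) := by
    rw [map_sub]; ring
  rw [e]
  refine lt_of_le_of_lt (h.nonarch _ _) (max_lt hc ?_)
  rw [map_neg_eq_map]
  exact hd

private lemma LA04_res_prod (h : LocCtx v s t) {κ : Type*} (S : Finset κ) (x : κ → M) (c : κ → F)
    (hx : ∀ i ∈ S, v (x i - algebraMap F M (c i)) < 1) :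
    v (∏ i ∈ S, x i - algebraMap F M (∏ i ∈ S, c i)) < 1 := by
  induction S using Finset.induction_on with
  | empty => simp
  | insert i S hi ih =>
    rw [Finset.prod_insert hi, Finset.prod_insert hi]
    exact h.residue_mul (hx i (Finset.mem_insert_self _ _))
      (ih fun j hj => hx j (Finset.mem_insert_of_mem hj))

private lemma LA04_res_pow (h : LocCtx v s t) {x : M} {c : F}
    (hc : v (x - algebraMap F M c) < 1) (n : ℕ) :
    v (x ^ n - algebraMap F M (c ^ n)) < 1 := by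
  have := h.residue_eval hc (X ^ n)
  simpa using this

private lemma LA04_res_t (h : LocCtx v s t) (s' : F) :
    v (t - algebraMap F M s' - algebraMap F M (s - s')) < 1 := by
  have e : t - algebraMap F M s' - algebraMap F M (s - s') = t - algebraMap F M s := by
    rw [map_sub]; ring
  rw [e]
  exact h.lt_one

omit [Fintype ι] [LinearOrder ι] in
private lemma LA04_res_line (h : LocCtx v s t) (i : ι) :
    v (aeval t (a i) - algebraMap F M ((a i).eval s)) < 1 :=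
  h.residue_eval h.lt_one _

/-- The sums of the exponents. -/
private lemma LA04_node (hg : AGeom a) {i j : ι} (hij : i ≠ j)
    (hs : (a i).eval s = (a j).eval s) (e : ι → ℤ) {m : ℤ}
    (hnode : ∀ r, m ∣ ∑ i ∈ Finset.univ.filter (fun i => (a i).eval s = r), e i) :
    m ∣ e i + e j ∧ (∀ l, l ≠ i → l ≠ j → m ∣ e l) := by
  constructor
  · have h1 := hnode ((a i).eval s)
    have h2 : Finset.univ.filter (fun l => (a l).eval s = (a i).eval s) = {i, j} := by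
      ext l
      rw [Finset.mem_filter, Finset.mem_insert, Finset.mem_singleton]
      constructor
      · rintro ⟨-, hl⟩
        by_contra hne
        push Not at hne
        exact hg.third hij hne.1 hne.2 hs hl
      · rintro (rfl | rfl)
        · exact ⟨Finset.mem_univ _, rfl⟩
        · exact ⟨Finset.mem_univ _, hs.symm⟩
    rw [h2, Finset.sum_pair hij] at h1
    exact h1
  · intro l hli hlj
    have h1 := hnode ((a l).eval s)
    have h2 : Finset.univ.filter (fun l' => (a l').eval s = (a l).eval s) = {l} := by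
      ext l'
      rw [Finset.mem_filter, Finset.mem_singleton]
      constructor
      · rintro ⟨-, hl⟩
        by_contra hne
        rcases hg.pair hij hne hs hl with ⟨-, h3⟩ | ⟨-, h3⟩
        · exact hlj h3
        · exact hli h3
      · rintro rfl
        exact ⟨Finset.mem_univ _, rfl⟩
    rw [h2, Finset.sum_singleton] at h1
    exact h1

private lemma LA04_dvd_sum {i j : ι} (hij : i ≠ j) (w : ι → ℤ) {m : ℤ} (h1 : m ∣ w i + w j)
    (h2 : ∀ l, l ≠ i → l ≠ j → m ∣ w l) : m ∣ ∑ l, w l := by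
  rw [← Finset.add_sum_erase _ _ (Finset.mem_univ i),
    ← Finset.add_sum_erase _ _ (Finset.mem_erase.2 ⟨hij.symm, Finset.mem_univ j⟩), ← add_assoc]
  refine dvd_add h1 (Finset.dvd_sum fun l hl => ?_)
  rw [Finset.mem_erase, Finset.mem_erase] at hl
  exact h2 l hl.2.1 hl.1

omit [LinearOrder ι] in
private lemma LA04_sum_rts (hW : ∀ i, W i ≠ 0) (hinj : Function.Injective fun i => aeval t (a i))
    (w : M → ℤ) :
    ∑ θ ∈ rts (lineW W a t), wt (lineW W a t) θ * w θ = ∑ i, W i * w (aeval t (a i)) := by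
  rw [sum_rts_lineW hW hinj]
  exact Finset.sum_congr rfl fun i _ => by rw [wt_lineW hinj]

omit [LinearOrder ι] in
private lemma LA04_fn (hinj : Function.Injective fun i => aeval t (a i)) (g : ι → ℤ) :
    ∃ w : M → ℤ, ∀ i, w (aeval t (a i)) = g i :=
  ⟨Function.extend (fun i => aeval t (a i)) g 0, fun i => hinj.extend_apply g 0 i⟩

private lemma LA04_aeval (u : M ≃+* M) (U : F ≃+* F)
    (huF : ∀ c : F, u (algebraMap F M c) = algebraMap F M (U c)) (hut : u t = t) {P : F[X]}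
    (hP : P.map (U : F →+* F) = P) : u (aeval t P) = aeval t P := by
  have h1 := Polynomial.hom_eval₂ P (algebraMap F M) (u : M →+* M) t
  have h2 : ((u : M →+* M)).comp (algebraMap F M) = (algebraMap F M).comp (U : F →+* F) := by
    ext c
    exact huF c
  have h3 : (u : M →+* M) t = t := hut
  rw [h2, ← Polynomial.eval₂_map, hP, h3] at h1
  rw [aeval_def]
  exact h1

private lemma LA04_v_prod (h : LocCtx v s t) (S : Finset F) (e : F → ℤ) :
    v (∏ s' ∈ S.erase s, (t - algebraMap F M s') ^ e s') = 1 := by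
  have h1 := LA04_res_prod h (S.erase s) (fun s' => (t - algebraMap F M s') ^ e s')
    (fun s' => (s - s') ^ e s') fun s' hs' => h.residue_zpow (LA04_res_t h s')
      (sub_ne_zero.2 (Finset.ne_of_mem_erase hs').symm) _
  refine h.v_eq_one h1 (Finset.prod_ne_zero_iff.2 fun s' hs' => zpow_ne_zero _
    (sub_ne_zero.2 (Finset.ne_of_mem_erase hs').symm))

private lemma LA04_key_i (hg : AGeom a) (h : LocCtx v s t) {i j : ι} (hij : i ≠ j)
    (hs : (a i).eval s = (a j).eval s) (e : F → ℤ) :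
    v ((aeval t (a i) - aeval t (a j)) ^ e s / ∏ s' ∈ SS a, (t - algebraMap F M s') ^ e s' -
      algebraMap F M ((derivative (a i - a j)).eval s ^ e s *
        ∏ s' ∈ (SS a).erase s, (s - s') ^ (-e s'))) < 1 := by
  have hsS : s ∈ SS a := mem_SS_of_eq hg hij hs
  have e1 : (aeval t (a i) - aeval t (a j)) ^ e s /
      ∏ s' ∈ SS a, (t - algebraMap F M s') ^ e s' =
      (aeval t (a i - a j) / (t - algebraMap F M s)) ^ e s *
        ∏ s' ∈ (SS a).erase s, (t - algebraMap F M s') ^ (-e s') := by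
    rw [← Finset.mul_prod_erase _ _ hsS, map_sub]
    simp only [zpow_neg, Finset.prod_inv_distrib, div_eq_mul_inv, mul_inv, mul_zpow, inv_zpow]
    ring
  rw [e1]
  refine h.residue_mul (h.residue_zpow (residue_simple h (by rw [eval_sub, hs, sub_self]))
    (hg.simple hij hs) _) ?_
  exact LA04_res_prod h _ _ _ fun s' hs' => h.residue_zpow (LA04_res_t h s')
    (sub_ne_zero.2 (Finset.ne_of_mem_erase hs').symm) _

private lemma LA04_key_j (hg : AGeom a) (h : LocCtx v s t) {i j : ι} (hij : i ≠ j)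
    (hs : (a i).eval s = (a j).eval s) (ℓ : ℕ) (e : F → ℤ) {ε A k : ℤ}
    (hε : e s = -(W i * A) + ℓ * k) :
    v (((-1) ^ (ℓ + 1)) ^ ε * (cof (lineW W a t) (aeval t (a j))) ^ (-A) /
      (∏ s' ∈ SS a, (t - algebraMap F M s') ^ e s') * (t - algebraMap F M s) ^ (ℓ * k) -
      algebraMap F M (((-1) ^ (ℓ + 1)) ^ ε * ((derivative (a j - a i)).eval s ^ (-(W i * A)) *
        ∏ l ∈ (Finset.univ.erase i).erase j, ((a j).eval s - (a l).eval s) ^ (-(W l * A))) *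
          ∏ s' ∈ (SS a).erase s, (s - s') ^ (-e s'))) < 1 := by
  have hsS : s ∈ SS a := mem_SS_of_eq hg hij hs
  have hta : t - algebraMap F M s ≠ 0 := sub_ne_zero.2 h.ne
  have hT : (t - algebraMap F M s) ^ ((ℓ : ℤ) * k) ≠ 0 := zpow_ne_zero _ hta
  have hT' : (t - algebraMap F M s) ^ (-(W i * A)) ≠ 0 := zpow_ne_zero _ hta
  have e1 : ((-1) ^ (ℓ + 1)) ^ ε * (cof (lineW W a t) (aeval t (a j))) ^ (-A) /
      (∏ s' ∈ SS a, (t - algebraMap F M s') ^ e s') * (t - algebraMap F M s) ^ (ℓ * k) =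
      ((-1) ^ (ℓ + 1)) ^ ε * ((aeval t (a j - a i) / (t - algebraMap F M s)) ^ (-(W i * A)) *
        ∏ l ∈ (Finset.univ.erase i).erase j, (aeval t (a j) - aeval t (a l)) ^ (-(W l * A))) *
        ∏ s' ∈ (SS a).erase s, (t - algebraMap F M s') ^ (-e s') := by
    have hm : i ∈ (Finset.univ : Finset ι).erase j :=
      Finset.mem_erase.2 ⟨hij, Finset.mem_univ i⟩
    have hpw : ∀ (y : M) (n : ℕ), (y ^ n) ^ (-A) = y ^ (-(n * A)) := by
      intro y n
      rw [← zpow_natCast, ← zpow_mul, mul_neg]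
    rw [← Finset.mul_prod_erase _ _ hsS, hε, zpow_add₀ hta, cof_lineW (line_inj hg h),
      ← Finset.mul_prod_erase _ _ hm, Finset.erase_right_comm, map_sub, 
      mul_zpow, ← Finset.prod_zpow, div_zpow, hpw]
    have e3 : ∏ l ∈ (Finset.univ.erase i).erase j, ((aeval t (a j) - aeval t (a l)) ^ W l) ^ (-A) =
        ∏ l ∈ (Finset.univ.erase i).erase j, (aeval t (a j) - aeval t (a l)) ^ (-(W l * A)) :=
      Finset.prod_congr rfl fun l _ => hpw _ _
    rw [e3]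
    have e2 : ∏ s' ∈ (SS a).erase s, (t - algebraMap F M s') ^ (-e s') =
        (∏ s' ∈ (SS a).erase s, (t - algebraMap F M s') ^ e s')⁻¹ := by
      rw [← Finset.prod_inv_distrib]
      exact Finset.prod_congr rfl fun _ _ => zpow_neg _ _
    rw [e2]
    generalize (∏ s' ∈ (SS a).erase s, (t - algebraMap F M s') ^ e s') = P
    generalize (t - algebraMap F M s) ^ ((ℓ : ℤ) * k) = T at hT ⊢
    generalize (t - algebraMap F M s) ^ (-(W i * A)) = T' at hT' ⊢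
    field_simp
  rw [e1]
  have hd : (derivative (a j - a i)).eval s ≠ 0 := hg.simple hij.symm hs.symm
  refine h.residue_mul (h.residue_mul ?_ (h.residue_mul (h.residue_zpow
    (residue_simple h (by rw [eval_sub, hs, sub_self])) hd _) ?_)) ?_
  · have : (((-1 : M) ^ (ℓ + 1)) ^ ε) = algebraMap F M (((-1) ^ (ℓ + 1)) ^ ε) := by
      rw [map_zpow₀, map_pow, map_neg, map_one]
    rw [this]
    exact LA04_res_const _
  · refine LA04_res_prod h _ _ _ fun l hl => h.residue_zpow (LA04_res_sub h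
      (LA04_res_line h j) (LA04_res_line h l)) ?_ _
    rw [Finset.mem_erase, Finset.mem_erase] at hl
    exact sub_ne_zero.2 (hg.third' hij hl.2.1 hl.1 hs).symm
  · exact LA04_res_prod h _ _ _ fun s' hs' => h.residue_zpow (LA04_res_t h s')
      (sub_ne_zero.2 (Finset.ne_of_mem_erase hs').symm) _

/-- A sign is an `ℓ`-th power of a sign. -/
private lemma LA04_sgn {K : Type*} [Field K] (hℓ : ℓ.Prime) (m : ℤ) (hm : ℓ = 2 → (2 : ℤ) ∣ m) :
    ∃ c : ℤ, ((-1 : K) ^ c) ^ ℓ = (-1) ^ m := by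
  rcases hℓ.eq_two_or_odd' with h2 | h2
  · obtain ⟨k, hk⟩ := hm h2
    refine ⟨k, ?_⟩
    rw [hk, h2, ← zpow_natCast, ← zpow_mul, mul_comm]
    rfl
  · refine ⟨m, ?_⟩
    rw [← zpow_natCast, ← zpow_mul, mul_comm, zpow_mul, zpow_natCast, h2.neg_one_pow]

/-- The quotient of the two residues. -/
private lemma LA04_quot (hℓ : ℓ.Prime) (hg : AGeom a) {i j : ι} (hij : i ≠ j)
    (hs : (a i).eval s = (a j).eval s) (e : ι → F → ℤ) {A B : ℤ} (hA : A * W j = B * ℓ + 1)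
    (hWi : (W i).Coprime ℓ) (hWj : (W j).Coprime ℓ) :
    ∃ (c : ℤ) (T : F), T ≠ 0 ∧
      (∀ U : F ≃+* F, (∀ i, (a i).map (U : F →+* F) = a i) → U s = s → U T = T) ∧
      ((((-1) ^ (ℓ + 1)) ^ e i s * ((derivative (a j - a i)).eval s ^ (-(W i * (A * e i s))) *
        ∏ l ∈ (Finset.univ.erase i).erase j,
          ((a j).eval s - (a l).eval s) ^ (-(W l * (A * e i s)))) *
          ∏ s' ∈ (SS a).erase s, (s - s') ^ (-e j s')) /
      ((derivative (a i - a j)).eval s ^ e i s *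
        ∏ s' ∈ (SS a).erase s, (s - s') ^ (-e i s'))) ^ (W i * W j) =
      ((-1) ^ c * T) ^ ℓ * nodeW W a e i j s := by
  have hd : (derivative (a i - a j)).eval s ≠ 0 := hg.simple hij hs
  have hl0 : ∀ l ∈ (Finset.univ.erase i).erase j, (a i).eval s - (a l).eval s ≠ 0 := by
    intro l hl
    rw [Finset.mem_erase, Finset.mem_erase] at hl
    exact sub_ne_zero.2 (hg.third hij hl.2.1 hl.1 hs).symm
  have hm1 : (-1 : F) ≠ 0 := neg_ne_zero.2 one_ne_zero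
  -- the sign
  obtain ⟨c, hc⟩ := LA04_sgn (K := F) hℓ
    (((ℓ : ℤ) + 1) * e i s * (W i * W j) - W i * (A * e i s) * (W i * W j)) (by
      intro h2
      have ha : Odd (W i) := by
        rw [h2] at hWi
        exact Nat.coprime_two_right.1 hWi
      have hb : Odd (W j) := by
        rw [h2] at hWj
        exact Nat.coprime_two_right.1 hWj
      obtain ⟨x, hx⟩ := ha
      obtain ⟨y, hy⟩ := hb
      have hx' : (W i : ℤ) = 2 * x + 1 := by exact_mod_cast hx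
      have hy' : (W j : ℤ) = 2 * y + 1 := by exact_mod_cast hy
      rw [h2] at hA ⊢
      push_cast at hA ⊢
      refine ⟨e i s * W i * W j + e i s * W i * y - e i s * W i * B * W i - e i s * W i * x, ?_⟩
      linear_combination (-(W i : ℤ) * W i * e i s) * hA + e i s * W i * hy' - e i s * W i * hx')
  refine ⟨c, (derivative (a i - a j)).eval s ^ (-(W i * e i s * W i * B)) *
    ∏ l ∈ (Finset.univ.erase i).erase j,
      ((a i).eval s - (a l).eval s) ^ (-(W l * e i s * W i * B)), ?_, ?_, ?_⟩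
  · exact mul_ne_zero (zpow_ne_zero _ hd)
      (Finset.prod_ne_zero_iff.2 fun l hl => zpow_ne_zero _ (hl0 l hl))
  · intro U hU hUs
    have h1 : ∀ P : F[X], P.map (U : F →+* F) = P → U (P.eval s) = P.eval s := by
      intro P hP
      have h2 := Polynomial.eval₂_hom (U : F →+* F) s (p := P)
      rw [← Polynomial.eval_map, hP] at h2
      have h3 : (U : F →+* F) s = s := hUs
      rw [h3] at h2
      exact h2.symm
    rw [map_mul, map_zpow₀, map_prod, h1]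
    · congr 1
      refine Finset.prod_congr rfl fun l _ => ?_
      rw [map_zpow₀, map_sub, h1 _ (hU i), h1 _ (hU l)]
    · rw [← derivative_map, Polynomial.map_sub, hU, hU]
  · unfold nodeW
    have e1 : (derivative (a j - a i)).eval s = (-1) * (derivative (a i - a j)).eval s := by
      rw [derivative_sub, derivative_sub, eval_sub, eval_sub]; ring
    have hz : ∀ (y : F) (m : ℤ) (n : ℕ), (y ^ m) ^ n = y ^ (m * n) := fun y m n => by
      rw [← zpow_natCast, ← zpow_mul]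
    have hpr : ∀ (κ : Type u) (S : Finset κ) (g : κ → F) (n : ℤ) (m : κ → ℤ),
        (∏ l ∈ S, g l ^ m l) ^ n = ∏ l ∈ S, g l ^ (m l * n) := by
      intro κ S g n m
      rw [← Finset.prod_zpow]
      exact Finset.prod_congr rfl fun l _ => by rw [← zpow_mul]
    have hS0 : ∀ s' ∈ (SS a).erase s, s - s' ≠ 0 := fun s' hs' =>
      sub_ne_zero.2 (Finset.ne_of_mem_erase hs').symm
    have h1 : (((-1 : F) ^ (ℓ + 1)) ^ e i s) ^ (W i * W j) *
        ((-1 : F) ^ (-(W i * (A * e i s)))) ^ (W i * W j) = ((-1) ^ c) ^ ℓ := by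
      rw [hc, ← zpow_natCast (-1 : F) (ℓ + 1), ← zpow_mul, hz, hz, ← zpow_add₀ hm1]
      congr 1
      push_cast
      ring
    have h2 : ((derivative (a i - a j)).eval s ^ (-(W i * (A * e i s)))) ^ (W i * W j) /
        ((derivative (a i - a j)).eval s ^ e i s) ^ (W i * W j) =
        ((derivative (a i - a j)).eval s ^ (-(W i * e i s * W i * B))) ^ ℓ *
          (derivative (a i - a j)).eval s ^ (-(W i + W j) * (W i * e i s)) := by
      rw [hz, hz, hz, ← zpow_sub₀ hd, ← zpow_add₀ hd]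
      congr 1
      push_cast
      linear_combination (-(W i : ℤ) * W i * e i s) * hA
    have h3 : (∏ l ∈ (Finset.univ.erase i).erase j,
        ((a i).eval s - (a l).eval s) ^ (-(W l * (A * e i s)))) ^ (W i * W j) =
        (∏ l ∈ (Finset.univ.erase i).erase j,
          ((a i).eval s - (a l).eval s) ^ (-(W l * e i s * W i * B))) ^ ℓ *
        ∏ l ∈ (Finset.univ.erase i).erase j,
          ((a i).eval s - (a l).eval s) ^ (-W l * (W i * e i s)) := by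
      rw [← Finset.prod_pow, ← Finset.prod_pow, ← Finset.prod_mul_distrib]
      refine Finset.prod_congr rfl fun l hl => ?_
      rw [hz, hz, ← zpow_add₀ (hl0 l hl)]
      congr 1
      push_cast
      linear_combination (-(W l : ℤ) * W i * e i s) * hA
    have h4 : (∏ s' ∈ (SS a).erase s, (s - s') ^ (-e j s')) ^ (W i * W j) /
        (∏ s' ∈ (SS a).erase s, (s - s') ^ (-e i s')) ^ (W i * W j) =
        ∏ s' ∈ (SS a).erase s, (s - s') ^ (W i * W j * (e i s' - e j s')) := by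
      rw [← Finset.prod_pow, ← Finset.prod_pow, ← Finset.prod_div_distrib]
      refine Finset.prod_congr rfl fun s' hs' => ?_
      rw [hz, hz, ← zpow_sub₀ (hS0 s' hs')]
      congr 1
      push_cast
      ring
    rw [e1, ← hs, mul_zpow, div_pow]
    simp only [mul_pow]
    have h5 : (((-1 : F) ^ (ℓ + 1)) ^ e i s) ^ (W i * W j) *
        ((((-1 : F) ^ (-(W i * (A * e i s)))) ^ (W i * W j) *
          ((derivative (a i - a j)).eval s ^ (-(W i * (A * e i s)))) ^ (W i * W j)) *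
          (∏ l ∈ (Finset.univ.erase i).erase j,
            ((a i).eval s - (a l).eval s) ^ (-(W l * (A * e i s)))) ^ (W i * W j)) *
          (∏ s' ∈ (SS a).erase s, (s - s') ^ (-e j s')) ^ (W i * W j) /
        (((derivative (a i - a j)).eval s ^ e i s) ^ (W i * W j) *
          (∏ s' ∈ (SS a).erase s, (s - s') ^ (-e i s')) ^ (W i * W j)) =
        ((((-1 : F) ^ (ℓ + 1)) ^ e i s) ^ (W i * W j) *
          ((-1 : F) ^ (-(W i * (A * e i s)))) ^ (W i * W j)) *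
        (((derivative (a i - a j)).eval s ^ (-(W i * (A * e i s)))) ^ (W i * W j) /
          ((derivative (a i - a j)).eval s ^ e i s) ^ (W i * W j)) *
        (∏ l ∈ (Finset.univ.erase i).erase j,
            ((a i).eval s - (a l).eval s) ^ (-(W l * (A * e i s)))) ^ (W i * W j) *
        ((∏ s' ∈ (SS a).erase s, (s - s') ^ (-e j s')) ^ (W i * W j) /
          (∏ s' ∈ (SS a).erase s, (s - s') ^ (-e i s')) ^ (W i * W j)) := by
      simp only [div_eq_mul_inv, mul_inv]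
      ring
    rw [h5, h1, h2, h3, h4]
    ring

theorem node_formula (hℓ : ℓ.Prime) (hW : ∀ i, (W i).Coprime ℓ) (h : LocCtx v s t)
    (hg : AGeom a) (hp : p.Coprime ℓ)
    (hζ : IsPrimitiveRoot ζ ℓ) (hζ' : IsPrimitiveRoot (algebraMap F M ζ) ℓ)
    (hΓ : LocGrp p F v t (v (t - algebraMap F M s)) Γ)
    -- the automorphism `u`
    (u : Sym (lineW W a t)) (U : F ≃+* F) (huv : ∀ x, v ((u : M ≃+* M) x) = v x)
    (huF : ∀ c : F, (u : M ≃+* M) (algebraMap F M c) = algebraMap F M (U c))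
    (hut : (u : M ≃+* M) t = t) (hua : ∀ i, (a i).map (U : F →+* F) = a i)
    (hUζ : U ζ = ζ) (hnorm : ∀ τ ∈ Γ, u⁻¹ * τ * u ∈ Γ)
    (hUS : ∀ s' ∈ SS a, U s' = s')
    -- the exponents
    (e e' : ι → F → ℤ)
    (hnode : ∀ r, (ℓ : ℤ) ∣ ∑ i ∈ Finset.univ.filter (fun i => (a i).eval s = r), W i * e i s)
    (hnode' : ∀ r, (ℓ : ℤ) ∣ ∑ i ∈ Finset.univ.filter (fun i => (a i).eval s = r), W i * e' i s)
    (z z' : ι → M) (hz : ∀ i, z i ^ ℓ = ∏ s' ∈ SS a, (t - algebraMap F M s') ^ e i s')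
    (hz' : ∀ i, z' i ^ ℓ = ∏ s' ∈ SS a, (t - algebraMap F M s') ^ e' i s')
    (Q : Jac ℓ (lineW W a t))
    (hQ : ∀ τ ∈ Γ, ∀ n : M → ℤ,
      (∀ i, (τ : M ≃+* M) (z i) = algebraMap F M ζ ^ n (aeval t (a i)) * z i) →
        (symJ τ Q - Q) - zJ (algebraMap F M ζ) hζ'.pow_eq_one (symJ τ Q - Q) = rm n)
    (b q : M → ℤ) (hq : ∀ i, (u : M ≃+* M) (z i) = algebraMap F M ζ ^ q (aeval t (a i)) * z i)
    (B : Jac ℓ (lineW W a t))
    (hB : B - zJ (algebraMap F M ζ) hζ'.pow_eq_one B = rm fun θ => b θ - q θ)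
    (hy : ∀ τ ∈ Γ, ∀ n : M → ℤ,
      (∀ i, (τ : M ≃+* M) (z' i) = algebraMap F M ζ ^ n (aeval t (a i)) * z' i) →
        rm n = symJ u (symJ (u⁻¹ * τ * u) Q - Q) - (symJ τ Q - Q) + (symJ τ B - B))
    {i j : ι} (hij : i ≠ j) (hs : (a i).eval s = (a j).eval s) (x : F)
    (hx : x ^ ℓ = nodeW W a e i j s) :
    U x = ζ ^ (W i * e' i s - W i * W j * (b (aeval t (a j)) - b (aeval t (a i)))) * x := by
  have hAM : IsAlgClosed M := hG.alg
  have hℓ0 : ℓ ≠ 0 := hℓ.ne_zero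
  have hW0 : ∀ i, W i ≠ 0 := by
    intro i h0
    have h1 := hW i
    rw [h0, Nat.coprime_zero_left] at h1
    exact hℓ.one_lt.ne' h1
  have hζ0 : ζ ≠ 0 := hζ.ne_zero hℓ0
  have hζ0' : algebraMap F M ζ ≠ 0 := hζ'.ne_zero hℓ0
  have hinj := line_inj hg h
  have hsS : s ∈ SS a := mem_SS_of_eq hg hij hs
  have hta : t - algebraMap F M s ≠ 0 := sub_ne_zero.2 h.ne
  obtain ⟨ϖ, hϖ⟩ := IsAlgClosed.exists_pow_nat_eq (t - algebraMap F M s)
    (Nat.pos_of_ne_zero hℓ0)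
  have hϖ0 : ϖ ≠ 0 := by
    rintro rfl
    rw [zero_pow hℓ0] at hϖ
    exact hta hϖ.symm
  have hc := leCtx hℓ hW0 h hp hζ hζ' hΓ hϖ
  have huζ : (u : M ≃+* M) (algebraMap F M ζ) = algebraMap F M ζ := by rw [huF, hUζ]
  have huA : ∀ l, (u : M ≃+* M) (aeval t (a l)) = aeval t (a l) := fun l =>
    LA04_aeval (u : M ≃+* M) U huF hut (hua l)
  have hur : ∀ θ, (lineW W a t).eval θ = 0 → (u : M ≃+* M) θ = θ := by
    intro θ hθ
    obtain ⟨l, rfl⟩ := (eval_lineW_eq_zero hW0).1 hθ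
    exact huA l
  have hur' : ∀ θ, (lineW W a t).eval θ = 0 → ((u⁻¹ : Sym (lineW W a t)) : M ≃+* M) θ = θ := by
    intro θ hθ
    have h1 : ((u⁻¹ : Sym (lineW W a t)) : M ≃+* M) ((u : M ≃+* M) θ) = θ :=
      (u : M ≃+* M).symm_apply_apply θ
    rwa [hur θ hθ] at h1
  have huts : (u : M ≃+* M) (t - algebraMap F M s) = t - algebraMap F M s := by
    rw [map_sub, hut, huF, hUS s hsS]
  have huϖ : ∃ c : ℤ, (u : M ≃+* M) ϖ = algebraMap F M ζ ^ c * ϖ :=
    LA04_exists_zpow hℓ0 hζ' hϖ0 (by rw [← map_pow, hϖ, huts])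
  have hσζ : ∀ σ ∈ Γ, (σ : M ≃+* M) (algebraMap F M ζ) = algebraMap F M ζ := fun σ hσ =>
    hΓ.fix σ hσ ζ
  have hroot0 : ∀ l, (lineW W a t).eval (aeval t (a l)) = 0 := fun l => root_lineW hW0 l
  -- the exponents
  have hcopW : ∀ (l : ι) (y : ℤ), (ℓ : ℤ) ∣ W l * y → (ℓ : ℤ) ∣ y := by
    intro l y hy
    have h2 : IsCoprime (ℓ : ℤ) (W l : ℤ) := (Nat.isCoprime_iff_coprime.2 (hW l)).symm
    exact h2.dvd_of_dvd_mul_left hy
  obtain ⟨hn1, hn2'⟩ := LA04_node hg hij hs (fun l => W l * e l s) hnode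
  have hn2 : ∀ l, l ≠ i → l ≠ j → (ℓ : ℤ) ∣ e l s := fun l h1 h2 => hcopW l _ (hn2' l h1 h2)
  obtain ⟨hn1', hn2''⟩ := LA04_node hg hij hs (fun l => W l * e' l s) hnode'
  have hal : ((al ℓ (W j) : ℕ) : ℤ) * W j = ((be ℓ (W j) : ℕ) : ℤ) * ℓ + 1 := by
    exact_mod_cast al_mul hℓ.one_lt (hW j)
  obtain ⟨A, hA⟩ : ∃ A : ℤ, A = al ℓ (W j) := ⟨_, rfl⟩
  obtain ⟨B', hB'⟩ : ∃ B' : ℤ, B' = be ℓ (W j) := ⟨_, rfl⟩
  have hAB : A * W j = B' * ℓ + 1 := by rw [hA, hB', hal]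
  obtain ⟨we, hwe⟩ := LA04_fn hinj (fun l => e l s)
  obtain ⟨we', hwe'⟩ := LA04_fn hinj (fun l => e' l s)
  -- step 1
  have hfixprod : ∀ σ ∈ Γ, ∀ e₁ : F → ℤ,
      (σ : M ≃+* M) (∏ s' ∈ (SS a).erase s, (t - algebraMap F M s') ^ e₁ s') =
        ∏ s' ∈ (SS a).erase s, (t - algebraMap F M s') ^ e₁ s' := by
    intro σ hσ e₁
    rw [map_prod]
    refine Finset.prod_congr rfl fun s' _ => ?_
    rw [map_zpow₀, map_sub, hΓ.fixt σ hσ, hΓ.fix σ hσ]
  obtain ⟨Q₁, hQ₁⟩ : ∃ Q₁ : Jac ℓ (lineW W a t),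
      Q₁ = Q - zJ (algebraMap F M ζ) hζ'.pow_eq_one Q := ⟨_, rfl⟩
  have hLE1 : LE Γ hζ'.pow_eq_one ϖ (Q₁ - zJ (algebraMap F M ζ) hζ'.pow_eq_one Q₁) we := by
    refine LE_of_kummer hℓ h hζ hζ' hΓ hϖ Q₁ z
      (fun l => ∏ s' ∈ (SS a).erase s, (t - algebraMap F M s') ^ e l s') (fun l => e l s)
      ?_ ?_ ?_ ?_ we hwe
    · intro l
      rw [hz l, ← Finset.mul_prod_erase _ _ hsS]
    · intro l
      exact LA04_v_prod h _ _
    · intro σ hσ l
      exact hfixprod σ hσ _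
    · intro σ hσ n hn
      rw [← hQ σ hσ n hn, hQ₁, map_sub, map_sub, zJ_symJ _ _ σ (hσζ σ hσ)]
      abel
  -- step 2
  obtain ⟨ρ, hρ⟩ := LA04_fn hinj (fun l => if l = j then e i s else 0)
  have hρi : ρ (aeval t (a i)) = 0 := by rw [hρ, if_neg hij]
  have hρj : ρ (aeval t (a j)) = e i s := by rw [hρ, if_pos rfl]
  obtain ⟨V, hV⟩ := LA04_fn hinj (fun l => if l = i then W j * (A * e i s) else
    if l = j then -(W i * (A * e i s)) else 0)
  have hLE2 : LE Γ hζ'.pow_eq_one ϖ (ram ρ) V := by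
    rw [ram_eq_rm]
    refine LE_ram hℓ hW0 hg h hp hζ hζ' hΓ hϖ hij hs
      (fun θ => al ℓ (wt (lineW W a t) θ) * ρ θ) V ?_ ?_ ?_
    · rw [hV, if_pos rfl, hρi, hρj, wt_lineW hinj, mul_zero, sub_zero, hA]
    · rw [hV, if_neg hij.symm, if_pos rfl, hρi, hρj, wt_lineW hinj i, wt_lineW hinj j, mul_zero,
        zero_sub, hA]
      ring
    · intro l hli hlj
      rw [hV, if_neg hli, if_neg hlj]
  obtain ⟨x', hx', hx'fix⟩ := LE.exists_fixed hc (hLE1.sub hLE2) (c := 0) (by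
    intro θ hθ
    obtain ⟨l, rfl⟩ := (eval_lineW_eq_zero hW0).1 hθ
    rw [hwe, hV, sub_zero]
    by_cases hli : l = i
    · subst hli
      rw [if_pos rfl]
      exact ⟨-(B' * e l s), by linear_combination (-e l s) * hAB⟩
    · rw [if_neg hli]
      by_cases hlj : l = j
      · subst hlj
        rw [if_pos rfl, sub_neg_eq_add]
        obtain ⟨m, hm⟩ := hn1
        exact ⟨A * m - B' * e l s, by linear_combination A * hm - e l s * hAB⟩
      · rw [if_neg hlj, sub_zero]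
        exact hn2 l hli hlj)
  obtain ⟨B₀, hB₀⟩ : ∃ B₀ : Jac ℓ (lineW W a t), B₀ = Q₁ - x' := ⟨_, rfl⟩
  have hB₀' : B₀ - zJ (algebraMap F M ζ) hζ'.pow_eq_one B₀ = cl (ramDiv ρ) := by
    have h1 : B₀ - zJ (algebraMap F M ζ) hζ'.pow_eq_one B₀ = ram ρ := by
      have h2 : B₀ - zJ (algebraMap F M ζ) hζ'.pow_eq_one B₀ =
          (Q₁ - zJ (algebraMap F M ζ) hζ'.pow_eq_one Q₁) -
            (x' - zJ (algebraMap F M ζ) hζ'.pow_eq_one x') := by
        rw [hB₀, map_sub]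
        abel
      rw [h2, hx']
      abel
    exact h1
  -- step 3
  obtain ⟨Q', hQ'⟩ : ∃ Q' : Jac ℓ (lineW W a t), Q' = symJ u Q - Q + B := ⟨_, rfl⟩
  have hLE3 : LE Γ hζ'.pow_eq_one ϖ (Q' - zJ (algebraMap F M ζ) hζ'.pow_eq_one Q') we' := by
    refine LE_of_kummer hℓ h hζ hζ' hΓ hϖ Q' z'
      (fun l => ∏ s' ∈ (SS a).erase s, (t - algebraMap F M s') ^ e' l s') (fun l => e' l s)
      ?_ ?_ ?_ ?_ we' hwe'
    · intro l
      rw [hz' l, ← Finset.mul_prod_erase _ _ hsS]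
    · intro l
      exact LA04_v_prod h _ _
    · intro σ hσ l
      exact hfixprod σ hσ _
    · intro σ hσ n hn
      rw [hy σ hσ n hn, hQ', map_add, map_sub, map_sub, ← symJ_mul, ← symJ_mul]
      have h1 : u * (u⁻¹ * σ * u) = σ * u := by group
      rw [h1]
      abel
  -- step 4
  obtain ⟨zz, hzz, hker⟩ := kummer_rm (algebraMap F M ζ) hζ' B₀ (ramDiv ρ) hB₀'
  have hDfix : (ramDiv ρ : Pt ℓ (lineW W a t) →₀ ℤ).mapDomain (Pt.sym u) = ramDiv ρ := by
    rw [mapDomain_sym_ramDiv]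
    refine ramDiv_congr _ _ ?_
    intro θ hθ
    rw [hur' θ hθ]
  have hn : ∀ θ : M, ∃ n : ℤ, (lineW W a t).eval θ = 0 →
      (u : M ≃+* M) (zz θ) = algebraMap F M ζ ^ n * zz θ := by
    intro θ
    by_cases hθ : (lineW W a t).eval θ = 0
    · obtain ⟨n, hn⟩ : ∃ n : ℤ, (u : M ≃+* M) (zz θ) = algebraMap F M ζ ^ n * zz θ := by
        refine LA04_exists_zpow hℓ0 hζ' (hzz θ hθ).1 ?_
        rw [← map_pow, (hzz θ hθ).2, map_mul, map_zpow₀, map_pow, map_neg, map_one,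
          sym_uval u _ hDfix, hur θ hθ]
      exact ⟨n, fun _ => hn⟩
    · exact ⟨0, fun h0 => absurd h0 hθ⟩
  choose n hn using hn
  have hkn : symJ u B₀ - B₀ = rm n := by
    refine hker u huζ hDfix n ?_
    intro θ hθ
    rw [hur θ hθ]
    exact hn θ hθ
  obtain ⟨w₁, hw₁, -⟩ := exists_LE hℓ hW0 hg h hp hζ hζ' hΓ hϖ x' hx'fix
  have hLE4 := (hw₁.act hc u hnorm huζ hur huϖ).sub hw₁
  obtain ⟨β, hβ⟩ : ∃ β : M → ℤ, β = fun θ => n θ + (b θ - q θ) := ⟨_, rfl⟩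
  obtain ⟨V', hV'⟩ := LA04_fn hinj (fun l =>
    if l = i then W j * (β (aeval t (a j)) - β (aeval t (a i))) else
      if l = j then W i * (β (aeval t (a i)) - β (aeval t (a j))) else 0)
  have hLE5 : LE Γ hζ'.pow_eq_one ϖ (rm β) V' := by
    refine LE_ram hℓ hW0 hg h hp hζ hζ' hΓ hϖ hij hs β V' ?_ ?_ ?_
    · rw [hV', if_pos rfl]
    · rw [hV', if_neg hij.symm, if_pos rfl]
    · intro l hli hlj
      rw [hV', if_neg hli, if_neg hlj]
  have hQ'eq : Q' - zJ (algebraMap F M ζ) hζ'.pow_eq_one Q' = rm β + (symJ u x' - x') := by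
    have h1 : Q' - zJ (algebraMap F M ζ) hζ'.pow_eq_one Q' =
        (symJ u Q₁ - Q₁) + (B - zJ (algebraMap F M ζ) hζ'.pow_eq_one B) := by
      rw [hQ', hQ₁, map_add, map_sub, map_sub, zJ_symJ _ _ u huζ]
      abel
    have h2 : symJ u Q₁ - Q₁ = (symJ u B₀ - B₀) + (symJ u x' - x') := by
      rw [hB₀, map_sub]
      abel
    have h3 : (rm β : Jac ℓ (lineW W a t)) = rm n + rm fun θ => b θ - q θ := by
      rw [hβ]
      exact rm_add n fun θ => b θ - q θ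
    rw [h1, h2, hkn, hB, h3]
    abel
  have hLE6 : LE Γ hζ'.pow_eq_one ϖ (Q' - zJ (algebraMap F M ζ) hζ'.pow_eq_one Q') V' := by
    rw [hQ'eq]
    refine (hLE5.add hLE4).congr fun θ _ => ?_
    exact ⟨0, by ring⟩
  have hfin := LE.unique_sum hc hLE3 hLE6 (by
      rw [LA04_sum_rts hW0 hinj]
      refine LA04_dvd_sum hij (fun l => W l * we' (aeval t (a l))) ?_ ?_
      · rw [hwe', hwe']
        exact hn1'
      · intro l hli hlj
        rw [hwe']
        exact hn2'' l hli hlj) (by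
      rw [LA04_sum_rts hW0 hinj]
      refine LA04_dvd_sum hij (fun l => W l * V' (aeval t (a l))) ?_ ?_
      · rw [hV', hV', if_pos rfl, if_neg hij.symm, if_pos rfl]
        exact ⟨0, by ring⟩
      · intro l hli hlj
        rw [hV', if_neg hli, if_neg hlj, mul_zero]
        exact dvd_zero _) _ (hroot0 i)
  rw [hwe', hV', if_pos rfl] at hfin
  -- step 5: the units
  have hej : ∃ k : ℤ, e j s = -(W i * (A * e i s)) + ℓ * k := by
    obtain ⟨k, hk⟩ := hn1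
    exact ⟨A * k - B' * e j s, by linear_combination A * hk - e j s * hAB⟩
  obtain ⟨k, hk⟩ := hej
  have hzzi : zz (aeval t (a i)) ^ ℓ = (aeval t (a i) - aeval t (a j)) ^ e i s := by
    rw [(hzz _ (hroot0 i)).2, atR_ramDiv _ (hroot0 i), uval_ramDiv _ (hroot0 i), hρi, zpow_zero,
      one_mul, zpow_zero, one_mul]
    have h1 : aeval t (a j) ∈ (lineW W a t).roots.toFinset.erase (aeval t (a i)) := by
      rw [Finset.mem_erase]
      exact ⟨fun h0 => hij.symm (hinj h0), (mem_rts_lineW hW0).2 ⟨j, rfl⟩⟩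
    rw [← Finset.mul_prod_erase _ _ h1, hρj, Finset.prod_eq_one, mul_one]
    intro θ hθ
    rw [Finset.mem_erase, Finset.mem_erase] at hθ
    obtain ⟨l, rfl⟩ := (mem_rts_lineW hW0).1 hθ.2.2
    rw [hρ, if_neg, zpow_zero]
    rintro rfl
    exact hθ.1 rfl
  have hzzj : zz (aeval t (a j)) ^ ℓ = ((-1) ^ (ℓ + 1)) ^ e i s *
      (cof (lineW W a t) (aeval t (a j))) ^ (-(A * e i s)) := by
    rw [(hzz _ (hroot0 j)).2, atR_ramDiv _ (hroot0 j), uval_ramDiv _ (hroot0 j), hρj,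
      Finset.prod_eq_one, mul_one, wt_lineW hinj, inv_zpow, ← zpow_natCast (cof _ _) (al ℓ (W j)),
      ← zpow_mul, ← zpow_neg, hA]
    intro θ hθ
    rw [Finset.mem_erase] at hθ
    obtain ⟨l, rfl⟩ := (mem_rts_lineW hW0).1 hθ.2
    rw [hρ, if_neg, zpow_zero]
    rintro rfl
    exact hθ.1 rfl
  obtain ⟨Xi, hXi⟩ : ∃ Xi : F, Xi = (derivative (a i - a j)).eval s ^ e i s *
        ∏ s' ∈ (SS a).erase s, (s - s') ^ (-e i s') := ⟨_, rfl⟩
  obtain ⟨Xj, hXj⟩ : ∃ Xj : F, Xj = ((-1) ^ (ℓ + 1)) ^ e i s *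
      ((derivative (a j - a i)).eval s ^ (-(W i * (A * e i s))) *
        ∏ l ∈ (Finset.univ.erase i).erase j,
          ((a j).eval s - (a l).eval s) ^ (-(W l * (A * e i s)))) *
          ∏ s' ∈ (SS a).erase s, (s - s') ^ (-e j s') := ⟨_, rfl⟩
  have hS0 : ∀ e₁ : F → ℤ, ∏ s' ∈ (SS a).erase s, (s - s') ^ (-e₁ s') ≠ 0 := fun e₁ =>
    Finset.prod_ne_zero_iff.2 fun s' hs' => zpow_ne_zero _
      (sub_ne_zero.2 (Finset.ne_of_mem_erase hs').symm)
  have hXi0 : Xi ≠ 0 := by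
    rw [hXi]
    exact mul_ne_zero (zpow_ne_zero _ (hg.simple hij hs)) (hS0 _)
  have hXj0 : Xj ≠ 0 := by
    rw [hXj]
    refine mul_ne_zero (mul_ne_zero (zpow_ne_zero _ (pow_ne_zero _ (neg_ne_zero.2 one_ne_zero)))
      (mul_ne_zero (zpow_ne_zero _ (hg.simple hij.symm hs.symm)) ?_)) (hS0 _)
    refine Finset.prod_ne_zero_iff.2 fun l hl => zpow_ne_zero _ ?_
    rw [Finset.mem_erase, Finset.mem_erase] at hl
    exact sub_ne_zero.2 (hg.third' hij hl.2.1 hl.1 hs).symm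
  -- the residue of a unit with a given power
  have hres : ∀ (Y : M) (X₀ : F) (m : ℤ), v (Y ^ ℓ - algebraMap F M X₀) < 1 → X₀ ≠ 0 →
      (u : M ≃+* M) Y = algebraMap F M ζ ^ m * Y →
      ∃ y : F, y ≠ 0 ∧ y ^ ℓ = X₀ ∧ U y = ζ ^ m * y := by
    intro Y X₀ m h1 h2 h3
    have hvY : v Y = 1 := by
      have h4 := h.v_eq_one h1 h2
      rw [map_pow] at h4
      exact (pow_eq_one_iff_of_nonneg (v.nonneg _) hℓ0).1 h4
    obtain ⟨y, hy⟩ := h.residue _ hvY.le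
    have hyX : y ^ ℓ = X₀ := h.residue_unique (LA04_res_pow h hy ℓ) h1
    refine ⟨y, ?_, hyX, ?_⟩
    · rintro rfl
      rw [zero_pow hℓ0] at hyX
      exact h2 hyX.symm
    · have hr1 : v ((u : M ≃+* M) Y - algebraMap F M (U y)) < 1 := by
        rw [← huF, ← map_sub, huv]
        exact hy
      have hr2 : v ((u : M ≃+* M) Y - algebraMap F M (ζ ^ m * y)) < 1 := by
        rw [h3, ← map_zpow₀]
        exact h.residue_mul (LA04_res_const _) hy
      exact h.residue_unique hr1 hr2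
  obtain ⟨yi, hyi0, hyi, hUyi⟩ := hres (zz (aeval t (a i)) / z i) Xi
    (n (aeval t (a i)) - q (aeval t (a i))) (by
      rw [div_pow, hzzi, hz i, hXi]
      exact LA04_key_i hg h hij hs (e i)) hXi0 (by
      rw [map_div₀, hn _ (hroot0 i), hq i, zpow_sub₀ hζ0']
      simp only [div_eq_mul_inv, mul_inv]
      ring)
  obtain ⟨yj, hyj0, hyj, hUyj⟩ := hres (zz (aeval t (a j)) / z j * (t - algebraMap F M s) ^ k) Xj
    (n (aeval t (a j)) - q (aeval t (a j))) (by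
      rw [mul_pow, div_pow, hzzj, hz j, hXj, ← zpow_natCast ((t - algebraMap F M s) ^ k) ℓ,
        ← zpow_mul, mul_comm k]
      exact LA04_key_j hg h hij hs ℓ (e j) hk) hXj0 (by
      rw [map_mul, map_zpow₀, huts, map_div₀, hn _ (hroot0 j), hq j, zpow_sub₀ hζ0']
      simp only [div_eq_mul_inv, mul_inv]
      ring)
  -- the conclusion
  obtain ⟨c, T, hT0, hTU, hT⟩ := LA04_quot hℓ hg hij hs e (A := A) (B := B') hAB (hW i) (hW j)
  have hcT0 : (-1 : F) ^ c * T ≠ 0 :=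
    mul_ne_zero (zpow_ne_zero _ (neg_ne_zero.2 one_ne_zero)) hT0
  have hquot : ((yj / yi) ^ (W i * W j)) ^ ℓ = (((-1) ^ c * T) * x) ^ ℓ := by
    rw [← pow_mul, mul_comm (W i * W j), pow_mul, div_pow, hyi, hyj, hXi, hXj, hT,
      mul_pow ((-1) ^ c * T) x, hx]
  have hy0 : (yj / yi) ^ (W i * W j) ≠ 0 := pow_ne_zero _ (div_ne_zero hyj0 hyi0)
  obtain ⟨k', hk'⟩ := LA04_exists_zpow hℓ0 hζ hy0 hquot.symm
  have hUy1 : U (yj / yi) = ζ ^ ((n (aeval t (a j)) - q (aeval t (a j))) -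
          (n (aeval t (a i)) - q (aeval t (a i)))) * (yj / yi) := by
    rw [map_div₀, hUyi, hUyj, zpow_sub₀ hζ0 (n (aeval t (a j)) - q (aeval t (a j)))
      (n (aeval t (a i)) - q (aeval t (a i)))]
    simp only [div_eq_mul_inv, mul_inv]
    ring
  have hUy : U ((yj / yi) ^ (W i * W j)) =
      ζ ^ (W i * e' i s - W i * W j * (b (aeval t (a j)) - b (aeval t (a i)))) *
        (yj / yi) ^ (W i * W j) := by
    have h1 : ζ ^ (W i * e' i s - W i * W j * (b (aeval t (a j)) - b (aeval t (a i)))) =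
        ζ ^ (((n (aeval t (a j)) - q (aeval t (a j))) -
          (n (aeval t (a i)) - q (aeval t (a i)))) * (W i * W j : ℤ)) := by
      refine LA04_zpow_eq hℓ0 hζ ?_
      rw [hβ] at hfin
      obtain ⟨m, hm⟩ := hfin
      exact ⟨W i * m, by linear_combination (W i : ℤ) * hm⟩
    rw [map_pow, hUy1, mul_pow, h1, zpow_mul]
    norm_cast
  have h1 : U ((-1) ^ c * T * x) =
      ζ ^ (W i * e' i s - W i * W j * (b (aeval t (a j)) - b (aeval t (a i)))) *
        ((-1) ^ c * T * x) := by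
    rw [hk', map_mul, map_zpow₀, hUζ, hUy]
    ring
  rw [map_mul, map_mul, map_zpow₀, map_neg, map_one, hTU U hua (hUS s hsS)] at h1
  apply mul_left_cancel₀ hcT0
  rw [h1]
  ring

end Pool.Agent.Lib.MP_89bcae_ag.Wt.Lns

end

section

/-!
# The local theorems for a curve equal to `lineW W a t`
-/

open Polynomial

open scoped Classical

namespace Pool.Agent.Lib.MP_89bcae_ag.Wt.Lns

open Pool.Agent.Lib.MP_89bcae_ag.Sup Pool.Agent.Lib.MP_89bcae_ag.Sup.Lns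

universe u

variable {ι : Type} [Fintype ι] [LinearOrder ι] {F M : Type u} [Field F] [Field M] [Algebra F M]
  {v : AbsoluteValue M ℝ} {s : F} {t : M} {a : ι → F[X]} {W : ι → ℕ} {ℓ p : ℕ} {ζ : F}

/-- The sums of the exponents over the classes of roots. -/
theorem place_sum (hℓ : ℓ.Prime) (hW : ∀ i, (W i).Coprime ℓ) (hg : AGeom a) (h : LocCtx v s t) (hp : p.Coprime ℓ) {f : M[X]} (hf : f = lineW W a t)
    [hG : IsGood ℓ f] (hζ : IsPrimitiveRoot ζ ℓ) (hζ' : IsPrimitiveRoot (algebraMap F M ζ) ℓ)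
    {Γ : Subgroup (Sym f)} (hΓ : LocGrp p F v t (v (t - algebraMap F M s)) Γ)
    (Q : Jac ℓ f) (z y : ι → M) (e : ι → ℤ)
    (hz : ∀ i, z i ^ ℓ = (t - algebraMap F M s) ^ e i * y i) (hy : ∀ i, v (y i) = 1)
    (hfix : ∀ σ ∈ Γ, ∀ i, (σ : M ≃+* M) (y i) = y i)
    (hQ : ∀ σ ∈ Γ, ∀ n : M → ℤ,
      (∀ i, (σ : M ≃+* M) (z i) = algebraMap F M ζ ^ n (aeval t (a i)) * z i) →
        symJ σ Q - Q = rm n)
    (hsum : (ℓ : ℤ) ∣ ∑ i, W i * e i) (r : F) :
    (ℓ : ℤ) ∣ ∑ i ∈ Finset.univ.filter (fun i => (a i).eval s = r), W i * e i := by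
  subst hf
  have hM : IsAlgClosed M := hG.alg
  have hinj := line_inj hg h
  have hW0 : ∀ i, W i ≠ 0 := by
    intro i h0
    have h1 := hW i
    rw [h0, Nat.coprime_zero_left] at h1
    exact hℓ.one_lt.ne' h1
  obtain ⟨ϖ, hϖ⟩ := IsAlgClosed.exists_pow_nat_eq (t - algebraMap F M s) hℓ.pos
  -- the exponents as a function on `M`
  obtain ⟨w, hw⟩ : ∃ w : M → ℤ, ∀ i, w (aeval t (a i)) = e i := by
    refine ⟨fun θ => if h : ∃ i, aeval t (a i) = θ then e h.choose else 0, fun i => ?_⟩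
    have h : ∃ j, aeval t (a j) = aeval t (a i) := ⟨i, rfl⟩
    beta_reduce
    rw [dif_pos h, hinj h.choose_spec]
  have h1 := LE_of_kummer hℓ h hζ hζ' hΓ hϖ Q z y e hz hy hfix hQ w hw
  have h2 := LE.sum_dvd hℓ hW0 hg h hp hζ hζ' hΓ hϖ h1 (by simpa only [hw] using hsum) r
  simpa only [hw] using h2

theorem node_formula' (hℓ : ℓ.Prime) (hW : ∀ i, (W i).Coprime ℓ) (h : LocCtx v s t) (hg : AGeom a) (hp : p.Coprime ℓ) {f : M[X]}
    (hf : f = lineW W a t) [hG : IsGood ℓ f]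
    (hζ : IsPrimitiveRoot ζ ℓ) (hζ' : IsPrimitiveRoot (algebraMap F M ζ) ℓ)
    {Γ : Subgroup (Sym f)} (hΓ : LocGrp p F v t (v (t - algebraMap F M s)) Γ)
    -- the automorphism `u`
    (u : Sym f) (U : F ≃+* F) (huv : ∀ x, v ((u : M ≃+* M) x) = v x)
    (huF : ∀ c : F, (u : M ≃+* M) (algebraMap F M c) = algebraMap F M (U c))
    (hut : (u : M ≃+* M) t = t) (hua : ∀ i, (a i).map (U : F →+* F) = a i)
    (hUζ : U ζ = ζ) (hnorm : ∀ τ ∈ Γ, u⁻¹ * τ * u ∈ Γ)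
    (hUS : ∀ s' ∈ SS a, U s' = s')
    -- the exponents
    (e e' : ι → F → ℤ)
    (hnode : ∀ r, (ℓ : ℤ) ∣ ∑ i ∈ Finset.univ.filter (fun i => (a i).eval s = r), W i * e i s)
    (hnode' : ∀ r, (ℓ : ℤ) ∣ ∑ i ∈ Finset.univ.filter (fun i => (a i).eval s = r), W i * e' i s)
    (z z' : ι → M) (hz : ∀ i, z i ^ ℓ = ∏ s' ∈ SS a, (t - algebraMap F M s') ^ e i s')
    (hz' : ∀ i, z' i ^ ℓ = ∏ s' ∈ SS a, (t - algebraMap F M s') ^ e' i s')
    (Q : Jac ℓ f)
    (hQ : ∀ τ ∈ Γ, ∀ n : M → ℤ,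
      (∀ i, (τ : M ≃+* M) (z i) = algebraMap F M ζ ^ n (aeval t (a i)) * z i) →
        (symJ τ Q - Q) - zJ (algebraMap F M ζ) hζ'.pow_eq_one (symJ τ Q - Q) = rm n)
    (b q : M → ℤ) (hq : ∀ i, (u : M ≃+* M) (z i) = algebraMap F M ζ ^ q (aeval t (a i)) * z i)
    (B : Jac ℓ f)
    (hB : B - zJ (algebraMap F M ζ) hζ'.pow_eq_one B = rm fun θ => b θ - q θ)
    (hy : ∀ τ ∈ Γ, ∀ n : M → ℤ,
      (∀ i, (τ : M ≃+* M) (z' i) = algebraMap F M ζ ^ n (aeval t (a i)) * z' i) →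
        rm n = symJ u (symJ (u⁻¹ * τ * u) Q - Q) - (symJ τ Q - Q) + (symJ τ B - B))
    {i j : ι} (hij : i ≠ j) (hs : (a i).eval s = (a j).eval s) (x : F)
    (hx : x ^ ℓ = nodeW W a e i j s) :
    U x = ζ ^ (W i * e' i s - W i * W j * (b (aeval t (a j)) - b (aeval t (a i)))) * x := by
  subst hf
  exact node_formula hℓ hW h hg hp hζ hζ' hΓ u U huv huF hut hua hUζ hnorm hUS e e' hnode hnode' z z' hz
    hz' Q hQ b q hq B hB hy hij hs x hx

end Pool.Agent.Lib.MP_89bcae_ag.Wt.Lns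

end
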