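import Mathlib
import Pool.Agent.Lib.MP_89bcae_ag.Mk.K025
import Pool.Agent.Lib.MP_89bcae_ag.Mk.K027

namespace Pool.Agent.Lib.MP_89bcae_ag.Sup
end Pool.Agent.Lib.MP_89bcae_ag.Sup
namespace Pool.Agent.Lib.MP_89bcae_ag.Sup.Lns
end Pool.Agent.Lib.MP_89bcae_ag.Sup.Lns

section

/-!
ROW G09 (100-200 lines). Kummer theory for a continuous character of a subgroup of `Aut(Ω/L)`.

STATEMENT. `Ω/L` normal, `ζ` a primitive `ℓ`-th root of unity fixed by `H`, `χ` a function to `ZMod ℓ`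
which is additive on the subgroup `H` of `Aut(Ω/L)` and vanishes on the elements of `H` which fix a
certain finite set `S`. Then there is `z ≠ 0` with `σ z = ζ^{χ(σ)} z` for all `σ` in `H`.

PROOF. Let `E` be the normal closure in `Ω` of `L(S)`: finite over `L`, stable under `H`. `H` acts on `E`
through a finite group `G` of automorphisms of the field `E` (the image of `H → Aut(E/L)`), and
`χ` factors through `G`. By the linear independence of characters (`linearIndependent_monoidHom`) there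
is `y` in `E` with `z = ∑_{s∈G} ζ^{-χ(s)} s(y) ≠ 0`. For `σ` in `H`,
`σ z = ∑ ζ^{-χ(s)} (σ s)(y) = ζ^{χ(σ)} z`.
-/

open Polynomial

open scoped Classical

namespace Pool.Agent.Lib.MP_89bcae_ag.Sup

theorem g09_pow_val_add {Ω : Type*} [Field Ω] {ℓ : ℕ} [Fact ℓ.Prime] {ζ : Ω} (hζ : ζ ^ ℓ = 1)
    (a b : ZMod ℓ) : ζ ^ (a + b).val = ζ ^ a.val * ζ ^ b.val := by
  rw [ZMod.val_add, ← pow_eq_pow_mod _ hζ, pow_add]

theorem exists_kummer_char {L Ω : Type*} [Field L] [Field Ω] [Algebra L Ω] [Normal L Ω] {ℓ : ℕ}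
    [Fact ℓ.Prime] {ζ : Ω} (hζ : IsPrimitiveRoot ζ ℓ) (H : Subgroup (Ω ≃ₐ[L] Ω))
    (hζH : ∀ σ ∈ H, σ ζ = ζ) (χ : (Ω ≃ₐ[L] Ω) → ZMod ℓ)
    (hχ : ∀ σ ∈ H, ∀ τ ∈ H, χ (σ * τ) = χ σ + χ τ) (S : Finset Ω)
    (hS : ∀ σ ∈ H, (∀ x ∈ S, σ x = x) → χ σ = 0) :
    ∃ z : Ω, z ≠ 0 ∧ ∀ σ ∈ H, σ z = ζ ^ (χ σ).val * z := by
  have hζℓ : ζ ^ ℓ = 1 := hζ.pow_eq_one
  have hζ0 : ζ ≠ 0 := hζ.ne_zero (Fact.out : ℓ.Prime).ne_zero
  have hfd : FiniteDimensional L (IntermediateField.adjoin L (S : Set Ω)) :=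
    IntermediateField.finiteDimensional_adjoin
      (fun x _ => (Algebra.IsAlgebraic.isAlgebraic (R := L) x).isIntegral)
  let E : IntermediateField L Ω :=
    IntermediateField.normalClosure L (IntermediateField.adjoin L (S : Set Ω)) Ω
  have hEn : Normal L E := inferInstanceAs (Normal L
    (IntermediateField.normalClosure L (IntermediateField.adjoin L (S : Set Ω)) Ω))
  have hEfd : FiniteDimensional L E := inferInstanceAs (FiniteDimensional L
    (IntermediateField.normalClosure L (IntermediateField.adjoin L (S : Set Ω)) Ω))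
  have hSE : ∀ x ∈ S, x ∈ E := by
    intro x hx
    have h1 : x ∈ IntermediateField.adjoin L (S : Set Ω) :=
      IntermediateField.subset_adjoin L (S : Set Ω) hx
    exact (IntermediateField.le_normalClosure _) h1
  let res : (Ω ≃ₐ[L] Ω) →* (E ≃ₐ[L] E) := AlgEquiv.restrictNormalHom E
  have hres : ∀ (σ : Ω ≃ₐ[L] Ω) (x : E), algebraMap E Ω (res σ x) = σ (algebraMap E Ω x) :=
    fun σ x => AlgEquiv.restrictNormal_commutes σ E x
  have hfac : ∀ σ ∈ H, ∀ τ ∈ H, res σ = res τ → χ σ = χ τ := by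
    intro σ hσ τ hτ h
    have h1 : ∀ x ∈ S, (σ⁻¹ * τ) x = x := by
      intro x hx
      have h2 := hres σ ⟨x, hSE x hx⟩
      have h3 := hres τ ⟨x, hSE x hx⟩
      rw [h] at h2
      have h4 : σ x = τ x := h2.symm.trans h3
      rw [AlgEquiv.mul_apply, ← h4, ← AlgEquiv.mul_apply, inv_mul_cancel]
      rfl
    have h5 := hS _ (H.mul_mem (H.inv_mem hσ) hτ) h1
    have h6 := hχ σ hσ _ (H.mul_mem (H.inv_mem hσ) hτ)
    rw [mul_inv_cancel_left, h5, add_zero] at h6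
    exact h6.symm
  let G : Subgroup (E ≃ₐ[L] E) := H.map res
  have hG : ∀ s : G, ∃ σ ∈ H, res σ = s := by
    intro s
    obtain ⟨σ, hσ, h⟩ := s.2
    exact ⟨σ, hσ, h⟩
  choose lift hlift1 hlift2 using hG
  have hfin : Finite (E ≃ₐ[L] E) := inferInstance
  let hft : Fintype G := Fintype.ofFinite G
  let Φ : G → (E →* Ω) := fun s =>
    ((algebraMap E Ω : E →+* Ω).comp ((s : E ≃ₐ[L] E) : E →+* E) : E →+* Ω)
  have hΦ : ∀ (s : G) (y : E), Φ s y = algebraMap E Ω ((s : E ≃ₐ[L] E) y) := fun s y => rfl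
  have hΦinj : Function.Injective Φ := by
    intro s s' h
    apply Subtype.ext
    apply AlgEquiv.ext
    intro y
    have h1 := DFunLike.congr_fun h y
    rw [hΦ, hΦ] at h1
    exact (algebraMap E Ω).injective h1
  have hlin := (linearIndependent_monoidHom E Ω).comp Φ hΦinj
  rw [Fintype.linearIndependent_iff] at hlin
  have hex : ∃ y : E, ∑ s : G, ζ ^ (-χ (lift s)).val * Φ s y ≠ 0 := by
    by_contra hcon
    push Not at hcon
    have h1 := hlin (fun s => ζ ^ (-χ (lift s)).val) (by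
      funext y
      simp only [Function.comp_apply, Finset.sum_apply, Pi.smul_apply, smul_eq_mul, Pi.zero_apply]
      exact hcon y) 1
    exact pow_ne_zero _ hζ0 h1
  obtain ⟨y, hy⟩ := hex
  refine ⟨∑ s : G, ζ ^ (-χ (lift s)).val * Φ s y, hy, ?_⟩
  intro σ hσ
  have hσG : res σ ∈ G := ⟨σ, hσ, rfl⟩
  rw [map_sum, Finset.mul_sum]
  apply Fintype.sum_equiv (Equiv.mulLeft (⟨res σ, hσG⟩ : G))
  intro s
  rw [Equiv.coe_mulLeft]
  have h1 : χ (lift (⟨res σ, hσG⟩ * s)) = χ σ + χ (lift s) := by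
    rw [← hχ σ hσ _ (hlift1 s)]
    apply hfac _ (hlift1 _) _ (H.mul_mem hσ (hlift1 s))
    rw [hlift2, map_mul, hlift2]
    rfl
  have h2 : -χ (lift s) = χ σ + -χ (lift (⟨res σ, hσG⟩ * s)) := by
    rw [h1]
    ring
  have h3 : Φ (⟨res σ, hσG⟩ * s) y = σ (Φ s y) := by
    rw [hΦ, hΦ, ← hres]
    rfl
  rw [map_mul, map_pow, hζH σ hσ, h3, h2, g09_pow_val_add hζℓ, mul_assoc]

end Pool.Agent.Lib.MP_89bcae_ag.Sup

end

section

/-!
# The functions attached to a cocycle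
-/

open Polynomial IsDedekindDomain

open scoped Classical

namespace Pool.Agent.Lib.MP_89bcae_ag.Wt.Lns

open Pool.Agent.Lib.MP_89bcae_ag.Sup Pool.Agent.Lib.MP_89bcae_ag.Sup.Lns

universe u

variable {ι : Type} [Fintype ι] [LinearOrder ι]
  {k F L Ω : Type u} [Field k] [Field F] [Algebra k F] [Field L] [Algebra F[X] L]
  [Field Ω] [Algebra L Ω] [IsAlgClosure k F] [IsFractionRing F[X] L] [IsAlgClosure L Ω]
  [Algebra F Ω] {ℓ : ℕ} {W : ι → ℕ} {α : ι → k[X]} {ζ : k}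

private lemma ga2_mem_rts (H : AHyp ℓ W α ζ) {θ : Ω} :
    θ ∈ (cOver k F L Ω (arr W α)).roots.toFinset ↔ ∃ i, θ = rt k F L Ω α i := by
  rw [Multiset.mem_toFinset, mem_roots arr_ne_zero, IsRoot.def]
  exact root_arr H

private lemma ga2_sum (H : AHyp ℓ W α ζ) (hG : IsGood ℓ (cOver k F L Ω (arr W α)))
    {N : Type*} [AddCommMonoid N] (φ : Ω → N) :
    ∑ θ ∈ (cOver k F L Ω (arr W α)).roots.toFinset, φ θ = ∑ i, φ (rt k F L Ω α i) := by
  have h1 : (cOver k F L Ω (arr W α)).roots.toFinset = Finset.univ.image (rt k F L Ω α) := by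
    ext θ
    rw [ga2_mem_rts H, Finset.mem_image]
    constructor
    · rintro ⟨i, rfl⟩
      exact ⟨i, Finset.mem_univ i, rfl⟩
    · rintro ⟨i, -, rfl⟩
      exact ⟨i, rfl⟩
  rw [h1, Finset.sum_image fun i _ j _ hij => rt_injective (F := F) (L := L) H Ω hij]

private lemma ga2_zpow_eq {E : Type u} [Field E] {ζ : E} (hℓ : ℓ ≠ 0) (hζ : IsPrimitiveRoot ζ ℓ)
    (a b : ℤ) : ζ ^ a = ζ ^ b ↔ (a : ZMod ℓ) = b := by
  have h0 : ζ ≠ 0 := hζ.ne_zero hℓ
  rw [ZMod.intCast_eq_intCast_iff_dvd_sub, ← hζ.zpow_eq_one_iff_dvd, zpow_sub₀ h0,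
    div_eq_one_iff_eq (zpow_ne_zero _ h0)]
  exact eq_comm

private lemma ga2_coprime {K : Type*} [Field K] {ℓ : ℕ} (hℓ : ℓ.Prime) (h : (ℓ : K) ≠ 0) :
    ℓ.Coprime (ringExpChar K) := by
  have h1 := ringExpChar.expChar K
  generalize ringExpChar K = q at h1 ⊢
  cases h1 with
  | zero => exact Nat.coprime_one_right ℓ
  | prime hp =>
    rw [Nat.coprime_primes hℓ hp]
    rintro rfl
    exact h (CharP.cast_eq_zero K _)

omit [IsAlgClosure k F] [IsFractionRing F[X] L] [IsAlgClosure L Ω] [Algebra F Ω] in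
private lemma ga2_zA (ζ : k) (σ : Ω ≃ₐ[L] Ω) : σ (zA F L Ω ζ) = zA F L Ω ζ :=
  σ.commutes _

/-- The exponents of the cocycle `v(c 1 σ)`. -/
private lemma ga2_cochain (H : AHyp ℓ W α ζ)
    [hG : IsGood ℓ (cOver k F L Ω (arr W α))] (hζ : (zA F L Ω ζ) ^ ℓ = 1)
    (hζ' : IsPrimitiveRoot (zA F L Ω ζ) ℓ)
    {c : Coch ℓ k F L Ω (arr W α)} (hc : IsTateCocycle ℓ (curveL k F L (arr W α)) c) :
    ∃ (e : (Ω ≃ₐ[L] Ω) → Ω → ℤ) (S : Finset Ω),
      (∀ σ, vJ (zA F L Ω ζ) hζ (c 1 σ) = rm (e σ)) ∧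
      (∀ σ, ∑ θ ∈ (cOver k F L Ω (arr W α)).roots.toFinset,
        (wt (cOver k F L Ω (arr W α)) θ : ZMod ℓ) * (e σ θ : ZMod ℓ) = 0) ∧
      (∀ σ τ, ∀ θ ∈ (cOver k F L Ω (arr W α)).roots.toFinset,
        (e (σ * τ) θ : ZMod ℓ) = e σ θ + e τ θ) ∧
      (∀ σ, (∀ x ∈ S, σ x = x) → ∀ θ ∈ (cOver k F L Ω (arr W α)).roots.toFinset, (e σ θ : ZMod ℓ) = 0) := by
  have h1 : ∀ σ, ∃ e : Ω → ℤ, vJ (zA F L Ω ζ) hζ (c 1 σ) = rm e ∧
      ∑ θ ∈ (cOver k F L Ω (arr W α)).roots.toFinset,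
        (wt (cOver k F L Ω (arr W α)) θ : ZMod ℓ) * (e θ : ZMod ℓ) = 0 := by
    intro σ
    apply rm14_exists H.prime hζ'
    have h2 := vJ_sub_zJ (zA F L Ω ζ) hζ' (c 1 σ)
    have h3 : ℓ • c 1 σ = 0 := by
      have h4 := hc.smul 0 σ
      rw [hc.zero σ] at h4
      exact h4
    rw [h3, sub_eq_zero] at h2
    exact h2.symm
  choose e he hs using h1
  have hc1 : c 1 1 = 0 := by
    have h2 := hc.cocycle 1 1 1
    rw [mul_one] at h2
    have h3 : push ℓ (curveL k F L (arr W α)) ((1 : Ω ≃ₐ[L] Ω) : Ω →ₐ[L] Ω) (c 1 1) = 0 := by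
      have h4 := add_left_cancel ((add_zero (c 1 1)).trans h2)
      exact h4.symm
    rw [push_eq, map_one, map_one, symJ_one] at h3
    exact h3
  have hopen : {σ : Ω ≃ₐ[L] Ω | c 1 σ = 0} ∈ nhds (1 : Ω ≃ₐ[L] Ω) := by
    apply (((hc.locallyConstant 1).isOpen_fiber 0)).mem_nhds
    exact hc1
  obtain ⟨N, hN, hNS⟩ := (krullTopology_mem_nhds_one_iff L Ω _).1 hopen
  obtain ⟨S, hS⟩ := (IntermediateField.essFiniteType_iff (K := N)).1 inferInstance
  refine ⟨e, S, he, hs, ?_, ?_⟩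
  · intro σ τ θ hθ
    have h2 : (rm (e (σ * τ)) : Jac ℓ (cOver k F L Ω (arr W α))) =
        rm (fun θ => e σ θ + e τ θ) := by
      rw [← he, hc.cocycle, vJ_add, he, push_eq, vJ_symJ, he]
      · rw [rm_add]
        congr 1
        exact symJ_rm_arr (galA k F σ) (e τ)
      · exact ga2_zA ζ σ
    have h3 := rm14_unique H.prime hζ' _ _ h2 (by
      rw [hs]
      have h4 : ∀ θ ∈ (cOver k F L Ω (arr W α)).roots.toFinset,
          (wt (cOver k F L Ω (arr W α)) θ : ZMod ℓ) * (((e σ θ + e τ θ : ℤ)) : ZMod ℓ) =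
          (wt (cOver k F L Ω (arr W α)) θ : ZMod ℓ) * (e σ θ : ZMod ℓ) +
          (wt (cOver k F L Ω (arr W α)) θ : ZMod ℓ) * e τ θ := fun θ _ => by
        rw [Int.cast_add, mul_add]
      rw [Finset.sum_congr rfl h4, Finset.sum_add_distrib, hs, hs, add_zero]) θ hθ
    rw [h3, Int.cast_add]
  · intro σ hσ θ hθ
    have h2 : c 1 σ = 0 := by
      apply hNS
      rw [SetLike.mem_coe, IntermediateField.mem_fixingSubgroup_iff]
      rw [← hS]
      intro x hx
      induction hx using IntermediateField.adjoin_induction with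
      | mem x hx => exact hσ x hx
      | algebraMap x => exact σ.commutes x
      | add x y _ _ h1 h2 => rw [map_add, h1, h2]
      | inv x _ h1 => rw [map_inv₀, h1]
      | mul x y _ _ h1 h2 => rw [map_mul, h1, h2]
    have h3 : (rm (e σ) : Jac ℓ (cOver k F L Ω (arr W α))) = rm (fun _ => 0) := by
      rw [← he, h2, (rm_eq_zero_iff (zA F L Ω ζ) hζ' _).2 ⟨0, fun _ _ => by simp⟩]
      exact (AddMonoidHom.mk' (vJ (zA F L Ω ζ) hζ) (vJ_add (zA F L Ω ζ) hζ)).map_zero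
    have h4 := rm14_unique H.prime hζ' _ _ h3 (by rw [hs]; simp) θ hθ
    rw [h4, Int.cast_zero]

/-- The Kummer generator of a character. -/
private lemma ga2_exists_z (hF : CompatF F L Ω) (H : AHyp ℓ W α ζ)
    (hζ : IsPrimitiveRoot (zA F L Ω ζ) ℓ) (χ : (Ω ≃ₐ[L] Ω) → ZMod ℓ)
    (hχ : ∀ σ τ : Ω ≃ₐ[L] Ω, χ (σ * τ) = χ σ + χ τ) (S : Finset Ω)
    (hS : ∀ σ : Ω ≃ₐ[L] Ω, (∀ x ∈ S, σ x = x) → χ σ = 0) :
    ∃ (z : Ω) (P : F[X]), z ≠ 0 ∧ P.Monic ∧ z ^ ℓ = aeval (tA F L Ω) P ∧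
      ∀ σ : Ω ≃ₐ[L] Ω, σ z = zA F L Ω ζ ^ (χ σ).val * z := by
  have hp : Fact ℓ.Prime := ⟨H.prime⟩
  have hFc : IsAlgClosed F := IsAlgClosure.isAlgClosed k
  have hN : Normal L Ω := IsAlgClosure.normal L Ω
  obtain ⟨z₀, hz₀, hz⟩ := exists_kummer_char hζ (⊤ : Subgroup (Ω ≃ₐ[L] Ω))
    (fun σ _ => ga2_zA ζ σ) χ (fun σ _ τ _ => hχ σ τ) S (fun σ _ => hS σ)
  have hz' : ∀ σ : Ω ≃ₐ[L] Ω, σ z₀ = zA F L Ω ζ ^ (χ σ).val * z₀ :=
    fun σ => hz σ (Subgroup.mem_top σ)
  obtain ⟨s, y, hy⟩ := exists_pow_mem_L (L := L) (z₀ ^ ℓ) (by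
    intro σ
    rw [map_pow, hz' σ, mul_pow, ← pow_mul, mul_comm (χ σ).val, pow_mul, hζ.pow_eq_one,
      one_pow, one_mul])
  obtain ⟨A, B, hB', hAB'⟩ := IsFractionRing.div_surjective (A := F[X]) y
  have hB : B ≠ 0 := nonZeroDivisors.ne_zero hB'
  generalize hq : ringExpChar L ^ s = q at hy
  have hAB : (z₀ ^ ℓ) ^ q = aeval (tA F L Ω) A / aeval (tA F L Ω) B := by
    rw [hy, ← hAB', map_div₀, aeval_tA hF, aeval_tA hF]
  have hLne : (ℓ : L) ≠ 0 := by
    have h1 := H.ne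
    intro h2
    apply h1
    have h3 : ((algebraMap F[X] L).comp (C.comp (algebraMap k F))) (ℓ : k) = 0 := by
      rw [map_natCast, h2]
    exact (map_eq_zero _).1 h3
  have hcop : ℓ.Coprime q := by
    rw [← hq]
    exact (ga2_coprime H.prime hLne).pow_right s
  obtain ⟨j, -, hj⟩ := Nat.exists_mul_mod_eq_one_of_coprime hcop.symm H.prime.one_lt
  have hζq : ∀ i : ℕ, (zA F L Ω ζ ^ i) ^ (q * j) = zA F L Ω ζ ^ i := by
    intro i
    have h1 := Nat.div_add_mod (q * j) ℓ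
    rw [hj] at h1
    rw [← pow_mul, mul_comm i, pow_mul]
    congr 1
    rw [← h1, pow_succ, pow_mul, hζ.pow_eq_one, one_pow, one_mul]
  have hB0 : aeval (tA F L Ω) (B ^ j) ≠ 0 := by
    rw [map_pow]
    apply pow_ne_zero
    rw [Ne, map_eq_zero_iff _ (tA_injective hF)]
    exact hB
  have hz1 : (z₀ ^ (q * j)) ^ ℓ = aeval (tA F L Ω) (A ^ j) / aeval (tA F L Ω) (B ^ j) := by
    rw [← pow_mul, mul_comm (q * j) ℓ, ← mul_assoc, pow_mul, pow_mul z₀, hAB, div_pow, map_pow,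
      map_pow]
  set P' : F[X] := A ^ j * (B ^ j) ^ (ℓ - 1) with hP'
  have hz2 : (z₀ ^ (q * j) * aeval (tA F L Ω) (B ^ j)) ^ ℓ = aeval (tA F L Ω) P' := by
    obtain ⟨n, hn⟩ := Nat.exists_eq_succ_of_ne_zero H.prime.ne_zero
    rw [mul_pow, hz1, hP', map_mul, map_pow _ (B ^ j)]
    rw [hn]
    rw [Nat.succ_sub_one, pow_succ]
    field_simp
  have hz20 : z₀ ^ (q * j) * aeval (tA F L Ω) (B ^ j) ≠ 0 :=
    mul_ne_zero (pow_ne_zero _ hz₀) hB0
  have hP0 : P' ≠ 0 := by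
    intro h1
    rw [h1, map_zero] at hz2
    exact pow_ne_zero _ hz20 hz2
  obtain ⟨d, hd⟩ := IsAlgClosed.exists_pow_nat_eq (P'.leadingCoeff⁻¹) H.prime.pos
  have hd0 : d ≠ 0 := by
    rintro rfl
    rw [zero_pow H.prime.ne_zero] at hd
    exact inv_ne_zero (leadingCoeff_ne_zero.2 hP0) hd.symm
  have hconst : ∀ (σ : Ω ≃ₐ[L] Ω) (c : F), σ (algebraMap F Ω c) = algebraMap F Ω c := by
    intro σ c
    rw [hF c]
    exact σ.commutes _
  refine ⟨z₀ ^ (q * j) * aeval (tA F L Ω) (B ^ j) * algebraMap F Ω d,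
    P' * C (P'.leadingCoeff⁻¹),
    mul_ne_zero hz20 ?_, monic_mul_leadingCoeff_inv hP0, ?_, ?_⟩
  · rwa [Ne, map_eq_zero_iff _ (algebraMap F Ω).injective]
  · rw [mul_pow, hz2, ← map_pow, hd, map_mul (aeval (tA F L Ω)) P', aeval_C]
  · intro σ
    have h1 : σ (aeval (tA F L Ω) (B ^ j)) = aeval (tA F L Ω) (B ^ j) := by
      rw [aeval_tA hF]
      exact σ.commutes _
    rw [map_mul, map_mul, map_pow, hz' σ, mul_pow, hζq, h1, hconst]
    ring

/-- The root multiplicities of the product. -/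
private lemma ga2_mult (P : ι → F[X]) (hP : ∀ i, (P i).Monic) (s : F) :
    (∏ i, P i).rootMultiplicity s = ∑ i, (P i).rootMultiplicity s := by
  have h0 : ∏ i, P i ≠ 0 := Finset.prod_ne_zero_iff.2 fun i _ => (hP i).ne_zero
  rw [← count_roots, roots_prod _ _ h0, Multiset.count_bind]
  rw [Finset.sum]
  congr 1
  refine Multiset.map_congr rfl fun i _ => ?_
  rw [count_roots]

/-- The multiplicities of the product are divisible by `ℓ`. -/
private lemma ga2_dvd (hF : CompatF F L Ω) (H : AHyp ℓ W α ζ) {P : F[X]} (hP : P.Monic)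
    (z : Ω) (hz : z ^ ℓ = aeval (tA F L Ω) P) (hfix : ∀ σ : Ω ≃ₐ[L] Ω, σ z = z) (s : F) :
    ℓ ∣ P.rootMultiplicity s := by
  have hFc : IsAlgClosed F := IsAlgClosure.isAlgClosed k
  obtain ⟨m, y, hy⟩ := exists_pow_mem_L _ hfix
  generalize hq : ringExpChar L ^ m = q at hy
  have hLne : (ℓ : L) ≠ 0 := by
    have h1 := H.ne
    intro h2
    apply h1
    have h3 : ((algebraMap F[X] L).comp (C.comp (algebraMap k F))) (ℓ : k) = 0 := by
      rw [map_natCast, h2]
    exact (map_eq_zero _).1 h3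
  have hcop : ℓ.Coprime q := by
    rw [← hq]
    exact (ga2_coprime H.prime hLne).pow_right m
  by_cases hs : s ∈ P.roots.toFinset
  · have hPt : aeval (tA F L Ω) P = ∏ β ∈ P.roots.toFinset,
        (tA F L Ω - algebraMap F Ω β) ^ P.rootMultiplicity β := by
      conv_lhs => rw [(IsAlgClosed.splits P).eq_prod_roots_of_monic hP]
      rw [prod_multiset_root_eq_finset_root, map_prod]
      refine Finset.prod_congr rfl fun β _ => ?_
      rw [map_pow, map_sub, aeval_X, aeval_C]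
    obtain ⟨p, r, hr, hpr⟩ := IsFractionRing.div_surjective (A := F[X]) y
    have hr0 : r ≠ 0 := nonZeroDivisors.ne_zero hr
    have hfin := dvd_of_prod_eq_pow (tA_injective hF) (ℓ := ℓ)
      P.roots.toFinset (fun a => ((P.rootMultiplicity a * q : ℕ) : ℤ)) 1
      one_ne_zero p r hr0 (by
        have h2 : (aeval (tA F L Ω) p / aeval (tA F L Ω) r : Ω) = z ^ q := by
          rw [hy, ← hpr, map_div₀, aeval_tA hF, aeval_tA hF]
        rw [h2, ← pow_mul, mul_comm q ℓ, pow_mul, hz, hPt, map_one, one_mul,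
          ← Finset.prod_pow]
        refine Finset.prod_congr rfl fun a _ => ?_
        rw [zpow_natCast, pow_mul])
    have h3 := hfin s hs
    rw [Int.natCast_dvd_natCast] at h3
    exact hcop.dvd_of_dvd_mul_right h3
  · rw [Multiset.mem_toFinset] at hs
    rw [← count_roots, Multiset.count_eq_zero_of_notMem hs]
    exact dvd_zero _

theorem exists_kummer_arr (hF : CompatF F L Ω) (H : AHyp ℓ W α ζ)
    [hG : IsGood ℓ (cOver k F L Ω (arr W α))] (hζ : (zA F L Ω ζ) ^ ℓ = 1)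
    {c : Coch ℓ k F L Ω (arr W α)} (hc : IsTateCocycle ℓ (curveL k F L (arr W α)) c) :
    ∃ (P : ι → F[X]) (z : ι → Ω), (∀ i, (P i).Monic) ∧
      (∀ s : F, ℓ ∣ ∑ i, W i * (P i).rootMultiplicity s) ∧
      (∀ i, z i ^ ℓ = aeval (tA F L Ω) (P i)) ∧
      ∀ (σ : Ω ≃ₐ[L] Ω) (n : Ω → ℤ), (∀ i,
        σ (z i) = zA F L Ω ζ ^ n (rt k F L Ω α i) * z i) →
          vJ (zA F L Ω ζ) hζ (c 1 σ) = rm n := by
  have hp : Fact ℓ.Prime := ⟨H.prime⟩
  have hζ' : IsPrimitiveRoot (zA F L Ω ζ) ℓ := zA_prim H.lhyp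
  have hζ0 : zA F L Ω ζ ≠ 0 := hζ'.ne_zero H.prime.ne_zero
  obtain ⟨e, S, he, hs, hcoc, hloc⟩ := ga2_cochain H hζ hζ' hc
  have hmem : ∀ i, rt k F L Ω α i ∈ (cOver k F L Ω (arr W α)).roots.toFinset :=
    fun i => (ga2_mem_rts H).2 ⟨i, rfl⟩
  have hsum : ∀ σ, ∑ i, (W i : ZMod ℓ) * (e σ (rt k F L Ω α i) : ZMod ℓ) = 0 := by
    intro σ
    have h1 := hs σ
    rw [ga2_sum H hG] at h1
    simp only [wt_rt H] at h1
    exact h1
  have hex : ∀ i, ∃ (z : Ω) (P : F[X]), z ≠ 0 ∧ P.Monic ∧ z ^ ℓ = aeval (tA F L Ω) P ∧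
      ∀ σ : Ω ≃ₐ[L] Ω, σ z = zA F L Ω ζ ^ ((e σ (rt k F L Ω α i) : ZMod ℓ)).val * z := by
    intro i
    exact ga2_exists_z hF H hζ' (fun σ => (e σ (rt k F L Ω α i) : ZMod ℓ))
      (fun σ τ => hcoc σ τ _ (hmem i)) S (fun σ hσ => hloc σ hσ _ (hmem i))
  choose z P hz0 hP hzP hzσ using hex
  refine ⟨P, z, hP, ?_, hzP, ?_⟩
  · intro s
    have hPW : ∀ i, (P i ^ W i).Monic := fun i => (hP i).pow _
    have h1 := ga2_mult (fun i => P i ^ W i) hPW s
    have h2 : ∀ i, (P i ^ W i).rootMultiplicity s = W i * (P i).rootMultiplicity s := by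
      intro i
      rw [← count_roots, roots_pow, Multiset.count_nsmul, count_roots]
    simp only [h2] at h1
    rw [← h1]
    refine ga2_dvd hF H (monic_prod_of_monic _ _ fun i _ => hPW i) (∏ i, z i ^ W i) ?_ ?_ s
    · rw [← Finset.prod_pow, map_prod]
      refine Finset.prod_congr rfl fun i _ => ?_
      rw [map_pow, ← hzP i, ← pow_mul, ← pow_mul, mul_comm]
    · intro σ
      rw [map_prod]
      have h3 : ∀ i ∈ (Finset.univ : Finset ι), σ (z i ^ W i) =
          (zA F L Ω ζ ^ (W i * ((e σ (rt k F L Ω α i) : ZMod ℓ)).val)) * z i ^ W i := by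
        intro i _
        rw [map_pow, hzσ i σ, mul_pow, ← pow_mul, mul_comm (W i)]
      rw [Finset.prod_congr rfl h3, Finset.prod_mul_distrib]
      have h1 : ∏ i, zA F L Ω ζ ^ (W i * ((e σ (rt k F L Ω α i) : ZMod ℓ)).val) = 1 := by
        rw [Finset.prod_pow_eq_pow_sum, hζ'.pow_eq_one_iff_dvd, ← ZMod.natCast_eq_zero_iff]
        push_cast
        rw [← hsum σ]
        refine Finset.sum_congr rfl fun i _ => ?_
        rw [ZMod.natCast_zmod_val]
      rw [h1, one_mul]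
  · intro σ n hn
    rw [he σ]
    apply rm_congr
    intro θ hθ
    obtain ⟨i, rfl⟩ := root_of_arr hθ
    have h1 := hn i
    rw [hzσ i σ] at h1
    have h3 := mul_right_cancel₀ (hz0 i) h1
    rw [← zpow_natCast, ga2_zpow_eq H.prime.ne_zero hζ'] at h3
    push_cast at h3
    rw [ZMod.natCast_zmod_val, ZMod.intCast_eq_intCast_iff_dvd_sub] at h3
    rw [← dvd_neg, neg_sub]
    exact h3

end Pool.Agent.Lib.MP_89bcae_ag.Wt.Lns

end

section

/-!
# The exponents of the locally trivial cocycles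
-/

open Polynomial IsDedekindDomain

open scoped Classical

namespace Pool.Agent.Lib.MP_89bcae_ag.Wt.Lns

open Pool.Agent.Lib.MP_89bcae_ag.Sup Pool.Agent.Lib.MP_89bcae_ag.Sup.Lns

universe u

set_option linter.unusedSectionVars false

variable {ι : Type} [Fintype ι] [LinearOrder ι]
  {k F L Ω : Type u} [Field k] [Field F] [Algebra k F] [Field L] [Algebra F[X] L]
  [Field Ω] [Algebra L Ω] [IsAlgClosure k F] [IsFractionRing F[X] L] [IsAlgClosure L Ω]
  [Algebra F Ω] {ℓ : ℕ} {W : ι → ℕ} {α : ι → k[X]} {ζ : k}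
  [hG : IsGood ℓ (cOver k F L Ω (arr W α))] {hζ : (zA F L Ω ζ) ^ ℓ = 1}

omit [IsAlgClosure k F] [IsAlgClosure L Ω] [Algebra F Ω] hG in
lemma map_rt {M : Type u} [Field M] [Algebra L M] (j : Ω →ₐ[L] M) (i : ι) :
    j (rt k F L Ω α i) = rt k F L M α i := j.commutes _

omit [IsAlgClosure k F] [IsAlgClosure L Ω] hG in
lemma map_TP {a : ι → F[X]} (hF : CompatF F L Ω) {M : Type u} [Field M] [Algebra L M]
    [Algebra F M] (hFM : CompatF F L M) (j : Ω →ₐ[L] M) (m : F → ℤ) :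
    j (TP a (tA F L Ω) m) = TP a (tA F L M) m := by
  unfold TP
  rw [map_prod]
  refine Finset.prod_congr rfl fun s _ => ?_
  rw [map_zpow₀, map_sub, hF, j.commutes, ← hFM]
  congr 2
  exact j.commutes _

private lemma ga4_local (hF : CompatF F L Ω) (H : AHyp ℓ W α ζ) {c : Coch ℓ k F L Ω (arr W α)}
    {P : ι → F[X]} {z : ι → Ω} (hP : ∀ i, (P i).Monic)
    {s : F} (hsum : ℓ ∣ ∑ i, W i * (P i).rootMultiplicity s)
    (hz : ∀ i, z i ^ ℓ = aeval (tA F L Ω) (P i))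
    (hn : ∀ (σ : Ω ≃ₐ[L] Ω) (n : Ω → ℤ), (∀ i,
        σ (z i) = zA F L Ω ζ ^ n (rt k F L Ω α i) * z i) →
          vJ (zA F L Ω ζ) hζ (c 1 σ) = rm n)
    {K M : Type u} [Field K] [Algebra L K] [Field M] [Algebra K M] [Algebra L M]
    [IsScalarTower L K M] [IsAlgClosure K M] [Algebra F M] (hFM : CompatF F L M)
    {v : AbsoluteValue M ℝ} (hv : LocCtx v s (tA F L M))
    (hinv : ∀ (σ : M ≃ₐ[K] M) x, v (σ x) = v x)
    (hval : ∀ x : K, x ≠ 0 → ∃ i : ℤ, v (algebraMap K M x) = v (tA F L M - algebraMap F M s) ^ i)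
    (j : Ω →ₐ[L] M) (Q₁ : JacOver ℓ (curveL k F L (arr W α)) M)
    (hQ₁ : ∀ (σ : M ≃ₐ[K] M) (σ' : Ω ≃ₐ[L] Ω), (∀ x, j (σ' x) = σ (j x)) →
      push ℓ (curveL k F L (arr W α)) j (c 1 σ') =
        push ℓ (curveL k F L (arr W α)) (σ.restrictScalars L : M →ₐ[L] M) Q₁ - Q₁) (r : F) :
    (ℓ : ℤ) ∣ ∑ i ∈ Finset.univ.filter (fun i => (aF F α i).eval s = r),
      (W i : ℤ) * ((P i).rootMultiplicity s : ℤ) := by
  have hMc : IsAlgClosed M := IsAlgClosure.isAlgClosed K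
  have hGM : IsGood ℓ (cOver k F L M (arr W α)) := isGood_arr H M
  have hfl : cOver k F L M (arr W α) = lineW W (aF F α) (tA F L M) := cOver_arr hFM
  have hFK : ∀ c : F, ∃ x : K, algebraMap K M x = algebraMap F M c := by
    intro c
    refine ⟨algebraMap L K (algebraMap F[X] L (C c)), ?_⟩
    rw [hFM, ← IsScalarTower.algebraMap_apply L K M]
  have htK : ∃ x : K, algebraMap K M x = tA F L M := by
    refine ⟨algebraMap L K (algebraMap F[X] L X), ?_⟩
    unfold tA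
    rw [← IsScalarTower.algebraMap_apply L K M]
  have hf : ((curveL k F L (arr W α)).map (algebraMap L K)).map (algebraMap K M) =
      cOver k F L M (arr W α) := by
    rw [Polynomial.map_map, ← IsScalarTower.algebraMap_eq L K M]
  have hΓ := LocCtx.locGrp hv hf hinv hval hFK htK
  have hℓK : (ℓ : K) ≠ 0 := by
    have h1 := natCast_L_ne F H (L := L)
    intro h0
    apply h1
    apply (algebraMap L K).injective
    rw [map_natCast, h0, map_zero]
  have hp : (ringExpChar K).Coprime ℓ := G13_coprime H.prime hℓK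
  have hζF : IsPrimitiveRoot (algebraMap k F ζ) ℓ :=
    H.zeta.map_of_injective (algebraMap k F).injective
  have hζM : IsPrimitiveRoot (algebraMap F M (algebraMap k F ζ)) ℓ :=
    hζF.map_of_injective (algebraMap F M).injective
  have hjζ : j (zA F L Ω ζ) = algebraMap F M (algebraMap k F ζ) := by
    rw [G13_map_zA, G13_zA hFM]
  have hjζ' : (j : Ω →+* M) (zA F L Ω ζ) ^ ℓ = 1 := by
    rw [← map_pow, hζ, map_one]
  have hinvj : ∀ x, Function.invFun j (j x) = x :=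
    Function.leftInverse_invFun (j : Ω →+* M).injective
  -- the factorisation at `s`
  have hfac : ∀ i, ∃ R : F[X], P i = (X - C s) ^ (P i).rootMultiplicity s * R ∧ R.eval s ≠ 0 := by
    intro i
    obtain ⟨R, hR, hR'⟩ := exists_eq_pow_rootMultiplicity_mul_and_not_dvd (P i) (hP i).ne_zero s
    refine ⟨R, hR, ?_⟩
    rw [dvd_iff_isRoot] at hR'
    exact hR'
  choose R hR hR0 using hfac
  have hroot : ∀ i, aeval (tA F L M) (aF F α i) = j (rt k F L Ω α i) := by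
    intro i
    rw [map_rt, rt_eq hFM]
  refine place_sum (ζ := algebraMap k F ζ) H.prime H.cop H.geomF hv hp hfl hζF hζM hΓ
    (vJ ((j : Ω →+* M) (zA F L Ω ζ)) hjζ' Q₁) (fun i => j (z i))
    (fun i => aeval (tA F L M) (R i)) (fun i => ((P i).rootMultiplicity s : ℤ)) ?_ ?_ ?_ ?_ ?_ r
  · intro i
    rw [← map_pow, hz i, G13_map_aeval hF hFM]
    have h1 : j (tA F L Ω) = tA F L M := j.commutes _
    rw [h1]
    conv_lhs => rw [hR i]
    rw [map_mul, map_pow, map_sub, aeval_X, aeval_C, zpow_natCast]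
  · intro i
    exact hv.v_eq_one (hv.residue_eval hv.lt_one (R i)) (hR0 i)
  · rintro _ ⟨τ, rfl⟩ i
    rw [galSym_apply]
    obtain ⟨x, hx⟩ : ∃ x : K, algebraMap K M x = aeval (tA F L M) (R i) := by
      refine ⟨algebraMap L K (algebraMap F[X] L (R i)), ?_⟩
      rw [aeval_tA hFM, ← IsScalarTower.algebraMap_apply L K M]
    rw [← hx, τ.commutes]
  · rintro _ ⟨τ, rfl⟩ n hnτ
    obtain ⟨τ', hτ'⟩ := exists_restrict j (τ.restrictScalars L)
    have hτ'' : ∀ x, j (τ' x) = τ (j x) := hτ'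
    -- the exponents over `Ω`
    have h1 : ∀ i, τ' (z i) = zA F L Ω ζ ^ (n ∘ j) (rt k F L Ω α i) * z i := by
      intro i
      apply (j : Ω →+* M).injective
      have h2 := hnτ i
      rw [galSym_apply, hroot i] at h2
      change j (τ' (z i)) = j (zA F L Ω ζ ^ (n ∘ j) (rt k F L Ω α i) * z i)
      rw [hτ'', h2, map_mul, map_zpow₀, hjζ]
      rfl
    have h2 := hQ₁ τ τ' hτ''
    have h3 : push ℓ (curveL k F L (arr W α)) (τ.restrictScalars L : M →ₐ[L] M) Q₁ =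
        symJ (galSym hf τ) Q₁ := by
      unfold push symJ
      apply G13_jacMap_congr
      ext x
      rfl
    rw [h3] at h2
    have h4 : ((galSym hf τ : Sym (cOver k F L M (arr W α))) : M ≃+* M)
        ((j : Ω →+* M) (zA F L Ω ζ)) = (j : Ω →+* M) (zA F L Ω ζ) := by
      rw [galSym_apply]
      have h4 : (j : Ω →+* M) (zA F L Ω ζ) = zA F L M ζ := G13_map_zA j ζ
      rw [h4]
      have h5 : zA F L M ζ = algebraMap K M (algebraMap L K (base k F L L (C ζ))) := by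
        rw [← IsScalarTower.algebraMap_apply L K M]
        rfl
      rw [h5, τ.commutes]
    rw [← vJ_symJ _ hjζ' _ h4, ← vJ_sub, ← h2]
    have h6 : vJ ((j : Ω →+* M) (zA F L Ω ζ)) hjζ' (push ℓ (curveL k F L (arr W α)) j (c 1 τ')) =
        push ℓ (curveL k F L (arr W α)) j (vJ (zA F L Ω ζ) hζ (c 1 τ')) := by
      unfold push
      exact vJ_jacMap _ _ _ hζ hjζ' _
    rw [h6, hn τ' _ h1]
    unfold push
    apply jacMap_rm
    intro θ _
    rfl
  · exact_mod_cast hsum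

private lemma ga4_place (hF : CompatF F L Ω) (H : AHyp ℓ W α ζ) {c : Coch ℓ k F L Ω (arr W α)}
    (hLT : LTc c) {P : ι → F[X]} {z : ι → Ω} (hP : ∀ i, (P i).Monic)
    {s : F} (hsum : ℓ ∣ ∑ i, W i * (P i).rootMultiplicity s)
    (hz : ∀ i, z i ^ ℓ = aeval (tA F L Ω) (P i))
    (hn : ∀ (σ : Ω ≃ₐ[L] Ω) (n : Ω → ℤ), (∀ i,
        σ (z i) = zA F L Ω ζ ^ n (rt k F L Ω α i) * z i) →
          vJ (zA F L Ω ζ) hζ (c 1 σ) = rm n) (r : F) :
    (ℓ : ℤ) ∣ ∑ i ∈ Finset.univ.filter (fun i => (aF F α i).eval s = r),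
      (W i : ℤ) * ((P i).rootMultiplicity s : ℤ) := by
  have hFc : IsAlgClosed F := IsAlgClosure.isAlgClosed k
  let _ : Algebra F (AlgebraicClosure ((plc s).adicCompletion L)) :=
    ((algebraMap L (AlgebraicClosure ((plc s).adicCompletion L))).comp
      ((algebraMap F[X] L).comp C)).toAlgebra
  have hFM : CompatF F L (AlgebraicClosure ((plc s).adicCompletion L)) := fun c => rfl
  have hFK : ∀ c : F, algebraMap F (AlgebraicClosure ((plc s).adicCompletion L)) c =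
      algebraMap ((plc s).adicCompletion L) (AlgebraicClosure ((plc s).adicCompletion L))
        (algebraMap F[X] ((plc s).adicCompletion L) (C c)) := by
    intro c
    rw [hFM, IsScalarTower.algebraMap_apply L ((plc s).adicCompletion L)
      (AlgebraicClosure ((plc s).adicCompletion L)),
      ← IsScalarTower.algebraMap_apply F[X] L ((plc s).adicCompletion L)]
  have htK : algebraMap ((plc s).adicCompletion L) (AlgebraicClosure ((plc s).adicCompletion L))
        (algebraMap F[X] ((plc s).adicCompletion L) X) =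
      tA F L (AlgebraicClosure ((plc s).adicCompletion L)) := by
    unfold tA
    rw [IsScalarTower.algebraMap_apply L ((plc s).adicCompletion L)
      (AlgebraicClosure ((plc s).adicCompletion L)),
      ← IsScalarTower.algebraMap_apply F[X] L ((plc s).adicCompletion L)]
  obtain ⟨v, hv, hval, hinv, -⟩ := exists_locCtx (L := L)
    (M := AlgebraicClosure ((plc s).adicCompletion L)) s hFK
  rw [htK] at hv
  simp only [htK] at hval
  obtain ⟨j⟩ : Nonempty (Ω →ₐ[L] AlgebraicClosure ((plc s).adicCompletion L)) := by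
    have : Algebra.IsAlgebraic L Ω := IsAlgClosure.isAlgebraic
    exact ⟨IsAlgClosed.lift⟩
  obtain ⟨Q₁, hQ₁⟩ := hLT s 1 (AlgebraicClosure ((plc s).adicCompletion L)) j
  exact ga4_local hF H hP hsum hz hn hFM hv hinv hval j Q₁ hQ₁ r

theorem exists_hasExp (hF : CompatF F L Ω) (H : AHyp ℓ W α ζ) {c : Coch ℓ k F L Ω (arr W α)}
    (hc : IsTateCocycle ℓ (curveL k F L (arr W α)) c) (hLT : LTc c) :
    ∃ e : ι → F → ℤ, HasExp hζ c e := by
  have hFc : IsAlgClosed F := IsAlgClosure.isAlgClosed k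
  obtain ⟨P, z, hP, hsum, hz, hn⟩ := exists_kummer_arr hF H hζ hc
  have hnode : ∀ s r : F, (ℓ : ℤ) ∣ ∑ i ∈ Finset.univ.filter (fun i => (aF F α i).eval s = r),
      (W i : ℤ) * ((P i).rootMultiplicity s : ℤ) := fun s r => ga4_place hF H hLT hP (hsum s) hz hn r
  have hdvd : ∀ s : F, s ∉ SS (aF F α) → ∀ i, ℓ ∣ (P i).rootMultiplicity s := by
    intro s hs i
    have h1 := hnode s ((aF F α i).eval s)
    have h2 : Finset.univ.filter (fun j => (aF F α j).eval s = (aF F α i).eval s) = {i} := by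
      ext j
      rw [Finset.mem_filter, Finset.mem_singleton]
      constructor
      · rintro ⟨-, hj⟩
        by_contra hne
        exact hs (mem_SS_of_eq H.geomF hne hj)
      · rintro rfl
        exact ⟨Finset.mem_univ _, rfl⟩
    rw [h2, Finset.sum_singleton] at h1
    exact_mod_cast (H.copZ i).dvd_of_dvd_mul_left h1
  have key : ∀ i, ∃ W : F[X], W ≠ 0 ∧ P i = W ^ ℓ *
      ∏ s ∈ SS (aF F α), (X - C s) ^ (P i).rootMultiplicity s := by
    intro i
    refine ⟨∏ s ∈ (P i).roots.toFinset \ SS (aF F α),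
      (X - C s) ^ ((P i).rootMultiplicity s / ℓ),
      (monic_prod_of_monic _ _ fun s _ => (monic_X_sub_C s).pow _).ne_zero, ?_⟩
    have h1 : P i = ∏ s ∈ (P i).roots.toFinset, (X - C s) ^ (P i).rootMultiplicity s := by
      have h2 : P i = ((P i).roots.map fun a => X - C a).prod :=
        (IsAlgClosed.splits (P i)).eq_prod_roots_of_monic (hP i)
      conv_lhs => rw [h2]
      rw [Finset.prod_multiset_map_count]
      refine Finset.prod_congr rfl fun s _ => ?_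
      rw [count_roots]
    have h3 : (∏ s ∈ (P i).roots.toFinset \ SS (aF F α),
        (X - C s) ^ ((P i).rootMultiplicity s / ℓ)) ^ ℓ =
        ∏ s ∈ (P i).roots.toFinset \ SS (aF F α), (X - C s) ^ (P i).rootMultiplicity s := by
      rw [← Finset.prod_pow]
      refine Finset.prod_congr rfl fun s hs => ?_
      rw [← pow_mul, Nat.div_mul_cancel (hdvd s (Finset.mem_sdiff.mp hs).2 i)]
    have h4 : ∏ s ∈ SS (aF F α), (X - C s) ^ (P i).rootMultiplicity s =
        ∏ s ∈ (P i).roots.toFinset ∩ SS (aF F α), (X - C s) ^ (P i).rootMultiplicity s := by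
      symm
      refine Finset.prod_subset Finset.inter_subset_right fun s hs hn' => ?_
      have h5 : s ∉ (P i).roots.toFinset := fun h => hn' (Finset.mem_inter.mpr ⟨h, hs⟩)
      have h6 : (P i).rootMultiplicity s = 0 := by
        rw [← count_roots]
        rw [Multiset.mem_toFinset] at h5
        exact Multiset.count_eq_zero_of_notMem h5
      rw [h6, pow_zero]
    rw [h3, h4]
    conv_lhs => rw [h1]
    rw [mul_comm]
    exact (Finset.prod_inter_mul_prod_sdiff _ _ _).symm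
  choose W hW0 hPW using key
  have hWt : ∀ i, aeval (tA F L Ω) (W i) ≠ 0 := by
    intro i h0
    apply hW0 i
    apply tA_inj (A := Ω) hF
    rw [h0, map_zero]
  refine ⟨fun i s => ((P i).rootMultiplicity s : ℤ), fun s _ r => hnode s r,
    fun i => z i / aeval (tA F L Ω) (W i), ?_, ?_⟩
  · intro i
    rw [div_pow, hz i]
    conv_lhs => rw [hPW i]
    rw [map_mul, map_pow, mul_div_cancel_left₀ _ (pow_ne_zero _ (hWt i)), map_prod]
    unfold TP
    refine Finset.prod_congr rfl fun s _ => ?_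
    rw [map_pow, map_sub, aeval_X, aeval_C, zpow_natCast]
  · intro σ n hσ
    refine hn σ n fun i => ?_
    have h1 := hσ i
    have h2 : σ (aeval (tA F L Ω) (W i)) = aeval (tA F L Ω) (W i) := by
      rw [aeval_tA hF]
      exact σ.commutes _
    have h4 := hWt i
    rw [map_div₀, h2, div_eq_iff h4] at h1
    rw [h1]
    field_simp

end Pool.Agent.Lib.MP_89bcae_ag.Wt.Lns

end
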