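import Mathlib

section

/-!
# Integral vectors which avoid a positive proportion of the residue classes modulo infinitely many
primes have density zero
-/

open Filter Topology

open scoped Classical

namespace Pool.Agent.Lib.MP_89bcae_ag

set_option linter.style.haveILetI false

/-- The number of integers in a residue class in an interval. -/
lemma card_class7 {N : ℕ} (hN : 0 < N) (H : ℕ) (v : ZMod N) :
    (((Finset.Icc (-(H : ℤ)) H).filter fun x : ℤ => (x : ZMod N) = v).card : ℝ) ≤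
      (2 * H + 1) / N + 1 := by
  haveI : NeZero N := ⟨hN.ne'⟩
  have h1 : (Finset.Icc (-(H : ℤ)) H).filter (fun x : ℤ => (x : ZMod N) = v) =
      (Finset.Ico (-(H : ℤ)) (H + 1)).filter (fun x : ℤ => x ≡ (v.val : ℤ) [ZMOD (N : ℤ)]) := by
    ext x
    rw [Finset.mem_filter, Finset.mem_filter, Finset.mem_Icc, Finset.mem_Ico,
      ← ZMod.intCast_eq_intCast_iff, Int.lt_add_one_iff]
    simp
  rw [h1]
  have h2 := Int.Ico_filter_modEq_card (-(H : ℤ)) (H + 1) (r := (N : ℤ)) (by exact_mod_cast hN)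
    (v.val : ℤ)
  have h3 : (((Finset.Ico (-(H : ℤ)) (H + 1)).filter
      (fun x : ℤ => x ≡ (v.val : ℤ) [ZMOD (N : ℤ)])).card : ℤ) ≤ ⌊((2 * H + 1 : ℚ) / N + 1)⌋ := by
    rw [h2]
    apply max_le
    · rw [Int.le_floor]
      push_cast
      have h4 := Int.ceil_lt_add_one (((H : ℚ) + 1 - v.val) / N)
      have h5 := Int.le_ceil ((-(H : ℚ) - v.val) / N)
      have h6 : (2 * (H : ℚ) + 1) / N = ((H : ℚ) + 1 - v.val) / N - (-(H : ℚ) - v.val) / N := by
        ring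
      rw [h6]
      linarith
    · apply Int.floor_nonneg.mpr
      positivity
  have h4 : ((((Finset.Ico (-(H : ℤ)) (H + 1)).filter
      (fun x : ℤ => x ≡ (v.val : ℤ) [ZMOD (N : ℤ)])).card : ℤ) : ℚ) ≤ (2 * H + 1 : ℚ) / N + 1 :=
    (Int.cast_le.mpr h3).trans (Int.floor_le _)
  have h5 : ((((((Finset.Ico (-(H : ℤ)) (H + 1)).filter
      (fun x : ℤ => x ≡ (v.val : ℤ) [ZMOD (N : ℤ)])).card : ℤ) : ℚ)) : ℝ) ≤
      (((2 * H + 1 : ℚ) / N + 1 : ℚ) : ℝ) := by exact_mod_cast h4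
  push_cast at h5
  exact h5

/-- The number of integral vectors in a box whose reduction lies in a given set. -/
lemma card_box7 {N : ℕ} (hN : 0 < N) (m H : ℕ) (A : Finset (Fin m → ZMod N)) :
    (({a : Fin m → ℤ | (∀ i, |a i| ≤ H) ∧ (fun i => (a i : ZMod N)) ∈ A}.ncard : ℝ)) ≤
      A.card * ((2 * H + 1) / N + 1) ^ m := by
  have h1 : {a : Fin m → ℤ | (∀ i, |a i| ≤ H) ∧ (fun i => (a i : ZMod N)) ∈ A} ⊆
      (A.biUnion fun v => Fintype.piFinset fun i =>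
        (Finset.Icc (-(H : ℤ)) H).filter fun x : ℤ => (x : ZMod N) = v i : Finset (Fin m → ℤ)) := by
    rintro a ⟨h2, h3⟩
    rw [Finset.coe_biUnion, Set.mem_iUnion₂]
    refine ⟨_, h3, ?_⟩
    rw [Finset.mem_coe, Fintype.mem_piFinset]
    intro i
    rw [Finset.mem_filter, Finset.mem_Icc]
    exact ⟨abs_le.mp (h2 i), rfl⟩
  have h2 := Set.ncard_le_ncard h1 (Finset.finite_toSet _)
  rw [Set.ncard_coe_finset] at h2
  have h3 : ((A.biUnion fun v => Fintype.piFinset fun i =>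
        (Finset.Icc (-(H : ℤ)) H).filter fun x : ℤ => (x : ZMod N) = v i).card : ℝ) ≤
      ∑ v ∈ A, ((Fintype.piFinset fun i =>
        (Finset.Icc (-(H : ℤ)) H).filter fun x : ℤ => (x : ZMod N) = v i).card : ℝ) := by
    exact_mod_cast Finset.card_biUnion_le
  refine (by exact_mod_cast h2 : _ ≤ _).trans (h3.trans ?_)
  rw [← nsmul_eq_mul]
  apply Finset.sum_le_card_nsmul
  intro v _
  rw [Fintype.card_piFinset]
  push_cast
  calc ∏ i, (((Finset.Icc (-(H : ℤ)) H).filter fun x : ℤ => (x : ZMod N) = v i).card : ℝ)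
      ≤ ∏ _i : Fin m, ((2 * (H : ℝ) + 1) / N + 1) :=
        Finset.prod_le_prod (fun _ _ => by positivity) (fun i _ => card_class7 hN H (v i))
    _ = _ := by rw [Finset.prod_const, Finset.card_univ, Fintype.card_fin]

/-- The number of the residue classes which avoid given sets modulo several primes. -/
lemma card_avoid7 (m : ℕ) (D : ∀ p : ℕ, Set (Fin m → ZMod p)) (c : ℝ) (S : Finset ℕ)
    (hprime : ∀ p ∈ S, p.Prime) (hc : c ≤ 1)
    (hD : ∀ p ∈ S, c * (p : ℝ) ^ m ≤ (D p).ncard) {N : ℕ} (hN : N = ∏ p ∈ S, p) :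
    ∃ (A : Finset (Fin m → ZMod N)),
      (A.card : ℝ) ≤ (1 - c) ^ S.card * (N : ℝ) ^ m ∧
      ∀ a : Fin m → ℤ, (∀ p ∈ S, (fun i => (a i : ZMod p)) ∉ D p) →
        (fun i => (a i : ZMod N)) ∈ A := by
  haveI : ∀ p : S, NeZero (p : ℕ) := fun p => ⟨(hprime p p.2).ne_zero⟩
  haveI : NeZero N := ⟨by
    rw [hN]
    exact Finset.prod_ne_zero_iff.mpr fun p hp => (hprime p hp).ne_zero⟩
  have hdvd : ∀ p : S, (p : ℕ) ∣ N := fun p => by
    rw [hN]
    exact Finset.dvd_prod_of_mem _ p.2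
  let ψ : (Fin m → ZMod N) → ∀ p : S, (Fin m → ZMod p) :=
    fun v p i => ZMod.castHom (hdvd p) (ZMod p) (v i)
  have hψ : Function.Injective ψ := by
    intro v w h
    funext i
    have h1 : ∀ p : S, ZMod.castHom (hdvd p) (ZMod p) (v i - w i) = 0 := by
      intro p
      rw [map_sub, sub_eq_zero]
      exact congrFun (congrFun h p) i
    have h2 : ∀ p ∈ S, p ∣ (v i - w i).val := by
      intro p hp
      have h3 := h1 ⟨p, hp⟩
      rw [ZMod.castHom_apply, ZMod.cast_eq_val, ZMod.natCast_eq_zero_iff] at h3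
      exact h3
    have h3 : N ∣ (v i - w i).val := by
      have h5 := Finset.prod_primes_dvd _ (fun p hp => (hprime p hp).prime) h2
      rwa [← hN] at h5
    have h4 : (v i - w i).val = 0 := Nat.eq_zero_of_dvd_of_lt h3 (ZMod.val_lt _)
    rw [ZMod.val_eq_zero] at h4
    exact sub_eq_zero.mp h4
  refine ⟨Finset.univ.filter fun v => ∀ p : S, ψ v p ∉ D p, ?_, ?_⟩
  · have h1 : ((Finset.univ.filter fun v => ∀ p : S, ψ v p ∉ D p).card : ℝ) ≤
        ((Fintype.piFinset fun p : S => Finset.univ.filter fun w : Fin m → ZMod p => w ∉ D p).card : ℝ) := by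
      rw [Nat.cast_le, ← Finset.card_image_of_injective _ hψ]
      apply Finset.card_le_card
      intro x hx
      obtain ⟨v, hv, rfl⟩ := Finset.mem_image.mp hx
      rw [Finset.mem_filter] at hv
      rw [Fintype.mem_piFinset]
      intro p
      rw [Finset.mem_filter]
      exact ⟨Finset.mem_univ _, hv.2 p⟩
    refine h1.trans ?_
    rw [Fintype.card_piFinset]
    push_cast
    have h2 : ∀ p : S, ((Finset.univ.filter fun w : Fin m → ZMod p => w ∉ D p).card : ℝ) ≤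
        (1 - c) * ((p : ℕ) : ℝ) ^ m := by
      intro p
      have h3 := hD p p.2
      have h4 : (D p).ncard = (Finset.univ.filter fun w : Fin m → ZMod p => w ∈ D p).card := by
        rw [← Set.ncard_coe_finset]
        congr 1
        ext w
        simp
      have h5 := Finset.card_filter_add_card_filter_not (s := (Finset.univ : Finset (Fin m → ZMod p)))
        (fun w => w ∈ D p)
      rw [Finset.card_univ, Fintype.card_fun, ZMod.card, Fintype.card_fin] at h5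
      have h6 : (((Finset.univ.filter fun w : Fin m → ZMod p => w ∈ D p).card : ℝ)) +
          ((Finset.univ.filter fun w : Fin m → ZMod p => w ∉ D p).card : ℝ) =
          ((p : ℕ) : ℝ) ^ m := by exact_mod_cast h5
      rw [h4] at h3
      linarith
    calc ∏ p : S, ((Finset.univ.filter fun w : Fin m → ZMod p => w ∉ D p).card : ℝ)
        ≤ ∏ p : S, ((1 - c) * ((p : ℕ) : ℝ) ^ m) :=
          Finset.prod_le_prod (fun _ _ => by positivity) (fun p _ => h2 p)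
      _ = (1 - c) ^ S.card * ∏ p : S, ((p : ℕ) : ℝ) ^ m := by
          rw [Finset.prod_mul_distrib, Finset.prod_const, Finset.card_univ, Fintype.card_coe]
      _ = _ := by
          congr 1
          rw [hN, Finset.prod_pow, Finset.prod_coe_sort S (fun p => (p : ℝ))]
          push_cast
          rfl
  · intro a ha
    rw [Finset.mem_filter]
    refine ⟨Finset.mem_univ _, fun p => ?_⟩
    have h1 : ψ (fun i => (a i : ZMod N)) p = fun i => (a i : ZMod p) := by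
      funext i
      exact map_intCast _ _
    rw [h1]
    exact ha p p.2

/-- **Density zero.** -/
theorem density_crt7 (m : ℕ) (D : ∀ p : ℕ, Set (Fin m → ZMod p)) (c : ℝ) (hc : 0 < c)
    (P : Set ℕ) (hP : P.Infinite) (hprime : ∀ p ∈ P, p.Prime)
    (hD : ∀ p ∈ P, c * (p : ℝ) ^ m ≤ (D p).ncard) (Good : (Fin m → ℤ) → Prop)
    (hGood : ∀ a, ∀ p ∈ P, (fun i => (a i : ZMod p)) ∈ D p → Good a) :
    Tendsto (fun H : ℕ => ({a : Fin m → ℤ | (∀ i, |a i| ≤ H) ∧ ¬ Good a}.ncard : ℝ) /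
      (2 * H + 1) ^ m) atTop (𝓝 0) := by
  have hc1 : c ≤ 1 := by
    obtain ⟨p, hp⟩ := hP.nonempty
    haveI : NeZero p := ⟨(hprime p hp).ne_zero⟩
    have h1 := hD p hp
    have h2 : ((D p).ncard : ℝ) ≤ (p : ℝ) ^ m := by
      have h3 : (D p).ncard ≤ (Set.univ : Set (Fin m → ZMod p)).ncard :=
        Set.ncard_le_ncard (Set.subset_univ _)
      rw [Set.ncard_univ, Nat.card_eq_fintype_card, Fintype.card_fun, ZMod.card,
        Fintype.card_fin] at h3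
      exact_mod_cast h3
    have h4 : (0 : ℝ) < (p : ℝ) ^ m := by
      have : (0 : ℝ) < p := by exact_mod_cast (hprime p hp).pos
      positivity
    nlinarith
  rw [Metric.tendsto_atTop]
  intro ε hε
  obtain ⟨t, ht⟩ := exists_pow_lt_of_lt_one hε (show (1 - c) < 1 by linarith)
  obtain ⟨S, hSP, hSc⟩ := hP.exists_subset_card_eq t
  obtain ⟨N, hN⟩ : ∃ N, N = ∏ p ∈ S, p := ⟨_, rfl⟩
  obtain ⟨A, hA1, hA2⟩ := card_avoid7 m D c S (fun p hp => hprime p (hSP hp)) hc1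
    (fun p hp => hD p (hSP hp)) hN
  have hN0 : 0 < N := by
    rw [hN]
    exact Finset.prod_pos fun p hp => (hprime p (hSP hp)).pos
  have hNR : (0 : ℝ) < N := by exact_mod_cast hN0
  have hlim : Tendsto (fun H : ℕ => (1 - c) ^ t * (1 + N / (2 * (H : ℝ) + 1)) ^ m) atTop
      (𝓝 ((1 - c) ^ t * (1 + 0) ^ m)) := by
    apply Tendsto.const_mul
    apply Tendsto.pow
    apply Tendsto.const_add
    apply Tendsto.div_atTop tendsto_const_nhds
    exact tendsto_atTop_add_const_right _ _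
      (Tendsto.const_mul_atTop (by norm_num) tendsto_natCast_atTop_atTop)
  rw [add_zero, one_pow, mul_one] at hlim
  obtain ⟨H0, hH0⟩ := (hlim.eventually_lt_const ht).exists_forall_of_atTop
  refine ⟨H0, fun H hH => ?_⟩
  have hpos : (0 : ℝ) < (2 * (H : ℝ) + 1) ^ m := by positivity
  rw [Real.dist_eq, sub_zero, abs_of_nonneg (by positivity), div_lt_iff₀ hpos]
  have h1 : {a : Fin m → ℤ | (∀ i, |a i| ≤ H) ∧ ¬ Good a} ⊆
      {a : Fin m → ℤ | (∀ i, |a i| ≤ H) ∧ (fun i => (a i : ZMod N)) ∈ A} := by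
    rintro a ⟨h2, h3⟩
    refine ⟨h2, hA2 a fun p hp hap => h3 (hGood a p (hSP hp) hap)⟩
  have hfin : {a : Fin m → ℤ | (∀ i, |a i| ≤ H) ∧ (fun i => (a i : ZMod N)) ∈ A}.Finite := by
    apply Set.Finite.subset (Finset.finite_toSet
      (Fintype.piFinset fun _ : Fin m => Finset.Icc (-(H : ℤ)) H))
    rintro a ⟨h2, -⟩
    rw [Finset.mem_coe, Fintype.mem_piFinset]
    intro i
    rw [Finset.mem_Icc]
    exact abs_le.mp (h2 i)
  have h2 : (({a : Fin m → ℤ | (∀ i, |a i| ≤ H) ∧ ¬ Good a}.ncard : ℝ)) ≤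
      A.card * ((2 * H + 1) / N + 1) ^ m :=
    (by exact_mod_cast Set.ncard_le_ncard h1 hfin : _ ≤ _).trans (card_box7 hN0 m H A)
  refine lt_of_le_of_lt h2 ?_
  have h3 : (A.card : ℝ) * ((2 * H + 1) / N + 1) ^ m ≤
      ((1 - c) ^ t * (1 + N / (2 * (H : ℝ) + 1)) ^ m) * (2 * (H : ℝ) + 1) ^ m := by
    have h4 : (0 : ℝ) ≤ ((2 * H + 1) / N + 1) ^ m := by positivity
    refine (mul_le_mul_of_nonneg_right hA1 h4).trans ?_
    rw [hSc, mul_assoc, mul_assoc, ← mul_pow, ← mul_pow]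
    have h5 : (N : ℝ) * ((2 * H + 1) / N + 1) = (1 + N / (2 * (H : ℝ) + 1)) * (2 * H + 1) := by
      field_simp
    rw [h5]
  exact lt_of_le_of_lt h3 (mul_lt_mul_of_pos_right (hH0 H hH) hpos)

end Pool.Agent.Lib.MP_89bcae_ag

end

section

/-!
# Operators on cochains over `ZMod ℓ` given by weights and symbols

`w` are the weights, `c` the symbols: `c {i, j, l}` is the symbol of the triple `i, j, l`, `c {i, j}` that
of the triple of `i`, `j` and the point at infinity.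
-/

namespace Pool.Agent.Lib.MP_89bcae_ag.Lr

variable {ι : Type} {ℓ : ℕ}

/-- The operator `κ ↦ (∑ w_l (h_il - g_i) (κ_i - κ_l))_i` on the functions on `S` modulo constants has no
eigenvector. -/
def GoodR (w : ι → ZMod ℓ) (h : ι → ι → ZMod ℓ) (g : ι → ZMod ℓ) (S : Finset ι) : Prop :=
  ∀ (κ : ι → ZMod ℓ) (z μ : ZMod ℓ),
    (∀ i ∈ S, ∑ l ∈ S, w l * (h i l - g i) * (κ i - κ l) = z * κ i + μ) →
      ∀ i ∈ S, ∀ j ∈ S, κ i = κ j

/-- The operator `ε ↦ (∑ w_l (c_ijl - c_ij) (ε_ij + ε_jl + ε_li))_ij` on the antisymmetric functions of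
pairs of elements of `S` modulo gradients has no eigenvector. -/
def GoodT [DecidableEq ι] (w : ι → ZMod ℓ) (c : Finset ι → ZMod ℓ) (S : Finset ι) : Prop :=
  ∀ (ε : ι → ι → ZMod ℓ) (f : ι → ZMod ℓ) (z : ZMod ℓ),
    (∀ i ∈ S, ∀ j ∈ S, i ≠ j → ε j i = -ε i j) →
    (∀ i ∈ S, ∀ j ∈ S, i ≠ j → ∑ l ∈ S, w l * (c {i, j, l} - c {i, j}) * (ε i j + ε j l + ε l i) =
      z * ε i j + (f i - f j)) →
    ∃ b : ι → ZMod ℓ, ∀ i ∈ S, ∀ j ∈ S, i ≠ j → ε i j = b i - b j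

/-- The operator `K` of the pencils. -/
def Kop (w : ι → ZMod ℓ) (h : ι → ι → ZMod ℓ) (P Q : ι → ZMod ℓ) (ω : ZMod ℓ) (S : Finset ι)
    (x : ι → ZMod ℓ) (i : ι) : ZMod ℓ :=
  ∑ l ∈ S, w l * (h i l - P i) * (x i - x l) + ω * (Q i - P i) * x i + ∑ l ∈ S, w l * Q l * x l

/-- The operator `K - y (1 ⊗ w)` has no eigenvector. -/
def GoodK (w : ι → ZMod ℓ) (h : ι → ι → ZMod ℓ) (P Q : ι → ZMod ℓ) (ω y : ZMod ℓ)
    (S : Finset ι) : Prop :=
  ∀ (x : ι → ZMod ℓ) (z : ZMod ℓ),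
    (∀ i ∈ S, Kop w h P Q ω S x i - y * ∑ l ∈ S, w l * x l = z * x i) → ∀ i ∈ S, x i = 0

end Pool.Agent.Lib.MP_89bcae_ag.Lr

end

section

namespace Pool.Agent.Lib.MP_89bcae_ag.Lr

variable {ι : Type} {ℓ : ℕ}

/-- The sum of `Kop` against a function. -/
theorem kop_pair_h52 {w : ι → ZMod ℓ} {h : ι → ι → ZMod ℓ} {P Q : ι → ZMod ℓ} {ω : ZMod ℓ}
    {S : Finset ι} (y y' : ι → ZMod ℓ) :
    ∑ i ∈ S, w i * Kop w h P Q ω S y i * y' i =
      ∑ i ∈ S, ∑ l ∈ S, w i * w l * h i l * (y i - y l) * y' i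
        - (∑ l ∈ S, w l) * ∑ i ∈ S, w i * P i * y i * y' i
        + (∑ l ∈ S, w l * y l) * ∑ i ∈ S, w i * P i * y' i
        + ω * ∑ i ∈ S, w i * (Q i - P i) * y i * y' i
        + (∑ l ∈ S, w l * Q l * y l) * ∑ i ∈ S, w i * y' i := by
  have key : ∀ i ∈ S, w i * Kop w h P Q ω S y i * y' i =
      ∑ l ∈ S, w i * w l * h i l * (y i - y l) * y' i
        - (∑ l ∈ S, w l) * (w i * P i * y i * y' i)
        + (∑ l ∈ S, w l * y l) * (w i * P i * y' i)
        + ω * (w i * (Q i - P i) * y i * y' i)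
        + (∑ l ∈ S, w l * Q l * y l) * (w i * y' i) := by
    intro i _
    have e1 : ∑ l ∈ S, w l * (h i l - P i) * (y i - y l) =
        ∑ l ∈ S, w l * h i l * (y i - y l) - P i * y i * (∑ l ∈ S, w l)
          + P i * ∑ l ∈ S, w l * y l := by
      rw [Finset.mul_sum, Finset.mul_sum, ← Finset.sum_sub_distrib, ← Finset.sum_add_distrib]
      exact Finset.sum_congr rfl fun l _ => by ring
    have e2 : ∑ l ∈ S, w i * w l * h i l * (y i - y l) * y' i =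
        w i * y' i * ∑ l ∈ S, w l * h i l * (y i - y l) := by
      rw [Finset.mul_sum]
      exact Finset.sum_congr rfl fun l _ => by ring
    rw [e2]
    unfold Kop
    rw [e1]
    ring
  rw [Finset.sum_congr rfl key]
  simp only [Finset.sum_add_distrib, Finset.sum_sub_distrib, ← Finset.mul_sum]

/-- Symmetry of the first part. -/
theorem sym_part_h52 {w : ι → ZMod ℓ} {h : ι → ι → ZMod ℓ}
    {S : Finset ι} (hh : ∀ i ∈ S, ∀ l ∈ S, h i l = h l i) (y y' : ι → ZMod ℓ) :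
    ∑ i ∈ S, ∑ l ∈ S, w i * w l * h i l * (y i - y l) * y' i =
      ∑ i ∈ S, ∑ l ∈ S, w i * w l * h i l * (y' i - y' l) * y i := by
  have e : ∀ a b : ι → ZMod ℓ, ∑ i ∈ S, ∑ l ∈ S, w i * w l * h i l * (a i - a l) * b i =
      ∑ i ∈ S, ∑ l ∈ S, w i * w l * h i l * (a i * b i)
        - ∑ i ∈ S, ∑ l ∈ S, w i * w l * h i l * (a l * b i) := by
    intro a b
    rw [← Finset.sum_sub_distrib]
    refine Finset.sum_congr rfl fun i _ => ?_
    rw [← Finset.sum_sub_distrib]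
    exact Finset.sum_congr rfl fun l _ => by ring
  rw [e, e]
  congr 1
  · exact Finset.sum_congr rfl fun i _ => Finset.sum_congr rfl fun l _ => by ring
  · rw [Finset.sum_comm]
    refine Finset.sum_congr rfl fun i hi => Finset.sum_congr rfl fun l hl => ?_
    rw [hh l hl i hi]
    ring

/-- The symmetric form `B(x, x') = ∑ w_i x_i x'_i - (∑ w_i x_i) (∑ w_i x'_i) / (∑ w_i + ω)`: the
operator `Kop` is selfadjoint, and `B(x, 1) = ω (∑ w_i x_i) / (∑ w_i + ω)`. Proof of the first equation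
(multiply by `W + ω`, `W = ∑ w_i`; write `(P·x) = ∑ w_i P_i x_i`, `σ(x) = ∑ w_i x_i`):
`Kop x i = (∑ w_l h_il (x_i - x_l)) - P_i (W x_i - σ(x)) + ω (Q_i - P_i) x_i + (Q·x)`. The first part is
symmetric in `x, x'` after `∑_i w_i x'_i`: `∑_i ∑_l w_i w_l h_il (x_i - x_l) x'_i` is half of
`∑_i ∑_l w_i w_l h_il (x_i - x_l) (x'_i - x'_l)`; to avoid the division by `2`: the sum over `i, l` of
`w_i w_l h_il (x_i x'_i - x_l x'_i)` is symmetric in `x, x'` because `h` is symmetric (exchange `i, l` in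
the second part: `Finset.sum_comm`). `σ(Kop x) = (W + ω) ((Q·x) - (P·x)) + (∑ w_i P_i) σ(x)` (the first part
has sum `0` by symmetry). So
`∑ w_i (Kop x i) x'_i - σ(Kop x) σ(x') / (W + ω) = sym + (P·x') σ(x) + (P·x) σ(x') - (∑ w P) σ(x) σ(x') / (W + ω)`
is symmetric. -/
theorem form_symm {w : ι → ZMod ℓ} {h : ι → ι → ZMod ℓ} {P Q : ι → ZMod ℓ} {ω : ZMod ℓ}
    {S : Finset ι} [Fact ℓ.Prime] (hh : ∀ i ∈ S, ∀ l ∈ S, h i l = h l i)
    (hs : ∑ l ∈ S, w l + ω ≠ 0) (x x' : ι → ZMod ℓ) :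
    ∑ i ∈ S, w i * Kop w h P Q ω S x i * x' i -
        (∑ i ∈ S, w i * Kop w h P Q ω S x i) * (∑ i ∈ S, w i * x' i) / (∑ l ∈ S, w l + ω) =
      ∑ i ∈ S, w i * x i * Kop w h P Q ω S x' i -
        (∑ i ∈ S, w i * x i) * (∑ i ∈ S, w i * Kop w h P Q ω S x' i) / (∑ l ∈ S, w l + ω) := by
  have sg : ∀ y : ι → ZMod ℓ, ∑ i ∈ S, w i * Kop w h P Q ω S y i =
      (∑ l ∈ S, w l + ω) * (∑ l ∈ S, w l * Q l * y l - ∑ l ∈ S, w l * P l * y l)
        + (∑ l ∈ S, w l * P l) * ∑ l ∈ S, w l * y l := by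
    intro y
    have h1 := kop_pair_h52 (w := w) (h := h) (P := P) (Q := Q) (ω := ω) (S := S) y (fun _ => 1)
    have h2 := sym_part_h52 (w := w) (h := h) (S := S) hh y (fun _ => 1)
    simp only [mul_one, sub_self, mul_zero, zero_mul, Finset.sum_const_zero] at h1 h2
    rw [h1, h2]
    have h3 : ∑ i ∈ S, w i * (Q i - P i) * y i =
        ∑ l ∈ S, w l * Q l * y l - ∑ l ∈ S, w l * P l * y l := by
      rw [← Finset.sum_sub_distrib]
      exact Finset.sum_congr rfl fun l _ => by ring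
    rw [h3]
    ring
  have hr : ∑ i ∈ S, w i * x i * Kop w h P Q ω S x' i =
      ∑ i ∈ S, w i * Kop w h P Q ω S x' i * x i :=
    Finset.sum_congr rfl fun i _ => by ring
  rw [hr, sg x, sg x', kop_pair_h52 x x', kop_pair_h52 x' x, sym_part_h52 hh x x']
  have c1 : ∑ i ∈ S, w i * P i * x' i * x i = ∑ i ∈ S, w i * P i * x i * x' i :=
    Finset.sum_congr rfl fun i _ => by ring
  have c2 : ∑ i ∈ S, w i * (Q i - P i) * x' i * x i = ∑ i ∈ S, w i * (Q i - P i) * x i * x' i :=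
    Finset.sum_congr rfl fun i _ => by ring
  rw [c1, c2]
  generalize ∑ i ∈ S, ∑ l ∈ S, w i * w l * h i l * (x' i - x' l) * x i = SA
  generalize ∑ i ∈ S, w i * P i * x i * x' i = PP
  generalize ∑ i ∈ S, w i * (Q i - P i) * x i * x' i = QP
  field_simp
  ring

end Pool.Agent.Lib.MP_89bcae_ag.Lr

end

section

namespace Pool.Agent.Lib.MP_89bcae_ag.Lr

variable {ι : Type} {ℓ : ℕ}

/-- A function without zeros and with weighted sum zero. Proof: two elements `i ≠ j` of `S`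
(`Finset.one_lt_card`); take `κ = 1` on the other elements; let `R` be the sum of the other `w_l`; need
`w_i κ_i + w_j κ_j = - R` with `κ_i, κ_j ≠ 0`: `κ_i = a / w_i`, `κ_j = (- R - a) / w_j` with `a ≠ 0`,
`a ≠ - R`; such an `a` exists because `ℓ ≥ 3` (`a = 1`, or `a = -1` (if `R = -1`), `1 ≠ -1`). -/
theorem exists_ne_zero_sum_zero [Fact ℓ.Prime] (h2 : ℓ ≠ 2) {w : ι → ZMod ℓ} {S : Finset ι}
    (hS : 2 ≤ S.card) (hw : ∀ i ∈ S, w i ≠ 0) :
    ∃ κ : ι → ZMod ℓ, (∀ i ∈ S, κ i ≠ 0) ∧ ∑ i ∈ S, w i * κ i = 0 := by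
  classical
  obtain ⟨i, hi, j, hj, hij⟩ := Finset.one_lt_card.mp (show 1 < S.card by omega)
  have hwi := hw i hi
  have hwj := hw j hj
  set R : ZMod ℓ := ∑ l ∈ (S.erase i).erase j, w l with hR
  have hone : (1 : ZMod ℓ) ≠ -1 := by
    intro h
    have h3 : ((2 : ℕ) : ZMod ℓ) = 0 := by
      push_cast
      linear_combination h
    rw [ZMod.natCast_eq_zero_iff] at h3
    have := (Nat.prime_dvd_prime_iff_eq (Fact.out : ℓ.Prime) Nat.prime_two).mp h3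
    exact h2 this
  obtain ⟨a, ha0, haR⟩ : ∃ a : ZMod ℓ, a ≠ 0 ∧ -R - a ≠ 0 := by
    by_cases hR1 : R = -1
    · refine ⟨-1, by simp, ?_⟩
      rw [hR1]
      intro h
      exact hone (by linear_combination h)
    · refine ⟨1, one_ne_zero, ?_⟩
      intro h
      exact hR1 (by linear_combination -h)
  refine ⟨fun l => if l = i then a / w i else if l = j then (-R - a) / w j else 1, ?_, ?_⟩
  · intro l _
    beta_reduce
    split_ifs with h3 h4
    · exact div_ne_zero ha0 hwi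
    · exact div_ne_zero haR hwj
    · exact one_ne_zero
  · beta_reduce
    have hj' : j ∈ S.erase i := Finset.mem_erase.mpr ⟨fun h => hij h.symm, hj⟩
    rw [← Finset.add_sum_erase S _ hi, ← Finset.add_sum_erase (S.erase i) _ hj']
    have h5 : ∑ x ∈ (S.erase i).erase j,
        w x * (if x = i then a / w i else if x = j then (-R - a) / w j else 1) = R := by
      rw [hR]
      refine Finset.sum_congr rfl (fun x hx => ?_)
      have hxj : x ≠ j := (Finset.mem_erase.mp hx).1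
      have hxi : x ≠ i := (Finset.mem_erase.mp (Finset.mem_erase.mp hx).2).1
      rw [if_neg hxi, if_neg hxj, mul_one]
    rw [h5, if_pos rfl, if_neg (fun h => hij h.symm), if_pos rfl]
    field_simp
    ring

/-- Not all `g` are good. Proof: `κ` from `exists_ne_zero_sum_zero`; `g_i = (∑ w_l h_il (κ_i - κ_l)) /
(W κ_i)` with `W = ∑ w_l`; then `∑_l w_l (h_il - g_i) (κ_i - κ_l) = 0` for all `i ∈ S`
(`∑_l w_l (κ_i - κ_l) = W κ_i - 0`), so `GoodR` (with `z = μ = 0`) would imply that `κ` is constant on `S`,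
equal to some `a ≠ 0`, and `∑ w_i κ_i = W a ≠ 0`. -/
theorem exists_not_goodR [Fact ℓ.Prime] (h2 : ℓ ≠ 2) {w : ι → ZMod ℓ} (h : ι → ι → ZMod ℓ)
    {S : Finset ι} (hS : 2 ≤ S.card) (hw : ∀ i ∈ S, w i ≠ 0) (hs : ∑ l ∈ S, w l ≠ 0) :
    ∃ g : ι → ZMod ℓ, ¬ GoodR w h g S := by
  obtain ⟨κ, hκ, hsum⟩ := exists_ne_zero_sum_zero h2 hS hw
  refine ⟨fun i => (∑ l ∈ S, w l * h i l * (κ i - κ l)) / ((∑ l ∈ S, w l) * κ i), ?_⟩
  intro hg
  have hconst := hg κ 0 0 (by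
    intro i hi
    beta_reduce
    have hκi := hκ i hi
    set g : ZMod ℓ := (∑ l ∈ S, w l * h i l * (κ i - κ l)) / ((∑ l ∈ S, w l) * κ i) with hgdef
    have h3 : ∑ l ∈ S, w l * (h i l - g) * (κ i - κ l) =
        ∑ l ∈ S, w l * h i l * (κ i - κ l) - g * ((∑ l ∈ S, w l) * κ i) + g * ∑ l ∈ S, w l * κ l := by
      rw [Finset.sum_mul, Finset.mul_sum, Finset.mul_sum, ← Finset.sum_sub_distrib, ← Finset.sum_add_distrib]
      exact Finset.sum_congr rfl (fun l _ => by ring)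
    rw [h3, hsum, hgdef, div_mul_cancel₀ _ (mul_ne_zero hs hκi)]
    ring)
  have hne : S.Nonempty := Finset.card_pos.mp (by omega)
  obtain ⟨i, hi⟩ := hne
  have h4 : (∑ l ∈ S, w l) * κ i = 0 := by
    rw [← hsum, Finset.sum_mul]
    exact Finset.sum_congr rfl (fun l hl => by rw [hconst i hi l hl])
  exact (mul_ne_zero hs (hκ i hi)) h4

end Pool.Agent.Lib.MP_89bcae_ag.Lr

end

section

namespace Pool.Agent.Lib.MP_89bcae_ag.Lr

variable {ι : Type} {ℓ : ℕ}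

/-- Four elements, from `GoodR` to `GoodT`. Proof: let `ε, f, z` satisfy the hypotheses and
`φ(i, j, l) = ε i j + ε j l + ε l i`, `ψ₄ = φ(1, 2, 3)`, `ψ₃ = - φ(1, 2, 4)`, `ψ₂ = φ(1, 3, 4)`,
`ψ₁ = - φ(2, 3, 4)`; their sum is `0`. In the equations the terms `l = i`, `l = j` are zero. The sum of the
equations of the pairs `(1, 2), (2, 3), (3, 1)` is
`z ψ₄ = w₃ (g₄ - c₁₂) ψ₄ - w₄ (g₃ - c₁₂) ψ₃ + w₁ (g₄ - c₂₃) ψ₄ - w₄ (g₁ - c₂₃) ψ₁ + w₂ (g₄ - c₁₃) ψ₄
- w₄ (g₂ - c₁₃) ψ₂`; here `c₁₂ = c₃₄`, `c₂₃ = c₁₄`, `c₁₃ = c₂₄`. In the same way for each `k`: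
`z ψ_k = ∑_{l ≠ k} (w_l (g_k - c_kl) ψ_k - w_k (g_l - c_kl) ψ_l)`. Put `κ_k = ψ_k / w_k`; `∑ w_l κ_l = 0`,
so `∑_l w_l (c_kl - g_k) (κ_k - κ_l) = - z κ_k - ∑_l w_l g_l κ_l`. By `hR` `κ` is constant on `S`, and it is
zero because `W κ_k = ∑ w_l κ_l = 0`. So all the `φ` are zero; take `b i = ε i s₁` for `i ≠ s₁`,
`b s₁ = 0`. -/
theorem goodT_four [DecidableEq ι] [Fact ℓ.Prime] {w : ι → ZMod ℓ} {c : Finset ι → ZMod ℓ}
    {g : ι → ZMod ℓ} {s₁ s₂ s₃ s₄ : ι} (h12 : s₁ ≠ s₂) (h13 : s₁ ≠ s₃) (h14 : s₁ ≠ s₄)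
    (h23 : s₂ ≠ s₃) (h24 : s₂ ≠ s₄) (h34 : s₃ ≠ s₄) (hw1 : w s₁ ≠ 0) (hw2 : w s₂ ≠ 0)
    (hw3 : w s₃ ≠ 0) (hw4 : w s₄ ≠ 0) (hW : w s₁ + w s₂ + w s₃ + w s₄ ≠ 0)
    (hR : GoodR w (fun i l => c {i, l}) g {s₁, s₂, s₃, s₄})
    (c1 : c {s₁, s₂} = c {s₃, s₄}) (c2 : c {s₁, s₃} = c {s₂, s₄}) (c3 : c {s₁, s₄} = c {s₂, s₃})
    (c4 : c {s₁, s₂, s₃} = g s₄) (c5 : c {s₁, s₂, s₄} = g s₃) (c6 : c {s₁, s₃, s₄} = g s₂)
    (c7 : c {s₂, s₃, s₄} = g s₁) :
    GoodT w c {s₁, s₂, s₃, s₄} := by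
  intro ε f z hanti heq
  have m1 : s₁ ∈ ({s₁, s₂, s₃, s₄} : Finset ι) := by simp
  have m2 : s₂ ∈ ({s₁, s₂, s₃, s₄} : Finset ι) := by simp
  have m3 : s₃ ∈ ({s₁, s₂, s₃, s₄} : Finset ι) := by simp
  have m4 : s₄ ∈ ({s₁, s₂, s₃, s₄} : Finset ι) := by simp
  have e21 : ε s₂ s₁ = - ε s₁ s₂ := hanti _ m1 _ m2 h12
  have e31 : ε s₃ s₁ = - ε s₁ s₃ := hanti _ m1 _ m3 h13
  have e41 : ε s₄ s₁ = - ε s₁ s₄ := hanti _ m1 _ m4 h14
  have e32 : ε s₃ s₂ = - ε s₂ s₃ := hanti _ m2 _ m3 h23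
  have e42 : ε s₄ s₂ = - ε s₂ s₄ := hanti _ m2 _ m4 h24
  have e43 : ε s₄ s₃ = - ε s₃ s₄ := hanti _ m3 _ m4 h34
  have hsum : ∀ F : ι → ZMod ℓ,
      ∑ l ∈ ({s₁, s₂, s₃, s₄} : Finset ι), F l = F s₁ + F s₂ + F s₃ + F s₄ := by
    intro F
    rw [Finset.sum_insert (by simp [h12, h13, h14]), Finset.sum_insert (by simp [h23, h24]),
      Finset.sum_insert (by simp [h34]), Finset.sum_singleton]
    ring
  have hl : ∀ a b : ι, ({a, b, a} : Finset ι) = {a, b} := by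
    intro a b; ext x; simp; tauto
  have hr : ∀ a b : ι, ({a, b, b} : Finset ι) = {a, b} := by
    intro a b; ext x; simp
  have t132 : ({s₁, s₃, s₂} : Finset ι) = {s₁, s₂, s₃} := by ext x; simp; tauto
  have t142 : ({s₁, s₄, s₂} : Finset ι) = {s₁, s₂, s₄} := by ext x; simp; tauto
  have t143 : ({s₁, s₄, s₃} : Finset ι) = {s₁, s₃, s₄} := by ext x; simp; tauto
  have t231 : ({s₂, s₃, s₁} : Finset ι) = {s₁, s₂, s₃} := by ext x; simp; tauto
  have t241 : ({s₂, s₄, s₁} : Finset ι) = {s₁, s₂, s₄} := by ext x; simp; tauto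
  have t243 : ({s₂, s₄, s₃} : Finset ι) = {s₂, s₃, s₄} := by ext x; simp; tauto
  have t341 : ({s₃, s₄, s₁} : Finset ι) = {s₁, s₃, s₄} := by ext x; simp; tauto
  have t342 : ({s₃, s₄, s₂} : Finset ι) = {s₂, s₃, s₄} := by ext x; simp; tauto
  have E12 := heq _ m1 _ m2 h12
  have E13 := heq _ m1 _ m3 h13
  have E14 := heq _ m1 _ m4 h14
  have E23 := heq _ m2 _ m3 h23
  have E24 := heq _ m2 _ m4 h24
  have E34 := heq _ m3 _ m4 h34
  rw [hsum, hl, hr, c4, c5, c1] at E12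
  rw [hsum, hl, hr, t132, c4, c6, c2] at E13
  rw [hsum, hl, hr, t142, t143, c5, c6, c3] at E14
  rw [hsum, hl, hr, t231, c4, c7] at E23
  rw [hsum, hl, hr, t241, t243, c5, c7] at E24
  rw [hsum, hl, hr, t341, t342, c6, c7] at E34
  simp only [sub_self, mul_zero, zero_mul, zero_add, add_zero, e21, e31, e41, e32, e42, e43] at E12
  simp only [sub_self, mul_zero, zero_mul, zero_add, add_zero, e21, e31, e41, e32, e42, e43] at E13
  simp only [sub_self, mul_zero, zero_mul, zero_add, add_zero, e21, e31, e41, e32, e42, e43] at E14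
  simp only [sub_self, mul_zero, zero_mul, zero_add, add_zero, e21, e31, e41, e32, e42, e43] at E23
  simp only [sub_self, mul_zero, zero_mul, zero_add, add_zero, e21, e31, e41, e32, e42, e43] at E24
  simp only [sub_self, mul_zero, zero_mul, zero_add, add_zero, e21, e31, e41, e32, e42, e43] at E34
  have P4 : z * (ε s₁ s₂ + ε s₂ s₃ - ε s₁ s₃) =
      (w s₃ * (g s₄ - c {s₃, s₄}) + w s₁ * (g s₄ - c {s₂, s₃}) + w s₂ * (g s₄ - c {s₂, s₄})) *
        (ε s₁ s₂ + ε s₂ s₃ - ε s₁ s₃)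
      - w s₄ * (g s₃ - c {s₃, s₄}) * (-(ε s₁ s₂ + ε s₂ s₄ - ε s₁ s₄))
      - w s₄ * (g s₁ - c {s₂, s₃}) * (-(ε s₂ s₃ + ε s₃ s₄ - ε s₂ s₄))
      - w s₄ * (g s₂ - c {s₂, s₄}) * (ε s₁ s₃ + ε s₃ s₄ - ε s₁ s₄) := by
    linear_combination -(E12 + E23 - E13)
  have P3 : z * (-(ε s₁ s₂ + ε s₂ s₄ - ε s₁ s₄)) =
      (w s₄ * (g s₃ - c {s₃, s₄}) + w s₁ * (g s₃ - c {s₂, s₄}) + w s₂ * (g s₃ - c {s₂, s₃})) *
        (-(ε s₁ s₂ + ε s₂ s₄ - ε s₁ s₄))
      - w s₃ * (g s₄ - c {s₃, s₄}) * (ε s₁ s₂ + ε s₂ s₃ - ε s₁ s₃)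
      - w s₃ * (g s₁ - c {s₂, s₄}) * (-(ε s₂ s₃ + ε s₃ s₄ - ε s₂ s₄))
      - w s₃ * (g s₂ - c {s₂, s₃}) * (ε s₁ s₃ + ε s₃ s₄ - ε s₁ s₄) := by
    linear_combination (E12 + E24 - E14)
  have P2 : z * (ε s₁ s₃ + ε s₃ s₄ - ε s₁ s₄) =
      (w s₄ * (g s₂ - c {s₂, s₄}) + w s₁ * (g s₂ - c {s₃, s₄}) + w s₃ * (g s₂ - c {s₂, s₃})) *
        (ε s₁ s₃ + ε s₃ s₄ - ε s₁ s₄)
      - w s₂ * (g s₄ - c {s₂, s₄}) * (ε s₁ s₂ + ε s₂ s₃ - ε s₁ s₃)
      - w s₂ * (g s₁ - c {s₃, s₄}) * (-(ε s₂ s₃ + ε s₃ s₄ - ε s₂ s₄))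
      - w s₂ * (g s₃ - c {s₂, s₃}) * (-(ε s₁ s₂ + ε s₂ s₄ - ε s₁ s₄)) := by
    linear_combination -(E13 + E34 - E14)
  have P1 : z * (-(ε s₂ s₃ + ε s₃ s₄ - ε s₂ s₄)) =
      (w s₄ * (g s₁ - c {s₂, s₃}) + w s₂ * (g s₁ - c {s₃, s₄}) + w s₃ * (g s₁ - c {s₂, s₄})) *
        (-(ε s₂ s₃ + ε s₃ s₄ - ε s₂ s₄))
      - w s₁ * (g s₄ - c {s₂, s₃}) * (ε s₁ s₂ + ε s₂ s₃ - ε s₁ s₃)
      - w s₁ * (g s₂ - c {s₃, s₄}) * (ε s₁ s₃ + ε s₃ s₄ - ε s₁ s₄)
      - w s₁ * (g s₃ - c {s₂, s₄}) * (-(ε s₁ s₂ + ε s₂ s₄ - ε s₁ s₄)) := by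
    linear_combination (E23 + E34 - E24)
  obtain ⟨k4, hk4⟩ : ∃ k4, ε s₁ s₂ + ε s₂ s₃ - ε s₁ s₃ = w s₄ * k4 :=
    ⟨(w s₄)⁻¹ * (ε s₁ s₂ + ε s₂ s₃ - ε s₁ s₃), by rw [mul_inv_cancel_left₀ hw4]⟩
  obtain ⟨k3, hk3⟩ : ∃ k3, -(ε s₁ s₂ + ε s₂ s₄ - ε s₁ s₄) = w s₃ * k3 :=
    ⟨(w s₃)⁻¹ * (-(ε s₁ s₂ + ε s₂ s₄ - ε s₁ s₄)), by rw [mul_inv_cancel_left₀ hw3]⟩
  obtain ⟨k2, hk2⟩ : ∃ k2, ε s₁ s₃ + ε s₃ s₄ - ε s₁ s₄ = w s₂ * k2 :=
    ⟨(w s₂)⁻¹ * (ε s₁ s₃ + ε s₃ s₄ - ε s₁ s₄), by rw [mul_inv_cancel_left₀ hw2]⟩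
  obtain ⟨k1, hk1⟩ : ∃ k1, -(ε s₂ s₃ + ε s₃ s₄ - ε s₂ s₄) = w s₁ * k1 :=
    ⟨(w s₁)⁻¹ * (-(ε s₂ s₃ + ε s₃ s₄ - ε s₂ s₄)), by rw [mul_inv_cancel_left₀ hw1]⟩
  have hsum0 : w s₁ * k1 + w s₂ * k2 + w s₃ * k3 + w s₄ * k4 = 0 := by
    rw [← hk1, ← hk2, ← hk3, ← hk4]; ring
  rw [hk1, hk2, hk3, hk4] at P1 P2 P3 P4
  -- the function `κ`
  let κ : ι → ZMod ℓ := fun i => if i = s₁ then k1 else if i = s₂ then k2 else if i = s₃ then k3
    else k4
  have κ1 : κ s₁ = k1 := by simp [κ]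
  have κ2 : κ s₂ = k2 := by simp [κ, h12.symm]
  have κ3 : κ s₃ = k3 := by simp [κ, h13.symm, h23.symm]
  have κ4 : κ s₄ = k4 := by simp [κ, h14.symm, h24.symm, h34.symm]
  have p21 : ({s₂, s₁} : Finset ι) = {s₁, s₂} := Finset.pair_comm _ _
  have p31 : ({s₃, s₁} : Finset ι) = {s₁, s₃} := Finset.pair_comm _ _
  have p41 : ({s₄, s₁} : Finset ι) = {s₁, s₄} := Finset.pair_comm _ _
  have p32 : ({s₃, s₂} : Finset ι) = {s₂, s₃} := Finset.pair_comm _ _
  have p42 : ({s₄, s₂} : Finset ι) = {s₂, s₄} := Finset.pair_comm _ _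
  have p43 : ({s₄, s₃} : Finset ι) = {s₃, s₄} := Finset.pair_comm _ _
  have hk := hR κ (-z) (-(w s₁ * g s₁ * k1 + w s₂ * g s₂ * k2 + w s₃ * g s₃ * k3 +
    w s₄ * g s₄ * k4)) (by
      intro i hi
      rw [hsum, κ1, κ2, κ3, κ4]
      simp only [Finset.mem_insert, Finset.mem_singleton] at hi
      rcases hi with hi | hi | hi | hi
      · rw [hi, κ1]
        beta_reduce
        rw [c1, c2, c3]
        apply mul_left_cancel₀ hw1
        linear_combination P1 + w s₁ * g s₁ * hsum0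
      · rw [hi, κ2]
        beta_reduce
        rw [p21, c1]
        apply mul_left_cancel₀ hw2
        linear_combination P2 + w s₂ * g s₂ * hsum0
      · rw [hi, κ3]
        beta_reduce
        rw [p31, p32, c2]
        apply mul_left_cancel₀ hw3
        linear_combination P3 + w s₃ * g s₃ * hsum0
      · rw [hi, κ4]
        beta_reduce
        rw [p41, p42, p43, c3]
        apply mul_left_cancel₀ hw4
        linear_combination P4 + w s₄ * g s₄ * hsum0)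
  have k21 : k2 = k1 := by rw [← κ1, ← κ2]; exact hk _ m2 _ m1
  have k31 : k3 = k1 := by rw [← κ1, ← κ3]; exact hk _ m3 _ m1
  have k41 : k4 = k1 := by rw [← κ1, ← κ4]; exact hk _ m4 _ m1
  have k10 : k1 = 0 := by
    have h : (w s₁ + w s₂ + w s₃ + w s₄) * k1 = 0 := by
      rw [k21, k31, k41] at hsum0
      linear_combination hsum0
    rcases mul_eq_zero.mp h with h | h
    · exact absurd h hW
    · exact h
  rw [k21, k10, mul_zero] at hk2
  rw [k31, k10, mul_zero] at hk3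
  rw [k41, k10, mul_zero] at hk4
  rw [k10, mul_zero] at hk1
  refine ⟨fun i => if i = s₁ then 0 else ε i s₁, ?_⟩
  intro i hi j hj hij
  simp only [Finset.mem_insert, Finset.mem_singleton] at hi hj
  rcases hi with hi | hi | hi | hi <;> rcases hj with hj | hj | hj | hj <;> subst hi <;> subst hj <;>
    first
    | exact absurd rfl hij
    | (simp only [h12, h13, h14, h23, h24, h34, h12.symm, h13.symm, h14.symm, h23.symm, h24.symm,
        h34.symm, if_true, if_false, e21, e31, e41, e32, e42, e43]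
       first
       | ring1
       | linear_combination hk4
       | linear_combination -hk4
       | linear_combination hk3
       | linear_combination -hk3
       | linear_combination hk2
       | linear_combination -hk2)

end Pool.Agent.Lib.MP_89bcae_ag.Lr

end

section

namespace Pool.Agent.Lib.MP_89bcae_ag.Lr

variable {ι : Type} {ℓ : ℕ}

/-- The symbols exist on `S`. -/
def Ex [DecidableEq ι] (w : ι → ZMod ℓ) (S : Finset ι) : Prop :=
  ∃ (c : Finset ι → ZMod ℓ) (g : ι → ZMod ℓ), GoodT w c S ∧ GoodR w (fun i l => c {i, l}) g S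

end Pool.Agent.Lib.MP_89bcae_ag.Lr

end

section

namespace Pool.Agent.Lib.MP_89bcae_ag.Lr

variable {ι : Type} {ℓ : ℕ}

/-- **Walls.** Proof: let `g₁` be not good (`exists_not_goodR`). Consider for a finite set `T ⊆ S` the
function `g_T` equal to `g₁` on `T` and to `g` elsewhere (`T.piecewise g₁ g`); `GoodR` depends only on the
values on `S`. `g_∅` is good, `g_S` is not. Take `T` minimal among the subsets with `g_T` not good, or do an
induction (`Finset.induction_on`: for all `T ⊆ S`, `g_T` is good, or there is a wall). For the step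
`insert k T`, `k ∉ T`, `k ∈ S`: `g_{insert k T} = Function.update g_T k (g₁ k)`. -/
theorem exists_wall [DecidableEq ι] [Fact ℓ.Prime] (h2 : ℓ ≠ 2) {w : ι → ZMod ℓ} {h : ι → ι → ZMod ℓ}
    {g : ι → ZMod ℓ} {S : Finset ι} (hS : 2 ≤ S.card) (hw : ∀ i ∈ S, w i ≠ 0)
    (hs : ∑ l ∈ S, w l ≠ 0) (hg : GoodR w h g S) :
    ∃ (g' : ι → ZMod ℓ) (k : ι) (a : ZMod ℓ), GoodR w h g' S ∧ k ∈ S ∧
      ¬ GoodR w h (Function.update g' k (g' k + a)) S := by
  obtain ⟨g₁, hg₁⟩ := exists_not_goodR h2 h hS hw hs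
  by_contra hcon
  have hcon' : ∀ (g' : ι → ZMod ℓ) (k : ι) (a : ZMod ℓ), GoodR w h g' S → k ∈ S →
      GoodR w h (Function.update g' k (g' k + a)) S := by
    intro g' k a h1 h3
    by_contra h4
    exact hcon ⟨g', k, a, h1, h3, h4⟩
  have key : ∀ T : Finset ι, T ⊆ S → GoodR w h (T.piecewise g₁ g) S := by
    intro T
    induction T using Finset.induction_on with
    | empty =>
      intro _
      rw [Finset.piecewise_empty]
      exact hg
    | insert k T hk ih =>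
      intro hT
      have h1 := ih (fun x hx => hT (Finset.mem_insert_of_mem hx))
      have h3 := hcon' (T.piecewise g₁ g) k (g₁ k - (T.piecewise g₁ g) k) h1
        (hT (Finset.mem_insert_self _ _))
      rw [Finset.piecewise_insert]
      have e : (T.piecewise g₁ g) k + (g₁ k - (T.piecewise g₁ g) k) = g₁ k := by ring
      rw [e] at h3
      exact h3
  have h3 := key S (Finset.Subset.refl _)
  apply hg₁
  intro κ z μ hκ
  apply h3 κ z μ
  intro i hi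
  rw [Finset.piecewise_eq_of_mem _ _ _ hi]
  exact hκ i hi

end Pool.Agent.Lib.MP_89bcae_ag.Lr

end
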