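import Mathlib
import Pool.Agent.Lib.MP_89bcae_ag.DefsN8
import Pool.Agent.Lib.MP_89bcae_ag.Mk.K003
import Pool.Agent.Lib.MP_89bcae_ag.Mk.K030

section

/-!
# Invariant classes in the `ℓ`-adic Selmer group of the Jacobian of `D(t) y ^ ℓ = g(x) - t`

`k` is a field, `F` an algebraic closure of `k`, `L` the field of rational functions `F(t)` and `Ω`
an algebraic closure of `L`.
-/

open Polynomial IsDedekindDomain

open scoped Classical

namespace Pool.Agent.Lib.MP_89bcae_ag.Superelliptic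

universe u

/-- The coordinate ring `A[x, y] / (y ^ ℓ - f(x))` of the affine curve `y ^ ℓ = f(x)`. -/
def CoordRing (ℓ : ℕ) {A : Type u} [Field A] (f : A[X]) : Type u :=
  AdjoinRoot (X ^ ℓ - C f : A[X][X])

noncomputable instance (ℓ : ℕ) {A : Type u} [Field A] (f : A[X]) : CommRing (CoordRing ℓ f) :=
  AdjoinRoot.instCommRing (X ^ ℓ - C f : A[X][X])

/-- The Picard group of the affine curve `y ^ ℓ = f(x)`, written additively. If `f` is separable of
degree prime to `ℓ` and `A` is an algebraically closed field in which `ℓ ≠ 0`, then the smooth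
projective model of the curve has one point at infinity and this is its group of divisor classes of
degree zero, the group of points over `A` of the Jacobian variety. -/
def Jacobian (ℓ : ℕ) {A : Type u} [Field A] (f : A[X]) : Type u :=
  Additive (CommRing.Pic (CoordRing ℓ f))

noncomputable instance (ℓ : ℕ) {A : Type u} [Field A] (f : A[X]) : AddCommGroup (Jacobian ℓ f) :=
  @Additive.addCommGroup (CommRing.Pic (CoordRing ℓ f)) _

/-- The homomorphism of coordinate rings induced by a homomorphism `σ` of fields which maps the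
coefficients of `f` to those of `f'`: `x ↦ x`, `y ↦ y`. -/
noncomputable def coordHom (ℓ : ℕ) {A B : Type u} [Field A] [Field B] (σ : A →+* B) {f : A[X]}
    {f' : B[X]} (h : f.map σ = f') : CoordRing ℓ f →+* CoordRing ℓ f' :=
  AdjoinRoot.map (mapRingHom σ) (X ^ ℓ - C f) (X ^ ℓ - C f') (by
    rw [← h, Polynomial.map_sub, Polynomial.map_pow, Polynomial.map_X, Polynomial.map_C,
      coe_mapRingHom])

/-- The map of Jacobians induced by a homomorphism `σ` of fields which maps the coefficients of `f`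
to those of `f'`. -/
noncomputable def jacMap (ℓ : ℕ) {A B : Type u} [Field A] [Field B] (σ : A →+* B) {f : A[X]}
    {f' : B[X]} (h : f.map σ = f') (P : Jacobian ℓ f) : Jacobian ℓ f' :=
  Additive.ofMul (CommRing.Pic.mapRingHom (coordHom ℓ σ h) (Additive.toMul P))

section

variable {L : Type u} [Field L]

/-- The points of the Jacobian of `y ^ ℓ = f(x)` over an extension `A` of the field `L` of the
coefficients of `f`. -/
abbrev JacOver (ℓ : ℕ) (f : L[X]) (A : Type u) [Field A] [Algebra L A] : Type u :=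
  Jacobian ℓ (f.map (algebraMap L A))

/-- The action of a homomorphism of extensions of `L` on the points of the Jacobian. -/
noncomputable def push (ℓ : ℕ) (f : L[X]) {A B : Type u} [Field A] [Field B] [Algebra L A]
    [Algebra L B] (σ : A →ₐ[L] B) (P : JacOver ℓ f A) : JacOver ℓ f B :=
  jacMap ℓ (σ : A →+* B) (by rw [Polynomial.map_map, AlgHom.comp_algebraMap]) P

variable {Ω : Type u} [Field Ω] [Algebra L Ω]

/-- `c` is a continuous `1`-cocycle of `Aut(Ω/L)` with values in the `ℓ`-adic Tate module of the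
Jacobian of `y ^ ℓ = f(x)`; its component `c n` has values in the points of order dividing
`ℓ ^ n`. -/
structure IsTateCocycle (ℓ : ℕ) (f : L[X]) (c : ℕ → (Ω ≃ₐ[L] Ω) → JacOver ℓ f Ω) : Prop where
  zero : ∀ σ, c 0 σ = 0
  smul : ∀ n σ, ℓ • c (n + 1) σ = c n σ
  cocycle : ∀ n (σ τ : Ω ≃ₐ[L] Ω), c n (σ * τ) = c n σ + push ℓ f (σ : Ω →ₐ[L] Ω) (c n τ)
  locallyConstant : ∀ n, IsLocallyConstant (c n)

/-- The class of the cocycle `c` in `H¹(Lv, J)` is trivial, where `Lv` is a field containing `L`: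
for every algebraic closure `M` of `Lv` and every embedding `j` of `Ω` in `M` over `L`, there is a
point `Q` of `J(M)` with `j(c(g|_Ω)) = g(Q) - Q` for all `g` in `Aut(M/Lv)`. -/
def IsLocallyTrivial (ℓ : ℕ) (f : L[X]) (c : (Ω ≃ₐ[L] Ω) → JacOver ℓ f Ω)
    (Lv : Type u) [Field Lv] [Algebra L Lv] : Prop :=
  ∀ (M : Type u) [Field M] [Algebra Lv M] [IsAlgClosure Lv M] [Algebra L M] [IsScalarTower L Lv M]
    (j : Ω →ₐ[L] M), ∃ Q : JacOver ℓ f M, ∀ (g : M ≃ₐ[Lv] M) (g' : Ω ≃ₐ[L] Ω),
      (∀ x, j (g' x) = g (j x)) →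
        push ℓ f j (c g') = push ℓ f (g.restrictScalars L : M →ₐ[L] M) Q - Q

/-- The class of the cocycle `c` in `H¹(L, T_ℓ J)` is fixed, up to torsion, by the automorphism `γ`
of `Ω` (which fixes the coefficients of `f`): some positive multiple `m (γ c - c)` is at every level
a coboundary. Here `(γ c)(h) = γ (c (γ⁻¹ h γ))`. -/
def IsFixedBy (ℓ : ℕ) (f : L[X]) (c : ℕ → (Ω ≃ₐ[L] Ω) → JacOver ℓ f Ω) (γ : Ω ≃+* Ω)
    (hγ : (f.map (algebraMap L Ω)).map (γ : Ω →+* Ω) = f.map (algebraMap L Ω)) : Prop :=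
  ∃ m : ℕ, 0 < m ∧ ∀ n, ∃ A : JacOver ℓ f Ω, ℓ ^ n • A = 0 ∧
    ∀ g h : Ω ≃ₐ[L] Ω, (∀ x, γ (g x) = h (γ x)) →
      m • (jacMap ℓ (γ : Ω →+* Ω) hγ (c n g) - c n h) = push ℓ f (h : Ω →ₐ[L] Ω) A - A

/-- The class of the cocycle `c` vanishes: at every level `n`, it is the coboundary of a point of
order dividing `ℓ ^ n`. -/
def IsTrivial (ℓ : ℕ) (f : L[X]) (c : ℕ → (Ω ≃ₐ[L] Ω) → JacOver ℓ f Ω) : Prop :=
  ∀ n, ∃ A : JacOver ℓ f Ω, ℓ ^ n • A = 0 ∧ ∀ g : Ω ≃ₐ[L] Ω,
    c n g = push ℓ f (g : Ω →ₐ[L] Ω) A - A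

end

/-- The polynomial `D(t)⁻¹ (g(x) - t)` in `x` over the field `L = F(t)`. -/
noncomputable def curvePoly (k F L : Type u) [Field k] [Field F] [Algebra k F] [Field L]
    [Algebra F[X] L] (g D : k[X]) : L[X] :=
  C ((base k F L L D)⁻¹) * (g.map ((base k F L L).comp C) - C (base k F L L X))

/-- Let `k'` be an extension of `k` in `F`. Every class of the `ℓ`-adic Selmer group over `L = F(t)`
of the Jacobian of the curve `D(t) y ^ ℓ = g(x) - t` (a class in `H¹(L, T_ℓ J)` which is locally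
trivial at all finite places, at all levels) fixed, up to torsion, by the automorphisms of `Ω` over
`k'(t)` vanishes. -/
def NoTateClass (ℓ : ℕ) {k F : Type u} (L Ω : Type u) [Field k] [Field F] [Algebra k F] [Field L]
    [Algebra F[X] L] [IsFractionRing F[X] L] [Field Ω] [Algebra L Ω] (g D : k[X])
    (k' : IntermediateField k F) : Prop :=
  ∀ c : ℕ → (Ω ≃ₐ[L] Ω) → JacOver ℓ (curvePoly k F L g D) Ω,
    IsTateCocycle ℓ (curvePoly k F L g D) c →
    (∀ (v : HeightOneSpectrum F[X]) (n : ℕ),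
      IsLocallyTrivial ℓ (curvePoly k F L g D) (c n) (v.adicCompletion L)) →
    (∀ (γ : Ω ≃+* Ω) hγ, (∀ p : k'[X], γ (base k' F L Ω p) = base k' F L Ω p) →
      IsFixedBy ℓ (curvePoly k F L g D) c γ hγ) →
    IsTrivial ℓ (curvePoly k F L g D) c

/-- The roots in `F` of the polynomial `D(g(x))`. -/
def roots (k F : Type u) [Field k] [Field F] [Algebra k F] (g D : k[X]) : Set F :=
  {β | aeval (aeval β g) D = 0}

/-- The arithmetic condition on the differences of the roots of `D(g(x))`: let `K` be the field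
generated by the set `R` of these roots over `k`. There are no function `e : R → ℤ`, not divisible
by `ℓ`, with sum divisible by `ℓ` over each fibre of `g` in `R`, and `κ ≠ 0` in `K` such that
`κ ^ e(β) ∏ (β - β') ^ (e(β) - e(β'))`, where `β'` runs through the elements of `R` with
`g(β') ≠ g(β)`, is the `ℓ`-th power of an element of `K` for all `β` in `R`. -/
def IsIndependent (ℓ : ℕ) (k F : Type u) [Field k] [Field F] [Algebra k F] (g D : k[X]) : Prop :=
  ∀ (e : F → ℤ) (κ : F), κ ≠ 0 → κ ∈ IntermediateField.adjoin k (roots k F g D) →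
    (∀ β ∈ roots k F g D,
      (ℓ : ℤ) ∣ ∑ᶠ β' ∈ {β' : F | aeval β' g = aeval β g}, e β') →
    (∀ β ∈ roots k F g D, ∃ w ∈ IntermediateField.adjoin k (roots k F g D),
      w ^ ℓ = κ ^ e β *
        ∏ᶠ β' ∈ {β' ∈ roots k F g D | aeval β' g ≠ aeval β g}, (β - β') ^ (e β - e β')) →
    ∀ β ∈ roots k F g D, (ℓ : ℤ) ∣ e β

end Pool.Agent.Lib.MP_89bcae_ag.Superelliptic

end

section

/-!
# Integral vectors which avoid residue classes whose proportions have a divergent sum have density zero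
-/

open Filter Topology

open scoped Classical

namespace Pool.Agent.Lib.MP_89bcae_ag

set_option linter.style.haveILetI false

/-- The number of the residue classes which avoid given sets modulo several coprime integers. -/
lemma card_avoidB7 (m : ℕ) (M : ℕ → ℕ) (D : ∀ p : ℕ, Set (Fin m → ZMod (M p))) (δ : ℕ → ℝ)
    (S : Finset ℕ) (hM0 : ∀ p ∈ S, 0 < M p)
    (hcop : ∀ p ∈ S, ∀ q ∈ S, p ≠ q → Nat.Coprime (M p) (M q))
    (hD : ∀ p ∈ S, δ p * (M p : ℝ) ^ m ≤ (D p).ncard) {N : ℕ}
    (hN : N = ∏ p ∈ S, M p) :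
    ∃ (A : Finset (Fin m → ZMod N)),
      (A.card : ℝ) ≤ (∏ p ∈ S, (1 - δ p)) * (N : ℝ) ^ m ∧
      ∀ a : Fin m → ℤ, (∀ p ∈ S, (fun i => (a i : ZMod (M p))) ∉ D p) →
        (fun i => (a i : ZMod N)) ∈ A := by
  haveI : ∀ p : S, NeZero (M p) := fun p => ⟨(hM0 p p.2).ne'⟩
  haveI : NeZero N := ⟨by
    rw [hN]
    exact Finset.prod_ne_zero_iff.mpr fun p hp => (hM0 p hp).ne'⟩
  have hdvd : ∀ p : S, M p ∣ N := fun p => by
    rw [hN]
    exact Finset.dvd_prod_of_mem _ p.2
  let ψ : (Fin m → ZMod N) → ∀ p : S, (Fin m → ZMod (M p)) :=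
    fun v p i => ZMod.castHom (hdvd p) (ZMod (M p)) (v i)
  have hψ : Function.Injective ψ := by
    intro v w h
    funext i
    have h1 : ∀ p : S, ZMod.castHom (hdvd p) (ZMod (M p)) (v i - w i) = 0 := by
      intro p
      rw [map_sub, sub_eq_zero]
      exact congrFun (congrFun h p) i
    have h2 : ∀ p ∈ S, M p ∣ (v i - w i).val := by
      intro p hp
      have h3 := h1 ⟨p, hp⟩
      rw [ZMod.castHom_apply, ZMod.cast_eq_val, ZMod.natCast_eq_zero_iff] at h3
      exact h3
    have h3 : N ∣ (v i - w i).val := by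
      have h5 : ∏ p ∈ S, M p ∣ (v i - w i).val := by
        apply Finset.prod_dvd_of_isRelPrime _ h2
        intro p hp q hq hpq
        exact Nat.coprime_iff_isRelPrime.mp (hcop p hp q hq hpq)
      rwa [← hN] at h5
    have h4 : (v i - w i).val = 0 := Nat.eq_zero_of_dvd_of_lt h3 (ZMod.val_lt _)
    rw [ZMod.val_eq_zero] at h4
    exact sub_eq_zero.mp h4
  refine ⟨Finset.univ.filter fun v => ∀ p : S, ψ v p ∉ D p, ?_, ?_⟩
  · have h1 : ((Finset.univ.filter fun v => ∀ p : S, ψ v p ∉ D p).card : ℝ) ≤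
        ((Fintype.piFinset fun p : S =>
          Finset.univ.filter fun w : Fin m → ZMod (M p) => w ∉ D p).card : ℝ) := by
      rw [Nat.cast_le, ← Finset.card_image_of_injective _ hψ]
      apply Finset.card_le_card
      intro x hx
      obtain ⟨v, hv, rfl⟩ := Finset.mem_image.mp hx
      rw [Finset.mem_filter] at hv
      rw [Fintype.mem_piFinset]
      intro p
      rw [Finset.mem_filter]
      exact ⟨Finset.mem_univ _, hv.2 p⟩
    refine h1.trans ?_
    rw [Fintype.card_piFinset]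
    push_cast
    have h2 : ∀ p : S, ((Finset.univ.filter fun w : Fin m → ZMod (M p) => w ∉ D p).card : ℝ) ≤
        (1 - δ p) * (M p : ℝ) ^ m := by
      intro p
      have h3 := hD p p.2
      have h4 : (D p).ncard = (Finset.univ.filter fun w : Fin m → ZMod (M p) => w ∈ D p).card := by
        rw [← Set.ncard_coe_finset]
        congr 1
        ext w
        simp
      have h5 := Finset.card_filter_add_card_filter_not
        (s := (Finset.univ : Finset (Fin m → ZMod (M p)))) (fun w => w ∈ D p)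
      rw [Finset.card_univ, Fintype.card_fun, ZMod.card, Fintype.card_fin] at h5
      have h6 : (((Finset.univ.filter fun w : Fin m → ZMod (M p) => w ∈ D p).card : ℝ)) +
          ((Finset.univ.filter fun w : Fin m → ZMod (M p) => w ∉ D p).card : ℝ) =
          (M p : ℝ) ^ m := by exact_mod_cast h5
      rw [h4] at h3
      linarith
    calc ∏ p : S, ((Finset.univ.filter fun w : Fin m → ZMod (M p) => w ∉ D p).card : ℝ)
        ≤ ∏ p : S, ((1 - δ p) * (M p : ℝ) ^ m) :=
          Finset.prod_le_prod (fun _ _ => by positivity) (fun p _ => h2 p)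
      _ = _ := by
          rw [Finset.prod_mul_distrib, Finset.prod_coe_sort S (fun p => (1 - δ p)), hN,
            Finset.prod_pow, Finset.prod_coe_sort S (fun p => (M p : ℝ))]
          push_cast
          rfl
  · intro a ha
    rw [Finset.mem_filter]
    refine ⟨Finset.mem_univ _, fun p => ?_⟩
    have h1 : ψ (fun i => (a i : ZMod N)) p = fun i => (a i : ZMod (M p)) := by
      funext i
      exact map_intCast _ _
    rw [h1]
    exact ha p p.2

/-- **Density zero**, for residue classes modulo coprime integers whose proportions have a divergent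
sum. -/
theorem density_crtB7 (m : ℕ) (M : ℕ → ℕ) (D : ∀ p : ℕ, Set (Fin m → ZMod (M p))) (δ : ℕ → ℝ)
    (P : Set ℕ) (hM0 : ∀ p ∈ P, 0 < M p)
    (hcop : ∀ p ∈ P, ∀ q ∈ P, p ≠ q → Nat.Coprime (M p) (M q))
    (hδ : ∀ T : ℝ, ∃ S : Finset ℕ, (∀ p ∈ S, p ∈ P) ∧ T ≤ ∑ p ∈ S, δ p)
    (hD : ∀ p ∈ P, δ p * (M p : ℝ) ^ m ≤ (D p).ncard) (Good : (Fin m → ℤ) → Prop)
    (hGood : ∀ a, ∀ p ∈ P, (fun i => (a i : ZMod (M p))) ∈ D p → Good a) :
    Tendsto (fun H : ℕ => ({a : Fin m → ℤ | (∀ i, |a i| ≤ H) ∧ ¬ Good a}.ncard : ℝ) /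
      (2 * H + 1) ^ m) atTop (𝓝 0) := by
  have hδ1 : ∀ p ∈ P, δ p ≤ 1 := by
    intro p hp
    haveI : NeZero (M p) := ⟨(hM0 p hp).ne'⟩
    have h1 := hD p hp
    have h2 : ((D p).ncard : ℝ) ≤ (M p : ℝ) ^ m := by
      have h3 : (D p).ncard ≤ (Set.univ : Set (Fin m → ZMod (M p))).ncard :=
        Set.ncard_le_ncard (Set.subset_univ _)
      rw [Set.ncard_univ, Nat.card_eq_fintype_card, Fintype.card_fun, ZMod.card,
        Fintype.card_fin] at h3
      exact_mod_cast h3
    have h4 : (0 : ℝ) < (M p : ℝ) ^ m := by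
      have : (0 : ℝ) < M p := by exact_mod_cast hM0 p hp
      positivity
    nlinarith
  rw [Metric.tendsto_atTop]
  intro ε hε
  obtain ⟨S, hSP, hST⟩ := hδ (- Real.log (ε / 2))
  obtain ⟨N, hN⟩ : ∃ N, N = ∏ p ∈ S, M p := ⟨_, rfl⟩
  obtain ⟨A, hA1, hA2⟩ := card_avoidB7 m M D δ S (fun p hp => hM0 p (hSP p hp))
    (fun p hp q hq => hcop p (hSP p hp) q (hSP q hq)) (fun p hp => hD p (hSP p hp)) hN
  set t := ∏ p ∈ S, (1 - δ p) with htdef
  have ht : t < ε := by
    have h1 : t ≤ ∏ p ∈ S, Real.exp (- δ p) := by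
      refine Finset.prod_le_prod (fun p hp => by linarith [hδ1 p (hSP p hp)]) fun p _ => ?_
      linarith [Real.add_one_le_exp (- δ p)]
    rw [← Real.exp_sum, Finset.sum_neg_distrib] at h1
    have h2 : Real.exp (- ∑ p ∈ S, δ p) ≤ ε / 2 := by
      rw [← Real.le_log_iff_exp_le (by positivity)]
      linarith
    linarith
  have hN0 : 0 < N := by
    rw [hN]
    exact Finset.prod_pos fun p hp => hM0 p (hSP p hp)
  have hNR : (0 : ℝ) < N := by exact_mod_cast hN0
  have hlim : Tendsto (fun H : ℕ => t * (1 + N / (2 * (H : ℝ) + 1)) ^ m) atTop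
      (𝓝 (t * (1 + 0) ^ m)) := by
    apply Tendsto.const_mul
    apply Tendsto.pow
    apply Tendsto.const_add
    apply Tendsto.div_atTop tendsto_const_nhds
    exact tendsto_atTop_add_const_right _ _
      (Tendsto.const_mul_atTop (by norm_num) tendsto_natCast_atTop_atTop)
  rw [add_zero, one_pow, mul_one] at hlim
  obtain ⟨H0, hH0⟩ := (hlim.eventually_lt_const ht).exists_forall_of_atTop
  refine ⟨H0, fun H hH => ?_⟩
  have hpos : (0 : ℝ) < (2 * (H : ℝ) + 1) ^ m := by positivity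
  rw [Real.dist_eq, sub_zero, abs_of_nonneg (by positivity), div_lt_iff₀ hpos]
  have h1 : {a : Fin m → ℤ | (∀ i, |a i| ≤ H) ∧ ¬ Good a} ⊆
      {a : Fin m → ℤ | (∀ i, |a i| ≤ H) ∧ (fun i => (a i : ZMod N)) ∈ A} := by
    rintro a ⟨h2, h3⟩
    refine ⟨h2, hA2 a fun p hp hap => h3 (hGood a p (hSP p hp) hap)⟩
  have hfin : {a : Fin m → ℤ | (∀ i, |a i| ≤ H) ∧ (fun i => (a i : ZMod N)) ∈ A}.Finite := by
    apply Set.Finite.subset (Finset.finite_toSet
      (Fintype.piFinset fun _ : Fin m => Finset.Icc (-(H : ℤ)) H))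
    rintro a ⟨h2, -⟩
    rw [Finset.mem_coe, Fintype.mem_piFinset]
    intro i
    rw [Finset.mem_Icc]
    exact abs_le.mp (h2 i)
  have h2 : (({a : Fin m → ℤ | (∀ i, |a i| ≤ H) ∧ ¬ Good a}.ncard : ℝ)) ≤
      A.card * ((2 * H + 1) / N + 1) ^ m :=
    (by exact_mod_cast Set.ncard_le_ncard h1 hfin : _ ≤ _).trans (card_box7 hN0 m H A)
  refine lt_of_le_of_lt h2 ?_
  have h3 : (A.card : ℝ) * ((2 * H + 1) / N + 1) ^ m ≤
      (t * (1 + N / (2 * (H : ℝ) + 1)) ^ m) * (2 * (H : ℝ) + 1) ^ m := by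
    have h4 : (0 : ℝ) ≤ ((2 * H + 1) / N + 1) ^ m := by positivity
    refine (mul_le_mul_of_nonneg_right hA1 h4).trans ?_
    rw [mul_assoc, mul_assoc, ← mul_pow, ← mul_pow]
    have h5 : (N : ℝ) * ((2 * H + 1) / N + 1) = (1 + N / (2 * (H : ℝ) + 1)) * (2 * H + 1) := by
      field_simp
    rw [h5]
  exact lt_of_le_of_lt h3 (mul_lt_mul_of_pos_right (hH0 H hH) hpos)

/-- The sums of `c / p` over finite sets of large primes are unbounded. -/
theorem sum_primes_unbounded7 {c : ℝ} (hc : 0 < c) (P₀ : ℕ) (T : ℝ) :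
    ∃ S : Finset ℕ, (∀ p ∈ S, p.Prime ∧ P₀ ≤ p) ∧ T ≤ ∑ p ∈ S, c / p := by
  by_contra hcon
  push Not at hcon
  apply not_summable_one_div_on_primes
  apply summable_of_sum_le (c := T / c + ∑ p ∈ Finset.range P₀, (1 : ℝ) / p)
  · intro n
    exact Set.indicator_nonneg (fun _ _ => by positivity) n
  · intro s
    have h1 := hcon (s.filter fun p => p.Prime ∧ P₀ ≤ p) fun p hp => (Finset.mem_filter.mp hp).2
    have h2 : ∑ x ∈ s, Set.indicator {p : ℕ | p.Prime} (fun n : ℕ => (1 : ℝ) / n) x ≤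
        ∑ x ∈ s.filter (fun p => p.Prime ∧ P₀ ≤ p), (1 : ℝ) / x +
          ∑ p ∈ Finset.range P₀, (1 : ℝ) / p := by
      have h3 : ∑ x ∈ s, Set.indicator {p : ℕ | p.Prime} (fun n : ℕ => (1 : ℝ) / n) x =
          ∑ x ∈ s.filter (fun p => p.Prime), (1 : ℝ) / x := by
        rw [Finset.sum_filter]
        refine Finset.sum_congr rfl fun x _ => ?_
        rw [Set.indicator_apply]
        rfl
      rw [h3]
      have h4 : s.filter (fun p => p.Prime) ⊆
          s.filter (fun p => p.Prime ∧ P₀ ≤ p) ∪ Finset.range P₀ := by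
        intro p hp
        rw [Finset.mem_filter] at hp
        rw [Finset.mem_union, Finset.mem_filter, Finset.mem_range]
        rcases le_or_gt P₀ p with h | h
        · exact Or.inl ⟨hp.1, hp.2, h⟩
        · exact Or.inr h
      refine (Finset.sum_le_sum_of_subset_of_nonneg h4 fun _ _ _ => by positivity).trans ?_
      have h5 := Finset.sum_union_inter (s₁ := s.filter (fun p => p.Prime ∧ P₀ ≤ p))
        (s₂ := Finset.range P₀) (f := fun x : ℕ => (1 : ℝ) / x)
      have h6 : (0 : ℝ) ≤ ∑ x ∈ s.filter (fun p => p.Prime ∧ P₀ ≤ p) ∩ Finset.range P₀,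
        (1 : ℝ) / x := Finset.sum_nonneg fun _ _ => by positivity
      linarith
    have h7 : ∑ x ∈ s.filter (fun p => p.Prime ∧ P₀ ≤ p), (1 : ℝ) / x ≤ T / c := by
      rw [le_div_iff₀ hc, Finset.sum_mul]
      refine le_trans (le_of_eq ?_) h1.le
      refine Finset.sum_congr rfl fun x _ => ?_
      ring
    linarith

end Pool.Agent.Lib.MP_89bcae_ag

end

section

/-!
# Change of the base field in the statement on invariant classes
-/

open Polynomial IsDedekindDomain

open scoped Classical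

set_option linter.unusedSimpArgs false
set_option linter.unusedVariables false
set_option linter.unusedSectionVars false
set_option linter.style.haveILetI false

namespace Pool.Agent.Lib.MP_89bcae_ag.Superelliptic

universe u

/-- The statement for a polynomial `f` and a set of automorphisms. -/
def NT8 (ℓ : ℕ) {F : Type u} (L Ω : Type u) [Field F] [Field L] [Algebra F[X] L]
    [IsFractionRing F[X] L] [Field Ω] [Algebra L Ω] (f : L[X]) (Γ : Set (Ω ≃+* Ω)) : Prop :=
  ∀ c : ℕ → (Ω ≃ₐ[L] Ω) → JacOver ℓ f Ω,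
    IsTateCocycle ℓ f c →
    (∀ (v : HeightOneSpectrum F[X]) (n : ℕ), IsLocallyTrivial ℓ f (c n) (v.adicCompletion L)) →
    (∀ (γ : Ω ≃+* Ω) hγ, γ ∈ Γ → IsFixedBy ℓ f c γ hγ) →
    IsTrivial ℓ f c

theorem NT8.mono {ℓ : ℕ} {F L Ω : Type u} [Field F] [Field L] [Algebra F[X] L]
    [IsFractionRing F[X] L] [Field Ω] [Algebra L Ω] {f : L[X]} {Γ Γ' : Set (Ω ≃+* Ω)}
    (h : NT8 (F := F) ℓ L Ω f Γ) (hle : Γ ⊆ Γ') : NT8 (F := F) ℓ L Ω f Γ' :=
  fun c hc hloc hfix => h c hc hloc fun γ hγ hγΓ => hfix γ hγ (hle hγΓ)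

theorem noTateClass_iff8 {ℓ : ℕ} {k F L Ω : Type u} [Field k] [Field F] [Algebra k F] [Field L]
    [Algebra F[X] L] [IsFractionRing F[X] L] [Field Ω] [Algebra L Ω] {g D : k[X]}
    {k' : IntermediateField k F} : NoTateClass ℓ L Ω g D k' ↔
      NT8 (F := F) ℓ L Ω (curvePoly k F L g D)
        {γ | ∀ p : k'[X], γ (base k' F L Ω p) = base k' F L Ω p} := Iff.rfl

variable {k K F L Ω : Type u} [Field k] [Field K] [Field F] [Algebra k K] [Algebra K F]
  [Algebra k F] [IsScalarTower k K F] [Field L] [Algebra F[X] L] [IsFractionRing F[X] L] [Field Ω]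
  [Algebra L Ω]

lemma base_map8 {A : Type u} [Field A] [Algebra L A] (p : k[X]) :
    base K F L A (p.map (algebraMap k K)) = base k F L A p := by
  show algebraMap L A (algebraMap F[X] L ((p.map (algebraMap k K)).map (algebraMap K F))) =
    algebraMap L A (algebraMap F[X] L (p.map (algebraMap k F)))
  rw [Polynomial.map_map, ← IsScalarTower.algebraMap_eq]

lemma curvePoly_map8 (g D : k[X]) : curvePoly K F L (g.map (algebraMap k K))
    (D.map (algebraMap k K)) = curvePoly k F L g D := by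
  have h1 : ∀ p : k[X], base K F L L (p.map (algebraMap k K)) = base k F L L p := fun p =>
    base_map8 p
  have h2 : base K F L L X = base k F L L X := by
    have h3 := h1 X
    rwa [map_X] at h3
  have h4 : ((base K F L L).comp C).comp (algebraMap k K) = (base k F L L).comp C := by
    ext x
    have h5 := h1 (C x)
    rw [map_C] at h5
    exact h5
  unfold curvePoly
  rw [h1, Polynomial.map_map, h4, h2]

/-- Change of the base field. -/
theorem noTateClass_base8 {ℓ : ℕ} {g D : k[X]} {k' : IntermediateField k F}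
    {K' : IntermediateField K F} (hle : ∀ x ∈ k', x ∈ K')
    (h : NoTateClass ℓ L Ω (g.map (algebraMap k K)) (D.map (algebraMap k K)) K') :
    NoTateClass ℓ L Ω g D k' := by
  rw [noTateClass_iff8, curvePoly_map8] at h
  rw [noTateClass_iff8]
  refine h.mono ?_
  intro γ hγ p
  let i : k' →+* K' := (algebraMap k' F).codRestrict K'.toSubalgebra.toSubring fun x => hle x x.2
  have h1 : ∀ p : k'[X], base K' F L Ω (p.map i) = base k' F L Ω p := by
    intro p
    show algebraMap L Ω (algebraMap F[X] L ((p.map i).map (algebraMap K' F))) =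
      algebraMap L Ω (algebraMap F[X] L (p.map (algebraMap k' F)))
    rw [Polynomial.map_map]
    rfl
  rw [← h1]
  exact hγ _

/-- Every finite extension of `k` is contained in a finite extension of `K`. -/
theorem exists_finite8 [Algebra.IsAlgebraic K F] (k' : IntermediateField k F)
    [FiniteDimensional k k'] :
    ∃ K' : IntermediateField K F, FiniteDimensional K K' ∧ ∀ x ∈ k', x ∈ K' := by
  let b := Module.finBasis k k'
  refine ⟨IntermediateField.adjoin K (Set.range fun i => ((b i : k') : F)),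
    IntermediateField.finiteDimensional_adjoin fun x _ => Algebra.IsIntegral.isIntegral x,
    fun x hx => ?_⟩
  have h1 := congrArg (Subtype.val : k' → F) (b.sum_repr ⟨x, hx⟩)
  have h2 : ((∑ i, b.repr ⟨x, hx⟩ i • b i : k') : F) =
      ∑ i, algebraMap K F (algebraMap k K (b.repr ⟨x, hx⟩ i)) * ((b i : k') : F) := by
    rw [AddSubmonoidClass.coe_finsetSum]
    refine Finset.sum_congr rfl fun i _ => ?_
    rw [← IsScalarTower.algebraMap_apply, ← Algebra.smul_def]
    rfl
  rw [h2] at h1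
  have h3 : x = ∑ i, algebraMap K F (algebraMap k K (b.repr ⟨x, hx⟩ i)) * ((b i : k') : F) :=
    h1.symm
  rw [h3]
  exact sum_mem fun i _ => mul_mem (IntermediateField.algebraMap_mem _ _)
    (IntermediateField.subset_adjoin K _ ⟨i, rfl⟩)

end Pool.Agent.Lib.MP_89bcae_ag.Superelliptic

end

section

/-!
# Comparison of the two forms of the definitions
-/

open Polynomial IsDedekindDomain

open scoped Classical

namespace Pool.Agent.Lib.MP_89bcae_ag

universe u

section

variable (N : ℕ) {A B : Type u} [Field A] [Field B]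

/-- The identity, from one form of the coordinate ring to the other. -/
noncomputable def ringN8 (f : A[X]) : Nrm.NRing N f →+* Wt.NRing N f where
  toFun a := (⟨a.1, a.2⟩ : integralClosure A[X] (Wt.FunField N f))
  map_one' := Subtype.ext rfl
  map_zero' := Subtype.ext rfl
  map_mul' _ _ := Subtype.ext rfl
  map_add' _ _ := Subtype.ext rfl

/-- The inverse. -/
noncomputable def ringN8' (f : A[X]) : Wt.NRing N f →+* Nrm.NRing N f where
  toFun a := (⟨a.1, a.2⟩ : integralClosure A[X] (Nrm.FunRing N f))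
  map_one' := Subtype.ext rfl
  map_zero' := Subtype.ext rfl
  map_mul' _ _ := Subtype.ext rfl
  map_add' _ _ := Subtype.ext rfl

theorem ringN8_comp (f : A[X]) : (ringN8 N f).comp (ringN8' N f) = RingHom.id _ :=
  RingHom.ext fun _ => Subtype.ext rfl

theorem ringN8'_comp (f : A[X]) : (ringN8' N f).comp (ringN8 N f) = RingHom.id _ :=
  RingHom.ext fun _ => Subtype.ext rfl

theorem coordMap_compN8 (σ : A →+* B) {f : A[X]} {f' : B[X]} (h : f.map σ = f') :
    (ringN8 N f').comp (Nrm.coordMap N σ h) = (Wt.coordMap N σ h).comp (ringN8 N f) :=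
  RingHom.ext fun _ => Subtype.ext rfl

/-- The isomorphism of the groups of points of the Jacobians. -/
noncomputable def jacN8 (f : A[X]) : Nrm.Jac N f →+ Wt.Jac N f :=
  MonoidHom.toAdditive (CommRing.Pic.mapRingHom (ringN8 N f))

/-- The inverse. -/
noncomputable def jacN8' (f : A[X]) : Wt.Jac N f →+ Nrm.Jac N f :=
  MonoidHom.toAdditive (CommRing.Pic.mapRingHom (ringN8' N f))

theorem jacN8_jacN8' (f : A[X]) (x : Wt.Jac N f) : jacN8 N f (jacN8' N f x) = x := by
  have h : ∀ M : CommRing.Pic (Wt.NRing N f),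
      CommRing.Pic.mapRingHom (ringN8 N f) (CommRing.Pic.mapRingHom (ringN8' N f) M) = M := by
    intro M
    rw [CommRing.Pic.mapRingHom_mapRingHom, ringN8_comp, CommRing.Pic.mapRingHom_id_apply]
  exact congrArg Additive.ofMul (h x.toMul)

theorem jacN8'_jacN8 (f : A[X]) (x : Nrm.Jac N f) : jacN8' N f (jacN8 N f x) = x := by
  have h : ∀ M : CommRing.Pic (Nrm.NRing N f),
      CommRing.Pic.mapRingHom (ringN8' N f) (CommRing.Pic.mapRingHom (ringN8 N f) M) = M := by
    intro M
    rw [CommRing.Pic.mapRingHom_mapRingHom, ringN8'_comp, CommRing.Pic.mapRingHom_id_apply]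
  exact congrArg Additive.ofMul (h (Additive.toMul x))

theorem jacN8_jacMap (σ : A →+* B) {f : A[X]} {f' : B[X]} (h : f.map σ = f') (x : Nrm.Jac N f) :
    jacN8 N f' (Nrm.jacMap N σ h x) = Wt.jacMap N σ h (jacN8 N f x) := by
  have h : ∀ M : CommRing.Pic (Nrm.NRing N f),
      CommRing.Pic.mapRingHom (ringN8 N f') (CommRing.Pic.mapRingHom (Nrm.coordMap N σ h) M) =
        CommRing.Pic.mapRingHom (Wt.coordMap N σ h) (CommRing.Pic.mapRingHom (ringN8 N f) M) := by
    intro M
    rw [CommRing.Pic.mapRingHom_mapRingHom, CommRing.Pic.mapRingHom_mapRingHom, coordMap_compN8]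
  exact congrArg Additive.ofMul (h (Additive.toMul x))

end

section

variable {L : Type u} [Field L] (ℓ : ℕ) (f : L[X])

theorem jacN8_push {A B : Type u} [Field A] [Field B] [Algebra L A] [Algebra L B] (σ : A →ₐ[L] B)
    (x : Nrm.JacOver ℓ f A) :
    jacN8 ℓ (f.map (algebraMap L B)) (Nrm.push ℓ f σ x) =
      Wt.push ℓ f σ (jacN8 ℓ (f.map (algebraMap L A)) x) :=
  jacN8_jacMap ℓ (σ : A →+* B) _ x

variable {Ω : Type u} [Field Ω] [Algebra L Ω]

theorem isTateCocycleN8 {c : ℕ → (Ω ≃ₐ[L] Ω) → Nrm.JacOver ℓ f Ω} (hc : Nrm.IsTateCocycle ℓ f c) :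
    Wt.IsTateCocycle ℓ f fun n σ => jacN8 ℓ (f.map (algebraMap L Ω)) (c n σ) where
  zero σ := by rw [hc.zero, map_zero]
  smul n σ := by rw [← map_nsmul, hc.smul]
  cocycle n σ τ := by rw [hc.cocycle, map_add, jacN8_push]
  locallyConstant n := (hc.locallyConstant n).comp _

theorem isLocallyTrivialN8 {c : (Ω ≃ₐ[L] Ω) → Nrm.JacOver ℓ f Ω} (Lv : Type u) [Field Lv]
    [Algebra L Lv] (h : Nrm.IsLocallyTrivial ℓ f c Lv) :
    Wt.IsLocallyTrivial ℓ f (fun σ => jacN8 ℓ (f.map (algebraMap L Ω)) (c σ)) Lv := by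
  intro M _ _ _ _ _ j
  obtain ⟨Q, hQ⟩ := h M j
  refine ⟨jacN8 ℓ (f.map (algebraMap L M)) Q, fun g g' hg => ?_⟩
  rw [← jacN8_push, hQ g g' hg, map_sub, jacN8_push]

theorem isFixedByN8 {c : ℕ → (Ω ≃ₐ[L] Ω) → Nrm.JacOver ℓ f Ω} {γ : Ω ≃+* Ω}
    {hγ : (f.map (algebraMap L Ω)).map (γ : Ω →+* Ω) = f.map (algebraMap L Ω)}
    (h : Nrm.IsFixedBy ℓ f c γ hγ) :
    Wt.IsFixedBy ℓ f (fun n σ => jacN8 ℓ (f.map (algebraMap L Ω)) (c n σ)) γ hγ := by
  obtain ⟨m, hm, h⟩ := h
  refine ⟨m, hm, fun n => ?_⟩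
  obtain ⟨A, hA, h⟩ := h n
  refine ⟨jacN8 ℓ (f.map (algebraMap L Ω)) A, by rw [← map_nsmul, hA, map_zero], fun g g' hg => ?_⟩
  have h1 := congrArg (jacN8 ℓ (f.map (algebraMap L Ω))) (h g g' hg)
  rw [map_nsmul, map_sub, map_sub, jacN8_push, jacN8_jacMap] at h1
  exact h1

theorem isTrivialN8 {c : ℕ → (Ω ≃ₐ[L] Ω) → Nrm.JacOver ℓ f Ω}
    (h : Wt.IsTrivial ℓ f fun n σ => jacN8 ℓ (f.map (algebraMap L Ω)) (c n σ)) :
    Nrm.IsTrivial ℓ f c := by
  have hinj : Function.Injective (jacN8 ℓ (f.map (algebraMap L Ω))) :=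
    Function.LeftInverse.injective (jacN8'_jacN8 ℓ _)
  intro n
  obtain ⟨A, hA, h⟩ := h n
  obtain ⟨A', rfl⟩ : ∃ A', jacN8 ℓ (f.map (algebraMap L Ω)) A' = A := ⟨_, jacN8_jacN8' ℓ _ A⟩
  refine ⟨A', hinj (by rw [map_nsmul, hA, map_zero]), fun g => hinj ?_⟩
  rw [map_sub, jacN8_push]
  exact h g

end

theorem weightedPolyN8 (k F L : Type u) [Field k] [Field F] [Algebra k F] [Field L]
    [Algebra F[X] L] {ι : Type} [Fintype ι] (W : ι → ℕ) (α : ι → k[X]) :
    Nrm.weightedPoly k F L W α = Wt.weightedPoly k F L W α := rfl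

/-- The two forms of the property. -/
theorem tateClassesTorsionN8 {ℓ : ℕ} {k F : Type u} {L Ω : Type u} [Field k] [Field F]
    [Algebra k F] [Field L] [Algebra F[X] L] [IsFractionRing F[X] L] [Field Ω] [Algebra L Ω]
    {ι : Type} [Fintype ι] {W : ι → ℕ} {α : ι → k[X]} {k' : IntermediateField k F}
    (h : Wt.TateClassesTorsionW ℓ L Ω W α k') : Nrm.TateClassesTorsionW ℓ L Ω W α k' := by
  have key : ∀ f : L[X], (∀ c : ℕ → (Ω ≃ₐ[L] Ω) → Wt.JacOver ℓ f Ω, Wt.IsTateCocycle ℓ f c →
      (∀ (v : HeightOneSpectrum F[X]) (n : ℕ),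
        Wt.IsLocallyTrivial ℓ f (c n) (v.adicCompletion L)) →
      (∀ (γ : Ω ≃+* Ω) hγ, (∀ p : k'[X], γ (base k' F L Ω p) = base k' F L Ω p) →
        Wt.IsFixedBy ℓ f c γ hγ) → Wt.IsTrivial ℓ f fun n g => ℓ • c n g) →
      ∀ c : ℕ → (Ω ≃ₐ[L] Ω) → Nrm.JacOver ℓ f Ω, Nrm.IsTateCocycle ℓ f c →
      (∀ (v : HeightOneSpectrum F[X]) (n : ℕ),
        Nrm.IsLocallyTrivial ℓ f (c n) (v.adicCompletion L)) →
      (∀ (γ : Ω ≃+* Ω) hγ, (∀ p : k'[X], γ (base k' F L Ω p) = base k' F L Ω p) →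
        Nrm.IsFixedBy ℓ f c γ hγ) → Nrm.IsTrivial ℓ f fun n g => ℓ • c n g := by
    intro f h c hc hloc hfix
    refine isTrivialN8 ℓ f ?_
    have h1 := h _ (isTateCocycleN8 ℓ f hc)
      (fun v n => isLocallyTrivialN8 ℓ f (v.adicCompletion L) (hloc v n))
      (fun γ hγ hp => isFixedByN8 ℓ f (hfix γ hγ hp))
    have h2 : (fun n g => jacN8 ℓ (f.map (algebraMap L Ω)) (ℓ • c n g)) =
        fun n g => ℓ • jacN8 ℓ (f.map (algebraMap L Ω)) (c n g) :=
      funext fun n => funext fun g => map_nsmul _ _ _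
    rw [h2]
    exact h1
  exact key _ h

end Pool.Agent.Lib.MP_89bcae_ag

end

section

/-!
# Invariant classes in the `ℓ`-adic Selmer group of the Jacobian of `y ^ ℓ = ∏ (x - α_i(t))`

`k` is a field, `F` an algebraic closure of `k`, `L` the field of rational functions `F(t)` and `Ω`
an algebraic closure of `L`; the `α_i` are polynomials in `k[t]`.
-/

open Polynomial IsDedekindDomain

open scoped Classical

namespace Pool.Agent.Lib.MP_89bcae_ag.Superelliptic

universe u

/-- The polynomial `∏ (x - α_i(t))` in `x` over the field `L = F(t)`. -/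
noncomputable def arrangementPoly (k F L : Type u) [Field k] [Field F] [Algebra k F] [Field L]
    [Algebra F[X] L] {ι : Type} [Fintype ι] (α : ι → k[X]) : L[X] :=
  ∏ i, (X - C (base k F L L (α i)))

/-- Let `k'` be an extension of `k` in `F`. Every class of the `ℓ`-adic Selmer group over `L = F(t)`
of the Jacobian of the curve `y ^ ℓ = ∏ (x - α_i(t))` (a class in `H¹(L, T_ℓ J)` which is locally
trivial at all finite places, at all levels) fixed, up to torsion, by the automorphisms of `Ω` over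
`k'(t)` is a torsion class, and it is even killed by `ℓ`. -/
def TateClassesTorsion (ℓ : ℕ) {k F : Type u} (L Ω : Type u) [Field k] [Field F] [Algebra k F]
    [Field L] [Algebra F[X] L] [IsFractionRing F[X] L] [Field Ω] [Algebra L Ω] {ι : Type}
    [Fintype ι] (α : ι → k[X]) (k' : IntermediateField k F) : Prop :=
  ∀ c : ℕ → (Ω ≃ₐ[L] Ω) → JacOver ℓ (arrangementPoly k F L α) Ω,
    IsTateCocycle ℓ (arrangementPoly k F L α) c →
    (∀ (v : HeightOneSpectrum F[X]) (n : ℕ),
      IsLocallyTrivial ℓ (arrangementPoly k F L α) (c n) (v.adicCompletion L)) →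
    (∀ (γ : Ω ≃+* Ω) hγ, (∀ p : k'[X], γ (base k' F L Ω p) = base k' F L Ω p) →
      IsFixedBy ℓ (arrangementPoly k F L α) c γ hγ) →
    IsTrivial ℓ (arrangementPoly k F L α) fun n g => ℓ • c n g

/-- The set of the roots in `F` of the differences `α_i - α_j`. -/
def nodes (k F : Type u) [Field k] [Field F] [Algebra k F] {ι : Type} (α : ι → k[X]) : Set F :=
  {s | ∃ i j, i ≠ j ∧ aeval s (α i) = aeval s (α j)}

/-- The arithmetic condition on the roots of the differences `α_i - α_j`: let `K` be the field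
generated by the set `S` of these roots over `k`. Let `e_i : S → ℤ` be functions such that, for all
`s` in `S` and all `i`, the sum of the `e_j(s)` over the `j` with `α_j(s) = α_i(s)` is divisible by
`ℓ`, and let `κ` and the `c_i` be elements of `Kˣ`. If the element
`κ ^ e_i(s) (c_i / c_j) (α_i - α_j)'(s) ^ (-2 e_i(s)) ∏ (α_i(s) - α_l(s)) ^ (-e_i(s))
∏ (s - s') ^ (e_i(s') - e_j(s'))`, where `l` runs through the indices other than `i`, `j` and `s'`
through the elements of `S` other than `s`, is the `ℓ`-th power of an element of `K` for all `i ≠ j`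
and all roots `s` of `α_i - α_j`, then there are integers `b_i` with `e_i(s) ≡ b_j - b_i` modulo `ℓ`
for all `i ≠ j` and all roots `s` of `α_i - α_j`. -/
def ArrangementIndependent (ℓ : ℕ) (k F : Type u) [Field k] [Field F] [Algebra k F] {ι : Type}
    [Fintype ι] (α : ι → k[X]) : Prop :=
  ∀ (e : ι → F → ℤ) (κ : F) (c : ι → F), κ ≠ 0 →
    κ ∈ IntermediateField.adjoin k (nodes k F α) →
    (∀ i, c i ≠ 0 ∧ c i ∈ IntermediateField.adjoin k (nodes k F α)) →
    (∀ s ∈ nodes k F α, ∀ i,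
      (ℓ : ℤ) ∣ ∑ j ∈ Finset.univ.filter fun j => aeval s (α j) = aeval s (α i), e j s) →
    (∀ i j s, i ≠ j → aeval s (α i) = aeval s (α j) →
      ∃ w ∈ IntermediateField.adjoin k (nodes k F α),
        w ^ ℓ = κ ^ e i s * (c i / c j) * aeval s (derivative (α i - α j)) ^ (-2 * e i s) *
          (∏ l ∈ Finset.univ.filter fun l => l ≠ i ∧ l ≠ j,
            (aeval s (α i) - aeval s (α l)) ^ (-e i s)) *
          ∏ᶠ s' ∈ {s' ∈ nodes k F α | s' ≠ s}, (s - s') ^ (e i s' - e j s')) →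
    ∃ b : ι → ℤ, ∀ i j s, i ≠ j → aeval s (α i) = aeval s (α j) →
      (ℓ : ℤ) ∣ e i s - (b j - b i)

/-- The polynomials `a_i + b_i t`, where `a_i` is the value of `v` at the element `i` of the first
copy of the set of indices and `b_i` its value at the element `i` of the second copy. -/
noncomputable def integralLines {ι : Type} (v : ι ⊕ ι → ℤ) (i : ι) : ℚ[X] :=
  C (v (Sum.inl i) : ℚ) + C (v (Sum.inr i) : ℚ) * X

end Pool.Agent.Lib.MP_89bcae_ag.Superelliptic

end

section

/-!
# The arithmetic condition for arrangements with weights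
-/

open Polynomial IsDedekindDomain

open scoped Classical

namespace Pool.Agent.Lib.MP_89bcae_ag.Superelliptic

universe u

/-- The arithmetic condition on the roots of the differences `α_i - α_j` for the curve
`y ^ ℓ = ∏ (x - α_i) ^ (W_i)`: let `K` be the field generated by the set `S` of these roots over `k`.
Let `e_i : S → ℤ` be functions such that, for all `s` in `S` and all `i`, the sum of the `W_j e_j(s)`
over the `j` with `α_j(s) = α_i(s)` is divisible by `ℓ`, and let `κ` and the `c_i` be elements of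
`Kˣ`. If the element `κ ^ e_i(s) (c_i / c_j) ^ W_j (α_i - α_j)'(s) ^ (-(W_i + W_j) e_i(s))
∏ (α_i(s) - α_l(s)) ^ (-W_l e_i(s)) ∏ (s - s') ^ (W_j (e_i(s') - e_j(s')))`, where `l` runs through
the indices other than `i`, `j` and `s'` through the elements of `S` other than `s`, is the `ℓ`-th
power of an element of `K` for all `i ≠ j` and all roots `s` of `α_i - α_j`, then there are integers
`b_i` with `e_i(s) ≡ W_j (b_j - b_i)` modulo `ℓ` for all `i ≠ j` and all roots `s` of
`α_i - α_j`. -/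
def ArrangementIndependentW (ℓ : ℕ) (k F : Type u) [Field k] [Field F] [Algebra k F] {ι : Type}
    [Fintype ι] (W : ι → ℕ) (α : ι → k[X]) : Prop :=
  ∀ (e : ι → F → ℤ) (κ : F) (c : ι → F), κ ≠ 0 →
    κ ∈ IntermediateField.adjoin k (nodes k F α) →
    (∀ i, c i ≠ 0 ∧ c i ∈ IntermediateField.adjoin k (nodes k F α)) →
    (∀ s ∈ nodes k F α, ∀ i,
      (ℓ : ℤ) ∣ ∑ j ∈ Finset.univ.filter fun j => aeval s (α j) = aeval s (α i),
        (W j : ℤ) * e j s) →
    (∀ i j s, i ≠ j → aeval s (α i) = aeval s (α j) →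
      ∃ w ∈ IntermediateField.adjoin k (nodes k F α),
        w ^ ℓ = κ ^ e i s * (c i / c j) ^ W j *
          aeval s (derivative (α i - α j)) ^ (-((W i : ℤ) + W j) * e i s) *
          (∏ l ∈ Finset.univ.filter fun l => l ≠ i ∧ l ≠ j,
            (aeval s (α i) - aeval s (α l)) ^ (-(W l : ℤ) * e i s)) *
          ∏ᶠ s' ∈ {s' ∈ nodes k F α | s' ≠ s}, (s - s') ^ ((W j : ℤ) * (e i s' - e j s'))) →
    ∃ b : ι → ℤ, ∀ i j s, i ≠ j → aeval s (α i) = aeval s (α j) →
      (ℓ : ℤ) ∣ e i s - W j * (b j - b i)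

end Pool.Agent.Lib.MP_89bcae_ag.Superelliptic

end
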