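import Mathlib
import Pool.Agent.Lib.MP_89bcae_ag.Mk.K002
import Pool.Agent.Lib.MP_89bcae_ag.Mk.K022
import Pool.Agent.Lib.MP_89bcae_ag.Mk.K026
import Pool.Agent.Lib.MP_89bcae_ag.Mk.K028
import Pool.Agent.Lib.MP_89bcae_ag.Mk.K029
import Pool.Agent.Lib.MP_89bcae_ag.Mk.K031

namespace Pool.Agent.Lib.MP_89bcae_ag.Sup
end Pool.Agent.Lib.MP_89bcae_ag.Sup
namespace Pool.Agent.Lib.MP_89bcae_ag.Sup.Lns
end Pool.Agent.Lib.MP_89bcae_ag.Sup.Lns

section

/-!
# The formula for the exponents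
-/

open Polynomial IsDedekindDomain

open scoped Classical

namespace Pool.Agent.Lib.MP_89bcae_ag.Wt.Lns

open Pool.Agent.Lib.MP_89bcae_ag.Sup Pool.Agent.Lib.MP_89bcae_ag.Sup.Lns

universe u

set_option linter.unusedSectionVars false

private lemma ga8_sq {A B : Type u} [Field A] [Field B] {ℓ : ℕ} (σ : A →+* A) (j : A →+* B)
    (w : B →+* B) {f : A[X]} {f' : B[X]} (hσ : f.map σ = f) (hj : f.map j = f')
    (hw : f'.map w = f') (hc : ∀ x, j (σ x) = w (j x)) (Q : Jac ℓ f) :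
    jacMap ℓ j hj (jacMap ℓ σ hσ Q) = jacMap ℓ w hw (jacMap ℓ j hj Q) := by
  have h0 : j.comp σ = w.comp j := RingHom.ext hc
  have h1 : f.map (j.comp σ) = f' := by rw [← Polynomial.map_map, hσ, hj]
  have h2 : f.map (w.comp j) = f' := by rw [← Polynomial.map_map, hj, hw]
  rw [jacMap_jacMap ℓ σ j hσ hj h1, jacMap_jacMap ℓ j w hj hw h2]
  congr 1
  simp only [h0]

private lemma ga8_vJ {A B : Type u} [Field A] [Field B] {ℓ : ℕ} (j : A →+* B)
    {f : A[X]} {f' : B[X]} [IsGood ℓ f] [IsGood ℓ f'] (hj : f.map j = f') (ζ : A) (ζ' : B)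
    (hζ : ζ ^ ℓ = 1) (hζ' : ζ' ^ ℓ = 1) (h : j ζ = ζ') (Q : Jac ℓ f) :
    jacMap ℓ j hj (vJ ζ hζ Q) = vJ ζ' hζ' (jacMap ℓ j hj Q) := by
  subst h
  exact (vJ_jacMap j hj ζ hζ hζ' Q).symm

private lemma ga8_zJ {A B : Type u} [Field A] [Field B] {ℓ : ℕ} (j : A →+* B)
    {f : A[X]} {f' : B[X]} [IsGood ℓ f] [IsGood ℓ f'] (hj : f.map j = f') (ζ : A) (ζ' : B)
    (hζ : ζ ^ ℓ = 1) (hζ' : ζ' ^ ℓ = 1) (h : j ζ = ζ') (Q : Jac ℓ f) :
    jacMap ℓ j hj (zJ ζ hζ Q) = zJ ζ' hζ' (jacMap ℓ j hj Q) := by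
  subst h
  exact (zJ_jacMap j hj ζ hζ hζ' Q).symm

variable {ι : Type} [Fintype ι] [LinearOrder ι]
  {k F L Ω : Type u} [Field k] [Field F] [Algebra k F] [Field L] [Algebra F[X] L]
  [Field Ω] [Algebra L Ω] [IsAlgClosure k F] [IsFractionRing F[X] L] [IsAlgClosure L Ω]
  [Algebra F Ω] {ℓ : ℕ} {W : ι → ℕ} {α : ι → k[X]} {ζ : k}
  [hG : IsGood ℓ (cOver k F L Ω (arr W α))] {hζ : (zA F L Ω ζ) ^ ℓ = 1}

omit [Algebra F Ω] hG in
private lemma ga8_poly {M : Type u} [Field M] [Algebra L M] (j : Ω →ₐ[L] M) (γ : AutO k F L Ω)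
    (w : M ≃+* M) (hw : ∀ x, j ((γ : Ω ≃+* Ω) x) = w (j x)) (P : F[X]) :
    w (algebraMap L M (algebraMap F[X] L P)) =
      algebraMap L M (algebraMap F[X] L (P.map (resF γ : F →+* F))) := by
  rw [← j.commutes, ← hw, resF_spec, j.commutes]

omit [Algebra F Ω] hG in
private lemma ga8_map {M : Type u} [Field M] [Algebra L M] (j : Ω →ₐ[L] M) :
    (cOver k F L Ω (arr W α)).map (j : Ω →+* M) = cOver k F L M (arr W α) := by
  rw [Polynomial.map_map]
  congr 1
  exact j.comp_algebraMap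

omit [Algebra F Ω] hG in
private lemma ga8_sym {M : Type u} [Field M] [Algebra L M] (j : Ω →ₐ[L] M) (γ : AutO k F L Ω)
    (w : M ≃+* M) (hw : ∀ x, j ((γ : Ω ≃+* Ω) x) = w (j x)) :
    w ∈ Sym (cOver k F L M (arr W α)) := by
  rw [mem_Sym, ← ga8_map j, Polynomial.map_map]
  have h2 : (w : M →+* M).comp (j : Ω →+* M) =
      (j : Ω →+* M).comp (((γ : Ω ≃+* Ω)) : Ω →+* Ω) := by
    ext x
    exact (hw x).symm
  rw [h2, ← Polynomial.map_map]
  congr 1
  exact (toSym (arr W α) γ).2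

private theorem ga8_local (hF : CompatF F L Ω) (H : AHyp ℓ W α ζ) {c y : Coch ℓ k F L Ω (arr W α)}
    (hc : IsTateCocycle ℓ (curveL k F L (arr W α)) c)
    {e e' : ι → F → ℤ} (h : HasExp hζ c e)
    (h' : HasExp hζ y e') (γ : AutO k F L Ω) (hγ : ∀ s ∈ SS (aF F α), resF γ s = s)
    {z : ι → Ω} {b : Ω → ℤ} (hz : ∀ i, z i ^ ℓ = TP (aF F α) (tA F L Ω) (e i))
    (hzn : ∀ (σ : Ω ≃ₐ[L] Ω) (n : Ω → ℤ), (∀ i,
        σ (z i) = zA F L Ω ζ ^ n (rt k F L Ω α i) * z i) → vJ (zA F L Ω ζ) hζ (c 1 σ) = rm n)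
    {A : JacOver ℓ (curveL k F L (arr W α)) Ω} {q : Ω → ℤ}
    (hzq : ∀ i, (γ : Ω ≃+* Ω) (z i) = zA F L Ω ζ ^ q (rt k F L Ω α i) * z i)
    (hA : A - zJ (zA F L Ω ζ) hζ A = rm (fun θ => b θ - q θ))
    (hR : ∀ σ : Ω ≃ₐ[L] Ω, vJ (zA F L Ω ζ) hζ (y 1 σ) =
            symJ (toSym (arr W α) γ)
              (vJ (zA F L Ω ζ) hζ (vJ (zA F L Ω ζ) hζ (c 2 (conjG γ⁻¹ σ)))) -
              vJ (zA F L Ω ζ) hζ (vJ (zA F L Ω ζ) hζ (c 2 σ)) +
              (symJ (toSym (arr W α) (galA k F σ)) A - A))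
    {s : F}
    {K M : Type u} [Field K] [Algebra L K] [Field M] [Algebra K M] [IsAlgClosure K M]
    [Algebra L M] [IsScalarTower L K M] [Algebra F M] (hFM : CompatF F L M)
    {v : AbsoluteValue M ℝ}
    (hv : LocCtx v s (tA F L M)) (hinv : ∀ (σ : M ≃ₐ[K] M) x, v (σ x) = v x)
    (hval : ∀ x : K, x ≠ 0 → ∃ i : ℤ,
      v (algebraMap K M x) = v (tA F L M - algebraMap F M s) ^ i)
    (j : Ω →ₐ[L] M) (w : M ≃+* M) (φ : K ≃+* K)
    (hwφ : ∀ x, w (algebraMap K M x) = algebraMap K M (φ x))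
    (hvw : ∀ x, v (w x) = v x) (hjw : ∀ x, j ((γ : Ω ≃+* Ω) x) = w (j x))
    (Q₂ : JacOver ℓ (curveL k F L (arr W α)) M)
    (hQ₂ : ∀ (τ : M ≃ₐ[K] M) (τ' : Ω ≃ₐ[L] Ω), (∀ x, j (τ' x) = τ (j x)) →
      push ℓ (curveL k F L (arr W α)) j (c 2 τ') =
        push ℓ (curveL k F L (arr W α)) (τ.restrictScalars L : M →ₐ[L] M) Q₂ - Q₂)
    {i i' : ι} (hii : i ≠ i') (hs : (aF F α i).eval s = (aF F α i').eval s) (x : F)
    (hx : x ^ ℓ = nodeW W (aF F α) e i i' s) :
    resF γ x = algebraMap k F ζ ^ (W i * e' i s -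
      W i * W i' * (b (rt k F L Ω α i') - b (rt k F L Ω α i))) * x := by
  have hFc : IsAlgClosed F := IsAlgClosure.isAlgClosed k
  have hMc : IsAlgClosed M := IsAlgClosure.isAlgClosed K
  have hg : AGeom (aF F α) := H.geomF
  have hS : s ∈ SS (aF F α) := mem_SS_of_eq hg hii hs
  have hGM : IsGood ℓ (cOver k F L M (arr W α)) := isGood_arr H M
  have hjm := ga8_map (k := k) (F := F) (W := W) (α := α) j
  have hℓ0 : ℓ ≠ 0 := H.prime.ne_zero
  have hζM0 : IsPrimitiveRoot (zA F L M ζ) ℓ := zA_prim H.lhyp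
  have hζM : (zA F L M ζ) ^ ℓ = 1 := hζM0.pow_eq_one
  have hjz : (j : Ω →+* M) (zA F L Ω ζ) = zA F L M ζ := map_zA j ζ
  have hzF : zA F L M ζ = algebraMap F M (algebraMap k F ζ) := G13_zA hFM ζ
  have hζF : IsPrimitiveRoot (algebraMap k F ζ) ℓ :=
    H.zeta.map_of_injective (algebraMap k F).injective
  have hf : cOver k F L M (arr W α) = lineW W (aF F α) (tA F L M) := cOver_arr hFM
  have hfK : ((curveL k F L (arr W α)).map (algebraMap L K)).map (algebraMap K M) =
      cOver k F L M (arr W α) := by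
    rw [Polynomial.map_map, ← IsScalarTower.algebraMap_eq]
  have hFK : ∀ c : F, ∃ x : K, algebraMap K M x = algebraMap F M c := fun c =>
    ⟨algebraMap L K (algebraMap F[X] L (C c)), by
      rw [← IsScalarTower.algebraMap_apply, ← hFM]⟩
  have htK : ∃ x : K, algebraMap K M x = tA F L M :=
    ⟨algebraMap L K (algebraMap F[X] L X), by
      rw [← IsScalarTower.algebraMap_apply]
      rfl⟩
  have hΓ := LocCtx.locGrp hv hfK hinv hval hFK htK
  have hℓK : (ℓ : K) ≠ 0 := by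
    have h1 := natCast_L_ne F H (L := L)
    intro h0
    apply h1
    apply (algebraMap L K).injective
    rw [map_natCast, h0, map_zero]
  have hp : (ringExpChar K).Coprime ℓ := G13_coprime H.prime hℓK
  -- the automorphism `u`
  let u : Sym (cOver k F L M (arr W α)) := ⟨w, ga8_sym j γ w hjw⟩
  have hwP := ga8_poly j γ w hjw
  have huF : ∀ c : F, w (algebraMap F M c) = algebraMap F M (resF γ c) := by
    intro c
    rw [hFM, hwP, Polynomial.map_C, hFM]
    rfl
  have hut : w (tA F L M) = tA F L M := by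
    have := hwP X
    rwa [Polynomial.map_X] at this
  have hmapk : ∀ P : k[X], (P.map (algebraMap k F)).map (resF γ : F →+* F) =
      P.map (algebraMap k F) := by
    intro P
    rw [Polynomial.map_map]
    congr 1
    exact (resF γ : F →ₐ[k] F).comp_algebraMap
  have hwζ : w (zA F L M ζ) = zA F L M ζ := by
    rw [hzF, huF, AlgEquiv.commutes]
  -- conjugation by `w`
  have hwinv : ∀ x : K, w.symm (algebraMap K M x) = algebraMap K M (φ.symm x) := by
    intro x
    rw [RingEquiv.symm_apply_eq, hwφ, RingEquiv.apply_symm_apply]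
  let cw : (M ≃ₐ[K] M) → (M ≃ₐ[K] M) := fun τ =>
    AlgEquiv.ofRingEquiv (f := (w.trans (τ : M ≃+* M)).trans w.symm) (by
      intro x
      change w.symm (τ (w (algebraMap K M x))) = algebraMap K M x
      rw [hwφ, τ.commutes, hwinv, RingEquiv.symm_apply_apply])
  have hcw : ∀ τ x, cw τ x = w.symm (τ (w x)) := fun _ _ => rfl
  have hcwS : ∀ τ, u⁻¹ * galSym hfK τ * u = galSym hfK (cw τ) := by
    intro τ
    apply Subtype.ext
    ext x
    rfl
  have hτz : ∀ τ : M ≃ₐ[K] M, τ (zA F L M ζ) = zA F L M ζ := by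
    intro τ
    rw [hzF]
    obtain ⟨x, hx⟩ := hFK (algebraMap k F ζ)
    rw [← hx, τ.commutes]
  -- the class `Q`
  set Q : JacOver ℓ (curveL k F L (arr W α)) M :=
    vJ (zA F L M ζ) hζM (vJ (zA F L M ζ) hζM Q₂) with hQ
  have hQc : ∀ (τ : M ≃ₐ[K] M) (τ' : Ω ≃ₐ[L] Ω), (∀ x, j (τ' x) = τ (j x)) →
      push ℓ (curveL k F L (arr W α)) j
        (vJ (zA F L Ω ζ) hζ (vJ (zA F L Ω ζ) hζ (c 2 τ'))) = symJ (galSym hfK τ) Q - Q := by
    intro τ τ' hτ
    have hτζ : ((galSym hfK τ : Sym (cOver k F L M (arr W α))) : M ≃+* M) (zA F L M ζ) =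
        zA F L M ζ := hτz τ
    have h1 : push ℓ (curveL k F L (arr W α)) j
        (vJ (zA F L Ω ζ) hζ (vJ (zA F L Ω ζ) hζ (c 2 τ'))) =
        vJ (zA F L M ζ) hζM (vJ (zA F L M ζ) hζM
          (push ℓ (curveL k F L (arr W α)) j (c 2 τ'))) := by
      have e1 : ∀ X : JacOver ℓ (curveL k F L (arr W α)) Ω,
          jacMap ℓ (j : Ω →+* M) hjm (vJ (zA F L Ω ζ) hζ X) =
            vJ (zA F L M ζ) hζM (jacMap ℓ (j : Ω →+* M) hjm X) := fun X =>
        ga8_vJ (j : Ω →+* M) hjm (zA F L Ω ζ) (zA F L M ζ) hζ hζM hjz X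
      have e2 := e1 (vJ (zA F L Ω ζ) hζ (c 2 τ'))
      rw [e1 (c 2 τ')] at e2
      exact e2
    rw [h1, hQ₂ τ τ' hτ, vJ_sub, vJ_sub]
    have h2 : push ℓ (curveL k F L (arr W α)) (τ.restrictScalars L : M →ₐ[L] M) Q₂ =
        symJ (galSym hfK τ) Q₂ := rfl
    rw [h2, vJ_symJ _ _ _ hτζ, vJ_symJ _ _ _ hτζ]
  obtain ⟨z', hz', hzn'⟩ := h'.ex
  have hres : ∀ τ : M ≃ₐ[K] M, ∃ τ' : Ω ≃ₐ[L] Ω, ∀ x, j (τ' x) = τ (j x) := fun τ =>
    exists_restrict j (τ.restrictScalars L)
  have hji : Function.Injective j := (j : Ω →+* M).injective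
  -- the functions over `M`
  let qM : M → ℤ := Function.extend j q 0
  let bM : M → ℤ := Function.extend j b 0
  have hqM : ∀ x, qM (j x) = q x := fun x => hji.extend_apply _ _ x
  have hbM : ∀ x, bM (j x) = b x := fun x => hji.extend_apply _ _ x
  have hroot : ∀ i, aeval (tA F L M) (aF F α i) = j (rt k F L Ω α i) := by
    intro i
    rw [map_rt, rt_eq hFM]
  have hTP : ∀ m : F → ℤ, j (TP (aF F α) (tA F L Ω) m) =
      ∏ s' ∈ SS (aF F α), (tA F L M - algebraMap F M s') ^ m s' := fun m =>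
    map_TP hF hFM j m
  have hzJ : ∀ (x : M) (hx : x ^ ℓ = 1) (P : JacOver ℓ (curveL k F L (arr W α)) M),
      x = zA F L M ζ → zJ x hx P = zJ (zA F L M ζ) hζM P := by
    rintro _ _ _ rfl
    rfl
  -- exponents over `Ω` from exponents over `M`
  have hexp : ∀ (y : ι → Ω) (τ : M ≃ₐ[K] M) (τ' : Ω ≃ₐ[L] Ω), (∀ x, j (τ' x) = τ (j x)) →
      ∀ n : M → ℤ, (∀ i, ((galSym hfK τ : Sym (cOver k F L M (arr W α))) : M ≃+* M) (j (y i)) =
        algebraMap F M (algebraMap k F ζ) ^ n (aeval (tA F L M) (aF F α i)) * j (y i)) →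
      ∀ i, τ' (y i) = zA F L Ω ζ ^ (n ∘ j) (rt k F L Ω α i) * y i := by
    intro y τ τ' hτ' n hn i
    apply hji
    have h2 := hn i
    rw [galSym_apply, hroot i, ← hzF] at h2
    rw [hτ', h2, map_mul, map_zpow₀]
    congr 2
    exact hjz.symm
  have key := node_formula' (ℓ := ℓ) (p := ringExpChar K) H.prime H.cop hv hg hp hf hζF (by
      rw [← hzF]
      exact hζM0) hΓ u (resF γ : F ≃+* F) hvw huF hut (fun i => hmapk (α i))
    ((resF γ).commutes ζ)
    (by
      rintro _ ⟨τ, rfl⟩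
      exact ⟨cw τ, (hcwS τ).symm⟩)
    hγ e e' (h.node s hS) (h'.node s hS) (fun i => j (z i)) (fun i => j (z' i))
    (fun i => by rw [← map_pow, hz, hTP]) (fun i => by rw [← map_pow, hz', hTP]) Q
    (by
      rintro _ ⟨τ, rfl⟩ n hn
      obtain ⟨τ', hτ'⟩ := hres τ
      rw [← hQc τ τ' hτ', hzJ _ _ _ hzF.symm]
      have e1 := ga8_zJ (j : Ω →+* M) hjm (zA F L Ω ζ) (zA F L M ζ) hζ hζM hjz
        (vJ (zA F L Ω ζ) hζ (vJ (zA F L Ω ζ) hζ (c 2 τ')))
      have e2 : zJ (zA F L M ζ) hζM (push ℓ (curveL k F L (arr W α)) j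
          (vJ (zA F L Ω ζ) hζ (vJ (zA F L Ω ζ) hζ (c 2 τ')))) =
          push ℓ (curveL k F L (arr W α)) j (zJ (zA F L Ω ζ) hζ
            (vJ (zA F L Ω ζ) hζ (vJ (zA F L Ω ζ) hζ (c 2 τ')))) := e1.symm
      rw [e2, ← map_sub, level_two H hc, hzn τ' _ (hexp z τ τ' hτ' n hn)]
      exact jacMap_rm (j : Ω →+* M) hjm (n ∘ j) n (fun θ _ => rfl))
    bM qM
    (by
      intro i
      rw [hroot i, hqM, ← hzF]
      change w (j (z i)) = _
      rw [← hjw, hzq i, map_mul, map_zpow₀]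
      congr 2)
    (push ℓ (curveL k F L (arr W α)) j A)
    (by
      rw [hzJ _ _ _ hzF.symm]
      have e1 := ga8_zJ (j : Ω →+* M) hjm (zA F L Ω ζ) (zA F L M ζ) hζ hζM hjz A
      have e2 : zJ (zA F L M ζ) hζM (push ℓ (curveL k F L (arr W α)) j A) =
          push ℓ (curveL k F L (arr W α)) j (zJ (zA F L Ω ζ) hζ A) := e1.symm
      rw [e2, ← map_sub, hA]
      exact jacMap_rm (j : Ω →+* M) hjm (fun θ => b θ - q θ) (fun θ => bM θ - qM θ)
        (fun θ _ => by
          have h1 := hbM θ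
          have h2 := hqM θ
          change bM (j θ) - qM (j θ) = b θ - q θ
          rw [h1, h2]))
    (by
      rintro _ ⟨τ, rfl⟩ n hn
      obtain ⟨τ', hτ'⟩ := hres τ
      have hσ : ∀ x, j (conjG γ⁻¹ τ' x) = cw τ (j x) := by
        intro x
        rw [conjG_inv_apply, hcw, ← hjw, ← hτ']
        have h1 := hjw ((γ : Ω ≃+* Ω).symm (τ' ((γ : Ω ≃+* Ω) x)))
        rw [RingEquiv.apply_symm_apply] at h1
        rw [h1, RingEquiv.symm_apply_apply]
      have h1 := hR τ'
      rw [hzn' τ' _ (hexp z' τ τ' hτ' n hn)] at h1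
      have h2 := congrArg (push ℓ (curveL k F L (arr W α)) j) h1
      rw [map_add, map_sub, map_sub, hQc τ τ' hτ'] at h2
      have e0 : push ℓ (curveL k F L (arr W α)) j (rm (n ∘ j)) = rm n :=
        jacMap_rm (j : Ω →+* M) hjm (n ∘ j) n (fun θ _ => rfl)
      have e1 : push ℓ (curveL k F L (arr W α)) j (symJ (toSym (arr W α) γ)
          (vJ (zA F L Ω ζ) hζ (vJ (zA F L Ω ζ) hζ (c 2 (conjG γ⁻¹ τ'))))) =
          symJ u (push ℓ (curveL k F L (arr W α)) j
          (vJ (zA F L Ω ζ) hζ (vJ (zA F L Ω ζ) hζ (c 2 (conjG γ⁻¹ τ'))))) :=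
        ga8_sq _ (j : Ω →+* M) _ _ hjm _ hjw _
      have e2 : push ℓ (curveL k F L (arr W α)) j
          (symJ (toSym (arr W α) (galA k F τ')) A) =
          symJ (galSym hfK τ) (push ℓ (curveL k F L (arr W α)) j A) :=
        ga8_sq _ (j : Ω →+* M) _ _ hjm _ hτ' _
      rw [e0, e1, e2, hQc (cw τ) (conjG γ⁻¹ τ') hσ, ← hcwS τ] at h2
      exact h2)
    hii hs x hx
  rw [hroot i, hroot i', hbM, hbM] at key
  exact key

/-- The formula for the exponents of `y`, if `γ c - c - (1 - Z) y` is torsion. -/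
theorem exists_formula (hF : CompatF F L Ω) (H : AHyp ℓ W α ζ) {c y : Coch ℓ k F L Ω (arr W α)}
    (hc : IsTateCocycle ℓ (curveL k F L (arr W α)) c) (hLT : LTc c)
    (hy : IsTateCocycle ℓ (curveL k F L (arr W α)) y) {e e' : ι → F → ℤ} (h : HasExp hζ c e)
    (h' : HasExp hζ y e') (γ : AutO k F L Ω) (hγ : ∀ s ∈ SS (aF F α), resF γ s = s)
    (hrel : TTc (act γ c - c - (y - Lns.zC ζ hζ y))) :
    ∃ b : ι → ℤ, ∀ i i' : ι, i ≠ i' → ∀ s, (aF F α i).eval s = (aF F α i').eval s → ∀ x : F,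
      x ^ ℓ = nodeW W (aF F α) e i i' s →
        resF γ x = algebraMap k F ζ ^ (W i * e' i s - W i * W i' * (b i' - b i)) * x := by
  have hFc : IsAlgClosed F := IsAlgClosure.isAlgClosed k
  have hΩalg : Algebra.IsAlgebraic L Ω := IsAlgClosure.isAlgebraic
  obtain ⟨z, b, hz, hzn, hrl⟩ := exists_relation hF H hc hy h γ hγ hrel
  refine ⟨fun i => b (rt k F L Ω α i), fun i i' hii s hs x hx => ?_⟩
  have hUs : resF γ s = s := hγ s (mem_SS_of_eq H.geomF hii hs)
  have hφ : ∃ φ : (plc s).adicCompletion L ≃+* (plc s).adicCompletion L,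
      (∀ x : L, φ (algebraMap L _ x) = algebraMap L _ (coefL L (resF γ : F ≃+* F) x)) ∧
      ∀ x, Valued.v (φ x) = Valued.v x := by
    have h1 := exists_adic_equiv L (resF γ : F ≃+* F) s
    have h2 : (resF γ : F ≃+* F) s = s := hUs
    rwa [h2] at h1
  obtain ⟨φ, hφL, hφv⟩ := hφ
  let _ : Algebra F (AlgebraicClosure ((plc s).adicCompletion L)) :=
    ((algebraMap L (AlgebraicClosure ((plc s).adicCompletion L))).comp
      ((algebraMap F[X] L).comp (C : F →+* F[X]))).toAlgebra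
  have hFM : CompatF F L (AlgebraicClosure ((plc s).adicCompletion L)) := fun _ => rfl
  have hXL : ∀ P : F[X], algebraMap ((plc s).adicCompletion L)
      (AlgebraicClosure ((plc s).adicCompletion L))
      (algebraMap F[X] ((plc s).adicCompletion L) P) =
      algebraMap L (AlgebraicClosure ((plc s).adicCompletion L)) (algebraMap F[X] L P) := by
    intro P
    rw [IsScalarTower.algebraMap_apply F[X] L ((plc s).adicCompletion L),
      ← IsScalarTower.algebraMap_apply L ((plc s).adicCompletion L)]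
  obtain ⟨v, hv, hval, hinv, hsemi⟩ := exists_locCtx (L := L)
    (M := AlgebraicClosure ((plc s).adicCompletion L)) s (fun c => by rw [hXL, hFM])
  rw [hXL] at hv hval
  obtain ⟨w, hw⟩ := exists_extend_alg
    (M := AlgebraicClosure ((plc s).adicCompletion L)) φ
  have hwL : ∀ x : L, w (algebraMap L (AlgebraicClosure ((plc s).adicCompletion L)) x) =
      algebraMap L (AlgebraicClosure ((plc s).adicCompletion L))
        (coefL L (resF γ : F ≃+* F) x) := by
    intro x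
    rw [IsScalarTower.algebraMap_apply L ((plc s).adicCompletion L), hw, hφL,
      ← IsScalarTower.algebraMap_apply L ((plc s).adicCompletion L)]
  let j : Ω →ₐ[L] AlgebraicClosure ((plc s).adicCompletion L) := IsAlgClosed.lift
  obtain ⟨γ₀, hγ₀, hjγ₀⟩ := exists_compat j (coefL L (resF γ : F ≃+* F)) w hwL
  have hγP : ∀ P : F[X], γ₀ (algebraMap L Ω (algebraMap F[X] L P)) =
      algebraMap L Ω (algebraMap F[X] L (P.map (resF γ : F →+* F))) := by
    intro P
    rw [hγ₀, coefL_algebraMap]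
    rfl
  let γ' : AutO k F L Ω := ⟨γ₀, fun p => by
    have h1 := hγP (p.map (algebraMap k F))
    have h2 : (p.map (algebraMap k F)).map (resF γ : F →+* F) = p.map (algebraMap k F) := by
      rw [Polynomial.map_map]
      congr 1
      exact (resF γ : F →ₐ[k] F).comp_algebraMap
    rw [h2] at h1
    exact h1⟩
  have hres : resF γ' = resF γ := by
    ext x
    have h1 := resF_spec γ' (C x)
    have h2 := hγP (C x)
    have h3 : (γ' : Ω ≃+* Ω) (algebraMap L Ω (algebraMap F[X] L (C x))) =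
      γ₀ (algebraMap L Ω (algebraMap F[X] L (C x))) := rfl
    rw [h3, h2] at h1
    have h4 := IsFractionRing.injective F[X] L ((algebraMap L Ω).injective h1)
    rw [Polynomial.map_C, Polynomial.map_C] at h4
    exact (C_injective h4).symm
  obtain ⟨A, q, hq, hA, hR⟩ := hrl γ' hres
  obtain ⟨Q₂, hQ₂⟩ := hLT s 2 (AlgebraicClosure ((plc s).adicCompletion L)) j
  have key := ga8_local hF H hc h h' γ' (by rw [hres]; exact hγ) hz hzn hq hA hR
    (K := (plc s).adicCompletion L) hFM hv hinv hval j w φ hw (hsemi w φ hφv hw) hjγ₀ Q₂ hQ₂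
    hii hs x hx
  rwa [hres] at key

end Pool.Agent.Lib.MP_89bcae_ag.Wt.Lns

end

section

/-!
# The invariant Selmer classes are torsion
-/

open Polynomial IsDedekindDomain

open scoped Classical

namespace Pool.Agent.Lib.MP_89bcae_ag.Wt.Lns

open Pool.Agent.Lib.MP_89bcae_ag.Sup Pool.Agent.Lib.MP_89bcae_ag.Sup.Lns

universe u

set_option linter.unusedSectionVars false

/-- The product which appears in the condition. -/
noncomputable def nodeV {ι : Type} [Fintype ι] [LinearOrder ι] {F : Type u} [Field F]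
    (W : ι → ℕ) (a : ι → F[X]) (e : ι → F → ℤ) (i j : ι) (s : F) : F :=
  (derivative (a i - a j)).eval s ^ (-((W i : ℤ) + W j) * e i s) *
    (∏ l ∈ (Finset.univ.erase i).erase j, ((a i).eval s - (a l).eval s) ^ (-(W l : ℤ) * e i s)) *
      ∏ s' ∈ (SS a).erase s, (s - s') ^ ((W j : ℤ) * (e i s' - e j s'))

lemma nodeV_pow {ι : Type} [Fintype ι] [LinearOrder ι] {F : Type u} [Field F]
    (W : ι → ℕ) (a : ι → F[X]) (e : ι → F → ℤ) (i j : ι) (s : F) :
    nodeV W a e i j s ^ W i = nodeW W a e i j s := by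
  have hz : ∀ (y : F) (m : ℤ), (y ^ m) ^ W i = y ^ (m * W i) := fun y m => by
    rw [← zpow_natCast, ← zpow_mul]
  unfold nodeV nodeW
  rw [mul_pow, mul_pow, ← Finset.prod_pow, ← Finset.prod_pow]
  simp only [hz]
  congr 1
  · congr 1
    · congr 1
      ring
    · refine Finset.prod_congr rfl fun l _ => ?_
      congr 1
      ring
  · refine Finset.prod_congr rfl fun l _ => ?_
    congr 1
    ring

/-- The arithmetic condition. -/
def ArrIndep {ι : Type} [Fintype ι] [LinearOrder ι] (ℓ : ℕ) (k F : Type u) [Field k] [Field F]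
    [Algebra k F] (W : ι → ℕ) (α : ι → k[X]) : Prop :=
  ∀ (e : ι → F → ℤ) (κ : F) (c : ι → F), κ ≠ 0 →
    κ ∈ IntermediateField.adjoin k (SS (aF F α) : Set F) →
    (∀ i, c i ≠ 0 ∧ c i ∈ IntermediateField.adjoin k (SS (aF F α) : Set F)) →
    (∀ s ∈ SS (aF F α), ∀ r,
      (ℓ : ℤ) ∣ ∑ i ∈ Finset.univ.filter (fun i => (aF F α i).eval s = r), W i * e i s) →
    (∀ i j s, i ≠ j → (aF F α i).eval s = (aF F α j).eval s →
      ∃ w ∈ IntermediateField.adjoin k (SS (aF F α) : Set F),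
        w ^ ℓ = κ ^ e i s * (c i / c j) ^ W j * nodeV W (aF F α) e i j s) →
    ∃ b : ι → ℤ, ∀ i j s, i ≠ j → (aF F α i).eval s = (aF F α j).eval s →
      (ℓ : ℤ) ∣ e i s - W j * (b j - b i)

/-- Roots of exponent prime to `ℓ`. -/
private lemma exists_root_of_pow {K : Type u} {F : Type u} [Field K] [Field F] [Algebra K F]
    (E : IntermediateField K F) {ℓ m : ℕ} (hm : m.Coprime ℓ) {y w : F} (hy : y ∈ E) (hy0 : y ≠ 0)
    (hw : w ∈ E) (h : w ^ ℓ = y ^ m) : ∃ x ∈ E, x ^ ℓ = y := by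
  have hc : IsCoprime (m : ℤ) (ℓ : ℤ) := Nat.isCoprime_iff_coprime.2 hm
  obtain ⟨u, v, huv⟩ := hc
  refine ⟨w ^ u * y ^ v, E.mul_mem (zpow_mem hw _) (zpow_mem hy _), ?_⟩
  have h1 : (w ^ u) ^ ℓ = y ^ (u * m) := by
    rw [← zpow_natCast, ← zpow_mul, mul_comm u, zpow_mul, zpow_natCast, h, ← zpow_natCast,
      ← zpow_mul, mul_comm u]
  rw [mul_pow, h1, ← zpow_natCast (y ^ v), ← zpow_mul, ← zpow_add₀ hy0, huv, zpow_one]

variable {ι : Type} [Fintype ι] [LinearOrder ι]
  {k F L Ω : Type u} [Field k] [Field F] [Algebra k F] [Field L] [Algebra F[X] L]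
  [Field Ω] [Algebra L Ω] [IsAlgClosure k F] [IsFractionRing F[X] L] [IsAlgClosure L Ω]
  [Algebra F Ω] {ℓ : ℕ} {W : ι → ℕ} {α : ι → k[X]} {ζ : k}
  [hG : IsGood ℓ (cOver k F L Ω (arr W α))]

/-- The automorphisms whose restriction fixes the roots of the differences. -/
private def g19G : Subgroup (AutO k F L Ω) where
  carrier := {γ | ∀ s ∈ SS (aF F α), resF γ s = s}
  mul_mem' {γ γ'} h h' β hβ := by
    rw [map_mul, AlgEquiv.mul_apply, h' β hβ, h β hβ]
  one_mem' β _ := by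
    rw [map_one, AlgEquiv.one_apply]
  inv_mem' {γ} h β hβ := by
    rw [map_inv]
    have h1 := h β hβ
    calc (resF γ)⁻¹ β = (resF γ)⁻¹ (resF γ β) := by rw [h1]
      _ = ((resF γ)⁻¹ * resF γ) β := rfl
      _ = β := by rw [inv_mul_cancel, AlgEquiv.one_apply]

/-- The action on the cochains. -/
@[instance_reducible]
private noncomputable def g19A : DistribMulAction (g19G (L := L) (Ω := Ω) (F := F) (α := α))
    (Coch ℓ k F L Ω (arr W α)) where
  smul γ c := act (γ : AutO k F L Ω) c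
  one_smul c := act_one c
  mul_smul _ _ c := act_mul _ _ c
  smul_zero _ := act_zero _
  smul_add _ c c' := act_add _ c c'

/-- The exponents of the ramification points modulo `ℓ`, as a linear map. -/
private noncomputable def cutL (F : Type u) [Field F] [Algebra k F] (ℓ : ℕ) (W : ι → ℕ)
    (α : ι → k[X]) :
    (ι → ZMod ℓ) →ₗ[ZMod ℓ] (ι → {s // s ∈ SS (aF F α)} → ZMod ℓ) where
  toFun b i s := ∑ j ∈ Finset.univ.filter
    (fun j => (aF F α j).eval (s : F) = (aF F α i).eval (s : F)), (W j : ZMod ℓ) * (b j - b i)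
  map_add' b b' := by
    funext i s
    change ∑ j ∈ Finset.univ.filter
      (fun j => (aF F α j).eval (s : F) = (aF F α i).eval (s : F)),
        (W j : ZMod ℓ) * ((b j + b' j) - (b i + b' i)) = ∑ j ∈ Finset.univ.filter
      (fun j => (aF F α j).eval (s : F) = (aF F α i).eval (s : F)), (W j : ZMod ℓ) * (b j - b i) +
        ∑ j ∈ Finset.univ.filter
      (fun j => (aF F α j).eval (s : F) = (aF F α i).eval (s : F)), (W j : ZMod ℓ) * (b' j - b' i)
    rw [← Finset.sum_add_distrib]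
    refine Finset.sum_congr rfl fun j _ => ?_
    ring
  map_smul' r b := by
    funext i s
    change ∑ j ∈ Finset.univ.filter
      (fun j => (aF F α j).eval (s : F) = (aF F α i).eval (s : F)),
        (W j : ZMod ℓ) * (r * b j - r * b i) = r * ∑ j ∈ Finset.univ.filter
      (fun j => (aF F α j).eval (s : F) = (aF F α i).eval (s : F)), (W j : ZMod ℓ) * (b j - b i)
    rw [Finset.mul_sum]
    refine Finset.sum_congr rfl fun j _ => ?_
    ring

omit [LinearOrder ι] in
private lemma cutL_cast [LinearOrder ι] (b : ι → ℤ) (i : ι) (s : {s // s ∈ SS (aF F α)}) :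
    cutL F ℓ W α (fun i => (b i : ZMod ℓ)) i s = ((cutE W (aF F α) b i s : ℤ) : ZMod ℓ) := by
  unfold cutE
  change ∑ j ∈ Finset.univ.filter
    (fun j => (aF F α j).eval (s : F) = (aF F α i).eval (s : F)),
      (W j : ZMod ℓ) * ((b j : ZMod ℓ) - b i) = _
  push_cast
  rfl

/-- The class of the exponents. -/
private noncomputable def mkE (F : Type u) [Field F] [Algebra k F] (ℓ : ℕ) (W : ι → ℕ)
    (α : ι → k[X])
    (e : ι → F → ℤ) :
    (ι → {s // s ∈ SS (aF F α)} → ZMod ℓ) ⧸ LinearMap.range (cutL F ℓ W α) :=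
  Submodule.Quotient.mk fun i s => (e i s : ZMod ℓ)

private lemma mkE_eq_zero {e : ι → F → ℤ} (hℓ : ℓ ≠ 0) (h : mkE F ℓ W α e = 0) :
    ∃ b : ι → ℤ, ∀ s ∈ SS (aF F α), ∀ i, (ℓ : ℤ) ∣ e i s - cutE W (aF F α) b i s := by
  have : NeZero ℓ := ⟨hℓ⟩
  unfold mkE at h
  rw [Submodule.Quotient.mk_eq_zero, LinearMap.mem_range] at h
  obtain ⟨b, hb⟩ := h
  refine ⟨fun i => ((b i).val : ℤ), fun s hs i => ?_⟩
  have h1 := congrFun (congrFun hb i) ⟨s, hs⟩
  have h2 : b = fun i => ((((b i).val : ℤ)) : ZMod ℓ) := by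
    funext i
    push_cast
    rw [ZMod.natCast_zmod_val]
  rw [h2, cutL_cast] at h1
  rw [← ZMod.intCast_zmod_eq_zero_iff_dvd]
  push_cast at h1 ⊢
  rw [← h1, sub_self]

private lemma mkE_of_dvd {e : ι → F → ℤ} (b : ι → ℤ)
    (h : ∀ s ∈ SS (aF F α), ∀ i, (ℓ : ℤ) ∣ e i s - cutE W (aF F α) b i s) : mkE F ℓ W α e = 0 := by
  unfold mkE
  rw [Submodule.Quotient.mk_eq_zero, LinearMap.mem_range]
  refine ⟨fun i => (b i : ZMod ℓ), ?_⟩
  funext i s
  rw [cutL_cast]
  have h1 := h s s.2 i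
  rw [← ZMod.intCast_zmod_eq_zero_iff_dvd] at h1
  push_cast at h1
  exact (sub_eq_zero.1 h1).symm

private lemma mkE_add (e e' : ι → F → ℤ) :
    mkE F ℓ W α (fun i s => e i s + e' i s) = mkE F ℓ W α e + mkE F ℓ W α e' := by
  unfold mkE
  rw [← Submodule.Quotient.mk_add]
  congr 1
  funext i s
  push_cast
  rfl

private lemma mkE_neg (e : ι → F → ℤ) : mkE F ℓ W α (fun i s => -e i s) = -mkE F ℓ W α e := by
  unfold mkE
  rw [← Submodule.Quotient.mk_neg]
  congr 1
  funext i s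
  push_cast
  rfl

private lemma mkE_smul (hℓ : ℓ ≠ 0) (a : ZMod ℓ) (e : ι → F → ℤ) :
    mkE F ℓ W α (fun i s => (a.val : ℤ) * e i s) = a • mkE F ℓ W α e := by
  have : NeZero ℓ := ⟨hℓ⟩
  unfold mkE
  rw [← Submodule.Quotient.mk_smul]
  congr 1
  funext i s
  push_cast
  rw [ZMod.natCast_zmod_val]
  rfl

/-- For a root `s` of the differences, the sum of the exponents over each class is divisible by
`ℓ`: comparison with the exponents of the ramification points. -/
private lemma cut_of_nodes (hg : AGeom (aF F α)) {e : ι → F → ℤ}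
    (hnode : ∀ s ∈ SS (aF F α), ∀ r,
      (ℓ : ℤ) ∣ ∑ i ∈ Finset.univ.filter (fun i => (aF F α i).eval s = r), W i * e i s)
    (hcop : ∀ i, IsCoprime (ℓ : ℤ) (W i : ℤ)) {b : ι → ℤ}
    (hb : ∀ i j s, i ≠ j → (aF F α i).eval s = (aF F α j).eval s →
      (ℓ : ℤ) ∣ e i s - W j * (b j - b i)) :
    ∀ s ∈ SS (aF F α), ∀ i, (ℓ : ℤ) ∣ e i s - cutE W (aF F α) b i s := by
  intro s hs i
  by_cases h : ∃ j, i ≠ j ∧ (aF F α i).eval s = (aF F α j).eval s
  · obtain ⟨j, hij, hj⟩ := h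
    rw [cutE_node hg b hij hj]
    exact hb i j s hij hj
  · push Not at h
    rw [cutE_other b (fun j hj => (h j hj.symm).symm), sub_zero]
    have h1 := hnode s hs ((aF F α i).eval s)
    have h2 : Finset.univ.filter (fun j => (aF F α j).eval s = (aF F α i).eval s) = {i} := by
      ext j
      rw [Finset.mem_filter, Finset.mem_singleton]
      constructor
      · rintro ⟨-, hj⟩
        by_contra hne
        exact h j (Ne.symm hne) hj.symm
      · rintro rfl
        exact ⟨Finset.mem_univ _, rfl⟩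
    rw [h2, Finset.sum_singleton] at h1
    exact (hcop i).dvd_of_dvd_mul_left h1

private lemma nodeV_mem (W : ι → ℕ) (α : ι → k[X]) (e : ι → F → ℤ) {i j : ι} {s : F}
    (hs : s ∈ SS (aF F α)) :
    nodeV W (aF F α) e i j s ∈ IntermediateField.adjoin k (SS (aF F α) : Set F) := by
  set K := IntermediateField.adjoin k (SS (aF F α) : Set F) with hK
  have hSK : ∀ s ∈ SS (aF F α), s ∈ K := fun s hs =>
    IntermediateField.subset_adjoin k _ hs
  have heval : ∀ p : k[X], (p.map (algebraMap k F)).eval s ∈ K := by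
    intro p
    rw [eval_map_algebraMap]
    have h1 := aeval_algHom_apply K.val ⟨s, hSK s hs⟩ p
    change aeval s p = _ at h1
    rw [h1]
    exact (aeval (⟨s, hSK s hs⟩ : K) p).2
  have heval' : ∀ i, (aF F α i).eval s ∈ K := fun i => heval (α i)
  unfold nodeV
  refine K.mul_mem (K.mul_mem (zpow_mem ?_ _) (prod_mem fun l _ => zpow_mem
    (K.sub_mem (heval' _) (heval' _)) _)) (prod_mem fun s' hs' => zpow_mem
    (K.sub_mem (hSK s hs) (hSK s' (Finset.mem_of_mem_erase hs'))) _)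
  have h1 : derivative (aF F α i - aF F α j) =
      (derivative (α i - α j)).map (algebraMap k F) := by
    unfold aF
    rw [← Polynomial.map_sub, derivative_map]
  rw [h1]
  exact heval _

private lemma nodeV_ne (hg : AGeom (aF F α)) (e : ι → F → ℤ) {i j : ι} (hij : i ≠ j) {s : F}
    (hs : (aF F α i).eval s = (aF F α j).eval s) : nodeV W (aF F α) e i j s ≠ 0 := by
  unfold nodeV
  refine mul_ne_zero (mul_ne_zero (zpow_ne_zero _ (hg.simple hij hs))
    (Finset.prod_ne_zero_iff.2 fun l hl => zpow_ne_zero _ ?_))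
    (Finset.prod_ne_zero_iff.2 fun s' hs' => zpow_ne_zero _ ?_)
  · rw [Finset.mem_erase, Finset.mem_erase] at hl
    rw [sub_ne_zero]
    exact (hg.third hij hl.2.1 hl.1 hs).symm
  · rw [sub_ne_zero]
    exact (Finset.ne_of_mem_erase hs').symm

theorem TTc.of_WWc (hF : CompatF F L Ω) (H : AHyp ℓ W α ζ) (hI : ArrIndep ℓ k F W α)
    {c : Coch ℓ k F L Ω (arr W α)} (hc : WWc c) : TTc c := by
  by_contra hcT
  have hg : AGeom (aF F α) := H.geomF
  have hζ0 : IsPrimitiveRoot (zA F L Ω ζ) ℓ := zA_prim H.lhyp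
  have hζ : (zA F L Ω ζ) ^ ℓ = 1 := hζ0.pow_eq_one
  have : Fact ℓ.Prime := ⟨H.prime⟩
  have hℓ0 := H.prime.ne_zero
  let WS : AddSubgroup (Coch ℓ k F L Ω (arr W α)) :=
    { carrier := {c | WWc c}
      zero_mem' := TTc.zero.ww
      add_mem' := fun h h' => WWc.add h h'
      neg_mem' := fun h => WWc.neg h }
  let T : AddSubgroup (Coch ℓ k F L Ω (arr W α)) :=
    { carrier := {c | TTc c}
      zero_mem' := TTc.zero
      add_mem' := fun h h' => TTc.add h h'
      neg_mem' := fun h => TTc.neg h }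
  obtain ⟨c, hc, ε, ⟨e, he, heε⟩, hε, a, ha⟩ :=
    @exists_eigen_sub ℓ _ (Coch ℓ k F L Ω (arr W α))
    (g19G (L := L) (Ω := Ω) (F := F) (α := α))
    ((ι → {s // s ∈ SS (aF F α)} → ZMod ℓ) ⧸ LinearMap.range (cutL F ℓ W α)) _ _ g19A _ _ _
    WS T (Lns.zC ζ hζ)
    (fun c hc => hc.ww) (fun c hc => WWc.zC H.lhyp hc hζ) (fun c hc => TTc.zC hc ζ hζ)
    (by
      intro u c hc
      exact WWc.act (γ := (u : AutO k F L Ω)) hc)
    (by
      intro u c hc
      exact TTc.act (γ := (u : AutO k F L Ω)) hc)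
    (fun c hc => by
      rw [sum_zC_mem ζ hζ0 c]
      exact TTc.zero)
    (by
      intro u c hc
      change TTc (Lns.zC ζ hζ (Lns.act (u : AutO k F L Ω) c) -
        Lns.act (u : AutO k F L Ω) (Lns.zC ζ hζ c))
      rw [act_zC, sub_self]
      exact TTc.zero)
    (fun c hc hcT => TTc.of_sub_zC H.lhyp hζ hc.1 hcT)
    (fun c hc h => TTc.of_separated H.lhyp (torsRam hF H) hζ hc.1 (fun n => by
      obtain ⟨y, hy, hyT⟩ := h n
      exact ⟨y, hy.1, hyT⟩))
    (fun c ε => ∃ e : ι → F → ℤ, HasExp hζ c e ∧ ε = mkE F ℓ W α e)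
    (fun c hc => by
      obtain ⟨e, he⟩ := exists_hasExp (hζ := hζ) hF H hc.1 hc.2.1
      exact ⟨_, e, he, rfl⟩)
    (by
      rintro c hc c' hc' ε ε' ⟨e, he, rfl⟩ ⟨e', he', rfl⟩
      exact ⟨_, he.add hF H he', (mkE_add e e').symm⟩)
    (by
      rintro c hc ε ⟨e, he, rfl⟩
      exact ⟨_, he.neg hF H, (mkE_neg e).symm⟩)
    (by
      rintro c hc ε ⟨e, he, rfl⟩
      obtain ⟨b, hb⟩ := he.cut_of_TTc hF H hc
      exact mkE_of_dvd b hb)
    (by
      rintro c hc ε ⟨e, he, rfl⟩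
      exact ⟨e, he.zC, rfl⟩)
    (by
      rintro c hc ⟨e, he, h⟩
      obtain ⟨b, hb⟩ := mkE_eq_zero hℓ0 h.symm
      exact exists_division hF H hc he b hb)
    (by
      rintro u c hc ε ⟨e, he, rfl⟩
      exact ⟨e, he.act hF H _ u.2, rfl⟩)
    (by
      intro u c hc
      obtain ⟨M, hM, h⟩ := hc.2.2 (u : AutO k F L Ω)
      exact ⟨M, hM, h⟩)
    (fun h => hcT (h hc))
  set K := IntermediateField.adjoin k (SS (aF F α) : Set F) with hK
  have hSK : ∀ s ∈ SS (aF F α), s ∈ K := fun s hs =>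
    IntermediateField.subset_adjoin k _ hs
  -- the Kummer classes at the roots of the differences
  have hfin : Finite {q : ι × ι × {s // s ∈ SS (aF F α)} // q.1 ≠ q.2.1 ∧
      (aF F α q.1).eval (q.2.2 : F) = (aF F α q.2.1).eval (q.2.2 : F)} := inferInstance
  obtain ⟨κ, hκ, hκw⟩ := exists_kappa (k := k) (F := F) H.prime H.ne H.zeta K
    (T := {q : ι × ι × {s // s ∈ SS (aF F α)} // q.1 ≠ q.2.1 ∧
      (aF F α q.1).eval (q.2.2 : F) = (aF F α q.2.1).eval (q.2.2 : F)}) (R := Option ι)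
    (fun q => nodeW W (aF F α) e q.1.1 q.1.2.1 q.1.2.2)
    (fun q => by
      rw [← nodeV_pow]
      exact pow_ne_zero _ (nodeV_ne hg e q.2.1 q.2.2))
    (fun q => by
      rw [← nodeV_pow]
      exact pow_mem (nodeV_mem W α e q.1.2.2.2) _)
    (fun r q => r.elim (W q.1.1 * e q.1.1 q.1.2.2) fun l =>
      (W q.1.1 * W q.1.2.1 : ℤ) *
        ((if l = q.1.2.1 then 1 else 0) - (if l = q.1.1 then 1 else 0)))
    (by
      intro U hU
      obtain ⟨γ, rfl⟩ := resF_surjective (L := L) (Ω := Ω) U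
      have hγ : ∀ s ∈ SS (aF F α), resF γ s = s := fun s hs => hU s (hSK s hs)
      -- the element `y`
      have h1 : HasExp hζ (Lns.act γ c - c) (fun i s => e i s + -e i s) := by
        rw [sub_eq_add_neg]
        exact (he.act hF H γ hγ).add hF H (he.neg hF H)
      obtain ⟨y, hy, hyT⟩ := exists_division hF H ((WWc.act hc γ).sub hc) h1 0
        (fun s _ i => by
          have h2 : cutE W (aF F α) 0 i s = 0 := by
            unfold cutE
            exact Finset.sum_eq_zero fun j _ => by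
              change (W j : ℤ) * (0 - 0) = 0
              rw [sub_self, mul_zero]
          rw [add_neg_cancel, h2, sub_zero]
          exact dvd_zero _)
      obtain ⟨e', he'⟩ := exists_hasExp (hζ := hζ) hF H hy.1 hy.2.1
      have h2 := ha ⟨γ, hγ⟩ y hy (mkE F ℓ W α e') hyT ⟨e', he', rfl⟩
      rw [heε, ← mkE_smul hℓ0] at h2
      have h3 : mkE F ℓ W α (fun i s => e' i s + -(((a ⟨γ, hγ⟩).val : ℤ) * e i s)) = 0 := by
        rw [mkE_add, mkE_neg, h2]
        exact add_neg_cancel _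
      obtain ⟨b₁, hb₁⟩ := mkE_eq_zero hℓ0 h3
      obtain ⟨b₂, hb₂⟩ := exists_formula hF H hc.1 hc.2.1 hy.1 he he' γ hγ hyT
      refine ⟨fun r => r.elim ((a ⟨γ, hγ⟩).val : ℤ) fun l => b₁ l - b₂ l, ?_⟩
      rintro ⟨⟨i, j, s⟩, hij, hs⟩ x hx
      rw [hb₂ i j hij s hs x hx]
      congr 1
      rw [zpow_eq_iff hℓ0 (H.zeta.map_of_injective (algebraMap k F).injective),
        Fintype.sum_option]
      have h4 := hb₁ s s.2 i
      rw [cutE_node hg b₁ hij hs] at h4
      have h5 : ∑ l, (b₁ l - b₂ l) * ((W i * W j : ℤ) *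
          ((if l = j then 1 else 0) - (if l = i then 1 else 0))) =
          W i * W j * ((b₁ j - b₂ j) - (b₁ i - b₂ i)) := by
        have h7 : ∀ l, (b₁ l - b₂ l) * ((W i * W j : ℤ) *
            ((if l = j then 1 else 0) - (if l = i then 1 else 0))) =
            W i * W j * ((b₁ l - b₂ l) * ((if l = j then 1 else 0) - (if l = i then 1 else 0))) :=
          fun l => by ring
        rw [Finset.sum_congr rfl fun l _ => h7 l, ← Finset.mul_sum]
        congr 1
        simp only [mul_sub, mul_ite, mul_one, mul_zero, Finset.sum_sub_distrib,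
          Finset.sum_ite_eq', Finset.mem_univ, if_true]
      change (ℓ : ℤ) ∣ W i * e' i s - W i * W j * (b₂ j - b₂ i) -
        (((a ⟨γ, hγ⟩).val : ℤ) * (W i * e i s) +
        ∑ l, (b₁ l - b₂ l) * ((W i * W j : ℤ) *
          ((if l = j then 1 else 0) - (if l = i then 1 else 0))))
      rw [h5]
      have h6 : W i * e' i s - W i * W j * (b₂ j - b₂ i) -
          (((a ⟨γ, hγ⟩).val : ℤ) * (W i * e i s) +
          W i * W j * (b₁ j - b₂ j - (b₁ i - b₂ i))) =
          W i * (e' i s + -(((a ⟨γ, hγ⟩).val : ℤ) * e i s) - W j * (b₁ j - b₁ i)) := by ring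
      rw [h6]
      exact h4.mul_left _)
  obtain ⟨b, hb⟩ := hI e (κ none)⁻¹ (fun i => κ (some i)) (inv_ne_zero (hκ none).2)
    (K.inv_mem (hκ none).1) (fun i => ⟨(hκ (some i)).2, (hκ (some i)).1⟩) he.node
    (by
      intro i j s hij hs
      obtain ⟨w, hw, hwe⟩ := hκw ⟨⟨i, j, ⟨s, mem_SS_of_eq hg hij hs⟩⟩, hij, hs⟩
      have hyK : (κ none)⁻¹ ^ e i s * (κ (some i) / κ (some j)) ^ W j *
          nodeV W (aF F α) e i j s ∈ K :=
        K.mul_mem (K.mul_mem (zpow_mem (K.inv_mem (hκ none).1) _)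
          (pow_mem (K.div_mem (hκ (some i)).1 (hκ (some j)).1) _))
          (nodeV_mem W α e (mem_SS_of_eq hg hij hs))
      have hy0 : (κ none)⁻¹ ^ e i s * (κ (some i) / κ (some j)) ^ W j *
          nodeV W (aF F α) e i j s ≠ 0 :=
        mul_ne_zero (mul_ne_zero (zpow_ne_zero _ (inv_ne_zero (hκ none).2))
          (pow_ne_zero _ (div_ne_zero (hκ (some i)).2 (hκ (some j)).2))) (nodeV_ne hg e hij hs)
      refine exists_root_of_pow K (H.cop i) hyK hy0 hw ?_
      rw [hwe, Fintype.prod_option, mul_inv]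
      have h1 : ∏ l, κ (some l) ^ ((W i * W j : ℤ) *
          (((if l = j then 1 else 0) - (if l = i then 1 else 0) : ℤ))) =
          (κ (some j) / κ (some i)) ^ (W i * W j : ℤ) := by
        have h2 : ∀ l, κ (some l) ^ ((W i * W j : ℤ) *
            (((if l = j then 1 else 0) - (if l = i then 1 else 0) : ℤ))) =
            ((if l = j then κ (some l) else 1) / (if l = i then κ (some l) else 1)) ^
              (W i * W j : ℤ) := by
          intro l
          rw [mul_comm, zpow_mul]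
          congr 1
          rw [zpow_sub₀ (hκ (some l)).2]
          split_ifs <;> simp
        rw [Finset.prod_congr rfl fun l _ => h2 l, Finset.prod_zpow, Finset.prod_div_distrib,
          Finset.prod_ite_eq' , Finset.prod_ite_eq', if_pos (Finset.mem_univ _),
          if_pos (Finset.mem_univ _)]
      change nodeW W (aF F α) e i j s * ((κ none ^ (W i * e i s))⁻¹ *
        (∏ l, κ (some l) ^ ((W i * W j : ℤ) *
          (((if l = j then 1 else 0) - (if l = i then 1 else 0) : ℤ))))⁻¹) = _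
      rw [h1, ← nodeV_pow, mul_pow, mul_pow, mul_comm]
      congr 1
      congr 1
      · rw [← zpow_natCast, ← zpow_mul, inv_zpow, mul_comm (e i s)]
      · rw [← inv_zpow, inv_div, ← pow_mul, ← zpow_natCast]
        congr 1
        push_cast
        ring)
  apply hε
  rw [heε]
  exact mkE_of_dvd b (cut_of_nodes hg he.node H.copZ hb)

end Pool.Agent.Lib.MP_89bcae_ag.Wt.Lns

end

section

/-!
# The theorem for the curves `y ^ ℓ = ∏ (x - α_i(t))`
-/

open Polynomial IsDedekindDomain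

open scoped Classical

namespace Pool.Agent.Lib.MP_89bcae_ag.Wt.Lns

open Pool.Agent.Lib.MP_89bcae_ag.Sup Pool.Agent.Lib.MP_89bcae_ag.Sup.Lns

universe u

variable {ι : Type} [Fintype ι] [LinearOrder ι]

/-- The invariant Selmer classes are torsion. -/
theorem main {ℓ : ℕ} (k F L Ω : Type u) [Field k] [Field F] [Algebra k F] [IsAlgClosure k F]
    [Field L] [Algebra F[X] L] [IsFractionRing F[X] L] [Field Ω] [Algebra L Ω] [IsAlgClosure L Ω]
    (W : ι → ℕ) (α : ι → k[X]) (ζ : k) (H : AHyp ℓ W α ζ) (hI : ArrIndep ℓ k F W α)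
    (k' : IntermediateField k F) [FiniteDimensional k k']
    (c : ℕ → (Ω ≃ₐ[L] Ω) → JacOver ℓ (curveL k F L (arr W α)) Ω)
    (hc : IsTateCocycle ℓ (curveL k F L (arr W α)) c)
    (hloc : ∀ (v : HeightOneSpectrum F[X]) (n : ℕ),
      IsLocallyTrivial ℓ (curveL k F L (arr W α)) (c n) (v.adicCompletion L))
    (hfix : ∀ (γ : Ω ≃+* Ω) hγ, (∀ p : k'[X], γ (base k' F L Ω p) = base k' F L Ω p) →
      IsFixedBy ℓ (curveL k F L (arr W α)) c γ hγ) :
    IsTrivial ℓ (curveL k F L (arr W α)) fun n g => ℓ • c n g := by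
  letI : Algebra F Ω := ((algebraMap L Ω).comp ((algebraMap F[X] L).comp C)).toAlgebra
  have hF : CompatF F L Ω := fun c => rfl
  haveI : IsAlgClosed Ω := IsAlgClosure.isAlgClosed L
  haveI : IsGood ℓ (cOver k F L Ω (arr W α)) := isGood_arr H Ω
  have hζ0 : IsPrimitiveRoot (zA F L Ω ζ) ℓ := zA_prim H.lhyp
  have hζ : (zA F L Ω ζ) ^ ℓ = 1 := hζ0.pow_eq_one
  have hW : WWc (k := k) (F := F) (L := L) (Ω := Ω) (P := arr W α) c := by
    refine ⟨hc, fun a n => hloc (plc a) n, fun γ => ?_⟩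
    obtain ⟨M, hM, hMx⟩ := G20_exists_pow k' (resF γ)
    refine ⟨M, hM, TTc.of_isFixedBy H.lhyp hc (γ ^ M) (hfix _ _ fun p => ?_)⟩
    have h1 : base k' F L Ω p =
        algebraMap L Ω (algebraMap F[X] L (p.map (algebraMap k' F))) := rfl
    rw [h1, resF_spec, Polynomial.map_map]
    have h2 : ((resF (γ ^ M) : F ≃ₐ[k] F) : F →+* F).comp (algebraMap k' F) =
        algebraMap k' F := by
      refine RingHom.ext fun x => ?_
      rw [map_pow]
      exact hMx x
    rw [h2]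
  have hT : TTc (k := k) (F := F) (L := L) (Ω := Ω) (P := arr W α) c := TTc.of_WWc hF H hI hW
  -- `(1 - Z) c` is trivial, and `ℓ = (1 - Z) v`
  have h1 := (hT.sub_zC_trc (torsRam hF H) hζ).2
  intro n
  obtain ⟨A, hA, hA'⟩ := h1 n
  refine ⟨vJ (zA F L Ω ζ) hζ A, ?_, fun σ => ?_⟩
  · rw [← vJ_smul, hA]
    have h2 := vJ_smul (f := cOver k F L Ω (arr W α)) (zA F L Ω ζ) hζ 0 0
    rwa [zero_smul, zero_smul] at h2
  · rw [push_eq, ← vJ_symJ _ _ _ (zA_fixed ζ (galA k F σ)), ← vJ_sub]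
    have h2 := hA' σ
    rw [push_eq] at h2
    rw [← h2]
    change ℓ • c n σ = vJ (zA F L Ω ζ) hζ (c n σ - zJ (zA F L Ω ζ) hζ (c n σ))
    rw [vJ_sub, vJ_zJ]
    exact (vJ_sub_zJ (zA F L Ω ζ) hζ0 (c n σ)).symm

section

variable {k : Type u} (F L Ω : Type u) [Field k] [Field F] [Algebra k F] [IsAlgClosure k F]
  [Field L] [Algebra F[X] L] [IsFractionRing F[X] L] [Field Ω] [Algebra L Ω] [IsAlgClosure L Ω]

private lemma curveL_arr (W : ι → ℕ) (α : ι → k[X]) :
    curveL k F L (arr W α) = weightedPoly k F L W α := by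
  unfold curveL arr weightedPoly
  rw [Polynomial.map_prod]
  refine Finset.prod_congr rfl fun i _ => ?_
  rw [Polynomial.map_pow, Polynomial.map_sub, map_X, map_C]

private lemma mem_nodes {α : ι → k[X]} (hg : AGeom (aF F α)) {s : F} :
    s ∈ Superelliptic.nodes k F α ↔ s ∈ SS (aF F α) := by
  rw [mem_SS hg]
  unfold Superelliptic.nodes aF
  rw [Set.mem_ofPred_eq]
  simp only [eval_map_algebraMap]

/-- The two forms of the arithmetic condition. -/
private lemma indep_conv {W : ι → ℕ} {α : ι → k[X]} (hg : AGeom (aF F α)) {ℓ : ℕ}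
    (h : Superelliptic.ArrangementIndependentW ℓ k F W α) : ArrIndep ℓ k F W α := by
  have hS : (SS (aF F α) : Set F) = Superelliptic.nodes k F α := by
    ext s
    exact (mem_nodes F hg).symm
  intro e κ c hκ0 hκ hc hnode hw
  rw [hS] at hκ hc hw
  have hev : ∀ (i : ι) (s : F), (aF F α i).eval s = aeval s (α i) := by
    intro i s
    unfold aF
    rw [eval_map_algebraMap]
  obtain ⟨b, hb⟩ := h e κ c hκ0 hκ hc
    (by
      intro s hs i
      have h1 := hnode s ((mem_nodes F hg).1 hs) (aeval s (α i))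
      simp only [hev] at h1
      exact h1)
    (by
      intro i j s hij hs
      obtain ⟨w, hwK, hwe⟩ := hw i j s hij (by rw [hev, hev]; exact hs)
      refine ⟨w, hwK, ?_⟩
      rw [hwe]
      unfold nodeV
      have h1 : (derivative (aF F α i - aF F α j)).eval s =
          aeval s (derivative (α i - α j)) := by
        unfold aF
        rw [← Polynomial.map_sub, derivative_map, eval_map_algebraMap]
      have h2 : ∀ P : Finset ι, (∀ l, l ∈ P ↔ l ≠ i ∧ l ≠ j) →
          ∏ l ∈ P, (aeval s (α i) - aeval s (α l)) ^ (-(W l : ℤ) * e i s) =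
          ∏ l ∈ (Finset.univ.erase i).erase j,
            ((aF F α i).eval s - (aF F α l).eval s) ^ (-(W l : ℤ) * e i s) := by
        intro P hP
        refine Finset.prod_congr ?_ fun l _ => ?_
        · ext l
          rw [hP]
          simp only [Finset.mem_erase, Finset.mem_univ, and_true]
          exact and_comm
        · rw [hev, hev]
      have h3 : ∏ᶠ s' ∈ {s' ∈ Superelliptic.nodes k F α | s' ≠ s},
          (s - s') ^ ((W j : ℤ) * (e i s' - e j s')) =
          ∏ s' ∈ (SS (aF F α)).erase s, (s - s') ^ ((W j : ℤ) * (e i s' - e j s')) := by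
        have h4 : {s' ∈ Superelliptic.nodes k F α | s' ≠ s} =
            (((SS (aF F α)).erase s : Finset F) : Set F) := by
          ext s'
          rw [Finset.coe_erase, Set.mem_sdiff, Set.mem_singleton_iff, hS]
          exact Iff.rfl
        rw [h4, finprod_mem_coe_finset]
      rw [h1, h3, h2]
      · ring
      · intro l
        simp)
  refine ⟨b, fun i j s hij hs => hb i j s hij ?_⟩
  rw [hev, hev] at hs
  exact hs

/-- The theorem with the definitions of `DefsW45`. -/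
theorem arrangementW {ℓ : ℕ} (hℓ : ℓ.Prime) (hk : (ℓ : k) ≠ 0) {ζ : k}
    (hζ : IsPrimitiveRoot ζ ℓ) (W : ι → ℕ) (hW : ∀ i, (W i).Coprime ℓ)
    (hsum : (∑ i, W i).Coprime ℓ) (α : ι → k[X]) (hα : Superelliptic.IsArrangement α)
    (hI : Superelliptic.ArrangementIndependentW ℓ k F W α)
    (k' : IntermediateField k F) [FiniteDimensional k k'] :
    TateClassesTorsionW ℓ L Ω W α k' := by
  have H : AHyp ℓ W α ζ := ⟨hℓ, hk, hζ, hW, hsum, ⟨hα.separable, hα.natDegree_ne_zero⟩⟩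
  intro c hc hloc hfix
  have key : ∀ (f : L[X]) (hf : curveL k F L (arr W α) = f)
      (c : ℕ → (Ω ≃ₐ[L] Ω) → JacOver ℓ f Ω), IsTateCocycle ℓ f c →
      (∀ (v : HeightOneSpectrum F[X]) (n : ℕ),
        IsLocallyTrivial ℓ f (c n) (v.adicCompletion L)) →
      (∀ (γ : Ω ≃+* Ω) hγ, (∀ p : k'[X], γ (base k' F L Ω p) = base k' F L Ω p) →
        IsFixedBy ℓ f c γ hγ) →
      IsTrivial ℓ f fun n g => ℓ • c n g := by
    intro f hf
    subst hf
    intro c hc hloc hfix
    exact main k F L Ω W α ζ H (indep_conv F H.geomF hI) k' c hc hloc hfix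
  exact key _ (curveL_arr F L W α) c hc hloc hfix

end

end Pool.Agent.Lib.MP_89bcae_ag.Wt.Lns

end
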