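import Mathlib
import Pool.Agent.Lib.MP_89bcae_ag.Mk.K008
import Pool.Agent.Lib.MP_89bcae_ag.Mk.K031

section

namespace Pool.Agent.Lib.MP_89bcae_ag.Lr

variable {ι : Type} {ℓ : ℕ}

/-- From `GoodK` to `GoodR` with one more element `b`. Proof: let `κ, z, μ` satisfy the equations on
`insert b S` (`Finset.sum_insert hb`; the term `l = i` vanishes). For `i ∈ S`:
`∑_{l ∈ S} w_l (h_il - u_i) (κ_i - κ_l) + w_b (g_i - u_i) (κ_i - κ_b) = z κ_i + μ`, and at `b`:
`∑_{l ∈ S} w_l (g_l - y) (κ_b - κ_l) = z κ_b + μ`. Put `x = κ - κ_b` and subtract: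
`Kop w h u g (w b) S x i - y ∑ w_l x_l = z x_i` for `i ∈ S`. So `x = 0` on `S` by `hK`. -/
theorem goodR_insert [DecidableEq ι] {w : ι → ZMod ℓ} {h h' : ι → ι → ZMod ℓ}
    {g u u' : ι → ZMod ℓ} {S : Finset ι} {b : ι} (hb : b ∉ S) {y : ZMod ℓ}
    (hK : GoodK w h u g (w b) y S)
    (h1 : ∀ i ∈ S, ∀ l ∈ S, i ≠ l → h' i l = h i l) (h2 : ∀ i ∈ S, h' i b = g i)
    (h3 : ∀ i ∈ S, h' b i = g i) (h4 : ∀ i ∈ S, u' i = u i) (h5 : u' b = y) :
    GoodR w h' u' (insert b S) := by
  intro κ z μ hκ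
  have hbeq := hκ b (Finset.mem_insert_self b S)
  rw [Finset.sum_insert hb, sub_self, mul_zero, zero_add] at hbeq
  have hbeq2 : ∑ l ∈ S, w l * (g l - y) * (κ b - κ l) = z * κ b + μ := by
    rw [← hbeq]
    refine Finset.sum_congr rfl fun l hl => ?_
    rw [h3 l hl, h5]
  have hx : ∀ i ∈ S, (fun j => κ j - κ b) i = 0 := by
    apply hK (fun j => κ j - κ b) z
    intro i hi
    have hieq := hκ i (Finset.mem_insert_of_mem hi)
    rw [Finset.sum_insert hb, h2 i hi, h4 i hi] at hieq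
    have hieq2 : ∑ l ∈ S, w l * (h' i l - u i) * (κ i - κ l) =
        ∑ l ∈ S, w l * (h i l - u i) * (κ i - κ l) := by
      refine Finset.sum_congr rfl fun l hl => ?_
      by_cases hil : i = l
      · subst hil
        rw [sub_self, mul_zero, mul_zero]
      · rw [h1 i hi l hl hil]
    rw [hieq2] at hieq
    have e1 : ∑ l ∈ S, w l * (h i l - u i) * ((κ i - κ b) - (κ l - κ b)) =
        ∑ l ∈ S, w l * (h i l - u i) * (κ i - κ l) := by
      refine Finset.sum_congr rfl fun l _ => ?_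
      ring
    have e2 : ∑ l ∈ S, w l * g l * (κ l - κ b) - y * ∑ l ∈ S, w l * (κ l - κ b) =
        -∑ l ∈ S, w l * (g l - y) * (κ b - κ l) := by
      rw [Finset.mul_sum, ← Finset.sum_sub_distrib, ← Finset.sum_neg_distrib]
      refine Finset.sum_congr rfl fun l _ => ?_
      ring
    unfold Kop
    simp only [e1]
    linear_combination hieq + e2 - hbeq2
  intro i hi j hj
  have hall : ∀ i ∈ insert b S, κ i = κ b := by
    intro i hi
    rcases Finset.mem_insert.1 hi with h | h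
    · rw [h]
    · exact sub_eq_zero.1 (hx i h)
  rw [hall i hi, hall j hj]

end Pool.Agent.Lib.MP_89bcae_ag.Lr

end

section

namespace Pool.Agent.Lib.MP_89bcae_ag.Lr

variable {ι : Type} {ℓ : ℕ}

/-- One more element `b`, for `GoodT`. Proof: let `ε, f, z` satisfy the hypotheses on `insert b S`.
(a) For `i ≠ j` in `S` the term `l = b` of the sum is zero (`c' {i, j, b} = c {i, j} = c' {i, j}`; note
`{i, j, b} = {b, i, j}`), and the terms `l = i`, `l = j` are zero on both sides (`{i, j, i} = {i, j}` as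
finsets). So the hypotheses of `hT` hold on `S` and there is `b₀` with `ε i j = b₀ i - b₀ j` for `i ≠ j` in
`S`. (b) Then the left side of the equation for `i ≠ j` in `S` is `0` (for `l ≠ i, j` in `S` the sum
`ε i j + ε j l + ε l i` is `0`), so `z (b₀ i - b₀ j) + f i - f j = 0`: `z b₀ i + f i = m` for all `i ∈ S`
(`S` is not empty). (c) Put `κ i = ε b i + b₀ i` for `i ∈ S`. The equation for `b, i`: the terms `l = b`,
`l = i` are zero, for the other `l` in `S`, `c' {b, i, l} = c {i, l}`, `c' {b, i} = g i`,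
`ε b i + ε i l + ε l b = κ i - κ l`. So
`∑ w_l (c {i, l} - g i) (κ i - κ l) = z ε b i + f b - f i = z κ i + (f b - m)`, and `κ` is constant on `S`
by `hR`, `κ i = κ₀`. (d) Take `b₀` extended by `b ↦ κ₀` (`Function.update b₀ b κ₀`; on `S` it is `b₀`). -/
theorem goodT_insert [DecidableEq ι] {w : ι → ZMod ℓ} {c c' : Finset ι → ZMod ℓ}
    {g : ι → ZMod ℓ} {S : Finset ι} (hS : S.Nonempty) {b : ι} (hb : b ∉ S) (hT : GoodT w c S)
    (hR : GoodR w (fun i l => c {i, l}) g S)
    (h1 : ∀ i ∈ S, ∀ j ∈ S, ∀ l ∈ S, i ≠ j → j ≠ l → i ≠ l → c' {i, j, l} = c {i, j, l})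
    (h2 : ∀ i ∈ S, ∀ j ∈ S, i ≠ j → c' {i, j} = c {i, j})
    (h3 : ∀ i ∈ S, ∀ j ∈ S, i ≠ j → c' {b, i, j} = c {i, j})
    (h4 : ∀ i ∈ S, c' {b, i} = g i) :
    GoodT w c' (insert b S) := by
  intro ε f z hanti heq
  have hne : ∀ i ∈ S, b ≠ i := fun i hi h => hb (h ▸ hi)
  have e1 : ∀ i j : ι, ({i, j, i} : Finset ι) = {i, j} := by
    intro i j; ext x; simp only [Finset.mem_insert, Finset.mem_singleton]; tauto
  have e2 : ∀ i j : ι, ({i, j, j} : Finset ι) = {i, j} := by
    intro i j; ext x; simp only [Finset.mem_insert, Finset.mem_singleton]; tauto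
  have e3 : ∀ i j k : ι, ({i, j, k} : Finset ι) = {k, i, j} := by
    intro i j k; ext x; simp only [Finset.mem_insert, Finset.mem_singleton]; tauto
  have ha : ∀ i ∈ S, ∀ j ∈ S, i ≠ j → ∀ F : ι → ZMod ℓ,
      ∑ l ∈ insert b S, w l * (c' {i, j, l} - c' {i, j}) * F l =
        ∑ l ∈ S, w l * (c {i, j, l} - c {i, j}) * F l := by
    intro i hi j hj hij F
    rw [Finset.sum_insert hb, e3 i j b, h3 i hi j hj hij, h2 i hi j hj hij, sub_self, mul_zero,
      zero_mul, zero_add]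
    refine Finset.sum_congr rfl fun l hl => ?_
    by_cases hli : i = l
    · subst hli
      rw [e1 i j, h2 i hi j hj hij]
    · by_cases hlj : j = l
      · subst hlj
        rw [e2 i j, h2 i hi j hj hij]
      · rw [h1 i hi j hj l hl hij hlj hli]
  obtain ⟨b₀, hb₀⟩ := hT ε f z
    (fun i hi j hj hij => hanti i (Finset.mem_insert_of_mem hi) j (Finset.mem_insert_of_mem hj) hij)
    (fun i hi j hj hij => by
      rw [← ha i hi j hj hij (fun l => ε i j + ε j l + ε l i)]
      exact heq i (Finset.mem_insert_of_mem hi) j (Finset.mem_insert_of_mem hj) hij)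
  have hb2 : ∀ i ∈ S, ∀ j ∈ S, z * b₀ i + f i = z * b₀ j + f j := by
    intro i hi j hj
    by_cases hij : i = j
    · rw [hij]
    have h := heq i (Finset.mem_insert_of_mem hi) j (Finset.mem_insert_of_mem hj) hij
    rw [ha i hi j hj hij (fun l => ε i j + ε j l + ε l i)] at h
    have h0 : ∑ l ∈ S, w l * (c {i, j, l} - c {i, j}) * (ε i j + ε j l + ε l i) = 0 := by
      refine Finset.sum_eq_zero fun l hl => ?_
      by_cases hli : i = l
      · subst hli
        rw [e1 i j, sub_self, mul_zero, zero_mul]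
      · by_cases hlj : j = l
        · subst hlj
          rw [e2 i j, sub_self, mul_zero, zero_mul]
        · rw [hb₀ i hi j hj hij, hb₀ j hj l hl hlj, hb₀ l hl i hi (Ne.symm hli)]
          ring
    rw [h0, hb₀ i hi j hj hij] at h
    linear_combination -h
  obtain ⟨s, hs⟩ := hS
  have hκ := hR (fun i => ε b i + b₀ i) z (f b - (z * b₀ s + f s)) (by
    intro i hi
    have h := heq b (Finset.mem_insert_self b S) i (Finset.mem_insert_of_mem hi) (hne i hi)
    rw [Finset.sum_insert hb, e1 b i, sub_self, mul_zero, zero_mul, zero_add] at h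
    have h' : ∑ l ∈ S, w l * (c {i, l} - g i) * ((ε b i + b₀ i) - (ε b l + b₀ l)) =
        ∑ l ∈ S, w l * (c' {b, i, l} - c' {b, i}) * (ε b i + ε i l + ε l b) := by
      refine Finset.sum_congr rfl fun l hl => ?_
      by_cases hil : i = l
      · subst hil
        rw [e2 b i]
        ring
      · rw [h3 i hi l hl hil, h4 i hi, hb₀ i hi l hl hil,
          hanti b (Finset.mem_insert_self b S) l (Finset.mem_insert_of_mem hl) (hne l hl)]
        ring
    rw [h', h]
    have := hb2 i hi s hs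
    linear_combination -this)
  refine ⟨Function.update b₀ b (ε b s + b₀ s), ?_⟩
  intro i hi j hj hij
  rw [Finset.mem_insert] at hi hj
  rcases hi with rfl | hi
  · rcases hj with rfl | hj
    · exact absurd rfl hij
    · rw [Function.update_self, Function.update_of_ne (Ne.symm hij)]
      have := hκ j hj s hs
      linear_combination this
  · rcases hj with rfl | hj
    · rw [Function.update_self, Function.update_of_ne hij,
        hanti _ (Finset.mem_insert_self _ S) i (Finset.mem_insert_of_mem hi) (Ne.symm hij)]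
      have := hκ i hi s hs
      linear_combination -this
    · rw [Function.update_of_ne (hne i hi).symm, Function.update_of_ne (hne j hj).symm]
      exact hb₀ i hi j hj hij

end Pool.Agent.Lib.MP_89bcae_ag.Lr

end

section

namespace Pool.Agent.Lib.MP_89bcae_ag.Lr

variable {ι : Type} {ℓ : ℕ}

/-- Two more elements `b`, `b'` with the same weight `e`, for `GoodT`. Proof: let `ε, f, z` satisfy the
hypotheses on `insert b (insert b' S)`. (a) For `i ≠ j` in `S` the terms `l = b`, `l = b'` of the sum are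
zero, and the terms `l = i`, `l = j` are zero (`{i, j, i} = {i, j}` as finsets): `hT` gives `b₀` with
`ε i j = b₀ i - b₀ j` for `i ≠ j` in `S`. (b) Then the left side for `i ≠ j` in `S` is `0`, so
`z b₀ i + f i = m` for all `i ∈ S`. (c) Put `κ i = ε b i + b₀ i`, `κ' i = ε b' i + b₀ i`, `ρ = ε b b'`.
Equation for `b, i`: `∑_{l ∈ S} w_l (c {i, l} - g i) (κ i - κ l) + e (u i - g i) (κ i - κ' i - ρ) =
z κ i + (f b - m)`; for `b', i`: `∑ w_l (c {i, l} - g i) (κ' i - κ' l) + e (u i - g i) (κ' i - κ i + ρ) =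
z κ' i + (f b' - m)`; for `b, b'`: `∑_{l ∈ S} w_l (u l - y) (ρ + κ' l - κ l) = z ρ + f b - f b'`.
(d) The sum of the first two: `κ + κ'` is constant on `S` by `hR`. (e) The difference of the first two minus
the third: `x i = κ i - κ' i - ρ` satisfies `Kop w (c {·, ·}) g u (2 e) S x i - y ∑ w_l x_l = z x i`, so
`x = 0` on `S` by `hK`: `κ i - κ' i = ρ`. As `2 ≠ 0`, `κ = κ₀` and `κ' = κ₀'` are constant on `S`, with
`κ₀ - κ₀' = ρ`. (f) Take `b₀` extended by `b ↦ κ₀`, `b' ↦ κ₀'`. -/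
theorem goodT_insert₂ [DecidableEq ι] [Fact ℓ.Prime] (hℓ2 : ℓ ≠ 2) {w : ι → ZMod ℓ}
    {c c' : Finset ι → ZMod ℓ} {g u : ι → ZMod ℓ} {S : Finset ι} (hS : S.Nonempty) {b b' : ι}
    (hb : b ∉ S) (hb' : b' ∉ S) (hbb' : b ≠ b') {e y : ZMod ℓ} (hwb : w b = e) (hwb' : w b' = e)
    (hT : GoodT w c S) (hR : GoodR w (fun i l => c {i, l}) g S)
    (hK : GoodK w (fun i l => c {i, l}) g u (2 * e) y S)
    (h1 : ∀ i ∈ S, ∀ j ∈ S, ∀ l ∈ S, i ≠ j → j ≠ l → i ≠ l → c' {i, j, l} = c {i, j, l})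
    (h2 : ∀ i ∈ S, ∀ j ∈ S, i ≠ j → c' {i, j} = c {i, j})
    (h3 : ∀ i ∈ S, ∀ j ∈ S, i ≠ j → c' {b, i, j} = c {i, j})
    (h3' : ∀ i ∈ S, ∀ j ∈ S, i ≠ j → c' {b', i, j} = c {i, j})
    (h4 : ∀ i ∈ S, c' {b, i} = g i) (h4' : ∀ i ∈ S, c' {b', i} = g i)
    (h5 : ∀ i ∈ S, c' {b, b', i} = u i) (h6 : c' {b, b'} = y) :
    GoodT w c' (insert b (insert b' S)) := by
  intro ε f z hanti heq
  have hbS' : b ∉ insert b' S := by
    rw [Finset.mem_insert, not_or]; exact ⟨hbb', hb⟩
  have mS : ∀ i ∈ S, i ∈ insert b (insert b' S) := fun i hi =>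
    Finset.mem_insert_of_mem (Finset.mem_insert_of_mem hi)
  have mb : b ∈ insert b (insert b' S) := Finset.mem_insert_self _ _
  have mb' : b' ∈ insert b (insert b' S) := Finset.mem_insert_of_mem (Finset.mem_insert_self _ _)
  have nb : ∀ i ∈ S, b ≠ i := fun i hi h => hb (h ▸ hi)
  have nb' : ∀ i ∈ S, b' ≠ i := fun i hi h => hb' (h ▸ hi)
  have two_ne : (2 : ZMod ℓ) ≠ 0 := by
    intro h0
    have h1 : ((2 : ℕ) : ZMod ℓ) = 0 := by exact_mod_cast h0
    rw [ZMod.natCast_eq_zero_iff] at h1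
    exact hℓ2 ((Nat.prime_dvd_prime_iff_eq Fact.out Nat.prime_two).mp h1)
  -- finset identities
  have t1 : ∀ i j : ι, ({i, j, i} : Finset ι) = {i, j} := by
    intro i j; ext a; simp only [Finset.mem_insert, Finset.mem_singleton]; tauto
  have t2 : ∀ i j : ι, ({i, j, j} : Finset ι) = {i, j} := by
    intro i j; ext a; simp only [Finset.mem_insert, Finset.mem_singleton]; tauto
  have t3 : ∀ i j l : ι, ({i, j, l} : Finset ι) = {l, i, j} := by
    intro i j l; ext a; simp only [Finset.mem_insert, Finset.mem_singleton]; tauto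
  have t4 : ∀ i j l : ι, ({i, j, l} : Finset ι) = {i, l, j} := by
    intro i j l; ext a; simp only [Finset.mem_insert, Finset.mem_singleton]; tauto
  have t5 : ∀ i j l : ι, ({i, j, l} : Finset ι) = {j, i, l} := by
    intro i j l; ext a; simp only [Finset.mem_insert, Finset.mem_singleton]; tauto
  -- sums over the big set
  have split : ∀ F : ι → ZMod ℓ, ∑ l ∈ insert b (insert b' S), F l = F b + (F b' + ∑ l ∈ S, F l) := by
    intro F
    rw [Finset.sum_insert hbS', Finset.sum_insert hb']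
  -- (a)
  have hsub : ∀ i ∈ S, ∀ j ∈ S, i ≠ j → ∀ l ∈ S,
      w l * (c' {i, j, l} - c' {i, j}) * (ε i j + ε j l + ε l i) =
        w l * (c {i, j, l} - c {i, j}) * (ε i j + ε j l + ε l i) := by
    intro i hi j hj hij l hl
    rw [h2 i hi j hj hij]
    by_cases hil : i = l
    · subst hil
      rw [t1, h2 i hi j hj hij]
    · by_cases hjl : j = l
      · subst hjl
        rw [t2, h2 i hi j hj hij]
      · rw [h1 i hi j hj l hl hij hjl hil]
  have eqS : ∀ i ∈ S, ∀ j ∈ S, i ≠ j →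
      ∑ l ∈ S, w l * (c {i, j, l} - c {i, j}) * (ε i j + ε j l + ε l i) = z * ε i j + (f i - f j) := by
    intro i hi j hj hij
    have h := heq i (mS i hi) j (mS j hj) hij
    rw [split] at h
    rw [t3 i j b, h3 i hi j hj hij, t3 i j b', h3' i hi j hj hij, h2 i hi j hj hij] at h
    rw [sub_self, mul_zero, zero_mul, mul_zero, zero_mul, zero_add, zero_add] at h
    rw [← h]
    refine Finset.sum_congr rfl fun l hl => ?_
    have := hsub i hi j hj hij l hl
    rw [h2 i hi j hj hij] at this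
    exact this.symm
  obtain ⟨b₀, hb₀⟩ := hT ε f z (fun i hi j hj hij => hanti i (mS i hi) j (mS j hj) hij) eqS
  obtain ⟨i₀, hi₀⟩ := hS
  -- (b)
  have hm : ∀ i ∈ S, z * b₀ i + f i = z * b₀ i₀ + f i₀ := by
    intro i hi
    by_cases hii : i = i₀
    · rw [hii]
    · have h := eqS i hi i₀ hi₀ hii
      rw [hb₀ i hi i₀ hi₀ hii] at h
      have hz : ∑ l ∈ S, w l * (c {i, i₀, l} - c {i, i₀}) * (b₀ i - b₀ i₀ + ε i₀ l + ε l i) = 0 := by
        refine Finset.sum_eq_zero fun l hl => ?_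
        by_cases hil : i = l
        · subst hil
          rw [t1]; ring
        · by_cases hjl : i₀ = l
          · subst hjl
            rw [t2]; ring
          · rw [hb₀ i₀ hi₀ l hl hjl, hb₀ l hl i hi (Ne.symm hil)]; ring
      rw [hz] at h
      linear_combination -h
  set m := z * b₀ i₀ + f i₀ with hmdef
  have hanti_b : ∀ i ∈ S, ε i b = -ε b i := fun i hi => hanti b mb i (mS i hi) (nb i hi)
  have hanti_b' : ∀ i ∈ S, ε i b' = -ε b' i := fun i hi => hanti b' mb' i (mS i hi) (nb' i hi)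
  have hanti_bb : ε b' b = -ε b b' := hanti b mb b' mb' hbb'
  set κ : ι → ZMod ℓ := fun i => ε b i + b₀ i with hκ
  set κ' : ι → ZMod ℓ := fun i => ε b' i + b₀ i with hκ'
  -- (c)
  have E1 : ∀ i ∈ S, ∑ l ∈ S, w l * (c {i, l} - g i) * (κ i - κ l) +
      e * (u i - g i) * (κ i - κ' i - ε b b') = z * κ i + (f b - m) := by
    intro i hi
    have h := heq b mb i (mS i hi) (nb i hi)
    rw [split, t1, sub_self, mul_zero, zero_mul, zero_add, t4 b i b', h5 i hi, h4 i hi, hwb',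
      hanti_b' i hi, hanti_bb] at h
    have hs : ∑ l ∈ S, w l * (c' {b, i, l} - g i) * (ε b i + ε i l + ε l b) =
        ∑ l ∈ S, w l * (c {i, l} - g i) * (κ i - κ l) := by
      refine Finset.sum_congr rfl fun l hl => ?_
      by_cases hil : i = l
      · subst hil
        rw [t2, h4 i hi, sub_self, sub_self]; ring
      · rw [h3 i hi l hl hil, hanti_b l hl, hb₀ i hi l hl hil]
        simp only [hκ]; ring
    rw [hs] at h
    have hmi := hm i hi
    simp only [hκ, hκ'] at h ⊢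
    linear_combination h - hmi
  have E2 : ∀ i ∈ S, ∑ l ∈ S, w l * (c {i, l} - g i) * (κ' i - κ' l) +
      e * (u i - g i) * (κ' i - κ i + ε b b') = z * κ' i + (f b' - m) := by
    intro i hi
    have h := heq b' mb' i (mS i hi) (nb' i hi)
    rw [split, t3 b' i b, h5 i hi, h4' i hi, t1, h4' i hi, sub_self, mul_zero, zero_mul, zero_add, hwb,
      hanti_b i hi] at h
    have hs : ∑ l ∈ S, w l * (c' {b', i, l} - g i) * (ε b' i + ε i l + ε l b') =
        ∑ l ∈ S, w l * (c {i, l} - g i) * (κ' i - κ' l) := by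
      refine Finset.sum_congr rfl fun l hl => ?_
      by_cases hil : i = l
      · subst hil
        rw [t2, h4' i hi, sub_self, sub_self]; ring
      · rw [h3' i hi l hl hil, hanti_b' l hl, hb₀ i hi l hl hil]
        simp only [hκ']; ring
    rw [hs] at h
    have hmi := hm i hi
    simp only [hκ, hκ'] at h ⊢
    linear_combination h - hmi
  have E3 : ∑ l ∈ S, w l * (u l - y) * (ε b b' + κ' l - κ l) = z * ε b b' + (f b - f b') := by
    have h := heq b mb b' mb' hbb'
    rw [split, t1, sub_self, mul_zero, zero_mul, zero_add, t2, sub_self, mul_zero, zero_mul, zero_add, h6] at h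
    rw [← h]
    refine Finset.sum_congr rfl fun l hl => ?_
    rw [h5 l hl, hanti_b l hl]
    simp only [hκ, hκ']; ring
  -- (d)
  have hsum := hR (fun i => κ i + κ' i) z (f b + f b' - 2 * m) (by
    intro i hi
    have e : ∑ l ∈ S, w l * (c {i, l} - g i) * ((κ i + κ' i) - (κ l + κ' l)) =
        ∑ l ∈ S, w l * (c {i, l} - g i) * (κ i - κ l) + ∑ l ∈ S, w l * (c {i, l} - g i) * (κ' i - κ' l) := by
      rw [← Finset.sum_add_distrib]
      exact Finset.sum_congr rfl fun l hl => by ring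
    beta_reduce at e ⊢
    rw [e]
    linear_combination E1 i hi + E2 i hi)
  -- (e)
  have hx := hK (fun i => κ i - κ' i - ε b b') z (by
    intro i hi
    have e1 : ∑ l ∈ S, w l * (c {i, l} - g i) * ((κ i - κ' i - ε b b') - (κ l - κ' l - ε b b')) =
        ∑ l ∈ S, w l * (c {i, l} - g i) * (κ i - κ l) - ∑ l ∈ S, w l * (c {i, l} - g i) * (κ' i - κ' l) := by
      rw [← Finset.sum_sub_distrib]
      exact Finset.sum_congr rfl fun l hl => by ring
    have e2 : ∑ l ∈ S, w l * (u l - y) * (ε b b' + κ' l - κ l) =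
        y * ∑ l ∈ S, w l * (κ l - κ' l - ε b b') - ∑ l ∈ S, w l * u l * (κ l - κ' l - ε b b') := by
      rw [Finset.mul_sum, ← Finset.sum_sub_distrib]
      exact Finset.sum_congr rfl fun l hl => by ring
    rw [e2] at E3
    unfold Kop
    rw [e1]
    linear_combination E1 i hi - E2 i hi - E3)
  have hκc : ∀ i ∈ S, κ i = κ i₀ := by
    intro i hi
    have a1 := hsum i hi i₀ hi₀
    have a2 := hx i hi
    have a3 := hx i₀ hi₀
    beta_reduce at a1 a2 a3
    have a4 : 2 * (κ i - κ i₀) = 0 := by linear_combination a1 + a2 - a3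
    rcases mul_eq_zero.mp a4 with a5 | a5
    · exact absurd a5 two_ne
    · exact sub_eq_zero.mp a5
  have hκc' : ∀ i ∈ S, κ' i = κ' i₀ := by
    intro i hi
    have a1 := hsum i hi i₀ hi₀
    have a2 := hκc i hi
    beta_reduce at a1
    linear_combination a1 - a2
  have hρ : ε b b' = κ i₀ - κ' i₀ := by
    have a3 := hx i₀ hi₀
    beta_reduce at a3
    linear_combination -a3
  -- (f)
  refine ⟨fun i => if i = b then κ i₀ else if i = b' then κ' i₀ else b₀ i, ?_⟩
  have vb : (if b = b then κ i₀ else if b = b' then κ' i₀ else b₀ b) = κ i₀ := if_pos rfl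
  have vb' : (if b' = b then κ i₀ else if b' = b' then κ' i₀ else b₀ b') = κ' i₀ := by
    rw [if_neg (Ne.symm hbb'), if_pos rfl]
  have vS : ∀ i ∈ S, (if i = b then κ i₀ else if i = b' then κ' i₀ else b₀ i) = b₀ i := by
    intro i hi
    rw [if_neg (Ne.symm (nb i hi)), if_neg (Ne.symm (nb' i hi))]
  have qb : ∀ i ∈ S, ε b i = κ i₀ - b₀ i := by
    intro i hi
    have := hκc i hi
    rw [← this]; simp only [hκ]; ring
  have qb' : ∀ i ∈ S, ε b' i = κ' i₀ - b₀ i := by
    intro i hi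
    have := hκc' i hi
    rw [← this]; simp only [hκ']; ring
  intro i hi j hj hij
  beta_reduce
  rw [Finset.mem_insert, Finset.mem_insert] at hi hj
  rcases hi with rfl | rfl | hi
  · rcases hj with rfl | rfl | hj
    · exact absurd rfl hij
    · rw [vb, vb', hρ]
    · rw [vb, vS j hj, qb j hj]
  · rcases hj with rfl | rfl | hj
    · rw [vb, vb', hanti_bb, hρ]; ring
    · exact absurd rfl hij
    · rw [vb', vS j hj, qb' j hj]
  · rcases hj with rfl | rfl | hj
    · rw [vb, vS i hi, hanti_b i hi, qb i hi]; ring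
    · rw [vb', vS i hi, hanti_b' i hi, qb' i hi]; ring
    · rw [vS i hi, vS j hj, hb₀ i hi j hj hij]

end Pool.Agent.Lib.MP_89bcae_ag.Lr

end

section

namespace Pool.Agent.Lib.MP_89bcae_ag.Lr

variable {ι : Type} {ℓ : ℕ}

/-- The symbols are not all zero. Proof: let `s₁, s₂, s₃` be different elements of `S`
(`Finset.two_lt_card`). If all `c {i, j, l}` and `c {i, j}` for `i, j, l` different elements of `S` are
zero, then the hypotheses of `hT` hold for `f = 0`, `z = 0` and `ε` with `ε s₁ s₂ = 1`, `ε s₂ s₁ = -1`,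
zero elsewhere: in the sum the terms `l = i`, `l = j` are zero (`{i, j, i} = {i, j}`), the others by
assumption. So `ε i j = b i - b j`: `b s₁ = b s₃ = b s₂`, but `ε s₁ s₂ = 1`, a contradiction. -/
theorem GoodT.exists_ne [DecidableEq ι] [Fact ℓ.Prime] {w : ι → ZMod ℓ} {c : Finset ι → ZMod ℓ}
    {S : Finset ι} (hT : GoodT w c S) (hS : 3 ≤ S.card) :
    (∃ i ∈ S, ∃ j ∈ S, ∃ l ∈ S, i ≠ j ∧ j ≠ l ∧ i ≠ l ∧ c {i, j, l} ≠ 0) ∨
      ∃ i ∈ S, ∃ j ∈ S, i ≠ j ∧ c {i, j} ≠ 0 := by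
  by_contra hcon
  push Not at hcon
  obtain ⟨h1, h2⟩ := hcon
  obtain ⟨s1, m1, s2, m2, s3, m3, n12, n13, n23⟩ := Finset.two_lt_card.1 (show 2 < S.card by omega)
  obtain ⟨b, hb⟩ := hT (fun i j => if i = s1 ∧ j = s2 then 1 else if i = s2 ∧ j = s1 then -1 else 0)
    (fun _ => 0) 0 (by
      intro i _ j _ hij
      by_cases a1 : i = s1 ∧ j = s2
      · obtain ⟨rfl, rfl⟩ := a1
        simp [hij, hij.symm]
      · by_cases a2 : i = s2 ∧ j = s1
        · obtain ⟨rfl, rfl⟩ := a2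
          simp [hij, hij.symm]
        · have a3 : ¬ (j = s1 ∧ i = s2) := fun h => a2 ⟨h.2, h.1⟩
          have a4 : ¬ (j = s2 ∧ i = s1) := fun h => a1 ⟨h.2, h.1⟩
          simp only [if_neg a1, if_neg a2, if_neg a3, if_neg a4, neg_zero]) (by
      intro i hi j hj hij
      rw [zero_mul, sub_zero, add_zero]
      apply Finset.sum_eq_zero
      intro l hl
      have h0 : c {i, j, l} - c {i, j} = 0 := by
        by_cases a1 : l = i
        · subst a1
          have : ({l, j, l} : Finset ι) = {l, j} := by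
            ext x
            simp only [Finset.mem_insert, Finset.mem_singleton]
            tauto
          rw [this, sub_self]
        · by_cases a2 : l = j
          · subst a2
            have : ({i, l, l} : Finset ι) = {i, l} := by
              ext x
              simp only [Finset.mem_insert, Finset.mem_singleton]
              tauto
            rw [this, sub_self]
          · rw [h1 i hi j hj l hl hij (Ne.symm a2) (Ne.symm a1), h2 i hi j hj hij, sub_zero]
      rw [h0, mul_zero, zero_mul])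
  have e1 := hb s1 m1 s2 m2 n12
  have e2 := hb s1 m1 s3 m3 n13
  have e3 := hb s2 m2 s3 m3 n23
  have f2 : ¬ (s1 = s1 ∧ s3 = s2) := fun h => n23 h.2.symm
  have f2' : ¬ (s1 = s2 ∧ s3 = s1) := fun h => n12 h.1
  have f3 : ¬ (s2 = s1 ∧ s3 = s2) := fun h => n12 h.1.symm
  have f3' : ¬ (s2 = s2 ∧ s3 = s1) := fun h => n13 h.2.symm
  rw [if_pos ⟨rfl, rfl⟩] at e1
  rw [if_neg f2, if_neg f2'] at e2
  rw [if_neg f3, if_neg f3'] at e3
  have e4 : (1 : ZMod ℓ) = 0 := by
    rw [e1]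
    have : b s1 - b s2 = (b s1 - b s3) - (b s2 - b s3) := by ring
    rw [this, ← e2, ← e3, sub_zero]
  exact one_ne_zero e4

end Pool.Agent.Lib.MP_89bcae_ag.Lr

end

section

namespace Pool.Agent.Lib.MP_89bcae_ag.Lr

variable {ι : Type} {ℓ : ℕ}

theorem pencil_aux_h20 {w : ι → ZMod ℓ} {h : ι → ι → ZMod ℓ} {P Q : ι → ZMod ℓ} {ω : ZMod ℓ}
    {S : Finset ι} [Fact ℓ.Prime] (hh : ∀ i ∈ S, ∀ l ∈ S, h i l = h l i)
    (hω : ω ≠ 0) (hs : ∑ l ∈ S, w l + ω ≠ 0) (x x' : ι → ZMod ℓ) (z s s' : ZMod ℓ)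
    (hx : ∀ i ∈ S, Kop w h P Q ω S x i = z * x i + s)
    (hx' : ∀ i ∈ S, Kop w h P Q ω S x' i = z * x' i + s') :
    s * ∑ l ∈ S, w l * x' l = s' * ∑ l ∈ S, w l * x l := by
  have key := form_symm (P := P) (Q := Q) hh hs x x'
  have e1 : ∑ i ∈ S, w i * Kop w h P Q ω S x i * x' i =
      z * ∑ i ∈ S, w i * x i * x' i + s * ∑ i ∈ S, w i * x' i := by
    rw [Finset.mul_sum, Finset.mul_sum, ← Finset.sum_add_distrib]
    refine Finset.sum_congr rfl fun i hi => ?_
    rw [hx i hi]; ring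
  have e2 : ∑ i ∈ S, w i * Kop w h P Q ω S x i = z * ∑ i ∈ S, w i * x i + s * ∑ i ∈ S, w i := by
    rw [Finset.mul_sum, Finset.mul_sum, ← Finset.sum_add_distrib]
    refine Finset.sum_congr rfl fun i hi => ?_
    rw [hx i hi]; ring
  have e3 : ∑ i ∈ S, w i * x i * Kop w h P Q ω S x' i =
      z * ∑ i ∈ S, w i * x i * x' i + s' * ∑ i ∈ S, w i * x i := by
    rw [Finset.mul_sum, Finset.mul_sum, ← Finset.sum_add_distrib]
    refine Finset.sum_congr rfl fun i hi => ?_
    rw [hx' i hi]; ring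
  have e4 : ∑ i ∈ S, w i * Kop w h P Q ω S x' i = z * ∑ i ∈ S, w i * x' i + s' * ∑ i ∈ S, w i := by
    rw [Finset.mul_sum, Finset.mul_sum, ← Finset.sum_add_distrib]
    refine Finset.sum_congr rfl fun i hi => ?_
    rw [hx' i hi]; ring
  rw [e1, e2, e3, e4] at key
  set A := ∑ i ∈ S, w i * x i * x' i
  set X := ∑ i ∈ S, w i * x i
  set X' := ∑ i ∈ S, w i * x' i
  set W := ∑ l ∈ S, w l
  have h1 : ω * (s * X' - s' * X) = 0 := by
    have h2 : (W + ω) * ((z * A + s * X') - (z * X + s * W) * X' / (W + ω)) =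
        (W + ω) * ((z * A + s' * X) - X * (z * X' + s' * W) / (W + ω)) := by rw [key]
    rw [mul_sub, mul_div_cancel₀ _ hs, mul_sub, mul_div_cancel₀ _ hs] at h2
    linear_combination h2
  rcases mul_eq_zero.mp h1 with h2 | h2
  · exact absurd h2 hω
  · exact sub_eq_zero.mp h2

/-- **The pencil lemma.** Some `y` is good. Proof: let `σ(x) = ∑ w_l x_l`, `u` the constant function `1`,
`B` the symmetric form of `form_symm`, `B(x, u) = c σ(x)` with `c = ω / (W + ω) ≠ 0`
(`∑ w_i x_i - σ(x) W / (W + ω)`). For `z : ZMod ℓ` call `y` bad at `z` if there is `x` not zero on `S` with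
`Kop x i = z x_i + y σ(x)` for all `i ∈ S` (that is the failure of `GoodK`). By `h1`, `σ(x) ≠ 0` for such
`x` (otherwise `Kop x = z x` on `S`). (a) For each `z` there is at most one bad `y`: for `x, y` and `x', y'`
(same `z`), `form_symm` gives `z B(x, x') + y σ(x) c σ(x') = z B(x, x') + y' σ(x') c σ(x)`, so `y = y'`.
(b) For the `z₀` of `h2` there is no bad `y`: with the `x₀, t` of `h2` (`σ(x₀) = 0`; `t ≠ 0` by `h1`) and a
bad `y, x`: `B(Kop x, x₀) = z₀ B(x, x₀) + y σ(x) c σ(x₀) = z₀ B(x, x₀)` and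
`B(x, Kop x₀) = z₀ B(x, x₀) + t c σ(x)`, so `t c σ(x) = 0`, a contradiction. (c) If all `y` were bad, choose
`Z y` with `y` bad at `Z y`: `Z` is injective by (a), so surjective (`Finite.injective_iff_surjective`), but
`z₀` is not in the image by (b). -/
theorem exists_goodK {w : ι → ZMod ℓ} {h : ι → ι → ZMod ℓ} {P Q : ι → ZMod ℓ} {ω : ZMod ℓ}
    {S : Finset ι} [Fact ℓ.Prime] (hh : ∀ i ∈ S, ∀ l ∈ S, h i l = h l i)
    (hω : ω ≠ 0) (hs : ∑ l ∈ S, w l + ω ≠ 0)
    (h1 : ∀ (x : ι → ZMod ℓ) (z : ZMod ℓ), ∑ l ∈ S, w l * x l = 0 →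
      (∀ i ∈ S, Kop w h P Q ω S x i = z * x i) → ∀ i ∈ S, x i = 0)
    (h2 : ∃ (x : ι → ZMod ℓ) (z t : ZMod ℓ), (∃ i ∈ S, x i ≠ 0) ∧ ∑ l ∈ S, w l * x l = 0 ∧
      ∀ i ∈ S, Kop w h P Q ω S x i = z * x i + t) :
    ∃ y, GoodK w h P Q ω y S := by
  by_contra hcon
  have hbad : ∀ y : ZMod ℓ, ∃ (x : ι → ZMod ℓ) (z : ZMod ℓ),
      (∀ i ∈ S, Kop w h P Q ω S x i = z * x i + y * ∑ l ∈ S, w l * x l) ∧ ∑ l ∈ S, w l * x l ≠ 0 := by
    intro y
    have hy : ¬ GoodK w h P Q ω y S := fun hy => hcon ⟨y, hy⟩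
    unfold GoodK at hy
    push Not at hy
    obtain ⟨x, z, hx, i, hi, hxi⟩ := hy
    have hx' : ∀ i ∈ S, Kop w h P Q ω S x i = z * x i + y * ∑ l ∈ S, w l * x l := fun i hi => by
      rw [← hx i hi]; ring
    refine ⟨x, z, hx', fun h0 => hxi (h1 x z h0 (fun i hi => ?_) i hi)⟩
    rw [hx' i hi, h0, mul_zero, add_zero]
  choose X Z hXZ hX0 using hbad
  have hinj : Function.Injective Z := by
    intro y y' hyy
    have h3 := hXZ y'
    rw [← hyy] at h3
    have h4 := pencil_aux_h20 hh hω hs (X y) (X y') (Z y) _ _ (hXZ y) h3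
    have h5 : (y - y') * ((∑ l ∈ S, w l * X y l) * ∑ l ∈ S, w l * X y' l) = 0 := by
      linear_combination h4
    rcases mul_eq_zero.mp h5 with h6 | h6
    · exact sub_eq_zero.mp h6
    · exact absurd h6 (mul_ne_zero (hX0 y) (hX0 y'))
  have hsurj : Function.Surjective Z := Finite.injective_iff_surjective.mp hinj
  obtain ⟨x₀, z₀, t, ⟨i, hi, hxi⟩, hσ, hx₀⟩ := h2
  obtain ⟨y, rfl⟩ := hsurj z₀
  have h4 := pencil_aux_h20 hh hω hs (X y) x₀ (Z y) _ _ (hXZ y) hx₀
  rw [hσ, mul_zero] at h4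
  rcases mul_eq_zero.mp h4.symm with h6 | h6
  · refine hxi (h1 x₀ (Z y) hσ (fun i hi => ?_) i hi)
    rw [hx₀ i hi, h6, add_zero]
  · exact hX0 y h6

end Pool.Agent.Lib.MP_89bcae_ag.Lr

end

section

namespace Pool.Agent.Lib.MP_89bcae_ag.Lr

variable {ι : Type} {ℓ : ℕ}

/-- Two more elements `b`, `b'` with the same weight `e`, for `GoodR`. Proof: `X, Y` from
`exists_irreducible` for `W = ∑ w_l`; take `y - X`, `y - Y`. Let `κ, z, μ` satisfy the equations on
`insert b (insert b' S)`. For `i ∈ S` the terms `l = b`, `l = b'` are zero (`h' i b = g i = g' i`), so `κ`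
is constant on `S` by `hR`, equal to `m` (`S` is not empty), and `0 = z m + μ`. Put `x = κ b - m`,
`x' = κ b' - m`, `G = ∑ w_l g_l`, `Z = z - G + W y`. The equation at `b`:
`∑_{l ∈ S} w_l (g l - y + X) x + e X (x - x') = z x`, so `((W + e) X - Z) x = e X x'`; the equation at
`b'`: `((W + e) Y - Z) x' = e Y x`. Multiply: if `x ≠ 0` or `x' ≠ 0` then
`((W + e) X - Z) ((W + e) Y - Z) - e ^ 2 X Y = 0` (determinant), which is excluded. So `x = x' = 0`. -/
theorem exists_goodR_insert₂ [DecidableEq ι] [Fact ℓ.Prime] (hℓ2 : ℓ ≠ 2) {w : ι → ZMod ℓ}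
    {h : ι → ι → ZMod ℓ} {g : ι → ZMod ℓ} {S : Finset ι} (hS : S.Nonempty) {b b' : ι}
    (hb : b ∉ S) (hb' : b' ∉ S) (hbb' : b ≠ b') {e : ZMod ℓ} (hwb : w b = e) (hwb' : w b' = e)
    (hW : ∑ l ∈ S, w l ≠ 0) (he : e ≠ 0) (hWe : ∑ l ∈ S, w l + 2 * e ≠ 0)
    (hR : GoodR w h g S) (y : ZMod ℓ) :
    ∃ X' Y' : ZMod ℓ, ∀ (h' : ι → ι → ZMod ℓ) (g' : ι → ZMod ℓ),
      (∀ i ∈ S, ∀ l ∈ S, i ≠ l → h' i l = h i l) → (∀ i ∈ S, h' i b = g i) →
      (∀ i ∈ S, h' i b' = g i) → (∀ i ∈ S, h' b i = g i) → (∀ i ∈ S, h' b' i = g i) →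
      h' b b' = y → h' b' b = y → (∀ i ∈ S, g' i = g i) → g' b = X' → g' b' = Y' →
      GoodR w h' g' (insert b (insert b' S)) := by
  obtain ⟨X, Y, hXY⟩ := exists_irreducible (ℓ := ℓ) hℓ2 hW he hWe
  refine ⟨y - X, y - Y, ?_⟩
  intro h' g' h1 h2 h3 h4 h5 h6 h7 h8 h9 h10 κ z μ hE
  have hb1 : b ∉ insert b' S := by
    rw [Finset.mem_insert]; rintro (h | h)
    · exact hbb' h
    · exact hb h
  have hsum : ∀ f : ι → ZMod ℓ, ∑ l ∈ insert b (insert b' S), f l = f b + (f b' + ∑ l ∈ S, f l) := by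
    intro f
    rw [Finset.sum_insert hb1, Finset.sum_insert hb']
  have hS1 : ∀ i ∈ S, i ∈ insert b (insert b' S) := fun i hi =>
    Finset.mem_insert_of_mem (Finset.mem_insert_of_mem hi)
  -- equations on S
  have hEq : ∀ i ∈ S, ∑ l ∈ S, w l * (h i l - g i) * (κ i - κ l) = z * κ i + μ := by
    intro i hi
    have := hE i (hS1 i hi)
    rw [hsum, h2 i hi, h3 i hi, h8 i hi] at this
    simp only [sub_self, mul_zero, zero_mul, zero_add] at this
    rw [← this]
    refine Finset.sum_congr rfl fun l hl => ?_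
    by_cases hil : i = l
    · subst hil; simp
    · rw [h1 i hi l hl hil]
  have hc := hR κ z μ hEq
  obtain ⟨i0, hi0⟩ := hS
  have hm : ∀ i ∈ S, κ i = κ i0 := fun i hi => hc i hi i0 hi0
  have hz : z * κ i0 + μ = 0 := by
    rw [← hEq i0 hi0]
    refine Finset.sum_eq_zero fun l hl => ?_
    rw [hm l hl]; simp
  -- the equations at b and b'
  have hGW : ∀ (A x : ZMod ℓ), ∑ l ∈ S, w l * (g l - A) * x =
      (∑ l ∈ S, w l * g l) * x - (∑ l ∈ S, w l) * A * x := by
    intro A x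
    rw [Finset.sum_mul, Finset.sum_mul, Finset.sum_mul, ← Finset.sum_sub_distrib]
    exact Finset.sum_congr rfl fun l _ => by ring
  have eb : e * X * (κ b - κ b') + ((∑ l ∈ S, w l * g l) * (κ b - κ i0) -
      (∑ l ∈ S, w l) * (y - X) * (κ b - κ i0)) = z * κ b + μ := by
    have := hE b (Finset.mem_insert_self _ _)
    rw [hsum, h6, h9, hwb'] at this
    rw [← this, ← hGW]
    have h12 : ∑ l ∈ S, w l * (h' b l - (y - X)) * (κ b - κ l) =
        ∑ l ∈ S, w l * (g l - (y - X)) * (κ b - κ i0) :=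
      Finset.sum_congr rfl fun l hl => by rw [h4 l hl, hm l hl]
    rw [h12]; ring
  have eb' : e * Y * (κ b' - κ b) + ((∑ l ∈ S, w l * g l) * (κ b' - κ i0) -
      (∑ l ∈ S, w l) * (y - Y) * (κ b' - κ i0)) = z * κ b' + μ := by
    have := hE b' (Finset.mem_insert_of_mem (Finset.mem_insert_self _ _))
    rw [hsum, h7, h10, hwb] at this
    rw [← this, ← hGW]
    have h12 : ∑ l ∈ S, w l * (h' b' l - (y - Y)) * (κ b' - κ l) =
        ∑ l ∈ S, w l * (g l - (y - Y)) * (κ b' - κ i0) :=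
      Finset.sum_congr rfl fun l hl => by rw [h5 l hl, hm l hl]
    rw [h12]; ring
  have hdet := hXY (z - (∑ l ∈ S, w l * g l) + (∑ l ∈ S, w l) * y)
  have hx : κ b - κ i0 = 0 := by
    have : ((z - (∑ l ∈ S, w l * g l) + (∑ l ∈ S, w l) * y) ^ 2 -
        (∑ l ∈ S, w l + e) * (X + Y) * (z - (∑ l ∈ S, w l * g l) + (∑ l ∈ S, w l) * y) +
        (∑ l ∈ S, w l) * (∑ l ∈ S, w l + 2 * e) * X * Y) * (κ b - κ i0) = 0 := by
      linear_combination ((∑ l ∈ S, w l + e) * Y - (z - (∑ l ∈ S, w l * g l) + (∑ l ∈ S, w l) * y)) * eb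
        + e * X * eb' + (e * X + ((∑ l ∈ S, w l + e) * Y - (z - (∑ l ∈ S, w l * g l) + (∑ l ∈ S, w l) * y))) * hz
    exact (mul_eq_zero.mp this).resolve_left hdet
  have hx' : κ b' - κ i0 = 0 := by
    have : ((z - (∑ l ∈ S, w l * g l) + (∑ l ∈ S, w l) * y) ^ 2 -
        (∑ l ∈ S, w l + e) * (X + Y) * (z - (∑ l ∈ S, w l * g l) + (∑ l ∈ S, w l) * y) +
        (∑ l ∈ S, w l) * (∑ l ∈ S, w l + 2 * e) * X * Y) * (κ b' - κ i0) = 0 := by
      linear_combination ((∑ l ∈ S, w l + e) * X - (z - (∑ l ∈ S, w l * g l) + (∑ l ∈ S, w l) * y)) * eb'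
        + e * Y * eb + (e * Y + ((∑ l ∈ S, w l + e) * X - (z - (∑ l ∈ S, w l * g l) + (∑ l ∈ S, w l) * y))) * hz
    exact (mul_eq_zero.mp this).resolve_left hdet
  have hall : ∀ i ∈ insert b (insert b' S), κ i = κ i0 := by
    intro i hi
    rcases Finset.mem_insert.mp hi with rfl | hi
    · exact sub_eq_zero.mp hx
    · rcases Finset.mem_insert.mp hi with rfl | hi
      · exact sub_eq_zero.mp hx'
      · exact hm i hi
  intro i hi j hj
  rw [hall i hi, hall j hj]

end Pool.Agent.Lib.MP_89bcae_ag.Lr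

end

section

namespace Pool.Agent.Lib.MP_89bcae_ag.Lr

variable {ι : Type} {ℓ : ℕ}

theorem Kop_formula_h46 {w : ι → ZMod ℓ} {h : ι → ι → ZMod ℓ} {P Q : ι → ZMod ℓ} {ω : ZMod ℓ}
    {S : Finset ι} {x : ι → ZMod ℓ} (hx : ∑ l ∈ S, w l * x l = 0) (i : ι) :
    Kop w h P Q ω S x i = ∑ l ∈ S, w l * h i l * (x i - x l) - (∑ l ∈ S, w l) * P i * x i
      + ω * (Q i - P i) * x i + ∑ l ∈ S, w l * Q l * x l := by
  unfold Kop
  have h1 : ∑ l ∈ S, w l * (h i l - P i) * (x i - x l) =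
      ∑ l ∈ S, w l * h i l * (x i - x l) - (∑ l ∈ S, w l) * P i * x i + P i * ∑ l ∈ S, w l * x l := by
    rw [Finset.sum_mul, Finset.sum_mul, Finset.mul_sum, ← Finset.sum_sub_distrib, ← Finset.sum_add_distrib]
    exact Finset.sum_congr rfl (fun l _ => by ring)
  rw [h1, hx]
  ring

theorem antisymm_sum_h46 {w : ι → ZMod ℓ} {h : ι → ι → ZMod ℓ}
    {S : Finset ι} (x : ι → ZMod ℓ) (hh : ∀ i ∈ S, ∀ l ∈ S, h i l = h l i) :
    ∑ i ∈ S, w i * ∑ l ∈ S, w l * h i l * (x i - x l) = 0 := by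
  have e1 : ∑ i ∈ S, w i * ∑ l ∈ S, w l * h i l * (x i - x l) =
      ∑ i ∈ S, ∑ l ∈ S, w i * w l * h i l * x i - ∑ i ∈ S, ∑ l ∈ S, w i * w l * h i l * x l := by
    rw [← Finset.sum_sub_distrib]
    refine Finset.sum_congr rfl (fun i _ => ?_)
    rw [Finset.mul_sum, ← Finset.sum_sub_distrib]
    exact Finset.sum_congr rfl (fun l _ => by ring)
  have e2 : ∑ i ∈ S, ∑ l ∈ S, w i * w l * h i l * x l = ∑ i ∈ S, ∑ l ∈ S, w i * w l * h i l * x i := by
    rw [Finset.sum_comm]
    refine Finset.sum_congr rfl (fun i hi => Finset.sum_congr rfl (fun l hl => ?_))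
    rw [hh l hl i hi]
    ring
  rw [e1, e2, sub_self]

/-- A wall gives a good pencil, first form. Proof: let `W = ∑ w_l`, `c₁ = W a / (W + ω)`, `P` the updated
function, `Q = g`; note `a ≠ 0` (otherwise the update is `g`), so `c₁ ≠ 0`. If `∑ w_l x_l = 0` then
`Kop x i = (∑_l w_l h_il (x_i - x_l)) - W g_i x_i - [i = k] (W + ω) c₁ x_k + G`, `G = ∑ w_l g_l x_l`.
`exists_goodK`, `h1`: if moreover `Kop x i = z x_i` on `S`: multiply by `w_i` and sum over `i`: the sum of
`w_i w_l h_il (x_i - x_l)` is `0` (`h` symmetric), so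
`- W G - (W + ω) c₁ w_k x_k + W G = 0`, `x_k = 0`; then
`∑_l w_l (h_il - g_i) (x_i - x_l) = z x_i - G`, so by `hg` `x` is constant on `S`, and it is zero because
`W x_i = ∑ w_l x_l = 0`. `h2`: `hbad` gives `κ, z, μ`, with the equation for the updated
`g'_k = g_k + a`, not constant on `S`; put `x = κ - (∑ w_l κ_l) / W`: weighted sum zero, not zero on `S`
and `(∑_l w_l h_il (x_i - x_l)) - W g'_i x_i = z x_i + μ'`; as `(W + ω) c₁ = W a`,
`Kop x i = z x_i + μ' + G`. -/
theorem exists_goodK_of_wall [DecidableEq ι] [Fact ℓ.Prime] {w : ι → ZMod ℓ} {h : ι → ι → ZMod ℓ}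
    {g : ι → ZMod ℓ} {S : Finset ι} {k : ι} {a ω : ZMod ℓ} (hh : ∀ i ∈ S, ∀ l ∈ S, h i l = h l i)
    (hW : ∑ l ∈ S, w l ≠ 0) (hω : ω ≠ 0) (hWω : ∑ l ∈ S, w l + ω ≠ 0) (hg : GoodR w h g S)
    (hk : k ∈ S) (hwk : w k ≠ 0) (hbad : ¬ GoodR w h (Function.update g k (g k + a)) S) :
    ∃ y, GoodK w h (Function.update g k (g k + (∑ l ∈ S, w l) * a / (∑ l ∈ S, w l + ω))) g ω y S := by
  have ha : a ≠ 0 := by
    rintro rfl
    apply hbad
    rw [add_zero, Function.update_eq_self]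
    exact hg
  set W : ZMod ℓ := ∑ l ∈ S, w l with hWdef
  set c₁ : ZMod ℓ := W * a / (W + ω) with hc₁
  have hc₁0 : c₁ ≠ 0 := div_ne_zero (mul_ne_zero hW ha) hWω
  have hc₁' : (W + ω) * c₁ = W * a := by
    rw [hc₁]
    field_simp
  -- the formula for `Kop`
  have hK : ∀ x : ι → ZMod ℓ, ∑ l ∈ S, w l * x l = 0 → ∀ i,
      Kop w h (Function.update g k (g k + c₁)) g ω S x i =
        ∑ l ∈ S, w l * h i l * (x i - x l) - W * g i * x i - (if i = k then W * a * x i else 0)
          + ∑ l ∈ S, w l * g l * x l := by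
    intro x hx i
    rw [Kop_formula_h46 hx i]
    by_cases hik : i = k
    · subst hik
      rw [if_pos rfl, Function.update_self, ← hc₁', ← hWdef]
      ring
    · rw [if_neg hik, Function.update_of_ne hik, ← hWdef]
      ring
  refine exists_goodK hh hω hWω ?_ ?_
  · intro x z hx hKx
    have hsum : ∑ i ∈ S, w i * Kop w h (Function.update g k (g k + c₁)) g ω S x i = 0 := by
      have : ∑ i ∈ S, w i * Kop w h (Function.update g k (g k + c₁)) g ω S x i =
          z * ∑ i ∈ S, w i * x i := by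
        rw [Finset.mul_sum]
        exact Finset.sum_congr rfl (fun i hi => by rw [hKx i hi]; ring)
      rw [this, hx, mul_zero]
    have hG : W * ∑ l ∈ S, w l * g l * x l = ∑ i ∈ S, w i * ∑ l ∈ S, w l * g l * x l := by
      rw [← Finset.sum_mul]
    have hsum2 : ∑ i ∈ S, w i * Kop w h (Function.update g k (g k + c₁)) g ω S x i =
        ∑ i ∈ S, w i * ∑ l ∈ S, w l * h i l * (x i - x l) - ∑ i ∈ S, W * (w i * g i * x i)
          - ∑ i ∈ S, (if i = k then w k * (W * a * x k) else 0) + ∑ i ∈ S, w i * ∑ l ∈ S, w l * g l * x l := by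
      rw [← Finset.sum_sub_distrib, ← Finset.sum_sub_distrib, ← Finset.sum_add_distrib]
      refine Finset.sum_congr rfl (fun i _ => ?_)
      rw [hK x hx i]
      by_cases hik : i = k
      · subst hik
        rw [if_pos rfl, if_pos rfl]
        ring
      · rw [if_neg hik, if_neg hik]
        ring
    rw [← Finset.mul_sum, ← hG] at hsum2
    rw [hsum, antisymm_sum_h46 x hh, Finset.sum_ite_eq' S k (fun _ => w k * (W * a * x k)), if_pos hk] at hsum2
    have hxk : x k = 0 := by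
      have h3 : w k * (W * a * x k) = 0 := by linear_combination hsum2
      rcases mul_eq_zero.mp h3 with h4 | h4
      · exact absurd h4 hwk
      · rcases mul_eq_zero.mp h4 with h5 | h5
        · exact absurd h5 (mul_ne_zero hW ha)
        · exact h5
    have hconst := hg x z (-(∑ l ∈ S, w l * g l * x l)) (by
      intro i hi
      have h6 := hKx i hi
      rw [hK x hx i] at h6
      have h7 : (if i = k then W * a * x i else 0) = 0 := by
        split_ifs with hik
        · rw [hik, hxk, mul_zero]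
        · rfl
      rw [h7] at h6
      have h8 : ∑ l ∈ S, w l * (h i l - g i) * (x i - x l) =
          ∑ l ∈ S, w l * h i l * (x i - x l) - W * g i * x i + g i * ∑ l ∈ S, w l * x l := by
        rw [hWdef, Finset.sum_mul, Finset.sum_mul, Finset.mul_sum, ← Finset.sum_sub_distrib, ← Finset.sum_add_distrib]
        exact Finset.sum_congr rfl (fun l _ => by ring)
      rw [h8, hx]
      linear_combination h6)
    intro i hi
    have h9 : W * x i = 0 := by
      rw [← hx, hWdef, Finset.sum_mul]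
      exact Finset.sum_congr rfl (fun l hl => by rw [hconst i hi l hl])
    rcases mul_eq_zero.mp h9 with h10 | h10
    · exact absurd h10 hW
    · exact h10
  · unfold GoodR at hbad
    push Not at hbad
    obtain ⟨κ, z, μ, hκ, i₀, hi₀, j₀, hj₀, hne⟩ := hbad
    set m : ZMod ℓ := (∑ l ∈ S, w l * κ l) / W with hm
    have hx : ∑ l ∈ S, w l * (κ l - m) = 0 := by
      have : ∑ l ∈ S, w l * (κ l - m) = ∑ l ∈ S, w l * κ l - W * m := by
        rw [hWdef, Finset.sum_mul, ← Finset.sum_sub_distrib]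
        exact Finset.sum_congr rfl (fun l _ => by ring)
      rw [this, hm]
      field_simp
      ring
    refine ⟨fun l => κ l - m, z, z * m + μ + ∑ l ∈ S, w l * g l * (κ l - m), ?_, hx, ?_⟩
    · by_contra hcon
      push Not at hcon
      have e1 := hcon i₀ hi₀
      have e2 := hcon j₀ hj₀
      beta_reduce at e1 e2
      exact hne (by linear_combination e1 - e2)
    · intro i hi
      rw [hK _ hx i]
      have h1 := hκ i hi
      have h2 : ∑ l ∈ S, w l * (h i l - Function.update g k (g k + a) i) * (κ i - κ l) =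
          ∑ l ∈ S, w l * h i l * ((κ i - m) - (κ l - m)) - W * Function.update g k (g k + a) i * (κ i - m)
            + Function.update g k (g k + a) i * ∑ l ∈ S, w l * (κ l - m) := by
        rw [hWdef, Finset.sum_mul, Finset.sum_mul, Finset.mul_sum, ← Finset.sum_sub_distrib, ← Finset.sum_add_distrib]
        exact Finset.sum_congr rfl (fun l _ => by ring)
      rw [h2, hx] at h1
      by_cases hik : i = k
      · subst hik
        rw [Function.update_self] at h1
        rw [if_pos rfl]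
        linear_combination h1
      · rw [Function.update_of_ne hik] at h1
        rw [if_neg hik]
        linear_combination h1

end Pool.Agent.Lib.MP_89bcae_ag.Lr

end

section

namespace Pool.Agent.Lib.MP_89bcae_ag.Lr

variable {ι : Type} {ℓ : ℕ}

theorem Kop_formula_h78 {w : ι → ZMod ℓ} {h : ι → ι → ZMod ℓ} {P Q : ι → ZMod ℓ} {ω : ZMod ℓ}
    {S : Finset ι} {x : ι → ZMod ℓ} (hx : ∑ l ∈ S, w l * x l = 0) (i : ι) :
    Kop w h P Q ω S x i = ∑ l ∈ S, w l * h i l * (x i - x l) - (∑ l ∈ S, w l) * P i * x i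
      + ω * (Q i - P i) * x i + ∑ l ∈ S, w l * Q l * x l := by
  unfold Kop
  have h1 : ∑ l ∈ S, w l * (h i l - P i) * (x i - x l) =
      ∑ l ∈ S, w l * h i l * (x i - x l) - (∑ l ∈ S, w l) * P i * x i + P i * ∑ l ∈ S, w l * x l := by
    rw [Finset.sum_mul, Finset.sum_mul, Finset.mul_sum, ← Finset.sum_sub_distrib, ← Finset.sum_add_distrib]
    exact Finset.sum_congr rfl (fun l _ => by ring)
  rw [h1, hx]
  ring

theorem antisymm_sum_h78 {w : ι → ZMod ℓ} {h : ι → ι → ZMod ℓ}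
    {S : Finset ι} (x : ι → ZMod ℓ) (hh : ∀ i ∈ S, ∀ l ∈ S, h i l = h l i) :
    ∑ i ∈ S, w i * ∑ l ∈ S, w l * h i l * (x i - x l) = 0 := by
  have e1 : ∑ i ∈ S, w i * ∑ l ∈ S, w l * h i l * (x i - x l) =
      ∑ i ∈ S, ∑ l ∈ S, w i * w l * h i l * x i - ∑ i ∈ S, ∑ l ∈ S, w i * w l * h i l * x l := by
    rw [← Finset.sum_sub_distrib]
    refine Finset.sum_congr rfl (fun i _ => ?_)
    rw [Finset.mul_sum, ← Finset.sum_sub_distrib]
    exact Finset.sum_congr rfl (fun l _ => by ring)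
  have e2 : ∑ i ∈ S, ∑ l ∈ S, w i * w l * h i l * x l = ∑ i ∈ S, ∑ l ∈ S, w i * w l * h i l * x i := by
    rw [Finset.sum_comm]
    refine Finset.sum_congr rfl (fun i hi => Finset.sum_congr rfl (fun l hl => ?_))
    rw [hh l hl i hi]
    ring
  rw [e1, e2, sub_self]

/-- A wall gives a good pencil, second form. Proof: let `W = ∑ w_l`, `c₁ = - W a / ω`, `P = g` and `Q` the
updated function; note `a ≠ 0` (otherwise the update in `hbad` is `g`), so `c₁ ≠ 0`. If `∑ w_l x_l = 0` then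
`Kop x i = (∑_l w_l h_il (x_i - x_l)) - W g_i x_i + [i = k] ω c₁ x_k + G + c₁ w_k x_k`,
`G = ∑ w_l g_l x_l`. `exists_goodK`, `h1`: if moreover `Kop x i = z x_i` on `S`: multiply by `w_i` and sum
over `i`: the sum of `w_i w_l h_il (x_i - x_l)` is `0` (`h` symmetric), so
`- W G + ω c₁ w_k x_k + W G + W c₁ w_k x_k = 0`, `(W + ω) c₁ w_k x_k = 0`, `x_k = 0`; then
`∑_l w_l (h_il - g_i) (x_i - x_l) = z x_i - G`, so by `hg` `x` is constant on `S`, and it is zero because
`W x_i = ∑ w_l x_l = 0`. `h2`: `hbad` gives `κ, z, μ`, with the equation for the updated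
`g'_k = g_k + a`, not constant on `S`; put `x = κ - (∑ w_l κ_l) / W`: weighted sum zero, not zero on `S`
and `(∑_l w_l h_il (x_i - x_l)) - W g'_i x_i = z x_i + μ'`; as `ω c₁ = - W a`,
`Kop x i = z x_i + μ' + G + c₁ w_k x_k`. -/
theorem exists_goodK_of_wall' [DecidableEq ι] [Fact ℓ.Prime] {w : ι → ZMod ℓ}
    {h : ι → ι → ZMod ℓ} {g : ι → ZMod ℓ} {S : Finset ι} {k : ι} {a ω : ZMod ℓ}
    (hh : ∀ i ∈ S, ∀ l ∈ S, h i l = h l i)
    (hW : ∑ l ∈ S, w l ≠ 0) (hω : ω ≠ 0) (hWω : ∑ l ∈ S, w l + ω ≠ 0) (hg : GoodR w h g S)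
    (hk : k ∈ S) (hwk : w k ≠ 0) (hbad : ¬ GoodR w h (Function.update g k (g k + a)) S) :
    ∃ y, GoodK w h g (Function.update g k (g k - (∑ l ∈ S, w l) * a / ω)) ω y S := by
  have ha : a ≠ 0 := by
    rintro rfl
    apply hbad
    rw [add_zero, Function.update_eq_self]
    exact hg
  set W : ZMod ℓ := ∑ l ∈ S, w l with hWdef
  obtain ⟨c₁, hc₁⟩ : ∃ c₁ : ZMod ℓ, c₁ = -(W * a / ω) := ⟨_, rfl⟩
  have hc₁0 : c₁ ≠ 0 := by
    rw [hc₁]
    exact neg_ne_zero.mpr (div_ne_zero (mul_ne_zero hW ha) hω)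
  have hc₁' : ω * c₁ = -(W * a) := by
    rw [hc₁]
    field_simp
  rw [sub_eq_add_neg, ← hc₁]
  -- the formula for `Kop`
  have hQ : ∀ x : ι → ZMod ℓ, ∑ l ∈ S, w l * Function.update g k (g k + c₁) l * x l =
      ∑ l ∈ S, w l * g l * x l + c₁ * w k * x k := by
    intro x
    have e1 : ∑ l ∈ S, w l * Function.update g k (g k + c₁) l * x l =
        ∑ l ∈ S, w l * g l * x l + ∑ l ∈ S, (if l = k then c₁ * w k * x k else 0) := by
      rw [← Finset.sum_add_distrib]
      refine Finset.sum_congr rfl (fun l _ => ?_)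
      by_cases hlk : l = k
      · subst hlk
        rw [if_pos rfl, Function.update_self]
        ring
      · rw [if_neg hlk, Function.update_of_ne hlk]
        ring
    rw [e1, Finset.sum_ite_eq' S k (fun _ => c₁ * w k * x k), if_pos hk]
  have hK : ∀ x : ι → ZMod ℓ, ∑ l ∈ S, w l * x l = 0 → ∀ i,
      Kop w h g (Function.update g k (g k + c₁)) ω S x i =
        ∑ l ∈ S, w l * h i l * (x i - x l) - W * g i * x i - (if i = k then W * a * x i else 0)
          + (∑ l ∈ S, w l * g l * x l + c₁ * w k * x k) := by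
    intro x hx i
    rw [Kop_formula_h78 hx i, hQ]
    by_cases hik : i = k
    · subst hik
      rw [if_pos rfl, Function.update_self, ← hWdef]
      linear_combination (x i) * hc₁'
    · rw [if_neg hik, Function.update_of_ne hik, ← hWdef]
      ring
  refine exists_goodK hh hω hWω ?_ ?_
  · intro x z hx hKx
    have hsum : ∑ i ∈ S, w i * Kop w h g (Function.update g k (g k + c₁)) ω S x i = 0 := by
      have : ∑ i ∈ S, w i * Kop w h g (Function.update g k (g k + c₁)) ω S x i =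
          z * ∑ i ∈ S, w i * x i := by
        rw [Finset.mul_sum]
        exact Finset.sum_congr rfl (fun i hi => by rw [hKx i hi]; ring)
      rw [this, hx, mul_zero]
    have hG : W * (∑ l ∈ S, w l * g l * x l + c₁ * w k * x k) =
        ∑ i ∈ S, w i * (∑ l ∈ S, w l * g l * x l + c₁ * w k * x k) := by
      rw [← Finset.sum_mul]
    have hsum2 : ∑ i ∈ S, w i * Kop w h g (Function.update g k (g k + c₁)) ω S x i =
        ∑ i ∈ S, w i * ∑ l ∈ S, w l * h i l * (x i - x l) - ∑ i ∈ S, W * (w i * g i * x i)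
          - ∑ i ∈ S, (if i = k then w k * (W * a * x k) else 0)
          + ∑ i ∈ S, w i * (∑ l ∈ S, w l * g l * x l + c₁ * w k * x k) := by
      rw [← Finset.sum_sub_distrib, ← Finset.sum_sub_distrib, ← Finset.sum_add_distrib]
      refine Finset.sum_congr rfl (fun i _ => ?_)
      rw [hK x hx i]
      by_cases hik : i = k
      · subst hik
        rw [if_pos rfl, if_pos rfl]
        ring
      · rw [if_neg hik, if_neg hik]
        ring
    rw [← Finset.mul_sum, ← hG] at hsum2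
    rw [hsum, antisymm_sum_h78 x hh, Finset.sum_ite_eq' S k (fun _ => w k * (W * a * x k)),
      if_pos hk] at hsum2
    have hxk : x k = 0 := by
      have h3 : (W + ω) * (c₁ * (w k * x k)) = 0 := by
        linear_combination -hsum2 + (w k * x k) * hc₁'
      rcases mul_eq_zero.mp h3 with h4 | h4
      · exact absurd h4 hWω
      · rcases mul_eq_zero.mp h4 with h5 | h5
        · exact absurd h5 hc₁0
        · rcases mul_eq_zero.mp h5 with h6 | h6
          · exact absurd h6 hwk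
          · exact h6
    have hconst := hg x z (-(∑ l ∈ S, w l * g l * x l)) (by
      intro i hi
      have h6 := hKx i hi
      rw [hK x hx i] at h6
      have h7 : (if i = k then W * a * x i else 0) = 0 := by
        split_ifs with hik
        · rw [hik, hxk, mul_zero]
        · rfl
      rw [h7, hxk] at h6
      have h8 : ∑ l ∈ S, w l * (h i l - g i) * (x i - x l) =
          ∑ l ∈ S, w l * h i l * (x i - x l) - W * g i * x i + g i * ∑ l ∈ S, w l * x l := by
        rw [hWdef, Finset.sum_mul, Finset.sum_mul, Finset.mul_sum, ← Finset.sum_sub_distrib,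
          ← Finset.sum_add_distrib]
        exact Finset.sum_congr rfl (fun l _ => by ring)
      rw [h8, hx]
      linear_combination h6)
    intro i hi
    have h9 : W * x i = 0 := by
      rw [← hx, hWdef, Finset.sum_mul]
      exact Finset.sum_congr rfl (fun l hl => by rw [hconst i hi l hl])
    rcases mul_eq_zero.mp h9 with h10 | h10
    · exact absurd h10 hW
    · exact h10
  · unfold GoodR at hbad
    push Not at hbad
    obtain ⟨κ, z, μ, hκ, i₀, hi₀, j₀, hj₀, hne⟩ := hbad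
    set m : ZMod ℓ := (∑ l ∈ S, w l * κ l) / W with hm
    have hx : ∑ l ∈ S, w l * (κ l - m) = 0 := by
      have : ∑ l ∈ S, w l * (κ l - m) = ∑ l ∈ S, w l * κ l - W * m := by
        rw [hWdef, Finset.sum_mul, ← Finset.sum_sub_distrib]
        exact Finset.sum_congr rfl (fun l _ => by ring)
      rw [this, hm]
      field_simp
      ring
    refine ⟨fun l => κ l - m, z,
      z * m + μ + (∑ l ∈ S, w l * g l * (κ l - m) + c₁ * w k * (κ k - m)), ?_, hx, ?_⟩
    · by_contra hcon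
      push Not at hcon
      have e1 := hcon i₀ hi₀
      have e2 := hcon j₀ hj₀
      beta_reduce at e1 e2
      exact hne (by linear_combination e1 - e2)
    · intro i hi
      rw [hK _ hx i]
      have h1 := hκ i hi
      have h2 : ∑ l ∈ S, w l * (h i l - Function.update g k (g k + a) i) * (κ i - κ l) =
          ∑ l ∈ S, w l * h i l * ((κ i - m) - (κ l - m)) -
            W * Function.update g k (g k + a) i * (κ i - m)
            + Function.update g k (g k + a) i * ∑ l ∈ S, w l * (κ l - m) := by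
        rw [hWdef, Finset.sum_mul, Finset.sum_mul, Finset.mul_sum, ← Finset.sum_sub_distrib,
          ← Finset.sum_add_distrib]
        exact Finset.sum_congr rfl (fun l _ => by ring)
      rw [h2, hx] at h1
      by_cases hik : i = k
      · subst hik
        rw [Function.update_self] at h1
        rw [if_pos rfl]
        linear_combination h1
      · rw [Function.update_of_ne hik] at h1
        rw [if_neg hik]
        linear_combination h1

end Pool.Agent.Lib.MP_89bcae_ag.Lr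

end

section

namespace Pool.Agent.Lib.MP_89bcae_ag.Lr

variable {ι : Type} {ℓ : ℕ}

/-- choice of the parameter -/
theorem alpha_h92 [Fact ℓ.Prime] (hℓ2 : ℓ ≠ 2) {a b c : ZMod ℓ} (hb : b ≠ 0) (hc : c ≠ 0) :
    ∃ α : ZMod ℓ, α ≠ 0 ∧ 2 * c * (a + b + c) * α - (a + c) ≠ 0 := by
  have h2 : (2 : ZMod ℓ) ≠ 0 := by
    have h2' := (ZMod.natCast_eq_zero_iff 2 ℓ).not.mpr (fun hd => hℓ2
      ((Nat.prime_dvd_prime_iff_eq (Fact.out : ℓ.Prime) Nat.prime_two).mp hd))
    exact_mod_cast h2'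
  by_cases h0 : a + b + c = 0
  · refine ⟨1, one_ne_zero, ?_⟩
    intro h
    apply hb
    linear_combination h + (1 - 2 * c) * h0
  · by_cases h1 : 2 * c * (a + b + c) * 1 - (a + c) = 0
    · refine ⟨-1, neg_ne_zero.mpr one_ne_zero, ?_⟩
      intro h
      have h3 : 2 * (2 * c * (a + b + c)) = 0 := by linear_combination h1 - h
      exact mul_ne_zero h2 (mul_ne_zero (mul_ne_zero h2 hc) h0) h3
    · exact ⟨1, one_ne_zero, h1⟩

/-- the linear algebra of hypothesis h1 of `exists_goodK` -/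
theorem lin_h92 [Fact ℓ.Prime] (hℓ2 : ℓ ≠ 2) {a b c α x₁ x₂ x₃ z : ZMod ℓ} (ha : a ≠ 0) (hb : b ≠ 0)
    (hc : c ≠ 0) (hα : α ≠ 0) (hα2 : 2 * c * (a + b + c) * α - (a + c) ≠ 0)
    (hσ : a * x₁ + (b * x₂ + c * x₃) = 0) (e1 : b * α * (x₁ - x₂) + c * α * x₃ = z * x₁)
    (e2 : a * α * (x₂ - x₁) + x₂ + c * α * x₃ = z * x₂) (e3 : (a + b + 2 * c) * α * x₃ = z * x₃) :
    x₁ = 0 ∧ x₂ = 0 ∧ x₃ = 0 := by
  have h2 : (2 : ZMod ℓ) ≠ 0 := by
    have h2' := (ZMod.natCast_eq_zero_iff 2 ℓ).not.mpr (fun hd => hℓ2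
      ((Nat.prime_dvd_prime_iff_eq (Fact.out : ℓ.Prime) Nat.prime_two).mp hd))
    exact_mod_cast h2'
  by_cases h3 : x₃ = 0
  · subst h3
    have hx2 : b * x₂ = 0 := by linear_combination a * e1 + b * e2 + z * hσ
    have hx2' : x₂ = 0 := (mul_eq_zero.mp hx2).resolve_left hb
    subst hx2'
    have hx1 : a * x₁ = 0 := by linear_combination hσ
    exact ⟨(mul_eq_zero.mp hx1).resolve_left ha, rfl, rfl⟩
  · exfalso
    have hz : (a + b + 2 * c) * α = z := mul_right_cancel₀ h3 e3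
    subst hz
    have f0 : 2 * α * ((a + c) * x₁ + b * x₂) = 0 := by linear_combination -e1 + α * hσ
    have f1 : (a + c) * x₁ + b * x₂ = 0 := (mul_eq_zero.mp f0).resolve_left (mul_ne_zero h2 hα)
    have f2 : x₂ - 2 * a * α * x₁ - 2 * (b + c) * α * x₂ = 0 := by linear_combination e2 - α * hσ
    have f3 : (2 * c * (a + b + c) * α - (a + c)) * x₁ = 0 := by
      linear_combination b * f2 - (1 - 2 * (b + c) * α) * f1
    have g1 : x₁ = 0 := (mul_eq_zero.mp f3).resolve_left hα2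
    subst g1
    have g2 : b * x₂ = 0 := by linear_combination f1
    have g2' : x₂ = 0 := (mul_eq_zero.mp g2).resolve_left hb
    subst g2'
    have g3 : c * x₃ = 0 := by linear_combination hσ
    exact h3 ((mul_eq_zero.mp g3).resolve_left hc)

/-- Four elements, for `GoodR`. Proof: let `a, b, c, d` be the weights of `s₁, s₂, s₃, s₄`,
`W = a + b + c + d`. Choose `α ≠ 0` with `2 c (a + b + c) α ≠ a + c`: if `a + b + c = 0` then
`a + c = - b ≠ 0` and `α = 1`; otherwise at most one value is excluded and `α ∈ {1, -1}` (`1 ≠ -1`).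
Let `g s₁ = 0`, `g s₂ = - 1 / W`, `g s₃ = - (a + b + c - d) α / W`. Apply `exists_goodK` to
`S₀ = {s₁, s₂, s₃}`, `P = g`, `Q s₁ = Q s₂ = 0`, `Q s₃ = α`, `ω = d`, `h` the function with `h s₁ s₂ =
h s₂ s₁ = α` and zero on the other pairs of `S₀`. For `x` with `a x₁ + b x₂ + c x₃ = 0`:
`Kop x s₁ = b α (x₁ - x₂) + c α x₃`, `Kop x s₂ = a α (x₂ - x₁) + x₂ + c α x₃`,
`Kop x s₃ = (a + b + 2 c) α x₃`. `h1`: if `Kop x = z x` and `x₃ = 0`, then `a` times the first plus `b`
times the second equation give `b x₂ = 0`, so `x = 0`; if `x₃ ≠ 0`, then `z = (a + b + 2 c) α`, and replacing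
`c x₃ = - a x₁ - b x₂` the first two equations become `(a + c) x₁ + b x₂ = 0` and
`- 2 a α x₁ - 2 (b + c) α x₂ + x₂ = 0`, hence `(2 c (a + b + c) α - (a + c)) x₁ = 0`, `x₁ = 0`, `x₂ = 0`,
`x₃ = 0`. `h2`: `x = (c, 0, - a)`, `z = (a + b) α`, `t = - 2 a c α`. Let `y` be the value given by
`exists_goodK`; `g s₄ = y` and `goodR_insert` (with `b = s₄`, `S = S₀`, `g = Q`, `u = P`). -/
theorem exists_goodR_four [DecidableEq ι] [Fact ℓ.Prime] (hℓ2 : ℓ ≠ 2) {w : ι → ZMod ℓ}
    {s₁ s₂ s₃ s₄ : ι} (h12 : s₁ ≠ s₂) (h13 : s₁ ≠ s₃) (h14 : s₁ ≠ s₄) (h23 : s₂ ≠ s₃)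
    (h24 : s₂ ≠ s₄) (h34 : s₃ ≠ s₄) (hw1 : w s₁ ≠ 0) (hw2 : w s₂ ≠ 0) (hw3 : w s₃ ≠ 0)
    (hw4 : w s₄ ≠ 0) (hW : w s₁ + w s₂ + w s₃ + w s₄ ≠ 0) :
    ∃ (α : ZMod ℓ) (g : ι → ZMod ℓ), ∀ h : ι → ι → ZMod ℓ,
      h s₁ s₂ = α → h s₂ s₁ = α → h s₃ s₄ = α → h s₄ s₃ = α → h s₁ s₃ = 0 → h s₃ s₁ = 0 →
      h s₁ s₄ = 0 → h s₄ s₁ = 0 → h s₂ s₃ = 0 → h s₃ s₂ = 0 → h s₂ s₄ = 0 → h s₄ s₂ = 0 →
      GoodR w h g {s₁, s₂, s₃, s₄} := by
  obtain ⟨α, hα, hα2⟩ := alpha_h92 hℓ2 (a := w s₁) hw2 hw3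
  obtain ⟨V, hV⟩ : ∃ V : ZMod ℓ, (w s₁ + w s₂ + w s₃ + w s₄) * V = 1 := ⟨_, mul_inv_cancel₀ hW⟩
  have hsum : ∀ f : ι → ZMod ℓ, ∑ l ∈ ({s₁, s₂, s₃} : Finset ι), f l = f s₁ + (f s₂ + f s₃) := by
    intro f
    rw [Finset.sum_insert (by simp [h12, h13]), Finset.sum_pair h23]
  obtain ⟨g0, g01, g02, g03⟩ : ∃ g0 : ι → ZMod ℓ, g0 s₁ = 0 ∧ g0 s₂ = -V ∧
      g0 s₃ = -((w s₁ + w s₂ + w s₃ - w s₄) * α * V) := by
    refine ⟨fun i => if i = s₁ then 0 else if i = s₂ then -V else
      -((w s₁ + w s₂ + w s₃ - w s₄) * α * V), ?_, ?_, ?_⟩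
    · simp
    · simp [h12.symm]
    · simp [h13.symm, h23.symm]
  obtain ⟨Q, Q1, Q2, Q3⟩ : ∃ Q : ι → ZMod ℓ, Q s₁ = 0 ∧ Q s₂ = 0 ∧ Q s₃ = α := by
    refine ⟨fun i => if i = s₃ then α else 0, ?_, ?_, ?_⟩
    · simp [h13]
    · simp [h23]
    · simp
  obtain ⟨h0, hsym, t11, t12, t13, t22, t23, t33⟩ : ∃ h0 : ι → ι → ZMod ℓ, (∀ i l, h0 i l = h0 l i) ∧
      h0 s₁ s₁ = 0 ∧ h0 s₁ s₂ = α ∧ h0 s₁ s₃ = 0 ∧ h0 s₂ s₂ = 0 ∧ h0 s₂ s₃ = 0 ∧ h0 s₃ s₃ = 0 := by
    refine ⟨fun i l => if (i = s₁ ∧ l = s₂) ∨ (i = s₂ ∧ l = s₁) then α else 0, ?_, ?_, ?_, ?_, ?_, ?_, ?_⟩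
    · intro i l
      exact if_congr (by tauto) rfl rfl
    · simp [h12]
    · simp
    · simp [h13.symm, h23.symm]
    · simp [h12.symm]
    · simp [h13.symm, h23.symm]
    · simp [h13.symm, h23.symm]
  have t21 : h0 s₂ s₁ = α := by rw [hsym, t12]
  have t31 : h0 s₃ s₁ = 0 := by rw [hsym, t13]
  have t32 : h0 s₃ s₂ = 0 := by rw [hsym, t23]
  have K1 : ∀ x : ι → ZMod ℓ, Kop w h0 g0 Q (w s₄) {s₁, s₂, s₃} x s₁ =
      w s₂ * α * (x s₁ - x s₂) + w s₃ * α * x s₃ := by
    intro x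
    unfold Kop
    rw [hsum, hsum, t11, t12, t13, g01, Q1, Q2, Q3]
    ring
  have K2 : ∀ x : ι → ZMod ℓ, w s₁ * x s₁ + (w s₂ * x s₂ + w s₃ * x s₃) = 0 →
      Kop w h0 g0 Q (w s₄) {s₁, s₂, s₃} x s₂ =
      w s₁ * α * (x s₂ - x s₁) + x s₂ + w s₃ * α * x s₃ := by
    intro x hσ
    unfold Kop
    rw [hsum, hsum, t21, t22, t23, g02, Q1, Q2, Q3]
    linear_combination x s₂ * hV - V * hσ
  have K3 : ∀ x : ι → ZMod ℓ, w s₁ * x s₁ + (w s₂ * x s₂ + w s₃ * x s₃) = 0 →
      Kop w h0 g0 Q (w s₄) {s₁, s₂, s₃} x s₃ = (w s₁ + w s₂ + 2 * w s₃) * α * x s₃ := by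
    intro x hσ
    unfold Kop
    rw [hsum, hsum, t31, t32, t33, g03, Q1, Q2, Q3]
    linear_combination (w s₁ + w s₂ + w s₃ - w s₄) * α * x s₃ * hV -
      (w s₁ + w s₂ + w s₃ - w s₄) * α * V * hσ
  have m1 : s₁ ∈ ({s₁, s₂, s₃} : Finset ι) := by simp
  have m2 : s₂ ∈ ({s₁, s₂, s₃} : Finset ι) := by simp
  have m3 : s₃ ∈ ({s₁, s₂, s₃} : Finset ι) := by simp
  have hall : ∀ p : ι → Prop, p s₁ → p s₂ → p s₃ → ∀ i ∈ ({s₁, s₂, s₃} : Finset ι), p i := by
    intro p p1 p2 p3 i hi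
    simp only [Finset.mem_insert, Finset.mem_singleton] at hi
    rcases hi with rfl | rfl | rfl
    · exact p1
    · exact p2
    · exact p3
  have hmain : ∃ y, GoodK w h0 g0 Q (w s₄) y {s₁, s₂, s₃} := by
    refine exists_goodK (fun i _ l _ => hsym i l) hw4 ?_ ?_ ?_
    · rw [hsum]
      intro h
      apply hW
      linear_combination h
    · intro x z hσ hx
      rw [hsum] at hσ
      have e1 := hx s₁ m1
      have e2 := hx s₂ m2
      have e3 := hx s₃ m3
      rw [K1] at e1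
      rw [K2 x hσ] at e2
      rw [K3 x hσ] at e3
      obtain ⟨r1, r2, r3⟩ := lin_h92 hℓ2 hw1 hw2 hw3 hα hα2 hσ e1 e2 e3
      exact hall _ r1 r2 r3
    · obtain ⟨x, x1, x2, x3⟩ : ∃ x : ι → ZMod ℓ, x s₁ = w s₃ ∧ x s₂ = 0 ∧ x s₃ = -w s₁ := by
        refine ⟨fun i => if i = s₁ then w s₃ else if i = s₂ then 0 else -w s₁, ?_, ?_, ?_⟩
        · simp
        · simp [h12.symm]
        · simp [h13.symm, h23.symm]
      have hσ : w s₁ * x s₁ + (w s₂ * x s₂ + w s₃ * x s₃) = 0 := by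
        rw [x1, x2, x3]; ring
      refine ⟨x, (w s₁ + w s₂) * α, -2 * w s₁ * w s₃ * α, ⟨s₁, m1, by rw [x1]; exact hw3⟩, ?_, ?_⟩
      · rw [hsum]; exact hσ
      · apply hall
        · rw [K1, x1, x2, x3]; ring
        · rw [K2 x hσ, x1, x2, x3]; ring
        · rw [K3 x hσ, x3]; ring
  obtain ⟨y, hy⟩ := hmain
  refine ⟨α, fun i => if i = s₄ then y else g0 i, ?_⟩
  intro h e12 e21 e34 e43 e13 e31 e14 e41 e23 e32 e24 e42
  have hset : ({s₁, s₂, s₃, s₄} : Finset ι) = insert s₄ {s₁, s₂, s₃} := by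
    ext i
    simp only [Finset.mem_insert, Finset.mem_singleton]
    tauto
  rw [hset]
  refine goodR_insert (b := s₄) (by simp [h14.symm, h24.symm, h34.symm]) hy ?_ ?_ ?_ ?_ ?_
  · apply hall
    · apply hall
      · intro hne; exact absurd rfl hne
      · intro _; rw [e12, t12]
      · intro _; rw [e13, t13]
    · apply hall
      · intro _; rw [e21, t21]
      · intro hne; exact absurd rfl hne
      · intro _; rw [e23, t23]
    · apply hall
      · intro _; rw [e31, t31]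
      · intro _; rw [e32, t32]
      · intro hne; exact absurd rfl hne
  · apply hall
    · rw [e14, Q1]
    · rw [e24, Q2]
    · rw [e34, Q3]
  · apply hall
    · rw [e41, Q1]
    · rw [e42, Q2]
    · rw [e43, Q3]
  · apply hall
    · simp [h14]
    · simp [h24]
    · simp [h34]
  · simp

end Pool.Agent.Lib.MP_89bcae_ag.Lr

end

section

/-!
# Change of the base field for `y ^ ℓ = ∏ (x - α_i(t)) ^ (W_i)`
-/

open Polynomial IsDedekindDomain

open scoped Classical

set_option linter.unusedSimpArgs false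
set_option linter.unusedVariables false
set_option linter.unusedSectionVars false
set_option linter.style.haveILetI false

namespace Pool.Agent.Lib.MP_89bcae_ag.Wt

universe u

/-- The statement for a polynomial `f` and a set of automorphisms, with a multiple. -/
def NTm45 (ℓ m : ℕ) {F : Type u} (L Ω : Type u) [Field F] [Field L] [Algebra F[X] L]
    [IsFractionRing F[X] L] [Field Ω] [Algebra L Ω] (f : L[X]) (Γ : Set (Ω ≃+* Ω)) : Prop :=
  ∀ c : ℕ → (Ω ≃ₐ[L] Ω) → JacOver ℓ f Ω,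
    IsTateCocycle ℓ f c →
    (∀ (v : HeightOneSpectrum F[X]) (n : ℕ), IsLocallyTrivial ℓ f (c n) (v.adicCompletion L)) →
    (∀ (γ : Ω ≃+* Ω) hγ, γ ∈ Γ → IsFixedBy ℓ f c γ hγ) →
    IsTrivial ℓ f fun n g => m • c n g

theorem NTm45.mono {ℓ m : ℕ} {F L Ω : Type u} [Field F] [Field L] [Algebra F[X] L]
    [IsFractionRing F[X] L] [Field Ω] [Algebra L Ω] {f : L[X]} {Γ Γ' : Set (Ω ≃+* Ω)}
    (h : NTm45 (F := F) ℓ m L Ω f Γ) (hle : Γ ⊆ Γ') : NTm45 (F := F) ℓ m L Ω f Γ' :=
  fun c hc hloc hfix => h c hc hloc fun γ hγ hγΓ => hfix γ hγ (hle hγΓ)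

section

variable {ι : Type} [Fintype ι]

theorem tateClassesTorsionW_iff45 {ℓ : ℕ} {k F L Ω : Type u} [Field k] [Field F] [Algebra k F]
    [Field L] [Algebra F[X] L] [IsFractionRing F[X] L] [Field Ω] [Algebra L Ω] {W : ι → ℕ}
    {α : ι → k[X]} {k' : IntermediateField k F} : TateClassesTorsionW ℓ L Ω W α k' ↔
      NTm45 (F := F) ℓ ℓ L Ω (weightedPoly k F L W α)
        {γ | ∀ p : k'[X], γ (base k' F L Ω p) = base k' F L Ω p} := Iff.rfl

variable {k K F L Ω : Type u} [Field k] [Field K] [Field F] [Algebra k K] [Algebra K F]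
  [Algebra k F] [IsScalarTower k K F] [Field L] [Algebra F[X] L] [IsFractionRing F[X] L] [Field Ω]
  [Algebra L Ω]

lemma weightedPoly_map45 (W : ι → ℕ) (α : ι → k[X]) :
    weightedPoly K F L W (fun i => (α i).map (algebraMap k K)) = weightedPoly k F L W α := by
  unfold weightedPoly
  exact Finset.prod_congr rfl fun i _ => by rw [Superelliptic.base_map8]

/-- Change of the base field. -/
theorem tateClassesTorsionW_base45 {ℓ : ℕ} {W : ι → ℕ} {α : ι → k[X]}
    {k' : IntermediateField k F} {K' : IntermediateField K F} (hle : ∀ x ∈ k', x ∈ K')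
    (h : TateClassesTorsionW ℓ L Ω W (fun i => (α i).map (algebraMap k K)) K') :
    TateClassesTorsionW ℓ L Ω W α k' := by
  rw [tateClassesTorsionW_iff45, weightedPoly_map45] at h
  rw [tateClassesTorsionW_iff45]
  refine h.mono ?_
  intro γ hγ p
  let i : k' →+* K' := (algebraMap k' F).codRestrict K'.toSubalgebra.toSubring fun x => hle x x.2
  have h1 : ∀ p : k'[X], base K' F L Ω (p.map i) = base k' F L Ω p := by
    intro p
    show algebraMap L Ω (algebraMap F[X] L ((p.map i).map (algebraMap K' F))) =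
      algebraMap L Ω (algebraMap F[X] L (p.map (algebraMap k' F)))
    rw [Polynomial.map_map]
    rfl
  rw [← h1]
  exact hγ _

end

section

variable {ι : Type} [Fintype ι] [LinearOrder ι]

/-- From the statement over the cyclotomic field to the statement over all number fields. -/
theorem tateClassesTorsionW_of_cyclotomic45 {ℓ : ℕ} (hℓ : ℓ.Prime) (F L Ω : Type) [Field F]
    [Algebra ℚ F] [IsAlgClosure ℚ F] [Field L] [Algebra F[X] L] [IsFractionRing F[X] L] [Field Ω]
    [Algebra L Ω] [IsAlgClosure L Ω] (K : Type) [Field K] [Algebra ℚ K]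
    [IsCyclotomicExtension {ℓ} ℚ K] [Algebra K F] [IsScalarTower ℚ K F]
    (W : ι → ℕ) (α : ι → ℚ[X])
    (h : ∀ (_ : IsAlgClosure K F) (_ : (ℓ : K) ≠ 0) (ζ : K) (_ : IsPrimitiveRoot ζ ℓ)
      (K' : IntermediateField K F) (_ : FiniteDimensional K K'),
      TateClassesTorsionW ℓ L Ω W (fun i => (α i).map (algebraMap ℚ K)) K')
    (k' : IntermediateField ℚ F) (hk' : FiniteDimensional ℚ k') :
    TateClassesTorsionW ℓ L Ω W α k' := by
  haveI : NeZero ℓ := ⟨hℓ.ne_zero⟩
  have hF : IsAlgClosed F := IsAlgClosure.isAlgClosed ℚ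
  have hQF : Algebra.IsAlgebraic ℚ F := IsAlgClosure.isAlgebraic
  haveI hKFa : Algebra.IsAlgebraic K F := Algebra.IsAlgebraic.tower_top (K := ℚ) K
  haveI : IsAlgClosure K F := ⟨hF, hKFa⟩
  haveI : CharZero K := algebraRat.charZero K
  have hζ : IsPrimitiveRoot (IsCyclotomicExtension.zeta ℓ ℚ K) ℓ :=
    IsCyclotomicExtension.zeta_spec ℓ ℚ K
  obtain ⟨K', hK', hle⟩ := Superelliptic.exists_finite8 (K := K) k'
  exact tateClassesTorsionW_base45 (K := K) hle
    (h inferInstance (by exact_mod_cast hℓ.ne_zero) _ hζ K' hK')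

end

end Pool.Agent.Lib.MP_89bcae_ag.Wt

end

section

namespace Pool.Agent.Lib.MP_89bcae_ag.Lr

variable {ι : Type} {ℓ : ℕ}

/-- Four elements. Proof: `Finset.card_eq_succ` (or `Finset.card_eq_three`, ...) gives
`S = {s₁, s₂, s₃, s₄}`; `exists_goodR_four` gives `α, g`; take
`c T = if T = {s₁, s₂} ∨ T = {s₃, s₄} then α else if T = {s₁, s₂, s₃} then g s₄ else
if T = {s₁, s₂, s₄} then g s₃ else if T = {s₁, s₃, s₄} then g s₂ else if T = {s₂, s₃, s₄} then g s₁
else 0`; `goodT_four`. -/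
theorem Ex.base [DecidableEq ι] [Fact ℓ.Prime] (hℓ2 : ℓ ≠ 2) {w : ι → ZMod ℓ} {S : Finset ι}
    (hS : S.card = 4) (hw : ∀ i ∈ S, w i ≠ 0) (hs : ∑ i ∈ S, w i ≠ 0) : Ex w S := by
  obtain ⟨s₁, S', h1, rfl, hS'⟩ := Finset.card_eq_succ.1 hS
  obtain ⟨s₂, s₃, s₄, h23, h24, h34, rfl⟩ := Finset.card_eq_three.1 hS'
  simp only [Finset.mem_insert, Finset.mem_singleton, not_or] at h1
  obtain ⟨h12, h13, h14⟩ := h1
  have hW : w s₁ + w s₂ + w s₃ + w s₄ ≠ 0 := by
    have : ∑ i ∈ ({s₁, s₂, s₃, s₄} : Finset ι), w i = w s₁ + w s₂ + w s₃ + w s₄ := by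
      rw [Finset.sum_insert (by simp [h12, h13, h14]), Finset.sum_insert (by simp [h23, h24]),
        Finset.sum_insert (by simp [h34]), Finset.sum_singleton]
      ring
    rwa [this] at hs
  obtain ⟨α, g, hg⟩ := exists_goodR_four hℓ2 h12 h13 h14 h23 h24 h34 (hw s₁ (by simp))
    (hw s₂ (by simp)) (hw s₃ (by simp)) (hw s₄ (by simp)) hW
  let c : Finset ι → ZMod ℓ := fun T =>
    if (s₁ ∈ T ∧ s₂ ∈ T ∧ s₃ ∉ T ∧ s₄ ∉ T) ∨ (s₁ ∉ T ∧ s₂ ∉ T ∧ s₃ ∈ T ∧ s₄ ∈ T) then α
    else if s₁ ∈ T ∧ s₂ ∈ T ∧ s₃ ∈ T ∧ s₄ ∉ T then g s₄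
    else if s₁ ∈ T ∧ s₂ ∈ T ∧ s₃ ∉ T ∧ s₄ ∈ T then g s₃
    else if s₁ ∈ T ∧ s₂ ∉ T ∧ s₃ ∈ T ∧ s₄ ∈ T then g s₂
    else if s₁ ∉ T ∧ s₂ ∈ T ∧ s₃ ∈ T ∧ s₄ ∈ T then g s₁
    else 0
  have hR : GoodR w (fun i l => c {i, l}) g {s₁, s₂, s₃, s₄} := by
    apply hg <;>
      simp [c, h12, h13, h14, h23, h24, h34, Ne.symm h12, Ne.symm h13, Ne.symm h14, Ne.symm h23,
        Ne.symm h24, Ne.symm h34]
  refine ⟨c, g, ?_, hR⟩
  refine goodT_four h12 h13 h14 h23 h24 h34 (hw s₁ (by simp))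
    (hw s₂ (by simp)) (hw s₃ (by simp)) (hw s₄ (by simp)) hW hR ?_ ?_ ?_ ?_ ?_ ?_ ?_ <;>
      simp [c, h12, h13, h14, h23, h24, h34, Ne.symm h12, Ne.symm h13, Ne.symm h14, Ne.symm h23,
        Ne.symm h24, Ne.symm h34]

end Pool.Agent.Lib.MP_89bcae_ag.Lr

end

section

namespace Pool.Agent.Lib.MP_89bcae_ag.Lr

variable {ι : Type} {ℓ : ℕ}

/-- One more element. Proof: `c, g` from `hE`; `exists_wall` for `h i l = c {i, l}` (symmetric:
`Finset.pair_comm`) gives `g', k, a`; `exists_goodK_of_wall` with `ω = w b` gives `y`, with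
`u = Function.update g' k (...)`. Let `c' T = if b ∈ T then (if (T.erase b).card = 1 then
∑ i ∈ T.erase b, g' i else c (T.erase b)) else c T`: `goodT_insert` (with `g'`) and `goodR_insert` (with
`g'`, `u` and `u' = Function.update u b y`). -/
theorem Ex.step [DecidableEq ι] [Fact ℓ.Prime] (hℓ2 : ℓ ≠ 2) {w : ι → ZMod ℓ} {S : Finset ι}
    (hS : 2 ≤ S.card) (hw : ∀ i ∈ S, w i ≠ 0) (hs : ∑ i ∈ S, w i ≠ 0) {b : ι} (hb : b ∉ S)
    (hwb : w b ≠ 0) (hsb : ∑ i ∈ S, w i + w b ≠ 0) (hE : Ex w S) : Ex w (insert b S) := by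
  obtain ⟨c, g, hT, hR⟩ := hE
  obtain ⟨g', k, a, hg', hk, hbad⟩ := exists_wall hℓ2 hS hw hs hR
  have hh : ∀ i ∈ S, ∀ l ∈ S, (fun i l => c {i, l}) i l = (fun i l => c {i, l}) l i := by
    intro i _ l _
    exact congrArg c (Finset.pair_comm i l)
  obtain ⟨y, hK⟩ := exists_goodK_of_wall (ω := w b) hh hs hwb hsb hg' hk (hw k hk) hbad
  have hne : S.Nonempty := ⟨k, hk⟩
  have hSb : ∀ i ∈ S, i ≠ b := fun i hi h => hb (h ▸ hi)
  let c' : Finset ι → ZMod ℓ := fun T => if b ∈ T then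
    (if (T.erase b).card = 1 then ∑ i ∈ T.erase b, g' i else c (T.erase b)) else c T
  have k1 : ∀ T : Finset ι, b ∉ T → c' T = c T := fun T hT' => if_neg hT'
  have k2 : ∀ T : Finset ι, b ∉ T → c' (insert b T) =
      if T.card = 1 then ∑ i ∈ T, g' i else c T := by
    intro T hT'
    have e : (insert b T).erase b = T := Finset.erase_insert hT'
    have : c' (insert b T) = if ((insert b T).erase b).card = 1 then
        ∑ i ∈ (insert b T).erase b, g' i else c ((insert b T).erase b) :=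
      if_pos (Finset.mem_insert_self b T)
    rw [this, e]
  have k3 : ∀ i ∈ S, c' {b, i} = g' i := by
    intro i hi
    have h1 : b ∉ ({i} : Finset ι) := by
      rw [Finset.mem_singleton]; exact fun h => hSb i hi h.symm
    rw [k2 {i} h1, if_pos (Finset.card_singleton i), Finset.sum_singleton]
  have k4 : ∀ i ∈ S, ∀ j ∈ S, b ∉ ({i, j} : Finset ι) := by
    intro i hi j hj h
    rw [Finset.mem_insert, Finset.mem_singleton] at h
    rcases h with h | h
    · exact hSb i hi h.symm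
    · exact hSb j hj h.symm
  have k5 : ∀ i ∈ S, ∀ j ∈ S, i ≠ j → c' {i, j} = c {i, j} := fun i hi j hj _ =>
    k1 _ (k4 i hi j hj)
  refine ⟨c', Function.update (Function.update g' k
    (g' k + (∑ l ∈ S, w l) * a / (∑ l ∈ S, w l + w b))) b y, ?_, ?_⟩
  · refine goodT_insert (g := g') hne hb hT hg' ?_ k5 ?_ k3
    · intro i hi j hj l hl _ _ _
      refine k1 _ ?_
      intro h
      rw [Finset.mem_insert] at h
      rcases h with h | h
      · exact hSb i hi h.symm
      · exact k4 j hj l hl h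
    · intro i hi j hj hij
      rw [k2 _ (k4 i hi j hj), if_neg]
      rw [Finset.card_pair hij]
      decide
  · refine goodR_insert hb hK k5 ?_ k3 ?_ (Function.update_self _ _ _)
    · intro i hi
      show c' {i, b} = g' i
      rw [Finset.pair_comm]
      exact k3 i hi
    · intro i hi
      exact Function.update_of_ne (hSb i hi) _ _

end Pool.Agent.Lib.MP_89bcae_ag.Lr

end

section

namespace Pool.Agent.Lib.MP_89bcae_ag.Lr

variable {ι : Type} {ℓ : ℕ}

/-- Two more elements of the same weight. Proof: `c, g` from `hE`; `exists_wall` gives `g', k, a`;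
`exists_goodK_of_wall'` with `ω = 2 * w b` gives `y`, with `u = Function.update g' k (...)`;
`exists_goodR_insert₂` for `g'` and this `y` gives `X', Y'`. Let `c'` be such that the hypotheses
`h1, ..., h6` of `goodT_insert₂` hold (with `g'` for `g`): for instance
`c' T = if b ∈ T ∧ b' ∈ T then (if T.card = 2 then y else ∑ i ∈ (T.erase b).erase b', u i) else
if b ∈ T ∨ b' ∈ T then (if T.card = 2 then ∑ i ∈ (T.erase b).erase b', g' i else
c ((T.erase b).erase b')) else c T`, and `g''` equal to `g'` on `S`, to `X'` at `b`, `Y'` at `b'`. -/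
theorem Ex.step₂ [DecidableEq ι] [Fact ℓ.Prime] (hℓ2 : ℓ ≠ 2) {w : ι → ZMod ℓ} {S : Finset ι}
    (hS : 2 ≤ S.card) (hw : ∀ i ∈ S, w i ≠ 0) (hs : ∑ i ∈ S, w i ≠ 0) {b b' : ι} (hb : b ∉ S)
    (hb' : b' ∉ S) (hbb' : b ≠ b') (hwb : w b ≠ 0) (hwb' : w b' = w b)
    (hsb : ∑ i ∈ S, w i + 2 * w b ≠ 0) (hE : Ex w S) : Ex w (insert b (insert b' S)) := by
  classical
  obtain ⟨c, g, hT, hR⟩ := hE
  have hSne : S.Nonempty := Finset.card_pos.mp (by omega)
  have h20 : (2 : ZMod ℓ) ≠ 0 := by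
    have hp : ℓ.Prime := Fact.out
    intro h
    have h' : ((2 : ℕ) : ZMod ℓ) = 0 := by exact_mod_cast h
    rw [ZMod.natCast_eq_zero_iff] at h'
    exact hℓ2 ((Nat.prime_dvd_prime_iff_eq hp Nat.prime_two).mp h')
  obtain ⟨g', k, a, hg', hk, hbad⟩ := exists_wall hℓ2 hS hw hs hR
  obtain ⟨y, hy⟩ := exists_goodK_of_wall' (ω := 2 * w b)
    (h := fun i l => c {i, l}) (fun i _ l _ => by simp only [Finset.pair_comm])
    hs (mul_ne_zero h20 hwb) hsb hg' hk (hw k hk) hbad
  set u := Function.update g' k (g' k - (∑ l ∈ S, w l) * a / (2 * w b)) with hu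
  obtain ⟨X, Y, hXY⟩ := exists_goodR_insert₂ hℓ2 hSne hb hb' hbb' rfl hwb' hs hwb hsb hg' y
  have hne : ∀ i ∈ S, i ≠ b := fun i hi h => hb (h ▸ hi)
  have hne' : ∀ i ∈ S, i ≠ b' := fun i hi h => hb' (h ▸ hi)
  let D : Finset ι → Finset ι := fun T => (T.erase b).erase b'
  let c' : Finset ι → ZMod ℓ := fun T =>
    if b ∈ T ∧ b' ∈ T then (if (D T).card = 0 then y else ∑ i ∈ D T, u i) else
    if b ∈ T ∨ b' ∈ T then (if (D T).card = 1 then ∑ i ∈ D T, g' i else c (D T)) else c T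
  have hc' : ∀ T, c' T = if b ∈ T ∧ b' ∈ T then (if (D T).card = 0 then y else ∑ i ∈ D T, u i) else
    if b ∈ T ∨ b' ∈ T then (if (D T).card = 1 then ∑ i ∈ D T, g' i else c (D T)) else c T :=
    fun T => rfl
  have hDb : ∀ T : Finset ι, b ∉ T → b' ∉ T → D (insert b T) = T := by
    intro T h1 h2
    simp only [D]
    rw [Finset.erase_insert h1, Finset.erase_eq_of_notMem h2]
  have hDb' : ∀ T : Finset ι, b ∉ T → b' ∉ T → D (insert b' T) = T := by
    intro T h1 h2
    simp only [D]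
    have h3 : b ∉ insert b' T := by simp [hbb', h1]
    rw [Finset.erase_eq_of_notMem h3, Finset.erase_insert h2]
  have hDbb : ∀ T : Finset ι, b ∉ T → b' ∉ T → D (insert b (insert b' T)) = T := by
    intro T h1 h2
    simp only [D]
    rw [Finset.erase_insert (by simp [hbb', h1]), Finset.erase_insert h2]
  have e1 : ∀ T : Finset ι, T ⊆ S → c' T = c T := by
    intro T hTS
    have h1 : b ∉ T := fun h => hb (hTS h)
    have h2 : b' ∉ T := fun h => hb' (hTS h)
    rw [hc']; simp [h1, h2]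
  have e2 : ∀ T : Finset ι, T ⊆ S → T.card ≠ 1 → c' (insert b T) = c T := by
    intro T hTS hc
    have h1 : b ∉ T := fun h => hb (hTS h)
    have h2 : b' ∉ T := fun h => hb' (hTS h)
    rw [hc', hDb T h1 h2]
    have h3 : ¬ (b ∈ insert b T ∧ b' ∈ insert b T) := by simp [h2, Ne.symm hbb']
    have h4 : b ∈ insert b T ∨ b' ∈ insert b T := Or.inl (Finset.mem_insert_self _ _)
    rw [if_neg h3, if_pos h4, if_neg hc]
  have e2' : ∀ T : Finset ι, T ⊆ S → T.card ≠ 1 → c' (insert b' T) = c T := by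
    intro T hTS hc
    have h1 : b ∉ T := fun h => hb (hTS h)
    have h2 : b' ∉ T := fun h => hb' (hTS h)
    rw [hc', hDb' T h1 h2]
    have h3 : ¬ (b ∈ insert b' T ∧ b' ∈ insert b' T) := by simp [h1, hbb']
    have h4 : b ∈ insert b' T ∨ b' ∈ insert b' T := Or.inr (Finset.mem_insert_self _ _)
    rw [if_neg h3, if_pos h4, if_neg hc]
  have e3 : ∀ i ∈ S, c' {b, i} = g' i := by
    intro i hi
    have h1 : b ∉ ({i} : Finset ι) := by simpa using (hne i hi).symm
    have h2 : b' ∉ ({i} : Finset ι) := by simpa using (hne' i hi).symm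
    have h0 : ({b, i} : Finset ι) = insert b {i} := rfl
    rw [h0, hc', hDb _ h1 h2]
    have h3 : ¬ (b ∈ insert b ({i} : Finset ι) ∧ b' ∈ insert b ({i} : Finset ι)) := by
      rintro ⟨_, h⟩
      rcases Finset.mem_insert.mp h with h | h
      · exact hbb' h.symm
      · exact h2 h
    have h4 : b ∈ insert b ({i} : Finset ι) ∨ b' ∈ insert b ({i} : Finset ι) :=
      Or.inl (Finset.mem_insert_self _ _)
    rw [if_neg h3, if_pos h4, if_pos (Finset.card_singleton i), Finset.sum_singleton]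
  have e3' : ∀ i ∈ S, c' {b', i} = g' i := by
    intro i hi
    have h1 : b ∉ ({i} : Finset ι) := by simpa using (hne i hi).symm
    have h2 : b' ∉ ({i} : Finset ι) := by simpa using (hne' i hi).symm
    have h0 : ({b', i} : Finset ι) = insert b' {i} := rfl
    rw [h0, hc', hDb' _ h1 h2]
    have h3 : ¬ (b ∈ insert b' ({i} : Finset ι) ∧ b' ∈ insert b' ({i} : Finset ι)) := by
      rintro ⟨h, _⟩
      rcases Finset.mem_insert.mp h with h | h
      · exact hbb' h
      · exact h1 h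
    have h4 : b ∈ insert b' ({i} : Finset ι) ∨ b' ∈ insert b' ({i} : Finset ι) :=
      Or.inr (Finset.mem_insert_self _ _)
    rw [if_neg h3, if_pos h4, if_pos (Finset.card_singleton i), Finset.sum_singleton]
  have e5 : ∀ i ∈ S, c' {b, b', i} = u i := by
    intro i hi
    have h1 : b ∉ ({i} : Finset ι) := by simpa using (hne i hi).symm
    have h2 : b' ∉ ({i} : Finset ι) := by simpa using (hne' i hi).symm
    have h0 : ({b, b', i} : Finset ι) = insert b (insert b' {i}) := rfl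
    rw [h0, hc', hDbb _ h1 h2]
    have h3 : b ∈ insert b (insert b' ({i} : Finset ι)) ∧ b' ∈ insert b (insert b' ({i} : Finset ι)) :=
      ⟨Finset.mem_insert_self _ _, Finset.mem_insert_of_mem (Finset.mem_insert_self _ _)⟩
    rw [if_pos h3, if_neg (by rw [Finset.card_singleton]; norm_num), Finset.sum_singleton]
  have e6 : c' {b, b'} = y := by
    have h0 : ({b, b'} : Finset ι) = insert b (insert b' ∅) := by simp
    rw [h0, hc', hDbb _ (Finset.notMem_empty _) (Finset.notMem_empty _)]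
    have h3 : b ∈ insert b (insert b' (∅ : Finset ι)) ∧ b' ∈ insert b (insert b' (∅ : Finset ι)) :=
      ⟨Finset.mem_insert_self _ _, Finset.mem_insert_of_mem (Finset.mem_insert_self _ _)⟩
    rw [if_pos h3, if_pos Finset.card_empty]
  have hpairS : ∀ i ∈ S, ∀ j ∈ S, ({i, j} : Finset ι) ⊆ S := by
    intro i hi j hj x hx
    rcases Finset.mem_insert.mp hx with h | h
    · exact h ▸ hi
    · exact (Finset.mem_singleton.mp h) ▸ hj
  have hpairc : ∀ i j : ι, i ≠ j → ({i, j} : Finset ι).card ≠ 1 := by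
    intro i j hij
    rw [Finset.card_pair hij]; norm_num
  refine ⟨c', fun x => if x = b then X else if x = b' then Y else g' x, ?_, ?_⟩
  · refine goodT_insert₂ hℓ2 hSne hb hb' hbb' (e := w b) (y := y) rfl hwb' hT hg' hy
      ?_ ?_ ?_ ?_ e3 e3' e5 e6
    · intro i hi j hj l hl _ _ _
      refine e1 _ ?_
      intro x hx
      rcases Finset.mem_insert.mp hx with h | h
      · exact h ▸ hi
      · exact hpairS j hj l hl h
    · intro i hi j hj _
      exact e1 _ (hpairS i hi j hj)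
    · intro i hi j hj hij
      exact e2 _ (hpairS i hi j hj) (hpairc i j hij)
    · intro i hi j hj hij
      exact e2' _ (hpairS i hi j hj) (hpairc i j hij)
  · refine hXY _ _ ?_ ?_ ?_ ?_ ?_ ?_ ?_ ?_ ?_ ?_
    · intro i hi l hl _
      exact e1 _ (hpairS i hi l hl)
    · intro i hi
      show c' {i, b} = g' i
      rw [Finset.pair_comm]; exact e3 i hi
    · intro i hi
      show c' {i, b'} = g' i
      rw [Finset.pair_comm]; exact e3' i hi
    · intro i hi
      exact e3 i hi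
    · intro i hi
      exact e3' i hi
    · exact e6
    · show c' {b', b} = y
      rw [Finset.pair_comm]; exact e6
    · intro i hi
      simp [hne i hi, hne' i hi]
    · simp
    · simp [Ne.symm hbb']

end Pool.Agent.Lib.MP_89bcae_ag.Lr

end

section

namespace Pool.Agent.Lib.MP_89bcae_ag.Lr

variable {ι : Type} {ℓ : ℕ}

/-- **Existence of symbols without eigenvectors.** Proof: strong induction on the cardinality. `4`:
`Ex.base`. Let `5 ≤ S.card`, `W = ∑ w_i ≠ 0`. If some `b ∈ S` has `w b ≠ W`: `S' = S.erase b` has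
`∑ = W - w b ≠ 0`, induction and `Ex.step` (`Finset.insert_erase`). Otherwise `w b = W` for all `b ∈ S`,
so `(n : ZMod ℓ) W = W`, `(n - 1 : ZMod ℓ) = 0` for `n = S.card`; `n ≠ 5` because `4 ≠ 0` in `ZMod ℓ`
(`ℓ ≠ 2`); so `6 ≤ n`. Let `b ≠ b'` be in `S`, `S' = (S.erase b).erase b'`: `∑ = W - 2 W = - W ≠ 0`,
`4 ≤ S'.card`, and `∑_{S'} + 2 w b = W ≠ 0`: induction and `Ex.step₂`. -/
theorem exists_good [DecidableEq ι] [Fact ℓ.Prime] (hℓ2 : ℓ ≠ 2) {w : ι → ZMod ℓ} (S : Finset ι)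
    (hS : 4 ≤ S.card) (hw : ∀ i ∈ S, w i ≠ 0) (hs : ∑ i ∈ S, w i ≠ 0) : Ex w S := by
  induction hn : S.card using Nat.strong_induction_on generalizing S with
  | _ n ih =>
    subst hn
    rcases eq_or_lt_of_le hS with h4 | h5
    · exact Ex.base hℓ2 h4.symm hw hs
    by_cases hb : ∃ b ∈ S, w b ≠ ∑ i ∈ S, w i
    · obtain ⟨b, hbS, hbw⟩ := hb
      have hsum : ∑ i ∈ S.erase b, w i + w b = ∑ i ∈ S, w i := Finset.sum_erase_add S w hbS
      have hs' : ∑ i ∈ S.erase b, w i ≠ 0 := by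
        intro h0
        rw [h0, zero_add] at hsum
        exact hbw hsum
      have hc : (S.erase b).card = S.card - 1 := Finset.card_erase_of_mem hbS
      have hw' : ∀ i ∈ S.erase b, w i ≠ 0 := fun i hi => hw i (Finset.mem_of_mem_erase hi)
      have hE : Ex w (S.erase b) := ih (S.erase b).card (by omega) (S.erase b) (by omega) hw' hs' rfl
      have h6 := Ex.step hℓ2 (by omega) hw' hs' (Finset.notMem_erase b S) (hw b hbS)
        (by rw [hsum]; exact hs) hE
      rw [Finset.insert_erase hbS] at h6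
      exact h6
    · have hb' : ∀ b ∈ S, w b = ∑ i ∈ S, w i := by
        intro b hbS
        by_contra hne
        exact hb ⟨b, hbS, hne⟩
      have hW : ∑ i ∈ S, w i = (S.card : ZMod ℓ) * ∑ i ∈ S, w i := by
        conv_lhs => rw [Finset.sum_congr rfl hb']
        rw [Finset.sum_const, nsmul_eq_mul]
      have hcard : (S.card : ZMod ℓ) = 1 := by
        have h6 : ((S.card : ZMod ℓ) - 1) * ∑ i ∈ S, w i = 0 := by
          linear_combination -hW
        rcases mul_eq_zero.mp h6 with h7 | h7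
        · exact sub_eq_zero.mp h7
        · exact absurd h7 hs
      have h5' : S.card ≠ 5 := by
        intro h55
        rw [h55] at hcard
        have h4 : (2 : ZMod ℓ) * 2 = 0 := by
          have : ((5 : ℕ) : ZMod ℓ) = 5 := by norm_cast
          rw [this] at hcard
          linear_combination hcard
        have h2 : (2 : ZMod ℓ) = 0 := by
          rcases mul_eq_zero.mp h4 with h | h <;> exact h
        have h2' : ((2 : ℕ) : ZMod ℓ) = 0 := by exact_mod_cast h2
        rw [ZMod.natCast_eq_zero_iff] at h2'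
        exact hℓ2 ((Nat.prime_dvd_prime_iff_eq (Fact.out : ℓ.Prime) Nat.prime_two).mp h2')
      obtain ⟨b, hbS, b', hbS', hne⟩ := Finset.one_lt_card.mp (by omega : 1 < S.card)
      have hbe : b' ∈ S.erase b := Finset.mem_erase.mpr ⟨Ne.symm hne, hbS'⟩
      have hsum1 : ∑ i ∈ S.erase b, w i + w b = ∑ i ∈ S, w i := Finset.sum_erase_add S w hbS
      have hsum2 : ∑ i ∈ (S.erase b).erase b', w i + w b' = ∑ i ∈ S.erase b, w i :=
        Finset.sum_erase_add (S.erase b) w hbe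
      have hwb := hb' b hbS
      have hwb' := hb' b' hbS'
      have hs' : ∑ i ∈ (S.erase b).erase b', w i ≠ 0 := by
        intro h0
        apply hs
        rw [h0, hwb'] at hsum2
        rw [← hsum2, hwb] at hsum1
        linear_combination hsum1
      have hw' : ∀ i ∈ (S.erase b).erase b', w i ≠ 0 :=
        fun i hi => hw i (Finset.mem_of_mem_erase (Finset.mem_of_mem_erase hi))
      have hc1 : (S.erase b).card = S.card - 1 := Finset.card_erase_of_mem hbS
      have hc2 : ((S.erase b).erase b').card = (S.erase b).card - 1 := Finset.card_erase_of_mem hbe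
      have hE : Ex w ((S.erase b).erase b') :=
        ih ((S.erase b).erase b').card (by omega) ((S.erase b).erase b') (by omega) hw' hs' rfl
      have hww : w b' = w b := by rw [hwb, hwb']
      have h6 := Ex.step₂ hℓ2 (by omega) hw' hs' (b := b) (b' := b')
        (fun hm => (Finset.notMem_erase b S) (Finset.mem_of_mem_erase hm))
        (Finset.notMem_erase b' _) hne (hw b hbS) hww
        (by
          have : ∑ i ∈ (S.erase b).erase b', w i + 2 * w b = ∑ i ∈ S, w i := by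
            rw [← hsum1, ← hsum2, hww]; ring
          rw [this]; exact hs) hE
      rw [Finset.insert_erase hbe, Finset.insert_erase hbS] at h6
      exact h6

end Pool.Agent.Lib.MP_89bcae_ag.Lr

end

section

/-!
# Symbols for the lines of the projective plane
-/

open scoped Classical

set_option linter.unusedSectionVars false

namespace Pool.Agent.Lib.MP_89bcae_ag.Lr

variable {ι : Type} [Fintype ι] [LinearOrder ι]

/-- Symbols for the lines. Proof: `exists_good` for the type `I`, `S = Finset.univ`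
(`∑ i, (W i : ZMod ℓ) ≠ 0`, `(W i : ZMod ℓ) ≠ 0` from the coprimality) gives `c` and `GoodT w c univ`.
Take `C T = c ((T.erase i₀).subtype (· ∈ I))`. Then `C {i, j, l} = c {i, j, l}` for `i, j, l : I` and
`C {i, j, i₀} = c {i, j}` for `i ≠ j` (`i₀ ∉ I`). The last statement from `GoodT.exists_ne`. -/
theorem exists_symbols {ℓ : ℕ} (hℓ : ℓ.Prime) (hℓ2 : ℓ ≠ 2) {i₀ : ι} {I : Finset ι} (hi₀ : i₀ ∉ I)
    (hI : 4 ≤ I.card) (W : I → ℕ) (hW : ∀ i, (W i).Coprime ℓ) (hs : (∑ i, W i).Coprime ℓ) :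
    ∃ (C : Finset ι → ZMod ℓ) (c : Finset I → ZMod ℓ),
      GoodT (fun i => (W i : ZMod ℓ)) c Finset.univ ∧
      (∀ i j l : I, i ≠ j → j ≠ l → i ≠ l → C {(i : ι), (j : ι), (l : ι)} = c {i, j, l}) ∧
      (∀ i j : I, i ≠ j → C {(i : ι), (j : ι), i₀} = c {i, j}) ∧
      ∃ i j l : ι, i ≠ j ∧ j ≠ l ∧ i ≠ l ∧ C {i, j, l} ≠ 0 := by
  have : Fact ℓ.Prime := ⟨hℓ⟩
  have hne : ∀ n : ℕ, n.Coprime ℓ → (n : ZMod ℓ) ≠ 0 := by
    intro n hn h0
    rw [ZMod.natCast_eq_zero_iff] at h0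
    have := Nat.Coprime.symm hn
    exact hℓ.one_lt.ne' (Nat.Coprime.eq_one_of_dvd this h0)
  have hcard : 4 ≤ (Finset.univ : Finset I).card := by
    rw [Finset.card_univ, Fintype.card_coe]
    exact hI
  have hex := exists_good (ι := I) (ℓ := ℓ) hℓ2 (w := fun i => (W i : ZMod ℓ)) Finset.univ hcard
    (fun i _ => hne _ (hW i)) (by
      have h := hne _ hs
      rw [Nat.cast_sum] at h
      exact h)
  obtain ⟨c, g, hT, hR⟩ := hex
  have hi : ∀ i : I, (i : ι) ≠ i₀ := fun i h => hi₀ (h ▸ i.2)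
  have h1 : ∀ i j l : I, c ((({(i : ι), (j : ι), (l : ι)} : Finset ι).erase i₀).subtype (· ∈ I)) = c {i, j, l} := by
    intro i j l
    congr 1
    ext x
    simp only [Finset.mem_subtype, Finset.mem_erase, Finset.mem_insert, Finset.mem_singleton, Subtype.ext_iff]
    exact ⟨fun h => h.2, fun h => ⟨hi x, h⟩⟩
  have h2 : ∀ i j : I, c ((({(i : ι), (j : ι), i₀} : Finset ι).erase i₀).subtype (· ∈ I)) = c {i, j} := by
    intro i j
    congr 1
    ext x
    simp only [Finset.mem_subtype, Finset.mem_erase, Finset.mem_insert, Finset.mem_singleton, Subtype.ext_iff]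
    constructor
    · rintro ⟨-, h | h | h⟩
      · exact Or.inl h
      · exact Or.inr h
      · exact absurd h (hi x)
    · rintro (h | h)
      · exact ⟨hi x, Or.inl h⟩
      · exact ⟨hi x, Or.inr (Or.inl h)⟩
  refine ⟨fun T => c ((T.erase i₀).subtype (· ∈ I)), c, hT, fun i j l _ _ _ => h1 i j l,
    fun i j _ => h2 i j, ?_⟩
  rcases hT.exists_ne (by omega) with ⟨i, -, j, -, l, -, hij, hjl, hil, hc⟩ | ⟨i, -, j, -, hij, hc⟩
  · refine ⟨i, j, l, fun h => hij (Subtype.ext h), fun h => hjl (Subtype.ext h), fun h => hil (Subtype.ext h), ?_⟩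
    rw [← h1 i j l] at hc
    exact hc
  · refine ⟨i, j, i₀, fun h => hij (Subtype.ext h), hi j, hi i, ?_⟩
    rw [← h2 i j] at hc
    exact hc

end Pool.Agent.Lib.MP_89bcae_ag.Lr

end
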