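import Mathlib

/-!
# The sum of the inverses of the primes in a residue class diverges
-/

open ArithmeticFunction vonMangoldt Filter Topology

open scoped Classical

namespace Pool.Agent.Lib.MP_89bcae_ag

set_option linter.unusedSectionVars false

section

variable {q : ℕ} {a : ZMod q}

/-- The set of the primes in the residue class. -/
def resPrimes14 (a : ZMod q) : Set ℕ := {p : ℕ | p.Prime ∧ (p : ZMod q) = a}

lemma summable_residue_rpow14 {x : ℝ} (hx : 1 < x) :
    Summable fun n : ℕ => residueClass a n / (n : ℝ) ^ x :=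
  LSeries.summable_real_of_abscissaOfAbsConv_lt <|
    (abscissaOfAbsConv_residueClass_le_one a).trans_lt <| by exact_mod_cast hx

lemma summable_log14 {x : ℝ} (hx : 1 < x) :
    Summable fun n : ℕ => (resPrimes14 a).indicator (fun n : ℕ => Real.log n / (n : ℝ) ^ x) n := by
  refine Summable.of_nonneg_of_le (fun n => Set.indicator_nonneg (fun n _ => by positivity) n)
    (fun n => ?_) (summable_residue_rpow14 (a := a) hx)
  by_cases hn : n ∈ resPrimes14 a
  · rw [Set.indicator_of_mem hn]
    have h1 : residueClass a n = Real.log n := by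
      rw [residueClass, Set.indicator_of_mem (show n ∈ {n : ℕ | (n : ZMod q) = a} from hn.2),
        vonMangoldt_apply_prime hn.1]
    rw [h1]
  · rw [Set.indicator_of_notMem hn]
    exact div_nonneg (residueClass_nonneg a n) (by positivity)

/-- The lower bound for the primes alone. -/
lemma log_lower14 [NeZero q] (ha : IsUnit a) :
    ∃ C : ℝ, ∀ x ∈ Set.Ioc (1 : ℝ) 2, (q.totient : ℝ)⁻¹ / (x - 1) - C ≤
      ∑' n : ℕ, (resPrimes14 a).indicator (fun n : ℕ => Real.log n / (n : ℝ) ^ x) n := by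
  obtain ⟨C, hC⟩ := LSeries_residueClass_lower_bound ha
  refine ⟨C + ∑' n : ℕ, (if n.Prime then 0 else residueClass a n) / n, fun x hx => ?_⟩
  have h1 := hC hx
  have h2 : ∑' n : ℕ, residueClass a n / (n : ℝ) ^ x ≤
      ∑' n : ℕ, ((resPrimes14 a).indicator (fun n : ℕ => Real.log n / (n : ℝ) ^ x) n +
        (if n.Prime then 0 else residueClass a n) / n) := by
    refine Summable.tsum_le_tsum (fun n => ?_) (summable_residue_rpow14 hx.1)
      ((summable_log14 hx.1).add (summable_residueClass_non_primes_div a))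
    by_cases hp : n.Prime
    · rw [if_pos hp, zero_div, add_zero]
      by_cases hna : (n : ZMod q) = a
      · rw [Set.indicator_of_mem (show n ∈ resPrimes14 a from ⟨hp, hna⟩), residueClass,
          Set.indicator_of_mem (show n ∈ {n : ℕ | (n : ZMod q) = a} from hna),
          vonMangoldt_apply_prime hp]
      · rw [residueClass, Set.indicator_of_notMem (show n ∉ {n : ℕ | (n : ZMod q) = a} from hna),
          zero_div]
        exact Set.indicator_nonneg (fun n _ => by positivity) n
    · rw [if_neg hp]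
      have h3 : 0 ≤ (resPrimes14 a).indicator (fun n : ℕ => Real.log n / (n : ℝ) ^ x) n :=
        Set.indicator_nonneg (fun n _ => by positivity) n
      rcases n.eq_zero_or_pos with rfl | hn
      · simpa using h3
      · have h4 : residueClass a n / (n : ℝ) ^ x ≤ residueClass a n / n := by
          refine div_le_div_of_nonneg_left (residueClass_nonneg a _) (mod_cast hn) ?_
          conv_lhs => rw [← Real.rpow_one n]
          exact Real.rpow_le_rpow_of_exponent_le (by exact_mod_cast hn) hx.1.le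
        linarith
  rw [Summable.tsum_add (summable_log14 hx.1) (summable_residueClass_non_primes_div a)] at h2
  linarith

/-- The mean value inequality. -/
lemma mean_value14 {p : ℕ} (hp : 0 < p) {x h : ℝ} :
    h * (Real.log p / (p : ℝ) ^ x) ≤ 1 / (p : ℝ) ^ (x - h) - 1 / (p : ℝ) ^ x := by
  have hp0 : (0 : ℝ) < p := by exact_mod_cast hp
  have h1 : 1 / (p : ℝ) ^ (x - h) = (p : ℝ) ^ h / (p : ℝ) ^ x := by
    rw [Real.rpow_sub hp0, one_div_div]
  have h2 : 1 + h * Real.log p ≤ (p : ℝ) ^ h := by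
    rw [Real.rpow_def_of_pos hp0]
    have := Real.add_one_le_exp (Real.log p * h)
    linarith
  rw [h1, ← sub_div, mul_div_assoc']
  apply div_le_div_of_nonneg_right _ (by positivity)
  linarith

/-- **The sum of the inverses of the primes in a residue class diverges.** -/
theorem not_summable_residue14 [NeZero q] (ha : IsUnit a) :
    ¬ Summable fun n : ℕ => (resPrimes14 a).indicator (fun n : ℕ => (1 : ℝ) / n) n := by
  intro hS
  obtain ⟨C, hC⟩ := log_lower14 ha
  have hq : 0 < (q.totient : ℝ)⁻¹ := inv_pos.mpr (mod_cast q.totient.pos_of_neZero)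
  set c : ℝ := (q.totient : ℝ)⁻¹ with hc
  have hle : ∀ x : ℝ, 1 ≤ x → ∀ n : ℕ,
      (resPrimes14 a).indicator (fun n : ℕ => (1 : ℝ) / (n : ℝ) ^ x) n ≤
        (resPrimes14 a).indicator (fun n : ℕ => (1 : ℝ) / n) n := by
    intro x hx n
    apply Set.indicator_le_indicator' (fun hn => ?_)
    have h1 : (1 : ℝ) ≤ n := by exact_mod_cast hn.1.one_le
    apply one_div_le_one_div_of_le (by linarith)
    conv_lhs => rw [← Real.rpow_one (n : ℝ)]
    exact Real.rpow_le_rpow_of_exponent_le h1 hx
  have hsum : ∀ x : ℝ, 1 ≤ x → Summable fun n : ℕ =>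
      (resPrimes14 a).indicator (fun n : ℕ => (1 : ℝ) / (n : ℝ) ^ x) n := fun x hx =>
    Summable.of_nonneg_of_le (fun n => Set.indicator_nonneg (fun n _ => by positivity) n)
      (hle x hx) hS
  let G : ℝ → ℝ := fun x => ∑' n : ℕ,
    (resPrimes14 a).indicator (fun n : ℕ => (1 : ℝ) / (n : ℝ) ^ x) n
  have hG : ∀ x, 1 ≤ x → G x ≤ ∑' n : ℕ, (resPrimes14 a).indicator (fun n : ℕ => (1 : ℝ) / n) n :=
    fun x hx => Summable.tsum_le_tsum (hle x hx) (hsum x hx) hS
  have hG0 : ∀ x, 0 ≤ G x := fun x => tsum_nonneg fun n =>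
    Set.indicator_nonneg (fun n _ => by positivity) n
  -- one step
  have hstep : ∀ x h : ℝ, 1 < x → x ≤ 2 → 0 ≤ h → 1 ≤ x - h →
      h * (c / (x - 1) - C) ≤ G (x - h) - G x := by
    intro x h hx hx2 hh hxh
    have h1 := mul_le_mul_of_nonneg_left (hC x ⟨hx, hx2⟩) hh
    refine h1.trans ?_
    rw [← tsum_mul_left, ← (hsum _ hxh).tsum_sub (hsum _ hx.le)]
    refine Summable.tsum_le_tsum (fun n => ?_) ((summable_log14 hx).mul_left h)
      ((hsum _ hxh).sub (hsum _ hx.le))
    by_cases hn : n ∈ resPrimes14 a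
    · rw [Set.indicator_of_mem hn, Set.indicator_of_mem hn, Set.indicator_of_mem hn]
      exact mean_value14 hn.1.pos
    · rw [Set.indicator_of_notMem hn, Set.indicator_of_notMem hn, Set.indicator_of_notMem hn]
      simp
  have hind : ∀ J : ℕ, c * J / 2 - |C| * (1 - (1 / 2) ^ J) ≤ G (1 + (1 / 2) ^ J) := by
    intro J
    induction J with
    | zero =>
      simp only [Nat.cast_zero, mul_zero, zero_div, pow_zero, sub_self]
      exact hG0 _
    | succ J ih =>
      have h2 : (0 : ℝ) < (1 / 2) ^ J := by positivity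
      have h3 : ((1 : ℝ) / 2) ^ J ≤ 1 := pow_le_one₀ (by norm_num) (by norm_num)
      have h4 := hstep (1 + (1 / 2) ^ J) ((1 / 2) ^ (J + 1)) (by linarith) (by linarith)
        (by positivity) (by rw [pow_succ]; linarith)
      have h5 : (1 : ℝ) + (1 / 2) ^ J - (1 / 2) ^ (J + 1) = 1 + (1 / 2) ^ (J + 1) := by
        rw [pow_succ]
        ring
      rw [h5] at h4
      have h6 : (1 / 2 : ℝ) ^ (J + 1) * (c / (1 + (1 / 2) ^ J - 1) - C) =
          c / 2 - (1 / 2) ^ (J + 1) * C := by
        rw [add_sub_cancel_left, pow_succ]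
        field_simp
      rw [h6] at h4
      have h7 : (1 / 2 : ℝ) ^ (J + 1) * C ≤ (1 / 2) ^ (J + 1) * |C| :=
        mul_le_mul_of_nonneg_left (le_abs_self C) (by positivity)
      have h8 : |C| * (1 - (1 / 2 : ℝ) ^ J) = |C| - 2 * ((1 / 2) ^ (J + 1) * |C|) := by
        rw [pow_succ]
        ring
      have h9 : |C| * (1 - (1 / 2 : ℝ) ^ (J + 1)) = |C| - (1 / 2) ^ (J + 1) * |C| := by ring
      rw [h8] at ih
      rw [h9]
      push_cast
      linarith
  obtain ⟨J, hJ⟩ := exists_nat_gt ((∑' n : ℕ,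
    (resPrimes14 a).indicator (fun n : ℕ => (1 : ℝ) / n) n + |C|) * 2 / c)
  have h1 := (hind J).trans (hG _ (by
    have : (0 : ℝ) < (1 / 2) ^ J := by positivity
    linarith))
  rw [div_lt_iff₀ hq] at hJ
  have h2 : |C| * (1 - (1 / 2) ^ J) ≤ |C| := by
    have h3 : (0 : ℝ) < (1 / 2) ^ J := by positivity
    nlinarith [abs_nonneg C]
  linarith

/-- Finite sets of large primes in the residue class with large sums of the inverses. -/
theorem sum_residue_unbounded14 [NeZero q] (ha : IsUnit a) {c : ℝ} (hc : 0 < c) (P₀ : ℕ) (T : ℝ) :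
    ∃ S : Finset ℕ, (∀ p ∈ S, p.Prime ∧ P₀ ≤ p ∧ (p : ZMod q) = a) ∧ T ≤ ∑ p ∈ S, c / p := by
  by_contra hcon
  push Not at hcon
  apply not_summable_residue14 ha
  apply summable_of_sum_le (c := T / c + ∑ p ∈ Finset.range P₀, (1 : ℝ) / p)
  · intro n
    exact Set.indicator_nonneg (fun _ _ => by positivity) n
  · intro s
    have h1 := hcon (s.filter fun p : ℕ => p.Prime ∧ P₀ ≤ p ∧ (p : ZMod q) = a)
      fun p hp => (Finset.mem_filter.mp hp).2
    have h3 : ∑ x ∈ s, (resPrimes14 a).indicator (fun n : ℕ => (1 : ℝ) / n) x =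
        ∑ x ∈ s.filter (fun p : ℕ => p.Prime ∧ (p : ZMod q) = a), (1 : ℝ) / x := by
      rw [Finset.sum_filter]
      refine Finset.sum_congr rfl fun x _ => ?_
      by_cases hx : x ∈ resPrimes14 a
      · rw [Set.indicator_of_mem hx]; exact (if_pos hx).symm
      · rw [Set.indicator_of_notMem hx]; exact (if_neg hx).symm
    have h4 : s.filter (fun p : ℕ => p.Prime ∧ (p : ZMod q) = a) ⊆
        s.filter (fun p : ℕ => p.Prime ∧ P₀ ≤ p ∧ (p : ZMod q) = a) ∪ Finset.range P₀ := by
      intro p hp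
      rw [Finset.mem_filter] at hp
      rw [Finset.mem_union, Finset.mem_filter, Finset.mem_range]
      rcases le_or_gt P₀ p with h | h
      · exact Or.inl ⟨hp.1, hp.2.1, h, hp.2.2⟩
      · exact Or.inr h
    rw [h3]
    refine (Finset.sum_le_sum_of_subset_of_nonneg h4 fun _ _ _ => by positivity).trans ?_
    have h5 := Finset.sum_union_inter (s₁ := s.filter (fun p : ℕ => p.Prime ∧ P₀ ≤ p ∧ (p : ZMod q) = a))
      (s₂ := Finset.range P₀) (f := fun x : ℕ => (1 : ℝ) / x)
    have h6 : 0 ≤ ∑ x ∈ s.filter (fun p : ℕ => p.Prime ∧ P₀ ≤ p ∧ (p : ZMod q) = a) ∩ Finset.range P₀,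
        (1 : ℝ) / x := Finset.sum_nonneg fun _ _ => by positivity
    have h7 : ∑ x ∈ s.filter (fun p : ℕ => p.Prime ∧ P₀ ≤ p ∧ (p : ZMod q) = a), (1 : ℝ) / x ≤
        T / c := by
      rw [le_div_iff₀ hc, Finset.sum_mul]
      refine le_trans (le_of_eq ?_) h1.le
      refine Finset.sum_congr rfl fun x _ => ?_
      ring
    linarith

end

end Pool.Agent.Lib.MP_89bcae_ag
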