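import Mathlib
import Pool.Agent.Lib.MP_89bcae_ag.Mk.K024
import Pool.Agent.Lib.MP_89bcae_ag.Mk.K031
import Pool.Agent.Lib.MP_89bcae_ag.Mk.K034

section

/-!
# From density zero of the complement to density one
-/

open Filter Topology

open scoped Classical

namespace Pool.Agent.Lib.MP_89bcae_ag

/-- From density zero of the complement to density one. -/
lemma density_one8 (m : ℕ) (Good : (Fin m → ℤ) → Prop)
    (h : Tendsto (fun H : ℕ => ({a : Fin m → ℤ | (∀ i, |a i| ≤ H) ∧ ¬ Good a}.ncard : ℝ) /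
      (2 * H + 1) ^ m) atTop (𝓝 0)) :
    Tendsto (fun H : ℕ => ({a : Fin m → ℤ | (∀ i, |a i| ≤ H) ∧ Good a}.ncard : ℝ) /
      (2 * H + 1) ^ m) atTop (𝓝 1) := by
  have h1 : Tendsto (fun H : ℕ => 1 -
      ({a : Fin m → ℤ | (∀ i, |a i| ≤ H) ∧ ¬ Good a}.ncard : ℝ) / (2 * H + 1) ^ m) atTop
      (𝓝 (1 - 0)) := tendsto_const_nhds.sub h
  rw [sub_zero] at h1
  refine h1.congr fun H => ?_
  have hbox : ({a : Fin m → ℤ | ∀ i, |a i| ≤ H}) =
      ((Fintype.piFinset fun _ : Fin m => Finset.Icc (-(H : ℤ)) H : Finset (Fin m → ℤ)) :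
        Set (Fin m → ℤ)) := by
    ext a
    rw [Finset.mem_coe, Fintype.mem_piFinset]
    simp only [Set.mem_ofPred_eq, Finset.mem_Icc, abs_le]
  have hfin : ({a : Fin m → ℤ | ∀ i, |a i| ≤ H}).Finite := by
    rw [hbox]
    exact Finset.finite_toSet _
  have hcard : (({a : Fin m → ℤ | ∀ i, |a i| ≤ H}).ncard : ℝ) = (2 * H + 1) ^ m := by
    rw [hbox, Set.ncard_coe_finset, Fintype.card_piFinset, Finset.prod_const, Finset.card_univ,
      Fintype.card_fin, Int.card_Icc]
    push_cast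
    congr 1
    have h3 : ((H : ℤ) + 1 - -(H : ℤ)).toNat = 2 * H + 1 := by omega
    rw [h3]
    push_cast
    ring
  have hsplit : ({a : Fin m → ℤ | (∀ i, |a i| ≤ H) ∧ Good a}).ncard +
      ({a : Fin m → ℤ | (∀ i, |a i| ≤ H) ∧ ¬ Good a}).ncard =
      ({a : Fin m → ℤ | ∀ i, |a i| ≤ H}).ncard := by
    have hdisj : Disjoint {a : Fin m → ℤ | (∀ i, |a i| ≤ H) ∧ Good a}
        {a : Fin m → ℤ | (∀ i, |a i| ≤ H) ∧ ¬ Good a} := by
      rw [Set.disjoint_left]
      rintro a ⟨-, h3⟩ ⟨-, h4⟩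
      exact h4 h3
    rw [← Set.ncard_union_eq hdisj (hfin.subset fun a ha => ha.1) (hfin.subset fun a ha => ha.1)]
    congr 1
    ext a
    simp only [Set.mem_union, Set.mem_ofPred_eq]
    tauto
  have hpos : (0 : ℝ) < (2 * (H : ℝ) + 1) ^ m := by positivity
  rw [eq_div_iff hpos.ne', sub_mul, div_mul_cancel₀ _ hpos.ne', one_mul, ← hcard, ← hsplit]
  push_cast
  ring

end Pool.Agent.Lib.MP_89bcae_ag

end

section

/-!
# Brackets of lines: counting modulo `p ^ 2`, and density one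
-/

open Filter Topology

open scoped Classical

set_option linter.unusedVariables false
set_option linter.unusedSectionVars false
set_option linter.style.haveILetI false

namespace Pool.Agent.Lib.MP_89bcae_ag

variable {ι : Type} [Fintype ι]

/-- Modulo `p ^ 2`: exactly one bracket is divisible by `p`, and it is not divisible by `p ^ 2`. -/
def TypeL14 (p : ℕ) (x y z : Option ι) (w : ι ⊕ ι → ZMod (p ^ 2)) : Prop :=
  brk14 (fun i => ZMod.castHom (dvd_pow_self p two_ne_zero) (ZMod p) (w i)) x y z = 0 ∧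
    ¬ Bad14 x y z (fun i => ZMod.castHom (dvd_pow_self p two_ne_zero) (ZMod p) (w i)) ∧
    brk14 w x y z ≠ 0

/-- The number of the lifts to `ZMod (p ^ 2)`. -/
lemma card_lift14 {κ : Type} [Fintype κ] {p : ℕ} (hp : p.Prime) (S : Set (κ → ZMod p)) :
    S.ncard * p ^ Fintype.card κ ≤ ({w : κ → ZMod (p ^ 2) |
      (fun i => ZMod.castHom (dvd_pow_self p two_ne_zero) (ZMod p) (w i)) ∈ S}).ncard := by
  haveI : NeZero p := ⟨hp.ne_zero⟩
  haveI : NeZero (p ^ 2) := ⟨pow_ne_zero 2 hp.ne_zero⟩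
  have h1 : (S ×ˢ (Set.univ : Set (κ → Fin p))).ncard = S.ncard * p ^ Fintype.card κ := by
    rw [Set.ncard_prod, Set.ncard_univ, Nat.card_eq_fintype_card, Fintype.card_fun,
      Fintype.card_fin]
  rw [← h1]
  have hlt : ∀ (a : ZMod p) (c : Fin p), a.val + p * (c : ℕ) < p ^ 2 := by
    intro a c
    have h2 := ZMod.val_lt a
    have h3 := c.2
    nlinarith
  refine Set.ncard_le_ncard_of_injOn
    (fun v i => (((v.1 i).val + p * (v.2 i : ℕ) : ℕ) : ZMod (p ^ 2))) ?_ ?_ (Set.toFinite _)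
  · rintro ⟨s, c⟩ ⟨hs, -⟩
    rw [Set.mem_ofPred_eq]
    have h2 : (fun i => ZMod.castHom (dvd_pow_self p two_ne_zero) (ZMod p)
        ((((s i).val + p * (c i : ℕ) : ℕ) : ZMod (p ^ 2)))) = s := by
      funext i
      rw [map_natCast]
      push_cast
      rw [ZMod.natCast_self, zero_mul, add_zero, ZMod.natCast_val, ZMod.cast_id]
    rw [h2]
    exact hs
  · rintro ⟨s, c⟩ - ⟨s', c'⟩ - h
    have h2 : ∀ i, (s i).val + p * (c i : ℕ) = (s' i).val + p * (c' i : ℕ) := by
      intro i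
      have h3 := congrFun h i
      simp only at h3
      rw [ZMod.natCast_eq_natCast_iff'] at h3
      rwa [Nat.mod_eq_of_lt (hlt _ _), Nat.mod_eq_of_lt (hlt _ _)] at h3
    have h4 : ∀ i, s i = s' i := by
      intro i
      have h5 := congrArg (· % p) (h2 i)
      simp only [Nat.add_mul_mod_self_left] at h5
      rw [Nat.mod_eq_of_lt (ZMod.val_lt _), Nat.mod_eq_of_lt (ZMod.val_lt _)] at h5
      exact ZMod.val_injective p h5
    have h6 : ∀ i, c i = c' i := by
      intro i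
      have h7 := h2 i
      rw [h4 i, Nat.add_left_cancel_iff] at h7
      exact Fin.ext (Nat.eq_of_mul_eq_mul_left hp.pos h7)
    simp only [Prod.mk.injEq]
    exact ⟨funext h4, funext h6⟩

/-- The bracket as a function of the coordinate for which we solved. -/
lemma brk14_shift {R : Type} [CommRing R] (x : Option ι) (j k : ι) (hxj : x ≠ some j)
    (hxk : x ≠ some k) (hjk : j ≠ k) : ∃ κ₀ : ι ⊕ ι, ∀ (v : ι ⊕ ι → R) (c : R),
      brk14 (Function.update v κ₀ (v κ₀ + c)) x (some j) (some k) =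
        brk14 v x (some j) (some k) +
          c * (if x = none then -1 else brk14 v x (some j) none) := by
  rcases x with _ | i
  · refine ⟨Sum.inr k, fun v c => ?_⟩
    rw [if_pos rfl, brk14_none', brk14_none', Function.update_self,
      Function.update_of_ne (by simpa using hjk)]
    ring
  · refine ⟨Sum.inl k, fun v c => ?_⟩
    have e1 : some i ≠ some k := hxk
    have e2 : some j ≠ some k := fun h => hjk (Option.some.inj h)
    rw [if_neg (by simp), brk14_some, brk14_some, brk14_none]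
    have e3 : cf1 (Function.update v (Sum.inl k) (v (Sum.inl k) + c)) (some i) (some j) =
        cf1 v (some i) (some j) := by
      unfold cf1
      rw [pb14_update_inl, pb14_update_inl]
    have e4 : cf2 (Function.update v (Sum.inl k) (v (Sum.inl k) + c)) (some i) (some j) =
        cf2 v (some i) (some j) := by
      unfold cf2
      rw [pa14_update_inl _ _ _ e1, pa14_update_inl _ _ _ e2]
    have e5 : cf3 (Function.update v (Sum.inl k) (v (Sum.inl k) + c)) (some i) (some j) =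
        cf3 v (some i) (some j) := by
      unfold cf3
      rw [pb14_update_inl, pb14_update_inl, pa14_update_inl _ _ _ e1, pa14_update_inl _ _ _ e2]
    rw [e3, e4, e5, Function.update_self, Function.update_of_ne (by simp)]
    have e6 : cf1 v (some i) (some j) = v (Sum.inr i) - v (Sum.inr j) := by
      simp [cf1, pc14, pb14]
    rw [e6]
    ring

/-- The count modulo `p ^ 2`. -/
theorem count_typeL14 (x : Option ι) (j k : ι) (hxj : x ≠ some j) (hxk : x ≠ some k)
    (hjk : j ≠ k) : ∃ P₀ : ℕ, ∀ p : ℕ, p.Prime → P₀ ≤ p →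
      (1 / 4 : ℝ) / p * ((p ^ 2 : ℕ) : ℝ) ^ Fintype.card (ι ⊕ ι) ≤
        ({w : ι ⊕ ι → ZMod (p ^ 2) | TypeL14 p x (some j) (some k) w}).ncard := by
  refine ⟨6 * (Fintype.card ι + 1) ^ 3, fun p hp hP => ?_⟩
  haveI : Fact p.Prime := ⟨hp⟩
  haveI : NeZero (p ^ 2) := ⟨pow_ne_zero 2 hp.ne_zero⟩
  set N := Fintype.card (ι ⊕ ι) with hN
  set S : Set (ι ⊕ ι → ZMod p) := {v | brk14 v x (some j) (some k) = 0 ∧
    ¬ Bad14 x (some j) (some k) v} with hS
  have h1 := count_brk14 (F := ZMod p) x j k hxj hxk hjk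
  rw [ZMod.card] at h1
  change p ^ N * p ≤ S.ncard * p * p + 3 * (Fintype.card ι + 1) ^ 3 * p ^ N at h1
  set X : Set (ι ⊕ ι → ZMod (p ^ 2)) := {w |
    (fun i => ZMod.castHom (dvd_pow_self p two_ne_zero) (ZMod p) (w i)) ∈ S} with hX
  have h2 : S.ncard * p ^ N ≤ X.ncard := card_lift14 hp S
  set G : Set (ι ⊕ ι → ZMod (p ^ 2)) := {w | TypeL14 p x (some j) (some k) w} with hG
  -- half of the lifts are good
  have h3 : X.ncard ≤ 2 * G.ncard := by
    obtain ⟨κ₀, hκ⟩ := brk14_shift (R := ZMod (p ^ 2)) x j k hxj hxk hjk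
    have hpz : ZMod.castHom (dvd_pow_self p two_ne_zero) (ZMod p) (p : ZMod (p ^ 2)) = 0 := by
      rw [map_natCast, ZMod.natCast_self]
    have h4 : (X \ G).ncard ≤ G.ncard := by
      refine Set.ncard_le_ncard_of_injOn
        (fun w => Function.update w κ₀ (w κ₀ + (p : ZMod (p ^ 2)))) ?_ ?_ (Set.toFinite _)
      · rintro w ⟨hwX, hwG⟩
        have e1 : (fun i => ZMod.castHom (dvd_pow_self p two_ne_zero) (ZMod p)
            (Function.update w κ₀ (w κ₀ + (p : ZMod (p ^ 2))) i)) =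
            fun i => ZMod.castHom (dvd_pow_self p two_ne_zero) (ZMod p) (w i) := by
          funext i
          by_cases hi : i = κ₀
          · subst hi
            rw [Function.update_self, map_add, hpz, add_zero]
          · rw [Function.update_of_ne hi]
        have e2 : brk14 w x (some j) (some k) = 0 := by
          by_contra h
          exact hwG ⟨hwX.1, hwX.2, h⟩
        refine ⟨by rw [e1]; exact hwX.1, by rw [e1]; exact hwX.2, ?_⟩
        rw [hκ, e2, zero_add]
        intro h5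
        -- `p` times a unit is not zero
        set c : ZMod (p ^ 2) := if x = none then -1 else brk14 w x (some j) none with hc
        have hc1 : ZMod.castHom (dvd_pow_self p two_ne_zero) (ZMod p) c ≠ 0 := by
          rw [hc]
          split_ifs with hx
          · rw [map_neg, map_one]
            exact neg_ne_zero.mpr one_ne_zero
          · intro h6
            rw [map_brk14] at h6
            apply hwX.2
            exact ⟨x, some j, none, hxj, by simp, hx, fun h => hx h.symm, by simp, by simp, h6⟩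
        have h7 : (p : ZMod (p ^ 2)) * c = ((p * c.val : ℕ) : ZMod (p ^ 2)) := by
          push_cast
          rw [ZMod.natCast_val, ZMod.cast_id]
        rw [h7, ZMod.natCast_eq_zero_iff] at h5
        have h5' : p ∣ c.val := by
          generalize c.val = n at h5
          rw [pow_two] at h5
          exact (Nat.mul_dvd_mul_iff_left hp.pos).mp h5
        apply hc1
        have h8 : ZMod.castHom (dvd_pow_self p two_ne_zero) (ZMod p) c =
            ((c.val : ℕ) : ZMod p) := by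
          rw [ZMod.castHom_apply, ZMod.cast_eq_val]
        rw [h8, ZMod.natCast_eq_zero_iff]
        exact h5'
      · intro w _ w' _ h
        funext i
        have h5 := congrFun h i
        simp only at h5
        by_cases hi : i = κ₀
        · subst hi
          rwa [Function.update_self, Function.update_self, add_left_inj] at h5
        · rwa [Function.update_of_ne hi, Function.update_of_ne hi] at h5
    have h5 : X.ncard ≤ (X \ G).ncard + G.ncard := by
      have h6 : X ⊆ (X \ G) ∪ G := fun w hw => by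
        by_cases h : w ∈ G
        · exact Or.inr h
        · exact Or.inl ⟨hw, h⟩
      exact (Set.ncard_le_ncard h6 (Set.toFinite _)).trans (Set.ncard_union_le _ _)
    omega
  -- arithmetic
  have hppos : (0 : ℝ) < p := by exact_mod_cast hp.pos
  have hP' : 6 * ((Fintype.card ι : ℝ) + 1) ^ 3 ≤ p := by exact_mod_cast hP
  have h1' : (p : ℝ) ^ N * p ≤ S.ncard * p * p + 3 * ((Fintype.card ι : ℝ) + 1) ^ 3 * p ^ N := by
    exact_mod_cast h1
  have h2' : (S.ncard : ℝ) * (p : ℝ) ^ N ≤ X.ncard := by exact_mod_cast h2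
  have h3' : (X.ncard : ℝ) ≤ 2 * G.ncard := by exact_mod_cast h3
  have hpN : (0 : ℝ) < (p : ℝ) ^ N := by positivity
  have h6 : 3 * ((Fintype.card ι : ℝ) + 1) ^ 3 * (p : ℝ) ^ N ≤ (p : ℝ) / 2 * (p : ℝ) ^ N :=
    mul_le_mul_of_nonneg_right (by linarith) hpN.le
  have h7 : (p : ℝ) ^ N ≤ 2 * (S.ncard * p) := by
    have h8 : (p : ℝ) ^ N * p ≤ (2 * (S.ncard * p)) * p := by nlinarith
    exact le_of_mul_le_mul_right h8 hppos
  push_cast
  have h9 : ((p : ℝ) ^ 2) ^ N = (p : ℝ) ^ N * (p : ℝ) ^ N := by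
    rw [← pow_mul, two_mul, pow_add]
  rw [h9]
  have h10 : (1 / 4 : ℝ) / p * ((p : ℝ) ^ N * (p : ℝ) ^ N) ≤
      (1 / 4 : ℝ) / p * ((2 * (S.ncard * p)) * (p : ℝ) ^ N) := by
    apply mul_le_mul_of_nonneg_left _ (by positivity)
    exact mul_le_mul_of_nonneg_right h7 hpN.le
  have h11 : (1 / 4 : ℝ) / p * ((2 * (S.ncard * p)) * (p : ℝ) ^ N) =
      1 / 2 * (S.ncard * (p : ℝ) ^ N) := by
    field_simp
    ring
  linarith

/-- The prime `p` divides the bracket of `x, y, z`, but not its square, and no other bracket. -/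
def OnlyBrk14 (p : ℕ) (x y z : Option ι) (v : ι ⊕ ι → ℤ) : Prop :=
  (p : ℤ) ∣ brk14 v x y z ∧ ¬ (p : ℤ) ^ 2 ∣ brk14 v x y z ∧
    ∀ x' y' z' : Option ι, x' ≠ y' → y' ≠ z' → x' ≠ z' →
      ¬ (x' ∈ ({x, y, z} : Set (Option ι)) ∧ y' ∈ ({x, y, z} : Set (Option ι)) ∧
        z' ∈ ({x, y, z} : Set (Option ι))) → ¬ (p : ℤ) ∣ brk14 v x' y' z'

lemma OnlyBrk14.rotate {p : ℕ} {x y z : Option ι} {v : ι ⊕ ι → ℤ} (h : OnlyBrk14 p y z x v) :
    OnlyBrk14 p x y z v := by
  obtain ⟨h1, h2, h3⟩ := h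
  rw [← brk14_rotate] at h1 h2
  refine ⟨h1, h2, fun x' y' z' a b c d => h3 x' y' z' a b c ?_⟩
  have e : ({y, z, x} : Set (Option ι)) = {x, y, z} := by
    ext w
    simp only [Set.mem_insert_iff, Set.mem_singleton_iff]
    tauto
  rw [e]
  exact d

lemma OnlyBrk14.of_typeL14 {p : ℕ} (hp : p.Prime) {x y z : Option ι} {v : ι ⊕ ι → ℤ}
    (h : TypeL14 p x y z (fun i => (v i : ZMod (p ^ 2)))) : OnlyBrk14 p x y z v := by
  obtain ⟨h1, h2, h3⟩ := h
  have e1 : (fun i => ZMod.castHom (dvd_pow_self p two_ne_zero) (ZMod p)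
      ((fun i => (v i : ZMod (p ^ 2))) i)) = fun i => (Int.castRingHom (ZMod p)) (v i) := by
    funext i
    simp
  rw [e1] at h1 h2
  have hdvd : ∀ a b c : Option ι,
      brk14 (fun i => (Int.castRingHom (ZMod p)) (v i)) a b c = 0 ↔ (p : ℤ) ∣ brk14 v a b c := by
    intro a b c
    rw [← map_brk14, eq_intCast, ZMod.intCast_zmod_eq_zero_iff_dvd]
  refine ⟨(hdvd _ _ _).mp h1, ?_, ?_⟩
  · intro h4
    apply h3
    have e2 : (fun i => (v i : ZMod (p ^ 2))) = fun i => (Int.castRingHom (ZMod (p ^ 2))) (v i) := rfl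
    rw [e2, ← map_brk14, eq_intCast, ZMod.intCast_zmod_eq_zero_iff_dvd]
    exact_mod_cast h4
  · intro x' y' z' a b c d h4
    apply h2
    have key : ∀ x' y' z' : Option ι, x' ≠ y' → y' ≠ z' → x' ≠ z' →
        z' ∉ ({x, y, z} : Set (Option ι)) → (p : ℤ) ∣ brk14 v x' y' z' →
        Bad14 x y z (fun i => (Int.castRingHom (ZMod p)) (v i)) := by
      intro x' y' z' a b c d h
      simp only [Set.mem_insert_iff, Set.mem_singleton_iff, not_or] at d
      exact ⟨x', y', z', a, b, c, d.1, d.2.1, d.2.2, (hdvd _ _ _).mpr h⟩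
    by_cases hz : z' ∈ ({x, y, z} : Set (Option ι))
    · by_cases hy : y' ∈ ({x, y, z} : Set (Option ι))
      · have hx : x' ∉ ({x, y, z} : Set (Option ι)) := fun hx => d ⟨hx, hy, hz⟩
        refine key y' z' x' b c.symm a.symm hx ?_
        rw [← brk14_rotate]
        exact h4
      · refine key z' x' y' c.symm a b.symm hy ?_
        rw [← brk14_rotate, ← brk14_rotate]
        exact h4
    · exact key x' y' z' a b c hz h4

/-- For almost all `v` there is a suitable prime for the bracket of `x, y, z`. -/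
lemma density_brk14 (q : ℕ) [NeZero q] (P₁ : ℕ) (x y z : Option ι) (hxy : x ≠ y) (hyz : y ≠ z)
    (hxz : x ≠ z) (e : (ι ⊕ ι) ≃ Fin (Fintype.card (ι ⊕ ι))) :
    Tendsto (fun H : ℕ => ({a : Fin (Fintype.card (ι ⊕ ι)) → ℤ | (∀ i, |a i| ≤ H) ∧
      ¬ (∃ p : ℕ, p.Prime ∧ P₁ ≤ p ∧ (p : ZMod q) = 1 ∧ OnlyBrk14 p x y z (a ∘ e))}.ncard : ℝ) /
      (2 * H + 1) ^ Fintype.card (ι ⊕ ι)) atTop (𝓝 0) := by
  -- reduction to the case where the last two are finite
  have main : ∀ (x : Option ι) (j k : ι), x ≠ some j → x ≠ some k → j ≠ k →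
      Tendsto (fun H : ℕ => ({a : Fin (Fintype.card (ι ⊕ ι)) → ℤ | (∀ i, |a i| ≤ H) ∧
      ¬ (∃ p : ℕ, p.Prime ∧ P₁ ≤ p ∧ (p : ZMod q) = 1 ∧
        OnlyBrk14 p x (some j) (some k) (a ∘ e))}.ncard : ℝ) /
      (2 * H + 1) ^ Fintype.card (ι ⊕ ι)) atTop (𝓝 0) := by
    intro x j k hxj hxk hjk
    obtain ⟨P₀, hP₀⟩ := count_typeL14 x j k hxj hxk hjk
    refine density_crtB7 (Fintype.card (ι ⊕ ι)) (fun p => p ^ 2)
      (fun p => {w | TypeL14 p x (some j) (some k) (w ∘ e)}) (fun p => (1 / 4 : ℝ) / p)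
      {p : ℕ | p.Prime ∧ max P₀ P₁ ≤ p ∧ (p : ZMod q) = 1} (fun p hp => pow_pos hp.1.pos 2)
      (fun p hp q hq hpq => Nat.Coprime.pow 2 2 ((Nat.coprime_primes hp.1 hq.1).mpr hpq))
      (fun T => sum_residue_unbounded14 (q := q) (a := 1) isUnit_one (by norm_num) (max P₀ P₁) T)
      (fun p hp => ?_) _ (fun a p hp h => ?_)
    · haveI : NeZero (p ^ 2) := ⟨pow_ne_zero 2 hp.1.ne_zero⟩
      refine (hP₀ p hp.1 ((le_max_left _ _).trans hp.2.1)).trans ?_
      rw [Nat.cast_le]
      refine Set.ncard_le_ncard_of_injOn (fun w => w ∘ e.symm) ?_ ?_ (Set.toFinite _)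
      · intro w hw
        rw [Set.mem_ofPred_eq] at hw ⊢
        have e1 : (w ∘ e.symm) ∘ e = w := by
          funext i
          simp
        rw [e1]
        exact hw
      · intro w _ w' _ h
        funext i
        have := congrFun h (e i)
        simpa using this
    · exact ⟨p, hp.1, (le_max_right _ _).trans hp.2.1, hp.2.2, OnlyBrk14.of_typeL14 hp.1 h⟩
  rcases x with _ | i
  · rcases y with _ | j
    · exact absurd rfl hxy
    · rcases z with _ | k
      · exact absurd rfl hxz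
      · exact main none j k (by simp) (by simp) (fun h => hyz (by rw [h]))
  · rcases z with _ | k
    · rcases y with _ | j
      · exact absurd rfl hyz
      · -- `(none, i, j)`
        have h1 := main none i j (by simp) (by simp) (fun h => hxy (by rw [h]))
        refine h1.congr fun H => ?_
        congr 3
        ext a
        simp only [Set.mem_ofPred_eq]
        have h2 : ∀ p, OnlyBrk14 p none (some i) (some j) (a ∘ e) ↔
            OnlyBrk14 p (some i) (some j) none (a ∘ e) := by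
          intro p
          exact ⟨fun h => (OnlyBrk14.rotate (OnlyBrk14.rotate h)), fun h => OnlyBrk14.rotate h⟩
        simp only [h2]
    · rcases y with _ | j
      · -- `(none, k, i)`
        have h1 := main none k i (by simp) (by simp) (fun h => hxz (by rw [h]))
        refine h1.congr fun H => ?_
        congr 3
        ext a
        simp only [Set.mem_ofPred_eq]
        have h2 : ∀ p, OnlyBrk14 p none (some k) (some i) (a ∘ e) ↔
            OnlyBrk14 p (some i) none (some k) (a ∘ e) := by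
          intro p
          exact ⟨fun h => OnlyBrk14.rotate h, fun h => (OnlyBrk14.rotate (OnlyBrk14.rotate h))⟩
        simp only [h2]
      · exact main (some i) j k hxy hxz (fun h => hyz (by rw [h]))

/-- **Density one**: for almost all `v`, for every triple of lines (the line at infinity included)
there is a prime congruent to `1` modulo `q` which divides exactly once its bracket, and no other
bracket. -/
theorem linesDensity14 (q : ℕ) [NeZero q] (P₁ : ℕ) :
    Tendsto (fun H : ℕ => ({v : ι ⊕ ι → ℤ | (∀ i, |v i| ≤ H) ∧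
      ∀ x y z : Option ι, x ≠ y → y ≠ z → x ≠ z →
        ∃ p : ℕ, p.Prime ∧ P₁ ≤ p ∧ (p : ZMod q) = 1 ∧ OnlyBrk14 p x y z v}.ncard : ℝ) /
      (2 * H + 1) ^ Fintype.card (ι ⊕ ι)) atTop (𝓝 1) := by
  set N := Fintype.card (ι ⊕ ι) with hN
  set e : (ι ⊕ ι) ≃ Fin N := Fintype.equivFin (ι ⊕ ι) with he
  let Good : (Fin N → ℤ) → Prop := fun a => ∀ x y z : Option ι, x ≠ y → y ≠ z → x ≠ z →
    ∃ p : ℕ, p.Prime ∧ P₁ ≤ p ∧ (p : ZMod q) = 1 ∧ OnlyBrk14 p x y z (a ∘ e)
  have hre : ∀ H : ℕ, ({v : ι ⊕ ι → ℤ | (∀ i, |v i| ≤ H) ∧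
      ∀ x y z : Option ι, x ≠ y → y ≠ z → x ≠ z →
        ∃ p : ℕ, p.Prime ∧ P₁ ≤ p ∧ (p : ZMod q) = 1 ∧ OnlyBrk14 p x y z v}).ncard =
      ({a : Fin N → ℤ | (∀ i, |a i| ≤ H) ∧ Good a}).ncard := by
    intro H
    refine Set.ncard_congr (fun v _ => v ∘ e.symm) ?_ ?_ ?_
    · rintro v ⟨h1, h2⟩
      refine ⟨fun i => h1 _, ?_⟩
      have e1 : (v ∘ e.symm) ∘ e = v := by
        funext i
        simp
      change ∀ x y z : Option ι, _
      rw [e1]
      exact h2
    · intro v w _ _ h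
      funext i
      have := congrFun h (e i)
      simpa using this
    · rintro a ⟨h1, h2⟩
      refine ⟨a ∘ e, ⟨fun i => h1 _, h2⟩, ?_⟩
      funext i
      simp
  simp only [hre]
  apply density_one8
  let Tr := {t : Option ι × Option ι × Option ι // t.1 ≠ t.2.1 ∧ t.2.1 ≠ t.2.2 ∧ t.1 ≠ t.2.2}
  have h1 : Tendsto (fun H : ℕ => ∑ t : Tr, (({a : Fin N → ℤ | (∀ i, |a i| ≤ H) ∧
      ¬ (∃ p : ℕ, p.Prime ∧ P₁ ≤ p ∧ (p : ZMod q) = 1 ∧
        OnlyBrk14 p t.1.1 t.1.2.1 t.1.2.2 (a ∘ e))}.ncard : ℝ) /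
      (2 * H + 1) ^ N)) atTop (𝓝 (∑ _t : Tr, 0)) :=
    tendsto_finsetSum _ fun t _ => density_brk14 q P₁ _ _ _ t.2.1 t.2.2.1 t.2.2.2 e
  rw [Finset.sum_const_zero] at h1
  refine squeeze_zero (fun H => by positivity) (fun H => ?_) h1
  rw [← Finset.sum_div]
  apply div_le_div_of_nonneg_right _ (by positivity)
  have hfin : ∀ Q : (Fin N → ℤ) → Prop,
      ({a : Fin N → ℤ | (∀ i, |a i| ≤ H) ∧ Q a}).Finite := by
    intro Q
    apply Set.Finite.subset (Finset.finite_toSet
      (Fintype.piFinset fun _ : Fin N => Finset.Icc (-(H : ℤ)) H))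
    rintro a ⟨h2, -⟩
    rw [Finset.mem_coe, Fintype.mem_piFinset]
    intro i
    rw [Finset.mem_Icc]
    exact abs_le.mp (h2 i)
  let E : Tr → Finset (Fin N → ℤ) := fun t => (hfin fun a =>
    ¬ (∃ p : ℕ, p.Prime ∧ P₁ ≤ p ∧ (p : ZMod q) = 1 ∧
        OnlyBrk14 p t.1.1 t.1.2.1 t.1.2.2 (a ∘ e))).toFinset
  have hE : ∀ t, ((E t).card : ℝ) = (({a : Fin N → ℤ | (∀ i, |a i| ≤ H) ∧
      ¬ (∃ p : ℕ, p.Prime ∧ P₁ ≤ p ∧ (p : ZMod q) = 1 ∧
        OnlyBrk14 p t.1.1 t.1.2.1 t.1.2.2 (a ∘ e))}).ncard : ℝ) := by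
    intro t
    rw [Set.ncard_eq_toFinset_card _ (hfin _)]
  simp only [← hE]
  have hsub : {a : Fin N → ℤ | (∀ i, |a i| ≤ H) ∧ ¬ Good a} ⊆
      ((Finset.univ.biUnion E : Finset (Fin N → ℤ)) : Set (Fin N → ℤ)) := by
    rintro a ⟨h2, h3⟩
    simp only [Good, not_forall] at h3
    obtain ⟨x, y, z, hxy, hyz, hxz, h4⟩ := h3
    rw [Finset.mem_coe, Finset.mem_biUnion]
    refine ⟨⟨(x, y, z), hxy, hyz, hxz⟩, Finset.mem_univ _, ?_⟩
    rw [Set.Finite.mem_toFinset]
    exact ⟨h2, h4⟩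
  have h2 := Set.ncard_le_ncard hsub (Finset.finite_toSet _)
  rw [Set.ncard_coe_finset] at h2
  have h3 := h2.trans Finset.card_biUnion_le
  exact_mod_cast h3

end Pool.Agent.Lib.MP_89bcae_ag

end
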