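import Mathlib
import Pool.Agent.Lib.MP_89bcae_ag.Mk.K035
import Pool.Agent.Lib.MP_89bcae_ag.Mk.K036

namespace Pool.Agent.Lib.MP_89bcae_ag.Sup.Lns
end Pool.Agent.Lib.MP_89bcae_ag.Sup.Lns

section

/-!
# Lines over a field: the arithmetic condition, second part
-/

open Polynomial

open scoped Classical

set_option linter.unusedSectionVars false
set_option linter.unusedSimpArgs false
set_option linter.style.haveILetI false

namespace Pool.Agent.Lib.MP_89bcae_ag

universe u

open Sup.Lns (SS mem_SS AGeom)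

variable {ι : Type} [Fintype ι] [LinearOrder ι] {k : Type u} [Field k] {v : ι ⊕ ι → k}

lemma Gen14.nd_mem (h : Gen14 v) {i j : ι} (hij : i ≠ j) : nd14 v i j ∈ SS (lin14 v) :=
  (mem_SS h.geom).2 ⟨i, j, hij, (h.eval_eq hij _).2 rfl⟩

lemma Gen14.mem_SS_iff (h : Gen14 v) {s : k} :
    s ∈ SS (lin14 v) ↔ ∃ i j, i ≠ j ∧ s = nd14 v i j := by
  rw [mem_SS h.geom]
  constructor
  · rintro ⟨i, j, hij, hs⟩
    exact ⟨i, j, hij, (h.eval_eq hij s).1 hs⟩
  · rintro ⟨i, j, hij, hs⟩
    exact ⟨i, j, hij, (h.eval_eq hij s).2 hs⟩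

lemma Gen14.nd_inj (h : Gen14 v) {i j a b : ι} (hij : i ≠ j) (hab : a ≠ b)
    (he : nd14 v i j = nd14 v a b) : (a = i ∧ b = j) ∨ (a = j ∧ b = i) :=
  h.geom.pair hij hab ((h.eval_eq hij _).2 rfl) ((h.eval_eq hab _).2 he)

/-- The sum over the nodes of the line `i`. -/
lemma Gen14.sum_nodes (h : Gen14 v) {F : Type} [Field F] (i j : ι) (hij : i ≠ j) (f : k → F)
    (hf : ∀ a b, a ≠ b → a ≠ i → b ≠ i → f (nd14 v a b) = 0) (g : k → F) :
    ∑ s ∈ (SS (lin14 v)).erase (nd14 v i j), f s * g s =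
      ∑ l ∈ Finset.univ.filter (fun l => l ≠ i ∧ l ≠ j), f (nd14 v i l) * g (nd14 v i l) := by
  have hinj : ∀ l ∈ Finset.univ.filter (fun l => l ≠ i ∧ l ≠ j), ∀ l' ∈ Finset.univ.filter
      (fun l => l ≠ i ∧ l ≠ j), nd14 v i l = nd14 v i l' → l = l' := by
    intro l hl l' hl' he
    rw [Finset.mem_filter] at hl hl'
    rcases h.nd_inj hl.2.1.symm hl'.2.1.symm he with hh | hh
    · exact hh.2.symm
    · exact absurd hh.2 hl'.2.1
  rw [← Finset.sum_image (f := fun s => f s * g s) hinj]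
  symm
  apply Finset.sum_subset
  · intro s hs
    obtain ⟨l, hl, rfl⟩ := Finset.mem_image.1 hs
    rw [Finset.mem_filter] at hl
    refine Finset.mem_erase.2 ⟨fun he => ?_, h.nd_mem hl.2.1.symm⟩
    rcases h.nd_inj hij hl.2.1.symm he.symm with hh | hh
    · exact hl.2.2 hh.2
    · exact hij hh.1
  · intro s hs hs'
    rw [Finset.mem_erase, h.mem_SS_iff] at hs
    obtain ⟨hne, a, b, hab, rfl⟩ := hs
    rw [hf a b hab, zero_mul]
    · rintro rfl
      apply hs'
      refine Finset.mem_image.2 ⟨b, Finset.mem_filter.2 ⟨Finset.mem_univ b, hab.symm, ?_⟩, rfl⟩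
      rintro rfl
      exact hne rfl
    · rintro rfl
      apply hs'
      refine Finset.mem_image.2 ⟨a, Finset.mem_filter.2 ⟨Finset.mem_univ a, hab, ?_⟩,
        nd14_symm _ _⟩
      rintro rfl
      exact hne (nd14_symm _ _)

/-- **The criterion over `k`.** -/
theorem Gen14.indep_k (h : Gen14 v) {ℓ : ℕ} [Fact ℓ.Prime] (hm : 4 ≤ Fintype.card ι)
    (hcop : (Fintype.card ι).Coprime ℓ)
    (HV : ∀ i j l, i ≠ j → j ≠ l → i ≠ l → ∃ V : Val14 k ℓ, HV14 v V i j l)
    (e : ι → k → ℤ) (κ : k) (c : ι → k) (hκ : κ ≠ 0) (hc : ∀ i, c i ≠ 0)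
    (hsum : ∀ i j l, i ≠ j → (ℓ : ℤ) ∣ ∑ m ∈ Finset.univ.filter
      (fun m => (lin14 v m).eval (nd14 v i j) = (lin14 v l).eval (nd14 v i j)), e m (nd14 v i j))
    (hpow : ∀ i j, i ≠ j → ∃ w : k, w ^ ℓ = κ ^ e i (nd14 v i j) * (c i / c j) *
      (derivative (lin14 v i - lin14 v j)).eval (nd14 v i j) ^ (-2 * e i (nd14 v i j)) *
      (∏ l ∈ Finset.univ.filter (fun l => l ≠ i ∧ l ≠ j),
        ((lin14 v i).eval (nd14 v i j) - (lin14 v l).eval (nd14 v i j)) ^ (-e i (nd14 v i j))) *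
      ∏ s' ∈ (SS (lin14 v)).erase (nd14 v i j), (nd14 v i j - s') ^ (e i s' - e j s')) :
    ∃ b : ι → ℤ, ∀ i j, i ≠ j → (ℓ : ℤ) ∣ e i (nd14 v i j) - (b j - b i) := by
  have hℓ : ℓ.Prime := Fact.out
  -- the values modulo `ℓ`
  have hpair : ∀ i j, i ≠ j → ((e i (nd14 v i j) : ℤ) : ZMod ℓ) + (e j (nd14 v i j) : ℤ) = 0 := by
    intro i j hij
    have h1 := hsum i j i hij
    have h2 : Finset.univ.filter
        (fun m => (lin14 v m).eval (nd14 v i j) = (lin14 v i).eval (nd14 v i j)) = {i, j} := by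
      ext m
      rw [Finset.mem_filter, Finset.mem_insert, Finset.mem_singleton]
      constructor
      · rintro ⟨-, hm⟩
        by_cases hmi : m = i
        · exact Or.inl hmi
        · rcases h.nd_inj hij hmi ((h.eval_eq hmi _).1 hm) with hh | hh
          · exact Or.inl hh.1
          · exact Or.inr hh.1
      · rintro (rfl | rfl)
        · exact ⟨Finset.mem_univ _, rfl⟩
        · exact ⟨Finset.mem_univ _, ((h.eval_eq hij _).2 rfl).symm⟩
    rw [h2, Finset.sum_pair hij, ← ZMod.intCast_zmod_eq_zero_iff_dvd] at h1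
    push_cast at h1
    exact h1
  have hoff : ∀ i a b, a ≠ b → a ≠ i → b ≠ i → ((e i (nd14 v a b) : ℤ) : ZMod ℓ) = 0 := by
    intro i a b hab hai hbi
    have h1 := hsum a b i hab
    have h2 : Finset.univ.filter
        (fun m => (lin14 v m).eval (nd14 v a b) = (lin14 v i).eval (nd14 v a b)) = {i} := by
      ext m
      rw [Finset.mem_filter, Finset.mem_singleton]
      constructor
      · rintro ⟨-, hm⟩
        by_contra hmi
        rcases h.nd_inj hab hmi ((h.eval_eq hmi _).1 hm) with hh | hh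
        · exact hbi hh.2.symm
        · exact hai hh.2.symm
      · rintro rfl
        exact ⟨Finset.mem_univ _, rfl⟩
    rw [h2, Finset.sum_singleton, ← ZMod.intCast_zmod_eq_zero_iff_dvd] at h1
    exact h1
  set ε : ι → ι → ZMod ℓ := fun i j => ((e i (nd14 v i j) : ℤ) : ZMod ℓ) with hεdef
  have hε : ∀ i j, i ≠ j → ε j i = -ε i j := by
    intro i j hij
    have h1 := hpair i j hij
    rw [hεdef]
    beta_reduce
    rw [nd14_symm i j]
    linear_combination h1
  have hcard : ∑ _i : ι, (1 : ZMod ℓ) ≠ 0 := by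
    rw [Finset.sum_const, Finset.card_univ, nsmul_one, Ne, ZMod.natCast_eq_zero_iff]
    intro hd
    have h1 := Nat.Coprime.eq_one_of_dvd hcop.symm hd
    exact hℓ.one_lt.ne' h1
  obtain ⟨b, hb⟩ := cut_of_triw14 hm (fun _ => (1 : ZMod ℓ)) (fun _ => one_ne_zero) hcard
    (fun _ _ => rfl) ε hε (by
    intro i₀ j₀ l₀ hij₀ hjl₀ hil₀
    obtain ⟨V, m₀, μ, r, hr, hV1, hV0⟩ := HV i₀ j₀ l₀ hij₀ hjl₀ hil₀
    have hslope : ∀ i j, i ≠ j → V.ν (v (Sum.inr i) - v (Sum.inr j)) =
        m₀ + μ (some i) + μ (some j) + μ none := by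
      intro i j hij
      rw [← brk14_none]
      refine hV0 (some i) (some j) none (by simpa using hij) (by simp) (by simp) ?_
      rintro ⟨-, -, hh⟩
      simp at hh
    -- the brackets
    set δ : ι → ι → ι → ZMod ℓ := fun a b m =>
      V.ν (dd14 v a b m) - (m₀ + μ (some a) + μ (some b) + μ (some m)) with hδ
    have hδ1 : ∀ a b m, a ≠ b → b ≠ m → a ≠ m → a ∈ ({i₀, j₀, l₀} : Set ι) →
        b ∈ ({i₀, j₀, l₀} : Set ι) → m ∈ ({i₀, j₀, l₀} : Set ι) → δ a b m = r := by
      intro a b m hab hbm ham ha hb hm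
      have h1 := nu_perm14 h V hij₀ hjl₀ hil₀ (fun x => μ (some x)) (r := m₀ + r) (by
        rw [hV1]
        ring) a b m hab hbm ham ha hb hm
      rw [hδ]
      beta_reduce
      rw [h1]
      ring
    have hδ0 : ∀ a b m, a ≠ b → b ≠ m → a ≠ m →
        ¬ (a ∈ ({i₀, j₀, l₀} : Set ι) ∧ b ∈ ({i₀, j₀, l₀} : Set ι) ∧
          m ∈ ({i₀, j₀, l₀} : Set ι)) → δ a b m = 0 := by
      intro a b m hab hbm ham hno
      rw [hδ]
      beta_reduce
      rw [sub_eq_zero]
      refine hV0 (some a) (some b) (some m) (by simpa using hab) (by simpa using hbm)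
        (by simpa using ham) fun hh => hno ?_
      simpa using hh
    set E : ι → ZMod ℓ := fun i => ∑ l, ε i l - ε i i with hE
    set M : ZMod ℓ := ∑ l, μ (some l) with hM
    refine ⟨(V.ν κ - M + (Fintype.card ι : ZMod ℓ) * μ none) / r,
      fun i => (V.ν (c i) - E i * (m₀ + μ (some i) + 2 * μ none)) / r, fun i j hij => ?_⟩
    -- the equation for `i, j`
    have hval := tri14_value δ r ε hε hij₀ hjl₀ hil₀ hδ1 hδ0 hij
    obtain ⟨w, hw⟩ := hpow i j hij
    set s := nd14 v i j with hs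
    set P := Finset.univ.filter (fun l => l ≠ i ∧ l ≠ j) with hP
    have hβ := hslope i j hij
    have hβ0 := h.slope_ne hij
    -- the factors are not zero
    have hder : (derivative (lin14 v i - lin14 v j)).eval s = v (Sum.inr i) - v (Sum.inr j) := by
      rw [lin14_sub]
      simp
    have hf1 : ∀ l ∈ P, ((lin14 v i).eval s - (lin14 v l).eval s) ^ (-e i s) ≠ 0 := by
      intro l hl
      rw [hP, Finset.mem_filter] at hl
      apply zpow_ne_zero
      rw [h.sub1 hij]
      exact neg_ne_zero.2 (div_ne_zero (h.dd_ne hij hl.2.1.symm hl.2.2.symm) hβ0)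
    have hf2 : ∀ s' ∈ (SS (lin14 v)).erase s, (s - s') ^ (e i s' - e j s') ≠ 0 := by
      intro s' hs'
      apply zpow_ne_zero
      rw [Finset.mem_erase] at hs'
      exact sub_ne_zero.2 hs'.1.symm
    rw [hder] at hw
    have hA : κ ^ e i s ≠ 0 := zpow_ne_zero _ hκ
    have hB : c i / c j ≠ 0 := div_ne_zero (hc i) (hc j)
    have hC : (v (Sum.inr i) - v (Sum.inr j)) ^ (-2 * e i s) ≠ 0 := zpow_ne_zero _ hβ0
    have hD := Finset.prod_ne_zero_iff.2 hf1
    have hE' := Finset.prod_ne_zero_iff.2 hf2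
    have hw0 : w ≠ 0 := by
      rintro rfl
      rw [zero_pow hℓ.ne_zero] at hw
      exact (mul_ne_zero (mul_ne_zero (mul_ne_zero (mul_ne_zero hA hB) hC) hD) hE') hw.symm
    have hν := congrArg V.ν hw
    rw [V.pow hw0, V.mul _ _ (mul_ne_zero (mul_ne_zero (mul_ne_zero hA hB) hC) hD) hE',
      V.mul _ _ (mul_ne_zero (mul_ne_zero hA hB) hC) hD, V.mul _ _ (mul_ne_zero hA hB) hC,
      V.mul _ _ hA hB, V.zpow hκ, V.div (hc i) (hc j), V.zpow hβ0, V.prod _ _ hf1,
      V.prod _ _ hf2, hβ] at hν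
    -- the first sum
    have hS1 : ∑ l ∈ P, V.ν (((lin14 v i).eval s - (lin14 v l).eval s) ^ (-e i s)) =
        -ε i j * ∑ l ∈ P, (δ i j l + μ (some l) - μ none) := by
      rw [Finset.mul_sum]
      refine Finset.sum_congr rfl fun l hl => ?_
      have hl' := hl
      rw [hP, Finset.mem_filter] at hl'
      have h1 := h.dd_ne hij hl'.2.1.symm hl'.2.2.symm
      rw [h.sub1 hij, V.zpow (neg_ne_zero.2 (div_ne_zero h1 hβ0)), V.neg (div_ne_zero h1 hβ0),
        V.div h1 hβ0, hβ, hεdef, hδ]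
      push_cast
      ring
    -- the second sum
    have hS2 : ∑ s' ∈ (SS (lin14 v)).erase s, V.ν ((s - s') ^ (e i s' - e j s')) =
        (∑ l ∈ P, ε i l * (δ i j l - m₀ - μ (some i) - 2 * μ none)) -
          ∑ l ∈ P, ε j l * (δ i j l - m₀ - μ (some j) - 2 * μ none) := by
      have h1 : ∀ s' ∈ (SS (lin14 v)).erase s, V.ν ((s - s') ^ (e i s' - e j s')) =
          ((e i s' : ℤ) : ZMod ℓ) * V.ν (s - s') - ((e j s' : ℤ) : ZMod ℓ) * V.ν (s - s') := by
        intro s' hs'
        rw [Finset.mem_erase] at hs'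
        rw [V.zpow (sub_ne_zero.2 hs'.1.symm)]
        push_cast
        ring
      have h2 := h.sum_nodes i j hij (fun x => ((e i x : ℤ) : ZMod ℓ)) (hoff i)
        (fun x => V.ν (s - x))
      have h3 := h.sum_nodes j i hij.symm (fun x => ((e j x : ℤ) : ZMod ℓ)) (hoff j)
        (fun x => V.ν (s - x))
      rw [nd14_symm i j] at h3
      have hPP : Finset.univ.filter (fun l => l ≠ j ∧ l ≠ i) = P := by
        rw [hP]
        ext l
        simp only [Finset.mem_filter, Finset.mem_univ, true_and]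
        exact and_comm
      rw [Finset.sum_congr rfl h1, Finset.sum_sub_distrib, h2, h3, hPP]
      congr 1
      · refine Finset.sum_congr rfl fun l hl => ?_
        have hl' := hl
        rw [hP, Finset.mem_filter] at hl'
        have h4 := h.dd_ne hij hl'.2.1.symm hl'.2.2.symm
        have h5 := h.slope_ne hl'.2.1.symm
        rw [hs, h.sub2 hij hl'.2.1.symm, V.neg (div_ne_zero h4 (mul_ne_zero hβ0 h5)),
          V.div h4 (mul_ne_zero hβ0 h5), V.mul _ _ hβ0 h5, hβ, hslope i l hl'.2.1.symm, hεdef, hδ]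
        ring
      · refine Finset.sum_congr rfl fun l hl => ?_
        have hl' := hl
        rw [hP, Finset.mem_filter] at hl'
        have h4 := h.dd_ne hij hl'.2.1.symm hl'.2.2.symm
        have h5 := h.slope_ne hl'.2.2.symm
        rw [hs, h.sub3 hij hl'.2.2.symm, V.neg (div_ne_zero h4 (mul_ne_zero hβ0 h5)),
          V.div h4 (mul_ne_zero hβ0 h5), V.mul _ _ hβ0 h5, hβ, hslope j l hl'.2.2.symm, hεdef, hδ]
        ring
    -- the sums over `P`
    have hT1 : ∑ l ∈ P, (δ i j l + μ (some l) - μ none) = ∑ l ∈ P, δ i j l +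
        (M - μ (some i) - μ (some j)) - ((Fintype.card ι : ZMod ℓ) - 2) * μ none := by
      rw [Finset.sum_sub_distrib, Finset.sum_add_distrib, sum_off14 (fun l => μ (some l)) hij,
        sum_off14 (fun _ => μ none) hij, Finset.sum_const, Finset.card_univ, nsmul_eq_mul]
      ring
    have hT2 : ∑ l ∈ P, ε i l * (δ i j l - m₀ - μ (some i) - 2 * μ none) =
        ∑ l ∈ P, ε i l * δ i j l - (E i - ε i j) * (m₀ + μ (some i) + 2 * μ none) := by
      have h1 : ∀ l ∈ P, ε i l * (δ i j l - m₀ - μ (some i) - 2 * μ none) =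
          ε i l * δ i j l - ε i l * (m₀ + μ (some i) + 2 * μ none) := fun l _ => by ring
      rw [Finset.sum_congr rfl h1, Finset.sum_sub_distrib, ← Finset.sum_mul,
        sum_off14 (fun l => ε i l) hij]
    have hT3 : ∑ l ∈ P, ε j l * (δ i j l - m₀ - μ (some j) - 2 * μ none) =
        ∑ l ∈ P, ε j l * δ i j l - (E j - ε j i) * (m₀ + μ (some j) + 2 * μ none) := by
      have h1 : ∀ l ∈ P, ε j l * (δ i j l - m₀ - μ (some j) - 2 * μ none) =
          ε j l * δ i j l - ε j l * (m₀ + μ (some j) + 2 * μ none) := fun l _ => by ring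
      rw [Finset.sum_congr rfl h1, Finset.sum_sub_distrib, ← Finset.sum_mul,
        sum_off14 (fun l => ε j l) hij]
      ring
    have hT4 : ∑ m ∈ P, δ i j m * (ε i j + ε j m + ε m i) =
        ε i j * ∑ l ∈ P, δ i j l + ∑ l ∈ P, ε j l * δ i j l - ∑ l ∈ P, ε i l * δ i j l := by
      rw [Finset.mul_sum, ← Finset.sum_add_distrib, ← Finset.sum_sub_distrib]
      refine Finset.sum_congr rfl fun l hl => ?_
      rw [hP, Finset.mem_filter] at hl
      rw [hε i l hl.2.1.symm]
      ring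
    rw [hT4] at hval
    rw [hS1, hS2, hT1, hT2, hT3] at hν
    have hj := hε i j hij
    have hcast : (((-2 * e i s : ℤ)) : ZMod ℓ) = -2 * ε i j := by
      push_cast
      rfl
    rw [hcast] at hν
    have hκε : ((e i s : ℤ) : ZMod ℓ) = ε i j := rfl
    rw [hκε, ZMod.natCast_self, zero_mul] at hν
    have hfin : (V.ν κ - M + (Fintype.card ι : ZMod ℓ) * μ none) * ε i j +
        (V.ν (c i) - E i * (m₀ + μ (some i) + 2 * μ none)) -
        (V.ν (c j) - E j * (m₀ + μ (some j) + 2 * μ none)) =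
        r * ((ε i₀ j₀ + ε j₀ l₀ + ε l₀ i₀) * triw14 (fun _ => 1) i₀ j₀ l₀ i j) := by
      linear_combination hval - hν + (m₀ + μ (some j) + 2 * μ none) * hj
    have hr' : r * r⁻¹ = 1 := mul_inv_cancel₀ hr
    rw [div_mul_eq_mul_div, ← add_div, ← sub_div, div_eq_iff hr, hfin]
    ring)
  refine ⟨fun i => ((b i).val : ℤ), fun i j hij => ?_⟩
  rw [← ZMod.intCast_zmod_eq_zero_iff_dvd]
  push_cast
  rw [ZMod.natCast_zmod_val, ZMod.natCast_zmod_val, sub_eq_zero]
  exact hb i j hij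

end Pool.Agent.Lib.MP_89bcae_ag

end

section

/-!
# Lines over a field: `ArrangementIndependent` and `IsArrangement`
-/

open Polynomial

open scoped Classical

set_option linter.unusedSectionVars false
set_option linter.unusedSimpArgs false
set_option linter.style.haveILetI false

namespace Pool.Agent.Lib.MP_89bcae_ag

universe u

open Sup.Lns (SS mem_SS AGeom)

variable {ι : Type} [Fintype ι] [LinearOrder ι] {k : Type u} [Field k] {v : ι ⊕ ι → k}

lemma Gen14.isArrangement (h : Gen14 v) : Superelliptic.IsArrangement (lin14 v) :=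
  ⟨h.geom.sep, h.geom.pos⟩

lemma aeval_map14 {F : Type u} [Field F] [Algebra k F] (x : k) (p : k[X]) :
    aeval (algebraMap k F x) p = algebraMap k F (p.eval x) := by
  rw [aeval_algebraMap_apply, coe_aeval_eq_eval]

lemma Gen14.aeval_eq (h : Gen14 v) {F : Type u} [Field F] [Algebra k F] {i j : ι} (hij : i ≠ j)
    (s : F) : aeval s (lin14 v i) = aeval s (lin14 v j) ↔ s = algebraMap k F (nd14 v i j) := by
  constructor
  · intro hs
    rw [← sub_eq_zero, ← map_sub, lin14_sub] at hs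
    simp only [map_add, aeval_C, map_mul, aeval_X] at hs
    have h0 := h.slope_ne hij
    have h1 : algebraMap k F (v (Sum.inr i) - v (Sum.inr j)) ≠ 0 :=
      (map_ne_zero_iff _ (algebraMap k F).injective).2 h0
    unfold nd14
    rw [← neg_div, map_div₀, map_neg, eq_div_iff h1]
    linear_combination hs
  · rintro rfl
    rw [aeval_map14, aeval_map14, (h.eval_eq hij _).2 rfl]

lemma Gen14.nodes_eq (h : Gen14 v) (F : Type u) [Field F] [Algebra k F] :
    Superelliptic.nodes k F (lin14 v) = algebraMap k F '' (SS (lin14 v) : Set k) := by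
  ext s
  constructor
  · rintro ⟨i, j, hij, hs⟩
    exact ⟨nd14 v i j, h.nd_mem hij, ((h.aeval_eq hij s).1 hs).symm⟩
  · rintro ⟨x, hx, rfl⟩
    obtain ⟨i, j, hij, rfl⟩ := h.mem_SS_iff.1 hx
    exact ⟨i, j, hij, (h.aeval_eq hij _).2 rfl⟩

/-- **The criterion for lines.** -/
theorem Gen14.indep (h : Gen14 v) {ℓ : ℕ} (hℓ : ℓ.Prime) (hm : 4 ≤ Fintype.card ι)
    (hcop : (Fintype.card ι).Coprime ℓ)
    (HV : ∀ i j l, i ≠ j → j ≠ l → i ≠ l → ∃ V : Val14 k ℓ, HV14 v V i j l)
    (F : Type u) [Field F] [Algebra k F] :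
    Superelliptic.ArrangementIndependent ℓ k F (lin14 v) := by
  haveI : Fact ℓ.Prime := ⟨hℓ⟩
  intro e κ c hκ hκm hc hsum hpow
  have hinj : Function.Injective (algebraMap k F) := (algebraMap k F).injective
  have hbot : IntermediateField.adjoin k (Superelliptic.nodes k F (lin14 v)) = ⊥ := by
    rw [IntermediateField.adjoin_eq_bot_iff, h.nodes_eq F]
    rintro _ ⟨x, -, rfl⟩
    exact IntermediateField.algebraMap_mem _ x
  rw [hbot] at hκm hc hpow
  obtain ⟨κ', rfl⟩ := IntermediateField.mem_bot.1 hκm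
  choose c' hc' using fun i => IntermediateField.mem_bot.1 (hc i).2
  have hκ' : κ' ≠ 0 := by
    rintro rfl
    exact hκ (map_zero _)
  have hc0 : ∀ i, c' i ≠ 0 := by
    intro i h0
    apply (hc i).1
    rw [← hc' i, h0, map_zero]
  obtain ⟨b, hb⟩ := h.indep_k hm hcop HV (fun i x => e i (algebraMap k F x)) κ' c' hκ' hc0
    (by
      intro i j l hij
      have h1 := hsum (algebraMap k F (nd14 v i j))
        ⟨i, j, hij, (h.aeval_eq hij _).2 rfl⟩ l
      have h2 : Finset.univ.filter (fun m => aeval (algebraMap k F (nd14 v i j)) (lin14 v m) =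
          aeval (algebraMap k F (nd14 v i j)) (lin14 v l)) = Finset.univ.filter
          (fun m => (lin14 v m).eval (nd14 v i j) = (lin14 v l).eval (nd14 v i j)) := by
        ext m
        rw [Finset.mem_filter, Finset.mem_filter, aeval_map14, aeval_map14, hinj.eq_iff]
      rw [h2] at h1
      exact h1)
    (by
      intro i j hij
      obtain ⟨w, hw, hwe⟩ := hpow i j (algebraMap k F (nd14 v i j)) hij
        ((h.aeval_eq hij _).2 rfl)
      obtain ⟨w', rfl⟩ := IntermediateField.mem_bot.1 hw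
      refine ⟨w', hinj ?_⟩
      rw [map_pow, hwe]
      have hset : {s' ∈ Superelliptic.nodes k F (lin14 v) | s' ≠ algebraMap k F (nd14 v i j)} =
          ((((SS (lin14 v)).erase (nd14 v i j)).image (algebraMap k F) : Finset F) : Set F) := by
        ext s'
        rw [Finset.coe_image, Finset.coe_erase, Set.mem_ofPred_eq, h.nodes_eq F]
        constructor
        · rintro ⟨⟨x, hx, rfl⟩, hne⟩
          exact ⟨x, ⟨hx, fun he => hne (by rw [he])⟩, rfl⟩
        · rintro ⟨x, ⟨hx, hne⟩, rfl⟩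
          exact ⟨⟨x, hx, rfl⟩, fun he => hne (hinj he)⟩
      have hP : ∀ P : Finset ι, (∀ l, l ∈ P ↔ l ≠ i ∧ l ≠ j) →
          ∏ l ∈ P, (aeval (algebraMap k F (nd14 v i j)) (lin14 v i) -
            aeval (algebraMap k F (nd14 v i j)) (lin14 v l)) ^
              (-e i (algebraMap k F (nd14 v i j))) =
          ∏ l ∈ Finset.univ.filter (fun l => l ≠ i ∧ l ≠ j),
            (algebraMap k F ((lin14 v i).eval (nd14 v i j)) -
              algebraMap k F ((lin14 v l).eval (nd14 v i j))) ^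
              (-e i (algebraMap k F (nd14 v i j))) := by
        intro P hP
        refine Finset.prod_congr ?_ fun l _ => ?_
        · ext l
          rw [hP, Finset.mem_filter]
          exact ⟨fun hh => ⟨Finset.mem_univ l, hh⟩, fun hh => hh.2⟩
        · rw [aeval_map14, aeval_map14]
      rw [hset, finprod_mem_coe_finset, Finset.prod_image fun x _ y _ hxy => hinj hxy,
        hP, aeval_map14]
      · simp only [map_mul, map_prod, map_zpow₀, map_div₀, map_sub, hc']
      · intro l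
        simp)
  refine ⟨b, fun i j s hij hs => ?_⟩
  rw [(h.aeval_eq hij s).1 hs]
  exact hb i j hij

end Pool.Agent.Lib.MP_89bcae_ag

end

section

/-!
# Lines over a field with weights: the arithmetic condition
-/

open Polynomial

open scoped Classical

set_option linter.unusedSectionVars false
set_option linter.unusedSimpArgs false
set_option linter.style.haveILetI false

namespace Pool.Agent.Lib.MP_89bcae_ag

universe u

lemma zmod_two14 : ∀ x : ZMod 2, x ≠ 0 → x = 1 := by decide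

variable {ι : Type} [Fintype ι] [LinearOrder ι]

section comb

variable {F : Type} [Field F]

/-- If only the triangle `i j l` counts, with weights. -/
lemma tri14w_value (w : ι → F) (d : ι → ι → ι → F) (r : F) (ε : ι → ι → F)
    (hε : ∀ i j, i ≠ j → ε j i = -ε i j) {i j l : ι} (hij : i ≠ j) (hjl : j ≠ l) (hil : i ≠ l)
    (h1 : ∀ a b c, a ≠ b → b ≠ c → a ≠ c → a ∈ ({i, j, l} : Set ι) → b ∈ ({i, j, l} : Set ι) →
      c ∈ ({i, j, l} : Set ι) → d a b c = r)
    (h0 : ∀ a b c, a ≠ b → b ≠ c → a ≠ c →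
      ¬ (a ∈ ({i, j, l} : Set ι) ∧ b ∈ ({i, j, l} : Set ι) ∧ c ∈ ({i, j, l} : Set ι)) →
        d a b c = 0) {a b : ι} (hab : a ≠ b) :
    ∑ m ∈ Finset.univ.filter (fun m => m ≠ a ∧ m ≠ b),
      w m * d a b m * (ε a b + ε b m + ε m a) =
        r * ((ε i j + ε j l + ε l i) * triw14 w i j l a b) := by
  have hz : ∀ {a b c : ι}, a ≠ b → (∀ l', l' ≠ a → l' ≠ b → l' ≠ c → l' ∉ ({i, j, l} : Set ι)) →
      ∀ l', l' ≠ a → l' ≠ b → l' ≠ c → w l' * d a b l' = 0 := by
    intro a b c hab hc l' hla hlb hlc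
    rw [h0 a b l' hab hlb.symm hla.symm fun hh => hc l' hla hlb hlc hh.2.2, mul_zero]
  have e1 := hε i j hij
  have e2 := hε j l hjl
  have e3 := hε l i hil.symm
  by_cases ha : a ∈ ({i, j, l} : Set ι)
  swap
  · rw [Finset.sum_eq_zero]
    · have : triw14 w i j l a b = 0 := by
        simp only [Set.mem_insert_iff, Set.mem_singleton_iff, not_or] at ha
        simp [triw14, ha.1, ha.2.1, ha.2.2]
      rw [this, mul_zero, mul_zero]
    · intro m hm
      rw [Finset.mem_filter] at hm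
      rw [h0 a b m hab hm.2.2.symm hm.2.1.symm fun hh => ha hh.1, mul_zero, zero_mul]
  by_cases hb : b ∈ ({i, j, l} : Set ι)
  swap
  · rw [Finset.sum_eq_zero]
    · have : triw14 w i j l a b = 0 := by
        simp only [Set.mem_insert_iff, Set.mem_singleton_iff, not_or] at hb
        simp [triw14, hb.1, hb.2.1, hb.2.2]
      rw [this, mul_zero, mul_zero]
    · intro m hm
      rw [Finset.mem_filter] at hm
      rw [h0 a b m hab hm.2.2.symm hm.2.1.symm fun hh => hb hh.2.1, mul_zero, zero_mul]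
  have hd : ∀ c, a ≠ c → b ≠ c → c ∈ ({i, j, l} : Set ι) → w c * d a b c = w c * r := by
    intro c hac hbc hc
    rw [h1 a b c hab hbc hac ha hb hc]
  simp only [Set.mem_insert_iff, Set.mem_singleton_iff] at ha hb
  rcases ha with rfl | rfl | rfl <;> rcases hb with rfl | rfl | rfl
  · exact absurd rfl hab
  · rw [sum_third14 (fun m => w m * d a b m) ε hil hjl (hd l hil hjl (by simp))
      (hz hij (by simp; tauto))]
    have : triw14 w a b l a b = w l := by
      simp [triw14, hij, hij.symm, hjl, hjl.symm, hil, hil.symm]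
    rw [this]
    ring
  · rw [sum_third14 (fun m => w m * d a b m) ε hij hjl.symm (hd j hij hjl.symm (by simp))
      (hz hil (by simp; tauto))]
    have : triw14 w a j b a b = -w j := by
      simp [triw14, hij, hij.symm, hjl, hjl.symm, hil, hil.symm]
    rw [this]
    linear_combination w j * r * (e1 + e2 + e3)
  · rw [sum_third14 (fun m => w m * d a b m) ε hjl hil (hd l hjl hil (by simp))
      (hz hij.symm (by simp; tauto))]
    have : triw14 w b a l a b = -w l := by
      simp [triw14, hij, hij.symm, hjl, hjl.symm, hil, hil.symm]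
    rw [this]
    linear_combination w l * r * (e1 + e2 + e3)
  · exact absurd rfl hab
  · rw [sum_third14 (fun m => w m * d a b m) ε hij.symm hil.symm
      (hd i hij.symm hil.symm (by simp)) (hz hjl (by simp; tauto))]
    have : triw14 w i a b a b = w i := by
      simp [triw14, hij, hij.symm, hjl, hjl.symm, hil, hil.symm]
    rw [this]
    ring
  · rw [sum_third14 (fun m => w m * d a b m) ε hjl.symm hij (hd j hjl.symm hij (by simp))
      (hz hil.symm (by simp; tauto))]
    have : triw14 w b j a a b = w j := by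
      simp [triw14, hij, hij.symm, hjl, hjl.symm, hil, hil.symm]
    rw [this]
    ring
  · rw [sum_third14 (fun m => w m * d a b m) ε hil.symm hij.symm
      (hd i hil.symm hij.symm (by simp)) (hz hjl.symm (by simp; tauto))]
    have : triw14 w i b a a b = -w i := by
      simp [triw14, hij, hij.symm, hjl, hjl.symm, hil, hil.symm]
    rw [this]
    linear_combination w i * r * (e1 + e2 + e3)
  · exact absurd rfl hab

end comb

variable {k : Type u} [Field k] {v : ι ⊕ ι → k}

open Sup.Lns (SS mem_SS AGeom)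

/-- **The criterion over `k` with weights, in terms of the homomorphisms to `ZMod ℓ`.** -/
theorem Gen14.cut_kw (h : Gen14 v) {ℓ : ℕ} [Fact ℓ.Prime] (hm : 4 ≤ Fintype.card ι)
    (w : ι → ZMod ℓ) (hw : ∀ i, w i ≠ 0) (hws : ∑ i, w i ≠ 0)
    (HV : ∀ i j l, i ≠ j → j ≠ l → i ≠ l → ∃ V : Val14 k ℓ, HV14 v V i j l)
    (ε : ι → ι → ZMod ℓ) (hε : ∀ i j, i ≠ j → ε j i = -ε i j) (κ : k) (c : ι → k)
    (hpow : ∀ V : Val14 k ℓ, ∀ i j, i ≠ j →
      ε i j * V.ν κ + (V.ν (c i) - V.ν (c j)) -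
        (w i + w j) * ε i j * V.ν (v (Sum.inr i) - v (Sum.inr j)) -
        ε i j * ∑ l ∈ Finset.univ.filter (fun l => l ≠ i ∧ l ≠ j),
          w l * V.ν ((lin14 v i).eval (nd14 v i j) - (lin14 v l).eval (nd14 v i j)) +
        (∑ l ∈ Finset.univ.filter (fun l => l ≠ i ∧ l ≠ j),
            w l * ε i l * V.ν (nd14 v i j - nd14 v i l) -
          ∑ l ∈ Finset.univ.filter (fun l => l ≠ i ∧ l ≠ j),
            w l * ε j l * V.ν (nd14 v i j - nd14 v j l)) = 0) :
    ∃ b : ι → ZMod ℓ, ∀ i j, i ≠ j → ε i j = b j - b i := by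
  have hℓ : ℓ.Prime := Fact.out
  have h2 : (2 : ZMod ℓ) = 0 → ∀ i, w i = 1 := by
    intro h2 i
    have h3 : ℓ ∣ 2 := by
      rw [← ZMod.natCast_eq_zero_iff]
      exact_mod_cast h2
    have h4 : ℓ = 2 := (Nat.prime_dvd_prime_iff_eq hℓ Nat.prime_two).1 h3
    subst h4
    exact zmod_two14 _ (hw i)
  refine cut_of_triw14 hm w hw hws h2 ε hε ?_
  intro i₀ j₀ l₀ hij₀ hjl₀ hil₀
  obtain ⟨V, m₀, μ, r, hr, hV1, hV0⟩ := HV i₀ j₀ l₀ hij₀ hjl₀ hil₀
  have hslope : ∀ i j, i ≠ j → V.ν (v (Sum.inr i) - v (Sum.inr j)) =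
      m₀ + μ (some i) + μ (some j) + μ none := by
    intro i j hij
    rw [← brk14_none]
    refine hV0 (some i) (some j) none (by simpa using hij) (by simp) (by simp) ?_
    rintro ⟨-, -, hh⟩
    simp at hh
  -- the brackets
  set δ : ι → ι → ι → ZMod ℓ := fun a b m =>
    V.ν (dd14 v a b m) - (m₀ + μ (some a) + μ (some b) + μ (some m)) with hδ
  have hδ1 : ∀ a b m, a ≠ b → b ≠ m → a ≠ m → a ∈ ({i₀, j₀, l₀} : Set ι) →
      b ∈ ({i₀, j₀, l₀} : Set ι) → m ∈ ({i₀, j₀, l₀} : Set ι) → δ a b m = r := by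
    intro a b m hab hbm ham ha hb hm
    have h1 := nu_perm14 h V hij₀ hjl₀ hil₀ (fun x => μ (some x)) (r := m₀ + r) (by
      rw [hV1]
      ring) a b m hab hbm ham ha hb hm
    rw [hδ]
    beta_reduce
    rw [h1]
    ring
  have hδ0 : ∀ a b m, a ≠ b → b ≠ m → a ≠ m →
      ¬ (a ∈ ({i₀, j₀, l₀} : Set ι) ∧ b ∈ ({i₀, j₀, l₀} : Set ι) ∧
        m ∈ ({i₀, j₀, l₀} : Set ι)) → δ a b m = 0 := by
    intro a b m hab hbm ham hno
    rw [hδ]
    beta_reduce
    rw [sub_eq_zero]
    refine hV0 (some a) (some b) (some m) (by simpa using hab) (by simpa using hbm)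
      (by simpa using ham) fun hh => hno ?_
    simpa using hh
  set E : ι → ZMod ℓ := fun i => ∑ l, w l * ε i l - w i * ε i i with hE
  set M : ZMod ℓ := ∑ l, w l * μ (some l) with hM
  set W : ZMod ℓ := ∑ l, w l with hW
  refine ⟨(V.ν κ - M + W * μ none) / r,
    fun i => (V.ν (c i) - E i * (m₀ + μ (some i) + 2 * μ none)) / r, fun i j hij => ?_⟩
  -- the equation for `i, j`
  have hval := tri14w_value w δ r ε hε hij₀ hjl₀ hil₀ hδ1 hδ0 hij
  have hν := hpow V i j hij
  set s := nd14 v i j with hs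
  set P := Finset.univ.filter (fun l => l ≠ i ∧ l ≠ j) with hP
  have hβ := hslope i j hij
  have hβ0 := h.slope_ne hij
  rw [hβ] at hν
  -- the first sum
  have hS1 : ∑ l ∈ P, w l * V.ν ((lin14 v i).eval s - (lin14 v l).eval s) =
      ∑ l ∈ P, w l * (δ i j l + μ (some l) - μ none) := by
    refine Finset.sum_congr rfl fun l hl => ?_
    have hl' := hl
    rw [hP, Finset.mem_filter] at hl'
    have h1 := h.dd_ne hij hl'.2.1.symm hl'.2.2.symm
    rw [h.sub1 hij, V.neg (div_ne_zero h1 hβ0), V.div h1 hβ0, hβ, hδ]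
    ring
  -- the second sum
  have hS2 : ∑ l ∈ P, w l * ε i l * V.ν (s - nd14 v i l) =
      ∑ l ∈ P, w l * ε i l * (δ i j l - m₀ - μ (some i) - 2 * μ none) := by
    refine Finset.sum_congr rfl fun l hl => ?_
    have hl' := hl
    rw [hP, Finset.mem_filter] at hl'
    have h4 := h.dd_ne hij hl'.2.1.symm hl'.2.2.symm
    have h5 := h.slope_ne hl'.2.1.symm
    rw [hs, h.sub2 hij hl'.2.1.symm, V.neg (div_ne_zero h4 (mul_ne_zero hβ0 h5)),
      V.div h4 (mul_ne_zero hβ0 h5), V.mul _ _ hβ0 h5, hβ, hslope i l hl'.2.1.symm, hδ]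
    ring
  have hS3 : ∑ l ∈ P, w l * ε j l * V.ν (s - nd14 v j l) =
      ∑ l ∈ P, w l * ε j l * (δ i j l - m₀ - μ (some j) - 2 * μ none) := by
    refine Finset.sum_congr rfl fun l hl => ?_
    have hl' := hl
    rw [hP, Finset.mem_filter] at hl'
    have h4 := h.dd_ne hij hl'.2.1.symm hl'.2.2.symm
    have h5 := h.slope_ne hl'.2.2.symm
    rw [hs, h.sub3 hij hl'.2.2.symm, V.neg (div_ne_zero h4 (mul_ne_zero hβ0 h5)),
      V.div h4 (mul_ne_zero hβ0 h5), V.mul _ _ hβ0 h5, hβ, hslope j l hl'.2.2.symm, hδ]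
    ring
  -- the sums over `P`
  have hT1 : ∑ l ∈ P, w l * (δ i j l + μ (some l) - μ none) = ∑ l ∈ P, w l * δ i j l +
      (M - w i * μ (some i) - w j * μ (some j)) - (W - w i - w j) * μ none := by
    have h1 : ∀ l ∈ P, w l * (δ i j l + μ (some l) - μ none) =
        w l * δ i j l + w l * μ (some l) - w l * μ none := fun l _ => by ring
    rw [Finset.sum_congr rfl h1, Finset.sum_sub_distrib, Finset.sum_add_distrib,
      sum_off14 (fun l => w l * μ (some l)) hij, ← Finset.sum_mul, sum_off14 w hij]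
  have hT2 : ∑ l ∈ P, w l * ε i l * (δ i j l - m₀ - μ (some i) - 2 * μ none) =
      ∑ l ∈ P, w l * ε i l * δ i j l - (E i - w j * ε i j) * (m₀ + μ (some i) + 2 * μ none) := by
    have h1 : ∀ l ∈ P, w l * ε i l * (δ i j l - m₀ - μ (some i) - 2 * μ none) =
        w l * ε i l * δ i j l - w l * ε i l * (m₀ + μ (some i) + 2 * μ none) := fun l _ => by ring
    rw [Finset.sum_congr rfl h1, Finset.sum_sub_distrib, ← Finset.sum_mul,
      sum_off14 (fun l => w l * ε i l) hij]
  have hT3 : ∑ l ∈ P, w l * ε j l * (δ i j l - m₀ - μ (some j) - 2 * μ none) =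
      ∑ l ∈ P, w l * ε j l * δ i j l - (E j - w i * ε j i) * (m₀ + μ (some j) + 2 * μ none) := by
    have h1 : ∀ l ∈ P, w l * ε j l * (δ i j l - m₀ - μ (some j) - 2 * μ none) =
        w l * ε j l * δ i j l - w l * ε j l * (m₀ + μ (some j) + 2 * μ none) := fun l _ => by ring
    rw [Finset.sum_congr rfl h1, Finset.sum_sub_distrib, ← Finset.sum_mul,
      sum_off14 (fun l => w l * ε j l) hij]
    ring
  have hT4 : ∑ m ∈ P, w m * δ i j m * (ε i j + ε j m + ε m i) =
      ε i j * ∑ l ∈ P, w l * δ i j l + ∑ l ∈ P, w l * ε j l * δ i j l -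
        ∑ l ∈ P, w l * ε i l * δ i j l := by
    rw [Finset.mul_sum, ← Finset.sum_add_distrib, ← Finset.sum_sub_distrib]
    refine Finset.sum_congr rfl fun l hl => ?_
    rw [hP, Finset.mem_filter] at hl
    rw [hε i l hl.2.1.symm]
    ring
  rw [hT4] at hval
  rw [hS1, hS2, hS3, hT1, hT2, hT3] at hν
  have hj := hε i j hij
  have hfin : (V.ν κ - M + W * μ none) * ε i j +
      (V.ν (c i) - E i * (m₀ + μ (some i) + 2 * μ none)) -
      (V.ν (c j) - E j * (m₀ + μ (some j) + 2 * μ none)) =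
      r * ((ε i₀ j₀ + ε j₀ l₀ + ε l₀ i₀) * triw14 w i₀ j₀ l₀ i j) := by
    linear_combination hval + hν + w i * (m₀ + μ (some j) + 2 * μ none) * hj
  rw [div_mul_eq_mul_div, ← add_div, ← sub_div, div_eq_iff hr, hfin]
  ring

end Pool.Agent.Lib.MP_89bcae_ag

end

section

/-!
# Lines over a field with one homomorphism to `ZMod ℓ`: the linear algebra
-/

open Polynomial

open scoped Classical

namespace Pool.Agent.Lib.MP_89bcae_ag

universe u

variable {ι : Type} [Fintype ι] [LinearOrder ι] {k : Type u} [Field k] {v : ι ⊕ ι → k}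

/-- **The criterion over `k` with one homomorphism `V` to `ZMod ℓ`.** `c₀` are the symbols of the brackets
of the lines and the line at infinity, up to `m₀` and the `μ`. Proof: as `Gen14.cut_kw` (the same
computation with `V.ν (dd14 v i j l) = c₀ {i, j, l} + m₀ + μ_i + μ_j + μ_l`). With
`δ_ijl = c₀ {i, j, l} - c₀ {i, j}` and `φ_ijl = ε i j + ε j l + ε l i` the equation `hpow` is
`∑_{l ≠ i, j} w_l δ_ijl φ_ijl = z ε i j + f i - f j` where `z = ν(κ) - M + W μ₀`, `M = ∑ w_l μ_l`,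
`W = ∑ w_l`, `μ₀ = μ none`, `f i = ν(c i) - C_i - E_i (m₀ + μ_i + 2 μ₀)`, `E_i = ∑_{l ≠ i} w_l ε i l`,
`C_i = ∑_{l ≠ i} w_l c₀ {i, l} ε i l` (checked: `V.ν (nd - nd') ` of `Gen14.sub2` is
`ν(dd) - ν(slope ij) - ν(slope il) = δ_ijl - c₀ {i, l} - m₀ - μ_i - 2 μ₀`, etc.). In `GoodT` the terms
`l = i`, `l = j` are zero because `{i, j, i} = {i, j}`. `hT` gives `ε i j = b i - b j`; take `- b`. -/
theorem Gen14.cut_good (h : Gen14 v) {ℓ : ℕ} [Fact ℓ.Prime] (w : ι → ZMod ℓ) (V : Val14 k ℓ)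
    (c₀ : Finset ι → ZMod ℓ) (m₀ : ZMod ℓ) (μ : Option ι → ZMod ℓ)
    (hV : ∀ i j l, i ≠ j → j ≠ l → i ≠ l →
      V.ν (dd14 v i j l) = c₀ {i, j, l} + m₀ + μ (some i) + μ (some j) + μ (some l))
    (hV0 : ∀ i j, i ≠ j →
      V.ν (v (Sum.inr i) - v (Sum.inr j)) = c₀ {i, j} + m₀ + μ (some i) + μ (some j) + μ none)
    (hT : Lr.GoodT w c₀ Finset.univ)
    (ε : ι → ι → ZMod ℓ) (hε : ∀ i j, i ≠ j → ε j i = -ε i j) (κ : k) (c : ι → k)
    (hpow : ∀ i j, i ≠ j →
      ε i j * V.ν κ + (V.ν (c i) - V.ν (c j)) -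
        (w i + w j) * ε i j * V.ν (v (Sum.inr i) - v (Sum.inr j)) -
        ε i j * ∑ l ∈ Finset.univ.filter (fun l => l ≠ i ∧ l ≠ j),
          w l * V.ν ((lin14 v i).eval (nd14 v i j) - (lin14 v l).eval (nd14 v i j)) +
        (∑ l ∈ Finset.univ.filter (fun l => l ≠ i ∧ l ≠ j),
            w l * ε i l * V.ν (nd14 v i j - nd14 v i l) -
          ∑ l ∈ Finset.univ.filter (fun l => l ≠ i ∧ l ≠ j),
            w l * ε j l * V.ν (nd14 v i j - nd14 v j l)) = 0) :
    ∃ b : ι → ZMod ℓ, ∀ i j, i ≠ j → ε i j = b j - b i := by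
  set E : ι → ZMod ℓ := fun i => ∑ l, w l * ε i l - w i * ε i i with hE
  set Cc : ι → ZMod ℓ := fun i => ∑ l, w l * c₀ {i, l} * ε i l - w i * c₀ {i, i} * ε i i with hCc
  set M : ZMod ℓ := ∑ l, w l * μ (some l) with hM
  set W : ZMod ℓ := ∑ l, w l with hW
  obtain ⟨b, hb⟩ := hT ε (fun i => V.ν (c i) - Cc i - E i * (m₀ + μ (some i) + 2 * μ none))
    (V.ν κ - M + W * μ none) (fun i _ j _ hij => hε i j hij) (by
    intro i _ j _ hij
    have hν := hpow i j hij
    set s := nd14 v i j with hs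
    set P := Finset.univ.filter (fun l => l ≠ i ∧ l ≠ j) with hP
    have hβ := hV0 i j hij
    have hβ0 := h.slope_ne hij
    rw [hβ] at hν
    set δ : ι → ZMod ℓ := fun l => c₀ {i, j, l} - c₀ {i, j} with hδ
    -- the left side
    have hL : ∑ l, w l * (c₀ {i, j, l} - c₀ {i, j}) * (ε i j + ε j l + ε l i) =
        ∑ l ∈ P, w l * δ l * (ε i j + ε j l + ε l i) := by
      rw [hP, Finset.sum_filter]
      refine Finset.sum_congr rfl fun l _ => ?_
      split_ifs with hl
      · rfl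
      · have h0 : c₀ {i, j, l} - c₀ {i, j} = 0 := by
          rw [sub_eq_zero]
          congr 1
          rw [not_and_or, not_not, not_not] at hl
          rcases hl with rfl | rfl
          · ext x
            simp only [Finset.mem_insert, Finset.mem_singleton]
            tauto
          · ext x
            simp only [Finset.mem_insert, Finset.mem_singleton]
            tauto
        rw [h0, mul_zero, zero_mul]
    -- the first sum
    have hS1 : ∑ l ∈ P, w l * V.ν ((lin14 v i).eval s - (lin14 v l).eval s) =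
        ∑ l ∈ P, w l * (δ l + μ (some l) - μ none) := by
      refine Finset.sum_congr rfl fun l hl => ?_
      rw [hP, Finset.mem_filter] at hl
      have h1 := h.dd_ne hij hl.2.1.symm hl.2.2.symm
      rw [h.sub1 hij, V.neg (div_ne_zero h1 hβ0), V.div h1 hβ0, hβ,
        hV i j l hij hl.2.2.symm hl.2.1.symm, hδ]
      ring
    -- the second sum
    have hS2 : ∑ l ∈ P, w l * ε i l * V.ν (s - nd14 v i l) =
        ∑ l ∈ P, w l * ε i l * (δ l - c₀ {i, l} - m₀ - μ (some i) - 2 * μ none) := by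
      refine Finset.sum_congr rfl fun l hl => ?_
      rw [hP, Finset.mem_filter] at hl
      have h4 := h.dd_ne hij hl.2.1.symm hl.2.2.symm
      have h5 := h.slope_ne hl.2.1.symm
      rw [hs, h.sub2 hij hl.2.1.symm, V.neg (div_ne_zero h4 (mul_ne_zero hβ0 h5)),
        V.div h4 (mul_ne_zero hβ0 h5), V.mul _ _ hβ0 h5, hβ, hV0 i l hl.2.1.symm,
        hV i j l hij hl.2.2.symm hl.2.1.symm, hδ]
      ring
    have hS3 : ∑ l ∈ P, w l * ε j l * V.ν (s - nd14 v j l) =
        ∑ l ∈ P, w l * ε j l * (δ l - c₀ {j, l} - m₀ - μ (some j) - 2 * μ none) := by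
      refine Finset.sum_congr rfl fun l hl => ?_
      rw [hP, Finset.mem_filter] at hl
      have h4 := h.dd_ne hij hl.2.1.symm hl.2.2.symm
      have h5 := h.slope_ne hl.2.2.symm
      rw [hs, h.sub3 hij hl.2.2.symm, V.neg (div_ne_zero h4 (mul_ne_zero hβ0 h5)),
        V.div h4 (mul_ne_zero hβ0 h5), V.mul _ _ hβ0 h5, hβ, hV0 j l hl.2.2.symm,
        hV i j l hij hl.2.2.symm hl.2.1.symm, hδ]
      ring
    -- the sums over `P`
    have hT1 : ∑ l ∈ P, w l * (δ l + μ (some l) - μ none) = ∑ l ∈ P, w l * δ l +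
        (M - w i * μ (some i) - w j * μ (some j)) - (W - w i - w j) * μ none := by
      have h1 : ∀ l ∈ P, w l * (δ l + μ (some l) - μ none) =
          w l * δ l + w l * μ (some l) - w l * μ none := fun l _ => by ring
      rw [Finset.sum_congr rfl h1, Finset.sum_sub_distrib, Finset.sum_add_distrib,
        sum_off14 (fun l => w l * μ (some l)) hij, ← Finset.sum_mul, sum_off14 w hij]
    have hT2 : ∑ l ∈ P, w l * ε i l * (δ l - c₀ {i, l} - m₀ - μ (some i) - 2 * μ none) =
        ∑ l ∈ P, w l * ε i l * δ l - (Cc i - w j * c₀ {i, j} * ε i j) -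
          (E i - w j * ε i j) * (m₀ + μ (some i) + 2 * μ none) := by
      have h1 : ∀ l ∈ P, w l * ε i l * (δ l - c₀ {i, l} - m₀ - μ (some i) - 2 * μ none) =
          w l * ε i l * δ l - w l * c₀ {i, l} * ε i l -
            w l * ε i l * (m₀ + μ (some i) + 2 * μ none) := fun l _ => by ring
      rw [Finset.sum_congr rfl h1, Finset.sum_sub_distrib, Finset.sum_sub_distrib,
        ← Finset.sum_mul, sum_off14 (fun l => w l * ε i l) hij,
        sum_off14 (fun l => w l * c₀ {i, l} * ε i l) hij]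
    have hT3 : ∑ l ∈ P, w l * ε j l * (δ l - c₀ {j, l} - m₀ - μ (some j) - 2 * μ none) =
        ∑ l ∈ P, w l * ε j l * δ l - (Cc j - w i * c₀ {i, j} * ε j i) -
          (E j - w i * ε j i) * (m₀ + μ (some j) + 2 * μ none) := by
      have h1 : ∀ l ∈ P, w l * ε j l * (δ l - c₀ {j, l} - m₀ - μ (some j) - 2 * μ none) =
          w l * ε j l * δ l - w l * c₀ {j, l} * ε j l -
            w l * ε j l * (m₀ + μ (some j) + 2 * μ none) := fun l _ => by ring
      rw [Finset.sum_congr rfl h1, Finset.sum_sub_distrib, Finset.sum_sub_distrib,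
        ← Finset.sum_mul, sum_off14 (fun l => w l * ε j l) hij,
        sum_off14 (fun l => w l * c₀ {j, l} * ε j l) hij, Finset.pair_comm i j]
      ring
    have hT4 : ∑ l ∈ P, w l * δ l * (ε i j + ε j l + ε l i) =
        ε i j * ∑ l ∈ P, w l * δ l + ∑ l ∈ P, w l * ε j l * δ l -
          ∑ l ∈ P, w l * ε i l * δ l := by
      rw [Finset.mul_sum, ← Finset.sum_add_distrib, ← Finset.sum_sub_distrib]
      refine Finset.sum_congr rfl fun l hl => ?_
      rw [hP, Finset.mem_filter] at hl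
      rw [hε i l hl.2.1.symm]
      ring
    rw [hL, hT4]
    rw [hS1, hS2, hS3, hT1, hT2, hT3] at hν
    have hj := hε i j hij
    linear_combination -hν - w i * (c₀ {i, j} + m₀ + μ (some j) + 2 * μ none) * hj)
  refine ⟨fun i => -b i, fun i j hij => ?_⟩
  rw [hb i (Finset.mem_univ i) j (Finset.mem_univ j) hij]
  ring

end Pool.Agent.Lib.MP_89bcae_ag

end

section

/-!
# Lines with integral coefficients
-/

open Polynomial Filter Topology

open scoped Classical

set_option linter.unusedSectionVars false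
set_option linter.unusedSimpArgs false
set_option linter.style.haveILetI false

namespace Pool.Agent.Lib.MP_89bcae_ag

universe u

variable {ι : Type} [Fintype ι] [LinearOrder ι]

/-- No two lines are parallel and no two intersection points have the same abscissa. -/
structure GenZ14 (v : ι ⊕ ι → ℤ) : Prop where
  slope : ∀ i j, i ≠ j → v (Sum.inr i) ≠ v (Sum.inr j)
  node : ∀ i j l m, i ≠ j → l ≠ m → ¬ (l = i ∧ m = j) → ¬ (l = j ∧ m = i) →
    (v (Sum.inl i) - v (Sum.inl j)) * (v (Sum.inr l) - v (Sum.inr m)) ≠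
      (v (Sum.inl l) - v (Sum.inl m)) * (v (Sum.inr i) - v (Sum.inr j))

lemma GenZ14.gen {v : ι ⊕ ι → ℤ} (h : GenZ14 v) (k : Type u) [Field k] [CharZero k] :
    Gen14 (fun x => (v x : k)) where
  slope i j hij := fun he => h.slope i j hij (by exact_mod_cast he)
  node i j l m hij hlm h1 h2 := fun he => h.node i j l m hij hlm h1 h2 (by exact_mod_cast he)

/-- The `p`-adic valuation modulo `ℓ`. -/
noncomputable def padicVal14 {k : Type u} [Field k] {p : ℕ} [Fact p.Prime] (φ : k →+* ℚ_[p])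
    (ℓ : ℕ) : Val14 k ℓ where
  ν x := ((Padic.valuation (φ x) : ℤ) : ZMod ℓ)
  mul x y hx hy := by
    have hx' : φ x ≠ 0 := (map_ne_zero_iff φ φ.injective).2 hx
    have hy' : φ y ≠ 0 := (map_ne_zero_iff φ φ.injective).2 hy
    rw [map_mul, Padic.valuation_mul hx' hy']
    push_cast
    rfl
  neg_one := by
    have h1 : Padic.valuation (φ (-1)) = 0 := by
      rw [map_neg, map_one]
      have h2 : (-1 : ℚ_[p]) = ((-1 : ℤ) : ℚ_[p]) := by push_cast; rfl
      rw [h2, Padic.valuation_intCast]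
      simp [padicValInt]
    rw [h1, Int.cast_zero]

lemma padicVal14_int {k : Type u} [Field k] {p : ℕ} [Fact p.Prime] (φ : k →+* ℚ_[p])
    (ℓ : ℕ) (z : ℤ) : (padicVal14 φ ℓ).ν (z : k) = ((padicValInt p z : ℕ) : ZMod ℓ) := by
  change ((Padic.valuation (φ (z : k)) : ℤ) : ZMod ℓ) = _
  rw [map_intCast, Padic.valuation_intCast]
  push_cast
  rfl

lemma OnlyBrk14.hv {v : ι ⊕ ι → ℤ} {i j l : ι} {p : ℕ} [Fact p.Prime]
    (h : OnlyBrk14 p (some i) (some j) (some l) v) {k : Type u} [Field k] (φ : k →+* ℚ_[p])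
    (ℓ : ℕ) [Fact ℓ.Prime] : HV14 (fun x => (v x : k)) (padicVal14 φ ℓ) i j l := by
  obtain ⟨h1, h2, h3⟩ := h
  have hb : ∀ x y z : Option ι, brk14 (fun x => (v x : k)) x y z = ((brk14 v x y z : ℤ) : k) := by
    intro x y z
    exact (map_brk14 (Int.castRingHom k) v x y z).symm
  refine ⟨0, fun _ => 0, 1, one_ne_zero, ?_, ?_⟩
  · rw [hb, padicVal14_int]
    have h4 : padicValInt p (brk14 v (some i) (some j) (some l)) = 1 := by
      have h0 : brk14 v (some i) (some j) (some l) ≠ 0 := by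
        intro h0
        apply h2
        rw [h0]
        exact dvd_zero _
      have h5 := (padicValInt_dvd_iff (p := p) 1 (brk14 v (some i) (some j) (some l))).1
        (by rwa [pow_one])
      have h6 : ¬ 2 ≤ padicValInt p (brk14 v (some i) (some j) (some l)) := fun h6 =>
        h2 ((padicValInt_dvd_iff (p := p) 2 _).2 (Or.inr h6))
      rcases h5 with h5 | h5
      · exact absurd h5 h0
      · omega
    rw [h4]
    simp
  · intro x y z hxy hyz hxz hno
    rw [hb, padicVal14_int, padicValInt.eq_zero_of_not_dvd (h3 x y z hxy hyz hxz hno)]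
    simp

/-- **Lines with integral coefficients over the cyclotomic field.** -/
theorem linesIndep14 {ℓ : ℕ} (hℓ : ℓ.Prime) (hm : 4 ≤ Fintype.card ι)
    (hcop : (Fintype.card ι).Coprime ℓ) {v : ι ⊕ ι → ℤ} (hG : GenZ14 v)
    (hp : ∀ i j l : ι, i ≠ j → j ≠ l → i ≠ l →
      ∃ p : ℕ, p.Prime ∧ (p : ZMod ℓ) = 1 ∧ OnlyBrk14 p (some i) (some j) (some l) v)
    (K F : Type u) [Field K] [Algebra ℚ K] [IsCyclotomicExtension {ℓ} ℚ K] [Field F]
    [Algebra K F] :
    Superelliptic.IsArrangement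
        (fun i => C ((v (Sum.inl i) : ℤ) : K) + C ((v (Sum.inr i) : ℤ) : K) * X) ∧
      Superelliptic.ArrangementIndependent ℓ K F
        (fun i => C ((v (Sum.inl i) : ℤ) : K) + C ((v (Sum.inr i) : ℤ) : K) * X) := by
  haveI : Fact ℓ.Prime := ⟨hℓ⟩
  haveI : CharZero K := charZero_of_injective_algebraMap (algebraMap ℚ K).injective
  have hgen := hG.gen K
  refine ⟨hgen.isArrangement, hgen.indep hℓ hm hcop ?_ F⟩
  intro i j l hij hjl hil
  obtain ⟨p, hpp, hp1, hB⟩ := hp i j l hij hjl hil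
  haveI : Fact p.Prime := ⟨hpp⟩
  have hdvd : ℓ ∣ p - 1 := by
    rw [← ZMod.natCast_eq_zero_iff, Nat.cast_sub hpp.one_le, hp1, Nat.cast_one, sub_self]
  obtain ⟨φ⟩ := exists_embedding7 hℓ hdvd K
  exact ⟨padicVal14 φ ℓ, hB.hv φ ℓ⟩

/-- The set of the families in the box, one relation. -/
lemma card_rel14 (i j l m : ι) (hij : i ≠ j) (hil : i ≠ l) (him : i ≠ m) (H : ℕ) :
    ({v : ι ⊕ ι → ℤ | (∀ x, |v x| ≤ H) ∧ v (Sum.inr l) ≠ v (Sum.inr m) ∧
      (v (Sum.inl i) - v (Sum.inl j)) * (v (Sum.inr l) - v (Sum.inr m)) =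
      (v (Sum.inl l) - v (Sum.inl m)) * (v (Sum.inr i) - v (Sum.inr j))}).ncard * (2 * H + 1) ≤
      (2 * H + 1) ^ Fintype.card (ι ⊕ ι) := by
  set S := {v : ι ⊕ ι → ℤ | (∀ x, |v x| ≤ H) ∧ v (Sum.inr l) ≠ v (Sum.inr m) ∧
      (v (Sum.inl i) - v (Sum.inl j)) * (v (Sum.inr l) - v (Sum.inr m)) =
      (v (Sum.inl l) - v (Sum.inl m)) * (v (Sum.inr i) - v (Sum.inr j))} with hS
  set B : Finset (ι ⊕ ι → ℤ) := Fintype.piFinset fun _ => Finset.Icc (-(H : ℤ)) H with hB
  have hBcard : B.card = (2 * H + 1) ^ Fintype.card (ι ⊕ ι) := by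
    rw [hB, Fintype.card_piFinset, Finset.prod_const, Finset.card_univ, Int.card_Icc]
    congr 1
    omega
  have hc : (Finset.Icc (-(H : ℤ)) H).card = 2 * H + 1 := by
    rw [Int.card_Icc]
    omega
  have h1 : (S ×ˢ ((Finset.Icc (-(H : ℤ)) H : Finset ℤ) : Set ℤ)).ncard = S.ncard * (2 * H + 1) := by
    rw [Set.ncard_prod, Set.ncard_coe_finset, hc]
  rw [← h1, ← hBcard, ← Set.ncard_coe_finset B]
  refine Set.ncard_le_ncard_of_injOn (fun q => Function.update q.1 (Sum.inl i) q.2) ?_ ?_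
    (Finset.finite_toSet B)
  · rintro ⟨v, c⟩ ⟨hv, hcc⟩
    rw [Finset.mem_coe, hB, Fintype.mem_piFinset]
    intro x
    rw [Finset.mem_Icc]
    by_cases hx : x = Sum.inl i
    · subst hx
      beta_reduce
      rw [Function.update_self]
      exact Finset.mem_Icc.1 hcc
    · beta_reduce
      rw [Function.update_of_ne hx]
      exact abs_le.1 (hv.1 x)
  · rintro ⟨v, c⟩ ⟨hv, hcc⟩ ⟨v', c'⟩ ⟨hv', hcc'⟩ he
    beta_reduce at he
    have e1 : c = c' := by
      have := congrFun he (Sum.inl i)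
      beta_reduce at this
      rwa [Function.update_self, Function.update_self] at this
    have e2 : ∀ x, x ≠ Sum.inl i → v x = v' x := by
      intro x hx
      have := congrFun he x
      beta_reduce at this
      rwa [Function.update_of_ne hx, Function.update_of_ne hx] at this
    have e3 : v (Sum.inl i) = v' (Sum.inl i) := by
      obtain ⟨-, hne, hr⟩ := hv
      obtain ⟨-, -, hr'⟩ := hv'
      dsimp only at hne hr hr'
      rw [← e2 (Sum.inl j) (by simpa using hij.symm), ← e2 (Sum.inr l) (by simp),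
        ← e2 (Sum.inr m) (by simp), ← e2 (Sum.inl l) (by simpa using hil.symm),
        ← e2 (Sum.inl m) (by simpa using him.symm), ← e2 (Sum.inr i) (by simp),
        ← e2 (Sum.inr j) (by simp)] at hr'
      have h2 : (v (Sum.inl i) - v' (Sum.inl i)) * (v (Sum.inr l) - v (Sum.inr m)) = 0 := by
        linear_combination hr - hr'
      exact sub_eq_zero.1 ((mul_eq_zero.1 h2).resolve_right (sub_ne_zero.2 hne))
    have e4 : v = v' := by
      funext x
      by_cases hx : x = Sum.inl i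
      · rw [hx, e3]
      · exact e2 x hx
    rw [e1, e4]

/-- The condition on the primes. -/
def GoodL14 (ℓ : ℕ) (v : ι ⊕ ι → ℤ) : Prop :=
  ∀ x y z : Option ι, x ≠ y → y ≠ z → x ≠ z →
    ∃ p : ℕ, p.Prime ∧ (p : ZMod ℓ) = 1 ∧ OnlyBrk14 p x y z v

lemma GoodL14.brk_ne {ℓ : ℕ} {v : ι ⊕ ι → ℤ} (h : GoodL14 ℓ v) {x y z : Option ι} (hxy : x ≠ y)
    (hyz : y ≠ z) (hxz : x ≠ z) : brk14 v x y z ≠ 0 := by
  obtain ⟨p, -, -, -, h2, -⟩ := h x y z hxy hyz hxz
  intro h0
  apply h2
  rw [h0]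
  exact dvd_zero _

lemma GoodL14.slope {ℓ : ℕ} {v : ι ⊕ ι → ℤ} (h : GoodL14 ℓ v) {i j : ι} (hij : i ≠ j) :
    v (Sum.inr i) ≠ v (Sum.inr j) := by
  have h1 := h.brk_ne (x := some i) (y := some j) (z := none) (by simpa using hij) (by simp)
    (by simp)
  rw [brk14_none] at h1
  exact sub_ne_zero.1 h1

/-- If the conditions on the primes hold, only the relations between four different lines can fail. -/
lemma GoodL14.gen {ℓ : ℕ} {v : ι ⊕ ι → ℤ} (h : GoodL14 ℓ v)
    (h4 : ∀ i j l m, i ≠ j → i ≠ l → i ≠ m → j ≠ l → j ≠ m → l ≠ m →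
      (v (Sum.inl i) - v (Sum.inl j)) * (v (Sum.inr l) - v (Sum.inr m)) ≠
      (v (Sum.inl l) - v (Sum.inl m)) * (v (Sum.inr i) - v (Sum.inr j))) : GenZ14 v := by
  have h3 : ∀ i j l, i ≠ j → i ≠ l → j ≠ l →
      (v (Sum.inl i) - v (Sum.inl j)) * (v (Sum.inr i) - v (Sum.inr l)) -
      (v (Sum.inr i) - v (Sum.inr j)) * (v (Sum.inl i) - v (Sum.inl l)) ≠ 0 := by
    intro i j l hij hil hjl
    have h1 := h.brk_ne (x := some i) (y := some j) (z := some l) (by simpa using hij)
      (by simpa using hjl) (by simpa using hil)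
    intro h2
    apply h1
    rw [← h2]
    unfold brk14
    simp only [pc14, pa14, pb14]
    ring
  refine ⟨fun i j hij => h.slope hij, fun i j l m hij hlm h1 h2 => ?_⟩
  by_cases a1 : i = l
  · subst a1
    have hjm : j ≠ m := fun hh => h1 ⟨rfl, hh.symm⟩
    intro he
    exact h3 i j m hij hlm hjm (by linear_combination he)
  by_cases a2 : i = m
  · subst a2
    have hjl : j ≠ l := fun hh => h2 ⟨hh.symm, rfl⟩
    intro he
    exact h3 i j l hij a1 hjl (by linear_combination -he)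
  by_cases a3 : j = l
  · subst a3
    intro he
    exact h3 j i m hij.symm hlm a2 (by linear_combination -he)
  by_cases a4 : j = m
  · subst a4
    intro he
    exact h3 j i l hij.symm a3 a1 (by linear_combination he)
  exact h4 i j l m hij a1 a2 a3 a4 hlm

/-- **Density one.** -/
theorem linesDensityGen14 {ℓ : ℕ} (hℓ : ℓ.Prime) :
    Tendsto (fun H : ℕ => ({v : ι ⊕ ι → ℤ | (∀ i, |v i| ≤ H) ∧ (GoodL14 ℓ v ∧ GenZ14 v)}.ncard : ℝ) /
      (2 * H + 1) ^ Fintype.card (ι ⊕ ι)) atTop (𝓝 1) := by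
  haveI : NeZero ℓ := ⟨hℓ.ne_zero⟩
  set N := Fintype.card (ι ⊕ ι) with hN
  have hdens := linesDensity14 (ι := ι) ℓ 0
  rw [← hN] at hdens
  set G : ℕ → Set (ι ⊕ ι → ℤ) := fun H => {v : ι ⊕ ι → ℤ | (∀ i, |v i| ≤ H) ∧
      ∀ x y z : Option ι, x ≠ y → y ≠ z → x ≠ z →
        ∃ p : ℕ, p.Prime ∧ 0 ≤ p ∧ (p : ZMod ℓ) = 1 ∧ OnlyBrk14 p x y z v} with hG
  set A : ℕ → Set (ι ⊕ ι → ℤ) := fun H =>
    {v : ι ⊕ ι → ℤ | (∀ i, |v i| ≤ H) ∧ (GoodL14 ℓ v ∧ GenZ14 v)} with hA
  set R : ℕ → ι × ι × ι × ι → Set (ι ⊕ ι → ℤ) := fun H q =>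
    {v : ι ⊕ ι → ℤ | (∀ x, |v x| ≤ H) ∧ v (Sum.inr q.2.2.1) ≠ v (Sum.inr q.2.2.2) ∧
      (v (Sum.inl q.1) - v (Sum.inl q.2.1)) * (v (Sum.inr q.2.2.1) - v (Sum.inr q.2.2.2)) =
      (v (Sum.inl q.2.2.1) - v (Sum.inl q.2.2.2)) * (v (Sum.inr q.1) - v (Sum.inr q.2.1))} with hR
  set T : Finset (ι × ι × ι × ι) := Finset.univ.filter fun q => q.1 ≠ q.2.1 ∧ q.1 ≠ q.2.2.1 ∧
    q.1 ≠ q.2.2.2 with hT
  -- the box is finite
  have hbox : ∀ H : ℕ, {v : ι ⊕ ι → ℤ | ∀ i, |v i| ≤ H}.Finite := by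
    intro H
    refine Set.Finite.subset (Fintype.piFinset fun _ : ι ⊕ ι =>
      Finset.Icc (-(H : ℤ)) H).finite_toSet ?_
    intro v hv
    rw [Finset.mem_coe, Fintype.mem_piFinset]
    intro x
    exact Finset.mem_Icc.2 (abs_le.1 (hv x))
  have hboxcard : ∀ H : ℕ, ({v : ι ⊕ ι → ℤ | ∀ i, |v i| ≤ H}).ncard ≤ (2 * H + 1) ^ N := by
    intro H
    have h1 : {v : ι ⊕ ι → ℤ | ∀ i, |v i| ≤ H} ⊆
        ((Fintype.piFinset fun _ : ι ⊕ ι => Finset.Icc (-(H : ℤ)) H : Finset _) : Set _) := by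
      intro v hv
      rw [Finset.mem_coe, Fintype.mem_piFinset]
      intro x
      exact Finset.mem_Icc.2 (abs_le.1 (hv x))
    refine (Set.ncard_le_ncard h1 (Finset.finite_toSet _)).trans ?_
    rw [Set.ncard_coe_finset, Fintype.card_piFinset, Finset.prod_const, Finset.card_univ,
      Int.card_Icc, ← hN]
    refine Nat.pow_le_pow_left ?_ N
    omega
  have hAfin : ∀ H, (A H).Finite := fun H => (hbox H).subset fun v hv => hv.1
  -- the decomposition
  have hsub : ∀ H, G H ⊆ A H ∪ ⋃ q ∈ T, R H q := by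
    intro H v hv
    by_cases hgen : GenZ14 v
    · refine Or.inl ⟨hv.1, ?_, hgen⟩
      intro x y z hxy hyz hxz
      obtain ⟨p, hp, -, hp1, hB⟩ := hv.2 x y z hxy hyz hxz
      exact ⟨p, hp, hp1, hB⟩
    · right
      have hgood : GoodL14 ℓ v := by
        intro x y z hxy hyz hxz
        obtain ⟨p, hp, -, hp1, hB⟩ := hv.2 x y z hxy hyz hxz
        exact ⟨p, hp, hp1, hB⟩
      by_contra hno
      apply hgen
      apply hgood.gen
      intro i j l m hij hil him hjl hjm hlm he
      apply hno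
      rw [Set.mem_iUnion₂]
      exact ⟨(i, j, l, m), Finset.mem_filter.2 ⟨Finset.mem_univ _, hij, hil, him⟩, hv.1,
        hgood.slope hlm, he⟩
  have hRfin : ∀ H q, (R H q).Finite := fun H q => (hbox H).subset fun v hv => hv.1
  have hUfin : ∀ H, (⋃ q ∈ T, R H q).Finite := fun H => Set.Finite.biUnion T.finite_toSet
    fun q _ => hRfin H q
  have hcount : ∀ H, ((G H).ncard : ℝ) ≤ (A H).ncard + T.card * ((2 * H + 1) ^ N / (2 * H + 1)) := by
    intro H
    have h1 : (G H).ncard ≤ (A H).ncard + (⋃ q ∈ T, R H q).ncard :=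
      (Set.ncard_le_ncard (hsub H) ((hAfin H).union (hUfin H))).trans (Set.ncard_union_le _ _)
    have h2 : (⋃ q ∈ T, R H q).ncard ≤ ∑ q ∈ T, (R H q).ncard :=
      Finset.set_ncard_biUnion_le T (fun q => R H q)
    have h3 : ∀ q ∈ T, ((R H q).ncard : ℝ) ≤ (2 * H + 1) ^ N / (2 * H + 1) := by
      intro q hq
      rw [hT, Finset.mem_filter] at hq
      have h4 := card_rel14 q.1 q.2.1 q.2.2.1 q.2.2.2 hq.2.1 hq.2.2.1 hq.2.2.2 H
      rw [le_div_iff₀ (by positivity), ← hN] at *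
      exact_mod_cast h4
    have h5 : (∑ q ∈ T, ((R H q).ncard : ℝ)) ≤ T.card * ((2 * H + 1) ^ N / (2 * H + 1)) := by
      rw [← nsmul_eq_mul]
      exact Finset.sum_le_card_nsmul T _ _ h3
    have h6 : ((⋃ q ∈ T, R H q).ncard : ℝ) ≤ ∑ q ∈ T, ((R H q).ncard : ℝ) := by exact_mod_cast h2
    have h7 : ((G H).ncard : ℝ) ≤ (A H).ncard + (⋃ q ∈ T, R H q).ncard := by exact_mod_cast h1
    linarith
  -- the limit
  have hlim : Tendsto (fun H : ℕ => (T.card : ℝ) * (1 / (2 * (H : ℝ) + 1))) atTop (𝓝 0) := by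
    have h1 : Tendsto (fun H : ℕ => 2 * (H : ℝ) + 1) atTop atTop :=
      tendsto_atTop_add_const_right _ _
        ((tendsto_natCast_atTop_atTop).const_mul_atTop (by norm_num))
    have h2 := (tendsto_const_nhds (x := (1 : ℝ)).div_atTop h1).const_mul (T.card : ℝ)
    rwa [mul_zero] at h2
  have hlow := hdens.sub hlim
  rw [sub_zero] at hlow
  refine tendsto_of_tendsto_of_tendsto_of_le_of_le hlow tendsto_const_nhds (fun H => ?_)
    (fun H => ?_)
  · have h1 := hcount H
    have h0 : (0 : ℝ) < (2 * (H : ℝ) + 1) ^ N := by positivity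
    have h2 : (0 : ℝ) < 2 * (H : ℝ) + 1 := by positivity
    change ((G H).ncard : ℝ) / (2 * (H : ℝ) + 1) ^ N - T.card * (1 / (2 * (H : ℝ) + 1)) ≤
      ((A H).ncard : ℝ) / (2 * (H : ℝ) + 1) ^ N
    rw [sub_le_iff_le_add, div_le_iff₀ h0, add_mul, div_mul_cancel₀ _ h0.ne']
    refine h1.trans (le_of_eq ?_)
    ring
  · have h0 : (0 : ℝ) < (2 * (H : ℝ) + 1) ^ N := by positivity
    change ((A H).ncard : ℝ) / (2 * (H : ℝ) + 1) ^ N ≤ 1
    rw [div_le_one h0]
    have h1 : (A H).ncard ≤ (2 * H + 1) ^ N :=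
      (Set.ncard_le_ncard (fun v hv => hv.1) (hbox H)).trans (hboxcard H)
    exact_mod_cast h1

end Pool.Agent.Lib.MP_89bcae_ag

end

section

/-!
# Lines over a field with one homomorphism to `ZMod ℓ`: `ArrangementIndependentW`
-/

open Polynomial

open scoped Classical

set_option linter.unusedSectionVars false
set_option linter.unusedSimpArgs false
set_option linter.style.haveILetI false

namespace Pool.Agent.Lib.MP_89bcae_ag

universe u

open Sup.Lns (SS mem_SS AGeom)

variable {ι : Type} [Fintype ι] [LinearOrder ι] {k : Type u} [Field k] {v : ι ⊕ ι → k}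

/-- The criterion over `k` with one homomorphism. -/
theorem Gen14.indepW_good_k (h : Gen14 v) {ℓ : ℕ} [Fact ℓ.Prime]
    (W : ι → ℕ) (hW : ∀ i, (W i).Coprime ℓ) (V : Val14 k ℓ)
    (c₀ : Finset ι → ZMod ℓ) (m₀ : ZMod ℓ) (μ : Option ι → ZMod ℓ)
    (hV : ∀ i j l, i ≠ j → j ≠ l → i ≠ l →
      V.ν (dd14 v i j l) = c₀ {i, j, l} + m₀ + μ (some i) + μ (some j) + μ (some l))
    (hV0 : ∀ i j, i ≠ j →
      V.ν (v (Sum.inr i) - v (Sum.inr j)) = c₀ {i, j} + m₀ + μ (some i) + μ (some j) + μ none)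
    (hT : Lr.GoodT (fun i => (W i : ZMod ℓ)) c₀ Finset.univ)
    (e : ι → k → ℤ) (κ : k) (c : ι → k) (hκ : κ ≠ 0) (hc : ∀ i, c i ≠ 0)
    (hsum : ∀ i j l, i ≠ j → (ℓ : ℤ) ∣ ∑ m ∈ Finset.univ.filter
      (fun m => (lin14 v m).eval (nd14 v i j) = (lin14 v l).eval (nd14 v i j)),
        (W m : ℤ) * e m (nd14 v i j))
    (hpow : ∀ i j, i ≠ j → ∃ w : k, w ^ ℓ = κ ^ e i (nd14 v i j) * (c i / c j) ^ W j *
      (derivative (lin14 v i - lin14 v j)).eval (nd14 v i j) ^
        (-((W i : ℤ) + W j) * e i (nd14 v i j)) *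
      (∏ l ∈ Finset.univ.filter (fun l => l ≠ i ∧ l ≠ j),
        ((lin14 v i).eval (nd14 v i j) - (lin14 v l).eval (nd14 v i j)) ^
          (-(W l : ℤ) * e i (nd14 v i j))) *
      ∏ s' ∈ (SS (lin14 v)).erase (nd14 v i j),
        (nd14 v i j - s') ^ ((W j : ℤ) * (e i s' - e j s'))) :
    ∃ b : ι → ℤ, ∀ i j, i ≠ j → (ℓ : ℤ) ∣ e i (nd14 v i j) - W j * (b j - b i) := by
  have hℓ : ℓ.Prime := Fact.out
  have hcast : ∀ n : ℕ, n.Coprime ℓ → (n : ZMod ℓ) ≠ 0 := by
    intro n hn h0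
    rw [ZMod.natCast_eq_zero_iff] at h0
    exact hℓ.one_lt.ne' (Nat.Coprime.eq_one_of_dvd hn.symm h0)
  have hw : ∀ i, (W i : ZMod ℓ) ≠ 0 := fun i => hcast _ (hW i)
  -- the values modulo `ℓ`
  have hpair : ∀ i j, i ≠ j → (W i : ZMod ℓ) * ((e i (nd14 v i j) : ℤ) : ZMod ℓ) +
      (W j : ZMod ℓ) * (e j (nd14 v i j) : ℤ) = 0 := by
    intro i j hij
    have h1 := hsum i j i hij
    have h2 : Finset.univ.filter
        (fun m => (lin14 v m).eval (nd14 v i j) = (lin14 v i).eval (nd14 v i j)) = {i, j} := by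
      ext m
      rw [Finset.mem_filter, Finset.mem_insert, Finset.mem_singleton]
      constructor
      · rintro ⟨-, hm⟩
        by_cases hmi : m = i
        · exact Or.inl hmi
        · rcases h.nd_inj hij hmi ((h.eval_eq hmi _).1 hm) with hh | hh
          · exact Or.inl hh.1
          · exact Or.inr hh.1
      · rintro (rfl | rfl)
        · exact ⟨Finset.mem_univ _, rfl⟩
        · exact ⟨Finset.mem_univ _, ((h.eval_eq hij _).2 rfl).symm⟩
    rw [h2, Finset.sum_pair hij, ← ZMod.intCast_zmod_eq_zero_iff_dvd] at h1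
    push_cast at h1
    exact h1
  have hoff : ∀ i a b, a ≠ b → a ≠ i → b ≠ i → ((e i (nd14 v a b) : ℤ) : ZMod ℓ) = 0 := by
    intro i a b hab hai hbi
    have h1 := hsum a b i hab
    have h2 : Finset.univ.filter
        (fun m => (lin14 v m).eval (nd14 v a b) = (lin14 v i).eval (nd14 v a b)) = {i} := by
      ext m
      rw [Finset.mem_filter, Finset.mem_singleton]
      constructor
      · rintro ⟨-, hm⟩
        by_contra hmi
        rcases h.nd_inj hab hmi ((h.eval_eq hmi _).1 hm) with hh | hh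
        · exact hbi hh.2.symm
        · exact hai hh.2.symm
      · rintro rfl
        exact ⟨Finset.mem_univ _, rfl⟩
    rw [h2, Finset.sum_singleton, ← ZMod.intCast_zmod_eq_zero_iff_dvd] at h1
    push_cast at h1
    exact (mul_eq_zero.1 h1).resolve_left (hw i)
  set ε : ι → ι → ZMod ℓ := fun i j => ((e i (nd14 v i j) : ℤ) : ZMod ℓ) / (W j : ZMod ℓ)
    with hεdef
  have hWε : ∀ i j, (W j : ZMod ℓ) * ε i j = ((e i (nd14 v i j) : ℤ) : ZMod ℓ) := by
    intro i j
    rw [hεdef]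
    beta_reduce
    rw [mul_div_cancel₀ _ (hw j)]
  have hε : ∀ i j, i ≠ j → ε j i = -ε i j := by
    intro i j hij
    have h1 := hpair i j hij
    have h2 := hWε i j
    have h3 := hWε j i
    rw [nd14_symm i j] at h3
    rw [← h2, ← h3] at h1
    have h4 : (W i : ZMod ℓ) * (W j : ZMod ℓ) * (ε j i + ε i j) = 0 := by
      linear_combination h1
    have h5 := (mul_eq_zero.1 h4).resolve_left (mul_ne_zero (hw i) (hw j))
    linear_combination h5
  obtain ⟨b, hb⟩ := h.cut_good (fun i => (W i : ZMod ℓ)) V c₀ m₀ μ hV hV0 hT ε hε κ c (by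
    intro i j hij
    obtain ⟨w, hw'⟩ := hpow i j hij
    have hβ0 := h.slope_ne hij
    set s := nd14 v i j with hs
    set P := Finset.univ.filter (fun l => l ≠ i ∧ l ≠ j) with hP
    -- the factors are not zero
    have hder : (derivative (lin14 v i - lin14 v j)).eval s = v (Sum.inr i) - v (Sum.inr j) := by
      rw [lin14_sub]
      simp
    have hf0 : ∀ l ∈ P, (lin14 v i).eval s - (lin14 v l).eval s ≠ 0 := by
      intro l hl
      rw [hP, Finset.mem_filter] at hl
      rw [h.sub1 hij]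
      exact neg_ne_zero.2 (div_ne_zero (h.dd_ne hij hl.2.1.symm hl.2.2.symm) hβ0)
    have hf1 : ∀ l ∈ P, ((lin14 v i).eval s - (lin14 v l).eval s) ^ (-(W l : ℤ) * e i s) ≠ 0 :=
      fun l hl => zpow_ne_zero _ (hf0 l hl)
    have hf2 : ∀ s' ∈ (SS (lin14 v)).erase s,
        (s - s') ^ ((W j : ℤ) * (e i s' - e j s')) ≠ 0 := by
      intro s' hs'
      apply zpow_ne_zero
      rw [Finset.mem_erase] at hs'
      exact sub_ne_zero.2 hs'.1.symm
    rw [hder] at hw'
    have hA : κ ^ e i s ≠ 0 := zpow_ne_zero _ hκ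
    have hB0 : c i / c j ≠ 0 := div_ne_zero (hc i) (hc j)
    have hB : (c i / c j) ^ W j ≠ 0 := pow_ne_zero _ hB0
    have hC : (v (Sum.inr i) - v (Sum.inr j)) ^ (-((W i : ℤ) + W j) * e i s) ≠ 0 :=
      zpow_ne_zero _ hβ0
    have hD := Finset.prod_ne_zero_iff.2 hf1
    have hE' := Finset.prod_ne_zero_iff.2 hf2
    have hw0 : w ≠ 0 := by
      rintro rfl
      rw [zero_pow hℓ.ne_zero] at hw'
      exact (mul_ne_zero (mul_ne_zero (mul_ne_zero (mul_ne_zero hA hB) hC) hD) hE') hw'.symm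
    have hν := congrArg V.ν hw'
    rw [V.pow hw0, V.mul _ _ (mul_ne_zero (mul_ne_zero (mul_ne_zero hA hB) hC) hD) hE',
      V.mul _ _ (mul_ne_zero (mul_ne_zero hA hB) hC) hD, V.mul _ _ (mul_ne_zero hA hB) hC,
      V.mul _ _ hA hB, V.zpow hκ, V.pow hB0, V.div (hc i) (hc j), V.zpow hβ0, V.prod _ _ hf1,
      V.prod _ _ hf2] at hν
    -- the first sum
    have hS1 : ∑ l ∈ P, V.ν (((lin14 v i).eval s - (lin14 v l).eval s) ^
        (-(W l : ℤ) * e i s)) = -((W j : ZMod ℓ) * ε i j) *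
        ∑ l ∈ P, (W l : ZMod ℓ) * V.ν ((lin14 v i).eval s - (lin14 v l).eval s) := by
      rw [Finset.mul_sum]
      refine Finset.sum_congr rfl fun l hl => ?_
      rw [V.zpow (hf0 l hl), hWε i j]
      push_cast
      ring
    -- the second sum
    have hS2 : ∑ s' ∈ (SS (lin14 v)).erase s, V.ν ((s - s') ^ ((W j : ℤ) * (e i s' - e j s'))) =
        (W j : ZMod ℓ) * (∑ l ∈ P, (W l : ZMod ℓ) * ε i l * V.ν (s - nd14 v i l) -
          ∑ l ∈ P, (W l : ZMod ℓ) * ε j l * V.ν (s - nd14 v j l)) := by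
      have h1 : ∀ s' ∈ (SS (lin14 v)).erase s,
          V.ν ((s - s') ^ ((W j : ℤ) * (e i s' - e j s'))) =
          (W j : ZMod ℓ) * (((e i s' : ℤ) : ZMod ℓ) * V.ν (s - s') -
            ((e j s' : ℤ) : ZMod ℓ) * V.ν (s - s')) := by
        intro s' hs'
        rw [Finset.mem_erase] at hs'
        rw [V.zpow (sub_ne_zero.2 hs'.1.symm)]
        push_cast
        ring
      have h2 := h.sum_nodes i j hij (fun x => ((e i x : ℤ) : ZMod ℓ)) (hoff i)
        (fun x => V.ν (s - x))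
      have h3 := h.sum_nodes j i hij.symm (fun x => ((e j x : ℤ) : ZMod ℓ)) (hoff j)
        (fun x => V.ν (s - x))
      rw [nd14_symm i j] at h3
      have hPP : Finset.univ.filter (fun l => l ≠ j ∧ l ≠ i) = P := by
        rw [hP]
        ext l
        simp only [Finset.mem_filter, Finset.mem_univ, true_and]
        exact and_comm
      rw [Finset.sum_congr rfl h1, ← Finset.mul_sum, Finset.sum_sub_distrib, h2, h3, hPP]
      congr 2
      · refine Finset.sum_congr rfl fun l _ => ?_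
        rw [hWε i l]
      · refine Finset.sum_congr rfl fun l _ => ?_
        rw [hWε j l]
    rw [hS1, hS2, ZMod.natCast_self, zero_mul] at hν
    have hκε : ((e i s : ℤ) : ZMod ℓ) = (W j : ZMod ℓ) * ε i j := (hWε i j).symm
    have hexp : (((-((W i : ℤ) + W j) * e i s : ℤ)) : ZMod ℓ) =
        -((W i : ZMod ℓ) + W j) * ((W j : ZMod ℓ) * ε i j) := by
      push_cast
      rw [hκε]
    rw [hexp, hκε] at hν
    apply mul_left_cancel₀ (hw j)
    rw [mul_zero]
    linear_combination -hν)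
  refine ⟨fun i => ((b i).val : ℤ), fun i j hij => ?_⟩
  rw [← ZMod.intCast_zmod_eq_zero_iff_dvd]
  push_cast
  rw [ZMod.natCast_zmod_val, ZMod.natCast_zmod_val, ← hb i j hij, hWε i j, sub_self]

/-- **The criterion with one homomorphism.** Proof: copy `Gen14.indepW_k` and `Gen14.indepW`
(`LIndX14.lean`): in `Gen14.indepW_k` the step `h.cut_kw hm _ hw hws HV ε hε κ c (by intro V i j hij ...)`
becomes `h.cut_good _ V c₀ m₀ μ hV hV0 hT ε hε κ c (by intro i j hij ...)` with the same proof for the given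
`V`. -/
theorem Gen14.indepW_good (h : Gen14 v) {ℓ : ℕ} (hℓ : ℓ.Prime) (W : ι → ℕ)
    (hW : ∀ i, (W i).Coprime ℓ) (V : Val14 k ℓ)
    (c₀ : Finset ι → ZMod ℓ) (m₀ : ZMod ℓ) (μ : Option ι → ZMod ℓ)
    (hV : ∀ i j l, i ≠ j → j ≠ l → i ≠ l →
      V.ν (dd14 v i j l) = c₀ {i, j, l} + m₀ + μ (some i) + μ (some j) + μ (some l))
    (hV0 : ∀ i j, i ≠ j →
      V.ν (v (Sum.inr i) - v (Sum.inr j)) = c₀ {i, j} + m₀ + μ (some i) + μ (some j) + μ none)
    (hT : Lr.GoodT (fun i => (W i : ZMod ℓ)) c₀ Finset.univ)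
    (F : Type u) [Field F] [Algebra k F] :
    Superelliptic.ArrangementIndependentW ℓ k F W (lin14 v) := by
  haveI : Fact ℓ.Prime := ⟨hℓ⟩
  intro e κ c hκ hκm hc hsum hpow
  have hinj : Function.Injective (algebraMap k F) := (algebraMap k F).injective
  have hbot : IntermediateField.adjoin k (Superelliptic.nodes k F (lin14 v)) = ⊥ := by
    rw [IntermediateField.adjoin_eq_bot_iff, h.nodes_eq F]
    rintro _ ⟨x, -, rfl⟩
    exact IntermediateField.algebraMap_mem _ x
  rw [hbot] at hκm hc hpow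
  obtain ⟨κ', rfl⟩ := IntermediateField.mem_bot.1 hκm
  choose c' hc' using fun i => IntermediateField.mem_bot.1 (hc i).2
  have hκ' : κ' ≠ 0 := by
    rintro rfl
    exact hκ (map_zero _)
  have hc0 : ∀ i, c' i ≠ 0 := by
    intro i h0
    apply (hc i).1
    rw [← hc' i, h0, map_zero]
  obtain ⟨b, hb⟩ := h.indepW_good_k W hW V c₀ m₀ μ hV hV0 hT (fun i x => e i (algebraMap k F x)) κ' c' hκ' hc0
    (by
      intro i j l hij
      have h1 := hsum (algebraMap k F (nd14 v i j))
        ⟨i, j, hij, (h.aeval_eq hij _).2 rfl⟩ l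
      have h2 : Finset.univ.filter (fun m => aeval (algebraMap k F (nd14 v i j)) (lin14 v m) =
          aeval (algebraMap k F (nd14 v i j)) (lin14 v l)) = Finset.univ.filter
          (fun m => (lin14 v m).eval (nd14 v i j) = (lin14 v l).eval (nd14 v i j)) := by
        ext m
        rw [Finset.mem_filter, Finset.mem_filter, aeval_map14, aeval_map14, hinj.eq_iff]
      rw [h2] at h1
      exact h1)
    (by
      intro i j hij
      obtain ⟨w, hw, hwe⟩ := hpow i j (algebraMap k F (nd14 v i j)) hij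
        ((h.aeval_eq hij _).2 rfl)
      obtain ⟨w', rfl⟩ := IntermediateField.mem_bot.1 hw
      refine ⟨w', hinj ?_⟩
      rw [map_pow, hwe]
      have hset : {s' ∈ Superelliptic.nodes k F (lin14 v) | s' ≠ algebraMap k F (nd14 v i j)} =
          ((((SS (lin14 v)).erase (nd14 v i j)).image (algebraMap k F) : Finset F) : Set F) := by
        ext s'
        rw [Finset.coe_image, Finset.coe_erase, Set.mem_ofPred_eq, h.nodes_eq F]
        constructor
        · rintro ⟨⟨x, hx, rfl⟩, hne⟩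
          exact ⟨x, ⟨hx, fun he => hne (by rw [he])⟩, rfl⟩
        · rintro ⟨x, ⟨hx, hne⟩, rfl⟩
          exact ⟨⟨x, hx, rfl⟩, fun he => hne (hinj he)⟩
      have hP : ∀ P : Finset ι, (∀ l, l ∈ P ↔ l ≠ i ∧ l ≠ j) →
          ∏ l ∈ P, (aeval (algebraMap k F (nd14 v i j)) (lin14 v i) -
            aeval (algebraMap k F (nd14 v i j)) (lin14 v l)) ^
              (-(W l : ℤ) * e i (algebraMap k F (nd14 v i j))) =
          ∏ l ∈ Finset.univ.filter (fun l => l ≠ i ∧ l ≠ j),
            (algebraMap k F ((lin14 v i).eval (nd14 v i j)) -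
              algebraMap k F ((lin14 v l).eval (nd14 v i j))) ^
              (-(W l : ℤ) * e i (algebraMap k F (nd14 v i j))) := by
        intro P hP
        refine Finset.prod_congr ?_ fun l _ => ?_
        · ext l
          rw [hP, Finset.mem_filter]
          exact ⟨fun hh => ⟨Finset.mem_univ l, hh⟩, fun hh => hh.2⟩
        · rw [aeval_map14, aeval_map14]
      rw [hset, finprod_mem_coe_finset, Finset.prod_image fun x _ y _ hxy => hinj hxy,
        hP, aeval_map14]
      · simp only [map_mul, map_prod, map_zpow₀, map_pow, map_div₀, map_sub, hc']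
      · intro l
        simp)
  refine ⟨b, fun i j s hij hs => ?_⟩
  rw [(h.aeval_eq hij s).1 hs]
  exact hb i j hij

end Pool.Agent.Lib.MP_89bcae_ag

end
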