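import Mathlib
import Pool.Agent.Lib.MP_89bcae_ag.Mk.K037
import Pool.Agent.Lib.MP_89bcae_ag.Mk.K038

namespace Pool.Agent.Lib.MP_89bcae_ag.Sup.Lns
end Pool.Agent.Lib.MP_89bcae_ag.Sup.Lns
namespace Pool.Agent.Lib.MP_89bcae_ag.Superelliptic
end Pool.Agent.Lib.MP_89bcae_ag.Superelliptic

section

/-!
# Families of lines of the projective plane with integral coefficients
-/

open Polynomial

namespace Pool.Agent.Lib.MP_89bcae_ag.Superelliptic

/-- For a family `v` of lines `v(i, 0) X + v(i, 1) Y + v(i, 2) Z = 0` of the projective plane: the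
coefficients of the line `i` in the coordinates `x`, `t`, `z` with `(X, Y, Z) = g (x, t, z)`. -/
noncomputable def lineCoeff {ι : Type} (v : ι × Fin 3 → ℤ) (g : Matrix (Fin 3) (Fin 3) ℚ) (i : ι)
    (j : Fin 3) : ℚ :=
  ∑ l, (v (i, l) : ℚ) * g l j

/-- `x`, `t` (with `z = 1`) are affine coordinates of the plane such that the line `i₀` is the line at
infinity `z = 0`, and the lines `i` in `I` are not of the form `t = constant`. -/
structure IsChart {ι : Type} (v : ι × Fin 3 → ℤ) (g : Matrix (Fin 3) (Fin 3) ℚ) (i₀ : ι)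
    (I : Finset ι) : Prop where
  det_ne_zero : g.det ≠ 0
  at_infinity : lineCoeff v g i₀ 0 = 0 ∧ lineCoeff v g i₀ 1 = 0
  ne_zero : ∀ i ∈ I, lineCoeff v g i 0 ≠ 0

/-- The polynomial `α` such that the line `i` is `x = α(t)`. -/
noncomputable def linePoly {ι : Type} (v : ι × Fin 3 → ℤ) (g : Matrix (Fin 3) (Fin 3) ℚ) (i : ι) :
    ℚ[X] :=
  C (-(lineCoeff v g i 2 / lineCoeff v g i 0)) + C (-(lineCoeff v g i 1 / lineCoeff v g i 0)) * X

end Pool.Agent.Lib.MP_89bcae_ag.Superelliptic

end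

section

/-!
# Lines over a field with weights: `ArrangementIndependentW`
-/

open Polynomial

open scoped Classical

set_option linter.unusedSectionVars false
set_option linter.unusedSimpArgs false
set_option linter.style.haveILetI false

namespace Pool.Agent.Lib.MP_89bcae_ag

universe u

open Sup.Lns (SS mem_SS AGeom)

variable {ι : Type} [Fintype ι] [LinearOrder ι] {k : Type u} [Field k] {v : ι ⊕ ι → k}

/-- **The criterion over `k` with weights.** -/
theorem Gen14.indepW_k (h : Gen14 v) {ℓ : ℕ} [Fact ℓ.Prime] (hm : 4 ≤ Fintype.card ι)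
    (W : ι → ℕ) (hW : ∀ i, (W i).Coprime ℓ) (hcop : (∑ i, W i).Coprime ℓ)
    (HV : ∀ i j l, i ≠ j → j ≠ l → i ≠ l → ∃ V : Val14 k ℓ, HV14 v V i j l)
    (e : ι → k → ℤ) (κ : k) (c : ι → k) (hκ : κ ≠ 0) (hc : ∀ i, c i ≠ 0)
    (hsum : ∀ i j l, i ≠ j → (ℓ : ℤ) ∣ ∑ m ∈ Finset.univ.filter
      (fun m => (lin14 v m).eval (nd14 v i j) = (lin14 v l).eval (nd14 v i j)),
        (W m : ℤ) * e m (nd14 v i j))
    (hpow : ∀ i j, i ≠ j → ∃ w : k, w ^ ℓ = κ ^ e i (nd14 v i j) * (c i / c j) ^ W j *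
      (derivative (lin14 v i - lin14 v j)).eval (nd14 v i j) ^
        (-((W i : ℤ) + W j) * e i (nd14 v i j)) *
      (∏ l ∈ Finset.univ.filter (fun l => l ≠ i ∧ l ≠ j),
        ((lin14 v i).eval (nd14 v i j) - (lin14 v l).eval (nd14 v i j)) ^
          (-(W l : ℤ) * e i (nd14 v i j))) *
      ∏ s' ∈ (SS (lin14 v)).erase (nd14 v i j),
        (nd14 v i j - s') ^ ((W j : ℤ) * (e i s' - e j s'))) :
    ∃ b : ι → ℤ, ∀ i j, i ≠ j → (ℓ : ℤ) ∣ e i (nd14 v i j) - W j * (b j - b i) := by
  have hℓ : ℓ.Prime := Fact.out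
  have hcast : ∀ n : ℕ, n.Coprime ℓ → (n : ZMod ℓ) ≠ 0 := by
    intro n hn h0
    rw [ZMod.natCast_eq_zero_iff] at h0
    exact hℓ.one_lt.ne' (Nat.Coprime.eq_one_of_dvd hn.symm h0)
  have hw : ∀ i, (W i : ZMod ℓ) ≠ 0 := fun i => hcast _ (hW i)
  have hws : ∑ i, (W i : ZMod ℓ) ≠ 0 := by
    have := hcast _ hcop
    push_cast at this
    exact this
  -- the values modulo `ℓ`
  have hpair : ∀ i j, i ≠ j → (W i : ZMod ℓ) * ((e i (nd14 v i j) : ℤ) : ZMod ℓ) +
      (W j : ZMod ℓ) * (e j (nd14 v i j) : ℤ) = 0 := by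
    intro i j hij
    have h1 := hsum i j i hij
    have h2 : Finset.univ.filter
        (fun m => (lin14 v m).eval (nd14 v i j) = (lin14 v i).eval (nd14 v i j)) = {i, j} := by
      ext m
      rw [Finset.mem_filter, Finset.mem_insert, Finset.mem_singleton]
      constructor
      · rintro ⟨-, hm⟩
        by_cases hmi : m = i
        · exact Or.inl hmi
        · rcases h.nd_inj hij hmi ((h.eval_eq hmi _).1 hm) with hh | hh
          · exact Or.inl hh.1
          · exact Or.inr hh.1
      · rintro (rfl | rfl)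
        · exact ⟨Finset.mem_univ _, rfl⟩
        · exact ⟨Finset.mem_univ _, ((h.eval_eq hij _).2 rfl).symm⟩
    rw [h2, Finset.sum_pair hij, ← ZMod.intCast_zmod_eq_zero_iff_dvd] at h1
    push_cast at h1
    exact h1
  have hoff : ∀ i a b, a ≠ b → a ≠ i → b ≠ i → ((e i (nd14 v a b) : ℤ) : ZMod ℓ) = 0 := by
    intro i a b hab hai hbi
    have h1 := hsum a b i hab
    have h2 : Finset.univ.filter
        (fun m => (lin14 v m).eval (nd14 v a b) = (lin14 v i).eval (nd14 v a b)) = {i} := by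
      ext m
      rw [Finset.mem_filter, Finset.mem_singleton]
      constructor
      · rintro ⟨-, hm⟩
        by_contra hmi
        rcases h.nd_inj hab hmi ((h.eval_eq hmi _).1 hm) with hh | hh
        · exact hbi hh.2.symm
        · exact hai hh.2.symm
      · rintro rfl
        exact ⟨Finset.mem_univ _, rfl⟩
    rw [h2, Finset.sum_singleton, ← ZMod.intCast_zmod_eq_zero_iff_dvd] at h1
    push_cast at h1
    exact (mul_eq_zero.1 h1).resolve_left (hw i)
  set ε : ι → ι → ZMod ℓ := fun i j => ((e i (nd14 v i j) : ℤ) : ZMod ℓ) / (W j : ZMod ℓ)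
    with hεdef
  have hWε : ∀ i j, (W j : ZMod ℓ) * ε i j = ((e i (nd14 v i j) : ℤ) : ZMod ℓ) := by
    intro i j
    rw [hεdef]
    beta_reduce
    rw [mul_div_cancel₀ _ (hw j)]
  have hε : ∀ i j, i ≠ j → ε j i = -ε i j := by
    intro i j hij
    have h1 := hpair i j hij
    have h2 := hWε i j
    have h3 := hWε j i
    rw [nd14_symm i j] at h3
    rw [← h2, ← h3] at h1
    have h4 : (W i : ZMod ℓ) * (W j : ZMod ℓ) * (ε j i + ε i j) = 0 := by
      linear_combination h1
    have h5 := (mul_eq_zero.1 h4).resolve_left (mul_ne_zero (hw i) (hw j))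
    linear_combination h5
  obtain ⟨b, hb⟩ := h.cut_kw hm (fun i => (W i : ZMod ℓ)) hw hws HV ε hε κ c (by
    intro V i j hij
    obtain ⟨w, hw'⟩ := hpow i j hij
    have hβ0 := h.slope_ne hij
    set s := nd14 v i j with hs
    set P := Finset.univ.filter (fun l => l ≠ i ∧ l ≠ j) with hP
    -- the factors are not zero
    have hder : (derivative (lin14 v i - lin14 v j)).eval s = v (Sum.inr i) - v (Sum.inr j) := by
      rw [lin14_sub]
      simp
    have hf0 : ∀ l ∈ P, (lin14 v i).eval s - (lin14 v l).eval s ≠ 0 := by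
      intro l hl
      rw [hP, Finset.mem_filter] at hl
      rw [h.sub1 hij]
      exact neg_ne_zero.2 (div_ne_zero (h.dd_ne hij hl.2.1.symm hl.2.2.symm) hβ0)
    have hf1 : ∀ l ∈ P, ((lin14 v i).eval s - (lin14 v l).eval s) ^ (-(W l : ℤ) * e i s) ≠ 0 :=
      fun l hl => zpow_ne_zero _ (hf0 l hl)
    have hf2 : ∀ s' ∈ (SS (lin14 v)).erase s,
        (s - s') ^ ((W j : ℤ) * (e i s' - e j s')) ≠ 0 := by
      intro s' hs'
      apply zpow_ne_zero
      rw [Finset.mem_erase] at hs'
      exact sub_ne_zero.2 hs'.1.symm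
    rw [hder] at hw'
    have hA : κ ^ e i s ≠ 0 := zpow_ne_zero _ hκ
    have hB0 : c i / c j ≠ 0 := div_ne_zero (hc i) (hc j)
    have hB : (c i / c j) ^ W j ≠ 0 := pow_ne_zero _ hB0
    have hC : (v (Sum.inr i) - v (Sum.inr j)) ^ (-((W i : ℤ) + W j) * e i s) ≠ 0 :=
      zpow_ne_zero _ hβ0
    have hD := Finset.prod_ne_zero_iff.2 hf1
    have hE' := Finset.prod_ne_zero_iff.2 hf2
    have hw0 : w ≠ 0 := by
      rintro rfl
      rw [zero_pow hℓ.ne_zero] at hw'
      exact (mul_ne_zero (mul_ne_zero (mul_ne_zero (mul_ne_zero hA hB) hC) hD) hE') hw'.symm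
    have hν := congrArg V.ν hw'
    rw [V.pow hw0, V.mul _ _ (mul_ne_zero (mul_ne_zero (mul_ne_zero hA hB) hC) hD) hE',
      V.mul _ _ (mul_ne_zero (mul_ne_zero hA hB) hC) hD, V.mul _ _ (mul_ne_zero hA hB) hC,
      V.mul _ _ hA hB, V.zpow hκ, V.pow hB0, V.div (hc i) (hc j), V.zpow hβ0, V.prod _ _ hf1,
      V.prod _ _ hf2] at hν
    -- the first sum
    have hS1 : ∑ l ∈ P, V.ν (((lin14 v i).eval s - (lin14 v l).eval s) ^
        (-(W l : ℤ) * e i s)) = -((W j : ZMod ℓ) * ε i j) *
        ∑ l ∈ P, (W l : ZMod ℓ) * V.ν ((lin14 v i).eval s - (lin14 v l).eval s) := by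
      rw [Finset.mul_sum]
      refine Finset.sum_congr rfl fun l hl => ?_
      rw [V.zpow (hf0 l hl), hWε i j]
      push_cast
      ring
    -- the second sum
    have hS2 : ∑ s' ∈ (SS (lin14 v)).erase s, V.ν ((s - s') ^ ((W j : ℤ) * (e i s' - e j s'))) =
        (W j : ZMod ℓ) * (∑ l ∈ P, (W l : ZMod ℓ) * ε i l * V.ν (s - nd14 v i l) -
          ∑ l ∈ P, (W l : ZMod ℓ) * ε j l * V.ν (s - nd14 v j l)) := by
      have h1 : ∀ s' ∈ (SS (lin14 v)).erase s,
          V.ν ((s - s') ^ ((W j : ℤ) * (e i s' - e j s'))) =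
          (W j : ZMod ℓ) * (((e i s' : ℤ) : ZMod ℓ) * V.ν (s - s') -
            ((e j s' : ℤ) : ZMod ℓ) * V.ν (s - s')) := by
        intro s' hs'
        rw [Finset.mem_erase] at hs'
        rw [V.zpow (sub_ne_zero.2 hs'.1.symm)]
        push_cast
        ring
      have h2 := h.sum_nodes i j hij (fun x => ((e i x : ℤ) : ZMod ℓ)) (hoff i)
        (fun x => V.ν (s - x))
      have h3 := h.sum_nodes j i hij.symm (fun x => ((e j x : ℤ) : ZMod ℓ)) (hoff j)
        (fun x => V.ν (s - x))
      rw [nd14_symm i j] at h3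
      have hPP : Finset.univ.filter (fun l => l ≠ j ∧ l ≠ i) = P := by
        rw [hP]
        ext l
        simp only [Finset.mem_filter, Finset.mem_univ, true_and]
        exact and_comm
      rw [Finset.sum_congr rfl h1, ← Finset.mul_sum, Finset.sum_sub_distrib, h2, h3, hPP]
      congr 2
      · refine Finset.sum_congr rfl fun l _ => ?_
        rw [hWε i l]
      · refine Finset.sum_congr rfl fun l _ => ?_
        rw [hWε j l]
    rw [hS1, hS2, ZMod.natCast_self, zero_mul] at hν
    have hκε : ((e i s : ℤ) : ZMod ℓ) = (W j : ZMod ℓ) * ε i j := (hWε i j).symm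
    have hexp : (((-((W i : ℤ) + W j) * e i s : ℤ)) : ZMod ℓ) =
        -((W i : ZMod ℓ) + W j) * ((W j : ZMod ℓ) * ε i j) := by
      push_cast
      rw [hκε]
    rw [hexp, hκε] at hν
    apply mul_left_cancel₀ (hw j)
    rw [mul_zero]
    linear_combination -hν)
  refine ⟨fun i => ((b i).val : ℤ), fun i j hij => ?_⟩
  rw [← ZMod.intCast_zmod_eq_zero_iff_dvd]
  push_cast
  rw [ZMod.natCast_zmod_val, ZMod.natCast_zmod_val, ← hb i j hij, hWε i j, sub_self]

/-- **The criterion for lines with weights.** -/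
theorem Gen14.indepW (h : Gen14 v) {ℓ : ℕ} (hℓ : ℓ.Prime) (hm : 4 ≤ Fintype.card ι)
    (W : ι → ℕ) (hW : ∀ i, (W i).Coprime ℓ) (hcop : (∑ i, W i).Coprime ℓ)
    (HV : ∀ i j l, i ≠ j → j ≠ l → i ≠ l → ∃ V : Val14 k ℓ, HV14 v V i j l)
    (F : Type u) [Field F] [Algebra k F] :
    Superelliptic.ArrangementIndependentW ℓ k F W (lin14 v) := by
  haveI : Fact ℓ.Prime := ⟨hℓ⟩
  intro e κ c hκ hκm hc hsum hpow
  have hinj : Function.Injective (algebraMap k F) := (algebraMap k F).injective
  have hbot : IntermediateField.adjoin k (Superelliptic.nodes k F (lin14 v)) = ⊥ := by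
    rw [IntermediateField.adjoin_eq_bot_iff, h.nodes_eq F]
    rintro _ ⟨x, -, rfl⟩
    exact IntermediateField.algebraMap_mem _ x
  rw [hbot] at hκm hc hpow
  obtain ⟨κ', rfl⟩ := IntermediateField.mem_bot.1 hκm
  choose c' hc' using fun i => IntermediateField.mem_bot.1 (hc i).2
  have hκ' : κ' ≠ 0 := by
    rintro rfl
    exact hκ (map_zero _)
  have hc0 : ∀ i, c' i ≠ 0 := by
    intro i h0
    apply (hc i).1
    rw [← hc' i, h0, map_zero]
  obtain ⟨b, hb⟩ := h.indepW_k hm W hW hcop HV (fun i x => e i (algebraMap k F x)) κ' c' hκ' hc0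
    (by
      intro i j l hij
      have h1 := hsum (algebraMap k F (nd14 v i j))
        ⟨i, j, hij, (h.aeval_eq hij _).2 rfl⟩ l
      have h2 : Finset.univ.filter (fun m => aeval (algebraMap k F (nd14 v i j)) (lin14 v m) =
          aeval (algebraMap k F (nd14 v i j)) (lin14 v l)) = Finset.univ.filter
          (fun m => (lin14 v m).eval (nd14 v i j) = (lin14 v l).eval (nd14 v i j)) := by
        ext m
        rw [Finset.mem_filter, Finset.mem_filter, aeval_map14, aeval_map14, hinj.eq_iff]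
      rw [h2] at h1
      exact h1)
    (by
      intro i j hij
      obtain ⟨w, hw, hwe⟩ := hpow i j (algebraMap k F (nd14 v i j)) hij
        ((h.aeval_eq hij _).2 rfl)
      obtain ⟨w', rfl⟩ := IntermediateField.mem_bot.1 hw
      refine ⟨w', hinj ?_⟩
      rw [map_pow, hwe]
      have hset : {s' ∈ Superelliptic.nodes k F (lin14 v) | s' ≠ algebraMap k F (nd14 v i j)} =
          ((((SS (lin14 v)).erase (nd14 v i j)).image (algebraMap k F) : Finset F) : Set F) := by
        ext s'
        rw [Finset.coe_image, Finset.coe_erase, Set.mem_ofPred_eq, h.nodes_eq F]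
        constructor
        · rintro ⟨⟨x, hx, rfl⟩, hne⟩
          exact ⟨x, ⟨hx, fun he => hne (by rw [he])⟩, rfl⟩
        · rintro ⟨x, ⟨hx, hne⟩, rfl⟩
          exact ⟨⟨x, hx, rfl⟩, fun he => hne (hinj he)⟩
      have hP : ∀ P : Finset ι, (∀ l, l ∈ P ↔ l ≠ i ∧ l ≠ j) →
          ∏ l ∈ P, (aeval (algebraMap k F (nd14 v i j)) (lin14 v i) -
            aeval (algebraMap k F (nd14 v i j)) (lin14 v l)) ^
              (-(W l : ℤ) * e i (algebraMap k F (nd14 v i j))) =
          ∏ l ∈ Finset.univ.filter (fun l => l ≠ i ∧ l ≠ j),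
            (algebraMap k F ((lin14 v i).eval (nd14 v i j)) -
              algebraMap k F ((lin14 v l).eval (nd14 v i j))) ^
              (-(W l : ℤ) * e i (algebraMap k F (nd14 v i j))) := by
        intro P hP
        refine Finset.prod_congr ?_ fun l _ => ?_
        · ext l
          rw [hP, Finset.mem_filter]
          exact ⟨fun hh => ⟨Finset.mem_univ l, hh⟩, fun hh => hh.2⟩
        · rw [aeval_map14, aeval_map14]
      rw [hset, finprod_mem_coe_finset, Finset.prod_image fun x _ y _ hxy => hinj hxy,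
        hP, aeval_map14]
      · simp only [map_mul, map_prod, map_zpow₀, map_pow, map_div₀, map_sub, hc']
      · intro l
        simp)
  refine ⟨b, fun i j s hij hs => ?_⟩
  rw [(h.aeval_eq hij s).1 hs]
  exact hb i j hij

/-- **Lines with integral coefficients and weights over the cyclotomic field.** -/
theorem linesIndepW14 {ℓ : ℕ} (hℓ : ℓ.Prime) (hm : 4 ≤ Fintype.card ι)
    (W : ι → ℕ) (hW : ∀ i, (W i).Coprime ℓ) (hcop : (∑ i, W i).Coprime ℓ)
    {v : ι ⊕ ι → ℤ} (hG : GenZ14 v)
    (hp : ∀ i j l : ι, i ≠ j → j ≠ l → i ≠ l →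
      ∃ p : ℕ, p.Prime ∧ (p : ZMod ℓ) = 1 ∧ OnlyBrk14 p (some i) (some j) (some l) v)
    (K F : Type u) [Field K] [Algebra ℚ K] [IsCyclotomicExtension {ℓ} ℚ K] [Field F]
    [Algebra K F] :
    Superelliptic.IsArrangement
        (fun i => C ((v (Sum.inl i) : ℤ) : K) + C ((v (Sum.inr i) : ℤ) : K) * X) ∧
      Superelliptic.ArrangementIndependentW ℓ K F W
        (fun i => C ((v (Sum.inl i) : ℤ) : K) + C ((v (Sum.inr i) : ℤ) : K) * X) := by
  haveI : Fact ℓ.Prime := ⟨hℓ⟩
  haveI : CharZero K := charZero_of_injective_algebraMap (algebraMap ℚ K).injective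
  have hgen := hG.gen K
  refine ⟨hgen.isArrangement, hgen.indepW hℓ hm W hW hcop ?_ F⟩
  intro i j l hij hjl hil
  obtain ⟨p, hpp, hp1, hB⟩ := hp i j l hij hjl hil
  haveI : Fact p.Prime := ⟨hpp⟩
  have hdvd : ℓ ∣ p - 1 := by
    rw [← ZMod.natCast_eq_zero_iff, Nat.cast_sub hpp.one_le, hp1, Nat.cast_one, sub_self]
  obtain ⟨φ⟩ := exists_embedding7 hℓ hdvd K
  exact ⟨padicVal14 φ ℓ, hB.hv φ ℓ⟩

end Pool.Agent.Lib.MP_89bcae_ag

end

section

/-!
# Lines of the projective plane: the arithmetic condition in all the charts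
-/

open Polynomial

open scoped Classical

set_option linter.unusedSectionVars false
set_option linter.unusedSimpArgs false
set_option linter.style.haveILetI false

namespace Pool.Agent.Lib.MP_89bcae_ag

open Superelliptic

section chart

variable {K : Type} [Field K] {J : Type}

/-- The determinant of three rows. -/
def dt14 {R : Type} [CommRing R] (a b c : Fin 3 → R) : R :=
  a 0 * (b 1 * c 2 - b 2 * c 1) - a 1 * (b 0 * c 2 - b 2 * c 0) + a 2 * (b 0 * c 1 - b 1 * c 0)

lemma dt14_mul {R : Type} [CommRing R] (a b c : Fin 3 → R) (g : Matrix (Fin 3) (Fin 3) R) :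
    dt14 (fun j => ∑ l, a l * g l j) (fun j => ∑ l, b l * g l j) (fun j => ∑ l, c l * g l j) =
      g.det * dt14 a b c := by
  unfold dt14
  rw [Matrix.det_fin_three]
  simp only [Fin.sum_univ_three]
  ring

/-- The affine coefficients of the lines, from their coefficients in the chart. -/
noncomputable def aff14 (cr : Option J → Fin 3 → K) : J ⊕ J → K
  | Sum.inl i => -(cr (some i) 2 / cr (some i) 0)
  | Sum.inr i => -(cr (some i) 1 / cr (some i) 0)

/-- The scaling factors. -/
def scl14 (cr : Option J → Fin 3 → K) : Option J → K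
  | none => -cr none 2
  | some i => cr (some i) 0

lemma brk_chart14 (cr : Option J → Fin 3 → K) (h0 : cr none 0 = 0) (h1 : cr none 1 = 0)
    (hs : ∀ x, scl14 cr x ≠ 0) (x y z : Option J) :
    brk14 (aff14 cr) x y z * (scl14 cr x * scl14 cr y * scl14 cr z) =
      -dt14 (cr x) (cr y) (cr z) := by
  have hc : ∀ x : Option J, pc14 K x * scl14 cr x = cr x 0 := by
    rintro (_ | i)
    · rw [h0]
      exact zero_mul _
    · exact one_mul _
  have ha : ∀ x : Option J, pa14 (aff14 cr) x * scl14 cr x = -cr x 2 := by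
    rintro (_ | i)
    · exact one_mul _
    · have h2 := hs (some i)
      change cr (some i) 0 ≠ 0 at h2
      change -(cr (some i) 2 / cr (some i) 0) * cr (some i) 0 = -cr (some i) 2
      rw [neg_mul, div_mul_cancel₀ _ h2]
  have hb : ∀ x : Option J, pb14 (aff14 cr) x * scl14 cr x = -cr x 1 := by
    rintro (_ | i)
    · rw [h1, neg_zero]
      exact zero_mul _
    · have h2 := hs (some i)
      change cr (some i) 0 ≠ 0 at h2
      change -(cr (some i) 1 / cr (some i) 0) * cr (some i) 0 = -cr (some i) 1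
      rw [neg_mul, div_mul_cancel₀ _ h2]
  have e : brk14 (aff14 cr) x y z * (scl14 cr x * scl14 cr y * scl14 cr z) =
      (pc14 K x * scl14 cr x) * ((pa14 (aff14 cr) y * scl14 cr y) * (pb14 (aff14 cr) z *
        scl14 cr z) - (pb14 (aff14 cr) y * scl14 cr y) * (pa14 (aff14 cr) z * scl14 cr z)) -
      (pa14 (aff14 cr) x * scl14 cr x) * ((pc14 K y * scl14 cr y) * (pb14 (aff14 cr) z *
        scl14 cr z) - (pb14 (aff14 cr) y * scl14 cr y) * (pc14 K z * scl14 cr z)) +
      (pb14 (aff14 cr) x * scl14 cr x) * ((pc14 K y * scl14 cr y) * (pa14 (aff14 cr) z *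
        scl14 cr z) - (pa14 (aff14 cr) y * scl14 cr y) * (pc14 K z * scl14 cr z)) := by
    unfold brk14
    ring
  rw [e, hc, hc, hc, ha, ha, ha, hb, hb, hb]
  unfold dt14
  ring

/-- The hypothesis on the homomorphism in the chart. -/
lemma hv_chart14 {ℓ : ℕ} (V : Val14 K ℓ) (cr : Option J → Fin 3 → K) (h0 : cr none 0 = 0)
    (h1 : cr none 1 = 0) (hs : ∀ x, scl14 cr x ≠ 0) (D : K) (hD : D ≠ 0)
    (B : Option J → Option J → Option J → K)
    (hB : ∀ x y z, dt14 (cr x) (cr y) (cr z) = D * B x y z) {i j l : J} {r : ZMod ℓ} (hr : r ≠ 0)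
    (hB1 : B (some i) (some j) (some l) ≠ 0) (hV1 : V.ν (B (some i) (some j) (some l)) = r)
    (hV0 : ∀ x y z : Option J, x ≠ y → y ≠ z → x ≠ z →
      ¬ (x ∈ ({some i, some j, some l} : Set (Option J)) ∧
        y ∈ ({some i, some j, some l} : Set (Option J)) ∧
        z ∈ ({some i, some j, some l} : Set (Option J))) →
      B x y z ≠ 0 ∧ V.ν (B x y z) = 0) :
    HV14 (aff14 cr) V i j l := by
  have key : ∀ x y z : Option J, B x y z ≠ 0 →
      V.ν (brk14 (aff14 cr) x y z) = V.ν D + (-V.ν (scl14 cr x)) + (-V.ν (scl14 cr y)) +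
        (-V.ν (scl14 cr z)) + V.ν (B x y z) := by
    intro x y z hne
    have h2 := brk_chart14 cr h0 h1 hs x y z
    rw [hB] at h2
    have hS : scl14 cr x * scl14 cr y * scl14 cr z ≠ 0 :=
      mul_ne_zero (mul_ne_zero (hs x) (hs y)) (hs z)
    have hDB : D * B x y z ≠ 0 := mul_ne_zero hD hne
    have hb : brk14 (aff14 cr) x y z ≠ 0 := by
      intro h3
      rw [h3, zero_mul] at h2
      exact neg_ne_zero.2 hDB h2.symm
    have h3 := congrArg V.ν h2
    rw [V.mul _ _ hb hS, V.neg hDB, V.mul _ _ hD hne,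
      V.mul _ _ (mul_ne_zero (hs x) (hs y)) (hs z), V.mul _ _ (hs x) (hs y)] at h3
    linear_combination h3
  refine ⟨V.ν D, fun x => -V.ν (scl14 cr x), r, hr, ?_, ?_⟩
  · rw [key _ _ _ hB1, hV1]
  · intro x y z hxy hyz hxz hno
    obtain ⟨h2, h3⟩ := hV0 x y z hxy hyz hxz hno
    rw [key _ _ _ h2, h3, add_zero]

end chart

section gen

variable {K : Type} [Field K] {J : Type} [Fintype J] [LinearOrder J]

/-- An arrangement of lines is generic. -/
lemma gen_of_isArrangement14 {v : J ⊕ J → K} (h : IsArrangement (lin14 v)) : Gen14 v := by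
  have hslope : ∀ i j, i ≠ j → v (Sum.inr i) ≠ v (Sum.inr j) := by
    intro i j hij he
    apply h.natDegree_ne_zero i j hij
    rw [lin14_sub, he, sub_self, C_0, zero_mul, add_zero, natDegree_C]
  refine ⟨hslope, ?_⟩
  -- two different factors are coprime
  have hprod : (∏ q ∈ (Finset.univ : Finset (J × J)).filter (fun q => q.1 < q.2),
      (lin14 v q.1 - lin14 v q.2)).Separable := by
    have h1 : (∏ i, ∏ j ∈ Finset.univ.filter (fun j => i < j), (lin14 v i - lin14 v j)) =
        ∏ q ∈ (Finset.univ : Finset (J × J)).filter (fun q => q.1 < q.2),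
        (lin14 v q.1 - lin14 v q.2) := by
      rw [← Finset.univ_product_univ, Finset.prod_filter, Finset.prod_product]
      refine Finset.prod_congr rfl fun i _ => ?_
      rw [Finset.prod_filter]
    rw [← h1]
    exact h.separable
  have hcop : ∀ q q' : J × J, q.1 < q.2 → q'.1 < q'.2 → q ≠ q' →
      IsCoprime (lin14 v q.1 - lin14 v q.2) (lin14 v q'.1 - lin14 v q'.2) := by
    intro q q' hq hq' hne
    have hm : q ∈ (Finset.univ : Finset (J × J)).filter (fun q => q.1 < q.2) :=
      Finset.mem_filter.2 ⟨Finset.mem_univ q, hq⟩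
    have hm' : q' ∈ ((Finset.univ : Finset (J × J)).filter (fun q => q.1 < q.2)).erase q :=
      Finset.mem_erase.2 ⟨hne.symm, Finset.mem_filter.2 ⟨Finset.mem_univ q', hq'⟩⟩
    rw [← Finset.mul_prod_erase _ _ hm] at hprod
    have h2 := hprod.isCoprime
    exact h2.of_isCoprime_of_dvd_right (Finset.dvd_prod_of_mem _ hm')
  have main : ∀ i j l m, i < j → l < m → (i, j) ≠ (l, m) →
      (v (Sum.inl i) - v (Sum.inl j)) * (v (Sum.inr l) - v (Sum.inr m)) ≠
      (v (Sum.inl l) - v (Sum.inl m)) * (v (Sum.inr i) - v (Sum.inr j)) := by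
    intro i j l m hij hlm hne he
    obtain ⟨a, b, hab⟩ := hcop (i, j) (l, m) hij hlm hne
    have h0 := sub_ne_zero.2 (hslope i j hij.ne)
    have e1 : (lin14 v i - lin14 v j).eval (nd14 v i j) = 0 := by
      rw [lin14_sub]
      simp only [eval_add, eval_C, eval_mul, eval_X]
      unfold nd14
      field_simp
      ring
    have e2 : (lin14 v l - lin14 v m).eval (nd14 v i j) = 0 := by
      rw [lin14_sub]
      simp only [eval_add, eval_C, eval_mul, eval_X]
      unfold nd14
      field_simp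
      linear_combination -he
    have h2 := congrArg (eval (nd14 v i j)) hab
    simp only [eval_add, eval_mul] at h2
    rw [e1, e2, mul_zero, mul_zero, add_zero, eval_one] at h2
    exact zero_ne_one h2
  intro i j l m hij hlm h1 h2 he
  rcases lt_or_gt_of_ne hij with hij' | hij' <;> rcases lt_or_gt_of_ne hlm with hlm' | hlm'
  · exact main i j l m hij' hlm' (fun h => h1 ⟨(Prod.mk.inj h).1.symm, (Prod.mk.inj h).2.symm⟩) he
  · exact main i j m l hij' hlm' (fun h => h2 ⟨(Prod.mk.inj h).2.symm, (Prod.mk.inj h).1.symm⟩)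
      (by linear_combination -he)
  · exact main j i l m hij' hlm' (fun h => h2 ⟨(Prod.mk.inj h).1.symm, (Prod.mk.inj h).2.symm⟩)
      (by linear_combination -he)
  · exact main j i m l hij' hlm' (fun h => h1 ⟨(Prod.mk.inj h).2.symm, (Prod.mk.inj h).1.symm⟩)
      (by linear_combination he)

end gen

section final

variable {ι : Type} [Fintype ι] [LinearOrder ι]

/-- The family with the line at infinity. -/
def opt14 (i₀ : ι) (I : Finset ι) : Option I → ι
  | none => i₀
  | some i => i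

omit [Fintype ι] [LinearOrder ι] in
lemma opt14_injective {i₀ : ι} {I : Finset ι} (h : i₀ ∉ I) : Function.Injective (opt14 i₀ I) := by
  rintro (_ | i) (_ | j) hij
  · rfl
  · exfalso
    apply h
    have h1 : i₀ = (j : ι) := hij
    rw [h1]
    exact j.2
  · exfalso
    apply h
    have h1 : (i : ι) = i₀ := hij
    rw [← h1]
    exact i.2
  · have h1 : (i : ι) = j := hij
    rw [Subtype.ext h1]

/-- **The arithmetic condition in the charts.** -/
theorem prjIndepW14 {ℓ : ℕ} (hℓ : ℓ.Prime) {v : ι × Fin 3 → ℤ}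
    (hp : ∀ x y z : ι, x ≠ y → y ≠ z → x ≠ z →
      ∃ p : ℕ, p.Prime ∧ (p : ZMod ℓ) = 1 ∧ OnlyPbr14 p x y z v)
    {g : Matrix (Fin 3) (Fin 3) ℚ} {i₀ : ι} {I : Finset ι} (hi₀ : i₀ ∉ I) (hI : 4 ≤ I.card)
    (hg : IsChart v g i₀ I) (W : I → ℕ) (hW : ∀ i, (W i).Coprime ℓ) (hcop : (∑ i, W i).Coprime ℓ)
    (harr : IsArrangement fun i : I => linePoly v g i)
    (K F : Type) [Field K] [Algebra ℚ K] [IsCyclotomicExtension {ℓ} ℚ K] [Field F]
    [Algebra K F] :
    IsArrangement (fun i : I => (linePoly v g i).map (algebraMap ℚ K)) ∧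
      ArrangementIndependentW ℓ K F W
        (fun i : I => (linePoly v g i).map (algebraMap ℚ K)) := by
  haveI : Fact ℓ.Prime := ⟨hℓ⟩
  haveI : CharZero K := charZero_of_injective_algebraMap (algebraMap ℚ K).injective
  -- the coefficients in the chart
  set cr : Option I → Fin 3 → K := fun x j => algebraMap ℚ K (lineCoeff v g (opt14 i₀ I x) j)
    with hcr
  set gK : Matrix (Fin 3) (Fin 3) K := fun l j => algebraMap ℚ K (g l j) with hgK
  have hdet : gK.det = algebraMap ℚ K g.det := by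
    rw [RingHom.map_det]
    rfl
  have hdet0 : gK.det ≠ 0 := by
    rw [hdet]
    exact (map_ne_zero_iff _ (algebraMap ℚ K).injective).2 hg.det_ne_zero
  have hcrs : ∀ x, cr x = fun j => ∑ l, ((v (opt14 i₀ I x, l) : ℤ) : K) * gK l j := by
    intro x
    funext j
    rw [hcr, hgK]
    beta_reduce
    unfold lineCoeff
    rw [map_sum]
    refine Finset.sum_congr rfl fun l _ => ?_
    rw [map_mul, map_intCast]
  set B : Option I → Option I → Option I → K := fun x y z =>
    ((pbr14 v (opt14 i₀ I x) (opt14 i₀ I y) (opt14 i₀ I z) : ℤ) : K) with hBdef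
  have hB : ∀ x y z, dt14 (cr x) (cr y) (cr z) = gK.det * B x y z := by
    intro x y z
    rw [hcrs x, hcrs y, hcrs z, dt14_mul, hBdef]
    beta_reduce
    congr 1
    unfold dt14 pbr14
    push_cast
    ring
  have h0 : cr none 0 = 0 := by
    change algebraMap ℚ K (lineCoeff v g i₀ 0) = 0
    rw [hg.at_infinity.1, map_zero]
  have h1 : cr none 1 = 0 := by
    change algebraMap ℚ K (lineCoeff v g i₀ 1) = 0
    rw [hg.at_infinity.2, map_zero]
  -- all the brackets are not zero
  have hpb : ∀ x y z : ι, x ≠ y → y ≠ z → x ≠ z → pbr14 v x y z ≠ 0 := by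
    intro x y z hxy hyz hxz h2
    obtain ⟨p, -, -, -, h3, -⟩ := hp x y z hxy hyz hxz
    apply h3
    rw [h2]
    exact dvd_zero _
  have hs : ∀ x, scl14 cr x ≠ 0 := by
    rintro (_ | i)
    · change -cr none 2 ≠ 0
      rw [neg_ne_zero]
      intro h2
      -- the line `i₀` would vanish
      obtain ⟨x, hx, y, hy, hxy⟩ := Finset.one_lt_card.1 (show 1 < I.card by omega)
      have h3 := hB none (some ⟨x, hx⟩) (some ⟨y, hy⟩)
      have h4 : dt14 (cr none) (cr (some ⟨x, hx⟩)) (cr (some ⟨y, hy⟩)) = 0 := by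
        unfold dt14
        rw [h0, h1, h2]
        ring
      rw [h4] at h3
      have h5 := (mul_eq_zero.1 h3.symm).resolve_left hdet0
      have h6 : pbr14 v i₀ x y = 0 := Int.cast_eq_zero.1 h5
      exact hpb i₀ x y (fun h => hi₀ (h ▸ hx)) hxy (fun h => hi₀ (h ▸ hy)) h6
    · change algebraMap ℚ K (lineCoeff v g i 0) ≠ 0
      exact (map_ne_zero_iff _ (algebraMap ℚ K).injective).2 (hg.ne_zero i i.2)
  have hlin : (fun i : I => (linePoly v g i).map (algebraMap ℚ K)) = lin14 (aff14 cr) := by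
    funext i
    unfold linePoly lin14
    rw [Polynomial.map_add, Polynomial.map_mul, map_C, map_C, map_X]
    have e1 : algebraMap ℚ K (-(lineCoeff v g i 2 / lineCoeff v g i 0)) =
        aff14 cr (Sum.inl i) := by
      rw [map_neg, map_div₀]
      rfl
    have e2 : algebraMap ℚ K (-(lineCoeff v g i 1 / lineCoeff v g i 0)) =
        aff14 cr (Sum.inr i) := by
      rw [map_neg, map_div₀]
      rfl
    rw [e1, e2]
  -- the arrangement over `K`
  have harrK : IsArrangement (lin14 (aff14 cr)) := by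
    rw [← hlin]
    refine ⟨?_, fun i j hij => ?_⟩
    · have h2 := harr.separable
      have h3 : (∏ i : I, ∏ j ∈ Finset.univ.filter fun j => i < j,
          ((linePoly v g i).map (algebraMap ℚ K) - (linePoly v g j).map (algebraMap ℚ K))) =
          (∏ i : I, ∏ j ∈ Finset.univ.filter fun j => i < j,
            (linePoly v g i - linePoly v g j)).map (algebraMap ℚ K) := by
        rw [Polynomial.map_prod]
        refine Finset.prod_congr rfl fun i _ => ?_
        rw [Polynomial.map_prod]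
        refine Finset.prod_congr rfl fun j _ => ?_
        rw [Polynomial.map_sub]
      rw [h3, Polynomial.separable_map]
      exact h2
    · rw [← Polynomial.map_sub, natDegree_map]
      exact harr.natDegree_ne_zero i j hij
  rw [hlin]
  refine ⟨harrK, (gen_of_isArrangement14 harrK).indepW hℓ
    (by rw [Fintype.card_coe]; exact hI) W hW hcop ?_ F⟩
  intro i j l hij hjl hil
  have hne : ∀ {i j : I}, i ≠ j → (i : ι) ≠ j := fun h h' => h (Subtype.ext h')
  obtain ⟨p, hpp, hp1, hd1, hd2, hd3⟩ := hp i j l (hne hij) (hne hjl) (hne hil)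
  haveI : Fact p.Prime := ⟨hpp⟩
  have hdvd : ℓ ∣ p - 1 := by
    rw [← ZMod.natCast_eq_zero_iff, Nat.cast_sub hpp.one_le, hp1, Nat.cast_one, sub_self]
  obtain ⟨φ⟩ := exists_embedding7 hℓ hdvd K
  refine ⟨padicVal14 φ ℓ, hv_chart14 (padicVal14 φ ℓ) cr h0 h1 hs gK.det hdet0 B hB
    (r := 1) one_ne_zero ?_ ?_ ?_⟩
  · exact Int.cast_ne_zero.2 (hpb i j l (hne hij) (hne hjl) (hne hil))
  · rw [hBdef]
    beta_reduce
    rw [padicVal14_int]
    have h5 := (padicValInt_dvd_iff (p := p) 1 (pbr14 v i j l)).1 (by rwa [pow_one])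
    have h6 : ¬ 2 ≤ padicValInt p (pbr14 v i j l) := fun h6 =>
      hd2 ((padicValInt_dvd_iff (p := p) 2 _).2 (Or.inr h6))
    have h4 : padicValInt p (pbr14 v i j l) = 1 := by
      rcases h5 with h5 | h5
      · exact absurd h5 (hpb i j l (hne hij) (hne hjl) (hne hil))
      · omega
    have h7 : pbr14 v (opt14 i₀ I (some i)) (opt14 i₀ I (some j)) (opt14 i₀ I (some l)) =
        pbr14 v i j l := rfl
    rw [h7, h4]
    simp
  · intro x y z hxy hyz hxz hno
    have hinj := opt14_injective hi₀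
    have hx' : opt14 i₀ I x ≠ opt14 i₀ I y := fun h => hxy (hinj h)
    have hy' : opt14 i₀ I y ≠ opt14 i₀ I z := fun h => hyz (hinj h)
    have hz' : opt14 i₀ I x ≠ opt14 i₀ I z := fun h => hxz (hinj h)
    have hmem : ∀ w : Option I, opt14 i₀ I w ∈ ({(i : ι), (j : ι), (l : ι)} : Set ι) →
        w ∈ ({some i, some j, some l} : Set (Option I)) := by
      intro w hw
      simp only [Set.mem_insert_iff, Set.mem_singleton_iff] at hw ⊢
      rcases hw with hw | hw | hw
      · exact Or.inl (hinj hw)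
      · exact Or.inr (Or.inl (hinj hw))
      · exact Or.inr (Or.inr (hinj hw))
    refine ⟨?_, ?_⟩
    · exact Int.cast_ne_zero.2 (hpb _ _ _ hx' hy' hz')
    · rw [hBdef]
      beta_reduce
      rw [padicVal14_int, padicValInt.eq_zero_of_not_dvd (hd3 _ _ _ hx' hy' hz'
        fun hh => hno ⟨hmem x hh.1, hmem y hh.2.1, hmem z hh.2.2⟩)]
      simp

end final

end Pool.Agent.Lib.MP_89bcae_ag

end

section

/-!
# Lines of the projective plane: existence of charts
-/

open Polynomial

open scoped Classical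

set_option linter.unusedSectionVars false
set_option linter.unusedSimpArgs false
set_option linter.style.haveILetI false

namespace Pool.Agent.Lib.MP_89bcae_ag

open Superelliptic

/-- Finitely many nonzero affine functions have a common nonzero. -/
lemma exists_affine14 {κ : Type} [Finite κ] (a b : κ → ℚ) (h : ∀ k, a k ≠ 0 ∨ b k ≠ 0) :
    ∃ s : ℚ, ∀ k, a k + s * b k ≠ 0 := by
  have hfin : (⋃ k, {s : ℚ | a k + s * b k = 0}).Finite := by
    apply Set.finite_iUnion
    intro k
    apply Set.Subsingleton.finite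
    intro s hs t ht
    rw [Set.mem_ofPred_eq] at hs ht
    have h1 : (s - t) * b k = 0 := by linear_combination hs - ht
    rcases mul_eq_zero.1 h1 with h2 | h2
    · exact sub_eq_zero.1 h2
    · rw [h2, mul_zero, add_zero] at hs
      exact absurd h2 ((h k).resolve_left (fun h3 => h3 hs))
  obtain ⟨s, hs⟩ := hfin.exists_notMem
  refine ⟨s, fun k hk => hs ?_⟩
  exact Set.mem_iUnion.2 ⟨k, hk⟩

/-- Coordinates with a given line at infinity. -/
lemma exists_basis14 (a : Fin 3 → ℚ) (ha : a ≠ 0) : ∃ g : Matrix (Fin 3) (Fin 3) ℚ, g.det ≠ 0 ∧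
    ∑ l, a l * g l 0 = 0 ∧ ∑ l, a l * g l 1 = 0 := by
  by_cases h2 : a 2 = 0
  · by_cases h1 : a 1 = 0
    · have h0 : a 0 ≠ 0 := by
        intro h0
        apply ha
        funext i
        fin_cases i
        · exact h0
        · exact h1
        · exact h2
      refine ⟨!![0, 0, 1; 1, 0, 0; 0, 1, 0], ?_, ?_, ?_⟩
      · rw [Matrix.det_fin_three]
        simp
      · simp [Fin.sum_univ_three, h1]
      · simp [Fin.sum_univ_three, h2]
    · refine ⟨!![a 1, 0, 0; -a 0, 0, 1; 0, 1, 0], ?_, ?_, ?_⟩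
      · rw [Matrix.det_fin_three]
        simp [h1]
      · simp [Fin.sum_univ_three, h2]
        ring
      · simp [Fin.sum_univ_three, h2]
  · refine ⟨!![a 2, 0, 0; 0, a 2, 0; -a 0, -a 1, 1], ?_, ?_, ?_⟩
    · rw [Matrix.det_fin_three]
      simp [h2]
    · simp [Fin.sum_univ_three]
      ring
    · simp [Fin.sum_univ_three]
      ring

variable {ι : Type} [Fintype ι] [LinearOrder ι]

omit [Fintype ι] [LinearOrder ι] in
lemma dt_lineCoeff14 (v : ι × Fin 3 → ℤ) (g : Matrix (Fin 3) (Fin 3) ℚ) (x y z : ι) :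
    dt14 (lineCoeff v g x) (lineCoeff v g y) (lineCoeff v g z) = g.det * ((pbr14 v x y z : ℤ) : ℚ) := by
  have h1 := dt14_mul (fun l => (v (x, l) : ℚ)) (fun l => (v (y, l) : ℚ))
    (fun l => (v (z, l) : ℚ)) g
  have h2 : dt14 (fun l => (v (x, l) : ℚ)) (fun l => (v (y, l) : ℚ)) (fun l => (v (z, l) : ℚ)) =
      ((pbr14 v x y z : ℤ) : ℚ) := by
    unfold dt14 pbr14
    push_cast
    ring
  rw [h2] at h1
  exact h1

/-- **Existence of charts.** -/
theorem exists_chart14 {v : ι × Fin 3 → ℤ} (h : ∀ x y z : ι, x ≠ y → y ≠ z → x ≠ z →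
    pbr14 v x y z ≠ 0) (hc : 3 ≤ Fintype.card ι) (i₀ : ι) :
    ∃ g : Matrix (Fin 3) (Fin 3) ℚ, IsChart v g i₀ (Finset.univ.erase i₀) ∧
      IsArrangement (fun i : (Finset.univ.erase i₀ : Finset ι) => linePoly v g i) := by
  -- two other lines for each line
  have hthird : ∀ i j : ι, ∃ l, l ≠ i ∧ l ≠ j := by
    intro i j
    by_contra hcon
    push Not at hcon
    have h1 : (Finset.univ : Finset ι) ⊆ {i, j} := by
      intro l _
      rw [Finset.mem_insert, Finset.mem_singleton]
      by_cases hl : l = i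
      · exact Or.inl hl
      · exact Or.inr (hcon l hl)
    have h2 := Finset.card_le_card h1
    rw [Finset.card_univ] at h2
    have h3 : ({i, j} : Finset ι).card ≤ 2 := Finset.card_le_two
    omega
  have ha : (fun l => (v (i₀, l) : ℚ)) ≠ 0 := by
    intro h0
    obtain ⟨j, hj, -⟩ := hthird i₀ i₀
    obtain ⟨l, hl, hlj⟩ := hthird i₀ j
    apply h i₀ j l hj.symm hlj.symm hl.symm
    have e : ∀ r : Fin 3, v (i₀, r) = 0 := by
      intro r
      have := congrFun h0 r
      simpa using this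
    unfold pbr14
    rw [e, e, e]
    ring
  obtain ⟨G, hG, hG0, hG1⟩ := exists_basis14 _ ha
  set u : ι → ℚ := fun i => lineCoeff v G i 0 with hu
  set w : ι → ℚ := fun i => lineCoeff v G i 1 with hw
  set e : ι → ℚ := fun i => lineCoeff v G i 2 with he
  have hu0 : u i₀ = 0 := hG0
  have hw0 : w i₀ = 0 := hG1
  have hdt : ∀ x y z, u x * (w y * e z - e y * w z) - w x * (u y * e z - e y * u z) +
      e x * (u y * w z - w y * u z) = G.det * ((pbr14 v x y z : ℤ) : ℚ) := by
    intro x y z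
    rw [← dt_lineCoeff14]
    rfl
  have hbr : ∀ x y z, x ≠ y → y ≠ z → x ≠ z → G.det * ((pbr14 v x y z : ℤ) : ℚ) ≠ 0 := fun x y z a b c =>
    mul_ne_zero hG (Int.cast_ne_zero.2 (h x y z a b c))
  have hΔ : ∀ i j, i ≠ j → i ≠ i₀ → j ≠ i₀ → w i * u j - w j * u i ≠ 0 := by
    intro i j hij hi hj h0
    have h1 := hdt i j i₀
    rw [hu0, hw0] at h1
    apply hbr i j i₀ hij hj hi
    rw [← h1]
    linear_combination -(e i₀) * h0
  -- the conditions
  let κ := {i : ι // i ≠ i₀} ⊕ {q : ι × ι × ι × ι // q.1 ≠ q.2.1 ∧ q.2.2.1 ≠ q.2.2.2 ∧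
    ¬ (q.2.2.1 = q.1 ∧ q.2.2.2 = q.2.1) ∧ ¬ (q.2.2.1 = q.2.1 ∧ q.2.2.2 = q.1) ∧
    q.1 ≠ i₀ ∧ q.2.1 ≠ i₀ ∧ q.2.2.1 ≠ i₀ ∧ q.2.2.2 ≠ i₀}
  let Δ : ι → ι → ℚ := fun i j => w i * u j - w j * u i
  let R : ι → ι → ℚ := fun i j => e i * u j - e j * u i
  let S : ι → ι → ℚ := fun i j => e i * w j - e j * w i
  let A : κ → ℚ := Sum.elim (fun i => u i) (fun q =>
    R q.1.1 q.1.2.1 * Δ q.1.2.2.1 q.1.2.2.2 - R q.1.2.2.1 q.1.2.2.2 * Δ q.1.1 q.1.2.1)
  let B : κ → ℚ := Sum.elim (fun i => w i) (fun q =>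
    S q.1.1 q.1.2.1 * Δ q.1.2.2.1 q.1.2.2.2 - S q.1.2.2.1 q.1.2.2.2 * Δ q.1.1 q.1.2.1)
  obtain ⟨s, hs⟩ := exists_affine14 A B (by
    rintro (⟨i, hi⟩ | ⟨⟨i, j, l, m⟩, hij, hlm, h1, h2, hi, hj, hl, hm⟩)
    · change u i ≠ 0 ∨ w i ≠ 0
      by_contra hcon
      push Not at hcon
      obtain ⟨j, hj, hj0⟩ := hthird i i₀
      apply hΔ i j hj.symm hi hj0
      rw [hcon.1, hcon.2]
      ring
    · change R i j * Δ l m - R l m * Δ i j ≠ 0 ∨ S i j * Δ l m - S l m * Δ i j ≠ 0
      simp only at hij hlm h1 h2 hi hj hl hm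
      by_contra hcon
      push Not at hcon
      obtain ⟨c1, c2⟩ := hcon
      -- a line through the two points
      have key : ∀ r, r = l ∨ r = m → r = i ∨ r = j := by
        intro r hr
        by_contra hcon
        push Not at hcon
        have h3 := hdt r i j
        apply hbr r i j hcon.1 hij hcon.2
        have h4 : Δ l m * (u r * (w i * e j - e i * w j) - w r * (u i * e j - e i * u j) +
            e r * (u i * w j - w i * u j)) = 0 := by
          have h5 : Δ l m * (u r * (w i * e j - e i * w j) - w r * (u i * e j - e i * u j) +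
            e r * (u i * w j - w i * u j)) = Δ i j * (-(u r * S l m) + w r * R l m - e r * Δ l m) +
              w r * (R i j * Δ l m - R l m * Δ i j) - u r * (S i j * Δ l m - S l m * Δ i j) := by
            simp only [Δ, R, S]
            ring
          have h6 : -(u r * S l m) + w r * R l m - e r * Δ l m = 0 := by
            rcases hr with rfl | rfl
            · simp only [Δ, R, S]
              ring
            · simp only [Δ, R, S]
              ring
          rw [h5, h6, c1, c2]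
          ring
        rw [← h3]
        exact (mul_eq_zero.1 h4).resolve_left (hΔ l m hlm hl hm)
      rcases key l (Or.inl rfl) with a | a <;> rcases key m (Or.inr rfl) with b | b
      · exact hlm (a.trans b.symm)
      · exact h1 ⟨a, b⟩
      · exact h2 ⟨a, b⟩
      · exact hlm (a.trans b.symm))
  -- the chart
  set g : Matrix (Fin 3) (Fin 3) ℚ := fun l j => if j = 0 then G l 0 + s * G l 1 else G l j
    with hg
  have hc0 : ∀ i, lineCoeff v g i 0 = u i + s * w i := by
    intro i
    change ∑ l, (v (i, l) : ℚ) * (G l 0 + s * G l 1) =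
      ∑ l, (v (i, l) : ℚ) * G l 0 + s * ∑ l, (v (i, l) : ℚ) * G l 1
    rw [Finset.mul_sum, ← Finset.sum_add_distrib]
    exact Finset.sum_congr rfl fun l _ => by ring
  have hc1 : ∀ i, lineCoeff v g i 1 = w i := fun i => rfl
  have hc2 : ∀ i, lineCoeff v g i 2 = e i := fun i => rfl
  have hdet : g.det = G.det := by
    rw [Matrix.det_fin_three, Matrix.det_fin_three]
    have e0 : ∀ l, g l 0 = G l 0 + s * G l 1 := fun l => rfl
    have e1 : ∀ l, g l 1 = G l 1 := fun l => rfl
    have e2 : ∀ l, g l 2 = G l 2 := fun l => rfl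
    rw [e0, e0, e0, e1, e1, e1, e2, e2, e2]
    ring
  have hp : ∀ i, i ≠ i₀ → lineCoeff v g i 0 ≠ 0 := by
    intro i hi
    rw [hc0]
    exact hs (Sum.inl ⟨i, hi⟩)
  refine ⟨g, ⟨by rw [hdet]; exact hG, ⟨?_, ?_⟩, fun i hi => hp i (Finset.ne_of_mem_erase hi)⟩, ?_⟩
  · rw [hc0, hu0, hw0]
    ring
  · rw [hc1, hw0]
  -- the arrangement
  set v' : (Finset.univ.erase i₀ : Finset ι) ⊕ (Finset.univ.erase i₀ : Finset ι) → ℚ :=
    Sum.elim (fun i => -(lineCoeff v g i 2 / lineCoeff v g i 0))
      (fun i => -(lineCoeff v g i 1 / lineCoeff v g i 0)) with hv'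
  have hlin : (fun i : (Finset.univ.erase i₀ : Finset ι) => linePoly v g i) = lin14 v' := rfl
  rw [hlin]
  apply Gen14.isArrangement
  have hne : ∀ i : (Finset.univ.erase i₀ : Finset ι), (i : ι) ≠ i₀ :=
    fun i => Finset.ne_of_mem_erase i.2
  have hsl : ∀ i j : (Finset.univ.erase i₀ : Finset ι), (v' (Sum.inr i) - v' (Sum.inr j)) *
      (lineCoeff v g i 0 * lineCoeff v g j 0) = -Δ i j := by
    intro i j
    have a1 := hp i (hne i)
    have a2 := hp j (hne j)
    change (-(lineCoeff v g i 1 / lineCoeff v g i 0) - -(lineCoeff v g j 1 / lineCoeff v g j 0)) *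
      (lineCoeff v g i 0 * lineCoeff v g j 0) = _
    field_simp
    rw [hc0, hc0, hc1, hc1]
    simp only [Δ]
    ring
  have hin : ∀ i j : (Finset.univ.erase i₀ : Finset ι), (v' (Sum.inl i) - v' (Sum.inl j)) *
      (lineCoeff v g i 0 * lineCoeff v g j 0) = -(R i j + s * S i j) := by
    intro i j
    have a1 := hp i (hne i)
    have a2 := hp j (hne j)
    change (-(lineCoeff v g i 2 / lineCoeff v g i 0) - -(lineCoeff v g j 2 / lineCoeff v g j 0)) *
      (lineCoeff v g i 0 * lineCoeff v g j 0) = _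
    field_simp
    rw [hc0, hc0, hc2, hc2]
    simp only [R, S]
    ring
  refine ⟨fun i j hij he => ?_, fun i j l m hij hlm h1 h2 he => ?_⟩
  · have h3 := hsl i j
    rw [he, sub_self, zero_mul] at h3
    exact hΔ i j (fun hh => hij (Subtype.ext hh)) (hne i) (hne j) (neg_eq_zero.1 h3.symm)
  · have h3 := hs (Sum.inr ⟨(i, j, l, m), fun hh => hij (Subtype.ext hh),
      fun hh => hlm (Subtype.ext hh), fun hh => h1 ⟨Subtype.ext hh.1, Subtype.ext hh.2⟩,
      fun hh => h2 ⟨Subtype.ext hh.1, Subtype.ext hh.2⟩, hne i, hne j, hne l, hne m⟩)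
    apply h3
    change R i j * Δ l m - R l m * Δ i j + s * (S i j * Δ l m - S l m * Δ i j) = 0
    have e1 := hin i j
    have e2 := hin l m
    have e3 := hsl i j
    have e4 := hsl l m
    linear_combination (Δ l m) * e1 - (v' (Sum.inl i) - v' (Sum.inl j)) *
      (lineCoeff v g i 0 * lineCoeff v g j 0) * e4 - Δ i j * e2 +
      (v' (Sum.inl l) - v' (Sum.inl m)) * (lineCoeff v g l 0 * lineCoeff v g m 0) * e3 +
      (lineCoeff v g i 0 * lineCoeff v g j 0) * (lineCoeff v g l 0 * lineCoeff v g m 0) * he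

end Pool.Agent.Lib.MP_89bcae_ag

end

section

/-!
# Lines of the projective plane: the arithmetic condition in all the charts, for all primes `ℓ`

The homomorphism is the opposite of the `p`-adic valuation of the norm from `K = ℚ(ζ_ℓ)` to `ℚ`; as the
degree is `ℓ - 1`, it extends the `p`-adic valuation of `ℚ` modulo `ℓ`.
-/

open Polynomial

open scoped Classical

set_option linter.unusedSectionVars false
set_option linter.unusedSimpArgs false
set_option linter.style.haveILetI false

namespace Pool.Agent.Lib.MP_89bcae_ag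

open Superelliptic

/-- The opposite of the `p`-adic valuation of the norm, modulo `ℓ`. -/
noncomputable def normVal14 (K : Type) [Field K] [Algebra ℚ K] (p : ℕ) [Fact p.Prime] (ℓ : ℕ)
    [NeZero ℓ] [IsCyclotomicExtension {ℓ} ℚ K] : Val14 K ℓ where
  ν x := -((padicValRat p (Algebra.norm ℚ x) : ℤ) : ZMod ℓ)
  mul x y hx hy := by
    haveI : FiniteDimensional ℚ K := IsCyclotomicExtension.finiteDimensional {ℓ} ℚ K
    have hx' : Algebra.norm ℚ x ≠ 0 := Algebra.norm_ne_zero_iff.2 hx
    have hy' : Algebra.norm ℚ y ≠ 0 := Algebra.norm_ne_zero_iff.2 hy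
    rw [map_mul, padicValRat.mul hx' hy']
    push_cast
    ring
  neg_one := by
    have h1 : (-1 : K) = algebraMap ℚ K (-1) := by rw [map_neg, map_one]
    have h2 : padicValRat p ((-1 : ℚ) ^ Module.finrank ℚ K) = 0 := by
      rw [padicValRat.pow, padicValRat.neg, padicValRat.one, mul_zero]
    rw [h1, Algebra.norm_algebraMap, h2, Int.cast_zero, neg_zero]

lemma normVal14_int {K : Type} [Field K] [Algebra ℚ K] {p : ℕ} [Fact p.Prime] {ℓ : ℕ}
    (hℓ : ℓ.Prime) [NeZero ℓ] [IsCyclotomicExtension {ℓ} ℚ K] (z : ℤ) :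
    (normVal14 K p ℓ).ν (z : K) = ((padicValInt p z : ℕ) : ZMod ℓ) := by
  change -((padicValRat p (Algebra.norm ℚ (z : K)) : ℤ) : ZMod ℓ) = _
  by_cases hz : z = 0
  · subst hz
    haveI : FiniteDimensional ℚ K := IsCyclotomicExtension.finiteDimensional {ℓ} ℚ K
    simp
  · have h1 : (z : K) = algebraMap ℚ K (z : ℚ) := by rw [map_intCast]
    have hz' : (z : ℚ) ≠ 0 := Int.cast_ne_zero.2 hz
    rw [h1, Algebra.norm_algebraMap, padicValRat.pow, padicValRat.of_int,
      IsCyclotomicExtension.finrank K (cyclotomic.irreducible_rat hℓ.pos), Nat.totient_prime hℓ]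
    push_cast [Nat.cast_sub hℓ.one_le]
    rw [ZMod.natCast_self]
    ring

section final

variable {ι : Type} [Fintype ι] [LinearOrder ι]

/-- **The arithmetic condition in the charts**, for every prime `ℓ`. -/
theorem prjIndepN14 {ℓ : ℕ} (hℓ : ℓ.Prime) {v : ι × Fin 3 → ℤ}
    (hp : ∀ x y z : ι, x ≠ y → y ≠ z → x ≠ z →
      ∃ p : ℕ, p.Prime ∧ OnlyPbr14 p x y z v)
    {g : Matrix (Fin 3) (Fin 3) ℚ} {i₀ : ι} {I : Finset ι} (hi₀ : i₀ ∉ I) (hI : 4 ≤ I.card)
    (hg : IsChart v g i₀ I) (W : I → ℕ) (hW : ∀ i, (W i).Coprime ℓ) (hcop : (∑ i, W i).Coprime ℓ)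
    (harr : IsArrangement fun i : I => linePoly v g i)
    (K F : Type) [Field K] [Algebra ℚ K] [IsCyclotomicExtension {ℓ} ℚ K] [Field F]
    [Algebra K F] :
    IsArrangement (fun i : I => (linePoly v g i).map (algebraMap ℚ K)) ∧
      ArrangementIndependentW ℓ K F W
        (fun i : I => (linePoly v g i).map (algebraMap ℚ K)) := by
  haveI : Fact ℓ.Prime := ⟨hℓ⟩
  haveI : NeZero ℓ := ⟨hℓ.ne_zero⟩
  haveI : CharZero K := charZero_of_injective_algebraMap (algebraMap ℚ K).injective
  -- the coefficients in the chart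
  set cr : Option I → Fin 3 → K := fun x j => algebraMap ℚ K (lineCoeff v g (opt14 i₀ I x) j)
    with hcr
  set gK : Matrix (Fin 3) (Fin 3) K := fun l j => algebraMap ℚ K (g l j) with hgK
  have hdet : gK.det = algebraMap ℚ K g.det := by
    rw [RingHom.map_det]
    rfl
  have hdet0 : gK.det ≠ 0 := by
    rw [hdet]
    exact (map_ne_zero_iff _ (algebraMap ℚ K).injective).2 hg.det_ne_zero
  have hcrs : ∀ x, cr x = fun j => ∑ l, ((v (opt14 i₀ I x, l) : ℤ) : K) * gK l j := by
    intro x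
    funext j
    rw [hcr, hgK]
    beta_reduce
    unfold lineCoeff
    rw [map_sum]
    refine Finset.sum_congr rfl fun l _ => ?_
    rw [map_mul, map_intCast]
  set B : Option I → Option I → Option I → K := fun x y z =>
    ((pbr14 v (opt14 i₀ I x) (opt14 i₀ I y) (opt14 i₀ I z) : ℤ) : K) with hBdef
  have hB : ∀ x y z, dt14 (cr x) (cr y) (cr z) = gK.det * B x y z := by
    intro x y z
    rw [hcrs x, hcrs y, hcrs z, dt14_mul, hBdef]
    beta_reduce
    congr 1
    unfold dt14 pbr14
    push_cast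
    ring
  have h0 : cr none 0 = 0 := by
    change algebraMap ℚ K (lineCoeff v g i₀ 0) = 0
    rw [hg.at_infinity.1, map_zero]
  have h1 : cr none 1 = 0 := by
    change algebraMap ℚ K (lineCoeff v g i₀ 1) = 0
    rw [hg.at_infinity.2, map_zero]
  -- all the brackets are not zero
  have hpb : ∀ x y z : ι, x ≠ y → y ≠ z → x ≠ z → pbr14 v x y z ≠ 0 := by
    intro x y z hxy hyz hxz h2
    obtain ⟨p, -, -, h3, -⟩ := hp x y z hxy hyz hxz
    apply h3
    rw [h2]
    exact dvd_zero _
  have hs : ∀ x, scl14 cr x ≠ 0 := by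
    rintro (_ | i)
    · change -cr none 2 ≠ 0
      rw [neg_ne_zero]
      intro h2
      -- the line `i₀` would vanish
      obtain ⟨x, hx, y, hy, hxy⟩ := Finset.one_lt_card.1 (show 1 < I.card by omega)
      have h3 := hB none (some ⟨x, hx⟩) (some ⟨y, hy⟩)
      have h4 : dt14 (cr none) (cr (some ⟨x, hx⟩)) (cr (some ⟨y, hy⟩)) = 0 := by
        unfold dt14
        rw [h0, h1, h2]
        ring
      rw [h4] at h3
      have h5 := (mul_eq_zero.1 h3.symm).resolve_left hdet0
      have h6 : pbr14 v i₀ x y = 0 := Int.cast_eq_zero.1 h5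
      exact hpb i₀ x y (fun h => hi₀ (h ▸ hx)) hxy (fun h => hi₀ (h ▸ hy)) h6
    · change algebraMap ℚ K (lineCoeff v g i 0) ≠ 0
      exact (map_ne_zero_iff _ (algebraMap ℚ K).injective).2 (hg.ne_zero i i.2)
  have hlin : (fun i : I => (linePoly v g i).map (algebraMap ℚ K)) = lin14 (aff14 cr) := by
    funext i
    unfold linePoly lin14
    rw [Polynomial.map_add, Polynomial.map_mul, map_C, map_C, map_X]
    have e1 : algebraMap ℚ K (-(lineCoeff v g i 2 / lineCoeff v g i 0)) =
        aff14 cr (Sum.inl i) := by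
      rw [map_neg, map_div₀]
      rfl
    have e2 : algebraMap ℚ K (-(lineCoeff v g i 1 / lineCoeff v g i 0)) =
        aff14 cr (Sum.inr i) := by
      rw [map_neg, map_div₀]
      rfl
    rw [e1, e2]
  -- the arrangement over `K`
  have harrK : IsArrangement (lin14 (aff14 cr)) := by
    rw [← hlin]
    refine ⟨?_, fun i j hij => ?_⟩
    · have h2 := harr.separable
      have h3 : (∏ i : I, ∏ j ∈ Finset.univ.filter fun j => i < j,
          ((linePoly v g i).map (algebraMap ℚ K) - (linePoly v g j).map (algebraMap ℚ K))) =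
          (∏ i : I, ∏ j ∈ Finset.univ.filter fun j => i < j,
            (linePoly v g i - linePoly v g j)).map (algebraMap ℚ K) := by
        rw [Polynomial.map_prod]
        refine Finset.prod_congr rfl fun i _ => ?_
        rw [Polynomial.map_prod]
        refine Finset.prod_congr rfl fun j _ => ?_
        rw [Polynomial.map_sub]
      rw [h3, Polynomial.separable_map]
      exact h2
    · rw [← Polynomial.map_sub, natDegree_map]
      exact harr.natDegree_ne_zero i j hij
  rw [hlin]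
  refine ⟨harrK, (gen_of_isArrangement14 harrK).indepW hℓ
    (by rw [Fintype.card_coe]; exact hI) W hW hcop ?_ F⟩
  intro i j l hij hjl hil
  have hne : ∀ {i j : I}, i ≠ j → (i : ι) ≠ j := fun h h' => h (Subtype.ext h')
  obtain ⟨p, hpp, hd1, hd2, hd3⟩ := hp i j l (hne hij) (hne hjl) (hne hil)
  haveI : Fact p.Prime := ⟨hpp⟩
  refine ⟨normVal14 K p ℓ, hv_chart14 (normVal14 K p ℓ) cr h0 h1 hs gK.det hdet0 B hB
    (r := 1) one_ne_zero ?_ ?_ ?_⟩
  · exact Int.cast_ne_zero.2 (hpb i j l (hne hij) (hne hjl) (hne hil))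
  · rw [hBdef]
    beta_reduce
    rw [normVal14_int hℓ]
    have h5 := (padicValInt_dvd_iff (p := p) 1 (pbr14 v i j l)).1 (by rwa [pow_one])
    have h6 : ¬ 2 ≤ padicValInt p (pbr14 v i j l) := fun h6 =>
      hd2 ((padicValInt_dvd_iff (p := p) 2 _).2 (Or.inr h6))
    have h4 : padicValInt p (pbr14 v i j l) = 1 := by
      rcases h5 with h5 | h5
      · exact absurd h5 (hpb i j l (hne hij) (hne hjl) (hne hil))
      · omega
    have h7 : pbr14 v (opt14 i₀ I (some i)) (opt14 i₀ I (some j)) (opt14 i₀ I (some l)) =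
        pbr14 v i j l := rfl
    rw [h7, h4]
    simp
  · intro x y z hxy hyz hxz hno
    have hinj := opt14_injective hi₀
    have hx' : opt14 i₀ I x ≠ opt14 i₀ I y := fun h => hxy (hinj h)
    have hy' : opt14 i₀ I y ≠ opt14 i₀ I z := fun h => hyz (hinj h)
    have hz' : opt14 i₀ I x ≠ opt14 i₀ I z := fun h => hxz (hinj h)
    have hmem : ∀ w : Option I, opt14 i₀ I w ∈ ({(i : ι), (j : ι), (l : ι)} : Set ι) →
        w ∈ ({some i, some j, some l} : Set (Option I)) := by
      intro w hw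
      simp only [Set.mem_insert_iff, Set.mem_singleton_iff] at hw ⊢
      rcases hw with hw | hw | hw
      · exact Or.inl (hinj hw)
      · exact Or.inr (Or.inl (hinj hw))
      · exact Or.inr (Or.inr (hinj hw))
    refine ⟨?_, ?_⟩
    · exact Int.cast_ne_zero.2 (hpb _ _ _ hx' hy' hz')
    · rw [hBdef]
      beta_reduce
      rw [normVal14_int hℓ, padicValInt.eq_zero_of_not_dvd (hd3 _ _ _ hx' hy' hz'
        fun hh => hno ⟨hmem x hh.1, hmem y hh.2.1, hmem z hh.2.2⟩)]
      simp

end final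

end Pool.Agent.Lib.MP_89bcae_ag

end
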