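import Mathlib
import Pool.Agent.Lib.MP_89bcae_ag.Mk.K008

section

/-!
# Simple collisions of the polynomials `D(g(x))`
-/

open Polynomial

namespace Pool.Agent.Lib.MP_89bcae_ag

/-- The polynomial `D(g(x))` over the local ring `R` has a simple collision: modulo the maximal ideal
`𝔪` of `R`, `D` is `(t - a)² h`, the polynomial `((t - a) h)(g(x))` is separable, and `D(a)` is not
in `𝔪²`. -/
def IsCollision7 {R : Type*} [CommRing R] [IsLocalRing R] (g D : R[X]) : Prop :=
  ∃ (a : R) (h : (IsLocalRing.ResidueField R)[X]),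
    D.map (IsLocalRing.residue R) = (X - C (IsLocalRing.residue R a)) ^ 2 * h ∧
    (((X - C (IsLocalRing.residue R a)) * h).comp (g.map (IsLocalRing.residue R))).Separable ∧
    D.eval a ∉ IsLocalRing.maximalIdeal R ^ 2

/-- `Aut(F/k)` is transitive on the pairs `(b, c)` of roots of `D(g(x))` in `F` with
`g(b) ≠ g(c)`. -/
def IsPairTransitive7 (k F : Type*) [Field k] [Field F] [Algebra k F] (g D : k[X]) : Prop :=
  ∀ b c b' c' : F, aeval b (D.comp g) = 0 → aeval c (D.comp g) = 0 →
    aeval b' (D.comp g) = 0 → aeval c' (D.comp g) = 0 →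
    aeval b g ≠ aeval c g → aeval b' g ≠ aeval c' g → ∃ σ : F ≃ₐ[k] F, σ b = b' ∧ σ c = c'

/-- The graph `e` on `S` is a perfect matching between the fibres of `p` over `α` and `α'`. -/
structure IsMatch7 {V A : Type*} (S : Finset V) (p : V → A) (α α' : A) (e : V → V → ZMod 2) :
    Prop where
  symm : ∀ b ∈ S, ∀ c ∈ S, e b c = e c b
  supp : ∀ b ∈ S, ∀ c ∈ S, p b ≠ p c → e b c ≠ 0 →
    (p b = α ∧ p c = α') ∨ (p b = α' ∧ p c = α)
  left : ∀ b ∈ S, p b = α → ∃ c ∈ S, p c = α' ∧ e b c = 1 ∧ ∀ c' ∈ S, p c' = α' → c' ≠ c →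
    e b c' = 0
  right : ∀ b ∈ S, p b = α' → ∃ c ∈ S, p c = α ∧ e b c = 1 ∧ ∀ c' ∈ S, p c' = α → c' ≠ c →
    e b c' = 0

/-- The graph `e` on `S` is the complete bipartite graph between the fibres of `p` over `α` and
`α'`. -/
structure IsFull7 {V A : Type*} (S : Finset V) (p : V → A) (α α' : A) (e : V → V → ZMod 2) :
    Prop where
  symm : ∀ b ∈ S, ∀ c ∈ S, e b c = e c b
  supp : ∀ b ∈ S, ∀ c ∈ S, p b ≠ p c → e b c ≠ 0 →
    (p b = α ∧ p c = α') ∨ (p b = α' ∧ p c = α)
  full : ∀ b ∈ S, ∀ c ∈ S, p b = α → p c = α' → e b c = 1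

end Pool.Agent.Lib.MP_89bcae_ag

end

section

/-!
# The ramification index is at most the order of the inertia group
-/

open Algebra MulAction

open scoped Pointwise

namespace Pool.Agent.Lib.MP_89bcae_ag

attribute [local instance] Ideal.Quotient.field in
/-- In a finite Galois extension the ramification index is at most the order of the inertia
group. -/
theorem ramificationIdx_le_card_inertia7 {R S G : Type*} [CommRing R] [CommRing S] [Algebra R S]
    [Group G] [MulSemiringAction G S] [IsGaloisGroup G R S] [Finite G] [IsDomain R] [IsDomain S]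
    [Module.Finite R S] [Module.Flat R S] (p : Ideal R) (P : Ideal S) [P.LiesOver p] [p.IsMaximal]
    [P.IsMaximal] : P.ramificationIdx R ≤ Nat.card (P.inertia G) := by
  have hdeg : P.inertiaDeg R = Module.finrank (R ⧸ p) (S ⧸ P) :=
    Ideal.inertiaDeg_eq_of_isMaximal p P
  have hpos : 0 < P.inertiaDeg R := P.inertiaDeg_pos R
  have hfin : FiniteDimensional (R ⧸ p) (S ⧸ P) := by
    apply Module.finite_of_finrank_pos
    rw [← hdeg]
    exact hpos
  have h1 : ((P.inertia G).subgroupOf (stabilizer G P)).index ≤ P.inertiaDeg R := by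
    have h2 : (P.inertia (stabilizer G P)).index = _ := Nat.card_congr
      (Ideal.Quotient.stabilizerQuotientInertiaEquiv G p P).toEquiv
    rw [AddSubgroup.subgroupOf_inertia, h2, hdeg, Nat.card_eq_fintype_card]
    exact AlgEquiv.card_le
  have h3 : Nat.card (stabilizer G P) = Nat.card (P.inertia G) *
      ((P.inertia G).subgroupOf (stabilizer G P)).index := by
    rw [← ((P.inertia G).subgroupOf (stabilizer G P)).card_mul_index,
      Nat.card_congr (Subgroup.subgroupOfEquivOfLe (Ideal.inertia_le_stabilizer (M := G) P)).toEquiv]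
  have h4 : (p.primesOver S).ncard * Nat.card (stabilizer G P) = Nat.card G := by
    rw [← IsInvariant.orbit_eq_primesOver R S G p P]
    simpa using Nat.card_congr (MulAction.orbitProdStabilizerEquivGroup G P)
  have h5 := Ideal.ncard_primesOver_mul_ramificationIdxIn_mul_inertiaDegIn p S G
  rw [Ideal.ramificationIdxIn_eq_ramificationIdx p P G, Ideal.inertiaDegIn_eq_inertiaDeg p P G] at h5
  have h6 : (p.primesOver S).ncard ≠ 0 := by
    intro h
    rw [h, zero_mul] at h4
    exact Nat.card_pos.ne h4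
  have h7 : P.ramificationIdx R * P.inertiaDeg R = Nat.card (stabilizer G P) :=
    Nat.eq_of_mul_eq_mul_left (Nat.pos_of_ne_zero h6) (h5.trans h4.symm)
  rw [h3] at h7
  have h8 : P.ramificationIdx R * P.inertiaDeg R ≤ Nat.card (P.inertia G) * P.inertiaDeg R := by
    rw [h7]
    exact Nat.mul_le_mul_left _ h1
  exact Nat.le_of_mul_le_mul_right h8 hpos

end Pool.Agent.Lib.MP_89bcae_ag

end

section

/-!
# Reduction of the roots of `D(g(x))` and of the Rédei maps modulo a place where `D(g(x))` splits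
-/

open Polynomial

open scoped Classical

namespace Pool.Agent.Lib.MP_89bcae_ag

set_option linter.unusedSectionVars false
set_option linter.style.haveILetI false

section Sep

variable {κ : Type*} [Field κ]

/-- A polynomial with as many roots as its degree is separable. -/
lemma separable_of_card7 {f : κ[X]} (h0 : f ≠ 0) (h : f.roots.toFinset.card = f.natDegree) :
    f.Separable := by
  have h1 : f.roots.card = f.natDegree :=
    le_antisymm (card_roots' f) (h ▸ Multiset.toFinset_card_le _)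
  have h2 : f.roots.Nodup := by
    rw [← Multiset.toFinset_card_eq_card_iff_nodup, h, h1]
  have h3 : f.Splits := splits_iff_card_roots.mpr h1
  exact (nodup_roots_iff_of_splits h0 h3).mp h2

/-- If `D ∘ g` is separable, so is `D`. -/
lemma separable_left7 {g D : κ[X]} (hg : g.natDegree ≠ 0) (h : (D.comp g).Separable) :
    D.Separable := by
  rw [Polynomial.Separable, isCoprime_iff_aeval_ne_zero_of_isAlgClosed (k := κ)
    (AlgebraicClosure κ)]
  intro a
  by_contra hcon
  push Not at hcon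
  obtain ⟨h1, h2⟩ := hcon
  have hdeg : (g.map (algebraMap κ (AlgebraicClosure κ)) - C a).degree ≠ 0 := by
    intro h3
    have h4 := natDegree_eq_zero_iff_degree_le_zero.mpr h3.le
    rw [natDegree_sub_C, natDegree_map] at h4
    exact hg h4
  obtain ⟨b, hb⟩ := IsAlgClosed.exists_root _ hdeg
  have hb2 : aeval b g = a := by
    rw [IsRoot.def, eval_sub, eval_C, sub_eq_zero, eval_map_algebraMap] at hb
    exact hb
  obtain ⟨u, v, huv⟩ := h
  have h3 := congrArg (aeval b) huv
  rw [derivative_comp, map_add, map_mul, map_mul, map_mul, aeval_comp, aeval_comp, hb2, h1, h2] at h3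
  simp at h3

end Sep

variable {R K F κ Fκ : Type*} [CommRing R] [IsDomain R] [IsIntegrallyClosed R] [Field K]
  [Algebra R K] [IsFractionRing R K] [Field F] [Algebra K F] [Algebra R F] [IsScalarTower R K F]
  [IsAlgClosed F] [Algebra.IsAlgebraic K F]
  [Field κ] [Fintype κ] [Field Fκ] [Algebra κ Fκ] [Algebra.IsAlgebraic κ Fκ] [IsAlgClosed Fκ]

/-- `z` is the reduction of `x`. -/
def Red7 (ρ : integralClosure R F →+* Fκ) (x : F) (z : κ) : Prop :=
  ∃ hx : IsIntegral R x, ρ ⟨x, hx⟩ = algebraMap κ Fκ z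

section Red

variable {ρ : integralClosure R F →+* Fκ}

lemma Red7.unique {x : F} {z z' : κ} (h : Red7 ρ x z) (h' : Red7 ρ x z') : z = z' := by
  obtain ⟨hx, h⟩ := h
  obtain ⟨hx', h'⟩ := h'
  exact (algebraMap κ Fκ).injective (h.symm.trans h')

lemma Red7.mul {x y : F} {z w : κ} (h : Red7 ρ x z) (h' : Red7 ρ y w) :
    Red7 ρ (x * y) (z * w) := by
  obtain ⟨hx, h⟩ := h
  obtain ⟨hy, h'⟩ := h'
  refine ⟨hx.mul hy, ?_⟩
  rw [map_mul, ← h, ← h', ← map_mul]
  rfl

lemma Red7.sub {x y : F} {z w : κ} (h : Red7 ρ x z) (h' : Red7 ρ y w) :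
    Red7 ρ (x - y) (z - w) := by
  obtain ⟨hx, h⟩ := h
  obtain ⟨hy, h'⟩ := h'
  refine ⟨hx.sub hy, ?_⟩
  rw [map_sub, ← h, ← h', ← map_sub]
  rfl

lemma Red7.neg {x : F} {z : κ} (h : Red7 ρ x z) : Red7 ρ (-x) (-z) := by
  obtain ⟨hx, h⟩ := h
  refine ⟨hx.neg, ?_⟩
  rw [map_neg, ← h, ← map_neg]
  rfl

lemma Red7.one : Red7 ρ (1 : F) (1 : κ) := by
  refine ⟨isIntegral_one, ?_⟩
  rw [map_one]
  exact map_one ρ

lemma Red7.prod {ι : Type*} {S : Finset ι} {x : ι → F} {z : ι → κ}
    (h : ∀ i ∈ S, Red7 ρ (x i) (z i)) : Red7 ρ (∏ i ∈ S, x i) (∏ i ∈ S, z i) := by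
  classical
  induction S using Finset.induction_on with
  | empty => simpa using Red7.one
  | insert i S hi ih =>
    rw [Finset.prod_insert hi, Finset.prod_insert hi]
    exact (h i (Finset.mem_insert_self _ _)).mul
      (ih fun j hj => h j (Finset.mem_insert_of_mem hj))

lemma Red7.eval {π : R →+* κ}
    (hρ : ∀ r, ρ (algebraMap R (integralClosure R F) r) = algebraMap κ Fκ (π r)) {x : F} {z : κ}
    (h : Red7 ρ x z) (p : R[X]) :
    Red7 ρ ((p.map (algebraMap R F)).eval x) ((p.map π).eval z) := by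
  obtain ⟨hx, h⟩ := h
  have h1 : ((aeval (⟨x, hx⟩ : integralClosure R F) p : integralClosure R F) : F) =
      (p.map (algebraMap R F)).eval x := by
    rw [eval_map_algebraMap, ← Subalgebra.coe_val, ← aeval_algHom_apply]
    rfl
  have h3 : IsIntegral R ((p.map (algebraMap R F)).eval x) := by
    rw [← h1]
    exact (aeval (⟨x, hx⟩ : integralClosure R F) p).2
  refine ⟨h3, ?_⟩
  have h4 : (⟨(p.map (algebraMap R F)).eval x, h3⟩ : integralClosure R F) =
      aeval (⟨x, hx⟩ : integralClosure R F) p := Subtype.ext h1.symm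
  rw [h4, aeval_def, hom_eval₂]
  have h5 : ρ.comp (algebraMap R (integralClosure R F)) = (algebraMap κ Fκ).comp π :=
    RingHom.ext hρ
  rw [h5, h, ← hom_eval₂, eval_map]

/-- The reduction is injective on the roots of a polynomial with separable reduction. -/
lemma red_inj7 {π : R →+* κ}
    (hρ : ∀ r, ρ (algebraMap R (integralClosure R F) r) = algebraMap κ Fκ (π r)) {f : R[X]}
    (hs : (f.map π).Separable) {x y : F} (hx : IsIntegral R x) (hy : IsIntegral R y)
    (hfx : (f.map (algebraMap R F)).eval x = 0) (hfy : (f.map (algebraMap R F)).eval y = 0)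
    (h : ρ ⟨x, hx⟩ = ρ ⟨y, hy⟩) : x = y := by
  by_contra hne
  have hev : ∀ (z : F) (hz : IsIntegral R z), (f.map (algebraMap R F)).eval z = 0 →
      (f.map (algebraMap R (integralClosure R F))).eval (⟨z, hz⟩ : integralClosure R F) = 0 := by
    intro z hz h0
    rw [eval_map_algebraMap]
    apply Subtype.ext
    have h2 : ((aeval (⟨z, hz⟩ : integralClosure R F) f : integralClosure R F) : F) = aeval z f := by
      rw [← Subalgebra.coe_val, ← aeval_algHom_apply]
      rfl
    rw [h2, ← eval_map_algebraMap, h0]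
    rfl
  obtain ⟨q, hq⟩ := dvd_iff_isRoot.mpr (hev x hx hfx)
  have h1 := hev y hy hfy
  rw [hq, eval_mul, eval_sub, eval_X, eval_C] at h1
  have h2 : (⟨y, hy⟩ : integralClosure R F) - ⟨x, hx⟩ ≠ 0 := by
    intro h0
    exact hne (congrArg Subtype.val (sub_eq_zero.mp h0)).symm
  have h3 : q.IsRoot ⟨y, hy⟩ := (mul_eq_zero.mp h1).resolve_left h2
  obtain ⟨q', hq'⟩ := dvd_iff_isRoot.mpr h3
  have h4 : (f.map π).map (algebraMap κ Fκ) =
      (X - C (ρ ⟨x, hx⟩)) * ((X - C (ρ ⟨x, hx⟩)) * q'.map ρ) := by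
    have h5 := congrArg (Polynomial.map ρ) hq
    rw [hq', Polynomial.map_map, Polynomial.map_mul, Polynomial.map_mul, Polynomial.map_sub,
      Polynomial.map_sub, map_X, map_C, map_C] at h5
    have h6 : ρ.comp (algebraMap R (integralClosure R F)) = (algebraMap κ Fκ).comp π :=
      RingHom.ext hρ
    rw [Polynomial.map_map, ← h6, h5, h]
  have h5 := (separable_map (algebraMap κ Fκ)).mpr hs
  rw [h4] at h5
  have h6 : (X - C (ρ ⟨x, hx⟩)) * (X - C (ρ ⟨x, hx⟩)) ∣
      (X - C (ρ ⟨x, hx⟩)) * ((X - C (ρ ⟨x, hx⟩)) * q'.map ρ) := by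
    rw [← mul_assoc]
    exact Dvd.intro _ rfl
  exact not_isUnit_X_sub_C _ (h5.squarefree _ h6)

end Red

end Pool.Agent.Lib.MP_89bcae_ag

end

section

/-!
# Cycles on a fibre of `g` at a place where the leading coefficient has a simple zero
-/

open Polynomial WithZero

open scoped Classical Pointwise

set_option linter.unusedSimpArgs false
set_option linter.unusedVariables false
set_option linter.unusedSectionVars false
set_option linter.style.haveILetI false

namespace Pool.Agent.Lib.MP_89bcae_ag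

section Aux

variable {K κ : Type*} [Field K] [Field κ] {v : Valuation K ℤᵐ⁰} {q : v.integer →+* κ}

/-- Distinct roots of a polynomial with separable reduction have distinct reductions. -/
lemma inj_red8 {O κ : Type*} [CommRing O] [IsDomain O] [Field κ] (q : O →+* κ) {G : O[X]}
    (hs : (G.map q).Separable) {x y : O} (hx : G.eval x = 0) (hy : G.eval y = 0)
    (hxy : q x = q y) : x = y := by
  by_contra hne
  obtain ⟨H, hH⟩ := dvd_iff_isRoot.mpr hx
  rw [hH, eval_mul, eval_sub, eval_X, eval_C] at hy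
  have h1 : H.IsRoot y := (mul_eq_zero.mp hy).resolve_left fun h => hne (sub_eq_zero.mp h).symm
  obtain ⟨H', hH'⟩ := dvd_iff_isRoot.mpr h1
  have h2 : G.map q = (X - C (q x)) * ((X - C (q x)) * H'.map q) := by
    conv_lhs => rw [hH, hH']
    rw [Polynomial.map_mul, Polynomial.map_mul, Polynomial.map_sub, Polynomial.map_sub, map_X,
      map_C, map_C, hxy]
  rw [h2] at hs
  have h3 : (X - C (q x)) * (X - C (q x)) ∣ (X - C (q x)) * ((X - C (q x)) * H'.map q) := by
    rw [← mul_assoc]
    exact Dvd.intro _ rfl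
  exact not_isUnit_X_sub_C _ (hs.squarefree _ h3)

/-- The factorisation of a polynomial over the valuation ring whose leading coefficient is not a
unit: there is exactly one root which is not integral. -/
theorem exists_pole8 (hq : ∀ x : v.integer, q x = 0 ↔ v x < 1) {D : v.integer[X]} {A : Finset K}
    {a : K} (hD : D.map v.integer.subtype = C a * ∏ α ∈ A, (X - C α)) {n : ℕ} (hn : A.card = n + 1)
    (hdeg : (D.map q).natDegree = n) (hlc : q (D.coeff n) ≠ 0) :
    ∃ α₀ ∈ A, 1 < v α₀ ∧ v (a * α₀) = 1 ∧ ∀ α ∈ A, α ≠ α₀ → v α ≤ 1 := by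
  have hq1 : ∀ x : v.integer, q x ≠ 0 ↔ v x = 1 := fun x => by
    rw [Ne, hq, not_lt]
    exact ⟨fun h => le_antisymm x.2 h, fun h => h.ge⟩
  obtain ⟨A', hA'⟩ : ∃ A', A' = A.filter fun α => v α ≤ 1 := ⟨_, rfl⟩
  obtain ⟨J, hJ⟩ : ∃ J, J = A.filter fun α => ¬ v α ≤ 1 := ⟨_, rfl⟩
  obtain ⟨β, hβ⟩ : ∃ β : K → v.integer, ∀ x (hx : v x ≤ 1), β x = ⟨x, hx⟩ :=
    ⟨fun x => if hx : v x ≤ 1 then ⟨x, hx⟩ else 0, fun x hx => dif_pos hx⟩
  have hβs : ∀ x, v x ≤ 1 → v.integer.subtype (β x) = x := fun x hx => by rw [hβ x hx]; rfl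
  have hJ1 : ∀ α ∈ J, 1 < v α ∧ α ≠ 0 ∧ v α⁻¹ < 1 := by
    intro α hα
    rw [hJ, Finset.mem_filter, not_le] at hα
    have h1 : α ≠ 0 := by
      rintro rfl
      rw [map_zero] at hα
      exact absurd hα.2 (not_lt.mpr zero_le_one)
    refine ⟨hα.2, h1, ?_⟩
    rw [map_inv₀]
    exact inv_lt_one_of_one_lt₀ hα.2
  obtain ⟨Q, hQ⟩ : ∃ Q : v.integer[X],
    Q = (∏ α ∈ A', (X - C (β α))) * ∏ α ∈ J, (1 - C (β α⁻¹) * X) := ⟨_, rfl⟩
  obtain ⟨c, hc⟩ : ∃ c : K, c = a * ∏ α ∈ J, (-α) := ⟨_, rfl⟩
  have hDQ : D.map v.integer.subtype = C c * Q.map v.integer.subtype := by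
    have h1 : ∏ α ∈ A, (X - C α : K[X]) = (∏ α ∈ A', (X - C α)) * ∏ α ∈ J, (X - C α) := by
      rw [hA', hJ, Finset.prod_filter_mul_prod_filter_not]
    have h2 : Q.map v.integer.subtype = (∏ α ∈ A', (X - C α)) * ∏ α ∈ J, (1 - C α⁻¹ * X) := by
      rw [hQ, Polynomial.map_mul, Polynomial.map_prod, Polynomial.map_prod]
      congr 1
      · refine Finset.prod_congr rfl fun α hα => ?_
        rw [hA', Finset.mem_filter] at hα
        rw [Polynomial.map_sub, map_X, map_C, hβs α hα.2]
      · refine Finset.prod_congr rfl fun α hα => ?_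
        rw [Polynomial.map_sub, Polynomial.map_one, Polynomial.map_mul, map_X, map_C,
          hβs _ (hJ1 α hα).2.2.le]
    have h3 : ∏ α ∈ J, (X - C α : K[X]) = C (∏ α ∈ J, (-α)) * ∏ α ∈ J, (1 - C α⁻¹ * X) := by
      rw [map_prod, ← Finset.prod_mul_distrib]
      refine Finset.prod_congr rfl fun α hα => ?_
      have h4 : C α * C α⁻¹ = (1 : K[X]) := by
        rw [← C_mul, mul_inv_cancel₀ (hJ1 α hα).2.1, C_1]
      rw [C_neg]
      linear_combination (-X) * h4
    rw [hD, h1, h2, h3, hc, C_mul]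
    ring
  have hQq : Q.map q = ∏ α ∈ A', (X - C (q (β α))) := by
    rw [hQ, Polynomial.map_mul, Polynomial.map_prod, Polynomial.map_prod]
    have h1 : ∏ α ∈ J, (1 - C (β α⁻¹) * X : v.integer[X]).map q = 1 := by
      refine Finset.prod_eq_one fun α hα => ?_
      have h2 : q (β α⁻¹) = 0 := by
        rw [hq, hβ _ (hJ1 α hα).2.2.le]
        exact (hJ1 α hα).2.2
      rw [Polynomial.map_sub, Polynomial.map_one, Polynomial.map_mul, map_X, map_C, h2, C_0,
        zero_mul, sub_zero]
    rw [h1, mul_one]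
    refine Finset.prod_congr rfl fun α _ => ?_
    rw [Polynomial.map_sub, map_X, map_C]
  have hQmon : (Q.map q).Monic := by
    rw [hQq]
    exact monic_prod_X_sub_C _ _
  have hQdeg : (Q.map q).natDegree = A'.card := by
    rw [hQq, natDegree_prod_of_monic _ _ fun α _ => monic_X_sub_C _]
    simp
  have hcoef : ∀ i, ((D.coeff i : v.integer) : K) = c * ((Q.coeff i : v.integer) : K) := by
    intro i
    have h1 := congrArg (fun p => coeff p i) hDQ
    simp only [coeff_map, coeff_C_mul] at h1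
    exact h1
  have hc1 : v c ≤ 1 := by
    have h1 : v ((Q.coeff A'.card : v.integer) : K) = 1 := by
      rw [← hq1]
      have h2 : (Q.map q).coeff A'.card = 1 := by
        rw [← hQdeg]
        exact hQmon
      rw [coeff_map] at h2
      rw [h2]
      exact one_ne_zero
    have h3 := congrArg v (hcoef A'.card)
    rw [map_mul, h1, mul_one] at h3
    rw [← h3]
    exact (D.coeff A'.card).2
  have hc2 : 1 ≤ v c := by
    have h1 : v ((D.coeff n : v.integer) : K) = 1 := (hq1 _).mp hlc
    have h3 := congrArg v (hcoef n)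
    rw [map_mul, h1] at h3
    rw [h3]
    exact mul_le_of_le_one_right' (Q.coeff n).2
  have hc3 : v c = 1 := le_antisymm hc1 hc2
  have hDO : D = C (⟨c, hc1⟩ : v.integer) * Q := by
    apply Polynomial.map_injective v.integer.subtype Subtype.val_injective
    rw [hDQ, Polynomial.map_mul, map_C]
    rfl
  have hcq : q ⟨c, hc1⟩ ≠ 0 := (hq1 _).mpr hc3
  have hcard : A'.card = n := by
    rw [← hdeg, hDO, Polynomial.map_mul, map_C, natDegree_C_mul hcq, hQdeg]
  have hJcard : J.card = 1 := by
    have h1 : A'.card + J.card = A.card := by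
      rw [hA', hJ]
      exact Finset.card_filter_add_card_filter_not _
    omega
  obtain ⟨α₀, hα₀⟩ := Finset.card_eq_one.mp hJcard
  have hm : α₀ ∈ J := by rw [hα₀]; exact Finset.mem_singleton_self _
  refine ⟨α₀, ?_, (hJ1 α₀ hm).1, ?_, fun α hα hne => ?_⟩
  · rw [hJ, Finset.mem_filter] at hm
    exact hm.1
  · rw [hc, hα₀, Finset.prod_singleton, mul_neg, Valuation.map_neg] at hc3
    exact hc3
  · by_contra hcon
    have h1 : α ∈ J := by
      rw [hJ, Finset.mem_filter]
      exact ⟨hα, hcon⟩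
    rw [hα₀, Finset.mem_singleton] at h1
    exact hne h1

/-- The value of a polynomial over the valuation ring at an element outside of it. -/
lemma val_eval8 (h : v.integer[X]) {d : ℕ} (hd : h.natDegree ≤ d)
    (hc : v ((h.coeff d : v.integer) : K) = 1) {x : K} (hx : 1 < v x) :
    v ((h.map v.integer.subtype).eval x) = v x ^ d := by
  have hx0 : v x ≠ 0 := (zero_lt_one.trans hx).ne'
  rw [eval_map, eval₂_eq_sum_range' v.integer.subtype (Nat.lt_succ_of_le hd), Finset.sum_range_succ]
  have h1 : v (v.integer.subtype (h.coeff d) * x ^ d) = v x ^ d := by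
    rw [map_mul, map_pow]
    have h2 : v (v.integer.subtype (h.coeff d)) = 1 := hc
    rw [h2, one_mul]
  have h3 : v (∑ i ∈ Finset.range d, v.integer.subtype (h.coeff i) * x ^ i) <
      v (v.integer.subtype (h.coeff d) * x ^ d) := by
    rw [h1]
    apply Valuation.map_sum_lt v (pow_ne_zero d hx0)
    intro i hi
    rw [Finset.mem_range] at hi
    rw [map_mul, map_pow]
    have h4 : v (v.integer.subtype (h.coeff i)) ≤ 1 := (h.coeff i).2
    calc v (v.integer.subtype (h.coeff i)) * v x ^ i ≤ v x ^ i := mul_le_of_le_one_left' h4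
      _ < v x ^ d := pow_lt_pow_right₀ hx hi
  rw [add_comm, Valuation.map_add_eq_of_lt_left _ h3, h1]

/-- The differences of the elements of the fibre over the pole. -/
lemma val_sub8 {g : v.integer[X]} (hg : g.Monic) {m : ℕ} (hm : g.natDegree = m)
    (hm1 : v (m : K) = 1) {α₀ : K} (hα₀ : 1 < v α₀) {T : Finset K}
    (hT : g.map v.integer.subtype - C α₀ = ∏ b ∈ T, (X - C b)) {x : K} (hx : x ∈ T) {y : K}
    (hy : y ∈ T) (hxy : x ≠ y) : v (x - y) = v x := by
  have hm0 : m ≠ 0 := by
    rintro rfl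
    rw [Nat.cast_zero, map_zero] at hm1
    exact zero_ne_one hm1
  have hTcard : T.card = m := by
    have h1 := congrArg natDegree hT
    rw [natDegree_sub_C, hg.natDegree_map, hm, natDegree_prod_of_monic _ _
      fun α _ => monic_X_sub_C _] at h1
    simpa using h1.symm
  have hTeval : ∀ z ∈ T, (g.map v.integer.subtype).eval z = α₀ := by
    intro z hz
    have h1 := congrArg (eval z) hT
    rw [eval_sub, eval_C, eval_prod, Finset.prod_eq_zero hz (by simp), sub_eq_zero] at h1
    exact h1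
  have hint : ∀ z : K, v z ≤ 1 → v ((g.map v.integer.subtype).eval z) ≤ 1 := by
    intro z hz
    have h1 : (g.map v.integer.subtype).eval z = v.integer.subtype (g.eval ⟨z, hz⟩) := by
      rw [eval_map, ← eval₂_at_apply]
      rfl
    rw [h1]
    exact (g.eval ⟨z, hz⟩).2
  have hTv : ∀ z ∈ T, 1 < v z := by
    intro z hz
    by_contra hcon
    rw [not_lt] at hcon
    have h1 := hint z hcon
    rw [hTeval z hz] at h1
    exact absurd hα₀ (not_lt.mpr h1)
  have hTpow : ∀ z ∈ T, v z ^ m = v α₀ := by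
    intro z hz
    rw [← hTeval z hz]
    refine (val_eval8 g hm.le ?_ (hTv z hz)).symm
    have h1 : g.coeff m = 1 := by rw [← hm]; exact hg
    rw [h1]
    exact map_one v
  have hTeq : ∀ z ∈ T, v z = v x := by
    intro z hz
    exact (pow_left_inj₀ zero_le zero_le hm0).mp ((hTpow z hz).trans (hTpow x hx).symm)
  have hx0 : v x ≠ 0 := (zero_lt_one.trans (hTv x hx)).ne'
  -- the derivative
  have hder : (derivative (g.map v.integer.subtype)).eval x = ∏ z ∈ T.erase x, (x - z) := by
    have h1 := congrArg derivative hT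
    rw [derivative_sub, derivative_C, sub_zero, ← Finset.mul_prod_erase T _ hx, derivative_mul,
      derivative_sub, derivative_X, derivative_C, sub_zero, one_mul] at h1
    rw [h1, eval_add, eval_mul, eval_sub, eval_X, eval_C, sub_self, zero_mul, add_zero, eval_prod]
    simp
  have hval : v (∏ z ∈ T.erase x, (x - z)) = v x ^ (m - 1) := by
    rw [← hder, derivative_map]
    refine val_eval8 (derivative g) ?_ ?_ (hTv x hx)
    · have h1 := natDegree_derivative_le g
      omega
    · rw [coeff_derivative]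
      have h1 : g.coeff (m - 1 + 1) = 1 := by
        rw [Nat.sub_add_cancel (Nat.pos_of_ne_zero hm0), ← hm]
        exact hg
      have h2 : ((m - 1 : ℕ) : v.integer) + 1 = (m : v.integer) := by
        rw [← Nat.cast_succ]
        congr 1
        omega
      rw [h1, one_mul, h2]
      exact hm1
  have hle : ∀ z ∈ T.erase x, v ((x - z) / x) ≤ 1 := by
    intro z hz
    rw [Finset.mem_erase] at hz
    rw [map_div₀]
    apply div_le_one_of_le₀
    · refine (v.map_sub x z).trans (max_le le_rfl (hTeq z hz.2).le)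
    · exact zero_le
  have hprod : ∏ z ∈ T.erase x, v ((x - z) / x) = 1 := by
    have h1 : ∏ z ∈ T.erase x, v ((x - z) / x) = v (∏ z ∈ T.erase x, (x - z)) / v x ^ (m - 1) := by
      rw [map_prod]
      simp only [map_div₀]
      rw [Finset.prod_div_distrib, Finset.prod_const, Finset.card_erase_of_mem hx, hTcard]
    rw [h1, hval, div_self (pow_ne_zero _ hx0)]
  have hall := (Finset.prod_eq_one_iff_of_le_one' hle).mp hprod y
    (Finset.mem_erase.mpr ⟨hxy.symm, hy⟩)
  rw [map_div₀, div_eq_one_iff_eq hx0] at hall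
  exact hall

/-- **The inertia group is transitive on the fibre over the pole.** -/
theorem exists_cycle_aux8 {k : Type*} [Field k] [Algebra k K]
    (hq : ∀ x : v.integer, q x = 0 ↔ v x < 1) (I : Subgroup (K ≃ₐ[k] K)) [Finite I]
    (hI1 : ∀ σ ∈ I, ∀ x, v (σ x) = v x) (hI2 : ∀ σ ∈ I, ∀ x, v x ≤ 1 → v (σ x - x) < 1)
    {e : ℕ} (he0 : 0 < e) (he : e ≤ Nat.card I) {g D : v.integer[X]} (hg : g.Monic)
    (hgm : v (g.natDegree : K) = 1) {S A : Finset K} {a : K} (ha : v a = exp (-(e : ℤ)))
    (hD : D.map v.integer.subtype = C a * ∏ α ∈ A, (X - C α)) {n : ℕ} (hn : A.card = n + 1)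
    (hdeg : (D.map q).natDegree = n) (hlc : q (D.coeff n) ≠ 0)
    (hgS : ∀ α ∈ A, g.map v.integer.subtype - C α =
      ∏ b ∈ S.filter (fun b => (g.map v.integer.subtype).eval b = α), (X - C b))
    (hsep : ((D.comp g).map q).Separable)
    (hgσ : ∀ σ ∈ I, ∀ x, (g.map v.integer.subtype).eval (σ x) =
      σ ((g.map v.integer.subtype).eval x))
    (hDσ : ∀ σ ∈ I, ∀ x, (D.map v.integer.subtype).eval (σ x) =
      σ ((D.map v.integer.subtype).eval x))
    (hgen : ∀ σ ∈ I, (∀ b ∈ S, σ b = b) → σ = 1)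
    (hSA : ∀ b ∈ S, (g.map v.integer.subtype).eval b ∈ A) :
    ∃ α₀ ∈ A, ∀ x ∈ S, ∀ y ∈ S, (g.map v.integer.subtype).eval x = α₀ →
      (g.map v.integer.subtype).eval y = α₀ → ∃ σ ∈ I, σ x = y ∧
        ∀ b ∈ S, (g.map v.integer.subtype).eval b ≠ α₀ → σ b = b := by
  obtain ⟨α₀, hα₀A, hα₀1, haα₀, hα₀u⟩ := exists_pole8 hq hD hn hdeg hlc
  obtain ⟨m, hm⟩ : ∃ m, g.natDegree = m := ⟨_, rfl⟩
  rw [hm] at hgm
  have hm0 : m ≠ 0 := by
    rintro rfl
    rw [Nat.cast_zero, map_zero] at hgm
    exact zero_ne_one hgm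
  set gK := g.map v.integer.subtype with hgK
  obtain ⟨T, hT⟩ : ∃ T, T = S.filter fun b => gK.eval b = α₀ := ⟨_, rfl⟩
  have hTmem : ∀ b, b ∈ T ↔ gK.eval b = α₀ := by
    intro b
    rw [hT, Finset.mem_filter]
    constructor
    · exact fun h => h.2
    · intro h
      refine ⟨?_, h⟩
      have h1 := congrArg (eval b) (hgS α₀ hα₀A)
      rw [eval_sub, eval_C, h, sub_self, eval_prod, eq_comm, Finset.prod_eq_zero_iff] at h1
      obtain ⟨b', hb', h2⟩ := h1
      rw [eval_sub, eval_X, eval_C, sub_eq_zero] at h2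
      rw [h2]
      exact (Finset.mem_filter.mp hb').1
  have hTprod : gK - C α₀ = ∏ b ∈ T, (X - C b) := by rw [hT]; exact hgS α₀ hα₀A
  have hTcard : T.card = m := by
    have h1 := congrArg natDegree hTprod
    rw [natDegree_sub_C, hg.natDegree_map, hm, natDegree_prod_of_monic _ _
      fun α _ => monic_X_sub_C _] at h1
    simpa using h1.symm
  have hTsub := fun {x : K} (hx : x ∈ T) {y : K} (hy : y ∈ T) (hxy : x ≠ y) =>
    val_sub8 hg hm hgm hα₀1 hTprod hx hy hxy
  have hev : ∀ (p : v.integer[X]) (z : K) (hz : v z ≤ 1),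
      (p.map v.integer.subtype).eval z = ((p.eval ⟨z, hz⟩ : v.integer) : K) := by
    intro p z hz
    have h1 : (p.map v.integer.subtype).eval z = v.integer.subtype (p.eval ⟨z, hz⟩) := by
      rw [eval_map, ← eval₂_at_apply]
      rfl
    exact h1
  have hTv : ∀ z ∈ T, 1 < v z := by
    intro z hz
    by_contra hcon
    rw [not_lt] at hcon
    have h1 := (g.eval ⟨z, hcon⟩).2
    have h2 : v (gK.eval z) ≤ 1 := by
      rw [hev g z hcon]
      exact h1
    rw [(hTmem z).mp hz] at h2
    exact absurd hα₀1 (not_lt.mpr h2)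
  have hgcoeff : v ((g.coeff m : v.integer) : K) = 1 := by
    have h1 : g.coeff m = 1 := by rw [← hm]; exact hg
    rw [h1]
    exact map_one v
  have hTpow : ∀ z ∈ T, v z ^ m = v α₀ := by
    intro z hz
    rw [← (hTmem z).mp hz]
    exact (val_eval8 g hm.le hgcoeff (hTv z hz)).symm
  -- the roots in the other fibres
  have hother : ∀ b ∈ S, gK.eval b ≠ α₀ → v b ≤ 1 := by
    intro b hb hne
    by_contra hcon
    rw [not_le] at hcon
    have h1 : v (gK.eval b) = v b ^ m := val_eval8 g hm.le hgcoeff hcon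
    have h2 := hα₀u _ (hSA b hb) hne
    rw [h1] at h2
    exact absurd (one_lt_pow₀ hcon hm0) (not_lt.mpr h2)
  have hAev : ∀ α ∈ A, (D.map v.integer.subtype).eval α = 0 := by
    intro α hα
    rw [hD, eval_mul, eval_prod, Finset.prod_eq_zero hα (by simp), mul_zero]
  have hA0 : a ≠ 0 := by
    intro h0
    rw [h0, map_zero] at ha
    exact exp_ne_zero ha.symm
  have hAmem : ∀ α, (D.map v.integer.subtype).eval α = 0 → α ∈ A := by
    intro α hα
    rw [hD, eval_mul, eval_C, eval_prod, mul_eq_zero, Finset.prod_eq_zero_iff] at hα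
    rcases hα with hα | ⟨α', h1, h2⟩
    · exact absurd hα hA0
    · rw [eval_sub, eval_X, eval_C, sub_eq_zero] at h2
      rw [h2]
      exact h1
  have hσA : ∀ σ ∈ I, ∀ α ∈ A, σ α ∈ A := by
    intro σ hσ α hα
    apply hAmem
    rw [hDσ σ hσ, hAev α hα, map_zero]
  have hσα₀ : ∀ σ ∈ I, σ α₀ = α₀ := by
    intro σ hσ
    by_contra hne
    have h1 := hα₀u _ (hσA σ hσ α₀ hα₀A) hne
    rw [hI1 σ hσ] at h1
    exact absurd hα₀1 (not_lt.mpr h1)
  have hσT : ∀ σ ∈ I, ∀ x ∈ T, σ x ∈ T := by
    intro σ hσ x hx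
    rw [hTmem, hgσ σ hσ, (hTmem x).mp hx, hσα₀ σ hσ]
  have hfix : ∀ σ ∈ I, ∀ b ∈ S, gK.eval b ≠ α₀ → σ b = b := by
    intro σ hσ b hb hne
    have h1 := hother b hb hne
    have h2 : v (σ b) ≤ 1 := by rw [hI1 σ hσ]; exact h1
    have hroot : ∀ (z : K) (hz : v z ≤ 1), gK.eval z ∈ A →
        (D.comp g).eval (⟨z, hz⟩ : v.integer) = 0 := by
      intro z hz hzA
      have h3 := hev (D.comp g) z hz
      rw [Polynomial.map_comp, eval_comp, hAev _ hzA] at h3
      exact Subtype.ext h3.symm
    have h4 : gK.eval (σ b) ∈ A := by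
      rw [hgσ σ hσ]
      exact hσA σ hσ _ (hSA b hb)
    have h5 := inj_red8 q hsep (hroot (σ b) h2 h4) (hroot b h1 (hSA b hb)) (by
      rw [← sub_eq_zero, ← map_sub, hq]
      exact hI2 σ hσ b h1)
    exact congrArg Subtype.val h5
  have hone : ∀ σ ∈ I, ∀ x ∈ T, σ x = x → σ = 1 := by
    intro σ hσ x hx hσx
    apply hgen σ hσ
    intro b hb
    by_cases hbα : gK.eval b = α₀
    · have hbT : b ∈ T := (hTmem b).mpr hbα
      by_contra hne
      have hx0 : x ≠ 0 := by
        rintro rfl
        have h1 := hTv 0 hx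
        rw [map_zero] at h1
        exact absurd h1 (not_lt.mpr zero_le_one)
      have hvx0 : v x ≠ 0 := (Valuation.ne_zero_iff v).mpr hx0
      have hvb : v b = v x :=
        (pow_left_inj₀ zero_le zero_le hm0).mp ((hTpow b hbT).trans (hTpow x hx).symm)
      have h1 : v (b / x) ≤ 1 := by rw [map_div₀, hvb, div_self hvx0]
      have h2 := hI2 σ hσ (b / x) h1
      rw [map_div₀, hσx, ← sub_div, map_div₀, div_lt_one₀ (zero_lt_iff.mpr hvx0)] at h2
      have h3 := hTsub (hσT σ hσ b hbT) hbT hne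
      have h4 : v (σ b) = v x := (hI1 σ hσ b).trans hvb
      rw [h3, h4] at h2
      exact lt_irrefl _ h2
    · exact hfix σ hσ b hb hbα
  -- the count
  obtain ⟨x₀, hx₀⟩ : T.Nonempty := by
    rw [← Finset.card_pos, hTcard]
    exact Nat.pos_of_ne_zero hm0
  have hme : m ≤ e := by
    have h1 := hTpow x₀ hx₀
    rw [map_mul, ha] at haα₀
    have h2 : v α₀ = exp (e : ℤ) := by
      have h3 : exp (-(e : ℤ)) * exp (e : ℤ) = 1 := by
        rw [← exp_add, neg_add_cancel, exp_zero]
      rw [← h3] at haα₀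
      exact mul_left_cancel₀ exp_ne_zero haα₀
    rw [h2] at h1
    have hv0 : v x₀ ≠ 0 := (zero_lt_one.trans (hTv x₀ hx₀)).ne'
    rw [← exp_log hv0, ← exp_nsmul, exp_inj] at h1
    have h4 : (m : ℤ) ∣ e := ⟨log (v x₀), by rw [← h1, nsmul_eq_mul]⟩
    exact Nat.le_of_dvd he0 (Int.natCast_dvd_natCast.mp h4)
  have hbij : ∀ (x : K) (hx : x ∈ T), Function.Bijective
      (fun σ : I => (⟨(σ : K ≃ₐ[k] K) x, hσT σ σ.2 x hx⟩ : T)) := by
    intro x hx
    have hinj : Function.Injective
        (fun σ : I => (⟨(σ : K ≃ₐ[k] K) x, hσT σ σ.2 x hx⟩ : T)) := by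
      intro σ τ hστ
      have h3 : (σ : K ≃ₐ[k] K) x = (τ : K ≃ₐ[k] K) x := congrArg Subtype.val hστ
      have h4 : (τ⁻¹ * σ : I) = 1 := by
        apply Subtype.ext
        apply hone _ (τ⁻¹ * σ).2 x hx
        change (τ : K ≃ₐ[k] K).symm ((σ : K ≃ₐ[k] K) x) = x
        rw [h3, AlgEquiv.symm_apply_apply]
      exact (inv_mul_eq_one.mp h4).symm
    refine (Nat.bijective_iff_injective_and_card _).mpr ⟨hinj, ?_⟩
    have h5 := Nat.card_le_card_of_injective _ hinj
    rw [Nat.card_eq_fintype_card (α := T), Fintype.card_coe, hTcard] at h5 ⊢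
    omega
  refine ⟨α₀, hα₀A, fun x hx y hy hxα hyα => ?_⟩
  obtain ⟨σ, hσ⟩ := (hbij x ((hTmem x).mpr hxα)).2 ⟨y, (hTmem y).mpr hyα⟩
  exact ⟨σ, σ.2, congrArg Subtype.val hσ, hfix σ σ.2⟩

end Aux

/-- The residue field of a valuation ring. -/
lemma exists_residue8 {K : Type*} [Field K] (v : Valuation K ℤᵐ⁰) :
    ∃ q : v.integer →+* IsLocalRing.ResidueField v.valuationSubring,
      ∀ x : v.integer, q x = 0 ↔ v x < 1 := by
  let e : v.integer →+* v.valuationSubring :=
    { toFun := fun x => ⟨x, x.2⟩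
      map_one' := rfl
      map_mul' := fun _ _ => rfl
      map_zero' := rfl
      map_add' := fun _ _ => rfl }
  refine ⟨(IsLocalRing.residue v.valuationSubring).comp e, fun x => ?_⟩
  rw [RingHom.comp_apply, IsLocalRing.residue_eq_zero_iff,
    ValuationSubring.valuation_lt_one_iff]
  exact (Valuation.isEquiv_iff_val_lt_one.mp
    (Valuation.isEquiv_valuation_valuationSubring v)).symm

section Main

variable {R k K : Type*} [CommRing R] [IsDomain R] [IsDiscreteValuationRing R] [Field k]
    [Algebra R k] [IsFractionRing R k] [Field K] [Algebra k K] [Algebra R K] [IsScalarTower R k K]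
    [FiniteDimensional k K] [IsGalois k K]

/-- **Cycles on a fibre.** -/
theorem exists_cycle8 {g D : R[X]} (hg : g.Monic)
    (hgm : (g.natDegree : IsLocalRing.ResidueField R) ≠ 0) {n : ℕ} (hn : D.natDegree = n + 1)
    (hlc1 : D.leadingCoeff ∈ IsLocalRing.maximalIdeal R)
    (hlc2 : D.leadingCoeff ∉ IsLocalRing.maximalIdeal R ^ 2)
    (hlc3 : D.coeff n ∉ IsLocalRing.maximalIdeal R)
    (hsep : ((D.map (IsLocalRing.residue R)).comp (g.map (IsLocalRing.residue R))).Separable)
    (S A : Finset K) (hDA : D.map (algebraMap R K) =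
      C (algebraMap R K D.leadingCoeff) * ∏ α ∈ A, (X - C α))
    (hgS : ∀ α ∈ A, g.map (algebraMap R K) - C α =
      ∏ b ∈ S.filter (fun b => (g.map (algebraMap R K)).eval b = α), (X - C b))
    (hSA : ∀ b ∈ S, (g.map (algebraMap R K)).eval b ∈ A)
    (hgen : ∀ σ : K ≃ₐ[k] K, (∀ b ∈ S, σ b = b) → σ = 1) :
    ∃ α₀ ∈ A, ∀ x ∈ S, ∀ y ∈ S, (g.map (algebraMap R K)).eval x = α₀ →
      (g.map (algebraMap R K)).eval y = α₀ → ∃ σ : K ≃ₐ[k] K, σ x = y ∧
        ∀ b ∈ S, (g.map (algebraMap R K)).eval b ≠ α₀ → σ b = b := by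
  -- the integral closure
  set B := integralClosure R K with hB
  haveI : IsDedekindDomain B := integralClosure.isDedekindDomain R k K
  haveI : Module.Finite R B := IsIntegralClosure.finite R k K B
  haveI : IsFractionRing B K := integralClosure.isFractionRing_of_finite_extension k K
  haveI : SMulCommClass (K ≃ₐ[k] K) R K := ⟨fun σ r x => by
    rw [AlgEquiv.smul_def, AlgEquiv.smul_def, Algebra.smul_def, Algebra.smul_def, map_mul,
      IsScalarTower.algebraMap_apply R k K, AlgEquiv.commutes]⟩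
  haveI : IsGaloisGroup (K ≃ₐ[k] K) R B := IsGaloisGroup.of_isFractionRing _ _ _ k K
  have hinjK : Function.Injective (algebraMap R K) := by
    rw [IsScalarTower.algebraMap_eq R k K]
    exact (algebraMap k K).injective.comp (IsFractionRing.injective R k)
  have hinjB : Function.Injective (algebraMap B K) := Subtype.val_injective
  haveI : FaithfulSMul R B := by
    rw [faithfulSMul_iff_algebraMap_injective]
    intro x y hxy
    exact hinjK (congrArg (algebraMap B K) hxy)
  haveI : Module.IsTorsionFree R B := inferInstance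
  haveI : Module.Flat R B := inferInstance
  let v : IsDedekindDomain.HeightOneSpectrum R := IsDiscreteValuationRing.maximalIdeal R
  have hvmax : v.asIdeal.IsMaximal := v.isMaximal
  obtain ⟨P, hPmax, hPv⟩ := Ideal.exists_maximal_ideal_liesOver_of_isIntegral (S := B) v.asIdeal
  have hP0 : P ≠ ⊥ := Ideal.ne_bot_of_liesOver_of_ne_bot v.ne_bot P
  let w : IsDedekindDomain.HeightOneSpectrum B := ⟨P, hPmax.isPrime, hP0⟩
  have hwv : w.asIdeal.LiesOver v.asIdeal := hPv
  -- the ramification index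
  have he : v.asIdeal.ramificationIdx' w.asIdeal ≤ Nat.card (P.inertia (K ≃ₐ[k] K)) := by
    rw [Ideal.ramificationIdx'_eq_ramificationIdx v.asIdeal w.asIdeal v.ne_bot]
    exact ramificationIdx_le_card_inertia7 v.asIdeal P
  set e := v.asIdeal.ramificationIdx' w.asIdeal with hedef
  set W := w.valuation K with hW
  have hWk : ∀ r : R, W (algebraMap R K r) = v.intValuation r ^ e := by
    intro r
    have h1 := IsDedekindDomain.HeightOneSpectrum.valuation_liesOver K v w (algebraMap R k r)
    rw [← IsScalarTower.algebraMap_apply] at h1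
    rw [hW, ← h1]
    congr 1
    exact IsDedekindDomain.HeightOneSpectrum.valuation_of_algebraMap (K := k) v r
  have hvm : ∀ (r : R) (n : ℕ), v.intValuation r ≤ exp (-(n : ℤ)) ↔
      r ∈ IsLocalRing.maximalIdeal R ^ n := fun r n => v.intValuation_le_pow_iff_mem r n
  have hlc0 : D.leadingCoeff ≠ 0 := by
    intro h0
    rw [h0] at hlc2
    exact hlc2 (Ideal.zero_mem _)
  have hvD : v.intValuation D.leadingCoeff = exp (-1 : ℤ) := by
    have h1 := (hvm D.leadingCoeff 1).mpr (by rw [pow_one]; exact hlc1)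
    have h3 : ¬ v.intValuation D.leadingCoeff ≤ exp (-((2 : ℕ) : ℤ)) := fun h4 =>
      hlc2 ((hvm D.leadingCoeff 2).mp h4)
    have h5 : v.intValuation D.leadingCoeff ≠ 0 := v.intValuation_ne_zero _ hlc0
    have h6 := exp_log h5
    rw [← h6] at h1 h3 ⊢
    rw [exp_le_exp] at h1 h3
    rw [exp_inj]
    push_cast at h1 h3
    omega
  have ha : W (algebraMap R K D.leadingCoeff) = exp (-(e : ℤ)) := by
    rw [hWk, hvD, ← exp_nsmul]
    simp
  -- integrality
  have hWB : ∀ x : B, W x ≤ 1 := fun x => w.valuation_le_one x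
  have hWP : ∀ x : B, W x < 1 ↔ x ∈ P := fun x => w.valuation_lt_one_iff_mem x
  have hWR : ∀ r : R, W (algebraMap R K r) ≤ 1 := fun r => hWB (algebraMap R B r)
  have hWm : ∀ r : R, r ∈ IsLocalRing.maximalIdeal R → W (algebraMap R K r) < 1 := by
    intro r hr
    refine (hWP (algebraMap R B r)).mpr ?_
    have h1 : r ∈ Ideal.comap (algebraMap R B) P := by
      rw [← Ideal.under_def, ← hPv.over]
      exact hr
    exact h1
  have he0 : 0 < e := by
    rcases Nat.eq_zero_or_pos e with h0 | h0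
    · have h1 := hWm _ hlc1
      rw [ha, h0] at h1
      exact absurd h1 (by simp)
    · exact h0
  obtain ⟨q, hq⟩ := exists_residue8 W
  let ι : R →+* W.integer := (algebraMap R K).codRestrict W.integer hWR
  have hι : W.integer.subtype.comp ι = algebraMap R K := RingHom.ext fun r => rfl
  have hιmap : ∀ p : R[X], (p.map ι).map W.integer.subtype = p.map (algebraMap R K) := fun p => by
    rw [Polynomial.map_map, hι]
  have hker : ∀ r : R, r ∈ IsLocalRing.maximalIdeal R → q.comp ι r = 0 := by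
    intro r hr
    exact (hq (ι r)).mpr (hWm r hr)
  let ψ : IsLocalRing.ResidueField R →+* IsLocalRing.ResidueField W.valuationSubring :=
    Ideal.Quotient.lift (IsLocalRing.maximalIdeal R) (q.comp ι) hker
  have hψ : ψ.comp (IsLocalRing.residue R) = q.comp ι := RingHom.ext fun r => rfl
  have hψmap : ∀ p : R[X], (p.map ι).map q = (p.map (IsLocalRing.residue R)).map ψ := fun p => by
    rw [Polynomial.map_map, Polynomial.map_map, hψ]
  -- the action of the inertia group
  have hstab : ∀ σ ∈ P.inertia (K ≃ₐ[k] K), σ • P = P := fun σ hσ =>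
    Ideal.inertia_le_stabilizer (M := (K ≃ₐ[k] K)) P hσ
  have hint1 : ∀ σ ∈ P.inertia (K ≃ₐ[k] K), ∀ b : B, w.intValuation (σ • b) ≤ w.intValuation b := by
    intro σ hσ b
    by_cases hb : b = 0
    · rw [hb, smul_zero]
    · have h1 : w.intValuation b ≠ 0 := w.intValuation_ne_zero b hb
      obtain ⟨N, hN⟩ : ∃ N : ℕ, w.intValuation b = exp (-(N : ℤ)) :=
        ⟨_, w.intValuation_if_neg hb⟩
      rw [hN]
      refine (w.intValuation_le_pow_iff_mem (σ • b) N).mpr ?_
      have h2 : b ∈ w.asIdeal ^ N := (w.intValuation_le_pow_iff_mem b N).mp hN.le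
      have h3 : w.asIdeal ^ N = σ • (w.asIdeal ^ N) := by
        rw [smul_pow']
        exact congrArg (· ^ N) (hstab σ hσ).symm
      rw [h3]
      exact Ideal.smul_mem_pointwise_smul σ b _ h2
  have hint2 : ∀ σ ∈ P.inertia (K ≃ₐ[k] K), ∀ b : B, w.intValuation (σ • b) = w.intValuation b := by
    intro σ hσ b
    refine le_antisymm (hint1 σ hσ b) ?_
    have h1 := hint1 σ⁻¹ (inv_mem hσ) (σ • b)
    rwa [inv_smul_smul] at h1
  have hWσB : ∀ σ ∈ P.inertia (K ≃ₐ[k] K), ∀ b : B, W (σ (b : K)) = W (b : K) := by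
    intro σ hσ b
    have h1 : w.valuation K (algebraMap B K (σ • b)) = w.valuation K (algebraMap B K b) := by
      rw [w.valuation_of_algebraMap, w.valuation_of_algebraMap, hint2 σ hσ b]
    exact h1
  have hI1 : ∀ σ ∈ P.inertia (K ≃ₐ[k] K), ∀ x, W (σ x) = W x := by
    intro σ hσ x
    obtain ⟨a, b, hb, rfl⟩ := IsFractionRing.div_surjective (A := B) x
    rw [map_div₀, map_div₀, map_div₀]
    have h1 := hWσB σ hσ a
    have h2 := hWσB σ hσ b
    have h3 : algebraMap B K a = (a : K) := rfl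
    have h4 : algebraMap B K b = (b : K) := rfl
    rw [h3, h4, h1, h2]
  have hI2 : ∀ σ ∈ P.inertia (K ≃ₐ[k] K), ∀ x, W x ≤ 1 → W (σ x - x) < 1 := by
    intro σ hσ x hx
    obtain ⟨a, ⟨d, hd⟩, hxd⟩ := w.exists_primeCompl_mul_eq_of_integer x hx
    have hd1 : W (d : K) = 1 := by
      refine le_antisymm (hWB d) ?_
      rw [← not_lt, hWP]
      exact hd
    have hσd1 : W (σ (d : K)) = 1 := by rw [hI1 σ hσ]; exact hd1
    have hxd' : x * (d : K) = (a : K) := hxd
    have h1 : (σ x - x) * (σ (d : K) * (d : K)) =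
        ((((σ • a - a) * d - a * (σ • d - d) : B)) : K) := by
      have h2 : σ x * σ (d : K) = σ (a : K) := by rw [← map_mul, hxd']
      have h3 : ((((σ • a - a) * d - a * (σ • d - d) : B)) : K) =
        (σ (a : K) - (a : K)) * (d : K) - (a : K) * (σ (d : K) - (d : K)) := rfl
      rw [h3]
      linear_combination (d : K) * h2 - σ (d : K) * hxd'
    have h4 : W ((((σ • a - a) * d - a * (σ • d - d) : B)) : K) < 1 := by
      rw [hWP]
      refine sub_mem (Ideal.mul_mem_right _ _ (hσ a)) (Ideal.mul_mem_left _ _ (hσ d))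
    rw [← h1, map_mul, map_mul, hσd1, hd1, mul_one, mul_one] at h4
    exact h4
  have hσev : ∀ (σ : K ≃ₐ[k] K) (p : R[X]) (x : K), (p.map (algebraMap R K)).eval (σ x) =
      σ ((p.map (algebraMap R K)).eval x) := by
    intro σ p x
    have h1 : (σ : K →+* K).comp (algebraMap R K) = algebraMap R K := by
      ext r
      change σ (algebraMap R K r) = algebraMap R K r
      rw [IsScalarTower.algebraMap_apply R k K]
      exact σ.commutes _
    have h3 := Polynomial.hom_eval₂ p (algebraMap R K) (σ : K →+* K) x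
    rw [h1] at h3
    rw [eval_map, eval_map]
    exact h3.symm
  -- the numerical conditions
  have hgm' : W (((g.map ι).natDegree : ℕ) : K) = 1 := by
    rw [hg.natDegree_map]
    refine le_antisymm (by simpa using hWR (g.natDegree : R)) ?_
    rw [← not_lt]
    intro h1
    apply hgm
    have h2 : q (ι (g.natDegree : R)) = 0 := by
      rw [hq]
      have h3 : ((ι (g.natDegree : R) : W.integer) : K) = (g.natDegree : K) := by
        have h4 : ((ι (g.natDegree : R) : W.integer) : K) = algebraMap R K (g.natDegree : R) := rfl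
        rw [h4, map_natCast]
      rw [h3]
      exact h1
    have h5 : ψ (IsLocalRing.residue R (g.natDegree : R)) = 0 := h2
    rw [map_eq_zero, map_natCast] at h5
    exact h5
  have hcoefn : (D.map (IsLocalRing.residue R)).coeff n ≠ 0 := by
    rw [coeff_map, Ne, IsLocalRing.residue_eq_zero_iff]
    exact hlc3
  have hdegn : (D.map (IsLocalRing.residue R)).natDegree = n := by
    apply natDegree_eq_of_le_of_coeff_ne_zero _ hcoefn
    rw [natDegree_le_iff_coeff_eq_zero]
    intro N hN
    rcases Nat.lt_or_ge (n + 1) N with h1 | h1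
    · rw [coeff_map, coeff_eq_zero_of_natDegree_lt (by omega), map_zero]
    · have h2 : N = n + 1 := by omega
      rw [h2, coeff_map, IsLocalRing.residue_eq_zero_iff, ← hn]
      exact hlc1
  have hAcard : A.card = n + 1 := by
    have h1 := congrArg natDegree hDA
    rw [natDegree_map_eq_of_injective hinjK, hn, natDegree_C_mul
      ((map_ne_zero_iff _ hinjK).mpr hlc0), natDegree_prod_of_monic _ _
      fun α _ => monic_X_sub_C _] at h1
    simpa using h1.symm
  have hfin : Finite (P.inertia (K ≃ₐ[k] K)) := inferInstance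
  obtain ⟨α₀, hα₀, h⟩ := exists_cycle_aux8 (q := q) (k := k) hq (P.inertia (K ≃ₐ[k] K)) hI1 hI2 he0
    he (g := g.map ι) (D := D.map ι) (hg.map _) hgm' (S := S) (A := A) ha
    (by rw [hιmap]; exact hDA) hAcard
    (by rw [hψmap, natDegree_map]; exact hdegn)
    (by
      rw [coeff_map]
      have h2 : q (ι (D.coeff n)) = ψ (IsLocalRing.residue R (D.coeff n)) := rfl
      rw [h2, Ne, map_eq_zero, IsLocalRing.residue_eq_zero_iff]
      exact hlc3)
    (by rw [hιmap]; exact hgS)
    (by
      rw [← Polynomial.map_comp, hψmap, Polynomial.map_comp]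
      exact hsep.map)
    (fun σ _ x => by rw [hιmap]; exact hσev σ g x)
    (fun σ _ x => by rw [hιmap]; exact hσev σ D x)
    (fun σ _ hσ => hgen σ hσ)
    (by rw [hιmap]; exact hSA)
  rw [hιmap] at h
  refine ⟨α₀, hα₀, fun x hx y hy hxα hyα => ?_⟩
  obtain ⟨σ, -, h1, h2⟩ := h x hx y hy hxα hyα
  exact ⟨σ, h1, h2⟩

end Main

end Pool.Agent.Lib.MP_89bcae_ag

end

section

/-!
# The valuation attached to a simple collision
-/

open Polynomial IsDedekindDomain WithZero

open scoped Classical Pointwise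

namespace Pool.Agent.Lib.MP_89bcae_ag

set_option linter.style.haveILetI false
set_option linter.unusedSectionVars false

section Red

/-- Reduction of a product of linear factors. -/
lemma map_prod_red7 {B K : Type*} [CommRing B] [Field K] [Algebra B K]
    (hinj : Function.Injective (algebraMap B K)) {p : B[X]} {c : B}
    {T : Finset K} {β : K → B} (hβ : ∀ b ∈ T, algebraMap B K (β b) = b)
    (h : p.map (algebraMap B K) = C (algebraMap B K c) * ∏ b ∈ T, (X - C b)) :
    p = C c * ∏ b ∈ T, (X - C (β b)) := by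
  apply Polynomial.map_injective _ hinj
  rw [h, Polynomial.map_mul, map_C, Polynomial.map_prod]
  congr 1
  refine Finset.prod_congr rfl fun b hb => ?_
  rw [Polynomial.map_sub, map_X, map_C, hβ b hb]

lemma map_prod_red7' {B ι κ : Type*} [CommRing B] [Field κ] (q : B →+* κ) {c : B} {T : Finset ι}
    {β : ι → B} :
    (C c * ∏ b ∈ T, (X - C (β b))).map q = C (q c) * ∏ b ∈ T, (X - C (q (β b))) := by
  rw [Polynomial.map_mul, map_C, Polynomial.map_prod]
  congr 1
  refine Finset.prod_congr rfl fun b hb => ?_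
  rw [Polynomial.map_sub, map_X, map_C]

variable {κ ι : Type*} [Field κ]

/-- The multiplicity of a root of a product of linear factors. -/
lemma rootMultiplicity_prod7 {c : κ} (hc : c ≠ 0) (T : Finset ι) (r : ι → κ) (γ : κ) :
    (C c * ∏ b ∈ T, (X - C (r b))).rootMultiplicity γ = (T.filter fun b => r b = γ).card := by
  have h1 : (∏ b ∈ T, (X - C (r b))) ≠ 0 :=
    Finset.prod_ne_zero_iff.mpr fun b _ => X_sub_C_ne_zero _
  rw [rootMultiplicity_mul (mul_ne_zero (C_ne_zero.mpr hc) h1), rootMultiplicity_C, zero_add]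
  clear h1
  induction T using Finset.induction_on with
  | empty => simp
  | insert b T hb ih =>
    rw [Finset.prod_insert hb, rootMultiplicity_mul, ih, rootMultiplicity_X_sub_C,
      Finset.filter_insert]
    · split_ifs with h1 h2 h2
      · rw [Finset.card_insert_of_notMem (fun h => hb (Finset.mem_of_mem_filter _ h)), add_comm]
      · exact absurd h1.symm h2
      · exact absurd h2.symm h1
      · rw [zero_add]
    · exact mul_ne_zero (X_sub_C_ne_zero _)
        (Finset.prod_ne_zero_iff.mpr fun b _ => X_sub_C_ne_zero _)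

/-- The reductions of the roots of `D` at a simple collision. -/
lemma res_roots7 {u a : κ} (hu : u ≠ 0) {A : Finset ι} {r : ι → κ} {h₁ : κ[X]}
    (hsep : h₁.Separable) (ha : h₁.eval a = 0)
    (h : C u * ∏ α ∈ A, (X - C (r α)) = (X - C a) * h₁) :
    (∀ α ∈ A, ∀ α' ∈ A, α ≠ α' → r α = r α' → r α = a) ∧
    (A.filter fun α => r α = a).card = 2 ∧ ∀ α ∈ A, h₁.eval (r α) = 0 := by
  have h10 : h₁ ≠ 0 := hsep.ne_zero
  have key : ∀ γ, (A.filter fun α => r α = γ).card =
      (if γ = a then 1 else 0) + h₁.rootMultiplicity γ := by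
    intro γ
    rw [← rootMultiplicity_prod7 hu A r γ, h,
      rootMultiplicity_mul (mul_ne_zero (X_sub_C_ne_zero _) h10), rootMultiplicity_X_sub_C]
  have hle : ∀ γ, h₁.rootMultiplicity γ ≤ 1 := fun γ =>
    rootMultiplicity_le_one_of_separable hsep γ
  have hpos : 0 < h₁.rootMultiplicity a := (rootMultiplicity_pos h10).mpr ha
  refine ⟨fun α hα α' hα' hne hr => ?_, ?_, fun α hα => ?_⟩
  · by_contra hna
    have h1 := key (r α)
    rw [if_neg hna, zero_add] at h1
    have h2 : 1 < (A.filter fun β => r β = r α).card := by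
      rw [Finset.one_lt_card]
      exact ⟨α, Finset.mem_filter.mpr ⟨hα, rfl⟩, α', Finset.mem_filter.mpr ⟨hα', hr.symm⟩, hne⟩
    have h3 := hle (r α)
    omega
  · have h1 := key a
    rw [if_pos rfl] at h1
    have h3 := hle a
    omega
  · by_cases h1 : r α = a
    · rw [h1]; exact ha
    · have h2 := congrArg (eval (r α)) h
      rw [eval_mul, eval_mul, eval_prod, Finset.prod_eq_zero hα (by simp), mul_zero, eval_sub,
        eval_X, eval_C, eq_comm, mul_eq_zero, sub_eq_zero] at h2
      exact h2.resolve_left h1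

/-- The reductions of the roots of `g - α` at a simple collision. -/
lemma res_fibre7 {g h₁ : κ[X]} {γ : κ} (hsep : (h₁.comp g).Separable) (hγ : h₁.eval γ = 0)
    {T : Finset ι} {r : ι → κ} (h : g - C γ = ∏ b ∈ T, (X - C (r b))) :
    ∀ b ∈ T, ∀ c ∈ T, b ≠ c → r b ≠ r c := by
  intro b hb c hc hbc hr
  have h1 : (g - C γ) ∣ h₁.comp g := by
    obtain ⟨w, hw⟩ := dvd_iff_isRoot.mpr hγ
    refine ⟨w.comp g, ?_⟩
    rw [hw, mul_comp, sub_comp, X_comp, C_comp]
  have h2 : (g - C γ).Separable := hsep.of_dvd h1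
  have h3 : (X - C (r b)) * (X - C (r b)) ∣ g - C γ := by
    rw [h, ← Finset.mul_prod_erase T _ hb]
    apply mul_dvd_mul_left
    have h4 : c ∈ T.erase b := Finset.mem_erase.mpr ⟨hbc.symm, hc⟩
    rw [hr]
    exact Finset.dvd_prod_of_mem (fun i => X - C (r i)) h4
  have h4 := h2.squarefree _ h3
  exact not_isUnit_X_sub_C _ h4

end Red

end Pool.Agent.Lib.MP_89bcae_ag

end

section

/-!
# The valuation attached to a simple collision
-/

open Polynomial IsDedekindDomain WithZero

open scoped Classical Pointwise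

namespace Pool.Agent.Lib.MP_89bcae_ag

set_option linter.style.haveILetI false
set_option linter.unusedSectionVars false

/-- A root of a polynomial with invertible leading coefficient is integral. -/
lemma integral_root7 {R F : Type*} [CommRing R] [IsDomain R] [Field F] [Algebra R F] {f : R[X]}
    (hu : IsUnit f.leadingCoeff) {x : F} (hx : aeval x f = 0) : IsIntegral R x := by
  obtain ⟨u, hu⟩ := hu
  refine ⟨C (↑u⁻¹ : R) * f, ?_, ?_⟩
  · rw [Monic, leadingCoeff_mul, leadingCoeff_C, ← hu]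
    exact u.inv_mul
  · rw [eval₂_mul]
    change _ * aeval x f = 0
    rw [hx, mul_zero]

lemma deriv_eval7 {K : Type*} [Field K] (α₁ α₂ : K) (p : K[X]) (x : K) :
    (derivative ((X - C α₁) * (X - C α₂) * p)).eval x =
      ((x - α₁) + (x - α₂)) * p.eval x + (x - α₁) * (x - α₂) * (derivative p).eval x := by
  simp only [derivative_mul, derivative_sub, derivative_X, derivative_C, eval_add, eval_mul,
    eval_sub, eval_X, eval_C, eval_one, eval_zero]
  ring

/-- The valuation attached to a simple collision. -/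
theorem exists_val7 {R k K : Type*} [CommRing R] [IsDomain R] [IsDiscreteValuationRing R] [Field k]
    [Algebra R k] [IsFractionRing R k] [Field K] [Algebra k K] [Algebra R K] [IsScalarTower R k K]
    [FiniteDimensional k K] [IsGalois k K] (h2 : IsUnit (2 : R)) {g D : R[X]}
    (hgdeg : g.natDegree ≠ 0) (hg : g.Monic) (hlc : IsUnit D.leadingCoeff) (S A : Finset K)
    (hDA : D.map (algebraMap R K) =
      C (algebraMap R K D.leadingCoeff) * ∏ α ∈ A, (X - C α))
    (hgS : ∀ α ∈ A, g.map (algebraMap R K) - C α =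
      ∏ b ∈ S.filter (fun b => (g.map (algebraMap R K)).eval b = α), (X - C b))
    (hSA : ∀ b ∈ S, (g.map (algebraMap R K)).eval b ∈ A)
    (hgen : ∀ σ : K ≃ₐ[k] K, (∀ b ∈ S, σ b = b) → σ = 1) (hcol : IsCollision7 g D) :
    ∃ w : Valuation K ℤᵐ⁰, w (algebraMap R K D.leadingCoeff) = 1 ∧ (∀ b ∈ S, w b ≤ 1) ∧
      (∀ b ∈ S, ∀ c ∈ S, b ≠ c → (g.map (algebraMap R K)).eval b =
        (g.map (algebraMap R K)).eval c → w (b - c) = 1) ∧
      ∃ α₁ ∈ A, ∃ α₂ ∈ A, α₁ ≠ α₂ ∧ w (α₁ - α₂) = exp (-1 : ℤ) ∧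
        ∀ α ∈ A, ∀ α' ∈ A, α ≠ α' → ¬ (α = α₁ ∧ α' = α₂) → ¬ (α = α₂ ∧ α' = α₁) →
          w (α - α') = 1 := by
  obtain ⟨a, h, hDred, hsepc, hDa⟩ := hcol
  -- the integral closure
  set B := integralClosure R K with hB
  haveI : IsDedekindDomain B := integralClosure.isDedekindDomain R k K
  haveI : Module.Finite R B := IsIntegralClosure.finite R k K B
  haveI : IsFractionRing B K := integralClosure.isFractionRing_of_finite_extension k K
  haveI : SMulCommClass (K ≃ₐ[k] K) R K := ⟨fun σ r x => by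
    rw [AlgEquiv.smul_def, AlgEquiv.smul_def, Algebra.smul_def, Algebra.smul_def, map_mul,
      IsScalarTower.algebraMap_apply R k K, AlgEquiv.commutes]⟩
  haveI : IsGaloisGroup (K ≃ₐ[k] K) R B := IsGaloisGroup.of_isFractionRing _ _ _ k K
  have hinjK : Function.Injective (algebraMap R K) := by
    rw [IsScalarTower.algebraMap_eq R k K]
    exact (algebraMap k K).injective.comp (IsFractionRing.injective R k)
  have hinjB : Function.Injective (algebraMap B K) := Subtype.val_injective
  haveI : FaithfulSMul R B := by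
    rw [faithfulSMul_iff_algebraMap_injective]
    intro x y hxy
    exact hinjK (congrArg (algebraMap B K) hxy)
  haveI : Module.IsTorsionFree R B := inferInstance
  haveI : Module.Flat R B := inferInstance
  let v : HeightOneSpectrum R := IsDiscreteValuationRing.maximalIdeal R
  have hvmax : v.asIdeal.IsMaximal := v.isMaximal
  obtain ⟨P, hPmax, hPv⟩ := Ideal.exists_maximal_ideal_liesOver_of_isIntegral (S := B) v.asIdeal
  have hP0 : P ≠ ⊥ := Ideal.ne_bot_of_liesOver_of_ne_bot v.ne_bot P
  let w : HeightOneSpectrum B := ⟨P, hPmax.isPrime, hP0⟩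
  have hwv : w.asIdeal.LiesOver v.asIdeal := hPv
  -- the ramification index
  have he : v.asIdeal.ramificationIdx' w.asIdeal ≤ Nat.card (P.inertia (K ≃ₐ[k] K)) := by
    rw [Ideal.ramificationIdx'_eq_ramificationIdx v.asIdeal w.asIdeal v.ne_bot]
    exact ramificationIdx_le_card_inertia7 v.asIdeal P
  -- the residue field
  letI : Field (B ⧸ P) := Ideal.Quotient.field P
  set q : B →+* B ⧸ P := Ideal.Quotient.mk P with hq
  have hq0 : ∀ x : B, q x = 0 ↔ x ∈ P := fun x => Ideal.Quotient.eq_zero_iff_mem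
  have hmP : ∀ r : R, r ∈ IsLocalRing.maximalIdeal R → q (algebraMap R B r) = 0 := by
    intro r hr
    rw [hq0]
    have h1 : r ∈ Ideal.comap (algebraMap R B) P := by
      rw [← Ideal.under_def, ← hPv.over]
      exact hr
    exact h1
  let ψ : IsLocalRing.ResidueField R →+* B ⧸ P :=
    Ideal.Quotient.lift (IsLocalRing.maximalIdeal R) (q.comp (algebraMap R B)) hmP
  have hψ : ∀ r : R, ψ (IsLocalRing.residue R r) = q (algebraMap R B r) := fun r => rfl
  have hψc : ψ.comp (IsLocalRing.residue R) = q.comp (algebraMap R B) := RingHom.ext hψ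
  have hu2 : q (2 : B) ≠ 0 := by
    have h1 := (h2.map (algebraMap R B)).map q
    rw [map_ofNat] at h1
    exact h1.ne_zero
  have hulc : q (algebraMap R B D.leadingCoeff) ≠ 0 := ((hlc.map (algebraMap R B)).map q).ne_zero
  -- integrality of the roots
  have hAroot : ∀ α ∈ A, aeval α D = 0 := by
    intro α hα
    rw [← eval_map_algebraMap, hDA, eval_mul, eval_prod, Finset.prod_eq_zero hα (by simp), mul_zero]
  have hAint : ∀ α ∈ A, IsIntegral R α := fun α hα => integral_root7 hlc (hAroot α hα)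
  have hSint : ∀ b ∈ S, IsIntegral R b := by
    intro b hb
    have h1 := hAroot _ (hSA b hb)
    refine integral_root7 (f := D.comp g) ?_ (x := b) ?_
    · rw [leadingCoeff_comp hgdeg, hg.leadingCoeff, one_pow, mul_one]
      exact hlc
    · rw [aeval_comp, ← eval_map_algebraMap g b]
      exact h1
  have hval : ∀ x : K, IsIntegral R x → w.valuation K x ≤ 1 := fun x hx =>
    w.valuation_le_one (⟨x, hx⟩ : B)
  have hval1 : ∀ (x : K) (hx : IsIntegral R x), w.valuation K x < 1 ↔ q ⟨x, hx⟩ = 0 := fun x hx => by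
    rw [hq0]
    exact w.valuation_lt_one_iff_mem (⟨x, hx⟩ : B)
  have hval2 : ∀ (x : K) (hx : IsIntegral R x), w.valuation K x = 1 ↔ q ⟨x, hx⟩ ≠ 0 := fun x hx => by
    rw [Ne, ← hval1 x hx, not_lt]
    exact ⟨fun h => h.ge, fun h => le_antisymm (hval x hx) h⟩
  -- the reductions of the roots
  let β : K → B := fun x => if hx : IsIntegral R x then ⟨x, hx⟩ else 0
  have hβ : ∀ x, IsIntegral R x → algebraMap B K (β x) = x := by
    intro x hx
    have h1 : β x = ⟨x, hx⟩ := dif_pos hx
    rw [h1]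
    rfl
  have hβv1 : ∀ x, IsIntegral R x → (w.valuation K x < 1 ↔ q (β x) = 0) := by
    intro x hx
    have h1 : β x = ⟨x, hx⟩ := dif_pos hx
    rw [h1]
    exact hval1 x hx
  have hβv2 : ∀ x, IsIntegral R x → (w.valuation K x = 1 ↔ q (β x) ≠ 0) := by
    intro x hx
    have h1 : β x = ⟨x, hx⟩ := dif_pos hx
    rw [h1]
    exact hval2 x hx
  have hβsub : ∀ x y, IsIntegral R x → IsIntegral R y → β (x - y) = β x - β y := by
    intro x y hx hy
    apply hinjB
    rw [map_sub, hβ _ (hx.sub hy), hβ x hx, hβ y hy]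
  have hDB : D.map (algebraMap R B) = C (algebraMap R B D.leadingCoeff) *
      ∏ α ∈ A, (X - C (β α)) := by
    apply map_prod_red7 hinjB (fun α hα => hβ α (hAint α hα))
    rw [Polynomial.map_map]
    exact hDA
  have hgB : ∀ α ∈ A, g.map (algebraMap R B) - C (β α) =
      ∏ b ∈ S.filter (fun b => (g.map (algebraMap R K)).eval b = α), (X - C (β b)) := by
    intro α hα
    have h1 := map_prod_red7 (p := g.map (algebraMap R B) - C (β α)) (c := 1)
      (T := S.filter (fun b => (g.map (algebraMap R K)).eval b = α)) hinjB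
      (fun b hb => hβ b (hSint b (Finset.mem_filter.mp hb).1)) (by
        rw [Polynomial.map_sub, Polynomial.map_map, map_C, hβ α (hAint α hα), map_one, C_1, one_mul]
        exact hgS α hα)
    rw [C_1, one_mul] at h1
    exact h1
  -- the reductions
  set ā := ψ (IsLocalRing.residue R a) with hā
  set h₁ : (B ⧸ P)[X] := ((X - C (IsLocalRing.residue R a)) * h).map ψ with hh₁
  set gκ : (B ⧸ P)[X] := (g.map (IsLocalRing.residue R)).map ψ with hgκ
  have hgκ' : gκ = (g.map (algebraMap R B)).map q := by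
    rw [hgκ, Polynomial.map_map, Polynomial.map_map, hψc]
  have hsep2 : (h₁.comp gκ).Separable := by
    have h1 := hsepc.map (f := ψ)
    rw [Polynomial.map_comp] at h1
    exact h1
  have hgκdeg : gκ.natDegree ≠ 0 := by
    rw [hgκ, natDegree_map, hg.natDegree_map]
    exact hgdeg
  have hsep1 : h₁.Separable := separable_left7 hgκdeg hsep2
  have hh₁a : h₁.eval ā = 0 := by
    rw [hh₁, Polynomial.map_mul, Polynomial.map_sub, map_X, map_C, eval_mul, eval_sub, eval_X,
      eval_C, sub_self, zero_mul]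
  have hDκ : C (q (algebraMap R B D.leadingCoeff)) * ∏ α ∈ A, (X - C (q (β α))) =
      (X - C ā) * h₁ := by
    have h1 := congrArg (Polynomial.map q) hDB
    rw [map_prod_red7', Polynomial.map_map, ← hψc, ← Polynomial.map_map, hDred] at h1
    rw [← h1, hh₁, Polynomial.map_mul, Polynomial.map_mul, Polynomial.map_pow, Polynomial.map_sub,
      map_X, map_C]
    ring
  obtain ⟨hA1, hA2, hA3⟩ := res_roots7 hulc hsep1 hh₁a hDκ
  have hfib : ∀ b ∈ S, ∀ c ∈ S, b ≠ c → (g.map (algebraMap R K)).eval b =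
        (g.map (algebraMap R K)).eval c → q (β b) ≠ q (β c) := by
    intro b hb c hc hbc hgbc
    have h1 := congrArg (Polynomial.map q) (hgB _ (hSA b hb))
    rw [Polynomial.map_sub, map_C, ← hgκ', Polynomial.map_prod] at h1
    simp only [Polynomial.map_sub, map_X, map_C] at h1
    exact res_fibre7 hsep2 (hA3 _ (hSA b hb)) h1 b (Finset.mem_filter.mpr ⟨hb, rfl⟩) c
      (Finset.mem_filter.mpr ⟨hc, hgbc.symm⟩) hbc
  obtain ⟨α₁, α₂, h12, hfil⟩ := Finset.card_eq_two.mp hA2
  have hm1 : α₁ ∈ A ∧ q (β α₁) = ā := by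
    have h3 : α₁ ∈ A.filter fun α => q (β α) = ā := by rw [hfil]; simp
    exact Finset.mem_filter.mp h3
  have hm2 : α₂ ∈ A ∧ q (β α₂) = ā := by
    have h3 : α₂ ∈ A.filter fun α => q (β α) = ā := by rw [hfil]; simp
    exact Finset.mem_filter.mp h3
  have hmem12 : ∀ α ∈ A, q (β α) = ā → α = α₁ ∨ α = α₂ := by
    intro α hα h1
    have h3 : α ∈ A.filter fun α => q (β α) = ā := Finset.mem_filter.mpr ⟨hα, h1⟩
    rw [hfil] at h3
    simpa using h3
  -- the inertia group
  have hAmem : ∀ α : K, (D.map (algebraMap R K)).eval α = 0 → α ∈ A := by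
    intro α hα
    rw [hDA, eval_mul, eval_C, eval_prod, mul_eq_zero] at hα
    rcases hα with hα | hα
    · exact absurd (hinjK (hα.trans (map_zero _).symm)) hlc.ne_zero
    · obtain ⟨α', h1, h3⟩ := Finset.prod_eq_zero_iff.mp hα
      rw [eval_sub, eval_X, eval_C, sub_eq_zero] at h3
      rw [h3]
      exact h1
  have hSmem : ∀ b : K, (g.map (algebraMap R K)).eval b ∈ A → b ∈ S := by
    intro b hb
    have h1 := congrArg (eval b) (hgS _ hb)
    rw [eval_sub, eval_C, sub_self, eval_prod, eq_comm] at h1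
    obtain ⟨b', h3, h4⟩ := Finset.prod_eq_zero_iff.mp h1
    rw [eval_sub, eval_X, eval_C, sub_eq_zero] at h4
    rw [h4]
    exact (Finset.mem_filter.mp h3).1
  have hσev : ∀ (σ : K ≃ₐ[k] K) (p : R[X]) (x : K), (p.map (algebraMap R K)).eval (σ x) =
      σ ((p.map (algebraMap R K)).eval x) := by
    intro σ p x
    have h1 : (σ : K →+* K).comp (algebraMap R K) = algebraMap R K := by
      ext r
      change σ (algebraMap R K r) = algebraMap R K r
      rw [IsScalarTower.algebraMap_apply R k K]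
      exact σ.commutes _
    have h3 := Polynomial.hom_eval₂ p (algebraMap R K) (σ : K →+* K) x
    rw [h1] at h3
    rw [eval_map, eval_map]
    exact h3.symm
  have hσA : ∀ (σ : K ≃ₐ[k] K), ∀ α ∈ A, σ α ∈ A := by
    intro σ α hα
    apply hAmem
    rw [hσev, hDA, eval_mul, eval_prod, Finset.prod_eq_zero hα (by simp), mul_zero, map_zero]
  have hσS : ∀ (σ : K ≃ₐ[k] K), ∀ b ∈ S, σ b ∈ S := by
    intro σ b hb
    apply hSmem
    rw [hσev]
    exact hσA σ _ (hSA b hb)
  have hσint : ∀ (σ : K ≃ₐ[k] K) (x : K), IsIntegral R x → IsIntegral R (σ x) := by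
    intro σ x hx
    exact hx.map (σ.restrictScalars R)
  have hine : ∀ σ ∈ P.inertia (K ≃ₐ[k] K), ∀ x : K, IsIntegral R x → q (β (σ x)) = q (β x) := by
    intro σ hσ x hx
    have h1 : σ • (β x) - β x ∈ P := hσ (β x)
    have h3 : σ • (β x) = β (σ x) := by
      apply hinjB
      rw [hβ _ (hσint σ x hx)]
      change σ ((β x : B) : K) = σ x
      congr 1
      exact hβ x hx
    rw [h3, ← hq0, map_sub, sub_eq_zero] at h1
    exact h1
  have hine1 : ∀ σ ∈ P.inertia (K ≃ₐ[k] K), σ α₁ = α₁ → σ = 1 := by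
    intro σ hσ h1
    apply hgen
    intro b hb
    by_contra hne
    have h3 := hine σ hσ b (hSint b hb)
    by_cases h4 : (g.map (algebraMap R K)).eval (σ b) = (g.map (algebraMap R K)).eval b
    · exact hfib _ (hσS σ b hb) b hb hne h4 h3
    · rw [hσev] at h4
      have hα := hSA b hb
      have h5 := hine σ hσ _ (hAint _ hα)
      have h6 := hA1 _ (hσA σ _ hα) _ hα h4 h5
      have h7 := hmem12 _ (hσA σ _ hα) h6
      have h8 := hmem12 _ hα (h5 ▸ h6)
      rcases h8 with h8 | h8
      · rw [h8] at h4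
        exact h4 h1
      · rw [h8] at h4 h7
        rcases h7 with h7 | h7
        · exact h12 (σ.injective (h1.trans h7.symm))
        · exact h4 h7
  have hcard : Nat.card (P.inertia (K ≃ₐ[k] K)) ≤ 2 := by
    have h1 : Function.Injective (fun σ : P.inertia (K ≃ₐ[k] K) =>
        (⟨(σ : K ≃ₐ[k] K) α₁, by
          have h3 := hine σ σ.2 α₁ (hAint _ hm1.1)
          have h4 := hmem12 _ (hσA σ _ hm1.1) (h3.trans hm1.2)
          simpa using h4⟩ : ({α₁, α₂} : Finset K))) := by
      intro σ τ hστ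
      have h3 : (σ : K ≃ₐ[k] K) α₁ = (τ : K ≃ₐ[k] K) α₁ := congrArg Subtype.val hστ
      have h4 : (τ⁻¹ * σ : P.inertia (K ≃ₐ[k] K)) = 1 := by
        apply Subtype.ext
        apply hine1 _ (τ⁻¹ * σ).2
        change (τ : K ≃ₐ[k] K).symm ((σ : K ≃ₐ[k] K) α₁) = α₁
        rw [h3, AlgEquiv.symm_apply_apply]
      exact (inv_mul_eq_one.mp h4).symm
    have h3 := Nat.card_le_card_of_injective _ h1
    rw [Nat.card_eq_fintype_card (α := ({α₁, α₂} : Finset K)), Fintype.card_coe] at h3
    exact h3.trans Finset.card_le_two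
  set e := v.asIdeal.ramificationIdx' w.asIdeal with hedef
  have he2 : e ≤ 2 := he.trans hcard
  -- the valuations of `D(a)` and `D'(a)`
  have hWk : ∀ r : R, w.valuation K (algebraMap R K r) = v.intValuation r ^ e := by
    intro r
    have h1 := HeightOneSpectrum.valuation_liesOver K v w (algebraMap R k r)
    rw [← IsScalarTower.algebraMap_apply] at h1
    rw [← h1]
    congr 1
    exact HeightOneSpectrum.valuation_of_algebraMap (K := k) v r
  have hDa1 : D.eval a ∈ IsLocalRing.maximalIdeal R := by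
    rw [← IsLocalRing.residue_eq_zero_iff, ← eval₂_at_apply, ← eval_map, hDred]
    simp
  have hDa2 : (derivative D).eval a ∈ IsLocalRing.maximalIdeal R := by
    rw [← IsLocalRing.residue_eq_zero_iff, ← eval₂_at_apply, ← eval_map, ← derivative_map, hDred,
      derivative_mul, derivative_X_sub_C_sq]
    simp
  have hvm : ∀ (r : R) (n : ℕ), v.intValuation r ≤ exp (-(n : ℤ)) ↔
      r ∈ IsLocalRing.maximalIdeal R ^ n := fun r n => v.intValuation_le_pow_iff_mem r n
  have hD0 : D.eval a ≠ 0 := by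
    intro h0
    rw [h0] at hDa
    exact hDa (Ideal.zero_mem _)
  have hvD : v.intValuation (D.eval a) = exp (-1 : ℤ) := by
    have h1 := (hvm (D.eval a) 1).mpr (by rw [pow_one]; exact hDa1)
    have h3 : ¬ v.intValuation (D.eval a) ≤ exp (-((2 : ℕ) : ℤ)) := fun h4 =>
      hDa ((hvm (D.eval a) 2).mp h4)
    have h5 : v.intValuation (D.eval a) ≠ 0 := v.intValuation_ne_zero _ hD0
    have h6 := exp_log h5
    rw [← h6] at h1 h3 ⊢
    rw [exp_le_exp] at h1 h3
    rw [exp_inj]
    push_cast at h1 h3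
    omega
  have hvD' : v.intValuation ((derivative D).eval a) ≤ exp (-1 : ℤ) := by
    have h1 := (hvm ((derivative D).eval a) 1).mpr (by rw [pow_one]; exact hDa2)
    simpa using h1
  -- the factorisation of `D`
  set W := w.valuation K with hW
  have haint : IsIntegral R (algebraMap R K a) := isIntegral_algebraMap
  have hβa : β (algebraMap R K a) = algebraMap R B a := by
    apply hinjB
    rw [hβ _ haint]
    rfl
  set A' := (A.erase α₁).erase α₂ with hA'
  have hA'A : ∀ α ∈ A', α ∈ A ∧ α ≠ α₁ ∧ α ≠ α₂ := by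
    intro α hα
    rw [hA', Finset.mem_erase, Finset.mem_erase] at hα
    exact ⟨hα.2.2, hα.2.1, hα.1⟩
  have hsplit : ∀ f : K → K[X], ∏ α ∈ A, f α = f α₁ * (f α₂ * ∏ α ∈ A', f α) := by
    intro f
    rw [hA', Finset.mul_prod_erase (A.erase α₁) f (Finset.mem_erase.mpr ⟨h12.symm, hm2.1⟩),
      Finset.mul_prod_erase A f hm1.1]
  set D₁ : K[X] := C (algebraMap R K D.leadingCoeff) * ∏ α ∈ A', (X - C α) with hD₁
  have hDD₁ : D.map (algebraMap R K) = (X - C α₁) * (X - C α₂) * D₁ := by
    rw [hDA, hsplit, hD₁]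
    ring
  have hWint : ∀ x : K, IsIntegral R x → W x ≤ 1 := hval
  have hWlc : W (algebraMap R K D.leadingCoeff) = 1 := by
    have h1 := hWint _ (isIntegral_algebraMap (x := D.leadingCoeff) (R := R) (A := K))
    obtain ⟨u, hu⟩ := hlc
    have h3 := hWint _ (isIntegral_algebraMap (x := (↑u⁻¹ : R)) (R := R) (A := K))
    rw [← hu] at h1 ⊢
    have h4 : W (algebraMap R K u) * W (algebraMap R K ↑u⁻¹) = 1 := by
      rw [← map_mul, ← map_mul, Units.mul_inv, map_one, map_one]
    refine le_antisymm h1 ?_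
    rw [← h4]
    exact mul_le_of_le_one_right' h3
  have hWD₁ : W (D₁.eval (algebraMap R K a)) = 1 := by
    rw [hD₁, eval_mul, eval_C, map_mul, hWlc, one_mul, eval_prod, map_prod]
    refine Finset.prod_eq_one fun α hα => ?_
    obtain ⟨h1, h3, h4⟩ := hA'A α hα
    rw [eval_sub, eval_X, eval_C, hβv2 _ (haint.sub (hAint α h1)), hβsub _ _ haint (hAint α h1),
      map_sub, hβa, ← hψ, ← hā, sub_ne_zero]
    intro h5
    rcases hmem12 α h1 h5.symm with h6 | h6
    · exact h3 h6
    · exact h4 h6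
  have hWD₁' : W ((derivative D₁).eval (algebraMap R K a)) ≤ 1 := by
    have h1 : D₁ = (C (algebraMap R B D.leadingCoeff) * ∏ α ∈ A', (X - C (β α))).map
        (algebraMap B K) := by
      rw [hD₁, Polynomial.map_mul, map_C, Polynomial.map_prod]
      congr 1
      refine Finset.prod_congr rfl fun α hα => ?_
      rw [Polynomial.map_sub, map_X, map_C, hβ α (hAint α (hA'A α hα).1)]
    have h3 : algebraMap R K a = algebraMap B K (algebraMap R B a) := rfl
    rw [h1, derivative_map, h3, eval_map, eval₂_at_apply]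
    exact w.valuation_le_one _
  set y₁ := algebraMap R K a - α₁ with hy₁
  set y₂ := algebraMap R K a - α₂ with hy₂
  have hWy₁ : W y₁ < 1 := by
    rw [hy₁, hβv1 _ (haint.sub (hAint α₁ hm1.1)), hβsub _ _ haint (hAint α₁ hm1.1), map_sub, hβa,
      ← hψ, hm1.2, hā, sub_self]
  have hWy₂ : W y₂ < 1 := by
    rw [hy₂, hβv1 _ (haint.sub (hAint α₂ hm2.1)), hβsub _ _ haint (hAint α₂ hm2.1), map_sub, hβa,
      ← hψ, hm2.2, hā, sub_self]
  have hprod : W y₁ * W y₂ = exp (-(e : ℤ)) := by
    have h1 : algebraMap R K (D.eval a) = y₁ * y₂ * D₁.eval (algebraMap R K a) := by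
      rw [← eval₂_at_apply, ← eval_map, hDD₁, eval_mul, eval_mul, eval_sub, eval_sub, eval_X,
        eval_C, eval_C]
    have h3 := congrArg W h1
    rw [hWk, hvD, map_mul, map_mul, hWD₁, mul_one] at h3
    rw [← h3, ← exp_nsmul]
    simp
  have hy₁0 : W y₁ ≠ 0 := by
    intro h0
    rw [h0, zero_mul] at hprod
    exact exp_ne_zero hprod.symm
  have hy₂0 : W y₂ ≠ 0 := by
    intro h0
    rw [h0, mul_zero] at hprod
    exact exp_ne_zero hprod.symm
  have hl : (W y₁ = exp (-1 : ℤ)) ∧ e = 2 := by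
    have h1 := exp_log hy₁0
    have h3 := exp_log hy₂0
    rw [← h1] at hWy₁ hprod ⊢
    rw [← h3] at hWy₂ hprod
    rw [← exp_add, exp_inj] at hprod
    rw [← exp_zero, exp_lt_exp] at hWy₁ hWy₂
    rw [exp_inj]
    omega
  have hsum : W (y₁ + y₂) ≤ exp (-2 : ℤ) := by
    have h1 : algebraMap R K ((derivative D).eval a) = (y₁ + y₂) * D₁.eval (algebraMap R K a) +
        y₁ * y₂ * (derivative D₁).eval (algebraMap R K a) := by
      rw [← eval₂_at_apply, ← eval_map, ← derivative_map, hDD₁]
      exact deriv_eval7 α₁ α₂ D₁ _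
    have h3 : (y₁ + y₂) * D₁.eval (algebraMap R K a) =
        algebraMap R K ((derivative D).eval a) -
          y₁ * y₂ * (derivative D₁).eval (algebraMap R K a) := by
      rw [h1]; ring
    have h4 := congrArg W h3
    rw [map_mul, hWD₁, mul_one] at h4
    rw [h4]
    refine (W.map_sub _ _).trans (max_le ?_ ?_)
    · rw [hWk, hl.2]
      calc v.intValuation ((derivative D).eval a) ^ 2 ≤ exp (-1 : ℤ) ^ 2 :=
            pow_le_pow_left' hvD' 2
        _ = exp (-2 : ℤ) := by rw [← exp_nsmul]; rfl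
    · rw [map_mul, map_mul, hprod, hl.2]
      exact (mul_le_of_le_one_right' hWD₁').trans le_rfl
  have hdiff : W (α₁ - α₂) = exp (-1 : ℤ) := by
    have h1 : α₁ - α₂ = (y₁ + y₂) - 2 * y₁ := by rw [hy₁, hy₂]; ring
    have hW2 : W (2 : K) = 1 := by
      have h3 := hβv2 (2 : K) (by
        have := isIntegral_algebraMap (x := (2 : R)) (R := R) (A := K)
        rwa [map_ofNat] at this)
      rw [h3]
      have h4 : β 2 = 2 := by
        apply hinjB
        rw [hβ, map_ofNat]
        have := isIntegral_algebraMap (x := (2 : R)) (R := R) (A := K)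
        rwa [map_ofNat] at this
      rw [h4]
      exact hu2
    have h3 : W (2 * y₁) = exp (-1 : ℤ) := by rw [map_mul, hW2, one_mul, hl.1]
    have h4 : W (y₁ + y₂) < W (2 * y₁) := by
      rw [h3]
      refine lt_of_le_of_lt hsum ?_
      rw [exp_lt_exp]
      norm_num
    rw [h1, Valuation.map_sub_eq_of_lt_right _ h4, h3]
  refine ⟨W, hWlc, fun b hb => hWint b (hSint b hb), ?_, α₁, hm1.1, α₂, hm2.1, h12, hdiff, ?_⟩
  · intro b hb c hc hbc hgbc
    rw [hβv2 _ ((hSint b hb).sub (hSint c hc)), hβsub _ _ (hSint b hb) (hSint c hc), map_sub,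
      sub_ne_zero]
    exact hfib b hb c hc hbc hgbc
  · intro α hα α' hα' hne h1 h3
    rw [hβv2 _ ((hAint α hα).sub (hAint α' hα')), hβsub _ _ (hAint α hα) (hAint α' hα'), map_sub,
      sub_ne_zero]
    intro h4
    have h5 := hA1 α hα α' hα' hne h4
    have h6 := hmem12 α hα h5
    have h7 := hmem12 α' hα' (h4 ▸ h5)
    rcases h6 with h6 | h6
    · rcases h7 with h7 | h7
      · exact hne (h6.trans h7.symm)
      · exact h1 ⟨h6, h7⟩
    · rcases h7 with h7 | h7
      · exact h3 ⟨h6, h7⟩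
      · exact hne (h6.trans h7.symm)

end Pool.Agent.Lib.MP_89bcae_ag

end

section

/-!
# The matching attached to a simple collision
-/

open Polynomial WithZero

open scoped Classical

namespace Pool.Agent.Lib.MP_89bcae_ag

set_option linter.style.haveILetI false
set_option linter.unusedSectionVars false

/-- A separable polynomial over an algebraically closed field. -/
lemma eq_prod_roots7 {F : Type*} [Field F] [IsAlgClosed F] {p : F[X]} (hp : p.Separable) :
    p = C p.leadingCoeff * ∏ b ∈ p.roots.toFinset, (X - C b) := by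
  have h1 := (IsAlgClosed.splits p).eq_prod_roots
  have h2 : p.roots.Nodup := nodup_roots hp
  conv_lhs => rw [h1]
  congr 1
  rw [Finset.prod_eq_multiset_prod, Multiset.toFinset_val, Multiset.dedup_eq_self.mpr h2]

/-- The splitting field of a separable polynomial. -/
lemma galois7 {k F : Type*} [Field k] [Field F] [Algebra k F] [IsAlgClosed F] {f : k[X]}
    (hsep : f.Separable) :
    FiniteDimensional k (IntermediateField.adjoin k (f.rootSet F)) ∧
      IsGalois k (IntermediateField.adjoin k (f.rootSet F)) := by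
  have h1 : IsSplittingField k (IntermediateField.adjoin k (f.rootSet F)) f :=
    IntermediateField.adjoin_rootSet_isSplittingField (IsAlgClosed.splits _)
  exact ⟨IsSplittingField.finiteDimensional _ f, IsGalois.of_separable_splitting_field (p := f) hsep⟩

lemma prod_subtype7 {F M : Type*} [CommMonoid M] (p : F → Prop) (S : Finset F)
    (hS : ∀ b ∈ S, p b) (P : Subtype p → Prop) (Q : F → Prop) (hPQ : ∀ b : Subtype p, P b ↔ Q b)
    (f : F → M) : ∏ b ∈ (S.subtype p).filter P, f b = ∏ b ∈ S.filter Q, f b := by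
  have h1 : S.filter Q = ((S.subtype p).filter P).map (Function.Embedding.subtype p) := by
    ext b
    rw [Finset.mem_filter, Finset.mem_map]
    constructor
    · rintro ⟨hb, hQ⟩
      exact ⟨⟨b, hS b hb⟩, Finset.mem_filter.mpr ⟨Finset.mem_subtype.mpr hb, (hPQ _).mpr hQ⟩, rfl⟩
    · rintro ⟨c, hc, rfl⟩
      rw [Finset.mem_filter, Finset.mem_subtype] at hc
      exact ⟨hc.1, (hPQ _).mp hc.2⟩
  rw [h1, Finset.prod_map]
  rfl

section Ord

variable {R k F : Type*} [CommRing R] [IsDomain R] [IsDiscreteValuationRing R] [Field k]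
  [Algebra R k] [IsFractionRing R k] [Field F] [Algebra k F] [Algebra R F] [IsScalarTower R k F]

/-- The orders of the differences of the roots at a simple collision. -/
theorem exists_ord7 (h2 : IsUnit (2 : R)) {g D : R[X]}
    (hgdeg : g.natDegree ≠ 0) (hg : g.Monic) (hlc : IsUnit D.leadingCoeff) (S A : Finset F)
    (hDA : D.map (algebraMap R F) =
      C (algebraMap R F D.leadingCoeff) * ∏ α ∈ A, (X - C α))
    (hgS : ∀ α ∈ A, g.map (algebraMap R F) - C α =
      ∏ b ∈ S.filter (fun b => (g.map (algebraMap R F)).eval b = α), (X - C b))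
    (hSA : ∀ b ∈ S, (g.map (algebraMap R F)).eval b ∈ A)
    (hAS : ∀ α ∈ A, ∃ b ∈ S, (g.map (algebraMap R F)).eval b = α)
    (K : IntermediateField k F) (hK : K = IntermediateField.adjoin k (S : Set F))
    [FiniteDimensional k K] [IsGalois k K] (hcol : IsCollision7 g D) :
    ∃ w : Valuation K ℤᵐ⁰, ordF7 w (algebraMap R F D.leadingCoeff) = 0 ∧
      (∀ b ∈ S, ∀ c ∈ S, ordF7 w (b - c) ≤ 0) ∧
      (∀ b ∈ S, ∀ c ∈ S, b ≠ c → (g.map (algebraMap R F)).eval b =
        (g.map (algebraMap R F)).eval c → ordF7 w (b - c) = 0) ∧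
      ∃ α₁ ∈ A, ∃ α₂ ∈ A, α₁ ≠ α₂ ∧ ordF7 w (α₁ - α₂) = -1 ∧
        ∀ α ∈ A, ∀ α' ∈ A, α ≠ α' → ¬ (α = α₁ ∧ α' = α₂) → ¬ (α = α₂ ∧ α' = α₁) →
          ordF7 w (α - α') = 0 := by
  have hSK : ∀ b ∈ S, b ∈ K := by
    intro b hb
    rw [hK]
    exact IntermediateField.subset_adjoin _ _ hb
  have hRK : ∀ r : R, algebraMap R F r ∈ K := by
    intro r
    rw [IsScalarTower.algebraMap_apply R k F]
    exact K.algebraMap_mem _
  have hgK : ∀ b ∈ K, (g.map (algebraMap R F)).eval b ∈ K := by
    intro b hb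
    rw [eval_map, eval₂_eq_sum_range]
    exact K.sum_mem fun i _ => K.mul_mem (hRK _) (pow_mem hb i)
  have hAK : ∀ α ∈ A, α ∈ K := by
    intro α hα
    obtain ⟨b, hb, rfl⟩ := hAS α hα
    exact hgK b (hSK b hb)
  have hcomp : (algebraMap K F).comp (algebraMap R K) = algebraMap R F := RingHom.ext fun r => rfl
  have hinj : Function.Injective (Polynomial.map (algebraMap K F)) :=
    Polynomial.map_injective _ (algebraMap K F).injective
  have hev : ∀ b : K, (((g.map (algebraMap R K)).eval b : K) : F) =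
      (g.map (algebraMap R F)).eval (b : F) := by
    intro b
    rw [← hcomp, ← Polynomial.map_map, eval_map (algebraMap K F)]
    exact (eval₂_at_apply (algebraMap K F) b).symm
  obtain ⟨w, hw1, hw2, hw3, α₁, hα₁, α₂, hα₂, h12, hw4, hw5⟩ := exists_val7 (R := R) (k := k)
    (K := K) h2 hgdeg hg hlc (S.subtype (· ∈ K)) (A.subtype (· ∈ K)) (by
      apply hinj
      rw [Polynomial.map_map, hcomp, hDA, Polynomial.map_mul, map_C, Polynomial.map_prod]
      congr 1
      have h1 := prod_subtype7 (· ∈ K) A hAK (fun _ => True) (fun _ => True) (fun _ => Iff.rfl)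
        (fun b => (X - C b : F[X]))
      rw [Finset.filter_true, Finset.filter_true] at h1
      rw [← h1]
      refine Finset.prod_congr rfl fun b _ => ?_
      rw [Polynomial.map_sub, map_X, map_C]
      rfl) (by
      intro α hα
      apply hinj
      rw [Polynomial.map_sub, Polynomial.map_map, hcomp, map_C, Polynomial.map_prod]
      rw [Finset.mem_subtype] at hα
      have h1 := prod_subtype7 (· ∈ K) S hSK (fun b => (g.map (algebraMap R K)).eval b = α)
        (fun b => (g.map (algebraMap R F)).eval b = (α : F))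
        (fun b => by rw [← hev, Subtype.coe_inj]) (fun b => (X - C b : F[X]))
      refine (hgS α hα).trans (h1.symm.trans ?_)
      refine Finset.prod_congr rfl fun b _ => ?_
      rw [Polynomial.map_sub, map_X, map_C]
      rfl) (by
      intro b hb
      rw [Finset.mem_subtype] at hb ⊢
      rw [hev]
      exact hSA b hb) (by
      intro σ hσ
      subst hK
      ext x
      have h1 : (σ : _ ≃ₐ[k] _).toAlgHom = AlgHom.id k _ := by
        apply IntermediateField.algHom_ext_of_eq_adjoin _ rfl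
        intro y hy
        exact hσ ⟨y, IntermediateField.subset_adjoin _ _ hy⟩ (Finset.mem_subtype.mpr hy)
      exact congrArg Subtype.val (congrArg (fun f => f x) h1)) hcol
  rw [Finset.mem_subtype] at hα₁ hα₂
  refine ⟨w, ?_, fun b hb c hc => ?_, fun b hb c hc hbc hgbc => ?_, α₁, hα₁, α₂, hα₂,
    fun h => h12 (Subtype.ext h), ?_, fun α hα α' hα' hne h1 h3 => ?_⟩
  · rw [ordF7_of_mem w (hRK _)]
    have h1 : (⟨algebraMap R F D.leadingCoeff, hRK _⟩ : K) = algebraMap R K D.leadingCoeff := rfl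
    rw [h1, hw1, log_one]
  · have hbK := hSK b hb
    have hcK := hSK c hc
    rw [ordF7_of_mem w (K.sub_mem hbK hcK)]
    have h1 : (⟨b - c, K.sub_mem hbK hcK⟩ : K) = ⟨b, hbK⟩ - ⟨c, hcK⟩ := rfl
    rw [h1]
    have h3 : w (⟨b, hbK⟩ - ⟨c, hcK⟩) ≤ 1 := (w.map_sub _ _).trans
      (max_le (hw2 _ (Finset.mem_subtype.mpr hb)) (hw2 _ (Finset.mem_subtype.mpr hc)))
    by_cases h0 : w (⟨b, hbK⟩ - ⟨c, hcK⟩) = 0
    · rw [h0, log_zero]
    · rw [log_le_iff_le_exp h0, exp_zero]
      exact h3
  · have hbK := hSK b hb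
    have hcK := hSK c hc
    rw [ordF7_of_mem w (K.sub_mem hbK hcK)]
    have h1 : (⟨b - c, K.sub_mem hbK hcK⟩ : K) = ⟨b, hbK⟩ - ⟨c, hcK⟩ := rfl
    rw [h1, hw3 ⟨b, hbK⟩ (Finset.mem_subtype.mpr hb) ⟨c, hcK⟩ (Finset.mem_subtype.mpr hc)
      (fun h => hbc (congrArg Subtype.val h)) (Subtype.ext (by rw [hev, hev]; exact hgbc)), log_one]
  · rw [ordF7_of_mem w (K.sub_mem α₁.2 α₂.2)]
    have h1 : (⟨(α₁ : F) - α₂, K.sub_mem α₁.2 α₂.2⟩ : K) = α₁ - α₂ := rfl
    rw [h1, hw4, log_exp]
  · have hbK := hAK α hα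
    have hcK := hAK α' hα'
    rw [ordF7_of_mem w (K.sub_mem hbK hcK)]
    have h4 : (⟨α - α', K.sub_mem hbK hcK⟩ : K) = ⟨α, hbK⟩ - ⟨α', hcK⟩ := rfl
    rw [h4, hw5 ⟨α, hbK⟩ (Finset.mem_subtype.mpr hα) ⟨α', hcK⟩ (Finset.mem_subtype.mpr hα')
      (fun h => hne (congrArg Subtype.val h))
      (fun h => h1 ⟨congrArg Subtype.val h.1, congrArg Subtype.val h.2⟩)
      (fun h => h3 ⟨congrArg Subtype.val h.1, congrArg Subtype.val h.2⟩), log_one]

end Ord

end Pool.Agent.Lib.MP_89bcae_ag

end
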