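import Mathlib
import Pool.Agent.Lib.MP_89bcae_ag.Mk.K004

section

/-!
ROW R10 (150-250 lines). The norm of a function, computed from its divisor.

PROOF. Let `r = ∏ rot^i h`. It is fixed by `rot = rotU ζ` (`rot^ℓ = 1`). Write `r = a / b`, `a`, `b`
in the coordinate ring, `b` in `E[x]` (multiply numerator and denominator by `∏_{0<i<ℓ} rot^i b`:
the product `∏_{i<ℓ} rot^i b` is fixed by `rot`, and an element `∑ pᵢ(x) yⁱ` of the coordinate ring
fixed by `rot` satisfies `ζ^i pᵢ = pᵢ`, so `pᵢ = 0` for `0 < i < ℓ` (`expand_unique`), it is in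
`E[x]`). Then `a` is fixed by `rot` as well, so `a` is in `E[x]`. Since `E` is algebraically closed,
`a` and `b` are products of a constant and of linear factors (`IsAlgClosed.splits`), so
`r = c ∏_a (x - a)^{n_a}` for finitely many `a` and integers `n_a`. Take the order at a point `P`
with `P.x = a`: `ord P r = n_a` or `ℓ n_a` according to `P.y ≠ 0` or `P.y = 0` (`ord_xs_...`). On the
other hand `ord P r = ∑_i ord (P.rot ζ^i) h` (`ord_rotU`), which is the sum of `div h` over all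
points above `a` if `P.y ≠ 0` (the points `(a, ζ^i b)`, all different), and `ℓ ord P h` if
`P.y = 0`. So `n_a = ∑_{P.x = a} div h P`, i.e. `r = c · xprod (div h)`.
-/

open Polynomial IsDedekindDomain

open scoped Classical

namespace Pool.Agent.Lib.MP_89bcae_ag.Sup

universe u

variable {ℓ : ℕ} {E : Type u} [Field E] {f : E[X]} [hG : IsGood ℓ f]

/-- The function `∏ (x - x(P)) ^ D(P)`. -/
noncomputable def xprod (D : Pt ℓ f →₀ ℤ) : (Fn ℓ f)ˣ := D.prod fun P n => xs P.x ^ n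

/-- The norm `∏_{i < ℓ} h(x, ζ ^ i y)`. -/
noncomputable def nrm (ζ : E) (hζ : ζ ^ ℓ = 1) (h0 : ζ ≠ 0) (h : (Fn ℓ f)ˣ) : (Fn ℓ f)ˣ :=
  ∏ i ∈ Finset.range ℓ, (rotU ζ hζ h0)^[i] h

omit hG in
lemma R10_rotE_apply (ζ : E) (hζ : ζ ^ ℓ = 1) (h0 : ζ ≠ 0) (a : Coord ℓ f) :
    rotE ζ hζ h0 a = rotC ζ hζ a := rfl

omit hG in
lemma R10_rot_expand (ζ : E) (hζ : ζ ^ ℓ = 1) (p : ℕ → E[X]) (s : Finset ℕ) :
    rotC ζ hζ (∑ i ∈ s, ofPoly (p i) * yy ^ i : Coord ℓ f) =
      ∑ i ∈ s, ofPoly (C ζ ^ i * p i) * yy ^ i := by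
  rw [map_sum]
  apply Finset.sum_congr rfl
  intro i _
  rw [map_mul, map_pow, rotC_ofPoly, rotC_yy, map_mul, map_pow, mul_pow]
  ring

lemma R10_rot_iter (ζ : E) (hζ : ζ ^ ℓ = 1) (h0 : ζ ≠ 0) (n : ℕ) (p : ℕ → E[X])
    (s : Finset ℕ) :
    (rotE ζ hζ h0)^[n] (∑ i ∈ s, ofPoly (p i) * yy ^ i : Coord ℓ f) =
      ∑ i ∈ s, ofPoly (C (ζ ^ n) ^ i * p i) * yy ^ i := by
  induction n with
  | zero => simp
  | succ n ih =>
    rw [Function.iterate_succ_apply', ih, R10_rotE_apply, R10_rot_expand]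
    apply Finset.sum_congr rfl
    intro i _
    congr 2
    rw [pow_succ ζ n, C_mul, mul_pow]
    ring

lemma R10_rot_full (ζ : E) (hζ : ζ ^ ℓ = 1) (h0 : ζ ≠ 0) (a : Coord ℓ f) :
    (rotE ζ hζ h0)^[ℓ] a = a := by
  obtain ⟨p, rfl⟩ := exists_expand hG.prime.ne_zero a
  rw [R10_rot_iter, hζ]
  simp

lemma R10_fix (ζ : E) (hζ : IsPrimitiveRoot ζ ℓ) (h0 : ζ ≠ 0) (a : Coord ℓ f)
    (ha : rotE ζ hζ.pow_eq_one h0 a = a) : ∃ p : E[X], a = ofPoly p := by
  obtain ⟨p, rfl⟩ := exists_expand hG.prime.ne_zero a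
  rw [R10_rotE_apply, R10_rot_expand] at ha
  have h1 : ∑ i ∈ Finset.range ℓ, (ofPoly (C ζ ^ i * p i - p i) : Coord ℓ f) * yy ^ i = 0 := by
    simp only [map_sub, sub_mul]
    rw [Finset.sum_sub_distrib, ha, sub_self]
  have h2 := expand_unique hG.prime.ne_zero _ h1
  refine ⟨p 0, ?_⟩
  rw [Finset.sum_eq_single 0]
  · simp
  · intro i hi hi0
    have hil := Finset.mem_range.mp hi
    have h3 := h2 i hil
    have h4 : (C (ζ ^ i - 1)) * p i = 0 := by
      rw [C_sub, C_pow, C_1, sub_mul, one_mul]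
      exact h3
    have h5 : p i = 0 := by
      rcases mul_eq_zero.mp h4 with h | h
      · exfalso
        rw [C_eq_zero, sub_eq_zero] at h
        have h6 := hζ.dvd_of_pow_eq_one i h
        have := Nat.le_of_dvd (Nat.pos_of_ne_zero hi0) h6
        omega
      · exact h
    rw [h5, map_zero, zero_mul]
  · intro h
    exact absurd (Finset.mem_range.mpr hG.prime.pos) h

lemma R10_autF_iter (φ : Coord ℓ f ≃+* Coord ℓ f) (n : ℕ) (a : Coord ℓ f) :
    (autF φ)^[n] (algebraMap (Coord ℓ f) (Fn ℓ f) a) =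
      algebraMap (Coord ℓ f) (Fn ℓ f) (φ^[n] a) := by
  induction n with
  | zero => rfl
  | succ n ih => rw [Function.iterate_succ_apply', ih, autF_algebraMap,
      Function.iterate_succ_apply']

lemma R10_autF_div (φ : Coord ℓ f ≃+* Coord ℓ f) (n : ℕ) (x y : Fn ℓ f) :
    (autF φ)^[n] (x / y) = (autF φ)^[n] x / (autF φ)^[n] y := by
  induction n with
  | zero => rfl
  | succ n ih => rw [Function.iterate_succ_apply', ih, map_div₀, Function.iterate_succ_apply',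
      Function.iterate_succ_apply']

omit hG in
lemma R10_autU_iter (φ : Coord ℓ f ≃+* Coord ℓ f) (n : ℕ) (u : (Fn ℓ f)ˣ) :
    (((autU φ)^[n] u : (Fn ℓ f)ˣ) : Fn ℓ f) = (autF φ)^[n] (u : Fn ℓ f) := by
  induction n with
  | zero => rfl
  | succ n ih =>
    rw [Function.iterate_succ_apply', Function.iterate_succ_apply', ← ih]
    rfl

lemma R10_rotU_full (ζ : E) (hζ : ζ ^ ℓ = 1) (h0 : ζ ≠ 0) (u : (Fn ℓ f)ˣ) :
    (rotU ζ hζ h0)^[ℓ] u = u := by
  apply Units.ext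
  unfold rotU
  rw [R10_autU_iter]
  obtain ⟨a, b, _, hab⟩ := IsFractionRing.div_surjective (A := Coord ℓ f) (u : Fn ℓ f)
  rw [← hab, R10_autF_div, R10_autF_iter, R10_autF_iter, R10_rot_full, R10_rot_full]

lemma R10_nrm_rot (ζ : E) (hζ : ζ ^ ℓ = 1) (h0 : ζ ≠ 0) (u : (Fn ℓ f)ˣ) :
    rotU ζ hζ h0 (nrm ζ hζ h0 u) = nrm ζ hζ h0 u := by
  unfold nrm
  rw [map_prod]
  have h1 : ∏ i ∈ Finset.range ℓ, rotU ζ hζ h0 ((rotU ζ hζ h0)^[i] u) =
      ∏ i ∈ Finset.range ℓ, (rotU ζ hζ h0)^[i + 1] u := by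
    apply Finset.prod_congr rfl
    intro i _
    rw [Function.iterate_succ_apply']
  rw [h1]
  have h2 : (∏ i ∈ Finset.range ℓ, (rotU ζ hζ h0)^[i + 1] u) * (rotU ζ hζ h0)^[0] u =
      (∏ i ∈ Finset.range ℓ, (rotU ζ hζ h0)^[i] u) * (rotU ζ hζ h0)^[ℓ] u := by
    rw [← Finset.prod_range_succ, ← Finset.prod_range_succ' (fun i => (rotU ζ hζ h0)^[i] u)]
  rw [R10_rotU_full, Function.iterate_zero, id] at h2
  exact mul_right_cancel h2

lemma R10_xprod_rot (ζ : E) (hζ : ζ ^ ℓ = 1) (h0 : ζ ≠ 0) (D : Pt ℓ f →₀ ℤ) :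
    rotU ζ hζ h0 (xprod D) = xprod D := by
  unfold xprod Finsupp.prod
  rw [map_prod]
  apply Finset.prod_congr rfl
  intro P _
  rw [map_zpow]
  congr 1
  exact rotU_polyU ζ hζ h0 _ _

lemma R10_integral (w : (Fn ℓ f)ˣ) (hw : ∀ P, 0 ≤ ord P w) :
    ∃ a : Coord ℓ f, algebraMap (Coord ℓ f) (Fn ℓ f) a = (w : Fn ℓ f) := by
  have h1 := HeightOneSpectrum.mem_integers_of_valuation_le_one (R := Coord ℓ f) (Fn ℓ f)
    (w : Fn ℓ f) (by
      intro v
      obtain ⟨P, hP⟩ := exists_pt_of_prime v.asIdeal v.isPrime v.ne_bot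
      have hv : v = P.hs := HeightOneSpectrum.ext hP.symm
      rw [hv]
      have h2 := hw P
      unfold ord at h2
      have h3 := WithZero.le_exp_of_log_le (show WithZero.log
        (P.hs.valuation (Fn ℓ f) (w : Fn ℓ f)) ≤ 0 by linarith)
      simpa using h3)
  obtain ⟨a, ha⟩ := h1
  exact ⟨a, ha⟩

lemma R10_ord_prod {ι : Type*} (P : Pt ℓ f) (s : Finset ι) (g : ι → (Fn ℓ f)ˣ) :
    ord P (∏ i ∈ s, g i) = ∑ i ∈ s, ord P (g i) := by
  induction s using Finset.induction_on with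
  | empty => simp [ord_one]
  | insert i s hi ih => rw [Finset.prod_insert hi, Finset.sum_insert hi, ord_mul, ih]

lemma R10_ord_rot_iter (ζ : E) (hζ : ζ ^ ℓ = 1) (h0 : ζ ≠ 0) (P : Pt ℓ f) (n : ℕ)
    (u : (Fn ℓ f)ˣ) :
    ord P ((rotU ζ hζ h0)^[n] u) =
      ord (P.rot (ζ ^ n) (by rw [← pow_mul, mul_comm, pow_mul, hζ, one_pow])) u := by
  induction n generalizing u with
  | zero =>
    rw [Function.iterate_zero, id]
    congr 1
    ext
    · rfl
    · simp [Pt.rot]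
  | succ n ih =>
    rw [Function.iterate_succ_apply, ih, ord_rotU]
    congr 1
    ext
    · rfl
    · simp only [Pt.rot]
      rw [pow_succ]
      ring

lemma R10_ord_nrm (ζ : E) (hζ : IsPrimitiveRoot ζ ℓ) (h0 : ζ ≠ 0) (h : (Fn ℓ f)ˣ)
    (P : Pt ℓ f) : ord P (nrm ζ hζ.pow_eq_one h0 h) = ord P (xprod (div h)) := by
  have hℓ0 : ℓ ≠ 0 := hG.prime.ne_zero
  have : NeZero ℓ := ⟨hℓ0⟩
  unfold nrm xprod Finsupp.prod
  rw [R10_ord_prod, R10_ord_prod]
  simp only [ord_zpow, R10_ord_rot_iter, div_apply]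
  by_cases hy : P.y = 0
  · have h1 : ∀ i ∈ Finset.range ℓ, ord (P.rot (ζ ^ i)
        (by rw [← pow_mul, mul_comm, pow_mul, hζ.pow_eq_one, one_pow])) h = ord P h := by
      intro i _
      congr 1
      ext
      · rfl
      · simp [Pt.rot, hy]
    rw [Finset.sum_congr rfl h1, Finset.sum_const, Finset.card_range, nsmul_eq_mul]
    have h2 : ∀ Q ∈ (div h).support, ord Q h * ord P (xs Q.x) =
        if Q = P then ord P h * ℓ else 0 := by
      intro Q _
      by_cases hQ : Q = P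
      · rw [if_pos hQ, hQ, ord_xs_of_ramified P hy]
      · rw [if_neg hQ]
        have hx : P.x ≠ Q.x := by
          intro hx
          apply hQ
          ext
          · exact hx.symm
          · have h3 := Q.eq
            rw [← hx, ← P.eq, hy, zero_pow hℓ0] at h3
            rw [hy]
            exact pow_eq_zero_iff hℓ0 |>.mp h3
        rw [ord_xs_of_ne P hx, mul_zero]
    rw [Finset.sum_congr rfl h2, Finset.sum_ite_eq']
    split_ifs with h3
    · ring
    · rw [Finsupp.mem_support_iff, not_not, div_apply] at h3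
      rw [h3]
      ring
  · have h2 : ∀ Q ∈ (div h).support, ord Q h * ord P (xs Q.x) =
        if Q.x = P.x then ord Q h else 0 := by
      intro Q _
      by_cases hQ : Q.x = P.x
      · rw [if_pos hQ, hQ, ord_xs_of_unramified P hy, mul_one]
      · rw [if_neg hQ, ord_xs_of_ne P (Ne.symm hQ), mul_zero]
    rw [Finset.sum_congr rfl h2, ← Finset.sum_filter]
    set q : ℕ → Pt ℓ f := fun i => P.rot (ζ ^ i)
      (by rw [← pow_mul, mul_comm, pow_mul, hζ.pow_eq_one, one_pow]) with hq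
    have hinj : Set.InjOn q (Finset.range ℓ : Set ℕ) := by
      intro i hi j hj hij
      rw [Finset.coe_range, Set.mem_Iio] at hi hj
      have h3 : ζ ^ i * P.y = ζ ^ j * P.y := congrArg Pt.y hij
      exact hζ.pow_inj hi hj (mul_right_cancel₀ hy h3)
    have h4 : ∑ i ∈ Finset.range ℓ, ord (q i) h =
        ∑ Q ∈ (Finset.range ℓ).image q, ord Q h := by
      rw [Finset.sum_image hinj]
    rw [h4]
    symm
    apply Finset.sum_subset
    · intro Q hQ
      rw [Finset.mem_filter] at hQ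
      have h5 : (Q.y / P.y) ^ ℓ = 1 := by
        rw [div_pow, Q.eq, P.eq, hQ.2, div_self]
        rw [← P.eq]
        exact pow_ne_zero ℓ hy
      obtain ⟨i, hi, he⟩ := hζ.eq_pow_of_pow_eq_one h5
      rw [Finset.mem_image]
      refine ⟨i, Finset.mem_range.mpr hi, ?_⟩
      ext
      · exact hQ.2.symm
      · simp only [hq, Pt.rot]
        rw [he, div_mul_cancel₀ _ hy]
    · intro Q hQ hQ'
      rw [Finset.mem_image] at hQ
      obtain ⟨i, _, rfl⟩ := hQ
      by_contra h6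
      apply hQ'
      rw [Finset.mem_filter, Finsupp.mem_support_iff, div_apply]
      exact ⟨h6, rfl⟩

lemma exists_nrm_eq (ζ : E) (hζ : IsPrimitiveRoot ζ ℓ) (h0 : ζ ≠ 0) (h : (Fn ℓ f)ˣ) :
    ∃ c : Eˣ, nrm ζ hζ.pow_eq_one h0 h = cstU c * xprod (div h) := by
  set w : (Fn ℓ f)ˣ := nrm ζ hζ.pow_eq_one h0 h * (xprod (div h))⁻¹ with hw
  have hord : ∀ P, ord P w = 0 := by
    intro P
    rw [hw, ord_mul, ord_inv, R10_ord_nrm ζ hζ h0 h P]
    ring
  have hrot : rotU ζ hζ.pow_eq_one h0 w = w := by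
    rw [hw, map_mul, map_inv, R10_nrm_rot, R10_xprod_rot]
  obtain ⟨a, ha⟩ := R10_integral w (fun P => (hord P).ge)
  obtain ⟨b, hb⟩ := R10_integral w⁻¹ (fun P => by rw [ord_inv, hord P, neg_zero])
  have hinj : Function.Injective (algebraMap (Coord ℓ f) (Fn ℓ f)) :=
    IsFractionRing.injective (Coord ℓ f) (Fn ℓ f)
  have hab : a * b = 1 := by
    apply hinj
    rw [map_mul, ha, hb, map_one]
    exact w.mul_inv
  have hfix : ∀ (v : (Fn ℓ f)ˣ) (c : Coord ℓ f), algebraMap (Coord ℓ f) (Fn ℓ f) c = (v : Fn ℓ f) →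
      rotU ζ hζ.pow_eq_one h0 v = v → rotE ζ hζ.pow_eq_one h0 c = c := by
    intro v c hc hv
    apply hinj
    rw [← autF_algebraMap, hc]
    have h1 := congrArg (fun z : (Fn ℓ f)ˣ => (z : Fn ℓ f)) hv
    exact h1
  obtain ⟨p, hp⟩ := R10_fix ζ hζ h0 a (hfix w a ha hrot)
  obtain ⟨q, hq⟩ := R10_fix ζ hζ h0 b (hfix w⁻¹ b hb (by rw [map_inv, hrot]))
  have hpq : p * q = 1 := by
    apply ofPoly_injective (ℓ := ℓ) (f := f) hG.prime.ne_zero
    rw [map_mul, ← hp, ← hq, hab, map_one]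
  have hunit : IsUnit p := IsUnit.of_mul_eq_one q hpq
  obtain ⟨c, hc, hcp⟩ := Polynomial.isUnit_iff.mp hunit
  refine ⟨hc.unit, ?_⟩
  have hwc : w = cstU hc.unit := by
    apply Units.ext
    rw [← ha, hp, ← hcp]
    rfl
  rw [← hwc, hw, inv_mul_cancel_right]

lemma nrm_mul (ζ : E) (hζ : ζ ^ ℓ = 1) (h0 : ζ ≠ 0) (h h' : (Fn ℓ f)ˣ) :
    nrm ζ hζ h0 (h * h') = nrm ζ hζ h0 h * nrm ζ hζ h0 h' := by
  unfold nrm
  rw [← Finset.prod_mul_distrib]
  apply Finset.prod_congr rfl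
  intro i _
  exact iterate_map_mul (rotU ζ hζ h0) i h h'

lemma nrm_cstU (ζ : E) (hζ : ζ ^ ℓ = 1) (h0 : ζ ≠ 0) (c : Eˣ) :
    nrm ζ hζ h0 (cstU c : (Fn ℓ f)ˣ) = cstU (c ^ ℓ) := by
  unfold nrm
  have h1 : ∀ i ∈ Finset.range ℓ, (rotU ζ hζ h0)^[i] (cstU c : (Fn ℓ f)ˣ) = cstU c := by
    intro i _
    exact Function.iterate_fixed (rotU_cstU ζ hζ h0 c) i
  rw [Finset.prod_congr rfl h1, Finset.prod_const, Finset.card_range, map_pow]

lemma xprod_add (D D' : Pt ℓ f →₀ ℤ) : xprod (D + D') = xprod D * xprod D' := by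
  unfold xprod
  exact Finsupp.prod_add_index' (fun _ => zpow_zero _) (fun _ _ _ => zpow_add _ _ _)

lemma xprod_rot (ζ : E) (hζ : ζ ^ ℓ = 1) (D : Pt ℓ f →₀ ℤ) :
    xprod (D.mapDomain (Pt.rot ζ hζ)) = xprod D := by
  unfold xprod
  rw [Finsupp.prod_mapDomain_index (fun _ => zpow_zero _) (fun _ _ _ => zpow_add _ _ _)]
  rfl

lemma symU_xprod (σ : Sym f) (D : Pt ℓ f →₀ ℤ) :
    symU σ (xprod D) = xprod (D.mapDomain (Pt.sym σ)) := by
  unfold xprod
  rw [Finsupp.prod_mapDomain_index (fun _ => zpow_zero _) (fun _ _ _ => zpow_add _ _ _)]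
  unfold Finsupp.prod
  rw [map_prod]
  apply Finset.prod_congr rfl
  intro P _
  rw [map_zpow, symU_xs]
  rfl

end Pool.Agent.Lib.MP_89bcae_ag.Sup

end

section

/-!
ROW R11 (80-150 lines). Hilbert's theorem 90 for the cyclic extension of function fields.

PROOF. Let `φ = rotU ζ⁻¹` (an automorphism of the field `Fn ℓ f`, the inverse of `rotU ζ`) and
`n = ∏_{i<ℓ} φ^i(h) = nrm h = 1` (the same product in another order, as `φ^ℓ = 1`). The field
automorphisms `1, φ, ..., φ^(ℓ-1)` are distinct (`φ^i y = ζ^(-i) y`), so they are linearly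
independent (`linearIndependent_monoidHom`): there is `b` with
`v = ∑_{i<ℓ} (∏_{j<i} φ^j(h)) φ^i(b) ≠ 0`. Then `h φ(v) = v` (the term `i = ℓ - 1` becomes
`n φ^ℓ(b) = b`). (Alternatively Mathlib's Hilbert 90 for cyclic groups.)
-/

open Polynomial IsDedekindDomain

open scoped Classical

namespace Pool.Agent.Lib.MP_89bcae_ag.Sup

universe u

variable {ℓ : ℕ} {E : Type u} [Field E] {f : E[X]} [hG : IsGood ℓ f]

lemma R11_full (ζ : E) (hζ : ζ ^ ℓ = 1) (h0 : ζ ≠ 0) (x : Fn ℓ f) :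
    (autF (rotE ζ hζ h0))^[ℓ] x = x := by
  obtain ⟨a, b, _, hab⟩ := IsFractionRing.div_surjective (A := Coord ℓ f) x
  rw [← hab, R10_autF_div, R10_autF_iter, R10_autF_iter, R10_rot_full, R10_rot_full]

lemma R11_yy (ζ : E) (hζ : ζ ^ ℓ = 1) (h0 : ζ ≠ 0) (n : ℕ) :
    (rotE ζ hζ h0)^[n] (yy : Coord ℓ f) = ofPoly (C (ζ ^ n)) * yy := by
  induction n with
  | zero => simp
  | succ n ih =>
    rw [Function.iterate_succ_apply', ih, R10_rotE_apply, map_mul, rotC_ofPoly, rotC_yy,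
      pow_succ, C_mul, map_mul]
    ring

lemma R11_succ (ζ : E) (hζ : ζ ^ ℓ = 1) (h0 : ζ ≠ 0) (h : (Fn ℓ f)ˣ) (i : ℕ) :
    ∏ j ∈ Finset.range (i + 1), (rotU ζ hζ h0)^[j] h =
      h * rotU ζ hζ h0 (∏ j ∈ Finset.range i, (rotU ζ hζ h0)^[j] h) := by
  rw [Finset.prod_range_succ', Function.iterate_zero, id, map_prod, mul_comm]
  congr 1
  apply Finset.prod_congr rfl
  intro j _
  rw [Function.iterate_succ_apply']

lemma R11_exists (ζ : E) (hζ : IsPrimitiveRoot ζ ℓ) (h0 : ζ ≠ 0) (c : ℕ → Fn ℓ f)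
    (hc : c 0 ≠ 0) :
    ∃ b : Fn ℓ f, ∑ i ∈ Finset.range ℓ, c i * (autF (rotE ζ hζ.pow_eq_one h0))^[i] b ≠ 0 := by
  by_contra hcon
  push Not at hcon
  set ρ := autF (rotE ζ hζ.pow_eq_one h0 : Coord ℓ f ≃+* Coord ℓ f) with hρ
  set ψ : Monoid.End (Fn ℓ f) := ((ρ : Fn ℓ f →+* Fn ℓ f) : Fn ℓ f →* Fn ℓ f) with hψ
  have hψi : ∀ (i : ℕ) (x : Fn ℓ f), (ψ ^ i : Monoid.End (Fn ℓ f)) x = ρ^[i] x := by
    intro i x
    rw [Monoid.End.coe_pow]
    rfl
  set χ : Fin ℓ → (Fn ℓ f →* Fn ℓ f) := fun i => (ψ ^ (i : ℕ) : Monoid.End (Fn ℓ f)) with hχ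
  have hinj : Function.Injective χ := by
    intro i j hij
    have h1 : (χ i) (algebraMap (Coord ℓ f) (Fn ℓ f) yy) =
        (χ j) (algebraMap (Coord ℓ f) (Fn ℓ f) yy) := by rw [hij]
    have h2 : ∀ k : Fin ℓ, (χ k) (algebraMap (Coord ℓ f) (Fn ℓ f) yy) =
        algebraMap (Coord ℓ f) (Fn ℓ f) (ofPoly (C (ζ ^ (k : ℕ))) * yy) := by
      intro k
      rw [← R11_yy ζ hζ.pow_eq_one h0 k, ← R10_autF_iter]
      exact hψi k _
    rw [h2, h2, map_mul, map_mul] at h1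
    have h3 := mul_right_cancel₀ algebraMap_yy_ne_zero h1
    have h4 := IsFractionRing.injective (Coord ℓ f) (Fn ℓ f) h3
    have h5 := C_injective (ofPoly_injective (ℓ := ℓ) (f := f) hG.prime.ne_zero h4)
    exact Fin.ext (hζ.pow_inj i.2 j.2 h5)
  have hli := (linearIndependent_monoidHom (Fn ℓ f) (Fn ℓ f)).comp χ hinj
  rw [Fintype.linearIndependent_iff] at hli
  have h6 := hli (fun i => c i) (by
    funext b
    rw [Finset.sum_apply, Pi.zero_apply, ← hcon b, Finset.sum_range]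
    apply Finset.sum_congr rfl
    intro i _
    rw [← hψi i b]
    rfl) ⟨0, hG.prime.pos⟩
  exact hc h6

lemma exists_hilbert (ζ : E) (hζ : IsPrimitiveRoot ζ ℓ) (h0 : ζ ≠ 0) (h : (Fn ℓ f)ˣ)
    (hn : nrm ζ hζ.pow_eq_one h0 h = 1) :
    ∃ v : (Fn ℓ f)ˣ, h = v / (rotU ζ hζ.pow_eq_one h0).symm v := by
  set ρ := autF (rotE ζ hζ.pow_eq_one h0 : Coord ℓ f ≃+* Coord ℓ f) with hρ
  set R := rotU ζ hζ.pow_eq_one h0 (f := f) with hR
  set c : ℕ → (Fn ℓ f)ˣ := fun i => ∏ j ∈ Finset.range i, R^[j] h with hc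
  have hRρ : ∀ u : (Fn ℓ f)ˣ, ((R u : (Fn ℓ f)ˣ) : Fn ℓ f) = ρ (u : Fn ℓ f) := fun _ => rfl
  have hcs : ∀ i, c (i + 1) = h * R (c i) := fun i => R11_succ ζ hζ.pow_eq_one h0 h i
  have hcℓ : c ℓ = 1 := hn
  have hc0 : c 0 = 1 := by simp [hc]
  obtain ⟨b, hb⟩ := R11_exists ζ hζ h0 (fun i => (c i : Fn ℓ f)) (by simp [hc0])
  set w0 := ∑ i ∈ Finset.range ℓ, (c i : Fn ℓ f) * ρ^[i] b with hw0
  have key : (h : Fn ℓ f) * ρ w0 = w0 := by
    have h1 : (h : Fn ℓ f) * ρ w0 = ∑ i ∈ Finset.range ℓ, (c (i + 1) : Fn ℓ f) * ρ^[i + 1] b := by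
      rw [hw0, map_sum, Finset.mul_sum]
      apply Finset.sum_congr rfl
      intro i _
      rw [map_mul, hcs, Units.val_mul, hRρ, Function.iterate_succ_apply']
      ring
    have h2 : ∑ i ∈ Finset.range ℓ, (c (i + 1) : Fn ℓ f) * ρ^[i + 1] b +
        (c 0 : Fn ℓ f) * ρ^[0] b = w0 + (c ℓ : Fn ℓ f) * ρ^[ℓ] b := by
      rw [hw0, ← Finset.sum_range_succ,
        ← Finset.sum_range_succ' (fun i => (c i : Fn ℓ f) * ρ^[i] b)]
    rw [hc0, hcℓ, R11_full, Function.iterate_zero, id] at h2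
    rw [h1]
    exact add_right_cancel h2
  set w : (Fn ℓ f)ˣ := Units.mk0 w0 hb with hw
  have hwR : h * R w = w := by
    apply Units.ext
    rw [Units.val_mul, hRρ]
    exact key
  refine ⟨(R w)⁻¹, ?_⟩
  rw [map_inv, MulEquiv.symm_apply_apply, div_inv_eq_mul, eq_comm, inv_mul_eq_iff_eq_mul,
    mul_comm]
  exact hwR.symm

end Pool.Agent.Lib.MP_89bcae_ag.Sup

end

section

/-!
ROW R12 (200-350 lines). `a - x` is a norm (an explicit form of Tsen's theorem).

STATEMENT: for every `a` in `E` there is a function `h` with `∏_{i<ℓ} h(x, ζ^i y) = x - a`.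

PROOF. `V = E(z)`, `z` a variable, is a vector space of dimension `ℓ` over its subfield
`E(x)`, `x := a - z^ℓ`, with basis `1, z, ..., z^(ℓ-1)`. Let `s` be the `E`-automorphism `z ↦ ζ z`
of `V`; it fixes `x`. Write `f = c ∏_i (X - r_i)` (roots `r_i`), `s_i^ℓ = a - r_i`, `d^ℓ = c`,
`H = d ∏_i (s_i - z)` in `V`. As `∏_{j<ℓ} (s_i - ζ^j z) = s_i^ℓ - z^ℓ = x - r_i`, we have
`∏_{j<ℓ} s^j(H) = f(x)`. So `Y : V → V, v ↦ H s(v)`, which is `E(x)`-linear, satisfies
`Y^ℓ = f(x)` and `V` becomes a vector space over `K = E(x)(y)` with `y v = Y(v)`, of dimension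
`1` (as `[K : E(x)] = ℓ`; only needed: `u ↦ u · 1` from `K` to `V` is injective (`K` is a field) and
`E(x)`-linear between spaces of the same dimension `ℓ`, so bijective). Let `h` in `K` with
`h · 1 = z`. For all `u` in `K`: `z · (u · 1) = rot⁻¹(u) · z` where `rot : y ↦ ζ y`: indeed
`z Y(v) = z H s(v) = ζ⁻¹ H s(z v) = ζ⁻¹ Y(z v)`, so multiplication by `z` satisfies
`z ∘ y = (ζ⁻¹ y) ∘ z`. Hence `z^ℓ = z^ℓ · 1 = (∏_{i<ℓ} rot^{-i}(h)) · 1`, and
`z^ℓ = a - x = (a - x) · 1`, so `∏ rot^i(h) = a - x`. Finally `-1 = ∏ rot^i(e)` with the constant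
`e`, `e^ℓ = -1`, so `x - a` is a norm too.
One can avoid fields: to have the result in the coordinate ring up to `E(x)` it is enough to
find a nonzero `w = ∑ p_i(x) y^i` in the coordinate ring and nonzero `q(x)` with `w · 1 = q(x) z` in
`E[z]`: exists by linear algebra over `E(x)`; then `nrm w = q^ℓ (a - x)` and `h = w / q`.
-/

open Polynomial IsDedekindDomain

open scoped Classical

namespace Pool.Agent.Lib.MP_89bcae_ag.Sup

universe u

section R12aux

variable {E : Type u} [Field E]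

/-- substitution `z ↦ η z` -/
private noncomputable def r12_rr (η : E) : E[X] →ₐ[E] E[X] := Polynomial.aeval (C η * X)

private lemma r12_rr_X (η : E) : r12_rr η X = C η * X := by
  unfold r12_rr; exact aeval_X _

private lemma r12_rr_C (η c : E) : r12_rr η (C c) = C c := by
  unfold r12_rr; exact aeval_C _ _

private lemma r12_rr_rr (η η' : E) (v : E[X]) : r12_rr η (r12_rr η' v) = r12_rr (η * η') v := by
  have h : (r12_rr η).comp (r12_rr η') = r12_rr (η * η') := by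
    ext1
    rw [AlgHom.comp_apply, r12_rr_X, map_mul, r12_rr_C, r12_rr_X, r12_rr_X, C_mul]
    ring
  rw [← h, AlgHom.comp_apply]

private lemma r12_rr_one (v : E[X]) : r12_rr 1 v = v := by
  have h : r12_rr (1 : E) = AlgHom.id E E[X] := by
    ext1
    rw [r12_rr_X, AlgHom.id_apply, C_1, one_mul]
  rw [h, AlgHom.id_apply]

/-- the polynomial `p(a - z ^ l)` -/
private noncomputable def r12_hat (l : ℕ) (a : E) : E[X] →ₐ[E] E[X] :=
  Polynomial.aeval (C a - X ^ l)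

private lemma r12_hat_X (l : ℕ) (a : E) : r12_hat l a X = C a - X ^ l := by
  unfold r12_hat; exact aeval_X _

private lemma r12_hat_C (l : ℕ) (a c : E) : r12_hat l a (C c) = C c := by
  unfold r12_hat; exact aeval_C _ _

private lemma r12_hat_ne {l : ℕ} (hl : 0 < l) (a : E) {p : E[X]} (hp : p ≠ 0) :
    r12_hat l a p ≠ 0 := by
  intro h
  have h1 : p.comp (C a - X ^ l) = 0 := by
    rw [Polynomial.comp_eq_aeval]; exact h
  rw [Polynomial.comp_eq_zero_iff] at h1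
  rcases h1 with h1 | ⟨_, h1⟩
  · exact hp h1
  · have h2 := congrArg natDegree h1
    rw [natDegree_C] at h2
    have h3 : (C a - X ^ l : E[X]).natDegree = l := by
      rw [natDegree_sub_eq_right_of_natDegree_lt]
      · exact natDegree_X_pow l
      · rw [natDegree_C, natDegree_X_pow]; exact hl
    omega

private lemma r12_rr_hat {l : ℕ} {η : E} (hη : η ^ l = 1) (a : E) (p : E[X]) :
    r12_rr η (r12_hat l a p) = r12_hat l a p := by
  have h : (r12_rr η).comp (r12_hat l a) = r12_hat l a := by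
    ext1
    rw [AlgHom.comp_apply, r12_hat_X, map_sub, map_pow, r12_rr_C, r12_rr_X, mul_pow, ← C_pow, hη,
      C_1, one_mul]
  exact congrArg (fun φ : E[X] →ₐ[E] E[X] => φ p) h

private lemma r12_lin {l : ℕ} (hl : 0 < l) {η : E} (hη : IsPrimitiveRoot η l) (s : E) :
    ∏ j ∈ Finset.range l, r12_rr (η ^ j) (C s - X) = C (s ^ l) - X ^ l := by
  have h1 : IsPrimitiveRoot (C η : E[X]) l := hη.map_of_injective C_injective
  have h2 := h1.pow_sub_pow_eq_prod_sub_mul (C s : E[X]) X hl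
  have h3 : nthRootsFinset l (1 : E[X]) = (Finset.range l).image (fun j => (C η : E[X]) ^ j) := by
    symm
    apply Finset.eq_of_subset_of_card_le
    · intro x hx
      obtain ⟨j, _, rfl⟩ := Finset.mem_image.mp hx
      rw [mem_nthRootsFinset hl, ← pow_mul, mul_comm, pow_mul, h1.pow_eq_one, one_pow]
    · rw [h1.card_nthRootsFinset, Finset.card_image_of_injOn, Finset.card_range]
      intro i hi j hj hij
      exact h1.pow_inj (Finset.mem_range.mp hi) (Finset.mem_range.mp hj) hij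
  rw [h3, Finset.prod_image] at h2
  · rw [C_pow, h2]
    refine Finset.prod_congr rfl fun j _ => ?_
    rw [map_sub, r12_rr_C, r12_rr_X, C_pow]
  · intro i hi j hj hij
    exact h1.pow_inj (Finset.mem_range.mp hi) (Finset.mem_range.mp hj) hij

private lemma r12_H [IsAlgClosed E] {l : ℕ} (hl : 0 < l) {η : E} (hη : IsPrimitiveRoot η l) (a : E)
    (f : E[X]) : ∃ H : E[X], ∏ j ∈ Finset.range l, r12_rr (η ^ j) H = r12_hat l a f := by
  have hmul : ∀ p q : E[X], (∃ H : E[X], ∏ j ∈ Finset.range l, r12_rr (η ^ j) H = r12_hat l a p) →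
      (∃ H : E[X], ∏ j ∈ Finset.range l, r12_rr (η ^ j) H = r12_hat l a q) →
      ∃ H : E[X], ∏ j ∈ Finset.range l, r12_rr (η ^ j) H = r12_hat l a (p * q) := by
    rintro p q ⟨H, hH⟩ ⟨H', hH'⟩
    refine ⟨H * H', ?_⟩
    rw [map_mul, ← hH, ← hH', ← Finset.prod_mul_distrib]
    exact Finset.prod_congr rfl fun j _ => map_mul _ _ _
  have hC : ∀ c : E, ∃ H : E[X], ∏ j ∈ Finset.range l, r12_rr (η ^ j) H = r12_hat l a (C c) := by
    intro c
    obtain ⟨d, hd⟩ := IsAlgClosed.exists_pow_nat_eq c hl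
    refine ⟨C d, ?_⟩
    rw [r12_hat_C, ← hd, C_pow]
    rw [Finset.prod_congr rfl (fun j _ => r12_rr_C (η ^ j) d), Finset.prod_const,
      Finset.card_range]
  have hX : ∀ r : E, ∃ H : E[X], ∏ j ∈ Finset.range l, r12_rr (η ^ j) H =
      r12_hat l a (X - C r) := by
    intro r
    obtain ⟨s, hs⟩ := IsAlgClosed.exists_pow_nat_eq (a - r) hl
    refine ⟨C s - X, ?_⟩
    rw [r12_lin hl hη, hs, map_sub (r12_hat l a), r12_hat_X, r12_hat_C, C_sub]
    ring
  have hm : ∀ m : Multiset E, ∃ H : E[X], ∏ j ∈ Finset.range l, r12_rr (η ^ j) H =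
      r12_hat l a ((m.map fun r => X - C r).prod) := by
    intro m
    induction m using Multiset.induction_on with
    | empty =>
      have := hC 1
      rwa [C_1] at this
    | cons r m ih =>
      rw [Multiset.map_cons, Multiset.prod_cons]
      exact hmul _ _ (hX r) ih
  have hsp := (IsAlgClosed.splits f).eq_prod_roots
  rw [hsp]
  exact hmul _ _ (hC _) (hm _)


private lemma r12_Y_pow (η : E) (H : E[X]) (Y : Module.End E E[X])
    (hY : ∀ v, Y v = H * r12_rr η v) (n : ℕ) (v : E[X]) :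
    (Y ^ n) v = (∏ j ∈ Finset.range n, r12_rr (η ^ j) H) * r12_rr (η ^ n) v := by
  induction n generalizing v with
  | zero => rw [pow_zero, pow_zero, Finset.prod_range_zero, one_mul, r12_rr_one]; rfl
  | succ n ih =>
    rw [pow_succ, Module.End.mul_apply, ih, hY, map_mul, r12_rr_rr, Finset.prod_range_succ,
      ← pow_succ]
    ring

/-- the action of the coordinate ring on the polynomials in `z` -/
private lemma r12_act {l : ℕ} (f : E[X]) (a : E) {η : E} (hη : η ^ l = 1) (H : E[X])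
    (hH : ∏ j ∈ Finset.range l, r12_rr (η ^ j) H = r12_hat l a f) :
    ∃ act : Coord l f →+* Module.End E E[X],
      (∀ p v, act (ofPoly p) v = r12_hat l a p * v) ∧
      (∀ v, act yy v = H * r12_rr η v) := by
  set f0 : E[X] →+* Module.End E E[X] :=
    (Algebra.lmul E E[X]).toRingHom.comp (r12_hat l a).toRingHom with hf0
  have hf0a : ∀ p v, f0 p v = r12_hat l a p * v := fun p v => rfl
  set Y : Module.End E E[X] := LinearMap.mulLeft E H * (r12_rr η).toLinearMap with hYd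
  have hY : ∀ v, Y v = H * r12_rr η v := fun v => rfl
  have hcomm : ∀ p, Commute (f0 p) Y := by
    intro p
    apply LinearMap.ext
    intro v
    show f0 p (Y v) = Y (f0 p v)
    rw [hf0a, hY, hY, hf0a, map_mul, r12_rr_hat hη]
    ring
  set act0 : E[X][X] →+* Module.End E E[X] := Polynomial.eval₂RingHom' f0 Y hcomm with hact0
  have h1 : ∀ p, act0 (C p) = f0 p := fun p => Polynomial.eval₂_C _ _
  have h2 : act0 X = Y := Polynomial.eval₂_X _ _
  have hzero : act0 (X ^ l - C f) = 0 := by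
    rw [map_sub, map_pow, h1, h2, sub_eq_zero]
    apply LinearMap.ext
    intro v
    rw [r12_Y_pow η H Y hY, hH, hη, r12_rr_one, hf0a]
  set act : Coord l f →+* Module.End E E[X] :=
    Ideal.Quotient.lift (Ideal.span {(X ^ l - C f : E[X][X])}) act0 (by
      intro x hx
      obtain ⟨y, rfl⟩ := Ideal.mem_span_singleton'.mp hx
      rw [map_mul, hzero, mul_zero]) with hact
  have h3 : ∀ q : E[X][X], act (AdjoinRoot.mk _ q) = act0 q := fun q => rfl
  refine ⟨act, ?_, ?_⟩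
  · intro p v
    have h4 : (ofPoly p : Coord l f) = AdjoinRoot.mk _ (C p) := rfl
    rw [h4, h3, h1, hf0a]
  · intro v
    have h4 : (yy : Coord l f) = AdjoinRoot.mk _ X := rfl
    rw [h4, h3, h2, hY]


private lemma r12_exists_poly {l : ℕ} {f : E[X]} [hG : IsGood l f] {u : Coord l f} (hu : u ≠ 0) :
    ∃ (p : E[X]) (c : Coord l f), p ≠ 0 ∧ (ofPoly p : Coord l f) = c * u := by
  have hfin : Module.Finite E[X] (Coord l f) :=
    (monic_eqn (f := f) hG.prime.ne_zero).finite_adjoinRoot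
  have hint : IsIntegral E[X] u := Algebra.IsIntegral.isIntegral u
  have h1 := Ideal.comap_ne_bot_of_integral_mem hu (Ideal.mem_span_singleton_self u) hint
  obtain ⟨p, hp, hp0⟩ := (Submodule.ne_bot_iff _).mp h1
  rw [Ideal.mem_comap, Ideal.mem_span_singleton'] at hp
  obtain ⟨c, hc⟩ := hp
  exact ⟨p, c, hp0, hc.symm⟩

private lemma r12_act_inj {l : ℕ} {f : E[X]} [hG : IsGood l f] {a : E}
    (act : Coord l f →+* Module.End E E[X])
    (h1 : ∀ p v, act (ofPoly p) v = r12_hat l a p * v) {v : E[X]} (hv : v ≠ 0) {u : Coord l f}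
    (hu : act u v = 0) : u = 0 := by
  by_contra hne
  obtain ⟨p, c, hp, hpc⟩ := r12_exists_poly hne
  have h2 : act (ofPoly p) v = 0 := by
    rw [hpc, map_mul, Module.End.mul_apply, hu, map_zero]
  rw [h1] at h2
  exact mul_ne_zero (r12_hat_ne hG.prime.pos a hp) hv h2

private lemma r12_deg {l : ℕ} {f : E[X]} {a η : E} {H : E[X]}
    (act : Coord l f →+* Module.End E E[X])
    (h1 : ∀ p v, act (ofPoly p) v = r12_hat l a p * v)
    (h2 : ∀ v, act yy v = H * r12_rr η v) (i j : ℕ) (v : E[X]) :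
    (act (ofPoly (X ^ j) * yy ^ i) v).natDegree ≤ l * j + i * H.natDegree + v.natDegree := by
  have hrr : ∀ w : E[X], (r12_rr η w).natDegree ≤ w.natDegree := by
    intro w
    have h3 : r12_rr η w = w.comp (C η * X) := by rw [Polynomial.comp_eq_aeval]; rfl
    rw [h3]
    refine natDegree_comp_le.trans ?_
    have h4 : (C η * X : E[X]).natDegree ≤ 1 :=
      (natDegree_C_mul_le _ _).trans natDegree_X_le
    calc w.natDegree * (C η * X : E[X]).natDegree ≤ w.natDegree * 1 := Nat.mul_le_mul_left _ h4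
      _ = w.natDegree := mul_one _
  have hy : ∀ (i : ℕ) (w : E[X]), ((act yy ^ i) w).natDegree ≤ i * H.natDegree + w.natDegree := by
    intro i
    induction i with
    | zero => intro w; rw [pow_zero]; show w.natDegree ≤ _; omega
    | succ i ih =>
      intro w
      rw [pow_succ, Module.End.mul_apply]
      refine (ih _).trans ?_
      rw [h2]
      have h3 := natDegree_mul_le (p := H) (q := r12_rr η w)
      have h4 := hrr w
      have h5 : (i + 1) * H.natDegree = i * H.natDegree + H.natDegree := by ring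
      omega
  rw [map_mul, Module.End.mul_apply, h1, map_pow act]
  have h3 := natDegree_mul_le (p := r12_hat l a (X ^ j)) (q := (act yy ^ i) v)
  have h4 := hy i v
  have h5 : (r12_hat l a (X ^ j)).natDegree ≤ l * j := by
    rw [map_pow, r12_hat_X]
    refine natDegree_pow_le.trans ?_
    have h6 : (C a - X ^ l : E[X]).natDegree ≤ l := by
      refine (natDegree_sub_le _ _).trans ?_
      rw [natDegree_C, natDegree_X_pow]
      exact max_le (Nat.zero_le _) le_rfl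
    calc j * (C a - X ^ l : E[X]).natDegree ≤ j * l := Nat.mul_le_mul_left _ h6
      _ = l * j := mul_comm _ _
  omega

/-- the element with the coefficients `c` -/
private noncomputable def r12_el {l : ℕ} {f : E[X]} (N : ℕ) (c : ℕ → ℕ → E) : Coord l f :=
  ∑ i ∈ Finset.range l, ofPoly (∑ j ∈ Finset.range N, C (c i j) * X ^ j) * yy ^ i

private lemma r12_el_act {l : ℕ} {f : E[X]} {a : E}
    (act : Coord l f →+* Module.End E E[X])
    (h1 : ∀ p v, act (ofPoly p) v = r12_hat l a p * v) (N : ℕ) (c : ℕ → ℕ → E) (v : E[X]) :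
    act (r12_el N c) v =
      ∑ i ∈ Finset.range l, ∑ j ∈ Finset.range N, c i j • act (ofPoly (X ^ j) * yy ^ i) v := by
  unfold r12_el
  rw [map_sum, LinearMap.sum_apply]
  refine Finset.sum_congr rfl fun i _ => ?_
  rw [map_mul, Module.End.mul_apply, h1, map_sum, Finset.sum_mul]
  refine Finset.sum_congr rfl fun j _ => ?_
  rw [map_mul (r12_hat l a), r12_hat_C, map_mul act, Module.End.mul_apply, h1, smul_eq_C_mul,
    mul_assoc]

private lemma r12_el_zero {l : ℕ} (hl : l ≠ 0) {f : E[X]} {N : ℕ} {c : ℕ → ℕ → E}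
    (h : (r12_el N c : Coord l f) = 0) : ∀ i < l, ∀ j < N, c i j = 0 := by
  intro i hi j hj
  have h1 := expand_unique hl (fun i => ∑ j ∈ Finset.range N, C (c i j) * X ^ j) h i hi
  have h2 := congrArg (fun p : E[X] => p.coeff j) h1
  simp only [finsetSum_coeff, coeff_C_mul, coeff_X_pow, coeff_zero] at h2
  rw [Finset.sum_eq_single j] at h2
  · simpa using h2
  · intro b _ hb
    rw [if_neg (Ne.symm hb), mul_zero]
  · intro hb
    exact absurd (Finset.mem_range.mpr hj) hb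


private lemma r12_exists_w {l : ℕ} {f : E[X]} [hG : IsGood l f] {a η : E} {H : E[X]}
    (act : Coord l f →+* Module.End E E[X])
    (h1 : ∀ p v, act (ofPoly p) v = r12_hat l a p * v)
    (h2 : ∀ v, act yy v = H * r12_rr η v) :
    ∃ (w : Coord l f) (q : E[X]), q ≠ 0 ∧ act w 1 = r12_hat l a q * X := by
  have hl : 2 ≤ l := hG.prime.two_le
  set n' := H.natDegree with hn'
  set N := n' + 1 with hN
  set D := l * n' + (l - 1) * n' + 2 with hD
  set g : Fin 2 × Fin l × Fin N → E[X] := fun x =>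
    if x.1 = 0 then act (ofPoly (X ^ (x.2.2 : ℕ)) * yy ^ (x.2.1 : ℕ)) 1
    else -act (ofPoly (X ^ (x.2.2 : ℕ)) * yy ^ (x.2.1 : ℕ)) X with hg
  have hgdeg : ∀ x, (g x).natDegree < D := by
    intro x
    obtain ⟨k, i, j⟩ := x
    have hi : (i : ℕ) ≤ l - 1 := by have := i.2; omega
    have hj : (j : ℕ) ≤ n' := by have := j.2; omega
    have h3 := r12_deg act h1 h2 (i : ℕ) (j : ℕ) 1
    have h4 := r12_deg act h1 h2 (i : ℕ) (j : ℕ) X
    rw [natDegree_one, ← hn'] at h3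
    rw [natDegree_X, ← hn'] at h4
    have h5 : (i : ℕ) * n' ≤ (l - 1) * n' := Nat.mul_le_mul_right _ hi
    have h6 : l * (j : ℕ) ≤ l * n' := Nat.mul_le_mul_left _ hj
    simp only [hg]
    split_ifs
    · omega
    · rw [natDegree_neg]; omega
  set T : (Fin 2 × Fin l × Fin N → E) →ₗ[E] E[X] := Fintype.linearCombination E g with hT
  set T' : (Fin 2 × Fin l × Fin N → E) →ₗ[E] (Fin D → E) :=
    LinearMap.pi (fun j => (Polynomial.lcoeff E (j : ℕ)).comp T) with hT'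
  have hker : LinearMap.ker T' ≠ ⊥ := by
    apply LinearMap.ker_ne_bot_of_finrank_lt
    rw [Module.finrank_fin_fun, Module.finrank_fintype_fun_eq_card, Fintype.card_prod,
      Fintype.card_prod, Fintype.card_fin, Fintype.card_fin, Fintype.card_fin, hD, hN]
    have h3 : (l - 1) * n' ≤ l * n' := Nat.mul_le_mul_right _ (by omega)
    have h4 : 2 * (l * (n' + 1)) = l * n' + l * n' + 2 * l := by ring
    omega
  obtain ⟨c, hc, hc0⟩ := (Submodule.ne_bot_iff _).mp hker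
  have hTc : T c = 0 := by
    ext j
    by_cases hj : j < D
    · have h3 : T' c = 0 := hc
      have h4 := congrFun h3 ⟨j, hj⟩
      exact h4
    · rw [coeff_zero]
      apply coeff_eq_zero_of_natDegree_lt
      have h3 : T c = ∑ x, c x • g x := rfl
      rw [h3]
      refine lt_of_lt_of_le ?_ (not_lt.mp hj)
      refine lt_of_le_of_lt (natDegree_sum_le_of_forall_le (n := D - 1) _ _ ?_) (by omega)
      intro x _
      refine (natDegree_smul_le _ _).trans ?_
      have := hgdeg x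
      omega
  set cc : Fin 2 → ℕ → ℕ → E := fun k i j =>
    if h : i < l ∧ j < N then c (k, ⟨i, h.1⟩, ⟨j, h.2⟩) else 0 with hcc
  have hccv : ∀ (k : Fin 2) (i : Fin l) (j : Fin N), cc k i j = c (k, i, j) := by
    intro k i j
    simp only [hcc]
    rw [dif_pos ⟨i.2, j.2⟩]
  have hsum : act (r12_el N (cc 0)) 1 - act (r12_el N (cc 1)) X = 0 := by
    rw [r12_el_act act h1, r12_el_act act h1, ← hTc]
    have h3 : T c = ∑ x, c x • g x := rfl
    rw [h3, Fintype.sum_prod_type, Fin.sum_univ_two, Fintype.sum_prod_type, Fintype.sum_prod_type,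
      Finset.sum_range, Finset.sum_range, sub_eq_add_neg, ← Finset.sum_neg_distrib]
    congr 1
    · refine Finset.sum_congr rfl fun i _ => ?_
      rw [Finset.sum_range]
      refine Finset.sum_congr rfl fun j _ => ?_
      rw [hccv]
      simp only [hg, if_pos]
    · refine Finset.sum_congr rfl fun i _ => ?_
      rw [Finset.sum_range, ← Finset.sum_neg_distrib]
      refine Finset.sum_congr rfl fun j _ => ?_
      rw [hccv]
      simp only [hg]
      rw [if_neg (by decide), smul_neg]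
  have hu : (r12_el N (cc 1) : Coord l f) ≠ 0 := by
    intro h3
    have h4 := r12_el_zero hG.prime.ne_zero h3
    rw [h3, map_zero, LinearMap.zero_apply, sub_zero] at hsum
    have h5 := r12_act_inj act h1 one_ne_zero hsum
    have h6 := r12_el_zero hG.prime.ne_zero h5
    apply hc0
    funext x
    obtain ⟨k, i, j⟩ := x
    rw [← hccv, Pi.zero_apply]
    fin_cases k
    · exact h6 i i.2 j j.2
    · exact h4 i i.2 j j.2
  obtain ⟨p, u', hp, hpu⟩ := r12_exists_poly hu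
  refine ⟨u' * r12_el N (cc 0), p, hp, ?_⟩
  rw [map_mul, Module.End.mul_apply, sub_eq_zero.mp hsum, ← Module.End.mul_apply, ← map_mul, ← hpu,
    h1]


/-- the main identity in the coordinate ring -/
private lemma r12_main {l : ℕ} {f : E[X]} [hG : IsGood l f] (ζ : E) (hζ : IsPrimitiveRoot ζ l)
    (h0 : ζ ≠ 0) (a : E) :
    ∃ (w : Coord l f) (q : E[X]), q ≠ 0 ∧ w ≠ 0 ∧
      ∏ i ∈ Finset.range l, (rotC ζ hζ.pow_eq_one)^[i] w = ofPoly (q ^ l * (C a - X)) := by
  have hl : 0 < l := hG.prime.pos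
  have : IsAlgClosed E := hG.alg
  have hη : IsPrimitiveRoot ζ⁻¹ l := hζ.inv
  obtain ⟨H, hH⟩ := r12_H hl hη a f
  obtain ⟨act, h1, h2⟩ := r12_act f a hη.pow_eq_one H hH
  obtain ⟨w, q, hq, hw⟩ := r12_exists_w act h1 h2
  -- the semilinearity of the multiplication by `z`
  have hsemi : ∀ (u : Coord l f) (v : E[X]),
      X * act u v = act (rotC ζ hζ.pow_eq_one u) (X * v) := by
    have hadd : ∀ u u' : Coord l f,
        (∀ v : E[X], X * act u v = act (rotC ζ hζ.pow_eq_one u) (X * v)) →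
        (∀ v : E[X], X * act u' v = act (rotC ζ hζ.pow_eq_one u') (X * v)) →
        ∀ v : E[X], X * act (u + u') v = act (rotC ζ hζ.pow_eq_one (u + u')) (X * v) := by
      intro u u' hu hu' v
      rw [map_add act, map_add (rotC ζ hζ.pow_eq_one), map_add act, LinearMap.add_apply,
        LinearMap.add_apply, mul_add, hu, hu']
    have hmul : ∀ u u' : Coord l f,
        (∀ v : E[X], X * act u v = act (rotC ζ hζ.pow_eq_one u) (X * v)) →
        (∀ v : E[X], X * act u' v = act (rotC ζ hζ.pow_eq_one u') (X * v)) →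
        ∀ v : E[X], X * act (u * u') v = act (rotC ζ hζ.pow_eq_one (u * u')) (X * v) := by
      intro u u' hu hu' v
      rw [map_mul act, map_mul (rotC ζ hζ.pow_eq_one), map_mul act, Module.End.mul_apply,
        Module.End.mul_apply, hu, hu']
    have hp : ∀ (p : E[X]) (v : E[X]), X * act (ofPoly p : Coord l f) v =
        act (rotC ζ hζ.pow_eq_one (ofPoly p)) (X * v) := by
      intro p v
      rw [rotC_ofPoly, h1, h1]
      ring
    have hy : ∀ v : E[X], X * act (yy : Coord l f) v =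
        act (rotC ζ hζ.pow_eq_one yy) (X * v) := by
      intro v
      rw [rotC_yy, map_mul act, Module.End.mul_apply, h1, h2, h2, map_mul, r12_rr_X, r12_hat_C]
      have h3 : (C ζ * C ζ⁻¹ : E[X]) = 1 := by rw [← C_mul, mul_inv_cancel₀ h0, C_1]
      calc X * (H * r12_rr ζ⁻¹ v) = 1 * (X * (H * r12_rr ζ⁻¹ v)) := by rw [one_mul]
        _ = (C ζ * C ζ⁻¹) * (X * (H * r12_rr ζ⁻¹ v)) := by rw [h3]
        _ = _ := by ring
    have hyp : ∀ (i : ℕ) (v : E[X]), X * act ((yy : Coord l f) ^ i) v =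
        act (rotC ζ hζ.pow_eq_one (yy ^ i)) (X * v) := by
      intro i
      induction i with
      | zero =>
        intro v
        rw [pow_zero, map_one (rotC ζ hζ.pow_eq_one), map_one act]
        rfl
      | succ i ih =>
        rw [pow_succ]
        exact hmul _ _ ih hy
    intro u
    obtain ⟨p, rfl⟩ := exists_expand hl.ne' u
    have key : ∀ s : Finset ℕ, ∀ v : E[X],
        X * act (∑ i ∈ s, (ofPoly (p i) : Coord l f) * yy ^ i) v =
        act (rotC ζ hζ.pow_eq_one (∑ i ∈ s, ofPoly (p i) * yy ^ i)) (X * v) := by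
      intro s
      induction s using Finset.induction_on with
      | empty =>
        intro v
        rw [Finset.sum_empty, map_zero, map_zero, map_zero, LinearMap.zero_apply,
          LinearMap.zero_apply, mul_zero]
      | insert i s hi ih =>
        rw [Finset.sum_insert hi]
        exact hadd _ _ (hmul _ _ (hp (p i)) (hyp i)) ih
    exact key _
  have hsemik : ∀ (k : ℕ) (v : E[X]),
      X ^ k * act w v = act ((rotC ζ hζ.pow_eq_one)^[k] w) (X ^ k * v) := by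
    intro k
    induction k with
    | zero => intro v; rw [pow_zero, one_mul, one_mul]; rfl
    | succ k ih =>
      intro v
      rw [pow_succ', mul_assoc, ih, hsemi, Function.iterate_succ_apply', mul_assoc]
  have hcommC : ∀ (u : Coord l f) (p v : E[X]),
      act u (r12_hat l a p * v) = r12_hat l a p * act u v := by
    intro u p v
    rw [← h1, ← Module.End.mul_apply, ← map_mul, mul_comm, map_mul, Module.End.mul_apply, h1]
  have hprod : ∀ k : ℕ, act (∏ i ∈ Finset.range k, (rotC ζ hζ.pow_eq_one)^[i] w) 1 =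
      r12_hat l a (q ^ k) * X ^ k := by
    intro k
    induction k with
    | zero =>
      rw [Finset.prod_range_zero, map_one act, pow_zero, pow_zero, map_one (r12_hat l a)]
      show (1 : E[X]) = 1 * 1
      rw [one_mul]
    | succ k ih =>
      rw [Finset.prod_range_succ, mul_comm, map_mul, Module.End.mul_apply, ih, hcommC]
      have h3 := hsemik k 1
      rw [mul_one, hw] at h3
      rw [← h3, pow_succ, pow_succ, map_mul]
      ring
  have hw0 : w ≠ 0 := by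
    intro h3
    rw [h3, map_zero, LinearMap.zero_apply] at hw
    exact mul_ne_zero (r12_hat_ne hl a hq) X_ne_zero hw.symm
  refine ⟨w, q, hq, hw0, ?_⟩
  rw [← sub_eq_zero]
  refine r12_act_inj act h1 (v := 1) one_ne_zero ?_
  rw [map_sub, LinearMap.sub_apply, hprod, h1, mul_one, map_mul, map_sub (r12_hat l a), r12_hat_X,
    r12_hat_C]
  ring

end R12aux

variable {ℓ : ℕ} {E : Type u} [Field E] {f : E[X]} [hG : IsGood ℓ f]

lemma exists_nrm_eq_xs (ζ : E) (hζ : IsPrimitiveRoot ζ ℓ) (h0 : ζ ≠ 0) (a : E) :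
    ∃ h : (Fn ℓ f)ˣ, nrm ζ hζ.pow_eq_one h0 h = xs a := by
  have hl : 0 < ℓ := hG.prime.pos
  have : IsAlgClosed E := hG.alg
  obtain ⟨w, q, hq, hw0, hmain⟩ := r12_main (f := f) ζ hζ h0 a
  obtain ⟨e, he⟩ := IsAlgClosed.exists_pow_nat_eq (-1 : E) hl
  have he0 : e ≠ 0 := by
    intro h
    rw [h, zero_pow hl.ne'] at he
    exact one_ne_zero (neg_eq_zero.mp he.symm)
  have hinj : Function.Injective (algebraMap (Coord ℓ f) (Fn ℓ f)) :=
    IsFractionRing.injective (Coord ℓ f) (Fn ℓ f)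
  set wU : (Fn ℓ f)ˣ := Units.mk0 (algebraMap (Coord ℓ f) (Fn ℓ f) w)
    (by rwa [Ne, map_eq_zero_iff _ hinj]) with hwU
  have hrot : ∀ (u : Coord ℓ f), rotE ζ hζ.pow_eq_one h0 u = rotC ζ hζ.pow_eq_one u := fun u => rfl
  have hit : ∀ i : ℕ, (((rotU ζ hζ.pow_eq_one h0)^[i] wU : (Fn ℓ f)ˣ) : Fn ℓ f) =
      algebraMap (Coord ℓ f) (Fn ℓ f) ((rotC ζ hζ.pow_eq_one)^[i] w) := by
    intro i
    induction i with
    | zero => rfl
    | succ i ih =>
      rw [Function.iterate_succ_apply', Function.iterate_succ_apply']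
      show (autF (rotE ζ hζ.pow_eq_one h0)) (((rotU ζ hζ.pow_eq_one h0)^[i] wU : (Fn ℓ f)ˣ) :
        Fn ℓ f) = _
      rw [ih, autF_algebraMap, hrot]
  have hnw : ((nrm ζ hζ.pow_eq_one h0 wU : (Fn ℓ f)ˣ) : Fn ℓ f) =
      algebraMap (Coord ℓ f) (Fn ℓ f) (ofPoly (q ^ ℓ * (C a - X))) := by
    unfold nrm
    rw [← hmain, Units.coe_prod, map_prod]
    exact Finset.prod_congr rfl fun i _ => hit i
  have hnq : nrm ζ hζ.pow_eq_one h0 (polyU q hq : (Fn ℓ f)ˣ) = (polyU q hq) ^ ℓ := by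
    unfold nrm
    have h1 : ∀ i : ℕ, (rotU ζ hζ.pow_eq_one h0)^[i] (polyU q hq : (Fn ℓ f)ˣ) = polyU q hq := by
      intro i
      induction i with
      | zero => rfl
      | succ i ih => rw [Function.iterate_succ_apply', ih, rotU_polyU]
    rw [Finset.prod_congr rfl (fun i _ => h1 i), Finset.prod_const, Finset.card_range]
  have hkey : nrm ζ hζ.pow_eq_one h0 (wU * cstU (Units.mk0 e he0)) =
      nrm ζ hζ.pow_eq_one h0 (polyU q hq) * xs a := by
    rw [nrm_mul, nrm_cstU, hnq]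
    apply Units.ext
    rw [Units.val_mul, Units.val_mul, hnw, Units.val_pow_eq_pow_val]
    have h1 : ((cstU (Units.mk0 e he0 ^ ℓ) : (Fn ℓ f)ˣ) : Fn ℓ f) =
        algebraMap (Coord ℓ f) (Fn ℓ f) (ofPoly (C (-1))) := by
      have h2 : ((cstU (Units.mk0 e he0 ^ ℓ) : (Fn ℓ f)ˣ) : Fn ℓ f) =
        algebraMap (Coord ℓ f) (Fn ℓ f) (ofPoly (C (e ^ ℓ))) := by
        show (cst (((Units.mk0 e he0) ^ ℓ : Eˣ) : E) : Fn ℓ f) = _
        rw [Units.val_pow_eq_pow_val]
        rfl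
      rw [h2, he]
    have h3 : ((polyU q hq : (Fn ℓ f)ˣ) : Fn ℓ f) =
        algebraMap (Coord ℓ f) (Fn ℓ f) (ofPoly q) := rfl
    have h4 : ((xs a : (Fn ℓ f)ˣ) : Fn ℓ f) =
        algebraMap (Coord ℓ f) (Fn ℓ f) (ofPoly (X - C a)) := rfl
    rw [h1, h3, h4, ← map_mul, ← map_mul, ← map_pow, ← map_pow, ← map_mul, ← map_mul]
    congr 2
    rw [C_neg, C_1]
    ring
  refine ⟨wU * cstU (Units.mk0 e he0) * (polyU q hq)⁻¹, ?_⟩
  have h5 : nrm ζ hζ.pow_eq_one h0 (wU * cstU (Units.mk0 e he0) * (polyU q hq)⁻¹) *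
      nrm ζ hζ.pow_eq_one h0 (polyU q hq) =
      nrm ζ hζ.pow_eq_one h0 (wU * cstU (Units.mk0 e he0)) := by
    rw [← nrm_mul, inv_mul_cancel_right]
  rw [hkey, mul_comm (nrm ζ hζ.pow_eq_one h0 (polyU q hq)) (xs a)] at h5
  exact mul_right_cancel h5

end Pool.Agent.Lib.MP_89bcae_ag.Sup

end

section

/-!
ROW R14 (150-250 lines). The leading coefficient of a function at a ramified point `(θ, 0)`, with
respect to the uniformizer `y`.

DEFINITION. For a root `θ` of `f` and `P = (θ, 0)`: `lc θ h` is the constant `c` such that the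
function `h y^{-ord_P(h)} - c` vanishes at `P` (or is zero): it exists by `exists_residue_pt`, is
unique since nonzero constants have order `0`, and is not `0` since `h y^{-ord h}` has order `0`.
PROOFS. Multiplicativity: `uv - cd = u (v - d) + d (u - c)` for functions `u`, `v` of order `0`, and
`ord_add`. `lc θ c = c` clear. `x - a - (θ - a) = x - θ` has positive order: `lc θ (x - a) = θ - a`
if `a ≠ θ`. `f = (x - θ) g`, `g(θ) = f'(θ)`, `y^ℓ = (x - θ) g(x)`: `(x - θ) y^{-ℓ} = 1/g(x)`, so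
`lc θ (x - θ) = 1 / f'(θ)`. `lc θ y = 1`. Rotation: apply `rot : y ↦ ζ y` (which preserves `ord_P`,
as `P.rot ζ = P`, and constants) to `h y^{-w} - c`: `rot(h) ζ^{-w} y^{-w} - c` vanishes at `P`, so
`lc θ (rot h) = ζ^w lc θ h`. Symmetries: apply `symU σ` in the same way (`ord_symU`, `symU_yU`).
Definition in Lean: `if hθ : f.eval θ = 0 then (choose ...) else 1`.
-/

open Polynomial IsDedekindDomain

open scoped Classical

namespace Pool.Agent.Lib.MP_89bcae_ag.Sup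

universe u

variable {ℓ : ℕ} {E : Type u} [Field E] {f : E[X]} [hG : IsGood ℓ f]

/-- The ramified point `(θ, 0)`. -/
def ramPt (hℓ : ℓ ≠ 0) {θ : E} (hθ : f.eval θ = 0) : Pt ℓ f := ⟨θ, 0, by rw [zero_pow hℓ, hθ]⟩

/-- The order of a function at the ramified point `(θ, 0)` (zero if `θ` is not a root of `f`). -/
noncomputable def ordR (θ : E) (h : (Fn ℓ f)ˣ) : ℤ :=
  if hθ : f.eval θ = 0 then ord (ramPt hG.prime.ne_zero hθ) h else 0

/-- the function `u` has the value `c` at `P` -/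
private def R14_res (P : Pt ℓ f) (u : Fn ℓ f) (c : E) : Prop :=
  P.hs.valuation (Fn ℓ f) (u - cst c) < 1

private lemma R14_val_ne_zero (P : Pt ℓ f) (h : (Fn ℓ f)ˣ) :
    P.hs.valuation (Fn ℓ f) (h : Fn ℓ f) ≠ 0 :=
  (Valuation.ne_zero_iff _).mpr h.ne_zero

private lemma R14_ord_nonneg_iff (P : Pt ℓ f) (h : (Fn ℓ f)ˣ) :
    0 ≤ ord P h ↔ P.hs.valuation (Fn ℓ f) (h : Fn ℓ f) ≤ 1 := by
  have h1 := WithZero.log_le_iff_le_exp (a := (0 : ℤ)) (R14_val_ne_zero P h)
  rw [WithZero.exp_zero] at h1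
  rw [← h1]
  unfold ord
  omega

private lemma R14_ord_pos_iff (P : Pt ℓ f) (h : (Fn ℓ f)ˣ) :
    0 < ord P h ↔ P.hs.valuation (Fn ℓ f) (h : Fn ℓ f) < 1 := by
  have h1 := WithZero.log_lt_iff_lt_exp (a := (0 : ℤ)) (R14_val_ne_zero P h)
  rw [WithZero.exp_zero] at h1
  rw [← h1]
  unfold ord
  omega

omit hG in
private lemma R14_cstU_coe (c : Eˣ) : ((cstU c : (Fn ℓ f)ˣ) : Fn ℓ f) = cst (c : E) := rfl

private lemma R14_val_cst_le (P : Pt ℓ f) (c : E) : P.hs.valuation (Fn ℓ f) (cst c) ≤ 1 :=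
  HeightOneSpectrum.valuation_le_one P.hs (ofPoly (C c))

private lemma R14_val_cst_lt (P : Pt ℓ f) (c : E) (h : P.hs.valuation (Fn ℓ f) (cst c) < 1) :
    c = 0 := by
  by_contra hc
  have h1 := (R14_ord_pos_iff P (cstU (Units.mk0 c hc))).mpr (by
    rw [R14_cstU_coe, Units.val_mk0]; exact h)
  rw [ord_cstU] at h1
  exact lt_irrefl _ h1

private lemma R14_res_le (P : Pt ℓ f) (u : Fn ℓ f) (c : E) (h : R14_res P u c) :
    P.hs.valuation (Fn ℓ f) u ≤ 1 := by
  have h1 : u = (u - cst c) + cst c := by ring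
  rw [h1]
  exact (Valuation.map_add _ _ _).trans (max_le (le_of_lt h) (R14_val_cst_le P c))

private lemma R14_res_unique (P : Pt ℓ f) (u : Fn ℓ f) (c c' : E) (h : R14_res P u c)
    (h' : R14_res P u c') : c = c' := by
  have h1 : P.hs.valuation (Fn ℓ f) (cst (c - c')) < 1 := by
    have h2 : (cst (c - c') : Fn ℓ f) = -(u - cst c) + (u - cst c') := by
      rw [map_sub]; ring
    rw [h2]
    refine lt_of_le_of_lt (Valuation.map_add _ _ _) (max_lt ?_ h')
    rw [Valuation.map_neg]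
    exact h
  exact sub_eq_zero.mp (R14_val_cst_lt P _ h1)

private lemma R14_res_mul (P : Pt ℓ f) (u u' : Fn ℓ f) (c c' : E) (h : R14_res P u c)
    (h' : R14_res P u' c') : R14_res P (u * u') (c * c') := by
  unfold R14_res
  have h2 : u * u' - cst (c * c') = u * (u' - cst c') + cst c' * (u - cst c) := by
    rw [map_mul]; ring
  rw [h2]
  refine lt_of_le_of_lt (Valuation.map_add _ _ _) (max_lt ?_ ?_)
  · rw [map_mul]
    exact (mul_le_of_le_one_left' (R14_res_le P u c h)).trans_lt h'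
  · rw [map_mul]
    exact (mul_le_of_le_one_left' (R14_val_cst_le P c')).trans_lt h

private lemma R14_res_cst (P : Pt ℓ f) (c : E) : R14_res P (cst c) c := by
  unfold R14_res
  rw [sub_self, map_zero]
  exact zero_lt_one

private lemma R14_res_one (P : Pt ℓ f) : R14_res P 1 1 := by
  have h := R14_res_cst P (1 : E)
  rwa [map_one] at h

private lemma R14_res_alg (P : Pt ℓ f) (a : Coord ℓ f) :
    R14_res P (algebraMap (Coord ℓ f) (Fn ℓ f) a) (evalPt P a) := by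
  unfold R14_res
  have h1 : algebraMap (Coord ℓ f) (Fn ℓ f) a - cst (evalPt P a) =
      algebraMap (Coord ℓ f) (Fn ℓ f) (a - ofPoly (C (evalPt P a))) := by
    rw [map_sub]
    rfl
  rw [h1]
  refine (HeightOneSpectrum.valuation_lt_one_iff_mem _ _).mpr ?_
  change evalPt P (a - ofPoly (C (evalPt P a))) = 0
  rw [map_sub, evalPt_ofPoly, eval_C, sub_self]

private lemma R14_exists_res (P : Pt ℓ f) (u : (Fn ℓ f)ˣ) (hu : 0 ≤ ord P u) :
    ∃ c : E, R14_res P u c := by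
  obtain ⟨c, hc⟩ := exists_residue_pt P u hu
  refine ⟨c, ?_⟩
  unfold R14_res
  by_cases h0 : (u : Fn ℓ f) - cst c = 0
  · rw [h0, map_zero]
    exact zero_lt_one
  · have h1 := hc (Units.mk0 _ h0) rfl
    rw [R14_ord_pos_iff, Units.val_mk0] at h1
    exact h1

private lemma R14_res_ne_zero (P : Pt ℓ f) (u : (Fn ℓ f)ˣ) (hu : ord P u = 0) (c : E)
    (hc : R14_res P u c) : c ≠ 0 := by
  rintro rfl
  unfold R14_res at hc
  rw [map_zero, sub_zero, ← R14_ord_pos_iff, hu] at hc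
  exact lt_irrefl _ hc

/-- transport of residues by an automorphism -/
private lemma R14_res_aut (φ : Coord ℓ f ≃+* Coord ℓ f) (P Q : Pt ℓ f)
    (h : ∀ a, evalPt Q (φ a) = 0 ↔ evalPt P a = 0) (u : (Fn ℓ f)ˣ) (c d : E)
    (hφ : φ (ofPoly (C c)) = ofPoly (C d)) (hu : R14_res P u c) :
    R14_res Q (autU φ u : (Fn ℓ f)ˣ) d := by
  have hcoe : ∀ w : (Fn ℓ f)ˣ, ((autU φ w : (Fn ℓ f)ˣ) : Fn ℓ f) = autF φ (w : Fn ℓ f) :=
    fun w => rfl
  have hcst : autF φ (cst c : Fn ℓ f) = cst d := by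
    have h1 := autF_algebraMap φ (ofPoly (C c) : Coord ℓ f)
    rw [hφ] at h1
    exact h1
  have hsub : ((autU φ u : (Fn ℓ f)ˣ) : Fn ℓ f) - cst d = autF φ ((u : Fn ℓ f) - cst c) := by
    rw [map_sub, hcst, hcoe]
  unfold R14_res at hu ⊢
  by_cases h0 : (u : Fn ℓ f) - cst c = 0
  · rw [hsub, h0, map_zero, map_zero]
    exact zero_lt_one
  · have h1 : 0 < ord P (Units.mk0 _ h0) := by
      rw [R14_ord_pos_iff, Units.val_mk0]
      exact hu
    rw [← ord_autU φ P Q h, R14_ord_pos_iff, hcoe, Units.val_mk0, ← hsub] at h1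
    exact h1

private lemma R14_ord_norm (P : Pt ℓ f) (hP : P.y = 0) (h : (Fn ℓ f)ˣ) :
    ord P (h * yU ^ (-ord P h)) = 0 := by
  rw [ord_mul, ord_zpow, ord_yU_of_ramified P hP]
  ring

private lemma R14_exists (P : Pt ℓ f) (hP : P.y = 0) (h : (Fn ℓ f)ˣ) :
    ∃ c : Eˣ, R14_res P ((h * yU ^ (-ord P h) : (Fn ℓ f)ˣ) : Fn ℓ f) c := by
  obtain ⟨c, hc⟩ := R14_exists_res P (h * yU ^ (-ord P h)) (R14_ord_norm P hP h).ge
  exact ⟨Units.mk0 c (R14_res_ne_zero P _ (R14_ord_norm P hP h) c hc), hc⟩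

/-- the leading coefficient at a ramified point -/
private noncomputable def R14_lc (P : Pt ℓ f) (hP : P.y = 0) (h : (Fn ℓ f)ˣ) : Eˣ :=
  (R14_exists P hP h).choose

private lemma R14_lc_spec (P : Pt ℓ f) (hP : P.y = 0) (h : (Fn ℓ f)ˣ) :
    R14_res P ((h * yU ^ (-ord P h) : (Fn ℓ f)ˣ) : Fn ℓ f) (R14_lc P hP h) :=
  (R14_exists P hP h).choose_spec

private lemma R14_lc_eq (P : Pt ℓ f) (hP : P.y = 0) (h : (Fn ℓ f)ˣ) (c : E)
    (hc : R14_res P ((h * yU ^ (-ord P h) : (Fn ℓ f)ˣ) : Fn ℓ f) c) :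
    (R14_lc P hP h : E) = c :=
  R14_res_unique P _ _ _ (R14_lc_spec P hP h) hc

private lemma R14_lc_mul (P : Pt ℓ f) (hP : P.y = 0) (h h' : (Fn ℓ f)ˣ) :
    R14_lc P hP (h * h') = R14_lc P hP h * R14_lc P hP h' := by
  apply Units.ext
  rw [Units.val_mul]
  apply R14_lc_eq
  have h1 := R14_res_mul P _ _ _ _ (R14_lc_spec P hP h) (R14_lc_spec P hP h')
  have h2 : (h * h' * yU ^ (-ord P (h * h')) : (Fn ℓ f)ˣ) =
      (h * yU ^ (-ord P h)) * (h' * yU ^ (-ord P h')) := by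
    rw [ord_mul, neg_add, zpow_add]
    exact mul_mul_mul_comm _ _ _ _
  rw [h2, Units.val_mul]
  exact h1

private noncomputable def R14_hom (P : Pt ℓ f) (hP : P.y = 0) : (Fn ℓ f)ˣ →* Eˣ :=
  MonoidHom.mk' (R14_lc P hP) (R14_lc_mul P hP)

omit hG in
private lemma R14_ram_rot (P : Pt ℓ f) (hP : P.y = 0) (ζ : E) (hζ : ζ ^ ℓ = 1) :
    P.rot ζ hζ = P := by
  ext
  · rfl
  · change ζ * P.y = P.y
    rw [hP, mul_zero]

private lemma R14_rotU (P : Pt ℓ f) (hP : P.y = 0) (ζ : E) (hζ : ζ ^ ℓ = 1) (h0 : ζ ≠ 0)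
    (h : (Fn ℓ f)ˣ) :
    (R14_lc P hP (rotU ζ hζ h0 h) : E) = ζ ^ ord P h * R14_lc P hP h := by
  have hord : ord P (rotU ζ hζ h0 h) = ord P h := by
    rw [ord_rotU, R14_ram_rot P hP]
  apply R14_lc_eq
  rw [hord]
  have h1 : R14_res P ((rotU ζ hζ h0 (h * yU ^ (-ord P h)) : (Fn ℓ f)ˣ) : Fn ℓ f)
      (R14_lc P hP h) := by
    refine R14_res_aut (rotE ζ hζ h0) P P ?_ _ _ _ ?_ (R14_lc_spec P hP h)
    · intro a
      rw [evalPt_rotE, R14_ram_rot P hP]
    · exact rotC_ofPoly ζ hζ _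
  have h2 : (rotU ζ hζ h0 h * yU ^ (-ord P h) : (Fn ℓ f)ˣ) =
      cstU (Units.mk0 ζ h0 ^ ord P h) * rotU ζ hζ h0 (h * yU ^ (-ord P h)) := by
    rw [map_mul (rotU ζ hζ h0), map_zpow (rotU ζ hζ h0), rotU_yU, map_zpow cstU, mul_zpow,
      zpow_neg (cstU (Units.mk0 ζ h0)), mul_left_comm (rotU ζ hζ h0 h), mul_inv_cancel_left]
  rw [h2, Units.val_mul]
  refine R14_res_mul P _ _ _ _ ?_ h1
  have h3 : ((cstU (Units.mk0 ζ h0 ^ ord P h) : (Fn ℓ f)ˣ) : Fn ℓ f) = cst (ζ ^ ord P h) := by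
    rw [R14_cstU_coe]
    congr 1
    rw [Units.val_zpow_eq_zpow_val, Units.val_mk0]
  rw [h3]
  exact R14_res_cst P _

private lemma R14_symU (P : Pt ℓ f) (hP : P.y = 0) (σ : Sym f) (hP' : (P.sym σ).y = 0)
    (h : (Fn ℓ f)ˣ) :
    (R14_lc (P.sym σ) hP' (symU σ h) : E) = (σ : E ≃+* E) (R14_lc P hP h : E) := by
  apply R14_lc_eq
  rw [ord_symU]
  have h2 : (symU σ h * yU ^ (-ord P h) : (Fn ℓ f)ˣ) = symU σ (h * yU ^ (-ord P h)) := by
    rw [map_mul (symU σ), map_zpow (symU σ), symU_yU]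
  rw [h2]
  refine R14_res_aut (symE ℓ σ) P (P.sym σ) ?_ _ _ _ ?_ (R14_lc_spec P hP h)
  · intro a
    rw [evalPt_symE]
    exact map_eq_zero_iff _ (RingEquiv.injective _)
  · have h3 := coordMap_ofPoly (ℓ := ℓ) ((σ : E ≃+* E) : E →+* E) σ.2 (C (R14_lc P hP h : E))
    rw [Polynomial.map_C] at h3
    exact h3

private lemma R14_lc_cst (P : Pt ℓ f) (hP : P.y = 0) (c : Eˣ) :
    R14_lc P hP (cstU c) = c := by
  apply Units.ext
  apply R14_lc_eq
  rw [ord_cstU, neg_zero, zpow_zero, mul_one]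
  exact R14_res_cst P _

private lemma R14_lc_xs (P : Pt ℓ f) (hP : P.y = 0) (a : E) (ha : a ≠ P.x) :
    (R14_lc P hP (xs a) : E) = P.x - a := by
  apply R14_lc_eq
  rw [ord_xs_of_ne P (Ne.symm ha), neg_zero, zpow_zero, mul_one]
  have h := R14_res_alg P (ofPoly (X - C a))
  rw [evalPt_ofPoly, eval_sub, eval_X, eval_C] at h
  exact h

private lemma R14_lc_yU (P : Pt ℓ f) (hP : P.y = 0) : R14_lc P hP yU = 1 := by
  apply Units.ext
  apply R14_lc_eq
  rw [ord_yU_of_ramified P hP, zpow_neg_one, mul_inv_cancel, Units.val_one, Units.val_one]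
  exact R14_res_one P

private lemma R14_lc_xs_self (P : Pt ℓ f) (hP : P.y = 0) :
    (R14_lc P hP (xs P.x) : E) = ((derivative f).eval P.x)⁻¹ := by
  have hroot : f.eval P.x = 0 := by
    rw [← P.eq, hP, zero_pow hG.prime.ne_zero]
  obtain ⟨g, hg⟩ := Polynomial.dvd_iff_isRoot.mpr hroot
  have hder : (derivative f).eval P.x = g.eval P.x := by
    have h5 := congrArg (fun q : E[X] => (derivative q).eval P.x) hg
    simp only [derivative_mul, derivative_X_sub_C, one_mul, eval_add, eval_mul, eval_sub, eval_X,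
      eval_C, sub_self, zero_mul, add_zero] at h5
    exact h5
  have hrel : ((xs P.x * yU ^ (-ord P (xs P.x)) : (Fn ℓ f)ˣ) : Fn ℓ f) *
      algebraMap (Coord ℓ f) (Fn ℓ f) (ofPoly g) = 1 := by
    rw [ord_xs_of_ramified P hP, zpow_neg, zpow_natCast, Units.val_mul, Units.val_inv_eq_inv_val,
      Units.val_pow_eq_pow_val]
    change algebraMap (Coord ℓ f) (Fn ℓ f) (ofPoly (X - C P.x)) *
      ((algebraMap (Coord ℓ f) (Fn ℓ f) yy) ^ ℓ)⁻¹ * algebraMap (Coord ℓ f) (Fn ℓ f) (ofPoly g) = 1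
    have h1 : (algebraMap (Coord ℓ f) (Fn ℓ f) yy) ^ ℓ =
        algebraMap (Coord ℓ f) (Fn ℓ f) (ofPoly (X - C P.x)) *
          algebraMap (Coord ℓ f) (Fn ℓ f) (ofPoly g) := by
      rw [← map_pow, yy_pow, ← map_mul (algebraMap (Coord ℓ f) (Fn ℓ f)), ← map_mul ofPoly, ← hg]
    have h2 : (algebraMap (Coord ℓ f) (Fn ℓ f) yy) ^ ℓ ≠ 0 := pow_ne_zero _ algebraMap_yy_ne_zero
    rw [mul_right_comm, ← h1, mul_inv_cancel₀ h2]
  have h3 := R14_res_mul P _ _ _ _ (R14_lc_spec P hP (xs P.x)) (R14_res_alg P (ofPoly g))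
  rw [hrel, evalPt_ofPoly] at h3
  have h4 := R14_res_unique P _ _ _ h3 (R14_res_one P)
  rw [hder]
  exact eq_inv_of_mul_eq_one_left h4

lemma exists_lc : ∃ lc : E → (Fn ℓ f)ˣ →* Eˣ, ∀ θ, f.eval θ = 0 →
    (∀ c : Eˣ, lc θ (cstU c) = c) ∧
    (∀ a, (h : a ≠ θ) → (lc θ (xs a) : E) = θ - a) ∧
    ((lc θ (xs θ) : E) = ((derivative f).eval θ)⁻¹) ∧
    (lc θ yU = 1) ∧
    (∀ (ζ : E) (hζ : ζ ^ ℓ = 1) (h0 : ζ ≠ 0) (h : (Fn ℓ f)ˣ),
      (lc θ (rotU ζ hζ h0 h) : E) = ζ ^ ordR θ h * lc θ h) ∧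
    (∀ (σ : Sym f) (h : (Fn ℓ f)ˣ),
      (lc ((σ : E ≃+* E) θ) (symU σ h) : E) = (σ : E ≃+* E) (lc θ h : E)) := by
  have key : ∀ θ (hθ : f.eval θ = 0), (if hθ : f.eval θ = 0 then
      R14_hom (ramPt hG.prime.ne_zero hθ : Pt ℓ f) rfl else 1 : (Fn ℓ f)ˣ →* Eˣ) =
      R14_hom (ramPt hG.prime.ne_zero hθ : Pt ℓ f) rfl := fun θ hθ => dif_pos hθ
  refine ⟨fun θ => if hθ : f.eval θ = 0 then
    R14_hom (ramPt hG.prime.ne_zero hθ : Pt ℓ f) rfl else 1, ?_⟩
  intro θ hθ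
  have hord : ∀ h : (Fn ℓ f)ˣ, ordR θ h = ord (ramPt hG.prime.ne_zero hθ) h :=
    fun h => dif_pos hθ
  simp only [key θ hθ]
  refine ⟨?_, ?_, ?_, ?_, ?_, ?_⟩
  · intro c
    exact R14_lc_cst (ramPt hG.prime.ne_zero hθ : Pt ℓ f) rfl c
  · intro a ha
    exact R14_lc_xs (ramPt hG.prime.ne_zero hθ : Pt ℓ f) rfl a ha
  · exact R14_lc_xs_self (ramPt hG.prime.ne_zero hθ : Pt ℓ f) rfl
  · exact R14_lc_yU (ramPt hG.prime.ne_zero hθ : Pt ℓ f) rfl
  · intro ζ hζ h0 h
    rw [hord]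
    exact R14_rotU (ramPt hG.prime.ne_zero hθ : Pt ℓ f) rfl ζ hζ h0 h
  · intro σ h
    have hθ' : f.eval ((σ : E ≃+* E) θ) = 0 := by
      have h1 : f.map (((σ : E ≃+* E) : E →+* E)) = f := σ.2
      have h2 : (f.map (((σ : E ≃+* E) : E →+* E))).eval (((σ : E ≃+* E) : E →+* E) θ) = 0 := by
        rw [Polynomial.eval_map_apply, hθ, map_zero]
      rw [h1] at h2
      exact h2
    rw [key _ hθ']
    have hpt : (ramPt hG.prime.ne_zero hθ' : Pt ℓ f) =
        (ramPt hG.prime.ne_zero hθ : Pt ℓ f).sym σ := by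
      ext
      · rfl
      · exact (map_zero (σ : E ≃+* E)).symm
    have h3 := R14_symU (ramPt hG.prime.ne_zero hθ : Pt ℓ f) rfl σ
      (by rw [← hpt]; rfl) h
    change (R14_lc (ramPt hG.prime.ne_zero hθ' : Pt ℓ f) rfl (symU σ h) : E) = _
    have h4 : ∀ (Q Q' : Pt ℓ f) (hQ : Q.y = 0) (hQ' : Q'.y = 0), Q = Q' → ∀ u : (Fn ℓ f)ˣ,
        R14_lc Q hQ u = R14_lc Q' hQ' u := by
      rintro Q _ hQ hQ' rfl u
      rfl
    rw [h4 _ _ rfl (by rw [← hpt]; rfl) hpt]
    exact h3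

/-- The leading coefficient at `(θ, 0)`. -/
noncomputable def lc (θ : E) : (Fn ℓ f)ˣ →* Eˣ := (exists_lc (ℓ := ℓ) (f := f)).choose θ

lemma lc_spec {θ : E} (hθ : f.eval θ = 0) :
    (∀ c : Eˣ, lc θ (cstU c : (Fn ℓ f)ˣ) = c) ∧
    (∀ a, (h : a ≠ θ) → (lc θ (xs a : (Fn ℓ f)ˣ) : E) = θ - a) ∧
    ((lc θ (xs θ : (Fn ℓ f)ˣ) : E) = ((derivative f).eval θ)⁻¹) ∧
    (lc θ (yU : (Fn ℓ f)ˣ) = 1) ∧
    (∀ (ζ : E) (hζ : ζ ^ ℓ = 1) (h0 : ζ ≠ 0) (h : (Fn ℓ f)ˣ),
      (lc θ (rotU ζ hζ h0 h) : E) = ζ ^ ordR θ h * lc θ h) ∧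
    (∀ (σ : Sym f) (h : (Fn ℓ f)ˣ),
      (lc ((σ : E ≃+* E) θ) (symU σ h) : E) = (σ : E ≃+* E) (lc θ h : E)) :=
  (exists_lc (ℓ := ℓ) (f := f)).choose_spec θ hθ

end Pool.Agent.Lib.MP_89bcae_ag.Sup

end

section

/-!
ROW R15 (80-160 lines). Divisors of rotated functions, of `x - a`, of `y`.

PROOF. `div` is `P ↦ ord P`. `ord P (rot⁻¹ u) = ord (P.rot ζ⁻¹) u` (`ord_rotU` applied to
`rot⁻¹ u`), i.e. `div (rot⁻¹ u)` is the image of `div u` under `P ↦ P.rot ζ`
(`Finsupp.mapDomain_apply` for the injective map `Pt.rot`). Same for `symU` (`ord_symU`).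
`div (x - a)`: the points above `a` are the `(a, ζ^i b)`, `i < ℓ`; if `b ≠ 0` they are distinct and
the order of `x - a` is `1` at each of them (`ord_xs_of_unramified`); if `b = 0` they all coincide
and the order is `ℓ` (`ord_xs_of_ramified`). `div y` : `ord_yU_...`.
-/

open Polynomial IsDedekindDomain

open scoped Classical

namespace Pool.Agent.Lib.MP_89bcae_ag.Sup

universe u

variable {ℓ : ℕ} {E : Type u} [Field E] {f : E[X]} [hG : IsGood ℓ f]

lemma R15_root (P : Pt ℓ f) (h : P.y = 0) : f.eval P.x = 0 := by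
  rw [← P.eq, h, zero_pow hG.prime.ne_zero]

lemma ramDiv_finite (e : E → ℤ) :
    (Function.support fun P : Pt ℓ f => if P.y = 0 then e P.x else 0).Finite := by
  have hf0 : f ≠ 0 := by
    intro h
    have := IsGood.natDegree_ne_zero (ℓ := ℓ) (f := f)
    rw [h] at this
    exact this natDegree_zero
  have hfin : {P : Pt ℓ f | P.y = 0}.Finite := by
    apply Set.Finite.of_finite_image (f := Pt.x)
    · apply (f.roots.toFinset.finite_toSet).subset
      rintro _ ⟨P, hP, rfl⟩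
      rw [Finset.mem_coe, Multiset.mem_toFinset, mem_roots hf0]
      exact R15_root P hP
    · intro P hP Q hQ hx
      ext
      · exact hx
      · rw [show P.y = 0 from hP, show Q.y = 0 from hQ]
  apply hfin.subset
  intro P hP
  by_contra h
  apply hP
  exact if_neg h

/-- The divisor `∑ e(θ) (θ, 0)` over the roots `θ` of `f`. -/
noncomputable def ramDiv (e : E → ℤ) : Pt ℓ f →₀ ℤ :=
  Finsupp.ofSupportFinite (fun P => if P.y = 0 then e P.x else 0) (ramDiv_finite e)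

@[simp] lemma ramDiv_apply (e : E → ℤ) (P : Pt ℓ f) :
    ramDiv e P = if P.y = 0 then e P.x else 0 := rfl

lemma ramDiv_add (e e' : E → ℤ) :
    (ramDiv (fun θ => e θ + e' θ) : Pt ℓ f →₀ ℤ) = ramDiv e + ramDiv e' := by
  ext P
  rw [Finsupp.add_apply, ramDiv_apply, ramDiv_apply, ramDiv_apply]
  split_ifs <;> simp

lemma ramDiv_sub (e e' : E → ℤ) :
    (ramDiv (fun θ => e θ - e' θ) : Pt ℓ f →₀ ℤ) = ramDiv e - ramDiv e' := by
  ext P
  rw [Finsupp.sub_apply, ramDiv_apply, ramDiv_apply, ramDiv_apply]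
  split_ifs <;> simp

lemma ramDiv_smul (n : ℤ) (e : E → ℤ) :
    (ramDiv (fun θ => n * e θ) : Pt ℓ f →₀ ℤ) = n • ramDiv e := by
  ext P
  rw [Finsupp.smul_apply, ramDiv_apply, ramDiv_apply]
  split_ifs <;> simp

lemma ramDiv_congr (e e' : E → ℤ) (h : ∀ θ, f.eval θ = 0 → e θ = e' θ) :
    (ramDiv e : Pt ℓ f →₀ ℤ) = ramDiv e' := by
  ext P
  rw [ramDiv_apply, ramDiv_apply]
  split_ifs with hP
  · exact h _ (R15_root P hP)
  · rfl

omit hG in
lemma R15_sym_inv (σ : Sym f) (Q : Pt ℓ f) : (Q.sym σ⁻¹).sym σ = Q := by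
  ext
  · exact (σ : E ≃+* E).apply_symm_apply Q.x
  · exact (σ : E ≃+* E).apply_symm_apply Q.y

omit hG in
lemma R15_sym_inj (σ : Sym f) : Function.Injective (Pt.sym (ℓ := ℓ) σ) := by
  intro P Q h
  ext
  · exact (σ : E ≃+* E).injective (congrArg Pt.x h)
  · exact (σ : E ≃+* E).injective (congrArg Pt.y h)

omit hG in
lemma R15_ne (hℓ : ℓ ≠ 0) (ζ : E) (hζ : ζ ^ ℓ = 1) : ζ ≠ 0 := by
  intro h
  rw [h, zero_pow hℓ] at hζ
  exact zero_ne_one hζ

lemma R15_rot_inj (ζ : E) (hζ : ζ ^ ℓ = 1) :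
    Function.Injective (Pt.rot (f := f) ζ hζ) := by
  intro P Q h
  have h1 := congrArg Pt.x h
  have h2 : ζ * P.y = ζ * Q.y := congrArg Pt.y h
  ext
  · exact h1
  · exact mul_left_cancel₀ (R15_ne hG.prime.ne_zero ζ hζ) h2

lemma R15_rot_inv (ζ : E) (hζ : ζ ^ ℓ = 1) (Q : Pt ℓ f) :
    (Q.rot ζ⁻¹ (by rw [inv_pow, hζ, inv_one])).rot ζ hζ = Q := by
  ext
  · rfl
  · exact mul_inv_cancel_left₀ (R15_ne hG.prime.ne_zero ζ hζ) Q.y

omit hG in
lemma R15_iter (ζ : E) (hζ : ζ ^ ℓ = 1) (P : Pt ℓ f) (n : ℕ) :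
    ((Pt.rot ζ hζ)^[n] P).x = P.x ∧ ((Pt.rot ζ hζ)^[n] P).y = ζ ^ n * P.y := by
  induction n with
  | zero => simp
  | succ n ih =>
    rw [Function.iterate_succ_apply']
    refine ⟨ih.1, ?_⟩
    show ζ * ((Pt.rot ζ hζ)^[n] P).y = _
    rw [ih.2, pow_succ]
    ring

lemma mapDomain_sym_ramDiv (σ : Sym f) (e : E → ℤ) :
    (ramDiv e : Pt ℓ f →₀ ℤ).mapDomain (Pt.sym σ) =
      ramDiv fun θ => e (((σ⁻¹ : Sym f) : E ≃+* E) θ) := by
  ext Q
  conv_lhs => rw [← R15_sym_inv σ Q]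
  rw [Finsupp.mapDomain_apply (R15_sym_inj σ), ramDiv_apply, ramDiv_apply]
  have h1 : (Q.sym σ⁻¹).y = 0 ↔ Q.y = 0 :=
    map_eq_zero_iff (((σ⁻¹ : Sym f) : E ≃+* E)) (RingEquiv.injective _)
  by_cases hQ : Q.y = 0
  · rw [if_pos hQ, if_pos (h1.mpr hQ)]
    rfl
  · rw [if_neg hQ, if_neg (fun h => hQ (h1.mp h))]

lemma mapDomain_rot_ramDiv (ζ : E) (hζ : ζ ^ ℓ = 1) (e : E → ℤ) :
    (ramDiv e : Pt ℓ f →₀ ℤ).mapDomain (Pt.rot ζ hζ) = ramDiv e := by
  ext Q
  conv_lhs => rw [← R15_rot_inv ζ hζ Q]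
  rw [Finsupp.mapDomain_apply (R15_rot_inj ζ hζ), ramDiv_apply, ramDiv_apply]
  have h1 : (Q.rot ζ⁻¹ (by rw [inv_pow, hζ, inv_one])).y = 0 ↔ Q.y = 0 := by
    show ζ⁻¹ * Q.y = 0 ↔ Q.y = 0
    rw [mul_eq_zero, inv_eq_zero]
    constructor
    · rintro (h | h)
      · exact absurd h (R15_ne hG.prime.ne_zero ζ hζ)
      · exact h
    · exact Or.inr
  by_cases hQ : Q.y = 0
  · rw [if_pos hQ, if_pos (h1.mpr hQ)]
    rfl
  · rw [if_neg hQ, if_neg (fun h => hQ (h1.mp h))]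

/-- The coefficient of a divisor at `(θ, 0)` (zero if `θ` is not a root of `f`). -/
noncomputable def atR (D : Pt ℓ f →₀ ℤ) (θ : E) : ℤ :=
  if hθ : f.eval θ = 0 then D ⟨θ, 0, by rw [zero_pow hG.prime.ne_zero, hθ]⟩ else 0

lemma div_rotU_symm (ζ : E) (hζ : ζ ^ ℓ = 1) (h0 : ζ ≠ 0) (u : (Fn ℓ f)ˣ) :
    div ((rotU ζ hζ h0).symm u) = (div u).mapDomain (Pt.rot ζ hζ) := by
  ext Q
  conv_rhs => rw [← R15_rot_inv ζ hζ Q]
  rw [Finsupp.mapDomain_apply (R15_rot_inj ζ hζ), div_apply, div_apply]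
  have h1 := ord_rotU ζ hζ h0 (Q.rot ζ⁻¹ (by rw [inv_pow, hζ, inv_one]))
    ((rotU ζ hζ h0).symm u)
  rw [MulEquiv.apply_symm_apply, R15_rot_inv] at h1
  exact h1.symm

lemma div_symU (σ : Sym f) (u : (Fn ℓ f)ˣ) :
    div (symU σ u) = (div u).mapDomain (Pt.sym σ) := by
  ext Q
  conv_rhs => rw [← R15_sym_inv σ Q]
  rw [Finsupp.mapDomain_apply (R15_sym_inj σ), div_apply, div_apply]
  have h1 := ord_symU σ (Q.sym σ⁻¹) u
  rw [R15_sym_inv] at h1
  exact h1

lemma div_xs (ζ : E) (hζ : IsPrimitiveRoot ζ ℓ) (P : Pt ℓ f) :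
    div (xs P.x : (Fn ℓ f)ˣ) =
      ∑ i ∈ Finset.range ℓ, Finsupp.single ((Pt.rot ζ hζ.pow_eq_one)^[i] P) 1 := by
  have hℓ0 : ℓ ≠ 0 := hG.prime.ne_zero
  have : NeZero ℓ := ⟨hℓ0⟩
  ext Q
  rw [div_apply, Finsupp.finsetSum_apply]
  simp only [Finsupp.single_apply]
  by_cases hx : Q.x = P.x
  · by_cases hy : Q.y = 0
    · have hPy : P.y = 0 := by
        have h1 := P.eq
        rw [← hx, ← Q.eq, hy, zero_pow hℓ0] at h1
        exact (pow_eq_zero_iff hℓ0).mp h1
      rw [← hx, ord_xs_of_ramified Q hy]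
      have h2 : ∀ i ∈ Finset.range ℓ, (if (Pt.rot ζ hζ.pow_eq_one)^[i] P = Q then (1 : ℤ) else 0) =
          1 := by
        intro i _
        rw [if_pos]
        ext
        · rw [(R15_iter ζ hζ.pow_eq_one P i).1, hx]
        · rw [(R15_iter ζ hζ.pow_eq_one P i).2, hPy, hy, mul_zero]
      rw [Finset.sum_congr rfl h2]
      simp
    · rw [← hx, ord_xs_of_unramified Q hy]
      have hPy : P.y ≠ 0 := by
        intro h
        apply hy
        have h1 := Q.eq
        rw [hx, ← P.eq, h, zero_pow hℓ0] at h1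
        exact (pow_eq_zero_iff hℓ0).mp h1
      have h5 : (Q.y / P.y) ^ ℓ = 1 := by
        rw [div_pow, Q.eq, P.eq, hx, div_self]
        rw [← P.eq]
        exact pow_ne_zero ℓ hPy
      obtain ⟨i, hi, he⟩ := hζ.eq_pow_of_pow_eq_one h5
      symm
      rw [Finset.sum_eq_single i]
      · rw [if_pos]
        ext
        · rw [(R15_iter ζ hζ.pow_eq_one P i).1, hx]
        · rw [(R15_iter ζ hζ.pow_eq_one P i).2, he, div_mul_cancel₀ _ hPy]
      · intro j hj hji
        rw [if_neg]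
        intro h
        apply hji
        have h6 := congrArg Pt.y h
        rw [(R15_iter ζ hζ.pow_eq_one P j).2] at h6
        have h7 : ζ ^ j = ζ ^ i := by
          rw [he, eq_div_iff hPy]
          exact h6
        exact hζ.pow_inj (Finset.mem_range.mp hj) hi h7
      · intro h
        exact absurd (Finset.mem_range.mpr hi) h
  · rw [ord_xs_of_ne Q hx]
    symm
    apply Finset.sum_eq_zero
    intro i _
    rw [if_neg]
    intro h
    apply hx
    rw [← h, (R15_iter ζ hζ.pow_eq_one P i).1]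

lemma div_yU : div (yU : (Fn ℓ f)ˣ) = ramDiv fun _ => 1 := by
  ext P
  rw [div_apply, ramDiv_apply]
  split_ifs with h
  · exact ord_yU_of_ramified P h
  · exact ord_yU_of_ne P h

end Pool.Agent.Lib.MP_89bcae_ag.Sup

end

section

/-!
ROW R16 (80-150 lines). The automorphism `Z` of the Jacobian induced by `(x, y) ↦ (x, ζ y)`.

PROOF. `cl` is surjective with kernel the divisors of functions (R08), and this kernel is stable
under `D ↦ D.mapDomain (Pt.rot ζ)` because `(div u).mapDomain (rot) = div (rot⁻¹ u)`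
(`div_rotU_symm`); so `Z` exists (e.g. via `QuotientAddGroup.lift`, or choose for each class a
divisor). `∑_{i<ℓ} Z^i [P] = cl (div (x - P.x)) = 0` by `div_xs`, and these classes generate.
The classes of the points generate, so `Z` commutes with `symJ σ` if `σ ζ = ζ` as
`(P.rot ζ).sym σ = (P.sym σ).rot ζ`; and with `jacMap ℓ σ` (`ζ ↦ σ ζ`) for a homomorphism `σ`.
-/

open Polynomial IsDedekindDomain

open scoped Classical

namespace Pool.Agent.Lib.MP_89bcae_ag.Sup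

universe u

variable {ℓ : ℕ} {E : Type u} [Field E] {f : E[X]} [hG : IsGood ℓ f]

lemma exists_zJ (ζ : E) (hζ : ζ ^ ℓ = 1) : ∃ Z : Jac ℓ f →+ Jac ℓ f, ∀ D : Pt ℓ f →₀ ℤ,
    Z (cl D) = cl (D.mapDomain (Pt.rot ζ hζ)) := by
  have h0 : ζ ≠ 0 := by
    intro h
    rw [h, zero_pow hG.prime.ne_zero] at hζ
    exact zero_ne_one hζ
  set g : (Pt ℓ f →₀ ℤ) →+ Jac ℓ f :=
    (cl : (Pt ℓ f →₀ ℤ) →+ Jac ℓ f).comp (Finsupp.mapDomain.addMonoidHom (Pt.rot ζ hζ)) with hg
  have hker : (cl : (Pt ℓ f →₀ ℤ) →+ Jac ℓ f).ker ≤ g.ker := by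
    intro D hD
    rw [AddMonoidHom.mem_ker] at hD ⊢
    obtain ⟨u, hu⟩ := exists_div_of_cl_eq_zero D hD
    change cl (D.mapDomain (Pt.rot ζ hζ)) = 0
    rw [← hu, ← div_rotU_symm ζ hζ h0, cl_div]
  refine ⟨(cl : (Pt ℓ f →₀ ℤ) →+ Jac ℓ f).liftOfSurjective cl_surjective ⟨g, hker⟩,
    fun D => ?_⟩
  exact AddMonoidHom.liftOfRightInverse_comp_apply _ _ _ ⟨g, hker⟩ D

/-- The automorphism of the Jacobian induced by `(x, y) ↦ (x, ζ y)`. -/
noncomputable def zJ (ζ : E) (hζ : ζ ^ ℓ = 1) : Jac ℓ f →+ Jac ℓ f := (exists_zJ ζ hζ).choose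

lemma zJ_cl (ζ : E) (hζ : ζ ^ ℓ = 1) (D : Pt ℓ f →₀ ℤ) :
    zJ ζ hζ (cl D) = cl (D.mapDomain (Pt.rot ζ hζ)) := (exists_zJ ζ hζ).choose_spec D

lemma sum_zJ (ζ : E) (hζ : IsPrimitiveRoot ζ ℓ) (Q : Jac ℓ f) :
    ∑ i ∈ Finset.range ℓ, (zJ ζ hζ.pow_eq_one)^[i] Q = 0 := by
  have hit : ∀ (i : ℕ) (D : Pt ℓ f →₀ ℤ), (zJ ζ hζ.pow_eq_one)^[i] (cl D) =
      cl (D.mapDomain ((Pt.rot ζ hζ.pow_eq_one)^[i])) := by
    intro i D
    induction i with
    | zero =>
      rw [Function.iterate_zero, Function.iterate_zero, id_eq, Finsupp.mapDomain_id]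
    | succ i ih =>
      rw [Function.iterate_succ_apply', ih, zJ_cl, ← Finsupp.mapDomain_comp,
        Function.iterate_succ']
  obtain ⟨D, rfl⟩ := cl_surjective Q
  rw [Finset.sum_congr rfl fun i _ => hit i D]
  induction D using Finsupp.induction_linear with
  | zero =>
    refine Finset.sum_eq_zero fun i _ => ?_
    rw [Finsupp.mapDomain_zero, map_zero]
  | add D D' h h' =>
    rw [Finset.sum_congr rfl fun i _ => by rw [Finsupp.mapDomain_add, map_add],
      Finset.sum_add_distrib, h, h', add_zero]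
  | single P n =>
    have h1 : ∀ i ∈ Finset.range ℓ, cl ((Finsupp.single P n).mapDomain
        ((Pt.rot ζ hζ.pow_eq_one)^[i])) =
        n • cl (Finsupp.single ((Pt.rot ζ hζ.pow_eq_one)^[i] P) (1 : ℤ)) := by
      intro i _
      rw [Finsupp.mapDomain_single, ← map_zsmul, Finsupp.smul_single, smul_eq_mul, mul_one]
    rw [Finset.sum_congr rfl h1, ← Finset.smul_sum, ← map_sum, ← div_xs ζ hζ P, cl_div,
      smul_zero]

lemma zJ_symJ (ζ : E) (hζ : ζ ^ ℓ = 1) (σ : Sym f) (hσ : (σ : E ≃+* E) ζ = ζ) (Q : Jac ℓ f) :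
    zJ ζ hζ (symJ σ Q) = symJ σ (zJ ζ hζ Q) := by
  obtain ⟨D, rfl⟩ := cl_surjective Q
  rw [symJ_cl, zJ_cl, zJ_cl, symJ_cl, ← Finsupp.mapDomain_comp, ← Finsupp.mapDomain_comp]
  congr 2
  funext P
  apply Pt.ext
  · rfl
  · change ζ * (σ : E ≃+* E) P.y = (σ : E ≃+* E) (ζ * P.y)
    rw [map_mul, hσ]

lemma zJ_jacMap {E' : Type u} [Field E'] {f' : E'[X]} [hG' : IsGood ℓ f'] (σ : E →+* E')
    (h : f.map σ = f') (ζ : E) (hζ : ζ ^ ℓ = 1) (hζ' : (σ ζ) ^ ℓ = 1) (Q : Jac ℓ f) :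
    zJ (σ ζ) hζ' (jacMap ℓ σ h Q) = jacMap ℓ σ h (zJ ζ hζ Q) := by
  obtain ⟨D, rfl⟩ := cl_surjective Q
  rw [jacMap_cl, zJ_cl, zJ_cl, jacMap_cl, ← Finsupp.mapDomain_comp, ← Finsupp.mapDomain_comp]
  congr 2
  funext P
  apply Pt.ext
  · rfl
  · change σ ζ * σ P.y = σ (ζ * P.y)
    rw [map_mul]

end Pool.Agent.Lib.MP_89bcae_ag.Sup

end

section

/-!
ROW R19 (60-120 lines). `π = 1 - Z` is surjective on the Jacobian.

PROOF. The classes of points generate the Jacobian (`cl_surjective`) and the image of `π` is a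
subgroup, so it is enough to treat `Q = cl (single P 1)`. By R12 there is `h` with
`nrm h = x - P.x`. By `exists_nrm_eq` (R10), `x - P.x = c · xprod (div h)`, so
(`xprod D = ∏ (x - P'.x)^{D P'}`; the exponents of the linear factors are determined: the order of
`∏ (x - a)^{n_a}` at a point above `a` is `n_a` or `ℓ n_a`) the sum of `div h - single P 1` over each
fibre `{P' | P'.x = a}` is zero. A divisor with sum zero over each fibre is of the form
`D - rot_* D`: a fibre consists of the points `P', P'.rot, ..., P'.rot^(ℓ-1)` and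
`single (P'.rot^i) 1 - single P' 1` is `D - rot_* D` for `D = -∑_{j<i} single (P'.rot^j) 1`.
Hence `Q = cl (single P 1) = cl (single P 1 - div h) = π (cl D)`.
-/

open Polynomial IsDedekindDomain

open scoped Classical

namespace Pool.Agent.Lib.MP_89bcae_ag.Sup

universe u

variable {ℓ : ℕ} {E : Type u} [Field E] {f : E[X]} [hG : IsGood ℓ f]

/-- there is a point above every `a` -/
lemma r19_exists_pt (ℓ : ℕ) (f : E[X]) [hG : IsGood ℓ f] (a : E) : ∃ R : Pt ℓ f, R.x = a := by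
  have := hG.alg
  obtain ⟨y, hy⟩ := IsAlgClosed.exists_pow_nat_eq (f.eval a) hG.prime.pos
  exact ⟨⟨a, y, hy⟩, rfl⟩

omit hG in
lemma r19_iter (ζ : E) (hζ : ζ ^ ℓ = 1) (R : Pt ℓ f) (i : ℕ) :
    ((Pt.rot ζ hζ)^[i] R).x = R.x ∧ ((Pt.rot ζ hζ)^[i] R).y = ζ ^ i * R.y := by
  induction i with
  | zero => simp
  | succ n ih =>
    rw [Function.iterate_succ_apply']
    refine ⟨ih.1, ?_⟩
    change ζ * _ = _
    rw [ih.2, pow_succ]
    ring

/-- two points of a fibre differ by a rotation -/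
lemma r19_fibre (ζ : E) (hζ : IsPrimitiveRoot ζ ℓ) (R P : Pt ℓ f) (h : P.x = R.x) :
    ∃ i : ℕ, P = (Pt.rot ζ hζ.pow_eq_one)^[i] R := by
  have he : P.y ^ ℓ = R.y ^ ℓ := by rw [P.eq, R.eq, h]
  by_cases h0 : R.y = 0
  · refine ⟨0, ?_⟩
    rw [h0, zero_pow hG.prime.ne_zero] at he
    have : P.y = 0 := eq_zero_of_pow_eq_zero he
    ext
    · simpa using h
    · simpa using this.trans h0.symm
  · have h1 : (P.y / R.y) ^ ℓ = 1 := by
      rw [div_pow, he, div_self (pow_ne_zero _ h0)]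
    have := NeZero.mk hG.prime.ne_zero
    obtain ⟨i, -, hi⟩ := hζ.eq_pow_of_pow_eq_one h1
    refine ⟨i, ?_⟩
    obtain ⟨a1, a2⟩ := r19_iter ζ hζ.pow_eq_one R i
    ext
    · rw [a1, h]
    · rw [a2, hi, div_mul_cancel₀ _ h0]

/-- the homomorphism `1 - Z` -/
noncomputable def r19_pi (ζ : E) (hζ : IsPrimitiveRoot ζ ℓ) : Jac ℓ f →+ Jac ℓ f :=
  AddMonoidHom.id _ - zJ ζ hζ.pow_eq_one

lemma r19_pi_apply (ζ : E) (hζ : IsPrimitiveRoot ζ ℓ) (Q : Jac ℓ f) :
    r19_pi ζ hζ Q = Q - zJ ζ hζ.pow_eq_one Q := rfl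

lemma r19_step (ζ : E) (hζ : IsPrimitiveRoot ζ ℓ) (R : Pt ℓ f) (i : ℕ) :
    cl (Finsupp.single ((Pt.rot ζ hζ.pow_eq_one)^[i] R) 1) - cl (Finsupp.single R 1) ∈
      (r19_pi ζ hζ : Jac ℓ f →+ Jac ℓ f).range := by
  induction i with
  | zero => simp
  | succ n ih =>
    rw [Function.iterate_succ_apply']
    set S := (Pt.rot ζ hζ.pow_eq_one)^[n] R with hS
    have h1 : cl (Finsupp.single (Pt.rot ζ hζ.pow_eq_one S) 1) - cl (Finsupp.single S 1) ∈
        (r19_pi ζ hζ : Jac ℓ f →+ Jac ℓ f).range := by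
      refine ⟨-cl (Finsupp.single S 1), ?_⟩
      rw [r19_pi_apply, map_neg, zJ_cl, Finsupp.mapDomain_single]
      abel
    have := add_mem h1 ih
    convert this using 1
    abel

/-- every divisor is congruent to the divisor supported on chosen points of the fibres -/
lemma r19_move (ζ : E) (hζ : IsPrimitiveRoot ζ ℓ) (R : E → Pt ℓ f) (hR : ∀ a, (R a).x = a)
    (D : Pt ℓ f →₀ ℤ) : cl D - cl (D.mapDomain fun P => R P.x) ∈
      (r19_pi ζ hζ : Jac ℓ f →+ Jac ℓ f).range := by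
  induction D using Finsupp.induction_linear with
  | zero => simp
  | add D D' h h' =>
    rw [Finsupp.mapDomain_add, map_add, map_add]
    convert add_mem h h' using 1
    abel
  | single P n =>
    rw [Finsupp.mapDomain_single]
    obtain ⟨i, hi⟩ := r19_fibre ζ hζ (R P.x) P (by rw [hR])
    have h1 := r19_step ζ hζ (R P.x) i
    rw [← hi] at h1
    have h2 := zsmul_mem h1 n
    have e : ∀ S : Pt ℓ f, cl (Finsupp.single S n) = n • cl (Finsupp.single S 1) := by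
      intro S
      rw [← map_zsmul, Finsupp.smul_single, smul_eq_mul, mul_one]
    rw [e, e, ← smul_sub]
    exact h2

lemma r19_ord_prod (P : Pt ℓ f) (G : E →₀ ℤ) :
    ord P (G.prod fun a n => (xs a : (Fn ℓ f)ˣ) ^ n) = G P.x * ord P (xs P.x) := by
  have key : ∀ s : Finset E, ord P (∏ a ∈ s, (xs a : (Fn ℓ f)ˣ) ^ (G a)) =
      ∑ a ∈ s, G a * ord P (xs a) := by
    intro s
    induction s using Finset.induction_on with
    | empty => simp [ord_one]
    | insert a s ha ih => rw [Finset.prod_insert ha, Finset.sum_insert ha, ord_mul, ord_zpow, ih]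
  rw [Finsupp.prod, key]
  by_cases h : P.x ∈ G.support
  · rw [Finset.sum_eq_single_of_mem _ h]
    intro b _ hb
    rw [ord_xs_of_ne P (Ne.symm hb), mul_zero]
  · rw [Finset.sum_eq_zero, Finsupp.notMem_support_iff.1 h, zero_mul]
    intro b hb
    have : P.x ≠ b := fun hh => h (hh ▸ hb)
    rw [ord_xs_of_ne P this, mul_zero]

lemma r19_ord_ne_zero (P : Pt ℓ f) : ord P (xs P.x) ≠ 0 := by
  by_cases h : P.y = 0
  · rw [ord_xs_of_ramified P h]
    exact_mod_cast hG.prime.ne_zero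
  · rw [ord_xs_of_unramified P h]
    exact one_ne_zero

/-- a divisor whose `x`-product is constant has sum zero over every fibre -/
lemma r19_zero (D : Pt ℓ f →₀ ℤ) (c : Eˣ) (h : xprod D = cstU c) :
    D.mapDomain Pt.x = 0 := by
  have h1 : xprod D = (D.mapDomain Pt.x).prod fun a n => (xs a : (Fn ℓ f)ˣ) ^ n := by
    rw [Finsupp.prod_mapDomain_index]
    · rfl
    · intro a
      exact zpow_zero _
    · intro a m n
      exact zpow_add _ _ _
  ext a
  obtain ⟨R, hR⟩ := r19_exists_pt ℓ f a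
  have h2 := r19_ord_prod R (D.mapDomain Pt.x)
  rw [← h1, h, ord_cstU] at h2
  have h3 := (mul_eq_zero.1 h2.symm).resolve_right (r19_ord_ne_zero R)
  rw [hR] at h3
  simpa using h3

lemma exists_sub_zJ (ζ : E) (hζ : IsPrimitiveRoot ζ ℓ) (Q : Jac ℓ f) :
    ∃ Q' : Jac ℓ f, Q' - zJ ζ hζ.pow_eq_one Q' = Q := by
  have h0 : ζ ≠ 0 := hζ.ne_zero hG.prime.ne_zero
  choose R hR using r19_exists_pt ℓ f
  have hpt : ∀ P : Pt ℓ f, cl (Finsupp.single P 1) ∈
      (r19_pi ζ hζ : Jac ℓ f →+ Jac ℓ f).range := by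
    intro P
    obtain ⟨h, hh⟩ := exists_nrm_eq_xs (f := f) ζ hζ h0 P.x
    obtain ⟨c, hc⟩ := exists_nrm_eq ζ hζ h0 h
    have h1 : xprod (div h - Finsupp.single P 1) = cstU c⁻¹ := by
      have e1 : xprod (div h - Finsupp.single P 1) * xprod (Finsupp.single P 1) =
          xprod (div h) := by
        rw [← xprod_add, sub_add_cancel]
      have e2 : xprod (Finsupp.single P 1) = (xs P.x : (Fn ℓ f)ˣ) := by
        unfold xprod
        rw [Finsupp.prod_single_index (zpow_zero _), zpow_one]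
      rw [e2, ← hh, hc] at e1
      have e3 : xprod (div h) * (xprod (div h - Finsupp.single P 1) * cstU c) =
          xprod (div h) * 1 := by
        rw [mul_one]
        conv_rhs => rw [← e1]
        rw [mul_comm, mul_assoc]
      have e4 := mul_left_cancel e3
      rw [map_inv]
      exact eq_inv_of_mul_eq_one_left e4
    have h2 := r19_zero _ _ h1
    have h3 := r19_move ζ hζ R hR (div h - Finsupp.single P 1)
    have h4 : (div h - Finsupp.single P 1).mapDomain (fun P : Pt ℓ f => R P.x) = 0 := by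
      have : (fun P : Pt ℓ f => R P.x) = R ∘ Pt.x := rfl
      rw [this, Finsupp.mapDomain_comp, h2, Finsupp.mapDomain_zero]
    rw [h4, map_zero, sub_zero, map_sub, cl_div, zero_sub] at h3
    exact neg_mem_iff.1 h3
  obtain ⟨D, rfl⟩ := cl_surjective (ℓ := ℓ) (f := f) Q
  have hD : cl D ∈ (r19_pi ζ hζ : Jac ℓ f →+ Jac ℓ f).range := by
    induction D using Finsupp.induction_linear with
    | zero => simp
    | add D D' h h' =>
      rw [map_add]
      exact add_mem h h'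
    | single P n =>
      have : cl (Finsupp.single P n) = n • cl (Finsupp.single P 1) := by
        rw [← map_zsmul, Finsupp.smul_single, smul_eq_mul, mul_one]
      rw [this]
      exact zsmul_mem (hpt P) n
  obtain ⟨Q', hQ'⟩ := hD
  exact ⟨Q', by rw [← r19_pi_apply ζ hζ, hQ']⟩

end Pool.Agent.Lib.MP_89bcae_ag.Sup

end

section

/-!
ROW R17 (100-200 lines). The kernel of `π = 1 - Z`.

Notation: `ram e = cl (ramDiv e) = ∑ e(θ) [(θ, 0)]`.

(A) `cl_eq_ram`: if `D - rot_* D = div h` and `nrm h = 1` then `cl D = ram e`, where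
`e(θ) = atR D θ - n(θ)` and `lc θ h = ζ^n(θ)`.
PROOF. By Hilbert 90 (R11), `h = v / rot⁻¹ v`, so `div h = div v - rot_* div v` and
`D₀ = D - div v` is fixed by `rot_*`. A divisor fixed by `rot_*` is the sum of its part at the ramified
points and of multiples of the full fibres `∑_{i<ℓ} (P.rot^i) = div (x - P.x)` of unramified points
(induction on the size of the support, or a sum over the finite set of the `x`-coordinates), so its
class is `ram (atR D₀)`, and `atR D₀ θ = atR D θ - ordR θ v`. By `lc_spec`: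
`lc θ (rot v') = ζ^{ordR θ v'} lc θ v'` with `v' = rot⁻¹ v` and `ordR θ v' = ordR θ v`
(`P.rot = P` for `P = (θ, 0)`), so `lc θ h = ζ^{ordR θ v}`, i.e. `n(θ) ≡ ordR θ v` modulo `ℓ`; and
`ℓ [(θ, 0)] = cl (div (x - θ)) = 0` so exponents matter only modulo `ℓ`.
(B) `zJ Q = Q` iff `Q` is some `ram e`. PROOF. If `Q = cl D` (R08), `D - rot_* D = div h`,
`nrm h = c · xprod (div h) = c` (`exists_nrm_eq`; `xprod (D - rot_* D) = 1` by `xprod_rot`,
`xprod_add`); dividing `h` by a constant whose `ℓ`-th power is `c` (`E` algebraically closed) we may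
assume `nrm h = 1` (`nrm_cstU`); apply (A) — the `lc θ h` are `ℓ`-th roots of unity since
`1 = lc θ (nrm h) = ∏ lc θ (rot^i h) = ζ^{...} lc θ(h)^ℓ` and `ordR θ h = 0`: `ord` of
`D - rot_* D` at a fixed point is zero. The converse: `mapDomain_rot_ramDiv`.
(C) `ram e = 0` iff `e` is constant modulo `ℓ` on the roots of `f`. PROOF. `ram 1 = cl (div y) = 0`
and `ℓ [(θ,0)] = 0` give the direction from right to left. Conversely let `ramDiv e = div h`. Then `rot⁻¹ h / h` has divisor `0`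
(`mapDomain_rot_ramDiv`), so it is a constant `c`: (divisor zero implies constant: R13 lemma
`exists_const_of_dg_eq_zero`: else `dg (div w) < 0` with `w = h - c`, but `ord_P w ≥ 0` for all `P`
by `ord_add`); `c^ℓ = 1` as `rot^ℓ = 1`; `c = ζ^{-j}`; and `lc θ (rot h) = ζ^{ordR θ h} lc θ h`
gives `e(θ) = ordR θ h ≡ j` for all roots `θ`.
-/

open Polynomial IsDedekindDomain

open scoped Classical

namespace Pool.Agent.Lib.MP_89bcae_ag.Sup

universe u

variable {ℓ : ℕ} {E : Type u} [Field E] {f : E[X]} [hG : IsGood ℓ f]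

/-- The class `∑ e(θ) [(θ, 0)]`. -/
noncomputable def ram (e : E → ℤ) : Jac ℓ f := cl (ramDiv e)

lemma r17_eq_of_x_eq {P Q : Pt ℓ f} (hP : P.y = 0) (h : Q.x = P.x) : Q = P := by
  have h1 : Q.y ^ ℓ = 0 := by
    rw [Q.eq, h, ← P.eq, hP, zero_pow hG.prime.ne_zero]
  exact Pt.ext h ((pow_eq_zero_iff hG.prime.ne_zero).1 h1 |>.trans hP.symm)

lemma r17_div_xs_ram (P : Pt ℓ f) (hP : P.y = 0) :
    div (xs P.x : (Fn ℓ f)ˣ) = ℓ • Finsupp.single P 1 := by
  ext Q
  rw [div_apply, Finsupp.smul_apply, Finsupp.single_apply]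
  by_cases h : P = Q
  · subst h
    rw [if_pos rfl, ord_xs_of_ramified P hP]
    simp
  · rw [if_neg h, smul_zero]
    exact ord_xs_of_ne Q fun h1 => h (r17_eq_of_x_eq hP h1).symm

lemma r17_smul_cl (D : Pt ℓ f →₀ ℤ) (hD : ∀ P, P.y ≠ 0 → D P = 0) : ℓ • cl D = 0 := by
  conv_lhs => rw [← Finsupp.sum_single D]
  rw [Finsupp.sum, map_sum, Finset.smul_sum]
  refine Finset.sum_eq_zero fun P hP => ?_
  have hy : P.y = 0 := by
    by_contra hy
    exact Finsupp.mem_support_iff.1 hP (hD P hy)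
  have h1 : (Finsupp.single P (D P) : Pt ℓ f →₀ ℤ) = D P • Finsupp.single P 1 := by
    rw [Finsupp.smul_single, smul_eq_mul, mul_one]
  rw [h1, map_zsmul, smul_comm, ← map_nsmul, ← r17_div_xs_ram P hy, cl_div, smul_zero]

lemma ram_congr (e e' : E → ℤ) (h : ∀ θ, f.eval θ = 0 → (ℓ : ℤ) ∣ e θ - e' θ) :
    (ram e : Jac ℓ f) = ram e' := by
  have hk : ∀ θ, ∃ k : ℤ, f.eval θ = 0 → e θ - e' θ = ℓ * k := by
    intro θ
    by_cases hθ : f.eval θ = 0
    · obtain ⟨k, hk⟩ := h θ hθ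
      exact ⟨k, fun _ => hk⟩
    · exact ⟨0, fun h => absurd h hθ⟩
  choose k hk using hk
  rw [← sub_eq_zero, ram, ram, ← map_sub, ← ramDiv_sub,
    ramDiv_congr (fun θ => e θ - e' θ) (fun θ => ℓ * k θ) hk, ramDiv_smul, map_zsmul,
    natCast_zsmul]
  refine r17_smul_cl _ fun P hP => ?_
  rw [ramDiv_apply, if_neg hP]

omit hG in
lemma r17_rot_injective (ζ : E) (hζ : ζ ^ ℓ = 1) (h0 : ζ ≠ 0) :
    Function.Injective (Pt.rot ζ hζ : Pt ℓ f → Pt ℓ f) := by
  intro P Q h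
  have hx : (Pt.rot ζ hζ P).x = (Pt.rot ζ hζ Q).x := by rw [h]
  have hy : (Pt.rot ζ hζ P).y = (Pt.rot ζ hζ Q).y := by rw [h]
  exact Pt.ext hx (mul_left_cancel₀ h0 hy)

omit hG in
lemma r17_rot_iter (ζ : E) (hζ : ζ ^ ℓ = 1) (P : Pt ℓ f) (i : ℕ) :
    ((Pt.rot ζ hζ)^[i] P).x = P.x ∧ ((Pt.rot ζ hζ)^[i] P).y = ζ ^ i * P.y := by
  induction i with
  | zero => simp
  | succ i ih =>
    rw [Function.iterate_succ_apply']
    refine ⟨ih.1, ?_⟩
    change ζ * ((Pt.rot ζ hζ)^[i] P).y = _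
    rw [ih.2, pow_succ']
    ring

lemma r17_exists_iter (ζ : E) (hζ : IsPrimitiveRoot ζ ℓ) (P Q : Pt ℓ f) (hP : P.y ≠ 0)
    (h : Q.x = P.x) : ∃ i, (Pt.rot ζ hζ.pow_eq_one)^[i] P = Q := by
  have h1 : (Q.y / P.y) ^ ℓ = 1 := by
    rw [div_pow, Q.eq, P.eq, h, div_self]
    rw [← P.eq]
    exact pow_ne_zero _ hP
  have : NeZero ℓ := ⟨hG.prime.ne_zero⟩
  obtain ⟨i, _, hi⟩ := hζ.eq_pow_of_pow_eq_one h1
  refine ⟨i, Pt.ext ?_ ?_⟩
  · rw [(r17_rot_iter ζ hζ.pow_eq_one P i).1, h]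
  · rw [(r17_rot_iter ζ hζ.pow_eq_one P i).2, hi, div_mul_cancel₀ _ hP]

omit hG in
lemma r17_apply_rot (ζ : E) (hζ : ζ ^ ℓ = 1) (h0 : ζ ≠ 0) (D : Pt ℓ f →₀ ℤ)
    (hD : D.mapDomain (Pt.rot ζ hζ) = D) (P : Pt ℓ f) (i : ℕ) :
    D ((Pt.rot ζ hζ)^[i] P) = D P := by
  induction i with
  | zero => rfl
  | succ i ih =>
    rw [Function.iterate_succ_apply', ← ih]
    conv_lhs => rw [← hD]
    exact Finsupp.mapDomain_apply (r17_rot_injective ζ hζ h0) _ _

lemma r17_cl_unram (ζ : E) (hζ : IsPrimitiveRoot ζ ℓ) (h0 : ζ ≠ 0) (D : Pt ℓ f →₀ ℤ)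
    (hD : D.mapDomain (Pt.rot ζ hζ.pow_eq_one) = D) (hr : ∀ P, P.y = 0 → D P = 0) :
    cl D = 0 := by
  have := hG.alg
  have hb : ∀ a : E, ∃ b : E, b ^ ℓ = f.eval a := fun a =>
    IsAlgClosed.exists_pow_nat_eq _ hG.prime.pos
  choose b hb using hb
  have key : D = ∑ a ∈ D.support.image Pt.x, D ⟨a, b a, hb a⟩ • div (xs a : (Fn ℓ f)ˣ) := by
    ext Q
    rw [Finsupp.finsetSum_apply]
    by_cases hQ : Q.x ∈ D.support.image Pt.x
    · rw [Finset.sum_eq_single Q.x]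
      · obtain ⟨P, hP, hPQ⟩ := Finset.mem_image.1 hQ
        have hPy : P.y ≠ 0 := fun h => Finsupp.mem_support_iff.1 hP (hr P h)
        have hQy : Q.y ≠ 0 := by
          intro h
          apply hPy
          rw [r17_eq_of_x_eq h hPQ]
          exact h
        have hby : b Q.x ≠ 0 := by
          intro h
          have h2 := hb Q.x
          rw [h, zero_pow hG.prime.ne_zero, ← Q.eq] at h2
          exact hQy ((pow_eq_zero_iff hG.prime.ne_zero).1 h2.symm)
        obtain ⟨i, hi⟩ := r17_exists_iter ζ hζ ⟨Q.x, b Q.x, hb Q.x⟩ Q hby rfl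
        rw [Finsupp.smul_apply, div_apply, ord_xs_of_unramified Q hQy, smul_eq_mul, mul_one,
          ← r17_apply_rot ζ hζ.pow_eq_one h0 D hD ⟨Q.x, b Q.x, hb Q.x⟩ i, hi]
      · intro a _ ha
        rw [Finsupp.smul_apply, div_apply, ord_xs_of_ne Q ha.symm, smul_zero]
      · intro h
        exact absurd hQ h
    · have hQ0 : D Q = 0 := by
        by_contra h
        exact hQ (Finset.mem_image.2 ⟨Q, Finsupp.mem_support_iff.2 h, rfl⟩)
      rw [hQ0]
      symm
      refine Finset.sum_eq_zero fun a ha => ?_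
      rw [Finsupp.smul_apply, div_apply, ord_xs_of_ne Q (fun h => hQ (h ▸ ha)), smul_zero]
  rw [key, map_sum]
  refine Finset.sum_eq_zero fun a _ => ?_
  rw [map_zsmul, cl_div, smul_zero]

lemma r17_cl_fixed (ζ : E) (hζ : IsPrimitiveRoot ζ ℓ) (h0 : ζ ≠ 0) (D : Pt ℓ f →₀ ℤ)
    (hD : D.mapDomain (Pt.rot ζ hζ.pow_eq_one) = D) : cl D = ram (atR D) := by
  rw [← sub_eq_zero, ram, ← map_sub]
  refine r17_cl_unram ζ hζ h0 _ ?_ ?_
  · have := (Finsupp.mapDomain.addMonoidHom (M := ℤ) (Pt.rot ζ hζ.pow_eq_one : Pt ℓ f → Pt ℓ f)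
      ).map_sub D (ramDiv (atR D))
    change (D - ramDiv (atR D)).mapDomain (Pt.rot ζ hζ.pow_eq_one) =
      D.mapDomain (Pt.rot ζ hζ.pow_eq_one) - (ramDiv (atR D)).mapDomain (Pt.rot ζ hζ.pow_eq_one)
      at this
    rw [this, hD, mapDomain_rot_ramDiv]
  · intro P hP
    have hθ : f.eval P.x = 0 := by
      rw [← P.eq, hP, zero_pow hG.prime.ne_zero]
    rw [Finsupp.sub_apply, ramDiv_apply, if_pos hP, atR, dif_pos hθ, sub_eq_zero]
    congr 1
    exact Pt.ext rfl hP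

lemma cl_eq_ram (ζ : E) (hζ : IsPrimitiveRoot ζ ℓ) (h0 : ζ ≠ 0) (D : Pt ℓ f →₀ ℤ)
    (h : (Fn ℓ f)ˣ) (hD : D - D.mapDomain (Pt.rot ζ hζ.pow_eq_one) = div h)
    (hn : nrm ζ hζ.pow_eq_one h0 h = 1) (n : E → ℤ)
    (hlc : ∀ θ, f.eval θ = 0 → (lc θ h : E) = ζ ^ n θ) :
    cl D = ram fun θ => atR D θ - n θ := by
  obtain ⟨v, hv⟩ := exists_hilbert ζ hζ h0 h hn
  have hdiv : div h = div v - (div v).mapDomain (Pt.rot ζ hζ.pow_eq_one) := by
    rw [hv, div_eq_mul_inv, div_mul, div_inv, div_rotU_symm, sub_eq_add_neg]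
  have hfix : (D - div v).mapDomain (Pt.rot ζ hζ.pow_eq_one) = D - div v := by
    have := (Finsupp.mapDomain.addMonoidHom (M := ℤ) (Pt.rot ζ hζ.pow_eq_one : Pt ℓ f → Pt ℓ f)
      ).map_sub D (div v)
    change (D - div v).mapDomain (Pt.rot ζ hζ.pow_eq_one) =
      D.mapDomain (Pt.rot ζ hζ.pow_eq_one) - (div v).mapDomain (Pt.rot ζ hζ.pow_eq_one)
      at this
    rw [this]
    rw [hdiv] at hD
    have h2 : D.mapDomain (Pt.rot ζ hζ.pow_eq_one) =
        D - (div v - (div v).mapDomain (Pt.rot ζ hζ.pow_eq_one)) := by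
      rw [← hD]
      abel
    rw [h2]
    abel
  have hcl : cl D = cl (D - div v) := by
    rw [map_sub, cl_div, sub_zero]
  rw [hcl, r17_cl_fixed ζ hζ h0 _ hfix]
  refine ram_congr _ _ fun θ hθ => ?_
  have hrot : (Pt.rot ζ hζ.pow_eq_one (ramPt hG.prime.ne_zero hθ) : Pt ℓ f) =
      ramPt hG.prime.ne_zero hθ := Pt.ext rfl (mul_zero ζ)
  set v' := (rotU ζ hζ.pow_eq_one h0).symm v with hv'
  have hvv : rotU ζ hζ.pow_eq_one h0 v' = v := MulEquiv.apply_symm_apply _ _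
  have hord : ordR θ v' = ord (ramPt hG.prime.ne_zero hθ) v := by
    rw [ordR, dif_pos hθ, ← hvv, ord_rotU, hrot]
  obtain ⟨_, _, _, _, hr, _⟩ := lc_spec (ℓ := ℓ) hθ
  have hl := hr ζ hζ.pow_eq_one h0 v'
  rw [hvv, hord] at hl
  have hl2 : (lc θ h : E) = ζ ^ ord (ramPt hG.prime.ne_zero hθ) v := by
    rw [hv, _root_.map_div, Units.val_div_eq_div_val, hl, mul_div_assoc, div_self (Units.ne_zero _),
      mul_one]
  rw [hlc θ hθ] at hl2
  have hz : ζ ^ (n θ - ord (ramPt hG.prime.ne_zero hθ) v) = 1 := by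
    rw [zpow_sub₀ h0, hl2, div_self (zpow_ne_zero _ h0)]
  have hdvd := (hζ.zpow_eq_one_iff_dvd _).1 hz
  have hat : atR (D - div v) θ = atR D θ - ord (ramPt hG.prime.ne_zero hθ) v := by
    rw [atR, dif_pos hθ, atR, dif_pos hθ, Finsupp.sub_apply, div_apply]
    rfl
  rw [hat]
  have : atR D θ - ord (ramPt hG.prime.ne_zero hθ) v - (atR D θ - n θ) =
      n θ - ord (ramPt hG.prime.ne_zero hθ) v := by ring
  rw [this]
  exact hdvd

end Pool.Agent.Lib.MP_89bcae_ag.Sup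

end
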