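import Mathlib
import Pool.Agent.Lib.MP_89bcae_ag.Mk.K014
import Pool.Agent.Lib.MP_89bcae_ag.Mk.K019
import Pool.Agent.Lib.MP_89bcae_ag.Mk.K040
import Pool.Agent.Lib.MP_89bcae_ag.Mk.K041
import Pool.Agent.Lib.MP_89bcae_ag.Mk.K042

section

namespace Pool.Agent.Lib.MP_89bcae_ag.Re

/-- Powers in a prime field. Proof: the group of units of `ZMod q` is cyclic of order `q - 1`, divisible
by `ℓ` (the order of `ζ`); `a` is an `ℓ`-th power iff `a ^ ((q - 1) / ℓ) = 1`. In detail: let `u` be a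
generator (`IsCyclic (ZMod q)ˣ`), `a = u ^ i`; `a ^ ((q-1)/ℓ)` is an `ℓ`-th root of unity, so it is
`ζ ^ j` with `j < ℓ` (`IsPrimitiveRoot.eq_pow_of_pow_eq_one`); if `j = 0` then `q - 1` divides
`i (q-1)/ℓ`, so `ℓ ∣ i` and `a` is an `ℓ`-th power. -/
theorem exists_symbol {ℓ q : ℕ} (hℓ : ℓ.Prime) [Fact q.Prime] {ζ : ZMod q}
    (hζ : IsPrimitiveRoot ζ ℓ) {a : ZMod q} (ha : a ≠ 0) (hpow : ∀ y : ZMod q, y ^ ℓ ≠ a) :
    ℓ ∣ q - 1 ∧ ∃ i : ZMod ℓ, i ≠ 0 ∧ a ^ ((q - 1) / ℓ) = ζ ^ i.val := by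
  have hζ0 : ζ ≠ 0 := hζ.ne_zero hℓ.ne_zero
  have hdvd : ℓ ∣ q - 1 := by
    rw [hζ.eq_orderOf]
    exact ZMod.orderOf_dvd_card_sub_one hζ0
  refine ⟨hdvd, ?_⟩
  obtain ⟨m, hm⟩ := hdvd
  have hq1 : 0 < q - 1 := by
    have := (Fact.out : q.Prime).two_le
    omega
  have hm0 : 0 < m := by
    rcases Nat.eq_zero_or_pos m with h | h
    · rw [h, mul_zero] at hm
      omega
    · exact h
  have hdiv : (q - 1) / ℓ = m := by
    rw [hm]
    exact Nat.mul_div_cancel_left m hℓ.pos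
  rw [hdiv]
  have hNe : NeZero ℓ := ⟨hℓ.ne_zero⟩
  have h1 : (a ^ m) ^ ℓ = 1 := by
    rw [← pow_mul, mul_comm m ℓ, ← hm]
    exact ZMod.pow_card_sub_one_eq_one ha
  obtain ⟨j, hj, hj'⟩ := hζ.eq_pow_of_pow_eq_one h1
  refine ⟨(j : ZMod ℓ), ?_, ?_⟩
  · intro h0
    rw [ZMod.natCast_eq_zero_iff] at h0
    have hj0 : j = 0 := Nat.eq_zero_of_dvd_of_lt h0 hj
    rw [hj0, pow_zero] at hj'
    obtain ⟨u, hu⟩ := IsCyclic.exists_generator (α := (ZMod q)ˣ)
    obtain ⟨i, hi⟩ := (Submonoid.mem_powers_iff _ _).1 ((mem_powers_iff_mem_zpowers).2 (hu (Units.mk0 a ha)))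
    have hord : orderOf u = q - 1 := by
      rw [orderOf_eq_card_of_forall_mem_zpowers hu, Nat.card_eq_fintype_card, ZMod.card_units]
    have h2 : u ^ (i * m) = 1 := by
      rw [pow_mul, hi]
      ext
      rw [Units.val_pow_eq_pow_val, Units.val_mk0, Units.val_one]
      exact hj'.symm
    have h3 : ℓ * m ∣ i * m := by
      rw [← hm, ← hord]
      exact orderOf_dvd_of_pow_eq_one h2
    obtain ⟨n, hn⟩ := Nat.dvd_of_mul_dvd_mul_right hm0 h3
    refine hpow ((u ^ n : (ZMod q)ˣ) : ZMod q) ?_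
    have h4 : (u ^ n) ^ ℓ = Units.mk0 a ha := by
      rw [← hi, hn, mul_comm ℓ n, pow_mul]
    rw [← Units.val_pow_eq_pow_val, h4, Units.val_mk0]
  · rw [ZMod.val_natCast, Nat.mod_eq_of_lt hj, hj']

/-- Proof: `(w ^ ℓ) ^ ((q - 1) / ℓ) = w ^ (q - 1) = 1` and
`(ζ ^ i.val) ^ j = ζ ^ (i * j : ZMod ℓ).val` (`ζ ^ ℓ = 1`, `ZMod.val_mul`, `pow_mod_orderOf`...). -/
theorem symbol_of_pow_mul {ℓ q : ℕ} (hℓ : ℓ.Prime) [Fact q.Prime] {ζ : ZMod q}
    (hζ : IsPrimitiveRoot ζ ℓ) (hdvd : ℓ ∣ q - 1) {w a z : ZMod q} {j : ℕ} (hw : w ≠ 0)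
    (h : w ^ ℓ * a ^ j = z) {i : ZMod ℓ} (hi : a ^ ((q - 1) / ℓ) = ζ ^ i.val) :
    z ^ ((q - 1) / ℓ) = ζ ^ (i * j : ZMod ℓ).val := by
  have hNe : NeZero ℓ := ⟨hℓ.ne_zero⟩
  obtain ⟨m, hm⟩ := hdvd
  have hdiv : (q - 1) / ℓ = m := by
    rw [hm]
    exact Nat.mul_div_cancel_left m hℓ.pos
  rw [hdiv] at hi ⊢
  have h1 : w ^ (ℓ * m) = 1 := by
    rw [← hm]
    exact ZMod.pow_card_sub_one_eq_one hw
  have h2 : ∀ n : ℕ, ζ ^ (n % ℓ) = ζ ^ n := by
    intro n
    conv_rhs => rw [← Nat.div_add_mod n ℓ, pow_add, pow_mul, hζ.pow_eq_one, one_pow, one_mul]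
  rw [← h, mul_pow, ← pow_mul, h1, one_mul, ← pow_mul, mul_comm j m, pow_mul, hi, ← pow_mul,
    ZMod.val_mul, ZMod.val_natCast, Nat.mul_mod_mod, h2]

end Pool.Agent.Lib.MP_89bcae_ag.Re

end

section

/-!
# Rédei maps with prescribed weights: existence of one without eigenvalues
-/

open Polynomial

open scoped Classical

set_option linter.unusedSimpArgs false
set_option linter.unusedVariables false

namespace Pool.Agent.Lib.MP_89bcae_ag

section

variable {V I : Type*}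

theorem logic3 {E O : Fin 3 → Prop} (h : ∀ a b : Fin 3, E (b - a) ∨ O (a + b)) :
    (∀ u, E u) ∨ (∀ v, O v) := by
  by_contra hcon
  push Not at hcon
  obtain ⟨⟨u, hu⟩, ⟨v, hv⟩⟩ := hcon
  have h1 : ∀ u v : Fin 3, ∃ a b : Fin 3, b - a = u ∧ a + b = v := by decide
  obtain ⟨a, b, hab, hab'⟩ := h1 u v
  rcases h a b with h2 | h2
  · rw [hab] at h2; exact hu h2
  · rw [hab'] at h2; exact hv h2

theorem perm3 : ∀ (a b : Fin 3) (σ : Fin 3 → Fin 3), (∀ c d, σ c = σ d → c = d) → σ a = b →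
    (∀ c, σ c = c + (b - a)) ∨ (∀ c, σ c = (a + b) - c) := by decide

/-- The operator of the weights `l b c`. -/
noncomputable def opT (R : Finset V) (v : V → I) (l : V → V → ZMod 2) (z : V → ZMod 2) (b : V) :
    ZMod 2 :=
  ∑ c ∈ R.filter (fun c => v c ≠ v b), l b c * (z c + z b)

/-- The function `z` has sum `0` on each fibre. -/
def EvenZ (R : Finset V) (v : V → I) (z : V → ZMod 2) : Prop :=
  ∀ α : I, ∑ c ∈ R.filter (fun c => v c = α), z c = 0

/-- `m` is a matching of the fibres `i` and `j`. -/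
def Match8 (R : Finset V) (v : V → I) (i j : I) (m : V → V) : Prop :=
  (∀ x ∈ R, v x = i → m x ∈ R ∧ v (m x) = j ∧ m (m x) = x) ∧
  (∀ x ∈ R, v x = j → m x ∈ R ∧ v (m x) = i ∧ m (m x) = x)

/-- `l` has the weights of the matching `m` of the fibres `i` and `j`. -/
def MatchW8 (R : Finset V) (v : V → I) (i j : I) (m : V → V)
    (l : V → V → ZMod 2) : Prop :=
  ∀ x ∈ R, ∀ y ∈ R, v x ≠ v y →
    l x y = if (v x = i ∨ v x = j) ∧ y = m x then 1 else 0

theorem opT_add (R : Finset V) (v : V → I) (l l' : V → V → ZMod 2)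
    (z : V → ZMod 2) (b : V) :
    opT R v (l + l') z b = opT R v l z b + opT R v l' z b := by
  unfold opT
  rw [← Finset.sum_add_distrib]
  refine Finset.sum_congr rfl fun c _ => ?_
  rw [Pi.add_apply, Pi.add_apply]
  ring

theorem opT_match {R : Finset V} {v : V → I} {i j : I} (hij : i ≠ j) {m : V → V}
    {l : V → V → ZMod 2} (hm : Match8 R v i j m) (hl : MatchW8 R v i j m l) (z : V → ZMod 2) {b : V}
    (hb : b ∈ R) : opT R v l z b = if v b = i ∨ v b = j then z (m b) + z b else 0 := by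
  unfold opT
  have h1 : ∀ c ∈ R.filter (fun c => v c ≠ v b), l b c * (z c + z b) =
      if c = m b then (if v b = i ∨ v b = j then z c + z b else 0) else 0 := by
    intro c hc
    rw [Finset.mem_filter] at hc
    rw [hl b hb c hc.1 (Ne.symm hc.2)]
    by_cases h3 : c = m b
    · by_cases h4 : v b = i ∨ v b = j
      · rw [if_pos ⟨h4, h3⟩, if_pos h3, if_pos h4, one_mul]
      · rw [if_neg (fun h => h4 h.1), if_pos h3, if_neg h4, zero_mul]
    · rw [if_neg (fun h => h3 h.2), if_neg h3, zero_mul]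
  rw [Finset.sum_congr rfl h1, Finset.sum_ite_eq' _ (m b)]
  by_cases h4 : v b = i ∨ v b = j
  · have h5 : m b ∈ R.filter (fun c => v c ≠ v b) := by
      rw [Finset.mem_filter]
      rcases h4 with h6 | h6
      · obtain ⟨h7, h8, _⟩ := hm.1 b hb h6
        exact ⟨h7, by rw [h8, h6]; exact hij.symm⟩
      · obtain ⟨h7, h8, _⟩ := hm.2 b hb h6
        exact ⟨h7, by rw [h8, h6]; exact hij⟩
    rw [if_pos h5]
  · rw [if_neg h4]
    split_ifs <;> rfl

theorem opT_full {R : Finset V} {v : V → I} {i j : I} (hij : i ≠ j)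
    (hci : (R.filter (fun c => v c = i)).card = 3) (hcj : (R.filter (fun c => v c = j)).card = 3)
    {l : V → V → ZMod 2} (hl : ∀ x ∈ R, ∀ y ∈ R, v x ≠ v y →
      l x y = if (v x = i ∧ v y = j) ∨ (v x = j ∧ v y = i) then 1 else 0)
    {z : V → ZMod 2} (hz : EvenZ R v z) {b : V}
    (hb : b ∈ R) : opT R v l z b = if v b = i ∨ v b = j then z b else 0 := by
  have key : ∀ i j : I, i ≠ j → (R.filter (fun c => v c = j)).card = 3 →
      (∀ x ∈ R, ∀ y ∈ R, v x ≠ v y →
        l x y = if (v x = i ∧ v y = j) ∨ (v x = j ∧ v y = i) then 1 else 0) →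
      v b = i → opT R v l z b = z b := by
    intro i j hij hcj hl hbi
    unfold opT
    have h1 : ∀ c ∈ R.filter (fun c => v c ≠ v b), l b c * (z c + z b) =
        if v c = j then z c + z b else 0 := by
      intro c hc
      rw [Finset.mem_filter] at hc
      rw [hl b hb c hc.1 (Ne.symm hc.2)]
      by_cases h3 : v c = j
      · rw [if_pos (Or.inl ⟨hbi, h3⟩), if_pos h3, one_mul]
      · rw [if_neg (fun h => ?_), if_neg h3, zero_mul]
        rcases h with h | h
        · exact h3 h.2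
        · exact hij (hbi.symm.trans h.1)
    rw [Finset.sum_congr rfl h1, ← Finset.sum_filter, Finset.filter_filter]
    have h2 : R.filter (fun c => v c ≠ v b ∧ v c = j) = R.filter (fun c => v c = j) := by
      refine Finset.filter_congr fun c _ => ?_
      constructor
      · exact fun h => h.2
      · intro h
        exact ⟨by rw [h, hbi]; exact hij.symm, h⟩
    rw [h2, Finset.sum_add_distrib, hz j, zero_add, Finset.sum_const, hcj]
    have h3 : ∀ t : ZMod 2, 3 • t = t := by decide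
    exact h3 _
  by_cases h4 : v b = i ∨ v b = j
  · rw [if_pos h4]
    rcases h4 with h5 | h5
    · exact key i j hij hcj hl h5
    · refine key j i hij.symm hci (fun x hx y hy hxy => ?_) h5
      rw [hl x hx y hy hxy]
      exact if_congr or_comm rfl rfl
  · rw [if_neg h4]
    unfold opT
    refine Finset.sum_eq_zero fun c hc => ?_
    rw [Finset.mem_filter] at hc
    rw [hl b hb c hc.1 (Ne.symm hc.2), if_neg, zero_mul]
    intro h
    rcases h with h | h
    · exact h4 (Or.inl h.1)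
    · exact h4 (Or.inr h.1)

/-- Three disjoint matchings. -/
theorem exists_full {R : Finset V} {v : V → I} {HH : Set (V → V → ZMod 2)}
    (hadd : ∀ l ∈ HH, ∀ l' ∈ HH, l + l' ∈ HH) {i j : I} (hij : i ≠ j)
    (hci : (R.filter (fun c => v c = i)).card = 3) (hcj : (R.filter (fun c => v c = j)).card = 3)
    (H : ∀ x ∈ R, ∀ y ∈ R, v x = i → v y = j →
      ∃ l ∈ HH, ∃ m : V → V, Match8 R v i j m ∧ MatchW8 R v i j m l ∧ m x = y) :
    ∃ l ∈ HH, ∀ x ∈ R, ∀ y ∈ R, v x ≠ v y →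
      l x y = if (v x = i ∧ v y = j) ∨ (v x = j ∧ v y = i) then 1 else 0 := by
  have hX : Nonempty (Fin 3 ≃ (R.filter (fun c => v c = i))) :=
    ⟨(Fintype.equivFinOfCardEq (by rw [Fintype.card_coe, hci])).symm⟩
  have hY : Nonempty (Fin 3 ≃ (R.filter (fun c => v c = j))) :=
    ⟨(Fintype.equivFinOfCardEq (by rw [Fintype.card_coe, hcj])).symm⟩
  obtain ⟨X⟩ := hX
  obtain ⟨Y⟩ := hY
  have hXR : ∀ a, (X a : V) ∈ R ∧ v (X a) = i := fun a => by
    have := (X a).2
    rwa [Finset.mem_filter] at this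
  have hYR : ∀ a, (Y a : V) ∈ R ∧ v (Y a) = j := fun a => by
    have := (Y a).2
    rwa [Finset.mem_filter] at this
  -- availability of a map
  let av : (Fin 3 → Fin 3) → Prop := fun σ => ∃ l ∈ HH, ∃ m : V → V, Match8 R v i j m ∧
    MatchW8 R v i j m l ∧ ∀ a, m (X a) = Y (σ a)
  have hav : ∀ a b : Fin 3, av (fun c => c + (b - a)) ∨ av (fun c => (a + b) - c) := by
    intro a b
    obtain ⟨l, hl, m, hm, hml, hab⟩ := H (X a) (hXR a).1 (Y b) (hYR b).1 (hXR a).2 (hYR b).2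
    have h1 : ∀ c : Fin 3, ∃ d : Fin 3, m (X c) = Y d := by
      intro c
      obtain ⟨h2, h3, _⟩ := hm.1 (X c) (hXR c).1 (hXR c).2
      refine ⟨Y.symm ⟨m (X c), Finset.mem_filter.mpr ⟨h2, h3⟩⟩, ?_⟩
      rw [Equiv.apply_symm_apply]
    choose σ hσ using h1
    have h4 : ∀ c d, σ c = σ d → c = d := by
      intro c d hcd
      have h5 : m (X c) = m (X d) := by rw [hσ, hσ, hcd]
      have h6 : (X c : V) = X d := by
        rw [← (hm.1 (X c) (hXR c).1 (hXR c).2).2.2, h5,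
          (hm.1 (X d) (hXR d).1 (hXR d).2).2.2]
      exact X.injective (Subtype.ext h6)
    have h5 : σ a = b := by
      have h6 : (Y (σ a) : V) = Y b := by rw [← hσ, hab]
      exact Y.injective (Subtype.ext h6)
    rcases perm3 a b σ h4 h5 with h6 | h6
    · exact Or.inl ⟨l, hl, m, hm, hml, fun c => by rw [hσ, h6]⟩
    · exact Or.inr ⟨l, hl, m, hm, hml, fun c => by rw [hσ, h6]⟩
  have hthree : ∃ τ : Fin 3 → Fin 3 → Fin 3, (∀ u, av (τ u)) ∧
      ∀ a b : Fin 3, (∑ u : Fin 3, if b = τ u a then (1 : ZMod 2) else 0) = 1 := by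
    rcases logic3 (E := fun u => av (fun c => c + u)) (O := fun w => av (fun c => w - c)) hav
      with h | h
    · exact ⟨fun u c => c + u, h, by decide⟩
    · exact ⟨fun w c => w - c, h, by decide⟩
  obtain ⟨τ, hτ, hsum⟩ := hthree
  choose l hl m hm hml hmX using hτ
  refine ⟨l 0 + l 1 + l 2, hadd _ (hadd _ (hl 0) _ (hl 1)) _ (hl 2), ?_⟩
  intro x hx y hy hxy
  -- the weights for `x` in the fibre `i` and `y` in the fibre `j`
  have hXsurj : ∀ x ∈ R, v x = i → ∃ a, x = X a := fun x hx hxi =>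
    ⟨X.symm ⟨x, Finset.mem_filter.mpr ⟨hx, hxi⟩⟩, by rw [Equiv.apply_symm_apply]⟩
  have hYsurj : ∀ y ∈ R, v y = j → ∃ b, y = Y b := fun y hy hyj =>
    ⟨Y.symm ⟨y, Finset.mem_filter.mpr ⟨hy, hyj⟩⟩, by rw [Equiv.apply_symm_apply]⟩
  have hXY : ∀ (u a b : Fin 3), (Y b : V) = m u (X a) ↔ b = τ u a := by
    intro u a b
    rw [hmX]
    constructor
    · intro h
      exact Y.injective (Subtype.ext h)
    · intro h
      rw [h]
  have hYX : ∀ (u a b : Fin 3), (X a : V) = m u (Y b) ↔ b = τ u a := by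
    intro u a b
    rw [← hXY]
    constructor
    · intro h
      rw [h, ((hm u).2 (Y b) (hYR b).1 (hYR b).2).2.2]
    · intro h
      rw [h, ((hm u).1 (X a) (hXR a).1 (hXR a).2).2.2]
  have hsum3 : ∀ f : Fin 3 → ZMod 2, f 0 + f 1 + f 2 = ∑ u, f u := fun f => by
    rw [Fin.sum_univ_three]
  have e1 : (l 0 + l 1 + l 2) x y = ∑ u, l u x y := by
    rw [← hsum3]; rfl
  rw [e1, Finset.sum_congr rfl fun u _ => hml u x hx y hy hxy]
  by_cases c1 : v x = i ∧ v y = j
  · rw [if_pos (Or.inl c1)]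
    obtain ⟨a, rfl⟩ := hXsurj x hx c1.1
    obtain ⟨b, rfl⟩ := hYsurj y hy c1.2
    refine Eq.trans ?_ (hsum a b)
    refine Finset.sum_congr rfl fun u _ => if_congr ?_ rfl rfl
    rw [hXY]
    exact ⟨fun h => h.2, fun h => ⟨Or.inl c1.1, h⟩⟩
  · by_cases c2 : v x = j ∧ v y = i
    · rw [if_pos (Or.inr c2)]
      obtain ⟨a, rfl⟩ := hXsurj y hy c2.2
      obtain ⟨b, rfl⟩ := hYsurj x hx c2.1
      refine Eq.trans ?_ (hsum a b)
      refine Finset.sum_congr rfl fun u _ => if_congr ?_ rfl rfl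
      rw [hYX]
      exact ⟨fun h => h.2, fun h => ⟨Or.inr c2.1, h⟩⟩
    · rw [if_neg (fun h => h.elim c1 c2)]
      refine Finset.sum_eq_zero fun u _ => if_neg ?_
      rintro ⟨h | h, hy'⟩
      · exact c1 ⟨h, by rw [hy']; exact ((hm u).1 x hx h).2.1⟩
      · exact c2 ⟨h, by rw [hy']; exact ((hm u).2 x hx h).2.1⟩

/-- The operators which come from `HH`. -/
def IsOp (R : Finset V) (v : V → I) (HH : Set (V → V → ZMod 2))
    (T : (V → ZMod 2) → V → ZMod 2) : Prop :=
  ∃ l ∈ HH, ∀ z, EvenZ R v z → ∀ b ∈ R, opT R v l z b = T z b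

theorem IsOp.add {R : Finset V} {v : V → I} {HH : Set (V → V → ZMod 2)}
    (hadd : ∀ l ∈ HH, ∀ l' ∈ HH, l + l' ∈ HH) {T T' : (V → ZMod 2) → V → ZMod 2}
    (h : IsOp R v HH T) (h' : IsOp R v HH T') : IsOp R v HH (fun z b => T z b + T' z b) := by
  obtain ⟨l, hl, hT⟩ := h
  obtain ⟨l', hl', hT'⟩ := h'
  exact ⟨l + l', hadd l hl l' hl', fun z hz b hb => by
    rw [opT_add, hT z hz b hb, hT' z hz b hb]⟩

/-- The fibres in `A` have an operator without eigenvalues. -/
def Good8 (R : Finset V) (v : V → I) (HH : Set (V → V → ZMod 2)) (A : Finset I) : Prop :=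
  ∃ T, IsOp R v HH T ∧ (∀ z b, v b ∉ A → T z b = 0) ∧
    ∀ (ε : ZMod 2) (z : V → ZMod 2), EvenZ R v z →
      (∀ b ∈ R, v b ∈ A → T z b = ε * z b) → ∀ b ∈ R, v b ∈ A → z b = 0

theorem Good8.union {R : Finset V} {v : V → I} {HH : Set (V → V → ZMod 2)}
    (hadd : ∀ l ∈ HH, ∀ l' ∈ HH, l + l' ∈ HH) {A B : Finset I} (hA : Good8 R v HH A)
    (hB : Good8 R v HH B) (hAB : Disjoint A B) : Good8 R v HH (A ∪ B) := by
  obtain ⟨T, hT, hT0, hTe⟩ := hA
  obtain ⟨S, hS, hS0, hSe⟩ := hB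
  refine ⟨_, hT.add hadd hS, ?_, ?_⟩
  · intro z b hb
    rw [Finset.mem_union, not_or] at hb
    rw [hT0 z b hb.1, hS0 z b hb.2, add_zero]
  · intro ε z hz h b hb hbA
    rw [Finset.mem_union] at hbA
    rcases hbA with h1 | h1
    · refine hTe ε z hz (fun c hc hcA => ?_) b hb h1
      have h2 := h c hc (Finset.mem_union_left _ hcA)
      rwa [hS0 z c (Finset.disjoint_left.mp hAB hcA), add_zero] at h2
    · refine hSe ε z hz (fun c hc hcB => ?_) b hb h1
      have h2 := h c hc (Finset.mem_union_right _ hcB)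
      rwa [hT0 z c (Finset.disjoint_right.mp hAB hcB), zero_add] at h2

/-- The hypothesis on `HH`. -/
def AllMatch8 (R : Finset V) (v : V → I) (HH : Set (V → V → ZMod 2)) : Prop :=
  ∀ x ∈ R, ∀ y ∈ R, v x ≠ v y → ∃ l ∈ HH, ∃ m : V → V,
    Match8 R v (v x) (v y) m ∧ MatchW8 R v (v x) (v y) m l ∧ m x = y

theorem exists_op_full {R : Finset V} {v : V → I} {HH : Set (V → V → ZMod 2)}
    (hadd : ∀ l ∈ HH, ∀ l' ∈ HH, l + l' ∈ HH)
    (hcard : ∀ x ∈ R, (R.filter (fun c => v c = v x)).card = 3) (H : AllMatch8 R v HH)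
    {i j : I} (hi : i ∈ R.image v) (hj : j ∈ R.image v) (hij : i ≠ j) :
    IsOp R v HH (fun z b => if v b = i ∨ v b = j then z b else 0) := by
  obtain ⟨x0, hx0, rfl⟩ := Finset.mem_image.mp hi
  obtain ⟨y0, hy0, rfl⟩ := Finset.mem_image.mp hj
  obtain ⟨l, hl, hw⟩ := exists_full hadd hij (hcard x0 hx0) (hcard y0 hy0)
    (fun x hx y hy hxi hyj => by
      have := H x hx y hy (by rw [hxi, hyj]; exact hij)
      rwa [hxi, hyj] at this)
  exact ⟨l, hl, fun z hz b hb => opT_full hij (hcard x0 hx0) (hcard y0 hy0) hw hz hb⟩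

theorem exists_op_edge {R : Finset V} {v : V → I} {HH : Set (V → V → ZMod 2)}
    (hadd : ∀ l ∈ HH, ∀ l' ∈ HH, l + l' ∈ HH)
    (hcard : ∀ x ∈ R, (R.filter (fun c => v c = v x)).card = 3) (H : AllMatch8 R v HH)
    {i j : I} (hi : i ∈ R.image v) (hj : j ∈ R.image v) (hij : i ≠ j) :
    ∃ m : V → V, Match8 R v i j m ∧
      IsOp R v HH (fun z b => if v b = i ∨ v b = j then z (m b) else 0) := by
  have hf := exists_op_full hadd hcard H hi hj hij
  obtain ⟨x0, hx0, rfl⟩ := Finset.mem_image.mp hi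
  obtain ⟨y0, hy0, rfl⟩ := Finset.mem_image.mp hj
  obtain ⟨l, hl, m, hm, hml, _⟩ := H x0 hx0 y0 hy0 hij
  refine ⟨m, hm, ?_⟩
  have h1 : IsOp R v HH (fun z b => if v b = v x0 ∨ v b = v y0 then z (m b) + z b else 0) :=
    ⟨l, hl, fun z _ b hb => opT_match hij hm hml z hb⟩
  obtain ⟨l', hl', hT⟩ := h1.add hadd hf
  refine ⟨l', hl', fun z hz b hb => ?_⟩
  rw [hT z hz b hb]
  by_cases h4 : v b = v x0 ∨ v b = v y0
  · simp only [if_pos h4]
    have h3 : ∀ s t : ZMod 2, s + t + t = s := by decide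
    exact h3 _ _
  · simp only [if_neg h4, add_zero]

theorem good3 {R : Finset V} {v : V → I} {HH : Set (V → V → ZMod 2)}
    (hadd : ∀ l ∈ HH, ∀ l' ∈ HH, l + l' ∈ HH)
    (hcard : ∀ x ∈ R, (R.filter (fun c => v c = v x)).card = 3) (H : AllMatch8 R v HH)
    {a b c : I} (ha : a ∈ R.image v) (hb : b ∈ R.image v) (hc : c ∈ R.image v)
    (hab : a ≠ b) (hac : a ≠ c) (hbc : b ≠ c) : Good8 R v HH {a, b, c} := by
  obtain ⟨m, hm, hE⟩ := exists_op_edge hadd hcard H ha hb hab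
  obtain ⟨n, hn, hE'⟩ := exists_op_edge hadd hcard H hb hc hbc
  have hP := exists_op_full hadd hcard H ha hb hab
  refine ⟨_, (hE.add hadd hE').add hadd hP, ?_, ?_⟩
  · intro z x hx
    simp only [Finset.mem_insert, Finset.mem_singleton, not_or] at hx
    simp only [hx.1, hx.2.1, hx.2.2, or_self, if_false, add_zero]
  · intro ε z hz h
    -- the path of `x`
    have key : ∀ x ∈ R, v x = a → z x = 0 ∧ z (m x) = 0 ∧ z (n (m x)) = 0 := by
      intro x hx hxa
      obtain ⟨h1, h2, h3⟩ := hm.1 x hx hxa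
      obtain ⟨h4, h5, h6⟩ := hn.1 (m x) h1 h2
      have e1 := h x hx (by simp [hxa])
      have e2 := h (m x) h1 (by simp [h2])
      have e3 := h (n (m x)) h4 (by simp [h5])
      simp only [hxa, hab, hac, or_false, or_true, true_or, false_or, if_true, if_false,
        add_zero, or_self] at e1
      simp only [h2, h3, hbc, hab.symm, or_false, or_true, true_or, false_or, if_true, if_false,
        add_zero, or_self] at e2
      simp only [h5, h6, hbc.symm, hac.symm, or_false, or_true, true_or, false_or, if_true,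
        if_false, add_zero, zero_add, or_self] at e3
      revert e1 e2 e3
      generalize z x = z1
      generalize z (m x) = z2
      generalize z (n (m x)) = z3
      clear h
      revert ε z1 z2 z3
      decide
    intro x hx hxA
    simp only [Finset.mem_insert, Finset.mem_singleton] at hxA
    rcases hxA with h1 | h1 | h1
    · exact (key x hx h1).1
    · obtain ⟨h2, h3, h4⟩ := hm.2 x hx h1
      have := (key (m x) h2 h3).2.1
      rwa [h4] at this
    · obtain ⟨h2, h3, h4⟩ := hn.2 x hx h1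
      obtain ⟨h5, h6, h7⟩ := hm.2 (n x) h2 h3
      have := (key (m (n x)) h5 h6).2.2
      rwa [h7, h4] at this

theorem good4 {R : Finset V} {v : V → I} {HH : Set (V → V → ZMod 2)}
    (hadd : ∀ l ∈ HH, ∀ l' ∈ HH, l + l' ∈ HH)
    (hcard : ∀ x ∈ R, (R.filter (fun c => v c = v x)).card = 3) (H : AllMatch8 R v HH)
    {a b c d : I} (ha : a ∈ R.image v) (hb : b ∈ R.image v) (hc : c ∈ R.image v)
    (hd : d ∈ R.image v) (hab : a ≠ b) (hac : a ≠ c) (had : a ≠ d) (hbc : b ≠ c) (hbd : b ≠ d)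
    (hcd : c ≠ d) : Good8 R v HH {a, b, c, d} := by
  obtain ⟨m, hm, hE⟩ := exists_op_edge hadd hcard H ha hb hab
  obtain ⟨n, hn, hE'⟩ := exists_op_edge hadd hcard H hb hc hbc
  obtain ⟨p, hp, hE''⟩ := exists_op_edge hadd hcard H hc hd hcd
  have hP := exists_op_full hadd hcard H ha hb hab
  have hQ := exists_op_full hadd hcard H hc hd hcd
  refine ⟨_, (((hE.add hadd hE').add hadd hE'').add hadd hP).add hadd hQ, ?_, ?_⟩
  · intro z x hx
    simp only [Finset.mem_insert, Finset.mem_singleton, not_or] at hx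
    simp only [hx.1, hx.2.1, hx.2.2.1, hx.2.2.2, or_self, if_false, add_zero]
  · intro ε z hz h
    have key : ∀ x ∈ R, v x = a → z x = 0 ∧ z (m x) = 0 ∧ z (n (m x)) = 0 ∧
        z (p (n (m x))) = 0 := by
      intro x hx hxa
      obtain ⟨h1, h2, h3⟩ := hm.1 x hx hxa
      obtain ⟨h4, h5, h6⟩ := hn.1 (m x) h1 h2
      obtain ⟨h7, h8, h9⟩ := hp.1 (n (m x)) h4 h5
      have e1 := h x hx (by simp [hxa])
      have e2 := h (m x) h1 (by simp [h2])
      have e3 := h (n (m x)) h4 (by simp [h5])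
      have e4 := h (p (n (m x))) h7 (by simp [h8])
      simp only [hxa, hab, hac, had, or_false, or_true, true_or, false_or, if_true, if_false,
        add_zero, zero_add, or_self] at e1
      simp only [h2, h3, hbc, hbd, hab.symm, or_false, or_true, true_or, false_or, if_true,
        if_false, add_zero, zero_add, or_self] at e2
      simp only [h5, h6, hcd, hbc.symm, hac.symm, or_false, or_true, true_or, false_or, if_true,
        if_false, add_zero, zero_add, or_self] at e3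
      simp only [h8, h9, hcd.symm, hbd.symm, had.symm, or_false, or_true, true_or, false_or,
        if_true, if_false, add_zero, zero_add, or_self] at e4
      revert e1 e2 e3 e4
      generalize z x = z1
      generalize z (m x) = z2
      generalize z (n (m x)) = z3
      generalize z (p (n (m x))) = z4
      clear h
      revert ε z1 z2 z3 z4
      decide
    intro x hx hxA
    simp only [Finset.mem_insert, Finset.mem_singleton] at hxA
    rcases hxA with h1 | h1 | h1 | h1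
    · exact (key x hx h1).1
    · obtain ⟨h2, h3, h4⟩ := hm.2 x hx h1
      have := (key (m x) h2 h3).2.1
      rwa [h4] at this
    · obtain ⟨h2, h3, h4⟩ := hn.2 x hx h1
      obtain ⟨h5, h6, h7⟩ := hm.2 (n x) h2 h3
      have := (key (m (n x)) h5 h6).2.2.1
      rwa [h7, h4] at this
    · obtain ⟨h2, h3, h4⟩ := hp.2 x hx h1
      obtain ⟨h5, h6, h7⟩ := hn.2 (p x) h2 h3
      obtain ⟨h8, h9, h10⟩ := hm.2 (n (p x)) h5 h6
      have := (key (m (n (p x))) h8 h9).2.2.2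
      rwa [h10, h7, h4] at this

theorem good5 {R : Finset V} {v : V → I} {HH : Set (V → V → ZMod 2)}
    (hadd : ∀ l ∈ HH, ∀ l' ∈ HH, l + l' ∈ HH)
    (hcard : ∀ x ∈ R, (R.filter (fun c => v c = v x)).card = 3) (H : AllMatch8 R v HH)
    {a b c d e : I} (ha : a ∈ R.image v) (hb : b ∈ R.image v) (hc : c ∈ R.image v)
    (hd : d ∈ R.image v) (he : e ∈ R.image v) (hab : a ≠ b) (hac : a ≠ c) (had : a ≠ d)
    (hae : a ≠ e) (hbc : b ≠ c) (hbd : b ≠ d) (hbe : b ≠ e) (hcd : c ≠ d) (hce : c ≠ e)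
    (hde : d ≠ e) : Good8 R v HH {a, b, c, d, e} := by
  obtain ⟨m, hm, hE⟩ := exists_op_edge hadd hcard H ha hb hab
  obtain ⟨n, hn, hE'⟩ := exists_op_edge hadd hcard H hb hc hbc
  obtain ⟨p, hp, hE''⟩ := exists_op_edge hadd hcard H hc hd hcd
  obtain ⟨q, hq, hE3⟩ := exists_op_edge hadd hcard H hd he hde
  have hP := exists_op_full hadd hcard H ha hb hab
  refine ⟨_, (((hE.add hadd hE').add hadd hE'').add hadd hE3).add hadd hP, ?_, ?_⟩
  · intro z x hx
    simp only [Finset.mem_insert, Finset.mem_singleton, not_or] at hx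
    simp only [hx.1, hx.2.1, hx.2.2.1, hx.2.2.2.1, hx.2.2.2.2, or_self, if_false, add_zero]
  · intro ε z hz h
    have key : ∀ x ∈ R, v x = a → z x = 0 ∧ z (m x) = 0 ∧ z (n (m x)) = 0 ∧
        z (p (n (m x))) = 0 ∧ z (q (p (n (m x)))) = 0 := by
      intro x hx hxa
      obtain ⟨h1, h2, h3⟩ := hm.1 x hx hxa
      obtain ⟨h4, h5, h6⟩ := hn.1 (m x) h1 h2
      obtain ⟨h7, h8, h9⟩ := hp.1 (n (m x)) h4 h5
      obtain ⟨h10, h11, h12⟩ := hq.1 (p (n (m x))) h7 h8
      have e1 := h x hx (by simp [hxa])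
      have e2 := h (m x) h1 (by simp [h2])
      have e3 := h (n (m x)) h4 (by simp [h5])
      have e4 := h (p (n (m x))) h7 (by simp [h8])
      have e5 := h (q (p (n (m x)))) h10 (by simp [h11])
      simp only [hxa, hab, hac, had, hae, or_false, or_true, true_or, false_or, if_true,
        if_false, add_zero, zero_add, or_self] at e1
      simp only [h2, h3, hbc, hbd, hbe, hab.symm, or_false, or_true, true_or, false_or, if_true,
        if_false, add_zero, zero_add, or_self] at e2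
      simp only [h5, h6, hcd, hce, hbc.symm, hac.symm, or_false, or_true, true_or, false_or,
        if_true, if_false, add_zero, zero_add, or_self] at e3
      simp only [h8, h9, hde, hcd.symm, hbd.symm, had.symm, or_false, or_true, true_or, false_or,
        if_true, if_false, add_zero, zero_add, or_self] at e4
      simp only [h11, h12, hde.symm, hce.symm, hbe.symm, hae.symm, or_false, or_true, true_or,
        false_or, if_true, if_false, add_zero, zero_add, or_self] at e5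
      revert e1 e2 e3 e4 e5
      generalize z x = z1
      generalize z (m x) = z2
      generalize z (n (m x)) = z3
      generalize z (p (n (m x))) = z4
      generalize z (q (p (n (m x)))) = z5
      clear h
      revert ε z1 z2 z3 z4 z5
      decide
    intro x hx hxA
    simp only [Finset.mem_insert, Finset.mem_singleton] at hxA
    rcases hxA with h1 | h1 | h1 | h1 | h1
    · exact (key x hx h1).1
    · obtain ⟨h2, h3, h4⟩ := hm.2 x hx h1
      have := (key (m x) h2 h3).2.1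
      rwa [h4] at this
    · obtain ⟨h2, h3, h4⟩ := hn.2 x hx h1
      obtain ⟨h5, h6, h7⟩ := hm.2 (n x) h2 h3
      have := (key (m (n x)) h5 h6).2.2.1
      rwa [h7, h4] at this
    · obtain ⟨h2, h3, h4⟩ := hp.2 x hx h1
      obtain ⟨h5, h6, h7⟩ := hn.2 (p x) h2 h3
      obtain ⟨h8, h9, h10⟩ := hm.2 (n (p x)) h5 h6
      have := (key (m (n (p x))) h8 h9).2.2.2.1
      rwa [h10, h7, h4] at this
    · obtain ⟨h2, h3, h4⟩ := hq.2 x hx h1
      obtain ⟨h5, h6, h7⟩ := hp.2 (q x) h2 h3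
      obtain ⟨h8, h9, h10⟩ := hn.2 (p (q x)) h5 h6
      obtain ⟨h11, h12, h13⟩ := hm.2 (n (p (q x))) h8 h9
      have := (key (m (n (p (q x)))) h11 h12).2.2.2.2
      rwa [h13, h10, h7, h4] at this

theorem goodAll {R : Finset V} {v : V → I} {HH : Set (V → V → ZMod 2)}
    (hadd : ∀ l ∈ HH, ∀ l' ∈ HH, l + l' ∈ HH)
    (hcard : ∀ x ∈ R, (R.filter (fun c => v c = v x)).card = 3) (H : AllMatch8 R v HH) :
    ∀ (n : ℕ) (A : Finset I), A ⊆ R.image v → A.card = n → 3 ≤ n → Good8 R v HH A := by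
  intro n
  induction n using Nat.strong_induction_on with
  | _ n ih =>
    intro A hA hn h3
    by_cases h6 : 6 ≤ n
    · obtain ⟨B, hBA, hB3⟩ := Finset.exists_subset_card_eq (s := A) (n := 3) (by omega)
      obtain ⟨a, b, c, hab, hac, hbc, rfl⟩ := Finset.card_eq_three.mp hB3
      have h1 : Good8 R v HH {a, b, c} :=
        good3 hadd hcard H (hA (hBA (by simp))) (hA (hBA (by simp))) (hA (hBA (by simp)))
          hab hac hbc
      have h2 : (A \ {a, b, c}).card = n - 3 := by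
        rw [Finset.card_sdiff_of_subset hBA, hn, hB3]
      have h4 := (ih (n - 3) (by omega) (A \ {a, b, c})
        (Finset.sdiff_subset.trans hA) h2 (by omega)).union hadd h1 Finset.sdiff_disjoint
      rwa [Finset.sdiff_union_of_subset hBA] at h4
    · have h7 : n = 3 ∨ n = 4 ∨ n = 5 := by omega
      rcases h7 with h7 | h7 | h7
      · rw [h7] at hn
        obtain ⟨a, b, c, hab, hac, hbc, rfl⟩ := Finset.card_eq_three.mp hn
        exact good3 hadd hcard H (hA (by simp)) (hA (by simp)) (hA (by simp)) hab hac hbc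
      · rw [h7] at hn
        obtain ⟨d, B, hdB, rfl, hB⟩ := Finset.card_eq_succ.mp hn
        obtain ⟨a, b, c, hab, hac, hbc, rfl⟩ := Finset.card_eq_three.mp hB
        simp only [Finset.mem_insert, Finset.mem_singleton, not_or] at hdB
        exact good4 hadd hcard H (hA (by simp)) (hA (by simp)) (hA (by simp)) (hA (by simp))
          hdB.1 hdB.2.1 hdB.2.2 hab hac hbc
      · rw [h7] at hn
        obtain ⟨e, B, heB, rfl, hB⟩ := Finset.card_eq_succ.mp hn
        obtain ⟨d, B', hdB, rfl, hB'⟩ := Finset.card_eq_succ.mp hB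
        obtain ⟨a, b, c, hab, hac, hbc, rfl⟩ := Finset.card_eq_three.mp hB'
        simp only [Finset.mem_insert, Finset.mem_singleton, not_or] at hdB heB
        exact good5 hadd hcard H (hA (by simp)) (hA (by simp)) (hA (by simp)) (hA (by simp))
          (hA (by simp)) heB.1 heB.2.1 heB.2.2.1 heB.2.2.2 hdB.1 hdB.2.1 hdB.2.2 hab hac hbc

/-- There is an `l` in `HH` whose operator has no eigenvalue `0` or `1`. -/
theorem exists_noEigen {R : Finset V} {v : V → I} {HH : Set (V → V → ZMod 2)}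
    (hadd : ∀ l ∈ HH, ∀ l' ∈ HH, l + l' ∈ HH)
    (hcard : ∀ x ∈ R, (R.filter (fun c => v c = v x)).card = 3) (H : AllMatch8 R v HH)
    (h3 : 3 ≤ (R.image v).card) :
    ∃ l ∈ HH, ∀ (ε : ZMod 2) (z : V → ZMod 2), EvenZ R v z →
      (∀ b ∈ R, opT R v l z b = ε * z b) → ∀ b ∈ R, z b = 0 := by
  obtain ⟨T, ⟨l, hl, hT⟩, _, hTe⟩ := goodAll hadd hcard H _ (R.image v) subset_rfl rfl h3
  refine ⟨l, hl, fun ε z hz h b hb => ?_⟩
  exact hTe ε z hz (fun c hc _ => by rw [← hT z hz c hc]; exact h c hc) b hb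
    (Finset.mem_image_of_mem v hb)

/-- A perfect matching is given by a map. -/
theorem exists_match_of_isMatch7 {R : Finset V} {v : V → I} {i j : I} (hij : i ≠ j)
    {e : V → V → ZMod 2} (he : IsMatch7 R v i j e) :
    ∃ m : V → V, Match8 R v i j m ∧ MatchW8 R v i j m e := by
  choose! f hf1 hf2 hf3 hf4 using he.left
  choose! f' hf1' hf2' hf3' hf4' using he.right
  have hji : j ≠ i := hij.symm
  let m : V → V := fun x => if v x = i then f x else f' x
  have hmi : ∀ x, v x = i → m x = f x := fun x hx => if_pos hx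
  have hmj : ∀ x, v x = j → m x = f' x := fun x hx => if_neg (by rw [hx]; exact hji)
  have hff : ∀ x ∈ R, v x = i → f' (f x) = x := by
    intro x hx hxi
    by_contra hne
    have h1 := hf4' (f x) (hf1 x hx hxi) (hf2 x hx hxi) x hx hxi (Ne.symm hne)
    rw [he.symm (f x) (hf1 x hx hxi) x hx, hf3 x hx hxi] at h1
    exact one_ne_zero h1
  have hff' : ∀ x ∈ R, v x = j → f (f' x) = x := by
    intro x hx hxi
    by_contra hne
    have h1 := hf4 (f' x) (hf1' x hx hxi) (hf2' x hx hxi) x hx hxi (Ne.symm hne)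
    rw [he.symm (f' x) (hf1' x hx hxi) x hx, hf3' x hx hxi] at h1
    exact one_ne_zero h1
  refine ⟨m, ⟨?_, ?_⟩, ?_⟩
  · intro x hx hxi
    rw [hmi x hxi]
    exact ⟨hf1 x hx hxi, hf2 x hx hxi, by rw [hmj _ (hf2 x hx hxi), hff x hx hxi]⟩
  · intro x hx hxi
    rw [hmj x hxi]
    exact ⟨hf1' x hx hxi, hf2' x hx hxi, by rw [hmi _ (hf2' x hx hxi), hff' x hx hxi]⟩
  · intro x hx y hy hxy
    by_cases h1 : (v x = i ∧ v y = j) ∨ (v x = j ∧ v y = i)
    · rcases h1 with ⟨h2, h3⟩ | ⟨h2, h3⟩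
      · rw [hmi x h2]
        by_cases h4 : y = f x
        · rw [if_pos ⟨Or.inl h2, h4⟩, h4, hf3 x hx h2]
        · rw [if_neg (fun h => h4 h.2), hf4 x hx h2 y hy h3 h4]
      · rw [hmj x h2]
        by_cases h4 : y = f' x
        · rw [if_pos ⟨Or.inr h2, h4⟩, h4, hf3' x hx h2]
        · rw [if_neg (fun h => h4 h.2), hf4' x hx h2 y hy h3 h4]
    · have h5 : e x y = 0 := by
        by_contra h6
        exact h1 (he.supp x hx y hy hxy h6)
      rw [h5, if_neg]
      rintro ⟨h6 | h6, h7⟩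
      · refine h1 (Or.inl ⟨h6, ?_⟩)
        rw [h7, hmi x h6]
        exact hf2 x hx h6
      · refine h1 (Or.inr ⟨h6, ?_⟩)
        rw [h7, hmj x h6]
        exact hf2' x hx h6

/-- The pattern lemma. -/
theorem exists_pattern8 (S : Finset V) (p : V → I)
    (hfib : ∀ b ∈ S, (S.filter fun c => p c = p b).card = 3) (hn : 3 ≤ (S.image p).card)
    (E : Set (V → V → ZMod 2)) (hadd : ∀ e ∈ E, ∀ e' ∈ E, e + e' ∈ E)
    (hmatch : ∀ b ∈ S, ∀ c ∈ S, p b ≠ p c → ∃ e ∈ E, IsMatch7 S p (p b) (p c) e ∧ e b c = 1) :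
    ∃ e ∈ E, ∀ z : V → ZMod 2, (∀ b ∈ S, ∑ c ∈ S.filter (fun c => p c = p b), z c = 0) →
      ∀ ε : ZMod 2, (∀ b ∈ S, ∑ c ∈ S.filter (fun c => p c ≠ p b), e b c * (z b + z c) = ε * z b) →
        ∀ b ∈ S, z b = 0 := by
  have H : AllMatch8 S p E := by
    intro x hx y hy hxy
    obtain ⟨e, he, hm, h1⟩ := hmatch x hx y hy hxy
    obtain ⟨m, hm1, hm2⟩ := exists_match_of_isMatch7 hxy hm
    refine ⟨e, he, m, hm1, hm2, ?_⟩
    have h2 := hm2 x hx y hy hxy
    rw [h1] at h2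
    by_contra h3
    rw [if_neg (fun h => h3 h.2.symm)] at h2
    exact one_ne_zero h2
  obtain ⟨l, hl, hfin⟩ := exists_noEigen hadd hfib H hn
  refine ⟨l, hl, fun z hz ε h b hb => ?_⟩
  refine hfin ε z (fun α => ?_) (fun c hc => ?_) b hb
  · by_cases h1 : ∃ b ∈ S, p b = α
    · obtain ⟨b, hb, rfl⟩ := h1
      exact hz b hb
    · refine Finset.sum_eq_zero fun c hc => ?_
      rw [Finset.mem_filter] at hc
      exact absurd ⟨c, hc⟩ h1
  · rw [← h c hc]
    unfold opT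
    exact Finset.sum_congr rfl fun d _ => by rw [add_comm (z d)]

end

end Pool.Agent.Lib.MP_89bcae_ag

end

section

/-!
# The Rédei maps of the surfaces `D(t) y² = g(x) - t`
-/

open Polynomial

open scoped Classical

namespace Pool.Agent.Lib.MP_89bcae_ag

section

variable {F : Type*} [Field F]

/-- The set `Z` has an even number of elements in each fibre of `g`. -/
def EvenOver (g : F[X]) (Z : Finset F) : Prop :=
  ∀ α : F, Even (Z.filter fun c => g.eval c = α).card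

/-- The product `PZ g D Z b`, multiplied by the product of the differences `b - c` over the
`c ≠ b` with `g(c) = g(b)` for which exactly one of `b`, `c` belongs to `Z`. -/
noncomputable def PZ1 (g D : F[X]) (Z : Finset F) (b : F) : F :=
  PZ g D Z b * ∏ c ∈ (g - C (g.eval b)).roots.toFinset.filter
    (fun c => c ≠ b ∧ (c ∈ Z ↔ b ∉ Z)), (b - c)

/-- The Rédei map of the products `P`: the set of the roots `b` of `G` for which `P Z b` has the
property `N`. -/
noncomputable def redei (N : F → Prop) (P : Finset F → F → F) (G : F[X]) (Z : Finset F) :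
    Finset F :=
  G.roots.toFinset.filter fun b => N (P Z b)

/-- The Rédei map of the products `P` has no eigenvalue `0` or `1`: a nonempty set of roots of
`D ∘ g`, even on the fibres of `g`, is not mapped to the empty set or to itself. -/
def NoEigen (N : F → Prop) (P : Finset F → F → F) (g D : F[X]) : Prop :=
  ∀ Z ⊆ (D.comp g).roots.toFinset, EvenOver g Z → Z.Nonempty →
    redei N P (D.comp g) Z ≠ ∅ ∧ redei N P (D.comp g) Z ≠ Z

end

end Pool.Agent.Lib.MP_89bcae_ag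

end

section

/-!
# Rédei maps with prescribed weights: the algebra
-/

open Polynomial

open scoped Classical

set_option linter.unusedSimpArgs false
set_option linter.unusedVariables false
set_option linter.unusedSectionVars false

namespace Pool.Agent.Lib.MP_89bcae_ag

section

variable {F : Type*} [Field F]

theorem eval_derivative_prod8 (R : Finset F) {b : F} (hb : b ∈ R) :
    (derivative (∏ c ∈ R, (X - C c))).eval b = ∏ c ∈ R.erase b, (b - c) := by
  rw [← Finset.mul_prod_erase R _ hb, derivative_mul, eval_add, eval_mul, eval_mul,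
    derivative_X_sub_C, eval_one, one_mul, eval_sub, eval_X, eval_C, sub_self, zero_mul, add_zero,
    eval_prod]
  exact Finset.prod_congr rfl fun c _ => by rw [eval_sub, eval_X, eval_C]

variable [IsAlgClosed F]

theorem eq_prod_of_separable8 {P : F[X]} (hP : P.Separable) :
    P = C P.leadingCoeff * ∏ c ∈ P.roots.toFinset, (X - C c) := by
  have h1 : P.roots.Nodup := nodup_roots hP
  have h2 : P.Splits := IsAlgClosed.splits P
  conv_lhs => rw [h2.eq_prod_roots]
  congr 1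
  rw [Finset.prod_eq_multiset_prod, Multiset.toFinset_val, Multiset.dedup_eq_self.mpr h1]

theorem card_roots_of_separable8 {P : F[X]} (hP : P.Separable) :
    P.roots.toFinset.card = P.natDegree := by
  rw [Multiset.toFinset_card_of_nodup (nodup_roots hP),
    (IsAlgClosed.splits P).natDegree_eq_card_roots]

variable {g D : F[X]}

theorem mem_R8 (hsep : (D.comp g).Separable) {b : F} :
    b ∈ (D.comp g).roots.toFinset ↔ D.eval (g.eval b) = 0 := by
  have hne : D.comp g ≠ 0 := hsep.ne_zero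
  rw [Multiset.mem_toFinset, mem_roots hne, IsRoot.def, eval_comp]

theorem sep_fibre8 (hsep : (D.comp g).Separable) {b : F} (hb : b ∈ (D.comp g).roots.toFinset) :
    (g - C (g.eval b)).Separable := by
  have h1 : D.eval (g.eval b) = 0 := (mem_R8 hsep).mp hb
  have h2 : X - C (g.eval b) ∣ D := dvd_iff_isRoot.mpr h1
  obtain ⟨q, hq⟩ := h2
  refine hsep.of_dvd ⟨q.comp g, ?_⟩
  conv_lhs => rw [hq, mul_comp, sub_comp, X_comp, C_comp]

theorem fibre_eq8 (hg : g.Monic) (hdeg : g.natDegree = 3) (hsep : (D.comp g).Separable) {b : F}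
    (hb : b ∈ (D.comp g).roots.toFinset) :
    (D.comp g).roots.toFinset.filter (fun c => g.eval c = g.eval b) =
      (g - C (g.eval b)).roots.toFinset := by
  have h1 : D.eval (g.eval b) = 0 := (mem_R8 hsep).mp hb
  have h2 : g - C (g.eval b) ≠ 0 := (sep_fibre8 hsep hb).ne_zero
  ext c
  rw [Finset.mem_filter, mem_R8 hsep, Multiset.mem_toFinset, mem_roots h2, IsRoot.def, eval_sub,
    eval_C, sub_eq_zero]
  constructor
  · exact fun h => h.2
  · intro h
    exact ⟨by rw [h]; exact h1, h⟩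

theorem card_fibre8 (hg : g.Monic) (hdeg : g.natDegree = 3) (hsep : (D.comp g).Separable) {b : F}
    (hb : b ∈ (D.comp g).roots.toFinset) :
    ((D.comp g).roots.toFinset.filter (fun c => g.eval c = g.eval b)).card = 3 := by
  rw [fibre_eq8 hg hdeg hsep hb, card_roots_of_separable8 (sep_fibre8 hsep hb), natDegree_sub_C,
    hdeg]

theorem card_image8 (hg : g.Monic) (hdeg : g.natDegree = 3) (hsep : (D.comp g).Separable) :
    ((D.comp g).roots.toFinset.image fun c => g.eval c).card = D.natDegree := by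
  have h1 : (D.comp g).roots.toFinset.card = D.natDegree * 3 := by
    rw [card_roots_of_separable8 hsep, natDegree_comp, hdeg]
  have h2 := Finset.card_eq_sum_card_image (fun c => g.eval c) (D.comp g).roots.toFinset
  have h3 : ∀ α ∈ (D.comp g).roots.toFinset.image (fun c => g.eval c),
      ((D.comp g).roots.toFinset.filter (fun c => g.eval c = α)).card = 3 := by
    intro α hα
    obtain ⟨b, hb, rfl⟩ := Finset.mem_image.mp hα
    exact card_fibre8 hg hdeg hsep hb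
  rw [Finset.sum_congr rfl h3, Finset.sum_const, h1, smul_eq_mul] at h2
  omega

/-- The derivative of `D` at `g(b)` is the product of the differences. -/
theorem derivative_eq_prod8 (hg : g.Monic) (hdeg : g.natDegree = 3)
    (hsep : (D.comp g).Separable) {b : F} (hb : b ∈ (D.comp g).roots.toFinset) :
    (derivative D).eval (g.eval b) = D.leadingCoeff *
      ∏ c ∈ (D.comp g).roots.toFinset.filter (fun c => g.eval c ≠ g.eval b), (b - c) := by
  have hlc : (D.comp g).leadingCoeff = D.leadingCoeff := by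
    rw [leadingCoeff_comp (by rw [hdeg]; norm_num), hg.leadingCoeff, one_pow, mul_one]
  have h1 : (derivative (D.comp g)).eval b =
      D.leadingCoeff * ∏ c ∈ (D.comp g).roots.toFinset.erase b, (b - c) := by
    conv_lhs => rw [eq_prod_of_separable8 hsep, derivative_C_mul, eval_C_mul,
      eval_derivative_prod8 _ hb, hlc]
  have h2 : (derivative g).eval b =
      ∏ c ∈ ((D.comp g).roots.toFinset.filter (fun c => g.eval c = g.eval b)).erase b,
        (b - c) := by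
    have h3 : derivative g = derivative (g - C (g.eval b)) := by
      rw [derivative_sub, derivative_C, sub_zero]
    have hb' : b ∈ (g - C (g.eval b)).roots.toFinset := by
      rw [← fibre_eq8 hg hdeg hsep hb, Finset.mem_filter]
      exact ⟨hb, rfl⟩
    have hm : (g - C (g.eval b)).Monic := hg.sub_of_left (by
      refine lt_of_le_of_lt degree_C_le ?_
      rw [degree_eq_natDegree hg.ne_zero, hdeg]
      norm_num)
    rw [h3, eq_prod_of_separable8 (sep_fibre8 hsep hb), hm.leadingCoeff, C_1, one_mul,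
      eval_derivative_prod8 _ hb', fibre_eq8 hg hdeg hsep hb]
  have h4 : (derivative (D.comp g)).eval b =
      (derivative g).eval b * (derivative D).eval (g.eval b) := by
    rw [derivative_comp, eval_mul, eval_comp]
  have h5 : (D.comp g).roots.toFinset.erase b =
      (((D.comp g).roots.toFinset.filter (fun c => g.eval c = g.eval b)).erase b) ∪
        (D.comp g).roots.toFinset.filter (fun c => g.eval c ≠ g.eval b) := by
    ext c
    simp only [Finset.mem_erase, Finset.mem_union, Finset.mem_filter]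
    by_cases h : g.eval c = g.eval b
    · simp [h]
    · have h' : c ≠ b := fun h0 => h (by rw [h0])
      simp [h, h']
  have h6 : Disjoint (((D.comp g).roots.toFinset.filter
      (fun c => g.eval c = g.eval b)).erase b)
        ((D.comp g).roots.toFinset.filter (fun c => g.eval c ≠ g.eval b)) := by
    rw [Finset.disjoint_left]
    intro c hc hc'
    rw [Finset.mem_erase, Finset.mem_filter] at hc
    rw [Finset.mem_filter] at hc'
    exact hc'.2 hc.2.2
  rw [h5, Finset.prod_union h6, ← h2, h4] at h1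
  have h7 : (derivative g).eval b ≠ 0 := by
    rw [h2, Finset.prod_ne_zero_iff]
    intro c hc
    exact sub_ne_zero.mpr (Ne.symm (Finset.mem_erase.mp hc).1)
  apply mul_left_cancel₀ h7
  rw [h1]
  ring

/-- The value of `l` at a product. -/
theorem l_prod8 {K : Subfield F} {l : F → ZMod 2}
    (hmul : ∀ x ∈ K, ∀ y ∈ K, x ≠ 0 → y ≠ 0 → l (x * y) = l x + l y) {ι : Type*}
    (s : Finset ι) (f : ι → F) (hf : ∀ i ∈ s, f i ∈ K ∧ f i ≠ 0) :
    (∏ i ∈ s, f i ∈ K ∧ ∏ i ∈ s, f i ≠ 0) ∧ l (∏ i ∈ s, f i) = ∑ i ∈ s, l (f i) := by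
  have h1 : l 1 = 0 := by
    have := hmul 1 K.one_mem 1 K.one_mem one_ne_zero one_ne_zero
    rw [one_mul] at this
    have h2 : ∀ t : ZMod 2, t = t + t → t = 0 := by decide
    exact h2 _ this
  induction s using Finset.induction_on with
  | empty => simp [h1, K.one_mem]
  | insert a s ha ih =>
    have h2 := ih fun i hi => hf i (Finset.mem_insert_of_mem hi)
    have h3 := hf a (Finset.mem_insert_self a s)
    rw [Finset.prod_insert ha, Finset.sum_insert ha]
    exact ⟨⟨K.mul_mem h3.1 h2.1.1, mul_ne_zero h3.2 h2.1.2⟩, by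
      rw [hmul _ h3.1 _ h2.1.1 h3.2 h2.1.2, h2.2]⟩

/-- The products `PZ` and `PZ1` lie in the field generated by the roots and are not `0`. -/
theorem PZ_mem8 (hg : g.Monic) (hdeg : g.natDegree = 3) (hsep : (D.comp g).Separable)
    (K : Subfield F) (hK : ∀ x ∈ (D.comp g).roots.toFinset, x ∈ K) (hlc : D.leadingCoeff ∈ K)
    {Z : Finset F} (hZ : Z ⊆ (D.comp g).roots.toFinset) {b : F}
    (hb : b ∈ (D.comp g).roots.toFinset) :
    (PZ g D Z b ∈ K ∧ PZ g D Z b ≠ 0) ∧ (PZ1 g D Z b ∈ K ∧ PZ1 g D Z b ≠ 0) := by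
  have hD0 : D ≠ 0 := by
    rintro rfl
    rw [zero_comp] at hsep
    exact not_separable_zero hsep
  have hlc' : D.leadingCoeff ≠ 0 := leadingCoeff_ne_zero.mpr hD0
  have hdiff : ∀ c ∈ (D.comp g).roots.toFinset, b ≠ c → b - c ∈ K ∧ b - c ≠ 0 :=
    fun c hc hbc => ⟨K.sub_mem (hK b hb) (hK c hc), sub_ne_zero.mpr hbc⟩
  have h1 : PZ g D Z b ∈ K ∧ PZ g D Z b ≠ 0 := by
    have h3 : -(derivative D).eval (g.eval b) ∈ K ∧ -(derivative D).eval (g.eval b) ≠ 0 := by
      rw [derivative_eq_prod8 hg hdeg hsep hb]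
      have h4 : ∀ c ∈ (D.comp g).roots.toFinset.filter (fun c => g.eval c ≠ g.eval b),
          b - c ∈ K ∧ b - c ≠ 0 := fun c hc => by
        rw [Finset.mem_filter] at hc
        exact hdiff c hc.1 (fun h => hc.2 (by rw [h]))
      exact ⟨K.neg_mem (K.mul_mem hlc (K.prod_mem fun c hc => (h4 c hc).1)),
        neg_ne_zero.mpr (mul_ne_zero hlc' (Finset.prod_ne_zero_iff.mpr fun c hc =>
          (h4 c hc).2))⟩
    have h4 : ∀ c ∈ Z.filter (fun β => g.eval β ≠ g.eval b), b - c ∈ K ∧ b - c ≠ 0 :=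
      fun c hc => by
        rw [Finset.mem_filter] at hc
        exact hdiff c (hZ hc.1) (fun h => hc.2 (by rw [h]))
    unfold PZ
    refine ⟨K.mul_mem (K.prod_mem fun c hc => (h4 c hc).1) ?_,
      mul_ne_zero (Finset.prod_ne_zero_iff.mpr fun c hc => (h4 c hc).2) ?_⟩
    · split_ifs
      · exact h3.1
      · exact K.one_mem
    · split_ifs
      · exact h3.2
      · exact one_ne_zero
  refine ⟨h1, ?_⟩
  have h4 : ∀ c ∈ (g - C (g.eval b)).roots.toFinset.filter (fun c => c ≠ b ∧ (c ∈ Z ↔ b ∉ Z)),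
      b - c ∈ K ∧ b - c ≠ 0 := fun c hc => by
    rw [Finset.mem_filter, ← fibre_eq8 hg hdeg hsep hb, Finset.mem_filter] at hc
    exact hdiff c hc.1.1 (Ne.symm hc.2.1)
  unfold PZ1
  exact ⟨K.mul_mem h1.1 (K.prod_mem fun c hc => (h4 c hc).1),
    mul_ne_zero h1.2 (Finset.prod_ne_zero_iff.mpr fun c hc => (h4 c hc).2)⟩

/-- **Existence of a Rédei map without eigenvalues**: the set `HH` of functions on `F` is closed
under addition, its members are homomorphisms on the subfield `K`, and for any two roots `x`, `y`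
of `D(g(x))` in different fibres there is an `l` in `HH` whose weights are those of a matching of
the two fibres which matches `x` and `y`. -/
theorem exists_noEigen_of_match8 (hg : g.Monic) (hdeg : g.natDegree = 3)
    (hsep : (D.comp g).Separable) (hn : 3 ≤ D.natDegree) (K : Subfield F)
    (hK : ∀ x ∈ (D.comp g).roots.toFinset, x ∈ K) (hlc : D.leadingCoeff ∈ K)
    (HH : Set (F → ZMod 2)) (hadd : ∀ l ∈ HH, ∀ l' ∈ HH, l + l' ∈ HH)
    (hmul : ∀ l ∈ HH, ∀ x ∈ K, ∀ y ∈ K, x ≠ 0 → y ≠ 0 → l (x * y) = l x + l y)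
    (hneg : ∀ l ∈ HH, l (-1) = 0) (hlc0 : ∀ l ∈ HH, l D.leadingCoeff = 0)
    (hfib : ∀ l ∈ HH, ∀ x ∈ (D.comp g).roots.toFinset, ∀ y ∈ (D.comp g).roots.toFinset, x ≠ y →
      g.eval x = g.eval y → l (x - y) = 0)
    (hmatch : ∀ x ∈ (D.comp g).roots.toFinset, ∀ y ∈ (D.comp g).roots.toFinset,
      g.eval x ≠ g.eval y → ∃ l ∈ HH, IsMatch7 (D.comp g).roots.toFinset (fun b => g.eval b)
        (g.eval x) (g.eval y) (fun b c => l (b - c)) ∧ l (x - y) = 1) :
    ∃ l ∈ HH, NoEigen (fun x => l x = 1) (PZ g D) g D ∧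
      NoEigen (fun x => l x = 1) (PZ1 g D) g D := by
  set S := (D.comp g).roots.toFinset with hS
  obtain ⟨e, ⟨l, hl, rfl⟩, he⟩ := exists_pattern8 S (fun b => g.eval b)
    (fun b hb => card_fibre8 hg hdeg hsep hb) (by rw [hS, card_image8 hg hdeg hsep]; exact hn)
    {e | ∃ l ∈ HH, e = fun b c => l (b - c)}
    (by
      rintro _ ⟨l, hl, rfl⟩ _ ⟨l', hl', rfl⟩
      exact ⟨l + l', hadd l hl l' hl', rfl⟩)
    (fun b hb c hc hbc => by
      obtain ⟨l, hl, h1, h2⟩ := hmatch b hb c hc hbc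
      exact ⟨_, ⟨l, hl, rfl⟩, h1, h2⟩)
  have hmull := hmul l hl
  -- the differences
  have hdiff : ∀ b ∈ S, ∀ c ∈ S, b ≠ c → b - c ∈ K ∧ b - c ≠ 0 := fun b hb c hc hbc =>
    ⟨K.sub_mem (hK b hb) (hK c hc), sub_ne_zero.mpr hbc⟩
  have hlc' : D.leadingCoeff ≠ 0 := by
    rw [Ne, leadingCoeff_eq_zero]
    rintro rfl
    rw [natDegree_zero] at hn
    omega
  -- the derivative
  have hder : ∀ b ∈ S, (-(derivative D).eval (g.eval b) ∈ K ∧
      -(derivative D).eval (g.eval b) ≠ 0) ∧ l (-(derivative D).eval (g.eval b)) =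
        ∑ c ∈ S.filter (fun c => g.eval c ≠ g.eval b), l (b - c) := by
    intro b hb
    obtain ⟨⟨h1, h2⟩, h3⟩ := l_prod8 hmull (S.filter (fun c => g.eval c ≠ g.eval b))
      (fun c => b - c) (fun c hc => by
        rw [Finset.mem_filter] at hc
        exact hdiff b hb c hc.1 (fun h => hc.2 (by rw [h])))
    rw [derivative_eq_prod8 hg hdeg hsep hb, neg_eq_neg_one_mul]
    have h4 : (-1 : F) ∈ K := K.neg_mem K.one_mem
    have h5 : (-1 : F) ≠ 0 := neg_ne_zero.mpr one_ne_zero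
    refine ⟨⟨K.mul_mem h4 (K.mul_mem hlc h1), mul_ne_zero h5 (mul_ne_zero hlc' h2)⟩, ?_⟩
    rw [hmull _ h4 _ (K.mul_mem hlc h1) h5 (mul_ne_zero hlc' h2), hneg l hl, zero_add,
      hmull _ hlc _ h1 hlc' h2, hlc0 l hl, zero_add, h3]
  -- the values of `l` at the products
  have hPZ : ∀ Z ⊆ S, ∀ b ∈ S, (PZ g D Z b ∈ K ∧ PZ g D Z b ≠ 0) ∧ l (PZ g D Z b) =
      ∑ c ∈ S.filter (fun c => g.eval c ≠ g.eval b),
        l (b - c) * ((if b ∈ Z then 1 else 0) + if c ∈ Z then 1 else 0) := by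
    intro Z hZ b hb
    obtain ⟨⟨h1, h2⟩, h3⟩ := l_prod8 hmull (Z.filter (fun β => g.eval β ≠ g.eval b))
      (fun c => b - c) (fun c hc => by
        rw [Finset.mem_filter] at hc
        exact hdiff b hb c (hZ hc.1) (fun h => hc.2 (by rw [h])))
    have h4 : ∑ c ∈ Z.filter (fun β => g.eval β ≠ g.eval b), l (b - c) =
        ∑ c ∈ S.filter (fun c => g.eval c ≠ g.eval b), l (b - c) * if c ∈ Z then 1 else 0 := by
      have h5 : Z.filter (fun β => g.eval β ≠ g.eval b) =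
          (S.filter (fun c => g.eval c ≠ g.eval b)).filter (fun c => c ∈ Z) := by
        ext c
        simp only [Finset.mem_filter]
        exact ⟨fun h => ⟨⟨hZ h.1, h.2⟩, h.1⟩, fun h => ⟨h.2, h.1.2⟩⟩
      rw [h5, Finset.sum_filter]
      refine Finset.sum_congr rfl fun c _ => ?_
      split_ifs <;> simp
    unfold PZ
    by_cases hbZ : b ∈ Z
    · obtain ⟨⟨h6, h7⟩, h8⟩ := hder b hb
      rw [if_pos hbZ]
      refine ⟨⟨K.mul_mem h1 h6, mul_ne_zero h2 h7⟩, ?_⟩
      rw [hmull _ h1 _ h6 h2 h7, h3, h4, h8, ← Finset.sum_add_distrib]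
      refine Finset.sum_congr rfl fun c _ => ?_
      rw [if_pos hbZ]
      ring
    · rw [if_neg hbZ, mul_one]
      refine ⟨⟨h1, h2⟩, ?_⟩
      rw [h3, h4]
      refine Finset.sum_congr rfl fun c _ => ?_
      rw [if_neg hbZ, zero_add]
  have hPZ1 : ∀ Z ⊆ S, ∀ b ∈ S, l (PZ1 g D Z b) = l (PZ g D Z b) := by
    intro Z hZ b hb
    have hsub : ∀ c, c ∈ (g - C (g.eval b)).roots.toFinset → c ∈ S ∧ g.eval c = g.eval b := by
      intro c hc
      rw [← fibre_eq8 hg hdeg hsep hb, Finset.mem_filter] at hc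
      exact hc
    obtain ⟨⟨h1, h2⟩, h3⟩ := l_prod8 hmull ((g - C (g.eval b)).roots.toFinset.filter
      (fun c => c ≠ b ∧ (c ∈ Z ↔ b ∉ Z))) (fun c => b - c) (fun c hc => by
        rw [Finset.mem_filter] at hc
        exact hdiff b hb c (hsub c hc.1).1 (Ne.symm hc.2.1))
    obtain ⟨⟨h4, h5⟩, _⟩ := hPZ Z hZ b hb
    unfold PZ1
    rw [hmull _ h4 _ h1 h5 h2, h3, Finset.sum_eq_zero, add_zero]
    intro c hc
    rw [Finset.mem_filter] at hc
    exact hfib l hl b hb c (hsub c hc.1).1 (Ne.symm hc.2.1) (hsub c hc.1).2.symm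
  -- the conclusion
  have key : ∀ P : Finset F → F → F, (∀ Z ⊆ S, ∀ b ∈ S, l (P Z b) = l (PZ g D Z b)) →
      NoEigen (fun x => l x = 1) P g D := by
    intro P hP Z hZ hev hne
    have hz : ∀ b ∈ S, ∑ c ∈ S.filter (fun c => g.eval c = g.eval b),
        (if c ∈ Z then (1 : ZMod 2) else 0) = 0 := by
      intro b _
      rw [Finset.sum_ite, Finset.sum_const_zero, add_zero, Finset.sum_const, nsmul_eq_mul,
        mul_one, Finset.filter_filter]
      have h1 : S.filter (fun c => g.eval c = g.eval b ∧ c ∈ Z) =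
          Z.filter (fun c => g.eval c = g.eval b) := by
        ext c
        simp only [Finset.mem_filter]
        exact ⟨fun h => ⟨h.2.2, h.2.1⟩, fun h => ⟨hZ h.1, h.2, h.1⟩⟩
      rw [h1]
      exact (ZMod.natCast_eq_zero_iff_even).mpr (hev (g.eval b))
    have hT := he (fun c => if c ∈ Z then 1 else 0) hz
    have hval : ∀ Z' : Finset F, redei (fun x => l x = 1) P (D.comp g) Z = Z' → Z' ⊆ S →
        ∀ b ∈ S, ∑ c ∈ S.filter (fun c => g.eval c ≠ g.eval b),
          l (b - c) * ((if b ∈ Z then 1 else 0) + if c ∈ Z then 1 else 0) =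
            if b ∈ Z' then 1 else 0 := by
      intro Z' hZ' _ b hb
      rw [← (hPZ Z hZ b hb).2, ← hP Z hZ b hb, ← hZ']
      have h1 : b ∈ redei (fun x => l x = 1) P (D.comp g) Z ↔ l (P Z b) = 1 := by
        have h5 : ∀ N : F → Prop, b ∈ redei N P (D.comp g) Z ↔ N (P Z b) := by
          intro N
          unfold redei
          rw [Finset.mem_filter]
          exact ⟨fun h => h.2, fun h => ⟨hb, h⟩⟩
        exact h5 _
      by_cases h2 : l (P Z b) = 1
      · rw [if_pos (h1.mpr h2), h2]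
      · rw [if_neg (fun h => h2 (h1.mp h))]
        have h3 : ∀ t : ZMod 2, t ≠ 1 → t = 0 := by decide
        exact h3 _ h2
    obtain ⟨b0, hb0⟩ := hne
    constructor
    · intro h0
      have h1 := hT 0 (fun b hb => by
        rw [zero_mul]
        have h2 := hval ∅ h0 (Finset.empty_subset _) b hb
        rw [if_neg (Finset.notMem_empty b)] at h2
        exact h2) b0 (hZ hb0)
      simp only [if_pos hb0] at h1
      exact one_ne_zero h1
    · intro h0
      have h1 := hT 1 (fun b hb => by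
        rw [one_mul]
        exact hval Z h0 hZ b hb) b0 (hZ hb0)
      simp only [if_pos hb0] at h1
      exact one_ne_zero h1
  exact ⟨l, hl, key _ fun Z _ b _ => rfl, key _ hPZ1⟩

end

end Pool.Agent.Lib.MP_89bcae_ag

end

section

/-!
ROW R13 (200-350 lines). The point at infinity: a function whose affine divisor has degree `0` is,
up to a constant `c`, zero at infinity.

STATEMENT: if `∑_P ord_P(h) = 0` then for some constant `c` either `h = c`, or `h - c ≠ 0` and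
`∑_P ord_P(h - c) < 0`.

PROOF. For a nonzero `a = ∑_{i<ℓ} p_i(x) y^i` of the coordinate ring let
`W(a) = max_{p_i ≠ 0} (ℓ deg p_i + i m)`, `m = deg f`. As `m` is prime to `ℓ` the numbers
`ℓ deg p_i + i m` are different modulo `ℓ`, so the maximum is attained exactly once.
(1) `W(a b) = W(a) + W(b)`: in `a b = ∑ p_i q_j y^(i+j)`, `y^(i+j) = f y^(i+j-ℓ)` if `i + j ≥ ℓ`, the
term `(i, j)` contributes to the component `(i+j) mod ℓ` a polynomial of weight exactly
`(ℓ deg p_i + i m) + (ℓ deg q_j + j m)` (`deg f = m` accounts for the carry), and all pairs except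
the pair of the two maxima have strictly smaller weight; in the component of that pair the degree
is therefore exactly the one of this term, and all other components have smaller weight.
(2) `W(rot a) = W(a)` clearly, so for `N = ∏ rot^i a` in `E[x]` (see `R10`): `ℓ W(a) = W(N)
= ℓ deg N`, `W(a) = deg N`.
(3) `∑_P ord_P(a) = deg N = W(a)`: by `exists_nrm_eq` (R10), `N = c ∏_P (x - P.x)^{ord_P(a)}`
(here all `ord_P(a) ≥ 0`, so this is an equality of polynomials, by `ofPoly_injective`), whose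
degree is `∑_P ord_P(a)`.
(4) `h = a / q` with `q` in `E[x]` (multiply by conjugates as in R10); then
`0 = ∑ ord_P(h) = W(a) - W(q)`, `W(q) = ℓ deg q`. So the unique maximum of
`ℓ deg p_i + i m` is `≡ 0` modulo `ℓ`, so `i = 0`, `deg p_0 = deg q`, and with
`c = lc(p_0)/lc(q)` either `a = c q` or `W(a - c q) < W(q)`, and `∑ ord_P(h - c) = W(a - c q) - W(q)`.
-/

open Polynomial IsDedekindDomain

open scoped Classical

namespace Pool.Agent.Lib.MP_89bcae_ag.Sup

universe u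

variable {ℓ : ℕ} {E : Type u} [Field E] {f : E[X]} [hG : IsGood ℓ f]

/-- The degree of a divisor. -/
noncomputable def dg (D : Pt ℓ f →₀ ℤ) : ℤ := D.sum fun _ n => n

private lemma r13_rotE_ofPoly (ζ : E) (hζ : ζ ^ ℓ = 1) (h0 : ζ ≠ 0) (p : E[X]) :
    rotE ζ hζ h0 (ofPoly p : Coord ℓ f) = ofPoly p := rotC_ofPoly ζ hζ p

private lemma r13_rotE_yy (ζ : E) (hζ : ζ ^ ℓ = 1) (h0 : ζ ≠ 0) :
    rotE ζ hζ h0 (yy : Coord ℓ f) = ofPoly (C ζ) * yy := rotC_yy ζ hζ

private lemma r13_rot (ζ : E) (hζ : ζ ^ ℓ = 1) (h0 : ζ ≠ 0) (p : ℕ → E[X]) (u : (Fn ℓ f)ˣ)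
    (hu : (u : Fn ℓ f) = algebraMap (Coord ℓ f) (Fn ℓ f)
      (∑ j ∈ Finset.range ℓ, ofPoly (p j) * yy ^ j)) (k : ℕ) :
    (((rotU ζ hζ h0)^[k] u : (Fn ℓ f)ˣ) : Fn ℓ f) = algebraMap (Coord ℓ f) (Fn ℓ f)
      (∑ j ∈ Finset.range ℓ, ofPoly (C (ζ ^ (k * j)) * p j) * yy ^ j) := by
  induction k with
  | zero =>
    rw [Function.iterate_zero, id, hu]
    congr 1
    refine Finset.sum_congr rfl fun j _ => ?_
    rw [zero_mul, pow_zero, C_1, one_mul]
  | succ k ih =>
    rw [Function.iterate_succ_apply']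
    have h1 : ((rotU ζ hζ h0 ((rotU ζ hζ h0)^[k] u) : (Fn ℓ f)ˣ) : Fn ℓ f) =
        autF (rotE ζ hζ h0) (((rotU ζ hζ h0)^[k] u : (Fn ℓ f)ˣ) : Fn ℓ f) := rfl
    rw [h1, ih, autF_algebraMap, map_sum]
    congr 1
    refine Finset.sum_congr rfl fun j _ => ?_
    have h2 : rotE ζ hζ h0 ((yy : Coord ℓ f) ^ j) = ofPoly (C (ζ ^ j)) * yy ^ j := by
      rw [map_pow, r13_rotE_yy, mul_pow, ← map_pow, ← C_pow]
    rw [map_mul, h2, r13_rotE_ofPoly, ← mul_assoc, ← map_mul]
    congr 2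
    rw [Nat.succ_mul, pow_add, C_mul]
    ring

/-- the terms of the norm -/
private noncomputable def TT (ℓ : ℕ) (f : E[X]) (ζ : E) (p : ℕ → E[X]) (φ : Fin ℓ → Fin ℓ) :
    E[X] :=
  (∏ k : Fin ℓ, (C (ζ ^ ((k : ℕ) * (φ k : ℕ))) * p (φ k))) * f ^ ((∑ k, (φ k : ℕ)) / ℓ)

private noncomputable def HH (ℓ : ℕ) (f : E[X]) (ζ : E) (p : ℕ → E[X]) (j : ℕ) : E[X] :=
  ∑ φ ∈ (Finset.univ : Finset (Fin ℓ → Fin ℓ)).filter (fun φ => (∑ k, (φ k : ℕ)) % ℓ = j),
    TT ℓ f ζ p φ

omit hG in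
private lemma r13_yy_pow (s : ℕ) :
    (yy : Coord ℓ f) ^ s = ofPoly (f ^ (s / ℓ)) * yy ^ (s % ℓ) := by
  conv_lhs => rw [← Nat.div_add_mod s ℓ]
  rw [pow_add, pow_mul, yy_pow, map_pow]

omit hG in
private lemma r13_norm_poly (hℓ : 0 < ℓ) (ζ : E) (p : ℕ → E[X]) :
    ∏ k ∈ Finset.range ℓ, (∑ j ∈ Finset.range ℓ,
      (ofPoly (C (ζ ^ (k * j)) * p j) : Coord ℓ f) * yy ^ j) =
      ∑ j ∈ Finset.range ℓ, ofPoly (HH ℓ f ζ p j) * yy ^ j := by
  rw [Finset.prod_range]
  have h1 : ∀ k : Fin ℓ, (∑ j ∈ Finset.range ℓ,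
      (ofPoly (C (ζ ^ ((k : ℕ) * j)) * p j) : Coord ℓ f) * yy ^ j) =
      ∑ j : Fin ℓ, (ofPoly (C (ζ ^ ((k : ℕ) * (j : ℕ))) * p j) : Coord ℓ f) * yy ^ (j : ℕ) :=
    fun k => Finset.sum_range _
  rw [Finset.prod_congr rfl fun k _ => h1 k, Finset.prod_univ_sum, Fintype.piFinset_univ]
  have h2 : ∀ φ : Fin ℓ → Fin ℓ, (∏ k : Fin ℓ,
      (ofPoly (C (ζ ^ ((k : ℕ) * (φ k : ℕ))) * p (φ k)) : Coord ℓ f) * yy ^ (φ k : ℕ)) =
      ofPoly (TT ℓ f ζ p φ) * yy ^ ((∑ k, (φ k : ℕ)) % ℓ) := by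
    intro φ
    rw [Finset.prod_mul_distrib, Finset.prod_pow_eq_pow_sum, r13_yy_pow, TT, map_mul, map_prod]
    ring
  rw [Finset.sum_congr rfl fun φ _ => h2 φ]
  have h3 := Finset.sum_fiberwise_of_maps_to
    (s := (Finset.univ : Finset (Fin ℓ → Fin ℓ))) (t := Finset.range ℓ)
    (g := fun φ => (∑ k, (φ k : ℕ)) % ℓ)
    (fun φ _ => Finset.mem_range.mpr (Nat.mod_lt _ hℓ))
    (fun φ => (ofPoly (TT ℓ f ζ p φ) : Coord ℓ f) * yy ^ ((∑ k, (φ k : ℕ)) % ℓ))
  rw [← h3]
  refine Finset.sum_congr rfl fun j _ => ?_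
  rw [HH, map_sum, Finset.sum_mul]
  refine Finset.sum_congr rfl fun φ hφ => ?_
  rw [(Finset.mem_filter.mp hφ).2]

/-- `i0` is the index of the maximal weight `w` -/
private structure Top (ℓ m : ℕ) (p : ℕ → E[X]) (i0 w : ℕ) : Prop where
  lt : i0 < ℓ
  ne : p i0 ≠ 0
  eq : ℓ * (p i0).natDegree + i0 * m = w
  max : ∀ i < ℓ, i ≠ i0 → p i ≠ 0 → ℓ * (p i).natDegree + i * m < w

omit hG in
private lemma r13_top_inj {m : ℕ} (hc : m.Coprime ℓ) {i j d e : ℕ} (hi : i < ℓ) (hj : j < ℓ)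
    (h : ℓ * d + i * m = ℓ * e + j * m) : i = j := by
  have h1 : i * m ≡ j * m [MOD ℓ] := by
    have h2 : (ℓ * d + i * m) % ℓ = (ℓ * e + j * m) % ℓ := by rw [h]
    rw [Nat.mul_add_mod, Nat.mul_add_mod] at h2
    exact h2
  have h3 : i ≡ j [MOD ℓ] := Nat.ModEq.cancel_right_of_coprime (by rwa [Nat.gcd_comm]) h1
  have h4 : i % ℓ = j % ℓ := h3
  rwa [Nat.mod_eq_of_lt hi, Nat.mod_eq_of_lt hj] at h4

omit hG in
private lemma r13_exists_top {m : ℕ} (hc : m.Coprime ℓ) (p : ℕ → E[X])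
    (h : ∃ i < ℓ, p i ≠ 0) : ∃ i0 w, Top ℓ m p i0 w := by
  obtain ⟨i, hi, hpi⟩ := h
  have hne : ((Finset.range ℓ).filter (fun i => p i ≠ 0)).Nonempty :=
    ⟨i, Finset.mem_filter.mpr ⟨Finset.mem_range.mpr hi, hpi⟩⟩
  obtain ⟨i0, hi0, hmax⟩ := Finset.exists_max_image _
    (fun i => ℓ * (p i).natDegree + i * m) hne
  rw [Finset.mem_filter, Finset.mem_range] at hi0
  refine ⟨i0, _, hi0.1, hi0.2, rfl, ?_⟩
  intro j hj hji hpj
  have h1 := hmax j (Finset.mem_filter.mpr ⟨Finset.mem_range.mpr hj, hpj⟩)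
  refine lt_of_le_of_ne h1 fun h2 => hji ?_
  exact r13_top_inj hc hj hi0.1 h2

private lemma r13_TT_lt (hℓ : 0 < ℓ) (ζ : E) (p : ℕ → E[X]) {i0 w : ℕ}
    (ht : Top ℓ f.natDegree p i0 w) (φ : Fin ℓ → Fin ℓ) (hφ : ∃ k, (φ k : ℕ) ≠ i0) :
    (TT ℓ f ζ p φ).coeff w = 0 ∧ (TT ℓ f ζ p φ).natDegree ≤ w := by
  by_cases hz : ∃ k, p (φ k) = 0
  · obtain ⟨k, hk⟩ := hz
    have h0 : TT ℓ f ζ p φ = 0 := by
      rw [TT, Finset.prod_eq_zero (Finset.mem_univ k) (by rw [hk, mul_zero]), zero_mul]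
    rw [h0]
    simp
  · push Not at hz
    have h1 : (TT ℓ f ζ p φ).natDegree ≤
        ∑ k : Fin ℓ, (p (φ k)).natDegree + (∑ k, (φ k : ℕ)) / ℓ * f.natDegree := by
      rw [TT]
      refine natDegree_mul_le.trans (add_le_add ?_ natDegree_pow_le)
      refine (natDegree_prod_le _ _).trans (Finset.sum_le_sum fun k _ => ?_)
      exact natDegree_C_mul_le _ _
    have h2 : ℓ * (TT ℓ f ζ p φ).natDegree ≤
        ∑ k : Fin ℓ, (ℓ * (p (φ k)).natDegree + (φ k : ℕ) * f.natDegree) := by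
      refine (Nat.mul_le_mul_left ℓ h1).trans ?_
      rw [mul_add, Finset.sum_add_distrib, ← Finset.mul_sum, ← Finset.sum_mul, ← mul_assoc]
      refine Nat.add_le_add_left (Nat.mul_le_mul_right _ (Nat.mul_div_le _ _)) _
    have h3 : ∑ k : Fin ℓ, (ℓ * (p (φ k)).natDegree + (φ k : ℕ) * f.natDegree) <
        ∑ _k : Fin ℓ, w := by
      have hle : ∀ k : Fin ℓ, ℓ * (p (φ k)).natDegree + (φ k : ℕ) * f.natDegree ≤ w := by
        intro k
        by_cases h4 : (φ k : ℕ) = i0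
        · rw [h4]
          exact ht.eq.le
        · exact (ht.max _ (φ k).2 h4 (hz k)).le
      obtain ⟨k, hk⟩ := hφ
      exact Finset.sum_lt_sum (fun k _ => hle k)
        ⟨k, Finset.mem_univ k, ht.max _ (φ k).2 hk (hz k)⟩
    rw [Finset.sum_const, Finset.card_univ, Fintype.card_fin, smul_eq_mul] at h3
    have h4 : (TT ℓ f ζ p φ).natDegree < w := by
      have := lt_of_le_of_lt h2 h3
      exact Nat.lt_of_mul_lt_mul_left this
    exact ⟨coeff_eq_zero_of_natDegree_lt h4, h4.le⟩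

private lemma r13_f_ne (ℓ : ℕ) {f : E[X]} [hG : IsGood ℓ f] : f ≠ 0 := by
  intro h
  have h1 : f.natDegree ≠ 0 := IsGood.natDegree_ne_zero (ℓ := ℓ) (f := f)
  rw [h] at h1
  simp at h1

private lemma r13_TT_top (hℓ : 0 < ℓ) (ζ : E) (h0 : ζ ≠ 0) (p : ℕ → E[X]) {i0 w : ℕ}
    (ht : Top ℓ f.natDegree p i0 w) (φ : Fin ℓ → Fin ℓ) (hφ : ∀ k, (φ k : ℕ) = i0) :
    (TT ℓ f ζ p φ).coeff w ≠ 0 ∧ (TT ℓ f ζ p φ).natDegree ≤ w := by
  have hf := r13_f_ne ℓ (f := f)
  have hs : (∑ k, (φ k : ℕ)) / ℓ = i0 := by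
    rw [Finset.sum_congr rfl fun k _ => hφ k, Finset.sum_const, Finset.card_univ,
      Fintype.card_fin, smul_eq_mul, Nat.mul_div_cancel_left _ hℓ]
  have hfac : ∀ k : Fin ℓ, C (ζ ^ ((k : ℕ) * (φ k : ℕ))) * p (φ k) ≠ 0 := by
    intro k
    refine mul_ne_zero (C_ne_zero.mpr (pow_ne_zero _ h0)) ?_
    rw [hφ k]
    exact ht.ne
  have hprod : (∏ k : Fin ℓ, (C (ζ ^ ((k : ℕ) * (φ k : ℕ))) * p (φ k))) ≠ 0 :=
    Finset.prod_ne_zero_iff.mpr fun k _ => hfac k
  have hne : TT ℓ f ζ p φ ≠ 0 := mul_ne_zero hprod (pow_ne_zero _ hf)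
  have hdeg : (TT ℓ f ζ p φ).natDegree = w := by
    rw [TT, natDegree_mul hprod (pow_ne_zero _ hf), natDegree_pow, hs,
      natDegree_prod _ _ fun k _ => hfac k]
    have h1 : ∀ k : Fin ℓ, (C (ζ ^ ((k : ℕ) * (φ k : ℕ))) * p (φ k)).natDegree =
        (p i0).natDegree := by
      intro k
      rw [natDegree_C_mul (pow_ne_zero _ h0), hφ k]
    rw [Finset.sum_congr rfl fun k _ => h1 k, Finset.sum_const, Finset.card_univ,
      Fintype.card_fin, smul_eq_mul]
    exact ht.eq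
  refine ⟨?_, hdeg.le⟩
  rw [← hdeg, coeff_natDegree, leadingCoeff_ne_zero]
  exact hne

private lemma r13_HH (hℓ : 0 < ℓ) (ζ : E) (h0 : ζ ≠ 0) (p : ℕ → E[X]) {i0 w : ℕ}
    (ht : Top ℓ f.natDegree p i0 w) : (HH ℓ f ζ p 0).natDegree = w := by
  set φ0 : Fin ℓ → Fin ℓ := fun _ => ⟨i0, ht.lt⟩ with hφ0
  have hmem : φ0 ∈ (Finset.univ : Finset (Fin ℓ → Fin ℓ)).filter
      (fun φ => (∑ k, (φ k : ℕ)) % ℓ = 0) := by
    rw [Finset.mem_filter]
    refine ⟨Finset.mem_univ _, ?_⟩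
    rw [hφ0]
    simp
  have hother : ∀ φ : Fin ℓ → Fin ℓ, φ ≠ φ0 → ∃ k, (φ k : ℕ) ≠ i0 := by
    intro φ hφ
    by_contra hno
    push Not at hno
    exact hφ (funext fun k => Fin.ext (hno k))
  apply natDegree_eq_of_le_of_coeff_ne_zero
  · rw [HH]
    refine natDegree_sum_le_of_forall_le _ _ fun φ _ => ?_
    by_cases h1 : φ = φ0
    · rw [h1]
      exact (r13_TT_top hℓ ζ h0 p ht φ0 fun k => rfl).2
    · exact (r13_TT_lt hℓ ζ p ht φ (hother φ h1)).2
  · rw [HH, finset_sum_coeff, Finset.sum_eq_single φ0]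
    · exact (r13_TT_top hℓ ζ h0 p ht φ0 fun k => rfl).1
    · intro φ _ h1
      exact (r13_TT_lt hℓ ζ p ht φ (hother φ h1)).1
    · intro h1
      exact absurd hmem h1

omit hG in
private lemma r13_dg_add (D D' : Pt ℓ f →₀ ℤ) : dg (D + D') = dg D + dg D' := by
  unfold dg
  exact Finsupp.sum_add_index' (fun _ => rfl) (fun _ _ _ => rfl)

omit hG in
private lemma r13_dg_neg (D : Pt ℓ f →₀ ℤ) : dg (-D) = - dg D := by
  have h := r13_dg_add D (-D)
  rw [add_neg_cancel] at h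
  have h0 : dg (0 : Pt ℓ f →₀ ℤ) = 0 := by simp [dg]
  rw [h0] at h
  linarith

/-- the degree of the divisor of an element of the coordinate ring -/
private lemma r13_dg (ζ : E) (hζ : IsPrimitiveRoot ζ ℓ) (p : ℕ → E[X]) (u : (Fn ℓ f)ˣ)
    (hu : (u : Fn ℓ f) = algebraMap (Coord ℓ f) (Fn ℓ f)
      (∑ j ∈ Finset.range ℓ, ofPoly (p j) * yy ^ j)) {i0 w : ℕ}
    (ht : Top ℓ f.natDegree p i0 w) : dg (div u) = w := by
  have hℓ : 0 < ℓ := hG.prime.pos
  have h0 : ζ ≠ 0 := hζ.ne_zero hℓ.ne'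
  obtain ⟨c, hc⟩ := exists_nrm_eq ζ hζ h0 u
  have hnn : ∀ P, 0 ≤ div u P := fun P => ord_nonneg P _ u hu
  -- the right hand side
  set G0 : E[X] := ∏ P ∈ (div u).support, (X - C P.x) ^ (div u P).toNat with hG0
  have hxp : ((xprod (div u) : (Fn ℓ f)ˣ) : Fn ℓ f) =
      algebraMap (Coord ℓ f) (Fn ℓ f) (ofPoly G0) := by
    rw [xprod, Finsupp.prod, hG0, map_prod, map_prod, Units.coe_prod]
    refine Finset.prod_congr rfl fun P _ => ?_
    have h1 : div u P = ((div u P).toNat : ℤ) := (Int.toNat_of_nonneg (hnn P)).symm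
    rw [h1, zpow_natCast, Units.val_pow_eq_pow_val, map_pow, map_pow, Int.toNat_natCast]
    rfl
  have hcst : ((cstU c : (Fn ℓ f)ˣ) : Fn ℓ f) =
      algebraMap (Coord ℓ f) (Fn ℓ f) (ofPoly (C (c : E))) := rfl
  have hlhs : ((nrm ζ hζ.pow_eq_one h0 u : (Fn ℓ f)ˣ) : Fn ℓ f) =
      algebraMap (Coord ℓ f) (Fn ℓ f) (∑ j ∈ Finset.range ℓ, ofPoly (HH ℓ f ζ p j) * yy ^ j) := by
    rw [nrm, Units.coe_prod, ← r13_norm_poly hℓ, map_prod]
    exact Finset.prod_congr rfl fun k _ => r13_rot ζ hζ.pow_eq_one h0 p u hu k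
  have heq : (∑ j ∈ Finset.range ℓ, ofPoly (HH ℓ f ζ p j) * yy ^ j : Coord ℓ f) =
      ofPoly (C (c : E) * G0) := by
    apply IsFractionRing.injective (Coord ℓ f) (Fn ℓ f)
    rw [← hlhs, hc, Units.val_mul, hcst, hxp, map_mul, map_mul]
  have huniq := expand_unique (f := f) hℓ.ne'
    (fun j => HH ℓ f ζ p j - if j = 0 then C (c : E) * G0 else 0) (by
      simp only [map_sub, sub_mul, Finset.sum_sub_distrib]
      rw [heq]
      rw [Finset.sum_eq_single 0]
      · simp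
      · intro j _ hj
        rw [if_neg hj, map_zero, zero_mul]
      · intro h
        exact absurd (Finset.mem_range.mpr hℓ) h)
  have hH0 := huniq 0 hℓ
  rw [if_pos rfl, sub_eq_zero] at hH0
  have hdeg := r13_HH hℓ ζ h0 p ht
  rw [hH0, natDegree_C_mul c.ne_zero, hG0, natDegree_prod _ _ fun P _ =>
    pow_ne_zero _ (X_sub_C_ne_zero _)] at hdeg
  rw [dg, Finsupp.sum, ← hdeg]
  push_cast
  refine Finset.sum_congr rfl fun P _ => ?_
  rw [natDegree_pow, natDegree_X_sub_C, mul_one]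
  exact (Int.toNat_of_nonneg (hnn P)).symm

lemma exists_const_of_dg_eq_zero (ζ : E) (hζ : IsPrimitiveRoot ζ ℓ) (h : (Fn ℓ f)ˣ)
    (hd : dg (div h) = 0) :
    ∃ c : E, (h : Fn ℓ f) = cst c ∨ ∃ w : (Fn ℓ f)ˣ,
      (w : Fn ℓ f) = (h : Fn ℓ f) - (cst c : Fn ℓ f) ∧ dg (div w) < 0 := by
  have hℓ : 0 < ℓ := hG.prime.pos
  have hc := hG.coprime
  obtain ⟨a, b, hb, hab⟩ := IsFractionRing.div_surjective (A := Coord ℓ f) (h : Fn ℓ f)
  have hb0 : b ≠ 0 := nonZeroDivisors.ne_zero hb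
  have ha0 : a ≠ 0 := by
    rintro rfl
    rw [map_zero, zero_div] at hab
    exact h.ne_zero hab.symm
  obtain ⟨p, hp⟩ := exists_expand hℓ.ne' a
  obtain ⟨q, hq⟩ := exists_expand hℓ.ne' b
  have hinj := IsFractionRing.injective (Coord ℓ f) (Fn ℓ f)
  have hex : ∀ (r : ℕ → E[X]) (x : Coord ℓ f), x = ∑ i ∈ Finset.range ℓ, ofPoly (r i) * yy ^ i →
      x ≠ 0 → ∃ i < ℓ, r i ≠ 0 := by
    intro r x hx hx0
    by_contra hno
    push Not at hno
    apply hx0
    rw [hx]
    refine Finset.sum_eq_zero fun i hi => ?_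
    rw [hno i (Finset.mem_range.mp hi), map_zero, zero_mul]
  have hmapne : ∀ x : Coord ℓ f, x ≠ 0 → algebraMap (Coord ℓ f) (Fn ℓ f) x ≠ 0 := fun x hx h1 =>
    hx (hinj (by rw [h1, map_zero]))
  obtain ⟨ia, wa, hta⟩ := r13_exists_top hc p (hex p a hp ha0)
  obtain ⟨ib, wb, htb⟩ := r13_exists_top hc q (hex q b hq hb0)
  set ua : (Fn ℓ f)ˣ := Units.mk0 _ (hmapne a ha0) with hua
  set ub : (Fn ℓ f)ˣ := Units.mk0 _ (hmapne b hb0) with hub
  have hda : dg (div ua) = wa := r13_dg ζ hζ p ua (by rw [← hp]; rfl) hta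
  have hdb : dg (div ub) = wb := r13_dg ζ hζ q ub (by rw [← hq]; rfl) htb
  have hh : h = ua * ub⁻¹ := by
    apply Units.ext
    rw [Units.val_mul, Units.val_inv_eq_inv_val, ← div_eq_mul_inv, ← hab]
    rfl
  have hdeg : dg (div h) = wa - wb := by
    rw [hh, div_mul, div_inv, r13_dg_add, r13_dg_neg, hda, hdb]
    ring
  have hw : wa = wb := by
    rw [hd] at hdeg
    omega
  subst hw
  have hi : ia = ib := r13_top_inj hc hta.lt htb.lt (hta.eq.trans htb.eq.symm)
  subst hi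
  have hdd : (p ia).natDegree = (q ia).natDegree := by
    have h1 := hta.eq.trans htb.eq.symm
    have h2 : ℓ * (p ia).natDegree = ℓ * (q ia).natDegree := by omega
    exact Nat.eq_of_mul_eq_mul_left hℓ h2
  set c : E := (p ia).leadingCoeff / (q ia).leadingCoeff with hcdef
  have hlq : (q ia).leadingCoeff ≠ 0 := leadingCoeff_ne_zero.mpr htb.ne
  have hlp : (p ia).leadingCoeff ≠ 0 := leadingCoeff_ne_zero.mpr hta.ne
  have hc0 : c ≠ 0 := div_ne_zero hlp hlq
  refine ⟨c, ?_⟩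
  have hcstc : (cst c : Fn ℓ f) = algebraMap (Coord ℓ f) (Fn ℓ f) (ofPoly (C c)) := rfl
  have hbF := hmapne b hb0
  by_cases hz : a - ofPoly (C c) * b = 0
  · left
    rw [← hab, hcstc, div_eq_iff hbF, ← map_mul, sub_eq_zero.mp hz]
  · right
    set v : (Fn ℓ f)ˣ := Units.mk0 _ (hmapne _ hz) with hv
    refine ⟨v * ub⁻¹, ?_, ?_⟩
    · rw [Units.val_mul, Units.val_inv_eq_inv_val, ← div_eq_mul_inv, ← hab, hcstc]
      have h1 : (v : Fn ℓ f) = algebraMap (Coord ℓ f) (Fn ℓ f) (a - ofPoly (C c) * b) := rfl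
      have h2 : (ub : Fn ℓ f) = algebraMap (Coord ℓ f) (Fn ℓ f) b := rfl
      rw [h1, h2, map_sub, map_mul]
      field_simp
    · set r : ℕ → E[X] := fun i => p i - C c * q i with hr
      have hrexp : a - ofPoly (C c) * b = ∑ i ∈ Finset.range ℓ, ofPoly (r i) * yy ^ i := by
        conv_lhs => rw [hp, hq]
        rw [Finset.mul_sum, ← Finset.sum_sub_distrib]
        refine Finset.sum_congr rfl fun i _ => ?_
        rw [hr]
        simp only [map_sub, map_mul]
        ring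
      obtain ⟨iv, wv, htv⟩ := r13_exists_top hc r (hex r _ hrexp hz)
      have hdv : dg (div v) = wv := r13_dg ζ hζ r v (by rw [← hrexp]; rfl) htv
      have hlt : wv < wa := by
        rw [← htv.eq]
        by_cases hiv : iv = ia
        · have h1 : (r iv).natDegree < (p ia).natDegree := by
            rw [hiv]
            have h2 : (r ia).degree < (p ia).degree := by
              rw [hr]
              refine degree_sub_lt ?_ hta.ne ?_
              · rw [degree_C_mul hc0, degree_eq_natDegree hta.ne, degree_eq_natDegree htb.ne, hdd]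
              · rw [leadingCoeff_mul, leadingCoeff_C, hcdef, div_mul_cancel₀ _ hlq]
            have h3 : r ia ≠ 0 := by
              rw [← hiv]
              exact htv.ne
            exact (natDegree_lt_natDegree_iff h3).mpr h2
          have h4 := hta.eq
          have h5 : ℓ * (r iv).natDegree < ℓ * (p ia).natDegree :=
            Nat.mul_lt_mul_of_pos_left h1 hℓ
          rw [hiv] at h5 ⊢
          omega
        · have h1 : (r iv).natDegree ≤ max (p iv).natDegree (q iv).natDegree := by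
            rw [hr]
            refine (natDegree_sub_le _ _).trans (max_le_max le_rfl (natDegree_C_mul_le _ _))
          have h6 : ∀ s : ℕ → E[X], Top ℓ f.natDegree s ia wa → s iv ≠ 0 →
              ℓ * (s iv).natDegree + iv * f.natDegree < wa := fun s hs h7 =>
            hs.max iv htv.lt hiv h7
          by_cases hp0 : p iv = 0
          · have hq0 : q iv ≠ 0 := by
              intro h8
              apply htv.ne
              rw [hr]
              simp only [hp0, h8, mul_zero, sub_zero]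
            have h9 := h6 q htb hq0
            rw [hp0, natDegree_zero, max_eq_right (Nat.zero_le _)] at h1
            have := Nat.mul_le_mul_left ℓ h1
            omega
          · have h9 := h6 p hta hp0
            by_cases hq0 : q iv = 0
            · rw [hq0, natDegree_zero, max_eq_left (Nat.zero_le _)] at h1
              have := Nat.mul_le_mul_left ℓ h1
              omega
            · have h10 := h6 q htb hq0
              rcases le_total (p iv).natDegree (q iv).natDegree with h11 | h11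
              · rw [max_eq_right h11] at h1
                have := Nat.mul_le_mul_left ℓ h1
                omega
              · rw [max_eq_left h11] at h1
                have := Nat.mul_le_mul_left ℓ h1
                omega
      rw [div_mul, div_inv, r13_dg_add, r13_dg_neg, hdv, hdb]
      have : (wv : ℤ) < wa := by exact_mod_cast hlt
      linarith

end Pool.Agent.Lib.MP_89bcae_ag.Sup

end

section

open NumberField Polynomial

namespace Pool.Agent.Lib.MP_89bcae_ag.Re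

private def N15Mem (K : Type*) [Field K] [NumberField K] {q : ℕ} (φ : 𝓞 K →+* ZMod q) (x : K) :
    Prop :=
  ∃ a s : 𝓞 K, φ s ≠ 0 ∧ x * algebraMap (𝓞 K) K s = algebraMap (𝓞 K) K a

private theorem n15_bound (K : Type*) [Field K] [NumberField K] (z : K) :
    ∃ N : ℕ, ∀ (q : ℕ) [Fact q.Prime], N < q → ∀ φ : 𝓞 K →+* ZMod q,
      N15Mem K φ z ∧ (z ≠ 0 → N15Mem K φ z⁻¹) := by
  obtain ⟨a, n, hn, rfl⟩ := IsFractionRing.div_surjective (A := 𝓞 K) z
  have hn0 : n ≠ 0 := nonZeroDivisors.ne_zero hn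
  have hn0K : algebraMap (𝓞 K) K n ≠ 0 := by
    rw [Ne, map_eq_zero_iff _ (IsFractionRing.injective (𝓞 K) K)]
    exact hn0
  obtain ⟨N₁, hN₁⟩ := exists_bound_ne_zero K hn0
  by_cases ha : a = 0
  · subst ha
    refine ⟨N₁, fun q _ hq φ => ⟨⟨0, n, hN₁ q hq φ, ?_⟩, fun h => absurd ?_ h⟩⟩
    · simp
    · simp
  · obtain ⟨N₂, hN₂⟩ := exists_bound_ne_zero K ha
    have haK : algebraMap (𝓞 K) K a ≠ 0 := by
      rw [Ne, map_eq_zero_iff _ (IsFractionRing.injective (𝓞 K) K)]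
      exact ha
    refine ⟨max N₁ N₂, fun q _ hq φ => ⟨⟨a, n, hN₁ q ((le_max_left _ _).trans_lt hq) φ, ?_⟩,
      fun _ => ⟨n, a, hN₂ q ((le_max_right _ _).trans_lt hq) φ, ?_⟩⟩⟩
    · exact div_mul_cancel₀ _ hn0K
    · rw [inv_div]
      exact div_mul_cancel₀ _ haK

/-- Extension of a homomorphism to a larger subring of `K` containing given elements. Proof: let
`A = {x : K | ∃ a s : 𝓞 K, φ s ≠ 0 ∧ x * s = a}`, a subring (the localization of `𝓞 K` at the kernel of
`φ`), and `Φ x = φ a / φ s` (well defined: `a s' = a' s` in `𝓞 K` if `x s = a`, `x s' = a'`, and `ZMod q`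
is a field). For `z ∈ T` write `z = a / n` with `a ∈ 𝓞 K`, `n` a nonzero integer
(`IsLocalization`, `exists_integer_multiple`); `N` is such that for `q > N` no `φ` kills `n` and, if
`z ≠ 0`, `a` (`exists_bound_ne_zero`, for both). -/
theorem exists_subring (K : Type*) [Field K] [NumberField K] (T : Finset K) :
    ∃ N : ℕ, ∀ (q : ℕ) [Fact q.Prime], N < q → ∀ φ : 𝓞 K →+* ZMod q,
      ∃ (A : Subring K) (Φ : A →+* ZMod q),
        (∀ x : 𝓞 K, ∃ h : (x : K) ∈ A, Φ ⟨x, h⟩ = φ x) ∧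
        ∀ z ∈ T, z ∈ A ∧ (z ≠ 0 → z⁻¹ ∈ A) := by
  choose N hN using n15_bound K
  refine ⟨T.sup N, fun q _ hq φ => ?_⟩
  have hinj := IsFractionRing.injective (𝓞 K) K
  let A : Subring K :=
    { carrier := {x | N15Mem K φ x}
      mul_mem' := by
        rintro x y ⟨a, s, hs, hx⟩ ⟨b, t, ht, hy⟩
        refine ⟨a * b, s * t, ?_, ?_⟩
        · rw [map_mul]; exact mul_ne_zero hs ht
        · rw [map_mul, map_mul, ← hx, ← hy]; ring
      one_mem' := ⟨1, 1, by rw [map_one]; exact one_ne_zero, by simp⟩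
      add_mem' := by
        rintro x y ⟨a, s, hs, hx⟩ ⟨b, t, ht, hy⟩
        refine ⟨a * t + b * s, s * t, ?_, ?_⟩
        · rw [map_mul]; exact mul_ne_zero hs ht
        · rw [map_mul, map_add, map_mul, map_mul, ← hx, ← hy]; ring
      zero_mem' := ⟨0, 1, by rw [map_one]; exact one_ne_zero, by simp⟩
      neg_mem' := by
        rintro x ⟨a, s, hs, hx⟩
        refine ⟨-a, s, hs, ?_⟩
        rw [map_neg, ← hx]; ring }
  have hA : ∀ x : A, ∃ a s : 𝓞 K, φ s ≠ 0 ∧ (x : K) * algebraMap (𝓞 K) K s = algebraMap (𝓞 K) K a :=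
    fun x => x.2
  choose a s hs hx using hA
  have val : ∀ (x : A) (b t : 𝓞 K), φ t ≠ 0 →
      (x : K) * algebraMap (𝓞 K) K t = algebraMap (𝓞 K) K b → φ (a x) / φ (s x) = φ b / φ t := by
    intro x b t ht h
    rw [div_eq_div_iff (hs x) ht, ← map_mul, ← map_mul]
    congr 1
    apply hinj
    rw [map_mul, map_mul, ← hx x, ← h]
    ring
  refine ⟨A, { toFun := fun x => φ (a x) / φ (s x)
               map_one' := ?_
               map_mul' := ?_
               map_zero' := ?_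
               map_add' := ?_ }, ?_, ?_⟩
  · rw [val 1 1 1 (by rw [map_one]; exact one_ne_zero) (by simp)]
    simp
  · intro x y
    show φ (a (x * y)) / φ (s (x * y)) = φ (a x) / φ (s x) * (φ (a y) / φ (s y))
    rw [val (x * y) (a x * a y) (s x * s y) (by rw [map_mul]; exact mul_ne_zero (hs x) (hs y))
      (by rw [map_mul, map_mul, ← hx x, ← hx y, Subring.coe_mul]; ring)]
    rw [map_mul, map_mul, div_mul_div_comm]
  · rw [val 0 0 1 (by rw [map_one]; exact one_ne_zero) (by simp)]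
    simp
  · intro x y
    show φ (a (x + y)) / φ (s (x + y)) = φ (a x) / φ (s x) + (φ (a y) / φ (s y))
    rw [val (x + y) (a x * s y + s x * a y) (s x * s y)
      (by rw [map_mul]; exact mul_ne_zero (hs x) (hs y))
      (by rw [map_mul, map_add, map_mul, map_mul, ← hx x, ← hx y, Subring.coe_add]; ring)]
    rw [map_mul, map_add, map_mul, map_mul, div_add_div _ _ (hs x) (hs y)]
  · intro x
    refine ⟨⟨x, 1, by rw [map_one]; exact one_ne_zero, by simp⟩, ?_⟩
    show φ (a _) / φ (s _) = φ x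
    rw [val _ x 1 (by rw [map_one]; exact one_ne_zero) (by simp)]
    simp
  · intro z hz
    exact hN z q ((Finset.le_sup hz).trans_lt hq) φ

end Pool.Agent.Lib.MP_89bcae_ag.Re

end

section

/-!
The kernel of `π = 1 - Z`: parts (B) and (C) of the explanations in R17.
-/

open Polynomial IsDedekindDomain

open scoped Classical

namespace Pool.Agent.Lib.MP_89bcae_ag.Sup

universe u

variable {ℓ : ℕ} {E : Type u} [Field E] {f : E[X]} [hG : IsGood ℓ f]

lemma R18_rot_ramPt (ζ : E) (hζ : ζ ^ ℓ = 1) {θ : E} (hθ : f.eval θ = 0) :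
    (ramPt hG.prime.ne_zero hθ : Pt ℓ f).rot ζ hζ = ramPt hG.prime.ne_zero hθ := by
  ext
  · rfl
  · simp [Pt.rot, ramPt]

lemma R18_ordR_rot (ζ : E) (hζ : ζ ^ ℓ = 1) (h0 : ζ ≠ 0) (θ : E) (h : (Fn ℓ f)ˣ) :
    ordR θ (rotU ζ hζ h0 h) = ordR θ h := by
  unfold ordR
  split_ifs with hθ
  · rw [ord_rotU, R18_rot_ramPt]
  · rfl

lemma R18_ordR_iter (ζ : E) (hζ : ζ ^ ℓ = 1) (h0 : ζ ≠ 0) (θ : E) (h : (Fn ℓ f)ˣ) (i : ℕ) :
    ordR θ ((rotU ζ hζ h0)^[i] h) = ordR θ h := by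
  induction i with
  | zero => rfl
  | succ i ih => rw [Function.iterate_succ_apply', R18_ordR_rot, ih]

lemma R18_lc_iter (ζ : E) (hζ : ζ ^ ℓ = 1) (h0 : ζ ≠ 0) {θ : E} (hθ : f.eval θ = 0)
    (h : (Fn ℓ f)ˣ) (i : ℕ) :
    (lc θ ((rotU ζ hζ h0)^[i] h) : E) = (ζ ^ ordR θ h) ^ i * lc θ h := by
  induction i with
  | zero => simp
  | succ i ih =>
    rw [Function.iterate_succ_apply', (lc_spec hθ).2.2.2.2.1, ih, R18_ordR_iter, pow_succ]
    ring

/-- The leading coefficient of a norm. -/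
lemma R18_lc_nrm (ζ : E) (hζ : ζ ^ ℓ = 1) (h0 : ζ ≠ 0) {θ : E} (hθ : f.eval θ = 0)
    (h : (Fn ℓ f)ˣ) :
    (lc θ (nrm ζ hζ h0 h) : E) =
      (ζ ^ ordR θ h) ^ (∑ i ∈ Finset.range ℓ, i) * (lc θ h : E) ^ ℓ := by
  rw [nrm, map_prod, Units.coe_prod, Finset.prod_congr rfl fun i _ => R18_lc_iter ζ hζ h0 hθ h i,
    Finset.prod_mul_distrib, Finset.prod_pow_eq_pow_sum, Finset.prod_const, Finset.card_range]

lemma R18_xprod_sub (D D' : Pt ℓ f →₀ ℤ) : xprod (D - D') = xprod D / xprod D' := by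
  rw [eq_div_iff_mul_eq', ← xprod_add, sub_add_cancel]

lemma R18_div_div (h h' : (Fn ℓ f)ˣ) : div (h / h') = div h - div h' := by
  rw [div_eq_mul_inv, div_mul, div_inv, sub_eq_add_neg]

/-- Extraction of roots of constants: normalization of the norm. -/
lemma R18_exists_normalized (ζ : E) (hζ : ζ ^ ℓ = 1) (h0 : ζ ≠ 0) (h : (Fn ℓ f)ˣ) (c : Eˣ)
    (g : (Fn ℓ f)ˣ) (hn : nrm ζ hζ h0 h = cstU c * g) :
    ∃ h' : (Fn ℓ f)ˣ, div h' = div h ∧ nrm ζ hζ h0 h' = g := by
  have := hG.alg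
  obtain ⟨d, hd⟩ := IsAlgClosed.exists_pow_nat_eq (c : E) hG.prime.pos
  have hd0 : d ≠ 0 := by
    rintro rfl
    rw [zero_pow hG.prime.ne_zero] at hd
    exact c.ne_zero hd.symm
  have hdc : (Units.mk0 d hd0) ^ ℓ = c := by
    ext
    simpa using hd
  refine ⟨h * cstU (Units.mk0 d hd0)⁻¹, ?_, ?_⟩
  · rw [div_mul, div_cstU, add_zero]
  · rw [nrm_mul, nrm_cstU, hn, inv_pow, hdc, map_inv]
    rw [mul_comm (cstU c) g, mul_inv_cancel_right]

lemma zJ_ram (ζ : E) (hζ : ζ ^ ℓ = 1) (e : E → ℤ) : zJ ζ hζ (ram e : Jac ℓ f) = ram e := by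
  rw [ram, zJ_cl, mapDomain_rot_ramDiv]

/-- (B) -/
lemma exists_ram_of_zJ_eq (ζ : E) (hζ : IsPrimitiveRoot ζ ℓ) (Q : Jac ℓ f)
    (hQ : zJ ζ hζ.pow_eq_one Q = Q) : ∃ e : E → ℤ, Q = ram e := by
  have h0 : ζ ≠ 0 := hζ.ne_zero hG.prime.ne_zero
  obtain ⟨D, rfl⟩ := cl_surjective Q
  rw [zJ_cl] at hQ
  have h1 : cl (D - D.mapDomain (Pt.rot ζ hζ.pow_eq_one)) = 0 := by
    rw [map_sub, hQ, sub_self]
  obtain ⟨h, hh⟩ := exists_div_of_cl_eq_zero _ h1
  obtain ⟨c, hc⟩ := exists_nrm_eq ζ hζ h0 h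
  have hx : xprod (div h) = 1 := by
    rw [hh, R18_xprod_sub, xprod_rot, div_self']
  obtain ⟨h', hdiv, hn⟩ := R18_exists_normalized ζ hζ.pow_eq_one h0 h c _ hc
  rw [hx] at hn
  have hord : ∀ θ, f.eval θ = 0 → ordR θ h' = 0 := by
    intro θ hθ
    have h2 : ord (ramPt hG.prime.ne_zero hθ) h' = 0 := by
      rw [← div_apply, hdiv, hh, Finsupp.sub_apply]
      nth_rw 2 [← R18_rot_ramPt ζ hζ.pow_eq_one hθ]
      rw [Finsupp.mapDomain_apply, sub_self]
      intro P P' hP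
      have hx := congrArg Pt.x hP
      have hy := congrArg Pt.y hP
      simp only [Pt.rot] at hx hy
      exact Pt.ext hx (mul_left_cancel₀ h0 hy)
    rw [ordR, dif_pos hθ, h2]
  have hlc : ∀ θ, f.eval θ = 0 → ∃ n : ℤ, (lc θ h' : E) = ζ ^ n := by
    intro θ hθ
    have h3 := R18_lc_nrm ζ hζ.pow_eq_one h0 hθ h'
    rw [hn, hord θ hθ, map_one, zpow_zero, one_pow, one_mul, Units.val_one] at h3
    have : NeZero ℓ := ⟨hG.prime.ne_zero⟩
    obtain ⟨i, _, hi⟩ := hζ.eq_pow_of_pow_eq_one h3.symm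
    exact ⟨i, by rw [← hi, zpow_natCast]⟩
  choose! n hn' using hlc
  exact ⟨_, cl_eq_ram ζ hζ h0 D h' (by rw [hdiv, hh]) hn n hn'⟩

/-- (C) -/
lemma ram_eq_zero_iff (ζ : E) (hζ : IsPrimitiveRoot ζ ℓ) (e : E → ℤ) :
    (ram e : Jac ℓ f) = 0 ↔
      ∃ c : ℤ, ∀ θ, f.eval θ = 0 → (ℓ : ℤ) ∣ e θ - c := by
  have h0 : ζ ≠ 0 := hζ.ne_zero hG.prime.ne_zero
  constructor
  · intro he
    obtain ⟨h, hh⟩ := exists_div_of_cl_eq_zero _ he
    have hu : div ((rotU ζ hζ.pow_eq_one h0).symm h / h) = 0 := by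
      rw [R18_div_div, div_rotU_symm, hh, mapDomain_rot_ramDiv, sub_self]
    have hdg : dg (div ((rotU ζ hζ.pow_eq_one h0).symm h / h)) = 0 := by
      rw [hu, dg, Finsupp.sum_zero_index]
    obtain ⟨c, hc⟩ := exists_const_of_dg_eq_zero ζ hζ _ hdg
    have hord : ∀ P, ord P ((rotU ζ hζ.pow_eq_one h0).symm h / h) = 0 := by
      intro P
      rw [← div_apply, hu, Finsupp.zero_apply]
    have hc1 : (((rotU ζ hζ.pow_eq_one h0).symm h / h : (Fn ℓ f)ˣ) : Fn ℓ f) = cst c := by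
      rcases hc with hc | ⟨w, hw, hwd⟩
      · exact hc
      · exfalso
        have hwn : ∀ P, 0 ≤ ord P w := by
          intro P
          by_cases hc0 : c = 0
          · rw [hc0, map_zero, sub_zero] at hw
            rw [Units.ext hw, hord]
          · have h5 := ord_add P ((rotU ζ hζ.pow_eq_one h0).symm h / h)
              (cstU (Units.mk0 (-c) (neg_ne_zero.2 hc0))) w (by
                rw [hw, cstU, Units.coe_map, Units.val_mk0, MonoidHom.coe_coe, map_neg,
                  sub_eq_add_neg])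
            rw [hord, ord_cstU, min_self] at h5
            exact h5
        refine absurd hwd (not_lt.2 ?_)
        exact Finset.sum_nonneg fun P _ => hwn P
    have hc0 : c ≠ 0 := by
      rintro rfl
      rw [map_zero] at hc1
      exact Units.ne_zero _ hc1
    have h6 : (rotU ζ hζ.pow_eq_one h0).symm h / h = cstU (Units.mk0 c hc0) := by
      ext
      rw [hc1, cstU, Units.coe_map, Units.val_mk0, MonoidHom.coe_coe]
    have h7 : h = cstU (Units.mk0 c hc0) * rotU ζ hζ.pow_eq_one h0 h := by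
      have h8 := congrArg (rotU ζ hζ.pow_eq_one h0) (eq_mul_of_div_eq h6)
      rw [MulEquiv.apply_symm_apply, map_mul, rotU_cstU] at h8
      exact h8
    have h9 : ∀ θ, f.eval θ = 0 → c * ζ ^ e θ = 1 := by
      intro θ hθ
      have h10 : ordR θ h = e θ := by
        rw [ordR, dif_pos hθ, ← div_apply, hh, ramDiv_apply, if_pos (by rfl)]
        rfl
      have h11 := congrArg (fun u => (lc θ u : E)) h7
      simp only [map_mul, Units.val_mul, (lc_spec hθ).1, (lc_spec hθ).2.2.2.2.1, Units.val_mk0,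
        h10] at h11
      have h12 := (lc θ h).ne_zero
      rw [← mul_assoc] at h11
      exact (mul_eq_right₀ h12).1 h11.symm
    obtain ⟨θ₀, hθ₀⟩ := IsGood.exists_root (ℓ := ℓ) (f := f)
    refine ⟨e θ₀, fun θ hθ => ?_⟩
    rw [← hζ.zpow_eq_one_iff_dvd, zpow_sub₀ h0]
    have h13 := h9 θ hθ
    have h14 := h9 θ₀ hθ₀
    rw [← h14] at h13
    rw [mul_left_cancel₀ hc0 h13, div_self (zpow_ne_zero _ h0)]
  · rintro ⟨c, hc⟩
    rw [ram_congr e (fun _ => c * 1) (fun θ hθ => by simpa using hc θ hθ), ram, ramDiv_smul,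
      map_zsmul, ← div_yU, cl_div, smul_zero]

lemma ram_add (e e' : E → ℤ) : (ram fun θ => e θ + e' θ : Jac ℓ f) = ram e + ram e' := by
  rw [ram, ramDiv_add, map_add, ← ram, ← ram]

lemma ram_sub (e e' : E → ℤ) : (ram fun θ => e θ - e' θ : Jac ℓ f) = ram e - ram e' := by
  rw [ram, ramDiv_sub, map_sub, ← ram, ← ram]

lemma symJ_ram (σ : Sym f) (e : E → ℤ) :
    symJ σ (ram e : Jac ℓ f) = ram fun θ => e (((σ⁻¹ : Sym f) : E ≃+* E) θ) := by
  rw [ram, symJ_cl, mapDomain_sym_ramDiv, ← ram]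

lemma smul_ram (e : E → ℤ) : ℓ • (ram e : Jac ℓ f) = 0 := by
  have h1 : (ram (fun θ => (ℓ : ℤ) * e θ) : Jac ℓ f) = ram fun _ => 0 :=
    ram_congr _ _ fun θ _ => ⟨e θ, by ring⟩
  have h2 : (ram (fun _ => 0) : Jac ℓ f) = 0 := by
    have h3 : (ramDiv (fun _ => 0) : Pt ℓ f →₀ ℤ) = 0 := by
      ext P
      simp
    rw [ram, h3, map_zero]
  rw [h2, ram, ramDiv_smul, map_zsmul, ← ram, natCast_zsmul] at h1
  exact h1

end Pool.Agent.Lib.MP_89bcae_ag.Sup

end

section

/-!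
# Global part: the group `Aut(Ω/k(t))` and its action

ROW G01 = the lemmas of this file (150-300 lines).
PROOFS. `cOver_eq_locPoly`: unfold `curvePoly`, `base`; `aeval`, `Polynomial.map_map`.
`toSym`: the coefficients of the curve are in the image of `k(t)`: `D(t)⁻¹`, the coefficients of `g`, `t`
are values of `base`. `galA`: `base` has values in the image of `L`.
`exists_resF`: `F` is the set of the elements of `Ω` algebraic over `k` in the image of `F`
(an algebraic closure of `k`), stable under `γ` : see `exists_restrict_aut` in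
`Pool/Agent/Lib/MP_89bcae_ag/Galois.lean`; the map is determined by `γ`, so it is a homomorphism.
`resF_surjective`: see `exists_lift_aut` there, with `exists_extend_alg` (L12): extend
`coefL L U` to `Ω`. If `resF γ = 1` then `γ` fixes the image of `F[X]`, so that of `L`.
`exists_conjG`: `γ σ γ⁻¹` fixes `L` since `γ⁻¹` maps the image of `L` to itself (by `resF_spec`).
`isGood_cOver`: separability: `f = d⁻¹ (g(x) - t)`, `f' = d⁻¹ g'(x)`; `g' ≠ 0` because `D(g(x))` is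
separable and `D` is not constant; a common root of `g(x) - t` and `g'` in `A` would be algebraic over the
image of `F`, hence in it (`F` algebraically closed), but `t` is transcendental; `Polynomial.Separable`
over the algebraically closed `A` means no common root of `f`, `f'`. The degree is `deg g`.

Setting: `k` a field, `F` an algebraic closure of `k`, `L = F(t)`, `Ω` an algebraic closure of `L`;
`Ω` is an `F`-algebra through `F[X] → L → Ω` (`CompatF`).
-/

open Polynomial IsDedekindDomain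

open scoped Classical

namespace Pool.Agent.Lib.MP_89bcae_ag.Sup

universe u

/-- The `F`-algebra structure of `A` is the one coming from `F[X] → L → A`. -/
def CompatF (F L A : Type u) [Field F] [Field L] [Algebra F[X] L] [Field A] [Algebra L A]
    [Algebra F A] : Prop :=
  ∀ c : F, algebraMap F A c = algebraMap L A (algebraMap F[X] L (C c))

/-- The element `t` of `A`. -/
noncomputable def tA (F L A : Type u) [Field F] [Field L] [Algebra F[X] L] [Field A]
    [Algebra L A] : A :=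
  algebraMap L A (algebraMap F[X] L X)

/-- The hypotheses on `ℓ`, `g`, `D`, `ζ`. -/
structure GlobHyp (ℓ : ℕ) {k : Type u} [Field k] (g D : k[X]) (ζ : k) : Prop where
  prime : ℓ.Prime
  ne : (ℓ : k) ≠ 0
  zeta : IsPrimitiveRoot ζ ℓ
  monic : g.Monic
  cop : g.natDegree.Coprime ℓ
  sep : (D.comp g).Separable
  pos : D.natDegree ≠ 0

/-- The group `Aut(Ω/k(t))`. -/
def AutO (k F L Ω : Type u) [Field k] [Field F] [Algebra k F] [Field L] [Algebra F[X] L] [Field Ω]
    [Algebra L Ω] : Subgroup (Ω ≃+* Ω) where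
  carrier := {γ | ∀ p : k[X], γ (base k F L Ω p) = base k F L Ω p}
  mul_mem' {a b} ha hb p := by
    rw [RingAut.mul_apply, hb p, ha p]
  one_mem' p := rfl
  inv_mem' {a} ha p := by
    have h := ha p
    calc a⁻¹ (base k F L Ω p) = a⁻¹ (a (base k F L Ω p)) := by rw [h]
      _ = base k F L Ω p := a.symm_apply_apply _

section

variable {k F L Ω : Type u} [Field k] [Field F] [Algebra k F] [Field L] [Algebra F[X] L]
  [Field Ω] [Algebra L Ω]

/-- The curve over the extension `A` of `L`. -/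
noncomputable abbrev cOver (k F L A : Type u) [Field k] [Field F] [Algebra k F] [Field L]
    [Algebra F[X] L] [Field A] [Algebra L A] (g D : k[X]) : A[X] :=
  (curvePoly k F L g D).map (algebraMap L A)

private lemma gb_aeval {A : Type u} [Field A] [Algebra L A] [Algebra F A] (hF : CompatF F L A)
    (p : F[X]) : algebraMap L A (algebraMap F[X] L p) = aeval (tA F L A) p := by
  induction p using Polynomial.induction_on' with
  | add p q hp hq => rw [map_add, map_add, map_add, hp, hq]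
  | monomial n a =>
    rw [← C_mul_X_pow_eq_monomial, map_mul, map_mul, map_mul, map_pow, map_pow, map_pow, aeval_C,
      aeval_X, hF a]
    rfl

private lemma gb_base (A : Type u) [Field A] [Algebra L A] (p : k[X]) :
    algebraMap L A (base k F L L p) = base k F L A p := rfl

lemma cOver_eq_locPoly {A : Type u} [Field A] [Algebra L A] [Algebra F A] (hF : CompatF F L A)
    (g D : k[X]) : cOver k F L A g D =
      locPoly (g.map (algebraMap k F)) (tA F L A) (aeval (tA F L A) (D.map (algebraMap k F))) := by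
  have h1 : ∀ p : k[X], base k F L A p = aeval (tA F L A) (p.map (algebraMap k F)) := by
    intro p
    rw [← gb_aeval hF]
    rfl
  have h2 : (algebraMap L A).comp ((base k F L L).comp C) = (algebraMap F A).comp (algebraMap k F) := by
    ext c
    rw [RingHom.comp_apply, RingHom.comp_apply, gb_base, h1, map_C, aeval_C, RingHom.comp_apply]
  have h3 : base k F L A X = tA F L A := by
    rw [h1, map_X, aeval_X]
  unfold locPoly
  change (curvePoly k F L g D).map (algebraMap L A) = _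
  unfold curvePoly
  rw [Polynomial.map_mul, map_C, Polynomial.map_sub, map_C, Polynomial.map_map, map_inv₀, gb_base,
    gb_base, h2, ← Polynomial.map_map, h3, h1]

private lemma gb_sym (g D : k[X]) (γ : AutO k F L Ω) :
    (γ : Ω ≃+* Ω) ∈ Sym (cOver k F L Ω g D) := by
  rw [mem_Sym]
  have h0 : ∀ p : k[X], (γ : Ω ≃+* Ω) (algebraMap L Ω (base k F L L p)) =
      algebraMap L Ω (base k F L L p) := fun p => γ.2 p
  have h2 : (((γ : Ω ≃+* Ω) : Ω →+* Ω).comp ((algebraMap L Ω).comp ((base k F L L).comp C))) =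
      (algebraMap L Ω).comp ((base k F L L).comp C) := by
    ext c
    exact h0 (C c)
  have h3 : ∀ p : k[X], ((γ : Ω ≃+* Ω) : Ω →+* Ω) (algebraMap L Ω (base k F L L p)) =
      algebraMap L Ω (base k F L L p) := h0
  change ((curvePoly k F L g D).map (algebraMap L Ω)).map ((γ : Ω ≃+* Ω) : Ω →+* Ω) =
    (curvePoly k F L g D).map (algebraMap L Ω)
  unfold curvePoly
  simp only [Polynomial.map_mul, map_C, Polynomial.map_sub, Polynomial.map_map, map_inv₀]
  rw [h2, h3, h3]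

/-- An automorphism over `k(t)` fixes the coefficients of the curve. -/
def toSym (g D : k[X]) : AutO k F L Ω →* Sym (cOver k F L Ω g D) where
  toFun γ := ⟨(γ : Ω ≃+* Ω), gb_sym g D γ⟩
  map_one' := rfl
  map_mul' _ _ := rfl

@[simp] lemma toSym_coe (g D : k[X]) (γ : AutO k F L Ω) :
    ((toSym g D γ : Sym (cOver k F L Ω g D)) : Ω ≃+* Ω) = (γ : Ω ≃+* Ω) := rfl

/-- An automorphism over `L` is an automorphism over `k(t)`. -/
def galA (k F : Type u) [Field k] [Field F] [Algebra k F] [Algebra F[X] L] :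
    (Ω ≃ₐ[L] Ω) →* AutO k F L Ω where
  toFun σ := ⟨(σ : Ω ≃+* Ω), fun p => σ.commutes _⟩
  map_one' := rfl
  map_mul' _ _ := rfl

@[simp] lemma galA_coe (σ : Ω ≃ₐ[L] Ω) (x : Ω) :
    ((galA k F σ : AutO k F L Ω) : Ω ≃+* Ω) x = σ x := rfl

variable [IsAlgClosure k F] [IsFractionRing F[X] L] [IsAlgClosure L Ω]

omit [IsAlgClosure k F] [IsAlgClosure L Ω] in
private lemma gb_inj {p q : F[X]}
    (h : algebraMap L Ω (algebraMap F[X] L p) = algebraMap L Ω (algebraMap F[X] L q)) : p = q :=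
  IsFractionRing.injective F[X] L ((algebraMap L Ω).injective h)

omit [IsAlgClosure k F] [IsAlgClosure L Ω] in
private lemma gb_unique {γ : Ω ≃+* Ω} {σ τ : F ≃ₐ[k] F}
    (hσ : ∀ p : F[X], γ (algebraMap L Ω (algebraMap F[X] L p)) =
      algebraMap L Ω (algebraMap F[X] L (p.map (σ : F →+* F))))
    (hτ : ∀ p : F[X], γ (algebraMap L Ω (algebraMap F[X] L p)) =
      algebraMap L Ω (algebraMap F[X] L (p.map (τ : F →+* F)))) : σ = τ := by
  ext c
  have h1 := gb_inj ((hσ (C c)).symm.trans (hτ (C c)))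
  rw [map_C, map_C] at h1
  exact C_injective h1

omit [IsFractionRing F[X] L] [IsAlgClosure L Ω] in
private lemma gb_exists (γ : AutO k F L Ω) : ∃ σ : F ≃ₐ[k] F, ∀ p : F[X],
    (γ : Ω ≃+* Ω) (algebraMap L Ω (algebraMap F[X] L p)) =
      algebraMap L Ω (algebraMap F[X] L (p.map (σ : F →+* F))) := by
  let ι : F →+* Ω := (algebraMap L Ω).comp ((algebraMap F[X] L).comp C)
  letI : Algebra F Ω := ι.toAlgebra
  letI : Algebra k Ω := (ι.comp (algebraMap k F)).toAlgebra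
  haveI : IsScalarTower k F Ω := IsScalarTower.of_algebraMap_eq fun x => rfl
  haveI : IsAlgClosed F := IsAlgClosure.isAlgClosed k
  haveI : Algebra.IsAlgebraic k F := IsAlgClosure.isAlgebraic
  haveI : Normal k F := normal_iff.mpr fun x =>
    ⟨Algebra.IsIntegral.isIntegral x, IsAlgClosed.splits _⟩
  have hb : ∀ x : k, algebraMap k Ω x = base k F L Ω (C x) := by
    intro x
    change algebraMap L Ω (algebraMap F[X] L (C (algebraMap k F x))) =
      algebraMap L Ω (algebraMap F[X] L ((C x).map (algebraMap k F)))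
    rw [map_C]
  let γ' : Ω ≃ₐ[k] Ω := AlgEquiv.ofRingEquiv (f := (γ : Ω ≃+* Ω)) (by
    intro x
    rw [hb]
    exact γ.2 (C x))
  let σ := γ'.restrictNormal F
  have hσ : ∀ x : F, (γ : Ω ≃+* Ω) (algebraMap L Ω (algebraMap F[X] L (C x))) =
      algebraMap L Ω (algebraMap F[X] L (C (σ x))) := by
    intro x
    exact (γ'.restrictNormal_commutes F x).symm
  have hX : (γ : Ω ≃+* Ω) (algebraMap L Ω (algebraMap F[X] L X)) =
      algebraMap L Ω (algebraMap F[X] L X) := by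
    have h := γ.2 X
    have h1 : base k F L Ω X = algebraMap L Ω (algebraMap F[X] L X) := by
      change algebraMap L Ω (algebraMap F[X] L ((X : k[X]).map (algebraMap k F))) = _
      rw [map_X]
    rwa [h1] at h
  refine ⟨σ, fun p => ?_⟩
  induction p using Polynomial.induction_on' with
  | add p q hp hq =>
    rw [map_add, map_add, map_add, hp, hq, Polynomial.map_add, map_add, map_add]
  | monomial n a =>
    rw [← C_mul_X_pow_eq_monomial, map_mul, map_mul, map_mul, hσ, map_pow, map_pow, map_pow, hX,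
      Polynomial.map_mul, Polynomial.map_C, Polynomial.map_pow, Polynomial.map_X, map_mul, map_mul,
      map_pow, map_pow]
    rfl

omit [Algebra k F] [IsAlgClosure k F] [IsAlgClosure L Ω] in
private lemma gb_range {γ : Ω ≃+* Ω} {σ : F ≃+* F}
    (h : ∀ p : F[X], γ (algebraMap L Ω (algebraMap F[X] L p)) =
      algebraMap L Ω (algebraMap F[X] L (p.map (σ : F →+* F)))) (y : L) :
    ∃ z : L, γ (algebraMap L Ω y) = algebraMap L Ω z := by
  obtain ⟨p, q, hq, rfl⟩ := IsFractionRing.div_surjective (A := F[X]) y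
  refine ⟨algebraMap F[X] L (p.map (σ : F →+* F)) / algebraMap F[X] L (q.map (σ : F →+* F)), ?_⟩
  rw [map_div₀, map_div₀, map_div₀, h, h]

lemma exists_resF : ∃ r : AutO k F L Ω →* (F ≃ₐ[k] F), ∀ (γ : AutO k F L Ω) (p : F[X]),
    (γ : Ω ≃+* Ω) (algebraMap L Ω (algebraMap F[X] L p)) =
      algebraMap L Ω (algebraMap F[X] L (p.map (r γ : F →+* F))) := by
  refine ⟨{ toFun := fun γ => (gb_exists γ).choose, map_one' := ?_, map_mul' := ?_ }, ?_⟩
  · refine gb_unique (γ := ((1 : AutO k F L Ω) : Ω ≃+* Ω)) (gb_exists (1 : AutO k F L Ω)).choose_spec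
      fun p => ?_
    have h1 : p.map ((1 : F ≃ₐ[k] F) : F →+* F) = p := by
      have h2 : ((1 : F ≃ₐ[k] F) : F →+* F) = RingHom.id F := rfl
      rw [h2, Polynomial.map_id]
    rw [h1]
    rfl
  · intro γ δ
    refine gb_unique (γ := ((γ * δ : AutO k F L Ω) : Ω ≃+* Ω)) (gb_exists (γ * δ)).choose_spec
      fun p => ?_
    have h1 : p.map (((gb_exists γ).choose * (gb_exists δ).choose : F ≃ₐ[k] F) : F →+* F) =
        (p.map ((gb_exists δ).choose : F →+* F)).map ((gb_exists γ).choose : F →+* F) := by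
      rw [Polynomial.map_map]
      rfl
    rw [h1, ← (gb_exists γ).choose_spec, ← (gb_exists δ).choose_spec]
    rfl
  · intro γ p
    exact (gb_exists γ).choose_spec p

/-- The restriction of an automorphism to `F`. -/
noncomputable def resF : AutO k F L Ω →* (F ≃ₐ[k] F) := exists_resF.choose

lemma resF_spec (γ : AutO k F L Ω) (p : F[X]) :
    (γ : Ω ≃+* Ω) (algebraMap L Ω (algebraMap F[X] L p)) =
      algebraMap L Ω (algebraMap F[X] L (p.map (resF γ : F →+* F))) :=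
  exists_resF.choose_spec γ p

lemma resF_surjective : Function.Surjective (resF : AutO k F L Ω →* (F ≃ₐ[k] F)) := by
  intro σ
  obtain ⟨w, hw⟩ := exists_extend_alg (K := L) (M := Ω) (coefL L (σ : F ≃+* F))
  have h1 : ∀ p : F[X], w (algebraMap L Ω (algebraMap F[X] L p)) =
      algebraMap L Ω (algebraMap F[X] L (p.map (σ : F →+* F))) := by
    intro p
    rw [hw, coefL_algebraMap]
    rfl
  have h2 : w ∈ AutO k F L Ω := by
    intro p
    change w (algebraMap L Ω (algebraMap F[X] L (p.map (algebraMap k F)))) =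
      algebraMap L Ω (algebraMap F[X] L (p.map (algebraMap k F)))
    rw [h1, Polynomial.map_map]
    congr 3
    ext x
    exact σ.commutes x
  exact ⟨⟨w, h2⟩, gb_unique (γ := w) (resF_spec ⟨w, h2⟩) h1⟩

lemma exists_galA_of_resF_eq_one (γ : AutO k F L Ω) (h : resF γ = 1) :
    ∃ σ : Ω ≃ₐ[L] Ω, galA k F σ = γ := by
  have h1 : ∀ p : F[X], (γ : Ω ≃+* Ω) (algebraMap L Ω (algebraMap F[X] L p)) =
      algebraMap L Ω (algebraMap F[X] L p) := by
    intro p
    rw [resF_spec, h]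
    have h2 : ((1 : F ≃ₐ[k] F) : F →+* F) = RingHom.id F := rfl
    rw [h2, Polynomial.map_id]
  refine ⟨AlgEquiv.ofRingEquiv (f := (γ : Ω ≃+* Ω)) fun y => ?_, ?_⟩
  · obtain ⟨p, q, hq, rfl⟩ := IsFractionRing.div_surjective (A := F[X]) y
    rw [map_div₀, map_div₀, h1, h1]
  · ext x
    rfl

lemma resF_galA (σ : Ω ≃ₐ[L] Ω) : resF (galA k F σ : AutO k F L Ω) = 1 := by
  refine gb_unique (γ := ((galA k F σ : AutO k F L Ω) : Ω ≃+* Ω)) (resF_spec _) fun p => ?_
  have h2 : ((1 : F ≃ₐ[k] F) : F →+* F) = RingHom.id F := rfl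
  rw [h2, Polynomial.map_id]
  exact σ.commutes _

private lemma gb_fix (γ : AutO k F L Ω) (σ : Ω ≃ₐ[L] Ω) (y : L) :
    (((γ : Ω ≃+* Ω).symm.trans (σ : Ω ≃+* Ω)).trans (γ : Ω ≃+* Ω)) (algebraMap L Ω y) =
      algebraMap L Ω y := by
  obtain ⟨z, hz⟩ := gb_range (γ := ((γ⁻¹ : AutO k F L Ω) : Ω ≃+* Ω))
    (σ := ((resF γ⁻¹ : F ≃ₐ[k] F) : F ≃+* F)) (resF_spec γ⁻¹) y
  have hz' : (γ : Ω ≃+* Ω).symm (algebraMap L Ω y) = algebraMap L Ω z := hz
  change (γ : Ω ≃+* Ω) (σ ((γ : Ω ≃+* Ω).symm (algebraMap L Ω y))) = algebraMap L Ω y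
  rw [hz', σ.commutes, ← hz', RingEquiv.apply_symm_apply]

/-- the conjugate -/
private noncomputable def gbConj (γ : AutO k F L Ω) (σ : Ω ≃ₐ[L] Ω) : Ω ≃ₐ[L] Ω :=
  AlgEquiv.ofRingEquiv (f := ((γ : Ω ≃+* Ω).symm.trans (σ : Ω ≃+* Ω)).trans (γ : Ω ≃+* Ω))
    (gb_fix γ σ)

private lemma gbConj_apply (γ : AutO k F L Ω) (σ : Ω ≃ₐ[L] Ω) (x : Ω) :
    gbConj γ σ x = (γ : Ω ≃+* Ω) (σ ((γ : Ω ≃+* Ω).symm x)) := rfl

private lemma gb_symm (γ : AutO k F L Ω) (x : Ω) :
    ((γ⁻¹ : AutO k F L Ω) : Ω ≃+* Ω) x = (γ : Ω ≃+* Ω).symm x := rfl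

private lemma gb_symm' (γ : AutO k F L Ω) (x : Ω) :
    ((γ⁻¹ : AutO k F L Ω) : Ω ≃+* Ω).symm x = (γ : Ω ≃+* Ω) x := rfl

lemma exists_conjG : ∃ c : AutO k F L Ω →* MulAut (Ω ≃ₐ[L] Ω),
    ∀ (γ : AutO k F L Ω) (σ : Ω ≃ₐ[L] Ω) (x : Ω), (c γ σ) ((γ : Ω ≃+* Ω) x) =
      (γ : Ω ≃+* Ω) (σ x) := by
  refine ⟨{ toFun := fun γ =>
              { toFun := gbConj γ
                invFun := gbConj γ⁻¹
                left_inv := ?_
                right_inv := ?_
                map_mul' := ?_ }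
            map_one' := ?_
            map_mul' := ?_ }, ?_⟩
  · intro σ
    ext x
    rw [gbConj_apply, gb_symm', gb_symm, gbConj_apply, RingEquiv.symm_apply_apply,
      RingEquiv.symm_apply_apply]
  · intro σ
    ext x
    rw [gbConj_apply, gbConj_apply, gb_symm', gb_symm, RingEquiv.apply_symm_apply,
      RingEquiv.apply_symm_apply]
  · intro σ τ
    ext x
    rw [AlgEquiv.mul_apply, gbConj_apply, gbConj_apply, gbConj_apply, RingEquiv.symm_apply_apply,
      AlgEquiv.mul_apply]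
  · ext σ x
    rfl
  · intro γ δ
    ext σ x
    rfl
  · intro γ σ x
    change gbConj γ σ ((γ : Ω ≃+* Ω) x) = _
    rw [gbConj_apply, RingEquiv.symm_apply_apply]

/-- Conjugation of `Gal(Ω/L)` by an automorphism over `k(t)`. -/
noncomputable def conjG : AutO k F L Ω →* MulAut (Ω ≃ₐ[L] Ω) := exists_conjG.choose

lemma conjG_spec (γ : AutO k F L Ω) (σ : Ω ≃ₐ[L] Ω) (x : Ω) :
    (conjG γ σ) ((γ : Ω ≃+* Ω) x) = (γ : Ω ≃+* Ω) (σ x) :=
  exists_conjG.choose_spec γ σ x

lemma galA_conjG (γ : AutO k F L Ω) (σ : Ω ≃ₐ[L] Ω) :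
    (galA k F (conjG γ σ) : AutO k F L Ω) = γ * galA k F σ * γ⁻¹ := by
  apply Subtype.ext
  ext x
  have h := conjG_spec γ σ (((γ⁻¹ : AutO k F L Ω) : Ω ≃+* Ω) x)
  rw [gb_symm, RingEquiv.apply_symm_apply] at h
  rw [galA_coe, h]
  rfl

lemma conjG_galA (τ σ : Ω ≃ₐ[L] Ω) : conjG (galA k F τ : AutO k F L Ω) σ = τ * σ * τ⁻¹ := by
  ext x
  have h := conjG_spec (galA k F τ : AutO k F L Ω) σ (τ⁻¹ x)
  have h1 : τ (τ⁻¹ x) = x := τ.apply_symm_apply x
  rw [galA_coe, galA_coe, h1] at h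
  rw [h]
  rfl

private lemma gb_deriv {ℓ : ℕ} {g D : k[X]} {ζ : k} (H : GlobHyp ℓ g D ζ) :
    g.natDegree ≠ 0 ∧ derivative g ≠ 0 := by
  have hm : g.natDegree ≠ 0 := by
    intro h
    have h1 := H.cop
    rw [h, Nat.coprime_zero_left] at h1
    exact H.prime.one_lt.ne' h1
  refine ⟨hm, fun h0 => ?_⟩
  have h1 := H.sep
  rw [separable_def, derivative_comp, h0, zero_mul, isCoprime_zero_right] at h1
  have h2 := natDegree_eq_zero_of_isUnit h1
  rw [natDegree_comp] at h2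
  rcases mul_eq_zero.1 h2 with h3 | h3
  · exact H.pos h3
  · exact hm h3

lemma isGood_cOver {ℓ : ℕ} {g D : k[X]} {ζ : k} (H : GlobHyp ℓ g D ζ) {A : Type u} [Field A]
    [Algebra L A] [IsAlgClosed A] : IsGood ℓ (cOver k F L A g D) := by
  letI : Algebra F A := ((algebraMap L A).comp ((algebraMap F[X] L).comp C)).toAlgebra
  have hF : CompatF F L A := fun c => rfl
  haveI : IsAlgClosed F := IsAlgClosure.isAlgClosed k
  obtain ⟨hm, hder⟩ := gb_deriv H
  have hg : (g.map (algebraMap k F)).Monic := H.monic.map _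
  have hm' : (g.map (algebraMap k F)).natDegree ≠ 0 := by rwa [natDegree_map]
  have hder' : derivative (g.map (algebraMap k F)) ≠ 0 := by
    rw [derivative_map]
    exact (Polynomial.map_ne_zero_iff (algebraMap k F).injective).2 hder
  have hd : aeval (tA F L A) (D.map (algebraMap k F)) ≠ 0 := by
    rw [← gb_aeval hF]
    intro h
    have h1 : (algebraMap L A) (algebraMap F[X] L (D.map (algebraMap k F))) =
        algebraMap L A (algebraMap F[X] L 0) := by
      rw [h, map_zero, map_zero]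
    have h2 := IsFractionRing.injective F[X] L ((algebraMap L A).injective h1)
    rw [Polynomial.map_eq_zero_iff (algebraMap k F).injective] at h2
    exact H.pos (by rw [h2, natDegree_zero])
  refine ⟨inferInstance, H.prime, ?_, ?_, ?_⟩
  · have h1 : ((algebraMap F A).comp (algebraMap k F)) (ℓ : k) = (ℓ : A) := map_natCast _ ℓ
    rw [← h1]
    exact (_root_.map_ne_zero _).2 H.ne
  · rw [cOver_eq_locPoly hF, separable_def, isCoprime_iff_aeval_ne_zero_of_isAlgClosed A A]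
    intro a
    by_contra hcon
    rw [not_or, not_not, not_not] at hcon
    obtain ⟨h1, h2⟩ := hcon
    rw [coe_aeval_eq_eval] at h1 h2
    rw [eval_locPoly_eq_zero hd] at h1
    have h3 : aeval a (derivative (g.map (algebraMap k F))) = 0 := by
      unfold locPoly at h2
      rw [derivative_C_mul, derivative_sub, derivative_C, sub_zero, derivative_map, eval_mul,
        eval_C] at h2
      rcases mul_eq_zero.1 h2 with h4 | h4
      · exact absurd h4 (inv_ne_zero hd)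
      · rw [eval_map, ← aeval_def] at h4
        exact h4
    have h4 : IsAlgebraic F a := ⟨_, hder', h3⟩
    have hi : IsIntegral F a := h4.isIntegral
    have hdeg : (minpoly F a).degree = 1 :=
      IsAlgClosed.degree_eq_one_of_irreducible F (minpoly.irreducible hi)
    have h5 : aeval a (minpoly F a) = 0 := minpoly.aeval F a
    rw [eq_X_add_C_of_degree_eq_one hdeg, (minpoly.monic hi).leadingCoeff, C_1, one_mul, aeval_add,
      aeval_X, aeval_C, add_eq_zero_iff_eq_neg, ← map_neg] at h5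
    rw [h5, aeval_algebraMap_apply] at h1
    have h6 : algebraMap L A (algebraMap F[X] L (C (aeval (-(minpoly F a).coeff 0)
        (g.map (algebraMap k F))))) = algebraMap L A (algebraMap F[X] L X) := h1
    exact X_ne_C _ (IsFractionRing.injective F[X] L ((algebraMap L A).injective h6)).symm
  · rw [cOver_eq_locPoly hF, natDegree_locPoly hg hm' hd, natDegree_map]
    exact H.cop

end

section Cochains

variable {k F L Ω : Type u} [Field k] [Field F] [Algebra k F] [Field L] [Algebra F[X] L]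
  [Field Ω] [Algebra L Ω]

/-- The cochains: sequences of maps from `Gal(Ω/L)` to the Jacobian. -/
abbrev Coch (ℓ : ℕ) (k F L Ω : Type u) [Field k] [Field F] [Algebra k F] [Field L]
    [Algebra F[X] L] [Field Ω] [Algebra L Ω] (g D : k[X]) : Type u :=
  ℕ → (Ω ≃ₐ[L] Ω) → JacOver ℓ (curvePoly k F L g D) Ω

/-- Locally trivial at all the places `t = a`. -/
def LTc [IsFractionRing F[X] L] {ℓ : ℕ} {g D : k[X]} (c : Coch ℓ k F L Ω g D) : Prop :=
  ∀ (a : F) (n : ℕ), IsLocallyTrivial ℓ (curvePoly k F L g D) (c n) ((plc a).adicCompletion L)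

variable [IsAlgClosure k F] [IsFractionRing F[X] L] [IsAlgClosure L Ω] {ℓ : ℕ} {g D : k[X]}

/-- The action of `Aut(Ω/k(t))` on the cochains: `(γ c)(σ) = γ (c (γ⁻¹ σ γ))`. -/
noncomputable def act (γ : AutO k F L Ω) (c : Coch ℓ k F L Ω g D) : Coch ℓ k F L Ω g D :=
  fun n σ => symJ (toSym g D γ) (c n (conjG γ⁻¹ σ))

variable [hG : IsGood ℓ (cOver k F L Ω g D)]

/-- The primitive root of unity in `A`. -/
noncomputable def zA (F L A : Type u) [Field F] [Algebra k F] [Field L] [Algebra F[X] L]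
    [Field A] [Algebra L A] (ζ : k) : A :=
  base k F L A (C ζ)

/-- The automorphism `Z` acting on the cochains. -/
noncomputable def zC (ζ : k) (hζ : (zA F L Ω ζ) ^ ℓ = 1) :
    Coch ℓ k F L Ω g D →+ Coch ℓ k F L Ω g D where
  toFun c := fun n σ => zJ (zA F L Ω ζ) hζ (c n σ)
  map_zero' := by
    funext n σ
    exact map_zero _
  map_add' c c' := by
    funext n σ
    exact map_add _ _ _

/-- The operator `v = ∑_{k<ℓ} ∑_{i<k} Z^i`, with `(1 - Z) v = ℓ`. -/
noncomputable def vJ {E : Type u} [Field E] {f : E[X]} [IsGood ℓ f] (ζ : E) (hζ : ζ ^ ℓ = 1)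
    (Q : Jac ℓ f) : Jac ℓ f :=
  ∑ k ∈ Finset.range ℓ, ∑ i ∈ Finset.range k, (zJ ζ hζ)^[i] Q

end Cochains

end Pool.Agent.Lib.MP_89bcae_ag.Sup

end

section

/-!
ROW G02 (120-220 lines). Cocycles under addition, `Z` and the action of `Aut(Ω/k(t))`.

PROOFS. `act_mul`: `conjG (γ γ')⁻¹ = conjG γ'⁻¹ ∘ conjG γ⁻¹`, `symJ` is functorial
(`CommRing.Pic.mapRingHom_comp_mapRingHom`; `symJ_mul`, `symJ_one` may be proved through `symJ_cl`).
`push ℓ f (σ : Ω →ₐ[L] Ω) = symJ (toSym (galA σ))` by definition (`push_eq`).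
`IsTateCocycle` for `act γ c`: with `σ' = γ⁻¹ σ γ`, `γ c((στ)') = γ (c σ' + σ' c τ') = γ c σ' + σ γ c τ'`
(`galA_conjG`). Local constancy: `conjG γ⁻¹` is continuous for the Krull topology: it suffices that for
every finite set `S` of elements of `Ω`, an automorphism fixing `γ (S)` is mapped to one which fixes `S`
(`krullTopology`; basis of neighbourhoods = fixing subgroups of finite extensions of `L`, and a finite
extension `L(S)` is mapped by `γ` to the finite extension `L(γ S)`); use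
`IsLocallyConstant.comp_continuous`.
`Z`: `zJ_symJ` since `σ` fixes `ζ`.
-/

open Polynomial IsDedekindDomain

open scoped Classical

namespace Pool.Agent.Lib.MP_89bcae_ag.Sup

universe u

variable {ℓ : ℕ} {E : Type u} [Field E] {f : E[X]}

lemma symJ_one [IsGood ℓ f] (Q : Jac ℓ f) : symJ (1 : Sym f) Q = Q := by
  obtain ⟨D, rfl⟩ := cl_surjective Q
  rw [symJ_cl]
  have h : (Pt.sym (1 : Sym f) : Pt ℓ f → Pt ℓ f) = id := rfl
  rw [h, Finsupp.mapDomain_id]

lemma symJ_mul [IsGood ℓ f] (σ τ : Sym f) (Q : Jac ℓ f) :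
    symJ (σ * τ) Q = symJ σ (symJ τ Q) := by
  obtain ⟨D, rfl⟩ := cl_surjective Q
  rw [symJ_cl, symJ_cl, symJ_cl, ← Finsupp.mapDomain_comp]
  rfl

variable {k F L Ω : Type u} [Field k] [Field F] [Algebra k F] [Field L] [Algebra F[X] L]
  [Field Ω] [Algebra L Ω] [IsAlgClosure k F] [IsFractionRing F[X] L] [IsAlgClosure L Ω]
  {g D : k[X]} [hG : IsGood ℓ (cOver k F L Ω g D)]

lemma push_eq (σ : Ω ≃ₐ[L] Ω) (Q : JacOver ℓ (curvePoly k F L g D) Ω) :
    push ℓ (curvePoly k F L g D) (σ : Ω →ₐ[L] Ω) Q = symJ (toSym g D (galA k F σ)) Q := rfl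

lemma zA_fixed (ζ : k) (γ : AutO k F L Ω) :
    (γ : Ω ≃+* Ω) (zA F L Ω ζ) = zA F L Ω ζ := γ.2 (C ζ)

lemma act_one (c : Coch ℓ k F L Ω g D) : act (1 : AutO k F L Ω) c = c := by
  funext n σ
  unfold act
  rw [inv_one, map_one, map_one, MulAut.one_apply]
  exact symJ_one _

lemma act_mul (γ γ' : AutO k F L Ω) (c : Coch ℓ k F L Ω g D) :
    act (γ * γ') c = act γ (act γ' c) := by
  funext n σ
  unfold act
  rw [mul_inv_rev, map_mul, map_mul, MulAut.mul_apply]
  exact symJ_mul _ _ _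

lemma act_add (γ : AutO k F L Ω) (c c' : Coch ℓ k F L Ω g D) :
    act γ (c + c') = act γ c + act γ c' := by
  funext n σ
  exact map_add (symJ (toSym g D γ)) _ _

lemma act_zero (γ : AutO k F L Ω) : act γ (0 : Coch ℓ k F L Ω g D) = 0 := by
  funext n σ
  exact map_zero (symJ (toSym g D γ))

lemma act_sub (γ : AutO k F L Ω) (c c' : Coch ℓ k F L Ω g D) :
    act γ (c - c') = act γ c - act γ c' := by
  funext n σ
  exact map_sub (symJ (toSym g D γ)) _ _

lemma act_zC (γ : AutO k F L Ω) (ζ : k) (hζ : (zA F L Ω ζ) ^ ℓ = 1)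
    (c : Coch ℓ k F L Ω g D) : act γ (zC ζ hζ c) = zC ζ hζ (act γ c) := by
  funext n σ
  exact (zJ_symJ (zA F L Ω ζ) hζ (toSym g D γ) (zA_fixed ζ γ) _).symm

lemma IsTateCocycle.zero' : IsTateCocycle ℓ (curvePoly k F L g D) (0 : Coch ℓ k F L Ω g D) where
  zero _ := rfl
  smul _ _ := smul_zero _
  cocycle n σ τ := by
    change (0 : JacOver ℓ (curvePoly k F L g D) Ω) = 0 + push ℓ (curvePoly k F L g D) _ 0
    rw [map_zero, add_zero]
  locallyConstant _ := IsLocallyConstant.const _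

lemma IsTateCocycle.add {c c' : Coch ℓ k F L Ω g D}
    (hc : IsTateCocycle ℓ (curvePoly k F L g D) c)
    (hc' : IsTateCocycle ℓ (curvePoly k F L g D) c') :
    IsTateCocycle ℓ (curvePoly k F L g D) (c + c') where
  zero σ := by
    rw [Pi.add_apply, Pi.add_apply, hc.zero, hc'.zero, add_zero]
  smul n σ := by
    rw [Pi.add_apply, Pi.add_apply, Pi.add_apply, Pi.add_apply, smul_add, hc.smul, hc'.smul]
  cocycle n σ τ := by
    simp only [Pi.add_apply]
    rw [hc.cocycle, hc'.cocycle, map_add]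
    abel
  locallyConstant n := (hc.locallyConstant n).add (hc'.locallyConstant n)

lemma IsTateCocycle.neg {c : Coch ℓ k F L Ω g D}
    (hc : IsTateCocycle ℓ (curvePoly k F L g D) c) :
    IsTateCocycle ℓ (curvePoly k F L g D) (-c) where
  zero σ := by
    rw [Pi.neg_apply, Pi.neg_apply, hc.zero, neg_zero]
  smul n σ := by
    rw [Pi.neg_apply, Pi.neg_apply, Pi.neg_apply, Pi.neg_apply, smul_neg, hc.smul]
  cocycle n σ τ := by
    simp only [Pi.neg_apply]
    rw [hc.cocycle, map_neg]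
    abel
  locallyConstant n := (hc.locallyConstant n).neg

lemma IsTateCocycle.zC {c : Coch ℓ k F L Ω g D}
    (hc : IsTateCocycle ℓ (curvePoly k F L g D) c) (ζ : k) (hζ : (zA F L Ω ζ) ^ ℓ = 1) :
    IsTateCocycle ℓ (curvePoly k F L g D) (Sup.zC ζ hζ c) where
  zero σ := by
    change zJ (zA F L Ω ζ) hζ (c 0 σ) = 0
    rw [hc.zero, map_zero]
  smul n σ := by
    change ℓ • zJ (zA F L Ω ζ) hζ (c (n + 1) σ) = zJ (zA F L Ω ζ) hζ (c n σ)
    rw [← map_nsmul, hc.smul]
  cocycle n σ τ := by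
    change zJ (zA F L Ω ζ) hζ (c n (σ * τ)) = zJ (zA F L Ω ζ) hζ (c n σ) +
      push ℓ (curvePoly k F L g D) (σ : Ω →ₐ[L] Ω) (zJ (zA F L Ω ζ) hζ (c n τ))
    rw [hc.cocycle, map_add, push_eq, push_eq]
    rw [zJ_symJ (zA F L Ω ζ) hζ (toSym g D (galA k F σ)) (zA_fixed ζ (galA k F σ))]
  locallyConstant n := (hc.locallyConstant n).comp (zJ (zA F L Ω ζ) hζ)

private lemma G02_continuous (γ : AutO k F L Ω) :
    Continuous (conjG γ : (Ω ≃ₐ[L] Ω) → (Ω ≃ₐ[L] Ω)) := by
  have hmul : ∀ x : Ω, (γ : Ω ≃+* Ω) (((γ⁻¹ : AutO k F L Ω) : Ω ≃+* Ω) x) = x := fun x =>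
    (γ : Ω ≃+* Ω).apply_symm_apply x
  refine continuous_of_continuousAt_one (conjG γ : MulAut (Ω ≃ₐ[L] Ω)) ?_
  unfold ContinuousAt
  rw [map_one]
  intro U hU
  obtain ⟨K, hK, hKU⟩ := (krullTopology_mem_nhds_one_iff L Ω U).1 hU
  let b := Module.finBasis L K
  let S : Set Ω := Set.range fun i => ((γ⁻¹ : AutO k F L Ω) : Ω ≃+* Ω) (b i : Ω)
  have halg : Algebra.IsAlgebraic L Ω := IsAlgClosure.isAlgebraic
  have hfin : FiniteDimensional L (IntermediateField.adjoin L S) :=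
    IntermediateField.finiteDimensional_adjoin fun x _ => halg.isAlgebraic x |>.isIntegral
  refine Filter.mem_map.2 ((krullTopology_mem_nhds_one_iff L Ω _).2
    ⟨IntermediateField.adjoin L S, hfin, ?_⟩)
  intro σ hσ
  refine hKU ?_
  have h1 : ∀ i, (conjG γ σ) (b i : Ω) = b i := by
    intro i
    have h2 : σ (((γ⁻¹ : AutO k F L Ω) : Ω ≃+* Ω) (b i : Ω)) =
        ((γ⁻¹ : AutO k F L Ω) : Ω ≃+* Ω) (b i : Ω) :=
      (IntermediateField.mem_fixingSubgroup_iff _ _).1 hσ _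
        (IntermediateField.subset_adjoin L S ⟨i, rfl⟩)
    have h3 := conjG_spec γ σ (((γ⁻¹ : AutO k F L Ω) : Ω ≃+* Ω) (b i : Ω))
    rw [h2, hmul] at h3
    exact h3
  have h4 : (conjG γ σ).toLinearMap ∘ₗ K.val.toLinearMap = K.val.toLinearMap :=
    b.ext fun i => h1 i
  exact (IntermediateField.mem_fixingSubgroup_iff _ _).2 fun x hx =>
    LinearMap.congr_fun h4 ⟨x, hx⟩

lemma IsTateCocycle.act {c : Coch ℓ k F L Ω g D}
    (hc : IsTateCocycle ℓ (curvePoly k F L g D) c) (γ : AutO k F L Ω) :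
    IsTateCocycle ℓ (curvePoly k F L g D) (Sup.act γ c) where
  zero σ := by
    change symJ (toSym g D γ) (c 0 (conjG γ⁻¹ σ)) = 0
    rw [hc.zero, map_zero]
  smul n σ := by
    change ℓ • symJ (toSym g D γ) (c (n + 1) (conjG γ⁻¹ σ)) =
      symJ (toSym g D γ) (c n (conjG γ⁻¹ σ))
    rw [← map_nsmul, hc.smul]
  cocycle n σ τ := by
    change symJ (toSym g D γ) (c n (conjG γ⁻¹ (σ * τ))) =
      symJ (toSym g D γ) (c n (conjG γ⁻¹ σ)) +
        push ℓ (curvePoly k F L g D) (σ : Ω →ₐ[L] Ω) (symJ (toSym g D γ) (c n (conjG γ⁻¹ τ)))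
    rw [map_mul, hc.cocycle, map_add, push_eq, push_eq, ← symJ_mul, ← symJ_mul, ← map_mul,
      ← map_mul, galA_conjG]
    have e : γ * (γ⁻¹ * galA k F σ * γ⁻¹⁻¹) = galA k F σ * γ := by group
    rw [e]
  locallyConstant n :=
    ((hc.locallyConstant n).comp_continuous (G02_continuous γ⁻¹)).comp (symJ (toSym g D γ))

lemma IsTateCocycle.pow_smul {c : Coch ℓ k F L Ω g D}
    (hc : IsTateCocycle ℓ (curvePoly k F L g D) c) (n : ℕ) (σ : Ω ≃ₐ[L] Ω) :
    ℓ ^ n • c n σ = 0 := by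
  induction n with
  | zero => rw [pow_zero, one_smul, hc.zero]
  | succ n ih => rw [pow_succ, mul_smul, hc.smul, ih]

end Pool.Agent.Lib.MP_89bcae_ag.Sup

end

section

/-!
# The trivial cocycles and the invariant Selmer cocycles

ROW G03 = the lemmas of this file (80-150 lines).
PROOFS. Trivial cocycles: `c n σ = σ A - A`, `ℓ^n A = 0`; sums, `Z A`, `γ A` (with
`σ γ A - γ A = γ (γ⁻¹ σ γ A - A)`). `act_galA_sub`: for a cocycle `c` and `h` in `Gal(Ω/L)`:
`(h c)(σ) = h c(h⁻¹ σ h) = c(σ h) - c(h) = c(σ) + σ c(h) - c(h)` (cocycle relation for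
`h (h⁻¹ σ h) = σ h`), so `h c - c` is the coboundary of `A = c n h`, killed by `ℓ^n`.
-/

open Polynomial IsDedekindDomain

open scoped Classical

namespace Pool.Agent.Lib.MP_89bcae_ag.Sup

universe u

variable {k F L Ω : Type u} [Field k] [Field F] [Algebra k F] [Field L] [Algebra F[X] L]
  [Field Ω] [Algebra L Ω] [IsAlgClosure k F] [IsFractionRing F[X] L] [IsAlgClosure L Ω]
  {ℓ : ℕ} {g D : k[X]} [hG : IsGood ℓ (cOver k F L Ω g D)]

/-- The trivial Tate cocycles. -/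
def TTc (c : Coch ℓ k F L Ω g D) : Prop :=
  IsTateCocycle ℓ (curvePoly k F L g D) c ∧ IsTrivial ℓ (curvePoly k F L g D) c

/-- The locally trivial Tate cocycles whose class is fixed by a power of each automorphism. -/
def WWc (c : Coch ℓ k F L Ω g D) : Prop :=
  IsTateCocycle ℓ (curvePoly k F L g D) c ∧ LTc c ∧
    ∀ γ : AutO k F L Ω, ∃ M : ℕ, 0 < M ∧ TTc (act (γ ^ M) c - c)

lemma TTc.zero : TTc (0 : Coch ℓ k F L Ω g D) := by
  refine ⟨IsTateCocycle.zero', fun n => ⟨0, smul_zero _, fun σ => ?_⟩⟩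
  rw [map_zero, sub_zero]
  rfl

lemma TTc.add {c c' : Coch ℓ k F L Ω g D} (hc : TTc c) (hc' : TTc c') : TTc (c + c') := by
  refine ⟨hc.1.add hc'.1, fun n => ?_⟩
  obtain ⟨A, hA, hcA⟩ := hc.2 n
  obtain ⟨B, hB, hcB⟩ := hc'.2 n
  refine ⟨A + B, by rw [smul_add, hA, hB, add_zero], fun σ => ?_⟩
  change c n σ + c' n σ = _
  rw [hcA σ, hcB σ, map_add]
  abel

lemma TTc.neg {c : Coch ℓ k F L Ω g D} (hc : TTc c) : TTc (-c) := by
  refine ⟨hc.1.neg, fun n => ?_⟩
  obtain ⟨A, hA, hcA⟩ := hc.2 n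
  refine ⟨-A, by rw [smul_neg, hA, neg_zero], fun σ => ?_⟩
  change -(c n σ) = _
  rw [hcA σ, map_neg]
  abel

lemma TTc.sub {c c' : Coch ℓ k F L Ω g D} (hc : TTc c) (hc' : TTc c') : TTc (c - c') := by
  rw [sub_eq_add_neg]
  exact hc.add hc'.neg

lemma TTc.zC {c : Coch ℓ k F L Ω g D} (hc : TTc c) (ζ : k) (hζ : (zA F L Ω ζ) ^ ℓ = 1) :
    TTc (Sup.zC ζ hζ c) := by
  refine ⟨hc.1.zC ζ hζ, fun n => ?_⟩
  obtain ⟨A, hA, hcA⟩ := hc.2 n
  refine ⟨zJ (zA F L Ω ζ) hζ A, by rw [← map_nsmul, hA, map_zero], fun σ => ?_⟩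
  change zJ (zA F L Ω ζ) hζ (c n σ) = _
  rw [hcA σ, map_sub, push_eq, push_eq, zJ_symJ]
  exact zA_fixed ζ (galA k F σ)

lemma TTc.act {c : Coch ℓ k F L Ω g D} (hc : TTc c) (γ : AutO k F L Ω) :
    TTc (Sup.act γ c) := by
  refine ⟨hc.1.act γ, fun n => ?_⟩
  obtain ⟨A, hA, hcA⟩ := hc.2 n
  refine ⟨symJ (toSym g D γ) A, by rw [← map_nsmul, hA, map_zero], fun σ => ?_⟩
  change symJ (toSym g D γ) (c n (conjG γ⁻¹ σ)) = _
  rw [hcA, map_sub, push_eq, push_eq, galA_conjG, ← symJ_mul, ← symJ_mul, ← map_mul, ← map_mul]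
  have h : γ * (γ⁻¹ * galA k F σ * γ⁻¹⁻¹) = galA k F σ * γ := by group
  rw [h]

lemma act_galA_sub {c : Coch ℓ k F L Ω g D}
    (hc : IsTateCocycle ℓ (curvePoly k F L g D) c) (h : Ω ≃ₐ[L] Ω) :
    TTc (act (galA k F h) c - c) := by
  refine ⟨?_, fun n => ?_⟩
  · rw [sub_eq_add_neg]
    exact (hc.act _).add hc.neg
  refine ⟨c n h, hc.pow_smul n h, fun σ => ?_⟩
  change symJ (toSym g D (galA k F h)) (c n (conjG (galA k F h)⁻¹ σ)) - c n σ = _
  have h1 : conjG (galA k F h : AutO k F L Ω)⁻¹ σ = h⁻¹ * σ * h := by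
    rw [← map_inv, conjG_galA, inv_inv]
  have h2 : h * (h⁻¹ * σ * h) = σ * h := by group
  have h3 := hc.cocycle n h (h⁻¹ * σ * h)
  rw [h2, hc.cocycle n σ h] at h3
  rw [h1, ← push_eq]
  rw [eq_comm, ← sub_eq_iff_eq_add'] at h3
  rw [← h3]
  abel

/-- If two automorphisms have the same restriction to `F`, they act in the same way on classes. -/
lemma act_sub_act_of_resF_eq {c : Coch ℓ k F L Ω g D}
    (hc : IsTateCocycle ℓ (curvePoly k F L g D) c) {γ γ' : AutO k F L Ω}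
    (h : resF γ = resF γ') : TTc (act γ c - act γ' c) := by
  obtain ⟨σ, hσ⟩ := exists_galA_of_resF_eq_one (γ'⁻¹ * γ) (by rw [map_mul, map_inv, h]; group)
  have h1 : γ = γ' * galA k F σ := by rw [hσ]; group
  have h2 : act γ c - act γ' c = act γ' (act (galA k F σ) c - c) := by
    rw [act_sub, ← act_mul, ← h1]
  rw [h2]
  exact (act_galA_sub hc σ).act γ'

lemma sum_zC_mem (ζ : k) (hζ : IsPrimitiveRoot (zA F L Ω ζ) ℓ) (c : Coch ℓ k F L Ω g D) :
    ∑ i ∈ Finset.range ℓ, (zC ζ hζ.pow_eq_one)^[i] c = 0 := by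
  have hit : ∀ (i : ℕ) (n : ℕ) (σ : Ω ≃ₐ[L] Ω), ((zC ζ hζ.pow_eq_one)^[i] c) n σ =
      (zJ (zA F L Ω ζ) hζ.pow_eq_one)^[i] (c n σ) := by
    intro i
    induction i with
    | zero =>
      intro n σ
      rfl
    | succ i ih =>
      intro n σ
      rw [Function.iterate_succ_apply', Function.iterate_succ_apply', ← ih n σ]
      rfl
  funext n σ
  rw [Finset.sum_apply, Finset.sum_apply]
  simp only [hit]
  exact sum_zJ _ hζ _

end Pool.Agent.Lib.MP_89bcae_ag.Sup

end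

section

/-!
ROW G07 (150-280 lines). `Gal(Ω/L)`-invariants; transitivity on the roots; `π` and `v`; continuity.

PROOFS. (1) Transitivity: `g(x) - t` is irreducible over `L = F(t)`: in `F[t][x]` it is of degree one in
`t`, with coefficients `g(x)` and `-1`, so irreducible in `F[x][t] = F[t][x]`, primitive as it is monic in
`x`, and Gauss's lemma (`Polynomial.IsPrimitive.irreducible_iff_irreducible_map_fraction_map` or
`Monic.irreducible_iff_irreducible_map_fraction_map`). All its roots in `Ω` are conjugate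
(`minpoly` = it; `IsConjRoot`, or `Normal` + `exists_algEquiv`).
(2) `ram e` fixed by all `σ`, then it is `0`: by `symJ_ram` and `ram_eq_zero_iff`,
`e(σ⁻¹ θ) - e(θ) ≡ c(σ)` for all roots; summing over the roots `m c(σ) ≡ 0`, so `c(σ) ≡ 0` (`m` prime to
`ℓ`), `e` is constant modulo `ℓ` on the roots, `ram e = 0`.
(3) `ℓ^n Q = 0` and `Q` fixed implies `Q = 0`: `π^((ℓ-1) n) Q` is `ℓ^n` times something, hence
killed...: by `exists_pi_identity` (A01) `π^(ℓ-1) = ℓ (-1 + π w)` (polynomials in `Z`), so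
`π^{(ℓ-1) n} Q = 0`; by descending induction: if `π^(i+1) Q = 0` then `π^i Q` is in the kernel of `π`, so it is
some `ram e` (R18), fixed by `Gal`, so it is `0` by (2).
(4) `vJ` facts: `π (v Q) = ℓ Q` (from `sum_zJ`), `v` additive, commutes with `Z`, `symJ σ` (`σ` fixing
`ζ`) and `jacMap j`. (5) `ℓ`-divisibility: by R19 `Q = π^(ℓ-1) Q' = ℓ (-1 + π w) Q'`.
(6) `σ ↦ σ Q` is locally constant: `Q = cl D` and `D` is fixed by the automorphisms which fix the
coordinates of the finitely many points of its support.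
-/

open Polynomial IsDedekindDomain

open scoped Classical

namespace Pool.Agent.Lib.MP_89bcae_ag.Sup

universe u

section

variable {ℓ : ℕ} {E : Type u} [Field E] {f : E[X]} [hG : IsGood ℓ f]

lemma vJ_add (ζ : E) (hζ : ζ ^ ℓ = 1) (Q Q' : Jac ℓ f) :
    vJ ζ hζ (Q + Q') = vJ ζ hζ Q + vJ ζ hζ Q' := by
  unfold vJ
  rw [← Finset.sum_add_distrib]
  refine Finset.sum_congr rfl fun k _ => ?_
  rw [← Finset.sum_add_distrib]
  refine Finset.sum_congr rfl fun i _ => ?_
  exact iterate_map_add (zJ ζ hζ) i Q Q'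

private lemma G07_vJ_zero (ζ : E) (hζ : ζ ^ ℓ = 1) : vJ ζ hζ (0 : Jac ℓ f) = 0 := by
  have h := vJ_add ζ hζ (0 : Jac ℓ f) 0
  rw [add_zero] at h
  exact left_eq_add.mp h

private noncomputable def G07_vHom (ζ : E) (hζ : ζ ^ ℓ = 1) : Jac ℓ f →+ Jac ℓ f where
  toFun := vJ ζ hζ
  map_zero' := G07_vJ_zero ζ hζ
  map_add' := vJ_add ζ hζ

lemma vJ_sub (ζ : E) (hζ : ζ ^ ℓ = 1) (Q Q' : Jac ℓ f) :
    vJ ζ hζ (Q - Q') = vJ ζ hζ Q - vJ ζ hζ Q' :=
  map_sub (G07_vHom ζ hζ) Q Q'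

lemma vJ_smul (ζ : E) (hζ : ζ ^ ℓ = 1) (n : ℕ) (Q : Jac ℓ f) :
    vJ ζ hζ (n • Q) = n • vJ ζ hζ Q :=
  map_nsmul (G07_vHom ζ hζ) n Q

/-- A homomorphism which commutes with `Z` commutes with `v`. -/
private lemma G07_vJ_semiconj {E' : Type u} [Field E'] {f' : E'[X]} [hG' : IsGood ℓ f'] (ζ : E)
    (hζ : ζ ^ ℓ = 1) (ζ' : E') (hζ' : ζ' ^ ℓ = 1) (h : Jac ℓ f →+ Jac ℓ f')
    (hh : ∀ Q, zJ ζ' hζ' (h Q) = h (zJ ζ hζ Q)) (Q : Jac ℓ f) :
    vJ ζ' hζ' (h Q) = h (vJ ζ hζ Q) := by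
  have hs : Function.Semiconj h (zJ ζ hζ) (zJ ζ' hζ') := fun Q => (hh Q).symm
  unfold vJ
  rw [map_sum]
  refine Finset.sum_congr rfl fun k _ => ?_
  rw [map_sum]
  refine Finset.sum_congr rfl fun i _ => ?_
  exact ((hs.iterate_right i) Q).symm

lemma vJ_zJ (ζ : E) (hζ : ζ ^ ℓ = 1) (Q : Jac ℓ f) :
    vJ ζ hζ (zJ ζ hζ Q) = zJ ζ hζ (vJ ζ hζ Q) :=
  G07_vJ_semiconj ζ hζ ζ hζ (zJ ζ hζ) (fun _ => rfl) Q

lemma vJ_sub_zJ (ζ : E) (hζ : IsPrimitiveRoot ζ ℓ) (Q : Jac ℓ f) :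
    vJ ζ hζ.pow_eq_one Q - zJ ζ hζ.pow_eq_one (vJ ζ hζ.pow_eq_one Q) = ℓ • Q := by
  have h0 := sum_zJ ζ hζ Q
  unfold vJ
  rw [map_sum, ← Finset.sum_sub_distrib]
  have h1 : ∀ k ∈ Finset.range ℓ, (∑ i ∈ Finset.range k, (zJ ζ hζ.pow_eq_one)^[i] Q) -
      zJ ζ hζ.pow_eq_one (∑ i ∈ Finset.range k, (zJ ζ hζ.pow_eq_one)^[i] Q) =
      Q - (zJ ζ hζ.pow_eq_one)^[k] Q := by
    intro k _
    rw [map_sum, ← Finset.sum_sub_distrib]
    have h2 : ∀ i ∈ Finset.range k, (zJ ζ hζ.pow_eq_one)^[i] Q -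
        zJ ζ hζ.pow_eq_one ((zJ ζ hζ.pow_eq_one)^[i] Q) =
        (fun j => (zJ ζ hζ.pow_eq_one)^[j] Q) i - (fun j => (zJ ζ hζ.pow_eq_one)^[j] Q) (i + 1) := by
      intro i _
      simp only [Function.iterate_succ_apply']
    rw [Finset.sum_congr rfl h2, Finset.sum_range_sub']
    rfl
  rw [Finset.sum_congr rfl h1, Finset.sum_sub_distrib, h0, sub_zero, Finset.sum_const,
    Finset.card_range]

lemma vJ_symJ (ζ : E) (hζ : ζ ^ ℓ = 1) (σ : Sym f) (hσ : (σ : E ≃+* E) ζ = ζ) (Q : Jac ℓ f) :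
    vJ ζ hζ (symJ σ Q) = symJ σ (vJ ζ hζ Q) :=
  G07_vJ_semiconj ζ hζ ζ hζ (symJ σ) (fun Q => zJ_symJ ζ hζ σ hσ Q) Q

lemma vJ_jacMap {E' : Type u} [Field E'] {f' : E'[X]} [hG' : IsGood ℓ f'] (σ : E →+* E')
    (h : f.map σ = f') (ζ : E) (hζ : ζ ^ ℓ = 1) (hζ' : (σ ζ) ^ ℓ = 1) (Q : Jac ℓ f) :
    vJ (σ ζ) hζ' (jacMap ℓ σ h Q) = jacMap ℓ σ h (vJ ζ hζ Q) :=
  G07_vJ_semiconj ζ hζ (σ ζ) hζ' (jacMap ℓ σ h) (fun Q => zJ_jacMap σ h ζ hζ hζ' Q) Q

/-- The operator `π = 1 - Z` in the ring of endomorphisms, with the identity of `A01`. -/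
private lemma G07_identity (ζ : E) (hζ : IsPrimitiveRoot ζ ℓ) :
    ∃ p U : AddMonoid.End (Jac ℓ f), (∀ Q, p Q = Q - zJ ζ hζ.pow_eq_one Q) ∧
      p ^ (ℓ - 1) = (ℓ : AddMonoid.End (Jac ℓ f)) * U := by
  let z : AddMonoid.End (Jac ℓ f) := zJ ζ hζ.pow_eq_one
  let S : ℤ[X] := ∑ i ∈ Finset.range ℓ, X ^ i
  have hS : aeval z S = 0 := by
    refine AddMonoidHom.ext fun Q => ?_
    have h := sum_zJ ζ hζ Q
    have h2 : aeval z S = ∑ i ∈ Finset.range ℓ, z ^ i := by
      simp only [S, map_sum, map_pow, aeval_X]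
    rw [h2]
    have h3 : (∑ i ∈ Finset.range ℓ, z ^ i : AddMonoid.End (Jac ℓ f)) Q =
        ∑ i ∈ Finset.range ℓ, (z ^ i) Q := AddMonoidHom.finsetSum_apply _ _ _
    exact h3.trans h
  let B : Type := ℤ[X] ⧸ Ideal.span {S}
  let φ : B →+* AddMonoid.End (Jac ℓ f) :=
    Ideal.Quotient.lift (Ideal.span {S}) (aeval z : ℤ[X] →ₐ[ℤ] AddMonoid.End (Jac ℓ f)).toRingHom
      (by
        intro a ha
        obtain ⟨b, rfl⟩ := Ideal.mem_span_singleton'.mp ha
        show aeval z (b * S) = 0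
        rw [map_mul, hS, mul_zero])
  have hz : ∑ i ∈ Finset.range ℓ, (Ideal.Quotient.mk (Ideal.span {S}) X : B) ^ i = 0 := by
    have h : (Ideal.Quotient.mk (Ideal.span {S}) S : B) = 0 :=
      Ideal.Quotient.eq_zero_iff_mem.mpr (Ideal.mem_span_singleton_self S)
    rw [← h]
    simp only [S, map_sum, map_pow]
  obtain ⟨v, w, h1, h2⟩ := exists_pi_identity hG.prime (Ideal.Quotient.mk (Ideal.span {S}) X : B) hz
  have hφX : φ (Ideal.Quotient.mk (Ideal.span {S}) X) = z := by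
    show aeval z X = z
    exact aeval_X z
  refine ⟨1 - z, φ (-1 + (1 - Ideal.Quotient.mk (Ideal.span {S}) X) * w), fun Q => rfl, ?_⟩
  have h3 := congrArg φ h2
  rw [map_pow, map_mul, map_natCast, map_sub, map_one, hφX] at h3
  exact h3

/-- (5) -/
lemma exists_smul_eq (ζ : E) (hζ : IsPrimitiveRoot ζ ℓ) (Q : Jac ℓ f) :
    ∃ Q' : Jac ℓ f, ℓ • Q' = Q := by
  obtain ⟨p, U, hp, hU⟩ := G07_identity (f := f) ζ hζ
  have hs : ∀ n : ℕ, ∃ Q' : Jac ℓ f, (p ^ n) Q' = Q := by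
    intro n
    induction n with
    | zero => exact ⟨Q, rfl⟩
    | succ n ih =>
      obtain ⟨Q', hQ'⟩ := ih
      obtain ⟨Q'', hQ''⟩ := exists_sub_zJ ζ hζ Q'
      refine ⟨Q'', ?_⟩
      rw [pow_succ]
      show (p ^ n) (p Q'') = Q
      rw [hp, hQ'', hQ']
  obtain ⟨Q', hQ'⟩ := hs (ℓ - 1)
  refine ⟨U Q', ?_⟩
  rw [hU] at hQ'
  exact hQ'

/-- A class killed by `ℓ` is killed by `(1 - Z)^(ℓ-1)`. -/
lemma iterate_eq_zero_of_smul (ζ : E) (hζ : IsPrimitiveRoot ζ ℓ) (n : ℕ) (Q : Jac ℓ f)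
    (hQ : ℓ ^ n • Q = 0) : (fun x => x - zJ ζ hζ.pow_eq_one x)^[(ℓ - 1) * n] Q = 0 := by
  obtain ⟨p, U, hp, hU⟩ := G07_identity (f := f) ζ hζ
  have hfun : (fun x => x - zJ ζ hζ.pow_eq_one x) = (p : Jac ℓ f → Jac ℓ f) := by
    funext x
    exact (hp x).symm
  have h1 : (fun x => x - zJ ζ hζ.pow_eq_one x)^[(ℓ - 1) * n] Q = (p ^ ((ℓ - 1) * n)) Q := by
    rw [hfun]
    rfl
  rw [h1, pow_mul, hU, (Nat.cast_commute ℓ U).mul_pow, ((Nat.cast_commute ℓ U).pow_pow n n).eq]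
  show (U ^ n) (((ℓ : AddMonoid.End (Jac ℓ f)) ^ n) Q) = 0
  rw [← Nat.cast_pow, AddMonoid.End.natCast_apply, hQ, map_zero]

/-- Image of a ramified class under a homomorphism of fields. -/
lemma jacMap_ram {E' : Type u} [Field E'] {f' : E'[X]} [hG' : IsGood ℓ f'] (σ : E →+* E')
    (h : f.map σ = f') (e : E → ℤ) (e' : E' → ℤ) (he : ∀ θ, f.eval θ = 0 → e' (σ θ) = e θ) :
    jacMap ℓ σ h (ram e) = ram e' := by
  unfold ram
  rw [jacMap_cl]
  congr 1
  have hinj : Function.Injective (Pt.map σ h : Pt ℓ f → Pt ℓ f') := by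
    intro P P' hPP
    have h1 : σ P.x = σ P'.x := congrArg Pt.x hPP
    have h2 : σ P.y = σ P'.y := congrArg Pt.y hPP
    exact Pt.ext (σ.injective h1) (σ.injective h2)
  ext P'
  by_cases hP' : P' ∈ Set.range (Pt.map σ h : Pt ℓ f → Pt ℓ f')
  · obtain ⟨P, rfl⟩ := hP'
    rw [Finsupp.mapDomain_apply hinj, ramDiv_apply, ramDiv_apply]
    by_cases hy : P.y = 0
    · have hy' : (Pt.map σ h P).y = 0 := by
        show σ P.y = 0
        rw [hy, map_zero]
      rw [if_pos hy, if_pos hy']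
      exact (he P.x (R15_root P hy)).symm
    · have hy' : (Pt.map σ h P).y ≠ 0 := by
        show σ P.y ≠ 0
        exact fun h0 => hy ((map_eq_zero σ).mp h0)
      rw [if_neg hy, if_neg hy']
  · rw [Finsupp.mapDomain_of_notMem_range _ _ hP', ramDiv_apply]
    have hy' : P'.y ≠ 0 := by
      intro hy
      apply hP'
      have := hG.alg
      have hr : f'.eval P'.x = 0 := R15_root P' hy
      have hf0 : f ≠ 0 := hG.separable.ne_zero
      have hx : P'.x ∈ σ.range := by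
        apply (IsAlgClosed.splits f).mem_range_of_isRoot hf0
        rw [h]
        exact hr
      obtain ⟨x, hx⟩ := hx
      have hfx : f.eval x = 0 := by
        apply σ.injective
        rw [map_zero, ← Polynomial.eval_map_apply, h, hx]
        exact hr
      refine ⟨⟨x, 0, by rw [hfx, zero_pow hG.prime.ne_zero]⟩, ?_⟩
      refine Pt.ext hx ?_
      show σ 0 = P'.y
      rw [map_zero, hy]
    rw [if_neg hy']

end

/-- The number of roots. -/
private lemma G07_card_rts {ℓ : ℕ} {E : Type u} [Field E] {f : E[X]} (hG : IsGood ℓ f) :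
    (rts f).card = f.natDegree := by
  have := hG.alg
  unfold rts
  rw [Multiset.toFinset_card_of_nodup (nodup_roots hG.separable), IsAlgClosed.card_roots_eq_natDegree]

variable {k F L Ω : Type u} [Field k] [Field F] [Algebra k F] [Field L] [Algebra F[X] L]
  [Field Ω] [Algebra L Ω] [IsAlgClosure k F] [IsFractionRing F[X] L] [IsAlgClosure L Ω]
  {ℓ : ℕ} {g D : k[X]} [hG : IsGood ℓ (cOver k F L Ω g D)] {ζ : k}

/-- The polynomial `g(x) - t` is irreducible. -/
private lemma G07_irreducible {F L : Type u} [Field F] [Field L] [Algebra F[X] L]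
    [IsFractionRing F[X] L] (G : F[X]) (hG : G.Monic) (hG0 : G.natDegree ≠ 0) :
    ((G.map (C : F →+* F[X]) - C X).map (algebraMap F[X] L)).Monic ∧
    Irreducible ((G.map (C : F →+* F[X]) - C X).map (algebraMap F[X] L)) := by
  have hm : (G.map (C : F →+* F[X]) - C X : F[X][X]).Monic := by
    apply (hG.map C).sub_of_left
    refine lt_of_le_of_lt degree_C_le ?_
    rw [← natDegree_pos_iff_degree_pos, hG.natDegree_map]
    exact Nat.pos_of_ne_zero hG0
  refine ⟨hm.map _, (hm.irreducible_iff_irreducible_map_fraction_map).mp ?_⟩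
  have h1 : Bivariate.swap (R := F) (G.map (C : F →+* F[X]) - C X) = -(X - C G) := by
    rw [map_sub, Bivariate.swap_map_C, Bivariate.swap_X, neg_sub]
  rw [← MulEquiv.irreducible_iff (Bivariate.swap (R := F))]
  rw [h1]
  exact (Associated.neg_left (Associated.refl (X - C G))).irreducible_iff.mpr (irreducible_X_sub_C G)

private lemma G07_base_injective {A : Type u} [Field A] [Algebra L A] :
    Function.Injective (base k F L A) := by
  unfold base
  rw [RingHom.coe_comp, RingHom.coe_comp]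
  refine (algebraMap L A).injective.comp ((IsFractionRing.injective F[X] L).comp ?_)
  exact Polynomial.map_injective _ (algebraMap k F).injective

private lemma G07_natDegree_ne (H : GlobHyp ℓ g D ζ) : g.natDegree ≠ 0 := by
  intro h
  have h1 := H.cop
  rw [h, Nat.coprime_zero_left] at h1
  exact H.prime.one_lt.ne' h1

/-- The polynomial `g(x) - t` over `L`. -/
private noncomputable def G07_P (F L : Type u) [Field F] [Algebra k F] [Field L] [Algebra F[X] L]
    (g : k[X]) : L[X] :=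
  (((g.map (algebraMap k F)).map (C : F →+* F[X]) - C X).map (algebraMap F[X] L))

omit [Field Ω] [Algebra L Ω] [IsAlgClosure k F] [IsFractionRing F[X] L] [IsAlgClosure L Ω] hG in
private lemma G07_curvePoly (D : k[X]) : curvePoly k F L g D =
    C ((base k F L L D)⁻¹) * G07_P F L g := by
  unfold curvePoly G07_P
  rw [Polynomial.map_sub, Polynomial.map_map, Polynomial.map_map, Polynomial.map_C]
  have h1 : base k F L L X = algebraMap F[X] L X := by
    unfold base
    rw [RingHom.comp_apply, RingHom.comp_apply, coe_mapRingHom, Polynomial.map_X]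
    rfl
  have h2 : (base k F L L).comp C = (algebraMap F[X] L).comp (C.comp (algebraMap k F)) := by
    ext a
    unfold base
    rw [RingHom.comp_apply, RingHom.comp_apply, RingHom.comp_apply, coe_mapRingHom,
      Polynomial.map_C]
    rfl
  rw [h1, h2, RingHom.comp_assoc]

private lemma G07_root (H : GlobHyp ℓ g D ζ) {θ : Ω} (hθ : θ ∈ rts (cOver k F L Ω g D)) :
    aeval θ (G07_P F L g) = 0 := by
  rw [mem_rts hG.separable.ne_zero] at hθ
  unfold cOver at hθ
  rw [eval_map_algebraMap, G07_curvePoly, map_mul, aeval_C] at hθ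
  have hD : D ≠ 0 := by
    intro h
    exact H.pos (by rw [h, natDegree_zero])
  have h1 : base k F L L D ≠ 0 := by
    intro h
    exact hD (G07_base_injective (by rw [h, map_zero]))
  rcases mul_eq_zero.mp hθ with h | h
  · exact absurd ((map_eq_zero _).mp h) (inv_ne_zero h1)
  · exact h

/-- (1) -/
theorem exists_gal_root (H : GlobHyp ℓ g D ζ) {θ θ' : Ω} (hθ : θ ∈ rts (cOver k F L Ω g D))
    (hθ' : θ' ∈ rts (cOver k F L Ω g D)) : ∃ σ : Ω ≃ₐ[L] Ω, σ θ = θ' := by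
  have hN := G07_natDegree_ne H
  obtain ⟨hm, hirr⟩ := G07_irreducible (L := L) (g.map (algebraMap k F)) (H.monic.map _)
    (by rwa [H.monic.natDegree_map])
  have h1 := minpoly.eq_of_irreducible_of_monic hirr (G07_root H hθ) hm
  have h2 := minpoly.eq_of_irreducible_of_monic hirr (G07_root H hθ') hm
  have : Normal L Ω := IsAlgClosure.normal L Ω
  have h3 : IsConjRoot L θ' θ := by
    show minpoly L θ' = minpoly L θ
    rw [← h1, ← h2]
  obtain ⟨σ, hσ⟩ := h3.exists_algEquiv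
  exact ⟨σ, hσ⟩

lemma zA_primitive (H : GlobHyp ℓ g D ζ) {A : Type u} [Field A] [Algebra L A] :
    IsPrimitiveRoot (zA F L A ζ) ℓ := by
  have h := H.zeta.map_of_injective (f := (base k F L A).comp (C : k →+* k[X]))
    ((base k F L A).comp (C : k →+* k[X])).injective
  exact h

/-- (2) -/
private lemma G07_ram_fixed (H : GlobHyp ℓ g D ζ) (e : Ω → ℤ)
    (hQ : ∀ σ : Ω ≃ₐ[L] Ω, symJ (toSym g D (galA k F σ))
      (ram e : JacOver ℓ (curvePoly k F L g D) Ω) = ram e) :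
    (ram e : JacOver ℓ (curvePoly k F L g D) Ω) = 0 := by
  have hz := zA_primitive (F := F) (L := L) H (A := Ω)
  have hf0 : cOver k F L Ω g D ≠ 0 := hG.separable.ne_zero
  have key : ∀ (σ : Ω ≃ₐ[L] Ω) (θ : Ω), θ ∈ rts (cOver k F L Ω g D) →
      (ℓ : ℤ) ∣ e (σ⁻¹ θ) - e θ := by
    intro σ θ hθ
    have h1 := hQ σ
    rw [symJ_ram] at h1
    have h2 : (ram (fun θ => e (σ⁻¹ θ) - e θ) : JacOver ℓ (curvePoly k F L g D) Ω) = 0 := by
      rw [ram_sub, ← h1]
      rw [sub_eq_zero]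
      rfl
    obtain ⟨c, hc⟩ := (ram_eq_zero_iff _ hz _).mp h2
    have h3 : ∑ θ ∈ rts (cOver k F L Ω g D), (e (σ⁻¹ θ) - e θ) = 0 := by
      rw [Finset.sum_sub_distrib, sub_eq_zero]
      have hmaps : ∀ (τ : Ω ≃ₐ[L] Ω) (θ : Ω), θ ∈ rts (cOver k F L Ω g D) →
          τ θ ∈ rts (cOver k F L Ω g D) := by
        intro τ θ hθ
        rw [mem_rts hf0] at hθ ⊢
        unfold cOver at hθ ⊢
        rw [eval_map_algebraMap] at hθ ⊢
        rw [aeval_algEquiv, AlgHom.comp_apply, hθ]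
        exact map_zero τ
      refine Finset.sum_bij' (fun θ _ => σ⁻¹ θ) (fun θ _ => σ θ) (hmaps σ⁻¹) (hmaps σ) ?_ ?_ ?_
      · intro θ _
        exact σ.apply_symm_apply θ
      · intro θ _
        exact σ.symm_apply_apply θ
      · intro θ _
        rfl
    have h4 : (ℓ : ℤ) ∣ ∑ θ ∈ rts (cOver k F L Ω g D), (e (σ⁻¹ θ) - e θ - c) := by
      refine Finset.dvd_sum fun θ hθ => hc θ ?_
      exact (mem_rts hf0).mp hθ
    rw [Finset.sum_sub_distrib, h3, Finset.sum_const, zero_sub, dvd_neg, G07_card_rts hG,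
      nsmul_eq_mul] at h4
    have h5 : IsCoprime (ℓ : ℤ) ((cOver k F L Ω g D).natDegree : ℤ) :=
      (Nat.isCoprime_iff_coprime.mpr hG.coprime).symm
    have h6 : (ℓ : ℤ) ∣ c := h5.dvd_of_dvd_mul_left h4
    have h7 := dvd_add (hc θ ((mem_rts hf0).mp hθ)) h6
    rwa [sub_add_cancel] at h7
  have hne : (rts (cOver k F L Ω g D)).Nonempty := by
    rw [← Finset.card_pos, G07_card_rts hG, Nat.pos_iff_ne_zero]
    intro h
    have h1 := hG.coprime
    rw [h, Nat.coprime_zero_left] at h1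
    exact H.prime.one_lt.ne' h1
  obtain ⟨θ₀, hθ₀⟩ := hne
  refine (ram_eq_zero_iff _ hz _).mpr ⟨e θ₀, fun θ hθ => ?_⟩
  have hθ' : θ ∈ rts (cOver k F L Ω g D) := (mem_rts hf0).mpr hθ
  obtain ⟨σ, hσ⟩ := exists_gal_root H hθ₀ hθ'
  have h := key σ θ hθ'
  have h1 : σ⁻¹ θ = θ₀ := by
    rw [← hσ]
    exact σ.symm_apply_apply θ₀
  rw [h1] at h
  rw [← dvd_neg, neg_sub]
  exact h

/-- The same for classes killed by `π`. -/
private lemma G07_fixed_ram (H : GlobHyp ℓ g D ζ) (hζ : (zA F L Ω ζ) ^ ℓ = 1)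
    (Q : JacOver ℓ (curvePoly k F L g D) Ω) (hn : zJ (zA F L Ω ζ) hζ Q = Q)
    (hQ : ∀ σ : Ω ≃ₐ[L] Ω, symJ (toSym g D (galA k F σ)) Q = Q) : Q = 0 := by
  have hz := zA_primitive (F := F) (L := L) H (A := Ω)
  obtain ⟨e, rfl⟩ := exists_ram_of_zJ_eq _ hz Q hn
  exact G07_ram_fixed H e hQ

/-- (3) -/
theorem eq_zero_of_fixed (H : GlobHyp ℓ g D ζ) (n : ℕ)
    (Q : JacOver ℓ (curvePoly k F L g D) Ω) (hn : ℓ ^ n • Q = 0)
    (hQ : ∀ σ : Ω ≃ₐ[L] Ω, symJ (toSym g D (galA k F σ)) Q = Q) : Q = 0 := by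
  have hz := zA_primitive (F := F) (L := L) H (A := Ω)
  have h0 := iterate_eq_zero_of_smul _ hz n Q hn
  have key : ∀ (m : ℕ) (Q : JacOver ℓ (curvePoly k F L g D) Ω),
      (∀ σ : Ω ≃ₐ[L] Ω, symJ (toSym g D (galA k F σ)) Q = Q) →
      (fun x => x - zJ (zA F L Ω ζ) hz.pow_eq_one x)^[m] Q = 0 → Q = 0 := by
    intro m
    induction m with
    | zero => exact fun Q _ h => h
    | succ m ih =>
      intro Q hQ h
      rw [Function.iterate_succ_apply] at h
      have h1 := ih _ (fun σ => by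
        have hσ : ((toSym g D (galA k F σ) : Sym (cOver k F L Ω g D)) : Ω ≃+* Ω) (zA F L Ω ζ) =
            zA F L Ω ζ := zA_fixed ζ (galA k F σ)
        rw [map_sub, ← zJ_symJ _ hz.pow_eq_one _ hσ, hQ σ]) h
      exact G07_fixed_ram H hz.pow_eq_one Q (sub_eq_zero.mp h1).symm hQ
  exact key _ Q hQ h0

/-- The same for classes killed by `π`. -/
theorem eq_zero_of_fixed_ram (H : GlobHyp ℓ g D ζ) (hζ : (zA F L Ω ζ) ^ ℓ = 1)
    (Q : JacOver ℓ (curvePoly k F L g D) Ω) (hn : zJ (zA F L Ω ζ) hζ Q = Q)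
    (hQ : ∀ σ : Ω ≃ₐ[L] Ω, symJ (toSym g D (galA k F σ)) Q = Q) : Q = 0 :=
  G07_fixed_ram H hζ Q hn hQ

/-- (6) -/
theorem isLocallyConstant_symJ (Q : JacOver ℓ (curvePoly k F L g D) Ω) :
    IsLocallyConstant fun σ : Ω ≃ₐ[L] Ω => symJ (toSym g D (galA k F σ)) Q := by
  obtain ⟨E, rfl⟩ := cl_surjective Q
  rw [IsLocallyConstant.iff_exists_open]
  intro σ₀
  let S : Set Ω := (fun P : Pt ℓ (cOver k F L Ω g D) => P.x) '' (E.support : Set _) ∪
    (fun P : Pt ℓ (cOver k F L Ω g D) => P.y) '' (E.support : Set _)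
  have hSf : S.Finite := (E.support.finite_toSet.image _).union (E.support.finite_toSet.image _)
  let K : IntermediateField L Ω := IntermediateField.adjoin L S
  have halg : Algebra.IsAlgebraic L Ω := IsAlgClosure.isAlgebraic
  have : FiniteDimensional L K :=
    IntermediateField.finiteDimensional_adjoin fun x _ => Algebra.IsIntegral.isIntegral x
  have hopen : IsOpen (K.fixingSubgroup : Set (Ω ≃ₐ[L] Ω)) := K.fixingSubgroup_isOpen
  refine ⟨(fun σ => σ₀⁻¹ * σ) ⁻¹' (K.fixingSubgroup : Set (Ω ≃ₐ[L] Ω)),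
    hopen.preimage (continuous_const_mul σ₀⁻¹), ?_, ?_⟩
  · show σ₀⁻¹ * σ₀ ∈ K.fixingSubgroup
    rw [inv_mul_cancel]
    exact one_mem _
  · intro σ hσ
    have hσ' : σ₀⁻¹ * σ ∈ K.fixingSubgroup := hσ
    have hS : ∀ x ∈ S, σ x = σ₀ x := by
      intro x hx
      have h1 := (IntermediateField.mem_fixingSubgroup_iff K _).mp hσ' x
        (IntermediateField.subset_adjoin L S hx)
      have h2 : σ₀ ((σ₀⁻¹ * σ) x) = σ x := σ₀.apply_symm_apply (σ x)
      rw [← h2, h1]
    show symJ (toSym g D (galA k F σ)) (cl E) = symJ (toSym g D (galA k F σ₀)) (cl E)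
    rw [symJ_cl, symJ_cl]
    congr 1
    refine Finsupp.mapDomain_congr fun P hP => ?_
    refine Pt.ext ?_ ?_
    · exact hS P.x (Or.inl ⟨P, hP, rfl⟩)
    · exact hS P.y (Or.inr ⟨P, hP, rfl⟩)

end Pool.Agent.Lib.MP_89bcae_ag.Sup

end

section

/-!
ROW G10 (120-220 lines). The field `L(θ) = F(θ)` for a root `θ` of `g(x) = t`; rational functions of `θ`.

PROOFS. (1) `θ` is transcendental over `F`: else `θ` would be in (the image of) `F` and `t = g(θ)` too,
but `t` is transcendental over `F`. (2) `L(θ)` is generated by `F`, `t = g(θ)`, `θ`, so it is the field of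
the quotients `A(θ)/B(θ)`. An element fixed by the stabilizer of `θ` in `Aut(Ω/L)`, i.e. by
`Aut(Ω/L(θ))`, is purely inseparable over `L(θ)` (`Ω` is an algebraic closure of `L(θ)`; all conjugates
are equal), so some `p^s`-th power is in `L(θ)`, `p` the characteristic exponent. The same for
`Aut(Ω/L)` and `L`. (3) unique factorization in `F[X]`: multiplicity of the prime `X - β` in
`∏ (X - β)^{n_β} B^ℓ = c A^ℓ` (clear the negative exponents; `θ` is transcendental so the identity holds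
in `F[X]`).
-/

open Polynomial IsDedekindDomain

open scoped Classical

namespace Pool.Agent.Lib.MP_89bcae_ag.Sup

universe u

variable {k F L Ω : Type u} [Field k] [Field F] [Algebra k F] [Field L] [Algebra F[X] L]
  [Field Ω] [Algebra L Ω] [IsAlgClosure k F] [IsFractionRing F[X] L] [IsAlgClosure L Ω]
  [Algebra F Ω] {ℓ : ℕ} {g D : k[X]} {ζ : k}

omit [IsAlgClosure k F] [IsFractionRing F[X] L] [IsAlgClosure L Ω] in
private lemma g10_aeval_tA (hF : CompatF F L Ω) (p : F[X]) :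
    aeval (tA F L Ω) p = algebraMap L Ω (algebraMap F[X] L p) := by
  have h : ((aeval (tA F L Ω) : F[X] →ₐ[F] Ω) : F[X] →+* Ω) =
      (algebraMap L Ω).comp (algebraMap F[X] L) := by
    apply Polynomial.ringHom_ext
    · intro a
      simp [hF a]
    · simp [tA]
  exact congrArg (fun φ : F[X] →+* Ω => φ p) h

private lemma g10_tA_inj (hF : CompatF F L Ω) :
    Function.Injective (aeval (tA F L Ω) : F[X] →ₐ[F] Ω) := by
  intro p q hpq
  rw [g10_aeval_tA hF, g10_aeval_tA hF] at hpq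
  exact IsFractionRing.injective F[X] L ((algebraMap L Ω).injective hpq)

private lemma g10_d_ne (hF : CompatF F L Ω) (H : GlobHyp ℓ g D ζ) :
    aeval (tA F L Ω) (D.map (algebraMap k F)) ≠ 0 := by
  intro h
  rw [← map_zero (aeval (tA F L Ω) : F[X] →ₐ[F] Ω)] at h
  have h1 := g10_tA_inj hF h
  rw [Polynomial.map_eq_zero] at h1
  exact H.pos (by rw [h1, natDegree_zero])

private lemma g10_deg_ne (H : GlobHyp ℓ g D ζ) : (g.map (algebraMap k F)).natDegree ≠ 0 := by
  rw [natDegree_map]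
  intro h
  have h1 := H.cop
  rw [h, Nat.coprime_zero_left] at h1
  exact H.prime.one_lt.ne' h1

private lemma g10_root (hF : CompatF F L Ω) (H : GlobHyp ℓ g D ζ) {θ : Ω}
    (hθ : θ ∈ rts (cOver k F L Ω g D)) : aeval θ (g.map (algebraMap k F)) = tA F L Ω := by
  have hd := g10_d_ne (k := k) hF H
  rw [cOver_eq_locPoly hF, mem_rts (locPoly_ne_zero (H.monic.map _) (g10_deg_ne H) hd),
    eval_locPoly_eq_zero hd] at hθ
  exact hθ

/-- (1) -/
lemma aeval_root_injective (hF : CompatF F L Ω) (H : GlobHyp ℓ g D ζ) {θ : Ω}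
    (hθ : θ ∈ rts (cOver k F L Ω g D)) : Function.Injective (aeval θ : F[X] →ₐ[F] Ω) := by
  have hFalg : IsAlgClosed F := IsAlgClosure.isAlgClosed k
  rw [injective_iff_map_eq_zero]
  intro p hp
  by_contra hp0
  have halg : IsAlgebraic F θ := ⟨p, hp0, hp⟩
  have hirr : Irreducible (minpoly F θ) := minpoly.irreducible halg.isIntegral
  obtain ⟨r, hr⟩ := minpoly.mem_range_of_degree_eq_one F θ
    (IsAlgClosed.degree_eq_one_of_irreducible F hirr)
  have h1 := g10_root hF H hθ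
  rw [← hr, aeval_algebraMap_apply] at h1
  have h2 : aeval (tA F L Ω) (X - C (aeval r (g.map (algebraMap k F)))) = 0 := by
    rw [map_sub, aeval_X, aeval_C, ← h1, sub_self]
  rw [← map_zero (aeval (tA F L Ω) : F[X] →ₐ[F] Ω)] at h2
  exact X_sub_C_ne_zero _ (g10_tA_inj hF h2)

/-- Elements fixed by all automorphisms are purely inseparable. -/
private lemma g10_pow (K Ω' : Type u) [Field K] [Field Ω'] [Algebra K Ω'] [IsAlgClosure K Ω']
    (x : Ω') (hx : ∀ σ : Ω' ≃ₐ[K] Ω', σ x = x) :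
    ∃ (s : ℕ) (y : K), x ^ ringExpChar K ^ s = algebraMap K Ω' y := by
  have h1 : IsAlgClosed Ω' := IsAlgClosure.isAlgClosed K
  have h2 : Algebra.IsAlgebraic K Ω' := IsAlgClosure.isAlgebraic
  have h3 : Normal K Ω' := IsAlgClosure.normal K Ω'
  have hint : IsIntegral K x := (Algebra.IsAlgebraic.isAlgebraic x).isIntegral
  have h4 : (minpoly K x).natSepDegree = 1 := by
    rw [natSepDegree_eq_of_isAlgClosed Ω', Finset.card_eq_one]
    refine ⟨x, ?_⟩
    ext y
    rw [Multiset.mem_toFinset, Finset.mem_singleton, mem_aroots]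
    constructor
    · rintro ⟨-, hy⟩
      have h5 : IsConjRoot K x y := (isConjRoot_iff_aeval_eq_zero hint).mpr hy
      obtain ⟨σ, hσ⟩ := isConjRoot_iff_exists_algEquiv.mp h5
      have h6 := hx σ
      exact σ.injective (hσ.trans h6.symm)
    · rintro rfl
      exact ⟨minpoly.ne_zero hint, minpoly.aeval K _⟩
  obtain ⟨s, y, hy⟩ := (minpoly.natSepDegree_eq_one_iff_pow_mem (ringExpChar K)).mp h4
  exact ⟨s, y, hy.symm⟩

omit [IsAlgClosure k F] [IsAlgClosure L Ω] in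
private lemma g10_mem (hF : CompatF F L Ω) {θ : Ω} (q : F[X])
    (hθ : aeval θ q = tA F L Ω) (y : Ω)
    (hy : y ∈ IntermediateField.adjoin L {θ}) : y ∈ IntermediateField.adjoin F {θ} := by
  have hθm : θ ∈ IntermediateField.adjoin F {θ} :=
    IntermediateField.mem_adjoin_simple_self F θ
  have hpoly : ∀ p : F[X], aeval θ p ∈ IntermediateField.adjoin F {θ} := by
    intro p
    rw [IntermediateField.mem_adjoin_simple_iff]
    exact ⟨p, 1, by simp⟩
  have hL : ∀ l : L, algebraMap L Ω l ∈ IntermediateField.adjoin F {θ} := by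
    intro l
    obtain ⟨a, b, -, rfl⟩ := IsFractionRing.div_surjective (A := F[X]) l
    rw [map_div₀, ← g10_aeval_tA hF, ← g10_aeval_tA hF, ← hθ, ← aeval_comp, ← aeval_comp]
    exact div_mem (hpoly _) (hpoly _)
  have hLpoly : ∀ p : L[X], aeval θ p ∈ IntermediateField.adjoin F {θ} := by
    intro p
    rw [aeval_eq_sum_range]
    refine sum_mem fun i _ => ?_
    rw [Algebra.smul_def]
    exact mul_mem (hL _) (pow_mem hθm _)
  rw [IntermediateField.mem_adjoin_simple_iff] at hy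
  obtain ⟨r, s, rfl⟩ := hy
  exact div_mem (hLpoly _) (hLpoly _)

/-- (2) -/
lemma exists_pow_eq_quot (hF : CompatF F L Ω) (H : GlobHyp ℓ g D ζ) {θ : Ω}
    (hθ : θ ∈ rts (cOver k F L Ω g D)) (x : Ω)
    (hx : ∀ σ : Ω ≃ₐ[L] Ω, σ θ = θ → σ x = x) :
    ∃ (s : ℕ) (A B : F[X]), B ≠ 0 ∧ x ^ ringExpChar k ^ s = aeval θ A / aeval θ B := by
  have h1 : IsAlgClosed Ω := IsAlgClosure.isAlgClosed L
  have h2 : Algebra.IsAlgebraic L Ω := IsAlgClosure.isAlgebraic
  set E := IntermediateField.adjoin L {θ} with hE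
  have h3 : Algebra.IsAlgebraic E Ω := Algebra.IsAlgebraic.tower_top (K := L) E
  have h4 : IsAlgClosure E Ω := ⟨h1, h3⟩
  have hθE : θ ∈ E := IntermediateField.mem_adjoin_simple_self L θ
  obtain ⟨s, y, hy⟩ := g10_pow E Ω x (by
    intro σ
    have h5 := hx (σ.restrictScalars L) (by
      have h6 := σ.commutes ⟨θ, hθE⟩
      exact h6)
    exact h5)
  have hch : ringExpChar E = ringExpChar k := by
    have h6 : ExpChar E (ringExpChar k) :=
      expChar_of_injective_ringHom (f := ((algebraMap L E).comp ((algebraMap F[X] L).comp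
        (C.comp (algebraMap k F))))) (RingHom.injective _) (ringExpChar k)
    exact ringExpChar.eq E (ringExpChar k)
  rw [hch] at hy
  have h7 := g10_mem hF (g.map (algebraMap k F)) (g10_root hF H hθ) (algebraMap E Ω y) y.2
  rw [IntermediateField.mem_adjoin_simple_iff] at h7
  obtain ⟨A, B, hAB⟩ := h7
  by_cases hB : B = 0
  · refine ⟨s, 0, 1, one_ne_zero, ?_⟩
    rw [hy, hAB, hB]
    simp
  · exact ⟨s, A, B, hB, by rw [hy, hAB]⟩

/-- (2) for `L` -/
lemma exists_pow_mem_L (x : Ω) (hx : ∀ σ : Ω ≃ₐ[L] Ω, σ x = x) :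
    ∃ (s : ℕ) (y : L), x ^ ringExpChar L ^ s = algebraMap L Ω y :=
  g10_pow L Ω x hx

private lemma g10_mult_pow {K : Type u} [Field K] (P : K[X]) (n : ℕ) (b : K) (h : P ^ n ≠ 0) :
    rootMultiplicity b (P ^ n) = n * rootMultiplicity b P := by
  by_cases hP : P = 0
  · subst hP
    have hn : n = 0 := by
      by_contra hn
      exact h (zero_pow hn)
    subst hn
    simp
  · clear h
    induction n with
    | zero => simp
    | succ n ih =>
      rw [pow_succ, rootMultiplicity_mul (mul_ne_zero (pow_ne_zero _ hP) hP), ih]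
      ring

private lemma g10_mult_prod {K : Type u} [Field K] (S : Finset K) (m : K → ℕ) (b : K)
    (hb : b ∈ S) : rootMultiplicity b (∏ β ∈ S, (X - C β) ^ m β) = m b := by
  have h0 : ∏ β ∈ S, (X - C β) ^ m β ≠ 0 :=
    Finset.prod_ne_zero_iff.mpr fun β _ => pow_ne_zero _ (X_sub_C_ne_zero β)
  rw [← Finset.mul_prod_erase S _ hb] at h0 ⊢
  rw [rootMultiplicity_mul h0, rootMultiplicity_X_sub_C_pow]
  have h1 : rootMultiplicity b (∏ β ∈ S.erase b, (X - C β) ^ m β) = 0 := by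
    apply rootMultiplicity_eq_zero
    rw [IsRoot.def, eval_prod, Finset.prod_eq_zero_iff]
    rintro ⟨β, hβ, h2⟩
    rw [eval_pow, eval_sub, eval_X, eval_C] at h2
    have h3 : b - β = 0 := by
      by_contra h4
      exact pow_ne_zero _ h4 h2
    exact (Finset.mem_erase.mp hβ).1 (sub_eq_zero.mp h3).symm
  rw [h1, add_zero]

/-- (3) -/
lemma dvd_of_prod_eq_pow {A : Type u} [Field A] [Algebra F A] {θ : A}
    (hθ : Function.Injective (aeval θ : F[X] →ₐ[F] A)) {ℓ : ℕ} (S : Finset F) (n : F → ℤ)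
    (c : F) (hc : c ≠ 0) (P Q : F[X]) (hQ : Q ≠ 0)
    (h : ∏ β ∈ S, (θ - algebraMap F A β) ^ n β = algebraMap F A c * (aeval θ P / aeval θ Q) ^ ℓ) :
    ∀ β ∈ S, (ℓ : ℤ) ∣ n β := by
  intro b hb
  have hQ0 : aeval θ Q ≠ 0 := by
    intro h0
    rw [← map_zero (aeval θ : F[X] →ₐ[F] A)] at h0
    exact hQ (hθ h0)
  have hθβ : ∀ β : F, θ - algebraMap F A β ≠ 0 := by
    intro β h0
    have h1 : aeval θ (X - C β) = 0 := by
      rw [map_sub, aeval_X, aeval_C, h0]
    rw [← map_zero (aeval θ : F[X] →ₐ[F] A)] at h1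
    exact X_sub_C_ne_zero β (hθ h1)
  have hz : ∀ β : F, (θ - algebraMap F A β) ^ n β * (θ - algebraMap F A β) ^ (-(n β)).toNat =
      (θ - algebraMap F A β) ^ (n β).toNat := by
    intro β
    rw [← zpow_natCast, ← zpow_natCast, ← zpow_add₀ (hθβ β)]
    congr 1
    omega
  have hprod : (∏ β ∈ S, (θ - algebraMap F A β) ^ n β) *
      ∏ β ∈ S, (θ - algebraMap F A β) ^ (-(n β)).toNat =
      ∏ β ∈ S, (θ - algebraMap F A β) ^ (n β).toNat := by
    rw [← Finset.prod_mul_distrib]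
    exact Finset.prod_congr rfl fun β _ => hz β
  have hae : ∀ m : F → ℕ, aeval θ (∏ β ∈ S, (X - C β) ^ m β) =
      ∏ β ∈ S, (θ - algebraMap F A β) ^ m β := by
    intro m
    rw [map_prod]
    refine Finset.prod_congr rfl fun β _ => ?_
    rw [map_pow, map_sub, aeval_X, aeval_C]
  have hpol : (∏ β ∈ S, (X - C β) ^ (n β).toNat) * Q ^ ℓ =
      C c * P ^ ℓ * ∏ β ∈ S, (X - C β) ^ (-(n β)).toNat := by
    apply hθ
    rw [map_mul, map_mul, map_mul, hae, hae, aeval_C, map_pow, map_pow, ← hprod, h, div_pow]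
    field_simp
  have hL0 : (∏ β ∈ S, (X - C β) ^ (n β).toNat) * Q ^ ℓ ≠ 0 :=
    mul_ne_zero (Finset.prod_ne_zero_iff.mpr fun β _ => pow_ne_zero _ (X_sub_C_ne_zero β))
      (pow_ne_zero _ hQ)
  have hR0 : C c * P ^ ℓ * ∏ β ∈ S, (X - C β) ^ (-(n β)).toNat ≠ 0 := by
    rw [← hpol]
    exact hL0
  have hcP : C c * P ^ ℓ ≠ 0 := left_ne_zero_of_mul hR0
  have hP0 : P ^ ℓ ≠ 0 := right_ne_zero_of_mul hcP
  have hm := congrArg (rootMultiplicity b) hpol
  rw [rootMultiplicity_mul hL0, rootMultiplicity_mul hR0, rootMultiplicity_mul hcP,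
    rootMultiplicity_C, zero_add, g10_mult_pow Q ℓ b (pow_ne_zero _ hQ), g10_mult_pow P ℓ b hP0,
    g10_mult_prod S _ b hb, g10_mult_prod S _ b hb] at hm
  refine ⟨(rootMultiplicity b P : ℤ) - rootMultiplicity b Q, ?_⟩
  have hm' : (((n b).toNat : ℤ)) + ℓ * rootMultiplicity b Q =
      ℓ * rootMultiplicity b P + ((-(n b)).toNat : ℤ) := by
    exact_mod_cast hm
  have hn : n b = ((n b).toNat : ℤ) - ((-(n b)).toNat : ℤ) := by omega
  rw [mul_sub]
  linarith

/-- The product over the roots `θ` of `θ - β`. -/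
lemma prod_rts_sub (hF : CompatF F L Ω) (H : GlobHyp ℓ g D ζ) (β : F) :
    ∏ θ ∈ rts (cOver k F L Ω g D), (θ - algebraMap F Ω β) =
      (-1) ^ g.natDegree * (algebraMap F Ω (aeval β g) - tA F L Ω) := by
  have h1 : IsAlgClosed Ω := IsAlgClosure.isAlgClosed L
  have hd := g10_d_ne (k := k) hF H
  have hgood : IsGood ℓ (cOver k F L Ω g D) := isGood_cOver H
  have hs : (locPoly (g.map (algebraMap k F)) (tA F L Ω)
      (aeval (tA F L Ω) (D.map (algebraMap k F)))).Separable := by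
    rw [← cOver_eq_locPoly hF]
    exact hgood.separable
  have h2 := eval_sub_eq_prod (H.monic.map (algebraMap k F)) (g10_deg_ne H) hd hs
    (algebraMap F Ω β)
  have h3 := card_rts (H.monic.map (algebraMap k F)) (g10_deg_ne H) hd hs
  rw [natDegree_map] at h3
  rw [cOver_eq_locPoly hF, ← h3]
  have h4 : algebraMap F Ω (aeval β g) = aeval (algebraMap F Ω β) (g.map (algebraMap k F)) := by
    rw [aeval_algebraMap_apply, aeval_map_algebraMap]
  rw [h4, h2, ← Finset.prod_const, ← Finset.prod_mul_distrib]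
  refine Finset.prod_congr rfl fun θ _ => ?_
  ring

lemma tA_injective (hF : CompatF F L Ω) :
    Function.Injective (aeval (tA F L Ω) : F[X] →ₐ[F] Ω) :=
  g10_tA_inj hF

end Pool.Agent.Lib.MP_89bcae_ag.Sup

end

section

/-!
ROW G12 (200-350 lines). The exponents of a cocycle.

`HasExp c e`: the class of `c` modulo `π` is given by the Kummer functions
`∏_{β ∈ RR} (θ - β)^{e β}`. PROOFS. Write `E_e(θ) = ∏_{β∈RR} (θ - β)^{e β}`.
`n_of`: for `σ` and `z` with `(z θ)^ℓ = E_e(θ)` on the roots there is `n` with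
`σ (z θ) = ζ^{n(σθ)} z(σθ)`: the `ℓ`-th powers agree (`σ` fixes `F`, permutes the roots). So the third
field applies to some `n`, and it depends only on `n` modulo `ℓ` on the roots.
`add`: take `z z'`; given `n` for `z z'` take `n₁`, `n₂` for `z`, `z'`: `n ≡ n₁ + n₂`. `neg`: `z⁻¹`.
`congr` (`e' = e + ℓ h` on `RR`): `z' = z ∏ (θ - β)^{h β}`. `zC`: `v (Z c₁) = Z (v c₁) = Z (ram n) = ram n`.
`act`: let `γ` have restriction `U` to `F` fixing `RR` pointwise. `z' θ = γ (z (γ⁻¹ θ))`: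
`(z' θ)^ℓ = γ (E_e(γ⁻¹θ)) = E_e(θ)`. For `σ`, with `σ' = γ⁻¹ σ γ` (`conjG`): if
`σ' (z θ) = ζ^{n'(σ'θ)} z(σ'θ)` then `σ (z' (γθ)) = γ σ' (z θ) = ζ^{n'(σ'θ)} z'(γ σ' θ)`, i.e.
`n(θ) ≡ n'(γ⁻¹θ)`, and `v ((act γ c) 1 σ) = γ (v (c 1 σ')) = γ (ram n') = ram (n' ∘ γ⁻¹)` (`symJ_ram`).
`dvd_of_TTc`: `c 1 σ = σA - A`, `ℓ A = 0`; `B = v A` is killed by `π`, `B = ram m₀` (R18), so
`v (c 1 σ) = σB - B = ram (m₀ ∘ σ⁻¹ - m₀)`. With `z'θ = ζ^{-m₀(θ)} z θ` we get
`σ (z' θ) = ζ^{k(σ)} z'(σθ)` with `k(σ)` independent of `θ` (R18 (C): compare with `ram n`). Let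
`m = deg g`, `w = ∏_θ z' θ`, `σ w = ζ^{m k(σ)} w`, `x_θ = (z' θ)^m / w`; `σ x_θ = x_{σθ}`. Fix `θ`: `x_θ` is fixed
by the stabilizer of `θ`, so `x_θ^{p^s} = A(θ)/B(θ)` (G10). `x_θ^ℓ = E_e(θ)^m / ∏_θ' E_e(θ')` and
`∏_{θ'} E_e(θ') = ∏_β (±(g(β) - t))^{e β} = ± ∏_a (a - t)^{∑_{g(β)=a} e β}` is plus or minus an `ℓ`-th
power of a rational function of `t = g(θ)`. So `E_e(θ)^{m p^s}` is a constant times the `ℓ`-th power
of a quotient of polynomials in `θ`; `dvd_of_prod_eq_pow` gives `ℓ ∣ m p^s e β`, `ℓ ∣ e β`.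
-/

open Polynomial IsDedekindDomain

open scoped Classical

namespace Pool.Agent.Lib.MP_89bcae_ag.Sup

universe u

/-- The set of the roots of `D(g(x))` in `F`. -/
noncomputable def RR {k : Type u} (F : Type u) [Field k] [Field F] [Algebra k F] (g D : k[X]) :
    Finset F :=
  ((D.comp g).map (algebraMap k F)).roots.toFinset

lemma mem_RR {k F : Type u} [Field k] [Field F] [Algebra k F] {g D : k[X]} {ℓ : ℕ} {ζ : k}
    (H : GlobHyp ℓ g D ζ) {β : F} : β ∈ RR F g D ↔ aeval (aeval β g) D = 0 := by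
  have h1 : (D.comp g).map (algebraMap k F) ≠ 0 :=
    (Polynomial.map_ne_zero_iff (algebraMap k F).injective).2 H.sep.ne_zero
  rw [RR, Multiset.mem_toFinset, mem_roots h1, IsRoot.def, eval_map_algebraMap, aeval_comp]

section

variable {ℓ : ℕ} {E : Type u} [Field E] {f : E[X]}

private lemma g12_mem_rts {θ : E} (hG : IsGood ℓ f) : θ ∈ rts f ↔ f.eval θ = 0 :=
  mem_rts hG.separable.ne_zero

private lemma g12_card (hG : IsGood ℓ f) : (rts f).card.Coprime ℓ := by
  have := hG.alg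
  have h1 : (rts f).card = f.natDegree := by
    unfold rts
    rw [Multiset.toFinset_card_of_nodup (nodup_roots hG.separable),
      IsAlgClosed.card_roots_eq_natDegree]
  rw [h1]
  exact hG.coprime

private lemma g12_zpow_eq {ζ : E} (hℓ : ℓ ≠ 0) (hζ : IsPrimitiveRoot ζ ℓ) (a b : ℤ) :
    ζ ^ a = ζ ^ b ↔ (ℓ : ℤ) ∣ a - b := by
  have h0 : ζ ≠ 0 := hζ.ne_zero hℓ
  rw [← hζ.zpow_eq_one_iff_dvd, zpow_sub₀ h0, div_eq_one_iff_eq (zpow_ne_zero _ h0)]

private lemma g12_exists {ζ x y : E} (hℓ : ℓ ≠ 0) (hζ : IsPrimitiveRoot ζ ℓ) (hy : y ≠ 0)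
    (h : x ^ ℓ = y ^ ℓ) : ∃ n : ℤ, x = ζ ^ n * y := by
  have : NeZero ℓ := ⟨hℓ⟩
  have h1 : (x / y) ^ ℓ = 1 := by
    rw [div_pow, h, div_self (pow_ne_zero _ hy)]
  obtain ⟨i, -, hi⟩ := hζ.eq_pow_of_pow_eq_one h1
  refine ⟨i, ?_⟩
  rw [zpow_natCast, hi, div_mul_cancel₀ _ hy]

private lemma g12_prod_zpow {ι : Type*} {x : E} (hx : x ≠ 0) (S : Finset ι) (e : ι → ℤ) :
    ∏ i ∈ S, x ^ e i = x ^ ∑ i ∈ S, e i := by
  induction S using Finset.induction_on with
  | empty => simp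
  | insert a T ha ih => rw [Finset.prod_insert ha, Finset.sum_insert ha, zpow_add₀ hx, ih]

private lemma g12_ram_zero [hG : IsGood ℓ f] : (ram (fun _ => 0) : Jac ℓ f) = 0 := by
  have h1 := ram_sub (ℓ := ℓ) (f := f) (fun _ => 0) (fun _ => 0)
  exact h1.trans (sub_self _)

private lemma g12_ram_neg [hG : IsGood ℓ f] (e : E → ℤ) :
    (ram (fun θ => -e θ) : Jac ℓ f) = -ram e := by
  have h1 := ram_sub (ℓ := ℓ) (f := f) (fun _ => 0) e
  rw [g12_ram_zero, zero_sub] at h1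
  rw [← h1]
  congr 1
  funext θ
  rw [zero_sub]

private lemma g12_vJ_neg [hG : IsGood ℓ f] (ζ : E) (hζ : ζ ^ ℓ = 1) (Q : Jac ℓ f) :
    vJ ζ hζ (-Q) = -vJ ζ hζ Q :=
  (AddMonoidHom.mk' (vJ ζ hζ) (vJ_add ζ hζ)).map_neg Q

end

private lemma g12_coprime {K : Type*} [Field K] {ℓ : ℕ} (hℓ : ℓ.Prime) (h : (ℓ : K) ≠ 0) :
    ℓ.Coprime (ringExpChar K) := by
  have h1 := ringExpChar.expChar K
  generalize ringExpChar K = q at h1 ⊢
  cases h1 with
  | zero => exact Nat.coprime_one_right ℓ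
  | prime hp =>
    rw [Nat.coprime_primes hℓ hp]
    rintro rfl
    exact h (CharP.cast_eq_zero K _)

variable {k F L Ω : Type u} [Field k] [Field F] [Algebra k F] [Field L] [Algebra F[X] L]
  [Field Ω] [Algebra L Ω] [IsAlgClosure k F] [IsFractionRing F[X] L] [IsAlgClosure L Ω]
  [Algebra F Ω] {ℓ : ℕ} {g D : k[X]} [hG : IsGood ℓ (cOver k F L Ω g D)] {ζ : k}

/-- The exponents `e` describe the class of `c` modulo `π`. -/
structure HasExp (hζ : (zA F L Ω ζ) ^ ℓ = 1) (c : Coch ℓ k F L Ω g D) (e : F → ℤ) : Prop where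
  sum : ∀ a : F, (ℓ : ℤ) ∣ ∑ β ∈ (RR F g D).filter (fun β => aeval β g = a), e β
  ex : ∃ z : Ω → Ω, (∀ θ ∈ rts (cOver k F L Ω g D),
      z θ ^ ℓ = ∏ β ∈ RR F g D, (θ - algebraMap F Ω β) ^ e β) ∧
    ∀ (σ : Ω ≃ₐ[L] Ω) (n : Ω → ℤ), (∀ θ ∈ rts (cOver k F L Ω g D),
      σ (z θ) = zA F L Ω ζ ^ n (σ θ) * z (σ θ)) → vJ (zA F L Ω ζ) hζ (c 1 σ) = ram n

omit [IsAlgClosure k F] [IsFractionRing F[X] L] [IsAlgClosure L Ω] [Algebra F Ω] hG in
private lemma g12_stable (hG : IsGood ℓ (cOver k F L Ω g D)) (γ : AutO k F L Ω) {θ : Ω} :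
    (γ : Ω ≃+* Ω) θ ∈ rts (cOver k F L Ω g D) ↔ θ ∈ rts (cOver k F L Ω g D) := by
  rw [g12_mem_rts hG, g12_mem_rts hG]
  have h1 := (toSym g D γ).2
  have h2 : (cOver k F L Ω g D).eval ((γ : Ω ≃+* Ω) θ) =
      (γ : Ω ≃+* Ω) ((cOver k F L Ω g D).eval θ) := by
    conv_lhs => rw [← h1]
    rw [eval_map]
    exact eval₂_hom (p := cOver k F L Ω g D) ((γ : Ω ≃+* Ω) : Ω →+* Ω) θ
  rw [h2]
  exact map_eq_zero_iff _ (γ : Ω ≃+* Ω).injective

omit [IsAlgClosure k F] [IsFractionRing F[X] L] [IsAlgClosure L Ω] [Algebra F Ω] hG in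
private lemma g12_smul_mem (hG : IsGood ℓ (cOver k F L Ω g D)) (σ : Ω ≃ₐ[L] Ω) {θ : Ω} :
    σ θ ∈ rts (cOver k F L Ω g D) ↔ θ ∈ rts (cOver k F L Ω g D) :=
  g12_stable hG (galA k F σ)

omit [IsAlgClosure k F] [IsFractionRing F[X] L] [IsAlgClosure L Ω] [Algebra F Ω] hG in
private lemma g12_prod {N : Type*} [CommMonoid N] (hG : IsGood ℓ (cOver k F L Ω g D)) (σ : Ω ≃ₐ[L] Ω) (φ : Ω → N) :
    ∏ θ ∈ rts (cOver k F L Ω g D), φ (σ θ) = ∏ θ ∈ rts (cOver k F L Ω g D), φ θ :=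
  Finset.prod_equiv σ.toEquiv (fun _ => (g12_smul_mem hG σ).symm) (fun _ _ => rfl)

omit [IsAlgClosure k F] [IsFractionRing F[X] L] [IsAlgClosure L Ω] [Algebra F Ω] hG in
private lemma g12_zA (ζ : k) (σ : Ω ≃ₐ[L] Ω) : σ (zA F L Ω ζ) = zA F L Ω ζ :=
  σ.commutes _

omit [IsAlgClosure k F] [IsFractionRing F[X] L] [IsAlgClosure L Ω] hG in
private lemma g12_const (hF : CompatF F L Ω) (σ : Ω ≃ₐ[L] Ω) (c : F) :
    σ (algebraMap F Ω c) = algebraMap F Ω c := by
  rw [hF c]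
  exact σ.commutes _

omit hG in
private lemma g12_ne (hF : CompatF F L Ω) (H : GlobHyp ℓ g D ζ) {θ : Ω}
    (hθ : θ ∈ rts (cOver k F L Ω g D)) (β : F) : θ - algebraMap F Ω β ≠ 0 := by
  have h1 : aeval θ (X - C β : F[X]) = θ - algebraMap F Ω β := by
    rw [map_sub, aeval_X, aeval_C]
  rw [← h1, Ne, map_eq_zero_iff _ (aeval_root_injective hF H hθ)]
  exact X_sub_C_ne_zero β

/-- The product `∏ (θ - β)^{e β}`. -/
private noncomputable def g12_E (F : Type u) {k Ω : Type u} [Field k] [Field F] [Algebra k F]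
    [Field Ω] [Algebra F Ω] (g D : k[X]) (e : F → ℤ) (θ : Ω) : Ω :=
  ∏ β ∈ RR F g D, (θ - algebraMap F Ω β) ^ e β

omit hG in
private lemma g12_E_ne (hF : CompatF F L Ω) (H : GlobHyp ℓ g D ζ) (e : F → ℤ) {θ : Ω}
    (hθ : θ ∈ rts (cOver k F L Ω g D)) : g12_E F g D e θ ≠ 0 :=
  Finset.prod_ne_zero_iff.2 fun β _ => zpow_ne_zero _ (g12_ne hF H hθ β)

omit [IsAlgClosure k F] [IsFractionRing F[X] L] [IsAlgClosure L Ω] in
private lemma g12_E_map (hF : CompatF F L Ω) (e : F → ℤ) (σ : Ω ≃ₐ[L] Ω) (θ : Ω) :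
    σ (g12_E F g D e θ) = g12_E F g D e (σ θ) := by
  rw [g12_E, map_prod, g12_E]
  refine Finset.prod_congr rfl fun β _ => ?_
  rw [map_zpow₀, map_sub, g12_const hF]

omit hG in
private lemma g12_E_add (hF : CompatF F L Ω) (H : GlobHyp ℓ g D ζ) (e e' : F → ℤ) {θ : Ω}
    (hθ : θ ∈ rts (cOver k F L Ω g D)) :
    g12_E F g D (fun β => e β + e' β) θ = g12_E F g D e θ * g12_E F g D e' θ := by
  rw [g12_E, g12_E, g12_E, ← Finset.prod_mul_distrib]
  refine Finset.prod_congr rfl fun β _ => ?_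
  rw [zpow_add₀ (g12_ne hF H hθ β)]

omit [IsAlgClosure k F] in
private lemma g12_E_neg (e : F → ℤ) (θ : Ω) :
    g12_E F g D (fun β => -e β) θ = (g12_E F g D e θ)⁻¹ := by
  rw [g12_E, g12_E, ← Finset.prod_inv_distrib]
  refine Finset.prod_congr rfl fun β _ => ?_
  rw [zpow_neg]

omit [IsAlgClosure k F] in
private lemma g12_E_mul (m : ℤ) (e : F → ℤ) (θ : Ω) :
    g12_E F g D (fun β => m * e β) θ = (g12_E F g D e θ) ^ m := by
  rw [g12_E, g12_E, ← Finset.prod_zpow]
  refine Finset.prod_congr rfl fun β _ => ?_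
  rw [← zpow_mul, mul_comm]

private lemma g12_z_ne (hF : CompatF F L Ω) (H : GlobHyp ℓ g D ζ) (e : F → ℤ) {x θ : Ω}
    (hθ : θ ∈ rts (cOver k F L Ω g D)) (hx : x ^ ℓ = g12_E F g D e θ) : x ≠ 0 := by
  rintro rfl
  rw [zero_pow H.prime.ne_zero] at hx
  exact g12_E_ne hF H e hθ hx.symm

/-- The exponents `n` exist. -/
lemma exists_n_of_pow (hF : CompatF F L Ω) (H : GlobHyp ℓ g D ζ) (e : F → ℤ) {z : Ω → Ω}
    (hz : ∀ θ ∈ rts (cOver k F L Ω g D),
      z θ ^ ℓ = ∏ β ∈ RR F g D, (θ - algebraMap F Ω β) ^ e β) (σ : Ω ≃ₐ[L] Ω) :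
    ∃ n : Ω → ℤ, ∀ θ ∈ rts (cOver k F L Ω g D),
      σ (z θ) = zA F L Ω ζ ^ n (σ θ) * z (σ θ) := by
  have h1 : ∀ θ : Ω, ∃ n : ℤ, θ ∈ rts (cOver k F L Ω g D) →
      σ (z θ) = zA F L Ω ζ ^ n * z (σ θ) := by
    intro θ
    by_cases hθ : θ ∈ rts (cOver k F L Ω g D)
    · have hσθ := (g12_smul_mem hG σ).2 hθ
      obtain ⟨n, hn⟩ := g12_exists H.prime.ne_zero
        (zA_primitive (F := F) (L := L) (A := Ω) H)
        (g12_z_ne hF H e hσθ (hz _ hσθ)) (x := σ (z θ)) (by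
          rw [← map_pow, hz θ hθ, hz _ hσθ]
          exact g12_E_map hF e σ θ)
      exact ⟨n, fun _ => hn⟩
    · exact ⟨0, fun h => absurd h hθ⟩
  choose n hn using h1
  refine ⟨fun θ => n (σ⁻¹ θ), fun θ hθ => ?_⟩
  have h2 : σ⁻¹ (σ θ) = θ := σ.symm_apply_apply θ
  simp only [h2]
  exact hn θ hθ

omit [Algebra F Ω] in
/-- Comparison of the exponents. -/
private lemma g12_congr (H : GlobHyp ℓ g D ζ) (σ : Ω ≃ₐ[L] Ω) (n n' : Ω → ℤ)
    (h : ∀ θ ∈ rts (cOver k F L Ω g D),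
      zA F L Ω ζ ^ n (σ θ) = zA F L Ω ζ ^ n' (σ θ)) :
    (ram n : JacOver ℓ (curvePoly k F L g D) Ω) = ram n' := by
  apply ram_congr
  intro θ hθ
  have h1 := h (σ⁻¹ θ) ((g12_smul_mem hG σ⁻¹).2 ((g12_mem_rts hG).2 hθ))
  have h2 : σ (σ⁻¹ θ) = θ := σ.apply_symm_apply θ
  rw [h2] at h1
  exact (g12_zpow_eq H.prime.ne_zero (zA_primitive H) _ _).1 h1

variable {hζ : (zA F L Ω ζ) ^ ℓ = 1}

lemma HasExp.add (hF : CompatF F L Ω) (H : GlobHyp ℓ g D ζ) {c c' : Coch ℓ k F L Ω g D}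
    {e e' : F → ℤ} (h : HasExp hζ c e) (h' : HasExp hζ c' e') :
    HasExp hζ (c + c') (fun β => e β + e' β) := by
  obtain ⟨z, hz, hzn⟩ := h.ex
  obtain ⟨z', hz', hzn'⟩ := h'.ex
  refine ⟨fun a => ?_, fun θ => z θ * z' θ, fun θ hθ => ?_, fun σ n hn => ?_⟩
  · rw [Finset.sum_add_distrib]
    exact dvd_add (h.sum a) (h'.sum a)
  · rw [mul_pow, hz θ hθ, hz' θ hθ]
    exact (g12_E_add hF H e e' hθ).symm
  · obtain ⟨n₁, hn₁⟩ := exists_n_of_pow hF H e hz σ
    obtain ⟨n₂, hn₂⟩ := exists_n_of_pow hF H e' hz' σ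
    have h1 : vJ (zA F L Ω ζ) hζ ((c + c') 1 σ) = ram (fun θ => n₁ θ + n₂ θ) := by
      rw [ram_add, ← hzn σ n₁ hn₁, ← hzn' σ n₂ hn₂, ← vJ_add]
      rfl
    rw [h1]
    refine g12_congr H σ _ _ fun θ hθ => ?_
    have hσθ := (g12_smul_mem hG σ).2 hθ
    have h2 := hn θ hθ
    rw [map_mul, hn₁ θ hθ, hn₂ θ hθ] at h2
    have h3 := g12_z_ne hF H e hσθ (hz _ hσθ)
    have h4 := g12_z_ne hF H e' hσθ (hz' _ hσθ)
    rw [zpow_add₀ ((zA_primitive H).ne_zero H.prime.ne_zero)]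
    apply mul_right_cancel₀ (mul_ne_zero h3 h4)
    rw [← h2]
    ring

lemma HasExp.neg (hF : CompatF F L Ω) (H : GlobHyp ℓ g D ζ) {c : Coch ℓ k F L Ω g D}
    {e : F → ℤ} (h : HasExp hζ c e) : HasExp hζ (-c) (fun β => -e β) := by
  obtain ⟨z, hz, hzn⟩ := h.ex
  refine ⟨fun a => ?_, fun θ => (z θ)⁻¹, fun θ hθ => ?_, fun σ n hn => ?_⟩
  · rw [Finset.sum_neg_distrib]
    exact (dvd_neg).2 (h.sum a)
  · rw [inv_pow, hz θ hθ]
    exact (g12_E_neg e θ).symm
  · obtain ⟨n₁, hn₁⟩ := exists_n_of_pow hF H e hz σ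
    have h1 : vJ (zA F L Ω ζ) hζ ((-c) 1 σ) = ram (fun θ => -n₁ θ) := by
      rw [g12_ram_neg, ← hzn σ n₁ hn₁, ← g12_vJ_neg]
      rfl
    rw [h1]
    refine g12_congr H σ _ _ fun θ hθ => ?_
    have hσθ := (g12_smul_mem hG σ).2 hθ
    have h2 := hn θ hθ
    have h3 := g12_z_ne hF H e hσθ (hz _ hσθ)
    rw [map_inv₀, hn₁ θ hθ, mul_inv, ← zpow_neg] at h2
    exact mul_right_cancel₀ (inv_ne_zero h3) h2

lemma HasExp.congr (hF : CompatF F L Ω) (H : GlobHyp ℓ g D ζ) {c : Coch ℓ k F L Ω g D}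
    {e e' : F → ℤ} (h : HasExp hζ c e) (he : ∀ β ∈ RR F g D, (ℓ : ℤ) ∣ e' β - e β) :
    HasExp hζ c e' := by
  obtain ⟨z, hz, hzn⟩ := h.ex
  have h1 : ∀ β, ∃ i : ℤ, β ∈ RR F g D → e' β = e β + ℓ * i := by
    intro β
    by_cases hβ : β ∈ RR F g D
    · obtain ⟨i, hi⟩ := he β hβ
      exact ⟨i, fun _ => by linarith⟩
    · exact ⟨0, fun h => absurd h hβ⟩
  choose i hi using h1
  have hE : ∀ θ ∈ rts (cOver k F L Ω g D), g12_E F g D e' θ =
      g12_E F g D e θ * (g12_E F g D i θ) ^ ℓ := by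
    intro θ hθ
    rw [← zpow_natCast, ← g12_E_mul, ← g12_E_add hF H _ _ hθ]
    refine Finset.prod_congr rfl fun β hβ => ?_
    rw [hi β hβ]
  refine ⟨fun a => ?_, fun θ => z θ * g12_E F g D i θ, fun θ hθ => ?_, fun σ n hn => ?_⟩
  · have h2 : ∑ β ∈ (RR F g D).filter (fun β => aeval β g = a), e' β =
        ∑ β ∈ (RR F g D).filter (fun β => aeval β g = a), e β +
        ℓ * ∑ β ∈ (RR F g D).filter (fun β => aeval β g = a), i β := by
      rw [Finset.mul_sum, ← Finset.sum_add_distrib]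
      exact Finset.sum_congr rfl fun β hβ => hi β (Finset.mem_filter.1 hβ).1
    rw [h2]
    exact dvd_add (h.sum a) (dvd_mul_right _ _)
  · rw [mul_pow, hz θ hθ]
    exact (hE θ hθ).symm
  · apply hzn
    intro θ hθ
    have hσθ := (g12_smul_mem hG σ).2 hθ
    have h2 := hn θ hθ
    rw [map_mul, g12_E_map hF, ← mul_assoc] at h2
    exact mul_right_cancel₀ (g12_E_ne hF H i hσθ) h2

lemma HasExp.zC (hF : CompatF F L Ω) (H : GlobHyp ℓ g D ζ) {c : Coch ℓ k F L Ω g D}
    {e : F → ℤ} (h : HasExp hζ c e) : HasExp hζ (Sup.zC ζ hζ c) e := by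
  obtain ⟨z, hz, hzn⟩ := h.ex
  refine ⟨h.sum, z, hz, fun σ n hn => ?_⟩
  have h1 : (Sup.zC ζ hζ c) 1 σ = zJ (zA F L Ω ζ) hζ (c 1 σ) := rfl
  rw [h1, vJ_zJ, hzn σ n hn, zJ_ram]

lemma HasExp.act (hF : CompatF F L Ω) (H : GlobHyp ℓ g D ζ) {c : Coch ℓ k F L Ω g D}
    {e : F → ℤ} (h : HasExp hζ c e) (γ : AutO k F L Ω) (hγ : ∀ β ∈ RR F g D, resF γ β = β) :
    HasExp hζ (Sup.act γ c) e := by
  obtain ⟨z, hz, hzn⟩ := h.ex
  have hγF : ∀ β ∈ RR F g D, (γ : Ω ≃+* Ω) (algebraMap F Ω β) = algebraMap F Ω β := by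
    intro β hβ
    rw [hF β, resF_spec, map_C]
    have h1 : (resF γ : F →+* F) β = β := hγ β hβ
    rw [h1]
  refine ⟨h.sum, fun θ => (γ : Ω ≃+* Ω) (z ((γ : Ω ≃+* Ω).symm θ)), fun θ hθ => ?_,
    fun σ n hn => ?_⟩
  · have hθ' : (γ : Ω ≃+* Ω).symm θ ∈ rts (cOver k F L Ω g D) := by
      rw [← g12_stable hG γ, RingEquiv.apply_symm_apply]
      exact hθ
    rw [← map_pow, hz _ hθ', map_prod]
    refine Finset.prod_congr rfl fun β hβ => ?_
    rw [map_zpow₀, map_sub, hγF β hβ, RingEquiv.apply_symm_apply]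
  · have h1 : (Sup.act γ c) 1 σ = symJ (toSym g D γ) (c 1 (conjG γ⁻¹ σ)) := rfl
    have hconj : ∀ x, (conjG γ⁻¹ σ) x =
        (γ : Ω ≃+* Ω).symm (σ ((γ : Ω ≃+* Ω) x)) := by
      intro x
      have h2 := conjG_spec γ⁻¹ σ ((γ : Ω ≃+* Ω) x)
      have h3 : ∀ y : Ω, ((γ⁻¹ : AutO k F L Ω) : Ω ≃+* Ω) y = (γ : Ω ≃+* Ω).symm y :=
        fun y => rfl
      rw [h3, h3, RingEquiv.symm_apply_apply] at h2
      exact h2
    have h4 : vJ (zA F L Ω ζ) hζ (c 1 (conjG γ⁻¹ σ)) = ram (fun x => n ((γ : Ω ≃+* Ω) x)) := by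
      apply hzn
      intro θ hθ
      have h5 := hn ((γ : Ω ≃+* Ω) θ) ((g12_stable hG γ).2 hθ)
      simp only [RingEquiv.symm_apply_apply] at h5
      rw [hconj, hconj, h5, map_mul, RingEquiv.symm_apply_apply, RingEquiv.apply_symm_apply,
        map_zpow₀]
      have h6 : (γ : Ω ≃+* Ω).symm (zA F L Ω ζ) = zA F L Ω ζ := by
        rw [RingEquiv.symm_apply_eq]
        exact (zA_fixed ζ γ).symm
      rw [h6]
    rw [h1, vJ_symJ, h4, symJ_ram]
    · congr 1
      funext θ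
      exact congrArg n ((γ : Ω ≃+* Ω).apply_symm_apply θ)
    · exact zA_fixed ζ γ

omit [IsAlgClosure k F] [IsFractionRing F[X] L] [IsAlgClosure L Ω] hG in
private lemma g12_t (hG : IsGood ℓ (cOver k F L Ω g D)) (hF : CompatF F L Ω) {θ : Ω} (hθ : θ ∈ rts (cOver k F L Ω g D)) :
    tA F L Ω = aeval θ (g.map (algebraMap k F)) := by
  have h1 := (g12_mem_rts hG).1 hθ
  have h2 := hG.separable.ne_zero
  rw [cOver_eq_locPoly hF, locPoly] at h1 h2
  have h3 := (mul_ne_zero_iff.1 h2).1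
  rw [eval_mul, eval_C, mul_eq_zero] at h1
  have h4 := h1.resolve_left (C_ne_zero.1 h3)
  rw [eval_sub, eval_C, eval_map_algebraMap, sub_eq_zero] at h4
  exact h4.symm

omit hG in
private lemma g12_prodE (hF : CompatF F L Ω) (H : GlobHyp ℓ g D ζ) (e s : F → ℤ)
    (hs : ∀ a : F, ∑ β ∈ (RR F g D).filter (fun β => aeval β g = a), e β = ℓ * s a) :
    ∏ θ ∈ rts (cOver k F L Ω g D), g12_E F g D e θ =
      algebraMap F Ω (∏ β ∈ RR F g D, ((-1) ^ (g.natDegree + 1)) ^ e β) *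
        (∏ a ∈ (RR F g D).image (fun β => aeval β g),
          (tA F L Ω - algebraMap F Ω a) ^ s a) ^ ℓ := by
  have ht : ∀ a : F, tA F L Ω - algebraMap F Ω a ≠ 0 := by
    intro a
    have h1 : aeval (tA F L Ω) (X - C a : F[X]) = tA F L Ω - algebraMap F Ω a := by
      rw [map_sub, aeval_X, aeval_C]
    rw [← h1, Ne, map_eq_zero_iff _ (tA_injective hF)]
    exact X_sub_C_ne_zero a
  unfold g12_E
  rw [Finset.prod_comm]
  have h1 : ∀ β ∈ RR F g D, ∏ θ ∈ rts (cOver k F L Ω g D), (θ - algebraMap F Ω β) ^ e β =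
      algebraMap F Ω (((-1) ^ (g.natDegree + 1)) ^ e β) *
        (tA F L Ω - algebraMap F Ω (aeval β g)) ^ e β := by
    intro β _
    rw [Finset.prod_zpow, prod_rts_sub hF H, map_zpow₀, map_pow, map_neg, map_one, ← mul_zpow]
    congr 1
    ring
  rw [Finset.prod_congr rfl h1, Finset.prod_mul_distrib, ← map_prod]
  congr 1
  rw [← Finset.prod_fiberwise_of_maps_to (g := fun β => aeval β g)
    (fun β hβ => Finset.mem_image_of_mem _ hβ), ← Finset.prod_pow]
  refine Finset.prod_congr rfl fun a _ => ?_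
  rw [← zpow_natCast, ← zpow_mul, mul_comm (s a), ← hs a, ← g12_prod_zpow (ht a)]
  refine Finset.prod_congr rfl fun β hβ => ?_
  rw [(Finset.mem_filter.1 hβ).2]

theorem HasExp.dvd_of_TTc (hF : CompatF F L Ω) (H : GlobHyp ℓ g D ζ)
    {c : Coch ℓ k F L Ω g D} {e : F → ℤ} (h : HasExp hζ c e) (hc : TTc c) :
    ∀ β ∈ RR F g D, (ℓ : ℤ) ∣ e β := by
  have hζ' : IsPrimitiveRoot (zA F L Ω ζ) ℓ := zA_primitive H
  have hζ0 : zA F L Ω ζ ≠ 0 := hζ'.ne_zero H.prime.ne_zero
  obtain ⟨z, hz, hzn⟩ := h.ex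
  obtain ⟨A, hA, hcA⟩ := hc.2 1
  obtain ⟨m₀, hm₀⟩ := exists_ram_of_zJ_eq (zA F L Ω ζ) hζ' (vJ (zA F L Ω ζ) hζ A) (by
    have h1 := vJ_sub_zJ (zA F L Ω ζ) hζ' A
    rw [pow_one] at hA
    rw [hA, sub_eq_zero] at h1
    exact h1.symm)
  have hn : ∀ σ : Ω ≃ₐ[L] Ω, ∃ κ : ℤ, ∀ θ ∈ rts (cOver k F L Ω g D),
      σ (zA F L Ω ζ ^ (-m₀ θ) * z θ) = zA F L Ω ζ ^ κ * (zA F L Ω ζ ^ (-m₀ (σ θ)) * z (σ θ)) := by
    intro σ
    obtain ⟨n, hn⟩ := exists_n_of_pow hF H e hz σ
    have h1 := hzn σ n hn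
    rw [hcA σ, vJ_sub, push_eq, vJ_symJ, hm₀, symJ_ram, ← ram_sub] at h1
    · have h2 := ram_sub (ℓ := ℓ) (f := cOver k F L Ω g D) n (fun θ =>
        m₀ (((((toSym g D) ((galA k F) σ))⁻¹ : Sym (cOver k F L Ω g D)) : Ω ≃+* Ω) θ) - m₀ θ)
      rw [← h1, sub_self] at h2
      obtain ⟨κ, hκ⟩ := (ram_eq_zero_iff (zA F L Ω ζ) hζ' _).1 h2
      refine ⟨κ, fun θ hθ => ?_⟩
      have hσθ := (g12_smul_mem hG σ).2 hθ
      have h3 := hκ (σ θ) ((g12_mem_rts hG).1 hσθ)
      have h4 : ((((toSym g D) ((galA k F) σ))⁻¹ : Sym (cOver k F L Ω g D)) : Ω ≃+* Ω) (σ θ) =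
          θ := σ.symm_apply_apply θ
      rw [h4] at h3
      have h5 := (g12_zpow_eq H.prime.ne_zero hζ' (-m₀ θ + n (σ θ)) (κ + -m₀ (σ θ))).2 (by
        convert h3 using 1
        ring)
      rw [map_mul, map_zpow₀, g12_zA, hn θ hθ, ← mul_assoc, ← mul_assoc, ← zpow_add₀ hζ0,
        ← zpow_add₀ hζ0, h5]
    · exact g12_zA ζ σ
  set z' : Ω → Ω := fun θ => zA F L Ω ζ ^ (-m₀ θ) * z θ with hz'
  have hz'ℓ : ∀ θ ∈ rts (cOver k F L Ω g D), z' θ ^ ℓ = g12_E F g D e θ := by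
    intro θ hθ
    have h1 : (zA F L Ω ζ ^ (-m₀ θ)) ^ ℓ = 1 := by
      rw [← zpow_natCast, ← zpow_mul, mul_comm, zpow_mul, zpow_natCast, hζ, one_zpow]
    rw [hz']
    simp only
    rw [mul_pow, h1, one_mul]
    exact hz θ hθ
  set w : Ω := ∏ θ ∈ rts (cOver k F L Ω g D), z' θ with hw
  set m : ℕ := (rts (cOver k F L Ω g D)).card with hm
  obtain ⟨θ, hθ'⟩ := IsGood.exists_root (ℓ := ℓ) (f := cOver k F L Ω g D)
  have hθ : θ ∈ rts (cOver k F L Ω g D) := (g12_mem_rts hG).2 hθ'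
  obtain ⟨s, PA, PB, hPB, hAB⟩ := exists_pow_eq_quot hF H hθ ((z' θ) ^ m / w) (by
    intro σ hσ
    obtain ⟨κ, hκ⟩ := hn σ
    rw [map_div₀, map_pow, hκ θ hθ, hσ, hw, map_prod, Finset.prod_congr rfl hκ,
      Finset.prod_mul_distrib, g12_prod hG σ (fun θ => z' θ), Finset.prod_const, mul_pow]
    rw [mul_div_mul_left _ _ (pow_ne_zero _ (zpow_ne_zero _ hζ0))])
  generalize hq : ringExpChar k ^ s = q at hAB
  have hcop : ℓ.Coprime (m * q) := by
    refine Nat.Coprime.mul_right ?_ ?_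
    · exact (g12_card hG).symm
    · rw [← hq]
      exact (g12_coprime H.prime H.ne).pow_right s
  have hsum : ∀ a : F, ∃ i : ℤ,
      ∑ β ∈ (RR F g D).filter (fun β => aeval β g = a), e β = ℓ * i := fun a => h.sum a
  choose i hi using hsum
  set Y : Ω := ∏ a ∈ (RR F g D).image (fun β => aeval β g),
    (tA F L Ω - algebraMap F Ω a) ^ i a with hY
  set c₀ : F := ∏ β ∈ RR F g D, ((-1) ^ (g.natDegree + 1)) ^ e β with hc₀
  have hc₀0 : c₀ ≠ 0 := by
    rw [hc₀, Finset.prod_ne_zero_iff]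
    intro β _
    exact zpow_ne_zero _ (pow_ne_zero _ (neg_ne_zero.2 one_ne_zero))
  have hwℓ : w ^ ℓ = algebraMap F Ω c₀ * Y ^ ℓ := by
    rw [hw, ← Finset.prod_pow, Finset.prod_congr rfl hz'ℓ, g12_prodE hF H e i hi]
  have hw0 : w ≠ 0 := by
    rw [hw, Finset.prod_ne_zero_iff]
    intro θ' hθ'
    exact g12_z_ne hF H e hθ' (hz'ℓ _ hθ')
  have hE0 := g12_E_ne hF H e hθ
  have hmain : (g12_E F g D e θ) ^ (m * q) =
      algebraMap F Ω (c₀ ^ q) * ((((z' θ) ^ m / w) ^ q) * Y ^ q) ^ ℓ := by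
    have h1 : (g12_E F g D e θ) ^ m = ((z' θ) ^ m / w) ^ ℓ * (algebraMap F Ω c₀ * Y ^ ℓ) := by
      rw [← hwℓ, ← mul_pow, div_mul_cancel₀ _ hw0, ← hz'ℓ θ hθ, ← pow_mul, ← pow_mul, mul_comm]
    rw [pow_mul, h1, map_pow]
    ring
  have hK : (((z' θ) ^ m / w) ^ q) * Y ^ q ∈ IntermediateField.adjoin F ({θ} : Set Ω) := by
    refine mul_mem ?_ (pow_mem ?_ _)
    · rw [hAB]
      exact (IntermediateField.mem_adjoin_simple_iff F _).2 ⟨PA, PB, rfl⟩
    · rw [hY]
      refine prod_mem fun a _ => zpow_mem (sub_mem ?_ (algebraMap_mem _ a)) _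
      rw [g12_t hG hF hθ]
      exact (IntermediateField.mem_adjoin_simple_iff F _).2
        ⟨g.map (algebraMap k F), 1, by rw [map_one, _root_.div_one]⟩
  obtain ⟨r, r', hr⟩ := (IntermediateField.mem_adjoin_simple_iff F _).1 hK
  rw [hr] at hmain
  have hr' : r' ≠ 0 := by
    rintro rfl
    rw [map_zero, div_zero, zero_pow H.prime.ne_zero, mul_zero] at hmain
    exact pow_ne_zero _ hE0 hmain
  have hfin := dvd_of_prod_eq_pow (aeval_root_injective hF H hθ) (ℓ := ℓ) (RR F g D)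
    (fun β => ((m * q : ℕ) : ℤ) * e β) (c₀ ^ q) (pow_ne_zero _ hc₀0) r r' hr' (by
      rw [← hmain, ← zpow_natCast]
      exact g12_E_mul _ e θ)
  intro β hβ
  have h2 := hfin β hβ
  exact (Nat.isCoprime_iff_coprime.2 hcop).dvd_of_dvd_mul_left h2

end Pool.Agent.Lib.MP_89bcae_ag.Sup

end

section

section

/-!
# Simply transitive groups on a fibre of `g` at a place where the leading coefficient has a simple zero
-/

open Polynomial WithZero

open scoped Classical Pointwise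

set_option linter.unusedSimpArgs false
set_option linter.unusedVariables false
set_option linter.unusedSectionVars false
set_option linter.style.haveILetI false

namespace Pool.Agent.Lib.MP_89bcae_ag

section Aux

variable {K κ : Type*} [Field K] [Field κ] {v : Valuation K ℤᵐ⁰} {q : v.integer →+* κ}

/-- The inertia group is simply transitive on the fibre over the pole. -/
theorem exists_cycle_auxT {k : Type*} [Field k] [Algebra k K]
    (hq : ∀ x : v.integer, q x = 0 ↔ v x < 1) (I : Subgroup (K ≃ₐ[k] K)) [Finite I]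
    (hI1 : ∀ σ ∈ I, ∀ x, v (σ x) = v x) (hI2 : ∀ σ ∈ I, ∀ x, v x ≤ 1 → v (σ x - x) < 1)
    {e : ℕ} (he0 : 0 < e) (he : e ≤ Nat.card I) {g D : v.integer[X]} (hg : g.Monic)
    (hgm : v (g.natDegree : K) = 1) {S A : Finset K} {a : K} (ha : v a = exp (-(e : ℤ)))
    (hD : D.map v.integer.subtype = C a * ∏ α ∈ A, (X - C α)) {n : ℕ} (hn : A.card = n + 1)
    (hdeg : (D.map q).natDegree = n) (hlc : q (D.coeff n) ≠ 0)
    (hgS : ∀ α ∈ A, g.map v.integer.subtype - C α =
      ∏ b ∈ S.filter (fun b => (g.map v.integer.subtype).eval b = α), (X - C b))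
    (hsep : ((D.comp g).map q).Separable)
    (hgσ : ∀ σ ∈ I, ∀ x, (g.map v.integer.subtype).eval (σ x) =
      σ ((g.map v.integer.subtype).eval x))
    (hDσ : ∀ σ ∈ I, ∀ x, (D.map v.integer.subtype).eval (σ x) =
      σ ((D.map v.integer.subtype).eval x))
    (hgen : ∀ σ ∈ I, (∀ b ∈ S, σ b = b) → σ = 1)
    (hSA : ∀ b ∈ S, (g.map v.integer.subtype).eval b ∈ A) :
    ∃ α₀ ∈ A, (∀ x ∈ S, ∀ y ∈ S, (g.map v.integer.subtype).eval x = α₀ →
      (g.map v.integer.subtype).eval y = α₀ → ∃ σ ∈ I, σ x = y ∧ ∀ τ ∈ I, τ x = y → τ = σ) ∧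
        ∀ σ ∈ I, ∀ b ∈ S, (g.map v.integer.subtype).eval b ≠ α₀ → σ b = b := by
  obtain ⟨α₀, hα₀A, hα₀1, haα₀, hα₀u⟩ := exists_pole8 hq hD hn hdeg hlc
  obtain ⟨m, hm⟩ : ∃ m, g.natDegree = m := ⟨_, rfl⟩
  rw [hm] at hgm
  have hm0 : m ≠ 0 := by
    rintro rfl
    rw [Nat.cast_zero, map_zero] at hgm
    exact zero_ne_one hgm
  set gK := g.map v.integer.subtype with hgK
  obtain ⟨T, hT⟩ : ∃ T, T = S.filter fun b => gK.eval b = α₀ := ⟨_, rfl⟩
  have hTmem : ∀ b, b ∈ T ↔ gK.eval b = α₀ := by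
    intro b
    rw [hT, Finset.mem_filter]
    constructor
    · exact fun h => h.2
    · intro h
      refine ⟨?_, h⟩
      have h1 := congrArg (eval b) (hgS α₀ hα₀A)
      rw [eval_sub, eval_C, h, sub_self, eval_prod, eq_comm, Finset.prod_eq_zero_iff] at h1
      obtain ⟨b', hb', h2⟩ := h1
      rw [eval_sub, eval_X, eval_C, sub_eq_zero] at h2
      rw [h2]
      exact (Finset.mem_filter.mp hb').1
  have hTprod : gK - C α₀ = ∏ b ∈ T, (X - C b) := by rw [hT]; exact hgS α₀ hα₀A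
  have hTcard : T.card = m := by
    have h1 := congrArg natDegree hTprod
    rw [natDegree_sub_C, hg.natDegree_map, hm, natDegree_prod_of_monic _ _
      fun α _ => monic_X_sub_C _] at h1
    simpa using h1.symm
  have hTsub := fun {x : K} (hx : x ∈ T) {y : K} (hy : y ∈ T) (hxy : x ≠ y) =>
    val_sub8 hg hm hgm hα₀1 hTprod hx hy hxy
  have hev : ∀ (p : v.integer[X]) (z : K) (hz : v z ≤ 1),
      (p.map v.integer.subtype).eval z = ((p.eval ⟨z, hz⟩ : v.integer) : K) := by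
    intro p z hz
    have h1 : (p.map v.integer.subtype).eval z = v.integer.subtype (p.eval ⟨z, hz⟩) := by
      rw [eval_map, ← eval₂_at_apply]
      rfl
    exact h1
  have hTv : ∀ z ∈ T, 1 < v z := by
    intro z hz
    by_contra hcon
    rw [not_lt] at hcon
    have h1 := (g.eval ⟨z, hcon⟩).2
    have h2 : v (gK.eval z) ≤ 1 := by
      rw [hev g z hcon]
      exact h1
    rw [(hTmem z).mp hz] at h2
    exact absurd hα₀1 (not_lt.mpr h2)
  have hgcoeff : v ((g.coeff m : v.integer) : K) = 1 := by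
    have h1 : g.coeff m = 1 := by rw [← hm]; exact hg
    rw [h1]
    exact map_one v
  have hTpow : ∀ z ∈ T, v z ^ m = v α₀ := by
    intro z hz
    rw [← (hTmem z).mp hz]
    exact (val_eval8 g hm.le hgcoeff (hTv z hz)).symm
  -- the roots in the other fibres
  have hother : ∀ b ∈ S, gK.eval b ≠ α₀ → v b ≤ 1 := by
    intro b hb hne
    by_contra hcon
    rw [not_le] at hcon
    have h1 : v (gK.eval b) = v b ^ m := val_eval8 g hm.le hgcoeff hcon
    have h2 := hα₀u _ (hSA b hb) hne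
    rw [h1] at h2
    exact absurd (one_lt_pow₀ hcon hm0) (not_lt.mpr h2)
  have hAev : ∀ α ∈ A, (D.map v.integer.subtype).eval α = 0 := by
    intro α hα
    rw [hD, eval_mul, eval_prod, Finset.prod_eq_zero hα (by simp), mul_zero]
  have hA0 : a ≠ 0 := by
    intro h0
    rw [h0, map_zero] at ha
    exact exp_ne_zero ha.symm
  have hAmem : ∀ α, (D.map v.integer.subtype).eval α = 0 → α ∈ A := by
    intro α hα
    rw [hD, eval_mul, eval_C, eval_prod, mul_eq_zero, Finset.prod_eq_zero_iff] at hα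
    rcases hα with hα | ⟨α', h1, h2⟩
    · exact absurd hα hA0
    · rw [eval_sub, eval_X, eval_C, sub_eq_zero] at h2
      rw [h2]
      exact h1
  have hσA : ∀ σ ∈ I, ∀ α ∈ A, σ α ∈ A := by
    intro σ hσ α hα
    apply hAmem
    rw [hDσ σ hσ, hAev α hα, map_zero]
  have hσα₀ : ∀ σ ∈ I, σ α₀ = α₀ := by
    intro σ hσ
    by_contra hne
    have h1 := hα₀u _ (hσA σ hσ α₀ hα₀A) hne
    rw [hI1 σ hσ] at h1
    exact absurd hα₀1 (not_lt.mpr h1)
  have hσT : ∀ σ ∈ I, ∀ x ∈ T, σ x ∈ T := by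
    intro σ hσ x hx
    rw [hTmem, hgσ σ hσ, (hTmem x).mp hx, hσα₀ σ hσ]
  have hfix : ∀ σ ∈ I, ∀ b ∈ S, gK.eval b ≠ α₀ → σ b = b := by
    intro σ hσ b hb hne
    have h1 := hother b hb hne
    have h2 : v (σ b) ≤ 1 := by rw [hI1 σ hσ]; exact h1
    have hroot : ∀ (z : K) (hz : v z ≤ 1), gK.eval z ∈ A →
        (D.comp g).eval (⟨z, hz⟩ : v.integer) = 0 := by
      intro z hz hzA
      have h3 := hev (D.comp g) z hz
      rw [Polynomial.map_comp, eval_comp, hAev _ hzA] at h3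
      exact Subtype.ext h3.symm
    have h4 : gK.eval (σ b) ∈ A := by
      rw [hgσ σ hσ]
      exact hσA σ hσ _ (hSA b hb)
    have h5 := inj_red8 q hsep (hroot (σ b) h2 h4) (hroot b h1 (hSA b hb)) (by
      rw [← sub_eq_zero, ← map_sub, hq]
      exact hI2 σ hσ b h1)
    exact congrArg Subtype.val h5
  have hone : ∀ σ ∈ I, ∀ x ∈ T, σ x = x → σ = 1 := by
    intro σ hσ x hx hσx
    apply hgen σ hσ
    intro b hb
    by_cases hbα : gK.eval b = α₀
    · have hbT : b ∈ T := (hTmem b).mpr hbα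
      by_contra hne
      have hx0 : x ≠ 0 := by
        rintro rfl
        have h1 := hTv 0 hx
        rw [map_zero] at h1
        exact absurd h1 (not_lt.mpr zero_le_one)
      have hvx0 : v x ≠ 0 := (Valuation.ne_zero_iff v).mpr hx0
      have hvb : v b = v x :=
        (pow_left_inj₀ zero_le zero_le hm0).mp ((hTpow b hbT).trans (hTpow x hx).symm)
      have h1 : v (b / x) ≤ 1 := by rw [map_div₀, hvb, div_self hvx0]
      have h2 := hI2 σ hσ (b / x) h1
      rw [map_div₀, hσx, ← sub_div, map_div₀, div_lt_one₀ (zero_lt_iff.mpr hvx0)] at h2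
      have h3 := hTsub (hσT σ hσ b hbT) hbT hne
      have h4 : v (σ b) = v x := (hI1 σ hσ b).trans hvb
      rw [h3, h4] at h2
      exact lt_irrefl _ h2
    · exact hfix σ hσ b hb hbα
  -- the count
  obtain ⟨x₀, hx₀⟩ : T.Nonempty := by
    rw [← Finset.card_pos, hTcard]
    exact Nat.pos_of_ne_zero hm0
  have hme : m ≤ e := by
    have h1 := hTpow x₀ hx₀
    rw [map_mul, ha] at haα₀
    have h2 : v α₀ = exp (e : ℤ) := by
      have h3 : exp (-(e : ℤ)) * exp (e : ℤ) = 1 := by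
        rw [← exp_add, neg_add_cancel, exp_zero]
      rw [← h3] at haα₀
      exact mul_left_cancel₀ exp_ne_zero haα₀
    rw [h2] at h1
    have hv0 : v x₀ ≠ 0 := (zero_lt_one.trans (hTv x₀ hx₀)).ne'
    rw [← exp_log hv0, ← exp_nsmul, exp_inj] at h1
    have h4 : (m : ℤ) ∣ e := ⟨log (v x₀), by rw [← h1, nsmul_eq_mul]⟩
    exact Nat.le_of_dvd he0 (Int.natCast_dvd_natCast.mp h4)
  have hbij : ∀ (x : K) (hx : x ∈ T), Function.Bijective
      (fun σ : I => (⟨(σ : K ≃ₐ[k] K) x, hσT σ σ.2 x hx⟩ : T)) := by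
    intro x hx
    have hinj : Function.Injective
        (fun σ : I => (⟨(σ : K ≃ₐ[k] K) x, hσT σ σ.2 x hx⟩ : T)) := by
      intro σ τ hστ
      have h3 : (σ : K ≃ₐ[k] K) x = (τ : K ≃ₐ[k] K) x := congrArg Subtype.val hστ
      have h4 : (τ⁻¹ * σ : I) = 1 := by
        apply Subtype.ext
        apply hone _ (τ⁻¹ * σ).2 x hx
        change (τ : K ≃ₐ[k] K).symm ((σ : K ≃ₐ[k] K) x) = x
        rw [h3, AlgEquiv.symm_apply_apply]
      exact (inv_mul_eq_one.mp h4).symm
    refine (Nat.bijective_iff_injective_and_card _).mpr ⟨hinj, ?_⟩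
    have h5 := Nat.card_le_card_of_injective _ hinj
    rw [Nat.card_eq_fintype_card (α := T), Fintype.card_coe, hTcard] at h5 ⊢
    omega
  refine ⟨α₀, hα₀A, fun x hx y hy hxα hyα => ?_, fun σ hσ b hb hb' => hfix σ hσ b hb hb'⟩
  obtain ⟨σ, hσ⟩ := (hbij x ((hTmem x).mpr hxα)).2 ⟨y, (hTmem y).mpr hyα⟩
  refine ⟨σ, σ.2, congrArg Subtype.val hσ, fun τ hτ hτy => ?_⟩
  have h1 := (hbij x ((hTmem x).mpr hxα)).1 (a₁ := ⟨τ, hτ⟩) (a₂ := σ)
    (Subtype.ext (hτy.trans (congrArg Subtype.val hσ).symm))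
  exact congrArg Subtype.val h1

end Aux

section Main

variable {R k K : Type*} [CommRing R] [IsDomain R] [IsDiscreteValuationRing R] [Field k]
    [Algebra R k] [IsFractionRing R k] [Field K] [Algebra k K] [Algebra R K] [IsScalarTower R k K]
    [FiniteDimensional k K] [IsGalois k K]

/-- A simply transitive group on a fibre. -/
theorem exists_cycleT {g D : R[X]} (hg : g.Monic)
    (hgm : (g.natDegree : IsLocalRing.ResidueField R) ≠ 0) {n : ℕ} (hn : D.natDegree = n + 1)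
    (hlc1 : D.leadingCoeff ∈ IsLocalRing.maximalIdeal R)
    (hlc2 : D.leadingCoeff ∉ IsLocalRing.maximalIdeal R ^ 2)
    (hlc3 : D.coeff n ∉ IsLocalRing.maximalIdeal R)
    (hsep : ((D.map (IsLocalRing.residue R)).comp (g.map (IsLocalRing.residue R))).Separable)
    (S A : Finset K) (hDA : D.map (algebraMap R K) =
      C (algebraMap R K D.leadingCoeff) * ∏ α ∈ A, (X - C α))
    (hgS : ∀ α ∈ A, g.map (algebraMap R K) - C α =
      ∏ b ∈ S.filter (fun b => (g.map (algebraMap R K)).eval b = α), (X - C b))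
    (hSA : ∀ b ∈ S, (g.map (algebraMap R K)).eval b ∈ A)
    (hgen : ∀ σ : K ≃ₐ[k] K, (∀ b ∈ S, σ b = b) → σ = 1) :
    ∃ α₀ ∈ A, ∃ J : Finset (K ≃ₐ[k] K), (∀ x ∈ S, ∀ y ∈ S,
      (g.map (algebraMap R K)).eval x = α₀ → (g.map (algebraMap R K)).eval y = α₀ →
        ∃ σ ∈ J, σ x = y ∧ ∀ τ ∈ J, τ x = y → τ = σ) ∧
        ∀ σ ∈ J, ∀ b ∈ S, (g.map (algebraMap R K)).eval b ≠ α₀ → σ b = b := by
  -- the integral closure
  set B := integralClosure R K with hB
  haveI : IsDedekindDomain B := integralClosure.isDedekindDomain R k K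
  haveI : Module.Finite R B := IsIntegralClosure.finite R k K B
  haveI : IsFractionRing B K := integralClosure.isFractionRing_of_finite_extension k K
  haveI : SMulCommClass (K ≃ₐ[k] K) R K := ⟨fun σ r x => by
    rw [AlgEquiv.smul_def, AlgEquiv.smul_def, Algebra.smul_def, Algebra.smul_def, map_mul,
      IsScalarTower.algebraMap_apply R k K, AlgEquiv.commutes]⟩
  haveI : IsGaloisGroup (K ≃ₐ[k] K) R B := IsGaloisGroup.of_isFractionRing _ _ _ k K
  have hinjK : Function.Injective (algebraMap R K) := by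
    rw [IsScalarTower.algebraMap_eq R k K]
    exact (algebraMap k K).injective.comp (IsFractionRing.injective R k)
  have hinjB : Function.Injective (algebraMap B K) := Subtype.val_injective
  haveI : FaithfulSMul R B := by
    rw [faithfulSMul_iff_algebraMap_injective]
    intro x y hxy
    exact hinjK (congrArg (algebraMap B K) hxy)
  haveI : Module.IsTorsionFree R B := inferInstance
  haveI : Module.Flat R B := inferInstance
  let v : IsDedekindDomain.HeightOneSpectrum R := IsDiscreteValuationRing.maximalIdeal R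
  have hvmax : v.asIdeal.IsMaximal := v.isMaximal
  obtain ⟨P, hPmax, hPv⟩ := Ideal.exists_maximal_ideal_liesOver_of_isIntegral (S := B) v.asIdeal
  have hP0 : P ≠ ⊥ := Ideal.ne_bot_of_liesOver_of_ne_bot v.ne_bot P
  let w : IsDedekindDomain.HeightOneSpectrum B := ⟨P, hPmax.isPrime, hP0⟩
  have hwv : w.asIdeal.LiesOver v.asIdeal := hPv
  -- the ramification index
  have he : v.asIdeal.ramificationIdx' w.asIdeal ≤ Nat.card (P.inertia (K ≃ₐ[k] K)) := by
    rw [Ideal.ramificationIdx'_eq_ramificationIdx v.asIdeal w.asIdeal v.ne_bot]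
    exact ramificationIdx_le_card_inertia7 v.asIdeal P
  set e := v.asIdeal.ramificationIdx' w.asIdeal with hedef
  set W := w.valuation K with hW
  have hWk : ∀ r : R, W (algebraMap R K r) = v.intValuation r ^ e := by
    intro r
    have h1 := IsDedekindDomain.HeightOneSpectrum.valuation_liesOver K v w (algebraMap R k r)
    rw [← IsScalarTower.algebraMap_apply] at h1
    rw [hW, ← h1]
    congr 1
    exact IsDedekindDomain.HeightOneSpectrum.valuation_of_algebraMap (K := k) v r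
  have hvm : ∀ (r : R) (n : ℕ), v.intValuation r ≤ exp (-(n : ℤ)) ↔
      r ∈ IsLocalRing.maximalIdeal R ^ n := fun r n => v.intValuation_le_pow_iff_mem r n
  have hlc0 : D.leadingCoeff ≠ 0 := by
    intro h0
    rw [h0] at hlc2
    exact hlc2 (Ideal.zero_mem _)
  have hvD : v.intValuation D.leadingCoeff = exp (-1 : ℤ) := by
    have h1 := (hvm D.leadingCoeff 1).mpr (by rw [pow_one]; exact hlc1)
    have h3 : ¬ v.intValuation D.leadingCoeff ≤ exp (-((2 : ℕ) : ℤ)) := fun h4 =>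
      hlc2 ((hvm D.leadingCoeff 2).mp h4)
    have h5 : v.intValuation D.leadingCoeff ≠ 0 := v.intValuation_ne_zero _ hlc0
    have h6 := exp_log h5
    rw [← h6] at h1 h3 ⊢
    rw [exp_le_exp] at h1 h3
    rw [exp_inj]
    push_cast at h1 h3
    omega
  have ha : W (algebraMap R K D.leadingCoeff) = exp (-(e : ℤ)) := by
    rw [hWk, hvD, ← exp_nsmul]
    simp
  -- integrality
  have hWB : ∀ x : B, W x ≤ 1 := fun x => w.valuation_le_one x
  have hWP : ∀ x : B, W x < 1 ↔ x ∈ P := fun x => w.valuation_lt_one_iff_mem x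
  have hWR : ∀ r : R, W (algebraMap R K r) ≤ 1 := fun r => hWB (algebraMap R B r)
  have hWm : ∀ r : R, r ∈ IsLocalRing.maximalIdeal R → W (algebraMap R K r) < 1 := by
    intro r hr
    refine (hWP (algebraMap R B r)).mpr ?_
    have h1 : r ∈ Ideal.comap (algebraMap R B) P := by
      rw [← Ideal.under_def, ← hPv.over]
      exact hr
    exact h1
  have he0 : 0 < e := by
    rcases Nat.eq_zero_or_pos e with h0 | h0
    · have h1 := hWm _ hlc1
      rw [ha, h0] at h1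
      exact absurd h1 (by simp)
    · exact h0
  obtain ⟨q, hq⟩ := exists_residue8 W
  let ι : R →+* W.integer := (algebraMap R K).codRestrict W.integer hWR
  have hι : W.integer.subtype.comp ι = algebraMap R K := RingHom.ext fun r => rfl
  have hιmap : ∀ p : R[X], (p.map ι).map W.integer.subtype = p.map (algebraMap R K) := fun p => by
    rw [Polynomial.map_map, hι]
  have hker : ∀ r : R, r ∈ IsLocalRing.maximalIdeal R → q.comp ι r = 0 := by
    intro r hr
    exact (hq (ι r)).mpr (hWm r hr)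
  let ψ : IsLocalRing.ResidueField R →+* IsLocalRing.ResidueField W.valuationSubring :=
    Ideal.Quotient.lift (IsLocalRing.maximalIdeal R) (q.comp ι) hker
  have hψ : ψ.comp (IsLocalRing.residue R) = q.comp ι := RingHom.ext fun r => rfl
  have hψmap : ∀ p : R[X], (p.map ι).map q = (p.map (IsLocalRing.residue R)).map ψ := fun p => by
    rw [Polynomial.map_map, Polynomial.map_map, hψ]
  -- the action of the inertia group
  have hstab : ∀ σ ∈ P.inertia (K ≃ₐ[k] K), σ • P = P := fun σ hσ =>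
    Ideal.inertia_le_stabilizer (M := (K ≃ₐ[k] K)) P hσ
  have hint1 : ∀ σ ∈ P.inertia (K ≃ₐ[k] K), ∀ b : B, w.intValuation (σ • b) ≤ w.intValuation b := by
    intro σ hσ b
    by_cases hb : b = 0
    · rw [hb, smul_zero]
    · have h1 : w.intValuation b ≠ 0 := w.intValuation_ne_zero b hb
      obtain ⟨N, hN⟩ : ∃ N : ℕ, w.intValuation b = exp (-(N : ℤ)) :=
        ⟨_, w.intValuation_if_neg hb⟩
      rw [hN]
      refine (w.intValuation_le_pow_iff_mem (σ • b) N).mpr ?_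
      have h2 : b ∈ w.asIdeal ^ N := (w.intValuation_le_pow_iff_mem b N).mp hN.le
      have h3 : w.asIdeal ^ N = σ • (w.asIdeal ^ N) := by
        rw [smul_pow']
        exact congrArg (· ^ N) (hstab σ hσ).symm
      rw [h3]
      exact Ideal.smul_mem_pointwise_smul σ b _ h2
  have hint2 : ∀ σ ∈ P.inertia (K ≃ₐ[k] K), ∀ b : B, w.intValuation (σ • b) = w.intValuation b := by
    intro σ hσ b
    refine le_antisymm (hint1 σ hσ b) ?_
    have h1 := hint1 σ⁻¹ (inv_mem hσ) (σ • b)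
    rwa [inv_smul_smul] at h1
  have hWσB : ∀ σ ∈ P.inertia (K ≃ₐ[k] K), ∀ b : B, W (σ (b : K)) = W (b : K) := by
    intro σ hσ b
    have h1 : w.valuation K (algebraMap B K (σ • b)) = w.valuation K (algebraMap B K b) := by
      rw [w.valuation_of_algebraMap, w.valuation_of_algebraMap, hint2 σ hσ b]
    exact h1
  have hI1 : ∀ σ ∈ P.inertia (K ≃ₐ[k] K), ∀ x, W (σ x) = W x := by
    intro σ hσ x
    obtain ⟨a, b, hb, rfl⟩ := IsFractionRing.div_surjective (A := B) x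
    rw [map_div₀, map_div₀, map_div₀]
    have h1 := hWσB σ hσ a
    have h2 := hWσB σ hσ b
    have h3 : algebraMap B K a = (a : K) := rfl
    have h4 : algebraMap B K b = (b : K) := rfl
    rw [h3, h4, h1, h2]
  have hI2 : ∀ σ ∈ P.inertia (K ≃ₐ[k] K), ∀ x, W x ≤ 1 → W (σ x - x) < 1 := by
    intro σ hσ x hx
    obtain ⟨a, ⟨d, hd⟩, hxd⟩ := w.exists_primeCompl_mul_eq_of_integer x hx
    have hd1 : W (d : K) = 1 := by
      refine le_antisymm (hWB d) ?_
      rw [← not_lt, hWP]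
      exact hd
    have hσd1 : W (σ (d : K)) = 1 := by rw [hI1 σ hσ]; exact hd1
    have hxd' : x * (d : K) = (a : K) := hxd
    have h1 : (σ x - x) * (σ (d : K) * (d : K)) =
        ((((σ • a - a) * d - a * (σ • d - d) : B)) : K) := by
      have h2 : σ x * σ (d : K) = σ (a : K) := by rw [← map_mul, hxd']
      have h3 : ((((σ • a - a) * d - a * (σ • d - d) : B)) : K) =
        (σ (a : K) - (a : K)) * (d : K) - (a : K) * (σ (d : K) - (d : K)) := rfl
      rw [h3]
      linear_combination (d : K) * h2 - σ (d : K) * hxd'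
    have h4 : W ((((σ • a - a) * d - a * (σ • d - d) : B)) : K) < 1 := by
      rw [hWP]
      refine sub_mem (Ideal.mul_mem_right _ _ (hσ a)) (Ideal.mul_mem_left _ _ (hσ d))
    rw [← h1, map_mul, map_mul, hσd1, hd1, mul_one, mul_one] at h4
    exact h4
  have hσev : ∀ (σ : K ≃ₐ[k] K) (p : R[X]) (x : K), (p.map (algebraMap R K)).eval (σ x) =
      σ ((p.map (algebraMap R K)).eval x) := by
    intro σ p x
    have h1 : (σ : K →+* K).comp (algebraMap R K) = algebraMap R K := by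
      ext r
      change σ (algebraMap R K r) = algebraMap R K r
      rw [IsScalarTower.algebraMap_apply R k K]
      exact σ.commutes _
    have h3 := Polynomial.hom_eval₂ p (algebraMap R K) (σ : K →+* K) x
    rw [h1] at h3
    rw [eval_map, eval_map]
    exact h3.symm
  -- the numerical conditions
  have hgm' : W (((g.map ι).natDegree : ℕ) : K) = 1 := by
    rw [hg.natDegree_map]
    refine le_antisymm (by simpa using hWR (g.natDegree : R)) ?_
    rw [← not_lt]
    intro h1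
    apply hgm
    have h2 : q (ι (g.natDegree : R)) = 0 := by
      rw [hq]
      have h3 : ((ι (g.natDegree : R) : W.integer) : K) = (g.natDegree : K) := by
        have h4 : ((ι (g.natDegree : R) : W.integer) : K) = algebraMap R K (g.natDegree : R) := rfl
        rw [h4, map_natCast]
      rw [h3]
      exact h1
    have h5 : ψ (IsLocalRing.residue R (g.natDegree : R)) = 0 := h2
    rw [map_eq_zero, map_natCast] at h5
    exact h5
  have hcoefn : (D.map (IsLocalRing.residue R)).coeff n ≠ 0 := by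
    rw [coeff_map, Ne, IsLocalRing.residue_eq_zero_iff]
    exact hlc3
  have hdegn : (D.map (IsLocalRing.residue R)).natDegree = n := by
    apply natDegree_eq_of_le_of_coeff_ne_zero _ hcoefn
    rw [natDegree_le_iff_coeff_eq_zero]
    intro N hN
    rcases Nat.lt_or_ge (n + 1) N with h1 | h1
    · rw [coeff_map, coeff_eq_zero_of_natDegree_lt (by omega), map_zero]
    · have h2 : N = n + 1 := by omega
      rw [h2, coeff_map, IsLocalRing.residue_eq_zero_iff, ← hn]
      exact hlc1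
  have hAcard : A.card = n + 1 := by
    have h1 := congrArg natDegree hDA
    rw [natDegree_map_eq_of_injective hinjK, hn, natDegree_C_mul
      ((map_ne_zero_iff _ hinjK).mpr hlc0), natDegree_prod_of_monic _ _
      fun α _ => monic_X_sub_C _] at h1
    simpa using h1.symm
  have hfin : Finite (P.inertia (K ≃ₐ[k] K)) := inferInstance
  obtain ⟨α₀, hα₀, h⟩ := exists_cycle_auxT (q := q) (k := k) hq (P.inertia (K ≃ₐ[k] K)) hI1 hI2 he0
    he (g := g.map ι) (D := D.map ι) (hg.map _) hgm' (S := S) (A := A) ha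
    (by rw [hιmap]; exact hDA) hAcard
    (by rw [hψmap, natDegree_map]; exact hdegn)
    (by
      rw [coeff_map]
      have h2 : q (ι (D.coeff n)) = ψ (IsLocalRing.residue R (D.coeff n)) := rfl
      rw [h2, Ne, map_eq_zero, IsLocalRing.residue_eq_zero_iff]
      exact hlc3)
    (by rw [hιmap]; exact hgS)
    (by
      rw [← Polynomial.map_comp, hψmap, Polynomial.map_comp]
      exact hsep.map)
    (fun σ _ x => by rw [hιmap]; exact hσev σ g x)
    (fun σ _ x => by rw [hιmap]; exact hσev σ D x)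
    (fun σ _ hσ => hgen σ hσ)
    (by rw [hιmap]; exact hSA)
  rw [hιmap] at h
  refine ⟨α₀, hα₀, (Set.toFinite ((P.inertia (K ≃ₐ[k] K) : Subgroup (K ≃ₐ[k] K)) :
    Set (K ≃ₐ[k] K))).toFinset, fun x hx y hy hxα hyα => ?_, fun σ hσ b hb hb' => ?_⟩
  · obtain ⟨σ, hσ, h1, h2⟩ := h.1 x hx y hy hxα hyα
    refine ⟨σ, (Set.Finite.mem_toFinset _).mpr hσ, h1, fun τ hτ hτy => ?_⟩
    exact h2 τ ((Set.Finite.mem_toFinset _).mp hτ) hτy
  · exact h.2 σ ((Set.Finite.mem_toFinset _).mp hσ) b hb hb'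

end Main

end Pool.Agent.Lib.MP_89bcae_ag

end

section

/-!
Simply transitive finite sets of automorphisms on the fibre over any root of `D`.
-/

open Polynomial WithZero

open scoped Classical Pointwise

set_option linter.unusedSimpArgs false
set_option linter.unusedVariables false
set_option linter.unusedSectionVars false
set_option linter.style.haveILetI false

namespace Pool.Agent.Lib.MP_89bcae_ag

theorem exists_simply_transitive (R k F : Type*) [CommRing R] [IsDomain R]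
    [IsDiscreteValuationRing R] [Field k] [Algebra R k]
    [IsFractionRing R k] [Field F] [Algebra k F] [IsAlgClosure k F] {g D : R[X]} (hg : g.Monic)
    (hgm : (g.natDegree : IsLocalRing.ResidueField R) ≠ 0) {n : ℕ} (hn : D.natDegree = n + 1)
    (h1 : D.leadingCoeff ∈ IsLocalRing.maximalIdeal R)
    (h2 : D.leadingCoeff ∉ IsLocalRing.maximalIdeal R ^ 2)
    (h3 : D.coeff n ∉ IsLocalRing.maximalIdeal R)
    (hsepκ : ((D.map (IsLocalRing.residue R)).comp (g.map (IsLocalRing.residue R))).Separable)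
    (hsep : ((D.comp g).map (algebraMap R k)).Separable)
    (hX : IsPairTransitive7 k F X (D.map (algebraMap R k))) (α : F)
    (hα : aeval α (D.map (algebraMap R k)) = 0) :
    ∃ J : Finset (F ≃ₐ[k] F),
      (∀ x y : F, aeval x (g.map (algebraMap R k)) = α → aeval y (g.map (algebraMap R k)) = α →
        ∃ σ ∈ J, σ x = y ∧ ∀ τ ∈ J, τ x = y → τ = σ) ∧
      ∀ σ ∈ J, ∀ b : F,
        aeval b ((D.map (algebraMap R k)).comp (g.map (algebraMap R k))) = 0 →
          aeval b (g.map (algebraMap R k)) ≠ α → σ b = b := by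
  have hgdeg : g.natDegree ≠ 0 := by
    intro h
    rw [h, Nat.cast_zero] at hgm
    exact hgm rfl
  have hF : IsAlgClosed F := IsAlgClosure.isAlgClosed k
  have hkF : Algebra.IsAlgebraic k F := IsAlgClosure.isAlgebraic
  letI : Algebra R F := ((algebraMap k F).comp (algebraMap R k)).toAlgebra
  haveI : IsScalarTower R k F := IsScalarTower.of_algebraMap_eq fun _ => rfl
  have hinjk : Function.Injective (algebraMap R k) := IsFractionRing.injective R k
  have hinjF : Function.Injective (algebraMap R F) := (algebraMap k F).injective.comp hinjk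
  have hmapF : ∀ p : R[X], (p.map (algebraMap R k)).map (algebraMap k F) =
      p.map (algebraMap R F) := fun p => by rw [Polynomial.map_map]; rfl
  have hlcF' : (D.map (algebraMap R F)).leadingCoeff = algebraMap R F D.leadingCoeff :=
    leadingCoeff_map_of_injective hinjF D
  have hcompF : (D.map (algebraMap R F)).comp (g.map (algebraMap R F)) =
      ((D.comp g).map (algebraMap R k)).map (algebraMap k F) := by
    rw [hmapF, Polynomial.map_comp]
  have hsepF : ((D.map (algebraMap R F)).comp (g.map (algebraMap R F))).Separable := by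
    rw [hcompF]; exact hsep.map
  have hgF : (g.map (algebraMap R F)).natDegree ≠ 0 := by rwa [hg.natDegree_map]
  have hsepD : (D.map (algebraMap R F)).Separable := separable_left7 hgF hsepF
  set gF := g.map (algebraMap R F) with hgFdef
  set DF := D.map (algebraMap R F) with hDFdef
  set S : Finset F := (DF.comp gF).roots.toFinset with hS
  set A : Finset F := DF.roots.toFinset with hA
  have hmemS : ∀ b, b ∈ S ↔ DF.eval (gF.eval b) = 0 := by
    intro b
    rw [hS, Multiset.mem_toFinset, mem_roots hsepF.ne_zero, IsRoot.def, eval_comp]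
  have hmemA : ∀ α, α ∈ A ↔ DF.eval α = 0 := by
    intro α
    rw [hA, Multiset.mem_toFinset, mem_roots hsepD.ne_zero, IsRoot.def]
  have hSA : ∀ b ∈ S, gF.eval b ∈ A := fun b hb => (hmemA _).mpr ((hmemS b).mp hb)
  have hDA : DF = C (algebraMap R F D.leadingCoeff) * ∏ α ∈ A, (X - C α) := by
    rw [← hlcF']
    exact eq_prod_roots7 hsepD
  have hgS : ∀ α ∈ A, gF - C α = ∏ b ∈ S.filter (fun b => gF.eval b = α), (X - C b) := by
    intro α hα
    have h1 : (gF - C α) ∣ DF.comp gF := by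
      obtain ⟨w, hw⟩ := dvd_iff_isRoot.mpr ((hmemA α).mp hα)
      refine ⟨w.comp gF, ?_⟩
      rw [hw, mul_comp, sub_comp, X_comp, C_comp]
    have h3 := eq_prod_roots7 (hsepF.of_dvd h1)
    have h4 : (gF - C α).Monic := by
      have h5 : (C α).degree < gF.degree := by
        rw [degree_eq_natDegree (p := gF) (fun h => hgF (by rw [h, natDegree_zero]))]
        exact (degree_C_le).trans_lt (by exact_mod_cast Nat.pos_of_ne_zero hgF)
      exact (hg.map _).sub_of_left h5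
    rw [h4.leadingCoeff, C_1, one_mul] at h3
    rw [h3]
    congr 1
    ext b
    rw [Finset.mem_filter, Multiset.mem_toFinset, mem_roots h4.ne_zero, IsRoot.def, eval_sub,
      eval_C, sub_eq_zero, hmemS]
    constructor
    · exact fun h => ⟨by rw [h]; exact (hmemA α).mp hα, h⟩
    · exact fun h => h.2
  have hAS : ∀ α ∈ A, ∃ b ∈ S, gF.eval b = α := by
    intro α hα
    have h1 : (gF - C α).degree ≠ 0 := by
      intro h4
      have h3 : (gF - C α).natDegree = gF.natDegree := natDegree_sub_C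
      rw [natDegree_eq_of_degree_eq_some h4] at h3
      exact hgF h3.symm
    obtain ⟨b, hb⟩ := IsAlgClosed.exists_root _ h1
    rw [IsRoot.def, eval_sub, eval_C, sub_eq_zero] at hb
    exact ⟨b, (hmemS b).mpr (by rw [hb]; exact (hmemA α).mp hα), hb⟩
  have hSroot : (S : Set F) = ((D.comp g).map (algebraMap R k)).rootSet F := by
    rw [rootSet, hS, hcompF, aroots]
  obtain ⟨hfin, hgal⟩ := galois7 (F := F) hsep
  obtain ⟨K, hK⟩ : ∃ K, K = IntermediateField.adjoin k (S : Set F) := ⟨_, rfl⟩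
  haveI : FiniteDimensional k K := by rw [hK, hSroot]; exact hfin
  haveI : IsGalois k K := by rw [hK, hSroot]; exact hgal
  have hSK : ∀ b ∈ S, b ∈ K := by
    intro b hb
    rw [hK]
    exact IntermediateField.subset_adjoin _ _ hb
  have hRK : ∀ r : R, algebraMap R F r ∈ K := by
    intro r
    rw [IsScalarTower.algebraMap_apply R k F]
    exact K.algebraMap_mem _
  have hgK : ∀ b ∈ K, gF.eval b ∈ K := by
    intro b hb
    rw [hgFdef, eval_map, eval₂_eq_sum_range]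
    exact K.sum_mem fun i _ => K.mul_mem (hRK _) (pow_mem hb i)
  have hAK : ∀ α ∈ A, α ∈ K := by
    intro α hα
    obtain ⟨b, hb, rfl⟩ := hAS α hα
    exact hgK b (hSK b hb)
  have hcomp : (algebraMap K F).comp (algebraMap R K) = algebraMap R F := RingHom.ext fun r => rfl
  have hinj : Function.Injective (Polynomial.map (algebraMap K F)) :=
    Polynomial.map_injective _ (algebraMap K F).injective
  have hev : ∀ b : K, (((g.map (algebraMap R K)).eval b : K) : F) = gF.eval (b : F) := by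
    intro b
    rw [hgFdef, ← hcomp, ← Polynomial.map_map, eval_map (algebraMap K F)]
    exact (eval₂_at_apply (algebraMap K F) b).symm
  obtain ⟨α₀, hα₀, J, hJ1, hJ2⟩ := exists_cycleT (k := k) (K := K) hg hgm hn h1 h2 h3 hsepκ
    (S.subtype (· ∈ K)) (A.subtype (· ∈ K)) (by
      apply hinj
      rw [Polynomial.map_map, hcomp, ← hDFdef, hDA, Polynomial.map_mul, map_C, Polynomial.map_prod]
      congr 1
      have h1 := prod_subtype7 (· ∈ K) A hAK (fun _ => True) (fun _ => True) (fun _ => Iff.rfl)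
        (fun b => (X - C b : F[X]))
      rw [Finset.filter_true, Finset.filter_true] at h1
      rw [← h1]
      refine Finset.prod_congr rfl fun b _ => ?_
      rw [Polynomial.map_sub, map_X, map_C]
      rfl) (by
      intro α hα
      apply hinj
      rw [Polynomial.map_sub, Polynomial.map_map, hcomp, map_C, Polynomial.map_prod]
      rw [Finset.mem_subtype] at hα
      have h1 := prod_subtype7 (· ∈ K) S hSK (fun b => (g.map (algebraMap R K)).eval b = α)
        (fun b => gF.eval b = (α : F))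
        (fun b => by rw [← hev, Subtype.coe_inj]) (fun b => (X - C b : F[X]))
      refine (hgS α hα).trans (h1.symm.trans ?_)
      refine Finset.prod_congr rfl fun b _ => ?_
      rw [Polynomial.map_sub, map_X, map_C]
      rfl) (by
      intro b hb
      rw [Finset.mem_subtype] at hb ⊢
      rw [hev]
      exact hSA b hb) (by
      intro σ hσ
      subst hK
      ext x
      have h1 : (σ : _ ≃ₐ[k] _).toAlgHom = AlgHom.id k _ := by
        apply IntermediateField.algHom_ext_of_eq_adjoin _ rfl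
        intro y hy
        exact hσ ⟨y, IntermediateField.subset_adjoin _ _ hy⟩ (Finset.mem_subtype.mpr hy)
      exact congrArg Subtype.val (congrArg (fun f => f x) h1))
  rw [Finset.mem_subtype] at hα₀
  have heva : ∀ b : F, aeval b (g.map (algebraMap R k)) = gF.eval b := by
    intro b
    rw [← eval_map_algebraMap, hmapF]
  have hevD : ∀ b : F, aeval b (D.map (algebraMap R k)) = DF.eval b := by
    intro b
    rw [← eval_map_algebraMap, hmapF]
  -- the lifts
  choose lft hlft using fun σ : K ≃ₐ[k] K =>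
    AlgEquiv.restrictNormalHom_surjective (F := k) (K₁ := K) F σ
  have hτK : ∀ (σ : K ≃ₐ[k] K) (z : K), lft σ z = (σ z : K) := by
    intro σ z
    have h := (AlgEquiv.restrictNormal_commutes (lft σ) K z).symm
    have h' : (lft σ).restrictNormal K = σ := hlft σ
    rw [h'] at h
    exact h
  have hcmp : (D.map (algebraMap R k)).comp (g.map (algebraMap R k)) =
      (D.comp g).map (algebraMap R k) := (Polynomial.map_comp _ _ _).symm
  -- the statement for `α₀`
  have key1 : ∀ x y : F, aeval x (g.map (algebraMap R k)) = (α₀ : F) →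
      aeval y (g.map (algebraMap R k)) = (α₀ : F) →
        ∃ σ ∈ J.image lft, σ x = y ∧ ∀ τ ∈ J.image lft, τ x = y → τ = σ := by
    intro x y hx hy
    rw [heva] at hx hy
    have hxS : x ∈ S := (hmemS x).mpr (by rw [hx]; exact (hmemA _).mp hα₀)
    have hyS : y ∈ S := (hmemS y).mpr (by rw [hy]; exact (hmemA _).mp hα₀)
    obtain ⟨σ, hσJ, hσ, huni⟩ := hJ1 ⟨x, hSK x hxS⟩ (Finset.mem_subtype.mpr hxS) ⟨y, hSK y hyS⟩
      (Finset.mem_subtype.mpr hyS) (Subtype.ext (by rw [hev]; exact hx))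
      (Subtype.ext (by rw [hev]; exact hy))
    refine ⟨lft σ, Finset.mem_image_of_mem _ hσJ, ?_, ?_⟩
    · have h4 := hτK σ ⟨x, hSK x hxS⟩
      rw [hσ] at h4
      exact h4
    · intro τ hτ hτx
      obtain ⟨σ', hσ'J, rfl⟩ := Finset.mem_image.mp hτ
      have h4 := hτK σ' ⟨x, hSK x hxS⟩
      have h5 : σ' ⟨x, hSK x hxS⟩ = ⟨y, hSK y hyS⟩ := by
        apply Subtype.ext
        rw [← h4]
        exact hτx
      rw [huni σ' hσ'J h5]
  have key2 : ∀ σ ∈ J.image lft, ∀ b : F,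
      aeval b ((D.map (algebraMap R k)).comp (g.map (algebraMap R k))) = 0 →
        aeval b (g.map (algebraMap R k)) ≠ (α₀ : F) → σ b = b := by
    intro τ hτ b hb hne
    obtain ⟨σ, hσJ, rfl⟩ := Finset.mem_image.mp hτ
    rw [aeval_comp, heva, hevD] at hb
    have hbS : b ∈ S := (hmemS b).mpr hb
    have h4 := hτK σ ⟨b, hSK b hbS⟩
    rw [hJ2 σ hσJ ⟨b, hSK b hbS⟩ (Finset.mem_subtype.mpr hbS) ?_] at h4
    · exact h4
    · intro h5
      apply hne
      rw [heva, ← hev ⟨b, hSK b hbS⟩, h5]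
  -- the general fibre
  have hρ : ∃ ρ : F ≃ₐ[k] F, ρ (α₀ : F) = α := by
    by_cases hc : (α₀ : F) = α
    · exact ⟨AlgEquiv.refl, hc⟩
    · have hα₀r : aeval (α₀ : F) (D.map (algebraMap R k)) = 0 := by
        rw [hevD]; exact (hmemA _).mp hα₀
      obtain ⟨ρ, h, -⟩ := hX (α₀ : F) α α (α₀ : F) (by simpa using hα₀r) (by simpa using hα)
        (by simpa using hα) (by simpa using hα₀r) (by simpa using hc)
        (by simpa using Ne.symm hc)
      exact ⟨ρ, h⟩
  obtain ⟨ρ, hρ⟩ := hρ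
  have hσev : ∀ (σ : F ≃ₐ[k] F) (p : k[X]) (x : F), aeval (σ x) p = σ (aeval x p) := fun σ p x =>
    Polynomial.aeval_algHom_apply σ x p
  have hρ' : ρ.symm α = (α₀ : F) := by rw [← hρ, AlgEquiv.symm_apply_apply]
  refine ⟨(J.image lft).image fun σ => (ρ.symm.trans σ).trans ρ, ?_, ?_⟩
  · intro x y hx hy
    obtain ⟨σ, hσJ, hσ, huni⟩ := key1 (ρ.symm x) (ρ.symm y) (by rw [hσev, hx, hρ'])
      (by rw [hσev, hy, hρ'])
    refine ⟨(ρ.symm.trans σ).trans ρ, Finset.mem_image_of_mem _ hσJ, ?_, ?_⟩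
    · change ρ (σ (ρ.symm x)) = y
      rw [hσ, AlgEquiv.apply_symm_apply]
    · intro τ hτ hτx
      obtain ⟨σ', hσ'J, rfl⟩ := Finset.mem_image.mp hτ
      have h5 : ρ (σ' (ρ.symm x)) = y := hτx
      rw [huni σ' hσ'J (by rw [← h5, AlgEquiv.symm_apply_apply])]
  · intro τ hτ b hb hne
    obtain ⟨σ, hσJ, rfl⟩ := Finset.mem_image.mp hτ
    change ρ (σ (ρ.symm b)) = b
    rw [key2 σ hσJ (ρ.symm b) (by rw [hσev, hb, map_zero]) ?_, AlgEquiv.apply_symm_apply]
    intro h6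
    rw [hσev] at h6
    apply hne
    rw [← hρ, ← h6, AlgEquiv.apply_symm_apply]

end Pool.Agent.Lib.MP_89bcae_ag

end

section

/-!
The symbol of an automorphism of `F` with respect to a root of unity.
-/

open Polynomial

open scoped Classical

namespace Pool.Agent.Lib.MP_89bcae_ag.Sup

universe u

/-- The symbol: `U x = ζ ^ κ(z) x` for `x ^ ℓ = z`. -/
noncomputable def kap {F : Type u} [Field F] (ℓ : ℕ) (ζ : F) (U : F → F) (z : F) : ZMod ℓ :=
  if h : ∃ i : ZMod ℓ, ∀ x : F, x ^ ℓ = z → U x = ζ ^ i.val * x then h.choose else 0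

section

variable {ℓ : ℕ} {k F : Type u} [Field k] [Field F] [Algebra k F]

/-- The sum over the other fibres. -/
noncomputable def sumO (g E : k[X]) (kp e : F → ZMod ℓ) (β : F) : ZMod ℓ :=
  ∑ β' ∈ (RR F g E).filter (fun β' => aeval β' g ≠ aeval β g), kp (β - β') * (e β - e β')

/-- The sum over the same fibre. -/
noncomputable def sumS (g E : k[X]) (kp e : F → ZMod ℓ) (β : F) : ZMod ℓ :=
  ∑ β' ∈ (RR F g E).filter (fun β' => aeval β' g = aeval β g), kp (β - β') * (e β - e β')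

/-- The separation condition for the symbol `kp`, with weight `μ` for the pairs in the same fibre, on the
fibres over `B`. -/
def SepU (g E : k[X]) (kp : F → ZMod ℓ) (μ : ZMod ℓ) (B : Set F) : Prop :=
  ∀ (e : F → ZMod ℓ) (n : ZMod ℓ) (cst : F → ZMod ℓ),
    (∀ β ∈ RR F g E,
      ∑ β' ∈ (RR F g E).filter (fun β' => aeval β' g = aeval β g), e β' = 0) →
    (∀ β ∈ RR F g E, aeval β g ∈ B →
      sumO g E kp e β + μ * sumS g E kp e β + n * e β = cst (aeval β g)) →
    ∀ β ∈ RR F g E, aeval β g ∈ B → e β = 0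

end

section

variable {F : Type u} [Field F] [IsAlgClosed F] {ℓ : ℕ} {ζ : F} (U : F ≃+* F)

lemma tk01_ex (hℓ : ℓ.Prime) (hζ : IsPrimitiveRoot ζ ℓ) (hU : U ζ = ζ) {z : F} (hz0 : z ≠ 0)
    (hz : U z = z) : ∃ i : ZMod ℓ, ∀ x : F, x ^ ℓ = z → U x = ζ ^ i.val * x := by
  have : NeZero ℓ := ⟨hℓ.ne_zero⟩
  obtain ⟨x, hx⟩ := IsAlgClosed.exists_pow_nat_eq z hℓ.pos
  have hx0 : x ≠ 0 := by
    intro h
    rw [h, zero_pow hℓ.ne_zero] at hx
    exact hz0 hx.symm
  have h1 : (U x / x) ^ ℓ = 1 := by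
    rw [div_pow, ← map_pow, hx, hz, div_self hz0]
  obtain ⟨i, hi, hi'⟩ := hζ.eq_pow_of_pow_eq_one h1
  have hUx : U x = ζ ^ i * x := by
    rw [hi', div_mul_cancel₀ _ hx0]
  refine ⟨(i : ZMod ℓ), fun y hy => ?_⟩
  rw [ZMod.val_cast_of_lt hi]
  have h2 : (y / x) ^ ℓ = 1 := by
    rw [div_pow, hx, hy, div_self hz0]
  obtain ⟨j, hj, hj'⟩ := hζ.eq_pow_of_pow_eq_one h2
  have hyx : y = ζ ^ j * x := by
    rw [hj', div_mul_cancel₀ _ hx0]
  rw [hyx, map_mul, map_pow, hU, hUx]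
  ring

lemma kap_spec (hℓ : ℓ.Prime) (hζ : IsPrimitiveRoot ζ ℓ) (hU : U ζ = ζ) {z : F} (hz0 : z ≠ 0)
    (hz : U z = z) {x : F} (hx : x ^ ℓ = z) : U x = ζ ^ (kap ℓ ζ U z).val * x := by
  have h := tk01_ex U hℓ hζ hU hz0 hz
  unfold kap
  rw [dif_pos h]
  exact h.choose_spec x hx

lemma kap_of (hℓ : ℓ.Prime) (hζ : IsPrimitiveRoot ζ ℓ) (hU : U ζ = ζ) {x : F} (hx : x ≠ 0)
    {n : ℤ} (h : U x = ζ ^ n * x) : kap ℓ ζ U (x ^ ℓ) = n := by
  have : NeZero ℓ := ⟨hℓ.ne_zero⟩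
  have hζ0 : ζ ≠ 0 := hζ.ne_zero hℓ.ne_zero
  have hz : U (x ^ ℓ) = x ^ ℓ := by
    have h1 : (ζ ^ n) ^ ℓ = 1 := by
      rw [← zpow_natCast, ← zpow_mul, mul_comm, zpow_mul, zpow_natCast, hζ.pow_eq_one, one_zpow]
    rw [map_pow, h, mul_pow, h1, one_mul]
  have h2 := kap_spec U hℓ hζ hU (pow_ne_zero ℓ hx) hz (rfl : x ^ ℓ = x ^ ℓ)
  rw [h] at h2
  have h3 : ζ ^ n = ζ ^ ((kap ℓ ζ U (x ^ ℓ)).val : ℤ) := by
    rw [zpow_natCast]
    exact mul_right_cancel₀ hx h2
  have h4 : ζ ^ (n - ((kap ℓ ζ U (x ^ ℓ)).val : ℤ)) = 1 := by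
    rw [zpow_sub₀ hζ0, h3, div_self]
    exact zpow_ne_zero _ hζ0
  have h5 : (ℓ : ℤ) ∣ n - ((kap ℓ ζ U (x ^ ℓ)).val : ℤ) := (hζ.zpow_eq_one_iff_dvd _).mp h4
  have h6 : ((n - ((kap ℓ ζ U (x ^ ℓ)).val : ℤ) : ℤ) : ZMod ℓ) = 0 :=
    (ZMod.intCast_zmod_eq_zero_iff_dvd _ _).mpr h5
  rw [Int.cast_sub, Int.cast_natCast, ZMod.natCast_zmod_val, sub_eq_zero] at h6
  exact h6.symm

lemma tk01_root {U : F ≃+* F} (hℓ : ℓ.Prime) (hζ : IsPrimitiveRoot ζ ℓ) (hU : U ζ = ζ) {z : F}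
    (hz0 : z ≠ 0) (hz : U z = z) : ∃ x : F, x ≠ 0 ∧ x ^ ℓ = z ∧
      U x = ζ ^ (((kap ℓ ζ U z).val : ℕ) : ℤ) * x := by
  obtain ⟨x, hx⟩ := IsAlgClosed.exists_pow_nat_eq z hℓ.pos
  refine ⟨x, ?_, hx, ?_⟩
  · intro h
    rw [h, zero_pow hℓ.ne_zero] at hx
    exact hz0 hx.symm
  · rw [zpow_natCast]
    exact kap_spec U hℓ hζ hU hz0 hz hx

lemma kap_mul (hℓ : ℓ.Prime) (hζ : IsPrimitiveRoot ζ ℓ) (hU : U ζ = ζ) {z z' : F}
    (hz0 : z ≠ 0) (hz0' : z' ≠ 0) (hz : U z = z) (hz' : U z' = z') :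
    kap ℓ ζ U (z * z') = kap ℓ ζ U z + kap ℓ ζ U z' := by
  have : NeZero ℓ := ⟨hℓ.ne_zero⟩
  have hζ0 : ζ ≠ 0 := hζ.ne_zero hℓ.ne_zero
  obtain ⟨x, hx0, hx, hUx⟩ := tk01_root hℓ hζ hU hz0 hz
  obtain ⟨y, hy0, hy, hUy⟩ := tk01_root hℓ hζ hU hz0' hz'
  have h := kap_of U hℓ hζ hU (mul_ne_zero hx0 hy0)
    (n := ((kap ℓ ζ U z).val : ℤ) + ((kap ℓ ζ U z').val : ℤ)) (by
      rw [map_mul, hUx, hUy, zpow_add₀ hζ0]
      ring)
  rw [mul_pow, hx, hy, Int.cast_add, Int.cast_natCast, Int.cast_natCast, ZMod.natCast_zmod_val,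
    ZMod.natCast_zmod_val] at h
  exact h

lemma kap_zpow (hℓ : ℓ.Prime) (hζ : IsPrimitiveRoot ζ ℓ) (hU : U ζ = ζ) {z : F}
    (hz0 : z ≠ 0) (hz : U z = z) (n : ℤ) : kap ℓ ζ U (z ^ n) = n * kap ℓ ζ U z := by
  have : NeZero ℓ := ⟨hℓ.ne_zero⟩
  obtain ⟨x, hx0, hx, hUx⟩ := tk01_root hℓ hζ hU hz0 hz
  have h := kap_of U hℓ hζ hU (zpow_ne_zero n hx0) (n := ((kap ℓ ζ U z).val : ℤ) * n) (by
      rw [map_zpow₀, hUx, mul_zpow, ← zpow_mul])
  have h1 : (x ^ n) ^ ℓ = z ^ n := by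
    rw [← hx, ← zpow_natCast, ← zpow_natCast, ← zpow_mul, ← zpow_mul, mul_comm]
  rw [h1, Int.cast_mul, Int.cast_natCast, ZMod.natCast_zmod_val, mul_comm] at h
  exact h

lemma tk01_one (hℓ : ℓ.Prime) (hζ : IsPrimitiveRoot ζ ℓ) (hU : U ζ = ζ) : kap ℓ ζ U 1 = 0 := by
  have h := kap_of U hℓ hζ hU (one_ne_zero) (n := 0) (by rw [map_one, zpow_zero, one_mul])
  rw [one_pow, Int.cast_zero] at h
  exact h

lemma kap_prod (hℓ : ℓ.Prime) (hζ : IsPrimitiveRoot ζ ℓ) (hU : U ζ = ζ) {ι : Type*}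
    (S : Finset ι) (z : ι → F) (hz0 : ∀ i ∈ S, z i ≠ 0) (hz : ∀ i ∈ S, U (z i) = z i) :
    kap ℓ ζ U (∏ i ∈ S, z i) = ∑ i ∈ S, kap ℓ ζ U (z i) := by
  induction S using Finset.induction_on with
  | empty => simpa using tk01_one U hℓ hζ hU
  | insert a S ha ih =>
    rw [Finset.prod_insert ha, Finset.sum_insert ha]
    have h0 : ∀ i ∈ S, z i ≠ 0 := fun i hi => hz0 i (Finset.mem_insert_of_mem hi)
    have h1 : ∀ i ∈ S, U (z i) = z i := fun i hi => hz i (Finset.mem_insert_of_mem hi)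
    rw [kap_mul U hℓ hζ hU (hz0 a (Finset.mem_insert_self a S)) (Finset.prod_ne_zero_iff.mpr h0)
      (hz a (Finset.mem_insert_self a S)) (by rw [map_prod]; exact Finset.prod_congr rfl h1),
      ih h0 h1]

lemma kap_eq_zero (hℓ : ℓ.Prime) (hζ : IsPrimitiveRoot ζ ℓ) (hU : U ζ = ζ) {z : F}
    (hz0 : z ≠ 0) (h : ∀ x, x ^ ℓ = z → U x = x) : kap ℓ ζ U z = 0 := by
  obtain ⟨x, hx⟩ := IsAlgClosed.exists_pow_nat_eq z hℓ.pos
  have hx0 : x ≠ 0 := by
    intro h
    rw [h, zero_pow hℓ.ne_zero] at hx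
    exact hz0 hx.symm
  have h1 := kap_of U hℓ hζ hU hx0 (n := 0) (by rw [zpow_zero, one_mul]; exact h x hx)
  rw [hx, Int.cast_zero] at h1
  exact h1

end

end Pool.Agent.Lib.MP_89bcae_ag.Sup

end

section

/-!
# Definitions for the density theorem
-/

open Polynomial

open scoped Classical

namespace Pool.Agent.Lib.MP_89bcae_ag.Sup

universe u

/-- The function `o` is a homomorphism on `K`, zero on the differences of elements of `S`, except for
the pairs matched by the bijection `M` between the fibres of `p` over `α` and `α'`. -/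
structure MOrd {F : Type u} [Field F] (K : Subfield F) (S : Finset F) (p : F → F) (α α' : F)
    (M : F → F) (o : F → ℤ) : Prop where
  mul : ∀ a ∈ K, ∀ b ∈ K, a ≠ 0 → b ≠ 0 → o (a * b) = o a + o b
  same : ∀ β ∈ S, ∀ β' ∈ S, β ≠ β' → p β = p β' → o (β - β') = 0
  out : ∀ β ∈ S, ∀ β' ∈ S, p β ≠ p β' → ¬ (p β = α ∧ p β' = α') →
    ¬ (p β = α' ∧ p β' = α) → o (β - β') = 0
  mem : ∀ β ∈ S, p β = α → M β ∈ S ∧ p (M β) = α'
  inj : ∀ β ∈ S, ∀ β' ∈ S, p β = α → p β' = α → M β = M β' → β = β'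
  surj : ∀ β' ∈ S, p β' = α' → ∃ β ∈ S, p β = α ∧ M β = β'
  left : ∀ β ∈ S, p β = α → ∀ β' ∈ S, p β' = α' → o (β - β') = if β' = M β then 1 else 0

/-- The values of the symbol on the differences: the matching `M` between the fibres over `α` and `α'`,
the constant `c` between the fibres over `α` and `α''`. -/
structure KpOk {F : Type u} [Field F] {ℓ : ℕ} (S : Finset F) (p : F → F) (α α' α'' : F)
    (M : F → F) (c : ZMod ℓ) (kp : F → ZMod ℓ) : Prop where
  mem : ∀ β ∈ S, p β = α → M β ∈ S ∧ p (M β) = α'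
  inj : ∀ β ∈ S, ∀ β' ∈ S, p β = α → p β' = α → M β = M β' → β = β'
  surj : ∀ β' ∈ S, p β' = α' → ∃ β ∈ S, p β = α ∧ M β = β'
  same : ∀ β ∈ S, ∀ β' ∈ S, β ≠ β' → p β = p β' → kp (β - β') = 0
  ab : ∀ β ∈ S, p β = α → ∀ β' ∈ S, p β' = α' → kp (β - β') = if β' = M β then 1 else 0
  ba : ∀ β ∈ S, p β = α' → ∀ β' ∈ S, p β' = α → kp (β - β') = if β = M β' then 1 else 0
  ac : ∀ β ∈ S, p β = α → ∀ β' ∈ S, p β' = α'' → kp (β - β') = c
  ao : ∀ β ∈ S, p β = α → ∀ β' ∈ S, p β' ≠ α → p β' ≠ α' → p β' ≠ α'' → kp (β - β') = 0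
  bo : ∀ β ∈ S, p β = α' → ∀ β' ∈ S, p β' ≠ α' → p β' ≠ α → kp (β - β') = 0

/-- The criterion for all towers. -/
structure CRall (ℓ : ℕ) {k F : Type u} [Field k] [Field F] [Algebra k F] (g E : k[X]) (ζ : k)
    (U : F ≃ₐ[k] F) (B : Set F) : Prop where
  fix : ∀ β ∈ RR F g E, U β = β
  neg : ∀ x : F, x ^ ℓ = -1 → U x = x
  sep : ∀ μ : ZMod ℓ, SepU g E (kap ℓ (algebraMap k F ζ) U) μ B

end Pool.Agent.Lib.MP_89bcae_ag.Sup

end

section

/-!
Kummer duality: automorphisms with prescribed symbols.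
-/

open Polynomial

open scoped Classical

set_option linter.unusedSectionVars false
set_option linter.unusedVariables false

namespace Pool.Agent.Lib.MP_89bcae_ag.Sup

universe u

theorem te04_lam_one {k F : Type u} [Field k] [Field F] [Algebra k F] {ℓ : ℕ}
    (K : IntermediateField k F) (lam : F → ZMod ℓ)
    (hmul : ∀ x ∈ K, ∀ y ∈ K, x ≠ 0 → y ≠ 0 → lam (x * y) = lam x + lam y) : lam 1 = 0 := by
  have h := hmul 1 K.one_mem 1 K.one_mem one_ne_zero one_ne_zero
  rw [mul_one] at h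
  exact left_eq_add.1 h

theorem te04_lam_pow {k F : Type u} [Field k] [Field F] [Algebra k F] {ℓ : ℕ}
    (K : IntermediateField k F) (lam : F → ZMod ℓ)
    (hmul : ∀ x ∈ K, ∀ y ∈ K, x ≠ 0 → y ≠ 0 → lam (x * y) = lam x + lam y) {x : F} (hx : x ∈ K)
    (hx0 : x ≠ 0) (n : ℕ) : lam (x ^ n) = n * lam x := by
  induction n with
  | zero => simp [te04_lam_one K lam hmul]
  | succ n ih =>
    rw [pow_succ, hmul _ (pow_mem hx n) _ hx (pow_ne_zero _ hx0) hx0, ih]
    push_cast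
    ring

theorem te04_lam_prod {k F : Type u} [Field k] [Field F] [Algebra k F] {ℓ : ℕ}
    (K : IntermediateField k F) (lam : F → ZMod ℓ)
    (hmul : ∀ x ∈ K, ∀ y ∈ K, x ≠ 0 → y ≠ 0 → lam (x * y) = lam x + lam y) {ι : Type*}
    (S : Finset ι) (z : ι → F) (hz : ∀ i ∈ S, z i ∈ K) (hz0 : ∀ i ∈ S, z i ≠ 0) :
    lam (∏ i ∈ S, z i) = ∑ i ∈ S, lam (z i) := by
  classical
  induction S using Finset.induction_on with
  | empty => simp [te04_lam_one K lam hmul]
  | insert a S ha ih =>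
    rw [Finset.prod_insert ha, Finset.sum_insert ha,
      hmul _ (hz a (Finset.mem_insert_self a S)) _
        (K.prod_mem fun i hi => hz i (Finset.mem_insert_of_mem hi))
        (hz0 a (Finset.mem_insert_self a S))
        (Finset.prod_ne_zero_iff.2 fun i hi => hz0 i (Finset.mem_insert_of_mem hi)),
      ih (fun i hi => hz i (Finset.mem_insert_of_mem hi))
        (fun i hi => hz0 i (Finset.mem_insert_of_mem hi))]

/-- The symbols of a product of two automorphisms. -/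
theorem te04_kap_comp {k F : Type u} [Field k] [Field F] [Algebra k F] [IsAlgClosed F]
    {ℓ : ℕ} (hℓ : ℓ.Prime) {ζ : k} (hζ : IsPrimitiveRoot ζ ℓ) (U V : F ≃ₐ[k] F) {z : F}
    (hz0 : z ≠ 0) (hU : U z = z) (hV : V z = z) :
    kap ℓ (algebraMap k F ζ) (U.trans V) z =
      kap ℓ (algebraMap k F ζ) U z + kap ℓ (algebraMap k F ζ) V z := by
  have : NeZero ℓ := ⟨hℓ.ne_zero⟩
  have hζF : IsPrimitiveRoot (algebraMap k F ζ) ℓ :=
    hζ.map_of_injective (algebraMap k F).injective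
  obtain ⟨x, hx⟩ := IsAlgClosed.exists_pow_nat_eq z hℓ.pos
  have hx0 : x ≠ 0 := by
    rintro rfl
    rw [zero_pow hℓ.ne_zero] at hx
    exact hz0 hx.symm
  have h1 := kap_spec U.toRingEquiv hℓ hζF (by simp) hz0 hU hx
  have h2 := kap_spec V.toRingEquiv hℓ hζF (by simp) hz0 hV hx
  have h3 : (U.trans V).toRingEquiv x = (algebraMap k F ζ) ^
      (((kap ℓ (algebraMap k F ζ) U z).val + (kap ℓ (algebraMap k F ζ) V z).val : ℕ) : ℤ) * x := by
    rw [zpow_natCast, pow_add]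
    show V (U x) = _
    have h1' : U x = (algebraMap k F ζ) ^ (kap ℓ (algebraMap k F ζ) U z).val * x := h1
    have h2' : V x = (algebraMap k F ζ) ^ (kap ℓ (algebraMap k F ζ) V z).val * x := h2
    rw [h1', map_mul, map_pow, V.commutes, h2']
    ring
  have h4 := kap_of (U.trans V).toRingEquiv hℓ hζF (by simp) hx0 h3
  rw [hx] at h4
  have h5 : kap ℓ (algebraMap k F ζ) (U.trans V) z =
    ((((kap ℓ (algebraMap k F ζ) U z).val + (kap ℓ (algebraMap k F ζ) V z).val : ℕ) : ℤ) : ZMod ℓ) := h4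
  rw [h5]
  push_cast
  rw [ZMod.natCast_zmod_val, ZMod.natCast_zmod_val]

theorem te04_kap_id {k F : Type u} [Field k] [Field F] [Algebra k F] [IsAlgClosed F]
    {ℓ : ℕ} (hℓ : ℓ.Prime) {ζ : k} (hζ : IsPrimitiveRoot ζ ℓ) {z : F}
    (hz0 : z ≠ 0) : kap ℓ (algebraMap k F ζ) (AlgEquiv.refl : F ≃ₐ[k] F) z = 0 := by
  have hζF : IsPrimitiveRoot (algebraMap k F ζ) ℓ :=
    hζ.map_of_injective (algebraMap k F).injective
  exact kap_eq_zero (AlgEquiv.refl : F ≃ₐ[k] F).toRingEquiv hℓ hζF (by simp) hz0 (fun x _ => rfl)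

theorem te04_fixed {k F : Type u} [Field k] [Field F] [Algebra k F] [IsAlgClosed F]
    [Algebra.IsAlgebraic k F] {ℓ : ℕ} (hℓ : ℓ.Prime) (hne : (ℓ : k) ≠ 0)
    (K : IntermediateField k F) {y z : F} (hz : z ∈ K) (hz0 : z ≠ 0) (hy : y ^ ℓ = z)
    (hfix : ∀ U : F ≃ₐ[k] F, (∀ x ∈ K, U x = x) → U y = y) : y ∈ K := by
  have halg : Algebra.IsAlgebraic K F := Algebra.IsAlgebraic.tower_top (K := k) K
  have hneK : (ℓ : K) ≠ 0 := by
    intro h
    apply hne
    have h2 : algebraMap k K (ℓ : k) = 0 := by rw [map_natCast]; exact h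
    exact (map_eq_zero_iff _ (algebraMap k K).injective).1 h2
  have hsep : (X ^ ℓ - C (⟨z, hz⟩ : K)).Separable := by
    apply separable_X_pow_sub_C _ hneK
    intro h
    exact hz0 (congrArg Subtype.val h)
  have hroot : aeval y (X ^ ℓ - C (⟨z, hz⟩ : K)) = 0 := by
    rw [map_sub, map_pow, aeval_X, aeval_C, hy]
    exact sub_self _
  have hys : IsSeparable K y := hsep.of_dvd (minpoly.dvd K y hroot)
  by_contra hcon
  have hn : y ∉ (⊥ : Subalgebra K F) := by
    intro h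
    rw [Algebra.mem_bot] at h
    obtain ⟨w, hw⟩ := h
    apply hcon
    rw [← hw]
    exact w.2
  rw [notMem_iff_exists_ne_and_isConjRoot hys (IsAlgClosed.splits _)] at hn
  obtain ⟨y', hne', hconj⟩ := hn
  have hnorm : Normal K F := by
    have : IsAlgClosure K F := ⟨inferInstance, halg⟩
    exact IsAlgClosure.normal K F
  obtain ⟨σ, hσ⟩ := isConjRoot_iff_exists_algEquiv.1 hconj
  have h1 : (σ.symm : F ≃ₐ[K] F) y = y' := by
    rw [← hσ]; exact σ.symm_apply_apply y'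
  have h2 := hfix (σ.symm.restrictScalars k) (fun x hx => by
    have := σ.symm.commutes (⟨x, hx⟩ : K)
    exact this)
  apply hne'
  rw [← h1]
  exact h2.symm

theorem exists_U_of_lam {k F : Type u} [Field k] [Field F] [Algebra k F] [IsAlgClosed F]
    [Algebra.IsAlgebraic k F] {ℓ : ℕ} (hℓ : ℓ.Prime) (hne : (ℓ : k) ≠ 0) {ζ : k}
    (hζ : IsPrimitiveRoot ζ ℓ) (K : IntermediateField k F) (lam : F → ZMod ℓ)
    (hmul : ∀ x ∈ K, ∀ y ∈ K, x ≠ 0 → y ≠ 0 → lam (x * y) = lam x + lam y) (T : Finset F)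
    (hT : ∀ x ∈ T, x ∈ K ∧ x ≠ 0) :
    ∃ U : F ≃ₐ[k] F, (∀ x ∈ K, U x = x) ∧
      ∀ x ∈ T, kap ℓ (algebraMap k F ζ) U x = lam x := by
  classical
  have : NeZero ℓ := ⟨hℓ.ne_zero⟩
  have : Fact ℓ.Prime := ⟨hℓ⟩
  have hζF : IsPrimitiveRoot (algebraMap k F ζ) ℓ :=
    hζ.map_of_injective (algebraMap k F).injective
  let V : AddSubmonoid (T → ZMod ℓ) :=
    { carrier := {v | ∃ U : F ≃ₐ[k] F, (∀ x ∈ K, U x = x) ∧
        ∀ x : T, kap ℓ (algebraMap k F ζ) U x = v x}
      add_mem' := by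
        rintro v w ⟨U, hU, hUv⟩ ⟨U', hU', hUw⟩
        refine ⟨U.trans U', fun x hx => ?_, fun x => ?_⟩
        · show U' (U x) = x
          rw [hU x hx, hU' x hx]
        · rw [te04_kap_comp hℓ hζ U U' (hT x x.2).2 (hU _ (hT x x.2).1) (hU' _ (hT x x.2).1),
            hUv, hUw]
          rfl
      zero_mem' := ⟨AlgEquiv.refl, fun x _ => rfl, fun x => te04_kap_id hℓ hζ (hT x x.2).2⟩ }
  let W : Submodule (ZMod ℓ) (T → ZMod ℓ) :=
    { V with
      smul_mem' := by
        intro c v hv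
        have h : c • v = c.val • v := by
          ext i
          simp only [Pi.smul_apply, smul_eq_mul, nsmul_eq_mul]
          rw [ZMod.natCast_zmod_val]
        rw [h]
        exact V.nsmul_mem hv c.val }
  by_cases hlam : (fun x : T => lam x) ∈ W
  · obtain ⟨U, hU, hUv⟩ := hlam
    exact ⟨U, hU, fun x hx => hUv ⟨x, hx⟩⟩
  exfalso
  obtain ⟨φ, hφ, hφW⟩ := Submodule.exists_le_ker_of_notMem hlam
  let c : T → ℕ := fun x => (φ (Pi.single x 1)).val
  have hφv : ∀ v : T → ZMod ℓ, φ v = ∑ x : T, (c x : ZMod ℓ) * v x := by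
    intro v
    rw [LinearMap.pi_apply_eq_sum_univ φ v]
    apply Finset.sum_congr rfl
    intro x _
    have h1 : (c x : ZMod ℓ) = φ (Pi.single x 1) := ZMod.natCast_zmod_val _
    rw [h1, smul_eq_mul, mul_comm]
    congr 2
    ext i
    simp [Pi.single_apply, eq_comm]
  set z : F := ∏ x : T, (x : F) ^ c x with hzdef
  have hzK : z ∈ K := K.prod_mem fun x _ => pow_mem (hT x x.2).1 _
  have hz0 : z ≠ 0 := Finset.prod_ne_zero_iff.2 fun x _ => pow_ne_zero _ (hT x x.2).2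
  obtain ⟨y, hy⟩ := IsAlgClosed.exists_pow_nat_eq z hℓ.pos
  have hy0 : y ≠ 0 := by
    rintro rfl
    rw [zero_pow hℓ.ne_zero] at hy
    exact hz0 hy.symm
  have hfix : ∀ U : F ≃ₐ[k] F, (∀ x ∈ K, U x = x) → U y = y := by
    intro U hU
    have h1 := kap_prod U.toRingEquiv hℓ hζF (by simp) Finset.univ
      (fun x : T => (x : F) ^ c x) (fun x _ => pow_ne_zero _ (hT x x.2).2)
      (fun x _ => hU _ (pow_mem (hT x x.2).1 _))
    have h2 : ∀ x : T, kap ℓ (algebraMap k F ζ) U.toRingEquiv ((x : F) ^ c x) =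
        (c x : ZMod ℓ) * kap ℓ (algebraMap k F ζ) U x := by
      intro x
      have := kap_zpow U.toRingEquiv hℓ hζF (by simp) (hT x x.2).2 (hU _ (hT x x.2).1) (c x : ℤ)
      rw [zpow_natCast] at this
      rw [this]
      push_cast
      rfl
    have h3 : kap ℓ (algebraMap k F ζ) U.toRingEquiv z = 0 := by
      rw [hzdef, h1, Finset.sum_congr rfl fun x _ => h2 x]
      have h4 : (fun x : T => kap ℓ (algebraMap k F ζ) U x) ∈ W := ⟨U, hU, fun x => rfl⟩
      have h5 := hφW h4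
      rw [LinearMap.mem_ker, hφv] at h5
      exact h5
    have h6 := kap_spec U.toRingEquiv hℓ hζF (by simp) hz0 (hU z hzK) hy
    rw [h3, ZMod.val_zero, pow_zero, one_mul] at h6
    exact h6
  have hyK := te04_fixed hℓ hne K hzK hz0 hy hfix
  have h7 : lam z = 0 := by
    rw [← hy, te04_lam_pow K lam hmul hyK hy0, ZMod.natCast_self, zero_mul]
  have h8 : lam z = φ (fun x : T => lam x) := by
    rw [hφv, hzdef, te04_lam_prod K lam hmul Finset.univ (fun x : T => (x : F) ^ c x)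
      (fun x _ => pow_mem (hT x x.2).1 _) (fun x _ => pow_ne_zero _ (hT x x.2).2)]
    apply Finset.sum_congr rfl
    intro x _
    exact te04_lam_pow K lam hmul (hT x x.2).1 (hT x x.2).2 (c x)
  exact hφ (by rw [← h8]; exact h7)

end Pool.Agent.Lib.MP_89bcae_ag.Sup

end

section

open Polynomial

open scoped Classical

set_option linter.unusedSectionVars false

namespace Pool.Agent.Lib.MP_89bcae_ag.Sup

universe u

theorem exists_delta {ℓ : ℕ} [Fact ℓ.Prime] {m : ZMod ℓ} (hm : m ≠ 0) :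
    ∃ c : ZMod ℓ, ∀ z : ZMod ℓ, z * (z + m * c) ≠ 1 := by
  have h1 : ∃ δ : ZMod ℓ, ∀ z : ZMod ℓ, z ≠ 0 → z⁻¹ - z ≠ δ := by
    by_contra hcon
    push Not at hcon
    have h2 : (Finset.univ : Finset (ZMod ℓ)) ⊆
        (Finset.univ.filter fun z : ZMod ℓ => z ≠ 0).image fun z => z⁻¹ - z := by
      intro δ _
      obtain ⟨z, hz, hzδ⟩ := hcon δ
      exact Finset.mem_image.2 ⟨z, Finset.mem_filter.2 ⟨Finset.mem_univ _, hz⟩, hzδ⟩
    have h3 := (Finset.card_le_card h2).trans Finset.card_image_le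
    have h4 : (Finset.univ.filter fun z : ZMod ℓ => z ≠ 0).card <
        (Finset.univ : Finset (ZMod ℓ)).card := by
      refine Finset.card_lt_card ?_
      rw [Finset.filter_ssubset]
      exact ⟨0, Finset.mem_univ _, by simp⟩
    omega
  obtain ⟨δ, hδ⟩ := h1
  refine ⟨δ / m, fun z hz => ?_⟩
  rw [mul_div_cancel₀ _ hm] at hz
  have hz0 : z ≠ 0 := by
    rintro rfl
    rw [zero_mul] at hz
    exact zero_ne_one hz
  apply hδ z hz0
  have h5 : z⁻¹ * (z * (z + δ)) = z⁻¹ * 1 := by rw [hz]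
  rw [inv_mul_cancel_left₀ hz0, mul_one] at h5
  rw [← h5]
  ring

private lemma te05_S {F : Type u} [Field F] {ℓ : ℕ} {S : Finset F} {p : F → F} {α α' α'' : F}
    {M : F → F} {c : ZMod ℓ} {kp : F → ZMod ℓ} (h : KpOk S p α α' α'' M c kp) (e : F → ZMod ℓ)
    {β : F} (hβ : β ∈ S) :
    ∑ β' ∈ S.filter (fun β' => p β' = p β), kp (β - β') * (e β - e β') = 0 := by
  refine Finset.sum_eq_zero fun β' hβ' => ?_
  rw [Finset.mem_filter] at hβ'
  rcases eq_or_ne β β' with h0 | h0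
  · rw [h0, sub_self (e β'), mul_zero]
  · rw [h.same β hβ β' hβ'.1 h0 hβ'.2.symm, zero_mul]

private lemma te05_A {F : Type u} [Field F] {ℓ : ℕ} {S : Finset F} {p : F → F} {α α' α'' : F}
    (h1 : α ≠ α') (h2 : α ≠ α'') (h3 : α' ≠ α'')
    {M : F → F} {c : ZMod ℓ} {kp : F → ZMod ℓ} (h : KpOk S p α α' α'' M c kp) (e : F → ZMod ℓ)
    {m : ℕ} (hm : (S.filter (fun β => p β = α'')).card = m)
    (hs : ∑ β' ∈ S.filter (fun β' => p β' = α''), e β' = 0)
    {β : F} (hβ : β ∈ S) (hα : p β = α) :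
    ∑ β' ∈ S.filter (fun β' => p β' ≠ p β), kp (β - β') * (e β - e β') =
      (1 + m * c) * e β - e (M β) := by
  have hMm := h.mem β hβ hα
  have e1 : ∀ β' ∈ S.filter (fun β' => p β' ≠ p β), kp (β - β') * (e β - e β') =
      (if β' = M β then e β - e β' else 0) + if p β' = α'' then c * (e β - e β') else 0 := by
    intro β' hβ'
    rw [Finset.mem_filter, hα] at hβ'
    rcases eq_or_ne (p β') α' with h4 | h4
    · rw [h.ab β hβ hα β' hβ'.1 h4, if_neg (show ¬ p β' = α'' by rw [h4]; exact h3), add_zero]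
      split_ifs
      · rw [one_mul]
      · rw [zero_mul]
    · have h5 : ¬ β' = M β := by
        rintro rfl
        exact h4 hMm.2
      rw [if_neg h5, zero_add]
      rcases eq_or_ne (p β') α'' with h6 | h6
      · rw [if_pos h6, h.ac β hβ hα β' hβ'.1 h6]
      · rw [if_neg h6, h.ao β hβ hα β' hβ'.1 hβ'.2 h4 h6, zero_mul]
  rw [Finset.sum_congr rfl e1, Finset.sum_add_distrib, Finset.sum_ite_eq', if_pos,
    ← Finset.sum_filter, Finset.filter_filter]
  · have e2 : S.filter (fun β' => p β' ≠ p β ∧ p β' = α'') = S.filter (fun β' => p β' = α'') := by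
      refine Finset.filter_congr fun β' _ => ?_
      constructor
      · exact fun h4 => h4.2
      · intro h4
        refine ⟨?_, h4⟩
        rw [h4, hα]
        exact h2.symm
    rw [e2, ← Finset.mul_sum, Finset.sum_sub_distrib, hs, Finset.sum_const, hm, nsmul_eq_mul]
    ring
  · rw [Finset.mem_filter, hMm.2, hα]
    exact ⟨hMm.1, h1.symm⟩

private lemma te05_B {F : Type u} [Field F] {ℓ : ℕ} {S : Finset F} {p : F → F} {α α' α'' : F}
    (h1 : α ≠ α')
    {M : F → F} {c : ZMod ℓ} {kp : F → ZMod ℓ} (h : KpOk S p α α' α'' M c kp) (e : F → ZMod ℓ)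
    {β : F} (hβ : β ∈ S) (hα : p β = α) :
    ∑ β' ∈ S.filter (fun β' => p β' ≠ p (M β)), kp (M β - β') * (e (M β) - e β') =
      e (M β) - e β := by
  have hMm := h.mem β hβ hα
  have e1 : ∀ β' ∈ S.filter (fun β' => p β' ≠ p (M β)), kp (M β - β') * (e (M β) - e β') =
      if β' = β then e (M β) - e β' else 0 := by
    intro β' hβ'
    rw [Finset.mem_filter, hMm.2] at hβ'
    rcases eq_or_ne (p β') α with h4 | h4
    · rw [h.ba (M β) hMm.1 hMm.2 β' hβ'.1 h4]
      by_cases h5 : β' = β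
      · rw [if_pos h5, if_pos (by rw [h5]), one_mul]
      · rw [if_neg h5, if_neg, zero_mul]
        intro h6
        exact h5 (h.inj β hβ β' hβ'.1 hα h4 h6).symm
    · have h5 : ¬ β' = β := by
        rintro rfl
        exact h4 hα
      rw [if_neg h5, h.bo (M β) hMm.1 hMm.2 β' hβ'.1 hβ'.2 h4, zero_mul]
  rw [Finset.sum_congr rfl e1, Finset.sum_ite_eq', if_pos]
  rw [Finset.mem_filter, hMm.2, hα]
  exact ⟨hβ, h1⟩

private lemma te05_bij {F : Type u} [Field F] {ℓ : ℕ} {S : Finset F} {p : F → F} {α α' α'' : F}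
    {M : F → F} {c : ZMod ℓ} {kp : F → ZMod ℓ} (h : KpOk S p α α' α'' M c kp)
    (e : F → ZMod ℓ) :
    ∑ β ∈ S.filter (fun β => p β = α), e (M β) = ∑ β ∈ S.filter (fun β => p β = α'), e β := by
  refine Finset.sum_bij (fun β _ => M β) ?_ ?_ ?_ ?_
  · intro β hβ
    rw [Finset.mem_filter] at hβ ⊢
    exact h.mem β hβ.1 hβ.2
  · intro β hβ β' hβ' heq
    rw [Finset.mem_filter] at hβ hβ'
    exact h.inj β hβ.1 β' hβ'.1 hβ.2 hβ'.2 heq
  · intro β' hβ'
    rw [Finset.mem_filter] at hβ'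
    obtain ⟨β, hb, hp, hM⟩ := h.surj β' hβ'.1 hβ'.2
    exact ⟨β, Finset.mem_filter.2 ⟨hb, hp⟩, hM⟩
  · intro β _
    rfl

private lemma te05_main {F : Type u} [Field F] {ℓ : ℕ} [Fact ℓ.Prime] {S : Finset F}
    {p : F → F} {α α' α'' : F} (h1 : α ≠ α') (h2 : α ≠ α'') (h3 : α' ≠ α'') {M : F → F}
    {c : ZMod ℓ} {kp : F → ZMod ℓ} (h : KpOk S p α α' α'' M c kp) {m : ℕ}
    (hm : ∀ a, a = α ∨ a = α' ∨ a = α'' → (S.filter (fun β => p β = a)).card = m)
    (hm0 : (m : ZMod ℓ) ≠ 0) (hc : ∀ z : ZMod ℓ, z * (z + m * c) ≠ 1) (μ : ZMod ℓ)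
    (e : F → ZMod ℓ) (n : ZMod ℓ) (cst : F → ZMod ℓ)
    (hs : ∀ β ∈ S, ∑ β' ∈ S.filter (fun β' => p β' = p β), e β' = 0)
    (he : ∀ β ∈ S, p β ∈ ({α, α'} : Set F) →
      ∑ β' ∈ S.filter (fun β' => p β' ≠ p β), kp (β - β') * (e β - e β') +
        μ * ∑ β' ∈ S.filter (fun β' => p β' = p β), kp (β - β') * (e β - e β') + n * e β =
          cst (p β)) :
    ∀ β ∈ S, p β = α → e β = 0 ∧ e (M β) = 0 := by
  have hfib : ∀ a, a = α ∨ a = α' ∨ a = α'' → ∑ β' ∈ S.filter (fun β' => p β' = a), e β' = 0 := by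
    intro a ha
    have h4 : (S.filter (fun β => p β = a)).Nonempty := by
      rw [← Finset.card_pos, hm a ha]
      rcases Nat.eq_zero_or_pos m with h0 | h0
      · exfalso
        apply hm0
        rw [h0, Nat.cast_zero]
      · exact h0
    obtain ⟨b, hb⟩ := h4
    rw [Finset.mem_filter] at hb
    have h5 := hs b hb.1
    rwa [hb.2] at h5
  have hA : ∀ β ∈ S, p β = α → (1 + n + m * c) * e β - e (M β) = cst α := by
    intro β hβ hα
    have h4 := he β hβ (by rw [hα]; exact Set.mem_insert _ _)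
    rw [te05_A h1 h2 h3 h e (hm α'' (Or.inr (Or.inr rfl))) (hfib α'' (Or.inr (Or.inr rfl))) hβ hα,
      te05_S h e hβ, hα] at h4
    rw [← h4]
    ring
  have hB : ∀ β ∈ S, p β = α → (1 + n) * e (M β) - e β = cst α' := by
    intro β hβ hα
    have hMm := h.mem β hβ hα
    have h4 := he (M β) hMm.1 (by rw [hMm.2]; exact Set.mem_insert_of_mem _ rfl)
    rw [te05_B h1 h e hβ hα, te05_S h e hMm.1, hMm.2] at h4
    rw [← h4]
    ring
  have hsA := hfib α (Or.inl rfl)
  have hsB : ∑ β ∈ S.filter (fun β => p β = α), e (M β) = 0 := by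
    rw [te05_bij h e]
    exact hfib α' (Or.inr (Or.inl rfl))
  have hcard := hm α (Or.inl rfl)
  have hcA : cst α = 0 := by
    have h4 : ∑ β ∈ S.filter (fun β => p β = α), ((1 + n + m * c) * e β - e (M β)) =
        ∑ β ∈ S.filter (fun β => p β = α), cst α := by
      refine Finset.sum_congr rfl fun β hβ => ?_
      rw [Finset.mem_filter] at hβ
      exact hA β hβ.1 hβ.2
    rw [Finset.sum_sub_distrib, ← Finset.mul_sum, hsA, hsB, Finset.sum_const, hcard,
      nsmul_eq_mul, mul_zero, sub_zero] at h4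
    exact (mul_eq_zero.1 h4.symm).resolve_left hm0
  have hcB : cst α' = 0 := by
    have h4 : ∑ β ∈ S.filter (fun β => p β = α), ((1 + n) * e (M β) - e β) =
        ∑ β ∈ S.filter (fun β => p β = α), cst α' := by
      refine Finset.sum_congr rfl fun β hβ => ?_
      rw [Finset.mem_filter] at hβ
      exact hB β hβ.1 hβ.2
    rw [Finset.sum_sub_distrib, ← Finset.mul_sum, hsA, hsB, Finset.sum_const, hcard,
      nsmul_eq_mul, mul_zero, sub_zero] at h4
    exact (mul_eq_zero.1 h4.symm).resolve_left hm0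
  intro β hβ hα
  have hA' := hA β hβ hα
  have hB' := hB β hβ hα
  rw [hcA] at hA'
  rw [hcB] at hB'
  have h5 : e (M β) = (1 + n + m * c) * e β := (sub_eq_zero.1 hA').symm
  have h6 : ((1 + n) * ((1 + n) + m * c) - 1) * e β = 0 := by
    rw [h5] at hB'
    rw [← hB']
    ring
  have h7 : e β = 0 := by
    rcases mul_eq_zero.1 h6 with h8 | h8
    · exact absurd (sub_eq_zero.1 h8) (hc (1 + n))
    · exact h8
  exact ⟨h7, by rw [h5, h7, mul_zero]⟩

theorem KpOk.sepU {k F : Type u} [Field k] [Field F] [Algebra k F] {ℓ : ℕ} [Fact ℓ.Prime]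
    {g E : k[X]} {α α' α'' : F} (h1 : α ≠ α') (h2 : α ≠ α'') (h3 : α' ≠ α'') {M : F → F}
    {c : ZMod ℓ} {kp : F → ZMod ℓ}
    (h : KpOk (RR F g E) (fun β => aeval β g) α α' α'' M c kp) {m : ℕ}
    (hm : ∀ a, a = α ∨ a = α' ∨ a = α'' →
      ((RR F g E).filter (fun β => aeval β g = a)).card = m) (hm0 : (m : ZMod ℓ) ≠ 0)
    (hc : ∀ z : ZMod ℓ, z * (z + m * c) ≠ 1) (μ : ZMod ℓ) :
    SepU g E kp μ {α, α'} := by
  intro e n cst hs he
  have key := te05_main h1 h2 h3 h hm hm0 hc μ e n cst hs he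
  intro β hβ hB
  rcases hB with h4 | h4
  · exact (key β hβ h4).1
  · obtain ⟨β₁, hb, hp, hM⟩ := h.surj β hβ h4
    rw [← hM]
    exact (key β₁ hb hp).2

end Pool.Agent.Lib.MP_89bcae_ag.Sup

end

section

open Polynomial

open scoped Classical

set_option linter.unusedSectionVars false

namespace Pool.Agent.Lib.MP_89bcae_ag.Sup

universe u

lemma te06_ord_neg {F : Type u} [Field F] {K : Subfield F} {S : Finset F} {p : F → F} {α α' : F}
    {M : F → F} {o : F → ℤ} (h : MOrd K S p α α' M o) :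
    o (-1) = 0 := by
  have h1 : o (1 * 1) = o 1 + o 1 := h.mul 1 K.one_mem 1 K.one_mem one_ne_zero one_ne_zero
  have h2 : o ((-1) * (-1)) = o (-1) + o (-1) :=
    h.mul (-1) (K.neg_mem K.one_mem) (-1) (K.neg_mem K.one_mem) (neg_ne_zero.2 one_ne_zero)
      (neg_ne_zero.2 one_ne_zero)
  rw [mul_one] at h1
  rw [neg_one_mul, neg_neg] at h2
  omega

theorem exists_lam {k F : Type u} [Field k] [Field F] [Algebra k F] {ℓ : ℕ}
    {g E : k[X]} (S : Finset F) (hS : ∀ b, b ∈ S ↔ aeval (aeval b g) E = 0) {α α' α'' : F}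
    (h1 : α ≠ α') (h2 : α ≠ α'') (h3 : α' ≠ α'') {J : Finset (F ≃ₐ[k] F)}
    (hJ1 : ∀ x y : F, aeval x g = α → aeval y g = α →
      ∃ σ ∈ J, σ x = y ∧ ∀ τ ∈ J, τ x = y → τ = σ)
    (hJ2 : ∀ σ ∈ J, ∀ b : F, aeval b (E.comp g) = 0 → aeval b g ≠ α → σ b = b)
    {M M'' : F → F} {o o'' : F → ℤ}
    (ho : MOrd (IntermediateField.adjoin k (S : Set F)).toSubfield S
      (fun b => aeval b g) α α' M o)
    (ho'' : MOrd (IntermediateField.adjoin k (S : Set F)).toSubfield S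
      (fun b => aeval b g) α α'' M'' o'') (c : ZMod ℓ) :
    ∃ lam : F → ZMod ℓ, (∀ x ∈ IntermediateField.adjoin k (S : Set F),
        ∀ y ∈ IntermediateField.adjoin k (S : Set F), x ≠ 0 → y ≠ 0 →
          lam (x * y) = lam x + lam y) ∧ lam (-1) = 0 ∧
      KpOk S (fun b => aeval b g) α α' α'' M c lam := by
  -- action on `S`
  have hp : ∀ (σ : F ≃ₐ[k] F) (b : F), aeval (σ b) g = σ (aeval b g) := fun σ b => by
    have := Polynomial.aeval_algHom_apply (σ : F →ₐ[k] F) b g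
    simpa using this
  have hE : ∀ (σ : F ≃ₐ[k] F) (b : F), aeval (σ b) E = σ (aeval b E) := fun σ b => by
    have := Polynomial.aeval_algHom_apply (σ : F →ₐ[k] F) b E
    simpa using this
  have hSσ : ∀ (σ : F ≃ₐ[k] F) (b : F), b ∈ S → σ b ∈ S := fun σ b hb => by
    rw [hS] at hb ⊢
    rw [hp, hE, hb, map_zero]
  have hinv : ∀ (σ : F ≃ₐ[k] F) (b : F), σ (σ⁻¹ b) = b := fun σ b => by
    rw [← AlgEquiv.mul_apply, mul_inv_cancel, AlgEquiv.one_apply]
  have hinv' : ∀ (σ : F ≃ₐ[k] F) (b : F), σ⁻¹ (σ b) = b := fun σ b => by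
    rw [← AlgEquiv.mul_apply, inv_mul_cancel, AlgEquiv.one_apply]
  have hfix : ∀ σ ∈ J, ∀ b ∈ S, aeval b g ≠ α → σ⁻¹ b = b := fun σ hσ b hb hba => by
    have h : σ b = b := hJ2 σ hσ b (by rw [aeval_comp]; exact (hS b).1 hb) hba
    have h' := hinv' σ b
    rwa [h] at h'
  have hal : ∀ σ ∈ J, ∀ b ∈ S, aeval b g = α → aeval (σ⁻¹ b) g = α := fun σ hσ b hb hba => by
    by_contra hne
    have hmem : σ⁻¹ b ∈ S := hSσ _ _ hb
    have h : σ (σ⁻¹ b) = σ⁻¹ b :=
      hJ2 σ hσ (σ⁻¹ b) (by rw [aeval_comp]; exact (hS _).1 hmem) hne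
    rw [hinv] at h
    rw [← h] at hne
    exact hne hba
  -- the field `K`
  have hK : ∀ (σ : F ≃ₐ[k] F) (x : F), x ∈ IntermediateField.adjoin k (S : Set F) →
      σ x ∈ IntermediateField.adjoin k (S : Set F) := fun σ x hx => by
    have h1 : σ x ∈ (IntermediateField.adjoin k (S : Set F)).map (σ : F →ₐ[k] F) :=
      ⟨x, hx, rfl⟩
    rw [IntermediateField.adjoin_map] at h1
    refine IntermediateField.adjoin.mono k _ _ ?_ h1
    rintro _ ⟨b, hb, rfl⟩
    exact hSσ σ b hb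
  have hSK : ∀ b ∈ S, b ∈ IntermediateField.adjoin k (S : Set F) := fun b hb =>
    IntermediateField.subset_adjoin k _ hb
  set lam : F → ZMod ℓ := fun z => (o z : ZMod ℓ) + c * ∑ σ ∈ J, (o'' (σ⁻¹ z) : ZMod ℓ)
    with hlam
  have hmul : ∀ x ∈ IntermediateField.adjoin k (S : Set F),
        ∀ y ∈ IntermediateField.adjoin k (S : Set F), x ≠ 0 → y ≠ 0 →
          lam (x * y) = lam x + lam y := by
    intro x hx y hy hx0 hy0
    have e1 : o (x * y) = o x + o y := ho.mul x hx y hy hx0 hy0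
    have e2 : ∀ σ : F ≃ₐ[k] F, o'' (σ⁻¹ (x * y)) = o'' (σ⁻¹ x) + o'' (σ⁻¹ y) := fun σ => by
      rw [map_mul]
      exact ho''.mul _ (hK _ _ hx) _ (hK _ _ hy) (by simpa using hx0) (by simpa using hy0)
    simp only [hlam]
    rw [e1]
    simp only [e2]
    push_cast
    rw [Finset.sum_add_distrib]
    ring
  have hneg1 : lam (-1) = 0 := by
    have e1 : o (-1) = 0 := te06_ord_neg ho
    have e2 : ∀ σ : F ≃ₐ[k] F, o'' (σ⁻¹ (-1)) = 0 := fun σ => by
      rw [map_neg, map_one]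
      exact te06_ord_neg ho''
    simp only [hlam]
    rw [e1, Finset.sum_eq_zero (fun σ _ => by rw [e2 σ, Int.cast_zero]), Int.cast_zero, mul_zero,
      add_zero]
  have hneg : ∀ β ∈ S, ∀ β' ∈ S, β ≠ β' → lam (β - β') = lam (β' - β) := by
    intro β hβ β' hβ' hne
    have e : β - β' = (-1) * (β' - β) := by ring
    rw [e, hmul (-1) (neg_mem (one_mem _)) _ (sub_mem (hSK _ hβ') (hSK _ hβ))
      (neg_ne_zero.2 one_ne_zero) (sub_ne_zero.2 hne.symm), hneg1, zero_add]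
  have hab : ∀ β ∈ S, aeval β g = α → ∀ β' ∈ S, aeval β' g = α' →
      lam (β - β') = if β' = M β then 1 else 0 := by
    intro β hβ hβa β' hβ' hβa'
    have e1 : o (β - β') = if β' = M β then 1 else 0 := ho.left β hβ hβa β' hβ' hβa'
    have e2 : ∀ σ ∈ J, (o'' (σ⁻¹ (β - β')) : ZMod ℓ) = 0 := fun σ hσ => by
      have hb' : σ⁻¹ β' = β' := hfix σ hσ β' hβ' (by rw [hβa']; exact h1.symm)
      have hb : aeval (σ⁻¹ β) g = α := hal σ hσ β hβ hβa
      rw [map_sub, hb']
      have : o'' (σ⁻¹ β - β') = 0 := ho''.out (σ⁻¹ β) (hSσ _ _ hβ) β' hβ'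
        (by simp only [hb, hβa']; exact h1) (fun h => h3 (hβa'.symm.trans h.2))
        (fun h => h1 (h.2.symm.trans hβa'))
      rw [this, Int.cast_zero]
    simp only [hlam]
    rw [e1, Finset.sum_eq_zero e2, mul_zero, add_zero]
    split_ifs <;> simp
  refine ⟨lam, hmul, hneg1, ?_⟩
  refine ⟨ho.mem, ho.inj, ho.surj, ?_, hab, ?_, ?_, ?_, ?_⟩
  · intro β hβ β' hβ' hne hpp
    have e1 : o (β - β') = 0 := ho.same β hβ β' hβ' hne hpp
    have e2 : ∀ σ : F ≃ₐ[k] F, o'' (σ⁻¹ (β - β')) = 0 := fun σ => by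
      rw [map_sub]
      refine ho''.same _ (hSσ _ _ hβ) _ (hSσ _ _ hβ') (fun h => hne (σ⁻¹.injective h)) ?_
      simp only [hp]
      exact congrArg _ hpp
    simp only [hlam]
    rw [e1, Finset.sum_eq_zero (fun σ _ => by rw [e2 σ, Int.cast_zero]), Int.cast_zero, mul_zero,
      add_zero]
  · intro β hβ hβa β' hβ' hβa'
    have hne : β ≠ β' := by
      rintro rfl
      exact h1 (hβa'.symm.trans hβa)
    rw [hneg β hβ β' hβ' hne]
    exact hab β' hβ' hβa' β hβ hβa
  · intro β hβ hβa β' hβ' hβa'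
    have e1 : o (β - β') = 0 := ho.out β hβ β' hβ'
      (fun h => h2 (hβa.symm.trans (h.trans hβa'))) (fun h => h3 (h.2.symm.trans hβa'))
      (fun h => h1 (hβa.symm.trans h.1))
    obtain ⟨x₀, hx₀, hx₀a, hx₀M⟩ := ho''.surj β' hβ' hβa'
    obtain ⟨σ₀, hσ₀, hσ₀x, huniq⟩ := hJ1 x₀ β hx₀a hβa
    have e2 : ∀ σ ∈ J, (o'' (σ⁻¹ (β - β')) : ZMod ℓ) = if σ = σ₀ then 1 else 0 := fun σ hσ => by
      have hb' : σ⁻¹ β' = β' := hfix σ hσ β' hβ' (by rw [hβa']; exact h2.symm)
      have hb : aeval (σ⁻¹ β) g = α := hal σ hσ β hβ hβa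
      rw [map_sub, hb']
      have : o'' (σ⁻¹ β - β') = if β' = M'' (σ⁻¹ β) then 1 else 0 :=
        ho''.left (σ⁻¹ β) (hSσ _ _ hβ) hb β' hβ' hβa'
      rw [this]
      have hiff : β' = M'' (σ⁻¹ β) ↔ σ = σ₀ := by
        constructor
        · intro h
          refine huniq σ hσ ?_
          have : x₀ = σ⁻¹ β := ho''.inj x₀ hx₀ _ (hSσ _ _ hβ) hx₀a hb (hx₀M.trans h)
          rw [this, hinv]
        · rintro rfl
          rw [← hσ₀x, hinv', hx₀M]
      by_cases h : σ = σ₀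
      · rw [if_pos h, if_pos (hiff.2 h), Int.cast_one]
      · rw [if_neg h, if_neg (fun h' => h (hiff.1 h')), Int.cast_zero]
    simp only [hlam]
    rw [e1, Finset.sum_congr rfl e2]
    simp [hσ₀]
  · intro β hβ hβa β' hβ' hn1 hn2 hn3
    have e1 : o (β - β') = 0 := ho.out β hβ β' hβ'
      (fun h => hn1 (h.symm.trans hβa)) (fun h => hn2 h.2)
      (fun h => h1 (hβa.symm.trans h.1))
    have e2 : ∀ σ ∈ J, (o'' (σ⁻¹ (β - β')) : ZMod ℓ) = 0 := fun σ hσ => by
      have hb' : σ⁻¹ β' = β' := hfix σ hσ β' hβ' hn1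
      have hb : aeval (σ⁻¹ β) g = α := hal σ hσ β hβ hβa
      rw [map_sub, hb']
      have : o'' (σ⁻¹ β - β') = 0 := ho''.out (σ⁻¹ β) (hSσ _ _ hβ) β' hβ'
        (fun h => hn1 (h.symm.trans hb)) (fun h => hn3 h.2)
        (fun h => h2 (hb.symm.trans h.1))
      rw [this, Int.cast_zero]
    simp only [hlam]
    rw [e1, Finset.sum_eq_zero e2]
    simp
  · intro β hβ hβa β' hβ' hn1 hn2
    have e1 : o (β - β') = 0 := ho.out β hβ β' hβ'
      (fun h => hn1 (h.symm.trans hβa)) (fun h => h1 (h.1.symm.trans hβa))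
      (fun h => hn2 h.2)
    have e2 : ∀ σ ∈ J, (o'' (σ⁻¹ (β - β')) : ZMod ℓ) = 0 := fun σ hσ => by
      have hb' : σ⁻¹ β' = β' := hfix σ hσ β' hβ' hn2
      have hb : σ⁻¹ β = β := hfix σ hσ β hβ (fun h => h1 (h.symm.trans hβa))
      rw [map_sub, hb', hb]
      have : o'' (β - β') = 0 := ho''.out β hβ β' hβ'
        (fun h => hn1 (h.symm.trans hβa)) (fun h => h1 (h.1.symm.trans hβa))
        (fun h => h3 (hβa.symm.trans h.1))
      rw [this, Int.cast_zero]
    simp only [hlam]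
    rw [e1, Finset.sum_eq_zero e2]
    simp

end Pool.Agent.Lib.MP_89bcae_ag.Sup

end

section

/-!
# The criterion for all towers
-/

open Polynomial

open scoped Classical

set_option linter.unusedSectionVars false

namespace Pool.Agent.Lib.MP_89bcae_ag.Sup

universe u

/-- If `E ∘ g` is separable, so is `E`. -/
private lemma te07_separable {κ : Type*} [Field κ] {g D : κ[X]} (hg : g.natDegree ≠ 0)
    (h : (D.comp g).Separable) : D.Separable := by
  rw [Polynomial.Separable, isCoprime_iff_aeval_ne_zero_of_isAlgClosed (k := κ)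
    (AlgebraicClosure κ)]
  intro a
  by_contra hcon
  push Not at hcon
  obtain ⟨h1, h2⟩ := hcon
  have hdeg : (g.map (algebraMap κ (AlgebraicClosure κ)) - C a).degree ≠ 0 := by
    intro h3
    have h4 := natDegree_eq_zero_iff_degree_le_zero.mpr h3.le
    rw [natDegree_sub_C, natDegree_map] at h4
    exact hg h4
  obtain ⟨b, hb⟩ := IsAlgClosed.exists_root _ hdeg
  have hb2 : aeval b g = a := by
    rw [IsRoot.def, eval_sub, eval_C, sub_eq_zero, eval_map_algebraMap] at hb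
    exact hb
  obtain ⟨u, v, huv⟩ := h
  have h3 := congrArg (aeval b) huv
  rw [derivative_comp, map_add, map_mul, map_mul, map_mul, aeval_comp, aeval_comp, hb2, h1, h2] at h3
  simp at h3

/-- The fibres over the roots of `E` have `deg g` elements. -/
private lemma te07_card {k F : Type u} [Field k] [Field F] [Algebra k F] [IsAlgClosed F] {ℓ : ℕ}
    {g E : k[X]} {ζ : k} (H : GlobHyp ℓ g E ζ) {a : F} (ha : aeval a E = 0) :
    ((RR F g E).filter (fun β => aeval β g = a)).card = g.natDegree := by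
  have h1 : g.map (algebraMap k F) - C a ∣ (E.comp g).map (algebraMap k F) := by
    rw [Polynomial.map_comp]
    have h2 : X - C a ∣ E.map (algebraMap k F) := by
      rw [dvd_iff_isRoot, IsRoot.def, eval_map_algebraMap, ha]
    obtain ⟨q, hq⟩ := h2
    refine ⟨q.comp (g.map (algebraMap k F)), ?_⟩
    rw [hq, mul_comp, sub_comp, X_comp, C_comp]
  have hsep : (g.map (algebraMap k F) - C a).Separable :=
    Separable.of_dvd (H.sep.map (f := algebraMap k F)) h1
  have h0 : g.map (algebraMap k F) - C a ≠ 0 := hsep.ne_zero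
  have h3 : (RR F g E).filter (fun β => aeval β g = a) =
      (g.map (algebraMap k F) - C a).roots.toFinset := by
    ext β
    rw [Finset.mem_filter, mem_RR H, Multiset.mem_toFinset, mem_roots h0, IsRoot.def, eval_sub,
      eval_C, eval_map_algebraMap, sub_eq_zero]
    constructor
    · exact fun h => h.2
    · intro h
      exact ⟨by rw [h, ha], h⟩
  rw [h3, Multiset.toFinset_card_of_nodup (nodup_roots hsep),
    IsAlgClosed.card_roots_eq_natDegree, natDegree_sub_C, natDegree_map]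

theorem exists_cRall {k F : Type u} [Field k] [Field F] [Algebra k F] [IsAlgClosure k F] {ℓ : ℕ}
    {g E : k[X]} {ζ : k} (H : GlobHyp ℓ g E ζ) (h3 : 3 ≤ E.natDegree)
    (hJ : ∀ α : F, aeval α E = 0 → ∃ J : Finset (F ≃ₐ[k] F),
      (∀ x y : F, aeval x g = α → aeval y g = α →
        ∃ σ ∈ J, σ x = y ∧ ∀ τ ∈ J, τ x = y → τ = σ) ∧
      ∀ σ ∈ J, ∀ b : F, aeval b (E.comp g) = 0 → aeval b g ≠ α → σ b = b)
    (hM : ∀ α α' : F, aeval α E = 0 → aeval α' E = 0 → α ≠ α' →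
      ∃ (M : F → F) (o : F → ℤ),
        MOrd (IntermediateField.adjoin k ((RR F g E : Finset F) : Set F)).toSubfield (RR F g E)
          (fun b => aeval b g) α α' M o) :
    ∀ a : F, aeval a E = 0 → ∃ (U : F ≃ₐ[k] F) (B : Set F), a ∈ B ∧ CRall ℓ g E ζ U B := by
  intro a ha
  have : IsAlgClosed F := IsAlgClosure.isAlgClosed k
  have : Algebra.IsAlgebraic k F := IsAlgClosure.isAlgebraic
  have : Fact ℓ.Prime := ⟨H.prime⟩
  have hgdeg : g.natDegree ≠ 0 := by
    intro h0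
    have h1 := H.cop
    rw [h0, Nat.coprime_zero_left] at h1
    exact H.prime.ne_one h1
  have hm0 : (g.natDegree : ZMod ℓ) ≠ 0 := by
    rw [Ne, ZMod.natCast_eq_zero_iff]
    intro h1
    have h2 := H.cop
    rw [Nat.coprime_comm, H.prime.coprime_iff_not_dvd] at h2
    exact h2 h1
  have hsepE : E.Separable := te07_separable hgdeg H.sep
  have hE0 : E.map (algebraMap k F) ≠ 0 := hsepE.map.ne_zero
  -- three roots of `E`
  obtain ⟨a', a'', ha', ha'', h1, h2, h12⟩ : ∃ a' a'' : F, aeval a' E = 0 ∧ aeval a'' E = 0 ∧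
      a ≠ a' ∧ a ≠ a'' ∧ a' ≠ a'' := by
    have hmem : ∀ x, x ∈ (E.map (algebraMap k F)).roots.toFinset ↔ aeval x E = 0 := by
      intro x
      rw [Multiset.mem_toFinset, mem_roots hE0, IsRoot.def, eval_map_algebraMap]
    have hcard : (E.map (algebraMap k F)).roots.toFinset.card = E.natDegree := by
      rw [Multiset.toFinset_card_of_nodup (nodup_roots hsepE.map),
        IsAlgClosed.card_roots_eq_natDegree, natDegree_map]
    have h4 : 1 < ((E.map (algebraMap k F)).roots.toFinset.erase a).card := by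
      rw [Finset.card_erase_of_mem ((hmem a).mpr ha), hcard]
      omega
    obtain ⟨a', ha', a'', ha'', hne⟩ := Finset.one_lt_card.mp h4
    rw [Finset.mem_erase, hmem] at ha' ha''
    exact ⟨a', a'', ha'.2, ha''.2, ha'.1.symm, ha''.1.symm, hne⟩
  obtain ⟨c, hc⟩ := exists_delta (ℓ := ℓ) hm0
  obtain ⟨J, hJ1, hJ2⟩ := hJ a ha
  obtain ⟨M, o, ho⟩ := hM a a' ha ha' h1
  obtain ⟨M'', o'', ho''⟩ := hM a a'' ha ha'' h2
  obtain ⟨lam, hmul, hneg, hlam⟩ := exists_lam (RR F g E) (fun b => mem_RR H) h1 h2 h12 hJ1 hJ2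
    ho ho'' c
  have hSK : ∀ β ∈ RR F g E, β ∈ IntermediateField.adjoin k ((RR F g E : Finset F) : Set F) :=
    fun β hβ => IntermediateField.subset_adjoin k _ hβ
  obtain ⟨U, hU1, hU2⟩ := exists_U_of_lam H.prime H.ne H.zeta
    (IntermediateField.adjoin k ((RR F g E : Finset F) : Set F)) lam hmul
    (insert (-1) (((RR F g E ×ˢ RR F g E).filter (fun p => p.1 ≠ p.2)).image
      (fun p => p.1 - p.2))) (by
      intro x hx
      rw [Finset.mem_insert, Finset.mem_image] at hx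
      rcases hx with rfl | ⟨⟨β, β'⟩, hp, rfl⟩
      · exact ⟨neg_mem (one_mem _), neg_ne_zero.mpr one_ne_zero⟩
      · rw [Finset.mem_filter, Finset.mem_product] at hp
        exact ⟨sub_mem (hSK _ hp.1.1) (hSK _ hp.1.2), sub_ne_zero.mpr hp.2⟩)
  have hkey : ∀ β ∈ RR F g E, ∀ β' ∈ RR F g E, β ≠ β' →
      kap ℓ (algebraMap k F ζ) U (β - β') = lam (β - β') := by
    intro β hβ β' hβ' hne
    apply hU2
    rw [Finset.mem_insert, Finset.mem_image]
    refine Or.inr ⟨(β, β'), ?_, rfl⟩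
    rw [Finset.mem_filter, Finset.mem_product]
    exact ⟨⟨hβ, hβ'⟩, hne⟩
  have hkp : KpOk (RR F g E) (fun β => aeval β g) a a' a'' M c
      (kap ℓ (algebraMap k F ζ) U) :=
    { mem := hlam.mem
      inj := hlam.inj
      surj := hlam.surj
      same := fun β hβ β' hβ' hne hp => by
        rw [hkey β hβ β' hβ' hne]
        exact hlam.same β hβ β' hβ' hne hp
      ab := fun β hβ hp β' hβ' hp' => by
        rw [hkey β hβ β' hβ' (by
          rintro rfl
          exact h1 (hp.symm.trans hp'))]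
        exact hlam.ab β hβ hp β' hβ' hp'
      ba := fun β hβ hp β' hβ' hp' => by
        rw [hkey β hβ β' hβ' (by
          rintro rfl
          exact h1 (hp'.symm.trans hp))]
        exact hlam.ba β hβ hp β' hβ' hp'
      ac := fun β hβ hp β' hβ' hp' => by
        rw [hkey β hβ β' hβ' (by
          rintro rfl
          exact h2 (hp.symm.trans hp'))]
        exact hlam.ac β hβ hp β' hβ' hp'
      ao := fun β hβ hp β' hβ' hp1 hp2 hp3 => by
        rw [hkey β hβ β' hβ' (by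
          rintro rfl
          exact hp1 hp)]
        exact hlam.ao β hβ hp β' hβ' hp1 hp2 hp3
      bo := fun β hβ hp β' hβ' hp1 hp2 => by
        rw [hkey β hβ β' hβ' (by
          rintro rfl
          exact hp1 hp)]
        exact hlam.bo β hβ hp β' hβ' hp1 hp2 }
  refine ⟨U, {a, a'}, by simp, ⟨fun β hβ => hU1 β (hSK β hβ), ?_, fun μ => ?_⟩⟩
  · intro x hx
    have hζ : IsPrimitiveRoot (algebraMap k F ζ) ℓ :=
      H.zeta.map_of_injective (algebraMap k F).injective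
    have h4 := kap_spec (U : F ≃+* F) H.prime hζ (U.commutes ζ)
      (neg_ne_zero.mpr (one_ne_zero (α := F))) (by simp) hx
    have h5 : kap ℓ (algebraMap k F ζ) (U : F ≃+* F) (-1) = 0 := by
      have h6 := hU2 (-1) (Finset.mem_insert_self _ _)
      rw [hneg] at h6
      exact h6
    rw [h5, ZMod.val_zero, pow_zero, one_mul] at h4
    exact h4
  · refine hkp.sepU h1 h2 h12 (m := g.natDegree) ?_ hm0 hc μ
    rintro b (rfl | rfl | rfl)
    · exact te07_card H ha
    · exact te07_card H ha'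
    · exact te07_card H ha''

end Pool.Agent.Lib.MP_89bcae_ag.Sup

end

section

open Polynomial WithZero

open scoped Classical

set_option linter.unusedSimpArgs false
set_option linter.unusedVariables false
set_option linter.unusedSectionVars false
set_option linter.style.haveILetI false

namespace Pool.Agent.Lib.MP_89bcae_ag.Sup

universe u

theorem exists_mOrd (R k F : Type u) [CommRing R]
    [IsDomain R] [IsDiscreteValuationRing R] [Field k] [Algebra R k] [IsFractionRing R k]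
    [Field F] [Algebra k F] [IsAlgClosure k F] (h2 : IsUnit (2 : R)) {g D : R[X]} (hg : g.Monic)
    (hgdeg : g.natDegree ≠ 0)
    (hlc : IsUnit D.leadingCoeff) (hcol : IsCollision7 g D)
    (hsep : ((D.comp g).map (algebraMap R k)).Separable)
    (htr : IsPairTransitive7 k F (g.map (algebraMap R k)) (D.map (algebraMap R k)))
    (S : Finset F) (hS : ∀ b, b ∈ S ↔
      aeval (aeval b (g.map (algebraMap R k))) (D.map (algebraMap R k)) = 0) {α α' : F}
    (hα : aeval α (D.map (algebraMap R k)) = 0) (hα' : aeval α' (D.map (algebraMap R k)) = 0)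
    (hne : α ≠ α') :
    ∃ (M : F → F) (o : F → ℤ), MOrd (IntermediateField.adjoin k (S : Set F)).toSubfield S
      (fun b => aeval b (g.map (algebraMap R k))) α α' M o := by
  have hF : IsAlgClosed F := IsAlgClosure.isAlgClosed k
  have hkF : Algebra.IsAlgebraic k F := IsAlgClosure.isAlgebraic
  letI : Algebra R F := ((algebraMap k F).comp (algebraMap R k)).toAlgebra
  haveI : IsScalarTower R k F := IsScalarTower.of_algebraMap_eq fun _ => rfl
  have hinjk : Function.Injective (algebraMap R k) := IsFractionRing.injective R k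
  have hinjF : Function.Injective (algebraMap R F) := (algebraMap k F).injective.comp hinjk
  have hmapF : ∀ p : R[X], (p.map (algebraMap R k)).map (algebraMap k F) =
      p.map (algebraMap R F) := fun p => by rw [Polynomial.map_map]; rfl
  have hlcF : algebraMap R F D.leadingCoeff ≠ 0 := (hlc.map (algebraMap R F)).ne_zero
  have hlcF' : (D.map (algebraMap R F)).leadingCoeff = algebraMap R F D.leadingCoeff :=
    leadingCoeff_map_of_injective hinjF D
  have hcompF : (D.map (algebraMap R F)).comp (g.map (algebraMap R F)) =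
      ((D.comp g).map (algebraMap R k)).map (algebraMap k F) := by
    rw [hmapF, Polynomial.map_comp]
  have hsepF : ((D.map (algebraMap R F)).comp (g.map (algebraMap R F))).Separable := by
    rw [hcompF]; exact hsep.map
  have hgF : (g.map (algebraMap R F)).natDegree = g.natDegree := hg.natDegree_map _
  have hsepD : (D.map (algebraMap R F)).Separable := separable_left7 (by rw [hgF]; exact hgdeg) hsepF
  set gF := g.map (algebraMap R F) with hgFdef
  set DF := D.map (algebraMap R F) with hDFdef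
  set A : Finset F := DF.roots.toFinset with hA
  have hev0 : ∀ b : F, aeval b (g.map (algebraMap R k)) = gF.eval b := by
    intro b
    rw [← eval_map_algebraMap, hmapF]
  have hevD : ∀ b : F, aeval b (D.map (algebraMap R k)) = DF.eval b := by
    intro b
    rw [← eval_map_algebraMap, hmapF]
  have hmemS : ∀ b, b ∈ S ↔ DF.eval (gF.eval b) = 0 := by
    intro b
    rw [hS, hev0, hevD]
  have hSeq : S = (DF.comp gF).roots.toFinset := by
    ext b
    rw [hmemS, Multiset.mem_toFinset, mem_roots hsepF.ne_zero, IsRoot.def, eval_comp]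
  have hmemA : ∀ α, α ∈ A ↔ DF.eval α = 0 := by
    intro α
    rw [hA, Multiset.mem_toFinset, mem_roots hsepD.ne_zero, IsRoot.def]
  have hSA : ∀ b ∈ S, gF.eval b ∈ A := fun b hb => (hmemA _).mpr ((hmemS b).mp hb)
  have hDA : DF = C (algebraMap R F D.leadingCoeff) * ∏ α ∈ A, (X - C α) := by
    rw [← hlcF']
    exact eq_prod_roots7 hsepD
  have hdvd : ∀ α ∈ A, (gF - C α) ∣ DF.comp gF := by
    intro α hα
    obtain ⟨w, hw⟩ := dvd_iff_isRoot.mpr ((hmemA α).mp hα)
    refine ⟨w.comp gF, ?_⟩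
    rw [hw, mul_comp, sub_comp, X_comp, C_comp]
  have hmon : ∀ α, (gF - C α).Monic := by
    intro α
    have h5 : (C α).degree < gF.degree := by
      rw [degree_eq_natDegree (p := gF) (hg.map _).ne_zero, hgF]
      refine (degree_C_le).trans_lt ?_
      exact_mod_cast Nat.pos_of_ne_zero hgdeg
    exact (hg.map _).sub_of_left h5
  have hroots : ∀ α ∈ A, (gF - C α).roots.toFinset = S.filter (fun b => gF.eval b = α) := by
    intro α hα
    ext b
    rw [Finset.mem_filter, Multiset.mem_toFinset, mem_roots (hmon α).ne_zero, IsRoot.def, eval_sub,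
      eval_C, sub_eq_zero, hmemS]
    constructor
    · exact fun h => ⟨by rw [h]; exact (hmemA α).mp hα, h⟩
    · exact fun h => h.2
  have hgS : ∀ α ∈ A, gF - C α = ∏ b ∈ S.filter (fun b => gF.eval b = α), (X - C b) := by
    intro α hα
    have h3 := eq_prod_roots7 (hsepF.of_dvd (hdvd α hα))
    rw [(hmon α).leadingCoeff, C_1, one_mul, hroots α hα] at h3
    exact h3
  have hcardS : ∀ α ∈ A, (S.filter (fun b => gF.eval b = α)).card = g.natDegree := by
    intro α hα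
    rw [← hroots α hα, card_roots_of_separable8 (hsepF.of_dvd (hdvd α hα)), natDegree_sub_C, hgF]
  have hAS : ∀ α ∈ A, ∃ b ∈ S, gF.eval b = α := by
    intro α hα
    have h1 : (S.filter (fun b => gF.eval b = α)).Nonempty := by
      rw [← Finset.card_pos, hcardS α hα]
      exact Nat.pos_of_ne_zero hgdeg
    obtain ⟨b, hb⟩ := h1
    exact ⟨b, (Finset.mem_filter.mp hb).1, (Finset.mem_filter.mp hb).2⟩
  have hSroot : (S : Set F) = ((D.comp g).map (algebraMap R k)).rootSet F := by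
    rw [rootSet, hSeq, hcompF, aroots]
  obtain ⟨hfin, hgal⟩ := galois7 (F := F) hsep
  obtain ⟨K, hK⟩ : ∃ K, K = IntermediateField.adjoin k (S : Set F) := ⟨_, rfl⟩
  haveI : FiniteDimensional k K := by rw [hK, hSroot]; exact hfin
  haveI : IsGalois k K := by rw [hK, hSroot]; exact hgal
  obtain ⟨w, hw1, hw2, hw3, α₁, hα₁, α₂, hα₂, h12, hw4, hw5⟩ := exists_ord7 (R := R) (k := k)
    (F := F) h2 hgdeg hg hlc S A hDA hgS hSA hAS K hK hcol
  have hSK : ∀ b ∈ S, b ∈ K := by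
    intro b hb
    rw [hK]
    exact IntermediateField.subset_adjoin _ _ hb
  have hev : ∀ b : F, aeval b (g.map (algebraMap R k)) = gF.eval b := by
    intro b
    rw [← eval_map_algebraMap, hmapF]
  -- the sums of the orders over the fibres
  let o : F → ℤ := fun x => - ordF7 w x
  have ho0 : ∀ b ∈ S, ∀ c ∈ S, 0 ≤ o (b - c) := fun b hb c hc => by
    have := hw2 b hb c hc
    show 0 ≤ - ordF7 w (b - c)
    omega
  have hsum : ∀ b ∈ S, ∀ α ∈ A, gF.eval b ≠ α →
      ∑ c ∈ S.filter (fun c => gF.eval c = α), o (b - c) = - ordF7 w (gF.eval b - α) := by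
    intro b hb α hα hne
    have h3 := congrArg (eval b) (hgS α hα)
    rw [eval_sub, eval_C, eval_prod] at h3
    rw [h3, Finset.prod_congr rfl fun c _ => by rw [eval_sub, eval_X, eval_C],
      ordF7_prod w _ _ (fun c hc => K.sub_mem (hSK b hb) (hSK c (Finset.mem_filter.mp hc).1))
        (fun c hc => sub_ne_zero.mpr fun h0 => hne (by
          rw [h0]; exact (Finset.mem_filter.mp hc).2)), ← Finset.sum_neg_distrib]
  -- zero outside of the two fibres
  have hzero : ∀ b ∈ S, ∀ α ∈ A, gF.eval b ≠ α → ¬ (gF.eval b = α₁ ∧ α = α₂) →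
      ¬ (gF.eval b = α₂ ∧ α = α₁) → ∀ c ∈ S, gF.eval c = α → o (b - c) = 0 := by
    intro b hb α hα hne h1 h3 c hc hcα
    have h4 := hsum b hb α hα hne
    rw [hw5 _ (hSA b hb) α hα hne h1 h3, neg_zero] at h4
    exact (Finset.sum_eq_zero_iff_of_nonneg (fun c hc =>
      ho0 b hb c (Finset.mem_filter.mp hc).1)).mp h4 c (Finset.mem_filter.mpr ⟨hc, hcα⟩)
  -- one partner in the two fibres
  have hone : ∀ b ∈ S, ∀ α ∈ A, gF.eval b ≠ α → ordF7 w (gF.eval b - α) = -1 →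
      ∀ c ∈ S, gF.eval c = α → o (b - c) ≠ 0 → ∀ c' ∈ S, gF.eval c' = α →
        o (b - c') = if c' = c then 1 else 0 := by
    intro b hb α hα hne h1 c hc hcα hc0 c' hc' hcα'
    have h4 := hsum b hb α hα hne
    rw [h1, neg_neg] at h4
    have hmem : c ∈ S.filter (fun c => gF.eval c = α) := Finset.mem_filter.mpr ⟨hc, hcα⟩
    rw [← Finset.add_sum_erase _ _ hmem] at h4
    have h5 : 0 ≤ ∑ x ∈ (S.filter (fun c => gF.eval c = α)).erase c, o (b - x) :=
      Finset.sum_nonneg fun x hx => ho0 b hb x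
        (Finset.mem_filter.mp (Finset.mem_of_mem_erase hx)).1
    have h6 := ho0 b hb c hc
    have h7 : o (b - c) = 1 := by omega
    have h8 : ∑ x ∈ (S.filter (fun c => gF.eval c = α)).erase c, o (b - x) = 0 := by omega
    by_cases hcc : c' = c
    · rw [if_pos hcc, hcc, h7]
    · rw [if_neg hcc]
      exact (Finset.sum_eq_zero_iff_of_nonneg (fun x hx =>
        ho0 b hb x (Finset.mem_filter.mp (Finset.mem_of_mem_erase hx)).1)).mp h8 c'
        (Finset.mem_erase.mpr ⟨hcc, Finset.mem_filter.mpr ⟨hc', hcα'⟩⟩)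
  have hsymm : ∀ x y : F, o (x - y) = o (y - x) := fun x y => by
    show - ordF7 w (x - y) = - ordF7 w (y - x)
    rw [ordF7_sub_comm]
  have hpart : ∀ b, ∃ c, b ∈ S → gF.eval b = α₁ → c ∈ S ∧ gF.eval c = α₂ ∧ o (b - c) ≠ 0 := by
    intro b
    by_cases hb : b ∈ S ∧ gF.eval b = α₁
    · have hbα : gF.eval b ≠ α₂ := by rw [hb.2]; exact h12
      by_contra hcon
      push Not at hcon
      have h4 := hsum b hb.1 α₂ hα₂ hbα
      rw [Finset.sum_eq_zero fun c hc => ?_, hb.2, hw4] at h4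
      · omega
      · by_contra h5
        have h6 := hcon c
        exact h5 (h6.2.2 (Finset.mem_filter.mp hc).1 (Finset.mem_filter.mp hc).2)
    · exact ⟨b, fun h1 h3 => absurd ⟨h1, h3⟩ hb⟩
  choose M₀ hM₀ using hpart
  have hleft : ∀ β ∈ S, gF.eval β = α₁ → ∀ β' ∈ S, gF.eval β' = α₂ →
      o (β - β') = if β' = M₀ β then 1 else 0 := by
    intro β hβ h1 β' hβ' h3
    obtain ⟨q1, q2, q3⟩ := hM₀ β hβ h1
    exact hone β hβ α₂ hα₂ (by rw [h1]; exact h12) (by rw [h1]; exact hw4) (M₀ β) q1 q2 q3 β' hβ' h3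
  have hbase : MOrd K.toSubfield S (fun b => gF.eval b) α₁ α₂ M₀ o := by
    refine ⟨fun a ha b hb ha0 hb0 => ?_, fun β hβ β' hβ' h1 h3 => ?_,
      fun β hβ β' hβ' h1 h3 h4 => ?_, fun β hβ h1 => ?_, fun β hβ β' hβ' h1 h3 h4 => ?_,
      fun β' hβ' h1 => ?_, hleft⟩
    · show - ordF7 w (a * b) = - ordF7 w a + - ordF7 w b
      rw [ordF7_mul w ha hb ha0 hb0]
      ring
    · show - ordF7 w (β - β') = 0
      rw [hw3 β hβ β' hβ' h1 h3, neg_zero]
    · exact hzero β hβ _ (hSA β' hβ') h1 h3 h4 β' hβ' rfl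
    · exact ⟨(hM₀ β hβ h1).1, (hM₀ β hβ h1).2.1⟩
    · obtain ⟨q1, q2, q3⟩ := hM₀ β hβ h1
      obtain ⟨r1, r2, r3⟩ := hM₀ β' hβ' h3
      rw [← h4] at r3
      rw [hsymm] at q3 r3
      have h5 := hone (M₀ β) q1 α₁ hα₁ (by rw [q2]; exact h12.symm)
        (by rw [q2, ordF7_sub_comm]; exact hw4) β hβ h1 q3 β' hβ' h3
      by_contra hcon
      rw [if_neg (fun h => hcon h.symm)] at h5
      exact r3 h5
    · have hbα : gF.eval β' ≠ α₁ := by
        rw [show gF.eval β' = α₂ from h1]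
        exact h12.symm
      obtain ⟨β, hβ, hβ1, hβ2⟩ : ∃ β ∈ S, gF.eval β = α₁ ∧ o (β' - β) ≠ 0 := by
        by_contra hcon
        push Not at hcon
        have h4 := hsum β' hβ' α₁ hα₁ hbα
        rw [Finset.sum_eq_zero fun c hc => hcon c (Finset.mem_filter.mp hc).1
          (Finset.mem_filter.mp hc).2, show gF.eval β' = α₂ from h1, ordF7_sub_comm, hw4] at h4
        omega
      refine ⟨β, hβ, hβ1, ?_⟩
      have h5 := hleft β hβ hβ1 β' hβ' h1
      by_contra hcon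
      rw [if_neg (fun h => hcon h.symm), hsymm] at h5
      exact hβ2 h5
  -- the Galois conjugates
  have hmemS' : ∀ b, b ∈ S ↔ aeval b ((D.map (algebraMap R k)).comp
      (g.map (algebraMap R k))) = 0 := by
    intro b
    rw [hmemS, aeval_comp, ← eval_map_algebraMap, hmapF, hev]
  have hσS : ∀ (σ : F ≃ₐ[k] F), ∀ x ∈ S, σ x ∈ S := by
    intro σ x hx
    rw [hmemS'] at hx ⊢
    rw [Polynomial.aeval_algHom_apply, hx, map_zero]
  have hσK : ∀ (σ : F ≃ₐ[k] F), ∀ x ∈ K, σ x ∈ K := by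
    intro σ x hx
    rw [hK] at hx ⊢
    refine IntermediateField.adjoin_induction k (p := fun x _ =>
      σ x ∈ IntermediateField.adjoin k (S : Set F)) ?_ ?_ ?_ ?_ ?_ hx
    · intro y hy
      exact IntermediateField.subset_adjoin k _ (hσS σ y hy)
    · intro y
      rw [AlgEquiv.commutes]
      exact IntermediateField.algebraMap_mem _ y
    · intro y z _ _ hy hz
      rw [map_add]; exact add_mem hy hz
    · intro y _ hy
      rw [map_inv₀]; exact inv_mem hy
    · intro y z _ _ hy hz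
      rw [map_mul]; exact mul_mem hy hz
  have hσg : ∀ (σ : F ≃ₐ[k] F) (x : F), gF.eval (σ x) = σ (gF.eval x) := fun σ x => by
    rw [← hev, ← hev]
    exact Polynomial.aeval_algHom_apply (σ : F →ₐ[k] F) x _
  -- the pair of roots
  have hαA : α ∈ A := (hmemA α).mpr (by rw [← hevD]; exact hα)
  have hαA' : α' ∈ A := (hmemA α').mpr (by rw [← hevD]; exact hα')
  obtain ⟨x, hx, hgx⟩ := hAS α hαA
  obtain ⟨y, hy, hgy⟩ := hAS α' hαA'
  obtain ⟨b₀, hb₀, hgb₀⟩ := hAS α₁ hα₁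
  obtain ⟨c₀, hc₀, hgc₀⟩ := hAS α₂ hα₂
  obtain ⟨σ, hσ1, hσ2⟩ := htr x y b₀ c₀ ((hmemS' x).mp hx) ((hmemS' y).mp hy)
      ((hmemS' b₀).mp hb₀) ((hmemS' c₀).mp hc₀) (by rw [hev, hev, hgx, hgy]; exact hne) (by
        rw [hev, hev, hgb₀, hgc₀]; exact h12)
  have hσα : σ α = α₁ := by rw [← hgx, ← hσg, hσ1, hgb₀]
  have hσα' : σ α' = α₂ := by rw [← hgy, ← hσg, hσ2, hgc₀]
  have k1 : ∀ z, gF.eval (σ z) = α₁ ↔ aeval z (g.map (algebraMap R k)) = α := by
    intro z
    rw [hσg, hev, ← hσα]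
    exact σ.injective.eq_iff
  have k2 : ∀ z, gF.eval (σ z) = α₂ ↔ aeval z (g.map (algebraMap R k)) = α' := by
    intro z
    rw [hσg, hev, ← hσα']
    exact σ.injective.eq_iff
  have k3 : ∀ z z', gF.eval (σ z) = gF.eval (σ z') ↔
      aeval z (g.map (algebraMap R k)) = aeval z' (g.map (algebraMap R k)) := by
    intro z z'
    rw [hσg, hσg, hev, hev]
    exact σ.injective.eq_iff
  have k4 : ∀ z, σ (σ.symm z) = z := fun z => σ.apply_symm_apply z
  refine ⟨fun z => σ.symm (M₀ (σ z)), fun z => o (σ z), ?_⟩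
  rw [← hK]
  refine ⟨fun a ha b hb ha0 hb0 => ?_, fun β hβ β' hβ' h1 h3 => ?_,
      fun β hβ β' hβ' h1 h3 h4 => ?_, fun β hβ h1 => ?_, fun β hβ β' hβ' h1 h3 h4 => ?_,
      fun β' hβ' h1 => ?_, fun β hβ h1 β' hβ' h3 => ?_⟩
  · show o (σ (a * b)) = o (σ a) + o (σ b)
    rw [map_mul]
    exact hbase.mul _ (hσK σ a ha) _ (hσK σ b hb) ((_root_.map_ne_zero σ).mpr ha0)
      ((_root_.map_ne_zero σ).mpr hb0)
  · show o (σ (β - β')) = 0
    rw [map_sub]
    exact hbase.same _ (hσS σ β hβ) _ (hσS σ β' hβ') (fun h => h1 (σ.injective h))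
      ((k3 β β').mpr h3)
  · show o (σ (β - β')) = 0
    rw [map_sub]
    exact hbase.out _ (hσS σ β hβ) _ (hσS σ β' hβ') (fun h => h1 ((k3 β β').mp h))
      (fun h => h3 ⟨(k1 β).mp h.1, (k2 β').mp h.2⟩) (fun h => h4 ⟨(k2 β).mp h.1, (k1 β').mp h.2⟩)
  · obtain ⟨q1, q2⟩ := hbase.mem _ (hσS σ β hβ) ((k1 β).mpr h1)
    refine ⟨hσS σ.symm _ q1, (k2 _).mp ?_⟩
    rw [k4]
    exact q2
  · have h5 : M₀ (σ β) = M₀ (σ β') := σ.symm.injective h4
    exact σ.injective (hbase.inj _ (hσS σ β hβ) _ (hσS σ β' hβ') ((k1 β).mpr h1)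
      ((k1 β').mpr h3) h5)
  · obtain ⟨β, hβ, hβ1, hβ2⟩ := hbase.surj _ (hσS σ β' hβ') ((k2 β').mpr h1)
    refine ⟨σ.symm β, hσS σ.symm _ hβ, (k1 _).mp (by rw [k4]; exact hβ1), ?_⟩
    show σ.symm (M₀ (σ (σ.symm β))) = β'
    rw [k4, hβ2]
    exact σ.symm_apply_apply β'
  · show o (σ (β - β')) = _
    rw [map_sub, hbase.left _ (hσS σ β hβ) ((k1 β).mpr h1) _ (hσS σ β' hβ') ((k2 β').mpr h3)]
    refine if_congr ⟨fun h => ?_, fun h => ?_⟩ rfl rfl
    · rw [← h]
      exact (σ.symm_apply_apply β').symm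
    · rw [h]
      exact k4 _

end Pool.Agent.Lib.MP_89bcae_ag.Sup

end

end

section

open NumberField Polynomial

namespace Pool.Agent.Lib.MP_89bcae_ag.Re

/-- A number field over which the `ℓ`-th powers of the elements of `T` are seen through the symbol of
`U`. Proof: choose for each nonzero `z ∈ T` an element `x_z ∈ F` with `x_z ^ ℓ = z`; let `x₀` be that of
`z₀` and for `z ∈ T` let `j_z` be the natural number below `ℓ` with
`kap z = j_z * kap z₀` (`ZMod ℓ` is a field); put `w_z = x_z / x₀ ^ j_z`. By `Sup.kap_spec`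
`U x_z = ζ ^ kap(z) x_z`, `U x₀ = ζ ^ kap(z₀) x₀`, so `U w_z = w_z`. Let `E` be the field generated by
the `w_z` over `K`: it is finite over `K` (finitely many algebraic elements) and all its elements are
fixed by `U` (`IntermediateField.adjoin_induction`, or: it is contained in the fixed field). If `y ∈ E`
and `y ^ ℓ = z₀`, then `U y = y`, but `kap_spec` says `U y = ζ ^ kap(z₀) y` with `kap z₀ ≠ 0`, `y ≠ 0`. -/
theorem exists_field {ℓ : ℕ} (hℓ : ℓ.Prime) (K F : Type) [Field K] [NumberField K] [Field F]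
    [Algebra K F] [IsAlgClosure K F] {ζ : K} (hζ : IsPrimitiveRoot ζ ℓ) (U : F ≃ₐ[K] F)
    (T : Finset K) {z₀ : K} (hz₀ : z₀ ≠ 0)
    (hk₀ : Sup.kap ℓ (algebraMap K F ζ) U (algebraMap K F z₀) ≠ 0) :
    ∃ E : IntermediateField K F, FiniteDimensional K E ∧
      (∀ z ∈ T, z ≠ 0 → ∃ (w : E) (j : ℕ), w ≠ 0 ∧
        w ^ ℓ * (algebraMap K E z₀) ^ j = algebraMap K E z ∧
        Sup.kap ℓ (algebraMap K F ζ) U (algebraMap K F z) =
          j * Sup.kap ℓ (algebraMap K F ζ) U (algebraMap K F z₀)) ∧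
      ∀ y : E, y ^ ℓ ≠ algebraMap K E z₀ := by
  classical
  have : Fact ℓ.Prime := ⟨hℓ⟩
  have : NeZero ℓ := ⟨hℓ.ne_zero⟩
  have : IsAlgClosed F := IsAlgClosure.isAlgClosed K
  have halg : Algebra.IsAlgebraic K F := IsAlgClosure.isAlgebraic
  have hζF : IsPrimitiveRoot (algebraMap K F ζ) ℓ :=
    hζ.map_of_injective (algebraMap K F).injective
  have hUζ : U (algebraMap K F ζ) = algebraMap K F ζ := U.commutes ζ
  have hne : ∀ z : K, z ≠ 0 → algebraMap K F z ≠ 0 := fun z hz =>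
    (map_ne_zero_iff _ (algebraMap K F).injective).mpr hz
  have hspec : ∀ (z : K) (x : F), z ≠ 0 → x ^ ℓ = algebraMap K F z →
      U x = algebraMap K F ζ ^ (Sup.kap ℓ (algebraMap K F ζ) U (algebraMap K F z)).val * x :=
    fun z x hz hx => Sup.kap_spec (U : F ≃+* F) hℓ hζF hUζ (hne z hz) (U.commutes z) hx
  choose x hx using fun z : K => IsAlgClosed.exists_pow_nat_eq (algebraMap K F z) hℓ.pos
  have hx0 : ∀ z : K, z ≠ 0 → x z ≠ 0 := by
    intro z hz h
    apply hne z hz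
    rw [← hx z, h, zero_pow hℓ.ne_zero]
  set κ : K → ZMod ℓ := fun z => Sup.kap ℓ (algebraMap K F ζ) U (algebraMap K F z) with hκ
  set j : K → ℕ := fun z => (κ z / κ z₀).val with hj
  have hjκ : ∀ z : K, κ z = (j z : ZMod ℓ) * κ z₀ := by
    intro z
    have h1 : ((j z : ℕ) : ZMod ℓ) = κ z / κ z₀ := ZMod.natCast_zmod_val _
    rw [h1]
    exact (div_mul_cancel₀ _ hk₀).symm
  set w : K → F := fun z => x z / x z₀ ^ j z with hw
  have hw0 : ∀ z : K, z ≠ 0 → w z ≠ 0 := fun z hz =>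
    div_ne_zero (hx0 z hz) (pow_ne_zero _ (hx0 z₀ hz₀))
  have hwℓ : ∀ z : K, w z ^ ℓ * (algebraMap K F z₀) ^ j z = algebraMap K F z := by
    intro z
    have h1 : w z ^ ℓ = algebraMap K F z / (algebraMap K F z₀) ^ j z := by
      rw [hw]
      simp only
      rw [div_pow, hx z, ← pow_mul, mul_comm (j z) ℓ, pow_mul, hx z₀]
    rw [h1]
    exact div_mul_cancel₀ _ (pow_ne_zero _ (hne z₀ hz₀))
  have hpow : ∀ z : K, algebraMap K F ζ ^ (κ z).val = algebraMap K F ζ ^ ((κ z₀).val * j z) := by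
    intro z
    have h1 : (κ z).val ≡ (κ z₀).val * j z [MOD ℓ] := by
      rw [← ZMod.natCast_eq_natCast_iff]
      rw [Nat.cast_mul, ZMod.natCast_zmod_val, ZMod.natCast_zmod_val, hjκ z, mul_comm]
    have h2 : (κ z).val % orderOf (algebraMap K F ζ) =
        ((κ z₀).val * j z) % orderOf (algebraMap K F ζ) := by
      rw [← hζF.eq_orderOf]
      exact h1
    rw [← pow_mod_orderOf, h2, pow_mod_orderOf]
  have hUw : ∀ z : K, z ≠ 0 → U (w z) = w z := by
    intro z hz
    have h1 : U (x z) = algebraMap K F ζ ^ (κ z).val * x z := hspec z (x z) hz (hx z)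
    have h2 : U (x z₀) = algebraMap K F ζ ^ (κ z₀).val * x z₀ := hspec z₀ (x z₀) hz₀ (hx z₀)
    have h3 : algebraMap K F ζ ^ ((κ z₀).val * j z) ≠ 0 :=
      pow_ne_zero _ (hζF.ne_zero hℓ.ne_zero)
    have h4 : U (w z) = U (x z) / U (x z₀) ^ j z := by
      rw [hw]
      simp only
      rw [map_div₀, map_pow]
    rw [h4, h1, h2, hpow z, mul_pow, ← pow_mul]
    exact mul_div_mul_left _ _ h3
  set S : Set F := w '' {z : K | z ∈ T ∧ z ≠ 0} with hS
  have hSfin : S.Finite := by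
    apply Set.Finite.image
    exact T.finite_toSet.subset fun z hz => hz.1
  have : Finite S := hSfin
  have hmem : ∀ z ∈ T, z ≠ 0 → w z ∈ IntermediateField.adjoin K S := fun z hz hz0 =>
    IntermediateField.subset_adjoin K S ⟨z, ⟨hz, hz0⟩, rfl⟩
  have hfix : ∀ y ∈ IntermediateField.adjoin K S, U y = y := by
    intro y hy
    induction hy using IntermediateField.adjoin_induction with
    | mem y hy =>
      obtain ⟨z, hz, rfl⟩ := hy
      exact hUw z hz.2
    | algebraMap a => exact U.commutes a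
    | add a b _ _ ha hb => rw [map_add, ha, hb]
    | inv a _ ha => rw [map_inv₀, ha]
    | mul a b _ _ ha hb => rw [map_mul, ha, hb]
  refine ⟨IntermediateField.adjoin K S,
    IntermediateField.finiteDimensional_adjoin fun y _ => (halg.isAlgebraic y).isIntegral, ?_, ?_⟩
  · intro z hz hz0
    refine ⟨⟨w z, hmem z hz hz0⟩, j z, ?_, ?_, hjκ z⟩
    · intro h
      exact hw0 z hz0 (congrArg Subtype.val h)
    · apply Subtype.ext
      exact hwℓ z
  · intro y hy
    have h1 : (y : F) ^ ℓ = algebraMap K F z₀ := congrArg Subtype.val hy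
    have h2 := hspec z₀ y hz₀ h1
    rw [hfix y y.2] at h2
    have hy0 : (y : F) ≠ 0 := by
      intro h
      apply hne z₀ hz₀
      rw [← h1, h, zero_pow hℓ.ne_zero]
    have h3 : algebraMap K F ζ ^ (κ z₀).val = 1 := by
      have h4 : (1 : F) * y = algebraMap K F ζ ^ (κ z₀).val * y := by
        rw [one_mul]
        exact h2
      exact (mul_right_cancel₀ hy0 h4).symm
    have h5 : ℓ ∣ (κ z₀).val := (hζF.pow_eq_one_iff_dvd _).mp h3
    have h6 : (κ z₀).val = 0 := Nat.eq_zero_of_dvd_of_lt h5 (ZMod.val_lt _)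
    exact hk₀ ((ZMod.val_eq_zero _).mp h6)

end Pool.Agent.Lib.MP_89bcae_ag.Re

end

section

open NumberField Polynomial

namespace Pool.Agent.Lib.MP_89bcae_ag.Re

/-- **A prime with given Kummer symbols, up to a scalar.** Proof: let `E` be the field of
`exists_field` (with `z₀ ∈ T`, `kap z₀ ≠ 0`), a number field. Some `n ≠ 0` in `ℕ` is such that
`b = n ^ ℓ z₀` is in `𝓞 E`; it is not an `ℓ`-th power in `E`. `exists_nonresidue` for `E` (with `ζ` in
`𝓞 E`) and a large bound gives `q` and `φ : 𝓞 E →+* ZMod q` with `φ b ≠ 0` not an `ℓ`-th power.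
`exists_subring` for `E` and the set of the images of `T`, of `ζ`, of `n` and of the `w_z` (all nonzero)
gives `A' ≤ E` and `Φ'`. Let `A` be the inverse image of `A'` in `K` (`Subring.comap`) and `Φ` the
composite. `Φ z₀` is not an `ℓ`-th power, because `Φ' b = (Φ' n) ^ ℓ * Φ z₀` is not; by `exists_symbol`
(`isPrimitiveRoot_map` for `φ ζ`) `(Φ z₀) ^ ((q-1)/ℓ) = (Φ ζ) ^ i.val` with `i ≠ 0`. For `z ∈ T`,
`w_z ^ ℓ z₀ ^ j = z`, so by `symbol_of_pow_mul` the symbol of `Φ z` is `i * j` and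
`kap z = j * kap z₀`: take `c = i / kap z₀`. -/
theorem exists_reduction {ℓ : ℕ} (hℓ : ℓ.Prime) (K F : Type) [Field K] [NumberField K] [Field F]
    [Algebra K F] [IsAlgClosure K F] {ζ : K} (hζ : IsPrimitiveRoot ζ ℓ) (U : F ≃ₐ[K] F)
    (T : Finset K)
    (hT : ∃ z ∈ T, z ≠ 0 ∧ Sup.kap ℓ (algebraMap K F ζ) U (algebraMap K F z) ≠ 0) (N : ℕ) :
    ∃ (q : ℕ) (_ : Fact q.Prime) (A : Subring K) (Φ : A →+* ZMod q) (c : ZMod ℓ) (hζA : ζ ∈ A),
      N < q ∧ ℓ ∣ q - 1 ∧ c ≠ 0 ∧ IsPrimitiveRoot (Φ ⟨ζ, hζA⟩) ℓ ∧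
      ∀ z ∈ T, ∃ hz : z ∈ A, z ≠ 0 → Φ ⟨z, hz⟩ ≠ 0 ∧ (Φ ⟨z, hz⟩) ^ ((q - 1) / ℓ) =
        (Φ ⟨ζ, hζA⟩) ^ (c * Sup.kap ℓ (algebraMap K F ζ) U (algebraMap K F z)).val := by
  obtain ⟨z₀, hz₀T, hz₀, hk₀⟩ := hT
  obtain ⟨E, hfin, hw, hy⟩ := exists_field hℓ K F hζ U T hz₀ hk₀
  have : FiniteDimensional K E := hfin
  have : NumberField E := NumberField.of_module_finite K E
  have : NeZero ℓ := ⟨hℓ.ne_zero⟩
  have : Fact ℓ.Prime := ⟨hℓ⟩
  set kz : K → ZMod ℓ := fun z => Sup.kap ℓ (algebraMap K F ζ) U (algebraMap K F z) with hkz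
  choose! w j hw0 hwz hwk using hw
  set e₀ : E := algebraMap K E z₀ with he₀
  have he₀' : e₀ ≠ 0 := by
    rw [he₀]
    exact (map_ne_zero (algebraMap K E)).2 hz₀
  -- an integral multiple of `z₀`
  obtain ⟨n, hn, hint⟩ : ∃ n : ℕ, n ≠ 0 ∧ IsIntegral ℤ ((n : E) ^ ℓ * e₀) := by
    obtain ⟨y, hy0, hyi⟩ := ((IsFractionRing.isAlgebraic_iff ℤ ℚ E).2
      (Algebra.IsAlgebraic.isAlgebraic e₀)).exists_integral_multiple
    refine ⟨y.natAbs, Int.natAbs_ne_zero.2 hy0, ?_⟩
    have h1 : IsIntegral ℤ ((y.natAbs : E) * e₀) := by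
      rw [zsmul_eq_mul] at hyi
      rcases Int.natAbs_eq y with h | h
      · have h2 : (y : E) = (y.natAbs : E) := by
          conv_lhs => rw [h]
          rw [Int.cast_natCast]
        rw [← h2]; exact hyi
      · have h2 : (y : E) = -(y.natAbs : E) := by
          conv_lhs => rw [h]
          rw [Int.cast_neg, Int.cast_natCast]
        have h3 : (y.natAbs : E) * e₀ = -((y : E) * e₀) := by rw [h2]; ring
        rw [h3]; exact hyi.neg
    have h4 : (y.natAbs : E) ^ ℓ * e₀ = (y.natAbs : E) ^ (ℓ - 1) * ((y.natAbs : E) * e₀) := by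
      rw [← mul_assoc, ← pow_succ, Nat.sub_add_cancel hℓ.one_le]
    rw [h4]
    refine IsIntegral.mul (IsIntegral.pow ?_ _) h1
    exact isIntegral_algebraMap (R := ℤ) (A := E) (x := (y.natAbs : ℤ)) |> fun h => by simpa using h
  have hn' : (n : E) ≠ 0 := Nat.cast_ne_zero.2 hn
  let b : 𝓞 E := ⟨(n : E) ^ ℓ * e₀, hint⟩
  have hbE : (b : E) = (n : E) ^ ℓ * e₀ := rfl
  have hb : b ≠ 0 := by
    intro h
    have h1 : (b : E) = 0 := by rw [h]; rfl
    rw [hbE] at h1
    exact mul_ne_zero (pow_ne_zero _ hn') he₀' h1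
  have hb' : ∀ x : E, x ^ ℓ ≠ b := by
    intro x hx
    apply hy (x / n)
    rw [hbE] at hx
    rw [div_pow, hx, mul_div_cancel_left₀ _ (pow_ne_zero _ hn')]
  have hζ' : IsPrimitiveRoot (algebraMap K E ζ) ℓ :=
    hζ.map_of_injective (algebraMap K E).injective
  set ζE : 𝓞 E := hζ'.toInteger with hζE
  have hζEp : IsPrimitiveRoot ζE ℓ := hζ'.toInteger_isPrimitiveRoot
  have hζEE : (ζE : E) = algebraMap K E ζ := hζ'.coe_toInteger
  -- the finite set
  classical
  let T' : Finset E := T.image (algebraMap K E) ∪ T.image w ∪ {(n : E)}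
  obtain ⟨N₁, hN₁⟩ := exists_subring E T'
  obtain ⟨q, hqp, hq, φ, hφb, hφb'⟩ :=
    exists_nonresidue E hℓ hζEp hb hb' (max N (max N₁ ℓ))
  have : Fact q.Prime := hqp
  have hqN : N < q := lt_of_le_of_lt (le_max_left _ _) hq
  have hqN₁ : N₁ < q := lt_of_le_of_lt ((le_max_left _ _).trans (le_max_right _ _)) hq
  have hqℓ : ℓ < q := lt_of_le_of_lt ((le_max_right _ _).trans (le_max_right _ _)) hq
  obtain ⟨A', Φ', hA', hT'⟩ := hN₁ q hqN₁ φ
  have hne : ∀ x ∈ T', x ≠ 0 → ∀ hx : x ∈ A', Φ' ⟨x, hx⟩ ≠ 0 := by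
    intro x hx hx0 hxA h
    have hi := (hT' x hx).2 hx0
    have h1 : (⟨x, hxA⟩ : A') * ⟨x⁻¹, hi⟩ = 1 := Subtype.ext (mul_inv_cancel₀ hx0)
    have h2 := congrArg Φ' h1
    rw [map_mul, h, zero_mul, map_one] at h2
    exact zero_ne_one h2
  have hmemT : ∀ z ∈ T, algebraMap K E z ∈ T' := fun z hz =>
    Finset.mem_union_left _ (Finset.mem_union_left _ (Finset.mem_image_of_mem _ hz))
  have hmemw : ∀ z ∈ T, w z ∈ T' := fun z hz =>
    Finset.mem_union_left _ (Finset.mem_union_right _ (Finset.mem_image_of_mem _ hz))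
  have hmemn : (n : E) ∈ T' := Finset.mem_union_right _ (Finset.mem_singleton_self _)
  have hnA : (n : E) ∈ A' := (hT' _ hmemn).1
  have hz₀A : e₀ ∈ A' := (hT' _ (hmemT z₀ hz₀T)).1
  obtain ⟨hζA', hζΦ⟩ := hA' ζE
  obtain ⟨hbA', hbΦ⟩ := hA' b
  have hbval : φ b = (Φ' ⟨n, hnA⟩) ^ ℓ * Φ' ⟨e₀, hz₀A⟩ := by
    rw [← hbΦ, ← map_pow, ← map_mul]
    congr 1
  have hpow : ∀ y : ZMod q, y ^ ℓ ≠ Φ' ⟨e₀, hz₀A⟩ := by
    intro y hyy
    apply hφb' (Φ' ⟨n, hnA⟩ * y)
    rw [hbval, mul_pow, hyy]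
  have hζφ : IsPrimitiveRoot (φ ζE) ℓ := isPrimitiveRoot_map hℓ hζEp hqℓ φ
  obtain ⟨hdvd, i, hi0, hi⟩ := exists_symbol hℓ hζφ
    (hne e₀ (hmemT z₀ hz₀T) he₀' hz₀A) hpow
  have hζA : algebraMap K E ζ ∈ A' := hζEE ▸ hζA'
  let A : Subring K := A'.comap (algebraMap K E)
  let g : A →+* A' := (algebraMap K E).restrict A A' (fun x hx => hx)
  have hΦζ : Φ' ⟨algebraMap K E ζ, hζA⟩ = φ ζE := by
    have h1 : (⟨algebraMap K E ζ, hζA⟩ : A') = ⟨(ζE : E), hζA'⟩ := Subtype.ext hζEE.symm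
    rw [h1, hζΦ]
  refine ⟨q, hqp, A, Φ'.comp g, i / kz z₀, hζA, hqN, hdvd, div_ne_zero hi0 hk₀, ?_, ?_⟩
  · show IsPrimitiveRoot (Φ' ⟨algebraMap K E ζ, hζA⟩) ℓ
    rw [hΦζ]; exact hζφ
  · intro z hz
    have hzA : algebraMap K E z ∈ A' := (hT' _ (hmemT z hz)).1
    refine ⟨hzA, fun hz0 => ⟨?_, ?_⟩⟩
    · exact hne _ (hmemT z hz) ((map_ne_zero (algebraMap K E)).2 hz0) hzA
    · show (Φ' ⟨algebraMap K E z, hzA⟩) ^ ((q - 1) / ℓ) =
        (Φ' ⟨algebraMap K E ζ, hζA⟩) ^ (i / kz z₀ * kz z).val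
      have hwA : w z ∈ A' := (hT' _ (hmemw z hz)).1
      have h1 : (Φ' ⟨w z, hwA⟩) ^ ℓ * (Φ' ⟨e₀, hz₀A⟩) ^ (j z) = Φ' ⟨algebraMap K E z, hzA⟩ := by
        rw [← map_pow, ← map_pow, ← map_mul]
        congr 1
        exact Subtype.ext (hwz z hz hz0)
      have h2 := symbol_of_pow_mul hℓ hζφ hdvd (hne _ (hmemw z hz) (hw0 z hz hz0) hwA) h1 hi
      have h3 : i / kz z₀ * kz z = i * (j z : ZMod ℓ) := by
        have h4 : kz z = j z * kz z₀ := hwk z hz hz0
        have h5 : kz z₀ ≠ 0 := hk₀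
        rw [h4]
        field_simp
      rw [h2, hΦζ, h3]

end Pool.Agent.Lib.MP_89bcae_ag.Re

end
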