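import Mathlib
import Pool.Agent.Lib.MP_89bcae_ag.DefsM8
import Pool.Agent.Lib.MP_89bcae_ag.Mk.K039
import Pool.Agent.Lib.MP_89bcae_ag.Mk.K043

namespace Pool.Agent.Lib.MP_89bcae_ag.Superelliptic
end Pool.Agent.Lib.MP_89bcae_ag.Superelliptic

section

/-!
# An automorphism with given symbols of the brackets
-/

namespace Pool.Agent.Lib.MP_89bcae_ag.Lr

open Superelliptic

theorem valOne_h33 {p : ℕ} (hp : p.Prime) {z : ℤ} (h1 : (p : ℤ) ∣ z) (h2 : ¬ (p : ℤ) ^ 2 ∣ z) :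
    padicValInt p z = 1 := by
  have : Fact p.Prime := ⟨hp⟩
  have h5 := (padicValInt_dvd_iff (p := p) 1 z).1 (by rwa [pow_one])
  have h6 : ¬ 2 ≤ padicValInt p z := fun h6 => h2 ((padicValInt_dvd_iff (p := p) 2 _).2 (Or.inr h6))
  rcases h5 with h5 | h5
  · exact absurd (h5 ▸ dvd_zero _) h2
  · omega

theorem bracketPerm_h33 {ι : Type} [DecidableEq ι] (v : ι × Fin 3 → ℤ) {i j l x y z : ι}
    (hij : i ≠ j) (hjl : j ≠ l) (hil : i ≠ l) (h : ({i, j, l} : Finset ι) = {x, y, z}) :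
    bracket v i j l = bracket v x y z ∨ bracket v i j l = -bracket v x y z := by
  have hi : i = x ∨ i = y ∨ i = z := by
    have : i ∈ ({x, y, z} : Finset ι) := h ▸ (by simp)
    simpa using this
  have hj : j = x ∨ j = y ∨ j = z := by
    have : j ∈ ({x, y, z} : Finset ι) := h ▸ (by simp)
    simpa using this
  have hl : l = x ∨ l = y ∨ l = z := by
    have : l ∈ ({x, y, z} : Finset ι) := h ▸ (by simp)
    simpa using this
  clear h
  unfold bracket
  rw [Matrix.det_fin_three, Matrix.det_fin_three]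
  rcases hi with rfl | rfl | rfl <;> rcases hj with rfl | rfl | rfl <;>
    rcases hl with rfl | rfl | rfl <;>
    first
      | exact absurd rfl hij
      | exact absurd rfl hjl
      | exact absurd rfl hil
      | (left; simp; ring1)
      | (right; simp; ring1)
      | (left; simp)

theorem exists_prime_h33 {ι : Type} [DecidableEq ι] {v : ι × Fin 3 → ℤ}
    (hv : HasPrivatePrimes v) (T : {T : Finset ι // T.card = 3}) :
    ∃ p : ℕ, p.Prime ∧ ∀ i j l : ι, i ≠ j → j ≠ l → i ≠ l →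
      padicValInt p (bracket v i j l) = if ({i, j, l} : Finset ι) = T.1 then 1 else 0 := by
  obtain ⟨T, hT⟩ := T
  obtain ⟨x, y, z, hxy, hxz, hyz, rfl⟩ := Finset.card_eq_three.1 hT
  obtain ⟨p, hp, h1, h2, h3⟩ := hv x y z hxy hyz hxz
  refine ⟨p, hp, fun i j l hij hjl hil => ?_⟩
  split_ifs with h
  · apply valOne_h33 hp
    · rcases bracketPerm_h33 v hij hjl hil h with h4 | h4
      · rw [h4]; exact h1
      · rw [h4]; exact (dvd_neg).2 h1
    · rcases bracketPerm_h33 v hij hjl hil h with h4 | h4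
      · rw [h4]; exact h2
      · rw [h4, dvd_neg]; exact h2
  · apply padicValInt.eq_zero_of_not_dvd
    apply h3 i j l hij hjl hil
    intro h4
    apply h
    apply Finset.coe_injective
    push_cast
    exact h4

/-- Proof: for `T : Finset ι` of the form `{i, j, l}` (three different elements) let `p T` be the private
prime of `bracket v i j l` (`hasPrivatePrimes_iff8`, `OnlyPbr14`). `Sup.exists_U_of_lam` for `k := K`,
`K := ⊥`, `lam x = ∑ T ∈ Finset.univ.filter (·.card = 3), C T * (normVal14 K (p T) ℓ).ν x'` where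
`x = algebraMap K F x'` (`Function.invFun`, or `IntermediateField.mem_bot`), and `T` the image of the
brackets. By `normVal14_int` the value at `bracket v i j l` is
`∑ T, C T * padicValInt (p T) (bracket v i j l)`, which is `C {i, j, l}` because
`padicValInt (p T) (bracket v i j l)` is `1` for `T = {i, j, l}` and `0` otherwise (see the end of
`prjIndepN14` in `LPrjN14.lean` for the same computation). -/
theorem exists_U_lines {ι : Type} [Fintype ι] [LinearOrder ι] {v : ι × Fin 3 → ℤ}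
    (hv : HasPrivatePrimes v) {ℓ : ℕ} (hℓ : ℓ.Prime) (K F : Type) [Field K] [Algebra ℚ K]
    [IsCyclotomicExtension {ℓ} ℚ K] [Field F] [Algebra K F] [IsAlgClosure K F] {ζ : K}
    (hζ : IsPrimitiveRoot ζ ℓ) (C : Finset ι → ZMod ℓ) :
    ∃ U : F ≃ₐ[K] F, ∀ i j l : ι, i ≠ j → j ≠ l → i ≠ l →
      Sup.kap ℓ (algebraMap K F ζ) U (algebraMap K F (bracket v i j l : K)) = C {i, j, l} := by
  classical
  have : NeZero ℓ := ⟨hℓ.ne_zero⟩
  have : CharZero K := charZero_of_injective_algebraMap (algebraMap ℚ K).injective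
  have : IsAlgClosed F := IsAlgClosure.isAlgClosed K
  have : Algebra.IsAlgebraic K F := IsAlgClosure.isAlgebraic
  choose p hp hpv using exists_prime_h33 hv
  have hpf : ∀ T, Fact (p T).Prime := fun T => ⟨hp T⟩
  have hinj : Function.Injective (algebraMap K F) := (algebraMap K F).injective
  set lam : F → ZMod ℓ := fun x => ∑ T : {T : Finset ι // T.card = 3},
    C T.1 * (normVal14 K (p T) ℓ).ν (Function.invFun (algebraMap K F) x) with hlam
  have hlamK : ∀ y : K, lam (algebraMap K F y) = ∑ T : {T : Finset ι // T.card = 3},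
      C T.1 * (normVal14 K (p T) ℓ).ν y := by
    intro y
    simp only [hlam]
    rw [Function.leftInverse_invFun hinj y]
  have hbne : ∀ i j l : ι, i ≠ j → j ≠ l → i ≠ l → bracket v i j l ≠ 0 := by
    intro i j l hij hjl hil h
    obtain ⟨q, -, -, h2, -⟩ := hv i j l hij hjl hil
    apply h2
    rw [h]
    exact dvd_zero _
  set TT : Finset F := ((Finset.univ : Finset (ι × ι × ι)).filter
    (fun t => t.1 ≠ t.2.1 ∧ t.2.1 ≠ t.2.2 ∧ t.1 ≠ t.2.2)).image
    (fun t => algebraMap K F (bracket v t.1 t.2.1 t.2.2 : K)) with hTT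
  obtain ⟨U, -, hU⟩ := Sup.exists_U_of_lam (k := K) (F := F) hℓ
    (Nat.cast_ne_zero.2 hℓ.ne_zero) hζ ⊥ lam (by
      intro x hx y hy hx0 hy0
      obtain ⟨x', rfl⟩ := IntermediateField.mem_bot.1 hx
      obtain ⟨y', rfl⟩ := IntermediateField.mem_bot.1 hy
      have hx' : x' ≠ 0 := fun h => hx0 (by rw [h, map_zero])
      have hy' : y' ≠ 0 := fun h => hy0 (by rw [h, map_zero])
      rw [← map_mul, hlamK, hlamK, hlamK, ← Finset.sum_add_distrib]
      refine Finset.sum_congr rfl fun T _ => ?_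
      rw [(normVal14 K (p T) ℓ).mul x' y' hx' hy', mul_add]) TT (by
      intro x hx
      rw [hTT, Finset.mem_image] at hx
      obtain ⟨t, ht, rfl⟩ := hx
      rw [Finset.mem_filter] at ht
      refine ⟨IntermediateField.mem_bot.2 ⟨_, rfl⟩, ?_⟩
      rw [map_ne_zero_iff _ hinj]
      exact Int.cast_ne_zero.2 (hbne _ _ _ ht.2.1 ht.2.2.1 ht.2.2.2))
  refine ⟨U, fun i j l hij hjl hil => ?_⟩
  rw [hU _ (by
    rw [hTT, Finset.mem_image]
    exact ⟨(i, j, l), Finset.mem_filter.2 ⟨Finset.mem_univ _, hij, hjl, hil⟩, rfl⟩), hlamK]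
  have hcard : ({i, j, l} : Finset ι).card = 3 := Finset.card_eq_three.2 ⟨i, j, l, hij, hil, hjl, rfl⟩
  rw [Finset.sum_eq_single (⟨{i, j, l}, hcard⟩ : {T : Finset ι // T.card = 3})]
  · rw [normVal14_int hℓ, hpv _ i j l hij hjl hil, if_pos rfl]
    simp
  · intro T _ hT
    rw [normVal14_int hℓ, hpv _ i j l hij hjl hil, if_neg]
    · simp
    · intro h
      apply hT
      exact Subtype.ext h.symm
  · intro h
    exact absurd (Finset.mem_univ _) h

end Pool.Agent.Lib.MP_89bcae_ag.Lr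

end

section

/-!
# Prime fields in which the brackets have given symbols
-/

namespace Pool.Agent.Lib.MP_89bcae_ag.Lr

open Superelliptic

/-- **Primes with given symbols of the brackets.** Proof: `K = CyclotomicField ℓ ℚ` (a number field),
`F = AlgebraicClosure K`, `ζ` a primitive root in `K`, `U` from `exists_U_lines`; `Re.exists_reduction` for
`T` the finite set of the `(bracket v i j l : K)` (all `i, j, l` different); `hT` from `hC`. It gives `q`,
`A`, `Φ`, `c ≠ 0`; let `ζ' = (Φ ζ) ^ c.val`, a primitive root of order `ℓ` (`IsPrimitiveRoot.pow_of_coprime`).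
For `z = (bracket v i j l : K)`: `Φ z = (bracket v i j l : ZMod q)` (`map_intCast`, the subring `A` contains
the integers) is not zero and its power is `(Φ ζ) ^ (c * C {i, j, l}).val = ζ' ^ (C {i, j, l}).val`
(exponents modulo `ℓ`: `pow_eq_pow_mod`/`IsPrimitiveRoot.pow_eq_one`; `ZMod.val_mul`). Then `V` is that of
`exists_val_zmod` for `ζ'`. -/
theorem exists_prime_lines {ι : Type} [Fintype ι] [LinearOrder ι] {v : ι × Fin 3 → ℤ}
    (hv : HasPrivatePrimes v) {ℓ : ℕ} (hℓ : ℓ.Prime) (hℓ2 : ℓ ≠ 2) (C : Finset ι → ZMod ℓ)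
    (hC : ∃ i j l : ι, i ≠ j ∧ j ≠ l ∧ i ≠ l ∧ C {i, j, l} ≠ 0) (N : ℕ) :
    ∃ (q : ℕ) (_ : Fact q.Prime) (ζ : ZMod q) (V : Val14 (ZMod q) ℓ), N < q ∧
      IsPrimitiveRoot ζ ℓ ∧ ∀ i j l : ι, i ≠ j → j ≠ l → i ≠ l →
        ((bracket v i j l : ℤ) : ZMod q) ≠ 0 ∧
          V.ν ((bracket v i j l : ℤ) : ZMod q) = C {i, j, l} := by
  classical
  have : Fact ℓ.Prime := ⟨hℓ⟩
  have : NeZero ℓ := ⟨hℓ.ne_zero⟩
  have : IsCyclotomicExtension {ℓ} ℚ (CyclotomicField ℓ ℚ) :=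
    CyclotomicField.isCyclotomicExtension ℓ ℚ
  have hζ : IsPrimitiveRoot (IsCyclotomicExtension.zeta ℓ ℚ (CyclotomicField ℓ ℚ)) ℓ :=
    IsCyclotomicExtension.zeta_spec ℓ ℚ (CyclotomicField ℓ ℚ)
  generalize IsCyclotomicExtension.zeta ℓ ℚ (CyclotomicField ℓ ℚ) = ζ at hζ
  obtain ⟨U, hU⟩ := exists_U_lines hv hℓ (CyclotomicField ℓ ℚ)
    (AlgebraicClosure (CyclotomicField ℓ ℚ)) hζ C
  have hne : ∀ i j l : ι, i ≠ j → j ≠ l → i ≠ l → bracket v i j l ≠ 0 := by
    intro i j l h1 h2 h3 h0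
    obtain ⟨p, -, -, hp2, -⟩ := hv i j l h1 h2 h3
    exact hp2 (h0 ▸ dvd_zero _)
  have hneK : ∀ i j l : ι, i ≠ j → j ≠ l → i ≠ l →
      ((bracket v i j l : ℤ) : CyclotomicField ℓ ℚ) ≠ 0 :=
    fun i j l h1 h2 h3 => Int.cast_ne_zero.2 (hne i j l h1 h2 h3)
  let T : Finset (CyclotomicField ℓ ℚ) :=
    ((Finset.univ : Finset (ι × ι × ι)).filter
      (fun t => t.1 ≠ t.2.1 ∧ t.2.1 ≠ t.2.2 ∧ t.1 ≠ t.2.2)).image
      (fun t => ((bracket v t.1 t.2.1 t.2.2 : ℤ) : CyclotomicField ℓ ℚ))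
  have hmem : ∀ i j l : ι, i ≠ j → j ≠ l → i ≠ l →
      ((bracket v i j l : ℤ) : CyclotomicField ℓ ℚ) ∈ T := by
    intro i j l h1 h2 h3
    exact Finset.mem_image.2 ⟨(i, j, l), by simp [h1, h2, h3], rfl⟩
  obtain ⟨i₀, j₀, l₀, h1, h2, h3, h4⟩ := hC
  obtain ⟨q, hq, A, Φ, c, hζA, hNq, hdvd, hc, hprim, hT⟩ :=
    Re.exists_reduction hℓ (CyclotomicField ℓ ℚ) (AlgebraicClosure (CyclotomicField ℓ ℚ)) hζ U T
      ⟨_, hmem i₀ j₀ l₀ h1 h2 h3, hneK i₀ j₀ l₀ h1 h2 h3, by rw [hU i₀ j₀ l₀ h1 h2 h3]; exact h4⟩ N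
  have hcop : Nat.Coprime c.val ℓ := by
    refine ((Nat.Prime.coprime_iff_not_dvd hℓ).2 ?_).symm
    intro hd
    apply hc
    have h5 : c.val = 0 := Nat.eq_zero_of_dvd_of_lt hd (ZMod.val_lt c)
    exact (ZMod.val_eq_zero c).1 h5
  have hζ' : IsPrimitiveRoot ((Φ ⟨ζ, hζA⟩) ^ c.val) ℓ := hprim.pow_of_coprime c.val hcop
  obtain ⟨V, hV⟩ := exists_val_zmod hℓ hℓ2 hdvd hζ'
  refine ⟨q, hq, (Φ ⟨ζ, hζA⟩) ^ c.val, V, hNq, hζ', ?_⟩
  intro i j l h1 h2 h3
  obtain ⟨hz, hrest⟩ := hT _ (hmem i j l h1 h2 h3)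
  obtain ⟨h0, hpow⟩ := hrest (hneK i j l h1 h2 h3)
  have hΦ : Φ ⟨((bracket v i j l : ℤ) : CyclotomicField ℓ ℚ), hz⟩ =
      ((bracket v i j l : ℤ) : ZMod q) := by
    have h5 : (⟨((bracket v i j l : ℤ) : CyclotomicField ℓ ℚ), hz⟩ : A) =
        ((bracket v i j l : ℤ) : A) := Subtype.ext (by push_cast; rfl)
    rw [h5, map_intCast]
  rw [hΦ] at h0 hpow
  refine ⟨h0, hV _ _ h0 ?_⟩
  rw [hpow, hU i j l h1 h2 h3, ZMod.val_mul, ← pow_mul]
  exact (pow_eq_pow_mod _ hprim.pow_eq_one).symm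

end Pool.Agent.Lib.MP_89bcae_ag.Lr

end
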