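import Mathlib
import Pool.Agent.Lib.MP_89bcae_ag.DefsR8
import Pool.Agent.Lib.MP_89bcae_ag.Mk.K032
import Pool.Agent.Lib.MP_89bcae_ag.Mk.K033
import Pool.Agent.Lib.MP_89bcae_ag.Mk.K044

namespace Pool.Agent.Lib.MP_89bcae_ag.Superelliptic
end Pool.Agent.Lib.MP_89bcae_ag.Superelliptic

section

/-!
# The density one theorem for lines of the projective plane, for all primes `ℓ` at the same time
-/

open Polynomial Filter Topology

open scoped Classical

set_option linter.unusedSimpArgs false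
set_option linter.unusedVariables false
set_option linter.unusedSectionVars false
set_option linter.style.haveILetI false

namespace Pool.Agent.Lib.MP_89bcae_ag

open Superelliptic

/-- Monotonicity of density one. -/
theorem density_monoN14 {κ : Type} [Fintype κ] (N : ℕ) (hN : Fintype.card κ = N)
    {P Q : (κ → ℤ) → Prop} (hPQ : ∀ v, P v → Q v)
    (h : Tendsto (fun H : ℕ => ({v : κ → ℤ | (∀ i, |v i| ≤ H) ∧ P v}.ncard : ℝ) /
      (2 * H + 1) ^ N) atTop (𝓝 1)) :
    Tendsto (fun H : ℕ => ({v : κ → ℤ | (∀ i, |v i| ≤ H) ∧ Q v}.ncard : ℝ) /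
      (2 * H + 1) ^ N) atTop (𝓝 1) := by
  have hbox : ∀ H : ℕ, {v : κ → ℤ | ∀ i, |v i| ≤ H} =
      ((Fintype.piFinset fun _ : κ => Finset.Icc (-(H : ℤ)) H : Finset (κ → ℤ)) :
        Set (κ → ℤ)) := by
    intro H
    ext v
    rw [Finset.mem_coe, Fintype.mem_piFinset]
    refine forall_congr' fun i => ?_
    rw [Finset.mem_Icc]
    exact abs_le
  have hfin : ∀ (H : ℕ) (R : (κ → ℤ) → Prop), ({v : κ → ℤ | (∀ i, |v i| ≤ H) ∧ R v}).Finite := by
    intro H R
    refine Set.Finite.subset (Finset.finite_toSet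
      (Fintype.piFinset fun _ : κ => Finset.Icc (-(H : ℤ)) H)) ?_
    rw [← hbox]
    exact fun v hv => hv.1
  have hcard : ∀ H : ℕ, ({v : κ → ℤ | ∀ i, |v i| ≤ H}).ncard = (2 * H + 1) ^ N := by
    intro H
    rw [hbox, Set.ncard_coe_finset, Fintype.card_piFinset]
    rw [Finset.prod_const, Finset.card_univ, hN, Int.card_Icc]
    congr 1
    omega
  refine tendsto_of_tendsto_of_tendsto_of_le_of_le h tendsto_const_nhds (fun H => ?_) fun H => ?_
  · have hpos : (0 : ℝ) < (2 * (H : ℝ) + 1) ^ N := by positivity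
    rw [div_le_div_iff_of_pos_right hpos]
    have h1 : ({v : κ → ℤ | (∀ i, |v i| ≤ H) ∧ P v}).ncard ≤
        ({v : κ → ℤ | (∀ i, |v i| ≤ H) ∧ Q v}).ncard :=
      Set.ncard_le_ncard (fun v (hv : (∀ i, |v i| ≤ H) ∧ P v) => ⟨hv.1, hPQ v hv.2⟩) (hfin H Q)
    exact_mod_cast h1
  · have hpos : (0 : ℝ) < (2 * (H : ℝ) + 1) ^ N := by positivity
    rw [div_le_one hpos]
    have h1 : ({v : κ → ℤ | (∀ i, |v i| ≤ H) ∧ Q v}).ncard ≤
        ({v : κ → ℤ | ∀ i, |v i| ≤ H}).ncard := by
      refine Set.ncard_le_ncard (fun v hv => hv.1) ?_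
      rw [hbox]
      exact Finset.finite_toSet _
    rw [hcard] at h1
    exact_mod_cast h1

/-- The property at one prime `ℓ` and one family of lines, with the cyclotomic field as an argument. -/
theorem tateClassesTorsionN14 {ι : Type} [Fintype ι] [LinearOrder ι] {v : ι × Fin 3 → ℤ}
    (hv : ∀ x y z : ι, x ≠ y → y ≠ z → x ≠ z → ∃ p : ℕ, p.Prime ∧ OnlyPbr14 p x y z v)
    {ℓ : ℕ} (hℓ : ℓ.Prime) (F L Ω : Type) [Field F] [Algebra ℚ F]
    [IsAlgClosure ℚ F] [Field L] [Algebra F[X] L] [IsFractionRing F[X] L] [Field Ω] [Algebra L Ω]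
    [IsAlgClosure L Ω] (K : Type) [Field K] [Algebra ℚ K] [IsCyclotomicExtension {ℓ} ℚ K]
    (i₀ : ι) (g : Matrix (Fin 3) (Fin 3) ℚ) (I : Finset ι) (hg : IsChart v g i₀ I)
    (harr : IsArrangement fun i : I => linePoly v g i) (hI : 4 ≤ I.card)
    (W : I → ℕ) (hW : ∀ i, (W i).Coprime ℓ) (hs : (∑ i, W i).Coprime ℓ)
    (k' : IntermediateField ℚ F) (hk' : FiniteDimensional ℚ k') :
    Nrm.TateClassesTorsionW ℓ L Ω W (fun i : I => linePoly v g i) k' := by
  haveI : NeZero ℓ := ⟨hℓ.ne_zero⟩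
  have hF : IsAlgClosed F := IsAlgClosure.isAlgClosed ℚ
  haveI hfin : FiniteDimensional ℚ K := IsCyclotomicExtension.finiteDimensional {ℓ} ℚ K
  let e : K →ₐ[ℚ] F := IsAlgClosed.lift
  letI : Algebra K F := e.toRingHom.toAlgebra
  haveI : IsScalarTower ℚ K F := IsScalarTower.of_algebraMap_eq fun x => (e.commutes x).symm
  have hi₀ : i₀ ∉ I := fun h => hg.ne_zero i₀ h hg.at_infinity.1
  obtain ⟨h1, h2⟩ := prjIndepN14 hℓ hv hi₀ hI hg W hW hs harr K F
  exact tateClassesTorsionN8 (Wt.tateClassesTorsionW_of_cyclotomic45 hℓ F L Ω K W _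
    (fun hcl h0 ζ hζ K' hK' => by
      haveI := hcl
      haveI := hK'
      exact Wt.Lns.arrangementW F L Ω hℓ h0 hζ W hW hs _ h1 h2 K') k' hk')

/-- **The density one theorem**, for all primes `ℓ` at the same time. -/
theorem lineCoversN14 (F L Ω : Type) [Field F] [Algebra ℚ F]
    [IsAlgClosure ℚ F] [Field L] [Algebra F[X] L] [IsFractionRing F[X] L] [Field Ω] [Algebra L Ω]
    [IsAlgClosure L Ω] (m : ℕ) (hm : 3 ≤ m) :
    Tendsto (fun H : ℕ => ({v : Fin m × Fin 3 → ℤ | (∀ i, |v i| ≤ H) ∧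
      ((∀ i₀, ∃ g : Matrix (Fin 3) (Fin 3) ℚ, IsChart v g i₀ (Finset.univ.erase i₀) ∧
        IsArrangement fun i : (Finset.univ.erase i₀ : Finset (Fin m)) => linePoly v g i) ∧
      ∀ ℓ : ℕ, ℓ.Prime →
        ∀ (i₀ : Fin m) (g : Matrix (Fin 3) (Fin 3) ℚ) (I : Finset (Fin m)), IsChart v g i₀ I →
        (IsArrangement fun i : I => linePoly v g i) → 4 ≤ I.card →
        ∀ W : I → ℕ, (∀ i, (W i).Coprime ℓ) → (∑ i, W i).Coprime ℓ →
          ∀ k' : IntermediateField ℚ F, FiniteDimensional ℚ k' →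
            Nrm.TateClassesTorsionW ℓ L Ω W (fun i : I => linePoly v g i) k')}.ncard : ℝ) /
      (2 * H + 1) ^ (3 * m)) atTop (𝓝 1) := by
  have hcard : Fintype.card (Fin m × Fin 3) = 3 * m := by
    rw [Fintype.card_prod, Fintype.card_fin, Fintype.card_fin, mul_comm]
  have hd := prjDensity14 (ι := Fin m) 1 0
  rw [hcard] at hd
  refine density_monoN14 (3 * m) hcard ?_ hd
  intro v hv
  have hv' : ∀ x y z : Fin m, x ≠ y → y ≠ z → x ≠ z → ∃ p : ℕ, p.Prime ∧ OnlyPbr14 p x y z v := by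
    intro x y z hxy hyz hxz
    obtain ⟨p, hp, -, -, hpo⟩ := hv x y z hxy hyz hxz
    exact ⟨p, hp, hpo⟩
  refine ⟨fun i₀ => exists_chart14 (fun x y z hxy hyz hxz h0 => ?_)
    (by rw [Fintype.card_fin]; exact hm) i₀, ?_⟩
  · obtain ⟨p, -, -, h3, -⟩ := hv' x y z hxy hyz hxz
    apply h3
    rw [h0]
    exact dvd_zero _
  · intro ℓ hℓ i₀ g I hg harr hI W hW hs k' hk'
    haveI : NeZero ℓ := ⟨hℓ.ne_zero⟩
    exact @tateClassesTorsionN14 (Fin m) _ _ v hv' ℓ hℓ F L Ω _ _ _ _ _ _ _ _ _
      (CyclotomicField ℓ ℚ) _ (CyclotomicField.algebra ℓ ℚ) inferInstance i₀ g I hg harr hI W hW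
      hs k' hk'

end Pool.Agent.Lib.MP_89bcae_ag

end

section

/-!
# Lines of the projective plane whose brackets have private primes
-/

open Polynomial Filter Topology

open scoped Classical

set_option linter.unusedVariables false
set_option linter.style.haveILetI false

namespace Pool.Agent.Lib.MP_89bcae_ag

open Superelliptic

section

variable {ι : Type}

lemma bracket_eq8 (v : ι × Fin 3 → ℤ) (i j k : ι) : bracket v i j k = pbr14 v i j k := by
  unfold bracket pbr14
  rw [Matrix.det_fin_three]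
  simp
  ring

lemma set_three_ne8 {i j k a b c : ι} (hab : a ≠ b) (hbc : b ≠ c) (hac : a ≠ c) :
    ({a, b, c} : Set ι) ≠ {i, j, k} ↔
      ¬ (a ∈ ({i, j, k} : Set ι) ∧ b ∈ ({i, j, k} : Set ι) ∧ c ∈ ({i, j, k} : Set ι)) := by
  refine not_congr ⟨fun h => ?_, fun h => ?_⟩
  · rw [← h]
    simp
  · obtain ⟨h1, h2, h3⟩ := h
    simp only [Set.mem_insert_iff, Set.mem_singleton_iff] at h1 h2 h3
    ext x
    simp only [Set.mem_insert_iff, Set.mem_singleton_iff]
    constructor
    · rintro (rfl | rfl | rfl) <;> assumption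
    · rintro (rfl | rfl | rfl) <;> rcases h1 with rfl | rfl | rfl <;>
        rcases h2 with rfl | rfl | rfl <;> rcases h3 with rfl | rfl | rfl <;> simp_all

lemma hasPrivatePrimes_iff8 (v : ι × Fin 3 → ℤ) : HasPrivatePrimes v ↔
    ∀ x y z : ι, x ≠ y → y ≠ z → x ≠ z → ∃ p : ℕ, p.Prime ∧ OnlyPbr14 p x y z v := by
  unfold HasPrivatePrimes OnlyPbr14
  refine forall_congr' fun i => forall_congr' fun j => forall_congr' fun k => forall_congr' fun _ =>
    forall_congr' fun _ => forall_congr' fun _ => exists_congr fun p => and_congr_right fun _ => ?_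
  rw [bracket_eq8]
  refine and_congr_right fun _ => and_congr_right fun _ => forall_congr' fun a =>
    forall_congr' fun b => forall_congr' fun c => forall_congr' fun hab => forall_congr' fun hbc =>
    forall_congr' fun hac => ?_
  rw [set_three_ne8 hab hbc hac, bracket_eq8]

end

/-- **The criterion and the density one theorem.** -/
theorem lineCovers8 (F L Ω : Type) [Field F] [Algebra ℚ F]
    [IsAlgClosure ℚ F] [Field L] [Algebra F[X] L] [IsFractionRing F[X] L] [Field Ω] [Algebra L Ω]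
    [IsAlgClosure L Ω] (m : ℕ) (hm : 3 ≤ m) :
    (∀ v : Fin m × Fin 3 → ℤ, HasPrivatePrimes v →
      (∀ i₀, ∃ g : Matrix (Fin 3) (Fin 3) ℚ, IsChart v g i₀ (Finset.univ.erase i₀) ∧
        IsArrangement fun i : (Finset.univ.erase i₀ : Finset (Fin m)) => linePoly v g i) ∧
      ∀ ℓ : ℕ, ℓ.Prime →
        ∀ (i₀ : Fin m) (g : Matrix (Fin 3) (Fin 3) ℚ) (I : Finset (Fin m)), IsChart v g i₀ I →
        (IsArrangement fun i : I => linePoly v g i) → 4 ≤ I.card →
        ∀ W : I → ℕ, (∀ i, (W i).Coprime ℓ) → (∑ i, W i).Coprime ℓ →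
          ∀ k' : IntermediateField ℚ F, FiniteDimensional ℚ k' →
            Nrm.TateClassesTorsionW ℓ L Ω W (fun i : I => linePoly v g i) k') ∧
    Tendsto (fun H : ℕ => ({v : Fin m × Fin 3 → ℤ | (∀ i, |v i| ≤ H) ∧
      HasPrivatePrimes v}.ncard : ℝ) / (2 * H + 1) ^ (3 * m)) atTop (𝓝 1) := by
  have hcard : Fintype.card (Fin m × Fin 3) = 3 * m := by
    rw [Fintype.card_prod, Fintype.card_fin, Fintype.card_fin, mul_comm]
  refine ⟨fun v hv => ?_, ?_⟩
  · rw [hasPrivatePrimes_iff8] at hv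
    refine ⟨fun i₀ => exists_chart14 (fun x y z hxy hyz hxz h0 => ?_)
      (by rw [Fintype.card_fin]; exact hm) i₀, ?_⟩
    · obtain ⟨p, -, -, h3, -⟩ := hv x y z hxy hyz hxz
      apply h3
      rw [h0]
      exact dvd_zero _
    · intro ℓ hℓ i₀ g I hg harr hI W hW hs k' hk'
      haveI : NeZero ℓ := ⟨hℓ.ne_zero⟩
      exact @tateClassesTorsionN14 (Fin m) _ _ v hv ℓ hℓ F L Ω _ _ _ _ _ _ _ _ _
        (CyclotomicField ℓ ℚ) _ (CyclotomicField.algebra ℓ ℚ) inferInstance i₀ g I hg harr hI W hW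
        hs k' hk'
  · have hd := prjDensity14 (ι := Fin m) 1 0
    rw [hcard] at hd
    refine density_monoN14 (3 * m) hcard (fun v hv => ?_) hd
    rw [hasPrivatePrimes_iff8]
    intro x y z hxy hyz hxz
    obtain ⟨p, hp, -, -, hpo⟩ := hv x y z hxy hyz hxz
    exact ⟨p, hp, hpo⟩

end Pool.Agent.Lib.MP_89bcae_ag

end

section

/-!
# Lines of the projective plane over a field: existence of charts
-/

open Polynomial

open scoped Classical

set_option linter.unusedSectionVars false
set_option linter.unusedSimpArgs false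
set_option linter.style.haveILetI false

namespace Pool.Agent.Lib.MP_89bcae_ag.Lr

open Superelliptic

variable {ι : Type} [Fintype ι] [LinearOrder ι] {k : Type} [Field k]

/-- Finitely many nonzero affine functions have a common nonzero, over a field with enough elements. -/
lemma exists_affine_h61 {k : Type} [Field k] {κ : Type} [Fintype κ] (a b : κ → k)
    (h : ∀ x, a x ≠ 0 ∨ b x ≠ 0) {N : ℕ} (hN : Fintype.card κ ≤ N)
    (hk : ∀ S : Finset k, S.card ≤ N → ∃ s, s ∉ S) :
    ∃ s : k, ∀ x, a x + s * b x ≠ 0 := by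
  obtain ⟨s, hs⟩ := hk (Finset.univ.image fun x => -a x / b x)
    (Finset.card_image_le.trans (by rw [Finset.card_univ]; exact hN))
  refine ⟨s, fun x hx => hs ?_⟩
  rw [Finset.mem_image]
  refine ⟨x, Finset.mem_univ _, ?_⟩
  have hb : b x ≠ 0 := by
    intro hb
    rw [hb, mul_zero, add_zero] at hx
    exact (h x).elim (fun h1 => h1 hx) (fun h1 => h1 hb)
  rw [div_eq_iff hb]
  linear_combination -hx

/-- Coordinates with a given line at infinity. -/
lemma exists_basis_h61 {k : Type} [Field k] (a : Fin 3 → k) (ha : a ≠ 0) : ∃ g : Matrix (Fin 3) (Fin 3) k, g.det ≠ 0 ∧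
    ∑ l, a l * g l 0 = 0 ∧ ∑ l, a l * g l 1 = 0 := by
  by_cases h2 : a 2 = 0
  · by_cases h1 : a 1 = 0
    · have h0 : a 0 ≠ 0 := by
        intro h0
        apply ha
        funext i
        fin_cases i
        · exact h0
        · exact h1
        · exact h2
      refine ⟨!![0, 0, 1; 1, 0, 0; 0, 1, 0], ?_, ?_, ?_⟩
      · rw [Matrix.det_fin_three]
        simp
      · simp [Fin.sum_univ_three, h1]
      · simp [Fin.sum_univ_three, h2]
    · refine ⟨!![a 1, 0, 0; -a 0, 0, 1; 0, 1, 0], ?_, ?_, ?_⟩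
      · rw [Matrix.det_fin_three]
        simp [h1]
      · simp [Fin.sum_univ_three, h2]
        ring
      · simp [Fin.sum_univ_three, h2]
  · refine ⟨!![a 2, 0, 0; 0, a 2, 0; -a 0, -a 1, 1], ?_, ?_, ?_⟩
    · rw [Matrix.det_fin_three]
      simp [h2]
    · simp [Fin.sum_univ_three]
      ring
    · simp [Fin.sum_univ_three]
      ring

lemma dt_lineCoeff_h61 (v : ι × Fin 3 → ℤ) (g : Matrix (Fin 3) (Fin 3) k) (x y z : ι) :
    dt14 (Over.lineCoeff v g x) (Over.lineCoeff v g y) (Over.lineCoeff v g z) =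
      g.det * ((bracket v x y z : ℤ) : k) := by
  have h1 := dt14_mul (fun l => (v (x, l) : k)) (fun l => (v (y, l) : k))
    (fun l => (v (z, l) : k)) g
  have h2 : dt14 (fun l => (v (x, l) : k)) (fun l => (v (y, l) : k)) (fun l => (v (z, l) : k)) =
      ((bracket v x y z : ℤ) : k) := by
    rw [bracket_eq8]
    unfold dt14 pbr14
    push_cast
    ring
  rw [h2] at h1
  exact h1

/-- **Existence of charts over a field with enough elements.** Proof: as `exists_chart14`
(`LPrjC14.lean`) with `ℚ` replaced by `k` (use `bracket_eq8`, and `exists_basis14` over `k`, the same proof);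
`exists_affine14` is replaced by: if `κ` is a finite type with at most `card ι + card ι ^ 4` elements and
`a x ≠ 0 ∨ b x ≠ 0` for all `x : κ`, then some `s : k` has `a x + s * b x ≠ 0` for all `x` (every `x`
excludes at most the value `s = - a x / b x`: `hk` for the image of `κ` under this function). The type `κ`
of the proof is `{i // i ≠ i₀} ⊕ {q : ι × ι × ι × ι // ...}`, with at most `card ι + card ι ^ 4`
elements. -/
theorem exists_chart_over {v : ι × Fin 3 → ℤ}
    (h : ∀ x y z : ι, x ≠ y → y ≠ z → x ≠ z → ((bracket v x y z : ℤ) : k) ≠ 0)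
    (hc : 3 ≤ Fintype.card ι) (i₀ : ι)
    (hk : ∀ S : Finset k, S.card ≤ Fintype.card ι + Fintype.card ι ^ 4 → ∃ s, s ∉ S) :
    ∃ g : Matrix (Fin 3) (Fin 3) k, Over.IsChart v g i₀ (Finset.univ.erase i₀) ∧
      IsArrangement (fun i : (Finset.univ.erase i₀ : Finset ι) => Over.linePoly v g i) := by
  -- two other lines for each line
  have hthird : ∀ i j : ι, ∃ l, l ≠ i ∧ l ≠ j := by
    intro i j
    by_contra hcon
    push Not at hcon
    have h1 : (Finset.univ : Finset ι) ⊆ {i, j} := by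
      intro l _
      rw [Finset.mem_insert, Finset.mem_singleton]
      by_cases hl : l = i
      · exact Or.inl hl
      · exact Or.inr (hcon l hl)
    have h2 := Finset.card_le_card h1
    rw [Finset.card_univ] at h2
    have h3 : ({i, j} : Finset ι).card ≤ 2 := Finset.card_le_two
    omega
  have ha : (fun l => (v (i₀, l) : k)) ≠ 0 := by
    intro h0
    obtain ⟨j, hj, -⟩ := hthird i₀ i₀
    obtain ⟨l, hl, hlj⟩ := hthird i₀ j
    apply h i₀ j l hj.symm hlj.symm hl.symm
    have e : ∀ r : Fin 3, (v (i₀, r) : k) = 0 := by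
      intro r
      exact congrFun h0 r
    rw [bracket_eq8]
    unfold pbr14
    push_cast
    rw [e, e, e]
    ring
  obtain ⟨G, hG, hG0, hG1⟩ := exists_basis_h61 _ ha
  set u : ι → k := fun i => Over.lineCoeff v G i 0 with hu
  set w : ι → k := fun i => Over.lineCoeff v G i 1 with hw
  set e : ι → k := fun i => Over.lineCoeff v G i 2 with he
  have hu0 : u i₀ = 0 := hG0
  have hw0 : w i₀ = 0 := hG1
  have hdt : ∀ x y z, u x * (w y * e z - e y * w z) - w x * (u y * e z - e y * u z) +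
      e x * (u y * w z - w y * u z) = G.det * ((bracket v x y z : ℤ) : k) := by
    intro x y z
    rw [← dt_lineCoeff_h61]
    rfl
  have hbr : ∀ x y z, x ≠ y → y ≠ z → x ≠ z → G.det * ((bracket v x y z : ℤ) : k) ≠ 0 := fun x y z a b c =>
    mul_ne_zero hG (h x y z a b c)
  have hΔ : ∀ i j, i ≠ j → i ≠ i₀ → j ≠ i₀ → w i * u j - w j * u i ≠ 0 := by
    intro i j hij hi hj h0
    have h1 := hdt i j i₀
    rw [hu0, hw0] at h1
    apply hbr i j i₀ hij hj hi
    rw [← h1]
    linear_combination -(e i₀) * h0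
  -- the conditions
  let κ := {i : ι // i ≠ i₀} ⊕ {q : ι × ι × ι × ι // q.1 ≠ q.2.1 ∧ q.2.2.1 ≠ q.2.2.2 ∧
    ¬ (q.2.2.1 = q.1 ∧ q.2.2.2 = q.2.1) ∧ ¬ (q.2.2.1 = q.2.1 ∧ q.2.2.2 = q.1) ∧
    q.1 ≠ i₀ ∧ q.2.1 ≠ i₀ ∧ q.2.2.1 ≠ i₀ ∧ q.2.2.2 ≠ i₀}
  let Δ : ι → ι → k := fun i j => w i * u j - w j * u i
  let R : ι → ι → k := fun i j => e i * u j - e j * u i
  let S : ι → ι → k := fun i j => e i * w j - e j * w i
  let A : κ → k := Sum.elim (fun i => u i) (fun q =>
    R q.1.1 q.1.2.1 * Δ q.1.2.2.1 q.1.2.2.2 - R q.1.2.2.1 q.1.2.2.2 * Δ q.1.1 q.1.2.1)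
  let B : κ → k := Sum.elim (fun i => w i) (fun q =>
    S q.1.1 q.1.2.1 * Δ q.1.2.2.1 q.1.2.2.2 - S q.1.2.2.1 q.1.2.2.2 * Δ q.1.1 q.1.2.1)
  have hN : Fintype.card κ ≤ Fintype.card ι + Fintype.card ι ^ 4 := by
    rw [Fintype.card_sum]
    refine Nat.add_le_add (Fintype.card_subtype_le _) ((Fintype.card_subtype_le _).trans ?_)
    rw [Fintype.card_prod, Fintype.card_prod, Fintype.card_prod]
    exact le_of_eq (by ring)
  obtain ⟨s, hs⟩ := exists_affine_h61 A B (by
    rintro (⟨i, hi⟩ | ⟨⟨i, j, l, m⟩, hij, hlm, h1, h2, hi, hj, hl, hm⟩)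
    · change u i ≠ 0 ∨ w i ≠ 0
      by_contra hcon
      push Not at hcon
      obtain ⟨j, hj, hj0⟩ := hthird i i₀
      apply hΔ i j hj.symm hi hj0
      rw [hcon.1, hcon.2]
      ring
    · change R i j * Δ l m - R l m * Δ i j ≠ 0 ∨ S i j * Δ l m - S l m * Δ i j ≠ 0
      simp only at hij hlm h1 h2 hi hj hl hm
      by_contra hcon
      push Not at hcon
      obtain ⟨c1, c2⟩ := hcon
      -- a line through the two points
      have key : ∀ r, r = l ∨ r = m → r = i ∨ r = j := by
        intro r hr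
        by_contra hcon
        push Not at hcon
        have h3 := hdt r i j
        apply hbr r i j hcon.1 hij hcon.2
        have h4 : Δ l m * (u r * (w i * e j - e i * w j) - w r * (u i * e j - e i * u j) +
            e r * (u i * w j - w i * u j)) = 0 := by
          have h5 : Δ l m * (u r * (w i * e j - e i * w j) - w r * (u i * e j - e i * u j) +
            e r * (u i * w j - w i * u j)) = Δ i j * (-(u r * S l m) + w r * R l m - e r * Δ l m) +
              w r * (R i j * Δ l m - R l m * Δ i j) - u r * (S i j * Δ l m - S l m * Δ i j) := by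
            simp only [Δ, R, S]
            ring
          have h6 : -(u r * S l m) + w r * R l m - e r * Δ l m = 0 := by
            rcases hr with rfl | rfl
            · simp only [Δ, R, S]
              ring
            · simp only [Δ, R, S]
              ring
          rw [h5, h6, c1, c2]
          ring
        rw [← h3]
        exact (mul_eq_zero.1 h4).resolve_left (hΔ l m hlm hl hm)
      rcases key l (Or.inl rfl) with a | a <;> rcases key m (Or.inr rfl) with b | b
      · exact hlm (a.trans b.symm)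
      · exact h1 ⟨a, b⟩
      · exact h2 ⟨a, b⟩
      · exact hlm (a.trans b.symm)) hN hk
  -- the chart
  set g : Matrix (Fin 3) (Fin 3) k := fun l j => if j = 0 then G l 0 + s * G l 1 else G l j
    with hg
  have hc0 : ∀ i, Over.lineCoeff v g i 0 = u i + s * w i := by
    intro i
    change ∑ l, (v (i, l) : k) * (G l 0 + s * G l 1) =
      ∑ l, (v (i, l) : k) * G l 0 + s * ∑ l, (v (i, l) : k) * G l 1
    rw [Finset.mul_sum, ← Finset.sum_add_distrib]
    exact Finset.sum_congr rfl fun l _ => by ring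
  have hc1 : ∀ i, Over.lineCoeff v g i 1 = w i := fun i => rfl
  have hc2 : ∀ i, Over.lineCoeff v g i 2 = e i := fun i => rfl
  have hdet : g.det = G.det := by
    rw [Matrix.det_fin_three, Matrix.det_fin_three]
    have e0 : ∀ l, g l 0 = G l 0 + s * G l 1 := fun l => rfl
    have e1 : ∀ l, g l 1 = G l 1 := fun l => rfl
    have e2 : ∀ l, g l 2 = G l 2 := fun l => rfl
    rw [e0, e0, e0, e1, e1, e1, e2, e2, e2]
    ring
  have hp : ∀ i, i ≠ i₀ → Over.lineCoeff v g i 0 ≠ 0 := by
    intro i hi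
    rw [hc0]
    exact hs (Sum.inl ⟨i, hi⟩)
  refine ⟨g, ⟨by rw [hdet]; exact hG, ⟨?_, ?_⟩, fun i hi => hp i (Finset.ne_of_mem_erase hi)⟩, ?_⟩
  · rw [hc0, hu0, hw0]
    ring
  · rw [hc1, hw0]
  -- the arrangement
  set v' : (Finset.univ.erase i₀ : Finset ι) ⊕ (Finset.univ.erase i₀ : Finset ι) → k :=
    Sum.elim (fun i => -(Over.lineCoeff v g i 2 / Over.lineCoeff v g i 0))
      (fun i => -(Over.lineCoeff v g i 1 / Over.lineCoeff v g i 0)) with hv'
  have hlin : (fun i : (Finset.univ.erase i₀ : Finset ι) => Over.linePoly v g i) = lin14 v' := rfl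
  rw [hlin]
  apply Gen14.isArrangement
  have hne : ∀ i : (Finset.univ.erase i₀ : Finset ι), (i : ι) ≠ i₀ :=
    fun i => Finset.ne_of_mem_erase i.2
  have hsl : ∀ i j : (Finset.univ.erase i₀ : Finset ι), (v' (Sum.inr i) - v' (Sum.inr j)) *
      (Over.lineCoeff v g i 0 * Over.lineCoeff v g j 0) = -Δ i j := by
    intro i j
    have a1 := hp i (hne i)
    have a2 := hp j (hne j)
    change (-(Over.lineCoeff v g i 1 / Over.lineCoeff v g i 0) - -(Over.lineCoeff v g j 1 / Over.lineCoeff v g j 0)) *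
      (Over.lineCoeff v g i 0 * Over.lineCoeff v g j 0) = _
    field_simp
    rw [hc0, hc0, hc1, hc1]
    simp only [Δ]
    ring
  have hin : ∀ i j : (Finset.univ.erase i₀ : Finset ι), (v' (Sum.inl i) - v' (Sum.inl j)) *
      (Over.lineCoeff v g i 0 * Over.lineCoeff v g j 0) = -(R i j + s * S i j) := by
    intro i j
    have a1 := hp i (hne i)
    have a2 := hp j (hne j)
    change (-(Over.lineCoeff v g i 2 / Over.lineCoeff v g i 0) - -(Over.lineCoeff v g j 2 / Over.lineCoeff v g j 0)) *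
      (Over.lineCoeff v g i 0 * Over.lineCoeff v g j 0) = _
    field_simp
    rw [hc0, hc0, hc2, hc2]
    simp only [R, S]
    ring
  refine ⟨fun i j hij he => ?_, fun i j l m hij hlm h1 h2 he => ?_⟩
  · have h3 := hsl i j
    rw [he, sub_self, zero_mul] at h3
    exact hΔ i j (fun hh => hij (Subtype.ext hh)) (hne i) (hne j) (neg_eq_zero.1 h3.symm)
  · have h3 := hs (Sum.inr ⟨(i, j, l, m), fun hh => hij (Subtype.ext hh),
      fun hh => hlm (Subtype.ext hh), fun hh => h1 ⟨Subtype.ext hh.1, Subtype.ext hh.2⟩,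
      fun hh => h2 ⟨Subtype.ext hh.1, Subtype.ext hh.2⟩, hne i, hne j, hne l, hne m⟩)
    apply h3
    change R i j * Δ l m - R l m * Δ i j + s * (S i j * Δ l m - S l m * Δ i j) = 0
    have e1 := hin i j
    have e2 := hin l m
    have e3 := hsl i j
    have e4 := hsl l m
    linear_combination (Δ l m) * e1 - (v' (Sum.inl i) - v' (Sum.inl j)) *
      (Over.lineCoeff v g i 0 * Over.lineCoeff v g j 0) * e4 - Δ i j * e2 +
      (v' (Sum.inl l) - v' (Sum.inl m)) * (Over.lineCoeff v g l 0 * Over.lineCoeff v g m 0) * e3 +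
      (Over.lineCoeff v g i 0 * Over.lineCoeff v g j 0) * (Over.lineCoeff v g l 0 * Over.lineCoeff v g m 0) * he

end Pool.Agent.Lib.MP_89bcae_ag.Lr

end

section

/-!
# Lines of the projective plane over a field: existence of charts for subsets of the lines
-/

open Polynomial

open scoped Classical

set_option linter.unusedSectionVars false
set_option linter.style.haveILetI false

namespace Pool.Agent.Lib.MP_89bcae_ag.Lr

open Superelliptic

variable {ι : Type} [Fintype ι] [LinearOrder ι] {k : Type} [Field k]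

lemma prod_pairs_h16 {T R : Type} [Fintype T] [LinearOrder T] [CommMonoid R] (f : T → T → R) :
    (∏ i, ∏ j ∈ Finset.univ.filter (fun j => i < j), f i j) =
      ∏ q ∈ (Finset.univ : Finset (T × T)).filter (fun q => q.1 < q.2), f q.1 q.2 := by
  rw [← Finset.univ_product_univ, Finset.prod_filter, Finset.prod_product]
  refine Finset.prod_congr rfl fun i _ => ?_
  rw [Finset.prod_filter]

lemma dvd_pairs_h16 {T U R : Type} [Fintype T] [LinearOrder T] [Fintype U] [LinearOrder U] [CommMonoid R]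
    (φ : T → U) (hφ : ∀ i j, i < j → φ i < φ j) (f : U → U → R) :
    (∏ i, ∏ j ∈ Finset.univ.filter (fun j => i < j), f (φ i) (φ j)) ∣
      ∏ i, ∏ j ∈ Finset.univ.filter (fun j => i < j), f i j := by
  have hinj : Function.Injective φ := by
    intro a b hab
    rcases lt_trichotomy a b with hlt | heq | hgt
    · exact absurd hab (hφ a b hlt).ne
    · exact heq
    · exact absurd hab (hφ b a hgt).ne'
  rw [prod_pairs_h16 (fun i j => f (φ i) (φ j)), prod_pairs_h16 f]
  have e : (∏ q ∈ (Finset.univ : Finset (T × T)).filter (fun q => q.1 < q.2), f (φ q.1) (φ q.2)) =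
      ∏ q ∈ ((Finset.univ : Finset (T × T)).filter (fun q => q.1 < q.2)).map
        ⟨Prod.map φ φ, Function.Injective.prodMap hinj hinj⟩, f q.1 q.2 := by
    rw [Finset.prod_map]
    rfl
  rw [e]
  apply Finset.prod_dvd_prod_of_subset
  intro q hq
  obtain ⟨a, ha, rfl⟩ := Finset.mem_map.1 hq
  exact Finset.mem_filter.2 ⟨Finset.mem_univ _, hφ _ _ (Finset.mem_filter.1 ha).2⟩

/-- Proof: `g` of `exists_chart_over`; `IsChart` for the subset `I` of `Finset.univ.erase i₀` is clear; the
product of the differences for `I` divides the product for `Finset.univ.erase i₀` (write both as products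
over pairs `q.1 < q.2` as in `gen_of_isArrangement14` (`LPrjB14.lean`), map the pairs of `I` injectively:
`Finset.prod_dvd_prod_of_subset` after `Finset.prod_image`/`Finset.prod_map`), and `Polynomial.Separable.of_dvd`.
(Or with `gen_of_isArrangement14` and `Gen14.isArrangement`: `Gen14` for the family of the affine
coefficients restricts to subfamilies; both polynomials are `lin14` of `Sum.elim ...`.) -/
theorem exists_chart_subset {v : ι × Fin 3 → ℤ}
    (h : ∀ x y z : ι, x ≠ y → y ≠ z → x ≠ z → ((bracket v x y z : ℤ) : k) ≠ 0)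
    (hc : 3 ≤ Fintype.card ι) {i₀ : ι}
    (hk : ∀ S : Finset k, S.card ≤ Fintype.card ι + Fintype.card ι ^ 4 → ∃ s, s ∉ S)
    {I : Finset ι} (hi₀ : i₀ ∉ I) :
    ∃ g : Matrix (Fin 3) (Fin 3) k, Over.IsChart v g i₀ I ∧
      IsArrangement (fun i : I => Over.linePoly v g i) := by
  obtain ⟨g, hg, harr⟩ := exists_chart_over h hc i₀ hk
  have hsub : ∀ i ∈ I, i ∈ (Finset.univ.erase i₀ : Finset ι) := fun i hi =>
    Finset.mem_erase.2 ⟨fun he => hi₀ (he ▸ hi), Finset.mem_univ i⟩
  refine ⟨g, ⟨hg.det_ne_zero, hg.at_infinity, fun i hi => hg.ne_zero i (hsub i hi)⟩, ?_, ?_⟩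
  · refine harr.separable.of_dvd ?_
    exact dvd_pairs_h16 (fun i : I => (⟨i.1, hsub i.1 i.2⟩ : (Finset.univ.erase i₀ : Finset ι)))
      (fun i j hij => hij) (fun i j => Over.linePoly v g i - Over.linePoly v g j)
  · intro i j hij
    exact harr.natDegree_ne_zero ⟨i.1, hsub i.1 i.2⟩ ⟨j.1, hsub j.1 j.2⟩
      (fun he => hij (Subtype.ext (Subtype.mk.inj he)))

end Pool.Agent.Lib.MP_89bcae_ag.Lr

end

section

/-!
# Lines of the projective plane over a field: the arithmetic condition in the charts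
-/

open Polynomial

open scoped Classical

set_option linter.unusedSectionVars false
set_option linter.unusedSimpArgs false
set_option linter.style.haveILetI false

namespace Pool.Agent.Lib.MP_89bcae_ag.Lr

open Superelliptic

variable {ι : Type} [Fintype ι] [LinearOrder ι] {k : Type} [Field k]

/-- **The arithmetic condition in the charts, with one homomorphism.** Proof: as `prjIndepN14`
(`LPrjN14.lean`), directly over `k`: `cr : Option I → Fin 3 → k`, `cr x j = Over.lineCoeff v g (opt14 i₀ I x) j`,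
`dt14 (cr x) (cr y) (cr z) = g.det * (pbr14 v _ _ _ : k)` (`dt14_mul`, `bracket_eq8`), all `scl14 cr x ≠ 0`,
`Over.linePoly v g i = lin14 (aff14 cr) i` by definition, `gen_of_isArrangement14`. As in `hv_chart14`, for
different `x, y, z : Option I`:
`V.ν (brk14 (aff14 cr) x y z) = V.ν g.det - V.ν (scl14 cr x) - V.ν (scl14 cr y) - V.ν (scl14 cr z) +
V.ν (bracket ..)`. `Gen14.indepW_good` with `m₀ = V.ν g.det`, `μ x = - V.ν (scl14 cr x)`: `hV` is the case
`some i, some j, some l` (`brk14` is `dd14`, see `cut_kw`), `hV0` the case `some i, some j, none`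
(`brk14_none`). -/
theorem indepW_lines {ℓ : ℕ} (hℓ : ℓ.Prime) {v : ι × Fin 3 → ℤ}
    (hb : ∀ x y z : ι, x ≠ y → y ≠ z → x ≠ z → ((bracket v x y z : ℤ) : k) ≠ 0)
    {g : Matrix (Fin 3) (Fin 3) k} {i₀ : ι} {I : Finset ι} (hi₀ : i₀ ∉ I) (hI : 2 ≤ I.card)
    (hg : Over.IsChart v g i₀ I) (W : I → ℕ) (hW : ∀ i, (W i).Coprime ℓ)
    (harr : IsArrangement fun i : I => Over.linePoly v g i)
    (V : Val14 k ℓ) (c₀ : Finset I → ZMod ℓ)
    (hV : ∀ i j l : I, i ≠ j → j ≠ l → i ≠ l →
      V.ν ((bracket v i j l : ℤ) : k) = c₀ {i, j, l})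
    (hV0 : ∀ i j : I, i ≠ j → V.ν ((bracket v i j i₀ : ℤ) : k) = c₀ {i, j})
    (hT : GoodT (fun i => (W i : ZMod ℓ)) c₀ Finset.univ) (F : Type) [Field F] [Algebra k F] :
    ArrangementIndependentW ℓ k F W (fun i : I => Over.linePoly v g i) := by
  haveI : Fact ℓ.Prime := ⟨hℓ⟩
  -- the coefficients in the chart
  set cr : Option I → Fin 3 → k := fun x j => Over.lineCoeff v g (opt14 i₀ I x) j with hcr
  have hcrs : ∀ x, cr x = fun j => ∑ l, ((v (opt14 i₀ I x, l) : ℤ) : k) * g l j := by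
    intro x
    rfl
  set B : Option I → Option I → Option I → k := fun x y z =>
    ((bracket v (opt14 i₀ I x) (opt14 i₀ I y) (opt14 i₀ I z) : ℤ) : k) with hBdef
  have hB : ∀ x y z, dt14 (cr x) (cr y) (cr z) = g.det * B x y z := by
    intro x y z
    rw [hcrs x, hcrs y, hcrs z, dt14_mul, hBdef]
    beta_reduce
    rw [bracket_eq8]
    congr 1
    unfold dt14 pbr14
    push_cast
    ring
  have h0 : cr none 0 = 0 := hg.at_infinity.1
  have h1 : cr none 1 = 0 := hg.at_infinity.2
  have hdet0 : g.det ≠ 0 := hg.det_ne_zero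
  have hs : ∀ x, scl14 cr x ≠ 0 := by
    rintro (_ | i)
    · change -cr none 2 ≠ 0
      rw [neg_ne_zero]
      intro h2
      obtain ⟨x, hx, y, hy, hxy⟩ := Finset.one_lt_card.1 (show 1 < I.card by omega)
      have h3 := hB none (some ⟨x, hx⟩) (some ⟨y, hy⟩)
      have h4 : dt14 (cr none) (cr (some ⟨x, hx⟩)) (cr (some ⟨y, hy⟩)) = 0 := by
        unfold dt14
        rw [h0, h1, h2]
        ring
      rw [h4] at h3
      have h5 := (mul_eq_zero.1 h3.symm).resolve_left hdet0
      exact hb i₀ x y (fun h => hi₀ (h ▸ hx)) hxy (fun h => hi₀ (h ▸ hy)) h5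
    · exact hg.ne_zero i i.2
  have hinj := opt14_injective hi₀
  have hBne : ∀ x y z : Option I, x ≠ y → y ≠ z → x ≠ z → B x y z ≠ 0 := by
    intro x y z hxy hyz hxz
    exact hb _ _ _ (fun h => hxy (hinj h)) (fun h => hyz (hinj h)) (fun h => hxz (hinj h))
  have key : ∀ x y z : Option I, x ≠ y → y ≠ z → x ≠ z →
      V.ν (brk14 (aff14 cr) x y z) = V.ν (B x y z) + V.ν g.det + (-V.ν (scl14 cr x)) +
        (-V.ν (scl14 cr y)) + (-V.ν (scl14 cr z)) := by
    intro x y z hxy hyz hxz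
    have hne := hBne x y z hxy hyz hxz
    have h2 := brk_chart14 cr h0 h1 hs x y z
    rw [hB] at h2
    have hS : scl14 cr x * scl14 cr y * scl14 cr z ≠ 0 :=
      mul_ne_zero (mul_ne_zero (hs x) (hs y)) (hs z)
    have hDB : g.det * B x y z ≠ 0 := mul_ne_zero hdet0 hne
    have hb' : brk14 (aff14 cr) x y z ≠ 0 := by
      intro h3
      rw [h3, zero_mul] at h2
      exact neg_ne_zero.2 hDB h2.symm
    have h3 := congrArg V.ν h2
    rw [V.mul _ _ hb' hS, V.neg hDB, V.mul _ _ hdet0 hne,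
      V.mul _ _ (mul_ne_zero (hs x) (hs y)) (hs z), V.mul _ _ (hs x) (hs y)] at h3
    linear_combination h3
  have harr' : IsArrangement (lin14 (aff14 cr)) := harr
  have hsome : ∀ {i j : I}, i ≠ j → (some i : Option I) ≠ some j := fun h h' => h (Option.some_injective _ h')
  have main := (gen_of_isArrangement14 harr').indepW_good hℓ W hW V c₀ (V.ν g.det)
    (fun x => -V.ν (scl14 cr x)) ?_ ?_ hT F
  · exact main
  · intro i j l hij hjl hil
    have h2 := key (some i) (some j) (some l) (hsome hij) (hsome hjl) (hsome hil)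
    have h3 : V.ν (B (some i) (some j) (some l)) = c₀ {i, j, l} := hV i j l hij hjl hil
    rw [h3] at h2
    exact h2
  · intro i j hij
    have h2 := key (some i) (some j) none (hsome hij) (by simp) (by simp)
    have h3 : V.ν (B (some i) (some j) none) = c₀ {i, j} := hV0 i j hij
    rw [h3, brk14_none] at h2
    exact h2

end Pool.Agent.Lib.MP_89bcae_ag.Lr

end

section

/-!
# Lines of the projective plane: the finite fields without Tate classes
-/

open Polynomial

open scoped Classical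

set_option linter.unusedSectionVars false
set_option linter.style.haveILetI false

namespace Pool.Agent.Lib.MP_89bcae_ag.Lr

open Superelliptic

variable {ι : Type} [Fintype ι] [LinearOrder ι]

/-- **Finite fields without Tate classes.** Proof: `C, c` from `exists_symbols`; `exists_prime_lines` for
`C` and the bound `max N (max ℓ (card ι + card ι ^ 4))` gives `q, ζ, V`. The charts: `exists_chart_subset`
(a finset of `ZMod q` with less than `q` elements is not everything: `ZMod.card`,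
`Finset.exists_mem_notMem_of_card_lt_card`). The second part: `indepW_lines`, `Wt.Lns.arrangementW`
(`(ℓ : ZMod q) ≠ 0` because `0 < ℓ < q`) and `tateClassesTorsionN8`. -/
theorem exists_prime_hasNoTateClasses {ℓ : ℕ} (hℓ : ℓ.Prime) (hℓ2 : ℓ ≠ 2) {v : ι × Fin 3 → ℤ}
    (hv : HasPrivatePrimes v) {i₀ : ι} {I : Finset ι} (hi₀ : i₀ ∉ I) (hI : 4 ≤ I.card)
    (W : I → ℕ) (hW : ∀ i, (W i).Coprime ℓ) (hs : (∑ i, W i).Coprime ℓ) (N : ℕ) :
    ∃ (q : ℕ) (_ : Fact q.Prime), N < q ∧ Over.HasNoTateClasses ℓ (ZMod q) v i₀ I W := by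
  obtain ⟨C, c, hT, hC1, hC2, hC3⟩ := exists_symbols hℓ hℓ2 hi₀ hI W hW hs
  obtain ⟨q, hq, ζ, V, hqN, hζ, hV⟩ := exists_prime_lines hv hℓ hℓ2 C hC3
    (max N (max ℓ (Fintype.card ι + Fintype.card ι ^ 4)))
  have hNq : N < q := lt_of_le_of_lt (le_max_left _ _) hqN
  have hℓq : ℓ < q := lt_of_le_of_lt ((le_max_left _ _).trans (le_max_right _ _)) hqN
  have hιq : Fintype.card ι + Fintype.card ι ^ 4 < q :=
    lt_of_le_of_lt ((le_max_right _ _).trans (le_max_right _ _)) hqN
  have hb : ∀ x y z : ι, x ≠ y → y ≠ z → x ≠ z → ((bracket v x y z : ℤ) : ZMod q) ≠ 0 :=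
    fun x y z h1 h2 h3 => (hV x y z h1 h2 h3).1
  have hcard : 3 ≤ Fintype.card ι := by
    have h := Finset.card_le_univ I
    omega
  have hℓ0 : (ℓ : ZMod q) ≠ 0 := by
    intro h
    rw [ZMod.natCast_eq_zero_iff] at h
    exact absurd (Nat.le_of_dvd hℓ.pos h) (not_le.mpr hℓq)
  refine ⟨q, hq, hNq, ?_, ?_⟩
  · refine exists_chart_subset hb hcard (fun S hS => ?_) hi₀
    have h1 : S.card < (Finset.univ : Finset (ZMod q)).card := by
      rw [Finset.card_univ, ZMod.card]
      exact lt_of_le_of_lt hS hιq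
    obtain ⟨s, -, hs'⟩ := Finset.exists_mem_notMem_of_card_lt_card h1
    exact ⟨s, hs'⟩
  · intro F L Ω _ _ _ _ _ _ _ _ _ g hg harr k' hk'
    haveI := hk'
    have hind : ArrangementIndependentW ℓ (ZMod q) F W (fun i : I => Over.linePoly v g i) := by
      refine indepW_lines hℓ hb hi₀ (le_trans (by norm_num) hI) hg W hW harr V c ?_ ?_ hT F
      · intro i j l h1 h2 h3
        exact (hV i j l (Subtype.coe_injective.ne h1) (Subtype.coe_injective.ne h2)
          (Subtype.coe_injective.ne h3)).2.trans (hC1 i j l h1 h2 h3)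
      · intro i j h1
        have hi : (i : ι) ≠ i₀ := fun h => hi₀ (h ▸ i.2)
        have hj : (j : ι) ≠ i₀ := fun h => hi₀ (h ▸ j.2)
        exact (hV i j i₀ (Subtype.coe_injective.ne h1) hj hi).2.trans (hC2 i j h1)
    exact tateClassesTorsionN8
      (Wt.Lns.arrangementW F L Ω hℓ hℓ0 hζ W hW hs _ harr hind k')

end Pool.Agent.Lib.MP_89bcae_ag.Lr

end

section

/-!
# The final theorem
-/

open Polynomial Filter Topology

open scoped Classical

set_option linter.unusedSectionVars false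
set_option linter.style.haveILetI false

namespace Pool.Agent.Lib.MP_89bcae_ag.Lr

open Superelliptic

/-- Over `ℚ` the two definitions agree. -/
theorem isChart_over_iff {ι : Type} (v : ι × Fin 3 → ℤ) (g : Matrix (Fin 3) (Fin 3) ℚ) (i₀ : ι)
    (I : Finset ι) : Over.IsChart v g i₀ I ↔ IsChart v g i₀ I :=
  ⟨fun h => ⟨h.det_ne_zero, h.at_infinity, h.ne_zero⟩,
    fun h => ⟨h.det_ne_zero, h.at_infinity, h.ne_zero⟩⟩

theorem linePoly_over {ι : Type} (v : ι × Fin 3 → ℤ) (g : Matrix (Fin 3) (Fin 3) ℚ) (i : ι) :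
    Over.linePoly v g i = linePoly v g i := rfl

theorem bracket_ne_zero {ι : Type} {v : ι × Fin 3 → ℤ} (hv : HasPrivatePrimes v) {x y z : ι}
    (hxy : x ≠ y) (hyz : y ≠ z) (hxz : x ≠ z) : bracket v x y z ≠ 0 := by
  obtain ⟨p, -, -, h, -⟩ := hv x y z hxy hyz hxz
  intro h0
  apply h
  rw [h0]
  exact dvd_zero _

/-- **The criterion at all primes and the density one theorem.** -/
theorem lineCoversR (m : ℕ) :
    (∀ v : Fin m × Fin 3 → ℤ, HasPrivatePrimes v → ∀ ℓ : ℕ, ℓ.Prime →
      ∀ (i₀ : Fin m) (I : Finset (Fin m)), i₀ ∉ I → 4 ≤ I.card →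
      ∀ W : I → ℕ, (∀ i, (W i).Coprime ℓ) → (∑ i, W i).Coprime ℓ →
        Over.HasNoTateClasses ℓ ℚ v i₀ I W ∧
        (ℓ ≠ 2 → ∀ N : ℕ, ∃ (q : ℕ) (_ : Fact q.Prime), N < q ∧
          Over.HasNoTateClasses ℓ (ZMod q) v i₀ I W)) ∧
    Tendsto (fun H : ℕ => ({v : Fin m × Fin 3 → ℤ | (∀ i, |v i| ≤ H) ∧
      HasPrivatePrimes v}.ncard : ℝ) / (2 * H + 1) ^ (3 * m)) atTop (𝓝 1) := by
  refine ⟨fun v hv ℓ hℓ i₀ I hi₀ hI W hW hs => ⟨⟨?_, ?_⟩, fun hℓ2 N => ?_⟩, ?_⟩
  · -- charts
    have hc : 3 ≤ Fintype.card (Fin m) := by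
      have h1 := Finset.card_le_univ I
      omega
    exact exists_chart_subset (k := ℚ) (fun x y z hxy hyz hxz =>
      Int.cast_ne_zero.2 (bracket_ne_zero hv hxy hyz hxz)) hc
      (fun S _ => Infinite.exists_notMem_finset S) hi₀
  · intro F L Ω _ _ _ _ _ _ _ _ _ g hg harr k' hk'
    have hm : 3 ≤ m := by
      have h1 := Finset.card_le_univ I
      rw [Fintype.card_fin] at h1
      omega
    exact ((lineCovers8 F L Ω m hm).1 v hv).2 ℓ hℓ i₀ g I ((isChart_over_iff v g i₀ I).1 hg)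
      harr hI W hW hs k' hk'
  · exact exists_prime_hasNoTateClasses hℓ hℓ2 hv hi₀ hI W hW hs N
  · have hcard : Fintype.card (Fin m × Fin 3) = 3 * m := by
      rw [Fintype.card_prod, Fintype.card_fin, Fintype.card_fin, mul_comm]
    have hd := prjDensity14 (ι := Fin m) 1 0
    rw [hcard] at hd
    refine density_monoN14 (3 * m) hcard (fun v hv => ?_) hd
    rw [hasPrivatePrimes_iff8]
    intro x y z hxy hyz hxz
    obtain ⟨p, hp, -, -, hpo⟩ := hv x y z hxy hyz hxz
    exact ⟨p, hp, hpo⟩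

end Pool.Agent.Lib.MP_89bcae_ag.Lr

end
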