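import Mathlib
import Pool.Agent.Lib.MP_89bcae_ag.Mk.K031

namespace Pool.Agent.Lib.MP_89bcae_ag.Superelliptic
end Pool.Agent.Lib.MP_89bcae_ag.Superelliptic

section

/-!
# The 2-descent functions on `y² = x³ + a₂x² + a₄x + a₆`
-/

open Polynomial WeierstrassCurve

namespace Pool.Agent.Lib.MP_89bcae_ag

set_option linter.unusedSectionVars false

variable {K : Type*} [Field K] [DecidableEq K]

/-- The curve has the form `y² = x³ + a₂x² + a₄x + a₆`. -/
structure Short (W : WeierstrassCurve K) : Prop where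
  a₁ : W.a₁ = 0
  a₃ : W.a₃ = 0

/-- `e` is a root of the cubic `x³ + a₂x² + a₄x + a₆`. -/
def Rt (W : WeierstrassCurve K) (e : K) : Prop := e ^ 3 + W.a₂ * e ^ 2 + W.a₄ * e + W.a₆ = 0

/-- The function `ρ_e` with `ρ_e(P)² = x(2P) - e`; on `2`-torsion points it is a sign. -/
noncomputable def rho {W : WeierstrassCurve.Affine K} (e : K) : W.Point → K
  | .zero => 1
  | .some x y _ => if y = 0 then (if x = e then 1 else -1) else
      ((x - e) ^ 2 - (3 * e ^ 2 + 2 * W.a₂ * e + W.a₄)) / (2 * y)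

variable {W : WeierstrassCurve.Affine K}

@[simp] lemma rho_zero (e : K) : rho e (0 : W.Point) = 1 := rfl

lemma rho_some (e : K) {x y : K} (h : W.Nonsingular x y) :
    rho e (.some x y h) = if y = 0 then (if x = e then 1 else -1) else
      ((x - e) ^ 2 - (3 * e ^ 2 + 2 * W.a₂ * e + W.a₄)) / (2 * y) := rfl

lemma Short.equation (hW : Short W) {x y : K} (h : W.Equation x y) :
    y ^ 2 = x ^ 3 + W.a₂ * x ^ 2 + W.a₄ * x + W.a₆ := by
  rw [Affine.equation_iff, hW.a₁, hW.a₃] at h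
  linear_combination h

lemma Short.negY (hW : Short W) (x y : K) : W.negY x y = -y := by
  simp [Affine.negY, hW.a₁, hW.a₃]

lemma add_self_eq_zero_iff (hW : Short W) (h2 : (2 : K) ≠ 0) {x y : K} (h : W.Nonsingular x y) :
    (Affine.Point.some x y h + Affine.Point.some x y h = 0) ↔ y = 0 := by
  constructor
  · intro h0
    by_contra hy
    have hne : y ≠ W.negY x y := by
      rw [hW.negY]
      intro h1
      have : 2 * y = 0 := by linear_combination h1
      rcases mul_eq_zero.mp this with h3 | h3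
      · exact h2 h3
      · exact hy h3
    rw [Affine.Point.add_self_of_Y_ne hne] at h0
    exact Affine.Point.some_ne_zero _ h0
  · intro hy
    apply Affine.Point.add_self_of_Y_eq
    rw [hW.negY, hy, neg_zero]

lemma two_torsion_iff (hW : Short W) (h2 : (2 : K) ≠ 0) (P : W.Point) :
    2 • P = 0 ↔ P = 0 ∨ ∃ e h, Rt W e ∧ P = .some e 0 h := by
  rw [two_nsmul]
  rcases P with _ | ⟨x, y, h⟩
  · simp [← Affine.Point.zero_def]
  · rw [add_self_eq_zero_iff hW h2]
    constructor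
    · intro hy
      subst hy
      right
      refine ⟨x, h, ?_, rfl⟩
      have := hW.equation h.1
      rw [Rt]
      linear_combination -this
    · rintro (h0 | ⟨e, h', he, h0⟩)
      · exact absurd h0 (Affine.Point.some_ne_zero _)
      · simp only [Affine.Point.some.injEq] at h0
        exact h0.2

/-- `ρ_e(P)² = x(2P) - e`. -/
lemma rho_sq (hW : Short W) (h2 : (2 : K) ≠ 0) {e : K} (he : Rt W e) {x y : K}
    (h : W.Nonsingular x y) (hy : y ≠ 0) :
    rho e (.some x y h) ^ 2 = W.addX x x (W.slope x x y y) - e := by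
  have hne : y ≠ W.negY x y := by
    rw [hW.negY]
    intro h1
    have : 2 * y = 0 := by linear_combination h1
    rcases mul_eq_zero.mp this with h3 | h3
    · exact h2 h3
    · exact hy h3
  rw [rho_some, if_neg hy, Affine.addX, Affine.slope_of_Y_ne rfl hne, hW.negY, hW.a₁]
  have heq := hW.equation h.1
  unfold Rt at he
  have hyy : y - -y = 2 * y := by ring
  rw [hyy]
  field_simp
  simp only [mul_zero, add_zero, sub_zero]
  linear_combination (4 * W.a₂ + 8 * x + 4 * e) * heq + (4 * W.a₂ + 8 * x + 4 * e) * he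

/-- The relation between two distinct roots. -/
lemma Rt.pair {e e' : K} (he : Rt W e) (he' : Rt W e') (hne : e ≠ e') :
    e ^ 2 + e * e' + e' ^ 2 + W.a₂ * (e + e') + W.a₄ = 0 := by
  unfold Rt at he he'
  have h1 : (e - e') * (e ^ 2 + e * e' + e' ^ 2 + W.a₂ * (e + e') + W.a₄) = 0 := by
    linear_combination he - he'
  rcases mul_eq_zero.mp h1 with h | h
  · exact absurd (sub_eq_zero.mp h) hne
  · exact h

lemma rho_add_aux (hW : Short W) (h2 : (2 : K) ≠ 0) {e e' : K} (he : Rt W e) (he' : Rt W e')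
    {x y : K} (h : W.Nonsingular x y) (hT : W.Nonsingular e' 0) (hd : 3 * e' ^ 2 + 2 * W.a₂ * e' + W.a₄ ≠ 0)
    (hy : y ≠ 0) :
    rho e (.some x y h + .some e' 0 hT) = rho e (.some x y h) * rho e (.some e' 0 hT) := by
  have heq := hW.equation h.1
  have hx : x ≠ e' := by
    rintro rfl
    apply hy
    have : y ^ 2 = 0 := by rw [heq]; exact he'
    exact pow_eq_zero_iff (two_ne_zero) |>.mp this
  have hx' : x - e' ≠ 0 := sub_ne_zero.mpr hx
  have hq : (x - e') * ((x ^ 2 + x * e' + e' ^ 2) + W.a₂ * (x + e') + W.a₄) = y ^ 2 := by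
    unfold Rt at he'
    linear_combination -heq - he'
  rw [Affine.Point.add_of_X_ne hx]
  set X := W.addX x e' (W.slope x e' y 0) with hX
  set Y := W.addY x e' y (W.slope x e' y 0) with hY
  have hXe : X - e' = (3 * e' ^ 2 + 2 * W.a₂ * e' + W.a₄) / (x - e') := by
    rw [hX, Affine.addX, Affine.slope_of_X_ne hx, hW.a₁]
    unfold Rt at he'
    field_simp
    linear_combination heq + he'
  have hYe : Y = - y * (3 * e' ^ 2 + 2 * W.a₂ * e' + W.a₄) / (x - e') ^ 2 := by
    have h3 : Y = -(y / (x - e') * (X - e')) := by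
      rw [hY, Affine.addY, Affine.negAddY, hW.negY, Affine.slope_of_X_ne hx, ← Affine.slope_of_X_ne hx, ← hX,
        Affine.slope_of_X_ne hx]
      field_simp
      ring
    rw [h3, hXe]
    field_simp
  have hYne : Y ≠ 0 := by
    rw [hYe]
    apply div_ne_zero
    · exact mul_ne_zero (neg_ne_zero.mpr hy) hd
    · exact pow_ne_zero _ hx'
  rw [rho_some, rho_some, rho_some, if_neg hYne, if_neg hy, if_pos rfl]
  have hXe' : X - e = (3 * e' ^ 2 + 2 * W.a₂ * e' + W.a₄) / (x - e') + (e' - e) := by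
    rw [← hXe]; ring
  rw [← hX, ← hY, hXe', hYe]
  by_cases hee : e' = e
  · subst hee
    rw [if_pos rfl]
    generalize 3 * e' ^ 2 + 2 * W.a₂ * e' + W.a₄ = d at hd ⊢
    field_simp
    ring
  · rw [if_neg hee]
    have hpair := Rt.pair he he' (Ne.symm hee)
    obtain ⟨p, hp⟩ : ∃ p, p = e' - e := ⟨_, rfl⟩
    obtain ⟨v, hv⟩ : ∃ v, v = 2 * e' + e + W.a₂ := ⟨_, rfl⟩
    have hd' : 3 * e' ^ 2 + 2 * W.a₂ * e' + W.a₄ = p * v := by
      rw [hp, hv]; linear_combination hpair
    have hd'' : 3 * e ^ 2 + 2 * W.a₂ * e + W.a₄ = - p * (v - p) := by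
      rw [hp, hv]; linear_combination hpair
    rw [hd'] at hd ⊢
    rw [hd'', ← hp]
    obtain ⟨h6, h7⟩ := mul_ne_zero_iff.mp hd
    have hx3 : x - e = (x - e') + p := by rw [hp]; ring
    rw [hx3]
    generalize x - e' = u at hx' ⊢
    field_simp
    ring


lemma Short.deriv_ne (hW : Short W) {e : K} (h : W.Nonsingular e 0) :
    3 * e ^ 2 + 2 * W.a₂ * e + W.a₄ ≠ 0 := by
  have h' := (W.nonsingular_iff e 0).mp h
  rw [hW.a₁, hW.a₃] at h'
  intro h0
  rcases h'.2 with h1 | h1
  · apply h1; linear_combination -h0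
  · apply h1; ring

lemma Short.rt_of_nonsingular (hW : Short W) {e : K} (h : W.Nonsingular e 0) : Rt W e := by
  have := hW.equation h.1
  rw [Rt]; linear_combination -this

lemma Short.nonsingular_of_rt (hW : Short W) {e : K} (he : Rt W e)
    (hd : 3 * e ^ 2 + 2 * W.a₂ * e + W.a₄ ≠ 0) : W.Nonsingular e 0 := by
  rw [W.nonsingular_iff e 0, Affine.equation_iff, hW.a₁, hW.a₃]
  refine ⟨?_, Or.inl ?_⟩
  · unfold Rt at he; linear_combination -he
  · intro h; apply hd; linear_combination -h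

lemma add_two_torsion (hW : Short W) {e' e'' : K} (h' : W.Nonsingular e' 0)
    (h'' : W.Nonsingular e'' 0) (hne : e'' ≠ e') :
    ∃ h, (Affine.Point.some e'' 0 h'' + Affine.Point.some e' 0 h') =
      Affine.Point.some (-W.a₂ - e' - e'') 0 h := by
  rw [Affine.Point.add_of_X_ne hne]
  have hs : W.slope e'' e' 0 0 = 0 := by
    rw [Affine.slope_of_X_ne hne]; simp
  have hX : W.addX e'' e' 0 = -W.a₂ - e' - e'' := by
    rw [Affine.addX]; ring
  have hY : W.addY e'' e' 0 0 = 0 := by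
    rw [Affine.addY, Affine.negAddY, hW.negY]; ring
  refine ⟨?_, ?_⟩
  · have := Affine.nonsingular_add h'' h' (fun hxy => hne hxy.1)
    rwa [hs, hX, hY] at this
  · simp only [hs, hX, hY]

lemma rho_two_torsion (e : K) {e' : K} (h : W.Nonsingular e' 0) :
    rho e (.some e' 0 h) = if e' = e then 1 else -1 := by
  rw [rho_some, if_pos rfl]

/-- `ρ_e(P + T) = ρ_e(P) ρ_e(T)` for `T ∈ W[2]`. -/
lemma rho_add (hW : Short W) (h2 : (2 : K) ≠ 0) {e : K} (he : Rt W e) (P T : W.Point)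
    (hT : 2 • T = 0) : rho e (P + T) = rho e P * rho e T := by
  rcases (two_torsion_iff hW h2 T).mp hT with rfl | ⟨e', h', he', rfl⟩
  · simp
  rcases P with _ | ⟨x, y, h⟩
  · rw [← Affine.Point.zero_def]; simp
  by_cases hy : y = 0
  · subst hy
    have hx : Rt W x := hW.rt_of_nonsingular h
    have hd' := hW.deriv_ne h'
    have hdx := hW.deriv_ne h
    by_cases hxe : x = e'
    · subst hxe
      have : (Affine.Point.some x 0 h + Affine.Point.some x 0 h' : W.Point) = 0 :=
        (add_self_eq_zero_iff hW h2 h).mpr rfl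
      rw [this, rho_two_torsion, rho_zero]
      split_ifs <;> ring
    · obtain ⟨h3, h4⟩ := add_two_torsion hW h' h hxe
      rw [h4, rho_two_torsion, rho_two_torsion, rho_two_torsion]
      have hpair := Rt.pair hx he' hxe
      have hxe0 : x - e' ≠ 0 := sub_ne_zero.mpr hxe
      by_cases h5 : e' = e
      · subst h5
        rw [if_pos rfl, if_neg hxe, if_neg]
        · ring
        intro h6
        apply hd'
        linear_combination hpair - (e' - x) * h6
      · by_cases h6 : x = e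
        · subst h6
          rw [if_neg h5, if_pos rfl, if_neg]
          · ring
          intro h7
          apply hdx
          linear_combination hpair - (x - e') * h7
        · rw [if_neg h5, if_neg h6, if_pos]
          · ring
          have hpair' := Rt.pair he he' (Ne.symm h5)
          have h7 : (e - x) * (e + x + e' + W.a₂) = 0 := by linear_combination hpair' - hpair
          rcases mul_eq_zero.mp h7 with h8 | h8
          · exact absurd (sub_eq_zero.mp h8).symm h6
          · linear_combination -h8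
  · exact rho_add_aux hW h2 he he' h h' (hW.deriv_ne h') hy


lemma rho_two_torsion_sq (hW : Short W) (h2 : (2 : K) ≠ 0) (e : K) {T : W.Point} (hT : 2 • T = 0) :
    rho e T = 1 ∨ rho e T = -1 := by
  rcases (two_torsion_iff hW h2 T).mp hT with rfl | ⟨e', h', he', rfl⟩
  · left; simp
  · rw [rho_two_torsion]
    split_ifs
    · left; rfl
    · right; rfl

lemma rho_two_torsion_mul_self (hW : Short W) (h2 : (2 : K) ≠ 0) (e : K) {T : W.Point}
    (hT : 2 • T = 0) : rho e T * rho e T = 1 := by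
  rcases rho_two_torsion_sq hW h2 e hT with h | h <;> rw [h] <;> ring

/-- A cubic with three distinct roots has no other root. -/
lemma Rt.mem_of_three {e₁ e₂ e₃ e : K} (h₁ : Rt W e₁) (h₂ : Rt W e₂) (h₃ : Rt W e₃)
    (h₁₂ : e₁ ≠ e₂) (h₁₃ : e₁ ≠ e₃) (h₂₃ : e₂ ≠ e₃) (he : Rt W e) : e = e₁ ∨ e = e₂ ∨ e = e₃ := by
  by_contra hcon
  push Not at hcon
  obtain ⟨n1, n2, n3⟩ := hcon
  have p12 := Rt.pair h₁ h₂ h₁₂
  have p13 := Rt.pair h₁ h₃ h₁₃
  have p1 := Rt.pair h₁ he (Ne.symm n1)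
  have q3 : (e₂ - e₃) * (e₁ + e₂ + e₃ + W.a₂) = 0 := by linear_combination p12 - p13
  have q4 : (e₂ - e) * (e₁ + e₂ + e + W.a₂) = 0 := by linear_combination p12 - p1
  have q3' := (mul_eq_zero.mp q3).resolve_left (sub_ne_zero.mpr h₂₃)
  have q4' := (mul_eq_zero.mp q4).resolve_left (sub_ne_zero.mpr (Ne.symm n2))
  apply n3
  linear_combination q4' - q3'

lemma prod_rho (hW : Short W) (h2 : (2 : K) ≠ 0) {e₁ e₂ e₃ : K} (h₁ : Rt W e₁) (h₂ : Rt W e₂)
    (h₃ : Rt W e₃) (h₁₂ : e₁ ≠ e₂) (h₁₃ : e₁ ≠ e₃) (h₂₃ : e₂ ≠ e₃) {T : W.Point} (hT : 2 • T = 0) :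
    rho e₁ T * rho e₂ T * rho e₃ T = 1 := by
  rcases (two_torsion_iff hW h2 T).mp hT with rfl | ⟨e', h', he', rfl⟩
  · simp
  · rw [rho_two_torsion, rho_two_torsion, rho_two_torsion]
    rcases Rt.mem_of_three h₁ h₂ h₃ h₁₂ h₁₃ h₂₃ he' with rfl | rfl | rfl
    · rw [if_pos rfl, if_neg h₁₂, if_neg h₁₃]; ring
    · rw [if_pos rfl, if_neg (Ne.symm h₁₂), if_neg h₂₃]; ring
    · rw [if_pos rfl, if_neg (Ne.symm h₁₃), if_neg (Ne.symm h₂₃)]; ring

lemma eq_zero_of_rho_eq_one (hW : Short W) (h2 : (2 : K) ≠ 0) {e₁ e₂ : K} (h₁₂ : e₁ ≠ e₂)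
    {T : W.Point} (hT : 2 • T = 0) (r1 : rho e₁ T = 1) (r2 : rho e₂ T = 1) : T = 0 := by
  rcases (two_torsion_iff hW h2 T).mp hT with rfl | ⟨e', h', he', rfl⟩
  · rfl
  · exfalso
    rw [rho_two_torsion] at r1 r2
    have hm : (-1 : K) ≠ 1 := by
      intro h; apply h2; linear_combination -h
    by_cases h1 : e' = e₁
    · by_cases h2' : e' = e₂
      · exact h₁₂ (h1 ▸ h2')
      · rw [if_neg h2'] at r2; exact hm r2
    · rw [if_neg h1] at r1; exact hm r1

/-- Existence of a 2-torsion point with prescribed signs. -/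
lemma exists_two_torsion (hW : Short W) (h2 : (2 : K) ≠ 0) {e₁ e₂ e₃ : K} (h₁ : Rt W e₁)
    (h₂ : Rt W e₂) (h₃ : Rt W e₃) (h₁₂ : e₁ ≠ e₂) (h₁₃ : e₁ ≠ e₃) (h₂₃ : e₂ ≠ e₃)
    (s₁ s₂ s₃ : K) (hs₁ : s₁ = 1 ∨ s₁ = -1) (hs₂ : s₂ = 1 ∨ s₂ = -1) (hs₃ : s₃ = 1 ∨ s₃ = -1)
    (hs : s₁ * s₂ * s₃ = 1) :
    ∃ T : W.Point, 2 • T = 0 ∧ rho e₁ T = s₁ ∧ rho e₂ T = s₂ ∧ rho e₃ T = s₃ := by
  have hm : (-1 : K) ≠ 1 := by
    intro h; apply h2; linear_combination -h
  have p12 := Rt.pair h₁ h₂ h₁₂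
  have p13 := Rt.pair h₁ h₃ h₁₃
  have p23 := Rt.pair h₂ h₃ h₂₃
  have q3 : (e₂ - e₃) * (e₁ + e₂ + e₃ + W.a₂) = 0 := by linear_combination p12 - p13
  have q := (mul_eq_zero.mp q3).resolve_left (sub_ne_zero.mpr h₂₃)
  have n12 := sub_ne_zero.mpr h₁₂
  have n13 := sub_ne_zero.mpr h₁₃
  have n23 := sub_ne_zero.mpr h₂₃
  have n32 : e₃ - e₂ ≠ 0 := sub_ne_zero.mpr (Ne.symm h₂₃)
  have n21 : e₂ - e₁ ≠ 0 := sub_ne_zero.mpr (Ne.symm h₁₂)
  have n31 : e₃ - e₁ ≠ 0 := sub_ne_zero.mpr (Ne.symm h₁₃)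
  have d1 : 3 * e₁ ^ 2 + 2 * W.a₂ * e₁ + W.a₄ ≠ 0 := by
    have : 3 * e₁ ^ 2 + 2 * W.a₂ * e₁ + W.a₄ = (e₁ - e₂) * (e₁ - e₃) := by
      linear_combination p12 + (e₁ - e₂) * q
    rw [this]; exact mul_ne_zero n12 n13
  have d2 : 3 * e₂ ^ 2 + 2 * W.a₂ * e₂ + W.a₄ ≠ 0 := by
    have : 3 * e₂ ^ 2 + 2 * W.a₂ * e₂ + W.a₄ = (e₂ - e₁) * (e₂ - e₃) := by
      linear_combination p12 + (e₂ - e₁) * q
    rw [this]; exact mul_ne_zero n21 n23
  have d3 : 3 * e₃ ^ 2 + 2 * W.a₂ * e₃ + W.a₄ ≠ 0 := by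
    have : 3 * e₃ ^ 2 + 2 * W.a₂ * e₃ + W.a₄ = (e₃ - e₁) * (e₃ - e₂) := by
      linear_combination p13 + (e₃ - e₁) * q
    rw [this]; exact mul_ne_zero n31 n32
  have ns1 := hW.nonsingular_of_rt h₁ d1
  have ns2 := hW.nonsingular_of_rt h₂ d2
  have ns3 := hW.nonsingular_of_rt h₃ d3
  have t : ∀ {e : K} (h : W.Nonsingular e 0), 2 • (Affine.Point.some e 0 h : W.Point) = 0 := by
    intro e h; rw [two_nsmul]; exact (add_self_eq_zero_iff hW h2 h).mpr rfl
  rcases hs₁ with rfl | rfl <;> rcases hs₂ with rfl | rfl <;> rcases hs₃ with rfl | rfl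
  · exact ⟨0, by simp, rfl, rfl, rfl⟩
  · exfalso; apply hm; linear_combination hs
  · exfalso; apply hm; linear_combination hs
  · exact ⟨_, t ns1, by rw [rho_two_torsion, if_pos rfl], by rw [rho_two_torsion, if_neg h₁₂],
      by rw [rho_two_torsion, if_neg h₁₃]⟩
  · exfalso; apply hm; linear_combination hs
  · exact ⟨_, t ns2, by rw [rho_two_torsion, if_neg (Ne.symm h₁₂)],
      by rw [rho_two_torsion, if_pos rfl], by rw [rho_two_torsion, if_neg h₂₃]⟩
  · exact ⟨_, t ns3, by rw [rho_two_torsion, if_neg (Ne.symm h₁₃)],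
      by rw [rho_two_torsion, if_neg (Ne.symm h₂₃)], by rw [rho_two_torsion, if_pos rfl]⟩
  · exfalso; apply hm; linear_combination hs

/-- Halving of points when `x - eᵢ` are squares. -/
lemma exists_half (hW : Short W) (h2 : (2 : K) ≠ 0) (hsq : ∀ x : K, ∃ z, z ^ 2 = x)
    {e₁ e₂ e₃ : K} (h₁ : Rt W e₁)
    (h₂ : Rt W e₂) (h₃ : Rt W e₃) (h₁₂ : e₁ ≠ e₂) (h₁₃ : e₁ ≠ e₃) (h₂₃ : e₂ ≠ e₃)
    (P : W.Point) : ∃ Q : W.Point, 2 • Q = P := by
  rcases P with _ | ⟨x₀, y₀, h⟩
  · exact ⟨0, by simp [← Affine.Point.zero_def]⟩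
  have p12 := Rt.pair h₁ h₂ h₁₂
  have p13 := Rt.pair h₁ h₃ h₁₃
  have q3 : (e₂ - e₃) * (e₁ + e₂ + e₃ + W.a₂) = 0 := by linear_combination p12 - p13
  have q := (mul_eq_zero.mp q3).resolve_left (sub_ne_zero.mpr h₂₃)
  have ha2 : W.a₂ = -(e₁ + e₂ + e₃) := by linear_combination q
  have ha4 : W.a₄ = e₁ * e₂ + e₁ * e₃ + e₂ * e₃ := by
    linear_combination p12 - (e₁ + e₂) * q
  have ha6 : W.a₆ = -(e₁ * e₂ * e₃) := by
    unfold Rt at h₁
    rw [ha2, ha4] at h₁
    linear_combination h₁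
  have heq : y₀ ^ 2 = (x₀ - e₁) * (x₀ - e₂) * (x₀ - e₃) := by
    rw [hW.equation h.1, ha2, ha4, ha6]; ring
  obtain ⟨r₁, hr₁⟩ := hsq (x₀ - e₁)
  obtain ⟨r₂, hr₂⟩ := hsq (x₀ - e₂)
  obtain ⟨r₃', hr₃'⟩ := hsq (x₀ - e₃)
  -- choose the sign of `r₃` such that `r₁ r₂ r₃ = y₀`
  obtain ⟨r₃, hr₃, hy₀⟩ : ∃ r₃, r₃ ^ 2 = x₀ - e₃ ∧ y₀ = r₁ * r₂ * r₃ := by
    have h3 : (y₀ - r₁ * r₂ * r₃') * (y₀ + r₁ * r₂ * r₃') = 0 := by
      have : (r₁ * r₂ * r₃') ^ 2 = (x₀ - e₁) * (x₀ - e₂) * (x₀ - e₃) := by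
        rw [← hr₁, ← hr₂, ← hr₃']; ring
      linear_combination heq - this
    rcases mul_eq_zero.mp h3 with h4 | h4
    · exact ⟨r₃', hr₃', by linear_combination h4⟩
    · exact ⟨-r₃', by rw [neg_sq, hr₃'], by linear_combination h4⟩
  have e1 : e₁ = x₀ - r₁ ^ 2 := by rw [hr₁]; ring
  have e2 : e₂ = x₀ - r₂ ^ 2 := by rw [hr₂]; ring
  have e3 : e₃ = x₀ - r₃ ^ 2 := by rw [hr₃]; ring
  have n12 : r₁ + r₂ ≠ 0 := by
    intro h0; apply h₁₂; rw [e1, e2]; linear_combination (r₂ - r₁) * h0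
  have n13 : r₁ + r₃ ≠ 0 := by
    intro h0; apply h₁₃; rw [e1, e3]; linear_combination (r₃ - r₁) * h0
  have n23 : r₂ + r₃ ≠ 0 := by
    intro h0; apply h₂₃; rw [e2, e3]; linear_combination (r₃ - r₂) * h0
  set x := x₀ + r₁ * r₂ + r₁ * r₃ + r₂ * r₃ with hx
  set y := (r₁ + r₂) * (r₁ + r₃) * (r₂ + r₃) with hy
  have hyne : y ≠ 0 := mul_ne_zero (mul_ne_zero n12 n13) n23
  have hQ : W.Nonsingular x y := by
    rw [W.nonsingular_iff x y, Affine.equation_iff, hW.a₁, hW.a₃]
    refine ⟨?_, Or.inr ?_⟩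
    · rw [ha2, ha4, ha6, e1, e2, e3, hx, hy]; ring
    · intro h0; apply hyne
      have : 2 * y = 0 := by linear_combination h0
      exact (mul_eq_zero.mp this).resolve_left h2
  refine ⟨.some x y hQ, ?_⟩
  have hne : y ≠ W.negY x y := by
    rw [hW.negY]; intro h1
    have : 2 * y = 0 := by linear_combination h1
    exact hyne ((mul_eq_zero.mp this).resolve_left h2)
  have hslope : W.slope x x y y = r₁ + r₂ + r₃ := by
    rw [Affine.slope_of_Y_ne rfl hne, hW.negY, hW.a₁]
    have : y - -y = 2 * y := by ring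
    rw [this, div_eq_iff (mul_ne_zero h2 hyne), ha2, ha4, e1, e2, e3, hx, hy]
    ring
  have hX : W.addX x x (r₁ + r₂ + r₃) = x₀ := by
    rw [Affine.addX, hW.a₁, ha2, e1, e2, e3, hx]; ring
  have hY : W.addY x x y (r₁ + r₂ + r₃) = y₀ := by
    rw [Affine.addY, Affine.negAddY, hX, hW.negY, hy₀, hx, hy]; ring
  rw [two_nsmul, Affine.Point.add_self_of_Y_ne hne]
  simp only [hslope, hX, hY]

end Pool.Agent.Lib.MP_89bcae_ag

namespace Pool.Agent.Lib.MP_89bcae_ag

section Map

open WeierstrassCurve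

variable {R S : Type*} [CommRing R] [CommRing S] {A B : Type*} [Field A] [Field B] [DecidableEq A]
  [DecidableEq B] [Algebra R S] [Algebra R A] [Algebra S A] [IsScalarTower R S A] [Algebra R B]
  [Algebra S B] [IsScalarTower R S B] {W' : WeierstrassCurve.Affine R}

lemma rho_map (f : A →ₐ[S] B) (e : A) (P : (Affine.baseChange W' A).Point) :
    rho (f e) (Affine.Point.map (W' := W') f P) = f (rho e P) := by
  have hf : ∀ r : R, f (algebraMap R A r) = algebraMap R B r := by
    intro r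
    rw [IsScalarTower.algebraMap_apply R S A, AlgHom.commutes, ← IsScalarTower.algebraMap_apply]
  rcases P with _ | ⟨x, y, h⟩
  · exact (map_one f).symm
  · rw [Affine.Point.map_some, rho_some, rho_some]
    by_cases hy : y = 0
    · rw [if_pos hy, if_pos (by rw [hy, map_zero])]
      by_cases hx : x = e
      · rw [if_pos hx, if_pos (by rw [hx]), map_one]
      · have hx' : f x ≠ f e := fun h => hx (f.injective h)
        rw [if_neg hx, if_neg hx', map_neg, map_one]
    · have hy' : f y ≠ 0 := fun h => hy ((map_eq_zero f).mp h)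
      rw [if_neg hy, if_neg hy']
      simp only [map_div₀, map_sub, map_pow, map_add, map_mul, map_ofNat]
      simp [Affine.baseChange, WeierstrassCurve.baseChange, hf]

end Map

end Pool.Agent.Lib.MP_89bcae_ag

end

section

/-!
# Kummer theory for quadratic characters, and its version for a transitive set of roots
-/

namespace Pool.Agent.Lib.MP_89bcae_ag

variable {L Ω : Type*} [Field L] [Field Ω] [Algebra L Ω] [IsGalois L Ω]

/-- A continuous sign character on the stabiliser of `θ₀` comes from a Kummer generator. -/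
lemma exists_kummer_gen (θ₀ : Ω) (χ : (Ω ≃ₐ[L] Ω) → Ω)
    (hsign : ∀ σ : Ω ≃ₐ[L] Ω, σ θ₀ = θ₀ → χ σ = 1 ∨ χ σ = -1)
    (hmul : ∀ σ τ : Ω ≃ₐ[L] Ω, σ θ₀ = θ₀ → τ θ₀ = θ₀ → χ (σ * τ) = χ σ * χ τ)
    (hloc : IsLocallyConstant χ) :
    ∃ b : Ω, b ≠ 0 ∧ ∀ σ : Ω ≃ₐ[L] Ω, σ θ₀ = θ₀ → σ b = χ σ * b := by
  classical
  by_cases hneg1 : (-1 : Ω) = 1
  · refine ⟨1, one_ne_zero, fun σ hσ => ?_⟩
    rcases hsign σ hσ with h | h <;> simp [h, hneg1]
  by_cases htriv : ∀ σ : Ω ≃ₐ[L] Ω, σ θ₀ = θ₀ → χ σ = 1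
  · exact ⟨1, one_ne_zero, fun σ hσ => by rw [htriv σ hσ, map_one, mul_one]⟩
  push Not at htriv
  obtain ⟨σ₁, hσ₁, hχ₁⟩ := htriv
  have hχ₁' : χ σ₁ = -1 := (hsign σ₁ hσ₁).resolve_left hχ₁
  have hχone : χ 1 = 1 := by
    have h1 : (1 : Ω ≃ₐ[L] Ω) θ₀ = θ₀ := rfl
    have := hmul 1 1 h1 h1
    rw [mul_one] at this
    rcases hsign 1 h1 with h | h
    · exact h
    · rw [h] at this; exfalso; apply hneg1; rw [this]; ring
  have hinv : ∀ σ : Ω ≃ₐ[L] Ω, σ θ₀ = θ₀ → σ⁻¹ θ₀ = θ₀ := by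
    intro σ hσ
    have : σ⁻¹ (σ θ₀) = θ₀ := σ.symm_apply_apply θ₀
    rwa [hσ] at this
  have hχinv : ∀ σ : Ω ≃ₐ[L] Ω, σ θ₀ = θ₀ → χ σ⁻¹ = χ σ := by
    intro σ hσ
    have h := hmul σ σ⁻¹ hσ (hinv σ hσ)
    rw [mul_inv_cancel, hχone] at h
    rcases hsign σ hσ with h1 | h1 <;> rcases hsign σ⁻¹ (hinv σ hσ) with h2 | h2
    · rw [h1, h2]
    · rw [h1, h2] at h; exfalso; exact hneg1 (by linear_combination -h)
    · rw [h1, h2] at h; exfalso; exact hneg1 (by linear_combination -h)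
    · rw [h1, h2]
  -- the closed subgroup `H' = ker χ`
  let H' : Subgroup (Ω ≃ₐ[L] Ω) :=
    { carrier := {σ | σ θ₀ = θ₀ ∧ χ σ = 1}
      mul_mem' := by
        rintro a b ⟨ha, ha'⟩ ⟨hb, hb'⟩
        refine ⟨?_, ?_⟩
        · change a (b θ₀) = θ₀
          rw [hb, ha]
        · rw [hmul a b ha hb, ha', hb', mul_one]
      one_mem' := ⟨rfl, hχone⟩
      inv_mem' := by
        rintro a ⟨ha, ha'⟩
        exact ⟨hinv a ha, by rw [hχinv a ha, ha']⟩ }
  have hH'closed : IsClosed (H' : Set (Ω ≃ₐ[L] Ω)) := by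
    have h1 : IsClosed {σ : Ω ≃ₐ[L] Ω | σ θ₀ = θ₀} := by
      have h3 := InfiniteGalois.fixingSubgroup_isClosed (IntermediateField.adjoin L {θ₀})
      convert h3 using 1
      ext σ
      simp only [Set.mem_ofPred_eq, SetLike.mem_coe]
      rw [IntermediateField.mem_fixingSubgroup_iff]
      constructor
      · intro h x hx
        have : IntermediateField.adjoin L {θ₀} ≤
            IntermediateField.fixedField (Subgroup.zpowers σ) := by
          rw [IntermediateField.adjoin_le_iff, Set.singleton_subset_iff]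
          rw [SetLike.mem_coe, IntermediateField.mem_fixedField_iff]
          rintro f ⟨n, rfl⟩
          have hst : σ ∈ MulAction.stabilizer (Ω ≃ₐ[L] Ω) θ₀ := h
          exact (Subgroup.zpow_mem _ hst n)
        exact (IntermediateField.mem_fixedField_iff _ _).mp (this hx) σ (Subgroup.mem_zpowers σ)
      · intro h
        exact h θ₀ (IntermediateField.mem_adjoin_simple_self L θ₀)
    have h2 : IsClosed {σ : Ω ≃ₐ[L] Ω | χ σ = 1} := (hloc.isClosed_fiber 1)
    exact h1.inter h2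
  let H'c : ClosedSubgroup (Ω ≃ₐ[L] Ω) := ⟨H', hH'closed⟩
  have hnotmem : σ₁ ∉ H' := by
    rintro ⟨_, h⟩
    rw [hχ₁'] at h
    exact hneg1 h
  have hex : ∃ y ∈ IntermediateField.fixedField H', σ₁ y ≠ y := by
    by_contra hcon
    push Not at hcon
    apply hnotmem
    have h4 := InfiniteGalois.fixingSubgroup_fixedField H'c
    have h5 : σ₁ ∈ (IntermediateField.fixedField H').fixingSubgroup := by
      rw [IntermediateField.mem_fixingSubgroup_iff]
      exact hcon
    have h6 : (IntermediateField.fixedField H').fixingSubgroup = H' := h4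
    rwa [h6] at h5
  obtain ⟨y, hy, hσy⟩ := hex
  rw [IntermediateField.mem_fixedField_iff] at hy
  refine ⟨y - σ₁ y, sub_ne_zero.mpr (Ne.symm hσy), fun σ hσ => ?_⟩
  have key : ∀ h ∈ H', h (σ₁ y) = σ₁ y := by
    rintro h ⟨hh, hh'⟩
    have hm : σ₁⁻¹ * h * σ₁ ∈ H' := by
      refine ⟨?_, ?_⟩
      · change σ₁⁻¹ (h (σ₁ θ₀)) = θ₀
        rw [hσ₁, hh, hinv σ₁ hσ₁]
      · have e1 : (σ₁⁻¹ * h) θ₀ = θ₀ := by
          change σ₁⁻¹ (h θ₀) = θ₀
          rw [hh, hinv σ₁ hσ₁]
        rw [hmul _ _ e1 hσ₁, hmul _ _ (hinv σ₁ hσ₁) hh, hχinv σ₁ hσ₁, hh', hχ₁']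
        ring
    have := hy _ hm
    change σ₁⁻¹ (h (σ₁ y)) = y at this
    have h7 : σ₁ (σ₁⁻¹ (h (σ₁ y))) = h (σ₁ y) := σ₁.apply_symm_apply _
    rw [← h7, this]
  rcases hsign σ hσ with h1 | h1
  · have hm : σ ∈ H' := ⟨hσ, h1⟩
    rw [map_sub, hy σ hm, key σ hm, h1, one_mul]
  · -- `σ = h σ₁` with `h ∈ H'`
    have hm : σ * σ₁⁻¹ ∈ H' := by
      refine ⟨?_, ?_⟩
      · change σ (σ₁⁻¹ θ₀) = θ₀
        rw [hinv σ₁ hσ₁, hσ]
      · rw [hmul _ _ hσ (hinv σ₁ hσ₁), h1, hχinv σ₁ hσ₁, hχ₁']; ring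
    have hm2 : σ₁ * σ₁ ∈ H' := by
      refine ⟨?_, ?_⟩
      · change σ₁ (σ₁ θ₀) = θ₀
        rw [hσ₁, hσ₁]
      · rw [hmul _ _ hσ₁ hσ₁, hχ₁']; ring
    have e1 : σ y = σ₁ y := by
      have h8 : (σ * σ₁⁻¹) (σ₁ y) = σ y := by
        change σ (σ₁⁻¹ (σ₁ y)) = σ y
        congr 1
        exact σ₁.symm_apply_apply y
      rw [← h8]
      exact key _ hm
    have e2 : σ (σ₁ y) = y := by
      have h8 : (σ * σ₁⁻¹) (σ₁ (σ₁ y)) = σ (σ₁ y) := by
        change σ (σ₁⁻¹ (σ₁ (σ₁ y))) = σ (σ₁ y)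
        congr 1
        exact σ₁.symm_apply_apply (σ₁ y)
      have h9 : σ₁ (σ₁ y) = y := hy _ hm2
      rw [← h8, h9]
      exact hy _ hm
    rw [map_sub, e1, e2, h1]
    ring

/-- The descent functions attached to a `±1`-valued cocycle on a transitive set `R`. -/
lemma exists_descent_fun (R : Set Ω) (hR : ∀ θ ∈ R, ∀ σ : Ω ≃ₐ[L] Ω, σ θ ∈ R)
    (htrans : ∀ θ ∈ R, ∀ θ' ∈ R, ∃ σ : Ω ≃ₐ[L] Ω, σ θ = θ') (hne : R.Nonempty)
    (s : Ω → (Ω ≃ₐ[L] Ω) → Ω) (hs1 : ∀ θ ∈ R, ∀ σ, s θ σ = 1 ∨ s θ σ = -1)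
    (hs : ∀ θ ∈ R, ∀ σ τ, s (σ θ) (σ * τ) = s (σ θ) σ * s θ τ)
    (hloc : ∀ θ ∈ R, IsLocallyConstant (s θ)) :
    ∃ b : Ω → Ω, (∀ θ ∈ R, b θ ≠ 0) ∧ ∀ θ ∈ R, ∀ σ : Ω ≃ₐ[L] Ω, σ (b θ) = s (σ θ) σ * b (σ θ) := by
  classical
  obtain ⟨θ₀, hθ₀⟩ := hne
  obtain ⟨b₀, hb₀, hb⟩ := exists_kummer_gen θ₀ (s θ₀) (fun σ _ => hs1 θ₀ hθ₀ σ)
    (fun σ τ hσ hτ => by
      have := hs θ₀ hθ₀ σ τ
      rwa [hσ] at this) (hloc θ₀ hθ₀)
  choose! g hg using fun θ (hθ : θ ∈ R) => htrans θ₀ hθ₀ θ hθ
  have hsq : ∀ θ ∈ R, ∀ σ, s θ σ * s θ σ = 1 := by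
    intro θ hθ σ
    rcases hs1 θ hθ σ with h | h <;> rw [h] <;> ring
  have hsn : ∀ θ ∈ R, ∀ σ, s θ σ ≠ 0 := by
    intro θ hθ σ h
    have := hsq θ hθ σ
    rw [h, mul_zero] at this
    exact zero_ne_one this
  have hsfix : ∀ θ ∈ R, ∀ σ, ∀ τ : Ω ≃ₐ[L] Ω, τ (s θ σ) = s θ σ := by
    intro θ hθ σ τ
    rcases hs1 θ hθ σ with h | h <;> simp [h]
  refine ⟨fun θ => s θ (g θ) * g θ b₀, fun θ hθ => mul_ne_zero (hsn θ hθ _) ?_, fun θ hθ σ => ?_⟩
  · intro h
    exact hb₀ ((map_eq_zero (g θ)).mp h)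
  · have hσθ := hR θ hθ σ
    set g' := g (σ θ) with hg'
    have hg1 : g θ θ₀ = θ := hg θ hθ
    have hg2 : g' θ₀ = σ θ := hg (σ θ) hσθ
    set h := g'⁻¹ * (σ * g θ) with hh
    have hfix : h θ₀ = θ₀ := by
      change g'⁻¹ (σ (g θ θ₀)) = θ₀
      rw [hg1, ← hg2]
      exact g'.symm_apply_apply θ₀
    have hmul : σ * g θ = g' * h := by rw [hh]; group
    have e1 : σ (g θ b₀) = g' (h b₀) := by
      change (σ * g θ) b₀ = (g' * h) b₀
      rw [hmul]
    have e2 : σ (g θ b₀) = s θ₀ h * g' b₀ := by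
      rw [e1, hb h hfix, map_mul, hsfix θ₀ hθ₀]
    have e3 : s (σ θ) (σ * g θ) = s (σ θ) σ * s θ (g θ) := by
      exact hs θ hθ σ (g θ)
    have e4 : s (σ θ) (σ * g θ) = s (σ θ) g' * s θ₀ h := by
      have := hs θ₀ hθ₀ g' h
      rwa [hg2, ← hmul] at this
    have e5 : s θ₀ h = s (σ θ) g' * (s (σ θ) σ * s θ (g θ)) := by
      rw [← e3, e4, ← mul_assoc, hsq _ hσθ, one_mul]
    change σ (s θ (g θ) * g θ b₀) = s (σ θ) σ * (s (σ θ) g' * g' b₀)
    rw [map_mul, hsfix θ hθ, e2, e5]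
    calc s θ (g θ) * (s (σ θ) g' * (s (σ θ) σ * s θ (g θ)) * g' b₀)
        = (s θ (g θ) * s θ (g θ)) * (s (σ θ) g' * s (σ θ) σ * g' b₀) := by ring
      _ = s (σ θ) σ * (s (σ θ) g' * g' b₀) := by rw [hsq θ hθ]; ring

end Pool.Agent.Lib.MP_89bcae_ag

end

section

/-!
# The roots of `g(x) = t` in a separable closure of `F(t)`
-/

open Polynomial

set_option linter.unusedSectionVars false

namespace Pool.Agent.Lib.MP_89bcae_ag

section Roots

variable {F L Ω : Type*} [Field F] [Field L] [Field Ω] [Algebra F[X] L]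
  [IsFractionRing F[X] L] [Algebra L Ω] [Algebra F[X] Ω] [IsScalarTower F[X] L Ω]

variable (F Ω) in
/-- Evaluation of a polynomial with coefficients in `F` at an element of `Ω`. -/
noncomputable def ev (θ : Ω) : F[X] →+* Ω := eval₂RingHom ((algebraMap F[X] Ω).comp C) θ

lemma ev_C (θ : Ω) (a : F) : ev F Ω θ (C a) = algebraMap F[X] Ω (C a) := by
  simp [ev]

lemma ev_X (θ : Ω) : ev F Ω θ X = θ := by
  simp [ev]

lemma ev_map (σ : Ω ≃ₐ[L] Ω) (θ : Ω) (p : F[X]) : σ (ev F Ω θ p) = ev F Ω (σ θ) p := by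
  have h : (σ : Ω →+* Ω).comp (ev F Ω θ) = ev F Ω (σ θ) := by
    apply Polynomial.ringHom_ext
    · intro a
      simp only [RingHom.comp_apply, ev_C]
      rw [IsScalarTower.algebraMap_apply F[X] L Ω]
      exact σ.commutes _
    · simp [ev_X]
  exact RingHom.congr_fun h p

/-- The set of roots of `g(x) = t`. -/
def RootSet (g : F[X]) : Set Ω := {θ | ev F Ω θ g = algebraMap F[X] Ω X}

lemma ev_comp_of_mem {g : F[X]} {θ : Ω} (hθ : θ ∈ RootSet (Ω := Ω) g) (p : F[X]) :
    ev F Ω θ (p.comp g) = algebraMap F[X] Ω p := by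
  have h : (ev F Ω θ).comp (compRingHom g) = algebraMap F[X] Ω := by
    apply Polynomial.ringHom_ext
    · intro a
      simp [ev_C]
    · simp only [RingHom.comp_apply, coe_compRingHom_apply, X_comp]
      exact hθ
  exact RingHom.congr_fun h p

lemma map_mem_rootSet {g : F[X]} (σ : Ω ≃ₐ[L] Ω) {θ : Ω} (hθ : θ ∈ RootSet (Ω := Ω) g) :
    σ θ ∈ RootSet (Ω := Ω) g := by
  change ev F Ω (σ θ) g = _
  rw [← ev_map, show ev F Ω θ g = _ from hθ, IsScalarTower.algebraMap_apply F[X] L Ω]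
  exact σ.commutes _

include L in
variable (L) in
lemma algebraMap_Om_injective : Function.Injective (algebraMap F[X] Ω) := by
  rw [IsScalarTower.algebraMap_eq F[X] L Ω]
  exact (algebraMap L Ω).injective.comp (IsFractionRing.injective F[X] L)

variable (L) in
include L in
/-- A root `θ` of `g(x) = t` is transcendental over `F`. -/
lemma ev_injective [IsAlgClosed F] {g : F[X]} {θ : Ω} (hθ : θ ∈ RootSet (Ω := Ω) g) :
    Function.Injective (ev F Ω θ) := by
  rw [injective_iff_map_eq_zero]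
  intro p hp
  by_contra hp0
  have hex : ∃ a : F, θ = algebraMap F[X] Ω (C a) := by
    have hs := IsAlgClosed.splits p
    have h1 := hs.eq_prod_roots
    rw [h1, map_mul, map_multiset_prod, mul_eq_zero] at hp
    rcases hp with h | h
    · exfalso
      rw [ev_C] at h
      have := algebraMap_Om_injective (F := F) L (Ω := Ω) (h.trans (map_zero _).symm)
      rw [C_eq_zero, leadingCoeff_eq_zero] at this
      exact hp0 this
    · rw [Multiset.prod_eq_zero_iff, Multiset.mem_map] at h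
      obtain ⟨q, hq, hq0⟩ := h
      rw [Multiset.mem_map] at hq
      obtain ⟨a, -, rfl⟩ := hq
      rw [map_sub, ev_X, ev_C, sub_eq_zero] at hq0
      exact ⟨a, hq0⟩
  obtain ⟨a, rfl⟩ := hex
  have h2 : ev F Ω (algebraMap F[X] Ω (C a)) g = algebraMap F[X] Ω (C (g.eval a)) := by
    have h : (ev F Ω (algebraMap F[X] Ω (C a))) =
        (algebraMap F[X] Ω).comp (C.comp (evalRingHom a)) := by
      apply Polynomial.ringHom_ext
      · intro b
        simp [ev_C]
      · simp [ev_X]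
    rw [h]; rfl
  have h3 : algebraMap F[X] Ω (C (g.eval a)) = algebraMap F[X] Ω X := by
    rw [← h2]; exact hθ
  have h4 := algebraMap_Om_injective (F := F) L (Ω := Ω) h3
  have h5 := congrArg natDegree h4
  rw [natDegree_C, natDegree_X] at h5
  exact zero_ne_one h5

variable (L) in
/-- The polynomial `g(x) - t` over `L`. -/
noncomputable def PL (g : F[X]) : L[X] := g.map ((algebraMap F[X] L).comp C) - C (algebraMap F[X] L X)

lemma PL_natDegree {g : F[X]} (hdeg : g.natDegree = 3) : (PL L g).natDegree = 3 := by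
  unfold PL
  rw [natDegree_sub_C, natDegree_map_eq_of_injective, hdeg]
  exact (IsFractionRing.injective F[X] L).comp C_injective

lemma PL_monic {g : F[X]} (hg : g.Monic) (hdeg : g.natDegree = 3) : (PL L g).Monic := by
  unfold PL
  apply (hg.map _).sub_of_left
  refine lt_of_le_of_lt degree_C_le ?_
  rw [degree_eq_natDegree (hg.map _).ne_zero, (hg.natDegree_map _), hdeg]
  norm_num

lemma PL_aeval {g : F[X]} (θ : Ω) :
    (PL L g).aeval θ = ev F Ω θ g - algebraMap F[X] Ω X := by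
  unfold PL ev
  rw [map_sub, aeval_C, ← IsScalarTower.algebraMap_apply, aeval_def, eval₂_map,
    coe_eval₂RingHom, ← RingHom.comp_assoc, ← IsScalarTower.algebraMap_eq]

lemma mem_rootSet_iff {g : F[X]} {θ : Ω} :
    θ ∈ RootSet (Ω := Ω) g ↔ (PL L g).aeval θ = 0 := by
  rw [PL_aeval, sub_eq_zero]; rfl

/-- `g(x) - t` is irreducible over `F(t)`. -/
lemma PL_irreducible {g : F[X]} (hg : g.Monic) (hdeg : g.natDegree = 3) :
    Irreducible (PL L g) := by
  rw [(PL_monic (L := L) hg hdeg).irreducible_iff_roots_eq_zero_of_degree_le_three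
    (by rw [PL_natDegree hdeg]; norm_num) (by rw [PL_natDegree hdeg])]
  rw [Multiset.eq_zero_iff_forall_notMem]
  intro x hx
  rw [mem_roots (PL_monic (L := L) hg hdeg).ne_zero, IsRoot.def] at hx
  -- `x` is integral over `F[t]`
  have hint : IsIntegral F[X] x := by
    refine ⟨g.map C - C X, ?_, ?_⟩
    · apply (hg.map _).sub_of_left
      refine lt_of_le_of_lt degree_C_le ?_
      rw [degree_eq_natDegree (hg.map _).ne_zero, (hg.natDegree_map _), hdeg]
      norm_num
    · rw [eval₂_sub, eval₂_map, eval₂_C]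
      rw [PL, eval_sub, eval_C, eval_map] at hx
      exact hx
  obtain ⟨p, rfl⟩ := IsIntegrallyClosed.isIntegral_iff.mp hint
  have h1 : algebraMap F[X] L (g.comp p) = algebraMap F[X] L X := by
    rw [PL, eval_sub, eval_C, eval_map, sub_eq_zero] at hx
    rw [← hx]
    have h : (algebraMap F[X] L).comp (compRingHom p) =
        eval₂RingHom ((algebraMap F[X] L).comp C) (algebraMap F[X] L p) := by
      apply Polynomial.ringHom_ext
      · intro a; simp
      · simp
    exact RingHom.congr_fun h g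
  have h2 := IsFractionRing.injective F[X] L h1
  have h3 := congrArg natDegree h2
  rw [natDegree_comp, hdeg, natDegree_X] at h3
  omega

lemma PL_separable {g : F[X]} (hg : g.Monic) (hdeg : g.natDegree = 3)
    (hd : derivative g ≠ 0) : (PL L g).Separable := by
  rw [separable_iff_derivative_ne_zero (PL_irreducible hg hdeg)]
  unfold PL
  rw [derivative_sub, derivative_C, sub_zero, derivative_map]
  rw [Polynomial.map_ne_zero_iff]
  · exact hd
  · exact (IsFractionRing.injective F[X] L).comp C_injective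

variable (L) in
include L in
/-- The three roots of `g(x) = t`. -/
lemma exists_three_roots [IsSepClosed Ω] {g : F[X]} (hg : g.Monic) (hdeg : g.natDegree = 3)
    (hd : derivative g ≠ 0) :
    ∃ θ₁ θ₂ θ₃ : Ω, θ₁ ≠ θ₂ ∧ θ₁ ≠ θ₃ ∧ θ₂ ≠ θ₃ ∧
      (∀ θ, θ ∈ RootSet (Ω := Ω) g ↔ θ = θ₁ ∨ θ = θ₂ ∨ θ = θ₃) ∧
      (∀ x : Ω, ev F Ω x g - algebraMap F[X] Ω X = (x - θ₁) * (x - θ₂) * (x - θ₃)) ∧
      (PL L g).map (algebraMap L Ω) = (X - C θ₁) * (X - C θ₂) * (X - C θ₃) := by
  have hsep := PL_separable (L := L) hg hdeg hd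
  set P : Polynomial Ω := (PL L g).map (algebraMap L Ω) with hP
  have hPm : P.Monic := (PL_monic (L := L) hg hdeg).map _
  have hs : P.Splits := IsSepClosed.splits_of_separable P (Separable.map hsep)
  have hnd : P.roots.Nodup := nodup_roots (Separable.map hsep)
  have hcard : P.roots.card = 3 := by
    rw [← hs.natDegree_eq_card_roots, hP, natDegree_map, PL_natDegree hdeg]
  obtain ⟨θ₁, θ₂, θ₃, h⟩ := Multiset.card_eq_three.mp hcard
  rw [h] at hnd
  have hprod : P = (X - C θ₁) * (X - C θ₂) * (X - C θ₃) := by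
    have := hs.eq_prod_roots_of_monic hPm
    rw [h] at this
    rw [this]
    simp [mul_assoc]
  have heval : ∀ x : Ω, ev F Ω x g - algebraMap F[X] Ω X = (x - θ₁) * (x - θ₂) * (x - θ₃) := by
    intro x
    rw [← PL_aeval (L := L), aeval_def, ← eval_map, ← hP, hprod]
    simp
  simp only [Multiset.insert_eq_cons, Multiset.nodup_cons, Multiset.mem_cons,
    Multiset.mem_singleton, not_or, Multiset.nodup_singleton, and_true] at hnd
  refine ⟨θ₁, θ₂, θ₃, hnd.1.1, hnd.1.2, hnd.2, ?_, heval, hprod⟩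
  intro θ
  have h5 : θ ∈ RootSet (Ω := Ω) g ↔ ev F Ω θ g - algebraMap F[X] Ω X = 0 := by
    rw [sub_eq_zero]; rfl
  rw [h5, heval, mul_eq_zero, mul_eq_zero, sub_eq_zero, sub_eq_zero, sub_eq_zero, or_assoc]

/-- The Galois group acts transitively on the roots. -/
lemma rootSet_transitive [IsGalois L Ω] {g : F[X]} (hg : g.Monic) (hdeg : g.natDegree = 3)
    {θ θ' : Ω} (hθ : θ ∈ RootSet (Ω := Ω) g) (hθ' : θ' ∈ RootSet (Ω := Ω) g) :
    ∃ σ : Ω ≃ₐ[L] Ω, σ θ = θ' := by
  have h1 : minpoly L θ = minpoly L θ' := by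
    rw [← minpoly.eq_of_irreducible_of_monic (PL_irreducible hg hdeg)
      ((mem_rootSet_iff (L := L)).mp hθ) (PL_monic hg hdeg),
      ← minpoly.eq_of_irreducible_of_monic (PL_irreducible hg hdeg)
      ((mem_rootSet_iff (L := L)).mp hθ') (PL_monic hg hdeg)]
  obtain ⟨σ, hσ⟩ := (Normal.minpoly_eq_iff_mem_orbit Ω).mp h1.symm
  exact ⟨σ, hσ⟩

/-- An element fixed by the stabiliser of `θ` is a rational function of `θ`. -/
lemma exists_rational_of_fixed [IsAlgClosed F] [IsGalois L Ω] {g : F[X]} {θ : Ω}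
    (hθ : θ ∈ RootSet (Ω := Ω) g) {x : Ω} (hx : ∀ σ : Ω ≃ₐ[L] Ω, σ θ = θ → σ x = x) :
    ∃ p q : F[X], q ≠ 0 ∧ x * ev F Ω θ q = ev F Ω θ p := by
  have hinj := ev_injective L hθ
  let K₀ : IntermediateField L Ω :=
    { carrier := {x | ∃ p q : F[X], q ≠ 0 ∧ x * ev F Ω θ q = ev F Ω θ p}
      mul_mem' := by
        rintro a b ⟨p, q, hq, h⟩ ⟨p', q', hq', h'⟩
        exact ⟨p * p', q * q', mul_ne_zero hq hq', by
          rw [map_mul, map_mul, ← h, ← h']; ring⟩
      add_mem' := by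
        rintro a b ⟨p, q, hq, h⟩ ⟨p', q', hq', h'⟩
        exact ⟨p * q' + p' * q, q * q', mul_ne_zero hq hq', by
          rw [map_mul, map_add, map_mul, map_mul, ← h, ← h']; ring⟩
      algebraMap_mem' := by
        intro r
        obtain ⟨p, q, hq, rfl⟩ := IsFractionRing.div_surjective (A := F[X]) r
        have hq' : algebraMap F[X] Ω q ≠ 0 := by
          intro h
          exact nonZeroDivisors.ne_zero hq
            (algebraMap_Om_injective (F := F) L (Ω := Ω) (h.trans (map_zero _).symm))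
        refine ⟨p.comp g, q.comp g, ?_, ?_⟩
        · intro h
          apply hq'
          rw [← ev_comp_of_mem hθ, h, map_zero]
        · rw [ev_comp_of_mem hθ, ev_comp_of_mem hθ, map_div₀, ← IsScalarTower.algebraMap_apply,
            ← IsScalarTower.algebraMap_apply]
          field_simp
      inv_mem' := by
        rintro a ⟨p, q, hq, h⟩
        by_cases ha : a = 0
        · exact ⟨0, 1, one_ne_zero, by simp [ha]⟩
        · refine ⟨q, p, ?_, ?_⟩
          · rintro rfl
            rw [map_zero, mul_eq_zero] at h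
            rcases h with h | h
            · exact ha h
            · exact hq (hinj (h.trans (map_zero _).symm))
          · rw [← h]; field_simp }
  have hθK : θ ∈ K₀ := ⟨X, 1, one_ne_zero, by rw [map_one, ev_X, mul_one]⟩
  have hle : IntermediateField.adjoin L {θ} ≤ K₀ := by
    rw [IntermediateField.adjoin_le_iff, Set.singleton_subset_iff]
    exact hθK
  have hmem : x ∈ IntermediateField.adjoin L {θ} := by
    rw [← InfiniteGalois.fixedField_fixingSubgroup (IntermediateField.adjoin L {θ}),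
      IntermediateField.mem_fixedField_iff]
    intro σ hσ
    apply hx
    exact (IntermediateField.mem_fixingSubgroup_iff _ _).mp hσ θ
      (IntermediateField.mem_adjoin_simple_self L θ)
  exact hle hmem

variable (L) in
include L in
/-- The three roots of `g(x) = t`, one of them being given. -/
lemma exists_other_roots [IsSepClosed Ω] {g : F[X]} (hg : g.Monic) (hdeg : g.natDegree = 3)
    (hd : derivative g ≠ 0) {θ : Ω} (hθ : θ ∈ RootSet (Ω := Ω) g) :
    ∃ θ₂ θ₃ : Ω, θ ≠ θ₂ ∧ θ ≠ θ₃ ∧ θ₂ ≠ θ₃ ∧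
      (∀ x, x ∈ RootSet (Ω := Ω) g ↔ x = θ ∨ x = θ₂ ∨ x = θ₃) ∧
      (∀ x : Ω, ev F Ω x g - algebraMap F[X] Ω X = (x - θ) * (x - θ₂) * (x - θ₃)) ∧
      ev F Ω θ (derivative g) = (θ - θ₂) * (θ - θ₃) := by
  have key : ∀ a b c : Ω, (PL L g).map (algebraMap L Ω) = (X - C a) * (X - C b) * (X - C c) →
      ev F Ω a (derivative g) = (a - b) * (a - c) := by
    intro a b c h
    have h1 := congrArg (fun P : Polynomial Ω => (derivative P).eval a) h
    simp only [derivative_mul, derivative_sub, derivative_X, derivative_C, sub_zero, one_mul,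
      mul_one, eval_add, eval_mul, eval_sub, eval_X, eval_C, sub_self, zero_mul,
      add_zero] at h1
    rw [derivative_map, PL, derivative_sub, derivative_C, sub_zero, derivative_map,
      Polynomial.map_map, ← RingHom.comp_assoc, ← IsScalarTower.algebraMap_eq, eval_map] at h1
    rw [ev, coe_eval₂RingHom, h1]
  obtain ⟨θ₁, θ₂, θ₃, h12, h13, h23, hR, heval, hP⟩ :=
    exists_three_roots (F := F) L (Ω := Ω) hg hdeg hd
  rcases (hR θ).mp hθ with rfl | rfl | rfl
  · exact ⟨θ₂, θ₃, h12, h13, h23, hR, heval, key _ _ _ hP⟩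
  · refine ⟨θ₁, θ₃, h12.symm, h23, h13, ?_, ?_, key _ _ _ (by rw [hP]; ring)⟩
    · intro x; rw [hR]; tauto
    · intro x; rw [heval]; ring
  · refine ⟨θ₁, θ₂, h13.symm, h23.symm, h12, ?_, ?_, key _ _ _ (by rw [hP]; ring)⟩
    · intro x; rw [hR]; tauto
    · intro x; rw [heval]; ring

end Roots

end Pool.Agent.Lib.MP_89bcae_ag

end

section

/-!
# Polynomials over an algebraically closed field modulo squares
-/

open Polynomial

namespace Pool.Agent.Lib.MP_89bcae_ag

variable {F : Type*} [Field F]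

lemma exists_sq_mul_prod_aux [DecidableEq F] (s : Multiset F) :
    ∃ (S : F[X]) (Z : Finset F), S ≠ 0 ∧
      (s.map fun a => X - C a).prod = S ^ 2 * ∏ β ∈ Z, (X - C β) := by
  induction s using Multiset.induction with
  | empty => exact ⟨1, ∅, one_ne_zero, by simp⟩
  | cons a s ih =>
    obtain ⟨S, Z, hS, h⟩ := ih
    rw [Multiset.map_cons, Multiset.prod_cons, h]
    by_cases ha : a ∈ Z
    · refine ⟨S * (X - C a), Z.erase a, mul_ne_zero hS (X_sub_C_ne_zero a), ?_⟩
      rw [← Finset.mul_prod_erase Z _ ha]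
      ring
    · refine ⟨S, insert a Z, hS, ?_⟩
      rw [Finset.prod_insert ha]
      ring

/-- Every nonzero polynomial is a square times a product of distinct linear factors. -/
lemma exists_sq_mul_prod [IsAlgClosed F] (r : F[X]) (hr : r ≠ 0) :
    ∃ (S : F[X]) (Z : Finset F), S ≠ 0 ∧ r = S ^ 2 * ∏ β ∈ Z, (X - C β) := by
  classical
  obtain ⟨S, Z, hS, h⟩ := exists_sq_mul_prod_aux r.roots
  obtain ⟨z, hz⟩ := IsAlgClosed.exists_pow_nat_eq r.leadingCoeff (n := 2) (by norm_num)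
  have hz0 : z ≠ 0 := by
    rintro rfl
    rw [zero_pow two_ne_zero] at hz
    exact hr (leadingCoeff_eq_zero.mp hz.symm)
  refine ⟨C z * S, Z, mul_ne_zero (C_ne_zero.mpr hz0) hS, ?_⟩
  conv_lhs => rw [(IsAlgClosed.splits r).eq_prod_roots]
  rw [h, ← hz, C_pow]
  ring

/-- Parity of the multiplicities in a square. -/
lemma even_card_of_sq [DecidableEq F] {ι : Type*} (Z : Finset ι) (f : ι → F) {p q : F[X]}
    (hq : q ≠ 0) (h : p ^ 2 = q ^ 2 * ∏ β ∈ Z, (X - C (f β))) (α : F) :
    Even (Z.filter fun β => f β = α).card := by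
  have hprod : (∏ β ∈ Z, (X - C (f β))) ≠ 0 := by
    rw [Finset.prod_ne_zero_iff]
    intro β _
    exact X_sub_C_ne_zero _
  have h1 := congrArg (fun P : F[X] => P.roots.count α) h
  rw [roots_pow, roots_mul (mul_ne_zero (pow_ne_zero 2 hq) hprod), roots_pow, Multiset.count_nsmul,
    Multiset.count_add, Multiset.count_nsmul] at h1
  have h2 : (∏ β ∈ Z, (X - C (f β))).roots = Z.val.map f := by
    have : (∏ β ∈ Z, (X - C (f β))) = ((Z.val.map f).map fun a => X - C a).prod := by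
      rw [Multiset.map_map]; rfl
    rw [this, roots_multiset_prod_X_sub_C]
  have h3 : (Z.val.map f).count α = (Z.filter fun β => f β = α).card := by
    rw [Multiset.count_map, Finset.card_def, Finset.filter_val]
    congr 1
    apply Multiset.filter_congr
    intro x _
    exact eq_comm
  rw [h2, h3] at h1
  rw [Nat.even_iff]
  omega

/-- If a product of two products of distinct linear factors is a square, the two sets agree. -/
lemma eq_of_sq [DecidableEq F] (Z Z' : Finset F) {p q : F[X]} (hq : q ≠ 0)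
    (h : p ^ 2 = q ^ 2 * ((∏ β ∈ Z, (X - C β)) * ∏ β ∈ Z', (X - C β))) : Z = Z' := by
  have h' : p ^ 2 = q ^ 2 * ∏ x ∈ Z.disjSum Z', (X - C (Sum.elim id id x)) := by
    rw [h, Finset.prod_disjSum]
    simp
  ext α
  have := even_card_of_sq (Z.disjSum Z') (Sum.elim id id) hq h' α
  have h2 : ((Z.disjSum Z').filter fun x => Sum.elim id id x = α).card =
      (if α ∈ Z then 1 else 0) + (if α ∈ Z' then 1 else 0) := by
    have e : ∀ s : Finset F, (∑ x ∈ s, if x = α then 1 else 0) = (if α ∈ s then 1 else 0 : ℕ) :=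
      fun s => Finset.sum_ite_eq' s α _
    rw [Finset.card_filter, Finset.sum_disjSum]
    exact congrArg₂ (· + ·) (e Z) (e Z')
  rw [h2] at this
  by_cases h3 : α ∈ Z <;> by_cases h4 : α ∈ Z' <;> simp [h3, h4] at this ⊢

end Pool.Agent.Lib.MP_89bcae_ag

end

section

/-!
# Two-descent for the twists `D(t) y² = g(x) - t`
-/

open Polynomial WeierstrassCurve WeierstrassCurve.Affine

open scoped Classical

namespace Pool.Agent.Lib.MP_89bcae_ag

set_option linter.unusedSectionVars false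

/-- Over the field `A`, the curve `W` is `D(t) y² = g(x) - t` in Weierstrass form. -/
structure IsTwist {R F : Type*} [CommRing R] [Field F] (A : Type*) [Field A] [Algebra R A]
    [Algebra F[X] A] (W : Affine R) (g D : F[X]) : Prop where
  a₁ : algebraMap R A W.a₁ = 0
  a₂ : algebraMap R A W.a₂ = algebraMap F[X] A (C (g.coeff 2) * D)
  a₃ : algebraMap R A W.a₃ = 0
  a₄ : algebraMap R A W.a₄ = algebraMap F[X] A (C (g.coeff 1) * D ^ 2)
  a₆ : algebraMap R A W.a₆ = algebraMap F[X] A ((C (g.coeff 0) - X) * D ^ 3)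

section Twist

variable {R F : Type*} [CommRing R] [Field F] {A B : Type*} [Field A] [Algebra R A]
    [Algebra F[X] A] [Field B] [Algebra R B] [Algebra F[X] B] {W : Affine R} {g D : F[X]}

lemma IsTwist.short (h : IsTwist A W g D) : Short (W.baseChange A) :=
  ⟨h.a₁, h.a₃⟩

lemma ev_cubic (hg : g.Monic) (hdeg : g.natDegree = 3) (x : A) :
    ev F A x g = x ^ 3 + algebraMap F[X] A (C (g.coeff 2)) * x ^ 2 +
      algebraMap F[X] A (C (g.coeff 1)) * x + algebraMap F[X] A (C (g.coeff 0)) := by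
  unfold ev
  have h3 : g.coeff 3 = 1 := by rw [← hdeg]; exact hg.coeff_natDegree
  rw [coe_eval₂RingHom, eval₂_eq_sum_range, hdeg, Finset.sum_range_succ, Finset.sum_range_succ,
    Finset.sum_range_succ, Finset.sum_range_one, h3]
  simp only [RingHom.comp_apply, map_one, pow_zero, mul_one, pow_one, one_mul]
  ring

lemma eq_cubic (hg : g.Monic) (hdeg : g.natDegree = 3) :
    g = X ^ 3 + C (g.coeff 2) * X ^ 2 + C (g.coeff 1) * X + C (g.coeff 0) := by
  have h3 : g.coeff 3 = 1 := by rw [← hdeg]; exact hg.coeff_natDegree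
  conv_lhs => rw [g.as_sum_range_C_mul_X_pow, hdeg, Finset.sum_range_succ, Finset.sum_range_succ,
    Finset.sum_range_succ, Finset.sum_range_one, h3]
  simp only [map_one, pow_zero, mul_one, pow_one, one_mul]
  ring

lemma ev_derivative_cubic (hg : g.Monic) (hdeg : g.natDegree = 3) (x : A) :
    ev F A x (derivative g) = 3 * x ^ 2 + 2 * algebraMap F[X] A (C (g.coeff 2)) * x +
      algebraMap F[X] A (C (g.coeff 1)) := by
  have h1 : derivative g = C 3 * X ^ 2 + C 2 * C (g.coeff 2) * X + C (g.coeff 1) := by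
    conv_lhs => rw [eq_cubic hg hdeg]
    simp only [derivative_add, derivative_mul, derivative_X_pow, derivative_C, derivative_X]
    simp only [Nat.cast_ofNat, map_ofNat]
    ring
  have h3 : (C (3 : F) : F[X]) = 3 := map_ofNat C 3
  have h2 : (C (2 : F) : F[X]) = 2 := map_ofNat C 2
  rw [h1, h2, h3]
  simp only [map_add, map_mul, map_pow, ev_C, ev_X, map_ofNat]

lemma IsTwist.rt (h : IsTwist A W g D) (hg : g.Monic) (hdeg : g.natDegree = 3) {θ : A}
    (hθ : θ ∈ RootSet g) : Rt (W.baseChange A) (algebraMap F[X] A D * θ) := by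
  have h1 : ev F A θ g = algebraMap F[X] A X := hθ
  rw [ev_cubic hg hdeg] at h1
  change (algebraMap F[X] A D * θ) ^ 3 + algebraMap R A W.a₂ * (algebraMap F[X] A D * θ) ^ 2 +
    algebraMap R A W.a₄ * (algebraMap F[X] A D * θ) + algebraMap R A W.a₆ = 0
  rw [h.a₂, h.a₄, h.a₆]
  simp only [map_mul, map_pow, map_sub]
  linear_combination (algebraMap F[X] A D) ^ 3 * h1

end Twist

section Kummer

variable {R F L Ω : Type*} [CommRing R] [Field F] [IsAlgClosed F] [Field L] [Field Ω]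
  [Algebra F[X] L] [IsFractionRing F[X] L] [Algebra L Ω] [Algebra F[X] Ω] [IsScalarTower F[X] L Ω]
  [Algebra R L] [Algebra R Ω] [IsScalarTower R L Ω] {W : Affine R} {g D : F[X]}
  [IsGalois L Ω] [IsSepClosed Ω] [DecidableEq Ω]

/-- the descent functions of a two-torsion cocycle -/
structure IsDesc (W : Affine R) (g D : F[X]) (c : (Ω ≃ₐ[L] Ω) → (W.baseChange Ω).Point)
    (Z : Finset F) (b : Ω → Ω) : Prop where
  sq : ∀ θ ∈ RootSet (Ω := Ω) g, b θ ^ 2 = ∏ β ∈ Z, (θ - algebraMap F[X] Ω (C β))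
  act : ∀ θ ∈ RootSet (Ω := Ω) g, ∀ σ : Ω ≃ₐ[L] Ω,
    σ (b θ) = rho (algebraMap F[X] Ω D * σ θ) (c σ) * b (σ θ)

lemma map_D (σ : Ω ≃ₐ[L] Ω) (D : F[X]) : σ (algebraMap F[X] Ω D) = algebraMap F[X] Ω D := by
  rw [IsScalarTower.algebraMap_apply F[X] L Ω]
  exact σ.commutes _

variable (L) in
include L in
lemma root_sub_ne_zero {θ : Ω} (hθ : θ ∈ RootSet (Ω := Ω) g) (β : F) :
    θ - algebraMap F[X] Ω (C β) ≠ 0 := by
  intro h
  have h1 : ev F Ω θ (X - C β) = 0 := by rw [map_sub, ev_X, ev_C, h]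
  have h2 := ev_injective L hθ (h1.trans (map_zero _).symm)
  exact X_sub_C_ne_zero β h2

/-- Existence of the descent functions. -/
lemma exists_desc (h2 : (2 : Ω) ≠ 0) (hW : IsTwist Ω W g D) (hg : g.Monic)
    (hdeg : g.natDegree = 3) (hd : derivative g ≠ 0)
    (c : (Ω ≃ₐ[L] Ω) → (W.baseChange Ω).Point) (hc : ∀ σ, 2 • c σ = 0)
    (hmul : ∀ σ τ : Ω ≃ₐ[L] Ω, c (σ * τ) = c σ + Point.map (σ : Ω →ₐ[L] Ω) (c τ))
    (hloc : IsLocallyConstant c) :
    ∃ (Z : Finset F) (b : Ω → Ω), IsDesc W g D c Z b := by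
  have hshort := hW.short
  obtain ⟨θ₁, θ₂, θ₃, -, -, -, hR, -, -⟩ := exists_three_roots (F := F) L (Ω := Ω) hg hdeg hd
  have hθ₁ : θ₁ ∈ RootSet (Ω := Ω) g := (hR θ₁).mpr (Or.inl rfl)
  set d := algebraMap F[X] Ω D with hdd
  have hrt : ∀ θ ∈ RootSet (Ω := Ω) g, Rt (W.baseChange Ω) (d * θ) :=
    fun θ hθ => hW.rt hg hdeg hθ
  have hσd : ∀ σ : Ω ≃ₐ[L] Ω, σ d = d := fun σ => map_D σ D
  -- the sign functions
  obtain ⟨b, hb0, hb⟩ := exists_descent_fun (L := L) (RootSet (Ω := Ω) g)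
    (fun θ hθ σ => map_mem_rootSet σ hθ)
    (fun θ hθ θ' hθ' => rootSet_transitive hg hdeg hθ hθ') ⟨θ₁, hθ₁⟩
    (fun θ σ => rho (d * θ) (c σ))
    (fun θ _ σ => rho_two_torsion_sq hshort h2 (d * θ) (hc σ))
    (by
      intro θ hθ σ τ
      have hθ' := map_mem_rootSet σ hθ
      have h3 : 2 • Point.map (W' := W) (σ : Ω →ₐ[L] Ω) (c τ) = 0 := by
        rw [← map_nsmul, hc, map_zero]
      rw [hmul, rho_add hshort h2 (hrt _ hθ') _ _ h3]
      congr 1
      have h4 : d * σ θ = (σ : Ω →ₐ[L] Ω) (d * θ) := by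
        simp [hσd]
      rw [h4, rho_map]
      rcases rho_two_torsion_sq hshort h2 (d * θ) (hc τ) with h | h <;> simp [h])
    (fun θ _ => hloc.comp (rho (d * θ)))
  have hsgn : ∀ (θ : Ω) σ, rho (d * θ) (c σ) * rho (d * θ) (c σ) = 1 :=
    fun θ σ => rho_two_torsion_mul_self hshort h2 _ (hc σ)
  -- the square of `b` is a rational function
  obtain ⟨p, q, hq, hpq⟩ := exists_rational_of_fixed (L := L) hθ₁ (x := b θ₁ ^ 2) (by
    intro σ hσ
    rw [map_pow, hb θ₁ hθ₁, hσ, mul_pow, pow_two (rho _ _), hsgn, one_mul])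
  have hinj : ∀ θ ∈ RootSet (Ω := Ω) g, Function.Injective (ev F Ω θ) :=
    fun θ hθ => ev_injective L hθ
  have hp : p ≠ 0 := by
    rintro rfl
    rw [map_zero, mul_eq_zero] at hpq
    rcases hpq with h | h
    · exact hb0 θ₁ hθ₁ (pow_eq_zero_iff two_ne_zero |>.mp h)
    · exact hq (hinj θ₁ hθ₁ (h.trans (map_zero _).symm))
  obtain ⟨S, Z, hS, hSZ⟩ := exists_sq_mul_prod (p * q) (mul_ne_zero hp hq)
  have hne : ∀ θ ∈ RootSet (Ω := Ω) g, ∀ r : F[X], r ≠ 0 → ev F Ω θ r ≠ 0 :=
    fun θ hθ r hr h => hr (hinj θ hθ (h.trans (map_zero _).symm))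
  refine ⟨Z, fun θ => b θ * ev F Ω θ q / ev F Ω θ S, ?_, ?_⟩
  · intro θ hθ
    obtain ⟨σ, rfl⟩ := rootSet_transitive (L := L) hg hdeg hθ₁ hθ
    have h5 : b (σ θ₁) ^ 2 * ev F Ω (σ θ₁) q = ev F Ω (σ θ₁) p := by
      have h6 := congrArg σ hpq
      rw [map_mul, map_pow, hb θ₁ hθ₁, mul_pow, pow_two (rho _ _), hsgn, one_mul, ev_map,
        ev_map] at h6
      exact h6
    have h7 : ev F Ω (σ θ₁) p * ev F Ω (σ θ₁) q =
        ev F Ω (σ θ₁) S ^ 2 * ∏ β ∈ Z, (σ θ₁ - algebraMap F[X] Ω (C β)) := by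
      rw [← map_mul, hSZ, map_mul, map_pow, map_prod]
      congr 1
      apply Finset.prod_congr rfl
      intro β _
      rw [map_sub, ev_X, ev_C]
    have h8 := hne _ hθ S hS
    rw [div_pow, div_eq_iff (pow_ne_zero 2 h8), mul_pow]
    linear_combination (ev F Ω (σ θ₁) q) * h5 + h7
  · intro θ hθ σ
    rw [map_div₀, map_mul, hb θ hθ, ev_map, ev_map]
    ring

lemma ev_const (β : F) (p : F[X]) :
    ev F Ω (algebraMap F[X] Ω (C β)) p = algebraMap F[X] Ω (C (p.eval β)) := by
  have h : (ev F Ω (algebraMap F[X] Ω (C β))) =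
      (algebraMap F[X] Ω).comp (C.comp (evalRingHom β)) := by
    apply Polynomial.ringHom_ext
    · intro b
      simp [ev_C]
    · simp [ev_X]
  rw [h]; rfl

/-- A product over the three roots is invariant under the Galois group. -/
lemma prod_roots_map {T : Finset Ω} (hT : ∀ θ, θ ∈ T ↔ θ ∈ RootSet (Ω := Ω) g)
    (σ : Ω ≃ₐ[L] Ω) (f : Ω → Ω) : ∏ θ ∈ T, f (σ θ) = ∏ θ ∈ T, f θ := by
  apply Finset.prod_nbij' (fun θ => σ θ) (fun θ => σ.symm θ)
  · intro θ hθ
    exact (hT _).mpr (map_mem_rootSet σ ((hT _).mp hθ))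
  · intro θ hθ
    exact (hT _).mpr (map_mem_rootSet σ.symm ((hT _).mp hθ))
  · intro θ _; simp
  · intro θ _; simp
  · intro θ _; rfl

variable (L) in
include L in
lemma algebraMap_ne_zero_Om {D : F[X]} (hD : D ≠ 0) : algebraMap F[X] Ω D ≠ 0 :=
  fun h => hD (algebraMap_Om_injective (F := F) L (Ω := Ω) (h.trans (map_zero _).symm))

variable (L) in
include L in
/-- The product over the roots of the three signs of a two-torsion point is `1`. -/
lemma prod_rho_roots (h2 : (2 : Ω) ≠ 0) (hW : IsTwist Ω W g D) (hg : g.Monic)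
    (hdeg : g.natDegree = 3) (hd : derivative g ≠ 0) (hD : D ≠ 0) {T : Finset Ω}
    (hT : ∀ θ, θ ∈ T ↔ θ ∈ RootSet (Ω := Ω) g) {P : (W.baseChange Ω).Point} (hP : 2 • P = 0) :
    ∏ θ ∈ T, rho (algebraMap F[X] Ω D * θ) P = 1 := by
  obtain ⟨θ₁, θ₂, θ₃, h12, h13, h23, hR, -, -⟩ :=
    exists_three_roots (F := F) L (Ω := Ω) hg hdeg hd
  have hT' : T = {θ₁, θ₂, θ₃} := by
    ext θ
    rw [hT, hR]
    simp
  have hd0 : algebraMap F[X] Ω D ≠ 0 := algebraMap_ne_zero_Om L hD
  rw [hT', Finset.prod_insert (by simp [h12, h13]), Finset.prod_insert (by simp [h23]),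
    Finset.prod_singleton, ← mul_assoc]
  apply prod_rho hW.short h2 (hW.rt hg hdeg ((hR θ₁).mpr (Or.inl rfl)))
    (hW.rt hg hdeg ((hR θ₂).mpr (Or.inr (Or.inl rfl))))
    (hW.rt hg hdeg ((hR θ₃).mpr (Or.inr (Or.inr rfl)))) _ _ _ hP
  · exact fun h => h12 (mul_left_cancel₀ hd0 h)
  · exact fun h => h13 (mul_left_cancel₀ hd0 h)
  · exact fun h => h23 (mul_left_cancel₀ hd0 h)

/-- The product of the descent functions is rational. -/
lemma IsDesc.exists_norm {c : (Ω ≃ₐ[L] Ω) → (W.baseChange Ω).Point} {Z : Finset F} {b : Ω → Ω}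
    (h : IsDesc W g D c Z b) (h2 : (2 : Ω) ≠ 0) (hW : IsTwist Ω W g D) (hg : g.Monic)
    (hdeg : g.natDegree = 3) (hd : derivative g ≠ 0) (hD : D ≠ 0) (hc : ∀ σ, 2 • c σ = 0)
    {T : Finset Ω} (hT : ∀ θ, θ ∈ T ↔ θ ∈ RootSet (Ω := Ω) g) :
    (∀ σ : Ω ≃ₐ[L] Ω, σ (∏ θ ∈ T, b θ) = ∏ θ ∈ T, b θ) ∧
      (∏ θ ∈ T, b θ) ^ 2 = algebraMap F[X] Ω (∏ β ∈ Z, (X - C (g.eval β))) := by
  constructor
  · intro σ
    rw [map_prod]
    have h1 : ∏ θ ∈ T, σ (b θ) =
        ∏ θ ∈ T, (rho (algebraMap F[X] Ω D * σ θ) (c σ) * b (σ θ)) :=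
      Finset.prod_congr rfl fun θ hθ => h.act θ ((hT θ).mp hθ) σ
    rw [h1, prod_roots_map hT σ (fun θ => rho (algebraMap F[X] Ω D * θ) (c σ) * b θ),
      Finset.prod_mul_distrib, prod_rho_roots L h2 hW hg hdeg hd hD hT (hc σ), one_mul]
  · obtain ⟨θ₁, θ₂, θ₃, h12, h13, h23, hR, heval, -⟩ :=
      exists_three_roots (F := F) L (Ω := Ω) hg hdeg hd
    have hT' : T = {θ₁, θ₂, θ₃} := by
      ext θ
      rw [hT, hR]
      simp
    rw [← Finset.prod_pow, Finset.prod_congr rfl fun θ hθ => h.sq θ ((hT θ).mp hθ),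
      Finset.prod_comm, map_prod]
    apply Finset.prod_congr rfl
    intro β _
    have h3 := heval (algebraMap F[X] Ω (C β))
    rw [ev_const] at h3
    rw [hT', Finset.prod_insert (by simp [h12, h13]), Finset.prod_insert (by simp [h23]),
      Finset.prod_singleton, map_sub]
    linear_combination h3

/-- The fibres of `g` meet `Z` in sets of even size. -/
lemma IsDesc.even {c : (Ω ≃ₐ[L] Ω) → (W.baseChange Ω).Point} {Z : Finset F} {b : Ω → Ω}
    (h : IsDesc W g D c Z b) (h2 : (2 : Ω) ≠ 0) (hW : IsTwist Ω W g D) (hg : g.Monic)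
    (hdeg : g.natDegree = 3) (hd : derivative g ≠ 0) (hD : D ≠ 0) (hc : ∀ σ, 2 • c σ = 0)
    (α : F) : Even (Z.filter fun β => g.eval β = α).card := by
  obtain ⟨θ₁, θ₂, θ₃, -, -, -, hR, -, -⟩ := exists_three_roots (F := F) L (Ω := Ω) hg hdeg hd
  have hT : ∀ θ, θ ∈ ({θ₁, θ₂, θ₃} : Finset Ω) ↔ θ ∈ RootSet (Ω := Ω) g := by
    intro θ
    rw [hR]
    simp
  obtain ⟨e1, e2⟩ := h.exists_norm h2 hW hg hdeg hd hD hc hT
  obtain ⟨y, hy⟩ := (InfiniteGalois.mem_range_algebraMap_iff_fixed (k := L) _).mpr e1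
  obtain ⟨p, q, hq, rfl⟩ := IsFractionRing.div_surjective (A := F[X]) y
  have hq0 : q ≠ 0 := nonZeroDivisors.ne_zero hq
  apply even_card_of_sq Z (fun β => g.eval β) hq0 (p := p)
  apply IsFractionRing.injective F[X] L
  apply (algebraMap L Ω).injective
  rw [← IsScalarTower.algebraMap_apply, ← IsScalarTower.algebraMap_apply, map_mul, ← e2, ← hy,
    map_div₀, ← IsScalarTower.algebraMap_apply, ← IsScalarTower.algebraMap_apply, map_pow, map_pow]
  have := algebraMap_ne_zero_Om (F := F) L (Ω := Ω) hq0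
  field_simp

variable (L) in
include L in
/-- A two-torsion point with prescribed signs. -/
lemma exists_point_signs (h2 : (2 : Ω) ≠ 0) (hW : IsTwist Ω W g D) (hg : g.Monic)
    (hdeg : g.natDegree = 3) (hd : derivative g ≠ 0) (hD : D ≠ 0) {T : Finset Ω}
    (hT : ∀ θ, θ ∈ T ↔ θ ∈ RootSet (Ω := Ω) g) (s : Ω → Ω) (hs : ∀ θ ∈ T, s θ = 1 ∨ s θ = -1)
    (hprod : ∏ θ ∈ T, s θ = 1) :
    ∃ P : (W.baseChange Ω).Point, 2 • P = 0 ∧
      ∀ θ ∈ T, rho (algebraMap F[X] Ω D * θ) P = s θ := by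
  obtain ⟨θ₁, θ₂, θ₃, h12, h13, h23, hR, -, -⟩ :=
    exists_three_roots (F := F) L (Ω := Ω) hg hdeg hd
  have hT' : T = {θ₁, θ₂, θ₃} := by
    ext θ
    rw [hT, hR]
    simp
  subst hT'
  have hd0 : algebraMap F[X] Ω D ≠ 0 := algebraMap_ne_zero_Om L hD
  rw [Finset.prod_insert (by simp [h12, h13]), Finset.prod_insert (by simp [h23]),
    Finset.prod_singleton, ← mul_assoc] at hprod
  obtain ⟨P, hP, r1, r2, r3⟩ := exists_two_torsion hW.short h2
    (hW.rt hg hdeg ((hR θ₁).mpr (Or.inl rfl)))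
    (hW.rt hg hdeg ((hR θ₂).mpr (Or.inr (Or.inl rfl))))
    (hW.rt hg hdeg ((hR θ₃).mpr (Or.inr (Or.inr rfl))))
    (fun h => h12 (mul_left_cancel₀ hd0 h)) (fun h => h13 (mul_left_cancel₀ hd0 h))
    (fun h => h23 (mul_left_cancel₀ hd0 h)) (s θ₁) (s θ₂) (s θ₃)
    (hs _ (by simp)) (hs _ (by simp)) (hs _ (by simp)) hprod
  refine ⟨P, hP, ?_⟩
  intro θ hθ
  simp only [Finset.mem_insert, Finset.mem_singleton] at hθ
  rcases hθ with rfl | rfl | rfl
  · exact r1
  · exact r2
  · exact r3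

variable (L) in
include L in
/-- A two-torsion point is determined by its signs. -/
lemma eq_of_signs (h2 : (2 : Ω) ≠ 0) (hW : IsTwist Ω W g D) (hg : g.Monic)
    (hdeg : g.natDegree = 3) (hd : derivative g ≠ 0) (hD : D ≠ 0)
    {P Q : (W.baseChange Ω).Point} (hP : 2 • P = 0) (hQ : 2 • Q = 0)
    (h : ∀ θ ∈ RootSet (Ω := Ω) g, rho (algebraMap F[X] Ω D * θ) P =
      rho (algebraMap F[X] Ω D * θ) Q) : P = Q := by
  obtain ⟨θ₁, θ₂, θ₃, h12, h13, h23, hR, -, -⟩ :=
    exists_three_roots (F := F) L (Ω := Ω) hg hdeg hd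
  have hd0 : algebraMap F[X] Ω D ≠ 0 := algebraMap_ne_zero_Om L hD
  have h1 : θ₁ ∈ RootSet (Ω := Ω) g := (hR θ₁).mpr (Or.inl rfl)
  have h1' : θ₂ ∈ RootSet (Ω := Ω) g := (hR θ₂).mpr (Or.inr (Or.inl rfl))
  have hQ' : 2 • (-Q) = 0 := by rw [smul_neg, hQ, neg_zero]
  have hnQ : -Q = Q := by
    have : Q + Q = 0 := by rw [← two_nsmul]; exact hQ
    exact neg_eq_of_add_eq_zero_left this
  have h3 : P - Q = 0 := by
    apply eq_zero_of_rho_eq_one hW.short h2 (e₁ := algebraMap F[X] Ω D * θ₁)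
      (e₂ := algebraMap F[X] Ω D * θ₂) (fun h => h12 (mul_left_cancel₀ hd0 h))
    · rw [smul_sub, hP, hQ, sub_zero]
    · rw [sub_eq_add_neg, rho_add hW.short h2 (hW.rt hg hdeg h1) _ _ hQ', hnQ, h _ h1]
      exact rho_two_torsion_mul_self hW.short h2 _ hQ
    · rw [sub_eq_add_neg, rho_add hW.short h2 (hW.rt hg hdeg h1') _ _ hQ', hnQ, h _ h1']
      exact rho_two_torsion_mul_self hW.short h2 _ hQ
  exact sub_eq_zero.mp h3

/-- The signs of the image of a two-torsion point under an automorphism. -/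
lemma rho_map_two_torsion (h2 : (2 : Ω) ≠ 0) (hW : IsTwist Ω W g D)
    (σ : Ω ≃ₐ[L] Ω) (θ : Ω) {P : (W.baseChange Ω).Point} (hP : 2 • P = 0) :
    rho (algebraMap F[X] Ω D * σ θ) (Point.map (W' := W) (σ : Ω →ₐ[L] Ω) P) =
      rho (algebraMap F[X] Ω D * θ) P := by
  have h4 : algebraMap F[X] Ω D * σ θ = (σ : Ω →ₐ[L] Ω) (algebraMap F[X] Ω D * θ) := by
    simp [map_D]
  rw [h4, rho_map]
  rcases rho_two_torsion_sq hW.short h2 (algebraMap F[X] Ω D * θ) hP with h | h <;> simp [h]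

/-- If `Z` is empty, the cocycle is a coboundary. -/
lemma IsDesc.coboundary {c : (Ω ≃ₐ[L] Ω) → (W.baseChange Ω).Point} {b : Ω → Ω}
    (h : IsDesc W g D c (∅ : Finset F) b) (h2 : (2 : Ω) ≠ 0) (hW : IsTwist Ω W g D) (hg : g.Monic)
    (hdeg : g.natDegree = 3) (hd : derivative g ≠ 0) (hD : D ≠ 0) (hc : ∀ σ, 2 • c σ = 0) :
    ∃ P : (W.baseChange Ω).Point, 2 • P = 0 ∧
      ∀ σ : Ω ≃ₐ[L] Ω, c σ = Point.map (σ : Ω →ₐ[L] Ω) P - P := by
  obtain ⟨θ₁, θ₂, θ₃, h12, h13, h23, hR, -, -⟩ :=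
    exists_three_roots (F := F) L (Ω := Ω) hg hdeg hd
  have hT : ∀ θ, θ ∈ ({θ₁, θ₂, θ₃} : Finset Ω) ↔ θ ∈ RootSet (Ω := Ω) g := by
    intro θ
    rw [hR]
    simp
  have hb : ∀ θ ∈ RootSet (Ω := Ω) g, b θ = 1 ∨ b θ = -1 := by
    intro θ hθ
    have := h.sq θ hθ
    rw [Finset.prod_empty] at this
    exact mul_self_eq_one_iff.mp (by rw [← pow_two]; exact this)
  set ε := ∏ θ ∈ ({θ₁, θ₂, θ₃} : Finset Ω), b θ with hε
  have hε' : ε = b θ₁ * b θ₂ * b θ₃ := by
    rw [hε, Finset.prod_insert (by simp [h12, h13]), Finset.prod_insert (by simp [h23]),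
      Finset.prod_singleton, ← mul_assoc]
  have hm1 : θ₁ ∈ RootSet (Ω := Ω) g := (hR θ₁).mpr (Or.inl rfl)
  have hm2 : θ₂ ∈ RootSet (Ω := Ω) g := (hR θ₂).mpr (Or.inr (Or.inl rfl))
  have hm3 : θ₃ ∈ RootSet (Ω := Ω) g := (hR θ₃).mpr (Or.inr (Or.inr rfl))
  have hεs : ε = 1 ∨ ε = -1 := by
    rw [hε']
    rcases hb _ hm1 with e1 | e1 <;> rcases hb _ hm2 with e2 | e2 <;>
      rcases hb _ hm3 with e3 | e3 <;> simp [e1, e2, e3]
  obtain ⟨P, hP, hPs⟩ := exists_point_signs L h2 hW hg hdeg hd hD hT (fun θ => ε * b θ)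
    (by
      intro θ hθ
      rcases hεs with e1 | e1 <;> rcases hb _ ((hT θ).mp hθ) with e2 | e2 <;> simp [e1, e2])
    (by
      rw [Finset.prod_mul_distrib, ← hε, Finset.prod_const,
        Finset.card_insert_of_notMem (by simp [h12, h13]),
        Finset.card_insert_of_notMem (by simp [h23]), Finset.card_singleton]
      rcases hεs with e1 | e1 <;> rw [e1] <;> norm_num)
  refine ⟨P, hP, fun σ => ?_⟩
  have hσP : 2 • Point.map (W' := W) (σ : Ω →ₐ[L] Ω) P = 0 := by
    rw [← map_nsmul, hP, map_zero]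
  have hnP : -P = P := by
    have : P + P = 0 := by rw [← two_nsmul]; exact hP
    exact neg_eq_of_add_eq_zero_left this
  apply eq_of_signs L h2 hW hg hdeg hd hD (hc σ) (by rw [smul_sub, hσP, hP, sub_zero])
  intro θ' hθ'
  obtain ⟨θ, rfl⟩ : ∃ θ, σ θ = θ' := ⟨σ.symm θ', σ.apply_symm_apply θ'⟩
  have hθ : θ ∈ RootSet (Ω := Ω) g := by
    have := map_mem_rootSet σ.symm hθ'
    rwa [σ.symm_apply_apply] at this
  rw [sub_eq_add_neg, rho_add hW.short h2 (hW.rt hg hdeg hθ') _ _ (by rw [hnP]; exact hP), hnP,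
    rho_map_two_torsion h2 hW σ θ hP, hPs θ ((hT θ).mpr hθ), hPs (σ θ) ((hT _).mpr hθ')]
  have h5 := h.act θ hθ σ
  have h6 : σ (b θ) = b θ := by
    rcases hb _ hθ with e | e <;> simp [e]
  rw [h6] at h5
  rw [h5]
  have h7 : b (σ θ) * b (σ θ) = 1 := by
    rcases hb _ hθ' with e | e <;> simp [e]
  have h8 : ε * ε = 1 := by
    rcases hεs with e | e <;> simp [e]
  linear_combination (-(rho (algebraMap F[X] Ω D * σ θ) (c σ)) * b (σ θ) * b (σ θ)) * h8 -
    (rho (algebraMap F[X] Ω D * σ θ) (c σ)) * h7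

end Kummer

end Pool.Agent.Lib.MP_89bcae_ag

end

section

/-!
# Families of polynomials with integral coefficients: the conditions at the primes
-/

open Polynomial

open scoped Classical

namespace Pool.Agent.Lib.MP_89bcae_ag

open Superelliptic

universe u

section

variable {ι : Type} {n : ℕ}

/-- The polynomials of degree at most `n` with coefficients `v`. -/
noncomputable def gpol {R : Type*} [CommRing R] (v : ι × Fin (n + 1) → R) (i : ι) : R[X] :=
  ∑ j : Fin (n + 1), C (v (i, j)) * X ^ (j : ℕ)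

/-- The difference of two of the polynomials. -/
noncomputable def gdif {R : Type*} [CommRing R] (v : ι × Fin (n + 1) → R) (a b : ι) : R[X] :=
  gpol v a - gpol v b

lemma gpol_map {R S : Type*} [CommRing R] [CommRing S] (φ : R →+* S) (v : ι × Fin (n + 1) → R)
    (i : ι) : (gpol v i).map φ = gpol (fun x => φ (v x)) i := by
  unfold gpol
  rw [Polynomial.map_sum]
  refine Finset.sum_congr rfl fun j _ => ?_
  rw [Polynomial.map_mul, map_C, Polynomial.map_pow, map_X]

lemma gdif_map {R S : Type*} [CommRing R] [CommRing S] (φ : R →+* S) (v : ι × Fin (n + 1) → R)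
    (a b : ι) : (gdif v a b).map φ = gdif (fun x => φ (v x)) a b := by
  unfold gdif
  rw [Polynomial.map_sub, gpol_map, gpol_map]

lemma gpol_coeff {R : Type*} [CommRing R] (v : ι × Fin (n + 1) → R) (i : ι) (j : Fin (n + 1)) :
    (gpol v i).coeff j = v (i, j) := by
  unfold gpol
  rw [finset_sum_coeff, Finset.sum_eq_single j]
  · rw [coeff_C_mul_X_pow, if_pos rfl]
  · intro k _ hk
    rw [coeff_C_mul_X_pow, if_neg]
    intro h
    exact hk (Fin.ext h.symm)
  · intro h
    exact absurd (Finset.mem_univ j) h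

lemma gpol_natDegree_le {R : Type*} [CommRing R] (v : ι × Fin (n + 1) → R) (i : ι) :
    (gpol v i).natDegree ≤ n := by
  unfold gpol
  refine natDegree_sum_le_of_forall_le _ _ fun j _ => ?_
  exact (natDegree_C_mul_X_pow_le _ _).trans (by omega)

lemma gdif_natDegree_le {R : Type*} [CommRing R] (v : ι × Fin (n + 1) → R) (a b : ι) :
    (gdif v a b).natDegree ≤ n :=
  (natDegree_sub_le _ _).trans (max_le (gpol_natDegree_le v a) (gpol_natDegree_le v b))

lemma gdif_coeff {R : Type*} [CommRing R] (v : ι × Fin (n + 1) → R) (a b : ι) (j : Fin (n + 1)) :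
    (gdif v a b).coeff j = v (a, j) - v (b, j) := by
  unfold gdif
  rw [coeff_sub, gpol_coeff, gpol_coeff]

lemma gdif_add {R : Type*} [CommRing R] (v : ι × Fin (n + 1) → R) (a b c : ι) :
    gdif v a b + gdif v b c = gdif v a c := by
  unfold gdif
  ring

lemma gdif_swap {R : Type*} [CommRing R] (v : ι × Fin (n + 1) → R) (a b : ι) :
    gdif v b a = -gdif v a b := by
  unfold gdif
  ring

/-- The polynomials with rational coefficients. -/
noncomputable def gpolQ (v : ι × Fin (n + 1) → ℤ) (i : ι) : ℚ[X] :=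
  gpol (fun x => (v x : ℚ)) i

/-- The difference modulo `p`. -/
noncomputable def gred (p : ℕ) (v : ι × Fin (n + 1) → ℤ) (a b : ι) : (ZMod p)[X] :=
  (gdif v a b).map (Int.castRingHom (ZMod p))

/-- The leading coefficients of the differences are prime to `p`. -/
def LeadG (p : ℕ) (v : ι × Fin (n + 1) → ℤ) : Prop :=
  ∀ a b, a ≠ b → ¬ (p : ℤ) ∣ v (a, Fin.last n) - v (b, Fin.last n)

/-- `α_a - α_b` is irreducible modulo `p`. -/
structure TypeI (p : ℕ) (a b : ι) (v : ι × Fin (n + 1) → ℤ) : Prop where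
  lead : ¬ (p : ℤ) ∣ v (a, Fin.last n) - v (b, Fin.last n)
  irr : Irreducible (gred p v a b)

/-- `α_a - α_b` is modulo `p` the product of a linear and of an irreducible factor. -/
structure TypeL (p : ℕ) (a b : ι) (v : ι × Fin (n + 1) → ℤ) : Prop where
  lead : ¬ (p : ℤ) ∣ v (a, Fin.last n) - v (b, Fin.last n)
  irr : ∃ (z : ZMod p) (g : (ZMod p)[X]), Irreducible g ∧ g.eval z ≠ 0 ∧
    gred p v a b = (X - C z) * g

/-- Exactly one simple triple collision modulo `p`: the graphs of `α_i`, `α_j`, `α_l`. -/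
structure TypeB (p : ℕ) (i j l : ι) (v : ι × Fin (n + 1) → ℤ) : Prop where
  lead : LeadG p v
  sep : ∀ a b, a ≠ b → (gred p v a b).Separable
  cop : ∀ a b c d, a ≠ b → c ≠ d → ({a, b} : Set ι) ≠ {c, d} →
    ¬ ({a, b, c, d} : Set ι) ⊆ {i, j, l} → IsCoprime (gred p v a b) (gred p v c d)
  col : ∃ z : ℤ, (p : ℤ) ^ 2 ∣ (gdif v i j).eval z ∧ (p : ℤ) ∣ (gdif v j l).eval z ∧
    ¬ (p : ℤ) ^ 2 ∣ (gdif v j l).eval z ∧ ∃ g h : (ZMod p)[X],
      gred p v i j = (X - C (z : ZMod p)) * g ∧ gred p v j l = (X - C (z : ZMod p)) * h ∧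
        IsCoprime g h

/-- Exactly one double root modulo `p`: a root of `α_a - α_b`. -/
structure TypeD (p : ℕ) (a b : ι) (v : ι × Fin (n + 1) → ℤ) : Prop where
  lead : LeadG p v
  sep : ∀ c d, c ≠ d → ({c, d} : Set ι) ≠ {a, b} → (gred p v c d).Separable
  cop : ∀ a' b' c d, a' ≠ b' → c ≠ d → ({a', b'} : Set ι) ≠ {c, d} →
    IsCoprime (gred p v a' b') (gred p v c d)
  dbl : ∃ z : ℤ, (p : ℤ) ∣ (gdif v a b).eval z ∧ ¬ (p : ℤ) ^ 2 ∣ (gdif v a b).eval z ∧
    ∃ g : (ZMod p)[X], gred p v a b = (X - C (z : ZMod p)) ^ 2 * g ∧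
      g.eval (z : ZMod p) ≠ 0 ∧ g.Separable

/-- The arithmetic condition on the family. -/
structure GoodG (v : ι × Fin (n + 1) → ℤ) : Prop where
  typeI : ∀ a b, a ≠ b → ∃ p : ℕ, p.Prime ∧ TypeI p a b v
  typeL : ∀ a b, a ≠ b → ∃ p : ℕ, p.Prime ∧ TypeL p a b v
  typeD : ∀ a b, a ≠ b → ∃ p : ℕ, p.Prime ∧ TypeD p a b v
  typeB : ∀ i j l, i ≠ j → j ≠ l → i ≠ l → ∃ p : ℕ, p.Prime ∧ TypeB p i j l v

end

section Val

variable {F : Type u} [Field F]

/-- A homomorphism from the multiplicative group of a subfield to `A`, trivial at `-1`. -/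
structure IsVal {A : Type*} [AddCommGroup A] (K : Subfield F) (ν : F → A) : Prop where
  mul : ∀ x ∈ K, ∀ y ∈ K, x ≠ 0 → y ≠ 0 → ν (x * y) = ν x + ν y
  neg_one : ν (-1) = 0

/-- The values of the homomorphism `ν` at the nodes of the arrangement `α`: it is `h` at the
differences of the elements of the collision `r`, `r'`, `r''` (of the graphs of the `α_i`, `α_j`,
`α_l`), and `0` at the other ones. -/
structure TripleV {A : Type*} [AddCommGroup A] {k : Type u} [Field k] [Algebra k F] {ι : Type}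
    (ν : F → A) (α : ι → k[X]) (h : A) (i j l : ι) (r r' r'' : F) : Prop where
  dif : ∀ s ∈ nodes k F α, ∀ s' ∈ nodes k F α, s ≠ s' →
    ν (s - s') = if s ∈ ({r, r', r''} : Set F) ∧ s' ∈ ({r, r', r''} : Set F) then h else 0
  der : ∀ a b s, a ≠ b → aeval s (α a) = aeval s (α b) →
    ν (aeval s (derivative (α a - α b))) = 0
  val : ∀ a b c s, a ≠ b → aeval s (α a) = aeval s (α b) → c ≠ a → c ≠ b →
    ν (aeval s (α a) - aeval s (α c)) =
      if s ∈ ({r, r', r''} : Set F) ∧ c ∈ ({i, j, l} : Set ι) then h else 0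

end Val

end Pool.Agent.Lib.MP_89bcae_ag

end

section

/-!
# The value of the product in the arithmetic condition

`ν` is a homomorphism from `Kˣ` to `ZMod ℓ` with `ν(-1) = 0`, `K = k(nodes)`. All factors of the
product lie in `K` and are not zero; `ν (w ^ ℓ) = ℓ ν(w) = 0`; `ν (x ^ z) = z ν(x)` for `z ∈ ℤ`. The
set of the nodes is finite (the `α_i - α_j` are not zero), so that the `finprod` is a `Finset.prod`
(see LIndX14.lean, LIndD14.lean and `Sup/Lns` for the case of lines).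
-/

open Polynomial

open scoped Classical

namespace Pool.Agent.Lib.MP_89bcae_ag

open Superelliptic

universe u

section

variable {F : Type u} [Field F] {K : Subfield F}

lemma IsVal.one {A : Type*} [AddCommGroup A] {ν : F → A} (h : IsVal K ν) : ν 1 = 0 := by
  have h1 := h.mul 1 K.one_mem 1 K.one_mem one_ne_zero one_ne_zero
  rw [one_mul] at h1
  exact left_eq_add.1 h1

lemma IsVal.neg {A : Type*} [AddCommGroup A] {ν : F → A} (h : IsVal K ν) {x : F} (hx : x ∈ K)
    (h0 : x ≠ 0) : ν (-x) = ν x := by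
  have h1 := h.mul (-1) (K.neg_mem K.one_mem) x hx (neg_ne_zero.2 one_ne_zero) h0
  rw [neg_one_mul, h.neg_one, zero_add] at h1
  exact h1

lemma IsVal.div {A : Type*} [AddCommGroup A] {ν : F → A} (h : IsVal K ν) {x y : F} (hx : x ∈ K)
    (hy : y ∈ K) (h0 : x ≠ 0) (h1 : y ≠ 0) : ν (x / y) = ν x - ν y := by
  have h2 := h.mul (x / y) (K.div_mem hx hy) y hy (div_ne_zero h0 h1) h1
  rw [div_mul_cancel₀ x h1] at h2
  rw [h2, add_sub_cancel_right]

lemma IsVal.zpow {A : Type*} [AddCommGroup A] {ν : F → A} (h : IsVal K ν) {x : F} (hx : x ∈ K)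
    (h0 : x ≠ 0) (z : ℤ) : ν (x ^ z) = z • ν x := by
  induction z using Int.induction_on with
  | zero => rw [zpow_zero, zero_smul, h.one]
  | succ n ih =>
    rw [zpow_add_one₀ h0, h.mul _ (K.zpow_mem hx _) x hx (zpow_ne_zero _ h0) h0, ih, add_smul,
      one_smul]
  | pred n ih =>
    have h2 := h.mul (x ^ (-(n : ℤ) - 1)) (K.zpow_mem hx _) x hx (zpow_ne_zero _ h0) h0
    rw [← zpow_add_one₀ h0, sub_add_cancel, ih] at h2
    rw [sub_smul, one_smul, h2, add_sub_cancel_right]

lemma IsVal.prod {A : Type*} [AddCommGroup A] {ν : F → A} (h : IsVal K ν) {κ : Type*}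
    (s : Finset κ) (f : κ → F) (hf : ∀ i ∈ s, f i ∈ K) (h0 : ∀ i ∈ s, f i ≠ 0) :
    ν (∏ i ∈ s, f i) = ∑ i ∈ s, ν (f i) := by
  induction s using Finset.induction_on with
  | empty => rw [Finset.prod_empty, Finset.sum_empty, h.one]
  | insert a s ha ih =>
    have hf' : ∀ i ∈ s, f i ∈ K := fun i hi => hf i (Finset.mem_insert_of_mem hi)
    have h0' : ∀ i ∈ s, f i ≠ 0 := fun i hi => h0 i (Finset.mem_insert_of_mem hi)
    rw [Finset.prod_insert ha, Finset.sum_insert ha,
      h.mul _ (hf a (Finset.mem_insert_self a s)) _ (prod_mem hf')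
        (h0 a (Finset.mem_insert_self a s)) (Finset.prod_ne_zero_iff.2 h0'), ih hf' h0']

end

section

variable {k F : Type u} [Field k] [Field F] [Algebra k F] {ι : Type} [Fintype ι] [LinearOrder ι]

/-- The set of the nodes is finite. -/
lemma finite_nodes (α : ι → k[X]) (hα : IsArrangement α) : (nodes k F α).Finite := by
  have h1 : nodes k F α ⊆ ⋃ x : ι × ι, (α x.1 - α x.2).rootSet F := by
    rintro s ⟨i, j, hij, hs⟩
    rw [Set.mem_iUnion]
    refine ⟨(i, j), ?_⟩
    rw [mem_rootSet]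
    refine ⟨fun h0 => ?_, ?_⟩
    · apply hα.natDegree_ne_zero i j hij
      rw [h0, natDegree_zero]
    · rw [map_sub, hs, sub_self]
  exact (Set.finite_iUnion fun x => rootSet_finite _ _).subset h1

/-- ordered pairs -/
lemma nodes_pair_h12 (α : ι → k[X]) (hα : IsArrangement α) {a b c d : ι} {s : F} (hab : a < b)
    (hcd : c < d) (h : aeval s (α a) = aeval s (α b)) (h' : aeval s (α c) = aeval s (α d)) :
    a = c ∧ b = d := by
  by_contra hne
  have hsep := hα.separable
  rw [Finset.prod_sigma'] at hsep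
  have hm1 : (⟨a, b⟩ : (_ : ι) × ι) ∈
      (Finset.univ : Finset ι).sigma fun i => Finset.univ.filter fun j => i < j := by
    rw [Finset.mem_sigma]
    exact ⟨Finset.mem_univ _, Finset.mem_filter.2 ⟨Finset.mem_univ _, hab⟩⟩
  have hm2 : (⟨c, d⟩ : (_ : ι) × ι) ∈
      ((Finset.univ : Finset ι).sigma fun i => Finset.univ.filter fun j => i < j).erase
        ⟨a, b⟩ := by
    rw [Finset.mem_erase, Finset.mem_sigma]
    refine ⟨fun he => ?_, Finset.mem_univ _, Finset.mem_filter.2 ⟨Finset.mem_univ _, hcd⟩⟩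
    rw [Sigma.mk.injEq] at he
    exact hne ⟨he.1.symm, (eq_of_heq he.2).symm⟩
  rw [← Finset.mul_prod_erase _ _ hm1] at hsep
  have hco := hsep.isCoprime.of_isCoprime_of_dvd_right (Finset.dvd_prod_of_mem _ hm2)
  obtain ⟨u, v, huv⟩ := hco
  have h1 := congrArg (aeval s) huv
  simp only [map_add, map_mul, map_sub, map_one] at h1
  rw [h, h', sub_self, sub_self, mul_zero, mul_zero, add_zero] at h1
  exact zero_ne_one h1

/-- A node lies on exactly two of the graphs. -/
lemma nodes_pair (α : ι → k[X]) (hα : IsArrangement α) {a b c d : ι} {s : F} (hab : a ≠ b)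
    (hcd : c ≠ d) (h : aeval s (α a) = aeval s (α b)) (h' : aeval s (α c) = aeval s (α d)) :
    ({a, b} : Set ι) = {c, d} := by
  rcases lt_or_gt_of_ne hab with h1 | h1
  · rcases lt_or_gt_of_ne hcd with h2 | h2
    · obtain ⟨rfl, rfl⟩ := nodes_pair_h12 α hα h1 h2 h h'
      rfl
    · obtain ⟨rfl, rfl⟩ := nodes_pair_h12 α hα h1 h2 h h'.symm
      exact Set.pair_comm _ _
  · rcases lt_or_gt_of_ne hcd with h2 | h2
    · obtain ⟨rfl, rfl⟩ := nodes_pair_h12 α hα h1 h2 h.symm h'
      exact Set.pair_comm _ _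
    · obtain ⟨rfl, rfl⟩ := nodes_pair_h12 α hα h1 h2 h.symm h'.symm
      rfl

omit [Fintype ι] [LinearOrder ι] in
lemma aeval_mem_h92 (α : ι → k[X]) {s : F} (hs : s ∈ nodes k F α) (p : k[X]) :
    aeval s p ∈ (IntermediateField.adjoin k (nodes k F α)).toSubfield := by
  have h1 : aeval s p ∈ Algebra.adjoin k ({s} : Set F) := aeval_mem_adjoin_singleton k s
  have h2 : Algebra.adjoin k ({s} : Set F) ≤
      (IntermediateField.adjoin k (nodes k F α)).toSubalgebra := by
    refine Algebra.adjoin_le ?_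
    rintro x rfl
    exact IntermediateField.subset_adjoin k _ hs
  exact h2 h1

lemma derivative_ne_zero_h92 (α : ι → k[X]) (hα : IsArrangement α) {i j : ι} {s : F} (hij : i ≠ j)
    (hs : aeval s (α i) = aeval s (α j)) : aeval s (derivative (α i - α j)) ≠ 0 := by
  have key : ∀ a b : ι, a < b → aeval s (α a) = aeval s (α b) →
      aeval s (derivative (α a - α b)) ≠ 0 := by
    intro a b hab h
    have hsep : (α a - α b).Separable := by
      refine hα.separable.of_dvd ?_
      refine dvd_trans ?_ (Finset.dvd_prod_of_mem _ (Finset.mem_univ a))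
      exact Finset.dvd_prod_of_mem (fun j => α a - α j) (by simp [hab])
    exact hsep.aeval_derivative_ne_zero (by rw [map_sub, h, sub_self])
  rcases lt_or_gt_of_ne hij with h | h
  · exact key i j h hs
  · have h1 := key j i h hs.symm
    intro h2
    apply h1
    have h3 : derivative (α j - α i) = -derivative (α i - α j) := by
      rw [← derivative_neg, neg_sub]
    rw [h3, map_neg, h2, neg_zero]

/-- The relation given by the homomorphism `ν` at the node `s`. -/
theorem val_eqn {ℓ : ℕ} [Fact ℓ.Prime] (α : ι → k[X]) (hα : IsArrangement α) (W : ι → ℕ)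
    (ν : F → ZMod ℓ) (hν : IsVal (IntermediateField.adjoin k (nodes k F α)).toSubfield ν)
    (e : ι → F → ℤ) (κ : F) (c : ι → F) (hκ : κ ≠ 0)
    (hκK : κ ∈ IntermediateField.adjoin k (nodes k F α))
    (hc : ∀ i, c i ≠ 0 ∧ c i ∈ IntermediateField.adjoin k (nodes k F α))
    {i j : ι} {s : F} (hij : i ≠ j) (hs : aeval s (α i) = aeval s (α j))
    (hw : ∃ w ∈ IntermediateField.adjoin k (nodes k F α),
        w ^ ℓ = κ ^ e i s * (c i / c j) ^ W j *
          aeval s (derivative (α i - α j)) ^ (-((W i : ℤ) + W j) * e i s) *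
          (∏ l ∈ Finset.univ.filter fun l => l ≠ i ∧ l ≠ j,
            (aeval s (α i) - aeval s (α l)) ^ (-(W l : ℤ) * e i s)) *
          ∏ᶠ s' ∈ {s' ∈ nodes k F α | s' ≠ s}, (s - s') ^ ((W j : ℤ) * (e i s' - e j s'))) :
    (e i s : ZMod ℓ) * ν κ + W j * (ν (c i) - ν (c j)) -
      ((W i : ZMod ℓ) + W j) * e i s * ν (aeval s (derivative (α i - α j))) -
      (∑ l ∈ Finset.univ.filter fun l => l ≠ i ∧ l ≠ j,
        (W l : ZMod ℓ) * e i s * ν (aeval s (α i) - aeval s (α l))) +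
      ∑ s' ∈ (finite_nodes (F := F) α hα).toFinset.erase s,
        (W j : ZMod ℓ) * (e i s' - e j s') * ν (s - s') = 0 := by
  obtain ⟨w, hwK, hw⟩ := hw
  set K := (IntermediateField.adjoin k (nodes k F α)).toSubfield with hK
  have hsn : s ∈ nodes k F α := ⟨i, j, hij, hs⟩
  have hsK : s ∈ K := by
    have := aeval_mem_h92 α hsn (X : k[X])
    rwa [aeval_X] at this
  have hnK : ∀ s' ∈ nodes k F α, s' ∈ K := by
    intro s' hs'
    have := aeval_mem_h92 α hs' (X : k[X])
    rwa [aeval_X] at this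
  have hder : aeval s (derivative (α i - α j)) ≠ 0 := derivative_ne_zero_h92 α hα hij hs
  have hderK : aeval s (derivative (α i - α j)) ∈ K := aeval_mem_h92 α hsn _
  have hval : ∀ l, l ≠ i → l ≠ j → aeval s (α i) - aeval s (α l) ≠ 0 := by
    intro l hli hlj h
    have h1 := nodes_pair α hα hij (Ne.symm hli) hs (sub_eq_zero.mp h)
    have h2 : l ∈ ({i, j} : Set ι) := by rw [h1]; simp
    rcases h2 with h2 | h2
    · exact hli h2
    · exact hlj h2
  have hvalK : ∀ l, aeval s (α i) - aeval s (α l) ∈ K := fun l =>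
    sub_mem (aeval_mem_h92 α hsn _) (aeval_mem_h92 α hsn _)
  have hset : {s' ∈ nodes k F α | s' ≠ s} =
      (((finite_nodes (F := F) α hα).toFinset.erase s : Finset F) : Set F) := by
    ext x
    simp [and_comm]
  rw [hset, finprod_mem_coe_finset] at hw
  set N := (finite_nodes (F := F) α hα).toFinset.erase s with hN
  have hNmem : ∀ s' ∈ N, s' ∈ nodes k F α ∧ s' ≠ s := by
    intro s' hs'
    rw [hN, Finset.mem_erase] at hs'
    exact ⟨(Set.Finite.mem_toFinset _).1 hs'.2, hs'.1⟩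
  -- the five factors
  have f1 : κ ^ e i s ≠ 0 := zpow_ne_zero _ hκ
  have f1K : κ ^ e i s ∈ K := zpow_mem hκK _
  have f2b : c i / c j ≠ 0 := div_ne_zero (hc i).1 (hc j).1
  have f2bK : c i / c j ∈ K := div_mem (hc i).2 (hc j).2
  have f2 : (c i / c j) ^ W j ≠ 0 := pow_ne_zero _ f2b
  have f2K : (c i / c j) ^ W j ∈ K := pow_mem f2bK _
  have f3 : aeval s (derivative (α i - α j)) ^ (-((W i : ℤ) + W j) * e i s) ≠ 0 :=
    zpow_ne_zero _ hder
  have f3K : aeval s (derivative (α i - α j)) ^ (-((W i : ℤ) + W j) * e i s) ∈ K :=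
    zpow_mem hderK _
  have g4 : ∀ l ∈ Finset.univ.filter fun l => l ≠ i ∧ l ≠ j,
      (aeval s (α i) - aeval s (α l)) ^ (-(W l : ℤ) * e i s) ≠ 0 := by
    intro l hl
    rw [Finset.mem_filter] at hl
    exact zpow_ne_zero _ (hval l hl.2.1 hl.2.2)
  have g4K : ∀ l ∈ Finset.univ.filter fun l => l ≠ i ∧ l ≠ j,
      (aeval s (α i) - aeval s (α l)) ^ (-(W l : ℤ) * e i s) ∈ K :=
    fun l _ => zpow_mem (hvalK l) _
  have f4 := Finset.prod_ne_zero_iff.2 g4
  have f4K := prod_mem g4K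
  have g5 : ∀ s' ∈ N, (s - s') ^ ((W j : ℤ) * (e i s' - e j s')) ≠ 0 := by
    intro s' hs'
    exact zpow_ne_zero _ (sub_ne_zero.2 (Ne.symm (hNmem s' hs').2))
  have g5K : ∀ s' ∈ N, (s - s') ^ ((W j : ℤ) * (e i s' - e j s')) ∈ K := by
    intro s' hs'
    exact zpow_mem (sub_mem hsK (hnK s' (hNmem s' hs').1)) _
  have f5 := Finset.prod_ne_zero_iff.2 g5
  have f5K := prod_mem g5K
  have m2 := mul_ne_zero f1 f2
  have m2K := mul_mem f1K f2K
  have m3 := mul_ne_zero m2 f3
  have m3K := mul_mem m2K f3K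
  have m4 := mul_ne_zero m3 f4
  have m4K := mul_mem m3K f4K
  have m5 := mul_ne_zero m4 f5
  have hw0 : w ≠ 0 := by
    rintro rfl
    apply m5
    rw [← hw, zero_pow (Fact.out : ℓ.Prime).ne_zero]
  have hpow : ν (w ^ ℓ) = 0 := by
    have h1 := hν.zpow hwK hw0 (ℓ : ℤ)
    rw [zpow_natCast] at h1
    rw [h1]
    simp
  rw [hw, hν.mul _ m4K _ f5K m4 f5, hν.mul _ m3K _ f4K m3 f4, hν.mul _ m2K _ f3K m2 f3,
    hν.mul _ f1K _ f2K f1 f2, hν.prod _ _ g4K g4, hν.prod _ _ g5K g5, hν.zpow hκK hκ,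
    hν.zpow hderK hder] at hpow
  have h2 : ν ((c i / c j) ^ W j) = (W j : ZMod ℓ) * (ν (c i) - ν (c j)) := by
    rw [← zpow_natCast, hν.zpow f2bK f2b, hν.div (hc i).2 (hc j).2 (hc i).1 (hc j).1,
      zsmul_eq_mul]
    simp
  have h4 : ∑ l ∈ Finset.univ.filter (fun l => l ≠ i ∧ l ≠ j),
      ν ((aeval s (α i) - aeval s (α l)) ^ (-(W l : ℤ) * e i s)) =
      -∑ l ∈ Finset.univ.filter (fun l => l ≠ i ∧ l ≠ j),
        (W l : ZMod ℓ) * e i s * ν (aeval s (α i) - aeval s (α l)) := by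
    rw [← Finset.sum_neg_distrib]
    refine Finset.sum_congr rfl fun l hl => ?_
    rw [Finset.mem_filter] at hl
    rw [hν.zpow (hvalK l) (hval l hl.2.1 hl.2.2), zsmul_eq_mul]
    push_cast
    ring
  have h5 : ∑ s' ∈ N, ν ((s - s') ^ ((W j : ℤ) * (e i s' - e j s'))) =
      ∑ s' ∈ N, (W j : ZMod ℓ) * (e i s' - e j s') * ν (s - s') := by
    refine Finset.sum_congr rfl fun s' hs' => ?_
    rw [hν.zpow (sub_mem hsK (hnK s' (hNmem s' hs').1))
      (sub_ne_zero.2 (Ne.symm (hNmem s' hs').2)), zsmul_eq_mul]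
    push_cast
    ring
  rw [h2, h4, h5, zsmul_eq_mul, zsmul_eq_mul] at hpow
  push_cast at hpow
  linear_combination hpow

end

end Pool.Agent.Lib.MP_89bcae_ag

end

section

/-!
# Generic conditions on the coefficients

A condition on points `u` with coordinates in a field is generic if it is implied by the nonvanishing
of a nonzero polynomial with integral coefficients.
-/

open Polynomial

open scoped Classical

namespace Pool.Agent.Lib.MP_89bcae_ag

section

variable {κ : Type}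

/-- A condition which is implied by the nonvanishing of a nonzero polynomial with integral
coefficients. -/
def IsGeneric (C : ∀ (K : Type) [Field K], (κ → K) → Prop) : Prop :=
  ∃ Δ : MvPolynomial κ ℤ, Δ ≠ 0 ∧ ∀ (K : Type) [Field K] (u : κ → K),
    MvPolynomial.aeval u Δ ≠ 0 → C K u

theorem IsGeneric.true : IsGeneric (fun (K : Type) [Field K] (_ : κ → K) => True) :=
  ⟨1, one_ne_zero, fun _ _ _ _ => trivial⟩

theorem IsGeneric.mono {C C' : ∀ (K : Type) [Field K], (κ → K) → Prop} (h : IsGeneric C)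
    (hCC : ∀ (K : Type) [Field K] (u : κ → K), C K u → C' K u) : IsGeneric C' := by
  obtain ⟨Δ, h0, h1⟩ := h
  exact ⟨Δ, h0, fun K _ u hu => hCC K u (h1 K u hu)⟩

theorem IsGeneric.and {C C' : ∀ (K : Type) [Field K], (κ → K) → Prop} (h : IsGeneric C)
    (h' : IsGeneric C') :
    IsGeneric (fun (K : Type) [Field K] (u : κ → K) => C K u ∧ C' K u) := by
  obtain ⟨Δ, h0, h1⟩ := h
  obtain ⟨Δ', h0', h1'⟩ := h'
  refine ⟨Δ * Δ', mul_ne_zero h0 h0', fun K _ u hu => ?_⟩
  rw [map_mul] at hu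
  exact ⟨h1 K u (left_ne_zero_of_mul hu), h1' K u (right_ne_zero_of_mul hu)⟩

/-- Finite conjunctions (the product of the polynomials). -/
theorem IsGeneric.all {T : Type} [Finite T] {C : T → ∀ (K : Type) [Field K], (κ → K) → Prop}
    (h : ∀ t, IsGeneric (C t)) :
    IsGeneric (fun (K : Type) [Field K] (u : κ → K) => ∀ t, C t K u) := by
  have := Fintype.ofFinite T
  choose Δ h0 h1 using h
  refine ⟨∏ t, Δ t, Finset.prod_ne_zero_iff.mpr fun t _ => h0 t, fun K _ u hu t => ?_⟩
  refine h1 t K u fun ht => hu ?_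
  rw [map_prod]
  exact Finset.prod_eq_zero (Finset.mem_univ t) ht

/-- A polynomial which does not vanish at one point. -/
theorem isGeneric_ne (Δ : MvPolynomial κ ℤ) (h : ∃ u : κ → ℚ, MvPolynomial.aeval u Δ ≠ 0) :
    IsGeneric (fun (K : Type) [Field K] (u : κ → K) => MvPolynomial.aeval u Δ ≠ 0) := by
  obtain ⟨u, hu⟩ := h
  refine ⟨Δ, fun h0 => hu ?_, fun K _ v hv => hv⟩
  rw [h0, map_zero]

/-- The value of a polynomial with coefficients in `ℤ[κ]` at the point `u`. -/
noncomputable def spec {K : Type} [Field K] (u : κ → K) (f : (MvPolynomial κ ℤ)[X]) : K[X] :=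
  f.map (MvPolynomial.aeval (R := ℤ) u).toRingHom

theorem resultant_ne_zero_iff_h21 {K : Type} [Field K] {F G : K[X]} {m n : ℕ}
    (hF : F.natDegree ≤ m) (hG : G.natDegree ≤ n) (h : F.coeff m ≠ 0) :
    resultant F G m n ≠ 0 ↔ IsCoprime F G := by
  have hm : F.natDegree = m := le_antisymm hF (le_natDegree_of_ne_zero h)
  have hF0 : F ≠ 0 := by
    rintro rfl
    exact h (coeff_zero m)
  obtain ⟨k, rfl⟩ := Nat.exists_eq_add_of_le hG
  rw [resultant_add_right_deg _ _ _ _ _ le_rfl, mul_ne_zero_iff]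
  subst hm
  rw [Ne, Ne, resultant_eq_zero_iff]
  constructor
  · rintro ⟨_, h2⟩
    by_contra hc
    exact h2 ⟨Or.inl hF0, hc⟩
  · intro hc
    exact ⟨pow_ne_zero _ h, fun h2 => h2.2 hc⟩

/-- **Coprimality is a generic condition** if it holds at one point. `Δ` is the product of the leading
coefficient `f.coeff m` and of the resultant `Polynomial.resultant f g m n` (formal degrees `m` and
`n`); `Polynomial.resultant_map_map`, `Polynomial.resultant_eq_zero_iff` (over a field),
`Polynomial.resultant_add_right_deg` (to pass from the degree of `g_u` to `n`, the leading coefficient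
of `f_u` not being zero). If one of `f_u`, `g_u` is zero treat it separately (`m = 0`: `f_u` is a
nonzero constant). -/
theorem isGeneric_isCoprime (f g : (MvPolynomial κ ℤ)[X]) (m n : ℕ) (hf : f.natDegree ≤ m)
    (hg : g.natDegree ≤ n) (u₀ : κ → ℚ) (h1 : (spec u₀ f).coeff m ≠ 0)
    (h2 : IsCoprime (spec u₀ f) (spec u₀ g)) :
    IsGeneric (fun (K : Type) [Field K] (u : κ → K) =>
      (spec u f).coeff m ≠ 0 ∧ IsCoprime (spec u f) (spec u g)) := by
  have key : ∀ (K : Type) [Field K] (u : κ → K),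
      MvPolynomial.aeval u (f.coeff m * resultant f g m n) =
        (spec u f).coeff m * resultant (spec u f) (spec u g) m n := by
    intro K _ u
    rw [map_mul, spec, spec, resultant_map_map, coeff_map]
    rfl
  refine ⟨f.coeff m * resultant f g m n, ?_, ?_⟩
  · intro h0
    have h3 := key ℚ u₀
    rw [h0, map_zero] at h3
    refine mul_ne_zero h1 ?_ h3.symm
    exact (resultant_ne_zero_iff_h21 (natDegree_map_le.trans hf) (natDegree_map_le.trans hg) h1).2 h2
  · intro K _ u hu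
    rw [key K u] at hu
    have h3 := left_ne_zero_of_mul hu
    exact ⟨h3, (resultant_ne_zero_iff_h21 (natDegree_map_le.trans hf)
      (natDegree_map_le.trans hg) h3).1 (right_ne_zero_of_mul hu)⟩

/-- Separability is a generic condition if it holds at one point. -/
theorem isGeneric_separable (f : (MvPolynomial κ ℤ)[X]) (m : ℕ) (hf : f.natDegree ≤ m)
    (u₀ : κ → ℚ) (h1 : (spec u₀ f).coeff m ≠ 0) (h2 : (spec u₀ f).Separable) :
    IsGeneric (fun (K : Type) [Field K] (u : κ → K) =>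
      (spec u f).coeff m ≠ 0 ∧ (spec u f).Separable) := by
  have hd : ∀ (K : Type) [Field K] (u : κ → K),
      spec u (derivative f) = derivative (spec u f) := by
    intro K _ u
    rw [spec, spec, derivative_map]
  obtain ⟨Δ, hΔ, h⟩ := isGeneric_isCoprime f (derivative f) m m hf
    ((natDegree_derivative_le f).trans ((Nat.sub_le _ _).trans hf)) u₀ h1 (by
      rw [hd]
      exact h2)
  refine ⟨Δ, hΔ, fun K _ u hu => ?_⟩
  have h3 : (spec u f).coeff m ≠ 0 ∧ IsCoprime (spec u f) (spec u (derivative f)) := h K u hu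
  rw [hd] at h3
  exact h3

end

section

variable {κ : Type} [Fintype κ]

/-- **Schwartz-Zippel**, for all large primes (`Δ` is not zero modulo the primes which do not divide
one fixed nonzero coefficient; `MvPolynomial.schwartz_zippel_totalDegree` with
`S = Finset.univ`; rename `κ` to `Fin (card κ)`). -/
theorem count_zeros (Δ : MvPolynomial κ ℤ) (hΔ : Δ ≠ 0) :
    ∃ P₀ D : ℕ, ∀ p : ℕ, p.Prime → P₀ ≤ p →
      ({u : κ → ZMod p | MvPolynomial.aeval u Δ = 0}).ncard * p ≤ D * p ^ Fintype.card κ := by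
  obtain ⟨s, hs⟩ := MvPolynomial.ne_zero_iff.1 hΔ
  refine ⟨(Δ.coeff s).natAbs + 1, Δ.totalDegree, ?_⟩
  intro p hp hle
  have : Fact p.Prime := ⟨hp⟩
  set n := Fintype.card κ with hn
  let e : κ ≃ Fin n := Fintype.equivFin κ
  set g : MvPolynomial κ (ZMod p) := MvPolynomial.map (Int.castRingHom (ZMod p)) Δ with hg
  set q : MvPolynomial (Fin n) (ZMod p) := MvPolynomial.rename e g with hq
  have hg0 : g ≠ 0 := by
    rw [MvPolynomial.ne_zero_iff]
    refine ⟨s, ?_⟩
    rw [hg, MvPolynomial.coeff_map, eq_intCast, Ne, ZMod.intCast_zmod_eq_zero_iff_dvd]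
    intro hdvd
    have h1 : p ∣ (Δ.coeff s).natAbs := Int.natCast_dvd.1 hdvd
    have h2 := Nat.le_of_dvd (Int.natAbs_pos.2 hs) h1
    omega
  have hq0 : q ≠ 0 := by
    intro h
    apply hg0
    apply MvPolynomial.rename_injective e e.injective
    rw [map_zero]
    exact h
  have hdeg : q.totalDegree ≤ Δ.totalDegree := by
    refine (MvPolynomial.totalDegree_rename_le e g).trans ?_
    rw [hg]
    apply Finset.sup_mono
    exact MvPolynomial.support_map_subset _ _
  have heval : ∀ f : Fin n → ZMod p, MvPolynomial.eval f q = MvPolynomial.aeval (f ∘ e) Δ := by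
    intro f
    rw [hq, MvPolynomial.eval_rename, hg, MvPolynomial.eval_map, MvPolynomial.aeval_def,
      algebraMap_int_eq]
  have hset : {u : κ → ZMod p | MvPolynomial.aeval u Δ = 0} =
      (fun f : Fin n → ZMod p => f ∘ e) '' {f | MvPolynomial.eval f q = 0} := by
    ext u
    constructor
    · intro hu
      refine ⟨u ∘ e.symm, ?_, ?_⟩
      · show MvPolynomial.eval (u ∘ e.symm) q = 0
        rw [heval]
        have : (u ∘ e.symm) ∘ e = u := by
          ext c
          simp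
        rw [this]
        exact hu
      · ext c
        simp
    · rintro ⟨f, hf, rfl⟩
      show MvPolynomial.aeval (f ∘ e) Δ = 0
      rw [← heval]
      exact hf
  have hinj : Function.Injective (fun f : Fin n → ZMod p => f ∘ e) := by
    intro f f' h
    ext i
    have := congrFun h (e.symm i)
    simpa using this
  rw [hset, Set.ncard_image_of_injective _ hinj]
  have hfin : {f : Fin n → ZMod p | MvPolynomial.eval f q = 0} =
      (((Fintype.piFinset fun _ : Fin n => (Finset.univ : Finset (ZMod p))).filter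
        (fun f => MvPolynomial.eval f q = 0) : Finset (Fin n → ZMod p)) : Set (Fin n → ZMod p)) := by
    ext f
    simp
  rw [hfin, Set.ncard_coe_finset]
  have hsz := MvPolynomial.schwartz_zippel_totalDegree hq0 (Finset.univ : Finset (ZMod p))
  rw [Finset.card_univ, ZMod.card] at hsz
  have hp0 : (0 : ℚ≥0) < p := by exact_mod_cast hp.pos
  rw [div_le_div_iff₀ (by positivity) hp0] at hsz
  have h1 : ((Fintype.piFinset fun _ : Fin n => (Finset.univ : Finset (ZMod p))).filter
      (fun f => MvPolynomial.eval f q = 0)).card * p ≤ q.totalDegree * p ^ n := by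
    exact_mod_cast hsz
  exact h1.trans (Nat.mul_le_mul_right _ hdeg)

/-- The polynomial vectors with the values of `u` at the places `s c`. -/
theorem count_collapse {p : ℕ} [Fact p.Prime] (s : κ → κ) (c₁ c₂ : κ)
    (hs : ∀ c, s (s c) = s c) (hs' : ∀ c, c ≠ c₁ → c ≠ c₂ → s c = c)
    (P : (κ → ZMod p) → Prop) :
    ({u : κ → ZMod p | P (u ∘ s)}).ncard ≤
      p ^ 2 * ({u : κ → ZMod p | u ∘ s = u ∧ P u}).ncard := by
  have h1 : ((Set.univ : Set (ZMod p × ZMod p)) ×ˢ
      ({u : κ → ZMod p | u ∘ s = u ∧ P u})).ncard =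
      p ^ 2 * ({u : κ → ZMod p | u ∘ s = u ∧ P u}).ncard := by
    rw [Set.ncard_prod, Set.ncard_univ, Nat.card_prod, Nat.card_zmod, pow_two]
  rw [← h1]
  refine Set.ncard_le_ncard_of_injOn (fun u => ((u c₁, u c₂), u ∘ s)) ?_ ?_ (Set.toFinite _)
  · intro u hu
    refine ⟨Set.mem_univ _, ?_, hu⟩
    funext c
    simp only [Function.comp_apply]
    rw [hs c]
  · intro u _ u' _ h
    have h2 : u c₁ = u' c₁ := congrArg (fun t => t.1.1) h
    have h3 : u c₂ = u' c₂ := congrArg (fun t => t.1.2) h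
    have h4 : u ∘ s = u' ∘ s := congrArg (fun t => t.2) h
    funext c
    by_cases hc1 : c = c₁
    · rw [hc1]
      exact h2
    · by_cases hc2 : c = c₂
      · rw [hc2]
        exact h3
      · have h5 := congrFun h4 c
        simp only [Function.comp_apply] at h5
        rwa [hs' c hc1 hc2] at h5

/-- Reduction of vectors modulo `p`. -/
def redp (p : ℕ) (w : κ → ZMod (p ^ 2)) : κ → ZMod p :=
  fun c => ZMod.castHom (dvd_pow_self p two_ne_zero) (ZMod p) (w c)

/-- The number of the lifts to `ZMod (p ^ 2)`. -/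
theorem card_lift_h16 {p : ℕ} (hp : p.Prime) (S : Set (κ → ZMod p)) :
    S.ncard * p ^ Fintype.card κ ≤ ({w : κ → ZMod (p ^ 2) | redp p w ∈ S}).ncard := by
  have : NeZero p := ⟨hp.ne_zero⟩
  have : NeZero (p ^ 2) := ⟨pow_ne_zero 2 hp.ne_zero⟩
  have h1 : (S ×ˢ (Set.univ : Set (κ → Fin p))).ncard = S.ncard * p ^ Fintype.card κ := by
    rw [Set.ncard_prod, Set.ncard_univ, Nat.card_eq_fintype_card, Fintype.card_fun,
      Fintype.card_fin]
  rw [← h1]
  have hlt : ∀ (a : ZMod p) (c : Fin p), a.val + p * (c : ℕ) < p ^ 2 := by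
    intro a c
    have h2 := ZMod.val_lt a
    have h3 := c.2
    nlinarith
  refine Set.ncard_le_ncard_of_injOn
    (fun v i => (((v.1 i).val + p * (v.2 i : ℕ) : ℕ) : ZMod (p ^ 2))) ?_ ?_ (Set.toFinite _)
  · rintro ⟨s, c⟩ ⟨hs, -⟩
    have h2 : redp p (fun i => ((((s i).val + p * (c i : ℕ) : ℕ) : ZMod (p ^ 2)))) = s := by
      funext i
      unfold redp
      rw [map_natCast]
      push_cast
      rw [ZMod.natCast_self, zero_mul, add_zero, ZMod.natCast_val, ZMod.cast_id]
    change redp p (fun i => ((((s i).val + p * (c i : ℕ) : ℕ) : ZMod (p ^ 2)))) ∈ S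
    rw [h2]
    exact hs
  · rintro ⟨s, c⟩ - ⟨s', c'⟩ - h
    have h2 : ∀ i, (s i).val + p * (c i : ℕ) = (s' i).val + p * (c' i : ℕ) := by
      intro i
      have h3 := congrFun h i
      simp only at h3
      rw [ZMod.natCast_eq_natCast_iff'] at h3
      rwa [Nat.mod_eq_of_lt (hlt _ _), Nat.mod_eq_of_lt (hlt _ _)] at h3
    have h4 : ∀ i, s i = s' i := by
      intro i
      have h5 := congrArg (· % p) (h2 i)
      simp only [Nat.add_mul_mod_self_left] at h5
      rw [Nat.mod_eq_of_lt (ZMod.val_lt _), Nat.mod_eq_of_lt (ZMod.val_lt _)] at h5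
      exact ZMod.val_injective p h5
    have h6 : ∀ i, c i = c' i := by
      intro i
      have h7 := h2 i
      rw [h4 i, Nat.add_left_cancel_iff] at h7
      exact Fin.ext (Nat.eq_of_mul_eq_mul_left hp.pos h7)
    simp only [Prod.mk.injEq]
    exact ⟨funext h4, funext h6⟩

/-- Half of the lifts are good, if every bad lift becomes good when `p` is added to a coordinate `c`
(`card_lift14` in LDenA14.lean or SDenA14.lean; see the proof of `count_typeP14` in LPrjA14.lean). -/
theorem half_lift {p : ℕ} (hp : p.Prime) (S : Set (κ → ZMod p)) (c : κ)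
    (G : Set (κ → ZMod (p ^ 2)))
    (hG : ∀ w, redp p w ∈ S → w ∉ G → Function.update w c (w c + (p : ZMod (p ^ 2))) ∈ G) :
    S.ncard * p ^ Fintype.card κ ≤ 2 * G.ncard := by
  have : NeZero (p ^ 2) := ⟨pow_ne_zero 2 hp.ne_zero⟩
  have h2 := card_lift_h16 hp S
  have h4 : ({w : κ → ZMod (p ^ 2) | redp p w ∈ S} \ G).ncard ≤ G.ncard := by
    refine Set.ncard_le_ncard_of_injOn
      (fun w => Function.update w c (w c + (p : ZMod (p ^ 2)))) ?_ ?_ (Set.toFinite _)
    · rintro w ⟨hwX, hwG⟩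
      exact hG w hwX hwG
    · intro w _ w' _ h
      funext i
      have h5 := congrFun h i
      simp only at h5
      by_cases hi : i = c
      · subst hi
        rwa [Function.update_self, Function.update_self, add_left_inj] at h5
      · rwa [Function.update_of_ne hi, Function.update_of_ne hi] at h5
  have h5 : ({w : κ → ZMod (p ^ 2) | redp p w ∈ S}).ncard ≤
      ({w : κ → ZMod (p ^ 2) | redp p w ∈ S} \ G).ncard + G.ncard := by
    have h6 : {w : κ → ZMod (p ^ 2) | redp p w ∈ S} ⊆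
        ({w : κ → ZMod (p ^ 2) | redp p w ∈ S} \ G) ∪ G := fun w hw => by
      by_cases h : w ∈ G
      · exact Or.inr h
      · exact Or.inl ⟨hw, h⟩
    exact (Set.ncard_le_ncard h6 (Set.toFinite _)).trans (Set.ncard_union_le _ _)
  omega

end

end Pool.Agent.Lib.MP_89bcae_ag

end

section

/-!
# Families of polynomials with integral coefficients: all the conditions at the primes

`CopyV`: the values of a homomorphism at the nodes, for the configuration of `n` disjoint copies of an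
arrangement of lines.
-/

open Polynomial

open scoped Classical

namespace Pool.Agent.Lib.MP_89bcae_ag

open Superelliptic

universe u

section

variable {ι : Type} {n : ℕ}

/-- Exactly one root of one of the differences, `α_a - α_b`, goes to infinity modulo `p`. -/
structure TypeK (p : ℕ) (a b : ι) (v : ι × Fin (n + 1) → ℤ) : Prop where
  lead : ∀ c d, c ≠ d → ({c, d} : Set ι) ≠ {a, b} →
    ¬ (p : ℤ) ∣ v (c, Fin.last n) - v (d, Fin.last n)
  dvd : (p : ℤ) ∣ v (a, Fin.last n) - v (b, Fin.last n)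
  ndvd : ¬ (p : ℤ) ^ 2 ∣ v (a, Fin.last n) - v (b, Fin.last n)
  deg : (gred p v a b).natDegree + 1 = n
  sep : ∀ c d, c ≠ d → (gred p v c d).Separable
  cop : ∀ a' b' c d, a' ≠ b' → c ≠ d → ({a', b'} : Set ι) ≠ {c, d} →
    IsCoprime (gred p v a' b') (gred p v c d)

/-- The arithmetic condition on the family. -/
structure GoodH (v : ι × Fin (n + 1) → ℤ) : Prop where
  good : GoodG v
  typeD : ∀ a b, a ≠ b → ∃ p : ℕ, p.Prime ∧ p ≠ 2 ∧ TypeD p a b v
  typeK : ∀ a b, a ≠ b → ∃ p : ℕ, p.Prime ∧ TypeK p a b v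

end

section Val

variable {k F : Type u} [Field k] [Field F] [Algebra k F] {ι : Type} {n : ℕ}

/-- A numbering of the nodes: `nd i j` lists the common values of `α_i` and `α_j`. -/
structure Nodes (α : ι → k[X]) (nd : ι → ι → Fin n → F) : Prop where
  symm : ∀ i j a, nd i j a = nd j i a
  inj : ∀ i j, i ≠ j → Function.Injective (nd i j)
  mem : ∀ i j, i ≠ j → ∀ s : F, aeval s (α i) = aeval s (α j) ↔ ∃ a, nd i j a = s
  lead : ∀ i j, i ≠ j → (α i - α j).natDegree = n

/-- The values of the homomorphism `ν` at the differences of the nodes and at the leading coefficients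
of the `α_i - α_j`. -/
structure DifV {A : Type*} [AddCommGroup A] (ν : F → A) (α : ι → k[X]) (h : F → F → A)
    (b : ι → ι → A) : Prop where
  dif : ∀ s ∈ nodes k F α, ∀ s' ∈ nodes k F α, s ≠ s' → ν (s - s') = h s s'
  lead : ∀ i j, i ≠ j → ν (algebraMap k F (α i - α j).leadingCoeff) = b i j

/-- The homomorphism `ν` takes the value `B {i, j}` at the leading coefficient of `α_i - α_j`, and at the
differences of the nodes the values of `n` disjoint copies of an arrangement of lines with symbols `B`. -/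
structure CopyV {A : Type*} [AddCommGroup A] (ν : F → A) (α : ι → k[X]) (nd : ι → ι → Fin n → F)
    (B : Finset ι → A) : Prop where
  lead : ∀ i j, i ≠ j → ν (algebraMap k F (α i - α j).leadingCoeff) = B {i, j}
  par : ∀ i j, i ≠ j → ∀ a b, a ≠ b → ν (nd i j a - nd i j b) = 0
  adj : ∀ i j l, i ≠ j → j ≠ l → i ≠ l → ∀ a b, ν (nd i j a - nd i l b) =
    if a = b then B {i, j, l} - B {i, j} - B {i, l} else 0

end Val

end Pool.Agent.Lib.MP_89bcae_ag

end

section

/-!
# Translations `t ↦ t + z` of the families of polynomials, and the scheme of the counting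
-/

open Polynomial

open scoped Classical

namespace Pool.Agent.Lib.MP_89bcae_ag

section

variable {ι : Type} {n : ℕ} {R : Type*} [CommRing R]

/-- The coefficients of the `α_i(t + z)`. -/
noncomputable def shift (z : R) (u : ι × Fin (n + 1) → R) : ι × Fin (n + 1) → R :=
  fun x => ((gpol u x.1).comp (X + C z)).coeff x.2

/-- (`natDegree_comp_le`, `gpol_natDegree_le`; `Polynomial.as_sum_range'`.) -/
theorem gpol_shift (z : R) (u : ι × Fin (n + 1) → R) (i : ι) :
    gpol (shift z u) i = (gpol u i).comp (X + C z) := by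
  have hdeg : ((gpol u i).comp (X + C z)).natDegree < n + 1 := by
    refine Nat.lt_succ_of_le (natDegree_comp_le.trans ?_)
    have h1 : (X + C z : R[X]).natDegree ≤ 1 := by
      refine (natDegree_add_le _ _).trans ?_
      rw [natDegree_C]
      exact max_le natDegree_X_le (Nat.zero_le _)
    calc (gpol u i).natDegree * (X + C z : R[X]).natDegree ≤ n * 1 :=
          Nat.mul_le_mul (gpol_natDegree_le u i) h1
      _ = n := mul_one n
  rw [Polynomial.as_sum_range' _ (n + 1) hdeg, Finset.sum_range]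
  unfold gpol shift
  refine Finset.sum_congr rfl fun j _ => ?_
  rw [C_mul_X_pow_eq_monomial]
  rfl

theorem gdif_shift (z : R) (u : ι × Fin (n + 1) → R) (a b : ι) :
    gdif (shift z u) a b = (gdif u a b).comp (X + C z) := by
  unfold gdif
  rw [gpol_shift, gpol_shift, sub_comp]

theorem shift_shift (z z' : R) (u : ι × Fin (n + 1) → R) : shift z (shift z' u) = shift (z + z') u := by
  funext x
  unfold shift
  rw [show gpol (fun x : ι × Fin (n + 1) => ((gpol u x.1).comp (X + C z')).coeff x.2) x.1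
    = (gpol u x.1).comp (X + C z') from gpol_shift z' u x.1, comp_assoc]
  congr 2
  rw [add_comp, X_comp, C_comp, add_assoc, ← C_add]

theorem shift_zero (u : ι × Fin (n + 1) → R) : shift 0 u = u := by
  funext x
  unfold shift
  rw [C_0, add_zero, comp_X, gpol_coeff]

end

section

variable {K : Type} [Field K]

theorem isCoprime_comp_iff (f g : K[X]) (z : K) :
    IsCoprime (f.comp (X + C z)) (g.comp (X + C z)) ↔ IsCoprime f g := by
  have key : ∀ (f g : K[X]) (z : K), IsCoprime f g →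
      IsCoprime (f.comp (X + C z)) (g.comp (X + C z)) := by
    rintro f g z ⟨a, b, h⟩
    refine ⟨a.comp (X + C z), b.comp (X + C z), ?_⟩
    rw [← mul_comp, ← mul_comp, ← add_comp, h, one_comp]
  refine ⟨fun h => ?_, key f g z⟩
  have h1 := key _ _ (-z) h
  have e : (X + C z : K[X]).comp (X + C (-z)) = X := by
    rw [add_comp, X_comp, C_comp, add_assoc, ← C_add, neg_add_cancel, C_0, add_zero]
  rwa [comp_assoc, comp_assoc, e, comp_X, comp_X] at h1

theorem separable_comp_iff (f : K[X]) (z : K) :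
    (f.comp (X + C z)).Separable ↔ f.Separable := by
  have e : derivative (f.comp (X + C z)) = (derivative f).comp (X + C z) := by
    rw [derivative_comp, derivative_add, derivative_X, derivative_C, add_zero, one_mul]
  rw [Polynomial.Separable, Polynomial.Separable, e]
  exact isCoprime_comp_iff f (derivative f) z

end

section

variable {ι : Type} [Fintype ι] {n : ℕ}

/-- The families with a point `z`: `p` times the number of those with the point `0`
(`(z, u) ↦ shift (-z) u` is a bijection from `ZMod p × {u | Gen u 0}` onto the set). -/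
theorem count_trans {p : ℕ} [Fact p.Prime]
    (Gen : (ι × Fin (n + 1) → ZMod p) → ZMod p → Prop)
    (hT : ∀ u z, Gen u z ↔ Gen (shift z u) 0) (hU : ∀ u z z', Gen u z → Gen u z' → z = z') :
    ({u | ∃ z, Gen u z}).ncard = p * ({u | Gen u 0}).ncard := by
  have hss : ∀ (z : ZMod p) (u : ι × Fin (n + 1) → ZMod p), shift z (shift (-z) u) = u := by
    intro z u
    rw [shift_shift, add_neg_cancel, shift_zero]
  have hGen : ∀ (z : ZMod p) (u : ι × Fin (n + 1) → ZMod p), Gen u 0 → Gen (shift (-z) u) z := by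
    intro z u hu
    rw [hT, hss]
    exact hu
  have himg : ({u | ∃ z, Gen u z} : Set (ι × Fin (n + 1) → ZMod p)) =
      (fun x : ZMod p × (ι × Fin (n + 1) → ZMod p) => shift (-x.1) x.2) ''
        ((Set.univ : Set (ZMod p)) ×ˢ {u | Gen u 0}) := by
    ext u
    constructor
    · rintro ⟨z, hz⟩
      refine ⟨(z, shift z u), ⟨Set.mem_univ _, (hT u z).mp hz⟩, ?_⟩
      change shift (-z) (shift z u) = u
      rw [shift_shift, neg_add_cancel, shift_zero]
    · rintro ⟨⟨z, u'⟩, ⟨-, hu'⟩, rfl⟩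
      exact ⟨z, hGen z u' hu'⟩
  have hinj : Set.InjOn (fun x : ZMod p × (ι × Fin (n + 1) → ZMod p) => shift (-x.1) x.2)
      ((Set.univ : Set (ZMod p)) ×ˢ {u | Gen u 0}) := by
    rintro ⟨z, u⟩ ⟨-, hu⟩ ⟨z', u'⟩ ⟨-, hu'⟩ hxy
    have hxy' : shift (-z) u = shift (-z') u' := hxy
    have h1 : Gen (shift (-z) u) z := hGen z u hu
    have h2 : Gen (shift (-z) u) z' := by
      rw [hxy']
      exact hGen z' u' hu'
    have h3 : z = z' := hU _ _ _ h1 h2
    subst h3
    have h4 := congrArg (shift z) hxy'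
    rw [hss, hss] at h4
    rw [h4]
  rw [himg, hinj.ncard_image, Set.ncard_prod, Set.ncard_univ, Nat.card_eq_fintype_card,
    ZMod.card]

/-- **The scheme of the counting.** With `N = card (ι × Fin (n + 1))`: `count_zeros` gives
`#{u | Δ(u) ≠ 0} ≥ p ^ N - D p ^ (N - 1)`; by `count_collapse` (with `P u = Gen p u 0`)
`#{u | Gen p u 0} p ^ 2 ≥ #{u | Δ(u) ≠ 0}`; by `count_trans` `#{u | ∃ z, Gen p u z} = p #{u | Gen p u 0}`;
by `half_lift` `2 #G ≥ #{u | ∃ z, Gen p u z} p ^ N`. Together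
`2 p #G ≥ p ^ N (p ^ N - D p ^ (N - 1)) ≥ p ^ (2 N) / 2` for `p ≥ 2 D`. -/
theorem count_scheme (s : ι × Fin (n + 1) → ι × Fin (n + 1)) (c₁ c₂ c : ι × Fin (n + 1))
    (hs : ∀ c, s (s c) = s c) (hs' : ∀ c, c ≠ c₁ → c ≠ c₂ → s c = c)
    (Δ : MvPolynomial (ι × Fin (n + 1)) ℤ) (hΔ : Δ ≠ 0)
    (Gen : ∀ p : ℕ, (ι × Fin (n + 1) → ZMod p) → ZMod p → Prop)
    (hT : ∀ p : ℕ, p.Prime → ∀ u z, Gen p u z ↔ Gen p (shift z u) 0)
    (hU : ∀ p : ℕ, p.Prime → ∀ u z z', Gen p u z → Gen p u z' → z = z')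
    (h0 : ∀ p : ℕ, p.Prime → ∀ u : ι × Fin (n + 1) → ZMod p,
      MvPolynomial.aeval u Δ ≠ 0 → Gen p (u ∘ s) 0)
    (G : ∀ p : ℕ, Set (ι × Fin (n + 1) → ZMod (p ^ 2)))
    (hG : ∀ p : ℕ, p.Prime → ∀ w, (∃ z, Gen p (redp p w) z) → w ∉ G p →
      Function.update w c (w c + (p : ZMod (p ^ 2))) ∈ G p) :
    ∃ P₀ : ℕ, ∀ p : ℕ, p.Prime → P₀ ≤ p →
      (1 / 4 : ℝ) / p * ((p ^ 2 : ℕ) : ℝ) ^ Fintype.card (ι × Fin (n + 1)) ≤ (G p).ncard := by
  obtain ⟨P₁, D, hD⟩ := count_zeros Δ hΔ
  refine ⟨max P₁ (2 * D), fun p hp hpP => ?_⟩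
  haveI : Fact p.Prime := ⟨hp⟩
  have hpos : 0 < p := hp.pos
  set N := Fintype.card (ι × Fin (n + 1)) with hN
  -- the nonzeros of the polynomial
  set Z : Set (ι × Fin (n + 1) → ZMod p) := {u | MvPolynomial.aeval u Δ = 0} with hZ
  set A : Set (ι × Fin (n + 1) → ZMod p) := {u | Gen p (u ∘ s) 0} with hA
  set B : Set (ι × Fin (n + 1) → ZMod p) := {u | Gen p u 0} with hB
  set E : Set (ι × Fin (n + 1) → ZMod p) := {u | ∃ z, Gen p u z} with hE
  have h1 : Z.ncard * p ≤ D * p ^ N := hD p hp ((le_max_left _ _).trans hpP)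
  have h2 : Zᶜ.ncard + Z.ncard = p ^ N := by
    rw [add_comm, Set.ncard_add_ncard_compl, Nat.card_eq_fintype_card, Fintype.card_fun,
      ZMod.card]
  have h3 : Zᶜ.ncard ≤ A.ncard := Set.ncard_le_ncard (fun u hu => h0 p hp u hu) (Set.toFinite _)
  have h4 : A.ncard ≤ p ^ 2 * B.ncard :=
    (count_collapse s c₁ c₂ hs hs' (fun u => Gen p u 0)).trans
      (Nat.mul_le_mul_left _ (Set.ncard_le_ncard (fun u hu => hu.2) (Set.toFinite _)))
  have h5 : E.ncard = p * B.ncard := count_trans (Gen p) (hT p hp) (hU p hp)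
  have h6 : E.ncard * p ^ N ≤ 2 * (G p).ncard :=
    half_lift hp E c (G p) (fun w hw hwG => by
      have h := hG p hp w hw hwG
      have e : ∀ (d1 d2 : DecidableEq (ι × Fin (n + 1))),
          @Function.update _ _ d1 w c (w c + (p : ZMod (p ^ 2))) =
            @Function.update _ _ d2 w c (w c + (p : ZMod (p ^ 2))) := fun d1 d2 => by
        rw [Subsingleton.elim d1 d2]
      exact (e _ _) ▸ h)
  -- the estimates
  have hp2D : 2 * D ≤ p := (le_max_right _ _).trans hpP
  have hpR : (0 : ℝ) < p := by exact_mod_cast hpos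
  have h1' : (Z.ncard : ℝ) * p ≤ D * (p : ℝ) ^ N := by exact_mod_cast h1
  have h2' : (Zᶜ.ncard : ℝ) + Z.ncard = (p : ℝ) ^ N := by exact_mod_cast h2
  have h34 : (Zᶜ.ncard : ℝ) ≤ (p : ℝ) ^ 2 * B.ncard := by exact_mod_cast h3.trans h4
  have h5' : (E.ncard : ℝ) = p * B.ncard := by exact_mod_cast h5
  have h6' : (E.ncard : ℝ) * (p : ℝ) ^ N ≤ 2 * (G p).ncard := by exact_mod_cast h6
  have hD' : 2 * (D : ℝ) ≤ p := by exact_mod_cast hp2D
  have hpN : (0 : ℝ) < (p : ℝ) ^ N := pow_pos hpR N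
  -- `2 #Z ≤ p ^ N`
  have h7 : 2 * (Z.ncard : ℝ) ≤ (p : ℝ) ^ N := by
    have h8 : 2 * (Z.ncard : ℝ) * p ≤ (p : ℝ) ^ N * p := by
      calc 2 * (Z.ncard : ℝ) * p = 2 * ((Z.ncard : ℝ) * p) := by ring
        _ ≤ 2 * (D * (p : ℝ) ^ N) := by linarith
        _ = (2 * (D : ℝ)) * (p : ℝ) ^ N := by ring
        _ ≤ p * (p : ℝ) ^ N := mul_le_mul_of_nonneg_right hD' hpN.le
        _ = (p : ℝ) ^ N * p := by ring
    exact le_of_mul_le_mul_right h8 hpR
  -- `p ^ N ≤ 2 p ^ 2 #B`
  have h9 : (p : ℝ) ^ N ≤ 2 * ((p : ℝ) ^ 2 * B.ncard) := by linarith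
  have h10 : (p : ℝ) ^ N * (p : ℝ) ^ N ≤ 4 * (p * (G p).ncard) := by
    calc (p : ℝ) ^ N * (p : ℝ) ^ N ≤ 2 * ((p : ℝ) ^ 2 * B.ncard) * (p : ℝ) ^ N :=
          mul_le_mul_of_nonneg_right h9 hpN.le
      _ = 2 * p * ((p * B.ncard) * (p : ℝ) ^ N) := by ring
      _ = 2 * p * ((E.ncard : ℝ) * (p : ℝ) ^ N) := by rw [h5']
      _ ≤ 2 * p * (2 * (G p).ncard) := mul_le_mul_of_nonneg_left h6' (by positivity)
      _ = 4 * (p * (G p).ncard) := by ring
  have h11 : (((p ^ 2 : ℕ) : ℝ)) ^ N = (p : ℝ) ^ N * (p : ℝ) ^ N := by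
    push_cast
    rw [← pow_mul, mul_comm 2 N, pow_mul, sq]
  rw [h11]
  calc (1 / 4 : ℝ) / p * ((p : ℝ) ^ N * (p : ℝ) ^ N)
      ≤ (1 / 4 : ℝ) / p * (4 * (p * (G p).ncard)) :=
        mul_le_mul_of_nonneg_left h10 (by positivity)
    _ = (G p).ncard := by field_simp

end

end Pool.Agent.Lib.MP_89bcae_ag

end

section

/-!
# The number of the families of type D modulo `p ^ 2`
-/

open Polynomial

open scoped Classical

namespace Pool.Agent.Lib.MP_89bcae_ag

section

variable {ι : Type} {n : ℕ} {K : Type}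

/-- Exactly one double root, at `z`, of `α_a - α_b`: the conditions over a field. -/
structure GenD [CommRing K] (a b : ι) (u : ι × Fin (n + 1) → K) (z : K) : Prop where
  lead : ∀ a b, a ≠ b → u (a, Fin.last n) ≠ u (b, Fin.last n)
  sep : ∀ c d, c ≠ d → ({c, d} : Set ι) ≠ {a, b} → (gdif u c d).Separable
  cop : ∀ a' b' c d, a' ≠ b' → c ≠ d → ({a', b'} : Set ι) ≠ {c, d} →
    IsCoprime (gdif u a' b') (gdif u c d)
  dbl : ∃ g : K[X], gdif u a b = (X - C z) ^ 2 * g ∧ g.eval z ≠ 0 ∧ g.Separable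

theorem cd1_coeff_h40 [Field K] (f : K[X]) (n : ℕ) (hf : f.natDegree ≤ n) (z : K) :
    (f.comp (X + C z)).coeff n = f.coeff n := by
  rw [← Polynomial.taylor_apply]
  rcases hf.lt_or_eq with h | h
  · rw [Polynomial.coeff_eq_zero_of_natDegree_lt h, Polynomial.coeff_eq_zero_of_natDegree_lt]
    rw [Polynomial.natDegree_taylor]
    exact h
  · rw [← h, Polynomial.coeff_taylor_natDegree]
    rfl

theorem cd1_lead_h40 [Field K] (u : ι × Fin (n + 1) → K) (z : K) (a : ι) :
    shift z u (a, Fin.last n) = u (a, Fin.last n) := by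
  have h1 : shift z u (a, Fin.last n) = ((gpol u a).comp (X + C z)).coeff n := rfl
  rw [h1, cd1_coeff_h40 _ n (gpol_natDegree_le u a)]
  have h2 := gpol_coeff u a (Fin.last n)
  rw [Fin.val_last] at h2
  exact h2

/-- (`gdif_shift`; the leading coefficients do not change; `(X - C z).comp (X + C z) = X`.) -/
theorem GenD.shift_iff [Field K] (a b : ι) (u : ι × Fin (n + 1) → K) (z : K) :
    GenD a b u z ↔ GenD a b (shift z u) 0 := by
  constructor
  · intro h
    refine ⟨?_, ?_, ?_, ?_⟩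
    · intro c d hcd
      rw [cd1_lead_h40, cd1_lead_h40]
      exact h.lead c d hcd
    · intro c d hcd hne
      rw [gdif_shift, separable_comp_iff]
      exact h.sep c d hcd hne
    · intro a' b' c d h1 h2 h3
      rw [gdif_shift, gdif_shift, isCoprime_comp_iff]
      exact h.cop a' b' c d h1 h2 h3
    · obtain ⟨g, hg, hg0, hgs⟩ := h.dbl
      refine ⟨g.comp (X + C z), ?_, ?_, ?_⟩
      · rw [gdif_shift, hg, mul_comp, pow_comp, sub_comp, X_comp, C_comp, map_zero, sub_zero,
          add_sub_cancel_right]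
      · rw [eval_comp, eval_add, eval_X, eval_C, zero_add]
        exact hg0
      · rw [separable_comp_iff]
        exact hgs
  · intro h
    refine ⟨?_, ?_, ?_, ?_⟩
    · intro c d hcd
      have h1 := h.lead c d hcd
      rw [cd1_lead_h40, cd1_lead_h40] at h1
      exact h1
    · intro c d hcd hne
      have h1 := h.sep c d hcd hne
      rw [gdif_shift, separable_comp_iff] at h1
      exact h1
    · intro a' b' c d h1 h2 h3
      have h4 := h.cop a' b' c d h1 h2 h3
      rw [gdif_shift, gdif_shift, isCoprime_comp_iff] at h4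
      exact h4
    · obtain ⟨g, hg, hg0, hgs⟩ := h.dbl
      rw [gdif_shift, map_zero, sub_zero] at hg
      have h1 : (X + C z : K[X]).comp (X + C (-z)) = X := by
        rw [add_comp, X_comp, C_comp, map_neg, neg_add_cancel_right]
      refine ⟨g.comp (X + C (-z)), ?_, ?_, ?_⟩
      · have h2 := congrArg (fun f : K[X] => f.comp (X + C (-z))) hg
        simp only [mul_comp, pow_comp, X_comp] at h2
        rw [comp_assoc, h1, comp_X] at h2
        rw [h2, map_neg, sub_eq_add_neg]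
      · rw [eval_comp, eval_add, eval_X, eval_C, add_neg_cancel]
        exact hg0
      · rw [separable_comp_iff]
        exact hgs

/-- (If `z' ≠ z`, then `(X - z') ^ 2` divides `g`, which is separable.) -/
theorem GenD.unique [Field K] {a b : ι} {u : ι × Fin (n + 1) → K} {z z' : K} (h : GenD a b u z)
    (h' : GenD a b u z') : z = z' := by
  by_contra hne
  obtain ⟨g, hg, hg0, hgs⟩ := h.dbl
  obtain ⟨g', hg', -, -⟩ := h'.dbl
  have h1 : IsCoprime ((X - C z') ^ 2 : K[X]) ((X - C z) ^ 2) :=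
    (isCoprime_X_sub_C_of_isUnit_sub (sub_ne_zero.2 (Ne.symm hne)).isUnit).pow
  have h2 : ((X - C z') ^ 2 : K[X]) ∣ (X - C z) ^ 2 * g := by
    rw [← hg, hg']
    exact dvd_mul_right _ _
  have h3 := h1.dvd_of_dvd_mul_left h2
  have h4 : (X - C z' : K[X]) * (X - C z') ∣ g := by
    rw [← sq]
    exact h3
  exact not_isUnit_X_sub_C z' (hgs.squarefree _ h4)

end

section

variable {ι : Type} {n : ℕ}

/-- The coefficients of degree `0` and `1` of `α_b` are replaced by those of `α_a`. -/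
noncomputable def colD (a b : ι) : ι × Fin (n + 1) → ι × Fin (n + 1) :=
  fun c => if c = (b, 0) then (a, 0) else if c = (b, 1) then (a, 1) else c

lemma isGeneric_imp_h13 {κ : Type} {P : Prop} {C : ∀ (K : Type) [Field K], (κ → K) → Prop}
    (h : P → IsGeneric C) :
    IsGeneric (fun (K : Type) [Field K] (u : κ → K) => P → C K u) := by
  by_cases hP : P
  · exact (h hP).mono fun K _ u hu _ => hu
  · exact IsGeneric.true.mono fun K _ u _ hP' => absurd hP' hP

lemma colD_of_two_le_h13 (a b c : ι) (j : Fin (n + 1)) (hj : 2 ≤ (j : ℕ)) :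
    colD a b (c, j) = (c, j) := by
  unfold colD
  rw [if_neg, if_neg]
  · intro h
    have h1 : j = 1 := congrArg Prod.snd h
    have h2 : (j : ℕ) = 1 % (n + 1) := by rw [h1, Fin.val_one']
    have h3 := Nat.mod_le 1 (n + 1)
    omega
  · intro h
    have h1 : j = 0 := congrArg Prod.snd h
    have h2 : (j : ℕ) = 0 := by rw [h1, Fin.val_zero]
    omega

lemma colD_last_h13 (hn : 2 ≤ n) (a b c : ι) : colD a b (c, Fin.last n) = (c, Fin.last n) :=
  colD_of_two_le_h13 a b c _ (by rw [Fin.val_last]; exact hn)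

lemma colD_left_h13 {a b : ι} (hab : a ≠ b) (j : Fin (n + 1)) : colD a b (a, j) = (a, j) := by
  unfold colD
  rw [if_neg, if_neg]
  · intro h
    exact hab (congrArg Prod.fst h)
  · intro h
    exact hab (congrArg Prod.fst h)

lemma colD_zero_h13 (a b : ι) : colD a b (b, (0 : Fin (n + 1))) = (a, 0) := by
  unfold colD
  rw [if_pos rfl]

lemma colD_one_h13 (hn : 2 ≤ n) (a b : ι) : colD a b (b, (1 : Fin (n + 1))) = (a, 1) := by
  unfold colD
  rw [if_neg, if_pos rfl]
  intro h
  have h1 : (1 : Fin (n + 1)) = 0 := congrArg Prod.snd h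
  have h2 : ((1 : Fin (n + 1)) : ℕ) = 0 := by rw [h1, Fin.val_zero]
  rw [Fin.val_one', Nat.mod_eq_of_lt (by omega)] at h2
  omega

/-- The difference of two of the generic polynomials, after the collapse `s`. -/
noncomputable def genF_h13 (s : ι × Fin (n + 1) → ι × Fin (n + 1)) (c d : ι) :
    (MvPolynomial (ι × Fin (n + 1)) ℤ)[X] :=
  gdif (fun x => MvPolynomial.X (s x)) c d

lemma spec_genF_h13 {K : Type} [Field K] (s : ι × Fin (n + 1) → ι × Fin (n + 1))
    (u : ι × Fin (n + 1) → K) (c d : ι) : spec u (genF_h13 s c d) = gdif (u ∘ s) c d := by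
  unfold spec genF_h13
  rw [gdif_map]
  congr 1
  funext x
  simp

lemma genF_natDegree_h13 (s : ι × Fin (n + 1) → ι × Fin (n + 1)) (c d : ι) :
    (genF_h13 s c d).natDegree ≤ n := gdif_natDegree_le _ _ _

lemma gdif_coeff_last_h13 {R : Type*} [CommRing R] (v : ι × Fin (n + 1) → R) (a b : ι) :
    (gdif v a b).coeff n = v (a, Fin.last n) - v (b, Fin.last n) := by
  have h := gdif_coeff v a b (Fin.last n)
  rwa [Fin.val_last] at h

lemma gpol_eq_of_coeff_h13 {R : Type*} [CommRing R] (v : ι × Fin (n + 1) → R) (i : ι) (p : R[X])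
    (hp : p.natDegree ≤ n) (h : ∀ j : Fin (n + 1), p.coeff j = v (i, j)) : gpol v i = p := by
  ext k
  by_cases hk : k < n + 1
  · have h1 := gpol_coeff v i ⟨k, hk⟩
    have h2 := h ⟨k, hk⟩
    simp only at h1 h2
    rw [h1, h2]
  · rw [coeff_eq_zero_of_natDegree_lt (lt_of_le_of_lt (gpol_natDegree_le v i) (by omega)),
      coeff_eq_zero_of_natDegree_lt (lt_of_le_of_lt hp (by omega))]

/-- The family `lam_y X ^ n`, with `1` added at the index `x`. -/
noncomputable def ptx_h13 (lam : ι → ℚ) (x : ι) : ι × Fin (n + 1) → ℚ :=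
  fun y => if y.2 = Fin.last n then lam y.1 else if y.1 = x ∧ y.2 = 0 then 1 else 0

lemma ptx_comp_h13 (hn : 2 ≤ n) (lam : ι → ℚ) {a b x : ι} (hxa : x ≠ a) (hxb : x ≠ b) :
    (ptx_h13 lam x : ι × Fin (n + 1) → ℚ) ∘ colD a b = ptx_h13 lam x := by
  have h0 : (0 : Fin (n + 1)) ≠ Fin.last n := by
    intro h
    have h2 := congrArg Fin.val h
    rw [Fin.val_last, Fin.val_zero] at h2
    omega
  have h1 : (1 : Fin (n + 1)) ≠ Fin.last n := by
    intro h
    have h2 := congrArg Fin.val h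
    rw [Fin.val_last, Fin.val_one', Nat.mod_eq_of_lt (by omega)] at h2
    omega
  have key : ∀ (y : ι) (j : Fin (n + 1)), x ≠ y → j ≠ Fin.last n →
      (ptx_h13 lam x : ι × Fin (n + 1) → ℚ) (y, j) = 0 := by
    intro y j hy hj
    unfold ptx_h13
    rw [if_neg hj, if_neg]
    rintro ⟨h, _⟩
    exact hy h.symm
  funext ⟨y, j⟩
  rw [Function.comp_apply]
  unfold colD
  split_ifs with h2 h3
  · rw [h2, key a 0 hxa h0, key b 0 hxb h0]
  · rw [h3, key a 1 hxa h1, key b 1 hxb h1]
  · rfl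

lemma gpol_ptx_h13 (hn : 2 ≤ n) (lam : ι → ℚ) (x y : ι) :
    gpol (ptx_h13 lam x : ι × Fin (n + 1) → ℚ) y =
      C (lam y) * X ^ n + C (if y = x then 1 else 0) := by
  apply gpol_eq_of_coeff_h13
  · refine (natDegree_add_le _ _).trans (max_le (natDegree_C_mul_X_pow_le _ _) ?_)
    rw [natDegree_C]
    omega
  · intro j
    rw [coeff_add, coeff_C_mul_X_pow, coeff_C]
    unfold ptx_h13
    simp only
    by_cases hj : j = Fin.last n
    · have h1 : (j : ℕ) = n := by rw [hj, Fin.val_last]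
      rw [if_pos h1, if_pos hj, if_neg (by omega), add_zero]
    · have h1 : (j : ℕ) ≠ n := by
        intro h
        exact hj (Fin.ext (by rw [h, Fin.val_last]))
      rw [if_neg h1, if_neg hj, zero_add]
      by_cases h0 : (j : ℕ) = 0
      · have h2 : j = 0 := Fin.ext (by rw [h0, Fin.val_zero])
        rw [if_pos h0]
        by_cases hy : y = x
        · rw [if_pos hy, if_pos ⟨hy, h2⟩]
        · rw [if_neg hy, if_neg fun h => hy h.1]
      · rw [if_neg h0, if_neg]
        rintro ⟨_, h2⟩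
        exact h0 (by rw [h2, Fin.val_zero])

lemma gdif_ptx_h13 (hn : 2 ≤ n) (lam : ι → ℚ) (x c d : ι) :
    gdif (ptx_h13 lam x : ι × Fin (n + 1) → ℚ) c d =
      C (lam c - lam d) * X ^ n + C ((if c = x then 1 else 0) - (if d = x then 1 else 0)) := by
  unfold gdif
  rw [gpol_ptx_h13 hn, gpol_ptx_h13 hn, C_sub, C_sub]
  ring

lemma isCoprime_bin_h13 {A B A' B' : ℚ} (m : ℕ) (h : A * B' - A' * B ≠ 0) :
    IsCoprime (C A * X ^ m + C B) (C A' * X ^ m + C B') := by
  refine ⟨C (-A' / (A * B' - A' * B)), C (A / (A * B' - A' * B)), ?_⟩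
  have h1 : C (-A' / (A * B' - A' * B)) * (C A * X ^ m + C B) +
      C (A / (A * B' - A' * B)) * (C A' * X ^ m + C B') =
      C (-A' / (A * B' - A' * B) * A + A / (A * B' - A' * B) * A') * X ^ m +
        C (-A' / (A * B' - A' * B) * B + A / (A * B' - A' * B) * B') := by
    simp only [C_add, C_mul]
    ring
  have h2 : -A' / (A * B' - A' * B) * A + A / (A * B' - A' * B) * A' = 0 := by ring
  have h3 : -A' / (A * B' - A' * B) * B + A / (A * B' - A' * B) * B' = 1 := by
    field_simp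
    ring
  rw [h1, h2, h3, C_0, zero_mul, zero_add, C_1]

lemma separable_bin_h13 {A B : ℚ} (m : ℕ) (hA : A ≠ 0) (hB : B ≠ 0) (hAB : m = 0 → A + B ≠ 0) :
    (C A * X ^ m + C B).Separable := by
  rcases Nat.eq_zero_or_pos m with hm | hm
  · subst hm
    rw [pow_zero, mul_one, ← C_add]
    exact (separable_C _).2 (isUnit_iff_ne_zero.2 (hAB rfl))
  · have h1 : (C A * X ^ m + C B : ℚ[X]) = C A * (X ^ m - C (-B / A)) := by
      rw [mul_sub, ← C_mul]
      have : A * (-B / A) = -B := by field_simp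
      rw [this, C_neg, sub_neg_eq_add]
    rw [h1]
    exact Separable.unit_mul (isUnit_C.2 (isUnit_iff_ne_zero.2 hA))
      (separable_X_pow_sub_C _ (by exact_mod_cast hm.ne') (div_ne_zero (neg_ne_zero.2 hB) hA))

lemma det_h13 (lam : ι → ℚ) (hlam : Function.Injective lam) {a b c d x : ι} (hab : a ≠ b)
    (hcd : c ≠ d) (hne : ({a, b} : Set ι) ≠ {c, d}) (hx : (x = a ∨ x = b) ∨ (x = c ∨ x = d)) :
    (lam a - lam b) * ((if c = x then 1 else 0) - (if d = x then 1 else 0)) -
      (lam c - lam d) * ((if a = x then 1 else 0) - (if b = x then 1 else 0)) ≠ 0 := by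
  have inj : ∀ i j, i ≠ j → lam i - lam j ≠ 0 := fun i j h => sub_ne_zero.2 fun h' => h (hlam h')
  have n1 : a = c → b ≠ d := fun h h' => hne (by rw [h, h'])
  have n2 : a = d → b ≠ c := fun h h' => hne (by rw [h, h', Set.pair_comm])
  have hab1 := inj a b hab
  have hcd1 := inj c d hcd
  by_cases ha : a = x
  · have hb : b ≠ x := fun h => hab (ha.trans h.symm)
    by_cases hc : c = x
    · have hd : d ≠ x := fun h => hcd (hc.trans h.symm)
      have h1 := inj b d (n1 (ha.trans hc.symm))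
      rw [if_pos ha, if_neg hb, if_pos hc, if_neg hd, ha, hc]
      intro h
      apply h1
      linarith
    · by_cases hd : d = x
      · have h1 := inj b c (n2 (ha.trans hd.symm))
        rw [if_pos ha, if_neg hb, if_neg hc, if_pos hd, ha, hd]
        intro h
        apply h1
        linarith
      · rw [if_pos ha, if_neg hb, if_neg hc, if_neg hd]
        intro h
        apply hcd1
        linarith
  · by_cases hb : b = x
    · by_cases hc : c = x
      · have hd : d ≠ x := fun h => hcd (hc.trans h.symm)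
        have h1 := inj a d fun h => n2 h (hb.trans hc.symm)
        rw [if_neg ha, if_pos hb, if_pos hc, if_neg hd, hb, hc]
        intro h
        apply h1
        linarith
      · by_cases hd : d = x
        · have h1 := inj a c fun h => n1 h (hb.trans hd.symm)
          rw [if_neg ha, if_pos hb, if_neg hc, if_pos hd, hb, hd]
          intro h
          apply h1
          linarith
        · rw [if_neg ha, if_pos hb, if_neg hc, if_neg hd]
          intro h
          apply hcd1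
          linarith
    · by_cases hc : c = x
      · have hd : d ≠ x := fun h => hcd (hc.trans h.symm)
        rw [if_neg ha, if_neg hb, if_pos hc, if_neg hd]
        intro h
        apply hab1
        linarith
      · by_cases hd : d = x
        · rw [if_neg ha, if_neg hb, if_neg hc, if_pos hd]
          intro h
          apply hab1
          linarith
        · exfalso
          rcases hx with (h | h) | (h | h)
          · exact ha h.symm
          · exact hb h.symm
          · exact hc h.symm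
          · exact hd h.symm

/-- The quotient of the difference of the generic `α_a` and `α_b` by `X ^ 2`. -/
noncomputable def genG_h13 (a b : ι) : (MvPolynomial (ι × Fin (n + 1)) ℤ)[X] :=
  (genF_h13 (colD a b) a b).divX.divX

lemma genF_eq_h13 (hn : 2 ≤ n) {a b : ι} (hab : a ≠ b) :
    genF_h13 (n := n) (colD a b) a b = X ^ 2 * genG_h13 a b := by
  have h0 : (genF_h13 (n := n) (colD a b) a b).coeff 0 = 0 := by
    have h := gdif_coeff (fun x : ι × Fin (n + 1) => MvPolynomial.X (R := ℤ) (colD a b x)) a b 0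
    rw [Fin.val_zero, colD_left_h13 hab, colD_zero_h13, sub_self] at h
    exact h
  have h1 : (genF_h13 (n := n) (colD a b) a b).coeff 1 = 0 := by
    have h := gdif_coeff (fun x : ι × Fin (n + 1) => MvPolynomial.X (R := ℤ) (colD a b x)) a b 1
    rw [Fin.val_one', Nat.mod_eq_of_lt (by omega), colD_left_h13 hab, colD_one_h13 hn, sub_self] at h
    exact h
  have e1 := divX_mul_X_add (genF_h13 (n := n) (colD a b) a b)
  have e2 := divX_mul_X_add (genF_h13 (n := n) (colD a b) a b).divX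
  rw [h0, C_0, add_zero] at e1
  rw [coeff_divX, zero_add, h1, C_0, add_zero] at e2
  unfold genG_h13
  calc genF_h13 (n := n) (colD a b) a b = (genF_h13 (n := n) (colD a b) a b).divX * X := e1.symm
    _ = (genF_h13 (n := n) (colD a b) a b).divX.divX * X * X := by
        rw [show (genF_h13 (n := n) (colD a b) a b).divX.divX * X =
          (genF_h13 (n := n) (colD a b) a b).divX from e2]
    _ = _ := by ring

lemma genG_natDegree_h13 (a b : ι) : (genG_h13 (n := n) a b).natDegree ≤ n - 2 := by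
  unfold genG_h13
  rw [natDegree_divX_eq_natDegree_tsub_one, natDegree_divX_eq_natDegree_tsub_one]
  have := genF_natDegree_h13 (n := n) (colD a b) a b
  omega

lemma genG_coeff_h13 (a b : ι) (k : ℕ) :
    (genG_h13 (n := n) a b).coeff k = (genF_h13 (n := n) (colD a b) a b).coeff (k + 2) := by
  unfold genG_h13
  rw [coeff_divX, coeff_divX]

/-- The family `α_a = X ^ n + X ^ 2`, the other polynomials being zero. -/
noncomputable def pta_h13 (a : ι) : ι × Fin (n + 1) → ℚ :=
  fun y => if y.1 = a then (if (y.2 : ℕ) = n then 1 else 0) + (if (y.2 : ℕ) = 2 then 1 else 0) else 0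

lemma spec_coeff_h13 {κ : Type} {K : Type} [Field K] (u : κ → K) (f : (MvPolynomial κ ℤ)[X])
    (k : ℕ) : (spec u f).coeff k = MvPolynomial.aeval u (f.coeff k) := by
  unfold spec
  rw [coeff_map]
  rfl

lemma spec_genG_h13 (hn : 2 ≤ n) {a b : ι} (hab : a ≠ b) :
    spec (pta_h13 a) (genG_h13 (n := n) a b) = C 1 * X ^ (n - 2) + C 1 := by
  ext k
  rw [spec_coeff_h13, genG_coeff_h13, ← spec_coeff_h13, spec_genF_h13, coeff_add, coeff_C_mul_X_pow,
    coeff_C]
  by_cases hk : k + 2 < n + 1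
  · have h := gdif_coeff ((pta_h13 a : ι × Fin (n + 1) → ℚ) ∘ colD a b) a b ⟨k + 2, hk⟩
    simp only [Function.comp_apply] at h
    rw [colD_left_h13 hab, colD_of_two_le_h13 a b b ⟨k + 2, hk⟩ (by simp)] at h
    rw [h]
    unfold pta_h13
    simp only
    rw [if_neg hab.symm, if_pos trivial, sub_zero]
    congr 1
    · by_cases h1 : k + 2 = n
      · rw [if_pos h1, if_pos (by omega)]
      · rw [if_neg h1, if_neg (by omega)]
    · by_cases h1 : k = 0
      · rw [if_pos (by omega), if_pos h1]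
      · rw [if_neg (by omega), if_neg h1]
  · rw [coeff_eq_zero_of_natDegree_lt (lt_of_le_of_lt (gdif_natDegree_le _ _ _) (by omega)),
      if_neg (by omega), if_neg (by omega), add_zero]

/-- The generic condition. By `IsGeneric.all`, `IsGeneric.and`: (lead) the polynomial
`X_(a,n) - X_(b,n)`. For the other ones, the polynomials are `gdif (MvPolynomial.X ∘ s) a b` over
`MvPolynomial κ ℤ` (`gdif_map`: their values at `u` are the `gdif (u ∘ s) a b`), and it is enough to
find for every condition one rational point `u₀` with `u₀ ∘ s = u₀` where it holds. (cop): there is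
`x ∉ {a, b}` in one of the two pairs: take `α_y = λ_y X ^ n` for `y ≠ x` and `α_x = λ_x X ^ n + 1`, with
an injective `λ : ι → ℚ`; two differences `A X ^ n + B` and `A' X ^ n + B'` with `A ≠ 0` and
`A B' ≠ A' B` are coprime, and `A B' - A' B = ± (λ - λ')` for two different indices. (sep): the same
family, `x ∈ {c, d}`, `x ∉ {a, b}`: `A X ^ n ± 1` is separable. (dbl): `α_a = X ^ n + X ^ 2`, `α_b = 0`:
`g = X ^ (n - 2) + 1` (`g = 2` if `n = 2`), `g(0) ≠ 0`; use `divX` twice for the quotient by `X ^ 2`. -/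
theorem isGeneric_genD [Fintype ι] (hn : 2 ≤ n) {a b : ι} (hab : a ≠ b) :
    IsGeneric (fun (K : Type) [Field K] (u : ι × Fin (n + 1) → K) =>
      GenD a b (u ∘ colD a b) 0) := by
  obtain ⟨lam, hlam⟩ : ∃ lam : ι → ℚ, Function.Injective lam :=
    ⟨fun i => ((Fintype.equivFin ι i : ℕ) : ℚ), fun i j h => by
      have h0 : ((Fintype.equivFin ι i : ℕ) : ℚ) = ((Fintype.equivFin ι j : ℕ) : ℚ) := h
      have h1 : (Fintype.equivFin ι i : ℕ) = (Fintype.equivFin ι j : ℕ) := by exact_mod_cast h0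
      exact (Fintype.equivFin ι).injective (Fin.ext h1)⟩
  -- the leading coefficients
  have G1 : IsGeneric (fun (K : Type) [Field K] (u : ι × Fin (n + 1) → K) =>
      ∀ t : ι × ι, t.1 ≠ t.2 → (u ∘ colD a b) (t.1, Fin.last n) ≠ (u ∘ colD a b) (t.2, Fin.last n)) := by
    apply IsGeneric.all
    intro t
    apply isGeneric_imp_h13
    intro ht
    have h := isGeneric_ne (κ := ι × Fin (n + 1))
      (MvPolynomial.X (t.1, Fin.last n) - MvPolynomial.X (t.2, Fin.last n))
      ⟨ptx_h13 lam a, by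
        rw [map_sub, MvPolynomial.aeval_X, MvPolynomial.aeval_X]
        unfold ptx_h13
        simp only [if_true]
        exact sub_ne_zero.2 fun h => ht (hlam h)⟩
    refine h.mono fun K _ u hu => ?_
    rw [map_sub, MvPolynomial.aeval_X, MvPolynomial.aeval_X] at hu
    rw [Function.comp_apply, Function.comp_apply, colD_last_h13 hn, colD_last_h13 hn]
    exact sub_ne_zero.1 hu
  -- the value of the leading coefficient at the points
  have hlead : ∀ x c d : ι, x ≠ a → x ≠ b → c ≠ d →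
      (spec (ptx_h13 lam x) (genF_h13 (n := n) (colD a b) c d)).coeff n ≠ 0 := by
    intro x c d hxa hxb hcd
    rw [spec_genF_h13, ptx_comp_h13 hn lam hxa hxb, gdif_ptx_h13 hn, coeff_add, coeff_C_mul_X_pow,
      if_pos rfl, coeff_C, if_neg (by omega), add_zero]
    exact sub_ne_zero.2 fun h => hcd (hlam h)
  have hmem : ∀ c d : ι, c ≠ d → ({c, d} : Set ι) ≠ {a, b} → ∃ x, (x = c ∨ x = d) ∧ x ≠ a ∧ x ≠ b := by
    intro c d hcd h
    by_contra hc
    push Not at hc
    apply h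
    have h1 := hc c (Or.inl rfl)
    have h2 := hc d (Or.inr rfl)
    by_cases hca : c = a
    · have hda : d ≠ a := fun h3 => hcd (hca.trans h3.symm)
      rw [hca, h2 hda]
    · have hcb := h1 hca
      by_cases hda : d = a
      · rw [hcb, hda, Set.pair_comm]
      · exact absurd (hcb.trans (h2 hda).symm) hcd
  -- separability
  have G2 : IsGeneric (fun (K : Type) [Field K] (u : ι × Fin (n + 1) → K) =>
      ∀ t : ι × ι, (t.1 ≠ t.2 ∧ ({t.1, t.2} : Set ι) ≠ {a, b}) →
        (gdif (u ∘ colD a b) t.1 t.2).Separable) := by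
    apply IsGeneric.all
    rintro ⟨c, d⟩
    apply isGeneric_imp_h13
    rintro ⟨hcd, hcd'⟩
    simp only at hcd hcd' ⊢
    obtain ⟨x, hx, hxa, hxb⟩ := hmem c d hcd hcd'
    have h := isGeneric_separable (genF_h13 (n := n) (colD a b) c d) n (genF_natDegree_h13 _ _ _)
      (ptx_h13 lam x) (hlead x c d hxa hxb hcd) (by
        rw [spec_genF_h13, ptx_comp_h13 hn lam hxa hxb, gdif_ptx_h13 hn]
        have h1 : lam c - lam d ≠ 0 := sub_ne_zero.2 fun h => hcd (hlam h)
        refine separable_bin_h13 n h1 ?_ (fun h => absurd h (by omega))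
        rcases hx with h2 | h2
        · have h3 : d ≠ x := fun h => hcd (h2.symm.trans h.symm)
          rw [if_pos h2.symm, if_neg h3]
          norm_num
        · have h3 : c ≠ x := fun h => hcd (h.trans h2)
          rw [if_neg h3, if_pos h2.symm]
          norm_num)
    refine h.mono fun K _ u hu => ?_
    have := hu.2
    rwa [spec_genF_h13] at this
  -- coprimality
  have G3 : IsGeneric (fun (K : Type) [Field K] (u : ι × Fin (n + 1) → K) =>
      ∀ t : (ι × ι) × (ι × ι), (t.1.1 ≠ t.1.2 ∧ t.2.1 ≠ t.2.2 ∧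
        ({t.1.1, t.1.2} : Set ι) ≠ {t.2.1, t.2.2}) →
        IsCoprime (gdif (u ∘ colD a b) t.1.1 t.1.2) (gdif (u ∘ colD a b) t.2.1 t.2.2)) := by
    apply IsGeneric.all
    rintro ⟨⟨a', b'⟩, ⟨c, d⟩⟩
    apply isGeneric_imp_h13
    rintro ⟨hab', hcd, hne⟩
    simp only at hab' hcd hne ⊢
    obtain ⟨x, hx, hxa, hxb⟩ : ∃ x, ((x = a' ∨ x = b') ∨ (x = c ∨ x = d)) ∧ x ≠ a ∧ x ≠ b := by
      by_cases h1 : ({a', b'} : Set ι) = {a, b}
      · obtain ⟨x, hx, h2⟩ := hmem c d hcd fun h => hne (h1.trans h.symm)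
        exact ⟨x, Or.inr hx, h2⟩
      · obtain ⟨x, hx, h2⟩ := hmem a' b' hab' h1
        exact ⟨x, Or.inl hx, h2⟩
    have h := isGeneric_isCoprime (genF_h13 (n := n) (colD a b) a' b')
      (genF_h13 (n := n) (colD a b) c d) n n (genF_natDegree_h13 _ _ _) (genF_natDegree_h13 _ _ _)
      (ptx_h13 lam x) (hlead x a' b' hxa hxb hab') (by
        rw [spec_genF_h13, spec_genF_h13, ptx_comp_h13 hn lam hxa hxb, gdif_ptx_h13 hn,
          gdif_ptx_h13 hn]
        apply isCoprime_bin_h13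
        exact det_h13 lam hlam hab' hcd hne hx)
    refine h.mono fun K _ u hu => ?_
    have := hu.2
    rwa [spec_genF_h13, spec_genF_h13] at this
  -- the double root
  have G4 : IsGeneric (fun (K : Type) [Field K] (u : ι × Fin (n + 1) → K) =>
      (spec u (genG_h13 (n := n) a b)).Separable) := by
    have h := isGeneric_separable (genG_h13 (n := n) a b) (n - 2) (genG_natDegree_h13 _ _)
      (pta_h13 a) (by
        rw [spec_genG_h13 hn hab, coeff_add, coeff_C_mul_X_pow, if_pos rfl, coeff_C]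
        split_ifs <;> norm_num) (by
        rw [spec_genG_h13 hn hab]
        exact separable_bin_h13 _ one_ne_zero one_ne_zero (fun _ => by norm_num))
    exact h.mono fun K _ u hu => hu.2
  have G5 : IsGeneric (fun (K : Type) [Field K] (u : ι × Fin (n + 1) → K) =>
      (spec u (genG_h13 (n := n) a b)).coeff 0 ≠ 0) := by
    have h := isGeneric_ne ((genG_h13 (n := n) a b).coeff 0) ⟨pta_h13 a, by
      rw [← spec_coeff_h13, spec_genG_h13 hn hab, coeff_add, coeff_C_mul_X_pow, coeff_C, if_pos rfl]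
      split_ifs <;> norm_num⟩
    refine h.mono fun K _ u hu => ?_
    rw [spec_coeff_h13]
    exact hu
  refine (((G1.and G2).and G3).and (G4.and G5)).mono fun K _ u hu => ?_
  obtain ⟨⟨⟨h1, h2⟩, h3⟩, h4, h5⟩ := hu
  refine ⟨fun c d hcd => h1 (c, d) hcd, fun c d hcd hcd' => h2 (c, d) ⟨hcd, hcd'⟩,
    fun a' b' c d hab' hcd hne => h3 ((a', b'), (c, d)) ⟨hab', hcd, hne⟩,
    ⟨spec u (genG_h13 (n := n) a b), ?_, ?_, h4⟩⟩
  · rw [← spec_genF_h13, genF_eq_h13 hn hab, C_0, sub_zero]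
    unfold spec
    rw [Polynomial.map_mul, Polynomial.map_pow, map_X]
  · rwa [← coeff_zero_eq_eval_zero]

/-- The families of type D modulo `p ^ 2`. -/
def TypeDz (p : ℕ) (a b : ι) (w : ι × Fin (n + 1) → ZMod (p ^ 2)) : Prop :=
  ∃ z : ZMod (p ^ 2),
    GenD a b (redp p w) (ZMod.castHom (dvd_pow_self p two_ne_zero) (ZMod p) z) ∧
      (gdif w a b).eval z ≠ 0

theorem redp_update_h21 {p : ℕ} {κ : Type} [DecidableEq κ] (w : κ → ZMod (p ^ 2)) (c : κ) :
    redp p (Function.update w c (w c + (p : ZMod (p ^ 2)))) = redp p w := by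
  funext d
  unfold redp
  by_cases h : d = c
  · subst h
    rw [Function.update_self, map_add, map_natCast, ZMod.natCast_self, add_zero]
  · rw [Function.update_of_ne h]

theorem gdif_update_h21 {R : Type} [CommRing R] (w : ι × Fin (n + 1) → R) {a b : ι} (hab : a ≠ b)
    (y : R) : gdif (Function.update w (a, 0) (w (a, 0) + y)) a b = gdif w a b + C y := by
  have ha : gpol (Function.update w (a, 0) (w (a, 0) + y)) a = gpol w a + C y := by
    unfold gpol
    rw [← Finset.add_sum_erase _ _ (Finset.mem_univ (0 : Fin (n + 1))),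
      ← Finset.add_sum_erase (s := Finset.univ) (a := (0 : Fin (n + 1)))
        (f := fun j : Fin (n + 1) => C (w (a, j)) * X ^ (j : ℕ)) (h := Finset.mem_univ _)]
    have h1 : ∑ x ∈ Finset.univ.erase (0 : Fin (n + 1)),
        C (Function.update w (a, 0) (w (a, 0) + y) (a, x)) * X ^ (x : ℕ) =
        ∑ x ∈ Finset.univ.erase (0 : Fin (n + 1)), C (w (a, x)) * X ^ (x : ℕ) := by
      refine Finset.sum_congr rfl fun x hx => ?_
      rw [Function.update_of_ne]
      intro h
      exact (Finset.mem_erase.1 hx).1 (congrArg Prod.snd h)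
    rw [h1, Function.update_self, Fin.val_zero, pow_zero, mul_one, mul_one, C_add]
    ring
  have hb : gpol (Function.update w (a, 0) (w (a, 0) + y)) b = gpol w b := by
    unfold gpol
    refine Finset.sum_congr rfl fun x _ => ?_
    rw [Function.update_of_ne]
    intro h
    exact hab (congrArg Prod.fst h).symm
  unfold gdif
  rw [ha, hb]
  ring

theorem colD_colD_h21 {a b : ι} (hab : a ≠ b) (c : ι × Fin (n + 1)) :
    colD a b (colD a b c) = colD a b c := by
  have h : ∀ j : Fin (n + 1), colD a b (a, j) = (a, j) := by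
    intro j
    unfold colD
    rw [if_neg (fun h => hab (congrArg Prod.fst h)), if_neg (fun h => hab (congrArg Prod.fst h))]
  by_cases h1 : c = (b, 0)
  · have : colD a b c = (a, 0) := by
      unfold colD
      rw [if_pos h1]
    rw [this, h]
  · by_cases h2 : c = (b, 1)
    · have : colD a b c = (a, 1) := by
        unfold colD
        rw [if_neg h1, if_pos h2]
      rw [this, h]
    · have : colD a b c = c := by
        unfold colD
        rw [if_neg h1, if_neg h2]
      rw [this, this]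

/-- If `w` lifts a good family modulo `p` but is not of type D, then `w + p` at the constant
coefficient of `α_a` is: take any lift `z`; `(gdif w a b).eval z = 0`, and it becomes `p ≠ 0`. -/
theorem TypeDz.flip {p : ℕ} (hp : p.Prime) {a b : ι} (hab : a ≠ b)
    (w : ι × Fin (n + 1) → ZMod (p ^ 2)) (h : ∃ z, GenD a b (redp p w) z)
    (hw : ¬ TypeDz p a b w) :
    TypeDz p a b (Function.update w (a, 0) (w (a, 0) + (p : ZMod (p ^ 2)))) := by
  obtain ⟨z, hz⟩ := h
  obtain ⟨y, rfl⟩ := ZMod.castHom_surjective (dvd_pow_self p two_ne_zero) z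
  have h0 : (gdif w a b).eval y = 0 := by
    by_contra hne
    exact hw ⟨y, hz, hne⟩
  refine ⟨y, ?_, ?_⟩
  · rw [redp_update_h21]
    exact hz
  · rw [gdif_update_h21 w hab, eval_add, eval_C, h0, zero_add]
    intro h1
    have h2 : p ^ 2 ∣ p := (ZMod.natCast_eq_zero_iff p (p ^ 2)).1 h1
    have h3 := Nat.le_of_dvd hp.pos h2
    have h4 := hp.two_le
    nlinarith

/-- From the residues modulo `p ^ 2` to the integers. -/
theorem TypeD.of_z {p : ℕ} (hp : p.Prime) {a b : ι} {v : ι × Fin (n + 1) → ℤ}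
    (h : TypeDz p a b (fun c => (v c : ZMod (p ^ 2)))) : TypeD p a b v := by
  obtain ⟨y, hy, hy2⟩ := h
  have hred : redp p (fun c => (v c : ZMod (p ^ 2))) = fun c => (v c : ZMod p) := by
    funext c
    exact map_intCast _ _
  rw [hred] at hy
  have hg : ∀ c d, gdif (fun c => (v c : ZMod p)) c d = gred p v c d := by
    intro c d
    exact (gdif_map (Int.castRingHom (ZMod p)) v c d).symm
  have hg2 : gdif (fun c => (v c : ZMod (p ^ 2))) a b =
      (gdif v a b).map (Int.castRingHom (ZMod (p ^ 2))) :=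
    (gdif_map (Int.castRingHom (ZMod (p ^ 2))) v a b).symm
  obtain ⟨m, rfl⟩ := ZMod.intCast_surjective y
  have hm : (ZMod.castHom (dvd_pow_self p two_ne_zero) (ZMod p)) (m : ZMod (p ^ 2)) =
      (m : ZMod p) := map_intCast _ _
  rw [hm] at hy
  refine ⟨?_, ?_, ?_, ?_⟩
  · intro c d hcd hdvd
    apply hy.lead c d hcd
    have h1 := (ZMod.intCast_zmod_eq_zero_iff_dvd _ p).2 hdvd
    rw [Int.cast_sub, sub_eq_zero] at h1
    exact h1
  · intro c d hcd hne
    rw [← hg]
    exact hy.sep c d hcd hne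
  · intro a' b' c d h1 h2 h3
    rw [← hg, ← hg]
    exact hy.cop a' b' c d h1 h2 h3
  · obtain ⟨g, hg1, hg3, hg4⟩ := hy.dbl
    rw [hg] at hg1
    refine ⟨m, ?_, ?_, g, hg1, hg3, hg4⟩
    · rw [← ZMod.intCast_zmod_eq_zero_iff_dvd]
      have h1 : (gred p v a b).eval (m : ZMod p) = (((gdif v a b).eval m : ℤ) : ZMod p) := by
        rw [gred, eval_intCast_map]
        rfl
      rw [← h1, hg1, eval_mul, eval_pow, eval_sub, eval_X, eval_C, sub_self]
      ring
    · intro hdvd
      apply hy2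
      have h1 : ((p ^ 2 : ℕ) : ℤ) ∣ (gdif v a b).eval m := by
        rw [Nat.cast_pow]
        exact hdvd
      rw [← ZMod.intCast_zmod_eq_zero_iff_dvd] at h1
      rw [hg2, eval_intCast_map]
      exact h1

/-- The count (`count_scheme`). -/
theorem count_typeD [Fintype ι] (hn : 2 ≤ n) {a b : ι} (hab : a ≠ b) :
    ∃ P₀ : ℕ, ∀ p : ℕ, p.Prime → P₀ ≤ p →
      (1 / 4 : ℝ) / p * ((p ^ 2 : ℕ) : ℝ) ^ Fintype.card (ι × Fin (n + 1)) ≤
        ({w : ι × Fin (n + 1) → ZMod (p ^ 2) | TypeDz p a b w}).ncard := by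
  obtain ⟨Δ, hΔ, h0⟩ := isGeneric_genD (ι := ι) (n := n) hn hab
  refine count_scheme (colD a b) (b, 0) (b, 1) (a, 0) (colD_colD_h21 hab) ?_ Δ hΔ
    (fun p u z => GenD a b u z) ?_ ?_ ?_ (fun p => {w | TypeDz p a b w}) ?_
  · intro c h1 h2
    unfold colD
    rw [if_neg h1, if_neg h2]
  · intro p hp u z
    haveI : Fact p.Prime := ⟨hp⟩
    exact GenD.shift_iff a b u z
  · intro p hp u z z' h h'
    haveI : Fact p.Prime := ⟨hp⟩
    exact h.unique h'
  · intro p hp u hu
    haveI : Fact p.Prime := ⟨hp⟩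
    exact h0 (ZMod p) u hu
  · intro p hp w hz hw
    exact TypeDz.flip hp hab w hz hw

end

end Pool.Agent.Lib.MP_89bcae_ag

end

section

/-!
# The scheme of the counting with one collapsed coordinate
-/

open Polynomial

open scoped Classical

namespace Pool.Agent.Lib.MP_89bcae_ag

section

variable {κ : Type} [Fintype κ]

/-- As `count_collapse`, with one collapsed coordinate: `u ↦ (u c₁, u ∘ s)` is injective. -/
theorem count_collapse1 {p : ℕ} [Fact p.Prime] (s : κ → κ) (c₁ : κ)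
    (hs' : ∀ c, c ≠ c₁ → s c = c) (P : (κ → ZMod p) → Prop) :
    ({u : κ → ZMod p | P (u ∘ s)}).ncard ≤ p * ({u : κ → ZMod p | P u}).ncard := by
  have h1 : ((Set.univ : Set (ZMod p)) ×ˢ ({u : κ → ZMod p | P u})).ncard =
      p * ({u : κ → ZMod p | P u}).ncard := by
    rw [Set.ncard_prod, Set.ncard_univ, Nat.card_zmod]
  rw [← h1]
  refine Set.ncard_le_ncard_of_injOn (fun u => (u c₁, u ∘ s)) ?_ ?_ (Set.toFinite _)
  · intro u hu
    exact ⟨Set.mem_univ _, hu⟩
  · intro u _ u' _ h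
    have h2 : u c₁ = u' c₁ := congrArg (fun t => t.1) h
    have h4 : u ∘ s = u' ∘ s := congrArg (fun t => t.2) h
    funext c
    by_cases hc1 : c = c₁
    · rw [hc1]
      exact h2
    · have h5 := congrFun h4 c
      simp only [Function.comp_apply] at h5
      rwa [hs' c hc1] at h5

/-- **The scheme of the counting, with one collapsed coordinate.** With `N = card κ`: `count_zeros`
gives `#{u | Δ(u) ≠ 0} ≥ p ^ N - D p ^ (N - 1)`; by `count_collapse1` `p #{u | Gen p u} ≥
#{u | Δ(u) ≠ 0}`; by `half_lift` `2 #G ≥ #{u | Gen p u} p ^ N`. Together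
`2 p #G ≥ p ^ N (p ^ N - D p ^ (N - 1)) ≥ p ^ (2 N) / 2` for `p ≥ 2 D`. -/
theorem count_scheme1 (s : κ → κ) (c₁ c : κ)
    (hs' : ∀ c, c ≠ c₁ → s c = c)
    (Δ : MvPolynomial κ ℤ) (hΔ : Δ ≠ 0)
    (Gen : ∀ p : ℕ, (κ → ZMod p) → Prop)
    (h0 : ∀ p : ℕ, p.Prime → ∀ u : κ → ZMod p, MvPolynomial.aeval u Δ ≠ 0 → Gen p (u ∘ s))
    (G : ∀ p : ℕ, Set (κ → ZMod (p ^ 2)))
    (hG : ∀ p : ℕ, p.Prime → ∀ w, Gen p (redp p w) → w ∉ G p →
      Function.update w c (w c + (p : ZMod (p ^ 2))) ∈ G p) :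
    ∃ P₀ : ℕ, ∀ p : ℕ, p.Prime → P₀ ≤ p →
      (1 / 4 : ℝ) / p * ((p ^ 2 : ℕ) : ℝ) ^ Fintype.card κ ≤ (G p).ncard := by
  obtain ⟨P₁, D, hD⟩ := count_zeros Δ hΔ
  refine ⟨max P₁ (2 * D), fun p hp hpP => ?_⟩
  have : Fact p.Prime := ⟨hp⟩
  have hpos : 0 < p := hp.pos
  set N := Fintype.card κ with hN
  -- the nonzeros of the polynomial
  set Z : Set (κ → ZMod p) := {u | MvPolynomial.aeval u Δ = 0} with hZ
  set A : Set (κ → ZMod p) := {u | Gen p (u ∘ s)} with hA
  set B : Set (κ → ZMod p) := {u | Gen p u} with hB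
  have h1 : Z.ncard * p ≤ D * p ^ N := hD p hp ((le_max_left _ _).trans hpP)
  have h2 : Zᶜ.ncard + Z.ncard = p ^ N := by
    rw [add_comm, Set.ncard_add_ncard_compl, Nat.card_eq_fintype_card, Fintype.card_fun,
      ZMod.card]
  have h3 : Zᶜ.ncard ≤ A.ncard := Set.ncard_le_ncard (fun u hu => h0 p hp u hu) (Set.toFinite _)
  have h4 : A.ncard ≤ p * B.ncard := count_collapse1 s c₁ hs' (fun u => Gen p u)
  have h6 : B.ncard * p ^ N ≤ 2 * (G p).ncard :=
    half_lift hp B c (G p) (fun w hw hwG => by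
      have h := hG p hp w hw hwG
      have e : ∀ (d1 d2 : DecidableEq κ),
          @Function.update _ _ d1 w c (w c + (p : ZMod (p ^ 2))) =
            @Function.update _ _ d2 w c (w c + (p : ZMod (p ^ 2))) := fun d1 d2 => by
        rw [Subsingleton.elim d1 d2]
      exact (e _ _) ▸ h)
  -- the estimates
  have hp2D : 2 * D ≤ p := (le_max_right _ _).trans hpP
  have hpR : (0 : ℝ) < p := by exact_mod_cast hpos
  have h1' : (Z.ncard : ℝ) * p ≤ D * (p : ℝ) ^ N := by exact_mod_cast h1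
  have h2' : (Zᶜ.ncard : ℝ) + Z.ncard = (p : ℝ) ^ N := by exact_mod_cast h2
  have h34 : (Zᶜ.ncard : ℝ) ≤ (p : ℝ) * B.ncard := by exact_mod_cast h3.trans h4
  have h6' : (B.ncard : ℝ) * (p : ℝ) ^ N ≤ 2 * (G p).ncard := by exact_mod_cast h6
  have hD' : 2 * (D : ℝ) ≤ p := by exact_mod_cast hp2D
  have hpN : (0 : ℝ) < (p : ℝ) ^ N := pow_pos hpR N
  -- `2 #Z ≤ p ^ N`
  have h7 : 2 * (Z.ncard : ℝ) ≤ (p : ℝ) ^ N := by
    have h8 : 2 * (Z.ncard : ℝ) * p ≤ (p : ℝ) ^ N * p := by
      calc 2 * (Z.ncard : ℝ) * p = 2 * ((Z.ncard : ℝ) * p) := by ring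
        _ ≤ 2 * (D * (p : ℝ) ^ N) := by linarith
        _ = (2 * (D : ℝ)) * (p : ℝ) ^ N := by ring
        _ ≤ p * (p : ℝ) ^ N := mul_le_mul_of_nonneg_right hD' hpN.le
        _ = (p : ℝ) ^ N * p := by ring
    exact le_of_mul_le_mul_right h8 hpR
  -- `p ^ N ≤ 2 p #B`
  have h9 : (p : ℝ) ^ N ≤ 2 * ((p : ℝ) * B.ncard) := by linarith
  have h10 : (p : ℝ) ^ N * (p : ℝ) ^ N ≤ 4 * (p * (G p).ncard) := by
    calc (p : ℝ) ^ N * (p : ℝ) ^ N ≤ 2 * ((p : ℝ) * B.ncard) * (p : ℝ) ^ N :=
          mul_le_mul_of_nonneg_right h9 hpN.le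
      _ = 2 * p * ((B.ncard : ℝ) * (p : ℝ) ^ N) := by ring
      _ ≤ 2 * p * (2 * (G p).ncard) := mul_le_mul_of_nonneg_left h6' (by positivity)
      _ = 4 * (p * (G p).ncard) := by ring
  have h11 : (((p ^ 2 : ℕ) : ℝ)) ^ N = (p : ℝ) ^ N * (p : ℝ) ^ N := by
    push_cast
    rw [← pow_mul, mul_comm 2 N, pow_mul, sq]
  rw [h11]
  calc (1 / 4 : ℝ) / p * ((p : ℝ) ^ N * (p : ℝ) ^ N)
      ≤ (1 / 4 : ℝ) / p * (4 * (p * (G p).ncard)) :=
        mul_le_mul_of_nonneg_left h10 (by positivity)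
    _ = (G p).ncard := by field_simp

end

end Pool.Agent.Lib.MP_89bcae_ag

end

section

/-!
# The generic condition of type K
-/

open Polynomial

open scoped Classical

namespace Pool.Agent.Lib.MP_89bcae_ag

section

variable {ι : Type} {n : ℕ} {K : Type}

/-- Exactly one root of `α_a - α_b` at infinity: the conditions over a field. -/
structure GenK [CommRing K] (a b : ι) (u : ι × Fin (n + 1) → K) : Prop where
  lead : ∀ c d, c ≠ d → ({c, d} : Set ι) ≠ {a, b} → u (c, Fin.last n) ≠ u (d, Fin.last n)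
  eq : u (a, Fin.last n) = u (b, Fin.last n)
  deg : (gdif u a b).natDegree + 1 = n
  sep : ∀ c d, c ≠ d → (gdif u c d).Separable
  cop : ∀ a' b' c d, a' ≠ b' → c ≠ d → ({a', b'} : Set ι) ≠ {c, d} →
    IsCoprime (gdif u a' b') (gdif u c d)

/-- The coefficient of degree `n` of `α_b` is replaced by that of `α_a`. -/
noncomputable def colK (a b : ι) : ι × Fin (n + 1) → ι × Fin (n + 1) :=
  fun c => if c = (b, Fin.last n) then (a, Fin.last n) else c

lemma colK_last_h45 (a b : ι) : colK a b (b, Fin.last n) = (a, Fin.last n) := by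
  unfold colK
  rw [if_pos rfl]

lemma colK_of_ne_h45 (a b : ι) {c : ι × Fin (n + 1)} (hc : c ≠ (b, Fin.last n)) :
    colK a b c = c := by
  unfold colK
  rw [if_neg hc]

lemma colK_left_h45 {a b : ι} (hab : a ≠ b) (j : Fin (n + 1)) : colK a b (a, j) = (a, j) :=
  colK_of_ne_h45 a b fun h => hab (congrArg Prod.fst h)

lemma colK_colK_h45 {a b : ι} (hab : a ≠ b) (c : ι × Fin (n + 1)) :
    colK a b (colK a b c) = colK a b c := by
  by_cases h : c = (b, Fin.last n)
  · rw [h, colK_last_h45, colK_left_h45 hab]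
  · rw [colK_of_ne_h45 a b h, colK_of_ne_h45 a b h]

/-- The points with equal coordinates at `(a, n)` and `(b, n)` are fixed. -/
lemma comp_colK_h45 {a b : ι} (u : ι × Fin (n + 1) → K)
    (h : u (a, Fin.last n) = u (b, Fin.last n)) : u ∘ colK a b = u := by
  funext c
  rw [Function.comp_apply]
  by_cases hc : c = (b, Fin.last n)
  · rw [hc, colK_last_h45, h]
  · rw [colK_of_ne_h45 a b hc]

/-- The pairs: if `{c, d} ≠ {a, b}` then the indices `c`, `d` remain different when `b` is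
replaced by `a`. -/
lemma pair_ne_h45 {a b c d : ι} (hcd : c ≠ d) (h : ({c, d} : Set ι) ≠ {a, b}) :
    (if c = b then a else c) ≠ (if d = b then a else d) := by
  by_cases h1 : c = b
  · rw [if_pos h1]
    have h2 : d ≠ b := fun h3 => hcd (h1.trans h3.symm)
    rw [if_neg h2]
    intro h3
    apply h
    rw [h1, ← h3, Set.pair_comm]
  · rw [if_neg h1]
    by_cases h2 : d = b
    · rw [if_pos h2]
      intro h3
      apply h
      rw [h2, h3]
    · rw [if_neg h2]
      exact hcd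

/-- The family `α_a = X ^ (n - 1) + 1`, the other polynomials being zero. -/
noncomputable def ptk_h45 (a : ι) : ι × Fin (n + 1) → ℚ :=
  fun y => if y.1 = a then (if (y.2 : ℕ) + 1 = n then 1 else 0) + (if (y.2 : ℕ) = 0 then 1 else 0)
    else 0

lemma gdif_ptk_h45 (hn : 2 ≤ n) {a b : ι} (hab : a ≠ b) :
    gdif (ptk_h45 a : ι × Fin (n + 1) → ℚ) a b = C 1 * X ^ (n - 1) + C 1 := by
  have h1 : gpol (ptk_h45 a : ι × Fin (n + 1) → ℚ) a = C 1 * X ^ (n - 1) + C 1 := by
    apply gpol_eq_of_coeff_h13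
    · refine (natDegree_add_le _ _).trans (max_le ((natDegree_C_mul_X_pow_le _ _).trans ?_) ?_)
      · omega
      · rw [natDegree_C]
        omega
    · intro j
      rw [coeff_add, coeff_C_mul_X_pow, coeff_C]
      unfold ptk_h45
      simp only
      rw [if_pos trivial]
      congr 1
      by_cases h : (j : ℕ) = n - 1
      · rw [if_pos h, if_pos (by omega)]
      · rw [if_neg h, if_neg (by omega)]
  have h2 : gpol (ptk_h45 a : ι × Fin (n + 1) → ℚ) b = 0 := by
    apply gpol_eq_of_coeff_h13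
    · rw [natDegree_zero]
      exact Nat.zero_le _
    · intro j
      unfold ptk_h45
      rw [if_neg (fun h => hab h.symm), coeff_zero]
  rw [gdif, h1, h2, sub_zero]

lemma genF_colK_natDegree_h45 {a b : ι} (hab : a ≠ b) :
    (genF_h13 (n := n) (colK a b) a b).natDegree ≤ n - 1 := by
  rw [natDegree_le_iff_coeff_eq_zero]
  intro N hN
  by_cases h : N = n
  · subst h
    have h := gdif_coeff_last_h13 (fun x : ι × Fin (N + 1) => MvPolynomial.X (R := ℤ) (colK a b x)) a b
    rw [colK_left_h45 hab, colK_last_h45, sub_self] at h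
    exact h
  · exact coeff_eq_zero_of_natDegree_lt
      (lt_of_le_of_lt (genF_natDegree_h13 (n := n) (colK a b) a b) (by omega))

/-- The generic condition. By `IsGeneric.all`, `IsGeneric.and`. (lead) `X_(c',n) - X_(d',n)`, `c'`, `d'`
the indices after the replacement of `b` by `a`. (deg) and (sep) for `{a, b}`: the polynomial has
formal degree `n - 1`; the point `α_a = X ^ (n - 1) + 1`. (sep) for `{c, d} ≠ {a, b}`: the point
`α_y = λ_y X ^ n` and `α_c = λ_c X ^ n + 1` with `λ_a = λ_b`. (cop) by symmetry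
`{a', b'} ≠ {a, b}`; there is `x ∈ {c, d}` not in `{a', b'}`: the point `α_x = λ_x X ^ n + 1`,
`α_y = λ_y X ^ n` for `y ≠ x`: `A X ^ n` and `A' X ^ n ± 1` are coprime. -/
theorem isGeneric_genK [Fintype ι] (hn : 2 ≤ n) {a b : ι} (hab : a ≠ b) :
    IsGeneric (fun (K : Type) [Field K] (u : ι × Fin (n + 1) → K) =>
      GenK a b (u ∘ colK a b)) := by
  obtain ⟨lam₀, hlam₀⟩ : ∃ lam : ι → ℚ, Function.Injective lam :=
    ⟨fun i => ((Fintype.equivFin ι i : ℕ) : ℚ), fun i j h => by
      have h0 : ((Fintype.equivFin ι i : ℕ) : ℚ) = ((Fintype.equivFin ι j : ℕ) : ℚ) := h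
      have h1 : (Fintype.equivFin ι i : ℕ) = (Fintype.equivFin ι j : ℕ) := by exact_mod_cast h0
      exact (Fintype.equivFin ι).injective (Fin.ext h1)⟩
  obtain ⟨lam, hlamab, hlam⟩ : ∃ lam : ι → ℚ, lam a = lam b ∧ ∀ c d, c ≠ d →
      ({c, d} : Set ι) ≠ {a, b} → lam c - lam d ≠ 0 := by
    refine ⟨fun i => lam₀ (if i = b then a else i), ?_, ?_⟩
    · beta_reduce
      rw [if_neg hab, if_pos rfl]
    · intro c d hcd h h0
      exact pair_ne_h45 hcd h (hlam₀ (sub_eq_zero.1 h0))
  -- the points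
  have hpt : ∀ x : ι, (ptx_h13 lam x : ι × Fin (n + 1) → ℚ) ∘ colK a b = ptx_h13 lam x := by
    intro x
    apply comp_colK_h45
    unfold ptx_h13
    rw [if_pos rfl, if_pos rfl]
    exact hlamab
  -- the leading coefficients
  have G1 : IsGeneric (fun (K : Type) [Field K] (u : ι × Fin (n + 1) → K) =>
      ∀ t : ι × ι, (t.1 ≠ t.2 ∧ ({t.1, t.2} : Set ι) ≠ {a, b}) →
        (u ∘ colK a b) (t.1, Fin.last n) ≠ (u ∘ colK a b) (t.2, Fin.last n)) := by
    apply IsGeneric.all
    intro t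
    apply isGeneric_imp_h13
    rintro ⟨ht, ht'⟩
    have h := isGeneric_ne (κ := ι × Fin (n + 1))
      (MvPolynomial.X (colK a b (t.1, Fin.last n)) - MvPolynomial.X (colK a b (t.2, Fin.last n)))
      ⟨ptx_h13 lam a, by
        rw [map_sub, MvPolynomial.aeval_X, MvPolynomial.aeval_X]
        have h1 := congrFun (hpt a) (t.1, Fin.last n)
        have h2 := congrFun (hpt a) (t.2, Fin.last n)
        rw [Function.comp_apply] at h1 h2
        rw [h1, h2]
        unfold ptx_h13
        rw [if_pos rfl, if_pos rfl]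
        exact hlam _ _ ht ht'⟩
    refine h.mono fun K _ u hu => ?_
    rw [map_sub, MvPolynomial.aeval_X, MvPolynomial.aeval_X] at hu
    exact sub_ne_zero.1 hu
  -- the value of the leading coefficient at the points
  have hlead : ∀ x c d : ι, c ≠ d → ({c, d} : Set ι) ≠ {a, b} →
      (spec (ptx_h13 lam x) (genF_h13 (n := n) (colK a b) c d)).coeff n ≠ 0 := by
    intro x c d hcd h
    rw [spec_genF_h13, hpt, gdif_ptx_h13 hn, coeff_add, coeff_C_mul_X_pow,
      if_pos rfl, coeff_C, if_neg (by omega), add_zero]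
    exact hlam c d hcd h
  -- separability
  have G2 : IsGeneric (fun (K : Type) [Field K] (u : ι × Fin (n + 1) → K) =>
      ∀ t : ι × ι, (t.1 ≠ t.2 ∧ ({t.1, t.2} : Set ι) ≠ {a, b}) →
        (gdif (u ∘ colK a b) t.1 t.2).Separable) := by
    apply IsGeneric.all
    rintro ⟨c, d⟩
    apply isGeneric_imp_h13
    rintro ⟨hcd, hcd'⟩
    simp only at hcd hcd' ⊢
    have h := isGeneric_separable (genF_h13 (n := n) (colK a b) c d) n (genF_natDegree_h13 _ _ _)
      (ptx_h13 lam c) (hlead c c d hcd hcd') (by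
        rw [spec_genF_h13, hpt, gdif_ptx_h13 hn, if_pos rfl, if_neg hcd.symm, sub_zero]
        exact separable_bin_h13 n (hlam c d hcd hcd') one_ne_zero (fun h => absurd h (by omega)))
    refine h.mono fun K _ u hu => ?_
    have := hu.2
    rwa [spec_genF_h13] at this
  -- the pair `a`, `b`
  have G3 : IsGeneric (fun (K : Type) [Field K] (u : ι × Fin (n + 1) → K) =>
      (gdif (u ∘ colK a b) a b).coeff (n - 1) ≠ 0 ∧ (gdif (u ∘ colK a b) a b).Separable) := by
    have hp : (ptk_h45 a : ι × Fin (n + 1) → ℚ) ∘ colK a b = ptk_h45 a := by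
      apply comp_colK_h45
      unfold ptk_h45
      simp only [Fin.val_last]
      rw [if_neg (show b ≠ a from fun h => hab h.symm), if_pos trivial, if_neg (by omega),
        if_neg (by omega), add_zero]
    have h := isGeneric_separable (genF_h13 (n := n) (colK a b) a b) (n - 1)
      (genF_colK_natDegree_h45 hab) (ptk_h45 a) (by
        rw [spec_genF_h13, hp, gdif_ptk_h45 hn hab, coeff_add, coeff_C_mul_X_pow, if_pos rfl,
          coeff_C, if_neg (by omega), add_zero]
        exact one_ne_zero) (by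
        rw [spec_genF_h13, hp, gdif_ptk_h45 hn hab]
        exact separable_bin_h13 _ one_ne_zero one_ne_zero (fun h => absurd h (by omega)))
    refine h.mono fun K _ u hu => ?_
    rwa [spec_genF_h13] at hu
  -- coprimality
  have G4 : IsGeneric (fun (K : Type) [Field K] (u : ι × Fin (n + 1) → K) =>
      ∀ t : (ι × ι) × (ι × ι), (t.1.1 ≠ t.1.2 ∧ t.2.1 ≠ t.2.2 ∧
        ({t.1.1, t.1.2} : Set ι) ≠ {t.2.1, t.2.2} ∧ ({t.1.1, t.1.2} : Set ι) ≠ {a, b}) →
        IsCoprime (gdif (u ∘ colK a b) t.1.1 t.1.2) (gdif (u ∘ colK a b) t.2.1 t.2.2)) := by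
    apply IsGeneric.all
    rintro ⟨⟨a', b'⟩, ⟨c, d⟩⟩
    apply isGeneric_imp_h13
    rintro ⟨hab', hcd, hne, hne'⟩
    simp only at hab' hcd hne hne' ⊢
    -- an index of the second pair which is not in the first one
    obtain ⟨x, hx, hxa, hxb⟩ : ∃ x, (x = c ∨ x = d) ∧ x ≠ a' ∧ x ≠ b' := by
      by_contra hcon
      push Not at hcon
      apply hne
      have h1 := hcon c (Or.inl rfl)
      have h2 := hcon d (Or.inr rfl)
      by_cases hca : c = a'
      · have hda : d ≠ a' := fun h3 => hcd (hca.trans h3.symm)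
        rw [hca, h2 hda]
      · have hcb := h1 hca
        by_cases hda : d = a'
        · rw [hcb, hda, Set.pair_comm]
        · exact absurd (hcb.trans (h2 hda).symm) hcd
    have h := isGeneric_isCoprime (genF_h13 (n := n) (colK a b) a' b')
      (genF_h13 (n := n) (colK a b) c d) n n (genF_natDegree_h13 _ _ _) (genF_natDegree_h13 _ _ _)
      (ptx_h13 lam x) (hlead x a' b' hab' hne') (by
        rw [spec_genF_h13, spec_genF_h13, hpt, gdif_ptx_h13 hn, gdif_ptx_h13 hn]
        apply isCoprime_bin_h13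
        rw [if_neg hxa.symm, if_neg hxb.symm, sub_self, mul_zero, sub_zero]
        refine mul_ne_zero (hlam a' b' hab' hne') ?_
        rcases hx with h2 | h2
        · have h3 : d ≠ x := fun h => hcd (h2.symm.trans h.symm)
          rw [if_pos h2.symm, if_neg h3]
          norm_num
        · have h3 : c ≠ x := fun h => hcd (h.trans h2)
          rw [if_neg h3, if_pos h2.symm]
          norm_num)
    refine h.mono fun K _ u hu => ?_
    have := hu.2
    rwa [spec_genF_h13, spec_genF_h13] at this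
  refine (((G1.and G2).and G3).and G4).mono fun K _ u hu => ?_
  obtain ⟨⟨⟨h1, h2⟩, h3, h4⟩, h5⟩ := hu
  have hlast : (u ∘ colK a b) (a, Fin.last n) = (u ∘ colK a b) (b, Fin.last n) := by
    rw [Function.comp_apply, Function.comp_apply, colK_left_h45 hab, colK_last_h45]
  have hsym : ∀ (w : ι × Fin (n + 1) → K) (c d : ι), (gdif w c d).Separable →
      (gdif w d c).Separable := by
    intro w c d h
    have h6 : gdif w d c = C (-1) * gdif w c d := by
      rw [gdif_swap w c d]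
      simp
    rw [h6]
    exact Separable.unit_mul (isUnit_C.2 (by simp)) h
  refine ⟨fun c d hcd hcd' => h1 (c, d) ⟨hcd, hcd'⟩, hlast, ?_, ?_, ?_⟩
  · have h6 : (gdif (u ∘ colK a b) a b).natDegree ≤ n - 1 := by
      rw [natDegree_le_iff_coeff_eq_zero]
      intro N hN
      by_cases h : N = n
      · subst h
        rw [gdif_coeff_last_h13, hlast, sub_self]
      · exact coeff_eq_zero_of_natDegree_lt (lt_of_le_of_lt (gdif_natDegree_le _ _ _) (by omega))
    have h7 := le_natDegree_of_ne_zero h3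
    omega
  · intro c d hcd
    by_cases hcd' : ({c, d} : Set ι) = {a, b}
    · rcases Set.pair_eq_pair_iff.1 hcd' with ⟨rfl, rfl⟩ | ⟨rfl, rfl⟩
      · exact h4
      · exact hsym _ _ _ h4
    · exact h2 (c, d) ⟨hcd, hcd'⟩
  · intro a' b' c d hab' hcd hne
    by_cases h6 : ({a', b'} : Set ι) = {a, b}
    · refine (h5 ((c, d), (a', b')) ⟨hcd, hab', hne.symm, fun h7 => hne (h6.trans h7.symm)⟩).symm
    · exact h5 ((a', b'), (c, d)) ⟨hab', hcd, hne, h6⟩

end

end Pool.Agent.Lib.MP_89bcae_ag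

end

section

/-!
# The values of a homomorphism of type `CopyV`, and the criterion
-/

open Polynomial

open scoped Classical

namespace Pool.Agent.Lib.MP_89bcae_ag

open Superelliptic

universe u

variable {k F : Type u} [Field k] [Field F] [Algebra k F] {ι : Type} [Fintype ι] [LinearOrder ι]
  {n : ℕ}

omit [Fintype ι] [LinearOrder ι] in
/-- The factorisation. (`nd i j` gives `n` different roots and the degree is `n`.) -/
theorem Nodes.prod_eq {α : ι → k[X]} {nd : ι → ι → Fin n → F} (h : Nodes α nd) {i j : ι}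
    (hij : i ≠ j) (hne : α i ≠ α j) :
    (α i - α j).map (algebraMap k F) =
      C (algebraMap k F (α i - α j).leadingCoeff) * ∏ a, (X - C (nd i j a)) := by
  have hf0 : (α i - α j).map (algebraMap k F) ≠ 0 := by
    rw [Polynomial.map_ne_zero_iff (algebraMap k F).injective]
    exact sub_ne_zero.2 hne
  have hnd : ((Finset.univ : Finset (Fin n)).val.map (nd i j)).Nodup :=
    Finset.univ.nodup.map (h.inj i j hij)
  have hle : (Finset.univ : Finset (Fin n)).val.map (nd i j) ≤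
      ((α i - α j).map (algebraMap k F)).roots := by
    rw [Multiset.le_iff_subset hnd]
    intro s hs
    obtain ⟨a, -, rfl⟩ := Multiset.mem_map.1 hs
    rw [mem_roots hf0, IsRoot, eval_map, ← aeval_def, map_sub, sub_eq_zero]
    exact (h.mem i j hij _).2 ⟨a, rfl⟩
  have hcard : ((Finset.univ : Finset (Fin n)).val.map (nd i j)).card = n := by
    rw [Multiset.card_map]
    exact Finset.card_fin n
  have hdeg : ((α i - α j).map (algebraMap k F)).natDegree = n := by
    rw [natDegree_map]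
    exact h.lead i j hij
  have heq : (Finset.univ : Finset (Fin n)).val.map (nd i j) =
      ((α i - α j).map (algebraMap k F)).roots := by
    refine Multiset.eq_of_le_of_card_le hle ?_
    rw [hcard, ← hdeg]
    exact card_roots' _
  have h1 := C_leadingCoeff_mul_prod_multiset_X_sub_C
    (p := (α i - α j).map (algebraMap k F)) (by rw [← heq, hcard, hdeg])
  rw [← heq, Multiset.map_map, leadingCoeff_map] at h1
  exact h1.symm

/-- The leading coefficient is not zero (h45). -/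
theorem lc_ne_zero_h45 {α : ι → k[X]} (hα : IsArrangement α) {i j : ι} (hij : i ≠ j) :
    algebraMap k F (α i - α j).leadingCoeff ≠ 0 := by
  rw [map_ne_zero_iff _ (algebraMap k F).injective, leadingCoeff_ne_zero]
  intro h0
  apply hα.natDegree_ne_zero i j hij
  rw [h0, natDegree_zero]

/-- The value at `α_i(s) - α_l(s)`, `s = nd i j a`: it is
`ν(lc) + ∑_b ν(nd i j a - nd i l b) = B {i, l} + (B {i, j, l} - B {i, j} - B {i, l})`
(`Nodes.prod_eq` for `i, l`, evaluated at `s`; `IsVal.prod`, `IsVal.mul` in `K = ℚ(nodes)`, which contains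
`k` and the nodes; the differences are not zero because `s` is not a root of `α_i - α_l`, `nodes_pair`). -/
theorem CopyV.val_eq {A : Type*} [AddCommGroup A] {ν : F → A} {α : ι → k[X]}
    {nd : ι → ι → Fin n → F} {B : Finset ι → A} (h : CopyV ν α nd B) (hN : Nodes α nd)
    (hα : IsArrangement α)
    (hν : IsVal (IntermediateField.adjoin k (nodes k F α)).toSubfield ν) {i j l : ι} (hij : i ≠ j)
    (hjl : j ≠ l) (hil : i ≠ l) (a : Fin n) :
    ν (aeval (nd i j a) (α i) - aeval (nd i j a) (α l)) = B {i, j, l} - B {i, j} := by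
  have hne : α i ≠ α l := by
    intro h0
    apply hα.natDegree_ne_zero i l hil
    rw [h0, sub_self, natDegree_zero]
  have hs := (hN.mem i j hij (nd i j a)).2 ⟨a, rfl⟩
  have hK : ∀ x ∈ nodes k F α, x ∈ (IntermediateField.adjoin k (nodes k F α)).toSubfield :=
    fun x hx => IntermediateField.subset_adjoin k _ hx
  have hsK : nd i j a ∈ (IntermediateField.adjoin k (nodes k F α)).toSubfield :=
    hK _ ⟨i, j, hij, hs⟩
  have htK : ∀ b, nd i l b ∈ (IntermediateField.adjoin k (nodes k F α)).toSubfield :=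
    fun b => hK _ ⟨i, l, hil, (hN.mem i l hil (nd i l b)).2 ⟨b, rfl⟩⟩
  have hlcK : algebraMap k F (α i - α l).leadingCoeff ∈
      (IntermediateField.adjoin k (nodes k F α)).toSubfield :=
    (IntermediateField.adjoin k (nodes k F α)).algebraMap_mem _
  have hst : ∀ b, nd i j a - nd i l b ≠ 0 := by
    intro b hb
    have h1 := (hN.mem i l hil (nd i l b)).2 ⟨b, rfl⟩
    rw [← sub_eq_zero.1 hb] at h1
    have h2 := nodes_pair α hα hij hil hs h1
    have h3 : j ∈ ({i, l} : Set ι) := h2 ▸ (by simp)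
    rcases h3 with h3 | h3
    · exact hij h3.symm
    · exact hjl h3
  have h1 : aeval (nd i j a) (α i) - aeval (nd i j a) (α l) =
      algebraMap k F (α i - α l).leadingCoeff * ∏ b, (nd i j a - nd i l b) := by
    rw [← map_sub, aeval_def, ← eval_map, hN.prod_eq hil hne, eval_mul, eval_C, eval_prod]
    simp
  rw [h1, hν.mul _ hlcK _ (prod_mem fun b _ => sub_mem hsK (htK b)) (lc_ne_zero_h45 hα hil)
    (Finset.prod_ne_zero_iff.2 fun b _ => hst b),
    hν.prod _ _ (fun b _ => sub_mem hsK (htK b)) (fun b _ => hst b), h.lead i l hil]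
  have h2 : ∑ b, ν (nd i j a - nd i l b) = B {i, j, l} - B {i, j} - B {i, l} := by
    rw [Finset.sum_congr rfl fun b _ => h.adj i j l hij hjl hil a b, Finset.sum_ite_eq,
      if_pos (Finset.mem_univ a)]
    congr <;> exact Subsingleton.elim _ _
  have h3 : ∀ x y z : A, y + (x - z - y) = x - z := fun x y z => by abel
  rw [h2]
  refine Eq.trans ?_ (h3 _ (B {i, l}) _)
  congr
  exact Subsingleton.elim _ _

/-- The value at the derivative: `ν(lc) + ∑_{b ≠ a} ν(nd i j a - nd i j b) = B {i, j}`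
(the derivative at the root `nd i j a` of `Nodes.prod_eq`: `Polynomial.derivative_prod` or
`eval_derivative` of `C lc * (X - C s) * ∏_{b ≠ a}`). -/
theorem CopyV.der_eq {A : Type*} [AddCommGroup A] {ν : F → A} {α : ι → k[X]}
    {nd : ι → ι → Fin n → F} {B : Finset ι → A} (h : CopyV ν α nd B) (hN : Nodes α nd)
    (hα : IsArrangement α)
    (hν : IsVal (IntermediateField.adjoin k (nodes k F α)).toSubfield ν) {i j : ι} (hij : i ≠ j)
    (a : Fin n) :
    ν (aeval (nd i j a) (derivative (α i - α j))) = B {i, j} := by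
  have hne : α i ≠ α j := by
    intro h0
    apply hα.natDegree_ne_zero i j hij
    rw [h0, sub_self, natDegree_zero]
  have hK : ∀ x ∈ nodes k F α, x ∈ (IntermediateField.adjoin k (nodes k F α)).toSubfield :=
    fun x hx => IntermediateField.subset_adjoin k _ hx
  have htK : ∀ b, nd i j b ∈ (IntermediateField.adjoin k (nodes k F α)).toSubfield :=
    fun b => hK _ ⟨i, j, hij, (hN.mem i j hij (nd i j b)).2 ⟨b, rfl⟩⟩
  have hlcK : algebraMap k F (α i - α j).leadingCoeff ∈
      (IntermediateField.adjoin k (nodes k F α)).toSubfield :=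
    (IntermediateField.adjoin k (nodes k F α)).algebraMap_mem _
  have hst : ∀ b ∈ Finset.univ.erase a, nd i j a - nd i j b ≠ 0 := by
    intro b hb h0
    exact (Finset.mem_erase.1 hb).1 (hN.inj i j hij (sub_eq_zero.1 h0)).symm
  have h1 : aeval (nd i j a) (derivative (α i - α j)) =
      algebraMap k F (α i - α j).leadingCoeff *
        ∏ b ∈ Finset.univ.erase a, (nd i j a - nd i j b) := by
    rw [aeval_def, ← eval_map, ← derivative_map, hN.prod_eq hij hne,
      ← Finset.mul_prod_erase Finset.univ (fun b => X - C (nd i j b)) (Finset.mem_univ a),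
      derivative_mul, derivative_mul, derivative_C, derivative_sub, derivative_X, derivative_C]
    simp only [eval_add, eval_mul, eval_sub, eval_zero, eval_C, eval_X, eval_one, eval_prod]
    simp
  rw [h1, hν.mul _ hlcK _ (prod_mem fun b _ => sub_mem (htK a) (htK b)) (lc_ne_zero_h45 hα hij)
    (Finset.prod_ne_zero_iff.2 hst),
    hν.prod _ _ (fun b _ => sub_mem (htK a) (htK b)) hst, h.lead i j hij]
  rw [Finset.sum_eq_zero, add_zero]
  · congr
    exact Subsingleton.elim _ _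
  · intro b hb
    exact h.par i j hij a b (Ne.symm (Finset.mem_erase.1 hb).1)

end Pool.Agent.Lib.MP_89bcae_ag

end

section

/-!
# The number of the families of type K modulo `p ^ 2`
-/

open Polynomial

open scoped Classical

namespace Pool.Agent.Lib.MP_89bcae_ag

section

variable {ι : Type} {n : ℕ}

/-- The families of type K modulo `p ^ 2`. -/
def TypeKz (p : ℕ) (a b : ι) (w : ι × Fin (n + 1) → ZMod (p ^ 2)) : Prop :=
  GenK a b (redp p w) ∧ w (a, Fin.last n) ≠ w (b, Fin.last n)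

/-- If `w` lifts a good family modulo `p` but is not of type K, then `w + p` at the leading
coefficient of `α_a` is. -/
theorem TypeKz.flip {p : ℕ} (hp : p.Prime) {a b : ι} (hab : a ≠ b)
    (w : ι × Fin (n + 1) → ZMod (p ^ 2)) (h : GenK a b (redp p w)) (hw : ¬ TypeKz p a b w) :
    TypeKz p a b
      (Function.update w (a, Fin.last n) (w (a, Fin.last n) + (p : ZMod (p ^ 2)))) := by
  have h0 : w (a, Fin.last n) = w (b, Fin.last n) := by
    by_contra hne
    exact hw ⟨h, hne⟩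
  refine ⟨?_, ?_⟩
  · rw [redp_update_h21]
    exact h
  · rw [Function.update_self, Function.update_of_ne (fun h => hab (congrArg Prod.fst h).symm), ← h0]
    intro h1
    have h2 : (p : ZMod (p ^ 2)) = 0 := by
      have h3 : w (a, Fin.last n) + (p : ZMod (p ^ 2)) = w (a, Fin.last n) + 0 := by
        rw [h1, add_zero]
      exact add_left_cancel h3
    have h3 := Nat.le_of_dvd hp.pos ((ZMod.natCast_eq_zero_iff p (p ^ 2)).1 h2)
    have h4 := hp.two_le
    nlinarith

/-- From the residues modulo `p ^ 2` to the integers. -/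
theorem TypeK.of_z {p : ℕ} {a b : ι} {v : ι × Fin (n + 1) → ℤ}
    (h : TypeKz p a b (fun c => (v c : ZMod (p ^ 2)))) : TypeK p a b v := by
  obtain ⟨hy, hy2⟩ := h
  have hred : redp p (fun c => (v c : ZMod (p ^ 2))) = fun c => (v c : ZMod p) := by
    funext c
    exact map_intCast _ _
  rw [hred] at hy
  have hg : ∀ c d, gdif (fun c => (v c : ZMod p)) c d = gred p v c d := by
    intro c d
    exact (gdif_map (Int.castRingHom (ZMod p)) v c d).symm
  refine ⟨?_, ?_, ?_, ?_, ?_, ?_⟩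
  · intro c d hcd hne hdvd
    apply hy.lead c d hcd hne
    have h1 := (ZMod.intCast_zmod_eq_zero_iff_dvd _ p).2 hdvd
    rw [Int.cast_sub, sub_eq_zero] at h1
    exact h1
  · rw [← ZMod.intCast_zmod_eq_zero_iff_dvd, Int.cast_sub, sub_eq_zero]
    exact hy.eq
  · intro hdvd
    apply hy2
    have h1 : ((p ^ 2 : ℕ) : ℤ) ∣ v (a, Fin.last n) - v (b, Fin.last n) := by
      rw [Nat.cast_pow]
      exact hdvd
    rw [← ZMod.intCast_zmod_eq_zero_iff_dvd, Int.cast_sub, sub_eq_zero] at h1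
    exact h1
  · rw [← hg]
    exact hy.deg
  · intro c d hcd
    rw [← hg]
    exact hy.sep c d hcd
  · intro a' b' c d h1 h2 h3
    rw [← hg, ← hg]
    exact hy.cop a' b' c d h1 h2 h3

/-- The count (`count_scheme1`). -/
theorem count_typeK [Fintype ι] (hn : 2 ≤ n) {a b : ι} (hab : a ≠ b) :
    ∃ P₀ : ℕ, ∀ p : ℕ, p.Prime → P₀ ≤ p →
      (1 / 4 : ℝ) / p * ((p ^ 2 : ℕ) : ℝ) ^ Fintype.card (ι × Fin (n + 1)) ≤
        ({w : ι × Fin (n + 1) → ZMod (p ^ 2) | TypeKz p a b w}).ncard := by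
  obtain ⟨Δ, hΔ, h0⟩ := isGeneric_genK (ι := ι) (n := n) hn hab
  refine count_scheme1 (colK a b) (b, Fin.last n) (a, Fin.last n) ?_ Δ hΔ
    (fun p u => GenK a b u) ?_ (fun p => {w | TypeKz p a b w}) ?_
  · intro c hc
    exact colK_of_ne_h45 a b hc
  · intro p hp u hu
    have : Fact p.Prime := ⟨hp⟩
    exact h0 (ZMod p) u hu
  · intro p hp w hz hw
    have h := TypeKz.flip hp hab w hz hw
    have e : ∀ (d1 d2 : DecidableEq (ι × Fin (n + 1))),
        @Function.update _ _ d1 w (a, Fin.last n) (w (a, Fin.last n) + (p : ZMod (p ^ 2))) =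
          @Function.update _ _ d2 w (a, Fin.last n) (w (a, Fin.last n) + (p : ZMod (p ^ 2))) :=
      fun d1 d2 => by rw [Subsingleton.elim d1 d2]
    exact (e _ _) ▸ h

end

end Pool.Agent.Lib.MP_89bcae_ag

end
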