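import Mathlib
import Pool.Agent.Lib.MP_89bcae_ag.Mk.K030

section

/-!
# The linear algebra of the criterion for graphs of polynomials

`N i j` is the set of the roots of `α_i - α_j`. For every triple `i, j, l` and all `r ∈ N i j`,
`r' ∈ N j l`, `r'' ∈ N i l` there is a valuation at which exactly these three roots collide; it gives
the linear relations (1)-(4) below (`v` is the value of `κ` and `γ_i` that of `c_i`). Write
`τ = x_ij(r) + x_jl(r') - x_il(r'')`.

Proof. (1) + (2) - (3) gives `v τ = h (w_i + w_j + w_l) τ`.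
* If `τ = 0` for all triples and all `r, r', r''`: `x_ij(r)` does not depend on `r` and is a cocycle,
  hence the coboundary of `b_i := x_{0i}`.
* Suppose `τ ≠ 0` for some triple. If `v = 0`, take `s ∈ N i j` different from `r`: (4) gives
  `γ_i = γ_j` and (1) gives `w_l h τ = 0`, a contradiction. So `v ≠ 0`. Choose `r₁' ∈ N j l`,
  `r₁'' ∈ N i l` different from `r'`, `r''`. By (1) and (4),
  `v (x_ij(r) + x_jl(r₁') - x_il(r₁'')) = w_l h τ ≠ 0`. So the same holds for `(r, r₁', r₁'')`, with
  `v₁ ≠ 0`, `γ₁`. If there is `s ∈ N i l` different from `r''`, `r₁''`: (4) for both valuations gives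
  `x_il(s) = -(γ_i - γ_l) / v = -(γ₁_i - γ₁_l) / v₁`, and (4) for the second one at `r''` gives
  `x_il(r'') = -(γ₁_i - γ₁_l) / v₁`; so `v x_il(r'') + γ_i - γ_l = 0`, and (3) gives `w_j h τ = 0`, a
  contradiction. If there is a fourth index `m`, take `s ∈ N i m`, `s' ∈ N m l` instead of `s` and
  `x_im(s) + x_ml(s')` instead of `x_il(s)`.
-/

open scoped Classical

namespace Pool.Agent.Lib.MP_89bcae_ag

/-- The linear relations given by the valuation at which `r`, `r'`, `r''` collide. -/
structure RelG {A ι σ : Type*} [Field A] (N : ι → ι → Set σ) (x : ι → ι → σ → A) (w : ι → A)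
    (i j l : ι) (r r' r'' : σ) (v h : A) (γ : ι → A) : Prop where
  h_ne : h ≠ 0
  rel₁ : v * x i j r + γ i - γ j = w l * h * (x i j r + x j l r' - x i l r'')
  rel₂ : v * x j l r' + γ j - γ l = w i * h * (x i j r + x j l r' - x i l r'')
  rel₃ : v * x i l r'' + γ i - γ l = -(w j * h * (x i j r + x j l r' - x i l r''))
  rel₄ : ∀ a b s, a ≠ b → s ∈ N a b → s ≠ r → s ≠ r' → s ≠ r'' → v * x a b s + γ a - γ b = 0

theorem core_graph {A ι σ : Type*} [Field A] [Fintype ι] (hι : 3 ≤ Fintype.card ι)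
    (N : ι → ι → Set σ) (hsymm : ∀ i j, N j i = N i j)
    (hdisj : ∀ a b c d s, a ≠ b → c ≠ d → s ∈ N a b → s ∈ N c d → ({a, b} : Set ι) = {c, d})
    (hN : (∀ i j, i ≠ j → ∀ r r', ∃ s ∈ N i j, s ≠ r ∧ s ≠ r') ∨
      (4 ≤ Fintype.card ι ∧ ∀ i j, i ≠ j → ∀ r, ∃ s ∈ N i j, s ≠ r))
    (x : ι → ι → σ → A) (hx : ∀ i j s, i ≠ j → s ∈ N i j → x j i s = -x i j s)
    (w : ι → A) (hw : ∀ i, w i ≠ 0)
    (H : ∀ i j l, i ≠ j → j ≠ l → i ≠ l → ∀ r ∈ N i j, ∀ r' ∈ N j l, ∀ r'' ∈ N i l,
      ∃ (v h : A) (γ : ι → A), RelG N x w i j l r r' r'' v h γ) :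
    ∃ b : ι → A, ∀ i j s, i ≠ j → s ∈ N i j → x i j s = b j - b i := by
  -- nonemptiness
  have hne1 : ∀ i j, i ≠ j → ∀ r, ∃ s ∈ N i j, s ≠ r := by
    intro i j hij r
    rcases hN with h | h
    · obtain ⟨s, hs, h1, -⟩ := h i j hij r r
      exact ⟨s, hs, h1⟩
    · exact h.2 i j hij r
  have hne0 : ∀ i j, i ≠ j → ∀ r : σ, ∃ s, s ∈ N i j := by
    intro i j hij r
    obtain ⟨s, hs, -⟩ := hne1 i j hij r
    exact ⟨s, hs⟩
  -- elements of different sets are different
  have hdiff : ∀ a b c d s t, a ≠ b → c ≠ d → s ∈ N a b → t ∈ N c d → ({a, b} : Set ι) ≠ {c, d} →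
      s ≠ t := by
    rintro a b c d s t hab hcd hs ht hne rfl
    exact hne (hdisj a b c d s hab hcd hs ht)
  -- the main alternative
  have key : ∀ i j l, i ≠ j → j ≠ l → i ≠ l → ∀ r ∈ N i j, ∀ r' ∈ N j l, ∀ r'' ∈ N i l,
      x i j r + x j l r' - x i l r'' = 0 := by
    intro i j l hij hjl hil r hr r' hr' r'' hr''
    by_contra hτ
    have e1 : ({i, j} : Set ι) ≠ {j, l} := by
      intro h
      have h1 : i ∈ ({j, l} : Set ι) := by rw [← h]; exact Set.mem_insert _ _
      rcases h1 with h1 | h1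
      · exact hij h1
      · exact hil h1
    have e2 : ({i, j} : Set ι) ≠ {i, l} := by
      intro h
      have h1 : j ∈ ({i, l} : Set ι) := by rw [← h]; exact Set.mem_insert_of_mem _ rfl
      rcases h1 with h1 | h1
      · exact hij h1.symm
      · exact hjl h1
    have e3 : ({j, l} : Set ι) ≠ {i, l} := by
      intro h
      have h1 : j ∈ ({i, l} : Set ι) := by rw [← h]; exact Set.mem_insert _ _
      rcases h1 with h1 | h1
      · exact hij h1.symm
      · exact hjl h1
    -- `v` is not zero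
    have hv : ∀ (r : σ) (_ : r ∈ N i j) (r' : σ) (_ : r' ∈ N j l) (r'' : σ) (_ : r'' ∈ N i l)
        (v h : A) (γ : ι → A), RelG N x w i j l r r' r'' v h γ →
        x i j r + x j l r' - x i l r'' ≠ 0 → v ≠ 0 := by
      intro r hr r' hr' r'' hr'' v h γ H hτ hv
      obtain ⟨s, hs, hsr⟩ := hne1 i j hij r
      have h1 := H.rel₄ i j s hij hs hsr (hdiff _ _ _ _ _ _ hij hjl hs hr' e1)
        (hdiff _ _ _ _ _ _ hij hil hs hr'' e2)
      have h2 := H.rel₁
      rw [hv] at h1 h2
      have h3 : w l * h * (x i j r + x j l r' - x i l r'') = 0 := by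
        linear_combination h1 - h2
      exact mul_ne_zero (mul_ne_zero (hw l) H.h_ne) hτ h3
    obtain ⟨v, h, γ, H⟩ := H i j l hij hjl hil r hr r' hr' r'' hr''
    have hv0 := hv r hr r' hr' r'' hr'' v h γ H hτ
    -- the second triple
    obtain ⟨r₁', hr₁', hn'⟩ := hne1 j l hjl r'
    obtain ⟨r₁'', hr₁'', hn''⟩ := hne1 i l hil r''
    obtain ⟨v₁, h₁, γ₁, H₁⟩ := ‹∀ i j l, i ≠ j → j ≠ l → i ≠ l → ∀ r ∈ N i j, ∀ r' ∈ N j l,
      ∀ r'' ∈ N i l, ∃ (v h : A) (γ : ι → A), RelG N x w i j l r r' r'' v h γ› i j l hij hjl hil r hr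
        r₁' hr₁' r₁'' hr₁''
    have f1 := H.rel₄ j l r₁' hjl hr₁' (hdiff _ _ _ _ _ _ hjl hij hr₁' hr e1.symm) hn'
      (hdiff _ _ _ _ _ _ hjl hil hr₁' hr'' e3)
    have f2 := H.rel₄ i l r₁'' hil hr₁'' (hdiff _ _ _ _ _ _ hil hij hr₁'' hr e2.symm)
      (hdiff _ _ _ _ _ _ hil hjl hr₁'' hr' e3.symm) hn''
    have hτ₁ : x i j r + x j l r₁' - x i l r₁'' ≠ 0 := by
      intro h0
      have h3 : w l * h * (x i j r + x j l r' - x i l r'') = 0 := by
        have h4 := H.rel₁
        linear_combination v * h0 - f1 + f2 - h4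
      exact mul_ne_zero (mul_ne_zero (hw l) H.h_ne) hτ h3
    have hv₁ := hv r hr r₁' hr₁' r₁'' hr₁'' v₁ h₁ γ₁ H₁ hτ₁
    have f3 := H₁.rel₄ i l r'' hil hr'' (hdiff _ _ _ _ _ _ hil hij hr'' hr e2.symm)
      (hdiff _ _ _ _ _ _ hil hjl hr'' hr₁' e3.symm) (Ne.symm hn'')
    -- a common value
    have hy : ∃ y : A, v * y + γ i - γ l = 0 ∧ v₁ * y + γ₁ i - γ₁ l = 0 := by
      rcases hN with hN | hN
      · obtain ⟨s, hs, hs1, hs2⟩ := hN i l hil r'' r₁''
        exact ⟨x i l s, H.rel₄ i l s hil hs (hdiff _ _ _ _ _ _ hil hij hs hr e2.symm)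
          (hdiff _ _ _ _ _ _ hil hjl hs hr' e3.symm) hs1,
          H₁.rel₄ i l s hil hs (hdiff _ _ _ _ _ _ hil hij hs hr e2.symm)
          (hdiff _ _ _ _ _ _ hil hjl hs hr₁' e3.symm) hs2⟩
      · obtain ⟨m, hm⟩ : ∃ m, m ∉ ({i, j, l} : Finset ι) := by
          by_contra hcon
          push Not at hcon
          have h5 : (Finset.univ : Finset ι) ⊆ {i, j, l} := fun m _ => hcon m
          have h6 := Finset.card_le_card h5
          rw [Finset.card_univ] at h6
          have h7 : ({i, j, l} : Finset ι).card ≤ 3 := Finset.card_le_three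
          omega
        simp only [Finset.mem_insert, Finset.mem_singleton, not_or] at hm
        obtain ⟨hmi, hmj, hml⟩ := hm
        obtain ⟨s, hs⟩ := hne0 i m (Ne.symm hmi) r
        obtain ⟨t, ht⟩ := hne0 m l hml r
        have g : ∀ a b c d : ι, (m = a ∨ m = b) → c ≠ m → d ≠ m → ({a, b} : Set ι) ≠ {c, d} := by
          intro a b c d hm1 hc hd he
          have : m ∈ ({c, d} : Set ι) := by
            rw [← he]
            rcases hm1 with rfl | rfl
            · exact Set.mem_insert _ _
            · exact Set.mem_insert_of_mem _ rfl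
          rcases this with h | h
          · exact hc h.symm
          · exact hd h.symm
        have hi := Ne.symm hmi
        have hj := Ne.symm hmj
        have hl := Ne.symm hml
        have k1 := H.rel₄ i m s hi hs (hdiff _ _ _ _ _ _ hi hij hs hr (g _ _ _ _ (Or.inr rfl) hi hj))
          (hdiff _ _ _ _ _ _ hi hjl hs hr' (g _ _ _ _ (Or.inr rfl) hj hl))
          (hdiff _ _ _ _ _ _ hi hil hs hr'' (g _ _ _ _ (Or.inr rfl) hi hl))
        have k2 := H.rel₄ m l t hml ht (hdiff _ _ _ _ _ _ hml hij ht hr (g _ _ _ _ (Or.inl rfl) hi hj))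
          (hdiff _ _ _ _ _ _ hml hjl ht hr' (g _ _ _ _ (Or.inl rfl) hj hl))
          (hdiff _ _ _ _ _ _ hml hil ht hr'' (g _ _ _ _ (Or.inl rfl) hi hl))
        have k3 := H₁.rel₄ i m s hi hs (hdiff _ _ _ _ _ _ hi hij hs hr (g _ _ _ _ (Or.inr rfl) hi hj))
          (hdiff _ _ _ _ _ _ hi hjl hs hr₁' (g _ _ _ _ (Or.inr rfl) hj hl))
          (hdiff _ _ _ _ _ _ hi hil hs hr₁'' (g _ _ _ _ (Or.inr rfl) hi hl))
        have k4 := H₁.rel₄ m l t hml ht (hdiff _ _ _ _ _ _ hml hij ht hr (g _ _ _ _ (Or.inl rfl) hi hj))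
          (hdiff _ _ _ _ _ _ hml hjl ht hr₁' (g _ _ _ _ (Or.inl rfl) hj hl))
          (hdiff _ _ _ _ _ _ hml hil ht hr₁'' (g _ _ _ _ (Or.inl rfl) hi hl))
        exact ⟨x i m s + x m l t, by linear_combination k1 + k2, by linear_combination k3 + k4⟩
    obtain ⟨y, hy1, hy2⟩ := hy
    have h8 : x i l r'' = y := by
      have h9 : v₁ * (x i l r'' - y) = 0 := by linear_combination f3 - hy2
      exact sub_eq_zero.1 ((mul_eq_zero.1 h9).resolve_left hv₁)
    have h10 : w j * h * (x i j r + x j l r' - x i l r'') = 0 := by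
      have h11 := H.rel₃
      linear_combination h11 - hy1 - v * h8
    exact mul_ne_zero (mul_ne_zero (hw j) H.h_ne) hτ h10
  -- independence of the root
  have hcard1 : ∀ i j : ι, i ≠ j → ∃ l : ι, l ≠ i ∧ l ≠ j := by
    intro i j hij
    by_contra hcon
    push Not at hcon
    have h5 : (Finset.univ : Finset ι) ⊆ {i, j} := by
      intro m _
      by_cases hm : m = i
      · rw [hm]; exact Finset.mem_insert_self _ _
      · rw [hcon m hm]
        exact Finset.mem_insert_of_mem (Finset.mem_singleton_self _)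
    have h6 := Finset.card_le_card h5
    rw [Finset.card_univ] at h6
    have h7 : ({i, j} : Finset ι).card ≤ 2 := Finset.card_le_two
    omega
  have hind : ∀ i j, i ≠ j → ∀ r ∈ N i j, ∀ s ∈ N i j, x i j r = x i j s := by
    intro i j hij r hr s hs
    obtain ⟨l, hli, hlj⟩ := hcard1 i j hij
    obtain ⟨r', hr'⟩ := hne0 j l hlj.symm r
    obtain ⟨r'', hr''⟩ := hne0 i l hli.symm r
    have h1 := key i j l hij hlj.symm hli.symm r hr r' hr' r'' hr''
    have h2 := key i j l hij hlj.symm hli.symm s hs r' hr' r'' hr''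
    linear_combination h1 - h2
  -- the coboundary
  haveI : Nonempty ι := Fintype.card_pos_iff.1 (by omega)
  obtain ⟨o⟩ := ‹Nonempty ι›
  by_cases hσ : Nonempty σ
  · obtain ⟨r₀⟩ := hσ
    choose f hf using fun (i : {i : ι // i ≠ o}) => hne0 o i (Ne.symm i.2) r₀
    refine ⟨fun i => if h : i = o then 0 else x o i (f ⟨i, h⟩), fun i j s hij hs => ?_⟩
    beta_reduce
    by_cases hi : i = o
    · subst hi
      have hj : j ≠ i := Ne.symm hij
      rw [dif_pos rfl, dif_neg hj, sub_zero]
      exact hind i j hij s hs _ (hf ⟨j, hj⟩)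
    · by_cases hj : j = o
      · subst hj
        rw [dif_pos rfl, dif_neg hi, zero_sub]
        have h1 : s ∈ N j i := by rw [hsymm]; exact hs
        have h2 := hx j i s (Ne.symm hij) h1
        rw [h2, hind j i (Ne.symm hij) s h1 _ (hf ⟨i, hi⟩)]
      · rw [dif_neg hi, dif_neg hj]
        have h1 := key o i j (Ne.symm hi) hij (Ne.symm hj) _ (hf ⟨i, hi⟩) s hs _ (hf ⟨j, hj⟩)
        linear_combination h1
  · exact ⟨fun _ => 0, fun i j s _ _ => absurd ⟨s⟩ hσ⟩

end Pool.Agent.Lib.MP_89bcae_ag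

end

section

/-!
# Stepanov's bound for quadratic character sums

`F` a finite field of odd characteristic `p` with `p ^ m * p ^ n` elements, `m ≤ n`, `f ∈ F[X]` not of
the form `c g ^ 2`. Then `|∑ χ(f(x))| ≤ 4 (deg f) p ^ n`.
-/

namespace Pool.Agent.Lib.MP_89bcae_ag.Stepanov14

open Polynomial Finset

variable {F : Type*} [Field F]

/-- the polynomial with the given coefficients -/
noncomputable def pol {H : ℕ} (c : Fin H → F) : F[X] := ((degreeLTEquiv F H).symm c : degreeLT F H)

theorem pol_sub {H : ℕ} (c c' : Fin H → F) : pol (c - c') = pol c - pol c' := by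
  simp [pol]

theorem pol_eq_zero {H : ℕ} {c : Fin H → F} (h : pol c = 0) : c = 0 := by
  simpa [pol] using h

theorem natDegree_pol_le {H : ℕ} (c : Fin H → F) : (pol c).natDegree ≤ H - 1 := by
  rcases Nat.eq_zero_or_pos H with rfl | hH
  · have : c = 0 := Subsingleton.elim _ _
    rw [this, pol, map_zero, ZeroMemClass.coe_zero, natDegree_zero]
  · by_cases h0 : pol c = 0
    · rw [h0]; simp
    · have h1 : (pol c) ∈ degreeLT F H := ((degreeLTEquiv F H).symm c).2
      rw [mem_degreeLT] at h1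
      have := (natDegree_lt_iff_degree_lt h0).2 h1
      omega

theorem sum_zero {N : ℕ} : ∀ (I : ℕ) (u : ℕ → F[X]),
    (∀ i < I, X ^ N ∣ u i → u i = 0) → ∑ i ∈ range I, u i * X ^ (i * N) = 0 →
    ∀ i < I, u i = 0 := by
  intro I
  induction I with
  | zero => intro u _ _ i hi; omega
  | succ I ih =>
    intro u hu hs
    rw [sum_range_succ'] at hs
    have e1 : ∑ i ∈ range I, u (i + 1) * X ^ ((i + 1) * N) =
        (∑ i ∈ range I, u (i + 1) * X ^ (i * N)) * X ^ N := by
      rw [sum_mul]
      refine sum_congr rfl fun i _ => ?_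
      rw [add_mul, one_mul, pow_add, mul_assoc]
    rw [e1, zero_mul, pow_zero, mul_one] at hs
    have h0 : u 0 = 0 := by
      apply hu 0 (by omega)
      rw [eq_neg_of_add_eq_zero_right hs]
      exact (dvd_neg.2 (dvd_mul_left _ _))
    rw [h0, add_zero] at hs
    have hs' : ∑ i ∈ range I, u (i + 1) * X ^ (i * N) = 0 := by
      rcases mul_eq_zero.1 hs with h | h
      · exact h
      · exact absurd h (pow_ne_zero _ X_ne_zero)
    intro i hi
    rcases Nat.eq_zero_or_pos i with rfl | hpos
    · exact h0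
    · obtain ⟨j, rfl⟩ := Nat.exists_eq_add_of_lt hpos
      have := ih (fun i => u (i + 1)) (fun i hi => hu (i + 1) (by omega)) hs' j (by omega)
      simpa [add_comm] using this

section
variable {p : ℕ} [Fact p.Prime] [CharP F p]

/-- `h + k f ^ ((Q' - 1) / 2)` is not divisible by `X ^ Q'` -/
theorem eq_zero_of_dvd {n Q₂ : ℕ} (hQ : p ^ n = 2 * Q₂ + 1) {f h k : F[X]}
    (hf0 : f.eval 0 ≠ 0) (hf : ¬ ∃ (c : F) (g : F[X]), f = C c * g ^ 2)
    (hh : 2 * h.natDegree + f.natDegree < p ^ n) (hk : 2 * k.natDegree < p ^ n)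
    (hdvd : X ^ p ^ n ∣ h + k * f ^ Q₂) : h = 0 ∧ k = 0 := by
  set c : F := (f.eval 0) ^ p ^ n with hc
  have hc0 : c ≠ 0 := pow_ne_zero _ hf0
  have h1 : X ^ p ^ n ∣ h ^ 2 * f - k ^ 2 * f ^ p ^ n := by
    have e : h ^ 2 * f - k ^ 2 * f ^ p ^ n = (h + k * f ^ Q₂) * ((h - k * f ^ Q₂) * f) := by
      rw [hQ]
      ring
    rw [e]
    exact Dvd.dvd.mul_right hdvd _
  have h2 : X ^ p ^ n ∣ f ^ p ^ n - C c := by
    have e : f ^ p ^ n - C c = (f - C (f.eval 0)) ^ p ^ n := by
      rw [sub_pow_char_pow, hc, C_pow]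
    rw [e]
    apply pow_dvd_pow_of_dvd
    have := X_sub_C_dvd_sub_C_eval (a := (0 : F)) (p := f)
    simpa using this
  have h3 : X ^ p ^ n ∣ h ^ 2 * f - C c * k ^ 2 := by
    have e : h ^ 2 * f - C c * k ^ 2 =
        (h ^ 2 * f - k ^ 2 * f ^ p ^ n) + (f ^ p ^ n - C c) * k ^ 2 := by ring
    rw [e]
    exact dvd_add h1 (Dvd.dvd.mul_right h2 _)
  have h4 : h ^ 2 * f - C c * k ^ 2 = 0 := by
    by_contra hne
    have h5 := natDegree_le_of_dvd h3 hne
    rw [natDegree_X_pow] at h5
    have h6 : (h ^ 2 * f - C c * k ^ 2).natDegree < p ^ n := by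
      refine lt_of_le_of_lt (natDegree_sub_le _ _) (max_lt ?_ ?_)
      · refine lt_of_le_of_lt natDegree_mul_le ?_
        refine lt_of_le_of_lt (Nat.add_le_add_right natDegree_pow_le _) hh
      · refine lt_of_le_of_lt (natDegree_C_mul_le _ _) ?_
        exact lt_of_le_of_lt natDegree_pow_le hk
    omega
  have h5 : h ^ 2 * f = C c * k ^ 2 := sub_eq_zero.1 h4
  by_cases hh0 : h = 0
  · refine ⟨hh0, ?_⟩
    rw [hh0] at h5
    have : C c * k ^ 2 = 0 := by rw [← h5]; ring
    rcases mul_eq_zero.1 this with h | h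
    · exact absurd (C_eq_zero.1 h) hc0
    · exact pow_eq_zero_iff (two_ne_zero) |>.1 h
  · exfalso
    have h6 : h ^ 2 ∣ k ^ 2 := by
      have : k ^ 2 = h ^ 2 * (f * C c⁻¹) := by
        rw [← mul_assoc, h5, mul_comm (C c * k ^ 2), ← mul_assoc, ← C_mul, inv_mul_cancel₀ hc0,
          C_1, one_mul]
      rw [this]
      exact dvd_mul_right _ _
    obtain ⟨g, rfl⟩ := (IsIntegrallyClosed.pow_dvd_pow_iff two_ne_zero).1 h6
    apply hf
    refine ⟨c, g, ?_⟩
    have : h ^ 2 * f = h ^ 2 * (C c * g ^ 2) := by rw [h5]; ring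
    exact mul_left_cancel₀ (pow_ne_zero 2 hh0) this

variable [Fintype F] [DecidableEq F]

/-- the auxiliary polynomial -/
noncomputable def auxS (p m M₂ : ℕ) (f : F[X]) (a : F) {I H : ℕ} (c c' : Fin I → Fin H → F) : F[X] :=
  ∑ i : Fin I, (pol (c i) ^ p ^ m * f ^ M₂ + C a * pol (c' i) ^ p ^ m) * X ^ (i : ℕ)

omit [Fintype F] [DecidableEq F] in
theorem auxS_sub (m M₂ : ℕ) (f : F[X]) (a : F) {I H : ℕ} (c c' e e' : Fin I → Fin H → F) :
    auxS p m M₂ f a (c - e) (c' - e') = auxS p m M₂ f a c c' - auxS p m M₂ f a e e' := by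
  unfold auxS
  rw [← sum_sub_distrib]
  refine sum_congr rfl fun i _ => ?_
  rw [Pi.sub_apply, Pi.sub_apply, pol_sub, pol_sub, sub_pow_char_pow, sub_pow_char_pow]
  ring

omit [Fact p.Prime] [CharP F p] [Fintype F] [DecidableEq F] in
theorem natDegree_auxS_lt (m M₂ : ℕ) (f : F[X]) (a : F) {I H : ℕ} (hI : 0 < I)
    (c c' : Fin I → Fin H → F) :
    (auxS p m M₂ f a c c').natDegree < p ^ m * (H - 1) + f.natDegree * M₂ + I := by
  have : (auxS p m M₂ f a c c').natDegree ≤ p ^ m * (H - 1) + f.natDegree * M₂ + (I - 1) := by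
    apply natDegree_sum_le_of_forall_le
    intro i _
    have hi := i.2
    refine natDegree_mul_le.trans ?_
    rw [natDegree_X_pow]
    have h1 : (pol (c i) ^ p ^ m * f ^ M₂).natDegree ≤ p ^ m * (H - 1) + f.natDegree * M₂ := by
      refine natDegree_mul_le.trans (Nat.add_le_add ?_ ?_)
      · exact natDegree_pow_le.trans (Nat.mul_le_mul_left _ (natDegree_pol_le _))
      · refine natDegree_pow_le.trans ?_
        rw [mul_comm]
    have h2 : (C a * pol (c' i) ^ p ^ m).natDegree ≤ p ^ m * (H - 1) + f.natDegree * M₂ := by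
      refine (natDegree_C_mul_le _ _).trans ?_
      refine (natDegree_pow_le.trans (Nat.mul_le_mul_left _ (natDegree_pol_le _))).trans ?_
      omega
    have h3 := (natDegree_add_le (pol (c i) ^ p ^ m * f ^ M₂) (C a * pol (c' i) ^ p ^ m)).trans
      (max_le h1 h2)
    omega
  omega

/-- the number of `x` with `f(x) ^ ((Q - 1) / 2) = a` -/
theorem count_le {m n M₂ Q₂ : ℕ} (hQ : p ^ n = 2 * Q₂ + 1)
    (hcard : Fintype.card F = p ^ m * p ^ n) {f : F[X]}
    (hf0 : f.eval 0 ≠ 0) (hf : ¬ ∃ (c : F) (g : F[X]), f = C c * g ^ 2) {a : F} (ha : a ≠ 0)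
    {H I : ℕ} (hI : 0 < I) (hH : 2 * (H - 1) + f.natDegree < p ^ n)
    (hPH : p ^ m * (H - 1) + f.natDegree * M₂ + I < 2 * I * H) :
    (univ.filter fun x : F => (f.eval x) ^ (p ^ m * Q₂ + M₂) = a).card ≤
      (I - 1) * p ^ n + (H - 1) + f.natDegree * Q₂ := by
  have hp : 0 < p ^ n := by omega
  -- pigeonhole
  obtain ⟨⟨c, c'⟩, ⟨e, e'⟩, hne, hΦ⟩ := Fintype.exists_ne_map_eq_of_card_lt
    (fun cc : (Fin I → Fin H → F) × (Fin I → Fin H → F) =>
      fun j : Fin (p ^ m * (H - 1) + f.natDegree * M₂ + I) =>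
        (auxS p m M₂ f a cc.1 cc.2).coeff j) (by
      rw [Fintype.card_prod]
      simp only [Fintype.card_fun, Fintype.card_fin]
      rw [← pow_mul, ← pow_add]
      apply Nat.pow_lt_pow_right Fintype.one_lt_card
      calc _ < 2 * I * H := hPH
        _ = H * I + H * I := by ring)
  have hS : auxS p m M₂ f a (c - e) (c' - e') = 0 := by
    have h1 := natDegree_auxS_lt (p := p) m M₂ f a hI (c - e) (c' - e')
    rw [auxS_sub] at h1 ⊢
    ext j
    rw [coeff_zero]
    by_cases hj : j < p ^ m * (H - 1) + f.natDegree * M₂ + I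
    · have := congrFun hΦ ⟨j, hj⟩
      simp only at this
      rw [coeff_sub, this, sub_self]
    · exact coeff_eq_zero_of_natDegree_lt (by omega)
  -- the polynomials
  set h : ℕ → F[X] := fun i => if hi : i < I then pol ((c - e) ⟨i, hi⟩) else 0 with hhdef
  set k : ℕ → F[X] := fun i => if hi : i < I then pol ((c' - e') ⟨i, hi⟩) else 0 with hkdef
  have hh : ∀ i, (h i).natDegree ≤ H - 1 := by
    intro i
    simp only [hhdef]
    split_ifs with hi
    · exact natDegree_pol_le _
    · simp
  have hk : ∀ i, (k i).natDegree ≤ H - 1 := by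
    intro i
    simp only [hkdef]
    split_ifs with hi
    · exact natDegree_pol_le _
    · simp
  have hSeval : ∀ x : F, ∑ i ∈ range I, ((h i).eval x ^ p ^ m * f.eval x ^ M₂ +
      a * (k i).eval x ^ p ^ m) * x ^ i = 0 := by
    intro x
    have h1 := congrArg (eval x) hS
    rw [auxS, eval_finsetSum, eval_zero] at h1
    rw [← h1, ← Fin.sum_univ_eq_sum_range (fun i => ((h i).eval x ^ p ^ m * f.eval x ^ M₂ +
      a * (k i).eval x ^ p ^ m) * x ^ i)]
    refine sum_congr rfl fun i _ => ?_
    simp only [eval_mul, eval_add, eval_pow, eval_C, eval_X]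
    simp only [hhdef, hkdef, i.2, dif_pos, Fin.eta]
  set R : F[X] := ∑ i ∈ range I, (h i + k i * f ^ Q₂) * X ^ (i * p ^ n) with hR
  have hR0 : R ≠ 0 := by
    intro hR0
    have hz : ∀ i < I, X ^ p ^ n ∣ h i + k i * f ^ Q₂ → h i = 0 ∧ k i = 0 := by
      intro i _ hi
      refine eq_zero_of_dvd hQ hf0 hf ?_ ?_ hi
      · have := hh i; omega
      · have := hk i; omega
    have h1 := sum_zero I (fun i => h i + k i * f ^ Q₂) (fun i hi hd => by
      obtain ⟨e1, e2⟩ := hz i hi hd
      simp only [e1, e2]; ring) hR0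
    have h2 : ∀ i < I, h i = 0 ∧ k i = 0 := fun i hi => hz i hi (by
      have := h1 i hi
      rw [this]; exact dvd_zero _)
    apply hne
    have h3 : c - e = 0 := by
      funext i
      apply pol_eq_zero
      have := (h2 i i.2).1
      simpa only [hhdef, i.2, dif_pos, Fin.eta] using this
    have h4 : c' - e' = 0 := by
      funext i
      apply pol_eq_zero
      have := (h2 i i.2).2
      simpa only [hkdef, i.2, dif_pos, Fin.eta] using this
    rw [sub_eq_zero.1 h3, sub_eq_zero.1 h4]
  -- vanishing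
  have hvan : ∀ x : F, (f.eval x) ^ (p ^ m * Q₂ + M₂) = a → R.eval x = 0 := by
    intro x hx
    have hfx : f.eval x ≠ 0 := by
      intro h0
      rw [h0] at hx
      rcases Nat.eq_zero_or_pos (p ^ m * Q₂ + M₂) with h' | h'
      · have : Q₂ = 0 := by
          have hpm : 0 < p ^ m := pow_pos (Nat.Prime.pos Fact.out) m
          by_contra hq
          have : 0 < p ^ m * Q₂ := Nat.mul_pos hpm (by omega)
          omega
        have h1n : n = 0 := by
          by_contra hn
          have := Nat.one_lt_pow hn (Nat.Prime.one_lt (Fact.out : p.Prime))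
          omega
        have : 2 * (H - 1) + f.natDegree < 1 := by
          rw [h1n, pow_zero] at hH; exact hH
        have hfd : f.natDegree = 0 := by omega
        exact hf ⟨f.coeff 0, 1, by
          rw [one_pow, mul_one]
          exact eq_C_of_natDegree_eq_zero hfd⟩
      · rw [zero_pow (by omega)] at hx
        exact ha hx.symm
    have h1 : (f.eval x) ^ M₂ * (iterateFrobenius F p m (R.eval x)) = 0 := by
      rw [← hSeval x, hR, eval_finsetSum, map_sum, mul_sum]
      refine sum_congr rfl fun i _ => ?_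
      simp only [eval_mul, eval_add, eval_pow, eval_X, map_mul, map_add, map_pow,
        iterateFrobenius_def]
      have e1 : (x ^ p ^ m) ^ (i * p ^ n) = x ^ i := by
        rw [← pow_mul, show p ^ m * (i * p ^ n) = (p ^ m * p ^ n) * i by ring, pow_mul, ← hcard,
          FiniteField.pow_card]
      have e2 : f.eval x ^ M₂ * (f.eval x ^ p ^ m) ^ Q₂ = a := by
        rw [← pow_mul, ← pow_add, add_comm, hx]
      rw [e1, ← e2]
      ring
    rcases mul_eq_zero.1 h1 with h | h
    · exact absurd h (pow_ne_zero _ hfx)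
    · rw [iterateFrobenius_def] at h
      exact pow_eq_zero_iff (pow_pos (Nat.Prime.pos Fact.out) m).ne' |>.1 h
  -- count
  have hdeg : R.natDegree ≤ (I - 1) * p ^ n + (H - 1) + f.natDegree * Q₂ := by
    apply natDegree_sum_le_of_forall_le
    intro i hi
    rw [mem_range] at hi
    refine natDegree_mul_le.trans ?_
    rw [natDegree_X_pow]
    have h1 : (h i + k i * f ^ Q₂).natDegree ≤ (H - 1) + f.natDegree * Q₂ := by
      refine (natDegree_add_le _ _).trans (max_le ?_ ?_)
      · exact (hh i).trans (Nat.le_add_right _ _)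
      · refine natDegree_mul_le.trans (Nat.add_le_add (hk i) ?_)
        refine natDegree_pow_le.trans ?_
        rw [mul_comm]
    have h2 : i * p ^ n ≤ (I - 1) * p ^ n := Nat.mul_le_mul_right _ (by omega)
    omega
  refine le_trans ?_ hdeg
  apply card_le_degree_of_subset_roots
  intro x hx
  rw [mem_val, mem_filter] at hx
  rw [mem_roots hR0]
  exact hvan x hx.2

/-- Stepanov's bound, `f(0) ≠ 0` -/
theorem char_sum_aux {m n : ℕ} (hp2 : p ≠ 2) (hmn : m ≤ n)
    (hcard : Fintype.card F = p ^ m * p ^ n) {f : F[X]} (hf0 : f.eval 0 ≠ 0)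
    (hf : ¬ ∃ (c : F) (g : F[X]), f = C c * g ^ 2) :
    |∑ x : F, quadraticChar F (f.eval x)| ≤ 4 * (f.natDegree + 1) * p ^ n := by
  have hpp : p.Prime := Fact.out
  have hodd : Odd p := hpp.odd_of_ne_two hp2
  obtain ⟨M₂, hM⟩ := hodd.pow (n := m)
  obtain ⟨Q₂, hQ⟩ := hodd.pow (n := n)
  have hchar : ringChar F ≠ 2 := by
    rw [ringChar.eq F p]; exact hp2
  have hmn' : p ^ m ≤ p ^ n := Nat.pow_le_pow_right hpp.pos hmn
  set d := f.natDegree with hd
  have hcardle : |∑ x : F, quadraticChar F (f.eval x)| ≤ Fintype.card F := by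
    refine (abs_sum_le_sum_abs _ _).trans ?_
    rw [Fintype.card_eq_sum_ones]
    push_cast
    refine sum_le_sum fun x _ => ?_
    rcases eq_or_ne (f.eval x) 0 with h | h
    · rw [h]; simp
    · rcases quadraticChar_dichotomy h with h' | h' <;> rw [h'] <;> simp
  by_cases hbig : p ^ m ≤ 4 * (d + 1)
  · refine hcardle.trans ?_
    rw [hcard]
    push_cast
    have : ((p : ℤ) ^ m) ≤ 4 * (d + 1) := by exact_mod_cast hbig
    gcongr
  · rw [not_le] at hbig
    have hd1 : d < p ^ n := by omega
    have hhalf : Fintype.card F / 2 = p ^ m * Q₂ + M₂ := by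
      rw [hcard, hQ, mul_add, mul_one]
      nth_rewrite 2 [hM]
      have : p ^ m * (2 * Q₂) = 2 * (p ^ m * Q₂) := by ring
      omega
    have hcount : ∀ a : F, a ≠ 0 → 2 * (univ.filter fun x : F =>
        (f.eval x) ^ (p ^ m * Q₂ + M₂) = a).card ≤ p ^ m * p ^ n + 3 * d * p ^ n := by
      intro a ha
      have h1 := count_le (H := (p ^ n + 1 - d) / 2) (I := M₂ + 1 + d) hQ hcard hf0 hf ha
        (by omega) (by omega) (by
          rw [← hd]
          obtain ⟨H, hH⟩ : ∃ H, (p ^ n + 1 - d) / 2 = H + 1 := ⟨(p ^ n + 1 - d) / 2 - 1, by omega⟩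
          have hM2 : 2 * d + 2 ≤ M₂ := by omega
          have h3 : M₂ ≤ 2 * H := by omega
          have h4 : d * M₂ ≤ d * (2 * H) := Nat.mul_le_mul_left _ h3
          rw [hH, Nat.add_sub_cancel, hM]
          nlinarith)
      rw [← hd] at h1
      have h2 : 2 * ((p ^ n + 1 - d) / 2 - 1) ≤ p ^ n := by omega
      have h3 : (M₂ + 1 + d - 1) * p ^ n = (M₂ + d) * p ^ n := by
        rw [show M₂ + 1 + d - 1 = M₂ + d by omega]
      have h4 : p ^ m * p ^ n = 2 * (M₂ * p ^ n) + p ^ n := by rw [hM]; ring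
      have h5 : (M₂ + d) * p ^ n = M₂ * p ^ n + d * p ^ n := by ring
      have h6 : 2 * (d * Q₂) ≤ d * p ^ n := by
        rw [hQ]
        nlinarith
      have h7 : 3 * d * p ^ n = 3 * (d * p ^ n) := by ring
      omega
    -- the three sets
    have hval : ∀ x : F, (f.eval x) ^ (p ^ m * Q₂ + M₂) = (quadraticChar F (f.eval x) : F) := by
      intro x
      rw [quadraticChar_eq_pow_of_char_ne_two' hchar, hhalf]
    set N1 := (univ.filter fun x : F => (f.eval x) ^ (p ^ m * Q₂ + M₂) = 1).card with hN1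
    set N2 := (univ.filter fun x : F => (f.eval x) ^ (p ^ m * Q₂ + M₂) = -1).card with hN2
    have h1 := hcount 1 one_ne_zero
    have h2 := hcount (-1) (neg_ne_zero.2 one_ne_zero)
    rw [← hN1] at h1
    rw [← hN2] at h2
    have hne1 : (1 : F) ≠ -1 := by
      intro h
      have := Ring.neg_one_ne_one_of_char_ne_two hchar
      exact this h.symm
    have hf' : f ≠ 0 := by
      rintro rfl
      exact hf0 (by simp)
    have hzero : (univ.filter fun x : F => f.eval x = 0).card ≤ d := by
      apply card_le_degree_of_subset_roots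
      intro x hx
      rw [mem_val, mem_filter] at hx
      rw [mem_roots hf']
      exact hx.2
    have hchi : ∀ x : F, quadraticChar F (f.eval x) =
        (if (f.eval x) ^ (p ^ m * Q₂ + M₂) = 1 then 1 else 0) -
        (if (f.eval x) ^ (p ^ m * Q₂ + M₂) = -1 then 1 else 0) := by
      intro x
      rw [hval]
      rcases eq_or_ne (f.eval x) 0 with h | h
      · rw [h]; simp
      · rcases quadraticChar_dichotomy h with h' | h'
        · rw [h']
          simp [hne1]
        · rw [h']
          simp [hne1.symm]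
    have hone : ∀ x : F, (1 : ℕ) ≤
        (if (f.eval x) ^ (p ^ m * Q₂ + M₂) = 1 then 1 else 0) +
        (if (f.eval x) ^ (p ^ m * Q₂ + M₂) = -1 then 1 else 0) +
        (if f.eval x = 0 then 1 else 0) := by
      intro x
      rw [hval]
      rcases eq_or_ne (f.eval x) 0 with h | h
      · rw [h]; simp
      · rcases quadraticChar_dichotomy h with h' | h' <;> rw [h'] <;> simp [h, hne1, hne1.symm]
    have hsum : ∑ x : F, quadraticChar F (f.eval x) = (N1 : ℤ) - N2 := by
      rw [sum_congr rfl fun x _ => hchi x, sum_sub_distrib, hN1, hN2, card_filter, card_filter]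
      push_cast
      rfl
    have htot : p ^ m * p ^ n ≤ N1 + N2 + d := by
      rw [← hcard]
      calc Fintype.card F = ∑ x : F, 1 := Fintype.card_eq_sum_ones
        _ ≤ ∑ x : F, ((if (f.eval x) ^ (p ^ m * Q₂ + M₂) = 1 then 1 else 0) +
            (if (f.eval x) ^ (p ^ m * Q₂ + M₂) = -1 then 1 else 0) +
            (if f.eval x = 0 then 1 else 0)) := sum_le_sum fun x _ => hone x
        _ = N1 + N2 + (univ.filter fun x : F => f.eval x = 0).card := by
            rw [sum_add_distrib, sum_add_distrib, hN1, hN2, card_filter, card_filter, card_filter]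
        _ ≤ _ := Nat.add_le_add_left hzero _
    rw [hsum, abs_le]
    have hd2 : d ≤ d * p ^ n := Nat.le_mul_of_pos_right _ (by omega)
    have e3 : 3 * d * p ^ n = 3 * (d * p ^ n) := by ring
    have e4 : (4 * (d + 1) * p ^ n : ℤ) = ((4 * (d * p ^ n) + 4 * p ^ n : ℕ) : ℤ) := by
      push_cast; ring
    rw [e4]
    constructor <;> omega

/-- **Stepanov's bound for quadratic character sums.** `F` a finite field of odd characteristic `p`
with `p ^ m * p ^ n` elements, `m ≤ n`, `f` not a constant times a square. -/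
theorem char_sum_pn {m n : ℕ} (hp2 : p ≠ 2) (hmn : m ≤ n)
    (hcard : Fintype.card F = p ^ m * p ^ n) {f : F[X]}
    (hf : ¬ ∃ (c : F) (g : F[X]), f = C c * g ^ 2) :
    |∑ x : F, quadraticChar F (f.eval x)| ≤ 4 * (f.natDegree + 1) * p ^ n := by
  have hpp : p.Prime := Fact.out
  have hf' : f ≠ 0 := by
    rintro rfl
    exact hf ⟨0, 0, by simp⟩
  by_cases hbig : ∃ x : F, f.eval x ≠ 0
  · obtain ⟨y, hy⟩ := hbig
    have h1 := char_sum_aux (f := f.comp (X + C y)) hp2 hmn hcard (by simpa using hy) (by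
      rintro ⟨c, g, hg⟩
      apply hf
      refine ⟨c, g.comp (X - C y), ?_⟩
      have h2 := congrArg (fun u => u.comp (X - C y)) hg
      simp only [comp_assoc, add_comp, X_comp, C_comp, sub_add_cancel, comp_X, mul_comp,
        pow_comp] at h2
      exact h2)
    rw [natDegree_comp, natDegree_X_add_C, mul_one] at h1
    have h3 : ∑ x : F, quadraticChar F ((f.comp (X + C y)).eval x) =
        ∑ x : F, quadraticChar F (f.eval x) := by
      simp only [eval_comp, eval_add, eval_X, eval_C]
      exact Equiv.sum_comp (Equiv.addRight y) (fun x => quadraticChar F (f.eval x))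
    rw [h3] at h1
    exact h1
  · push Not at hbig
    simp only [hbig, quadraticChar_zero, sum_const_zero, abs_zero]
    positivity

/-- **Stepanov's bound for quadratic character sums.** `F` a finite field of odd characteristic `p`
with `p ^ κ` elements, `2 m ≤ κ`, `f` not a constant times a square. -/
theorem char_sum {κ m : ℕ} (hp2 : p ≠ 2) (hmκ : 2 * m ≤ κ)
    (hcard : Fintype.card F = p ^ κ) {f : F[X]}
    (hf : ¬ ∃ (c : F) (g : F[X]), f = C c * g ^ 2) :
    |((∑ x : F, quadraticChar F (f.eval x) : ℤ) : ℝ)| ≤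
      4 * (f.natDegree + 1) * Fintype.card F / p ^ m := by
  have hpp : p.Prime := Fact.out
  have h1 := char_sum_pn (m := m) (n := κ - m) hp2 (by omega) (by
    rw [hcard, ← pow_add]; congr 1; omega) hf
  have h2 : (Fintype.card F : ℝ) / p ^ m = p ^ (κ - m) := by
    rw [hcard]
    push_cast
    have : (p : ℝ) ≠ 0 := by exact_mod_cast hpp.ne_zero
    rw [div_eq_iff (pow_ne_zero _ this), ← pow_add]
    congr 1
    omega
  rw [mul_div_assoc, h2]
  exact_mod_cast h1

end

end Pool.Agent.Lib.MP_89bcae_ag.Stepanov14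

end

section

/-!
# Counting with quadratic characters; missed values of a cubic polynomial
-/

namespace Pool.Agent.Lib.MP_89bcae_ag.Count14

open Polynomial Finset

section char

variable {k L F : Type*} [Field k] [Field L] [Field F] [Algebra k L] [Algebra L F] [Algebra k F]
  [IsScalarTower k L F]

omit [Field k] [Algebra k L] [Algebra k F] [IsScalarTower k L F] in
theorem not_const_sq {H : L[X]} {v : F} (hodd : Odd ((H.map (algebraMap L F)).rootMultiplicity v)) :
    ¬ ∃ (c : L) (g : L[X]), H = C c * g ^ 2 := by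
  rintro ⟨c, g, rfl⟩
  rcases eq_or_ne (C c * g ^ 2) 0 with h0 | h0
  · rw [h0] at hodd
    simp at hodd
  · have h1 : (C c * g ^ 2).map (algebraMap L F) ≠ 0 :=
      (Polynomial.map_ne_zero_iff (algebraMap L F).injective).2 h0
    rw [Polynomial.map_mul, map_C, Polynomial.map_pow] at h1 hodd
    rw [rootMultiplicity_mul h1, rootMultiplicity_C, zero_add, sq, rootMultiplicity_mul (by
      have := right_ne_zero_of_mul h1
      rwa [sq] at this)] at hodd
    exact (Nat.not_even_iff_odd.2 hodd) ⟨_, rfl⟩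

theorem prod_not_const_sq {h : ℕ → k[X]} {v : ℕ → F} {J : Finset ℕ} (hJ : J.Nonempty)
    (h0 : ∀ i ∈ J, h i ≠ 0)
    (hv : ∀ i ∈ J, Odd (((h i).map (algebraMap k F)).rootMultiplicity (v i)))
    (hvj : ∀ i ∈ J, ∀ j ∈ J, j < i → ¬ ((h j).map (algebraMap k F)).IsRoot (v i)) :
    ¬ ∃ (c : L) (g : L[X]), (∏ i ∈ J, h i).map (algebraMap k L) = C c * g ^ 2 := by
  set i := J.max' hJ with hi
  have hiJ : i ∈ J := J.max'_mem hJ
  apply not_const_sq (F := F) (v := v i)
  rw [Polynomial.map_map, ← IsScalarTower.algebraMap_eq, ← mul_prod_erase J h hiJ,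
    Polynomial.map_mul]
  have hne : ∏ j ∈ J.erase i, h j ≠ 0 := prod_ne_zero_iff.2 fun j hj => h0 j (mem_of_mem_erase hj)
  have hne' : (h i).map (algebraMap k F) * (∏ j ∈ J.erase i, h j).map (algebraMap k F) ≠ 0 :=
    mul_ne_zero ((Polynomial.map_ne_zero_iff (algebraMap k F).injective).2 (h0 i hiJ))
      ((Polynomial.map_ne_zero_iff (algebraMap k F).injective).2 hne)
  rw [rootMultiplicity_mul hne']
  have h2 : ((∏ j ∈ J.erase i, h j).map (algebraMap k F)).rootMultiplicity (v i) = 0 := by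
    apply rootMultiplicity_eq_zero
    rw [Polynomial.map_prod, IsRoot.def, eval_prod]
    apply prod_ne_zero_iff.2
    intro j hj
    have hj' := mem_of_mem_erase hj
    exact hvj i hiJ j hj' (lt_of_le_of_ne (J.le_max' j hj') (ne_of_mem_erase hj))
  rw [h2, add_zero]
  exact hv i hiJ

/-- Counting: the number of `α ∈ L` for which all `h i (α)`, `i ∈ S`, are squares. -/
theorem count_squares [Fintype L] {p : ℕ} [Fact p.Prime] [CharP L p] (hp2 : p ≠ 2)
    {m n : ℕ} (hmn : m ≤ n) (hcard : Fintype.card L = p ^ m * p ^ n)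
    {h : ℕ → k[X]} {v : ℕ → F} {S : Finset ℕ}
    (h0 : ∀ i ∈ S, h i ≠ 0)
    (hv : ∀ i ∈ S, Odd (((h i).map (algebraMap k F)).rootMultiplicity (v i)))
    (hvj : ∀ i ∈ S, ∀ j ∈ S, j < i → ¬ ((h j).map (algebraMap k F)).IsRoot (v i))
    {A : Finset L} (hA : ∀ α ∈ A, ∀ i ∈ S, IsSquare (aeval α (h i))) :
    2 ^ S.card * A.card ≤ Fintype.card L +
      2 ^ S.card * (4 * ((∑ i ∈ S, (h i).natDegree) + 1) * p ^ n + ∑ i ∈ S, (h i).natDegree) := by
  classical
  set Dg := ∑ i ∈ S, (h i).natDegree with hDg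
  -- the part of `A` where all values are nonzero
  obtain ⟨P, hP⟩ : ∃ P : L → Prop, ∀ α, P α ↔ ∀ i ∈ S, aeval α (h i) ≠ 0 :=
    ⟨fun α => ∀ i ∈ S, aeval α (h i) ≠ 0, fun _ => Iff.rfl⟩
  set A₀ := A.filter P with hA₀
  have hAA : A.card ≤ A₀.card + Dg := by
    have h1 : A ⊆ A₀ ∪ S.biUnion fun i => (univ.filter fun α : L => aeval α (h i) = 0) := by
      intro α hα
      by_cases hz : ∀ i ∈ S, aeval α (h i) ≠ 0
      · exact mem_union_left _ (mem_filter.2 ⟨hα, (hP α).2 hz⟩)
      · push Not at hz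
        obtain ⟨i, hi, hz⟩ := hz
        exact mem_union_right _ (mem_biUnion.2 ⟨i, hi, mem_filter.2 ⟨mem_univ _, hz⟩⟩)
    refine (card_le_card h1).trans ((card_union_le _ _).trans (Nat.add_le_add_left ?_ _))
    refine card_biUnion_le.trans (sum_le_sum fun i hi => ?_)
    have h2 : ((h i).map (algebraMap k L)).natDegree = (h i).natDegree := natDegree_map _
    rw [← h2]
    apply card_le_degree_of_subset_roots
    intro α hα
    rw [mem_val, mem_filter] at hα
    rw [mem_roots ((Polynomial.map_ne_zero_iff (algebraMap k L).injective).2 (h0 i hi)), IsRoot.def,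
      eval_map_algebraMap]
    exact hα.2
  have hprod : (2 : ℤ) ^ S.card * A₀.card ≤
      ∑ α : L, ∏ i ∈ S, (1 + quadraticChar L (aeval α (h i))) := by
    have h1 : ∀ α : L, (0 : ℤ) ≤ ∏ i ∈ S, (1 + quadraticChar L (aeval α (h i))) := by
      intro α
      apply prod_nonneg
      intro i _
      rcases eq_or_ne (aeval α (h i)) 0 with h | h
      · rw [h]; simp
      · rcases quadraticChar_dichotomy h with h' | h' <;> rw [h'] <;> norm_num
    calc (2 : ℤ) ^ S.card * A₀.card = ∑ α ∈ A₀, (2 : ℤ) ^ S.card := by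
          rw [sum_const, nsmul_eq_mul, mul_comm]
      _ = ∑ α ∈ A₀, ∏ i ∈ S, (1 + quadraticChar L (aeval α (h i))) := by
          refine sum_congr rfl fun α hα => ?_
          rw [← prod_const]
          refine prod_congr rfl fun i hi => ?_
          rw [mem_filter, hP] at hα
          rw [(quadraticChar_one_iff_isSquare (hα.2 i hi)).2 (hA α hα.1 i hi)]
          norm_num
      _ ≤ _ := sum_le_sum_of_subset_of_nonneg (subset_univ _) fun α _ _ => h1 α
  have hexp : ∑ α : L, ∏ i ∈ S, (1 + quadraticChar L (aeval α (h i))) =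
      ∑ J ∈ S.powerset, ∑ α : L, quadraticChar L
        (((∏ i ∈ J, h i).map (algebraMap k L)).eval α) := by
    rw [sum_comm]
    refine sum_congr rfl fun α _ => ?_
    rw [prod_one_add]
    refine sum_congr rfl fun J _ => ?_
    rw [← map_prod, Polynomial.map_prod, eval_prod]
    simp only [eval_map_algebraMap]
  have hbound : ∀ J ∈ S.powerset, J.Nonempty → ∑ α : L, quadraticChar L
        (((∏ i ∈ J, h i).map (algebraMap k L)).eval α) ≤ (4 * (Dg + 1) * p ^ n : ℕ) := by
    intro J hJS hJ
    rw [mem_powerset] at hJS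
    have h1 := Stepanov14.char_sum_pn hp2 hmn hcard
      (prod_not_const_sq (L := L) (h := h) (v := v) hJ (fun i hi => h0 i (hJS hi))
        (fun i hi => hv i (hJS hi)) (fun i hi j hj => hvj i (hJS hi) j (hJS hj)))
    have h2 : ((∏ i ∈ J, h i).map (algebraMap k L)).natDegree ≤ Dg := by
      rw [natDegree_map]
      refine (natDegree_prod_le _ _).trans ?_
      exact sum_le_sum_of_subset hJS
    refine (le_abs_self _).trans (h1.trans ?_)
    push_cast
    gcongr
  have htot : ∑ J ∈ S.powerset, ∑ α : L, quadraticChar L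
        (((∏ i ∈ J, h i).map (algebraMap k L)).eval α) ≤
      Fintype.card L + 2 ^ S.card * (4 * (Dg + 1) * p ^ n : ℕ) := by
    rw [← sum_erase_add _ _ (empty_mem_powerset S), add_comm]
    apply add_le_add
    · simp
    · refine (sum_le_sum (g := fun _ => ((4 * (Dg + 1) * p ^ n : ℕ) : ℤ)) ?_).trans ?_
      · intro J hJ
        rw [mem_erase] at hJ
        exact hbound J hJ.2 (nonempty_iff_ne_empty.2 hJ.1)
      · rw [sum_const, nsmul_eq_mul]
        apply mul_le_mul_of_nonneg_right _ (by positivity)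
        have : (S.powerset.erase ∅).card ≤ 2 ^ S.card := by
          rw [← card_powerset]
          exact card_le_card (erase_subset _ _)
        exact_mod_cast this
  have hfin : (2 : ℤ) ^ S.card * A₀.card ≤
      Fintype.card L + 2 ^ S.card * (4 * (Dg + 1) * p ^ n : ℕ) :=
    hprod.trans (hexp.trans_le htot)
  have hfin' : 2 ^ S.card * A₀.card ≤ Fintype.card L + 2 ^ S.card * (4 * (Dg + 1) * p ^ n) := by
    exact_mod_cast hfin
  calc 2 ^ S.card * A.card ≤ 2 ^ S.card * (A₀.card + Dg) := Nat.mul_le_mul_left _ hAA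
    _ = 2 ^ S.card * A₀.card + 2 ^ S.card * Dg := by ring
    _ ≤ Fintype.card L + 2 ^ S.card * (4 * (Dg + 1) * p ^ n) + 2 ^ S.card * Dg :=
        Nat.add_le_add_right hfin' _
    _ = _ := by ring

end char

section cubic

variable {K : Type*} [Field K] [Fintype K] [DecidableEq K]

/-- A cubic polynomial function with one collision has many collisions. -/
theorem collisions (h2 : (2 : K) ≠ 0) (a b c : K) {x₀ y₀ : K} (hne : x₀ ≠ y₀)
    (hcol : x₀ ^ 3 + a * x₀ ^ 2 + b * x₀ + c = y₀ ^ 3 + a * y₀ ^ 2 + b * y₀ + c) :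
    Fintype.card K ≤ (univ.filter fun z : K × K => z.1 ≠ z.2 ∧
      z.1 ^ 3 + a * z.1 ^ 2 + b * z.1 + c = z.2 ^ 3 + a * z.2 ^ 2 + b * z.2 + c).card + 5 := by
  set s := x₀ + y₀ with hs
  set u := x₀ - y₀ with hu
  have hu0 : u ≠ 0 := sub_ne_zero.2 hne
  have hconic : u ^ 2 + 3 * s ^ 2 + 4 * a * s + 4 * b = 0 := by
    have h1 : u * (u ^ 2 + 3 * s ^ 2 + 4 * a * s + 4 * b) = 0 := by
      rw [hs, hu]
      linear_combination 4 * hcol
    exact (mul_eq_zero.1 h1).resolve_left hu0
  -- the bad slopes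
  set P : K[X] := (X ^ 2 + C 3) * (C (2 * u) * X + C (6 * s + 4 * a)) *
    (C u * X ^ 2 + C (6 * s + 4 * a) * X - C (3 * u)) with hP
  have hP1 : (X ^ 2 + C 3 : K[X]).natDegree = 2 := by compute_degree!
  have hP1' : (X ^ 2 + C 3 : K[X]) ≠ 0 := by
    intro h; rw [h] at hP1; simp at hP1
  have h2u : 2 * u ≠ 0 := mul_ne_zero h2 hu0
  have hP2 : (C (2 * u) * X + C (6 * s + 4 * a) : K[X]).natDegree = 1 := by compute_degree!
  have hP2' : (C (2 * u) * X + C (6 * s + 4 * a) : K[X]) ≠ 0 := by
    intro h; rw [h] at hP2; simp at hP2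
  have hP3 : (C u * X ^ 2 + C (6 * s + 4 * a) * X - C (3 * u) : K[X]).natDegree = 2 := by
    compute_degree!
  have hP3' : (C u * X ^ 2 + C (6 * s + 4 * a) * X - C (3 * u) : K[X]) ≠ 0 := by
    intro h; rw [h] at hP3; simp at hP3
  have hP0 : P ≠ 0 := mul_ne_zero (mul_ne_zero hP1' hP2') hP3'
  have hPdeg : P.natDegree = 5 := by
    rw [hP, natDegree_mul (mul_ne_zero hP1' hP2') hP3', natDegree_mul hP1' hP2', hP1, hP2, hP3]
  have hroots : (univ.filter fun l : K => P.eval l = 0).card ≤ 5 := by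
    rw [← hPdeg]
    apply card_le_degree_of_subset_roots
    intro l hl
    rw [mem_val, mem_filter] at hl
    rw [mem_roots hP0]
    exact hl.2
  have htot : Fintype.card K = (univ.filter fun l : K => P.eval l ≠ 0).card +
      (univ.filter fun l : K => P.eval l = 0).card := by
    have := card_filter_add_card_filter_not (s := (univ : Finset K)) (fun l : K => P.eval l ≠ 0)
    simp only [not_not] at this
    rw [this, card_univ]
  rw [htot]
  refine Nat.add_le_add ?_ hroots
  -- the map `l ↦` second intersection point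
  set δ : K → K := fun l => -(2 * l * u + 6 * s + 4 * a) / (l ^ 2 + 3) with hδ
  refine card_le_card_of_injOn
    (fun l => ((s + δ l + (u + l * δ l)) / 2, (s + δ l - (u + l * δ l)) / 2)) ?_ ?_
  · intro l hl
    have hl' : P.eval l ≠ 0 := by simpa using hl
    have hev : P.eval l = (l ^ 2 + 3) * (2 * u * l + (6 * s + 4 * a)) *
        (u * l ^ 2 + (6 * s + 4 * a) * l - 3 * u) := by
      rw [hP]
      simp only [eval_mul, eval_add, eval_sub, eval_pow, eval_X, eval_C]
    rw [hev] at hl'
    have hl1 : l ^ 2 + 3 ≠ 0 := left_ne_zero_of_mul (left_ne_zero_of_mul hl')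
    have hl3 : u * l ^ 2 + (6 * s + 4 * a) * l - 3 * u ≠ 0 := right_ne_zero_of_mul hl'
    have hδl : δ l * (l ^ 2 + 3) = -(2 * l * u + 6 * s + 4 * a) := by
      rw [hδ]
      exact div_mul_cancel₀ _ hl1
    have hul : u + l * δ l ≠ 0 := by
      intro h0
      apply hl3
      have : (u + l * δ l) * (l ^ 2 + 3) = 0 := by rw [h0, zero_mul]
      linear_combination (-1 : K) * this + l * hδl
    have hcon : (u + l * δ l) ^ 2 + 3 * (s + δ l) ^ 2 + 4 * a * (s + δ l) + 4 * b = 0 := by
      linear_combination hconic + δ l * hδl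
    simp only [coe_filter, mem_univ, true_and, Set.mem_ofPred_eq]
    refine ⟨?_, ?_⟩
    · intro h
      apply hul
      have h3 : (2 : K) * ((s + δ l + (u + l * δ l)) / 2) = 2 * ((s + δ l - (u + l * δ l)) / 2) := by
        rw [h]
      rw [mul_div_cancel₀ _ h2, mul_div_cancel₀ _ h2] at h3
      have h4 : (2 : K) * (u + l * δ l) = 0 := by linear_combination h3
      exact (mul_eq_zero.1 h4).resolve_left h2
    · set x := (s + δ l + (u + l * δ l)) / 2 with hx
      set y := (s + δ l - (u + l * δ l)) / 2 with hy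
      have e1 : u + l * δ l = x - y := by
        rw [hx, hy]
        field_simp
        ring
      have e2 : s + δ l = x + y := by
        rw [hx, hy]
        field_simp
        ring
      rw [e1, e2] at hcon
      have h4 : (4 : K) ≠ 0 := by
        have : (4 : K) = 2 * 2 := by norm_num
        rw [this]; exact mul_ne_zero h2 h2
      have h5 : (4 : K) * ((x ^ 3 + a * x ^ 2 + b * x + c) - (y ^ 3 + a * y ^ 2 + b * y + c)) = 0 := by
        linear_combination (x - y) * hcon
      exact sub_eq_zero.1 ((mul_eq_zero.1 h5).resolve_left h4)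
  · intro l hl l' hl' heq
    have hl0 : P.eval l ≠ 0 := by simpa using hl
    have hl0' : P.eval l' ≠ 0 := by simpa using hl'
    have hev : ∀ l, P.eval l = (l ^ 2 + 3) * (2 * u * l + (6 * s + 4 * a)) *
        (u * l ^ 2 + (6 * s + 4 * a) * l - 3 * u) := by
      intro l
      rw [hP]
      simp only [eval_mul, eval_add, eval_sub, eval_pow, eval_X, eval_C]
    rw [hev] at hl0
    have hl1 : l ^ 2 + 3 ≠ 0 := left_ne_zero_of_mul (left_ne_zero_of_mul hl0)
    have hl2 : 2 * u * l + (6 * s + 4 * a) ≠ 0 := right_ne_zero_of_mul (left_ne_zero_of_mul hl0)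
    have hδ0 : δ l ≠ 0 := by
      rw [hδ]
      apply div_ne_zero _ hl1
      rw [neg_ne_zero]
      intro h; apply hl2; linear_combination h
    simp only [Prod.mk.injEq] at heq
    obtain ⟨e1, e2⟩ := heq
    have e3 : (s + δ l + (u + l * δ l)) = (s + δ l' + (u + l' * δ l')) := by
      have := congrArg (fun z => z * 2) e1
      simpa only [div_mul_cancel₀ _ h2] using this
    have e4 : (s + δ l - (u + l * δ l)) = (s + δ l' - (u + l' * δ l')) := by
      have := congrArg (fun z => z * 2) e2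
      simpa only [div_mul_cancel₀ _ h2] using this
    have e5 : δ l = δ l' := by
      have : (2 : K) * (δ l - δ l') = 0 := by linear_combination e3 + e4
      exact sub_eq_zero.1 ((mul_eq_zero.1 this).resolve_left h2)
    have e6 : l * δ l = l' * δ l := by
      have : (2 : K) * (l * δ l - l' * δ l') = 0 := by linear_combination e3 - e4
      have h7 := sub_eq_zero.1 ((mul_eq_zero.1 this).resolve_left h2)
      rw [← e5] at h7
      exact h7
    exact mul_right_cancel₀ hδ0 e6

/-- A cubic polynomial function with one collision misses about one third of the values. -/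
theorem missed (h2 : (2 : K) ≠ 0) (a b c : K) {x₀ y₀ : K} (hne : x₀ ≠ y₀)
    (hcol : x₀ ^ 3 + a * x₀ ^ 2 + b * x₀ + c = y₀ ^ 3 + a * y₀ ^ 2 + b * y₀ + c) :
    Fintype.card K ≤ 3 * (univ.filter fun v : K =>
      ∀ x : K, x ^ 3 + a * x ^ 2 + b * x + c ≠ v).card + 5 := by
  have hc := collisions h2 a b c hne hcol
  set G : K → K := fun x => x ^ 3 + a * x ^ 2 + b * x + c with hG
  set ν : K → ℤ := fun v => ((univ.filter fun x : K => G x = v).card : ℤ) with hν
  have hν3 : ∀ v, ν v ≤ 3 := by
    intro v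
    have h3 : (X ^ 3 + C a * X ^ 2 + C b * X + C (c - v) : K[X]).natDegree = 3 := by
      compute_degree!
    have h0 : (X ^ 3 + C a * X ^ 2 + C b * X + C (c - v) : K[X]) ≠ 0 := by
      intro h; rw [h] at h3; simp at h3
    have : (univ.filter fun x : K => G x = v).card ≤ 3 := by
      rw [← h3]
      apply card_le_degree_of_subset_roots
      intro x hx
      rw [mem_val, mem_filter] at hx
      rw [mem_roots h0, IsRoot.def]
      simp only [eval_add, eval_mul, eval_pow, eval_X, eval_C]
      have := hx.2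
      rw [hG] at this
      linear_combination this
    show ((univ.filter fun x : K => G x = v).card : ℤ) ≤ 3
    exact_mod_cast this
  have hpt : ∀ v, ν v * ν v - 4 * ν v + 3 ≤ 3 * (if ∀ x : K, G x ≠ v then 1 else 0) := by
    intro v
    have h0 : 0 ≤ ν v := by positivity
    have h3 := hν3 v
    split_ifs with h
    · have : ν v = 0 := by
        rw [hν]
        simp only [Nat.cast_eq_zero, card_eq_zero]
        exact filter_eq_empty_iff.2 fun x _ => h x
      rw [this]; norm_num
    · push Not at h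
      obtain ⟨x, hx⟩ := h
      have : 1 ≤ ν v := by
        rw [hν]
        have : 0 < (univ.filter fun x : K => G x = v).card :=
          card_pos.2 ⟨x, mem_filter.2 ⟨mem_univ _, hx⟩⟩
        simp only
        omega
      nlinarith
  have hsum1 : ∑ v, ν v = Fintype.card K := by
    have := card_eq_sum_card_fiberwise (f := G) (s := (univ : Finset K)) (t := univ)
      (fun x _ => mem_coe.2 (mem_univ _))
    rw [card_univ] at this
    rw [this]
    push_cast
    rfl
  have hsum2 : ∑ v, ν v * ν v = ((univ.filter fun z : K × K => z.1 ≠ z.2 ∧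
      G z.1 = G z.2).card : ℤ) + Fintype.card K := by
    have e1 : ∀ v, ν v * ν v = ∑ x : K, ∑ y : K, if G x = v then (if G y = v then 1 else 0) else 0 := by
      intro v
      rw [hν]
      simp only [card_filter]
      push_cast
      rw [sum_mul_sum]
      refine sum_congr rfl fun x _ => sum_congr rfl fun y _ => ?_
      split_ifs <;> simp
    rw [sum_congr rfl fun v _ => e1 v, sum_comm]
    have e2 : ∀ x : K, ∑ v : K, ∑ y : K, (if G x = v then (if G y = v then 1 else 0) else 0 : ℤ) =
        ∑ y : K, ((if x ≠ y ∧ G x = G y then 1 else 0) + (if x = y then 1 else 0)) := by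
      intro x
      rw [sum_comm]
      refine sum_congr rfl fun y _ => ?_
      rw [sum_ite_eq]
      simp only [mem_univ, if_true]
      by_cases hxy : x = y
      · subst hxy; simp
      · simp [hxy, eq_comm]
    rw [sum_congr rfl fun x _ => e2 x]
    simp only [sum_add_distrib]
    congr 1
    · rw [card_filter, ← univ_product_univ, sum_product]
      push_cast
      rfl
    · simp
  have hmain : ∑ v, (ν v * ν v - 4 * ν v + 3) ≤ 3 * ((univ.filter fun v : K =>
      ∀ x : K, G x ≠ v).card : ℤ) := by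
    rw [card_filter]
    push_cast
    rw [mul_sum]
    exact sum_le_sum fun v _ => hpt v
  rw [sum_add_distrib, sum_sub_distrib, ← mul_sum, hsum1, hsum2, sum_const, nsmul_eq_mul,
    card_univ] at hmain
  have hc' : (Fintype.card K : ℤ) ≤ ((univ.filter fun z : K × K => z.1 ≠ z.2 ∧
      G z.1 = G z.2).card : ℤ) + 5 := by exact_mod_cast hc
  have : (Fintype.card K : ℤ) ≤ 3 * ((univ.filter fun v : K =>
      ∀ x : K, G x ≠ v).card : ℤ) + 5 := by linarith
  exact_mod_cast this

end cubic

end Pool.Agent.Lib.MP_89bcae_ag.Count14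

end

section

/-!
# Disjoint copies of an arrangement of lines: the linear algebra
-/

namespace Pool.Agent.Lib.MP_89bcae_ag.Lr

variable {ι κ : Type} {ℓ : ℕ}

/-- **Copies.** Proof: for every `k`, `hT` for `ε k` and
`f i = γ i - ∑ l, w l * (c {i, l} - g i) * ε k i l` gives `b k` with `ε k i j = b k i - b k j` for `i ≠ j`
(also for `i = j`, `hε0`). The left side of `heq` is then zero for the terms `l ≠ i, j`, and for `l = i`,
`l = j` (`{i, j, i} = {i, j}`), so
`z * b k i + γ i - ∑ l, w l * (c {i, l} - g i) * (b k i - b k l)` does not depend on `i`: it is `m k`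
(take `m k` its value at some `i₀`; nothing to prove if `ι` is empty). For `k, k'` the difference
`κ = b k - b k'` satisfies `∑ l, w l * (c {i, l} - g i) * (κ i - κ l) = z * κ i + (m k' - m k)`, so it is
constant by `hR`, and `ε k = ε k'`. Take `b k₀` for some `k₀` (or `0` if there is no `k₀`). -/
theorem core_copies [Fintype ι] [DecidableEq ι] [Fact ℓ.Prime] {w : ι → ZMod ℓ}
    {c : Finset ι → ZMod ℓ} {g : ι → ZMod ℓ} (hT : GoodT w c Finset.univ)
    (hR : GoodR w (fun i l => c {i, l}) g Finset.univ) (ε : κ → ι → ι → ZMod ℓ)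
    (hε : ∀ k i j, i ≠ j → ε k j i = -ε k i j) (hε0 : ∀ k i, ε k i i = 0) (z : ZMod ℓ)
    (γ : ι → ZMod ℓ)
    (heq : ∀ k i j, i ≠ j →
      ∑ l, w l * (c {i, j, l} - c {i, j}) * (ε k i j + ε k j l + ε k l i) =
        z * ε k i j + ((γ i - ∑ l, w l * (c {i, l} - g i) * ε k i l) -
          (γ j - ∑ l, w l * (c {j, l} - g j) * ε k j l))) :
    ∃ b : ι → ZMod ℓ, ∀ k i j, i ≠ j → ε k i j = b i - b j := by
  classical
  have hb : ∀ k, ∃ b : ι → ZMod ℓ, ∀ i j, ε k i j = b i - b j := by
    intro k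
    obtain ⟨b, hb⟩ := hT (ε k) (fun i => γ i - ∑ l, w l * (c {i, l} - g i) * ε k i l) z
      (fun i _ j _ hij => hε k i j hij) (fun i _ j _ hij => heq k i j hij)
    refine ⟨b, fun i j => ?_⟩
    by_cases hij : i = j
    · subst hij
      rw [hε0, sub_self]
    · exact hb i (Finset.mem_univ i) j (Finset.mem_univ j) hij
  choose b hb using hb
  have hF : ∀ k i j, z * b k i + (γ i - ∑ l, w l * (c {i, l} - g i) * (b k i - b k l)) =
      z * b k j + (γ j - ∑ l, w l * (c {j, l} - g j) * (b k j - b k l)) := by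
    intro k i j
    by_cases hij : i = j
    · rw [hij]
    · have h := heq k i j hij
      have h0 : ∑ l, w l * (c {i, j, l} - c {i, j}) * (ε k i j + ε k j l + ε k l i) = 0 := by
        refine Finset.sum_eq_zero fun l _ => ?_
        rw [hb k i j, hb k j l, hb k l i]
        ring
      rw [h0] at h
      simp only [hb] at h
      linear_combination -h
  have hκ : ∀ k k' i j, b k i - b k' i = b k j - b k' j := by
    intro k k' i j
    refine hR (fun i => b k i - b k' i) z
      ((z * b k' i + (γ i - ∑ l, w l * (c {i, l} - g i) * (b k' i - b k' l))) -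
        (z * b k i + (γ i - ∑ l, w l * (c {i, l} - g i) * (b k i - b k l))))
      (fun m _ => ?_) i (Finset.mem_univ i) j (Finset.mem_univ j)
    rw [hF k i m, hF k' i m]
    have e : ∑ l, w l * (c {m, l} - g m) * (b k m - b k' m - (b k l - b k' l)) =
        ∑ l, w l * (c {m, l} - g m) * (b k m - b k l) -
          ∑ l, w l * (c {m, l} - g m) * (b k' m - b k' l) := by
      rw [← Finset.sum_sub_distrib]
      exact Finset.sum_congr rfl fun l _ => by ring
    simp only [e]
    ring
  by_cases hk : Nonempty κ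
  · obtain ⟨k₀⟩ := hk
    refine ⟨b k₀, fun k i j _ => ?_⟩
    rw [hb k i j]
    linear_combination hκ k k₀ i j
  · exact ⟨fun _ => 0, fun k => (hk ⟨k⟩).elim⟩

/-- The symbols `c - ∑ g` are not all zero. Proof: otherwise `c {i, j} = g i + g j` for `i ≠ j` and
`c {i, j, l} = g i + g j + g l` for different `i, j, l`, so `c {i, j, l} - c {i, j} = g l`. For every
antisymmetric `ε` (with `ε i i = 0`), the sum in `GoodT` is
`∑_{l ≠ i, j} w l g l (ε i j + ε j l + ε l i)`, and the terms `l = i`, `l = j` of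
`∑ l, w l g l (ε i j + ε j l + ε l i)` are zero too; so it is
`(∑ w l g l) ε i j + f i - f j` with `f i = - ∑ l, w l g l ε i l`. So `hT` applies to every antisymmetric
`ε`, for instance with `ε s₁ s₂ = 1`, `ε s₂ s₁ = -1`, zero elsewhere, which is not of the form
`b i - b j` (three different elements `s₁, s₂, s₃`; see `GoodT.exists_ne` in `Lr/B06.lean`). -/
theorem GoodT.exists_ne_gauge [Fintype ι] [DecidableEq ι] [Fact ℓ.Prime] {w : ι → ZMod ℓ}
    {c : Finset ι → ZMod ℓ} (hT : GoodT w c Finset.univ) (g : ι → ZMod ℓ)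
    (hS : 3 ≤ Fintype.card ι) :
    (∃ i j l : ι, i ≠ j ∧ j ≠ l ∧ i ≠ l ∧ c {i, j, l} - ∑ m ∈ {i, j, l}, g m ≠ 0) ∨
      ∃ i j : ι, i ≠ j ∧ c {i, j} - ∑ m ∈ {i, j}, g m ≠ 0 := by
  by_contra hcon
  push Not at hcon
  obtain ⟨H3, H2⟩ := hcon
  obtain ⟨s₁, s₂, s₃, h12, h13, h23⟩ := Fintype.two_lt_card_iff.mp (show 2 < Fintype.card ι by omega)
  set ε : ι → ι → ZMod ℓ := fun i j =>
    (if i = s₁ ∧ j = s₂ then 1 else 0) - (if i = s₂ ∧ j = s₁ then 1 else 0) with hε
  have hanti : ∀ i j, ε j i = -ε i j := by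
    intro i j
    simp only [hε]
    rw [neg_sub]
    congr 1
    · exact if_congr and_comm rfl rfl
    · exact if_congr and_comm rfl rfl
  have hdiag : ∀ i, ε i i = 0 := by
    intro i
    simp only [hε]
    rw [if_neg (fun h => h12 (h.1.symm.trans h.2)), if_neg (fun h => h12 (h.2.symm.trans h.1)), sub_zero]
  have hdiff : ∀ i j l, i ≠ j → l ≠ i → l ≠ j → c {i, j, l} - c {i, j} = g l := by
    intro i j l hij hli hlj
    have e3 := H3 i j l hij hlj.symm hli.symm
    have e2 := H2 i j hij
    rw [sub_eq_zero] at e3 e2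
    rw [e3, e2, Finset.sum_pair hij, Finset.sum_insert (by simp [hij, hli.symm]), Finset.sum_pair hlj.symm]
    ring
  obtain ⟨b, hb⟩ := hT ε (fun i => -∑ l, w l * g l * ε i l) (∑ l, w l * g l) (fun i _ j _ _ => hanti i j) (by
    intro i _ j _ hij
    have h1 : ∀ l, w l * (c {i, j, l} - c {i, j}) * (ε i j + ε j l + ε l i) =
        w l * g l * ε i j + w l * g l * ε j l - w l * g l * ε i l := by
      intro l
      rw [hanti i l]
      by_cases hli : l = i
      · subst hli
        have e : c {l, j, l} = c {l, j} := by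
          congr 1
          ext x
          simp only [Finset.mem_insert, Finset.mem_singleton]
          tauto
        rw [e, hdiag, hanti l j]
        ring
      · by_cases hlj : l = j
        · subst hlj
          have e : c {i, l, l} = c {i, l} := by
            congr 1
            ext x
            simp only [Finset.mem_insert, Finset.mem_singleton]
            tauto
          rw [e, hdiag]
          ring
        · rw [hdiff i j l hij hli hlj]
          ring
    rw [Finset.sum_congr rfl (fun l _ => h1 l), Finset.sum_sub_distrib, Finset.sum_add_distrib, ← Finset.sum_mul]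
    ring)
  have e12 := hb s₁ (Finset.mem_univ _) s₂ (Finset.mem_univ _) h12
  have e13 := hb s₁ (Finset.mem_univ _) s₃ (Finset.mem_univ _) h13
  have e23 := hb s₂ (Finset.mem_univ _) s₃ (Finset.mem_univ _) h23
  have v12 : ε s₁ s₂ = 1 := by
    show (if s₁ = s₁ ∧ s₂ = s₂ then (1 : ZMod ℓ) else 0) - (if s₁ = s₂ ∧ s₂ = s₁ then 1 else 0) = 1
    rw [if_pos ⟨rfl, rfl⟩, if_neg (fun h => h12 h.1), sub_zero]
  have v13 : ε s₁ s₃ = 0 := by
    show (if s₁ = s₁ ∧ s₃ = s₂ then (1 : ZMod ℓ) else 0) - (if s₁ = s₂ ∧ s₃ = s₁ then 1 else 0) = 0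
    rw [if_neg (fun h => h23 h.2.symm), if_neg (fun h => h12 h.1), sub_zero]
  have v23 : ε s₂ s₃ = 0 := by
    show (if s₂ = s₁ ∧ s₃ = s₂ then (1 : ZMod ℓ) else 0) - (if s₂ = s₂ ∧ s₃ = s₁ then 1 else 0) = 0
    rw [if_neg (fun h => h12 h.1.symm), if_neg (fun h => h13 h.2.symm), sub_zero]
  rw [v12] at e12
  rw [v13] at e13
  rw [v23] at e23
  have : (1 : ZMod ℓ) = 0 := by linear_combination e12 - e13 + e23
  exact one_ne_zero this

end Pool.Agent.Lib.MP_89bcae_ag.Lr

end

section

/-!
# Quadratic characters of a Galois group and classes modulo squares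
-/

open WeierstrassCurve WeierstrassCurve.Affine

namespace Pool.Agent.Lib.MP_89bcae_ag

section Character

variable {F Ω : Type*} [Field F] [Field Ω] [Algebra F Ω] [IsGalois F Ω]

/-- A locally constant quadratic character of an absolute Galois group has an eigenvector. -/
lemma exists_eigen (χ : (Ω ≃ₐ[F] Ω) → ℤ) (h1 : ∀ g, χ g = 1 ∨ χ g = -1)
    (hmul : ∀ g h, χ (g * h) = χ g * χ h) (hcont : IsLocallyConstant χ) :
    ∃ β : Ω, β ≠ 0 ∧ ∀ g : Ω ≃ₐ[F] Ω, g β = (χ g : Ω) * β := by
  have hone : χ 1 = 1 := by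
    rcases h1 1 with h | h
    · exact h
    · have := hmul 1 1
      rw [mul_one, h] at this
      norm_num at this
  have hinv : ∀ g, χ g⁻¹ = χ g := by
    intro g
    have := hmul g g⁻¹
    rw [mul_inv_cancel, hone] at this
    rcases h1 g with h | h <;> rcases h1 g⁻¹ with h' | h' <;> rw [h, h'] at this <;> omega
  let H : ClosedSubgroup (Ω ≃ₐ[F] Ω) :=
    { carrier := {g | χ g = 1}
      mul_mem' := by
        intro a b ha hb
        simp only [Set.mem_ofPred_eq] at *
        rw [hmul, ha, hb, mul_one]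
      one_mem' := hone
      inv_mem' := by
        intro a ha
        simp only [Set.mem_ofPred_eq] at *
        rw [hinv, ha]
      isClosed' := by
        have : IsClopen (χ ⁻¹' {1}) := hcont.isClopen_fiber 1
        exact this.1 }
  by_cases hall : ∀ g, χ g = 1
  · exact ⟨1, one_ne_zero, fun g => by rw [hall g]; simp⟩
  · push Not at hall
    obtain ⟨g₀, hg₀⟩ := hall
    have hg₀' : χ g₀ = -1 := (h1 g₀).resolve_left hg₀
    have hfix := InfiniteGalois.fixingSubgroup_fixedField H
    have hnot : g₀ ∉ (IntermediateField.fixedField H.toSubgroup).fixingSubgroup := by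
      rw [hfix]
      exact hg₀
    rw [IntermediateField.mem_fixingSubgroup_iff] at hnot
    push Not at hnot
    obtain ⟨z, hz, hne⟩ := hnot
    rw [IntermediateField.mem_fixedField_iff] at hz
    refine ⟨z - g₀ z, sub_ne_zero.mpr (Ne.symm hne), ?_⟩
    have hH : ∀ h : Ω ≃ₐ[F] Ω, χ h = 1 → h z = z := fun h hh => hz h hh
    have hH' : ∀ h : Ω ≃ₐ[F] Ω, χ h = -1 → h z = g₀ z := by
      intro h hh
      have e1 : χ (g₀⁻¹ * h) = 1 := by rw [hmul, hinv, hg₀', hh]; norm_num
      have e2 := hH _ e1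
      have e3 : g₀ ((g₀⁻¹ * h) z) = g₀ z := by rw [e2]
      rw [← AlgEquiv.mul_apply, mul_inv_cancel_left] at e3
      exact e3
    intro g
    rcases h1 g with hg | hg
    · have e1 : g (g₀ z) = g₀ z := by
        rw [← AlgEquiv.mul_apply]
        exact hH' _ (by rw [hmul, hg, hg₀']; norm_num)
      rw [map_sub, hH g hg, e1, hg]
      simp
    · have e1 : g (g₀ z) = z := by
        rw [← AlgEquiv.mul_apply]
        exact hH _ (by rw [hmul, hg, hg₀']; norm_num)
      rw [map_sub, hH' g hg, e1, hg]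
      simp

omit [IsGalois F Ω] in
lemma sign_sq_fixed {χ : (Ω ≃ₐ[F] Ω) → ℤ} (h1 : ∀ g, χ g * χ g = 1) {β β' : Ω}
    (hβ : ∀ g : Ω ≃ₐ[F] Ω, g β = (χ g : Ω) * β) (hβ' : ∀ g : Ω ≃ₐ[F] Ω, g β' = (χ g : Ω) * β')
    (g : Ω ≃ₐ[F] Ω) : g (β * β') = β * β' := by
  rw [map_mul, hβ, hβ']
  have : (χ g : Ω) * (χ g : Ω) = 1 := by exact_mod_cast congrArg (Int.cast : ℤ → Ω) (h1 g)
  linear_combination (β * β') * this

lemma exists_of_fixed {x : Ω} (h : ∀ g : Ω ≃ₐ[F] Ω, g x = x) : ∃ y : F, algebraMap F Ω y = x :=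
  (InfiniteGalois.mem_range_algebraMap_iff_fixed x).mpr h

end Character

end Pool.Agent.Lib.MP_89bcae_ag

end

section

/-!
# The polynomials `H_i` and their special roots
-/

namespace Pool.Agent.Lib.MP_89bcae_ag.Frob14

open Polynomial Finset

variable (k F : Type*) [Field k] [Fintype k] [Field F] [Algebra k F]

/-- the elements with `x ^ (q ^ i) = x`, `q = |k|` -/
noncomputable def fixS (i : ℕ) : Finset F := by
  classical
  exact (X ^ (Fintype.card k ^ i) - X : F[X]).roots.toFinset

variable {k F}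

theorem one_lt_q_pow {i : ℕ} (hi : 0 < i) : 1 < Fintype.card k ^ i :=
  Nat.one_lt_pow (by omega) Fintype.one_lt_card

omit [Algebra k F] in
theorem mem_fixS {i : ℕ} (hi : 0 < i) {x : F} : x ∈ fixS k F i ↔ x ^ (Fintype.card k ^ i) = x := by
  classical
  rw [fixS, Multiset.mem_toFinset, mem_roots (FiniteField.X_pow_card_sub_X_ne_zero F
    (one_lt_q_pow hi)), IsRoot.def, eval_sub, eval_pow, eval_X, sub_eq_zero]

theorem card_fixS [IsAlgClosed F] {i : ℕ} (hi : 0 < i) :
    (fixS k F i).card = Fintype.card k ^ i := by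
  classical
  have hsep : (X ^ (Fintype.card k ^ i) - X : F[X]).Separable := by
    obtain ⟨p, hp⟩ := CharP.exists k
    have : Fact p.Prime := ⟨CharP.char_is_prime k p⟩
    have : CharP F p := charP_of_injective_algebraMap (algebraMap k F).injective p
    apply galois_poly_separable p
    obtain ⟨n, hn, hq⟩ := FiniteField.card k p
    rw [hq]
    exact dvd_pow (dvd_pow_self p n.2.ne') hi.ne'
  rw [fixS, Multiset.toFinset_card_of_nodup (nodup_roots hsep),
    ← (IsAlgClosed.splits _).natDegree_eq_card_roots,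
    FiniteField.X_pow_card_sub_X_natDegree_eq F (one_lt_q_pow hi)]

omit [Field k] [Algebra k F] in
theorem frob_iterate (i : ℕ) (x : F) :
    (fun y : F => y ^ Fintype.card k)^[i] x = x ^ (Fintype.card k ^ i) := by
  rw [pow_iterate]

/-- the Frobenius map is injective -/
theorem frob_injective : Function.Injective (fun y : F => y ^ Fintype.card k) := by
  intro a b h
  apply (FiniteField.frobeniusAlgHom k F : F →+* F).injective
  simpa using h

theorem mem_range_of_pow_eq {x : F} (hx : x ^ Fintype.card k = x) :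
    x ∈ (algebraMap k F).range := by
  classical
  -- the image of `k` has `q` elements, all roots of `X ^ q - X`
  have h0 : (X ^ (Fintype.card k) - X : F[X]) ≠ 0 :=
    FiniteField.X_pow_card_sub_X_ne_zero F Fintype.one_lt_card
  have hsub : (univ.image (algebraMap k F)) ⊆ (X ^ (Fintype.card k) - X : F[X]).roots.toFinset := by
    intro y hy
    rw [mem_image] at hy
    obtain ⟨c, _, rfl⟩ := hy
    rw [Multiset.mem_toFinset, mem_roots h0, IsRoot.def, eval_sub, eval_pow, eval_X, ← map_pow,
      FiniteField.pow_card, sub_self]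
  have hcard : (X ^ (Fintype.card k) - X : F[X]).roots.toFinset.card ≤
      (univ.image (algebraMap k F)).card := by
    rw [card_image_of_injective _ (algebraMap k F).injective, card_univ]
    refine (Multiset.toFinset_card_le _).trans ((card_roots' _).trans ?_)
    rw [FiniteField.X_pow_card_sub_X_natDegree_eq F Fintype.one_lt_card]
  have heq := eq_of_subset_of_card_le hsub hcard
  have : x ∈ (X ^ (Fintype.card k) - X : F[X]).roots.toFinset := by
    rw [Multiset.mem_toFinset, mem_roots h0, IsRoot.def, eval_sub, eval_pow, eval_X, hx, sub_self]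
  rw [← heq, mem_image] at this
  obtain ⟨c, _, rfl⟩ := this
  exact ⟨c, rfl⟩

theorem aeval_pow_q (g : k[X]) (x : F) (i : ℕ) :
    aeval (x ^ (Fintype.card k ^ i)) g = (aeval x g) ^ (Fintype.card k ^ i) := by
  induction i with
  | zero => simp
  | succ i ih =>
    rw [pow_succ, pow_mul, pow_mul, ← ih]
    have := FiniteField.frobeniusAlgHom k F
    have h1 := (aeval_algHom_apply (FiniteField.frobeniusAlgHom k F)
      (x ^ (Fintype.card k ^ i)) g)
    simpa using h1

/-- the polynomial `∏ (X - g(c)) (X - c)` over the `c` with `c ^ (q ^ i) = c` -/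
noncomputable def HF (F : Type*) [Field F] [Algebra k F] (g : k[X]) (i : ℕ) : F[X] :=
  ∏ c ∈ fixS k F i, ((X - C (aeval c g)) * (X - C c))

theorem HF_map_frob (g : k[X]) {i : ℕ} (hi : 0 < i) :
    (HF F g i).map (FiniteField.frobeniusAlgHom k F : F →+* F) = HF F g i := by
  classical
  unfold HF
  rw [Polynomial.map_prod]
  refine prod_bij (fun c _ => c ^ Fintype.card k) ?_ ?_ ?_ ?_
  · intro c hc
    rw [mem_fixS hi] at hc ⊢
    rw [← pow_mul, mul_comm, pow_mul, hc]
  · intro c _ c' _ h
    exact frob_injective (k := k) h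
  · -- surjective: injective self map of a finite set
    intro c hc
    have hinj : Set.InjOn (fun y : F => y ^ Fintype.card k) (fixS k F i : Set F) :=
      (frob_injective (k := k)).injOn
    have hmaps : Set.MapsTo (fun y : F => y ^ Fintype.card k) (fixS k F i : Set F) (fixS k F i) := by
      intro y hy
      rw [mem_coe, mem_fixS hi] at hy ⊢
      simp only
      rw [← pow_mul, mul_comm, pow_mul, hy]
    obtain ⟨y, hy, hyc⟩ := (Finset.surjOn_of_injOn_of_card_le _ hmaps hinj le_rfl) hc
    exact ⟨y, hy, hyc⟩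
  · intro c _
    have h1 := aeval_pow_q (F := F) g c 1
    rw [pow_one] at h1
    rw [Polynomial.map_mul, Polynomial.map_sub, Polynomial.map_sub, map_X, map_C, map_C, h1]
    simp

theorem HF_monic (g : k[X]) (i : ℕ) : (HF F g i).Monic := by
  apply monic_prod_of_monic
  intro c _
  exact (monic_X_sub_C _).mul (monic_X_sub_C _)

theorem HF_natDegree [IsAlgClosed F] (g : k[X]) {i : ℕ} (hi : 0 < i) :
    (HF F g i).natDegree = 2 * Fintype.card k ^ i := by
  unfold HF
  rw [natDegree_prod_of_monic _ _ fun c _ => (monic_X_sub_C _).mul (monic_X_sub_C _)]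
  rw [sum_congr rfl (g := fun _ => 2) fun c _ => by
    rw [(monic_X_sub_C _).natDegree_mul (monic_X_sub_C _), natDegree_X_sub_C, natDegree_X_sub_C]]
  rw [sum_const, card_fixS hi, smul_eq_mul, mul_comm]

/-- descent to `k` -/
theorem exists_H (F : Type*) [Field F] [Algebra k F] (g : k[X]) {i : ℕ} (hi : 0 < i) :
    ∃ h : k[X], h.map (algebraMap k F) = HF F g i := by
  have : HF F g i ∈ lifts (algebraMap k F) := by
    rw [lifts_iff_coeff_lifts]
    intro n
    have h1 := congrArg (fun P : F[X] => P.coeff n) (HF_map_frob (F := F) g hi)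
    simp only [coeff_map] at h1
    have h2 : (HF F g i).coeff n ^ Fintype.card k = (HF F g i).coeff n := by
      simpa using h1
    exact mem_range_of_pow_eq h2
  exact (mem_lifts _).1 this

/-- `H_i` over `k` -/
noncomputable def H (F : Type*) [Field F] [Algebra k F] (g : k[X]) (i : ℕ) : k[X] :=
  if hi : 0 < i then (exists_H F g hi).choose else 1

theorem H_map (g : k[X]) {i : ℕ} (hi : 0 < i) :
    (H F g i).map (algebraMap k F) = HF F g i := by
  rw [H, dif_pos hi]
  exact (exists_H F g hi).choose_spec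

theorem H_monic (g : k[X]) {i : ℕ} (hi : 0 < i) : (H F g i).Monic := by
  apply monic_of_injective (algebraMap k F).injective
  rw [H_map g hi]
  exact HF_monic g i

theorem H_natDegree [IsAlgClosed F] (g : k[X]) {i : ℕ} (hi : 0 < i) :
    (H F g i).natDegree = 2 * Fintype.card k ^ i := by
  rw [← natDegree_map (algebraMap k F), H_map g hi, HF_natDegree g hi]

/-- values of `H_i` -/
theorem aeval_H (g : k[X]) {i : ℕ} (hi : 0 < i) (α : F) :
    aeval α (H F g i) = ∏ c ∈ fixS k F i, ((α - aeval c g) * (α - c)) := by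
  rw [← eval_map_algebraMap, H_map g hi, HF, eval_prod]
  simp

/-- roots of `H_j` lie in the field with `q ^ j` elements -/
theorem HF_root {g : k[X]} {j : ℕ} (hj : 0 < j) {v : F} (hv : (HF F g j).IsRoot v) :
    v ^ (Fintype.card k ^ j) = v := by
  rw [IsRoot.def, HF, eval_prod, prod_eq_zero_iff] at hv
  obtain ⟨c, hc, h⟩ := hv
  rw [mem_fixS hj] at hc
  rw [eval_mul, mul_eq_zero] at h
  rcases h with h | h
  · simp only [eval_sub, eval_X, eval_C, sub_eq_zero] at h
    rw [h, ← aeval_pow_q, hc]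
  · simp only [eval_sub, eval_X, eval_C, sub_eq_zero] at h
    rw [h, hc]

theorem HF_rootMultiplicity {g : k[X]} {i : ℕ} (hi : 0 < i) {v : F}
    (hv : v ^ (Fintype.card k ^ i) = v)
    (hmiss : ∀ x : F, x ^ (Fintype.card k ^ i) = x → aeval x g ≠ v) :
    (HF F g i).rootMultiplicity v = 1 := by
  classical
  have hvS : v ∈ fixS k F i := (mem_fixS hi).2 hv
  have h0 := (HF_monic (F := F) g i).ne_zero
  have e : HF F g i = (X - C v) * ((X - C (aeval v g)) *
      ∏ c ∈ (fixS k F i).erase v, ((X - C (aeval c g)) * (X - C c))) := by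
    rw [HF, ← mul_prod_erase _ _ hvS]
    ring
  rw [e] at h0 ⊢
  rw [rootMultiplicity_mul h0, rootMultiplicity_X_sub_C_self]
  rw [rootMultiplicity_eq_zero, add_zero]
  rw [IsRoot.def, eval_mul, eval_prod]
  apply mul_ne_zero
  · simp only [eval_sub, eval_X, eval_C]
    exact sub_ne_zero.2 (hmiss v hv).symm
  · apply prod_ne_zero_iff.2
    intro c hc
    rw [mem_erase, mem_fixS hi] at hc
    rw [eval_mul]
    apply mul_ne_zero
    · simp only [eval_sub, eval_X, eval_C]
      exact sub_ne_zero.2 (hmiss c hc.2).symm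
    · simp only [eval_sub, eval_X, eval_C]
      exact sub_ne_zero.2 (Ne.symm hc.1)

end Pool.Agent.Lib.MP_89bcae_ag.Frob14

end

section

/-!
# Counting the exceptional elements
-/

namespace Pool.Agent.Lib.MP_89bcae_ag.Frob14

open Polynomial Finset

open scoped Classical

section fix

variable (k F : Type*) [Field k] [Fintype k] [Field F] [Algebra k F]

/-- the subfield with `q ^ i` elements -/
def fixI (i : ℕ) : IntermediateField k F where
  toSubalgebra := AlgHom.equalizer (FiniteField.frobeniusAlgHom k F ^ i) (AlgHom.id k F)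
  inv_mem' := by
    intro x hx
    change (FiniteField.frobeniusAlgHom k F ^ i) x⁻¹ = x⁻¹
    rw [map_inv₀]
    congr 1

variable {k F}

theorem frobPow_apply (i : ℕ) (x : F) :
    (FiniteField.frobeniusAlgHom k F ^ i) x = x ^ (Fintype.card k ^ i) := by
  induction i generalizing x with
  | zero => simp
  | succ i ih =>
    rw [pow_succ, AlgHom.mul_apply, ih]
    simp only [FiniteField.frobeniusAlgHom_apply]
    rw [← pow_mul, pow_succ, mul_comm]

theorem mem_fixI {i : ℕ} {x : F} : x ∈ fixI k F i ↔ x ^ (Fintype.card k ^ i) = x := by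
  rw [← frobPow_apply]
  rfl

theorem coe_fixI {i : ℕ} (hi : 0 < i) : ((fixI k F i : IntermediateField k F) : Set F) =
    (fixS k F i : Set F) := by
  ext x
  rw [SetLike.mem_coe, mem_fixI, mem_coe, mem_fixS hi]

theorem finite_fixI {i : ℕ} (hi : 0 < i) : Finite (fixI k F i) := by
  have : ((fixI k F i : IntermediateField k F) : Set F).Finite := by
    rw [coe_fixI hi]; exact finite_toSet _
  exact this.to_subtype

theorem natCard_fixI [IsAlgClosed F] {i : ℕ} (hi : 0 < i) :
    Nat.card (fixI k F i) = Fintype.card k ^ i := by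
  have h1 : Nat.card (fixI k F i) = ((fixI k F i : IntermediateField k F) : Set F).ncard := rfl
  rw [h1, coe_fixI hi, Set.ncard_coe_finset, card_fixS hi]

omit [Fintype k] in
theorem eq_cubic {g : k[X]} (hg : g.Monic) (hdeg : g.natDegree = 3) :
    g = X ^ 3 + C (g.coeff 2) * X ^ 2 + C (g.coeff 1) * X + C (g.coeff 0) := by
  conv_lhs => rw [g.as_sum_range_C_mul_X_pow, hdeg]
  simp only [sum_range_succ, range_zero, sum_empty, zero_add, pow_zero, mul_one, pow_one]
  have : g.coeff 3 = 1 := by rw [← hdeg]; exact hg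
  rw [this, C_1, one_mul]
  ring

theorem missed_card [IsAlgClosed F] (h2 : (2 : k) ≠ 0) {g : k[X]} (hg : g.Monic)
    (hdeg : g.natDegree = 3) (hcol : ∃ x y : k, x ≠ y ∧ g.eval x = g.eval y) {i : ℕ} (hi : 0 < i) :
    Fintype.card k ^ i ≤
      3 * {v ∈ fixS k F i | ∀ x : F, x ^ (Fintype.card k ^ i) = x → aeval x g ≠ v}.card + 5 := by
  have := finite_fixI (k := k) (F := F) hi
  let _ : Fintype (fixI k F i) := Fintype.ofFinite _
  obtain ⟨x, y, hxy, hcol⟩ := hcol
  let K := fixI k F i
  have hev : ∀ z : K, z ^ 3 + algebraMap k K (g.coeff 2) * z ^ 2 + algebraMap k K (g.coeff 1) * z +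
      algebraMap k K (g.coeff 0) = aeval z g := by
    intro z
    conv_rhs => rw [eq_cubic hg hdeg]
    simp
  have h2' : (2 : K) ≠ 0 := by
    have := (map_ne_zero (algebraMap k K)).2 h2
    rwa [map_ofNat] at this
  have h1 := Count14.missed h2' (algebraMap k K (g.coeff 2)) (algebraMap k K (g.coeff 1))
    (algebraMap k K (g.coeff 0)) (x₀ := algebraMap k K x) (y₀ := algebraMap k K y)
    (fun h => hxy ((algebraMap k K).injective h)) (by
      rw [hev, hev, aeval_algebraMap_apply, aeval_algebraMap_apply, coe_aeval_eq_eval,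
        coe_aeval_eq_eval, hcol])
  rw [← Nat.card_eq_fintype_card, natCard_fixI hi] at h1
  refine h1.trans ?_
  gcongr ?_ + _
  apply Nat.mul_le_mul_left
  apply card_le_card_of_injOn (fun z : K => (z : F))
  · intro v hv
    simp only [coe_filter, mem_univ, true_and, Set.mem_ofPred_eq] at hv
    simp only [coe_filter, Set.mem_ofPred_eq]
    refine ⟨(mem_fixS hi).2 (mem_fixI.1 v.2), ?_⟩
    intro x hx h
    apply hv ⟨x, mem_fixI.2 hx⟩
    rw [hev]
    apply Subtype.ext
    rw [← h]
    exact (aeval_algebraMap_apply F (⟨x, mem_fixI.2 hx⟩ : K) g).symm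
  · intro a _ b _ h
    exact Subtype.ext h

theorem two_mul_sum_pow_le {q : ℕ} (hq : 3 ≤ q) (m : ℕ) :
    2 * ∑ d ∈ Icc 1 m, q ^ d ≤ 3 * q ^ m := by
  induction m with
  | zero => simp
  | succ m ih =>
    have e : Icc 1 (m + 1) = insert (m + 1) (Icc 1 m) := by
      ext a
      simp only [mem_insert, mem_Icc]
      omega
    rw [e, sum_insert (by simp), pow_succ]
    nlinarith [pow_pos (show 0 < q by omega) m]

theorem small_card [IsAlgClosed F] (i : ℕ) (hi : 0 < i) :
    {v ∈ fixS k F i | ∃ j, 0 < j ∧ j < i ∧ v ^ (Fintype.card k ^ j) = v}.card ≤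
      ∑ d ∈ Icc 1 (i / 2), Fintype.card k ^ d := by
  have hsub : {v ∈ fixS k F i | ∃ j, 0 < j ∧ j < i ∧ v ^ (Fintype.card k ^ j) = v} ⊆
      (Icc 1 (i / 2)).biUnion fun d => fixS k F d := by
    intro v hv
    rw [mem_filter, mem_fixS hi] at hv
    obtain ⟨hvi, j, hj0, hji, hvj⟩ := hv
    set f : F → F := fun y => y ^ Fintype.card k with hf
    have hpi : Function.IsPeriodicPt f i v := by
      rw [Function.IsPeriodicPt, Function.IsFixedPt, hf, frob_iterate]; exact hvi
    have hpj : Function.IsPeriodicPt f j v := by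
      rw [Function.IsPeriodicPt, Function.IsFixedPt, hf, frob_iterate]; exact hvj
    have hdi := hpi.minimalPeriod_dvd
    have hdj := Nat.le_of_dvd hj0 hpj.minimalPeriod_dvd
    have hd0 := hpi.minimalPeriod_pos hi
    rw [mem_biUnion]
    refine ⟨Function.minimalPeriod f v, ?_, ?_⟩
    · rw [mem_Icc]
      refine ⟨hd0, ?_⟩
      obtain ⟨m, hm⟩ := hdi
      have hm2 : 2 ≤ m := by
        by_contra h
        have h' : m ≤ 1 := by omega
        have : Function.minimalPeriod f v * m ≤ Function.minimalPeriod f v * 1 :=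
          Nat.mul_le_mul_left _ h'
        omega
      rw [Nat.le_div_iff_mul_le (by norm_num)]
      conv_rhs => rw [hm]
      exact Nat.mul_le_mul_left _ hm2
    · rw [mem_fixS hd0]
      have := Function.isPeriodicPt_minimalPeriod f v
      rw [Function.IsPeriodicPt, Function.IsFixedPt, hf, frob_iterate] at this
      exact this
  refine (card_le_card hsub).trans (card_biUnion_le.trans (le_of_eq ?_))
  refine sum_congr rfl fun d hd => ?_
  rw [mem_Icc] at hd
  exact card_fixS (by omega)

/-- the elements of exact degree `i` that are not values of `g` on the field with `q ^ i`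
elements -/
theorem good_count [IsAlgClosed F] (h2 : (2 : k) ≠ 0) {g : k[X]} (hg : g.Monic)
    (hdeg : g.natDegree = 3) (hcol : ∃ x y : k, x ≠ y ∧ g.eval x = g.eval y) {i : ℕ} (hi : 0 < i) :
    2 * Fintype.card k ^ i ≤
      6 * {v ∈ fixS k F i | (∀ x : F, x ^ (Fintype.card k ^ i) = x → aeval x g ≠ v) ∧
        ∀ j, 0 < j → j < i → v ^ (Fintype.card k ^ j) ≠ v}.card +
      9 * Fintype.card k ^ (i / 2) + 10 := by
  have hq : 3 ≤ Fintype.card k := by
    by_contra h
    have h1 : Fintype.card k = 2 := by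
      have := Fintype.one_lt_card (α := k)
      omega
    have h3 : (Fintype.card k : k) = 0 := FiniteField.cast_card_eq_zero k
    rw [h1] at h3
    exact h2 (by exact_mod_cast h3)
  have h1 := missed_card (F := F) h2 hg hdeg hcol hi
  have h3 := small_card (k := k) (F := F) i hi
  have h4 := two_mul_sum_pow_le hq (i / 2)
  have h5 : {v ∈ fixS k F i | ∀ x : F, x ^ (Fintype.card k ^ i) = x → aeval x g ≠ v}.card ≤
      {v ∈ fixS k F i | (∀ x : F, x ^ (Fintype.card k ^ i) = x → aeval x g ≠ v) ∧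
        ∀ j, 0 < j → j < i → v ^ (Fintype.card k ^ j) ≠ v}.card +
      {v ∈ fixS k F i | ∃ j, 0 < j ∧ j < i ∧ v ^ (Fintype.card k ^ j) = v}.card := by
    refine (card_le_card ?_).trans (card_union_le _ _)
    intro v hv
    rw [mem_filter] at hv
    rw [mem_union, mem_filter, mem_filter]
    by_cases h : ∃ j, 0 < j ∧ j < i ∧ v ^ (Fintype.card k ^ j) = v
    · exact Or.inr ⟨hv.1, h⟩
    · push Not at h
      exact Or.inl ⟨hv.1, hv.2, h⟩
  omega

theorem exists_special [IsAlgClosed F] (h2 : (2 : k) ≠ 0) {g : k[X]} (hg : g.Monic)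
    (hdeg : g.natDegree = 3) (hcol : ∃ x y : k, x ≠ y ∧ g.eval x = g.eval y) {i : ℕ} (hi : 3 ≤ i) :
    ∃ v : F, v ^ (Fintype.card k ^ i) = v ∧
      (∀ x : F, x ^ (Fintype.card k ^ i) = x → aeval x g ≠ v) ∧
      ∀ j, 0 < j → j < i → v ^ (Fintype.card k ^ j) ≠ v := by
  have hq : 3 ≤ Fintype.card k := by
    by_contra h
    have h1 : Fintype.card k = 2 := by
      have := Fintype.one_lt_card (α := k)
      omega
    have h3 : (Fintype.card k : k) = 0 := FiniteField.cast_card_eq_zero k
    rw [h1] at h3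
    exact h2 (by exact_mod_cast h3)
  have h1 := good_count (F := F) h2 hg hdeg hcol (i := i) (by omega)
  have h3 : 9 * Fintype.card k ^ (i / 2) ≤ Fintype.card k ^ i := by
    calc 9 * Fintype.card k ^ (i / 2) ≤ Fintype.card k ^ 2 * Fintype.card k ^ (i / 2) := by
          apply Nat.mul_le_mul_right
          calc 9 = 3 ^ 2 := by norm_num
            _ ≤ _ := Nat.pow_le_pow_left hq 2
      _ = Fintype.card k ^ (2 + i / 2) := by rw [pow_add]
      _ ≤ _ := Nat.pow_le_pow_right (by omega) (by omega)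
  have h4 : 27 ≤ Fintype.card k ^ i := by
    calc 27 = 3 ^ 3 := by norm_num
      _ ≤ Fintype.card k ^ 3 := Nat.pow_le_pow_left hq 3
      _ ≤ _ := Nat.pow_le_pow_right (by omega) hi
  have h5 : 0 < {v ∈ fixS k F i | (∀ x : F, x ^ (Fintype.card k ^ i) = x → aeval x g ≠ v) ∧
        ∀ j, 0 < j → j < i → v ^ (Fintype.card k ^ j) ≠ v}.card := by omega
  obtain ⟨v, hv⟩ := card_pos.1 h5
  rw [mem_filter, mem_fixS (by omega)] at hv
  exact ⟨v, hv.1, hv.2.1, hv.2.2⟩

end fix

end Pool.Agent.Lib.MP_89bcae_ag.Frob14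

end

section

/-!
# The types modulo `p` of the polynomials `D`
-/

open Polynomial

open scoped Classical

namespace Pool.Agent.Lib.MP_89bcae_ag

/-- The polynomial `D(g(x))` is irreducible and the degree of `D` is `n`. -/
def TypeA7 {κ : Type} [Field κ] (g D : κ[X]) (n : ℕ) : Prop :=
  Irreducible (D.comp g) ∧ D.natDegree = n

/-- The polynomial `D` has degree `n` and a root `g(b)`, `b ∈ κ` with `g'(b) ≠ 0`, and for the quotient
`D₁` of `D` by `t - g(b)` the polynomial `D₁(g(x))` is irreducible. -/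
def TypeB7 {κ : Type} [Field κ] (g D : κ[X]) (n : ℕ) : Prop :=
  ∃ (b : κ) (D₁ : κ[X]), D = (X - C (g.eval b)) * D₁ ∧ (derivative g).eval b ≠ 0 ∧
    Irreducible (D₁.comp g) ∧ D.natDegree = n

end Pool.Agent.Lib.MP_89bcae_ag

end
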