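import Mathlib
import Pool.Agent.Lib.MP_89bcae_ag.Mk.K041
import Pool.Agent.Lib.MP_89bcae_ag.Mk.K046
import Pool.Agent.Lib.MP_89bcae_ag.Mk.K047

namespace Pool.Agent.Lib.MP_89bcae_ag.Superelliptic
end Pool.Agent.Lib.MP_89bcae_ag.Superelliptic

section

/-!
# Two-torsion and halving on `y² = (x - a)(x - b)(x - c)`

Elementary formulas for the group law on a Weierstrass curve over a field of characteristic not two
whose two-torsion is rational.
-/

open WeierstrassCurve WeierstrassCurve.Affine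

namespace Pool.Agent.Lib.MP_89bcae_ag

variable {F : Type*} [Field F] [DecidableEq F]

/-- `W` is the curve `y² = (x - a)(x - b)(x - c)` with `a, b, c` distinct, in characteristic
not two. -/
structure Split (W : Affine F) (a b c : F) : Prop where
  a₁ : W.a₁ = 0
  a₂ : W.a₂ = -(a + b + c)
  a₃ : W.a₃ = 0
  a₄ : W.a₄ = a * b + a * c + b * c
  a₆ : W.a₆ = -(a * b * c)
  ab : a ≠ b
  ac : a ≠ c
  bc : b ≠ c
  two : (2 : F) ≠ 0

namespace Split

variable {W : Affine F} {a b c : F}

omit [DecidableEq F] in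
lemma swap12 (h : Split W a b c) : Split W b a c where
  a₁ := h.a₁
  a₂ := by rw [h.a₂]; ring
  a₃ := h.a₃
  a₄ := by rw [h.a₄]; ring
  a₆ := by rw [h.a₆]; ring
  ab := h.ab.symm
  ac := h.bc
  bc := h.ac
  two := h.two

omit [DecidableEq F] in
lemma swap23 (h : Split W a b c) : Split W a c b where
  a₁ := h.a₁
  a₂ := by rw [h.a₂]; ring
  a₃ := h.a₃
  a₄ := by rw [h.a₄]; ring
  a₆ := by rw [h.a₆]; ring
  ab := h.ac
  ac := h.ab
  bc := h.bc.symm
  two := h.two

omit [DecidableEq F] in
lemma rot (h : Split W a b c) : Split W b c a := h.swap12.swap23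

omit [DecidableEq F] in
lemma equation_iff (h : Split W a b c) (x y : F) :
    W.Equation x y ↔ y ^ 2 = (x - a) * (x - b) * (x - c) := by
  rw [Affine.equation_iff, h.a₁, h.a₂, h.a₃, h.a₄, h.a₆]
  constructor <;> intro H <;> linear_combination H

omit [DecidableEq F] in
lemma negY_eq (h : Split W a b c) (x y : F) : W.negY x y = -y := by
  rw [Affine.negY, h.a₁, h.a₃]; ring

omit [DecidableEq F] in
lemma nonsingular_of_equation (h : Split W a b c) {x y : F}
    (H : y ^ 2 = (x - a) * (x - b) * (x - c)) : W.Nonsingular x y := by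
  rw [Affine.nonsingular_iff', h.equation_iff]
  refine ⟨H, ?_⟩
  rw [h.a₁, h.a₂, h.a₃, h.a₄]
  by_cases hy : y = 0
  · left
    subst hy
    have H' : (x - a) * (x - b) * (x - c) = 0 := by rw [← H]; ring
    rcases mul_eq_zero.mp H' with H' | H'
    · rcases mul_eq_zero.mp H' with H' | H'
      · obtain rfl : x = a := sub_eq_zero.mp H'
        intro h0
        have : (x - b) * (x - c) = 0 := by linear_combination -h0
        rcases mul_eq_zero.mp this with h1 | h1
        · exact h.ab (sub_eq_zero.mp h1)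
        · exact h.ac (sub_eq_zero.mp h1)
      · obtain rfl : x = b := sub_eq_zero.mp H'
        intro h0
        have : (x - a) * (x - c) = 0 := by linear_combination -h0
        rcases mul_eq_zero.mp this with h1 | h1
        · exact h.ab (sub_eq_zero.mp h1).symm
        · exact h.bc (sub_eq_zero.mp h1)
    · obtain rfl : x = c := sub_eq_zero.mp H'
      intro h0
      have : (x - a) * (x - b) = 0 := by linear_combination -h0
      rcases mul_eq_zero.mp this with h1 | h1
      · exact h.ac (sub_eq_zero.mp h1).symm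
      · exact h.bc (sub_eq_zero.mp h1).symm
  · right
    intro h0
    have : (2 : F) * y = 0 := by linear_combination h0
    rcases mul_eq_zero.mp this with h1 | h1
    · exact h.two h1
    · exact hy h1

/-- The two-torsion point `(a, 0)`. -/
def T (h : Split W a b c) : W.Point :=
  .some a 0 (h.nonsingular_of_equation (by ring))

omit [DecidableEq F] in
lemma eq_of_point (h : Split W a b c) {x y : F} (hP : W.Nonsingular x y) :
    y ^ 2 = (x - a) * (x - b) * (x - c) :=
  (h.equation_iff x y).mp hP.1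

/-- A point which is killed by two is `0` or one of the three points `(a, 0)`, `(b, 0)`,
`(c, 0)`. -/
lemma two_torsion (h : Split W a b c) (R : W.Point) (hR : R + R = 0) :
    R = 0 ∨ R = h.T ∨ R = h.swap12.T ∨ R = h.rot.rot.T := by
  rcases R with _ | ⟨x, y, hP⟩
  · exact Or.inl rfl
  · right
    by_cases hy : y = W.negY x y
    · rw [h.negY_eq] at hy
      have hy0 : y = 0 := by
        have : (2 : F) * y = 0 := by linear_combination hy
        rcases mul_eq_zero.mp this with h1 | h1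
        · exact absurd h1 h.two
        · exact h1
      subst hy0
      have H := h.eq_of_point hP
      have H' : (x - a) * (x - b) * (x - c) = 0 := by rw [← H]; ring
      rcases mul_eq_zero.mp H' with H' | H'
      · rcases mul_eq_zero.mp H' with H' | H'
        · obtain rfl : x = a := sub_eq_zero.mp H'
          exact Or.inl rfl
        · obtain rfl : x = b := sub_eq_zero.mp H'
          exact Or.inr (Or.inl rfl)
      · obtain rfl : x = c := sub_eq_zero.mp H'
        exact Or.inr (Or.inr rfl)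
    · rw [Point.add_self_of_Y_ne hy] at hR
      exact absurd hR (Point.some_ne_zero _)

lemma T_add_T (h : Split W a b c) : h.T + h.T = 0 := by
  apply Point.add_self_of_Y_eq
  rw [h.negY_eq]; ring

/-- The function `ρ_a(R) = ((x - a)² - (a - b)(a - c)) / (2 y)`, a square root of
`x(2R) - a`. -/
def rho (a b c x y : F) : F := ((x - a) ^ 2 - (a - b) * (a - c)) / (2 * y)

omit [DecidableEq F] in
lemma rho_comm (a b c x y : F) : rho a b c x y = rho a c b x y := by
  unfold rho; ring

/-- Doubling. -/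
lemma double_some (h : Split W a b c) {x y : F} (hP : W.Nonsingular x y) (hy : y ≠ 0) :
    ∃ (X Y : F) (H : W.Nonsingular X Y), Point.some x y hP + Point.some x y hP = .some X Y H ∧
      X - a = (rho a b c x y) ^ 2 ∧ X - b = (rho b a c x y) ^ 2 ∧ X - c = (rho c a b x y) ^ 2 := by
  have h2 := h.two
  have hy' : y ≠ W.negY x y := by
    rw [h.negY_eq]
    intro h0
    have : (2 : F) * y = 0 := by linear_combination h0
    rcases mul_eq_zero.mp this with h1 | h1
    · exact h2 h1
    · exact hy h1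
  have H := h.eq_of_point hP
  refine ⟨_, _, _, Point.add_self_of_Y_ne hy', ?_, ?_, ?_⟩
  all_goals
    rw [Affine.addX, slope_of_Y_ne rfl hy', h.negY_eq, h.a₁, h.a₂, h.a₄]
    unfold rho
    have e1 : y - -y = 2 * y := by ring
    rw [e1]
    field_simp
    rw [show y ^ 2 = (x - a) * (x - b) * (x - c) from H]
    ring

/-- Translation by a two-torsion point. -/
lemma add_T (h : Split W a b c) {x y : F} (hP : W.Nonsingular x y) (hy : y ≠ 0) :
    ∃ (H : W.Nonsingular (a + (a - b) * (a - c) / (x - a))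
        (-(y * ((a - b) * (a - c)) / (x - a) ^ 2))),
      Point.some x y hP + h.T = .some _ _ H := by
  have H := h.eq_of_point hP
  have hxa : x - a ≠ 0 := by
    intro h0
    apply hy
    have : y ^ 2 = 0 := by rw [H, h0]; ring
    exact pow_eq_zero_iff (two_ne_zero) |>.mp this
  have hx : x ≠ a := sub_ne_zero.mp hxa
  have key := Point.add_of_X_ne (W := W) (h₁ := hP) (h₂ := (h.nonsingular_of_equation (by ring) :
    W.Nonsingular a 0)) hx
  have eX : W.addX x a (W.slope x a y 0) = a + (a - b) * (a - c) / (x - a) := by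
    rw [Affine.addX, slope_of_X_ne hx, h.a₁, h.a₂]
    field_simp
    linear_combination H
  have eY : W.addY x a y (W.slope x a y 0) = -(y * ((a - b) * (a - c)) / (x - a) ^ 2) := by
    rw [Affine.addY, Affine.negAddY, h.negY_eq, eX, slope_of_X_ne hx]
    field_simp
    ring
  have N := nonsingular_add (W := W) hP ((h.nonsingular_of_equation (by ring) :
    W.Nonsingular a 0)) (fun hxy => hx hxy.left)
  rw [eX, eY] at N
  refine ⟨N, ?_⟩
  rw [T, key]
  simp only [Point.some.injEq]
  exact ⟨eX, eY⟩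

omit [DecidableEq F] in
lemma ne_root (h : Split W a b c) {x y : F} (hP : W.Nonsingular x y) (hy : y ≠ 0) :
    x - a ≠ 0 := by
  have H := h.eq_of_point hP
  intro h0
  apply hy
  have : y ^ 2 = 0 := by rw [H, h0]; ring
  exact pow_eq_zero_iff (two_ne_zero) |>.mp this

omit [DecidableEq F] in
/-- `ρ_a` is invariant under translation by `(a, 0)`. -/
lemma rho_add_T_self (h : Split W a b c) {x y : F} (hP : W.Nonsingular x y) (hy : y ≠ 0) :
    rho a b c (a + (a - b) * (a - c) / (x - a)) (-(y * ((a - b) * (a - c)) / (x - a) ^ 2)) =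
      rho a b c x y := by
  have hxa := h.ne_root hP hy
  have hab : a - b ≠ 0 := sub_ne_zero.mpr h.ab
  have hac : a - c ≠ 0 := sub_ne_zero.mpr h.ac
  have h2 := h.two
  unfold rho
  field_simp
  ring

omit [DecidableEq F] in
/-- `ρ_b` changes sign under translation by `(a, 0)`. -/
lemma rho_add_T_other (h : Split W a b c) {x y : F} (hP : W.Nonsingular x y) (hy : y ≠ 0) :
    rho b a c (a + (a - b) * (a - c) / (x - a)) (-(y * ((a - b) * (a - c)) / (x - a) ^ 2)) =
      - rho b a c x y := by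
  have hxa := h.ne_root hP hy
  have hab : a - b ≠ 0 := sub_ne_zero.mpr h.ab
  have hac : a - c ≠ 0 := sub_ne_zero.mpr h.ac
  have h2 := h.two
  unfold rho
  field_simp
  ring

/-- The doubling map is surjective over a field in which every element is a square. -/
lemma exists_half (h : Split W a b c) (hsq : ∀ z : F, ∃ w, w ^ 2 = z) (P : W.Point) :
    ∃ Q : W.Point, Q + Q = P := by
  rcases P with _ | ⟨X, Y, hP⟩
  · exact ⟨0, by simp [Point.zero_def]⟩
  · obtain ⟨r₁, h₁⟩ := hsq (X - a)
    obtain ⟨r₂, h₂⟩ := hsq (X - b)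
    obtain ⟨r₃, h₃⟩ := hsq (X - c)
    have h2 := h.two
    have h12 : r₁ + r₂ ≠ 0 := by
      intro h0
      apply h.ab
      have : r₁ ^ 2 = r₂ ^ 2 := by linear_combination (r₁ - r₂) * h0
      rw [h₁, h₂] at this
      linear_combination -this
    have h13 : r₁ + r₃ ≠ 0 := by
      intro h0
      apply h.ac
      have : r₁ ^ 2 = r₃ ^ 2 := by linear_combination (r₁ - r₃) * h0
      rw [h₁, h₃] at this
      linear_combination -this
    have h23 : r₂ + r₃ ≠ 0 := by
      intro h0
      apply h.bc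
      have : r₂ ^ 2 = r₃ ^ 2 := by linear_combination (r₂ - r₃) * h0
      rw [h₂, h₃] at this
      linear_combination -this
    set x := X + r₁ * r₂ + r₁ * r₃ + r₂ * r₃ with hx
    set y := (r₁ + r₂) * (r₁ + r₃) * (r₂ + r₃) with hy
    have xa : x - a = (r₁ + r₂) * (r₁ + r₃) := by rw [hx]; linear_combination -h₁
    have xb : x - b = (r₁ + r₂) * (r₂ + r₃) := by rw [hx]; linear_combination -h₂
    have xc : x - c = (r₁ + r₃) * (r₂ + r₃) := by rw [hx]; linear_combination -h₃
    have hN : W.Nonsingular x y := h.nonsingular_of_equation (by rw [xa, xb, xc, hy]; ring)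
    have hy0 : y ≠ 0 := mul_ne_zero (mul_ne_zero h12 h13) h23
    obtain ⟨X', Y', H', e, ea, -, -⟩ := h.double_some hN hy0
    have hX : X' = X := by
      have : rho a b c x y = r₁ := by
        unfold rho
        rw [div_eq_iff (mul_ne_zero h2 hy0), xa, hy]
        have e1 : a - b = r₂ ^ 2 - r₁ ^ 2 := by linear_combination h₁ - h₂
        have e2 : a - c = r₃ ^ 2 - r₁ ^ 2 := by linear_combination h₁ - h₃
        rw [e1, e2]
        ring
      rw [this] at ea
      linear_combination ea + h₁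
    rcases (Point.X_eq_iff (h₁ := H') (h₂ := hP)).mp hX with h0 | h0
    · exact ⟨.some x y hN, by rw [e, h0]⟩
    · refine ⟨-(.some x y hN), ?_⟩
      rw [← neg_add, e, h0, neg_neg]

omit [DecidableEq F] in
lemma T_ne_zero (h : Split W a b c) : h.T ≠ 0 := Point.some_ne_zero _

omit [DecidableEq F] in
lemma T_ne_T (h : Split W a b c) : h.T ≠ h.swap12.T := by
  intro H
  simp only [T, Point.some.injEq] at H
  exact h.ab H.1

/-- `(a, 0) + (b, 0) = (c, 0)`. -/
lemma T_add (h : Split W a b c) : h.T + h.swap12.T = h.rot.rot.T := by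
  have h1 : (h.T + h.swap12.T) + (h.T + h.swap12.T) = 0 := by
    have := h.T_add_T
    have := h.swap12.T_add_T
    calc (h.T + h.swap12.T) + (h.T + h.swap12.T) = (h.T + h.T) + (h.swap12.T + h.swap12.T) := by
          abel
      _ = 0 := by rw [h.T_add_T, h.swap12.T_add_T, add_zero]
  rcases h.two_torsion _ h1 with H | H | H | H
  · exfalso
    apply h.T_ne_T
    have := h.swap12.T_add_T
    calc h.T = h.T + (h.swap12.T + h.swap12.T) := by rw [this, add_zero]
      _ = (h.T + h.swap12.T) + h.swap12.T := by abel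
      _ = h.swap12.T := by rw [H, zero_add]
  · exfalso
    exact h.swap12.T_ne_zero (by simpa using H)
  · exfalso
    exact h.T_ne_zero (by simpa using H)
  · exact H

open Classical in
/-- The character `T ↦ e₂(T, (a, 0))` of the two-torsion. -/
noncomputable def chi (h : Split W a b c) (P : W.Point) : ℤ := if P = 0 ∨ P = h.T then 1 else -1

lemma chi_zero (h : Split W a b c) : h.chi 0 = 1 := by simp [chi]

lemma chi_self (h : Split W a b c) : h.chi h.T = 1 := by simp [chi]

lemma chi_other (h : Split W a b c) : h.chi h.swap12.T = -1 := by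
  have h1 : h.swap12.T ≠ h.T := h.T_ne_T.symm
  have h2 : h.swap12.T ≠ 0 := Point.some_ne_zero _
  simp [chi, h1, h2]

lemma chi_other' (h : Split W a b c) : h.chi h.rot.rot.T = -1 := by
  have h1 : h.rot.rot.T ≠ h.T := by
    intro H
    simp only [T, Point.some.injEq] at H
    exact h.ac H.1.symm
  have h2 : h.rot.rot.T ≠ 0 := Point.some_ne_zero _
  simp [chi, h1, h2]

lemma chi_sq (h : Split W a b c) (P : W.Point) : h.chi P * h.chi P = 1 := by
  unfold chi
  split_ifs <;> norm_num

lemma chi_add (h : Split W a b c) {P Q : W.Point} (hP : P + P = 0) (hQ : Q + Q = 0) :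
    h.chi (P + Q) = h.chi P * h.chi Q := by
  have e0 := h.chi_zero
  have ea := h.chi_self
  have eb := h.chi_other
  have ec := h.chi_other'
  have haa := h.T_add_T
  have hbb := h.swap12.T_add_T
  have hcc := h.rot.rot.T_add_T
  have hab : h.T + h.swap12.T = h.rot.rot.T := h.T_add
  have hba : h.swap12.T + h.T = h.rot.rot.T := by rw [add_comm]; exact hab
  have hac : h.T + h.rot.rot.T = h.swap12.T := by rw [← hab, ← add_assoc, haa, zero_add]
  have hca : h.rot.rot.T + h.T = h.swap12.T := by rw [add_comm]; exact hac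
  have hbc : h.swap12.T + h.rot.rot.T = h.T := by
    rw [← hab, add_comm h.T, ← add_assoc, hbb, zero_add]
  have hcb : h.rot.rot.T + h.swap12.T = h.T := by rw [add_comm]; exact hbc
  rcases h.two_torsion P hP with rfl | rfl | rfl | rfl <;>
  rcases h.two_torsion Q hQ with rfl | rfl | rfl | rfl <;>
  simp [e0, ea, eb, ec, haa, hbb, hcc, hab, hba, hac, hca, hbc, hcb]

lemma chi_swap23 (h : Split W a b c) (P : W.Point) : h.swap23.chi P = h.chi P := rfl

lemma chi_mul_chi (h : Split W a b c) {P : W.Point} (hP : P + P = 0) :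
    h.swap12.chi P * h.rot.rot.chi P = h.chi P := by
  have e1 : h.swap12.T ≠ h.T := h.T_ne_T.symm
  have e2 : h.rot.rot.T ≠ h.T := by
    intro H
    simp only [T, Point.some.injEq] at H
    exact h.ac H.1.symm
  have e3 : h.rot.rot.T ≠ h.swap12.T := by
    intro H
    simp only [T, Point.some.injEq] at H
    exact h.bc H.1.symm
  have z1 : h.T ≠ 0 := h.T_ne_zero
  have z2 : h.swap12.T ≠ 0 := h.swap12.T_ne_zero
  have z3 : h.rot.rot.T ≠ 0 := h.rot.rot.T_ne_zero
  rcases h.two_torsion P hP with rfl | rfl | rfl | rfl <;>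
  simp [chi, e1, e2, e3, e1.symm, e2.symm, e3.symm, z1, z2, z3]

lemma eq_zero_of_chi (h : Split W a b c) {P : W.Point} (hP : P + P = 0) (h1 : h.chi P = 1)
    (h2 : h.swap12.chi P = 1) : P = 0 := by
  rcases h.two_torsion P hP with rfl | rfl | rfl | rfl
  · rfl
  · exfalso
    have := h.swap12.chi_other
    have e : h.swap12.swap12.T = h.T := rfl
    rw [e, h2] at this
    norm_num at this
  · exfalso
    rw [h.chi_other] at h1
    norm_num at h1
  · exfalso
    rw [h.chi_other'] at h1
    norm_num at h1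

/-- `ρ_a` of a point, translated by a two-torsion point, changes by the character `chi`. -/
lemma rho_add_torsion (h : Split W a b c) {x y : F} (hP : W.Nonsingular x y) (hy : y ≠ 0)
    {x' y' : F} (hP' : W.Nonsingular x' y') {T : W.Point} (hT : T + T = 0)
    (e : Point.some x' y' hP' = Point.some x y hP + T) :
    rho a b c x' y' = (h.chi T : F) * rho a b c x y := by
  rcases h.two_torsion T hT with rfl | rfl | rfl | rfl
  · rw [h.chi_zero, add_zero] at *
    simp only [Point.some.injEq] at e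
    rw [e.1, e.2]; simp
  · rw [h.chi_self]
    obtain ⟨H, e'⟩ := h.add_T hP hy
    rw [e'] at e
    simp only [Point.some.injEq] at e
    rw [e.1, e.2, h.rho_add_T_self hP hy]; simp
  · rw [h.chi_other]
    obtain ⟨H, e'⟩ := h.swap12.add_T hP hy
    rw [e'] at e
    simp only [Point.some.injEq] at e
    rw [e.1, e.2, h.swap12.rho_add_T_other hP hy]; simp
  · rw [h.chi_other']
    obtain ⟨H, e'⟩ := h.rot.rot.add_T hP hy
    rw [e'] at e
    simp only [Point.some.injEq] at e
    rw [e.1, e.2, rho_comm a b c, rho_comm a b c, h.rot.rot.rho_add_T_other hP hy]; simp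

end Split

end Pool.Agent.Lib.MP_89bcae_ag

end

section

/-!
# Simple collisions of integral polynomials
-/

open Polynomial

open scoped Classical

set_option linter.unusedSimpArgs false
set_option linter.unusedVariables false
set_option linter.unusedSectionVars false

namespace Pool.Agent.Lib.MP_89bcae_ag

/-- A simple collision modulo the prime `p` of polynomials with integral coefficients. -/
def IsCollisionZ8 (p : ℕ) (g D : ℤ[X]) : Prop :=
  ∃ (a : ℤ) (h : (ZMod p)[X]),
    D.map (Int.castRingHom (ZMod p)) = (X - C (a : ZMod p)) ^ 2 * h ∧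
    (((X - C (a : ZMod p)) * h).comp (g.map (Int.castRingHom (ZMod p)))).Separable ∧
    ¬ ((p : ℤ) ^ 2 ∣ D.eval a)

theorem isCollision7_of_int8 {p : ℕ} (hp : p.Prime) (R : Type*) [CommRing R] [IsDomain R]
    [IsLocalRing R] [Algebra ℤ R] [hP : (Ideal.span {(p : ℤ)}).IsPrime]
    [IsLocalization.AtPrime R (Ideal.span {(p : ℤ)})] {g D : ℤ[X]} (h : IsCollisionZ8 p g D) :
    IsCollision7 (g.map (algebraMap ℤ R)) (D.map (algebraMap ℤ R)) := by
  obtain ⟨a, h, hD, hsep, ha⟩ := h
  have hmax : IsLocalRing.maximalIdeal R = Ideal.span {(algebraMap ℤ R p)} := by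
    rw [← IsLocalization.AtPrime.map_eq_maximalIdeal (Ideal.span {(p : ℤ)}) R, Ideal.map_span,
      Set.image_singleton]
  have hp0 : ((p : ℕ) : IsLocalRing.ResidueField R) = 0 := by
    have h1 : IsLocalRing.residue R (algebraMap ℤ R p) = 0 := by
      rw [IsLocalRing.residue_eq_zero_iff, hmax]
      exact Ideal.mem_span_singleton_self _
    simpa using h1
  have : CharP (IsLocalRing.ResidueField R) p := (CharP.charP_iff_prime_eq_zero hp).mpr hp0
  let φ : ZMod p →+* IsLocalRing.ResidueField R := ZMod.castHom (dvd_refl p) _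
  have hφ : (IsLocalRing.residue R).comp (algebraMap ℤ R) = φ.comp (Int.castRingHom (ZMod p)) :=
    RingHom.ext_int _ _
  have hφa : IsLocalRing.residue R (algebraMap ℤ R a) = φ (a : ZMod p) := RingHom.congr_fun hφ a
  refine ⟨algebraMap ℤ R a, h.map φ, ?_, ?_, ?_⟩
  · rw [Polynomial.map_map, hφ, ← Polynomial.map_map, hD, hφa]
    simp
  · rw [Polynomial.map_map, hφ, ← Polynomial.map_map, hφa]
    have h1 := hsep.map (f := φ)
    rw [Polynomial.map_comp, Polynomial.map_mul, Polynomial.map_sub, map_X, map_C] at h1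
    exact h1
  · rw [hmax, Ideal.span_singleton_pow, Ideal.mem_span_singleton, eval_map,
      eval₂_at_apply]
    rintro ⟨q, hq⟩
    obtain ⟨⟨x, s⟩, hxs⟩ := IsLocalization.surj (Ideal.span {(p : ℤ)}).primeCompl q
    have hinj : Function.Injective (algebraMap ℤ R) :=
      IsLocalization.injective R (Ideal.primeCompl_le_nonZeroDivisors (Ideal.span {(p : ℤ)}))
    have h1 : D.eval a * s = (p : ℤ) ^ 2 * x := by
      apply hinj
      have h2 : algebraMap ℤ R (D.eval a) = algebraMap ℤ R p ^ 2 * q := by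
        rw [← hq]
      rw [map_mul, map_mul, map_pow, h2, ← hxs]
      ring
    have h3 : IsCoprime ((p : ℤ) ^ 2) (s : ℤ) := by
      apply IsCoprime.pow_left
      rw [Prime.coprime_iff_not_dvd (Nat.prime_iff_prime_int.mp hp)]
      intro h4
      exact s.2 (Ideal.mem_span_singleton.mpr h4)
    exact ha (h3.dvd_of_dvd_mul_right ⟨x, h1⟩)

end Pool.Agent.Lib.MP_89bcae_ag

end

section

/-!
# The number of the polynomials with a simple collision modulo `p ^ 2`
-/

open Polynomial

open scoped Classical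

set_option linter.unusedSimpArgs false
set_option linter.unusedVariables false
set_option linter.unusedSectionVars false

namespace Pool.Agent.Lib.MP_89bcae_ag

/-- The polynomial with the given coefficients. -/
noncomputable def polyOf8 {R : Type*} [CommRing R] {n : ℕ} (v : Fin (n + 1) → R) : R[X] :=
  ∑ i : Fin (n + 1), C (v i) * X ^ (i : ℕ)

/-- The reduction modulo `p` of a vector modulo `p ^ 2`. -/
def red8 (p : ℕ) {n : ℕ} (v : Fin (n + 1) → ZMod (p ^ 2)) : Fin (n + 1) → ZMod p :=
  fun i => ZMod.castHom (dvd_pow_self p two_ne_zero) (ZMod p) (v i)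

/-- The residue classes modulo `p ^ 2` of the polynomials with a simple collision. -/
def TypeC8 (p : ℕ) (g : ℤ[X]) (n : ℕ) (v : Fin (n + 1) → ZMod (p ^ 2)) : Prop :=
  ∃ (a : ℤ) (h : (ZMod p)[X]), polyOf8 (red8 p v) = (X - C (a : ZMod p)) ^ 2 * h ∧
    (((X - C (a : ZMod p)) * h).comp (g.map (Int.castRingHom (ZMod p)))).Separable ∧
    ∑ i : Fin (n + 1), v i * (a : ZMod (p ^ 2)) ^ (i : ℕ) ≠ 0 ∧ red8 p v (Fin.last n) ≠ 0

theorem polyOf_coeff8 {R : Type*} [CommRing R] {n : ℕ} {D : R[X]} (hD : D.natDegree ≤ n) :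
    polyOf8 (fun i : Fin (n + 1) => D.coeff i) = D := by
  unfold polyOf8
  rw [Fin.sum_univ_eq_sum_range (fun i => C (D.coeff i) * X ^ i)]
  exact (as_sum_range_C_mul_X_pow' _ (Nat.lt_succ_of_le hD)).symm

theorem isCollisionZ8_of_typeC8 {p : ℕ} {g : ℤ[X]} {n : ℕ} {D : ℤ[X]} (hD : D.natDegree ≤ n)
    (h : TypeC8 p g n (fun i => (D.coeff i : ZMod (p ^ 2)))) :
    IsCollisionZ8 p g D ∧ ¬ (p : ℤ) ∣ D.coeff n := by
  obtain ⟨a, h, h1, h2, h3, h4⟩ := h
  have hred : red8 p (fun i : Fin (n + 1) => (D.coeff i : ZMod (p ^ 2))) =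
      fun i : Fin (n + 1) => (D.map (Int.castRingHom (ZMod p))).coeff i := by
    funext i
    unfold red8
    rw [map_intCast, coeff_map]
    rfl
  refine ⟨⟨a, h, ?_, h2, ?_⟩, ?_⟩
  · rw [← h1, hred, polyOf_coeff8 (natDegree_map_le.trans hD)]
  · intro hdvd
    apply h3
    have h5 : ((D.eval a : ℤ) : ZMod (p ^ 2)) = 0 := by
      rw [ZMod.intCast_zmod_eq_zero_iff_dvd]
      exact_mod_cast hdvd
    rw [← h5, eval_eq_sum_range' (Nat.lt_succ_of_le hD)]
    rw [← Fin.sum_univ_eq_sum_range (fun i => D.coeff i * a ^ i)]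
    push_cast
    rfl
  · intro hdvd
    apply h4
    rw [hred]
    show (D.map (Int.castRingHom (ZMod p))).coeff (Fin.last n : ℕ) = 0
    rw [Fin.val_last, coeff_map]
    exact (ZMod.intCast_zmod_eq_zero_iff_dvd _ _).mpr hdvd

section Crit

variable {K : Type*} [Field K]

/-- A monic cubic takes at most two critical values. -/
theorem card_crit8 (h3 : (3 : K) ≠ 0) {g : K[X]} (hg : g.Monic) (hdeg : g.natDegree = 3)
    (S : Finset K) (hS : ∀ e ∈ S, ¬ (g - C e).Separable) : S.card ≤ 2 := by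
  let L := AlgebraicClosure K
  have hder : derivative g ≠ 0 := by
    intro h0
    have h1 : (derivative g).coeff 2 = 0 := by rw [h0, coeff_zero]
    rw [coeff_derivative] at h1
    have h4 : g.coeff 3 = 1 := by rw [← hdeg]; exact hg
    have h5 : g.coeff (2 + 1) = 1 := h4
    rw [h5, one_mul] at h1
    apply h3
    rw [← h1]
    norm_num
  have hex : ∀ e ∈ S, ∃ θ ∈ ((derivative g).aroots L).toFinset, aeval θ g = algebraMap K L e := by
    intro e he
    have h1 := hS e he
    rw [Polynomial.Separable, Polynomial.isCoprime_iff_aeval_ne_zero_of_isAlgClosed K L] at h1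
    push Not at h1
    obtain ⟨θ, h4, h5⟩ := h1
    rw [derivative_sub, derivative_C, sub_zero] at h5
    rw [map_sub, aeval_C, sub_eq_zero] at h4
    exact ⟨θ, by rw [Multiset.mem_toFinset, mem_aroots]; exact ⟨hder, h5⟩, h4⟩
  choose! f hf1 hf2 using hex
  have h6 : S.card ≤ ((derivative g).aroots L).toFinset.card := by
    apply Finset.card_le_card_of_injOn f hf1
    intro x hx y hy hxy
    apply (algebraMap K L).injective
    rw [← hf2 x hx, ← hf2 y hy, hxy]
  refine h6.trans ((Multiset.toFinset_card_le _).trans ?_)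
  refine (card_roots' _).trans ?_
  rw [natDegree_map]
  have := natDegree_derivative_le g
  omega

end Crit

section Count

variable {p : ℕ} [Fact p.Prime]

/-- The polynomial with the leading coefficient `c`, the simple roots `S \ {a}` and the double root
`a`. -/
noncomputable def polC8 (c : ZMod p) (S : Finset (ZMod p)) (a : ZMod p) : (ZMod p)[X] :=
  C c * ((X - C a) * ∏ e ∈ S, (X - C e))

theorem natDegree_polC8 {c : ZMod p} (hc : c ≠ 0) (S : Finset (ZMod p)) (a : ZMod p) :
    (polC8 c S a).natDegree = S.card + 1 ∧ (polC8 c S a).leadingCoeff = c := by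
  have h1 : (∏ e ∈ S, (X - C e : (ZMod p)[X])).Monic := monic_prod_X_sub_C _ _
  have h2 : ((X - C a) * ∏ e ∈ S, (X - C e : (ZMod p)[X])).Monic := (monic_X_sub_C a).mul h1
  unfold polC8
  constructor
  · rw [natDegree_C_mul hc, (monic_X_sub_C a).natDegree_mul h1, natDegree_X_sub_C,
      natDegree_prod_of_monic _ _ (fun e _ => monic_X_sub_C e)]
    simp
    ring
  · rw [leadingCoeff_mul, leadingCoeff_C, h2.leadingCoeff, mul_one]

theorem roots_polC8 {c : ZMod p} (hc : c ≠ 0) (S : Finset (ZMod p)) {a : ZMod p} (ha : a ∈ S) :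
    (polC8 c S a).roots.toFinset = S := by
  have h1 : (∏ e ∈ S, (X - C e : (ZMod p)[X])).Monic := monic_prod_X_sub_C _ _
  have h2 : ((X - C a) * ∏ e ∈ S, (X - C e : (ZMod p)[X])).Monic := (monic_X_sub_C a).mul h1
  unfold polC8
  rw [roots_C_mul _ hc, roots_mul h2.ne_zero, roots_X_sub_C, roots_prod_X_sub_C]
  ext x
  simp
  intro h
  rw [h]; exact ha

theorem polC8_eq {c : ZMod p} {S : Finset (ZMod p)} {a : ZMod p} (ha : a ∈ S) :
    polC8 c S a = (X - C a) ^ 2 * (C c * ∏ e ∈ S.erase a, (X - C e)) := by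
  unfold polC8
  rw [← Finset.mul_prod_erase S _ ha]
  ring

theorem separable_polC8 {c : ZMod p} (hc : c ≠ 0) {S : Finset (ZMod p)} {a : ZMod p} (ha : a ∈ S)
    {g : (ZMod p)[X]} (hS : ∀ e ∈ S, (g - C e).Separable) :
    (((X - C a) * (C c * ∏ e ∈ S.erase a, (X - C e))).comp g).Separable := by
  have h1 : ((X - C a) * (C c * ∏ e ∈ S.erase a, (X - C e))).comp g =
      C c * ∏ e ∈ S, (g - C e) := by
    rw [mul_left_comm, Finset.mul_prod_erase S (fun e => (X - C e : (ZMod p)[X])) ha, mul_comp,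
      C_comp, prod_comp]
    congr 1
    exact Finset.prod_congr rfl fun e _ => by rw [sub_comp, X_comp, C_comp]
  rw [h1]
  have h2 : (∏ e ∈ S, (g - C e)).Separable := by
    apply separable_prod'
    · intro x hx y hy hxy
      refine ⟨C ((y - x)⁻¹), -C ((y - x)⁻¹), ?_⟩
      have h3 : C ((y - x)⁻¹) * C (y - x) = (1 : (ZMod p)[X]) := by
        rw [← C_mul, inv_mul_cancel₀ (sub_ne_zero.mpr (Ne.symm hxy)), C_1]
      rw [C_sub] at h3
      linear_combination h3
    · exact hS
  have h3 : (C c : (ZMod p)[X]).Separable := separable_C c |>.mpr (isUnit_iff_ne_zero.mpr hc)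
  refine h3.mul h2 ⟨C c⁻¹, 0, ?_⟩
  rw [zero_mul, add_zero, ← C_mul, inv_mul_cancel₀ hc, C_1]

/-- The number of the lifts of a set of vectors modulo `p`. -/
theorem card_lift8 (k : ℕ) (B : Finset (Fin (k + 1) → ZMod p)) :
    B.card * p ^ (k + 1) ≤
      (Finset.univ.filter fun v : Fin (k + 1) → ZMod (p ^ 2) => red8 p v ∈ B).card := by
  have hp : p.Prime := Fact.out
  have hp0 : 0 < p := hp.pos
  have : NeZero p := ⟨hp0.ne'⟩
  have h1 : (B ×ˢ (Finset.univ : Finset (Fin (k + 1) → Fin p))).card = B.card * p ^ (k + 1) := by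
    rw [Finset.card_product, Finset.card_univ, Fintype.card_fun, Fintype.card_fin,
      Fintype.card_fin]
  rw [← h1]
  have hlt : ∀ (b : ZMod p) (w : Fin p), b.val + p * (w : ℕ) < p ^ 2 := by
    intro b w
    have h2 := ZMod.val_lt b
    have h3 := w.2
    have h4 : p * ((w : ℕ) + 1) ≤ p * p := Nat.mul_le_mul_left p h3
    rw [sq]
    nlinarith
  apply Finset.card_le_card_of_injOn
    (fun q i => (((q.1 i).val + p * (q.2 i : ℕ) : ℕ) : ZMod (p ^ 2)))
  · rintro ⟨b, w⟩ hq
    rw [Finset.mem_coe, Finset.mem_product] at hq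
    rw [Finset.mem_coe, Finset.mem_filter]
    refine ⟨Finset.mem_univ _, ?_⟩
    have h2 : red8 p (fun i => (((b i).val + p * (w i : ℕ) : ℕ) : ZMod (p ^ 2))) = b := by
      funext i
      unfold red8
      rw [map_natCast]
      push_cast
      rw [ZMod.natCast_self, zero_mul, add_zero, ZMod.natCast_zmod_val]
    show red8 p (fun i => (((b i).val + p * (w i : ℕ) : ℕ) : ZMod (p ^ 2))) ∈ B
    rw [h2]
    exact hq.1
  · rintro ⟨b, w⟩ _ ⟨b', w'⟩ _ h
    have h2 : ∀ i, (b i).val + p * (w i : ℕ) = (b' i).val + p * (w' i : ℕ) := by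
      intro i
      have h3 := congrFun h i
      change (((b i).val + p * (w i : ℕ) : ℕ) : ZMod (p ^ 2)) =
        (((b' i).val + p * (w' i : ℕ) : ℕ) : ZMod (p ^ 2)) at h3
      rw [ZMod.natCast_eq_natCast_iff] at h3
      exact Nat.ModEq.eq_of_lt_of_lt h3 (hlt _ _) (hlt _ _)
    have h3 : b = b' := by
      funext i
      apply ZMod.val_injective
      have h4 := congrArg (· % p) (h2 i)
      simp only [Nat.add_mul_mod_self_left, Nat.mod_eq_of_lt (ZMod.val_lt _)] at h4
      exact h4
    subst h3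
    have h4 : w = w' := by
      funext i
      apply Fin.ext
      have h5 := h2 i
      exact Nat.eq_of_mul_eq_mul_left hp0 (by omega)
    rw [h4]

/-- A root chosen in a nonempty set. -/
noncomputable def pick8 (S : Finset (ZMod p)) : ZMod p := if h : S.Nonempty then h.choose else 0

theorem pick_mem8 {S : Finset (ZMod p)} (h : S.Nonempty) : pick8 S ∈ S := by
  unfold pick8
  rw [dif_pos h]
  exact h.choose_spec

/-- The number of the polynomials modulo `p` with one double root. -/
theorem card_polC8 (m : ℕ) (hm : 1 ≤ m) (A : Finset (ZMod p)) :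
    (((Finset.univ.filter fun c : ZMod p => c ≠ 0) ×ˢ A.powersetCard m).image
      (fun q => fun i : Fin (m + 2) => (polC8 q.1 q.2 (pick8 q.2)).coeff i)).card =
      (p - 1) * A.card.choose m := by
  have hp : p.Prime := Fact.out
  have : NeZero p := ⟨hp.ne_zero⟩
  rw [Finset.card_image_of_injOn, Finset.card_product, Finset.card_powersetCard]
  · congr 1
    rw [Finset.filter_ne', Finset.card_erase_of_mem (Finset.mem_univ _), Finset.card_univ,
      ZMod.card]
  · rintro ⟨c, S⟩ hq ⟨c', S'⟩ hq' h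
    rw [Finset.mem_coe, Finset.mem_product, Finset.mem_filter, Finset.mem_powersetCard] at hq hq'
    have hc : c ≠ 0 := hq.1.2
    have hc' : c' ≠ 0 := hq'.1.2
    have hS : S.card = m := hq.2.2
    have hS' : S'.card = m := hq'.2.2
    have hne : S.Nonempty := Finset.card_pos.mp (by omega)
    have hne' : S'.Nonempty := Finset.card_pos.mp (by omega)
    obtain ⟨h1, h2⟩ := natDegree_polC8 hc S (pick8 S)
    obtain ⟨h1', h2'⟩ := natDegree_polC8 hc' S' (pick8 S')
    have h3 : polC8 c S (pick8 S) = polC8 c' S' (pick8 S') := by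
      rw [← polyOf_coeff8 (n := m + 1) (D := polC8 c S (pick8 S)) (by omega),
        ← polyOf_coeff8 (n := m + 1) (D := polC8 c' S' (pick8 S')) (by omega)]
      exact congrArg polyOf8 h
    have h4 : c = c' := by rw [← h2, h3, h2']
    have h5 : S = S' := by
      rw [← roots_polC8 hc S (pick_mem8 hne), h3, roots_polC8 hc' S' (pick_mem8 hne')]
    rw [h4, h5]

theorem count_typeC_aux8 (m : ℕ) (hm : 1 ≤ m) (h3 : 3 < p) {g : ℤ[X]} (hg : g.Monic)
    (hdeg : g.natDegree = 3) :
    (p - 1) * (p - 2).choose m * p ^ (m + 2) ≤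
      2 * {v : Fin (m + 2) → ZMod (p ^ 2) | TypeC8 p g (m + 1) v}.ncard := by
  have hp : p.Prime := Fact.out
  have : NeZero p := ⟨hp.ne_zero⟩
  have : NeZero (p ^ 2) := ⟨pow_ne_zero 2 hp.ne_zero⟩
  set g' := g.map (Int.castRingHom (ZMod p)) with hg'
  have hgm : g'.Monic := hg.map _
  have hgd : g'.natDegree = 3 := by rw [hg', hg.natDegree_map, hdeg]
  have h30 : (3 : ZMod p) ≠ 0 := by
    intro h
    have h4 : ((3 : ℕ) : ZMod p) = 0 := by exact_mod_cast h
    rw [ZMod.natCast_eq_zero_iff] at h4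
    exact absurd (Nat.le_of_dvd (by norm_num) h4) (by omega)
  obtain ⟨A, hAdef⟩ : ∃ A : Finset (ZMod p),
      A = Finset.univ.filter fun e => (g' - C e).Separable := ⟨_, rfl⟩
  have hA : p - 2 ≤ A.card := by
    have h1 := card_crit8 h30 hgm hgd (Finset.univ.filter fun e => ¬ (g' - C e).Separable)
      (fun e he => (Finset.mem_filter.mp he).2)
    have h2 := Finset.card_filter_add_card_filter_not (s := (Finset.univ : Finset (ZMod p)))
      (fun e => (g' - C e).Separable)
    rw [Finset.card_univ, ZMod.card, ← hAdef] at h2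
    omega
  set B := ((Finset.univ.filter fun c : ZMod p => c ≠ 0) ×ˢ A.powersetCard m).image
      (fun q => fun i : Fin (m + 2) => (polC8 q.1 q.2 (pick8 q.2)).coeff i) with hB
  have hBc : (p - 1) * (p - 2).choose m ≤ B.card := by
    rw [hB, card_polC8 m hm A]
    exact Nat.mul_le_mul_left _ (Nat.choose_le_choose m hA)
  obtain ⟨Q, hQ⟩ : ∃ Q : Finset (Fin (m + 2) → ZMod (p ^ 2)),
      Q = Finset.univ.filter fun v => red8 p v ∈ B := ⟨_, rfl⟩
  have hlift : B.card * p ^ (m + 2) ≤ Q.card := by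
    rw [hQ]
    convert card_lift8 (p := p) (m + 1) B
  refine (Nat.mul_le_mul_right _ hBc).trans (hlift.trans ?_)
  -- the translation
  let T : Finset (Fin (m + 2) → ZMod (p ^ 2)) := Finset.univ.filter fun v => TypeC8 p g (m + 1) v
  have hT : {v : Fin (m + 2) → ZMod (p ^ 2) | TypeC8 p g (m + 1) v}.ncard = T.card := by
    rw [← Set.ncard_coe_finset]
    congr 1
    ext v
    simp [T]
  rw [hT]
  have hsplit : (Q.filter (fun v => TypeC8 p g (m + 1) v)).card +
      (Q.filter (fun v => ¬ TypeC8 p g (m + 1) v)).card = Q.card := by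
    convert Finset.card_filter_add_card_filter_not (s := Q) (fun v => TypeC8 p g (m + 1) v)
  have hA1 : (Q.filter (fun v => TypeC8 p g (m + 1) v)).card ≤ T.card := by
    apply Finset.card_le_card
    intro v hv
    rw [Finset.mem_filter] at hv
    exact Finset.mem_filter.mpr ⟨Finset.mem_univ _, hv.2⟩
  have hA2 : (Q.filter (fun v => ¬ TypeC8 p g (m + 1) v)).card ≤ T.card := by
    apply Finset.card_le_card_of_injOn
      (fun v => v + Pi.single (0 : Fin (m + 2)) (p : ZMod (p ^ 2)))
    · intro v hv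
      rw [Finset.mem_coe, Finset.mem_filter, hQ, Finset.mem_filter] at hv
      obtain ⟨⟨-, hvB⟩, hvT⟩ := hv
      rw [hB, Finset.mem_image] at hvB
      obtain ⟨⟨c, S⟩, hq, hv⟩ := hvB
      rw [Finset.mem_product, Finset.mem_filter, Finset.mem_powersetCard] at hq
      have hc : c ≠ 0 := hq.1.2
      have hS : S.card = m := hq.2.2
      have hne : S.Nonempty := Finset.card_pos.mp (by omega)
      have hpm := pick_mem8 hne
      have hSA : ∀ e ∈ S, (g' - C e).Separable := fun e he =>
        by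
          have h8 := hq.2.1 he
          rw [hAdef, Finset.mem_filter] at h8
          exact h8.2
      obtain ⟨h1, h2⟩ := natDegree_polC8 hc S (pick8 S)
      have hred : ∀ v' : Fin (m + 2) → ZMod (p ^ 2), red8 p v' = red8 p v →
          ∑ i : Fin (m + 2), v' i * (((pick8 S).val : ℤ) : ZMod (p ^ 2)) ^ (i : ℕ) ≠ 0 →
          TypeC8 p g (m + 1) v' := by
        intro v' hv' hne'
        have hpick : ((((pick8 S).val : ℤ)) : ZMod p) = pick8 S := by
          push_cast
          exact ZMod.natCast_zmod_val _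
        refine ⟨((pick8 S).val : ℤ), C c * ∏ e ∈ S.erase (pick8 S), (X - C e), ?_, ?_, hne', ?_⟩
        · rw [hpick, hv', ← hv, ← polC8_eq hpm]
          exact polyOf_coeff8 (show (polC8 c S (pick8 S)).natDegree ≤ m + 1 by omega)
        · rw [hpick]
          exact separable_polC8 hc hpm hSA
        · rw [hv', ← hv]
          show (polC8 c S (pick8 S)).coeff (Fin.last (m + 1) : ℕ) ≠ 0
          rw [Fin.val_last]
          have h5 : m + 1 = (polC8 c S (pick8 S)).natDegree := by omega
          rw [h5, coeff_natDegree, h2]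
          exact hc
      have h0 : ∑ i : Fin (m + 2), v i * (((pick8 S).val : ℤ) : ZMod (p ^ 2)) ^ (i : ℕ) = 0 := by
        by_contra h0
        exact hvT (hred v rfl h0)
      rw [Finset.mem_coe, Finset.mem_filter]
      refine ⟨Finset.mem_univ _, hred _ ?_ ?_⟩
      · funext i
        show ZMod.castHom (dvd_pow_self p two_ne_zero) (ZMod p)
          ((v + Pi.single (0 : Fin (m + 2)) (p : ZMod (p ^ 2)) : Fin (m + 2) → ZMod (p ^ 2)) i) =
            ZMod.castHom (dvd_pow_self p two_ne_zero) (ZMod p) (v i)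
        rw [Pi.add_apply, map_add]
        by_cases hi : i = 0
        · rw [hi, Pi.single_eq_same, map_natCast, ZMod.natCast_self, add_zero]
        · rw [Pi.single_eq_of_ne hi, map_zero, add_zero]
      · have h6 : ∑ i : Fin (m + 2),
            (v + Pi.single (0 : Fin (m + 2)) (p : ZMod (p ^ 2)) : Fin (m + 2) → ZMod (p ^ 2)) i *
            (((pick8 S).val : ℤ) : ZMod (p ^ 2)) ^ (i : ℕ) = p := by
          simp only [Pi.add_apply, add_mul]
          rw [Finset.sum_add_distrib, h0, zero_add, Finset.sum_eq_single 0]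
          · rw [Pi.single_eq_same, Fin.val_zero, pow_zero, mul_one]
          · intro i _ hi
            rw [Pi.single_eq_of_ne hi, zero_mul]
          · intro h; exact absurd (Finset.mem_univ _) h
        rw [h6]
        intro h7
        rw [ZMod.natCast_eq_zero_iff] at h7
        have h8 := Nat.le_of_dvd hp.pos h7
        have h9 := hp.two_le
        nlinarith
    · intro v _ v' _ h
      exact add_right_cancel h
  omega

end Count

/-- **The number of the residue classes with a simple collision.** -/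
theorem count_typeC8 (n : ℕ) (hn : 2 ≤ n) : ∃ c : ℝ, 0 < c ∧ ∃ P0 : ℕ, ∀ p : ℕ, p.Prime →
    P0 ≤ p → ∀ g : ℤ[X], g.Monic → g.natDegree = 3 →
      c / p * ((p : ℝ) ^ 2) ^ (n + 1) ≤
        ({v : Fin (n + 1) → ZMod (p ^ 2) | TypeC8 p g n v}.ncard : ℝ) := by
  obtain ⟨m, rfl⟩ : ∃ m, n = m + 1 := ⟨n - 1, by omega⟩
  have hm : 1 ≤ m := by omega
  refine ⟨1 / (2 ^ (m + 2) * m.factorial), by positivity, 2 * m + 5, fun p hp hP g hg hdeg => ?_⟩
  have : Fact p.Prime := ⟨hp⟩
  have h1 := count_typeC_aux8 (p := p) m hm (by omega) hg hdeg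
  have h2 : ((p - 2 + 1 - m : ℕ) : ℝ) ^ m ≤ m.factorial * (p - 2).choose m := by
    exact_mod_cast Nat.pow_sub_le_descFactorial (p - 2) m |>.trans_eq
      (Nat.descFactorial_eq_factorial_mul_choose _ _)
  have hp0 : (0 : ℝ) < p := by exact_mod_cast hp.pos
  have h3 : (p : ℝ) / 2 ≤ ((p - 2 + 1 - m : ℕ) : ℝ) := by
    have h4 : p ≤ 2 * (p - 2 + 1 - m) := by omega
    have h5 : (p : ℝ) ≤ 2 * ((p - 2 + 1 - m : ℕ) : ℝ) := by exact_mod_cast h4
    linarith
  have h4 : (p : ℝ) / 2 ≤ ((p - 1 : ℕ) : ℝ) := by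
    have h4 : p ≤ 2 * (p - 1) := by omega
    have h5 : (p : ℝ) ≤ 2 * ((p - 1 : ℕ) : ℝ) := by exact_mod_cast h4
    linarith
  have h5 : ((p : ℝ) / 2) ^ m ≤ m.factorial * (p - 2).choose m :=
    (pow_le_pow_left₀ (by positivity) h3 m).trans h2
  have h6 : (((p - 1 : ℕ) : ℝ) * ((p - 2).choose m : ℝ)) * (p : ℝ) ^ (m + 2) ≤
      2 * ({v : Fin (m + 2) → ZMod (p ^ 2) | TypeC8 p g (m + 1) v}.ncard : ℝ) := by
    exact_mod_cast h1
  have hf : (0 : ℝ) < m.factorial := by exact_mod_cast m.factorial_pos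
  have h7 : (p : ℝ) ^ (m + 1) / (2 ^ (m + 1) * m.factorial) ≤
      ((p - 1 : ℕ) : ℝ) * ((p - 2).choose m : ℝ) := by
    rw [div_le_iff₀ (by positivity)]
    have h8 : ((p : ℝ) / 2) * ((p : ℝ) / 2) ^ m ≤
        ((p - 1 : ℕ) : ℝ) * (m.factorial * (p - 2).choose m) :=
      mul_le_mul h4 h5 (by positivity) (by positivity)
    have h9 : ((p : ℝ) / 2) * ((p : ℝ) / 2) ^ m = (p : ℝ) ^ (m + 1) / 2 ^ (m + 1) := by
      rw [← pow_succ', div_pow]
    rw [h9, div_le_iff₀ (by positivity)] at h8
    linarith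
  have h8 : (p : ℝ) ^ (m + 1) / (2 ^ (m + 1) * m.factorial) * (p : ℝ) ^ (m + 2) ≤
      2 * ({v : Fin (m + 2) → ZMod (p ^ 2) | TypeC8 p g (m + 1) v}.ncard : ℝ) :=
    (mul_le_mul_of_nonneg_right h7 (by positivity)).trans h6
  have h9 : 1 / (2 ^ (m + 2) * (m.factorial : ℝ)) / p * ((p : ℝ) ^ 2) ^ (m + 1 + 1) =
      (p : ℝ) ^ (m + 1) / (2 ^ (m + 1) * m.factorial) * (p : ℝ) ^ (m + 2) / 2 := by
    field_simp
    ring
  rw [h9]
  linarith

end Pool.Agent.Lib.MP_89bcae_ag

end

section

/-!
# Galois action on points and quadratic characters attached to two-torsion cocycles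
-/

open WeierstrassCurve WeierstrassCurve.Affine

namespace Pool.Agent.Lib.MP_89bcae_ag

section Maps

variable {R S A B : Type*} [CommRing R] [CommRing S] [Field A] [Field B]
  [Algebra R S] [Algebra R A] [Algebra S A] [IsScalarTower R S A] [Algebra R B] [Algebra S B]
  [IsScalarTower R S B] [DecidableEq A] [DecidableEq B] {W : Affine R} {a b c : R}

/-- `W`, over the field `A`, is the curve `y² = (x - a)(x - b)(x - c)`. -/
abbrev SplitAt (A : Type*) [Field A] [Algebra R A] (W : Affine R) (a b c : R) : Prop :=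
  Split (W.baseChange A) (algebraMap R A a) (algebraMap R A b) (algebraMap R A c)

omit [DecidableEq A] [DecidableEq B] in
lemma algHom_algebraMap (f : A →ₐ[S] B) (x : R) : f (algebraMap R A x) = algebraMap R B x := by
  rw [IsScalarTower.algebraMap_apply R S A, AlgHom.commutes, ← IsScalarTower.algebraMap_apply]

lemma map_T (f : A →ₐ[S] B) (hA : SplitAt A W a b c) (hB : SplitAt B W a b c) :
    Point.map (W' := W) f hA.T = hB.T := by
  rw [Split.T, Point.map_some, Split.T]
  simp only [Point.some.injEq]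
  exact ⟨algHom_algebraMap f a, map_zero f⟩

lemma chi_map (f : A →ₐ[S] B) (hA : SplitAt A W a b c) (hB : SplitAt B W a b c)
    (P : (W.baseChange A).Point) : hB.chi (Point.map (W' := W) f P) = hA.chi P := by
  unfold Split.chi
  have h1 : Point.map (W' := W) f P = 0 ↔ P = 0 := by
    rw [← Point.map_zero (W' := W) f]
    exact (Point.map_injective (W' := W) f).eq_iff
  have h2 : Point.map (W' := W) f P = hB.T ↔ P = hA.T := by
    rw [← map_T f hA hB]
    exact (Point.map_injective (W' := W) f).eq_iff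
  simp only [h1, h2]

omit [DecidableEq A] [DecidableEq B] in
lemma map_rho (f : A →ₐ[S] B) (x y : A) :
    Split.rho (algebraMap R B a) (algebraMap R B b) (algebraMap R B c) (f x) (f y) =
      f (Split.rho (algebraMap R A a) (algebraMap R A b) (algebraMap R A c) x y) := by
  unfold Split.rho
  simp only [map_div₀, map_sub, map_mul, map_pow, algHom_algebraMap, map_ofNat]

omit [DecidableEq A] [DecidableEq B] in
lemma SplitAt.up (hA : SplitAt A W a b c) (f : A →ₐ[S] B) : SplitAt B W a b c where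
  a₁ := by
    have := congrArg f hA.a₁
    rw [map_zero] at this
    exact (algHom_algebraMap f W.a₁).symm.trans this
  a₂ := by
    have := congrArg f hA.a₂
    rw [map_neg, map_add, map_add, algHom_algebraMap, algHom_algebraMap, algHom_algebraMap] at this
    exact (algHom_algebraMap f W.a₂).symm.trans this
  a₃ := by
    have := congrArg f hA.a₃
    rw [map_zero] at this
    exact (algHom_algebraMap f W.a₃).symm.trans this
  a₄ := by
    have := congrArg f hA.a₄
    rw [map_add, map_add, map_mul, map_mul, map_mul, algHom_algebraMap, algHom_algebraMap,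
      algHom_algebraMap] at this
    exact (algHom_algebraMap f W.a₄).symm.trans this
  a₆ := by
    have := congrArg f hA.a₆
    rw [map_neg, map_mul, map_mul, algHom_algebraMap, algHom_algebraMap,
      algHom_algebraMap] at this
    exact (algHom_algebraMap f W.a₆).symm.trans this
  ab := by
    intro h
    apply hA.ab
    apply f.injective
    rw [AlgHom.toRingHom_eq_coe, RingHom.coe_coe, algHom_algebraMap, algHom_algebraMap, h]
  ac := by
    intro h
    apply hA.ac
    apply f.injective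
    rw [AlgHom.toRingHom_eq_coe, RingHom.coe_coe, algHom_algebraMap, algHom_algebraMap, h]
  bc := by
    intro h
    apply hA.bc
    apply f.injective
    rw [AlgHom.toRingHom_eq_coe, RingHom.coe_coe, algHom_algebraMap, algHom_algebraMap, h]
  two := by
    intro h
    apply hA.two
    apply f.injective
    rw [AlgHom.toRingHom_eq_coe, RingHom.coe_coe, map_ofNat, map_zero]
    exact h

/-- A two-torsion point is fixed by every automorphism. -/
lemma map_two_torsion (f : A →ₐ[S] A) (hA : SplitAt A W a b c) {P : (W.baseChange A).Point}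
    (hP : P + P = 0) : Point.map (W' := W) f P = P := by
  have e1 := map_T f hA hA
  have e2 := map_T f (a := b) (b := a) (c := c) hA.swap12 hA.swap12
  have e3 := map_T f (a := c) (b := a) (c := b) hA.rot.rot hA.rot.rot
  rcases hA.two_torsion P hP with rfl | rfl | rfl | rfl
  · rfl
  · exact e1
  · exact e2
  · exact e3

end Maps

section Rep

variable {R F Ω : Type*} [CommRing R] [Field F] [Field Ω] [Algebra R Ω]
  [Algebra F Ω] [DecidableEq Ω] {W : Affine R} {a b c : R}

/-- The element `d` of `F` represents, modulo squares, the quadratic character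
`g ↦ e₂(c(g), (a, 0))` attached to a map `c` from the Galois group to the two-torsion. -/
def Rep (hΩ : SplitAt Ω W a b c) (s : (Ω ≃ₐ[F] Ω) → (W.baseChange Ω).Point) (d : F) : Prop :=
  ∃ β : Ω, β ≠ 0 ∧ β ^ 2 = algebraMap F Ω d ∧ ∀ g : Ω ≃ₐ[F] Ω, g β = (hΩ.chi (s g) : Ω) * β

variable (hΩ : SplitAt Ω W a b c) {s s' : (Ω ≃ₐ[F] Ω) → (W.baseChange Ω).Point} {d d' : F}

include hΩ in
lemma chi_cast_sq (P : (W.baseChange Ω).Point) : (hΩ.chi P : Ω) * (hΩ.chi P : Ω) = 1 := by
  exact_mod_cast congrArg (Int.cast : ℤ → Ω) (hΩ.chi_sq P)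

lemma Rep.mul (h : Rep hΩ s d) (h' : Rep hΩ s' d') (hs : ∀ g, s g + s g = 0)
    (hs' : ∀ g, s' g + s' g = 0) : Rep hΩ (fun g => s g + s' g) (d * d') := by
  obtain ⟨β, hβ, h1, h2⟩ := h
  obtain ⟨β', hβ', h1', h2'⟩ := h'
  refine ⟨β * β', mul_ne_zero hβ hβ', by rw [mul_pow, h1, h1', map_mul], fun g => ?_⟩
  rw [map_mul, h2, h2', hΩ.chi_add (hs g) (hs' g)]
  push_cast
  ring

lemma Rep.unique [IsGalois F Ω] (h : Rep hΩ s d) (h' : Rep hΩ s d') : ∃ w : F, w ≠ 0 ∧
    d * d' = w ^ 2 := by
  obtain ⟨β, hβ, h1, h2⟩ := h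
  obtain ⟨β', hβ', h1', h2'⟩ := h'
  obtain ⟨w, hw⟩ := exists_of_fixed (F := F) (x := β * β') (by
    intro g
    rw [map_mul, h2, h2']
    linear_combination (β * β') * chi_cast_sq hΩ (s g))
  refine ⟨w, ?_, ?_⟩
  · rintro rfl
    rw [map_zero] at hw
    exact mul_ne_zero hβ hβ' hw.symm
  · apply (algebraMap F Ω).injective
    rw [map_mul, map_pow, hw, ← h1, ← h1']
    ring

lemma Rep.ne_zero (h : Rep hΩ s d) : d ≠ 0 := by
  obtain ⟨β, hβ, h1, h2⟩ := h
  rintro rfl
  rw [map_zero] at h1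
  exact hβ (pow_eq_zero_iff (two_ne_zero) |>.mp h1)

lemma Rep.chi_eq_one (h : Rep hΩ s d) {w : F} (hd : d = w ^ 2) (g : Ω ≃ₐ[F] Ω) :
    hΩ.chi (s g) = 1 := by
  obtain ⟨β, hβ, h1, h2⟩ := h
  rw [hd, map_pow] at h1
  have : β = algebraMap F Ω w ∨ β = -algebraMap F Ω w := sq_eq_sq_iff_eq_or_eq_neg.mp h1
  have hfix : g β = β := by
    rcases this with h | h
    · rw [h, AlgEquiv.commutes]
    · rw [h, map_neg, AlgEquiv.commutes]
  have h3 := h2 g
  rw [hfix] at h3
  have h4 : (hΩ.chi (s g) : Ω) = 1 := by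
    have : ((hΩ.chi (s g) : Ω) - 1) * β = 0 := by linear_combination -h3
    rcases mul_eq_zero.mp this with h5 | h5
    · linear_combination h5
    · exact absurd h5 hβ
  unfold Split.chi at h4 ⊢
  split_ifs at h4 ⊢ with h5
  · rfl
  · exfalso
    apply hΩ.two
    push_cast at h4
    linear_combination -h4

lemma Rep.of_eq (h : Rep hΩ s d) (e : ∀ g, s g = s' g) : Rep hΩ s' d := by
  obtain ⟨β, hβ, h1, h2⟩ := h
  exact ⟨β, hβ, h1, fun g => by rw [h2, e]⟩

lemma Rep.mul_sq (h : Rep hΩ s d) {w : F} (hw : w ≠ 0) : Rep hΩ s (d * w ^ 2) := by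
  obtain ⟨β, hβ, h1, h2⟩ := h
  have hw' : algebraMap F Ω w ≠ 0 := fun h => hw ((algebraMap F Ω).injective (by rw [h, map_zero]))
  refine ⟨β * algebraMap F Ω w, mul_ne_zero hβ hw', by rw [mul_pow, h1, map_mul, map_pow],
    fun g => ?_⟩
  rw [map_mul, h2, AlgEquiv.commutes]
  ring

/-- Existence of a representative. -/
lemma exists_rep [IsGalois F Ω] (hs : ∀ g, s g + s g = 0) (hmul : ∀ g h, s (g * h) = s g + s h)
    (hc : IsLocallyConstant s) : ∃ d : F, Rep hΩ s d := by
  obtain ⟨β, hβ, h2⟩ := exists_eigen (F := F) (Ω := Ω) (fun g => hΩ.chi (s g))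
    (fun g => by
      unfold Split.chi
      split_ifs
      · exact Or.inl rfl
      · exact Or.inr rfl)
    (fun g h => by rw [hmul, hΩ.chi_add (hs g) (hs h)])
    (hc.comp hΩ.chi)
  obtain ⟨d, hd⟩ := exists_of_fixed (F := F) (x := β * β) (by
    intro g
    rw [map_mul, h2]
    linear_combination (β * β) * chi_cast_sq hΩ (s g))
  exact ⟨d, β, hβ, by rw [hd]; ring, h2⟩

end Rep

end Pool.Agent.Lib.MP_89bcae_ag

end

section

/-!
# The extension generated by the `ℓ`-th roots of unity is unramified outside of `ℓ`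
-/

open Polynomial WithZero IsDedekindDomain

open scoped Classical Pointwise

set_option linter.unusedSimpArgs false
set_option linter.unusedVariables false
set_option linter.unusedSectionVars false
set_option linter.style.haveILetI false

namespace Pool.Agent.Lib.MP_89bcae_ag

universe u

/-- An unramified discrete valuation ring in the field generated by the roots of unity. -/
theorem exists_unramified8 {R₀ k : Type*} {K : Type u} [CommRing R₀] [IsDomain R₀]
    [IsDiscreteValuationRing R₀] [Field k]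
    [Algebra R₀ k] [IsFractionRing R₀ k] [Field K] [Algebra k K] [Algebra R₀ K]
    [IsScalarTower R₀ k K] [FiniteDimensional k K] [IsGalois k K] {ℓ : ℕ}
    (hℓ : (ℓ : IsLocalRing.ResidueField R₀) ≠ 0) {ζ : K} (hζ : IsPrimitiveRoot ζ ℓ)
    (hgen : ∀ σ : K ≃ₐ[k] K, σ ζ = ζ → σ = 1) :
    ∃ (R : Type u) (_ : CommRing R) (_ : IsDomain R) (_ : IsDiscreteValuationRing R)
      (_ : Algebra R₀ R) (_ : Algebra R K) (_ : IsScalarTower R₀ R K) (_ : IsFractionRing R K),
      ∀ (r : R₀) (n : ℕ), algebraMap R₀ R r ∈ IsLocalRing.maximalIdeal R ^ n ↔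
        r ∈ IsLocalRing.maximalIdeal R₀ ^ n := by
  have hℓ0 : ℓ ≠ 0 := by
    rintro rfl
    exact hℓ Nat.cast_zero
  have : NeZero ℓ := ⟨hℓ0⟩
  -- the integral closure
  let B := integralClosure R₀ K
  haveI : IsDedekindDomain B := integralClosure.isDedekindDomain R₀ k K
  haveI : Module.Finite R₀ B := IsIntegralClosure.finite R₀ k K B
  haveI : IsFractionRing B K := integralClosure.isFractionRing_of_finite_extension k K
  haveI : SMulCommClass (K ≃ₐ[k] K) R₀ K := ⟨fun σ r x => by
    rw [AlgEquiv.smul_def, AlgEquiv.smul_def, Algebra.smul_def, Algebra.smul_def, map_mul,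
      IsScalarTower.algebraMap_apply R₀ k K, AlgEquiv.commutes]⟩
  haveI : IsGaloisGroup (K ≃ₐ[k] K) R₀ B := IsGaloisGroup.of_isFractionRing _ _ _ k K
  have hinjK : Function.Injective (algebraMap R₀ K) := by
    rw [IsScalarTower.algebraMap_eq R₀ k K]
    exact (algebraMap k K).injective.comp (IsFractionRing.injective R₀ k)
  have hinjB : Function.Injective (algebraMap B K) := Subtype.val_injective
  haveI : FaithfulSMul R₀ B := by
    rw [faithfulSMul_iff_algebraMap_injective]
    intro x y hxy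
    exact hinjK (congrArg (algebraMap B K) hxy)
  haveI : Module.IsTorsionFree R₀ B := inferInstance
  haveI : Module.Flat R₀ B := inferInstance
  let v : HeightOneSpectrum R₀ := IsDiscreteValuationRing.maximalIdeal R₀
  have hvmax : v.asIdeal.IsMaximal := v.isMaximal
  obtain ⟨P, hPmax, hPv⟩ := Ideal.exists_maximal_ideal_liesOver_of_isIntegral (S := B) v.asIdeal
  have hP0 : P ≠ ⊥ := Ideal.ne_bot_of_liesOver_of_ne_bot v.ne_bot P
  let w : HeightOneSpectrum B := ⟨P, hPmax.isPrime, hP0⟩
  have hwv : w.asIdeal.LiesOver v.asIdeal := hPv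
  have hmP : ∀ r : R₀, algebraMap R₀ B r ∈ P ↔ r ∈ IsLocalRing.maximalIdeal R₀ := by
    intro r
    have h1 : r ∈ Ideal.comap (algebraMap R₀ B) P ↔ r ∈ v.asIdeal := by
      rw [← Ideal.under_def, ← hPv.over]
    exact h1
  -- the inertia group is trivial
  letI : Field (B ⧸ P) := Ideal.Quotient.field P
  have hζi : IsIntegral R₀ ζ := by
    refine ⟨X ^ ℓ - 1, monic_X_pow_sub_C 1 hℓ0, ?_⟩
    rw [eval₂_sub, eval₂_pow, eval₂_X, hζ.pow_eq_one, eval₂_one, sub_self]
  let ζB : B := ⟨ζ, hζi⟩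
  have hζB : ζB ^ ℓ = 1 := Subtype.ext hζ.pow_eq_one
  have hℓP : Ideal.Quotient.mk P (ℓ : B) ≠ 0 := by
    rw [Ne, Ideal.Quotient.eq_zero_iff_mem]
    intro h1
    apply hℓ
    have h2 : algebraMap R₀ B (ℓ : R₀) ∈ P := by rwa [map_natCast]
    rw [hmP] at h2
    have h3 := (IsLocalRing.residue_eq_zero_iff (ℓ : R₀)).mpr h2
    rwa [map_natCast] at h3
  have hζP : ∀ x y : B, x ^ ℓ = 1 → y ^ ℓ = 1 → x - y ∈ P → x = y := by
    intro x y hx hy hxy
    by_contra hne
    -- `x` and `y` are distinct roots of `X ^ ℓ - 1`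
    have h1 : ((X ^ ℓ - C (1 : B)).map (Ideal.Quotient.mk P)).Separable := by
      rw [Polynomial.map_sub, Polynomial.map_pow, map_X, map_C, map_one]
      apply separable_X_pow_sub_C _ _ one_ne_zero
      rw [map_natCast] at hℓP
      exact hℓP
    have hroot : ∀ z : B, z ^ ℓ = 1 → (X ^ ℓ - C (1 : B)).IsRoot z := fun z hz => by
      rw [IsRoot.def, eval_sub, eval_pow, eval_X, eval_C, hz, sub_self]
    obtain ⟨H, hH⟩ := dvd_iff_isRoot.mpr (hroot x hx)
    have h2 := hroot y hy
    rw [hH, IsRoot.def, eval_mul, eval_sub, eval_X, eval_C] at h2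
    have h3 : H.IsRoot y := (mul_eq_zero.mp h2).resolve_left fun h => hne (sub_eq_zero.mp h).symm
    obtain ⟨H', hH'⟩ := dvd_iff_isRoot.mpr h3
    have hxy' : Ideal.Quotient.mk P x = Ideal.Quotient.mk P y := by
      rw [← sub_eq_zero, ← map_sub, Ideal.Quotient.eq_zero_iff_mem]
      exact hxy
    rw [hH, hH', Polynomial.map_mul, Polynomial.map_mul, Polynomial.map_sub, Polynomial.map_sub,
      map_X, map_C, map_C, hxy', ← mul_assoc] at h1
    have h4 : (X - C (Ideal.Quotient.mk P y)) * (X - C (Ideal.Quotient.mk P y)) ∣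
        (X - C (Ideal.Quotient.mk P y)) * (X - C (Ideal.Quotient.mk P y)) *
          H'.map (Ideal.Quotient.mk P) := Dvd.intro _ rfl
    exact not_isUnit_X_sub_C _ (h1.squarefree _ h4)
  have hinertia : ∀ σ ∈ P.inertia (K ≃ₐ[k] K), σ = 1 := by
    intro σ hσ
    apply hgen
    have h1 : σ • ζB - ζB ∈ P := hσ ζB
    have h2 : (σ • ζB) ^ ℓ = 1 := by
      rw [← smul_pow', hζB, smul_one]
    exact congrArg Subtype.val (hζP _ _ h2 hζB h1)
  have he : v.asIdeal.ramificationIdx' w.asIdeal ≤ 1 := by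
    have h1 : v.asIdeal.ramificationIdx' w.asIdeal ≤ Nat.card (P.inertia (K ≃ₐ[k] K)) := by
      rw [Ideal.ramificationIdx'_eq_ramificationIdx v.asIdeal w.asIdeal v.ne_bot]
      exact ramificationIdx_le_card_inertia7 v.asIdeal P
    refine h1.trans ?_
    have : Subsingleton (P.inertia (K ≃ₐ[k] K)) :=
      ⟨fun σ τ => Subtype.ext ((hinertia σ σ.2).trans (hinertia τ τ.2).symm)⟩
    exact Finite.card_le_one_iff_subsingleton.mpr this
  set e := v.asIdeal.ramificationIdx' w.asIdeal with hedef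
  have hWk : ∀ r : R₀, w.intValuation (algebraMap R₀ B r) = v.intValuation r ^ e := by
    intro r
    have h1 := HeightOneSpectrum.valuation_liesOver K v w (algebraMap R₀ k r)
    rw [← IsScalarTower.algebraMap_apply] at h1
    have h2 : w.intValuation (algebraMap R₀ B r) = w.valuation K (algebraMap R₀ K r) := by
      rw [← w.valuation_of_algebraMap (K := K)]
      rfl
    rw [h2, ← h1]
    congr 1
    exact HeightOneSpectrum.valuation_of_algebraMap (K := k) v r
  have he1 : e = 1 := by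
    rcases Nat.eq_zero_or_pos e with h0 | h0
    · exfalso
      obtain ⟨ϖ, hϖ⟩ := v.intValuation_exists_uniformizer
      have h1 : ϖ ∈ IsLocalRing.maximalIdeal R₀ := by
        have h2 : v.intValuation ϖ ≤ exp (-((1 : ℕ) : ℤ)) := by rw [hϖ]; simp
        have h3 := (v.intValuation_le_pow_iff_mem ϖ 1).mp h2
        rw [pow_one] at h3
        exact h3
      have h2 : w.intValuation (algebraMap R₀ B ϖ) < 1 :=
        (w.intValuation_lt_one_iff_mem _).mpr ((hmP ϖ).mpr h1)
      rw [hWk, h0, pow_zero] at h2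
      exact lt_irrefl _ h2
    · omega
  have hWk1 : ∀ r : R₀, w.intValuation (algebraMap R₀ B r) = v.intValuation r := fun r => by
    rw [hWk, he1, pow_one]
  -- the localisation
  haveI hPp : P.IsPrime := hPmax.isPrime
  let R := Localization.AtPrime P
  have hle : P.primeCompl ≤ nonZeroDivisors B := Ideal.primeCompl_le_nonZeroDivisors _
  let φ : R →+* K := IsLocalization.lift (M := P.primeCompl) (g := algebraMap B K) (by
      intro y
      rw [isUnit_iff_ne_zero]
      exact (map_ne_zero_iff _ hinjB).mpr (nonZeroDivisors.ne_zero (hle y.2)))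
  letI : Algebra R K := φ.toAlgebra
  have hst : IsScalarTower B R K := IsScalarTower.of_algebraMap_eq fun r =>
    (IsLocalization.lift_eq _ r).symm
  haveI : IsScalarTower R₀ B R := inferInstance
  have hst2 : IsScalarTower R₀ R K := IsScalarTower.of_algebraMap_eq fun r => by
    rw [IsScalarTower.algebraMap_apply R₀ B R, ← IsScalarTower.algebraMap_apply B R K]
    rfl
  have hDVR : IsDiscreteValuationRing R :=
    IsLocalization.AtPrime.isDiscreteValuationRing_of_dedekind_domain B hP0 _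
  have hfr : IsFractionRing R K :=
    IsFractionRing.isFractionRing_of_isDomain_of_isLocalization P.primeCompl R K
  have hmax : IsLocalRing.maximalIdeal R = P.map (algebraMap B R) :=
    (IsLocalization.AtPrime.map_eq_maximalIdeal P R).symm
  have hpow : ∀ (b : B) (n : ℕ), algebraMap B R b ∈ IsLocalRing.maximalIdeal R ^ n ↔ b ∈ P ^ n := by
    intro b n
    rw [hmax, ← Ideal.map_pow]
    constructor
    · intro h1
      obtain ⟨⟨⟨a, ha⟩, s⟩, hs⟩ := (IsLocalization.mem_map_algebraMap_iff P.primeCompl R).mp h1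
      have hinjR : Function.Injective (algebraMap B R) := IsLocalization.injective R hle
      have h2 : b * s = a := by
        apply hinjR
        rw [map_mul]
        exact hs
      have h3 : w.intValuation a ≤ exp (-(n : ℤ)) := (w.intValuation_le_pow_iff_mem a n).mpr ha
      have h4 : w.intValuation (s : B) = 1 := by
        rw [w.intValuation_eq_one_iff_mem_primeCompl]
        exact s.2
      rw [← h2, map_mul, h4, mul_one] at h3
      exact (w.intValuation_le_pow_iff_mem b n).mp h3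
    · exact fun h1 => Ideal.mem_map_of_mem _ h1
  refine ⟨R, inferInstance, inferInstance, hDVR, inferInstance, inferInstance, hst2, hfr,
    fun r n => ?_⟩
  rw [IsScalarTower.algebraMap_apply R₀ B R, hpow]
  have h2 := w.intValuation_le_pow_iff_mem (algebraMap R₀ B r) n
  have h3 := v.intValuation_le_pow_iff_mem r n
  rw [hWk1, h3] at h2
  exact h2.symm

/-- Simple collisions are preserved by unramified extensions. -/
theorem isCollision_unramified8 {R₀ R : Type*} [CommRing R₀] [IsLocalRing R₀] [CommRing R]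
    [IsLocalRing R] [Algebra R₀ R]
    (h : ∀ (r : R₀) (n : ℕ), algebraMap R₀ R r ∈ IsLocalRing.maximalIdeal R ^ n ↔
        r ∈ IsLocalRing.maximalIdeal R₀ ^ n) {g D : R₀[X]} (hcol : IsCollision7 g D) :
    IsCollision7 (g.map (algebraMap R₀ R)) (D.map (algebraMap R₀ R)) := by
  have h1 : ∀ r : R₀, r ∈ IsLocalRing.maximalIdeal R₀ →
      ((IsLocalRing.residue R).comp (algebraMap R₀ R)) r = 0 := by
    intro r hr
    have h2 := (h r 1).mpr (by rwa [pow_one])
    rw [pow_one] at h2
    exact (IsLocalRing.residue_eq_zero_iff _).mpr h2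
  let ψ : IsLocalRing.ResidueField R₀ →+* IsLocalRing.ResidueField R :=
    Ideal.Quotient.lift (IsLocalRing.maximalIdeal R₀) _ h1
  have hψ : ψ.comp (IsLocalRing.residue R₀) = (IsLocalRing.residue R).comp (algebraMap R₀ R) :=
    RingHom.ext fun r => rfl
  have hmap : ∀ p : R₀[X], (p.map (algebraMap R₀ R)).map (IsLocalRing.residue R) =
      (p.map (IsLocalRing.residue R₀)).map ψ := fun p => by
    rw [Polynomial.map_map, Polynomial.map_map, hψ]
  obtain ⟨a, u, hu1, hu2, hu3⟩ := hcol
  have ha : IsLocalRing.residue R (algebraMap R₀ R a) = ψ (IsLocalRing.residue R₀ a) := rfl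
  refine ⟨algebraMap R₀ R a, u.map ψ, ?_, ?_, ?_⟩
  · rw [hmap, hu1, ha, Polynomial.map_mul, Polynomial.map_pow, Polynomial.map_sub, map_X, map_C]
  · have h3 := hu2.map (f := ψ)
    rw [Polynomial.map_comp, Polynomial.map_mul, Polynomial.map_sub, map_X, map_C] at h3
    rw [hmap, ha]
    exact h3
  · rw [eval_map, eval₂_at_apply, h]
    exact hu3

end Pool.Agent.Lib.MP_89bcae_ag

end

section

/-!
# Local conditions at a place
-/

open WeierstrassCurve WeierstrassCurve.Affine WithZero Multiplicative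

namespace Pool.Agent.Lib.MP_89bcae_ag

section Valuation

variable {L : Type*} [Field L] (w : Valuation L ℤᵐ⁰)

/-- The valuation, written additively (with the sign convention of `Valuation`). -/
noncomputable def lg (x : L) : ℤ := WithZero.log (w x)

lemma lg_mul {x y : L} (hx : x ≠ 0) (hy : y ≠ 0) : lg w (x * y) = lg w x + lg w y := by
  unfold lg
  rw [map_mul, WithZero.log_mul ((Valuation.ne_zero_iff w).mpr hx)
    ((Valuation.ne_zero_iff w).mpr hy)]

lemma lg_pow {x : L} (n : ℕ) : lg w (x ^ n) = n * lg w x := by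
  unfold lg
  rw [map_pow, WithZero.log_pow, nsmul_eq_mul]

lemma lg_neg (x : L) : lg w (-x) = lg w x := by
  unfold lg; rw [Valuation.map_neg]

lemma lg_lt {x y : L} (hx : x ≠ 0) (hy : y ≠ 0) : lg w x < lg w y ↔ w x < w y :=
  WithZero.log_lt_log ((Valuation.ne_zero_iff w).mpr hx) ((Valuation.ne_zero_iff w).mpr hy)

lemma lg_add_of_lt {x y : L} (hx : x ≠ 0) (hy : y ≠ 0) (h : lg w x < lg w y) :
    x + y ≠ 0 ∧ lg w (x + y) = lg w y := by
  have h1 := (lg_lt w hx hy).mp h
  have h2 := w.map_add_eq_of_lt_right h1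
  refine ⟨?_, by unfold lg; rw [h2]⟩
  intro h0
  rw [h0, map_zero] at h2
  exact (Valuation.ne_zero_iff w).mpr hy h2.symm

/-- If `a - b` and `a - c` have the same even valuation, then `x - a` has even valuation for every
point `(x, y)` of `y² = (x - a)(x - b)(x - c)` with `x ≠ a`. -/
lemma even_lg_sub {a b c x y : L} (hab : a ≠ b) (hac : a ≠ c)
    (he : lg w (a - b) = lg w (a - c)) (h2 : Even (lg w (a - b)))
    (H : y ^ 2 = (x - a) * (x - b) * (x - c)) (hx : x ≠ a) : Even (lg w (x - a)) := by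
  have hxa : x - a ≠ 0 := sub_ne_zero.mpr hx
  have hab' : a - b ≠ 0 := sub_ne_zero.mpr hab
  have hac' : a - c ≠ 0 := sub_ne_zero.mpr hac
  rcases lt_trichotomy (lg w (x - a)) (lg w (a - b)) with h | h | h
  · obtain ⟨n1, e1⟩ := lg_add_of_lt w hxa hab' h
    obtain ⟨n2, e2⟩ := lg_add_of_lt w hxa hac' (he ▸ h)
    have s1 : x - a + (a - b) = x - b := by ring
    have s2 : x - a + (a - c) = x - c := by ring
    rw [s1] at n1 e1
    rw [s2] at n2 e2
    have e3 := congrArg (lg w) H
    rw [lg_pow, lg_mul w (mul_ne_zero hxa n1) n2, lg_mul w hxa n1, e1, e2, ← he] at e3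
    have : lg w (x - a) = 2 * (lg w y - lg w (a - b)) := by push_cast at e3; linarith
    rw [this]
    exact even_two_mul _
  · rw [h]; exact h2
  · obtain ⟨n1, e1⟩ := lg_add_of_lt w hab' hxa h
    obtain ⟨n2, e2⟩ := lg_add_of_lt w hac' hxa (he ▸ h)
    have s1 : a - b + (x - a) = x - b := by ring
    have s2 : a - c + (x - a) = x - c := by ring
    rw [s1] at n1 e1
    rw [s2] at n2 e2
    have e3 := congrArg (lg w) H
    rw [lg_pow, lg_mul w (mul_ne_zero hxa n1) n2, lg_mul w hxa n1, e1, e2] at e3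
    have : lg w (x - a) = 2 * (lg w y - lg w (x - a)) := by push_cast at e3; linarith
    rw [this]
    exact even_two_mul _

end Valuation

section Restrict

variable {F Ω ΩL : Type*} [Field F] [Field Ω] [Field ΩL] [Algebra F Ω] [Algebra F ΩL]
  [Normal F Ω]

/-- Restriction of an automorphism along an embedding of a normal extension. -/
lemma exists_restrict (j : Ω →ₐ[F] ΩL) (g : ΩL ≃ₐ[F] ΩL) :
    ∃ g' : Ω ≃ₐ[F] Ω, ∀ x, j (g' x) = g (j x) := by
  let _ : Algebra Ω ΩL := j.toRingHom.toAlgebra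
  have : IsScalarTower F Ω ΩL := IsScalarTower.of_algebraMap_eq fun x => (j.commutes x).symm
  exact ⟨g.restrictNormal Ω, fun x => g.restrictNormal_commutes Ω x⟩

end Restrict

section LocalRep

variable {R F Ω L ΩL : Type*} [CommRing R] [Field F] [Field Ω] [Field L] [Field ΩL]
  [Algebra R F] [Algebra R Ω] [Algebra F Ω] [IsScalarTower R F Ω]
  [Algebra F L] [Algebra R L] [IsScalarTower R F L]
  [Algebra L ΩL] [Algebra F ΩL] [IsScalarTower F L ΩL] [Algebra R ΩL] [IsScalarTower R F ΩL]
  [IsScalarTower R L ΩL] [Normal F Ω] [IsGalois L ΩL]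
  [DecidableEq Ω] [DecidableEq L] [DecidableEq ΩL] {W : Affine R} {a b c : R}

/-- If a two-torsion cocycle becomes, at a place, the Kummer class of a local point, then the
element representing it is locally a square times `x - a` (or a square, or `(a - b)(a - c)` times a
square). -/
lemma local_rep (hΩ : SplitAt Ω W a b c) (hL : SplitAt L W a b c)
    {s : (Ω ≃ₐ[F] Ω) → (W.baseChange Ω).Point} {d : F} (hrep : Rep hΩ s d)
    (hs : ∀ g, s g + s g = 0) (j : Ω →ₐ[F] ΩL) (Q : (W.baseChange ΩL).Point)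
    (P : (W.baseChange L).Point) (hP : Q + Q = Point.map (W' := W) (Algebra.ofId L ΩL) P)
    (hc : ∀ (g : ΩL ≃ₐ[L] ΩL) (g' : Ω ≃ₐ[F] Ω), (∀ x, j (g' x) = g (j x)) →
      Point.map (W' := W) j (s g') = Point.map (W' := W) (g : ΩL →ₐ[L] ΩL) Q - Q) :
    ∃ u : L, u ≠ 0 ∧ (algebraMap F L d = u ^ 2 ∨
      (∃ x y : L, y ^ 2 = (x - algebraMap R L a) * (x - algebraMap R L b) *
        (x - algebraMap R L c) ∧ x ≠ algebraMap R L a ∧
        algebraMap F L d = u ^ 2 * (x - algebraMap R L a)) ∨
      algebraMap F L d = u ^ 2 * ((algebraMap R L a - algebraMap R L b) *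
        (algebraMap R L a - algebraMap R L c))) := by
  have hΩL : SplitAt ΩL W a b c := hL.up (Algebra.ofId L ΩL)
  obtain ⟨β, hβ, h1, h2⟩ := hrep
  have hj : j β ≠ 0 := (map_ne_zero j).mpr hβ
  have hjsq : (j β) ^ 2 = algebraMap L ΩL (algebraMap F L d) := by
    rw [← map_pow, h1, AlgHom.commutes, ← IsScalarTower.algebraMap_apply]
  -- the basic dichotomy: for every `g` there is a two-torsion point
  have key : ∀ g : ΩL ≃ₐ[L] ΩL, ∃ T : (W.baseChange ΩL).Point, T + T = 0 ∧
      Point.map (W' := W) (g : ΩL →ₐ[L] ΩL) Q = Q + T ∧ g (j β) = (hΩL.chi T : ΩL) * j β := by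
    intro g
    obtain ⟨g', hg'⟩ := exists_restrict (F := F) j (g.restrictScalars F)
    refine ⟨Point.map (W' := W) j (s g'), ?_, ?_, ?_⟩
    · rw [← map_add, hs, map_zero]
    · rw [hc g g' hg']; abel
    · rw [chi_map j hΩ hΩL]
      have := hg' β
      rw [h2, map_mul] at this
      rw [show g (j β) = (g.restrictScalars F) (j β) from rfl, ← this]
      simp
  -- conclusion from a fixed quotient
  have concl : ∀ z : ΩL, z ≠ 0 → (∀ g : ΩL ≃ₐ[L] ΩL, g (j β * z) = j β * z) →
      ∃ u : L, u ≠ 0 ∧ algebraMap L ΩL (algebraMap F L d) * z ^ 2 = (algebraMap L ΩL u) ^ 2 := by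
    intro z hz hfix
    obtain ⟨u, hu⟩ := exists_of_fixed (F := L) hfix
    refine ⟨u, ?_, ?_⟩
    · rintro rfl
      rw [map_zero] at hu
      exact mul_ne_zero hj hz hu.symm
    · rw [hu, ← hjsq]; ring
  have hchi2 : ∀ T : (W.baseChange ΩL).Point, (hΩL.chi T : ΩL) * (hΩL.chi T : ΩL) = 1 :=
    fun T => chi_cast_sq hΩL T
  by_cases hQ : Q + Q = 0
  · -- the local class is trivial
    obtain ⟨u, hu, hu'⟩ := concl 1 one_ne_zero (by
      intro g
      obtain ⟨T, hT, e1, e2⟩ := key g
      rw [map_two_torsion (g : ΩL →ₐ[L] ΩL) hΩL hQ] at e1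
      have hT0 : T = 0 := by simpa using e1
      rw [mul_one, e2, hT0, hΩL.chi_zero]
      simp)
    refine ⟨u, hu, Or.inl ?_⟩
    apply (algebraMap L ΩL).injective
    rw [map_pow, ← hu']
    ring
  · rcases Q with _ | ⟨x, y, hxy⟩
    · exact absurd (add_zero _) hQ
    · have hy : y ≠ 0 := by
        rintro rfl
        apply hQ
        apply Point.add_self_of_Y_eq
        rw [hΩL.negY_eq]; ring
      obtain ⟨X, Y, H, e, ea, eb, ec⟩ := hΩL.double_some hxy hy
      -- the local point
      rcases P with _ | ⟨X₀, Y₀, h₀⟩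
      · exfalso
        apply hQ
        rw [hP]; rfl
      · rw [e, Point.map_some] at hP
        simp only [Point.some.injEq] at hP
        obtain ⟨hX, -⟩ := hP
        have hX' : X = algebraMap L ΩL X₀ := hX
        have hrho : ∀ g : ΩL ≃ₐ[L] ΩL, ∀ T : (W.baseChange ΩL).Point, T + T = 0 →
            Point.map (W' := W) (g : ΩL →ₐ[L] ΩL) (.some x y hxy) = .some x y hxy + T →
            g (Split.rho (algebraMap R ΩL a) (algebraMap R ΩL b) (algebraMap R ΩL c) x y) =
              (hΩL.chi T : ΩL) *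
                Split.rho (algebraMap R ΩL a) (algebraMap R ΩL b) (algebraMap R ΩL c) x y := by
          intro g T hT e1
          rw [Point.map_some] at e1
          have := hΩL.rho_add_torsion hxy hy _ hT e1
          rw [map_rho (g : ΩL →ₐ[L] ΩL)] at this
          exact this
        have hrhob : ∀ g : ΩL ≃ₐ[L] ΩL, ∀ T : (W.baseChange ΩL).Point, T + T = 0 →
            Point.map (W' := W) (g : ΩL →ₐ[L] ΩL) (.some x y hxy) = .some x y hxy + T →
            g (Split.rho (algebraMap R ΩL b) (algebraMap R ΩL a) (algebraMap R ΩL c) x y) =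
              (hΩL.swap12.chi T : ΩL) *
                Split.rho (algebraMap R ΩL b) (algebraMap R ΩL a) (algebraMap R ΩL c) x y := by
          intro g T hT e1
          rw [Point.map_some] at e1
          have := hΩL.swap12.rho_add_torsion hxy hy _ hT e1
          rw [map_rho (g : ΩL →ₐ[L] ΩL)] at this
          exact this
        have hrhoc : ∀ g : ΩL ≃ₐ[L] ΩL, ∀ T : (W.baseChange ΩL).Point, T + T = 0 →
            Point.map (W' := W) (g : ΩL →ₐ[L] ΩL) (.some x y hxy) = .some x y hxy + T →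
            g (Split.rho (algebraMap R ΩL c) (algebraMap R ΩL a) (algebraMap R ΩL b) x y) =
              (hΩL.rot.rot.chi T : ΩL) *
                Split.rho (algebraMap R ΩL c) (algebraMap R ΩL a) (algebraMap R ΩL b) x y := by
          intro g T hT e1
          rw [Point.map_some] at e1
          have := hΩL.rot.rot.rho_add_torsion hxy hy _ hT e1
          rw [map_rho (g : ΩL →ₐ[L] ΩL)] at this
          exact this
        have eqn : Y₀ ^ 2 = (X₀ - algebraMap R L a) * (X₀ - algebraMap R L b) *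
            (X₀ - algebraMap R L c) := hL.eq_of_point h₀
        have am : ∀ r : R, algebraMap R ΩL r = algebraMap L ΩL (algebraMap R L r) :=
          fun r => IsScalarTower.algebraMap_apply R L ΩL r
        by_cases hXa : X₀ = algebraMap R L a
        · -- use the other two square roots
          set ρb := Split.rho (algebraMap R ΩL b) (algebraMap R ΩL a) (algebraMap R ΩL c) x y
            with hρb
          set ρc := Split.rho (algebraMap R ΩL c) (algebraMap R ΩL a) (algebraMap R ΩL b) x y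
            with hρc
          have eb' : ρb ^ 2 = algebraMap L ΩL (algebraMap R L a - algebraMap R L b) := by
            rw [← eb, hX', hXa, map_sub, am b]
          have ec' : ρc ^ 2 = algebraMap L ΩL (algebraMap R L a - algebraMap R L c) := by
            rw [← ec, hX', hXa, map_sub, am c]
          have hab : algebraMap R L a - algebraMap R L b ≠ 0 := sub_ne_zero.mpr hL.ab
          have hac : algebraMap R L a - algebraMap R L c ≠ 0 := sub_ne_zero.mpr hL.ac
          have hb0 : ρb ≠ 0 := by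
            intro h
            rw [h] at eb'
            apply hab
            apply (algebraMap L ΩL).injective
            rw [← eb', map_zero]; ring
          have hc0 : ρc ≠ 0 := by
            intro h
            rw [h] at ec'
            apply hac
            apply (algebraMap L ΩL).injective
            rw [← ec', map_zero]; ring
          obtain ⟨u, hu, hu'⟩ := concl (ρb * ρc) (mul_ne_zero hb0 hc0) (by
            intro g
            obtain ⟨T, hT, e1, e2⟩ := key g
            rw [map_mul, map_mul, e2, hrhob g T hT e1, hrhoc g T hT e1]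
            have h3 := hΩL.chi_mul_chi hT
            have h3' : (hΩL.swap12.chi T : ΩL) * (hΩL.rot.rot.chi T : ΩL) = (hΩL.chi T : ΩL) := by
              exact_mod_cast congrArg (Int.cast : ℤ → ΩL) h3
            linear_combination (hΩL.chi T : ΩL) * j β * ρb * ρc * h3' + j β * ρb * ρc * hchi2 T)
          refine ⟨u / ((algebraMap R L a - algebraMap R L b) *
            (algebraMap R L a - algebraMap R L c)), div_ne_zero hu (mul_ne_zero hab hac),
            Or.inr (Or.inr ?_)⟩
          rw [mul_pow, eb', ec', ← map_mul, ← map_mul, ← map_pow] at hu'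
          have := (algebraMap L ΩL).injective hu'
          field_simp
          linear_combination this
        · set ρ := Split.rho (algebraMap R ΩL a) (algebraMap R ΩL b) (algebraMap R ΩL c) x y
            with hρ
          have ea' : ρ ^ 2 = algebraMap L ΩL (X₀ - algebraMap R L a) := by
            rw [← ea, hX', map_sub, am a]
          have hXa' : X₀ - algebraMap R L a ≠ 0 := sub_ne_zero.mpr hXa
          have hρ0 : ρ ≠ 0 := by
            intro h
            rw [h] at ea'
            apply hXa'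
            apply (algebraMap L ΩL).injective
            rw [← ea', map_zero]; ring
          obtain ⟨u, hu, hu'⟩ := concl ρ hρ0 (by
            intro g
            obtain ⟨T, hT, e1, e2⟩ := key g
            rw [map_mul, e2, hrho g T hT e1]
            linear_combination (j β * ρ) * hchi2 T)
          refine ⟨u / (X₀ - algebraMap R L a), div_ne_zero hu hXa', Or.inr (Or.inl
            ⟨X₀, Y₀, eqn, hXa, ?_⟩)⟩
          rw [ea', ← map_mul, ← map_pow] at hu'
          have := (algebraMap L ΩL).injective hu'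
          field_simp
          linear_combination this

end LocalRep

end Pool.Agent.Lib.MP_89bcae_ag

end

section

/-!
# Discrete valuation rings over a prime number in the field of the `ℓ`-th roots of unity
-/

open Polynomial

open scoped Classical

set_option linter.unusedSimpArgs false
set_option linter.unusedVariables false
set_option linter.unusedSectionVars false
set_option linter.style.haveILetI false

namespace Pool.Agent.Lib.MP_89bcae_ag

/-- The localisation of the integers at a prime number. -/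
theorem exists_dvrZ8 {p : ℕ} (hp : p.Prime) :
    ∃ (R : Type) (_ : CommRing R) (_ : IsDomain R) (_ : IsDiscreteValuationRing R)
      (_ : Algebra R ℚ) (_ : IsFractionRing R ℚ),
      ∀ (z : ℤ) (n : ℕ), (z : R) ∈ IsLocalRing.maximalIdeal R ^ n ↔ (p : ℤ) ^ n ∣ z := by
  have hpZ : Prime (p : ℤ) := Nat.prime_iff_prime_int.mp hp
  have hP : (Ideal.span {(p : ℤ)}).IsPrime :=
    (Ideal.span_singleton_prime hpZ.ne_zero).mpr hpZ
  have hP0 : Ideal.span {(p : ℤ)} ≠ ⊥ := by
    rw [Ne, Ideal.span_singleton_eq_bot]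
    exact hpZ.ne_zero
  let R := Localization.AtPrime (Ideal.span {(p : ℤ)})
  have hDVR : IsDiscreteValuationRing R :=
    IsLocalization.AtPrime.isDiscreteValuationRing_of_dedekind_domain ℤ hP0 _
  letI hA : Algebra R ℚ :=
    IsLocalization.localizationAlgebraOfSubmonoidLe _ ℚ
      (Ideal.span {(p : ℤ)}).primeCompl (nonZeroDivisors ℤ)
      (Ideal.span {(p : ℤ)}).primeCompl_le_nonZeroDivisors
  have hst := IsLocalization.localization_isScalarTower_of_submonoid_le
    R ℚ
    (Ideal.span {(p : ℤ)}).primeCompl (nonZeroDivisors ℤ)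
    (Ideal.span {(p : ℤ)}).primeCompl_le_nonZeroDivisors
  have hfr : IsFractionRing R ℚ :=
    @IsFractionRing.isFractionRing_of_isDomain_of_isLocalization ℤ _
      (Ideal.span {(p : ℤ)}).primeCompl _ R ℚ _ _ _ _ _
      hst _ _
  have hmax : IsLocalRing.maximalIdeal R = Ideal.span {(algebraMap ℤ R p)} := by
    rw [← IsLocalization.AtPrime.map_eq_maximalIdeal (Ideal.span {(p : ℤ)}) R, Ideal.map_span,
      Set.image_singleton]
  refine ⟨R, inferInstance, inferInstance, hDVR, inferInstance, hfr, fun z n => ?_⟩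
  have hz : (z : R) = algebraMap ℤ R z := by simp
  rw [hz, hmax, Ideal.span_singleton_pow, Ideal.mem_span_singleton]
  constructor
  · rintro ⟨q, hq⟩
    obtain ⟨⟨x, s⟩, hxs⟩ := IsLocalization.surj (Ideal.span {(p : ℤ)}).primeCompl q
    have hinj : Function.Injective (algebraMap ℤ R) :=
      IsLocalization.injective R (Ideal.primeCompl_le_nonZeroDivisors (Ideal.span {(p : ℤ)}))
    have h1 : z * s = (p : ℤ) ^ n * x := by
      apply hinj
      rw [map_mul, map_mul, map_pow, hq, ← hxs]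
      ring
    have h3 : IsCoprime ((p : ℤ) ^ n) (s : ℤ) := by
      apply IsCoprime.pow_left
      rw [Prime.coprime_iff_not_dvd (Nat.prime_iff_prime_int.mp hp)]
      intro h4
      exact s.2 (Ideal.mem_span_singleton.mpr h4)
    exact h3.dvd_of_dvd_mul_right ⟨x, h1⟩
  · rintro ⟨q, hq⟩
    exact ⟨algebraMap ℤ R q, by rw [hq, map_mul, map_pow]⟩

/-- Discrete valuation rings in the field of the `ℓ`-th roots of unity. -/
theorem exists_dvrK8 {ℓ p : ℕ} (hℓ : ℓ.Prime) (hp : p.Prime) (hpℓ : p ≠ ℓ) (K : Type) [Field K]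
    [Algebra ℚ K] [FiniteDimensional ℚ K] [IsGalois ℚ K] {ζ : K} (hζ : IsPrimitiveRoot ζ ℓ)
    (hgen : ∀ σ : K ≃ₐ[ℚ] K, σ ζ = ζ → σ = 1) :
    ∃ (R : Type) (_ : CommRing R) (_ : IsDomain R) (_ : IsDiscreteValuationRing R)
      (_ : Algebra R K) (_ : IsFractionRing R K),
      ∀ (z : ℤ) (n : ℕ), (z : R) ∈ IsLocalRing.maximalIdeal R ^ n ↔ (p : ℤ) ^ n ∣ z := by
  obtain ⟨R₀, i1, i2, i3, i4, i5, h⟩ := exists_dvrZ8 hp
  letI : Algebra R₀ K := ((algebraMap ℚ K).comp (algebraMap R₀ ℚ)).toAlgebra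
  haveI : IsScalarTower R₀ ℚ K := IsScalarTower.of_algebraMap_eq fun r => rfl
  have hℓ0 : (ℓ : IsLocalRing.ResidueField R₀) ≠ 0 := by
    intro h0
    have h1 : IsLocalRing.residue R₀ ((ℓ : ℤ) : R₀) = 0 := by
      rw [Int.cast_natCast, map_natCast]
      exact h0
    rw [IsLocalRing.residue_eq_zero_iff] at h1
    have h2 := (h ℓ 1).mp (by rwa [pow_one])
    rw [pow_one, Int.natCast_dvd_natCast] at h2
    exact hpℓ ((Nat.prime_dvd_prime_iff_eq hp hℓ).mp h2)
  obtain ⟨R, j1, j2, j3, j4, j5, j6, j7, h'⟩ := exists_unramified8 (R₀ := R₀) (k := ℚ) (K := K) hℓ0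
    hζ hgen
  refine ⟨R, j1, j2, j3, j5, j7, fun z n => ?_⟩
  have h1 : (z : R) = algebraMap R₀ R (z : R₀) := by rw [map_intCast]
  rw [h1, h', h]

/-- Simple collisions over a discrete valuation ring over `p`. -/
theorem isCollision7_of_Z8 {p : ℕ} (hp : p.Prime) {R : Type*} [CommRing R] [IsDomain R]
    [IsLocalRing R]
    (h : ∀ (z : ℤ) (n : ℕ), (z : R) ∈ IsLocalRing.maximalIdeal R ^ n ↔ (p : ℤ) ^ n ∣ z)
    {g D : ℤ[X]} (hcol : IsCollisionZ8 p g D) :
    IsCollision7 (g.map (Int.castRingHom R)) (D.map (Int.castRingHom R)) := by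
  obtain ⟨a, u, hD, hsep, ha⟩ := hcol
  have hp0 : ((p : ℕ) : IsLocalRing.ResidueField R) = 0 := by
    have h1 : IsLocalRing.residue R ((p : ℤ) : R) = 0 := by
      rw [IsLocalRing.residue_eq_zero_iff]
      have h2 := (h p 1).mpr (by rw [pow_one])
      rwa [pow_one] at h2
    simpa using h1
  have : CharP (IsLocalRing.ResidueField R) p := (CharP.charP_iff_prime_eq_zero hp).mpr hp0
  let φ : ZMod p →+* IsLocalRing.ResidueField R := ZMod.castHom (dvd_refl p) _
  have hφ : (IsLocalRing.residue R).comp (Int.castRingHom R) = φ.comp (Int.castRingHom (ZMod p)) :=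
    RingHom.ext_int _ _
  have hφa : IsLocalRing.residue R (Int.castRingHom R a) = φ (a : ZMod p) := RingHom.congr_fun hφ a
  refine ⟨Int.castRingHom R a, u.map φ, ?_, ?_, ?_⟩
  · rw [Polynomial.map_map, hφ, ← Polynomial.map_map, hD, hφa]
    simp
  · rw [Polynomial.map_map, hφ, ← Polynomial.map_map, hφa]
    have h1 := hsep.map (f := φ)
    rw [Polynomial.map_comp, Polynomial.map_mul, Polynomial.map_sub, map_X, map_C] at h1
    exact h1
  · rw [eval_map, eval₂_at_apply]
    show ((D.eval a : ℤ) : R) ∉ _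
    rw [h]
    exact ha

/-- Polynomials over a discrete valuation ring over `p`: separable reduction. -/
theorem residue_map8 {p : ℕ} (hp : p.Prime) {R : Type*} [CommRing R] [IsDomain R]
    [IsLocalRing R]
    (h : ∀ (z : ℤ) (n : ℕ), (z : R) ∈ IsLocalRing.maximalIdeal R ^ n ↔ (p : ℤ) ^ n ∣ z) :
    ∃ φ : ZMod p →+* IsLocalRing.ResidueField R, ∀ f : ℤ[X],
      (f.map (Int.castRingHom R)).map (IsLocalRing.residue R) =
        (f.map (Int.castRingHom (ZMod p))).map φ := by
  have hp0 : ((p : ℕ) : IsLocalRing.ResidueField R) = 0 := by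
    have h1 : IsLocalRing.residue R ((p : ℤ) : R) = 0 := by
      rw [IsLocalRing.residue_eq_zero_iff]
      have h2 := (h p 1).mpr (by rw [pow_one])
      rwa [pow_one] at h2
    simpa using h1
  have : CharP (IsLocalRing.ResidueField R) p := (CharP.charP_iff_prime_eq_zero hp).mpr hp0
  refine ⟨ZMod.castHom (dvd_refl p) _, fun f => ?_⟩
  rw [Polynomial.map_map, Polynomial.map_map]
  congr 1
  exact RingHom.ext_int _ _

end Pool.Agent.Lib.MP_89bcae_ag

end

section

/-!
# Tate module cocycles: division by two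
-/

open Polynomial WeierstrassCurve WeierstrassCurve.Affine

namespace Pool.Agent.Lib.MP_89bcae_ag

section Basic

variable {R F Ω : Type*} [CommRing R] [Field F] [Field Ω] [Algebra R F] [Algebra R Ω]
  [Algebra F Ω] [IsScalarTower R F Ω] [DecidableEq Ω] {W : Affine R}

/-- A continuous cocycle with values in the two-adic Tate module. -/
structure TC (W : Affine R) (c : ℕ → (Ω ≃ₐ[F] Ω) → (W.baseChange Ω).Point) : Prop where
  zero : ∀ g, c 0 g = 0
  two : ∀ n g, 2 • c (n + 1) g = c n g
  mul : ∀ n g h, c n (g * h) = c n g + Point.map (W' := W) (g : Ω →ₐ[F] Ω) (c n h)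
  loc : ∀ n, IsLocallyConstant (c n)

/-- The class is fixed by `γ` up to torsion. -/
def InvMT (W : Affine R) (c : ℕ → (Ω ≃ₐ[F] Ω) → (W.baseChange Ω).Point) (γ : Ω ≃ₐ[R] Ω) : Prop :=
  ∃ m : ℕ, 0 < m ∧ ∀ n, ∃ A : (W.baseChange Ω).Point, 2 ^ n • A = 0 ∧
    ∀ g h : Ω ≃ₐ[F] Ω, (∀ x, γ (g x) = h (γ x)) →
      m • (Point.map (W' := W) (γ : Ω →ₐ[R] Ω) (c n g) - c n h) =
        Point.map (W' := W) (h : Ω →ₐ[F] Ω) A - A

/-- The stabilizer of an algebraic element is open. -/
lemma isLocallyConstant_apply8 [Algebra.IsAlgebraic F Ω] (x : Ω) :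
    IsLocallyConstant (fun g : Ω ≃ₐ[F] Ω => g x) := by
  rw [IsLocallyConstant.iff_exists_open]
  intro g
  have hfin : FiniteDimensional F (IntermediateField.adjoin F {x}) :=
    IntermediateField.adjoin.finiteDimensional (Algebra.IsIntegral.isIntegral x)
  have hopen := IntermediateField.fixingSubgroup_isOpen (IntermediateField.adjoin F {x})
  refine ⟨(fun h => g⁻¹ * h) ⁻¹' ((IntermediateField.adjoin F {x}).fixingSubgroup :
    Set (Ω ≃ₐ[F] Ω)), hopen.preimage (continuous_const_mul g⁻¹), ?_, ?_⟩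
  · simp only [Set.mem_preimage, inv_mul_cancel]
    exact Subgroup.one_mem _
  · intro h hh
    have h1 := (IntermediateField.mem_fixingSubgroup_iff _ _).mp hh x
      (IntermediateField.mem_adjoin_simple_self F x)
    have h2 : g ((g⁻¹ * h) x) = g x := by rw [h1]
    rwa [← AlgEquiv.mul_apply, mul_inv_cancel_left] at h2

lemma isLocallyConstant_map8 [Algebra.IsAlgebraic F Ω] (Q : (W.baseChange Ω).Point) :
    IsLocallyConstant (fun g : Ω ≃ₐ[F] Ω => Point.map (W' := W) (g : Ω →ₐ[F] Ω) Q) := by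
  rcases Q with _ | ⟨x, y, h⟩
  · exact IsLocallyConstant.const 0
  · have h1 := isLocallyConstant_apply8 (F := F) x
    have h2 := isLocallyConstant_apply8 (F := F) y
    rw [IsLocallyConstant.iff_exists_open] at h1 h2 ⊢
    intro g
    obtain ⟨U, hU, hgU, h1'⟩ := h1 g
    obtain ⟨V, hV, hgV, h2'⟩ := h2 g
    refine ⟨U ∩ V, hU.inter hV, ⟨hgU, hgV⟩, ?_⟩
    intro h hh
    rw [Point.map_some, Point.map_some]
    simp only [Point.some.injEq]
    exact ⟨h1' h hh.1, h2' h hh.2⟩

/-- A point fixed by the Galois group is rational. -/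
lemma exists_point_of_fixed8 [DecidableEq F] [IsGalois F Ω] (Q : (W.baseChange Ω).Point)
    (h : ∀ g : Ω ≃ₐ[F] Ω, Point.map (W' := W) (g : Ω →ₐ[F] Ω) Q = Q) :
    ∃ P : (W.baseChange F).Point, Point.map (W' := W) (Algebra.ofId F Ω) P = Q := by
  rcases Q with _ | ⟨x, y, hxy⟩
  · exact ⟨0, rfl⟩
  · have h' : ∀ g : Ω ≃ₐ[F] Ω, g x = x ∧ g y = y := by
      intro g
      have := h g
      rw [Point.map_some] at this
      simp only [Point.some.injEq] at this
      exact this
    obtain ⟨x₀, hx₀⟩ := exists_of_fixed (F := F) (x := x) (fun g => (h' g).1)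
    obtain ⟨y₀, hy₀⟩ := exists_of_fixed (F := F) (x := y) (fun g => (h' g).2)
    subst hx₀ hy₀
    have hN : (W.baseChange F).Nonsingular x₀ y₀ :=
      (W.baseChange_nonsingular (f := Algebra.ofId F Ω) (Algebra.ofId F Ω).injective x₀ y₀).mp hxy
    exact ⟨.some x₀ y₀ hN, rfl⟩

/-- A sequence of successive halves. -/
lemma exists_seq8 {A : Type*} [AddCommGroup A] (h : ∀ P : A, ∃ Q, Q + Q = P) (P Q : A)
    (hQ : Q + Q = P) : ∃ q : ℕ → A, q 0 = P ∧ q 1 = Q ∧ ∀ n, q (n + 1) + q (n + 1) = q n := by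
  choose f hf using h
  refine ⟨fun n => Nat.casesOn n P (fun m => f^[m] Q), rfl, rfl, ?_⟩
  intro n
  cases n with
  | zero => exact hQ
  | succ m =>
    change f^[m + 1] Q + f^[m + 1] Q = f^[m] Q
    rw [Function.iterate_succ_apply']
    exact hf _

lemma two_pow_seq8 {A : Type*} [AddCommGroup A] {q : ℕ → A}
    (h : ∀ n, q (n + 1) + q (n + 1) = q n) (n : ℕ) : 2 ^ n • q n = q 0 := by
  induction n with
  | zero => simp
  | succ m ih => rw [pow_succ, mul_smul, two_nsmul, h, ih]

lemma TC.two_pow {c : ℕ → (Ω ≃ₐ[F] Ω) → (W.baseChange Ω).Point} (hc : TC W c) (n : ℕ)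
    (g : Ω ≃ₐ[F] Ω) : 2 ^ n • c n g = 0 := by
  induction n with
  | zero => rw [hc.zero, smul_zero]
  | succ m ih => rw [pow_succ, mul_smul, hc.two, ih]

/-- The quotient by two of `c - δ(q)`, where `c` agrees with `δ(q)` at the first level. -/
lemma TC.half [IsGalois F Ω] {c : ℕ → (Ω ≃ₐ[F] Ω) → (W.baseChange Ω).Point} (hc : TC W c)
    {q : ℕ → (W.baseChange Ω).Point} (hq : ∀ n, q (n + 1) + q (n + 1) = q n)
    (h1 : ∀ g : Ω ≃ₐ[F] Ω, c 1 g = Point.map (W' := W) (g : Ω →ₐ[F] Ω) (q 1) - q 1) :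
    TC W (fun n (g : Ω ≃ₐ[F] Ω) => c (n + 1) g -
      (Point.map (W' := W) (g : Ω →ₐ[F] Ω) (q (n + 1)) - q (n + 1))) where
  zero g := by
    change c (0 + 1) g - _ = 0
    rw [zero_add, h1, sub_self]
  two n g := by
    change 2 • (c (n + 1 + 1) g - (Point.map (W' := W) (g : Ω →ₐ[F] Ω) (q (n + 1 + 1)) -
      q (n + 1 + 1))) = c (n + 1) g - (Point.map (W' := W) (g : Ω →ₐ[F] Ω) (q (n + 1)) - q (n + 1))
    rw [smul_sub, hc.two, smul_sub, ← map_nsmul, two_nsmul (q (n + 1 + 1)), hq]
  mul n g h := by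
    have e : Point.map (W' := W) ((g * h : Ω ≃ₐ[F] Ω) : Ω →ₐ[F] Ω) (q (n + 1)) =
        Point.map (g : Ω →ₐ[F] Ω) (Point.map (h : Ω →ₐ[F] Ω) (q (n + 1))) := by
      rw [Point.map_map]; rfl
    change c (n + 1) (g * h) - (Point.map (W' := W) ((g * h : Ω ≃ₐ[F] Ω) : Ω →ₐ[F] Ω) (q (n + 1)) -
      q (n + 1)) = _
    rw [hc.mul, e, map_sub, map_sub]
    abel
  loc n := (hc.loc (n + 1)).sub ((isLocallyConstant_map8 _).sub (IsLocallyConstant.const _))

/-- Invariance up to torsion is inherited. -/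
lemma InvMT.half {c : ℕ → (Ω ≃ₐ[F] Ω) → (W.baseChange Ω).Point}
    {q : ℕ → (W.baseChange Ω).Point} (hq : ∀ n, q (n + 1) + q (n + 1) = q n) {γ : Ω ≃ₐ[R] Ω}
    (hfix : Point.map (W' := W) (γ : Ω →ₐ[R] Ω) (q 0) = q 0)
    (hinv : InvMT W c γ) : InvMT W (fun n (g : Ω ≃ₐ[F] Ω) => c (n + 1) g -
      (Point.map (W' := W) (g : Ω →ₐ[F] Ω) (q (n + 1)) - q (n + 1))) γ := by
  obtain ⟨m, hm, H⟩ := hinv
  refine ⟨2 * m, by positivity, fun n => ?_⟩
  obtain ⟨A, hA, HA⟩ := H (n + 1)
  set B := Point.map (W' := W) (γ : Ω →ₐ[R] Ω) (q (n + 1)) - q (n + 1) with hB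
  refine ⟨2 • (A - m • B), ?_, ?_⟩
  · have hB' : 2 ^ (n + 1) • B = 0 := by
      rw [hB, smul_sub, ← map_nsmul, two_pow_seq8 hq, hfix, sub_self]
    rw [← mul_smul, ← pow_succ, smul_sub, hA, smul_comm, hB', smul_zero, sub_zero]
  · intro g h hgh
    have e1 : Point.map (W' := W) (γ : Ω →ₐ[R] Ω) (Point.map (g : Ω →ₐ[F] Ω) (q (n + 1))) =
        Point.map (h : Ω →ₐ[F] Ω) (Point.map (γ : Ω →ₐ[R] Ω) (q (n + 1))) := by
      rcases q (n + 1) with _ | ⟨x, y, hxy⟩
      · rfl
      · rw [Point.map_some, Point.map_some, Point.map_some, Point.map_some]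
        simp only [Point.some.injEq]
        exact ⟨hgh x, hgh y⟩
    have e2 := HA g h hgh
    have e3 : Point.map (W' := W) (γ : Ω →ₐ[R] Ω) (c (n + 1) g -
      (Point.map (g : Ω →ₐ[F] Ω) (q (n + 1)) - q (n + 1))) - (c (n + 1) h -
      (Point.map (h : Ω →ₐ[F] Ω) (q (n + 1)) - q (n + 1))) =
      (Point.map (γ : Ω →ₐ[R] Ω) (c (n + 1) g) - c (n + 1) h) -
        (Point.map (h : Ω →ₐ[F] Ω) B - B) := by
      rw [map_sub, map_sub, e1, hB, map_sub]
      abel
    have e4 : Point.map (W' := W) (h : Ω →ₐ[F] Ω) (A - m • B) =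
        Point.map (W' := W) (h : Ω →ₐ[F] Ω) A - m • Point.map (W' := W) (h : Ω →ₐ[F] Ω) B := by
      rw [map_sub, map_nsmul]
    change (2 * m) • (Point.map (W' := W) (γ : Ω →ₐ[R] Ω) (c (n + 1) g -
      (Point.map (W' := W) (g : Ω →ₐ[F] Ω) (q (n + 1)) - q (n + 1))) - (c (n + 1) h -
      (Point.map (W' := W) (h : Ω →ₐ[F] Ω) (q (n + 1)) - q (n + 1)))) = _
    rw [e3, mul_smul, smul_sub m, e2, map_nsmul, e4, ← smul_sub 2]
    congr 1
    rw [smul_sub m]
    abel

end Basic

end Pool.Agent.Lib.MP_89bcae_ag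

end

section

/-!
# The local condition at a place of good reduction
-/

open Polynomial WeierstrassCurve WeierstrassCurve.Affine

open scoped Classical

namespace Pool.Agent.Lib.MP_89bcae_ag

set_option linter.unusedSectionVars false

section Valuation

variable {K : Type*} [Field K] (w : Valuation K (WithZero (Multiplicative ℤ)))

lemma lg_one : lg w 1 = 0 := by simp [lg]

lemma lg_eq_zero_of {x : K} (h : w x = 1) : lg w x = 0 := by
  unfold lg; rw [h, WithZero.log_one]

lemma ne_zero_of_val_one {x : K} (h : w x = 1) : x ≠ 0 := by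
  rintro rfl
  rw [map_zero] at h
  exact zero_ne_one h

lemma lg_prod {ι : Type*} (s : Finset ι) (f : ι → K) (hf : ∀ i ∈ s, f i ≠ 0) :
    lg w (∏ i ∈ s, f i) = ∑ i ∈ s, lg w (f i) := by
  induction s using Finset.induction_on with
  | empty => simp [lg_one]
  | insert a s ha ih =>
    rw [Finset.prod_insert ha, Finset.sum_insert ha,
      lg_mul w (hf a (Finset.mem_insert_self a s))
        (Finset.prod_ne_zero_iff.mpr fun i hi => hf i (Finset.mem_insert_of_mem hi)),
      ih fun i hi => hf i (Finset.mem_insert_of_mem hi)]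

/-- At a place of good reduction, `x - e` has even valuation. -/
lemma even_lg_of_eq {u a q Y : K} (hu : u ≠ 0) (ha : w a ≤ 1) (hq : w q = 1)
    (h : Y ^ 2 = u * (u ^ 2 + a * u + q)) : Even (lg w u) := by
  have hq0 := ne_zero_of_val_one w hq
  rcases lt_trichotomy (w u) 1 with h1 | h1 | h1
  · -- `q` dominates
    have h3 : w (u ^ 2 + a * u) < w q := by
      rw [hq]
      apply lt_of_le_of_lt (w.map_add _ _)
      rw [max_lt_iff, map_pow, map_mul]
      refine ⟨pow_lt_one₀ zero_le h1 two_ne_zero, ?_⟩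
      exact lt_of_le_of_lt (mul_le_mul_left ha _) (by rwa [one_mul])
    have h4 : w (u ^ 2 + a * u + q) = 1 := by
      rw [w.map_add_eq_of_lt_right h3, hq]
    have h5 := congrArg (lg w) h
    rw [lg_pow, lg_mul w hu (ne_zero_of_val_one w h4), lg_eq_zero_of w h4] at h5
    exact ⟨lg w Y, by push_cast at h5; linarith⟩
  · rw [lg_eq_zero_of w h1]; exact ⟨0, by simp⟩
  · -- `u ^ 2` dominates
    have h2 : w (a * u + q) < w (u ^ 2) := by
      apply lt_of_le_of_lt (w.map_add _ _)
      rw [max_lt_iff, map_pow, map_mul, hq, pow_two]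
      refine ⟨?_, ?_⟩
      · apply lt_of_le_of_lt (mul_le_mul_left ha _)
        rw [one_mul]
        exact lt_mul_of_one_lt_left (lt_trans zero_lt_one h1) h1
      · exact lt_trans h1 (lt_mul_of_one_lt_left (lt_trans zero_lt_one h1) h1)
    have h4 : w (u ^ 2 + a * u + q) = w (u ^ 2) := by
      rw [add_assoc]; exact w.map_add_eq_of_lt_left h2
    have h6 : u ^ 2 + a * u + q ≠ 0 := by
      intro h0
      rw [h0, map_zero, eq_comm, map_pow, pow_eq_zero_iff two_ne_zero, map_eq_zero] at h4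
      exact hu h4
    have h7 : lg w (u ^ 2 + a * u + q) = 2 * lg w u := by
      unfold lg; rw [h4, map_pow, WithZero.log_pow, nsmul_eq_mul]; norm_num
    have h5 := congrArg (lg w) h
    rw [lg_pow, lg_mul w hu h6, h7] at h5
    exact ⟨lg w Y - lg w u, by push_cast at h5; linarith⟩

end Valuation

section Local

variable {R F L Ω : Type*} [CommRing R] [Field F] [IsAlgClosed F] [Field L] [Field Ω]
  [Algebra F[X] L] [IsFractionRing F[X] L] [Algebra L Ω] [Algebra F[X] Ω] [IsScalarTower F[X] L Ω]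
  [Algebra R L] [Algebra R Ω] [IsScalarTower R L Ω] {W : Affine R} {g D : F[X]}
  [IsGalois L Ω] [IsSepClosed Ω] [DecidableEq Ω]
  {Lv M : Type*} [Field Lv] [Field M] [Algebra L Lv] [Algebra Lv M] [Algebra L M]
  [IsScalarTower L Lv M] [Algebra R Lv] [Algebra R M] [IsScalarTower R L Lv]
  [IsScalarTower R L M] [IsScalarTower R Lv M] [Algebra F[X] Lv] [Algebra F[X] M]
  [IsScalarTower F[X] L Lv] [IsScalarTower F[X] L M] [IsScalarTower F[X] Lv M] [IsGalois Lv M]
  [DecidableEq Lv] [DecidableEq M]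

lemma IsTwist.up {A B : Type*} [Field A] [Field B] [Algebra A B] [Algebra R A] [Algebra R B]
    [IsScalarTower R A B] [Algebra F[X] A] [Algebra F[X] B] [IsScalarTower F[X] A B]
    (h : IsTwist A W g D) : IsTwist B W g D where
  a₁ := by rw [IsScalarTower.algebraMap_apply R A B, h.a₁, map_zero]
  a₂ := by
    rw [IsScalarTower.algebraMap_apply R A B, h.a₂, ← IsScalarTower.algebraMap_apply]
  a₃ := by rw [IsScalarTower.algebraMap_apply R A B, h.a₃, map_zero]
  a₄ := by
    rw [IsScalarTower.algebraMap_apply R A B, h.a₄, ← IsScalarTower.algebraMap_apply]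
  a₆ := by
    rw [IsScalarTower.algebraMap_apply R A B, h.a₆, ← IsScalarTower.algebraMap_apply]

/-- An embedding commutes with evaluation. -/
lemma ev_algHom (j : Ω →ₐ[L] M) (θ : Ω) (p : F[X]) : j (ev F Ω θ p) = ev F M (j θ) p := by
  have h : (j : Ω →+* M).comp (ev F Ω θ) = ev F M (j θ) := by
    apply Polynomial.ringHom_ext
    · intro a
      simp only [RingHom.comp_apply, ev_C]
      rw [IsScalarTower.algebraMap_apply F[X] L Ω, IsScalarTower.algebraMap_apply F[X] L M]
      exact j.commutes _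
    · simp [ev_X]
  exact RingHom.congr_fun h p

lemma algHom_algebraMap_poly (j : Ω →ₐ[L] M) (p : F[X]) :
    j (algebraMap F[X] Ω p) = algebraMap F[X] M p := by
  rw [IsScalarTower.algebraMap_apply F[X] L Ω, IsScalarTower.algebraMap_apply F[X] L M]
  exact j.commutes _

/-- The image of the root set. -/
lemma exists_root_of_mem (hg : g.Monic) (hdeg : g.natDegree = 3) (hd : derivative g ≠ 0)
    (j : Ω →ₐ[L] M) {y : M} (hy : y ∈ RootSet (Ω := M) g) :
    ∃ θ ∈ RootSet (Ω := Ω) g, j θ = y := by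
  obtain ⟨θ₁, θ₂, θ₃, -, -, -, hR, -, hP⟩ := exists_three_roots (F := F) L (Ω := Ω) hg hdeg hd
  have h1 := congrArg (fun P : Polynomial Ω => (P.map (j : Ω →+* M)).eval y) hP
  simp only [Polynomial.map_mul, Polynomial.map_sub, Polynomial.map_X, Polynomial.map_C,
    eval_mul, eval_sub, eval_X, eval_C] at h1
  rw [Polynomial.map_map, show (j : Ω →+* M).comp (algebraMap L Ω) = algebraMap L M from
    j.comp_algebraMap, eval_map_algebraMap, (mem_rootSet_iff (L := L)).mp hy, eq_comm, mul_eq_zero,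
    mul_eq_zero] at h1
  rcases h1 with (h1 | h1) | h1
  · exact ⟨θ₁, (hR _).mpr (Or.inl rfl), (sub_eq_zero.mp h1).symm⟩
  · exact ⟨θ₂, (hR _).mpr (Or.inr (Or.inl rfl)), (sub_eq_zero.mp h1).symm⟩
  · exact ⟨θ₃, (hR _).mpr (Or.inr (Or.inr rfl)), (sub_eq_zero.mp h1).symm⟩

lemma lg_root_prod (w : Valuation Lv (WithZero (Multiplicative ℤ))) {θv : Lv} {β : F}
    (hβ : w (θv - algebraMap F[X] Lv (C β)) = WithZero.exp (-1 : ℤ))
    (hβ' : ∀ β' : F, β' ≠ β → w (θv - algebraMap F[X] Lv (C β')) = 1) (Z : Finset F) :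
    (∀ β' : F, θv - algebraMap F[X] Lv (C β') ≠ 0) ∧
    lg w (∏ β' ∈ Z, (θv - algebraMap F[X] Lv (C β'))) = if β ∈ Z then -1 else 0 := by
  have hne : ∀ β' : F, θv - algebraMap F[X] Lv (C β') ≠ 0 := by
    intro β' h0
    by_cases hb : β' = β
    · subst hb
      rw [h0, map_zero] at hβ
      exact WithZero.exp_ne_zero hβ.symm
    · have := hβ' β' hb
      rw [h0, map_zero] at this
      exact zero_ne_one this
  refine ⟨hne, ?_⟩
  rw [lg_prod w Z _ (fun i _ => hne i)]
  have h1 : ∀ β' ∈ Z, lg w (θv - algebraMap F[X] Lv (C β')) = if β' = β then -1 else 0 := by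
    intro β' _
    by_cases hb : β' = β
    · subst hb
      rw [if_pos rfl]
      unfold lg
      rw [hβ, WithZero.log_exp]
    · rw [if_neg hb]
      exact lg_eq_zero_of w (hβ' β' hb)
  rw [Finset.sum_congr rfl h1, Finset.sum_ite_eq']

/-- The values of `ρ²` at a half of a rational point. -/
lemma rho_sq_of_double (hW : IsTwist M W g D) (h2M : (2 : M) ≠ 0)
    (P : (W.baseChange Lv).Point) (Q : (W.baseChange M).Point)
    (hPQ : 2 • Q = Point.map (W' := W) (Algebra.ofId Lv M) P) :
    (∀ e : M, rho e Q ^ 2 = 1) ∨ ∃ (X₀ Y₀ : Lv) (h : (W.baseChange Lv).Nonsingular X₀ Y₀),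
      P = .some X₀ Y₀ h ∧ ∀ e : M, Rt (W.baseChange M) e →
        rho e Q ^ 2 = algebraMap Lv M X₀ - e := by
  by_cases h0 : 2 • Q = 0
  · left
    intro e
    rw [pow_two]
    exact rho_two_torsion_mul_self hW.short h2M e h0
  · right
    rcases Q with _ | ⟨x, y, hxy⟩
    · exact absurd (by rw [← Point.zero_def, smul_zero]) h0
    have hy : y ≠ 0 := by
      intro hy0
      apply h0
      rw [two_nsmul]
      exact (add_self_eq_zero_iff hW.short h2M hxy).mpr hy0
    rcases P with _ | ⟨X₀, Y₀, h₀⟩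
    · exfalso
      apply h0
      rw [hPQ]; rfl
    · refine ⟨X₀, Y₀, h₀, rfl, fun e he => ?_⟩
      rw [rho_sq hW.short h2M he hxy hy]
      have hne : y ≠ (W.baseChange M).negY x y := by
        rw [hW.short.negY]
        intro h1
        have : 2 * y = 0 := by linear_combination h1
        rcases mul_eq_zero.mp this with h3 | h3
        · exact h2M h3
        · exact hy h3
      rw [two_nsmul, Point.add_self_of_Y_ne hne, Point.map_some] at hPQ
      simp only [Point.some.injEq] at hPQ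
      rw [hPQ.1]
      rfl

/-- Equivariance of `θ ↦ j(b(θ)) ρ_{Dθ}(Q)`. -/
lemma IsDesc.equivariant {c : (Ω ≃ₐ[L] Ω) → (W.baseChange Ω).Point} {Z : Finset F}
    {b : Ω → Ω} (h : IsDesc W g D c Z b) (h2M : (2 : M) ≠ 0)
    (hWM : IsTwist M W g D) (hg : g.Monic) (hdeg : g.natDegree = 3)
    (hc : ∀ σ, 2 • c σ = 0) (j : Ω →ₐ[L] M) (Q : (W.baseChange M).Point)
    (σ : M ≃ₐ[Lv] M) (σ' : Ω ≃ₐ[L] Ω) (hσ : ∀ x, j (σ' x) = σ (j x))
    (hcQ : Point.map (W' := W) j (c σ') = Point.map (W' := W) (σ : M →ₐ[Lv] M) Q - Q)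
    {θ : Ω} (hθ : θ ∈ RootSet (Ω := Ω) g) :
    σ (j (b θ) * rho (algebraMap F[X] M D * j θ) Q) =
      j (b (σ' θ)) * rho (algebraMap F[X] M D * j (σ' θ)) Q := by
  have hσQ : Point.map (W' := W) (σ : M →ₐ[Lv] M) Q = Q + Point.map (W' := W) j (c σ') := by
    rw [hcQ]; abel
  have hjc : 2 • Point.map (W' := W) j (c σ') = 0 := by rw [← map_nsmul, hc, map_zero]
  have hσθ := map_mem_rootSet σ' hθ
  have hjσθ : j (σ' θ) ∈ RootSet (Ω := M) g := by
    change ev F M (j (σ' θ)) g = _
    rw [← ev_algHom (L := L), show ev F Ω (σ' θ) g = _ from hσθ, algHom_algebraMap_poly (L := L)]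
  have hσd : σ (algebraMap F[X] M D) = algebraMap F[X] M D := by
    rw [IsScalarTower.algebraMap_apply F[X] Lv M]; exact σ.commutes _
  have e1 : σ (rho (algebraMap F[X] M D * j θ) Q) =
      rho (algebraMap F[X] M D * j (σ' θ)) Q *
        rho (algebraMap F[X] M D * j (σ' θ)) (Point.map (W' := W) j (c σ')) := by
    rw [← rho_add hWM.short h2M (hWM.rt hg hdeg hjσθ) _ _ hjc, ← hσQ, hσ]
    have : algebraMap F[X] M D * σ (j θ) = (σ : M →ₐ[Lv] M) (algebraMap F[X] M D * j θ) := by
      change _ = σ (algebraMap F[X] M D * j θ)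
      rw [map_mul, hσd]
    rw [this, rho_map]
    rfl
  have e2 : σ (j (b θ)) = rho (algebraMap F[X] M D * j (σ' θ)) (Point.map (W' := W) j (c σ')) *
      j (b (σ' θ)) := by
    rw [← hσ, h.act θ hθ, map_mul]
    congr 1
    rw [← algHom_algebraMap_poly (L := L) j D, ← map_mul, rho_map]
  rw [map_mul, e1, e2]
  linear_combination (j (b (σ' θ)) * rho (algebraMap F[X] M D * j (σ' θ)) Q) *
    rho_two_torsion_mul_self hWM.short h2M (algebraMap F[X] M D * j (σ' θ)) hjc

/-- The local condition at a place of good reduction at which `β` is a simple root of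
`g(x) = g(β)`: the point `β` does not belong to `Z`. -/
lemma IsDesc.notMem_of_local {c : (Ω ≃ₐ[L] Ω) → (W.baseChange Ω).Point} {Z : Finset F}
    {b : Ω → Ω} (h : IsDesc W g D c Z b) (h2 : (2 : Lv) ≠ 0)
    (hW : IsTwist L W g D) (hg : g.Monic) (hdeg : g.natDegree = 3) (hd : derivative g ≠ 0)
    (hD : D ≠ 0) (hc : ∀ σ, 2 • c σ = 0) (j : Ω →ₐ[L] M)
    (w : Valuation Lv (WithZero (Multiplicative ℤ))) {θv : Lv} (hθv : θv ∈ RootSet (Ω := Lv) g)
    {β : F} (hβ : w (θv - algebraMap F[X] Lv (C β)) = WithZero.exp (-1 : ℤ))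
    (hβ' : ∀ β' : F, β' ≠ β → w (θv - algebraMap F[X] Lv (C β')) = 1)
    (hwD : w (algebraMap F[X] Lv D) = 1) (hint : ∀ p : F[X], w (algebraMap F[X] Lv p) ≤ 1)
    (hwg : w (ev F Lv θv (derivative g)) = 1)
    (hwt : w (algebraMap F[X] Lv (X - C (g.eval β))) = WithZero.exp (-1 : ℤ))
    (hwt' : ∀ α : F, α ≠ g.eval β → w (algebraMap F[X] Lv (X - C α)) = 1)
    (P : (W.baseChange Lv).Point) (Q : (W.baseChange M).Point)
    (hPQ : 2 • Q = Point.map (W' := W) (Algebra.ofId Lv M) P)
    (hcQ : ∀ (σ : M ≃ₐ[Lv] M) (σ' : Ω ≃ₐ[L] Ω), (∀ x, j (σ' x) = σ (j x)) →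
      Point.map (W' := W) j (c σ') = Point.map (W' := W) (σ : M →ₐ[Lv] M) Q - Q) : β ∉ Z := by
  have hWΩ : IsTwist Ω W g D := hW.up
  have hWv : IsTwist Lv W g D := hW.up
  have hWM : IsTwist M W g D := hW.up
  have inj : Function.Injective (algebraMap Lv M) := (algebraMap Lv M).injective
  have h2M : (2 : M) ≠ 0 := by
    intro h0; apply h2; apply inj; rw [map_ofNat, h0, map_zero]
  have h2Ω : (2 : Ω) ≠ 0 := by
    intro h0; apply h2M
    have := congrArg j h0
    rwa [map_ofNat, map_zero] at this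
  obtain ⟨hne, hlg⟩ := lg_root_prod w hβ hβ' Z
  -- it suffices that the valuation of the product is even
  suffices hev : Even (lg w (∏ β' ∈ Z, (θv - algebraMap F[X] Lv (C β')))) by
    intro hZ
    rw [hlg, if_pos hZ] at hev
    exact absurd hev (by decide)
  have hθM : algebraMap Lv M θv ∈ RootSet (Ω := M) g := by
    have h0 : ev F Lv θv g = algebraMap F[X] Lv X := hθv
    have h1 : (algebraMap Lv M) (ev F Lv θv g) = ev F M (algebraMap Lv M θv) g := by
      have h : (algebraMap Lv M).comp (ev F Lv θv) = ev F M (algebraMap Lv M θv) := by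
        apply Polynomial.ringHom_ext
        · intro a
          simp only [RingHom.comp_apply, ev_C]
          rw [← IsScalarTower.algebraMap_apply]
        · simp [ev_X]
      exact RingHom.congr_fun h g
    change ev F M (algebraMap Lv M θv) g = _
    rw [← h1, h0, ← IsScalarTower.algebraMap_apply]
  obtain ⟨θ, hθ, hjθ⟩ := exists_root_of_mem (F := F) (L := L) hg hdeg hd j hθM
  have hd0 : algebraMap F[X] Ω D ≠ 0 := algebraMap_ne_zero_Om L hD
  have hd0M : algebraMap F[X] M D ≠ 0 := by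
    rw [← algHom_algebraMap_poly (L := L) j D]
    exact (map_ne_zero j).mpr hd0
  set z : Ω → M := fun θ' => j (b θ') * rho (algebraMap F[X] M D * j θ') Q with hz
  have hzσ : ∀ (σ : M ≃ₐ[Lv] M) (σ' : Ω ≃ₐ[L] Ω), (∀ x, j (σ' x) = σ (j x)) →
      ∀ θ' ∈ RootSet (Ω := Ω) g, σ (z θ') = z (σ' θ') :=
    fun σ σ' hσ θ' hθ' => h.equivariant h2M hWM hg hdeg hc j Q σ σ' hσ (hcQ σ σ' hσ) hθ'
  have hres : ∀ σ : M ≃ₐ[Lv] M, ∃ σ' : Ω ≃ₐ[L] Ω, (∀ x, j (σ' x) = σ (j x)) ∧ σ' θ = θ := by
    intro σ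
    obtain ⟨σ', hσ'⟩ := exists_restrict (F := L) j (σ.restrictScalars L)
    refine ⟨σ', hσ', j.injective ?_⟩
    change j (σ' θ) = j θ
    rw [hσ', hjθ]
    exact σ.commutes _
  -- the element `z θ`
  obtain ⟨y, hy⟩ := exists_of_fixed (F := Lv) (x := z θ) (by
    intro σ
    obtain ⟨σ', h1, h3⟩ := hres σ
    rw [hzσ σ σ' h1 θ hθ, h3])
  have hjb : ∀ θ' ∈ RootSet (Ω := Ω) g, j (b θ') ^ 2 =
      ∏ β' ∈ Z, (j θ' - algebraMap F[X] M (C β')) := by
    intro θ' hθ'
    rw [← map_pow, h.sq θ' hθ', map_prod]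
    apply Finset.prod_congr rfl
    intro β' _
    rw [map_sub, algHom_algebraMap_poly]
  have hprodM : algebraMap Lv M (∏ β' ∈ Z, (θv - algebraMap F[X] Lv (C β'))) = j (b θ) ^ 2 := by
    rw [hjb θ hθ, map_prod]
    apply Finset.prod_congr rfl
    intro β' _
    rw [map_sub, hjθ, ← IsScalarTower.algebraMap_apply]
  have hprod0 : (∏ β' ∈ Z, (θv - algebraMap F[X] Lv (C β'))) ≠ 0 :=
    Finset.prod_ne_zero_iff.mpr fun β' _ => hne β'
  rcases rho_sq_of_double hWM h2M P Q hPQ with hρ | ⟨X₀, Y₀, h₀, rfl, hρ⟩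
  · -- the class is locally the class of a two-torsion point
    have h5 : y ^ 2 = ∏ β' ∈ Z, (θv - algebraMap F[X] Lv (C β')) := by
      apply inj
      rw [hprodM, map_pow, hy, hz]
      simp only
      rw [mul_pow, hρ, mul_one]
    rw [← h5, lg_pow]
    exact ⟨lg w y, by push_cast; ring⟩
  · have hrtv : Rt (W.baseChange Lv) (algebraMap F[X] Lv D * θv) := hWv.rt hg hdeg hθv
    have hem : algebraMap F[X] M D * j θ = algebraMap Lv M (algebraMap F[X] Lv D * θv) := by
      rw [map_mul, hjθ, ← IsScalarTower.algebraMap_apply]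
    have hjmem : ∀ θ' ∈ RootSet (Ω := Ω) g, j θ' ∈ RootSet (Ω := M) g := by
      intro θ' hθ'
      change ev F M (j θ') g = _
      rw [← ev_algHom (L := L), show ev F Ω θ' g = _ from hθ', algHom_algebraMap_poly (L := L)]
    by_cases hX : X₀ = algebraMap F[X] Lv D * θv
    · -- the special case
      obtain ⟨θ₂, θ₃, n2, n3, n23, hR, heval, hder⟩ :=
        exists_other_roots (F := F) L (Ω := Ω) hg hdeg hd hθ
      have hm2 : θ₂ ∈ RootSet (Ω := Ω) g := (hR _).mpr (Or.inr (Or.inl rfl))
      have hm3 : θ₃ ∈ RootSet (Ω := Ω) g := (hR _).mpr (Or.inr (Or.inr rfl))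
      obtain ⟨y', hy'⟩ := exists_of_fixed (F := Lv) (x := z θ₂ * z θ₃) (by
        intro σ
        obtain ⟨σ', h1, h3⟩ := hres σ
        rw [map_mul, hzσ σ σ' h1 θ₂ hm2, hzσ σ σ' h1 θ₃ hm3]
        have k2 := (hR _).mp (map_mem_rootSet σ' hm2)
        have k3 := (hR _).mp (map_mem_rootSet σ' hm3)
        have q2 : σ' θ₂ ≠ θ := fun h0 => n2 (σ'.injective (h3.trans h0.symm))
        have q3 : σ' θ₃ ≠ θ := fun h0 => n3 (σ'.injective (h3.trans h0.symm))
        have q23 : σ' θ₂ ≠ σ' θ₃ := fun h0 => n23 (σ'.injective h0)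
        rcases k2 with k2 | k2 | k2
        · exact absurd k2 q2
        · rcases k3 with k3 | k3 | k3
          · exact absurd k3 q3
          · exact absurd (k2.trans k3.symm) q23
          · rw [k2, k3]
        · rcases k3 with k3 | k3 | k3
          · exact absurd k3 q3
          · rw [k2, k3, mul_comm]
          · exact absurd (k2.trans k3.symm) q23)
      -- the key identity
      have hprodT : ∏ β' ∈ Z, algebraMap F[X] Lv (X - C (g.eval β')) ≠ 0 := by
        rw [Finset.prod_ne_zero_iff]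
        intro β' _ h0
        by_cases hb : g.eval β' = g.eval β
        · rw [hb] at h0
          rw [h0, map_zero] at hwt
          exact WithZero.exp_ne_zero hwt.symm
        · have := hwt' _ hb
          rw [h0, map_zero] at this
          exact zero_ne_one this
      have key : y' ^ 2 * ∏ β' ∈ Z, (θv - algebraMap F[X] Lv (C β')) =
          (∏ β' ∈ Z, algebraMap F[X] Lv (X - C (g.eval β'))) *
            ((algebraMap F[X] Lv D) ^ 2 * ev F Lv θv (derivative g)) := by
        apply inj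
        rw [map_mul, map_mul, map_pow, hy', hz]
        simp only
        rw [mul_pow, mul_pow, mul_pow, hjb θ₂ hm2, hjb θ₃ hm3,
          hρ _ (hWM.rt hg hdeg (hjmem θ₂ hm2)), hρ _ (hWM.rt hg hdeg (hjmem θ₃ hm3)), hprodM,
          hjb θ hθ, map_prod]
        have e1 : ∀ β' ∈ Z, algebraMap Lv M (algebraMap F[X] Lv (X - C (g.eval β'))) =
            (j θ - algebraMap F[X] M (C β')) * (j θ₂ - algebraMap F[X] M (C β')) *
              (j θ₃ - algebraMap F[X] M (C β')) := by
          intro β' _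
          have h3 := heval (algebraMap F[X] Ω (C β'))
          rw [ev_const] at h3
          have h4 := congrArg j h3
          simp only [map_sub, map_mul, algHom_algebraMap_poly] at h4
          rw [← IsScalarTower.algebraMap_apply, map_sub]
          linear_combination -h4
        rw [Finset.prod_congr rfl e1, Finset.prod_mul_distrib, Finset.prod_mul_distrib]
        have e2 : algebraMap Lv M (algebraMap F[X] Lv D ^ 2 * ev F Lv θv (derivative g)) =
            (algebraMap F[X] M D * j θ - algebraMap F[X] M D * j θ₂) *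
            (algebraMap F[X] M D * j θ - algebraMap F[X] M D * j θ₃) := by
          have h3 : algebraMap Lv M (ev F Lv θv (derivative g)) = j (ev F Ω θ (derivative g)) := by
            rw [ev_derivative_cubic hg hdeg, ev_derivative_cubic hg hdeg]
            simp only [map_add, map_mul, map_pow, map_ofNat, hjθ, algHom_algebraMap_poly,
              ← IsScalarTower.algebraMap_apply]
          rw [map_mul, map_pow, ← IsScalarTower.algebraMap_apply, h3, hder, map_mul, map_sub,
            map_sub]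
          ring
        rw [e2, hX, ← hem]
        ring
      have h6 := congrArg (lg w) key
      have hy'0 : y' ≠ 0 := by
        intro h0
        rw [h0, zero_pow two_ne_zero, zero_mul, eq_comm, mul_eq_zero, mul_eq_zero] at key
        rcases key with k | k | k
        · exact hprodT k
        · rw [pow_eq_zero_iff two_ne_zero] at k
          exact ne_zero_of_val_one w hwD k
        · exact ne_zero_of_val_one w hwg k
      have hwd2 : w ((algebraMap F[X] Lv D) ^ 2 * ev F Lv θv (derivative g)) = 1 := by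
        rw [map_mul, map_pow, hwD, hwg]; simp
      have hlp := lg_prod w Z (fun β' => algebraMap F[X] Lv (X - C (g.eval β'))) (fun β' hb => by
          intro h0
          exact hprodT (Finset.prod_eq_zero hb h0))
      rw [lg_mul w (pow_ne_zero 2 hy'0) hprod0, lg_mul w hprodT (ne_zero_of_val_one w hwd2),
        lg_eq_zero_of w hwd2, lg_pow, hlp] at h6
      have h7 : ∀ β' ∈ Z, lg w (algebraMap F[X] Lv (X - C (g.eval β'))) =
          if g.eval β' = g.eval β then -1 else 0 := by
        intro β' _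
        by_cases hb : g.eval β' = g.eval β
        · rw [if_pos hb, hb]
          unfold lg
          rw [hwt, WithZero.log_exp]
        · rw [if_neg hb]
          exact lg_eq_zero_of w (hwt' _ hb)
      obtain ⟨r, hr⟩ := h.even h2Ω hWΩ hg hdeg hd hD hc (g.eval β)
      rw [Finset.sum_congr rfl h7, ← Finset.sum_filter, Finset.sum_const, hr, nsmul_eq_mul] at h6
      exact ⟨-r - lg w y', by push_cast at h6; linarith⟩
    · have hu : X₀ - algebraMap F[X] Lv D * θv ≠ 0 := sub_ne_zero.mpr hX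
      have h5 : y ^ 2 = (∏ β' ∈ Z, (θv - algebraMap F[X] Lv (C β'))) *
          (X₀ - algebraMap F[X] Lv D * θv) := by
        apply inj
        rw [map_mul, hprodM, map_pow, hy, hz]
        simp only
        rw [mul_pow, hρ _ (hWM.rt hg hdeg (hjmem θ hθ)), hem, map_sub]
      have h6 := congrArg (lg w) h5
      rw [lg_pow, lg_mul w hprod0 hu] at h6
      have h7 : Even (lg w (X₀ - algebraMap F[X] Lv D * θv)) := by
        have heq := hWv.short.equation h₀.1
        have hθint : w θv ≤ 1 := by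
          have : θv = (θv - algebraMap F[X] Lv (C β)) + algebraMap F[X] Lv (C β) := by ring
          rw [this]
          apply le_trans (w.map_add _ _)
          rw [max_le_iff]
          refine ⟨?_, hint _⟩
          rw [hβ, ← WithZero.exp_zero]
          exact WithZero.exp_le_exp.mpr (by norm_num)
        set d := algebraMap F[X] Lv D with hdd
        set e := d * θv with he
        have ea2 : (W.baseChange Lv).a₂ = algebraMap F[X] Lv (C (g.coeff 2)) * d := by
          rw [hdd, ← map_mul]; exact hWv.a₂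
        have ea4 : (W.baseChange Lv).a₄ = algebraMap F[X] Lv (C (g.coeff 1)) * d ^ 2 := by
          rw [hdd, ← map_pow, ← map_mul]; exact hWv.a₄
        have ha : w (algebraMap F[X] Lv (3 * D) * θv + algebraMap F[X] Lv (C (g.coeff 2) * D)) ≤
            1 := by
          apply le_trans (w.map_add _ _)
          rw [max_le_iff, map_mul]
          exact ⟨mul_le_one' (hint _) hθint, hint _⟩
        have hq : w (d ^ 2 * ev F Lv θv (derivative g)) = 1 := by
          rw [map_mul, map_pow, hwD, hwg]; simp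
        apply even_lg_of_eq w hu ha hq (Y := Y₀)
        rw [heq, ev_derivative_cubic hg hdeg, ea2, ea4]
        rw [Rt, ea2, ea4] at hrtv
        simp only [map_mul, map_ofNat, ← hdd]
        linear_combination hrtv
      obtain ⟨r, hr⟩ := h7
      exact ⟨lg w y - r, by push_cast at h6; linarith⟩

end Local

end Pool.Agent.Lib.MP_89bcae_ag

end

section

/-!
# Quadratic characters of a discretely valued field all of whose units are squares
-/

open Polynomial WeierstrassCurve WeierstrassCurve.Affine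

namespace Pool.Agent.Lib.MP_89bcae_ag

set_option linter.unusedSectionVars false

section Comp

variable {L Ω K M : Type*} [Field L] [Field Ω] [Algebra L Ω] [Field K] [Field M] [Algebra K M]
  [Algebra.IsAlgebraic K M]

/-- A locally constant function on a Galois group stays locally constant after composition with a
map induced by an embedding. -/
lemma isLocallyConstant_comp8 {Y : Type*} (ι : Ω →+* M) (ψ : (M ≃ₐ[K] M) → (Ω ≃ₐ[L] Ω))
    (hψ : ∀ σ x, ι (ψ σ x) = σ (ι x)) {f : (Ω ≃ₐ[L] Ω) → Y} (hf : IsLocallyConstant f) :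
    IsLocallyConstant (fun σ => f (ψ σ)) := by
  classical
  rw [IsLocallyConstant.iff_exists_open]
  intro σ₁
  have h1 : (fun h => ψ σ₁ * h) ⁻¹' (f ⁻¹' {f (ψ σ₁)}) ∈ nhds (1 : Ω ≃ₐ[L] Ω) := by
    apply (continuous_const_mul (ψ σ₁)).continuousAt.preimage_mem_nhds
    rw [mul_one]
    exact (hf.isOpen_fiber _).mem_nhds rfl
  obtain ⟨E, hE, hEs⟩ := (krullTopology_mem_nhds_one_iff L Ω _).mp h1
  obtain ⟨S, hS⟩ : E.FG := IntermediateField.essFiniteType_iff.mp inferInstance
  refine ⟨⋂ x ∈ S, {σ : M ≃ₐ[K] M | σ (ι x) = σ₁ (ι x)}, ?_, ?_, ?_⟩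
  · apply isOpen_biInter_finset
    intro x _
    exact (isLocallyConstant_apply8 (F := K) (ι x)).isOpen_fiber (σ₁ (ι x))
  · simp
  · intro σ hσ
    have h2 : (ψ σ₁)⁻¹ * ψ σ ∈ E.fixingSubgroup := by
      rw [← hS, IntermediateField.mem_fixingSubgroup_iff]
      intro y hy
      have h3 : (ψ σ₁)⁻¹ * ψ σ ∈ (IntermediateField.adjoin L (S : Set Ω)).fixingSubgroup := by
        rw [← Subgroup.zpowers_le, ← IntermediateField.le_iff_le, IntermediateField.adjoin_le_iff]
        intro x hx
        rw [SetLike.mem_coe, IntermediateField.mem_fixedField_iff]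
        intro τ hτ
        have h4 : ((ψ σ₁)⁻¹ * ψ σ) x = x := by
          apply (ψ σ₁).injective
          rw [← AlgEquiv.mul_apply, mul_inv_cancel_left]
          apply ι.injective
          rw [hψ, hψ]
          have := Set.mem_iInter₂.mp hσ x hx
          exact this
        obtain ⟨n, rfl⟩ := Subgroup.mem_zpowers_iff.mp hτ
        have h5 : (ψ σ₁)⁻¹ * ψ σ ∈ MulAction.stabilizer (Ω ≃ₐ[L] Ω) x := h4
        exact (MulAction.stabilizer (Ω ≃ₐ[L] Ω) x).zpow_mem h5 n
      exact (IntermediateField.mem_fixingSubgroup_iff _ _).mp h3 y hy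
    have h3 := hEs h2
    have h4 : f (ψ σ₁ * ((ψ σ₁)⁻¹ * ψ σ)) = f (ψ σ₁) := h3
    rwa [mul_inv_cancel_left] at h4

end Comp

section Units

variable {K Ω : Type*} [Field K] [Field Ω] [Algebra K Ω]
  (w : Valuation K (WithZero (Multiplicative ℤ)))

lemma lg_zpow {x : K} (hx : x ≠ 0) (n : ℤ) : lg w (x ^ n) = n * lg w x := by
  rcases n with n | n
  · rw [Int.ofNat_eq_natCast, zpow_natCast, lg_pow]
  · rw [zpow_negSucc]
    have h1 : lg w ((x ^ (n + 1))⁻¹) = -lg w (x ^ (n + 1)) := by
      have h2 := lg_mul w (inv_ne_zero (pow_ne_zero (n + 1) hx)) (pow_ne_zero (n + 1) hx)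
      rw [inv_mul_cancel₀ (pow_ne_zero _ hx), lg_one] at h2
      linarith
    rw [h1, lg_pow, Int.negSucc_eq]
    push_cast
    ring

lemma val_one_of_lg {x : K} (hx : x ≠ 0) (h : lg w x = 0) : w x = 1 := by
  unfold lg at h
  have := WithZero.exp_log (show w x ≠ 0 from (map_ne_zero w).mpr hx)
  rw [h, WithZero.exp_zero] at this
  exact this.symm

/-- If the valuation of `x` is even, then `x` is a square. -/
lemma exists_sqrt_of_even {π : K} (hπ : w π = WithZero.exp (-1 : ℤ))
    (hsq : ∀ x : K, w x = 1 → ∃ r, r ^ 2 = x) {x : K} (hx : x ≠ 0) (h : Even (lg w x)) :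
    ∃ r, r ^ 2 = x := by
  obtain ⟨n, hn⟩ := h
  have hπ0 : π ≠ 0 := by
    rintro rfl
    rw [map_zero] at hπ
    exact WithZero.exp_ne_zero hπ.symm
  have hlπ : lg w π = -1 := by
    unfold lg
    rw [hπ, WithZero.log_exp]
  have h1 : w (x * (π ^ n) ^ 2) = 1 := by
    apply val_one_of_lg w (mul_ne_zero hx (pow_ne_zero 2 (zpow_ne_zero n hπ0)))
    rw [lg_mul w hx (pow_ne_zero 2 (zpow_ne_zero n hπ0)), lg_pow, lg_zpow w hπ0, hlπ, hn]
    push_cast
    ring
  obtain ⟨r, hr⟩ := hsq _ h1
  refine ⟨r / π ^ n, ?_⟩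
  rw [div_pow, hr]
  field_simp [zpow_ne_zero n hπ0]

/-- Square roots of elements of even valuation are rational. -/
lemma exists_rational_sqrt {π : K} (hπ : w π = WithZero.exp (-1 : ℤ))
    (hsq : ∀ x : K, w x = 1 → ∃ r, r ^ 2 = x) {x : K} (hx : x ≠ 0) (h : Even (lg w x)) {d : Ω}
    (hd : d ^ 2 = algebraMap K Ω x) : ∃ r, algebraMap K Ω r = d := by
  obtain ⟨r, hr⟩ := exists_sqrt_of_even w hπ hsq hx h
  have h1 : (d - algebraMap K Ω r) * (d + algebraMap K Ω r) = 0 := by
    rw [← hr, map_pow] at hd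
    linear_combination hd
  rcases mul_eq_zero.mp h1 with h2 | h2
  · exact ⟨r, (sub_eq_zero.mp h2).symm⟩
  · exact ⟨-r, by rw [map_neg]; linear_combination -h2⟩

variable {w} in
/-- The Galois action on a square root of an element of odd valuation. -/
lemma sqrt_odd {π : K} (hπ : w π = WithZero.exp (-1 : ℤ))
    (hsq : ∀ x : K, w x = 1 → ∃ r, r ^ 2 = x) {S : Ω} (hS : S ^ 2 = algebraMap K Ω π) {x : K}
    (hx : x ≠ 0) (h : Odd (lg w x)) {d : Ω} (hd : d ^ 2 = algebraMap K Ω x) (σ : Ω ≃ₐ[K] Ω) :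
    σ d * S = d * σ S := by
  have hπ0 : π ≠ 0 := by
    rintro rfl
    rw [map_zero] at hπ
    exact WithZero.exp_ne_zero hπ.symm
  have hlπ : lg w π = -1 := by
    unfold lg
    rw [hπ, WithZero.log_exp]
  have hS0 : S ≠ 0 := by
    rintro rfl
    rw [zero_pow two_ne_zero, eq_comm, map_eq_zero] at hS
    exact hπ0 hS
  obtain ⟨r, hr⟩ := exists_rational_sqrt w hπ hsq (x := x * π) (mul_ne_zero hx hπ0) (by
    rw [lg_mul w hx hπ0, hlπ]
    exact h.add_odd (by decide)) (d := d * S) (by rw [mul_pow, hd, hS, map_mul])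
  have h1 : σ d * σ S = d * S := by
    rw [← map_mul, ← hr, σ.commutes]
  have h2 : σ S ^ 2 = S ^ 2 := by rw [← map_pow, hS, σ.commutes]
  have hσS : σ S ≠ 0 := (map_ne_zero σ).mpr hS0
  apply mul_right_cancel₀ hσS
  linear_combination S * h1 - d * h2

/-- A square root of a uniformizer is moved by some element of the Galois group. -/
lemma exists_moves [IsGalois K Ω] {π : K} (hπ : w π = WithZero.exp (-1 : ℤ)) {S : Ω}
    (hS : S ^ 2 = algebraMap K Ω π) : ∃ σ : Ω ≃ₐ[K] Ω, σ S = -S := by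
  by_contra hcon
  push Not at hcon
  have h1 : ∀ σ : Ω ≃ₐ[K] Ω, σ S = S := by
    intro σ
    have h2 : (σ S - S) * (σ S + S) = 0 := by
      have : σ S ^ 2 = S ^ 2 := by rw [← map_pow, hS, σ.commutes]
      linear_combination this
    rcases mul_eq_zero.mp h2 with h | h
    · exact sub_eq_zero.mp h
    · exact absurd (by linear_combination h) (hcon σ)
  obtain ⟨y, hy⟩ := exists_of_fixed (F := K) (x := S) h1
  have h3 : y ^ 2 = π := by
    apply (algebraMap K Ω).injective
    rw [map_pow, hy, hS]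
  have h4 := lg_pow w (x := y) 2
  rw [h3] at h4
  have hlπ : lg w π = -1 := by
    unfold lg
    rw [hπ, WithZero.log_exp]
  rw [hlπ] at h4
  push_cast at h4
  omega

lemma smul_sign [IsGalois K Ω] {π : K} {S : Ω}
    (hS : S ^ 2 = algebraMap K Ω π) (σ : Ω ≃ₐ[K] Ω) : σ S = S ∨ σ S = -S := by
  have h2 : (σ S - S) * (σ S + S) = 0 := by
    have : σ S ^ 2 = S ^ 2 := by rw [← map_pow, hS, σ.commutes]
    linear_combination this
  rcases mul_eq_zero.mp h2 with h | h
  · exact Or.inl (sub_eq_zero.mp h)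
  · exact Or.inr (by linear_combination h)

/-- A sign character which is trivial at an element moving the square root of a uniformizer is
trivial. -/
lemma char_trivial [IsGalois K Ω] (h2 : (2 : Ω) ≠ 0) {π : K} (hπ : w π = WithZero.exp (-1 : ℤ))
    (hsq : ∀ x : K, w x = 1 → ∃ r, r ^ 2 = x) {S : Ω} (hS : S ^ 2 = algebraMap K Ω π)
    {σ₀ : Ω ≃ₐ[K] Ω} (hσ₀ : σ₀ S = -S) (χ : (Ω ≃ₐ[K] Ω) → Ω)
    (hsign : ∀ σ, χ σ = 1 ∨ χ σ = -1) (hmul : ∀ σ τ, χ (σ * τ) = χ σ * χ τ)
    (hloc : IsLocallyConstant χ) (h0 : χ σ₀ = 1) (σ : Ω ≃ₐ[K] Ω) : χ σ = 1 := by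
  obtain ⟨b, hb0, hb⟩ := exists_kummer_gen (0 : Ω) χ (fun σ _ => hsign σ)
    (fun σ τ _ _ => hmul σ τ) hloc
  have hb' : ∀ σ : Ω ≃ₐ[K] Ω, σ b = χ σ * b := fun σ => hb σ (map_zero σ)
  obtain ⟨x, hx⟩ := exists_of_fixed (F := K) (x := b ^ 2) (by
    intro σ
    rw [map_pow, hb']
    rcases hsign σ with h | h <;> rw [h] <;> ring)
  have hx0 : x ≠ 0 := by
    rintro rfl
    rw [map_zero] at hx
    exact hb0 (pow_eq_zero_iff two_ne_zero |>.mp hx.symm)
  have hπ0 : π ≠ 0 := by
    rintro rfl
    rw [map_zero] at hπ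
    exact WithZero.exp_ne_zero hπ.symm
  have hS0 : S ≠ 0 := by
    rintro rfl
    rw [zero_pow two_ne_zero, eq_comm, map_eq_zero] at hS
    exact hπ0 hS
  rcases Int.even_or_odd (lg w x) with he | ho
  · obtain ⟨r, hr⟩ := exists_rational_sqrt w hπ hsq hx0 he (d := b) hx.symm
    have h1 := hb' σ
    rw [← hr, σ.commutes] at h1
    have h3 : algebraMap K Ω r ≠ 0 := by rw [hr]; exact hb0
    exact (mul_right_cancel₀ h3 (by rw [one_mul]; exact h1)).symm
  · exfalso
    have h1 := sqrt_odd hπ hsq hS hx0 ho (d := b) hx.symm σ₀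
    rw [hb', h0, one_mul, hσ₀] at h1
    have h3 : 2 * (b * S) = 0 := by linear_combination h1
    rcases mul_eq_zero.mp h3 with h | h
    · exact h2 h
    · exact mul_ne_zero hb0 hS0 h

end Units

end Pool.Agent.Lib.MP_89bcae_ag

end

section

/-!
# Places of the field generated by the nodes
-/

open Polynomial WithZero IsDedekindDomain

open scoped Classical Pointwise

namespace Pool.Agent.Lib.MP_89bcae_ag

open Superelliptic

variable {F : Type} [Field F] [Algebra ℚ F]

/-- A discrete valuation `ord` of the subfield `K₀` above the prime `p`, with ramification index `e`,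
its ring `O` and the reduction `red`. -/
structure Place (p : ℕ) (K₀ : Subfield F) where
  O : Subring F
  κ : Type
  [field : Field κ]
  red : O →+* κ
  ord : F → ℤ
  e : ℕ
  isVal : IsVal K₀ ord
  mem_O : ∀ x, x ∈ O ↔ x ∈ K₀ ∧ (x = 0 ∨ 0 ≤ ord x)
  red_eq_zero : ∀ (x : F) (hx : x ∈ O), x ≠ 0 → (red ⟨x, hx⟩ = 0 ↔ 0 < ord x)
  e_pos : 0 < e
  rat : ∀ z : ℤ, z ≠ 0 → ord (z : F) = e * padicValInt p z

attribute [instance] Place.field

/-- The valuation of a finite Galois extension of `ℚ` above `p`. -/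
theorem place_aux_h74 (K : Type) [Field K] [Algebra ℚ K] [FiniteDimensional ℚ K] [IsGalois ℚ K]
    {p : ℕ} (hp : p.Prime) :
    ∃ (w : Valuation K (WithZero (Multiplicative ℤ))) (e : ℕ), 0 < e ∧
      (∀ z : ℤ, z ≠ 0 → w (z : K) = exp (-((e * padicValInt p z : ℕ) : ℤ))) ∧
      (2 ≤ e → ∃ σ : K ≃ₐ[ℚ] K, σ ≠ 1 ∧ ∀ y, w y ≤ 1 → w (σ y) ≤ 1 ∧ w (σ y - y) < 1) := by
  obtain ⟨R₀, i1, i2, i3, i4, i5, hR₀⟩ := exists_dvrZ8 hp
  let : Algebra R₀ K := ((algebraMap ℚ K).comp (algebraMap R₀ ℚ)).toAlgebra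
  have : IsScalarTower R₀ ℚ K := IsScalarTower.of_algebraMap_eq fun r => rfl
  let B := integralClosure R₀ K
  have : IsDedekindDomain B := integralClosure.isDedekindDomain R₀ ℚ K
  have : Module.Finite R₀ B := IsIntegralClosure.finite R₀ ℚ K B
  have : IsFractionRing B K := integralClosure.isFractionRing_of_finite_extension ℚ K
  have : SMulCommClass (K ≃ₐ[ℚ] K) R₀ K := ⟨fun σ r x => by
    rw [AlgEquiv.smul_def, AlgEquiv.smul_def, Algebra.smul_def, Algebra.smul_def, map_mul,
      IsScalarTower.algebraMap_apply R₀ ℚ K, AlgEquiv.commutes]⟩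
  have : IsGaloisGroup (K ≃ₐ[ℚ] K) R₀ B := IsGaloisGroup.of_isFractionRing _ _ _ ℚ K
  have hinjK : Function.Injective (algebraMap R₀ K) := by
    rw [IsScalarTower.algebraMap_eq R₀ ℚ K]
    exact (algebraMap ℚ K).injective.comp (IsFractionRing.injective R₀ ℚ)
  have hinjB : Function.Injective (algebraMap B K) := Subtype.val_injective
  have : FaithfulSMul R₀ B := by
    rw [faithfulSMul_iff_algebraMap_injective]
    intro x y hxy
    exact hinjK (congrArg (algebraMap B K) hxy)
  have : Module.IsTorsionFree R₀ B := inferInstance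
  have : Module.Flat R₀ B := inferInstance
  let v : HeightOneSpectrum R₀ := IsDiscreteValuationRing.maximalIdeal R₀
  have hvmax : v.asIdeal.IsMaximal := v.isMaximal
  obtain ⟨P, hPmax, hPv⟩ := Ideal.exists_maximal_ideal_liesOver_of_isIntegral (S := B) v.asIdeal
  have hP0 : P ≠ ⊥ := Ideal.ne_bot_of_liesOver_of_ne_bot v.ne_bot P
  let w : HeightOneSpectrum B := ⟨P, hPmax.isPrime, hP0⟩
  have hwv : w.asIdeal.LiesOver v.asIdeal := hPv
  have hmP : ∀ r : R₀, algebraMap R₀ B r ∈ P ↔ r ∈ IsLocalRing.maximalIdeal R₀ := by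
    intro r
    have h1 : r ∈ Ideal.comap (algebraMap R₀ B) P ↔ r ∈ v.asIdeal := by
      rw [← Ideal.under_def, ← hPv.over]
    exact h1
  set e := v.asIdeal.ramificationIdx' w.asIdeal with hedef
  have hWk : ∀ r : R₀, w.intValuation (algebraMap R₀ B r) = v.intValuation r ^ e := by
    intro r
    have h1 := HeightOneSpectrum.valuation_liesOver K v w (algebraMap R₀ ℚ r)
    rw [← IsScalarTower.algebraMap_apply] at h1
    have h2 : w.intValuation (algebraMap R₀ B r) = w.valuation K (algebraMap R₀ K r) := by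
      rw [← w.valuation_of_algebraMap (K := K)]
      rfl
    rw [h2, ← h1]
    congr 1
    exact HeightOneSpectrum.valuation_of_algebraMap (K := ℚ) v r
  have he1 : 0 < e := by
    rcases Nat.eq_zero_or_pos e with h0 | h0
    · exfalso
      obtain ⟨ϖ, hϖ⟩ := v.intValuation_exists_uniformizer
      have h1 : ϖ ∈ IsLocalRing.maximalIdeal R₀ := by
        have h2 : v.intValuation ϖ ≤ exp (-((1 : ℕ) : ℤ)) := by rw [hϖ]; simp
        have h3 := (v.intValuation_le_pow_iff_mem ϖ 1).mp h2
        rw [pow_one] at h3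
        exact h3
      have h2 : w.intValuation (algebraMap R₀ B ϖ) < 1 :=
        (w.intValuation_lt_one_iff_mem _).mpr ((hmP ϖ).mpr h1)
      rw [hWk, h0, pow_zero] at h2
      exact lt_irrefl _ h2
    · exact h0
  refine ⟨w.valuation K, e, he1, ?_, ?_⟩
  · intro z hz
    have hz0 : (z : R₀) ≠ 0 := by
      intro h0
      have h1 : algebraMap R₀ K (z : R₀) = 0 := by rw [h0, map_zero]
      rw [map_intCast] at h1
      have : CharZero K := charZero_of_injective_algebraMap (algebraMap ℚ K).injective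
      exact hz (by exact_mod_cast h1)
    have h1 : v.intValuation (z : R₀) = exp (-((padicValInt p z : ℕ) : ℤ)) := by
      apply le_antisymm
      · refine (v.intValuation_le_pow_iff_mem (z : R₀) (padicValInt p z)).mpr ?_
        refine (hR₀ z _).mpr ?_
        exact padicValInt_dvd z
      · by_contra hlt
        rw [not_le] at hlt
        have h2 : v.intValuation (z : R₀) ≤ exp (-((padicValInt p z + 1 : ℕ) : ℤ)) := by
          obtain ⟨m, hm⟩ : ∃ m : ℤ, v.intValuation (z : R₀) = exp m := by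
            refine ⟨log (v.intValuation (z : R₀)), (exp_log ?_).symm⟩
            exact v.intValuation_ne_zero _ hz0
          rw [hm] at hlt ⊢
          rw [exp_lt_exp] at hlt
          rw [exp_le_exp]
          push_cast
          omega
        have h3 := (v.intValuation_le_pow_iff_mem (z : R₀) _).mp h2
        have h4 := (hR₀ z _).mp h3
        have := Fact.mk hp
        rw [padicValInt_dvd_iff] at h4
        rcases h4 with h4 | h4
        · exact hz h4
        · omega
    have h2 : (z : K) = algebraMap B K (algebraMap R₀ B (z : R₀)) := by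
      rw [map_intCast, map_intCast]
    rw [h2, HeightOneSpectrum.valuation_of_algebraMap, hWk, h1, ← exp_nsmul]
    congr 1
    push_cast
    rw [nsmul_eq_mul]
    ring
  · intro he2
    let : Field (B ⧸ P) := Ideal.Quotient.field P
    have h1 : e ≤ Nat.card (P.inertia (K ≃ₐ[ℚ] K)) := by
      rw [hedef, Ideal.ramificationIdx'_eq_ramificationIdx v.asIdeal w.asIdeal v.ne_bot]
      exact ramificationIdx_le_card_inertia7 v.asIdeal P
    have h2 : 1 < Nat.card (P.inertia (K ≃ₐ[ℚ] K)) := lt_of_lt_of_le (by omega) h1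
    obtain ⟨σ, hσP, hσ1⟩ : ∃ σ : K ≃ₐ[ℚ] K, σ ∈ P.inertia (K ≃ₐ[ℚ] K) ∧ σ ≠ 1 := by
      by_contra hcon
      push Not at hcon
      have : Subsingleton (P.inertia (K ≃ₐ[ℚ] K)) :=
        ⟨fun σ τ => Subtype.ext ((hcon σ σ.2).trans (hcon τ τ.2).symm)⟩
      have := Finite.card_le_one_iff_subsingleton.mpr this
      omega
    refine ⟨σ, hσ1, fun y hy => ?_⟩
    obtain ⟨b, c, hbc⟩ := w.exists_primeCompl_mul_eq_of_integer y hy
    have hσB : ∀ x : B, σ (algebraMap B K x) = algebraMap B K (σ • x) := fun x => rfl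
    have hin : ∀ x : B, σ • x - x ∈ P := fun x => hσP x
    have hc1 : w.intValuation (c : B) = 1 := by
      rw [w.intValuation_eq_one_iff_mem_primeCompl]
      exact c.2
    have hσc : w.intValuation (σ • (c : B)) = 1 := by
      rw [w.intValuation_eq_one_iff_mem_primeCompl]
      intro h
      apply c.2
      have h3 := P.sub_mem h (hin c)
      rwa [sub_sub_cancel] at h3
    have hσy : σ y * algebraMap B K (σ • (c : B)) = algebraMap B K (σ • b) := by
      rw [← hσB, ← hσB, ← map_mul, hbc]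
    constructor
    · have h3 := congrArg (w.valuation K) hσy
      rw [map_mul, HeightOneSpectrum.valuation_of_algebraMap, hσc, mul_one,
        HeightOneSpectrum.valuation_of_algebraMap] at h3
      rw [h3]
      exact w.intValuation_le_one _
    · have h3 : (σ y - y) * algebraMap B K ((σ • (c : B)) * (c : B)) =
          algebraMap B K ((σ • b - b) * (c : B) - b * (σ • (c : B) - (c : B))) := by
        simp only [map_sub, map_mul]
        linear_combination (algebraMap B K (c : B)) * hσy - (algebraMap B K (σ • (c : B))) * hbc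
      have h4 := congrArg (w.valuation K) h3
      rw [map_mul, HeightOneSpectrum.valuation_of_algebraMap, map_mul, hσc, hc1, mul_one, mul_one,
        HeightOneSpectrum.valuation_of_algebraMap] at h4
      rw [h4, w.intValuation_lt_one_iff_mem]
      exact P.sub_mem (P.mul_mem_right _ (hin b)) (P.mul_mem_left _ (hin c))

section

attribute [-instance] DivisionRing.toRatAlgebra

/-- A field automorphism which fixes a generating set is the identity. -/
lemma fix_adjoin_h74 {S : Set F} (σ : IntermediateField.adjoin ℚ S ≃ₐ[ℚ] IntermediateField.adjoin ℚ S)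
    (h : ∀ (s : F) (hs : s ∈ S), σ ⟨s, IntermediateField.subset_adjoin ℚ S hs⟩ =
      ⟨s, IntermediateField.subset_adjoin ℚ S hs⟩) : σ = 1 := by
  have h1 : (IntermediateField.val (IntermediateField.adjoin ℚ S)).comp (σ : _ →ₐ[ℚ] _) =
      IntermediateField.val (IntermediateField.adjoin ℚ S) := by
    apply IntermediateField.algHom_ext_of_eq_adjoin ℚ rfl
    intro s hs
    exact congrArg Subtype.val (h s hs)
  ext x
  have h3 := DFunLike.congr_fun h1 x
  exact h3

/-- **Existence of a place**, and of a nontrivial element of the inertia group if it is ramified.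
`S` is a finite set of algebraic numbers, stable under the automorphisms of `F`; `K₀ = ℚ(S)` is a
finite Galois extension of `ℚ`. Copy the construction in the proof of `exists_unramified8` (UnrS8.lean)
with `R₀` the discrete valuation ring of `exists_dvrZ8` (fraction field `ℚ`): `B` the integral closure
of `R₀` in `K₀`, `P` a maximal ideal of `B` over that of `R₀`, `w` the `HeightOneSpectrum` of `B` given by
`P`; `κ = B ⧸ P` if one takes for `O` the localisation (the valuation ring `w.valuation K₀ ≤ 1`, whose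
residue field is `κ`; `Subring.map` to `F`); `ord x = - log (w.valuation x)` (`WithZero.log`, or
`WithZero.unzero` and `Multiplicative.toAdd`), `e = v.asIdeal.ramificationIdx' w.asIdeal`. If `e ≥ 2`,
`ramificationIdx_le_card_inertia7` gives an element `σ ≠ 1` of `P.inertia (K₀ ≃ₐ[ℚ] K₀)`; it moves an
element of `S`, as `S` generates `K₀`; extend it to `F` (`AlgEquiv.liftNormal` or
`IsAlgClosure`/`IsAlgClosed.lift`). For `x ∈ O` write `x = b / c` with `b, c ∈ B`, `c ∉ P`; `σ` maps `P` to
`P`, and `σ b - b`, `σ c - c ∈ P`. -/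
theorem exists_place [IsAlgClosure ℚ F] {p : ℕ} (hp : p.Prime) (S : Set F) (hS : S.Finite)
    (hσ : ∀ (σ : F ≃ₐ[ℚ] F), ∀ s ∈ S, σ s ∈ S) :
    ∃ P : Place p (IntermediateField.adjoin ℚ S).toSubfield, 2 ≤ P.e →
      ∃ σ : F ≃ₐ[ℚ] F, (∃ s ∈ S, σ s ≠ s) ∧ ∀ (x : F) (hx : x ∈ P.O),
        ∃ hx' : σ x ∈ P.O, P.red ⟨σ x, hx'⟩ = P.red ⟨x, hx⟩ := by
  have halg : Algebra.IsAlgebraic ℚ F := IsAlgClosure.isAlgebraic
  have hnF : Normal ℚ F := IsAlgClosure.normal ℚ F
  set K : IntermediateField ℚ F := IntermediateField.adjoin ℚ S with hKdef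
  have hSfin : Finite S := hS.to_subtype
  have hfd : FiniteDimensional ℚ K :=
    IntermediateField.finiteDimensional_adjoin fun x _ => (halg.isAlgebraic x).isIntegral
  have hnK : Normal ℚ K := by
    rw [IntermediateField.normal_iff_forall_map_le']
    intro σ
    rw [hKdef, IntermediateField.adjoin_map, IntermediateField.adjoin_le_iff]
    rintro _ ⟨s, hs, rfl⟩
    exact IntermediateField.subset_adjoin ℚ S (hσ σ s hs)
  have hgal : IsGalois ℚ K := ⟨⟩
  obtain ⟨w, e, he, hrat, hin⟩ := place_aux_h74 K hp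
  let V : ValuationSubring K := w.valuationSubring
  have hinj : Function.Injective (algebraMap K F) := (algebraMap K F).injective
  let O : Subring F := V.toSubring.map (algebraMap K F)
  let ε : V.toSubring ≃+* O := V.toSubring.equivMapOfInjective (algebraMap K F) hinj
  let red : O →+* IsLocalRing.ResidueField V := (IsLocalRing.residue V).comp ε.symm.toRingHom
  let ord : F → ℤ := fun x => if h : x ∈ K then -(log (w ⟨x, h⟩)) else 0
  have hord : ∀ y : K, ord (y : F) = -(log (w y)) := fun y => dif_pos y.2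
  have hred : ∀ (y : K) (hy : y ∈ V) (hO : (y : F) ∈ O), red ⟨y, hO⟩ = IsLocalRing.residue V ⟨y, hy⟩ := by
    intro y hy hO
    have h1 : ε.symm ⟨(y : F), hO⟩ = ⟨y, hy⟩ := by
      rw [RingEquiv.symm_apply_eq]
      rfl
    show IsLocalRing.residue V (ε.symm ⟨(y : F), hO⟩) = _
    rw [h1]
  have hOmem : ∀ x : F, x ∈ O ↔ ∃ y : K, w y ≤ 1 ∧ (y : F) = x := fun x => Iff.rfl
  have hle : ∀ y : K, y ≠ 0 → (w y ≤ 1 ↔ 0 ≤ -(log (w y))) := by
    intro y hy
    have h1 : w y ≠ 0 := (Valuation.ne_zero_iff w).mpr hy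
    have h2 : (0 : ℤ) ≤ -(log (w y)) ↔ log (w y) ≤ 0 := by omega
    rw [h2, log_le_iff_le_exp h1, exp_zero]
  have hlt : ∀ y : K, y ≠ 0 → (w y < 1 ↔ 0 < -(log (w y))) := by
    intro y hy
    have h1 : w y ≠ 0 := (Valuation.ne_zero_iff w).mpr hy
    have h2 : (0 : ℤ) < -(log (w y)) ↔ log (w y) < 0 := by omega
    rw [h2, log_lt_iff_lt_exp h1, exp_zero]
  have hres : ∀ (y : K) (hy : y ∈ V), IsLocalRing.residue V ⟨y, hy⟩ = 0 ↔ w y < 1 := by
    intro y hy
    rw [IsLocalRing.residue_eq_zero_iff]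
    exact Valuation.mem_maximalIdeal_iff _ _
  let P : Place p K.toSubfield :=
    { O := O
      κ := IsLocalRing.ResidueField V
      red := red
      ord := ord
      e := e
      isVal := by
        refine ⟨?_, ?_⟩
        · intro x hx y hy hx0 hy0
          have h1 := hord ⟨x, hx⟩
          have h2 := hord ⟨y, hy⟩
          have h3 := hord (⟨x, hx⟩ * ⟨y, hy⟩)
          have h4 : w (⟨x, hx⟩ : K) ≠ 0 := (Valuation.ne_zero_iff w).mpr fun h => hx0 (congrArg Subtype.val h)
          have h5 : w (⟨y, hy⟩ : K) ≠ 0 := (Valuation.ne_zero_iff w).mpr fun h => hy0 (congrArg Subtype.val h)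
          rw [map_mul, log_mul h4 h5] at h3
          change ord (x * y) = ord x + ord y
          change ord x = _ at h1
          change ord y = _ at h2
          change ord (x * y) = _ at h3
          rw [h3, h1, h2]
          ring
        · have h1 := hord (-1)
          rw [Valuation.map_neg, map_one, log_one, neg_zero] at h1
          simpa using h1
      mem_O := by
        intro x
        rw [hOmem]
        constructor
        · rintro ⟨y, hy, rfl⟩
          refine ⟨y.2, ?_⟩
          by_cases h0 : y = 0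
          · left
            rw [h0]
            rfl
          · right
            rw [hord]
            exact (hle y h0).mp hy
        · rintro ⟨hx, h1⟩
          refine ⟨⟨x, hx⟩, ?_, rfl⟩
          rcases h1 with h1 | h1
          · have h2 : (⟨x, hx⟩ : K) = 0 := Subtype.ext h1
            rw [h2, map_zero]
            exact zero_le
          · by_cases h0 : (⟨x, hx⟩ : K) = 0
            · rw [h0, map_zero]
              exact zero_le
            · have h2 := hord ⟨x, hx⟩
              change ord x = _ at h2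
              rw [h2] at h1
              exact (hle _ h0).mpr h1
      red_eq_zero := by
        intro x hx hx0
        obtain ⟨y, hy, rfl⟩ := (hOmem x).mp hx
        have h0 : y ≠ 0 := fun h => hx0 (by rw [h]; rfl)
        rw [hred y hy hx, hord]
        exact (hres y hy).trans (hlt y h0)
      e_pos := he
      rat := by
        intro z hz
        have h1 := hord (z : K)
        rw [hrat z hz, log_exp, neg_neg] at h1
        have h2 : ((z : K) : F) = (z : F) := by push_cast; rfl
        rw [h2] at h1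
        rw [h1]
        push_cast
        ring }
  refine ⟨P, fun h2e => ?_⟩
  obtain ⟨σ, hσ1, hσ2⟩ := hin h2e
  have hcomm : ∀ y : K, (σ.liftNormal F) (y : F) = (σ y : F) := fun y => σ.liftNormal_commutes F y
  refine ⟨σ.liftNormal F, ?_, ?_⟩
  · by_contra hcon
    push Not at hcon
    apply hσ1
    apply fix_adjoin_h74
    intro s hs
    apply Subtype.ext
    have h1 := hcomm ⟨s, IntermediateField.subset_adjoin ℚ S hs⟩
    rw [← h1]
    exact hcon s hs
  · intro x hx
    obtain ⟨y, hy, rfl⟩ := (hOmem x).mp hx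
    obtain ⟨h1, h2⟩ := hσ2 y hy
    have hmem : (σ.liftNormal F) (y : F) ∈ O := by
      rw [hcomm]
      exact (hOmem _).mpr ⟨σ y, h1, rfl⟩
    refine ⟨hmem, ?_⟩
    have hmem' : ((σ y : K) : F) ∈ O := (hOmem _).mpr ⟨σ y, h1, rfl⟩
    have h3 : (⟨(σ.liftNormal F) (y : F), hmem⟩ : O) = ⟨((σ y : K) : F), hmem'⟩ := Subtype.ext (hcomm y)
    show red ⟨(σ.liftNormal F) (y : F), hmem⟩ = red ⟨(y : F), hx⟩
    rw [h3, hred (σ y) h1 hmem', hred y hy hx, ← sub_eq_zero, ← map_sub]
    have h4 : (⟨σ y, h1⟩ - ⟨y, hy⟩ : V) = ⟨σ y - y, h2.le⟩ := rfl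
    rw [h4]
    exact (hres _ _).mpr h2

end

section

variable {p : ℕ} {K₀ : Subfield F} (P : Place p K₀)

/-- The reduction of an integer. -/
theorem Place.charP (hp : p.Prime) : CharP P.κ p := by
  haveI : CharZero F := algebraRat.charZero F
  haveI : Fact p.Prime := ⟨hp⟩
  refine ⟨fun n => ?_⟩
  by_cases hn : n = 0
  · simp [hn]
  have hnZ : (n : ℤ) ≠ 0 := by exact_mod_cast hn
  have hnF : ((n : ℤ) : F) ≠ 0 := by exact_mod_cast hn
  have h1 : P.red ⟨((n : ℤ) : F), intCast_mem P.O (n : ℤ)⟩ = (n : P.κ) := by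
    have h2 : (⟨((n : ℤ) : F), intCast_mem P.O (n : ℤ)⟩ : P.O) = (n : P.O) :=
      Subtype.ext (by push_cast; rfl)
    rw [h2, map_natCast]
  rw [← h1, P.red_eq_zero _ _ hnF, P.rat _ hnZ, padicValInt.of_nat,
    dvd_iff_padicValNat_ne_zero hn]
  have he : (0 : ℤ) < P.e := by exact_mod_cast P.e_pos
  constructor
  · intro h h0
    rw [h0] at h
    simp at h
  · intro h
    have h3 : (0 : ℤ) < (padicValNat p n : ℤ) := by
      exact_mod_cast Nat.pos_of_ne_zero h
    exact mul_pos he h3

theorem Place.int_mem (z : ℤ) : (z : F) ∈ P.O := by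
  exact intCast_mem P.O z

/-- The reduction `ℤ[X] → κ[X]` factors through `(ZMod p)[X]`. -/
noncomputable def Place.redp (hp : p.Prime) : ZMod p →+* P.κ :=
  haveI := P.charP hp
  ZMod.castHom (dvd_refl p) P.κ

/-- Auxiliary form of the reduction of a value (h64). -/
theorem Place.red_aeval_h64 (hp : p.Prime) (f : ℤ[X]) {s : F} (hs : s ∈ P.O) :
    ∃ h : aeval s f ∈ P.O, P.red ⟨aeval s f, h⟩ =
      ((f.map (Int.castRingHom (ZMod p))).map (P.redp hp)).eval (P.red ⟨s, hs⟩) := by
  have h1 : aeval s f = P.O.subtype (eval₂ (Int.castRingHom P.O) ⟨s, hs⟩ f) := by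
    rw [hom_eval₂, aeval_def]
    have h0 : algebraMap ℤ F = P.O.subtype.comp (Int.castRingHom P.O) := RingHom.ext_int _ _
    rw [h0]
    rfl
  have hm : aeval s f ∈ P.O := by
    rw [h1]
    exact Subtype.prop _
  refine ⟨hm, ?_⟩
  have h2 : (⟨aeval s f, hm⟩ : P.O) = eval₂ (Int.castRingHom P.O) ⟨s, hs⟩ f := Subtype.ext h1
  have h3 : P.red.comp (Int.castRingHom P.O) =
      (P.redp hp).comp (Int.castRingHom (ZMod p)) := RingHom.ext_int _ _
  rw [h2, hom_eval₂, Polynomial.map_map, eval_map, h3]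

theorem Place.inv_h64 {s : F} (hs : s ∈ K₀) (hO : s ∉ P.O) :
    s ≠ 0 ∧ ∃ h : s⁻¹ ∈ P.O, P.red ⟨s⁻¹, h⟩ = 0 := by
  have hs0 : s ≠ 0 := by
    intro h
    exact hO (by rw [h]; exact zero_mem P.O)
  have hneg : P.ord s < 0 := by
    by_contra h
    exact hO ((P.mem_O s).2 ⟨hs, Or.inr (by omega)⟩)
  have hi : s⁻¹ ∈ K₀ := inv_mem hs
  have hi0 : s⁻¹ ≠ 0 := inv_ne_zero hs0
  have h1 : P.ord (s * s⁻¹) = P.ord s + P.ord s⁻¹ := P.isVal.mul s hs _ hi hs0 hi0
  have h2 : P.ord (1 : F) = 0 := by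
    have := P.isVal.mul 1 (one_mem _) 1 (one_mem _) one_ne_zero one_ne_zero
    rw [mul_one] at this
    omega
  rw [mul_inv_cancel₀ hs0, h2] at h1
  have h3 : 0 < P.ord s⁻¹ := by omega
  have hm : s⁻¹ ∈ P.O := (P.mem_O _).2 ⟨hi, Or.inr h3.le⟩
  exact ⟨hs0, hm, (P.red_eq_zero _ hm hi0).2 h3⟩

/-- A root in `K₀` of a polynomial with leading coefficient prime to `p` is in `O` (if `ord s < 0`,
then the term of highest degree has a strictly smaller value than the other ones; or: `O` is
integrally closed in `K₀` since `x ∉ O` implies `x⁻¹ ∈ O` and `red x⁻¹ = 0`). -/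
theorem Place.root_mem (hp : p.Prime) {f : ℤ[X]} (hf : ¬ (p : ℤ) ∣ f.leadingCoeff) {s : F}
    (hs : s ∈ K₀) (h0 : aeval s f = 0) : s ∈ P.O := by
  by_contra hO
  obtain ⟨hs0, hm, hr⟩ := P.inv_h64 hs hO
  letI : Invertible s := invertibleOfNonzero hs0
  have h1 : aeval s⁻¹ (reverse f) = 0 := by
    have h2 := (eval₂_reverse_eq_zero_iff (algebraMap ℤ F) s f).2 h0
    rw [invOf_eq_inv] at h2
    exact h2
  obtain ⟨h, h3⟩ := P.red_aeval_h64 hp (reverse f) hm
  have h4 : P.red ⟨aeval s⁻¹ (reverse f), h⟩ = 0 := by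
    have h5 : (⟨aeval s⁻¹ (reverse f), h⟩ : P.O) = 0 := Subtype.ext h1
    rw [h5, map_zero]
  rw [h4, hr, Polynomial.map_map, ← coeff_zero_eq_eval_zero, coeff_map, coeff_zero_reverse] at h3
  haveI := P.charP hp
  have h6 : ((P.redp hp).comp (Int.castRingHom (ZMod p))) = Int.castRingHom P.κ :=
    RingHom.ext_int _ _
  rw [h6] at h3
  exact hf ((CharP.intCast_eq_zero_iff P.κ p f.leadingCoeff).1 h3.symm)

/-- The reduction of the value of a polynomial. -/
theorem Place.red_aeval (hp : p.Prime) (f : ℤ[X]) {s : F} (hs : s ∈ P.O) :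
    ∃ h : aeval s f ∈ P.O, P.red ⟨aeval s f, h⟩ =
      ((f.map (Int.castRingHom (ZMod p))).map (P.redp hp)).eval (P.red ⟨s, hs⟩) := by
  exact P.red_aeval_h64 hp f hs

theorem inj_red_h57 {O κ : Type*} [CommRing O] [IsDomain O] [Field κ] (q : O →+* κ) {G : O[X]}
    (hs : (G.map q).Separable) {x y : O} (hx : G.eval x = 0) (hy : G.eval y = 0)
    (hxy : q x = q y) : x = y := by
  by_contra hne
  obtain ⟨H, hH⟩ := dvd_iff_isRoot.mpr hx
  rw [hH, eval_mul, eval_sub, eval_X, eval_C] at hy
  have h1 : H.IsRoot y := (mul_eq_zero.mp hy).resolve_left fun h => hne (sub_eq_zero.mp h).symm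
  obtain ⟨H', hH'⟩ := dvd_iff_isRoot.mpr h1
  have h2 : G.map q = (X - C (q x)) * ((X - C (q x)) * H'.map q) := by
    conv_lhs => rw [hH, hH']
    rw [Polynomial.map_mul, Polynomial.map_mul, Polynomial.map_sub, Polynomial.map_sub, map_X,
      map_C, map_C, hxy]
  rw [h2] at hs
  have h3 : (X - C (q x)) * (X - C (q x)) ∣ (X - C (q x)) * ((X - C (q x)) * H'.map q) := by
    rw [← mul_assoc]
    exact Dvd.intro _ rfl
  exact not_isUnit_X_sub_C _ (hs.squarefree _ h3)

theorem eval_sub_h57 (f : ℤ[X]) {s : F} (hs : s ∈ P.O) :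
    (((f.map (Int.castRingHom P.O)).eval ⟨s, hs⟩ : P.O) : F) = aeval s f := by
  rw [aeval_def, eval_map]
  have h1 := hom_eval₂ f (Int.castRingHom P.O) P.O.subtype ⟨s, hs⟩
  have h2 : P.O.subtype.comp (Int.castRingHom P.O) = algebraMap ℤ F := RingHom.ext_int _ _
  rw [h2] at h1
  exact h1

theorem ord_one_h57 : P.ord 1 = 0 := by
  have h := P.isVal.mul 1 (one_mem _) 1 (one_mem _) one_ne_zero one_ne_zero
  rw [mul_one] at h
  omega

theorem ord_prod_h57 (R : Finset F) (g : F → F) (hK : ∀ s ∈ R, g s ∈ K₀) (h0 : ∀ s ∈ R, g s ≠ 0) :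
    P.ord (∏ s ∈ R, g s) = ∑ s ∈ R, P.ord (g s) := by
  induction R using Finset.induction_on with
  | empty => simpa using ord_one_h57 P
  | insert a R ha ih =>
    rw [Finset.prod_insert ha, Finset.sum_insert ha, P.isVal.mul, ih]
    · exact fun s hs => hK s (Finset.mem_insert_of_mem hs)
    · exact fun s hs => h0 s (Finset.mem_insert_of_mem hs)
    · exact hK a (Finset.mem_insert_self _ _)
    · exact prod_mem fun s hs => hK s (Finset.mem_insert_of_mem hs)
    · exact h0 a (Finset.mem_insert_self _ _)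
    · exact Finset.prod_ne_zero_iff.2 fun s hs => h0 s (Finset.mem_insert_of_mem hs)

theorem ord_lc_mul_h57 {c : ℤ} (hc : ¬ (p : ℤ) ∣ c) (R : Finset F) (g : F → F)
    (hK : ∀ s ∈ R, g s ∈ K₀) (h0 : ∀ s ∈ R, g s ≠ 0) :
    P.ord ((c : F) * ∏ s ∈ R, g s) = ∑ s ∈ R, P.ord (g s) := by
  have hc0 : c ≠ 0 := by
    rintro rfl
    exact hc (dvd_zero _)
  haveI : CharZero F := algebraRat.charZero F
  have hcF : (c : F) ≠ 0 := Int.cast_ne_zero.2 hc0
  rw [P.isVal.mul _ (intCast_mem K₀ c) _ (prod_mem hK) hcF (Finset.prod_ne_zero_iff.2 h0),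
    ord_prod_h57 P R g hK h0, P.rat c hc0, padicValInt.eq_zero_of_not_dvd hc]
  simp

/-- Distinct roots of a polynomial with separable reduction have distinct reductions (`inj_red8` in
CycS8.lean, with `O := P.O`). -/
theorem Place.red_ne_of_separable (hp : p.Prime) {f : ℤ[X]}
    (hsep : (f.map (Int.castRingHom (ZMod p))).Separable) {s s' : F} (hs : s ∈ P.O) (hs' : s' ∈ P.O)
    (h0 : aeval s f = 0) (h0' : aeval s' f = 0) (hne : s ≠ s') :
    P.red ⟨s, hs⟩ ≠ P.red ⟨s', hs'⟩ := by
  intro h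
  have e : (f.map (Int.castRingHom P.O)).map P.red =
      (f.map (Int.castRingHom (ZMod p))).map (P.redp hp) := by
    rw [Polynomial.map_map, Polynomial.map_map]
    congr 1
    exact RingHom.ext_int _ _
  have hs1 : ((f.map (Int.castRingHom P.O)).map P.red).Separable := by
    rw [e]
    exact hsep.map
  have h1 : (f.map (Int.castRingHom P.O)).eval ⟨s, hs⟩ = 0 := by
    apply Subtype.ext
    rw [eval_sub_h57 P f hs, h0]
    rfl
  have h2 : (f.map (Int.castRingHom P.O)).eval ⟨s', hs'⟩ = 0 := by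
    apply Subtype.ext
    rw [eval_sub_h57 P f hs', h0']
    rfl
  exact hne (congrArg Subtype.val (inj_red_h57 P.red hs1 h1 h2 h))

/-- Roots of polynomials with coprime reductions have distinct reductions. -/
theorem Place.red_ne_of_isCoprime (hp : p.Prime) {f g : ℤ[X]}
    (hco : IsCoprime (f.map (Int.castRingHom (ZMod p))) (g.map (Int.castRingHom (ZMod p))))
    {s s' : F} (hs : s ∈ P.O) (hs' : s' ∈ P.O) (h0 : aeval s f = 0) (h0' : aeval s' g = 0) :
    P.red ⟨s, hs⟩ ≠ P.red ⟨s', hs'⟩ := by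
  intro h
  obtain ⟨m1, e1⟩ := P.red_aeval hp f hs
  obtain ⟨m2, e2⟩ := P.red_aeval hp g hs'
  have z1 : P.red ⟨aeval s f, m1⟩ = 0 := by
    have : (⟨aeval s f, m1⟩ : P.O) = 0 := Subtype.ext h0
    rw [this, map_zero]
  have z2 : P.red ⟨aeval s' g, m2⟩ = 0 := by
    have : (⟨aeval s' g, m2⟩ : P.O) = 0 := Subtype.ext h0'
    rw [this, map_zero]
  rw [z1] at e1
  rw [z2, ← h] at e2
  have hco2 := hco.map (mapRingHom (P.redp hp))
  obtain ⟨u, v, huv⟩ := hco2
  have h3 := congrArg (eval (P.red ⟨s, hs⟩)) huv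
  rw [eval_add, eval_mul, eval_mul, eval_one, coe_mapRingHom, ← e1, ← e2] at h3
  simp at h3

/-- `ord (x - y) = 0` if the reductions are different. -/
theorem Place.ord_sub_eq_zero {x y : F} (hx : x ∈ P.O) (hy : y ∈ P.O)
    (hne : P.red ⟨x, hx⟩ ≠ P.red ⟨y, hy⟩) : P.ord (x - y) = 0 := by
  have hm : x - y ∈ P.O := sub_mem hx hy
  have hr : P.red ⟨x - y, hm⟩ = P.red ⟨x, hx⟩ - P.red ⟨y, hy⟩ := by
    rw [← map_sub]
    rfl
  have h0 : x - y ≠ 0 := by
    intro h
    apply hne
    have hxy : x = y := sub_eq_zero.1 h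
    subst hxy
    rfl
  have h1 : ¬ 0 < P.ord (x - y) := by
    rw [← P.red_eq_zero _ hm h0, hr]
    exact sub_ne_zero.2 hne
  have h2 := ((P.mem_O _).1 hm).2
  rcases h2 with h2 | h2
  · exact absurd h2 h0
  · omega

/-- `ord (x - y) > 0` if the reductions are equal. -/
theorem Place.ord_sub_pos {x y : F} (hx : x ∈ P.O) (hy : y ∈ P.O) (hxy : x ≠ y)
    (h : P.red ⟨x, hx⟩ = P.red ⟨y, hy⟩) : 0 < P.ord (x - y) := by
  have hm : x - y ∈ P.O := sub_mem hx hy
  have hr : P.red ⟨x - y, hm⟩ = P.red ⟨x, hx⟩ - P.red ⟨y, hy⟩ := by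
    rw [← map_sub]
    rfl
  rw [← P.red_eq_zero _ hm (sub_ne_zero.2 hxy), hr, h, sub_self]

/-- If `ord x ≥ a` and `ord y > a`... : the value of a sum of two elements of different values. -/
theorem Place.ord_add {x y : F} (hx : x ∈ K₀) (hy : y ∈ K₀) (hx0 : x ≠ 0) (hy0 : y ≠ 0)
    (h : P.ord x < P.ord y) : x + y ≠ 0 ∧ P.ord (x + y) = P.ord x := by
  have hu : y * x⁻¹ ∈ K₀ := mul_mem hy (inv_mem hx)
  have hu0 : y * x⁻¹ ≠ 0 := mul_ne_zero hy0 (inv_ne_zero hx0)
  have h1 : P.ord (y * x⁻¹ * x) = P.ord (y * x⁻¹) + P.ord x := P.isVal.mul _ hu x hx hu0 hx0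
  have h2 : y * x⁻¹ * x = y := by
    rw [mul_assoc, inv_mul_cancel₀ hx0, mul_one]
  rw [h2] at h1
  have h3 : 0 < P.ord (y * x⁻¹) := by omega
  have hm : y * x⁻¹ ∈ P.O := (P.mem_O _).2 ⟨hu, Or.inr h3.le⟩
  have hr : P.red ⟨y * x⁻¹, hm⟩ = 0 := (P.red_eq_zero _ hm hu0).2 h3
  have hm1 : 1 + y * x⁻¹ ∈ P.O := add_mem (one_mem _) hm
  have hr1 : P.red ⟨1 + y * x⁻¹, hm1⟩ = 1 := by
    have h4 : (⟨1 + y * x⁻¹, hm1⟩ : P.O) = 1 + ⟨y * x⁻¹, hm⟩ := rfl
    rw [h4, map_add, map_one, hr, add_zero]
  have h10 : 1 + y * x⁻¹ ≠ 0 := by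
    intro h5
    have h6 : (⟨1 + y * x⁻¹, hm1⟩ : P.O) = 0 := Subtype.ext h5
    rw [h6, map_zero] at hr1
    exact zero_ne_one hr1
  have h7 : P.ord (1 + y * x⁻¹) = 0 := by
    have h8 : ¬ 0 < P.ord (1 + y * x⁻¹) := by
      rw [← P.red_eq_zero _ hm1 h10, hr1]
      exact one_ne_zero
    rcases ((P.mem_O _).1 hm1).2 with h9 | h9
    · exact absurd h9 h10
    · omega
  have h11 : x + y = (1 + y * x⁻¹) * x := by
    rw [add_mul, one_mul, h2]
  have h12 : 1 + y * x⁻¹ ∈ K₀ := ((P.mem_O _).1 hm1).1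
  rw [h11]
  refine ⟨mul_ne_zero h10 hx0, ?_⟩
  rw [P.isVal.mul _ h12 x hx h10 hx0, h7, zero_add]

/-- The value of `f` at `x ∈ K₀`, `f = lc ∏ (X - s)` with all its roots in `K₀` and simple. -/
theorem Place.ord_aeval (hp : p.Prime) {f : ℤ[X]} (hf : ¬ (p : ℤ) ∣ f.leadingCoeff)
    (R : Finset F) (hR : ∀ s ∈ R, s ∈ K₀)
    (hfR : f.map (algebraMap ℤ F) = C (algebraMap ℤ F f.leadingCoeff) * ∏ s ∈ R, (X - C s))
    {x : F} (hx : x ∈ K₀) (hxR : x ∉ R) :
    P.ord (aeval x f) = ∑ s ∈ R, P.ord (x - s) := by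
  have h1 : aeval x f = (f.leadingCoeff : F) * ∏ s ∈ R, (x - s) := by
    rw [aeval_def, ← eval_map, hfR, eval_mul, eval_C, eval_prod]
    simp
  rw [h1]
  refine ord_lc_mul_h57 P hf R (fun s => x - s) (fun s hs => sub_mem hx (hR s hs)) fun s hs h => ?_
  exact hxR ((sub_eq_zero.1 h) ▸ hs)

/-- The value of the derivative at a root. -/
theorem Place.ord_derivative (hp : p.Prime) {f : ℤ[X]} (hf : ¬ (p : ℤ) ∣ f.leadingCoeff)
    (R : Finset F) (hR : ∀ s ∈ R, s ∈ K₀)
    (hfR : f.map (algebraMap ℤ F) = C (algebraMap ℤ F f.leadingCoeff) * ∏ s ∈ R, (X - C s))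
    {x : F} (hxR : x ∈ R) :
    P.ord (aeval x (derivative f)) = ∑ s ∈ R.erase x, P.ord (x - s) := by
  have h1 : aeval x (derivative f) = (f.leadingCoeff : F) * ∏ s ∈ R.erase x, (x - s) := by
    rw [aeval_def, ← eval_map, ← derivative_map, hfR, ← Finset.mul_prod_erase R _ hxR,
      derivative_mul, derivative_mul, derivative_C, derivative_sub, derivative_X, derivative_C]
    simp only [eval_add, eval_mul, eval_sub, eval_zero, eval_C, eval_X, eval_one, eval_prod]
    simp
  rw [h1]
  refine ord_lc_mul_h57 P hf (R.erase x) (fun s => x - s)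
    (fun s hs => sub_mem (hR x hxR) (hR s (Finset.mem_of_mem_erase hs))) fun s hs h => ?_
  exact (Finset.ne_of_mem_erase hs) (sub_eq_zero.1 h).symm

end

end Pool.Agent.Lib.MP_89bcae_ag

end

section

/-!
# The local Galois action on points of order four at a place where `D` vanishes
-/

open Polynomial WeierstrassCurve WeierstrassCurve.Affine

open scoped Classical

namespace Pool.Agent.Lib.MP_89bcae_ag

set_option linter.unusedSectionVars false

section RhoDouble

variable {K : Type*} [Field K] {W : WeierstrassCurve.Affine K}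

/-- `ρ_e(Q)² = x(2Q) - e`. -/
lemma rho_sq_double (hW : Short W) (h2 : (2 : K) ≠ 0) {e : K} (he : Rt W e) {Q : W.Point}
    {X Y : K} {h : W.Nonsingular X Y} (hQ : 2 • Q = .some X Y h) : rho e Q ^ 2 = X - e := by
  rcases Q with _ | ⟨x, y, hxy⟩
  · exfalso
    rw [← Affine.Point.zero_def, smul_zero] at hQ
    exact Affine.Point.some_ne_zero _ hQ.symm
  have hy : y ≠ 0 := by
    intro hy0
    rw [two_nsmul, (add_self_eq_zero_iff hW h2 hxy).mpr hy0] at hQ
    exact Affine.Point.some_ne_zero _ hQ.symm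
  rw [rho_sq hW h2 he hxy hy]
  have hne : y ≠ W.negY x y := by
    rw [hW.negY]
    intro h1
    have : 2 * y = 0 := by linear_combination h1
    rcases mul_eq_zero.mp this with h3 | h3
    · exact h2 h3
    · exact hy h3
  rw [two_nsmul, Affine.Point.add_self_of_Y_ne hne] at hQ
  simp only [Affine.Point.some.injEq] at hQ
  rw [hQ.1]

end RhoDouble

section Local

variable {R F L Ω : Type*} [CommRing R] [Field F] [IsAlgClosed F] [Field L] [Field Ω]
  [Algebra F[X] L] [IsFractionRing F[X] L] [Algebra L Ω] [Algebra F[X] Ω] [IsScalarTower F[X] L Ω]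
  [Algebra R L] [Algebra R Ω] [IsScalarTower R L Ω] {W : Affine R} {g D : F[X]}
  [IsGalois L Ω] [IsSepClosed Ω]
  {K : Type*} [Field K] [Algebra L K] [Algebra K Ω] [IsScalarTower L K Ω] [Algebra F[X] K]
  [IsScalarTower F[X] L K] [IsScalarTower F[X] K Ω] [IsGalois K Ω]

/-- The local situation: `K` is a field between `L` and `Ω` with a discrete valuation `w` such that
units are squares, `π` is a uniformizer with square root `S`, the roots of `g(x) = t` are in `K`,
their differences are units and `D` has odd valuation. -/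
structure IsLoc (w : Valuation K (WithZero (Multiplicative ℤ))) (g D : F[X]) (π : K) (S : Ω) :
    Prop where
  two : (2 : Ω) ≠ 0
  unif : w π = WithZero.exp (-1 : ℤ)
  sqrt : ∀ x : K, w x = 1 → ∃ r, r ^ 2 = x
  root : ∀ θ ∈ RootSet (Ω := Ω) g, ∃ x : K, algebraMap K Ω x = θ
  diff : ∀ x y : K, algebraMap K Ω x ∈ RootSet (Ω := Ω) g → algebraMap K Ω y ∈ RootSet (Ω := Ω) g →
    x ≠ y → w (x - y) = 1
  odd : Odd (lg w (algebraMap F[X] K D))
  ne : D ≠ 0
  S_sq : S ^ 2 = algebraMap K Ω π

variable {w : Valuation K (WithZero (Multiplicative ℤ))} {π : K} {S : Ω}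

lemma IsLoc.pi_ne (hL : IsLoc w g D π S) : π ≠ 0 := by
  rintro rfl
  have := hL.unif
  rw [map_zero] at this
  exact WithZero.exp_ne_zero this.symm

lemma IsLoc.S_ne (hL : IsLoc w g D π S) : S ≠ 0 := by
  intro h0
  have := hL.S_sq
  rw [h0, zero_pow two_ne_zero, eq_comm, map_eq_zero] at this
  exact hL.pi_ne this

lemma IsLoc.fix_root (hL : IsLoc w g D π S) {θ : Ω} (hθ : θ ∈ RootSet (Ω := Ω) g)
    (σ : Ω ≃ₐ[K] Ω) : σ θ = θ := by
  obtain ⟨x, rfl⟩ := hL.root θ hθ
  exact σ.commutes x

/-- The Galois group acts trivially on points of order two. -/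
lemma IsLoc.map_two (hL : IsLoc w g D π S) (hW : IsTwist Ω W g D) (hg : g.Monic)
    (hdeg : g.natDegree = 3) (hd : derivative g ≠ 0) {P : (W.baseChange Ω).Point} (hP : 2 • P = 0)
    (σ : Ω ≃ₐ[K] Ω) :
    Point.map (W' := W) ((σ.restrictScalars L : Ω ≃ₐ[L] Ω) : Ω →ₐ[L] Ω) P = P := by
  apply eq_of_signs L hL.two hW hg hdeg hd hL.ne (by rw [← map_nsmul, hP, map_zero]) hP
  intro θ hθ
  have h1 := rho_map_two_torsion hL.two hW (σ.restrictScalars L : Ω ≃ₐ[L] Ω) θ hP
  have h3 : (σ.restrictScalars L : Ω ≃ₐ[L] Ω) θ = θ := hL.fix_root hθ σ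
  rwa [h3] at h1

variable (L) in
include L in
/-- The classification of nonzero points of order two. -/
lemma exists_root_of_two (h2 : (2 : Ω) ≠ 0) (hW : IsTwist Ω W g D) (hg : g.Monic)
    (hdeg : g.natDegree = 3) (hd : derivative g ≠ 0) (hD : D ≠ 0) {P : (W.baseChange Ω).Point}
    (hP : 2 • P = 0) (h0 : P ≠ 0) :
    ∃ θ ∈ RootSet (Ω := Ω) g, ∃ h, P = .some (algebraMap F[X] Ω D * θ) 0 h := by
  obtain ⟨θ₁, θ₂, θ₃, h12, h13, h23, hR, -, -⟩ :=
    exists_three_roots (F := F) L (Ω := Ω) hg hdeg hd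
  have hd0 : algebraMap F[X] Ω D ≠ 0 := algebraMap_ne_zero_Om L hD
  rcases (two_torsion_iff hW.short h2 P).mp hP with h | ⟨e, h, he, rfl⟩
  · exact absurd h h0
  · have m1 : θ₁ ∈ RootSet (Ω := Ω) g := (hR _).mpr (Or.inl rfl)
    have m2 : θ₂ ∈ RootSet (Ω := Ω) g := (hR _).mpr (Or.inr (Or.inl rfl))
    have m3 : θ₃ ∈ RootSet (Ω := Ω) g := (hR _).mpr (Or.inr (Or.inr rfl))
    rcases Rt.mem_of_three (hW.rt hg hdeg m1) (hW.rt hg hdeg m2) (hW.rt hg hdeg m3)
      (fun h => h12 (mul_left_cancel₀ hd0 h)) (fun h => h13 (mul_left_cancel₀ hd0 h))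
      (fun h => h23 (mul_left_cancel₀ hd0 h)) he with rfl | rfl | rfl
    · exact ⟨θ₁, m1, h, rfl⟩
    · exact ⟨θ₂, m2, h, rfl⟩
    · exact ⟨θ₃, m3, h, rfl⟩

/-- The square of `ρ` at a half of a point of order two. -/
lemma IsLoc.rho_half (hL : IsLoc w g D π S) (hW : IsTwist Ω W g D) (hg : g.Monic)
    (hdeg : g.natDegree = 3) {Q : (W.baseChange Ω).Point}
    {θ : Ω} {h : (W.baseChange Ω).Nonsingular (algebraMap F[X] Ω D * θ) 0}
    (hQ : 2 • Q = .some (algebraMap F[X] Ω D * θ) 0 h) {θ' : Ω}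
    (hθ' : θ' ∈ RootSet (Ω := Ω) g) :
    rho (algebraMap F[X] Ω D * θ') Q ^ 2 = algebraMap F[X] Ω D * (θ - θ') := by
  rw [rho_sq_double hW.short hL.two (hW.rt hg hdeg hθ') hQ]
  ring

variable (L) in
include L in
/-- The Galois action on `ρ` at a half of a point of order two. -/
lemma IsLoc.act_half (hL : IsLoc w g D π S) (hW : IsTwist Ω W g D) (hg : g.Monic)
    (hdeg : g.natDegree = 3) {Q : (W.baseChange Ω).Point}
    {θ : Ω} (hθ : θ ∈ RootSet (Ω := Ω) g)
    {h : (W.baseChange Ω).Nonsingular (algebraMap F[X] Ω D * θ) 0}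
    (hQ : 2 • Q = .some (algebraMap F[X] Ω D * θ) 0 h) {θ' : Ω}
    (hθ' : θ' ∈ RootSet (Ω := Ω) g) (hne : θ ≠ θ') (σ : Ω ≃ₐ[K] Ω) :
    rho (algebraMap F[X] Ω D * θ') Q ≠ 0 ∧
    σ (rho (algebraMap F[X] Ω D * θ') Q) * S = rho (algebraMap F[X] Ω D * θ') Q * σ S := by
  have hd0 : algebraMap F[X] Ω D ≠ 0 := algebraMap_ne_zero_Om L hL.ne
  have h1 := hL.rho_half hW hg hdeg hQ hθ'
  obtain ⟨x, rfl⟩ := hL.root θ hθ
  obtain ⟨y, rfl⟩ := hL.root θ' hθ'
  have hxy : x ≠ y := fun h => hne (by rw [h])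
  have hwxy := hL.diff x y hθ hθ' hxy
  have hdK : algebraMap F[X] K D ≠ 0 := by
    intro h0
    apply hd0
    rw [IsScalarTower.algebraMap_apply F[X] K Ω, h0, map_zero]
  have h3 : rho (algebraMap F[X] Ω D * algebraMap K Ω y) Q ^ 2 =
      algebraMap K Ω (algebraMap F[X] K D * (x - y)) := by
    rw [h1, map_mul, ← IsScalarTower.algebraMap_apply, map_sub]
  have h4 : algebraMap F[X] K D * (x - y) ≠ 0 := mul_ne_zero hdK (sub_ne_zero.mpr hxy)
  refine ⟨?_, ?_⟩
  · intro h0
    rw [h0, zero_pow two_ne_zero, eq_comm, map_eq_zero] at h3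
    exact h4 h3
  · apply sqrt_odd hL.unif hL.sqrt hL.S_sq h4 _ h3 σ
    rw [lg_mul w hdK (sub_ne_zero.mpr hxy), lg_eq_zero_of w hwxy, add_zero]
    exact hL.odd

/-- The Galois group acts on points of order four by the character of the square root of a
uniformizer. -/
lemma IsLoc.map_four (hL : IsLoc w g D π S) (hW : IsTwist Ω W g D) (hg : g.Monic)
    (hdeg : g.natDegree = 3) (hd : derivative g ≠ 0) {Q : (W.baseChange Ω).Point}
    (hQ : 4 • Q = 0) (σ : Ω ≃ₐ[K] Ω) :
    (σ S = S → Point.map (W' := W) ((σ.restrictScalars L : Ω ≃ₐ[L] Ω) : Ω →ₐ[L] Ω) Q = Q) ∧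
    (σ S = -S → Point.map (W' := W) ((σ.restrictScalars L : Ω ≃ₐ[L] Ω) : Ω →ₐ[L] Ω) Q = -Q) := by
  have hT2 : 2 • (2 • Q) = 0 := by rw [← mul_smul]; exact hQ
  by_cases hT0 : 2 • Q = 0
  · have h1 := hL.map_two (L := L) hW hg hdeg hd hT0 σ
    have h3 : -Q = Q := by
      have : Q + Q = 0 := by rw [← two_nsmul]; exact hT0
      exact neg_eq_of_add_eq_zero_left this
    exact ⟨fun _ => h1, fun _ => by rw [h3]; exact h1⟩
  obtain ⟨θ, hθ, h, hTθ⟩ := exists_root_of_two L hL.two hW hg hdeg hd hL.ne hT2 hT0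
  obtain ⟨θ₂, θ₃, n2, n3, n23, hR, -, -⟩ :=
    exists_other_roots (F := F) L (Ω := Ω) hg hdeg hd hθ
  have m2 : θ₂ ∈ RootSet (Ω := Ω) g := (hR _).mpr (Or.inr (Or.inl rfl))
  have m3 : θ₃ ∈ RootSet (Ω := Ω) g := (hR _).mpr (Or.inr (Or.inr rfl))
  have hd0 : algebraMap F[X] Ω D ≠ 0 := algebraMap_ne_zero_Om L hL.ne
  set σQ := Point.map (W' := W) ((σ.restrictScalars L : Ω ≃ₐ[L] Ω) : Ω →ₐ[L] Ω) Q with hσQ
  set V := σQ - Q with hV
  have hV2 : 2 • V = 0 := by
    rw [hV, smul_sub, hσQ, ← map_nsmul, hL.map_two hW hg hdeg hd hT2 σ, sub_self]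
  have hσV : σQ = Q + V := by rw [hV]; abel
  have hrho : ∀ θ' ∈ RootSet (Ω := Ω) g, rho (algebraMap F[X] Ω D * θ') Q *
      rho (algebraMap F[X] Ω D * θ') V = σ (rho (algebraMap F[X] Ω D * θ') Q) := by
    intro θ' hθ'
    rw [← rho_add hW.short hL.two (hW.rt hg hdeg hθ') _ _ hV2, ← hσV, hσQ]
    have h5 : algebraMap F[X] Ω D * θ' =
        ((σ.restrictScalars L : Ω ≃ₐ[L] Ω) : Ω →ₐ[L] Ω) (algebraMap F[X] Ω D * θ') := by
      change _ = σ (algebraMap F[X] Ω D * θ')
      rw [map_mul, hL.fix_root hθ' σ, IsScalarTower.algebraMap_apply F[X] K Ω, σ.commutes]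
    conv_lhs => rw [h5]
    rw [rho_map]
    rfl
  have hkey : ∀ θ' ∈ RootSet (Ω := Ω) g, θ ≠ θ' →
      rho (algebraMap F[X] Ω D * θ') V * S = σ S := by
    intro θ' hθ' hne
    obtain ⟨h5, h6⟩ := hL.act_half L hW hg hdeg hθ hTθ hθ' hne σ
    rw [← hrho θ' hθ'] at h6
    apply mul_left_cancel₀ h5
    linear_combination h6
  have hneD : algebraMap F[X] Ω D * θ₂ ≠ algebraMap F[X] Ω D * θ₃ :=
    fun h => n23 (mul_left_cancel₀ hd0 h)
  constructor
  · intro hS
    have h5 : V = 0 := by
      apply eq_zero_of_rho_eq_one hW.short hL.two hneD hV2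
      · apply mul_right_cancel₀ hL.S_ne
        rw [hkey θ₂ m2 n2, hS, one_mul]
      · apply mul_right_cancel₀ hL.S_ne
        rw [hkey θ₃ m3 n3, hS, one_mul]
    rw [hσV, h5, add_zero]
  · intro hS
    have h6 : ∀ θ' ∈ RootSet (Ω := Ω) g, θ ≠ θ' →
        rho (algebraMap F[X] Ω D * θ') (V + 2 • Q) = 1 := by
      intro θ' hθ' hne
      rw [rho_add hW.short hL.two (hW.rt hg hdeg hθ') _ _ hT2, hTθ, rho_two_torsion, if_neg]
      · apply mul_right_cancel₀ hL.S_ne
        linear_combination -(hkey θ' hθ' hne) - hS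
      · intro h7
        exact hne (mul_left_cancel₀ hd0 h7)
    have h5 : V + 2 • Q = 0 := by
      apply eq_zero_of_rho_eq_one hW.short hL.two hneD
      · rw [smul_add, hV2, hT2, add_zero]
      · exact h6 θ₂ m2 n2
      · exact h6 θ₃ m3 n3
    have h7 : V = -(2 • Q) := eq_neg_of_add_eq_zero_left h5
    rw [hσV, h7, two_nsmul]
    abel

variable (L) in
include L in
/-- A homomorphism to the points of order two which is trivial at an element moving the square
root of a uniformizer is trivial. -/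
lemma IsLoc.hom_trivial (hL : IsLoc w g D π S) (hW : IsTwist Ω W g D) (hg : g.Monic)
    (hdeg : g.natDegree = 3) (hd : derivative g ≠ 0) {σ₀ : Ω ≃ₐ[K] Ω} (hσ₀ : σ₀ S = -S)
    (f : (Ω ≃ₐ[K] Ω) → (W.baseChange Ω).Point) (hf2 : ∀ σ, 2 • f σ = 0)
    (hmul : ∀ σ τ, f (σ * τ) = f σ + f τ) (hloc : IsLocallyConstant f) (h0 : f σ₀ = 0)
    (σ : Ω ≃ₐ[K] Ω) : f σ = 0 := by
  apply eq_of_signs L hL.two hW hg hdeg hd hL.ne (hf2 σ) (smul_zero 2)
  intro θ hθ
  rw [rho_zero]
  exact char_trivial w hL.two hL.unif hL.sqrt hL.S_sq hσ₀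
    (fun σ => rho (algebraMap F[X] Ω D * θ) (f σ))
    (fun σ => rho_two_torsion_sq hW.short hL.two _ (hf2 σ))
    (fun σ τ => by
      rw [hmul, rho_add hW.short hL.two (hW.rt hg hdeg hθ) _ _ (hf2 τ)])
    (hloc.comp (fun P => rho (algebraMap F[X] Ω D * θ) P)) (by rw [h0, rho_zero]) σ

/-- The structure of a cocycle of the local Galois group with values in the points of order four. -/
lemma IsLoc.cocycle_eq (hL : IsLoc w g D π S) (hW : IsTwist Ω W g D) (hg : g.Monic)
    (hdeg : g.natDegree = 3) (hd : derivative g ≠ 0) {σ₀ : Ω ≃ₐ[K] Ω} (hσ₀ : σ₀ S = -S)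
    (c : (Ω ≃ₐ[K] Ω) → (W.baseChange Ω).Point) (hc4 : ∀ σ, 4 • c σ = 0)
    (hmul : ∀ σ τ, c (σ * τ) = c σ +
      Point.map (W' := W) ((σ.restrictScalars L : Ω ≃ₐ[L] Ω) : Ω →ₐ[L] Ω) (c τ))
    (hloc : IsLocallyConstant c)
    (h2 : ∀ σ, 2 • (c σ - if σ S = S then 0 else c σ₀) = 0) (σ : Ω ≃ₐ[K] Ω) :
    c σ = if σ S = S then 0 else c σ₀ := by
  have hne : -S ≠ S := by
    intro h0
    have : 2 * S = 0 := by linear_combination -h0
    rcases mul_eq_zero.mp this with h | h
    · exact hL.two h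
    · exact hL.S_ne h
  have key := hL.hom_trivial L hW hg hdeg hd hσ₀
    (fun σ => c σ - if σ S = S then 0 else c σ₀) h2 (by
      intro σ τ
      have hm := hL.map_four (L := L) hW hg hdeg hd (hc4 τ) σ
      have e1 : ((σ * τ : Ω ≃ₐ[K] Ω)) S = σ (τ S) := rfl
      have h2τ := h2 τ
      rcases smul_sign hL.S_sq σ with hs | hs <;> rcases smul_sign hL.S_sq τ with ht | ht
      · rw [hmul, hm.1 hs, e1, ht, hs, if_pos rfl]
        abel
      · rw [hmul, hm.1 hs, e1, ht, map_neg, hs, if_pos rfl, if_neg hne]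
        abel
      · rw [ht, if_pos rfl, sub_zero, two_nsmul] at h2τ
        have e2 : -c τ = c τ := neg_eq_of_add_eq_zero_left h2τ
        rw [hmul, hm.2 hs, e1, ht, hs, if_neg hne, if_pos rfl, e2]
        abel
      · rw [ht, if_neg hne, two_nsmul] at h2τ
        have e2 : -c τ = (c τ - c σ₀ - c σ₀) - (c τ - c σ₀ + (c τ - c σ₀)) := by abel
        rw [h2τ, sub_zero] at e2
        rw [hmul, hm.2 hs, e1, ht, map_neg, hs, neg_neg, if_pos rfl, if_neg hne, e2]
        abel)
    (by
      apply hloc.sub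
      exact (isLocallyConstant_apply8 (F := K) S).comp (fun x => if x = S then 0 else c σ₀))
    (by rw [hσ₀, if_neg hne, sub_self]) σ
  exact sub_eq_zero.mp key

/-- The structure of a Tate module cocycle at level two. -/
lemma IsLoc.level_two (hL : IsLoc w g D π S) (hW : IsTwist Ω W g D) (hg : g.Monic)
    (hdeg : g.natDegree = 3) (hd : derivative g ≠ 0) {σ₀ : Ω ≃ₐ[K] Ω} (hσ₀ : σ₀ S = -S)
    {y : ℕ → (Ω ≃ₐ[L] Ω) → (W.baseChange Ω).Point} (hy : TC W y) (σ : Ω ≃ₐ[K] Ω) :
    y 2 (σ.restrictScalars L) = if σ S = S then 0 else y 2 (σ₀.restrictScalars L) := by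
  have hloc : ∀ n, IsLocallyConstant (fun σ : Ω ≃ₐ[K] Ω => y n (σ.restrictScalars L)) := fun n =>
    isLocallyConstant_comp8 (K := K) (RingHom.id Ω) (fun σ => σ.restrictScalars L)
      (fun _ _ => rfl) (hy.loc n)
  have hmul : ∀ n (σ τ : Ω ≃ₐ[K] Ω), y n ((σ * τ).restrictScalars L) =
      y n (σ.restrictScalars L) + Point.map (W' := W)
        ((σ.restrictScalars L : Ω ≃ₐ[L] Ω) : Ω →ₐ[L] Ω) (y n (τ.restrictScalars L)) :=
    fun n σ τ => hy.mul n (σ.restrictScalars L) (τ.restrictScalars L)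
  have h1 := hL.cocycle_eq (L := L) hW hg hdeg hd hσ₀ (fun σ => y 1 (σ.restrictScalars L))
    (fun σ => by
      have h3 := hy.two_pow 1 (σ.restrictScalars L)
      rw [show (4 : ℕ) = 2 * 2 ^ 1 by norm_num, mul_smul, h3, smul_zero]) (hmul 1) (hloc 1) (by
    intro σ
    have h3 := fun σ : Ω ≃ₐ[L] Ω => hy.two_pow 1 σ
    simp only [pow_one] at h3
    rw [smul_sub, h3]
    split_ifs
    · simp
    · rw [h3, sub_zero])
  apply hL.cocycle_eq (L := L) hW hg hdeg hd hσ₀ (fun σ => y 2 (σ.restrictScalars L))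
    (fun σ => hy.two_pow 2 (σ.restrictScalars L)) (hmul 2) (hloc 2)
  intro σ
  have h3 := h1 σ
  rw [smul_sub, hy.two 1, h3]
  split_ifs
  · simp
  · rw [hy.two 1, sub_self]

end Local

end Pool.Agent.Lib.MP_89bcae_ag

end

section

/-!
# A place with an estimate of the ramification index by the inertia group
-/

open Polynomial WithZero IsDedekindDomain

open scoped Classical Pointwise

namespace Pool.Agent.Lib.MP_89bcae_ag

open Superelliptic

variable {F : Type} [Field F] [Algebra ℚ F]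

/-- `σ` is in the inertia group of the place. -/
def Place.Inert {p : ℕ} {K₀ : Subfield F} (P : Place p K₀) (σ : F ≃ₐ[ℚ] F) : Prop :=
  ∀ (x : F) (hx : x ∈ P.O), ∃ hx' : σ x ∈ P.O, P.red ⟨σ x, hx'⟩ = P.red ⟨x, hx⟩

/-- The valuation of a finite Galois extension of `ℚ` above `p`. Proof: `place_aux_h74` with the last part
for three elements: `ramificationIdx_le_card_inertia7` gives `e ≤ #inertia`, so if `3 ≤ e` there are two
different elements `σ, τ ≠ 1` of the inertia group. -/
theorem exists_place_aux_three (K : Type) [Field K] [Algebra ℚ K] [FiniteDimensional ℚ K]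
    [IsGalois ℚ K] {p : ℕ} (hp : p.Prime) :
    ∃ (w : Valuation K (WithZero (Multiplicative ℤ))) (e : ℕ), 0 < e ∧
      (∀ z : ℤ, z ≠ 0 → w (z : K) = WithZero.exp (-((e * padicValInt p z : ℕ) : ℤ))) ∧
      (2 ≤ e → ∃ σ : K ≃ₐ[ℚ] K, σ ≠ 1 ∧ ∀ y, w y ≤ 1 → w (σ y) ≤ 1 ∧ w (σ y - y) < 1) ∧
      (3 ≤ e → ∃ σ τ : K ≃ₐ[ℚ] K, σ ≠ 1 ∧ τ ≠ 1 ∧ σ ≠ τ ∧
        (∀ y, w y ≤ 1 → w (σ y) ≤ 1 ∧ w (σ y - y) < 1) ∧
        (∀ y, w y ≤ 1 → w (τ y) ≤ 1 ∧ w (τ y - y) < 1)) := by
  obtain ⟨R₀, i1, i2, i3, i4, i5, hR₀⟩ := exists_dvrZ8 hp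
  let : Algebra R₀ K := ((algebraMap ℚ K).comp (algebraMap R₀ ℚ)).toAlgebra
  have : IsScalarTower R₀ ℚ K := IsScalarTower.of_algebraMap_eq fun r => rfl
  let B := integralClosure R₀ K
  have : IsDedekindDomain B := integralClosure.isDedekindDomain R₀ ℚ K
  have : Module.Finite R₀ B := IsIntegralClosure.finite R₀ ℚ K B
  have : IsFractionRing B K := integralClosure.isFractionRing_of_finite_extension ℚ K
  have : SMulCommClass (K ≃ₐ[ℚ] K) R₀ K := ⟨fun σ r x => by
    rw [AlgEquiv.smul_def, AlgEquiv.smul_def, Algebra.smul_def, Algebra.smul_def, map_mul,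
      IsScalarTower.algebraMap_apply R₀ ℚ K, AlgEquiv.commutes]⟩
  have : IsGaloisGroup (K ≃ₐ[ℚ] K) R₀ B := IsGaloisGroup.of_isFractionRing _ _ _ ℚ K
  have hinjK : Function.Injective (algebraMap R₀ K) := by
    rw [IsScalarTower.algebraMap_eq R₀ ℚ K]
    exact (algebraMap ℚ K).injective.comp (IsFractionRing.injective R₀ ℚ)
  have hinjB : Function.Injective (algebraMap B K) := Subtype.val_injective
  have : FaithfulSMul R₀ B := by
    rw [faithfulSMul_iff_algebraMap_injective]
    intro x y hxy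
    exact hinjK (congrArg (algebraMap B K) hxy)
  have : Module.IsTorsionFree R₀ B := inferInstance
  have : Module.Flat R₀ B := inferInstance
  let v : HeightOneSpectrum R₀ := IsDiscreteValuationRing.maximalIdeal R₀
  have hvmax : v.asIdeal.IsMaximal := v.isMaximal
  obtain ⟨P, hPmax, hPv⟩ := Ideal.exists_maximal_ideal_liesOver_of_isIntegral (S := B) v.asIdeal
  have hP0 : P ≠ ⊥ := Ideal.ne_bot_of_liesOver_of_ne_bot v.ne_bot P
  let w : HeightOneSpectrum B := ⟨P, hPmax.isPrime, hP0⟩
  have hwv : w.asIdeal.LiesOver v.asIdeal := hPv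
  have hmP : ∀ r : R₀, algebraMap R₀ B r ∈ P ↔ r ∈ IsLocalRing.maximalIdeal R₀ := by
    intro r
    have h1 : r ∈ Ideal.comap (algebraMap R₀ B) P ↔ r ∈ v.asIdeal := by
      rw [← Ideal.under_def, ← hPv.over]
    exact h1
  set e := v.asIdeal.ramificationIdx' w.asIdeal with hedef
  have hWk : ∀ r : R₀, w.intValuation (algebraMap R₀ B r) = v.intValuation r ^ e := by
    intro r
    have h1 := HeightOneSpectrum.valuation_liesOver K v w (algebraMap R₀ ℚ r)
    rw [← IsScalarTower.algebraMap_apply] at h1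
    have h2 : w.intValuation (algebraMap R₀ B r) = w.valuation K (algebraMap R₀ K r) := by
      rw [← w.valuation_of_algebraMap (K := K)]
      rfl
    rw [h2, ← h1]
    congr 1
    exact HeightOneSpectrum.valuation_of_algebraMap (K := ℚ) v r
  have he1 : 0 < e := by
    rcases Nat.eq_zero_or_pos e with h0 | h0
    · exfalso
      obtain ⟨ϖ, hϖ⟩ := v.intValuation_exists_uniformizer
      have h1 : ϖ ∈ IsLocalRing.maximalIdeal R₀ := by
        have h2 : v.intValuation ϖ ≤ exp (-((1 : ℕ) : ℤ)) := by rw [hϖ]; simp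
        have h3 := (v.intValuation_le_pow_iff_mem ϖ 1).mp h2
        rw [pow_one] at h3
        exact h3
      have h2 : w.intValuation (algebraMap R₀ B ϖ) < 1 :=
        (w.intValuation_lt_one_iff_mem _).mpr ((hmP ϖ).mpr h1)
      rw [hWk, h0, pow_zero] at h2
      exact lt_irrefl _ h2
    · exact h0
  have hinert : ∀ σ : K ≃ₐ[ℚ] K, σ ∈ P.inertia (K ≃ₐ[ℚ] K) → ∀ y, w.valuation K y ≤ 1 →
      w.valuation K (σ y) ≤ 1 ∧ w.valuation K (σ y - y) < 1 := by
    intro σ hσP y hy
    obtain ⟨b, c, hbc⟩ := w.exists_primeCompl_mul_eq_of_integer y hy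
    have hσB : ∀ x : B, σ (algebraMap B K x) = algebraMap B K (σ • x) := fun x => rfl
    have hin : ∀ x : B, σ • x - x ∈ P := fun x => hσP x
    have hc1 : w.intValuation (c : B) = 1 := by
      rw [w.intValuation_eq_one_iff_mem_primeCompl]
      exact c.2
    have hσc : w.intValuation (σ • (c : B)) = 1 := by
      rw [w.intValuation_eq_one_iff_mem_primeCompl]
      intro h
      apply c.2
      have h3 := P.sub_mem h (hin c)
      rwa [sub_sub_cancel] at h3
    have hσy : σ y * algebraMap B K (σ • (c : B)) = algebraMap B K (σ • b) := by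
      rw [← hσB, ← hσB, ← map_mul, hbc]
    constructor
    · have h3 := congrArg (w.valuation K) hσy
      rw [map_mul, HeightOneSpectrum.valuation_of_algebraMap, hσc, mul_one,
        HeightOneSpectrum.valuation_of_algebraMap] at h3
      rw [h3]
      exact w.intValuation_le_one _
    · have h3 : (σ y - y) * algebraMap B K ((σ • (c : B)) * (c : B)) =
          algebraMap B K ((σ • b - b) * (c : B) - b * (σ • (c : B) - (c : B))) := by
        simp only [map_sub, map_mul]
        linear_combination (algebraMap B K (c : B)) * hσy - (algebraMap B K (σ • (c : B))) * hbc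
      have h4 := congrArg (w.valuation K) h3
      rw [map_mul, HeightOneSpectrum.valuation_of_algebraMap, map_mul, hσc, hc1, mul_one, mul_one,
        HeightOneSpectrum.valuation_of_algebraMap] at h4
      rw [h4, w.intValuation_lt_one_iff_mem]
      exact P.sub_mem (P.mul_mem_right _ (hin b)) (P.mul_mem_left _ (hin c))
  have hcard : e ≤ Nat.card (P.inertia (K ≃ₐ[ℚ] K)) := by
    let : Field (B ⧸ P) := Ideal.Quotient.field P
    rw [hedef, Ideal.ramificationIdx'_eq_ramificationIdx v.asIdeal w.asIdeal v.ne_bot]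
    exact ramificationIdx_le_card_inertia7 v.asIdeal P
  refine ⟨w.valuation K, e, he1, ?_, ?_, ?_⟩
  · intro z hz
    have hz0 : (z : R₀) ≠ 0 := by
      intro h0
      have h1 : algebraMap R₀ K (z : R₀) = 0 := by rw [h0, map_zero]
      rw [map_intCast] at h1
      have : CharZero K := charZero_of_injective_algebraMap (algebraMap ℚ K).injective
      exact hz (by exact_mod_cast h1)
    have h1 : v.intValuation (z : R₀) = exp (-((padicValInt p z : ℕ) : ℤ)) := by
      apply le_antisymm
      · refine (v.intValuation_le_pow_iff_mem (z : R₀) (padicValInt p z)).mpr ?_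
        refine (hR₀ z _).mpr ?_
        exact padicValInt_dvd z
      · by_contra hlt
        rw [not_le] at hlt
        have h2 : v.intValuation (z : R₀) ≤ exp (-((padicValInt p z + 1 : ℕ) : ℤ)) := by
          obtain ⟨m, hm⟩ : ∃ m : ℤ, v.intValuation (z : R₀) = exp m := by
            refine ⟨log (v.intValuation (z : R₀)), (exp_log ?_).symm⟩
            exact v.intValuation_ne_zero _ hz0
          rw [hm] at hlt ⊢
          rw [exp_lt_exp] at hlt
          rw [exp_le_exp]
          push_cast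
          omega
        have h3 := (v.intValuation_le_pow_iff_mem (z : R₀) _).mp h2
        have h4 := (hR₀ z _).mp h3
        have := Fact.mk hp
        rw [padicValInt_dvd_iff] at h4
        rcases h4 with h4 | h4
        · exact hz h4
        · omega
    have h2 : (z : K) = algebraMap B K (algebraMap R₀ B (z : R₀)) := by
      rw [map_intCast, map_intCast]
    rw [h2, HeightOneSpectrum.valuation_of_algebraMap, hWk, h1, ← exp_nsmul]
    congr 1
    push_cast
    rw [nsmul_eq_mul]
    ring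
  · intro he2
    have h2 : 1 < Nat.card (P.inertia (K ≃ₐ[ℚ] K)) := lt_of_lt_of_le (by omega) hcard
    obtain ⟨σ, hσP, hσ1⟩ : ∃ σ : K ≃ₐ[ℚ] K, σ ∈ P.inertia (K ≃ₐ[ℚ] K) ∧ σ ≠ 1 := by
      by_contra hcon
      push Not at hcon
      have : Subsingleton (P.inertia (K ≃ₐ[ℚ] K)) :=
        ⟨fun σ τ => Subtype.ext ((hcon σ σ.2).trans (hcon τ τ.2).symm)⟩
      have := Finite.card_le_one_iff_subsingleton.mpr this
      omega
    exact ⟨σ, hσ1, hinert σ hσP⟩
  · intro he3
    have h2 : 2 < Nat.card (P.inertia (K ≃ₐ[ℚ] K)) := lt_of_lt_of_le (by omega) hcard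
    have hfin : Finite (P.inertia (K ≃ₐ[ℚ] K)) := Nat.finite_of_card_ne_zero (by omega)
    have hft : Fintype (P.inertia (K ≃ₐ[ℚ] K)) := Fintype.ofFinite _
    rw [Nat.card_eq_fintype_card] at h2
    obtain ⟨σ, hσ⟩ : ∃ σ : P.inertia (K ≃ₐ[ℚ] K), σ ∉ ({1} : Finset (P.inertia (K ≃ₐ[ℚ] K))) := by
      by_contra hcon
      push Not at hcon
      have h3 := Finset.card_le_card (s := Finset.univ) (t := {1}) fun x _ => hcon x
      rw [Finset.card_univ, Finset.card_singleton] at h3
      omega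
    obtain ⟨τ, hτ⟩ : ∃ τ : P.inertia (K ≃ₐ[ℚ] K), τ ∉ ({1, σ} : Finset (P.inertia (K ≃ₐ[ℚ] K))) := by
      by_contra hcon
      push Not at hcon
      have h3 := Finset.card_le_card (s := Finset.univ) (t := {1, σ}) fun x _ => hcon x
      rw [Finset.card_univ] at h3
      have h4 := Finset.card_le_two (a := (1 : P.inertia (K ≃ₐ[ℚ] K))) (b := σ)
      omega
    rw [Finset.mem_singleton] at hσ
    rw [Finset.mem_insert, Finset.mem_singleton, not_or] at hτ
    refine ⟨σ, τ, ?_, ?_, ?_, hinert σ σ.2, hinert τ τ.2⟩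
    · intro h
      exact hσ (Subtype.ext h)
    · intro h
      exact hτ.1 (Subtype.ext h)
    · intro h
      exact hτ.2 (Subtype.ext h.symm)

section

attribute [-instance] DivisionRing.toRatAlgebra

/-- The place of `exists_place` (`Gph/Place.lean`), with one more statement for `3 ≤ e`. Proof: the same, with
`exists_place_aux_three` instead of `place_aux_h74`; two different automorphisms of `ℚ(S)` differ at an
element of `S`. -/
theorem exists_place_three [IsAlgClosure ℚ F] {p : ℕ} (hp : p.Prime) (S : Set F) (hS : S.Finite)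
    (hσ : ∀ (σ : F ≃ₐ[ℚ] F), ∀ s ∈ S, σ s ∈ S) :
    ∃ P : Place p (IntermediateField.adjoin ℚ S).toSubfield,
      (2 ≤ P.e → ∃ σ : F ≃ₐ[ℚ] F, (∃ s ∈ S, σ s ≠ s) ∧ P.Inert σ) ∧
      (3 ≤ P.e → ∃ σ τ : F ≃ₐ[ℚ] F, (∃ s ∈ S, σ s ≠ s) ∧ (∃ s ∈ S, τ s ≠ s) ∧
        (∃ s ∈ S, σ s ≠ τ s) ∧ P.Inert σ ∧ P.Inert τ) := by
  have halg : Algebra.IsAlgebraic ℚ F := IsAlgClosure.isAlgebraic
  have hnF : Normal ℚ F := IsAlgClosure.normal ℚ F
  set K : IntermediateField ℚ F := IntermediateField.adjoin ℚ S with hKdef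
  have hSfin : Finite S := hS.to_subtype
  have hfd : FiniteDimensional ℚ K :=
    IntermediateField.finiteDimensional_adjoin fun x _ => (halg.isAlgebraic x).isIntegral
  have hnK : Normal ℚ K := by
    rw [IntermediateField.normal_iff_forall_map_le']
    intro σ
    rw [hKdef, IntermediateField.adjoin_map, IntermediateField.adjoin_le_iff]
    rintro _ ⟨s, hs, rfl⟩
    exact IntermediateField.subset_adjoin ℚ S (hσ σ s hs)
  have hgal : IsGalois ℚ K := ⟨⟩
  obtain ⟨w, e, he, hrat, hin, hin3⟩ := exists_place_aux_three K hp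
  let V : ValuationSubring K := w.valuationSubring
  have hinj : Function.Injective (algebraMap K F) := (algebraMap K F).injective
  let O : Subring F := V.toSubring.map (algebraMap K F)
  let ε : V.toSubring ≃+* O := V.toSubring.equivMapOfInjective (algebraMap K F) hinj
  let red : O →+* IsLocalRing.ResidueField V := (IsLocalRing.residue V).comp ε.symm.toRingHom
  let ord : F → ℤ := fun x => if h : x ∈ K then -(log (w ⟨x, h⟩)) else 0
  have hord : ∀ y : K, ord (y : F) = -(log (w y)) := fun y => dif_pos y.2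
  have hred : ∀ (y : K) (hy : y ∈ V) (hO : (y : F) ∈ O), red ⟨y, hO⟩ = IsLocalRing.residue V ⟨y, hy⟩ := by
    intro y hy hO
    have h1 : ε.symm ⟨(y : F), hO⟩ = ⟨y, hy⟩ := by
      rw [RingEquiv.symm_apply_eq]
      rfl
    show IsLocalRing.residue V (ε.symm ⟨(y : F), hO⟩) = _
    rw [h1]
  have hOmem : ∀ x : F, x ∈ O ↔ ∃ y : K, w y ≤ 1 ∧ (y : F) = x := fun x => Iff.rfl
  have hle : ∀ y : K, y ≠ 0 → (w y ≤ 1 ↔ 0 ≤ -(log (w y))) := by
    intro y hy
    have h1 : w y ≠ 0 := (Valuation.ne_zero_iff w).mpr hy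
    have h2 : (0 : ℤ) ≤ -(log (w y)) ↔ log (w y) ≤ 0 := by omega
    rw [h2, log_le_iff_le_exp h1, exp_zero]
  have hlt : ∀ y : K, y ≠ 0 → (w y < 1 ↔ 0 < -(log (w y))) := by
    intro y hy
    have h1 : w y ≠ 0 := (Valuation.ne_zero_iff w).mpr hy
    have h2 : (0 : ℤ) < -(log (w y)) ↔ log (w y) < 0 := by omega
    rw [h2, log_lt_iff_lt_exp h1, exp_zero]
  have hres : ∀ (y : K) (hy : y ∈ V), IsLocalRing.residue V ⟨y, hy⟩ = 0 ↔ w y < 1 := by
    intro y hy
    rw [IsLocalRing.residue_eq_zero_iff]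
    exact Valuation.mem_maximalIdeal_iff _ _
  let P : Place p K.toSubfield :=
    { O := O
      κ := IsLocalRing.ResidueField V
      red := red
      ord := ord
      e := e
      isVal := by
        refine ⟨?_, ?_⟩
        · intro x hx y hy hx0 hy0
          have h1 := hord ⟨x, hx⟩
          have h2 := hord ⟨y, hy⟩
          have h3 := hord (⟨x, hx⟩ * ⟨y, hy⟩)
          have h4 : w (⟨x, hx⟩ : K) ≠ 0 := (Valuation.ne_zero_iff w).mpr fun h => hx0 (congrArg Subtype.val h)
          have h5 : w (⟨y, hy⟩ : K) ≠ 0 := (Valuation.ne_zero_iff w).mpr fun h => hy0 (congrArg Subtype.val h)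
          rw [map_mul, log_mul h4 h5] at h3
          change ord (x * y) = ord x + ord y
          change ord x = _ at h1
          change ord y = _ at h2
          change ord (x * y) = _ at h3
          rw [h3, h1, h2]
          ring
        · have h1 := hord (-1)
          rw [Valuation.map_neg, map_one, log_one, neg_zero] at h1
          simpa using h1
      mem_O := by
        intro x
        rw [hOmem]
        constructor
        · rintro ⟨y, hy, rfl⟩
          refine ⟨y.2, ?_⟩
          by_cases h0 : y = 0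
          · left
            rw [h0]
            rfl
          · right
            rw [hord]
            exact (hle y h0).mp hy
        · rintro ⟨hx, h1⟩
          refine ⟨⟨x, hx⟩, ?_, rfl⟩
          rcases h1 with h1 | h1
          · have h2 : (⟨x, hx⟩ : K) = 0 := Subtype.ext h1
            rw [h2, map_zero]
            exact zero_le
          · by_cases h0 : (⟨x, hx⟩ : K) = 0
            · rw [h0, map_zero]
              exact zero_le
            · have h2 := hord ⟨x, hx⟩
              change ord x = _ at h2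
              rw [h2] at h1
              exact (hle _ h0).mpr h1
      red_eq_zero := by
        intro x hx hx0
        obtain ⟨y, hy, rfl⟩ := (hOmem x).mp hx
        have h0 : y ≠ 0 := fun h => hx0 (by rw [h]; rfl)
        rw [hred y hy hx, hord]
        exact (hres y hy).trans (hlt y h0)
      e_pos := he
      rat := by
        intro z hz
        have h1 := hord (z : K)
        rw [hrat z hz, log_exp, neg_neg] at h1
        have h2 : ((z : K) : F) = (z : F) := by push_cast; rfl
        rw [h2] at h1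
        rw [h1]
        push_cast
        ring }
  have hcomm : ∀ (σ : K ≃ₐ[ℚ] K) (y : K), (σ.liftNormal F) (y : F) = (σ y : F) :=
    fun σ y => σ.liftNormal_commutes F y
  have hne : ∀ σ τ : K ≃ₐ[ℚ] K, σ ≠ τ → ∃ s ∈ S, (σ.liftNormal F) s ≠ (τ.liftNormal F) s := by
    intro σ τ hστ
    by_contra hcon
    push Not at hcon
    apply hστ
    have h0 : τ⁻¹ * σ = 1 := by
      apply fix_adjoin_h74
      intro s hs
      have h1 := hcon s hs
      have h2 := hcomm σ ⟨s, IntermediateField.subset_adjoin ℚ S hs⟩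
      have h3 := hcomm τ ⟨s, IntermediateField.subset_adjoin ℚ S hs⟩
      have h4 : σ ⟨s, IntermediateField.subset_adjoin ℚ S hs⟩ =
          τ ⟨s, IntermediateField.subset_adjoin ℚ S hs⟩ := by
        apply Subtype.ext
        rw [← h2, ← h3]
        exact h1
      rw [AlgEquiv.mul_apply, h4]
      exact τ.symm_apply_apply _
    exact (inv_mul_eq_one.mp h0).symm
  have hne1 : ∀ σ : K ≃ₐ[ℚ] K, σ ≠ 1 → ∃ s ∈ S, (σ.liftNormal F) s ≠ s := by
    intro σ hσ1
    by_contra hcon
    push Not at hcon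
    apply hσ1
    apply fix_adjoin_h74
    intro s hs
    apply Subtype.ext
    have h1 := hcomm σ ⟨s, IntermediateField.subset_adjoin ℚ S hs⟩
    rw [← h1]
    exact hcon s hs
  have hI : ∀ σ : K ≃ₐ[ℚ] K, (∀ y, w y ≤ 1 → w (σ y) ≤ 1 ∧ w (σ y - y) < 1) →
      P.Inert (σ.liftNormal F) := by
    intro σ hσ2 x hx
    obtain ⟨y, hy, rfl⟩ := (hOmem x).mp hx
    obtain ⟨h1, h2⟩ := hσ2 y hy
    have hmem : (σ.liftNormal F) (y : F) ∈ O := by
      rw [hcomm]
      exact (hOmem _).mpr ⟨σ y, h1, rfl⟩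
    refine ⟨hmem, ?_⟩
    have hmem' : ((σ y : K) : F) ∈ O := (hOmem _).mpr ⟨σ y, h1, rfl⟩
    have h3 : (⟨(σ.liftNormal F) (y : F), hmem⟩ : O) = ⟨((σ y : K) : F), hmem'⟩ :=
      Subtype.ext (hcomm σ y)
    show red ⟨(σ.liftNormal F) (y : F), hmem⟩ = red ⟨(y : F), hx⟩
    rw [h3, hred (σ y) h1 hmem', hred y hy hx, ← sub_eq_zero, ← map_sub]
    have h4 : (⟨σ y, h1⟩ - ⟨y, hy⟩ : V) = ⟨σ y - y, h2.le⟩ := rfl
    rw [h4]
    exact (hres _ _).mpr h2
  refine ⟨P, fun h2e => ?_, fun h3e => ?_⟩
  · obtain ⟨σ, hσ1, hσ2⟩ := hin h2e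
    exact ⟨σ.liftNormal F, hne1 σ hσ1, hI σ hσ2⟩
  · obtain ⟨σ, τ, hσ1, hτ1, hστ, hσ2, hτ2⟩ := hin3 h3e
    exact ⟨σ.liftNormal F, τ.liftNormal F, hne1 σ hσ1, hne1 τ hτ1, hne σ τ hστ, hI σ hσ2, hI τ hτ2⟩

end

end Pool.Agent.Lib.MP_89bcae_ag

end
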