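import Mathlib
import Pool.Agent.Lib.MP_89bcae_ag.Mk.K014
import Pool.Agent.Lib.MP_89bcae_ag.Mk.K046

section

namespace Pool.Agent.Lib.MP_89bcae_ag.Tri

/-- **The pencil lemma.** Proof: call `y` bad at `z` if there is `x ≠ 0` with
`T x + (y * B x u) • u = z • x`. By `h1`, `B x u ≠ 0` for such `x`. (a) For each `z` at most one `y` is bad: for
`x, y` and `x', y'` with the same `z`, `B (T x) x' = z B x x' - y (B x u) (B u x')` and
`B x (T x') = z B x x' - y' (B x' u) (B x u)` are equal (`hT`), `B u x' = B x' u`, so `y = y'`. (b) For the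
`z₀, x₀, τ` of `h2` no `y` is bad: `B (T x) x₀ = z₀ B x x₀ - y (B x u) (B u x₀) = z₀ B x x₀` and
`B x (T x₀) = z₀ B x x₀ + τ B x u`, so `τ = 0` and `T x₀ = z₀ x₀`, contradiction to `h1`. (c) If all `y` were
bad, at `Z y`, then `Z` is injective by (a), so surjective (`Finite.injective_iff_surjective`), but `z₀` is
not in the image. -/
theorem pencil {ℓ : ℕ} [Fact ℓ.Prime] {V : Type} [AddCommGroup V] [Module (ZMod ℓ) V] (T : V → V)
    (B : LinearMap.BilinForm (ZMod ℓ) V) (hB : ∀ x y, B x y = B y x)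
    (hT : ∀ x y, B (T x) y = B x (T y)) (u : V)
    (h1 : ∀ (x : V) (z : ZMod ℓ), T x = z • x → B x u = 0 → x = 0)
    (h2 : ∃ (x : V) (z τ : ZMod ℓ), x ≠ 0 ∧ T x = z • x + τ • u ∧ B x u = 0) :
    ∃ y : ZMod ℓ, ∀ (x : V) (z : ZMod ℓ), T x + (y * B x u) • u = z • x → x = 0 := by
  by_contra hcon
  push Not at hcon
  choose X Z hXZ hX0 using hcon
  -- nonvanishing of the coupling coordinate
  have hne : ∀ y, B (X y) u ≠ 0 := by
    intro y hy
    apply hX0 y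
    refine h1 (X y) (Z y) ?_ hy
    have h := hXZ y
    rw [hy, mul_zero, zero_smul, add_zero] at h
    exact h
  have hT' : ∀ y, T (X y) = Z y • X y - (y * B (X y) u) • u := by
    intro y
    exact eq_sub_of_add_eq (hXZ y)
  -- (a) injectivity
  have hinj : Function.Injective Z := by
    intro y y' hyy
    have h := hT (X y) (X y')
    rw [hT' y, hT' y', ← hyy] at h
    simp only [map_sub, map_smul, LinearMap.sub_apply, LinearMap.smul_apply, smul_eq_mul] at h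
    rw [hB u (X y')] at h
    have h3 : (y - y') * (B (X y) u * B (X y') u) = 0 := by linear_combination -h
    rcases mul_eq_zero.1 h3 with h4 | h4
    · exact sub_eq_zero.1 h4
    · rcases mul_eq_zero.1 h4 with h5 | h5
      · exact absurd h5 (hne y)
      · exact absurd h5 (hne y')
  -- (b) the value of `h2` is not attained
  obtain ⟨x₀, z₀, τ, hx0, hTx, hBx⟩ := h2
  have hsurj : Function.Surjective Z := Finite.injective_iff_surjective.1 hinj
  obtain ⟨y, hy⟩ := hsurj z₀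
  have h := hT (X y) x₀
  rw [hT' y, hTx, hy] at h
  simp only [map_sub, map_add, map_smul, LinearMap.sub_apply, LinearMap.smul_apply, smul_eq_mul] at h
  rw [hB u x₀, hBx] at h
  have h3 : τ * B (X y) u = 0 := by linear_combination -h
  rcases mul_eq_zero.1 h3 with h4 | h4
  · apply hx0
    refine h1 x₀ z₀ ?_ hBx
    rw [hTx, h4, zero_smul, add_zero]
  · exact hne y h4

end Pool.Agent.Lib.MP_89bcae_ag.Tri

end

section

namespace Pool.Agent.Lib.MP_89bcae_ag.Tri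

/-- A form `m ^ 2 + D y ^ 2` with `D ≠ 0` has a nonsquare value. -/
theorem exists_nonsq_h72 {ℓ : ℕ} [Fact ℓ.Prime] (hℓ2 : ℓ ≠ 2) {D : ZMod ℓ} (hD : D ≠ 0) :
    ∃ m y : ZMod ℓ, ∀ s : ZMod ℓ, s ^ 2 ≠ m ^ 2 + D * y ^ 2 := by
  by_cases hs : IsSquare D
  · obtain ⟨d, hd⟩ := hs
    have hd0 : d ≠ 0 := by
      intro h
      apply hD
      rw [hd, h, mul_zero]
    have hchar : ringChar (ZMod ℓ) ≠ 2 := by
      rw [ZMod.ringChar_zmod_n]
      exact hℓ2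
    obtain ⟨r, hr⟩ := FiniteField.exists_nonsquare (F := ZMod ℓ) hchar
    obtain ⟨a, b, hab⟩ := ZMod.sq_add_sq ℓ r
    refine ⟨a, b / d, fun s hs => hr ⟨s, ?_⟩⟩
    have h1 : D * (b / d) ^ 2 = b ^ 2 := by
      rw [hd]
      field_simp
    rw [h1, hab] at hs
    rw [← hs, sq]
  · refine ⟨0, 1, fun s h => hs ⟨s, ?_⟩⟩
    have h1 : (0 : ZMod ℓ) ^ 2 + D * 1 ^ 2 = D := by ring
    rw [h1] at h
    rw [← h, sq]

/-- Symbols of the pairs without eigenvectors on the gradients. Proof: with `A = w₁ + w₂`, `C = w₂ + w₃`,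
`W = w₁ + w₂ + w₃`, `A C - w₁ w₃ = w₂ W`, `Lz = z ^ 2 - (A x + C y) z + w₂ W x y`. The discriminant is
`(A x + C y) ^ 2 - 4 w₂ W x y = m ^ 2 + D y ^ 2` where `m = A x + (C - 2 w₂ W / A) y` and
`D = 4 w₁ w₂ w₃ W / A ^ 2 ≠ 0`. There are `m, y` with `m ^ 2 + D y ^ 2` not a square: let `r` be a nonsquare
(`FiniteField.exists_nonsquare`); if `D` is not a square take `m = 0`, `y = 1`; if `D = d ^ 2`,
`ZMod.sq_add_sq` gives `a ^ 2 + b ^ 2 = r`, take `m = a`, `y = b / d`. Then `x = (m - (C - 2 w₂ W / A) y) / A`.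
A root `z` of `Lz` would give `(2 z - (A x + C y)) ^ 2 =` the discriminant. (`x ≠ 0` and `y ≠ 0` follow:
otherwise `Lz` has a root.) -/
theorem exists_xy {ℓ : ℕ} [Fact ℓ.Prime] (hℓ2 : ℓ ≠ 2) {w₁ w₂ w₃ : ZMod ℓ} (h1 : w₁ ≠ 0)
    (h2 : w₂ ≠ 0) (h3 : w₃ ≠ 0) (h12 : w₁ + w₂ ≠ 0) (hW : w₁ + w₂ + w₃ ≠ 0) :
    ∃ x y : ZMod ℓ, x ≠ 0 ∧ y ≠ 0 ∧ ∀ z, Lz w₁ w₂ w₃ x y z ≠ 0 := by
  have h2' : (2 : ZMod ℓ) ≠ 0 := by
    intro h
    have h3 : ((2 : ℕ) : ZMod ℓ) = 0 := by exact_mod_cast h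
    rw [ZMod.natCast_eq_zero_iff] at h3
    exact hℓ2 ((Nat.prime_dvd_prime_iff_eq Fact.out Nat.prime_two).1 h3)
  obtain ⟨A, hA⟩ : ∃ A, A = w₁ + w₂ := ⟨_, rfl⟩
  have hA0 : A ≠ 0 := by rw [hA]; exact h12
  have hD : (4 * w₁ * w₂ * w₃ * (w₁ + w₂ + w₃) / A ^ 2 : ZMod ℓ) ≠ 0 := by
    apply div_ne_zero _ (pow_ne_zero _ hA0)
    have h4 : (4 : ZMod ℓ) ≠ 0 := by
      have : (4 : ZMod ℓ) = 2 * 2 := by norm_num
      rw [this]
      exact mul_ne_zero h2' h2'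
    exact mul_ne_zero (mul_ne_zero (mul_ne_zero (mul_ne_zero h4 h1) h2) h3) hW
  obtain ⟨m, y, hmy⟩ := exists_nonsq_h72 hℓ2 hD
  obtain ⟨x, hx⟩ : ∃ x, x = (m - ((w₂ + w₃) - 2 * w₂ * (w₁ + w₂ + w₃) / A) * y) / A := ⟨_, rfl⟩
  have hm : m = A * x + ((w₂ + w₃) - 2 * w₂ * (w₁ + w₂ + w₃) / A) * y := by
    rw [hx]
    field_simp
    ring
  have key : ∀ z, Lz w₁ w₂ w₃ x y z ≠ 0 := by
    intro z hz
    apply hmy (2 * z - (A * x + (w₂ + w₃) * y))
    have hz' : (z - A * x) * (z - (w₂ + w₃) * y) - w₁ * w₃ * x * y = 0 := by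
      rw [hA]
      exact hz
    have e1 : (2 * z - (A * x + (w₂ + w₃) * y)) ^ 2 =
        (A * x - (w₂ + w₃) * y) ^ 2 + 4 * (w₁ * w₃ * x * y) := by
      linear_combination 4 * hz'
    have e2 : m ^ 2 + (4 * w₁ * w₂ * w₃ * (w₁ + w₂ + w₃) / A ^ 2) * y ^ 2 =
        (A * x - (w₂ + w₃) * y) ^ 2 + 4 * (w₁ * w₃ * x * y) := by
      rw [hm]
      have hw1 : w₁ = A - w₂ := by rw [hA]; ring
      rw [hw1]
      field_simp
      ring
    rw [e1, e2]
  refine ⟨x, y, ?_, ?_, key⟩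
  · intro h
    apply key 0
    rw [h]
    simp [Lz]
  · intro h
    apply key 0
    rw [h]
    simp [Lz]

end Pool.Agent.Lib.MP_89bcae_ag.Tri

end

section

/-!
# The number of the families of type B modulo `p ^ 2`
-/

open Polynomial

open scoped Classical

namespace Pool.Agent.Lib.MP_89bcae_ag

section

variable {ι : Type} {n : ℕ} {K : Type}

/-- Exactly one simple triple collision, at `z`: the conditions over a field. -/
structure GenB [CommRing K] (i j l : ι) (u : ι × Fin (n + 1) → K) (z : K) : Prop where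
  lead : ∀ a b, a ≠ b → u (a, Fin.last n) ≠ u (b, Fin.last n)
  sep : ∀ a b, a ≠ b → (gdif u a b).Separable
  cop : ∀ a b c d, a ≠ b → c ≠ d → ({a, b} : Set ι) ≠ {c, d} →
    ¬ ({a, b, c, d} : Set ι) ⊆ {i, j, l} → IsCoprime (gdif u a b) (gdif u c d)
  col : ∃ g h : K[X], gdif u i j = (X - C z) * g ∧ gdif u j l = (X - C z) * h ∧ IsCoprime g h

/-- The leading coefficients do not change. -/
theorem shift_last_h83 [Field K] (y : K) (u : ι × Fin (n + 1) → K) (a : ι) :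
    shift y u (a, Fin.last n) = u (a, Fin.last n) := by
  have h1 : shift y u (a, Fin.last n) = ((gpol u a).comp (X + C y)).coeff n := rfl
  have h2 : (gpol u a).coeff n = u (a, Fin.last n) := gpol_coeff u a (Fin.last n)
  rw [h1, ← h2, ← taylor_apply]
  rcases (gpol_natDegree_le u a).lt_or_eq with h | h
  · rw [coeff_eq_zero_of_natDegree_lt h, coeff_eq_zero_of_natDegree_lt]
    rw [natDegree_taylor]
    exact h
  · have h3 := coeff_taylor_natDegree (r := y) (f := gpol u a)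
    rw [h] at h3
    rw [h3, leadingCoeff, h]

/-- The conditions are transported by the translations. -/
theorem GenB.shift_h83 [Field K] {i j l : ι} {u : ι × Fin (n + 1) → K} {z : K} (y : K)
    (h : GenB i j l u z) : GenB i j l (shift y u) (z - y) := by
  refine ⟨fun a b hab => ?_, fun a b hab => ?_, fun a b c d hab hcd hne hss => ?_, ?_⟩
  · rw [shift_last_h83, shift_last_h83]
    exact h.lead a b hab
  · rw [gdif_shift, separable_comp_iff]
    exact h.sep a b hab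
  · rw [gdif_shift, gdif_shift, isCoprime_comp_iff]
    exact h.cop a b c d hab hcd hne hss
  · obtain ⟨g, k, hg, hk, hgk⟩ := h.col
    refine ⟨g.comp (X + C y), k.comp (X + C y), ?_, ?_, (isCoprime_comp_iff g k y).2 hgk⟩
    · rw [gdif_shift, hg, mul_comp, sub_comp, X_comp, C_comp, C_sub]
      ring
    · rw [gdif_shift, hk, mul_comp, sub_comp, X_comp, C_comp, C_sub]
      ring

/-- (`gdif_shift`; the leading coefficients do not change; `(X - C z).comp (X + C z) = X`.) -/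
theorem GenB.shift_iff [Field K] (i j l : ι) (u : ι × Fin (n + 1) → K) (z : K) :
    GenB i j l u z ↔ GenB i j l (shift z u) 0 := by
  constructor
  · intro h
    have h' := h.shift_h83 z
    rwa [sub_self] at h'
  · intro h
    have h' := h.shift_h83 (-z)
    rwa [shift_shift, neg_add_cancel, shift_zero, zero_sub, neg_neg] at h'

/-- (`z'` is a root of `gdif u i j` and `gdif u j l`; if `z' ≠ z`, of the coprime `g`, `h`.) -/
theorem GenB.unique [Field K] {i j l : ι} {u : ι × Fin (n + 1) → K} {z z' : K} (h : GenB i j l u z)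
    (h' : GenB i j l u z') : z = z' := by
  obtain ⟨g, k, hg, hk, a, b, hab⟩ := h.col
  obtain ⟨g', k', hg', hk', -⟩ := h'.col
  by_contra hne
  have hzz : z' - z ≠ 0 := sub_ne_zero.2 (Ne.symm hne)
  have h1 : (z' - z) * g.eval z' = 0 := by
    have := congrArg (fun q : K[X] => q.eval z') (hg.symm.trans hg')
    simpa using this
  have h2 : (z' - z) * k.eval z' = 0 := by
    have := congrArg (fun q : K[X] => q.eval z') (hk.symm.trans hk')
    simpa using this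
  have h3 : g.eval z' = 0 := (mul_eq_zero.1 h1).resolve_left hzz
  have h4 : k.eval z' = 0 := (mul_eq_zero.1 h2).resolve_left hzz
  have h5 := congrArg (fun q : K[X] => q.eval z') hab
  simp [h3, h4] at h5

end

section

variable {ι : Type} {n : ℕ}

/-- The constant coefficients of `α_j` and `α_l` are replaced by that of `α_i`. -/
noncomputable def colB (i j l : ι) : ι × Fin (n + 1) → ι × Fin (n + 1) :=
  fun c => if c = (j, 0) ∨ c = (l, 0) then (i, 0) else c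

lemma spec_gdif_h95 {K : Type} [Field K] (s : ι × Fin (n + 1) → ι × Fin (n + 1))
    (u : ι × Fin (n + 1) → K) (a b : ι) :
    spec u (gdif (fun c => (MvPolynomial.X (s c) : MvPolynomial (ι × Fin (n + 1)) ℤ)) a b) =
      gdif (u ∘ s) a b := by
  unfold spec
  rw [gdif_map]
  congr 1
  funext c
  exact MvPolynomial.aeval_X u (s c)

lemma spec_divX_h95 {κ K : Type} [Field K] (u : κ → K) (f : (MvPolynomial κ ℤ)[X]) :
    spec u (divX f) = divX (spec u f) := by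
  unfold spec
  ext k
  rw [coeff_map, coeff_divX, coeff_divX, coeff_map]

lemma divX_X_mul_h95 (g : ℚ[X]) : divX (X * g) = g := by
  ext k
  rw [coeff_divX, coeff_X_mul]

/-- the point given by a family of polynomials -/
noncomputable def ptp_h95 (n : ℕ) (f : ι → ℚ[X]) : ι × Fin (n + 1) → ℚ :=
  fun x => (f x.1).coeff (x.2 : ℕ)

lemma gpol_ptp_h95 (f : ι → ℚ[X]) (hf : ∀ y, (f y).natDegree ≤ n) (y : ι) :
    gpol (ptp_h95 n f) y = f y := by
  ext k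
  by_cases hk : k < n + 1
  · exact gpol_coeff (n := n) (ptp_h95 n f) y ⟨k, hk⟩
  · rw [coeff_eq_zero_of_natDegree_lt, coeff_eq_zero_of_natDegree_lt]
    · exact lt_of_le_of_lt (hf y) (by omega)
    · exact lt_of_le_of_lt (gpol_natDegree_le _ _) (by omega)

lemma ptp_colB_h95 (f : ι → ℚ[X]) {i j l : ι} (h1 : (f j).coeff 0 = (f i).coeff 0)
    (h2 : (f l).coeff 0 = (f i).coeff 0) : ptp_h95 n f ∘ colB i j l = ptp_h95 n f := by
  funext c
  simp only [Function.comp, colB]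
  split_ifs with hc
  · rcases hc with rfl | rfl
    · simp [ptp_h95, h1]
    · simp [ptp_h95, h2]
  · rfl

lemma spec_ptp_h95 (f : ι → ℚ[X]) (hf : ∀ y, (f y).natDegree ≤ n) {i j l : ι}
    (h1 : (f j).coeff 0 = (f i).coeff 0) (h2 : (f l).coeff 0 = (f i).coeff 0) (a b : ι) :
    spec (ptp_h95 n f) (gdif (fun c => (MvPolynomial.X (colB i j l c) :
      MvPolynomial (ι × Fin (n + 1)) ℤ)) a b) = f a - f b := by
  rw [spec_gdif_h95, ptp_colB_h95 f h1 h2]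
  unfold gdif
  rw [gpol_ptp_h95 f hf, gpol_ptp_h95 f hf]

lemma cop_lin_h95 (m : ℕ) (A B A' B' : ℚ) (hD : A * B' - A' * B ≠ 0) :
    IsCoprime (C A * X ^ m + C B) (C A' * X ^ m + C B') := by
  refine ⟨C (-A' / (A * B' - A' * B)), C (A / (A * B' - A' * B)), ?_⟩
  have h1 : -A' / (A * B' - A' * B) * A + A / (A * B' - A' * B) * A' = 0 := by
    field_simp
    ring
  have h2 : -A' / (A * B' - A' * B) * B + A / (A * B' - A' * B) * B' = 1 := by
    field_simp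
    ring
  calc _ = C (-A' / (A * B' - A' * B) * A + A / (A * B' - A' * B) * A') * X ^ m +
        C (-A' / (A * B' - A' * B) * B + A / (A * B' - A' * B) * B') := by
        simp only [C_add, C_mul]
        ring
    _ = 1 := by
        rw [h1, h2]
        simp

lemma sep_h95 (hn : 2 ≤ n) (c : ℚ) (hc : c ≠ 0) : (C c * (X ^ n - X) : ℚ[X]).Separable := by
  obtain ⟨k, rfl⟩ : ∃ k, n = k + 2 := ⟨n - 2, by omega⟩
  have hk : ((k : ℚ) + 1) ≠ 0 := by positivity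
  have hd : derivative (C c * (X ^ (k + 2) - X) : ℚ[X]) =
      C c * (C ((k : ℚ) + 2) * X ^ (k + 1) - 1) := by
    rw [derivative_C_mul, derivative_sub, derivative_X_pow, derivative_X]
    congr 2
    · push_cast
      rfl
  unfold Separable
  rw [hd]
  refine ⟨C (1 / c * (-(((k : ℚ) + 2) ^ 2 / (k + 1)))) * X ^ k,
    C (1 / c) * (C (((k : ℚ) + 2) / (k + 1)) * X ^ (k + 1) - 1), ?_⟩
  have h1 : (C (1 / c) * C c : ℚ[X]) = 1 := by
    rw [← C_mul, one_div_mul_cancel hc, C_1]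
  have h2 : (C (-(((k : ℚ) + 2) ^ 2 / (k + 1))) + C ((k : ℚ) + 2) * C (((k : ℚ) + 2) / (k + 1)) :
      ℚ[X]) = 0 := by
    rw [← C_mul, ← C_add, ← C_0]
    congr 1
    field_simp
    ring
  have h3 : (-C (-(((k : ℚ) + 2) ^ 2 / (k + 1))) - C (((k : ℚ) + 2) / (k + 1)) -
      C ((k : ℚ) + 2) : ℚ[X]) = 0 := by
    rw [← C_neg, ← C_sub, ← C_sub, ← C_0]
    congr 1
    field_simp
    ring
  rw [C_mul]
  have e1 : (X : ℚ[X]) ^ (k + 2) = X ^ k * X ^ 2 := by rw [pow_add]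
  have e2 : (X : ℚ[X]) ^ (k + 1) = X ^ k * X := by rw [pow_succ]
  rw [e1, e2]
  linear_combination (X ^ k * X ^ k * X ^ 2 * (C (1 / c) * C c)) * h2 +
    (X ^ k * X * (C (1 / c) * C c)) * h3 + h1

lemma natDegree_f_h95 (m : ℕ) (A B : ℚ) : (C A * X ^ m + C B : ℚ[X]).natDegree ≤ m := by
  refine (natDegree_add_le _ _).trans (max_le (natDegree_C_mul_X_pow_le _ _) ?_)
  rw [natDegree_C]
  exact Nat.zero_le _

lemma gen_lead_h95 [Fintype ι] (hn : 2 ≤ n) (i j l : ι) :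
    IsGeneric (fun (K : Type) [Field K] (u : ι × Fin (n + 1) → K) =>
      ∀ t : ι × ι, t.1 ≠ t.2 → (u ∘ colB i j l) (t.1, Fin.last n) ≠
        (u ∘ colB i j l) (t.2, Fin.last n)) := by
  have hlast : ∀ a : ι, colB i j l (a, Fin.last n) = (a, Fin.last n) := by
    intro a
    unfold colB
    rw [if_neg]
    have h0 : Fin.last n ≠ 0 := by
      intro h
      have := congrArg Fin.val h
      simp at this
      omega
    rintro (h | h)
    · exact h0 (congrArg Prod.snd h)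
    · exact h0 (congrArg Prod.snd h)
  refine IsGeneric.all (C := fun (t : ι × ι) (K : Type) [Field K] (u : ι × Fin (n + 1) → K) =>
    t.1 ≠ t.2 → (u ∘ colB i j l) (t.1, Fin.last n) ≠ (u ∘ colB i j l) (t.2, Fin.last n)) ?_
  intro t
  by_cases ht : t.1 = t.2
  · exact IsGeneric.true.mono fun K _ u _ h => absurd ht h
  · refine (isGeneric_ne (MvPolynomial.X (t.1, Fin.last n) - MvPolynomial.X (t.2, Fin.last n))
      ⟨fun c => if c.1 = t.1 then 1 else 0, ?_⟩).mono ?_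
    · rw [map_sub, MvPolynomial.aeval_X, MvPolynomial.aeval_X]
      simp [Ne.symm ht]
    · intro K _ u h _ h'
      apply h
      rw [map_sub, MvPolynomial.aeval_X, MvPolynomial.aeval_X]
      simp only [Function.comp, hlast] at h'
      rw [h', sub_self]

lemma gen_sep_h95 [Fintype ι] (hn : 2 ≤ n) (i j l : ι) :
    IsGeneric (fun (K : Type) [Field K] (u : ι × Fin (n + 1) → K) =>
      ∀ t : ι × ι, t.1 ≠ t.2 → (gdif (u ∘ colB i j l) t.1 t.2).Separable) := by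
  refine IsGeneric.all (C := fun (t : ι × ι) (K : Type) [Field K] (u : ι × Fin (n + 1) → K) =>
    t.1 ≠ t.2 → (gdif (u ∘ colB i j l) t.1 t.2).Separable) ?_
  intro t
  by_cases ht : t.1 = t.2
  · exact IsGeneric.true.mono fun K _ u _ h => absurd ht h
  · set lam : ι → ℚ := fun y => if y = t.1 then 1 else 0 with hlam
    have hc : lam t.1 - lam t.2 ≠ 0 := by
      simp [hlam, Ne.symm ht]
    set f : ι → ℚ[X] := fun y => C (lam y) * (X ^ n - X) with hf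
    have hdeg : ∀ y, (f y).natDegree ≤ n := by
      intro y
      refine (natDegree_C_mul_le _ _).trans ((natDegree_sub_le _ _).trans (max_le ?_ ?_))
      · rw [natDegree_X_pow]
      · rw [natDegree_X]
        omega
    have h0 : ∀ y, (f y).coeff 0 = 0 := by
      intro y
      simp only [hf, coeff_C_mul, coeff_sub, coeff_X_zero, coeff_X_pow]
      rw [if_neg (by omega)]
      simp
    have hsp : spec (ptp_h95 n f) (gdif (fun c => (MvPolynomial.X (colB i j l c) :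
        MvPolynomial (ι × Fin (n + 1)) ℤ)) t.1 t.2) = C (lam t.1 - lam t.2) * (X ^ n - X) := by
      rw [spec_ptp_h95 f hdeg (by rw [h0, h0]) (by rw [h0, h0])]
      simp only [hf, C_sub]
      ring
    refine (isGeneric_separable (gdif (fun c => (MvPolynomial.X (colB i j l c) :
        MvPolynomial (ι × Fin (n + 1)) ℤ)) t.1 t.2) n (gdif_natDegree_le _ _ _)
        (ptp_h95 n f) ?_ ?_).mono ?_
    · rw [hsp, coeff_C_mul, coeff_sub, coeff_X_pow, if_pos rfl, coeff_X, if_neg (by omega),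
        sub_zero, mul_one]
      exact hc
    · rw [hsp]
      exact sep_h95 hn _ hc
    · intro K _ u h _
      rw [← spec_gdif_h95]
      exact h.2

lemma gen_col_h95 [Fintype ι] (hn : 2 ≤ n) {i j l : ι} (hij : i ≠ j) (hjl : j ≠ l) (hil : i ≠ l) :
    IsGeneric (fun (K : Type) [Field K] (u : ι × Fin (n + 1) → K) =>
      IsCoprime (divX (gdif (u ∘ colB i j l) i j)) (divX (gdif (u ∘ colB i j l) j l))) := by
  obtain ⟨m, rfl⟩ : ∃ m, n = m + 1 := ⟨n - 1, by omega⟩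
  set f : ι → ℚ[X] := fun y => if y = i then X ^ (m + 1) else if y = l then -(X ^ (m + 1)) - X
    else 0 with hf
  have hdeg : ∀ y, (f y).natDegree ≤ m + 1 := by
    intro y
    simp only [hf]
    split_ifs
    · rw [natDegree_X_pow]
    · refine (natDegree_sub_le _ _).trans (max_le ?_ ?_)
      · rw [natDegree_neg, natDegree_X_pow]
      · rw [natDegree_X]
        omega
    · simp
  have h0 : ∀ y, (f y).coeff 0 = 0 := by
    intro y
    simp only [hf]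
    split_ifs
    · simp [coeff_X_pow]
    · simp [coeff_X_pow]
    · simp
  have hfi : f i = X * X ^ m := by
    simp only [hf, if_pos]
    rw [pow_succ]
    ring
  have hfj : f j = 0 := by
    simp only [hf, if_neg hij.symm, if_neg hjl]
  have hfl : f l = -(X * (X ^ m + 1)) := by
    simp only [hf, if_neg hil.symm, if_pos]
    rw [pow_succ]
    ring
  have hsp : ∀ a b, spec (ptp_h95 (m + 1) f) (gdif (fun c => (MvPolynomial.X (colB i j l c) :
        MvPolynomial (ι × Fin (m + 1 + 1)) ℤ)) a b) = f a - f b := fun a b =>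
    spec_ptp_h95 f hdeg (by rw [h0, h0]) (by rw [h0, h0]) a b
  have hs1 : spec (ptp_h95 (m + 1) f) (divX (gdif (fun c => (MvPolynomial.X (colB i j l c) :
        MvPolynomial (ι × Fin (m + 1 + 1)) ℤ)) i j)) = X ^ m := by
    rw [spec_divX_h95, hsp, hfi, hfj, sub_zero, divX_X_mul_h95]
  have hs2 : spec (ptp_h95 (m + 1) f) (divX (gdif (fun c => (MvPolynomial.X (colB i j l c) :
        MvPolynomial (ι × Fin (m + 1 + 1)) ℤ)) j l)) = X ^ m + 1 := by
    rw [spec_divX_h95, hsp, hfj, hfl, zero_sub, neg_neg, divX_X_mul_h95]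
  refine (isGeneric_isCoprime (divX (gdif (fun c => (MvPolynomial.X (colB i j l c) :
        MvPolynomial (ι × Fin (m + 1 + 1)) ℤ)) i j)) (divX (gdif (fun c =>
        (MvPolynomial.X (colB i j l c) : MvPolynomial (ι × Fin (m + 1 + 1)) ℤ)) j l)) m m ?_ ?_
        (ptp_h95 (m + 1) f) ?_ ?_).mono ?_
  · rw [natDegree_divX_eq_natDegree_tsub_one]
    have := gdif_natDegree_le (n := m + 1) (fun c => (MvPolynomial.X (colB i j l c) :
        MvPolynomial (ι × Fin (m + 1 + 1)) ℤ)) i j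
    omega
  · rw [natDegree_divX_eq_natDegree_tsub_one]
    have := gdif_natDegree_le (n := m + 1) (fun c => (MvPolynomial.X (colB i j l c) :
        MvPolynomial (ι × Fin (m + 1 + 1)) ℤ)) j l
    omega
  · rw [hs1, coeff_X_pow, if_pos rfl]
    exact one_ne_zero
  · rw [hs1, hs2]
    exact ⟨-1, 1, by ring⟩
  · intro K _ u h
    rw [← spec_gdif_h95, ← spec_gdif_h95, ← spec_divX_h95, ← spec_divX_h95]
    exact h.2

lemma cop_num_h95 (lam : ι → ℚ) (hlam : Function.Injective lam) {a b c d x : ι} (hab : a ≠ b)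
    (hcd : c ≠ d) (hne : ({a, b} : Set ι) ≠ {c, d}) (hx : x = a ∨ x = b ∨ x = c ∨ x = d) :
    (lam a - lam b) * ((if c = x then 1 else 0) - (if d = x then 1 else 0)) -
      (lam c - lam d) * ((if a = x then 1 else 0) - (if b = x then 1 else 0)) ≠ (0 : ℚ) := by
  have h1 : lam a - lam b ≠ 0 := fun h => hab (hlam (sub_eq_zero.1 h))
  have h2 : lam c - lam d ≠ 0 := fun h => hcd (hlam (sub_eq_zero.1 h))
  by_cases ha : a = x
  · have hb : ¬ b = x := fun h => hab (ha.trans h.symm)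
    rw [if_pos ha, if_neg hb]
    by_cases hc : c = x
    · have hd : ¬ d = x := fun h => hcd (hc.trans h.symm)
      rw [if_pos hc, if_neg hd]
      intro h
      have hbd : b = d := by
        apply hlam
        rw [ha, hc] at h
        linarith
      apply hne
      rw [ha, hc, hbd]
    · by_cases hd : d = x
      · rw [if_neg hc, if_pos hd]
        intro h
        have hbc : b = c := by
          apply hlam
          rw [ha, hd] at h
          linarith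
        apply hne
        rw [ha, hd, hbc, Set.pair_comm]
      · rw [if_neg hc, if_neg hd]
        intro h
        apply h2
        linarith
  · by_cases hb : b = x
    · rw [if_neg ha, if_pos hb]
      by_cases hc : c = x
      · have hd : ¬ d = x := fun h => hcd (hc.trans h.symm)
        rw [if_pos hc, if_neg hd]
        intro h
        have had : a = d := by
          apply hlam
          rw [hb, hc] at h
          linarith
        apply hne
        rw [hb, hc, had, Set.pair_comm]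
      · by_cases hd : d = x
        · rw [if_neg hc, if_pos hd]
          intro h
          have hac : a = c := by
            apply hlam
            rw [hb, hd] at h
            linarith
          apply hne
          rw [hb, hd, hac]
        · rw [if_neg hc, if_neg hd]
          intro h
          apply h2
          linarith
    · rw [if_neg ha, if_neg hb]
      have hcd' : x = c ∨ x = d := by
        rcases hx with h | h | h | h
        · exact absurd h.symm ha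
        · exact absurd h.symm hb
        · exact Or.inl h
        · exact Or.inr h
      rcases hcd' with h | h
      · have hd : ¬ d = x := fun h' => hcd (h.symm.trans h'.symm)
        rw [if_pos h.symm, if_neg hd]
        intro h'
        apply h1
        linarith
      · have hc : ¬ c = x := fun h' => hcd (h'.trans h)
        rw [if_neg hc, if_pos h.symm]
        intro h'
        apply h1
        linarith

lemma gen_cop_h95 [Fintype ι] (hn : 2 ≤ n) (i j l : ι) :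
    IsGeneric (fun (K : Type) [Field K] (u : ι × Fin (n + 1) → K) =>
      ∀ t : (ι × ι) × (ι × ι), t.1.1 ≠ t.1.2 → t.2.1 ≠ t.2.2 →
        ({t.1.1, t.1.2} : Set ι) ≠ {t.2.1, t.2.2} →
        ¬ ({t.1.1, t.1.2, t.2.1, t.2.2} : Set ι) ⊆ {i, j, l} →
        IsCoprime (gdif (u ∘ colB i j l) t.1.1 t.1.2) (gdif (u ∘ colB i j l) t.2.1 t.2.2)) := by
  refine IsGeneric.all (C := fun (t : (ι × ι) × (ι × ι)) (K : Type) [Field K]
    (u : ι × Fin (n + 1) → K) => t.1.1 ≠ t.1.2 → t.2.1 ≠ t.2.2 →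
        ({t.1.1, t.1.2} : Set ι) ≠ {t.2.1, t.2.2} →
        ¬ ({t.1.1, t.1.2, t.2.1, t.2.2} : Set ι) ⊆ {i, j, l} →
        IsCoprime (gdif (u ∘ colB i j l) t.1.1 t.1.2) (gdif (u ∘ colB i j l) t.2.1 t.2.2)) ?_
  rintro ⟨⟨a, b⟩, ⟨c, d⟩⟩
  by_cases hyp : a ≠ b ∧ c ≠ d ∧ ({a, b} : Set ι) ≠ {c, d} ∧
      ¬ ({a, b, c, d} : Set ι) ⊆ {i, j, l}
  swap
  · exact IsGeneric.true.mono fun K _ u _ h1 h2 h3 h4 => absurd ⟨h1, h2, h3, h4⟩ hyp
  obtain ⟨hab, hcd, hne, hsub⟩ := hyp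
  obtain ⟨x, hx, hxn⟩ := Set.not_subset.1 hsub
  have hx' : x = a ∨ x = b ∨ x = c ∨ x = d := by simpa using hx
  have hxi : ¬ i = x := by
    rintro rfl
    exact hxn (by simp)
  have hxj : ¬ j = x := by
    rintro rfl
    exact hxn (by simp)
  have hxl : ¬ l = x := by
    rintro rfl
    exact hxn (by simp)
  obtain ⟨lam, hlam⟩ : ∃ lam : ι → ℚ, Function.Injective lam := by
    refine ⟨fun y => (((Fintype.equivFin ι y : Fin (Fintype.card ι)) : ℕ) : ℚ), ?_⟩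
    intro y y' h
    apply (Fintype.equivFin ι).injective
    apply Fin.ext
    exact Nat.cast_injective (R := ℚ) h
  set f : ι → ℚ[X] := fun y => C (lam y) * X ^ n + C (if y = x then 1 else 0) with hf
  have hdeg : ∀ y, (f y).natDegree ≤ n := fun y => natDegree_f_h95 n _ _
  have h0 : ∀ y, ¬ y = x → (f y).coeff 0 = 0 := by
    intro y hy
    simp only [hf, if_neg hy, coeff_add, coeff_C_mul, coeff_X_pow, C_0, coeff_zero]
    rw [if_neg (by omega)]
    simp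
  have hsp : ∀ y z, spec (ptp_h95 n f) (gdif (fun c => (MvPolynomial.X (colB i j l c) :
        MvPolynomial (ι × Fin (n + 1)) ℤ)) y z) = C (lam y - lam z) * X ^ n +
        C ((if y = x then 1 else 0) - (if z = x then 1 else 0)) := by
    intro y z
    rw [spec_ptp_h95 f hdeg (by rw [h0 j hxj, h0 i hxi]) (by rw [h0 l hxl, h0 i hxi])]
    simp only [hf, C_sub]
    ring
  refine (isGeneric_isCoprime (gdif (fun c => (MvPolynomial.X (colB i j l c) :
        MvPolynomial (ι × Fin (n + 1)) ℤ)) a b) (gdif (fun c => (MvPolynomial.X (colB i j l c) :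
        MvPolynomial (ι × Fin (n + 1)) ℤ)) c d) n n (gdif_natDegree_le _ _ _)
        (gdif_natDegree_le _ _ _) (ptp_h95 n f) ?_ ?_).mono ?_
  · rw [hsp, coeff_add, coeff_C_mul, coeff_X_pow, if_pos rfl, coeff_C, if_neg (by omega), add_zero,
      mul_one]
    exact fun h => hab (hlam (sub_eq_zero.1 h))
  · rw [hsp, hsp]
    exact cop_lin_h95 n _ _ _ _ (cop_num_h95 lam hlam hab hcd hne hx')
  · intro K _ u h _ _ _ _
    rw [← spec_gdif_h95, ← spec_gdif_h95]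
    exact h.2

/-- The generic condition. By `IsGeneric.all`, `IsGeneric.and`: (lead) the polynomial
`X_(a,n) - X_(b,n)`. For the other ones, the polynomials are `gdif (MvPolynomial.X ∘ s) a b` over
`MvPolynomial κ ℤ` (`gdif_map`: their values at `u` are the `gdif (u ∘ s) a b`), and it is enough to
find for every condition one rational point `u₀` with `u₀ ∘ s = u₀` where it holds. (sep): all
`α_y = λ_y (X ^ n - X)` with an injective `λ : ι → ℚ`. (cop): there is `x ∉ {i, j, l}` with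
`x ∈ {a, b, c, d}`: take `α_y = λ_y X ^ n` for `y ≠ x` and `α_x = λ_x X ^ n + 1`; two differences
`A X ^ n + B` and `A' X ^ n + B'` with `A ≠ 0` and `A B' ≠ A' B` are coprime, and
`A B' - A' B = ± (λ - λ')` for two different indices. (col): `α_i = X ^ n`, `α_j = 0`,
`α_l = -X ^ n - X` (and anything for the others): `gdif i j = X * X ^ (n - 1)`,
`gdif j l = X * (X ^ (n - 1) + 1)`; use `divX` (`Polynomial.divX`) for the quotients by `X`, the constant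
coefficients being zero. -/
theorem isGeneric_genB [Fintype ι] (hn : 2 ≤ n) {i j l : ι} (hij : i ≠ j) (hjl : j ≠ l)
    (hil : i ≠ l) :
    IsGeneric (fun (K : Type) [Field K] (u : ι × Fin (n + 1) → K) =>
      GenB i j l (u ∘ colB i j l) 0) := by
  refine ((gen_lead_h95 hn i j l).and ((gen_sep_h95 hn i j l).and ((gen_cop_h95 hn i j l).and
    (gen_col_h95 hn hij hjl hil)))).mono ?_
  rintro K _ u ⟨h1, h2, h3, h4⟩
  have hj0 : colB i j l (j, (0 : Fin (n + 1))) = (i, 0) := by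
    unfold colB
    rw [if_pos (Or.inl rfl)]
  have hl0 : colB i j l (l, (0 : Fin (n + 1))) = (i, 0) := by
    unfold colB
    rw [if_pos (Or.inr rfl)]
  have hi0 : colB i j l (i, (0 : Fin (n + 1))) = (i, 0) := by
    unfold colB
    rw [if_neg]
    rintro (h | h)
    · exact hij (congrArg Prod.fst h)
    · exact hil (congrArg Prod.fst h)
  have hdiv : ∀ g : K[X], g.coeff 0 = 0 → g = (X - C 0) * divX g := by
    intro g hg
    have h5 := divX_mul_X_add g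
    rw [hg, C_0, add_zero] at h5
    rw [C_0, sub_zero, mul_comm]
    exact h5.symm
  refine ⟨fun a b hab => h1 (a, b) hab, fun a b hab => h2 (a, b) hab,
    fun a b c d hab hcd h5 h6 => h3 ((a, b), (c, d)) hab hcd h5 h6,
    divX (gdif (u ∘ colB i j l) i j), divX (gdif (u ∘ colB i j l) j l), ?_, ?_, h4⟩
  · apply hdiv
    have h5 := gdif_coeff (u ∘ colB i j l) i j 0
    rw [Fin.val_zero] at h5
    rw [h5]
    simp only [Function.comp, hi0, hj0, sub_self]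
  · apply hdiv
    have h5 := gdif_coeff (u ∘ colB i j l) j l 0
    rw [Fin.val_zero] at h5
    rw [h5]
    simp only [Function.comp, hl0, hj0, sub_self]

/-- The families of type B modulo `p ^ 2`. -/
def TypeBz (p : ℕ) (i j l : ι) (w : ι × Fin (n + 1) → ZMod (p ^ 2)) : Prop :=
  ∃ z : ZMod (p ^ 2),
    GenB i j l (redp p w) (ZMod.castHom (dvd_pow_self p two_ne_zero) (ZMod p) z) ∧
      (gdif w i j).eval z = 0 ∧ (gdif w j l).eval z ≠ 0

lemma redp_intCast_h95 {κ : Type} {p : ℕ} (v : κ → ℤ) :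
    redp p (fun c => (v c : ZMod (p ^ 2))) = fun c => ((v c : ℤ) : ZMod p) := by
  funext c
  simp only [redp, map_intCast]

lemma gred_eq_h95 {p : ℕ} (v : ι × Fin (n + 1) → ℤ) (a b : ι) :
    gred p v a b = gdif (redp p (fun c => (v c : ZMod (p ^ 2)))) a b := by
  rw [redp_intCast_h95]
  unfold gred
  rw [gdif_map]
  rfl

lemma gdif_redp_h95 {p : ℕ} (w : ι × Fin (n + 1) → ZMod (p ^ 2)) (a b : ι) :
    (gdif w a b).map (ZMod.castHom (dvd_pow_self p two_ne_zero) (ZMod p)) =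
      gdif (redp p w) a b := by
  rw [gdif_map]
  rfl

lemma castHom_sq_h95 {p : ℕ} (x : ZMod (p ^ 2))
    (hx : ZMod.castHom (dvd_pow_self p two_ne_zero) (ZMod p) x = 0) : x ^ 2 = 0 := by
  obtain ⟨y, rfl⟩ := ZMod.intCast_surjective x
  rw [map_intCast, ZMod.intCast_zmod_eq_zero_iff_dvd] at hx
  have h1 : ((p ^ 2 : ℕ) : ℤ) ∣ y ^ 2 := by
    push_cast
    exact pow_dvd_pow_of_dvd hx 2
  have h2 := (ZMod.intCast_zmod_eq_zero_iff_dvd (y ^ 2) (p ^ 2)).2 h1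
  push_cast at h2
  exact h2

lemma castHom_isUnit_h95 {p : ℕ} (hp : p.Prime) (x : ZMod (p ^ 2))
    (hx : ZMod.castHom (dvd_pow_self p two_ne_zero) (ZMod p) x ≠ 0) : IsUnit x := by
  obtain ⟨y, rfl⟩ := ZMod.intCast_surjective x
  rw [map_intCast, Ne, ZMod.intCast_zmod_eq_zero_iff_dvd] at hx
  rw [ZMod.coe_int_isUnit_iff_isCoprime]
  push_cast
  apply IsCoprime.pow_left
  exact (Prime.coprime_iff_not_dvd (Nat.prime_iff_prime_int.1 hp)).2 hx

/-- The root of a simple root modulo `p` modulo `p ^ 2`. -/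
lemma hensel_h95 {p : ℕ} (hp : p.Prime) (f : (ZMod (p ^ 2))[X]) (z₀ : ZMod (p ^ 2))
    (h0 : ZMod.castHom (dvd_pow_self p two_ne_zero) (ZMod p) (f.eval z₀) = 0)
    (h1 : ZMod.castHom (dvd_pow_self p two_ne_zero) (ZMod p) (f.derivative.eval z₀) ≠ 0) :
    ∃ z, f.eval z = 0 ∧ ZMod.castHom (dvd_pow_self p two_ne_zero) (ZMod p) z =
      ZMod.castHom (dvd_pow_self p two_ne_zero) (ZMod p) z₀ := by
  obtain ⟨y, hy⟩ := (castHom_isUnit_h95 hp _ h1).exists_right_inv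
  refine ⟨z₀ + (-(f.eval z₀) * y), ?_, ?_⟩
  · obtain ⟨k, hk⟩ := f.binomExpansion z₀ (-(f.eval z₀) * y)
    have h2 : (f.eval z₀) ^ 2 = 0 := castHom_sq_h95 _ h0
    rw [hk]
    calc f.eval z₀ + f.derivative.eval z₀ * (-(f.eval z₀) * y) + k * (-(f.eval z₀) * y) ^ 2 =
        f.eval z₀ * (1 - f.derivative.eval z₀ * y) + k * y ^ 2 * (f.eval z₀) ^ 2 := by ring
      _ = 0 := by rw [hy, h2]; ring
  · rw [map_add, map_mul, map_neg, h0]
    simp

/-- If `w` lifts a good family modulo `p` but is not of type B, then `w + p` at the constant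
coefficient of `α_l` is: by Hensel's lemma (`f'(z) ≠ 0` modulo `p` since `gdif i j` is separable:
replace a lift `z` by `z - f(z) / f'(z)`), there is a lift `z` with `(gdif w i j).eval z = 0`; as `w` is
not of type B, `(gdif w j l).eval z = 0`; adding `p` to the constant coefficient of `α_l` does not change
`gdif w i j` and subtracts `p ≠ 0` from `(gdif w j l).eval z`. -/
theorem TypeBz.flip {p : ℕ} (hp : p.Prime) {i j l : ι} (hij : i ≠ j) (hjl : j ≠ l) (hil : i ≠ l)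
    (w : ι × Fin (n + 1) → ZMod (p ^ 2)) (h : ∃ z, GenB i j l (redp p w) z)
    (hw : ¬ TypeBz p i j l w) :
    TypeBz p i j l (Function.update w (l, 0) (w (l, 0) + (p : ZMod (p ^ 2)))) := by
  have : Fact p.Prime := ⟨hp⟩
  obtain ⟨zb, hz⟩ := h
  set φ := ZMod.castHom (dvd_pow_self p two_ne_zero) (ZMod p) with hφ
  obtain ⟨z₀, hz₀⟩ := ZMod.castHom_surjective (dvd_pow_self p two_ne_zero) zb
  obtain ⟨g, h, hg, hh, hgh⟩ := hz.col
  have hsep := hz.sep i j hij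
  have hev : ∀ (f : (ZMod (p ^ 2))[X]) (z : ZMod (p ^ 2)), φ (f.eval z) = (f.map φ).eval (φ z) := by
    intro f z
    rw [Polynomial.eval_map, Polynomial.eval₂_at_apply]
  have h0 : φ ((gdif w i j).eval z₀) = 0 := by
    rw [hev, gdif_redp_h95, hφ, hz₀, hg]
    simp
  have h1 : φ ((gdif w i j).derivative.eval z₀) ≠ 0 := by
    rw [hev, ← Polynomial.derivative_map, gdif_redp_h95, hφ, hz₀]
    intro h2
    have h3 : (gdif (redp p w) i j).eval zb = 0 := by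
      rw [hg]
      simp
    obtain ⟨a, b, hab⟩ := hsep
    have h4 := congrArg (Polynomial.eval zb) hab
    rw [eval_add, eval_mul, eval_mul, h2, h3, eval_one, mul_zero, mul_zero, add_zero] at h4
    exact zero_ne_one h4
  obtain ⟨z, hz1, hz2⟩ := hensel_h95 hp (gdif w i j) z₀ h0 h1
  rw [hz₀] at hz2
  have hB : GenB i j l (redp p w) (φ z) := by
    rw [hφ, hz2]
    exact hz
  have hjl0 : (gdif w j l).eval z = 0 := by
    by_contra hne
    exact hw ⟨z, hB, hz1, hne⟩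
  have hred : redp p (Function.update w (l, 0) (w (l, 0) + (p : ZMod (p ^ 2)))) = redp p w := by
    funext c
    by_cases hc : c = (l, 0)
    · subst hc
      simp only [redp, Function.update_self, map_add, map_natCast, CharP.cast_eq_zero, add_zero]
    · simp only [redp, Function.update_of_ne hc]
  have hpol : ∀ a, a ≠ l → gpol (Function.update w (l, 0) (w (l, 0) + (p : ZMod (p ^ 2)))) a =
      gpol w a := by
    intro a ha
    unfold gpol
    refine Finset.sum_congr rfl fun k _ => ?_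
    rw [Function.update_of_ne]
    intro hk
    exact ha (congrArg Prod.fst hk)
  have hpoll : gpol (Function.update w (l, 0) (w (l, 0) + (p : ZMod (p ^ 2)))) l =
      gpol w l + C (p : ZMod (p ^ 2)) := by
    unfold gpol
    rw [Fin.sum_univ_succ, Fin.sum_univ_succ, Function.update_self]
    have h2 : ∀ k : Fin n, Function.update w (l, (0 : Fin (n + 1))) (w (l, 0) + (p : ZMod (p ^ 2)))
        (l, k.succ) = w (l, k.succ) := by
      intro k
      rw [Function.update_of_ne]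
      intro hk
      exact (Fin.succ_ne_zero k) (congrArg Prod.snd hk)
    simp only [h2, Fin.val_zero, pow_zero, mul_one, C_add]
    ring
  refine ⟨z, ?_, ?_, ?_⟩
  · rw [hred]
    exact hB
  · unfold gdif
    rw [hpol i hil, hpol j hjl]
    exact hz1
  · unfold gdif
    rw [hpol j hjl, hpoll, ← sub_sub]
    change ((gdif w j l) - C (p : ZMod (p ^ 2))).eval z ≠ 0
    rw [eval_sub, hjl0, eval_C, zero_sub, neg_ne_zero]
    intro h2
    rw [ZMod.natCast_eq_zero_iff] at h2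
    have h3 := Nat.le_of_dvd hp.pos h2
    have h4 : p * 1 < p * p := Nat.mul_lt_mul_of_pos_left hp.one_lt hp.pos
    rw [pow_two] at h3
    omega

/-- From the residues modulo `p ^ 2` to the integers. -/
theorem TypeB.of_z {p : ℕ} (hp : p.Prime) {i j l : ι} {v : ι × Fin (n + 1) → ℤ}
    (h : TypeBz p i j l (fun c => (v c : ZMod (p ^ 2)))) : TypeB p i j l v := by
  obtain ⟨z, hB, h1, h2⟩ := h
  have hgred : ∀ a b, gred p v a b = gdif (redp p (fun c => (v c : ZMod (p ^ 2)))) a b :=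
    fun a b => gred_eq_h95 v a b
  obtain ⟨y, rfl⟩ := ZMod.intCast_surjective z
  have hev : ∀ a b, (gdif (fun c => ((v c : ℤ) : ZMod (p ^ 2))) a b).eval ((y : ℤ) : ZMod (p ^ 2)) =
      (((gdif v a b).eval y : ℤ) : ZMod (p ^ 2)) := by
    intro a b
    have h3 := gdif_map (Int.castRingHom (ZMod (p ^ 2))) v a b
    have h4 : (gdif (fun c => ((v c : ℤ) : ZMod (p ^ 2))) a b) =
        (gdif v a b).map (Int.castRingHom (ZMod (p ^ 2))) := h3.symm
    rw [h4, Polynomial.eval_map]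
    exact Polynomial.eval₂_at_apply (Int.castRingHom (ZMod (p ^ 2))) y
  have hpp : ((p ^ 2 : ℕ) : ℤ) = (p : ℤ) ^ 2 := by push_cast; ring
  obtain ⟨g, h, hg, hh, hgh⟩ := hB.col
  rw [map_intCast] at hg hh
  refine ⟨?_, ?_, ?_, y, ?_, ?_, ?_, g, h, ?_, ?_, hgh⟩
  · intro a b hab hdvd
    apply hB.lead a b hab
    rw [redp_intCast_h95]
    have h3 := (ZMod.intCast_zmod_eq_zero_iff_dvd _ p).2 hdvd
    push_cast at h3
    exact sub_eq_zero.1 h3
  · intro a b hab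
    rw [hgred]
    exact hB.sep a b hab
  · intro a b c d hab hcd h3 h4
    rw [hgred, hgred]
    exact hB.cop a b c d hab hcd h3 h4
  · rw [hev] at h1
    rw [← hpp]
    exact (ZMod.intCast_zmod_eq_zero_iff_dvd _ _).1 h1
  · rw [← ZMod.intCast_zmod_eq_zero_iff_dvd]
    have h3 : (((gdif v j l).eval y : ℤ) : ZMod p) = (gred p v j l).eval ((y : ℤ) : ZMod p) := by
      unfold gred
      rw [Polynomial.eval_map]
      exact (Polynomial.eval₂_at_apply (Int.castRingHom (ZMod p)) y).symm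
    rw [h3, hgred, hh]
    simp
  · intro hdvd
    apply h2
    rw [hev]
    apply (ZMod.intCast_zmod_eq_zero_iff_dvd _ _).2
    rw [hpp]
    exact hdvd
  · rw [hgred]
    exact hg
  · rw [hgred]
    exact hh

/-- The count (`count_scheme`). -/
theorem count_typeB [Fintype ι] (hn : 2 ≤ n) {i j l : ι} (hij : i ≠ j) (hjl : j ≠ l)
    (hil : i ≠ l) :
    ∃ P₀ : ℕ, ∀ p : ℕ, p.Prime → P₀ ≤ p →
      (1 / 4 : ℝ) / p * ((p ^ 2 : ℕ) : ℝ) ^ Fintype.card (ι × Fin (n + 1)) ≤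
        ({w : ι × Fin (n + 1) → ZMod (p ^ 2) | TypeBz p i j l w}).ncard := by
  obtain ⟨Δ, hΔ, hgen⟩ := isGeneric_genB (n := n) hn hij hjl hil
  have hl0 : ∀ c : ι × Fin (n + 1), colB i j l (colB i j l c) = colB i j l c := by
    intro c
    unfold colB
    by_cases hc : c = (j, 0) ∨ c = (l, 0)
    · rw [if_pos hc, if_neg]
      rintro (h | h)
      · exact hij (congrArg Prod.fst h)
      · exact hil (congrArg Prod.fst h)
    · rw [if_neg hc, if_neg hc]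
  refine count_scheme (colB i j l) (j, 0) (l, 0) (l, 0) hl0 ?_ Δ hΔ
    (fun p u z => GenB i j l u z) ?_ ?_ ?_ (fun p => {w | TypeBz p i j l w}) ?_
  · intro c h1 h2
    unfold colB
    rw [if_neg]
    rintro (h | h)
    · exact h1 h
    · exact h2 h
  · intro p hp u z
    have : Fact p.Prime := ⟨hp⟩
    exact GenB.shift_iff i j l u z
  · intro p hp u z z' h h'
    have : Fact p.Prime := ⟨hp⟩
    exact GenB.unique h h'
  · intro p hp u hu
    have : Fact p.Prime := ⟨hp⟩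
    exact hgen (ZMod p) u hu
  · intro p hp w h hw
    exact TypeBz.flip hp hij hjl hil w h hw

end

end Pool.Agent.Lib.MP_89bcae_ag

end

section

namespace Pool.Agent.Lib.MP_89bcae_ag.Tri

variable {ℓ : ℕ} [Fact ℓ.Prime] {w₁ w₂ w₃ x y : ZMod ℓ}

/-- The sum of the two forms. -/
private noncomputable def B2_h13 (w₁ w₂ w₃ : ZMod ℓ) :
    LinearMap.BilinForm (ZMod ℓ) ((Fin 3 → ZMod ℓ) × (Fin 3 → ZMod ℓ)) :=
  LinearMap.mk₂ (ZMod ℓ) (fun P Q => bf w₁ w₂ w₃ P.1 Q.1 + bf w₁ w₂ w₃ P.2 Q.2)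
    (by intro a b c; simp only [bf, Prod.fst_add, Prod.snd_add, Pi.add_apply]; ring)
    (by intro a b c; simp only [bf, Prod.smul_fst, Prod.smul_snd, Pi.smul_apply, smul_eq_mul]; ring)
    (by intro a b c; simp only [bf, Prod.fst_add, Prod.snd_add, Pi.add_apply]; ring)
    (by intro a b c; simp only [bf, Prod.smul_fst, Prod.smul_snd, Pi.smul_apply, smul_eq_mul]; ring)

private theorem B2_apply_h13 (w₁ w₂ w₃ : ZMod ℓ) (P Q : (Fin 3 → ZMod ℓ) × (Fin 3 → ZMod ℓ)) :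
    B2_h13 w₁ w₂ w₃ P Q = bf w₁ w₂ w₃ P.1 Q.1 + bf w₁ w₂ w₃ P.2 Q.2 := rfl

private theorem bf_symm_h13 (w₁ w₂ w₃ : ZMod ℓ) (X Y : Fin 3 → ZMod ℓ) :
    bf w₁ w₂ w₃ X Y = bf w₁ w₂ w₃ Y X := by
  unfold bf
  ring

private theorem e0_zero_h13 : (e0 : Fin 3 → ZMod ℓ) 0 = 1 := rfl
private theorem e0_one_h13 : (e0 : Fin 3 → ZMod ℓ) 1 = 0 := rfl
private theorem e0_two_h13 : (e0 : Fin 3 → ZMod ℓ) 2 = 0 := rfl

private theorem B2_u_h13 (w₁ w₂ w₃ : ZMod ℓ) (P : (Fin 3 → ZMod ℓ) × (Fin 3 → ZMod ℓ)) :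
    B2_h13 w₁ w₂ w₃ P (e0, -e0) = w₁ * w₂ * (P.1 0 - P.2 0) := by
  rw [B2_apply_h13]
  simp only [bf, Pi.neg_apply, e0_zero_h13, e0_one_h13, e0_two_h13]
  ring

/-- **Two copies.** `c₁`, `c₂` are such that `t₁ = z₀ - 1`, `t₂ = z₀ + 1`. Proof: `pencil` for
`V = (Fin 3 → ZMod ℓ) × (Fin 3 → ZMod ℓ)`, `T (X, Y) = (Tc c₁ X, Tc c₂ Y)`, `B` the sum of the two forms `bf`,
`u = (e0, - e0)`; `B (X, Y) u = w₁ w₂ (X₀ - Y₀)`; take `D = w₁ w₂ y'` for the `y'` of `pencil`. `h1`: if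
`T (X, Y) = z (X, Y)` then by `eigenvector` `X = 0` or `z = t₁`, `X = m τ`, and `Y = 0` or `z = t₂`, `Y = m' τ`;
`t₁ ≠ t₂` (`2 ≠ 0`), so one of them is `0`, and `X₀ = Y₀` gives `m w₃ = 0` (or `m' w₃ = 0`), so both are `0`.
`h2`: `exists_resolvent` for `c₁`, `s = 1` gives `X` with `X₀ = (w₃ / W) / (z₀ - t₁) = w₃ / W`, and for `c₂`,
`s = -1` it gives `Y` with `Y₀ = - (w₃ / W) / (z₀ - t₂) = w₃ / W`; so `T (X, Y) = z₀ (X, Y) - u` and
`B (X, Y) u = 0`; `(X, Y) ≠ 0` since `X₀ ≠ 0`. -/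
theorem exists_two (hℓ2 : ℓ ≠ 2) (h1 : w₁ ≠ 0) (h2 : w₂ ≠ 0) (h3 : w₃ ≠ 0) (h12 : w₁ + w₂ ≠ 0)
    (hW : w₁ + w₂ + w₃ ≠ 0) (hy : y ≠ 0) (hL : ∀ z, Lz w₁ w₂ w₃ x y z ≠ 0) {z₀ c₁ c₂ : ZMod ℓ}
    (hz : z₀ = (w₂ + w₃) * y - w₁ * w₃ * y / (w₁ + w₂))
    (ht₁ : (w₁ + w₂ + w₃) * c₁ - w₃ * x - w₁ * y = z₀ - 1)
    (ht₂ : (w₁ + w₂ + w₃) * c₂ - w₃ * x - w₁ * y = z₀ + 1) :
    ∃ D : ZMod ℓ, ∀ (X Y : Fin 3 → ZMod ℓ) (z : ZMod ℓ),
      Tc w₁ w₂ w₃ x y c₁ X + (D * (X 0 - Y 0)) • e0 = z • X →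
      Tc w₁ w₂ w₃ x y c₂ Y + (D * (Y 0 - X 0)) • e0 = z • Y → X = 0 ∧ Y = 0 := by
  have h20 : (2 : ZMod ℓ) ≠ 0 := by
    intro h
    have h' : ((2 : ℕ) : ZMod ℓ) = 0 := by exact_mod_cast h
    rw [ZMod.natCast_eq_zero_iff] at h'
    exact hℓ2 ((Nat.prime_dvd_prime_iff_eq (Fact.out : ℓ.Prime) Nat.prime_two).1 h')
  have hw12 : w₁ * w₂ ≠ 0 := mul_ne_zero h1 h2
  have htau : ∀ (m : ZMod ℓ) (Z : Fin 3 → ZMod ℓ), Z = m • ![w₃, w₁, w₂] → Z 0 = 0 → Z = 0 := by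
    intro m Z hZ h0
    rw [hZ] at h0
    simp only [Pi.smul_apply, Matrix.cons_val_zero, smul_eq_mul] at h0
    have hm : m = 0 := (mul_eq_zero.1 h0).resolve_right h3
    rw [hZ, hm, zero_smul]
  obtain ⟨y', hy'⟩ := pencil
    (fun P : (Fin 3 → ZMod ℓ) × (Fin 3 → ZMod ℓ) => (Tc w₁ w₂ w₃ x y c₁ P.1, Tc w₁ w₂ w₃ x y c₂ P.2))
    (B2_h13 w₁ w₂ w₃) (by
      intro P Q
      rw [B2_apply_h13, B2_apply_h13, bf_symm_h13 _ _ _ P.1, bf_symm_h13 _ _ _ P.2]) (by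
      intro P Q
      rw [B2_apply_h13, B2_apply_h13]
      simp only
      rw [bf_Tc, bf_Tc]) (e0, -e0) (by
      intro P z hT hB
      rw [B2_u_h13] at hB
      have h0 : P.1 0 = P.2 0 := sub_eq_zero.1 ((mul_eq_zero.1 hB).resolve_left hw12)
      have e1 : Tc w₁ w₂ w₃ x y c₁ P.1 = z • P.1 := congrArg Prod.fst hT
      have e2 : Tc w₁ w₂ w₃ x y c₂ P.2 = z • P.2 := congrArg Prod.snd hT
      rcases eigenvector hW (hL z) e1 with a1 | ⟨a1, a1'⟩
      · rcases eigenvector hW (hL z) e2 with a2 | ⟨a2, a2'⟩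
        · exact Prod.ext a1 a2
        · refine Prod.ext a1 (htau _ _ a2' ?_)
          rw [← h0, a1]
          rfl
      · rcases eigenvector hW (hL z) e2 with a2 | ⟨a2, a2'⟩
        · refine Prod.ext (htau _ _ a1' ?_) a2
          rw [h0, a2]
          rfl
        · exfalso
          apply h20
          rw [ht₁] at a1
          rw [ht₂] at a2
          linear_combination a1 - a2) (by
      obtain ⟨X, hX, hX0⟩ := exists_resolvent (x := x) (c := c₁) (s := 1) (t := z₀ - 1) h1 h3 h12 hW hy hz ht₁.symm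
        (by intro h; exact one_ne_zero (α := ZMod ℓ) (by linear_combination h))
      obtain ⟨Y, hY, hY0⟩ := exists_resolvent (x := x) (c := c₂) (s := -1) (t := z₀ + 1) h1 h3 h12 hW hy hz ht₂.symm
        (by intro h; exact one_ne_zero (α := ZMod ℓ) (by linear_combination -h))
      have e1 : X 0 = w₃ / (w₁ + w₂ + w₃) := by
        rw [hX0, sub_sub_cancel, div_one, mul_one]
      have e2 : Y 0 = w₃ / (w₁ + w₂ + w₃) := by
        rw [hY0, sub_add_cancel_left, mul_neg, mul_one, neg_div_neg_eq, div_one]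
      refine ⟨(X, Y), z₀, -1, ?_, ?_, ?_⟩
      · intro h
        have h' : X = 0 := congrArg Prod.fst h
        rw [h'] at e1
        exact div_ne_zero h3 hW e1.symm
      · refine Prod.ext ?_ ?_
        · simp only [Prod.fst_add, Prod.smul_fst]
          rw [← hX]
          module
        · simp only [Prod.snd_add, Prod.smul_snd]
          rw [← hY]
          module
      · rw [B2_u_h13]
        simp only
        rw [e1, e2, sub_self, mul_zero])
  refine ⟨w₁ * w₂ * y', fun X Y z hX hY => ?_⟩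
  have key := hy' (X, Y) z (by
    refine Prod.ext ?_ ?_
    · simp only [Prod.fst_add, Prod.smul_fst]
      rw [← hX, B2_u_h13]
      simp only
      module
    · simp only [Prod.snd_add, Prod.smul_snd]
      rw [← hY, B2_u_h13]
      simp only
      module)
  exact ⟨congrArg Prod.fst key, congrArg Prod.snd key⟩

end Pool.Agent.Lib.MP_89bcae_ag.Tri

end

section

namespace Pool.Agent.Lib.MP_89bcae_ag.Tri

variable {ℓ : ℕ} [Fact ℓ.Prime] {w₁ w₂ w₃ x y : ZMod ℓ}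

/-- auxiliary: the sum of the three forms. -/
noncomputable def B3_h4 (w₁ w₂ w₃ : ZMod ℓ) : LinearMap.BilinForm (ZMod ℓ)
    ((Fin 3 → ZMod ℓ) × (Fin 3 → ZMod ℓ) × (Fin 3 → ZMod ℓ)) :=
  LinearMap.mk₂ (ZMod ℓ)
    (fun P Q => bf w₁ w₂ w₃ P.1 Q.1 + bf w₁ w₂ w₃ P.2.1 Q.2.1 + bf w₁ w₂ w₃ P.2.2 Q.2.2)
    (by intro P P' Q; simp only [bf, Prod.fst_add, Prod.snd_add, Pi.add_apply]; ring)
    (by intro a P Q; simp only [bf, Prod.smul_fst, Prod.smul_snd, Pi.smul_apply, smul_eq_mul]; ring)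
    (by intro P Q Q'; simp only [bf, Prod.fst_add, Prod.snd_add, Pi.add_apply]; ring)
    (by intro a P Q; simp only [bf, Prod.smul_fst, Prod.smul_snd, Pi.smul_apply, smul_eq_mul]; ring)

/-- auxiliary: both cases at once (`(α, β) = (1, 0)` or `(0, 1)`), by `pencil`. -/
theorem three_aux_h4 (h1 : w₁ ≠ 0) (h2 : w₂ ≠ 0) (h3 : w₃ ≠ 0)
    (hW : w₁ + w₂ + w₃ ≠ 0) (hL : ∀ z, Lz w₁ w₂ w₃ x y z ≠ 0) {c₁ c₂ c₃ D α β : ZMod ℓ}
    (hD : ∀ (X Y : Fin 3 → ZMod ℓ) (z : ZMod ℓ),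
      Tc w₁ w₂ w₃ x y c₁ X + (D * (X 0 - Y 0)) • e0 = z • X →
      Tc w₁ w₂ w₃ x y c₂ Y + (D * (Y 0 - X 0)) • e0 = z • Y → X = 0 ∧ Y = 0)
    (hex : ∃ (X Y Z : Fin 3 → ZMod ℓ) (z τ : ZMod ℓ), (X ≠ 0 ∨ Y ≠ 0) ∧
      Tc w₁ w₂ w₃ x y c₁ X + (D * (X 0 - Y 0)) • e0 = z • X + (τ * α) • e0 ∧
      Tc w₁ w₂ w₃ x y c₂ Y + (D * (Y 0 - X 0)) • e0 = z • Y + (τ * β) • e0 ∧
      Tc w₁ w₂ w₃ x y c₃ Z = z • Z - τ • e0 ∧ α * X 0 + β * Y 0 - Z 0 = 0) :
    ∃ D' : ZMod ℓ, ∀ (X Y Z : Fin 3 → ZMod ℓ) (z : ZMod ℓ),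
      Tc w₁ w₂ w₃ x y c₁ X + (D * (X 0 - Y 0)) • e0 +
        (D' * (α * X 0 + β * Y 0 - Z 0) * α) • e0 = z • X →
      Tc w₁ w₂ w₃ x y c₂ Y + (D * (Y 0 - X 0)) • e0 +
        (D' * (α * X 0 + β * Y 0 - Z 0) * β) • e0 = z • Y →
      Tc w₁ w₂ w₃ x y c₃ Z - (D' * (α * X 0 + β * Y 0 - Z 0)) • e0 = z • Z →
        X = 0 ∧ Y = 0 ∧ Z = 0 := by
  let V := (Fin 3 → ZMod ℓ) × (Fin 3 → ZMod ℓ) × (Fin 3 → ZMod ℓ)
  let B : LinearMap.BilinForm (ZMod ℓ) V := B3_h4 w₁ w₂ w₃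
  have hBa : ∀ P Q : V, B P Q = bf w₁ w₂ w₃ P.1 Q.1 + bf w₁ w₂ w₃ P.2.1 Q.2.1 +
      bf w₁ w₂ w₃ P.2.2 Q.2.2 := fun _ _ => rfl
  let T : V → V := fun P => (Tc w₁ w₂ w₃ x y c₁ P.1 + (D * (P.1 0 - P.2.1 0)) • e0,
    Tc w₁ w₂ w₃ x y c₂ P.2.1 + (D * (P.2.1 0 - P.1 0)) • e0, Tc w₁ w₂ w₃ x y c₃ P.2.2)
  let u : V := (α • e0, β • e0, - e0)
  have hbe : ∀ (X : Fin 3 → ZMod ℓ) (a : ZMod ℓ), bf w₁ w₂ w₃ X (a • e0) = w₁ * w₂ * a * X 0 := by
    intro X a
    simp [bf, e0]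
    ring
  have hbe' : ∀ (X : Fin 3 → ZMod ℓ), bf w₁ w₂ w₃ X (- e0) = - (w₁ * w₂ * X 0) := by
    intro X
    simp [bf, e0]
  have hbl : ∀ (X Y : Fin 3 → ZMod ℓ) (a : ZMod ℓ), bf w₁ w₂ w₃ (X + a • e0) Y =
      bf w₁ w₂ w₃ X Y + w₁ * w₂ * a * Y 0 := by
    intro X Y a
    simp [bf, e0]
    ring
  have hbr : ∀ (X Y : Fin 3 → ZMod ℓ) (a : ZMod ℓ), bf w₁ w₂ w₃ X (Y + a • e0) =
      bf w₁ w₂ w₃ X Y + w₁ * w₂ * a * X 0 := by
    intro X Y a
    simp [bf, e0]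
    ring
  have hBu : ∀ P : V, B P u = w₁ * w₂ * (α * P.1 0 + β * P.2.1 0 - P.2.2 0) := by
    intro P
    rw [hBa]
    show bf w₁ w₂ w₃ P.1 (α • e0) + bf w₁ w₂ w₃ P.2.1 (β • e0) + bf w₁ w₂ w₃ P.2.2 (- e0) = _
    rw [hbe, hbe, hbe']
    ring
  have hBs : ∀ P Q : V, B P Q = B Q P := by
    intro P Q
    rw [hBa, hBa]
    simp only [bf]
    ring
  have hTs : ∀ P Q : V, B (T P) Q = B P (T Q) := by
    intro P Q
    rw [hBa, hBa]
    show bf w₁ w₂ w₃ (Tc w₁ w₂ w₃ x y c₁ P.1 + (D * (P.1 0 - P.2.1 0)) • e0) Q.1 +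
      bf w₁ w₂ w₃ (Tc w₁ w₂ w₃ x y c₂ P.2.1 + (D * (P.2.1 0 - P.1 0)) • e0) Q.2.1 +
      bf w₁ w₂ w₃ (Tc w₁ w₂ w₃ x y c₃ P.2.2) Q.2.2 =
      bf w₁ w₂ w₃ P.1 (Tc w₁ w₂ w₃ x y c₁ Q.1 + (D * (Q.1 0 - Q.2.1 0)) • e0) +
      bf w₁ w₂ w₃ P.2.1 (Tc w₁ w₂ w₃ x y c₂ Q.2.1 + (D * (Q.2.1 0 - Q.1 0)) • e0) +
      bf w₁ w₂ w₃ P.2.2 (Tc w₁ w₂ w₃ x y c₃ Q.2.2)
    rw [hbl, hbl, hbr, hbr, bf_Tc, bf_Tc, bf_Tc]
    ring
  have hw : w₁ * w₂ ≠ 0 := mul_ne_zero h1 h2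
  obtain ⟨y', hy'⟩ := pencil T B hBs hTs u (by
      rintro ⟨X, Y, Z⟩ z hT hu
      rw [hBu] at hu
      have hu' : α * X 0 + β * Y 0 - Z 0 = 0 := (mul_eq_zero.1 hu).resolve_left hw
      have e1 : Tc w₁ w₂ w₃ x y c₁ X + (D * (X 0 - Y 0)) • e0 = z • X := congrArg Prod.fst hT
      have e2 : Tc w₁ w₂ w₃ x y c₂ Y + (D * (Y 0 - X 0)) • e0 = z • Y :=
        congrArg (fun P : V => P.2.1) hT
      have e3 : Tc w₁ w₂ w₃ x y c₃ Z = z • Z := congrArg (fun P : V => P.2.2) hT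
      obtain ⟨rfl, rfl⟩ := hD X Y z e1 e2
      have hZ0 : Z 0 = 0 := by
        have : α * (0 : ZMod ℓ) + β * 0 - Z 0 = 0 := hu'
        linear_combination -this
      have hZ : Z = 0 := by
        rcases eigenvector hW (hL z) e3 with hZ | ⟨-, hZ⟩
        · exact hZ
        · have h5 : phi Z / (w₁ + w₂ + w₃) * w₃ = 0 := by
            have := congrFun hZ 0
            rw [hZ0] at this
            simpa using this.symm
          have h6 := (mul_eq_zero.1 h5).resolve_right h3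
          rw [hZ, h6, zero_smul]
      rw [hZ]
      rfl) (by
      obtain ⟨X, Y, Z, z, τ, hne, e1, e2, e3, e4⟩ := hex
      refine ⟨(X, Y, Z), z, τ, ?_, ?_, ?_⟩
      · intro h0
        have hX : X = 0 := congrArg Prod.fst h0
        have hY : Y = 0 := congrArg (fun P : V => P.2.1) h0
        rcases hne with h | h
        · exact h hX
        · exact h hY
      · refine Prod.ext ?_ (Prod.ext ?_ ?_)
        · show Tc w₁ w₂ w₃ x y c₁ X + (D * (X 0 - Y 0)) • e0 = z • X + τ • (α • e0)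
          rw [e1, smul_smul]
        · show Tc w₁ w₂ w₃ x y c₂ Y + (D * (Y 0 - X 0)) • e0 = z • Y + τ • (β • e0)
          rw [e2, smul_smul]
        · show Tc w₁ w₂ w₃ x y c₃ Z = z • Z + τ • (- e0)
          rw [e3, smul_neg, sub_eq_add_neg]
      · rw [hBu]
        show w₁ * w₂ * (α * X 0 + β * Y 0 - Z 0) = 0
        rw [e4, mul_zero])
  refine ⟨y' * (w₁ * w₂), fun X Y Z z e1 e2 e3 => ?_⟩
  have h5 := hy' (X, Y, Z) z (by
    rw [hBu]
    refine Prod.ext ?_ (Prod.ext ?_ ?_)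
    · show Tc w₁ w₂ w₃ x y c₁ X + (D * (X 0 - Y 0)) • e0 +
        (y' * (w₁ * w₂ * (α * X 0 + β * Y 0 - Z 0))) • (α • e0) = z • X
      rw [← e1, smul_smul]
      congr 2
      ring
    · show Tc w₁ w₂ w₃ x y c₂ Y + (D * (Y 0 - X 0)) • e0 +
        (y' * (w₁ * w₂ * (α * X 0 + β * Y 0 - Z 0))) • (β • e0) = z • Y
      rw [← e2, smul_smul]
      congr 2
      ring
    · show Tc w₁ w₂ w₃ x y c₃ Z +
        (y' * (w₁ * w₂ * (α * X 0 + β * Y 0 - Z 0))) • (- e0) = z • Z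
      rw [← e3, smul_neg, mul_assoc y', ← sub_eq_add_neg])
  exact ⟨congrArg Prod.fst h5, congrArg (fun P : V => P.2.1) h5, congrArg (fun P : V => P.2.2) h5⟩

/-- **Three copies**, the third one coupled to the first one, if `1 + D w₃ / W ≠ 0`. Proof: let
`κ' = w₃ / W`, `t₃ = z₀ + 1 / (1 + D κ')` and `c₃` with `W c₃ - w₃ x - w₁ y = t₃`. `pencil` for
`V = (Fin 3 → ZMod ℓ) × (Fin 3 → ZMod ℓ) × (Fin 3 → ZMod ℓ)`,
`T (X, Y, Z) = (Tc c₁ X + D (X₀ - Y₀) e0, Tc c₂ Y + D (Y₀ - X₀) e0, Tc c₃ Z)` (selfadjoint for the sum of the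
forms: `bf e0 X' = w₁ w₂ X'₀`), `u = (e0, 0, - e0)`, `D' = w₁ w₂ y'`. `h1`: an eigenvector has `X = Y = 0` by
`hD`, and `Z = 0` or `Z = m τ` (`eigenvector`), and `B (0, 0, Z) u = - w₁ w₂ Z₀ = 0` gives `Z = 0`. `h2`:
`exists_resolvent` for `c₁` and `s = 1 + D κ'` gives `X` with `X₀ = κ' (1 + D κ')`; for `c₂` and
`s = - D κ'` it gives `Y` with `Y₀ = D κ' κ'`; so `X₀ - Y₀ = κ'` and the first two components of
`T (X, Y, Z)` are `z₀ X - e0`, `z₀ Y`; for `c₃` and `s = -1` it gives `Z` with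
`Z₀ = - κ' / (z₀ - t₃) = κ' (1 + D κ') = X₀`. So `T (X, Y, Z) = z₀ (X, Y, Z) - u` and `B (X, Y, Z) u = 0`. -/
theorem exists_three (h1 : w₁ ≠ 0) (h2 : w₂ ≠ 0) (h3 : w₃ ≠ 0) (h12 : w₁ + w₂ ≠ 0)
    (hW : w₁ + w₂ + w₃ ≠ 0) (hy : y ≠ 0) (hL : ∀ z, Lz w₁ w₂ w₃ x y z ≠ 0) {z₀ c₁ c₂ D : ZMod ℓ}
    (hz : z₀ = (w₂ + w₃) * y - w₁ * w₃ * y / (w₁ + w₂))
    (ht₁ : (w₁ + w₂ + w₃) * c₁ - w₃ * x - w₁ * y = z₀ - 1)
    (ht₂ : (w₁ + w₂ + w₃) * c₂ - w₃ * x - w₁ * y = z₀ + 1)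
    (hD : ∀ (X Y : Fin 3 → ZMod ℓ) (z : ZMod ℓ),
      Tc w₁ w₂ w₃ x y c₁ X + (D * (X 0 - Y 0)) • e0 = z • X →
      Tc w₁ w₂ w₃ x y c₂ Y + (D * (Y 0 - X 0)) • e0 = z • Y → X = 0 ∧ Y = 0)
    (hk : 1 + D * (w₃ / (w₁ + w₂ + w₃)) ≠ 0) :
    ∃ c₃ D' : ZMod ℓ, ∀ (X Y Z : Fin 3 → ZMod ℓ) (z : ZMod ℓ),
      Tc w₁ w₂ w₃ x y c₁ X + (D * (X 0 - Y 0) + D' * (X 0 - Z 0)) • e0 = z • X →
      Tc w₁ w₂ w₃ x y c₂ Y + (D * (Y 0 - X 0)) • e0 = z • Y →
      Tc w₁ w₂ w₃ x y c₃ Z + (D' * (Z 0 - X 0)) • e0 = z • Z → X = 0 ∧ Y = 0 ∧ Z = 0 := by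
  set W := w₁ + w₂ + w₃ with hWd
  set κ := w₃ / W with hκ
  have hκ0 : κ ≠ 0 := div_ne_zero h3 hW
  have hk0 : 1 + D * κ ≠ 0 := hk
  obtain ⟨c₃, hc₃⟩ : ∃ c₃ : ZMod ℓ, W * c₃ - w₃ * x - w₁ * y = z₀ + 1 / (1 + D * κ) :=
    ⟨(z₀ + 1 / (1 + D * κ) + w₃ * x + w₁ * y) / W, by
      rw [mul_div_cancel₀ _ hW]; ring⟩
  obtain ⟨X, hX, hX0⟩ := exists_resolvent (s := 1 + D * κ) (t := z₀ - 1) (c := c₁) h1 h3 h12 hW hy
    hz ht₁.symm (by intro h; exact one_ne_zero (α := ZMod ℓ) (by linear_combination h))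
  obtain ⟨Y, hY, hY0⟩ := exists_resolvent (s := -(D * κ)) (t := z₀ + 1) (c := c₂) h1 h3 h12 hW hy
    hz ht₂.symm (by intro h; exact one_ne_zero (α := ZMod ℓ) (by linear_combination -h))
  obtain ⟨Z, hZ, hZ0⟩ := exists_resolvent (s := -1) (t := z₀ + 1 / (1 + D * κ)) (c := c₃) h1 h3 h12
    hW hy hz hc₃.symm (by
      intro h
      have : 1 / (1 + D * κ) = 0 := by linear_combination -h
      exact one_div_ne_zero hk0 this)
  have kX : X 0 = κ * (1 + D * κ) := by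
    rw [hX0, show z₀ - (z₀ - 1) = 1 by ring, div_one]
  have kY : Y 0 = κ * (D * κ) := by
    rw [hY0, show z₀ - (z₀ + 1) = -1 by ring, div_neg, div_one]
    ring
  have kZ : Z 0 = κ * (1 + D * κ) := by
    rw [hZ0, show z₀ - (z₀ + 1 / (1 + D * κ)) = -(1 / (1 + D * κ)) by ring, div_neg, div_div_eq_mul_div,
      div_one]
    ring
  obtain ⟨D', hD'⟩ := three_aux_h4 (c₃ := c₃) (α := 1) (β := 0) h1 h2 h3 hW hL hD
    ⟨X, Y, Z, z₀, -1, Or.inl (by
        intro h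
        rw [h] at kX
        exact mul_ne_zero hκ0 hk0 kX.symm), by
        have e : X 0 - Y 0 = κ := by rw [kX, kY]; ring
        have e2 : Tc w₁ w₂ w₃ x y c₁ X = z₀ • X - (1 + D * κ) • e0 := eq_sub_of_add_eq hX
        rw [e, e2]; module, by
        have e : Y 0 - X 0 = -κ := by rw [kX, kY]; ring
        have e2 : Tc w₁ w₂ w₃ x y c₂ Y = z₀ • Y - (-(D * κ)) • e0 := eq_sub_of_add_eq hY
        rw [e, e2]; module, by
        have e2 : Tc w₁ w₂ w₃ x y c₃ Z = z₀ • Z - (-1 : ZMod ℓ) • e0 := eq_sub_of_add_eq hZ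
        exact e2, by
        rw [kX, kZ]; ring⟩
  refine ⟨c₃, D', fun X Y Z z e1 e2 e3 => hD' X Y Z z ?_ ?_ ?_⟩
  · rw [← e1]; module
  · rw [← e2]; module
  · rw [← e3]; module

/-- **Three copies**, the third one coupled to the second one, if `1 + D w₃ / W = 0`. Proof: the same with
`u = (0, e0, - e0)`, `D κ' = -1`, `t₃ = z₀ - 1 / 2` (`1 - D κ' = 2`). `h2`: `exists_resolvent` for `c₂` and
`s = 1 - D κ' = 2` gives `Y` with `Y₀ = 2 κ' / (z₀ - t₂) = - 2 κ'`; for `c₁` and `s = D κ' = -1` it gives `X` with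
`X₀ = - κ' / (z₀ - t₁) = - κ'`; so `Y₀ - X₀ = - κ'`, `D (Y₀ - X₀) = 1`, `D (X₀ - Y₀) = -1`: the first two
components of `T (X, Y, Z)` are `z₀ X` and `z₀ Y - 2 e0 + e0 = z₀ Y - e0`; for `c₃` and `s = -1` it gives `Z`
with `Z₀ = - κ' / (z₀ - t₃) = - 2 κ' = Y₀`. -/
theorem exists_three' (hℓ2 : ℓ ≠ 2) (h1 : w₁ ≠ 0) (h2 : w₂ ≠ 0) (h3 : w₃ ≠ 0)
    (h12 : w₁ + w₂ ≠ 0) (hW : w₁ + w₂ + w₃ ≠ 0) (hy : y ≠ 0) (hL : ∀ z, Lz w₁ w₂ w₃ x y z ≠ 0)
    {z₀ c₁ c₂ D : ZMod ℓ}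
    (hz : z₀ = (w₂ + w₃) * y - w₁ * w₃ * y / (w₁ + w₂))
    (ht₁ : (w₁ + w₂ + w₃) * c₁ - w₃ * x - w₁ * y = z₀ - 1)
    (ht₂ : (w₁ + w₂ + w₃) * c₂ - w₃ * x - w₁ * y = z₀ + 1)
    (hD : ∀ (X Y : Fin 3 → ZMod ℓ) (z : ZMod ℓ),
      Tc w₁ w₂ w₃ x y c₁ X + (D * (X 0 - Y 0)) • e0 = z • X →
      Tc w₁ w₂ w₃ x y c₂ Y + (D * (Y 0 - X 0)) • e0 = z • Y → X = 0 ∧ Y = 0)
    (hk : 1 + D * (w₃ / (w₁ + w₂ + w₃)) = 0) :
    ∃ c₃ D' : ZMod ℓ, ∀ (X Y Z : Fin 3 → ZMod ℓ) (z : ZMod ℓ),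
      Tc w₁ w₂ w₃ x y c₁ X + (D * (X 0 - Y 0)) • e0 = z • X →
      Tc w₁ w₂ w₃ x y c₂ Y + (D * (Y 0 - X 0) + D' * (Y 0 - Z 0)) • e0 = z • Y →
      Tc w₁ w₂ w₃ x y c₃ Z + (D' * (Z 0 - Y 0)) • e0 = z • Z → X = 0 ∧ Y = 0 ∧ Z = 0 := by
  set W := w₁ + w₂ + w₃ with hWd
  set κ := w₃ / W with hκ
  have hκ0 : κ ≠ 0 := div_ne_zero h3 hW
  have hDk : D * κ = -1 := by linear_combination hk
  have h20 : (2 : ZMod ℓ) ≠ 0 := by
    intro h
    have h4 : ((2 : ℕ) : ZMod ℓ) = 0 := by exact_mod_cast h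
    rw [ZMod.natCast_eq_zero_iff] at h4
    have h5 := (Nat.prime_dvd_prime_iff_eq (Fact.out : ℓ.Prime) Nat.prime_two).1 h4
    exact hℓ2 h5
  obtain ⟨c₃, hc₃⟩ : ∃ c₃ : ZMod ℓ, W * c₃ - w₃ * x - w₁ * y = z₀ - 1 / 2 :=
    ⟨(z₀ - 1 / 2 + w₃ * x + w₁ * y) / W, by
      rw [mul_div_cancel₀ _ hW]; ring⟩
  obtain ⟨X, hX, hX0⟩ := exists_resolvent (s := -1) (t := z₀ - 1) (c := c₁) h1 h3 h12 hW hy
    hz ht₁.symm (by intro h; exact one_ne_zero (α := ZMod ℓ) (by linear_combination h))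
  obtain ⟨Y, hY, hY0⟩ := exists_resolvent (s := 2) (t := z₀ + 1) (c := c₂) h1 h3 h12 hW hy
    hz ht₂.symm (by intro h; exact one_ne_zero (α := ZMod ℓ) (by linear_combination -h))
  obtain ⟨Z, hZ, hZ0⟩ := exists_resolvent (s := -1) (t := z₀ - 1 / 2) (c := c₃) h1 h3 h12
    hW hy hz hc₃.symm (by
      intro h
      have : (1 : ZMod ℓ) / 2 = 0 := by linear_combination h
      exact one_div_ne_zero h20 this)
  have kX : X 0 = -κ := by
    rw [hX0, show z₀ - (z₀ - 1) = 1 by ring, div_one]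
    ring
  have kY : Y 0 = -(2 * κ) := by
    rw [hY0, show z₀ - (z₀ + 1) = -1 by ring, div_neg, div_one]
    ring
  have kZ : Z 0 = -(2 * κ) := by
    rw [hZ0, show z₀ - (z₀ - 1 / 2) = 1 / 2 by ring, div_div_eq_mul_div, div_one]
    ring
  obtain ⟨D', hD'⟩ := three_aux_h4 (c₃ := c₃) (α := 0) (β := 1) h1 h2 h3 hW hL hD
    ⟨X, Y, Z, z₀, -1, Or.inl (by
        intro h
        rw [h] at kX
        exact hκ0 (by
          have : (0 : ZMod ℓ) = -κ := kX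
          linear_combination this)), by
        have e : X 0 - Y 0 = κ := by rw [kX, kY]; ring
        have e2 : Tc w₁ w₂ w₃ x y c₁ X = z₀ • X - (-1 : ZMod ℓ) • e0 := eq_sub_of_add_eq hX
        rw [e, e2, hDk]; module, by
        have e : D * (Y 0 - X 0) = 1 := by rw [kX, kY]; linear_combination -hDk
        have e2 : Tc w₁ w₂ w₃ x y c₂ Y = z₀ • Y - (2 : ZMod ℓ) • e0 := eq_sub_of_add_eq hY
        rw [e, e2]; module, by
        have e2 : Tc w₁ w₂ w₃ x y c₃ Z = z₀ • Z - (-1 : ZMod ℓ) • e0 := eq_sub_of_add_eq hZ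
        exact e2, by
        rw [kY, kZ]; ring⟩
  refine ⟨c₃, D', fun X Y Z z e1 e2 e3 => hD' X Y Z z ?_ ?_ ?_⟩
  · rw [← e1]; module
  · rw [← e2]; module
  · rw [← e3]; module

end Pool.Agent.Lib.MP_89bcae_ag.Tri

end

section

namespace Pool.Agent.Lib.MP_89bcae_ag.Tri

/-- Transport. -/
theorem PW.equiv {R : Type} [Field R] {κ κ' : Type} [Fintype κ] [Fintype κ'] (e : κ ≃ κ')
    {w₁ w₂ w₃ x y : R} (h : PW κ w₁ w₂ w₃ x y) : PW κ' w₁ w₂ w₃ x y := by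
  obtain ⟨c, δ, hs, hX⟩ := h
  refine ⟨fun a => c (e.symm a), fun a b => δ (e.symm a) (e.symm b), fun a b => hs _ _,
    fun X z h a => ?_⟩
  have h1 : ∀ a, X (e a) = 0 := by
    refine hX (fun a => X (e a)) z fun a => ?_
    have h2 := h (e a)
    simp only [e.symm_apply_apply] at h2
    have h3 : ∑ b, δ a (e.symm b) * (X (e a) 0 - X b 0) =
        ∑ b, δ a b * (X (e a) 0 - X (e b) 0) := by
      rw [← e.sum_comp]
      exact Finset.sum_congr rfl fun b _ => by rw [e.symm_apply_apply]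
    rw [h3] at h2
    exact h2
  have h4 := h1 (e.symm a)
  rwa [e.apply_symm_apply] at h4

/-- Disjoint union. (`c = Sum.elim c c'`, `δ = 0` between the two parts; `Fintype.sum_sum_type`.) -/
theorem PW.sum {R : Type} [Field R] {κ κ' : Type} [Fintype κ] [Fintype κ']
    {w₁ w₂ w₃ x y : R} (h : PW κ w₁ w₂ w₃ x y) (h' : PW κ' w₁ w₂ w₃ x y) :
    PW (κ ⊕ κ') w₁ w₂ w₃ x y := by
  obtain ⟨c, δ, hs, hX⟩ := h
  obtain ⟨c', δ', hs', hX'⟩ := h'
  refine ⟨Sum.elim c c', fun a b => Sum.elim (fun a => Sum.elim (fun b => δ a b) (fun _ => 0) b)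
    (fun a => Sum.elim (fun _ => 0) (fun b => δ' a b) b) a, ?_, fun X z h => ?_⟩
  · rintro (a | a) (b | b)
    · exact hs a b
    · rfl
    · rfl
    · exact hs' a b
  · have h1 : ∀ a, X (Sum.inl a) = 0 := by
      refine hX (fun a => X (Sum.inl a)) z fun a => ?_
      have h2 := h (Sum.inl a)
      rw [Fintype.sum_sum_type] at h2
      simp only [Sum.elim_inl, Sum.elim_inr, zero_mul, Finset.sum_const_zero, add_zero] at h2
      exact h2
    have h2 : ∀ a, X (Sum.inr a) = 0 := by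
      refine hX' (fun a => X (Sum.inr a)) z fun a => ?_
      have h2 := h (Sum.inr a)
      rw [Fintype.sum_sum_type] at h2
      simp only [Sum.elim_inl, Sum.elim_inr, zero_mul, Finset.sum_const_zero, zero_add] at h2
      exact h2
    rintro (a | a)
    · exact h1 a
    · exact h2 a

variable {ℓ : ℕ} [Fact ℓ.Prime] {w₁ w₂ w₃ x y : ZMod ℓ}

/-- Two copies: `exists_two` with `δ 0 1 = δ 1 0 = D / (w₁ + w₂)`, `δ 0 0 = δ 1 1 = 0`. -/
theorem PW.two (hℓ2 : ℓ ≠ 2) (h1 : w₁ ≠ 0) (h2 : w₂ ≠ 0) (h3 : w₃ ≠ 0) (h12 : w₁ + w₂ ≠ 0)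
    (hW : w₁ + w₂ + w₃ ≠ 0) (hy : y ≠ 0) (hL : ∀ z, Lz w₁ w₂ w₃ x y z ≠ 0) :
    PW (Fin 2) w₁ w₂ w₃ x y := by
  obtain ⟨z₀, hz⟩ : ∃ z₀, z₀ = (w₂ + w₃) * y - w₁ * w₃ * y / (w₁ + w₂) := ⟨_, rfl⟩
  obtain ⟨c₁, hc₁⟩ : ∃ c₁, (w₁ + w₂ + w₃) * c₁ - w₃ * x - w₁ * y = z₀ - 1 :=
    ⟨(z₀ - 1 + w₃ * x + w₁ * y) / (w₁ + w₂ + w₃), by rw [mul_div_cancel₀ _ hW]; ring⟩
  obtain ⟨c₂, hc₂⟩ : ∃ c₂, (w₁ + w₂ + w₃) * c₂ - w₃ * x - w₁ * y = z₀ + 1 :=
    ⟨(z₀ + 1 + w₃ * x + w₁ * y) / (w₁ + w₂ + w₃), by rw [mul_div_cancel₀ _ hW]; ring⟩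
  obtain ⟨D, hD⟩ := exists_two hℓ2 h1 h2 h3 h12 hW hy hL hz hc₁ hc₂
  obtain ⟨d, hd⟩ : ∃ d, (w₁ + w₂) * d = D := ⟨D / (w₁ + w₂), mul_div_cancel₀ _ h12⟩
  refine ⟨![c₁, c₂], ![![0, d], ![d, 0]], ?_, ?_⟩
  · intro a b
    fin_cases a <;> fin_cases b <;> rfl
  · intro X z h
    have k0 := h 0
    have k1 := h 1
    rw [Fin.sum_univ_two] at k0 k1
    have e0' : (w₁ + w₂) * (![![0, d], ![d, 0]] 0 0 * (X 0 0 - X 0 0) +
        ![![0, d], ![d, 0]] 0 1 * (X 0 0 - X 1 0)) = D * (X 0 0 - X 1 0) := by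
      change (w₁ + w₂) * (0 * (X 0 0 - X 0 0) + d * (X 0 0 - X 1 0)) = D * (X 0 0 - X 1 0)
      rw [← hd]
      ring
    have e1' : (w₁ + w₂) * (![![0, d], ![d, 0]] 1 0 * (X 1 0 - X 0 0) +
        ![![0, d], ![d, 0]] 1 1 * (X 1 0 - X 1 0)) = D * (X 1 0 - X 0 0) := by
      change (w₁ + w₂) * (d * (X 1 0 - X 0 0) + 0 * (X 1 0 - X 1 0)) = D * (X 1 0 - X 0 0)
      rw [← hd]
      ring
    rw [e0'] at k0
    rw [e1'] at k1
    obtain ⟨r0, r1⟩ := hD (X 0) (X 1) z k0 k1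
    intro a
    fin_cases a
    · exact r0
    · exact r1

/-- Three copies: `exists_two`, then `exists_three` (coupling of `0` and `2`) or `exists_three'` (coupling of
`1` and `2`), with `δ 0 1 = D / (w₁ + w₂)`, and `δ = D' / (w₁ + w₂)` for the other coupling. -/
theorem PW.three (hℓ2 : ℓ ≠ 2) (h1 : w₁ ≠ 0) (h2 : w₂ ≠ 0) (h3 : w₃ ≠ 0) (h12 : w₁ + w₂ ≠ 0)
    (hW : w₁ + w₂ + w₃ ≠ 0) (hy : y ≠ 0) (hL : ∀ z, Lz w₁ w₂ w₃ x y z ≠ 0) :
    PW (Fin 3) w₁ w₂ w₃ x y := by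
  obtain ⟨z₀, hz⟩ : ∃ z₀, z₀ = (w₂ + w₃) * y - w₁ * w₃ * y / (w₁ + w₂) := ⟨_, rfl⟩
  obtain ⟨c₁, hc₁⟩ : ∃ c₁, (w₁ + w₂ + w₃) * c₁ - w₃ * x - w₁ * y = z₀ - 1 :=
    ⟨(z₀ - 1 + w₃ * x + w₁ * y) / (w₁ + w₂ + w₃), by rw [mul_div_cancel₀ _ hW]; ring⟩
  obtain ⟨c₂, hc₂⟩ : ∃ c₂, (w₁ + w₂ + w₃) * c₂ - w₃ * x - w₁ * y = z₀ + 1 :=
    ⟨(z₀ + 1 + w₃ * x + w₁ * y) / (w₁ + w₂ + w₃), by rw [mul_div_cancel₀ _ hW]; ring⟩
  obtain ⟨D, hD⟩ := exists_two hℓ2 h1 h2 h3 h12 hW hy hL hz hc₁ hc₂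
  obtain ⟨d, hd⟩ : ∃ d, (w₁ + w₂) * d = D := ⟨D / (w₁ + w₂), mul_div_cancel₀ _ h12⟩
  -- the general case of couplings `d` of 0 1, `p` of 0 2, `q` of 1 2
  have key : ∀ (c₃ p q : ZMod ℓ),
      (∀ (X Y Z : Fin 3 → ZMod ℓ) (z : ZMod ℓ),
        Tc w₁ w₂ w₃ x y c₁ X + (D * (X 0 - Y 0) + (w₁ + w₂) * p * (X 0 - Z 0)) • e0 = z • X →
        Tc w₁ w₂ w₃ x y c₂ Y + (D * (Y 0 - X 0) + (w₁ + w₂) * q * (Y 0 - Z 0)) • e0 = z • Y →
        Tc w₁ w₂ w₃ x y c₃ Z + ((w₁ + w₂) * p * (Z 0 - X 0) + (w₁ + w₂) * q * (Z 0 - Y 0)) • e0 =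
          z • Z → X = 0 ∧ Y = 0 ∧ Z = 0) → PW (Fin 3) w₁ w₂ w₃ x y := by
    intro c₃ p q hk
    refine ⟨![c₁, c₂, c₃], ![![0, d, p], ![d, 0, q], ![p, q, 0]], ?_, ?_⟩
    · intro a b
      fin_cases a <;> fin_cases b <;> rfl
    · intro X z h
      have k0 := h 0
      have k1 := h 1
      have k2 := h 2
      rw [Fin.sum_univ_three] at k0 k1 k2
      have e0' : (w₁ + w₂) * (![![0, d, p], ![d, 0, q], ![p, q, 0]] 0 0 * (X 0 0 - X 0 0) +
          ![![0, d, p], ![d, 0, q], ![p, q, 0]] 0 1 * (X 0 0 - X 1 0) +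
          ![![0, d, p], ![d, 0, q], ![p, q, 0]] 0 2 * (X 0 0 - X 2 0)) =
          D * (X 0 0 - X 1 0) + (w₁ + w₂) * p * (X 0 0 - X 2 0) := by
        change (w₁ + w₂) * (0 * (X 0 0 - X 0 0) + d * (X 0 0 - X 1 0) + p * (X 0 0 - X 2 0)) = _
        rw [← hd]
        ring
      have e1' : (w₁ + w₂) * (![![0, d, p], ![d, 0, q], ![p, q, 0]] 1 0 * (X 1 0 - X 0 0) +
          ![![0, d, p], ![d, 0, q], ![p, q, 0]] 1 1 * (X 1 0 - X 1 0) +
          ![![0, d, p], ![d, 0, q], ![p, q, 0]] 1 2 * (X 1 0 - X 2 0)) =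
          D * (X 1 0 - X 0 0) + (w₁ + w₂) * q * (X 1 0 - X 2 0) := by
        change (w₁ + w₂) * (d * (X 1 0 - X 0 0) + 0 * (X 1 0 - X 1 0) + q * (X 1 0 - X 2 0)) = _
        rw [← hd]
        ring
      have e2' : (w₁ + w₂) * (![![0, d, p], ![d, 0, q], ![p, q, 0]] 2 0 * (X 2 0 - X 0 0) +
          ![![0, d, p], ![d, 0, q], ![p, q, 0]] 2 1 * (X 2 0 - X 1 0) +
          ![![0, d, p], ![d, 0, q], ![p, q, 0]] 2 2 * (X 2 0 - X 2 0)) =
          (w₁ + w₂) * p * (X 2 0 - X 0 0) + (w₁ + w₂) * q * (X 2 0 - X 1 0) := by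
        change (w₁ + w₂) * (p * (X 2 0 - X 0 0) + q * (X 2 0 - X 1 0) + 0 * (X 2 0 - X 2 0)) = _
        ring
      rw [e0'] at k0
      rw [e1'] at k1
      rw [e2'] at k2
      obtain ⟨r0, r1, r2⟩ := hk (X 0) (X 1) (X 2) z k0 k1 k2
      intro a
      fin_cases a
      · exact r0
      · exact r1
      · exact r2
  by_cases hk : 1 + D * (w₃ / (w₁ + w₂ + w₃)) = 0
  · obtain ⟨c₃, D', hD'⟩ := exists_three' hℓ2 h1 h2 h3 h12 hW hy hL hz hc₁ hc₂ hD hk
    refine key c₃ 0 (D' / (w₁ + w₂)) ?_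
    intro X Y Z z e1 e2 e3
    rw [mul_div_cancel₀ _ h12] at e2 e3
    rw [mul_zero, zero_mul, add_zero] at e1
    rw [mul_zero, zero_mul, zero_add] at e3
    exact hD' X Y Z z e1 e2 e3
  · obtain ⟨c₃, D', hD'⟩ := exists_three h1 h2 h3 h12 hW hy hL hz hc₁ hc₂ hD hk
    refine key c₃ (D' / (w₁ + w₂)) 0 ?_
    intro X Y Z z e1 e2 e3
    rw [mul_div_cancel₀ _ h12] at e1 e3
    rw [mul_zero, zero_mul, add_zero] at e2
    rw [mul_zero, zero_mul, add_zero] at e3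
    exact hD' X Y Z z e1 e2 e3

/-- All numbers of copies `n ≥ 2`. Proof: strong induction: `n = 2`, `n = 3`, and `n = m + 2`
(`PW.sum` for `Fin m ⊕ Fin 2`, `finSumFinEquiv`). -/
theorem PW.all (hℓ2 : ℓ ≠ 2) (h1 : w₁ ≠ 0) (h2 : w₂ ≠ 0) (h3 : w₃ ≠ 0) (h12 : w₁ + w₂ ≠ 0)
    (hW : w₁ + w₂ + w₃ ≠ 0) (hy : y ≠ 0) (hL : ∀ z, Lz w₁ w₂ w₃ x y z ≠ 0) {n : ℕ} (hn : 2 ≤ n) :
    PW (Fin n) w₁ w₂ w₃ x y := by
  have h2' := PW.two hℓ2 h1 h2 h3 h12 hW hy hL
  have h3' := PW.three hℓ2 h1 h2 h3 h12 hW hy hL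
  have key : ∀ m : ℕ, PW (Fin (m + 2)) w₁ w₂ w₃ x y ∧ PW (Fin (m + 3)) w₁ w₂ w₃ x y := by
    intro m
    induction m with
    | zero => exact ⟨h2', h3'⟩
    | succ m ih =>
      have h4 : PW (Fin (m + 2 + 2)) w₁ w₂ w₃ x y := PW.equiv finSumFinEquiv (PW.sum ih.1 h2')
      exact ⟨ih.2, h4⟩
  obtain ⟨m, rfl⟩ := Nat.exists_eq_add_of_le hn
  rw [add_comm]
  exact (key m).1

end Pool.Agent.Lib.MP_89bcae_ag.Tri

end

section

open scoped Classical

namespace Pool.Agent.Lib.MP_89bcae_ag.Tri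

variable {ℓ : ℕ} [Fact ℓ.Prime]

theorem P07a_sum_h75 {ι : Type} [Fintype ι] {R : Type} [AddCommMonoid R] {i j l : ι}
    (hil : l ≠ i) (hjl : l ≠ j) (hun : ∀ t, t = i ∨ t = j ∨ t = l) (f : ι → R) :
    ∑ t ∈ Finset.univ.filter (fun t => t ≠ i ∧ t ≠ j), f t = f l := by
  refine Finset.sum_eq_single l ?_ ?_
  · intro t ht htl
    rw [Finset.mem_filter] at ht
    rcases hun t with h | h | h
    · exact absurd h ht.2.1
    · exact absurd h ht.2.2
    · exact absurd h htl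
  · intro h
    exact absurd (Finset.mem_filter.2 ⟨Finset.mem_univ _, hil, hjl⟩) h

theorem P07a_filt_h75 {n : ℕ} {R : Type} [Ring R] (a : Fin n) (d X : Fin n → R) :
    ∑ b ∈ Finset.univ.filter (fun b => b ≠ a), d b * (X a - X b) = ∑ b, d b * (X a - X b) := by
  refine Finset.sum_subset (Finset.filter_subset _ _) ?_
  intro b _ hb
  rw [Finset.mem_filter, not_and, not_not] at hb
  rw [hb (Finset.mem_univ _), sub_self, mul_zero]

theorem P07a_ext_h75 {R : Type} {X Y : Fin 3 → R} (h0 : X 0 = Y 0) (h1 : X 1 = Y 1)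
    (h2 : X 2 = Y 2) : X = Y := by
  funext i
  fin_cases i
  · exact h0
  · exact h1
  · exact h2

/-- From the coordinates to `GoodW`. Proof: let `w₁ = w s₁`, ...; given `x a i j`, `z`, `γ` put
`X a = ![x a s₁ s₂, x a s₂ s₃, x a s₃ s₁]` and `G = ![γ s₁ - γ s₂, γ s₂ - γ s₃, γ s₃ - γ s₁]`. The equations for
the pairs `(s₁, s₂)`, `(s₂, s₃)`, `(s₃, s₁)` are
`Tc (c₀ a) (X a) + ((w₁ + w₂) ∑ b, δ₀ a b (X a 0 - X b 0)) e0 = z X a + G` (the sum over `l` has one term, the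
third element; the term `b = a` is zero; `pr_eq_pr`). As `Lz ≠ 0` there is `Y` with `phi Y = 0` and
`(z - (w₁ + w₂) X) Y₀ + w₃ y Y₁ = - G₀`, `w₁ x Y₀ + (z - (w₂ + w₃) y) Y₁ = - G₁` (Cramer), that is
`Tc c Y = z Y + G` for all `c`. The `X a - Y` satisfy the hypothesis of `h`, so `X a = Y` for all `a`. Take
`b s₁ = Y₀ + Y₁`, `b s₂ = Y₁`, `b s₃ = 0`. -/
theorem goodW_of_PW {ι : Type} [Fintype ι] {s₁ s₂ s₃ : ι} (h12 : s₁ ≠ s₂)
    (h23 : s₂ ≠ s₃) (h13 : s₁ ≠ s₃) (hun : ∀ i, i = s₁ ∨ i = s₂ ∨ i = s₃) {w : ι → ZMod ℓ} {n : ℕ}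
    {x y : ZMod ℓ} (hL : ∀ z, Lz (w s₁) (w s₂) (w s₃) x y z ≠ 0) (c₀ : Fin n → ZMod ℓ)
    (δ₀ : Fin n → Fin n → ZMod ℓ)
    (h : ∀ (X : Fin n → Fin 3 → ZMod ℓ) (z : ZMod ℓ),
      (∀ a, Tc (w s₁) (w s₂) (w s₃) x y (c₀ a) (X a) +
        ((w s₁ + w s₂) * ∑ b, δ₀ a b * (X a 0 - X b 0)) • e0 = z • X a) → ∀ a, X a = 0) :
    GoodW w (fun T => if T = pr s₁ s₂ then x else if T = pr s₂ s₃ then y else 0)
      (fun a _ => c₀ a) (fun T a b => if T = pr s₁ s₂ then δ₀ a b else 0) := by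
  intro xx z γ hanti heq
  have hb12 : (fun T => if T = pr s₁ s₂ then x else if T = pr s₂ s₃ then y else 0) (pr s₁ s₂) = x :=
    if_pos rfl
  have hn1 : pr s₂ s₃ ≠ pr s₁ s₂ := by
    intro h'
    rcases pr_eq_pr.1 h' with ⟨h1, _⟩ | ⟨_, h1⟩
    · exact h12 h1.symm
    · exact h13 h1.symm
  have hn2 : pr s₃ s₁ ≠ pr s₁ s₂ := by
    intro h'
    rcases pr_eq_pr.1 h' with ⟨h1, _⟩ | ⟨h1, _⟩
    · exact h13 h1.symm
    · exact h23 h1.symm
  have hn3 : pr s₃ s₁ ≠ pr s₂ s₃ := by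
    intro h'
    rcases pr_eq_pr.1 h' with ⟨h1, _⟩ | ⟨_, h1⟩
    · exact h23 h1.symm
    · exact h12 h1
  -- the equations of the three pairs
  have E1 : ∀ a, (w s₁ + w s₂) * (x * xx a s₁ s₂ + ∑ b, δ₀ a b * (xx a s₁ s₂ - xx b s₁ s₂)) +
      w s₃ * ((c₀ a - x) * xx a s₁ s₂ - (c₀ a - x - 0) * xx a s₁ s₃ +
        (c₀ a - x - y) * xx a s₂ s₃) = z * xx a s₁ s₂ + (γ s₁ - γ s₂) := by
    intro a
    have h1 := heq a s₁ s₂ h12
    rw [P07a_sum_h75 h13.symm h23.symm hun] at h1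
    simp only [if_true, if_neg hn1, pr_comm s₁ s₃, if_neg hn2, if_neg hn3] at h1
    rw [P07a_filt_h75 a (fun b => δ₀ a b) (fun b => xx b s₁ s₂)] at h1
    exact h1
  have E2 : ∀ a, (w s₂ + w s₃) * (y * xx a s₂ s₃) +
      w s₁ * ((c₀ a - y) * xx a s₂ s₃ - (c₀ a - y - x) * xx a s₂ s₁ +
        (c₀ a - y - 0) * xx a s₃ s₁) = z * xx a s₂ s₃ + (γ s₂ - γ s₃) := by
    intro a
    have h1 := heq a s₂ s₃ h23
    rw [P07a_sum_h75 h12 h13 (fun t => by
      rcases hun t with h | h | h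
      · exact Or.inr (Or.inr h)
      · exact Or.inl h
      · exact Or.inr (Or.inl h))] at h1
    simp only [if_true, if_neg hn1, pr_comm s₂ s₁, if_neg hn2, if_neg hn3, zero_mul,
      Finset.sum_const_zero, add_zero] at h1
    exact h1
  have E3 : ∀ a, w s₂ * ((c₀ a - 0) * xx a s₃ s₁ - (c₀ a - 0 - y) * xx a s₃ s₂ +
        (c₀ a - 0 - x) * xx a s₁ s₂) = z * xx a s₃ s₁ + (γ s₃ - γ s₁) := by
    intro a
    have h1 := heq a s₃ s₁ h13.symm
    rw [P07a_sum_h75 h23 h12.symm (fun t => by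
      rcases hun t with h | h | h
      · exact Or.inr (Or.inl h)
      · exact Or.inr (Or.inr h)
      · exact Or.inl h)] at h1
    simp only [if_true, if_neg hn1, pr_comm s₃ s₂, if_neg hn2, if_neg hn3, zero_mul,
      Finset.sum_const_zero, add_zero, mul_zero, zero_add] at h1
    simp only [sub_zero]
    simp only [sub_zero] at h1
    exact h1
  -- the solution of the equation with the gradient
  have hD := hL z
  set D : ZMod ℓ := Lz (w s₁) (w s₂) (w s₃) x y z with hDdef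
  set G0 : ZMod ℓ := γ s₁ - γ s₂ with hG0
  set G1 : ZMod ℓ := γ s₂ - γ s₃ with hG1
  obtain ⟨Y0, Y1, hY0, hY1⟩ : ∃ Y0 Y1 : ZMod ℓ,
      (z - (w s₁ + w s₂) * x) * Y0 + w s₃ * y * Y1 = -G0 ∧
      w s₁ * x * Y0 + (z - (w s₂ + w s₃) * y) * Y1 = -G1 := by
    refine ⟨(-G0 * (z - (w s₂ + w s₃) * y) + G1 * (w s₃ * y)) / D,
      (-G1 * (z - (w s₁ + w s₂) * x) + G0 * (w s₁ * x)) / D, ?_, ?_⟩
    · rw [mul_div_assoc', mul_div_assoc', ← add_div, div_eq_iff hD, hDdef, Lz]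
      ring
    · rw [mul_div_assoc', mul_div_assoc', ← add_div, div_eq_iff hD, hDdef, Lz]
      ring
  have key : ∀ a, (![xx a s₁ s₂ - Y0, xx a s₂ s₃ - Y1, xx a s₃ s₁ - (-Y0 - Y1)] :
      Fin 3 → ZMod ℓ) = 0 := by
    refine h (fun a => ![xx a s₁ s₂ - Y0, xx a s₂ s₃ - Y1, xx a s₃ s₁ - (-Y0 - Y1)]) z ?_
    intro a
    have e1 := E1 a
    have e2 := E2 a
    have e3 := E3 a
    rw [hanti a s₃ s₁ h13.symm] at e1
    rw [hanti a s₁ s₂ h12] at e2
    rw [hanti a s₂ s₃ h23] at e3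
    refine P07a_ext_h75 ?_ ?_ ?_
    · have hsum : ∑ b, δ₀ a b * ((xx a s₁ s₂ - Y0) - (xx b s₁ s₂ - Y0)) =
          ∑ b, δ₀ a b * (xx a s₁ s₂ - xx b s₁ s₂) :=
        Finset.sum_congr rfl fun b _ => by ring
      simp only [Tc, e0, phi, Pi.add_apply, Pi.smul_apply, smul_eq_mul, Matrix.cons_val_zero,
        Matrix.cons_val_one, Matrix.cons_val, hsum]
      linear_combination e1 + hY0
    · simp only [Tc, e0, phi, Pi.add_apply, Pi.smul_apply, smul_eq_mul, Matrix.cons_val_zero,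
        Matrix.cons_val_one, Matrix.cons_val]
      linear_combination e2 + hY1
    · simp only [Tc, e0, phi, Pi.add_apply, Pi.smul_apply, smul_eq_mul, Matrix.cons_val_zero,
        Matrix.cons_val_one, Matrix.cons_val]
      have hG2 : γ s₃ - γ s₁ = -G0 - G1 := by rw [hG0, hG1]; ring
      rw [hG2] at e3
      linear_combination e3 - hY0 - hY1
  have k0 : ∀ a, xx a s₁ s₂ = Y0 := fun a => by
    have := congrFun (key a) 0
    simpa [sub_eq_zero] using this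
  have k1 : ∀ a, xx a s₂ s₃ = Y1 := fun a => by
    have := congrFun (key a) 1
    simpa [sub_eq_zero] using this
  have k2 : ∀ a, xx a s₃ s₁ = -Y0 - Y1 := fun a => by
    have := congrFun (key a) 2
    simp only [Matrix.cons_val, Pi.zero_apply] at this
    exact sub_eq_zero.1 this
  obtain ⟨bb, b1, b2, b3⟩ : ∃ bb : ι → ZMod ℓ, bb s₁ = Y0 + Y1 ∧ bb s₂ = Y1 ∧ bb s₃ = 0 :=
    ⟨fun i => if i = s₁ then Y0 + Y1 else if i = s₂ then Y1 else 0, if_pos rfl,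
      (if_neg h12.symm).trans (if_pos rfl), (if_neg h13.symm).trans (if_neg h23.symm)⟩
  refine ⟨bb, fun a i j hij => ?_⟩
  rcases hun i with h1 | h1 | h1 <;> rcases hun j with h2 | h2 | h2
  · exact absurd (h1.trans h2.symm) hij
  · rw [h1, h2, b1, b2, k0]; ring
  · rw [h1, h2, b1, b3, hanti a _ _ h13.symm, k2]; ring
  · rw [h1, h2, b1, b2, hanti a _ _ h12, k0]; ring
  · exact absurd (h1.trans h2.symm) hij
  · rw [h1, h2, b2, b3, k1]; ring
  · rw [h1, h2, b1, b3, k2]; ring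
  · rw [h1, h2, b2, b3, hanti a _ _ h23, k1]; ring
  · exact absurd (h1.trans h2.symm) hij

/-- The three elements, named so that the sum of the first two weights is not zero. -/
theorem exists_labels_h54 (hℓ2 : ℓ ≠ 2) {ι : Type} [Fintype ι]
    (hι : Fintype.card ι = 3) {w : ι → ZMod ℓ} (hw : ∀ i, w i ≠ 0) :
    ∃ s₁ s₂ s₃ : ι, s₁ ≠ s₂ ∧ s₂ ≠ s₃ ∧ s₁ ≠ s₃ ∧ (∀ i, i = s₁ ∨ i = s₂ ∨ i = s₃) ∧
      w s₁ + w s₂ ≠ 0 := by
  have h2 : (2 : ZMod ℓ) ≠ 0 := by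
    intro h
    have h' : ((2 : ℕ) : ZMod ℓ) = 0 := by exact_mod_cast h
    rw [ZMod.natCast_eq_zero_iff] at h'
    exact hℓ2 ((Nat.prime_dvd_prime_iff_eq Fact.out Nat.prime_two).1 h')
  rw [← Finset.card_univ, Finset.card_eq_three] at hι
  obtain ⟨a, b, c, hab, hac, hbc, hu⟩ := hι
  have hun : ∀ i, i = a ∨ i = b ∨ i = c := by
    intro i
    have := Finset.mem_univ i
    rw [hu] at this
    simpa using this
  by_cases h1 : w a + w b = 0
  · by_cases h3 : w b + w c = 0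
    · by_cases h4 : w a + w c = 0
      · exfalso
        have : 2 * w a = 0 := by linear_combination h1 + h4 - h3
        rcases mul_eq_zero.1 this with h | h
        · exact h2 h
        · exact hw a h
      · exact ⟨a, c, b, hac, hbc.symm, hab, fun i => by
          rcases hun i with h | h | h
          · exact Or.inl h
          · exact Or.inr (Or.inr h)
          · exact Or.inr (Or.inl h), h4⟩
    · exact ⟨b, c, a, hbc, hac.symm, hab.symm, fun i => by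
          rcases hun i with h | h | h
          · exact Or.inr (Or.inr h)
          · exact Or.inl h
          · exact Or.inr (Or.inl h), h3⟩
  · exact ⟨a, b, c, hab, hbc, hac, hun, h1⟩

/-- **Existence.** Proof: `ι = {s₁, s₂, s₃}` with `w s₁ + w s₂ ≠ 0` (if all the sums of two weights were zero
then `2 w i = 0`; rename the elements); `exists_xy`, `PW.all`, `goodW_of_PW`. -/
theorem exists_goodW (hℓ2 : ℓ ≠ 2) {ι : Type} [Fintype ι]
    (hι : Fintype.card ι = 3) {w : ι → ZMod ℓ} (hw : ∀ i, w i ≠ 0) (hs : ∑ i, w i ≠ 0) {n : ℕ}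
    (hn : 2 ≤ n) :
    ∃ (β : Finset ι → ZMod ℓ) (c : Fin n → Finset ι → ZMod ℓ)
      (δ : Finset ι → Fin n → Fin n → ZMod ℓ), (∀ T a b, δ T a b = δ T b a) ∧
      GoodW w β c δ ∧ ∃ i j, i ≠ j ∧ β (pr i j) ≠ 0 := by
  obtain ⟨s₁, s₂, s₃, h12, h23, h13, hun, hw12⟩ := exists_labels_h54 hℓ2 hι hw
  have hsum : ∑ i, w i = w s₁ + w s₂ + w s₃ := by
    have hu : (Finset.univ : Finset ι) = {s₁, s₂, s₃} := by
      ext i
      simpa using hun i
    rw [hu, Finset.sum_insert, Finset.sum_insert, Finset.sum_singleton, add_assoc]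
    · simpa using h23
    · simpa using ⟨h12, h13⟩
  rw [hsum] at hs
  obtain ⟨x, y, hx, hy, hL⟩ := exists_xy hℓ2 (hw s₁) (hw s₂) (hw s₃) hw12 hs
  obtain ⟨c₀, δ₀, hsym, h⟩ := PW.all (x := x) (y := y) hℓ2 (hw s₁) (hw s₂) (hw s₃) hw12 hs hy hL hn
  refine ⟨_, _, _, ?_, goodW_of_PW h12 h23 h13 hun hL c₀ δ₀ h, s₁, s₂, h12, ?_⟩
  · intro T a b
    by_cases hT : T = pr s₁ s₂
    · rw [if_pos hT, if_pos hT, hsym]
    · rw [if_neg hT, if_neg hT]
  · rw [if_pos rfl]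
    exact hx

end Pool.Agent.Lib.MP_89bcae_ag.Tri

end
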