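import Mathlib
import Pool.Agent.Lib.MP_89bcae_ag.Mk.K040
import Pool.Agent.Lib.MP_89bcae_ag.Mk.K048
import Pool.Agent.Lib.MP_89bcae_ag.Mk.K049

namespace Pool.Agent.Lib.MP_89bcae_ag.Superelliptic
end Pool.Agent.Lib.MP_89bcae_ag.Superelliptic

section

/-!
# The family of the monic `D` of degree `n` with `D(g(x))` irreducible
-/

open Polynomial

namespace Pool.Agent.Lib.MP_89bcae_ag

universe u

/-- The monic polynomials `D` of degree `n` for which `D(g(x))` is irreducible. -/
def family {k : Type u} [Field k] (g : k[X]) (n : ℕ) : Set k[X] :=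
  {D | D.Monic ∧ D.natDegree = n ∧ Irreducible (D.comp g)}

end Pool.Agent.Lib.MP_89bcae_ag

end

section

/-!
# Frobenius orbits
-/

open Polynomial IntermediateField

namespace Pool.Agent.Lib.MP_89bcae_ag

variable {k F : Type*} [Field k] [Fintype k] [Field F] [Algebra k F] [Algebra.IsAlgebraic k F]

variable (k F) in
/-- The Frobenius automorphism. -/
noncomputable def frob8 : F ≃ₐ[k] F := FiniteField.frobeniusAlgEquivOfAlgebraic k F

lemma frob8_apply (x : F) : frob8 k F x = x ^ Fintype.card k := rfl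

lemma frob8_pow_apply (i : ℕ) (x : F) : (frob8 k F ^ i) x = x ^ (Fintype.card k ^ i) := by
  induction i generalizing x with
  | zero => simp
  | succ i ih => rw [pow_succ, AlgEquiv.mul_apply, frob8_apply, ih, ← pow_mul, pow_succ, mul_comm]

lemma frob8_pow_pow (i m : ℕ) {x : F} (h : (frob8 k F ^ i) x = x) :
    (frob8 k F ^ (i * m)) x = x := by
  induction m with
  | zero => simp
  | succ m ih => rw [Nat.mul_succ, pow_add, AlgEquiv.mul_apply, h, ih]

lemma frob8_pow_mod {N : ℕ} (i : ℕ) {x : F} (h : (frob8 k F ^ N) x = x) :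
    (frob8 k F ^ (i % N)) x = (frob8 k F ^ i) x := by
  conv_rhs => rw [← Nat.mod_add_div i N, pow_add, AlgEquiv.mul_apply, frob8_pow_pow N _ h]

/-- The Frobenius orbit of an element has the degree of its minimal polynomial as length. -/
lemma frob8_pow_eq_iff (x : F) (i : ℕ) :
    (frob8 k F ^ i) x = x ↔ (minpoly k x).natDegree ∣ i := by
  have hint : IsIntegral k x := Algebra.IsIntegral.isIntegral x
  have : FiniteDimensional k k⟮x⟯ := adjoin.finiteDimensional hint
  have : Finite k⟮x⟯ := Module.finite_of_finite k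
  rw [← adjoin.finrank hint, ← FiniteField.orderOf_frobeniusAlgEquivOfAlgebraic k k⟮x⟯,
    orderOf_dvd_iff_pow_eq_one]
  have key : ∀ y : k⟮x⟯, (((FiniteField.frobeniusAlgEquivOfAlgebraic k k⟮x⟯ ^ i) y : k⟮x⟯) : F) =
      (frob8 k F ^ i) (y : F) := by
    intro y
    rw [frob8_pow_apply, AlgEquiv.coe_pow, FiniteField.coe_frobeniusAlgEquivOfAlgebraic_iterate]
    rfl
  constructor
  · intro h
    ext y
    rw [key]
    change (frob8 k F ^ i) (y : F) = y
    have h1 : k⟮x⟯ ≤ IntermediateField.fixedField (Subgroup.zpowers (frob8 k F ^ i)) := by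
      rw [adjoin_simple_le_iff, IntermediateField.mem_fixedField_iff]
      intro τ hτ
      obtain ⟨m, rfl⟩ := Subgroup.mem_zpowers_iff.mp hτ
      exact (MulAction.stabilizer (F ≃ₐ[k] F) x).zpow_mem
        (show frob8 k F ^ i ∈ MulAction.stabilizer (F ≃ₐ[k] F) x from h) m
    exact (IntermediateField.mem_fixedField_iff _ _).mp (h1 y.2) _ (Subgroup.mem_zpowers _)
  · intro h
    have h1 := key (AdjoinSimple.gen k x)
    rw [h] at h1
    exact h1.symm

/-- The roots of an irreducible polynomial form a Frobenius orbit. -/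
lemma exists_frob8_pow [IsAlgClosed F] {p : k[X]} (hp : Irreducible p) {x y : F}
    (hx : aeval x p = 0) (hy : aeval y p = 0) : ∃ i < p.natDegree, y = (frob8 k F ^ i) x := by
  classical
  have hsep : p.Separable := PerfectField.separable_of_irreducible hp
  have hdeg : (minpoly k x).natDegree = p.natDegree := by
    have h1 := minpoly.eq_of_irreducible hp hx
    rw [← h1, natDegree_mul_leadingCoeff_inv _ hp.ne_zero]
  have hcard : (p.rootSet F).ncard = p.natDegree := by
    rw [← Nat.card_coe_set_eq, Nat.card_eq_fintype_card]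
    exact card_rootSet_eq_natDegree hsep (IsAlgClosed.splits _)
  let f : ℕ → F := fun i => (frob8 k F ^ i) x
  have hinj : Set.InjOn f (Finset.range p.natDegree : Set ℕ) := by
    intro a ha b hb hab
    rw [Finset.mem_coe, Finset.mem_range] at ha hb
    wlog hle : a ≤ b generalizing a b
    · exact (this hb ha hab.symm (by omega)).symm
    have h1 : (frob8 k F ^ (b - a)) x = x := by
      apply (frob8 k F ^ a).injective
      rw [← AlgEquiv.mul_apply, ← pow_add, Nat.add_sub_cancel' hle]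
      exact hab.symm
    rw [frob8_pow_eq_iff, hdeg] at h1
    have := Nat.eq_zero_of_dvd_of_lt h1 (by omega)
    omega
  have hsub : ((Finset.range p.natDegree).image f : Set F) ⊆ p.rootSet F := by
    intro z hz
    rw [Finset.mem_coe, Finset.mem_image] at hz
    obtain ⟨i, -, rfl⟩ := hz
    rw [mem_rootSet]
    refine ⟨hp.ne_zero, ?_⟩
    change aeval ((frob8 k F ^ i : F ≃ₐ[k] F) x) p = 0
    rw [← AlgEquiv.coe_toAlgHom (frob8 k F ^ i), aeval_algHom_apply, hx, map_zero]
  have heq : ((Finset.range p.natDegree).image f : Set F) = p.rootSet F := by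
    apply Set.eq_of_subset_of_ncard_le hsub _ (rootSet_finite _ _)
    rw [hcard, Set.ncard_coe_finset, Finset.card_image_of_injOn hinj, Finset.card_range]
  have hy' : y ∈ p.rootSet F := mem_rootSet.mpr ⟨hp.ne_zero, hy⟩
  rw [← heq, Finset.mem_coe, Finset.mem_image] at hy'
  obtain ⟨i, hi, rfl⟩ := hy'
  exact ⟨i, Finset.mem_range.mp hi, rfl⟩

end Pool.Agent.Lib.MP_89bcae_ag

end

section

/-!
# Lifting the Frobenius automorphism of a finite residue field
-/

open Polynomial

namespace Pool.Agent.Lib.MP_89bcae_ag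

set_option linter.unusedSectionVars false
set_option linter.style.haveILetI false

section Red

variable {R F κ Fκ : Type*} [CommRing R] [IsDomain R] [Field F] [Algebra R F] [FaithfulSMul R F]
  [Field κ] [Field Fκ] [Algebra κ Fκ] [IsAlgClosed Fκ]

/-- Extension of the reduction to the integral closure. -/
lemma exists_red14 (π : R →+* κ) (hπ : Function.Surjective π) :
    ∃ ρ : integralClosure R F →+* Fκ,
      ∀ r, ρ (algebraMap R (integralClosure R F) r) = algebraMap κ Fκ (π r) := by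
  set O := integralClosure R F with hO
  have hmax : (RingHom.ker π).IsMaximal := RingHom.ker_isMaximal_of_surjective π hπ
  have hinj : Function.Injective (algebraMap R O) := FaithfulSMul.algebraMap_injective R O
  obtain ⟨Q, hQ, hQ'⟩ := Ideal.exists_ideal_over_maximal_of_isIntegral (S := O) (RingHom.ker π) (by
    rw [(RingHom.injective_iff_ker_eq_bot _).mp hinj]
    exact bot_le)
  letI := Ideal.Quotient.field Q
  -- the map from `κ`
  let e : κ →+* O ⧸ Q := (RingHom.liftOfRightInverse π _ (Function.rightInverse_surjInv hπ))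
    ⟨(Ideal.Quotient.mk Q).comp (algebraMap R O), by
      intro x hx
      rw [RingHom.mem_ker, RingHom.comp_apply, Ideal.Quotient.eq_zero_iff_mem, ← Ideal.mem_comap, hQ']
      exact hx⟩
  have he : ∀ r, e (π r) = Ideal.Quotient.mk Q (algebraMap R O r) := fun r =>
    RingHom.liftOfRightInverse_comp_apply π _ _ _ r
  letI : Algebra κ (O ⧸ Q) := e.toAlgebra
  have halg : Algebra.IsAlgebraic κ (O ⧸ Q) := by
    refine ⟨fun x => ?_⟩
    obtain ⟨x, rfl⟩ := Ideal.Quotient.mk_surjective x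
    have hx : IsIntegral R x := Algebra.IsIntegral.isIntegral x
    obtain ⟨p, hp, hpx⟩ := hx
    apply IsIntegral.isAlgebraic
    refine ⟨p.map π, hp.map π, ?_⟩
    rw [eval₂_map]
    have h1 : (algebraMap κ (O ⧸ Q)).comp π = (Ideal.Quotient.mk Q).comp (algebraMap R O) :=
      RingHom.ext he
    rw [h1, ← hom_eval₂, hpx, map_zero]
  let f : (O ⧸ Q) →ₐ[κ] Fκ := IsAlgClosed.lift
  refine ⟨(f : (O ⧸ Q) →+* Fκ).comp (Ideal.Quotient.mk Q), fun r => ?_⟩
  rw [RingHom.comp_apply, ← he]
  exact f.commutes (π r)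

end Red

section Frob

variable {R K F κ Fκ : Type*} [CommRing R] [IsDomain R] [IsIntegrallyClosed R] [Field K]
  [Algebra R K] [IsFractionRing R K] [Field F] [Algebra K F] [Algebra R F] [IsScalarTower R K F]
  [Field κ] [Field Fκ] [Algebra κ Fκ]

attribute [local instance] Ideal.Quotient.field in
/-- The Frobenius element of a finite Galois extension. -/
lemma exists_sigma14 [Finite κ] (π : R →+* κ) (hπ : Function.Surjective π)
    (ρ : integralClosure R F →+* Fκ)
    (hρ : ∀ r, ρ (algebraMap R (integralClosure R F) r) = algebraMap κ Fκ (π r))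
    (M : IntermediateField K F) [FiniteDimensional K M] [IsGalois K M] :
    ∃ σ : M ≃ₐ[K] M, ∀ (x : M) (hx : IsIntegral R (x : F)),
      ∃ hx' : IsIntegral R ((σ x : M) : F), ρ ⟨(σ x : M), hx'⟩ = ρ ⟨x, hx⟩ ^ Nat.card κ := by
  have hRM : IsScalarTower R M F := IsScalarTower.of_algebraMap_eq fun r => by
    rw [IsScalarTower.algebraMap_apply R K F, IsScalarTower.algebraMap_apply R K M]
    rfl
  set B := integralClosure R M with hB
  have hBF : ∀ x : B, IsIntegral R (((x : M) : F)) := fun x =>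
    (x.2 : IsIntegral R (x : M)).map (IsScalarTower.toAlgHom R M F)
  let ι : B →+* integralClosure R F :=
    { toFun := fun x => ⟨((x : M) : F), hBF x⟩
      map_one' := rfl
      map_mul' := fun _ _ => rfl
      map_zero' := rfl
      map_add' := fun _ _ => rfl }
  set Q : Ideal B := RingHom.ker (ρ.comp ι) with hQ
  have hQp : Q.IsPrime := RingHom.ker_isPrime _
  have hfr : IsFractionRing B M := integralClosure.isFractionRing_of_finite_extension K M
  have hinv : Algebra.IsInvariant R B (B ≃ₐ[R] B) := Algebra.isInvariant_of_isGalois' R K M B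
  have hfinG : Finite (B ≃ₐ[R] B) := Finite.of_equiv _ (galRestrict R K M B).toEquiv
  -- the prime below
  have hP : Q.under R = RingHom.ker π := by
    ext r
    rw [Ideal.under_def, Ideal.mem_comap, hQ, RingHom.mem_ker, RingHom.mem_ker, RingHom.comp_apply]
    have h1 : ι (algebraMap R B r) = algebraMap R (integralClosure R F) r := by
      apply Subtype.ext
      change ((algebraMap R M r : M) : F) = algebraMap R F r
      exact (IsScalarTower.algebraMap_apply R M F r).symm
    rw [h1, hρ, FaithfulSMul.algebraMap_eq_zero_iff]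
  have hPm : (Q.under R).IsMaximal := by
    rw [hP]
    exact RingHom.ker_isMaximal_of_surjective π hπ
  have hint : Algebra.IsIntegral R B := inferInstance
  have hQm : Q.IsMaximal := Ideal.isMaximal_of_isIntegral_of_isMaximal_comap Q hPm
  have hequiv : (R ⧸ Q.under R) ≃ κ := by
    rw [hP]
    exact (RingHom.quotientKerEquivOfSurjective hπ).toEquiv
  have hfin : Finite (R ⧸ Q.under R) := Finite.of_equiv _ hequiv.symm
  have hsep : Algebra.IsSeparable (R ⧸ Q.under R) (B ⧸ Q) := by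
    have h0 : Algebra.IsIntegral (R ⧸ Q.under R) (B ⧸ Q) := inferInstance
    have h1 : Algebra.IsAlgebraic (R ⧸ Q.under R) (B ⧸ Q) :=
      ⟨fun x => (h0.isIntegral x).isAlgebraic⟩
    exact Algebra.IsAlgebraic.isSeparable_of_perfectField
  have hmf : Module.Finite (R ⧸ Q.under R) (B ⧸ Q) :=
    Ideal.Quotient.finite_of_isInvariant (B ≃ₐ[R] B) (Q.under R) Q
  have hfinB : Finite (B ⧸ Q) := Module.finite_of_finite (R ⧸ Q.under R)
  obtain ⟨τ, hτ⟩ := IsArithFrobAt.exists_of_isInvariant R (B ≃ₐ[R] B) Q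
  refine ⟨(galRestrict R K M B).symm τ, fun x hx => ?_⟩
  have hxM : IsIntegral R x := by
    rwa [← isIntegral_algebraMap_iff (A := M) (B := F) (algebraMap M F).injective]
  set y : B := ⟨x, hxM⟩ with hy
  have h2 : (((galRestrict R K M B).symm τ) x : M) = (τ y : B) := by
    have h3 := algebraMap_galRestrict_apply R (B := B) ((galRestrict R K M B).symm τ) y
    rw [MulEquiv.apply_symm_apply] at h3
    exact h3.symm
  have hx' : IsIntegral R ((((galRestrict R K M B).symm τ) x : M) : F) := by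
    rw [h2]
    exact hBF _
  refine ⟨hx', ?_⟩
  have h4 := hτ y
  rw [hQ, RingHom.mem_ker, map_sub, map_pow, sub_eq_zero] at h4
  have h5 : ρ ⟨(((galRestrict R K M B).symm τ) x : M), hx'⟩ = (ρ.comp ι) (τ y) := by
    rw [RingHom.comp_apply]
    congr 1
    apply Subtype.ext
    exact congrArg (fun z : M => (z : F)) h2
  rw [h5]
  have h6 : Nat.card κ = Nat.card (R ⧸ Q.under R) := (Nat.card_congr hequiv).symm
  rw [h6]
  exact h4

/-- **Lifting Frobenius.** -/
theorem exists_frob_lift14 [Finite κ] [IsAlgClosed F] [Algebra.IsAlgebraic K F] (π : R →+* κ)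
    (hπ : Function.Surjective π) (ρ : integralClosure R F →+* Fκ)
    (hρ : ∀ r, ρ (algebraMap R (integralClosure R F) r) = algebraMap κ Fκ (π r))
    (S : Finset F) (hS : ∀ x ∈ S, IsSeparable K x) :
    ∃ (φ : F ≃ₐ[K] F) (M : Set F), (∀ x ∈ S, x ∈ M) ∧ ∀ x ∈ M, φ x ∈ M ∧
      ∀ hx : IsIntegral R x, ∃ hx' : IsIntegral R (φ x),
        ρ ⟨φ x, hx'⟩ = ρ ⟨x, hx⟩ ^ Nat.card κ := by
  classical
  have hcl : IsAlgClosure K F := ⟨inferInstance, inferInstance⟩
  have hnF : Normal K F := IsAlgClosure.normal K F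
  set M₀ : IntermediateField K F := IntermediateField.adjoin K (S : Set F) with hM₀
  have hfd : FiniteDimensional K M₀ :=
    IntermediateField.finiteDimensional_adjoin fun x _ => Algebra.IsIntegral.isIntegral x
  have hsep₀ : Algebra.IsSeparable K M₀ :=
    (IntermediateField.isSeparable_adjoin_iff_isSeparable (F := K) (E := F)).mpr hS
  set M : IntermediateField K F := IntermediateField.normalClosure K M₀ F with hM
  have hMn : Normal K M := normalClosure.normal K M₀ F
  have hMfd : FiniteDimensional K M := normalClosure.is_finiteDimensional K M₀ F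
  have hMs : Algebra.IsSeparable K M := by
    rw [← le_separableClosure_iff, hM, normalClosure_le_iff]
    intro f
    have : Algebra.IsSeparable K f.fieldRange :=
      AlgEquiv.Algebra.isSeparable (AlgEquiv.ofInjectiveField f)
    exact le_separableClosure K F _
  have hMG : IsGalois K M := ⟨⟩
  obtain ⟨σ, hσ⟩ := exists_sigma14 π hπ ρ hρ M
  refine ⟨σ.liftNormal F, (M : Set F), fun x hx => ?_, fun x hx => ?_⟩
  · exact (IntermediateField.le_normalClosure M₀) (IntermediateField.subset_adjoin K _ hx)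
  · have h1 : (σ.liftNormal F) x = ((σ ⟨x, hx⟩ : M) : F) := σ.liftNormal_commutes F ⟨x, hx⟩
    rw [h1]
    exact ⟨(σ ⟨x, hx⟩).2, fun hi => hσ ⟨x, hx⟩ hi⟩

end Frob

end Pool.Agent.Lib.MP_89bcae_ag

end

section

/-!
# The family of the monic `D` of degree `n` with `D(g(x))` irreducible: elementary lemmas
-/

open Polynomial IntermediateField

namespace Pool.Agent.Lib.MP_89bcae_ag

universe u

section Basic

variable {k : Type u} [Field k]

lemma family_finite8 [Finite k] (g : k[X]) (n : ℕ) : (family g n).Finite := by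
  have hinj : Set.InjOn (fun D : k[X] => fun i : Fin (n + 1) => D.coeff i) (family g n) := by
    rintro D ⟨-, h1, -⟩ D' ⟨-, h1', -⟩ h
    ext i
    by_cases hi : i < n + 1
    · exact congrFun h ⟨i, hi⟩
    · rw [coeff_eq_zero_of_natDegree_lt (by omega), coeff_eq_zero_of_natDegree_lt (by omega)]
  exact Set.Finite.of_finite_image (Set.toFinite _) hinj

lemma irreducible_of_comp8 {g D : k[X]} (hdeg : g.natDegree = 3) (h : Irreducible (D.comp g)) :
    Irreducible D := by
  refine ⟨fun hu => ?_, fun a b hab => ?_⟩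
  · have h1 := h.natDegree_pos
    rw [natDegree_comp, natDegree_eq_zero_of_isUnit hu] at h1
    omega
  · have h1 : IsUnit (a.comp g) ∨ IsUnit (b.comp g) := h.isUnit_or_isUnit (by rw [hab, mul_comp])
    have key : ∀ c : k[X], c ≠ 0 → IsUnit (c.comp g) → IsUnit c := by
      intro c hc hu
      have h2 := natDegree_eq_zero_of_isUnit hu
      rw [natDegree_comp, hdeg] at h2
      have h3 : c.natDegree = 0 := by omega
      obtain ⟨r, hr⟩ := natDegree_eq_zero.mp h3
      rw [← hr] at hc ⊢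
      rw [isUnit_C]
      exact (isUnit_iff_ne_zero).mpr (fun h0 => hc (by rw [h0, C_0]))
    have hD0 : D ≠ 0 := by
      rintro rfl
      exact h.ne_zero zero_comp
    rcases h1 with h1 | h1
    · exact Or.inl (key a (by rintro rfl; exact hD0 (by rw [hab, zero_mul])) h1)
    · exact Or.inr (key b (by rintro rfl; exact hD0 (by rw [hab, mul_zero])) h1)

end Basic

lemma aeval_cubic8 {k F : Type*} [Field k] [Field F] [Algebra k F] {g : k[X]} (hg : g.Monic) (hdeg : g.natDegree = 3) (x : F) :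
    aeval x g = x ^ 3 + algebraMap k F (g.coeff 2) * x ^ 2 + algebraMap k F (g.coeff 1) * x +
      algebraMap k F (g.coeff 0) := by
  have h3 : g.coeff 3 = 1 := by
    have := hg.coeff_natDegree
    rwa [hdeg] at this
  rw [aeval_eq_sum_range, hdeg]
  simp only [Finset.sum_range_succ, Finset.sum_range_zero, Algebra.smul_def, h3, map_one]
  ring

open scoped Classical in
/-- The roots of the polynomials of a finite set of monic irreducible polynomials of degree `n`. -/
lemma exists_roots_card8 {k F : Type u} [Field k] [Fintype k] [Field F] [Algebra k F]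
    [IsAlgClosure k F] (n : ℕ) (S : Finset k[X])
    (hS : ∀ D ∈ S, D.Monic ∧ D.natDegree = n ∧ Irreducible D) :
    ∃ A : Finset F, (∀ a, a ∈ A ↔ minpoly k a ∈ S) ∧ A.card = n * S.card := by
  have hF : IsAlgClosed F := IsAlgClosure.isAlgClosed k
  have hkF : Algebra.IsAlgebraic k F := IsAlgClosure.isAlgebraic
  have key : ∀ D ∈ S, ∀ a : F, a ∈ (D.aroots F).toFinset ↔ minpoly k a = D := by
    intro D hD a
    obtain ⟨h1, -, h3⟩ := hS D hD
    rw [Multiset.mem_toFinset, mem_aroots]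
    constructor
    · rintro ⟨-, h4⟩
      exact (minpoly.eq_of_irreducible_of_monic h3 h4 h1).symm
    · intro h4
      exact ⟨h3.ne_zero, by rw [← h4, minpoly.aeval]⟩
  refine ⟨S.biUnion fun D => (D.aroots F).toFinset, fun a => ?_, ?_⟩
  · rw [Finset.mem_biUnion]
    constructor
    · rintro ⟨D, hD, h⟩
      rw [(key D hD a).mp h]
      exact hD
    · intro h
      exact ⟨_, h, (key _ h a).mpr rfl⟩
  · rw [Finset.card_biUnion]
    · rw [Finset.sum_const_nat (m := n), mul_comm]
      intro D hD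
      obtain ⟨h1, h2, h3⟩ := hS D hD
      have hsep : D.Separable := PerfectField.separable_of_irreducible h3
      have h4 : (D.aroots F).Nodup := nodup_roots hsep.map
      rw [Multiset.toFinset_card_of_nodup h4, aroots_def,
        ← (IsAlgClosed.splits (D.map (algebraMap k F))).natDegree_eq_card_roots, natDegree_map, h2]
    · intro D hD D' hD' hne
      rw [Function.onFun, Finset.disjoint_left]
      intro a ha ha'
      exact hne (((key D hD a).mp ha).symm.trans ((key D' hD' a).mp ha'))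

/-- If `g - a` has no root in `k(a)`, then `D(g(x))` is irreducible for the minimal polynomial `D`
of `a`. -/
lemma minpoly_mem_family8 {k F : Type u} [Field k] [Fintype k] [Field F] [Algebra k F]
    [IsAlgClosure k F] {g : k[X]} (hg : g.Monic) (hdeg : g.natDegree = 3) {n : ℕ} (hn : 0 < n)
    {a : F} (ha : a ^ (Fintype.card k ^ n) = a)
    (ha' : ∀ i, 0 < i → i < n → a ^ (Fintype.card k ^ i) ≠ a)
    (hroot : ∀ x : F, x ^ (Fintype.card k ^ n) = x → aeval x g ≠ a) :
    minpoly k a ∈ family g n := by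
  have hF : IsAlgClosed F := IsAlgClosure.isAlgClosed k
  have hkF : Algebra.IsAlgebraic k F := IsAlgClosure.isAlgebraic
  have hint : ∀ x : F, IsIntegral k x := fun x => Algebra.IsIntegral.isIntegral x
  have hdn : (minpoly k a).natDegree = n := by
    have h1 : (minpoly k a).natDegree ∣ n := by
      rw [← frob8_pow_eq_iff, frob8_pow_apply, ha]
    have h2 := Nat.le_of_dvd hn h1
    have h3 : 0 < (minpoly k a).natDegree := minpoly.natDegree_pos (hint a)
    by_contra h4
    apply ha' _ h3 (lt_of_le_of_ne h2 h4)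
    rw [← frob8_pow_apply, frob8_pow_eq_iff]
  refine ⟨minpoly.monic (hint a), hdn, ?_⟩
  -- a root of `g - a`
  obtain ⟨β, hβ⟩ : ∃ β : F, aeval β g = a := by
    have h1 : (g.map (algebraMap k F) - C a).degree ≠ 0 := by
      have h3 : (g.map (algebraMap k F) - C a).natDegree = 3 := by
        rw [natDegree_sub_C, hg.natDegree_map, hdeg]
      intro h4
      rw [natDegree_eq_of_degree_eq_some h4] at h3
      exact absurd h3 (by norm_num)
    obtain ⟨β, hβ⟩ := IsAlgClosed.exists_root _ h1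
    refine ⟨β, ?_⟩
    rw [IsRoot.def, eval_sub, eval_C, eval_map_algebraMap] at hβ
    exact sub_eq_zero.mp hβ
  have hfg : ∀ (i : ℕ) (x : F), aeval ((frob8 k F ^ i) x) g = (frob8 k F ^ i) (aeval x g) := by
    intro i x
    change aeval ((frob8 k F ^ i : F ≃ₐ[k] F) x) g = _
    rw [← AlgEquiv.coe_toAlgHom (frob8 k F ^ i), aeval_algHom_apply]
  have hcomp : aeval β ((minpoly k a).comp g) = 0 := by
    rw [aeval_comp, hβ, minpoly.aeval]
  have hcm : ((minpoly k a).comp g).Monic := (minpoly.monic (hint a)).comp hg (by omega)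
  have hcd : ((minpoly k a).comp g).natDegree = 3 * n := by
    rw [natDegree_comp, hdeg, hdn, mul_comm]
  set m := (minpoly k β).natDegree with hm
  have hmpos : 0 < m := minpoly.natDegree_pos (hint β)
  have hmle : m ≤ 3 * n := by
    rw [← hcd]
    exact natDegree_le_of_dvd (minpoly.dvd k β hcomp) hcm.ne_zero
  have hnm : n ∣ m := by
    rw [← hdn, ← frob8_pow_eq_iff, ← hβ, ← hfg, (frob8_pow_eq_iff β m).mpr dvd_rfl]
  obtain ⟨e, he⟩ := hnm
  have he3 : e ≤ 3 := by
    rw [he, mul_comm] at hmle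
    exact Nat.le_of_mul_le_mul_right hmle hn
  have he0 : e ≠ 0 := by
    rintro rfl
    omega
  have hβn : (frob8 k F ^ n) β ≠ β := by
    intro h
    rw [frob8_pow_apply] at h
    exact hroot β h hβ
  have he1 : e ≠ 1 := by
    rintro rfl
    apply hβn
    rw [frob8_pow_eq_iff, ← hm, he, mul_one]
  have he2 : e ≠ 2 := by
    rintro rfl
    set β' := (frob8 k F ^ n) β with hβ'
    have h1 : (frob8 k F ^ n) β' = β := by
      rw [hβ', ← AlgEquiv.mul_apply, ← pow_add, frob8_pow_eq_iff, ← hm, he]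
      exact ⟨1, by ring⟩
    have h2 : aeval β' g = a := by
      rw [hβ', hfg, hβ, frob8_pow_apply, ha]
    have h3 : (frob8 k F ^ n) (-algebraMap k F (g.coeff 2) - β - β') =
        -algebraMap k F (g.coeff 2) - β - β' := by
      rw [map_sub, map_sub, map_neg, AlgEquiv.commutes, h1, ← hβ']
      ring
    rw [frob8_pow_apply] at h3
    refine hroot _ h3 ?_
    rw [← hβ]
    rw [aeval_cubic8 hg hdeg] at h2 hβ ⊢
    rw [aeval_cubic8 hg hdeg]
    have h4 : (β' - β) * (β' ^ 2 + β' * β + β ^ 2 + algebraMap k F (g.coeff 2) * (β' + β) +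
        algebraMap k F (g.coeff 1)) = 0 := by
      linear_combination h2 - hβ
    have h5 := (mul_eq_zero.mp h4).resolve_left (sub_ne_zero.mpr hβn)
    linear_combination (-algebraMap k F (g.coeff 2) - β - β' - β) * h5
  have hm3 : m = 3 * n := by
    have : e = 3 := by omega
    rw [he, this, mul_comm]
  have hfin : (minpoly k a).comp g = minpoly k β := by
    apply eq_of_monic_of_dvd_of_natDegree_le (minpoly.monic (hint β)) hcm
      (minpoly.dvd k β hcomp)
    rw [hcd, ← hm, hm3]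
  rw [hfin]
  exact minpoly.irreducible (hint β)


end Pool.Agent.Lib.MP_89bcae_ag

end

section

/-!
# Uniqueness and Galois equivariance of the descent data
-/

open Polynomial WeierstrassCurve WeierstrassCurve.Affine

open scoped Classical

namespace Pool.Agent.Lib.MP_89bcae_ag

set_option linter.unusedSectionVars false

section Unique

variable {R F L Ω : Type*} [CommRing R] [Field F] [IsAlgClosed F] [Field L] [Field Ω]
  [Algebra F[X] L] [IsFractionRing F[X] L] [Algebra L Ω] [Algebra F[X] Ω] [IsScalarTower F[X] L Ω]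
  [Algebra R L] [Algebra R Ω] [IsScalarTower R L Ω] {W : Affine R} {g D : F[X]}
  [IsGalois L Ω] [IsSepClosed Ω] [DecidableEq Ω]

lemma IsDesc.ne_zero {c : (Ω ≃ₐ[L] Ω) → (W.baseChange Ω).Point} {Z : Finset F} {b : Ω → Ω}
    (h : IsDesc W g D c Z b) {θ : Ω} (hθ : θ ∈ RootSet (Ω := Ω) g) : b θ ≠ 0 := by
  intro h0
  have h1 := h.sq θ hθ
  rw [h0, zero_pow two_ne_zero, eq_comm, Finset.prod_eq_zero_iff] at h1
  obtain ⟨β, -, h2⟩ := h1
  exact root_sub_ne_zero L hθ β h2

lemma ev_prod (Z : Finset F) (θ : Ω) :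
    ev F Ω θ (∏ β ∈ Z, (X - C β)) = ∏ β ∈ Z, (θ - algebraMap F[X] Ω (C β)) := by
  rw [map_prod]
  apply Finset.prod_congr rfl
  intro β _
  rw [map_sub, ev_X, ev_C]

/-- The quotient of two descent functions, for cocycles with the same values, is a rational
function of `θ`. -/
lemma IsDesc.exists_ratio {c : (Ω ≃ₐ[L] Ω) → (W.baseChange Ω).Point} {Z Z' : Finset F}
    {b b' : Ω → Ω} (h : IsDesc W g D c Z b) (h' : IsDesc W g D c Z' b') (h2 : (2 : Ω) ≠ 0)
    (hW : IsTwist Ω W g D) (hc : ∀ σ, 2 • c σ = 0) {θ : Ω} (hθ : θ ∈ RootSet (Ω := Ω) g) :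
    ∃ p q : F[X], q ≠ 0 ∧ b θ * b' θ * ev F Ω θ q = ev F Ω θ p := by
  apply exists_rational_of_fixed (L := L) hθ
  intro σ hσ
  rw [map_mul, h.act θ hθ, h'.act θ hθ, hσ]
  linear_combination (b θ * b' θ) * rho_two_torsion_mul_self hW.short h2
    (algebraMap F[X] Ω D * θ) (hc σ)

/-- Uniqueness of the set `Z`. -/
lemma IsDesc.unique {c : (Ω ≃ₐ[L] Ω) → (W.baseChange Ω).Point} {Z Z' : Finset F}
    {b b' : Ω → Ω} (h : IsDesc W g D c Z b) (h' : IsDesc W g D c Z' b') (h2 : (2 : Ω) ≠ 0)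
    (hW : IsTwist Ω W g D) (hg : g.Monic) (hdeg : g.natDegree = 3) (hd : derivative g ≠ 0)
    (hc : ∀ σ, 2 • c σ = 0) : Z = Z' := by
  obtain ⟨θ, _, _, -, -, -, hR, -, -⟩ := exists_three_roots (F := F) L (Ω := Ω) hg hdeg hd
  have hθ : θ ∈ RootSet (Ω := Ω) g := (hR θ).mpr (Or.inl rfl)
  obtain ⟨p, q, hq, hpq⟩ := h.exists_ratio h' h2 hW hc hθ
  apply eq_of_sq Z Z' hq (p := p)
  apply ev_injective L hθ
  rw [map_pow, ← hpq, map_mul, map_mul, map_pow, ev_prod, ev_prod, ← h.sq θ hθ, ← h'.sq θ hθ]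
  ring

/-- Changing the cocycle by a coboundary. -/
lemma IsDesc.twist {c c' : (Ω ≃ₐ[L] Ω) → (W.baseChange Ω).Point} {Z : Finset F}
    {b : Ω → Ω} (h : IsDesc W g D c Z b) (h2 : (2 : Ω) ≠ 0)
    (hW : IsTwist Ω W g D) (hg : g.Monic) (hdeg : g.natDegree = 3)
    {A : (W.baseChange Ω).Point} (hA : 2 • A = 0)
    (hcc : ∀ σ : Ω ≃ₐ[L] Ω, c' σ = c σ + (Point.map (σ : Ω →ₐ[L] Ω) A - A)) :
    IsDesc W g D c' Z (fun θ => rho (algebraMap F[X] Ω D * θ) A * b θ) := by
  have hsq : ∀ θ : Ω, rho (algebraMap F[X] Ω D * θ) A * rho (algebraMap F[X] Ω D * θ) A = 1 :=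
    fun θ => rho_two_torsion_mul_self hW.short h2 _ hA
  have hnA : -A = A := by
    have : A + A = 0 := by rw [← two_nsmul]; exact hA
    exact neg_eq_of_add_eq_zero_left this
  refine ⟨?_, ?_⟩
  · intro θ hθ
    rw [mul_pow, h.sq θ hθ, pow_two, hsq, one_mul]
  · intro θ hθ σ
    have hσA : 2 • Point.map (W' := W) (σ : Ω →ₐ[L] Ω) A = 0 := by
      rw [← map_nsmul, hA, map_zero]
    have hθ' := map_mem_rootSet σ hθ
    have hrt := hW.rt hg hdeg hθ'
    rw [hcc, sub_eq_add_neg, hnA, rho_add hW.short h2 hrt _ _ (by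
      rw [smul_add, hσA, hA, add_zero]), rho_add hW.short h2 hrt _ _ hA,
      rho_map_two_torsion h2 hW σ θ hA, map_mul, h.act θ hθ]
    have h3 : σ (rho (algebraMap F[X] Ω D * θ) A) = rho (algebraMap F[X] Ω D * θ) A := by
      rcases rho_two_torsion_sq hW.short h2 (algebraMap F[X] Ω D * θ) hA with e | e <;> simp [e]
    rw [h3]
    linear_combination (-(rho (algebraMap F[X] Ω D * θ) A) *
      rho (algebraMap F[X] Ω D * σ θ) (c σ) * b (σ θ)) * hsq (σ θ)

end Unique

section Conj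

variable {R F L Ω : Type*} [CommRing R] [Field F] [IsAlgClosed F] [Field L] [Field Ω]
  [Algebra F[X] L] [IsFractionRing F[X] L] [Algebra L Ω] [Algebra F[X] Ω] [IsScalarTower F[X] L Ω]
  [Algebra R L] [Algebra R Ω] [IsScalarTower R L Ω] {W : Affine R} {g D : F[X]}
  [IsGalois L Ω] [IsSepClosed Ω] [DecidableEq Ω] {γ : Ω ≃ₐ[R] Ω} {τ : F →+* F}

lemma ev_gamma (hγ : ∀ p : F[X], γ (algebraMap F[X] Ω p) = algebraMap F[X] Ω (p.map τ))
    (θ : Ω) (p : F[X]) : γ (ev F Ω θ p) = ev F Ω (γ θ) (p.map τ) := by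
  have h : (γ : Ω →+* Ω).comp (ev F Ω θ) = (ev F Ω (γ θ)).comp (mapRingHom τ) := by
    apply Polynomial.ringHom_ext
    · intro a
      simp only [RingHom.comp_apply, ev_C, coe_mapRingHom, map_C]
      have := hγ (C a)
      rw [map_C] at this
      exact this
    · simp [ev_X]
  exact RingHom.congr_fun h p

lemma gamma_mem_rootSet (hγ : ∀ p : F[X], γ (algebraMap F[X] Ω p) = algebraMap F[X] Ω (p.map τ))
    (hgτ : g.map τ = g) {θ : Ω} (hθ : θ ∈ RootSet (Ω := Ω) g) : γ θ ∈ RootSet (Ω := Ω) g := by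
  change ev F Ω (γ θ) g = _
  have h1 := ev_gamma hγ θ g
  rw [hgτ, show ev F Ω θ g = _ from hθ, hγ, map_X] at h1
  exact h1.symm

lemma gamma_symm_mem_rootSet
    (hγ : ∀ p : F[X], γ (algebraMap F[X] Ω p) = algebraMap F[X] Ω (p.map τ))
    (hgτ : g.map τ = g) {θ : Ω} (hθ : θ ∈ RootSet (Ω := Ω) g) :
    γ.symm θ ∈ RootSet (Ω := Ω) g := by
  change ev F Ω (γ.symm θ) g = _
  apply γ.injective
  rw [ev_gamma hγ, hgτ, γ.apply_symm_apply, hγ, map_X]
  exact hθ

/-- Conjugating the cocycle by an automorphism over `k(t)`. -/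
lemma IsDesc.conj {c c' : (Ω ≃ₐ[L] Ω) → (W.baseChange Ω).Point} {Z : Finset F}
    {b : Ω → Ω} (h : IsDesc W g D c Z b)
    (hγ : ∀ p : F[X], γ (algebraMap F[X] Ω p) = algebraMap F[X] Ω (p.map τ))
    (hgτ : g.map τ = g) (hDτ : D.map τ = D)
    (hconj : ∀ σ : Ω ≃ₐ[L] Ω, ∃ σ' : Ω ≃ₐ[L] Ω, (∀ x, γ (σ' x) = σ (γ x)) ∧
      c' σ = Point.map (W' := W) (γ : Ω →ₐ[R] Ω) (c σ')) :
    IsDesc W g D c' (Z.image τ) (fun θ => γ (b (γ.symm θ))) := by
  refine ⟨?_, ?_⟩
  · intro θ hθ
    have hθ' := gamma_symm_mem_rootSet hγ hgτ hθ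
    rw [← map_pow, h.sq _ hθ', map_prod, Finset.prod_image (fun x _ y _ hxy => τ.injective hxy)]
    apply Finset.prod_congr rfl
    intro β _
    rw [map_sub, γ.apply_symm_apply, hγ, map_C]
  · intro θ hθ σ
    have hθ' := gamma_symm_mem_rootSet hγ hgτ hθ
    obtain ⟨σ', h1, h3⟩ := hconj σ
    have h4 : σ' (γ.symm θ) = γ.symm (σ θ) := by
      apply γ.injective
      rw [h1, γ.apply_symm_apply, γ.apply_symm_apply]
    rw [← h1, h.act _ hθ', map_mul, h4, h3]
    congr 1
    have h5 : algebraMap F[X] Ω D * σ θ = (γ : Ω →ₐ[R] Ω) (algebraMap F[X] Ω D * γ.symm (σ θ)) := by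
      change _ = γ (algebraMap F[X] Ω D * γ.symm (σ θ))
      rw [map_mul, hγ, hDτ, γ.apply_symm_apply]
    rw [h5, rho_map]
    rfl

/-- Invariance of the class implies invariance of the set `Z`. -/
lemma IsDesc.image_eq {c : (Ω ≃ₐ[L] Ω) → (W.baseChange Ω).Point} {Z : Finset F}
    {b : Ω → Ω} (h : IsDesc W g D c Z b) (h2 : (2 : Ω) ≠ 0)
    (hW : IsTwist Ω W g D) (hg : g.Monic) (hdeg : g.natDegree = 3) (hd : derivative g ≠ 0)
    (hc : ∀ σ, 2 • c σ = 0)
    (hγ : ∀ p : F[X], γ (algebraMap F[X] Ω p) = algebraMap F[X] Ω (p.map τ))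
    (hgτ : g.map τ = g) (hDτ : D.map τ = D)
    (hconj : ∀ σ : Ω ≃ₐ[L] Ω, ∃ σ' : Ω ≃ₐ[L] Ω, ∀ x, γ (σ' x) = σ (γ x))
    {A : (W.baseChange Ω).Point} (hA : 2 • A = 0)
    (hinv : ∀ σ' σ : Ω ≃ₐ[L] Ω, (∀ x, γ (σ' x) = σ (γ x)) →
      Point.map (W' := W) (γ : Ω →ₐ[R] Ω) (c σ') - c σ =
        Point.map (W' := W) (σ : Ω →ₐ[L] Ω) A - A) :
    Z.image τ = Z := by
  set c' : (Ω ≃ₐ[L] Ω) → (W.baseChange Ω).Point :=
    fun σ => c σ + (Point.map (W' := W) (σ : Ω →ₐ[L] Ω) A - A) with hc'
  have h3 := h.twist h2 hW hg hdeg hA (c' := c') (fun σ => rfl)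
  have h4 := h.conj (c' := c') hγ hgτ hDτ (by
    intro σ
    obtain ⟨σ', hσ'⟩ := hconj σ
    refine ⟨σ', hσ', ?_⟩
    rw [hc']
    simp only
    rw [← hinv σ' σ hσ']
    abel)
  apply h4.unique h3 h2 hW hg hdeg hd
  intro σ
  have hσA : 2 • Point.map (W' := W) (σ : Ω →ₐ[L] Ω) A = 0 := by
    rw [← map_nsmul, hA, map_zero]
  rw [hc']
  simp only
  rw [smul_add, hc, smul_sub, hσA, hA, sub_zero, add_zero]

end Conj

end Pool.Agent.Lib.MP_89bcae_ag

end

section

/-!
# The exact effect of an automorphism on the descent functions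
-/

open Polynomial WeierstrassCurve WeierstrassCurve.Affine

open scoped Classical

namespace Pool.Agent.Lib.MP_89bcae_ag

set_option linter.unusedSectionVars false

section SqrtProd

variable {F : Type*} [Field F]

/-- A product over a set with even fibres is a square. -/
lemma prod_even_fibres {M : Type*} [CommMonoid M] (Z : Finset F) (f : F → F) (u : F → M)
    (h : ∀ α, Even (Z.filter fun β => f β = α).card) :
    ∏ β ∈ Z, u (f β) =
      (∏ α ∈ Z.image f, u α ^ ((Z.filter fun β => f β = α).card / 2)) ^ 2 := by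
  rw [Finset.prod_comp u f, ← Finset.prod_pow]
  apply Finset.prod_congr rfl
  intro α _
  rw [← pow_mul]
  congr 1
  obtain ⟨n, hn⟩ := h α
  omega

end SqrtProd

section Conj

variable {R F L Ω : Type*} [CommRing R] [Field F] [IsAlgClosed F] [Field L] [Field Ω]
  [Algebra F[X] L] [IsFractionRing F[X] L] [Algebra L Ω] [Algebra F[X] Ω] [IsScalarTower F[X] L Ω]
  [Algebra R L] [Algebra R Ω] [IsScalarTower R L Ω] {W : Affine R} {g D : F[X]}
  [IsGalois L Ω] [IsSepClosed Ω] [DecidableEq Ω] {γ : Ω ≃ₐ[R] Ω} {τ : F →+* F}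

/-- The effect of an automorphism fixing the points of `Z` on the descent functions. -/
lemma IsDesc.conj_eq {c : (Ω ≃ₐ[L] Ω) → (W.baseChange Ω).Point} {Z : Finset F}
    {b : Ω → Ω} (h : IsDesc W g D c Z b) (h2 : (2 : Ω) ≠ 0)
    (hW : IsTwist Ω W g D) (hg : g.Monic) (hdeg : g.natDegree = 3) (hd : derivative g ≠ 0)
    (hD : D ≠ 0) (hc : ∀ σ, 2 • c σ = 0)
    (hγ : ∀ p : F[X], γ (algebraMap F[X] Ω p) = algebraMap F[X] Ω (p.map τ))
    (hgτ : g.map τ = g) (hDτ : D.map τ = D)
    (hconj : ∀ σ : Ω ≃ₐ[L] Ω, ∃ σ' : Ω ≃ₐ[L] Ω, ∀ x, γ (σ' x) = σ (γ x))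
    (hfix : ∀ β ∈ Z, τ β = β)
    {A : (W.baseChange Ω).Point} (hA : 2 • A = 0)
    (hinv : ∀ σ' σ : Ω ≃ₐ[L] Ω, (∀ x, γ (σ' x) = σ (γ x)) →
      Point.map (W' := W) (γ : Ω →ₐ[R] Ω) (c σ') - c σ =
        Point.map (W' := W) (σ : Ω →ₐ[L] Ω) A - A) :
    ∀ θ ∈ RootSet (Ω := Ω) g, γ (b (γ.symm θ)) = rho (algebraMap F[X] Ω D * θ) A * b θ := by
  set c' : (Ω ≃ₐ[L] Ω) → (W.baseChange Ω).Point :=
    fun σ => c σ + (Point.map (W' := W) (σ : Ω →ₐ[L] Ω) A - A) with hc'
  have h3 := h.twist h2 hW hg hdeg hA (c' := c') (fun σ => rfl)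
  have h4 := h.conj (c' := c') hγ hgτ hDτ (by
    intro σ
    obtain ⟨σ', hσ'⟩ := hconj σ
    refine ⟨σ', hσ', ?_⟩
    rw [hc']
    simp only
    rw [← hinv σ' σ hσ']
    abel)
  have hZ : Z.image τ = Z := by
    ext β
    rw [Finset.mem_image]
    constructor
    · rintro ⟨β', h5, rfl⟩
      rw [hfix β' h5]
      exact h5
    · intro h5
      exact ⟨β, h5, hfix β h5⟩
  rw [hZ] at h4
  have hc2' : ∀ σ, 2 • c' σ = 0 := by
    intro σ
    have hσA : 2 • Point.map (W' := W) (σ : Ω →ₐ[L] Ω) A = 0 := by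
      rw [← map_nsmul, hA, map_zero]
    rw [hc']
    simp only
    rw [smul_add, hc, smul_sub, hσA, hA, sub_zero, add_zero]
  obtain ⟨θ₁, θ₂, θ₃, h12, h13, h23, hR, -, -⟩ :=
    exists_three_roots (F := F) L (Ω := Ω) hg hdeg hd
  have hT : ∀ θ, θ ∈ ({θ₁, θ₂, θ₃} : Finset Ω) ↔ θ ∈ RootSet (Ω := Ω) g := by
    intro θ
    rw [hR]
    simp
  have hθ₁ : θ₁ ∈ RootSet (Ω := Ω) g := (hR _).mpr (Or.inl rfl)
  -- the two systems of descent functions agree up to a global sign
  set B1 : Ω → Ω := fun θ => rho (algebraMap F[X] Ω D * θ) A * b θ with hB1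
  set B2 : Ω → Ω := fun θ => γ (b (γ.symm θ)) with hB2
  have hs0 : ∀ θ σ, rho (algebraMap F[X] Ω D * θ) (c' σ) ≠ 0 := by
    intro θ σ h0
    have := rho_two_torsion_mul_self hW.short h2 (algebraMap F[X] Ω D * θ) (hc2' σ)
    rw [h0, mul_zero] at this
    exact zero_ne_one this
  have hglob : ∀ s : Ω, (s = 1 ∨ s = -1) → B2 θ₁ = s * B1 θ₁ →
      ∀ θ ∈ RootSet (Ω := Ω) g, B2 θ = s * B1 θ := by
    intro s hs h5 θ hθ
    obtain ⟨σ, rfl⟩ := rootSet_transitive (L := L) hg hdeg hθ₁ hθ
    have h6 := congrArg σ h5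
    have hσs : σ s = s := by
      rcases hs with rfl | rfl <;> simp
    rw [map_mul, hσs, h4.act θ₁ hθ₁ σ, h3.act θ₁ hθ₁ σ] at h6
    apply mul_left_cancel₀ (hs0 (σ θ₁) σ)
    linear_combination h6
  have hsgn : B2 θ₁ = 1 * B1 θ₁ ∨ B2 θ₁ = -1 * B1 θ₁ := by
    have h5 : B2 θ₁ ^ 2 = B1 θ₁ ^ 2 := (h4.sq θ₁ hθ₁).trans (h3.sq θ₁ hθ₁).symm
    have h6 : (B2 θ₁ - B1 θ₁) * (B2 θ₁ + B1 θ₁) = 0 := by linear_combination h5
    rcases mul_eq_zero.mp h6 with h7 | h7
    · left; linear_combination h7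
    · right; linear_combination h7
  rcases hsgn with h5 | h5
  · intro θ hθ
    have := hglob 1 (Or.inl rfl) h5 θ hθ
    rw [one_mul] at this
    exact this
  · exfalso
    have h6 := hglob (-1) (Or.inr rfl) h5
    -- the norm
    set T : Finset Ω := {θ₁, θ₂, θ₃} with hTdef
    obtain ⟨-, hN2⟩ := h.exists_norm h2 hW hg hdeg hd hD hc hT
    set N := ∏ θ ∈ T, b θ with hN
    have hB1N : ∏ θ ∈ T, B1 θ = N := by
      rw [hB1, Finset.prod_mul_distrib, prod_rho_roots L h2 hW hg hdeg hd hD hT hA, one_mul]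
    have hcard : T.card = 3 := by
      rw [hTdef, Finset.card_insert_of_notMem (by simp [h12, h13]),
        Finset.card_insert_of_notMem (by simp [h23]), Finset.card_singleton]
    have hB2N : ∏ θ ∈ T, B2 θ = -N := by
      rw [Finset.prod_congr rfl fun θ hθ => h6 θ ((hT θ).mp hθ), Finset.prod_mul_distrib, hB1N,
        Finset.prod_const, hcard]
      ring
    have hB2γ : ∏ θ ∈ T, B2 θ = γ N := by
      rw [hN, map_prod]
      symm
      apply Finset.prod_nbij' (fun θ => γ θ) (fun θ => γ.symm θ)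
      · intro θ hθ
        exact (hT _).mpr (gamma_mem_rootSet hγ hgτ ((hT θ).mp hθ))
      · intro θ hθ
        exact (hT _).mpr (gamma_symm_mem_rootSet hγ hgτ ((hT θ).mp hθ))
      · intro θ _; simp
      · intro θ _; simp
      · intro θ _
        rw [hB2]
        simp
    -- `N` is fixed by `γ`
    have heven := h.even h2 hW hg hdeg hd hD hc
    set q : F[X] := ∏ α ∈ Z.image (fun β => g.eval β),
      (X - C α) ^ ((Z.filter fun β => g.eval β = α).card / 2) with hq
    have hNq : N ^ 2 = (algebraMap F[X] Ω q) ^ 2 := by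
      rw [hN2, ← map_pow, hq]
      congr 1
      exact prod_even_fibres Z (fun β => g.eval β) (fun α => X - C α) heven
    have hqτ : q.map τ = q := by
      rw [hq, Polynomial.map_prod]
      apply Finset.prod_congr rfl
      intro α hα
      obtain ⟨β, hβ, rfl⟩ := Finset.mem_image.mp hα
      have h7 : τ (g.eval β) = g.eval β := by
        have := eval₂_hom (p := g) τ β
        rw [← this, ← eval_map, hgτ, hfix β hβ]
      rw [Polynomial.map_pow, Polynomial.map_sub, Polynomial.map_X, Polynomial.map_C, h7]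
    have hγN : γ N = N := by
      have h7 : (N - algebraMap F[X] Ω q) * (N + algebraMap F[X] Ω q) = 0 := by
        linear_combination hNq
      have h8 : γ (algebraMap F[X] Ω q) = algebraMap F[X] Ω q := by rw [hγ, hqτ]
      rcases mul_eq_zero.mp h7 with h9 | h9
      · rw [sub_eq_zero.mp h9, h8]
      · have : N = -algebraMap F[X] Ω q := by linear_combination h9
        rw [this, map_neg, h8]
    have hN0 : N ≠ 0 := by
      rw [hN]
      exact Finset.prod_ne_zero_iff.mpr fun θ hθ => h.ne_zero ((hT θ).mp hθ)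
    rw [hB2γ, hγN] at hB2N
    have : 2 * N = 0 := by linear_combination hB2N
    rcases mul_eq_zero.mp this with h7 | h7
    · exact h2 h7
    · exact hN0 h7

end Conj

end Pool.Agent.Lib.MP_89bcae_ag

end

section

/-!
# The effect of an automorphism on the second level of a Selmer class: local computation
-/

open Polynomial WeierstrassCurve WeierstrassCurve.Affine

open scoped Classical

namespace Pool.Agent.Lib.MP_89bcae_ag

set_option linter.unusedSectionVars false

/-- The automorphism `U` moves the square roots of `c`. -/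
def Moves {F : Type*} [Field F] (U : F → F) (c : F) : Prop := ∀ s : F, s ^ 2 = c → U s ≠ s

section Cong

variable {F K : Type*} [Field F] [Field K] [Algebra F[X] K]
  (w : Valuation K (WithZero (Multiplicative ℤ))) (α : F)

/-- The valuation `w` lies over the place `t = α`. -/
structure IsOver : Prop where
  unif : w (algebraMap F[X] K (X - C α)) = WithZero.exp (-1 : ℤ)
  unit : ∀ p : F[X], p.eval α ≠ 0 → w (algebraMap F[X] K p) = 1

/-- `x` is congruent to the constant `c`. -/
def Cg (x : K) (c : F) : Prop := w (x - algebraMap F[X] K (C c)) < 1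

variable {w α}

lemma IsOver.unif_lt (h : IsOver w α) : w (algebraMap F[X] K (X - C α)) < 1 := by
  rw [h.unif, ← WithZero.exp_zero, WithZero.exp_lt_exp]; norm_num

lemma IsOver.const_le (h : IsOver w α) (c : F) : w (algebraMap F[X] K (C c)) ≤ 1 := by
  by_cases hc : c = 0
  · rw [hc, map_zero, map_zero, map_zero]; exact zero_le_one
  · rw [h.unit _ (by rw [eval_C]; exact hc)]

lemma IsOver.const_one (h : IsOver w α) {c : F} (hc : c ≠ 0) : w (algebraMap F[X] K (C c)) = 1 :=
  h.unit _ (by rw [eval_C]; exact hc)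

lemma IsOver.cg_const (c : F) : Cg w (algebraMap F[X] K (C c)) c := by
  unfold Cg
  rw [sub_self, map_zero]
  exact zero_lt_one

lemma Cg.le (h : IsOver w α) {x : K} {c : F} (hx : Cg w x c) : w x ≤ 1 := by
  have : x = (x - algebraMap F[X] K (C c)) + algebraMap F[X] K (C c) := by ring
  rw [this]
  apply le_trans (w.map_add _ _)
  exact max_le (le_of_lt hx) (h.const_le c)

lemma Cg.one (h : IsOver w α) {x : K} {c : F} (hx : Cg w x c) (hc : c ≠ 0) : w x = 1 := by
  have h1 : x = algebraMap F[X] K (C c) + (x - algebraMap F[X] K (C c)) := by ring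
  rw [h1, w.map_add_eq_of_lt_left, h.const_one hc]
  rw [h.const_one hc]
  exact hx

lemma Cg.add {x y : K} {c d : F} (hx : Cg w x c) (hy : Cg w y d) : Cg w (x + y) (c + d) := by
  unfold Cg at *
  have : x + y - algebraMap F[X] K (C (c + d)) = (x - algebraMap F[X] K (C c)) +
      (y - algebraMap F[X] K (C d)) := by rw [C_add, map_add]; ring
  rw [this]
  exact lt_of_le_of_lt (w.map_add _ _) (max_lt hx hy)

lemma Cg.neg {x : K} {c : F} (hx : Cg w x c) : Cg w (-x) (-c) := by
  unfold Cg at *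
  have : -x - algebraMap F[X] K (C (-c)) = -(x - algebraMap F[X] K (C c)) := by
    rw [C_neg, map_neg]; ring
  rw [this, w.map_neg]
  exact hx

lemma Cg.sub {x y : K} {c d : F} (hx : Cg w x c) (hy : Cg w y d) : Cg w (x - y) (c - d) := by
  rw [sub_eq_add_neg, sub_eq_add_neg]
  exact hx.add hy.neg

lemma Cg.mul (h : IsOver w α) {x y : K} {c d : F} (hx : Cg w x c) (hy : Cg w y d) :
    Cg w (x * y) (c * d) := by
  have hyl := hy.le h
  unfold Cg at *
  have : x * y - algebraMap F[X] K (C (c * d)) = (x - algebraMap F[X] K (C c)) * y +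
      algebraMap F[X] K (C c) * (y - algebraMap F[X] K (C d)) := by rw [C_mul, map_mul]; ring
  rw [this]
  apply lt_of_le_of_lt (w.map_add _ _)
  apply max_lt
  · rw [map_mul]
    exact lt_of_le_of_lt (mul_le_mul_right hyl _) (by rwa [mul_one])
  · rw [map_mul]
    exact lt_of_le_of_lt (mul_le_mul_left (h.const_le c) _) (by rwa [one_mul])

lemma Cg.prod (h : IsOver w α) {ι : Type*} (s : Finset ι) {x : ι → K} {c : ι → F}
    (hx : ∀ i ∈ s, Cg w (x i) (c i)) : Cg w (∏ i ∈ s, x i) (∏ i ∈ s, c i) := by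
  induction s using Finset.induction_on with
  | empty =>
    rw [Finset.prod_empty, Finset.prod_empty]
    have := IsOver.cg_const (K := K) (w := w) (1 : F)
    rwa [C_1, map_one] at this
  | insert a s ha ih =>
    rw [Finset.prod_insert ha, Finset.prod_insert ha]
    exact (hx a (Finset.mem_insert_self a s)).mul h
      (ih fun i hi => hx i (Finset.mem_insert_of_mem hi))

lemma Cg.unique (h : IsOver w α) {x : K} {c d : F} (hx : Cg w x c) (hy : Cg w x d) : c = d := by
  by_contra hne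
  have h1 := hx.sub hy
  rw [sub_self] at h1
  have h2 := h1.one h (sub_ne_zero.mpr hne)
  rw [map_zero] at h2
  exact zero_ne_one h2

lemma Cg.poly (h : IsOver w α) (p : F[X]) : Cg w (algebraMap F[X] K p) (p.eval α) := by
  unfold Cg
  rw [← map_sub]
  obtain ⟨q, hq⟩ : (X - C α) ∣ (p - C (p.eval α)) := by
    rw [dvd_iff_isRoot]; simp
  have hle : ∀ q : F[X], w (algebraMap F[X] K q) ≤ 1 := by
    intro q
    induction q using Polynomial.induction_on' with
    | add p q hp hq =>
      rw [map_add]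
      exact le_trans (w.map_add _ _) (max_le hp hq)
    | monomial n a =>
      rw [← C_mul_X_pow_eq_monomial, map_mul, map_mul, map_pow, map_pow]
      have hX : w (algebraMap F[X] K X) ≤ 1 := by
        have : (X : F[X]) = (X - C α) + C α := by ring
        rw [this, map_add]
        exact le_trans (w.map_add _ _) (max_le h.unif_lt.le (h.const_le α))
      exact mul_le_one' (h.const_le a) (pow_le_one' hX n)
  rw [hq, map_mul, map_mul]
  exact lt_of_le_of_lt (mul_le_mul_right (hle q) _) (by rw [mul_one]; exact h.unif_lt)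

/-- Reading off from a unit of `K` whether an automorphism moves the square roots of its residue. -/
lemma moves_iff_aux [IsAlgClosed F] (h : IsOver w α) (h2 : (2 : F) ≠ 0) {τ : F →+* F}
    {γK : K ≃+* K} (hγK : ∀ a : F, γK (algebraMap F[X] K (C a)) = algebraMap F[X] K (C (τ a)))
    (hwγ : ∀ x, w (γK x) = w x) {m : K} {c : F} (hc : c ≠ 0) (hm : Cg w (m ^ 2) c) :
    (γK m = m → ¬ Moves τ c) ∧ (γK m = -m → Moves τ c) := by
  obtain ⟨s₀, hs₀⟩ := IsAlgClosed.exists_pow_nat_eq c (n := 2) (by norm_num)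
  have hs0 : s₀ ≠ 0 := by
    rintro rfl
    apply hc
    rw [← hs₀]; ring
  -- choose the sign of the square root
  obtain ⟨s, hs, hms⟩ : ∃ s : F, s ^ 2 = c ∧ Cg w m s := by
    have h1 : w ((m - algebraMap F[X] K (C s₀)) * (m + algebraMap F[X] K (C s₀))) < 1 := by
      have : (m - algebraMap F[X] K (C s₀)) * (m + algebraMap F[X] K (C s₀)) =
          m ^ 2 - algebraMap F[X] K (C c) := by
        rw [← hs₀, C_pow, map_pow]; ring
      rw [this]
      exact hm
    by_cases h3 : Cg w m s₀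
    · exact ⟨s₀, hs₀, h3⟩
    · refine ⟨-s₀, by rw [neg_sq, hs₀], ?_⟩
      unfold Cg at h3 ⊢
      rw [C_neg, map_neg, sub_neg_eq_add]
      rw [map_mul] at h1
      push Not at h3
      by_contra h4
      push Not at h4
      exact absurd (le_trans (by rw [one_mul]) (mul_le_mul' h3 h4)) (not_le.mpr h1)
  have hs0' : s ≠ 0 := by
    rintro rfl
    apply hc
    rw [← hs]; ring
  have hγm : Cg w (γK m) (τ s) := by
    unfold Cg
    rw [← hγK, ← map_sub, hwγ]
    exact hms
  constructor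
  · intro h3 h4
    rw [h3] at hγm
    exact h4 s hs (hγm.unique h hms)
  · intro h3 s' hs' h4
    rw [h3] at hγm
    have h5 : τ s = -s := hγm.unique h hms.neg
    have h6 : (s' - s) * (s' + s) = 0 := by linear_combination hs' - hs
    have h7 : τ s' = -s' := by
      rcases mul_eq_zero.mp h6 with h | h
      · rw [sub_eq_zero.mp h, h5]
      · have : s' = -s := by linear_combination h
        rw [this, map_neg, h5]
    rw [h7] at h4
    have h8 : 2 * s' = 0 := by linear_combination -h4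
    rcases mul_eq_zero.mp h8 with h | h
    · exact h2 h
    · rw [h] at hs'
      apply hc
      rw [← hs']; ring

end Cong

section MovesLemmas

variable {F : Type*} [Field F] [IsAlgClosed F] {τ : F →+* F}

lemma moves_iff_neg (h2 : (2 : F) ≠ 0) {c : F} (hc : c ≠ 0) (hτ : τ c = c) {s : F}
    (hs : s ^ 2 = c) : (Moves τ c ↔ τ s = -s) ∧ (¬ Moves τ c ↔ τ s = s) := by
  have hs0 : s ≠ 0 := by
    rintro rfl
    apply hc
    rw [← hs]; ring
  have hne : -s ≠ s := by
    intro h0
    have : 2 * s = 0 := by linear_combination -h0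
    rcases mul_eq_zero.mp this with h | h
    · exact h2 h
    · exact hs0 h
  have hor : τ s = s ∨ τ s = -s := by
    have h1 : (τ s) ^ 2 = s ^ 2 := by rw [← map_pow, hs, hτ]
    have h3 : (τ s - s) * (τ s + s) = 0 := by linear_combination h1
    rcases mul_eq_zero.mp h3 with h | h
    · exact Or.inl (sub_eq_zero.mp h)
    · exact Or.inr (by linear_combination h)
  have hall : τ s = -s → Moves τ c := by
    intro h3 s' hs' h4
    have h6 : (s' - s) * (s' + s) = 0 := by linear_combination hs' - hs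
    rcases mul_eq_zero.mp h6 with h | h
    · rw [sub_eq_zero.mp h, h3] at h4
      exact hne h4
    · have : s' = -s := by linear_combination h
      rw [this, map_neg, h3, neg_neg] at h4
      exact hne h4.symm
  have hno : Moves τ c → τ s = -s := fun h => hor.resolve_left (h s hs)
  refine ⟨⟨hno, hall⟩, ⟨fun h => hor.resolve_right (fun h3 => h (hall h3)), fun h h3 => ?_⟩⟩
  exact h3 s hs h

/-- The parity relation. -/
lemma moves_parity (h2 : (2 : F) ≠ 0) {c₁ c₂ c₃ E : F} (h₁ : c₁ ≠ 0) (h₂ : c₂ ≠ 0) (h₃ : c₃ ≠ 0)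
    (t₁ : τ c₁ = c₁) (t₂ : τ c₂ = c₂) (t₃ : τ c₃ = c₃) (hE : c₁ * c₂ * c₃ = E ^ 2)
    (hτE : τ E = E) : Moves τ c₁ ↔ ¬ (Moves τ c₂ ↔ Moves τ c₃) := by
  obtain ⟨s₁, hs₁⟩ := IsAlgClosed.exists_pow_nat_eq c₁ (n := 2) (by norm_num)
  obtain ⟨s₂, hs₂⟩ := IsAlgClosed.exists_pow_nat_eq c₂ (n := 2) (by norm_num)
  obtain ⟨s₃, hs₃⟩ := IsAlgClosed.exists_pow_nat_eq c₃ (n := 2) (by norm_num)
  have a₁ := moves_iff_neg h2 h₁ t₁ hs₁
  have a₂ := moves_iff_neg h2 h₂ t₂ hs₂
  have a₃ := moves_iff_neg h2 h₃ t₃ hs₃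
  have hfix : τ (s₁ * s₂ * s₃) = s₁ * s₂ * s₃ := by
    have h4 : (s₁ * s₂ * s₃ - E) * (s₁ * s₂ * s₃ + E) = 0 := by
      have : (s₁ * s₂ * s₃) ^ 2 = E ^ 2 := by
        rw [mul_pow, mul_pow, hs₁, hs₂, hs₃, hE]
      linear_combination this
    rcases mul_eq_zero.mp h4 with h | h
    · rw [sub_eq_zero.mp h, hτE]
    · have : s₁ * s₂ * s₃ = -E := by linear_combination h
      rw [this, map_neg, hτE]
  have hne : s₁ * s₂ * s₃ ≠ 0 := by
    intro h0
    have : (s₁ * s₂ * s₃) ^ 2 = 0 := by rw [h0]; ring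
    rw [mul_pow, mul_pow, hs₁, hs₂, hs₃] at this
    exact mul_ne_zero (mul_ne_zero h₁ h₂) h₃ this
  have hneg : -(s₁ * s₂ * s₃) ≠ s₁ * s₂ * s₃ := by
    intro h0
    have : 2 * (s₁ * s₂ * s₃) = 0 := by linear_combination -h0
    rcases mul_eq_zero.mp this with h | h
    · exact h2 h
    · exact hne h
  rw [map_mul, map_mul] at hfix
  by_cases m₁ : Moves τ c₁ <;> by_cases m₂ : Moves τ c₂ <;> by_cases m₃ : Moves τ c₃
  · exfalso
    rw [a₁.1.mp m₁, a₂.1.mp m₂, a₃.1.mp m₃] at hfix
    exact hneg (by linear_combination hfix)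
  · simp [m₁, m₂, m₃]
  · simp [m₁, m₂, m₃]
  · exfalso
    rw [a₁.1.mp m₁, a₂.2.mp m₂, a₃.2.mp m₃] at hfix
    exact hneg (by linear_combination hfix)
  · simp [m₁, m₂, m₃]
  · exfalso
    rw [a₁.2.mp m₁, a₂.1.mp m₂, a₃.2.mp m₃] at hfix
    exact hneg (by linear_combination hfix)
  · exfalso
    rw [a₁.2.mp m₁, a₂.2.mp m₂, a₃.1.mp m₃] at hfix
    exact hneg (by linear_combination hfix)
  · simp [m₁, m₂, m₃]

end MovesLemmas

section Tower

variable {R F L Ω : Type*} [CommRing R] [Field F] [IsAlgClosed F] [Field L] [Field Ω]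
  [Algebra F[X] L] [IsFractionRing F[X] L] [Algebra L Ω] [Algebra F[X] Ω] [IsScalarTower F[X] L Ω]
  [Algebra R L] [Algebra R Ω] [IsScalarTower R L Ω] {W : Affine R} {g D : F[X]}
  [IsGalois L Ω] [IsSepClosed Ω]
  {K : Type*} [Field K] [Algebra L K] [Algebra K Ω] [IsScalarTower L K Ω] [Algebra F[X] K]
  [IsScalarTower F[X] L K] [IsScalarTower F[X] K Ω] [IsGalois K Ω]

/-- The local data at a root `α` of `D` with an automorphism `γ`. -/
structure KeyData (w : Valuation K (WithZero (Multiplicative ℤ))) (g D : F[X]) (α : F) (S : Ω)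
    (γ : Ω ≃ₐ[R] Ω) (γK : K ≃+* K) (τ : F →+* F) : Prop where
  isOver : IsOver w α
  loc : IsLoc w g D (algebraMap F[X] K (X - C α)) S
  near : ∀ β, g.eval β = α → ∃ x : K, algebraMap K Ω x ∈ RootSet (Ω := Ω) g ∧
    w (x - algebraMap F[X] K (C β)) = WithZero.exp (-1 : ℤ)
  γ_poly : ∀ p : F[X], γ (algebraMap F[X] Ω p) = algebraMap F[X] Ω (p.map τ)
  γ_K : ∀ x : K, γ (algebraMap K Ω x) = algebraMap K Ω (γK x)
  γ_val : ∀ x, w (γK x) = w x
  g_fix : g.map τ = g
  D_fix : D.map τ = D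
  α_fix : τ α = α
  β_fix : ∀ β, g.eval β = α → τ β = β

variable {w : Valuation K (WithZero (Multiplicative ℤ))} {α : F} {S : Ω} {γ : Ω ≃ₐ[R] Ω}
  {γK : K ≃+* K} {τ : F →+* F}

lemma KeyData.γK_poly (h : KeyData w g D α S γ γK τ) (p : F[X]) :
    γK (algebraMap F[X] K p) = algebraMap F[X] K (p.map τ) := by
  apply (algebraMap K Ω).injective
  rw [← h.γ_K, ← IsScalarTower.algebraMap_apply, ← IsScalarTower.algebraMap_apply, h.γ_poly]

lemma cg_of_near {x : K} {β : F}
    (hx : w (x - algebraMap F[X] K (C β)) = WithZero.exp (-1 : ℤ)) : Cg w x β := by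
  unfold Cg
  rw [hx, ← WithZero.exp_zero, WithZero.exp_lt_exp]; norm_num

/-- The root near a fixed constant is fixed. -/
lemma KeyData.fix_near (h : KeyData w g D α S γ γK τ) {β : F} (hβ : g.eval β = α) {x : K}
    (hx : algebraMap K Ω x ∈ RootSet (Ω := Ω) g) (hc : Cg w x β) :
    γK x = x := by
  by_contra hne
  have h1 : algebraMap K Ω (γK x) ∈ RootSet (Ω := Ω) g := by
    rw [← h.γ_K]
    exact gamma_mem_rootSet h.γ_poly h.g_fix hx
  have h2 := h.loc.diff _ _ h1 hx hne
  have h3 : Cg w (γK x) β := by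
    unfold Cg at hc ⊢
    have h4 := h.γK_poly (C β)
    rw [map_C, h.β_fix β hβ] at h4
    rw [← h4, ← map_sub, h.γ_val]
    exact hc
  have h4 := h3.sub hc
  unfold Cg at h4
  rw [sub_self, C_0, map_zero, sub_zero, h2] at h4
  exact lt_irrefl _ h4

/-- Labels for the fibre and the roots. -/
lemma KeyData.labels (h : KeyData w g D α S γ γK τ) (hg : g.Monic) (hdeg : g.natDegree = 3)
    (hd : derivative g ≠ 0) (L' : Type*) [Field L'] [Algebra F[X] L'] [IsFractionRing F[X] L']
    [Algebra L' Ω] [IsScalarTower F[X] L' Ω] {β₁ β₂ β₃ : F}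
    (h12 : β₁ ≠ β₂) (h13 : β₁ ≠ β₃) (h23 : β₂ ≠ β₃)
    (hfac : g - C α = (X - C β₁) * (X - C β₂) * (X - C β₃)) :
    ∃ x₁ x₂ x₃ : K, (algebraMap K Ω x₁ ∈ RootSet (Ω := Ω) g ∧
      algebraMap K Ω x₂ ∈ RootSet (Ω := Ω) g ∧ algebraMap K Ω x₃ ∈ RootSet (Ω := Ω) g) ∧
      (w (x₁ - algebraMap F[X] K (C β₁)) = WithZero.exp (-1 : ℤ) ∧
      w (x₂ - algebraMap F[X] K (C β₂)) = WithZero.exp (-1 : ℤ) ∧
      w (x₃ - algebraMap F[X] K (C β₃)) = WithZero.exp (-1 : ℤ)) ∧
      ∀ θ ∈ RootSet (Ω := Ω) g, θ = algebraMap K Ω x₁ ∨ θ = algebraMap K Ω x₂ ∨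
        θ = algebraMap K Ω x₃ := by
  have hev : ∀ β, g.eval β - α = (β - β₁) * (β - β₂) * (β - β₃) := by
    intro β
    have := congrArg (fun p => p.eval β) hfac
    simpa using this
  have e1 : g.eval β₁ = α := by
    have := hev β₁
    rw [sub_self, zero_mul, zero_mul] at this
    exact sub_eq_zero.mp this
  have e2 : g.eval β₂ = α := by
    have := hev β₂
    rw [sub_self, mul_zero, zero_mul] at this
    exact sub_eq_zero.mp this
  have e3 : g.eval β₃ = α := by
    have := hev β₃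
    rw [sub_self, mul_zero] at this
    exact sub_eq_zero.mp this
  obtain ⟨x₁, m1, n1⟩ := h.near β₁ e1
  obtain ⟨x₂, m2, n2⟩ := h.near β₂ e2
  obtain ⟨x₃, m3, n3⟩ := h.near β₃ e3
  refine ⟨x₁, x₂, x₃, ⟨m1, m2, m3⟩, ⟨n1, n2, n3⟩, ?_⟩
  have d12 : algebraMap K Ω x₁ ≠ algebraMap K Ω x₂ := by
    intro h0
    have := (algebraMap K Ω).injective h0
    subst this
    exact h12 ((cg_of_near n1).unique h.isOver (cg_of_near n2))
  have d13 : algebraMap K Ω x₁ ≠ algebraMap K Ω x₃ := by
    intro h0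
    have := (algebraMap K Ω).injective h0
    subst this
    exact h13 ((cg_of_near n1).unique h.isOver (cg_of_near n3))
  have d23 : algebraMap K Ω x₂ ≠ algebraMap K Ω x₃ := by
    intro h0
    have := (algebraMap K Ω).injective h0
    subst this
    exact h23 ((cg_of_near n2).unique h.isOver (cg_of_near n3))
  obtain ⟨θ₁, θ₂, θ₃, t12, t13, t23, hR, -, -⟩ :=
    exists_three_roots (F := F) L' (Ω := Ω) hg hdeg hd
  have hsub : ({algebraMap K Ω x₁, algebraMap K Ω x₂, algebraMap K Ω x₃} : Finset Ω) ⊆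
      {θ₁, θ₂, θ₃} := by
    intro θ hθ
    simp only [Finset.mem_insert, Finset.mem_singleton] at hθ ⊢
    rcases hθ with rfl | rfl | rfl
    · exact (hR _).mp m1
    · exact (hR _).mp m2
    · exact (hR _).mp m3
  have heq := Finset.eq_of_subset_of_card_le hsub (by
    rw [Finset.card_insert_of_notMem (by simp [t12, t13]),
      Finset.card_insert_of_notMem (by simp [t23]), Finset.card_singleton,
      Finset.card_insert_of_notMem (by simp [d12, d13]),
      Finset.card_insert_of_notMem (by simp [d23]), Finset.card_singleton])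
  intro θ hθ
  have h5 : θ ∈ ({θ₁, θ₂, θ₃} : Finset Ω) := by simpa using (hR θ).mp hθ
  rw [← heq] at h5
  simpa using h5

/-- The conjugate of an element of the local Galois group. -/
lemma KeyData.exists_conj (h : KeyData w g D α S γ γK τ) (σ : Ω ≃ₐ[K] Ω) :
    ∃ σ' : Ω ≃ₐ[K] Ω, (∀ x, γ (σ' x) = σ (γ x)) ∧ (σ S = -S → σ' S = -S) := by
  refine ⟨AlgEquiv.ofRingEquiv (f := (γ.toRingEquiv.trans σ.toRingEquiv).trans
    γ.symm.toRingEquiv) ?_, ?_, ?_⟩
  · intro y
    change γ.symm (σ (γ (algebraMap K Ω y))) = algebraMap K Ω y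
    rw [h.γ_K, σ.commutes, ← h.γ_K, AlgEquiv.symm_apply_apply]
  · intro x
    change γ (γ.symm (σ (γ x))) = σ (γ x)
    rw [AlgEquiv.apply_symm_apply]
  · intro hσ
    have h1 : (γ S) ^ 2 = S ^ 2 := by
      rw [← map_pow, h.loc.S_sq, ← IsScalarTower.algebraMap_apply, h.γ_poly, Polynomial.map_sub,
        Polynomial.map_X, Polynomial.map_C, h.α_fix]
    have h3 : (γ S - S) * (γ S + S) = 0 := by linear_combination h1
    change γ.symm (σ (γ S)) = -S
    apply γ.injective
    rw [AlgEquiv.apply_symm_apply, map_neg]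
    rcases mul_eq_zero.mp h3 with h4 | h4
    · rw [sub_eq_zero.mp h4, hσ]
    · have h5 : γ S = -S := by linear_combination h4
      rw [h5, map_neg, hσ]

variable (L) in
include L in
/-- An automorphism fixing the roots acts trivially on points of order two. -/
lemma gamma_two (h2 : (2 : Ω) ≠ 0) (hW : IsTwist Ω W g D) (hg : g.Monic)
    (hdeg : g.natDegree = 3) (hd : derivative g ≠ 0) (hD : D ≠ 0)
    (hγD : γ (algebraMap F[X] Ω D) = algebraMap F[X] Ω D)
    (hγθ : ∀ θ ∈ RootSet (Ω := Ω) g, γ θ = θ) {T : (W.baseChange Ω).Point} (hT : 2 • T = 0) :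
    Point.map (W' := W) (γ : Ω →ₐ[R] Ω) T = T := by
  apply eq_of_signs L h2 hW hg hdeg hd hD (by rw [← map_nsmul, hT, map_zero]) hT
  intro θ hθ
  have h1 : algebraMap F[X] Ω D * θ = (γ : Ω →ₐ[R] Ω) (algebraMap F[X] Ω D * θ) := by
    change _ = γ (algebraMap F[X] Ω D * θ)
    rw [map_mul, hγD, hγθ θ hθ]
  conv_lhs => rw [h1]
  rw [rho_map]
  rcases rho_two_torsion_sq hW.short h2 (algebraMap F[X] Ω D * θ) hT with h3 | h3
  · rw [h3, map_one]
  · rw [h3, map_neg, map_one]

/-- The value of the second class at an element moving `S`. -/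
lemma KeyData.value (h : KeyData w g D α S γ γK τ) (hW : IsTwist Ω W g D) (hg : g.Monic)
    (hdeg : g.natDegree = 3) (hd : derivative g ≠ 0)
    {y z : ℕ → (Ω ≃ₐ[L] Ω) → (W.baseChange Ω).Point} (hy : TC W y)
    {P : (W.baseChange Ω).Point} (hP : 4 • P = 0)
    (hrel : ∀ σ' σ : Ω ≃ₐ[L] Ω, (∀ x, γ (σ' x) = σ (γ x)) →
      Point.map (W' := W) (γ : Ω →ₐ[R] Ω) (y 2 σ') =
        y 2 σ + z 1 σ + (Point.map (W' := W) (σ : Ω →ₐ[L] Ω) P - P))
    {σ₀ : Ω ≃ₐ[K] Ω} (hσ₀ : σ₀ S = -S) :
    z 1 (σ₀.restrictScalars L) =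
      (Point.map (W' := W) (γ : Ω →ₐ[R] Ω) (y 2 (σ₀.restrictScalars L)) -
        y 2 (σ₀.restrictScalars L)) + 2 • P := by
  have hne : -S ≠ S := by
    intro h0
    have : 2 * S = 0 := by linear_combination -h0
    rcases mul_eq_zero.mp this with h1 | h1
    · exact h.loc.two h1
    · exact h.loc.S_ne h1
  obtain ⟨σ₁, h1, h3⟩ := h.exists_conj σ₀
  have h4 := hrel (σ₁.restrictScalars L) (σ₀.restrictScalars L) h1
  have h5 := h.loc.level_two (L := L) hW hg hdeg hd hσ₀ hy σ₁
  rw [h3 hσ₀, if_neg hne] at h5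
  rw [h5, (h.loc.map_four (L := L) hW hg hdeg hd hP σ₀).2 hσ₀] at h4
  rw [h4, two_nsmul]
  abel

/-- The sign of a cocycle of order two at an element moving `S`. -/
lemma KeyData.sign_near (h : KeyData w g D α S γ γK τ)
    {c : (Ω ≃ₐ[L] Ω) → (W.baseChange Ω).Point} {Z : Finset F} {b : Ω → Ω}
    (hb : IsDesc W g D c Z b)
    {σ₀ : Ω ≃ₐ[K] Ω} (hσ₀ : σ₀ S = -S) {x : K} {β : F}
    (hx : algebraMap K Ω x ∈ RootSet (Ω := Ω) g)
    (hn : w (x - algebraMap F[X] K (C β)) = WithZero.exp (-1 : ℤ)) :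
    rho (algebraMap F[X] Ω D * algebraMap K Ω x) (c (σ₀.restrictScalars L)) =
      if β ∈ Z then -1 else 1 := by
  have hoth : ∀ β' : F, β' ≠ β → w (x - algebraMap F[X] K (C β')) = 1 := by
    intro β' hne
    exact ((cg_of_near hn).sub (IsOver.cg_const (w := w) β')).one h.isOver
      (sub_ne_zero.mpr (Ne.symm hne))
  obtain ⟨hne, hlg⟩ := lg_root_prod w hn hoth Z
  have hprod0 : (∏ β' ∈ Z, (x - algebraMap F[X] K (C β'))) ≠ 0 :=
    Finset.prod_ne_zero_iff.mpr fun β' _ => hne β'
  have hsq : b (algebraMap K Ω x) ^ 2 =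
      algebraMap K Ω (∏ β' ∈ Z, (x - algebraMap F[X] K (C β'))) := by
    rw [hb.sq _ hx, map_prod]
    apply Finset.prod_congr rfl
    intro β' _
    rw [map_sub, ← IsScalarTower.algebraMap_apply]
  have hact := hb.act _ hx (σ₀.restrictScalars L)
  have hfix : (σ₀.restrictScalars L) (algebraMap K Ω x) = algebraMap K Ω x := σ₀.commutes x
  rw [hfix] at hact
  have hb0 := hb.ne_zero hx
  by_cases hβ : β ∈ Z
  · rw [if_pos hβ] at hlg ⊢
    have h1 := sqrt_odd h.loc.unif h.loc.sqrt h.loc.S_sq hprod0 (by rw [hlg]; decide) hsq σ₀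
    have h3 : σ₀ (b (algebraMap K Ω x)) = -b (algebraMap K Ω x) := by
      apply mul_right_cancel₀ h.loc.S_ne
      rw [h1, hσ₀]; ring
    have h4 : (σ₀.restrictScalars L) (b (algebraMap K Ω x)) = -b (algebraMap K Ω x) := h3
    rw [h4] at hact
    apply mul_right_cancel₀ hb0
    rw [← hact]; ring
  · rw [if_neg hβ] at hlg ⊢
    obtain ⟨r, hr⟩ := exists_rational_sqrt w h.loc.unif h.loc.sqrt hprod0 (by rw [hlg]; decide) hsq
    have h4 : (σ₀.restrictScalars L) (b (algebraMap K Ω x)) = b (algebraMap K Ω x) := by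
      rw [← hr]; exact σ₀.commutes r
    rw [h4] at hact
    apply mul_right_cancel₀ hb0
    rw [← hact]; ring

/-- Everything that is needed about the two classes `y` and `z = (γ y - y) / 2`. -/
structure KeyRel (W : Affine R) (g D : F[X]) (γ : Ω ≃ₐ[R] Ω) (τ : F →+* F)
    (y z : ℕ → (Ω ≃ₐ[L] Ω) → (W.baseChange Ω).Point) (P : (W.baseChange Ω).Point)
    (Z Z' : Finset F) (b b' : Ω → Ω) : Prop where
  tcy : TC W y
  tcz : TC W z
  four : 4 • P = 0
  rel : ∀ σ' σ : Ω ≃ₐ[L] Ω, (∀ x, γ (σ' x) = σ (γ x)) →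
      Point.map (W' := W) (γ : Ω →ₐ[R] Ω) (y 2 σ') =
        y 2 σ + z 1 σ + (Point.map (W' := W) (σ : Ω →ₐ[L] Ω) P - P)
  descy : IsDesc W g D (y 1) Z b
  descz : IsDesc W g D (z 1) Z' b'
  fixZ : ∀ β ∈ Z, τ β = β
  conj : ∀ σ : Ω ≃ₐ[L] Ω, ∃ σ' : Ω ≃ₐ[L] Ω, ∀ x, γ (σ' x) = σ (γ x)

variable {y z : ℕ → (Ω ≃ₐ[L] Ω) → (W.baseChange Ω).Point} {P : (W.baseChange Ω).Point}
  {Z Z' : Finset F} {b b' : Ω → Ω}

/-- The effect of `γ` on `ρ(B) b(θ)`. -/
lemma KeyData.core (h : KeyData w g D α S γ γK τ) (hr : KeyRel W g D γ τ y z P Z Z' b b')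
    (hW : IsTwist Ω W g D) (hg : g.Monic) (hdeg : g.natDegree = 3) (hd : derivative g ≠ 0)
    (hγθ : ∀ θ ∈ RootSet (Ω := Ω) g, γ θ = θ) {σ₀ : Ω ≃ₐ[K] Ω} (hσ₀ : σ₀ S = -S)
    {x : K} {β : F} (hx : algebraMap K Ω x ∈ RootSet (Ω := Ω) g)
    (hn : w (x - algebraMap F[X] K (C β)) = WithZero.exp (-1 : ℤ)) :
    γ (rho (algebraMap F[X] Ω D * algebraMap K Ω x) (y 2 (σ₀.restrictScalars L)) *
        b (algebraMap K Ω x)) =
      (if β ∈ Z' then -1 else 1) *
        (rho (algebraMap F[X] Ω D * algebraMap K Ω x) (y 2 (σ₀.restrictScalars L)) *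
          b (algebraMap K Ω x)) := by
  set θ := algebraMap K Ω x with hθ
  set B := y 2 (σ₀.restrictScalars L) with hB
  have hγD : γ (algebraMap F[X] Ω D) = algebraMap F[X] Ω D := by rw [h.γ_poly, h.D_fix]
  have hz2 : ∀ σ, 2 • z 1 σ = 0 := fun σ => by
    have := hr.tcz.two_pow 1 σ
    rwa [pow_one] at this
  have hy2 : ∀ σ, 2 • y 1 σ = 0 := fun σ => by
    have := hr.tcy.two_pow 1 σ
    rwa [pow_one] at this
  have hP2 : 2 • (2 • P) = 0 := by rw [← mul_smul]; exact hr.four
  -- the level one relation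
  have hrel1 : ∀ σ' σ : Ω ≃ₐ[L] Ω, (∀ x, γ (σ' x) = σ (γ x)) →
      Point.map (W' := W) (γ : Ω →ₐ[R] Ω) (y 1 σ') - y 1 σ =
        Point.map (W' := W) (σ : Ω →ₐ[L] Ω) (2 • P) - 2 • P := by
    intro σ' σ hσ
    have h1 := congrArg (fun Q => 2 • Q) (hr.rel σ' σ hσ)
    rw [← map_nsmul, hr.tcy.two 1, smul_add, smul_add, hr.tcy.two 1, hz2, add_zero, smul_sub,
      ← map_nsmul] at h1
    rw [h1]
    abel
  have hb := hr.descy.conj_eq h.loc.two hW hg hdeg hd h.loc.ne hy2 h.γ_poly h.g_fix h.D_fix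
    hr.conj hr.fixZ hP2 hrel1 θ hx
  have hsymm : γ.symm θ = θ := by
    apply γ.injective
    rw [AlgEquiv.apply_symm_apply, hγθ θ hx]
  rw [hsymm] at hb
  have hval := h.value hW hg hdeg hd hr.tcy hr.four hr.rel hσ₀
  rw [← hB] at hval
  set V := Point.map (W' := W) (γ : Ω →ₐ[R] Ω) B - B with hV
  have h2B : 2 • B = y 1 (σ₀.restrictScalars L) := hr.tcy.two 1 _
  have hV2 : 2 • V = 0 := by
    rw [hV, smul_sub, ← map_nsmul, h2B, gamma_two L h.loc.two hW hg hdeg hd h.loc.ne hγD hγθ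
      (hy2 _), sub_self]
  have hγB : Point.map (W' := W) (γ : Ω →ₐ[R] Ω) B = B + V := by rw [hV]; abel
  have h3 : γ (rho (algebraMap F[X] Ω D * θ) B) =
      rho (algebraMap F[X] Ω D * θ) B * rho (algebraMap F[X] Ω D * θ) V := by
    rw [← rho_add hW.short h.loc.two (hW.rt hg hdeg hx) _ _ hV2, ← hγB]
    have h5 : algebraMap F[X] Ω D * θ = (γ : Ω →ₐ[R] Ω) (algebraMap F[X] Ω D * θ) := by
      change _ = γ (algebraMap F[X] Ω D * θ)
      rw [map_mul, hγD, hγθ θ hx]
    conv_rhs => rw [h5]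
    rw [rho_map]
    rfl
  have h4 := h.sign_near hr.descz hσ₀ hx hn
  rw [hval, rho_add hW.short h.loc.two (hW.rt hg hdeg hx) _ _ hP2] at h4
  rw [map_mul, h3, hb, ← h4]
  ring

/-- The final step: comparison of the two signs. -/
lemma KeyData.final (h : KeyData w g D α S γ γK τ) (h2F : (2 : F) ≠ 0) {m : K} {c : F} (hc : c ≠ 0)
    (hm : Cg w (m ^ 2) c) {β : F}
    (hκ : γ (algebraMap K Ω m) = (if β ∈ Z' then -1 else 1) * algebraMap K Ω m) :
    β ∈ Z' ↔ Moves τ c := by
  have haux := moves_iff_aux h.isOver h2F (τ := τ) (γK := γK) (fun a => by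
    rw [h.γK_poly, map_C]) h.γ_val hc hm
  by_cases hβ : β ∈ Z'
  · rw [if_pos hβ] at hκ
    refine ⟨fun _ => haux.2 ?_, fun _ => hβ⟩
    apply (algebraMap K Ω).injective
    rw [← h.γ_K, hκ, map_neg]; ring
  · rw [if_neg hβ] at hκ
    refine ⟨fun h1 => absurd h1 hβ, fun h1 => absurd h1 (haux.1 ?_)⟩
    apply (algebraMap K Ω).injective
    rw [← h.γ_K, hκ, one_mul]

/-- The case in which the fibre does not meet `Z`. -/
lemma KeyData.case_zero (h : KeyData w g D α S γ γK τ) (hr : KeyRel W g D γ τ y z P Z Z' b b')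
    (h2F : (2 : F) ≠ 0)
    (hW : IsTwist Ω W g D) (hg : g.Monic) (hdeg : g.natDegree = 3) (hd : derivative g ≠ 0)
    (hγθ : ∀ θ ∈ RootSet (Ω := Ω) g, γ θ = θ) {σ₀ : Ω ≃ₐ[K] Ω} (hσ₀ : σ₀ S = -S)
    (h2B : 2 • y 2 (σ₀.restrictScalars L) = 0)
    {x : K} {β : F} (hβ : g.eval β = α) (hx : algebraMap K Ω x ∈ RootSet (Ω := Ω) g)
    (hn : w (x - algebraMap F[X] K (C β)) = WithZero.exp (-1 : ℤ)) :
    β ∈ Z' ↔ Moves τ (PZ g D Z β) := by
  have h2y : ∀ σ, 2 • y 2 σ = y 1 σ := fun σ => hr.tcy.two 1 σ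
  have hm1 : (1 : Ω) ≠ -1 := by
    intro h0
    apply h.loc.two
    linear_combination h0
  -- no point of the fibre is in `Z`
  have hno : ∀ β' ∈ Z, g.eval β' ≠ α := by
    intro β' hβ' heq
    obtain ⟨x', m', n'⟩ := h.near β' heq
    have h1 := h.sign_near hr.descy hσ₀ m' n'
    rw [← h2y, h2B, rho_zero, if_pos hβ'] at h1
    exact hm1 h1
  have hβZ : β ∉ Z := fun h1 => hno β h1 hβ
  have hfilter : Z.filter (fun β' => g.eval β' ≠ g.eval β) = Z := by
    apply Finset.filter_true_of_mem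
    intro β' hβ'
    rw [hβ]
    exact hno β' hβ'
  have hPZ : PZ g D Z β = ∏ β' ∈ Z, (β - β') := by
    rw [PZ, hfilter, if_neg hβZ, mul_one]
  have hcore := h.core hr hW hg hdeg hd hγθ hσ₀ hx hn
  set θ := algebraMap K Ω x with hθ
  set B := y 2 (σ₀.restrictScalars L) with hB
  have hoth : ∀ β' : F, β' ≠ β → w (x - algebraMap F[X] K (C β')) = 1 := by
    intro β' hne
    exact ((cg_of_near hn).sub (IsOver.cg_const (w := w) β')).one h.isOver
      (sub_ne_zero.mpr (Ne.symm hne))
  obtain ⟨hne, hlg⟩ := lg_root_prod w hn hoth Z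
  rw [if_neg hβZ] at hlg
  have hprod0 : (∏ β' ∈ Z, (x - algebraMap F[X] K (C β'))) ≠ 0 :=
    Finset.prod_ne_zero_iff.mpr fun β' _ => hne β'
  have hsq : (rho (algebraMap F[X] Ω D * θ) B * b θ) ^ 2 =
      algebraMap K Ω (∏ β' ∈ Z, (x - algebraMap F[X] K (C β'))) := by
    rw [mul_pow, pow_two (rho _ _), rho_two_torsion_mul_self hW.short h.loc.two _ h2B, one_mul,
      hr.descy.sq _ hx, map_prod]
    apply Finset.prod_congr rfl
    intro β' _
    rw [map_sub, ← IsScalarTower.algebraMap_apply]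
  obtain ⟨m, hm⟩ := exists_rational_sqrt w h.loc.unif h.loc.sqrt hprod0 (by rw [hlg]; decide) hsq
  rw [← hm] at hcore
  have hm2 : m ^ 2 = ∏ β' ∈ Z, (x - algebraMap F[X] K (C β')) := by
    apply (algebraMap K Ω).injective
    rw [map_pow, hm, hsq]
  rw [hPZ]
  apply h.final h2F _ _ hcore
  · apply Finset.prod_ne_zero_iff.mpr
    intro β' hβ'
    apply sub_ne_zero.mpr
    rintro rfl
    exact hβZ hβ'
  · rw [hm2]
    apply Cg.prod h.isOver
    intro β' _
    exact (cg_of_near hn).sub (IsOver.cg_const (w := w) β')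

/-- The case of a point of the fibre which belongs to `Z`. -/
lemma KeyData.case_one (h : KeyData w g D α S γ γK τ) (hr : KeyRel W g D γ τ y z P Z Z' b b')
    (h2F : (2 : F) ≠ 0)
    (hW : IsTwist Ω W g D) (hg : g.Monic) (hdeg : g.natDegree = 3) (hd : derivative g ≠ 0)
    (hDα : D.eval α = 0) (hD' : (derivative D).eval α ≠ 0)
    (hγθ : ∀ θ ∈ RootSet (Ω := Ω) g, γ θ = θ) {σ₀ : Ω ≃ₐ[K] Ω} (hσ₀ : σ₀ S = -S)
    {βi βj βl : F} (hij : βi ≠ βj) (hil : βi ≠ βl) (hjl : βj ≠ βl)
    (hfac : g - C α = (X - C βi) * (X - C βj) * (X - C βl)) {xi xj : K}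
    (hxi : algebraMap K Ω xi ∈ RootSet (Ω := Ω) g) (hxj : algebraMap K Ω xj ∈ RootSet (Ω := Ω) g)
    (hni : w (xi - algebraMap F[X] K (C βi)) = WithZero.exp (-1 : ℤ))
    (hnj : w (xj - algebraMap F[X] K (C βj)) = WithZero.exp (-1 : ℤ))
    {hP' : (W.baseChange Ω).Nonsingular (algebraMap F[X] Ω D * algebraMap K Ω xj) 0}
    (h2B : 2 • y 2 (σ₀.restrictScalars L) =
      .some (algebraMap F[X] Ω D * algebraMap K Ω xj) 0 hP') :
    βi ∈ Z' ↔ Moves τ (PZ g D Z βi) := by
  have hm1 : (1 : Ω) ≠ -1 := by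
    intro h0
    apply h.loc.two
    linear_combination h0
  have hd0 : algebraMap F[X] Ω D ≠ 0 := algebraMap_ne_zero_Om L h.loc.ne
  have h2y : ∀ σ, 2 • y 2 σ = y 1 σ := fun σ => hr.tcy.two 1 σ
  have hev : ∀ β, g.eval β - α = (β - βi) * (β - βj) * (β - βl) := by
    intro β
    have := congrArg (fun p => p.eval β) hfac
    simpa using this
  have ei : g.eval βi = α := by
    have := hev βi
    rw [sub_self, zero_mul, zero_mul] at this
    exact sub_eq_zero.mp this
  have ej : g.eval βj = α := by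
    have := hev βj
    rw [sub_self, mul_zero, zero_mul] at this
    exact sub_eq_zero.mp this
  have el : g.eval βl = α := by
    have := hev βl
    rw [sub_self, mul_zero] at this
    exact sub_eq_zero.mp this
  -- membership in `Z`
  have hmem : ∀ (β' : F) (x' : K), algebraMap K Ω x' ∈ RootSet (Ω := Ω) g →
      w (x' - algebraMap F[X] K (C β')) = WithZero.exp (-1 : ℤ) → (β' ∈ Z ↔ xj ≠ x') := by
    intro β' x' m' n'
    have h1 := h.sign_near hr.descy hσ₀ m' n'
    rw [← h2y, h2B, rho_two_torsion] at h1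
    by_cases hx' : xj = x'
    · rw [if_pos (by rw [hx'])] at h1
      constructor
      · intro h3
        rw [if_pos h3] at h1
        exact absurd h1 hm1
      · intro h3
        exact absurd hx' h3
    · rw [if_neg (fun h3 => hx' ((algebraMap K Ω).injective (mul_left_cancel₀ hd0 h3)))] at h1
      constructor
      · exact fun _ => hx'
      · intro _
        by_contra h3
        rw [if_neg h3] at h1
        exact hm1 h1.symm
  have hxij : xi ≠ xj := by
    rintro rfl
    exact hij ((cg_of_near hni).unique h.isOver (cg_of_near hnj))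
  have hZi : βi ∈ Z := (hmem βi xi hxi hni).mpr (Ne.symm hxij)
  have hZj : βj ∉ Z := fun h1 => (hmem βj xj hxj hnj).mp h1 rfl
  have hZl : βl ∈ Z := by
    obtain ⟨xl, ml, nl⟩ := h.near βl el
    apply (hmem βl xl ml nl).mpr
    rintro rfl
    exact hjl ((cg_of_near hnj).unique h.isOver (cg_of_near nl))
  -- splitting off the fibre
  have hfib : Z.filter (fun β' => ¬ g.eval β' ≠ g.eval βi) = {βi, βl} := by
    ext β'
    rw [Finset.mem_filter, Finset.mem_insert, Finset.mem_singleton, not_not, ei]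
    constructor
    · rintro ⟨h1, h3⟩
      have h4 := hev β'
      rw [h3, sub_self, eq_comm, mul_eq_zero, mul_eq_zero] at h4
      rcases h4 with (h4 | h4) | h4
      · exact Or.inl (sub_eq_zero.mp h4)
      · rw [sub_eq_zero.mp h4] at h1
        exact absurd h1 hZj
      · exact Or.inr (sub_eq_zero.mp h4)
    · rintro (rfl | rfl)
      · exact ⟨hZi, ei⟩
      · exact ⟨hZl, el⟩
  set px : K := ∏ β' ∈ Z.filter (fun β' => g.eval β' ≠ g.eval βi),
    (xi - algebraMap F[X] K (C β')) with hpx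
  set pb : F := ∏ β' ∈ Z.filter (fun β' => g.eval β' ≠ g.eval βi), (βi - β') with hpb
  have hsplit : ∏ β' ∈ Z, (xi - algebraMap F[X] K (C β')) =
      px * ((xi - algebraMap F[X] K (C βi)) * (xi - algebraMap F[X] K (C βl))) := by
    rw [← Finset.prod_filter_mul_prod_filter_not Z (fun β' => g.eval β' ≠ g.eval βi), hfib,
      Finset.prod_pair hil]
  have hcp : Cg w px pb := by
    apply Cg.prod h.isOver
    intro β' _
    exact (cg_of_near hni).sub (IsOver.cg_const (w := w) β')
  have hp0 : pb ≠ 0 := by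
    apply Finset.prod_ne_zero_iff.mpr
    intro β' hβ'
    apply sub_ne_zero.mpr
    rintro rfl
    rw [Finset.mem_filter] at hβ'
    exact hβ'.2 rfl
  -- the product formula for `t - α`
  have hπ : algebraMap F[X] K (X - C α) = (xi - algebraMap F[X] K (C βi)) *
      (xi - algebraMap F[X] K (C βj)) * (xi - algebraMap F[X] K (C βl)) := by
    apply (algebraMap K Ω).injective
    have h1 := congrArg (ev F Ω (algebraMap K Ω xi)) hfac
    rw [map_sub, show ev F Ω (algebraMap K Ω xi) g = _ from hxi] at h1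
    simp only [map_mul, map_sub, ev_X, ev_C] at h1
    simp only [map_mul, map_sub, ← IsScalarTower.algebraMap_apply]
    exact h1
  obtain ⟨D₁, hD₁⟩ : (X - C α) ∣ D := dvd_iff_isRoot.mpr hDα
  have hD₁α : D₁.eval α = (derivative D).eval α := by
    rw [hD₁]
    simp
  have hπ0 := h.loc.pi_ne
  have hcore := h.core hr hW hg hdeg hd hγθ hσ₀ hxi hni
  set θ := algebraMap K Ω xi with hθ
  set B := y 2 (σ₀.restrictScalars L) with hB
  set XX : K := algebraMap F[X] K D * (xj - xi) * ∏ β' ∈ Z, (xi - algebraMap F[X] K (C β')) with hXX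
  have hsq : (rho (algebraMap F[X] Ω D * θ) B * b θ) ^ 2 = algebraMap K Ω XX := by
    rw [mul_pow, h.loc.rho_half hW hg hdeg h2B hxi, hr.descy.sq _ hxi, hXX, map_mul, map_mul,
      map_sub, map_prod, ← IsScalarTower.algebraMap_apply]
    congr 1
    apply Finset.prod_congr rfl
    intro β' _
    rw [map_sub, ← IsScalarTower.algebraMap_apply]
  have hoth : ∀ β' : F, β' ≠ βi → w (xi - algebraMap F[X] K (C β')) = 1 := by
    intro β' hne
    exact ((cg_of_near hni).sub (IsOver.cg_const (w := w) β')).one h.isOver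
      (sub_ne_zero.mpr (Ne.symm hne))
  obtain ⟨hne, hlg⟩ := lg_root_prod w hni hoth Z
  rw [if_pos hZi] at hlg
  have hprod0 : (∏ β' ∈ Z, (xi - algebraMap F[X] K (C β'))) ≠ 0 :=
    Finset.prod_ne_zero_iff.mpr fun β' _ => hne β'
  have hdK : algebraMap F[X] K D ≠ 0 := by
    intro h0
    apply hd0
    rw [IsScalarTower.algebraMap_apply F[X] K Ω, h0, map_zero]
  have hwji : w (xj - xi) = 1 := h.loc.diff _ _ hxj hxi (Ne.symm hxij)
  have hji0 : xj - xi ≠ 0 := sub_ne_zero.mpr (Ne.symm hxij)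
  have hXX0 : XX ≠ 0 := mul_ne_zero (mul_ne_zero hdK hji0) hprod0
  have hXXe : Even (lg w XX) := by
    rw [hXX, lg_mul w (mul_ne_zero hdK hji0) hprod0, lg_mul w hdK hji0, hlg,
      lg_eq_zero_of w hwji, add_zero]
    exact h.loc.odd.add_odd (by decide)
  obtain ⟨n, hn⟩ := exists_rational_sqrt w h.loc.unif h.loc.sqrt hXX0 hXXe hsq
  have hn2 : n ^ 2 = XX := by
    apply (algebraMap K Ω).injective
    rw [map_pow, hn, hsq]
  -- the normalised element
  set π : K := algebraMap F[X] K (X - C α) with hπdef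
  have hγπ : γ (algebraMap K Ω π) = algebraMap K Ω π := by
    rw [hπdef, ← IsScalarTower.algebraMap_apply, h.γ_poly, Polynomial.map_sub, Polynomial.map_X,
      Polynomial.map_C, h.α_fix]
  have hcore' : γ (algebraMap K Ω (n / π)) =
      (if βi ∈ Z' then -1 else 1) * algebraMap K Ω (n / π) := by
    rw [map_div₀, map_div₀, hγπ, hn, hcore]
    ring
  have hPZ : PZ g D Z βi = pb * -(derivative D).eval α := by
    rw [PZ, if_pos hZi, ei, hpb, ei]
  rw [hPZ]
  have huj : xi - algebraMap F[X] K (C βj) ≠ 0 := hne βj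
  have hwj : w (xi - algebraMap F[X] K (C βj)) = 1 := hoth βj (Ne.symm hij)
  have hkey : (n / π) ^ 2 * (xi - algebraMap F[X] K (C βj)) =
      algebraMap F[X] K D₁ * (xj - xi) * px := by
    have e1 : algebraMap F[X] K D = π * algebraMap F[X] K D₁ := by
      rw [hπdef, ← map_mul, ← hD₁]
    rw [div_pow, hn2, hXX, hsplit, e1, div_mul_eq_mul_div, div_eq_iff (pow_ne_zero 2 hπ0)]
    linear_combination (-(π * algebraMap F[X] K D₁ * (xj - xi) * px)) * hπ
  apply h.final h2F _ _ hcore'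
  · exact mul_ne_zero hp0 (neg_ne_zero.mpr hD')
  · have h5 : Cg w (algebraMap F[X] K D₁ * (xj - xi) * px - algebraMap F[X] K
        (C (pb * -(derivative D).eval α)) * (xi - algebraMap F[X] K (C βj)))
        (D₁.eval α * (βj - βi) * pb - (pb * -(derivative D).eval α) * (βi - βj)) := by
      apply Cg.sub
      · exact ((Cg.poly h.isOver D₁).mul h.isOver
          ((cg_of_near hnj).sub (cg_of_near hni))).mul h.isOver hcp
      · exact (IsOver.cg_const (w := w) _).mul h.isOver
          ((cg_of_near hni).sub (IsOver.cg_const (w := w) βj))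
    rw [hD₁α, show (derivative D).eval α * (βj - βi) * pb -
      (pb * -(derivative D).eval α) * (βi - βj) = 0 by ring, ← hkey, ← sub_mul] at h5
    unfold Cg at h5 ⊢
    rw [C_0, map_zero, sub_zero, map_mul, hwj, mul_one] at h5
    exact h5

/-- The product of the three values of `PZ` over a fibre is the square of a fixed element. -/
lemma prod_PZ {F : Type*} [Field F] [IsAlgClosed F] {g D : F[X]} {Z : Finset F} {τ : F →+* F}
    {α βi βj βl : F} (hij : βi ≠ βj) (hil : βi ≠ βl) (hjl : βj ≠ βl)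
    (hfac : g - C α = (X - C βi) * (X - C βj) * (X - C βl))
    (heven : ∀ α, Even (Z.filter fun β => g.eval β = α).card) (hZ : ∀ β ∈ Z, τ β = β)
    (hg : g.map τ = g) (hD : D.map τ = D) (hα : τ α = α) :
    ∃ E, τ E = E ∧ PZ g D Z βi * PZ g D Z βj * PZ g D Z βl = E ^ 2 := by
  have hev : ∀ β, g.eval β - α = (β - βi) * (β - βj) * (β - βl) := by
    intro β
    have := congrArg (fun p => p.eval β) hfac
    simpa using this
  have ei : g.eval βi = α := by
    have := hev βi
    rw [sub_self, zero_mul, zero_mul] at this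
    exact sub_eq_zero.mp this
  have ej : g.eval βj = α := by
    have := hev βj
    rw [sub_self, mul_zero, zero_mul] at this
    exact sub_eq_zero.mp this
  have el : g.eval βl = α := by
    have := hev βl
    rw [sub_self, mul_zero] at this
    exact sub_eq_zero.mp this
  have hτev : ∀ (p : F[X]) (x : F), p.map τ = p → τ x = x → τ (p.eval x) = p.eval x := by
    intro p x hp hx
    have := eval₂_hom (p := p) τ x
    rw [← this, ← eval_map, hp, hx]
  set Zf := Z.filter (fun β => g.eval β ≠ α) with hZf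
  set d := -(derivative D).eval α with hd
  have hτd : τ d = d := by
    rw [hd, map_neg, hτev (derivative D) α (by rw [← derivative_map, hD]) hα]
  -- the part away from the fibre
  have hevenf : ∀ a, Even (Zf.filter fun β => g.eval β = a).card := by
    intro a
    by_cases ha : a = α
    · subst ha
      have : Zf.filter (fun β => g.eval β = a) = ∅ := by
        apply Finset.filter_false_of_mem
        intro β hβ
        rw [hZf, Finset.mem_filter] at hβ
        exact hβ.2
      rw [this]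
      exact ⟨0, rfl⟩
    · have : Zf.filter (fun β => g.eval β = a) = Z.filter (fun β => g.eval β = a) := by
        rw [hZf, Finset.filter_filter]
        apply Finset.filter_congr
        intro β _
        constructor
        · exact fun h => h.2
        · intro h
          exact ⟨by rw [h]; exact ha, h⟩
      rw [this]
      exact heven a
  set E₁ : F := ∏ a ∈ Zf.image (fun β => g.eval β),
    (α - a) ^ ((Zf.filter fun β => g.eval β = a).card / 2) with hE₁
  have hτE₁ : τ E₁ = E₁ := by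
    rw [hE₁, map_prod]
    apply Finset.prod_congr rfl
    intro a ha
    obtain ⟨β, hβ, rfl⟩ := Finset.mem_image.mp ha
    have hβZ : β ∈ Z := (Finset.mem_filter.mp hβ).1
    rw [map_pow, map_sub, hα, hτev g β hg (hZ β hβZ)]
  have hprod : (∏ β ∈ Zf, (βi - β)) * (∏ β ∈ Zf, (βj - β)) * (∏ β ∈ Zf, (βl - β)) = E₁ ^ 2 := by
    rw [← Finset.prod_mul_distrib, ← Finset.prod_mul_distrib, hE₁,
      ← prod_even_fibres Zf (fun β => g.eval β) (fun a => α - a) hevenf]
    apply Finset.prod_congr rfl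
    intro β _
    linear_combination hev β
  -- the part in the fibre
  have hfib : Z.filter (fun β => g.eval β = α) =
      ({βi, βj, βl} : Finset F).filter (fun β => β ∈ Z) := by
    ext β
    simp only [Finset.mem_filter, Finset.mem_insert, Finset.mem_singleton]
    constructor
    · rintro ⟨h1, h3⟩
      refine ⟨?_, h1⟩
      have h4 := hev β
      rw [h3, sub_self, eq_comm, mul_eq_zero, mul_eq_zero] at h4
      rcases h4 with (h4 | h4) | h4
      · exact Or.inl (sub_eq_zero.mp h4)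
      · exact Or.inr (Or.inl (sub_eq_zero.mp h4))
      · exact Or.inr (Or.inr (sub_eq_zero.mp h4))
    · rintro ⟨h1, h3⟩
      refine ⟨h3, ?_⟩
      rcases h1 with rfl | rfl | rfl
      · exact ei
      · exact ej
      · exact el
  have hpar := heven α
  rw [hfib] at hpar
  obtain ⟨e, hτe, he⟩ : ∃ e, τ e = e ∧ (if βi ∈ Z then d else 1) * (if βj ∈ Z then d else 1) *
      (if βl ∈ Z then d else 1) = e ^ 2 := by
    by_cases hi : βi ∈ Z <;> by_cases hj : βj ∈ Z <;> by_cases hl : βl ∈ Z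
    all_goals simp only [Finset.filter_insert, Finset.filter_singleton, hi, hj, hl, if_true,
      if_false] at hpar ⊢
    · rw [Finset.card_insert_of_notMem (by simp [hij, hil]),
        Finset.card_insert_of_notMem (by simp [hjl]), Finset.card_singleton] at hpar
      exact absurd hpar (by decide)
    · exact ⟨d, hτd, by ring⟩
    · exact ⟨d, hτd, by ring⟩
    · rw [Finset.card_insert_of_notMem (by simp)] at hpar
      simp at hpar
    · exact ⟨d, hτd, by ring⟩
    · rw [Finset.card_insert_of_notMem (by simp)] at hpar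
      simp at hpar
    · rw [Finset.card_singleton] at hpar
      exact absurd hpar (by decide)
    · exact ⟨1, map_one τ, by ring⟩
  refine ⟨E₁ * e, by rw [map_mul, hτE₁, hτe], ?_⟩
  rw [PZ, PZ, PZ, ei, ej, el, mul_pow, ← hprod, ← he]
  ring

lemma map_PZ {F : Type*} [Field F] {g D : F[X]} {Z : Finset F} {τ : F →+* F}
    {β' : F} (hZ : ∀ β ∈ Z, τ β = β) (hβ' : τ β' = β')
    (hg : g.map τ = g) (hD : D.map τ = D) : τ (PZ g D Z β') = PZ g D Z β' := by
  have hτev : ∀ (p : F[X]) (x : F), p.map τ = p → τ x = x → τ (p.eval x) = p.eval x := by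
    intro p x hp hx
    have := eval₂_hom (p := p) τ x
    rw [← this, ← eval_map, hp, hx]
  rw [PZ, map_mul, map_prod]
  congr 1
  · apply Finset.prod_congr rfl
    intro β hβ
    rw [map_sub, hβ', hZ β (Finset.mem_filter.mp hβ).1]
  · split_ifs
    · rw [map_neg, hτev (derivative D) _ (by rw [← derivative_map, hD]) (hτev g β' hg hβ')]
    · rw [map_one]

lemma PZ_ne_zero {F : Type*} [Field F] {g D : F[X]} {Z : Finset F}
    {β' : F} (hD' : (derivative D).eval (g.eval β') ≠ 0) : PZ g D Z β' ≠ 0 := by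
  rw [PZ]
  apply mul_ne_zero
  · apply Finset.prod_ne_zero_iff.mpr
    intro β hβ
    apply sub_ne_zero.mpr
    rintro rfl
    rw [Finset.mem_filter] at hβ
    exact hβ.2 rfl
  · split_ifs
    · exact neg_ne_zero.mpr hD'
    · exact one_ne_zero

/-- Parity of the intersection of a set with a fibre. -/
lemma mem_parity {F : Type*} [Field F] {g : F[X]} {Z : Finset F}
    {α βi βj βl : F} (hij : βi ≠ βj) (hil : βi ≠ βl) (hjl : βj ≠ βl)
    (hfac : g - C α = (X - C βi) * (X - C βj) * (X - C βl))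
    (heven : Even (Z.filter fun β => g.eval β = α).card) :
    βj ∈ Z ↔ ¬ (βi ∈ Z ↔ βl ∈ Z) := by
  have hev : ∀ β, g.eval β - α = (β - βi) * (β - βj) * (β - βl) := by
    intro β
    have := congrArg (fun p => p.eval β) hfac
    simpa using this
  have ei : g.eval βi = α := by
    have := hev βi
    rw [sub_self, zero_mul, zero_mul] at this
    exact sub_eq_zero.mp this
  have ej : g.eval βj = α := by
    have := hev βj
    rw [sub_self, mul_zero, zero_mul] at this
    exact sub_eq_zero.mp this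
  have el : g.eval βl = α := by
    have := hev βl
    rw [sub_self, mul_zero] at this
    exact sub_eq_zero.mp this
  have hfib : Z.filter (fun β => g.eval β = α) =
      ({βi, βj, βl} : Finset F).filter (fun β => β ∈ Z) := by
    ext β
    simp only [Finset.mem_filter, Finset.mem_insert, Finset.mem_singleton]
    constructor
    · rintro ⟨h1, h3⟩
      refine ⟨?_, h1⟩
      have h4 := hev β
      rw [h3, sub_self, eq_comm, mul_eq_zero, mul_eq_zero] at h4
      rcases h4 with (h4 | h4) | h4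
      · exact Or.inl (sub_eq_zero.mp h4)
      · exact Or.inr (Or.inl (sub_eq_zero.mp h4))
      · exact Or.inr (Or.inr (sub_eq_zero.mp h4))
    · rintro ⟨h1, h3⟩
      refine ⟨h3, ?_⟩
      rcases h1 with rfl | rfl | rfl
      · exact ei
      · exact ej
      · exact el
  rw [hfib] at heven
  by_cases hi : βi ∈ Z <;> by_cases hj : βj ∈ Z <;> by_cases hl : βl ∈ Z
  all_goals simp only [Finset.filter_insert, Finset.filter_singleton, hi, hj, hl, if_true,
    if_false] at heven ⊢
  all_goals try tauto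
  · exfalso
    rw [Finset.card_insert_of_notMem (by simp [hij, hil]),
      Finset.card_insert_of_notMem (by simp [hjl]), Finset.card_singleton] at heven
    exact absurd heven (by decide)
  · exfalso
    rw [Finset.card_insert_of_notMem (by simp)] at heven
    simp at heven
  · exfalso
    rw [Finset.card_insert_of_notMem (by simp)] at heven
    simp at heven
  · exfalso
    rw [Finset.card_singleton] at heven
    exact absurd heven (by decide)

end Tower

end Pool.Agent.Lib.MP_89bcae_ag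

end

section

/-!
# An automorphism which acts on the roots of a polynomial as Frobenius on the roots of its reduction
-/

open Polynomial

namespace Pool.Agent.Lib.MP_89bcae_ag

set_option linter.unusedSectionVars false
set_option linter.style.haveILetI false

variable {R K F κ Fκ : Type*} [CommRing R] [IsDomain R] [IsIntegrallyClosed R] [Field K]
  [Algebra R K] [IsFractionRing R K] [Field F] [Algebra K F] [Algebra R F] [IsScalarTower R K F]
  [IsAlgClosed F] [Algebra.IsAlgebraic K F]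
  [Field κ] [Fintype κ] [Field Fκ] [Algebra κ Fκ] [Algebra.IsAlgebraic κ Fκ] [IsAlgClosed Fκ]

/-- A root of a polynomial with invertible leading coefficient is integral. -/
lemma integral_root14 {f : R[X]} (hu : IsUnit f.leadingCoeff) {x : F} (hx : aeval x f = 0) :
    IsIntegral R x := by
  obtain ⟨u, hu⟩ := hu
  refine ⟨C (↑u⁻¹ : R) * f, ?_, ?_⟩
  · rw [Monic, leadingCoeff_mul, leadingCoeff_C, ← hu]
    exact u.inv_mul
  · rw [eval₂_mul]
    change _ * aeval x f = 0
    rw [hx, mul_zero]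

/-- The reduction of a root is a root. -/
lemma red_root14 {π : R →+* κ} {ρ : integralClosure R F →+* Fκ}
    (hρ : ∀ r, ρ (algebraMap R (integralClosure R F) r) = algebraMap κ Fκ (π r))
    {f : R[X]} {x : F} (hi : IsIntegral R x) (hx : aeval x f = 0) :
    aeval (ρ ⟨x, hi⟩) (f.map π) = 0 := by
  have h1 : aeval (⟨x, hi⟩ : integralClosure R F) f = 0 := by
    apply Subtype.ext
    have h2 : ((aeval (⟨x, hi⟩ : integralClosure R F) f : integralClosure R F) : F) = aeval x f := by
      rw [← Subalgebra.coe_val, ← aeval_algHom_apply]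
      rfl
    rw [h2, hx]
    rfl
  rw [aeval_def, eval₂_map]
  have h2 : (algebraMap κ Fκ).comp π = ρ.comp (algebraMap R (integralClosure R F)) :=
    RingHom.ext fun r => (hρ r).symm
  rw [h2, ← hom_eval₂]
  change ρ (aeval (⟨x, hi⟩ : integralClosure R F) f) = 0
  rw [h1, map_zero]

variable (F) in
/-- The polynomial is separable if its reduction is. -/
lemma separable_of_red14 [FaithfulSMul R F] {π : R →+* κ} (hπ : Function.Surjective π) {f : R[X]}
    (hu : IsUnit f.leadingCoeff) (hs : (f.map π).Separable) :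
    (f.map (algebraMap R K)).Separable := by
  obtain ⟨ρ, hρ⟩ := exists_red14 (F := F) (Fκ := AlgebraicClosure κ) π hπ
  rw [← separable_map (algebraMap K F), Polynomial.map_map, ← IsScalarTower.algebraMap_eq,
    Polynomial.Separable, isCoprime_iff_aeval_ne_zero_of_isAlgClosed (k := F) F]
  intro a
  by_contra hcon
  push Not at hcon
  obtain ⟨h1, h2⟩ := hcon
  rw [← eval_map_algebraMap, Polynomial.map_map, Algebra.algebraMap_self, RingHom.id_comp,
    eval_map_algebraMap] at h1
  rw [derivative_map, ← eval_map_algebraMap, Polynomial.map_map, Algebra.algebraMap_self,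
    RingHom.id_comp, eval_map_algebraMap] at h2
  have hi := integral_root14 hu h1
  have h3 := red_root14 hρ hi h1
  have h4 := red_root14 hρ hi h2
  rw [← derivative_map] at h4
  obtain ⟨a', b', hab⟩ := hs
  have h5 := congrArg (aeval (ρ ⟨a, hi⟩)) hab
  rw [map_add, map_mul, map_mul, h3, h4, mul_zero, mul_zero, add_zero, map_one] at h5
  exact zero_ne_one h5

/-- A reduction map and a root with a given reduction. -/
lemma exists_root_red14 [FaithfulSMul R F] {π : R →+* κ} (hπ : Function.Surjective π) {f : R[X]}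
    (hu : IsUnit f.leadingCoeff) (hirr : Irreducible (f.map π)) {β' : Fκ}
    (hβ' : aeval β' (f.map π) = 0) :
    ∃ (ρ : integralClosure R F →+* Fκ) (β : F) (hi : IsIntegral R β),
      (∀ r, ρ (algebraMap R (integralClosure R F) r) = algebraMap κ Fκ (π r)) ∧
      aeval β f = 0 ∧ ρ ⟨β, hi⟩ = β' := by
  obtain ⟨ρ, hρ⟩ := exists_red14 (F := F) (Fκ := Fκ) π hπ
  have hdeg : (f.map (algebraMap R F)).degree ≠ 0 := by
    have h1 : (f.map (algebraMap R F)).natDegree = f.natDegree :=
      natDegree_map_eq_of_injective (FaithfulSMul.algebraMap_injective R F) f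
    have h2 : 0 < f.natDegree := lt_of_lt_of_le hirr.natDegree_pos natDegree_map_le
    intro h3
    have h4 := natDegree_eq_zero_iff_degree_le_zero.mpr h3.le
    omega
  obtain ⟨β, hβ⟩ := IsAlgClosed.exists_root _ hdeg
  have hβ2 : aeval β f = 0 := by
    rw [IsRoot.def, eval_map_algebraMap] at hβ
    exact hβ
  have hi := integral_root14 hu hβ2
  obtain ⟨m, -, hm⟩ := exists_frob8_pow hirr hβ' (red_root14 hρ hi hβ2)
  refine ⟨(((frob8 κ Fκ ^ m)⁻¹ : Fκ ≃ₐ[κ] Fκ) : Fκ →+* Fκ).comp ρ, β, hi, fun r => ?_, hβ2, ?_⟩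
  · rw [RingHom.comp_apply, hρ]
    exact AlgEquiv.commutes _ _
  · rw [RingHom.comp_apply, hm]
    change ((frob8 κ Fκ ^ m)⁻¹ * (frob8 κ Fκ ^ m)) β' = β'
    rw [inv_mul_cancel]
    rfl

open scoped Classical in
/-- **The automorphism.** -/
theorem frob_spec14 {π : R →+* κ} (hπ : Function.Surjective π) (h2 : (2 : κ) ≠ 0) {f : R[X]}
    (hu : IsUnit f.leadingCoeff) {N : ℕ} (hN : f.natDegree = N) (hirr : Irreducible (f.map π))
    {β' : Fκ} (hβ' : aeval β' (f.map π) = 0) :
    ∃ (φ : F ≃ₐ[K] F) (β : F), aeval β f = 0 ∧ (∀ γ : F, aeval γ f = 0 → ∃ i, (φ ^ i) β = γ) ∧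
      (∀ i, (φ ^ i) β = β ↔ N ∣ i) ∧
      ∀ i j : ℕ, Moves (fun x => (frob8 κ Fκ ^ N) x)
          (((frob8 κ Fκ ^ i) β' - β') * ((frob8 κ Fκ ^ i) β' - (frob8 κ Fκ ^ j) β')) →
        Moves (fun x => (φ ^ N) x) (((φ ^ i) β - β) * ((φ ^ i) β - (φ ^ j) β)) := by
  have hinjR : Function.Injective (algebraMap R F) := by
    rw [IsScalarTower.algebraMap_eq R K F]
    exact (algebraMap K F).injective.comp (IsFractionRing.injective R K)
  have hfaith : FaithfulSMul R F := (faithfulSMul_iff_algebraMap_injective R F).mpr hinjR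
  obtain ⟨ρ, β, hi, hρ, hβ, hρβ⟩ := exists_root_red14 (F := F) hπ hu hirr hβ'
  have hsepκ : (f.map π).Separable := PerfectField.separable_of_irreducible hirr
  have hsep : (f.map (algebraMap R K)).Separable := separable_of_red14 F hπ hu hsepκ
  have h2F : (2 : F) ≠ 0 := by
    intro h0
    have h1 : (2 : R) = 0 := hinjR (by rw [map_ofNat, map_zero]; exact h0)
    apply h2
    rw [← map_ofNat π, h1, map_zero]
  have hf0 : f ≠ 0 := by
    rintro rfl
    rw [Polynomial.map_zero] at hirr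
    exact hirr.ne_zero rfl
  have hfF0 : f.map (algebraMap R F) ≠ 0 := (Polynomial.map_ne_zero_iff hinjR).mpr hf0
  -- the roots
  set B : Finset F := (f.map (algebraMap R F)).roots.toFinset with hB
  have hmemB : ∀ γ, γ ∈ B ↔ aeval γ f = 0 := by
    intro γ
    rw [hB, Multiset.mem_toFinset, mem_roots hfF0, IsRoot.def, eval_map_algebraMap]
  have hBsep : ∀ γ ∈ B, γ ∈ separableClosure K F := by
    intro γ hγ
    rw [mem_separableClosure_iff]
    apply Separable.of_dvd hsep
    apply minpoly.dvd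
    rw [aeval_map_algebraMap]
    exact (hmemB γ).mp hγ
  have hBint : ∀ γ ∈ B, IsIntegral R γ := fun γ hγ => integral_root14 hu ((hmemB γ).mp hγ)
  -- the square roots
  have hsq : ∀ x : F, ∃ y, y ^ 2 = x := fun x => IsAlgClosed.exists_pow_nat_eq x (by norm_num)
  choose sq hsq using hsq
  let T : Finset F := (B ×ˢ (B ×ˢ B)).image fun p => sq ((p.1 - p.2.1) * (p.1 - p.2.2))
  obtain ⟨φ, M, hSM, hM⟩ := exists_frob_lift14 (κ := κ) π hπ ρ hρ (B ∪ T) (by
    intro x hx
    rw [Finset.mem_union] at hx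
    rcases hx with hx | hx
    · exact mem_separableClosure_iff.mp (hBsep x hx)
    · rw [Finset.mem_image] at hx
      obtain ⟨⟨a, b, c⟩, hp, rfl⟩ := hx
      rw [Finset.mem_product, Finset.mem_product] at hp
      obtain ⟨ha, hb, hc⟩ := hp
      set x := (a - b) * (a - c) with hx
      have hxs : x ∈ separableClosure K F :=
        mul_mem (sub_mem (hBsep a ha) (hBsep b hb)) (sub_mem (hBsep a ha) (hBsep c hc))
      by_cases hx0 : x = 0
      · have h3 : sq x = 0 := by
          have := hsq x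
          rw [hx0] at this ⊢
          exact pow_eq_zero_iff (two_ne_zero) |>.mp this
        change IsSeparable K (sq x)
        rw [h3]
        exact mem_separableClosure_iff.mp (zero_mem _)
      · change IsSeparable K (sq x)
        apply IsSeparable.of_algebra_isSeparable_of_isSeparable K (E := separableClosure K F)
        have h3 : (X ^ 2 - C (⟨x, hxs⟩ : separableClosure K F)).Separable := by
          apply separable_X_pow_sub_C
          · intro h4
            apply h2F
            have h5 := congrArg (algebraMap (separableClosure K F) F) h4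
            rw [map_natCast, map_zero] at h5
            exact_mod_cast h5
          · intro h4
            exact hx0 (congrArg Subtype.val h4)
        apply Separable.of_dvd h3
        apply minpoly.dvd
        rw [map_sub, map_pow, aeval_X, aeval_C, hsq]
        exact sub_self _)
  have hMi : ∀ (i : ℕ) (x : F), x ∈ M → ∀ hx : IsIntegral R x, (φ ^ i) x ∈ M ∧
      ∃ hx' : IsIntegral R ((φ ^ i) x), ρ ⟨(φ ^ i) x, hx'⟩ = (frob8 κ Fκ ^ i) (ρ ⟨x, hx⟩) := by
    intro i
    induction i with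
    | zero => exact fun x hxM hx => ⟨hxM, hx, rfl⟩
    | succ i ih =>
      intro x hxM hx
      obtain ⟨h3, h4, h5⟩ := ih x hxM hx
      obtain ⟨h6, h7⟩ := hM _ h3
      obtain ⟨h8, h9⟩ := h7 h4
      have h10 : (φ ^ (i + 1)) x = φ ((φ ^ i) x) := by rw [pow_succ', AlgEquiv.mul_apply]
      refine ⟨by rw [h10]; exact h6, by rw [h10]; exact h8, ?_⟩
      have h11 : ρ ⟨(φ ^ (i + 1)) x, by rw [h10]; exact h8⟩ = ρ ⟨φ ((φ ^ i) x), h8⟩ := by
        congr 1
        exact Subtype.ext h10
      rw [h11, h9, h5, pow_succ' (frob8 κ Fκ), AlgEquiv.mul_apply, frob8_apply,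
        Nat.card_eq_fintype_card]
  have hβB : β ∈ B := (hmemB β).mpr hβ
  have hβM : β ∈ M := hSM β (Finset.mem_union_left _ hβB)
  have hroot : ∀ i, (φ ^ i) β ∈ B := by
    intro i
    rw [hmemB]
    have h3 : aeval ((φ ^ i) β) (f.map (algebraMap R K)) = 0 := by
      rw [← AlgEquiv.coe_toAlgHom (φ ^ i), aeval_algHom_apply, aeval_map_algebraMap, hβ, map_zero]
    rwa [aeval_map_algebraMap] at h3
  have hred : ∀ i, ρ ⟨(φ ^ i) β, hBint _ (hroot i)⟩ = (frob8 κ Fκ ^ i) β' := by
    intro i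
    obtain ⟨-, h4, h5⟩ := hMi i β hβM hi
    rw [h5, hρβ]
  have hdegκ : (f.map π).natDegree = N := by
    rw [← hN]
    exact natDegree_map_of_leadingCoeff_ne_zero π (hu.map π).ne_zero
  have hmin : (minpoly κ β').natDegree = N := by
    rw [← minpoly.eq_of_irreducible hirr hβ', natDegree_mul_leadingCoeff_inv _ hirr.ne_zero, hdegκ]
  have hiff : ∀ i, (frob8 κ Fκ ^ i) β' = β' ↔ N ∣ i := fun i => by
    rw [frob8_pow_eq_iff, hmin]
  have hBcard : B.card ≤ N := by
    rw [← hN, ← natDegree_map_eq_of_injective hinjR f]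
    exact (Multiset.toFinset_card_le _).trans (card_roots' _)
  -- the orbit
  have horb : ∀ γ ∈ B, ∃ i < N, (φ ^ i) β = γ := by
    have h3 : ((Finset.range N).image fun i => (φ ^ i) β) = B := by
      apply Finset.eq_of_subset_of_card_le
      · intro γ hγ
        rw [Finset.mem_image] at hγ
        obtain ⟨i, -, rfl⟩ := hγ
        exact hroot i
      · rw [Finset.card_image_of_injOn, Finset.card_range]
        · exact hBcard
        · intro a ha b hb hab
          have ha' := Finset.mem_range.mp ha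
          have hb' := Finset.mem_range.mp hb
          have h4 : (frob8 κ Fκ ^ a) β' = (frob8 κ Fκ ^ b) β' := by
            rw [← hred, ← hred]
            congr 1
            exact Subtype.ext hab
          wlog hle : a ≤ b generalizing a b
          · exact (this hb ha hab.symm hb' ha' h4.symm (by omega)).symm
          have h5 : (frob8 κ Fκ ^ (b - a)) β' = β' := by
            apply (frob8 κ Fκ ^ a).injective
            rw [← AlgEquiv.mul_apply, ← pow_add, Nat.add_sub_cancel' hle]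
            exact h4.symm
          rw [hiff] at h5
          have := Nat.eq_zero_of_dvd_of_lt h5 (by omega)
          omega
    intro γ hγ
    rw [← h3, Finset.mem_image] at hγ
    obtain ⟨i, hi, hiγ⟩ := hγ
    exact ⟨i, Finset.mem_range.mp hi, hiγ⟩
  refine ⟨φ, β, hβ, fun γ hγ => ?_, fun i => ?_, fun i j hm s hs hsφ => ?_⟩
  · obtain ⟨i, -, hi⟩ := horb γ ((hmemB γ).mpr hγ)
    exact ⟨i, hi⟩
  · have hper : (φ ^ N) β = β := by
      obtain ⟨i, hiN, hi'⟩ := horb _ (hroot N)
      have h3 : (frob8 κ Fκ ^ i) β' = (frob8 κ Fκ ^ N) β' := by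
        rw [← hred, ← hred]
        congr 1
        exact Subtype.ext hi'
      rw [(hiff N).mpr dvd_rfl, hiff] at h3
      have h4 := Nat.eq_zero_of_dvd_of_lt h3 hiN
      rw [h4, pow_zero] at hi'
      exact hi'.symm
    constructor
    · intro h3
      rw [← hiff, ← hred, ← hρβ]
      congr 1
      exact Subtype.ext h3
    · rintro ⟨m, rfl⟩
      induction m with
      | zero => rfl
      | succ m ih => rw [Nat.mul_succ, pow_add, AlgEquiv.mul_apply, hper, ih]
  · -- the square roots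
    set x := ((φ ^ i) β - β) * ((φ ^ i) β - (φ ^ j) β) with hx
    have h3 : (φ ^ N) (sq x) = sq x := by
      have h4 : s ^ 2 = sq x ^ 2 := by rw [hs, hsq]
      rcases sq_eq_sq_iff_eq_or_eq_neg.mp h4 with h5 | h5
      · rw [← h5]
        exact hsφ
      · change (φ ^ N) s = s at hsφ
        rw [h5, map_neg] at hsφ
        exact neg_injective hsφ
    have h4 : sq x ∈ M := by
      apply hSM
      apply Finset.mem_union_right
      rw [Finset.mem_image]
      refine ⟨((φ ^ i) β, β, (φ ^ j) β), ?_, rfl⟩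
      rw [Finset.mem_product, Finset.mem_product]
      exact ⟨hroot i, hβB, hroot j⟩
    have h5 : IsIntegral R (sq x) := by
      apply IsIntegral.of_pow (n := 2) (by norm_num)
      rw [hsq]
      exact ((hBint _ (hroot i)).sub hi).mul ((hBint _ (hroot i)).sub (hBint _ (hroot j)))
    obtain ⟨-, h6, h7⟩ := hMi N _ h4 h5
    refine hm (ρ ⟨sq x, h5⟩) ?_ ?_
    · rw [← map_pow, ← hred i, ← hred j, ← hρβ, ← map_sub, ← map_sub, ← map_mul]
      congr 1
      exact Subtype.ext (hsq x)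
    · change (frob8 κ Fκ ^ N) (ρ ⟨sq x, h5⟩) = ρ ⟨sq x, h5⟩
      rw [← h7]
      congr 1
      exact Subtype.ext h3

end Pool.Agent.Lib.MP_89bcae_ag

end

section

/-!
# Frobenius elements and the action of the Galois group on the pairs of roots
-/

open Polynomial

namespace Pool.Agent.Lib.MP_89bcae_ag

set_option linter.unusedSectionVars false
set_option linter.style.haveILetI false

section Lift

variable {R K F κ Fκ : Type*} [CommRing R] [IsDomain R] [IsIntegrallyClosed R] [Field K]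
  [Algebra R K] [IsFractionRing R K] [Field F] [Algebra K F] [Algebra R F] [IsScalarTower R K F]
  [IsAlgClosed F] [Algebra.IsAlgebraic K F]
  [Field κ] [Fintype κ] [Field Fκ] [Algebra κ Fκ] [Algebra.IsAlgebraic κ Fκ] [IsAlgClosed Fκ]

/-- Two roots with the same reduction, which is a simple root of the reduced polynomial, are
equal. -/
lemma eq_of_red14 {π : R →+* κ} {ρ : integralClosure R F →+* Fκ}
    (hρ : ∀ r, ρ (algebraMap R (integralClosure R F) r) = algebraMap κ Fκ (π r))
    {f : R[X]} {x y : F} (hx : IsIntegral R x) (hy : IsIntegral R y) (hfx : aeval x f = 0)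
    (hfy : aeval y f = 0) (hxy : ρ ⟨x, hx⟩ = ρ ⟨y, hy⟩)
    (hs : aeval (ρ ⟨x, hx⟩) (derivative (f.map π)) ≠ 0) : x = y := by
  by_contra hne
  apply hs
  have hev : ∀ z : integralClosure R F, ((aeval z f : integralClosure R F) : F) =
      aeval (z : F) f := by
    intro z
    rw [← Subalgebra.coe_val, ← aeval_algHom_apply]
  have h1 : (f.map (algebraMap R (integralClosure R F))).IsRoot ⟨x, hx⟩ := by
    rw [IsRoot.def, eval_map_algebraMap]
    exact Subtype.ext ((hev _).trans hfx)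
  have h2 : (f.map (algebraMap R (integralClosure R F))).eval ⟨y, hy⟩ = 0 := by
    rw [eval_map_algebraMap]
    exact Subtype.ext ((hev _).trans hfy)
  obtain ⟨q, hq⟩ := dvd_iff_isRoot.mpr h1
  have h3 : q.eval ⟨y, hy⟩ = 0 := by
    rw [hq, eval_mul, eval_sub, eval_X, eval_C] at h2
    rcases mul_eq_zero.mp h2 with h | h
    · exact absurd (congrArg Subtype.val (sub_eq_zero.mp h)).symm hne
    · exact h
  have hcomp : (algebraMap κ Fκ).comp π = ρ.comp (algebraMap R (integralClosure R F)) :=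
    RingHom.ext fun r => (hρ r).symm
  have h4 : (f.map π).map (algebraMap κ Fκ) = (X - C (ρ ⟨x, hx⟩)) * q.map ρ := by
    rw [Polynomial.map_map, hcomp, ← Polynomial.map_map, hq, Polynomial.map_mul,
      Polynomial.map_sub, map_X, map_C]
  rw [← eval_map_algebraMap, ← derivative_map, h4, derivative_mul, derivative_sub, derivative_X,
    derivative_C, sub_zero, one_mul, eval_add, eval_mul, eval_sub, eval_X, eval_C, sub_self,
    zero_mul, add_zero, hxy, eval_map, eval₂_at_apply, h3, map_zero]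

/-- Every root of the reduced polynomial is the reduction of a root. -/
lemma exists_lift_root14 [FaithfulSMul R F] {π : R →+* κ} {ρ : integralClosure R F →+* Fκ}
    (hρ : ∀ r, ρ (algebraMap R (integralClosure R F) r) = algebraMap κ Fκ (π r))
    {f : R[X]} (hu : IsUnit f.leadingCoeff) {β : Fκ} (hβ : aeval β (f.map π) = 0) :
    ∃ (x : F) (hx : IsIntegral R x), aeval x f = 0 ∧ ρ ⟨x, hx⟩ = β := by
  classical
  have hinjR : Function.Injective (algebraMap R F) := FaithfulSMul.algebraMap_injective R F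
  have hf0 : f ≠ 0 := by
    rintro rfl
    rw [leadingCoeff_zero] at hu
    exact not_isUnit_zero hu
  have hfF0 : f.map (algebraMap R F) ≠ 0 := (Polynomial.map_ne_zero_iff hinjR).mpr hf0
  have hroot : ∀ x ∈ (f.map (algebraMap R F)).roots, aeval x f = 0 := by
    intro x hx
    rw [mem_roots hfF0, IsRoot.def, eval_map_algebraMap] at hx
    exact hx
  obtain ⟨s, hs⟩ : ∃ s : Multiset (integralClosure R F),
      s.map (fun z : integralClosure R F => (z : F)) = (f.map (algebraMap R F)).roots := by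
    refine ⟨(f.map (algebraMap R F)).roots.attach.map fun x =>
      ⟨x.1, integral_root14 hu (hroot x.1 x.2)⟩, ?_⟩
    rw [Multiset.map_map]
    exact Multiset.attach_map_val _
  have h1 : f.map (algebraMap R (integralClosure R F)) =
      C (algebraMap R (integralClosure R F) f.leadingCoeff) * (s.map fun z => X - C z).prod := by
    apply Polynomial.map_injective (algebraMap (integralClosure R F) F)
      (FaithfulSMul.algebraMap_injective _ _)
    rw [Polynomial.map_map, ← IsScalarTower.algebraMap_eq R (integralClosure R F) F,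
      Polynomial.map_mul, map_C, ← IsScalarTower.algebraMap_apply R (integralClosure R F) F]
    have h2 := (IsAlgClosed.splits (f.map (algebraMap R F))).eq_prod_roots
    rw [leadingCoeff_map_of_injective hinjR] at h2
    rw [Polynomial.map_multiset_prod, Multiset.map_map]
    conv_lhs => rw [h2, ← hs, Multiset.map_map]
    congr 3
    funext z
    simp only [Function.comp_apply, Polynomial.map_sub, map_X, map_C]
    rfl
  have hcomp : (algebraMap κ Fκ).comp π = ρ.comp (algebraMap R (integralClosure R F)) :=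
    RingHom.ext fun r => (hρ r).symm
  have h3 : (f.map π).map (algebraMap κ Fκ) =
      C (ρ (algebraMap R (integralClosure R F) f.leadingCoeff)) *
        (s.map fun z => X - C (ρ z)).prod := by
    rw [Polynomial.map_map, hcomp, ← Polynomial.map_map, h1, Polynomial.map_mul, map_C,
      Polynomial.map_multiset_prod, Multiset.map_map]
    congr 3
    funext z
    simp only [Function.comp_apply, Polynomial.map_sub, map_X, map_C]
  have h4 : (s.map fun z => β - ρ z).prod = 0 := by
    rw [← eval_map_algebraMap, h3, eval_mul, eval_C, eval_multiset_prod, Multiset.map_map] at hβ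
    rcases mul_eq_zero.mp hβ with h | h
    · rw [hρ, map_eq_zero] at h
      exact absurd h (hu.map π).ne_zero
    · rw [← h]
      congr 2
      funext z
      simp
  rw [Multiset.prod_eq_zero_iff, Multiset.mem_map] at h4
  obtain ⟨z, hz, hz0⟩ := h4
  refine ⟨z, z.2, ?_, (sub_eq_zero.mp hz0).symm⟩
  apply hroot
  rw [← hs]
  exact Multiset.mem_map_of_mem _ hz

/-- **The Frobenius element.** -/
theorem exists_frob_roots14 {π : R →+* κ} (hπ : Function.Surjective π) {f : R[X]}
    (hu : IsUnit f.leadingCoeff) (hsep : (f.map (algebraMap R K)).Separable) :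
    ∃ (ρ : integralClosure R F →+* Fκ) (φ : F ≃ₐ[K] F),
      (∀ r, ρ (algebraMap R (integralClosure R F) r) = algebraMap κ Fκ (π r)) ∧
      ∀ (i : ℕ) (x : F), aeval x f = 0 → ∀ hx : IsIntegral R x, aeval ((φ ^ i) x) f = 0 ∧
        ∃ hx' : IsIntegral R ((φ ^ i) x), ρ ⟨(φ ^ i) x, hx'⟩ = (frob8 κ Fκ ^ i) (ρ ⟨x, hx⟩) := by
  classical
  have hinjR : Function.Injective (algebraMap R F) := by
    rw [IsScalarTower.algebraMap_eq R K F]
    exact (algebraMap K F).injective.comp (IsFractionRing.injective R K)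
  have hfaith : FaithfulSMul R F := (faithfulSMul_iff_algebraMap_injective R F).mpr hinjR
  obtain ⟨ρ, hρ⟩ := exists_red14 (F := F) (Fκ := Fκ) π hπ
  have hf0 : f ≠ 0 := by
    rintro rfl
    rw [leadingCoeff_zero] at hu
    exact not_isUnit_zero hu
  have hfF0 : f.map (algebraMap R F) ≠ 0 := (Polynomial.map_ne_zero_iff hinjR).mpr hf0
  set B : Finset F := (f.map (algebraMap R F)).roots.toFinset with hB
  have hmemB : ∀ γ, γ ∈ B ↔ aeval γ f = 0 := by
    intro γ
    rw [hB, Multiset.mem_toFinset, mem_roots hfF0, IsRoot.def, eval_map_algebraMap]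
  obtain ⟨φ, M, hSM, hM⟩ := exists_frob_lift14 (κ := κ) π hπ ρ hρ B (by
    intro γ hγ
    apply Separable.of_dvd hsep
    apply minpoly.dvd
    rw [aeval_map_algebraMap]
    exact (hmemB γ).mp hγ)
  have hMi : ∀ (i : ℕ) (x : F), x ∈ M → ∀ hx : IsIntegral R x, (φ ^ i) x ∈ M ∧
      ∃ hx' : IsIntegral R ((φ ^ i) x), ρ ⟨(φ ^ i) x, hx'⟩ = (frob8 κ Fκ ^ i) (ρ ⟨x, hx⟩) := by
    intro i
    induction i with
    | zero => exact fun x hxM hx => ⟨hxM, hx, rfl⟩
    | succ i ih =>
      intro x hxM hx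
      obtain ⟨h3, h4, h5⟩ := ih x hxM hx
      obtain ⟨h6, h7⟩ := hM _ h3
      obtain ⟨h8, h9⟩ := h7 h4
      have h10 : (φ ^ (i + 1)) x = φ ((φ ^ i) x) := by rw [pow_succ', AlgEquiv.mul_apply]
      refine ⟨by rw [h10]; exact h6, by rw [h10]; exact h8, ?_⟩
      have h11 : ρ ⟨(φ ^ (i + 1)) x, by rw [h10]; exact h8⟩ = ρ ⟨φ ((φ ^ i) x), h8⟩ := by
        congr 1
        exact Subtype.ext h10
      rw [h11, h9, h5, pow_succ' (frob8 κ Fκ), AlgEquiv.mul_apply, frob8_apply,
        Nat.card_eq_fintype_card]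
  refine ⟨ρ, φ, hρ, fun i x hx hi => ⟨?_, (hMi i x (hSM x ((hmemB x).mpr hx)) hi).2⟩⟩
  have h3 : aeval ((φ ^ i) x) (f.map (algebraMap R K)) = 0 := by
    rw [← AlgEquiv.coe_toAlgHom (φ ^ i), aeval_algHom_apply, aeval_map_algebraMap, hx, map_zero]
  rwa [aeval_map_algebraMap] at h3

end Lift

section Types

variable {R K F κ : Type*} [CommRing R] [IsDomain R] [IsIntegrallyClosed R] [Field K]
  [Algebra R K] [IsFractionRing R K] [Field F] [Algebra K F] [Algebra R F] [IsScalarTower R K F]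
  [IsAlgClosed F] [Algebra.IsAlgebraic K F]
  [Field κ] [Fintype κ]

variable (K F) in
/-- **Type A.** -/
theorem frob_typeA14 {π : R →+* κ} (hπ : Function.Surjective π) {f : R[X]}
    (hu : IsUnit f.leadingCoeff) (hsep : (f.map (algebraMap R K)).Separable)
    (hirr : Irreducible (f.map π)) :
    ∃ φ : F ≃ₐ[K] F, ∀ x y : F, aeval x f = 0 → aeval y f = 0 → ∃ i : ℕ, (φ ^ i) x = y := by
  obtain ⟨ρ, φ, hρ, hφ⟩ := exists_frob_roots14 (F := F) (Fκ := AlgebraicClosure κ) hπ hu hsep
  refine ⟨φ, fun x y hx hy => ?_⟩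
  have hix := integral_root14 hu hx
  have hiy := integral_root14 hu hy
  obtain ⟨i, -, hi⟩ := exists_frob8_pow hirr (red_root14 hρ hix hx) (red_root14 hρ hiy hy)
  obtain ⟨h1, h2, h3⟩ := hφ i x hx hix
  refine ⟨i, eq_of_red14 hρ h2 hiy h1 hy (by rw [h3, hi]) ?_⟩
  have hsepκ : (f.map π).Separable := PerfectField.separable_of_irreducible hirr
  intro h4
  obtain ⟨a', b', hab⟩ := hsepκ
  have h5 := congrArg (aeval (ρ ⟨(φ ^ i) x, h2⟩)) hab
  rw [map_add, map_mul, map_mul, red_root14 hρ h2 h1, h4, mul_zero, mul_zero, add_zero,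
    map_one] at h5
  exact zero_ne_one h5

variable (K F) in
/-- **Type B.** -/
theorem frob_typeB14 {π : R →+* κ} (hπ : Function.Surjective π) {g D : R[X]} (hg : g.Monic)
    (hdeg : g.natDegree = 3) (hu : IsUnit D.leadingCoeff)
    (hsep : ((D.comp g).map (algebraMap R K)).Separable) {b : κ} {D₁ : κ[X]}
    (hD : D.map π = (X - C ((g.map π).eval b)) * D₁)
    (hb : (derivative (g.map π)).eval b ≠ 0) (hirr : Irreducible (D₁.comp (g.map π))) :
    ∃ (φ : F ≃ₐ[K] F) (z : F), aeval z (D.comp g) = 0 ∧ φ z = z ∧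
      ∀ x y : F, aeval x (D.comp g) = 0 → aeval y (D.comp g) = 0 → aeval x g ≠ aeval z g →
        aeval y g ≠ aeval z g → ∃ i : ℕ, (φ ^ i) x = y := by
  have huD : IsUnit (D.comp g).leadingCoeff := by
    rw [leadingCoeff_comp (by omega), hg.leadingCoeff, one_pow, mul_one]
    exact hu
  have hinjR : Function.Injective (algebraMap R F) := by
    rw [IsScalarTower.algebraMap_eq R K F]
    exact (algebraMap K F).injective.comp (IsFractionRing.injective R K)
  have hfaith : FaithfulSMul R F := (faithfulSMul_iff_algebraMap_injective R F).mpr hinjR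
  obtain ⟨ρ, φ, hρ, hφ⟩ := exists_frob_roots14 (F := F) (Fκ := AlgebraicClosure κ) hπ huD hsep
  set Fκ := AlgebraicClosure κ with hFκ
  set g' := g.map π with hg'
  set β : Fκ := algebraMap κ Fκ b with hβ
  have hmap : (D.comp g).map π = (g' - C (g'.eval b)) * D₁.comp g' := by
    rw [Polynomial.map_comp, hD, mul_comp, sub_comp, X_comp, C_comp]
  have hmon : g'.Monic := hg.map π
  have hdeg' : g'.natDegree = 3 := by rw [hg', hg.natDegree_map, hdeg]
  -- `D₁ (g (b))` is not zero
  have hD1 : D₁.eval (g'.eval b) ≠ 0 := by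
    intro h0
    have h1 : (D₁.comp g').IsRoot b := by rw [IsRoot.def, eval_comp, h0]
    have h2 := degree_eq_one_of_irreducible_of_root hirr h1
    have h3 : (D₁.comp g').natDegree = 1 := natDegree_eq_of_degree_eq_some h2
    rw [natDegree_comp, hdeg'] at h3
    omega
  have hgβ : aeval β g' = algebraMap κ Fκ (g'.eval b) := by
    rw [hβ, aeval_algebraMap_apply, coe_aeval_eq_eval]
  have hDβ : aeval (aeval β g') D₁ ≠ 0 := by
    rw [hgβ, aeval_algebraMap_apply, coe_aeval_eq_eval]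
    exact (_root_.map_ne_zero _).mpr hD1
  -- the root `z`
  obtain ⟨z, hz, hzr, hzβ⟩ := exists_lift_root14 hρ huD (β := β) (by
    rw [hmap, map_mul, map_sub, aeval_C, hgβ, sub_self, zero_mul])
  have hsimple : aeval β (derivative ((D.comp g).map π)) ≠ 0 := by
    rw [hmap, derivative_mul, derivative_sub, derivative_C, sub_zero, map_add, map_mul, map_mul,
      map_sub, aeval_C, hgβ, sub_self, zero_mul, add_zero]
    apply mul_ne_zero
    · rw [hβ, aeval_algebraMap_apply, coe_aeval_eq_eval]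
      exact (_root_.map_ne_zero _).mpr hb
    · rw [aeval_comp]
      exact hDβ
  have hint : ∀ x : F, aeval x (D.comp g) = 0 → IsIntegral R x := fun x hx => integral_root14 huD hx
  -- values of `g`
  have hev : ∀ z : integralClosure R F, ((aeval z g : integralClosure R F) : F) =
      aeval (z : F) g := by
    intro z
    rw [← Subalgebra.coe_val, ← aeval_algHom_apply]
  have hgint : ∀ x : F, ∀ hx : IsIntegral R x, IsIntegral R (aeval x g) := fun x hx => by
    have h1 := (aeval (⟨x, hx⟩ : integralClosure R F) g).2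
    rw [hev] at h1
    exact h1
  have hρg : ∀ (x : F) (hx : IsIntegral R x), ρ ⟨aeval x g, hgint x hx⟩ = aeval (ρ ⟨x, hx⟩) g' := by
    intro x hx
    have h1 : (⟨aeval x g, hgint x hx⟩ : integralClosure R F) =
        aeval (⟨x, hx⟩ : integralClosure R F) g := Subtype.ext (hev ⟨x, hx⟩).symm
    rw [h1, hg', aeval_def, aeval_def, eval₂_map, hom_eval₂]
    congr 1
    exact RingHom.ext fun r => hρ r
  -- a root with `g x ≠ g z` reduces to a root of `D₁ (g)`
  have hkey : ∀ (x : F) (hx : aeval x (D.comp g) = 0), aeval x g ≠ aeval z g →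
      aeval (ρ ⟨x, hint x hx⟩) (D₁.comp g') = 0 := by
    intro x hx hne
    have h1 := red_root14 hρ (hint x hx) hx
    rw [hmap, map_mul] at h1
    rcases mul_eq_zero.mp h1 with h2 | h2
    · exfalso
      apply hne
      rw [map_sub, aeval_C, sub_eq_zero, ← hgβ] at h2
      refine eq_of_red14 hρ (f := D) (hgint x (hint x hx)) (hgint z hz) ?_ ?_ ?_ ?_
      · rw [← aeval_comp]
        exact hx
      · rw [← aeval_comp]
        exact hzr
      · rw [hρg x (hint x hx), hρg z hz, hzβ, h2]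
      · rw [hρg x (hint x hx), h2, hD, derivative_mul, derivative_sub, derivative_X, derivative_C, sub_zero,
          one_mul, map_add, map_mul, map_sub, aeval_X, aeval_C, hgβ, sub_self, zero_mul, add_zero,
          ← hgβ]
        exact hDβ
    · exact h2
  refine ⟨φ, z, hzr, ?_, ?_⟩
  · obtain ⟨h1, h2, h3⟩ := hφ 1 z hzr hz
    rw [pow_one] at h1 h2
    simp only [pow_one] at h3
    have h4 : frob8 κ Fκ β = β := by rw [hβ, AlgEquiv.commutes]
    refine eq_of_red14 hρ h2 hz h1 hzr (by rw [h3, hzβ, h4]) (by rw [h3, hzβ, h4]; exact hsimple)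
  · intro x y hx hy hxz hyz
    obtain ⟨i, -, hi⟩ := exists_frob8_pow hirr (hkey x hx hxz) (hkey y hy hyz)
    obtain ⟨h1, h2, h3⟩ := hφ i x hx (hint x hx)
    refine ⟨i, eq_of_red14 hρ h2 (hint y hy) h1 hy (by rw [h3, hi]) ?_⟩
    have hsepκ : (D₁.comp g').Separable := PerfectField.separable_of_irreducible hirr
    have hr : aeval (ρ ⟨(φ ^ i) x, h2⟩) (D₁.comp g') = 0 := by
      rw [h3, ← hi]
      exact hkey y hy hyz
    have hder : aeval (ρ ⟨(φ ^ i) x, h2⟩) (derivative (D₁.comp g')) ≠ 0 := by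
      intro h4
      obtain ⟨a', b', hab⟩ := hsepκ
      have h5 := congrArg (aeval (ρ ⟨(φ ^ i) x, h2⟩)) hab
      rw [map_add, map_mul, map_mul, hr, h4, mul_zero, mul_zero, add_zero, map_one] at h5
      exact zero_ne_one h5
    rw [hmap, derivative_mul, map_add, map_mul, map_mul, hr, mul_zero, zero_add]
    apply mul_ne_zero _ hder
    rw [map_sub, aeval_C, ← hgβ, sub_ne_zero]
    intro h4
    apply hDβ
    rw [← h4, ← aeval_comp]
    exact hr

end Types

/-- **Frobenius elements of types A and B make the action on the pairs transitive.** -/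
theorem pairTransitive14 {K F : Type*} [Field K] [Field F] [Algebra K F] {g D : K[X]}
    (hA : ∃ φ : F ≃ₐ[K] F, ∀ x y : F, aeval x (D.comp g) = 0 → aeval y (D.comp g) = 0 →
      ∃ i : ℕ, (φ ^ i) x = y)
    (hB : ∃ (φ : F ≃ₐ[K] F) (z : F), aeval z (D.comp g) = 0 ∧ φ z = z ∧
      ∀ x y : F, aeval x (D.comp g) = 0 → aeval y (D.comp g) = 0 → aeval x g ≠ aeval z g →
        aeval y g ≠ aeval z g → ∃ i : ℕ, (φ ^ i) x = y) :
    IsPairTransitive7 K F g D := by
  obtain ⟨φ, hφ⟩ := hA
  obtain ⟨ψ, z, hz, hzz, hψ⟩ := hB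
  intro b c b' c' hb hc hb' hc' hne hne'
  have hroot : ∀ (σ : F ≃ₐ[K] F) (x : F), aeval x (D.comp g) = 0 → aeval (σ x) (D.comp g) = 0 := by
    intro σ x hx
    rw [← AlgEquiv.coe_toAlgHom σ, aeval_algHom_apply, hx, map_zero]
  have hval : ∀ (σ : F ≃ₐ[K] F) (x : F), aeval (σ x) g = σ (aeval x g) := by
    intro σ x
    rw [← AlgEquiv.coe_toAlgHom σ, aeval_algHom_apply]
  obtain ⟨i, hi⟩ := hφ b z hb hz
  obtain ⟨j, hj⟩ := hφ b' z hb' hz
  obtain ⟨m, hm⟩ := hψ ((φ ^ i) c) ((φ ^ j) c') (hroot _ _ hc) (hroot _ _ hc') (by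
    rw [← hi, hval, hval]
    exact fun h => hne ((φ ^ i).injective h).symm) (by
    rw [← hj, hval, hval]
    exact fun h => hne' ((φ ^ j).injective h).symm)
  have hzm : (ψ ^ m) z = z := by
    induction m with
    | zero => rfl
    | succ m ih =>
      clear hm
      rw [pow_succ', AlgEquiv.mul_apply]
      have : (ψ ^ m) z = z := by
        clear ih
        induction m with
        | zero => rfl
        | succ m ih => rw [pow_succ', AlgEquiv.mul_apply, ih, hzz]
      rw [this, hzz]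
  refine ⟨(φ ^ j)⁻¹ * ψ ^ m * φ ^ i, ?_, ?_⟩
  · rw [AlgEquiv.mul_apply, AlgEquiv.mul_apply, hi, hzm, ← hj]
    change ((φ ^ j)⁻¹ * (φ ^ j)) b' = b'
    rw [inv_mul_cancel]
    rfl
  · rw [AlgEquiv.mul_apply, AlgEquiv.mul_apply, hm]
    change ((φ ^ j)⁻¹ * (φ ^ j)) c' = c'
    rw [inv_mul_cancel]
    rfl

end Pool.Agent.Lib.MP_89bcae_ag

end

section

/-!
# Integral polynomials whose reductions modulo two primes are of types A and B
-/

open Polynomial

namespace Pool.Agent.Lib.MP_89bcae_ag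

set_option linter.unusedSectionVars false
set_option linter.style.haveILetI false

/-- Type A modulo `p`: the polynomial `D(g(x))` is irreducible modulo `p`. -/
def IsTypeA14 (p : ℕ) (g D : ℤ[X]) : Prop :=
  Irreducible ((D.map (Int.castRingHom (ZMod p))).comp (g.map (Int.castRingHom (ZMod p))))

/-- Type B modulo `p`: `D` is `(t - g(b)) D₁` modulo `p`, where `g'(b) ≠ 0` and `D₁(g(x))` is
irreducible. -/
def IsTypeB14 (p : ℕ) (g D : ℤ[X]) : Prop :=
  ∃ (b : ZMod p) (D₁ : (ZMod p)[X]),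
    D.map (Int.castRingHom (ZMod p)) = (X - C ((g.map (Int.castRingHom (ZMod p))).eval b)) * D₁ ∧
    (derivative (g.map (Int.castRingHom (ZMod p)))).eval b ≠ 0 ∧
    Irreducible (D₁.comp (g.map (Int.castRingHom (ZMod p))))

/-- The local ring `ℤ_(p)` with its residue map. -/
lemma exists_local_ring14 {p : ℕ} (hp : p.Prime) :
    ∃ (R : Type) (_ : CommRing R) (_ : IsDomain R) (_ : IsIntegrallyClosed R)
      (_ : Algebra R ℚ) (_ : IsFractionRing R ℚ) (π : R →+* ZMod p),
      Function.Surjective π ∧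
      ∀ z : ℤ, (z : ZMod p) ≠ 0 → IsUnit (Int.castRingHom R z) := by
  haveI : Fact p.Prime := ⟨hp⟩
  have hpi : Prime (p : ℤ) := Nat.prime_iff_prime_int.mp hp
  haveI hP : (Ideal.span {(p : ℤ)}).IsPrime :=
    (Ideal.span_singleton_prime hpi.ne_zero).mpr hpi
  have hmem : ∀ z : ℤ, z ∈ (Ideal.span {(p : ℤ)}).primeCompl ↔ (z : ZMod p) ≠ 0 := by
    intro z
    rw [Ideal.mem_primeCompl_iff, Ideal.mem_span_singleton, Ne,
      ZMod.intCast_zmod_eq_zero_iff_dvd]
  let R := Localization.AtPrime (Ideal.span {(p : ℤ)})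
  have hle : (Ideal.span {(p : ℤ)}).primeCompl ≤ nonZeroDivisors ℤ :=
    Ideal.primeCompl_le_nonZeroDivisors _
  let e : R →+* ℚ := IsLocalization.lift (M := (Ideal.span {(p : ℤ)}).primeCompl)
    (g := algebraMap ℤ ℚ) (by
      intro y
      rw [isUnit_iff_ne_zero]
      exact (map_ne_zero_iff _ (algebraMap ℤ ℚ).injective_int).mpr
        (nonZeroDivisors.ne_zero (hle y.2)))
  letI : Algebra R ℚ := e.toAlgebra
  have hst := IsScalarTower.of_algebraMap_eq (R := ℤ) (S := R) (A := ℚ) fun r =>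
    (IsLocalization.lift_eq _ r).symm
  haveI := hst
  have hfr : IsFractionRing R ℚ :=
    IsFractionRing.isFractionRing_of_isDomain_of_isLocalization
      (Ideal.span {(p : ℤ)}).primeCompl R ℚ
  have hdom : IsDomain R := inferInstance
  have hic : IsIntegrallyClosed R := inferInstance
  let π : R →+* ZMod p := IsLocalization.lift (M := (Ideal.span {(p : ℤ)}).primeCompl)
    (g := Int.castRingHom (ZMod p)) (by
      intro y
      rw [isUnit_iff_ne_zero]
      exact (hmem y).mp y.2)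
  have hπ : ∀ z : ℤ, π (algebraMap ℤ R z) = z := fun z => IsLocalization.lift_eq _ z
  refine ⟨R, inferInstance, hdom, hic, inferInstance, hfr, π, fun x => ?_, fun z hz => ?_⟩
  · obtain ⟨z, hz⟩ := ZMod.intCast_surjective x
    exact ⟨algebraMap ℤ R z, by rw [hπ, hz]⟩
  · have h1 := IsLocalization.map_units R
      (⟨z, (hmem z).mpr hz⟩ : (Ideal.span {(p : ℤ)}).primeCompl)
    have h2 : algebraMap ℤ R = Int.castRingHom R := RingHom.ext_int _ _
    rw [h2] at h1
    exact h1

section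

variable {F : Type*} [Field F] [Algebra ℚ F] [IsAlgClosed F] [Algebra.IsAlgebraic ℚ F]

/-- **Type A.** -/
theorem typeA14 {g D : ℤ[X]} (hg : g.Monic) (hdeg : g.natDegree = 3) {p : ℕ} (hp : p.Prime)
    (hu : (D.leadingCoeff : ZMod p) ≠ 0) (hA : IsTypeA14 p g D) :
    ((D.comp g).map (algebraMap ℤ ℚ)).Separable ∧
    ∃ φ : F ≃ₐ[ℚ] F, ∀ x y : F,
      aeval x ((D.map (algebraMap ℤ ℚ)).comp (g.map (algebraMap ℤ ℚ))) = 0 →
      aeval y ((D.map (algebraMap ℤ ℚ)).comp (g.map (algebraMap ℤ ℚ))) = 0 →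
        ∃ i : ℕ, (φ ^ i) x = y := by
  haveI : Fact p.Prime := ⟨hp⟩
  obtain ⟨R, _, _, _, _, _, π, hπ, hπu⟩ := exists_local_ring14 hp
  letI : Algebra R F := ((algebraMap ℚ F).comp (algebraMap R ℚ)).toAlgebra
  haveI : IsScalarTower R ℚ F := IsScalarTower.of_algebraMap_eq fun _ => rfl
  have hRQ : (algebraMap R ℚ).comp (Int.castRingHom R) = algebraMap ℤ ℚ := RingHom.ext_int _ _
  have hinjZ : Function.Injective (Int.castRingHom R) := by
    have h1 : Function.Injective ((algebraMap R ℚ).comp (Int.castRingHom R)) := by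
      rw [hRQ]
      exact (algebraMap ℤ ℚ).injective_int
    exact Function.Injective.of_comp h1
  haveI hfaith : FaithfulSMul R F := (faithfulSMul_iff_algebraMap_injective R F).mpr
    ((algebraMap ℚ F).injective.comp (IsFractionRing.injective R ℚ))
  have hcomp : π.comp (Int.castRingHom R) = Int.castRingHom (ZMod p) := RingHom.ext_int _ _
  have hu' : IsUnit ((D.comp g).map (Int.castRingHom R)).leadingCoeff := by
    rw [leadingCoeff_map_of_injective hinjZ, leadingCoeff_comp (by omega), hg.leadingCoeff,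
      one_pow, mul_one]
    exact hπu _ hu
  have hirr : Irreducible (((D.comp g).map (Int.castRingHom R)).map π) := by
    rw [Polynomial.map_map, hcomp, Polynomial.map_comp]
    exact hA
  have hQ : ((D.comp g).map (Int.castRingHom R)).map (algebraMap R ℚ) =
      (D.comp g).map (algebraMap ℤ ℚ) := by
    rw [Polynomial.map_map, hRQ]
  have hsepκ : (((D.comp g).map (Int.castRingHom R)).map π).Separable :=
    PerfectField.separable_of_irreducible hirr
  have hsep := separable_of_red14 (K := ℚ) F hπ hu' hsepκ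
  obtain ⟨φ, hφ⟩ := frob_typeA14 ℚ F hπ hu' hsep hirr
  rw [hQ] at hsep
  refine ⟨hsep, φ, fun x y hx hy => hφ x y ?_ ?_⟩
  · rw [← aeval_map_algebraMap ℚ, hQ, Polynomial.map_comp]
    exact hx
  · rw [← aeval_map_algebraMap ℚ, hQ, Polynomial.map_comp]
    exact hy

/-- **Type B.** -/
theorem typeB14 {g D : ℤ[X]} (hg : g.Monic) (hdeg : g.natDegree = 3) {p : ℕ} (hp : p.Prime)
    (hu : (D.leadingCoeff : ZMod p) ≠ 0) (hB : IsTypeB14 p g D)
    (hsep : ((D.comp g).map (algebraMap ℤ ℚ)).Separable) :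
    ∃ (φ : F ≃ₐ[ℚ] F) (z : F),
      aeval z ((D.map (algebraMap ℤ ℚ)).comp (g.map (algebraMap ℤ ℚ))) = 0 ∧ φ z = z ∧
      ∀ x y : F, aeval x ((D.map (algebraMap ℤ ℚ)).comp (g.map (algebraMap ℤ ℚ))) = 0 →
        aeval y ((D.map (algebraMap ℤ ℚ)).comp (g.map (algebraMap ℤ ℚ))) = 0 →
        aeval x (g.map (algebraMap ℤ ℚ)) ≠ aeval z (g.map (algebraMap ℤ ℚ)) →
        aeval y (g.map (algebraMap ℤ ℚ)) ≠ aeval z (g.map (algebraMap ℤ ℚ)) →
        ∃ i : ℕ, (φ ^ i) x = y := by
  haveI : Fact p.Prime := ⟨hp⟩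
  obtain ⟨R, _, _, _, _, _, π, hπ, hπu⟩ := exists_local_ring14 hp
  letI : Algebra R F := ((algebraMap ℚ F).comp (algebraMap R ℚ)).toAlgebra
  haveI : IsScalarTower R ℚ F := IsScalarTower.of_algebraMap_eq fun _ => rfl
  have hRQ : (algebraMap R ℚ).comp (Int.castRingHom R) = algebraMap ℤ ℚ := RingHom.ext_int _ _
  have hinjZ : Function.Injective (Int.castRingHom R) := by
    have h1 : Function.Injective ((algebraMap R ℚ).comp (Int.castRingHom R)) := by
      rw [hRQ]
      exact (algebraMap ℤ ℚ).injective_int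
    exact Function.Injective.of_comp h1
  have hcomp : π.comp (Int.castRingHom R) = Int.castRingHom (ZMod p) := RingHom.ext_int _ _
  have hu' : IsUnit (D.map (Int.castRingHom R)).leadingCoeff := by
    rw [leadingCoeff_map_of_injective hinjZ]
    exact hπu _ hu
  obtain ⟨b, D₁, hD, hb, hirr⟩ := hB
  have hgπ : (g.map (Int.castRingHom R)).map π = g.map (Int.castRingHom (ZMod p)) := by
    rw [Polynomial.map_map, hcomp]
  have hDπ : (D.map (Int.castRingHom R)).map π = D.map (Int.castRingHom (ZMod p)) := by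
    rw [Polynomial.map_map, hcomp]
  have hsep' : ((((D.map (Int.castRingHom R)).comp (g.map (Int.castRingHom R)))).map
      (algebraMap R ℚ)).Separable := by
    rw [← Polynomial.map_comp, Polynomial.map_map, hRQ]
    exact hsep
  obtain ⟨φ, z, hz, hzz, hφ⟩ := frob_typeB14 ℚ F hπ (hg.map (Int.castRingHom R))
    (by rw [hg.natDegree_map, hdeg]) hu' hsep' (b := b) (D₁ := D₁) (by rw [hDπ, hgπ, hD])
    (by rw [hgπ]; exact hb) (by rw [hgπ]; exact hirr)
  have hc : ∀ x : F, aeval x ((D.map (Int.castRingHom R)).comp (g.map (Int.castRingHom R))) =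
      aeval x ((D.map (algebraMap ℤ ℚ)).comp (g.map (algebraMap ℤ ℚ))) := by
    intro x
    rw [← aeval_map_algebraMap ℚ, Polynomial.map_comp, Polynomial.map_map, Polynomial.map_map,
      hRQ]
  have hgc : ∀ x : F, aeval x (g.map (Int.castRingHom R)) = aeval x (g.map (algebraMap ℤ ℚ)) := by
    intro x
    rw [← aeval_map_algebraMap ℚ, Polynomial.map_map, hRQ]
  refine ⟨φ, z, by rw [← hc]; exact hz, hzz, fun x y hx hy hxz hyz => hφ x y ?_ ?_ ?_ ?_⟩
  · rw [hc]; exact hx
  · rw [hc]; exact hy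
  · rw [hgc, hgc]; exact hxz
  · rw [hgc, hgc]; exact hyz

/-- **Types A and B.** -/
theorem pairTransitive_types14 {g D : ℤ[X]} (hg : g.Monic) (hdeg : g.natDegree = 3)
    {p q : ℕ} (hp : p.Prime) (hq : q.Prime) (hup : (D.leadingCoeff : ZMod p) ≠ 0)
    (huq : (D.leadingCoeff : ZMod q) ≠ 0) (hA : IsTypeA14 p g D) (hB : IsTypeB14 q g D) :
    ((D.comp g).map (algebraMap ℤ ℚ)).Separable ∧
    IsPairTransitive7 ℚ F (g.map (algebraMap ℤ ℚ)) (D.map (algebraMap ℤ ℚ)) := by
  obtain ⟨hsep, hA'⟩ := typeA14 (F := F) hg hdeg hp hup hA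
  exact ⟨hsep, pairTransitive14 hA' (typeB14 hg hdeg hq huq hB hsep)⟩

end

end Pool.Agent.Lib.MP_89bcae_ag

end

section

/-!
# Counting the polynomials of types A and B modulo a prime
-/

open Polynomial

namespace Pool.Agent.Lib.MP_89bcae_ag

set_option linter.unusedSectionVars false
set_option linter.style.haveILetI false
set_option linter.unusedVariables false

/-- A cubic polynomial is not injective on the field with `p` elements, `p ≡ 1 mod 3`. -/
lemma exists_collision14 {p : ℕ} [Fact p.Prime] (h1 : p % 3 = 1) {g : (ZMod p)[X]} (hg : g.Monic)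
    (hdeg : g.natDegree = 3) : ∃ x y : ZMod p, x ≠ y ∧ g.eval x = g.eval y := by
  have hp : p.Prime := Fact.out
  -- a primitive cube root of unity
  obtain ⟨ω, hω⟩ : ∃ ω : ZMod p, ω ^ 2 + ω + 1 = 0 := by
    haveI : Fact (Nat.Prime 3) := ⟨Nat.prime_three⟩
    obtain ⟨u, hu⟩ := exists_prime_orderOf_dvd_card (G := (ZMod p)ˣ) 3 (by
      rw [ZMod.card_units]
      omega)
    refine ⟨u, ?_⟩
    have h2 : (u : ZMod p) ^ 3 = 1 := by
      rw [← Units.val_pow_eq_pow_val, ← hu, pow_orderOf_eq_one, Units.val_one]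
    have h3 : (u : ZMod p) ≠ 1 := by
      intro h4
      have h5 : u = 1 := Units.ext h4
      rw [h5, orderOf_one] at hu
      omega
    have h4 : ((u : ZMod p) - 1) * ((u : ZMod p) ^ 2 + u + 1) = 0 := by
      linear_combination h2
    exact (mul_eq_zero.mp h4).resolve_left (sub_ne_zero.mpr h3)
  have h3 : (3 : ZMod p) ≠ 0 := by
    intro h
    have h4 : ((3 : ℕ) : ZMod p) = 0 := by exact_mod_cast h
    rw [ZMod.natCast_eq_zero_iff] at h4
    have h5 := (Nat.prime_dvd_prime_iff_eq hp Nat.prime_three).mp h4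
    omega
  have hev : ∀ x : ZMod p, g.eval x = x ^ 3 + g.coeff 2 * x ^ 2 + g.coeff 1 * x + g.coeff 0 := by
    intro x
    have := aeval_cubic8 (k := ZMod p) (F := ZMod p) hg hdeg x
    rwa [coe_aeval_eq_eval, Algebra.algebraMap_self] at this
  obtain ⟨t, ht⟩ : ∃ t : ZMod p, 3 * t = g.coeff 2 := ⟨g.coeff 2 / 3, by field_simp⟩
  set B := g.coeff 1 - 3 * t ^ 2 with hB
  -- the two linear forms
  obtain ⟨U, V, hUV, hne⟩ : ∃ U V : ZMod p, U * V = -B ∧ U ≠ -ω * V := by
    by_cases hB0 : B = 0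
    · exact ⟨1, 0, by rw [hB0]; simp, by simp⟩
    · by_cases h4 : -B = -ω
      · refine ⟨-B / 2, 2, ?_, ?_⟩
        · have h2 : (2 : ZMod p) ≠ 0 := by
            intro h
            have h4 : ((2 : ℕ) : ZMod p) = 0 := by exact_mod_cast h
            rw [ZMod.natCast_eq_zero_iff] at h4
            have h5 := (Nat.prime_dvd_prime_iff_eq hp Nat.prime_two).mp h4
            omega
          field_simp
        · intro h5
          have h2 : (2 : ZMod p) ≠ 0 := by
            intro h
            have h4 : ((2 : ℕ) : ZMod p) = 0 := by exact_mod_cast h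
            rw [ZMod.natCast_eq_zero_iff] at h4
            have h5 := (Nat.prime_dvd_prime_iff_eq hp Nat.prime_two).mp h4
            omega
          rw [div_eq_iff h2, h4] at h5
          have h6 : 3 * ω = 0 := by linear_combination h5
          have h7 : ω = 0 := (mul_eq_zero.mp h6).resolve_left h3
          rw [h7] at hω
          norm_num at hω
      · exact ⟨-B, 1, by ring, by rw [mul_one]; exact h4⟩
  have hω3 : (ω - 1) * (ω ^ 2 + ω + 1) = ω ^ 3 - 1 := by ring
  have hω1 : ω ≠ 1 := by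
    rintro rfl
    apply h3
    linear_combination hω
  have hω0 : ω ≠ 0 := by
    rintro rfl
    norm_num at hω
  have hd : ω ^ 2 - ω ≠ 0 := by
    intro h
    have : ω * (ω - 1) = 0 := by linear_combination h
    rcases mul_eq_zero.mp this with h | h
    · exact hω0 h
    · exact hω1 (sub_eq_zero.mp h)
  obtain ⟨Y, hY⟩ : ∃ Y : ZMod p, (ω ^ 2 - ω) * Y = U - V := ⟨(U - V) / (ω ^ 2 - ω), by field_simp⟩
  set X' := U + ω * Y with hX'
  have hU : U = X' - ω * Y := by rw [hX']; ring
  have hV : V = X' - ω ^ 2 * Y := by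
    rw [hX']
    linear_combination hY
  have hprod : X' ^ 2 + X' * Y + Y ^ 2 + B = 0 := by
    have h5 : U * V + B = 0 := by rw [hUV]; ring
    rw [hU, hV] at h5
    have h6 : ω ^ 3 = 1 := by linear_combination (ω - 1) * hω
    linear_combination h5 + (X' * Y) * hω - Y ^ 2 * h6
  have hXY : X' ≠ Y := by
    intro h
    apply hne
    rw [hU, hV, h]
    have h6 : ω ^ 3 = 1 := by linear_combination (ω - 1) * hω
    linear_combination -Y * h6 
  refine ⟨X' - t, Y - t, fun h => hXY (sub_left_injective h), ?_⟩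
  rw [hev, hev]
  have h7 : g.coeff 1 = B + 3 * t ^ 2 := by rw [hB]; ring
  rw [h7, ← ht]
  linear_combination (X' - Y) * hprod

lemma numeric14 {q n c : ℕ} (hq : 19 ≤ q) (hn : 2 ≤ n)
    (h : 2 * q ^ n ≤ 6 * c + 9 * q ^ (n / 2) + 10) : q ^ n ≤ 6 * c := by
  obtain ⟨m, rfl⟩ : ∃ m, n = m + 1 := ⟨n - 1, by omega⟩
  have h1 : q ^ ((m + 1) / 2) ≤ q ^ m := Nat.pow_le_pow_right (by omega) (by omega)
  have h2 : 1 ≤ q ^ m := Nat.one_le_pow _ _ (by omega)
  have h3 : 19 * q ^ m ≤ q ^ (m + 1) := by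
    rw [pow_succ, mul_comm (q ^ m)]
    exact Nat.mul_le_mul_right _ hq
  omega

/-- The family is large. -/
lemma family_lower14 {k : Type} [Field k] [Fintype k] (h2 : (2 : k) ≠ 0)
    (hq : 19 ≤ Fintype.card k) {g : k[X]} (hg : g.Monic) (hdeg : g.natDegree = 3)
    (hcol : ∃ x y : k, x ≠ y ∧ g.eval x = g.eval y) {n : ℕ} (hn : 2 ≤ n) :
    Fintype.card k ^ n ≤ 6 * (n * (family g n).ncard) := by
  classical
  have hfin := family_finite8 g n
  have hfam : ∀ D ∈ hfin.toFinset, D.Monic ∧ D.natDegree = n ∧ Irreducible D := by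
    intro D hD
    rw [Set.Finite.mem_toFinset] at hD
    exact ⟨hD.1, hD.2.1, irreducible_of_comp8 hdeg hD.2.2⟩
  have hcard : hfin.toFinset.card = (family g n).ncard := (Set.ncard_eq_toFinset_card _ hfin).symm
  obtain ⟨A, hA1, hA2⟩ := exists_roots_card8 (F := AlgebraicClosure k) n hfin.toFinset hfam
  have h1 := Frob14.good_count (F := AlgebraicClosure k) h2 hg hdeg hcol (i := n) (by omega)
  have h3 := numeric14 hq hn h1
  rw [← hcard, ← hA2]
  refine h3.trans (Nat.mul_le_mul_left 6 (Finset.card_le_card ?_))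
  intro a ha
  rw [Finset.mem_filter, Frob14.mem_fixS (by omega)] at ha
  rw [hA1, Set.Finite.mem_toFinset]
  exact minpoly_mem_family8 hg hdeg (by omega) ha.1 ha.2.2 ha.2.1

/-- The values at the noncritical points. -/
lemma values_lower14 {k : Type} [Field k] [Fintype k] {g : k[X]} (h3 : (3 : k) ≠ 0)
    (hg : g.Monic) (hdeg : g.natDegree = 3) :
    Fintype.card k - 2 ≤
      3 * ({α : k | ∃ b : k, (derivative g).eval b ≠ 0 ∧ g.eval b = α}).ncard := by
  classical
  have hder : (derivative g) ≠ 0 := by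
    intro h
    have h4 := congrArg (fun f => f.coeff 2) h
    simp only [coeff_derivative, coeff_zero] at h4
    have h5 : g.coeff 3 = 1 := by
      have := hg.coeff_natDegree
      rwa [hdeg] at this
    rw [show (2 + 1 : ℕ) = 3 by norm_num, h5, one_mul] at h4
    apply h3
    push_cast at h4
    linear_combination h4
  have hderdeg : (derivative g).natDegree ≤ 2 := by
    have := natDegree_derivative_le g
    omega
  set T : Finset k := Finset.univ.filter fun b => (derivative g).eval b ≠ 0 with hT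
  have hTcard : Fintype.card k - 2 ≤ T.card := by
    have h4 : Tᶜ.card ≤ 2 := by
      refine (Finset.card_le_card (t := (derivative g).roots.toFinset) ?_).trans
        ((Multiset.toFinset_card_le _).trans ((card_roots' _).trans hderdeg))
      intro b hb
      rw [Finset.mem_compl, hT, Finset.mem_filter, not_and, not_not] at hb
      rw [Multiset.mem_toFinset, mem_roots hder]
      exact hb (Finset.mem_univ b)
    rw [Finset.card_compl] at h4
    omega
  have h6 : {α : k | ∃ b : k, (derivative g).eval b ≠ 0 ∧ g.eval b = α} =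
      (T.image fun b => g.eval b : Finset k) := by
    ext α
    rw [Finset.mem_coe, Finset.mem_image]
    constructor
    · rintro ⟨b, hb, rfl⟩
      exact ⟨b, by rw [hT, Finset.mem_filter]; exact ⟨Finset.mem_univ _, hb⟩, rfl⟩
    · rintro ⟨b, hb, rfl⟩
      rw [hT, Finset.mem_filter] at hb
      exact ⟨b, hb.2, rfl⟩
  rw [h6, Set.ncard_coe_finset]
  refine hTcard.trans (Finset.card_le_mul_card_image T 3 fun α _ => ?_)
  have hne : g - C α ≠ 0 := by
    intro h
    have := congrArg natDegree h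
    rw [natDegree_sub_C, hdeg, natDegree_zero] at this
    omega
  refine (Finset.card_le_card (t := (g - C α).roots.toFinset) ?_).trans
    ((Multiset.toFinset_card_le _).trans ((card_roots' _).trans (by rw [natDegree_sub_C, hdeg])))
  intro b hb
  rw [Finset.mem_filter] at hb
  rw [Multiset.mem_toFinset, mem_roots hne, IsRoot.def, eval_sub, eval_C, hb.2, sub_self]

section Coeff

variable {k : Type} [Field k] [Fintype k]

/-- The coefficient vector. -/
def coeffs14 (n : ℕ) (f : k[X]) : Fin (n + 1) → k := fun i => f.coeff i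

omit [Fintype k] in
lemma coeffs_inj14 {n : ℕ} {f f' : k[X]} (hf : f.natDegree ≤ n) (hf' : f'.natDegree ≤ n)
    (h : coeffs14 n f = coeffs14 n f') : f = f' := by
  ext i
  by_cases hi : i < n + 1
  · exact congrFun h ⟨i, hi⟩
  · rw [coeff_eq_zero_of_natDegree_lt (by omega), coeff_eq_zero_of_natDegree_lt (by omega)]

lemma ncard_ne_zero14 : ({u : k | u ≠ 0}).ncard = Fintype.card k - 1 := by
  classical
  have h1 : {u : k | u ≠ 0} = ((Finset.univ.erase (0 : k) : Finset k) : Set k) := by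
    ext u
    simp
  rw [h1, Set.ncard_coe_finset, Finset.card_erase_of_mem (Finset.mem_univ _), Finset.card_univ]

/-- The number of the polynomials of type A. -/
lemma count_A14 (g : k[X]) (n : ℕ) :
    (Fintype.card k - 1) * (family g n).ncard ≤
      ({v : Fin (n + 1) → k | ∃ f : k[X], coeffs14 n f = v ∧ f.natDegree = n ∧
        Irreducible (f.comp g)}).ncard := by
  rw [← ncard_ne_zero14, ← Set.ncard_prod]
  apply Set.ncard_le_ncard_of_injOn (fun x : k × k[X] => coeffs14 n (C x.1 * x.2))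
  · rintro ⟨u, D⟩ ⟨hu, h1, h2, h3⟩
    refine ⟨_, rfl, ?_, ?_⟩
    · rw [natDegree_C_mul hu, h2]
    · rw [mul_comp, C_comp]
      have hu' : IsUnit (C u : k[X]) := isUnit_C.mpr (isUnit_iff_ne_zero.mpr hu)
      rw [irreducible_isUnit_mul hu']
      exact h3
  · rintro ⟨u, D⟩ ⟨hu, h1, h2, h3⟩ ⟨u', D'⟩ ⟨hu', h1', h2', h3'⟩ h
    simp only at hu hu' h1 h2 h3 h1' h2' h3' h
    have h4 := coeffs_inj14 (by rw [natDegree_C_mul hu, h2]) (by rw [natDegree_C_mul hu', h2']) h
    have h5 := congrArg leadingCoeff h4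
    rw [leadingCoeff_mul, leadingCoeff_C, h1.leadingCoeff, mul_one, leadingCoeff_mul,
      leadingCoeff_C, h1'.leadingCoeff, mul_one] at h5
    subst h5
    rw [Prod.mk.injEq]
    exact ⟨rfl, mul_left_cancel₀ (C_ne_zero.mpr hu) h4⟩

/-- The number of the polynomials of type B. -/
lemma count_B14 {g : k[X]} (hdeg : g.natDegree = 3) {n : ℕ} (hn : 3 ≤ n) :
    (Fintype.card k - 1) *
      ({α : k | ∃ b : k, (derivative g).eval b ≠ 0 ∧ g.eval b = α}).ncard *
        (family g (n - 1)).ncard ≤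
      ({v : Fin (n + 1) → k | ∃ f : k[X], coeffs14 n f = v ∧ f.natDegree = n ∧
        ∃ (b : k) (D₁ : k[X]), f = (X - C (g.eval b)) * D₁ ∧ (derivative g).eval b ≠ 0 ∧
        Irreducible (D₁.comp g)}).ncard := by
  rw [← ncard_ne_zero14, ← Set.ncard_prod, ← Set.ncard_prod]
  apply Set.ncard_le_ncard_of_injOn
    (fun x : (k × k) × k[X] => coeffs14 n (C x.1.1 * ((X - C x.1.2) * x.2)))
  · rintro ⟨⟨u, α⟩, D⟩ ⟨⟨hu, b, hb, hα⟩, h1, h2, h3⟩
    simp only at hu hb hα h1 h2 h3
    refine ⟨_, rfl, ?_, b, C u * D, ?_, hb, ?_⟩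
    · change (C u * ((X - C α) * D)).natDegree = n
      rw [natDegree_C_mul hu, (monic_X_sub_C α).natDegree_mul h1, natDegree_X_sub_C, h2]
      omega
    · change C u * ((X - C α) * D) = _
      rw [hα]
      ring
    · rw [mul_comp, C_comp]
      have hu' : IsUnit (C u : k[X]) := isUnit_C.mpr (isUnit_iff_ne_zero.mpr hu)
      rw [irreducible_isUnit_mul hu']
      exact h3
  · rintro ⟨⟨u, α⟩, D⟩ ⟨⟨hu, -⟩, h1, h2, h3⟩ ⟨⟨u', α'⟩, D'⟩ ⟨⟨hu', -⟩, h1', h2', h3'⟩ h
    simp only at hu hu' h1 h2 h3 h1' h2' h3' h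
    have hdg : ∀ (u α : k) (D : k[X]), u ≠ 0 → D.Monic → D.natDegree = n - 1 →
        (C u * ((X - C α) * D)).natDegree ≤ n := by
      intro u α D hu h1 h2
      rw [natDegree_C_mul hu, (monic_X_sub_C α).natDegree_mul h1, natDegree_X_sub_C, h2]
      omega
    have h4 := coeffs_inj14 (hdg u α D hu h1 h2) (hdg u' α' D' hu' h1' h2') h
    have h5 := congrArg leadingCoeff h4
    rw [leadingCoeff_mul, leadingCoeff_C, ((monic_X_sub_C α).mul h1).leadingCoeff, mul_one,
      leadingCoeff_mul, leadingCoeff_C, ((monic_X_sub_C α').mul h1').leadingCoeff, mul_one] at h5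
    subst h5
    have h6 := mul_left_cancel₀ (C_ne_zero.mpr hu) h4
    have h7 : α = α' := by
      by_contra hne
      have h8 := congrArg (eval α) h6
      rw [eval_mul, eval_sub, eval_X, eval_C, sub_self, zero_mul, eval_mul, eval_sub, eval_X,
        eval_C, eq_comm, mul_eq_zero] at h8
      rcases h8 with h8 | h8
      · exact hne (sub_eq_zero.mp h8)
      · have h9 : D'.natDegree = 1 := natDegree_eq_of_degree_eq_some
          (degree_eq_one_of_irreducible_of_root (irreducible_of_comp8 hdeg h3') h8)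
        rw [h2'] at h9
        omega
    subst h7
    rw [Prod.mk.injEq]
    exact ⟨rfl, mul_left_cancel₀ (X_sub_C_ne_zero α) h6⟩

end Coeff

end Pool.Agent.Lib.MP_89bcae_ag

end

section

/-!
# The Galois group is transitive on the pairs of roots of `α_a - α_b`

As in TypA14.lean and TypB14.lean (there for the composition with a cubic polynomial). Let `f` be the
image of `gdif v a b` in `R[X]`, `R` and `π : R →+* ZMod p` as in `exists_local_ring14`; its leading
coefficient is a unit. Type I: `frob_typeA14` gives `φ` whose powers map any root of `f` to any other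
root (this gives also that `f` is irreducible, hence separable, over `ℚ`:
`Polynomial.IsPrimitive`/`separable_of_red14`). Type L (another prime): `exists_frob_roots14` gives
`ρ` and `φ` compatible with the Frobenius map; let `z̃` be the root which reduces to `z`
(`exists_lift_root14`); `φ z̃` is a root with the same reduction `z` (`z ∈ 𝔽_p` is fixed by
Frobenius), so `φ z̃ = z̃` (`eq_of_red14`; the reduced polynomial is separable: `g` is irreducible over a
finite field and `g(z) ≠ 0`); the other roots reduce to the roots of `g`, on which the powers of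
Frobenius are transitive (`exists_frob8_pow`). Then as in `pairTransitive14`.
-/

open Polynomial

open scoped Classical

namespace Pool.Agent.Lib.MP_89bcae_ag

open Superelliptic

set_option linter.unusedSectionVars false
set_option linter.style.haveILetI false

section Aux_h38

variable {R K F κ : Type*} [CommRing R] [IsDomain R] [IsIntegrallyClosed R] [Field K]
  [Algebra R K] [IsFractionRing R K] [Field F] [Algebra K F] [Algebra R F] [IsScalarTower R K F]
  [IsAlgClosed F] [Algebra.IsAlgebraic K F]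
  [Field κ] [Fintype κ]

variable (K F) in
/-- **Type L.** -/
theorem frob_typeL_h38 {π : R →+* κ} (hπ : Function.Surjective π) {f : R[X]}
    (hu : IsUnit f.leadingCoeff) (hsep : (f.map (algebraMap R K)).Separable)
    {b : κ} {g : κ[X]} (hf : f.map π = (X - C b) * g) (hb : g.eval b ≠ 0)
    (hirr : Irreducible g) :
    ∃ (φ : F ≃ₐ[K] F) (z : F), aeval z f = 0 ∧ φ z = z ∧
      ∀ x y : F, aeval x f = 0 → aeval y f = 0 → x ≠ z → y ≠ z → ∃ i : ℕ, (φ ^ i) x = y := by
  have hinjR : Function.Injective (algebraMap R F) := by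
    rw [IsScalarTower.algebraMap_eq R K F]
    exact (algebraMap K F).injective.comp (IsFractionRing.injective R K)
  have hfaith : FaithfulSMul R F := (faithfulSMul_iff_algebraMap_injective R F).mpr hinjR
  obtain ⟨ρ, φ, hρ, hφ⟩ := exists_frob_roots14 (F := F) (Fκ := AlgebraicClosure κ) hπ hu hsep
  set Fκ := AlgebraicClosure κ with hFκ
  set β : Fκ := algebraMap κ Fκ b with hβ
  have hgβ : aeval β g ≠ 0 := by
    rw [hβ, aeval_algebraMap_apply, coe_aeval_eq_eval]
    exact (_root_.map_ne_zero _).mpr hb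
  obtain ⟨z, hz, hzr, hzβ⟩ := exists_lift_root14 hρ hu (β := β) (by
    rw [hf, map_mul, map_sub, aeval_X, aeval_C, ← hβ, sub_self, zero_mul])
  have hsimple : aeval β (derivative (f.map π)) ≠ 0 := by
    rw [hf, derivative_mul, derivative_sub, derivative_X, derivative_C, sub_zero, one_mul,
      map_add, map_mul, map_sub, aeval_X, aeval_C, ← hβ, sub_self, zero_mul, add_zero]
    exact hgβ
  have hint : ∀ x : F, aeval x f = 0 → IsIntegral R x := fun x hx => integral_root14 hu hx
  -- a root different from `z` reduces to a root of `g`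
  have hkey : ∀ (x : F) (hx : aeval x f = 0), x ≠ z → aeval (ρ ⟨x, hint x hx⟩) g = 0 := by
    intro x hx hne
    have h1 := red_root14 hρ (hint x hx) hx
    rw [hf, map_mul] at h1
    rcases mul_eq_zero.mp h1 with h2 | h2
    · exfalso
      apply hne
      rw [map_sub, aeval_X, aeval_C, sub_eq_zero, ← hβ] at h2
      exact eq_of_red14 hρ (f := f) (hint x hx) hz hx hzr (by rw [h2, hzβ])
        (by rw [h2]; exact hsimple)
    · exact h2
  refine ⟨φ, z, hzr, ?_, ?_⟩
  · obtain ⟨h1, h2, h3⟩ := hφ 1 z hzr hz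
    rw [pow_one] at h1 h2
    simp only [pow_one] at h3
    have h4 : frob8 κ Fκ β = β := by rw [hβ, AlgEquiv.commutes]
    refine eq_of_red14 hρ h2 hz h1 hzr (by rw [h3, hzβ, h4]) (by rw [h3, hzβ, h4]; exact hsimple)
  · intro x y hx hy hxz hyz
    obtain ⟨i, -, hi⟩ := exists_frob8_pow hirr (hkey x hx hxz) (hkey y hy hyz)
    obtain ⟨h1, h2, h3⟩ := hφ i x hx (hint x hx)
    refine ⟨i, eq_of_red14 hρ h2 (hint y hy) h1 hy (by rw [h3, hi]) ?_⟩
    have hsepκ : g.Separable := PerfectField.separable_of_irreducible hirr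
    have hr : aeval (ρ ⟨(φ ^ i) x, h2⟩) g = 0 := by
      rw [h3, ← hi]
      exact hkey y hy hyz
    have hder : aeval (ρ ⟨(φ ^ i) x, h2⟩) (derivative g) ≠ 0 := by
      intro h4
      obtain ⟨a', b', hab⟩ := hsepκ
      have h5 := congrArg (aeval (ρ ⟨(φ ^ i) x, h2⟩)) hab
      rw [map_add, map_mul, map_mul, hr, h4, mul_zero, mul_zero, add_zero, map_one] at h5
      exact zero_ne_one h5
    rw [hf, derivative_mul, map_add, map_mul, map_mul, hr, mul_zero, zero_add]
    apply mul_ne_zero _ hder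
    rw [map_sub, aeval_X, aeval_C, sub_ne_zero, ← hβ]
    intro h4
    apply hgβ
    rw [← h4]
    exact hr

end Aux_h38

variable {ι : Type} [Fintype ι] {n : ℕ} {F : Type} [Field F] [Algebra ℚ F] [IsAlgClosure ℚ F]

lemma gdif_lead_h38 (v : ι × Fin (n + 1) → ℤ) {p : ℕ} {a b : ι}
    (h : ¬ (p : ℤ) ∣ v (a, Fin.last n) - v (b, Fin.last n)) :
    (((gdif v a b).leadingCoeff : ℤ) : ZMod p) ≠ 0 := by
  have h1 : (gdif v a b).coeff n = v (a, Fin.last n) - v (b, Fin.last n) := by
    have := gdif_coeff v a b (Fin.last n)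
    rwa [Fin.val_last] at this
  have h2 : (gdif v a b).coeff n ≠ 0 := by
    rw [h1]
    intro h0
    exact h (h0 ▸ dvd_zero _)
  have h3 : (gdif v a b).natDegree = n :=
    le_antisymm (gdif_natDegree_le v a b) (le_natDegree_of_ne_zero h2)
  rw [leadingCoeff, h3, h1]
  intro h0
  exact h ((ZMod.intCast_zmod_eq_zero_iff_dvd _ _).mp h0)

lemma gdif_mapQ_h38 (v : ι × Fin (n + 1) → ℤ) (a b : ι) :
    (gdif v a b).map (algebraMap ℤ ℚ) = gpolQ v a - gpolQ v b := by
  rw [gdif_map]
  rfl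

lemma aeval_gdif_h38 (v : ι × Fin (n + 1) → ℤ) (a b : ι) (x : F) :
    aeval x ((gdif v a b).map (algebraMap ℤ ℚ)) = 0 ↔
      aeval x (gpolQ v a) = aeval x (gpolQ v b) := by
  rw [gdif_mapQ_h38, map_sub, sub_eq_zero]

/-- The conclusion for type I. -/
lemma typeI_h38 (v : ι × Fin (n + 1) → ℤ) {p : ℕ} (hp : p.Prime) {a b : ι}
    (h : TypeI p a b v) (F : Type) [Field F] [Algebra ℚ F] [IsAlgClosure ℚ F] :
    (gpolQ v a - gpolQ v b).Separable ∧
    ∃ φ : F ≃ₐ[ℚ] F, ∀ x y : F, aeval x (gpolQ v a) = aeval x (gpolQ v b) →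
      aeval y (gpolQ v a) = aeval y (gpolQ v b) → ∃ i : ℕ, (φ ^ i) x = y := by
  haveI : Fact p.Prime := ⟨hp⟩
  haveI : IsAlgClosed F := IsAlgClosure.isAlgClosed ℚ
  haveI : Algebra.IsAlgebraic ℚ F := IsAlgClosure.isAlgebraic
  obtain ⟨R, _, _, _, _, _, π, hπ, hπu⟩ := exists_local_ring14 hp
  letI : Algebra R F := ((algebraMap ℚ F).comp (algebraMap R ℚ)).toAlgebra
  haveI : IsScalarTower R ℚ F := IsScalarTower.of_algebraMap_eq fun _ => rfl
  have hRQ : (algebraMap R ℚ).comp (Int.castRingHom R) = algebraMap ℤ ℚ := RingHom.ext_int _ _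
  have hinjZ : Function.Injective (Int.castRingHom R) := by
    have h1 : Function.Injective ((algebraMap R ℚ).comp (Int.castRingHom R)) := by
      rw [hRQ]
      exact (algebraMap ℤ ℚ).injective_int
    exact Function.Injective.of_comp h1
  haveI hfaith : FaithfulSMul R F := (faithfulSMul_iff_algebraMap_injective R F).mpr
    ((algebraMap ℚ F).injective.comp (IsFractionRing.injective R ℚ))
  have hcomp : π.comp (Int.castRingHom R) = Int.castRingHom (ZMod p) := RingHom.ext_int _ _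
  have hu' : IsUnit ((gdif v a b).map (Int.castRingHom R)).leadingCoeff := by
    rw [leadingCoeff_map_of_injective hinjZ]
    exact hπu _ (gdif_lead_h38 v h.lead)
  have hirr : Irreducible (((gdif v a b).map (Int.castRingHom R)).map π) := by
    rw [Polynomial.map_map, hcomp]
    exact h.irr
  have hQ : ((gdif v a b).map (Int.castRingHom R)).map (algebraMap R ℚ) =
      (gdif v a b).map (algebraMap ℤ ℚ) := by
    rw [Polynomial.map_map, hRQ]
  have hsepκ : (((gdif v a b).map (Int.castRingHom R)).map π).Separable :=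
    PerfectField.separable_of_irreducible hirr
  have hsep := separable_of_red14 (K := ℚ) F hπ hu' hsepκ
  obtain ⟨φ, hφ⟩ := frob_typeA14 ℚ F hπ hu' hsep hirr
  rw [hQ, gdif_mapQ_h38] at hsep
  refine ⟨hsep, φ, fun x y hx hy => hφ x y ?_ ?_⟩
  · rw [← aeval_map_algebraMap ℚ, hQ]
    exact (aeval_gdif_h38 v a b x).mpr hx
  · rw [← aeval_map_algebraMap ℚ, hQ]
    exact (aeval_gdif_h38 v a b y).mpr hy

theorem separable_of_typeI (v : ι × Fin (n + 1) → ℤ) {p : ℕ} (hp : p.Prime) {a b : ι}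
    (h : TypeI p a b v) : (gpolQ v a - gpolQ v b).Separable := by
  letI : Algebra ℚ (AlgebraicClosure ℚ) := AlgebraicClosure.instAlgebra ℚ
  haveI : IsAlgClosure ℚ (AlgebraicClosure ℚ) := inferInstance
  exact (typeI_h38 v hp h (AlgebraicClosure ℚ)).1

theorem exists_cycle_typeI (v : ι × Fin (n + 1) → ℤ) {p : ℕ} (hp : p.Prime) {a b : ι}
    (h : TypeI p a b v) : ∃ φ : F ≃ₐ[ℚ] F, ∀ x y : F, aeval x (gpolQ v a) = aeval x (gpolQ v b) →
      aeval y (gpolQ v a) = aeval y (gpolQ v b) → ∃ i : ℕ, (φ ^ i) x = y :=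
  (typeI_h38 v hp h F).2

theorem exists_cycle_typeL (v : ι × Fin (n + 1) → ℤ) {p : ℕ} (hp : p.Prime) {a b : ι}
    (h : TypeL p a b v) (hsep : (gpolQ v a - gpolQ v b).Separable) :
    ∃ (φ : F ≃ₐ[ℚ] F) (z : F), aeval z (gpolQ v a) = aeval z (gpolQ v b) ∧ φ z = z ∧
      ∀ x y : F, aeval x (gpolQ v a) = aeval x (gpolQ v b) →
        aeval y (gpolQ v a) = aeval y (gpolQ v b) → x ≠ z → y ≠ z → ∃ i : ℕ, (φ ^ i) x = y := by
  haveI : Fact p.Prime := ⟨hp⟩
  haveI : IsAlgClosed F := IsAlgClosure.isAlgClosed ℚ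
  haveI : Algebra.IsAlgebraic ℚ F := IsAlgClosure.isAlgebraic
  obtain ⟨R, _, _, _, _, _, π, hπ, hπu⟩ := exists_local_ring14 hp
  letI : Algebra R F := ((algebraMap ℚ F).comp (algebraMap R ℚ)).toAlgebra
  haveI : IsScalarTower R ℚ F := IsScalarTower.of_algebraMap_eq fun _ => rfl
  have hRQ : (algebraMap R ℚ).comp (Int.castRingHom R) = algebraMap ℤ ℚ := RingHom.ext_int _ _
  have hinjZ : Function.Injective (Int.castRingHom R) := by
    have h1 : Function.Injective ((algebraMap R ℚ).comp (Int.castRingHom R)) := by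
      rw [hRQ]
      exact (algebraMap ℤ ℚ).injective_int
    exact Function.Injective.of_comp h1
  haveI hfaith : FaithfulSMul R F := (faithfulSMul_iff_algebraMap_injective R F).mpr
    ((algebraMap ℚ F).injective.comp (IsFractionRing.injective R ℚ))
  have hcomp : π.comp (Int.castRingHom R) = Int.castRingHom (ZMod p) := RingHom.ext_int _ _
  have hu' : IsUnit ((gdif v a b).map (Int.castRingHom R)).leadingCoeff := by
    rw [leadingCoeff_map_of_injective hinjZ]
    exact hπu _ (gdif_lead_h38 v h.lead)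
  have hQ : ((gdif v a b).map (Int.castRingHom R)).map (algebraMap R ℚ) =
      (gdif v a b).map (algebraMap ℤ ℚ) := by
    rw [Polynomial.map_map, hRQ]
  have hsep' : (((gdif v a b).map (Int.castRingHom R)).map (algebraMap R ℚ)).Separable := by
    rw [hQ, gdif_mapQ_h38]
    exact hsep
  obtain ⟨b₀, g, hg, hgb, hf⟩ := h.irr
  have hf' : ((gdif v a b).map (Int.castRingHom R)).map π = (X - C b₀) * g := by
    rw [Polynomial.map_map, hcomp]
    exact hf
  obtain ⟨φ, z, hz, hzz, hφ⟩ := frob_typeL_h38 ℚ F hπ hu' hsep' hf' hgb hg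
  have hc : ∀ x : F, aeval x ((gdif v a b).map (Int.castRingHom R)) = 0 ↔
      aeval x (gpolQ v a) = aeval x (gpolQ v b) := by
    intro x
    rw [← aeval_map_algebraMap ℚ, hQ]
    exact aeval_gdif_h38 v a b x
  exact ⟨φ, z, (hc z).mp hz, hzz, fun x y hx hy hxz hyz =>
    hφ x y ((hc x).mpr hx) ((hc y).mpr hy) hxz hyz⟩

theorem pairTransitive_gpol (v : ι × Fin (n + 1) → ℤ) {a b : ι}
    (hI : ∃ p : ℕ, p.Prime ∧ TypeI p a b v) (hL : ∃ p : ℕ, p.Prime ∧ TypeL p a b v)
    (u w u' w' : F) (hu : aeval u (gpolQ v a) = aeval u (gpolQ v b))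
    (hw : aeval w (gpolQ v a) = aeval w (gpolQ v b))
    (hu' : aeval u' (gpolQ v a) = aeval u' (gpolQ v b))
    (hw' : aeval w' (gpolQ v a) = aeval w' (gpolQ v b)) (huw : u ≠ w) (huw' : u' ≠ w') :
    ∃ σ : F ≃ₐ[ℚ] F, σ u = u' ∧ σ w = w' := by
  obtain ⟨p, hp, hpI⟩ := hI
  obtain ⟨q, hq, hqL⟩ := hL
  obtain ⟨φ, hφ⟩ := exists_cycle_typeI (F := F) v hp hpI
  obtain ⟨ψ, z, hz, hzz, hψ⟩ := exists_cycle_typeL (F := F) v hq hqL (separable_of_typeI v hp hpI)
  have hroot : ∀ (σ : F ≃ₐ[ℚ] F) (x : F), aeval x (gpolQ v a) = aeval x (gpolQ v b) →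
      aeval (σ x) (gpolQ v a) = aeval (σ x) (gpolQ v b) := by
    intro σ x hx
    rw [← AlgEquiv.coe_toAlgHom σ, aeval_algHom_apply, aeval_algHom_apply, hx]
  obtain ⟨i, hi⟩ := hφ u z hu hz
  obtain ⟨j, hj⟩ := hφ u' z hu' hz
  obtain ⟨m, hm⟩ := hψ ((φ ^ i) w) ((φ ^ j) w') (hroot _ _ hw) (hroot _ _ hw') (by
    rw [← hi]
    exact fun h => huw ((φ ^ i).injective h).symm) (by
    rw [← hj]
    exact fun h => huw' ((φ ^ j).injective h).symm)
  have hzm : ∀ m : ℕ, (ψ ^ m) z = z := by
    intro m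
    induction m with
    | zero => rfl
    | succ m ih => rw [pow_succ', AlgEquiv.mul_apply, ih, hzz]
  refine ⟨(φ ^ j)⁻¹ * ψ ^ m * φ ^ i, ?_, ?_⟩
  · rw [AlgEquiv.mul_apply, AlgEquiv.mul_apply, hi, hzm, ← hj]
    change ((φ ^ j)⁻¹ * (φ ^ j)) u' = u'
    rw [inv_mul_cancel]
    rfl
  · rw [AlgEquiv.mul_apply, AlgEquiv.mul_apply, hm]
    change ((φ ^ j)⁻¹ * (φ ^ j)) w' = w'
    rw [inv_mul_cancel]
    rfl

end Pool.Agent.Lib.MP_89bcae_ag

end

section

/-!
# Types A and B: Frobenius elements and counts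
-/

open Polynomial

open scoped Classical

namespace Pool.Agent.Lib.MP_89bcae_ag

/-- Types A and B make the action on the pairs transitive. -/
theorem pair_of_types7 (F : Type) [Field F] [Algebra ℚ F] [IsAlgClosure ℚ F] {g D : ℤ[X]}
    (hg : g.Monic) (hdeg : g.natDegree = 3) {n : ℕ} (hD : D.natDegree ≤ n) (hn : 2 ≤ n)
    {p₁ p₂ : ℕ} [Fact p₁.Prime] [Fact p₂.Prime]
    (h₁ : TypeA7 (g.map (Int.castRingHom (ZMod p₁))) (D.map (Int.castRingHom (ZMod p₁))) n)
    (h₂ : TypeB7 (g.map (Int.castRingHom (ZMod p₂))) (D.map (Int.castRingHom (ZMod p₂))) n) :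
    ((D.comp g).map (Int.castRingHom ℚ)).Separable ∧
      IsPairTransitive7 ℚ F (g.map (Int.castRingHom ℚ)) (D.map (Int.castRingHom ℚ)) := by
  haveI : IsAlgClosed F := IsAlgClosure.isAlgClosed ℚ
  haveI : Algebra.IsAlgebraic ℚ F := IsAlgClosure.isAlgebraic
  obtain ⟨hA, hAn⟩ := h₁
  obtain ⟨b, D₁, h3, h4, h5, hBn⟩ := h₂
  have key : ∀ (p : ℕ) (_ : Fact p.Prime), (D.map (Int.castRingHom (ZMod p))).natDegree = n →
      (D.leadingCoeff : ZMod p) ≠ 0 := by
    intro p _ h
    have h6 : D.natDegree = n := le_antisymm hD (h ▸ natDegree_map_le)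
    have h7 : (D.leadingCoeff : ZMod p) = (D.map (Int.castRingHom (ZMod p))).leadingCoeff := by
      rw [leadingCoeff, leadingCoeff, h, h6, coeff_map]
      rfl
    rw [h7, leadingCoeff_ne_zero]
    intro h8
    rw [h8, natDegree_zero] at h
    omega
  exact pairTransitive_types14 (F := F) hg hdeg (Fact.out : p₁.Prime) (Fact.out : p₂.Prime)
    (key p₁ inferInstance hAn) (key p₂ inferInstance hBn) hA ⟨b, D₁, h3, h4, h5⟩

lemma two_three_ne_zero14 {p : ℕ} (hp : p.Prime) (h : 5 ≤ p) :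
    (2 : ZMod p) ≠ 0 ∧ (3 : ZMod p) ≠ 0 := by
  constructor
  · intro h
    have h4 : ((2 : ℕ) : ZMod p) = 0 := by exact_mod_cast h
    rw [ZMod.natCast_eq_zero_iff] at h4
    have h5 := (Nat.prime_dvd_prime_iff_eq hp Nat.prime_two).mp h4
    omega
  · intro h
    have h4 : ((3 : ℕ) : ZMod p) = 0 := by exact_mod_cast h
    rw [ZMod.natCast_eq_zero_iff] at h4
    have h5 := (Nat.prime_dvd_prime_iff_eq hp Nat.prime_three).mp h4
    omega

lemma polyOf_coeffs14 {k : Type} [Field k] {n : ℕ} {f : k[X]} (hf : f.natDegree = n) :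
    polyOf8 (coeffs14 n f) = f := by
  unfold polyOf8 coeffs14
  conv_rhs => rw [f.as_sum_range_C_mul_X_pow, hf]
  rw [Finset.sum_range]

/-- The number of the residue classes of type A. -/
theorem count_typeA7 (n : ℕ) (hn : 2 ≤ n) : ∃ c : ℝ, 0 < c ∧ ∃ P₀ : ℕ, ∀ p : ℕ, ∀ _ : Fact p.Prime,
    P₀ ≤ p → p % 3 = 1 → ∀ g : (ZMod p)[X], g.Monic → g.natDegree = 3 →
      c * (p : ℝ) ^ (n + 1) ≤
        ({v : Fin (n + 1) → ZMod p | TypeA7 g (polyOf8 v) n}.ncard : ℝ) := by
  have hn0 : (0 : ℝ) < n := by exact_mod_cast (by omega : 0 < n)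
  refine ⟨1 / (72 * n), by positivity, 19, fun p _ h19 h1 g hmon hdeg => ?_⟩
  have hp : p.Prime := Fact.out
  obtain ⟨h2, -⟩ := two_three_ne_zero14 hp (by omega)
  have hcard := ZMod.card p
  have h3 := family_lower14 h2 (by rw [hcard]; exact h19) hmon hdeg
    (exists_collision14 h1 hmon hdeg) hn
  have h4 := count_A14 g n
  rw [hcard] at h3 h4
  have h5 : ({v : Fin (n + 1) → ZMod p | ∃ f : (ZMod p)[X], coeffs14 n f = v ∧
      f.natDegree = n ∧ Irreducible (f.comp g)}).ncard ≤
      {v : Fin (n + 1) → ZMod p | TypeA7 g (polyOf8 v) n}.ncard := by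
    apply Set.ncard_le_ncard _ (Set.toFinite _)
    rintro v ⟨f, rfl, hfn, hirr⟩
    change TypeA7 g (polyOf8 (coeffs14 n f)) n
    rw [polyOf_coeffs14 hfn]
    exact ⟨hirr, hfn⟩
  have h6 : ((p : ℝ) - 1) * ((family g n).ncard : ℝ) ≤
      ({v : Fin (n + 1) → ZMod p | TypeA7 g (polyOf8 v) n}.ncard : ℝ) := by
    have h7 := h4.trans h5
    have h8 : (((p - 1) * (family g n).ncard : ℕ) : ℝ) =
        ((p : ℝ) - 1) * ((family g n).ncard : ℝ) := by
      rw [Nat.cast_mul, Nat.cast_sub (by omega), Nat.cast_one]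
    rw [← h8]
    exact_mod_cast h7
  refine le_trans ?_ h6
  have h7 : (p : ℝ) ^ n ≤ 6 * (n * ((family g n).ncard : ℝ)) := by exact_mod_cast h3
  have hp19 : (19 : ℝ) ≤ p := by exact_mod_cast h19
  rw [div_mul_eq_mul_div, one_mul, div_le_iff₀ (by positivity)]
  have h8 : (0 : ℝ) ≤ ((family g n).ncard : ℝ) := Nat.cast_nonneg _
  calc (p : ℝ) ^ (n + 1) = p * (p : ℝ) ^ n := by ring
    _ ≤ p * (6 * (n * ((family g n).ncard : ℝ))) := by
        apply mul_le_mul_of_nonneg_left h7; linarith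
    _ = 6 * p * (n * ((family g n).ncard : ℝ)) := by ring
    _ ≤ 72 * (p - 1) * (n * ((family g n).ncard : ℝ)) := by
        apply mul_le_mul_of_nonneg_right _ (by positivity)
        linarith
    _ = _ := by ring

/-- The number of the residue classes of type B. -/
theorem count_typeB7 (n : ℕ) (hn : 3 ≤ n) : ∃ c : ℝ, 0 < c ∧ ∃ P₀ : ℕ, ∀ p : ℕ, ∀ _ : Fact p.Prime,
    P₀ ≤ p → p % 3 = 1 → ∀ g : (ZMod p)[X], g.Monic → g.natDegree = 3 →
      c * (p : ℝ) ^ (n + 1) ≤
        ({v : Fin (n + 1) → ZMod p | TypeB7 g (polyOf8 v) n}.ncard : ℝ) := by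
  have hn0 : (0 : ℝ) < n := by exact_mod_cast (by omega : 0 < n)
  refine ⟨1 / (72 * n), by positivity, 19, fun p _ h19 h1 g hmon hdeg => ?_⟩
  have hp : p.Prime := Fact.out
  obtain ⟨h2, h3'⟩ := two_three_ne_zero14 hp (by omega)
  have hcard := ZMod.card p
  have h3 := family_lower14 h2 (by rw [hcard]; exact h19) hmon hdeg
    (exists_collision14 h1 hmon hdeg) (n := n - 1) (by omega)
  have h4 := count_B14 hdeg hn
  have hV := values_lower14 h3' hmon hdeg
  rw [hcard] at h3 h4 hV
  set V := ({α : ZMod p | ∃ b : ZMod p, (derivative g).eval b ≠ 0 ∧ g.eval b = α}).ncard with hVd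
  have h5 : ({v : Fin (n + 1) → ZMod p | ∃ f : (ZMod p)[X], coeffs14 n f = v ∧
      f.natDegree = n ∧ ∃ (b : ZMod p) (D₁ : (ZMod p)[X]), f = (X - C (g.eval b)) * D₁ ∧
        (derivative g).eval b ≠ 0 ∧ Irreducible (D₁.comp g)}).ncard ≤
      {v : Fin (n + 1) → ZMod p | TypeB7 g (polyOf8 v) n}.ncard := by
    apply Set.ncard_le_ncard _ (Set.toFinite _)
    rintro v ⟨f, rfl, hfn, b, D₁, hf, hb, hirr⟩
    change TypeB7 g (polyOf8 (coeffs14 n f)) n
    rw [polyOf_coeffs14 hfn]
    exact ⟨b, D₁, hf, hb, hirr, hfn⟩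
  have h6 : ((p : ℝ) - 1) * V * ((family g (n - 1)).ncard : ℝ) ≤
      ({v : Fin (n + 1) → ZMod p | TypeB7 g (polyOf8 v) n}.ncard : ℝ) := by
    have h7 := h4.trans h5
    have h8 : (((p - 1) * V * (family g (n - 1)).ncard : ℕ) : ℝ) =
        ((p : ℝ) - 1) * V * ((family g (n - 1)).ncard : ℝ) := by
      rw [Nat.cast_mul, Nat.cast_mul, Nat.cast_sub (by omega), Nat.cast_one]
    rw [← h8]
    exact_mod_cast h7
  refine le_trans ?_ h6
  have h7 : (p : ℝ) ^ (n - 1) ≤ 6 * (((n - 1 : ℕ) : ℝ) * ((family g (n - 1)).ncard : ℝ)) := by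
    exact_mod_cast h3
  have hp19 : (19 : ℝ) ≤ p := by exact_mod_cast h19
  have h8 : (0 : ℝ) ≤ ((family g (n - 1)).ncard : ℝ) := Nat.cast_nonneg _
  have h9 : (p : ℝ) ^ (n - 1) ≤ 6 * (n * ((family g (n - 1)).ncard : ℝ)) := by
    refine h7.trans ?_
    have : ((n - 1 : ℕ) : ℝ) ≤ n := by exact_mod_cast Nat.sub_le _ _
    nlinarith [mul_le_mul_of_nonneg_right this h8]
  have h10 : (p : ℝ) - 2 ≤ 3 * V := by
    have : p ≤ 3 * V + 2 := by omega
    have h11 : (p : ℝ) ≤ 3 * V + 2 := by exact_mod_cast this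
    linarith
  rw [div_mul_eq_mul_div, one_mul, div_le_iff₀ (by positivity)]
  have h12 : (p : ℝ) ^ (n + 1) = p ^ 2 * (p : ℝ) ^ (n - 1) := by
    rw [← pow_add]
    congr 1
    omega
  have h13 : (p : ℝ) ^ 2 ≤ 4 * ((p - 1) * (3 * V)) := by
    nlinarith [mul_le_mul_of_nonneg_left h10 (show (0 : ℝ) ≤ p - 1 by linarith)]
  calc (p : ℝ) ^ (n + 1) = p ^ 2 * (p : ℝ) ^ (n - 1) := h12
    _ ≤ 4 * ((p - 1) * (3 * V)) * (6 * (n * ((family g (n - 1)).ncard : ℝ))) := by
        apply mul_le_mul h13 h9 (by positivity)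
        apply le_trans _ h13
        positivity
    _ = _ := by ring

end Pool.Agent.Lib.MP_89bcae_ag

end

section

/-!
# Counting polynomials modulo `p` and modulo `p ^ 2`, for `g` of any degree
-/

open Polynomial

open scoped Classical

set_option linter.unusedSimpArgs false
set_option linter.unusedVariables false
set_option linter.unusedSectionVars false
set_option linter.style.haveILetI false

namespace Pool.Agent.Lib.MP_89bcae_ag

section Crit

variable {K : Type*} [Field K]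

/-- A polynomial with nonzero derivative has less than `deg g` critical values. -/
theorem card_crit14 {g : K[X]} (hder : derivative g ≠ 0)
    (S : Finset K) (hS : ∀ e ∈ S, ¬ (g - C e).Separable) : S.card ≤ g.natDegree - 1 := by
  let L := AlgebraicClosure K
  have hex : ∀ e ∈ S, ∃ θ ∈ ((derivative g).aroots L).toFinset, aeval θ g = algebraMap K L e := by
    intro e he
    have h1 := hS e he
    rw [Polynomial.Separable, Polynomial.isCoprime_iff_aeval_ne_zero_of_isAlgClosed K L] at h1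
    push Not at h1
    obtain ⟨θ, h4, h5⟩ := h1
    rw [derivative_sub, derivative_C, sub_zero] at h5
    rw [map_sub, aeval_C, sub_eq_zero] at h4
    exact ⟨θ, by rw [Multiset.mem_toFinset, mem_aroots]; exact ⟨hder, h5⟩, h4⟩
  choose! f hf1 hf2 using hex
  have h6 : S.card ≤ ((derivative g).aroots L).toFinset.card := by
    apply Finset.card_le_card_of_injOn f hf1
    intro x hx y hy hxy
    apply (algebraMap K L).injective
    rw [← hf2 x hx, ← hf2 y hy, hxy]
  refine h6.trans ((Multiset.toFinset_card_le _).trans ?_)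
  refine (card_roots' _).trans ?_
  rw [natDegree_map]
  exact natDegree_derivative_le g

/-- The derivative of a monic polynomial of degree `m ≠ 0` in `K` is not zero. -/
lemma derivative_ne_zero14 {g : K[X]} (hg : g.Monic) (h : (g.natDegree : K) ≠ 0) :
    derivative g ≠ 0 := by
  intro h0
  have hd : g.natDegree ≠ 0 := by
    intro h1
    rw [h1, Nat.cast_zero] at h
    exact h rfl
  obtain ⟨d, hd'⟩ := Nat.exists_eq_succ_of_ne_zero hd
  have h1 : (derivative g).coeff d = 0 := by rw [h0, coeff_zero]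
  rw [coeff_derivative] at h1
  have h2 : g.coeff (d + 1) = 1 := by
    have h3 := hg.coeff_natDegree
    rwa [hd', Nat.succ_eq_add_one] at h3
  rw [h2, one_mul] at h1
  apply h
  rw [hd', Nat.succ_eq_add_one]
  push_cast
  exact h1

end Crit

section Irr

/-- The number of the irreducible polynomials. -/
lemma irr_lower14 {k : Type} [Field k] [Fintype k] (hq : 3 ≤ Fintype.card k) {n : ℕ} (hn : 2 ≤ n) :
    Fintype.card k ^ n ≤ 2 * (n * (family (X : k[X]) n).ncard) := by
  have hfin := family_finite8 (X : k[X]) n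
  have hfam : ∀ D ∈ hfin.toFinset, D.Monic ∧ D.natDegree = n ∧ Irreducible D := by
    intro D hD
    rw [Set.Finite.mem_toFinset] at hD
    exact ⟨hD.1, hD.2.1, by simpa using hD.2.2⟩
  have hcard : hfin.toFinset.card = (family (X : k[X]) n).ncard :=
    (Set.ncard_eq_toFinset_card _ hfin).symm
  obtain ⟨A, hA1, hA2⟩ := exists_roots_card8 (F := AlgebraicClosure k) n hfin.toFinset hfam
  have h1 := Frob14.card_fixS (k := k) (F := AlgebraicClosure k) (i := n) (by omega)
  have h2 := Frob14.small_card (k := k) (F := AlgebraicClosure k) n (by omega)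
  have h3 := Frob14.two_mul_sum_pow_le hq (n / 2)
  have h4 : 3 * Fintype.card k ^ (n / 2) ≤ Fintype.card k ^ n := by
    calc 3 * Fintype.card k ^ (n / 2) ≤ Fintype.card k * Fintype.card k ^ (n - 1) :=
          Nat.mul_le_mul hq (Nat.pow_le_pow_right (by omega) (by omega))
      _ = Fintype.card k ^ n := by
          rw [← pow_succ']
          congr 1
          omega
  have h5 := Finset.card_filter_add_card_filter_not (s := Frob14.fixS k (AlgebraicClosure k) n)
    (fun v => ∃ j, 0 < j ∧ j < n ∧ v ^ (Fintype.card k ^ j) = v)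
  have h6 : ((Frob14.fixS k (AlgebraicClosure k) n).filter
      (fun v => ¬ ∃ j, 0 < j ∧ j < n ∧ v ^ (Fintype.card k ^ j) = v)).card ≤ A.card := by
    apply Finset.card_le_card
    intro a ha
    rw [Finset.mem_filter, Frob14.mem_fixS (by omega)] at ha
    obtain ⟨ha1, ha2⟩ := ha
    rw [hA1, Set.Finite.mem_toFinset]
    have hint : IsIntegral k a := Algebra.IsIntegral.isIntegral a
    refine ⟨minpoly.monic hint, ?_, ?_⟩
    · have h1 : (minpoly k a).natDegree ∣ n := by
        rw [← frob8_pow_eq_iff, frob8_pow_apply, ha1]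
      have h2 := Nat.le_of_dvd (by omega) h1
      have h3 : 0 < (minpoly k a).natDegree := minpoly.natDegree_pos hint
      by_contra h4
      apply ha2
      refine ⟨(minpoly k a).natDegree, h3, lt_of_le_of_ne h2 h4, ?_⟩
      rw [← frob8_pow_apply, frob8_pow_eq_iff]
    · rw [comp_X]
      exact minpoly.irreducible hint
  rw [hA2, hcard] at h6
  omega

variable {k : Type} [Field k] [Fintype k]

/-- The number of the products of a linear and an irreducible polynomial. -/
lemma count_BX14 {n : ℕ} (hn : 3 ≤ n) :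
    (Fintype.card k - 1) * Fintype.card k * (family (X : k[X]) (n - 1)).ncard ≤
      ({v : Fin (n + 1) → k | ∃ f : k[X], coeffs14 n f = v ∧ f.natDegree = n ∧
        ∃ (b : k) (D₁ : k[X]), f = (X - C b) * D₁ ∧ Irreducible D₁ ∧ D₁.natDegree = n - 1}).ncard := by
  have huniv : Fintype.card k = (Set.univ : Set k).ncard := by
    rw [Set.ncard_univ, Nat.card_eq_fintype_card]
  rw [← ncard_ne_zero14]
  conv_lhs => rw [huniv]
  rw [← Set.ncard_prod, ← Set.ncard_prod]
  apply Set.ncard_le_ncard_of_injOn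
    (fun x : (k × k) × k[X] => coeffs14 n (C x.1.1 * ((X - C x.1.2) * x.2)))
  · rintro ⟨⟨u, α⟩, D⟩ ⟨⟨hu, -⟩, h1, h2, h3⟩
    simp only at hu h1 h2 h3
    rw [comp_X] at h3
    refine ⟨_, rfl, ?_, α, C u * D, ?_, ?_, ?_⟩
    · change (C u * ((X - C α) * D)).natDegree = n
      rw [natDegree_C_mul hu, (monic_X_sub_C α).natDegree_mul h1, natDegree_X_sub_C, h2]
      omega
    · change C u * ((X - C α) * D) = _
      ring
    · have hu' : IsUnit (C u : k[X]) := isUnit_C.mpr (isUnit_iff_ne_zero.mpr hu)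
      rw [irreducible_isUnit_mul hu']
      exact h3
    · rw [natDegree_C_mul hu, h2]
  · rintro ⟨⟨u, α⟩, D⟩ ⟨⟨hu, -⟩, h1, h2, h3⟩ ⟨⟨u', α'⟩, D'⟩ ⟨⟨hu', -⟩, h1', h2', h3'⟩ h
    simp only at hu hu' h1 h2 h3 h1' h2' h3' h
    rw [comp_X] at h3 h3'
    have hdg : ∀ (u α : k) (D : k[X]), u ≠ 0 → D.Monic → D.natDegree = n - 1 →
        (C u * ((X - C α) * D)).natDegree ≤ n := by
      intro u α D hu h1 h2
      rw [natDegree_C_mul hu, (monic_X_sub_C α).natDegree_mul h1, natDegree_X_sub_C, h2]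
      omega
    have h4 := coeffs_inj14 (hdg u α D hu h1 h2) (hdg u' α' D' hu' h1' h2') h
    have h5 := congrArg leadingCoeff h4
    rw [leadingCoeff_mul, leadingCoeff_C, ((monic_X_sub_C α).mul h1).leadingCoeff, mul_one,
      leadingCoeff_mul, leadingCoeff_C, ((monic_X_sub_C α').mul h1').leadingCoeff, mul_one] at h5
    subst h5
    have h6 := mul_left_cancel₀ (C_ne_zero.mpr hu) h4
    have h7 : α = α' := by
      by_contra hne
      have h8 := congrArg (eval α) h6
      rw [eval_mul, eval_sub, eval_X, eval_C, sub_self, zero_mul, eval_mul, eval_sub, eval_X,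
        eval_C, eq_comm, mul_eq_zero] at h8
      rcases h8 with h8 | h8
      · exact hne (sub_eq_zero.mp h8)
      · have h9 : D'.natDegree = 1 := natDegree_eq_of_degree_eq_some
          (degree_eq_one_of_irreducible_of_root h3' h8)
        rw [h2'] at h9
        omega
    subst h7
    rw [Prod.mk.injEq]
    exact ⟨rfl, mul_left_cancel₀ (X_sub_C_ne_zero α) h6⟩

end Irr

/-- The polynomial is irreducible of degree `n`. -/
def TypeAX14 {κ : Type} [Field κ] (D : κ[X]) (n : ℕ) : Prop :=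
  Irreducible D ∧ D.natDegree = n

/-- The polynomial is the product of a linear polynomial and an irreducible polynomial of degree
`n - 1`. -/
def TypeBX14 {κ : Type} [Field κ] (D : κ[X]) (n : ℕ) : Prop :=
  ∃ (b : κ) (D₁ : κ[X]), D = (X - C b) * D₁ ∧ Irreducible D₁ ∧ D₁.natDegree = n - 1 ∧
    D.natDegree = n

/-- The polynomial `D` has degree `n` and `D(g)` is separable. -/
def TypeS14 {κ : Type} [Field κ] (g D : κ[X]) (n : ℕ) : Prop :=
  D.natDegree = n ∧ (D.comp g).Separable

/-- The number of the residue classes of type A. -/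
theorem count_typeAX14 (n : ℕ) (hn : 2 ≤ n) : ∃ c : ℝ, 0 < c ∧ ∃ P₀ : ℕ, ∀ p : ℕ,
    ∀ _ : Fact p.Prime, P₀ ≤ p →
      c * (p : ℝ) ^ (n + 1) ≤
        ({v : Fin (n + 1) → ZMod p | TypeAX14 (polyOf8 v) n}.ncard : ℝ) := by
  have hn0 : (0 : ℝ) < n := by exact_mod_cast (by omega : 0 < n)
  refine ⟨1 / (4 * n), by positivity, 3, fun p _ hp3 => ?_⟩
  have hp : p.Prime := Fact.out
  have hcard := ZMod.card p
  have h3 := irr_lower14 (k := ZMod p) (by rw [hcard]; exact hp3) hn
  have h4 := count_A14 (X : (ZMod p)[X]) n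
  rw [hcard] at h3 h4
  have h5 : ({v : Fin (n + 1) → ZMod p | ∃ f : (ZMod p)[X], coeffs14 n f = v ∧
      f.natDegree = n ∧ Irreducible (f.comp X)}).ncard ≤
      {v : Fin (n + 1) → ZMod p | TypeAX14 (polyOf8 v) n}.ncard := by
    apply Set.ncard_le_ncard _ (Set.toFinite _)
    rintro v ⟨f, rfl, hfn, hirr⟩
    change TypeAX14 (polyOf8 (coeffs14 n f)) n
    rw [polyOf_coeffs14 hfn]
    rw [comp_X] at hirr
    exact ⟨hirr, hfn⟩
  have h6 : ((p : ℝ) - 1) * ((family (X : (ZMod p)[X]) n).ncard : ℝ) ≤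
      ({v : Fin (n + 1) → ZMod p | TypeAX14 (polyOf8 v) n}.ncard : ℝ) := by
    have h7 := h4.trans h5
    have h8 : (((p - 1) * (family (X : (ZMod p)[X]) n).ncard : ℕ) : ℝ) =
        ((p : ℝ) - 1) * ((family (X : (ZMod p)[X]) n).ncard : ℝ) := by
      rw [Nat.cast_mul, Nat.cast_sub (by omega), Nat.cast_one]
    rw [← h8]
    exact_mod_cast h7
  refine le_trans ?_ h6
  have h7 : (p : ℝ) ^ n ≤ 2 * (n * ((family (X : (ZMod p)[X]) n).ncard : ℝ)) := by
    exact_mod_cast h3
  have hp3' : (3 : ℝ) ≤ p := by exact_mod_cast hp3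
  rw [div_mul_eq_mul_div, one_mul, div_le_iff₀ (by positivity)]
  have h8 : (0 : ℝ) ≤ ((family (X : (ZMod p)[X]) n).ncard : ℝ) := Nat.cast_nonneg _
  calc (p : ℝ) ^ (n + 1) = p * (p : ℝ) ^ n := by ring
    _ ≤ p * (2 * (n * ((family (X : (ZMod p)[X]) n).ncard : ℝ))) := by
        apply mul_le_mul_of_nonneg_left h7; linarith
    _ = 2 * p * (n * ((family (X : (ZMod p)[X]) n).ncard : ℝ)) := by ring
    _ ≤ 4 * (p - 1) * (n * ((family (X : (ZMod p)[X]) n).ncard : ℝ)) := by
        apply mul_le_mul_of_nonneg_right _ (by positivity)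
        linarith
    _ = _ := by ring

/-- The number of the residue classes of type B. -/
theorem count_typeBX14 (n : ℕ) (hn : 3 ≤ n) : ∃ c : ℝ, 0 < c ∧ ∃ P₀ : ℕ, ∀ p : ℕ,
    ∀ _ : Fact p.Prime, P₀ ≤ p →
      c * (p : ℝ) ^ (n + 1) ≤
        ({v : Fin (n + 1) → ZMod p | TypeBX14 (polyOf8 v) n}.ncard : ℝ) := by
  have hn0 : (0 : ℝ) < n := by exact_mod_cast (by omega : 0 < n)
  refine ⟨1 / (4 * n), by positivity, 3, fun p _ hp3 => ?_⟩
  have hp : p.Prime := Fact.out
  have hcard := ZMod.card p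
  have h3 := irr_lower14 (k := ZMod p) (by rw [hcard]; exact hp3) (n := n - 1) (by omega)
  have h4 := count_BX14 (k := ZMod p) hn
  rw [hcard] at h3 h4
  have h5 : ({v : Fin (n + 1) → ZMod p | ∃ f : (ZMod p)[X], coeffs14 n f = v ∧
      f.natDegree = n ∧ ∃ (b : ZMod p) (D₁ : (ZMod p)[X]), f = (X - C b) * D₁ ∧
        Irreducible D₁ ∧ D₁.natDegree = n - 1}).ncard ≤
      {v : Fin (n + 1) → ZMod p | TypeBX14 (polyOf8 v) n}.ncard := by
    apply Set.ncard_le_ncard _ (Set.toFinite _)
    rintro v ⟨f, rfl, hfn, b, D₁, hf, hirr, hd⟩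
    change TypeBX14 (polyOf8 (coeffs14 n f)) n
    rw [polyOf_coeffs14 hfn]
    exact ⟨b, D₁, hf, hirr, hd, hfn⟩
  have h6 : ((p : ℝ) - 1) * p * ((family (X : (ZMod p)[X]) (n - 1)).ncard : ℝ) ≤
      ({v : Fin (n + 1) → ZMod p | TypeBX14 (polyOf8 v) n}.ncard : ℝ) := by
    have h7 := h4.trans h5
    have h8 : (((p - 1) * p * (family (X : (ZMod p)[X]) (n - 1)).ncard : ℕ) : ℝ) =
        ((p : ℝ) - 1) * p * ((family (X : (ZMod p)[X]) (n - 1)).ncard : ℝ) := by
      rw [Nat.cast_mul, Nat.cast_mul, Nat.cast_sub (by omega), Nat.cast_one]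
    rw [← h8]
    exact_mod_cast h7
  refine le_trans ?_ h6
  have h7 : (p : ℝ) ^ (n - 1) ≤
      2 * (((n - 1 : ℕ) : ℝ) * ((family (X : (ZMod p)[X]) (n - 1)).ncard : ℝ)) := by
    exact_mod_cast h3
  have hp3' : (3 : ℝ) ≤ p := by exact_mod_cast hp3
  have h8 : (0 : ℝ) ≤ ((family (X : (ZMod p)[X]) (n - 1)).ncard : ℝ) := Nat.cast_nonneg _
  have h9 : (p : ℝ) ^ (n - 1) ≤ 2 * (n * ((family (X : (ZMod p)[X]) (n - 1)).ncard : ℝ)) := by
    refine h7.trans ?_
    have : ((n - 1 : ℕ) : ℝ) ≤ n := by exact_mod_cast Nat.sub_le _ _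
    nlinarith [mul_le_mul_of_nonneg_right this h8]
  rw [div_mul_eq_mul_div, one_mul, div_le_iff₀ (by positivity)]
  have h12 : (p : ℝ) ^ (n + 1) = p ^ 2 * (p : ℝ) ^ (n - 1) := by
    rw [← pow_add]
    congr 1
    omega
  have h13 : (p : ℝ) ^ 2 ≤ 2 * ((p - 1) * p) := by nlinarith
  calc (p : ℝ) ^ (n + 1) = p ^ 2 * (p : ℝ) ^ (n - 1) := h12
    _ ≤ 2 * ((p - 1) * p) * (2 * (n * ((family (X : (ZMod p)[X]) (n - 1)).ncard : ℝ))) := by
        apply mul_le_mul h13 h9 (by positivity)
        apply le_trans _ h13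
        positivity
    _ = _ := by ring

end Pool.Agent.Lib.MP_89bcae_ag

end

section

/-!
# The number of the families of types I and L modulo `p`

The map `w ↦ gdif w a b` from `ι × Fin (n + 1) → ZMod p` to the polynomials of degree at most `n` is
linear and surjective, with fibres of size `p ^ (N - n - 1)`. Type I: there are at least
`(p - 1) p ^ n / (2 n)` irreducible polynomials of degree `n` over `𝔽_p` for large `p` (the number of
monic ones: see the count of irreducible polynomials in the library: `family_lower14` in TypC14.lean and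
the files it uses, SDen*.lean). Type L: the products `(X - z) g`, `g` irreducible of degree `n - 1`
with `g(z) ≠ 0`; given the product, `z` is determined if `n ≥ 3`, and up to two choices if `n = 2`
(`n = 2`: `g` linear), so there are at least `p (p - 1) (p ^ (n - 1) / (2 n) - 1) / 2` of them. Any
constant `c > 0` (depending on `n`) will do.
-/

open Polynomial

open scoped Classical

namespace Pool.Agent.Lib.MP_89bcae_ag

section

variable {ι : Type} {n : ℕ}

/-- The families of type I modulo `p`. -/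
def TypeIz (p : ℕ) (a b : ι) (w : ι × Fin (n + 1) → ZMod p) : Prop :=
  w (a, Fin.last n) ≠ w (b, Fin.last n) ∧ Irreducible (gdif w a b)

/-- The families of type L modulo `p`. -/
def TypeLz (p : ℕ) (a b : ι) (w : ι × Fin (n + 1) → ZMod p) : Prop :=
  w (a, Fin.last n) ≠ w (b, Fin.last n) ∧ ∃ (z : ZMod p) (g : (ZMod p)[X]),
    Irreducible g ∧ g.eval z ≠ 0 ∧ gdif w a b = (X - C z) * g

/-- The leading coefficients of the difference. -/
lemma not_dvd_h83 {p : ℕ} {x y : ℤ} (h : (x : ZMod p) ≠ (y : ZMod p)) : ¬ (p : ℤ) ∣ x - y := by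
  intro hd
  apply h
  have h1 := (ZMod.intCast_zmod_eq_zero_iff_dvd (x - y) p).2 hd
  rw [Int.cast_sub] at h1
  exact sub_eq_zero.1 h1

/-- The difference of the reductions. -/
lemma gred_h83 (p : ℕ) (v : ι × Fin (n + 1) → ℤ) (a b : ι) :
    gred p v a b = gdif (fun c => (v c : ZMod p)) a b := by
  unfold gred
  rw [gdif_map]
  rfl

theorem TypeI.of_z {p : ℕ} {a b : ι} {v : ι × Fin (n + 1) → ℤ}
    (h : TypeIz p a b (fun c => (v c : ZMod p))) : TypeI p a b v := by
  refine ⟨not_dvd_h83 h.1, ?_⟩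
  rw [gred_h83]
  exact h.2

theorem TypeL.of_z {p : ℕ} {a b : ι} {v : ι × Fin (n + 1) → ℤ}
    (h : TypeLz p a b (fun c => (v c : ZMod p))) : TypeL p a b v := by
  refine ⟨not_dvd_h83 h.1, ?_⟩
  rw [gred_h83]
  exact h.2

/-- The differences of the coefficients, as a homomorphism. -/
def difHom_h4 (p : ℕ) (n : ℕ) {ι : Type} (a b : ι) :
    (ι × Fin (n + 1) → ZMod p) →+ (Fin (n + 1) → ZMod p) where
  toFun w := fun j => w (a, j) - w (b, j)
  map_zero' := by
    funext j
    simp
  map_add' v w := by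
    funext j
    simp only [Pi.add_apply]
    ring

lemma difHom_surj_h4 (p : ℕ) (n : ℕ) {a b : ι} (hab : a ≠ b) :
    Function.Surjective (difHom_h4 p n a b) := by
  intro v
  refine ⟨fun x => if x.1 = a then v x.2 else 0, ?_⟩
  funext j
  change (if a = a then v j else 0) - (if b = a then v j else 0) = v j
  rw [if_pos rfl, if_neg (Ne.symm hab), sub_zero]

lemma gdif_eq_polyOf_h4 (p : ℕ) (n : ℕ) (a b : ι) (w : ι × Fin (n + 1) → ZMod p) :
    gdif w a b = polyOf8 (difHom_h4 p n a b w) := by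
  unfold gdif gpol polyOf8
  rw [← Finset.sum_sub_distrib]
  refine Finset.sum_congr rfl fun j _ => ?_
  change _ = C (w (a, j) - w (b, j)) * X ^ (j : ℕ)
  rw [C_sub]
  ring

/-- The number of the families with differences in a given set. -/
lemma fibre_count_h4 [Fintype ι] (p : ℕ) [Fact p.Prime] {a b : ι} (hab : a ≠ b)
    (S : Set (Fin (n + 1) → ZMod p)) :
    p ^ Fintype.card (ι × Fin (n + 1)) * S.ncard =
      p ^ (n + 1) * ({w : ι × Fin (n + 1) → ZMod p | difHom_h4 p n a b w ∈ S}).ncard := by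
  have hsurj := difHom_surj_h4 p n hab
  set K := (Finset.univ.filter (fun w => difHom_h4 p n a b w = 0)).card with hK
  have hfib : ∀ v, (Finset.univ.filter (fun w => difHom_h4 p n a b w = v)).card = K := by
    intro v
    exact AddMonoidHom.card_fiber_eq_of_mem_range (difHom_h4 p n a b) (hsurj v) (hsurj 0)
  have h1 : (Finset.univ : Finset (ι × Fin (n + 1) → ZMod p)).card = p ^ (n + 1) * K := by
    rw [Finset.card_eq_sum_card_fiberwise (f := difHom_h4 p n a b) (t := Finset.univ)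
      (fun _ _ => Finset.mem_coe.2 (Finset.mem_univ _)), Finset.sum_congr rfl fun v _ => hfib v,
      Finset.sum_const, smul_eq_mul, Finset.card_univ, Fintype.card_fun, ZMod.card, Fintype.card_fin]
  have h2 : ({w : ι × Fin (n + 1) → ZMod p | difHom_h4 p n a b w ∈ S}).ncard = S.ncard * K := by
    have e1 : {w : ι × Fin (n + 1) → ZMod p | difHom_h4 p n a b w ∈ S} =
        ((Finset.univ.filter (fun w => difHom_h4 p n a b w ∈ S) :
          Finset (ι × Fin (n + 1) → ZMod p)) : Set (ι × Fin (n + 1) → ZMod p)) := by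
      ext w
      simp
    rw [e1, Set.ncard_coe_finset, Finset.card_eq_sum_card_fiberwise (f := difHom_h4 p n a b)
      (t := S.toFinset) (fun w hw => by
        rw [Finset.mem_coe, Finset.mem_filter] at hw
        rw [Finset.mem_coe, Set.mem_toFinset]
        exact hw.2)]
    have e2 : ∀ v ∈ S.toFinset, ((Finset.univ.filter (fun w => difHom_h4 p n a b w ∈ S)).filter
        (fun w => difHom_h4 p n a b w = v)).card = K := by
      intro v hv
      rw [← hfib v]
      congr 1
      ext w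
      simp only [Finset.mem_filter, Finset.mem_univ, true_and]
      constructor
      · exact fun h => h.2
      · intro h
        exact ⟨by rw [h]; exact Set.mem_toFinset.1 hv, h⟩
    rw [Finset.sum_congr rfl e2, Finset.sum_const, smul_eq_mul, Set.ncard_eq_toFinset_card']
  rw [Finset.card_univ, Fintype.card_fun, ZMod.card] at h1
  rw [h2, h1]
  ring

/-- From a count of the differences to a count of the families. -/
lemma lift_count_h4 [Fintype ι] (p : ℕ) [Fact p.Prime] {a b : ι} (hab : a ≠ b)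
    (S : Set (Fin (n + 1) → ZMod p)) (T : Set (ι × Fin (n + 1) → ZMod p)) (c : ℝ)
    (hS : c * (p : ℝ) ^ (n + 1) ≤ (S.ncard : ℝ)) (hT : ∀ w, difHom_h4 p n a b w ∈ S → w ∈ T) :
    c * (p : ℝ) ^ Fintype.card (ι × Fin (n + 1)) ≤ (T.ncard : ℝ) := by
  have hp : p.Prime := Fact.out
  have hp0 : (0 : ℝ) < p := by exact_mod_cast hp.pos
  have h1 := fibre_count_h4 (n := n) p hab S
  have h2 : ({w : ι × Fin (n + 1) → ZMod p | difHom_h4 p n a b w ∈ S}).ncard ≤ T.ncard :=
    Set.ncard_le_ncard hT (Set.toFinite _)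
  have h3 : (p : ℝ) ^ Fintype.card (ι × Fin (n + 1)) * (S.ncard : ℝ) =
      (p : ℝ) ^ (n + 1) * (({w : ι × Fin (n + 1) → ZMod p | difHom_h4 p n a b w ∈ S}).ncard : ℝ) := by
    exact_mod_cast h1
  have h4 : (({w : ι × Fin (n + 1) → ZMod p | difHom_h4 p n a b w ∈ S}).ncard : ℝ) ≤ T.ncard := by
    exact_mod_cast h2
  have h5 : (p : ℝ) ^ (n + 1) * (c * (p : ℝ) ^ Fintype.card (ι × Fin (n + 1))) ≤
      (p : ℝ) ^ (n + 1) * T.ncard := by
    calc (p : ℝ) ^ (n + 1) * (c * (p : ℝ) ^ Fintype.card (ι × Fin (n + 1)))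
        = (p : ℝ) ^ Fintype.card (ι × Fin (n + 1)) * (c * (p : ℝ) ^ (n + 1)) := by ring
      _ ≤ (p : ℝ) ^ Fintype.card (ι × Fin (n + 1)) * (S.ncard : ℝ) :=
          mul_le_mul_of_nonneg_left hS (by positivity)
      _ = _ := h3
      _ ≤ _ := mul_le_mul_of_nonneg_left h4 (by positivity)
  exact le_of_mul_le_mul_left h5 (by positivity)

theorem count_typeI [Fintype ι] (hn : 1 ≤ n) {a b : ι} (hab : a ≠ b) :
    ∃ (P₀ : ℕ) (c : ℝ), 0 < c ∧ ∀ p : ℕ, p.Prime → P₀ ≤ p →
      c * (p : ℝ) ^ Fintype.card (ι × Fin (n + 1)) ≤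
        ({w : ι × Fin (n + 1) → ZMod p | TypeIz p a b w}).ncard := by
  rcases eq_or_lt_of_le hn with h1 | h2
  · subst h1
    refine ⟨2, 1 / 2, by norm_num, fun p hp hp2 => ?_⟩
    have : Fact p.Prime := ⟨hp⟩
    refine lift_count_h4 (n := 1) p hab {v : Fin (1 + 1) → ZMod p | v 1 ≠ 0} _ (1 / 2) ?_ ?_
    · have h3 : ({x : (ZMod p) × (ZMod p) | x.2 ≠ 0}).ncard ≤
          ({v : Fin (1 + 1) → ZMod p | v 1 ≠ 0}).ncard := by
        apply Set.ncard_le_ncard_of_injOn (fun x : (ZMod p) × (ZMod p) => (![x.1, x.2] : Fin (1 + 1) → ZMod p))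
        · intro x hx
          exact hx
        · intro x _ y _ hxy
          have e0 := congrFun hxy 0
          have e1 := congrFun hxy 1
          exact Prod.ext e0 e1
      have h4 : ({x : (ZMod p) × (ZMod p) | x.2 ≠ 0}).ncard = p * (p - 1) := by
        have h5 : {x : (ZMod p) × (ZMod p) | x.2 ≠ 0} =
            (Set.univ : Set (ZMod p)) ×ˢ {u : ZMod p | u ≠ 0} := by
          ext x
          simp
        rw [h5, Set.ncard_prod, ncard_ne_zero14, Set.ncard_univ, Nat.card_eq_fintype_card, ZMod.card]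
      rw [h4] at h3
      have h6 : ((p : ℝ) * ((p : ℝ) - 1)) ≤
          (({v : Fin (1 + 1) → ZMod p | v 1 ≠ 0}).ncard : ℝ) := by
        have h7 : ((p * (p - 1) : ℕ) : ℝ) = (p : ℝ) * ((p : ℝ) - 1) := by
          rw [Nat.cast_mul, Nat.cast_sub hp.one_le, Nat.cast_one]
        rw [← h7]
        exact_mod_cast h3
      refine le_trans ?_ h6
      have hpR : (2 : ℝ) ≤ p := by exact_mod_cast hp2
      nlinarith
    · intro w hw
      have hw' : w (a, 1) - w (b, 1) ≠ 0 := hw
      have hc : (gdif w a b).coeff 1 = w (a, 1) - w (b, 1) := gdif_coeff w a b 1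
      refine ⟨fun h0 => hw' (sub_eq_zero.2 h0), irreducible_of_degree_eq_one ?_⟩
      have hle : (gdif w a b).natDegree ≤ 1 := gdif_natDegree_le w a b
      have hge : 1 ≤ (gdif w a b).natDegree := le_natDegree_of_ne_zero (by rw [hc]; exact hw')
      have hdeg : (gdif w a b).natDegree = 1 := le_antisymm hle hge
      rw [degree_eq_natDegree (fun h0 => by rw [h0, natDegree_zero] at hdeg; omega), hdeg]
      rfl
  · obtain ⟨c, hc, P₀, hP⟩ := count_typeAX14 n h2
    refine ⟨P₀, c, hc, fun p hp hpP => ?_⟩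
    have : Fact p.Prime := ⟨hp⟩
    refine lift_count_h4 (n := n) p hab _ _ c (hP p ⟨hp⟩ hpP) ?_
    rintro w ⟨hirr, hn'⟩
    rw [← gdif_eq_polyOf_h4] at hirr hn'
    refine ⟨?_, hirr⟩
    intro h0
    have h4 := gdif_coeff w a b (Fin.last n)
    rw [h0, sub_self, Fin.val_last] at h4
    have h5 : (gdif w a b).leadingCoeff = 0 := by
      rw [leadingCoeff, hn', h4]
    rw [leadingCoeff_eq_zero] at h5
    exact hirr.ne_zero h5

/-- The quadratic polynomials with two different roots. -/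
lemma count_quad_h4 (p : ℕ) [Fact p.Prime] :
    (p - 1) * p.choose 2 ≤ ({v : Fin (2 + 1) → ZMod p | ∃ (u z z' : ZMod p), u ≠ 0 ∧ z ≠ z' ∧
      polyOf8 v = (X - C z) * (C u * (X - C z'))}).ncard := by
  have hdeg : ∀ (u : ZMod p) (s : Finset (ZMod p)), u ≠ 0 → s.card = 2 →
      (C u * ∏ z ∈ s, (X - C z)).natDegree = 2 := by
    intro u s hu hs
    rw [natDegree_C_mul hu, natDegree_finsetProd_X_sub_C_eq_card, hs]
  have h1 : ({u : ZMod p | u ≠ 0} ×ˢ
      (((Finset.univ : Finset (ZMod p)).powersetCard 2 : Finset (Finset (ZMod p))) :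
        Set (Finset (ZMod p)))).ncard = (p - 1) * p.choose 2 := by
    rw [Set.ncard_prod, ncard_ne_zero14, Set.ncard_coe_finset, Finset.card_powersetCard,
      Finset.card_univ, ZMod.card]
  rw [← h1]
  apply Set.ncard_le_ncard_of_injOn
    (fun x : ZMod p × Finset (ZMod p) => coeffs14 2 (C x.1 * ∏ z ∈ x.2, (X - C z)))
  · rintro ⟨u, s⟩ ⟨hu, hs⟩
    simp only at hu hs
    rw [Finset.mem_coe, Finset.mem_powersetCard] at hs
    obtain ⟨z, z', hzz, rfl⟩ := Finset.card_eq_two.1 hs.2
    refine ⟨u, z, z', hu, hzz, ?_⟩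
    change polyOf8 (coeffs14 2 _) = _
    rw [polyOf_coeffs14 (hdeg u _ hu hs.2), Finset.prod_pair hzz]
    ring
  · rintro ⟨u, s⟩ ⟨hu, hs⟩ ⟨u', s'⟩ ⟨hu', hs'⟩ h
    simp only at hu hs hu' hs' h
    rw [Finset.mem_coe, Finset.mem_powersetCard] at hs hs'
    have h2 := coeffs_inj14 (hdeg u s hu hs.2).le (hdeg u' s' hu' hs'.2).le h
    have h3 := congrArg leadingCoeff h2
    rw [leadingCoeff_mul, leadingCoeff_C, (monic_prod_X_sub_C (fun z => z) s).leadingCoeff, mul_one,
      leadingCoeff_mul, leadingCoeff_C, (monic_prod_X_sub_C (fun z => z) s').leadingCoeff,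
      mul_one] at h3
    subst h3
    have h4 := mul_left_cancel₀ (C_ne_zero.mpr hu) h2
    have h5 := congrArg roots h4
    rw [roots_prod_X_sub_C, roots_prod_X_sub_C] at h5
    rw [Prod.mk.injEq]
    exact ⟨rfl, Finset.val_injective h5⟩

theorem count_typeL [Fintype ι] (hn : 2 ≤ n) {a b : ι} (hab : a ≠ b) :
    ∃ (P₀ : ℕ) (c : ℝ), 0 < c ∧ ∀ p : ℕ, p.Prime → P₀ ≤ p →
      c * (p : ℝ) ^ Fintype.card (ι × Fin (n + 1)) ≤
        ({w : ι × Fin (n + 1) → ZMod p | TypeLz p a b w}).ncard := by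
  rcases eq_or_lt_of_le hn with h2 | h3
  · subst h2
    refine ⟨3, 1 / 9, by norm_num, fun p hp hp3 => ?_⟩
    have : Fact p.Prime := ⟨hp⟩
    refine lift_count_h4 (n := 2) p hab {v : Fin (2 + 1) → ZMod p | ∃ (u z z' : ZMod p), u ≠ 0 ∧ z ≠ z' ∧
      polyOf8 v = (X - C z) * (C u * (X - C z'))} _ (1 / 9) ?_ ?_
    · have h4 := count_quad_h4 p
      have h5 : (((p - 1) * p.choose 2 : ℕ) : ℝ) = ((p : ℝ) - 1) * (p * (p - 1) / 2) := by
        rw [Nat.cast_mul, Nat.cast_choose_two, Nat.cast_sub (by omega), Nat.cast_one]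
      have h6 : ((p : ℝ) - 1) * (p * (p - 1) / 2) ≤
          (({v : Fin (2 + 1) → ZMod p | ∃ (u z z' : ZMod p), u ≠ 0 ∧ z ≠ z' ∧
            polyOf8 v = (X - C z) * (C u * (X - C z'))}).ncard : ℝ) := by
        rw [← h5]
        exact_mod_cast h4
      refine le_trans ?_ h6
      have hpR : (3 : ℝ) ≤ p := by exact_mod_cast hp3
      have h7 : (2 / 3 * (p : ℝ)) ≤ p - 1 := by linarith
      have h8 : (2 / 3 * (p : ℝ)) * (2 / 3 * p) ≤ (p - 1) * (p - 1) :=
        mul_le_mul h7 h7 (by positivity) (by linarith)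
      have h9 := mul_le_mul_of_nonneg_left h8 (by positivity : (0 : ℝ) ≤ (p : ℝ) / 2)
      have h10 : (0 : ℝ) ≤ (p : ℝ) ^ 3 := by positivity
      have h11 : (p : ℝ) / 2 * (2 / 3 * (p : ℝ) * (2 / 3 * p)) = 2 / 9 * (p : ℝ) ^ 3 := by ring
      have h12 : (p : ℝ) / 2 * ((p - 1) * (p - 1)) = ((p : ℝ) - 1) * (p * (p - 1) / 2) := by ring
      rw [h11, h12] at h9
      norm_num
      linarith
    · rintro w ⟨u, z, z', hu, hzz, he⟩
      rw [← gdif_eq_polyOf_h4] at he
      have hc : (gdif w a b).coeff 2 = u := by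
        rw [he]
        have : ((X - C z) * (C u * (X - C z')) : (ZMod p)[X]) =
            C u * X ^ 2 + C (-(u * (z + z'))) * X + C (u * z * z') := by
          simp only [C_neg, C_mul, C_add]
          ring
        rw [this]
        simp
      refine ⟨?_, z, C u * (X - C z'), ?_, ?_, he⟩
      · intro h0
        apply hu
        rw [← hc]
        have := gdif_coeff w a b (Fin.last 2)
        rw [h0, sub_self] at this
        exact this
      · have hu' : IsUnit (C u : (ZMod p)[X]) := isUnit_C.mpr (isUnit_iff_ne_zero.mpr hu)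
        rw [irreducible_isUnit_mul hu']
        exact irreducible_X_sub_C z'
      · rw [eval_mul, eval_C, eval_sub, eval_X, eval_C]
        exact mul_ne_zero hu (sub_ne_zero.2 hzz)
  · obtain ⟨c, hc, P₀, hP⟩ := count_typeBX14 n h3
    refine ⟨P₀, c, hc, fun p hp hpP => ?_⟩
    have : Fact p.Prime := ⟨hp⟩
    refine lift_count_h4 (n := n) p hab _ _ c (hP p ⟨hp⟩ hpP) ?_
    rintro w ⟨z, D, he, hirr, hD, hn'⟩
    rw [← gdif_eq_polyOf_h4] at he hn'
    refine ⟨?_, z, D, hirr, ?_, he⟩
    · intro h0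
      have h4 := gdif_coeff w a b (Fin.last n)
      rw [h0, sub_self, Fin.val_last] at h4
      have h5 : (gdif w a b).leadingCoeff = 0 := by
        rw [leadingCoeff, hn', h4]
      rw [leadingCoeff_eq_zero] at h5
      rw [h5, natDegree_zero] at hn'
      omega
    · intro h0
      have h4 : D.natDegree = 1 := natDegree_eq_of_degree_eq_some
        (degree_eq_one_of_irreducible_of_root hirr h0)
      omega

end

end Pool.Agent.Lib.MP_89bcae_ag

end

section

/-!
# Almost all families are good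

As `prjDensity14` in LPrjA14.lean (copy the end of its proof): `density_crtB7` for every condition, with
`M p = p ^ 2` and proportions `(1 / 4) / p` for the types B and D (`sum_residue_unbounded14` with
`q = 1`), and with `M p = p` and constant proportions for the types I and L; then finite unions.
-/

open Polynomial Filter Topology

open scoped Classical

namespace Pool.Agent.Lib.MP_89bcae_ag

variable {ι : Type} [Fintype ι] {n : ℕ}

/-- One condition of density one (for `P` a property of `v` and of a prime, with residue classes). -/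
theorem density_prime (e : ι × Fin (n + 1) ≃ Fin (Fintype.card (ι × Fin (n + 1))))
    (M : ℕ → ℕ) (hM : ∀ p : ℕ, p.Prime → M p = p ∨ M p = p ^ 2)
    (D : ∀ p : ℕ, Set (ι × Fin (n + 1) → ZMod (M p))) (P₀ : ℕ) (c : ℝ) (hc : 0 < c)
    (hD : ∀ p : ℕ, p.Prime → P₀ ≤ p →
      c / p * ((M p : ℕ) : ℝ) ^ Fintype.card (ι × Fin (n + 1)) ≤ (D p).ncard)
    (P : (ι × Fin (n + 1) → ℤ) → Prop)
    (hP : ∀ v, ∀ p : ℕ, p.Prime → (fun c => (v c : ZMod (M p))) ∈ D p → P v) :
    Tendsto (fun H : ℕ => ({a : Fin (Fintype.card (ι × Fin (n + 1))) → ℤ | (∀ i, |a i| ≤ H) ∧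
      ¬ P (a ∘ e)}.ncard : ℝ) / (2 * H + 1) ^ Fintype.card (ι × Fin (n + 1))) atTop (𝓝 0) := by
  have hcopM : ∀ p ∈ {p : ℕ | p.Prime ∧ P₀ ≤ p}, ∀ q ∈ {p : ℕ | p.Prime ∧ P₀ ≤ p}, p ≠ q →
      Nat.Coprime (M p) (M q) := by
    intro p hp q hq hpq
    have h1 : Nat.Coprime p q := (Nat.coprime_primes hp.1 hq.1).mpr hpq
    rcases hM p hp.1 with h2 | h2 <;> rcases hM q hq.1 with h3 | h3 <;> rw [h2, h3]
    · exact h1
    · exact Nat.Coprime.pow_right 2 h1
    · exact Nat.Coprime.pow_left 2 h1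
    · exact Nat.Coprime.pow 2 2 h1
  refine density_crtB7 (Fintype.card (ι × Fin (n + 1))) M
    (fun p => {w | (fun x => w (e x)) ∈ D p}) (fun p => c / p)
    {p : ℕ | p.Prime ∧ P₀ ≤ p} ?_ hcopM ?_ ?_ (fun a => P (a ∘ e)) ?_
  · intro p hp
    rcases hM p hp.1 with h2 | h2 <;> rw [h2]
    · exact hp.1.pos
    · exact pow_pos hp.1.pos 2
  · intro T
    obtain ⟨S, hS1, hS2⟩ := sum_primes_unbounded7 hc P₀ T
    exact ⟨S, hS1, hS2⟩
  · intro p hp
    have h1 : ({w : Fin (Fintype.card (ι × Fin (n + 1))) → ZMod (M p) |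
        (fun x => w (e x)) ∈ D p}).ncard = (D p).ncard := by
      refine Set.ncard_congr (fun w _ x => w (e x)) (fun w hw => hw) ?_ ?_
      · intro w w' _ _ h
        funext i
        have h2 := congrFun h (e.symm i)
        simpa using h2
      · intro u hu
        refine ⟨fun i => u (e.symm i), ?_, ?_⟩
        · show (fun x => u (e.symm (e x))) ∈ D p
          simpa using hu
        · funext x
          simp
    show c / p * ((M p : ℕ) : ℝ) ^ Fintype.card (ι × Fin (n + 1)) ≤ _
    rw [h1]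
    exact hD p hp.1 hp.2
  · intro a p hp ha
    exact hP (a ∘ e) p hp.1 ha

/-- The box, as a set of functions on a finite type, has `(2 H + 1) ^ card` elements. -/
theorem box_ncard_h15 {κ : Type} [Fintype κ] (H : ℕ) :
    ({v : κ → ℤ | ∀ i, |v i| ≤ H}).Finite ∧
      (({v : κ → ℤ | ∀ i, |v i| ≤ H}).ncard : ℝ) = (2 * H + 1) ^ Fintype.card κ := by
  have h1 : {v : κ → ℤ | ∀ i, |v i| ≤ H} =
      ((Fintype.piFinset fun _ : κ => Finset.Icc (-(H : ℤ)) H : Finset (κ → ℤ)) :
        Set (κ → ℤ)) := by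
    ext v
    simp only [Set.mem_ofPred_eq, Finset.mem_coe, Fintype.mem_piFinset, Finset.mem_Icc, abs_le]
  rw [h1]
  refine ⟨Finset.finite_toSet _, ?_⟩
  rw [Set.ncard_coe_finset, Fintype.card_piFinset]
  simp only [Int.card_Icc, Finset.prod_const, Finset.card_univ]
  have h2 : ((H : ℤ) + 1 - -(H : ℤ)).toNat = 2 * H + 1 := by omega
  rw [h2]
  push_cast
  rfl

/-- One condition, for the functions on `ι × Fin (n + 1)`. -/
theorem density_transfer_h15 (e : ι × Fin (n + 1) ≃ Fin (Fintype.card (ι × Fin (n + 1))))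
    (P : (ι × Fin (n + 1) → ℤ) → Prop) (H : ℕ) :
    ({a : Fin (Fintype.card (ι × Fin (n + 1))) → ℤ | (∀ i, |a i| ≤ H) ∧ ¬ P (a ∘ e)}).ncard =
      ({v : ι × Fin (n + 1) → ℤ | (∀ i, |v i| ≤ H) ∧ ¬ P v}).ncard := by
  have h1 : {v : ι × Fin (n + 1) → ℤ | (∀ i, |v i| ≤ H) ∧ ¬ P v} =
      (fun a : Fin (Fintype.card (ι × Fin (n + 1))) → ℤ => a ∘ e) ''
        {a | (∀ i, |a i| ≤ H) ∧ ¬ P (a ∘ e)} := by
    ext v
    simp only [Set.mem_ofPred_eq, Set.mem_image]
    constructor
    · rintro ⟨h2, h3⟩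
      refine ⟨v ∘ e.symm, ⟨fun i => h2 _, ?_⟩, ?_⟩
      · have h4 : (v ∘ e.symm) ∘ e = v := by
          funext x
          simp
        rw [h4]
        exact h3
      · funext x
        simp
    · rintro ⟨a, ⟨h2, h3⟩, rfl⟩
      exact ⟨fun i => h2 _, h3⟩
  rw [h1, Set.ncard_image_of_injective]
  intro a b hab
  funext i
  have h2 := congrFun hab (e.symm i)
  simpa using h2

/-- **Almost all families are good.** -/
theorem density_goodG (hn : 2 ≤ n) :
    Tendsto (fun H : ℕ => ({v : ι × Fin (n + 1) → ℤ | (∀ i, |v i| ≤ H) ∧ GoodG v}.ncard : ℝ) /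
      (2 * H + 1) ^ Fintype.card (ι × Fin (n + 1))) atTop (𝓝 1) := by
  let e : ι × Fin (n + 1) ≃ Fin (Fintype.card (ι × Fin (n + 1))) := Fintype.equivFin _
  -- the exceptional sets of one condition
  let Z : ((ι × Fin (n + 1) → ℤ) → Prop) → ℕ → ℝ := fun P H =>
    ({v : ι × Fin (n + 1) → ℤ | (∀ i, |v i| ≤ H) ∧ ¬ P v}.ncard : ℝ) /
      (2 * H + 1) ^ Fintype.card (ι × Fin (n + 1))
  have key : ∀ (M : ℕ → ℕ), (∀ p : ℕ, p.Prime → M p = p ∨ M p = p ^ 2) →
      ∀ (D : ∀ p : ℕ, Set (ι × Fin (n + 1) → ZMod (M p))) (P₀ : ℕ) (c : ℝ), 0 < c →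
      (∀ p : ℕ, p.Prime → P₀ ≤ p →
        c / p * ((M p : ℕ) : ℝ) ^ Fintype.card (ι × Fin (n + 1)) ≤ (D p).ncard) →
      ∀ P : (ι × Fin (n + 1) → ℤ) → Prop,
      (∀ v, ∀ p : ℕ, p.Prime → (fun c => (v c : ZMod (M p))) ∈ D p → P v) →
      Tendsto (Z P) atTop (𝓝 0) := by
    intro M hM D P₀ c hc hD P hP
    have h1 := density_prime e M hM D P₀ c hc hD P hP
    refine h1.congr fun H => ?_
    rw [density_transfer_h15 e P H]
  have hpos : ∀ p : ℕ, p.Prime → (1 : ℝ) ≤ p := fun p hp => by exact_mod_cast hp.one_lt.le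
  have hI : ∀ a b : ι, Tendsto (Z fun v => a ≠ b → ∃ p : ℕ, p.Prime ∧ TypeI p a b v)
      atTop (𝓝 0) := by
    intro a b
    by_cases hab : a = b
    · have h1 : ∀ H, Z (fun v => a ≠ b → ∃ p : ℕ, p.Prime ∧ TypeI p a b v) H = 0 := by
        intro H
        simp [Z, hab]
      exact tendsto_const_nhds.congr fun H => (h1 H).symm
    · obtain ⟨P₀, c, hc, h1⟩ := count_typeI (n := n) (by omega) hab
      refine key (fun p => p) (fun p _ => Or.inl rfl) (fun p => {w | TypeIz p a b w}) P₀ c hc ?_ _ ?_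
      · intro p hp hP
        refine le_trans ?_ (h1 p hp hP)
        have h2 := hpos p hp
        gcongr
        exact div_le_self hc.le h2
      · intro v p hp hv _
        exact ⟨p, hp, TypeI.of_z hv⟩
  have hL : ∀ a b : ι, Tendsto (Z fun v => a ≠ b → ∃ p : ℕ, p.Prime ∧ TypeL p a b v)
      atTop (𝓝 0) := by
    intro a b
    by_cases hab : a = b
    · have h1 : ∀ H, Z (fun v => a ≠ b → ∃ p : ℕ, p.Prime ∧ TypeL p a b v) H = 0 := by
        intro H
        simp [Z, hab]
      exact tendsto_const_nhds.congr fun H => (h1 H).symm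
    · obtain ⟨P₀, c, hc, h1⟩ := count_typeL hn hab
      refine key (fun p => p) (fun p _ => Or.inl rfl) (fun p => {w | TypeLz p a b w}) P₀ c hc ?_ _ ?_
      · intro p hp hP
        refine le_trans ?_ (h1 p hp hP)
        have h2 := hpos p hp
        gcongr
        exact div_le_self hc.le h2
      · intro v p hp hv _
        exact ⟨p, hp, TypeL.of_z hv⟩
  have hDD : ∀ a b : ι, Tendsto (Z fun v => a ≠ b → ∃ p : ℕ, p.Prime ∧ TypeD p a b v)
      atTop (𝓝 0) := by
    intro a b
    by_cases hab : a = b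
    · have h1 : ∀ H, Z (fun v => a ≠ b → ∃ p : ℕ, p.Prime ∧ TypeD p a b v) H = 0 := by
        intro H
        simp [Z, hab]
      exact tendsto_const_nhds.congr fun H => (h1 H).symm
    · obtain ⟨P₀, h1⟩ := count_typeD hn hab
      refine key (fun p => p ^ 2) (fun p _ => Or.inr rfl) (fun p => {w | TypeDz p a b w}) P₀ (1 / 4)
        (by norm_num) h1 _ ?_
      intro v p hp hv _
      exact ⟨p, hp, TypeD.of_z hp hv⟩
  have hB : ∀ i j l : ι, Tendsto (Z fun v => i ≠ j → j ≠ l → i ≠ l →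
      ∃ p : ℕ, p.Prime ∧ TypeB p i j l v) atTop (𝓝 0) := by
    intro i j l
    by_cases h : i ≠ j ∧ j ≠ l ∧ i ≠ l
    · obtain ⟨hij, hjl, hil⟩ := h
      obtain ⟨P₀, h1⟩ := count_typeB hn hij hjl hil
      refine key (fun p => p ^ 2) (fun p _ => Or.inr rfl) (fun p => {w | TypeBz p i j l w}) P₀
        (1 / 4) (by norm_num) h1 _ ?_
      intro v p hp hv _ _ _
      exact ⟨p, hp, TypeB.of_z hp hv⟩
    · have h1 : ∀ H, Z (fun v => i ≠ j → j ≠ l → i ≠ l →
          ∃ p : ℕ, p.Prime ∧ TypeB p i j l v) H = 0 := by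
        intro H
        have h2 : {v : ι × Fin (n + 1) → ℤ | (∀ i, |v i| ≤ H) ∧ ¬ (i ≠ j → j ≠ l → i ≠ l →
            ∃ p : ℕ, p.Prime ∧ TypeB p i j l v)} = ∅ := by
          ext v
          simp only [Set.mem_ofPred_eq, Set.mem_empty_iff_false, iff_false, not_and, not_not]
          intro _ h3 h4 h5
          exact absurd ⟨h3, h4, h5⟩ h
        simp only [Z, h2, Set.ncard_empty, Nat.cast_zero, zero_div]
      exact tendsto_const_nhds.congr fun H => (h1 H).symm
  -- the exceptional set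
  have hbad : Tendsto (Z GoodG) atTop (𝓝 0) := by
    have hsum : Tendsto (fun H => (∑ x : ι × ι, Z (fun v => x.1 ≠ x.2 →
          ∃ p : ℕ, p.Prime ∧ TypeI p x.1 x.2 v) H) + (∑ x : ι × ι, Z (fun v => x.1 ≠ x.2 →
          ∃ p : ℕ, p.Prime ∧ TypeL p x.1 x.2 v) H) + (∑ x : ι × ι, Z (fun v => x.1 ≠ x.2 →
          ∃ p : ℕ, p.Prime ∧ TypeD p x.1 x.2 v) H) + ∑ x : ι × ι × ι, Z (fun v => x.1 ≠ x.2.1 →
          x.2.1 ≠ x.2.2 → x.1 ≠ x.2.2 → ∃ p : ℕ, p.Prime ∧ TypeB p x.1 x.2.1 x.2.2 v) H)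
        atTop (𝓝 0) := by
      have h1 := ((((tendsto_finsetSum Finset.univ fun (x : ι × ι) _ => hI x.1 x.2).add
        (tendsto_finsetSum Finset.univ fun (x : ι × ι) _ => hL x.1 x.2)).add
        (tendsto_finsetSum Finset.univ fun (x : ι × ι) _ => hDD x.1 x.2)).add
        (tendsto_finsetSum Finset.univ fun (x : ι × ι × ι) _ => hB x.1 x.2.1 x.2.2))
      simpa using h1
    refine squeeze_zero (fun H => by positivity) (fun H => ?_) hsum
    have hfin : ∀ P : (ι × Fin (n + 1) → ℤ) → Prop,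
        ({v : ι × Fin (n + 1) → ℤ | (∀ i, |v i| ≤ H) ∧ ¬ P v}).Finite := fun P =>
      (box_ncard_h15 H).1.subset fun v hv => hv.1
    have hsub : {v : ι × Fin (n + 1) → ℤ | (∀ i, |v i| ≤ H) ∧ ¬ GoodG v} ⊆
        (⋃ x ∈ (Finset.univ : Finset (ι × ι)), {v : ι × Fin (n + 1) → ℤ | (∀ i, |v i| ≤ H) ∧
          ¬ (x.1 ≠ x.2 → ∃ p : ℕ, p.Prime ∧ TypeI p x.1 x.2 v)}) ∪
        (⋃ x ∈ (Finset.univ : Finset (ι × ι)), {v : ι × Fin (n + 1) → ℤ | (∀ i, |v i| ≤ H) ∧
          ¬ (x.1 ≠ x.2 → ∃ p : ℕ, p.Prime ∧ TypeL p x.1 x.2 v)}) ∪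
        (⋃ x ∈ (Finset.univ : Finset (ι × ι)), {v : ι × Fin (n + 1) → ℤ | (∀ i, |v i| ≤ H) ∧
          ¬ (x.1 ≠ x.2 → ∃ p : ℕ, p.Prime ∧ TypeD p x.1 x.2 v)}) ∪
        (⋃ x ∈ (Finset.univ : Finset (ι × ι × ι)), {v : ι × Fin (n + 1) → ℤ |
          (∀ i, |v i| ≤ H) ∧ ¬ (x.1 ≠ x.2.1 → x.2.1 ≠ x.2.2 → x.1 ≠ x.2.2 →
            ∃ p : ℕ, p.Prime ∧ TypeB p x.1 x.2.1 x.2.2 v)}) := by
      rintro v ⟨hv1, hv2⟩
      by_contra hcon
      apply hv2
      simp only [Set.mem_union, Set.mem_iUnion, Finset.mem_univ, exists_prop, true_and,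
        Set.mem_ofPred_eq, not_or, not_exists, not_and, not_not] at hcon
      obtain ⟨⟨⟨h1, h2⟩, h3⟩, h4⟩ := hcon
      exact ⟨fun a b hab => h1 (a, b) hv1 hab, fun a b hab => h2 (a, b) hv1 hab,
        fun a b hab => h3 (a, b) hv1 hab, fun i j l hij hjl hil => h4 (i, j, l) hv1 hij hjl hil⟩
    have hfinU : ∀ {κ : Type} [Fintype κ] (P : κ → (ι × Fin (n + 1) → ℤ) → Prop),
        (⋃ x ∈ (Finset.univ : Finset κ), {v : ι × Fin (n + 1) → ℤ | (∀ i, |v i| ≤ H) ∧
          ¬ P x v}).Finite := fun P => Finset.univ.finite_toSet.biUnion fun x _ => hfin (P x)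
    have hcardU : ∀ {κ : Type} [Fintype κ] (P : κ → (ι × Fin (n + 1) → ℤ) → Prop),
        ((⋃ x ∈ (Finset.univ : Finset κ), {v : ι × Fin (n + 1) → ℤ | (∀ i, |v i| ≤ H) ∧
          ¬ P x v}).ncard : ℝ) ≤ ∑ x : κ, (({v : ι × Fin (n + 1) → ℤ | (∀ i, |v i| ≤ H) ∧
          ¬ P x v}).ncard : ℝ) := by
      intro κ _ P
      exact_mod_cast Finset.set_ncard_biUnion_le _ _
    have hdiv : ∀ {κ : Type} [Fintype κ] (P : κ → (ι × Fin (n + 1) → ℤ) → Prop),
        ∑ x : κ, Z (P x) H = (∑ x : κ, (({v : ι × Fin (n + 1) → ℤ | (∀ i, |v i| ≤ H) ∧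
          ¬ P x v}).ncard : ℝ)) / (2 * H + 1) ^ Fintype.card (ι × Fin (n + 1)) := by
      intro κ _ P
      rw [Finset.sum_div]
    rw [hdiv (fun (x : ι × ι) v => x.1 ≠ x.2 → ∃ p : ℕ, p.Prime ∧ TypeI p x.1 x.2 v),
      hdiv (fun (x : ι × ι) v => x.1 ≠ x.2 → ∃ p : ℕ, p.Prime ∧ TypeL p x.1 x.2 v),
      hdiv (fun (x : ι × ι) v => x.1 ≠ x.2 → ∃ p : ℕ, p.Prime ∧ TypeD p x.1 x.2 v),
      hdiv (fun (x : ι × ι × ι) v => x.1 ≠ x.2.1 → x.2.1 ≠ x.2.2 → x.1 ≠ x.2.2 →
        ∃ p : ℕ, p.Prime ∧ TypeB p x.1 x.2.1 x.2.2 v), ← add_div, ← add_div, ← add_div]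
    refine div_le_div_of_nonneg_right ?_ (by positivity)
    have h5 := Set.ncard_le_ncard hsub (((((hfinU _).union (hfinU _)).union (hfinU _)).union
      (hfinU fun (x : ι × ι × ι) v => x.1 ≠ x.2.1 → x.2.1 ≠ x.2.2 → x.1 ≠ x.2.2 →
        ∃ p : ℕ, p.Prime ∧ TypeB p x.1 x.2.1 x.2.2 v)))
    have h6 : ∀ A B C D : Set (ι × Fin (n + 1) → ℤ), (A ∪ B ∪ C ∪ D).ncard ≤
        A.ncard + B.ncard + C.ncard + D.ncard := by
      intro A B C D
      have := Set.ncard_union_le (A ∪ B ∪ C) D
      have := Set.ncard_union_le (A ∪ B) C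
      have := Set.ncard_union_le A B
      omega
    have h7 : (({v : ι × Fin (n + 1) → ℤ | (∀ i, |v i| ≤ H) ∧ ¬ GoodG v}.ncard : ℕ) : ℝ) ≤ _ :=
      Nat.cast_le.2 (h5.trans (h6 _ _ _ _))
    refine h7.trans ?_
    push_cast
    gcongr
    · exact hcardU (fun (x : ι × ι) v => x.1 ≠ x.2 → ∃ p : ℕ, p.Prime ∧ TypeI p x.1 x.2 v)
    · exact hcardU (fun (x : ι × ι) v => x.1 ≠ x.2 → ∃ p : ℕ, p.Prime ∧ TypeL p x.1 x.2 v)
    · exact hcardU (fun (x : ι × ι) v => x.1 ≠ x.2 → ∃ p : ℕ, p.Prime ∧ TypeD p x.1 x.2 v)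
    · exact hcardU (fun (x : ι × ι × ι) v => x.1 ≠ x.2.1 → x.2.1 ≠ x.2.2 → x.1 ≠ x.2.2 →
        ∃ p : ℕ, p.Prime ∧ TypeB p x.1 x.2.1 x.2.2 v)
  have hfinal : ∀ H : ℕ, ({v : ι × Fin (n + 1) → ℤ | (∀ i, |v i| ≤ H) ∧ GoodG v}.ncard : ℝ) /
      (2 * H + 1) ^ Fintype.card (ι × Fin (n + 1)) = 1 - Z GoodG H := by
    intro H
    obtain ⟨h1, h2⟩ := box_ncard_h15 (κ := ι × Fin (n + 1)) H
    have h3 : {v : ι × Fin (n + 1) → ℤ | ∀ i, |v i| ≤ H} =
        {v : ι × Fin (n + 1) → ℤ | (∀ i, |v i| ≤ H) ∧ GoodG v} ∪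
        {v : ι × Fin (n + 1) → ℤ | (∀ i, |v i| ≤ H) ∧ ¬ GoodG v} := by
      ext v
      simp only [Set.mem_ofPred_eq, Set.mem_union]
      tauto
    have h4 : Disjoint {v : ι × Fin (n + 1) → ℤ | (∀ i, |v i| ≤ H) ∧ GoodG v}
        {v : ι × Fin (n + 1) → ℤ | (∀ i, |v i| ≤ H) ∧ ¬ GoodG v} := by
      rw [Set.disjoint_left]
      rintro v ⟨_, h5⟩ ⟨_, h6⟩
      exact h6 h5
    have h5 := Set.ncard_union_eq h4 (h1.subset fun v hv => hv.1) (h1.subset fun v hv => hv.1)
    rw [← h3] at h5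
    have h6 : (({v : ι × Fin (n + 1) → ℤ | ∀ i, |v i| ≤ H}).ncard : ℝ) =
        ({v : ι × Fin (n + 1) → ℤ | (∀ i, |v i| ≤ H) ∧ GoodG v}.ncard : ℝ) +
        ({v : ι × Fin (n + 1) → ℤ | (∀ i, |v i| ≤ H) ∧ ¬ GoodG v}.ncard : ℝ) := by
      exact_mod_cast h5
    rw [h2] at h6
    have h7 : (0 : ℝ) < (2 * H + 1) ^ Fintype.card (ι × Fin (n + 1)) := by positivity
    simp only [Z]
    rw [eq_sub_iff_add_eq, ← add_div, ← h6, div_self h7.ne']
  simp_rw [hfinal]
  have h8 := hbad.const_sub 1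
  rwa [sub_zero] at h8

end Pool.Agent.Lib.MP_89bcae_ag

end
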