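import Mathlib
import Pool.Agent.Lib.MP_89bcae_ag.Mk.K048

namespace Pool.Agent.Lib.MP_89bcae_ag.Superelliptic
end Pool.Agent.Lib.MP_89bcae_ag.Superelliptic

section

/-!
# The roots of the differences
-/

open Polynomial

open scoped Classical

namespace Pool.Agent.Lib.MP_89bcae_ag

open Superelliptic

variable {ι : Type} {n : ℕ} {F : Type} [Field F] [Algebra ℚ F]

/-- (`natDegree_eq_of_le_of_coeff_ne_zero`, `gdif_coeff`.) -/
theorem gdif_natDegree {v : ι × Fin (n + 1) → ℤ} {a b : ι}
    (h : v (a, Fin.last n) ≠ v (b, Fin.last n)) : (gdif v a b).natDegree = n := by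
  refine natDegree_eq_of_le_of_coeff_ne_zero (gdif_natDegree_le v a b) ?_
  have h1 := gdif_coeff v a b (Fin.last n)
  rw [Fin.val_last] at h1
  rw [h1]
  exact sub_ne_zero.mpr h

theorem gdif_leadingCoeff {v : ι × Fin (n + 1) → ℤ} {a b : ι}
    (h : v (a, Fin.last n) ≠ v (b, Fin.last n)) :
    (gdif v a b).leadingCoeff = v (a, Fin.last n) - v (b, Fin.last n) := by
  have h1 := gdif_coeff v a b (Fin.last n)
  rw [Fin.val_last] at h1
  rw [leadingCoeff, gdif_natDegree h, h1]

theorem gdif_map_rat (v : ι × Fin (n + 1) → ℤ) (a b : ι) :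
    (gdif v a b).map (Int.castRingHom ℚ) = gpolQ v a - gpolQ v b := by
  rw [gdif_map]
  rfl

theorem aeval_gdif (v : ι × Fin (n + 1) → ℤ) (a b : ι) (s : F) :
    aeval s (gdif v a b) = aeval s (gpolQ v a) - aeval s (gpolQ v b) := by
  rw [← map_sub, ← gdif_map_rat, ← algebraMap_int_eq, aeval_map_algebraMap]

theorem aeval_derivative_gdif (v : ι × Fin (n + 1) → ℤ) (a b : ι) (s : F) :
    aeval s (derivative (gdif v a b)) = aeval s (derivative (gpolQ v a - gpolQ v b)) := by
  rw [← gdif_map_rat, derivative_map, ← algebraMap_int_eq, aeval_map_algebraMap]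

/-- A polynomial with integral coefficients whose leading coefficient is prime to `p`, and a
polynomial prime to it modulo `p`, are coprime over `ℚ`: the resultant is not divisible by `p`. -/
private theorem isCoprime_of_red_h71 {p : ℕ} (hp : p.Prime) {f g : ℤ[X]}
    (hf : ¬ (p : ℤ) ∣ f.leadingCoeff)
    (hc : IsCoprime (f.map (Int.castRingHom (ZMod p))) (g.map (Int.castRingHom (ZMod p)))) :
    IsCoprime (f.map (Int.castRingHom ℚ)) (g.map (Int.castRingHom ℚ)) := by
  have : Fact p.Prime := ⟨hp⟩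
  set φ := Int.castRingHom (ZMod p) with hφ
  have hlc : φ f.leadingCoeff ≠ 0 := by
    intro h0
    apply hf
    exact (ZMod.intCast_zmod_eq_zero_iff_dvd _ _).1 h0
  have hdf : (f.map φ).natDegree = f.natDegree :=
    natDegree_map_of_leadingCoeff_ne_zero φ hlc
  have hf0 : f ≠ 0 := by
    rintro rfl
    exact hf (by rw [leadingCoeff_zero]; exact dvd_zero _)
  -- the resultant is not zero modulo `p`
  have hr : resultant f g ≠ 0 := by
    intro h0
    have h1 : resultant (f.map φ) (g.map φ) f.natDegree g.natDegree = 0 := by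
      rw [resultant_map_map]
      have h2 : resultant f g f.natDegree g.natDegree = 0 := h0
      rw [h2, map_zero]
    obtain ⟨k, hk⟩ := Nat.exists_eq_add_of_le (natDegree_map_le (f := φ) (p := g))
    rw [hk, resultant_add_right_deg _ _ _ _ k le_rfl, coeff_map] at h1
    rcases mul_eq_zero.1 h1 with h2 | h2
    · exact pow_ne_zero k hlc h2
    · rw [← hdf] at h2
      exact resultant_ne_zero _ _ hc h2
  have hQ : resultant (f.map (Int.castRingHom ℚ)) (g.map (Int.castRingHom ℚ)) ≠ 0 := by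
    have hinj : Function.Injective (Int.castRingHom ℚ) := RingHom.injective_int _
    have h1 : resultant (f.map (Int.castRingHom ℚ)) (g.map (Int.castRingHom ℚ)) =
        Int.castRingHom ℚ (resultant f g) := by
      rw [← resultant_map_map]
      rw [natDegree_map_eq_of_injective hinj, natDegree_map_eq_of_injective hinj]
    rw [h1]
    intro h2
    exact hr (hinj (by rw [h2, map_zero]))
  by_contra hcon
  apply hQ
  rw [resultant_eq_zero_iff]
  refine ⟨Or.inl ?_, hcon⟩
  intro h1
  apply hf0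
  exact (Polynomial.map_eq_zero_iff (RingHom.injective_int _)).1 h1

private theorem gdif_leadingCoeff_h71 {v : ι × Fin (n + 1) → ℤ} {p : ℕ} {a b : ι}
    (h : ¬ (p : ℤ) ∣ v (a, Fin.last n) - v (b, Fin.last n)) :
    ¬ (p : ℤ) ∣ (gdif v a b).leadingCoeff := by
  have h1 : (gdif v a b).coeff n = v (a, Fin.last n) - v (b, Fin.last n) :=
    gdif_coeff v a b (Fin.last n)
  have h2 : (gdif v a b).natDegree = n := by
    refine natDegree_eq_of_le_of_coeff_ne_zero (gdif_natDegree_le v a b) ?_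
    rw [h1]
    intro h3
    exact h (by rw [h3]; exact dvd_zero _)
  rw [← coeff_natDegree, h2, h1]
  exact h

private theorem gdif_map_rat_h71 (v : ι × Fin (n + 1) → ℤ) (a b : ι) :
    (gdif v a b).map (Int.castRingHom ℚ) = gpolQ v a - gpolQ v b := by
  rw [gdif_map]
  rfl

/-- (From modulo `p` to `ℚ`: the discriminant, `Polynomial.resultant`, or a Bezout relation; see
`separable_of_red14` in SpecB14.lean or TypA14.lean.) -/
theorem separable_of_gred {v : ι × Fin (n + 1) → ℤ} {p : ℕ} (hp : p.Prime) {a b : ι}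
    (h : ¬ (p : ℤ) ∣ v (a, Fin.last n) - v (b, Fin.last n)) (hs : (gred p v a b).Separable) :
    (gpolQ v a - gpolQ v b).Separable := by
  rw [← gdif_map_rat_h71, Polynomial.Separable, derivative_map]
  refine isCoprime_of_red_h71 hp (gdif_leadingCoeff_h71 h) ?_
  rw [← derivative_map]
  exact hs

/-- (A common root in `F` of two polynomials whose leading coefficients are prime to `p` gives a
common factor modulo `p`; or `Polynomial.resultant_map_map` and `Polynomial.resultant_eq_zero_iff`.) -/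
theorem isCoprime_of_gred {v : ι × Fin (n + 1) → ℤ} {p : ℕ} (hp : p.Prime) {a b c d : ι}
    (h : ¬ (p : ℤ) ∣ v (a, Fin.last n) - v (b, Fin.last n))
    (h' : ¬ (p : ℤ) ∣ v (c, Fin.last n) - v (d, Fin.last n))
    (hs : IsCoprime (gred p v a b) (gred p v c d)) :
    IsCoprime (gpolQ v a - gpolQ v b) (gpolQ v c - gpolQ v d) := by
  rw [← gdif_map_rat_h71, ← gdif_map_rat_h71]
  exact isCoprime_of_red_h71 hp (gdif_leadingCoeff_h71 h) hs

/-- The set of the roots of a separable difference. -/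
theorem exists_roots [IsAlgClosure ℚ F] {v : ι × Fin (n + 1) → ℤ} {a b : ι}
    (hsep : (gpolQ v a - gpolQ v b).Separable) :
    ∃ R : Finset F, (∀ s, s ∈ R ↔ aeval s (gpolQ v a) = aeval s (gpolQ v b)) ∧
      (gdif v a b).map (algebraMap ℤ F) =
        C (algebraMap ℤ F (gdif v a b).leadingCoeff) * ∏ s ∈ R, (X - C s) := by
  have _ : IsAlgClosed F := IsAlgClosure.isAlgClosed ℚ
  have _ : CharZero F := algebraRat.charZero F
  set f := gpolQ v a - gpolQ v b with hf
  have hf0 : f ≠ 0 := hsep.ne_zero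
  have hm0 : f.map (algebraMap ℚ F) ≠ 0 := by
    rw [Polynomial.map_ne_zero_iff (algebraMap ℚ F).injective]
    exact hf0
  have hnd : (f.map (algebraMap ℚ F)).roots.Nodup := nodup_roots hsep.map
  have hmap : (gdif v a b).map (algebraMap ℤ F) = f.map (algebraMap ℚ F) := by
    rw [hf, ← gdif_map_rat, Polynomial.map_map, ← algebraMap_int_eq,
      ← IsScalarTower.algebraMap_eq]
  refine ⟨(f.map (algebraMap ℚ F)).roots.toFinset, ?_, ?_⟩
  · intro s
    rw [Multiset.mem_toFinset, mem_roots hm0, IsRoot.def, eval_map_algebraMap, hf, map_sub,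
      sub_eq_zero]
  · have hsplit : (f.map (algebraMap ℚ F)).Splits := IsAlgClosed.splits _
    have h1 := hsplit.eq_prod_roots
    have h2 : (f.map (algebraMap ℚ F)).leadingCoeff =
        algebraMap ℤ F (gdif v a b).leadingCoeff := by
      rw [← hmap, leadingCoeff_map_of_injective]
      exact (algebraMap ℤ F).injective_int
    rw [hmap]
    conv_lhs => rw [h1]
    rw [h2, Finset.prod_multiset_map_count]
    congr 1
    refine Finset.prod_congr rfl fun s hs => ?_
    rw [Multiset.mem_toFinset] at hs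
    rw [Multiset.count_eq_one_of_mem hnd hs, pow_one]

theorem nodes_gpolQ_finite [Finite ι] {v : ι × Fin (n + 1) → ℤ}
    (h : ∀ a b, a ≠ b → gpolQ v a ≠ gpolQ v b) : (nodes ℚ F (gpolQ v)).Finite := by
  have h1 : nodes ℚ F (gpolQ v) ⊆ ⋃ x : {x : ι × ι // x.1 ≠ x.2},
      ((gpolQ v x.1.1 - gpolQ v x.1.2).rootSet F) := by
    rintro s ⟨a, b, hab, hs⟩
    rw [Set.mem_iUnion]
    refine ⟨⟨(a, b), hab⟩, ?_⟩
    rw [mem_rootSet]
    refine ⟨sub_ne_zero.mpr (h a b hab), ?_⟩
    rw [map_sub, sub_eq_zero]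
    exact hs
  exact (Set.finite_iUnion fun x => rootSet_finite _ F).subset h1

theorem nodes_stable (α : ι → ℚ[X]) (σ : F ≃ₐ[ℚ] F) : ∀ s ∈ nodes ℚ F α, σ s ∈ nodes ℚ F α := by
  rintro s ⟨a, b, hab, hs⟩
  refine ⟨a, b, hab, ?_⟩
  have h1 : ∀ p : ℚ[X], aeval (σ s) p = σ (aeval s p) := fun p =>
    aeval_algHom_apply (σ : F →ₐ[ℚ] F) s p
  rw [h1, h1, hs]

end Pool.Agent.Lib.MP_89bcae_ag

end

section

/-!
# A transposition from a prime of type D

`F` is an algebraic closure of `ℚ`. Let `P` be the place of `exists_place` with `S` the set of the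
nodes (finite, stable; `Roots.lean`). All `α_c - α_d` are separable over `ℚ` (`separable_of_gred`, `hsep`);
let `R` be the set of the roots of `f = gdif v a b` (`exists_roots`).
(a) All nodes are in `P.O` (`Place.root_mem`). For `{c, d} ≠ {a, b}` the roots of `α_c - α_d` have
different reductions (`sep`).
(b) The reduction of `f` is `lc ∏_{s ∈ R} (X - red s) = (X - z) ^ 2 g` with `g(z) ≠ 0` and `g` separable:
exactly two elements `u ≠ w` of `R` reduce to `z`, and the other ones have different reductions,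
different from `z`.
(c) By `Place.ord_aeval`, `P.e = P.ord (f(z)) = ∑_{s ∈ R} P.ord (z - s) ≥ P.ord (z - u) + P.ord (z - w) ≥ 2`
(`p` divides `f(z)` exactly once; in particular `z ∉ R`). Let `σ` be as in `exists_place`: it maps a node
to a node (of the same pair) with the same reduction, hence it fixes all the roots of `α_c - α_d` for
`{c, d} ≠ {a, b}` and all the elements of `R` except `u`, `w`, and it permutes `u` and `w`; since it moves
some node, `σ(u) = w` and `σ(w) = u`.
-/

open Polynomial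

open scoped Classical

namespace Pool.Agent.Lib.MP_89bcae_ag

open Superelliptic

variable {ι : Type} [Fintype ι] {n : ℕ} {F : Type} [Field F] [Algebra ℚ F] [IsAlgClosure ℚ F]

/-- the reduction, extended by zero -/
noncomputable def swRd_h70 {p : ℕ} {K₀ : Subfield F} (P : Place p K₀) (s : F) : P.κ :=
  if hs : s ∈ P.O then P.red ⟨s, hs⟩ else 0

omit [Algebra ℚ F] [IsAlgClosure ℚ F] in
lemma swRd_eq_h70 {p : ℕ} {K₀ : Subfield F} (P : Place p K₀) {s : F} (hs : s ∈ P.O) :
    swRd_h70 P s = P.red ⟨s, hs⟩ := by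
  unfold swRd_h70
  rw [dif_pos hs]

/-- the reduction of a product of linear factors -/
lemma swRed_h70 {p : ℕ} (hp : p.Prime) {K₀ : Subfield F} (P : Place p K₀) (f : ℤ[X])
    (R : Finset F) (hRO : ∀ s ∈ R, s ∈ P.O)
    (hfR : f.map (algebraMap ℤ F) = C (algebraMap ℤ F f.leadingCoeff) * ∏ s ∈ R, (X - C s)) :
    ∃ c : P.κ, (f.map (Int.castRingHom (ZMod p))).map (P.redp hp) =
      C c * ∏ s ∈ R, (X - C (swRd_h70 P s)) := by
  have h1 : f.map (Int.castRingHom P.O) =
      C (Int.castRingHom P.O f.leadingCoeff) *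
        ∏ s ∈ R.attach, (X - C (⟨s.1, hRO s.1 s.2⟩ : P.O)) := by
    apply Polynomial.map_injective P.O.subtype Subtype.val_injective
    rw [Polynomial.map_map, Polynomial.map_mul, Polynomial.map_prod, map_C]
    have e1 : P.O.subtype.comp (Int.castRingHom P.O) = algebraMap ℤ F := RingHom.ext_int _ _
    rw [e1, hfR]
    have e2 : P.O.subtype ((Int.castRingHom P.O) f.leadingCoeff) =
        algebraMap ℤ F f.leadingCoeff := by
      rw [← e1]
      rfl
    rw [e2, ← Finset.prod_attach]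
    congr 1
    refine Finset.prod_congr rfl fun s _ => ?_
    rw [Polynomial.map_sub, map_X, map_C]
    rfl
  refine ⟨P.red (Int.castRingHom P.O f.leadingCoeff), ?_⟩
  have h2 := congrArg (Polynomial.map P.red) h1
  rw [Polynomial.map_map, Polynomial.map_mul, Polynomial.map_prod, map_C] at h2
  have e1 : P.red.comp (Int.castRingHom P.O) =
      (P.redp hp).comp (Int.castRingHom (ZMod p)) := RingHom.ext_int _ _
  rw [e1] at h2
  rw [Polynomial.map_map, h2]
  congr 1
  rw [← Finset.prod_attach R (fun s => X - C (swRd_h70 P s))]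
  refine Finset.prod_congr rfl fun s _ => ?_
  rw [Polynomial.map_sub, map_X, map_C, swRd_eq_h70 P (hRO s.1 s.2)]

/-- counting in the fibres of a map -/
lemma swCount_h70 {A B : Type} (R : Finset A) (r : A → B) (t : B) :
    (R.filter (fun s => t = r s)).card = (R.val.map r).count t := by
  rw [Multiset.count_map]
  rfl

theorem exists_swap_typeD (v : ι × Fin (n + 1) → ℤ) {p : ℕ} (hp : p.Prime) {a b : ι}
    (hab : a ≠ b) (h : TypeD p a b v) (hsep : (gpolQ v a - gpolQ v b).Separable) :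
    ∃ (σ : F ≃ₐ[ℚ] F) (u w : F), u ≠ w ∧ aeval u (gpolQ v a) = aeval u (gpolQ v b) ∧
      aeval w (gpolQ v a) = aeval w (gpolQ v b) ∧ σ u = w ∧ σ w = u ∧
      ∀ s ∈ nodes ℚ F (gpolQ v), s ≠ u → s ≠ w → σ s = s := by
  have : Fact p.Prime := ⟨hp⟩
  have hlead : ∀ c d, c ≠ d → v (c, Fin.last n) ≠ v (d, Fin.last n) := by
    intro c d hcd he
    apply h.lead c d hcd
    rw [he, sub_self]
    exact dvd_zero _
  have hlc : ∀ c d, c ≠ d → ¬ (p : ℤ) ∣ (gdif v c d).leadingCoeff := by
    intro c d hcd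
    rw [gdif_leadingCoeff (hlead c d hcd)]
    exact h.lead c d hcd
  have hne : ∀ c d, c ≠ d → gpolQ v c ≠ gpolQ v d := by
    intro c d hcd he
    have h1 := gdif_map_rat v c d
    rw [he, sub_self] at h1
    have h2 : gdif v c d = 0 :=
      (Polynomial.map_eq_zero_iff (Int.castRingHom ℚ).injective_int).1 h1
    apply hlc c d hcd
    rw [h2, leadingCoeff_zero]
    exact dvd_zero _
  obtain ⟨P, hP⟩ := exists_place (F := F) hp (nodes ℚ F (gpolQ v)) (nodes_gpolQ_finite hne)
    (nodes_stable (gpolQ v))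
  have hzero : ∀ (c d : ι) (s : F), aeval s (gpolQ v c) = aeval s (gpolQ v d) →
      aeval s (gdif v c d) = 0 := by
    intro c d s hs
    rw [aeval_gdif, hs, sub_self]
  have hSK : ∀ s ∈ nodes ℚ F (gpolQ v),
      s ∈ (IntermediateField.adjoin ℚ (nodes ℚ F (gpolQ v))).toSubfield := fun s hs =>
    IntermediateField.subset_adjoin ℚ _ hs
  have hSO : ∀ s ∈ nodes ℚ F (gpolQ v), s ∈ P.O := by
    intro s hs
    obtain ⟨c, d, hcd, hs2⟩ := id hs
    exact P.root_mem hp (hlc c d hcd) (hSK s hs) (hzero c d s hs2)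
  obtain ⟨R, hR, hfR⟩ := exists_roots (F := F) hsep
  have hRS : ∀ s ∈ R, s ∈ nodes ℚ F (gpolQ v) := fun s hs => ⟨a, b, hab, (hR s).1 hs⟩
  have hRO : ∀ s ∈ R, s ∈ P.O := fun s hs => hSO s (hRS s hs)
  obtain ⟨z, hz1, hz2, g, hg, hgz, hgs⟩ := h.dbl
  obtain ⟨c, hc⟩ := swRed_h70 hp P (gdif v a b) R hRO hfR
  set zb : P.κ := P.redp hp (z : ZMod p) with hzb
  set gb : P.κ[X] := g.map (P.redp hp) with hgb
  have hfb : (gred p v a b).map (P.redp hp) = (X - C zb) ^ 2 * gb := by
    rw [hg, Polynomial.map_mul, Polynomial.map_pow, Polynomial.map_sub, map_X, map_C]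
  have hgbz : gb.eval zb ≠ 0 := by
    rw [hgb, hzb, eval_map, eval₂_at_apply]
    exact fun h0 => hgz ((map_eq_zero (P.redp hp)).1 h0)
  have hgb0 : gb ≠ 0 := by
    intro h0
    apply hgbz
    rw [h0, eval_zero]
  have hgbs : gb.Separable := hgs.map
  have hfb0 : (X - C zb) ^ 2 * gb ≠ 0 := mul_ne_zero (pow_ne_zero _ (X_sub_C_ne_zero _)) hgb0
  have hprod : C c * ∏ s ∈ R, (X - C (swRd_h70 P s)) = (X - C zb) ^ 2 * gb := by
    rw [← hfb, ← hc]
    rfl
  have hc0 : c ≠ 0 := by
    intro h0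
    rw [h0, C_0, zero_mul] at hprod
    exact hfb0 hprod.symm
  have hroots : R.val.map (swRd_h70 P) = 2 • {zb} + gb.roots := by
    have h1 := congrArg Polynomial.roots hprod
    rw [roots_C_mul _ hc0, roots_mul hfb0, roots_pow, roots_X_sub_C] at h1
    rw [← h1]
    have h2 := Polynomial.roots_multiset_prod_X_sub_C (R.val.map (swRd_h70 P))
    rw [Multiset.map_map] at h2
    exact h2.symm
  have hcz : (R.filter (fun s => zb = swRd_h70 P s)).card = 2 := by
    rw [swCount_h70, hroots, Multiset.count_add, Multiset.count_nsmul, Multiset.count_singleton_self]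
    have h1 : gb.roots.count zb = 0 := by
      rw [Multiset.count_eq_zero]
      intro h2
      exact hgbz ((mem_roots hgb0).1 h2)
    rw [h1]
  have hct : ∀ t, t ≠ zb → (R.filter (fun s => t = swRd_h70 P s)).card ≤ 1 := by
    intro t ht
    rw [swCount_h70, hroots, Multiset.count_add, Multiset.count_nsmul,
      Multiset.count_singleton, if_neg ht, mul_zero, zero_add]
    exact Multiset.nodup_iff_count_le_one.1 (nodup_roots hgbs) t
  obtain ⟨u, w, huw, hfil⟩ := Finset.card_eq_two.1 hcz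
  have hu : u ∈ R ∧ zb = swRd_h70 P u := by
    have : u ∈ R.filter (fun s => zb = swRd_h70 P s) := by rw [hfil]; simp
    exact Finset.mem_filter.1 this
  have hw : w ∈ R ∧ zb = swRd_h70 P w := by
    have : w ∈ R.filter (fun s => zb = swRd_h70 P s) := by rw [hfil]; simp
    exact Finset.mem_filter.1 this
  have huwR : ∀ s ∈ R, swRd_h70 P s = zb → s = u ∨ s = w := by
    intro s hs hs2
    have : s ∈ R.filter (fun s => zb = swRd_h70 P s) := Finset.mem_filter.2 ⟨hs, hs2.symm⟩
    rw [hfil] at this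
    simpa using this
  -- the ramification
  have hzO : ((z : ℤ) : F) ∈ P.O := P.int_mem z
  have hzrd : swRd_h70 P ((z : ℤ) : F) = zb := by
    rw [swRd_eq_h70 P hzO]
    have e1 : (⟨((z : ℤ) : F), hzO⟩ : P.O) = ((z : ℤ) : P.O) := Subtype.ext (by simp)
    rw [e1, map_intCast, hzb, map_intCast]
  have hfz0 : (gdif v a b).eval z ≠ 0 := by
    intro h0
    apply hz2
    rw [h0]
    exact dvd_zero _
  have haev : aeval ((z : ℤ) : F) (gdif v a b) = (((gdif v a b).eval z : ℤ) : F) := by
    have e1 : ((z : ℤ) : F) = algebraMap ℤ F z := (eq_intCast (algebraMap ℤ F) z).symm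
    rw [e1, aeval_algebraMap_apply, coe_aeval_eq_eval]
    exact eq_intCast (algebraMap ℤ F) _
  have : CharZero F := algebraRat.charZero F
  have hzR : ((z : ℤ) : F) ∉ R := by
    intro h0
    have h1 := hzero a b _ ((hR _).1 h0)
    rw [haev] at h1
    exact hfz0 (by exact_mod_cast h1)
  have hzK : ((z : ℤ) : F) ∈ (IntermediateField.adjoin ℚ (nodes ℚ F (gpolQ v))).toSubfield :=
    intCast_mem _ z
  have hord := P.ord_aeval hp (hlc a b hab) R (fun s hs => hSK s (hRS s hs)) hfR hzK hzR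
  rw [haev, P.rat _ hfz0] at hord
  have hval : padicValInt p ((gdif v a b).eval z) = 1 := by
    have h1 : 1 ≤ padicValInt p ((gdif v a b).eval z) := by
      have := (padicValInt_dvd_iff (p := p) 1 ((gdif v a b).eval z)).1 (by rwa [pow_one])
      exact this.resolve_left hfz0
    have h2 : ¬ 2 ≤ padicValInt p ((gdif v a b).eval z) := fun h3 =>
      hz2 ((padicValInt_dvd_iff (p := p) 2 ((gdif v a b).eval z)).2 (Or.inr h3))
    omega
  have hnn : ∀ s ∈ R, 0 ≤ P.ord (((z : ℤ) : F) - s) := by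
    intro s hs
    have h1 : ((z : ℤ) : F) - s ∈ P.O := P.O.sub_mem hzO (hRO s hs)
    rcases ((P.mem_O _).1 h1).2 with h2 | h2
    · exact absurd (sub_eq_zero.1 h2) (fun h3 => hzR (h3 ▸ hs))
    · exact h2
  have hpos : ∀ s ∈ R, swRd_h70 P s = zb → 0 < P.ord (((z : ℤ) : F) - s) := by
    intro s hs hs2
    refine P.ord_sub_pos hzO (hRO s hs) (fun h3 => hzR (h3 ▸ hs)) ?_
    rw [← swRd_eq_h70 P hzO, ← swRd_eq_h70 P (hRO s hs), hzrd, hs2]
  have hsum : P.ord (((z : ℤ) : F) - u) + P.ord (((z : ℤ) : F) - w) ≤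
      ∑ s ∈ R, P.ord (((z : ℤ) : F) - s) := by
    have e1 : P.ord (((z : ℤ) : F) - u) + P.ord (((z : ℤ) : F) - w) =
        ∑ s ∈ ({u, w} : Finset F), P.ord (((z : ℤ) : F) - s) :=
      (Finset.sum_pair (f := fun s => P.ord (((z : ℤ) : F) - s)) huw).symm
    rw [e1]
    refine Finset.sum_le_sum_of_subset_of_nonneg ?_ (fun s hs _ => hnn s hs)
    intro s hs
    rcases Finset.mem_insert.1 hs with h1 | h1
    · rw [h1]; exact hu.1
    · rw [Finset.mem_singleton.1 h1]; exact hw.1
  have he : 2 ≤ P.e := by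
    have h1 := hpos u hu.1 hu.2.symm
    have h2 := hpos w hw.1 hw.2.symm
    rw [hval] at hord
    have h3 : (2 : ℤ) ≤ P.e := by
      push_cast at hord
      linarith
    exact_mod_cast h3
  obtain ⟨σ, ⟨s₀, hs₀, hs₀ne⟩, hσ⟩ := hP he
  have hσrd : ∀ x ∈ P.O, swRd_h70 P (σ x) = swRd_h70 P x := by
    intro x hx
    obtain ⟨h1, h2⟩ := hσ x hx
    rw [swRd_eq_h70 P h1, swRd_eq_h70 P hx, h2]
  have hσroot : ∀ (c d : ι) (s : F), aeval s (gpolQ v c) = aeval s (gpolQ v d) →
      aeval (σ s) (gpolQ v c) = aeval (σ s) (gpolQ v d) := by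
    intro c d s hs
    have e1 : ∀ q : ℚ[X], aeval (σ s) q = σ (aeval s q) := fun q =>
      (Polynomial.aeval_algHom_apply (σ : F →ₐ[ℚ] F) s q)
    rw [e1, e1, hs]
  have hσR : ∀ s ∈ R, σ s ∈ R := fun s hs => (hR _).2 (hσroot a b s ((hR s).1 hs))
  -- `σ` fixes the other nodes
  have hfix : ∀ s ∈ nodes ℚ F (gpolQ v), s ≠ u → s ≠ w → σ s = s := by
    intro s hs hsu hsw
    by_cases hsR : s ∈ R
    · have ht : swRd_h70 P s ≠ zb := by
        intro h1
        rcases huwR s hsR h1 with h2 | h2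
        · exact hsu h2
        · exact hsw h2
      have h1 := hct _ ht
      rw [Finset.card_le_one] at h1
      exact h1 (σ s) (Finset.mem_filter.2 ⟨hσR s hsR, (hσrd s (hSO s hs)).symm⟩) s
        (Finset.mem_filter.2 ⟨hsR, rfl⟩)
    · obtain ⟨c, d, hcd, hs2⟩ := id hs
      have hset : ({c, d} : Set ι) ≠ {a, b} := by
        intro h1
        apply hsR
        rw [hR]
        rcases Set.pair_eq_pair_iff.1 h1 with ⟨h2, h3⟩ | ⟨h2, h3⟩
        · rw [← h2, ← h3]; exact hs2
        · rw [← h2, ← h3]; exact hs2.symm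
      by_contra hcon
      have hσO : σ s ∈ P.O := (hσ s (hSO s hs)).1
      have h2 := P.red_ne_of_separable hp (f := gdif v c d) (h.sep c d hcd hset) hσO (hSO s hs)
        (hzero c d _ (hσroot c d s hs2)) (hzero c d s hs2) hcon
      apply h2
      rw [← swRd_eq_h70 P hσO, ← swRd_eq_h70 P (hSO s hs)]
      exact hσrd s (hSO s hs)
  have hσu : σ u = u ∨ σ u = w :=
    huwR _ (hσR u hu.1) (by rw [hσrd u (hRO u hu.1)]; exact hu.2.symm)
  have hσw : σ w = u ∨ σ w = w :=
    huwR _ (hσR w hw.1) (by rw [hσrd w (hRO w hw.1)]; exact hw.2.symm)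
  have hσu' : σ u = w := by
    rcases hσu with h1 | h1
    · exfalso
      have h2 : σ w = w := by
        rcases hσw with h3 | h3
        · exact absurd (σ.injective (h1.trans h3.symm)) huw
        · exact h3
      apply hs₀ne
      by_cases h3 : s₀ = u
      · rw [h3, h1]
      · by_cases h4 : s₀ = w
        · rw [h4, h2]
        · exact hfix s₀ hs₀ h3 h4
    · exact h1
  have hσw' : σ w = u := by
    rcases hσw with h1 | h1
    · exact h1
    · exact absurd (σ.injective (hσu'.trans h1.symm)) huw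
  exact ⟨σ, u, w, huw, (hR u).1 hu.1, (hR w).1 hw.1, hσu', hσw', hfix⟩

end Pool.Agent.Lib.MP_89bcae_ag

end

section

/-!
# The valuation at a prime of type B

`F` is an algebraic closure of `ℚ`. Let `P` be the place of `exists_place` with `S` the set of the
nodes (finite, stable; `Roots.lean`). All `α_a - α_b` are separable over `ℚ` (`separable_of_gred`); let
`R a b` be the set of roots (`exists_roots`), `f_ab = gdif v a b`.
(a) All nodes are in `P.O` (`Place.root_mem`).
(b) Two roots of the same `f_ab` have different reductions (`sep`, `Place.red_ne_of_separable`). Hence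
the place is not ramified, `P.e = 1`: otherwise there is `σ` as in `exists_place`; it maps a root of
`f_ab` to a root of `f_ab` with the same reduction, hence fixes all nodes, a contradiction. So
`P.ord z = v_p(z)` for `z ∈ ℤ`.
(c) A root of `f_ab` and a root of `f_cd`, for different pairs, have different reductions if the pairs
are not both in the triple (`cop`, `Place.red_ne_of_isCoprime`). If they are both in the triple
`i, j, l` and have the same reduction `x`, then `x` is a root of two, hence (`f_ij + f_jl = f_il`) of all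
three reduced polynomials, so of `(X - z) g` and `(X - z) h` (`col`) with `g`, `h` coprime: `x = z`.
(d) By `Place.ord_aeval`, `P.ord (f_ij(z)) = ∑_{s ∈ R i j} P.ord (z - s)`, which is `≥ 2` (or `f_ij(z) = 0`
and `z ∈ R i j`, put `r = z`). By (b) at most one term is not zero: there is exactly one `r ∈ R i j` with
reduction `z`, and `P.ord (z - r) ≥ 2` (or `r = z`). In the same way there is exactly one `r' ∈ R j l`
with reduction `z`, `P.ord (z - r') = 1`, and exactly one `r'' ∈ R i l` with reduction `z`, and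
`P.ord (z - r'') = 1`, since `p` divides `f_jl(z)` and `f_il(z) = f_ij(z) + f_jl(z)` exactly once. Hence
(`Place.ord_add`) `P.ord (r - r') = P.ord (r - r'') = 1`. Moreover `f_il(r') = f_ij(r')` (since
`f_jl(r') = 0`), so `P.ord (r' - r'') = P.ord (f_il(r')) = P.ord (f_ij(r')) = P.ord (r' - r) = 1`
(`Place.ord_aeval`, the other terms are `0`).
(e) `ν = P.ord`, `h = 1`: the differences of nodes have value `0` except the three above; the derivatives
by `Place.ord_derivative` and (b); `α_a(s) - α_c(s) = f_ac(s)` by `Place.ord_aeval`.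
-/

open Polynomial

open scoped Classical

namespace Pool.Agent.Lib.MP_89bcae_ag

open Superelliptic

variable {ι : Type} [Fintype ι] {n : ℕ} {F : Type} [Field F] [Algebra ℚ F] [IsAlgClosure ℚ F]

section h61

variable {p : ℕ} {K₀ : Subfield F} (P : Place p K₀)

/-- The reduction, as a function on `F`. -/
noncomputable def rd_h61 (x : F) : P.κ := if h : x ∈ P.O then P.red ⟨x, h⟩ else 0

omit [Algebra ℚ F] [IsAlgClosure ℚ F] in
lemma rd_eq_h61 {x : F} (hx : x ∈ P.O) : rd_h61 P x = P.red ⟨x, hx⟩ := dif_pos hx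

omit [Algebra ℚ F] [IsAlgClosure ℚ F] in
lemma memK_h61 {x : F} (hx : x ∈ P.O) : x ∈ K₀ := ((P.mem_O x).1 hx).1

omit [Algebra ℚ F] [IsAlgClosure ℚ F] in
lemma ord_neg_h61 {x : F} (hx : x ∈ K₀) : P.ord (-x) = P.ord x := by
  by_cases h0 : x = 0
  · rw [h0, neg_zero]
  · have := P.isVal.mul (-1) (K₀.neg_mem K₀.one_mem) x hx (by simp) h0
    rw [P.isVal.neg_one, zero_add, neg_one_mul] at this
    exact this

omit [Algebra ℚ F] [IsAlgClosure ℚ F] in
lemma ord_comm_h61 {x y : F} (hx : x ∈ P.O) (hy : y ∈ P.O) : P.ord (x - y) = P.ord (y - x) := by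
  rw [← neg_sub y x, ord_neg_h61 P (K₀.sub_mem (memK_h61 P hy) (memK_h61 P hx))]

omit [IsAlgClosure ℚ F] in
lemma ord_zero_h61 {x y : F} (hx : x ∈ P.O) (hy : y ∈ P.O) (h : rd_h61 P x ≠ rd_h61 P y) :
    P.ord (x - y) = 0 := by
  rw [rd_eq_h61 P hx, rd_eq_h61 P hy] at h
  exact P.ord_sub_eq_zero hx hy h

omit [IsAlgClosure ℚ F] in
lemma rd_int_h61 (hp : p.Prime) (z : ℤ) : rd_h61 P (z : F) = P.redp hp (z : ZMod p) := by
  rw [rd_eq_h61 P (P.int_mem z), map_intCast]
  have : (⟨(z : F), P.int_mem z⟩ : P.O) = ((z : ℤ) : P.O) := Subtype.ext (by simp)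
  rw [this, map_intCast]

omit [IsAlgClosure ℚ F] in
lemma rd_root_h61 (hp : p.Prime) {f : ℤ[X]} {s : F} (hs : s ∈ P.O) (h0 : aeval s f = 0) :
    ((f.map (Int.castRingHom (ZMod p))).map (P.redp hp)).eval (rd_h61 P s) = 0 := by
  obtain ⟨h1, h2⟩ := P.red_aeval hp f hs
  rw [rd_eq_h61 P hs, ← h2]
  have : (⟨aeval s f, h1⟩ : P.O) = 0 := Subtype.ext h0
  rw [this, map_zero]

/-- The properties of the set of roots of one difference. -/
structure GoodR_h61 (f : ℤ[X]) (R : Finset F) : Prop where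
  lc : ¬ (p : ℤ) ∣ f.leadingCoeff
  O : ∀ s ∈ R, s ∈ P.O
  root : ∀ s, s ∈ R ↔ aeval s f = 0
  fac : f.map (algebraMap ℤ F) = C (algebraMap ℤ F f.leadingCoeff) * ∏ s ∈ R, (X - C s)
  red : ∀ s s', s ∈ R → s' ∈ R → rd_h61 P s = rd_h61 P s' → s = s'

omit [IsAlgClosure ℚ F] in
lemma val_one_h61 (hp : p.Prime) {f : ℤ[X]} {R : Finset F} (H : GoodR_h61 P f R) {x r : F}
    (hx : x ∈ P.O) (hxR : x ∉ R) (hr : r ∈ R) (h : rd_h61 P r = rd_h61 P x) :
    P.ord (aeval x f) = P.ord (x - r) := by
  rw [P.ord_aeval hp H.lc R (fun s hs => memK_h61 P (H.O s hs)) H.fac (memK_h61 P hx) hxR]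
  rw [Finset.sum_eq_single r]
  · intro s hs hsr
    apply ord_zero_h61 P hx (H.O s hs)
    intro h2
    exact hsr (H.red s r hs hr (h2.symm.trans h.symm))
  · intro h
    exact absurd hr h

omit [IsAlgClosure ℚ F] in
lemma ex_root_h61 (hp : p.Prime) {f : ℤ[X]} {R : Finset F} (H : GoodR_h61 P f R) {x : F}
    (hx : x ∈ P.O) (hxR : x ∉ R) (hpos : 0 < P.ord (aeval x f)) :
    ∃ r ∈ R, rd_h61 P r = rd_h61 P x := by
  by_contra hcon
  push Not at hcon
  rw [P.ord_aeval hp H.lc R (fun s hs => memK_h61 P (H.O s hs)) H.fac (memK_h61 P hx) hxR,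
    Finset.sum_eq_zero] at hpos
  · exact lt_irrefl _ hpos
  · intro s hs
    exact ord_zero_h61 P hx (H.O s hs) (fun h => hcon s hs h.symm)

omit [IsAlgClosure ℚ F] in
lemma claim_h61 (hp : p.Prime) (he : P.e = 1) {f : ℤ[X]} {R : Finset F} (H : GoodR_h61 P f R)
    (z : ℤ) (hz : (p : ℤ) ∣ f.eval z) :
    ∃ r ∈ R, rd_h61 P r = rd_h61 P (z : F) ∧ ((z : F) = r ∨ ((z : F) ≠ r ∧ f.eval z ≠ 0 ∧
      P.ord ((z : F) - r) = padicValInt p (f.eval z))) := by
  have haev : aeval (z : F) f = ((f.eval z : ℤ) : F) := by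
    rw [aeval_def, eval₂_at_intCast]
    simp
  by_cases hzR : (z : F) ∈ R
  · exact ⟨z, hzR, rfl, Or.inl rfl⟩
  · have hne : f.eval z ≠ 0 := by
      intro h
      apply hzR
      rw [H.root, haev, h, Int.cast_zero]
    have hord : P.ord (aeval (z : F) f) = padicValInt p (f.eval z) := by
      rw [haev, P.rat _ hne, he]
      simp
    have hpos : 0 < padicValInt p (f.eval z) := by
      have : Fact p.Prime := ⟨hp⟩
      have h1 := (padicValInt_dvd_iff (p := p) 1 (f.eval z)).1 (by simpa using hz)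
      rcases h1 with h1 | h1
      · exact absurd h1 hne
      · omega
    have hpos' : 0 < P.ord (aeval (z : F) f) := by
      rw [hord]
      exact_mod_cast hpos
    obtain ⟨r, hr, hrz⟩ := ex_root_h61 P hp H (P.int_mem z) hzR hpos'
    refine ⟨r, hr, hrz, Or.inr ⟨fun h => hzR (h ▸ hr), hne, ?_⟩⟩
    rw [← hord]
    exact (val_one_h61 P hp H (P.int_mem z) hzR hr hrz).symm

end h61

/-- Parts (a)-(d). -/
theorem place_typeB (v : ι × Fin (n + 1) → ℤ) {p : ℕ} (hp : p.Prime) {i j l : ι}
    (hij : i ≠ j) (hjl : j ≠ l) (hil : i ≠ l) (h : TypeB p i j l v) :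
    ∃ (P : Place p (IntermediateField.adjoin ℚ (nodes ℚ F (gpolQ v))).toSubfield)
      (r r' r'' : F), aeval r (gpolQ v i) = aeval r (gpolQ v j) ∧
      aeval r' (gpolQ v j) = aeval r' (gpolQ v l) ∧ aeval r'' (gpolQ v i) = aeval r'' (gpolQ v l) ∧
      (∀ s ∈ nodes ℚ F (gpolQ v), s ∈ P.O) ∧ r ≠ r' ∧ r ≠ r'' ∧ r' ≠ r'' ∧
      P.ord (r - r') = 1 ∧ P.ord (r - r'') = 1 ∧ P.ord (r' - r'') = 1 ∧
      ∀ s ∈ nodes ℚ F (gpolQ v), ∀ s' ∈ nodes ℚ F (gpolQ v), s ≠ s' →
        ¬ (s ∈ ({r, r', r''} : Set F) ∧ s' ∈ ({r, r', r''} : Set F)) → P.ord (s - s') = 0 := by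
  have : Fact p.Prime := ⟨hp⟩
  have : CharZero F := algebraRat.charZero F
  have hQ : ∀ a b, a ≠ b → (gpolQ v a - gpolQ v b).Separable := fun a b hab =>
    separable_of_gred hp (h.lead a b hab) (h.sep a b hab)
  have hne : ∀ a b, a ≠ b → gpolQ v a ≠ gpolQ v b := fun a b hab he =>
    (hQ a b hab).ne_zero (sub_eq_zero.2 he)
  have hlne : ∀ a b, a ≠ b → v (a, Fin.last n) ≠ v (b, Fin.last n) := by
    intro a b hab he
    apply h.lead a b hab
    rw [he, sub_self]
    exact dvd_zero _
  have hlc : ∀ a b, a ≠ b → ¬ (p : ℤ) ∣ (gdif v a b).leadingCoeff := by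
    intro a b hab
    rw [gdif_leadingCoeff (hlne a b hab)]
    exact h.lead a b hab
  obtain ⟨P, hram⟩ := exists_place (F := F) hp (nodes ℚ F (gpolQ v)) (nodes_gpolQ_finite hne)
    (fun σ => nodes_stable _ σ)
  have hK : ∀ s ∈ nodes ℚ F (gpolQ v),
      s ∈ (IntermediateField.adjoin ℚ (nodes ℚ F (gpolQ v))).toSubfield :=
    fun s hs => IntermediateField.subset_adjoin ℚ _ hs
  have hroot : ∀ a b (s : F), aeval s (gdif v a b) = 0 ↔
      aeval s (gpolQ v a) = aeval s (gpolQ v b) := by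
    intro a b s
    rw [aeval_gdif, sub_eq_zero]
  have hO : ∀ s ∈ nodes ℚ F (gpolQ v), s ∈ P.O := by
    intro s hs
    obtain ⟨a, b, hab, hs'⟩ := id hs
    exact P.root_mem hp (hlc a b hab) (hK s hs) ((hroot a b s).2 hs')
  have hOab : ∀ a b, a ≠ b → ∀ s, aeval s (gpolQ v a) = aeval s (gpolQ v b) → s ∈ P.O :=
    fun a b hab s hs => hO s ⟨a, b, hab, hs⟩
  have hsame : ∀ a b, a ≠ b → ∀ s s', aeval s (gpolQ v a) = aeval s (gpolQ v b) →
      aeval s' (gpolQ v a) = aeval s' (gpolQ v b) → rd_h61 P s = rd_h61 P s' → s = s' := by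
    intro a b hab s s' hs hs' he
    by_contra hc
    have h1 := hOab a b hab s hs
    have h2 := hOab a b hab s' hs'
    rw [rd_eq_h61 P h1, rd_eq_h61 P h2] at he
    exact P.red_ne_of_separable hp (h.sep a b hab) h1 h2 ((hroot a b s).2 hs)
      ((hroot a b s').2 hs') hc he
  -- not ramified
  have he1 : P.e = 1 := by
    have h0 := P.e_pos
    by_contra hc
    obtain ⟨σ, ⟨s, hs, hσs⟩, hσ⟩ := hram (by omega)
    obtain ⟨a, b, hab, hs'⟩ := id hs
    have hσs' : aeval (σ s) (gpolQ v a) = aeval (σ s) (gpolQ v b) := by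
      have e1 := congrArg σ hs'
      have e2 : ∀ q : ℚ[X], σ (aeval s q) = aeval (σ s) q := fun q =>
        (aeval_algHom_apply (σ : F →ₐ[ℚ] F) s q).symm
      rw [e2, e2] at e1
      exact e1
    obtain ⟨hx', hx''⟩ := hσ s (hO s hs)
    apply hσs
    apply hsame a b hab _ _ hσs' hs'
    rw [rd_eq_h61 P hx', rd_eq_h61 P (hO s hs)]
    exact hx''
  -- the sets of roots
  have hR : ∀ a b, a ≠ b → ∃ R : Finset F, GoodR_h61 P (gdif v a b) R := by
    intro a b hab
    obtain ⟨R, hR1, hR2⟩ := exists_roots (F := F) (hQ a b hab)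
    exact ⟨R, hlc a b hab, fun s hs => hOab a b hab s ((hR1 s).1 hs),
      fun s => (hR1 s).trans (hroot a b s).symm, hR2,
      fun s s' hs hs' => hsame a b hab s s' ((hR1 s).1 hs) ((hR1 s').1 hs')⟩
  obtain ⟨Rij, Hij⟩ := hR i j hij
  obtain ⟨Rjl, Hjl⟩ := hR j l hjl
  obtain ⟨Ril, Hil⟩ := hR i l hil
  obtain ⟨z, hz1, hz2, hz3, g, h', hg, hh, hco⟩ := h.col
  have hsum : (gdif v i l).eval z = (gdif v i j).eval z + (gdif v j l).eval z := by
    rw [← gdif_add v i j l, eval_add]
  have hpp : (p : ℤ) ∣ (p : ℤ) ^ 2 := dvd_pow_self _ (by norm_num)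
  have hz4 : (p : ℤ) ∣ (gdif v i l).eval z := by
    rw [hsum]
    exact dvd_add (hpp.trans hz1) hz2
  have hz5 : ¬ (p : ℤ) ^ 2 ∣ (gdif v i l).eval z := by
    rw [hsum]
    intro hc
    exact hz3 ((dvd_add_right hz1).1 hc)
  have hval1 : ∀ y : ℤ, (p : ℤ) ∣ y → ¬ (p : ℤ) ^ 2 ∣ y → padicValInt p y = 1 := by
    intro y h1 h2
    have e1 := (padicValInt_dvd_iff (p := p) 1 y).1 (by simpa using h1)
    rw [padicValInt_dvd_iff] at h2
    push Not at h2
    rcases e1 with e1 | e1
    · exact absurd e1 h2.1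
    · omega
  obtain ⟨r, hr, hrz, hr2⟩ := claim_h61 P hp he1 Hij z (hpp.trans hz1)
  obtain ⟨r', hr', hrz', hr2'⟩ := claim_h61 P hp he1 Hjl z hz2
  obtain ⟨r'', hr'', hrz'', hr2''⟩ := claim_h61 P hp he1 Hil z hz4
  have hzO : (z : F) ∈ P.O := P.int_mem z
  have hzr' : (z : F) ≠ r' ∧ P.ord ((z : F) - r') = 1 := by
    rcases hr2' with e | e
    · exfalso
      have e1 : aeval (z : F) (gdif v j l) = 0 := (Hjl.root _).1 (e ▸ hr')
      rw [aeval_def, eval₂_at_intCast] at e1
      have e2 : (gdif v j l).eval z = 0 := by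
        have e3 : (((gdif v j l).eval z : ℤ) : F) = 0 := by simpa using e1
        exact_mod_cast e3
      exact hz3 (e2 ▸ dvd_zero _)
    · exact ⟨e.1, by rw [e.2.2, hval1 _ hz2 hz3]; simp⟩
  have hzr'' : (z : F) ≠ r'' ∧ P.ord ((z : F) - r'') = 1 := by
    rcases hr2'' with e | e
    · exfalso
      have e1 : aeval (z : F) (gdif v i l) = 0 := (Hil.root _).1 (e ▸ hr'')
      rw [aeval_def, eval₂_at_intCast] at e1
      have e2 : (gdif v i l).eval z = 0 := by
        have e3 : (((gdif v i l).eval z : ℤ) : F) = 0 := by simpa using e1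
        exact_mod_cast e3
      exact hz5 (e2 ▸ dvd_zero _)
    · exact ⟨e.1, by rw [e.2.2, hval1 _ hz4 hz5]; simp⟩
  have hrO := Hij.O r hr
  have hrO' := Hjl.O r' hr'
  have hrO'' := Hil.O r'' hr''
  -- the value of `r - t` for `t` with `ord (z - t) = 1`
  have hkey : ∀ t, t ∈ P.O → (z : F) ≠ t → P.ord ((z : F) - t) = 1 →
      r ≠ t ∧ P.ord (r - t) = 1 := by
    intro t ht hzt hord
    rcases hr2 with e | e
    · rw [← e]
      exact ⟨hzt, hord⟩
    · have h2 : 2 ≤ padicValInt p ((gdif v i j).eval z) := by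
        rcases (padicValInt_dvd_iff (p := p) 2 _).1 hz1 with e3 | e3
        · exact absurd e3 e.2.1
        · exact e3
      have h3 : P.ord (r - z) = padicValInt p ((gdif v i j).eval z) := by
        rw [ord_comm_h61 P hrO hzO, e.2.2]
      have h4 := P.ord_add (x := (z : F) - t) (y := r - z)
        (Subfield.sub_mem _ (memK_h61 P hzO) (memK_h61 P ht))
        (Subfield.sub_mem _ (memK_h61 P hrO) (memK_h61 P hzO)) (sub_ne_zero.2 hzt)
        (sub_ne_zero.2 (Ne.symm e.1)) (by rw [hord, h3]; exact_mod_cast h2)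
      have h5 : (z : F) - t + (r - z) = r - t := by ring
      rw [h5, hord] at h4
      exact ⟨sub_ne_zero.1 h4.1, h4.2⟩
  obtain ⟨hrr', hord1⟩ := hkey r' hrO' hzr'.1 hzr'.2
  obtain ⟨hrr'', hord2⟩ := hkey r'' hrO'' hzr''.1 hzr''.2
  have hadd : ∀ s : F, aeval s (gdif v i l) = aeval s (gdif v i j) + aeval s (gdif v j l) := by
    intro s
    rw [← gdif_add v i j l, map_add]
  have hr'ij : r' ∉ Rij := by
    intro hc
    exact hrr' (Hij.red r r' hr hc (hrz.trans hrz'.symm))
  have hr'il : r' ∉ Ril := by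
    intro hc
    apply hr'ij
    rw [Hij.root]
    have e1 := hadd r'
    rw [(Hil.root r').1 hc, (Hjl.root r').1 hr', add_zero] at e1
    exact e1.symm
  have hr'r'' : r' ≠ r'' := fun hc => hr'il (hc ▸ hr'')
  have hord3 : P.ord (r' - r'') = 1 := by
    rw [← val_one_h61 P hp Hil hrO' hr'il hr'' (hrz''.trans hrz'.symm), hadd,
      (Hjl.root r').1 hr', add_zero,
      val_one_h61 P hp Hij hrO' hr'ij hr (hrz.trans hrz'.symm), ord_comm_h61 P hrO' hrO]
    exact hord1
  refine ⟨P, r, r', r'', (hroot i j r).1 ((Hij.root r).1 hr), (hroot j l r').1 ((Hjl.root r').1 hr'),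
    (hroot i l r'').1 ((Hil.root r'').1 hr''), hO, hrr', hrr'', hr'r'', hord1, hord2, hord3, ?_⟩
  intro s hs s' hs' hss' hnot
  by_contra hord0
  have hrd : rd_h61 P s = rd_h61 P s' := by
    by_contra hc
    exact hord0 (ord_zero_h61 P (hO s hs) (hO s' hs') hc)
  obtain ⟨a, b, hab, hsab⟩ := id hs
  obtain ⟨c, d, hcd, hscd⟩ := id hs'
  -- the pairs are different
  have hpair : ({a, b} : Set ι) ≠ {c, d} := by
    intro hc
    have h1 : (a = c ∧ b = d) ∨ (a = d ∧ b = c) := by
      exact Set.pair_eq_pair_iff.1 hc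
    rcases h1 with ⟨rfl, rfl⟩ | ⟨rfl, rfl⟩
    · exact hss' (hsame a b hab s s' hsab hscd hrd)
    · exact hss' (hsame a b hab s s' hsab hscd.symm hrd)
  -- they are in the triple
  have htri : ({a, b, c, d} : Set ι) ⊆ {i, j, l} := by
    by_contra hc
    have h1 := P.red_ne_of_isCoprime hp (h.cop a b c d hab hcd hpair hc) (hO s hs) (hO s' hs')
      ((hroot a b s).2 hsab) ((hroot c d s').2 hscd)
    rw [rd_eq_h61 P (hO s hs), rd_eq_h61 P (hO s' hs')] at hrd
    exact h1 hrd
  have ha : a = i ∨ a = j ∨ a = l := htri (by simp)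
  have hb : b = i ∨ b = j ∨ b = l := htri (by simp)
  have hc : c = i ∨ c = j ∨ c = l := htri (by simp)
  have hd : d = i ∨ d = j ∨ d = l := htri (by simp)
  set x := rd_h61 P s with hx
  set y : ι → P.κ := fun a => (((gpol v a).map (Int.castRingHom (ZMod p))).map (P.redp hp)).eval x
    with hy
  have hyab : ∀ a b (t : F), t ∈ P.O → aeval t (gpolQ v a) = aeval t (gpolQ v b) →
      rd_h61 P t = x → y a = y b := by
    intro a b t ht htab htx
    have h1 := rd_root_h61 P hp ht ((hroot a b t).2 htab)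
    rw [gdif, Polynomial.map_sub, Polynomial.map_sub, eval_sub, htx, sub_eq_zero] at h1
    exact h1
  have h1 : y a = y b := hyab a b s (hO s hs) hsab rfl
  have h2 : y c = y d := hyab c d s' (hO s' hs') hscd hrd.symm
  have hcase : ∀ a b, a ≠ b → (a = i ∨ a = j ∨ a = l) → (b = i ∨ b = j ∨ b = l) → y a = y b →
      (({a, b} : Set ι) = {i, j} ∧ y i = y j) ∨ (({a, b} : Set ι) = {j, l} ∧ y j = y l) ∨
        (({a, b} : Set ι) = {i, l} ∧ y i = y l) := by
    intro a b hab ha hb hyy
    rcases ha with ha | ha | ha <;> rcases hb with hb | hb | hb <;> rw [ha, hb] at hab hyy <;>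
      rw [ha, hb]
    · exact absurd rfl hab
    · exact Or.inl ⟨rfl, hyy⟩
    · exact Or.inr (Or.inr ⟨rfl, hyy⟩)
    · exact Or.inl ⟨Set.pair_comm _ _, hyy.symm⟩
    · exact absurd rfl hab
    · exact Or.inr (Or.inl ⟨rfl, hyy⟩)
    · exact Or.inr (Or.inr ⟨Set.pair_comm _ _, hyy.symm⟩)
    · exact Or.inr (Or.inl ⟨Set.pair_comm _ _, hyy.symm⟩)
    · exact absurd rfl hab
  have h3 : y i = y j ∧ y j = y l := by
    rcases hcase a b hab ha hb h1 with ⟨e1, f1⟩ | ⟨e1, f1⟩ | ⟨e1, f1⟩ <;>
      rcases hcase c d hcd hc hd h2 with ⟨e2, f2⟩ | ⟨e2, f2⟩ | ⟨e2, f2⟩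
    · exact absurd (e1.trans e2.symm) hpair
    · exact ⟨f1, f2⟩
    · exact ⟨f1, f1.symm.trans f2⟩
    · exact ⟨f2, f1⟩
    · exact absurd (e1.trans e2.symm) hpair
    · exact ⟨f2.trans f1.symm, f1⟩
    · exact ⟨f2, f2.symm.trans f1⟩
    · exact ⟨f1.trans f2.symm, f2⟩
    · exact absurd (e1.trans e2.symm) hpair
  -- `x` is the reduction of `z`
  have hxz : x = rd_h61 P (z : F) := by
    rw [rd_int_h61 P hp]
    by_contra hxne
    have e1 : ((gred p v i j).map (P.redp hp)).eval x = 0 := by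
      rw [gred, gdif, Polynomial.map_sub, Polynomial.map_sub, eval_sub, sub_eq_zero]
      exact h3.1
    have e2 : ((gred p v j l).map (P.redp hp)).eval x = 0 := by
      rw [gred, gdif, Polynomial.map_sub, Polynomial.map_sub, eval_sub, sub_eq_zero]
      exact h3.2
    rw [hg, Polynomial.map_mul, Polynomial.map_sub, map_X, map_C, eval_mul, eval_sub, eval_X,
      eval_C] at e1
    rw [hh, Polynomial.map_mul, Polynomial.map_sub, map_X, map_C, eval_mul, eval_sub, eval_X,
      eval_C] at e2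
    have e3 := (mul_eq_zero.1 e1).resolve_left (sub_ne_zero.2 hxne)
    have e4 := (mul_eq_zero.1 e2).resolve_left (sub_ne_zero.2 hxne)
    obtain ⟨A, B, hAB⟩ := hco
    have e5 := congrArg (fun q => (q.map (P.redp hp)).eval x) hAB
    simp only [Polynomial.map_add, Polynomial.map_mul, eval_add, eval_mul, e3, e4, mul_zero,
      add_zero, Polynomial.map_one, eval_one] at e5
    exact zero_ne_one e5
  -- the elements with this reduction
  have hmem : ∀ a b (t : F), a ≠ b → (a = i ∨ a = j ∨ a = l) → (b = i ∨ b = j ∨ b = l) →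
      aeval t (gpolQ v a) = aeval t (gpolQ v b) → rd_h61 P t = rd_h61 P (z : F) →
      t ∈ ({r, r', r''} : Set F) := by
    intro a b t hab ha hb htab htz
    have f1 : ∀ (htij : aeval t (gpolQ v i) = aeval t (gpolQ v j)), t ∈ ({r, r', r''} : Set F) := by
      intro htij
      have : t = r := Hij.red t r ((Hij.root t).2 ((hroot i j t).2 htij)) hr (htz.trans hrz.symm)
      simp [this]
    have f2 : ∀ (htij : aeval t (gpolQ v j) = aeval t (gpolQ v l)), t ∈ ({r, r', r''} : Set F) := by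
      intro htij
      have : t = r' := Hjl.red t r' ((Hjl.root t).2 ((hroot j l t).2 htij)) hr' (htz.trans hrz'.symm)
      simp [this]
    have f3 : ∀ (htij : aeval t (gpolQ v i) = aeval t (gpolQ v l)), t ∈ ({r, r', r''} : Set F) := by
      intro htij
      have : t = r'' :=
        Hil.red t r'' ((Hil.root t).2 ((hroot i l t).2 htij)) hr'' (htz.trans hrz''.symm)
      simp [this]
    rcases ha with ha | ha | ha <;> rcases hb with hb | hb | hb <;> rw [ha, hb] at htab
    · exact absurd (ha.trans hb.symm) hab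
    · exact f1 htab
    · exact f3 htab
    · exact f1 htab.symm
    · exact absurd (ha.trans hb.symm) hab
    · exact f2 htab
    · exact f3 htab.symm
    · exact f2 htab.symm
    · exact absurd (ha.trans hb.symm) hab
  exact hnot ⟨hmem a b s hab ha hb hsab hxz, hmem c d s' hcd hc hd hscd (hrd.symm.trans hxz)⟩

/-- Part (e), from `place_typeB`. (The elements of `{r, r', r''}` are roots of exactly one difference
each, so that at most one of them is a root of a given `f_ab`.) -/
theorem exists_val_typeB (v : ι × Fin (n + 1) → ℤ) {p : ℕ} (hp : p.Prime) {i j l : ι}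
    (hij : i ≠ j) (hjl : j ≠ l) (hil : i ≠ l) (h : TypeB p i j l v) :
    ∃ (ν : F → ℤ) (r r' r'' : F), aeval r (gpolQ v i) = aeval r (gpolQ v j) ∧
      aeval r' (gpolQ v j) = aeval r' (gpolQ v l) ∧ aeval r'' (gpolQ v i) = aeval r'' (gpolQ v l) ∧
      IsVal (IntermediateField.adjoin ℚ (nodes ℚ F (gpolQ v))).toSubfield ν ∧
      TripleV ν (gpolQ v) 1 i j l r r' r'' := by
  obtain ⟨P, r, r', r'', hr, hr', hr'', hO, n1, n2, n3, o1, o2, o3, hz⟩ :=
    place_typeB (F := F) v hp hij hjl hil h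
  have hK : ∀ s ∈ nodes ℚ F (gpolQ v), s ∈ (IntermediateField.adjoin ℚ (nodes ℚ F (gpolQ v))).toSubfield :=
    fun s hs => IntermediateField.subset_adjoin ℚ _ hs
  have hnode : ∀ (a b : ι) (s : F), a ≠ b → aeval s (gpolQ v a) = aeval s (gpolQ v b) →
      s ∈ nodes ℚ F (gpolQ v) := fun a b s hab hs => ⟨a, b, hab, hs⟩
  have hneg : ∀ x ∈ nodes ℚ F (gpolQ v), ∀ y ∈ nodes ℚ F (gpolQ v), x ≠ y →
      P.ord (y - x) = P.ord (x - y) := by
    intro x hx y hy hxy
    have h1 := P.isVal.mul (-1) (neg_mem (one_mem _)) (x - y) (sub_mem (hK x hx) (hK y hy))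
      (neg_ne_zero.2 one_ne_zero) (sub_ne_zero.2 hxy)
    rw [P.isVal.neg_one, zero_add] at h1
    rw [← h1]
    congr 1
    ring
  have hN : r ∈ nodes ℚ F (gpolQ v) := hnode i j r hij hr
  have hN' : r' ∈ nodes ℚ F (gpolQ v) := hnode j l r' hjl hr'
  have hN'' : r'' ∈ nodes ℚ F (gpolQ v) := hnode i l r'' hil hr''
  -- F1
  have F1 : ∀ s ∈ ({r, r', r''} : Set F), ∀ t ∈ ({r, r', r''} : Set F), s ≠ t → P.ord (s - t) = 1 := by
    intro s hs t ht hst
    simp only [Set.mem_insert_iff, Set.mem_singleton_iff] at hs ht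
    rcases hs with rfl | rfl | rfl <;> rcases ht with rfl | rfl | rfl
    · exact absurd rfl hst
    · exact o1
    · exact o2
    · rw [hneg _ hN _ hN' n1]; exact o1
    · exact absurd rfl hst
    · exact o3
    · rw [hneg _ hN _ hN'' n2]; exact o2
    · rw [hneg _ hN' _ hN'' n3]; exact o3
    · exact absurd rfl hst
  have hz0 : ∀ (a b : ι) (s : F), aeval s (gpolQ v a) = aeval s (gpolQ v b) → aeval s (gdif v a b) = 0 := by
    intro a b s hs
    rw [aeval_gdif, hs, sub_self]
  -- F3
  have F3' : ∀ (a b : ι) (s t : F) (hs : s ∈ P.O) (ht : t ∈ P.O), a ≠ b → aeval s (gpolQ v a) = aeval s (gpolQ v b) →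
      aeval t (gpolQ v a) = aeval t (gpolQ v b) → s ≠ t → P.red ⟨s, hs⟩ ≠ P.red ⟨t, ht⟩ :=
    fun a b s t hs ht hab h1 h2 hst => P.red_ne_of_separable hp (h.sep a b hab) hs ht (hz0 a b s h1) (hz0 a b t h2) hst
  have F3 : ∀ (a b : ι) (s t : F), a ≠ b → aeval s (gpolQ v a) = aeval s (gpolQ v b) →
      aeval t (gpolQ v a) = aeval t (gpolQ v b) → s ≠ t → P.ord (s - t) = 0 := by
    intro a b s t hab h1 h2 hst
    have hs := hO s (hnode a b s hab h1)
    have ht := hO t (hnode a b t hab h2)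
    exact P.ord_sub_eq_zero hs ht (F3' a b s t hs ht hab h1 h2 hst)
  -- coprime reductions
  have Fc : ∀ (a b c d : ι) (s : F), a ≠ b → c ≠ d → aeval s (gpolQ v a) = aeval s (gpolQ v b) →
      aeval s (gpolQ v c) = aeval s (gpolQ v d) → ({a, b} : Set ι) ≠ {c, d} →
      ({a, b, c, d} : Set ι) ⊆ {i, j, l} := by
    intro a b c d s hab hcd h1 h2 hne
    by_contra hcon
    have hs := hO s (hnode a b s hab h1)
    exact P.red_ne_of_isCoprime hp (h.cop a b c d hab hcd hne hcon) hs hs (hz0 a b s h1) (hz0 c d s h2) rfl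
  -- common roots modulo p
  obtain ⟨z, _, _, _, g, g', hg, hg', hgg⟩ := h.col
  have FC : ∀ (s t : F) (hs : s ∈ P.O) (ht : t ∈ P.O), aeval s (gpolQ v i) = aeval s (gpolQ v j) →
      aeval t (gpolQ v j) = aeval t (gpolQ v l) → P.red ⟨s, hs⟩ = P.red ⟨t, ht⟩ →
      P.red ⟨s, hs⟩ = P.redp hp (z : ZMod p) := by
    intro s t hs ht h1 h2 hst
    obtain ⟨m1, e1⟩ := P.red_aeval hp (gdif v i j) hs
    obtain ⟨m2, e2⟩ := P.red_aeval hp (gdif v j l) ht
    have q1 : P.red ⟨aeval s (gdif v i j), m1⟩ = 0 := by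
      have : (⟨aeval s (gdif v i j), m1⟩ : P.O) = 0 := Subtype.ext (hz0 i j s h1)
      rw [this, map_zero]
    have q2 : P.red ⟨aeval t (gdif v j l), m2⟩ = 0 := by
      have : (⟨aeval t (gdif v j l), m2⟩ : P.O) = 0 := Subtype.ext (hz0 j l t h2)
      rw [this, map_zero]
    have hg1 : (gdif v i j).map (Int.castRingHom (ZMod p)) = (X - C (z : ZMod p)) * g := hg
    have hg2 : (gdif v j l).map (Int.castRingHom (ZMod p)) = (X - C (z : ZMod p)) * g' := hg'
    rw [q1, hg1, Polynomial.map_mul, eval_mul, Polynomial.map_sub, map_X, map_C, eval_sub, eval_X, eval_C] at e1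
    rw [q2, hg2, Polynomial.map_mul, eval_mul, Polynomial.map_sub, map_X, map_C, eval_sub, eval_X, eval_C, ← hst] at e2
    by_contra hcon
    have hx : P.red ⟨s, hs⟩ - P.redp hp (z : ZMod p) ≠ 0 := sub_ne_zero.2 hcon
    have k1 : (g.map (P.redp hp)).eval (P.red ⟨s, hs⟩) = 0 := (mul_eq_zero.1 e1.symm).resolve_left hx
    have k2 : (g'.map (P.redp hp)).eval (P.red ⟨s, hs⟩) = 0 := (mul_eq_zero.1 e2.symm).resolve_left hx
    obtain ⟨u, w, huw⟩ := hgg
    have k3 := congrArg (fun f : (ZMod p)[X] => (f.map (P.redp hp)).eval (P.red ⟨s, hs⟩)) huw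
    simp only [Polynomial.map_add, Polynomial.map_mul, eval_add, eval_mul, k1, k2, mul_zero, add_zero,
      Polynomial.map_one, eval_one] at k3
    exact zero_ne_one k3
  have hred : P.red ⟨r, hO r hN⟩ = P.red ⟨r', hO r' hN'⟩ := by
    by_contra hcon
    have := P.ord_sub_eq_zero (hO r hN) (hO r' hN') hcon
    omega
  -- no point on the three graphs
  have FT : ∀ s : F, aeval s (gpolQ v i) = aeval s (gpolQ v j) → aeval s (gpolQ v j) = aeval s (gpolQ v l) →
      False := by
    intro s h1 h2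
    have hs := hO s (hnode i j s hij h1)
    have c1 := FC s s hs hs h1 h2 rfl
    have c2 := FC r r' (hO r hN) (hO r' hN') hr hr' hred
    have d1 : s = r := by
      by_contra hne
      exact F3' i j s r hs (hO r hN) hij h1 hr hne (c1.trans c2.symm)
    have d2 : s = r' := by
      by_contra hne
      exact F3' j l s r' hs (hO r' hN') hjl h2 hr' hne ((c1.trans c2.symm).trans hred)
    exact n1 (d1.symm.trans d2)
  -- F4
  have F4 : ∀ (a b c : ι) (s : F), a ≠ b → c ≠ a → c ≠ b → aeval s (gpolQ v a) = aeval s (gpolQ v b) →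
      aeval s (gpolQ v a) ≠ aeval s (gpolQ v c) := by
    intro a b c s hab hca hcb h1 h2
    have hne : ({a, b} : Set ι) ≠ {a, c} := by
      intro he
      have : c ∈ ({a, b} : Set ι) := by rw [he]; simp
      simp only [Set.mem_insert_iff, Set.mem_singleton_iff] at this
      rcases this with h3 | h3
      · exact hca h3
      · exact hcb h3
    have hsub := Fc a b a c s hab (Ne.symm hca) h1 h2 hne
    have ha : a ∈ ({i, j, l} : Set ι) := hsub (by simp)
    have hb : b ∈ ({i, j, l} : Set ι) := hsub (by simp)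
    have hc : c ∈ ({i, j, l} : Set ι) := hsub (by simp)
    simp only [Set.mem_insert_iff, Set.mem_singleton_iff] at ha hb hc
    have h3 := h1.symm.trans h2
    rcases ha with rfl | rfl | rfl <;> rcases hb with rfl | rfl | rfl <;> rcases hc with rfl | rfl | rfl <;>
      first
        | exact absurd rfl hab
        | exact absurd rfl hca
        | exact absurd rfl hcb
        | exact FT s h1 h3
        | exact FT s h2 h3.symm
        | exact FT s h1.symm h2
        | exact FT s h2.symm h1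
        | exact FT s h3 h2.symm
        | exact FT s h3.symm h1.symm
  -- F5
  have F5 : ∀ (a b : ι) (s : F), s ∈ ({r, r', r''} : Set F) → a ≠ b → aeval s (gpolQ v a) = aeval s (gpolQ v b) →
      a ∈ ({i, j, l} : Set ι) ∧ b ∈ ({i, j, l} : Set ι) := by
    intro a b s hs hab h1
    have key : ∀ c d : ι, c ≠ d → c ∈ ({i, j, l} : Set ι) → d ∈ ({i, j, l} : Set ι) →
        aeval s (gpolQ v c) = aeval s (gpolQ v d) → a ∈ ({i, j, l} : Set ι) ∧ b ∈ ({i, j, l} : Set ι) := by
      intro c d hcd hc hd h2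
      by_cases he : ({a, b} : Set ι) = {c, d}
      · have ha : a ∈ ({c, d} : Set ι) := by rw [← he]; simp
        have hb : b ∈ ({c, d} : Set ι) := by rw [← he]; simp
        simp only [Set.mem_insert_iff, Set.mem_singleton_iff] at ha hb
        constructor
        · rcases ha with rfl | rfl
          · exact hc
          · exact hd
        · rcases hb with rfl | rfl
          · exact hc
          · exact hd
      · have hsub := Fc a b c d s hab hcd h1 h2 he
        exact ⟨hsub (by simp), hsub (by simp)⟩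
    simp only [Set.mem_insert_iff, Set.mem_singleton_iff] at hs
    rcases hs with rfl | rfl | rfl
    · exact key i j hij (by simp) (by simp) hr
    · exact key j l hjl (by simp) (by simp) hr'
    · exact key i l hil (by simp) (by simp) hr''
  -- F6
  have F6 : ∀ a c : ι, a ∈ ({i, j, l} : Set ι) → c ∈ ({i, j, l} : Set ι) → a ≠ c →
      ∃ t ∈ ({r, r', r''} : Set F), aeval t (gpolQ v a) = aeval t (gpolQ v c) := by
    intro a c ha hc hac
    simp only [Set.mem_insert_iff, Set.mem_singleton_iff] at ha hc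
    rcases ha with rfl | rfl | rfl <;> rcases hc with rfl | rfl | rfl
    · exact absurd rfl hac
    · exact ⟨r, by simp, hr⟩
    · exact ⟨r'', by simp, hr''⟩
    · exact ⟨r, by simp, hr.symm⟩
    · exact absurd rfl hac
    · exact ⟨r', by simp, hr'⟩
    · exact ⟨r'', by simp, hr''.symm⟩
    · exact ⟨r', by simp, hr'.symm⟩
    · exact absurd rfl hac
  -- the roots
  have hlead : ∀ a b, a ≠ b → ¬ (p : ℤ) ∣ (gdif v a b).leadingCoeff := by
    intro a b hab
    have h1 := h.lead a b hab
    rw [gdif_leadingCoeff]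
    · exact h1
    · intro h2
      apply h1
      rw [h2, sub_self]
      exact dvd_zero _
  have hroots : ∀ a b, a ≠ b → ∃ R : Finset F, (∀ s, s ∈ R ↔ aeval s (gpolQ v a) = aeval s (gpolQ v b)) ∧
      (gdif v a b).map (algebraMap ℤ F) =
        C (algebraMap ℤ F (gdif v a b).leadingCoeff) * ∏ s ∈ R, (X - C s) :=
    fun a b hab => exists_roots (separable_of_gred hp (h.lead a b hab) (h.sep a b hab))
  refine ⟨P.ord, r, r', r'', hr, hr', hr'', P.isVal, ?_, ?_, ?_⟩
  · intro s hs s' hs' hss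
    split_ifs with hc
    · exact F1 s hc.1 s' hc.2 hss
    · exact hz s hs s' hs' hss hc
  · intro a b s hab hs
    obtain ⟨R, hR, hfR⟩ := hroots a b hab
    have h1 := P.ord_derivative hp (hlead a b hab) R (fun t ht => hK t (hnode a b t hab ((hR t).1 ht))) hfR
      ((hR s).2 hs)
    rw [aeval_derivative_gdif] at h1
    rw [h1]
    refine Finset.sum_eq_zero fun t ht => ?_
    rw [Finset.mem_erase] at ht
    exact F3 a b s t hab hs ((hR t).1 ht.2) (Ne.symm ht.1)
  · intro a b c s hab hs hca hcb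
    obtain ⟨R, hR, hfR⟩ := hroots a c (Ne.symm hca)
    have hsn := hnode a b s hab hs
    have hsR : s ∉ R := fun hm => F4 a b c s hab hca hcb hs ((hR s).1 hm)
    have h1 := P.ord_aeval hp (hlead a c (Ne.symm hca)) R
      (fun t ht => hK t (hnode a c t (Ne.symm hca) ((hR t).1 ht))) hfR (hK s hsn) hsR
    rw [aeval_gdif] at h1
    rw [h1]
    split_ifs with hc
    · obtain ⟨hsT, hcI⟩ := hc
      obtain ⟨t, ht, hta⟩ := F6 a c (F5 a b s hsT hab hs).1 hcI (Ne.symm hca)
      have htR : t ∈ R := (hR t).2 hta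
      have hst : s ≠ t := fun he => hsR (he ▸ htR)
      rw [Finset.sum_eq_single t]
      · exact F1 s hsT t ht hst
      · intro t' ht' htt
        have ha' := (hR t').1 ht'
        refine hz s hsn t' (hnode a c t' (Ne.symm hca) ha') (fun he => hsR (he ▸ ht')) ?_
        rintro ⟨_, hT'⟩
        have g1 := F1 t ht t' hT' (Ne.symm htt)
        have g2 := F3 a c t t' (Ne.symm hca) hta ha' (Ne.symm htt)
        omega
      · intro hn
        exact absurd htR hn
    · refine Finset.sum_eq_zero fun t ht => ?_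
      have hta := (hR t).1 ht
      refine hz s hsn t (hnode a c t (Ne.symm hca) hta) (fun he => hsR (he ▸ ht)) ?_
      rintro ⟨hsT, htT⟩
      exact hc ⟨hsT, (F5 a c t htT (Ne.symm hca) hta).2⟩

end Pool.Agent.Lib.MP_89bcae_ag

end

section

/-!
# The valuation at a prime of type K
-/

open Polynomial

open scoped Classical

namespace Pool.Agent.Lib.MP_89bcae_ag

open Superelliptic

variable {ι : Type} [Fintype ι] [LinearOrder ι] {n : ℕ} {F : Type} [Field F] [Algebra ℚ F]
  [IsAlgClosure ℚ F]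

omit [Fintype ι] [LinearOrder ι] [IsAlgClosure ℚ F] in
theorem eq_of_red_h40 {O κ : Type*} [CommRing O] [IsDomain O] [Field κ] (q : O →+* κ) {G : O[X]}
    (h1 : q (G.coeff 1) ≠ 0) {x y : O} (hx : G.eval x = 0) (hy : G.eval y = 0)
    (hqx : q x = 0) (hqy : q y = 0) : x = y := by
  by_contra hne
  obtain ⟨H, hH⟩ := dvd_iff_isRoot.mpr hx
  rw [hH, eval_mul, eval_sub, eval_X, eval_C] at hy
  have h2 : H.IsRoot y := (mul_eq_zero.mp hy).resolve_left fun h => hne (sub_eq_zero.mp h).symm
  obtain ⟨H', hH'⟩ := dvd_iff_isRoot.mpr h2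
  apply h1
  rw [← coeff_map, hH, hH', Polynomial.map_mul, Polynomial.map_mul, Polynomial.map_sub,
    Polynomial.map_sub, map_X, map_C, map_C, hqx, hqy, C_0, sub_zero, coeff_X_mul,
    mul_coeff_zero, coeff_X_zero, zero_mul]

variable {p : ℕ} {K₀ : Subfield F} (P : Place p K₀)

theorem ord_neg_h40 {x : F} (hx : x ∈ K₀) (hx0 : x ≠ 0) : P.ord (-x) = P.ord x := by
  have h := P.isVal.mul (-1) (neg_mem (one_mem _)) x hx (neg_ne_zero.mpr one_ne_zero) hx0
  rw [P.isVal.neg_one, zero_add, neg_one_mul] at h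
  exact h

theorem ord_inv_h40 {x : F} (hx : x ∈ K₀) (hx0 : x ≠ 0) : P.ord x⁻¹ = -P.ord x := by
  have h1 := P.isVal.mul x hx _ (inv_mem hx) hx0 (inv_ne_zero hx0)
  rw [mul_inv_cancel₀ hx0, ord_one_h57 P] at h1
  omega

theorem reverse_zero_h40 {f : ℤ[X]} {s : F} (hs0 : s ≠ 0) (h0 : aeval s f = 0) :
    aeval s⁻¹ (reverse f) = 0 := by
  letI : Invertible s := invertibleOfNonzero hs0
  have h2 := (eval₂_reverse_eq_zero_iff (algebraMap ℤ F) s f).2 h0
  rw [invOf_eq_inv] at h2
  exact h2

theorem red_int_h40 (hp : p.Prime) (z : ℤ) (hz : ¬ (p : ℤ) ∣ z) :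
    P.redp hp (Int.castRingHom (ZMod p) z) ≠ 0 := by
  haveI := P.charP hp
  have h6 : ((P.redp hp).comp (Int.castRingHom (ZMod p))) = Int.castRingHom P.κ :=
    RingHom.ext_int _ _
  intro h
  have h7 : Int.castRingHom P.κ z = 0 := by
    rw [← h6]
    exact h
  exact hz ((CharP.intCast_eq_zero_iff P.κ p z).1 h7)

/-- The value of a root which is not integral, if the second coefficient is prime to `p`. -/
theorem ord_root_h40 (hp : p.Prime) {f : ℤ[X]} (hf0 : f ≠ 0) (hf1 : ¬ (p : ℤ) ∣ f.nextCoeff) {s : F}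
    (hs : s ∈ K₀) (hO : s ∉ P.O) (h0 : aeval s f = 0) :
    P.ord s = -P.ord ((f.leadingCoeff : ℤ) : F) := by
  haveI : CharZero F := algebraRat.charZero F
  obtain ⟨hs0, hm, hr⟩ := P.inv_h64 hs hO
  have h1 := reverse_zero_h40 hs0 h0
  rw [← divX_mul_X_add (reverse f), coeff_zero_reverse, map_add, map_mul, aeval_X, aeval_C] at h1
  obtain ⟨h, h3⟩ := P.red_aeval_h64 hp (divX (reverse f)) hm
  rw [hr, ← coeff_zero_eq_eval_zero, coeff_map, coeff_map, coeff_divX, zero_add,
    coeff_one_reverse] at h3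
  set y : F := aeval s⁻¹ (divX (reverse f)) with hy
  have hry : P.red ⟨y, h⟩ ≠ 0 := by
    rw [h3]
    exact red_int_h40 P hp _ hf1
  have hy0 : y ≠ 0 := by
    intro h4
    apply hry
    have h5 : (⟨y, h⟩ : P.O) = 0 := Subtype.ext h4
    rw [h5, map_zero]
  have hyK := ((P.mem_O _).1 h).1
  have hoy : P.ord y = 0 := by
    have h4 : ¬ 0 < P.ord y := by
      rw [← P.red_eq_zero _ h hy0]
      exact hry
    rcases ((P.mem_O _).1 h).2 with h5 | h5
    · exact absurd h5 hy0
    · omega
  have hsi : s⁻¹ ∈ K₀ := inv_mem hs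
  have hsi0 : s⁻¹ ≠ 0 := inv_ne_zero hs0
  have h5 : ((f.leadingCoeff : ℤ) : F) = -(y * s⁻¹) := by
    rw [eq_intCast] at h1
    linear_combination h1
  rw [h5, ord_neg_h40 P (mul_mem hyK hsi) (mul_ne_zero hy0 hsi0), P.isVal.mul _ hyK _ hsi hy0 hsi0,
    hoy, ord_inv_h40 P hs hs0]
  ring

/-- At most one root is not integral, if the second coefficient is prime to `p`. -/
theorem unique_root_h40 (hp : p.Prime) {f : ℤ[X]} (hf1 : ¬ (p : ℤ) ∣ f.nextCoeff) {s s' : F}
    (hs : s ∈ K₀) (hO : s ∉ P.O) (h0 : aeval s f = 0) (hs' : s' ∈ K₀) (hO' : s' ∉ P.O)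
    (h0' : aeval s' f = 0) : s = s' := by
  obtain ⟨hs0, hm, hr⟩ := P.inv_h64 hs hO
  obtain ⟨hs0', hm', hr'⟩ := P.inv_h64 hs' hO'
  have h1 : ((reverse f).map (Int.castRingHom P.O)).eval ⟨s⁻¹, hm⟩ = 0 := by
    apply Subtype.ext
    rw [eval_sub_h57 P _ hm, reverse_zero_h40 hs0 h0]
    rfl
  have h2 : ((reverse f).map (Int.castRingHom P.O)).eval ⟨s'⁻¹, hm'⟩ = 0 := by
    apply Subtype.ext
    rw [eval_sub_h57 P _ hm', reverse_zero_h40 hs0' h0']
    rfl
  have h3 : P.red (((reverse f).map (Int.castRingHom P.O)).coeff 1) ≠ 0 := by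
    rw [coeff_map, coeff_one_reverse]
    have e : P.red.comp (Int.castRingHom P.O) = (P.redp hp).comp (Int.castRingHom (ZMod p)) :=
      RingHom.ext_int _ _
    have e2 : P.red (Int.castRingHom P.O f.nextCoeff) =
        P.redp hp (Int.castRingHom (ZMod p) f.nextCoeff) := RingHom.congr_fun e _
    rw [e2]
    exact red_int_h40 P hp _ hf1
  have h4 := eq_of_red_h40 P.red h3 h1 h2 hr hr'
  exact inv_injective (congrArg Subtype.val h4)

/-- If all the roots are integral and `p` divides the leading coefficient, the reduction is zero. -/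
theorem map_zero_h40 (hp : p.Prime) {f : ℤ[X]} (hf : (p : ℤ) ∣ f.leadingCoeff) (R : Finset F)
    (hRO : ∀ s ∈ R, s ∈ P.O)
    (hfR : f.map (algebraMap ℤ F) = C (algebraMap ℤ F f.leadingCoeff) * ∏ s ∈ R, (X - C s)) :
    f.map (Int.castRingHom (ZMod p)) = 0 := by
  have h1 : f.map (Int.castRingHom P.O) =
      C (Int.castRingHom P.O f.leadingCoeff) *
        ∏ s ∈ R.attach, (X - C (⟨s.1, hRO s.1 s.2⟩ : P.O)) := by
    apply Polynomial.map_injective P.O.subtype Subtype.val_injective
    rw [Polynomial.map_map, Polynomial.map_mul, Polynomial.map_prod, map_C]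
    have e1 : P.O.subtype.comp (Int.castRingHom P.O) = algebraMap ℤ F := RingHom.ext_int _ _
    rw [e1, hfR]
    have e2 : P.O.subtype ((Int.castRingHom P.O) f.leadingCoeff) =
        algebraMap ℤ F f.leadingCoeff := by
      rw [← e1]
      rfl
    rw [e2, ← Finset.prod_attach]
    congr 1
    refine Finset.prod_congr rfl fun s _ => ?_
    rw [Polynomial.map_sub, map_X, map_C]
    rfl
  haveI := P.charP hp
  haveI : Fact p.Prime := ⟨hp⟩
  have h2 := congrArg (Polynomial.map P.red) h1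
  rw [Polynomial.map_map, Polynomial.map_mul, map_C] at h2
  have e1 : P.red.comp (Int.castRingHom P.O) =
      (P.redp hp).comp (Int.castRingHom (ZMod p)) := RingHom.ext_int _ _
  have e3 : P.red (Int.castRingHom P.O f.leadingCoeff) = 0 := by
    have e2 : P.red (Int.castRingHom P.O f.leadingCoeff) =
        P.redp hp (Int.castRingHom (ZMod p) f.leadingCoeff) := RingHom.congr_fun e1 _
    have e4 : Int.castRingHom (ZMod p) f.leadingCoeff = 0 :=
      (ZMod.intCast_zmod_eq_zero_iff_dvd _ _).2 hf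
    rw [e2, e4, map_zero]
  rw [e1, e3, C_0, zero_mul, ← Polynomial.map_map] at h2
  exact (Polynomial.map_eq_zero (P.redp hp)).1 h2

/-- **The valuation at a prime of type K.** Proof: `P` from `exists_place_three` for `S` the set of the nodes
(`nodes_stable`). The nodes of the other pairs are in `P.O` (`Place.root_mem`). Let
`f = gdif v a b = c_n X ^ n + c_{n-1} X ^ (n-1) + ...`, `p` divides `c_n` exactly once, and not `c_{n-1}`
(`h.deg`, `h.dvd`). (1) A root `s ∉ P.O` of `f`: `s⁻¹ ∈ P.O` has positive order (`Place.inv_h64`), and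
`c_n s = - c_{n-1} - c_{n-2} s⁻¹ - ...` has order `0`, so `P.ord s = - P.ord c_n = - P.e`. (2) At most one
root is not in `P.O`: the inverses of two such roots `s`, `s'` are roots of the reverse polynomial
`g = c_n + c_{n-1} X + ... + c_0 X ^ n`, whose derivative at `0` is a unit:
`0 = g(x) - g(x') = (x - x') (c_{n-1} + element of the maximal ideal)`, so `x = x'`. (3) At least one: if all
roots are in `P.O`, then in `f = c_n ∏ (X - s)` all coefficients have positive order or are zero,
contradiction for `c_{n-1}`. So there is exactly one such root `u`. (4) Two different nodes in `P.O` have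
different reductions: `h.sep` (`Place.red_ne_of_separable`) and `h.cop` (`Place.red_ne_of_isCoprime`).
(5) `P.e = 1`: otherwise some `σ` in the inertia group moves a node; it permutes the nodes of each pair, fixes
all nodes in `P.O` by (4), and so it fixes `u` (the only root of `f` which is left), contradiction. (6) The
values: `P.ord (s - s') = 0` for nodes `s ≠ s'` in `P.O` (`Place.ord_sub_eq_zero`), `P.ord (u - s) = -1`
(`u - s = u (1 - s u⁻¹)`); `P.ord c_n = 1` and the other leading coefficients are prime to `p`. -/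
theorem exists_val_typeK (v : ι × Fin (n + 1) → ℤ) {p : ℕ} (hp : p.Prime) {a b : ι}
    (hab : a ≠ b) (h : TypeK p a b v) (hn : 2 ≤ n) (hsep : (gpolQ v a - gpolQ v b).Separable) :
    ∃ (ν : F → ℤ) (u : F), aeval u (gpolQ v a) = aeval u (gpolQ v b) ∧
      IsVal (IntermediateField.adjoin ℚ (nodes ℚ F (gpolQ v))).toSubfield ν ∧
      DifV ν (gpolQ v) (fun s s' => if s = u ∨ s' = u then -1 else 0)
        (fun c d => if ({c, d} : Set ι) = {a, b} then 1 else 0) := by
  haveI : Fact p.Prime := ⟨hp⟩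
  haveI : CharZero F := algebraRat.charZero F
  -- the leading coefficients
  have hlead : ∀ c d, c ≠ d → v (c, Fin.last n) ≠ v (d, Fin.last n) := by
    intro c d hcd he
    by_cases hs : ({c, d} : Set ι) = {a, b}
    · apply h.ndvd
      rcases Set.pair_eq_pair_iff.1 hs with ⟨h2, h3⟩ | ⟨h2, h3⟩
      · rw [← h2, ← h3, he, sub_self]
        exact dvd_zero _
      · rw [← h2, ← h3, he, sub_self]
        exact dvd_zero _
    · apply h.lead c d hcd hs
      rw [he, sub_self]
      exact dvd_zero _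
  have hlc : ∀ c d, c ≠ d → ({c, d} : Set ι) ≠ {a, b} →
      ¬ (p : ℤ) ∣ (gdif v c d).leadingCoeff := by
    intro c d hcd hs
    rw [gdif_leadingCoeff (hlead c d hcd)]
    exact h.lead c d hcd hs
  have hg0 : ∀ c d, c ≠ d → gdif v c d ≠ 0 := by
    intro c d hcd h0
    have h1 := gdif_leadingCoeff (hlead c d hcd)
    rw [h0, leadingCoeff_zero] at h1
    exact hlead c d hcd (sub_eq_zero.1 h1.symm)
  have hne : ∀ c d, c ≠ d → gpolQ v c ≠ gpolQ v d := by
    intro c d hcd he
    have h1 := gdif_map_rat v c d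
    rw [he, sub_self] at h1
    exact hg0 c d hcd ((Polynomial.map_eq_zero_iff (Int.castRingHom ℚ).injective_int).1 h1)
  obtain ⟨P, hP, -⟩ := exists_place_three (F := F) hp (nodes ℚ F (gpolQ v)) (nodes_gpolQ_finite hne)
    (nodes_stable (gpolQ v))
  have hzero : ∀ (c d : ι) (s : F), aeval s (gpolQ v c) = aeval s (gpolQ v d) →
      aeval s (gdif v c d) = 0 := by
    intro c d s hs
    rw [aeval_gdif, hs, sub_self]
  have hSK : ∀ s ∈ nodes ℚ F (gpolQ v),
      s ∈ (IntermediateField.adjoin ℚ (nodes ℚ F (gpolQ v))).toSubfield := fun s hs =>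
    IntermediateField.subset_adjoin ℚ _ hs
  -- the second coefficient
  have hnd : (gdif v a b).natDegree = n := gdif_natDegree (hlead a b hab)
  have hnc : ¬ (p : ℤ) ∣ (gdif v a b).nextCoeff := by
    intro hd
    rw [nextCoeff_of_natDegree_pos (by rw [hnd]; omega), hnd] at hd
    have h1 : (gred p v a b).coeff (n - 1) = 0 := by
      unfold gred
      rw [coeff_map]
      exact (ZMod.intCast_zmod_eq_zero_iff_dvd _ _).2 hd
    have h2 : (gred p v a b).natDegree = n - 1 := by
      have := h.deg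
      omega
    rw [← h2, coeff_natDegree, leadingCoeff_eq_zero] at h1
    rw [h1, natDegree_zero] at h2
    omega
  have hlcab : (gdif v a b).leadingCoeff = v (a, Fin.last n) - v (b, Fin.last n) :=
    gdif_leadingCoeff (hlead a b hab)
  obtain ⟨R, hR, hfR⟩ := exists_roots (F := F) hsep
  have hRS : ∀ s ∈ R, s ∈ nodes ℚ F (gpolQ v) := fun s hs => ⟨a, b, hab, (hR s).1 hs⟩
  -- the exceptional root
  obtain ⟨u, huR, huO⟩ : ∃ u ∈ R, u ∉ P.O := by
    by_contra hcon
    push Not at hcon
    have h1 := map_zero_h40 P hp (f := gdif v a b) (by rw [hlcab]; exact h.dvd) R hcon hfR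
    have h2 : (gred p v a b).Separable := h.sep a b hab
    unfold gred at h2
    rw [h1] at h2
    exact not_separable_zero h2
  have hu0 : aeval u (gpolQ v a) = aeval u (gpolQ v b) := (hR u).1 huR
  have huK := hSK u (hRS u huR)
  -- the pair of a node
  have hpair : ∀ (c d : ι) (s : F), ({c, d} : Set ι) = {a, b} →
      aeval s (gpolQ v c) = aeval s (gpolQ v d) → aeval s (gpolQ v a) = aeval s (gpolQ v b) := by
    intro c d s hs h1
    rcases Set.pair_eq_pair_iff.1 hs with ⟨h2, h3⟩ | ⟨h2, h3⟩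
    · rw [← h2, ← h3]; exact h1
    · rw [← h2, ← h3]; exact h1.symm
  have huniq : ∀ s ∈ nodes ℚ F (gpolQ v), s ∉ P.O → s = u := by
    intro s hs hsO
    obtain ⟨c, d, hcd, hs2⟩ := id hs
    by_cases hset : ({c, d} : Set ι) = {a, b}
    · exact unique_root_h40 P hp hnc (hSK s hs) hsO (hzero a b s (hpair c d s hset hs2)) huK huO
        (hzero a b u hu0)
    · exact absurd (P.root_mem hp (hlc c d hcd hset) (hSK s hs) (hzero c d s hs2)) hsO
  have hSO : ∀ s ∈ nodes ℚ F (gpolQ v), s ≠ u → s ∈ P.O := by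
    intro s hs hsu
    by_contra hcon
    exact hsu (huniq s hs hcon)
  -- reductions
  have hred : ∀ s ∈ nodes ℚ F (gpolQ v), ∀ s' ∈ nodes ℚ F (gpolQ v), s ≠ s' →
      ∀ (hs : s ∈ P.O) (hs' : s' ∈ P.O), P.red ⟨s, hs⟩ ≠ P.red ⟨s', hs'⟩ := by
    rintro s ⟨c, d, hcd, h1⟩ s' ⟨c', d', hcd', h1'⟩ hss hs hs'
    by_cases hset : ({c, d} : Set ι) = {c', d'}
    · refine P.red_ne_of_separable hp (f := gdif v c d) (h.sep c d hcd) hs hs' (hzero c d s h1)
        (hzero c d s' ?_) hss
      rcases Set.pair_eq_pair_iff.1 hset with ⟨h2, h3⟩ | ⟨h2, h3⟩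
      · rw [h2, h3]; exact h1'
      · rw [h2, h3]; exact h1'.symm
    · exact P.red_ne_of_isCoprime hp (f := gdif v c d) (g := gdif v c' d')
        (h.cop c d c' d' hcd hcd' hset) hs hs' (hzero c d s h1) (hzero c' d' s' h1')
  -- the ramification index
  have he : P.e = 1 := by
    by_contra hcon
    have he2 : 2 ≤ P.e := by
      have := P.e_pos
      omega
    obtain ⟨σ, ⟨s₀, hs₀, hs₀ne⟩, hσ⟩ := hP he2
    have hstab := nodes_stable (gpolQ v) σ
    have hfix : ∀ s ∈ nodes ℚ F (gpolQ v), s ∈ P.O → σ s = s := by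
      intro s hs hsO
      obtain ⟨h1, h2⟩ := hσ s hsO
      by_contra h3
      exact hred (σ s) (hstab s hs) s hs h3 h1 hsO h2
    have hσu : σ u = u := by
      have h1 := hstab u (hRS u huR)
      by_cases h2 : σ u ∈ P.O
      · have h3 := hfix (σ u) h1 h2
        exact σ.injective h3
      · exact huniq _ h1 h2
    apply hs₀ne
    by_cases h1 : s₀ ∈ P.O
    · exact hfix s₀ hs₀ h1
    · rw [huniq s₀ hs₀ h1]
      exact hσu
  -- the values
  have hval : padicValInt p (v (a, Fin.last n) - v (b, Fin.last n)) = 1 := by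
    have h0 : v (a, Fin.last n) - v (b, Fin.last n) ≠ 0 := sub_ne_zero.2 (hlead a b hab)
    have h1 : 1 ≤ padicValInt p (v (a, Fin.last n) - v (b, Fin.last n)) := by
      have := (padicValInt_dvd_iff (p := p) 1 (v (a, Fin.last n) - v (b, Fin.last n))).1
        (by rw [pow_one]; exact h.dvd)
      exact this.resolve_left h0
    have h2 : ¬ 2 ≤ padicValInt p (v (a, Fin.last n) - v (b, Fin.last n)) := fun h3 =>
      h.ndvd ((padicValInt_dvd_iff (p := p) 2 _).2 (Or.inr h3))
    omega
  have hordab : P.ord (((v (a, Fin.last n) - v (b, Fin.last n) : ℤ)) : F) = 1 := by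
    rw [P.rat _ (sub_ne_zero.2 (hlead a b hab)), hval, he]
    rfl
  have hordu : P.ord u = -1 := by
    rw [ord_root_h40 P hp (hg0 a b hab) hnc huK huO (hzero a b u hu0), hlcab, hordab]
  have hu_ne : u ≠ 0 := by
    intro h0
    apply huO
    rw [h0]
    exact zero_mem _
  have hus : ∀ s ∈ nodes ℚ F (gpolQ v), s ≠ u → P.ord (u - s) = -1 := by
    intro s hs hsu
    have hsO := hSO s hs hsu
    rcases ((P.mem_O s).1 hsO).2 with h0 | h0
    · rw [h0, sub_zero]
      exact hordu
    · by_cases hs0 : s = 0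
      · rw [hs0, sub_zero]
        exact hordu
      · have h1 := ord_neg_h40 P (hSK s hs) hs0
        have h2 := (P.ord_add huK (neg_mem (hSK s hs)) hu_ne (neg_ne_zero.2 hs0)
          (by rw [h1, hordu]; omega)).2
        rw [← sub_eq_add_neg, hordu] at h2
        exact h2
  refine ⟨P.ord, u, hu0, P.isVal, ?_, ?_⟩
  · intro s hs s' hs' hss
    show P.ord (s - s') = if s = u ∨ s' = u then -1 else 0
    by_cases h1 : s = u
    · rw [if_pos (Or.inl h1), h1]
      exact hus s' hs' fun h2 => hss (h1.trans h2.symm)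
    · by_cases h2 : s' = u
      · rw [if_pos (Or.inr h2), h2, ← neg_sub u s, ord_neg_h40 P (sub_mem huK (hSK s hs))
          (sub_ne_zero.2 fun h3 => h1 h3.symm)]
        exact hus s hs h1
      · rw [if_neg (by tauto)]
        exact P.ord_sub_eq_zero (hSO s hs h1) (hSO s' hs' h2)
          (hred s hs s' hs' hss (hSO s hs h1) (hSO s' hs' h2))
  · intro i j hij
    show P.ord (algebraMap ℚ F (gpolQ v i - gpolQ v j).leadingCoeff) =
      if ({i, j} : Set ι) = {a, b} then 1 else 0
    have h1 : algebraMap ℚ F (gpolQ v i - gpolQ v j).leadingCoeff =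
        (((v (i, Fin.last n) - v (j, Fin.last n) : ℤ)) : F) := by
      rw [← gdif_map_rat, leadingCoeff_map_of_injective (Int.castRingHom ℚ).injective_int,
        gdif_leadingCoeff (hlead i j hij)]
      rw [eq_intCast, map_intCast]
    rw [h1]
    by_cases hset : ({i, j} : Set ι) = {a, b}
    · rw [if_pos hset]
      rcases Set.pair_eq_pair_iff.1 hset with ⟨h2, h3⟩ | ⟨h2, h3⟩
      · rw [h2, h3]
        exact hordab
      · rw [h2, h3]
        have h4 : (((v (b, Fin.last n) - v (a, Fin.last n) : ℤ)) : F) =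
            -(((v (a, Fin.last n) - v (b, Fin.last n) : ℤ)) : F) := by
          push_cast
          ring
        rw [h4, ord_neg_h40 P (intCast_mem _ _)
          (Int.cast_ne_zero.2 (sub_ne_zero.2 (hlead a b hab)))]
        exact hordab
    · rw [if_neg hset, P.rat _ (sub_ne_zero.2 (hlead i j hij)),
        padicValInt.eq_zero_of_not_dvd (h.lead i j hij hset)]
      simp

end Pool.Agent.Lib.MP_89bcae_ag

end

section

/-!
# The valuation at a prime of type D
-/

open Polynomial

open scoped Classical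

namespace Pool.Agent.Lib.MP_89bcae_ag

open Superelliptic

section Aux

variable {F : Type} [Field F] [Algebra ℚ F] {p : ℕ} {K₀ : Subfield F} (P : Place p K₀)

omit [Algebra ℚ F] in
theorem ord_neg_h64 {x : F} (hx : x ∈ K₀) (hx0 : x ≠ 0) : P.ord (-x) = P.ord x := by
  have h1 := P.isVal.mul (-1) (neg_mem (one_mem _)) x hx (neg_ne_zero.2 one_ne_zero) hx0
  rw [P.isVal.neg_one, neg_one_mul, zero_add] at h1
  exact h1

omit [Algebra ℚ F] in
theorem ord_div_h64 {x y : F} (hx : x ∈ K₀) (hy : y ∈ K₀) (hx0 : x ≠ 0) (hy0 : y ≠ 0) :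
    P.ord (x / y) = P.ord x - P.ord y := by
  have h1 := P.isVal.mul (x / y) (div_mem hx hy) y hy (div_ne_zero hx0 hy0) hy0
  rw [div_mul_cancel₀ _ hy0] at h1
  omega

omit [Algebra ℚ F] in
/-- A quotient by an element of smaller value is integral. -/
theorem div_mem_O_h64 {x y : F} (hx : x ∈ K₀) (hy : y ∈ K₀) (hy0 : y ≠ 0)
    (h : x ≠ 0 → P.ord y ≤ P.ord x) : x / y ∈ P.O := by
  rw [P.mem_O]
  refine ⟨div_mem hx hy, ?_⟩
  by_cases hx0 : x = 0
  · left
    rw [hx0, zero_div]
  · right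
    rw [ord_div_h64 P hx hy hx0 hy0]
    have := h hx0
    omega

/-- The algebra of the double root: `y = (z - u) + (z - w)` has value at least `2`. -/
theorem double_root_h64 {lc fz' G G' a b : F} (hlc : lc ∈ K₀) (hlc0 : lc ≠ 0) (hlcv : P.ord lc = 0)
    (hG : G ∈ K₀) (hG0 : G ≠ 0) (hGv : P.ord G = 0) (hG' : G' ∈ P.O)
    (ha : a ∈ K₀) (ha0 : a ≠ 0) (hav : P.ord a = 1) (hb : b ∈ K₀) (hb0 : b ≠ 0) (hbv : P.ord b = 1)
    (hf : fz' ∈ K₀) (hfv : fz' ≠ 0 → 2 ≤ P.ord fz')
    (he : fz' = lc * ((a + b) * G + a * b * G')) (hab0 : a + b ≠ 0) : 2 ≤ P.ord (a + b) := by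
  have haa : a * a ∈ K₀ := mul_mem ha ha
  have haa0 : a * a ≠ 0 := mul_ne_zero ha0 ha0
  have haav : P.ord (a * a) = 2 := by
    rw [P.isVal.mul a ha a ha ha0 ha0, hav]
    rfl
  have h1 : fz' / (a * a) ∈ P.O := by
    refine div_mem_O_h64 P hf haa haa0 fun h => ?_
    rw [haav]
    exact hfv h
  have h2 : (1 : F) / lc ∈ P.O := by
    refine div_mem_O_h64 P (one_mem _) hlc hlc0 fun _ => ?_
    rw [hlcv, ord_one_h57 P]
  have h3 : (1 : F) / G ∈ P.O := by
    refine div_mem_O_h64 P (one_mem _) hG hG0 fun _ => ?_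
    rw [hGv, ord_one_h57 P]
  have h4 : b / a ∈ P.O := by
    refine div_mem_O_h64 P hb ha ha0 fun _ => ?_
    rw [hav, hbv]
  have h5 : (a + b) / (a * a) = (fz' / (a * a) * (1 / lc) - b / a * G') * (1 / G) := by
    rw [he]
    field_simp
    ring
  have h6 : (a + b) / (a * a) ∈ P.O := by
    rw [h5]
    exact mul_mem (sub_mem (mul_mem h1 h2) (mul_mem h4 hG')) h3
  have h7 := ((P.mem_O _).1 h6).2
  rcases h7 with h7 | h7
  · exact absurd h7 (div_ne_zero hab0 haa0)
  · rw [ord_div_h64 P (add_mem ha hb) haa hab0 haa0, haav] at h7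
    omega

end Aux

variable {ι : Type} [Fintype ι] [LinearOrder ι] {n : ℕ} {F : Type} [Field F] [Algebra ℚ F]
  [IsAlgClosure ℚ F]

/-- **The valuation at a prime of type D.** Proof: `P` from `exists_place_three` for `S` the set of the nodes
(`nodes_stable`). All the nodes are in `P.O` (`Place.root_mem`). Two different nodes `s`, `s'` with the same
reduction are the two roots `u`, `w` of `α_a - α_b` with the reduction of `z` (`h.cop`:
`Place.red_ne_of_isCoprime`; `h.sep`: `Place.red_ne_of_separable`; for `α_a - α_b` see the proof of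
`exists_swap_typeD` (`Gph/Swap.lean`)). An element of the inertia group fixes all the other nodes and
permutes `u`, `w`; so `P.e < 3` by the second part of `exists_place_three`. With
`f = gdif v a b = lc ∏ (X - s)`, `P.ord (f z) = P.e * 1` (`Place.rat`, `h.dbl`: `p` divides `f z` exactly
once; `Place.ord_aeval`), and it is `P.ord (z - u) + P.ord (z - w)`, both `≥ 1` (`Place.ord_sub_pos`): so
`P.e = 2` and both are `1`. The derivative: `f' z` is divisible by `p` (double root modulo `p`), so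
`P.ord (f' z) ≥ 2` (or it is `0`) and `f' z = lc ((z - u) + (z - w)) g z + lc (z - u) (z - w) g' z` with
`g = ∏` over the other roots, `P.ord (g z) = 0`: `(z - u) + (z - w)` is `0` or has `P.ord ≥ 2`. Since
`p ≠ 2`, `P.ord (2 (z - u)) = 1`, and `u - w = ((z - u) + (z - w)) - 2 (z - u)`, so `P.ord (u - w) = 1`
(`Place.ord_add` or the ideal `{x | x = 0 ∨ 2 ≤ ord x}` of `P.O`). The other differences have different
reductions (`Place.ord_sub_eq_zero`). The leading coefficients are prime to `p` (`h.lead`,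
`Place.rat`). -/
theorem exists_val_typeD (v : ι × Fin (n + 1) → ℤ) {p : ℕ} (hp : p.Prime) (hp2 : p ≠ 2) {a b : ι}
    (hab : a ≠ b) (h : TypeD p a b v) (hsep : (gpolQ v a - gpolQ v b).Separable) :
    ∃ (ν : F → ℤ) (u w : F), u ≠ w ∧ aeval u (gpolQ v a) = aeval u (gpolQ v b) ∧
      aeval w (gpolQ v a) = aeval w (gpolQ v b) ∧
      IsVal (IntermediateField.adjoin ℚ (nodes ℚ F (gpolQ v))).toSubfield ν ∧
      DifV ν (gpolQ v) (fun s s' => if s ∈ ({u, w} : Set F) ∧ s' ∈ ({u, w} : Set F) then 1 else 0)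
        (fun _ _ => 0) := by
  have : Fact p.Prime := ⟨hp⟩
  have : CharZero F := algebraRat.charZero F
  have hlead : ∀ c d, c ≠ d → v (c, Fin.last n) ≠ v (d, Fin.last n) := by
    intro c d hcd he
    apply h.lead c d hcd
    rw [he, sub_self]
    exact dvd_zero _
  have hlc : ∀ c d, c ≠ d → ¬ (p : ℤ) ∣ (gdif v c d).leadingCoeff := by
    intro c d hcd
    rw [gdif_leadingCoeff (hlead c d hcd)]
    exact h.lead c d hcd
  have hne : ∀ c d, c ≠ d → gpolQ v c ≠ gpolQ v d := by
    intro c d hcd he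
    have h1 := gdif_map_rat v c d
    rw [he, sub_self] at h1
    have h2 : gdif v c d = 0 :=
      (Polynomial.map_eq_zero_iff (Int.castRingHom ℚ).injective_int).1 h1
    apply hlc c d hcd
    rw [h2, leadingCoeff_zero]
    exact dvd_zero _
  obtain ⟨P, -, hP⟩ := exists_place_three (F := F) hp (nodes ℚ F (gpolQ v)) (nodes_gpolQ_finite hne)
    (nodes_stable (gpolQ v))
  have hzero : ∀ (c d : ι) (s : F), aeval s (gpolQ v c) = aeval s (gpolQ v d) →
      aeval s (gdif v c d) = 0 := by
    intro c d s hs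
    rw [aeval_gdif, hs, sub_self]
  have hSK : ∀ s ∈ nodes ℚ F (gpolQ v),
      s ∈ (IntermediateField.adjoin ℚ (nodes ℚ F (gpolQ v))).toSubfield := fun s hs =>
    IntermediateField.subset_adjoin ℚ _ hs
  have hSO : ∀ s ∈ nodes ℚ F (gpolQ v), s ∈ P.O := by
    intro s hs
    obtain ⟨c, d, hcd, hs2⟩ := id hs
    exact P.root_mem hp (hlc c d hcd) (hSK s hs) (hzero c d s hs2)
  obtain ⟨R, hR, hfR⟩ := exists_roots (F := F) hsep
  have hRS : ∀ s ∈ R, s ∈ nodes ℚ F (gpolQ v) := fun s hs => ⟨a, b, hab, (hR s).1 hs⟩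
  have hRO : ∀ s ∈ R, s ∈ P.O := fun s hs => hSO s (hRS s hs)
  obtain ⟨z, hz1, hz2, g, hg, hgz, hgs⟩ := h.dbl
  obtain ⟨c, hc⟩ := swRed_h70 hp P (gdif v a b) R hRO hfR
  set zb : P.κ := P.redp hp (z : ZMod p) with hzb
  set gb : P.κ[X] := g.map (P.redp hp) with hgb
  have hfb : (gred p v a b).map (P.redp hp) = (X - C zb) ^ 2 * gb := by
    rw [hg, Polynomial.map_mul, Polynomial.map_pow, Polynomial.map_sub, map_X, map_C]
  have hgbz : gb.eval zb ≠ 0 := by
    rw [hgb, hzb, eval_map, eval₂_at_apply]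
    exact fun h0 => hgz ((map_eq_zero (P.redp hp)).1 h0)
  have hgb0 : gb ≠ 0 := by
    intro h0
    apply hgbz
    rw [h0, eval_zero]
  have hgbs : gb.Separable := hgs.map
  have hfb0 : (X - C zb) ^ 2 * gb ≠ 0 := mul_ne_zero (pow_ne_zero _ (X_sub_C_ne_zero _)) hgb0
  have hprod : C c * ∏ s ∈ R, (X - C (swRd_h70 P s)) = (X - C zb) ^ 2 * gb := by
    rw [← hfb, ← hc]
    rfl
  have hc0 : c ≠ 0 := by
    intro h0
    rw [h0, C_0, zero_mul] at hprod
    exact hfb0 hprod.symm
  have hroots : R.val.map (swRd_h70 P) = 2 • {zb} + gb.roots := by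
    have h1 := congrArg Polynomial.roots hprod
    rw [roots_C_mul _ hc0, roots_mul hfb0, roots_pow, roots_X_sub_C] at h1
    rw [← h1]
    have h2 := Polynomial.roots_multiset_prod_X_sub_C (R.val.map (swRd_h70 P))
    rw [Multiset.map_map] at h2
    exact h2.symm
  have hcz : (R.filter (fun s => zb = swRd_h70 P s)).card = 2 := by
    rw [swCount_h70, hroots, Multiset.count_add, Multiset.count_nsmul, Multiset.count_singleton_self]
    have h1 : gb.roots.count zb = 0 := by
      rw [Multiset.count_eq_zero]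
      intro h2
      exact hgbz ((mem_roots hgb0).1 h2)
    rw [h1]
  have hct : ∀ t, t ≠ zb → (R.filter (fun s => t = swRd_h70 P s)).card ≤ 1 := by
    intro t ht
    rw [swCount_h70, hroots, Multiset.count_add, Multiset.count_nsmul,
      Multiset.count_singleton, if_neg ht, mul_zero, zero_add]
    exact Multiset.nodup_iff_count_le_one.1 (nodup_roots hgbs) t
  obtain ⟨u, w, huw, hfil⟩ := Finset.card_eq_two.1 hcz
  have hu : u ∈ R ∧ zb = swRd_h70 P u := by
    have : u ∈ R.filter (fun s => zb = swRd_h70 P s) := by rw [hfil]; simp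
    exact Finset.mem_filter.1 this
  have hw : w ∈ R ∧ zb = swRd_h70 P w := by
    have : w ∈ R.filter (fun s => zb = swRd_h70 P s) := by rw [hfil]; simp
    exact Finset.mem_filter.1 this
  have huwR : ∀ s ∈ R, swRd_h70 P s = zb → s = u ∨ s = w := by
    intro s hs hs2
    have : s ∈ R.filter (fun s => zb = swRd_h70 P s) := Finset.mem_filter.2 ⟨hs, hs2.symm⟩
    rw [hfil] at this
    simpa using this
  -- the ramification
  have hzO : ((z : ℤ) : F) ∈ P.O := P.int_mem z
  have hzrd : swRd_h70 P ((z : ℤ) : F) = zb := by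
    rw [swRd_eq_h70 P hzO]
    have e1 : (⟨((z : ℤ) : F), hzO⟩ : P.O) = ((z : ℤ) : P.O) := Subtype.ext (by simp)
    rw [e1, map_intCast, hzb, map_intCast]
  have hfz0 : (gdif v a b).eval z ≠ 0 := by
    intro h0
    apply hz2
    rw [h0]
    exact dvd_zero _
  have haevq : ∀ q : ℤ[X], aeval ((z : ℤ) : F) q = ((q.eval z : ℤ) : F) := by
    intro q
    have e1 : ((z : ℤ) : F) = algebraMap ℤ F z := (eq_intCast (algebraMap ℤ F) z).symm
    rw [e1, aeval_algebraMap_apply, coe_aeval_eq_eval]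
    exact eq_intCast (algebraMap ℤ F) _
  have haev : aeval ((z : ℤ) : F) (gdif v a b) = (((gdif v a b).eval z : ℤ) : F) := haevq _
  have hzR : ((z : ℤ) : F) ∉ R := by
    intro h0
    have h1 := hzero a b _ ((hR _).1 h0)
    rw [haev] at h1
    exact hfz0 (by exact_mod_cast h1)
  have hzK : ((z : ℤ) : F) ∈ (IntermediateField.adjoin ℚ (nodes ℚ F (gpolQ v))).toSubfield :=
    intCast_mem _ z
  have hord := P.ord_aeval hp (hlc a b hab) R (fun s hs => hSK s (hRS s hs)) hfR hzK hzR
  rw [haev, P.rat _ hfz0] at hord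
  have hval : padicValInt p ((gdif v a b).eval z) = 1 := by
    have h1 : 1 ≤ padicValInt p ((gdif v a b).eval z) := by
      have := (padicValInt_dvd_iff (p := p) 1 ((gdif v a b).eval z)).1 (by rwa [pow_one])
      exact this.resolve_left hfz0
    have h2 : ¬ 2 ≤ padicValInt p ((gdif v a b).eval z) := fun h3 =>
      hz2 ((padicValInt_dvd_iff (p := p) 2 ((gdif v a b).eval z)).2 (Or.inr h3))
    omega
  have hpos : ∀ s ∈ R, swRd_h70 P s = zb → 0 < P.ord (((z : ℤ) : F) - s) := by
    intro s hs hs2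
    refine P.ord_sub_pos hzO (hRO s hs) (fun h3 => hzR (h3 ▸ hs)) ?_
    rw [← swRd_eq_h70 P hzO, ← swRd_eq_h70 P (hRO s hs), hzrd, hs2]
  have hz00 : ∀ s ∈ R, s ≠ u → s ≠ w → P.ord (((z : ℤ) : F) - s) = 0 := by
    intro s hs hsu hsw
    refine P.ord_sub_eq_zero hzO (hRO s hs) ?_
    rw [← swRd_eq_h70 P hzO, ← swRd_eq_h70 P (hRO s hs), hzrd]
    intro h1
    rcases huwR s hs h1.symm with h2 | h2
    · exact hsu h2
    · exact hsw h2
  have hpairR : ({u, w} : Finset F) ⊆ R := by
    intro s hs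
    rcases Finset.mem_insert.1 hs with h1 | h1
    · rw [h1]; exact hu.1
    · rw [Finset.mem_singleton.1 h1]; exact hw.1
  have hsum : ∑ s ∈ R, P.ord (((z : ℤ) : F) - s) =
      P.ord (((z : ℤ) : F) - u) + P.ord (((z : ℤ) : F) - w) := by
    have e1 : P.ord (((z : ℤ) : F) - u) + P.ord (((z : ℤ) : F) - w) =
        ∑ s ∈ ({u, w} : Finset F), P.ord (((z : ℤ) : F) - s) :=
      (Finset.sum_pair (f := fun s => P.ord (((z : ℤ) : F) - s)) huw).symm
    rw [e1]
    refine (Finset.sum_subset hpairR fun s hs hs2 => ?_).symm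
    refine hz00 s hs ?_ ?_
    · rintro rfl
      exact hs2 (by simp)
    · rintro rfl
      exact hs2 (by simp)
  rw [hsum, hval] at hord
  have hposu := hpos u hu.1 hu.2.symm
  have hposw := hpos w hw.1 hw.2.symm
  -- an element of the inertia group exchanges `u` and `w`
  have hinert : ∀ σ : F ≃ₐ[ℚ] F, (∃ s ∈ nodes ℚ F (gpolQ v), σ s ≠ s) → P.Inert σ →
      ∀ s ∈ nodes ℚ F (gpolQ v), σ s = if s = u then w else if s = w then u else s := by
    intro σ hσne hσ
    obtain ⟨s₀, hs₀, hs₀ne⟩ := hσne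
    have hσrd : ∀ x ∈ P.O, swRd_h70 P (σ x) = swRd_h70 P x := by
      intro x hx
      obtain ⟨h1, h2⟩ := hσ x hx
      rw [swRd_eq_h70 P h1, swRd_eq_h70 P hx, h2]
    have hσroot : ∀ (c d : ι) (s : F), aeval s (gpolQ v c) = aeval s (gpolQ v d) →
        aeval (σ s) (gpolQ v c) = aeval (σ s) (gpolQ v d) := by
      intro c d s hs
      have e1 : ∀ q : ℚ[X], aeval (σ s) q = σ (aeval s q) := fun q =>
        (Polynomial.aeval_algHom_apply (σ : F →ₐ[ℚ] F) s q)
      rw [e1, e1, hs]
    have hσR : ∀ s ∈ R, σ s ∈ R := fun s hs => (hR _).2 (hσroot a b s ((hR s).1 hs))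
    have hfix : ∀ s ∈ nodes ℚ F (gpolQ v), s ≠ u → s ≠ w → σ s = s := by
      intro s hs hsu hsw
      by_cases hsR : s ∈ R
      · have ht : swRd_h70 P s ≠ zb := by
          intro h1
          rcases huwR s hsR h1 with h2 | h2
          · exact hsu h2
          · exact hsw h2
        have h1 := hct _ ht
        rw [Finset.card_le_one] at h1
        exact h1 (σ s) (Finset.mem_filter.2 ⟨hσR s hsR, (hσrd s (hSO s hs)).symm⟩) s
          (Finset.mem_filter.2 ⟨hsR, rfl⟩)
      · obtain ⟨c, d, hcd, hs2⟩ := id hs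
        have hset : ({c, d} : Set ι) ≠ {a, b} := by
          intro h1
          apply hsR
          rw [hR]
          rcases Set.pair_eq_pair_iff.1 h1 with ⟨h2, h3⟩ | ⟨h2, h3⟩
          · rw [← h2, ← h3]; exact hs2
          · rw [← h2, ← h3]; exact hs2.symm
        by_contra hcon
        have hσO : σ s ∈ P.O := (hσ s (hSO s hs)).1
        have h2 := P.red_ne_of_separable hp (f := gdif v c d) (h.sep c d hcd hset) hσO (hSO s hs)
          (hzero c d _ (hσroot c d s hs2)) (hzero c d s hs2) hcon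
        apply h2
        rw [← swRd_eq_h70 P hσO, ← swRd_eq_h70 P (hSO s hs)]
        exact hσrd s (hSO s hs)
    have hσu : σ u = u ∨ σ u = w :=
      huwR _ (hσR u hu.1) (by rw [hσrd u (hRO u hu.1)]; exact hu.2.symm)
    have hσw : σ w = u ∨ σ w = w :=
      huwR _ (hσR w hw.1) (by rw [hσrd w (hRO w hw.1)]; exact hw.2.symm)
    have hσu' : σ u = w := by
      rcases hσu with h1 | h1
      · exfalso
        have h2 : σ w = w := by
          rcases hσw with h3 | h3
          · exact absurd (σ.injective (h1.trans h3.symm)) huw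
          · exact h3
        apply hs₀ne
        by_cases h3 : s₀ = u
        · rw [h3, h1]
        · by_cases h4 : s₀ = w
          · rw [h4, h2]
          · exact hfix s₀ hs₀ h3 h4
      · exact h1
    have hσw' : σ w = u := by
      rcases hσw with h1 | h1
      · exact h1
      · exact absurd (σ.injective (hσu'.trans h1.symm)) huw
    intro s hs
    by_cases h3 : s = u
    · rw [if_pos h3, h3, hσu']
    · rw [if_neg h3]
      by_cases h4 : s = w
      · rw [if_pos h4, h4, hσw']
      · rw [if_neg h4]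
        exact hfix s hs h3 h4
  have he3 : ¬ 3 ≤ P.e := by
    intro h3
    obtain ⟨σ, τ, hσ1, hτ1, ⟨s, hs, hst⟩, hσ, hτ⟩ := hP h3
    apply hst
    rw [hinert σ hσ1 hσ s hs, hinert τ hτ1 hτ s hs]
  have hou : P.ord (((z : ℤ) : F) - u) = 1 := by
    push_cast at hord
    omega
  have how : P.ord (((z : ℤ) : F) - w) = 1 := by
    push_cast at hord
    omega
  have he2 : P.e = 2 := by
    push_cast at hord
    omega
  -- the derivative
  set lc : ℤ := (gdif v a b).leadingCoeff with hlcdef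
  have hlcF0 : (lc : F) ≠ 0 := by
    have h1 : lc ≠ 0 := by
      intro h0
      apply hlc a b hab
      rw [← hlcdef, h0]
      exact dvd_zero _
    exact_mod_cast h1
  have hlc0 : lc ≠ 0 := by exact_mod_cast hlcF0
  have hlcv : P.ord (lc : F) = 0 := by
    rw [P.rat lc hlc0, padicValInt.eq_zero_of_not_dvd (hlc a b hab)]
    simp
  set R' : Finset F := (R.erase u).erase w with hR'
  have hR'R : ∀ s ∈ R', s ∈ R ∧ s ≠ u ∧ s ≠ w := by
    intro s hs
    rw [hR', Finset.mem_erase, Finset.mem_erase] at hs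
    exact ⟨hs.2.2, hs.2.1, hs.1⟩
  set Gp : F[X] := ∏ s ∈ R', (X - C s) with hGp
  have hfact : (gdif v a b).map (algebraMap ℤ F) =
      C ((lc : ℤ) : F) * ((X - C u) * ((X - C w) * Gp)) := by
    rw [hfR, ← Finset.mul_prod_erase R _ hu.1,
      ← Finset.mul_prod_erase (R.erase u) _ (Finset.mem_erase.2 ⟨huw.symm, hw.1⟩)]
    rfl
  have hder : aeval ((z : ℤ) : F) (derivative (gdif v a b)) = (lc : F) *
      (((((z : ℤ) : F) - u) + (((z : ℤ) : F) - w)) * Gp.eval ((z : ℤ) : F) +
        (((z : ℤ) : F) - u) * (((z : ℤ) : F) - w) * (derivative Gp).eval ((z : ℤ) : F)) := by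
    rw [aeval_def, ← eval_map, ← derivative_map, hfact, derivative_C_mul, derivative_mul,
      derivative_mul]
    simp only [derivative_sub, derivative_X, derivative_C, eval_add, eval_mul, eval_sub,
      eval_C, eval_X, eval_one, eval_zero]
    ring
  have hGK : Gp.eval ((z : ℤ) : F) ∈
      (IntermediateField.adjoin ℚ (nodes ℚ F (gpolQ v))).toSubfield := by
    rw [hGp, eval_prod]
    refine prod_mem fun s hs => ?_
    rw [eval_sub, eval_X, eval_C]
    exact sub_mem hzK (hSK s (hRS s (hR'R s hs).1))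
  have hG0 : ∀ s ∈ R', ((z : ℤ) : F) - s ≠ 0 := by
    intro s hs h0
    exact hzR ((sub_eq_zero.1 h0) ▸ (hR'R s hs).1)
  have hGe : Gp.eval ((z : ℤ) : F) = ∏ s ∈ R', (((z : ℤ) : F) - s) := by
    rw [hGp, eval_prod]
    refine Finset.prod_congr rfl fun s _ => ?_
    rw [eval_sub, eval_X, eval_C]
  have hGne : Gp.eval ((z : ℤ) : F) ≠ 0 := by
    rw [hGe]
    exact Finset.prod_ne_zero_iff.2 hG0
  have hGv : P.ord (Gp.eval ((z : ℤ) : F)) = 0 := by
    rw [hGe, ord_prod_h57 P R' _ (fun s hs => sub_mem hzK (hSK s (hRS s (hR'R s hs).1))) hG0]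
    refine Finset.sum_eq_zero fun s hs => ?_
    obtain ⟨h1, h2, h3⟩ := hR'R s hs
    exact hz00 s h1 h2 h3
  have hG'O : (derivative Gp).eval ((z : ℤ) : F) ∈ P.O := by
    set GO : (P.O)[X] := ∏ s ∈ R'.attach,
      (X - C (⟨s.1, hRO s.1 (hR'R s.1 s.2).1⟩ : P.O)) with hGO
    have h1 : GO.map P.O.subtype = Gp := by
      rw [hGO, hGp, Polynomial.map_prod, ← Finset.prod_attach R' (fun s => (X - C s : F[X]))]
      refine Finset.prod_congr rfl fun s _ => ?_
      rw [Polynomial.map_sub, map_X, map_C]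
      rfl
    have h2 : (derivative Gp).eval ((z : ℤ) : F) =
        P.O.subtype ((derivative GO).eval (⟨((z : ℤ) : F), hzO⟩ : P.O)) := by
      rw [← h1, derivative_map, eval_map, eval₂_eq_eval_map]
      have h3 : ((z : ℤ) : F) = P.O.subtype ⟨((z : ℤ) : F), hzO⟩ := rfl
      conv_lhs => rw [h3]
      rw [eval_map, eval₂_at_apply]
    rw [h2]
    exact Subtype.prop _
  have hdz : (p : ℤ) ∣ (derivative (gdif v a b)).eval z := by
    have h1 : (((derivative (gdif v a b)).eval z : ℤ) : ZMod p) = 0 := by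
      have h2 : (((derivative (gdif v a b)).eval z : ℤ) : ZMod p) =
          (derivative (gred p v a b)).eval (z : ZMod p) := by
        unfold gred
        rw [derivative_map, eval_map]
        have h3 := eval₂_at_apply (p := derivative (gdif v a b)) (Int.castRingHom (ZMod p)) z
        exact h3.symm
      rw [h2, hg, derivative_mul, derivative_pow]
      simp
    exact (ZMod.intCast_zmod_eq_zero_iff_dvd _ _).1 h1
  have hfK : aeval ((z : ℤ) : F) (derivative (gdif v a b)) ∈
      (IntermediateField.adjoin ℚ (nodes ℚ F (gpolQ v))).toSubfield := by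
    rw [haevq]
    exact intCast_mem _ _
  have hfv : aeval ((z : ℤ) : F) (derivative (gdif v a b)) ≠ 0 →
      2 ≤ P.ord (aeval ((z : ℤ) : F) (derivative (gdif v a b))) := by
    rw [haevq]
    intro h0
    have h1 : (derivative (gdif v a b)).eval z ≠ 0 := by exact_mod_cast h0
    rw [P.rat _ h1, he2]
    have h2 : 1 ≤ padicValInt p ((derivative (gdif v a b)).eval z) := by
      have := (padicValInt_dvd_iff (p := p) 1 ((derivative (gdif v a b)).eval z)).1
        (by rwa [pow_one])
      exact this.resolve_left h1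
    push_cast
    omega
  have hzu : ((z : ℤ) : F) - u ≠ 0 := fun h0 => hzR ((sub_eq_zero.1 h0) ▸ hu.1)
  have hzw : ((z : ℤ) : F) - w ≠ 0 := fun h0 => hzR ((sub_eq_zero.1 h0) ▸ hw.1)
  have hzuK := sub_mem hzK (hSK u (hRS u hu.1))
  have hzwK := sub_mem hzK (hSK w (hRS w hw.1))
  have h2v : P.ord (-(2 * (((z : ℤ) : F) - u))) = 1 := by
    have h20 : (2 : F) ≠ 0 := two_ne_zero
    have h2K : (2 : F) ∈ (IntermediateField.adjoin ℚ (nodes ℚ F (gpolQ v))).toSubfield :=
      ofNat_mem _ 2
    rw [ord_neg_h64 P (mul_mem h2K hzuK) (mul_ne_zero h20 hzu), P.isVal.mul _ h2K _ hzuK h20 hzu,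
      hou]
    have h3 := P.rat 2 two_ne_zero
    have h4 : padicValInt p 2 = 0 := by
      refine padicValInt.eq_zero_of_not_dvd fun h5 => hp2 ?_
      have h6 : p ∣ 2 := by exact_mod_cast h5
      exact (Nat.prime_dvd_prime_iff_eq hp Nat.prime_two).1 h6
    rw [h4] at h3
    have h5 : (((2 : ℤ)) : F) = 2 := by norm_num
    rw [h5] at h3
    rw [h3]
    simp
  have huwv : P.ord (u - w) = 1 := by
    have h20 : (2 : F) ≠ 0 := two_ne_zero
    have h2K : (2 : F) ∈ (IntermediateField.adjoin ℚ (nodes ℚ F (gpolQ v))).toSubfield :=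
      ofNat_mem _ 2
    by_cases h0 : (((z : ℤ) : F) - u) + (((z : ℤ) : F) - w) = 0
    · have h1 : u - w = -(2 * (((z : ℤ) : F) - u)) := by linear_combination h0
      rw [h1, h2v]
    · have h1 := double_root_h64 P (intCast_mem _ lc) hlcF0 hlcv hGK hGne hGv hG'O hzuK hzu hou
        hzwK hzw how hfK hfv hder h0
      have h2 : u - w = -(2 * (((z : ℤ) : F) - u)) +
          ((((z : ℤ) : F) - u) + (((z : ℤ) : F) - w)) := by ring
      rw [h2]
      rw [(P.ord_add (neg_mem (mul_mem h2K hzuK)) (add_mem hzuK hzwK)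
        (neg_ne_zero.2 (mul_ne_zero h20 hzu)) h0 (by rw [h2v]; omega)).2, h2v]
  -- different reductions
  have hred : ∀ s ∈ nodes ℚ F (gpolQ v), ∀ s' ∈ nodes ℚ F (gpolQ v), s ≠ s' →
      swRd_h70 P s = swRd_h70 P s' → s ∈ ({u, w} : Set F) ∧ s' ∈ ({u, w} : Set F) := by
    intro s hs s' hs' hss hrr
    obtain ⟨c, d, hcd, hs2⟩ := id hs
    obtain ⟨c', d', hcd', hs2'⟩ := id hs'
    have hrr' : P.red ⟨s, hSO s hs⟩ = P.red ⟨s', hSO s' hs'⟩ := by
      rw [← swRd_eq_h70 P (hSO s hs), ← swRd_eq_h70 P (hSO s' hs'), hrr]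
    by_cases hset : ({c, d} : Set ι) = {c', d'}
    · have hs3' : aeval s' (gpolQ v c) = aeval s' (gpolQ v d) := by
        rcases Set.pair_eq_pair_iff.1 hset with ⟨h2, h3⟩ | ⟨h2, h3⟩
        · rw [h2, h3]; exact hs2'
        · rw [h2, h3]; exact hs2'.symm
      by_cases hset2 : ({c, d} : Set ι) = {a, b}
      · have hin : ∀ t : F, aeval t (gpolQ v c) = aeval t (gpolQ v d) → t ∈ R := by
          intro t ht
          rw [hR]
          rcases Set.pair_eq_pair_iff.1 hset2 with ⟨h2, h3⟩ | ⟨h2, h3⟩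
          · rw [← h2, ← h3]; exact ht
          · rw [← h2, ← h3]; exact ht.symm
        have hsR := hin s hs2
        have hsR' := hin s' hs3'
        by_cases ht : swRd_h70 P s = zb
        · have h1 := huwR s hsR ht
          have h2 := huwR s' hsR' (hrr ▸ ht)
          exact ⟨h1, h2⟩
        · exfalso
          have h1 := hct _ ht
          rw [Finset.card_le_one] at h1
          exact hss (h1 s (Finset.mem_filter.2 ⟨hsR, rfl⟩) s' (Finset.mem_filter.2 ⟨hsR', hrr⟩))
      · exact absurd hrr' (P.red_ne_of_separable hp (f := gdif v c d) (h.sep c d hcd hset2)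
          (hSO s hs) (hSO s' hs') (hzero c d s hs2) (hzero c d s' hs3') hss)
    · exact absurd hrr' (P.red_ne_of_isCoprime hp (h.cop c d c' d' hcd hcd' hset)
          (hSO s hs) (hSO s' hs') (hzero c d s hs2) (hzero c' d' s' hs2'))
  refine ⟨P.ord, u, w, huw, (hR u).1 hu.1, (hR w).1 hw.1, P.isVal, ⟨?_, ?_⟩⟩
  · intro s hs s' hs' hss
    by_cases hcond : s ∈ ({u, w} : Set F) ∧ s' ∈ ({u, w} : Set F)
    · rw [if_pos hcond]
      rcases hcond with ⟨h1 | h1, h2 | h2⟩
      · exact absurd (h1.trans h2.symm) hss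
      · have h2' : s' = w := h2
        rw [h1, h2', huwv]
      · have h1' : s = w := h1
        rw [h1', h2, ← neg_sub u w, ord_neg_h64 P (sub_mem (hSK u (hRS u hu.1)) (hSK w (hRS w hw.1)))
          (sub_ne_zero.2 huw), huwv]
      · have h1' : s = w := h1
        have h2' : s' = w := h2
        exact absurd (h1'.trans h2'.symm) hss
    · rw [if_neg hcond]
      refine P.ord_sub_eq_zero (hSO s hs) (hSO s' hs') ?_
      rw [← swRd_eq_h70 P (hSO s hs), ← swRd_eq_h70 P (hSO s' hs')]
      exact fun h1 => hcond (hred s hs s' hs' hss h1)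
  · intro i j hij
    have h1 : algebraMap ℚ F (gpolQ v i - gpolQ v j).leadingCoeff =
        (((gdif v i j).leadingCoeff : ℤ) : F) := by
      rw [← gdif_map_rat, leadingCoeff_map_of_injective (Int.castRingHom ℚ).injective_int]
      simp
    have h2 : (gdif v i j).leadingCoeff ≠ 0 := by
      intro h0
      apply hlc i j hij
      rw [h0]
      exact dvd_zero _
    rw [h1, P.rat _ h2, padicValInt.eq_zero_of_not_dvd (hlc i j hij)]
    simp

end Pool.Agent.Lib.MP_89bcae_ag

end
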