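import Mathlib
import Pool.Agent.Lib.MP_89bcae_ag.Mk.K050
import Pool.Agent.Lib.MP_89bcae_ag.Mk.K051

namespace Pool.Agent.Lib.MP_89bcae_ag.Superelliptic
end Pool.Agent.Lib.MP_89bcae_ag.Superelliptic

section

/-!
# Extension of the homomorphisms to the field generated by the `ℓ`-th roots of unity

Let `K₀ = ℚ(S)` and `E = ℚ(ζ_ℓ)(S)` in `F`, where `S` is a finite set of algebraic elements. Then
`E = K₀(ζ_ℓ)` is a finite extension of `K₀` of degree `d ≤ ℓ - 1` (the degree of the minimal polynomial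
of `ζ_ℓ` over `K₀`, which divides the cyclotomic polynomial of degree `ℓ - 1`), hence `d` is prime to
`ℓ`. Put `ν(x) = d⁻¹ ν₀(N(x))` for `x ∈ Eˣ`, where `N` is the norm of `E` over `K₀`
(`Algebra.norm_algebraMap`: `N(x) = x ^ d` for `x ∈ K₀`; `ν₀((±1)) = 0`).
-/

open Polynomial

open scoped Classical

namespace Pool.Agent.Lib.MP_89bcae_ag

universe u

theorem isVal_one_h65 {F : Type u} [Field F] {A : Type*} [AddCommGroup A] {K₀ : Subfield F}
    {ν₀ : F → A} (h₀ : IsVal K₀ ν₀) : ν₀ 1 = 0 := by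
  have h := h₀.mul 1 K₀.one_mem 1 K₀.one_mem one_ne_zero one_ne_zero
  rw [mul_one] at h
  exact left_eq_add.1 h

theorem isVal_pow_h65 {F : Type u} [Field F] {A : Type*} [AddCommGroup A] {K₀ : Subfield F}
    {ν₀ : F → A} (h₀ : IsVal K₀ ν₀) {x : F} (hx : x ∈ K₀) (hx0 : x ≠ 0) (d : ℕ) :
    ν₀ (x ^ d) = d • ν₀ x := by
  induction d with
  | zero => rw [pow_zero, zero_smul, isVal_one_h65 h₀]
  | succ d ih =>
    rw [pow_succ, h₀.mul _ (K₀.pow_mem hx d) _ hx (pow_ne_zero d hx0) hx0, ih, succ_nsmul]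

/-- The general statement: an extension of degree prime to `ℓ`. -/
theorem extend_val_of_finrank {F : Type u} [Field F] {ℓ : ℕ} [Fact ℓ.Prime] (K₀ : Subfield F)
    (E : IntermediateField K₀ F) [FiniteDimensional K₀ E]
    (hd : (Module.finrank K₀ E).Coprime ℓ) (ν₀ : F → ZMod ℓ) (h₀ : IsVal K₀ ν₀) :
    ∃ ν : F → ZMod ℓ, IsVal E.toSubfield ν ∧ ∀ x ∈ K₀, ν x = ν₀ x := by
  have hd0 : ((Module.finrank K₀ E : ℕ) : ZMod ℓ) ≠ 0 := by
    intro h
    rw [ZMod.natCast_eq_zero_iff] at h
    have h1 := Nat.dvd_gcd h (dvd_refl ℓ)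
    rw [hd] at h1
    exact (Fact.out : ℓ.Prime).one_lt.ne' (Nat.dvd_one.1 h1)
  have hN : ∀ x : E, x ≠ 0 → ((Algebra.norm K₀ x : K₀) : F) ≠ 0 := by
    intro x hx h
    have h2 : (Algebra.norm K₀ x : K₀) = 0 := Subtype.ext h
    exact hx (Algebra.norm_eq_zero_iff.1 h2)
  refine ⟨fun x => if x = 0 then ν₀ 0 else if h : x ∈ E then
    ((Module.finrank K₀ E : ℕ) : ZMod ℓ)⁻¹ * ν₀ ((Algebra.norm K₀ (⟨x, h⟩ : E) : K₀) : F) else 0,
    ⟨?_, ?_⟩, ?_⟩
  · intro x hx y hy hx0 hy0
    have hx' : x ∈ E := hx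
    have hy' : y ∈ E := hy
    have hxy' : x * y ∈ E := E.mul_mem hx' hy'
    have hxE : (⟨x, hx'⟩ : E) ≠ 0 := fun h => hx0 (congrArg Subtype.val h)
    have hyE : (⟨y, hy'⟩ : E) ≠ 0 := fun h => hy0 (congrArg Subtype.val h)
    have h3 : (⟨x * y, hxy'⟩ : E) = ⟨x, hx'⟩ * ⟨y, hy'⟩ := rfl
    have h4 : ((Algebra.norm K₀ (⟨x * y, hxy'⟩ : E) : K₀) : F) =
        ((Algebra.norm K₀ (⟨x, hx'⟩ : E) : K₀) : F) * ((Algebra.norm K₀ (⟨y, hy'⟩ : E) : K₀) : F) := by
      rw [h3, map_mul]
      rfl
    show (if x * y = 0 then ν₀ 0 else _) = (if x = 0 then ν₀ 0 else _) + (if y = 0 then ν₀ 0 else _)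
    rw [if_neg (mul_ne_zero hx0 hy0), if_neg hx0, if_neg hy0, dif_pos hxy', dif_pos hx',
      dif_pos hy', h4, h₀.mul _ (SetLike.coe_mem _) _ (SetLike.coe_mem _) (hN _ hxE) (hN _ hyE),
      mul_add]
  · have h1 : (-1 : F) ≠ 0 := neg_ne_zero.2 one_ne_zero
    have h2 : (-1 : F) ∈ E := E.neg_mem E.one_mem
    have h3 : (⟨-1, h2⟩ : E) = algebraMap K₀ E (-1) := by
      rw [map_neg, map_one]
      rfl
    show (if (-1 : F) = 0 then ν₀ 0 else _) = 0
    rw [if_neg h1, dif_pos h2, h3, Algebra.norm_algebraMap]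
    have h4 : ν₀ ((((-1 : K₀) ^ Module.finrank K₀ E : K₀)) : F) = 0 := by
      rcases neg_one_pow_eq_or K₀ (Module.finrank K₀ E) with h | h
      · rw [h]
        exact isVal_one_h65 h₀
      · rw [h]
        exact h₀.neg_one
    rw [h4, mul_zero]
  · intro x hx
    by_cases hx0 : x = 0
    · subst hx0
      show (if (0 : F) = 0 then ν₀ 0 else _) = ν₀ 0
      rw [if_pos rfl]
    · have hx' : x ∈ E := E.algebraMap_mem (⟨x, hx⟩ : K₀)
      have h3 : (⟨x, hx'⟩ : E) = algebraMap K₀ E ⟨x, hx⟩ := rfl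
      show (if x = 0 then ν₀ 0 else _) = ν₀ x
      rw [if_neg hx0, dif_pos hx', h3, Algebra.norm_algebraMap]
      have h5 : ((((⟨x, hx⟩ : K₀) ^ Module.finrank K₀ E : K₀)) : F) =
          x ^ Module.finrank K₀ E := rfl
      rw [h5, isVal_pow_h65 h₀ hx hx0, nsmul_eq_mul, ← mul_assoc, inv_mul_cancel₀ hd0, one_mul]

theorem exists_extend_val {ℓ : ℕ} (hℓ : ℓ.Prime) (K F : Type u) [Field K] [Algebra ℚ K]
    [IsCyclotomicExtension {ℓ} ℚ K] [Field F] [Algebra K F] [Algebra ℚ F] [IsScalarTower ℚ K F]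
    (S : Set F) (hS : S.Finite) (hint : ∀ s ∈ S, IsIntegral ℚ s)
    (ν₀ : F → ZMod ℓ) (h₀ : IsVal (IntermediateField.adjoin ℚ S).toSubfield ν₀) :
    ∃ ν : F → ZMod ℓ, IsVal (IntermediateField.adjoin K S).toSubfield ν ∧
      ∀ x ∈ IntermediateField.adjoin ℚ S, ν x = ν₀ x := by
  have hF : Fact ℓ.Prime := ⟨hℓ⟩
  have hne : NeZero ℓ := ⟨hℓ.ne_zero⟩
  obtain ⟨z, hz⟩ := IsCyclotomicExtension.exists_isPrimitiveRoot (S := {ℓ}) ℚ K
    (Set.mem_singleton ℓ) hℓ.ne_zero
  let K₀ : Subfield F := (IntermediateField.adjoin ℚ S).toSubfield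
  let ζ : F := algebraMap K F z
  have hζ : IsPrimitiveRoot ζ ℓ := hz.map_of_injective (algebraMap K F).injective
  have hroot : aeval ζ (cyclotomic ℓ K₀) = 0 := by
    have h1 := hζ.isRoot_cyclotomic hℓ.pos
    rw [IsRoot.def, ← map_cyclotomic ℓ (algebraMap K₀ F), eval_map_algebraMap] at h1
    exact h1
  have hintζ : IsIntegral K₀ ζ := ⟨cyclotomic ℓ K₀, cyclotomic.monic ℓ K₀, hroot⟩
  let E : IntermediateField K₀ F := IntermediateField.adjoin K₀ {ζ}
  have hfd : FiniteDimensional K₀ E := IntermediateField.adjoin.finiteDimensional hintζ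
  have hfin : (Module.finrank K₀ E).Coprime ℓ := by
    have h1 : Module.finrank K₀ E = (minpoly K₀ ζ).natDegree :=
      IntermediateField.adjoin.finrank hintζ
    have h2 : (minpoly K₀ ζ).natDegree ≤ ℓ - 1 := by
      have h3 := natDegree_le_of_dvd (minpoly.dvd K₀ ζ hroot) (cyclotomic_ne_zero ℓ K₀)
      rwa [natDegree_cyclotomic, Nat.totient_prime hℓ] at h3
    have h4 : 0 < (minpoly K₀ ζ).natDegree := minpoly.natDegree_pos hintζ
    have h5 := hℓ.two_le
    rw [h1, Nat.coprime_comm]
    exact (Nat.Prime.coprime_iff_not_dvd hℓ).2 fun hd => by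
      have := Nat.le_of_dvd h4 hd
      omega
  obtain ⟨ν, hν, hν'⟩ := extend_val_of_finrank K₀ E hfin ν₀ h₀
  have hK₀E : ∀ x ∈ K₀, x ∈ E := fun x hx => E.algebraMap_mem ⟨x, hx⟩
  have hζE : ζ ∈ E := IntermediateField.mem_adjoin_simple_self K₀ ζ
  have hSK₀ : ∀ x ∈ S, x ∈ K₀ := fun x hx => IntermediateField.subset_adjoin ℚ S hx
  have hQ : ∀ (q : ℚ), algebraMap ℚ F q ∈ E := fun q =>
    hK₀E _ ((IntermediateField.adjoin ℚ S).algebraMap_mem q)
  have hKE : ∀ x : K, algebraMap K F x ∈ E := by
    intro x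
    have hx : x ∈ Algebra.adjoin ℚ ({z} : Set K) := by
      rw [IsCyclotomicExtension.adjoin_primitive_root_eq_top hz]
      exact Algebra.mem_top
    induction hx using Algebra.adjoin_induction with
    | mem y hy =>
      rw [Set.mem_singleton_iff] at hy
      rw [hy]
      exact hζE
    | algebraMap q =>
      rw [← IsScalarTower.algebraMap_apply ℚ K F]
      exact hQ q
    | add a b _ _ ha hb => rw [map_add]; exact E.add_mem ha hb
    | mul a b _ _ ha hb => rw [map_mul]; exact E.mul_mem ha hb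
  have hle1 : ∀ x ∈ IntermediateField.adjoin K S, x ∈ E := by
    intro x hx
    induction hx using IntermediateField.adjoin_induction with
    | mem y hy => exact hK₀E y (hSK₀ y hy)
    | algebraMap y => exact hKE y
    | add a b _ _ ha hb => exact E.add_mem ha hb
    | inv a _ ha => exact E.inv_mem ha
    | mul a b _ _ ha hb => exact E.mul_mem ha hb
  have hval : IsVal (IntermediateField.adjoin K S).toSubfield ν :=
    ⟨fun x hx y hy hx0 hy0 => hν.mul x (hle1 x hx) y (hle1 y hy) hx0 hy0, hν.neg_one⟩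
  exact ⟨ν, hval, hν'⟩

end Pool.Agent.Lib.MP_89bcae_ag

end

section

/-!
# The criterion for graphs of polynomials

Let `x_ij(s) = e_i(s) / W_j` in `ZMod ℓ` for `s` in the set `N i j` of the roots of `α_i - α_j`. The
condition on the sums gives `e_l(s) = 0` for `l ≠ i, j` and `W_i e_i(s) + W_j e_j(s) = 0`, that is
`x_ji = -x_ij`. For a triple `i, j, l` and `r ∈ N i j`, `r' ∈ N j l`, `r'' ∈ N i l`, the homomorphism
`ν` of the hypothesis (`TripleV`, value `h`) gives, by `val_eqn` at `r` divided by `W_j`, with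
`v = ν(κ)`, `γ_i = ν(c_i)`:
`v x_ij(r) + γ_i - γ_j - W_l h x_ij(r) + (e_i(r'') - e_j(r'')) h + (e_i(r') - e_j(r')) h = 0`, where
`e_i(r'') = W_l x_il(r'')`, `e_j(r'') = 0`, `e_i(r') = 0`, `e_j(r') = W_l x_jl(r')`; this is (1) of
`RelG`. (2) and (3) are the same relation at `r'` and `r''` (the sign: at `r''`,
`v x_il(r'') + γ_i - γ_l - W_j h x_il(r'') + W_j x_ij(r) h + W_j x_jl(r') h = 0`, since
`e_i(r) = W_j x_ij(r)`, `-e_l(r') = -W_j x_lj(r') = W_j x_jl(r')`). (4) is the relation at the other
nodes. Conclude with `core_graph`; choose integers `b_i` with the given classes modulo `ℓ`.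
The number of the roots of `α_i - α_j` is its degree (`α_i - α_j` is separable by `hα`, and splits in
the algebraically closed field `F`).
-/

open Polynomial

open scoped Classical

namespace Pool.Agent.Lib.MP_89bcae_ag

open Superelliptic

universe u

variable {k F : Type u} [Field k] [Field F] [Algebra k F] [IsAlgClosed F] {ι : Type} [Fintype ι]
  [LinearOrder ι]

omit [IsAlgClosed F] in
lemma sep_h96 (α : ι → k[X]) (hα : IsArrangement α) {i j : ι} (hij : i ≠ j) :
    (α i - α j).Separable := by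
  have h1 : ∀ a b : ι, a < b → (α a - α b).Separable := by
    intro a b hab
    refine hα.separable.of_dvd ?_
    have h2 : (α a - α b) ∣ ∏ j ∈ Finset.univ.filter fun j => a < j, (α a - α j) :=
      Finset.dvd_prod_of_mem (fun j => α a - α j)
        (Finset.mem_filter.mpr ⟨Finset.mem_univ _, hab⟩)
    exact h2.trans (Finset.dvd_prod_of_mem
      (fun i => ∏ j ∈ Finset.univ.filter fun j => i < j, (α i - α j)) (Finset.mem_univ a))
  rcases lt_or_gt_of_ne hij with h | h
  · exact h1 i j h
  · exact (h1 j i h).of_dvd ⟨-1, by ring⟩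

lemma roots_h96 (α : ι → k[X]) (hα : IsArrangement α) {i j : ι} (hij : i ≠ j) (T : Finset F)
    (hT : T.card < (α i - α j).natDegree) :
    ∃ s : F, aeval s (α i) = aeval s (α j) ∧ s ∉ T := by
  have hsep := sep_h96 α hα hij
  have hc : ((α i - α j).aroots F).toFinset.card = (α i - α j).natDegree := by
    have hsplit : ((α i - α j).map (algebraMap k F)).Splits := IsAlgClosed.splits _
    rw [Multiset.toFinset_card_of_nodup (nodup_roots hsep.map), ← hsplit.natDegree_eq_card_roots,
      natDegree_map]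
  rw [← hc] at hT
  obtain ⟨s, hs, hsT⟩ := Finset.exists_mem_notMem_of_card_lt_card hT
  refine ⟨s, ?_, hsT⟩
  rw [Multiset.mem_toFinset, mem_aroots] at hs
  have h1 := hs.2
  rw [map_sub] at h1
  exact sub_eq_zero.mp h1

/-- the relation at a node of the collision -/
lemma rel_h96 {ℓ : ℕ} [Fact ℓ.Prime] (α : ι → k[X]) (hα : IsArrangement α) (W : ι → ℕ)
    (ν : F → ZMod ℓ) (hν : IsVal (IntermediateField.adjoin k (nodes k F α)).toSubfield ν)
    (e : ι → F → ℤ) (κ : F) (c : ι → F) (hκ : κ ≠ 0)
    (hκK : κ ∈ IntermediateField.adjoin k (nodes k F α))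
    (hc : ∀ i, c i ≠ 0 ∧ c i ∈ IntermediateField.adjoin k (nodes k F α))
    {a b d : ι} {s t u : F} (hab : a ≠ b) (hs : aeval s (α a) = aeval s (α b))
    (hw : ∃ w ∈ IntermediateField.adjoin k (nodes k F α),
        w ^ ℓ = κ ^ e a s * (c a / c b) ^ W b *
          aeval s (derivative (α a - α b)) ^ (-((W a : ℤ) + W b) * e a s) *
          (∏ l ∈ Finset.univ.filter fun l => l ≠ a ∧ l ≠ b,
            (aeval s (α a) - aeval s (α l)) ^ (-(W l : ℤ) * e a s)) *
          ∏ᶠ s' ∈ {s' ∈ nodes k F α | s' ≠ s}, (s - s') ^ ((W b : ℤ) * (e a s' - e b s')))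
    (hda : d ≠ a) (hdb : d ≠ b) (ht : t ∈ nodes k F α) (hu : u ∈ nodes k F α) (hts : t ≠ s)
    (hus : u ≠ s) (htu : t ≠ u) (h : ZMod ℓ)
    (hder : ν (aeval s (derivative (α a - α b))) = 0)
    (hval : ∀ l, l ≠ a → l ≠ b → ν (aeval s (α a) - aeval s (α l)) = if l = d then h else 0)
    (hdif : ∀ s' ∈ nodes k F α, s' ≠ s → ν (s - s') = if s' = t ∨ s' = u then h else 0) :
    (e a s : ZMod ℓ) * ν κ + W b * (ν (c a) - ν (c b)) - W d * e a s * h +
      W b * (((e a t : ZMod ℓ) - e b t) + ((e a u : ZMod ℓ) - e b u)) * h = 0 := by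
  have key := val_eqn α hα W ν hν e κ c hκ hκK hc hab hs hw
  have h1 : (∑ l ∈ Finset.univ.filter fun l => l ≠ a ∧ l ≠ b,
      (W l : ZMod ℓ) * e a s * ν (aeval s (α a) - aeval s (α l))) = W d * e a s * h := by
    rw [Finset.sum_eq_single d]
    · rw [hval d hda hdb, if_pos rfl]
    · intro l hl hld
      rw [Finset.mem_filter] at hl
      rw [hval l hl.2.1 hl.2.2, if_neg hld, mul_zero]
    · intro hd
      exact absurd (Finset.mem_filter.mpr ⟨Finset.mem_univ _, hda, hdb⟩) hd
  have h2 : ∑ s' ∈ (finite_nodes (F := F) α hα).toFinset.erase s,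
        (W b : ZMod ℓ) * (e a s' - e b s') * ν (s - s') =
      W b * (((e a t : ZMod ℓ) - e b t) + ((e a u : ZMod ℓ) - e b u)) * h := by
    have hsub : ({t, u} : Finset F) ⊆ (finite_nodes (F := F) α hα).toFinset.erase s := by
      intro x hx
      rw [Finset.mem_insert, Finset.mem_singleton] at hx
      rw [Finset.mem_erase, Set.Finite.mem_toFinset]
      rcases hx with rfl | rfl
      · exact ⟨hts, ht⟩
      · exact ⟨hus, hu⟩
    rw [← Finset.sum_subset hsub, Finset.sum_pair htu, hdif t ht hts, hdif u hu hus,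
      if_pos (Or.inl rfl), if_pos (Or.inr rfl)]
    · ring
    · intro x hx hx2
      rw [Finset.mem_erase, Set.Finite.mem_toFinset] at hx
      rw [Finset.mem_insert, Finset.mem_singleton] at hx2
      rw [hdif x hx.2 hx.1, if_neg hx2, mul_zero]
  rw [hder, h1, h2] at key
  linear_combination key

/-- the relation at the other nodes -/
lemma rel0_h96 {ℓ : ℕ} [Fact ℓ.Prime] (α : ι → k[X]) (hα : IsArrangement α) (W : ι → ℕ)
    (ν : F → ZMod ℓ) (hν : IsVal (IntermediateField.adjoin k (nodes k F α)).toSubfield ν)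
    (e : ι → F → ℤ) (κ : F) (c : ι → F) (hκ : κ ≠ 0)
    (hκK : κ ∈ IntermediateField.adjoin k (nodes k F α))
    (hc : ∀ i, c i ≠ 0 ∧ c i ∈ IntermediateField.adjoin k (nodes k F α))
    {a b : ι} {s : F} (hab : a ≠ b) (hs : aeval s (α a) = aeval s (α b))
    (hw : ∃ w ∈ IntermediateField.adjoin k (nodes k F α),
        w ^ ℓ = κ ^ e a s * (c a / c b) ^ W b *
          aeval s (derivative (α a - α b)) ^ (-((W a : ℤ) + W b) * e a s) *
          (∏ l ∈ Finset.univ.filter fun l => l ≠ a ∧ l ≠ b,
            (aeval s (α a) - aeval s (α l)) ^ (-(W l : ℤ) * e a s)) *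
          ∏ᶠ s' ∈ {s' ∈ nodes k F α | s' ≠ s}, (s - s') ^ ((W b : ℤ) * (e a s' - e b s')))
    (hder : ν (aeval s (derivative (α a - α b))) = 0)
    (hval : ∀ l, l ≠ a → l ≠ b → ν (aeval s (α a) - aeval s (α l)) = 0)
    (hdif : ∀ s' ∈ nodes k F α, s' ≠ s → ν (s - s') = 0) :
    (e a s : ZMod ℓ) * ν κ + W b * (ν (c a) - ν (c b)) = 0 := by
  have key := val_eqn α hα W ν hν e κ c hκ hκK hc hab hs hw
  have h1 : (∑ l ∈ Finset.univ.filter fun l => l ≠ a ∧ l ≠ b,
      (W l : ZMod ℓ) * e a s * ν (aeval s (α a) - aeval s (α l))) = 0 := by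
    apply Finset.sum_eq_zero
    intro l hl
    rw [Finset.mem_filter] at hl
    rw [hval l hl.2.1 hl.2.2, mul_zero]
  have h2 : ∑ s' ∈ (finite_nodes (F := F) α hα).toFinset.erase s,
        (W b : ZMod ℓ) * (e a s' - e b s') * ν (s - s') = 0 := by
    apply Finset.sum_eq_zero
    intro x hx
    rw [Finset.mem_erase, Set.Finite.mem_toFinset] at hx
    rw [hdif x hx.2 hx.1, mul_zero]
  rw [hder, h1, h2] at key
  linear_combination key

theorem indepW_of_tripleV {ℓ : ℕ} (hℓ : ℓ.Prime) (α : ι → k[X]) (hα : IsArrangement α)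
    (hι : 3 ≤ Fintype.card ι)
    (hdeg : (∀ i j, i ≠ j → 3 ≤ (α i - α j).natDegree) ∨
      (4 ≤ Fintype.card ι ∧ ∀ i j, i ≠ j → 2 ≤ (α i - α j).natDegree))
    (W : ι → ℕ) (hW : ∀ i, (W i).Coprime ℓ)
    (hV : ∀ i j l, i ≠ j → j ≠ l → i ≠ l → ∀ r r' r'' : F, aeval r (α i) = aeval r (α j) →
      aeval r' (α j) = aeval r' (α l) → aeval r'' (α i) = aeval r'' (α l) →
      ∃ (ν : F → ZMod ℓ) (h : ZMod ℓ),
        IsVal (IntermediateField.adjoin k (nodes k F α)).toSubfield ν ∧ h ≠ 0 ∧
          TripleV ν α h i j l r r' r'') :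
    ArrangementIndependentW ℓ k F W α := by
  have : Fact ℓ.Prime := ⟨hℓ⟩
  intro e κ c hκ hκK hc hsum hpow0
  have hpow : ∀ (i j : ι) (s : F), i ≠ j → aeval s (α i) = aeval s (α j) →
      ∃ w ∈ IntermediateField.adjoin k (nodes k F α),
        w ^ ℓ = κ ^ e i s * (c i / c j) ^ W j *
          aeval s (derivative (α i - α j)) ^ (-((W i : ℤ) + W j) * e i s) *
          (∏ l ∈ Finset.univ.filter fun l => l ≠ i ∧ l ≠ j,
            (aeval s (α i) - aeval s (α l)) ^ (-(W l : ℤ) * e i s)) *
          ∏ᶠ s' ∈ {s' ∈ nodes k F α | s' ≠ s}, (s - s') ^ ((W j : ℤ) * (e i s' - e j s')) := by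
    intro i j s hij hs
    obtain ⟨w, hw1, hw2⟩ := hpow0 i j s hij hs
    refine ⟨w, hw1, hw2.trans ?_⟩
    congr 2
    apply Finset.prod_congr _ (fun _ _ => rfl)
    ext l
    simp only [Finset.mem_filter]
  have hw : ∀ i, (W i : ZMod ℓ) ≠ 0 := by
    intro i h0
    rw [ZMod.natCast_eq_zero_iff] at h0
    exact (hℓ.coprime_iff_not_dvd.mp (hW i).symm) h0
  -- the sets
  have hnode : ∀ {a b : ι} {s : F}, a ≠ b → aeval s (α a) = aeval s (α b) → s ∈ nodes k F α :=
    fun hab hs => ⟨_, _, hab, hs⟩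
  -- the values of `e` at the nodes
  have e0 : ∀ a b d : ι, ∀ s : F, a ≠ b → aeval s (α a) = aeval s (α b) → d ≠ a → d ≠ b →
      (e d s : ZMod ℓ) = 0 := by
    intro a b d s hab hs hda hdb
    have h1 := hsum s (hnode hab hs) d
    have h2 : (Finset.univ.filter fun j => aeval s (α j) = aeval s (α d)) = {d} := by
      ext j
      rw [Finset.mem_filter, Finset.mem_singleton]
      constructor
      · rintro ⟨-, hj⟩
        by_contra hjd
        have h3 := nodes_pair α hα hab hjd hs hj
        have h4 : d ∈ ({a, b} : Set ι) := by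
          rw [h3]
          exact Set.mem_insert_of_mem _ rfl
        rcases h4 with h4 | h4
        · exact hda h4
        · exact hdb h4
      · rintro rfl
        exact ⟨Finset.mem_univ _, rfl⟩
    rw [h2, Finset.sum_singleton] at h1
    have h3 : (((W d : ℤ) * e d s : ℤ) : ZMod ℓ) = 0 := (ZMod.intCast_zmod_eq_zero_iff_dvd _ _).mpr h1
    push_cast at h3
    exact (mul_eq_zero.mp h3).resolve_left (hw d)
  have e1 : ∀ a b : ι, ∀ s : F, a ≠ b → aeval s (α a) = aeval s (α b) →
      (W a : ZMod ℓ) * e a s + W b * e b s = 0 := by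
    intro a b s hab hs
    have h1 := hsum s (hnode hab hs) a
    have h2 : (Finset.univ.filter fun j => aeval s (α j) = aeval s (α a)) = {a, b} := by
      ext j
      rw [Finset.mem_filter, Finset.mem_insert, Finset.mem_singleton]
      constructor
      · rintro ⟨-, hj⟩
        by_contra hjd
        rw [not_or] at hjd
        have h3 := nodes_pair α hα hab hjd.1 hs hj
        have h4 : j ∈ ({a, b} : Set ι) := by
          rw [h3]
          exact Set.mem_insert _ _
        rcases h4 with h4 | h4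
        · exact hjd.1 h4
        · exact hjd.2 h4
      · rintro (rfl | rfl)
        · exact ⟨Finset.mem_univ _, rfl⟩
        · exact ⟨Finset.mem_univ _, hs.symm⟩
    rw [h2, Finset.sum_pair hab] at h1
    have h3 : (((W a : ℤ) * e a s + (W b : ℤ) * e b s : ℤ) : ZMod ℓ) = 0 :=
      (ZMod.intCast_zmod_eq_zero_iff_dvd _ _).mpr h1
    push_cast at h3
    exact h3
  have hpair : ∀ {a b c d : ι} {s t : F}, a ≠ b → c ≠ d → aeval s (α a) = aeval s (α b) →
      aeval t (α c) = aeval t (α d) → ({a, b} : Set ι) ≠ {c, d} → s ≠ t := by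
    rintro a b c d s t hab hcd hs ht hne rfl
    exact hne (nodes_pair α hα hab hcd hs ht)
  obtain ⟨b, hb⟩ := core_graph (A := ZMod ℓ) hι
    (fun i j => {s : F | aeval s (α i) = aeval s (α j)})
    (fun i j => by
      ext s
      exact eq_comm)
    (fun a b c d s hab hcd hs hs' => nodes_pair α hα hab hcd hs hs')
    (by
      rcases hdeg with hd | ⟨hd4, hd⟩
      · left
        intro i j hij r r'
        obtain ⟨s, hs, hsT⟩ := roots_h96 α hα hij ({r, r'} : Finset F)
          (lt_of_le_of_lt Finset.card_le_two (by have := hd i j hij; omega))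
        rw [Finset.mem_insert, Finset.mem_singleton, not_or] at hsT
        exact ⟨s, hs, hsT.1, hsT.2⟩
      · right
        refine ⟨hd4, fun i j hij r => ?_⟩
        obtain ⟨s, hs, hsT⟩ := roots_h96 α hα hij ({r} : Finset F)
          (by rw [Finset.card_singleton]; have := hd i j hij; omega)
        rw [Finset.mem_singleton] at hsT
        exact ⟨s, hs, hsT⟩)
    (fun i j s => (e i s : ZMod ℓ) / W j)
    (fun i j s hij hs => by
      have h1 := e1 i j s hij hs
      have h2 := hw i
      have h3 := hw j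
      field_simp
      linear_combination h1)
    (fun i => (W i : ZMod ℓ)) hw
    (by
      intro i j l hij hjl hil r hr r' hr' r'' hr''
      obtain ⟨ν, h, hν, hh, hT⟩ := hV i j l hij hjl hil r r' r'' hr hr' hr''
      have hr0 : aeval r (α i) = aeval r (α j) := hr
      have hr0' : aeval r' (α j) = aeval r' (α l) := hr'
      have hr0'' : aeval r'' (α i) = aeval r'' (α l) := hr''
      have q1 : ({i, j} : Set ι) ≠ {j, l} := by
        intro h
        have h1 : i ∈ ({j, l} : Set ι) := by rw [← h]; exact Set.mem_insert _ _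
        rcases h1 with h1 | h1
        · exact hij h1
        · exact hil h1
      have q2 : ({i, j} : Set ι) ≠ {i, l} := by
        intro h
        have h1 : j ∈ ({i, l} : Set ι) := by rw [← h]; exact Set.mem_insert_of_mem _ rfl
        rcases h1 with h1 | h1
        · exact hij h1.symm
        · exact hjl h1
      have q3 : ({j, l} : Set ι) ≠ {i, l} := by
        intro h
        have h1 : j ∈ ({i, l} : Set ι) := by rw [← h]; exact Set.mem_insert _ _
        rcases h1 with h1 | h1
        · exact hij h1.symm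
        · exact hjl h1
      have n1 : r ≠ r' := hpair hij hjl hr0 hr0' q1
      have n2 : r ≠ r'' := hpair hij hil hr0 hr0'' q2
      have n3 : r' ≠ r'' := hpair hjl hil hr0' hr0'' q3
      have m1 : r ∈ nodes k F α := hnode hij hr0
      have m2 : r' ∈ nodes k F α := hnode hjl hr0'
      have m3 : r'' ∈ nodes k F α := hnode hil hr0''
      -- relations
      have R1 := rel_h96 α hα W ν hν e κ c hκ hκK hc (d := l) (t := r') (u := r'') hij hr0
        (hpow i j r hij hr0) hil.symm hjl.symm m2 m3 n1.symm n2.symm n3 h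
        (hT.der i j r hij hr0)
        (fun d hda hdb => by
          rw [hT.val i j d r hij hr0 hda hdb]
          congr 1
          apply propext
          constructor
          · rintro ⟨-, h1⟩
            rcases h1 with h1 | h1 | h1
            · exact absurd h1 hda
            · exact absurd h1 hdb
            · exact h1
          · rintro rfl
            exact ⟨Or.inl rfl, Or.inr (Or.inr rfl)⟩)
        (fun s' hs' hne => by
          rw [hT.dif r m1 s' hs' hne.symm]
          congr 1
          apply propext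
          constructor
          · rintro ⟨-, h1⟩
            rcases h1 with h1 | h1 | h1
            · exact absurd h1 hne
            · exact Or.inl h1
            · exact Or.inr h1
          · rintro (rfl | rfl)
            · exact ⟨Or.inl rfl, Or.inr (Or.inl rfl)⟩
            · exact ⟨Or.inl rfl, Or.inr (Or.inr rfl)⟩)
      have R2 := rel_h96 α hα W ν hν e κ c hκ hκK hc (d := i) (t := r) (u := r'') hjl hr0'
        (hpow j l r' hjl hr0') hij hil m1 m3 n1 n3.symm n2 h
        (hT.der j l r' hjl hr0')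
        (fun d hda hdb => by
          rw [hT.val j l d r' hjl hr0' hda hdb]
          congr 1
          apply propext
          constructor
          · rintro ⟨-, h1⟩
            rcases h1 with h1 | h1 | h1
            · exact h1
            · exact absurd h1 hda
            · exact absurd h1 hdb
          · rintro rfl
            exact ⟨Or.inr (Or.inl rfl), Or.inl rfl⟩)
        (fun s' hs' hne => by
          rw [hT.dif r' m2 s' hs' hne.symm]
          congr 1
          apply propext
          constructor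
          · rintro ⟨-, h1⟩
            rcases h1 with h1 | h1 | h1
            · exact Or.inl h1
            · exact absurd h1 hne
            · exact Or.inr h1
          · rintro (rfl | rfl)
            · exact ⟨Or.inr (Or.inl rfl), Or.inl rfl⟩
            · exact ⟨Or.inr (Or.inl rfl), Or.inr (Or.inr rfl)⟩)
      have R3 := rel_h96 α hα W ν hν e κ c hκ hκK hc (d := j) (t := r) (u := r') hil hr0''
        (hpow i l r'' hil hr0'') hij.symm hjl m1 m2 n2 n3 n1 h
        (hT.der i l r'' hil hr0'')
        (fun d hda hdb => by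
          rw [hT.val i l d r'' hil hr0'' hda hdb]
          congr 1
          apply propext
          constructor
          · rintro ⟨-, h1⟩
            rcases h1 with h1 | h1 | h1
            · exact absurd h1 hda
            · exact h1
            · exact absurd h1 hdb
          · rintro rfl
            exact ⟨Or.inr (Or.inr rfl), Or.inr (Or.inl rfl)⟩)
        (fun s' hs' hne => by
          rw [hT.dif r'' m3 s' hs' hne.symm]
          congr 1
          apply propext
          constructor
          · rintro ⟨-, h1⟩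
            rcases h1 with h1 | h1 | h1
            · exact Or.inl h1
            · exact Or.inr h1
            · exact absurd h1 hne
          · rintro (rfl | rfl)
            · exact ⟨Or.inr (Or.inr rfl), Or.inl rfl⟩
            · exact ⟨Or.inr (Or.inr rfl), Or.inr (Or.inl rfl)⟩)
      have wi := hw i
      have wj := hw j
      have wl := hw l
      have z1 := e0 j l i r' hjl hr0' hij hil
      have z2 := e0 i l j r'' hil hr0'' hij.symm hjl
      have z3 := e0 i j l r hij hr0 hil.symm hjl.symm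
      have y1 := e1 i j r hij hr0
      have y2 := e1 j l r' hjl hr0'
      have y3 := e1 i l r'' hil hr0''
      obtain ⟨X1, hX1⟩ : ∃ X, (e i r : ZMod ℓ) = W j * X :=
        ⟨(e i r : ZMod ℓ) / W j, (mul_div_cancel₀ _ wj).symm⟩
      obtain ⟨X2, hX2⟩ : ∃ X, (e j r' : ZMod ℓ) = W l * X :=
        ⟨(e j r' : ZMod ℓ) / W l, (mul_div_cancel₀ _ wl).symm⟩
      obtain ⟨X3, hX3⟩ : ∃ X, (e i r'' : ZMod ℓ) = W l * X :=
        ⟨(e i r'' : ZMod ℓ) / W l, (mul_div_cancel₀ _ wl).symm⟩
      have hY1 : (e j r : ZMod ℓ) = -(W i * X1) := by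
        apply mul_left_cancel₀ wj
        rw [hX1] at y1
        linear_combination y1
      have hY2 : (e l r' : ZMod ℓ) = -(W j * X2) := by
        apply mul_left_cancel₀ wl
        rw [hX2] at y2
        linear_combination y2
      have hY3 : (e l r'' : ZMod ℓ) = -(W i * X3) := by
        apply mul_left_cancel₀ wl
        rw [hX3] at y3
        linear_combination y3
      rw [hX1, z1, hX2, hX3, z2] at R1
      rw [hX2, hY1, z3, z2, hY3] at R2
      rw [hX3, hX1, z3, z1, hY2] at R3
      have d1 : (e i r : ZMod ℓ) / W j = X1 := by rw [hX1, mul_div_cancel_left₀ _ wj]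
      have d2 : (e j r' : ZMod ℓ) / W l = X2 := by rw [hX2, mul_div_cancel_left₀ _ wl]
      have d3 : (e i r'' : ZMod ℓ) / W l = X3 := by rw [hX3, mul_div_cancel_left₀ _ wl]
      refine ⟨ν κ, h, fun a => ν (c a), hh, ?_, ?_, ?_, ?_⟩
      · show ν κ * ((e i r : ZMod ℓ) / W j) + ν (c i) - ν (c j) =
          (W l : ZMod ℓ) * h * ((e i r : ZMod ℓ) / W j + (e j r' : ZMod ℓ) / W l -
            (e i r'' : ZMod ℓ) / W l)
        rw [d1, d2, d3]
        apply mul_left_cancel₀ wj
        linear_combination R1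
      · show ν κ * ((e j r' : ZMod ℓ) / W l) + ν (c j) - ν (c l) =
          (W i : ZMod ℓ) * h * ((e i r : ZMod ℓ) / W j + (e j r' : ZMod ℓ) / W l -
            (e i r'' : ZMod ℓ) / W l)
        rw [d1, d2, d3]
        apply mul_left_cancel₀ wl
        linear_combination R2
      · show ν κ * ((e i r'' : ZMod ℓ) / W l) + ν (c i) - ν (c l) =
          -((W j : ZMod ℓ) * h * ((e i r : ZMod ℓ) / W j + (e j r' : ZMod ℓ) / W l -
            (e i r'' : ZMod ℓ) / W l))
        rw [d1, d2, d3]
        apply mul_left_cancel₀ wl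
        linear_combination R3
      · intro a b s hab hs h1 h2 h3
        have hs0 : aeval s (α a) = aeval s (α b) := hs
        have hns : s ∉ ({r, r', r''} : Set F) := by
          rintro (h4 | h4 | h4)
          · exact h1 h4
          · exact h2 h4
          · exact h3 h4
        have R4 := rel0_h96 α hα W ν hν e κ c hκ hκK hc hab hs0 (hpow a b s hab hs0)
          (hT.der a b s hab hs0)
          (fun d hda hdb => by
            rw [hT.val a b d s hab hs0 hda hdb, if_neg (fun h5 => hns h5.1)])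
          (fun s' hs' hne => by
            rw [hT.dif s (hnode hab hs0) s' hs' hne.symm, if_neg (fun h5 => hns h5.1)])
        have wb := hw b
        show ν κ * ((e a s : ZMod ℓ) / W b) + ν (c a) - ν (c b) = 0
        field_simp
        linear_combination R4)
  refine ⟨fun i => ((b i).val : ℤ), fun i j s hij hs => ?_⟩
  have h1 := hb i j s hij hs
  rw [← ZMod.intCast_zmod_eq_zero_iff_dvd]
  have h2 : ∀ a : ι, (((b a).val : ℤ) : ZMod ℓ) = b a := by
    intro a
    rw [Int.cast_natCast, ZMod.natCast_zmod_val]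
  push_cast
  have h3 : ∀ a : ι, (((b a).val : ℕ) : ZMod ℓ) = b a := fun a => ZMod.natCast_zmod_val _
  rw [h3, h3]
  have h4 : (e i s : ZMod ℓ) / W j = b j - b i := h1
  have h5 : (e i s : ZMod ℓ) = W j * (b j - b i) := by
    rw [← h4]
    have := hw j
    field_simp
  rw [h5, sub_self]

end Pool.Agent.Lib.MP_89bcae_ag

end

section

/-!
# Good families are arrangements

`α_a - α_b` is separable (`separable_of_typeI`), of degree `n` (`gdif_natDegree`). For different pairs
`α_a - α_b` and `α_c - α_d` are coprime over `ℚ`: they are coprime modulo the prime of type D of some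
pair (`isCoprime_of_gred`). For the product over `i < j`: `Polynomial.separable_prod'` or
`Finset.prod` with `Polynomial.Separable.mul` (pairwise coprime and separable).
-/

open Polynomial

open scoped Classical

namespace Pool.Agent.Lib.MP_89bcae_ag

open Superelliptic

section

variable {ι : Type} {n : ℕ}

lemma coe_pair_ne_h30 {I : Finset ι} {a b c d : I} (h : ({a, b} : Set I) ≠ {c, d}) :
    ({(a : ι), (b : ι)} : Set ι) ≠ {(c : ι), (d : ι)} := by
  intro hcon
  apply h
  apply Set.image_injective.2 (Subtype.coe_injective (p := fun x => x ∈ I))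
  rw [Set.image_pair, Set.image_pair]
  exact hcon

/-- Restriction of a good family to a set of indices. -/
theorem GoodG.restrict {v : ι × Fin (n + 1) → ℤ} (h : GoodG v) (I : Finset ι) :
    GoodG (fun x : I × Fin (n + 1) => v (x.1, x.2)) := by
  have hc : ∀ {a b : I}, a ≠ b → (a : ι) ≠ (b : ι) := fun hab hcon => hab (Subtype.ext hcon)
  refine ⟨?_, ?_, ?_, ?_⟩
  · intro a b hab
    obtain ⟨p, hp, hI⟩ := h.typeI a b (hc hab)
    exact ⟨p, hp, ⟨hI.lead, hI.irr⟩⟩
  · intro a b hab
    obtain ⟨p, hp, hL⟩ := h.typeL a b (hc hab)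
    exact ⟨p, hp, ⟨hL.lead, hL.irr⟩⟩
  · intro a b hab
    obtain ⟨p, hp, hD⟩ := h.typeD a b (hc hab)
    refine ⟨p, hp, ⟨?_, ?_, ?_, hD.dbl⟩⟩
    · intro c d hcd
      exact hD.lead c d (hc hcd)
    · intro c d hcd hne
      exact hD.sep c d (hc hcd) (coe_pair_ne_h30 hne)
    · intro a' b' c d hab' hcd hne
      exact hD.cop a' b' c d (hc hab') (hc hcd) (coe_pair_ne_h30 hne)
  · intro i j l hij hjl hil
    obtain ⟨p, hp, hB⟩ := h.typeB i j l (hc hij) (hc hjl) (hc hil)
    refine ⟨p, hp, ⟨?_, ?_, ?_, hB.col⟩⟩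
    · intro c d hcd
      exact hB.lead c d (hc hcd)
    · intro c d hcd
      exact hB.sep c d (hc hcd)
    · intro a b c d hab hcd hne hsub
      refine hB.cop a b c d (hc hab) (hc hcd) (coe_pair_ne_h30 hne) ?_
      intro hcon
      apply hsub
      have key : ∀ x : I, (x : ι) ∈ ({(i : ι), (j : ι), (l : ι)} : Set ι) →
          x ∈ ({i, j, l} : Set I) := by
        intro x hx
        simp only [Set.mem_insert_iff, Set.mem_singleton_iff] at hx ⊢
        rcases hx with hx | hx | hx
        · exact Or.inl (Subtype.ext hx)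
        · exact Or.inr (Or.inl (Subtype.ext hx))
        · exact Or.inr (Or.inr (Subtype.ext hx))
      intro x hx
      apply key
      apply hcon
      simp only [Set.mem_insert_iff, Set.mem_singleton_iff] at hx ⊢
      rcases hx with hx | hx | hx | hx
      · exact Or.inl (congrArg _ hx)
      · exact Or.inr (Or.inl (congrArg _ hx))
      · exact Or.inr (Or.inr (Or.inl (congrArg _ hx)))
      · exact Or.inr (Or.inr (Or.inr (congrArg _ hx)))

variable {F : Type} [Field F] [Algebra ℚ F] [IsAlgClosure ℚ F]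

theorem GoodG.natDegree {v : ι × Fin (n + 1) → ℤ} (h : GoodG v) {a b : ι} (hab : a ≠ b) :
    (gpolQ v a - gpolQ v b).natDegree = n := by
  obtain ⟨p, hp, hI⟩ := h.typeI a b hab
  have hne : v (a, Fin.last n) ≠ v (b, Fin.last n) := by
    intro hcon
    apply hI.lead
    rw [hcon, sub_self]
    exact dvd_zero _
  rw [← gdif_map_rat, natDegree_map_eq_of_injective (RingHom.injective_int (Int.castRingHom ℚ))]
  exact gdif_natDegree hne

theorem GoodG.isCoprime {v : ι × Fin (n + 1) → ℤ} (h : GoodG v) {a b c d : ι} (hab : a ≠ b)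
    (hcd : c ≠ d) (hne : ({a, b} : Set ι) ≠ {c, d}) :
    IsCoprime (gpolQ v a - gpolQ v b) (gpolQ v c - gpolQ v d) := by
  obtain ⟨p, hp, hD⟩ := h.typeD a b hab
  exact isCoprime_of_gred hp (hD.lead a b hab) (hD.lead c d hcd) (hD.cop a b c d hab hcd hne)

theorem GoodG.isArrangement [Fintype ι] [LinearOrder ι] (hn : n ≠ 0) {v : ι × Fin (n + 1) → ℤ}
    (h : GoodG v) (k : Type) [Field k] [Algebra ℚ k] :
    IsArrangement fun i => (gpolQ v i).map (algebraMap ℚ k) := by
  refine ⟨?_, ?_⟩
  · have h1 : (∏ i, ∏ j ∈ Finset.univ.filter fun j => i < j,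
        (gpolQ v i - gpolQ v j)).Separable := by
      rw [Finset.prod_sigma']
      apply separable_prod'
      · rintro ⟨a, b⟩ hx ⟨c, d⟩ hy hxy
        simp only [Finset.mem_sigma, Finset.mem_univ, Finset.mem_filter, true_and] at hx hy
        refine h.isCoprime hx.ne hy.ne ?_
        intro hcon
        rw [Set.pair_eq_pair_iff] at hcon
        rcases hcon with ⟨h2, h3⟩ | ⟨h2, h3⟩
        · have h2' : a = c := h2
          have h3' : b = d := h3
          exact hxy (by rw [h2', h3'])
        · have h2' : a = d := h2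
          have h3' : b = c := h3
          rw [h2', h3'] at hx
          exact absurd hx (not_lt.2 hy.le)
      · rintro ⟨a, b⟩ hx
        simp only [Finset.mem_sigma, Finset.mem_univ, Finset.mem_filter, true_and] at hx
        obtain ⟨p, hp, hI⟩ := h.typeI a b hx.ne
        exact separable_of_typeI v hp hI
    have h2 := h1.map (f := algebraMap ℚ k)
    rw [Polynomial.map_prod] at h2
    have h3 : (∏ i, ∏ j ∈ Finset.univ.filter fun j => i < j,
        ((gpolQ v i).map (algebraMap ℚ k) - (gpolQ v j).map (algebraMap ℚ k))) =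
        ∏ i, Polynomial.map (algebraMap ℚ k) (∏ j ∈ Finset.univ.filter fun j => i < j,
          (gpolQ v i - gpolQ v j)) := by
      refine Finset.prod_congr rfl fun i _ => ?_
      rw [Polynomial.map_prod]
      refine Finset.prod_congr rfl fun j _ => ?_
      rw [Polynomial.map_sub]
    rw [h3]
    exact h2
  · intro i j hij
    rw [← Polynomial.map_sub, natDegree_map, h.natDegree hij]
    exact hn

end

end Pool.Agent.Lib.MP_89bcae_ag

end

section

/-!
# The Galois group is transitive on the triples of roots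

Step 1: for every pair `a ≠ b` and all roots `x`, `y` of `α_a - α_b` there is `σ` with `σ x = y` which
fixes the roots of all the `α_c - α_d`, `{c, d} ≠ {a, b}`. If `x = y` take `σ = 1`. Otherwise let `τ`,
`u`, `w` be as in `exists_swap_typeD` and `g` with `g u = x`, `g w = y` (`pairTransitive_gpol`); take
`σ = g τ g⁻¹` (for a root `s` of `α_c - α_d`, `g⁻¹ s` is also one, hence `τ` fixes it: it is not a root of
`α_a - α_b`, as the differences are coprime).
Step 2: compose three such elements for the pairs `(i, j)`, `(j, l)`, `(i, l)`.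
-/

open Polynomial

open scoped Classical

namespace Pool.Agent.Lib.MP_89bcae_ag

open Superelliptic

variable {ι : Type} [Fintype ι] [LinearOrder ι] {n : ℕ} {F : Type} [Field F] [Algebra ℚ F]
  [IsAlgClosure ℚ F]

lemma no_common_root_h30 {v : ι × Fin (n + 1) → ℤ} (h : GoodG v) {a b c d : ι} (hab : a ≠ b)
    (hcd : c ≠ d) (hne : ({a, b} : Set ι) ≠ {c, d}) {s : F}
    (h1 : aeval s (gpolQ v a) = aeval s (gpolQ v b))
    (h2 : aeval s (gpolQ v c) = aeval s (gpolQ v d)) : False := by
  obtain ⟨p, q, hpq⟩ := h.isCoprime hab hcd hne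
  have h3 := congrArg (aeval s) hpq
  rw [map_add, map_mul, map_mul, map_sub, map_sub, h1, h2, sub_self, sub_self, mul_zero, mul_zero,
    add_zero, map_one] at h3
  exact zero_ne_one h3

theorem exists_move {v : ι × Fin (n + 1) → ℤ} (h : GoodG v) {a b : ι} (hab : a ≠ b) (x y : F)
    (hx : aeval x (gpolQ v a) = aeval x (gpolQ v b))
    (hy : aeval y (gpolQ v a) = aeval y (gpolQ v b)) :
    ∃ σ : F ≃ₐ[ℚ] F, σ x = y ∧ ∀ c d s, c ≠ d → ({c, d} : Set ι) ≠ {a, b} →
      aeval s (gpolQ v c) = aeval s (gpolQ v d) → σ s = s := by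
  by_cases hxy : x = y
  · exact ⟨AlgEquiv.refl, hxy, fun _ _ _ _ _ _ => rfl⟩
  · obtain ⟨p, hp, hI⟩ := h.typeI a b hab
    have hsep := separable_of_typeI v hp hI
    obtain ⟨p', hp', hD⟩ := h.typeD a b hab
    obtain ⟨τ, u, w, huw, hu, hw, hτu, hτw, hfix⟩ := exists_swap_typeD (F := F) v hp' hab hD hsep
    obtain ⟨g, hgu, hgw⟩ := pairTransitive_gpol v (h.typeI a b hab) (h.typeL a b hab)
      u w x y hu hw hx hy huw hxy
    refine ⟨(g.symm.trans τ).trans g, ?_, ?_⟩
    · rw [AlgEquiv.trans_apply, AlgEquiv.trans_apply, ← hgu, AlgEquiv.symm_apply_apply, hτu, hgw]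
    · intro c d s hcd hne hs
      have hs' : aeval (g.symm s) (gpolQ v c) = aeval (g.symm s) (gpolQ v d) := by
        rw [aeval_algHom_apply, aeval_algHom_apply, hs]
      have h1 : g.symm s ≠ u := by
        intro hcon
        rw [hcon] at hs'
        exact no_common_root_h30 h hcd hab hne hs' hu
      have h2 : g.symm s ≠ w := by
        intro hcon
        rw [hcon] at hs'
        exact no_common_root_h30 h hcd hab hne hs' hw
      rw [AlgEquiv.trans_apply, AlgEquiv.trans_apply, hfix _ ⟨c, d, hcd, hs'⟩ h1 h2,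
        AlgEquiv.apply_symm_apply]

theorem exists_move_triple {v : ι × Fin (n + 1) → ℤ} (h : GoodG v) {i j l : ι} (hij : i ≠ j)
    (hjl : j ≠ l) (hil : i ≠ l) (x x' x'' y y' y'' : F)
    (hx : aeval x (gpolQ v i) = aeval x (gpolQ v j))
    (hx' : aeval x' (gpolQ v j) = aeval x' (gpolQ v l))
    (hx'' : aeval x'' (gpolQ v i) = aeval x'' (gpolQ v l))
    (hy : aeval y (gpolQ v i) = aeval y (gpolQ v j))
    (hy' : aeval y' (gpolQ v j) = aeval y' (gpolQ v l))
    (hy'' : aeval y'' (gpolQ v i) = aeval y'' (gpolQ v l)) :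
    ∃ σ : F ≃ₐ[ℚ] F, σ x = y ∧ σ x' = y' ∧ σ x'' = y'' := by
  have h12 : ({i, j} : Set ι) ≠ {j, l} := by
    intro hcon
    rw [Set.pair_eq_pair_iff] at hcon
    rcases hcon with ⟨h1, _⟩ | ⟨h1, _⟩
    · exact hij h1
    · exact hil h1
  have h13 : ({i, j} : Set ι) ≠ {i, l} := by
    intro hcon
    rw [Set.pair_eq_pair_iff] at hcon
    rcases hcon with ⟨_, h1⟩ | ⟨h1, _⟩
    · exact hjl h1
    · exact hil h1
  have h23 : ({j, l} : Set ι) ≠ {i, l} := by
    intro hcon
    rw [Set.pair_eq_pair_iff] at hcon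
    rcases hcon with ⟨h1, _⟩ | ⟨h1, _⟩
    · exact hij h1.symm
    · exact hjl h1
  obtain ⟨σ1, h1, f1⟩ := exists_move h hij x y hx hy
  obtain ⟨σ2, h2, f2⟩ := exists_move h hjl x' y' hx' hy'
  obtain ⟨σ3, h3, f3⟩ := exists_move h hil x'' y'' hx'' hy''
  refine ⟨(σ1.trans σ2).trans σ3, ?_, ?_, ?_⟩
  · rw [AlgEquiv.trans_apply, AlgEquiv.trans_apply, h1, f2 i j y hij h12 hy, f3 i j y hij h13 hy]
  · rw [AlgEquiv.trans_apply, AlgEquiv.trans_apply, f1 j l x' hjl h12.symm hx', h2,
      f3 j l y' hjl h23 hy']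
  · rw [AlgEquiv.trans_apply, AlgEquiv.trans_apply, f1 i l x'' hil h13.symm hx'',
      f2 i l x'' hil h23.symm hx'', h3]

end Pool.Agent.Lib.MP_89bcae_ag

end

section

/-!
# The arithmetic condition for good families

`exists_val_good`: conjugate the valuation of `exists_val_typeB` by the automorphism `σ` of
`exists_move_triple` (`TripleV.conj`), and reduce it modulo `ℓ` (`1 ≠ 0` in `ZMod ℓ`).
`graphIndepW`: restrict to `I`; `K = ℚ(ζ_ℓ)`; the nodes of the `(gpolQ v i).map (algebraMap ℚ K)` are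
those of the `gpolQ v i` (`aeval_map_algebraMap`, also for the derivatives); `exists_extend_val` extends
the homomorphisms from `ℚ(nodes)` to `K(nodes)`; all elements whose values are in `TripleV` are in
`ℚ(nodes)`; then `indepW_of_tripleV` over `k = K`. `F` is an algebraic closure of `ℚ` with an embedding
of `K`.
-/

open Polynomial

open scoped Classical

namespace Pool.Agent.Lib.MP_89bcae_ag

open Superelliptic

section

variable {ι : Type} [Fintype ι] [LinearOrder ι] {n : ℕ} {F : Type} [Field F] [Algebra ℚ F]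

theorem IsVal.conj {A : Type*} [AddCommGroup A] {S : Set F} (σ : F ≃ₐ[ℚ] F) {ν : F → A}
    (hS : σ.symm '' S = S) (h : IsVal (IntermediateField.adjoin ℚ S).toSubfield ν) :
    IsVal (IntermediateField.adjoin ℚ S).toSubfield fun x => ν (σ.symm x) := by
  have key : ∀ x ∈ (IntermediateField.adjoin ℚ S).toSubfield,
      σ.symm x ∈ (IntermediateField.adjoin ℚ S).toSubfield := by
    intro x hx
    have h1 : (IntermediateField.adjoin ℚ S).map (σ.symm : F →ₐ[ℚ] F) = IntermediateField.adjoin ℚ S := by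
      rw [IntermediateField.adjoin_map]
      exact congrArg _ hS
    have h2 : (σ.symm : F →ₐ[ℚ] F) x ∈ (IntermediateField.adjoin ℚ S).map (σ.symm : F →ₐ[ℚ] F) :=
      ⟨x, hx, rfl⟩
    rw [h1] at h2
    exact h2
  refine ⟨fun x hx y hy hx0 hy0 => ?_, ?_⟩
  · show ν (σ.symm (x * y)) = ν (σ.symm x) + ν (σ.symm y)
    rw [map_mul]
    exact h.mul _ (key x hx) _ (key y hy) (by simpa using hx0) (by simpa using hy0)
  · show ν (σ.symm (-1)) = 0
    rw [map_neg, map_one]
    exact h.neg_one

theorem mem_triple_conj_h43 (σ : F ≃ₐ[ℚ] F) (r r' r'' s : F) :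
    σ.symm s ∈ ({r, r', r''} : Set F) ↔ s ∈ ({σ r, σ r', σ r''} : Set F) := by
  simp only [Set.mem_insert_iff, Set.mem_singleton_iff, AlgEquiv.symm_apply_eq]

theorem aeval_conj_h43 (σ : F ≃ₐ[ℚ] F) (s : F) (p : ℚ[X]) :
    aeval (σ.symm s) p = σ.symm (aeval s p) :=
  Polynomial.aeval_algHom_apply (σ.symm : F →ₐ[ℚ] F) s p

theorem TripleV.conj {A : Type*} [AddCommGroup A] {α : ι → ℚ[X]} (σ : F ≃ₐ[ℚ] F) {ν : F → A}
    {h : A} {i j l : ι} {r r' r'' : F} (H : TripleV ν α h i j l r r' r'') :
    TripleV (fun x => ν (σ.symm x)) α h i j l (σ r) (σ r') (σ r'') := by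
  have hnode : ∀ s ∈ nodes ℚ F α, σ.symm s ∈ nodes ℚ F α := by
    rintro s ⟨a, b, hab, hs⟩
    exact ⟨a, b, hab, by rw [aeval_conj_h43, aeval_conj_h43, hs]⟩
  refine ⟨fun s hs s' hs' hne => ?_, fun a b s hab hs => ?_, fun a b c s hab hs hca hcb => ?_⟩
  · show ν (σ.symm (s - s')) = _
    rw [map_sub, H.dif _ (hnode s hs) _ (hnode s' hs') (by simpa using hne)]
    simp only [mem_triple_conj_h43]
  · show ν (σ.symm (aeval s (derivative (α a - α b)))) = 0
    rw [← aeval_conj_h43]
    exact H.der a b _ hab (by rw [aeval_conj_h43, aeval_conj_h43, hs])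
  · show ν (σ.symm (aeval s (α a) - aeval s (α c))) = _
    rw [map_sub, ← aeval_conj_h43, ← aeval_conj_h43,
      H.val a b c _ hab (by rw [aeval_conj_h43, aeval_conj_h43, hs]) hca hcb]
    simp only [mem_triple_conj_h43]
    split_ifs <;> rfl

theorem exists_val_good [IsAlgClosure ℚ F] {ℓ : ℕ} (hℓ : ℓ.Prime) {v : ι × Fin (n + 1) → ℤ}
    (h : GoodG v) {i j l : ι} (hij : i ≠ j) (hjl : j ≠ l) (hil : i ≠ l) (r r' r'' : F)
    (hr : aeval r (gpolQ v i) = aeval r (gpolQ v j))
    (hr' : aeval r' (gpolQ v j) = aeval r' (gpolQ v l))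
    (hr'' : aeval r'' (gpolQ v i) = aeval r'' (gpolQ v l)) :
    ∃ ν : F → ZMod ℓ, IsVal (IntermediateField.adjoin ℚ (nodes ℚ F (gpolQ v))).toSubfield ν ∧
      TripleV ν (gpolQ v) 1 i j l r r' r'' := by
  obtain ⟨p, hp, hB⟩ := h.typeB i j l hij hjl hil
  obtain ⟨ν, s, s', s'', hs, hs', hs'', hν, hT⟩ := exists_val_typeB (F := F) v hp hij hjl hil hB
  obtain ⟨σ, h1, h2, h3⟩ := exists_move_triple h hij hjl hil s s' s'' r r' r'' hs hs' hs'' hr hr' hr''
  have hT' := hT.conj σ
  rw [h1, h2, h3] at hT'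
  have hS : σ.symm '' nodes ℚ F (gpolQ v) = nodes ℚ F (gpolQ v) := by
    apply Set.Subset.antisymm
    · rintro _ ⟨x, hx, rfl⟩
      exact nodes_stable _ σ.symm x hx
    · intro x hx
      exact ⟨σ x, nodes_stable _ σ x hx, by simp⟩
  have hν' := hν.conj σ hS
  refine ⟨fun x => ((ν (σ.symm x) : ℤ) : ZMod ℓ), ⟨fun x hx y hy hx0 hy0 => ?_, ?_⟩,
    ⟨fun s hs s' hs' hne => ?_, fun a b s hab hs => ?_, fun a b c s hab hs hca hcb => ?_⟩⟩
  · have := hν'.mul x hx y hy hx0 hy0
    simp only [this, Int.cast_add]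
  · have := hν'.neg_one
    simp only [this, Int.cast_zero]
  · have := hT'.dif s hs s' hs' hne
    simp only [this]
    split_ifs <;> simp
  · have := hT'.der a b s hab hs
    simp only [this, Int.cast_zero]
  · have := hT'.val a b c s hab hs hca hcb
    simp only [this]
    split_ifs <;> simp

end

section

variable {ι : Type} [Fintype ι] [LinearOrder ι] {n : ℕ}

theorem graphIndepW {ℓ : ℕ} (hℓ : ℓ.Prime) {v : ι × Fin (n + 1) → ℤ} (hv : GoodG v)
    (hn : (3 ≤ n ∧ 3 ≤ Fintype.card ι) ∨ (2 ≤ n ∧ 4 ≤ Fintype.card ι))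
    (W : ι → ℕ) (hW : ∀ i, (W i).Coprime ℓ)
    (K F : Type) [Field K] [Algebra ℚ K] [IsCyclotomicExtension {ℓ} ℚ K] [Field F] [Algebra ℚ F]
    [IsAlgClosure ℚ F] [Algebra K F] [IsScalarTower ℚ K F] :
    IsArrangement (fun i => (gpolQ v i).map (algebraMap ℚ K)) ∧
      ArrangementIndependentW ℓ K F W (fun i => (gpolQ v i).map (algebraMap ℚ K)) := by
  have : Fact ℓ.Prime := ⟨hℓ⟩
  have : IsAlgClosed F := IsAlgClosure.isAlgClosed ℚ
  have hFA : Algebra.IsAlgebraic ℚ F := IsAlgClosure.isAlgebraic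
  have hn0 : n ≠ 0 := by
    rcases hn with h | h <;> omega
  have harr := hv.isArrangement hn0 K
  refine ⟨harr, ?_⟩
  have hnodes : nodes K F (fun i => (gpolQ v i).map (algebraMap ℚ K)) = nodes ℚ F (gpolQ v) := by
    unfold nodes
    simp only [aeval_map_algebraMap]
  have hmem : ∀ (s : F), s ∈ nodes ℚ F (gpolQ v) → ∀ p : ℚ[X],
      aeval s p ∈ IntermediateField.adjoin ℚ (nodes ℚ F (gpolQ v)) := by
    intro s hs p
    have h1 := IntermediateField.subset_adjoin ℚ (nodes ℚ F (gpolQ v)) hs
    rw [aeval_eq_sum_range]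
    exact sum_mem fun j _ => IntermediateField.smul_mem _ (pow_mem h1 j)
  have hfin : (nodes ℚ F (gpolQ v)).Finite := by
    apply nodes_gpolQ_finite
    intro a b hab hEq
    have h1 := hv.natDegree hab
    rw [hEq, sub_self, natDegree_zero] at h1
    exact hn0 h1.symm
  apply indepW_of_tripleV hℓ _ harr (by rcases hn with h | h <;> omega) ?_ W hW
  · intro i j l hij hjl hil r r' r'' hr hr' hr''
    simp only [aeval_map_algebraMap] at hr hr' hr''
    obtain ⟨ν₀, hν₀, T⟩ := exists_val_good hℓ hv hij hjl hil r r' r'' hr hr' hr''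
    obtain ⟨ν, hν, hext⟩ := exists_extend_val hℓ K F (nodes ℚ F (gpolQ v)) hfin
      (fun s _ => (hFA.isAlgebraic s).isIntegral) ν₀ hν₀
    refine ⟨ν, 1, ?_, one_ne_zero, ?_⟩
    · rw [hnodes]
      exact hν
    · refine ⟨?_, ?_, ?_⟩
      · rw [hnodes]
        intro s hs s' hs' hne
        rw [hext _ (sub_mem (IntermediateField.subset_adjoin ℚ _ hs)
          (IntermediateField.subset_adjoin ℚ _ hs'))]
        exact T.dif s hs s' hs' hne
      · intro a b s hab hs
        have hs1 : aeval s (gpolQ v a) = aeval s (gpolQ v b) := by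
          simpa only [aeval_map_algebraMap] using hs
        have h1 : aeval s (derivative ((gpolQ v a).map (algebraMap ℚ K) -
            (gpolQ v b).map (algebraMap ℚ K))) = aeval s (derivative (gpolQ v a - gpolQ v b)) := by
          rw [← Polynomial.map_sub, derivative_map, aeval_map_algebraMap]
        show ν (aeval s (derivative ((gpolQ v a).map (algebraMap ℚ K) -
            (gpolQ v b).map (algebraMap ℚ K)))) = 0
        rw [h1, hext _ (hmem s ⟨a, b, hab, hs1⟩ _)]
        exact T.der a b s hab hs1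
      · intro a b c s hab hs hca hcb
        have hs1 : aeval s (gpolQ v a) = aeval s (gpolQ v b) := by
          simpa only [aeval_map_algebraMap] using hs
        have h2 := T.val a b c s hab hs1 hca hcb
        simp only [aeval_map_algebraMap]
        rw [hext _ (sub_mem (hmem s ⟨a, b, hab, hs1⟩ _) (hmem s ⟨a, b, hab, hs1⟩ _))]
        exact h2
  · have hdeg : ∀ i j : ι, i ≠ j → ((gpolQ v i).map (algebraMap ℚ K) -
        (gpolQ v j).map (algebraMap ℚ K)).natDegree = n := by
      intro i j hij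
      rw [← Polynomial.map_sub, natDegree_map]
      exact hv.natDegree hij
    rcases hn with h | h
    · left
      intro i j hij
      rw [hdeg i j hij]
      exact h.1
    · right
      refine ⟨h.2, fun i j hij => ?_⟩
      rw [hdeg i j hij]
      exact h.1

end

end Pool.Agent.Lib.MP_89bcae_ag

end

section

/-!
# The homomorphisms of types B, D, K at all the nodes
-/

open Polynomial

open scoped Classical

namespace Pool.Agent.Lib.MP_89bcae_ag

open Superelliptic

variable {ι : Type} [Fintype ι] [LinearOrder ι] {n : ℕ} {F : Type} [Field F] [Algebra ℚ F]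

/-- Conjugation. (As `TripleV.conj`, `Gph/Ind.lean`: `σ` permutes the nodes (`nodes_stable`) and fixes the
leading coefficients; `IsVal.conj`.) -/
theorem DifV.conj {A : Type*} [AddCommGroup A] {α : ι → ℚ[X]} (σ : F ≃ₐ[ℚ] F) {ν : F → A}
    {h : F → F → A} {b : ι → ι → A} (H : DifV ν α h b) :
    DifV (fun x => ν (σ.symm x)) α (fun s s' => h (σ.symm s) (σ.symm s')) b := by
  have hnode : ∀ s ∈ nodes ℚ F α, σ.symm s ∈ nodes ℚ F α := nodes_stable α σ.symm
  refine ⟨fun s hs s' hs' hne => ?_, fun a c hac => ?_⟩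
  · show ν (σ.symm (s - s')) = _
    rw [map_sub, H.dif _ (hnode s hs) _ (hnode s' hs') (by simpa using hne)]
  · show ν (σ.symm (algebraMap ℚ F (α a - α c).leadingCoeff)) = _
    rw [AlgEquiv.commutes, H.lead a c hac]

variable [IsAlgClosure ℚ F]

theorem isVal_prod_h66 {A : Type*} [AddCommGroup A] {K₀ : Subfield F}
    {ν₀ : F → A} (h₀ : IsVal K₀ ν₀) {τ : Type*} (R : Finset τ) (f : τ → F)
    (hK : ∀ t ∈ R, f t ∈ K₀) (h0 : ∀ t ∈ R, f t ≠ 0) :
    ν₀ (∏ t ∈ R, f t) = ∑ t ∈ R, ν₀ (f t) := by
  induction R using Finset.induction_on with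
  | empty => rw [Finset.prod_empty, Finset.sum_empty, isVal_one_h65 h₀]
  | insert t R ht ih =>
    rw [Finset.prod_insert ht, Finset.sum_insert ht, h₀.mul, ih]
    · exact fun u hu => hK u (Finset.mem_insert_of_mem hu)
    · exact fun u hu => h0 u (Finset.mem_insert_of_mem hu)
    · exact hK t (Finset.mem_insert_self t R)
    · exact prod_mem fun u hu => hK u (Finset.mem_insert_of_mem hu)
    · exact h0 t (Finset.mem_insert_self t R)
    · exact Finset.prod_ne_zero_iff.2 fun u hu => h0 u (Finset.mem_insert_of_mem hu)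

theorem leadingCoeff_h66 (v : ι × Fin (n + 1) → ℤ) (a b : ι) :
    algebraMap ℚ F (gpolQ v a - gpolQ v b).leadingCoeff =
      algebraMap ℤ F (gdif v a b).leadingCoeff := by
  rw [← gdif_map_rat, leadingCoeff_map_of_injective (RingHom.injective_int (Int.castRingHom ℚ))]
  simp

/-- Type B. Proof: `exists_val_good` gives `ν` with `TripleV ν (gpolQ v) 1 i j l r r' r''`; `dif` is the
statement. The leading coefficient of `α_a - α_b`: take a root `s` (`n ≥ 1`); by `der`,
`0 = ν((α_a - α_b)' s) = ν(lc) + ∑_{s' ≠ s} ν(s - s')` over the other roots `s'` of `α_a - α_b`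
(`exists_roots` gives the factorisation), and `ν(s - s') = 0` because at most one of `r, r', r''` is a root
of `α_a - α_b` (`no_common_root_h30`). -/
theorem exists_val_B {ℓ : ℕ} (hℓ : ℓ.Prime) {v : ι × Fin (n + 1) → ℤ} (h : GoodH v) (hn : 1 ≤ n)
    {i j l : ι} (hij : i ≠ j) (hjl : j ≠ l) (hil : i ≠ l) (r r' r'' : F)
    (hr : aeval r (gpolQ v i) = aeval r (gpolQ v j))
    (hr' : aeval r' (gpolQ v j) = aeval r' (gpolQ v l))
    (hr'' : aeval r'' (gpolQ v i) = aeval r'' (gpolQ v l)) :
    ∃ ν : F → ZMod ℓ, IsVal (IntermediateField.adjoin ℚ (nodes ℚ F (gpolQ v))).toSubfield ν ∧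
      DifV ν (gpolQ v) (fun s s' => if s ∈ ({r, r', r''} : Set F) ∧ s' ∈ ({r, r', r''} : Set F)
        then 1 else 0) (fun _ _ => 0) := by
  obtain ⟨ν, hν, T⟩ := exists_val_good hℓ h.good hij hjl hil r r' r'' hr hr' hr''
  refine ⟨ν, hν, fun s hs s' hs' hne => T.dif s hs s' hs' hne, fun a b hab => ?_⟩
  have hG := h.good
  have h12 : ({i, j} : Set ι) ≠ {j, l} := by
    intro hcon
    rw [Set.pair_eq_pair_iff] at hcon
    rcases hcon with ⟨h1, _⟩ | ⟨h1, _⟩
    · exact hij h1
    · exact hil h1
  have h13 : ({i, j} : Set ι) ≠ {i, l} := by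
    intro hcon
    rw [Set.pair_eq_pair_iff] at hcon
    rcases hcon with ⟨_, h1⟩ | ⟨h1, _⟩
    · exact hjl h1
    · exact hil h1
  have h23 : ({j, l} : Set ι) ≠ {i, l} := by
    intro hcon
    rw [Set.pair_eq_pair_iff] at hcon
    rcases hcon with ⟨h1, _⟩ | ⟨h1, _⟩
    · exact hij h1.symm
    · exact hjl h1
  have key : ∀ x ∈ ({r, r', r''} : Set F), aeval x (gpolQ v a) = aeval x (gpolQ v b) →
      (({a, b} : Set ι) = {i, j} ∧ x = r) ∨ (({a, b} : Set ι) = {j, l} ∧ x = r') ∨
        (({a, b} : Set ι) = {i, l} ∧ x = r'') := by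
    intro x hx hxa
    simp only [Set.mem_insert_iff, Set.mem_singleton_iff] at hx
    rcases hx with rfl | rfl | rfl
    · refine Or.inl ⟨by_contra fun hcon => ?_, rfl⟩
      exact no_common_root_h30 hG hab hij hcon hxa hr
    · refine Or.inr (Or.inl ⟨by_contra fun hcon => ?_, rfl⟩)
      exact no_common_root_h30 hG hab hjl hcon hxa hr'
    · refine Or.inr (Or.inr ⟨by_contra fun hcon => ?_, rfl⟩)
      exact no_common_root_h30 hG hab hil hcon hxa hr''
  have hcharz : CharZero F := algebraRat.charZero F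
  obtain ⟨p, hp, hI⟩ := hG.typeI a b hab
  have hsep := separable_of_typeI v hp hI
  obtain ⟨R, hR, hfR⟩ := exists_roots (F := F) hsep
  have hinj : Function.Injective (algebraMap ℤ F) := RingHom.injective_int _
  have hf0 : gdif v a b ≠ 0 := by
    intro hcon
    have := hsep.ne_zero
    rw [← gdif_map_rat, hcon, Polynomial.map_zero] at this
    exact this rfl
  have hlc0 : algebraMap ℤ F (gdif v a b).leadingCoeff ≠ 0 := by
    rw [Ne, map_eq_zero_iff _ hinj, leadingCoeff_eq_zero]
    exact hf0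
  have hdeg : (gdif v a b).natDegree = n := by
    have := hG.natDegree hab
    rwa [← gdif_map_rat, natDegree_map_eq_of_injective (RingHom.injective_int (Int.castRingHom ℚ))] at this
  have hcard : R.card = n := by
    have h1 := congrArg natDegree hfR
    rw [natDegree_map_eq_of_injective hinj, hdeg, natDegree_C_mul hlc0,
      natDegree_prod_of_monic _ _ fun s _ => monic_X_sub_C s] at h1
    simp only [natDegree_X_sub_C, Finset.sum_const, smul_eq_mul, mul_one] at h1
    exact h1.symm
  obtain ⟨s, hs⟩ : R.Nonempty := by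
    rw [← Finset.card_pos, hcard]
    omega
  have hsr := (hR s).1 hs
  have hder : aeval s (derivative (gpolQ v a - gpolQ v b)) =
      algebraMap ℤ F (gdif v a b).leadingCoeff * ∏ t ∈ R.erase s, (s - t) := by
    rw [← aeval_derivative_gdif, aeval_def, ← eval_map, ← derivative_map, hfR,
      ← Finset.mul_prod_erase R _ hs, derivative_mul, derivative_mul, derivative_C, derivative_sub,
      derivative_X, derivative_C]
    simp only [eval_add, eval_mul, eval_sub, eval_zero, eval_C, eval_X, eval_one, eval_prod]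
    simp
  have hmem : ∀ t ∈ R, t ∈ (IntermediateField.adjoin ℚ (nodes ℚ F (gpolQ v))).toSubfield := by
    intro t ht
    exact IntermediateField.subset_adjoin ℚ _ ⟨a, b, hab, (hR t).1 ht⟩
  have h1 := T.der a b s hab hsr
  rw [hder, hν.mul, isVal_prod_h66 hν] at h1
  · rw [Finset.sum_eq_zero, add_zero] at h1
    · rw [leadingCoeff_h66]
      exact h1
    · intro t ht
      rw [Finset.mem_erase] at ht
      have htr := (hR t).1 ht.2
      rw [T.dif s ⟨a, b, hab, hsr⟩ t ⟨a, b, hab, htr⟩ (Ne.symm ht.1), if_neg]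
      rintro ⟨c1, c2⟩
      rcases key s c1 hsr with ⟨e1, e2⟩ | ⟨e1, e2⟩ | ⟨e1, e2⟩ <;>
        rcases key t c2 htr with ⟨g1, g2⟩ | ⟨g1, g2⟩ | ⟨g1, g2⟩
      · exact ht.1 (g2.trans e2.symm)
      · exact h12 (e1.symm.trans g1)
      · exact h13 (e1.symm.trans g1)
      · exact h12 (g1.symm.trans e1)
      · exact ht.1 (g2.trans e2.symm)
      · exact h23 (e1.symm.trans g1)
      · exact h13 (g1.symm.trans e1)
      · exact h23 (g1.symm.trans e1)
      · exact ht.1 (g2.trans e2.symm)
  · exact fun t ht => sub_mem (hmem s hs) (hmem t (Finset.mem_of_mem_erase ht))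
  · intro t ht hcon
    exact (Finset.ne_of_mem_erase ht) (sub_eq_zero.1 hcon).symm
  · rw [← leadingCoeff_h66]
    exact (IntermediateField.adjoin ℚ (nodes ℚ F (gpolQ v))).algebraMap_mem _
  · exact prod_mem fun t ht => sub_mem (hmem s hs) (hmem t (Finset.mem_of_mem_erase ht))
  · exact hlc0
  · refine Finset.prod_ne_zero_iff.2 fun t ht hcon => ?_
    exact (Finset.ne_of_mem_erase ht) (sub_eq_zero.1 hcon).symm

/-- conjugation and reduction modulo `ℓ` -/
theorem valmod_h59 {ℓ : ℕ} {α : ι → ℚ[X]} (σ : F ≃ₐ[ℚ] F) {ν : F → ℤ}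
    {h : F → F → ℤ} {b : ι → ι → ℤ}
    (hν : IsVal (IntermediateField.adjoin ℚ (nodes ℚ F α)).toSubfield ν) (H : DifV ν α h b) :
    ∃ ν' : F → ZMod ℓ, IsVal (IntermediateField.adjoin ℚ (nodes ℚ F α)).toSubfield ν' ∧
      DifV ν' α (fun s s' => ((h (σ.symm s) (σ.symm s') : ℤ) : ZMod ℓ))
        (fun c d => ((b c d : ℤ) : ZMod ℓ)) := by
  have hS : σ.symm '' nodes ℚ F α = nodes ℚ F α := by
    apply Set.Subset.antisymm
    · rintro _ ⟨x, hx, rfl⟩
      exact nodes_stable _ σ.symm x hx
    · intro x hx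
      exact ⟨σ x, nodes_stable _ σ x hx, by simp⟩
  have hν' := hν.conj σ hS
  have hT' := H.conj σ
  refine ⟨fun x => ((ν (σ.symm x) : ℤ) : ZMod ℓ), ⟨fun x hx y hy hx0 hy0 => ?_, ?_⟩,
    ⟨fun s hs s' hs' hne => ?_, fun c d hcd => ?_⟩⟩
  · have := hν'.mul x hx y hy hx0 hy0
    simp only [this, Int.cast_add]
  · have := hν'.neg_one
    simp only [this, Int.cast_zero]
  · have := hT'.dif s hs s' hs' hne
    simp only [this]
  · have := hT'.lead c d hcd
    simp only [this]

/-- Type D. Proof: `exists_val_typeD` (`h.typeD`, `separable_of_typeI`) and `pairTransitive_gpol` give a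
conjugate (`DifV.conj`, `IsVal.conj`) with the roots `u, w`; reduce modulo `ℓ` (as in
`exists_val_good`). -/
theorem exists_val_D {ℓ : ℕ} (hℓ : ℓ.Prime) {v : ι × Fin (n + 1) → ℤ} (h : GoodH v)
    {a b : ι} (hab : a ≠ b) (u w : F) (huw : u ≠ w)
    (hu : aeval u (gpolQ v a) = aeval u (gpolQ v b))
    (hw : aeval w (gpolQ v a) = aeval w (gpolQ v b)) :
    ∃ ν : F → ZMod ℓ, IsVal (IntermediateField.adjoin ℚ (nodes ℚ F (gpolQ v))).toSubfield ν ∧
      DifV ν (gpolQ v) (fun s s' => if s ∈ ({u, w} : Set F) ∧ s' ∈ ({u, w} : Set F)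
        then 1 else 0) (fun _ _ => 0) := by
  obtain ⟨p, hp, hp2, hD⟩ := h.typeD a b hab
  obtain ⟨q, hq, hI⟩ := h.good.typeI a b hab
  have hsep := separable_of_typeI v hq hI
  obtain ⟨ν, u', w', huw', hu', hw', hν, hT⟩ := exists_val_typeD (F := F) v hp hp2 hab hD hsep
  obtain ⟨σ, hσu, hσw⟩ := pairTransitive_gpol v (h.good.typeI a b hab) (h.good.typeL a b hab)
    u' w' u w hu' hw' hu hw huw' huw
  obtain ⟨ν', hν', hT'⟩ := valmod_h59 (ℓ := ℓ) σ hν hT
  refine ⟨ν', hν', ?_⟩
  have hmem : ∀ s : F, σ.symm s ∈ ({u', w'} : Set F) ↔ s ∈ ({u, w} : Set F) := by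
    intro s
    simp only [Set.mem_insert_iff, Set.mem_singleton_iff, AlgEquiv.symm_apply_eq, hσu, hσw]
  refine ⟨fun s hs s' hs' hne => ?_, fun c d hcd => ?_⟩
  · rw [hT'.dif s hs s' hs' hne]
    simp only [hmem]
    split_ifs <;> simp
  · rw [hT'.lead c d hcd]
    simp

/-- Type K. Proof: `exists_val_typeK` and a conjugate by `exists_move`. -/
theorem exists_val_K {ℓ : ℕ} (hℓ : ℓ.Prime) {v : ι × Fin (n + 1) → ℤ} (h : GoodH v) (hn : 2 ≤ n)
    {a b : ι} (hab : a ≠ b) (u : F) (hu : aeval u (gpolQ v a) = aeval u (gpolQ v b)) :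
    ∃ ν : F → ZMod ℓ, IsVal (IntermediateField.adjoin ℚ (nodes ℚ F (gpolQ v))).toSubfield ν ∧
      DifV ν (gpolQ v) (fun s s' => if s = u ∨ s' = u then -1 else 0)
        (fun c d => if ({c, d} : Set ι) = {a, b} then 1 else 0) := by
  obtain ⟨p, hp, hK⟩ := h.typeK a b hab
  obtain ⟨q, hq, hI⟩ := h.good.typeI a b hab
  have hsep := separable_of_typeI v hq hI
  obtain ⟨ν, u', hu', hν, hT⟩ := exists_val_typeK (F := F) v hp hab hK hn hsep
  obtain ⟨σ, hσu, -⟩ := exists_move h.good hab u' u hu' hu
  obtain ⟨ν', hν', hT'⟩ := valmod_h59 (ℓ := ℓ) σ hν hT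
  refine ⟨ν', hν', ?_⟩
  have hmem : ∀ s : F, σ.symm s = u' ↔ s = u := by
    intro s
    rw [AlgEquiv.symm_apply_eq, hσu]
  refine ⟨fun s hs s' hs' hne => ?_, fun c d hcd => ?_⟩
  · rw [hT'.dif s hs s' hs' hne]
    simp only [hmem]
    split_ifs <;> simp
  · rw [hT'.lead c d hcd]
    split_ifs <;> simp

end Pool.Agent.Lib.MP_89bcae_ag

end

section

/-!
# The sums of the homomorphisms: one triple, one pair
-/

open Polynomial

open scoped Classical

namespace Pool.Agent.Lib.MP_89bcae_ag

open Superelliptic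

variable {ι : Type} [Fintype ι] [LinearOrder ι] {n : ℕ} {F : Type} [Field F] [Algebra ℚ F]

/-- The nodes of different pairs are different. -/
theorem Nodes.ne [IsAlgClosure ℚ F] {v : ι × Fin (n + 1) → ℤ} (h : GoodH v)
    {nd : ι → ι → Fin n → F} (hN : Nodes (gpolQ v) nd) {i j i' j' : ι} (hij : i ≠ j)
    (hij' : i' ≠ j') {a a' : Fin n} (he : nd i j a = nd i' j' a') :
    ({i, j} : Set ι) = {i', j'} ∧ a = a' := by
  have h1 : aeval (nd i j a) (gpolQ v i) = aeval (nd i j a) (gpolQ v j) := (hN.mem i j hij _).2 ⟨a, rfl⟩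
  have h2 : aeval (nd i j a) (gpolQ v i') = aeval (nd i j a) (gpolQ v j') :=
    (hN.mem i' j' hij' _).2 ⟨a', he.symm⟩
  have h3 : ({i, j} : Set ι) = {i', j'} := by
    by_contra hne
    exact no_common_root_h30 h.good hij hij' hne h1 h2
  refine ⟨h3, ?_⟩
  rcases Set.pair_eq_pair_iff.mp h3 with ⟨rfl, rfl⟩ | ⟨rfl, rfl⟩
  · exact hN.inj _ _ hij he
  · rw [hN.symm j i a'] at he
    exact hN.inj _ _ hij he

lemma isVal_sum_h30 {F' : Type*} [Field F'] {A κ : Type*} [AddCommGroup A] {K : Subfield F'} (s : Finset κ)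
    {ν : κ → F' → A} (h : ∀ a ∈ s, IsVal K (ν a)) : IsVal K (fun x => ∑ a ∈ s, ν a x) where
  mul x hx y hy hx0 hy0 := by
    rw [← Finset.sum_add_distrib]
    exact Finset.sum_congr rfl fun a ha => (h a ha).mul x hx y hy hx0 hy0
  neg_one := Finset.sum_eq_zero fun a ha => (h a ha).neg_one

lemma Nodes.mem_nodes_h30 {F' : Type} [Field F'] [Algebra ℚ F'] {κ : Type} {m : ℕ} {α : κ → ℚ[X]}
    {nd : κ → κ → Fin m → F'} (hN : Nodes α nd) {x y : κ} (hxy : x ≠ y) (a : Fin m) :
    nd x y a ∈ nodes ℚ F' α := ⟨x, y, hxy, (hN.mem x y hxy _).2 ⟨a, rfl⟩⟩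

lemma triple_mem_iff_h30 [IsAlgClosure ℚ F] {v : ι × Fin (n + 1) → ℤ} (h : GoodH v)
    {nd : ι → ι → Fin n → F} (hN : Nodes (gpolQ v) nd) {i j l : ι} (hij : i ≠ j) (hil : i ≠ l) (hjl : j ≠ l)
    {x y : ι} (hxy : x ≠ y) (a c : Fin n) :
    nd x y a ∈ ({nd i j c, nd j l c, nd i l c} : Set F) ↔
      a = c ∧ x ∈ ({i, j, l} : Finset ι) ∧ y ∈ ({i, j, l} : Finset ι) := by
  constructor
  · intro hm
    have key : ∀ i' j' : ι, i' ≠ j' → i' ∈ ({i, j, l} : Finset ι) → j' ∈ ({i, j, l} : Finset ι) →
        nd x y a = nd i' j' c → a = c ∧ x ∈ ({i, j, l} : Finset ι) ∧ y ∈ ({i, j, l} : Finset ι) := by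
      intro i' j' hij' hi' hj' he
      obtain ⟨h1, h2⟩ := Nodes.ne h hN hxy hij' he
      refine ⟨h2, ?_⟩
      rcases Set.pair_eq_pair_iff.mp h1 with ⟨rfl, rfl⟩ | ⟨rfl, rfl⟩
      · exact ⟨hi', hj'⟩
      · exact ⟨hj', hi'⟩
    rcases hm with he | he | he
    · exact key i j hij (by simp) (by simp) he
    · exact key j l hjl (by simp) (by simp) he
    · exact key i l hil (by simp) (by simp) he
  · rintro ⟨rfl, hx, hy⟩
    simp only [Finset.mem_insert, Finset.mem_singleton] at hx hy
    simp only [Set.mem_insert_iff, Set.mem_singleton_iff]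
    rcases hx with rfl | rfl | rfl <;> rcases hy with rfl | rfl | rfl
    · exact absurd rfl hxy
    · exact Or.inl rfl
    · exact Or.inr (Or.inr rfl)
    · exact Or.inl (hN.symm _ _ _)
    · exact absurd rfl hxy
    · exact Or.inr (Or.inl rfl)
    · exact Or.inr (Or.inr (hN.symm _ _ _))
    · exact Or.inr (Or.inl (hN.symm _ _ _))
    · exact absurd rfl hxy

/-- One triple. Proof: `ν = ∑ a : Fin n, ν_a` where `ν_a` is that of `exists_val_B` for
`r = nd i j a`, `r' = nd j l a`, `r'' = nd i l a`. A node `nd x y a'` is in `{r, r', r''}` if and only if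
`a' = a` and `x, y ∈ {i, j, l}` (`Nodes.ne`). So for `x ≠ y`, `a' ≠ b'`, `ν(nd x y a' - nd x y b') = 0`, and
for different `x, y, z`: `ν(nd x y a' - nd x z b')` is `1` if `a' = b'` and `{x, y, z} = {i, j, l}`, and `0`
otherwise. The values of `B` at pairs are `0`. -/
theorem copyV_triple [IsAlgClosure ℚ F] {ℓ : ℕ} (hℓ : ℓ.Prime) {v : ι × Fin (n + 1) → ℤ}
    (h : GoodH v) (hn : 1 ≤ n) {nd : ι → ι → Fin n → F} (hN : Nodes (gpolQ v) nd)
    {T : Finset ι} (hT : T.card = 3) :
    ∃ ν : F → ZMod ℓ, IsVal (IntermediateField.adjoin ℚ (nodes ℚ F (gpolQ v))).toSubfield ν ∧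
      CopyV ν (gpolQ v) nd (fun T' => if T' = T then 1 else 0) := by
  obtain ⟨i, j, l, hij, hil, hjl, hTe⟩ := Finset.card_eq_three.mp hT
  have hm : ∀ {x y : ι} (_ : x ≠ y) (a : Fin n), aeval (nd x y a) (gpolQ v x) = aeval (nd x y a) (gpolQ v y) :=
    fun {x y} hxy a => (hN.mem x y hxy _).2 ⟨a, rfl⟩
  choose ν hν hD using fun a : Fin n => exists_val_B hℓ h hn hij hjl hil (nd i j a) (nd j l a) (nd i l a)
    (hm hij a) (hm hjl a) (hm hil a)
  have hpair : ∀ {x y : ι} (_ : x ≠ y), (if ({x, y} : Finset ι) = T then (1 : ZMod ℓ) else 0) = 0 := by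
    intro x y hxy
    refine if_neg fun he => ?_
    rw [← he, Finset.card_pair hxy] at hT
    omega
  refine ⟨fun x => ∑ a : Fin n, ν a x, isVal_sum_h30 _ fun a _ => hν a, ?_, ?_, ?_⟩
  · intro x y hxy
    have e := (Finset.sum_eq_zero fun a (_ : a ∈ Finset.univ) => (hD a).lead x y hxy).trans (hpair hxy).symm
    refine e.trans ?_
    congr <;> exact Subsingleton.elim _ _
  · intro x y hxy a b hab
    refine Finset.sum_eq_zero fun c _ => ?_
    rw [(hD c).dif _ (hN.mem_nodes_h30 hxy a) _ (hN.mem_nodes_h30 hxy b) fun he => hab (hN.inj x y hxy he),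
      if_neg]
    rintro ⟨h1, h2⟩
    rw [triple_mem_iff_h30 h hN hij hil hjl hxy] at h1 h2
    exact hab (h1.1.trans h2.1.symm)
  · intro x y z hxy hyz hxz a b
    have hne : nd x y a ≠ nd x z b := by
      intro he
      rcases Set.pair_eq_pair_iff.mp (Nodes.ne h hN hxy hxz he).1 with ⟨-, h2⟩ | ⟨h1, -⟩
      · exact hyz h2
      · exact hxz h1
    have h1 : ∀ c : Fin n, ν c (nd x y a - nd x z b) =
        if c = a ∧ a = b ∧ ({x, y, z} : Finset ι) = T then 1 else 0 := by
      intro c
      rw [(hD c).dif _ (hN.mem_nodes_h30 hxy a) _ (hN.mem_nodes_h30 hxz b) hne]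
      refine if_congr ?_ rfl rfl
      rw [triple_mem_iff_h30 h hN hij hil hjl hxy, triple_mem_iff_h30 h hN hij hil hjl hxz, ← hTe]
      constructor
      · rintro ⟨⟨rfl, hx, hy⟩, rfl, -, hz⟩
        refine ⟨rfl, rfl, ?_⟩
        apply Finset.eq_of_subset_of_card_le
        · intro t ht
          simp only [Finset.mem_insert, Finset.mem_singleton] at ht
          rcases ht with rfl | rfl | rfl
          · exact hx
          · exact hy
          · exact hz
        · rw [hT, Finset.card_eq_three.mpr ⟨x, y, z, hxy, hxz, hyz, rfl⟩]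
      · rintro ⟨rfl, rfl, he⟩
        rw [← he]
        simp
    have e : ∑ c : Fin n, ν c (nd x y a - nd x z b) = if a = b then
        (if ({x, y, z} : Finset ι) = T then (1 : ZMod ℓ) else 0) - (if ({x, y} : Finset ι) = T then 1 else 0)
          - (if ({x, z} : Finset ι) = T then 1 else 0) else 0 := by
      simp only [h1, hpair hxy, hpair hxz, sub_zero]
      by_cases hab : a = b
      · by_cases hxT : ({x, y, z} : Finset ι) = T
        · simp [hab, hxT]
        · simp [hxT]
      · simp [hab]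
    refine e.trans ?_
    congr <;> exact Subsingleton.elim _ _

lemma IsVal.add_h64 {A : Type*} [AddCommGroup A] {K : Subfield F} {ν ν' : F → A} (H : IsVal K ν)
    (H' : IsVal K ν') : IsVal K (fun x => ν x + ν' x) := by
  refine ⟨fun x hx y hy hx0 hy0 => ?_, ?_⟩
  · show ν (x * y) + ν' (x * y) = (ν x + ν' x) + (ν y + ν' y)
    rw [H.mul x hx y hy hx0 hy0, H'.mul x hx y hy hx0 hy0]
    abel
  · show ν (-1) + ν' (-1) = 0
    rw [H.neg_one, H'.neg_one, add_zero]

lemma IsVal.sub_h64 {A : Type*} [AddCommGroup A] {K : Subfield F} {ν ν' : F → A} (H : IsVal K ν)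
    (H' : IsVal K ν') : IsVal K (fun x => ν x - ν' x) := by
  refine ⟨fun x hx y hy hx0 hy0 => ?_, ?_⟩
  · show ν (x * y) - ν' (x * y) = (ν x - ν' x) + (ν y - ν' y)
    rw [H.mul x hx y hy hx0 hy0, H'.mul x hx y hy hx0 hy0]
    abel
  · show ν (-1) - ν' (-1) = 0
    rw [H.neg_one, H'.neg_one, sub_zero]

lemma IsVal.sum_h64 {A J : Type*} [AddCommGroup A] {K : Subfield F} {ν : J → F → A} (S : Finset J)
    (H : ∀ c ∈ S, IsVal K (ν c)) : IsVal K (fun x => ∑ c ∈ S, ν c x) := by
  refine ⟨fun x hx y hy hx0 hy0 => ?_, ?_⟩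
  · show ∑ c ∈ S, ν c (x * y) = ∑ c ∈ S, ν c x + ∑ c ∈ S, ν c y
    rw [← Finset.sum_add_distrib]
    exact Finset.sum_congr rfl fun c hc => (H c hc).mul x hx y hy hx0 hy0
  · exact Finset.sum_eq_zero fun c hc => (H c hc).neg_one

lemma DifV.add_h64 {A : Type*} [AddCommGroup A] {α : ι → ℚ[X]} {ν ν' : F → A}
    {h h' : F → F → A} {b b' : ι → ι → A} (H : DifV ν α h b) (H' : DifV ν' α h' b') :
    DifV (fun x => ν x + ν' x) α (fun s s' => h s s' + h' s s') (fun i j => b i j + b' i j) := by
  refine ⟨fun s hs s' hs' hss => ?_, fun i j hij => ?_⟩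
  · show ν (s - s') + ν' (s - s') = _
    rw [H.dif s hs s' hs' hss, H'.dif s hs s' hs' hss]
  · show ν _ + ν' _ = _
    rw [H.lead i j hij, H'.lead i j hij]

lemma DifV.sub_h64 {A : Type*} [AddCommGroup A] {α : ι → ℚ[X]} {ν ν' : F → A}
    {h h' : F → F → A} {b b' : ι → ι → A} (H : DifV ν α h b) (H' : DifV ν' α h' b') :
    DifV (fun x => ν x - ν' x) α (fun s s' => h s s' - h' s s') (fun i j => b i j - b' i j) := by
  refine ⟨fun s hs s' hs' hss => ?_, fun i j hij => ?_⟩
  · show ν (s - s') - ν' (s - s') = _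
    rw [H.dif s hs s' hs' hss, H'.dif s hs s' hs' hss]
  · show ν _ - ν' _ = _
    rw [H.lead i j hij, H'.lead i j hij]

lemma DifV.sum_h64 {A J : Type*} [AddCommGroup A] {α : ι → ℚ[X]} {ν : J → F → A}
    {h : J → F → F → A} {b : J → ι → ι → A} (S : Finset J) (H : ∀ c ∈ S, DifV (ν c) α (h c) (b c)) :
    DifV (fun x => ∑ c ∈ S, ν c x) α (fun s s' => ∑ c ∈ S, h c s s')
      (fun i j => ∑ c ∈ S, b c i j) := by
  refine ⟨fun s hs s' hs' hss => ?_, fun i j hij => ?_⟩
  · exact Finset.sum_congr rfl fun c hc => (H c hc).dif s hs s' hs' hss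
  · exact Finset.sum_congr rfl fun c hc => (H c hc).lead i j hij

omit [Field F] [Algebra ℚ F] in
lemma ite_cg_h64 {A : Type*} {p q : Prop} {ip : Decidable p} {iq : Decidable q} (h : p ↔ q)
    {x y x' y' : A} (hx : x = x') (hy : y = y') : @ite A p ip x y = @ite A q iq x' y' := by
  subst hx hy
  by_cases hp : p
  · rw [if_pos hp, if_pos (h.1 hp)]
  · rw [if_neg hp, if_neg (fun hq => hp (h.2 hq))]

/-- The sum of the values of `B - B'`. -/
lemma sumB_h64 {A : Type*} [Ring A] (z a b : Fin n) {t1 t2 t1' t2' : Prop} (ht : ¬ (t1 ∧ t2))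
    (ht' : ¬ (t1' ∧ t2')) (hab : t1 → t1' → a ≠ b) :
    ∑ c : Fin n, (((if ((t1 ∧ a = z) ∨ (t2 ∧ a = c)) ∧ ((t1' ∧ b = z) ∨ (t2' ∧ b = c)) then
        (1 : A) else 0)) - (if ((t1 ∨ t2) ∧ a = c) ∧ ((t1' ∨ t2') ∧ b = c) then 1 else 0)) =
      if t1 ∧ t2' then (if a = z then 1 else 0) - (if a = b then 1 else 0) else
        if t2 ∧ t1' then (if b = z then 1 else 0) - (if a = b then 1 else 0) else 0 := by
  rw [Finset.sum_sub_distrib]
  by_cases h1 : t1
  · have h2 : ¬ t2 := fun h => ht ⟨h1, h⟩
    by_cases h1' : t1'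
    · have h2' : ¬ t2' := fun h => ht' ⟨h1', h⟩
      have hne := hab h1 h1'
      have e1 : ∀ c : Fin n, ¬ (a = c ∧ b = c) := fun c h => hne (h.1.trans h.2.symm)
      simp [h1, h2, h1', h2', e1]
    · by_cases h2' : t2'
      · simp only [h1, h2, h1', h2', true_and, false_and, or_false, false_or, true_or, and_true,
          if_true]
        congr 1
        · rw [Finset.sum_eq_single b]
          · simp
          · intro c _ hc
            rw [if_neg]
            exact fun h => hc h.2.symm
          · exact fun h => absurd (Finset.mem_univ b) h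
        · rw [Finset.sum_eq_single b]
          · simp
          · intro c _ hc
            rw [if_neg]
            exact fun h => hc h.2.symm
          · exact fun h => absurd (Finset.mem_univ b) h
      · simp [h1, h2, h1', h2']
  · by_cases h2 : t2
    · by_cases h1' : t1'
      · have h2' : ¬ t2' := fun h => ht' ⟨h1', h⟩
        simp only [h1, h2, h1', h2', true_and, false_and, or_false, false_or, and_true,
          if_true, if_false, and_false]
        congr 1
        · rw [Finset.sum_eq_single a]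
          · simp
          · intro c _ hc
            rw [if_neg]
            exact fun h => hc h.1.symm
          · exact fun h => absurd (Finset.mem_univ a) h
        · rw [Finset.sum_eq_single a]
          · simp only [true_and]
            simp only [eq_comm]
          · intro c _ hc
            rw [if_neg]
            exact fun h => hc h.1.symm
          · exact fun h => absurd (Finset.mem_univ a) h
      · by_cases h2' : t2'
        · simp [h1, h2, h1', h2']
        · simp [h1, h2, h1', h2']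
    · simp [h1, h2]

/-- The sum of the values of `D`. -/
lemma sumD_h64 {A : Type*} [Ring A] (z a b : Fin n) {t t' : Prop} (hab : t → t' → a ≠ b) :
    ∑ c ∈ Finset.univ.erase z, (if (t ∧ (a = z ∨ a = c)) ∧ (t' ∧ (b = z ∨ b = c)) then
        (1 : A) else 0) = if t ∧ t' ∧ (a = z ∨ b = z) then 1 else 0 := by
  by_cases h1 : t
  · by_cases h2 : t'
    · have hne := hab h1 h2
      by_cases ha : a = z
      · have hb : b ≠ z := fun h => hne (ha.trans h.symm)
        simp only [h1, h2, ha, hb, true_and, true_or, false_or, if_true]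
        rw [Finset.sum_eq_single b]
        · simp
        · intro c _ hc
          rw [if_neg]
          exact fun h => hc h.symm
        · intro h
          exact absurd (Finset.mem_erase.2 ⟨hb, Finset.mem_univ b⟩) h
      · by_cases hb : b = z
        · simp only [h1, h2, ha, hb, true_and, true_or, false_or, and_true, if_true, or_true]
          rw [Finset.sum_eq_single a]
          · simp
          · intro c _ hc
            rw [if_neg]
            exact fun h => hc h.symm
          · intro h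
            exact absurd (Finset.mem_erase.2 ⟨ha, Finset.mem_univ a⟩) h
        · have e1 : ∀ c : Fin n, ¬ (a = c ∧ b = c) := fun c h => hne (h.1.trans h.2.symm)
          simp [h1, h2, ha, hb, e1]
    · simp [h2]
  · simp [h1]

/-- One pair. Proof: `T = {i, j}`, `0 : Fin n` (`n ≥ 1`). Let `K` be the homomorphism of `exists_val_K` for
`nd i j 0`, `D_a` (`a ≠ 0`) that of `exists_val_D` for `nd i j 0`, `nd i j a`, and for `l ≠ i, j` and
`a : Fin n` let `B_la`, `B'_la` be those of `exists_val_B` for `nd i j 0`, `nd j l a`, `nd i l a`, resp.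
`nd i j a`, `nd j l a`, `nd i l a`. Take `ν = K + ∑_{a ≠ 0} D_a + ∑_l ∑_a (B_la - B'_la)`. The values:
leading coefficient of `α_x - α_y`: `1` if `{x, y} = {i, j}`, otherwise `0`. Parallel pairs
`nd x y a - nd x y b`, `a ≠ b`: if `{x, y} = {i, j}`, `K` gives `-1` if `a = 0` or `b = 0`, the `D` give `1`
in the same cases; the others give `0`; otherwise all give `0`. `nd i j a - nd i l b` (`l ≠ i, j`, also with
`i`, `j` exchanged): `K` gives `-1` if `a = 0`, `D` gives `0`, `∑_a' (B_la' - B'_la')` gives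
`[a = 0] - [a = b]`; the sum is `- [a = b]` as required (`B {i, j, l} - B {i, j} - B {i, l} = 0 - 1 - 0`).
`nd l i a - nd l j b`: `[a = b] - [a = b] = 0` as required. The other adjacent pairs: `0`, as required. -/
theorem copyV_pair [IsAlgClosure ℚ F] {ℓ : ℕ} (hℓ : ℓ.Prime) {v : ι × Fin (n + 1) → ℤ}
    (h : GoodH v) (hn : 2 ≤ n) {nd : ι → ι → Fin n → F} (hN : Nodes (gpolQ v) nd)
    {T : Finset ι} (hT : T.card = 2) :
    ∃ ν : F → ZMod ℓ, IsVal (IntermediateField.adjoin ℚ (nodes ℚ F (gpolQ v))).toSubfield ν ∧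
      CopyV ν (gpolQ v) nd (fun T' => if T' = T then 1 else 0) := by
  obtain ⟨i, j, hij, hTij⟩ := Finset.card_eq_two.1 hT
  have hTm : ∀ t, t ∈ T ↔ t = i ∨ t = j := by
    intro t
    rw [hTij, Finset.mem_insert, Finset.mem_singleton]
  have z : Fin n := ⟨0, by omega⟩
  set K₀ := (IntermediateField.adjoin ℚ (nodes ℚ F (gpolQ v))).toSubfield with hK₀
  have hmem : ∀ x y, x ≠ y → ∀ a, aeval (nd x y a) (gpolQ v x) = aeval (nd x y a) (gpolQ v y) :=
    fun x y hxy a => (hN.mem x y hxy _).2 ⟨a, rfl⟩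
  have hnode : ∀ x y, x ≠ y → ∀ a, nd x y a ∈ nodes ℚ F (gpolQ v) :=
    fun x y hxy a => ⟨x, y, hxy, hmem x y hxy a⟩
  have hkey : ∀ {x y x' y' : ι} {a a' : Fin n}, x ≠ y → x' ≠ y' →
      (nd x y a = nd x' y' a' ↔ ({x, y} : Set ι) = {x', y'} ∧ a = a') := by
    intro x y x' y' a a' hxy hxy'
    constructor
    · exact fun he => Nodes.ne h hN hxy hxy' he
    · rintro ⟨h1, rfl⟩
      rcases Set.pair_eq_pair_iff.1 h1 with ⟨h2, h3⟩ | ⟨h2, h3⟩
      · rw [h2, h3]
      · rw [h2, h3, hN.symm]
  -- the homomorphisms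
  obtain ⟨νK, hK1, hK2⟩ := exists_val_K hℓ h hn hij (nd i j z) (hmem i j hij z)
  have hD := fun (a : Fin n) (ha : a ∈ Finset.univ.erase z) =>
    exists_val_D hℓ h hij (nd i j z) (nd i j a)
      (fun he => (Finset.mem_erase.1 ha).1 (hN.inj i j hij he).symm) (hmem i j hij z) (hmem i j hij a)
  choose! νD hD1 hD2 using hD
  set L : Finset ι := Finset.univ.filter (fun l => l ≠ i ∧ l ≠ j) with hL
  have hLm : ∀ l, l ∈ L ↔ l ≠ i ∧ l ≠ j := fun l => by simp [hL]
  have hB := fun (l : ι) (hl : l ∈ L) (a : Fin n) =>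
    exists_val_B hℓ h (by omega : 1 ≤ n) hij ((hLm l).1 hl).2.symm ((hLm l).1 hl).1.symm
      (nd i j z) (nd j l a) (nd i l a) (hmem i j hij z) (hmem j l ((hLm l).1 hl).2.symm a)
      (hmem i l ((hLm l).1 hl).1.symm a)
  choose! νB hB1 hB2 using hB
  have hB' := fun (l : ι) (hl : l ∈ L) (a : Fin n) =>
    exists_val_B hℓ h (by omega : 1 ≤ n) hij ((hLm l).1 hl).2.symm ((hLm l).1 hl).1.symm
      (nd i j a) (nd j l a) (nd i l a) (hmem i j hij a) (hmem j l ((hLm l).1 hl).2.symm a)
      (hmem i l ((hLm l).1 hl).1.symm a)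
  choose! νB' hB1' hB2' using hB'
  have hV := (hK1.add_h64 (IsVal.sum_h64 _ hD1)).add_h64
    (IsVal.sum_h64 L fun l hl => IsVal.sum_h64 (Finset.univ : Finset (Fin n))
      fun a _ => (hB1 l hl a).sub_h64 (hB1' l hl a))
  have hDV := (hK2.add_h64 (DifV.sum_h64 _ hD2)).add_h64
    (DifV.sum_h64 L fun l hl => DifV.sum_h64 (Finset.univ : Finset (Fin n))
      fun a _ => (hB2 l hl a).sub_h64 (hB2' l hl a))
  refine ⟨_, hV, ?_⟩
  -- the values at the nodes
  have hval : ∀ x y x' y' a b, x ≠ y → x' ≠ y' → nd x y a ≠ nd x' y' b →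
      ((if nd x y a = nd i j z ∨ nd x' y' b = nd i j z then (-1 : ZMod ℓ) else 0) +
        ∑ c ∈ Finset.univ.erase z, (if nd x y a ∈ ({nd i j z, nd i j c} : Set F) ∧
          nd x' y' b ∈ ({nd i j z, nd i j c} : Set F) then 1 else 0)) +
        ∑ l ∈ L, ∑ c : Fin n, ((if nd x y a ∈ ({nd i j z, nd j l c, nd i l c} : Set F) ∧
          nd x' y' b ∈ ({nd i j z, nd j l c, nd i l c} : Set F) then 1 else 0) -
          (if nd x y a ∈ ({nd i j c, nd j l c, nd i l c} : Set F) ∧
          nd x' y' b ∈ ({nd i j c, nd j l c, nd i l c} : Set F) then 1 else 0)) =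
      ((if ({x, y} : Set ι) = {i, j} ∧ a = z ∨ ({x', y'} : Set ι) = {i, j} ∧ b = z
          then (-1 : ZMod ℓ) else 0) +
        (if ({x, y} : Set ι) = {i, j} ∧ ({x', y'} : Set ι) = {i, j} ∧ (a = z ∨ b = z)
          then 1 else 0)) +
        ∑ l ∈ L, (if ({x, y} : Set ι) = {i, j} ∧
            (({x', y'} : Set ι) = {j, l} ∨ ({x', y'} : Set ι) = {i, l})
          then (if a = z then 1 else 0) - (if a = b then 1 else 0)
          else if (({x, y} : Set ι) = {j, l} ∨ ({x, y} : Set ι) = {i, l}) ∧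
              ({x', y'} : Set ι) = {i, j}
            then (if b = z then 1 else 0) - (if a = b then 1 else 0) else 0) := by
    intro x y x' y' a b hxy hxy' hne
    have hab : ({x, y} : Set ι) = {i, j} → ({x', y'} : Set ι) = {i, j} → a ≠ b := by
      intro h1 h2 h3
      exact hne ((hkey hxy hxy').2 ⟨h1.trans h2.symm, h3⟩)
    congr 1
    · congr 1
      · exact ite_cg_h64 (by rw [hkey hxy hij, hkey hxy' hij]) rfl rfl
      · refine Eq.trans (Finset.sum_congr rfl fun c _ => ?_) ((sumD_h64 z a b hab).trans ?_)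
        · refine ite_cg_h64 ?_ rfl rfl
          simp only [Set.mem_insert_iff, Set.mem_singleton_iff, hkey hxy hij, hkey hxy' hij,
            ← and_or_left]
        · exact ite_cg_h64 Iff.rfl rfl rfl
    · refine Finset.sum_congr rfl fun l hl => ?_
      obtain ⟨hli, hlj⟩ := (hLm l).1 hl
      have hex : ∀ x y : ι, ¬ (({x, y} : Set ι) = {i, j} ∧
          (({x, y} : Set ι) = {j, l} ∨ ({x, y} : Set ι) = {i, l})) := by
        rintro x y ⟨h1, h2 | h2⟩
        · rw [h1] at h2
          have h3 : l ∈ ({i, j} : Set ι) := by rw [h2]; simp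
          rcases h3 with h3 | h3
          · exact hli h3
          · exact hlj h3
        · rw [h1] at h2
          have h3 : l ∈ ({i, j} : Set ι) := by rw [h2]; simp
          rcases h3 with h3 | h3
          · exact hli h3
          · exact hlj h3
      refine Eq.trans (Finset.sum_congr rfl fun c _ => ?_)
        ((sumB_h64 (A := ZMod ℓ) z a b (hex x y) (hex x' y') hab).trans ?_)
      · refine congrArg₂ (fun x y : ZMod ℓ => x - y) (ite_cg_h64 ?_ rfl rfl) (ite_cg_h64 ?_ rfl rfl)
        · simp only [Set.mem_insert_iff, Set.mem_singleton_iff, hkey hxy hij, hkey hxy' hij,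
            hkey hxy hlj.symm, hkey hxy' hlj.symm, hkey hxy hli.symm, hkey hxy' hli.symm,
            ← or_and_right]
        · simp only [Set.mem_insert_iff, Set.mem_singleton_iff, hkey hxy hij, hkey hxy' hij,
            hkey hxy hlj.symm, hkey hxy' hlj.symm, hkey hxy hli.symm, hkey hxy' hli.symm,
            ← or_and_right]
      · exact ite_cg_h64 Iff.rfl rfl (ite_cg_h64 Iff.rfl rfl rfl)
  have hsetfin : ∀ (inst : DecidableEq ι) (x y : ι),
      (@insert ι (Finset ι) (@Finset.instInsert ι inst) x {y} = T) ↔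
        ({x, y} : Set ι) = {i, j} := by
    intro inst x y
    rw [Finset.ext_iff, Set.ext_iff]
    refine forall_congr' fun t => ?_
    rw [hTm, Finset.mem_insert, Finset.mem_singleton, Set.mem_insert_iff, Set.mem_singleton_iff,
      Set.mem_insert_iff, Set.mem_singleton_iff]
  refine ⟨?_, ?_, ?_⟩
  · intro x y hxy
    rw [hDV.lead x y hxy]
    simp only [Finset.sum_const_zero, sub_self, add_zero]
    exact ite_cg_h64 (hsetfin _ x y).symm rfl rfl
  · intro x y hxy a b hab
    have hne : nd x y a ≠ nd x y b := fun he => hab (hN.inj x y hxy he)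
    rw [hDV.dif _ (hnode x y hxy a) _ (hnode x y hxy b) hne]
    refine (hval x y x y a b hxy hxy hne).trans ?_
    have h0 : ∀ l ∈ L, (if ({x, y} : Set ι) = {i, j} ∧
            (({x, y} : Set ι) = {j, l} ∨ ({x, y} : Set ι) = {i, l})
          then (if a = z then (1 : ZMod ℓ) else 0) - (if a = b then 1 else 0)
          else if (({x, y} : Set ι) = {j, l} ∨ ({x, y} : Set ι) = {i, l}) ∧
              ({x, y} : Set ι) = {i, j}
            then (if b = z then 1 else 0) - (if a = b then 1 else 0) else 0) = 0 := by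
      intro l hl
      obtain ⟨hli, hlj⟩ := (hLm l).1 hl
      have hex : ¬ (({x, y} : Set ι) = {i, j} ∧
          (({x, y} : Set ι) = {j, l} ∨ ({x, y} : Set ι) = {i, l})) := by
        rintro ⟨h1, h2 | h2⟩
        · rw [h1] at h2
          have h3 : l ∈ ({i, j} : Set ι) := by rw [h2]; simp
          rcases h3 with h3 | h3
          · exact hli h3
          · exact hlj h3
        · rw [h1] at h2
          have h3 : l ∈ ({i, j} : Set ι) := by rw [h2]; simp
          rcases h3 with h3 | h3
          · exact hli h3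
          · exact hlj h3
      rw [if_neg hex, if_neg (fun hh => hex hh.symm)]
    rw [Finset.sum_eq_zero h0, add_zero]
    by_cases h1 : ({x, y} : Set ι) = {i, j}
    · by_cases h2 : a = z ∨ b = z
      · rw [if_pos (by tauto), if_pos (by tauto)]
        simp
      · rw [if_neg (by tauto), if_neg (by tauto)]
        simp
    · rw [if_neg (by tauto), if_neg (by tauto)]
      simp
  · intro x y w hxy hyw hxw a b
    have hne1 : ({x, y} : Set ι) ≠ {x, w} := by
      intro he
      have h3 : w ∈ ({x, y} : Set ι) := by rw [he]; simp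
      rcases h3 with h3 | h3
      · exact hxw h3.symm
      · exact hyw h3.symm
    have hne : nd x y a ≠ nd x w b := fun he => hne1 ((hkey hxy hxw).1 he).1
    rw [hDV.dif _ (hnode x y hxy a) _ (hnode x w hxw b) hne]
    refine (hval x y x w a b hxy hxw hne).trans ?_
    have hc3 : ∀ inst : DecidableEq ι, ¬ (@insert ι (Finset ι) (@Finset.instInsert ι inst) x
        (@insert ι (Finset ι) (@Finset.instInsert ι inst) y {w}) = T) := by
      intro inst he
      have h1 := (hTm x).1 (by rw [← he]; simp)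
      have h2 := (hTm y).1 (by rw [← he]; simp)
      have h3 := (hTm w).1 (by rw [← he]; simp)
      rcases h1 with h1 | h1 <;> rcases h2 with h2 | h2
      · exact hxy (h1.trans h2.symm)
      · rcases h3 with h3 | h3
        · exact hxw (h1.trans h3.symm)
        · exact hyw (h2.trans h3.symm)
      · rcases h3 with h3 | h3
        · exact hyw (h2.trans h3.symm)
        · exact hxw (h1.trans h3.symm)
      · exact hxy (h1.trans h2.symm)
    refine Eq.trans (b := if a = b then ((0 : ZMod ℓ) - (if ({x, y} : Set ι) = {i, j} then 1 else 0)) -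
      (if ({x, w} : Set ι) = {i, j} then 1 else 0) else 0) ?_ (ite_cg_h64 (Iff.rfl : a = b ↔ a = b)
      (congrArg₂ (fun x y : ZMod ℓ => x - y) (congrArg₂ (fun x y : ZMod ℓ => x - y)
        (if_neg (hc3 _)).symm (ite_cg_h64 (hsetfin _ x y).symm rfl rfl))
        (ite_cg_h64 (hsetfin _ x w).symm rfl rfl)) rfl)
    have hDz : ¬ (({x, y} : Set ι) = {i, j} ∧ ({x, w} : Set ι) = {i, j} ∧ (a = z ∨ b = z)) :=
      fun hh => hne1 (hh.1.trans hh.2.1.symm)
    rw [if_neg hDz, add_zero]
    by_cases h1 : ({x, y} : Set ι) = {i, j}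
    · have h2 : ({x, w} : Set ι) ≠ {i, j} := fun hh => hne1 (h1.trans hh.symm)
      have hwL : w ∈ L := by
        rw [hLm]
        constructor
        · rintro rfl
          have h3 : w ∈ ({x, y} : Set ι) := by rw [h1]; simp
          rcases h3 with h3 | h3
          · exact hxw h3.symm
          · exact hyw h3.symm
        · rintro rfl
          have h3 : w ∈ ({x, y} : Set ι) := by rw [h1]; simp
          rcases h3 with h3 | h3
          · exact hxw h3.symm
          · exact hyw h3.symm
      have hx : x = i ∨ x = j := by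
        have h3 : x ∈ ({i, j} : Set ι) := by rw [← h1]; simp
        exact h3
      rw [Finset.sum_eq_single w]
      · have h3 : ({x, w} : Set ι) = {j, w} ∨ ({x, w} : Set ι) = {i, w} := by
          rcases hx with rfl | rfl
          · right; rfl
          · left; rfl
        have p1 := eq_true h1
        have p2 := eq_false h2
        have p3 := eq_true h3
        simp only [p1, p2, p3, true_and, false_and, or_false, if_true, if_false]
        by_cases h4 : a = z
        · by_cases h5 : a = b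
          · simp only [eq_true h4, eq_true h5, if_true]; ring
          · simp only [eq_true h4, eq_false h5, if_true, if_false]; ring
        · by_cases h5 : a = b
          · simp only [eq_false h4, eq_true h5, if_true, if_false]; ring
          · simp only [eq_false h4, eq_false h5, if_false]; ring
      · intro l hl hlw
        obtain ⟨hli, hlj⟩ := (hLm l).1 hl
        have h3 : ¬ (({x, w} : Set ι) = {j, l} ∨ ({x, w} : Set ι) = {i, l}) := by
          have key : ∀ t : ι, ({x, w} : Set ι) ≠ {t, l} := by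
            intro t ht
            have h4 : l ∈ ({x, w} : Set ι) := by rw [ht]; simp
            rcases h4 with h4 | h4
            · rcases hx with h5 | h5
              · exact hli (h4.trans h5)
              · exact hlj (h4.trans h5)
            · exact hlw h4
          rintro (h4 | h4)
          · exact key j h4
          · exact key i h4
        rw [if_neg (fun hh => h3 hh.2), if_neg (fun hh => h2 hh.2)]
      · exact fun hh => absurd hwL hh
    · by_cases h2 : ({x, w} : Set ι) = {i, j}
      · have hyL : y ∈ L := by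
          rw [hLm]
          constructor
          · rintro rfl
            have h3 : y ∈ ({x, w} : Set ι) := by rw [h2]; simp
            rcases h3 with h3 | h3
            · exact hxy h3.symm
            · exact hyw h3
          · rintro rfl
            have h3 : y ∈ ({x, w} : Set ι) := by rw [h2]; simp
            rcases h3 with h3 | h3
            · exact hxy h3.symm
            · exact hyw h3
        have hx : x = i ∨ x = j := by
          have h3 : x ∈ ({i, j} : Set ι) := by rw [← h2]; simp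
          exact h3
        rw [Finset.sum_eq_single y]
        · have h3 : ({x, y} : Set ι) = {j, y} ∨ ({x, y} : Set ι) = {i, y} := by
            rcases hx with rfl | rfl
            · right; rfl
            · left; rfl
          have p1 := eq_false h1
          have p2 := eq_true h2
          have p3 := eq_true h3
          simp only [p1, p2, p3, true_and, false_and, false_or, if_true, if_false]
          by_cases h4 : b = z
          · by_cases h5 : a = b
            · simp only [eq_true h4, eq_true h5, if_true]; ring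
            · simp only [eq_true h4, eq_false h5, if_true, if_false]; ring
          · by_cases h5 : a = b
            · simp only [eq_false h4, eq_true h5, if_true, if_false]; ring
            · simp only [eq_false h4, eq_false h5, if_false]; ring
        · intro l hl hly
          obtain ⟨hli, hlj⟩ := (hLm l).1 hl
          have h3 : ¬ (({x, y} : Set ι) = {j, l} ∨ ({x, y} : Set ι) = {i, l}) := by
            have key : ∀ t : ι, ({x, y} : Set ι) ≠ {t, l} := by
              intro t ht
              have h4 : l ∈ ({x, y} : Set ι) := by rw [ht]; simp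
              rcases h4 with h4 | h4
              · rcases hx with h5 | h5
                · exact hli (h4.trans h5)
                · exact hlj (h4.trans h5)
              · exact hly h4
            rintro (h4 | h4)
            · exact key j h4
            · exact key i h4
          rw [if_neg (fun hh => h1 hh.1), if_neg (fun hh => h3 hh.1)]
        · exact fun hh => absurd hyL hh
      · have h0 : ∀ l ∈ L, (if ({x, y} : Set ι) = {i, j} ∧
              (({x, w} : Set ι) = {j, l} ∨ ({x, w} : Set ι) = {i, l})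
            then (if a = z then (1 : ZMod ℓ) else 0) - (if a = b then 1 else 0)
            else if (({x, y} : Set ι) = {j, l} ∨ ({x, y} : Set ι) = {i, l}) ∧
                ({x, w} : Set ι) = {i, j}
              then (if b = z then 1 else 0) - (if a = b then 1 else 0) else 0) = 0 := by
          intro l _
          rw [if_neg (fun hh => h1 hh.1), if_neg (fun hh => h2 hh.2)]
        rw [Finset.sum_eq_zero h0, add_zero]
        simp [h1, h2]

end Pool.Agent.Lib.MP_89bcae_ag

end
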