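import Mathlib
import Pool.Agent.Lib.MP_89bcae_ag.Mk.K024
import Pool.Agent.Lib.MP_89bcae_ag.Mk.K043
import Pool.Agent.Lib.MP_89bcae_ag.Mk.K052

namespace Pool.Agent.Lib.MP_89bcae_ag.Superelliptic
end Pool.Agent.Lib.MP_89bcae_ag.Superelliptic

section

/-!
# Homomorphisms with arbitrary symbols
-/

open Polynomial

open scoped Classical

namespace Pool.Agent.Lib.MP_89bcae_ag

open Superelliptic

variable {ι : Type} [Fintype ι] [LinearOrder ι] {n : ℕ} {F : Type} [Field F] [Algebra ℚ F]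

theorem card_pair_h57 {κ : Type} (inst : DecidableEq κ) {a b : κ} (h : a ≠ b) :
    (@insert κ (Finset κ) (@Finset.instInsert κ inst) a {b}).card = 2 := Finset.card_pair h

theorem card_triple_h57 {κ : Type} (inst : DecidableEq κ) {a b c : κ} (hab : a ≠ b) (hac : a ≠ c)
    (hbc : b ≠ c) : (@insert κ (Finset κ) (@Finset.instInsert κ inst) a
      (@insert κ (Finset κ) (@Finset.instInsert κ inst) b {c})).card = 3 :=
  Finset.card_eq_three.2 ⟨a, b, c, hab, hac, hbc, rfl⟩

/-- Linear combinations of homomorphisms which are `IsVal`. -/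
theorem isVal_sum_h57 {ℓ : ℕ} {K : Subfield F} {κ : Type} (s : Finset κ) (c : κ → ZMod ℓ)
    (ν : κ → F → ZMod ℓ) (h : ∀ T, IsVal K (ν T)) : IsVal K (fun x => ∑ T ∈ s, c T * ν T x) where
  mul x hx y hy hx0 hy0 := by
    rw [← Finset.sum_add_distrib]
    refine Finset.sum_congr rfl (fun T _ => ?_)
    rw [(h T).mul x hx y hy hx0 hy0, mul_add]
  neg_one := Finset.sum_eq_zero (fun T _ => by rw [(h T).neg_one, mul_zero])

/-- Linear combinations of homomorphisms which are `CopyV`. -/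
theorem copyV_sum_h57 {ℓ : ℕ} {α : ι → ℚ[X]} {nd : ι → ι → Fin n → F} {κ : Type} (s : Finset κ)
    (c : κ → ZMod ℓ) (ν : κ → F → ZMod ℓ) (C : κ → Finset ι → ZMod ℓ) (h : ∀ T, CopyV (ν T) α nd (C T)) :
    CopyV (fun x => ∑ T ∈ s, c T * ν T x) α nd (fun T' => ∑ T ∈ s, c T * C T T') where
  lead i j hij := Finset.sum_congr rfl (fun T _ => by rw [(h T).lead i j hij])
  par i j hij a b hab := Finset.sum_eq_zero (fun T _ => by rw [(h T).par i j hij a b hab, mul_zero])
  adj i j l hij hjl hil a b := by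
    rw [← Finset.sum_sub_distrib, ← Finset.sum_sub_distrib]
    by_cases hab : a = b
    · rw [if_pos hab]
      refine Finset.sum_congr rfl (fun T _ => ?_)
      rw [(h T).adj i j l hij hjl hil a b, if_pos hab]
      ring
    · rw [if_neg hab]
      refine Finset.sum_eq_zero (fun T _ => ?_)
      rw [(h T).adj i j l hij hjl hil a b, if_neg hab, mul_zero]

/-- All symbols. Proof: for `T` with `T.card = 3` or `T.card = 2` let `ν_T` be that of `copyV_triple`,
`copyV_pair`, and `ν_T = 0` otherwise; take `ν = ∑ T : Finset ι, B T • ν_T` (or `B T * ν_T x`). All the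
conditions of `CopyV` and `IsVal` are linear; `∑ T, B T * (if {i, j} = T then 1 else 0) = B {i, j}` (the
`T` with `T.card ≠ 2, 3` do not contribute at pairs and triples). -/
theorem copyV_all [IsAlgClosure ℚ F] {ℓ : ℕ} (hℓ : ℓ.Prime) {v : ι × Fin (n + 1) → ℤ}
    (h : GoodH v) (hn : 2 ≤ n) {nd : ι → ι → Fin n → F} (hN : Nodes (gpolQ v) nd)
    (B : Finset ι → ZMod ℓ) :
    ∃ ν : F → ZMod ℓ, IsVal (IntermediateField.adjoin ℚ (nodes ℚ F (gpolQ v))).toSubfield ν ∧
      CopyV ν (gpolQ v) nd B := by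
  have key : ∀ T : Finset ι, ∃ ν : F → ZMod ℓ,
      IsVal (IntermediateField.adjoin ℚ (nodes ℚ F (gpolQ v))).toSubfield ν ∧
      CopyV ν (gpolQ v) nd (fun T' => if T' = T then 1 else 0) := by
    intro T
    by_cases h3 : T.card = 3
    · exact copyV_triple hℓ h (by omega) hN h3
    by_cases h2 : T.card = 2
    · exact copyV_pair hℓ h hn hN h2
    refine ⟨fun _ => 0, ⟨fun _ _ _ _ _ _ => (add_zero 0).symm, rfl⟩, ⟨?_, ?_, ?_⟩⟩
    · intro i j hij
      refine (if_neg ?_).symm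
      intro he
      exact h2 (by rw [← he]; exact card_pair_h57 _ hij)
    · intro i j hij a b hab
      rfl
    · intro i j l hij hjl hil a b
      by_cases hab : a = b
      · rw [if_pos hab, if_neg, if_neg, if_neg]
        · ring
        · intro he
          exact h2 (by rw [← he]; exact card_pair_h57 _ hil)
        · intro he
          exact h2 (by rw [← he]; exact card_pair_h57 _ hij)
        · intro he
          exact h3 (by rw [← he]; exact card_triple_h57 _ hij hil hjl)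
      · rw [if_neg hab]
  choose ν hν1 hν2 using key
  refine ⟨fun x => ∑ T : Finset ι, B T * ν T x, isVal_sum_h57 Finset.univ B ν hν1, ?_⟩
  have h5 := copyV_sum_h57 Finset.univ B ν (fun T T' => if T' = T then 1 else 0) hν2
  have h6 : (fun T' : Finset ι => ∑ T : Finset ι, B T * (if T' = T then (1 : ZMod ℓ) else 0)) = B := by
    funext T'
    simp only [mul_ite, mul_one, mul_zero]
    rw [Finset.sum_ite_eq]
    simp
  rw [h6] at h5
  exact h5

theorem exists_numbering_h43 [IsAlgClosure ℚ F] {v : ι × Fin (n + 1) → ℤ} (h : GoodH v) {i j : ι}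
    (hij : i ≠ j) : ∃ g : Fin n → F, Function.Injective g ∧
      ∀ s : F, aeval s (gpolQ v i) = aeval s (gpolQ v j) ↔ ∃ a, g a = s := by
  obtain ⟨p, hp, hI⟩ := h.good.typeI i j hij
  obtain ⟨R, hR1, hR2⟩ := exists_roots (F := F) (separable_of_typeI v hp hI)
  have hd : (gpolQ v i - gpolQ v j).natDegree = n := h.good.natDegree hij
  have hmap : (gdif v i j).map (algebraMap ℤ F) =
      (gpolQ v i - gpolQ v j).map (algebraMap ℚ F) := by
    rw [← gdif_map_rat, Polynomial.map_map, ← algebraMap_int_eq, ← IsScalarTower.algebraMap_eq]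
  have hd2 : ((gdif v i j).map (algebraMap ℤ F)).natDegree = n := by
    rw [hmap, natDegree_map, hd]
  have hne : (gpolQ v i - gpolQ v j).map (algebraMap ℚ F) ≠ 0 := by
    rw [Polynomial.map_ne_zero_iff (algebraMap ℚ F).injective]
    exact (separable_of_typeI v hp hI).ne_zero
  have hc0 : algebraMap ℤ F (gdif v i j).leadingCoeff ≠ 0 := by
    intro hc
    rw [hc, C_0, zero_mul] at hR2
    exact hne (hmap.symm.trans hR2)
  have hcard : R.card = n := by
    rw [hR2, natDegree_C_mul hc0, natDegree_prod_of_monic _ _ (fun s _ => monic_X_sub_C s)] at hd2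
    simpa using hd2
  let e := (Finset.equivFinOfCardEq hcard).symm
  refine ⟨fun a => (e a : F), Subtype.val_injective.comp e.injective, fun s => ?_⟩
  rw [← hR1 s]
  constructor
  · intro hs
    exact ⟨e.symm ⟨s, hs⟩, by simp⟩
  · rintro ⟨a, rfl⟩
    exact (e a).2

/-- A numbering of the nodes. Proof: for `i < j` the polynomial `α_i - α_j` has degree `n`
(`GoodG.natDegree`) and is separable, so it has exactly `n` roots in `F` (`exists_roots`); take a bijection
`Fin n ≃ roots` (`Finset.equivFinOfCardEq`, or `Finset.orderIsoOfFin` is not available) for `i < j` and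
`nd j i = nd i j`; `nd i i` is arbitrary. -/
theorem exists_nodes [IsAlgClosure ℚ F] {v : ι × Fin (n + 1) → ℤ} (h : GoodH v) :
    ∃ nd : ι → ι → Fin n → F, Nodes (gpolQ v) nd := by
  have key : ∀ i j : ι, i < j → ∃ g : Fin n → F, Function.Injective g ∧
      ∀ s : F, aeval s (gpolQ v i) = aeval s (gpolQ v j) ↔ ∃ a, g a = s :=
    fun i j hij => exists_numbering_h43 h hij.ne
  choose! g hg using key
  refine ⟨fun i j => if i < j then g i j else g j i, ?_, ?_, ?_, ?_⟩
  · intro i j a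
    rcases lt_trichotomy i j with hij | hij | hij
    · simp only [if_pos hij, if_neg hij.le.not_gt]
    · rw [hij]
    · simp only [if_pos hij, if_neg hij.le.not_gt]
  · intro i j hij
    rcases lt_or_gt_of_ne hij with h1 | h1
    · simp only [if_pos h1]
      exact (hg i j h1).1
    · simp only [if_neg h1.le.not_gt]
      exact (hg j i h1).1
  · intro i j hij s
    rcases lt_or_gt_of_ne hij with h1 | h1
    · simp only [if_pos h1]
      exact (hg i j h1).2 s
    · simp only [if_neg h1.le.not_gt]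
      rw [eq_comm]
      exact (hg j i h1).2 s
  · intro i j hij
    exact h.good.natDegree hij

end Pool.Agent.Lib.MP_89bcae_ag

end

section

/-!
# Homomorphisms with arbitrary symbols and couplings
-/

open Polynomial

open scoped Classical

namespace Pool.Agent.Lib.MP_89bcae_ag

open Superelliptic

variable {ι : Type} [Fintype ι] [LinearOrder ι] {n : ℕ} {F : Type} [Field F] [Algebra ℚ F]

omit [Fintype ι] [LinearOrder ι] in
/-- Linear combinations of homomorphisms with copies and couplings. -/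
theorem copyW_sum_h7 {ℓ : ℕ} {α : ι → ℚ[X]} {nd : ι → ι → Fin n → F} {κ : Type} (s : Finset κ)
    (k : κ → ZMod ℓ) (ν : κ → F → ZMod ℓ) (β : κ → Finset ι → ZMod ℓ)
    (c : κ → Fin n → Finset ι → ZMod ℓ) (δ : κ → Finset ι → Fin n → Fin n → ZMod ℓ)
    (h : ∀ t, CopyW (ν t) α nd (β t) (c t) (δ t)) :
    CopyW (fun x => ∑ t ∈ s, k t * ν t x) α nd (fun T => ∑ t ∈ s, k t * β t T)
      (fun a T => ∑ t ∈ s, k t * c t a T) (fun T a b => ∑ t ∈ s, k t * δ t T a b) where
  lead i j hij := Finset.sum_congr rfl (fun t _ => by rw [(h t).lead i j hij])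
  par i j hij a b hab := Finset.sum_congr rfl (fun t _ => by rw [(h t).par i j hij a b hab])
  adj i j l hij hjl hil a b := by
    rw [← Finset.sum_sub_distrib, ← Finset.sum_sub_distrib]
    by_cases hab : a = b
    · rw [if_pos hab]
      refine Finset.sum_congr rfl (fun t _ => ?_)
      rw [(h t).adj i j l hij hjl hil a b, if_pos hab]
      ring
    · rw [if_neg hab]
      refine Finset.sum_eq_zero (fun t _ => ?_)
      rw [(h t).adj i j l hij hjl hil a b, if_neg hab, mul_zero]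

omit [Fintype ι] [LinearOrder ι] in
theorem copyW_add_h7 {ℓ : ℕ} {α : ι → ℚ[X]} {nd : ι → ι → Fin n → F} {ν ν' : F → ZMod ℓ}
    {β β' : Finset ι → ZMod ℓ} {c c' : Fin n → Finset ι → ZMod ℓ}
    {δ δ' : Finset ι → Fin n → Fin n → ZMod ℓ} (h : CopyW ν α nd β c δ)
    (h' : CopyW ν' α nd β' c' δ') :
    CopyW (fun x => ν x + ν' x) α nd (fun T => β T + β' T) (fun a T => c a T + c' a T)
      (fun T a b => δ T a b + δ' T a b) where
  lead i j hij := by
    show ν _ + ν' _ = _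
    rw [h.lead i j hij, h'.lead i j hij]
  par i j hij a b hab := by
    show ν _ + ν' _ = _
    rw [h.par i j hij a b hab, h'.par i j hij a b hab]
  adj i j l hij hjl hil a b := by
    show ν _ + ν' _ = _
    rw [h.adj i j l hij hjl hil a b, h'.adj i j l hij hjl hil a b]
    by_cases hab : a = b
    · rw [if_pos hab, if_pos hab, if_pos hab]
      ring
    · rw [if_neg hab, if_neg hab, if_neg hab, add_zero]

omit [Fintype ι] [LinearOrder ι] in
/-- Only the values at pairs and triples matter. -/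
theorem copyW_congr_h7 {ℓ : ℕ} {α : ι → ℚ[X]} {nd : ι → ι → Fin n → F} {ν : F → ZMod ℓ}
    {β β' : Finset ι → ZMod ℓ} {c c' : Fin n → Finset ι → ZMod ℓ}
    {δ δ' : Finset ι → Fin n → Fin n → ZMod ℓ} (h : CopyW ν α nd β c δ)
    (hβ : ∀ T : Finset ι, T.card = 2 → β T = β' T)
    (hc : ∀ a (T : Finset ι), T.card = 3 → c a T = c' a T)
    (hδ : ∀ (T : Finset ι), T.card = 2 → ∀ a b, a ≠ b → δ T a b = δ' T a b) :
    CopyW ν α nd β' c' δ' where
  lead i j hij := by rw [h.lead i j hij, hβ _ (card_pr hij)]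
  par i j hij a b hab := by rw [h.par i j hij a b hab, hδ _ (card_pr hij) a b hab]
  adj i j l hij hjl hil a b := by
    rw [h.adj i j l hij hjl hil a b, hβ _ (card_pr hij), hβ _ (card_pr hil),
      hc _ _ (card_tr hij hil hjl)]

/-- One triangle in one copy. -/
theorem copyW_triple_h7 [IsAlgClosure ℚ F] {ℓ : ℕ} (hℓ : ℓ.Prime) {v : ι × Fin (n + 1) → ℤ}
    (h : GoodH v) (hn : 1 ≤ n) {nd : ι → ι → Fin n → F} (hN : Nodes (gpolQ v) nd)
    (a₀ : Fin n) (T : Finset ι) :
    ∃ ν : F → ZMod ℓ, IsVal (IntermediateField.adjoin ℚ (nodes ℚ F (gpolQ v))).toSubfield ν ∧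
      CopyW ν (gpolQ v) nd (fun _ => 0)
        (fun a T' => if a = a₀ ∧ T' = T ∧ T.card = 3 then 1 else 0) (fun _ _ _ => 0) := by
  by_cases hT : T.card = 3
  swap
  · refine ⟨fun _ => 0, ⟨fun _ _ _ _ _ _ => (add_zero 0).symm, rfl⟩, ⟨?_, ?_, ?_⟩⟩
    · intro i j hij
      rfl
    · intro i j hij a b hab
      rfl
    · intro i j l hij hjl hil a b
      by_cases hab : a = b
      · rw [if_pos hab, if_neg (fun hh => hT hh.2.2)]
        ring
      · rw [if_neg hab]
  obtain ⟨i, j, l, hij, hil, hjl, hTe⟩ := Finset.card_eq_three.mp hT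
  have hm : ∀ {x y : ι} (_ : x ≠ y) (a : Fin n),
      aeval (nd x y a) (gpolQ v x) = aeval (nd x y a) (gpolQ v y) :=
    fun {x y} hxy a => (hN.mem x y hxy _).2 ⟨a, rfl⟩
  obtain ⟨ν, hν, hD⟩ := exists_val_B hℓ h hn hij hjl hil (nd i j a₀) (nd j l a₀) (nd i l a₀)
    (hm hij a₀) (hm hjl a₀) (hm hil a₀)
  refine ⟨ν, hν, ?_, ?_, ?_⟩
  · intro x y hxy
    exact hD.lead x y hxy
  · intro x y hxy a b hab
    rw [hD.dif _ (hN.mem_nodes_h30 hxy a) _ (hN.mem_nodes_h30 hxy b) fun he => hab (hN.inj x y hxy he),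
      if_neg]
    rintro ⟨h1, h2⟩
    rw [triple_mem_iff_h30 h hN hij hil hjl hxy] at h1 h2
    exact hab (h1.1.trans h2.1.symm)
  · intro x y z hxy hyz hxz a b
    have hne : nd x y a ≠ nd x z b := by
      intro he
      rcases Set.pair_eq_pair_iff.mp (Nodes.ne h hN hxy hxz he).1 with ⟨-, h2⟩ | ⟨h1, -⟩
      · exact hyz h2
      · exact hxz h1
    have hxyz : ∀ (inst : DecidableEq ι), (x ∈ (@insert ι (Finset ι) (@Finset.instInsert ι inst) i
        (@insert ι (Finset ι) (@Finset.instInsert ι inst) j {l})) ∧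
        y ∈ (@insert ι (Finset ι) (@Finset.instInsert ι inst) i
        (@insert ι (Finset ι) (@Finset.instInsert ι inst) j {l})) ∧
        z ∈ (@insert ι (Finset ι) (@Finset.instInsert ι inst) i
        (@insert ι (Finset ι) (@Finset.instInsert ι inst) j {l}))) ↔ tr x y z = T := by
      intro inst
      have e : (@insert ι (Finset ι) (@Finset.instInsert ι inst) i
        (@insert ι (Finset ι) (@Finset.instInsert ι inst) j {l})) = T := by
        rw [hTe]
        ext t
        simp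
      rw [e]
      constructor
      · rintro ⟨hx, hy, hz⟩
        apply Finset.eq_of_subset_of_card_le
        · intro t ht
          rcases mem_tr.1 ht with rfl | rfl | rfl
          · exact hx
          · exact hy
          · exact hz
        · rw [hT, card_tr hxy hxz hyz]
      · intro he
        rw [← he]
        exact ⟨mem_tr.2 (Or.inl rfl), mem_tr.2 (Or.inr (Or.inl rfl)), mem_tr.2 (Or.inr (Or.inr rfl))⟩
    rw [hD.dif _ (hN.mem_nodes_h30 hxy a) _ (hN.mem_nodes_h30 hxz b) hne]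
    have hiff : (nd x y a ∈ ({nd i j a₀, nd j l a₀, nd i l a₀} : Set F) ∧
        nd x z b ∈ ({nd i j a₀, nd j l a₀, nd i l a₀} : Set F)) ↔
        (a = b ∧ a = a₀ ∧ tr x y z = T ∧ T.card = 3) := by
      rw [triple_mem_iff_h30 h hN hij hil hjl hxy, triple_mem_iff_h30 h hN hij hil hjl hxz,
        ← hxyz _]
      constructor
      · rintro ⟨⟨h1, hx, hy⟩, h2, -, hz⟩
        exact ⟨h1.trans h2.symm, h1, ⟨hx, hy, hz⟩, hT⟩
      · rintro ⟨h1, h2, ⟨hx, hy, hz⟩, -⟩
        exact ⟨⟨h2, hx, hy⟩, h1.symm.trans h2, hx, hz⟩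
    by_cases hab : a = b
    · rw [if_pos hab, sub_zero, sub_zero]
      exact if_congr (hiff.trans ⟨fun hh => hh.2, fun hh => ⟨hab, hh⟩⟩) rfl rfl
    · rw [if_neg hab, if_neg (fun hh => hab (hiff.1 hh).1)]

/-- One coupling of one pair. -/
theorem copyW_pair_h7 [IsAlgClosure ℚ F] {ℓ : ℕ} (hℓ : ℓ.Prime) {v : ι × Fin (n + 1) → ℤ}
    (h : GoodH v) {nd : ι → ι → Fin n → F} (hN : Nodes (gpolQ v) nd)
    (T : Finset ι) (a₀ b₀ : Fin n) :
    ∃ ν : F → ZMod ℓ, IsVal (IntermediateField.adjoin ℚ (nodes ℚ F (gpolQ v))).toSubfield ν ∧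
      CopyW ν (gpolQ v) nd (fun _ => 0) (fun _ _ => 0)
        (fun T' a b => if T' = T ∧ T.card = 2 ∧ a₀ < b₀ ∧
          ((a = a₀ ∧ b = b₀) ∨ (a = b₀ ∧ b = a₀)) then 1 else 0) := by
  by_cases hT : T.card = 2 ∧ a₀ < b₀
  swap
  · refine ⟨fun _ => 0, ⟨fun _ _ _ _ _ _ => (add_zero 0).symm, rfl⟩, ⟨?_, ?_, ?_⟩⟩
    · intro i j hij
      rfl
    · intro i j hij a b hab
      exact (if_neg (fun hh => hT ⟨hh.2.1, hh.2.2.1⟩)).symm
    · intro i j l hij hjl hil a b
      by_cases hab : a = b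
      · rw [if_pos hab]
        ring
      · rw [if_neg hab]
  obtain ⟨hT, hab₀⟩ := hT
  obtain ⟨i, j, hij, hTe⟩ := Finset.card_eq_two.1 hT
  have hm : ∀ a : Fin n, aeval (nd i j a) (gpolQ v i) = aeval (nd i j a) (gpolQ v j) :=
    fun a => (hN.mem i j hij _).2 ⟨a, rfl⟩
  obtain ⟨ν, hν, hD⟩ := exists_val_D hℓ h hij (nd i j a₀) (nd i j b₀)
    (fun he => hab₀.ne (hN.inj i j hij he)) (hm a₀) (hm b₀)
  have hpT : ∀ x y : ι, x ≠ y → (({x, y} : Set ι) = {i, j} ↔ pr x y = T) := by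
    intro x y hxy
    have e : pr i j = T := by
      rw [hTe]
      ext t
      rw [mem_pr]
      simp
    rw [← e, pr_eq_pr, Set.pair_eq_pair_iff]
  have hkey : ∀ {x y : ι} {a : Fin n}, x ≠ y →
      (nd x y a ∈ ({nd i j a₀, nd i j b₀} : Set F) ↔ pr x y = T ∧ (a = a₀ ∨ a = b₀)) := by
    intro x y a hxy
    have h1 : ∀ c : Fin n, nd x y a = nd i j c ↔ pr x y = T ∧ a = c := by
      intro c
      rw [← hpT x y hxy]
      constructor
      · exact fun he => Nodes.ne h hN hxy hij he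
      · rintro ⟨h1, rfl⟩
        rcases Set.pair_eq_pair_iff.1 h1 with ⟨h2, h3⟩ | ⟨h2, h3⟩
        · rw [h2, h3]
        · rw [h2, h3, hN.symm]
    rw [Set.mem_insert_iff, Set.mem_singleton_iff, h1, h1]
    constructor
    · rintro (⟨hh, h2⟩ | ⟨hh, h2⟩)
      · exact ⟨hh, Or.inl h2⟩
      · exact ⟨hh, Or.inr h2⟩
    · rintro ⟨hh, h2 | h2⟩
      · exact Or.inl ⟨hh, h2⟩
      · exact Or.inr ⟨hh, h2⟩
  refine ⟨ν, hν, ?_, ?_, ?_⟩
  · intro x y hxy
    exact hD.lead x y hxy
  · intro x y hxy a b hab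
    rw [hD.dif _ (hN.mem_nodes_h30 hxy a) _ (hN.mem_nodes_h30 hxy b) fun he => hab (hN.inj x y hxy he)]
    refine if_congr ?_ rfl rfl
    rw [hkey hxy, hkey hxy]
    constructor
    · rintro ⟨⟨h1, h2⟩, -, h3⟩
      refine ⟨h1, hT, hab₀, ?_⟩
      rcases h2 with h2 | h2 <;> rcases h3 with h3 | h3
      · exact absurd (h2.trans h3.symm) hab
      · exact Or.inl ⟨h2, h3⟩
      · exact Or.inr ⟨h2, h3⟩
      · exact absurd (h2.trans h3.symm) hab
    · rintro ⟨h1, -, -, ⟨h2, h3⟩ | ⟨h2, h3⟩⟩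
      · exact ⟨⟨h1, Or.inl h2⟩, h1, Or.inr h3⟩
      · exact ⟨⟨h1, Or.inr h2⟩, h1, Or.inl h3⟩
  · intro x y z hxy hyz hxz a b
    have hne : nd x y a ≠ nd x z b := by
      intro he
      rcases Set.pair_eq_pair_iff.mp (Nodes.ne h hN hxy hxz he).1 with ⟨-, h2⟩ | ⟨h1, -⟩
      · exact hyz h2
      · exact hxz h1
    rw [hD.dif _ (hN.mem_nodes_h30 hxy a) _ (hN.mem_nodes_h30 hxz b) hne, if_neg]
    · by_cases hab : a = b
      · rw [if_pos hab]
        ring
      · rw [if_neg hab]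
    · rw [hkey hxy, hkey hxz]
      rintro ⟨⟨h1, -⟩, h2, -⟩
      have h3 : pr x y = pr x z := h1.trans h2.symm
      rcases pr_eq_pr.1 h3 with ⟨-, h4⟩ | ⟨h4, -⟩
      · exact hyz h4
      · exact hxz h4

/-- The symbols of the pairs. -/
theorem copyW_lead_h7 [IsAlgClosure ℚ F] {ℓ : ℕ} (hℓ : ℓ.Prime) {v : ι × Fin (n + 1) → ℤ}
    (h : GoodH v) (hn : 2 ≤ n) {nd : ι → ι → Fin n → F} (hN : Nodes (gpolQ v) nd)
    (β : Finset ι → ZMod ℓ) :
    ∃ ν : F → ZMod ℓ, IsVal (IntermediateField.adjoin ℚ (nodes ℚ F (gpolQ v))).toSubfield ν ∧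
      CopyW ν (gpolQ v) nd β (fun _ _ => 0) (fun _ _ _ => 0) := by
  obtain ⟨ν, hν, hV⟩ := copyV_all hℓ h hn hN (fun T => if T.card = 2 then β T else 0)
  have h2 : ∀ (inst : DecidableEq ι) {x y : ι}, x ≠ y →
      (if (@insert ι (Finset ι) (@Finset.instInsert ι inst) x {y}).card = 2 then
        β (@insert ι (Finset ι) (@Finset.instInsert ι inst) x {y}) else 0) = β (pr x y) := by
    intro inst x y hxy
    rw [if_pos (card_pair_h57 inst hxy), @pr_eq ι inst x y]
  refine ⟨ν, hν, ?_, ?_, ?_⟩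
  · intro x y hxy
    rw [hV.lead x y hxy]
    exact h2 _ hxy
  · intro x y hxy a b hab
    exact hV.par x y hxy a b hab
  · intro x y z hxy hyz hxz a b
    rw [hV.adj x y z hxy hyz hxz a b]
    by_cases hab : a = b
    · rw [if_pos hab, if_pos hab]
      have h3 : ∀ (inst : DecidableEq ι), (if (@insert ι (Finset ι) (@Finset.instInsert ι inst) x
          (@insert ι (Finset ι) (@Finset.instInsert ι inst) y {z})).card = 2 then
          β (@insert ι (Finset ι) (@Finset.instInsert ι inst) x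
          (@insert ι (Finset ι) (@Finset.instInsert ι inst) y {z})) else 0) = 0 := by
        intro inst
        apply if_neg
        rw [card_triple_h57 inst hxy hxz hyz]
        decide
      exact congrArg₂ (fun x y : ZMod ℓ => x - y)
        (congrArg₂ (fun x y : ZMod ℓ => x - y) (h3 _) (h2 _ hxy)) (h2 _ hxz)
    · rw [if_neg hab, if_neg hab]

/-- All symbols and couplings. Proof: let `ν₀` be that of `copyV_all` for `B T = if T.card = 2 then β T else 0`;
for `T = {i, j, l}` (`T.card = 3`, choose `i, j, l`) and `a : Fin n` let `ν_{T, a}` be that of `exists_val_B` for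
`nd i j a`, `nd j l a`, `nd i l a`; for `T = {i, j}` (`T.card = 2`) and `a < b` let `ν_{T, a, b}` be that of
`exists_val_D` for `nd i j a`, `nd i j b`. Take
`ν = ν₀ + ∑_T ∑_a c a T • ν_{T, a} + ∑_T ∑_{a < b} δ T a b • ν_{T, a, b}`. The values: at the leading coefficients
only `ν₀` contributes, `B (pr i j) = β (pr i j)`; at `nd i j a - nd i j b`: `ν₀` and the `ν_{T, a}` give `0`
(`Nodes.ne`), the last sum gives `δ (pr i j) a b` (symmetric, `hδ`); at `nd i j a - nd i l b`: `ν₀` gives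
`- β (pr i j) - β (pr i l)` if `a = b`, otherwise `0`, the second sum gives `c a (tr i j l)` if `a = b`, otherwise
`0`, the last sum gives `0`. See the proofs of `copyV_triple` and `copyV_pair` (`Gr/E05.lean`) and `copyV_all`
(`Gr/E06.lean`). `pr_eq`, `tr_eq` change `pr i j`, `tr i j l` to `{i, j}`, `{i, j, l}` for any instance of
`DecidableEq`. -/
theorem copyW_all [IsAlgClosure ℚ F] {ℓ : ℕ} (hℓ : ℓ.Prime) {v : ι × Fin (n + 1) → ℤ}
    (h : GoodH v) (hn : 2 ≤ n) {nd : ι → ι → Fin n → F} (hN : Nodes (gpolQ v) nd)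
    (β : Finset ι → ZMod ℓ) (c : Fin n → Finset ι → ZMod ℓ)
    (δ : Finset ι → Fin n → Fin n → ZMod ℓ) (hδ : ∀ T a b, δ T a b = δ T b a) :
    ∃ ν : F → ZMod ℓ, IsVal (IntermediateField.adjoin ℚ (nodes ℚ F (gpolQ v))).toSubfield ν ∧
      CopyW ν (gpolQ v) nd β c δ := by
  obtain ⟨ν₀, hν₀, hC₀⟩ := copyW_lead_h7 (F := F) hℓ h hn hN β
  choose ν₁ hν₁ hC₁ using fun t : Fin n × Finset ι =>
    copyW_triple_h7 (F := F) hℓ h (by omega) hN t.1 t.2
  choose ν₂ hν₂ hC₂ using fun t : Finset ι × Fin n × Fin n =>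
    copyW_pair_h7 (F := F) hℓ h hN t.1 t.2.1 t.2.2
  have hS₁ := copyW_sum_h7 Finset.univ (fun t : Fin n × Finset ι => c t.1 t.2) ν₁ _ _ _ hC₁
  have hS₂ := copyW_sum_h7 Finset.univ (fun t : Finset ι × Fin n × Fin n => δ t.1 t.2.1 t.2.2)
    ν₂ _ _ _ hC₂
  refine ⟨_, (hν₀.add_h64 (isVal_sum_h57 Finset.univ (fun t : Fin n × Finset ι => c t.1 t.2) ν₁
    hν₁)).add_h64 (isVal_sum_h57 Finset.univ
      (fun t : Finset ι × Fin n × Fin n => δ t.1 t.2.1 t.2.2) ν₂ hν₂),
    copyW_congr_h7 (copyW_add_h7 (copyW_add_h7 hC₀ hS₁) hS₂) ?_ ?_ ?_⟩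
  · intro T hT
    simp
  · intro a T hT
    simp only [mul_zero, Finset.sum_const_zero, zero_add, add_zero]
    rw [Finset.sum_eq_single (a, T)]
    · simp [hT]
    · rintro ⟨a', T'⟩ - hne
      rw [if_neg, mul_zero]
      rintro ⟨h1, h2, -⟩
      exact hne (Prod.ext h1.symm h2.symm)
    · exact fun hh => absurd (Finset.mem_univ _) hh
  · intro T hT a b hab
    simp only [mul_zero, Finset.sum_const_zero, zero_add]
    rcases lt_or_gt_of_ne hab with hlt | hlt
    · rw [Finset.sum_eq_single (T, a, b)]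
      · simp [hT, hlt]
      · rintro ⟨T', a', b'⟩ - hne
        rw [if_neg, mul_zero]
        rintro ⟨h1, -, h2, ⟨h3, h4⟩ | ⟨h3, h4⟩⟩
        · exact hne (Prod.ext h1.symm (Prod.ext h3.symm h4.symm))
        · simp only at h1 h2 h3 h4
          rw [← h3, ← h4] at h2
          exact absurd hlt h2.not_gt
      · exact fun hh => absurd (Finset.mem_univ _) hh
    · rw [Finset.sum_eq_single (T, b, a)]
      · simp [hT, hlt, hδ T b a]
      · rintro ⟨T', a', b'⟩ - hne
        rw [if_neg, mul_zero]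
        rintro ⟨h1, -, h2, ⟨h3, h4⟩ | ⟨h3, h4⟩⟩
        · simp only at h1 h2 h3 h4
          rw [← h3, ← h4] at h2
          exact absurd hlt h2.not_gt
        · exact hne (Prod.ext h1.symm (Prod.ext h4.symm h3.symm))
      · exact fun hh => absurd (Finset.mem_univ _) hh

end Pool.Agent.Lib.MP_89bcae_ag

end

section

/-!
# An automorphism with arbitrary symbols
-/

open Polynomial

open scoped Classical

namespace Pool.Agent.Lib.MP_89bcae_ag

open Superelliptic

variable {ι : Type} [Fintype ι] [LinearOrder ι] {n : ℕ} {F : Type} [Field F] [Algebra ℚ F]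

/-- Proof: `K = CyclotomicField ℓ ℚ` with an embedding in `F` (`letI : Algebra K F`, as in
`graphCovers8`, `Gph/Fin.lean`); `ν₀` of `copyV_all`; `exists_extend_val` (`Gph/Norm.lean`, `S` the nodes,
`nodes_gpolQ_finite`) extends it to `ν` on `K(S)`. `E = (IntermediateField.adjoin K S).restrictScalars ℚ`,
finite over `ℚ`; `ζ` the primitive root of `K` in `E`. `Sup.exists_U_of_lam` for `k := E`, `K := ⊥`,
`lam := ν` and `T` the finite set of the leading coefficients and of the differences of different nodes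
(not zero: `Nodes.inj`, `Nodes.ne`) gives `U`; all values of `CopyV` are at elements of `T`, in `ℚ(S)`,
where `ν = ν₀`. -/
theorem exists_U_graphs [IsAlgClosure ℚ F] {ℓ : ℕ} (hℓ : ℓ.Prime) {v : ι × Fin (n + 1) → ℤ}
    (h : GoodH v) (hn : 2 ≤ n) {nd : ι → ι → Fin n → F} (hN : Nodes (gpolQ v) nd)
    (B : Finset ι → ZMod ℓ) :
    ∃ (E : IntermediateField ℚ F) (ζ : E) (U : F ≃ₐ[E] F), FiniteDimensional ℚ E ∧
      IsPrimitiveRoot ζ ℓ ∧ (∀ i j, i ≠ j → ∀ a, nd i j a ∈ E) ∧
      CopyV (fun x => Sup.kap ℓ (algebraMap E F ζ) U x) (gpolQ v) nd B := by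
  have hF : IsAlgClosed F := IsAlgClosure.isAlgClosed ℚ
  have halg : Algebra.IsAlgebraic ℚ F := IsAlgClosure.isAlgebraic
  have hF0 : CharZero F := algebraRat.charZero F
  have hne0 : NeZero ℓ := ⟨hℓ.ne_zero⟩
  have hfact : Fact ℓ.Prime := ⟨hℓ⟩
  obtain ⟨ν₀, hν₀, hC⟩ := copyV_all hℓ h hn hN B
  obtain ⟨S, hSdef⟩ : ∃ S, S = nodes ℚ F (gpolQ v) := ⟨_, rfl⟩
  rw [← hSdef] at hν₀
  have hS : S.Finite := by
    rw [hSdef]
    refine nodes_gpolQ_finite fun a b hab he => ?_
    have h1 := h.good.natDegree hab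
    rw [he, sub_self, natDegree_zero] at h1
    omega
  have hint : ∀ s ∈ S, IsIntegral ℚ s := fun s _ => (halg.isAlgebraic s).isIntegral
  have hmem : ∀ i j, i ≠ j → ∀ a, nd i j a ∈ S := by
    intro i j hij a
    rw [hSdef]
    exact ⟨i, j, hij, (hN.mem i j hij _).2 ⟨a, rfl⟩⟩
  -- the cyclotomic field
  let K := CyclotomicField ℓ ℚ
  letI : Algebra ℚ K := CyclotomicField.algebra ℓ ℚ
  haveI : IsCyclotomicExtension {ℓ} ℚ K := inferInstance
  haveI hfin : FiniteDimensional ℚ K := IsCyclotomicExtension.finiteDimensional {ℓ} ℚ K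
  let e : K →ₐ[ℚ] F := IsAlgClosed.lift
  letI : Algebra K F := e.toRingHom.toAlgebra
  haveI : IsScalarTower ℚ K F := IsScalarTower.of_algebraMap_eq fun x => (e.commutes x).symm
  obtain ⟨ν, hν, hνe⟩ := exists_extend_val hℓ K F S hS hint ν₀ hν₀
  obtain ⟨z, hz⟩ := IsCyclotomicExtension.exists_isPrimitiveRoot (S := {ℓ}) ℚ K
    (Set.mem_singleton ℓ) hℓ.ne_zero
  have hzF : IsPrimitiveRoot (algebraMap K F z) ℓ := hz.map_of_injective (algebraMap K F).injective
  -- the field `E`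
  haveI hSfin : Finite S := hS.to_subtype
  haveI hfdK : FiniteDimensional K (IntermediateField.adjoin K S) :=
    IntermediateField.finiteDimensional_adjoin fun x hx => (hint x hx).tower_top
  let E : IntermediateField ℚ F := (IntermediateField.adjoin K S).restrictScalars ℚ
  have hEmem : ∀ x : F, x ∈ E ↔ x ∈ IntermediateField.adjoin K S := fun x => Iff.rfl
  have hfd : FiniteDimensional ℚ E := by
    have h1 : FiniteDimensional ℚ (IntermediateField.adjoin K S) :=
      FiniteDimensional.trans ℚ K (IntermediateField.adjoin K S)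
    exact h1
  let ζ : E := ⟨algebraMap K F z, (IntermediateField.adjoin K S).algebraMap_mem z⟩
  have hζF : IsPrimitiveRoot (algebraMap E F ζ) ℓ := hzF
  have hζ : IsPrimitiveRoot ζ ℓ := hζF.of_map_of_injective (algebraMap E F).injective
  have hℓE : ((ℓ : ℕ) : E) ≠ 0 := by
    have h1 : CharZero E := inferInstance
    exact Nat.cast_ne_zero.2 hℓ.ne_zero
  have halgE : Algebra.IsAlgebraic E F := Algebra.IsAlgebraic.tower_top (K := ℚ) E
  -- the elements at which the symbol is prescribed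
  let N : Finset F := hS.toFinset
  let T : Finset F := ((Finset.univ : Finset (ι × ι)).filter fun x => x.1 ≠ x.2).image
      (fun x => algebraMap ℚ F (gpolQ v x.1 - gpolQ v x.2).leadingCoeff) ∪
    ((N ×ˢ N).filter fun x => x.1 ≠ x.2).image fun x => x.1 - x.2
  have hlead0 : ∀ i j, i ≠ j → algebraMap ℚ F (gpolQ v i - gpolQ v j).leadingCoeff ≠ 0 := by
    intro i j hij h0
    rw [map_eq_zero, leadingCoeff_eq_zero] at h0
    have h1 := h.good.natDegree hij
    rw [h0, natDegree_zero] at h1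
    omega
  have hSE : ∀ s ∈ S, s ∈ E := fun s hs => IntermediateField.subset_adjoin K S hs
  have hbot : ∀ x : F, x ∈ E → x ∈ (⊥ : IntermediateField E F) := fun x hx =>
    IntermediateField.mem_bot.2 ⟨⟨x, hx⟩, rfl⟩
  have hbot' : ∀ x : F, x ∈ (⊥ : IntermediateField E F) → x ∈ E := by
    intro x hx
    obtain ⟨y, hy⟩ := IntermediateField.mem_bot.1 hx
    rw [← hy]
    exact y.2
  have hT : ∀ x ∈ T, x ∈ (⊥ : IntermediateField E F) ∧ x ≠ 0 := by
    intro x hx
    rcases Finset.mem_union.1 hx with h1 | h1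
    · obtain ⟨⟨i, j⟩, h2, h3⟩ := Finset.mem_image.1 h1
      have hij : i ≠ j := (Finset.mem_filter.1 h2).2
      rw [← h3]
      exact ⟨hbot _ (E.algebraMap_mem _), hlead0 i j hij⟩
    · obtain ⟨⟨s, t⟩, h2, h3⟩ := Finset.mem_image.1 h1
      obtain ⟨h4, h5⟩ := Finset.mem_filter.1 h2
      obtain ⟨h6, h7⟩ := Finset.mem_product.1 h4
      rw [← h3]
      refine ⟨hbot _ (E.sub_mem (hSE _ (hS.mem_toFinset.1 h6)) (hSE _ (hS.mem_toFinset.1 h7))), ?_⟩
      exact sub_ne_zero.2 h5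
  obtain ⟨U, -, hU⟩ := Sup.exists_U_of_lam (k := E) (F := F) hℓ hℓE hζ ⊥ ν
    (fun x hx y hy hx0 hy0 => hν.mul x (hbot' x hx) y (hbot' y hy) hx0 hy0) T hT
  have hsub : ∀ s ∈ S, ∀ t ∈ S, s ≠ t →
      Sup.kap ℓ (algebraMap E F ζ) U (s - t) = ν₀ (s - t) := by
    intro s hs t ht hst
    rw [hU (s - t) (Finset.mem_union.2 (Or.inr (Finset.mem_image.2 ⟨(s, t),
      Finset.mem_filter.2 ⟨Finset.mem_product.2 ⟨hS.mem_toFinset.2 hs, hS.mem_toFinset.2 ht⟩, hst⟩,
      rfl⟩)))]
    exact hνe _ (sub_mem (IntermediateField.subset_adjoin ℚ S hs)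
      (IntermediateField.subset_adjoin ℚ S ht))
  refine ⟨E, ζ, U, hfd, hζ, fun i j hij a => hSE _ (hmem i j hij a), ?_, ?_, ?_⟩
  · intro i j hij
    show Sup.kap ℓ (algebraMap E F ζ) U _ = _
    rw [hU _ (Finset.mem_union.2 (Or.inl (Finset.mem_image.2 ⟨(i, j),
      Finset.mem_filter.2 ⟨Finset.mem_univ _, hij⟩, rfl⟩)))]
    rw [hνe _ ((IntermediateField.adjoin ℚ S).algebraMap_mem _)]
    exact hC.lead i j hij
  · intro i j hij a b hab
    show Sup.kap ℓ (algebraMap E F ζ) U _ = _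
    rw [hsub _ (hmem i j hij a) _ (hmem i j hij b) fun h1 => hab (hN.inj i j hij h1)]
    exact hC.par i j hij a b hab
  · intro i j l hij hjl hil a b
    show Sup.kap ℓ (algebraMap E F ζ) U _ = _
    rw [hsub _ (hmem i j hij a) _ (hmem i l hil b) ?_]
    · exact hC.adj i j l hij hjl hil a b
    · intro h1
      have h2 := (Nodes.ne h hN hij hil h1).1
      rcases Set.pair_eq_pair_iff.1 h2 with ⟨-, h3⟩ | ⟨h3, -⟩
      · exact hjl h3
      · exact hil h3

end Pool.Agent.Lib.MP_89bcae_ag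

end

section

/-!
# An automorphism with the values of a given homomorphism
-/

open Polynomial

open scoped Classical

namespace Pool.Agent.Lib.MP_89bcae_ag

open Superelliptic

variable {ι : Type} [Fintype ι] [LinearOrder ι] {n : ℕ} {F : Type} [Field F] [Algebra ℚ F]

/-- As `exists_U_graphs` (`Gr/E07.lean`), for a given homomorphism. -/
theorem exists_U_val [IsAlgClosure ℚ F] {ℓ : ℕ} (hℓ : ℓ.Prime) {v : ι × Fin (n + 1) → ℤ}
    (h : GoodH v) (hn : n ≠ 0) {nd : ι → ι → Fin n → F} (hN : Nodes (gpolQ v) nd)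
    (ν₀ : F → ZMod ℓ)
    (hν₀ : IsVal (IntermediateField.adjoin ℚ (nodes ℚ F (gpolQ v))).toSubfield ν₀) :
    ∃ (E : IntermediateField ℚ F) (ζ : E) (U : F ≃ₐ[E] F), FiniteDimensional ℚ E ∧
      IsPrimitiveRoot ζ ℓ ∧ (∀ i j, i ≠ j → ∀ a, nd i j a ∈ E) ∧
      (∀ i j, i ≠ j →
        Sup.kap ℓ (algebraMap E F ζ) U (algebraMap ℚ F (gpolQ v i - gpolQ v j).leadingCoeff) =
          ν₀ (algebraMap ℚ F (gpolQ v i - gpolQ v j).leadingCoeff)) ∧
      ∀ i j i' j' a a', i ≠ j → i' ≠ j' → nd i j a ≠ nd i' j' a' →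
        Sup.kap ℓ (algebraMap E F ζ) U (nd i j a - nd i' j' a') = ν₀ (nd i j a - nd i' j' a') := by
  have hF : IsAlgClosed F := IsAlgClosure.isAlgClosed ℚ
  have halg : Algebra.IsAlgebraic ℚ F := IsAlgClosure.isAlgebraic
  have hF0 : CharZero F := algebraRat.charZero F
  have hne0 : NeZero ℓ := ⟨hℓ.ne_zero⟩
  have hfact : Fact ℓ.Prime := ⟨hℓ⟩
  obtain ⟨S, hSdef⟩ : ∃ S, S = nodes ℚ F (gpolQ v) := ⟨_, rfl⟩
  rw [← hSdef] at hν₀
  have hS : S.Finite := by
    rw [hSdef]
    refine nodes_gpolQ_finite fun a b hab he => ?_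
    have h1 := h.good.natDegree hab
    rw [he, sub_self, natDegree_zero] at h1
    omega
  have hint : ∀ s ∈ S, IsIntegral ℚ s := fun s _ => (halg.isAlgebraic s).isIntegral
  have hmem : ∀ i j, i ≠ j → ∀ a, nd i j a ∈ S := by
    intro i j hij a
    rw [hSdef]
    exact ⟨i, j, hij, (hN.mem i j hij _).2 ⟨a, rfl⟩⟩
  -- the cyclotomic field
  let K := CyclotomicField ℓ ℚ
  letI : Algebra ℚ K := CyclotomicField.algebra ℓ ℚ
  haveI : IsCyclotomicExtension {ℓ} ℚ K := inferInstance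
  haveI hfin : FiniteDimensional ℚ K := IsCyclotomicExtension.finiteDimensional {ℓ} ℚ K
  let e : K →ₐ[ℚ] F := IsAlgClosed.lift
  letI : Algebra K F := e.toRingHom.toAlgebra
  haveI : IsScalarTower ℚ K F := IsScalarTower.of_algebraMap_eq fun x => (e.commutes x).symm
  obtain ⟨ν, hν, hνe⟩ := exists_extend_val hℓ K F S hS hint ν₀ hν₀
  obtain ⟨z, hz⟩ := IsCyclotomicExtension.exists_isPrimitiveRoot (S := {ℓ}) ℚ K
    (Set.mem_singleton ℓ) hℓ.ne_zero
  have hzF : IsPrimitiveRoot (algebraMap K F z) ℓ := hz.map_of_injective (algebraMap K F).injective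
  -- the field `E`
  haveI hSfin : Finite S := hS.to_subtype
  haveI hfdK : FiniteDimensional K (IntermediateField.adjoin K S) :=
    IntermediateField.finiteDimensional_adjoin fun x hx => (hint x hx).tower_top
  let E : IntermediateField ℚ F := (IntermediateField.adjoin K S).restrictScalars ℚ
  have hEmem : ∀ x : F, x ∈ E ↔ x ∈ IntermediateField.adjoin K S := fun x => Iff.rfl
  have hfd : FiniteDimensional ℚ E := by
    have h1 : FiniteDimensional ℚ (IntermediateField.adjoin K S) :=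
      FiniteDimensional.trans ℚ K (IntermediateField.adjoin K S)
    exact h1
  let ζ : E := ⟨algebraMap K F z, (IntermediateField.adjoin K S).algebraMap_mem z⟩
  have hζF : IsPrimitiveRoot (algebraMap E F ζ) ℓ := hzF
  have hζ : IsPrimitiveRoot ζ ℓ := hζF.of_map_of_injective (algebraMap E F).injective
  have hℓE : ((ℓ : ℕ) : E) ≠ 0 := by
    have h1 : CharZero E := inferInstance
    exact Nat.cast_ne_zero.2 hℓ.ne_zero
  have halgE : Algebra.IsAlgebraic E F := Algebra.IsAlgebraic.tower_top (K := ℚ) E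
  -- the elements at which the symbol is prescribed
  let N : Finset F := hS.toFinset
  let T : Finset F := ((Finset.univ : Finset (ι × ι)).filter fun x => x.1 ≠ x.2).image
      (fun x => algebraMap ℚ F (gpolQ v x.1 - gpolQ v x.2).leadingCoeff) ∪
    ((N ×ˢ N).filter fun x => x.1 ≠ x.2).image fun x => x.1 - x.2
  have hlead0 : ∀ i j, i ≠ j → algebraMap ℚ F (gpolQ v i - gpolQ v j).leadingCoeff ≠ 0 := by
    intro i j hij h0
    rw [map_eq_zero, leadingCoeff_eq_zero] at h0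
    have h1 := h.good.natDegree hij
    rw [h0, natDegree_zero] at h1
    omega
  have hSE : ∀ s ∈ S, s ∈ E := fun s hs => IntermediateField.subset_adjoin K S hs
  have hbot : ∀ x : F, x ∈ E → x ∈ (⊥ : IntermediateField E F) := fun x hx =>
    IntermediateField.mem_bot.2 ⟨⟨x, hx⟩, rfl⟩
  have hbot' : ∀ x : F, x ∈ (⊥ : IntermediateField E F) → x ∈ E := by
    intro x hx
    obtain ⟨y, hy⟩ := IntermediateField.mem_bot.1 hx
    rw [← hy]
    exact y.2
  have hT : ∀ x ∈ T, x ∈ (⊥ : IntermediateField E F) ∧ x ≠ 0 := by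
    intro x hx
    rcases Finset.mem_union.1 hx with h1 | h1
    · obtain ⟨⟨i, j⟩, h2, h3⟩ := Finset.mem_image.1 h1
      have hij : i ≠ j := (Finset.mem_filter.1 h2).2
      rw [← h3]
      exact ⟨hbot _ (E.algebraMap_mem _), hlead0 i j hij⟩
    · obtain ⟨⟨s, t⟩, h2, h3⟩ := Finset.mem_image.1 h1
      obtain ⟨h4, h5⟩ := Finset.mem_filter.1 h2
      obtain ⟨h6, h7⟩ := Finset.mem_product.1 h4
      rw [← h3]
      refine ⟨hbot _ (E.sub_mem (hSE _ (hS.mem_toFinset.1 h6)) (hSE _ (hS.mem_toFinset.1 h7))), ?_⟩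
      exact sub_ne_zero.2 h5
  obtain ⟨U, -, hU⟩ := Sup.exists_U_of_lam (k := E) (F := F) hℓ hℓE hζ ⊥ ν
    (fun x hx y hy hx0 hy0 => hν.mul x (hbot' x hx) y (hbot' y hy) hx0 hy0) T hT
  have hsub : ∀ s ∈ S, ∀ t ∈ S, s ≠ t →
      Sup.kap ℓ (algebraMap E F ζ) U (s - t) = ν₀ (s - t) := by
    intro s hs t ht hst
    rw [hU (s - t) (Finset.mem_union.2 (Or.inr (Finset.mem_image.2 ⟨(s, t),
      Finset.mem_filter.2 ⟨Finset.mem_product.2 ⟨hS.mem_toFinset.2 hs, hS.mem_toFinset.2 ht⟩, hst⟩,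
      rfl⟩)))]
    exact hνe _ (sub_mem (IntermediateField.subset_adjoin ℚ S hs)
      (IntermediateField.subset_adjoin ℚ S ht))
  refine ⟨E, ζ, U, hfd, hζ, fun i j hij a => hSE _ (hmem i j hij a), ?_, ?_⟩
  · intro i j hij
    rw [hU _ (Finset.mem_union.2 (Or.inl (Finset.mem_image.2 ⟨(i, j),
      Finset.mem_filter.2 ⟨Finset.mem_univ _, hij⟩, rfl⟩)))]
    exact hνe _ ((IntermediateField.adjoin ℚ S).algebraMap_mem _)
  · intro i j i' j' a a' hij hij' hne
    exact hsub _ (hmem i j hij a) _ (hmem i' j' hij' a') hne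

end Pool.Agent.Lib.MP_89bcae_ag

end

section

/-!
# Prime fields with arbitrary symbols
-/

open Polynomial

open scoped Classical

namespace Pool.Agent.Lib.MP_89bcae_ag

open Superelliptic

variable {ι : Type} [Fintype ι] [LinearOrder ι] {n : ℕ}

/-- A unit is coprime to everything. -/
theorem isCoprime_of_isUnit_left_h32 {R : Type*} [CommSemiring R] {a : R} (h : IsUnit a) (b : R) :
    IsCoprime a b := by
  obtain ⟨u, rfl⟩ := h
  exact ⟨↑u⁻¹, 0, by simp⟩

/-- The factorisation of the reduction of one difference. -/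
theorem gdif_reduction_h32 {F : Type} [Field F] [Algebra ℚ F] {v : ι × Fin (n + 1) → ℤ}
    {nd : ι → ι → Fin n → F} (hN : Nodes (gpolQ v) nd) {q : ℕ}
    (A : Subring F) (Φ : A →+* ZMod q) (hA : ∀ i j, i ≠ j → ∀ a, nd i j a ∈ A)
    (hlc : ∀ i j, i ≠ j → ((v (i, Fin.last n) - v (j, Fin.last n) : ℤ) : ZMod q) ≠ 0)
    (i j : ι) (hij : i ≠ j) :
    gpol (fun x => (v x : ZMod q)) i - gpol (fun x => (v x : ZMod q)) j =
      C ((v (i, Fin.last n) - v (j, Fin.last n) : ℤ) : ZMod q) *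
        ∏ a, (X - C (Φ ⟨nd i j a, hA i j hij a⟩)) := by
  have : CharZero F := algebraRat.charZero F
  have hv : v (i, Fin.last n) - v (j, Fin.last n) ≠ 0 := by
    intro h
    apply hlc i j hij
    rw [h]
    simp
  have hcoef : (gpolQ v i - gpolQ v j).coeff n = ((v (i, Fin.last n) - v (j, Fin.last n) : ℤ) : ℚ) := by
    have := gdif_coeff (fun x => (v x : ℚ)) i j (Fin.last n)
    unfold gdif at this
    rw [Fin.val_last] at this
    unfold gpolQ
    rw [this]
    push_cast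
    ring
  have hne : gpolQ v i ≠ gpolQ v j := by
    intro h
    rw [h, sub_self, coeff_zero] at hcoef
    exact hv (by exact_mod_cast hcoef.symm)
  have h1 := hN.prod_eq hij hne
  have hlead : (gpolQ v i - gpolQ v j).leadingCoeff =
      ((v (i, Fin.last n) - v (j, Fin.last n) : ℤ) : ℚ) := by
    rw [← hcoef, leadingCoeff, hN.lead i j hij]
  rw [hlead] at h1
  -- the identity in `A[X]`
  have h2 : gdif (fun x => ((v x : ℤ) : A)) i j =
      C ((v (i, Fin.last n) - v (j, Fin.last n) : ℤ) : A) *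
        ∏ a, (X - C (⟨nd i j a, hA i j hij a⟩ : A)) := by
    apply Polynomial.map_injective A.subtype Subtype.val_injective
    rw [gdif_map, Polynomial.map_mul, Polynomial.map_prod, map_C]
    have e1 : gdif (fun x => A.subtype ((v x : ℤ) : A)) i j =
        (gpolQ v i - gpolQ v j).map (algebraMap ℚ F) := by
      unfold gpolQ
      change _ = (gdif (fun x => (v x : ℚ)) i j).map (algebraMap ℚ F)
      rw [gdif_map]
      congr 1
      funext x
      rw [map_intCast, map_intCast]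
    rw [e1, h1]
    congr 1
    · rw [map_intCast (algebraMap ℚ F), map_intCast A.subtype]
    · refine Finset.prod_congr rfl fun a _ => ?_
      rw [Polynomial.map_sub, map_X, map_C]
      rfl
  have h3 := congrArg (Polynomial.map Φ) h2
  rw [gdif_map, Polynomial.map_mul, Polynomial.map_prod, map_C] at h3
  have e2 : (fun x => Φ ((v x : ℤ) : A)) = fun x : ι × Fin (n + 1) => ((v x : ℤ) : ZMod q) := by
    funext x
    rw [map_intCast]
  rw [e2, map_intCast] at h3
  unfold gdif at h3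
  rw [h3]
  congr 1
  refine Finset.prod_congr rfl fun a _ => ?_
  rw [Polynomial.map_sub, map_X, map_C]

/-- The reduction of a family whose differences split. Proof: let `v'` be the reduction of `v`. In `F[X]`,
`(gdif v i j).map = C lc * ∏ a, (X - C (nd i j a))` (`Nodes.prod_eq`); both sides have coefficients in the
subring `A` of `F`, so this holds in `A[X]` (`Polynomial.map_injective`) and, applying `Φ`, in `(ZMod q)[X]`
with `Φ (nd i j a)` and `Φ lc = v'(i, n) - v'(j, n) ≠ 0` (`hlc`). So `gpol v' i - gpol v' j` has degree `n` and the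
roots `Φ (nd i j a)`, which are different by `hd`: this is `Nodes`. `IsArrangement`: the product over
`i < j` is a constant times the product of the `X - C s` over the different elements
`s = Φ (nd i j a)` (`hd`; `Polynomial.separable_prod'`). -/
theorem nodes_reduction {F : Type} [Field F] [Algebra ℚ F] {v : ι × Fin (n + 1) → ℤ}
    (hn : 1 ≤ n) {nd : ι → ι → Fin n → F} (hN : Nodes (gpolQ v) nd) {q : ℕ} [Fact q.Prime]
    (A : Subring F) (Φ : A →+* ZMod q) (hA : ∀ i j, i ≠ j → ∀ a, nd i j a ∈ A)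
    (hlc : ∀ i j, i ≠ j → ((v (i, Fin.last n) - v (j, Fin.last n) : ℤ) : ZMod q) ≠ 0)
    (hd : ∀ i j i' j' (hij : i ≠ j) (hij' : i' ≠ j') (a a' : Fin n),
      (({i, j} : Set ι) ≠ {i', j'} ∨ a ≠ a') →
        Φ ⟨nd i j a, hA i j hij a⟩ ≠ Φ ⟨nd i' j' a', hA i' j' hij' a'⟩) :
    IsArrangement (gpol (fun x => (v x : ZMod q))) ∧
      Nodes (F := ZMod q) (gpol (fun x => (v x : ZMod q)))
        (fun i j a => if hij : i = j then 0 else Φ ⟨nd i j a, hA i j hij a⟩) := by
  have key := gdif_reduction_h32 hN A Φ hA hlc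
  have hcu : ∀ i j, i ≠ j →
      IsUnit (C ((v (i, Fin.last n) - v (j, Fin.last n) : ℤ) : ZMod q) : (ZMod q)[X]) := by
    intro i j hij
    exact Polynomial.isUnit_C.2 (isUnit_iff_ne_zero.2 (hlc i j hij))
  have hmon : ∀ i j (hij : i ≠ j), (∏ a, (X - C (Φ ⟨nd i j a, hA i j hij a⟩)) :
      (ZMod q)[X]).natDegree = n := by
    intro i j hij
    rw [Polynomial.natDegree_prod_of_monic _ _ (fun a _ => monic_X_sub_C _)]
    simp
  have hdeg : ∀ i j, i ≠ j →
      (gpol (fun x => (v x : ZMod q)) i - gpol (fun x => (v x : ZMod q)) j).natDegree = n := by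
    intro i j hij
    rw [key i j hij, natDegree_C_mul (hlc i j hij), hmon i j hij]
  have hsep : ∀ i j, i ≠ j →
      (gpol (fun x => (v x : ZMod q)) i - gpol (fun x => (v x : ZMod q)) j).Separable := by
    intro i j hij
    rw [key i j hij]
    refine Separable.mul ((separable_C _).2 (isUnit_iff_ne_zero.2 (hlc i j hij))) ?_ ?_
    · refine separable_prod_X_sub_C_iff.2 fun a b hab => ?_
      by_contra hne
      exact hd i j i j hij hij a b (Or.inr hne) hab
    · exact isCoprime_of_isUnit_left_h32 (hcu i j hij) _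
  have hcop : ∀ i j i' j', i ≠ j → i' ≠ j' → ({i, j} : Set ι) ≠ {i', j'} →
      IsCoprime (gpol (fun x => (v x : ZMod q)) i - gpol (fun x => (v x : ZMod q)) j)
        (gpol (fun x => (v x : ZMod q)) i' - gpol (fun x => (v x : ZMod q)) j') := by
    intro i j i' j' hij hij' hne
    rw [key i j hij, key i' j' hij']
    refine IsCoprime.mul_left (isCoprime_of_isUnit_left_h32 (hcu i j hij) _)
      (IsCoprime.mul_right (isCoprime_of_isUnit_left_h32 (hcu i' j' hij') _).symm ?_)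
    refine IsCoprime.prod_left fun a _ => IsCoprime.prod_right fun b _ => ?_
    exact isCoprime_X_sub_C_of_isUnit_sub
      (isUnit_iff_ne_zero.2 (sub_ne_zero.2 (hd i j i' j' hij hij' a b (Or.inl hne))))
  refine ⟨⟨?_, fun i j hij => ?_⟩, ⟨?_, ?_, ?_, hdeg⟩⟩
  · refine separable_prod' ?_ ?_
    · intro i _ i' _ hii
      refine IsCoprime.prod_left fun j hj => IsCoprime.prod_right fun j' hj' => ?_
      have h1 : i < j := (Finset.mem_filter.1 hj).2
      have h2 : i' < j' := (Finset.mem_filter.1 hj').2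
      refine hcop i j i' j' h1.ne h2.ne fun h => ?_
      have e1 : i ∈ ({i', j'} : Set ι) := h ▸ (by simp)
      have e2 : i' ∈ ({i, j} : Set ι) := h ▸ (by simp)
      rcases e1 with e1 | e1
      · exact hii e1
      · rcases e2 with e2 | e2
        · exact hii e2.symm
        · have e1' : i = j' := e1
          have e2' : i' = j := e2
          rw [e1'] at h1
          rw [e2'] at h2
          exact lt_asymm h1 h2
    · intro i _
      refine separable_prod' ?_ ?_
      · intro j hj j' hj' hjj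
        have h1 : i < j := (Finset.mem_filter.1 hj).2
        have h2 : i < j' := (Finset.mem_filter.1 hj').2
        refine hcop i j i j' h1.ne h2.ne fun h => ?_
        have e1 : j ∈ ({i, j'} : Set ι) := h ▸ (by simp)
        rcases e1 with e1 | e1
        · exact h1.ne e1.symm
        · exact hjj e1
      · intro j hj
        exact hsep i j (Finset.mem_filter.1 hj).2.ne
  · rw [hdeg i j hij]
    omega
  · intro i j a
    by_cases hij : i = j
    · rw [dif_pos hij, dif_pos hij.symm]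
    · rw [dif_neg hij, dif_neg (Ne.symm hij)]
      congr 2
      exact hN.symm i j a
  · intro i j hij a b hab
    simp only [dif_neg hij] at hab
    by_contra hne
    exact hd i j i j hij hij a b (Or.inr hne) hab
  · intro i j hij s
    have h1 : aeval s (gpol (fun x => (v x : ZMod q)) i) =
        aeval s (gpol (fun x => (v x : ZMod q)) j) ↔
        (gpol (fun x => (v x : ZMod q)) i - gpol (fun x => (v x : ZMod q)) j).eval s = 0 := by
      rw [eval_sub, sub_eq_zero]
      rfl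
    rw [h1, key i j hij, eval_mul, eval_C, mul_eq_zero, or_iff_right (hlc i j hij), eval_prod,
      Finset.prod_eq_zero_iff]
    simp only [dif_neg hij, Finset.mem_univ, true_and, eval_sub, eval_X, eval_C]
    constructor
    · rintro ⟨a, ha⟩
      exact ⟨a, (sub_eq_zero.1 ha).symm⟩
    · rintro ⟨a, ha⟩
      exact ⟨a, sub_eq_zero.2 ha.symm⟩

/-- **Primes with arbitrary symbols.** Proof: `F = AlgebraicClosure ℚ`, `nd` of `exists_nodes`, `E, ζ, U` of
`exists_U_graphs`; `F` is an algebraic closure of the number field `E`. `Re.exists_reduction` for `K := E`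
and `T` the finite set of the nodes, the differences of different nodes and the leading coefficients (as
elements of `E`); `hT` from `hB` and `CopyV` (a pair with `B {i, j} ≠ 0`: the leading coefficient; otherwise
a triple with `B {i, j, l} ≠ 0` and all pairs zero: the difference `nd i j 0 - nd i l 0`). It gives `q`, `A`,
`Φ`, `c ≠ 0` and `ζ' = (Φ ζ) ^ c.val` and `V` as in `Lr.exists_prime_lines` (`Lr/B05.lean`). `nodes_reduction`
for the image of `A` in `F` (`Subring.map`), or with `Φ` composed; the values of `V` at the differences of the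
`Φ (nd i j a)` and at the leading coefficients are those of `kap`. -/
theorem exists_prime_graphs {v : ι × Fin (n + 1) → ℤ} (h : GoodH v) (hn : 2 ≤ n) {ℓ : ℕ}
    (hℓ : ℓ.Prime) (hℓ2 : ℓ ≠ 2) (B : Finset ι → ZMod ℓ)
    (hB : (∃ i j l : ι, i ≠ j ∧ j ≠ l ∧ i ≠ l ∧ B {i, j, l} ≠ 0) ∨ ∃ i j : ι, i ≠ j ∧ B {i, j} ≠ 0)
    (N : ℕ) :
    ∃ (q : ℕ) (_ : Fact q.Prime) (ζ : ZMod q) (V : Val14 (ZMod q) ℓ) (nd : ι → ι → Fin n → ZMod q),
      N < q ∧ IsPrimitiveRoot ζ ℓ ∧ IsArrangement (gpol (fun x => (v x : ZMod q))) ∧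
      Nodes (F := ZMod q) (gpol (fun x => (v x : ZMod q))) nd ∧
      CopyV V.ν (gpol (fun x => (v x : ZMod q))) nd B := by
  have : Fact ℓ.Prime := ⟨hℓ⟩
  have : NeZero ℓ := ⟨hℓ.ne_zero⟩
  obtain ⟨F, _, _, _⟩ : ∃ (F : Type) (_ : Field F) (_ : Algebra ℚ F), IsAlgClosure ℚ F := by
    let _ : Algebra ℚ (AlgebraicClosure ℚ) := AlgebraicClosure.instAlgebra ℚ
    exact ⟨AlgebraicClosure ℚ, inferInstance, AlgebraicClosure.instAlgebra ℚ, inferInstance⟩
  obtain ⟨nd, hN⟩ := exists_nodes (F := F) h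
  obtain ⟨E, ζ, U, hfin, hζ, hmem, hC⟩ := exists_U_graphs (F := F) hℓ h hn hN B
  have : FiniteDimensional ℚ E := hfin
  have : NumberField E := @NumberField.of_module_finite ℚ E _ _ _ E.algebra' hfin
  have : Algebra.IsAlgebraic ℚ F := IsAlgClosure.isAlgebraic
  have : IsAlgClosure E F := ⟨IsAlgClosure.isAlgClosed ℚ, Algebra.IsAlgebraic.tower_top (K := ℚ) E⟩
  -- the leading coefficients
  have hlead : ∀ i j : ι, i ≠ j → (gpolQ v i - gpolQ v j).leadingCoeff =
      ((v (i, Fin.last n) - v (j, Fin.last n) : ℤ) : ℚ) := by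
    intro i j hij
    have h1 := gdif_coeff (fun x => (v x : ℚ)) i j (Fin.last n)
    unfold gdif at h1
    rw [Fin.val_last] at h1
    have h2 : (gpolQ v i - gpolQ v j).coeff n =
        (v (i, Fin.last n) : ℚ) - (v (j, Fin.last n) : ℚ) := h1
    rw [leadingCoeff, hN.lead i j hij, h2]
    push_cast
    rfl
  have hvne : ∀ i j : ι, i ≠ j → v (i, Fin.last n) - v (j, Fin.last n) ≠ 0 := by
    intro i j hij h0
    have h1 := hlead i j hij
    rw [h0, Int.cast_zero, leadingCoeff_eq_zero] at h1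
    have h2 := hN.lead i j hij
    rw [h1, natDegree_zero] at h2
    omega
  -- the elements of `E`
  let nE : ι → ι → Fin n → E := fun i j a => if hij : i ≠ j then ⟨nd i j a, hmem i j hij a⟩ else 0
  have hnE : ∀ i j (hij : i ≠ j) a, nE i j a = ⟨nd i j a, hmem i j hij a⟩ := by
    intro i j hij a
    exact dif_pos hij
  have hnE' : ∀ i j (_ : i ≠ j) a, algebraMap E F (nE i j a) = nd i j a := by
    intro i j hij a
    rw [hnE i j hij a]
    rfl
  let T : Finset E :=
    (Finset.univ.image fun t : ι × ι × Fin n => nE t.1 t.2.1 t.2.2) ∪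
    (Finset.univ.image fun t : (ι × ι × Fin n) × (ι × ι × Fin n) =>
      nE t.1.1 t.1.2.1 t.1.2.2 - nE t.2.1 t.2.2.1 t.2.2.2) ∪
    (Finset.univ.image fun t : ι × ι => ((v (t.1, Fin.last n) - v (t.2, Fin.last n) : ℤ) : E))
  have hT1 : ∀ i j a, nE i j a ∈ T := fun i j a =>
    Finset.mem_union_left _ (Finset.mem_union_left _
      (Finset.mem_image.2 ⟨(i, j, a), Finset.mem_univ _, rfl⟩))
  have hT2 : ∀ i j a i' j' a', nE i j a - nE i' j' a' ∈ T := fun i j a i' j' a' =>
    Finset.mem_union_left _ (Finset.mem_union_right _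
      (Finset.mem_image.2 ⟨((i, j, a), (i', j', a')), Finset.mem_univ _, rfl⟩))
  have hT3 : ∀ i j, ((v (i, Fin.last n) - v (j, Fin.last n) : ℤ) : E) ∈ T := fun i j =>
    Finset.mem_union_right _ (Finset.mem_image.2 ⟨(i, j), Finset.mem_univ _, rfl⟩)
  have hdne : ∀ i j i' j' (_ : i ≠ j) (_ : i' ≠ j') (a a' : Fin n),
      (({i, j} : Set ι) ≠ {i', j'} ∨ a ≠ a') → nE i j a - nE i' j' a' ≠ 0 := by
    intro i j i' j' hij hij' a a' hor h0
    have h1 : nE i j a = nE i' j' a' := sub_eq_zero.1 h0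
    rw [hnE i j hij, hnE i' j' hij'] at h1
    have h2 : nd i j a = nd i' j' a' := congrArg Subtype.val h1
    obtain ⟨h3, h4⟩ := Nodes.ne h hN hij hij' h2
    rcases hor with h5 | h5
    · exact h5 h3
    · exact h5 h4
  have hpairne : ∀ i j l : ι, j ≠ l → i ≠ l → ({i, j} : Set ι) ≠ {i, l} := by
    intro i j l hjl hil he
    have h1 : l ∈ ({i, j} : Set ι) := he ▸ (by simp)
    rcases h1 with h1 | h1
    · exact hil h1.symm
    · exact hjl (Set.mem_singleton_iff.1 h1).symm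
  -- the Kummer symbols
  have hk3 : ∀ i j, i ≠ j → Sup.kap ℓ (algebraMap E F ζ) U
      (algebraMap E F ((v (i, Fin.last n) - v (j, Fin.last n) : ℤ) : E)) =
        B {i, j} := by
    intro i j hij
    have h1 := hC.lead i j hij
    rw [hlead i j hij, map_intCast] at h1
    rw [map_intCast]
    refine h1.trans ?_
    congr <;> exact Subsingleton.elim _ _
  have hk2 : ∀ i j i' j' (_ : i ≠ j) (_ : i' ≠ j') (a a' : Fin n),
      algebraMap E F (nE i j a - nE i' j' a') = nd i j a - nd i' j' a' := by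
    intro i j i' j' hij hij' a a'
    rw [map_sub, hnE' i j hij, hnE' i' j' hij']
  have hfirst : ∃ z ∈ T, z ≠ 0 ∧ Sup.kap ℓ (algebraMap E F ζ) U
      (algebraMap E F z) ≠ 0 := by
    by_cases hp : ∃ i j : ι, i ≠ j ∧ B {i, j} ≠ 0
    · obtain ⟨i, j, hij, hb⟩ := hp
      refine ⟨_, hT3 i j, Int.cast_ne_zero.2 (hvne i j hij), ?_⟩
      rw [hk3 i j hij]
      exact hb
    · have hp' : ∀ i j : ι, i ≠ j → B {i, j} = 0 := by
        intro i j hij
        by_contra hb
        exact hp ⟨i, j, hij, hb⟩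
      rcases hB with ⟨i, j, l, hij, hjl, hil, hb⟩ | hB
      · have a0 : Fin n := ⟨0, by omega⟩
        refine ⟨_, hT2 i j a0 i l a0,
          hdne i j i l hij hil a0 a0 (Or.inl (hpairne i j l hjl hil)), ?_⟩
        rw [hk2 i j i l hij hil a0 a0]
        have h1 : Sup.kap ℓ (algebraMap E F ζ) U (nd i j a0 - nd i l a0) =
            B {i, j, l} - B {i, j} - B {i, l} := by
          have h2 := hC.adj i j l hij hjl hil a0 a0
          rw [if_pos rfl] at h2
          refine h2.trans ?_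
          congr <;> exact Subsingleton.elim _ _
        rw [hp' i j hij, hp' i l hil, sub_zero, sub_zero] at h1
        intro h2
        exact hb (h1.symm.trans h2)
      · exact absurd hB hp
  obtain ⟨q, hq, A, Φ, c, hζA, hNq, hdvd, hc, hprim, hT⟩ :=
    Re.exists_reduction hℓ E F hζ U T hfirst N
  have hcop : Nat.Coprime c.val ℓ := by
    refine ((Nat.Prime.coprime_iff_not_dvd hℓ).2 ?_).symm
    intro hd
    apply hc
    have h5 : c.val = 0 := Nat.eq_zero_of_dvd_of_lt hd (ZMod.val_lt c)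
    exact (ZMod.val_eq_zero c).1 h5
  have hζ' : IsPrimitiveRoot ((Φ ⟨ζ, hζA⟩) ^ c.val) ℓ := hprim.pow_of_coprime c.val hcop
  obtain ⟨V, hV⟩ := Lr.exists_val_zmod hℓ hℓ2 hdvd hζ'
  have hval : ∀ z ∈ T, ∀ hz : z ∈ A, z ≠ 0 → Φ ⟨z, hz⟩ ≠ 0 ∧ V.ν (Φ ⟨z, hz⟩) =
      Sup.kap ℓ (algebraMap E F ζ) U (algebraMap E F z) := by
    intro z hzT hz hz0
    obtain ⟨hz', hrest⟩ := hT z hzT
    obtain ⟨h0, hpow⟩ := hrest hz0
    refine ⟨h0, hV _ _ h0 ?_⟩
    rw [hpow, ZMod.val_mul, ← pow_mul]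
    exact (pow_eq_pow_mod _ hprim.pow_eq_one).symm
  -- the subring of `F`
  have hinj : Function.Injective (algebraMap E F) :=
    (algebraMap E F).injective
  let e := A.equivMapOfInjective (algebraMap E F) hinj
  let A' : Subring F := A.map (algebraMap E F)
  let Φ' : A' →+* ZMod q := Φ.comp (e.symm : A' →+* A)
  have hmA : ∀ i j a, nE i j a ∈ A := fun i j a => (hT _ (hT1 i j a)).1
  have hA' : ∀ i j, i ≠ j → ∀ a, nd i j a ∈ A' := by
    intro i j hij a
    exact Subring.mem_map.2 ⟨nE i j a, hmA i j a, hnE' i j hij a⟩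
  have hΦ' : ∀ i j (hij : i ≠ j) a, Φ' ⟨nd i j a, hA' i j hij a⟩ = Φ ⟨nE i j a, hmA i j a⟩ := by
    intro i j hij a
    have h1 : e ⟨nE i j a, hmA i j a⟩ = ⟨nd i j a, hA' i j hij a⟩ :=
      Subtype.ext (hnE' i j hij a)
    show Φ (e.symm ⟨nd i j a, hA' i j hij a⟩) = _
    rw [← h1, RingEquiv.symm_apply_apply]
  have hsub : ∀ i j a i' j' a', ∃ hz : nE i j a - nE i' j' a' ∈ A,
      Φ ⟨nE i j a - nE i' j' a', hz⟩ = Φ ⟨nE i j a, hmA i j a⟩ - Φ ⟨nE i' j' a', hmA i' j' a'⟩ := by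
    intro i j a i' j' a'
    refine ⟨A.sub_mem (hmA i j a) (hmA i' j' a'), ?_⟩
    rw [← map_sub]
    rfl
  have hlc' : ∀ i j, ∃ hz : ((v (i, Fin.last n) - v (j, Fin.last n) : ℤ) : E) ∈ A,
      Φ ⟨((v (i, Fin.last n) - v (j, Fin.last n) : ℤ) : E), hz⟩ =
        ((v (i, Fin.last n) - v (j, Fin.last n) : ℤ) : ZMod q) := by
    intro i j
    obtain ⟨hz, -⟩ := hT _ (hT3 i j)
    refine ⟨hz, ?_⟩
    have h5 : (⟨((v (i, Fin.last n) - v (j, Fin.last n) : ℤ) : E), hz⟩ : A) =
        ((v (i, Fin.last n) - v (j, Fin.last n) : ℤ) : A) := Subtype.ext (by push_cast; rfl)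
    rw [h5, map_intCast]
  have hlc : ∀ i j, i ≠ j →
      ((v (i, Fin.last n) - v (j, Fin.last n) : ℤ) : ZMod q) ≠ 0 ∧
      V.ν ((v (i, Fin.last n) - v (j, Fin.last n) : ℤ) : ZMod q) = B {i, j} := by
    intro i j hij
    obtain ⟨hz, he⟩ := hlc' i j
    obtain ⟨h0, h1⟩ := hval _ (hT3 i j) hz (Int.cast_ne_zero.2 (hvne i j hij))
    rw [he] at h0 h1
    exact ⟨h0, h1.trans (hk3 i j hij)⟩
  have hdif : ∀ i j i' j' (hij : i ≠ j) (hij' : i' ≠ j') (a a' : Fin n),
      (({i, j} : Set ι) ≠ {i', j'} ∨ a ≠ a') →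
        Φ' ⟨nd i j a, hA' i j hij a⟩ - Φ' ⟨nd i' j' a', hA' i' j' hij' a'⟩ ≠ 0 ∧
        V.ν (Φ' ⟨nd i j a, hA' i j hij a⟩ - Φ' ⟨nd i' j' a', hA' i' j' hij' a'⟩) =
          Sup.kap ℓ (algebraMap E F ζ) U (nd i j a - nd i' j' a') := by
    intro i j i' j' hij hij' a a' hor
    obtain ⟨hz, he⟩ := hsub i j a i' j' a'
    obtain ⟨h0, h1⟩ := hval _ (hT2 i j a i' j' a') hz (hdne i j i' j' hij hij' a a' hor)
    rw [he] at h0 h1
    rw [hΦ' i j hij a, hΦ' i' j' hij' a']
    refine ⟨h0, h1.trans ?_⟩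
    rw [hk2 i j i' j' hij hij' a a']
  have hd : ∀ i j i' j' (hij : i ≠ j) (hij' : i' ≠ j') (a a' : Fin n),
      (({i, j} : Set ι) ≠ {i', j'} ∨ a ≠ a') →
        Φ' ⟨nd i j a, hA' i j hij a⟩ ≠ Φ' ⟨nd i' j' a', hA' i' j' hij' a'⟩ := by
    intro i j i' j' hij hij' a a' hor
    exact sub_ne_zero.1 (hdif i j i' j' hij hij' a a' hor).1
  obtain ⟨hArr, hNod⟩ := nodes_reduction (by omega : 1 ≤ n) hN A' Φ' hA'
    (fun i j hij => (hlc i j hij).1) hd
  refine ⟨q, hq, (Φ ⟨ζ, hζA⟩) ^ c.val, V, _, hNq, hζ', hArr, hNod, ?_, ?_, ?_⟩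
  · intro i j hij
    have h1 : (gpol (fun x => (v x : ZMod q)) i - gpol (fun x => (v x : ZMod q)) j).leadingCoeff =
        ((v (i, Fin.last n) - v (j, Fin.last n) : ℤ) : ZMod q) := by
      have h2 := gdif_coeff (fun x => (v x : ZMod q)) i j (Fin.last n)
      unfold gdif at h2
      rw [Fin.val_last] at h2
      rw [leadingCoeff, hNod.lead i j hij, h2]
      push_cast
      rfl
    rw [h1, map_intCast]
    refine (hlc i j hij).2.trans ?_
    congr <;> exact Subsingleton.elim _ _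
  · intro i j hij a b hab
    rw [dif_neg hij, dif_neg hij]
    exact (hdif i j i j hij hij a b (Or.inr hab)).2.trans (hC.par i j hij a b hab)
  · intro i j l hij hjl hil a b
    rw [dif_neg hij, dif_neg hil]
    exact (hdif i j i l hij hil a b (Or.inl (hpairne i j l hjl hil))).2.trans
      (hC.adj i j l hij hjl hil a b)

end Pool.Agent.Lib.MP_89bcae_ag

end

section

/-!
# Prime fields with the values of a given homomorphism
-/

open Polynomial

open scoped Classical

namespace Pool.Agent.Lib.MP_89bcae_ag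

open Superelliptic

variable {ι : Type} [Fintype ι] [LinearOrder ι] {n : ℕ}

/-- **Primes with the values of a homomorphism.** (As `exists_prime_graphs`, `Gr/E08.lean`.) -/
theorem exists_prime_val {v : ι × Fin (n + 1) → ℤ} (h : GoodH v) (hn : 2 ≤ n) {ℓ : ℕ}
    (hℓ : ℓ.Prime) (hℓ2 : ℓ ≠ 2) {F : Type} [Field F] [Algebra ℚ F] [IsAlgClosure ℚ F]
    {nd : ι → ι → Fin n → F} (hN : Nodes (gpolQ v) nd) (ν₀ : F → ZMod ℓ)
    (hν₀ : IsVal (IntermediateField.adjoin ℚ (nodes ℚ F (gpolQ v))).toSubfield ν₀)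
    (h0 : ∃ i j, i ≠ j ∧ ν₀ (algebraMap ℚ F (gpolQ v i - gpolQ v j).leadingCoeff) ≠ 0) (N : ℕ) :
    ∃ (q : ℕ) (_ : Fact q.Prime) (ζ : ZMod q) (V : Val14 (ZMod q) ℓ) (nd' : ι → ι → Fin n → ZMod q),
      N < q ∧ IsPrimitiveRoot ζ ℓ ∧ IsArrangement (gpol (fun x => (v x : ZMod q))) ∧
      Nodes (F := ZMod q) (gpol (fun x => (v x : ZMod q))) nd' ∧
      (∀ i j, i ≠ j →
        V.ν (gpol (fun x => (v x : ZMod q)) i - gpol (fun x => (v x : ZMod q)) j).leadingCoeff =
          ν₀ (algebraMap ℚ F (gpolQ v i - gpolQ v j).leadingCoeff)) ∧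
      ∀ i j i' j' a a', i ≠ j → i' ≠ j' → nd i j a ≠ nd i' j' a' →
        V.ν (nd' i j a - nd' i' j' a') = ν₀ (nd i j a - nd i' j' a') := by
  have : Fact ℓ.Prime := ⟨hℓ⟩
  have : NeZero ℓ := ⟨hℓ.ne_zero⟩
  obtain ⟨E, ζ, U, hfin, hζ, hmem, hC1, hC2⟩ := exists_U_val (F := F) hℓ h (by omega) hN ν₀ hν₀
  have : FiniteDimensional ℚ E := hfin
  have : NumberField E := @NumberField.of_module_finite ℚ E _ _ _ E.algebra' hfin
  have : Algebra.IsAlgebraic ℚ F := IsAlgClosure.isAlgebraic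
  have : IsAlgClosure E F := ⟨IsAlgClosure.isAlgClosed ℚ, Algebra.IsAlgebraic.tower_top (K := ℚ) E⟩
  -- the leading coefficients
  have hlead : ∀ i j : ι, i ≠ j → (gpolQ v i - gpolQ v j).leadingCoeff =
      ((v (i, Fin.last n) - v (j, Fin.last n) : ℤ) : ℚ) := by
    intro i j hij
    have h1 := gdif_coeff (fun x => (v x : ℚ)) i j (Fin.last n)
    unfold gdif at h1
    rw [Fin.val_last] at h1
    have h2 : (gpolQ v i - gpolQ v j).coeff n =
        (v (i, Fin.last n) : ℚ) - (v (j, Fin.last n) : ℚ) := h1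
    rw [leadingCoeff, hN.lead i j hij, h2]
    push_cast
    rfl
  have hvne : ∀ i j : ι, i ≠ j → v (i, Fin.last n) - v (j, Fin.last n) ≠ 0 := by
    intro i j hij h0
    have h1 := hlead i j hij
    rw [h0, Int.cast_zero, leadingCoeff_eq_zero] at h1
    have h2 := hN.lead i j hij
    rw [h1, natDegree_zero] at h2
    omega
  -- the elements of `E`
  let nE : ι → ι → Fin n → E := fun i j a => if hij : i ≠ j then ⟨nd i j a, hmem i j hij a⟩ else 0
  have hnE : ∀ i j (hij : i ≠ j) a, nE i j a = ⟨nd i j a, hmem i j hij a⟩ := by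
    intro i j hij a
    exact dif_pos hij
  have hnE' : ∀ i j (_ : i ≠ j) a, algebraMap E F (nE i j a) = nd i j a := by
    intro i j hij a
    rw [hnE i j hij a]
    rfl
  let T : Finset E :=
    (Finset.univ.image fun t : ι × ι × Fin n => nE t.1 t.2.1 t.2.2) ∪
    (Finset.univ.image fun t : (ι × ι × Fin n) × (ι × ι × Fin n) =>
      nE t.1.1 t.1.2.1 t.1.2.2 - nE t.2.1 t.2.2.1 t.2.2.2) ∪
    (Finset.univ.image fun t : ι × ι => ((v (t.1, Fin.last n) - v (t.2, Fin.last n) : ℤ) : E))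
  have hT1 : ∀ i j a, nE i j a ∈ T := fun i j a =>
    Finset.mem_union_left _ (Finset.mem_union_left _
      (Finset.mem_image.2 ⟨(i, j, a), Finset.mem_univ _, rfl⟩))
  have hT2 : ∀ i j a i' j' a', nE i j a - nE i' j' a' ∈ T := fun i j a i' j' a' =>
    Finset.mem_union_left _ (Finset.mem_union_right _
      (Finset.mem_image.2 ⟨((i, j, a), (i', j', a')), Finset.mem_univ _, rfl⟩))
  have hT3 : ∀ i j, ((v (i, Fin.last n) - v (j, Fin.last n) : ℤ) : E) ∈ T := fun i j =>
    Finset.mem_union_right _ (Finset.mem_image.2 ⟨(i, j), Finset.mem_univ _, rfl⟩)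
  have hdne : ∀ i j i' j' (_ : i ≠ j) (_ : i' ≠ j') (a a' : Fin n),
      (({i, j} : Set ι) ≠ {i', j'} ∨ a ≠ a') → nE i j a - nE i' j' a' ≠ 0 := by
    intro i j i' j' hij hij' a a' hor h0
    have h1 : nE i j a = nE i' j' a' := sub_eq_zero.1 h0
    rw [hnE i j hij, hnE i' j' hij'] at h1
    have h2 : nd i j a = nd i' j' a' := congrArg Subtype.val h1
    obtain ⟨h3, h4⟩ := Nodes.ne h hN hij hij' h2
    rcases hor with h5 | h5
    · exact h5 h3
    · exact h5 h4
  -- the Kummer symbols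
  have hk3 : ∀ i j, i ≠ j → Sup.kap ℓ (algebraMap E F ζ) U
      (algebraMap E F ((v (i, Fin.last n) - v (j, Fin.last n) : ℤ) : E)) =
        ν₀ (algebraMap ℚ F (gpolQ v i - gpolQ v j).leadingCoeff) := by
    intro i j hij
    have h1 := hC1 i j hij
    have h2 : algebraMap E F ((v (i, Fin.last n) - v (j, Fin.last n) : ℤ) : E) =
        algebraMap ℚ F (gpolQ v i - gpolQ v j).leadingCoeff := by
      rw [hlead i j hij, map_intCast, map_intCast]
    rw [h2, h1]
  have hk2 : ∀ i j i' j' (_ : i ≠ j) (_ : i' ≠ j') (a a' : Fin n),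
      algebraMap E F (nE i j a - nE i' j' a') = nd i j a - nd i' j' a' := by
    intro i j i' j' hij hij' a a'
    rw [map_sub, hnE' i j hij, hnE' i' j' hij']
  have hfirst : ∃ z ∈ T, z ≠ 0 ∧ Sup.kap ℓ (algebraMap E F ζ) U
      (algebraMap E F z) ≠ 0 := by
    obtain ⟨i, j, hij, hb⟩ := h0
    refine ⟨_, hT3 i j, Int.cast_ne_zero.2 (hvne i j hij), ?_⟩
    rw [hk3 i j hij]
    exact hb
  obtain ⟨q, hq, A, Φ, c, hζA, hNq, hdvd, hc, hprim, hT⟩ :=
    Re.exists_reduction hℓ E F hζ U T hfirst N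
  have hcop : Nat.Coprime c.val ℓ := by
    refine ((Nat.Prime.coprime_iff_not_dvd hℓ).2 ?_).symm
    intro hd
    apply hc
    have h5 : c.val = 0 := Nat.eq_zero_of_dvd_of_lt hd (ZMod.val_lt c)
    exact (ZMod.val_eq_zero c).1 h5
  have hζ' : IsPrimitiveRoot ((Φ ⟨ζ, hζA⟩) ^ c.val) ℓ := hprim.pow_of_coprime c.val hcop
  obtain ⟨V, hV⟩ := Lr.exists_val_zmod hℓ hℓ2 hdvd hζ'
  have hval : ∀ z ∈ T, ∀ hz : z ∈ A, z ≠ 0 → Φ ⟨z, hz⟩ ≠ 0 ∧ V.ν (Φ ⟨z, hz⟩) =
      Sup.kap ℓ (algebraMap E F ζ) U (algebraMap E F z) := by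
    intro z hzT hz hz0
    obtain ⟨hz', hrest⟩ := hT z hzT
    obtain ⟨h0, hpow⟩ := hrest hz0
    refine ⟨h0, hV _ _ h0 ?_⟩
    rw [hpow, ZMod.val_mul, ← pow_mul]
    exact (pow_eq_pow_mod _ hprim.pow_eq_one).symm
  -- the subring of `F`
  have hinj : Function.Injective (algebraMap E F) :=
    (algebraMap E F).injective
  let e := A.equivMapOfInjective (algebraMap E F) hinj
  let A' : Subring F := A.map (algebraMap E F)
  let Φ' : A' →+* ZMod q := Φ.comp (e.symm : A' →+* A)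
  have hmA : ∀ i j a, nE i j a ∈ A := fun i j a => (hT _ (hT1 i j a)).1
  have hA' : ∀ i j, i ≠ j → ∀ a, nd i j a ∈ A' := by
    intro i j hij a
    exact Subring.mem_map.2 ⟨nE i j a, hmA i j a, hnE' i j hij a⟩
  have hΦ' : ∀ i j (hij : i ≠ j) a, Φ' ⟨nd i j a, hA' i j hij a⟩ = Φ ⟨nE i j a, hmA i j a⟩ := by
    intro i j hij a
    have h1 : e ⟨nE i j a, hmA i j a⟩ = ⟨nd i j a, hA' i j hij a⟩ :=
      Subtype.ext (hnE' i j hij a)
    show Φ (e.symm ⟨nd i j a, hA' i j hij a⟩) = _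
    rw [← h1, RingEquiv.symm_apply_apply]
  have hsub : ∀ i j a i' j' a', ∃ hz : nE i j a - nE i' j' a' ∈ A,
      Φ ⟨nE i j a - nE i' j' a', hz⟩ = Φ ⟨nE i j a, hmA i j a⟩ - Φ ⟨nE i' j' a', hmA i' j' a'⟩ := by
    intro i j a i' j' a'
    refine ⟨A.sub_mem (hmA i j a) (hmA i' j' a'), ?_⟩
    rw [← map_sub]
    rfl
  have hlc' : ∀ i j, ∃ hz : ((v (i, Fin.last n) - v (j, Fin.last n) : ℤ) : E) ∈ A,
      Φ ⟨((v (i, Fin.last n) - v (j, Fin.last n) : ℤ) : E), hz⟩ =
        ((v (i, Fin.last n) - v (j, Fin.last n) : ℤ) : ZMod q) := by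
    intro i j
    obtain ⟨hz, -⟩ := hT _ (hT3 i j)
    refine ⟨hz, ?_⟩
    have h5 : (⟨((v (i, Fin.last n) - v (j, Fin.last n) : ℤ) : E), hz⟩ : A) =
        ((v (i, Fin.last n) - v (j, Fin.last n) : ℤ) : A) := Subtype.ext (by push_cast; rfl)
    rw [h5, map_intCast]
  have hlc : ∀ i j, i ≠ j →
      ((v (i, Fin.last n) - v (j, Fin.last n) : ℤ) : ZMod q) ≠ 0 ∧
      V.ν ((v (i, Fin.last n) - v (j, Fin.last n) : ℤ) : ZMod q) =
        ν₀ (algebraMap ℚ F (gpolQ v i - gpolQ v j).leadingCoeff) := by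
    intro i j hij
    obtain ⟨hz, he⟩ := hlc' i j
    obtain ⟨h0, h1⟩ := hval _ (hT3 i j) hz (Int.cast_ne_zero.2 (hvne i j hij))
    rw [he] at h0 h1
    exact ⟨h0, h1.trans (hk3 i j hij)⟩
  have hdif : ∀ i j i' j' (hij : i ≠ j) (hij' : i' ≠ j') (a a' : Fin n),
      (({i, j} : Set ι) ≠ {i', j'} ∨ a ≠ a') →
        Φ' ⟨nd i j a, hA' i j hij a⟩ - Φ' ⟨nd i' j' a', hA' i' j' hij' a'⟩ ≠ 0 ∧
        V.ν (Φ' ⟨nd i j a, hA' i j hij a⟩ - Φ' ⟨nd i' j' a', hA' i' j' hij' a'⟩) =
          Sup.kap ℓ (algebraMap E F ζ) U (nd i j a - nd i' j' a') := by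
    intro i j i' j' hij hij' a a' hor
    obtain ⟨hz, he⟩ := hsub i j a i' j' a'
    obtain ⟨h0, h1⟩ := hval _ (hT2 i j a i' j' a') hz (hdne i j i' j' hij hij' a a' hor)
    rw [he] at h0 h1
    rw [hΦ' i j hij a, hΦ' i' j' hij' a']
    refine ⟨h0, h1.trans ?_⟩
    rw [hk2 i j i' j' hij hij' a a']
  have hd : ∀ i j i' j' (hij : i ≠ j) (hij' : i' ≠ j') (a a' : Fin n),
      (({i, j} : Set ι) ≠ {i', j'} ∨ a ≠ a') →
        Φ' ⟨nd i j a, hA' i j hij a⟩ ≠ Φ' ⟨nd i' j' a', hA' i' j' hij' a'⟩ := by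
    intro i j i' j' hij hij' a a' hor
    exact sub_ne_zero.1 (hdif i j i' j' hij hij' a a' hor).1
  obtain ⟨hArr, hNod⟩ := nodes_reduction (by omega : 1 ≤ n) hN A' Φ' hA'
    (fun i j hij => (hlc i j hij).1) hd
  refine ⟨q, hq, (Φ ⟨ζ, hζA⟩) ^ c.val, V, _, hNq, hζ', hArr, hNod, ?_, ?_⟩
  · intro i j hij
    have h1 : (gpol (fun x => (v x : ZMod q)) i - gpol (fun x => (v x : ZMod q)) j).leadingCoeff =
        ((v (i, Fin.last n) - v (j, Fin.last n) : ℤ) : ZMod q) := by
      have h2 := gdif_coeff (fun x => (v x : ZMod q)) i j (Fin.last n)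
      unfold gdif at h2
      rw [Fin.val_last] at h2
      rw [leadingCoeff, hNod.lead i j hij, h2]
      push_cast
      rfl
    rw [h1]
    exact (hlc i j hij).2
  · intro i j i' j' a a' hij hij' hne
    rw [dif_neg hij, dif_neg hij']
    refine (hdif i j i' j' hij hij' a a' ?_).2.trans (hC2 i j i' j' a a' hij hij' hne)
    by_contra hor
    push Not at hor
    obtain ⟨h3, h4⟩ := hor
    apply hne
    rw [h4]
    rcases Set.pair_eq_pair_iff.mp h3 with ⟨rfl, rfl⟩ | ⟨rfl, rfl⟩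
    · rfl
    · exact hN.symm _ _ _

end Pool.Agent.Lib.MP_89bcae_ag

end
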