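import Mathlib
import Pool.Agent.Lib.MP_89bcae_ag.DefsS8
import Pool.Agent.Lib.MP_89bcae_ag.Mk.K032
import Pool.Agent.Lib.MP_89bcae_ag.Mk.K033
import Pool.Agent.Lib.MP_89bcae_ag.Mk.K053
import Pool.Agent.Lib.MP_89bcae_ag.Mk.K054

namespace Pool.Agent.Lib.MP_89bcae_ag.Superelliptic
end Pool.Agent.Lib.MP_89bcae_ag.Superelliptic

section

/-!
# Monotonicity of density one
-/

open Filter Topology

open scoped Classical

namespace Pool.Agent.Lib.MP_89bcae_ag

/-- Monotonicity of density one. -/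
theorem density_mono8 {κ : Type} [Fintype κ] (N : ℕ) (hN : Fintype.card κ = N)
    {P Q : (κ → ℤ) → Prop} (hPQ : ∀ v, P v → Q v)
    (h : Tendsto (fun H : ℕ => ({v : κ → ℤ | (∀ i, |v i| ≤ H) ∧ P v}.ncard : ℝ) /
      (2 * H + 1) ^ N) atTop (𝓝 1)) :
    Tendsto (fun H : ℕ => ({v : κ → ℤ | (∀ i, |v i| ≤ H) ∧ Q v}.ncard : ℝ) /
      (2 * H + 1) ^ N) atTop (𝓝 1) := by
  have hbox : ∀ H : ℕ, {v : κ → ℤ | ∀ i, |v i| ≤ H} =
      ((Fintype.piFinset fun _ : κ => Finset.Icc (-(H : ℤ)) H : Finset (κ → ℤ)) :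
        Set (κ → ℤ)) := by
    intro H
    ext v
    rw [Finset.mem_coe, Fintype.mem_piFinset]
    refine forall_congr' fun i => ?_
    rw [Finset.mem_Icc]
    exact abs_le
  have hfin : ∀ (H : ℕ) (R : (κ → ℤ) → Prop), ({v : κ → ℤ | (∀ i, |v i| ≤ H) ∧ R v}).Finite := by
    intro H R
    refine Set.Finite.subset (Finset.finite_toSet
      (Fintype.piFinset fun _ : κ => Finset.Icc (-(H : ℤ)) H)) ?_
    rw [← hbox]
    exact fun v hv => hv.1
  have hcard : ∀ H : ℕ, ({v : κ → ℤ | ∀ i, |v i| ≤ H}).ncard = (2 * H + 1) ^ N := by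
    intro H
    rw [hbox, Set.ncard_coe_finset, Fintype.card_piFinset]
    rw [Finset.prod_const, Finset.card_univ, hN, Int.card_Icc]
    congr 1
    omega
  refine tendsto_of_tendsto_of_tendsto_of_le_of_le h tendsto_const_nhds (fun H => ?_) fun H => ?_
  · have hpos : (0 : ℝ) < (2 * (H : ℝ) + 1) ^ N := by positivity
    rw [div_le_div_iff_of_pos_right hpos]
    have h1 : ({v : κ → ℤ | (∀ i, |v i| ≤ H) ∧ P v}).ncard ≤
        ({v : κ → ℤ | (∀ i, |v i| ≤ H) ∧ Q v}).ncard :=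
      Set.ncard_le_ncard (fun v (hv : (∀ i, |v i| ≤ H) ∧ P v) => ⟨hv.1, hPQ v hv.2⟩) (hfin H Q)
    exact_mod_cast h1
  · have hpos : (0 : ℝ) < (2 * (H : ℝ) + 1) ^ N := by positivity
    rw [div_le_one hpos]
    have h1 : ({v : κ → ℤ | (∀ i, |v i| ≤ H) ∧ Q v}).ncard ≤
        ({v : κ → ℤ | ∀ i, |v i| ≤ H}).ncard := by
      refine Set.ncard_le_ncard (fun v hv => hv.1) ?_
      rw [hbox]
      exact Finset.finite_toSet _
    rw [hcard] at h1
    exact_mod_cast h1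

end Pool.Agent.Lib.MP_89bcae_ag

end

section

/-!
# Almost all families satisfy the conditions at the primes
-/

open Polynomial Filter Topology

open scoped Classical

namespace Pool.Agent.Lib.MP_89bcae_ag

variable {ι : Type} [Fintype ι] {n : ℕ}

/-- The condition `P` has density one. -/
def Dens1_h45 (P : (ι × Fin (n + 1) → ℤ) → Prop) : Prop :=
  Tendsto (fun H : ℕ => ({v : ι × Fin (n + 1) → ℤ | (∀ i, |v i| ≤ H) ∧ ¬ P v}.ncard : ℝ) /
    (2 * H + 1) ^ Fintype.card (ι × Fin (n + 1))) atTop (𝓝 0)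

lemma compl_h45 (P : (ι × Fin (n + 1) → ℤ) → Prop) (H : ℕ) :
    ({v : ι × Fin (n + 1) → ℤ | (∀ i, |v i| ≤ H) ∧ P v}.ncard : ℝ) /
        (2 * H + 1) ^ Fintype.card (ι × Fin (n + 1)) =
      1 - ({v : ι × Fin (n + 1) → ℤ | (∀ i, |v i| ≤ H) ∧ ¬ P v}.ncard : ℝ) /
        (2 * H + 1) ^ Fintype.card (ι × Fin (n + 1)) := by
  obtain ⟨h1, h2⟩ := box_ncard_h15 (κ := ι × Fin (n + 1)) H
  have h3 : {v : ι × Fin (n + 1) → ℤ | ∀ i, |v i| ≤ H} =
      {v : ι × Fin (n + 1) → ℤ | (∀ i, |v i| ≤ H) ∧ P v} ∪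
      {v : ι × Fin (n + 1) → ℤ | (∀ i, |v i| ≤ H) ∧ ¬ P v} := by
    ext v
    simp only [Set.mem_ofPred_eq, Set.mem_union]
    tauto
  have h4 : Disjoint {v : ι × Fin (n + 1) → ℤ | (∀ i, |v i| ≤ H) ∧ P v}
      {v : ι × Fin (n + 1) → ℤ | (∀ i, |v i| ≤ H) ∧ ¬ P v} := by
    rw [Set.disjoint_left]
    rintro v ⟨_, h5⟩ ⟨_, h6⟩
    exact h6 h5
  have h5 := Set.ncard_union_eq h4 (h1.subset fun v hv => hv.1) (h1.subset fun v hv => hv.1)
  rw [← h3] at h5
  have h6 : (({v : ι × Fin (n + 1) → ℤ | ∀ i, |v i| ≤ H}).ncard : ℝ) =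
      ({v : ι × Fin (n + 1) → ℤ | (∀ i, |v i| ≤ H) ∧ P v}.ncard : ℝ) +
      ({v : ι × Fin (n + 1) → ℤ | (∀ i, |v i| ≤ H) ∧ ¬ P v}.ncard : ℝ) := by
    exact_mod_cast h5
  rw [h2] at h6
  have h7 : (0 : ℝ) < (2 * H + 1) ^ Fintype.card (ι × Fin (n + 1)) := by positivity
  rw [eq_sub_iff_add_eq, ← add_div, ← h6, div_self h7.ne']

lemma dens1_iff_h45 (P : (ι × Fin (n + 1) → ℤ) → Prop) : Dens1_h45 P ↔
    Tendsto (fun H : ℕ => ({v : ι × Fin (n + 1) → ℤ | (∀ i, |v i| ≤ H) ∧ P v}.ncard : ℝ) /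
      (2 * H + 1) ^ Fintype.card (ι × Fin (n + 1))) atTop (𝓝 1) := by
  unfold Dens1_h45
  constructor
  · intro h
    have h1 := h.const_sub 1
    rw [sub_zero] at h1
    exact h1.congr fun H => (compl_h45 P H).symm
  · intro h
    have h1 := h.const_sub 1
    rw [sub_self] at h1
    refine h1.congr fun H => ?_
    rw [compl_h45 P H, sub_sub_cancel]

lemma Dens1_h45.and {P Q : (ι × Fin (n + 1) → ℤ) → Prop} (hP : Dens1_h45 P) (hQ : Dens1_h45 Q) :
    Dens1_h45 (fun v => P v ∧ Q v) := by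
  have h1 := hP.add hQ
  rw [add_zero] at h1
  refine squeeze_zero (fun H => by positivity) (fun H => ?_) h1
  rw [← add_div]
  refine div_le_div_of_nonneg_right ?_ (by positivity)
  have hfin : ∀ P : (ι × Fin (n + 1) → ℤ) → Prop,
      ({v : ι × Fin (n + 1) → ℤ | (∀ i, |v i| ≤ H) ∧ ¬ P v}).Finite := fun P =>
    (box_ncard_h15 H).1.subset fun v hv => hv.1
  have h2 : {v : ι × Fin (n + 1) → ℤ | (∀ i, |v i| ≤ H) ∧ ¬ (P v ∧ Q v)} ⊆
      {v : ι × Fin (n + 1) → ℤ | (∀ i, |v i| ≤ H) ∧ ¬ P v} ∪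
      {v : ι × Fin (n + 1) → ℤ | (∀ i, |v i| ≤ H) ∧ ¬ Q v} := by
    rintro v ⟨h3, h4⟩
    by_cases h5 : P v
    · exact Or.inr ⟨h3, fun h6 => h4 ⟨h5, h6⟩⟩
    · exact Or.inl ⟨h3, h5⟩
  exact_mod_cast (Set.ncard_le_ncard h2 ((hfin P).union (hfin Q))).trans (Set.ncard_union_le _ _)

lemma Dens1_h45.true : Dens1_h45 (fun _ : ι × Fin (n + 1) → ℤ => True) := by
  have h : ∀ H : ℕ, ({v : ι × Fin (n + 1) → ℤ | (∀ i, |v i| ≤ H) ∧ ¬ True}.ncard : ℝ) /
      (2 * H + 1) ^ Fintype.card (ι × Fin (n + 1)) = 0 := by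
    intro H
    simp
  unfold Dens1_h45
  simp_rw [h]
  exact tendsto_const_nhds

lemma Dens1_h45.mono {P Q : (ι × Fin (n + 1) → ℤ) → Prop} (hP : Dens1_h45 P)
    (h : ∀ v, P v → Q v) : Dens1_h45 Q := by
  refine squeeze_zero (fun H => by positivity) (fun H => ?_) hP
  refine div_le_div_of_nonneg_right ?_ (by positivity)
  have h2 : {v : ι × Fin (n + 1) → ℤ | (∀ i, |v i| ≤ H) ∧ ¬ Q v} ⊆
      {v : ι × Fin (n + 1) → ℤ | (∀ i, |v i| ≤ H) ∧ ¬ P v} :=
    fun v hv => ⟨hv.1, fun h1 => hv.2 (h v h1)⟩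
  exact_mod_cast Set.ncard_le_ncard h2 ((box_ncard_h15 H).1.subset fun v hv => hv.1)

lemma Dens1_h45.all {T : Type} [Finite T] {P : T → (ι × Fin (n + 1) → ℤ) → Prop}
    (h : ∀ t, Dens1_h45 (P t)) : Dens1_h45 (fun v => ∀ t, P t v) := by
  have := Fintype.ofFinite T
  have key : ∀ S : Finset T, Dens1_h45 (fun v => ∀ t ∈ S, P t v) := by
    intro S
    induction S using Finset.induction_on with
    | empty => exact Dens1_h45.true.mono fun v _ t ht => absurd ht (Finset.notMem_empty t)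
    | insert a S ha ih =>
      refine ((h a).and ih).mono fun v hv t ht => ?_
      rcases Finset.mem_insert.1 ht with rfl | ht
      · exact hv.1
      · exact hv.2 t ht
  exact (key Finset.univ).mono fun v hv t => hv t (Finset.mem_univ t)

/-- One condition at the primes modulo `p ^ 2`. -/
lemma dens1_of_count_h45 (D : ∀ p : ℕ, Set (ι × Fin (n + 1) → ZMod (p ^ 2))) (P₀ : ℕ)
    (hD : ∀ p : ℕ, p.Prime → P₀ ≤ p →
      (1 / 4 : ℝ) / p * ((p ^ 2 : ℕ) : ℝ) ^ Fintype.card (ι × Fin (n + 1)) ≤ (D p).ncard)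
    (P : (ι × Fin (n + 1) → ℤ) → Prop)
    (hP : ∀ v, ∀ p : ℕ, p.Prime → P₀ ≤ p → (fun c => (v c : ZMod (p ^ 2))) ∈ D p → P v) :
    Dens1_h45 P := by
  let e : ι × Fin (n + 1) ≃ Fin (Fintype.card (ι × Fin (n + 1))) := Fintype.equivFin _
  have h1 := density_prime e (fun p => p ^ 2) (fun p _ => Or.inr rfl)
    (fun p => {w | w ∈ D p ∧ P₀ ≤ p}) P₀ (1 / 4) (by norm_num) (fun p hp hpP => by
      have h2 : {w | w ∈ D p ∧ P₀ ≤ p} = D p := by
        ext w
        exact ⟨fun h => h.1, fun h => ⟨h, hpP⟩⟩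
      change _ ≤ (({w | w ∈ D p ∧ P₀ ≤ p} : Set (ι × Fin (n + 1) → ZMod (p ^ 2))).ncard : ℝ)
      rw [h2]
      exact hD p hp hpP) P (fun v p hp hv => hP v p hp hv.2 hv.1)
  refine h1.congr fun H => ?_
  rw [density_transfer_h15 e P H]

/-- **Almost all families satisfy all the conditions.** -/
theorem density_goodH (hn : 2 ≤ n) :
    Tendsto (fun H : ℕ => ({v : ι × Fin (n + 1) → ℤ | (∀ i, |v i| ≤ H) ∧ GoodH v}.ncard : ℝ) /
      (2 * H + 1) ^ Fintype.card (ι × Fin (n + 1))) atTop (𝓝 1) := by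
  rw [← dens1_iff_h45]
  have h1 : Dens1_h45 (GoodG (ι := ι) (n := n)) := (dens1_iff_h45 _).2 (density_goodG hn)
  have h2 : Dens1_h45 (fun v : ι × Fin (n + 1) → ℤ => ∀ t : ι × ι, t.1 ≠ t.2 →
      ∃ p : ℕ, p.Prime ∧ p ≠ 2 ∧ TypeD p t.1 t.2 v) := by
    apply Dens1_h45.all
    rintro ⟨a, b⟩
    by_cases hab : a = b
    · exact Dens1_h45.true.mono fun v _ h => absurd hab h
    · obtain ⟨P₀, h⟩ := count_typeD (ι := ι) (n := n) hn hab
      refine (dens1_of_count_h45 (fun p => {w | TypeDz p a b w}) (max P₀ 3)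
        (fun p hp hpP => h p hp ((le_max_left _ _).trans hpP)) (fun v => ∃ p : ℕ, p.Prime ∧ p ≠ 2 ∧
          TypeD p a b v) (fun v p hp hpP hv => ⟨p, hp, ?_, TypeD.of_z hp hv⟩)).mono
          fun v hv _ => hv
      have := (le_max_right _ _).trans hpP
      omega
  have h3 : Dens1_h45 (fun v : ι × Fin (n + 1) → ℤ => ∀ t : ι × ι, t.1 ≠ t.2 →
      ∃ p : ℕ, p.Prime ∧ TypeK p t.1 t.2 v) := by
    apply Dens1_h45.all
    rintro ⟨a, b⟩
    by_cases hab : a = b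
    · exact Dens1_h45.true.mono fun v _ h => absurd hab h
    · obtain ⟨P₀, h⟩ := count_typeK (ι := ι) (n := n) hn hab
      exact (dens1_of_count_h45 (fun p => {w | TypeKz p a b w}) P₀ h (fun v => ∃ p : ℕ, p.Prime ∧
          TypeK p a b v) (fun v p hp hpP hv => ⟨p, hp, TypeK.of_z hv⟩)).mono fun v hv _ => hv
  refine ((h1.and h2).and h3).mono fun v hv => ?_
  exact ⟨hv.1.1, fun a b hab => hv.1.2 (a, b) hab, fun a b hab => hv.2 (a, b) hab⟩

end Pool.Agent.Lib.MP_89bcae_ag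

end

section

/-!
# Finite fields without Tate classes
-/

open Polynomial

open scoped Classical

set_option linter.unusedSectionVars false

set_option linter.style.haveILetI false

namespace Pool.Agent.Lib.MP_89bcae_ag

open Superelliptic

variable {ι : Type} {n : ℕ}

/-- Restriction to a set of indices. (`GoodG.restrict` and the same for the types D and K; `gred` of the
restriction is `gred` by definition; `coe_pair_ne_h30`.) -/
theorem GoodH.restrict {v : ι × Fin (n + 1) → ℤ} (h : GoodH v) (I : Finset ι) :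
    GoodH (fun x : I × Fin (n + 1) => v (x.1, x.2)) := by
  have hc : ∀ {a b : I}, a ≠ b → (a : ι) ≠ (b : ι) := fun hab hcon => hab (Subtype.ext hcon)
  refine ⟨h.good.restrict I, ?_, ?_⟩
  · intro a b hab
    obtain ⟨p, hp, hp2, hD⟩ := h.typeD a b (hc hab)
    refine ⟨p, hp, hp2, ⟨?_, ?_, ?_, hD.dbl⟩⟩
    · intro c d hcd
      exact hD.lead c d (hc hcd)
    · intro c d hcd hne
      exact hD.sep c d (hc hcd) (coe_pair_ne_h30 hne)
    · intro a' b' c d hab' hcd hne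
      exact hD.cop a' b' c d (hc hab') (hc hcd) (coe_pair_ne_h30 hne)
  · intro a b hab
    obtain ⟨p, hp, hK⟩ := h.typeK a b (hc hab)
    refine ⟨p, hp, ⟨?_, hK.dvd, hK.ndvd, hK.deg, ?_, ?_⟩⟩
    · intro c d hcd hne
      exact hK.lead c d (hc hcd) (coe_pair_ne_h30 hne)
    · intro c d hcd
      exact hK.sep c d (hc hcd)
    · intro a' b' c d hab' hcd hne
      exact hK.cop a' b' c d (hc hab') (hc hcd) (coe_pair_ne_h30 hne)

variable [Fintype ι] [LinearOrder ι]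

/-- **Finite fields without Tate classes.** Proof: let `v' x = v (x.1, x.2)` on `I × Fin (n + 1)`
(`GoodH.restrict`). `Lr.exists_good` for the type `I`, `S = Finset.univ` and the weights `W` gives `c, g` with
`GoodT` and `GoodR`; put `B T = c T - ∑ i ∈ T, g i`; `Lr.GoodT.exists_ne_gauge` gives `hB`;
`exists_prime_graphs` for `v'`, `B` and the bound `max N ℓ` gives `q, ζ, V, nd`. The family
`Graph.polyFamily (ZMod q) v i` (`i : I`) is `gpol (fun x => (v' x : ZMod q)) i` by definition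
(`unfold`/`rfl`). `IsArrangement` is part of `exists_prime_graphs`. For `F, L, Ω, k'`:
`indepW_of_copyV_base`, then `Wt.Lns.arrangementW` (`(ℓ : ZMod q) ≠ 0` because `0 < ℓ < q`) and
`tateClassesTorsionN8`. -/
theorem exists_prime_hasNoTateClasses_graph {ℓ : ℕ} (hℓ : ℓ.Prime) (hℓ2 : ℓ ≠ 2)
    {v : ι × Fin (n + 1) → ℤ} (hv : GoodH v) (hn : 2 ≤ n) {I : Finset ι} (hI : 4 ≤ I.card)
    (W : I → ℕ) (hW : ∀ i, (W i).Coprime ℓ) (hs : (∑ i, W i).Coprime ℓ) (N : ℕ) :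
    ∃ (q : ℕ) (_ : Fact q.Prime), N < q ∧ Graph.HasNoTateClasses ℓ (ZMod q) v I W := by
  haveI : Fact ℓ.Prime := ⟨hℓ⟩
  have hcop : ∀ m : ℕ, m.Coprime ℓ → (m : ZMod ℓ) ≠ 0 := by
    intro m hm h0
    rw [ZMod.natCast_eq_zero_iff] at h0
    exact hℓ.one_lt.ne' (Nat.eq_one_of_dvd_coprimes hm h0 dvd_rfl)
  have hcard : (Finset.univ : Finset I).card = I.card := by
    rw [Finset.card_univ, Fintype.card_coe]
  obtain ⟨c, g, hT, hR⟩ := Lr.exists_good (ι := I) (ℓ := ℓ) hℓ2 (w := fun i => (W i : ZMod ℓ))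
    Finset.univ (by rw [hcard]; exact hI) (fun i _ => hcop _ (hW i))
    (by
      have h := hcop _ hs
      rw [Nat.cast_sum] at h
      exact h)
  have hB := Lr.GoodT.exists_ne_gauge hT g (by rw [Fintype.card_coe]; omega)
  obtain ⟨q, hq, ζ, V, nd, hNq, hζ, hα, hN, hV⟩ :=
    exists_prime_graphs (hv.restrict I) hn hℓ hℓ2 (fun T => c T - ∑ i ∈ T, g i) hB (max N ℓ)
  have hℓq : ℓ < q := (le_max_right N ℓ).trans_lt hNq
  have hℓ0 : ((ℓ : ℕ) : ZMod q) ≠ 0 := by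
    intro h0
    rw [ZMod.natCast_eq_zero_iff] at h0
    exact absurd (Nat.le_of_dvd hℓ.pos h0) (not_le.mpr hℓq)
  refine ⟨q, hq, (le_max_left N ℓ).trans_lt hNq, hα, ?_⟩
  intro F L Ω _ _ _ _ _ _ _ _ _ k' hk'
  haveI := hk'
  exact tateClassesTorsionN8 (Wt.Lns.arrangementW F L Ω hℓ hℓ0 hζ W hW hs _ hα
    (indepW_of_copyV_base hℓ V _ hα W hW nd hN c g hV hT hR F) k')

end Pool.Agent.Lib.MP_89bcae_ag

end

section

/-!
# Three graphs: finite fields without Tate classes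
-/

open Polynomial

open scoped Classical

namespace Pool.Agent.Lib.MP_89bcae_ag

open Superelliptic

variable {ι : Type} {n : ℕ}

theorem ne_zero_of_coprime_h8 {ℓ : ℕ} (hℓ : ℓ.Prime) {m : ℕ} (hm : m.Coprime ℓ) :
    (m : ZMod ℓ) ≠ 0 := by
  intro h0
  rw [ZMod.natCast_eq_zero_iff] at h0
  exact hℓ.one_lt.ne' (Nat.eq_one_of_dvd_coprimes hm h0 dvd_rfl)

/-- **Finite fields without Tate classes, three graphs.** -/
theorem exists_prime_hasNoTateClasses_graph3 [Fintype ι] [LinearOrder ι] {ℓ : ℕ} (hℓ : ℓ.Prime)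
    (hℓ2 : ℓ ≠ 2) {v : ι × Fin (n + 1) → ℤ} (hv : GoodH v) (hn : 2 ≤ n) {I : Finset ι}
    (hI : I.card = 3) (W : I → ℕ) (hW : ∀ i, (W i).Coprime ℓ) (hs : (∑ i, W i).Coprime ℓ) (N : ℕ) :
    ∃ (q : ℕ) (_ : Fact q.Prime), N < q ∧ Graph.HasNoTateClasses ℓ (ZMod q) v I W := by
  haveI : Fact ℓ.Prime := ⟨hℓ⟩
  obtain ⟨F, _, _, _⟩ : ∃ (F : Type) (_ : Field F) (_ : Algebra ℚ F), IsAlgClosure ℚ F := by
    let _ : Algebra ℚ (AlgebraicClosure ℚ) := AlgebraicClosure.instAlgebra ℚ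
    exact ⟨AlgebraicClosure ℚ, inferInstance, AlgebraicClosure.instAlgebra ℚ, inferInstance⟩
  have hvI := hv.restrict I
  obtain ⟨β, c, δ, hδ, hG, i₀, j₀, hij₀, hβ⟩ := Tri.exists_goodW (ι := I) hℓ2
    (by rw [Fintype.card_coe]; exact hI) (w := fun i => (W i : ZMod ℓ))
    (fun i => ne_zero_of_coprime_h8 hℓ (hW i))
    (by
      have h := ne_zero_of_coprime_h8 hℓ hs
      rw [Nat.cast_sum] at h
      exact h) hn
  obtain ⟨nd, hN⟩ := exists_nodes (F := F) hvI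
  obtain ⟨ν, hν, hC⟩ := copyW_all hℓ hvI hn hN β c δ hδ
  obtain ⟨q, hq, ζ, V, nd', hNq, hζ, hα, hN', hV1, hV2⟩ :=
    exists_prime_val hvI hn hℓ hℓ2 hN ν hν ⟨i₀, j₀, hij₀, by rw [hC.lead i₀ j₀ hij₀]; exact hβ⟩
      (max N ℓ)
  have hℓq : ℓ < q := (le_max_right N ℓ).trans_lt hNq
  have hℓ0 : ((ℓ : ℕ) : ZMod q) ≠ 0 := by
    intro h0
    rw [ZMod.natCast_eq_zero_iff] at h0
    exact absurd (Nat.le_of_dvd hℓ.pos h0) (not_le.mpr hℓq)
  have hne : ∀ i j l : I, i ≠ j → j ≠ l → i ≠ l → ∀ a b, nd i j a ≠ nd i l b := by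
    intro i j l hij hjl hil a b he
    rcases Set.pair_eq_pair_iff.mp (Nodes.ne hvI hN hij hil he).1 with ⟨-, h2⟩ | ⟨h1, -⟩
    · exact hjl h2
    · exact hil h1
  have hCV : CopyW V.ν (gpol (fun x : I × Fin (n + 1) => (v (x.1, x.2) : ZMod q))) nd' β c δ := by
    refine ⟨fun i j hij => ?_, fun i j hij a b hab => ?_, fun i j l hij hjl hil a b => ?_⟩
    · rw [Algebra.algebraMap_self, RingHom.id_apply]
      exact (hV1 i j hij).trans (hC.lead i j hij)
    · exact (hV2 i j i j a b hij hij fun he => hab (hN.inj i j hij he)).trans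
        (hC.par i j hij a b hab)
    · exact (hV2 i j i l a b hij hil (hne i j l hij hjl hil a b)).trans
        (hC.adj i j l hij hjl hil a b)
  refine ⟨q, hq, (le_max_left N ℓ).trans_lt hNq, hα, ?_⟩
  intro F' L Ω _ _ _ _ _ _ _ _ _ k' hk'
  haveI := hk'
  exact tateClassesTorsionN8 (Wt.Lns.arrangementW F' L Ω hℓ hℓ0 hζ W hW hs _ hα
    (indepW_of_copyW_base hℓ V _ hα W hW nd' hN' β c δ hCV hG F') k')

end Pool.Agent.Lib.MP_89bcae_ag

end

section

/-!
# Three graphs: the criterion over the cyclotomic field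
-/

open Polynomial

open scoped Classical

namespace Pool.Agent.Lib.MP_89bcae_ag

open Superelliptic

variable {ι : Type} [Fintype ι] [LinearOrder ι] {n : ℕ}

theorem graphIndepW3 {ℓ : ℕ} (hℓ : ℓ.Prime) (hℓ2 : ℓ ≠ 2) {v : ι × Fin (n + 1) → ℤ}
    (hv : GoodH v) (hn : 2 ≤ n) (hι : Fintype.card ι = 3)
    (W : ι → ℕ) (hW : ∀ i, (W i).Coprime ℓ) (hs : (∑ i, W i).Coprime ℓ)
    (K F : Type) [Field K] [Algebra ℚ K] [IsCyclotomicExtension {ℓ} ℚ K] [Field F] [Algebra ℚ F]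
    [IsAlgClosure ℚ F] [Algebra K F] [IsScalarTower ℚ K F] :
    IsArrangement (fun i => (gpolQ v i).map (algebraMap ℚ K)) ∧
      ArrangementIndependentW ℓ K F W (fun i => (gpolQ v i).map (algebraMap ℚ K)) := by
  haveI : Fact ℓ.Prime := ⟨hℓ⟩
  have : IsAlgClosed F := IsAlgClosure.isAlgClosed ℚ
  have hFA : Algebra.IsAlgebraic ℚ F := IsAlgClosure.isAlgebraic
  have hn0 : n ≠ 0 := by omega
  have harr := hv.good.isArrangement hn0 K
  refine ⟨harr, ?_⟩
  have hnodes : nodes K F (fun i => (gpolQ v i).map (algebraMap ℚ K)) = nodes ℚ F (gpolQ v) := by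
    unfold nodes
    simp only [aeval_map_algebraMap]
  have hfin : (nodes ℚ F (gpolQ v)).Finite := by
    apply nodes_gpolQ_finite
    intro a b hab hEq
    have h1 := hv.good.natDegree hab
    rw [hEq, sub_self, natDegree_zero] at h1
    exact hn0 h1.symm
  obtain ⟨β, c, δ, hδ, hG, -⟩ := Tri.exists_goodW (ι := ι) hℓ2 hι (w := fun i => (W i : ZMod ℓ))
    (fun i => ne_zero_of_coprime_h8 hℓ (hW i))
    (by
      have h := ne_zero_of_coprime_h8 hℓ hs
      rw [Nat.cast_sum] at h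
      exact h) hn
  obtain ⟨nd, hN⟩ := exists_nodes (F := F) hv
  obtain ⟨ν₀, hν₀, hC⟩ := copyW_all hℓ hv hn hN β c δ hδ
  obtain ⟨ν, hν, hνe⟩ := exists_extend_val hℓ K F (nodes ℚ F (gpolQ v)) hfin
    (fun s _ => (hFA.isAlgebraic s).isIntegral) ν₀ hν₀
  have hmem : ∀ i j, i ≠ j → ∀ a, nd i j a ∈ IntermediateField.adjoin ℚ (nodes ℚ F (gpolQ v)) :=
    fun i j hij a => IntermediateField.subset_adjoin ℚ _ ⟨i, j, hij, (hN.mem i j hij _).2 ⟨a, rfl⟩⟩
  have hmap : ∀ i j, (gpolQ v i).map (algebraMap ℚ K) - (gpolQ v j).map (algebraMap ℚ K) =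
      (gpolQ v i - gpolQ v j).map (algebraMap ℚ K) := fun i j => (Polynomial.map_sub _).symm
  have hN' : Nodes (F := F) (fun i => (gpolQ v i).map (algebraMap ℚ K)) nd := by
    refine ⟨hN.symm, hN.inj, fun i j hij s => ?_, fun i j hij => ?_⟩
    · rw [aeval_map_algebraMap, aeval_map_algebraMap]
      exact hN.mem i j hij s
    · show ((gpolQ v i).map (algebraMap ℚ K) - (gpolQ v j).map (algebraMap ℚ K)).natDegree = n
      rw [hmap, natDegree_map]
      exact hN.lead i j hij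
  have hC' : CopyW ν (fun i => (gpolQ v i).map (algebraMap ℚ K)) nd β c δ := by
    refine ⟨fun i j hij => ?_, fun i j hij a b hab => ?_, fun i j l hij hjl hil a b => ?_⟩
    · show ν (algebraMap K F
        ((gpolQ v i).map (algebraMap ℚ K) - (gpolQ v j).map (algebraMap ℚ K)).leadingCoeff) = _
      rw [hmap, leadingCoeff_map, ← IsScalarTower.algebraMap_apply ℚ K F,
        hνe _ ((IntermediateField.adjoin ℚ (nodes ℚ F (gpolQ v))).algebraMap_mem _)]
      exact hC.lead i j hij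
    · rw [hνe _ (sub_mem (hmem i j hij a) (hmem i j hij b))]
      exact hC.par i j hij a b hab
    · rw [hνe _ (sub_mem (hmem i j hij a) (hmem i l hil b))]
      exact hC.adj i j l hij hjl hil a b
  refine indepW_of_copyW hℓ _ harr W hW ν ?_ nd hN' β c δ hC' hG
  rw [hnodes]
  exact hν

end Pool.Agent.Lib.MP_89bcae_ag

end

section

/-!
# The density one theorem for graphs of polynomials, with finite fields
-/

open Polynomial Filter Topology

open scoped Classical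

set_option linter.unusedVariables false
set_option linter.style.haveILetI false

namespace Pool.Agent.Lib.MP_89bcae_ag

open Superelliptic

/-- The property over `ℚ`, from the criterion over the cyclotomic field. -/
theorem hasNoTateClasses_rat_of {m n : ℕ} {v : Fin m × Fin (n + 1) → ℤ} (hv : GoodG v)
    (hn0 : n ≠ 0) {ℓ : ℕ} (hℓ : ℓ.Prime) {I : Finset (Fin m)} (W : I → ℕ)
    (hW : ∀ i, (W i).Coprime ℓ) (hs : (∑ i, W i).Coprime ℓ)
    (h : ∀ (K F : Type) [Field K] [Algebra ℚ K] [IsCyclotomicExtension {ℓ} ℚ K] [Field F]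
      [Algebra ℚ F] [IsAlgClosure ℚ F] [Algebra K F] [IsScalarTower ℚ K F],
      IsArrangement (fun i =>
        (gpolQ (fun x : I × Fin (n + 1) => v (x.1, x.2)) i).map (algebraMap ℚ K)) ∧
      ArrangementIndependentW ℓ K F W (fun i =>
        (gpolQ (fun x : I × Fin (n + 1) => v (x.1, x.2)) i).map (algebraMap ℚ K))) :
    Graph.HasNoTateClasses ℓ ℚ v I W := by
  have key : (fun i : I => Graph.polyFamily ℚ v i) =
      fun i : I => (gpolQ (fun x : I × Fin (n + 1) => v (x.1, x.2)) i).map (algebraMap ℚ ℚ) := by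
    funext i
    rw [Algebra.algebraMap_self, Polynomial.map_id]
    rfl
  have key' : (fun i : I => Graph.polyFamily ℚ v i) =
      gpolQ (fun x : I × Fin (n + 1) => v (x.1, x.2)) := rfl
  refine ⟨?_, ?_⟩
  · rw [key]
    exact (hv.restrict I).isArrangement hn0 ℚ
  · intro F L Ω _ _ _ _ _ _ _ _ _ k' hk'
    have hF : IsAlgClosed F := IsAlgClosure.isAlgClosed ℚ
    haveI : NeZero ℓ := ⟨hℓ.ne_zero⟩
    let K := CyclotomicField ℓ ℚ
    letI : Algebra ℚ K := CyclotomicField.algebra ℓ ℚ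
    haveI : IsCyclotomicExtension {ℓ} ℚ K := inferInstance
    haveI hfin : FiniteDimensional ℚ K := IsCyclotomicExtension.finiteDimensional {ℓ} ℚ K
    let e : K →ₐ[ℚ] F := IsAlgClosed.lift
    letI : Algebra K F := e.toRingHom.toAlgebra
    haveI : IsScalarTower ℚ K F := IsScalarTower.of_algebraMap_eq fun x => (e.commutes x).symm
    obtain ⟨h1, h2⟩ := h K F
    rw [key']
    exact tateClassesTorsionN8 (Wt.tateClassesTorsionW_of_cyclotomic45 hℓ F L Ω K W _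
      (fun hcl h0 ζ hζ K' hK' => by
        haveI := hcl
        haveI := hK'
        exact Wt.Lns.arrangementW F L Ω hℓ h0 hζ W hW hs _ h1 h2 K') k' hk')

/-- The property over `ℚ`. -/
theorem hasNoTateClasses_rat8 {m n : ℕ} {v : Fin m × Fin (n + 1) → ℤ} (hv : GoodH v)
    (hn : 2 ≤ n) {ℓ : ℕ} (hℓ : ℓ.Prime) {I : Finset (Fin m)} (hI : 3 ≤ I.card)
    (hI2 : ℓ = 2 → n = 2 → 4 ≤ I.card) (W : I → ℕ) (hW : ∀ i, (W i).Coprime ℓ)
    (hs : (∑ i, W i).Coprime ℓ) : Graph.HasNoTateClasses ℓ ℚ v I W := by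
  refine hasNoTateClasses_rat_of hv.good (by omega) hℓ W hW hs ?_
  intro K F _ _ _ _ _ _ _ _
  by_cases hc : (3 ≤ n ∧ 3 ≤ I.card) ∨ (2 ≤ n ∧ 4 ≤ I.card)
  · exact graphIndepW hℓ (hv.good.restrict I) (by rw [Fintype.card_coe]; exact hc) W hW K F
  · exact graphIndepW3 hℓ (fun h2 => hc (Or.inr ⟨hn, hI2 h2 (by omega)⟩)) (hv.restrict I) hn
      (by rw [Fintype.card_coe]; omega) W hW hs K F

/-- **The density one theorem.** -/
theorem graphCoversR8 (m n : ℕ) (hn : 2 ≤ n) :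
    Tendsto (fun H : ℕ => ({v : Fin m × Fin (n + 1) → ℤ | (∀ i, |v i| ≤ H) ∧
      ∀ ℓ : ℕ, ℓ.Prime → ∀ I : Finset (Fin m), 3 ≤ I.card → (ℓ = 2 → n = 2 → 4 ≤ I.card) →
        ∀ W : I → ℕ, (∀ i, (W i).Coprime ℓ) → (∑ i, W i).Coprime ℓ →
          Graph.HasNoTateClasses ℓ ℚ v I W ∧
          (ℓ ≠ 2 → ∀ N : ℕ, ∃ (q : ℕ) (_ : Fact q.Prime), N < q ∧
            Graph.HasNoTateClasses ℓ (ZMod q) v I W)}.ncard : ℝ) /
      (2 * H + 1) ^ (m * (n + 1))) atTop (𝓝 1) := by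
  have hcard : Fintype.card (Fin m × Fin (n + 1)) = m * (n + 1) := by
    rw [Fintype.card_prod, Fintype.card_fin, Fintype.card_fin]
  rw [← hcard]
  refine density_mono8 (Fintype.card (Fin m × Fin (n + 1))) rfl ?_ (density_goodH hn)
  intro v hv ℓ hℓ I hI hI2 W hW hs
  refine ⟨hasNoTateClasses_rat8 hv hn hℓ hI hI2 W hW hs, fun hℓ2 N => ?_⟩
  by_cases hI4 : 4 ≤ I.card
  · exact exists_prime_hasNoTateClasses_graph hℓ hℓ2 hv hn hI4 W hW hs N
  · exact exists_prime_hasNoTateClasses_graph3 hℓ hℓ2 hv hn (by omega) W hW hs N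

end Pool.Agent.Lib.MP_89bcae_ag

end
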